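import Pool.Agent.W_7d29a1_C0.Loc7X

/-!
CURV0 (MP_7d29a1_pr), leaf T3: THE THIRD TERM OF THE TWO SIDED COMPARISON, part 3: THE TRANSPORT (helper7).

A functional of the futures times the indicator of `LB7` of one replica (the level is missed at both corners), under the measure `wt` of
the window of the row `j`: `t3_wtD` (over `E0D`: plain replicas, other replicas may be seen in full), `t3_wtP` (over `E0X`: plans). The
result: the event that the replica has, given its future, PAIRS of alternatives with three different values of the tilt, of mass at least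
`exp (- 5 m)`, at the corner.
-/

set_option autoImplicit false

namespace Pool.W7d29a1.C0.H7

open Finset MeasureTheory Filter Topology Pool.Agent.W_7d29a1_F Pool.Agent.W_7d29a1_X Pool.Agent.W_7d29a1_C0.Mod92
  Pool.Agent.W_7d29a1_C0.H32 Pool.W7d29a1.C0.H27
open Pool.W7d29a1.C0 (gz gm gz_pos rep rep_mono rep_smul)
open Pool.W7d29a1.C0.VT31
open Pool.Agent.W_7d29a1_C0.Swap57 (Ifb Obl ifb_cons_zero ifb_cons_succ)
open Pool.W7d29a1.C0.I52 (Plan ev)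
open Pool.Agent.W_7d29a1_Z74 (ZJ)
open scoped ENNReal

noncomputable section

/-! ### Resampling -/

section Abs

variable {X : Type*} [Fintype X] [Nonempty X] {Y Y' : Type*} [DecidableEq Y] [DecidableEq Y']

theorem ifb_rep7 {k : ℕ} (w : X → ℝ) (p : X → Y) (i : Fin k) :
    Ifb w p (fun x : Fin k → X => Real.exp (∑ l, w (x l)) / gz w ^ k) i := fun x S hS => by
  have e : Real.exp (∑ l, w (Function.update x i S l)) * Real.exp (w (x i)) =
      Real.exp (∑ l, w (x l)) * Real.exp (w S) := by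
    rw [← Real.exp_add, ← Real.exp_add]
    congr 1
    have h1 : ∀ l, w (Function.update x i S l) = Function.update (fun l => w (x l)) i (w S) l := fun l => by
      by_cases hk : l = i
      · subst hk
        simp
      · simp [hk]
    simp_rw [h1]
    rw [Finset.sum_update_of_mem (Finset.mem_univ i), ← Finset.add_sum_erase univ (fun l => w (x l)) (Finset.mem_univ i),
      Finset.sdiff_singleton_eq_erase]
    ring
  show Real.exp (∑ l, w (Function.update x i S l)) / gz w ^ k * Real.exp (w (x i)) =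
    Real.exp (∑ l, w (x l)) / gz w ^ k * Real.exp (w S)
  rw [div_mul_eq_mul_div, e]
  ring

/-- A plan which draws through `p` can be resampled in the fibres of `p`. -/
theorem Sat.ifb [DecidableEq X] {p : X → Y} : {m : ℕ} → {P : Plan X m} → Sat p P → ∀ (w : X → ℝ) (i : Fin m),
    Ifb w p (I52.wt P w) i
  | _, Plan.nil, _, _, i => i.elim0
  | _, Plan.cons P A h, hs, w, i => by
    refine Fin.cases ?_ (fun j => ?_) i
    · exact ifb_cons_zero P A h fun y S S' hS => hs.2 y y S S' (fun _ => rfl) hS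
    · refine ifb_cons_succ A h (hs.1.ifb w j) fun y S hS => ?_
      ext T
      refine hs.2 _ _ T T (fun l => ?_) rfl
      by_cases hl : l = j
      · subst hl
        rw [Function.update_self, hS]
      · rw [Function.update_of_ne hl]

/-- **One replica is replaced by a bound of the conditional mean.** -/
theorem t3_sum {ι : Type*} [Fintype ι] [DecidableEq ι] {w : X → ℝ} {q : X → Y'} {ρ Ψ : (ι → X) → ℝ} {i : ι} (h : Ifb w q ρ i)
    (hρ : ∀ x, 0 ≤ ρ x) (hΨ0 : ∀ x, 0 ≤ Ψ x) (hΨ : Obl q Ψ i) {f g : X → ℝ} (hfg : ∀ S, cE w q f S ≤ g S) :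
    ∑ x, ρ x * (f (x i) * Ψ x) ≤ ∑ x, ρ x * (g (x i) * Ψ x) := by
  have h1 := (h.mul hΨ).resample f
  have e1 : ∑ x, ρ x * (f (x i) * Ψ x) = ∑ x, ρ x * Ψ x * f (x i) := sum_congr rfl fun x _ => by ring
  rw [e1, ← h1]
  refine sum_le_sum fun x _ => ?_
  have h2 := mul_le_mul_of_nonneg_left (hfg (x i)) (mul_nonneg (hρ x) (hΨ0 x))
  linarith

end Abs

variable {μ : Measure ℝ} {s : ℝ} {N : ℕ} {P : Finset (Finset ℕ)}

theorem crs_Bp {m : ℕ} : Crs (pB (P := P) m) (pJ 0 m) := fun S S' h => by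
  have h1 := pJ0_iff.1 h
  exact Prod.ext h1.1 h1.2

/-! ### The response of the window -/

/-- The response of the window as a function of the past. -/
def gjU (μ : Measure ℝ) (s δ B : ℝ) (b j : ℕ) (a : ℤ) (η : Env) (T : Finset ℕ) : ℝ :=
  gw μ s η δ B a (j - b) (j + b - (j - b)) (j - (j - b)) (pos T (j - b)) (pos T (j + b))

theorem gjU_PA {δ B : ℝ} (hB : 0 ≤ B) {b j : ℕ} {a : ℤ} (ha : |(a : ℝ)| ≤ 1) {c : ℕ} (hc : j + b ≤ c) :
    PA c (B / 2) (gjU μ s δ B b j a) where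
  bd η T := abs_gw (μ := μ) (s := s) η (δ := δ) hB ha _ _ _ _ _
  bl η u x hu := by
    funext T
    unfold gjU
    rw [gw_upd η x hu δ B a (by omega : j - (j - b) ≤ j + b - (j - b)) (by omega : j - b + (j + b - (j - b)) ≤ c)]
  ms T := meas_gw (μ := μ) (s := s) δ B a _ _ _ _ _

theorem gjU_tA {δ B : ℝ} {b j : ℕ} {a : ℤ} {c : ℕ} (hc : j + b ≤ c) (η : Env) :
    tA (P := P) c (gjU μ s δ B b j a) η = gj μ s η δ B b j a := by
  funext S
  unfold tA gjU gj ps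
  rw [pos_inter S.1 hc, pos_inter S.1 (by omega : j - b ≤ c)]

theorem gw_loc7 {c : ℕ} {η ζ : Env} (h : ∀ q : Pt, q.1 ≤ c → ζ q = η q) (δ B : ℝ) (a : ℤ) {c' l k : ℕ} (hk : k ≤ l)
    (hc : c' + l ≤ c) (x y : ℤ) : gw μ s ζ δ B a c' l k x y = gw μ s η δ B a c' l k x y := by
  have hW : ∀ (a : Pt) (n : ℕ) (y : ℤ), a.1 + n ≤ c → W μ s ζ a n y = W μ s η a n y := fun a n y ha =>
    Pool.Agent.W_7d29a1_HZ.Z74.W_rows s a n y fun p _ hp => h p (by omega)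
  have h1 : ∀ (p q : ℤ), ZJ μ s ζ ((c' : ℤ), x) k (l - k) p q = ZJ μ s η ((c' : ℤ), x) k (l - k) p q := fun p q => by
    unfold Pool.Agent.W_7d29a1_Z74.ZJ
    refine sum_congr rfl fun z _ => ?_
    rw [hW _ _ _ (by simp only; omega), hW _ _ _ (by simp only; omega)]
  unfold gw lk
  rw [h1, hW _ _ _ (by simp only; omega)]

theorem gj_loc7 {δ B : ℝ} {b j : ℕ} {a : ℤ} {c K : ℕ} (hc : j + b ≤ c) {η ζ : Env} (h : ∀ q, q ∉ slb c K → ζ q = η q) :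
    gj (Q := P) μ s ζ δ B b j a = gj μ s η δ B b j a := by
  funext S
  unfold gj
  refine gw_loc7 (c := c) (fun q hq => h q fun hq' => ?_) δ B a (by omega) (by omega) _ _
  have := (rws_slb c K q hq').1
  omega

/-! ### The event of the pairs -/

/-- The level of the tilt of the row `j` is missed at both corners. -/
def Ms7 (μ : Measure ℝ) (s : ℝ) (N : ℕ) (P : Finset (Finset ℕ)) (δ B : ℝ) (b j : ℕ) (t δ1 : ℝ) (c K : ℕ) (η : Env) (a : ℤ)
    (S : Px P) : Prop :=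
  LB7 (lw μ s η N P) (wt μ s η N P δ B b j a (-a)) (fun S => (t - a) * gj μ s η δ B b j a S)
    (fun S => (t + a) * gj μ s η δ B b j a S) δ1 c K S

/-- **The replica has pairs of alternatives with three different values of the response of the row `j`**, of mass at least
`exp (- m)`, given what it does behind the row `z`. -/
def Tr7 (μ : Measure ℝ) (s : ℝ) (N : ℕ) (P : Finset (Finset ℕ)) (δ B : ℝ) (b j : ℕ) (z : ℕ) (d m : ℝ) (η : Env) (a : ℤ)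
    (S : Px P) : Prop :=
  Real.exp (-m) ≤ T2m (lw μ s η N P) (pJ 0 z) (gj μ s η δ B b j a) d S

open Classical in
/-- **T3, one environment.** -/
theorem ms7_le (hP : ∀ r ≤ N, Fam N r P) {c K : ℕ} (hN : c + K ≤ N) {δ B : ℝ} (hB : 0 ≤ B) {b j : ℕ} (hc : j + b ≤ c) {a : ℤ}
    (ha : a = 1 ∨ a = -1) {t δ1 m : ℝ} (ht : |t| ≤ 1) (hδ : 0 ≤ δ1) (hm : 8 * B + 4 * Real.log (N + 1) + 4 ≤ m) (η : Env)
    (S : Px P) :
    cE (wt μ s η N P δ B b j a t) (pJ 0 (c + K)) (fun x => if Ms7 μ s N P δ B b j t δ1 c K η a x then 1 else 0) S ≤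
      Real.exp (-m) +
        if Real.exp (-(4 * m)) ≤ T3m (lw μ s η N P) (pJ 0 (c + K)) (gj μ s η δ B b j a) (δ1 / 2) S then 1 else 0 := by
  have ha' : |(a : ℝ)| ≤ 1 := by rcases ha with rfl | rfl <;> norm_num
  have ha2 : (a : ℝ) = 1 ∨ (a : ℝ) = -1 := by rcases ha with rfl | rfl <;> norm_num
  have h1 := t3_mod (μ := μ) (s := s) hP hN (gjU_PA (μ := μ) (s := s) (δ := δ) hB ha' hc) ha2 ht hδ hm η S
  rw [gjU_tA hc] at h1
  have e1 : ∀ τ : ℝ, wt μ s η N P δ B b j a τ = fun S => lw μ s η N P S + (τ - a) * gj μ s η δ B b j a S := fun τ => by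
    funext S
    unfold wt
    rw [Pi.add_apply, Pi.smul_apply, smul_eq_mul]
  unfold Ms7
  rw [e1 t, e1 (-a)]
  exact h1

/-! ### Measurability -/

theorem meas_pm7 {Φ : Env × Finset ℕ → ℝ} (hm : ∀ A, Measurable fun η => Φ (η, A)) : Measurable Φ := by
  intro U hU
  have e : Φ ⁻¹' U = ⋃ A : Finset ℕ, ((fun η => Φ (η, A)) ⁻¹' U) ×ˢ {A} := by
    ext ⟨η, A⟩
    simp
  rw [e]
  exact MeasurableSet.iUnion fun A => (hm A hU).prod (MeasurableSet.singleton A)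

theorem meas_gj7 (δ B : ℝ) (b j : ℕ) (a : ℤ) (S : Px P) : Measurable fun η => gj μ s η δ B b j a S :=
  meas_gw (μ := μ) (s := s) δ B a _ _ _ _ _

theorem meas_I3 {Ω : Type*} [MeasurableSpace Ω] (d : ℝ) {f g h : Ω → ℝ} (hf : Measurable f) (hg : Measurable g)
    (hh : Measurable h) : Measurable fun ω => I3 d (f ω) (g ω) (h ω) := by
  unfold I3
  refine Measurable.ite ?_ measurable_const measurable_const
  exact (measurableSet_le measurable_const (hf.sub hg).abs).inter ((measurableSet_le measurable_const (hf.sub hh).abs).inter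
    (measurableSet_le measurable_const (hg.sub hh).abs))

theorem meas_T3m (δ B : ℝ) (b j : ℕ) (a : ℤ) (z : ℕ) (d : ℝ) (S : Px P) :
    Measurable fun η => T3m (lw μ s η N P) (pJ 0 z) (gj μ s η δ B b j a) d S := by
  unfold T3m
  exact meas_cE (fun x => meas_lw x) (fun x => meas_cE (fun x => meas_lw x) (fun y => meas_cE (fun x => meas_lw x)
    (fun z => meas_I3 d (meas_gj7 δ B b j a x) (meas_gj7 δ B b j a y) (meas_gj7 δ B b j a z)) _ _) _ _) _ _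

theorem meas_T2m (δ B : ℝ) (b j : ℕ) (a : ℤ) (z : ℕ) (d : ℝ) (S : Px P) :
    Measurable fun η => T2m (lw μ s η N P) (pJ 0 z) (gj μ s η δ B b j a) d S := by
  unfold T2m
  exact meas_cE (fun x => meas_lw x) (fun y => meas_cE (fun x => meas_lw x)
    (fun z => meas_I3 d (meas_gj7 δ B b j a S) (meas_gj7 δ B b j a y) (meas_gj7 δ B b j a z)) _ _) _ _

/-! ### The transport -/

/-- The event of the triples is robust, for every path of the fibre. -/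
theorem tr7_of {c K : ℕ} {δ B : ℝ} (hB : 0 ≤ B) {b j : ℕ} (hc : j + b ≤ c) {a : ℤ} {δ1 m : ℝ} (hδ : 0 ≤ δ1)
    (hm : 12 * B + 4 ≤ m) {η ζ : Env} (h1 : ∀ q, q ∉ slb c K → ζ q = η q) (h2 : ∀ q, |ζ q - η q| ≤ 2 * B / K) {S : Px P}
    (h : Real.exp (-(4 * m)) ≤ T3m (lw μ s η N P) (pJ 0 (c + K)) (gj μ s η δ B b j a) (δ1 / 2) S) :
    Tr7 μ s N P δ B b j (c + K) (δ1 / 4) (5 * m) ζ a S := by
  have : Nonempty (Px P) := ⟨S⟩
  unfold Tr7
  rw [gj_loc7 hc h1]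
  have h3 := T3m_tl (X := Px P) (w := lw μ s ζ N P) (w' := lw μ s η N P) (D := 2 * B)
    (fun x => by
      rw [abs_sub_comm]
      exact lw_near7 (by linarith) h1 h2 x) (pJ 0 (c + K)) (gj μ s η δ B b j a) (δ1 / 2) S
  have h4 := T3m_le (lw μ s ζ N P) (pJ 0 (c + K)) (gj μ s η δ B b j a) (show 0 ≤ δ1 / 2 by linarith) S
  rw [show δ1 / 2 / 2 = δ1 / 4 by ring] at h4
  have h5 : 3 * Real.exp (-(5 * m)) ≤ Real.exp (-(6 * (2 * B))) * Real.exp (-(4 * m)) := by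
    have h6 : (3 : ℝ) ≤ Real.exp 4 := by
      have := Real.add_one_le_exp (4 : ℝ)
      linarith
    calc 3 * Real.exp (-(5 * m)) ≤ Real.exp 4 * Real.exp (-(5 * m)) := mul_le_mul_of_nonneg_right h6 (Real.exp_pos _).le
      _ = Real.exp (4 - 5 * m) := by
          rw [← Real.exp_add]
          congr 1
      _ ≤ Real.exp (-(6 * (2 * B)) + -(4 * m)) := Real.exp_le_exp.2 (by linarith)
      _ = _ := Real.exp_add _ _
  have h7 := mul_le_mul_of_nonneg_left h (Real.exp_pos (-(6 * (2 * B)))).le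
  linarith

/-- The mass of the triples as a cut off of the future. -/
def hv7 (μ : Measure ℝ) (s : ℝ) (N : ℕ) (P : Finset (Finset ℕ)) (δ B : ℝ) (b j : ℕ) (z : ℕ) (d m : ℝ) (η : Env) (a : ℤ)
    (S : Px P) : ℝ := if Real.exp (-m) ≤ T3m (lw μ s η N P) (pJ 0 z) (gj μ s η δ B b j a) d S then 1 else 0

open Classical in
/-- The indicator of `Tr7`. -/
def iT7 (μ : Measure ℝ) (s : ℝ) (N : ℕ) (P : Finset (Finset ℕ)) (δ B : ℝ) (b j : ℕ) (z : ℕ) (d m : ℝ) (η : Env) (a : ℤ)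
    (S : Px P) : ℝ := if Tr7 μ s N P δ B b j z d m η a S then 1 else 0

open Classical in
/-- The indicator of `Ms7`. -/
def iM7 (μ : Measure ℝ) (s : ℝ) (N : ℕ) (P : Finset (Finset ℕ)) (δ B : ℝ) (b j : ℕ) (t δ1 : ℝ) (c K : ℕ) (η : Env) (a : ℤ)
    (S : Px P) : ℝ := if Ms7 μ s N P δ B b j t δ1 c K η a S then 1 else 0

theorem hv7_01 {δ B : ℝ} {b j z : ℕ} {d m : ℝ} {η : Env} {a : ℤ} {S : Px P} :
    0 ≤ hv7 μ s N P δ B b j z d m η a S ∧ hv7 μ s N P δ B b j z d m η a S ≤ 1 := by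
  unfold hv7
  split_ifs <;> norm_num

theorem iT7_01 {δ B : ℝ} {b j z : ℕ} {d m : ℝ} {η : Env} {a : ℤ} {S : Px P} :
    0 ≤ iT7 μ s N P δ B b j z d m η a S ∧ iT7 μ s N P δ B b j z d m η a S ≤ 1 := by
  unfold iT7
  split_ifs <;> norm_num

theorem iM7_01 {δ B : ℝ} {b j : ℕ} {t δ1 : ℝ} {c K : ℕ} {η : Env} {a : ℤ} {S : Px P} :
    0 ≤ iM7 μ s N P δ B b j t δ1 c K η a S ∧ iM7 μ s N P δ B b j t δ1 c K η a S ≤ 1 := by
  unfold iM7
  split_ifs <;> norm_num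

theorem meas_hv7 (δ B : ℝ) (b j z : ℕ) (d m : ℝ) (a : ℤ) (S : Px P) :
    Measurable fun η => hv7 μ s N P δ B b j z d m η a S := by
  unfold hv7
  exact Measurable.ite (measurableSet_le measurable_const (meas_T3m δ B b j _ _ _ _)) measurable_const measurable_const

theorem meas_iT7 (δ B : ℝ) (b j z : ℕ) (d m : ℝ) (a : ℤ) (S : Px P) :
    Measurable fun η => iT7 μ s N P δ B b j z d m η a S := by
  unfold iT7 Tr7
  exact Measurable.ite (measurableSet_le measurable_const (meas_T2m δ B b j _ _ _ _)) measurable_const measurable_const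

theorem hv7_mp (δ B : ℝ) (b j z : ℕ) (d m : ℝ) (η : Env) (a : ℤ) : Mp (pJ 0 z) (hv7 μ s N P δ B b j z d m η a) := by
  intro S S' h
  have : Nonempty (Px P) := ⟨S⟩
  unfold hv7
  rw [T3m_mp (lw μ s η N P) (pJ 0 z) (gj μ s η δ B b j a) d S S' h]

/-- **T3, one environment, for any weights of the tuples.** -/
theorem t3_one (hP : ∀ r ≤ N, Fam N r P) {c K : ℕ} (hN : c + K ≤ N) {δ B : ℝ} (hB : 0 ≤ B) {b j : ℕ} (hc : j + b ≤ c) {a : ℤ}
    (ha : a = 1 ∨ a = -1) {t δ1 m : ℝ} (ht : |t| ≤ 1) (hδ : 0 ≤ δ1) (hm : 8 * B + 4 * Real.log (N + 1) + 4 ≤ m) (η : Env)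
    [Nonempty (Px P)] {k : ℕ} {ρ Ψ : (Fin k → Px P) → ℝ} {i : Fin k}
    (h : Ifb (wt μ s η N P δ B b j a t) (pJ 0 (c + K)) ρ i) (hρ : ∀ x, 0 ≤ ρ x) (hΨ0 : ∀ x, 0 ≤ Ψ x)
    (hΨ : Obl (pJ 0 (c + K)) Ψ i) {Λ : ℝ} (hΛ : ∀ x, Ψ x ≤ Λ) :
    ∑ x, ρ x * (iM7 μ s N P δ B b j t δ1 c K η a (x i) * Ψ x) ≤
      ∑ x, ρ x * (hv7 μ s N P δ B b j (c + K) (δ1 / 2) (4 * m) η a (x i) * Ψ x) + Λ * Real.exp (-m) * ∑ x, ρ x := by
  have h1 := t3_sum h hρ hΨ0 hΨ (f := iM7 μ s N P δ B b j t δ1 c K η a)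
    (g := fun S => Real.exp (-m) + hv7 μ s N P δ B b j (c + K) (δ1 / 2) (4 * m) η a S)
    (fun S => ms7_le hP hN hB hc ha ht hδ hm η S)
  refine h1.trans ?_
  rw [mul_sum, ← sum_add_distrib]
  refine sum_le_sum fun x _ => ?_
  have h2 := mul_le_mul_of_nonneg_left (mul_le_mul_of_nonneg_left (hΛ x) (Real.exp_pos (-m)).le) (hρ x)
  linarith

/-- The passenger. -/
theorem pas7 {c K : ℕ} {δ B : ℝ} (hB : 0 ≤ B) {b j : ℕ} (hc : j + b ≤ c) {a : ℤ} {δ1 m : ℝ} (hδ : 0 ≤ δ1)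
    (hm : 12 * B + 4 ≤ m) {η ζ : Env} (h1 : ∀ q, q ∉ slb c K → ζ q = η q) (h2 : ∀ q, |ζ q - η q| ≤ 2 * B / K) (S : Px P) :
    hv7 μ s N P δ B b j (c + K) (δ1 / 2) (4 * m) η a S ≤ iT7 μ s N P δ B b j (c + K) (δ1 / 4) (5 * m) ζ a S := by
  unfold hv7 iT7
  by_cases h3 : Real.exp (-(4 * m)) ≤ T3m (lw μ s η N P) (pJ 0 (c + K)) (gj μ s η δ B b j a) (δ1 / 2) S
  · rw [if_pos h3, if_pos (tr7_of hB hc hδ hm h1 h2 h3)]
  · rw [if_neg h3]
    split_ifs <;> norm_num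

theorem mul_le7 {u v Λ : ℝ} (hu : 0 ≤ u ∧ u ≤ 1) (hv0 : 0 ≤ v) (hv : v ≤ Λ) : u * v ≤ Λ := by nlinarith [hu.1, hu.2]

theorem rep_sum7 {X : Type*} [Fintype X] {k : ℕ} (w : X → ℝ) (Θ : (Fin k → X) → ℝ) :
    rep k w Θ = ∑ x : Fin k → X, Real.exp (∑ l, w (x l)) / gz w ^ k * Θ x := by
  unfold rep
  rw [Finset.sum_div]
  exact Finset.sum_congr rfl fun x _ => by ring

/-- **T3 over E0D**: plain replicas; the replicas of `F` are seen in full, the replica `i` is not one of them. -/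
theorem t3_wtD [IsProbabilityMeasure μ] [Nonempty (Px P)] (hP : ∀ r ≤ N, Fam N r P) {k c K : ℕ} {F : Fin k → Prop}
    {δ' B ε K' : ℝ} (h : ∀ U : Env → Finset ℕ → ℝ, PA c B U → E0D μ s k N P F δ' c K (2 * B / K) (tA c U) ε K') (hB : 0 ≤ B)
    (hN : c + K ≤ N) {δ t : ℝ} (ht : |t| ≤ 1) {b j : ℕ} (hc : j + b ≤ c) {G : Set Env} (hG : MeasurableSet G)
    {Ψ Ψ' : Env × Finset ℕ → (Fin k → Px P) → ℝ} (h0 : ∀ ω x, 0 ≤ Ψ ω x) (hΛ : ∀ ω x, Ψ ω x ≤ (N : ℝ) ^ K')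
    (h0' : ∀ ω x, 0 ≤ Ψ' ω x) (hΛ' : ∀ ω x, Ψ' ω x ≤ (N : ℝ) ^ K') (hm : ∀ x A, Measurable fun η => Ψ (η, A) x)
    (hm' : ∀ x A, Measurable fun η => Ψ' (η, A) x)
    (hΨ : ∀ ω, ∀ x x' : Fin k → Px P, (∀ i, F i → x i = x' i) → (∀ i, pB (c + K) (x i) = pB (c + K) (x' i)) → Ψ ω x = Ψ ω x')
    (hNL : ∀ A, ∀ η ∈ G, ∀ x, Ψ (η, A) x ≠ 0 → ∀ i, F i →
      NL7 (lw μ s η N P) (fun S => (t - sg A j) * gj μ s η δ B b j (sg A j) S) δ' c K (x i))
    (hpas : ∀ A, ∀ η ∈ G, ∀ ζ : Env, (∀ q, q ∉ slb c K → ζ q = η q) → (∀ q, |ζ q - η q| ≤ 2 * B / K) →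
      ∀ x, Ψ (η, A) x ≤ Ψ' (ζ, A) x) {i : Fin k} (hi : ¬ F i) {δ1 m : ℝ} (hδ1 : 0 ≤ δ1)
    (hmB : 12 * B + 4 * Real.log (N + 1) + 4 ≤ m) :
    ∫ ω, rep k (wt μ s ω.1 N P δ B b j (sg ω.2 j) t)
        (fun x => iM7 μ s N P δ B b j t δ1 c K ω.1 (sg ω.2 j) (x i) * Ψ ω x) ∂(Pm μ N) ≤
      (N : ℝ) ^ ε * (∫ ω, rep k (wm μ s N P ω)
          (fun x => iT7 μ s N P δ B b j (c + K) (δ1 / 4) (5 * m) ω.1 (sg ω.2 j) (x i) * Ψ' ω x) ∂(Pm μ N) +
        (N : ℝ) ^ (-K')) + (N : ℝ) ^ K' * (law μ Gᶜ).toReal + (N : ℝ) ^ K' * Real.exp (-m) := by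
  have hlog : 0 ≤ Real.log (N + 1) := Real.log_nonneg (by
    have : (0 : ℝ) ≤ N := Nat.cast_nonneg _
    linarith)
  have hNK : 0 ≤ (N : ℝ) ^ K' := Real.rpow_nonneg (Nat.cast_nonneg _) _
  -- the functional of the futures
  obtain ⟨Φ, hΦ⟩ : ∃ Φ : Env × Finset ℕ → (Fin k → Px P) → ℝ, ∀ ω x, Φ ω x =
    hv7 μ s N P δ B b j (c + K) (δ1 / 2) (4 * m) ω.1 (sg ω.2 j) (x i) * Ψ ω x := ⟨_, fun _ _ => rfl⟩
  have hΦm : ∀ x A, Measurable fun η => Φ (η, A) x := fun x A => by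
    simp only [hΦ]
    exact (meas_hv7 δ B b j _ _ _ _ _).mul (hm x A)
  have hΦ0 : ∀ ω x, 0 ≤ Φ ω x := fun ω x => by
    rw [hΦ]
    exact mul_nonneg hv7_01.1 (h0 ω x)
  have hΦΛ : ∀ ω x, Φ ω x ≤ (N : ℝ) ^ K' := fun ω x => by
    rw [hΦ]
    exact mul_le7 hv7_01 (h0 ω x) (hΛ ω x)
  have key := e0_wtD (μ := μ) (s := s) h hB (δ := δ) ht hc hG hΦ0 hΦΛ
    (Ψ' := fun ω x => iT7 μ s N P δ B b j (c + K) (δ1 / 4) (5 * m) ω.1 (sg ω.2 j) (x i) * Ψ' ω x)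
    (fun ω x => mul_nonneg iT7_01.1 (h0' ω x)) (fun ω x => mul_le7 iT7_01 (h0' ω x) (hΛ' ω x)) hΦm
    (fun x A => (meas_iT7 δ B b j (c + K) (δ1 / 4) (5 * m) (sg A j) (x i)).mul (hm' x A))
    (fun ω x x' hF hx => by
      rw [hΦ, hΦ, hΨ ω x x' hF hx, hv7_mp δ B b j (c + K) (δ1 / 2) (4 * m) ω.1 (sg ω.2 j) (x i) (x' i)
        (crs_pJ0 le_rfl _ _ (hx i))])
    (fun A η hη x hx => hNL A η hη x fun h => hx (by rw [hΦ, h, mul_zero]))
    (fun A η hη ζ hz1 hz2 x => by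
      rw [hΦ]
      exact mul_le_mul (pas7 hB hc hδ1 (by linarith) hz1 hz2 (x i)) (hpas A η hη ζ hz1 hz2 x) (h0 _ _) iT7_01.1)
  -- one environment
  have h1 : ∀ ω : Env × Finset ℕ, rep k (wt μ s ω.1 N P δ B b j (sg ω.2 j) t)
      (fun x => iM7 μ s N P δ B b j t δ1 c K ω.1 (sg ω.2 j) (x i) * Ψ ω x) ≤
      rep k (wt μ s ω.1 N P δ B b j (sg ω.2 j) t) (Φ ω) + (N : ℝ) ^ K' * Real.exp (-m) := fun ω => by
    have hi1 : Obl (pJ 0 (c + K)) (Ψ ω) i := fun x S hS => by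
      refine hΨ ω _ _ (fun l hl => ?_) fun l => ?_
      · rw [Function.update_of_ne]
        rintro rfl
        exact hi hl
      · by_cases hl : l = i
        · subst hl
          rw [Function.update_self]
          exact crs_Bp _ _ hS
        · rw [Function.update_of_ne hl]
    have h2 := t3_one (μ := μ) (s := s) (δ := δ) (m := m) hP hN hB hc (sg_or ω.2 j) ht hδ1 (by linarith) ω.1
      (ifb_rep7 (wt μ s ω.1 N P δ B b j (sg ω.2 j) t) (pJ 0 (c + K)) i)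
      (fun x => div_nonneg (Real.exp_pos _).le (pow_nonneg (gz_pos _).le _)) (h0 ω) hi1 (hΛ ω)
    have e1 := H41.rep_one k (wt μ s ω.1 N P δ B b j (sg ω.2 j) t)
    rw [rep_sum7] at e1
    simp only [mul_one] at e1
    rw [e1, mul_one] at h2
    rw [rep_sum7, rep_sum7]
    simp only [hΦ]
    exact h2
  have hint : Integrable (fun ω => rep k (wt μ s ω.1 N P δ B b j (sg ω.2 j) t) (Φ ω)) (Pm μ N) := by
    refine Integrable.of_bound (meas_pm7 (fun A => ?_)).aestronglyMeasurable ((N : ℝ) ^ K') (Eventually.of_forall fun ω => ?_)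
    · refine meas_rep (fun S => ?_) fun x => hΦm x A
      simp only [wt_tA (N := N) (P := P) (t := t) (δ := δ) (B := B) (a := sg A j) hc]
      exact (meas_lw S).add ((gwU_PA (μ := μ) (s := s) (δ := δ) hB (abs_sg A j).le ht hc).ms _)
    · rw [Real.norm_eq_abs, abs_of_nonneg (rep_nonneg7 _ (hΦ0 ω))]
      exact rep_le_const7 _ (hΦΛ ω)
  have h2 : ∫ ω, rep k (wt μ s ω.1 N P δ B b j (sg ω.2 j) t)
      (fun x => iM7 μ s N P δ B b j t δ1 c K ω.1 (sg ω.2 j) (x i) * Ψ ω x) ∂(Pm μ N) ≤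
      ∫ ω, (rep k (wt μ s ω.1 N P δ B b j (sg ω.2 j) t) (Φ ω) + (N : ℝ) ^ K' * Real.exp (-m)) ∂(Pm μ N) :=
    integral_mono_of_nonneg (Eventually.of_forall fun ω => rep_nonneg7 _ fun x =>
      mul_nonneg iM7_01.1 (h0 ω x)) (hint.add (integrable_const _)) (Eventually.of_forall h1)
  rw [integral_add hint (integrable_const _), integral_const, probReal_univ, one_smul] at h2
  exact h2.trans (add_le_add key le_rfl)

/-- **T3 over E0X**: plans; all the replicas are seen behind the slab only. -/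
theorem t3_wtP [IsProbabilityMeasure μ] [Nonempty (Px P)] (hP : ∀ r ≤ N, Fam N r P) {k c K : ℕ} {B ε K' : ℝ}
    (h : ∀ U : Env → Finset ℕ → ℝ, PA c B U → E0X μ s k N P c K (pB (c + K)) (2 * B / K) (tA c U) ε K') (hB : 0 ≤ B)
    (hN : c + K ≤ N) {δ t : ℝ} (ht : |t| ≤ 1) {b j : ℕ} (hc : j + b ≤ c) {Pl : Plan (Px P) k} (hMg : Marg Pl)
    (hSt : Sat (pB (c + K)) Pl) {G : Set Env} (hG : MeasurableSet G)
    {Ψ Ψ' : Env × Finset ℕ → (Fin k → Px P) → ℝ} (h0 : ∀ ω x, 0 ≤ Ψ ω x) (hΛ : ∀ ω x, Ψ ω x ≤ (N : ℝ) ^ K')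
    (h0' : ∀ ω x, 0 ≤ Ψ' ω x) (hΛ' : ∀ ω x, Ψ' ω x ≤ (N : ℝ) ^ K') (hm : ∀ x A, Measurable fun η => Ψ (η, A) x)
    (hm' : ∀ x A, Measurable fun η => Ψ' (η, A) x)
    (hΨ : ∀ ω, ∀ x x' : Fin k → Px P, (∀ i, pB (c + K) (x i) = pB (c + K) (x' i)) → Ψ ω x = Ψ ω x')
    (hpas : ∀ A, ∀ η ∈ G, ∀ ζ : Env, (∀ q, q ∉ slb c K → ζ q = η q) → (∀ q, |ζ q - η q| ≤ 2 * B / K) →
      ∀ x, Ψ (η, A) x ≤ Ψ' (ζ, A) x) (i : Fin k) {δ1 m : ℝ} (hδ1 : 0 ≤ δ1)
    (hmB : 12 * B + 4 * Real.log (N + 1) + 4 ≤ m) :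
    ∫ ω, ev Pl (wt μ s ω.1 N P δ B b j (sg ω.2 j) t)
        (fun x => iM7 μ s N P δ B b j t δ1 c K ω.1 (sg ω.2 j) (x i) * Ψ ω x) ∂(Pm μ N) ≤
      (N : ℝ) ^ ε * (∫ ω, ev Pl (wm μ s N P ω)
          (fun x => iT7 μ s N P δ B b j (c + K) (δ1 / 4) (5 * m) ω.1 (sg ω.2 j) (x i) * Ψ' ω x) ∂(Pm μ N) +
        (N : ℝ) ^ (-K')) + (N : ℝ) ^ K' * (law μ Gᶜ).toReal + (N : ℝ) ^ K' * Real.exp (-m) := by
  have hlog : 0 ≤ Real.log (N + 1) := Real.log_nonneg (by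
    have : (0 : ℝ) ≤ N := Nat.cast_nonneg _
    linarith)
  have hNK : 0 ≤ (N : ℝ) ^ K' := Real.rpow_nonneg (Nat.cast_nonneg _) _
  -- the functional of the futures
  obtain ⟨Φ, hΦ⟩ : ∃ Φ : Env × Finset ℕ → (Fin k → Px P) → ℝ, ∀ ω x, Φ ω x =
    hv7 μ s N P δ B b j (c + K) (δ1 / 2) (4 * m) ω.1 (sg ω.2 j) (x i) * Ψ ω x := ⟨_, fun _ _ => rfl⟩
  have hΦm : ∀ x A, Measurable fun η => Φ (η, A) x := fun x A => by
    simp only [hΦ]
    exact (meas_hv7 δ B b j _ _ _ _ _).mul (hm x A)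
  have hΦ0 : ∀ ω x, 0 ≤ Φ ω x := fun ω x => by
    rw [hΦ]
    exact mul_nonneg hv7_01.1 (h0 ω x)
  have hΦΛ : ∀ ω x, Φ ω x ≤ (N : ℝ) ^ K' := fun ω x => by
    rw [hΦ]
    exact mul_le7 hv7_01 (h0 ω x) (hΛ ω x)
  have key := e0_wtP (μ := μ) (s := s) h hB (δ := δ) ht hc hMg hSt hG hΦ0 hΦΛ
    (Ψ' := fun ω x => iT7 μ s N P δ B b j (c + K) (δ1 / 4) (5 * m) ω.1 (sg ω.2 j) (x i) * Ψ' ω x)
    (fun ω x => mul_nonneg iT7_01.1 (h0' ω x)) (fun ω x => mul_le7 iT7_01 (h0' ω x) (hΛ' ω x)) hΦm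
    (fun x A => (meas_iT7 δ B b j (c + K) (δ1 / 4) (5 * m) (sg A j) (x i)).mul (hm' x A))
    (fun ω x x' hx => by
      rw [hΦ, hΦ, hΨ ω x x' hx, hv7_mp δ B b j (c + K) (δ1 / 2) (4 * m) ω.1 (sg ω.2 j) (x i) (x' i)
        (crs_pJ0 le_rfl _ _ (hx i))])
    (fun A η hη ζ hz1 hz2 x => by
      rw [hΦ]
      exact mul_le_mul (pas7 hB hc hδ1 (by linarith) hz1 hz2 (x i)) (hpas A η hη ζ hz1 hz2 x) (h0 _ _) iT7_01.1)
  -- one environment
  have h1 : ∀ ω : Env × Finset ℕ, ev Pl (wt μ s ω.1 N P δ B b j (sg ω.2 j) t)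
      (fun x => iM7 μ s N P δ B b j t δ1 c K ω.1 (sg ω.2 j) (x i) * Ψ ω x) ≤
      ev Pl (wt μ s ω.1 N P δ B b j (sg ω.2 j) t) (Φ ω) + (N : ℝ) ^ K' * Real.exp (-m) := fun ω => by
    have hi1 : Obl (pJ 0 (c + K)) (Ψ ω) i := fun x S hS => by
      refine hΨ ω _ _ fun l => ?_
      by_cases hl : l = i
      · subst hl
        rw [Function.update_self]
        exact crs_Bp _ _ hS
      · rw [Function.update_of_ne hl]
    have h2 := t3_one (μ := μ) (s := s) (δ := δ) (m := m) hP hN hB hc (sg_or ω.2 j) ht hδ1 (by linarith) ω.1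
      ((hSt.ifb (wt μ s ω.1 N P δ B b j (sg ω.2 j) t) i).of_crs crs_Bp)
      (fun x => I52.wt_nonneg Pl _ x) (h0 ω) hi1 (hΛ ω)
    have e1 : ∑ x, I52.wt Pl (wt μ s ω.1 N P δ B b j (sg ω.2 j) t) x = 1 := by
      have e2 := I52.ev_one Pl (wt μ s ω.1 N P δ B b j (sg ω.2 j) t)
      unfold ev at e2
      simpa only [mul_one] using e2
    rw [e1, mul_one] at h2
    unfold ev
    simp only [hΦ]
    exact h2
  have hint : Integrable (fun ω => ev Pl (wt μ s ω.1 N P δ B b j (sg ω.2 j) t) (Φ ω)) (Pm μ N) := by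
    refine Integrable.of_bound (meas_pm7 (fun A => ?_)).aestronglyMeasurable ((N : ℝ) ^ K') (Eventually.of_forall fun ω => ?_)
    · refine meas_evP (fun S => ?_) Pl fun x => hΦm x A
      simp only [wt_tA (N := N) (P := P) (t := t) (δ := δ) (B := B) (a := sg A j) hc]
      exact (meas_lw S).add ((gwU_PA (μ := μ) (s := s) (δ := δ) hB (abs_sg A j).le ht hc).ms _)
    · rw [Real.norm_eq_abs, abs_of_nonneg (I52.ev_nonneg Pl _ (hΦ0 ω))]
      exact ev_le_const Pl _ (hΦΛ ω)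
  have h2 : ∫ ω, ev Pl (wt μ s ω.1 N P δ B b j (sg ω.2 j) t)
      (fun x => iM7 μ s N P δ B b j t δ1 c K ω.1 (sg ω.2 j) (x i) * Ψ ω x) ∂(Pm μ N) ≤
      ∫ ω, (ev Pl (wt μ s ω.1 N P δ B b j (sg ω.2 j) t) (Φ ω) + (N : ℝ) ^ K' * Real.exp (-m)) ∂(Pm μ N) :=
    integral_mono_of_nonneg (Eventually.of_forall fun ω => I52.ev_nonneg Pl _ fun x =>
      mul_nonneg iM7_01.1 (h0 ω x)) (hint.add (integrable_const _)) (Eventually.of_forall h1)
  rw [integral_add hint (integrable_const _), integral_const, probReal_univ, one_smul] at h2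
  exact h2.trans (add_le_add key le_rfl)

end

end Pool.W7d29a1.C0.H7
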