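import Pool.Agent.W_7d29a1_C0.Pair86

/-!
C0, helper86: LOCALISED NEAR TIES. Two replicas (same ends, SAME ENVIRONMENT, no shear) which meet at two times `a`, `b'` with
`b' ≤ a + 32 t` around a window `[τ, τ + t / 4]` in which they do not meet give a near tie whose brackets have the duration at most `32 t`:
it does not see the rows at distance `≥ 65 t`, and its price is `L ^ ε / EE' t` given every event which does not see the rows `[τ, τ + t)`.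
-/

set_option autoImplicit false

namespace Pool.Agent.W_7d29a1_C0.P86

open MeasureTheory ProbabilityTheory Filter Topology Finset
open Pool.Agent.W_7d29a1_F Pool.Agent.W_7d29a1_X Pool.Agent.W_7d29a1_h4g Pool.Agent.W_7d29a1_H
open Pool.Agent.W_7d29a1_HS (In wd md)
open Pool.Agent.W_7d29a1_HZ Pool.Agent.W_7d29a1_HZ.R72 Pool.Agent.W_7d29a1_Z.Asm72
open Pool.Agent.W_7d29a1_HZ.Z86
open Pool.Agent.W_7d29a1_HZ.Z86.GX (NRel WT NOk TieInX numWX)
open Pool.Agent.W_7d29a1_Z36 (LocC)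
open Pool.Agent.W_7d29a1_HZ.Z36 (kk BadC depthC)
open Pool.Agent.W_7d29a1_HZ.ZE (Par NXE nok_NXE TVp POk numX P1_tvp tieE_all cL cE winE stv stv_card locL locE winE_JJ winE_J cE_eq cE_of
  nte_of_pair)
open Pool.Agent.W_7d29a1_ZE (Win Br)
open Pool.Agent.W_7d29a1_HZ.Z74 (P2_ex_le P2_and_le)
open scoped ENNReal

variable {μ : Measure ℝ} {s : ℝ}

/-! ### The bad events of the depth, without shear -/

/-- One bad event: bracket, window, line. -/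
def EvL (μ : Measure ℝ) (s : ℝ) (N : ℕ) (pr : Par) (lm : ℝ) (i : (ℕ × ℕ) × WT × (ℤ × ℤ)) (η : Env) (S S' : Finset ℕ) : Prop :=
  ((i.1.1 ≤ i.1.2 ∧ i.1.2 ≤ N) ∧ (∀ k ∈ i.2.1.2.2, i.1.1 < k ∧ k < i.1.2)) ∧
    BadC μ s (fun _ => 0) i.1.1 i.1.2 ∅ (cL μ s (winE N 0 pr.a i.2.1 0 i.2.2.1 i.2.2.2))
      (cE μ s (winE N 0 pr.a i.2.1 0 i.2.2.1 i.2.2.2) pr.L pr.e pr.C pr.i₀ pr.i₁) lm η S S'

/-- The index set. -/
noncomputable def IdxL (L N t τ e0 E : ℕ) (n1 : ℕ → ℕ) : Finset ((ℕ × ℕ) × WT × (ℤ × ℤ)) :=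
  (range (L + 1) ×ˢ range (L + 1)) ×ˢ (Wd N t τ 0 n1 e0 E 0) ×ˢ (({1, -1} : Finset ℤ) ×ˢ Icc (-(2 * (L : ℤ))) (2 * L))

theorem card_IdxL {L N t τ e0 E X : ℕ} {n1 : ℕ → ℕ} (hX : (Wd N t τ 0 n1 e0 E 0).card ≤ X) :
    ((IdxL L N t τ e0 E n1).card : ℝ) ≤ 8 * ((L : ℝ) + 1) ^ 3 * X := by
  have e1 : ((Icc (-(2 * (L : ℤ))) (2 * L)).card : ℝ) = 4 * L + 1 := by
    rw [Int.card_Icc]
    have : ((2 * (L : ℤ) + 1 - -(2 * (L : ℤ))).toNat) = 4 * L + 1 := by omega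
    rw [this]
    push_cast
    ring
  have e2 : (({1, -1} : Finset ℤ).card : ℝ) = 2 := by
    have : ({1, -1} : Finset ℤ).card = 2 := rfl
    rw [this]
    norm_num
  have hX' : ((Wd N t τ 0 n1 e0 E 0).card : ℝ) ≤ X := by exact_mod_cast hX
  unfold IdxL
  rw [card_product, card_product, card_product, card_product, card_range]
  push_cast
  rw [e1, e2]
  have h0 : (0 : ℝ) ≤ L := by positivity
  have h1 : ((L : ℝ) + 1) * (L + 1) * ((Wd N t τ 0 n1 e0 E 0).card * (2 * (4 * L + 1))) =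
      ((L : ℝ) + 1) ^ 2 * (8 * L + 2) * (Wd N t τ 0 n1 e0 E 0).card := by ring
  rw [h1]
  have h2 : ((L : ℝ) + 1) ^ 2 * (8 * L + 2) ≤ 8 * ((L : ℝ) + 1) ^ 3 := by
    have : ((L : ℝ) + 1) ^ 2 * (8 * L + 2) ≤ ((L : ℝ) + 1) ^ 2 * (8 * (L + 1)) := by gcongr; linarith
    refine this.trans (le_of_eq ?_)
    ring
  exact mul_le_mul h2 hX' (by positivity) (by positivity)

/-- The bad events of the depth. -/
def BadL (μ : Measure ℝ) (s : ℝ) (L N t τ e0 E : ℕ) (n1 : ℕ → ℕ) (pr : Par) (lm : ℝ) (η : Env) (S S' : Finset ℕ) : Prop :=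
  ∃ i ∈ IdxL L N t τ e0 E n1, EvL μ s N pr lm i η S S'

theorem pcs_zero (a b : ℕ) (J : Finset ℕ) : Pcs (fun _ => 0) a b J ∅ where
  sub q hq := absurd hq (notMem_empty q)
  dis q hq := absurd hq (notMem_empty q)
  cov _ _ _ h := absurd rfl h
  out _ _ q hq := absurd hq (notMem_empty q)

theorem badL_pr [IsProbabilityMeasure μ] {L N t τ e0 E X : ℕ} {n1 : ℕ → ℕ} {pr : Par} (hia : pr.i₁ ≤ pr.a) {y : ℤ}
    (hX : (Wd N t τ 0 n1 e0 E 0).card ≤ X) {lm : ℝ} :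
    P2 μ s N y (fun _ => 0) (BadL μ s L N t τ e0 E n1 pr lm) ≤
      ENNReal.ofReal (24 * ((L : ℝ) + 1) ^ 3 * X * Real.exp (-lm)) := by
  have h1 := P2_ex_le (μ := μ) (s := s) (N := N) (y := y) (v := fun _ => 0) (IdxL L N t τ e0 E n1) (EvL μ s N pr lm)
    (c := ENNReal.ofReal (3 * Real.exp (-lm))) (fun i _ => by
      refine P2_and_le fun hc => ?_
      obtain ⟨⟨c1, c2⟩, c4⟩ := hc
      exact depthC (fun _ => 0) c1 c2 (fun k hk => ⟨(c4 k hk).1.le, (c4 k hk).2.le⟩) (pcs_zero _ _ _)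
        (Pool.Agent.W_7d29a1_HZ.ZE.LocC.mono' (locL _) (winE_JJ _ _ _ _ _ _ _))
        (Pool.Agent.W_7d29a1_HZ.ZE.LocC.mono' (locE _ _ _ _ _ hia) (winE_JJ _ _ _ _ _ _ _)) lm)
  refine h1.trans ?_
  rw [← ENNReal.ofReal_natCast, ← ENNReal.ofReal_mul (by positivity)]
  refine ENNReal.ofReal_le_ofReal ?_
  calc ((IdxL L N t τ e0 E n1).card : ℝ) * (3 * Real.exp (-lm)) ≤ (8 * ((L : ℝ) + 1) ^ 3 * X) * (3 * Real.exp (-lm)) :=
        mul_le_mul_of_nonneg_right (card_IdxL hX) (by positivity)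
    _ = _ := by ring

theorem not_badL {L N t τ e0 E : ℕ} {n1 : ℕ → ℕ} {pr : Par} {lm : ℝ} {η : Env} {S S' : Finset ℕ} (hN : N ≤ L) (hE : 2 ^ (E + 3) ≤ L)
    (hm0 : ∀ j, 0 ≤ md μ s j) (hm1 : ∀ j, md μ s j ≤ j) (h : ¬ BadL μ s L N t τ e0 E n1 pr lm η S S') {a b' : ℕ} (hab : a ≤ b')
    (hbN : b' ≤ N) {W : WT} (hW : W ∈ Wd N t τ 0 n1 e0 E 0) {sg Y : ℤ} (hsg : sg = 1 ∨ sg = -1)
    (hY : |sg * (pos S' W.2.1 - md μ s W.2.1) - Y| ≤ ((2 ^ (W.1 + 3) : ℕ) : ℤ)) (hJ : ∀ i ∈ W.2.2, a < i ∧ i < b') :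
    ¬ BadC μ s (fun _ => 0) a b' ∅ (cL μ s (winE N 0 pr.a W 0 sg Y)) (cE μ s (winE N 0 pr.a W 0 sg Y) pr.L pr.e pr.C pr.i₀ pr.i₁) lm
      η S S' := by
  intro hB
  obtain ⟨-, hWE, -, hj, hrow, -⟩ := mem_Wd.1 hW
  refine h ⟨((a, b'), W, (sg, Y)), ?_, ⟨⟨hab, hbN⟩, hJ⟩, hB⟩
  unfold IdxL
  rw [mem_product, mem_product, mem_product, mem_product]
  refine ⟨⟨by rw [mem_range]; show a < L + 1; omega, by rw [mem_range]; show b' < L + 1; omega⟩, hW, ?_, ?_⟩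
  · show sg ∈ ({1, -1} : Finset ℤ)
    rw [mem_insert, mem_singleton]
    exact hsg
  · show Y ∈ Icc (-(2 * (L : ℤ))) (2 * L)
    rw [mem_Icc]
    have h1 := pos_nonneg S' W.2.1
    have h2 := pos_le S' W.2.1
    have h3 := (hrow _ hj).2
    have h4 : ((2 ^ (W.1 + 3) : ℕ) : ℤ) ≤ L := by
      have : 2 ^ (W.1 + 3) ≤ 2 ^ (E + 3) := Nat.pow_le_pow_right (by norm_num) (by omega)
      exact_mod_cast this.trans hE
    have g1 := hm0 W.2.1
    have g2 := hm1 W.2.1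
    have h5 := abs_le.1 (hY.trans h4)
    rcases hsg with h6 | h6
    · rw [h6] at h5
      constructor <;> omega
    · rw [h6] at h5
      constructor <;> omega

/-! ### Production -/

theorem xd_zero (η : Env) (X : ℕ → ℤ) : Xd μ s (fun _ => 0) ∅ η X = 0 := by
  unfold Xd
  simp

theorem coneQ_empty (v : ℕ → ℤ) (X : ℕ → ℤ) : ConeQ v ∅ X := fun q hq => absurd hq (notMem_empty q)

/-- **A pair of paths around a window gives a near tie with short brackets.** -/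
theorem near_tieL (y : ℤ) {L N t τ e0 E : ℕ} {n1 : ℕ → ℕ} {lm : ℝ} {η : Env} {S S' : Finset ℕ} {pr : Par}
    (hpr : POk μ s t n1 e0 E pr) (hTV : TVp μ s N pr S) (ht : 16 ≤ t) (hn1 : ∀ e, e0 ≤ e → e ≤ E → 1 ≤ n1 e)
    (hF : FlatP μ s N e0 E n1 S) (hF' : FlatP μ s N e0 E n1 S') (hsep : SepOK N t τ 0 1 e0 E (fun _ => 0) S S')
    (hN : N ≤ L) (hE : 2 ^ (E + 3) ≤ L) (hm0 : ∀ j, 0 ≤ md μ s j) (hm1 : ∀ j, md μ s j ≤ j)
    (hBD : ¬ BadL μ s L N t τ e0 E n1 pr lm η S S') {a b' : ℕ} (ha : pos S a = pos S' a) (hb : pos S b' = pos S' b')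
    (haτ : a ≤ τ) (hτb : τ + t / 4 ≤ b') (hbN : b' ≤ N) (hab : b' ≤ a + 32 * t) (hno : NoMeet τ (τ + t / 4) S S') :
    ∃ W ∈ Wd N t τ 0 n1 e0 E 0, n1 W.1 ≤ 16 * t ∧ ∀ M, 3 * lm ≤ M → NXE μ s N y pr W (32 * t) M η S' := by
  have hβ : τ = zb t τ (0 - 1) - t / 4 ∨ τ = za t τ 0 := Or.inr (by unfold za; ring)
  have hnm : ∀ i, τ ≤ i → i ≤ τ + t / 4 → ¬ Meet (fun _ => 0) S S' i := fun i h1 h2 hm => hno i h1 h2 (meet_zero.1 hm)
  have hfr := hsep.fr 0 τ le_rfl (by norm_num) hβ (hτb.trans hbN) hnm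
  have hsv : ∀ i, sv (pat t τ ∅ fun _ => 0) 0 i = 0 := fun i => by rw [pat_empty, sv_zero]
  obtain ⟨W, hW, sg, Y, s₀, ⟨hsg, hY, hYd, hL, hRr, habW, hs₀⟩, hmar⟩ := Pool.Agent.W_7d29a1_HZ.Z86.brk_m (μ := μ) (s := s) (n1 := n1)
    (E := E) (I := ∅) (V := fun _ => 0) (k0 := 0) (b := 0) ht (empty_subset _) le_rfl hβ
    (by rw [pat_empty]; exact meet_zero.2 ha) (by rw [pat_empty]; exact meet_zero.2 hb) haτ hτb hbN
    (by rw [pat_empty]; exact hfr) (by rw [pat_empty]; exact hsep.far) hn1 hF hF'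
    (fun i _ => by rw [hsv]; simp) (fun _ _ _ i _ _ => hsv i)
  have hWm := mem_Wd.1 hW
  have hs0 : s₀ = 0 := by
    have := hs₀ W.2.1 hWm.2.2.2.1
    rw [← this, hsv]
  subst hs0
  have hWN : ∀ i ∈ W.2.2, 1 ≤ i ∧ i < N := hWm.2.2.2.2.1
  -- the window is short
  have hshort : 2 * n1 W.1 < b' - a := by
    have hj := hWm.2.2.2.1
    have g1 := hmar W.2.1 hj
    have g2 := habW W.2.1 hj
    have hP : (1 : ℤ) ≤ 2 ^ W.1 := by exact_mod_cast Nat.one_le_two_pow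
    have key : ∀ i : ℕ, i ≤ N → i ≤ W.2.1 + n1 W.1 → W.2.1 ≤ i + n1 W.1 → pos S i ≠ pos S' i := by
      intro i hiN h1 h2 hm
      have f1 : 32 * |(pos S i - md μ s i) - (pos S W.2.1 - md μ s W.2.1)| ≤ 2 ^ W.1 := by
        rcases le_total i W.2.1 with h | h
        · rw [abs_sub_comm]
          exact hF W.1 hWm.1 hWm.2.1 i W.2.1 h (by omega) (by omega)
        · exact hF W.1 hWm.1 hWm.2.1 W.2.1 i h hiN (by omega)
      have f2 : 32 * |(pos S' i - md μ s i) - (pos S' W.2.1 - md μ s W.2.1)| ≤ 2 ^ W.1 := by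
        rcases le_total i W.2.1 with h | h
        · rw [abs_sub_comm]
          exact hF' W.1 hWm.1 hWm.2.1 i W.2.1 h (by omega) (by omega)
        · exact hF' W.1 hWm.1 hWm.2.1 W.2.1 i h hiN (by omega)
      have b1 := abs_le.1 (show |(pos S i - md μ s i) - (pos S W.2.1 - md μ s W.2.1)| ≤ _ from le_rfl)
      have b2 := abs_le.1 (show |(pos S' i - md μ s i) - (pos S' W.2.1 - md μ s W.2.1)| ≤ _ from le_rfl)
      rw [hm] at b1 f1
      rcases hsg with h6 | h6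
      · rw [h6] at g1
        linarith [g1.1, g1.2, b1.1, b1.2, b2.1, b2.2]
      · rw [h6] at g1
        linarith [g1.1, g1.2, b1.1, b1.2, b2.1, b2.2]
    have h3 : a + n1 W.1 < W.2.1 := by
      by_contra hcon
      exact key a (by omega) (by omega) (by omega) ha
    have h4 : W.2.1 + n1 W.1 < b' := by
      by_contra hcon
      exact key b' hbN (by omega) (by omega) hb
    omega
  refine ⟨W, hW, by omega, fun M hM => ?_⟩
  have hcl := cE_of (v := fun _ => 0) hpr hW hTV hsg hRr (fun i _ => sv_zero 0 i) (fun i hi => (hmar i hi).2)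
  have hne : (stv N pr.a W.2.2).Nonempty := by
    have h5 := stv_card hW ht (hpr.an1 W.1 hWm.1 hWm.2.1) hpr.at8
    have h6 := hn1 W.1 hWm.1 hWm.2.1
    rw [← card_pos]
    by_contra hcon
    have h7 : (stv N pr.a W.2.2).card = 0 := by omega
    rw [h7, zero_mul] at h5
    omega
  refine ⟨sg, Y, hsg, hY, hYd, hne, ?_⟩
  have key := nte_of_pair (μ := μ) (s := s) (V := winE N y pr.a W (32 * t) sg Y) (L := pr.L) (e := pr.e) (C := pr.C) (i₀ := pr.i₀)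
    (i₁ := pr.i₁) (v := fun _ => 0) (a := a) (b := b') (Q := ∅) (lm := lm) (M := M) (η := η) (S := S) (S' := S') ?_ ?_ ?_ ?_
    (fun i hi => hL i (winE_J _ _ _ _ _ _ _ hi)) (hcl y (32 * t)) (coneQ_empty _ _) (coneQ_empty _ _) ?_
  · rw [shr_zero] at key
    exact key
  · unfold Br
    rw [mem_filter, mem_product, mem_range, mem_range]
    refine ⟨⟨?_, ?_⟩, hab, fun i hi => habW i (winE_J _ _ _ _ _ _ _ hi)⟩
    · show a < N + 1
      omega
    · show b' < N + 1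
      omega
  · intro hB
    rw [cE_eq] at hB
    exact not_badL hN hE hm0 hm1 hBD (show a ≤ b' by omega) hbN hW hsg hYd habW hB
  · exact (meet_zero.2 ha : Meet (fun _ => 0) S S' a)
  · exact (meet_zero.2 hb : Meet (fun _ => 0) S S' b')
  · rw [xd_zero, xd_zero]
    linarith

/-! ### The main statement -/

/-- The two paths meet at two times `a ≤ τ`, `b' ≥ τ + t / 4` at the distance at most `32 t`, and do not meet in `[τ, τ + t / 4]`. -/
def Gp (N t τ : ℕ) (S S' : Finset ℕ) : Prop := ∃ a b' : ℕ, a ≤ τ ∧ τ + t / 4 ≤ b' ∧ b' ≤ N ∧ b' ≤ a + 32 * t ∧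
  pos S a = pos S' a ∧ pos S b' = pos S' b' ∧ NoMeet τ (τ + t / 4) S S'

theorem NoMeet.symm {i j : ℕ} {S S' : Finset ℕ} (h : NoMeet i j S S') : NoMeet i j S' S := fun k h1 h2 e => h k h1 h2 e.symm

theorem Gp.symm {N t τ : ℕ} {S S' : Finset ℕ} (h : Gp N t τ S S') : Gp N t τ S' S := by
  obtain ⟨a, b', h1, h2, h3, h4, h5, h6, h7⟩ := h
  exact ⟨a, b', h1, h2, h3, h4, h5.symm, h6.symm, h7.symm⟩

/-- The event depends on the path only through its positions at the times `[a, b]`. -/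
def OnPos (a b : ℕ) (A : Env → Finset ℕ → Prop) : Prop :=
  ∀ (η : Env) (S S' : Finset ℕ), (∀ i, a ≤ i → i ≤ b → pos S i = pos S' i) → (A η S ↔ A η S')

theorem NXE_pos {N : ℕ} {y : ℤ} {pr : Par} {W : WT} {H : ℕ} {M : ℝ} {a b : ℕ} (hj : W.2.1 ∈ W.2.2)
    (hW : ∀ i ∈ W.2.2, a + H ≤ i ∧ i + H ≤ b) : OnPos a b (NXE μ s N y pr W H M) := by
  have key : ∀ (η : Env) (S S' : Finset ℕ), (∀ i, a ≤ i → i ≤ b → pos S i = pos S' i) →
      NXE μ s N y pr W H M η S → NXE μ s N y pr W H M η S' := by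
    rintro η S S' h ⟨sg, Y, h1, h2, h3, h4, h5, p, h6, h7⟩
    have hJ : ∀ i ∈ (winE N y pr.a W H sg Y).J, a + H ≤ i ∧ i + H ≤ b := fun i hi => hW i (winE_J _ _ _ _ _ _ _ hi)
    obtain ⟨i₀, hi₀⟩ := Pool.Agent.W_7d29a1_HZ.ZE.winE_J_ne (y := y) (H := H) (sg := sg) (Y := Y) h4
    have hp : p.2 ≤ p.1 + H ∧ ∀ i ∈ (winE N y pr.a W H sg Y).J, p.1 < i ∧ i < p.2 := by
      unfold Br at h6
      exact (mem_filter.1 h6).2
    have g1 := hJ i₀ hi₀
    have g2 := hp.2 i₀ hi₀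
    have e1 := h p.1 (by omega) (by omega)
    have e2 := h p.2 (by omega) (by omega)
    refine ⟨sg, Y, h1, h2, ?_, h4, fun i hi => ?_, p, h6, ?_⟩
    · have := hW _ hj
      rw [← h W.2.1 (by omega) (by omega)]
      exact h3
    · have := hJ i hi
      rw [← h i (by omega) (by omega)]
      exact h5 i hi
    · unfold Pool.Agent.W_7d29a1_HZ.Z15.kC at h7 ⊢
      rw [← e1, ← e2]
      exact h7
  exact fun η S S' h => ⟨key η S S' h, key η S' S fun i h1 h2 => (h i h1 h2).symm⟩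

variable [IsProbabilityMeasure μ] {c C : ℝ} {n₀ : ℕ}

/-- **LOCALISED NEAR TIES: locality, production, price.** -/
theorem loc86 (h : In μ s c C n₀) : ∀ ε θ : ℝ, 0 < ε → 0 < θ → ∃ δ c' : ℝ, 0 < δ ∧ 0 < c' ∧ ∃ L₀ : ℕ,
    ∀ L : ℕ, L₀ ≤ L → ∀ N t : ℕ, L ≤ 16 * N → N ≤ L → (L : ℝ) ^ θ ≤ t → t ≤ N →
    ∀ y : ℤ, 0 ≤ y → y ≤ N → |(y : ℝ) - sl μ s * N| ≤ ((L : ℝ) ^ δ * wd' μ s N) → ∀ τ : ℕ,
    ∃ NT : Env → Finset ℕ → Prop, Ms NT ∧
      (∀ J' : Finset ℕ, (∀ j ∈ J', j + 64 * t ≤ τ ∨ τ + 65 * t ≤ j) → OffRows J' NT) ∧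
      (32 * t ≤ τ → OnPos (τ - 32 * t) (τ + 33 * t) NT) ∧
      P2 μ s N y (fun _ => 0) (fun η S S' => Gp N t τ S S' ∧ ¬ NT η S') ≤ ENNReal.ofReal (Real.exp (-(L : ℝ) ^ c')) ∧
      ∀ F : Env → Finset ℕ → Prop, Ms F → OffRows (Ico τ (τ + t)) F →
        P1 μ s N y (fun η S => F η S ∧ NT η S) ≤ ENNReal.ofReal ((L : ℝ) ^ ε * (EE' μ s t)⁻¹) * P1 μ s N y F +
          ENNReal.ofReal (Real.exp (-(L : ℝ) ^ c')) := by
  intro ε θ hε hθ
  set β : ℝ := ε / 5 with hβd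
  have hβ : 0 < β := by positivity
  obtain ⟨ε₃, ε₅, cX, hε₃, hε₅, hcX, LX, hNX⟩ := numX h (fun C hC => (tieE_all h).toC hC) hβ hθ
  obtain ⟨ε₁, ε₄, hε₁, hε₄, h13, h43, LW, hW⟩ := numWX h β 1 θ ε₃ hβ one_pos hθ hε₃
  obtain ⟨δ5, c5, hδ5, hc5, L5, hNs5⟩ := ns h ε₅ hε₅
  obtain ⟨δn, cn, hδn, hcn, Ln, hNs⟩ := ns h ε₁ hε₁
  obtain ⟨δf, cf, hδf, hcf, Lf, hFr⟩ := fresh h ε₁ hε₁
  set cm : ℝ := min (min (min cX c5) cn) (min cf β) with hcm
  have hcm0 : 0 < cm := lt_min (lt_min (lt_min hcX hc5) hcn) (lt_min hcf hβ)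
  obtain ⟨cp, hcp, -, Lp, hPE⟩ := Pool.Agent.W_7d29a1_Z.NumI77.pow_exp hcm0 (9 + β)
  obtain ⟨La, hLa⟩ := Pool.Agent.W_7d29a1_Z.NumI77.large hθ 16
  obtain ⟨Lb, hLb⟩ := Pool.Agent.W_7d29a1_Z.NumI77.large hβ 1000
  set δ : ℝ := min δ5 (min δn δf) with hδd
  have hδ : 0 < δ := lt_min hδ5 (lt_min hδn hδf)
  refine ⟨δ, cp, hδ, hcp, LX + LW + L5 + Ln + Lf + Lp + La + Lb + 1000000000, ?_⟩
  intro L hL N t hLN hNL htL htN y hy0 hyN hyc τ
  have hL1 : 1 ≤ L := by omega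
  have hLR : (1 : ℝ) ≤ L := by exact_mod_cast hL1
  have hL0 : (0 : ℝ) < L := by linarith
  obtain ⟨-, ht16, -⟩ := hLa L (by omega)
  have ht : 16 ≤ t := by exact_mod_cast ht16.trans htL
  have hwd : ∀ n, 0 < wd' μ s n := fun n => lt_of_lt_of_le zero_lt_one (le_max_left _ _)
  have hcone : ∀ δ', δ ≤ δ' → |(y : ℝ) - sl μ s * N| ≤ ((L : ℝ) ^ δ' * wd' μ s N) := fun δ' hδ' =>
    hyc.trans (mul_le_mul_of_nonneg_right (Real.rpow_le_rpow_of_exponent_le hLR hδ') (hwd N).le)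
  obtain ⟨n1, e0, E, X, w, hnm, w1, w2, w3, -, -, -, -, -, w9, w10, w11, w12⟩ := hW L (by omega) N t hLN hNL htL htN
  obtain ⟨pr, hp1, hp2⟩ := hNX L (by omega) N t hNL htL htN y hy0 hyN
  obtain ⟨hpr, hT⟩ := hp2 ε₁ ε₄ n1 e0 E h13 h43 hnm
  have hns5 := hNs5 L (by omega) N hLN hNL y hy0 hyN (hcone _ (min_le_left _ _))
  have hns := hNs L (by omega) N hLN hNL y hy0 hyN (hcone _ ((min_le_right _ _).trans (min_le_left _ _)))
  have hfr := hFr L (by omega) N hLN hNL y hy0 hyN (hcone _ ((min_le_right _ _).trans (min_le_right _ _)))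
    (fun _ => 0) (sv_zero 0 N)
  have ecX : Real.exp (-(L : ℝ) ^ cX) ≤ Real.exp (-(L : ℝ) ^ cm) := Pool.Agent.W_7d29a1_Z.NumI77.exp_mono
    ((min_le_left _ _).trans ((min_le_left _ _).trans (min_le_left _ _))) hL1
  have ec5 : Real.exp (-(L : ℝ) ^ c5) ≤ Real.exp (-(L : ℝ) ^ cm) := Pool.Agent.W_7d29a1_Z.NumI77.exp_mono
    ((min_le_left _ _).trans ((min_le_left _ _).trans (min_le_right _ _))) hL1
  have ecn : Real.exp (-(L : ℝ) ^ cn) ≤ Real.exp (-(L : ℝ) ^ cm) :=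
    Pool.Agent.W_7d29a1_Z.NumI77.exp_mono ((min_le_left _ _).trans (min_le_right _ _)) hL1
  have ecf : Real.exp (-(L : ℝ) ^ cf) ≤ Real.exp (-(L : ℝ) ^ cm) :=
    Pool.Agent.W_7d29a1_Z.NumI77.exp_mono ((min_le_right _ _).trans (min_le_left _ _)) hL1
  have ecb : Real.exp (-(L : ℝ) ^ β) ≤ Real.exp (-(L : ℝ) ^ cm) :=
    Pool.Agent.W_7d29a1_Z.NumI77.exp_mono ((min_le_right _ _).trans (min_le_right _ _)) hL1
  set p : ℝ := Real.exp (-(L : ℝ) ^ cm) with hp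
  have hp0 : 0 < p := Real.exp_pos _
  obtain ⟨-, hb1000, -⟩ := hLb L (by omega)
  set x : ℝ := (L : ℝ) ^ β with hx
  have hx0 : 0 < x := by linarith
  have hX0 : (0 : ℝ) ≤ X := Nat.cast_nonneg _
  have hXp : 0 ≤ (X : ℝ) * p := mul_nonneg hX0 hp0.le
  have hTVp := P1_tvp (L := L) (ε := ε₅) (pr := pr) (Real.exp_pos _).le (Real.exp_pos _).le hns5 hp1
  set M : ℝ := 3 * x with hM
  have hM2 : 1 ≤ M := by linarith
  -- the numbers
  have hq3 : 24 * ((L : ℝ) + 1) ^ 3 * X * Real.exp (-x) + (X + 6) * p ≤ Real.exp (-(L : ℝ) ^ cp) := by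
    have hL9 : (1000000000 : ℝ) ≤ L := by exact_mod_cast (show 1000000000 ≤ L by omega)
    have k1 : 24 * ((L : ℝ) + 1) ^ 3 ≤ (L : ℝ) ^ 7 := by
      have : (L : ℝ) + 1 ≤ 2 * (L : ℝ) := by linarith
      calc 24 * ((L : ℝ) + 1) ^ 3 ≤ 24 * (2 * (L : ℝ)) ^ 3 := by gcongr
        _ = 192 * (L : ℝ) ^ 3 := by ring
        _ ≤ (L : ℝ) * (L : ℝ) ^ 3 := mul_le_mul_of_nonneg_right (by linarith) (by positivity)
        _ = (L : ℝ) ^ 4 := by ring
        _ ≤ (L : ℝ) ^ 7 := pow_le_pow_right₀ hLR (by norm_num)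
    have k2 : (X : ℝ) ≤ x := w3
    have k3 : Real.exp (-x) ≤ p := ecb
    have k4 := hPE L (by omega)
    rw [← hp, Real.rpow_add hL0, ← hx] at k4
    have e9 : (L : ℝ) ^ (9 : ℝ) = (L : ℝ) ^ 9 := by
      rw [← Real.rpow_natCast]
      norm_num
    rw [e9] at k4
    refine le_trans ?_ k4
    have k5 : 24 * ((L : ℝ) + 1) ^ 3 * X * Real.exp (-x) ≤ (L : ℝ) ^ 7 * x * p := by gcongr
    have k6 : ((X : ℝ) + 6) * p ≤ 7 * x * p := mul_le_mul_of_nonneg_right (by linarith) hp0.le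
    have k7 : (L : ℝ) ^ 7 + 7 ≤ (L : ℝ) ^ 9 := by
      have k8 : (1 : ℝ) ≤ (L : ℝ) ^ 7 := one_le_pow₀ hLR
      have k9 : (8 : ℝ) ≤ (L : ℝ) ^ 2 := by nlinarith
      calc (L : ℝ) ^ 7 + 7 ≤ 8 * (L : ℝ) ^ 7 := by linarith
        _ ≤ (L : ℝ) ^ 2 * (L : ℝ) ^ 7 := mul_le_mul_of_nonneg_right k9 (by positivity)
        _ = (L : ℝ) ^ 9 := by ring
    calc _ ≤ (L : ℝ) ^ 7 * x * p + 7 * x * p := add_le_add k5 k6
      _ = ((L : ℝ) ^ 7 + 7) * (x * p) := by ring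
      _ ≤ (L : ℝ) ^ 9 * (x * p) := mul_le_mul_of_nonneg_right k7 (by positivity)
      _ = (L : ℝ) ^ 9 * x * p := by ring
  -- the windows
  set Ws := (Wd N t τ 0 n1 e0 E 0).filter fun W => n1 W.1 ≤ 16 * t with hWs
  have hWc : Ws.card ≤ X := (card_filter_le _ _).trans (w10 τ 0 0)
  have hWr : ∀ W ∈ Ws, W.2.1 ∈ W.2.2 ∧ ∀ i ∈ W.2.2, τ ≤ i ∧ i < τ + t := by
    intro W hW'
    obtain ⟨hWb, hn⟩ := mem_filter.1 hW'
    obtain ⟨-, -, q1, q2, q3, -⟩ := mem_Wd.1 hWb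
    refine ⟨q2, fun i hi => ?_⟩
    unfold Wd0 at q1
    rw [if_pos hn, mem_image] at q1
    obtain ⟨z, hz, hzW⟩ := q1
    rw [mem_product, mem_insert, mem_singleton] at hz
    have e1 : W.2.2 = Ico (z.1 + min (z.2 * ell t (n1 W.1)) (t / 4 - ell t (n1 W.1)))
        (z.1 + min (z.2 * ell t (n1 W.1)) (t / 4 - ell t (n1 W.1)) + ell t (n1 W.1)) := by
      rw [← (congrArg Prod.snd hzW)]
    rw [e1, mem_Ico] at hi
    have e3 := ell_le t (n1 W.1)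
    have e4 : min (z.2 * ell t (n1 W.1)) (t / 4 - ell t (n1 W.1)) ≤ t / 4 - ell t (n1 W.1) := min_le_right _ _
    have e2 : τ ≤ z.1 ∧ z.1 + t / 4 ≤ τ + t := by
      rcases hz.1 with h1 | h1 <;> rw [h1]
      · unfold zb
        constructor <;> omega
      · unfold za
        constructor <;> omega
    omega
  refine ⟨fun η S => ∃ W ∈ Ws, NXE μ s N y pr W (32 * t) M η S, ?_, ?_, ?_, ?_, ?_⟩
  · intro S
    have e : {η : Env | ∃ W ∈ Ws, NXE μ s N y pr W (32 * t) M η S} = ⋃ W ∈ Ws, {η | NXE μ s N y pr W (32 * t) M η S} := by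
      ext η
      simp only [Set.mem_ofPred_eq, Set.mem_iUnion, exists_prop]
    rw [e]
    exact Finset.measurableSet_biUnion _ fun W _ => (nok_NXE N y pr).ms W (32 * t) M S
  · intro J' hJ' η η' S hη
    have key : ∀ W ∈ Ws, NXE μ s N y pr W (32 * t) M η S ↔ NXE μ s N y pr W (32 * t) M η' S := fun W hW' => by
      obtain ⟨g1, g2⟩ := hWr W hW'
      refine (nok_NXE N y pr).off W (32 * t) M J' ⟨_, g1⟩ (fun i hi j hj => ?_) η η' S hη
      have g3 := g2 i hi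
      rcases hJ' j hj with g4 | g4
      · right
        omega
      · left
        omega
    exact exists_congr fun W => and_congr_right fun hW' => key W hW'
  · intro hτ η S S' hS
    refine exists_congr fun W => and_congr_right fun hW' => ?_
    obtain ⟨g1, g2⟩ := hWr W hW'
    exact NXE_pos g1 (fun i hi => by have := g2 i hi; omega) η S S' hS
  · -- the bad events
    have hsub : P2 μ s N y (fun _ => 0) (fun η S S' => Gp N t τ S S' ∧ ¬ ∃ W ∈ Ws, NXE μ s N y pr W (32 * t) M η S') ≤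
        P2 μ s N y (fun _ => 0) (fun η S S' => ¬ NSp μ s L N ε₁ S ∨ (¬ NSp μ s L N ε₁ S' ∨
          (Close μ s L N ε₁ (fun _ => 0) S S' ∨ (¬ TVp μ s N pr S ∨ BadL μ s L N t τ e0 E n1 pr x η S S')))) := by
      refine A12.P2_mono' fun η S S' hS hS' hSy hSy' hev => ?_
      by_contra hcon
      rw [not_or, not_or, not_or, not_or, not_not, not_not, not_not] at hcon
      obtain ⟨c1, c2, c3, c4, c5⟩ := hcon
      refine hev.2 ?_
      obtain ⟨a, b', g1, g2, g3, g4, g5, g6, g7⟩ := hev.1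
      obtain ⟨W, hW1, hW2, hW3⟩ := near_tieL y hpr c4 ht w9 (w11 S hS c1).2 (w11 S' hS' c2).2
        (w12 τ 0 1 _ S S' hS hS' (fun i => by rw [sv_zero]; simp) c1 c2 c3) hNL w1 h.md_nonneg h.md_le_nat c5 g5 g6 g1 g2 g3 g4 g7
      exact ⟨W, mem_filter.2 ⟨hW1, hW2⟩, hW3 M le_rfl⟩
    refine hsub.trans ?_
    have b1 : P2 μ s N y (fun _ => 0) (fun _ S _ => ¬ NSp μ s L N ε₁ S) ≤ ENNReal.ofReal p := by
      rw [Pool.Agent.W_7d29a1_HZ.P2_fst (μ := μ) (s := s) hy0 hyN (fun _ => 0) (fun _ S => ¬ NSp μ s L N ε₁ S)]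
      exact hns.trans (ENNReal.ofReal_le_ofReal ecn)
    have b2 : P2 μ s N y (fun _ => 0) (fun _ _ S' => ¬ NSp μ s L N ε₁ S') ≤ ENNReal.ofReal p := by
      rw [Pool.Agent.W_7d29a1_HZ.P2_snd (μ := μ) (s := s) hy0 hyN (fun _ => 0) (fun _ S => ¬ NSp μ s L N ε₁ S)]
      exact hns.trans (ENNReal.ofReal_le_ofReal ecn)
    have b3 : P2 μ s N y (fun _ => 0) (fun _ S S' => Close μ s L N ε₁ (fun _ => 0) S S') ≤ ENNReal.ofReal p :=
      hfr.trans (ENNReal.ofReal_le_ofReal ecf)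
    have b4 : P2 μ s N y (fun _ => 0) (fun _ S _ => ¬ TVp μ s N pr S) ≤ ENNReal.ofReal (2 * p) := by
      rw [Pool.Agent.W_7d29a1_HZ.P2_fst (μ := μ) (s := s) hy0 hyN (fun _ => 0) (fun _ S => ¬ TVp μ s N pr S)]
      exact hTVp.trans (ENNReal.ofReal_le_ofReal (by linarith))
    have b5 : P2 μ s N y (fun _ => 0) (BadL μ s L N t τ e0 E n1 pr x) ≤
        ENNReal.ofReal (24 * ((L : ℝ) + 1) ^ 3 * X * Real.exp (-x)) := badL_pr hpr.i₁a (w10 τ 0 0)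
    have c4 := (P2_or (μ := μ) (s := s) (N := N) (y := y) (v := fun _ => 0)
      (fun _ S _ => ¬ TVp μ s N pr S) (fun η S S' => BadL μ s L N t τ e0 E n1 pr x η S S')).trans (add_le_add b4 b5)
    have c3 := (P2_or (μ := μ) (s := s) (N := N) (y := y) (v := fun _ => 0)
      (fun _ S S' => Close μ s L N ε₁ (fun _ => 0) S S') _).trans (add_le_add b3 c4)
    have c2 := (P2_or (μ := μ) (s := s) (N := N) (y := y) (v := fun _ => 0) (fun _ _ S' => ¬ NSp μ s L N ε₁ S') _).trans (add_le_add b2 c3)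
    have c1 := (P2_or (μ := μ) (s := s) (N := N) (y := y) (v := fun _ => 0) (fun _ S _ => ¬ NSp μ s L N ε₁ S) _).trans (add_le_add b1 c2)
    refine c1.trans ?_
    rw [← ENNReal.ofReal_add (by positivity) (by positivity), ← ENNReal.ofReal_add hp0.le (by positivity),
      ← ENNReal.ofReal_add hp0.le (by positivity), ← ENNReal.ofReal_add hp0.le (by positivity)]
    refine ENNReal.ofReal_le_ofReal ?_
    linarith
  · -- the price
    intro F hF hoff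
    have hE0 : 0 < EE' μ s t := lt_of_lt_of_le zero_lt_one (le_max_left _ _)
    have hTW : ∀ W ∈ Ws, P1 μ s N y (fun η S => F η S ∧ NXE μ s N y pr W (32 * t) M η S) ≤
        ENNReal.ofReal (x / EE' μ s t * M) * P1 μ s N y F + ENNReal.ofReal p := by
      intro W hW'
      have hoffW : OffRows W.2.2 F := fun η η' S hηη => hoff η η' S fun q hq => hηη q fun h1 =>
        hq ⟨h1.1, mem_Ico.2 ((hWr W hW').2 _ h1.2)⟩
      exact (hT τ 0 0 W (mem_filter.1 hW').1 (32 * t) M hM2 F hF hoffW).trans (add_le_add le_rfl (ENNReal.ofReal_le_ofReal ecX))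
    have e1 : P1 μ s N y (fun η S => F η S ∧ ∃ W ∈ Ws, NXE μ s N y pr W (32 * t) M η S) ≤
        P1 μ s N y (fun η S => ∃ W ∈ Ws, F η S ∧ NXE μ s N y pr W (32 * t) M η S) :=
      A12.P1_mono' fun η S _ _ ⟨g1, W, g2, g3⟩ => ⟨W, g2, g1, g3⟩
    refine e1.trans ((A12.P1_exists (μ := μ) (s := s) (N := N) (y := y) Ws
      fun W η S => F η S ∧ NXE μ s N y pr W (32 * t) M η S).trans ?_)
    refine (Finset.sum_le_sum hTW).trans ?_
    rw [Finset.sum_const, nsmul_eq_mul, mul_add, ← mul_assoc]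
    have e2 : (Ws.card : ℝ≥0∞) ≤ ENNReal.ofReal X := by
      rw [ENNReal.ofReal_natCast]
      exact_mod_cast hWc
    refine add_le_add (mul_le_mul' ?_ le_rfl) ?_
    · refine (mul_le_mul' e2 le_rfl).trans ?_
      rw [← ENNReal.ofReal_mul (by positivity)]
      refine ENNReal.ofReal_le_ofReal ?_
      have e3 : (X : ℝ) * (x / EE' μ s t * M) ≤ x * (x / EE' μ s t * (3 * x)) := by
        have k2 : (X : ℝ) ≤ x := w3
        gcongr
      have e4 : x * (x / EE' μ s t * (3 * x)) = 3 * x ^ 3 * (EE' μ s t)⁻¹ := by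
        field_simp
      have e5 : 3 * x ^ 3 ≤ (L : ℝ) ^ ε := by
        have e6 : (L : ℝ) ^ ε = x ^ 5 := by
          rw [hx, ← Real.rpow_natCast, ← Real.rpow_mul hL0.le, hβd]
          congr 1
          push_cast
          ring
        rw [e6]
        have e7 : 3 ≤ x ^ 2 := by nlinarith
        calc 3 * x ^ 3 ≤ x ^ 2 * x ^ 3 := mul_le_mul_of_nonneg_right e7 (by positivity)
          _ = x ^ 5 := by ring
      rw [e4] at e3
      exact e3.trans (mul_le_mul_of_nonneg_right e5 (by positivity))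
    · refine (mul_le_mul' e2 le_rfl).trans ?_
      rw [← ENNReal.ofReal_mul (by positivity)]
      refine ENNReal.ofReal_le_ofReal ?_
      have : 0 ≤ 24 * ((L : ℝ) + 1) ^ 3 * X * Real.exp (-x) := by positivity
      linarith

end Pool.Agent.W_7d29a1_C0.P86
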