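import Pool.Agent.W_7d29a1_C0.TvJ48
import Pool.Agent.W_7d29a1_C0.Frm33

/-!
MP_7d29a1_pr, [CURV0]: the excess of the kick (`kickP48`) at the frame of helper33. (helper48)
-/

set_option autoImplicit false
set_option linter.unusedSectionVars false

namespace Pool.Agent.W_7d29a1_C0.Tv48

open Finset MeasureTheory Filter Topology Pool.Agent.W_7d29a1_F Pool.Agent.W_7d29a1_X
open Pool.Agent.W_7d29a1_HS (In wd)
open Pool.Agent.W_7d29a1_H (sl)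
open Pool.Agent.W_7d29a1_C0.Mod92 (Px Pn ps lk cl Flat gw lw gg gj sr sg sg_or wm Pm avy avy_mono avy_const)
open Pool.W7d29a1.C0 (gz gm)
open Pool.Agent.W_7d29a1_C0.Frm33

noncomputable section

variable {μ : Measure ℝ} {s : ℝ} [IsProbabilityMeasure μ] {c₀ C : ℝ} {n₀ : ℕ}

theorem gm_psi48_nonneg (N y : ℕ) (δ B : ℝ) (b j : ℕ) (T : ℝ) (ω : Env × Finset ℕ) :
    0 ≤ gm (wm μ s N (Pn N y) ω) (psi48 μ s N y δ B b j T ω) := by
  unfold gm gz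
  exact div_nonneg (sum_nonneg fun S _ => mul_nonneg (Real.exp_pos _).le (psi48_nonneg _ _ _ _ _ _ _ _ _))
    (sum_nonneg fun S _ => (Real.exp_pos _).le)

theorem int_min48 (N y : ℕ) (δ B : ℝ) (b j : ℕ) (T r : ℝ) :
    Integrable (fun ω => min 1 (Real.exp r * gm (wm μ s N (Pn N y) ω) (psi48 μ s N y δ B b j T ω))) (Pm μ N) := by
  have hmm : Measurable fun ω => min 1 (Real.exp r * gm (wm μ s N (Pn N y) ω) (psi48 μ s N y δ B b j T ω)) := by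
    refine measurable_const.min (Measurable.const_mul ?_ _)
    unfold gm gz
    exact (Finset.measurable_fun_sum _ fun x _ => (Mod92.meas_wm x).exp.mul (meas_psi48 N y δ B b j _ x)).div
      (Finset.measurable_fun_sum _ fun x _ => (Mod92.meas_wm x).exp)
  refine Integrable.of_bound hmm.aestronglyMeasurable 1 (Eventually.of_forall fun ω => ?_)
  rw [Real.norm_eq_abs, abs_of_nonneg (le_min zero_le_one (mul_nonneg (Real.exp_pos _).le (gm_psi48_nonneg _ _ _ _ _ _ _ _)))]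
  exact min_le_left _ _

/-- **THE EXCESS OF THE KICK AT THE FRAME.** -/
theorem kickF48 (h : In μ s c₀ C n₀) {K : ℕ} (hK : 32 ≤ K) {θ : ℝ} (hθ : 0 < θ) : ∃ δ₀ : ℝ, 0 < δ₀ ∧ ∀ κ : ℝ, 0 < κ →
    ∃ cc : ℝ, 0 < cc ∧ ∀ᶠ m : ℕ in atTop, ∀ δ : ℝ, δ ≤ δ₀ → ∀ B : ℝ, 0 ≤ B → ∀ b j : ℕ, ((2 ^ m : ℕ) : ℝ) ^ θ ≤ b → b ≤ j →
    j + b ≤ L33 K m → (∀ y ∈ ys33 μ s K m,
      ∫ ω, min 1 (Real.exp (((2 ^ m : ℕ) : ℝ) ^ cc) * gm (wm μ s (L33 K m) (Pn (L33 K m) y) ω)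
        (psi48 μ s (L33 K m) y δ B b j (((2 ^ m : ℕ) : ℝ) ^ κ) ω)) ∂(Pm μ (L33 K m)) ≤ Real.exp (-((2 ^ m : ℕ) : ℝ) ^ cc)) ∧
      avy (ys33 μ s K m) (fun y =>
        ∫ ω, min 1 (Real.exp (((2 ^ m : ℕ) : ℝ) ^ cc) * gm (wm μ s (L33 K m) (Pn (L33 K m) y) ω)
          (psi48 μ s (L33 K m) y δ B b j (((2 ^ m : ℕ) : ℝ) ^ κ) ω)) ∂(Pm μ (L33 K m))) ≤ Real.exp (-((2 ^ m : ℕ) : ℝ) ^ cc) := by
  have hK0 : (0 : ℝ) < K := by
    have : 0 < K := by omega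
    exact_mod_cast this
  have hK1 : (1 : ℝ) ≤ K := by
    have : 1 ≤ K := by omega
    exact_mod_cast this
  obtain ⟨δ₀, hδ₀, hT⟩ := kickP48 (μ := μ) (s := s) h (show 0 < θ / K by positivity)
  refine ⟨δ₀, hδ₀, fun κ hκ => ?_⟩
  obtain ⟨δ', hδ', cc, hcc, N₀, hN₀⟩ := hT (κ / K) (by positivity)
  refine ⟨cc, hcc, ?_⟩
  filter_upwards [cone33 h hK hδ', ev_L (by omega : 1 ≤ K) N₀] with m hc hN
  intro δ hδ B hB b j hb hbj hjN
  obtain ⟨n, hn⟩ : ∃ n : ℝ, n = ((2 ^ m : ℕ) : ℝ) := ⟨_, rfl⟩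
  have hn1 : 1 ≤ n := by
    rw [hn]
    exact_mod_cast Nat.one_le_two_pow
  have e1 : ∀ x : ℝ, ((L33 K m : ℕ) : ℝ) ^ (x / K) = n ^ x := fun x => by
    rw [L33_pow, hn]
    congr 1
    field_simp
  have e2 : n ^ cc ≤ ((L33 K m : ℕ) : ℝ) ^ cc := by
    rw [L33_pow, ← hn]
    refine Real.rpow_le_rpow_of_exponent_le hn1 ?_
    calc cc = 1 * cc := (one_mul _).symm
      _ ≤ K * cc := mul_le_mul_of_nonneg_right hK1 hcc.le
  have key : ∀ y ∈ ys33 μ s K m,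
      ∫ ω, min 1 (Real.exp (((2 ^ m : ℕ) : ℝ) ^ cc) * gm (wm μ s (L33 K m) (Pn (L33 K m) y) ω)
        (psi48 μ s (L33 K m) y δ B b j (((2 ^ m : ℕ) : ℝ) ^ κ) ω)) ∂(Pm μ (L33 K m)) ≤ Real.exp (-((2 ^ m : ℕ) : ℝ) ^ cc) := by
    intro y hy
    unfold ys33 at hy
    rw [mem_Ico] at hy
    have h1 := hN₀ (L33 K m) hN y (hc.2.2 y (by omega) (by omega)).2 δ hδ B hB b j (by rw [e1, hn]; exact hb) hbj hjN
    rw [e1, hn] at h1
    rw [← hn] at h1 ⊢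
    refine le_trans ?_ (h1.trans (Real.exp_le_exp.2 (neg_le_neg e2)))
    refine integral_mono (int_min48 _ _ _ _ _ _ _ _) (int_min48 _ _ _ _ _ _ _ _) fun ω => ?_
    exact min_le_min le_rfl (mul_le_mul_of_nonneg_right (Real.exp_le_exp.2 e2) (gm_psi48_nonneg _ _ _ _ _ _ _ _))
  have hne : (ys33 μ s K m).Nonempty := by
    unfold ys33
    rw [nonempty_Ico]
    unfold M33
    have : 0 < 2 ^ (6 * m) := by positivity
    omega
  refine ⟨key, (avy_mono key).trans (le_of_eq (avy_const hne _))⟩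

end

end Pool.Agent.W_7d29a1_C0.Tv48
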