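import Pool.Agent.W_7d29a1_C0.MMd70
import Pool.Agent.W_7d29a1_C0.TvK48
import Pool.Agent.W_7d29a1_C0.ClipF33
import Pool.Agent.W_7d29a1_C0.PrI46

/-!
MP_7d29a1_pr, [CURV0] / [C0], leaf E5.7 (`M x M`), helper70: THE ROW OF `M x M` AT THE FRAME (`row70F`). The levels `t1 ≥ .. ≥ t5` of the kick
are powers of `n = 2 ^ m`, each one below the rate of the excess of the kick (`kickF48` of helper48) at the level before it; `t1` is below
the rate of the errors of the flips (`ferr33`).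
-/

set_option autoImplicit false
set_option linter.unusedSectionVars false
set_option linter.dupNamespace false

namespace Pool.Agent.W_7d29a1_C0.MM70

open Finset MeasureTheory Filter Topology
open Pool.Agent.W_7d29a1_F Pool.Agent.W_7d29a1_X
open Pool.Agent.W_7d29a1_H (EE EE_pos one_le_EE)
open Pool.Agent.W_7d29a1_HS (In wd)
open Pool.Agent.W_7d29a1_C0 Pool.Agent.W_7d29a1_C0.Mod92 Pool.Agent.W_7d29a1_C0.N38
open Pool.Agent.W_7d29a1_C0.Frm33 Pool.Agent.W_7d29a1_C0.Base5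
open Pool.Agent.W_7d29a1_C0.NTop23 (avF)
open Pool.Agent.W_7d29a1_C0.Asm96
open Pool.Agent.W_7d29a1_C0.Pr46 (Wt46 rows46)
open Pool.Agent.W_7d29a1_C0.Par92 (Est Sml)
open Pool.Agent.W_7d29a1_C0.Tv48 (psi48 psi48_nonneg int_min48 gm_psi48_nonneg kickF48)
open Pool.Agent.W_7d29a1_C0.Flip61 (Cov1 FErr)
open Pool.W7d29a1.C0 (gz gm gz_pos gz_ne gm_nonneg gm_mono gm_const)
open Pool.W7d29a1.C0.MM70 (pb Q4 Q5)

noncomputable section

variable {μ : Measure ℝ} {s : ℝ}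

/-! ### The numbers -/

theorem min_add70 {a b : ℝ} (ha : 0 ≤ a) (hb : 0 ≤ b) : min 1 (a + b) ≤ min 1 a + min 1 b := by
  by_cases h1 : 1 ≤ a
  · rw [min_eq_left h1]
    have h2 : 0 ≤ min 1 b := le_min zero_le_one hb
    linarith [min_le_left (1 : ℝ) (a + b)]
  · by_cases h2 : 1 ≤ b
    · rw [min_eq_left h2]
      have h3 : 0 ≤ min 1 a := le_min zero_le_one ha
      linarith [min_le_left (1 : ℝ) (a + b)]
    · push Not at h1 h2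
      rw [min_eq_right h1.le, min_eq_right h2.le]
      exact min_le_right _ _

/-- The excess of the kick in the row, from the excesses at the five levels. -/
theorem q70_leF [IsProbabilityMeasure μ] (N y : ℕ) (δ B : ℝ) (b0 j : ℕ) {t1 t2 t3 t4 t5 r1 r2 r3 r4 r5 : ℝ} (h1 : 1 + (t2 + t3 + t4 + t5) ≤ r1)
    (h2 : 1 + (t3 + t4 + t5) ≤ r2) (h3 : 1 + (t4 + t5) ≤ r3) (h4 : 1 + t5 ≤ r4) (h5 : 1 ≤ r5) (ω : Env × Finset ℕ) :
    q70 μ s N (Pn N y) δ B b0 j t1 t2 t3 t4 t5 ω ≤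
      min 1 (Real.exp r1 * gm (wm μ s N (Pn N y) ω) (psi48 μ s N y δ B b0 j t1 ω)) +
      (min 1 (Real.exp r2 * gm (wm μ s N (Pn N y) ω) (psi48 μ s N y δ B b0 j t2 ω)) +
      (min 1 (Real.exp r3 * gm (wm μ s N (Pn N y) ω) (psi48 μ s N y δ B b0 j t3 ω)) +
      (min 1 (Real.exp r4 * gm (wm μ s N (Pn N y) ω) (psi48 μ s N y δ B b0 j t4 ω)) +
      min 1 (Real.exp r5 * gm (wm μ s N (Pn N y) ω) (psi48 μ s N y δ B b0 j t5 ω))))) := by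
  have e : ∀ t, gm (wm μ s N (Pn N y) ω) (pb (gg μ s (Pn N y) δ B b0 ω j) (sr ω.2 j) t) =
      gm (wm μ s N (Pn N y) ω) (psi48 μ s N y δ B b0 j t ω) := fun t => rfl
  have p := fun t => gm_psi48_nonneg (μ := μ) (s := s) N y δ B b0 j t ω
  have two : ∀ x r : ℝ, 1 + x ≤ r → 2 * Real.exp x ≤ Real.exp r := fun x r h => by
    have h6 : (2 : ℝ) ≤ Real.exp 1 := by linarith [Real.add_one_le_exp (1 : ℝ)]
    calc 2 * Real.exp x ≤ Real.exp 1 * Real.exp x := mul_le_mul_of_nonneg_right h6 (Real.exp_pos _).le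
      _ = Real.exp (1 + x) := by rw [Real.exp_add]
      _ ≤ _ := Real.exp_le_exp.2 h
  have u1 := mul_le_mul_of_nonneg_right (two _ _ h1) (p t1)
  have u2 := mul_le_mul_of_nonneg_right (two _ _ h2) (p t2)
  have u3 := mul_le_mul_of_nonneg_right (two _ _ h3) (p t3)
  have u4 := mul_le_mul_of_nonneg_right (two _ _ h4) (p t4)
  have u5 := mul_le_mul_of_nonneg_right (two 0 r5 (by linarith)) (p t5)
  have z := fun r t : ℝ => mul_nonneg (Real.exp_pos r).le (p t)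
  unfold q70 Q5 Q4
  rw [e, e, e, e, e]
  have k : 2 * (Real.exp t5 * (Real.exp (t2 + t3 + t4) * gm (wm μ s N (Pn N y) ω) (psi48 μ s N y δ B b0 j t1 ω) +
      Real.exp (t3 + t4) * gm (wm μ s N (Pn N y) ω) (psi48 μ s N y δ B b0 j t2 ω) +
      Real.exp t4 * gm (wm μ s N (Pn N y) ω) (psi48 μ s N y δ B b0 j t3 ω) +
      gm (wm μ s N (Pn N y) ω) (psi48 μ s N y δ B b0 j t4 ω)) + gm (wm μ s N (Pn N y) ω) (psi48 μ s N y δ B b0 j t5 ω)) ≤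
      Real.exp r1 * gm (wm μ s N (Pn N y) ω) (psi48 μ s N y δ B b0 j t1 ω) +
      (Real.exp r2 * gm (wm μ s N (Pn N y) ω) (psi48 μ s N y δ B b0 j t2 ω) +
      (Real.exp r3 * gm (wm μ s N (Pn N y) ω) (psi48 μ s N y δ B b0 j t3 ω) +
      (Real.exp r4 * gm (wm μ s N (Pn N y) ω) (psi48 μ s N y δ B b0 j t4 ω) +
      Real.exp r5 * gm (wm μ s N (Pn N y) ω) (psi48 μ s N y δ B b0 j t5 ω)))) := by
    have e1 : Real.exp (t2 + t3 + t4 + t5) = Real.exp t5 * Real.exp (t2 + t3 + t4) := by rw [← Real.exp_add]; ring_nf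
    have e2 : Real.exp (t3 + t4 + t5) = Real.exp t5 * Real.exp (t3 + t4) := by rw [← Real.exp_add]; ring_nf
    have e3 : Real.exp (t4 + t5) = Real.exp t5 * Real.exp t4 := by rw [← Real.exp_add]; ring_nf
    rw [e1] at u1
    rw [e2] at u2
    rw [e3] at u3
    rw [Real.exp_zero] at u5
    linarith
  refine (min_le_min le_rfl k).trans ?_
  refine (min_add70 (z _ _) (add_nonneg (z _ _) (add_nonneg (z _ _) (add_nonneg (z _ _) (z _ _))))).trans (add_le_add le_rfl ?_)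
  refine (min_add70 (z _ _) (add_nonneg (z _ _) (add_nonneg (z _ _) (z _ _)))).trans (add_le_add le_rfl ?_)
  refine (min_add70 (z _ _) (add_nonneg (z _ _) (z _ _))).trans (add_le_add le_rfl ?_)
  exact min_add70 (z _ _) (z _ _)

/-- The errors of the row are small. -/
theorem er70_le {B KY M t1 t4 ε qe r : ℝ} {n : ℕ} (hB : 1 ≤ B) (hM : 8 * B ≤ M) (hKY : 0 ≤ KY) (h4 : 0 ≤ t4) (h41 : t4 ≤ t1) (hε : 0 ≤ ε)
    (ha : 64 * Real.exp 16 * B ^ 2 * Real.exp (-B) ≤ r) (hb : 4 * B ^ 2 * Real.exp (-t4) ≤ r) (hc : 8 * B ^ 2 / n ≤ r)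
    (hd : 5000000 * B ^ 2 * (Real.exp (17 * t1) * ε) ≤ r) (he : 160 * B ^ 2 * qe ≤ r) (hqe : 0 ≤ qe) :
    er70 B KY M t1 t4 ε qe n ≤ KY * (5 * r) := by
  have h2 : (1 + B) ^ 2 ≤ 4 * B ^ 2 := by nlinarith
  have hB2 : 1 ≤ B ^ 2 := by nlinarith
  have a : 8 * (1 + B) ^ 2 * Real.exp (16 * (1 + B)) * Real.exp (-(5 * M)) * KY * 2 ≤ KY * r := by
    have a1 : Real.exp (16 * (1 + B)) * Real.exp (-(5 * M)) ≤ Real.exp 16 * Real.exp (-B) := by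
      rw [← Real.exp_add, ← Real.exp_add]
      exact Real.exp_le_exp.2 (by linarith)
    calc 8 * (1 + B) ^ 2 * Real.exp (16 * (1 + B)) * Real.exp (-(5 * M)) * KY * 2 =
          16 * KY * ((1 + B) ^ 2 * (Real.exp (16 * (1 + B)) * Real.exp (-(5 * M)))) := by ring
      _ ≤ 16 * KY * (4 * B ^ 2 * (Real.exp 16 * Real.exp (-B))) :=
          mul_le_mul_of_nonneg_left (mul_le_mul h2 a1 (by positivity) (by positivity)) (by positivity)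
      _ = KY * (64 * Real.exp 16 * B ^ 2 * Real.exp (-B)) := by ring
      _ ≤ _ := mul_le_mul_of_nonneg_left ha hKY
  have b : (1 + B) ^ 2 * KY * Real.exp (-t4) ≤ KY * r := by
    calc (1 + B) ^ 2 * KY * Real.exp (-t4) = KY * ((1 + B) ^ 2 * Real.exp (-t4)) := by ring
      _ ≤ KY * (4 * B ^ 2 * Real.exp (-t4)) := mul_le_mul_of_nonneg_left (mul_le_mul_of_nonneg_right h2 (Real.exp_pos _).le) hKY
      _ ≤ _ := mul_le_mul_of_nonneg_left hb hKY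
  have c : 2 * ((1 + B) ^ 2 * KY) / n ≤ KY * r := by
    calc 2 * ((1 + B) ^ 2 * KY) / n ≤ 2 * (4 * B ^ 2 * KY) / n :=
          div_le_div_of_nonneg_right (mul_le_mul_of_nonneg_left (mul_le_mul_of_nonneg_right h2 hKY) two_pos.le) (Nat.cast_nonneg _)
      _ = KY * (8 * B ^ 2 / n) := by ring
      _ ≤ _ := mul_le_mul_of_nonneg_left hc hKY
  have d : 3 / 2 * (44000 * Real.exp t1 ^ 12 * KY +
      (60 * Real.exp t4 * Real.exp t1 ^ 4 + 2) * (44000 * Real.exp t1 ^ 12 * KY + 2 * ((1 + B) ^ 2 * KY))) * ε ≤ KY * r := by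
    obtain ⟨T, hT⟩ : ∃ T : ℝ, T = Real.exp t1 := ⟨_, rfl⟩
    have hT1 : 1 ≤ T := by
      rw [hT]
      exact Real.one_le_exp (h4.trans h41)
    have h41' : Real.exp t4 ≤ T := by
      rw [hT]
      exact Real.exp_le_exp.2 h41
    have e17 : Real.exp (17 * t1) = T ^ 17 := by
      rw [hT, ← Real.exp_nat_mul]
      norm_num
    rw [← hT]
    rw [e17] at hd
    have c0 : (0 : ℝ) ≤ T ^ 12 := by positivity
    have c1 : T ^ 12 ≤ T ^ 17 := pow_le_pow_right₀ hT1 (by norm_num)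
    have c2 : (1 : ℝ) ≤ T ^ 12 := one_le_pow₀ hT1
    have c3 : (1 : ℝ) ≤ T ^ 5 := one_le_pow₀ hT1
    have c4 : 60 * Real.exp t4 * T ^ 4 + 2 ≤ 62 * T ^ 5 := by
      have : Real.exp t4 * T ^ 4 ≤ T * T ^ 4 := mul_le_mul_of_nonneg_right h41' (by positivity)
      have e5 : T * T ^ 4 = T ^ 5 := by ring
      rw [e5] at this
      linarith
    have c5 : 44000 * T ^ 12 + 2 * (1 + B) ^ 2 ≤ 44008 * (T ^ 12 * B ^ 2) := by
      have d1 : T ^ 12 * 1 ≤ T ^ 12 * B ^ 2 := mul_le_mul_of_nonneg_left hB2 c0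
      have d2 : 1 * B ^ 2 ≤ T ^ 12 * B ^ 2 := mul_le_mul_of_nonneg_right c2 (by positivity)
      linarith
    have c6 : (60 * Real.exp t4 * T ^ 4 + 2) * (44000 * T ^ 12 + 2 * (1 + B) ^ 2) ≤ 62 * T ^ 5 * (44008 * (T ^ 12 * B ^ 2)) :=
      mul_le_mul c4 c5 (by positivity) (by positivity)
    have c7 : 44000 * T ^ 12 ≤ 44000 * (T ^ 17 * B ^ 2) := by
      have d1 : T ^ 17 * 1 ≤ T ^ 17 * B ^ 2 := mul_le_mul_of_nonneg_left hB2 (by positivity)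
      linarith
    have c8 : 62 * T ^ 5 * (44008 * (T ^ 12 * B ^ 2)) = 2728496 * (T ^ 17 * B ^ 2) := by ring
    have c9 : 3 / 2 * (44000 * T ^ 12 + (60 * Real.exp t4 * T ^ 4 + 2) * (44000 * T ^ 12 + 2 * (1 + B) ^ 2)) ≤
        5000000 * (T ^ 17 * B ^ 2) := by
      have : 0 ≤ T ^ 17 * B ^ 2 := by positivity
      rw [c8] at c6
      linarith
    calc _ = KY * (3 / 2 * (44000 * T ^ 12 + (60 * Real.exp t4 * T ^ 4 + 2) * (44000 * T ^ 12 + 2 * (1 + B) ^ 2)) * ε) := by ring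
      _ ≤ KY * (5000000 * (T ^ 17 * B ^ 2) * ε) := mul_le_mul_of_nonneg_left (mul_le_mul_of_nonneg_right c9 hε) hKY
      _ = KY * (5000000 * B ^ 2 * (T ^ 17 * ε)) := by ring
      _ ≤ _ := mul_le_mul_of_nonneg_left hd hKY
  have e : 40 * (1 + B) ^ 2 * KY * qe ≤ KY * r := by
    calc 40 * (1 + B) ^ 2 * KY * qe = KY * (40 * (1 + B) ^ 2 * qe) := by ring
      _ ≤ KY * (160 * B ^ 2 * qe) := mul_le_mul_of_nonneg_left (mul_le_mul_of_nonneg_right (by linarith) hqe) hKY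
      _ ≤ _ := mul_le_mul_of_nonneg_left he hKY
  unfold er70 err70
  linarith

/-- A tiny number beats the powers. -/
theorem ev_tiny70 {a β : ℝ} (ha : 0 < a) (C : ℝ) : ∀ᶠ m : ℕ in atTop,
    C * B33 β m ^ 2 * Real.exp (-(((2 ^ m : ℕ) : ℝ) ^ a)) ≤ ((2 ^ m : ℕ) : ℝ) ^ (-5 : ℝ) / 5 := by
  have h1 : Tendsto (fun m : ℕ => ((2 ^ m : ℕ) : ℝ) ^ a) atTop atTop := (tendsto_rpow_atTop ha).comp tend_n
  have h2 := ((tendsto_rpow_mul_exp_neg_mul_atTop_nhds_zero ((5 + 2 * β) / a) 1 one_pos).comp h1).const_mul (5 * C)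
  rw [mul_zero] at h2
  filter_upwards [h2.eventually_le_const one_pos] with m h3
  obtain ⟨n, hn⟩ : ∃ n : ℝ, n = ((2 ^ m : ℕ) : ℝ) := ⟨_, rfl⟩
  have hn0 : 0 < n := lt_of_lt_of_le one_pos (hn ▸ n_ge1 m)
  simp only [Function.comp_apply] at h3
  rw [← hn, ← Real.rpow_mul hn0.le, mul_div_cancel₀ _ ha.ne', neg_mul, one_mul] at h3
  unfold B33
  rw [← hn]
  have e1 : (n ^ β) ^ 2 = n ^ (-5 : ℝ) * n ^ (5 + 2 * β) := by
    rw [← Real.rpow_natCast, ← Real.rpow_mul hn0.le, ← Real.rpow_add hn0]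
    congr 1
    push_cast
    ring
  have h4 := mul_le_mul_of_nonneg_left h3 (Real.rpow_nonneg hn0.le (-5))
  rw [e1]
  linarith

/-- A smaller exponent. -/
theorem ev_lv70 {k a : ℝ} (h : k < a) (D : ℝ) : ∀ᶠ m : ℕ in atTop, D * ((2 ^ m : ℕ) : ℝ) ^ k ≤ ((2 ^ m : ℕ) : ℝ) ^ a := by
  filter_upwards [ev_n (sub_pos.2 h) D] with m hm
  have hn0 : (0 : ℝ) < ((2 ^ m : ℕ) : ℝ) := lt_of_lt_of_le one_pos (n_ge1 m)
  calc D * ((2 ^ m : ℕ) : ℝ) ^ k ≤ ((2 ^ m : ℕ) : ℝ) ^ (a - k) * ((2 ^ m : ℕ) : ℝ) ^ k :=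
        mul_le_mul_of_nonneg_right hm (Real.rpow_nonneg hn0.le _)
    _ = _ := by
        rw [← Real.rpow_add hn0]
        congr 1
        ring

theorem int5_le {α : Type*} [MeasurableSpace α] {P : Measure α} {f1 f2 f3 f4 f5 g : α → ℝ} (h1 : Integrable f1 P)
    (h2 : Integrable f2 P) (h3 : Integrable f3 P) (h4 : Integrable f4 P) (h5 : Integrable f5 P) (g0 : ∀ x, 0 ≤ g x)
    (hg : ∀ x, g x ≤ f1 x + (f2 x + (f3 x + (f4 x + f5 x)))) :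
    ∫ x, g x ∂P ≤ (∫ x, f1 x ∂P) + ((∫ x, f2 x ∂P) + ((∫ x, f3 x ∂P) + ((∫ x, f4 x ∂P) + ∫ x, f5 x ∂P))) := by
  have i4 : Integrable (fun x => f4 x + f5 x) P := h4.add h5
  have i3 : Integrable (fun x => f3 x + (f4 x + f5 x)) P := h3.add i4
  have i2 : Integrable (fun x => f2 x + (f3 x + (f4 x + f5 x))) P := h2.add i3
  have i1 : Integrable (fun x => f1 x + (f2 x + (f3 x + (f4 x + f5 x)))) P := h1.add i2
  have a4 := integral_add h4 h5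
  have a3 := integral_add h3 i4
  have a2 := integral_add h2 i3
  have a1 := integral_add h1 i2
  have k := integral_mono_of_nonneg (Eventually.of_forall g0) i1 (Eventually.of_forall hg)
  linarith

theorem int_q70_le [IsProbabilityMeasure μ] (N y : ℕ) [Nonempty (Px (Pn N y))] (δ B : ℝ) (b0 j : ℕ) {t1 t2 t3 t4 t5 r1 r2 r3 r4 r5 : ℝ}
    (h1 : 1 + (t2 + t3 + t4 + t5) ≤ r1) (h2 : 1 + (t3 + t4 + t5) ≤ r2) (h3 : 1 + (t4 + t5) ≤ r3) (h4 : 1 + t5 ≤ r4) (h5 : 1 ≤ r5) :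
    ∫ ω, q70 μ s N (Pn N y) δ B b0 j t1 t2 t3 t4 t5 ω ∂(Pm μ N) ≤
      (∫ ω, min 1 (Real.exp r1 * gm (wm μ s N (Pn N y) ω) (psi48 μ s N y δ B b0 j t1 ω)) ∂(Pm μ N)) +
      ((∫ ω, min 1 (Real.exp r2 * gm (wm μ s N (Pn N y) ω) (psi48 μ s N y δ B b0 j t2 ω)) ∂(Pm μ N)) +
      ((∫ ω, min 1 (Real.exp r3 * gm (wm μ s N (Pn N y) ω) (psi48 μ s N y δ B b0 j t3 ω)) ∂(Pm μ N)) +
      ((∫ ω, min 1 (Real.exp r4 * gm (wm μ s N (Pn N y) ω) (psi48 μ s N y δ B b0 j t4 ω)) ∂(Pm μ N)) +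
      ∫ ω, min 1 (Real.exp r5 * gm (wm μ s N (Pn N y) ω) (psi48 μ s N y δ B b0 j t5 ω)) ∂(Pm μ N)))) := by
  have i := fun r t => int_min48 (μ := μ) (s := s) N y δ B b0 j t r
  exact int5_le (i _ _) (i _ _) (i _ _) (i _ _) (i _ _) (fun ω => q70_nonneg _ _ _ _ _ _ _ _ _ _)
    (fun ω => q70_leF N y δ B b0 j h1 h2 h3 h4 h5 ω)

/-- **THE LEVELS AND THE ERRORS AT THE FRAME.** -/
theorem lev70 [IsProbabilityMeasure μ] {c₁ C : ℝ} {n₀ : ℕ} (h : In μ s c₁ C n₀) {K : ℕ} (hK : 32 ≤ K) {δ : ℝ} (hδ : 0 < δ) :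
    Est fun _ β γ m => ∃ t1 t2 t3 t4 t5 ε : ℝ, 0 ≤ t5 ∧ 0 ≤ t4 ∧ t4 ≤ t3 ∧ t3 ≤ t2 ∧ t2 ≤ t1 ∧ t1 ≤ B33 β m ∧ 1 ≤ B33 β m ∧
      ∀ b0 j : ℕ, ((2 ^ m : ℕ) : ℝ) ^ (δ / 4) ≤ b0 → b0 ≤ 2 ^ m → b0 ≤ j → j + b0 ≤ L33 K m →
        FErr μ s (L33 K m) γ (B33 β m) b0 j (y33 μ s K m) (M33 m) ε ∧ ∀ M : ℝ, 8 * B33 β m ≤ M → ∀ KY : ℝ, 0 ≤ KY →
          er70 (B33 β m) KY M t1 t4 ε (avy (ys33 μ s K m) (fun y => ∫ ω, q70 μ s (L33 K m) (Pn (L33 K m) y) γ (B33 β m) b0 j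
            t1 t2 t3 t4 t5 ω ∂(Pm μ (L33 K m)))) (M33 m) ≤ KY * ((2 ^ m : ℕ) : ℝ) ^ (-5 : ℝ) := by
  refine Sml.of fun ι _ => ⟨1 / 8, by norm_num, fun β hβ hβ8 => ?_⟩
  obtain ⟨γ₁, hγ₁, h1⟩ := ferr33 h (clipP33 h) hK (show 0 < δ / 4 by positivity) hβ
  obtain ⟨γ₂, hγ₂, h2⟩ := kickF48 h hK (show 0 < δ / 4 by positivity)
  refine ⟨min γ₁ γ₂, lt_min hγ₁ hγ₂, fun γ hγ hγ' => ?_⟩
  obtain ⟨c', hc', h3⟩ := h1 γ hγ (hγ'.trans (min_le_left _ _))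
  have hγ2 := hγ'.trans (min_le_right _ _)
  have hK0 : (0 : ℝ) < K := by
    have : (32 : ℝ) ≤ K := by exact_mod_cast hK
    linarith
  have step : ∀ a b : ℝ, 0 < a → 0 < b → ∃ k : ℝ, 0 < k ∧ k ≤ a ∧ k < b := fun a b ha hb =>
    ⟨min a (b / 2), lt_min ha (by positivity), min_le_left _ _, (min_le_right _ _).trans_lt (by linarith)⟩
  obtain ⟨k1, p1, q1, x1⟩ := step β (K * c') hβ (by positivity)
  obtain ⟨a1, u1, f1⟩ := h2 k1 p1
  obtain ⟨k2, p2, q2, x2⟩ := step k1 a1 p1 u1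
  obtain ⟨a2, u2, f2⟩ := h2 k2 p2
  obtain ⟨k3, p3, q3, x3⟩ := step k2 a2 p2 u2
  obtain ⟨a3, u3, f3⟩ := h2 k3 p3
  obtain ⟨k4, p4, q4, x4⟩ := step k3 a3 p3 u3
  obtain ⟨a4, u4, f4⟩ := h2 k4 p4
  obtain ⟨k5, p5, q5, x5⟩ := step k4 a4 p4 u4
  obtain ⟨a5, u5, f5⟩ := h2 k5 p5
  obtain ⟨z, hz⟩ : ∃ z : ℝ, z = min a1 (min a2 (min a3 (min a4 a5))) := ⟨_, rfl⟩
  have z0 : 0 < z := by
    rw [hz]
    exact lt_min u1 (lt_min u2 (lt_min u3 (lt_min u4 u5)))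
  have za1 : z ≤ a1 := hz ▸ min_le_left _ _
  have za2 : z ≤ a2 := hz ▸ (min_le_right _ _).trans (min_le_left _ _)
  have za3 : z ≤ a3 := hz ▸ (min_le_right _ _).trans ((min_le_right _ _).trans (min_le_left _ _))
  have za4 : z ≤ a4 := hz ▸ (min_le_right _ _).trans ((min_le_right _ _).trans ((min_le_right _ _).trans (min_le_left _ _)))
  have za5 : z ≤ a5 := hz ▸ (min_le_right _ _).trans ((min_le_right _ _).trans ((min_le_right _ _).trans (min_le_right _ _)))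
  have hlv := (ev_lv70 x2 5).and ((ev_lv70 x3 5).and ((ev_lv70 x4 5).and ((ev_lv70 x5 5).and ((ev_lv70 x1 18).and
    (ev_lv70 (show 2 * β < 1 by linarith) 40)))))
  have hty := (ev_tiny70 (β := β) hβ (64 * Real.exp 16)).and ((ev_tiny70 (β := β) p4 4).and ((ev_tiny70 (β := β) p1 5000000).and
    (ev_tiny70 (β := β) z0 800)))
  filter_upwards [h3, f1, f2, f3, f4, f5, hlv, hty, cone33 h hK one_pos] with m g0 g1 g2 g3 g4 g5 hl ht hco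
  obtain ⟨l1, l2, l3, l4, l5, l6⟩ := hl
  obtain ⟨y1, y2, y3, y4⟩ := ht
  obtain ⟨n, hn⟩ : ∃ n : ℝ, n = ((2 ^ m : ℕ) : ℝ) := ⟨_, rfl⟩
  have hn1 : 1 ≤ n := hn ▸ n_ge1 m
  have hn0 : 0 < n := by linarith
  have hB : B33 β m = n ^ β := by rw [hn]; rfl
  have hB1 : 1 ≤ B33 β m := by
    rw [hB]
    exact Real.one_le_rpow hn1 hβ.le
  rw [← hn] at g1 g2 g3 g4 g5 l1 l2 l3 l4 l5 l6 y1 y2 y3 y4
  have one : ∀ k : ℝ, 0 < k → 1 ≤ n ^ k := fun k hk => Real.one_le_rpow hn1 hk.le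
  have mo : ∀ k k' : ℝ, k ≤ k' → n ^ k ≤ n ^ k' := fun k k' hk => Real.rpow_le_rpow_of_exponent_le hn1 hk
  have o2 := one k2 p2
  have o3 := one k3 p3
  have o4 := one k4 p4
  have o5 := one k5 p5
  have m2 := mo _ _ q2
  have m3 := mo _ _ q3
  have m4 := mo _ _ q4
  have m5 := mo _ _ q5
  refine ⟨n ^ k1, n ^ k2, n ^ k3, n ^ k4, n ^ k5, Real.exp (-(L33 K m : ℝ) ^ c'), by linarith, by linarith, m4, m3, m2,
    by rw [hB]; exact mo _ _ q1, hB1, fun b0 j hb hbn hbj hj => ⟨g0 _ le_rfl b0 j hb hbn hbj hj, fun M hM KY hKY => ?_⟩⟩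
  rw [← hn] at hb
  have w1 := (g1 γ hγ2 (B33 β m) (by linarith) b0 j hb hbj hj).2
  have w2 := (g2 γ hγ2 (B33 β m) (by linarith) b0 j hb hbj hj).2
  have w3 := (g3 γ hγ2 (B33 β m) (by linarith) b0 j hb hbj hj).2
  have w4 := (g4 γ hγ2 (B33 β m) (by linarith) b0 j hb hbj hj).2
  have w5 := (g5 γ hγ2 (B33 β m) (by linarith) b0 j hb hbj hj).2
  have ex : ∀ a : ℝ, z ≤ a → Real.exp (-(n ^ a)) ≤ Real.exp (-(n ^ z)) := fun a ha => Real.exp_le_exp.2 (neg_le_neg (mo _ _ ha))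
  have v1 := ex a1 za1
  have v2 := ex a2 za2
  have v3 := ex a3 za3
  have v4 := ex a4 za4
  have v5 := ex a5 za5
  obtain ⟨qe, hqe⟩ : ∃ qe : ℝ, qe = avy (ys33 μ s K m) (fun y => ∫ ω, q70 μ s (L33 K m) (Pn (L33 K m) y) γ (B33 β m) b0 j
    (n ^ k1) (n ^ k2) (n ^ k3) (n ^ k4) (n ^ k5) ω ∂(Pm μ (L33 K m))) := ⟨_, rfl⟩
  have q0 : 0 ≤ qe := by
    rw [hqe]
    refine avy_nonneg fun y hy => integral_nonneg fun ω => ?_
    have := ne_Pn (hy33 (μ := μ) (s := s) (show 6 ≤ K by omega) m y hy)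
    exact q70_nonneg _ _ _ _ _ _ _ _ _ _
  have qle : qe ≤ 5 * Real.exp (-(n ^ z)) := by
    rw [hqe]
    have hle : ∀ y ∈ ys33 μ s K m, ∫ ω, q70 μ s (L33 K m) (Pn (L33 K m) y) γ (B33 β m) b0 j
        (n ^ k1) (n ^ k2) (n ^ k3) (n ^ k4) (n ^ k5) ω ∂(Pm μ (L33 K m)) ≤ _ := fun y hy => by
      have := ne_Pn (hy33 (μ := μ) (s := s) (show 6 ≤ K by omega) m y hy)
      exact int_q70_le (L33 K m) y γ (B33 β m) b0 j (t1 := n ^ k1) (t2 := n ^ k2) (t3 := n ^ k3) (t4 := n ^ k4) (t5 := n ^ k5)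
        (r1 := n ^ a1) (r2 := n ^ a2) (r3 := n ^ a3) (r4 := n ^ a4) (r5 := n ^ a5) (by linarith) (by linarith) (by linarith)
        (by linarith) (one a5 u5)
    refine (avy_mono hle).trans ?_
    rw [avy_add, avy_add, avy_add, avy_add]
    linarith
  rw [← hqe, ← hn]
  have hr : KY * n ^ (-5 : ℝ) = KY * (5 * (n ^ (-5 : ℝ) / 5)) := by ring
  rw [hr]
  refine er70_le hB1 hM hKY (by linarith) (by linarith) (Real.exp_pos _).le ?_ y2 ?_ ?_ ?_ q0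
  · rw [hB] at y1 ⊢
    exact y1
  · rw [M33_real, ← hn, hB, div_le_iff₀ (by positivity)]
    rw [Real.rpow_one] at l6
    have e1 : n ^ (-5 : ℝ) * n ^ 6 = n := by
      rw [← Real.rpow_natCast, ← Real.rpow_add hn0]
      norm_num
    have e2 : (n ^ β) ^ 2 = n ^ (2 * β) := by
      rw [← Real.rpow_natCast, ← Real.rpow_mul hn0.le]
      congr 1
      push_cast
      ring
    rw [e2]
    have e3 : n ^ (-5 : ℝ) / 5 * n ^ 6 = n / 5 := by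
      rw [div_mul_eq_mul_div, e1]
    rw [e3]
    linarith
  · refine le_trans (mul_le_mul_of_nonneg_left ?_ (by positivity)) y3
    rw [L33_pow, ← hn, ← Real.exp_add]
    exact Real.exp_le_exp.2 (by linarith)
  · calc 160 * B33 β m ^ 2 * qe ≤ 160 * B33 β m ^ 2 * (5 * Real.exp (-(n ^ z))) := mul_le_mul_of_nonneg_left qle (by positivity)
      _ = 800 * B33 β m ^ 2 * Real.exp (-(n ^ z)) := by ring
      _ ≤ _ := y4

/-! ### The row at the frame -/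

/-- **The row of `M x M`** at a frame, with the events at the level `M`. -/
def MRow70 (μ : Measure ℝ) (s : ℝ) (F : Frm96) (p p' j m : ℕ) (M : ℝ) (Yf : Wt46 F m) (KY : ℝ) : Prop :=
  avF μ s F m (fun y ω S => sr ω.2 j * M5e μ s (F.L m) (Pn (F.L m) y) F.dl (F.B m) (F.b0 m p) (2 ^ p) (2 ^ p') ω j S * Yf y ω S) ≤
    2 * (1 + F.B m) ^ 2 * avF μ s F m (fun y ω S => |Yf y ω S| *
      (tI70 μ s (F.L m) y (F.b0 m p) (2 ^ p) (2 ^ p') j M ω S * tE70 μ s (F.L m) y (F.b0 m p) (2 ^ p') j M ω S)) +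
      KY * ((2 ^ m : ℕ) : ℝ) ^ (-5 : ℝ)

/-- **THE ROW OF `M x M` AT THE FRAME.** -/
theorem row70F [IsProbabilityMeasure μ] {c₁ C : ℝ} {n₀ : ℕ} (h : In μ s c₁ C n₀) (hk : KapLe96 (EE μ s) (1 / 4)) {K : ℕ} (hK : 32 ≤ K)
    {Θ δ c η : ℝ} (hδ : 0 < δ) (hc : 0 ≤ c) (hcδ : c ≤ δ / 64) (hη : 0 ≤ η) :
    Est fun ι β γ m => ∀ p p' q i : ℕ, Chg96 (EE μ s) Θ δ c η m p p' q → i < 2 ^ (m - q) →
      ∀ j ∈ Rw (R33 ι m) (i * 2 ^ q) ((i + 1) * 2 ^ q), ∀ M : ℝ, 8 * B33 β m ≤ M →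
        ∀ (Yf : Wt46 (frm33 μ s K ι β γ) m) (KY : ℝ), Cov1 (L33 K m) (2 ^ p') j Yf KY →
          MRow70 μ s (frm33 μ s K ι β γ) p p' j m M Yf KY := by
  have hι : Est fun ι _ _ _ => ι ≤ δ / 4 := Est.iota (Sml.le (by positivity))
  refine (hι.and ((lev70 h hK hδ).and (rows46 (Θ := Θ) h hk hK hδ hc hcδ hη))).mono fun ι β γ _ _ _ => ?_
  by_cases hι4 : ι ≤ δ / 4
  swap
  · exact Eventually.of_forall fun m h1 => absurd h1.1 hι4
  filter_upwards [b0_33 hδ hι4, cone33 h hK one_pos] with m hb0 hco hH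
  obtain ⟨-, ⟨t1, t2, t3, t4, t5, ε, z5, z4, z43, z32, z21, z1, hB1, hF⟩, hrw⟩ := hH
  intro p p' q i hC hi j hj M hM Yf KY HY
  obtain ⟨r1, r2, r3⟩ := hrw p p' q i hC hi j hj
  obtain ⟨b0, hb⟩ : ∃ b0 : ℕ, b0 = 2 ^ (p - ⌈ι * (m : ℝ)⌉₊) := ⟨_, rfl⟩
  have b1 : b0 ≤ 2 ^ p := by
    rw [hb]
    exact Nat.pow_le_pow_right two_pos (Nat.sub_le _ _)
  have b2 : 2 ^ p ≤ 2 ^ p' := Nat.pow_le_pow_right two_pos hC.hpp
  have b3 : 0 < b0 := by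
    rw [hb]
    positivity
  have b4 : ((2 ^ m : ℕ) : ℝ) ^ (δ / 4) ≤ b0 := by
    rw [hb]
    exact hb0 p hC.hp
  have g := hF b0 j b4 (by omega) (by omega) (by omega)
  have key := row70E (μ := μ) (s := s) (N := L33 K m) b3 b1 b2 r3 (δ := γ) (B := B33 β m) (by linarith) (HY.window (by omega)) HY.mp
    z5 z4 z43 z32 z21 z1 (m := M) (by linarith) (y₀ := y33 μ s K m) (n := M33 m) (by omega)
    (Nat.one_le_two_pow) (by omega) g.1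
  have e := g.2 M hM KY HY.pos
  subst hb
  exact key.trans (add_le_add le_rfl e)

end

end Pool.Agent.W_7d29a1_C0.MM70
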