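import Pool.Agent.W_7d29a1_C0.MRow36B
import Pool.Agent.W_7d29a1_C0.MMf70

/-!
MP_7d29a1_pr, [CURV0], leaf E5 (helper36): `RowN23` FOR `k = 2` AND `MB` ARE THEOREMS: the row estimate `Row70` at the frame from `row70F`
(helper70), at the level `8 n ^ β` and the exponent `5`; then `rowR36`, `mbR36`.
-/

set_option autoImplicit false
set_option linter.unusedSectionVars false

namespace Pool.Agent.W_7d29a1_C0.MRow36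

open Finset MeasureTheory Filter Topology
open Pool.Agent.W_7d29a1_F Pool.Agent.W_7d29a1_X
open Pool.Agent.W_7d29a1_H (EE EE_pos one_le_EE)
open Pool.Agent.W_7d29a1_HS (In wd)
open Pool.Agent.W_7d29a1_C0 Pool.Agent.W_7d29a1_C0.Mod92 Pool.Agent.W_7d29a1_C0.Asm96 Pool.Agent.W_7d29a1_C0.N38
open Pool.Agent.W_7d29a1_C0.NTop23 Pool.Agent.W_7d29a1_C0.Flip61 Pool.Agent.W_7d29a1_C0.Pr46
open Pool.Agent.W_7d29a1_C0.Frm33 Pool.Agent.W_7d29a1_C0.Sz23 Pool.Agent.W_7d29a1_C0.Base5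
open Pool.Agent.W_7d29a1_C0.Par92 (Est Sml)

noncomputable section

variable {μ : Measure ℝ} {s : ℝ} {K : ℕ} {Θ δ c η : ℝ}

/-- **THE ROW ESTIMATE OF `M x M`**, in the form of the closing. -/
theorem ha36 [IsProbabilityMeasure μ] {c₁ C : ℝ} {n₀ : ℕ} (h : In μ s c₁ C n₀) (hk : KapLe96 (EE μ s) (1 / 4)) (hK : 32 ≤ K)
    (hδ : 0 < δ) (hc : 0 ≤ c) (hcδ : c ≤ δ / 64) (hη : 0 ≤ η) :
    Est fun ι β γ m => Row70 μ s (frm33 μ s K ι β γ) (EE μ s) Θ δ c η 5 (8 * B33 β m) m := by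
  refine (MM70.row70F (Θ := Θ) h hk hK hδ hc hcδ hη).mono fun ι β γ _ _ _ => ?_
  refine Filter.Eventually.of_forall fun m H => ?_
  intro p p' q i hC hi j hj Yf KY HY
  have h1 := H p p' q i hC hi j hj (8 * B33 β m) le_rfl Yf KY HY
  have h2 : KY * ((2 ^ m : ℕ) : ℝ) ^ (-5 : ℝ) ≤ (1 + KY) * ((2 ^ m : ℕ) : ℝ) ^ (-5 : ℝ) :=
    mul_le_mul_of_nonneg_right (by linarith) (Real.rpow_nonneg (Nat.cast_nonneg _) _)
  exact h1.trans (add_le_add le_rfl h2)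

/-- **`RowN23` FOR `k = 2`.** -/
theorem row36C [IsProbabilityMeasure μ] {c₁ C : ℝ} {n₀ : ℕ} (h : In μ s c₁ C n₀) (hk : KapLe96 (EE μ s) (1 / 4)) (hK : 32 ≤ K)
    {c₀ : ℝ} (hR : RegP46 μ s c₀ Θ) (hΘ : 0 < Θ) (hδ : 0 < δ) (hc : 0 < c) (hc1 : c ≤ 1) (hcδ : c ≤ δ / 64) (hη : 0 ≤ η) :
    Est fun ι β γ m => RowN23 μ s (frm33 μ s K ι β γ) (EE μ s) Θ δ c η 2 m :=
  rowR36 h hk hK hR hΘ hδ hc hc1 hcδ hη (ha36 h hk hK hδ hc.le hcδ hη)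

/-- **`MB`.** -/
theorem mb36C [IsProbabilityMeasure μ] {c₁ C : ℝ} {n₀ : ℕ} (h : In μ s c₁ C n₀) (hk : KapLe96 (EE μ s) (1 / 4)) (hK : 32 ≤ K)
    {c₀ : ℝ} (hR : RegP46 μ s c₀ Θ) (hΘ : 0 < Θ) (hδ : 0 < δ) (hc : 0 < c) (hc1 : c ≤ 1) (hcδ : c ≤ δ / 64) (hη : 0 ≤ η) :
    Est fun ι β γ m => MB μ s (frm33 μ s K ι β γ) (EE μ s) Θ δ c η m :=
  mbR36 h hk hK hR hΘ hδ hc hc1 hcδ hη (ha36 h hk hK hδ hc.le hcδ hη)

/-- **THE FIELD `rows` OF `Opn33` FOR `k = 2`.** -/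
theorem rowS36 [IsProbabilityMeasure μ] {c₁ C : ℝ} {n₀ : ℕ} (h : In μ s c₁ C n₀) (hk : KapLe96 (EE μ s) (1 / 4)) (hK : 32 ≤ K)
    {c₀ : ℝ} (hR : RegP46 μ s c₀ Θ) (hΘ : 0 < Θ) :
    Sml fun δ => Sml fun c => ∀ η : ℝ, 0 < η → η ≤ c / 64 → Est fun ι β γ m =>
      RowN23 μ s (frm33 μ s K ι β γ) (EE μ s) Θ δ c η 2 m :=
  Sml.of fun δ hδ => ⟨min 1 (δ / 64), lt_min one_pos (by positivity), fun c hc hc' η hη _ =>
    row36C h hk hK hR hΘ hδ hc (hc'.trans (min_le_left _ _)) (hc'.trans (min_le_right _ _)) hη.le⟩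

end

end Pool.Agent.W_7d29a1_C0.MRow36
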