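import Pool.Agent.W_7d29a1_C0.N1F14

/-!
MP_7d29a1_pr, [CURV0], leaf E5.8 / N1B (helper14): THE LINES OF `N1B` AS FAMILIES AT A FRAME. `RF14`, `LF14` (the nine lines of a side),
`OF14` (the own line), `XF14` (their weighted sum); they are bounded by a number and measurable.
-/

set_option autoImplicit false
set_option linter.unusedSectionVars false
set_option linter.unusedVariables false

namespace Pool.W7d29a1.C0.N14

open Finset Filter Topology MeasureTheory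
open Pool.Agent.W_7d29a1_F Pool.Agent.W_7d29a1_C0 Pool.W7d29a1.C0 Pool.W7d29a1.C0.VT31
open Pool.Agent.W_7d29a1_C0.Swap57 Pool.Agent.W_7d29a1_C0.Mod92 Pool.Agent.W_7d29a1_C0.H32 Pool.Agent.W_7d29a1_C0.Asm96
open Pool.Agent.W_7d29a1_C0.Frm33 Pool.Agent.W_7d29a1_C0.N38
open Pool.Agent.W_7d29a1_C0.PrT14 (bm_sec14)
open Pool.W7d29a1.C0.L38 Pool.W7d29a1.C0.PM14 Pool.W7d29a1.C0.NN1 Pool.W7d29a1.C0.H41

noncomputable section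

section Defs

variable (μ : Measure ℝ) (s : ℝ) (F : Frm96) (m p p' : ℕ)

/-- A line of the right side. -/
def RF14 (M : ℝ) (i : Fin 9) (t : ℝ) (y : ℕ) (ω : Env × Finset ℕ) (j : ℕ) (S : Px (Pn (F.L m) y)) : ℝ :=
  FR14 μ s (F.L m) (Pn (F.L m) y) F.dl (F.B m) (F.b0 m p) (2 ^ p) (2 ^ p') j (Mod92.sg ω.2 j) M t i ω.1 S

/-- A line of the left side. -/
def LF14 (M : ℝ) (i : Fin 9) (t : ℝ) (y : ℕ) (ω : Env × Finset ℕ) (j : ℕ) (S : Px (Pn (F.L m) y)) : ℝ :=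
  FL14 μ s (F.L m) (Pn (F.L m) y) F.dl (F.B m) (F.b0 m p) (2 ^ p) (2 ^ p') j (Mod92.sg ω.2 j) M t i ω.1 S

/-- The own line. -/
def OF14 (M : ℝ) (_t : ℝ) (y : ℕ) (ω : Env × Finset ℕ) (j : ℕ) (S : Px (Pn (F.L m) y)) : ℝ :=
  ow14 μ s (F.L m) (Pn (F.L m) y) (F.b0 m p) (2 ^ p) (2 ^ p') j M ω.1 S

/-- The weighted sum of the lines. -/
def XF14 (G M : ℝ) (t : ℝ) (y : ℕ) (ω : Env × Finset ℕ) (j : ℕ) (S : Px (Pn (F.L m) y)) : ℝ :=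
  X14 μ s (F.L m) (Pn (F.L m) y) F.dl (F.B m) (F.b0 m p) (2 ^ p) (2 ^ p') G M t j (Mod92.sg ω.2 j) ω.1 S

/-- The lines in one list. -/
def AF14 (M : ℝ) : Fin 9 ⊕ Fin 9 ⊕ Unit → ℝ → (y : ℕ) → Env × Finset ℕ → ℕ → Px (Pn (F.L m) y) → ℝ
  | Sum.inl i => RF14 μ s F m p p' M i
  | Sum.inr (Sum.inl i) => LF14 μ s F m p p' M i
  | Sum.inr (Sum.inr _) => OF14 μ s F m p p' M

/-- The factors of the lines. -/
def CF14 (G : ℝ) : Fin 9 ⊕ Fin 9 ⊕ Unit → ℝ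
  | Sum.inl _ => 32 * F.B m ^ 4
  | Sum.inr (Sum.inl _) => 32 * F.B m ^ 4
  | Sum.inr (Sum.inr _) => G ^ 2 * F.B m ^ 2

theorem XF14_eq (G M : ℝ) : XF14 μ s F m p p' G M = fun t y ω j S => ∑ a, CF14 F m G a * AF14 μ s F m p p' M a t y ω j S := by
  funext t y ω j S
  have e3 : ∑ u : Unit, CF14 F m G (Sum.inr (Sum.inr u)) * AF14 μ s F m p p' M (Sum.inr (Sum.inr u)) t y ω j S =
      G ^ 2 * F.B m ^ 2 * OF14 μ s F m p p' M t y ω j S := Fintype.sum_unique _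
  rw [Fintype.sum_sum_type, Fintype.sum_sum_type, e3]
  show X14 _ _ _ _ _ _ _ _ _ _ _ _ _ _ _ _ = ∑ i : Fin 9, 32 * F.B m ^ 4 * RF14 μ s F m p p' M i t y ω j S +
    (∑ i : Fin 9, 32 * F.B m ^ 4 * LF14 μ s F m p p' M i t y ω j S + G ^ 2 * F.B m ^ 2 * OF14 μ s F m p p' M t y ω j S)
  rw [← mul_sum, ← mul_sum]
  unfold X14 FS14 RF14 LF14 OF14
  ring

end Defs

section BMs

variable {μ : Measure ℝ} [IsProbabilityMeasure μ] {s : ℝ} {F : Frm96} {m : ℕ} {T : Finset ℕ}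

theorem bm_mf14 {D : ℝ} {f : (y : ℕ) → Finset ℕ → Env → Px (Pn (F.L m) y) → ℝ} (h : ∀ y ∈ F.ys m, ∀ A, MF (f y A) D) :
    BM (F.ys m) fun y (ω : Env × Finset ℕ) S => f y ω.2 ω.1 S :=
  bm_sec14 (D := D) (fun y hy ω S => (h y hy ω.2).bd ω.1 S) fun y hy S A => (h y hy A).ms S

theorem bm_RF14 (hy : ∀ y ∈ F.ys m, y ≤ F.L m) (hB : 0 ≤ F.B m) (p p' : ℕ) (M : ℝ) (i : Fin 9) (t : ℝ) (j : ℕ) :
    BM (F.ys m) fun y ω S => RF14 μ s F m p p' M i t y ω j S := by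
  refine bm_mf14 (D := 1) (f := fun y A η S => FR14 μ s (F.L m) (Pn (F.L m) y) F.dl (F.B m) (F.b0 m p) (2 ^ p) (2 ^ p') j
    (Mod92.sg A j) M t i η S) fun y h A => ?_
  have := ne_Pn (hy y h)
  exact mf_FR14 hB (Mod92.abs_sg A j).le M t i

theorem bm_LF14 (hy : ∀ y ∈ F.ys m, y ≤ F.L m) (hB : 0 ≤ F.B m) (p p' : ℕ) (M : ℝ) (i : Fin 9) (t : ℝ) (j : ℕ) :
    BM (F.ys m) fun y ω S => LF14 μ s F m p p' M i t y ω j S := by
  refine bm_mf14 (D := 1) (f := fun y A η S => FL14 μ s (F.L m) (Pn (F.L m) y) F.dl (F.B m) (F.b0 m p) (2 ^ p) (2 ^ p') j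
    (Mod92.sg A j) M t i η S) fun y h A => ?_
  have := ne_Pn (hy y h)
  exact mf_FL14 hB (Mod92.abs_sg A j).le M t i

theorem bm_OF14 (hy : ∀ y ∈ F.ys m, y ≤ F.L m) (p p' : ℕ) (M : ℝ) (t : ℝ) (j : ℕ) :
    BM (F.ys m) fun y ω S => OF14 μ s F m p p' M t y ω j S := by
  refine bm_mf14 (D := 1 + 1) (f := fun y A η S => ow14 μ s (F.L m) (Pn (F.L m) y) (F.b0 m p) (2 ^ p) (2 ^ p') j M η S) fun y h A => ?_
  have := ne_Pn (hy y h)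
  exact mf_ow14 _ _ _ _ _

theorem bm_XF14 (hy : ∀ y ∈ F.ys m, y ≤ F.L m) (hB : 0 ≤ F.B m) (p p' : ℕ) (G M : ℝ) (t : ℝ) (j : ℕ) :
    BM (F.ys m) fun y ω S => XF14 μ s F m p p' G M t y ω j S := by
  refine bm_mf14 (f := fun y A η S => X14 μ s (F.L m) (Pn (F.L m) y) F.dl (F.B m) (F.b0 m p) (2 ^ p) (2 ^ p') G M t j
    (Mod92.sg A j) η S) (D := G ^ 2 * F.B m ^ 2 * (1 + 1) + 32 * F.B m ^ 4 * (9 + 9)) fun y h A => ?_
  have := ne_Pn (hy y h)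
  exact mf_X14 hB (Mod92.abs_sg A j).le G M t

theorem bm_AF14 (hy : ∀ y ∈ F.ys m, y ≤ F.L m) (hB : 0 ≤ F.B m) (p p' : ℕ) (M : ℝ) (a : Fin 9 ⊕ Fin 9 ⊕ Unit) (t : ℝ) (j : ℕ) :
    BM (F.ys m) fun y ω S => AF14 μ s F m p p' M a t y ω j S := by
  rcases a with i | i | i
  · exact bm_RF14 hy hB p p' M i t j
  · exact bm_LF14 hy hB p p' M i t j
  · exact bm_OF14 hy p p' M t j

end BMs

end

end Pool.W7d29a1.C0.N14
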