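import Pool.Agent.W_7d29a1_C0.PrB5
import Pool.Agent.W_7d29a1_C0.SzF23

/-!
MP_7d29a1_pr, [CURV0] / [C0], leaf N1B, (F1) (helper3): THE OWN LINE AS A PRICE FORM. `own_prB3`: the two robust events of the row `j`, own
window between `b0` and `2 ^ p`, told from the ends of the window `2 ^ p'`: `PrB` at the frame with `g = n ^ ε / EE (2 ^ p)` and no long loops.
`bm_of_sec`: `BM` from the sections.
-/

set_option autoImplicit false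
set_option linter.unusedSectionVars false

namespace Pool.Agent.W_7d29a1_C0.OwnB3

open Finset MeasureTheory Filter Topology Pool.Agent.W_7d29a1_F Pool.Agent.W_7d29a1_X Pool.Agent.W_7d29a1_H Pool.Agent.W_7d29a1_C0.Mod92
open Pool.Agent.W_7d29a1_HS (In)
open Pool.Agent.W_7d29a1_HZ (wd' EE')
open Pool.Agent.W_7d29a1_C0 Pool.Agent.W_7d29a1_C0.Asm96 Pool.Agent.W_7d29a1_C0.Frm33
open Pool.Agent.W_7d29a1_C0.Strip80 (OffD)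
open Pool.Agent.W_7d29a1_C0.Swap57 Pool.Agent.W_7d29a1_C0.Base5
open Pool.Agent.W_7d29a1_C0.N38 Pool.Agent.W_7d29a1_C0.NTop23 Pool.Agent.W_7d29a1_C0.PrB5 Pool.Agent.W_7d29a1_C0.Sz23
open Pool.W7d29a1.C0 Pool.W7d29a1.C0.VT31 Pool.W7d29a1.C0.R43 Pool.W7d29a1.C0.S1

noncomputable section

/-- Measurability from the sections over the marks. -/
theorem meas_sec3 {Φ : Env × Finset ℕ → ℝ} (hm : ∀ A, Measurable fun η => Φ (η, A)) : Measurable Φ := by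
  intro U hU
  have e : Φ ⁻¹' U = ⋃ A : Finset ℕ, ((fun η => Φ (η, A)) ⁻¹' U) ×ˢ {A} := by
    ext ⟨η, A⟩
    simp
  rw [e]
  exact MeasurableSet.iUnion fun A => (hm A hU).prod (MeasurableSet.singleton A)

/-- **`BM` from the sections.** -/
theorem bm_of_sec {Y : ℕ → Type*} [∀ y, Fintype (Y y)] {ys : Finset ℕ} {f : ∀ y, Env × Finset ℕ → Y y → ℝ} {D : ℝ}
    (h : ∀ y ∈ ys, ∀ ω S, |f y ω S| ≤ D) (hm : ∀ y ∈ ys, ∀ A S, Measurable fun η => f y (η, A) S) : BM ys f :=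
  ⟨⟨D, h⟩, fun y hy S => meas_sec3 fun A => hm y hy A S⟩

variable {μ : Measure ℝ} {s : ℝ}

/-- **THE OWN LINE OF ONE ROW AS A PRICE FORM AT THE FRAME.** -/
theorem own_prB3 [IsProbabilityMeasure μ] {c₀ C₀ : ℝ} {n₀ : ℕ} (h : In μ s c₀ C₀ n₀) {K : ℕ} (hK : 32 ≤ K) {δ ε : ℝ} (hδ : 0 < δ)
    (hε : 0 < ε) : ∃ κ : ℝ, 0 < κ ∧ ∀ κ' : ℝ, 0 < κ' → κ' ≤ κ → ∃ c₂ : ℝ, 0 < c₂ ∧ ∀ ι : ℝ, 0 < ι → ∀ᶠ m : ℕ in atTop,
      ∀ (β γ : ℝ) (p p' q i : ℕ) (K₀ : ℝ), 0 < K₀ → δ * m ≤ p → p ≤ p' → 6 ≤ p' →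
      (∀ j ∈ Rw ((frm33 μ s K ι β γ).R m) (i * 2 ^ q) ((i + 1) * 2 ^ q), 2 ^ p' ≤ j ∧ j + 2 ^ p' ≤ L33 K m) →
      PrB μ s (frm33 μ s K ι β γ) m q i (2 ^ (p' - 6)) (2 ^ p') K₀ (fun y ω j S =>
          i1 (Tau (wm μ s (L33 K m) (Pn (L33 K m) y) ω) (pJ (j - 2 ^ p') (j + 2 ^ p')) (j + (frm33 μ s K ι β γ).b0 m p) (j + 2 ^ p)
            (((2 ^ m : ℕ) : ℝ) ^ κ') S) +
          i1 (Tau (wm μ s (L33 K m) (Pn (L33 K m) y) ω) (pJ (j - 2 ^ p') (j + 2 ^ p')) (j - 2 ^ p) (j - (frm33 μ s K ι β γ).b0 m p)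
            (((2 ^ m : ℕ) : ℝ) ^ κ') S))
        (((2 ^ m : ℕ) : ℝ) ^ ε / EE μ s (2 ^ p)) 0 0
        (((2 ^ (p' - 6) : ℕ) : ℝ) * (K₀ * Real.exp (-(((2 ^ m : ℕ) : ℝ) ^ c₂)))) := by
  obtain ⟨κ, hκ, hP⟩ := tjF h hK hδ hε
  refine ⟨κ, hκ, fun κ' h1 h2 => ?_⟩
  obtain ⟨c₂, hc₂, hP⟩ := hP κ' h1 h2
  refine ⟨c₂, hc₂, fun ι hι => ?_⟩
  filter_upwards [hP ι hι] with m hm
  intro β γ p p' q i K₀ hK₀ hp hpp hp6 hrow
  have hX : ∀ y ∈ (frm33 μ s K ι β γ).ys m, Nonempty (Px (Pn ((frm33 μ s K ι β γ).L m) y)) := fun y hy => ne_Pn (hy33 (by omega) m y hy)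
  have hl : 0 < 2 ^ (p' - 6) := Nat.two_pow_pos _
  have hE : 0 < EE μ s (2 ^ p) := EE_pos _
  refine prB_row hX hl (by positivity) (by positivity) fun k j hj H hH => ?_
  obtain ⟨hj1, hj2⟩ := mem_filter.1 hj
  obtain ⟨r1, r2⟩ := hrow j hj1
  have h8 := hm p p' j hp hpp r1 r2 H K₀ hK₀ (fun y _ ω S => hH.abs_le y ω S) (fun y _ S => hH.mes y S)
    (fun y _ => Pool.W7d29a1.C0.Ps33.offD_mono (fun a ha => by rw [mem_Ioo] at ha ⊢; omega) (hH.offJ hl hj2 y))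
  have e1 : avF μ s (frm33 μ s K ι β γ) m (fun y ω S =>
      (i1 (Tau (wm μ s (L33 K m) (Pn (L33 K m) y) ω) (pJ (j - 2 ^ p') (j + 2 ^ p')) (j + (frm33 μ s K ι β γ).b0 m p) (j + 2 ^ p)
            (((2 ^ m : ℕ) : ℝ) ^ κ') S) +
          i1 (Tau (wm μ s (L33 K m) (Pn (L33 K m) y) ω) (pJ (j - 2 ^ p') (j + 2 ^ p')) (j - 2 ^ p) (j - (frm33 μ s K ι β γ).b0 m p)
            (((2 ^ m : ℕ) : ℝ) ^ κ') S)) * H y ω S) =
      avy (ys33 μ s K m) (fun y => ∫ ω, gm (wm μ s (L33 K m) (Pn (L33 K m) y) ω) (fun S => |H y ω S| *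
        tj μ s (L33 K m) (Pn (L33 K m) y) (2 ^ (p - ⌈ι * (m : ℝ)⌉₊)) (2 ^ p) (2 ^ p') (((2 ^ m : ℕ) : ℝ) ^ κ') ω j S) ∂(Pm μ (L33 K m))) := by
    refine congrArg (avF μ s (frm33 μ s K ι β γ) m) (funext fun y => funext fun ω => funext fun S => ?_)
    rw [abs_of_nonneg (hH.nn y ω S), mul_comm, add_comm]
    rfl
  have e2 : avF μ s (frm33 μ s K ι β γ) m H =
      avy (ys33 μ s K m) (fun y => ∫ ω, gm (wm μ s (L33 K m) (Pn (L33 K m) y) ω) (fun S => |H y ω S|) ∂(Pm μ (L33 K m))) := by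
    refine congrArg (avF μ s (frm33 μ s K ι β γ) m) (funext fun y => funext fun ω => funext fun S => ?_)
    exact (abs_of_nonneg (hH.nn y ω S)).symm
  rw [e1, e2]
  exact h8

end

end Pool.Agent.W_7d29a1_C0.OwnB3
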