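import Pool.Agent.W_7d29a1_C0.N1E19
import Pool.Agent.W_7d29a1_C0.OwnB3
import Pool.Agent.W_7d29a1_C0.N1G14

/-!
MP_7d29a1_pr, [CURV0], leaf E5.8 / N1B (helper19, for helper14): THE OWN LINE OF `N1B` WITH THE GAIN, in the form `Pr46`, at the concrete frame.
`owL19`: `G ^ 2 B ^ 2 OF14` has the price `Pr46` with the slack `3 c / 16` and any error exponent, `G = Gf14 μ s λ ζ ι β m p p'`, for
`2 λ + ζ ≤ c / 4`.
-/

set_option autoImplicit false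
set_option linter.unusedSectionVars false
set_option linter.dupNamespace false

namespace Pool.Agent.W_7d29a1_C0.N1E19

open Finset MeasureTheory Filter Topology
open Pool.Agent.W_7d29a1_F Pool.Agent.W_7d29a1_X
open Pool.Agent.W_7d29a1_H (EE EE_pos one_le_EE)
open Pool.Agent.W_7d29a1_HS (In wd)
open Pool.Agent.W_7d29a1_HZ (wd')
open Pool.Agent.W_7d29a1_C0 Pool.Agent.W_7d29a1_C0.Mod92 Pool.Agent.W_7d29a1_C0.Asm96 Pool.Agent.W_7d29a1_C0.N38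
open Pool.Agent.W_7d29a1_C0.Frm33 Pool.Agent.W_7d29a1_C0.Base5
open Pool.Agent.W_7d29a1_C0.Par92 (Est Sml)
open Pool.Agent.W_7d29a1_C0.PrB5 (PsH PrB rws)
open Pool.Agent.W_7d29a1_C0.PrT14 (PrT)
open Pool.Agent.W_7d29a1_C0.Pr46
open Pool.Agent.W_7d29a1_C0.OwnB3 (own_prB3)
open Pool.W7d29a1.C0.H41 (geo41 gainF41 rows41 absorb41)
open Pool.W7d29a1.C0.N14 (ow14 Gn14 Gf14 OF14)
open Pool.W7d29a1.C0.L38 (kn38)

noncomputable section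

variable {μ : Measure ℝ} {s : ℝ} [IsProbabilityMeasure μ]

/-- An exponentially small number times a power. -/
theorem ev_small19 (k A : ℝ) {c₂ : ℝ} (hc₂ : 0 < c₂) : ∀ᶠ m : ℕ in atTop,
    ((2 ^ m : ℕ) : ℝ) ^ k * Real.exp (-((2 ^ m : ℕ) : ℝ) ^ c₂) ≤ ((2 ^ m : ℕ) : ℝ) ^ (-A) := by
  filter_upwards [absorb41 1 (k + A) one_pos hc₂] with m hm
  have hn0 : (0 : ℝ) < ((2 ^ m : ℕ) : ℝ) := by positivity
  rw [one_mul, one_mul] at hm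
  have h1 : Real.exp (-((2 ^ m : ℕ) : ℝ) ^ (c₂ / 2)) ≤ 1 := by
    rw [Real.exp_le_one_iff]
    have := Real.rpow_nonneg hn0.le (c₂ / 2)
    linarith
  have h2 := mul_le_mul_of_nonneg_left (hm.trans h1) (Real.rpow_nonneg hn0.le (-A))
  have e1 : ((2 ^ m : ℕ) : ℝ) ^ (-A) * ((2 ^ m : ℕ) : ℝ) ^ (k + A) = ((2 ^ m : ℕ) : ℝ) ^ k := by
    rw [← Real.rpow_add hn0]
    congr 1
    ring
  rw [← mul_assoc, e1, mul_one] at h2
  exact h2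

/-- **THE OWN LINE WITH THE GAIN.** -/
theorem owL19 {c₁ C : ℝ} {n₀ : ℕ} (h : In μ s c₁ C n₀) (hk : KapLe96 (EE μ s) (1 / 4)) {K : ℕ} (hK : 32 ≤ K) {c₀ Θ δ c η la ζ : ℝ}
    (hR : RegP46 μ s c₀ Θ) (hδ : 0 < δ) (hc : 0 < c) (hcδ : c ≤ δ / 64) (hη : 0 ≤ η) (hs : 2 * la + ζ ≤ c / 4) :
    ∃ κ : ℝ, 0 < κ ∧ ∀ κ' : ℝ, 0 < κ' → κ' ≤ κ → ∀ A : ℝ, Est fun ι β γ m => ∀ p p' q i : ℕ, Chg96 (EE μ s) Θ δ c η m p p' q →
      i < 2 ^ (m - q) → Pr46 μ s (frm33 μ s K ι β γ) (EE μ s) Θ c m p p' q i (3 * c / 16) A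
        (Lf19 μ s (frm33 μ s K ι β γ) m fun t y ω j S =>
          Gf14 μ s la ζ ι β m p p' ^ 2 * (frm33 μ s K ι β γ).B m ^ 2 * OF14 μ s (frm33 μ s K ι β γ) m p p' (((2 ^ m : ℕ) : ℝ) ^ κ') t y ω j S) := by
  obtain ⟨κ, hκ, hP⟩ := own_prB3 h hK hδ (show 0 < c / 8 by positivity)
  refine ⟨κ, hκ, fun κ' hκ' hκκ A => ?_⟩
  obtain ⟨c₂, hc₂, hP⟩ := hP κ' hκ' hκκ
  have hι : Est fun ι _ _ _ => ι ≤ δ / 16 := Est.iota (Sml.le (by positivity))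
  have hβ : Est fun _ β _ _ => β ≤ min (c / 32) 1 := Est.beta (Sml.of fun _ _ => Sml.le (by positivity))
  refine (hι.and hβ).mono fun ι β γ hι0 hβ0 _ => ?_
  by_cases hιδ : ι ≤ δ / 16
  swap
  · exact Eventually.of_forall fun m h1 => absurd h1.1 hιδ
  by_cases hβc : β ≤ min (c / 32) 1
  swap
  · exact Eventually.of_forall fun m h1 => absurd h1.2 hβc
  have hβ1 : β ≤ c / 32 := hβc.trans (min_le_left _ _)
  have hβ2 : β ≤ 1 := hβc.trans (min_le_right _ _)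
  filter_upwards [hP ι hι0, geo41 (ι := ι) hδ hι0 (by linarith), rows41 (Θ := Θ) (η := η) h hk (by omega : 1 ≤ K) hδ hc.le hcδ hη hιδ,
    gainF41 (la := la) (ζ := ζ) hR hδ hc hcδ hη hβ0.le (show 0 ≤ c / 8 by positivity) (by linarith), ev_small19 3 A hc₂,
    (tendsto_natCast_atTop_atTop (R := ℝ)).eventually_ge_atTop (6 / δ)] with m h1 h2 h3 h4 h5 h6
  rintro - p p' q i hC hi
  obtain ⟨n, hn⟩ : ∃ n : ℝ, n = ((2 ^ m : ℕ) : ℝ) := ⟨_, rfl⟩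
  have hn1 : 1 ≤ n := hn ▸ n_ge1 m
  have hn0 : 0 < n := by linarith
  obtain ⟨hsq', hqm⟩ := chg_le33 hC hc.le hη
  have hp'm : p' ≤ m := hC.hps'.trans (hsq'.trans hqm)
  have hp6 : 6 ≤ p' := by
    rw [div_le_iff₀ hδ] at h6
    have e1 : (6 : ℝ) ≤ p' := by
      have e2 : (p : ℝ) ≤ p' := by exact_mod_cast hC.hpp
      have := hC.hp
      linarith
    exact_mod_cast e1
  obtain ⟨g1, g2, g3, g4, g5, g6⟩ := h2 p hC.hp
  obtain ⟨k1, k2⟩ := h4 p p' q hC _ g4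
  have hrow : ∀ j ∈ Rw ((frm33 μ s K ι β γ).R m) (i * 2 ^ q) ((i + 1) * 2 ^ q), 2 ^ p' ≤ j ∧ j + 2 ^ p' ≤ L33 K m := fun j hj => by
    have e1 := h3 p p' q i hC hi j hj
    omega
  have hown := h1 β γ p p' q i 1 one_pos hC.hp hC.hpp hp6 hrow
  have hyF : ∀ y ∈ (frm33 μ s K ι β γ).ys m, y ≤ (frm33 μ s K ι β γ).L m := fun y hy => hy33 (by omega) m y hy
  have hX : ∀ y ∈ (frm33 μ s K ι β γ).ys m, Nonempty (Px (Pn ((frm33 μ s K ι β γ).L m) y)) := fun y hy => ne_Pn (hyF y hy)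
  obtain ⟨G, hG⟩ : ∃ G, G = Gf14 μ s la ζ ι β m p p' := ⟨_, rfl⟩
  have hG1 : G ≤ 1 := by
    rw [hG]
    exact k1
  have hG0 : 0 ≤ G := by
    rw [hG]
    exact mul_nonneg (Real.rpow_nonneg (Nat.cast_nonneg _) _) (Real.sqrt_nonneg _)
  have hg : G ^ 2 * B33 β m ^ 2 * (((2 ^ m : ℕ) : ℝ) ^ (c / 8) / EE μ s (2 ^ p)) ≤ ((2 ^ m : ℕ) : ℝ) ^ (-(c / 4)) / EE μ s (2 ^ q) := by
    rw [hG]
    exact k2
  rw [← hG]
  have hB : B33 β m = n ^ β := by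
    rw [hn]
    rfl
  have hB0 : 0 ≤ B33 β m := by
    rw [hB]
    exact Real.rpow_nonneg hn0.le _
  have hBn : B33 β m ^ 2 ≤ n ^ (2 : ℝ) := by
    rw [hB, Real.rpow_two]
    refine pow_le_pow_left₀ (Real.rpow_nonneg hn0.le _) ?_ 2
    calc n ^ β ≤ n ^ (1 : ℝ) := Real.rpow_le_rpow_of_exponent_le hn1 hβ2
      _ = n := Real.rpow_one n
  have hC0 : 0 ≤ G ^ 2 * B33 β m ^ 2 := by positivity
  have hCn : G ^ 2 * B33 β m ^ 2 ≤ n ^ (2 : ℝ) := by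
    have e1 : G ^ 2 ≤ 1 := pow_le_one₀ hG0 hG1
    calc G ^ 2 * B33 β m ^ 2 ≤ 1 * n ^ (2 : ℝ) := mul_le_mul e1 hBn (sq_nonneg _) zero_le_one
      _ = _ := one_mul _
  have hT := PrT14.PrT.smul hX (PrT14.PrB.toT hown) hC0
  have hEq : 0 < EE μ s (2 ^ q) := EE_pos _
  have hEp : 0 < EE μ s (2 ^ p) := EE_pos _
  have hl : (((2 ^ (p' - 6) : ℕ) : ℝ)) ≤ n := by
    rw [hn]
    exact_mod_cast Nat.pow_le_pow_right two_pos (by omega)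
  have hl0 : (0 : ℝ) ≤ ((2 ^ (p' - 6) : ℕ) : ℝ) := Nat.cast_nonneg _
  have hN : Nm46 (EE μ s) Θ c m p q (3 * c / 16) A (G ^ 2 * B33 β m ^ 2 * (((2 ^ m : ℕ) : ℝ) ^ (c / 8) / EE μ s (2 ^ p)))
      ((G ^ 2 * B33 β m ^ 2) ^ 2 * 0) ((G ^ 2 * B33 β m ^ 2) ^ 2 * 0)
      (G ^ 2 * B33 β m ^ 2 * (((2 ^ (p' - 6) : ℕ) : ℝ) * (1 * Real.exp (-(((2 ^ m : ℕ) : ℝ) ^ c₂))))) := by
    rw [← hn] at hg h5 ⊢
    refine ⟨by positivity, hg.trans (le_of_eq ?_), by positivity, ?_, by positivity, ?_, by positivity, ?_⟩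
    · congr 1
      congr 1
      ring
    · rw [mul_zero]
      rw [← hn]
      positivity
    · rw [mul_zero]
      rw [← hn]
      positivity
    · rw [← hn, one_mul]
      calc G ^ 2 * B33 β m ^ 2 * (((2 ^ (p' - 6) : ℕ) : ℝ) * Real.exp (-(n ^ c₂))) ≤ n ^ (2 : ℝ) * (n ^ (1 : ℝ) * Real.exp (-(n ^ c₂))) := by
            rw [Real.rpow_one]
            exact mul_le_mul hCn (mul_le_mul_of_nonneg_right hl (Real.exp_pos _).le) (mul_nonneg hl0 (Real.exp_pos _).le)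
              (Real.rpow_nonneg hn0.le _)
        _ = n ^ (3 : ℝ) * Real.exp (-(n ^ c₂)) := by
            rw [← mul_assoc, ← Real.rpow_add hn0]
            norm_num
        _ ≤ n ^ (-A) := h5
  exact pr46_ofT hyF hN hT

end

end Pool.Agent.W_7d29a1_C0.N1E19
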