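import Pool.Agent.W_7d29a1_C0.N1R14
import Pool.Agent.W_7d29a1_C0.OwL19

/-!
MP_7d29a1_pr, [CURV0], leaf E5.8 / N1B (helper14): THE ROWS OF `N1B` FROM THE PRICES OF THE LINES `2, …, 8` of both sides (`n1Q14`): the own
line (`owL19`) and the lines `0`, `1` (`pl01_14`) are plugged in.
-/

set_option autoImplicit false
set_option linter.unusedSectionVars false
set_option linter.unusedVariables false

namespace Pool.W7d29a1.C0.N14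

open Finset Filter Topology MeasureTheory
open Pool.Agent.W_7d29a1_F Pool.Agent.W_7d29a1_C0 Pool.W7d29a1.C0 Pool.W7d29a1.C0.VT31
open Pool.Agent.W_7d29a1_H (EE EE_pos one_le_EE sl)
open Pool.Agent.W_7d29a1_HS (In wd)
open Pool.Agent.W_7d29a1_C0.Mod92 Pool.Agent.W_7d29a1_C0.H32 Pool.Agent.W_7d29a1_C0.Asm96
open Pool.Agent.W_7d29a1_C0.Frm33 Pool.Agent.W_7d29a1_C0.N38
open Pool.Agent.W_7d29a1_C0.Par92 (Est Sml)
open Pool.Agent.W_7d29a1_C0.Pr46 Pool.Agent.W_7d29a1_C0.N1E19 Pool.Agent.W_7d29a1_C0.NTop23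

noncomputable section

variable {μ : Measure ℝ} [IsProbabilityMeasure μ] {s : ℝ} {f f' : ℝ → ℝ}

/-- The own line (helper19's `owL19`). -/
theorem pow14 {c₁ C : ℝ} {n₀ : ℕ} (h : In μ s c₁ C n₀) (hk : KapLe96 (EE μ s) (1 / 4)) {K : ℕ} (hK : 32 ≤ K)
    {c₀ Θ δ c η : ℝ} (hR : RegP46 μ s c₀ Θ) (hδ : 0 < δ) (hc : 0 < c) (hcδ : c ≤ δ / 64) (hη : 0 ≤ η) :
    POw14 μ s K Θ δ c η (c / 24) (c / 24) := by
  obtain ⟨κ, hκ, H⟩ := owL19 h hk hK hR hδ hc hcδ hη (la := c / 24) (ζ := c / 24) (by linarith)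
  exact ⟨κ, hκ, fun κ' h1 h2 => ⟨3 * c / 16, by positivity, H κ' h1 h2 (7 / 2)⟩⟩

/-- **THE ROWS OF `N1B` FROM THE LINES `2, …, 8`.** -/
theorem n1Q14 {c₁ C : ℝ} {n₀ : ℕ} (hd : DenLaw μ f f') (h : In μ s c₁ C n₀) (hk : KapLe96 (EE μ s) (1 / 4)) {K : ℕ} (hK : 32 ≤ K)
    {c₀ Θ δ c η : ℝ} (hR : RegP46 μ s c₀ Θ) (hδ : 0 < δ) (hc : 0 < c) (hc1 : c ≤ 1) (hcδ : c ≤ δ / 64) (hη : 0 ≤ η)
    (HR : ∀ i : Fin 9, 2 ≤ i → PLs14 μ s K Θ δ c η fun F m p p' M => RF14 μ s F m p p' M i)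
    (HL : ∀ i : Fin 9, 2 ≤ i → PLs14 μ s K Θ δ c η fun F m p p' M => LF14 μ s F m p p' M i) :
    Est fun ι β γ m => RowN23 μ s (frm33 μ s K ι β γ) (EE μ s) Θ δ c η 0 m := by
  have h01 : ∀ i : Fin 9, ¬ 2 ≤ i → i = 0 ∨ i = 1 := by decide
  refine n1R14s hd h hk hK hR hδ hc hcδ hη (fun i => ?_) (fun i => ?_) (pow14 h hk hK hR hδ hc hcδ hη)
  · by_cases hi : 2 ≤ i
    · exact HR i hi
    · exact (pl01_14 h hk hK hR hδ hc hc1 hcδ hη i (h01 i hi)).1.strict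
  · by_cases hi : 2 ≤ i
    · exact HL i hi
    · exact (pl01_14 h hk hK hR hδ hc hc1 hcδ hη i (h01 i hi)).2.strict

end

end Pool.W7d29a1.C0.N14
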