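import Pool.Agent.W_7d29a1_C0.Ln2X14
import Pool.Agent.W_7d29a1_C0.N1Q14

/-!
MP_7d29a1_pr, [CURV0], leaf E5.8 / N1B (helper14): **`N1B` IS CLOSED**: the rows of the kicks at the concrete frame, without hypothesis
(`n1Z14`; `r0_Z14` = the field `r0` of `Opn33`).
-/

set_option autoImplicit false

namespace Pool.W7d29a1.C0.N14

open Finset Filter Topology MeasureTheory
open Pool.Agent.W_7d29a1_H (EE)
open Pool.Agent.W_7d29a1_HS (In)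
open Pool.Agent.W_7d29a1_C0.H32 Pool.Agent.W_7d29a1_C0.Asm96 Pool.Agent.W_7d29a1_C0.Frm33
open Pool.Agent.W_7d29a1_C0.Par92 (Est Sml)
open Pool.Agent.W_7d29a1_C0.NTop23
open Pool.Agent.W_7d29a1_C0

/-- **`N1B`.** -/
theorem n1Z14 {μ : Measure ℝ} [IsProbabilityMeasure μ] {s : ℝ} {f f' : ℝ → ℝ} (hd : DenLaw μ f f') {c₁ C : ℝ} {n₀ : ℕ} (h : In μ s c₁ C n₀)
    (hk : KapLe96 (EE μ s) (1 / 4)) {K : ℕ} (hK : 32 ≤ K) {c₀ Θ δ c η : ℝ} (hR : RegP46 μ s c₀ Θ) (hδ : 0 < δ) (hc : 0 < c) (hc1 : c ≤ 1)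
    (hcδ : c ≤ δ / 64) (hη : 0 ≤ η) : Est fun ι β γ m => RowN23 μ s (frm33 μ s K ι β γ) (EE μ s) Θ δ c η 0 m := by
  have hi : ∀ i : Fin 9, 2 ≤ i → i = 2 ∨ (i = 3 ∨ i = 4) ∨ 5 ≤ i := by decide
  refine n1Q14 hd h hk hK hR hδ hc hc1 hcδ hη (fun i h2 => ?_) (fun i h2 => ?_)
  · rcases hi i h2 with rfl | h34 | h5
    · exact pls2R14 h hk hK hR hδ hc hc1 hcδ hη
    · exact pls34R14 h hk hK hR hδ hc hc1 hcδ hη i h34
    · exact pls58R14 h hk hK hR hδ hc hc1 hcδ hη i h5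
  · rcases hi i h2 with rfl | h34 | h5
    · exact pls2L14 h hk hK hR hδ hc hc1 hcδ hη
    · exact pls34L14 h hk hK hR hδ hc hc1 hcδ hη i h34
    · exact pls58L14 h hk hK hR hδ hc hc1 hcδ hη i h5

/-- **THE FIELD `r0` OF `Opn33`, CLOSED.** -/
theorem r0_Z14 {μ : Measure ℝ} [IsProbabilityMeasure μ] {s : ℝ} {f f' : ℝ → ℝ} (hd : DenLaw μ f f') {c₁ C : ℝ} {n₀ : ℕ} (h : In μ s c₁ C n₀)
    (hk : KapLe96 (EE μ s) (1 / 4)) {K : ℕ} (hK : 32 ≤ K) {c₀ Θ : ℝ} (hR : RegP46 μ s c₀ Θ) :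
    Sml fun δ => Sml fun c => ∀ η : ℝ, 0 < η → η ≤ c / 64 → Est fun ι β γ m =>
      RowN23 μ s (frm33 μ s K ι β γ) (EE μ s) Θ δ c η 0 m :=
  Sml.of fun δ hδ => (Sml.le (show 0 < min 1 (δ / 64) by positivity)).mono fun c hc hc2 η hη _ =>
    n1Z14 hd h hk hK hR hδ hc (hc2.trans (min_le_left _ _)) (hc2.trans (min_le_right _ _)) hη.le

end Pool.W7d29a1.C0.N14
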