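import Pool.Agent.W_7d29a1_C0.N2T5
import Pool.Agent.W_7d29a1_C0.DT5TZ

/-!
MP_7d29a1_pr, [CURV0], leaf E5.4 (helper5): **`N2B` IS CLOSED**: the rows of the double ties `N25e` at the concrete frame, without hypothesis
(`r1_Z5` = the field `r1` of `Opn33`).
-/

set_option autoImplicit false

namespace Pool.Agent.W_7d29a1_C0.DT5

open Finset MeasureTheory Filter Topology
open Pool.Agent.W_7d29a1_F Pool.Agent.W_7d29a1_X
open Pool.Agent.W_7d29a1_H (EE)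
open Pool.Agent.W_7d29a1_HS (In)
open Pool.Agent.W_7d29a1_C0 Pool.Agent.W_7d29a1_C0.Asm96 Pool.Agent.W_7d29a1_C0.Frm33 Pool.Agent.W_7d29a1_C0.NTop23
open Pool.Agent.W_7d29a1_C0.Par92 (Est Sml)

/-- **THE FIELD `r1`, CLOSED.** -/
theorem r1_Z5 {μ : Measure ℝ} {s : ℝ} [IsProbabilityMeasure μ] {K : ℕ} {Θ : ℝ} {c₁ C : ℝ} {n₀ : ℕ} (h : In μ s c₁ C n₀)
    (hk : KapLe96 (EE μ s) (1 / 4)) (hK : 32 ≤ K) {c₀ : ℝ} (hR : RegP46 μ s c₀ Θ) :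
    Sml fun δ => Sml fun c => ∀ η : ℝ, 0 < η → η ≤ c / 64 → Est fun ι β γ m =>
      RowN23 μ s (frm33 μ s K ι β γ) (EE μ s) Θ δ c η 1 m :=
  r1_5 (fun sd fm => DT5T.t4M h sd fm) h hk hK hR

end Pool.Agent.W_7d29a1_C0.DT5
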