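import Pool.Agent.W_7d29a1_C0.NTop23
import Pool.Agent.W_7d29a1_C0.SzF23

/-!
MP_7d29a1_pr, [CURV0], leaf E5 (helper23): `N1B`, `N2B`, `MB` AT THE CONCRETE FRAME from the row estimate `RowN23` of the family
(`nB23`, `n1B23`, `n2B23`, `mB23`).
-/

set_option autoImplicit false
set_option linter.unusedSectionVars false

namespace Pool.Agent.W_7d29a1_C0.NTop23

open Finset MeasureTheory Filter Topology
open Pool.Agent.W_7d29a1_F Pool.Agent.W_7d29a1_X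
open Pool.Agent.W_7d29a1_H (EE EE_pos one_le_EE)
open Pool.Agent.W_7d29a1_HS (In wd)
open Pool.Agent.W_7d29a1_C0 Pool.Agent.W_7d29a1_C0.Mod92 Pool.Agent.W_7d29a1_C0.Asm96 Pool.Agent.W_7d29a1_C0.N38
open Pool.Agent.W_7d29a1_C0.Frm33 Pool.Agent.W_7d29a1_C0.Sz23 Pool.Agent.W_7d29a1_C0.Base5
open Pool.Agent.W_7d29a1_C0.Par92 (Est Sml)

noncomputable section

variable (μ : Measure ℝ) (s : ℝ) (F : Frm96) (E : ℕ → ℝ) (Θ δ c η : ℝ)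

/-- The literal targets: `k = 0`: `N1B`, `k = 1`: `N2B`, `k = 2`: `MB`. -/
def NB (k : Fin 3) (m : ℕ) : Prop := ∀ p p' q i : ℕ, Chg96 E Θ δ c η m p p' q → i < 2 ^ (m - q) →
  S33 μ s F m q i (fun y ω j => I5 μ s F k m p p' y ω j) ≤ A33 E Θ c m q

/-- **WHAT THE ROWS DELIVER** for one of the three families. -/
def RowN23 (k : Fin 3) (m : ℕ) : Prop := ∀ p p' q i : ℕ, Chg96 E Θ δ c η m p p' q → i < 2 ^ (m - q) →
  ∃ (l h : ℕ) (g A₂ T e : ℝ), 0 < l ∧ l ≤ 2 ^ p' ∧ h ≤ 4 * 2 ^ p' ∧ 0 ≤ g ∧ g ≤ ((2 ^ m : ℕ) : ℝ) ^ (-(c / 16)) / E (2 ^ q) ∧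
    0 ≤ A₂ ∧ A₂ ≤ ((2 ^ m : ℕ) : ℝ) ^ (c / 32) / E (2 ^ p) ∧ 0 ≤ T ∧ T ≤ 2 ^ q * (E (2 ^ q) * ((2 ^ m : ℕ) : ℝ) ^ (Θ - c / 16)) ∧
    0 ≤ e ∧ e ≤ ((2 ^ m : ℕ) : ℝ) ^ (-1 : ℝ) ∧ RowB μ s F m q i l h g A₂ T e (fun y ω j => I5 μ s F k m p p' y ω j)

variable {μ s F E Θ δ c η}

theorem n1B_iff {m : ℕ} : NB μ s F E Θ δ c η 0 m ↔ N1B μ s F E Θ δ c η m := Iff.rfl

theorem n2B_iff {m : ℕ} : NB μ s F E Θ δ c η 1 m ↔ N2B μ s F E Θ δ c η m := Iff.rfl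

theorem mB_iff {m : ℕ} : NB μ s F E Θ δ c η 2 m ↔ MB μ s F E Θ δ c η m := Iff.rfl

/-- **`N1B`, `N2B`, `MB` AT THE CONCRETE FRAME** from the row estimate. -/
theorem nB23 [IsProbabilityMeasure μ] {c₁ C : ℝ} {n₀ : ℕ} (h : In μ s c₁ C n₀) (hk : KapLe96 (EE μ s) (1 / 4)) {K : ℕ} (hK : 32 ≤ K)
    {c₀ : ℝ} (hR : RegP46 μ s c₀ Θ) (hΘ : 0 < Θ) (hc1 : c ≤ 1) (hδ : 0 < δ) (hc : 0 < c) (hcδ : c ≤ δ / 64) (hη : 0 ≤ η)
    (k : Fin 3) (H : Est fun ι β γ m => RowN23 μ s (frm33 μ s K ι β γ) (EE μ s) Θ δ c η k m) :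
    Est fun ι β γ m => NB μ s (frm33 μ s K ι β γ) (EE μ s) Θ δ c η k m := by
  obtain ⟨a, -, -, hr⟩ := hR.est hδ (k := 1) one_pos
  have hι : Est fun ι _ _ _ => 1 * ι ≤ c / 64 := Est.iota ((Sml.le (show 0 < c / 64 by positivity)).mono fun x _ hx => by rwa [one_mul])
  refine (((hr.and hι).and H).and ((ok33 (μ := μ) (s := s) (by omega : 6 ≤ K) hΘ).and
    ((deepB33 (K := K) h hk hδ hc.le hcδ).and (szF h hK hδ (show 0 < c / 32 by positivity))))).mono fun ι β γ hι hβ _ => ?_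
  filter_upwards [ev_n hc 9] with m h9 hh
  obtain ⟨⟨⟨⟨R, -⟩, hι1⟩, hrow⟩, hF, hD, hsz⟩ := hh
  intro p p' q i hC hi
  obtain ⟨l, hh, g, A₂, T, e, hl, hl', hh', hg0, hg, hA0, hA, hT0, hT, he0, he, hrow⟩ := hrow p p' q i hC hi
  obtain ⟨hsq', hqm⟩ := chg_le33 hC hc.le hη
  have hp' : δ * m ≤ p' := hC.hp.trans (by exact_mod_cast hC.hpp)
  have hDp : Deep ((frm33 μ s K ι β γ).R m) (2 ^ p') (2 ^ sg96 (EE μ s) c m p') := hD p' hp' (hsq'.trans hqm)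
  have hpm : p ≤ m := hC.hps.trans (hC.hsq.trans hqm)
  have hB0 : 0 ≤ B33 β m := Real.rpow_nonneg (Nat.cast_nonneg _) _
  have hrows : ∀ j ∈ Rw ((frm33 μ s K ι β γ).R m) (i * 2 ^ q) ((i + 1) * 2 ^ q), 2 ^ p' ≤ j ∧ j + 2 ^ p' ≤ L33 K m := fun j hj => by
    have h6 := hDp.in_block (by positivity) (dvd96 hsq' i) (dvd96 hsq' (i + 1)) hj
    have h7 : (i + 1) * 2 ^ q ≤ 2 ^ m := by
      calc (i + 1) * 2 ^ q ≤ 2 ^ (m - q) * 2 ^ q := Nat.mul_le_mul_right _ hi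
        _ = 2 ^ m := by
            rw [← pow_add]
            congr 1
            omega
    have h8 : 2 ^ m ≤ L33 K m := hF.hL
    omega
  refine s33_le23 R hι1 hc hc1 (by linarith) hη h9 hF hC (I := fun y ω j => I5 μ s (frm33 μ s K ι β γ) k m p p' y ω j)
    (fun j _ => ?_) (fun j hj => ?_) hl hl' hh' hg0 hg hA0 hA hT0 hT he0 he hrow
  · refine ⟨⟨K5 (B33 β m), fun y hy ω S => ?_⟩, fun y hy S => ?_⟩
    · have := ne_Pn (hF.hy y hy)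
      exact abs_I5 (frm33 μ s K ι β γ) k hB0 hC.hpp y j ω S
    · have := ne_Pn (hF.hy y hy)
      exact meas_I5 (frm33 μ s K ι β γ) k hC.hpp y j S
  · obtain ⟨r1, r2⟩ := hrows j hj
    exact hsz k p p' j hC.hp hpm hC.hpp r1 r2

section Targets

variable [IsProbabilityMeasure μ] {c₁ C : ℝ} {n₀ : ℕ} (h : In μ s c₁ C n₀) (hk : KapLe96 (EE μ s) (1 / 4)) {K : ℕ} (hK : 32 ≤ K)
  {c₀ : ℝ} (hR : RegP46 μ s c₀ Θ) (hΘ : 0 < Θ) (hc1 : c ≤ 1) (hδ : 0 < δ) (hc : 0 < c) (hcδ : c ≤ δ / 64) (hη : 0 ≤ η)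

include h hk hK hR hΘ hc1 hδ hc hcδ hη

/-- **The third order part** from its rows. -/
theorem n1B23 (H : Est fun ι β γ m => RowN23 μ s (frm33 μ s K ι β γ) (EE μ s) Θ δ c η 0 m) :
    Est fun ι β γ m => N1B μ s (frm33 μ s K ι β γ) (EE μ s) Θ δ c η m := nB23 h hk hK hR hΘ hc1 hδ hc hcδ hη 0 H

/-- **The double ties** from their rows. -/
theorem n2B23 (H : Est fun ι β γ m => RowN23 μ s (frm33 μ s K ι β γ) (EE μ s) Θ δ c η 1 m) :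
    Est fun ι β γ m => N2B μ s (frm33 μ s K ι β γ) (EE μ s) Θ δ c η m := nB23 h hk hK hR hΘ hc1 hδ hc hcδ hη 1 H

/-- **The odd part** from its rows. -/
theorem mB23 (H : Est fun ι β γ m => RowN23 μ s (frm33 μ s K ι β γ) (EE μ s) Θ δ c η 2 m) :
    Est fun ι β γ m => MB μ s (frm33 μ s K ι β γ) (EE μ s) Θ δ c η m := nB23 h hk hK hR hΘ hc1 hδ hc hcδ hη 2 H

end Targets

end

end Pool.Agent.W_7d29a1_C0.NTop23
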