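import Pool.Agent.W_7d29a1_C0.Rq61D
import Pool.Agent.W_7d29a1_C0.FlipC4C

/-!
MP_7d29a1_pr, [CURV0] / [C0], leaf E2a, THE REMAINDER (RQ), LAW SIDE (helper61), part 5: **`rqs61_33`**: `rq_row61` at the concrete frame, with
the numbers: the factor `n ^ ν` and the error `n ^ (-5 / 2)`, `n = 2 ^ m`.
-/

set_option autoImplicit false
set_option linter.unusedSectionVars false
set_option linter.unusedVariables false

namespace Pool.Agent.W_7d29a1_C0.Rq61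

open Finset MeasureTheory Filter Topology Pool.Agent.W_7d29a1_F Pool.Agent.W_7d29a1_X Pool.Agent.W_7d29a1_C0.Mod92
open Pool.Agent.W_7d29a1_HS (In)
open Pool.Agent.W_7d29a1_C0 Pool.Agent.W_7d29a1_C0.Blk18 Pool.Agent.W_7d29a1_C0.NM82
open Pool.Agent.W_7d29a1_C0.Frm33
open Pool.W7d29a1.C0 (rep)
open Pool.W7d29a1.C0.H27 (QI)
open Pool.W7d29a1.C0.C45
open Pool.Agent.W_7d29a1_C0.E2aM82 (rX)
open Pool.Agent.W_7d29a1_C0.Flip61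
open Pool.Agent.W_7d29a1_C0.FlipR4.C4 (fl4_33 ev_exp4 ev_num4)

noncomputable section

/-- The numbers of the error. -/
theorem numE61 {x n B D p1 p2 p3 p4 p5 Mn : ℝ} (hx : 8 ≤ x) (hn : n = x ^ 4) (hB : B ^ 2 ≤ x) (hD0 : 0 ≤ D) (hD : D ≤ n ^ 3)
    (h1 : p1 ≤ (n ^ 8)⁻¹) (h2 : p2 ≤ (n ^ 8)⁻¹) (h3 : D * p3 ≤ (n ^ 8)⁻¹) (h4 : p4 ≤ (n ^ 8)⁻¹) (h5 : p5 ≤ (n ^ 8)⁻¹)
    (hM : Mn = n ^ 6) : (B ^ 2 * (p1 + p2) + D * p3) + (2 * (B ^ 2 * D) / Mn + 96 * (B ^ 2 * D) * p4 + 4 * (B ^ 2 * D) * p5) ≤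
      (x ^ 10)⁻¹ := by
  have x0 : 0 < x := by linarith
  obtain ⟨y, hy⟩ : ∃ y : ℝ, y = x⁻¹ := ⟨_, rfl⟩
  have y0 : 0 < y := by rw [hy]; positivity
  have xy : x * y = 1 := by rw [hy]; exact mul_inv_cancel₀ x0.ne'
  have yle : y ≤ 1 / 8 := by
    have h : 8 * y ≤ x * y := mul_le_mul_of_nonneg_right hx y0.le
    linarith
  have e8 : (n ^ 8)⁻¹ = y ^ 32 := by rw [hn, hy, inv_pow, ← pow_mul]
  have e10 : (x ^ 10)⁻¹ = y ^ 10 := by rw [hy, inv_pow]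
  have e3 : n ^ 3 = x ^ 12 := by rw [hn, ← pow_mul]
  have e6 : n ^ 6 = x ^ 24 := by rw [hn, ← pow_mul]
  rw [e8] at h1 h2 h3 h4 h5
  rw [e3] at hD
  rw [e6] at hM
  have hBD : B ^ 2 * D ≤ x ^ 13 := by
    calc B ^ 2 * D ≤ x * x ^ 12 := mul_le_mul hB hD hD0 x0.le
      _ = x ^ 13 := by ring
  have hBD0 : 0 ≤ B ^ 2 * D := mul_nonneg (sq_nonneg _) hD0
  have w32 : 0 ≤ y ^ 32 := by positivity
  have c1 : x ^ 13 * y ^ 32 = y ^ 19 := by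
    calc x ^ 13 * y ^ 32 = (x * y) ^ 13 * y ^ 19 := by ring
      _ = y ^ 19 := by rw [xy, one_pow, one_mul]
  have c2 : x * y ^ 32 = y ^ 31 := by
    calc x * y ^ 32 = (x * y) * y ^ 31 := by ring
      _ = y ^ 31 := by rw [xy, one_mul]
  have a1 : B ^ 2 * (p1 + p2) ≤ 2 * y ^ 31 := by
    calc B ^ 2 * (p1 + p2) ≤ B ^ 2 * (2 * y ^ 32) := mul_le_mul_of_nonneg_left (by linarith) (sq_nonneg _)
      _ ≤ x * (2 * y ^ 32) := mul_le_mul_of_nonneg_right hB (by positivity)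
      _ = 2 * (x * y ^ 32) := by ring
      _ = 2 * y ^ 31 := by rw [c2]
  have a3 : 2 * (B ^ 2 * D) / Mn ≤ 2 * y ^ 11 := by
    rw [hM, div_le_iff₀ (by positivity)]
    have e : 2 * y ^ 11 * x ^ 24 = 2 * x ^ 13 := by
      calc 2 * y ^ 11 * x ^ 24 = 2 * x ^ 13 * (x * y) ^ 11 := by ring
        _ = 2 * x ^ 13 := by rw [xy, one_pow, mul_one]
    rw [e]
    linarith
  have a4 : 96 * (B ^ 2 * D) * p4 ≤ 96 * y ^ 19 := by
    calc 96 * (B ^ 2 * D) * p4 ≤ 96 * (B ^ 2 * D) * y ^ 32 := mul_le_mul_of_nonneg_left h4 (by linarith)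
      _ ≤ 96 * x ^ 13 * y ^ 32 := mul_le_mul_of_nonneg_right (by linarith) w32
      _ = 96 * (x ^ 13 * y ^ 32) := by ring
      _ = 96 * y ^ 19 := by rw [c1]
  have a5 : 4 * (B ^ 2 * D) * p5 ≤ 4 * y ^ 19 := by
    calc 4 * (B ^ 2 * D) * p5 ≤ 4 * (B ^ 2 * D) * y ^ 32 := mul_le_mul_of_nonneg_left h5 (by linarith)
      _ ≤ 4 * x ^ 13 * y ^ 32 := mul_le_mul_of_nonneg_right (by linarith) w32
      _ = 4 * (x ^ 13 * y ^ 32) := by ring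
      _ = 4 * y ^ 19 := by rw [c1]
  have w : ∀ k : ℕ, y ^ (10 + k) ≤ y ^ 10 * (1 / 8) ^ k := fun k => by
    rw [pow_add]
    exact mul_le_mul_of_nonneg_left (pow_le_pow_left₀ y0.le yle k) (by positivity)
  have w1 := w 1
  have w9 := w 9
  have w21 := w 21
  have w22 := w 22
  norm_num at w1 w9 w21 w22
  have w10 : 0 < y ^ 10 := by positivity
  rw [e10]
  linarith

section Frame

variable {μ : Measure ℝ} {s : ℝ} [IsProbabilityMeasure μ]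

/-- **RqS61 AT THE CONCRETE FRAME.** -/
theorem rqs61_33 {c₁ C : ℝ} {n₀ : ℕ} (h : In μ s c₁ C n₀)
    (hQI : ∀ p : ℝ, 1 < p → ∃ C θ0 : ℝ, 0 ≤ C ∧ 0 < θ0 ∧ QI μ p C θ0) {K : ℕ} (hK : 32 ≤ K) {κ : ℝ} (hκ : 0 < κ) (hκ1 : κ ≤ 1)
    {ν : ℝ} (hν : 0 < ν) : ∃ a₀ : ℝ, 0 < a₀ ∧ ∀ a : ℝ, 0 < a → ∃ β₀ : ℝ, 0 < β₀ ∧ ∀ β : ℝ, 0 < β → β ≤ β₀ →
      ∃ γ₀ : ℝ, 0 < γ₀ ∧ ∀ γ : ℝ, 0 < γ → γ ≤ γ₀ → ∀ᶠ m : ℕ in atTop,
      ∀ c0 K₁ : ℕ, ((2 ^ m : ℕ) : ℝ) ^ κ ≤ c0 → ((2 ^ m : ℕ) : ℝ) ^ κ ≤ K₁ → c0 + K₁ ≤ L33 K m →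
      ∀ b0 b j : ℕ, ((2 ^ m : ℕ) : ℝ) ^ κ ≤ b0 → b0 ≤ 2 ^ m → b0 ≤ b → b ≤ j → j + b0 ≤ c0 → j + b ≤ L33 K m →
      ∀ (cb e : ℕ) (D : ℝ) (f : Fam (L33 K m)), D ≤ ((2 ^ m : ℕ) : ℝ) ^ 3 → Cls59 (L33 K m) cb e D f →
      ∀ θ' D' : ℝ, Cov1 (L33 K m) b0 j (fun y ω S => f y ω S - 2 * θ' * y) D' →
      ∀ q m0 m1 : ℕ, c0 + K₁ ≤ q → c0 + K₁ ≤ m0 → m0 ≤ m1 → m1 ≤ e → ∀ t ∈ Set.Icc (-1 : ℝ) 1, ∀ u ∈ Set.Icc (-1 : ℝ) 1,
      ∀ M : ℝ, ((2 ^ m : ℕ) : ℝ) ^ a ≤ M → M ≤ ((2 ^ m : ℕ) : ℝ) ^ a₀ → ∀ dl : ℝ, 0 < dl → dl ≤ 1 →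
      avy (ys33 μ s K m) (fun y => ∫ ω, rep 2 (wj μ s (L33 K m) (Pn (L33 K m) y) γ (B33 β m) b0 j ω t)
          (rX μ s (L33 K m) γ (B33 β m) b0 b j t u y f m0 m1 q ω) ∂(Pm μ (L33 K m))) ≤
        ((2 ^ m : ℕ) : ℝ) ^ ν * (avy (ys33 μ s K m) (fun y => cP45 μ s (L33 K m) (Pn (L33 K m) y)
            (Ev61 μ s (L33 K m) y b0 b j q (2 * M)) m0 m1 (f y)) +
          avy (ys33 μ s K m) (fun y => cP45 μ s (L33 K m) (Pn (L33 K m) y)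
            (Eq61 μ s (L33 K m) y γ (B33 β m) b0 b j q (c0 + K₁) (dl / 4) (2 * M)) m0 m1 (f y))) +
          ((2 ^ m : ℕ) : ℝ) ^ (-(5 / 2) : ℝ) := by
  obtain ⟨c₃, hc₃, hfl⟩ := fl4_33 h hK hκ 8
  refine ⟨c₃ / 2, by positivity, fun a ha => ?_⟩
  have hK32 : (32 : ℝ) ≤ K := by exact_mod_cast hK
  have hK0 : (0 : ℝ) < K := by linarith
  have hmin : 0 < min ν 1 := lt_min hν one_pos
  obtain ⟨β₁, hβ₁, hrow⟩ := rq_row61 h hQI (κ := κ / K) (by positivity) (by rw [div_le_one hK0]; linarith) (ε := min ν 1 / (4 * K))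
    (K' := 1) (aM := a / K) (by positivity) zero_le_one (by positivity)
  refine ⟨min (K * β₁) (min (ν / 8) (1 / 8)), lt_min (by positivity) (lt_min (by positivity) (by norm_num)), fun β hβ hβ' => ?_⟩
  have hb1 : β ≤ K * β₁ := hβ'.trans (min_le_left _ _)
  have hb2 : β ≤ ν / 8 := hβ'.trans ((min_le_right _ _).trans (min_le_left _ _))
  have hb3 : β ≤ 1 / 8 := hβ'.trans ((min_le_right _ _).trans (min_le_right _ _))
  obtain ⟨γ₀, hγ₀, hfl⟩ := hfl β hβ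
  refine ⟨γ₀, hγ₀, fun γ hγ hγ' => ?_⟩
  obtain ⟨δ', c', hδ', hc', N₀, hN₀⟩ := hrow γ hγ
  filter_upwards [hfl γ hγ hγ', ev_L (by omega : 1 ≤ K) N₀, cone33 h hK hδ', ev_num4 hc₃ K, ev_exp4 ha (K + 8),
    ev_exp4 (show 0 < K * c' by positivity) 11, ev_n one_pos 5, ev_n (show (0 : ℝ) < 1 / 4 by norm_num) 8,
    ev_n (show 0 < c₃ / 2 by positivity) 12] with
    m m1 m2 m3 m4 m5 m6 m7 m8 m9 c0 K₁ hc hK₁ hcK b0 b j hb0 hb0n hb hbj hjc hjN cb e D f hD hf θ' D' hcov q m0 mm hq hm0 hm01 hme t ht u hu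
    M hM hM' dl hdl hdl1
  obtain ⟨⟨y1, y2⟩, m1⟩ := m1
  obtain ⟨θ, ε', hθ0, hθ, hε', hE⟩ := m1 (B33 β m) le_rfl
  obtain ⟨x1, x2, x3⟩ := m4
  obtain ⟨n, hn⟩ : ∃ n : ℝ, n = ((2 ^ m : ℕ) : ℝ) := ⟨_, rfl⟩
  have hn1 : 1 ≤ n := by
    rw [hn]
    exact n_ge1 m
  have hn0 : 0 < n := lt_of_lt_of_le one_pos hn1
  have hL : ((L33 K m : ℕ) : ℝ) = n ^ (K : ℝ) := by
    have := L33_pow K m 1
    rw [Real.rpow_one, mul_one] at this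
    rw [this, hn]
  have hpw : ∀ x : ℝ, ((L33 K m : ℕ) : ℝ) ^ x = n ^ (K * x) := fun x => by rw [L33_pow, hn]
  have hκ' : ((L33 K m : ℕ) : ℝ) ^ (κ / K) = n ^ κ := by
    rw [hpw]
    congr 1
    field_simp
  have ha' : ((L33 K m : ℕ) : ℝ) ^ (a / K) = n ^ a := by
    rw [hpw]
    congr 1
    field_simp
  have hε1 : ((L33 K m : ℕ) : ℝ) ^ (min ν 1 / (4 * K)) = n ^ (min ν 1 / 4) := by
    rw [hpw]
    congr 1
    field_simp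
  have hB0 : 0 ≤ B33 β m := by unfold B33; positivity
  have hBn : B33 β m = n ^ β := by rw [hn]; rfl
  have hBN : B33 β m ≤ ((L33 K m : ℕ) : ℝ) ^ β₁ := by
    rw [hpw, hBn]
    exact Real.rpow_le_rpow_of_exponent_le hn1 hb1
  have hDn : D ≤ n ^ 3 := by rw [hn]; exact hD
  have m7' : 5 ≤ n := by
    rw [Real.rpow_one] at m7
    rw [hn]
    exact m7
  have hD1 : 2 * D ≤ ((L33 K m : ℕ) : ℝ) ^ (1 : ℝ) := by
    rw [Real.rpow_one, hL]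
    calc 2 * D ≤ n * n ^ 3 := by
          have h1 : 0 ≤ n ^ 3 := by positivity
          have h2 := mul_le_mul_of_nonneg_right m7' h1
          linarith
      _ = n ^ (4 : ℝ) := by
          rw [show (4 : ℝ) = ((4 : ℕ) : ℝ) by norm_num, Real.rpow_natCast]
          ring
      _ ≤ n ^ (K : ℝ) := Real.rpow_le_rpow_of_exponent_le hn1 (by linarith)
  have hys : ys33 μ s K m = Ico (y33 μ s K m) (y33 μ s K m + M33 m) := rfl
  have key := hN₀ (L33 K m) m2 (y33 μ s K m) (M33 m) (by omega) Nat.one_le_two_pow (by omega) (fun y hy => by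
      rw [mem_Ico] at hy
      exact (m3.2.2 y (by omega) (by omega)).2) c0 K₁ (by rw [hκ', hn]; exact hc) (by rw [hκ', hn]; exact hK₁) hcK (B33 β m) b0 b j
    hB0 hBN (by rw [hκ', hn]; exact hb0) hb hbj hjc hjN cb e D f hf hD1 θ' D' hcov q m0 mm hq hm0 hm01 hme t ht u hu M
    (by rw [ha', hn]; exact hM) dl hdl hdl1 θ ε' (hE b0 j hb0 hb0n (by omega) (by omega)) hθ0
  rw [← hys] at key
  refine key.trans ?_
  have hD0 : 0 ≤ D := by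
    have hne := ne_Pn (show y33 μ s K m ≤ L33 K m by omega)
    exact (abs_nonneg _).trans (hf.bdd (y33 μ s K m) (fun _ => 0, ∅) Classical.ofNonempty)
  -- the numbers
  have hsq : (B33 β m) ^ 2 ≤ n ^ (1 / 4 : ℝ) := by
    rw [hBn, ← Real.rpow_natCast, ← Real.rpow_mul hn0.le]
    refine Real.rpow_le_rpow_of_exponent_le hn1 ?_
    push_cast
    linarith
  have hx4 : n = (n ^ (1 / 4 : ℝ)) ^ 4 := by
    rw [← Real.rpow_natCast, ← Real.rpow_mul hn0.le]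
    norm_num
  have hx10 : ((n ^ (1 / 4 : ℝ)) ^ 10)⁻¹ = n ^ (-(5 / 2) : ℝ) := by
    rw [← Real.rpow_natCast, ← Real.rpow_mul hn0.le, ← Real.rpow_neg hn0.le]
    norm_num
  have hnn : ∀ k : ℕ, (n ^ k)⁻¹ = n ^ (-(k : ℝ)) := fun k => by rw [Real.rpow_neg hn0.le, Real.rpow_natCast]
  have q1 : ((L33 K m : ℕ) : ℝ) ^ (min ν 1 / (4 * K)) * ((L33 K m : ℕ) : ℝ) ^ (-(1 : ℝ)) ≤ (n ^ 8)⁻¹ := by
    rw [hε1, hpw, ← Real.rpow_add hn0, hnn]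
    refine Real.rpow_le_rpow_of_exponent_le hn1 ?_
    have := min_le_right ν 1
    push_cast
    linarith
  have q2 : ((L33 K m : ℕ) : ℝ) ^ (1 : ℝ) * Real.exp (-M) ≤ (n ^ 8)⁻¹ := by
    rw [← hn] at m5 hM
    have e1 : Real.exp (-M) ≤ (n ^ (K + 8))⁻¹ := (Real.exp_le_exp.2 (by linarith)).trans m5
    rw [Real.rpow_one, hL, Real.rpow_natCast]
    calc n ^ K * Real.exp (-M) ≤ n ^ K * (n ^ (K + 8))⁻¹ := mul_le_mul_of_nonneg_left e1 (by positivity)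
      _ = (n ^ 8)⁻¹ := by
          rw [pow_add]
          field_simp
  have q3 : D * Real.exp (-((L33 K m : ℕ) : ℝ) ^ c') ≤ (n ^ 8)⁻¹ := by
    rw [← hn] at m6
    rw [hpw]
    calc D * Real.exp (-n ^ (K * c')) ≤ n ^ 3 * (n ^ 11)⁻¹ := mul_le_mul hDn m6 (Real.exp_pos _).le (by positivity)
      _ = (n ^ 8)⁻¹ := by
          field_simp
  have q4 : ((L33 K m : ℕ) : ℝ) * Real.exp (6 * M) * θ ≤ (n ^ 8)⁻¹ := by
    rw [← hn] at hθ x3 m9 hM'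
    have e1 : ((L33 K m : ℕ) : ℝ) ≤ Real.exp (n ^ c₃ / 2) := by
      have : (0 : ℝ) ≤ ((L33 K m : ℕ) : ℝ) := by positivity
      linarith
    have e2 : n ^ c₃ = n ^ (c₃ / 2) * n ^ (c₃ / 2) := by
      rw [← Real.rpow_add hn0]
      congr 1
      ring
    have e3 : 6 * M ≤ n ^ c₃ / 2 := by
      rw [e2]
      have e5 : 12 * n ^ (c₃ / 2) ≤ n ^ (c₃ / 2) * n ^ (c₃ / 2) := mul_le_mul_of_nonneg_right m9 (Real.rpow_nonneg hn0.le _)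
      linarith
    have e4 : ((L33 K m : ℕ) : ℝ) * Real.exp (6 * M) ≤ Real.exp (n ^ c₃) := by
      calc ((L33 K m : ℕ) : ℝ) * Real.exp (6 * M) ≤ Real.exp (n ^ c₃ / 2) * Real.exp (n ^ c₃ / 2) :=
            mul_le_mul e1 (Real.exp_le_exp.2 e3) (Real.exp_pos _).le (Real.exp_pos _).le
        _ = Real.exp (n ^ c₃) := by
            rw [← Real.exp_add]
            congr 1
            ring
    calc ((L33 K m : ℕ) : ℝ) * Real.exp (6 * M) * θ ≤ Real.exp (n ^ c₃) * θ := mul_le_mul_of_nonneg_right e4 hθ0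
      _ = θ * Real.exp (n ^ c₃) := mul_comm _ _
      _ ≤ (n ^ 8)⁻¹ := hθ
  have q5 : ε' ≤ (n ^ 8)⁻¹ := by rw [hn]; exact hε'
  have q6 : ((M33 m : ℕ) : ℝ) = n ^ 6 := by
    rw [hn]
    unfold M33
    push_cast
    rw [← pow_mul, mul_comm]
  rw [← hn] at m8
  have hnum := numE61 m8 hx4 hsq hD0 hDn q1 q2 q3 q4 q5 q6
  rw [hx10] at hnum
  rw [← hn]
  have hfac : (B33 β m / 2) ^ 2 * ((L33 K m : ℕ) : ℝ) ^ (min ν 1 / (4 * K)) * 2 ≤ n ^ ν := by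
    have e1 : (B33 β m) ^ 2 ≤ n ^ (ν / 4) := by
      rw [hBn, ← Real.rpow_natCast, ← Real.rpow_mul hn0.le]
      refine Real.rpow_le_rpow_of_exponent_le hn1 ?_
      push_cast
      linarith
    have e2 : n ^ (min ν 1 / 4) ≤ n ^ (ν / 4) := Real.rpow_le_rpow_of_exponent_le hn1 (by
      have := min_le_left ν 1
      linarith)
    rw [hε1]
    calc (B33 β m / 2) ^ 2 * n ^ (min ν 1 / 4) * 2 = 1 / 2 * ((B33 β m) ^ 2 * n ^ (min ν 1 / 4)) := by ring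
      _ ≤ 1 * (n ^ (ν / 4) * n ^ (ν / 4)) := mul_le_mul (by norm_num) (mul_le_mul e1 e2 (Real.rpow_nonneg hn0.le _)
          (Real.rpow_nonneg hn0.le _)) (mul_nonneg (sq_nonneg _) (Real.rpow_nonneg hn0.le _)) zero_le_one
      _ ≤ n ^ ν := by
          rw [one_mul, ← Real.rpow_add hn0]
          exact Real.rpow_le_rpow_of_exponent_le hn1 (by linarith)
  have hcP0 : ∀ (T : ∀ y, Env × Finset ℕ → Px (Pn (L33 K m) y) → Prop), ∀ y ∈ ys33 μ s K m,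
      0 ≤ cP45 μ s (L33 K m) (Pn (L33 K m) y) (T y) m0 mm (f y) := fun T y hy => by
    rw [hys, mem_Ico] at hy
    have hne := ne_Pn (show y ≤ L33 K m by omega)
    unfold cP45
    exact integral_nonneg fun ω => Pool.W7d29a1.C0.PP_nonneg _ fun x z =>
      mul_nonneg (T72.ind72_nonneg _ _ _) (MicE14.rh_nonneg _ _ _)
  have a0 := avy_nonneg (ys := ys33 μ s K m) (hcP0 (fun y => Ev61 μ s (L33 K m) y b0 b j q (2 * M)))
  have b0' := avy_nonneg (ys := ys33 μ s K m)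
    (hcP0 (fun y => Eq61 μ s (L33 K m) y γ (B33 β m) b0 b j q (c0 + K₁) (dl / 4) (2 * M)))
  refine add_le_add ?_ ?_
  · calc _ ≤ (B33 β m / 2) ^ 2 * ((L33 K m : ℕ) : ℝ) ^ (min ν 1 / (4 * K)) * (2 *
        (avy (ys33 μ s K m) (fun y => cP45 μ s (L33 K m) (Pn (L33 K m) y) (Ev61 μ s (L33 K m) y b0 b j q (2 * M)) m0 mm (f y)) +
          avy (ys33 μ s K m) (fun y => cP45 μ s (L33 K m) (Pn (L33 K m) y)
            (Eq61 μ s (L33 K m) y γ (B33 β m) b0 b j q (c0 + K₁) (dl / 4) (2 * M)) m0 mm (f y)))) := by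
          refine mul_le_mul_of_nonneg_left ?_ (mul_nonneg (sq_nonneg _) (Real.rpow_nonneg (by positivity) _))
          linarith
      _ = (B33 β m / 2) ^ 2 * ((L33 K m : ℕ) : ℝ) ^ (min ν 1 / (4 * K)) * 2 *
        (avy (ys33 μ s K m) (fun y => cP45 μ s (L33 K m) (Pn (L33 K m) y) (Ev61 μ s (L33 K m) y b0 b j q (2 * M)) m0 mm (f y)) +
          avy (ys33 μ s K m) (fun y => cP45 μ s (L33 K m) (Pn (L33 K m) y)
            (Eq61 μ s (L33 K m) y γ (B33 β m) b0 b j q (c0 + K₁) (dl / 4) (2 * M)) m0 mm (f y))) := by ring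
      _ ≤ _ := mul_le_mul_of_nonneg_right hfac (add_nonneg a0 b0')
  · refine le_trans (le_of_eq ?_) hnum
    ring

end Frame

end

end Pool.Agent.W_7d29a1_C0.Rq61
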