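import Pool.Agent.W_7d29a1_C0.RqB81

/-!
CURV0 (MP_7d29a1_pr), leaf E2a, the remainder, END, second part (helper81): `RQV81` at the concrete frame from `RqY81` (the row inequality
and the second moments of the event functionals), and the conversion of the pair prices into the second moment `Y0` .
-/

set_option autoImplicit false
set_option linter.unusedSectionVars false
set_option linter.unusedVariables false

namespace Pool.Agent.W_7d29a1_C0.RqB81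

open Finset MeasureTheory Filter Topology Pool.Agent.W_7d29a1_F Pool.Agent.W_7d29a1_X Pool.Agent.W_7d29a1_H
open Pool.Agent.W_7d29a1_HS (In)
open Pool.Agent.W_7d29a1_HZ (wd' EE')
open Pool.Agent.W_7d29a1_C0 Pool.Agent.W_7d29a1_C0.Mod92 Pool.Agent.W_7d29a1_C0.Asm96 Pool.Agent.W_7d29a1_C0.CrA44
open Pool.Agent.W_7d29a1_C0.Frm33 Pool.Agent.W_7d29a1_C0.EstC46 Pool.Agent.W_7d29a1_C0.EstD44
open Pool.Agent.W_7d29a1_C0.Par92 (Sml Est)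
open Pool.Agent.W_7d29a1_C0.E2aT82 Pool.Agent.W_7d29a1_C0.E2aE81 Pool.Agent.W_7d29a1_C0.E2aF81

noncomputable section

variable {μ : Measure ℝ} {s : ℝ}

/-- The second moment of the sum of the event functionals of the remainder over a block of length `r`. -/
def Y0 (E : ℕ → ℝ) (r b b0 : ℕ) : ℝ := (r : ℝ) ^ 2 / (E b0 ^ 2 * E b ^ 2) + (r : ℝ) ^ 2 / (E b0 ^ 2 * E r) + r * b / E b0

/-- **The row inequality and the second moments of the remainder** at the concrete frame. -/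
def RqY81 (μ : Measure ℝ) (s : ℝ) (K : ℕ) : Prop := Sml fun δ => Sml fun c => ∀ ν : ℝ, 0 < ν → Est fun ι β γ m =>
  Bl44 (frm33 μ s K ι β γ) (EE μ s) δ c m fun p q i f => ∀ t ∈ Set.Icc (-1 : ℝ) 1, ∀ u ∈ Set.Icc (-1 : ℝ) 1,
    ∀ mm ∈ Ico ((i + 1) * 2 ^ q - 4 * gl46 ι m q) ((i + 1) * 2 ^ q - 3 * gl46 ι m q),
      RowY81 μ s (L33 K m) γ (B33 β m) (2 ^ (p - ⌈ι * m⌉₊)) (2 ^ p) f (ys33 μ s K m) (R33 ι m) (i * 2 ^ q) ((i + 1) * 2 ^ q) (gl46 ι m q)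
        (((2 ^ m : ℕ) : ℝ) ^ ν) (((2 ^ m : ℕ) : ℝ) ^ (-(2 : ℝ)))
        (((2 ^ m : ℕ) : ℝ) ^ ν * Y0 (EE μ s) (2 ^ q) (2 ^ p) (2 ^ (p - ⌈ι * m⌉₊))) t u mm

theorem rq_mono {N : ℕ} {δ B : ℝ} {b0 b : ℕ} {f : Fam N} {ys R : Finset ℕ} {c d l : ℕ} {k e k' e' : ℝ}
    (h : RQ81 μ s N δ B b0 b f ys R c d l k e) (hk : k ≤ k') (he : e ≤ e') : RQ81 μ s N δ B b0 b f ys R c d l k' e' :=
  fun t ht u hu => (h t ht u hu).trans (add_le_add (mul_le_mul_of_nonneg_right hk (Real.sqrt_nonneg _)) he)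

/-- The numbers of the end: `n` the length of the block frame, `x = n ^ ν`, `E3`, `Er`, `E0` the units. -/
theorem pn81 {x z Nε E3 Er Y0v y r b E0 N ex : ℝ} (hx : 1 ≤ x) (hz : 1 ≤ z) (hNε : 0 ≤ Nε) (hNεx : Nε ≤ x) (h3 : 1 ≤ E3) (hr1 : 1 ≤ Er)
    (hE0 : 1 ≤ E0) (hE : Er ≤ z * E3) (hY0 : r * b / E0 ≤ Y0v) (hy : y = x * Y0v) (hr : 1 ≤ r) (hb : 1 ≤ b) (hrN : r ≤ N)
    (hE0N : E0 ≤ N) (hErN : Er ≤ N) (hex0 : 0 ≤ ex) (hex : N ^ 3 * ex ≤ 1) :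
    x ^ 2 * √(8 * (Nε * E3⁻¹ * y + r ^ 2 * ex)) ≤ 4 * x ^ 2 * (x * √z) * √(Y0v / Er) := by
  have hx0 : 0 < x := by linarith
  have hz0 : 0 < z := by linarith
  have hN1 : 1 ≤ N := hr.trans hrN
  have hYp : 0 ≤ r * b / E0 := by positivity
  have hY0' : 0 ≤ Y0v := hYp.trans hY0
  have h1 : E3⁻¹ ≤ z * Er⁻¹ := by
    rw [← div_eq_mul_inv, inv_eq_one_div, div_le_div_iff₀ (by linarith) (by linarith), one_mul]
    exact hE
  have h2 : Nε * E3⁻¹ * y ≤ x ^ 2 * z * (Y0v / Er) := by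
    rw [hy]
    calc Nε * E3⁻¹ * (x * Y0v) ≤ x * (z * Er⁻¹) * (x * Y0v) := by gcongr
      _ = x ^ 2 * z * (Y0v / Er) := by
          rw [div_eq_mul_inv]
          ring
  have h3' : r ^ 2 * ex ≤ Y0v / Er := by
    have h4 : r * b / E0 / Er ≤ Y0v / Er := div_le_div_of_nonneg_right hY0 (by linarith)
    refine le_trans ?_ h4
    rw [div_div, le_div_iff₀ (by positivity)]
    have h5 : r * ex * (E0 * Er) ≤ N * ex * (N * N) := by gcongr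
    have h6 : N * ex * (N * N) = N ^ 3 * ex := by ring
    calc r ^ 2 * ex * (E0 * Er) = r * (r * ex * (E0 * Er)) := by ring
      _ ≤ r * 1 := mul_le_mul_of_nonneg_left (by linarith) (by linarith)
      _ ≤ r * b := mul_le_mul_of_nonneg_left hb (by linarith)
  have hq : 0 ≤ Y0v / Er := by positivity
  have hx2z : 1 ≤ x ^ 2 * z := one_le_mul_of_one_le_of_one_le (one_le_pow₀ hx) hz
  have h7 : 8 * (Nε * E3⁻¹ * y + r ^ 2 * ex) ≤ 16 * (x ^ 2 * z) * (Y0v / Er) := by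
    have h8 : Y0v / Er ≤ x ^ 2 * z * (Y0v / Er) := le_mul_of_one_le_left hq hx2z
    linarith
  have h9 : √(16 * (x ^ 2 * z) * (Y0v / Er)) = 4 * (x * √z) * √(Y0v / Er) := by
    rw [Real.sqrt_mul (by positivity), Real.sqrt_mul (by norm_num), Real.sqrt_mul (by positivity), Real.sqrt_sq hx0.le]
    congr 2
    rw [show (16 : ℝ) = 4 ^ 2 by norm_num, Real.sqrt_sq (by norm_num)]
  calc x ^ 2 * √(8 * (Nε * E3⁻¹ * y + r ^ 2 * ex)) ≤ x ^ 2 * √(16 * (x ^ 2 * z) * (Y0v / Er)) :=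
        mul_le_mul_of_nonneg_left (Real.sqrt_le_sqrt h7) (by positivity)
    _ = 4 * x ^ 2 * (x * √z) * √(Y0v / Er) := by
        rw [h9]
        ring

theorem k2_eq81 (E : ℕ → ℝ) (hE : ∀ n, 1 ≤ E n) (r b b0 : ℕ) : Y0 E r b b0 / E r = k2s E r b b0 := by
  have h1 := hE r
  have h2 := hE b
  have h3 := hE b0
  unfold Y0 k2s
  field_simp

/-- **(RQ) AT THE CONCRETE FRAME.** -/
theorem rqv81 [IsProbabilityMeasure μ] {c₁ C : ℝ} {n₀ : ℕ} (h : In μ s c₁ C n₀) (hk : KapLe96 (EE μ s) (1 / 4)) {K : ℕ} (hK : 32 ≤ K)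
    (hY : RqY81 μ s K) : RQV81 μ s K := by
  obtain ⟨a, K₂, -, -, hK₂, hpow⟩ := Pool.Agent.W_7d29a1_HZ.EE'_pow h
  refine (Sml.and hY (Sml.le one_pos)).mono fun δ hδ h1 => ?_
  obtain ⟨h1, hδ1⟩ := h1
  refine (Sml.and h1 (Sml.le (show 0 < δ / 64 by positivity))).mono fun c hc h2 => ?_
  obtain ⟨h2, hcδ⟩ := h2
  intro ν hν
  have hK0 : (0 : ℝ) < K := by
    have : (32 : ℝ) ≤ K := by exact_mod_cast hK
    linarith
  obtain ⟨ν', hν'd⟩ : ∃ ν' : ℝ, ν' = ν / 8 := ⟨_, rfl⟩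
  have hν' : 0 < ν' := by rw [hν'd]; positivity
  obtain ⟨δ', c₂, hδ', hc₂, L₀, hblk⟩ := rq_block h (ν' / K) (δ / K) (by positivity) (by positivity)
  refine Par92.Est.mono ((h2 ν' hν').and (Par92.Est.iota (Sml.le (show 0 < min (δ / 16) ν from lt_min (by positivity) hν))))
    fun ι β γ hι hβ hγ => ?_
  filter_upwards [ev_L (by omega : 1 ≤ K) L₀, cone33 h hK hδ', reg33 h hk hδ hc.le hcδ, ev_n (show 0 < δ / 16 by positivity) 16,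
    ev_n (half_pos hι) (4 * K₂), ev_n hν' 4, (tend_L (by omega : 1 ≤ K)).eventually (eve81 hc₂),
    (tend_L (by omega : 1 ≤ K)).eventually (evl81 (show (0 : ℝ) < 1 / 2 by norm_num) (K₂ * EE' μ s 1))]
    with m m1 m2 m5 m6 m7 m8 m9 m10 hall
  obtain ⟨hrow, hι'⟩ := hall
  intro p q i hst hi D f hD hf hcv
  have hrow := hrow p q i hst hi D f hD hf hcv
  have hιδ : ι ≤ δ / 16 := hι'.trans (min_le_left _ _)
  have hιν : ι ≤ ν := hι'.trans (min_le_right _ _)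
  obtain ⟨n, hn⟩ : ∃ n : ℝ, n = ((2 ^ m : ℕ) : ℝ) := ⟨_, rfl⟩
  have hn1 : 1 ≤ n := by
    rw [hn]
    exact n_ge1 m
  have hn0 : 0 < n := lt_of_lt_of_le one_pos hn1
  have hpq : p ≤ q := hst.hps.trans hst.hsq
  have hNn : 2 ^ m ≤ L33 K m := L33_ge (by omega) m
  have hdm : (i + 1) * 2 ^ q ≤ 2 ^ m := by
    calc (i + 1) * 2 ^ q ≤ 2 ^ (m - q) * 2 ^ q := Nat.mul_le_mul_right _ hi
      _ = 2 ^ m := by rw [← pow_add, Nat.sub_add_cancel hst.hqm]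
  have hqm : 2 ^ q ≤ 2 ^ m := Nat.pow_le_pow_right two_pos hst.hqm
  obtain ⟨-, -, hreg⟩ := m5 p hst.hp
  -- the gap
  have hgap : 16 * ((2 ^ p : ℕ) : ℝ) ≤ n ^ (-ι) * 2 ^ q := by
    have e1 : ((2 ^ sg96 (EE μ s) c m p : ℕ) : ℝ) ≤ 2 ^ q := by
      have : 2 ^ sg96 (EE μ s) c m p ≤ 2 ^ q := Nat.pow_le_pow_right two_pos hst.hsq
      exact_mod_cast this
    rw [← hn] at hreg m6
    have e2 : n ^ (-(δ / 16)) ≤ n ^ (-ι) := Real.rpow_le_rpow_of_exponent_le hn1 (by linarith)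
    calc 16 * ((2 ^ p : ℕ) : ℝ) ≤ n ^ (δ / 16) * ((2 ^ p : ℕ) : ℝ) := mul_le_mul_of_nonneg_right m6 (by positivity)
      _ = n ^ (-(δ / 16)) * (n ^ (δ / 8) * ((2 ^ p : ℕ) : ℝ)) := by
          rw [← mul_assoc, ← Real.rpow_add hn0]
          ring_nf
      _ ≤ n ^ (-ι) * 2 ^ q := mul_le_mul e2 (hreg.trans e1) (by positivity) (by positivity)
  have hb1 : (1 : ℝ) ≤ ((2 ^ p : ℕ) : ℝ) := n_ge1 p
  have hgl := gl81 (ι := ι) (m := m) (q := q) (by rw [← hn]; linarith)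
  rw [← hn] at hgl
  have hbl : 2 ^ p ≤ gl46 ι m q := by
    have : ((2 ^ p : ℕ) : ℝ) ≤ (gl46 ι m q : ℝ) := by linarith
    exact_mod_cast this
  have hgl8 : 8 * gl46 ι m q ≤ 2 ^ q := by
    have := gl_le46 (m := m) (q := q) (i := 0) hι.le
    simpa using this
  have hd1 : 2 ^ q ≤ (i + 1) * 2 ^ q := Nat.le_mul_of_pos_left _ (Nat.succ_pos i)
  have hp1 : 1 ≤ 2 ^ p := Nat.one_le_two_pow
  have hlo : ((L33 K m : ℕ) : ℝ) ^ (δ / K) ≤ ((3 * gl46 ι m q : ℕ) : ℝ) := by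
    rw [L33_pow, mul_div_cancel₀ _ hK0.ne']
    refine (two_ge hst.hp).trans ?_
    exact_mod_cast (by omega : 2 ^ p ≤ 3 * gl46 ι m q)
  have key := hblk (L33 K m) m1 (ys33 μ s K m) (fun y hy => m2.2.2 y (by
      have := (mem_Ico.1 hy).1
      omega) (mem_Ico.1 hy).2.le) γ (B33 β m) (2 ^ (p - ⌈ι * (m : ℝ)⌉₊)) (2 ^ p) (gl46 ι m q)
      (i * 2 ^ q) ((i + 1) * 2 ^ q) (2 ^ q) (i * 2 ^ q) (R33 ι m) D f (by omega) (hdm.trans hNn) hlo (le_of_eq (by ring)) hf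
      (((2 ^ m : ℕ) : ℝ) ^ ν') (((2 ^ m : ℕ) : ℝ) ^ (-(2 : ℝ))) (((2 ^ m : ℕ) : ℝ) ^ ν' * Y0 (EE μ s) (2 ^ q) (2 ^ p)
      (2 ^ (p - ⌈ι * (m : ℝ)⌉₊))) (by positivity) (by positivity) ?_ hrow
  · -- the numbers
    have hE1 : ∀ k, 1 ≤ EE μ s k := fun k => one_le_EE k
    have hEN : ∀ k : ℕ, 1 ≤ k → k ≤ L33 K m → EE μ s k ≤ (L33 K m : ℕ) := fun k k1 k2 => by
      have e1 := (hpow 1 k le_rfl k1).2.2
      rw [Nat.cast_one, div_one, EE'_eq46] at e1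
      have e2 : Real.sqrt k ≤ ((L33 K m : ℕ) : ℝ) ^ (1 / 2 : ℝ) := by
        rw [← Real.sqrt_eq_rpow]
        exact Real.sqrt_le_sqrt (by exact_mod_cast k2)
      have hL0 : (0 : ℝ) < ((L33 K m : ℕ) : ℝ) := by
        have : 0 < L33 K m := lt_of_lt_of_le (by positivity) hNn
        exact_mod_cast this
      have e3 : ((L33 K m : ℕ) : ℝ) ^ (1 / 2 : ℝ) * ((L33 K m : ℕ) : ℝ) ^ (1 / 2 : ℝ) = ((L33 K m : ℕ) : ℝ) := by
        rw [← Real.rpow_add hL0]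
        norm_num
      have e4 : 1 ≤ EE' μ s 1 := le_max_left _ _
      calc EE μ s k ≤ K₂ * Real.sqrt k * EE' μ s 1 := e1
        _ = Real.sqrt k * (K₂ * EE' μ s 1) := by ring
        _ ≤ ((L33 K m : ℕ) : ℝ) ^ (1 / 2 : ℝ) * ((L33 K m : ℕ) : ℝ) ^ (1 / 2 : ℝ) := mul_le_mul e2 m10 (by positivity) (by positivity)
        _ = _ := e3
    have hl3 : 1 ≤ 3 * gl46 ι m q := by omega
    have h1 := (hpow (3 * gl46 ι m q) (2 ^ q) hl3 (by omega)).2.2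
    rw [EE'_eq46, EE'_eq46] at h1
    have h2 : (((2 ^ q : ℕ) : ℝ) / ((3 * gl46 ι m q : ℕ) : ℝ)) ≤ (4 * n ^ (ι / 2)) ^ 2 := by
      have hl0 : (0 : ℝ) < ((3 * gl46 ι m q : ℕ) : ℝ) := by exact_mod_cast hl3
      rw [div_le_iff₀ hl0]
      push_cast
      have e1 : (4 * n ^ (ι / 2)) ^ 2 = 16 * n ^ ι := by
        have : n ^ ι = n ^ (ι / 2) * n ^ (ι / 2) := by
          rw [← Real.rpow_add hn0]
          ring_nf
        rw [this]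
        ring
      have e2 : n ^ ι * (n ^ (-ι) * 2 ^ q) = 2 ^ q := by
        rw [← mul_assoc, ← Real.rpow_add hn0, add_neg_cancel, Real.rpow_zero, one_mul]
      have e3 := mul_le_mul_of_nonneg_left hgl (Real.rpow_nonneg hn0.le ι)
      rw [e2] at e3
      rw [e1]
      have e4 : 0 ≤ n ^ ι * (gl46 ι m q : ℝ) := by positivity
      linarith
    have h3 : Real.sqrt (((2 ^ q : ℕ) : ℝ) / ((3 * gl46 ι m q : ℕ) : ℝ)) ≤ 4 * n ^ (ι / 2) := by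
      rw [Real.sqrt_le_left (by positivity)]
      exact h2
    have h4 : EE μ s (2 ^ q) ≤ n ^ ι * EE μ s (3 * gl46 ι m q) := by
      have e0 : 1 ≤ EE μ s (3 * gl46 ι m q) := one_le_EE _
      refine h1.trans (mul_le_mul_of_nonneg_right ?_ (by linarith))
      rw [← hn] at m7
      calc K₂ * Real.sqrt (((2 ^ q : ℕ) : ℝ) / ((3 * gl46 ι m q : ℕ) : ℝ)) ≤ K₂ * (4 * n ^ (ι / 2)) :=
            mul_le_mul_of_nonneg_left h3 (by linarith)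
        _ = (4 * K₂) * n ^ (ι / 2) := by ring
        _ ≤ n ^ (ι / 2) * n ^ (ι / 2) := mul_le_mul_of_nonneg_right m7 (by positivity)
        _ = n ^ ι := by
            rw [← Real.rpow_add hn0]
            ring_nf
    rw [← hn] at key m8
    rw [← hn]
    have hLn : n ≤ ((L33 K m : ℕ) : ℝ) := by
      rw [hn]
      exact_mod_cast hNn
    have hL1 : (1 : ℝ) ≤ ((L33 K m : ℕ) : ℝ) := hn1.trans hLn
    have hx1 : 1 ≤ n ^ ν' := Real.one_le_rpow hn1 hν'.le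
    have hb0p : 1 ≤ 2 ^ (p - ⌈ι * (m : ℝ)⌉₊) := Nat.one_le_two_pow
    have hb0N : 2 ^ (p - ⌈ι * (m : ℝ)⌉₊) ≤ L33 K m :=
      (Nat.pow_le_pow_right two_pos ((Nat.sub_le _ _).trans (hpq.trans hst.hqm))).trans hNn
    have hnum := pn81 (x := n ^ ν') (z := n ^ ι) (Nε := ((L33 K m : ℕ) : ℝ) ^ (ν' / K)) (E3 := EE' μ s (3 * gl46 ι m q)) (Er := EE μ s (2 ^ q))
      (Y0v := Y0 (EE μ s) (2 ^ q) (2 ^ p) (2 ^ (p - ⌈ι * (m : ℝ)⌉₊))) (y := n ^ ν' * Y0 (EE μ s) (2 ^ q) (2 ^ p) (2 ^ (p - ⌈ι * (m : ℝ)⌉₊)))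
      (r := ((2 ^ q : ℕ) : ℝ)) (b := ((2 ^ p : ℕ) : ℝ)) (E0 := EE μ s (2 ^ (p - ⌈ι * (m : ℝ)⌉₊))) (N := ((L33 K m : ℕ) : ℝ))
      (ex := Real.exp (-((L33 K m : ℕ) : ℝ) ^ c₂)) hx1 (Real.one_le_rpow hn1 hι.le) (by positivity)
      (by rw [L33_pow, mul_div_cancel₀ _ hK0.ne', ← hn]) (le_max_left _ _) (hE1 _) (hE1 _) (by rw [EE'_eq46]; exact h4) (by
        unfold Y0
        have a1 := hE1 (2 ^ (p - ⌈ι * (m : ℝ)⌉₊))
        have a2 := hE1 (2 ^ p)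
        have a3 := hE1 (2 ^ q)
        have a4 : 0 ≤ ((2 ^ q : ℕ) : ℝ) ^ 2 / (EE μ s (2 ^ (p - ⌈ι * (m : ℝ)⌉₊)) ^ 2 * EE μ s (2 ^ p) ^ 2) := by positivity
        have a5 : 0 ≤ ((2 ^ q : ℕ) : ℝ) ^ 2 / (EE μ s (2 ^ (p - ⌈ι * (m : ℝ)⌉₊)) ^ 2 * EE μ s (2 ^ q)) := by positivity
        linarith) rfl (n_ge1 q) hb1 (by exact_mod_cast hqm.trans hNn) (hEN _ hb0p hb0N) (hEN _ Nat.one_le_two_pow (hqm.trans hNn))
      (Real.exp_pos _).le (by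
        rw [Real.rpow_ofNat] at m9
        have a1 : ((L33 K m : ℕ) : ℝ) ^ 3 ≤ ((L33 K m : ℕ) : ℝ) ^ 9 := pow_le_pow_right₀ hL1 (by norm_num)
        have a2 := mul_le_mul_of_nonneg_right a1 (Real.exp_pos (-((L33 K m : ℕ) : ℝ) ^ c₂)).le
        have a3 : 0 ≤ ((L33 K m : ℕ) : ℝ) ^ 9 * Real.exp (-((L33 K m : ℕ) : ℝ) ^ c₂) := by positivity
        linarith)
    rw [k2_eq81 _ hE1] at hnum
    refine rq_mono key (hnum.trans ?_) ?_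
    · refine mul_le_mul_of_nonneg_right ?_ (Real.sqrt_nonneg _)
      calc 4 * (n ^ ν') ^ 2 * (n ^ ν' * √(n ^ ι)) ≤ n ^ ν' * (n ^ ν') ^ 2 * (n ^ ν' * √(n ^ ι)) := by gcongr
        _ = n ^ (ν' + ν' + ν' + ν' + ι / 2) := by
            rw [Real.sqrt_eq_rpow, ← Real.rpow_mul hn0.le, Real.rpow_add hn0, Real.rpow_add hn0, Real.rpow_add hn0, Real.rpow_add hn0]
            ring_nf
        _ ≤ n ^ ν := Real.rpow_le_rpow_of_exponent_le hn1 (by rw [hν'd]; linarith)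
    · have a1 : ((2 ^ q : ℕ) : ℝ) ≤ n := by
        rw [hn]
        exact_mod_cast hqm
      have a2 : n ^ (-(2 : ℝ)) = (n ^ 2)⁻¹ := by
        rw [Real.rpow_neg hn0.le, Real.rpow_ofNat]
      rw [a2]
      calc ((2 ^ q : ℕ) : ℝ) * (n ^ 2)⁻¹ ≤ n * (n ^ 2)⁻¹ := mul_le_mul_of_nonneg_right a1 (by positivity)
        _ = n⁻¹ := by field_simp
  · unfold Y0
    have a1 : 1 ≤ EE μ s (2 ^ (p - ⌈ι * (m : ℝ)⌉₊)) := one_le_EE _
    have a2 : 1 ≤ EE μ s (2 ^ p) := one_le_EE _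
    have a3 : 1 ≤ EE μ s (2 ^ q) := one_le_EE _
    positivity

end

end Pool.Agent.W_7d29a1_C0.RqB81
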