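import Pool.Agent.W_7d29a1_C0.Rq13F
import Pool.Agent.W_7d29a1_C0.RqC81

/-!
CURV0 (MP_7d29a1_pr), leaf E2a, the remainder, END, third part (helper81): THE SECOND MOMENT OF THE MAIN FAMILY `UM13` at the concrete frame
(`ym33`), from helper13's `ym13`; the geometry of the kicked rows of a block (`geo81`).
-/

set_option autoImplicit false
set_option linter.unusedSectionVars false
set_option linter.unusedVariables false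

namespace Pool.Agent.W_7d29a1_C0.RqB81

open Finset MeasureTheory Filter Topology Pool.Agent.W_7d29a1_F Pool.Agent.W_7d29a1_X Pool.Agent.W_7d29a1_H
open Pool.Agent.W_7d29a1_HS (In)
open Pool.Agent.W_7d29a1_HZ (wd' EE')
open Pool.Agent.W_7d29a1_C0 Pool.Agent.W_7d29a1_C0.Mod92 Pool.Agent.W_7d29a1_C0.Asm96 Pool.Agent.W_7d29a1_C0.CrA44
open Pool.Agent.W_7d29a1_C0.Frm33 Pool.Agent.W_7d29a1_C0.EstC46 Pool.Agent.W_7d29a1_C0.EstD44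
open Pool.Agent.W_7d29a1_C0.Par92 (Sml Est)
open Pool.Agent.W_7d29a1_C0.E2aT82 Pool.Agent.W_7d29a1_C0.E2aE81 Pool.Agent.W_7d29a1_C0.E2aF81
open Pool.Agent.W_7d29a1_C0.Rq13 (UM13 ym13)
open Pool.W7d29a1.C0 Pool.W7d29a1.C0.VT31

noncomputable section

variable {μ : Measure ℝ} {s : ℝ}

/-- The kicked rows of the block begin `8 l` rows behind the beginning of the block. -/
theorem kick_lo81 {m q i : ℕ} {ι : ℝ} (hq : q ≤ m) {j : ℕ} (hj : j ∈ Rw (R33 ι m) (i * 2 ^ q) ((i + 1) * 2 ^ q)) :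
    i * 2 ^ q + 8 * gl46 ι m q ≤ j + 1 := by
  unfold Rw at hj
  rw [Finset.mem_inter, Finset.mem_Ico] at hj
  have h1 := hj.1
  unfold R33 Kr at h1
  simp only [Finset.mem_filter] at h1
  have h2 := (h1.2 q hq).1
  have h3 : 8 * (gl46 ι m q : ℝ) ≤ ((j % 2 ^ q : ℕ) : ℝ) + 1 := by
    have h4 : (gl46 ι m q : ℝ) ≤ ((2 ^ m : ℕ) : ℝ) ^ (-ι) * 2 ^ q / 8 := Nat.floor_le (by positivity)
    linarith
  have h4 : 8 * gl46 ι m q ≤ j % 2 ^ q + 1 := by exact_mod_cast h3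
  have h5 := Nat.div_add_mod j (2 ^ q)
  have h7 : i ≤ j / 2 ^ q := by
    rw [Nat.le_div_iff_mul_le (by positivity)]
    exact hj.2.1
  have h8 : i * 2 ^ q ≤ 2 ^ q * (j / 2 ^ q) := by
    rw [Nat.mul_comm (2 ^ q)]
    exact Nat.mul_le_mul_right _ h7
  omega

/-- **The geometry of a block of the frame**: the windows are much shorter than the slab, the kicked rows are far from both ends. -/
structure Geo81 (A ι : ℝ) (m p q i : ℕ) : Prop where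
  gap : A * ((2 ^ p : ℕ) : ℝ) ≤ (gl46 ι m q : ℝ)
  gl8 : 8 * gl46 ι m q ≤ 2 ^ q
  blk : (i + 1) * 2 ^ q ≤ 2 ^ m
  pw : 2 * 2 ^ (p - ⌈ι * (m : ℝ)⌉₊) ≤ 2 ^ p
  rows : ∀ j ∈ Rw (R33 ι m) (i * 2 ^ q) ((i + 1) * 2 ^ q), i * 2 ^ q ≤ j ∧ j < (i + 1) * 2 ^ q ∧ i * 2 ^ q + 8 * gl46 ι m q ≤ j + 1 ∧
    j + 8 * gl46 ι m q ≤ (i + 1) * 2 ^ q

theorem geo81 [IsProbabilityMeasure μ] {c₁ C : ℝ} {n₀ : ℕ} (h : In μ s c₁ C n₀) (hk : KapLe96 (EE μ s) (1 / 4)) {δ c ι : ℝ}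
    (hδ : 0 < δ) (hc : 0 ≤ c) (hcδ : c ≤ δ / 64) (hι : 0 < ι) (hιδ : ι ≤ δ / 16) {A : ℝ} (hA : 1 ≤ A) :
    ∀ᶠ m : ℕ in atTop, ∀ p q i : ℕ, St96 (EE μ s) δ c m p q → i < 2 ^ (m - q) → Geo81 A ι m p q i := by
  have v1 : ∀ᶠ m : ℕ in atTop, 1 ≤ ι * (m : ℝ) := by
    have h1 : ∀ᶠ m : ℕ in atTop, 1 / ι ≤ (m : ℝ) := tendsto_natCast_atTop_atTop.eventually_ge_atTop _
    filter_upwards [h1] with m hm
    rw [div_le_iff₀ hι] at hm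
    linarith
  have v2 : ∀ᶠ m : ℕ in atTop, 1 ≤ δ * (m : ℝ) := by
    have h1 : ∀ᶠ m : ℕ in atTop, 1 / δ ≤ (m : ℝ) := tendsto_natCast_atTop_atTop.eventually_ge_atTop _
    filter_upwards [h1] with m hm
    rw [div_le_iff₀ hδ] at hm
    linarith
  filter_upwards [reg33 h hk hδ hc hcδ, ev_n (show 0 < δ / 16 by positivity) (16 * A), v1, v2] with m m5 m6 m1 m2
  intro p q i hst hi
  obtain ⟨n, hn⟩ : ∃ n : ℝ, n = ((2 ^ m : ℕ) : ℝ) := ⟨_, rfl⟩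
  have hn1 : 1 ≤ n := by
    rw [hn]
    exact n_ge1 m
  have hn0 : 0 < n := lt_of_lt_of_le one_pos hn1
  obtain ⟨-, -, hreg⟩ := m5 p hst.hp
  have hgap : 16 * A * ((2 ^ p : ℕ) : ℝ) ≤ n ^ (-ι) * 2 ^ q := by
    have e1 : ((2 ^ sg96 (EE μ s) c m p : ℕ) : ℝ) ≤ 2 ^ q := by
      have : 2 ^ sg96 (EE μ s) c m p ≤ 2 ^ q := Nat.pow_le_pow_right two_pos hst.hsq
      exact_mod_cast this
    rw [← hn] at hreg m6
    have e2 : n ^ (-(δ / 16)) ≤ n ^ (-ι) := Real.rpow_le_rpow_of_exponent_le hn1 (by linarith)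
    calc 16 * A * ((2 ^ p : ℕ) : ℝ) ≤ n ^ (δ / 16) * ((2 ^ p : ℕ) : ℝ) := mul_le_mul_of_nonneg_right m6 (by positivity)
      _ = n ^ (-(δ / 16)) * (n ^ (δ / 8) * ((2 ^ p : ℕ) : ℝ)) := by
          rw [← mul_assoc, ← Real.rpow_add hn0]
          ring_nf
      _ ≤ n ^ (-ι) * 2 ^ q := mul_le_mul e2 (hreg.trans e1) (by positivity) (by positivity)
  have hb1 : (1 : ℝ) ≤ ((2 ^ p : ℕ) : ℝ) := n_ge1 p
  have hAb : A ≤ A * ((2 ^ p : ℕ) : ℝ) := le_mul_of_one_le_right (by linarith) hb1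
  have hgl := gl81 (ι := ι) (m := m) (q := q) (by rw [← hn]; linarith)
  rw [← hn] at hgl
  refine ⟨by linarith, ?_, ?_, ?_, fun j hj => ?_⟩
  · have := gl_le46 (m := m) (q := q) (i := 0) hι.le
    simpa using this
  · calc (i + 1) * 2 ^ q ≤ 2 ^ (m - q) * 2 ^ q := Nat.mul_le_mul_right _ hi
      _ = 2 ^ m := by rw [← pow_add, Nat.sub_add_cancel hst.hqm]
  · have e1 : 1 ≤ ⌈ι * (m : ℝ)⌉₊ := by
      have e2 : (1 : ℝ) ≤ (⌈ι * (m : ℝ)⌉₊ : ℝ) := m1.trans (Nat.le_ceil _)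
      exact_mod_cast e2
    have e3 : 1 ≤ p := by
      have e4 : (1 : ℝ) ≤ (p : ℝ) := m2.trans hst.hp
      exact_mod_cast e4
    calc 2 * 2 ^ (p - ⌈ι * (m : ℝ)⌉₊) = 2 ^ (p - ⌈ι * (m : ℝ)⌉₊ + 1) := by rw [pow_succ, mul_comm]
      _ ≤ 2 ^ p := Nat.pow_le_pow_right two_pos (by omega)
  · have h1 := kick_lo81 hst.hqm hj
    have h2 := kick46 (R := R33 ι m) (by unfold R33; exact Finset.Subset.refl _) hst.hqm hj
    unfold Rw at hj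
    rw [Finset.mem_inter, Finset.mem_Ico] at hj
    exact ⟨hj.2.1, hj.2.2, h1, h2⟩

/-- The second moment `Y0` is at least the inverse of the length. -/
theorem Y0_ge81 {E : ℕ → ℝ} (hE : ∀ n, 1 ≤ E n) {r b b0 : ℕ} (hr : 1 ≤ r) (hb : 1 ≤ b) {N : ℝ} (hN : E b0 ≤ N) : N⁻¹ ≤ Y0 E r b b0 := by
  have h1 := hE b0
  have h2 := hE b
  have h3 := hE r
  have hr' : (1 : ℝ) ≤ r := by exact_mod_cast hr
  have hb' : (1 : ℝ) ≤ b := by exact_mod_cast hb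
  have a1 : 0 ≤ (r : ℝ) ^ 2 / (E b0 ^ 2 * E b ^ 2) := by positivity
  have a2 : 0 ≤ (r : ℝ) ^ 2 / (E b0 ^ 2 * E r) := by positivity
  have a3 : N⁻¹ ≤ (E b0)⁻¹ := inv_anti₀ (by linarith) hN
  have a4 : (E b0)⁻¹ ≤ r * b / E b0 := by
    rw [inv_eq_one_div]
    exact div_le_div_of_nonneg_right (one_le_mul_of_one_le_of_one_le hr' hb') (by linarith)
  unfold Y0
  linarith

/-- **The second moment of the main family** at the concrete frame. -/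
theorem ym33 [IsProbabilityMeasure μ] {c₁ C : ℝ} {n₀ : ℕ} (h : In μ s c₁ C n₀) (hk : KapLe96 (EE μ s) (1 / 4)) {K : ℕ} (hK : 32 ≤ K)
    {δ c ν : ℝ} (hδ : 0 < δ) (hc : 0 ≤ c) (hcδ : c ≤ δ / 64) (hν : 0 < ν) : Sml fun a => ∀ ι : ℝ, 0 < ι → ι ≤ δ / 16 →
      ∀ᶠ m : ℕ in atTop, ∀ p q i : ℕ, St96 (EE μ s) δ c m p q → i < 2 ^ (m - q) →
        ∀ mm ∈ Ico ((i + 1) * 2 ^ q - 4 * gl46 ι m q) ((i + 1) * 2 ^ q - 3 * gl46 ι m q), ∀ y ∈ ys33 μ s K m,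
          ∫ ω, gm (wm μ s (L33 K m) (Pn (L33 K m) y) ω) (fun x => (∑ j ∈ Rw (R33 ι m) (i * 2 ^ q) ((i + 1) * 2 ^ q),
            UM13 μ s (L33 K m) (2 ^ (p - ⌈ι * (m : ℝ)⌉₊)) (2 ^ p) mm (2 * ((L33 K m : ℕ) : ℝ) ^ a) j y ω x) ^ 2) ∂(Pm μ (L33 K m)) ≤
            ((2 ^ m : ℕ) : ℝ) ^ ν * Y0 (EE μ s) (2 ^ q) (2 ^ p) (2 ^ (p - ⌈ι * (m : ℝ)⌉₊)) := by
  obtain ⟨a₂, K₂, -, -, hK₂, hpow⟩ := Pool.Agent.W_7d29a1_HZ.EE'_pow h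
  have hK0 : (0 : ℝ) < K := by
    have : (32 : ℝ) ≤ K := by exact_mod_cast hK
    linarith
  obtain ⟨δ', κ, c₂, hδ', hκ, hc₂, L₀, hP⟩ := ym13 h (ν / 2 / K) (δ / 4 / K) (by positivity) (by positivity)
  refine ⟨κ / 2, by positivity, fun a ha haκ ι hι hιδ => ?_⟩
  filter_upwards [ev_L (by omega : 1 ≤ K) L₀, cone33 h hK hδ', geo81 h hk hδ hc hcδ hι hιδ (A := 1) le_rfl, b0_33 hδ (by linarith : ι ≤ δ / 4),
    (tend_L (by omega : 1 ≤ K)).eventually (evl81 (show (0 : ℝ) < 1 / 2 by norm_num) (K₂ * EE' μ s 1)),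
    (tend_L (by omega : 1 ≤ K)).eventually (eve81 hc₂), (tend_L (by omega : 1 ≤ K)).eventually (eve81 ha),
    (tend_L (by omega : 1 ≤ K)).eventually (evl81 (half_pos hκ) 2), (tend_L (by omega : 1 ≤ K)).eventually (evl81 ha 4),
    ev_n (half_pos hν) 16] with m m1 m2 m3 m4 m5 m6 m7 m8 m9 m10
  intro p q i hst hi mm hmm y hy
  obtain ⟨hgap, hgl8, hblk, hpw, hrows⟩ := m3 p q i hst hi
  rw [one_mul] at hgap
  have hgap' : 2 ^ p ≤ gl46 ι m q := by exact_mod_cast hgap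
  have hNn : 2 ^ m ≤ L33 K m := L33_ge (by omega) m
  have hqm : 2 ^ q ≤ 2 ^ m := Nat.pow_le_pow_right two_pos hst.hqm
  have hp1 : 1 ≤ 2 ^ p := Nat.one_le_two_pow
  have hb0p : 1 ≤ 2 ^ (p - ⌈ι * (m : ℝ)⌉₊) := Nat.one_le_two_pow
  have hL1 : 1 ≤ L33 K m := le_trans Nat.one_le_two_pow hNn
  have hL1R : (1 : ℝ) ≤ ((L33 K m : ℕ) : ℝ) := by exact_mod_cast hL1
  have hL0R : (0 : ℝ) < ((L33 K m : ℕ) : ℝ) := by linarith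
  obtain ⟨L, hL⟩ : ∃ L : ℝ, L = ((L33 K m : ℕ) : ℝ) := ⟨_, rfl⟩
  rw [mem_Ico] at hmm
  have hcy := m2.2.2 y (by
    have := (mem_Ico.1 hy).1
    omega) (mem_Ico.1 hy).2.le
  have hd1 : 2 ^ q ≤ (i + 1) * 2 ^ q := Nat.le_mul_of_pos_left _ (Nat.succ_pos i)
  have hcd : (i + 1) * 2 ^ q = i * 2 ^ q + 2 ^ q := by ring
  have key := hP (L33 K m) m1 y hcy.1 hcy.2 (2 ^ (p - ⌈ι * (m : ℝ)⌉₊)) (2 ^ p) mm (i * 2 ^ q) (2 ^ q)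
    (by
      rw [L33_pow]
      have e1 : (K : ℝ) * (δ / 4 / K) = δ / 4 := by field_simp
      rw [e1]
      exact m4 p hst.hp) hpw (by omega) (hqm.trans hNn) (by omega) (Rw (R33 ι m) (i * 2 ^ q) ((i + 1) * 2 ^ q)) (fun j hj => by
      obtain ⟨h1, h2, h3, h4⟩ := hrows j hj
      exact ⟨h1, by omega, by omega, by omega⟩) (2 * ((L33 K m : ℕ) : ℝ) ^ a) (by linarith) (by
      have e1 : ((L33 K m : ℕ) : ℝ) ^ κ = ((L33 K m : ℕ) : ℝ) ^ (κ / 2) * ((L33 K m : ℕ) : ℝ) ^ (κ / 2) := by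
        rw [← Real.rpow_add hL0R]
        ring_nf
      have e2 : ((L33 K m : ℕ) : ℝ) ^ a ≤ ((L33 K m : ℕ) : ℝ) ^ (κ / 2) := Real.rpow_le_rpow_of_exponent_le hL1R haκ
      rw [e1]
      exact mul_le_mul m8 e2 (by positivity) (by positivity))
  refine key.trans ?_
  have hE1 : ∀ k, 1 ≤ EE μ s k := fun k => one_le_EE k
  have hEN : ∀ k : ℕ, 1 ≤ k → k ≤ L33 K m → EE μ s k ≤ (L33 K m : ℕ) := fun k k1 k2 => by
    have e1 := (hpow 1 k le_rfl k1).2.2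
    rw [Nat.cast_one, div_one, EE'_eq46] at e1
    have e2 : Real.sqrt k ≤ ((L33 K m : ℕ) : ℝ) ^ (1 / 2 : ℝ) := by
      rw [← Real.sqrt_eq_rpow]
      exact Real.sqrt_le_sqrt (by exact_mod_cast k2)
    have e3 : ((L33 K m : ℕ) : ℝ) ^ (1 / 2 : ℝ) * ((L33 K m : ℕ) : ℝ) ^ (1 / 2 : ℝ) = ((L33 K m : ℕ) : ℝ) := by
      rw [← Real.rpow_add hL0R]
      norm_num
    have e4 : 1 ≤ EE' μ s 1 := le_max_left _ _
    calc EE μ s k ≤ K₂ * Real.sqrt k * EE' μ s 1 := e1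
      _ = Real.sqrt k * (K₂ * EE' μ s 1) := by ring
      _ ≤ ((L33 K m : ℕ) : ℝ) ^ (1 / 2 : ℝ) * ((L33 K m : ℕ) : ℝ) ^ (1 / 2 : ℝ) := mul_le_mul e2 m5 (by positivity) (by positivity)
      _ = _ := e3
  have hb0N : 2 ^ (p - ⌈ι * (m : ℝ)⌉₊) ≤ L33 K m :=
    (Nat.pow_le_pow_right two_pos ((Nat.sub_le _ _).trans ((hst.hps.trans hst.hsq).trans hst.hqm))).trans hNn
  have hY := Y0_ge81 (E := EE μ s) hE1 (r := 2 ^ q) (b := 2 ^ p) (b0 := 2 ^ (p - ⌈ι * (m : ℝ)⌉₊)) Nat.one_le_two_pow hp1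
    (hEN _ hb0p hb0N)
  obtain ⟨Y, hYd⟩ : ∃ Y : ℝ, Y = Y0 (EE μ s) (2 ^ q) (2 ^ p) (2 ^ (p - ⌈ι * (m : ℝ)⌉₊)) := ⟨_, rfl⟩
  rw [← hYd] at hY ⊢
  -- the main term
  have e1 : ((L33 K m : ℕ) : ℝ) ^ (ν / 2 / K) = ((2 ^ m : ℕ) : ℝ) ^ (ν / 2) := by
    rw [L33_pow]
    congr 1
    field_simp
  have e2 : ((2 ^ q : ℕ) : ℝ) * ((2 ^ p : ℕ) : ℝ) * (EE' μ s (2 ^ (p - ⌈ι * (m : ℝ)⌉₊)))⁻¹ +
      (((2 ^ q : ℕ) : ℝ) ^ 2 * ((EE' μ s (2 ^ (p - ⌈ι * (m : ℝ)⌉₊)))⁻¹ * (EE' μ s (2 ^ p))⁻¹) ^ 2 +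
        ((2 ^ q : ℕ) : ℝ) ^ 2 * (EE' μ s (2 ^ q))⁻¹ * ((EE' μ s (2 ^ (p - ⌈ι * (m : ℝ)⌉₊)))⁻¹ *
          (EE' μ s (2 ^ (p - ⌈ι * (m : ℝ)⌉₊)))⁻¹)) = Y := by
    rw [hYd]
    unfold Y0
    rw [EE'_eq46, EE'_eq46, EE'_eq46]
    have g1 := hE1 (2 ^ (p - ⌈ι * (m : ℝ)⌉₊))
    have g2 := hE1 (2 ^ p)
    have g3 := hE1 (2 ^ q)
    field_simp
    ring
  rw [e1, e2]
  -- the tiny terms
  rw [Real.rpow_ofNat] at m6 m7
  rw [← hL] at m6 m7 m9 hL1R hL0R hY ⊢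
  have t0 : L ^ 9 * Real.exp (-L ^ c₂) ≤ 1 / 64 := by linarith
  have t1 : L ^ 9 * Real.exp (-L ^ a) ≤ 1 / 64 := by linarith
  have t2 : Real.exp (-(2 * L ^ a)) ≤ Real.exp (-L ^ a) := Real.exp_le_exp.2 (by
    have : 0 ≤ L ^ a := by positivity
    linarith)
  have p9 : 0 < L ^ 9 := by positivity
  have t3 : Real.exp (-L ^ c₂) ≤ L⁻¹ := by
    have u1 : L ≤ L ^ 9 := le_self_pow₀ hL1R (by norm_num)
    have u2 := mul_le_mul_of_nonneg_right u1 (Real.exp_pos (-L ^ c₂)).le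
    rw [inv_eq_one_div, le_div_iff₀ hL0R]
    linarith
  have t4 : 100 * (L + 1) ^ 3 * Real.exp (-(2 * L ^ a)) ≤ 13 * L⁻¹ := by
    have u1 : (L + 1) ^ 3 ≤ 8 * L ^ 3 := by
      have : L + 1 ≤ 2 * L := by linarith
      calc (L + 1) ^ 3 ≤ (2 * L) ^ 3 := pow_le_pow_left₀ (by linarith) this 3
        _ = 8 * L ^ 3 := by ring
    have u2 : L ^ 4 ≤ L ^ 9 := pow_le_pow_right₀ hL1R (by norm_num)
    have u3 := mul_le_mul_of_nonneg_right u2 (Real.exp_pos (-L ^ a)).le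
    rw [show 13 * L⁻¹ = 13 / L by ring, le_div_iff₀ hL0R]
    calc 100 * (L + 1) ^ 3 * Real.exp (-(2 * L ^ a)) * L ≤ 100 * (8 * L ^ 3) * Real.exp (-L ^ a) * L := by gcongr
      _ = 800 * (L ^ 4 * Real.exp (-L ^ a)) := by ring
      _ ≤ 800 * (L ^ 9 * Real.exp (-L ^ a)) := mul_le_mul_of_nonneg_left u3 (by norm_num)
      _ ≤ 13 := by linarith
  have hn1 : (1 : ℝ) ≤ ((2 ^ m : ℕ) : ℝ) := n_ge1 m
  have hn0 : (0 : ℝ) < ((2 ^ m : ℕ) : ℝ) := by linarith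
  have hY0 : 0 ≤ Y := (inv_nonneg.2 hL0R.le).trans hY
  have hx : ((2 ^ m : ℕ) : ℝ) ^ ν = ((2 ^ m : ℕ) : ℝ) ^ (ν / 2) * ((2 ^ m : ℕ) : ℝ) ^ (ν / 2) := by
    rw [← Real.rpow_add hn0]
    ring_nf
  obtain ⟨x, hxd⟩ : ∃ x : ℝ, x = ((2 ^ m : ℕ) : ℝ) ^ (ν / 2) := ⟨_, rfl⟩
  rw [hx, ← hxd]
  rw [← hxd] at m10
  have t5 : x * Y + 14 * Y ≤ x * x * Y := by
    have u1 : x + 14 ≤ x * x := by nlinarith
    calc x * Y + 14 * Y = (x + 14) * Y := by ring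
      _ ≤ x * x * Y := mul_le_mul_of_nonneg_right u1 hY0
  linarith

end

end Pool.Agent.W_7d29a1_C0.RqB81
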