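import Pool.Agent.W_7d29a1_C0.Rq13D
import Pool.Agent.W_7d29a1_C0.Rq61E
import Pool.Agent.W_7d29a1_C0.RqD81

/-!
CURV0 (MP_7d29a1_pr), leaf E2a, the remainder, END (helper81): THE REGIONS OF A ROW with all the numbers (`rg81`), the five families of row
events (`U81`), and the two statements which are left: `LbT81` (the third part of a row against the four families of the levels) and
`YmT81` (the second moments of the four families).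
-/

set_option autoImplicit false
set_option linter.unusedSectionVars false
set_option linter.unusedVariables false

namespace Pool.Agent.W_7d29a1_C0.RqB81

open Finset MeasureTheory Filter Topology Pool.Agent.W_7d29a1_F Pool.Agent.W_7d29a1_X Pool.Agent.W_7d29a1_H
open Pool.Agent.W_7d29a1_HS (In)
open Pool.Agent.W_7d29a1_HZ (wd' EE')
open Pool.Agent.W_7d29a1_C0 Pool.Agent.W_7d29a1_C0.Mod92 Pool.Agent.W_7d29a1_C0.Asm96 Pool.Agent.W_7d29a1_C0.CrA44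
open Pool.Agent.W_7d29a1_C0.Frm33 Pool.Agent.W_7d29a1_C0.EstC46 Pool.Agent.W_7d29a1_C0.EstD44
open Pool.Agent.W_7d29a1_C0.Par92 (Sml Est)
open Pool.Agent.W_7d29a1_C0.MicE14 (rh rh_nonneg)
open Pool.Agent.W_7d29a1_C0.Rq13 (UM13 UA13 UB13 UL13 Rg13)
open Pool.Agent.W_7d29a1_C0.Rq61 (Eq61 Ev61)
open Pool.W7d29a1.C0 Pool.W7d29a1.C0.VT31
open Pool.W7d29a1.C0.C45 (cP45)

noncomputable section

/-- The number of the pieces, the length of a piece (`6 q (l + 1) <= b`), the level of the ties. -/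
def q81 (M : ℝ) : ℕ := ⌈10 * M⌉₊
def l81 (b : ℕ) (M : ℝ) : ℕ := b / (6 * q81 M) - 1
def d81 (M : ℝ) : ℝ := Real.exp (-(20 * M))

/-- The regions of the row `j` (windows `b0 < b`, scale `M` of the pieces). -/
def rg81 (b0 b : ℕ) (M : ℝ) (j : ℕ) : Rg13 where
  z := j + b0 + b / 16
  q := q81 M
  g0 := j - b / 2
  g1 := j - b0
  a1 := j - b0 / 2
  m1 := l81 b0 M
  a2 := j - b0
  m2 := l81 b0 M
  b1 := j + b0 / 2
  n1 := l81 b0 M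
  b2 := j
  n2 := l81 b0 M
  d := d81 M
  e1 := d81 M
  d3 := d81 M

/-- The five families of the remainder: `M1` the scale of the regions, `M` the level of the ties and of the own event. -/
def U81 (μ : Measure ℝ) (s : ℝ) (N b0 b mm : ℕ) (M1 M : ℝ) (i j : ℕ) : Fam N :=
  if i = 0 then UM13 μ s N b0 b mm M j
  else if i = 1 then UA13 μ s N (rg81 b0 b M1 j) mm (j - b) (l81 b M) (q81 M) M
  else if i = 2 then UB13 μ s N (rg81 b0 b M1 j) mm (j - b) (l81 b M) (q81 M) M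
  else if i = 3 then UA13 μ s N (rg81 b0 b M1 j) mm (j + b / 2) (l81 b M) (q81 M) M
  else UB13 μ s N (rg81 b0 b M1 j) mm (j + b / 2) (l81 b M) (q81 M) M

/-- The functional of a family at the corner. -/
def cU81 (μ : Measure ℝ) (s : ℝ) (N y : ℕ) (U : Fam N) (m0 m1 : ℕ) (f : Fam N) : ℝ :=
  ∫ ω, PP (wm μ s N (Pn N y) ω) (fun x x' => U y ω x * rh m0 m1 (f y ω) x x') ∂(Pm μ N)

/-- **(T) THE THIRD PART OF A ROW** at the concrete frame: at every end, at the scale `M1 = 2 n ^ a1` and at the level `M = 2 n ^ a`. -/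
def LbT81 (μ : Measure ℝ) (s : ℝ) (K : ℕ) : Prop := ∀ κ : ℝ, 0 < κ → κ ≤ 1 → Sml fun a1 => Sml fun a => Sml fun β => Sml fun γ =>
  ∀ᶠ m : ℕ in atTop,
  ∀ b0 b j mm m0 m1 : ℕ, ((2 ^ m : ℕ) : ℝ) ^ κ ≤ b0 → 16 * b0 ≤ b → b ≤ 2 ^ m → b ≤ j → j + b ≤ mm → mm ≤ m0 → m0 ≤ m1 → m1 ≤ 2 ^ m →
    ∀ (cb e : ℕ) (D : ℝ) (f : Fam (L33 K m)), D ≤ ((2 ^ m : ℕ) : ℝ) ^ 3 → Cls59 (L33 K m) cb e D f → m1 ≤ e → ∀ y ∈ ys33 μ s K m,
      cP45 μ s (L33 K m) (Pn (L33 K m) y) (Eq61 μ s (L33 K m) y γ (B33 β m) b0 b j mm (j + b0 + b / 16) (1 / 4)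
          (2 * ((2 ^ m : ℕ) : ℝ) ^ a)) m0 m1 (f y) ≤
        ∑ i ∈ range 4, cU81 μ s (L33 K m) y
          (U81 μ s (L33 K m) b0 b mm (2 * ((2 ^ m : ℕ) : ℝ) ^ a1) (2 * ((2 ^ m : ℕ) : ℝ) ^ a) (i + 1) j) m0 m1 f +
          ((2 ^ m : ℕ) : ℝ) ^ (-(4 : ℝ))

/-- **(Y) THE SECOND MOMENTS OF THE FOUR FAMILIES OF THE LEVELS** at the concrete frame. -/
def YmT81 (μ : Measure ℝ) (s : ℝ) (K : ℕ) : Prop := ∀ δ c ν : ℝ, 0 < δ → δ ≤ 1 → 0 < c → c ≤ δ / 64 → 0 < ν → Sml fun a1 => Sml fun a =>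
  Sml fun ι => ∀ᶠ m : ℕ in atTop, ∀ p q i : ℕ, St96 (EE μ s) δ c m p q → i < 2 ^ (m - q) →
    ∀ mm ∈ Ico ((i + 1) * 2 ^ q - 4 * gl46 ι m q) ((i + 1) * 2 ^ q - 3 * gl46 ι m q), ∀ y ∈ ys33 μ s K m, ∀ k ∈ range 4,
      ∫ ω, gm (wm μ s (L33 K m) (Pn (L33 K m) y) ω) (fun x => (∑ j ∈ Rw (R33 ι m) (i * 2 ^ q) ((i + 1) * 2 ^ q),
        U81 μ s (L33 K m) (2 ^ (p - ⌈ι * (m : ℝ)⌉₊)) (2 ^ p) mm (2 * ((2 ^ m : ℕ) : ℝ) ^ a1) (2 * ((2 ^ m : ℕ) : ℝ) ^ a) (k + 1) j y ω x) ^ 2)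
          ∂(Pm μ (L33 K m)) ≤
        ((2 ^ m : ℕ) : ℝ) ^ ν * Y0 (EE μ s) (2 ^ q) (2 ^ p) (2 ^ (p - ⌈ι * (m : ℝ)⌉₊))

end

end Pool.Agent.W_7d29a1_C0.RqB81
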