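import Pool.Agent.W_7d29a1_C0.Rq61F
import Pool.Agent.W_7d29a1_C0.RqR81

/-!
MP_7d29a1_pr, [CURV0] / [C0], leaf E2a, THE REMAINDER (RQ), part G (helper61): **`lbT61` : `LbT81`**, the third part of a row at the concrete
frame.
-/

set_option autoImplicit false
set_option linter.unusedSectionVars false
set_option linter.unusedVariables false

namespace Pool.Agent.W_7d29a1_C0.Rq61

open Finset MeasureTheory Filter Topology Pool.Agent.W_7d29a1_F Pool.Agent.W_7d29a1_X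
open Pool.Agent.W_7d29a1_HS (In)
open Pool.Agent.W_7d29a1_C0 Pool.Agent.W_7d29a1_C0.Mod92
open Pool.Agent.W_7d29a1_C0.Frm33
open Pool.Agent.W_7d29a1_C0.Par92 (Sml)
open Pool.Agent.W_7d29a1_C0.MicE14 (rh rh_nonneg)
open Pool.Agent.W_7d29a1_C0.FlipR4.C4 (ev_exp4)
open Pool.Agent.W_7d29a1_C0.RqB81 (q81 l81 d81 rg81 U81 cU81 LbT81)
open Pool.Agent.W_7d29a1_C0.Rq13 (Rg13 UA13 UB13)
open Pool.W7d29a1.C0 (PP)
open Pool.W7d29a1.C0.O1 (en)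
open Pool.W7d29a1.C0.C45 (cP45)

noncomputable section

/-- The pieces fit. -/
theorem piece61 {b : ℕ} {M : ℝ} (hq : 0 < q81 M) (h : 6 * q81 M ≤ b) : 6 * (q81 M * (l81 b M + 1)) ≤ b := by
  have h1 : 1 ≤ b / (6 * q81 M) := (Nat.one_le_div_iff (by positivity)).2 h
  unfold l81
  rw [Nat.sub_add_cancel h1, ← mul_assoc]
  exact Nat.mul_div_le b (6 * q81 M)

/-- The regions fit. -/
theorem rg_ok61 {b0 b j : ℕ} {M : ℝ} (hq : 0 < q81 M) (h : 6 * q81 M ≤ b0) (hj : b0 ≤ j) : (rg81 b0 b M j).Ok b0 j := by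
  have hp := piece61 hq h
  obtain ⟨X, hX⟩ : ∃ X : ℕ, X = q81 M * (l81 b0 M + 1) := ⟨_, rfl⟩
  rw [← hX] at hp
  have hd : 0 ≤ d81 M := (Real.exp_pos _).le
  have he : ∀ t : ℕ, en t (l81 b0 M) (q81 M) = t + 3 * X := fun t => by
    unfold en
    rw [hX]
    ring
  refine ⟨hd, hd, hd, Or.inl (Nat.le_refl _), ?_, ?_, ?_, ?_, ?_, ?_, ?_, ?_⟩
  · show j - b0 ≤ j - b0 / 2
    omega
  · show en (j - b0 / 2) (l81 b0 M) (q81 M) ≤ j
    rw [he]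
    omega
  · show j - b0 ≤ j - b0
    omega
  · show en (j - b0) (l81 b0 M) (q81 M) ≤ j
    rw [he]
    omega
  · show j ≤ j + b0 / 2
    omega
  · show en (j + b0 / 2) (l81 b0 M) (q81 M) ≤ j + b0
    rw [he]
    omega
  · show j ≤ j
    omega
  · show en j (l81 b0 M) (q81 M) ≤ j + b0
    rw [he]
    omega

/-- The number of the pieces. -/
theorem q_num61 {x : ℝ} (hx : 1 ≤ x) : 20 * x ≤ q81 (2 * x) ∧ ((q81 (2 * x) : ℕ) : ℝ) ≤ 21 * x ∧ 0 < q81 (2 * x) := by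
  have h1 : 10 * (2 * x) ≤ ⌈10 * (2 * x)⌉₊ := Nat.le_ceil _
  have h2 : ((⌈10 * (2 * x)⌉₊ : ℕ) : ℝ) < 10 * (2 * x) + 1 := Nat.ceil_lt_add_one (by linarith)
  unfold q81
  refine ⟨by linarith, by linarith, ?_⟩
  have h3 : (0 : ℝ) < ((⌈10 * (2 * x)⌉₊ : ℕ) : ℝ) := by linarith
  exact_mod_cast h3

section Frame

variable {μ : Measure ℝ} {s : ℝ} [IsProbabilityMeasure μ]

/-- **(T) THE THIRD PART OF A ROW AT THE CONCRETE FRAME.** -/
theorem lbT61 {c₁ C : ℝ} {n₀ : ℕ} (h : In μ s c₁ C n₀) {K : ℕ} (hK : 32 ≤ K) : LbT81 μ s K := by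
  intro κ hκ hκ1
  have hK32 : (32 : ℝ) ≤ K := by exact_mod_cast hK
  have hK0 : (0 : ℝ) < K := by linarith
  refine ⟨κ / 2, by positivity, fun a1 ha1 ha1' => ?_⟩
  obtain ⟨β₀, hβ₀, hlb⟩ := lbE61 h (κ := κ / K) (κ₁ := a1 / K) (by positivity) (by positivity)
  refine ⟨min (κ / 2) (K * β₀ / 2), lt_min (by positivity) (by positivity), fun a ha ha' => ?_⟩
  have ha2 : a ≤ κ / 2 := ha'.trans (min_le_left _ _)
  have ha3 : a ≤ K * β₀ / 2 := ha'.trans (min_le_right _ _)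
  refine ⟨K * β₀, by positivity, fun β hβ hβ' => ⟨1, one_pos, fun γ hγ hγ' => ?_⟩⟩
  obtain ⟨δ', c', hδ', hc', N₀, hN₀⟩ := hlb (a / K) (by positivity) γ hγ
  filter_upwards [ev_L (by omega : 1 ≤ K) N₀, cone33 h hK hδ', ev_exp4 (show 0 < K * c' by positivity) 7,
    ev_n (show 0 < κ / 2 by positivity) 126, ev_n ha 4, ev_n (show 0 < K * β₀ / 2 by positivity) 10, ev_n one_pos 4] with
    m m1 m2 m3 m4 m5 m6 m7 b0 b j mm m0 mt hb0 hb16 hbn hbj hjm hmm hm0 hmt cb e D f hD hf hme y hy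
  obtain ⟨n, hn⟩ : ∃ n : ℝ, n = ((2 ^ m : ℕ) : ℝ) := ⟨_, rfl⟩
  rw [← hn] at m3 m4 m5 m6 m7 hb0 hD ⊢
  rw [Real.rpow_one] at m7
  have hn0 : 0 < n := by linarith
  have hn1 : 1 ≤ n := by linarith
  have hpw : ∀ x : ℝ, ((L33 K m : ℕ) : ℝ) ^ x = n ^ (K * x) := fun x => by rw [L33_pow, hn]
  have hnL : n ≤ ((L33 K m : ℕ) : ℝ) := by
    rw [hn]
    exact_mod_cast L33_ge (by omega) m
  have hdiv : ∀ x : ℝ, ((L33 K m : ℕ) : ℝ) ^ (x / K) = n ^ x := fun x => by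
    rw [hpw]
    congr 1
    field_simp
  have hn8 : n ^ (κ / 2) * n ^ (κ / 2) = n ^ κ := by
    rw [← Real.rpow_add hn0]
    congr 1
    ring
  -- the two scales
  have hsc : ∀ x : ℝ, 0 < x → x ≤ κ / 2 → 1 ≤ n ^ x ∧ 6 * q81 (2 * n ^ x) ≤ b0 := fun x hx hx' => by
    have h1 : (1 : ℝ) ≤ n ^ x := Real.one_le_rpow hn1 hx.le
    refine ⟨h1, ?_⟩
    have h2 := (q_num61 h1).2.1
    have h3 : n ^ x ≤ n ^ (κ / 2) := Real.rpow_le_rpow_of_exponent_le hn1 hx'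
    have h4 : 126 * n ^ (κ / 2) ≤ n ^ (κ / 2) * n ^ (κ / 2) := mul_le_mul_of_nonneg_right m4 (Real.rpow_nonneg hn0.le _)
    have h5 : ((6 * q81 (2 * n ^ x) : ℕ) : ℝ) ≤ (b0 : ℝ) := by
      push_cast
      linarith
    exact_mod_cast h5
  obtain ⟨s1, s2⟩ := hsc a1 ha1 ha1'
  obtain ⟨t1, t2⟩ := hsc a ha ha2
  obtain ⟨u1, u2, u3⟩ := q_num61 s1
  obtain ⟨v1, v2, v3⟩ := q_num61 t1
  have hN1 : ((q81 (2 * n ^ a1) : ℕ) : ℝ) ≤ ((L33 K m : ℕ) : ℝ) := by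
    have h9 : q81 (2 * n ^ a1) ≤ 2 ^ m := by omega
    have h10 : ((q81 (2 * n ^ a1) : ℕ) : ℝ) ≤ ((2 ^ m : ℕ) : ℝ) := Nat.cast_le.2 h9
    rw [← hn] at h10
    exact h10.trans hnL
  have hdd : d81 (2 * n ^ a1) ≤ Real.exp (-((L33 K m : ℕ) : ℝ) ^ (a1 / K)) := by
    rw [hdiv]
    unfold d81
    exact Real.exp_le_exp.2 (by linarith)
  have hy' := mem_Ico.1 (show y ∈ Ico (y33 μ s K m) (y33 μ s K m + M33 m) from hy)
  obtain ⟨c1, c2⟩ := m2.2.2 y (by omega) (by omega)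
  have hpo := piece61 (b := b) v3 (by omega)
  obtain ⟨X, hX⟩ : ∃ X : ℕ, X = q81 (2 * n ^ a) * (l81 b (2 * n ^ a) + 1) := ⟨_, rfl⟩
  rw [← hX] at hpo
  have hpX : 3 * q81 (2 * n ^ a) * (l81 b (2 * n ^ a) + 1) = 3 * X := by
    rw [hX]
    ring
  have hmN : mt ≤ L33 K m := hmt.trans (L33_ge (by omega) m)
  have key := hN₀ (L33 K m) m1 y c1 c2 (B33 β m) b0 b j (by unfold B33; positivity) (by
      rw [hpw]
      unfold B33
      rw [← hn]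
      exact Real.rpow_le_rpow_of_exponent_le hn1 hβ') (by rw [hdiv]; exact hb0) hbj (by omega) (rg81 b0 b (2 * n ^ a1) j)
    (by show j + b0 ≤ j + b0 + b / 16; omega) (rg_ok61 u3 s2 (by omega)) (by
      show ((L33 K m : ℕ) : ℝ) ^ (a1 / K) ≤ ((q81 (2 * n ^ a1) : ℕ) : ℝ)
      rw [hdiv]
      linarith) hN1 hdd hdd hdd (1 / 4) (2 * n ^ a) (by
      rw [inv_le_comm₀ (by linarith) (by norm_num)]
      norm_num
      linarith) (by linarith) (by rw [hdiv]; linarith) (by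
      rw [hpw]
      have h1 : n ^ a ≤ n ^ (K * β₀ / 2) := Real.rpow_le_rpow_of_exponent_le hn1 ha3
      have h2 : n ^ (K * β₀ / 2) * n ^ (K * β₀ / 2) = n ^ (K * β₀) := by
        rw [← Real.rpow_add hn0]
        congr 1
        ring
      have h3 : 10 * n ^ (K * β₀ / 2) ≤ n ^ (K * β₀ / 2) * n ^ (K * β₀ / 2) :=
        mul_le_mul_of_nonneg_right m6 (Real.rpow_nonneg hn0.le _)
      linarith) mm m0 mt cb e D f (by show j + b0 + b / 16 ≤ mm; omega) hmm hm0 hme hmN hf (q81 (2 * n ^ a)) (j - b) (j + b / 2)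
    (l81 b (2 * n ^ a)) (by linarith) (by linarith) (Nat.le_refl _) (by rw [hpX]; omega) (by omega) (by rw [hpX]; omega)
  have e1 : (rg81 b0 b (2 * n ^ a1) j).z = j + b0 + b / 16 := rfl
  rw [e1] at key
  refine key.trans ?_
  have e2 : ∑ i ∈ range 4, cU81 μ s (L33 K m) y (U81 μ s (L33 K m) b0 b mm (2 * n ^ a1) (2 * n ^ a) (i + 1) j) m0 mt f =
      ∫ ω, PP (wm μ s (L33 K m) (Pn (L33 K m) y) ω) (fun x x' => UA13 μ s (L33 K m) (rg81 b0 b (2 * n ^ a1) j) mm (j - b)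
        (l81 b (2 * n ^ a)) (q81 (2 * n ^ a)) (2 * n ^ a) y ω x * rh m0 mt (f y ω) x x') ∂(Pm μ (L33 K m)) +
      ∫ ω, PP (wm μ s (L33 K m) (Pn (L33 K m) y) ω) (fun x x' => UB13 μ s (L33 K m) (rg81 b0 b (2 * n ^ a1) j) mm (j - b)
        (l81 b (2 * n ^ a)) (q81 (2 * n ^ a)) (2 * n ^ a) y ω x * rh m0 mt (f y ω) x x') ∂(Pm μ (L33 K m)) +
      (∫ ω, PP (wm μ s (L33 K m) (Pn (L33 K m) y) ω) (fun x x' => UA13 μ s (L33 K m) (rg81 b0 b (2 * n ^ a1) j) mm (j + b / 2)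
        (l81 b (2 * n ^ a)) (q81 (2 * n ^ a)) (2 * n ^ a) y ω x * rh m0 mt (f y ω) x x') ∂(Pm μ (L33 K m)) +
      ∫ ω, PP (wm μ s (L33 K m) (Pn (L33 K m) y) ω) (fun x x' => UB13 μ s (L33 K m) (rg81 b0 b (2 * n ^ a1) j) mm (j + b / 2)
        (l81 b (2 * n ^ a)) (q81 (2 * n ^ a)) (2 * n ^ a) y ω x * rh m0 mt (f y ω) x x') ∂(Pm μ (L33 K m))) := by
    rw [sum_range_succ, sum_range_succ, sum_range_succ, sum_range_one, ← add_assoc]
    rfl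
  rw [e2]
  refine add_le_add le_rfl ?_
  have hD0 : 0 ≤ D := by
    have hne := ne_Pn c1
    exact (abs_nonneg _).trans (hf.bdd y (fun _ => 0, ∅) Classical.ofNonempty)
  rw [hpw, show (-(4 : ℝ)) = -((4 : ℕ) : ℝ) by norm_num, Real.rpow_neg hn0.le, Real.rpow_natCast]
  calc D * Real.exp (-n ^ (K * c')) ≤ n ^ 3 * (n ^ 7)⁻¹ := mul_le_mul hD m3 (Real.exp_pos _).le (by positivity)
    _ = (n ^ 4)⁻¹ := by
        field_simp

end Frame

end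

end Pool.Agent.W_7d29a1_C0.Rq61
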