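import Pool.Agent.W_7d29a1_C0.Pt4Q72

/-!
MP_7d29a1_pr, [CURV0] / [C0] (helper72), PT4: THE DATA OF THE PRICES `Pk50` AT THE CONCRETE FRAME, parameter free: any level `M` between two
powers of `L`, any smaller exponent `κ'` of the amplification.
-/

set_option autoImplicit false
set_option linter.unusedSectionVars false
set_option linter.unusedVariables false

namespace Pool.Agent.W_7d29a1_C0.Pt450

open MeasureTheory ProbabilityTheory Filter Topology Finset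
open Pool.Agent.W_7d29a1_F Pool.Agent.W_7d29a1_X
open Pool.Agent.W_7d29a1_H (sl)
open Pool.Agent.W_7d29a1_HS (In wd md)
open Pool.Agent.W_7d29a1_HZ (wd' EE')
open Pool.Agent.W_7d29a1_C0.Mod92 (Px Pn wm Pm)
open Pool.Agent.W_7d29a1_C0.P15 (FinB)
open Pool.Agent.W_7d29a1_C0.N51 (mc3 mc3_nonneg)
open Pool.Agent.W_7d29a1_C0.N29 (Pla)
open Pool.Agent.W_7d29a1_C0.Par92 (Est Sml)
open Pool.Agent.W_7d29a1_C0.EvT50 (ev_pw50 ev_exp50)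
open Pool.Agent.W_7d29a1_C0.Frm33
open Pool.W7d29a1.C0 (gm gm_mono gm_nonneg)

noncomputable section

variable {μ : Measure ℝ} {s : ℝ} {N y : ℕ} {ε θ κ κ' e e' M : ℝ}

theorem T2f_mono72 {X X' : ℝ} (hX : X' ≤ X) {d τ1 τ2 V : ℕ} (ω : Env × Finset ℕ) (x : Px (Pn N y)) :
    T2f μ s N y X' d τ1 τ2 V ω x ≤ T2f μ s N y X d τ1 τ2 V ω x :=
  min_le_min le_rfl (mul_le_mul_of_nonneg_right (Real.exp_le_exp.2 hX) (mc3_nonneg _ _))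

/-- A smaller amplification, a larger error. -/
theorem Pk50.mono72 [IsProbabilityMeasure μ] {ys : Finset ℕ} (h : Pk50 μ s ε θ κ N ys M e) (hκ0 : 0 ≤ κ') (hκ : κ' ≤ κ) (he : e ≤ e') :
    Pk50 μ s ε θ κ' N ys M e' where
  N1 := h.N1
  yN := h.yN
  X1 := Real.one_le_rpow (by exact_mod_cast h.N1) hκ0
  ε0 := h.ε0
  e0 := h.e0.trans he
  mix y hy Ps h1 h2 h3 h4 f f1 f2 := (h.mix y hy Ps h1 h2 h3 (fun P hP => dm_mono72 (h4 P hP) (pw_mono h.N1 hκ)) f f1 f2).trans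
    (by linarith)
  ntd y hy R H t1 t2 τ1 τ2 V d r1 r2 a1 a2 a3 a4 a5 a6 a7 a8 a9 f f1 f2 f3 := by
    have k1 := h.ntd y hy R H t1 t2 τ1 τ2 V d r1 r2 a1 a2 a3 a4 a5 a6 a7 a8 a9 f f1 f2 f3
    have wT : Wt50 (T2f μ s N y ((N : ℝ) ^ κ) d τ1 τ2 V) := ⟨meas_T2f, fun ω x => (T2f01 ω x).1, fun ω x => (T2f01 ω x).2⟩
    have k2 : ∫ ω, gm (wm μ s N (Pn N y) ω) (fun x => f ω x * T2f μ s N y ((N : ℝ) ^ κ') d τ1 τ2 V ω x) ∂(Pm μ N) ≤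
        ∫ ω, gm (wm μ s N (Pn N y) ω) (fun x => f ω x * T2f μ s N y ((N : ℝ) ^ κ) d τ1 τ2 V ω x) ∂(Pm μ N) := by
      have := Mod92.ne_Pn (N := N) (y := y) (h.yN y hy)
      refine integral_mono_of_nonneg (Filter.Eventually.of_forall fun ω => ?_)
        (ig_int (h.yN y hy) f1 wT.1 wT.2.1 wT.2.2) (Filter.Eventually.of_forall fun ω => ?_)
      · exact gm_nonneg _ fun x => mul_nonneg (f1.2.1 ω x) (T2f01 ω x).1
      · have hX : (N : ℝ) ^ κ' ≤ (N : ℝ) ^ κ := pw_mono h.N1 hκ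
        refine gm_mono _ fun x => ?_
        exact mul_le_mul_of_nonneg_left (T2f_mono72 (μ := μ) (s := s) hX ω x) (f1.2.1 ω x)
    linarith

/-- **`Pk50` AT THE FRAME, PARAMETER FREE.** -/
theorem pkE72 [IsProbabilityMeasure μ] {c₀ C₀ : ℝ} {n₀ : ℕ} (h : In μ s c₀ C₀ n₀) {K : ℕ} (hK : 32 ≤ K) {ε θ : ℝ} (hε : 0 < ε)
    (hθ : 0 < θ) : ∃ κ : ℝ, 0 < κ ∧ ∀ κ' : ℝ, 0 < κ' → κ' ≤ κ → ∀ A a : ℝ, 0 < a → ∀ᶠ m : ℕ in atTop, ∀ M : ℝ,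
    ((L33 K m : ℕ) : ℝ) ^ a ≤ M → M ≤ ((L33 K m : ℕ) : ℝ) ^ κ' → ∃ e : ℝ, 0 ≤ e ∧ e ≤ ((L33 K m : ℕ) : ℝ) ^ (-A) ∧
      Pk50 μ s ε θ κ' (L33 K m) (ys33 μ s K m) M e := by
  obtain ⟨δ, κ, c₂, hδ, hκ, hc₂, N₀, hP⟩ := pk50_of (s := s) h ε θ hε hθ
  refine ⟨κ, hκ, fun κ' hκ' hκκ A a ha => ?_⟩
  have tL : Tendsto (fun m : ℕ => L33 K m) atTop atTop := tend_L (by omega)
  have e1 := tL.eventually (ev_pw50 (show (0 : ℝ) < a from ha) 8)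
  have e3 := tL.eventually (ev_exp50 32 A one_pos ha)
  have e4 := tL.eventually (ev_exp50 2 A one_pos hc₂)
  filter_upwards [cone33 h hK hδ, ev_L (by omega : 1 ≤ K) (max N₀ 1), e1, e3, e4] with m h1 h2 h3 h5 h6 M hM1 hM2
  obtain ⟨L, hL⟩ : ∃ L, L = L33 K m := ⟨_, rfl⟩
  rw [← hL] at h1 h2 h3 h5 h6 hM1 hM2 ⊢
  have hL1 : 1 ≤ L := (le_max_right N₀ 1).trans h2
  rw [Real.rpow_zero, mul_one] at h3
  rw [one_mul] at h5 h6
  have p1 := Real.exp_pos (-M)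
  have p2 := Real.exp_pos (-(L : ℝ) ^ c₂)
  have p3 : Real.exp (-M) ≤ Real.exp (-(L : ℝ) ^ a) := Real.exp_le_exp.2 (neg_le_neg hM1)
  refine ⟨Real.exp (-(L : ℝ) ^ c₂) + 16 * Real.exp (-M), by positivity, by linarith, ?_⟩
  refine (hP L ((le_max_left _ _).trans h2) (ys33 μ s K m) (fun y hy => ?_) M (h3.trans hM1) (hM2.trans (pw_mono hL1 hκκ))).mono72
    hκ'.le hκκ le_rfl
  have hy1 := mem_Ico.1 (show y ∈ Ico (y33 μ s K m) (y33 μ s K m + M33 m) from hy)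
  exact h1.2.2 y (by omega) (by omega)

end

end Pool.Agent.W_7d29a1_C0.Pt450
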