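import Pool.Agent.W_7d29a1_C0.Pt4J50
import Pool.Agent.W_7d29a1_C0.Pt4F82

/-!
CURV0 (MP_7d29a1_pr), leaf E2a, the remainder (helper82): **THE SECOND MOMENT OF THE SUM OF THE THIRD TERMS OF THE ROWS OF A BLOCK**, without
an outer tie. `sq82`: from the pair prices; `y82`: `∫ gm ((∑ (j ∈ S), U j) ^ 2)` is at most a small power times
`r ^ 2 / (E_b0 ^ 2 E_b ^ 2) + r ^ 2 / (E_b0 ^ 2 E_r) + r b / E_b0`.
-/

set_option autoImplicit false
set_option linter.unusedSectionVars false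
set_option linter.unusedVariables false

namespace Pool.Agent.W_7d29a1_C0.Pt4N82

open Finset Filter Topology MeasureTheory
open Pool.Agent.W_7d29a1_F
open Pool.Agent.W_7d29a1_H (EE sl)
open Pool.Agent.W_7d29a1_HS (In wd)
open Pool.Agent.W_7d29a1_HZ (wd' EE')
open Pool.Agent.W_7d29a1_C0
open Pool.Agent.W_7d29a1_C0.GS4 (Phi sum_Phi_le)
open Pool.Agent.W_7d29a1_C0.Mod92 (Px Pn wm Pm avy avy_mono avy_const Fam int_bdd meas_gm meas_wm ne_Pn)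
open Pool.Agent.W_7d29a1_C0.T93 (rdist dist_sum_le)
open Pool.Agent.W_7d29a1_C0.Pt450
open Pool.W7d29a1.C0 (gm gz gm_nonneg)

noncomputable section

section Sq

variable {μ : Measure ℝ} [IsProbabilityMeasure μ] {s : ℝ} {N y : ℕ}

theorem gm_sum82 {X : Type*} [Fintype X] {ι : Type*} (w : X → ℝ) (T : Finset ι) (f : ι → X → ℝ) :
    gm w (fun S => ∑ j ∈ T, f j S) = ∑ j ∈ T, gm w (f j) := by
  unfold gm
  rw [← sum_div]
  congr 1
  rw [sum_comm]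
  exact sum_congr rfl fun x _ => by rw [mul_sum]

/-- **The second moment from the prices of the pairs of rows.** -/
theorem sq82 (hy : y ≤ N) {S : Finset ℕ} {c r : ℕ} (hS : ∀ j ∈ S, c ≤ j ∧ j < c + r) {U : ℕ → Fn N y}
    (U0 : ∀ j ∈ S, ∀ ω x, 0 ≤ U j ω x) (U1 : ∀ j ∈ S, ∀ ω x, U j ω x ≤ 1) (Um : ∀ j ∈ S, ∀ x, Measurable fun ω => U j ω x)
    {φ : ℕ → ℝ} (hφ : ∀ D, 0 ≤ φ D)
    (hp : ∀ j ∈ S, ∀ k ∈ S, ∫ ω, gm (wm μ s N (Pn N y) ω) (fun x => U j ω x * U k ω x) ∂(Pm μ N) ≤ φ (rdist j k)) :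
    ∫ ω, gm (wm μ s N (Pn N y) ω) (fun x => (∑ j ∈ S, U j ω x) ^ 2) ∂(Pm μ N) ≤ S.card * (2 * ∑ D ∈ range r, φ D) := by
  have := ne_Pn (N := N) hy
  have hI : ∀ j ∈ S, ∀ k ∈ S, Integrable (fun ω => gm (wm μ s N (Pn N y) ω) fun x => U j ω x * U k ω x) (Pm μ N) := fun j hj k hk =>
    int_bdd (M := 1) (meas_gm meas_wm fun x => (Um j hj x).mul (Um k hk x)) fun ω => by
      have h0 : ∀ x, 0 ≤ U j ω x * U k ω x := fun x => mul_nonneg (U0 j hj ω x) (U0 k hk ω x)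
      have h1 : ∀ x, U j ω x * U k ω x ≤ 1 := fun x => mul_le_one₀ (U1 j hj ω x) (U0 k hk ω x) (U1 k hk ω x)
      rw [abs_of_nonneg (gm_nonneg _ h0)]
      exact (Pool.W7d29a1.C0.gm_mono _ (g := fun _ => 1) h1).trans_eq (Pool.W7d29a1.C0.gm_const _ _)
  have e1 : ∀ ω, gm (wm μ s N (Pn N y) ω) (fun x => (∑ j ∈ S, U j ω x) ^ 2) =
      ∑ j ∈ S, ∑ k ∈ S, gm (wm μ s N (Pn N y) ω) (fun x => U j ω x * U k ω x) := fun ω => by
    have e2 : (fun x => (∑ j ∈ S, U j ω x) ^ 2) = fun x => ∑ j ∈ S, ∑ k ∈ S, U j ω x * U k ω x := by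
      funext x
      rw [sq, sum_mul_sum]
    rw [e2, gm_sum82]
    exact sum_congr rfl fun j _ => gm_sum82 _ _ _
  simp only [e1]
  rw [integral_finsetSum _ fun j hj => integrable_finsetSum _ fun k hk => hI j hj k hk]
  have e3 : ∀ j ∈ S, ∫ ω, ∑ k ∈ S, gm (wm μ s N (Pn N y) ω) (fun x => U j ω x * U k ω x) ∂(Pm μ N) =
      ∑ k ∈ S, ∫ ω, gm (wm μ s N (Pn N y) ω) (fun x => U j ω x * U k ω x) ∂(Pm μ N) := fun j hj =>
    integral_finsetSum _ fun k hk => hI j hj k hk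
  rw [sum_congr rfl e3]
  exact dist_sum_le hS hφ hp

end Sq

/-! ### The numbers -/

section Num

variable {μ : Measure ℝ} {s : ℝ} {N : ℕ} {ε Rr e A : ℝ} {E : ℕ → ℝ} {b b0 l r : ℕ}

/-- **The sum over the distances**, no outer price. -/
theorem ynum82 (H : St82 μ s N ε Rr E A 1 1 b l r) (hE : ∀ k, 1 ≤ E k) (he : 0 ≤ e) {K : ℝ} (hK : 1 ≤ K)
    (hpow : ∀ t r : ℕ, 1 ≤ t → t ≤ r → E r ≤ K * Real.sqrt ((r : ℝ) / t) * E t) (hb : 1 ≤ b) (hbr : b ≤ r) (h0 : E b0 ≤ E b)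
    {m : ℝ} (hm0 : 0 ≤ m) (hm : m ≤ r) :
    m * (2 * ∑ D ∈ range r, phT μ s N ε Rr e 1 b l D) ≤
      134 * K * A ^ 10 * ((r : ℝ) ^ 2 / (E b0 ^ 2 * E b ^ 2) + (r : ℝ) ^ 2 / (E b0 ^ 2 * E r) + r * b / E b0) +
        2 * r ^ 2 * (3 * e + 23 * er N ε Rr e) := by
  obtain ⟨x, hx⟩ : ∃ x : ℝ, x = E b0 := ⟨_, rfl⟩
  obtain ⟨z, hz⟩ : ∃ z : ℝ, z = E b := ⟨_, rfl⟩
  obtain ⟨v, hv⟩ : ∃ v : ℝ, v = E r := ⟨_, rfl⟩
  have hx1 : 1 ≤ x := by rw [hx]; exact hE _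
  have hz1 : 1 ≤ z := by rw [hz]; exact hE _
  have hv1 : 1 ≤ v := by rw [hv]; exact hE _
  have hxz : x ≤ z := by rw [hx, hz]; exact h0
  have hx0 : 0 < x := by linarith
  have hz0 : 0 < z := by linarith
  have hv0 : 0 < v := by linarith
  have hA := H.A16
  have hA0 : 0 < A := by linarith
  have er0 : 0 ≤ er N ε Rr e := by
    have := H.R0
    unfold er
    positivity
  have hφ : ∀ D ∈ range r, phT μ s N ε Rr e 1 b l D ≤ Phi E (A ^ 10 / z) 0 (A ^ 10 / z ^ 2) (A ^ 10 / z ^ 4 + (3 * e + 23 * er N ε Rr e))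
      (64 * b) b b D := fun D hD => by
    refine (phT_le82 H hE he D (mem_range.1 hD)).trans (le_of_eq ?_)
    unfold Phi
    rw [← hz]
    have a10 : (A ^ 2) ^ 5 = A ^ 10 := by ring
    rw [a10, one_mul, one_mul, one_mul]
    have e1 : ∀ t : ℝ, A ^ 10 * (1 / t) = A ^ 10 / t := fun t => by ring
    rw [e1, e1, e1]
    split_ifs <;> simp <;> ring
  have hs := (sum_le_sum hφ).trans (sum_Phi_le (fun k => lt_of_lt_of_le one_pos (hE k)) (by linarith) hpow (A := A ^ 10 / z) (G := 0)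
    (H := A ^ 10 / z ^ 2) (C := A ^ 10 / z ^ 4 + (3 * e + 23 * er N ε Rr e)) (l := 64 * b) (s := b) (s' := b) (L := r) (by positivity)
    le_rfl (by positivity) hb le_rfl hbr)
  rw [← hv] at hs
  rw [← hx, ← hz, ← hv]
  have hr0 : (0 : ℝ) ≤ r := Nat.cast_nonneg _
  have hb0 : (0 : ℝ) ≤ b := Nat.cast_nonneg _
  have hsum0 : 0 ≤ ∑ D ∈ range r, phT μ s N ε Rr e 1 b l D := sum_nonneg fun D _ => phT_nonneg zero_le_one he H.R0 b l D
  have h1 : m * (2 * ∑ D ∈ range r, phT μ s N ε Rr e 1 b l D) ≤ r * (2 * (((64 * b : ℕ) : ℝ) * (A ^ 10 / z) + 3 * K * 0 * (b / E b) +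
      3 * K * (A ^ 10 / z ^ 2) * (r / v) + r * (A ^ 10 / z ^ 4 + (3 * e + 23 * er N ε Rr e)))) :=
    mul_le_mul hm (mul_le_mul_of_nonneg_left hs (by norm_num)) (by positivity) hr0
  refine h1.trans ?_
  have t1 : (r : ℝ) * b * (A ^ 10 / z) ≤ A ^ 10 * (r * b / x) := by
    have : A ^ 10 / z ≤ A ^ 10 / x := div_le_div_of_nonneg_left (by positivity) hx0 hxz
    calc (r : ℝ) * b * (A ^ 10 / z) ≤ r * b * (A ^ 10 / x) := mul_le_mul_of_nonneg_left this (by positivity)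
      _ = _ := by ring
  have t2 : (r : ℝ) * ((A ^ 10 / z ^ 2) * (r / v)) ≤ A ^ 10 * ((r : ℝ) ^ 2 / (x ^ 2 * v)) := by
    have : A ^ 10 / z ^ 2 ≤ A ^ 10 / x ^ 2 :=
      div_le_div_of_nonneg_left (by positivity) (by positivity) (pow_le_pow_left₀ hx0.le hxz 2)
    calc (r : ℝ) * ((A ^ 10 / z ^ 2) * (r / v)) ≤ r * ((A ^ 10 / x ^ 2) * (r / v)) :=
          mul_le_mul_of_nonneg_left (mul_le_mul_of_nonneg_right this (by positivity)) hr0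
      _ = _ := by field_simp
  have t3 : (r : ℝ) * (r * (A ^ 10 / z ^ 4)) ≤ A ^ 10 * ((r : ℝ) ^ 2 / (x ^ 2 * z ^ 2)) := by
    have : A ^ 10 / z ^ 4 ≤ A ^ 10 / (x ^ 2 * z ^ 2) := by
      refine div_le_div_of_nonneg_left (by positivity) (by positivity) ?_
      calc x ^ 2 * z ^ 2 ≤ z ^ 2 * z ^ 2 := mul_le_mul_of_nonneg_right (pow_le_pow_left₀ hx0.le hxz 2) (by positivity)
        _ = z ^ 4 := by ring
    calc (r : ℝ) * (r * (A ^ 10 / z ^ 4)) ≤ r * (r * (A ^ 10 / (x ^ 2 * z ^ 2))) := by gcongr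
      _ = _ := by field_simp
  have p1 : 0 ≤ A ^ 10 * (r * b / x) := by positivity
  have p2 : 0 ≤ A ^ 10 * ((r : ℝ) ^ 2 / (x ^ 2 * v)) := by positivity
  have p3 : 0 ≤ A ^ 10 * ((r : ℝ) ^ 2 / (x ^ 2 * z ^ 2)) := by positivity
  have e1 : (r : ℝ) * (2 * (((64 * b : ℕ) : ℝ) * (A ^ 10 / z) + 3 * K * 0 * (b / E b) +
      3 * K * (A ^ 10 / z ^ 2) * (r / v) + r * (A ^ 10 / z ^ 4 + (3 * e + 23 * er N ε Rr e)))) =
      128 * (r * b * (A ^ 10 / z)) + 6 * K * (r * ((A ^ 10 / z ^ 2) * (r / v))) + 2 * (r * (r * (A ^ 10 / z ^ 4))) +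
        2 * r ^ 2 * (3 * e + 23 * er N ε Rr e) := by
    push_cast
    ring
  rw [e1]
  have e2 : 134 * K * A ^ 10 * ((r : ℝ) ^ 2 / (x ^ 2 * z ^ 2) + (r : ℝ) ^ 2 / (x ^ 2 * v) + r * b / x) =
      134 * K * (A ^ 10 * ((r : ℝ) ^ 2 / (x ^ 2 * z ^ 2))) + 134 * K * (A ^ 10 * ((r : ℝ) ^ 2 / (x ^ 2 * v))) +
        134 * K * (A ^ 10 * (r * b / x)) := by ring
  rw [e2]
  have q1 : 128 * (r * b * (A ^ 10 / z)) ≤ 134 * K * (A ^ 10 * (r * b / x)) := by nlinarith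
  have q2 : 6 * K * (r * ((A ^ 10 / z ^ 2) * (r / v))) ≤ 134 * K * (A ^ 10 * ((r : ℝ) ^ 2 / (x ^ 2 * v))) := by
    have : 6 * K * (r * ((A ^ 10 / z ^ 2) * (r / v))) ≤ 6 * K * (A ^ 10 * ((r : ℝ) ^ 2 / (x ^ 2 * v))) :=
      mul_le_mul_of_nonneg_left t2 (by linarith)
    nlinarith
  have q3 : 2 * (r * (r * (A ^ 10 / z ^ 4))) ≤ 134 * K * (A ^ 10 * ((r : ℝ) ^ 2 / (x ^ 2 * z ^ 2))) := by nlinarith
  linarith

end Num

/-! ### The theorem -/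

section Y

variable {μ : Measure ℝ} [IsProbabilityMeasure μ] {s c₀ C₀ : ℝ} {n₀ : ℕ}

/-- **THE SECOND MOMENT OF THE SUM OF THE ROWS OF A BLOCK.** `Z` = the ratio of the scale `b` of the rows and the length `l` of the lanes. -/
theorem y82 (h : In μ s c₀ C₀ n₀) : ∃ K₁ : ℝ, 1 ≤ K₁ ∧ ∀ (ε θ κ M e : ℝ) (N : ℕ) (ys : Finset ℕ), Pk50 μ s ε θ κ N ys M e →
    ∀ (S : Finset ℕ) (zf oc b b0 l lo l1 l2 q H c r : ℕ) (od ou ov g0 g1 t1 t2 z : ℕ → ℕ),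
    Geo50 S N zf oc b l lo l1 l2 q H od ou ov g0 g1 t1 t2 z → 1 ≤ l → (N : ℝ) ^ θ ≤ l → H ≤ 3 * b → b0 ≤ b → b ≤ r →
    (∀ j ∈ S, c ≤ j ∧ j < c + r) → ∀ Z : ℝ, (b : ℝ) ≤ Z * l → 3 * (q : ℝ) ≤ (N : ℝ) ^ κ → ∀ dd e1 d3 : ℝ, Real.exp (-(N : ℝ) ^ κ) ≤ dd →
    Real.exp (-(N : ℝ) ^ κ) ≤ e1 → Real.exp (-(N : ℝ) ^ κ) ≤ d3 → ∀ y ∈ ys, ∀ (U Go : ℕ → Fn N y)
    (Bo : ℕ → Env × Finset ℕ → Px (Pn N y) → Prop),
    Fu50 μ s N y ((N : ℝ) ^ κ) M S oc lo l1 l2 q od ou ov g0 g1 t1 t2 z dd e1 d3 U Go Bo →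
    ∫ ω, gm (wm μ s N (Pn N y) ω) (fun x => (∑ j ∈ S, U j ω x) ^ 2) ∂(Pm μ N) ≤
      K₁ * (Z * (N : ℝ) ^ ε) ^ 10 * ((r : ℝ) ^ 2 / (EE' μ s b0 ^ 2 * EE' μ s b ^ 2) + (r : ℝ) ^ 2 / (EE' μ s b0 ^ 2 * EE' μ s r) +
        r * b / EE' μ s b0) + 2 * r ^ 2 * (3 * e + 23 * er N ε (K₁ * Z) e) := by
  obtain ⟨aw, Kw, haw, haw1, hKw, hw⟩ := Pool.Agent.W_7d29a1_HZ.wd'_pow h
  obtain ⟨aE, KE, haE, haE1, hKE, hE⟩ := Pool.Agent.W_7d29a1_HZ.EE'_pow h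
  obtain ⟨k, hk⟩ : ∃ k : ℝ, k = 16 * (3 * Kw ^ 2 * KE) := ⟨_, rfl⟩
  have hKw2 : 1 ≤ Kw ^ 2 := one_le_pow₀ hKw
  have hk1 : 48 ≤ k := by
    rw [hk]
    nlinarith
  have hkw : 3 * Kw ^ 2 ≤ k := by
    rw [hk]
    nlinarith
  have hkE : 12 * KE ≤ k := by
    rw [hk]
    nlinarith
  have hK1 : k ≤ 134 * KE * k ^ 10 := by
    have h1 : k ≤ k ^ 10 := le_self_pow₀ (by linarith) (by norm_num)
    have h2 : 0 < k ^ 10 := by positivity
    nlinarith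
  refine ⟨134 * KE * k ^ 10, by linarith, ?_⟩
  intro ε θ κ M e N ys hP S zf oc b b0 l lo l1 l2 q H c r od ou ov g0 g1 t1 t2 z G hl1 hl hH hb0 hbr hS Z hZ hq dd e1 d3 hdd he1 hd3 y hy
    U Go Bo hF
  have hN1 : (1 : ℝ) ≤ N := by exact_mod_cast hP.N1
  have hNε : 1 ≤ (N : ℝ) ^ ε := Real.one_le_rpow hN1 hP.ε0
  have hl0 : (0 : ℝ) < l := by exact_mod_cast hl1
  have hlb : (l : ℝ) ≤ b := by exact_mod_cast G.lb
  have hZ1 : 1 ≤ Z := by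
    by_contra hh
    push Not at hh
    nlinarith
  have hEmono : ∀ {i j : ℕ}, i ≤ j → EE' μ s i ≤ EE' μ s j := fun hij => Pool.Agent.W_7d29a1_HZ.ZE.EE'_mono hij
  have hE1 : ∀ i, 1 ≤ EE' μ s i := fun i => le_max_left _ _
  obtain ⟨A, hA⟩ : ∃ A : ℝ, A = k * (Z * (N : ℝ) ^ ε) := ⟨_, rfl⟩
  have hZN : 1 ≤ Z * (N : ℝ) ^ ε := one_le_mul_of_one_le_of_one_le hZ1 hNε
  have hZA : k * Z ≤ A := by
    rw [hA]
    have : k * Z ≤ k * Z * (N : ℝ) ^ ε := le_mul_of_one_le_right (by positivity) hNε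
    linarith
  have hNA : k * (N : ℝ) ^ ε ≤ A := by
    rw [hA]
    have : (N : ℝ) ^ ε ≤ Z * (N : ℝ) ^ ε := le_mul_of_one_le_left (by linarith) hZ1
    exact mul_le_mul_of_nonneg_left this (by linarith)
  have hkA : k ≤ A := (le_mul_of_one_le_right (by linarith) hZ1).trans hZA
  obtain ⟨R, hR⟩ : ∃ R : ℝ, R = 3 * Kw ^ 2 * Z := ⟨_, rfl⟩
  have hR1 : 1 ≤ R := by
    rw [hR]
    nlinarith
  have hRA : R ≤ A := by
    rw [hR]
    exact (mul_le_mul_of_nonneg_right hkw (by linarith)).trans hZA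
  have hwR : ∀ i : ℕ, 1 ≤ i → i ≤ H → wd' μ s i ≤ R * wd' μ s l := fun i _ hi => by
    rw [hR]
    exact wl82 haw haw1 hKw hw hl1 G.lb hZ i (hi.trans hH)
  have hsq : ∀ t : ℝ, 1 ≤ t → Real.sqrt t ≤ t := fun t ht => by
    rw [Real.sqrt_le_left (by linarith)]
    nlinarith
  have hpow : ∀ t r : ℕ, 1 ≤ t → t ≤ r → EE' μ s r ≤ KE * Real.sqrt ((r : ℝ) / t) * EE' μ s t := fun t r ht htr => (hE t r ht htr).2.2
  have H82 : St82 μ s N ε R (EE' μ s) A 1 1 b l r := by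
    refine ⟨by linarith, by linarith, hRA, zero_le_one, one_pos, by rw [div_one]; linarith, ?_, ?_, fun D hD hDr => ?_⟩
    · unfold po
      have hEl := hE1 l
      have hEb := hE1 b
      have h1 := hpow l b hl1 G.lb
      have h2 : Real.sqrt ((b : ℝ) / l) ≤ Z := by
        have h3 : (b : ℝ) / l ≤ Z := by
          rw [div_le_iff₀ hl0]
          exact hZ
        have h4 : (1 : ℝ) ≤ b / l := by
          rw [le_div_iff₀ hl0, one_mul]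
          exact hlb
        exact (hsq _ h4).trans h3
      have h5 : EE' μ s b ≤ KE * Z * EE' μ s l := h1.trans (by gcongr)
      rw [← div_eq_mul_inv, div_le_div_iff₀ (by linarith) (by linarith)]
      calc (N : ℝ) ^ ε * EE' μ s b ≤ (N : ℝ) ^ ε * (KE * Z * EE' μ s l) := mul_le_mul_of_nonneg_left h5 (by linarith)
        _ = KE * (Z * (N : ℝ) ^ ε) * EE' μ s l := by ring
        _ ≤ k * (Z * (N : ℝ) ^ ε) * EE' μ s l := by
            have : KE ≤ k := by linarith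
            gcongr
        _ = A * EE' μ s l := by rw [hA]
    · exact (le_mul_of_one_le_left (by linarith) (by linarith : (1 : ℝ) ≤ k)).trans hNA
    · unfold po
      have hb1 := G.b1
      have hD1 : 1 ≤ D / 64 := by omega
      have h1 := hpow (D / 64) D hD1 (Nat.div_le_self _ _)
      have h2 : Real.sqrt ((D : ℝ) / ((D / 64 : ℕ) : ℝ)) ≤ 12 := by
        have h3 : (0 : ℝ) < ((D / 64 : ℕ) : ℝ) := by exact_mod_cast hD1
        have h4 : (D : ℝ) ≤ 144 * ((D / 64 : ℕ) : ℝ) := by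
          exact_mod_cast (by omega : D ≤ 144 * (D / 64))
        rw [Real.sqrt_le_left (by norm_num), div_le_iff₀ h3]
        linarith
      have hEl := hE1 (D / 64)
      have hEb := hE1 D
      have h5 : EE' μ s D ≤ 12 * KE * EE' μ s (D / 64) := by
        refine h1.trans (mul_le_mul_of_nonneg_right ?_ (by linarith))
        nlinarith
      rw [← div_eq_mul_inv, div_le_div_iff₀ (by linarith) (by linarith)]
      calc (N : ℝ) ^ ε * EE' μ s D ≤ (N : ℝ) ^ ε * (12 * KE * EE' μ s (D / 64)) := mul_le_mul_of_nonneg_left h5 (by linarith)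
        _ = 12 * KE * (N : ℝ) ^ ε * EE' μ s (D / 64) := by ring
        _ ≤ k * (N : ℝ) ^ ε * EE' μ s (D / 64) := by gcongr
        _ ≤ A * EE' μ s (D / 64) := by gcongr
  have key := sq82 (μ := μ) (s := s) (hP.yN y hy) hS hF.U0 hF.U1 hF.Um (φ := phT μ s N ε R e 1 b l)
    (fun D => phT_nonneg zero_le_one hP.e0 (by linarith) b l D) (pair50_one hP G hl hR1 hwR hq hdd he1 hd3 hy hF)
  have hcard : (S.card : ℝ) ≤ r := by
    have h6 : S.card ≤ (Ico c (c + r)).card := card_le_card fun j hj => mem_Ico.2 (hS j hj)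
    rw [Nat.card_Ico, Nat.add_sub_cancel_left] at h6
    exact_mod_cast h6
  have hnum := ynum82 H82 hE1 hP.e0 hKE hpow G.b1 hbr (hEmono hb0) (Nat.cast_nonneg S.card) hcard
  refine key.trans (hnum.trans (add_le_add ?_ ?_))
  · refine mul_le_mul_of_nonneg_right (le_of_eq ?_) ?_
    · rw [hA]
      ring
    · have a1 := hE1 b0
      have a2 := hE1 b
      have a3 := hE1 r
      positivity
  · have hRK : R ≤ 134 * KE * k ^ 10 * Z := by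
      rw [hR]
      exact mul_le_mul_of_nonneg_right (hkw.trans hK1) (by linarith)
    have he0 := hP.e0
    have h1 : er N ε R e ≤ er N ε (134 * KE * k ^ 10 * Z) e := by
      unfold er
      have : R ^ 4 ≤ (134 * KE * k ^ 10 * Z) ^ 4 := pow_le_pow_left₀ (by linarith) hRK 4
      gcongr
    have h2 : (0 : ℝ) ≤ 2 * (r : ℝ) ^ 2 := by positivity
    exact mul_le_mul_of_nonneg_left (by linarith) h2

end Y

end

end Pool.Agent.W_7d29a1_C0.Pt4N82
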