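import Pool.Agent.W_7d29a1_C0.RqG81
import Pool.Agent.W_7d29a1_C0.Pt4Y82
import Pool.Agent.W_7d29a1_C0.Pt4R72

/-!
CURV0 (MP_7d29a1_pr), leaf E2a, the remainder, END (helper81): **THE SECOND MOMENTS OF THE FAMILIES OF THE LEVELS** at the concrete frame
(`ymT81 : YmT81`), from the closed second moment `y82` (helper82, helper50) and the prices at the frame (`pkE72`, helper72).
-/

set_option autoImplicit false
set_option linter.unusedSectionVars false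
set_option linter.unusedVariables false

namespace Pool.Agent.W_7d29a1_C0.RqB81

open Finset MeasureTheory Filter Topology Pool.Agent.W_7d29a1_F Pool.Agent.W_7d29a1_X Pool.Agent.W_7d29a1_H
open Pool.Agent.W_7d29a1_HS (In)
open Pool.Agent.W_7d29a1_HZ (wd' EE')
open Pool.Agent.W_7d29a1_C0 Pool.Agent.W_7d29a1_C0.Mod92 Pool.Agent.W_7d29a1_C0.Asm96 Pool.Agent.W_7d29a1_C0.CrA44
open Pool.Agent.W_7d29a1_C0.Frm33 Pool.Agent.W_7d29a1_C0.EstC46 Pool.Agent.W_7d29a1_C0.EstD44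
open Pool.Agent.W_7d29a1_C0.Par92 (Sml Est)
open Pool.Agent.W_7d29a1_C0.E2aE81
open Pool.Agent.W_7d29a1_C0.T72 (ind72)
open Pool.Agent.W_7d29a1_C0.E2S39 (i0 i1 dom_rp)
open Pool.Agent.W_7d29a1_C0.P86 (Dom Ty)
open Pool.Agent.W_7d29a1_C0.Rq13 (UM13 UA13 UB13 UL13 Rg13 UL_nonneg13 UL_le_one13 meas_UL13)
open Pool.Agent.W_7d29a1_C0.Swap57 (NI)
open Pool.Agent.W_7d29a1_C0.Pt450
open Pool.Agent.W_7d29a1_C0.Pt4N82 (y82)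
open Pool.W7d29a1.C0 Pool.W7d29a1.C0.VT31
open Pool.W7d29a1.C0.R43 (Rp mI)
open Pool.W7d29a1.C0.O1 (okE en)

noncomputable section

variable {μ : Measure ℝ} {s : ℝ} {N : ℕ}

/-- The event of the own pieces is measurable. -/
theorem meas_rp81 {y : ℕ} (m τ l qo : ℕ) (M : ℝ) (x : Px (Pn N y)) :
    Measurable fun ω => ind72 (fun ω => Rp (wm μ s N (Pn N y) ω) (pJ 0 m) τ l qo M) ω x := by
  classical
  unfold ind72
  refine Measurable.ite ?_ measurable_const measurable_const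
  have e1' : {ω : Env × Finset ℕ | Rp (wm μ s N (Pn N y) ω) (pJ 0 m) τ l qo M x} =
      ⋃ n ∈ range (3 * qo), {ω : Env × Finset ℕ | Real.exp (-(7 * M)) < mI (wm μ s N (Pn N y) ω) (pJ 0 m)
        (Pool.W7d29a1.C0.R43.st τ l n) (Pool.W7d29a1.C0.R43.st τ l n + l) x} := by
    ext ω
    simp only [Set.mem_ofPred_eq, Set.mem_iUnion, mem_range, exists_prop]
    rfl
  rw [e1']
  refine Finset.measurableSet_biUnion _ fun n _ => measurableSet_lt measurable_const ?_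
  exact meas_cE (w := fun ω : Env × Finset ℕ => wm μ s N (Pn N y) ω) (fun S => meas_wm S) (f := fun _ => NI _ _ x)
    (fun _ => measurable_const) _ x

/-- **The functionals of the levels are admissible.** -/
theorem fu81 {y : ℕ} {X M : ℝ} (hX : 0 ≤ X) {S : Finset ℕ} {mm q l lo qo : ℕ} {dd : ℝ} {g0 g1 t1 t2 z ou ov : ℕ → ℕ} {M₂ : ℝ}
    (hov : ∀ j ∈ S, ov j ≤ mm) (hV : ∀ j ∈ S, ou j + 3 * qo * (lo + 1) ≤ ov j) (hq : (3 * qo : ℝ) ≤ X) (hM : 7 * M₂ ≤ X) :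
    Fu50 μ s N y X M S 0 lo l l q (fun _ => mm) ou ov g0 g1 t1 t2 z dd dd dd
      (fun j => UL13 μ s N (z j) q dd dd dd (g0 j) (g1 j) (t1 j) l (t2 j) l mm (ou j) lo qo M₂ y)
      (fun j => ind72 fun ω => Rp (wm μ s N (Pn N y) ω) (pJ 0 mm) (ou j) lo qo M₂) (fun _ _ _ => False) where
  U0 j hj ω x := UL_nonneg13 y ω x
  U1 j hj ω x := UL_le_one13 y ω x
  Um j hj x := meas_UL13 y x
  ok j hj ω x h h' := h (by
    unfold UL13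
    have e1 : ind72 (fun ω x => ¬ okE (wm μ s N (Pn N y) ω) (pJ 0 (z j)) (fun _ => False) q dd dd dd (g0 j) (g1 j) (t1 j) l (t2 j) l x) ω x =
        0 := if_neg (not_not.2 h')
    rw [e1, zero_mul])
  ow j hj ω x _ := mul_le_of_le_one_left (i0 _ _ _) (i1 _ _ _)
  dG j hj := ⟨Ty.L, dom_rp hX (Nat.zero_le _) (hov j hj) le_rfl (hV j hj) (by exact_mod_cast hq) hM⟩
  mG j hj x := meas_rp81 mm (ou j) lo qo M₂ x

/-- The geometry of the regions: the four cases. -/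
theorem gm81 {S : Finset ℕ} {zf mm b0 b l lo q qo : ℕ} {ou ov t1 t2 : ℕ → ℕ} (hb : 16 * b0 ≤ b) (hb0 : 1 ≤ b0) (hq : 1 ≤ q)
    (hfit : 6 * q * (l + 1) ≤ b0) (hlo : l ≤ lo) (hfo : 6 * qo * (lo + 1) ≤ b) (hmz : mm ≤ zf) (hzN : zf ≤ N)
    (hS : ∀ j ∈ S, b < j ∧ j + b ≤ mm) (hA : (∀ j ∈ S, t1 j = j - b0 / 2 ∧ t2 j = j - b0) ∨ ∀ j ∈ S, t1 j = j + b0 / 2 ∧ t2 j = j)
    (hO : (∀ j ∈ S, ou j = j - b ∧ ov j = j - b / 2) ∨ ∀ j ∈ S, ou j = j + b / 2 ∧ ov j = j + b) :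
    Geo50 S N zf 0 b l lo l l q (3 * b) (fun _ => mm) ou ov (fun j => j - b / 2) (fun j => j - b0) t1 t2 (fun j => j + b0 + b / 16) where
  b1 := by omega
  lb := by
    have : l + 1 ≤ 6 * q * (l + 1) := Nat.le_mul_of_pos_left _ (by omega)
    omega
  llo := hlo
  ll1 := le_rfl
  ll2 := le_rfl
  q1 := hq
  zfN := hzN
  jb j hj := ⟨(hS j hj).1, Nat.zero_le _⟩
  g j hj := by
    obtain ⟨h1, h2⟩ := hS j hj
    have e1 : l + 1 ≤ 6 * q * (l + 1) := Nat.le_mul_of_pos_left _ (by omega)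
    have e2 : 6 * q * (l + 1) = 2 * (3 * q * (l + 1)) := by ring
    unfold en
    rcases hA with hA | hA
    · obtain ⟨a1, a2⟩ := hA j hj
      rw [a1, a2]
      refine ⟨by omega, by omega, by omega, by omega, by omega, by omega, by omega, by omega⟩
    · obtain ⟨a1, a2⟩ := hA j hj
      rw [a1, a2]
      refine ⟨by omega, by omega, by omega, by omega, by omega, by omega, by omega, by omega⟩
  o j hj := by
    obtain ⟨h1, h2⟩ := hS j hj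
    rcases hO with hO | hO
    · obtain ⟨a1, a2⟩ := hO j hj
      rw [a1, a2]
      exact Or.inl ⟨le_rfl, by omega, le_rfl⟩
    · obtain ⟨a1, a2⟩ := hO j hj
      rw [a1, a2]
      exact Or.inr ⟨by omega, by omega, le_rfl⟩
  od j hj := by
    obtain ⟨h1, h2⟩ := hS j hj
    rcases hO with hO | hO
    · obtain ⟨a1, a2⟩ := hO j hj
      rw [a2]
      exact ⟨by omega, hmz⟩
    · obtain ⟨a1, a2⟩ := hO j hj
      rw [a2]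
      exact ⟨by omega, hmz⟩

/-- The numbers of the errors. -/
theorem er81 {L r R x e : ℝ} (hL : 52 ≤ L) (hr0 : 0 ≤ r) (hr : r ≤ L) (hR0 : 0 ≤ R) (hR : R ≤ L) (hx0 : 0 ≤ x) (hx : x ≤ L) (he0 : 0 ≤ e)
    (he : e ≤ L ^ (-(13 : ℝ))) : 2 * r ^ 2 * (3 * e + 23 * (R ^ 4 * x ^ 5 * e)) ≤ L⁻¹ := by
  have hL0 : 0 < L := by linarith
  have hL1 : 1 ≤ L := by linarith
  have e1 : L ^ (-(13 : ℝ)) = (L ^ 13)⁻¹ := by
    rw [Real.rpow_neg hL0.le, Real.rpow_ofNat]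
  rw [e1] at he
  have a1 : R ^ 4 * x ^ 5 ≤ L ^ 9 := by
    calc R ^ 4 * x ^ 5 ≤ L ^ 4 * L ^ 5 := by gcongr
      _ = L ^ 9 := by ring
  have a2 : (1 : ℝ) ≤ L ^ 9 := one_le_pow₀ hL1
  have a3 : 3 * e + 23 * (R ^ 4 * x ^ 5 * e) ≤ 26 * L ^ 9 * e := by
    have b1 : R ^ 4 * x ^ 5 * e ≤ L ^ 9 * e := mul_le_mul_of_nonneg_right a1 he0
    have b2 : e ≤ L ^ 9 * e := le_mul_of_one_le_left he0 a2
    linarith
  have a4 : r ^ 2 ≤ L ^ 2 := pow_le_pow_left₀ hr0 hr 2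
  calc 2 * r ^ 2 * (3 * e + 23 * (R ^ 4 * x ^ 5 * e)) ≤ 2 * L ^ 2 * (26 * L ^ 9 * (L ^ 13)⁻¹) :=
        mul_le_mul (by linarith) (a3.trans (mul_le_mul_of_nonneg_left he (by positivity))) (by positivity) (by positivity)
    _ = 52 * (L ^ 2)⁻¹ := by
        field_simp
        ring
    _ ≤ L * (L ^ 2)⁻¹ := mul_le_mul_of_nonneg_right hL (by positivity)
    _ = L⁻¹ := by field_simp

/-- **THE SECOND MOMENTS OF THE FAMILIES OF THE LEVELS** at the concrete frame. -/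
theorem ymT81 [IsProbabilityMeasure μ] {c₁ C : ℝ} {n₀ : ℕ} (h : In μ s c₁ C n₀) (hk : KapLe96 (EE μ s) (1 / 4)) {K : ℕ} (hK : 32 ≤ K) :
    YmT81 μ s K := by
  intro δ c ν₀ hδ hδ1 hc hcδ hν₀
  obtain ⟨ν, hνd⟩ : ∃ ν : ℝ, ν = min ν₀ 1 := ⟨_, rfl⟩
  have hν : 0 < ν := by rw [hνd]; exact lt_min hν₀ one_pos
  have hν1 : ν ≤ 1 := by rw [hνd]; exact min_le_right _ _
  have hνν : ν ≤ ν₀ := by rw [hνd]; exact min_le_left _ _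
  have hK32 : (32 : ℝ) ≤ K := by exact_mod_cast hK
  have hK0 : (0 : ℝ) < K := by linarith
  obtain ⟨a₂, K₂, -, -, hK₂, hpow⟩ := Pool.Agent.W_7d29a1_HZ.EE'_pow h
  obtain ⟨K₁, hK₁, hY⟩ := y82 h
  obtain ⟨κ, hκ, hP⟩ := pkE72 h hK (ε := ν / (80 * K)) (θ := δ / (8 * K)) (by positivity) (by positivity)
  refine ⟨min (K * κ / 2) (min (ν / 160) (δ / 16)), lt_min (by positivity) (lt_min (by positivity) (by positivity)), fun a1 ha1 ha1' => ?_⟩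
  have ha1κ : a1 ≤ K * κ / 2 := ha1'.trans (min_le_left _ _)
  have ha1ν : a1 ≤ ν / 160 := ha1'.trans ((min_le_right _ _).trans (min_le_left _ _))
  have ha1δ : a1 ≤ δ / 16 := ha1'.trans ((min_le_right _ _).trans (min_le_right _ _))
  refine ⟨a1, ha1, fun a ha haa => ⟨min (δ / 16) (ν / 160), lt_min (by positivity) (by positivity), fun ι hι hι' => ?_⟩⟩
  have hιδ : ι ≤ δ / 16 := hι'.trans (min_le_left _ _)
  have hιν : ι ≤ ν / 160 := hι'.trans (min_le_right _ _)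
  have v1 : ∀ᶠ m : ℕ in atTop, 4 ≤ ι * (m : ℝ) := by
    have h1 : ∀ᶠ m : ℕ in atTop, 4 / ι ≤ (m : ℝ) := tendsto_natCast_atTop_atTop.eventually_ge_atTop _
    filter_upwards [h1] with m hm
    rw [div_le_iff₀ hι] at hm
    linarith
  have v2 : ∀ᶠ m : ℕ in atTop, 4 ≤ δ * (m : ℝ) := by
    have h1 : ∀ᶠ m : ℕ in atTop, 4 / δ ≤ (m : ℝ) := tendsto_natCast_atTop_atTop.eventually_ge_atTop _
    filter_upwards [h1] with m hm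
    rw [div_le_iff₀ hδ] at hm
    linarith
  filter_upwards [hP κ hκ le_rfl 13 (a / K) (by positivity), lq81 hδ hι hιδ ha1 ha1δ, geo81 h hk hδ hc.le hcδ hι hιδ (A := 4) (by norm_num),
    v1, v2, ev_n (show 0 < K * κ / 2 by positivity) 120, ev_n (show (0 : ℝ) < 1 / 2 by norm_num) (K₁ * 504), ev_n one_pos 52,
    ev_n (show 0 < ν / 4 by positivity) (K₁ * 504 ^ 10 + 1),
    (tend_L (by omega : 1 ≤ K)).eventually (evl81 (show (0 : ℝ) < 1 / 2 by norm_num) (K₂ * EE' μ s 1))]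
    with m m1 m2 m3 m4 m5 m6 m7 m8 m9 m10
  intro p q i hst hi mm hmm y hy k hk4
  obtain ⟨hgap, hgl8, hblk, hpw, hrows⟩ := m3 p q i hst hi
  obtain ⟨f1, f2, f3, f4⟩ := m2 p hst.hp
  have hmm' := hmm
  rw [mem_Ico] at hmm'
  have hgap' : 4 * 2 ^ p ≤ gl46 ι m q := by exact_mod_cast hgap
  have hNn : 2 ^ m ≤ L33 K m := L33_ge (by omega) m
  have hqm : 2 ^ q ≤ 2 ^ m := Nat.pow_le_pow_right two_pos hst.hqm
  have hp1 : 1 ≤ 2 ^ p := Nat.one_le_two_pow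
  have hb0p : 1 ≤ 2 ^ (p - ⌈ι * (m : ℝ)⌉₊) := Nat.one_le_two_pow
  have hb0b : 16 * 2 ^ (p - ⌈ι * (m : ℝ)⌉₊) ≤ 2 ^ p := by
    have e1 : 4 ≤ ⌈ι * (m : ℝ)⌉₊ := by
      have e2 : (4 : ℝ) ≤ (⌈ι * (m : ℝ)⌉₊ : ℝ) := m4.trans (Nat.le_ceil _)
      exact_mod_cast e2
    have e3 : 4 ≤ p := by
      have e4 : (4 : ℝ) ≤ (p : ℝ) := m5.trans hst.hp
      exact_mod_cast e4
    calc 16 * 2 ^ (p - ⌈ι * (m : ℝ)⌉₊) = 2 ^ (p - ⌈ι * (m : ℝ)⌉₊ + 4) := by rw [pow_add]; ring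
      _ ≤ 2 ^ p := Nat.pow_le_pow_right two_pos (by omega)
  have hn1 := n_ge1 m
  obtain ⟨n, hn⟩ : ∃ n : ℝ, n = ((2 ^ m : ℕ) : ℝ) := ⟨_, rfl⟩
  have hLn : ((2 ^ m : ℕ) : ℝ) ≤ ((L33 K m : ℕ) : ℝ) := by exact_mod_cast hNn
  have hn0 : 0 < n := by
    rw [hn]
    positivity
  have hLκ : ((L33 K m : ℕ) : ℝ) ^ κ = n ^ (K * κ / 2) * n ^ (K * κ / 2) := by
    rw [L33_pow, ← hn, ← Real.rpow_add hn0]
    ring_nf
  have hLa : ((L33 K m : ℕ) : ℝ) ^ (a / K) = n ^ a := by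
    rw [L33_pow, ← hn]
    congr 1
    field_simp
  have hLθ : ((L33 K m : ℕ) : ℝ) ^ (δ / (8 * K)) = n ^ (δ / 8) := by
    rw [L33_pow, ← hn]
    congr 1
    field_simp
  have hLε : ((L33 K m : ℕ) : ℝ) ^ (ν / (80 * K)) = n ^ (ν / 80) := by
    rw [L33_pow, ← hn]
    congr 1
    field_simp
  rw [← hn] at hn1 m6 m7 m8 m9 f1 f2 f3 f4 hLn ⊢
  rw [Real.rpow_one] at m8
  have hna : 1 ≤ n ^ a := Real.one_le_rpow hn1 ha.le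
  have hna1 : 1 ≤ n ^ a1 := Real.one_le_rpow hn1 ha1.le
  have haa' : n ^ a ≤ n ^ a1 := Real.rpow_le_rpow_of_exponent_le hn1 haa
  have haκ : n ^ a1 ≤ n ^ (K * κ / 2) := Real.rpow_le_rpow_of_exponent_le hn1 ha1κ
  have hL0R : (0 : ℝ) < ((L33 K m : ℕ) : ℝ) := by linarith
  have hL1R : (1 : ℝ) ≤ ((L33 K m : ℕ) : ℝ) := by linarith
  have hκ120 : 120 * n ^ a1 ≤ ((L33 K m : ℕ) : ℝ) ^ κ := by
    rw [hLκ]
    exact mul_le_mul m6 haκ (by positivity) (by positivity)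
  obtain ⟨e, he0, heA, hPk⟩ := m1 (2 * n ^ a) (by rw [hLa]; linarith) (by linarith)
  obtain ⟨qa, qb, qc⟩ := q_bd81 (show 1 ≤ 2 * n ^ a by linarith)
  obtain ⟨qa1, qb1, qc1⟩ := q_bd81 (show 1 ≤ 2 * n ^ a1 by linarith)
  have hqq : (q81 (2 * n ^ a) : ℝ) ≤ (q81 (2 * n ^ a1) : ℝ) := by
    exact_mod_cast q_mono81 (by linarith : 2 * n ^ a ≤ 2 * n ^ a1)
  have hq1 : 1 ≤ q81 (2 * n ^ a1) := by
    have : (0 : ℝ) < (q81 (2 * n ^ a1) : ℝ) := by linarith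
    exact_mod_cast this
  have hZ0 : 0 ≤ 504 * n ^ (ι + a1) := by positivity
  have hl1 : 1 ≤ l81 (2 ^ (p - ⌈ι * (m : ℝ)⌉₊)) (2 * n ^ a1) := by
    have e1 : 1 ≤ n ^ (δ / 8) := Real.one_le_rpow hn1 (by positivity)
    exact_mod_cast e1.trans f2
  have hlo : l81 (2 ^ (p - ⌈ι * (m : ℝ)⌉₊)) (2 * n ^ a1) ≤ l81 (2 ^ p) (2 * n ^ a) :=
    l_mono81 (by linarith) (by linarith) (by omega)
  have hfo : 6 * q81 (2 * n ^ a) * (l81 (2 ^ p) (2 * n ^ a) + 1) ≤ 2 ^ p := by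
    refine l_fit81 (by linarith) ?_
    have g1 : 6 * q81 (2 * n ^ a) ≤ 6 * q81 (2 * n ^ a1) := Nat.mul_le_mul_left _ (q_mono81 (by linarith))
    have g2 : 6 * q81 (2 * n ^ a1) ≤ 6 * q81 (2 * n ^ a1) * (l81 (2 ^ (p - ⌈ι * (m : ℝ)⌉₊)) (2 * n ^ a1) + 1) :=
      Nat.le_mul_of_pos_right _ (by omega)
    omega
  have hS : ∀ j ∈ Rw (R33 ι m) (i * 2 ^ q) ((i + 1) * 2 ^ q), 2 ^ p < j ∧ j + 2 ^ p ≤ mm := fun j hj => by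
    obtain ⟨r1, r2, r3, r4⟩ := hrows j hj
    exact ⟨by omega, by omega⟩
  have hSr : ∀ j ∈ Rw (R33 ι m) (i * 2 ^ q) ((i + 1) * 2 ^ q), i * 2 ^ q ≤ j ∧ j < i * 2 ^ q + 2 ^ q := fun j hj => by
    obtain ⟨r1, r2, r3, r4⟩ := hrows j hj
    have e1 : (i + 1) * 2 ^ q = i * 2 ^ q + 2 ^ q := by ring
    exact ⟨r1, by omega⟩
  have hE1 : ∀ k, 1 ≤ EE μ s k := fun k => one_le_EE k
  have hEN : ∀ k : ℕ, 1 ≤ k → k ≤ L33 K m → EE μ s k ≤ (L33 K m : ℕ) := fun k k1 k2 => by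
    have e1 := (hpow 1 k le_rfl k1).2.2
    rw [Nat.cast_one, div_one, EE'_eq46] at e1
    have e2 : Real.sqrt k ≤ ((L33 K m : ℕ) : ℝ) ^ (1 / 2 : ℝ) := by
      rw [← Real.sqrt_eq_rpow]
      exact Real.sqrt_le_sqrt (by exact_mod_cast k2)
    have e3 : ((L33 K m : ℕ) : ℝ) ^ (1 / 2 : ℝ) * ((L33 K m : ℕ) : ℝ) ^ (1 / 2 : ℝ) = ((L33 K m : ℕ) : ℝ) := by
      rw [← Real.rpow_add hL0R]
      norm_num
    have e4 : 1 ≤ EE' μ s 1 := le_max_left _ _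
    calc EE μ s k ≤ K₂ * Real.sqrt k * EE' μ s 1 := e1
      _ = Real.sqrt k * (K₂ * EE' μ s 1) := by ring
      _ ≤ ((L33 K m : ℕ) : ℝ) ^ (1 / 2 : ℝ) * ((L33 K m : ℕ) : ℝ) ^ (1 / 2 : ℝ) := mul_le_mul e2 m10 (by positivity) (by positivity)
      _ = _ := e3
  have hb0N : 2 ^ (p - ⌈ι * (m : ℝ)⌉₊) ≤ L33 K m :=
    (Nat.pow_le_pow_right two_pos ((Nat.sub_le _ _).trans ((hst.hps.trans hst.hsq).trans hst.hqm))).trans hNn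
  have hY0 := Y0_ge81 (E := EE μ s) hE1 (r := 2 ^ q) (b := 2 ^ p) (b0 := 2 ^ (p - ⌈ι * (m : ℝ)⌉₊)) Nat.one_le_two_pow hp1
    (hEN _ hb0p hb0N)
  have hqn : ((2 ^ q : ℕ) : ℝ) ≤ n := by
    rw [hn]
    exact_mod_cast hqm
  have hd : Real.exp (-((L33 K m : ℕ) : ℝ) ^ κ) ≤ d81 (2 * n ^ a1) := by
    unfold d81
    exact Real.exp_le_exp.2 (by linarith)
  -- the numbers of the bound
  have hnum : ∀ X : ℝ, X ≤ K₁ * (504 * n ^ (ι + a1) * ((L33 K m : ℕ) : ℝ) ^ (ν / (80 * K))) ^ 10 *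
      (((2 ^ q : ℕ) : ℝ) ^ 2 / (EE' μ s (2 ^ (p - ⌈ι * (m : ℝ)⌉₊)) ^ 2 * EE' μ s (2 ^ p) ^ 2) +
        ((2 ^ q : ℕ) : ℝ) ^ 2 / (EE' μ s (2 ^ (p - ⌈ι * (m : ℝ)⌉₊)) ^ 2 * EE' μ s (2 ^ q)) +
          ((2 ^ q : ℕ) : ℝ) * ((2 ^ p : ℕ) : ℝ) / EE' μ s (2 ^ (p - ⌈ι * (m : ℝ)⌉₊))) +
      2 * ((2 ^ q : ℕ) : ℝ) ^ 2 * (3 * e + 23 * er (L33 K m) (ν / (80 * K)) (K₁ * (504 * n ^ (ι + a1))) e) →
      X ≤ n ^ ν₀ * Y0 (EE μ s) (2 ^ q) (2 ^ p) (2 ^ (p - ⌈ι * (m : ℝ)⌉₊)) := fun X hX => by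
    rw [EE'_eq46, EE'_eq46, EE'_eq46] at hX
    obtain ⟨Y, hYd⟩ : ∃ Y : ℝ, Y = Y0 (EE μ s) (2 ^ q) (2 ^ p) (2 ^ (p - ⌈ι * (m : ℝ)⌉₊)) := ⟨_, rfl⟩
    have hYd' : Y = ((2 ^ q : ℕ) : ℝ) ^ 2 / (EE μ s (2 ^ (p - ⌈ι * (m : ℝ)⌉₊)) ^ 2 * EE μ s (2 ^ p) ^ 2) +
        ((2 ^ q : ℕ) : ℝ) ^ 2 / (EE μ s (2 ^ (p - ⌈ι * (m : ℝ)⌉₊)) ^ 2 * EE μ s (2 ^ q)) +
          ((2 ^ q : ℕ) : ℝ) * ((2 ^ p : ℕ) : ℝ) / EE μ s (2 ^ (p - ⌈ι * (m : ℝ)⌉₊)) := hYd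
    rw [← hYd'] at hX
    rw [← hYd] at hY0 ⊢
    have hY00 : 0 ≤ Y := (inv_nonneg.2 hL0R.le).trans hY0
    have t1 : K₁ * (504 * n ^ (ι + a1)) ≤ ((L33 K m : ℕ) : ℝ) := by
      have u1 : n ^ (ι + a1) ≤ n ^ (1 / 2 : ℝ) := Real.rpow_le_rpow_of_exponent_le hn1 (by linarith)
      have u2 : n ^ (1 / 2 : ℝ) * n ^ (1 / 2 : ℝ) = n := by
        rw [← Real.rpow_add hn0]
        norm_num
      calc K₁ * (504 * n ^ (ι + a1)) = K₁ * 504 * n ^ (ι + a1) := by ring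
        _ ≤ n ^ (1 / 2 : ℝ) * n ^ (1 / 2 : ℝ) := mul_le_mul m7 u1 (by positivity) (by positivity)
        _ = n := u2
        _ ≤ _ := hLn
    have t2 : ((L33 K m : ℕ) : ℝ) ^ (ν / (80 * K)) ≤ ((L33 K m : ℕ) : ℝ) := by
      have u1 : ν / (80 * K) ≤ 1 := by
        rw [div_le_one (by positivity)]
        linarith
      calc ((L33 K m : ℕ) : ℝ) ^ (ν / (80 * K)) ≤ ((L33 K m : ℕ) : ℝ) ^ (1 : ℝ) := Real.rpow_le_rpow_of_exponent_le hL1R u1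
        _ = _ := Real.rpow_one _
    have t3 := er81 (L := ((L33 K m : ℕ) : ℝ)) (r := ((2 ^ q : ℕ) : ℝ)) (R := K₁ * (504 * n ^ (ι + a1)))
      (x := ((L33 K m : ℕ) : ℝ) ^ (ν / (80 * K))) (e := e) (by linarith) (by positivity) (by linarith) (by positivity) t1 (by positivity) t2
      he0 heA
    have t4 : K₁ * (504 * n ^ (ι + a1) * ((L33 K m : ℕ) : ℝ) ^ (ν / (80 * K))) ^ 10 ≤ K₁ * 504 ^ 10 * n ^ (ν / 4) := by
      rw [hLε]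
      have u1 : (504 * n ^ (ι + a1) * n ^ (ν / 80)) ^ 10 = 504 ^ 10 * n ^ (10 * (ι + a1 + ν / 80)) := by
        rw [mul_assoc, ← Real.rpow_add hn0, mul_pow, ← Real.rpow_natCast (n ^ (ι + a1 + ν / 80)) 10, ← Real.rpow_mul hn0.le]
        congr 2
        push_cast
        ring
      rw [u1, ← mul_assoc]
      exact mul_le_mul_of_nonneg_left (Real.rpow_le_rpow_of_exponent_le hn1 (by linarith)) (by positivity)
    have t5 : n ^ (ν / 4) * n ^ (ν / 4) ≤ n ^ ν₀ := by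
      rw [← Real.rpow_add hn0]
      exact Real.rpow_le_rpow_of_exponent_le hn1 (by linarith)
    have t6 : 1 ≤ n ^ (ν / 4) := Real.one_le_rpow hn1 (by positivity)
    obtain ⟨x, hx⟩ : ∃ x : ℝ, x = n ^ (ν / 4) := ⟨_, rfl⟩
    rw [← hx] at m9 t4 t5 t6
    have t7 : K₁ * 504 ^ 10 * x + 1 ≤ x * x := by
      calc K₁ * 504 ^ 10 * x + 1 ≤ K₁ * 504 ^ 10 * x + x := add_le_add le_rfl t6
        _ = (K₁ * 504 ^ 10 + 1) * x := by ring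
        _ ≤ x * x := mul_le_mul_of_nonneg_right m9 (zero_le_one.trans t6)
    have t8 : (K₁ * 504 ^ 10 * x + 1) * Y ≤ n ^ ν₀ * Y := mul_le_mul_of_nonneg_right (t7.trans t5) hY00
    have t9 := mul_le_mul_of_nonneg_right t4 hY00
    have t10 : 2 * ((2 ^ q : ℕ) : ℝ) ^ 2 * (3 * e + 23 * er (L33 K m) (ν / (80 * K)) (K₁ * (504 * n ^ (ι + a1))) e) ≤
      ((L33 K m : ℕ) : ℝ)⁻¹ := t3
    linarith
  -- one family
  have hone : ∀ t1 t2 ou ov : ℕ → ℕ,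
      ((∀ j ∈ Rw (R33 ι m) (i * 2 ^ q) ((i + 1) * 2 ^ q), t1 j = j - 2 ^ (p - ⌈ι * (m : ℝ)⌉₊) / 2 ∧ t2 j = j - 2 ^ (p - ⌈ι * (m : ℝ)⌉₊)) ∨
        ∀ j ∈ Rw (R33 ι m) (i * 2 ^ q) ((i + 1) * 2 ^ q), t1 j = j + 2 ^ (p - ⌈ι * (m : ℝ)⌉₊) / 2 ∧ t2 j = j) →
      ((∀ j ∈ Rw (R33 ι m) (i * 2 ^ q) ((i + 1) * 2 ^ q), ou j = j - 2 ^ p ∧ ov j = j - 2 ^ p / 2) ∨
        ∀ j ∈ Rw (R33 ι m) (i * 2 ^ q) ((i + 1) * 2 ^ q), ou j = j + 2 ^ p / 2 ∧ ov j = j + 2 ^ p) →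
      ∫ ω, gm (wm μ s (L33 K m) (Pn (L33 K m) y) ω) (fun x => (∑ j ∈ Rw (R33 ι m) (i * 2 ^ q) ((i + 1) * 2 ^ q),
        UL13 μ s (L33 K m) (j + 2 ^ (p - ⌈ι * (m : ℝ)⌉₊) + 2 ^ p / 16) (q81 (2 * n ^ a1)) (d81 (2 * n ^ a1)) (d81 (2 * n ^ a1))
          (d81 (2 * n ^ a1)) (j - 2 ^ p / 2) (j - 2 ^ (p - ⌈ι * (m : ℝ)⌉₊)) (t1 j) (l81 (2 ^ (p - ⌈ι * (m : ℝ)⌉₊)) (2 * n ^ a1)) (t2 j)
          (l81 (2 ^ (p - ⌈ι * (m : ℝ)⌉₊)) (2 * n ^ a1)) mm (ou j) (l81 (2 ^ p) (2 * n ^ a)) (q81 (2 * n ^ a)) (2 * n ^ a) y ω x) ^ 2)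
          ∂(Pm μ (L33 K m)) ≤ n ^ ν₀ * Y0 (EE μ s) (2 ^ q) (2 ^ p) (2 ^ (p - ⌈ι * (m : ℝ)⌉₊)) := fun t1 t2 ou ov hA hO => by
    have hG := gm81 (N := L33 K m) (zf := mm) (mm := mm) (b0 := 2 ^ (p - ⌈ι * (m : ℝ)⌉₊)) (b := 2 ^ p)
      (l := l81 (2 ^ (p - ⌈ι * (m : ℝ)⌉₊)) (2 * n ^ a1)) (lo := l81 (2 ^ p) (2 * n ^ a)) (q := q81 (2 * n ^ a1)) (qo := q81 (2 * n ^ a))
      (S := Rw (R33 ι m) (i * 2 ^ q) ((i + 1) * 2 ^ q)) (ou := ou) (ov := ov) (t1 := t1) (t2 := t2) hb0b hb0p hq1 f1 hlo hfo le_rfl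
      (by omega) hS hA hO
    have hF := fu81 (μ := μ) (s := s) (N := L33 K m) (y := y) (X := ((L33 K m : ℕ) : ℝ) ^ κ) (M := 2 * n ^ a) (by positivity)
      (S := Rw (R33 ι m) (i * 2 ^ q) ((i + 1) * 2 ^ q)) (mm := mm) (q := q81 (2 * n ^ a1))
      (l := l81 (2 ^ (p - ⌈ι * (m : ℝ)⌉₊)) (2 * n ^ a1)) (lo := l81 (2 ^ p) (2 * n ^ a)) (qo := q81 (2 * n ^ a)) (dd := d81 (2 * n ^ a1))
      (g0 := fun j => j - 2 ^ p / 2) (g1 := fun j => j - 2 ^ (p - ⌈ι * (m : ℝ)⌉₊)) (t1 := t1) (t2 := t2)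
      (z := fun j => j + 2 ^ (p - ⌈ι * (m : ℝ)⌉₊) + 2 ^ p / 16) (ou := ou) (ov := ov) (M₂ := 2 * n ^ a) (fun j hj => by
        obtain ⟨h1, h2⟩ := hS j hj
        rcases hO with hO | hO
        · rw [(hO j hj).2]
          omega
        · rw [(hO j hj).2]
          omega) (fun j hj => by
        obtain ⟨h1, h2⟩ := hS j hj
        have g2 : 6 * q81 (2 * n ^ a) * (l81 (2 ^ p) (2 * n ^ a) + 1) = 2 * (3 * q81 (2 * n ^ a) * (l81 (2 ^ p) (2 * n ^ a) + 1)) := by ring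
        rcases hO with hO | hO
        · rw [(hO j hj).1, (hO j hj).2]
          omega
        · rw [(hO j hj).1, (hO j hj).2]
          omega) (by linarith) (by linarith)
    refine hnum _ (hY _ _ _ _ _ (L33 K m) (ys33 μ s K m) hPk _ mm 0 (2 ^ p) (2 ^ (p - ⌈ι * (m : ℝ)⌉₊)) _ _ _ _ _ (3 * 2 ^ p) (i * 2 ^ q)
      (2 ^ q) _ _ _ _ _ _ _ _ hG hl1 (by rw [hLθ]; exact f2) le_rfl (by omega) (by omega) hSr (504 * n ^ (ι + a1)) f3 (by linarith) _ _ _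
      hd hd hd y hy _ _ _ hF)
  have hkk := mem_range.1 hk4
  obtain rfl | rfl | rfl | rfl : k = 0 ∨ k = 1 ∨ k = 2 ∨ k = 3 := by omega
  · exact hone (fun j => j - 2 ^ (p - ⌈ι * (m : ℝ)⌉₊) / 2) (fun j => j - 2 ^ (p - ⌈ι * (m : ℝ)⌉₊)) (fun j => j - 2 ^ p)
      (fun j => j - 2 ^ p / 2) (Or.inl fun j _ => ⟨rfl, rfl⟩) (Or.inl fun j _ => ⟨rfl, rfl⟩)
  · exact hone (fun j => j + 2 ^ (p - ⌈ι * (m : ℝ)⌉₊) / 2) (fun j => j) (fun j => j - 2 ^ p)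
      (fun j => j - 2 ^ p / 2) (Or.inr fun j _ => ⟨rfl, rfl⟩) (Or.inl fun j _ => ⟨rfl, rfl⟩)
  · exact hone (fun j => j - 2 ^ (p - ⌈ι * (m : ℝ)⌉₊) / 2) (fun j => j - 2 ^ (p - ⌈ι * (m : ℝ)⌉₊)) (fun j => j + 2 ^ p / 2)
      (fun j => j + 2 ^ p) (Or.inl fun j _ => ⟨rfl, rfl⟩) (Or.inr fun j _ => ⟨rfl, rfl⟩)
  · exact hone (fun j => j + 2 ^ (p - ⌈ι * (m : ℝ)⌉₊) / 2) (fun j => j) (fun j => j + 2 ^ p / 2)
      (fun j => j + 2 ^ p) (Or.inr fun j _ => ⟨rfl, rfl⟩) (Or.inr fun j _ => ⟨rfl, rfl⟩)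

end

end Pool.Agent.W_7d29a1_C0.RqB81
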