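import Pool.Agent.W_7d29a1_C0.RqE81
import Pool.Agent.W_7d29a1_C0.RqH81
import Pool.Agent.W_7d29a1_C0.Rq61G

/-!
CURV0 (MP_7d29a1_pr), leaf E2a, THE REMAINDER (helper81): **`rq81` : `RQV81` at the concrete frame**, without any open hypothesis: the law side
(helper61), the third part of a row (helper13, helper61, helper27), the second moments of the event functionals (helper42, helper13,
helper50, helper72, helper82), the end (helper81).
-/

set_option autoImplicit false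

namespace Pool.Agent.W_7d29a1_C0.RqB81

open MeasureTheory Pool.Agent.W_7d29a1_F Pool.Agent.W_7d29a1_X Pool.Agent.W_7d29a1_H
open Pool.Agent.W_7d29a1_HS (In)
open Pool.Agent.W_7d29a1_C0 Pool.Agent.W_7d29a1_C0.Mod92 Pool.Agent.W_7d29a1_C0.Asm96 Pool.Agent.W_7d29a1_C0.CrA44
open Pool.Agent.W_7d29a1_C0.Frm33 Pool.Agent.W_7d29a1_C0.EstC46
open Pool.W7d29a1.C0.H27 (QI)
open Pool.Agent.W_7d29a1_C0.E2aT82

variable {μ : Measure ℝ} {s : ℝ}

/-- **THE REMAINDER OF (E2a) AT THE CONCRETE FRAME.** -/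
theorem rq81 [IsProbabilityMeasure μ] {c₁ C : ℝ} {n₀ : ℕ} (h : In μ s c₁ C n₀) (hk : KapLe96 (EE μ s) (1 / 4))
    (hQI : ∀ p : ℝ, 1 < p → ∃ C θ0 : ℝ, 0 ≤ C ∧ 0 < θ0 ∧ QI μ p C θ0) {K : ℕ} (hK : 32 ≤ K) : RQV81 μ s K :=
  rqv81' h hk hQI hK (Rq61.lbT61 h hK) (ymT81 h hk hK)

end Pool.Agent.W_7d29a1_C0.RqB81
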