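import Pool.Agent.W_7d29a1_C0.SiteS3C

/-!
MP_7d29a1_pr, [C0], helper3: THE DOUBLE TIES OF THE ROWS OF ONE BLOCK, part 4: `si33`, the input `SI3` of `rb33` (Eta3D) at the concrete frame.
-/

set_option autoImplicit false
set_option linter.unusedSectionVars false

namespace Pool.Agent.W_7d29a1_C0.SS3

open MeasureTheory ProbabilityTheory Filter Topology Finset
open Pool.Agent.W_7d29a1_F Pool.Agent.W_7d29a1_X Pool.Agent.W_7d29a1_H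
open Pool.Agent.W_7d29a1_HS (In wd md)
open Pool.Agent.W_7d29a1_HZ Pool.Agent.W_7d29a1_HZ.R72
open Pool.Agent.W_7d29a1_HZ.Z86
open Pool.Agent.W_7d29a1_C0.Eta3
open Pool.Agent.W_7d29a1_C0.Mod92
open Pool.W7d29a1.C0
open Pool.W7d29a1.C0.VT31 Pool.W7d29a1.C0.S1 Pool.W7d29a1.C0.R43
open Pool.Agent.W_7d29a1_C0 Pool.Agent.W_7d29a1_C0.Base5 Pool.Agent.W_7d29a1_C0.BasRow33
open Pool.Agent.W_7d29a1_C0.Row96 Pool.Agent.W_7d29a1_C0.Asm96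
open Pool.Agent.W_7d29a1_C0.Frm33

noncomputable section

variable {μ : Measure ℝ} {s : ℝ} {K : ℕ}

/-- The scale `2 ^ p` is at least `n ^ δ`. -/
theorem pow_ge3 {δ : ℝ} {m p : ℕ} (h : δ * m ≤ p) : ((2 ^ m : ℕ) : ℝ) ^ δ ≤ ((2 ^ p : ℕ) : ℝ) := by
  push_cast
  rw [← Real.rpow_natCast 2 m, ← Real.rpow_mul two_pos.le, ← Real.rpow_natCast 2 p]
  exact Real.rpow_le_rpow_of_exponent_le one_le_two (by linarith)

/-- The tiny terms. -/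
theorem err_ev (hK : 1 ≤ K) {β c₂ : ℝ} (hβ : 0 < β) (hc₂ : 0 < c₂) : ∀ᶠ m : ℕ in atTop,
    4 * (Real.exp (-(L33 K m : ℝ) ^ c₂) + (L33 K m : ℝ) * (L33 K m + 2) * Real.exp (-((2 ^ m : ℕ) : ℝ) ^ (2 * β))) ≤
      ((2 ^ m : ℕ) : ℝ) ^ (-8 : ℝ) := by
  have hKr : (1 : ℝ) ≤ K := by exact_mod_cast hK
  filter_upwards [ev_exp3 (b := K * c₂) (by positivity) 8 (r := 1 / 8) (by norm_num),
    ev_exp3 (b := 2 * β) (by positivity) (2 * K + 8) (r := 1 / 24) (by norm_num)] with m h1 h2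
  obtain ⟨n, hn⟩ : ∃ n : ℝ, n = ((2 ^ m : ℕ) : ℝ) := ⟨_, rfl⟩
  have hn1 : 1 ≤ n := hn ▸ n_ge1 m
  have hn0 : 0 < n := by linarith
  have e1 : (L33 K m : ℝ) ^ c₂ = n ^ (K * c₂) := by rw [L33_pow, hn]
  have e2 : (L33 K m : ℝ) = n ^ (K : ℝ) := by rw [L33_real, hn]
  have hL1 : (1 : ℝ) ≤ n ^ (K : ℝ) := Real.one_le_rpow hn1 (by positivity)
  have e8 : n ^ (-8 : ℝ) = (n ^ (8 : ℝ))⁻¹ := Real.rpow_neg hn0.le 8
  have h8 : 0 < n ^ (8 : ℝ) := by positivity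
  rw [← hn] at h1 h2 ⊢
  rw [e1, e2, e8, ← one_div, le_div_iff₀ h8]
  have e3 : n ^ (2 * K + 8 : ℝ) = n ^ (8 : ℝ) * (n ^ (K : ℝ) * n ^ (K : ℝ)) := by
    rw [← Real.rpow_add hn0, ← Real.rpow_add hn0]
    congr 1
    ring
  rw [e3] at h2
  have hx : 0 < Real.exp (-n ^ (2 * β)) := Real.exp_pos _
  have h3 : n ^ (K : ℝ) * (n ^ (K : ℝ) + 2) ≤ 3 * (n ^ (K : ℝ) * n ^ (K : ℝ)) := by nlinarith
  have h4 : n ^ (8 : ℝ) * (n ^ (K : ℝ) * (n ^ (K : ℝ) + 2) * Real.exp (-n ^ (2 * β))) ≤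
      3 * (n ^ (8 : ℝ) * (n ^ (K : ℝ) * n ^ (K : ℝ)) * Real.exp (-n ^ (2 * β))) := by
    have := mul_le_mul_of_nonneg_left (mul_le_mul_of_nonneg_right h3 hx.le) h8.le
    linarith
  linarith

/-- **THE SITE PRICE AT THE CONCRETE FRAME.** -/
theorem si33 [IsProbabilityMeasure μ] {c₁ C : ℝ} {n₀ : ℕ} (h : In μ s c₁ C n₀) (hk : KapLe96 (EE μ s) (1 / 4)) (hK : 32 ≤ K)
    {Θ δ c η ε₁ : ℝ} (hδ : 0 < δ) (hc : 0 < c) (hcδ : 64 * c ≤ δ) (hη : 0 ≤ η) (hε₁ : 0 < ε₁) :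
    Par92.Est fun ι β γ m => SI3 μ s (frm33 μ s K ι β γ) (EE μ s) Θ δ c η ε₁ (((2 ^ m : ℕ) : ℝ) ^ (2 * β)) m := by
  have hKr : (0 : ℝ) < K := by exact_mod_cast (show 0 < K by omega)
  obtain ⟨δ', κ, c₂, hδ', hκ, hc₂, L₀, hS⟩ := prS h (ε₁ / K) (δ / K) (by positivity) (by positivity)
  refine ⟨δ / 16, by positivity, fun ι hι hιδ => ⟨K * κ / 2, by positivity, fun β hβ hβκ => Par92.Sml.of fun γ _ => ?_⟩⟩
  have hmι : ∀ᶠ m : ℕ in atTop, 1 ≤ m := eventually_ge_atTop 1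
  have hmδ : ∀ᶠ m : ℕ in atTop, 1 / δ ≤ (m : ℝ) := tendsto_natCast_atTop_atTop.eventually_ge_atTop _
  filter_upwards [ev_L (by omega : 1 ≤ K) L₀, cone33 h hK hδ', deep33_ev h hk hδ hc.le (by linarith) hιδ,
    ev_n (show 0 < 2 * β by positivity) 8, err_ev (K := K) (by omega) hβ hc₂, hmι, hmδ] with m g1 g2 g3 g4 g5 g6 g7
  intro p p' q k hC hpp hk' y hy
  obtain ⟨hsq', hqm⟩ := chg_le33 hC hc.le hη
  have hn1 : (1 : ℝ) ≤ ((2 ^ m : ℕ) : ℝ) := n_ge1 m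
  obtain ⟨σ, hσ⟩ : ∃ σ : ℕ, σ = 2 ^ sg96 (EE μ s) c m p' := ⟨_, rfl⟩
  have hσ0 : 0 < σ := by
    rw [hσ]
    positivity
  have hDp : Deep (R33 ι m) (4 * 2 ^ p') σ := by
    rw [hσ]
    exact g3 p' (hC.hp.trans (by exact_mod_cast hC.hpp)) (hsq'.trans hqm)
  -- the end
  have hyL : y ≤ L33 K m ∧ |(y : ℝ) - sl μ s * L33 K m| ≤ (L33 K m : ℝ) ^ δ' * wd' μ s (L33 K m) := by
    have h1 := mem_Ico.1 (show y ∈ Ico (y33 μ s K m) (y33 μ s K m + M33 m) from hy)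
    exact g2.2.2 y (by omega) (by omega)
  have hp0 : 1 ≤ p := by
    have h1 : (1 : ℝ) ≤ p := by
      have h2 : 1 ≤ δ * m := by
        rw [div_le_iff₀ hδ] at g7
        linarith
      exact h2.trans hC.hp
    exact_mod_cast h1
  have hb0 : 2 * 2 ^ (p - ⌈ι * (m : ℝ)⌉₊) ≤ 2 ^ p := by
    have h1 : 1 ≤ ⌈ι * (m : ℝ)⌉₊ := Nat.one_le_ceil_iff.2 (by
      have : (1 : ℝ) ≤ m := by exact_mod_cast g6
      positivity)
    calc 2 * 2 ^ (p - ⌈ι * (m : ℝ)⌉₊) ≤ 2 * 2 ^ (p - 1) := Nat.mul_le_mul_left _ (Nat.pow_le_pow_right two_pos (by omega))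
      _ = 2 ^ (p - 1 + 1) := by
          rw [pow_succ]
          ring
      _ = 2 ^ p := by rw [Nat.sub_add_cancel hp0]
  have hbb : 2 * 2 ^ p ≤ 2 ^ p' := by
    calc 2 * 2 ^ p = 2 ^ (p + 1) := by
          rw [pow_succ]
          ring
      _ ≤ 2 ^ p' := Nat.pow_le_pow_right two_pos hpp
  have hbL : (L33 K m : ℝ) ^ (δ / K) ≤ ((2 ^ p : ℕ) : ℝ) := by
    rw [L33_pow, mul_div_cancel₀ _ hKr.ne']
    exact pow_ge3 hC.hp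
  have hrow : ∀ j ∈ Rw (R33 ι m) (k * σ) ((k + 1) * σ), j / σ = k ∧ k * σ + 4 * 2 ^ p' ≤ j ∧ j + 4 * 2 ^ p' ≤ (k + 1) * σ := fun j hj => by
    have h1 := hDp.in_block hσ0 (Dvd.intro_left k rfl) (Dvd.intro_left (k + 1) rfl) hj
    unfold Rw at hj
    rw [mem_inter, mem_Ico] at hj
    exact ⟨Nat.div_eq_of_lt_le (by linarith [hj.2.1]) hj.2.2, h1.1, h1.2⟩
  have hmL : 2 ^ m ≤ L33 K m := L33_ge (by omega) m
  rw [← hσ] at hk'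
  have h1 := hS (L33 K m) g1 (L33 K m) (by omega) le_rfl y hyL.1 hyL.2 (k * σ) ((k + 1) * σ) (2 ^ (p - ⌈ι * (m : ℝ)⌉₊)) (2 ^ p) (2 ^ p')
    hb0 hbb hbL (Nat.mul_le_mul_right _ (by omega)) (hk'.trans hmL) (Rw (R33 ι m) (k * σ) ((k + 1) * σ)) (fun j hj => (hrow j hj).2)
    (((2 ^ m : ℕ) : ℝ) ^ (2 * β)) g4 (by
      rw [L33_pow]
      exact Real.rpow_le_rpow_of_exponent_le hn1 (by linarith))
  have hne : Nonempty (Px (Pn (L33 K m) y)) := ne_Pn hyL.1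
  have h2 : PrJ μ s (L33 K m) (Ioo (k * σ) ((k + 1) * σ)) (fun (ω : Env × Finset ℕ) (x : Px (Pn (L33 K m) y)) =>
      A5 (2 ^ (p - ⌈ι * (m : ℝ)⌉₊)) (2 ^ p) (2 ^ p') σ (R33 ι m) k (((2 ^ m : ℕ) : ℝ) ^ (2 * β)) (wm μ s (L33 K m) (Pn (L33 K m) y) ω) x)
      ((L33 K m : ℝ) ^ (ε₁ / K) * (((k + 1) * σ - k * σ : ℕ) * (EE' μ s (2 ^ p))⁻¹ * (EE' μ s (2 ^ p'))⁻¹))
      (4 * (Real.exp (-(L33 K m : ℝ) ^ c₂) + L33 K m * (L33 K m + 2) * Real.exp (-((2 ^ m : ℕ) : ℝ) ^ (2 * β)))) := by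
    refine Eq.mp ?_ h1
    congr 1
    funext ω x
    unfold A5
    refine sum_congr rfl fun j hj => ?_
    have e1 := (hrow j hj).1
    have e2 : (pB σ j : Px (Pn (L33 K m) y) → Finset ℕ × ℕ) = pJ (k * σ) ((k + 1) * σ) := by
      unfold pB
      rw [e1, add_mul, one_mul]
    unfold a5
    rw [e2]
  have hE1 : ∀ t, 0 < EE μ s t := fun t => EE_pos t
  have hE' : ∀ t, (EE' μ s t)⁻¹ ≤ (EE μ s t)⁻¹ := fun t => inv_anti₀ (hE1 t) (le_max_right _ _)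
  have h3 := PrJ.mono (P' := ((2 ^ m : ℕ) : ℝ) ^ ε₁ * (2 ^ sg96 (EE μ s) c m p' / (EE μ s (2 ^ p) * EE μ s (2 ^ p'))))
    (e' := ((2 ^ m : ℕ) : ℝ) ^ (-8 : ℝ)) h2 (by
      have e1 : (L33 K m : ℝ) ^ (ε₁ / K) = ((2 ^ m : ℕ) : ℝ) ^ ε₁ := by
        rw [L33_pow, mul_div_cancel₀ _ hKr.ne']
      have e2 : (k + 1) * σ - k * σ = σ := by
        rw [add_mul, one_mul, Nat.add_sub_cancel_left]
      have e3 : ((σ : ℕ) : ℝ) = 2 ^ sg96 (EE μ s) c m p' := by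
        rw [hσ]
        push_cast
        rfl
      rw [e1, e2, e3, div_eq_mul_inv, mul_inv, mul_assoc (2 ^ sg96 (EE μ s) c m p' : ℝ)]
      have a1 := hE' (2 ^ p)
      have a2 := hE' (2 ^ p')
      have a3 : 0 < EE' μ s (2 ^ p') := lt_of_lt_of_le zero_lt_one (le_max_left _ _)
      have a4 := (inv_pos.2 (hE1 (2 ^ p))).le
      have a5 := (inv_pos.2 a3).le
      gcongr) g5
  rw [hσ] at h3
  exact h3

end

end Pool.Agent.W_7d29a1_C0.SS3
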