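import Pool.Agent.W_7d29a1_C0.T0M57

/-!
MP_7d29a1_pr, [CURV0] (helper57), leaf (T): `t0L57 : Row57 μ s → T0L57 μ s K Θ`, the own block at the concrete frame.
-/

set_option autoImplicit false
set_option linter.unusedVariables false

namespace Pool.Agent.W_7d29a1_C0.TN57

open Finset MeasureTheory Filter Topology Pool.Agent.W_7d29a1_F Pool.Agent.W_7d29a1_X
open Pool.Agent.W_7d29a1_H (sl EE)
open Pool.Agent.W_7d29a1_HS (In wd)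
open Pool.Agent.W_7d29a1_HZ (wd' EE')
open Pool.Agent.W_7d29a1_C0 Pool.Agent.W_7d29a1_C0.Mod92 Pool.Agent.W_7d29a1_C0.Asm96 Pool.Agent.W_7d29a1_C0.Frm33
open Pool.Agent.W_7d29a1_C0.EstC46
open Pool.Agent.W_7d29a1_C0.T72 (TI72)
open Pool.Agent.W_7d29a1_C0.T93 (prN_all)
open Pool.Agent.W_7d29a1_C0.T0N92 (t0n92)
open Pool.Agent.W_7d29a1_C0.Par92 (Est Sml)
open Pool.Agent.W_7d29a1_C0.CrA44 (ge)

noncomputable section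

variable {μ : Measure ℝ} {s : ℝ} {K : ℕ} {Θ : ℝ}

/-- **THE OWN BLOCK OF (T).** -/
theorem t0L57 [IsProbabilityMeasure μ] {c₂ C : ℝ} {n₀ : ℕ} (h : In μ s c₂ C n₀) (hK : 32 ≤ K) {c₀ : ℝ}
    (hR : RegP46 μ s c₀ Θ) (hrow : Row57 μ s) : T0L57 μ s K Θ := by
  have hRR := hR
  obtain ⟨a, _, _, hRe⟩ := hR
  obtain ⟨aw, Kw, haw, haw1, hKw, hwd⟩ : ∃ a K : ℝ, 0 < a ∧ a < 1 ∧ 1 ≤ K ∧ ∀ m n : ℕ, 1 ≤ m → m ≤ n →
      wd' μ s m ≤ K * wd' μ s n ∧ K⁻¹ * ((n : ℝ) / m) ^ a * wd' μ s m ≤ wd' μ s n ∧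
      wd' μ s n ≤ K * ((n : ℝ) / m) ^ (1 - a) * wd' μ s m := Pool.Agent.W_7d29a1_HZ.Z96.wd_all96 h
  have hK0 : (0 : ℝ) < K := by
    have : 0 < K := by omega
    exact_mod_cast this
  have hK1 : (1 : ℝ) ≤ K := by
    have : 1 ≤ K := by omega
    exact_mod_cast this
  refine Sml.of fun δ hδ => ?_
  refine (Sml.and (Sml.le (show 0 < δ / 64 by positivity)) (Sml.le one_pos)).mono fun c hc h1 => ?_
  obtain ⟨hcδ, hc1⟩ := h1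
  obtain ⟨k, hk⟩ : ∃ k, k = c / 1000 := ⟨_, rfl⟩
  have hk0 : 0 < k := by rw [hk]; positivity
  refine ⟨k, hk0, ?_⟩
  refine (Sml.le (show 0 < k / 100 by positivity)).mono fun ι hι hιc => ?_
  have hικ : 0 < ι / K := by positivity
  have hικ1 : ι / K ≤ 1 := by
    rw [div_le_one hK0]
    linarith
  have hcK : 0 < c / K := by positivity
  have hcK1 : c / K ≤ 1 := by
    rw [div_le_one hK0]
    linarith
  obtain ⟨δ₂, κ₂, e₂, hδ₂, hκ₂, he₂, N₂, H₂⟩ := prN_all h 5 (ι / K) (c / K) hικ hcK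
  obtain ⟨εM, hεM⟩ : ∃ x, x = min (ι / K) (κ₂ / 2) := ⟨_, rfl⟩
  have hεM0 : 0 < εM := by rw [hεM]; exact lt_min hικ (by positivity)
  have hεM1 : εM ≤ ι / K := by rw [hεM]; exact min_le_left _ _
  have hεM2 : εM ≤ κ₂ / 2 := by rw [hεM]; exact min_le_right _ _
  obtain ⟨β₄, γ₀, hβ₄, hγ₀, H₄⟩ := hrow (c / K) εM (ι / K) 4 hcK hcK1 hεM0 hικ hικ1 (by norm_num)
  refine (Sml.le (show 0 < min β₄ ι by positivity)).mono fun β hβ hβ' => ?_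
  refine (Sml.le hγ₀).mono fun γ hγ hγ' => ?_
  have hβι : β ≤ ι := hβ'.trans (min_le_right _ _)
  have hββ₄ : β ≤ β₄ := hβ'.trans (min_le_left _ _)
  obtain ⟨δ₄, hδ₄, N₄, H₄⟩ := H₄ γ hγ hγ'
  obtain ⟨δm, hδm⟩ : ∃ x, x = min δ₂ δ₄ := ⟨_, rfl⟩
  have hδm0 : 0 < δm := by rw [hδm]; positivity
  have d2 : δm ≤ δ₂ := by rw [hδm]; exact min_le_left _ _
  have d4 : δm ≤ δ₄ := by rw [hδm]; exact min_le_right _ _
  filter_upwards [ev_L (by omega : 1 ≤ K) (max N₂ N₄), cone33 h hK hδm0, hRe δ ι hδ hι,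
    b0_33 hδ (show ι ≤ δ / 4 by linarith), ev_n hι (560 * Kw ^ 2 + 4 * Kw ^ 2 * wd' μ s 1 + 240), ev_n hc 16,
    ev_e57 (by omega : 1 ≤ K) he₂, ev_e57 (by omega : 1 ≤ K) hεM0, ev_n (show 0 < K * (κ₂ / 2) by positivity) 7,
    ev_n (show 0 < K * εM by positivity) 8, t0n92 hRR hδ hc (by linarith)] with m m1 m2 m3 m4 m5 m6 m7 m8 m9 m10 m11
  intro p q i hst hi D f hD hf t ht
  obtain ⟨R, hwdE⟩ := m3
  have T : Th57 μ s K m ι β c δ Θ k κ₂ e₂ εM Kw aw :=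
    ⟨hK, hc, hc1, by linarith, hk, hι, hιc, hβ, hβι, hεM0, hεM1, hεM2, haw, hKw, hwd, m4, m5, m6, m7, m8, m9, m10⟩
  have hn1 : (1 : ℝ) < ((2 ^ m : ℕ) : ℝ) := R.N1
  have hn0 : (0 : ℝ) < ((2 ^ m : ℕ) : ℝ) := by linarith
  have hn2 : 2 ^ m ≤ L33 K m := L33_ge (by omega) m
  have hn2' : ((2 ^ m : ℕ) : ℝ) ≤ ((L33 K m : ℕ) : ℝ) := by exact_mod_cast hn2
  have hL1 : (1 : ℝ) ≤ ((L33 K m : ℕ) : ℝ) := by linarith
  have k2 : N₂ ≤ L33 K m := (le_max_left _ _).trans m1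
  have k4 : N₄ ≤ L33 K m := (le_max_right _ _).trans m1
  -- the ends
  have hw0 : 0 ≤ wd' μ s (L33 K m) := zero_le_one.trans (le_max_left _ _)
  have hcone : ∀ δ' : ℝ, δm ≤ δ' → ∀ y ∈ ys33 μ s K m, y ≤ L33 K m ∧
      |(y : ℝ) - sl μ s * L33 K m| ≤ (L33 K m : ℝ) ^ δ' * wd' μ s (L33 K m) := fun δ' hδ' y hy => by
    have h2 := mem_Ico.1 (show y ∈ Ico (y33 μ s K m) (y33 μ s K m + M33 m) from hy)
    obtain ⟨h3, h4⟩ := m2.2.2 y (by omega) (by omega)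
    exact ⟨h3, h4.trans (mul_le_mul_of_nonneg_right (Real.rpow_le_rpow_of_exponent_le hL1 hδ') hw0)⟩
  have hys0 : (ys33 μ s K m).Nonempty := by
    refine ⟨y33 μ s K m, ?_⟩
    show y33 μ s K m ∈ Ico (y33 μ s K m) (y33 μ s K m + M33 m)
    rw [mem_Ico]
    have : 0 < M33 m := by unfold M33; positivity
    omega
  have hys' : ∀ y ∈ ys33 μ s K m, y ≤ L33 K m := fun y hy => (hcone δm le_rfl y hy).1
  obtain ⟨q0, l0, Rb, d, hR1, hR2, hR3⟩ := T.d57 R hst hi hys' hys0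
    (fun y hy => H₂ (L33 K m) k2 y (hcone δ₂ d2 y hy).1 (hcone δ₂ d2 y hy).2) (m11 p q hst k hk)
  have hB1 : 1 ≤ B33 β m := Real.one_le_rpow hn1.le hβ.le
  have hBN : B33 β m ≤ ((L33 K m : ℕ) : ℝ) ^ β₄ := by
    have h2 : B33 β m ≤ ((2 ^ m : ℕ) : ℝ) ^ β₄ := Real.rpow_le_rpow_of_exponent_le hn1.le hββ₄
    exact h2.trans (Real.rpow_le_rpow hn0.le hn2' (by linarith))
  -- the spectator
  have hid' : (i + 1) * 2 ^ q = i * 2 ^ q + 2 ^ q := by ring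
  have hid : (i + 1) * 2 ^ q ≤ 2 ^ m := by
    have hqm := hst.hqm
    have h2 : (i + 1) * 2 ^ q ≤ 2 ^ (m - q) * 2 ^ q := Nat.mul_le_mul_right _ hi
    rwa [← pow_add, Nat.sub_add_cancel hqm] at h2
  have hf' : Cls59 (L33 K m) (i * 2 ^ q) ((i + 1) * 2 ^ q) D f := hf
  have hD0 : 0 ≤ D := by
    obtain ⟨y, hy⟩ := hys0
    have := ne_Pn (hys' y hy)
    obtain ⟨S0⟩ := this
    exact (abs_nonneg _).trans (hf'.bdd y (fun _ => 0, ∅) S0)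
  have hD3 : D ≤ ((L33 K m : ℕ) : ℝ) ^ 3 := hD.trans (pow_le_pow_left₀ hn0.le hn2' 3)
  have ht' : |t| ≤ 1 := abs_le.2 ⟨ht.1, ht.2⟩
  have hbs := bs46 R hc (show 64 * c ≤ δ by linarith) hst.hp hst.hps hst.hsq hst.hqm hst.leg hst.pin
  have hNc : ((L33 K m : ℕ) : ℝ) ^ (c / K) = ((2 ^ m : ℕ) : ℝ) ^ c := by
    rw [L33_pow]
    congr 1
    field_simp
  have hb0c : ((2 ^ m : ℕ) : ℝ) ^ c ≤ ((2 ^ (p - ⌈ι * (m : ℝ)⌉₊) : ℕ) : ℝ) :=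
    (Real.rpow_le_rpow_of_exponent_le hn1.le (by linarith)).trans (m4 p hst.hp)
  have hzc := d.ho.zc
  have key := blk0_57 d (zero_le_one.trans hB1) (fun y S => hf'.meas y S) (fun y ω S => hf'.bdd y ω S)
    (X := fun j y => TI72 μ s (L33 K m) (Pn (L33 K m) y) γ (B33 β m) (2 ^ (p - ⌈ι * (m : ℝ)⌉₊)) j t
      (pJ 0 ((j / 2 ^ sg96 (EE μ s) c m p + 1) * 2 ^ sg96 (EE μ s) c m p)) (pS (2 ^ sg96 (EE μ s) c m p) j)
      (fun ω => ge μ s (L33 K m) (Pn (L33 K m) y) γ (B33 β m) (2 ^ (p - ⌈ι * (m : ℝ)⌉₊)) (2 ^ p) ω j) (f y))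
    (e := ((L33 K m : ℕ) : ℝ) ^ (-(4 : ℝ))) (by positivity) fun j hj y hy => by
      have hne := ne_Pn (hys' y hy)
      exact H₄ (L33 K m) k4 y (hcone δ₄ d4 y hy).1 (hcone δ₄ d4 y hy).2 (B33 β m) hB1 hBN _ (2 ^ p) j _
        (by rw [hNc]; exact hb0c) d.g.b0b d.g.hσ (d.lo4 j hj) (d.g.hi j hj) _ le_rfl (zt57 ι m q i) (i * 2 ^ q + 2 ^ q) (i * 2 ^ q)
        ((i + 1) * 2 ^ q) (d.g.zz j hj) (by omega) (by omega) (hid.trans hn2) Rb hR1 hR2 hR3 D f hD0 hD3 hf' t ht'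
  have hkey : |SR57 μ s (frm33 μ s K ι β γ) m p (Rw ((frm33 μ s K ι β γ).R m) (i * 2 ^ q) ((i + 1) * 2 ^ q)) t f
      (fun _ j => pJ 0 ((j / 2 ^ sg96 (EE μ s) c m p + 1) * 2 ^ sg96 (EE μ s) c m p)) (fun _ j => pS (2 ^ sg96 (EE μ s) c m p) j)| ≤
      kp46 Θ k m q * √(avy (ys33 μ s K m) (varF μ s (L33 K m) f)) +
        ((Rw (R33 ι m) (i * 2 ^ q) ((i + 1) * 2 ^ q)).card : ℝ) * ((L33 K m : ℕ) : ℝ) ^ (-(4 : ℝ)) := key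
  refine hkey.trans (add_le_add le_rfl ?_)
  -- the error
  have hScard : ((Rw (R33 ι m) (i * 2 ^ q) ((i + 1) * 2 ^ q)).card : ℝ) ≤ ((2 ^ m : ℕ) : ℝ) := by
    have h2 : Rw (R33 ι m) (i * 2 ^ q) ((i + 1) * 2 ^ q) ⊆ Ico (i * 2 ^ q) (i * 2 ^ q + 2 ^ q) := fun j hj => mem_Ico.2 (d.hS j hj)
    have h3 := card_le_card h2
    rw [Nat.card_Ico, Nat.add_sub_cancel_left] at h3
    have h4 : 2 ^ q ≤ 2 ^ m := Nat.pow_le_pow_right two_pos hst.hqm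
    exact_mod_cast h3.trans h4
  have h2 : ((L33 K m : ℕ) : ℝ) ^ (-(4 : ℝ)) ≤ ((2 ^ m : ℕ) : ℝ) ^ (-(2 : ℝ)) :=
    (Real.rpow_le_rpow_of_nonpos hn0 hn2' (by norm_num)).trans (Real.rpow_le_rpow_of_exponent_le hn1.le (by norm_num))
  calc ((Rw (R33 ι m) (i * 2 ^ q) ((i + 1) * 2 ^ q)).card : ℝ) * ((L33 K m : ℕ) : ℝ) ^ (-(4 : ℝ)) ≤
        ((2 ^ m : ℕ) : ℝ) * ((2 ^ m : ℕ) : ℝ) ^ (-(2 : ℝ)) := mul_le_mul hScard h2 (by positivity) hn0.le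
    _ = ((2 ^ m : ℕ) : ℝ)⁻¹ := by
        rw [← Real.rpow_neg_one]
        nth_rw 1 [← Real.rpow_one ((2 ^ m : ℕ) : ℝ)]
        rw [← Real.rpow_add hn0]
        norm_num

end

end Pool.Agent.W_7d29a1_C0.TN57
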