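import Mathlib

/-!
MP_7d29a1_pr, [CURV0] (helper92): leaf (T), own block. THE SIZES OF THE THREE FAMILIES OF T_0L (helper90 `T0E90`): the bounds of the double
sums over the rows of one block, divided by `2 r`. `pc t` is the price of a pair at the scale `t`, `tr`, `ts`, `tb`, `tD D` the scales of the
windows in the places of length `r`, `s`, `b`, `D`, `q` the number of pieces, `er` the error.
-/

set_option autoImplicit false

namespace Pool.Agent.W_7d29a1_C0.T0N92

open Finset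

noncomputable section

variable (pc : ℕ → ℝ) (q er : ℝ)

/-- Rows of one own block at distance `D ≥ 8 b`: the second loop between them. -/
def XA92 (tD : ℕ → ℕ) (b s : ℕ) : ℝ := 2 * ∑ D ∈ Ico (8 * b) s, pc (tD D)

/-- The family `U0`. -/
def S092 (tr ts r s : ℕ) : ℝ := s * (9 * q ^ 2 * pc tr * pc ts) + r * (9 * q ^ 2 * pc tr * pc ts ^ 2) + 2 * r * er

/-- The family `UM`. -/
def SM92 (tr tb r s b : ℕ) : ℝ :=
  (6 * q) ^ 4 * (8 * b * (pc tr * pc tb ^ 2) + s * (pc tr * pc tb ^ 3) + r * (pc tr * pc tb ^ 4)) + 2 * r * er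

/-- The family `UA`: two blocks by `N ^ 2 ≤ 16 b N + F`. -/
def SA92 (tr ts : ℕ) (tD : ℕ → ℕ) (r s b : ℕ) (e : ℝ) : ℝ :=
  (3 * q) ^ 4 * (8 * b * (pc tr * pc ts) + pc tr * pc ts * XA92 pc tD b s +
    4 * (r / s ^ 2) * (256 * b ^ 2 + s * XA92 pc tD b s) * (pc tr * pc ts ^ 2)) + e

/-- The gain of the near slab of T_0L. -/
def al92 (P B R : ℝ) (b : ℕ) (pb : ℝ) : ℝ := (P * √(28 * R * (B / 2) ^ 2 / b) * B ^ 2 / 2 + 5 * B ^ 3 * pb) * P

end

end Pool.Agent.W_7d29a1_C0.T0N92
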