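import Pool.Agent.W_7d29a1_C0.T0E90
import Pool.Agent.W_7d29a1_C0.T0D92
import Pool.Agent.W_7d29a1_C0.TT72
import Pool.Agent.W_7d29a1_C0.CrAsm44

/-!
MP_7d29a1_pr, [CURV0] (helper57), leaf (T), `T_0L`: THE LITERAL STATEMENT OF ONE ROW (`Row57`), between helper90 (row) and helper57 (Est layer).
-/

set_option autoImplicit false
set_option linter.unusedVariables false

namespace Pool.Agent.W_7d29a1_C0.TN57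

open Finset MeasureTheory Pool.Agent.W_7d29a1_F Pool.Agent.W_7d29a1_X
open Pool.Agent.W_7d29a1_H (sl)
open Pool.Agent.W_7d29a1_HZ (wd' EE')
open Pool.Agent.W_7d29a1_C0 Pool.Agent.W_7d29a1_C0.Mod92
open Pool.Agent.W_7d29a1_C0.T72 (NN72 TI72)
open Pool.Agent.W_7d29a1_C0.T93 (rw2)
open Pool.Agent.W_7d29a1_C0.T0E90 (U0F UAF UMF)
open Pool.Agent.W_7d29a1_C0.T0N92 (al92)
open Pool.Agent.W_7d29a1_C0.CrA44 (ge)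

noncomputable section

/-- **THE ROW OF `T_0L`**, one row, one end. -/
def Row57 (μ : Measure ℝ) (s : ℝ) : Prop := ∀ κ εM ε K1 : ℝ, 0 < κ → κ ≤ 1 → 0 < εM → 0 < ε → ε ≤ 1 → 0 ≤ K1 → ∃ β γ₀ : ℝ, 0 < β ∧ 0 < γ₀ ∧
  ∀ γ : ℝ, 0 < γ → γ ≤ γ₀ → ∃ δ' : ℝ, 0 < δ' ∧ ∃ N₀ : ℕ, ∀ N : ℕ, N₀ ≤ N → ∀ y : ℕ, y ≤ N →
  |(y : ℝ) - sl μ s * N| ≤ (N : ℝ) ^ δ' * wd' μ s N → ∀ [Nonempty (Px (Pn N y))], ∀ B : ℝ, 1 ≤ B → B ≤ (N : ℝ) ^ β →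
  ∀ b0 b j σ : ℕ, (N : ℝ) ^ κ ≤ b0 → b0 ≤ b → 0 < σ → j / σ * σ + 4 * b ≤ j → j + 4 * b ≤ (j / σ + 1) * σ →
  ∀ M : ℝ, (N : ℝ) ^ εM ≤ M → ∀ zt c cc d : ℕ, (j / σ + 1) * σ ≤ zt → zt ≤ c → c ≤ d → d ≤ N →
  ∀ R : ℝ, 1 ≤ R → R ≤ (N : ℝ) ^ 2 → (∀ k : ℕ, 1 ≤ k → k ≤ 8 * b → (N : ℝ) ^ ε * wd' μ s k ≤ R / 8) →
  ∀ (D : ℝ) (f : Fam N), 0 ≤ D → D ≤ (N : ℝ) ^ 3 → Cls59 N cc d D f → ∀ t : ℝ, |t| ≤ 1 →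
  |TI72 μ s N (Pn N y) γ B b0 j t (pJ 0 ((j / σ + 1) * σ)) (pS σ j) (fun ω => ge μ s N (Pn N y) γ B b0 b ω j) (f y)| ≤
    al92 ((N : ℝ) ^ ε) B R b ((N : ℝ) ^ ε * (EE' μ s b)⁻¹) * (1 / 2 * rw2 μ s N (NN72 N zt c) (U0F μ s N σ b M j) f y) +
      4 * B ^ 3 * (N : ℝ) ^ ε *
        (∑ n ∈ range b, (b : ℝ)⁻¹ * (1 / 2 * rw2 μ s N (NN72 N zt c) (UMF μ s N σ b b0 M (j + 2 * b + 1 + n) j) f y)) +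
      4 * B ^ 3 * (N : ℝ) ^ ε *
        (∑ n ∈ range b, (b : ℝ)⁻¹ * (1 / 2 * rw2 μ s N (NN72 N zt c) (UAF μ s N σ b M (j + 2 * b + 1 + n) j) f y)) +
      4 * B ^ 3 * (N : ℝ) ^ ε * (1 / 2 * rw2 μ s N (NN72 N zt c) (UAF μ s N σ b M (j + 4 * b) j) f y) + (N : ℝ) ^ (-K1)

end

end Pool.Agent.W_7d29a1_C0.TN57
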