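import Pool.Agent.W_7d29a1_C0.T0I90
import Pool.Agent.W_7d29a1_C0.T0R57

/-!
CURV0 (MP_7d29a1_pr), leaf (T), `T_0L` (helper90): THE ROW IN THE LITERAL FORM `TN57.Row57` (`row57_90`), from `T0I90.row90`.
-/

set_option autoImplicit false
set_option linter.unusedSectionVars false
set_option linter.unusedVariables false

namespace Pool.Agent.W_7d29a1_C0.T0L90

open Finset MeasureTheory Filter Topology
open Pool.Agent.W_7d29a1_C0 Pool.Agent.W_7d29a1_C0.Mod92 Pool.Agent.W_7d29a1_C0.Swap57 Pool.Agent.W_7d29a1_C0.NM82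
open Pool.Agent.W_7d29a1_C0.CutT57 Pool.Agent.W_7d29a1_C0.T72
open Pool.Agent.W_7d29a1_C0.CrA44 (ge)
open Pool.Agent.W_7d29a1_F Pool.Agent.W_7d29a1_X
open Pool.Agent.W_7d29a1_H (sl)
open Pool.Agent.W_7d29a1_HS (In)
open Pool.Agent.W_7d29a1_HZ (wd' EE')
open Pool.Agent.W_7d29a1_C0.H32
open Pool.W7d29a1.C0 Pool.W7d29a1.C0.VT31 Pool.W7d29a1.C0.T72
open Pool.W7d29a1.C0.H27 (QI)
open Pool.Agent.W_7d29a1_C0.T0F90 Pool.Agent.W_7d29a1_C0.T0G90 Pool.Agent.W_7d29a1_C0.T0H90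
open Pool.Agent.W_7d29a1_C0.T93 (rw2)
open Pool.Agent.W_7d29a1_C0.T0E90 (tI tI_nonneg bmB bpB U0F UAF UMF U0F_nonneg UAF_nonneg UMF_nonneg)
open Pool.Agent.W_7d29a1_C0.T0N92 (al92)

noncomputable section

variable {μ : Measure ℝ} {s : ℝ} {N : ℕ}

theorem rw2_nn90 {y : ℕ} [Nonempty (Px (Pn N y))] {zt c : ℕ} {U f : Fam N} (hU : ∀ ω S, 0 ≤ U y ω S) : 0 ≤ rw2 μ s N (NN72 N zt c) U f y :=
  integral_nonneg fun ω => PP_nonneg _ fun x z =>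
    mul_nonneg (mul_nonneg (NN72_nonneg zt c y ω x z) (add_nonneg (hU ω x) (hU ω z))) (abs_nonneg _)

theorem sum_Ioc90 (a n : ℕ) (F : ℕ → ℝ) : ∑ m ∈ Ioc a (a + n), F m = ∑ m ∈ range n, F (a + 1 + m) := by
  have e : Ioc a (a + n) = Ico (a + 1) (a + n + 1) := by
    ext m
    simp only [mem_Ioc, mem_Ico]
    omega
  rw [e, Finset.sum_Ico_eq_sum_range]
  congr 2
  omega

theorem cls_mono90 {N c d : ℕ} {D D' : ℝ} {f : Fam N} (hf : Cls59 N c d D f) (h : D ≤ D') : Cls59 N c d D' f where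
  meas := hf.meas
  bdd := fun y ω S => (hf.bdd y ω S).trans h
  side := hf.side
  env := hf.env
  sgn := hf.sgn

/-- The coefficient of the own pair. -/
theorem al_le90 {P B pb : ℝ} (N : ℕ) (ε R : ℝ) (b : ℕ) (hP : P = (N : ℝ) ^ ε) (hP0 : 0 ≤ P) (hB : 0 ≤ B) (hpb : 0 ≤ pb) :
    (gb72 N ε B R b * (B ^ 2 / 2) + B ^ 3 * pb) * P ≤ al92 P B R b pb := by
  unfold gb72 al92
  rw [hP] at hP0 ⊢
  refine mul_le_mul_of_nonneg_right ?_ hP0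
  have e1 : (7 : ℝ) * (4 : ℕ) * R * (B / 2) ^ 2 / b = 28 * R * (B / 2) ^ 2 / b := by
    push_cast
    ring
  rw [e1]
  have h1 : 0 ≤ B ^ 3 * pb := by positivity
  have e2 : (N : ℝ) ^ ε * √(28 * R * (B / 2) ^ 2 / b) * B ^ 2 / 2 = (N : ℝ) ^ ε * √(28 * R * (B / 2) ^ 2 / b) * (B ^ 2 / 2) := by ring
  rw [e2]
  linarith

/-- **THE ROW OF `T_0L`, IN THE LITERAL FORM.** -/
theorem row57_90 [IsProbabilityMeasure μ] {c₀ C₀ : ℝ} {n₀ : ℕ} (h : In μ s c₀ C₀ n₀)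
    (hQI : ∀ p : ℝ, 1 < p → ∃ C θ0 : ℝ, 0 ≤ C ∧ 0 < θ0 ∧ QI μ p C θ0) {f₀ f₀' : ℝ → ℝ} (hf₀ : DenLaw μ f₀ f₀') : TN57.Row57 μ s := by
  intro κ εM ε K1 hκ hκ1 hεM hε hε1 hK1
  obtain ⟨β, hβ, γ₀, hγ₀, hrow⟩ := row90 h hQI hf₀ hκ hκ1 hεM hε hε1 hK1
  refine ⟨β, γ₀, hβ, hγ₀, fun γ hγ hγ0 => ?_⟩
  obtain ⟨δ', hδ', N₀, hN₀⟩ := hrow γ hγ hγ0
  refine ⟨δ', hδ', max N₀ 1, fun N hN y hy hyc _ B hB1 hBβ b0 b j σ hb0 hb hσ hbm hbp M hM zt c cc d hz hzc hcd hdN R hR1 hR2 hRw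
    D f hD0 hD hf t ht => ?_⟩
  have kN : N₀ ≤ N := (le_max_left _ _).trans hN
  have k1 : 1 ≤ N := (le_max_right _ _).trans hN
  have r1 : (1 : ℝ) ≤ N := by exact_mod_cast k1
  have hP0 : 0 ≤ (N : ℝ) ^ ε := Real.rpow_nonneg (by linarith) _
  have hB0 : 0 ≤ B := by linarith
  have hEE : 0 < EE' μ s b := lt_of_lt_of_le one_pos (le_max_left _ _)
  have hpb : 0 ≤ (N : ℝ) ^ ε * (EE' μ s b)⁻¹ := by positivity
  have h1 := hN₀ N kN y hy hyc B hB1 hBβ b0 b j (bmB σ j) (bpB σ j) zt c cc d hb0 hb hbm hbp hz hzc hcd hdN R hR1 hR2 hRw M hM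
    (max D 1) f (lt_of_lt_of_le one_pos (le_max_right _ _)) (max_le hD (one_le_pow₀ r1)) (cls_mono90 hf (le_max_left _ _)) t ht
  have w0 : 0 ≤ rw2 μ s N (NN72 N zt c) (U0F μ s N σ b M j) f y := rw2_nn90 fun ω S => U0F_nonneg σ b M j y ω S
  have wA : ∀ m, 0 ≤ rw2 μ s N (NN72 N zt c) (UAF μ s N σ b M m j) f y := fun m => rw2_nn90 fun ω S => UAF_nonneg σ b M m j y ω S
  have wM : ∀ m, 0 ≤ rw2 μ s N (NN72 N zt c) (UMF μ s N σ b b0 M m j) f y := fun m =>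
    rw2_nn90 fun ω S => UMF_nonneg σ b b0 M m j y ω S
  have hco : 0 ≤ B ^ 3 * (N : ℝ) ^ ε := by positivity
  have e3 : j + 3 * b = j + 2 * b + b := by ring
  have sA : ∑ m ∈ J9 j b, (b : ℝ)⁻¹ * rw2 μ s N (NN72 N zt c) (UA9 μ s N (bpB σ j) (bmB σ j) b M m j) f y =
      2 * ∑ n ∈ range b, (b : ℝ)⁻¹ * (1 / 2 * rw2 μ s N (NN72 N zt c) (UAF μ s N σ b M (j + 2 * b + 1 + n) j) f y) := by
    unfold J9
    rw [e3, sum_Ioc90, mul_sum]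
    exact sum_congr rfl fun n _ => by
      show (b : ℝ)⁻¹ * rw2 μ s N (NN72 N zt c) (UAF μ s N σ b M (j + 2 * b + 1 + n) j) f y = _
      ring
  have sM : ∑ m ∈ J9 j b, (b : ℝ)⁻¹ * rw2 μ s N (NN72 N zt c) (UM9 μ s N (bpB σ j) b b0 M m j) f y =
      2 * ∑ n ∈ range b, (b : ℝ)⁻¹ * (1 / 2 * rw2 μ s N (NN72 N zt c) (UMF μ s N σ b b0 M (j + 2 * b + 1 + n) j) f y) := by
    unfold J9
    rw [e3, sum_Ioc90, mul_sum]
    exact sum_congr rfl fun n _ => by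
      show (b : ℝ)⁻¹ * rw2 μ s N (NN72 N zt c) (UMF μ s N σ b b0 M (j + 2 * b + 1 + n) j) f y = _
      ring
  rw [sA, sM] at h1
  have pA : 0 ≤ ∑ n ∈ range b, (b : ℝ)⁻¹ * (1 / 2 * rw2 μ s N (NN72 N zt c) (UAF μ s N σ b M (j + 2 * b + 1 + n) j) f y) :=
    sum_nonneg fun n _ => mul_nonneg (by positivity) (mul_nonneg (by norm_num) (wA _))
  have pM : 0 ≤ ∑ n ∈ range b, (b : ℝ)⁻¹ * (1 / 2 * rw2 μ s N (NN72 N zt c) (UMF μ s N σ b b0 M (j + 2 * b + 1 + n) j) f y) :=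
    sum_nonneg fun n _ => mul_nonneg (by positivity) (mul_nonneg (by norm_num) (wM _))
  have q0 := mul_le_mul_of_nonneg_right (al_le90 (P := (N : ℝ) ^ ε) (B := B) N ε R b rfl hP0 hB0 hpb)
    (mul_nonneg (by norm_num : (0 : ℝ) ≤ 1 / 2) w0)
  have qA := mul_nonneg hco pA
  have qM := mul_nonneg hco pM
  have qH := mul_nonneg hco (wA (j + 4 * b))
  refine h1.trans ?_
  show (gb72 N ε B R b * (B ^ 2 / 2) + B ^ 3 * ((N : ℝ) ^ ε * (EE' μ s b)⁻¹)) * (N : ℝ) ^ ε *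
      (1 / 2 * rw2 μ s N (NN72 N zt c) (U0F μ s N σ b M j) f y) + _ + B ^ 3 * (N : ℝ) ^ ε *
      rw2 μ s N (NN72 N zt c) (UAF μ s N σ b M (j + 4 * b) j) f y + _ + _ ≤ _
  linarith

end

end Pool.Agent.W_7d29a1_C0.T0L90
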