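import Pool.Agent.W_7d29a1_C0.TH72

/-!
CURV0 (MP_7d29a1_pr), leaf (T), THE EST LAYER (helper93): `th93` = all the hypotheses `TH72` of a level (or of the jump) hold at the
concrete frame `frm33`, in the order of `Est` (first `ι`, then `κP`, `cP`, `cC`, `εM = min (ι / K) (κP / 2)`, then `β`, then `γ`, then `m`).
-/

set_option autoImplicit false
set_option linter.unusedSectionVars false
set_option linter.unusedVariables false

namespace Pool.Agent.W_7d29a1_C0.THE93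

open Finset MeasureTheory Filter Topology
open Pool.Agent.W_7d29a1_C0 Pool.Agent.W_7d29a1_C0.Mod92
open Pool.Agent.W_7d29a1_F Pool.Agent.W_7d29a1_X
open Pool.Agent.W_7d29a1_H (sl EE)
open Pool.Agent.W_7d29a1_HS (In wd)
open Pool.Agent.W_7d29a1_HZ (wd' EE')
open Pool.Agent.W_7d29a1_C0.T93 (PrN er prN_all)
open Pool.Agent.W_7d29a1_C0.Asm96 Pool.Agent.W_7d29a1_C0.EstC46
open Pool.Agent.W_7d29a1_C0.Frm33
open Pool.Agent.W_7d29a1_C0.Par92 (Sml Est)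
open Pool.Agent.W_7d29a1_C0.T72

noncomputable section

variable {μ : Measure ℝ} {s : ℝ}

/-- The powers of the length of the paths are large. -/
theorem ev_Lp93 {K : ℕ} (hK : 1 ≤ K) {a : ℝ} (ha : 0 < a) (C : ℝ) : ∀ᶠ m : ℕ in atTop, C ≤ (L33 K m : ℝ) ^ a := by
  have hK0 : (0 : ℝ) < K := by exact_mod_cast hK
  filter_upwards [ev_n (show 0 < K * a by positivity) C] with m hm
  rw [L33_pow]
  exact hm

/-- The errors are smaller than every power. -/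
theorem ev_exp93 {K : ℕ} (hK : 1 ≤ K) {c' : ℝ} (hc : 0 < c') (k : ℝ) : ∀ᶠ m : ℕ in atTop,
    Real.exp (-(L33 K m : ℝ) ^ c') ≤ ((2 ^ m : ℕ) : ℝ) ^ (-k) := by
  have hK0 : (0 : ℝ) < K := by exact_mod_cast hK
  have ha : 0 < K * c' := by positivity
  have h1 := (tendsto_rpow_mul_exp_neg_mul_atTop_nhds_zero (k / (K * c')) 1 one_pos).comp ((tendsto_rpow_atTop ha).comp tend_n)
  filter_upwards [h1.eventually_le_const one_pos] with m hm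
  simp only [Function.comp] at hm
  have hn0 : (0 : ℝ) < ((2 ^ m : ℕ) : ℝ) := lt_of_lt_of_le one_pos (n_ge1 m)
  rw [← Real.rpow_mul hn0.le, mul_div_cancel₀ _ ha.ne', neg_one_mul] at hm
  rw [L33_pow, Real.rpow_neg hn0.le, ← one_div, le_div_iff₀ (Real.rpow_pos_of_pos hn0 _), mul_comm]
  exact hm

/-- The pinned ends are in the cone. -/
theorem cone93 [IsProbabilityMeasure μ] {c C : ℝ} {n₀ : ℕ} (h : In μ s c C n₀) {K : ℕ} (hK : 32 ≤ K) {δ : ℝ} (hδ : 0 < δ) :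
    ∀ᶠ m : ℕ in atTop, ∀ y ∈ ys33 μ s K m,
      y ≤ L33 K m ∧ |(y : ℝ) - sl μ s * L33 K m| ≤ (L33 K m : ℝ) ^ δ * wd' μ s (L33 K m) := by
  filter_upwards [cone33 h hK hδ] with m h3 y hy
  have h5 := mem_Ico.1 (show y ∈ Ico (y33 μ s K m) (y33 μ s K m + M33 m) from hy)
  exact h3.2.2 y (by omega) (by omega)

theorem ys_ne93 (K m : ℕ) : (ys33 μ s K m).Nonempty := by
  have h : 1 ≤ M33 m := Nat.one_le_two_pow
  exact nonempty_Ico.2 (by omega)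

/-- The finer window. -/
theorem b0p93 {ι : ℝ} (hι : 0 < ι) : ∀ᶠ m : ℕ in atTop, ∀ p : ℕ, 2 ^ (p - ⌈ι * (m : ℝ)⌉₊) ≤ 2 ^ p ∧
    ((2 ^ p : ℕ) : ℝ) ≤ ((2 ^ m : ℕ) : ℝ) ^ (2 * ι) * ((2 ^ (p - ⌈ι * (m : ℝ)⌉₊) : ℕ) : ℝ) := by
  filter_upwards [ev_n hι 2] with m hm p
  refine ⟨Nat.pow_le_pow_right two_pos (Nat.sub_le _ _), ?_⟩
  obtain ⟨k, hk⟩ : ∃ k, k = ⌈ι * (m : ℝ)⌉₊ := ⟨_, rfl⟩
  rw [← hk]
  have hn0 : (0 : ℝ) < ((2 ^ m : ℕ) : ℝ) := lt_of_lt_of_le one_pos (n_ge1 m)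
  have h1 : (2 : ℕ) ^ p ≤ 2 ^ k * 2 ^ (p - k) := by
    rw [← pow_add]
    exact Nat.pow_le_pow_right two_pos (by omega)
  have h2 : ((2 ^ k : ℕ) : ℝ) ≤ ((2 ^ m : ℕ) : ℝ) ^ (2 * ι) := by
    have h3 : (k : ℝ) ≤ ι * m + 1 := by
      rw [hk]
      exact (Nat.ceil_lt_add_one (by positivity)).le
    calc ((2 ^ k : ℕ) : ℝ) = (2 : ℝ) ^ (k : ℝ) := by
          push_cast
          rw [Real.rpow_natCast]
      _ ≤ 2 ^ (ι * m + 1) := Real.rpow_le_rpow_of_exponent_le one_le_two h3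
      _ = ((2 ^ m : ℕ) : ℝ) ^ ι * 2 := by
          rw [Real.rpow_add two_pos, Real.rpow_one]
          push_cast
          rw [← Real.rpow_natCast 2 m, ← Real.rpow_mul two_pos.le, mul_comm ι (m : ℝ)]
      _ ≤ ((2 ^ m : ℕ) : ℝ) ^ ι * ((2 ^ m : ℕ) : ℝ) ^ ι := mul_le_mul_of_nonneg_left hm (Real.rpow_nonneg hn0.le _)
      _ = _ := by
          rw [← Real.rpow_add hn0]
          ring_nf
  calc ((2 ^ p : ℕ) : ℝ) ≤ ((2 ^ k * 2 ^ (p - k) : ℕ) : ℝ) := by exact_mod_cast h1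
    _ = ((2 ^ k : ℕ) : ℝ) * ((2 ^ (p - k) : ℕ) : ℝ) := by
        push_cast
        ring
    _ ≤ _ := mul_le_mul_of_nonneg_right h2 (Nat.cast_nonneg _)

/-- **ALL THE HYPOTHESES OF A LEVEL (OR OF THE JUMP) AT THE CONCRETE FRAME.** -/
theorem th93 [IsProbabilityMeasure μ] {c₁ C₁ : ℝ} {n₀ : ℕ} (hin : In μ s c₁ C₁ n₀)
    (hQI : ∀ p : ℝ, 1 < p → ∃ C θ0 : ℝ, 0 ≤ C ∧ 0 < θ0 ∧ Pool.W7d29a1.C0.H27.QI μ p C θ0) {f₀ f₀' : ℝ → ℝ}
    (hf₀ : Pool.Agent.W_7d29a1_C0.H32.DenLaw μ f₀ f₀') (hMic : TN57.MicG57 μ s) {K : ℕ} (hK : 32 ≤ K) {Θ : ℝ} (hΘ : 0 < Θ)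
    {c₀ : ℝ} (hR : RegP46 μ s c₀ Θ) {δ c : ℝ} (hδ : 0 < δ) (hc : 0 < c) (hc1 : c ≤ 1) :
    ∃ a : ℝ, 0 < a ∧ a < 1 ∧ ∃ Kw : ℝ, ∀ ϵ : ℝ, 0 < ϵ → Est fun ι β γ m => ∃ εM κP cP cC : ℝ,
      TH72 μ s (frm33 μ s K ι β γ) (wd μ s) c₀ Θ δ a ϵ c ι (c / K) (ι / K) εM κP cP cC Kw m := by
  obtain ⟨a, ha, ha1, hreg⟩ := hR
  obtain ⟨a', Kw, -, -, hKw, hwK⟩ := Pool.Agent.W_7d29a1_HZ.wd'_pow hin
  refine ⟨a, ha, ha1, Kw, fun ϵ hϵ => ?_⟩
  have hKr : (32 : ℝ) ≤ K := by exact_mod_cast hK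
  have hK0 : (0 : ℝ) < K := by linarith
  have hK1 : 1 ≤ K := by omega
  have hK6 : 6 ≤ K := by omega
  refine ⟨1, one_pos, fun ι hι hι1 => ?_⟩
  have hε0 : 0 < ι / K := by positivity
  have hε1 : ι / K ≤ 1 := by
    rw [div_le_one hK0]
    linarith
  have hκ0 : 0 < c / K := by positivity
  have hκ1 : c / K ≤ 1 := by
    rw [div_le_one hK0]
    linarith
  obtain ⟨δ₁, κP, cP, hδ₁, hκP, hcP, N₁, h1⟩ := prN_all hin 5 (ι / K) (c / K) hε0 hκ0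
  obtain ⟨δ₂, cC, hδ₂, hcC, N₂, h2⟩ := coneY72 hin hε0
  obtain ⟨δ₃, β₁, hδ₃, hβ₁, N₃, h3⟩ := levY72 hin hQI hf₀ hκ0 hκ1 hε0 hε1 zero_le_one
  obtain ⟨εM, hεM⟩ : ∃ εM, εM = min (ι / K) (κP / 2) := ⟨_, rfl⟩
  have hεM0 : 0 < εM := by
    rw [hεM]
    exact lt_min hε0 (by positivity)
  have hεM1 : εM ≤ ι / K := hεM ▸ min_le_left _ _
  have hεM2 : εM ≤ κP / 2 := hεM ▸ min_le_right _ _
  obtain ⟨β₂, γ₀, hβ₂, hγ₀, h4⟩ := micY72 hMic (c / K) εM (ι / K) 1 hκ0 hκ1 hεM0 hε0 zero_le_one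
  refine ⟨min (min (Θ / 16) ι) (min (K * β₁) (K * β₂)), by positivity, fun β hβ hβ' => ?_⟩
  have hβΘ : β ≤ Θ / 16 := hβ'.trans ((min_le_left _ _).trans (min_le_left _ _))
  have hβι : β ≤ ι := hβ'.trans ((min_le_left _ _).trans (min_le_right _ _))
  have hβ1 : β ≤ K * β₁ := hβ'.trans ((min_le_right _ _).trans (min_le_left _ _))
  have hβ2 : β ≤ K * β₂ := hβ'.trans ((min_le_right _ _).trans (min_le_right _ _))
  refine ⟨γ₀, hγ₀, fun γ hγ hγ' => ?_⟩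
  obtain ⟨δ₄, hδ₄, N₄, h5⟩ := h4 γ hγ hγ'
  have hd1 : 0 < min δ 1 := lt_min hδ one_pos
  filter_upwards [hreg δ ϵ hδ hϵ, hreg (min δ 1) ϵ hd1 hϵ, ev_L hK1 (max (max N₁ N₂) (max N₃ N₄)), cone93 hin hK hδ₁,
    cone93 hin hK hδ₂, cone93 hin hK hδ₃, cone93 hin hK hδ₄, b0p93 hι, ev_n hc 16, ev_n hι 240, ev_n hι (560 * Kw ^ 2),
    ev_n hϵ 64, ev_Lp93 hK1 (show 0 < κP / 2 by positivity) 7, ev_exp93 hK1 hcP 1, ev_exp93 hK1 hcC 8]
    with m r1 r2 r3 k1 k2 k3 k4 r4 r5 r6 r7 r8 r9 r10 r11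
  have hn1 := n_ge1 m
  have hn0 : (0 : ℝ) < ((2 ^ m : ℕ) : ℝ) := by linarith
  have hL1 : (1 : ℝ) ≤ (L33 K m : ℝ) := by
    have : 1 ≤ L33 K m := Nat.one_le_two_pow
    exact_mod_cast this
  have hL0 : (0 : ℝ) < (L33 K m : ℝ) := by linarith
  have hN1 : N₁ ≤ L33 K m := ((le_max_left _ _).trans (le_max_left _ _)).trans r3
  have hN2 : N₂ ≤ L33 K m := ((le_max_right _ _).trans (le_max_left _ _)).trans r3
  have hN3 : N₃ ≤ L33 K m := ((le_max_left _ _).trans (le_max_right _ _)).trans r3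
  have hN4 : N₄ ≤ L33 K m := ((le_max_right _ _).trans (le_max_right _ _)).trans r3
  have hB1 : (1 : ℝ) ≤ B33 β m := Real.one_le_rpow hn1 hβ.le
  have hBp : ∀ b : ℝ, β ≤ K * b → B33 β m ≤ (L33 K m : ℝ) ^ b := fun b hb => by
    rw [L33_pow]
    exact Real.rpow_le_rpow_of_exponent_le hn1 hb
  have hKc : (K : ℝ) * (c / K) = c := by field_simp
  have hKι : (K : ℝ) * (ι / K) = ι := by field_simp
  have hlo : ((2 ^ m : ℕ) : ℝ) ^ min δ 1 ≤ ((2 ^ m : ℕ) : ℝ) :=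
    (Real.rpow_le_rpow_of_exponent_le hn1 (min_le_right _ _)).trans (Real.rpow_one _).le
  refine ⟨εM, κP, cP, cC, ?_⟩
  exact
    { ok := ⟨L33_ge (by omega) m, R33_sub ι m, hy33 hK6 m, hB1, Real.rpow_le_rpow_of_exponent_le hn1 hβΘ⟩
      reg := r1.1
      rows := Subset.rfl
      ys0 := ys_ne93 K m
      lev := h3 (L33 K m) hN3 (ys33 μ s K m) (ys_ne93 K m) k3 (B33 β m) hB1 (hBp _ hβ1)
      mic := fun y hy => by
        intro hne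
        have : Nonempty (Px (Pn (L33 K m) y)) := hne
        exact h5 (L33 K m) hN4 y (k4 y hy).1 (k4 y hy).2 (B33 β m) hB1 (hBp _ hβ2)
      pr := fun y hy k hk => h1 (L33 K m) hN1 y (k1 y hy).1 (k1 y hy).2 k hk
      cone := fun y hy => h2 (L33 K m) hN2 y (k2 y hy).1 (k2 y hy).2
      Nκ := by
        show (L33 K m : ℝ) ^ (c / K) = _
        rw [L33_pow, hKc]
      Nε := by
        show (L33 K m : ℝ) ^ (ι / K) = _
        rw [L33_pow, hKι]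
      NM := Real.one_le_rpow hL1 hεM0.le
      NM1 := by
        show (L33 K m : ℝ) ^ εM ≤ _
        refine (Real.rpow_le_rpow_of_exponent_le hL1 hεM1).trans (le_of_eq ?_)
        rw [L33_pow, hKι]
      NM7 := by
        show 7 * (L33 K m : ℝ) ^ εM ≤ (L33 K m : ℝ) ^ κP
        calc 7 * (L33 K m : ℝ) ^ εM ≤ (L33 K m : ℝ) ^ (κP / 2) * (L33 K m : ℝ) ^ (κP / 2) :=
              mul_le_mul r9 (Real.rpow_le_rpow_of_exponent_le hL1 hεM2) (by positivity) (by positivity)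
          _ = _ := by
              rw [← Real.rpow_add hL0]
              congr 1
              ring
      NL := by
        show ((2 ^ m : ℕ) : ℝ) ^ 6 ≤ (L33 K m : ℝ)
        rw [← M33_real]
        exact_mod_cast M33_le hK6 m
      BI := Real.rpow_le_rpow_of_exponent_le hn1 hβι
      b0p := fun p _ => r4 p
      wn := by
        rw [r2.2 _ hlo]
        exact r2.1.wle _ ⟨hlo, le_rfl⟩
      Kw1 := hKw
      wK := fun k k' h h' => (hwK k k' h h').1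
      wd := r1.2
      n16 := r5
      n240 := r6
      nKw := r7
      nϵ := r8
      erP := by
        show ((2 ^ m : ℕ) : ℝ) * Real.exp (-(L33 K m : ℝ) ^ cP) ≤ 1
        refine (mul_le_mul_of_nonneg_left r10 hn0.le).trans (le_of_eq ?_)
        rw [Real.rpow_neg_one]
        exact mul_inv_cancel₀ hn0.ne'
      erC := r11 }

end

end Pool.Agent.W_7d29a1_C0.THE93
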