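import Pool.Agent.W_7d29a1_C0.PT93D
import Pool.Agent.W_7d29a1_C0.TT72
import Pool.Agent.W_7d29a1_C0.EvU50

/-!
CURV0 (MP_7d29a1_pr), leaf (T), PRICES, part 5: the hypotheses `hp0`, `hp1` of `lev72` (helper72) FOR ALL ROWS of a level. `GT` = the
geometry of a level (rows `j`, slab behind `a0 j`, own pair `[a0 j, z j]` resp. `[h j, z j]` given what is behind `z' j ≤ zt`, outer tie
`[zt, c]`). `own_pr`, `own_prt` (the last level: all rows have the same `z' j`), `mic_pr`, `mic_prt`, with the functions `phO`, `phOt`, `phM`,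
`phMt` of the distance. Micro ties: `RpM` of helper50 (`mcS_of_rpM`), or any functional below `mcS`. (helper93)
-/

set_option autoImplicit false
set_option linter.unusedSectionVars false
set_option linter.unusedVariables false

namespace Pool.Agent.W_7d29a1_C0.T93

open MeasureTheory ProbabilityTheory Filter Topology Finset
open Pool.Agent.W_7d29a1_F Pool.Agent.W_7d29a1_X
open Pool.Agent.W_7d29a1_H (sl)
open Pool.Agent.W_7d29a1_HS (In)
open Pool.Agent.W_7d29a1_HZ (wd' EE')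
open Pool.Agent.W_7d29a1_C0.Mod92
open Pool.Agent.W_7d29a1_C0.T72 (UQ72 NN72 one72 ind72 ind72_nonneg ind72_le_one UQ72_nonneg UQ72_le_one)
open Pool.Agent.W_7d29a1_C0.EvT50 (RpM)
open Pool.W7d29a1.C0 (gz gm gz_pos gm_mono gm_add gm_smul gm_const gm_nonneg PP PP_eq)
open Pool.W7d29a1.C0.VT31 (Mp cE fz fz_pos cE_mono cE_nonneg cE_one gm_eq_cE cE_add gv)
open Pool.W7d29a1.C0.R43 (Tau Rp mI mI_nonneg st tau_rp swP_pJ MxQ)
open Pool.Agent.W_7d29a1_C0.Swap57 (NI NI_nonneg cE2)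

noncomputable section

variable {μ : Measure ℝ} {s : ℝ} {N y : ℕ} {ε θ κ c' : ℝ}

/-! ### The prices as means over one path -/

theorem avy_le93 {ys : Finset ℕ} {Φ : ℕ → ℝ} {X : ℝ} (hX : 0 ≤ X) (h : ∀ y ∈ ys, Φ y ≤ X) : avy ys Φ ≤ X := by
  unfold avy
  have h1 : ∑ y ∈ ys, Φ y ≤ ys.card * X := (sum_le_sum h).trans (le_of_eq (by rw [sum_const, nsmul_eq_mul]))
  have h2 : (ys.card : ℝ)⁻¹ * (ys.card * X) ≤ X := by
    rcases Nat.eq_zero_or_pos ys.card with h3 | h3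
    · rw [h3, Nat.cast_zero, zero_mul, mul_zero]
      exact hX
    · have h4 : (ys.card : ℝ) ≠ 0 := by positivity
      rw [← mul_assoc, inv_mul_cancel₀ h4, one_mul]
  exact (mul_le_mul_of_nonneg_left h1 (by positivity)).trans h2

theorem pr2_IG (hy : y ≤ N) (zt c : ℕ) (U U' : Fam N) : pr2 μ s N (NN72 N zt c) U U' y =
    IG μ s N y fun ω x => ow (wm μ s N (Pn N y) ω) zt c N x * (U y ω x * U' y ω x) := by
  unfold pr2 IG
  refine integral_congr_ae (Filter.Eventually.of_forall fun ω => ?_)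
  exact PP_out hy _ (fun x z => NI zt c x z) fun x => U y ω x * U' y ω x

theorem pr2_swap (Nn : Fam2 N) (U U' : Fam N) (y : ℕ) : pr2 μ s N Nn U U' y = pr2 μ s N Nn U' U y := by
  unfold pr2
  refine integral_congr_ae (Filter.Eventually.of_forall fun ω => ?_)
  show PP _ _ = PP _ _
  congr 1
  funext x z
  rw [mul_comm (U y ω x)]

theorem rdist_swap (j k : ℕ) : rdist j k = rdist k j := by
  unfold rdist
  omega

theorem rdist_of_le {j k : ℕ} (h : j ≤ k) : rdist j k = k - j := by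
  unfold rdist
  omega

/-- The alternatives of helper50 are below the sum over the pieces. -/
theorem mcS_of_rpM (m b j l q : ℕ) (M : ℝ) (ω : Env × Finset ℕ) (x : Px (Pn N y)) :
    ind72 (fun ω => RpM (wm μ s N (Pn N y) ω) (pJ 0 m) b j l q M) ω x ≤ mcS (wm μ s N (Pn N y) ω) m b j l q M x := by
  classical
  have h0 := mcS_nonneg (wm μ s N (Pn N y) ω) m b j l q M x
  have key : ∀ n < 6 * q, Real.exp (-(7 * M)) < cE (wm μ s N (Pn N y) ω) (pJ 0 m) (NI (pst b j l q n) (pst b j l q n + l) x) x →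
      1 ≤ mcS (wm μ s N (Pn N y) ω) m b j l q M x := fun n hn h1 => by
    have h2 := single_le_sum (f := fun n => rpI (wm μ s N (Pn N y) ω) m (pst b j l q n) (pst b j l q n + l) M x)
      (fun n _ => rpI_nonneg _ _ _ _ _ _) (mem_range.2 hn)
    have h3 : rpI (wm μ s N (Pn N y) ω) m (pst b j l q n) (pst b j l q n + l) M x = 1 := by
      unfold rpI
      exact if_pos h1
    rw [h3] at h2
    exact h2
  unfold ind72
  split_ifs with h
  · rcases h with ⟨n, hn, h1⟩ | ⟨n, hn, h1⟩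
    · refine key n (by omega) ?_
      have e : pst b j l q n = st (j - b) l n := if_pos hn
      rw [e]
      exact h1
    · refine key (n + 3 * q) (by omega) ?_
      have e : pst b j l q (n + 3 * q) = st j l n := by
        unfold pst
        rw [if_neg (by omega), Nat.add_sub_cancel]
      rw [e]
      exact h1
  · exact h0

/-! ### The geometry of a level -/

/-- The geometry of a level. -/
structure GT (N : ℕ) (θ : ℝ) (S : Finset ℕ) (a0 h z z' : ℕ → ℕ) (zt c tr tl b : ℕ) : Prop where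
  tr0 : (N : ℝ) ^ θ ≤ tr
  tr1 : tr ≤ N
  tl0 : (N : ℝ) ^ θ ≤ tl
  tl1 : tl ≤ N
  zc : zt + 1 + tr / 4 ≤ c
  cN : c ≤ N
  ja : ∀ j ∈ S, j + b ≤ a0 j
  ah : ∀ j ∈ S, a0 j ≤ h j
  hz : ∀ j ∈ S, h j + 1 + tl / 4 ≤ z j
  zz : ∀ j ∈ S, z j ≤ z' j
  zzt : ∀ j ∈ S, z' j ≤ zt

variable {S : Finset ℕ} {a0 h z z' : ℕ → ℕ} {zt c tr tl b tb l q Df : ℕ} {M : ℝ}

theorem GT.rt (g : GT N θ S a0 h z z' zt c tr tl b) {k : ℕ} (hk : k ∈ S) : Rt N θ zt c tr tl (a0 k) (z k) (z' k) :=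
  ⟨g.tr0, g.tr1, g.tl0, g.tl1, g.zc, g.cN, by have := g.ah k hk; have := g.hz k hk; omega, g.zz k hk, g.zzt k hk⟩

theorem GT.rth (g : GT N θ S a0 h z z' zt c tr tl b) {k : ℕ} (hk : k ∈ S) : Rt N θ zt c tr tl (h k) (z k) (z' k) :=
  ⟨g.tr0, g.tr1, g.tl0, g.tl1, g.zc, g.cN, g.hz k hk, g.zz k hk, g.zzt k hk⟩

/-! ### The functions of the distance -/

/-- Own pairs. -/
def phO (μ : Measure ℝ) (s : ℝ) (N : ℕ) (ε c' : ℝ) (tr tl Df D : ℕ) : ℝ :=
  if D < Df then pc μ s N ε tr * pc μ s N ε tl + er N c' else pc μ s N ε tr * pc μ s N ε tl * pc μ s N ε tl + er N c'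

/-- Own pairs, the last level. -/
def phOt (μ : Measure ℝ) (s : ℝ) (N : ℕ) (ε c' : ℝ) (tr tl Df D : ℕ) : ℝ :=
  if D < Df then pc μ s N ε tr * pc μ s N ε tl + er N c' else
    (pc μ s N ε tr * pc μ s N ε tl * pc μ s N ε tl + er N c') + (pc μ s N ε tr * pc μ s N ε D + er N c')

/-- The price of two rows in one loop. -/
def phN (μ : Measure ℝ) (s : ℝ) (N : ℕ) (ε c' : ℝ) (tr tl tb q D : ℕ) : ℝ :=
  (6 * q) ^ 2 * (pc μ s N ε tr * pc μ s N ε tl * pc μ s N ε tb * pc μ s N ε tb + er N c') +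
    6 * q * (pc μ s N ε tr * pc μ s N ε tl * pc μ s N ε D + er N c')

/-- Own pairs with micro ties. -/
def phM (μ : Measure ℝ) (s : ℝ) (N : ℕ) (ε c' : ℝ) (tr tl tb b q Df D : ℕ) : ℝ :=
  if D < 4 * b then 6 * q * (pc μ s N ε tr * pc μ s N ε tl * pc μ s N ε tb + er N c') else
    if D < Df then phN μ s N ε c' tr tl tb q D else
      (6 * q) ^ 2 * (pc μ s N ε tr * pc μ s N ε tl * pc μ s N ε tb * pc μ s N ε tl * pc μ s N ε tb + er N c')

/-- Own pairs with micro ties, the last level. -/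
def phMt (μ : Measure ℝ) (s : ℝ) (N : ℕ) (ε c' : ℝ) (tr tl tb b q Df D : ℕ) : ℝ :=
  if D < 4 * b then 6 * q * (pc μ s N ε tr * pc μ s N ε tl * pc μ s N ε tb + er N c') else
    if D < Df then phN μ s N ε c' tr tl tb q D else
      (6 * q) ^ 2 * (pc μ s N ε tr * pc μ s N ε tl * pc μ s N ε tb * pc μ s N ε tb + er N c')

theorem phO_nonneg (tr tl Df D : ℕ) : 0 ≤ phO μ s N ε c' tr tl Df D := by
  have h1 := pc_nonneg (μ := μ) (s := s) N ε tr
  have h2 := pc_nonneg (μ := μ) (s := s) N ε tl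
  have h3 := er_nonneg N c'
  unfold phO
  split_ifs <;> positivity

theorem phOt_nonneg (tr tl Df D : ℕ) : 0 ≤ phOt μ s N ε c' tr tl Df D := by
  have h1 := pc_nonneg (μ := μ) (s := s) N ε tr
  have h2 := pc_nonneg (μ := μ) (s := s) N ε tl
  have h4 := pc_nonneg (μ := μ) (s := s) N ε D
  have h3 := er_nonneg N c'
  unfold phOt
  split_ifs <;> positivity

theorem phN_nonneg (tr tl tb q D : ℕ) : 0 ≤ phN μ s N ε c' tr tl tb q D := by
  have h1 := pc_nonneg (μ := μ) (s := s) N ε tr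
  have h2 := pc_nonneg (μ := μ) (s := s) N ε tl
  have h4 := pc_nonneg (μ := μ) (s := s) N ε D
  have h5 := pc_nonneg (μ := μ) (s := s) N ε tb
  have h3 := er_nonneg N c'
  unfold phN
  positivity

theorem phM_nonneg (tr tl tb b q Df D : ℕ) : 0 ≤ phM μ s N ε c' tr tl tb b q Df D := by
  have h1 := pc_nonneg (μ := μ) (s := s) N ε tr
  have h2 := pc_nonneg (μ := μ) (s := s) N ε tl
  have h5 := pc_nonneg (μ := μ) (s := s) N ε tb
  have h6 := phN_nonneg (μ := μ) (s := s) (N := N) (ε := ε) (c' := c') tr tl tb q D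
  have h3 := er_nonneg N c'
  unfold phM
  split_ifs
  · positivity
  · exact h6
  · positivity

theorem phMt_nonneg (tr tl tb b q Df D : ℕ) : 0 ≤ phMt μ s N ε c' tr tl tb b q Df D := by
  have h1 := pc_nonneg (μ := μ) (s := s) N ε tr
  have h2 := pc_nonneg (μ := μ) (s := s) N ε tl
  have h5 := pc_nonneg (μ := μ) (s := s) N ε tb
  have h6 := phN_nonneg (μ := μ) (s := s) (N := N) (ε := ε) (c' := c') tr tl tb q D
  have h3 := er_nonneg N c'
  unfold phMt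
  split_ifs
  · positivity
  · exact h6
  · positivity

/-! ### Own pairs -/

section Prob

variable [IsProbabilityMeasure μ] {ys : Finset ℕ}

/-- From the ordered pairs to all pairs. -/
theorem pr2_all {ys S : Finset ℕ} {Nn : Fam2 N} {U : ℕ → Fam N} {φ : ℕ → ℝ} (hφ : ∀ D, 0 ≤ φ D)
    (hp : ∀ j ∈ S, ∀ k ∈ S, j ≤ k → ∀ y ∈ ys, pr2 μ s N Nn (U j) (U k) y ≤ φ (k - j)) :
    ∀ j ∈ S, ∀ k ∈ S, avy ys (pr2 μ s N Nn (U j) (U k)) ≤ φ (rdist j k) := fun j hj k hk => by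
  refine avy_le93 (hφ _) fun y hy => ?_
  rcases le_total j k with h | h
  · rw [rdist_of_le h]
    exact hp j hj k hk h y hy
  · rw [pr2_swap, rdist_swap, rdist_of_le h]
    exact hp k hk j hj h y hy

/-- The factor of the own pair of a row. -/
theorem uq_one (hy : y ≤ N) (a v w' : ℕ) (ω : Env × Finset ℕ) (x : Px (Pn N y)) :
    UQ72 μ s N a v w' (one72 N) y ω x = ow (wm μ s N (Pn N y) ω) a v w' x := one_mul _

theorem own_any (hP : PrN μ s N y ε θ κ c' 2) (hy : y ≤ N) (g : GT N θ S a0 h z z' zt c tr tl b) {k : ℕ} (hk : k ∈ S)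
    {U : Fam N} (U0 : ∀ ω x, 0 ≤ U y ω x) (U1 : ∀ ω x, U y ω x ≤ 1) :
    pr2 μ s N (NN72 N zt c) U (UQ72 μ s N (a0 k) (z k) (z' k) (one72 N)) y ≤ pc μ s N ε tr * pc μ s N ε tl + er N c' := by
  rw [pr2_IG hy]
  refine le_trans (le_of_eq (IG_congr fun ω x => ?_)) (own1 (μ := μ) (s := s) hP hy (g.rt hk) (G := U y) U0 U1)
  rw [uq_one hy]

/-- **Own pairs: `hp0` of `lev72`**: the rows at distance `≥ Df` have `z' j ≤ a0 k`. -/
theorem own_pr (hP : ∀ y ∈ ys, ∀ k ≤ 5, PrN μ s N y ε θ κ c' k) (hys : ∀ y ∈ ys, y ≤ N) (g : GT N θ S a0 h z z' zt c tr tl b)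
    (far : ∀ j ∈ S, ∀ k ∈ S, j + Df ≤ k → z' j ≤ a0 k) :
    ∀ j ∈ S, ∀ k ∈ S, avy ys (pr2 μ s N (NN72 N zt c) (UQ72 μ s N (a0 j) (z j) (z' j) (one72 N))
      (UQ72 μ s N (a0 k) (z k) (z' k) (one72 N))) ≤ phO μ s N ε c' tr tl Df (rdist j k) := by
  refine pr2_all (U := fun j => UQ72 μ s N (a0 j) (z j) (z' j) (one72 N)) (fun D => phO_nonneg _ _ _ _) fun j hj k hk hjk y hy => ?_
  have hyN := hys y hy
  unfold phO
  split_ifs with hD
  · exact own_any (hP y hy 2 (by norm_num)) hyN g hk (UQ72_nonneg (fun _ _ _ => zero_le_one) hyN)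
      (UQ72_le_one (fun _ _ _ => zero_le_one) (fun _ _ _ => le_rfl) hyN)
  · rw [pr2_IG hyN]
    have g1 := g.ah j hj
    have g2 := g.hz j hj
    refine le_trans (le_of_eq (IG_congr fun ω x => ?_)) (own2 (μ := μ) (s := s) (hP y hy 3 (by norm_num)) hyN (g.rt hk)
      (u := a0 j) (v := z j) (z := z' j) (by omega) (g.zz j hj) (far j hj k hk (by omega)))
    rw [uq_one hyN, uq_one hyN]

/-- **Own pairs, the last level.** -/
theorem own_prt (hP : ∀ y ∈ ys, ∀ k ≤ 5, PrN μ s N y ε θ κ c' k) (hys : ∀ y ∈ ys, y ≤ N) (g : GT N θ S a0 h z z' zt c tr tl b)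
    (hDf : (N : ℝ) ^ θ ≤ Df) (far : ∀ j ∈ S, ∀ k ∈ S, j + Df ≤ k → z j + (k - j) / 4 ≤ a0 k ∧ a0 k ≤ z' j) :
    ∀ j ∈ S, ∀ k ∈ S, avy ys (pr2 μ s N (NN72 N zt c) (UQ72 μ s N (a0 j) (z j) (z' j) (one72 N))
      (UQ72 μ s N (a0 k) (z k) (z' k) (one72 N))) ≤ phOt μ s N ε c' tr tl Df (rdist j k) := by
  refine pr2_all (U := fun j => UQ72 μ s N (a0 j) (z j) (z' j) (one72 N)) (fun D => phOt_nonneg _ _ _ _) fun j hj k hk hjk y hy => ?_
  have hyN := hys y hy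
  unfold phOt
  split_ifs with hD
  · exact own_any (hP y hy 2 (by norm_num)) hyN g hk (UQ72_nonneg (fun _ _ _ => zero_le_one) hyN)
      (UQ72_le_one (fun _ _ _ => zero_le_one) (fun _ _ _ => le_rfl) hyN)
  · rw [pr2_IG hyN]
    have g1 := g.ah j hj
    have g2 := g.hz j hj
    have g3 := g.zzt j hj
    have g4 := g.cN
    have g5 := g.zc
    have g6 := g.ja k hk
    obtain ⟨f1, f2⟩ := far j hj k hk (by omega)
    have hD1 : (N : ℝ) ^ θ ≤ (k - j : ℕ) := hDf.trans (by exact_mod_cast (show Df ≤ k - j by omega))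
    refine le_trans (le_of_eq (IG_congr fun ω x => ?_)) (own3 (μ := μ) (s := s) (hP y hy 3 (by norm_num))
      (hP y hy 2 (by norm_num)) hyN (g.rt hk) (u := a0 j) (v := z j) (z := z' j) (tD := k - j) (by omega) hD1 (by omega)
      f1 f2 g3)
    rw [uq_one hyN, uq_one hyN]

/-! ### Own pairs with micro ties -/

variable {mm : ℕ → ℕ} {L : ℕ → Fam N}

/-- The hypotheses on the micro factors. -/
structure ML (μ : Measure ℝ) (s : ℝ) (N : ℕ) (S ys : Finset ℕ) (mm : ℕ → ℕ) (L : ℕ → Fam N) (b l q : ℕ) (M : ℝ) : Prop where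
  nn : ∀ j ∈ S, ∀ y ∈ ys, ∀ ω x, 0 ≤ L j y ω x
  le1 : ∀ j ∈ S, ∀ y ∈ ys, ∀ ω x, L j y ω x ≤ 1
  lem : ∀ j ∈ S, ∀ y ∈ ys, ∀ ω x, L j y ω x ≤ mcS (wm μ s N (Pn N y) ω) (mm j) b j l q M x

theorem ml_rpM (S ys : Finset ℕ) (mm : ℕ → ℕ) (b l q : ℕ) (M : ℝ) : ML μ s N S ys mm
    (fun j y ω x => ind72 (fun ω => RpM (wm μ s N (Pn N y) ω) (pJ 0 (mm j)) b j l q M) ω x) b l q M :=
  ⟨fun _ _ _ _ _ _ => by unfold ind72; split_ifs <;> norm_num, fun _ _ _ _ _ _ => by unfold ind72; split_ifs <;> norm_num,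
    fun j _ y _ ω x => mcS_of_rpM _ _ _ _ _ _ ω x⟩

theorem mic_near1 (hP : ∀ k ≤ 5, PrN μ s N y ε θ κ c' k) (hy : y ≤ N) (g : GT N θ S a0 h z z' zt c tr tl b)
    (hm : Mc N θ κ tb b l q M) (hyy : y ∈ ys) (hL : ML μ s N S ys mm L b l q M) {k : ℕ} (hk : k ∈ S) (hbk : b ≤ k)
    (hmk : a0 k ≤ mm k ∧ mm k ≤ h k) {U : Fam N} (U0 : ∀ ω x, 0 ≤ U y ω x) (U1 : ∀ ω x, U y ω x ≤ 1) :
    pr2 μ s N (NN72 N zt c) U (UQ72 μ s N (h k) (z k) (z' k) (L k)) y ≤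
      6 * q * (pc μ s N ε tr * pc μ s N ε tl * pc μ s N ε tb + er N c') := by
  rw [pr2_IG hy]
  exact mic1 (μ := μ) (s := s) (hP 3 (by norm_num)) hy (g.rth hk) hm hbk ((g.ja k hk).trans hmk.1) hmk.2 (G := U y)
    (L := L k y) U0 U1 (hL.nn k hk y hyy) (hL.lem k hk y hyy)

theorem mic_mid (hP : ∀ k ≤ 5, PrN μ s N y ε θ κ c' k) (hy : y ≤ N) (g : GT N θ S a0 h z z' zt c tr tl b)
    (hm : Mc N θ κ tb b l q M) (hyy : y ∈ ys) (hL : ML μ s N S ys mm L b l q M) {j k : ℕ} (hj : j ∈ S) (hk : k ∈ S) (hbj : b ≤ j)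
    (hmj : a0 j ≤ mm j ∧ mm j ≤ h k) (hmk : a0 k ≤ mm k ∧ mm k ≤ h k) (hb1 : 1 ≤ b) (hbN : (N : ℝ) ^ θ ≤ b)
    (hD : j + 4 * b ≤ k) :
    pr2 μ s N (NN72 N zt c) (UQ72 μ s N (h j) (z j) (z' j) (L j)) (UQ72 μ s N (h k) (z k) (z' k) (L k)) y ≤
      phN μ s N ε c' tr tl tb q (k - j) := by
  have g1 := g.ja j hj
  have g2 := g.ja k hk
  have g3 := g.hz k hk
  have g4 := g.zz k hk
  have g5 := g.zzt k hk
  have g6 := g.zc
  have g7 := g.cN
  have hD1 : (N : ℝ) ^ θ ≤ (k - j : ℕ) := hbN.trans (by exact_mod_cast (show b ≤ k - j by omega))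
  have q1 := pc_nonneg (μ := μ) (s := s) N ε tr
  have q2 := pc_nonneg (μ := μ) (s := s) N ε tl
  have q3 := pc_nonneg (μ := μ) (s := s) N ε (k - j)
  have q4 := er_nonneg N c'
  have O0 : ∀ ω (x : Px (Pn N y)), 0 ≤ ow (wm μ s N (Pn N y) ω) (h j) (z j) (z' j) x := fun ω x => ow_nonneg hy _ _ _ _ _
  have O1 : ∀ ω (x : Px (Pn N y)), ow (wm μ s N (Pn N y) ω) (h j) (z j) (z' j) x ≤ 1 := fun ω x => ow_le_one hy _ _ _ _ _
  rw [pr2_IG hy]
  unfold phN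
  rcases Nat.lt_or_ge (mm j) (k - b) with h1 | h1
  · refine (mic2a (μ := μ) (s := s) (hP 4 (by norm_num)) hy (g.rth hk) hm hbj (by omega) h1 (by omega) hmk.2
      (O := fun ω x => ow (wm μ s N (Pn N y) ω) (h j) (z j) (z' j) x) (Lj := L j y) (Lk := L k y) O0 O1 (hL.nn j hj y hyy)
      (hL.lem j hj y hyy) (hL.nn k hk y hyy) (hL.lem k hk y hyy)).trans ?_
    refine le_add_of_nonneg_right ?_
    positivity
  · exact mic2b (μ := μ) (s := s) (hP 4 (by norm_num)) (hP 3 (by norm_num)) hy (g.rth hk) hm hbj (tD := k - j) (by omega) h1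
      hmj.2 hD1 (by omega) (by omega) hmk.2
      (O := fun ω x => ow (wm μ s N (Pn N y) ω) (h j) (z j) (z' j) x) (Lj := L j y) (Lk := L k y) O0 O1 (hL.nn j hj y hyy)
      (hL.lem j hj y hyy) (hL.nn k hk y hyy) (hL.le1 k hk y hyy) (hL.lem k hk y hyy)

/-- **Own pairs with micro ties: `hp1` of `lev72`**: the rows at distance `≥ Df` have `z' j < k - b`. -/
theorem mic_pr (hP : ∀ y ∈ ys, ∀ k ≤ 5, PrN μ s N y ε θ κ c' k) (hys : ∀ y ∈ ys, y ≤ N) (g : GT N θ S a0 h z z' zt c tr tl b)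
    (hm : Mc N θ κ tb b l q M) (hL : ML μ s N S ys mm L b l q M) (hbS : ∀ j ∈ S, b ≤ j) (hmm : ∀ j ∈ S, a0 j ≤ mm j ∧ mm j ≤ h j)
    (mono : ∀ j ∈ S, ∀ k ∈ S, j ≤ k → h j ≤ h k) (hb1 : 1 ≤ b) (hbN : (N : ℝ) ^ θ ≤ b)
    (far : ∀ j ∈ S, ∀ k ∈ S, j + Df ≤ k → z' j < k - b) :
    ∀ j ∈ S, ∀ k ∈ S, avy ys (pr2 μ s N (NN72 N zt c) (UQ72 μ s N (h j) (z j) (z' j) (L j))
      (UQ72 μ s N (h k) (z k) (z' k) (L k))) ≤ phM μ s N ε c' tr tl tb b q Df (rdist j k) := by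
  refine pr2_all (U := fun j => UQ72 μ s N (h j) (z j) (z' j) (L j)) (fun D => phM_nonneg _ _ _ _ _ _ _) fun j hj k hk hjk y hy => ?_
  have hyN := hys y hy
  have m1 := hmm j hj
  have m2 := hmm k hk
  have m3 := mono j hj k hk hjk
  have g1 := g.ja j hj
  have g2 := g.ja k hk
  unfold phM
  split_ifs with hD hD'
  · refine mic_near1 (hP y hy) hyN g hm hy hL hk (hbS k hk) m2 (fun ω x => ?_) fun ω x => ?_
    · exact mul_nonneg (hL.nn j hj y hy ω x) (ow_nonneg hyN _ _ _ _ _)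
    · exact mul_le_one₀ (hL.le1 j hj y hy ω x) (ow_nonneg hyN _ _ _ _ _) (ow_le_one hyN _ _ _ _ _)
  · exact mic_mid (hP y hy) hyN g hm hy hL hj hk (hbS j hj) ⟨m1.1, m1.2.trans m3⟩ m2 hb1 hbN (by omega)
  · rw [pr2_IG hyN]
    exact mic3 (μ := μ) (s := s) (hP y hy 5 le_rfl) hyN (g.rth hk) hm (hbS j hj) (by omega) m1.2 (g.hz j hj) (g.zz j hj)
      (far j hj k hk (by omega)) (by omega) m2.2 (Lj := L j y) (Lk := L k y) (hL.nn j hj y hy) (hL.lem j hj y hy)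
      (hL.nn k hk y hy) (hL.lem k hk y hy)

/-- **Own pairs with micro ties, the last level**: the rows at distance `≥ Df` have `h j < k - b`. -/
theorem mic_prt (hP : ∀ y ∈ ys, ∀ k ≤ 5, PrN μ s N y ε θ κ c' k) (hys : ∀ y ∈ ys, y ≤ N) (g : GT N θ S a0 h z z' zt c tr tl b)
    (hm : Mc N θ κ tb b l q M) (hL : ML μ s N S ys mm L b l q M) (hbS : ∀ j ∈ S, b ≤ j) (hmm : ∀ j ∈ S, a0 j ≤ mm j ∧ mm j ≤ h j)
    (mono : ∀ j ∈ S, ∀ k ∈ S, j ≤ k → h j ≤ h k) (hb1 : 1 ≤ b) (hbN : (N : ℝ) ^ θ ≤ b)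
    (far : ∀ j ∈ S, ∀ k ∈ S, j + Df ≤ k → h j < k - b) :
    ∀ j ∈ S, ∀ k ∈ S, avy ys (pr2 μ s N (NN72 N zt c) (UQ72 μ s N (h j) (z j) (z' j) (L j))
      (UQ72 μ s N (h k) (z k) (z' k) (L k))) ≤ phMt μ s N ε c' tr tl tb b q Df (rdist j k) := by
  refine pr2_all (U := fun j => UQ72 μ s N (h j) (z j) (z' j) (L j)) (fun D => phMt_nonneg _ _ _ _ _ _ _) fun j hj k hk hjk y hy => ?_
  have hyN := hys y hy
  have m1 := hmm j hj
  have m2 := hmm k hk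
  have m3 := mono j hj k hk hjk
  have g1 := g.ja j hj
  have g2 := g.ja k hk
  unfold phMt
  split_ifs with hD hD'
  · refine mic_near1 (hP y hy) hyN g hm hy hL hk (hbS k hk) m2 (fun ω x => ?_) fun ω x => ?_
    · exact mul_nonneg (hL.nn j hj y hy ω x) (ow_nonneg hyN _ _ _ _ _)
    · exact mul_le_one₀ (hL.le1 j hj y hy ω x) (ow_nonneg hyN _ _ _ _ _) (ow_le_one hyN _ _ _ _ _)
  · exact mic_mid (hP y hy) hyN g hm hy hL hj hk (hbS j hj) ⟨m1.1, m1.2.trans m3⟩ m2 hb1 hbN (by omega)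
  · have f1 := far j hj k hk (by omega)
    rw [pr2_IG hyN]
    exact mic2a (μ := μ) (s := s) (hP y hy 4 (by norm_num)) hyN (g.rth hk) hm (hbS j hj) (by omega) (by omega) (by omega) m2.2
      (O := fun ω x => ow (wm μ s N (Pn N y) ω) (h j) (z j) (z' j) x) (Lj := L j y) (Lk := L k y)
      (fun ω x => ow_nonneg hyN _ _ _ _ _) (fun ω x => ow_le_one hyN _ _ _ _ _) (hL.nn j hj y hy) (hL.lem j hj y hy)
      (hL.nn k hk y hy) (hL.lem k hk y hy)

end Prob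

end

end Pool.Agent.W_7d29a1_C0.T93
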