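import Pool.Agent.W_7d29a1_C0.EstC46
import Pool.Agent.W_7d29a1_C0.GeoD36
import Pool.Agent.W_7d29a1_C0.PT93E

/-!
MP_7d29a1_pr, [CURV0] (helper57), leaf (T), GEOMETRY OF THE LEVELS AND OF THE JUMP AT THE FRAME: `x = xx ρ u` is much longer than the
windows (`bx57`), the rows of a level (`row57`), the structure `GT` of PT93E (`gt57`), the far pairs (`far57`, `farm57`, `farj57`).
-/

set_option autoImplicit false
set_option linter.unusedVariables false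

namespace Pool.Agent.W_7d29a1_C0.TN57

open Finset Pool.Agent.W_7d29a1_F Pool.Agent.W_7d29a1_X
open Pool.Agent.W_7d29a1_C0.Mod92 Pool.Agent.W_7d29a1_C0 Pool.Agent.W_7d29a1_C0.EstC46 Pool.Agent.W_7d29a1_C0.GeoD36
open Pool.Agent.W_7d29a1_C0.T93 (GT)

noncomputable section

variable {E w : ℕ → ℝ} {Θ δ c c₀ a ε ι κ n : ℝ} {b s r u : ℕ}

/-- `n ^ (14 c) b ≤ s`. -/
theorem bs57 (R : Reg46 E w c₀ Θ δ a ε n) (hε : ε ≤ c / 4) (h : Bs46 E δ c n b s r) : n ^ (14 * c) * b ≤ s := by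
  have h1 := h.lbs R
  have h2 := (h.l8 R).1
  have hb := h.hb.pos R.N1
  have hs := h.hs.pos R.N1
  have hn0 := R.N0
  refine of_lg46 R.N1 (by positivity) (by positivity) ?_
  rw [Real.logb_mul (by positivity) (by positivity), lgN46 R.N1]
  linarith [h.c0]

/-- `n ^ (12 c) b ≤ x`. -/
theorem bx57 (R : Reg46 E w c₀ Θ δ a ε n) (hε : ε ≤ c / 4) (h : Bs46 E δ c n b s r) (hι : ι ≤ c) (hn : 16 ≤ n ^ c)
    (hu : s ≤ 2 ^ u) : n ^ (12 * c) * b ≤ xx (n ^ (-ι)) u := by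
  have hb : (1 : ℝ) ≤ b := by exact_mod_cast h.hb.npos R.N1
  have hn0 := R.N0
  have hn1 := R.N1
  have hc0 := h.c0
  have h1 := bs57 R hε h
  have h2 : (s : ℝ) ≤ 2 ^ u := by exact_mod_cast hu
  have h3 : n ^ (13 * c) * b ≤ n ^ (-ι) * 2 ^ u := by
    calc n ^ (13 * c) * b = n ^ (-c) * (n ^ (14 * c) * b) := by
          rw [← mul_assoc, ← Real.rpow_add hn0]
          ring_nf
      _ ≤ n ^ (-ι) * 2 ^ u := mul_le_mul (Real.rpow_le_rpow_of_exponent_le hn1.le (by linarith)) (h1.trans h2) (by positivity)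
          (by positivity)
  have h4 : n ^ (13 * c) * b = n ^ c * (n ^ (12 * c) * b) := by
    rw [← mul_assoc, ← Real.rpow_add hn0]
    ring_nf
  have h5 : 1 ≤ n ^ (12 * c) * b := one_le_mul_of_one_le_of_one_le (Real.one_le_rpow hn1.le (by positivity)) hb
  have h6 := lt_xx (n ^ (-ι)) u
  have h7 : 16 * (n ^ (12 * c) * b) ≤ n ^ c * (n ^ (12 * c) * b) := mul_le_mul_of_nonneg_right hn (by positivity)
  linarith

/-- `x ≤ n`. -/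
theorem xle57 (hn : 1 ≤ n) (hι : 0 ≤ ι) {u : ℕ} : (xx (n ^ (-ι)) u : ℝ) ≤ 2 ^ u / 4 := by
  have h1 := xx_le (ρ := n ^ (-ι)) (by positivity) u
  have h2 : n ^ (-ι) ≤ 1 := Real.rpow_le_one_of_one_le_of_nonpos hn (by linarith)
  have h3 : n ^ (-ι) * 2 ^ u ≤ 1 * 2 ^ u := mul_le_mul_of_nonneg_right h2 (by positivity)
  linarith

/-! ### The rows of a level -/

section rows

variable {ρ : ℝ} {m q i b0 zt z : ℕ} {S R : Finset ℕ}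

theorem mem_Rw57 {c' d' j : ℕ} : j ∈ Rw R c' d' ↔ j ∈ R ∧ c' ≤ j ∧ j < d' := by
  unfold Rw
  rw [mem_inter, mem_Ico]

/-- **The rows of a level or of the jump**: the hypotheses `hgeo` of `levN72`. -/
theorem row57 (hρ : 0 ≤ ρ) (hR : R ⊆ Kr (2 ^ m) m ρ) (hu : u ≤ m) (hb : b ≤ xx ρ u) (hx : 1 ≤ xx ρ u) {z' : ℕ → ℕ}
    (hz' : ∀ j, zz zt u j ≤ z' j ∧ z' j ≤ zt) {j : ℕ} (hj : j ∈ R) (h : zz zt u j < zt) :
    j + b ≤ j + b ∧ j + b + (xx ρ u - b) ≤ aa ρ zt u j ∧ aa ρ zt u j + xx ρ u < zz zt u j ∧ zz zt u j ≤ z' j ∧ z' j ≤ zt := by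
  obtain ⟨h1, h2, h3⟩ := row_aa hρ (hR hj) hu h
  exact ⟨le_rfl, by omega, by omega, (hz' j).1, (hz' j).2⟩

/-- The gap behind the row `zt`. -/
theorem zs_gap57 {ι : ℝ} (hz : zt ∈ zs46 ι m q i) : zt + 1 + gl46 ι m q ≤ (i + 1) * 2 ^ q := by
  unfold zs46 at hz
  rw [mem_Ico] at hz
  omega

/-- **The geometry of a level or of the jump** in the form of PT93E. -/
theorem gt57 {N : ℕ} {θ ι : ℝ} (hρ : 0 ≤ ρ) (hR : R ⊆ Kr (2 ^ m) m ρ) (hu : u ≤ m) (hb : b0 ≤ xx ρ u) (hx : 1 ≤ xx ρ u) {z' : ℕ → ℕ}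
    (hz' : ∀ j, zz zt u j ≤ z' j ∧ z' j ≤ zt) (hS : ∀ j ∈ S, j ∈ R ∧ zz zt u j < zt) (hz : zt ∈ zs46 ι m q i)
    (hN : (i + 1) * 2 ^ q ≤ N) (tr0 : (N : ℝ) ^ θ ≤ gl46 ι m q) (tr1 : 4 * gl46 ι m q ≤ N) (tl0 : (N : ℝ) ^ θ ≤ xx ρ u)
    (tl1 : 4 * xx ρ u ≤ N) :
    GT N θ S (aa ρ zt u) (fun j => aa ρ zt u j + xx ρ u) (zz zt u) z' zt ((i + 1) * 2 ^ q) (4 * gl46 ι m q) (4 * xx ρ u) b0 where
  tr0 := tr0.trans (by exact_mod_cast (show gl46 ι m q ≤ 4 * gl46 ι m q by omega))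
  tr1 := tr1
  tl0 := tl0.trans (by exact_mod_cast (show xx ρ u ≤ 4 * xx ρ u by omega))
  tl1 := tl1
  zc := by
    have h1 := zs_gap57 hz
    omega
  cN := hN
  ja j hj := by
    obtain ⟨h1, h2, h3⟩ := row_aa hρ (hR (hS j hj).1) hu (hS j hj).2
    omega
  ah j hj := by omega
  hz j hj := by
    obtain ⟨h1, h2, h3⟩ := row_aa hρ (hR (hS j hj).1) hu (hS j hj).2
    omega
  zz j hj := (hz' j).1
  zzt j hj := (hz' j).2

/-- The rows behind the slabs are monotone. -/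
theorem mono57 (hρ : 0 ≤ ρ) (hR : R ⊆ Kr (2 ^ m) m ρ) (hu : u ≤ m) {j k : ℕ} (hj : j ∈ R) (hk : k ∈ R) (h1 : zz zt u j < zt)
    (h2 : zz zt u k < zt) (hjk : j ≤ k) : aa ρ zt u j + xx ρ u ≤ aa ρ zt u k + xx ρ u := by
  obtain ⟨_, a2, _⟩ := row_aa hρ (hR hj) hu h1
  obtain ⟨_, b2, _⟩ := row_aa hρ (hR hk) hu h2
  have := zz_mono_row zt u hjk
  omega

/-- **Two rows of one level at distance `≥ 2 ^ u`**: `z' j ≤ a₀ k`, `z' j < k - b`. -/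
theorem far57 (hρ : 0 ≤ ρ) (hρ1 : ρ ≤ 1 / 2) (hR : R ⊆ Kr (2 ^ m) m ρ) (hu : u + 1 ≤ m) (hb : b + 2 ≤ xx ρ u) {j k : ℕ} (hj : j ∈ R)
    (hk : k ∈ R) (h1 : zz zt u j < zz zt (u + 1) j) (h2 : zz zt u k < zz zt (u + 1) k) (hjk : j + 2 ^ u ≤ k) :
    zz zt (u + 1) j ≤ aa ρ zt u k ∧ zz zt (u + 1) j < k - b := by
  have h0 : 0 < 2 ^ u := by positivity
  rcases lev_two hρ hρ1 (hR hj) (hR hk) hu (by omega) h1 h2 with h3 | h3
  · omega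
  · have h4 := deepL hρ (hR hk) (show u ≤ m by omega)
    omega

/-- **Two rows of the jump at distance `≥ 2 ^ u`**: `a₀ j + x < k - b`, `2 z j + 2 ^ u ≤ 2 a₀ k`. -/
theorem farj57 (hρ : 0 ≤ ρ) (hρ1 : ρ ≤ 1 / 2) (hR : R ⊆ Kr (2 ^ m) m ρ) (hu : u ≤ m) (hb : b + 2 ≤ xx ρ u) {j k : ℕ} (hj : j ∈ R)
    (hk : k ∈ R) (h1 : zz zt u j < zt) (h2 : zz zt u k < zt) (hjk : j + 2 ^ u ≤ k) :
    2 * zz zt u j + 2 ^ u ≤ 2 * aa ρ zt u k ∧ aa ρ zt u j + xx ρ u < k - b ∧ aa ρ zt u k ≤ zt := by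
  have h0 : 0 < 2 ^ u := by positivity
  obtain ⟨a1, a2, a3⟩ := row_aa hρ (hR hj) hu h1
  obtain ⟨b1, b2, b3⟩ := row_aa hρ (hR hk) hu h2
  rcases jump_two hρ hρ1 (hR hj) (hR hk) hu (by omega) h2 with h3 | h3
  · omega
  · have h4 := deepL hρ (hR hk) hu
    omega

/-- The length of the boxes of a level. -/
theorem len57 (hρ : 0 ≤ ρ) (hρ1 : ρ ≤ 1) (hR : R ⊆ Kr (2 ^ m) m ρ) (hu : u + 1 ≤ m) {j : ℕ} (hj : j ∈ R)
    (h1 : zz zt u j < zz zt (u + 1) j) : zz zt (u + 1) j - aa ρ zt u j ≤ 2 ^ (u + 1) := by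
  obtain ⟨a1, a2, a3⟩ := row_aa hρ (hR hj) (show u ≤ m by omega) (lev_lt h1)
  have h2 := (lev_half h1).2
  have h3 := zz_le_en zt (u + 1) j
  have h4 : 3 * xx ρ u ≤ 2 ^ u := by
    have h5 := xx_le hρ u
    have h6 : ρ * 2 ^ u ≤ 1 * (2 : ℝ) ^ u := mul_le_mul_of_nonneg_right hρ1 (by positivity)
    have h7 : (3 : ℝ) * xx ρ u ≤ 2 ^ u := by
      have h8 : (0 : ℝ) ≤ xx ρ u := Nat.cast_nonneg _
      linarith
    exact_mod_cast h7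
  have h5 : 2 ^ (u + 1) = 2 ^ u + 2 ^ u := by ring
  omega

end rows

end

end Pool.Agent.W_7d29a1_C0.TN57
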