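import Pool.Agent.W_7d29a1_C0.TL72
import Pool.Agent.W_7d29a1_C0.Frm33B

/-!
MP_7d29a1_pr, [CURV0] (helper57), leaf (T): THE NUMBERS OF THE MICRO EVENTS at the frame (`micnum57`: the pieces of the window of length
`b0`), the gain of the slab (`gn_le57`), the micro hypotheses of `levN72` as a Prop (`MicG57`).
-/

set_option autoImplicit false
set_option linter.unusedVariables false

namespace Pool.Agent.W_7d29a1_C0.TN57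

open Finset MeasureTheory Filter Topology Pool.Agent.W_7d29a1_F Pool.Agent.W_7d29a1_X
open Pool.Agent.W_7d29a1_H (sl)
open Pool.Agent.W_7d29a1_HS (In wd)
open Pool.Agent.W_7d29a1_HZ (wd' EE')
open Pool.Agent.W_7d29a1_C0 Pool.Agent.W_7d29a1_C0.Mod92
open Pool.Agent.W_7d29a1_C0.T72 (gn72 MX72 KX72 RX72 LR72)
open Pool.Agent.W_7d29a1_C0.CrA44 (ge)

noncomputable section

/-- The number and the length of the pieces. -/
theorem micnum57 {n ι c M : ℝ} {b0 : ℕ} (hn1 : 1 < n) (hι0 : 0 < ι) (hιc : ι ≤ c) (hM1 : 1 ≤ M) (hMn : M ≤ n ^ ι)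
    (hb0 : n ^ (16 * c) ≤ b0) (h240 : 240 ≤ n ^ ι) : ∃ q0 l0 : ℕ, 10 * M ≤ q0 ∧ (q0 : ℝ) ≤ 20 * M ∧ 3 * q0 * (l0 + 1) ≤ b0 ∧
      n ^ c ≤ l0 ∧ (b0 : ℝ) ≤ n ^ (2 * ι) * ((4 * l0 : ℕ) : ℝ) ∧ 4 * l0 ≤ b0 ∧ 1 ≤ l0 := by
  have hn0 : 0 < n := by linarith
  obtain ⟨q0, hq0⟩ : ∃ q0 : ℕ, q0 = ⌈10 * M⌉₊ := ⟨_, rfl⟩
  have q1 : 10 * M ≤ q0 := by
    rw [hq0]
    exact Nat.le_ceil _
  have q2 : (q0 : ℝ) ≤ 20 * M := by
    have h1 : (q0 : ℝ) < 10 * M + 1 := by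
      rw [hq0]
      exact Nat.ceil_lt_add_one (by linarith)
    linarith
  have q3 : 10 ≤ q0 := by
    have h1 : (10 : ℝ) ≤ q0 := by linarith
    exact_mod_cast h1
  obtain ⟨t, ht⟩ : ∃ t, t = b0 / (3 * q0) := ⟨_, rfl⟩
  have t1 : b0 < 3 * q0 * (t + 1) := by
    rw [ht]
    exact Nat.lt_mul_div_succ _ (by omega)
  have t2 : 3 * q0 * t ≤ b0 := by
    rw [ht]
    exact Nat.mul_div_le _ _
  have t3 : (b0 : ℝ) ≤ 60 * n ^ ι * (t + 1) := by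
    have h1 : (b0 : ℝ) ≤ 3 * q0 * (t + 1) := by exact_mod_cast t1.le
    have h2 : (3 : ℝ) * q0 ≤ 60 * n ^ ι := by linarith
    exact h1.trans (mul_le_mul_of_nonneg_right h2 (by positivity))
  have hc0 : 0 < c := by linarith
  have hι1 : 1 ≤ n ^ ι := by linarith
  have hc1 : n ^ ι ≤ n ^ c := Real.rpow_le_rpow_of_exponent_le hn1.le hιc
  have t4 : n ^ c + 2 ≤ t := by
    have h1 : n ^ (16 * c) ≤ 60 * n ^ ι * (t + 1) := hb0.trans t3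
    have h2 : n ^ (16 * c) = n ^ c * n ^ c * n ^ c * n ^ (13 * c) := by
      rw [← Real.rpow_add hn0, ← Real.rpow_add hn0, ← Real.rpow_add hn0]
      ring_nf
    have h3 : 1 ≤ n ^ (13 * c) := Real.one_le_rpow hn1.le (by positivity)
    have h4 : n ^ ι * 240 * n ^ c ≤ n ^ (16 * c) := by
      rw [h2]
      have k1 : n ^ ι * 240 ≤ n ^ c * n ^ c := mul_le_mul hc1 (h240.trans hc1) (by norm_num) (by positivity)
      calc n ^ ι * 240 * n ^ c ≤ n ^ c * n ^ c * n ^ c := mul_le_mul_of_nonneg_right k1 (by positivity)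
        _ = n ^ c * n ^ c * n ^ c * 1 := (mul_one _).symm
        _ ≤ _ := mul_le_mul_of_nonneg_left h3 (by positivity)
    have h5 : n ^ ι * (240 * n ^ c) ≤ n ^ ι * (60 * (t + 1)) := by
      calc n ^ ι * (240 * n ^ c) = n ^ ι * 240 * n ^ c := by ring
        _ ≤ 60 * n ^ ι * (t + 1) := h4.trans h1
        _ = _ := by ring
    have h6 : 240 * n ^ c ≤ 60 * ((t : ℝ) + 1) := le_of_mul_le_mul_left h5 (by positivity)
    linarith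
  have t5 : 3 ≤ t := by
    have h1 : (3 : ℝ) ≤ t := by linarith
    exact_mod_cast h1
  refine ⟨q0, t - 1, q1, q2, ?_, ?_, ?_, ?_, by omega⟩
  · rw [Nat.sub_add_cancel (by omega)]
    exact t2
  · rw [Nat.cast_sub (by omega)]
    push_cast
    linarith
  · have h1 : ((4 * (t - 1) : ℕ) : ℝ) = 4 * (t - 1) := by
      push_cast [Nat.cast_sub (show 1 ≤ t by omega)]
      ring
    rw [h1]
    have h2 : (3 : ℝ) ≤ t := by exact_mod_cast t5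
    have h3 : (t : ℝ) + 1 ≤ 2 * (t - 1) := by linarith
    calc (b0 : ℝ) ≤ 60 * n ^ ι * (t + 1) := t3
      _ ≤ 60 * n ^ ι * (2 * (t - 1)) := mul_le_mul_of_nonneg_left h3 (by positivity)
      _ = 30 * (n ^ ι * (4 * (t - 1))) := by ring
      _ ≤ n ^ ι * (n ^ ι * (4 * (t - 1))) := mul_le_mul_of_nonneg_right (by linarith)
          (mul_nonneg (by linarith) (by linarith))
      _ = n ^ (2 * ι) * (4 * (t - 1)) := by
          rw [← mul_assoc, ← Real.rpow_add hn0]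
          ring_nf
  · have h1 : 4 * (t - 1) ≤ 3 * q0 * t := by
      calc 4 * (t - 1) ≤ 3 * 10 * t := by omega
        _ ≤ 3 * q0 * t := Nat.mul_le_mul_right _ (by omega)
    omega

/-- The square of the gain of the slab. -/
theorem gn_le57 {N x : ℕ} {ε B R Kw W wl l A : ℝ} (hB : 0 ≤ B) (hBA : B ≤ A) (hA : 1 ≤ A) (hN : (N : ℝ) ^ ε = A) (hKw : 1 ≤ Kw)
    (hW : 0 ≤ W) (hR : R = 4 * A * Kw * W) (hWl : W ≤ 2 * Kw * wl) (hwl : 0 ≤ wl) (hx : 1 ≤ x) (hl : 0 < l) (hxl : l ≤ 8 * A * x)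
    (hK : 560 * Kw ^ 2 ≤ A) : (B ^ 2 * gn72 N ε B R x * (N : ℝ) ^ ε) ^ 2 ≤ A ^ 13 * (wl / l) := by
  have hx0 : (0 : ℝ) < x := by exact_mod_cast hx
  have hA0 : 0 < A := by linarith
  have hR0 : 0 ≤ R := by rw [hR]; positivity
  unfold gn72
  rw [hN]
  have e1 : (B ^ 2 * (A * √(7 * (5 : ℕ) * R * (B / 2) ^ 2 / x)) * A) ^ 2 = B ^ 4 * A ^ 4 * (7 * (5 : ℕ) * R * (B / 2) ^ 2 / x) := by
    have h1 : (√(7 * (5 : ℕ) * R * (B / 2) ^ 2 / x)) ^ 2 = 7 * (5 : ℕ) * R * (B / 2) ^ 2 / x := Real.sq_sqrt (by positivity)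
    calc (B ^ 2 * (A * √(7 * (5 : ℕ) * R * (B / 2) ^ 2 / x)) * A) ^ 2 =
          B ^ 4 * A ^ 4 * (√(7 * (5 : ℕ) * R * (B / 2) ^ 2 / x)) ^ 2 := by ring
      _ = _ := by rw [h1]
  rw [e1]
  have e2 : B ^ 4 * A ^ 4 * (7 * (5 : ℕ) * R * (B / 2) ^ 2 / x) = 35 * Kw * B ^ 6 * A ^ 5 * (W * (1 / x)) := by
    rw [hR]
    push_cast
    field_simp
    ring
  rw [e2]
  have h2 : 1 / (x : ℝ) ≤ 8 * A / l := by
    rw [div_le_div_iff₀ hx0 hl]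
    linarith
  have h3 : W * (1 / x) ≤ (2 * Kw * wl) * (8 * A / l) := mul_le_mul hWl h2 (by positivity) (by positivity)
  have h4 : B ^ 6 ≤ A ^ 6 := pow_le_pow_left₀ hB hBA 6
  calc 35 * Kw * B ^ 6 * A ^ 5 * (W * (1 / x)) ≤ 35 * Kw * A ^ 6 * A ^ 5 * ((2 * Kw * wl) * (8 * A / l)) := by
        refine mul_le_mul ?_ h3 (by positivity) (by positivity)
        exact mul_le_mul_of_nonneg_right (mul_le_mul_of_nonneg_left h4 (by positivity)) (by positivity)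
    _ = (560 * Kw ^ 2) * (A ^ 12 * (wl / l)) := by
        field_simp
        ring
    _ ≤ A * (A ^ 12 * (wl / l)) := mul_le_mul_of_nonneg_right hK (by positivity)
    _ = _ := by ring

/-- **THE MICRO HYPOTHESES of `levN72`** (helper48 / helper50), one row. -/
def MicG57 (μ : Measure ℝ) (s : ℝ) : Prop := ∀ κ εM ε K1 : ℝ, 0 < κ → κ ≤ 1 → 0 < εM → 0 < ε → 0 ≤ K1 → ∃ β γ₀ : ℝ, 0 < β ∧ 0 < γ₀ ∧
  ∀ γ : ℝ, 0 < γ → γ ≤ γ₀ → ∃ δ' : ℝ, 0 < δ' ∧ ∃ N₀ : ℕ, ∀ N : ℕ, N₀ ≤ N → ∀ y : ℕ, y ≤ N →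
  |(y : ℝ) - sl μ s * N| ≤ (N : ℝ) ^ δ' * wd' μ s N → ∀ [Nonempty (Px (Pn N y))], ∀ B : ℝ, 1 ≤ B → B ≤ (N : ℝ) ^ β →
  ∀ b0 b j l q : ℕ, (N : ℝ) ^ κ ≤ b0 → b0 ≤ b → b ≤ j → ∀ M : ℝ, (N : ℝ) ^ εM ≤ M → 10 * M ≤ q → (q : ℝ) ≤ 20 * M →
  3 * q * (l + 1) ≤ b0 → ∀ c0 K m h z z' c cc d : ℕ, (N : ℝ) ^ κ ≤ c0 → (N : ℝ) ^ κ ≤ K → j + b ≤ c0 → c0 + K ≤ m → m ≤ h →
  h ≤ z → z ≤ z' → z' ≤ c → c ≤ d → d ≤ N → ∀ (D : ℝ) (f : Fam N), 0 ≤ D → D ≤ (N : ℝ) ^ 3 → Cls59 N cc d D f → ∀ t : ℝ, |t| ≤ 1 →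
  |MX72 μ s N (Pn N y) γ B b0 j t z z' (KX72 μ s N (Pn N y) γ B b0 j t m fun ω => ge μ s N (Pn N y) γ B b0 b ω j)
    (fun ω => gg μ s (Pn N y) γ B b0 ω j) (f y)| ≤
      B ^ 3 * (N : ℝ) ^ ε * RX72 μ s N (Pn N y) h z z' c (LR72 μ s N m b0 j l q M y) (f y) + (N : ℝ) ^ (-K1) ∧
  |MX72 μ s N (Pn N y) γ B b0 j t z z' (KX72 μ s N (Pn N y) γ B b0 j t m fun ω => gg μ s (Pn N y) γ B b0 ω j)
    (fun ω => ge μ s N (Pn N y) γ B b0 b ω j) (f y)| ≤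
      B ^ 3 * (N : ℝ) ^ ε * RX72 μ s N (Pn N y) h z z' c (LR72 μ s N m b0 j l q M y) (f y) + (N : ℝ) ^ (-K1)

end

end Pool.Agent.W_7d29a1_C0.TN57
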