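import Pool.Agent.W_7d29a1_C0.TNn57

/-!
MP_7d29a1_pr, [CURV0] (helper57), leaf (T), NUMBERS OF THE MICRO PAIRS of a level: the sum of `phM` of PT93E over the distances
(`phM_sum57`, `mic_sum57`) and the third part of the level `phi2_57`.
-/

set_option autoImplicit false
set_option linter.unusedVariables false

namespace Pool.Agent.W_7d29a1_C0.TN57

open Finset MeasureTheory Pool.Agent.W_7d29a1_C0
open Pool.Agent.W_7d29a1_C0.T93 (phM phN pc er pc_nonneg er_nonneg)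
open Pool.Agent.W_7d29a1_HZ (wd' EE')

noncomputable section

variable {E w : ℕ → ℝ} {c₀ Θ δ a ε n c : ℝ} {b s r l : ℕ}

/-- (j1) `b / (E_r E_l E_b)`, `b ≤ l ≤ n ^ (1 - η)`. -/
theorem j1_57 (R : Reg46 E w c₀ Θ δ a ε n) (hb : 1 ≤ b) (hbl : b ≤ l) (hl : Rg46 δ n l) (hlr : l ≤ r) {η : ℝ} (hη : 0 ≤ η)
    (hl1 : (l : ℝ) ≤ n ^ (1 - η)) : (b : ℝ) * (1 / (E r * E l * E b)) ≤ n ^ (Θ - Θ * η + 2 * ε) := by
  have hl' := hl.pos R.N1
  have hb' : (0 : ℝ) < b := by exact_mod_cast hb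
  have hE := R.Epos r
  have hE' := R.Epos l
  have hE'' := R.Epos b
  have hn0 := R.N0
  have h1 : (b : ℝ) * (1 / (E r * E l * E b)) ≤ n ^ ε * ((1 / (E r * E l)) * ((l : ℝ) / E l)) := by
    refine of_lg46 R.N1 (by positivity) (by positivity) ?_
    simp (disch := positivity) only [Real.logb_mul, Real.logb_div, Real.logb_one]
    rw [lgN46 R.N1]
    have h2 := R.lhalf hb hbl
    have h3 := R.lxmono hb hbl
    linarith
  refine h1.trans ?_
  have h2 := Tf70.i3 R (r := r) hl hlr hη hl1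
  calc n ^ ε * ((1 / (E r * E l)) * ((l : ℝ) / E l)) ≤ n ^ ε * n ^ (Θ - Θ * η + ε) := mul_le_mul_of_nonneg_left h2 (by positivity)
    _ = _ := by
        rw [← Real.rpow_add hn0]
        ring_nf

/-- **The sum of `phM` over the distances.** -/
theorem phM_sum57 (R : Reg46 E w c₀ Θ δ a ε n) (μ : Measure ℝ) (s' : ℝ) (N : ℕ) (ε' c' : ℝ) (tr tl tb b0 q0 Df r : ℕ)
    (hE : ∀ t, EE' μ s' t = E t) (hq : 1 ≤ q0) (hb0 : 1 ≤ b0) (hbD : b0 ≤ Df) :
    ∑ D ∈ range r, phM μ s' N ε' c' tr tl tb b0 q0 Df D ≤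
      4 * b0 * (6 * q0 * (pc μ s' N ε' tr * pc μ s' N ε' tl * pc μ s' N ε' tb)) +
      Df * ((6 * q0) ^ 2 * (pc μ s' N ε' tr * pc μ s' N ε' tl * pc μ s' N ε' tb * pc μ s' N ε' tb)) +
      6 * q0 * (pc μ s' N ε' tr * pc μ s' N ε' tl) * (N : ℝ) ^ ε' * (3 * n ^ ε * (Df / E Df)) +
      r * ((6 * q0) ^ 2 * (pc μ s' N ε' tr * pc μ s' N ε' tl * pc μ s' N ε' tb * pc μ s' N ε' tl * pc μ s' N ε' tb)) +
      r * (2 * (6 * q0) ^ 2 * er N c') := by
  have a1 := pc_nonneg (μ := μ) (s := s') N ε' tr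
  have a2 := pc_nonneg (μ := μ) (s := s') N ε' tl
  have a3 := pc_nonneg (μ := μ) (s := s') N ε' tb
  have a4 := er_nonneg N c'
  have hq1 : (1 : ℝ) ≤ q0 := by exact_mod_cast hq
  have hNe : 0 ≤ (N : ℝ) ^ ε' := Real.rpow_nonneg (Nat.cast_nonneg _) _
  have hn0 := R.N0
  obtain ⟨P, hP⟩ : ∃ P, P = pc μ s' N ε' tr * pc μ s' N ε' tl := ⟨_, rfl⟩
  have hP0 : 0 ≤ P := by rw [hP]; positivity
  have h6 : (6 : ℝ) * q0 ≤ (6 * q0) ^ 2 := by nlinarith
  have key : ∀ D ∈ range r, phM μ s' N ε' c' tr tl tb b0 q0 Df D ≤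
      (if D < 4 * b0 then 6 * q0 * (P * pc μ s' N ε' tb) else 0) +
      (if D < Df then (6 * q0) ^ 2 * (P * pc μ s' N ε' tb * pc μ s' N ε' tb) else 0) +
      (if D < Df then 6 * q0 * P * (N : ℝ) ^ ε' * (1 / E (max D b0)) else 0) +
      ((6 * q0) ^ 2 * (P * pc μ s' N ε' tb * pc μ s' N ε' tl * pc μ s' N ε' tb) + 2 * (6 * q0) ^ 2 * er N c') := fun D _ => by
    have hEm := R.Epos (max D b0)
    have b1 : 0 ≤ 6 * q0 * (P * pc μ s' N ε' tb) := by positivity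
    have b2 : 0 ≤ (6 * q0) ^ 2 * (P * pc μ s' N ε' tb * pc μ s' N ε' tb) := by positivity
    have b3 : 0 ≤ 6 * q0 * P * (N : ℝ) ^ ε' * (1 / E (max D b0)) := by positivity
    have b4 : 0 ≤ (6 * q0) ^ 2 * (P * pc μ s' N ε' tb * pc μ s' N ε' tl * pc μ s' N ε' tb) := by positivity
    have b5 : 6 * q0 * er N c' ≤ (6 * q0) ^ 2 * er N c' := mul_le_mul_of_nonneg_right h6 a4
    have b6 : 0 ≤ (6 * q0) ^ 2 * er N c' := by positivity
    unfold phM
    rw [← hP]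
    by_cases h1 : D < 4 * b0
    · rw [if_pos h1, if_pos h1]
      have b7 : 0 ≤ (if D < Df then (6 * q0) ^ 2 * (P * pc μ s' N ε' tb * pc μ s' N ε' tb) else 0) := by
        split_ifs <;> linarith
      have b8 : 0 ≤ (if D < Df then 6 * q0 * P * (N : ℝ) ^ ε' * (1 / E (max D b0)) else 0) := by
        split_ifs <;> linarith
      linarith
    · rw [if_neg h1, if_neg h1]
      by_cases h2 : D < Df
      · rw [if_pos h2, if_pos h2, if_pos h2]
        unfold phN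
        rw [← hP]
        have h3 : max D b0 = D := max_eq_left (by omega)
        have h4 : 6 * q0 * (P * pc μ s' N ε' D) = 6 * q0 * P * (N : ℝ) ^ ε' * (1 / E (max D b0)) := by
          rw [h3]
          unfold pc
          rw [hE, one_div]
          ring
        rw [← h4]
        linarith
      · rw [if_neg h2, if_neg h2, if_neg h2]
        linarith
  refine (sum_le_sum key).trans ?_
  rw [sum_add_distrib, sum_add_distrib, sum_add_distrib, sum_const, card_range, nsmul_eq_mul]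
  have s1 := near_sum57 r (4 * b0) (show 0 ≤ 6 * q0 * (P * pc μ s' N ε' tb) by positivity)
  have s2 := near_sum57 r Df (show 0 ≤ (6 * q0) ^ 2 * (P * pc μ s' N ε' tb * pc μ s' N ε' tb) by positivity)
  have s3 : ∑ D ∈ range r, (if D < Df then 6 * q0 * P * (N : ℝ) ^ ε' * (1 / E (max D b0)) else 0) ≤
      6 * q0 * P * (N : ℝ) ^ ε' * (3 * n ^ ε * (Df / E Df)) := by
    rw [← sum_filter, ← mul_sum]
    refine mul_le_mul_of_nonneg_left ?_ (by positivity)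
    refine le_trans ?_ (GS4.sum_inv_le (E := E) R.Epos (by positivity) R.half hb0 hbD)
    refine sum_le_sum_of_subset_of_nonneg (fun D hD => mem_range.2 (mem_filter.1 hD).2) fun D _ _ => ?_
    have := R.Epos (max D b0)
    positivity
  push_cast at s1
  rw [← hP]
  have e1 : (6 * (q0 : ℝ)) ^ 2 * (P * pc μ s' N ε' tb * pc μ s' N ε' tl * pc μ s' N ε' tb) =
      (6 * q0) ^ 2 * (P * pc μ s' N ε' tb * pc μ s' N ε' tl * pc μ s' N ε' tb) := rfl
  linarith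

/-- **The micro part of a level.** -/
theorem phi2_57 (R : Reg46 E w c₀ Θ δ a ε n) (h : Bs46 E δ c n b s r) (hl : Rg46 δ n l) (hsl : s ≤ l) (hlr : l ≤ r)
    {η : ℝ} (hη : 0 ≤ η) (hl1 : (l : ℝ) ≤ n ^ (1 - η)) {μ : Measure ℝ} {s' : ℝ} {N : ℕ} {ε' c' e e' c₁ G : ℝ} {tr tl tb b0 q0 : ℕ}
    (hE : ∀ t, EE' μ s' t = E t) (he : 0 ≤ e) (he' : 0 ≤ e') (hN : (N : ℝ) ^ ε' ≤ n ^ e) (hr : (E tr)⁻¹ ≤ n ^ e * (E r)⁻¹)
    (hlt : (E tl)⁻¹ ≤ n ^ e * (E l)⁻¹) (hbt : (E tb)⁻¹ ≤ n ^ e * (E b)⁻¹) (hq : 1 ≤ q0) (hqn : 6 * (q0 : ℝ) ≤ n ^ e)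
    (hb0 : 1 ≤ b0) (hb0b : b0 ≤ b) (her : (r : ℝ) * er N c' ≤ 1) (hG0 : 0 ≤ G) (hG : G ≤ n ^ e')
    (q1 : c₁ + e' + 12 * e + 4 * ε ≤ Θ) (q2 : c₁ + e' + 12 * e + 4 * ε ≤ Θ * η) (q3 : c₁ + e' + 12 * e + 4 * ε ≤ c) :
    G * ∑ D ∈ range r, phM μ s' N ε' c' tr tl tb b0 q0 l D ≤ n ^ (Θ - c₁) := by
  have hn0 := R.N0
  have hn1 := R.N1
  have hEr := R.Epos r
  have hEl := R.Epos l
  have hEb := R.Epos b
  have hε := R.ε0
  have hδ := R.δ0
  have hl' := hl.pos hn1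
  have hb' := h.hb.pos hn1
  have a1 := pc_nonneg (μ := μ) (s := s') N ε' tr
  have a2 := pc_nonneg (μ := μ) (s := s') N ε' tl
  have a3 := pc_nonneg (μ := μ) (s := s') N ε' tb
  have a4 := er_nonneg N c'
  have hNe : 0 ≤ (N : ℝ) ^ ε' := Real.rpow_nonneg (Nat.cast_nonneg _) _
  obtain ⟨A, hA⟩ : ∃ A, A = n ^ e := ⟨_, rfl⟩
  have hA1 : 1 ≤ A := by
    rw [hA]
    exact Real.one_le_rpow hn1.le he
  have hA0 : 0 < A := by linarith
  have hAp : ∀ k : ℕ, A ^ k = n ^ (k * e) := fun k => by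
    rw [hA, ← Real.rpow_natCast, ← Real.rpow_mul hn0.le]
    ring_nf
  have p : ∀ {t u : ℕ}, (E t)⁻¹ ≤ n ^ e * (E u)⁻¹ → pc μ s' N ε' t ≤ A ^ 2 * (E u)⁻¹ := fun {t u} h => by
    have h1 := R.Epos t
    have h2 := R.Epos u
    unfold pc
    rw [hE, hA]
    calc (N : ℝ) ^ ε' * (E t)⁻¹ ≤ n ^ e * (n ^ e * (E u)⁻¹) := mul_le_mul hN h (by positivity) (by positivity)
      _ = (n ^ e) ^ 2 * (E u)⁻¹ := by ring
  have p1 := p hr
  have p2 := p hlt
  have p3 := p hbt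
  rw [← hA] at hN hqn
  have hb0l : b0 ≤ l := hb0b.trans (h.bs.trans hsl)
  have key := phM_sum57 R μ s' N ε' c' tr tl tb b0 q0 l r hE hq hb0 hb0l
  have hQ0 : (0 : ℝ) ≤ 6 * q0 := by positivity
  have hP : pc μ s' N ε' tr * pc μ s' N ε' tl ≤ A ^ 4 * (1 / (E r * E l)) := by
    calc pc μ s' N ε' tr * pc μ s' N ε' tl ≤ (A ^ 2 * (E r)⁻¹) * (A ^ 2 * (E l)⁻¹) := mul_le_mul p1 p2 a2 (by positivity)
      _ = _ := by field_simp
  -- the exponent
  obtain ⟨x, hx⟩ : ∃ x, x = Θ - c₁ - e' - 12 * e - 2 * ε := ⟨_, rfl⟩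
  have hpx : 0 < n ^ x := Real.rpow_pos_of_pos hn0 _
  have hpe : 0 < n ^ ε := Real.rpow_pos_of_pos hn0 _
  have m1 := (j1_57 R (h.hb.npos hn1) (h.bs.trans hsl) hl hlr hη hl1).trans
    (Real.rpow_le_rpow_of_exponent_le hn1.le (show Θ - Θ * η + 2 * ε ≤ x by linarith))
  have m2 := (Tf70.i2 R h hl hlr).trans (Real.rpow_le_rpow_of_exponent_le hn1.le (show Θ - c + 2 * ε ≤ x by linarith))
  have m3 := (Tf70.i3 R (r := r) hl hlr hη hl1).trans
    (Real.rpow_le_rpow_of_exponent_le hn1.le (show Θ - Θ * η + ε ≤ x by linarith))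
  have m4 := (Tf70.i5a R h hsl).trans
    (Real.rpow_le_rpow_of_exponent_le hn1.le (show Θ + ε - c - δ / 8 ≤ x by linarith))
  have m5 : (1 : ℝ) ≤ n ^ x := Real.one_le_rpow hn1.le (by linarith)
  have hA12 : ∀ k ≤ 12, A ^ k ≤ A ^ 12 := fun k hk => pow_le_pow_right₀ hA1 hk
  have hε1 : 1 ≤ n ^ ε := Real.one_le_rpow hn1.le hε.le
  -- the five terms
  have t1 : 4 * b0 * (6 * q0 * (pc μ s' N ε' tr * pc μ s' N ε' tl * pc μ s' N ε' tb)) ≤ 4 * (A ^ 12 * n ^ x) := by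
    have u1 : (b0 : ℝ) ≤ b := by exact_mod_cast hb0b
    calc 4 * b0 * (6 * q0 * (pc μ s' N ε' tr * pc μ s' N ε' tl * pc μ s' N ε' tb))
        ≤ 4 * b * (A * ((A ^ 4 * (1 / (E r * E l))) * (A ^ 2 * (E b)⁻¹))) := by
          refine mul_le_mul (by linarith) (mul_le_mul hqn (mul_le_mul hP p3 a3 (by positivity)) (by positivity) hA0.le)
            (by positivity) (by positivity)
      _ = 4 * (A ^ 7 * ((b : ℝ) * (1 / (E r * E l * E b)))) := by
          field_simp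
      _ ≤ 4 * (A ^ 12 * n ^ x) := by
          refine mul_le_mul_of_nonneg_left (mul_le_mul (hA12 7 (by norm_num)) m1 (by positivity) (by positivity)) (by norm_num)
  have t2 : (l : ℝ) * ((6 * q0) ^ 2 * (pc μ s' N ε' tr * pc μ s' N ε' tl * pc μ s' N ε' tb * pc μ s' N ε' tb)) ≤ A ^ 12 * n ^ x := by
    calc (l : ℝ) * ((6 * q0) ^ 2 * (pc μ s' N ε' tr * pc μ s' N ε' tl * pc μ s' N ε' tb * pc μ s' N ε' tb))
        ≤ l * (A ^ 2 * ((A ^ 4 * (1 / (E r * E l))) * (A ^ 2 * (E b)⁻¹) * (A ^ 2 * (E b)⁻¹))) := by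
          refine mul_le_mul_of_nonneg_left (mul_le_mul (pow_le_pow_left₀ hQ0 hqn 2)
            (mul_le_mul (mul_le_mul hP p3 a3 (by positivity)) p3 a3 (by positivity)) (by positivity) (by positivity))
            (Nat.cast_nonneg _)
      _ = A ^ 10 * ((l : ℝ) * ((1 / E b ^ 2) / (E r * E l))) := by
          field_simp
      _ ≤ _ := mul_le_mul (hA12 10 (by norm_num)) m2 (by positivity) (by positivity)
  have t3 : 6 * q0 * (pc μ s' N ε' tr * pc μ s' N ε' tl) * (N : ℝ) ^ ε' * (3 * n ^ ε * (l / E l)) ≤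
      3 * (n ^ ε * (A ^ 12 * n ^ x)) := by
    calc 6 * q0 * (pc μ s' N ε' tr * pc μ s' N ε' tl) * (N : ℝ) ^ ε' * (3 * n ^ ε * (l / E l))
        ≤ A * (A ^ 4 * (1 / (E r * E l))) * A * (3 * n ^ ε * (l / E l)) := by
          refine mul_le_mul_of_nonneg_right (mul_le_mul (mul_le_mul hqn hP (by positivity) hA0.le) hN hNe (by positivity))
            (by positivity)
      _ = 3 * (n ^ ε * (A ^ 6 * ((1 / (E r * E l)) * ((l : ℝ) / E l)))) := by ring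
      _ ≤ _ := by
          refine mul_le_mul_of_nonneg_left (mul_le_mul_of_nonneg_left
            (mul_le_mul (hA12 6 (by norm_num)) m3 (by positivity) (by positivity)) hpe.le) (by norm_num)
  have t4 : (r : ℝ) * ((6 * q0) ^ 2 * (pc μ s' N ε' tr * pc μ s' N ε' tl * pc μ s' N ε' tb * pc μ s' N ε' tl *
      pc μ s' N ε' tb)) ≤ A ^ 12 * n ^ x := by
    calc (r : ℝ) * ((6 * q0) ^ 2 * (pc μ s' N ε' tr * pc μ s' N ε' tl * pc μ s' N ε' tb * pc μ s' N ε' tl * pc μ s' N ε' tb))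
        ≤ r * (A ^ 2 * ((A ^ 4 * (1 / (E r * E l))) * (A ^ 2 * (E b)⁻¹) * (A ^ 2 * (E l)⁻¹) * (A ^ 2 * (E b)⁻¹))) := by
          refine mul_le_mul_of_nonneg_left (mul_le_mul (pow_le_pow_left₀ hQ0 hqn 2)
            (mul_le_mul (mul_le_mul (mul_le_mul hP p3 a3 (by positivity)) p2 a2 (by positivity)) p3 a3 (by positivity))
            (by positivity) (by positivity)) (Nat.cast_nonneg _)
      _ = A ^ 12 * ((r : ℝ) * ((1 / E b ^ 2) / (E r * E l ^ 2))) := by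
          field_simp
      _ ≤ _ := mul_le_mul_of_nonneg_left m4 (by positivity)
  have t5 : (r : ℝ) * (2 * (6 * q0) ^ 2 * er N c') ≤ 2 * (A ^ 12 * n ^ x) := by
    calc (r : ℝ) * (2 * (6 * q0) ^ 2 * er N c') = 2 * ((6 * (q0 : ℝ)) ^ 2 * (r * er N c')) := by ring
      _ ≤ 2 * (A ^ 2 * 1) := by
          refine mul_le_mul_of_nonneg_left (mul_le_mul (pow_le_pow_left₀ hQ0 hqn 2) her (by positivity) (by positivity))
            (by norm_num)
      _ ≤ 2 * (A ^ 12 * n ^ x) := by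
          refine mul_le_mul_of_nonneg_left (mul_le_mul (hA12 2 (by norm_num)) m5 zero_le_one (by positivity)) (by norm_num)
  have tot : ∑ D ∈ range r, phM μ s' N ε' c' tr tl tb b0 q0 l D ≤ 11 * (n ^ ε * (A ^ 12 * n ^ x)) := by
    have u1 : A ^ 12 * n ^ x ≤ n ^ ε * (A ^ 12 * n ^ x) := le_mul_of_one_le_left (by positivity) hε1
    linarith
  have k11 : (11 : ℝ) ≤ n ^ ε := by linarith [R.K]
  calc G * ∑ D ∈ range r, phM μ s' N ε' c' tr tl tb b0 q0 l D ≤ G * (11 * (n ^ ε * (A ^ 12 * n ^ x))) :=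
        mul_le_mul_of_nonneg_left tot hG0
    _ ≤ n ^ e' * (n ^ ε * (n ^ ε * (A ^ 12 * n ^ x))) :=
        mul_le_mul hG (mul_le_mul_of_nonneg_right k11 (by positivity)) (by positivity) (by positivity)
    _ = n ^ (Θ - c₁) := by
        rw [hAp 12, ← Real.rpow_add hn0, ← Real.rpow_add hn0, ← Real.rpow_add hn0, ← Real.rpow_add hn0]
        congr 1
        rw [hx]
        push_cast
        ring

end

end Pool.Agent.W_7d29a1_C0.TN57
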