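import Pool.Agent.W_7d29a1_C0.TNp57
import Pool.Agent.W_7d29a1_C0.TNm57
import Pool.Agent.W_7d29a1_C0.EstC46

/-!
MP_7d29a1_pr, [CURV0] (helper46), leaf (T): THE NUMBERS OF `tiL57`, taken out of that proof (statements of helper57): the units at the smaller
scales (`u1_46`, `u2_46`, `u3_46`) and the three sums (`sum1_46`, `sum2_46`, `sum3_46`).
-/

set_option autoImplicit false
set_option linter.unusedVariables false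

namespace Pool.Agent.W_7d29a1_C0.TN57

open Finset MeasureTheory Filter Topology Pool.Agent.W_7d29a1_F Pool.Agent.W_7d29a1_X
open Pool.Agent.W_7d29a1_H (sl EE)
open Pool.Agent.W_7d29a1_HS (In wd)
open Pool.Agent.W_7d29a1_HZ (wd' EE')
open Pool.Agent.W_7d29a1_C0 Pool.Agent.W_7d29a1_C0.Mod92
open Pool.Agent.W_7d29a1_C0.T72 (gn72 gn72_nonneg)
open Pool.Agent.W_7d29a1_C0.EstC46
open Pool.Agent.W_7d29a1_C0.T93 (phO phM phO_nonneg phM_nonneg er er_nonneg)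

noncomputable section

/-- The coefficient. -/
theorem v1_46 {m q : ℕ} {Θ c₁ : ℝ} (h : 12 ≤ ((2 ^ m : ℕ) : ℝ) ^ (c₁ / 4)) :
    12 * (((2 ^ m : ℕ) : ℝ) ^ (-(c₁ / 2)) * √(((2 ^ q : ℕ) : ℝ) * ((2 ^ m : ℕ) : ℝ) ^ Θ)) ≤ kp46 Θ (c₁ / 4) m q := by
  have hn0 : (0 : ℝ) < ((2 ^ m : ℕ) : ℝ) := by positivity
  unfold kp46
  have h2 : ((2 ^ m : ℕ) : ℝ) ^ (-(c₁ / 4)) = ((2 ^ m : ℕ) : ℝ) ^ (c₁ / 4) * ((2 ^ m : ℕ) : ℝ) ^ (-(c₁ / 2)) := by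
    rw [← Real.rpow_add hn0]
    ring_nf
  rw [h2]
  have h3 : 0 ≤ ((2 ^ m : ℕ) : ℝ) ^ (-(c₁ / 2)) * √(((2 ^ q : ℕ) : ℝ) * ((2 ^ m : ℕ) : ℝ) ^ Θ) := by positivity
  have h4 := mul_le_mul_of_nonneg_right h h3
  push_cast at h4 ⊢
  linarith

/-- The error. -/
theorem v2_46 {n N k : ℝ} (hn0 : 0 < n) (hnN : n ≤ N) (hk : k ≤ n) (h4 : 3 ≤ n ^ (2 : ℝ)) :
    k * (2 * N ^ (-(4 : ℝ)) + N ^ (-(4 : ℝ))) ≤ n⁻¹ := by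
  have h2 : N ^ (-(4 : ℝ)) ≤ n ^ (-(4 : ℝ)) := Real.rpow_le_rpow_of_nonpos hn0 hnN (by norm_num)
  have hN0 : 0 < N := hn0.trans_le hnN
  calc k * (2 * N ^ (-(4 : ℝ)) + N ^ (-(4 : ℝ))) = 3 * (k * N ^ (-(4 : ℝ))) := by ring
    _ ≤ 3 * (n * n ^ (-(4 : ℝ))) := mul_le_mul_of_nonneg_left (mul_le_mul hk h2 (by positivity) hn0.le) (by norm_num)
    _ ≤ n ^ (2 : ℝ) * (n * n ^ (-(4 : ℝ))) := mul_le_mul_of_nonneg_right h4 (by positivity)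
    _ = n⁻¹ := by
        rw [← Real.rpow_neg_one]
        nth_rw 2 [← Real.rpow_one n]
        rw [← Real.rpow_add hn0, ← Real.rpow_add hn0]
        norm_num

section U

variable {E w : ℕ → ℝ} {c₀ Θ δ a ι n A ρ : ℝ}

/-- The unit at the length of the gap. -/
theorem u1_46 (R : Reg46 E w c₀ Θ δ a ι n) (hι : 0 < ι) (hA : A = n ^ ι) (hA4 : 240 ≤ A) (hρA : ρ * A = 1) (hρ1 : ρ ≤ 1 / 2) {gl r : ℕ}
    (hgl1 : 1 ≤ gl) (g1 : (gl : ℝ) ≤ ρ * r / 8) (g2 : ρ * r / 8 < gl + 1) :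
    (E (4 * gl))⁻¹ ≤ n ^ (3 * ι) * (E r)⁻¹ := by
  have hn0 := R.N0
  have hn1 := R.N1
  have hA0 : 0 < A := by linarith
  have hr0 : (0 : ℝ) ≤ r := Nat.cast_nonneg _
  have h2 : 4 * gl ≤ r := by
    have h4 : ρ * r ≤ 1 / 2 * r := mul_le_mul_of_nonneg_right hρ1 hr0
    have h5 : (4 : ℝ) * gl ≤ r := by linarith
    exact_mod_cast h5
  have h3 : (r : ℝ) ≤ n ^ (2 * ι) * ((4 * gl : ℕ) : ℝ) := by
    have h5 : (1 : ℝ) ≤ gl := by exact_mod_cast hgl1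
    have h6 : ρ * r ≤ 16 * gl := by linarith
    have h7 : (r : ℝ) = A * (ρ * r) := by rw [← mul_assoc, mul_comm A ρ, hρA, one_mul]
    have h8 : n ^ (2 * ι) = A * A := by
      rw [hA, ← Real.rpow_add hn0]
      ring_nf
    rw [h8]
    push_cast
    calc (r : ℝ) = A * (ρ * r) := h7
      _ ≤ A * (16 * gl) := mul_le_mul_of_nonneg_left h6 hA0.le
      _ = A * 4 * (4 * gl) := by ring
      _ ≤ A * A * (4 * gl) := mul_le_mul_of_nonneg_right (mul_le_mul_of_nonneg_left (by linarith) hA0.le) (by linarith)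
  have h4 := Esm57 R (t := 4 * gl) (r := r) (by omega) h2 (y := ι) h3
  refine h4.trans (mul_le_mul_of_nonneg_right (Real.rpow_le_rpow_of_exponent_le hn1.le (by linarith)) ?_)
  exact inv_nonneg.2 (R.Epos _).le

/-- The unit at the length of the slab. -/
theorem u2_46 (R : Reg46 E w c₀ Θ δ a ι n) (hι : 0 < ι) (hA : A = n ^ ι) (hA4 : 240 ≤ A) {x l : ℕ} (hx1 : 1 ≤ x) (hx8 : 8 * x ≤ l)
    (hlx : (l : ℝ) ≤ 8 * A * x) : (E (4 * x))⁻¹ ≤ n ^ (3 * ι) * (E l)⁻¹ := by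
  have hn0 := R.N0
  have hn1 := R.N1
  have hA0 : 0 < A := by linarith
  have h5 : (1 : ℝ) ≤ x := by exact_mod_cast hx1
  have h3 : (l : ℝ) ≤ n ^ (2 * ι) * ((4 * x : ℕ) : ℝ) := by
    have h8 : n ^ (2 * ι) = A * A := by
      rw [hA, ← Real.rpow_add hn0]
      ring_nf
    rw [h8]
    refine hlx.trans ?_
    push_cast
    calc 8 * A * (x : ℝ) = A * 2 * (4 * x) := by ring
      _ ≤ A * A * (4 * x) := mul_le_mul_of_nonneg_right (mul_le_mul_of_nonneg_left (by linarith) hA0.le) (by linarith)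
  have h4 := Esm57 R (t := 4 * x) (r := l) (by omega) (by omega) (y := ι) h3
  refine h4.trans (mul_le_mul_of_nonneg_right (Real.rpow_le_rpow_of_exponent_le hn1.le (by linarith)) ?_)
  exact inv_nonneg.2 (R.Epos _).le

/-- The unit at the length of the pieces. -/
theorem u3_46 (R : Reg46 E w c₀ Θ δ a ι n) (hι : 0 < ι) (hA : A = n ^ ι) (hA4 : 240 ≤ A) {l0 b0 b : ℕ} (hl0 : 1 ≤ l0) (hl0b : 4 * l0 ≤ b0)
    (hb0b : b0 ≤ b) (hbb0 : (b : ℝ) ≤ 2 * A * b0) (r5 : (b0 : ℝ) ≤ n ^ (2 * ι) * ((4 * l0 : ℕ) : ℝ)) :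
    (E (4 * l0))⁻¹ ≤ n ^ (3 * ι) * (E b)⁻¹ := by
  have hn0 := R.N0
  have hn1 := R.N1
  have hA0 : 0 < A := by linarith
  have h3 : (b : ℝ) ≤ n ^ (2 * (2 * ι)) * ((4 * l0 : ℕ) : ℝ) := by
    have h8 : n ^ (2 * (2 * ι)) = A * A * n ^ (2 * ι) := by
      rw [hA, ← Real.rpow_add hn0, ← Real.rpow_add hn0]
      ring_nf
    rw [h8]
    calc (b : ℝ) ≤ 2 * A * b0 := hbb0
      _ ≤ 2 * A * (n ^ (2 * ι) * ((4 * l0 : ℕ) : ℝ)) := mul_le_mul_of_nonneg_left r5 (by positivity)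
      _ ≤ A * A * (n ^ (2 * ι) * ((4 * l0 : ℕ) : ℝ)) :=
          mul_le_mul_of_nonneg_right (mul_le_mul_of_nonneg_right (by linarith) hA0.le) (by positivity)
      _ = _ := by ring
  have h4 := Esm57 R (t := 4 * l0) (r := b) (by omega) (by omega) (y := 2 * ι) h3
  refine h4.trans (mul_le_mul_of_nonneg_right (Real.rpow_le_rpow_of_exponent_le hn1.le (by linarith)) ?_)
  exact inv_nonneg.2 (R.Epos _).le

end U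

section S

variable {μ : Measure ℝ} {s : ℝ} {c₀ Θ δ a ι n A c : ℝ} {b s' r l : ℕ}

/-- The near part (slab). -/
theorem sum1_46 (R : Reg46 (EE μ s) (wd μ s) c₀ Θ δ a ι n) (h : Bs46 (EE μ s) δ c n b s' r) (hl : Rg46 δ n l) (hsl : s' ≤ l) (hlr : l ≤ r)
    (hEE : ∀ t, EE' μ s t = EE μ s t) (hι : 0 < ι) (hA : A = n ^ ι) (hA1 : 1 ≤ A) {N : ℕ} {ε' : ℝ} (hN : (N : ℝ) ^ ε' = A)
    {B Kw W Rb c₁ e₂ : ℝ} (hB0 : 0 ≤ B) (hBA : B ≤ A) (hKw : 1 ≤ Kw) (hW0 : 0 ≤ W) (hRb : Rb = 4 * A * Kw * W)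
    (hWl : W ≤ 2 * Kw * wd μ s l) {x gl : ℕ} (hx : 1 ≤ x) (hlx : (l : ℝ) ≤ 8 * A * x) (hA560 : 560 * Kw ^ 2 ≤ A)
    (f1 : (EE μ s (4 * gl))⁻¹ ≤ n ^ (3 * ι) * (EE μ s r)⁻¹) (f2 : (EE μ s (4 * x))⁻¹ ≤ n ^ (3 * ι) * (EE μ s l)⁻¹)
    (er2 : (r : ℝ) * er N e₂ ≤ 1) (q1 : c₁ + 13 * ι + 6 * (3 * ι) + 2 * ι ≤ Θ) (q2 : c₁ + 13 * ι + 6 * (3 * ι) + 3 * ι ≤ δ / 16) :
    (B ^ 2 * gn72 N ε' B Rb x * (N : ℝ) ^ ε') ^ 2 * ∑ D ∈ range r, phO μ s N ε' e₂ (4 * gl) (4 * x) l D ≤ n ^ (Θ - c₁) := by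
  have hn0 := R.N0
  have hn1 := R.N1
  have hNe : (N : ℝ) ^ ε' ≤ n ^ (3 * ι) := by
    rw [hN, hA]
    exact Real.rpow_le_rpow_of_exponent_le hn1.le (by linarith)
  have s0 := own_sum57 R (r := r) (l := l) (μ := μ) (s' := s) (N := N) (ε' := ε') (c' := e₂) (e := 3 * ι)
    (tr := 4 * gl) (tl := 4 * x) (Df := l) hEE (by positivity) hNe f1 f2 le_rfl
  refine phi1_57 R h hl hsl hlr (e := 3 * ι) (e' := 13 * ι) (sq_nonneg _) ?_ (by positivity) (by positivity) er2 s0 q1 q2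
  refine (gn_le57 hB0 hBA hA1 hN hKw hW0 hRb hWl (R.w0 _ (hl.npos hn1)).le hx (hl.pos hn1) hlx hA560).trans (le_of_eq ?_)
  have e : A ^ 13 = n ^ (13 * ι) := by
    rw [hA, ← Real.rpow_natCast, ← Real.rpow_mul hn0.le]
    congr 1
    push_cast
    ring
  rw [e]

/-- `(B ^ 3 N ^ ε') ^ 2`. -/
theorem gb_46 (hn0 : 0 < n) (hA : A = n ^ ι) (hA1 : 1 ≤ A) {N : ℕ} {ε' : ℝ} (hN : (N : ℝ) ^ ε' = A) {B : ℝ} (hB0 : 0 ≤ B) (hBA : B ≤ A) :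
    (B ^ 3 * (N : ℝ) ^ ε') ^ 2 ≤ n ^ (8 * ι) := by
  have h2 : n ^ (8 * ι) = A ^ 8 := by
    rw [hA, ← Real.rpow_natCast, ← Real.rpow_mul hn0.le]
    congr 1
    push_cast
    ring
  rw [h2, hN]
  have h3 : B ^ 3 ≤ A ^ 3 := pow_le_pow_left₀ hB0 hBA 3
  have hA0 : 0 ≤ A := by linarith
  calc (B ^ 3 * A) ^ 2 ≤ (A ^ 3 * A) ^ 2 := pow_le_pow_left₀ (by positivity) (mul_le_mul_of_nonneg_right h3 hA0) 2
    _ = A ^ 8 := by ring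

/-- The micro part. -/
theorem sum2_46 (R : Reg46 (EE μ s) (wd μ s) c₀ Θ δ a ι n) (h : Bs46 (EE μ s) δ c n b s' r) (hl : Rg46 δ n l) (hsl : s' ≤ l) (hlr : l ≤ r)
    (hEE : ∀ t, EE' μ s t = EE μ s t) (hι : 0 < ι) (hA : A = n ^ ι) (hA4 : 240 ≤ A) {N : ℕ} {ε' : ℝ} (hN : (N : ℝ) ^ ε' = A)
    {B M c₁ e₂ η : ℝ} (hη : 0 ≤ η) (hlη : (l : ℝ) ≤ n ^ (1 - η)) (hB0 : 0 ≤ B) (hBA : B ≤ A) {x gl l0 b0 q0 : ℕ}
    (f1 : (EE μ s (4 * gl))⁻¹ ≤ n ^ (3 * ι) * (EE μ s r)⁻¹) (f2 : (EE μ s (4 * x))⁻¹ ≤ n ^ (3 * ι) * (EE μ s l)⁻¹)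
    (f3 : (EE μ s (4 * l0))⁻¹ ≤ n ^ (3 * ι) * (EE μ s b)⁻¹) (hq : 1 ≤ q0) (hqM : (q0 : ℝ) ≤ 20 * M) (hMA : M ≤ A) (hb01 : 1 ≤ b0)
    (hb0b : b0 ≤ b) (er2 : (r : ℝ) * er N e₂ ≤ 1) (q1 : c₁ + 8 * ι + 12 * (3 * ι) + 4 * ι ≤ Θ)
    (q2 : c₁ + 8 * ι + 12 * (3 * ι) + 4 * ι ≤ Θ * η) (q3 : c₁ + 8 * ι + 12 * (3 * ι) + 4 * ι ≤ c) :
    (B ^ 3 * (N : ℝ) ^ ε') ^ 2 * ∑ D ∈ range r, phM μ s N ε' e₂ (4 * gl) (4 * x) (4 * l0) b0 q0 l D ≤ n ^ (Θ - c₁) := by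
  have hn0 := R.N0
  have hn1 := R.N1
  have hA1 : 1 ≤ A := by linarith
  have hA0 : 0 ≤ A := by linarith
  have hNe : (N : ℝ) ^ ε' ≤ n ^ (3 * ι) := by
    rw [hN, hA]
    exact Real.rpow_le_rpow_of_exponent_le hn1.le (by linarith)
  have h6 : 6 * (q0 : ℝ) ≤ n ^ (3 * ι) := by
    have h2 : n ^ (3 * ι) = A ^ 3 := by
      rw [hA, ← Real.rpow_natCast, ← Real.rpow_mul hn0.le]
      congr 1
      push_cast
      ring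
    rw [h2]
    calc 6 * (q0 : ℝ) ≤ 120 * A := by linarith
      _ ≤ A * A := mul_le_mul_of_nonneg_right (by linarith) hA0
      _ = A ^ 2 := by ring
      _ ≤ A ^ 3 := pow_le_pow_right₀ hA1 (by norm_num)
  exact phi2_57 R h hl hsl hlr hη hlη (μ := μ) (s' := s) (N := N) (ε' := ε') (c' := e₂) (e := 3 * ι) (e' := 8 * ι) (c₁ := c₁)
    (G := (B ^ 3 * (N : ℝ) ^ ε') ^ 2) (tr := 4 * gl) (tl := 4 * x) (tb := 4 * l0) (b0 := b0) (q0 := q0) hEE (by positivity)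
    (by positivity) hNe f1 f2 f3 hq h6 hb01 hb0b er2 (sq_nonneg _) (gb_46 hn0 hA hA1 hN hB0 hBA) q1 q2 q3

/-- The far part. -/
theorem sum3_46 (R : Reg46 (EE μ s) (wd μ s) c₀ Θ δ a ι n) (h : Bs46 (EE μ s) δ c n b s' r) (hl : Rg46 δ n l) (hsl : s' ≤ l) (hlr : l ≤ r)
    (hEE : ∀ t, EE' μ s t = EE μ s t) (hι : 0 < ι) (hA : A = n ^ ι) (hA1 : 1 ≤ A) {N : ℕ} {ε' : ℝ} (hN : (N : ℝ) ^ ε' = A)
    {B c₁ e₂ e₃ η : ℝ} (hη : 0 ≤ η) (hlη : (l : ℝ) ≤ n ^ (1 - η)) (hB0 : 0 ≤ B) (hBA : B ≤ A) {x gl : ℕ}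
    (f1 : (EE μ s (4 * gl))⁻¹ ≤ n ^ (3 * ι) * (EE μ s r)⁻¹) (f2 : (EE μ s (4 * x))⁻¹ ≤ n ^ (3 * ι) * (EE μ s l)⁻¹)
    (er2 : (r : ℝ) * er N e₂ ≤ 1) (er3 : (r : ℝ) * Real.exp (-(N : ℝ) ^ e₃) ≤ 1) (q1 : c₁ + 8 * ι + 7 * (3 * ι) + 2 * ι ≤ Θ)
    (q2 : c₁ + 8 * ι + 7 * (3 * ι) + 2 * ι ≤ δ / 16) (q3 : c₁ + 8 * ι + 7 * (3 * ι) + 2 * ι ≤ Θ * η) :
    (B ^ 3 * (N : ℝ) ^ ε') ^ 2 * ∑ D ∈ range r, ((N : ℝ) ^ ε' * (EE' μ s l)⁻¹ * phO μ s N ε' e₂ (4 * gl) (4 * x) l D +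
      Real.exp (-(N : ℝ) ^ e₃)) ≤ n ^ (Θ - c₁) := by
  have hn0 := R.N0
  have hn1 := R.N1
  have hNe : (N : ℝ) ^ ε' ≤ n ^ (3 * ι) := by
    rw [hN, hA]
    exact Real.rpow_le_rpow_of_exponent_le hn1.le (by linarith)
  have s0 := own_sum57 R (r := r) (l := l) (μ := μ) (s' := s) (N := N) (ε' := ε') (c' := e₂) (e := 3 * ι)
    (tr := 4 * gl) (tl := 4 * x) (Df := l) hEE (by positivity) hNe f1 f2 le_rfl
  rw [sum_add_distrib, ← mul_sum, sum_const, card_range, nsmul_eq_mul]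
  have hE0 : 0 ≤ (EE μ s l)⁻¹ := inv_nonneg.2 (R.Epos _).le
  exact phi3_57 R h hl hsl hlr hη hlη (e := 3 * ι) (e' := 8 * ι) (sq_nonneg _) (gb_46 hn0 hA hA1 hN hB0 hBA)
    (by rw [hEE, hN]; positivity) (by rw [hEE]; exact mul_le_mul_of_nonneg_right hNe hE0) (by positivity) (by positivity) er2 er3 s0 q1 q2 q3

end S

end

end Pool.Agent.W_7d29a1_C0.TN57
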