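import Pool.Agent.W_7d29a1_C0.TNa57
import Pool.Agent.W_7d29a1_C0.TNg57
import Pool.Agent.W_7d29a1_C0.TNp57
import Pool.Agent.W_7d29a1_C0.TNm57
import Pool.Agent.W_7d29a1_C0.FarL57
import Pool.Agent.W_7d29a1_C0.TNs46

/-!
MP_7d29a1_pr, [CURV0] (helper57), leaf (T), THE LEVELS AT THE CONCRETE FRAME: `tiL57 : TiL57 μ s K Θ`, from `levN72` (helper72), the prices of
PT93E (helper93), the far part `far_lev57`, the micro hypotheses `MicG57` and the numbers `phi1_57`, `phi2_57`, `phi3_57`.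
-/

set_option autoImplicit false
set_option linter.unusedVariables false

namespace Pool.Agent.W_7d29a1_C0.TN57

open Finset MeasureTheory Filter Topology Pool.Agent.W_7d29a1_F Pool.Agent.W_7d29a1_X
open Pool.Agent.W_7d29a1_H (sl EE)
open Pool.Agent.W_7d29a1_HS (In wd)
open Pool.Agent.W_7d29a1_HZ (wd' EE')
open Pool.Agent.W_7d29a1_C0 Pool.Agent.W_7d29a1_C0.Mod92 Pool.Agent.W_7d29a1_C0.Asm96 Pool.Agent.W_7d29a1_C0.Frm33
open Pool.Agent.W_7d29a1_C0.EstC46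
open Pool.Agent.W_7d29a1_C0.GeoD36 (zz aa xx xx_le lt_xx xx8 zz_mono_succ zz_le lev_lt deepL st)
open Pool.Agent.W_7d29a1_C0.T72 (gn72 gn72_nonneg levN72 LR72 LR72_nonneg LR72_le_one meas_LR72)
open Pool.Agent.W_7d29a1_C0.T93 (phO phM phO_nonneg phM_nonneg prN_all own_pr mic_pr ml_rpM Mc er er_nonneg)
open Pool.Agent.W_7d29a1_C0.InT57 (far_lev57)
open Pool.Agent.W_7d29a1_C0.H32
open Pool.W7d29a1.C0.H27 (QI)
open Pool.Agent.W_7d29a1_C0.Par92 (Est Sml)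

noncomputable section

variable {μ : Measure ℝ} {s : ℝ} {K : ℕ} {Θ : ℝ}

/-- **THE LEVELS OF (T).** -/
theorem tiL57 [IsProbabilityMeasure μ] {c₂ C : ℝ} {n₀ : ℕ} (h : In μ s c₂ C n₀)
    (hQI : ∀ p : ℝ, 1 < p → ∃ C θ0 : ℝ, 0 ≤ C ∧ 0 < θ0 ∧ QI μ p C θ0) {f₀ f₀' : ℝ → ℝ} (hf₀ : DenLaw μ f₀ f₀')
    (hK : 32 ≤ K) (hΘ : 0 < Θ) {c₀ : ℝ} (hR : RegP46 μ s c₀ Θ) (hmic : MicG57 μ s) : TiL57 μ s K Θ := by
  obtain ⟨a, _, _, hRe⟩ := hR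
  obtain ⟨aw, Kw, haw, haw1, hKw, hwd⟩ : ∃ a K : ℝ, 0 < a ∧ a < 1 ∧ 1 ≤ K ∧ ∀ m n : ℕ, 1 ≤ m → m ≤ n →
      wd' μ s m ≤ K * wd' μ s n ∧ K⁻¹ * ((n : ℝ) / m) ^ a * wd' μ s m ≤ wd' μ s n ∧
      wd' μ s n ≤ K * ((n : ℝ) / m) ^ (1 - a) * wd' μ s m := Pool.Agent.W_7d29a1_HZ.Z96.wd_all96 h
  have hK0 : (0 : ℝ) < K := by
    have : 0 < K := by omega
    exact_mod_cast this
  have hK1 : (1 : ℝ) ≤ K := by
    have : 1 ≤ K := by omega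
    exact_mod_cast this
  refine Sml.of fun δ hδ => ?_
  refine (Sml.and (Sml.le (show 0 < δ / 64 by positivity)) (Sml.le one_pos)).mono fun c hc h1 => Sml.of fun η hη => ?_
  obtain ⟨hcδ, hc1⟩ := h1
  obtain ⟨c₁, hc₁⟩ : ∃ c₁, c₁ = min (min Θ (Θ * η)) (min c (δ / 16)) / 2 := ⟨_, rfl⟩
  have hc₁0 : 0 < c₁ := by rw [hc₁]; positivity
  have p1 : c₁ ≤ Θ / 2 := by
    rw [hc₁]
    linarith [min_le_left (min Θ (Θ * η)) (min c (δ / 16)), min_le_left Θ (Θ * η)]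
  have p2 : c₁ ≤ Θ * η / 2 := by
    rw [hc₁]
    linarith [min_le_left (min Θ (Θ * η)) (min c (δ / 16)), min_le_right Θ (Θ * η)]
  have p3 : c₁ ≤ c / 2 := by
    rw [hc₁]
    linarith [min_le_right (min Θ (Θ * η)) (min c (δ / 16)), min_le_left c (δ / 16)]
  have p4 : c₁ ≤ δ / 32 := by
    rw [hc₁]
    linarith [min_le_right (min Θ (Θ * η)) (min c (δ / 16)), min_le_right c (δ / 16)]
  refine ⟨c₁ / 4, by positivity, ?_⟩
  refine (Sml.le (show 0 < c₁ / 1000 by positivity)).mono fun ι hι hιc => ?_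
  have hικ : 0 < ι / K := by positivity
  have hικ1 : ι / K ≤ 1 := by
    rw [div_le_one hK0]
    linarith
  have hcK : 0 < c / K := by positivity
  have hcK1 : c / K ≤ 1 := by
    rw [div_le_one hK0]
    linarith
  obtain ⟨δ₁, β₁, hδ₁, hβ₁, N₁, H₁⟩ := levN72 h hQI hf₀ (κ := c / K) (ε := ι / K) (K' := 4) hcK hcK1 hικ hικ1 (by norm_num)
  obtain ⟨δ₂, κ₂, e₂, hδ₂, hκ₂, he₂, N₂, H₂⟩ := prN_all h 5 (ι / K) (c / K) hικ hcK
  obtain ⟨δ₃, e₃, hδ₃, he₃, N₃, H₃⟩ := far_lev57 h (ι / K) (c / K) hικ hcK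
  obtain ⟨εM, hεM⟩ : ∃ x, x = min (ι / K) (κ₂ / 2) := ⟨_, rfl⟩
  have hεM0 : 0 < εM := by rw [hεM]; exact lt_min hικ (by positivity)
  have hεM1 : εM ≤ ι / K := by rw [hεM]; exact min_le_left _ _
  have hεM2 : εM ≤ κ₂ / 2 := by rw [hεM]; exact min_le_right _ _
  obtain ⟨β₄, γ₀, hβ₄, hγ₀, H₄⟩ := hmic (c / K) εM (ι / K) 4 hcK hcK1 hεM0 hικ (by norm_num)
  refine (Sml.le (show 0 < min (min β₁ β₄) ι by positivity)).mono fun β hβ hβ' => ?_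
  refine (Sml.le hγ₀).mono fun γ hγ hγ' => ?_
  have hβι : β ≤ ι := hβ'.trans (min_le_right _ _)
  have hββ₁ : β ≤ β₁ := hβ'.trans ((min_le_left _ _).trans (min_le_left _ _))
  have hββ₄ : β ≤ β₄ := hβ'.trans ((min_le_left _ _).trans (min_le_right _ _))
  obtain ⟨δ₄, hδ₄, N₄, H₄⟩ := H₄ γ hγ hγ'
  obtain ⟨δm, hδm⟩ : ∃ x, x = min (min δ₁ δ₂) (min δ₃ δ₄) := ⟨_, rfl⟩
  have hδm0 : 0 < δm := by rw [hδm]; positivity
  have d1 : δm ≤ δ₁ := by rw [hδm]; exact (min_le_left _ _).trans (min_le_left _ _)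
  have d2 : δm ≤ δ₂ := by rw [hδm]; exact (min_le_left _ _).trans (min_le_right _ _)
  have d3 : δm ≤ δ₃ := by rw [hδm]; exact (min_le_right _ _).trans (min_le_left _ _)
  have d4 : δm ≤ δ₄ := by rw [hδm]; exact (min_le_right _ _).trans (min_le_right _ _)
  filter_upwards [ev_L (by omega : 1 ≤ K) (max (max N₁ N₂) (max N₃ N₄)), cone33 h hK hδm0, hRe δ ι hδ hι,
    b0_33 hδ (show ι ≤ δ / 4 by linarith), ev_n hι (560 * Kw ^ 2 + 4 * Kw ^ 2 * wd' μ s 1 + 240), ev_n hc 16, ev_z hK he₂, ev_z hK he₃,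
    ev_n (show 0 < K * (κ₂ / 2) by positivity) 7, ev_n (show 0 < c₁ / 4 by positivity) 12] with m m1 m2 m3 m4 m5 m6 m7 m8 m9 m10
  intro p q i hst hi D f hD hf zt hz u hu1 hu2 hu3 t ht
  obtain ⟨R, hwdE⟩ := m3
  -- numbers
  have hn1 : (1 : ℝ) < ((2 ^ m : ℕ) : ℝ) := R.N1
  have hn0 : (0 : ℝ) < ((2 ^ m : ℕ) : ℝ) := by linarith only [hn1]
  have hNι : ((L33 K m : ℕ) : ℝ) ^ (ι / K) = ((2 ^ m : ℕ) : ℝ) ^ ι := by
    rw [L33_pow]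
    congr 1
    field_simp
  have hNc : ((L33 K m : ℕ) : ℝ) ^ (c / K) = ((2 ^ m : ℕ) : ℝ) ^ c := by
    rw [L33_pow]
    congr 1
    field_simp
  have hn2 : 2 ^ m ≤ L33 K m := L33_ge (by omega) m
  have hn2' : ((2 ^ m : ℕ) : ℝ) ≤ ((L33 K m : ℕ) : ℝ) := by exact_mod_cast hn2
  have hL1 : (1 : ℝ) ≤ ((L33 K m : ℕ) : ℝ) := by linarith only [hn2', hn1]
  have hL0 : (0 : ℝ) < ((L33 K m : ℕ) : ℝ) := by linarith only [hn2', hn1]
  obtain ⟨A, hA⟩ : ∃ A : ℝ, A = ((2 ^ m : ℕ) : ℝ) ^ ι := ⟨_, rfl⟩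
  have hwd1 : 1 ≤ wd' μ s 1 := le_max_left _ _
  have hA240 : 240 ≤ A := by
    rw [hA]
    have : 0 ≤ 560 * Kw ^ 2 + 4 * Kw ^ 2 * wd' μ s 1 := by positivity
    linarith only [this, m5]
  have hA560 : 560 * Kw ^ 2 ≤ A := by
    rw [hA]
    have : 0 ≤ 4 * Kw ^ 2 * wd' μ s 1 := by positivity
    linarith only [this, m5]
  have hA4 : 4 * Kw ^ 2 * wd' μ s 1 ≤ A := by
    rw [hA]
    have : 0 ≤ 560 * Kw ^ 2 := by positivity
    linarith only [this, m5]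
  have hA1 : 1 ≤ A := by linarith only [hA240]
  have hA0 : 0 < A := by linarith only [hA240]
  have hAp : ∀ k : ℕ, A ^ k = ((2 ^ m : ℕ) : ℝ) ^ (k * ι) := fun k => by
    rw [hA, ← Real.rpow_natCast, ← Real.rpow_mul hn0.le]
    ring_nf
  -- the thresholds
  have k1 : N₁ ≤ L33 K m := (le_max_left _ _).trans ((le_max_left _ _).trans m1)
  have k2 : N₂ ≤ L33 K m := (le_max_right _ _).trans ((le_max_left _ _).trans m1)
  have k3 : N₃ ≤ L33 K m := (le_max_left _ _).trans ((le_max_right _ _).trans m1)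
  have k4 : N₄ ≤ L33 K m := (le_max_right _ _).trans ((le_max_right _ _).trans m1)
  -- the ends
  have hw0 : 0 ≤ wd' μ s (L33 K m) := zero_le_one.trans (le_max_left _ _)
  have hcone : ∀ δ' : ℝ, δm ≤ δ' → ∀ y ∈ ys33 μ s K m, y ≤ L33 K m ∧
      |(y : ℝ) - sl μ s * L33 K m| ≤ (L33 K m : ℝ) ^ δ' * wd' μ s (L33 K m) := fun δ' hδ' y hy => by
    have h2 := mem_Ico.1 (show y ∈ Ico (y33 μ s K m) (y33 μ s K m + M33 m) from hy)
    obtain ⟨h3, h4⟩ := m2.2.2 y (by omega) (by omega)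
    exact ⟨h3, h4.trans (mul_le_mul_of_nonneg_right (Real.rpow_le_rpow_of_exponent_le hL1 hδ') hw0)⟩
  have hys0 : (ys33 μ s K m).Nonempty := by
    refine ⟨y33 μ s K m, ?_⟩
    show y33 μ s K m ∈ Ico (y33 μ s K m) (y33 μ s K m + M33 m)
    rw [mem_Ico]
    have : 0 < M33 m := by unfold M33; positivity
    omega
  -- the clipping level
  have hB1 : 1 ≤ B33 β m := Real.one_le_rpow hn1.le hβ.le
  have hBA : B33 β m ≤ A := by
    rw [hA]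
    exact Real.rpow_le_rpow_of_exponent_le hn1.le hβι
  have hBN : ∀ β' : ℝ, β ≤ β' → B33 β m ≤ ((L33 K m : ℕ) : ℝ) ^ β' := fun β' hb => by
    have h2 : B33 β m ≤ ((2 ^ m : ℕ) : ℝ) ^ β' := Real.rpow_le_rpow_of_exponent_le hn1.le hb
    exact h2.trans (Real.rpow_le_rpow hn0.le hn2' (by linarith only [hb, hβ]))
  -- the block
  have hbs := bs46 R hc (show 64 * c ≤ δ by linarith only [hcδ]) hst.hp hst.hps hst.hsq hst.hqm hst.leg hst.pin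
  have hgap := gap46 (ι := ι) R (show ι ≤ c / 4 by linarith only [hιc, hι, p3]) hbs (show ι ≤ c by linarith only [hιc, hι, p3]) m6
  obtain ⟨sg, hsg⟩ : ∃ sg, sg = sg96 (EE μ s) c m p := ⟨_, rfl⟩
  rw [← hsg] at hbs hgap hu1
  have hps : p ≤ sg := by
    rw [hsg]
    exact hst.hps
  have hqm := hst.hqm
  obtain ⟨ρ, hρd⟩ : ∃ ρ : ℝ, ρ = ((2 ^ m : ℕ) : ℝ) ^ (-ι) := ⟨_, rfl⟩
  have hρ0 : 0 ≤ ρ := by rw [hρd]; positivity
  have hρA : ρ * A = 1 := by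
    rw [hρd, hA, ← Real.rpow_add hn0, neg_add_cancel, Real.rpow_zero]
  have hρ1 : ρ ≤ 1 / 2 := by
    have h2 : ρ * 2 ≤ ρ * A := mul_le_mul_of_nonneg_left (by linarith only [hA240]) hρ0
    linarith only [h2, hρA]
  have hRK : R33 ι m ⊆ Kr (2 ^ m) m ρ := by
    rw [hρd]
    exact Finset.Subset.refl _
  obtain ⟨x, hx⟩ : ∃ x, x = xx ρ u := ⟨_, rfl⟩
  obtain ⟨gl, hgl⟩ : ∃ gl, gl = gl46 ι m q := ⟨_, rfl⟩
  -- the lengths
  have hl : Rg46 δ ((2 ^ m : ℕ) : ℝ) (2 ^ u) := rg46_two (hst.hp.trans (by exact_mod_cast hps.trans hu1)) (by omega)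
  have hsl : 2 ^ sg ≤ 2 ^ u := Nat.pow_le_pow_right two_pos hu1
  have hlr : 2 ^ u ≤ 2 ^ q := Nat.pow_le_pow_right two_pos (by omega)
  have hqn : 2 ^ q ≤ 2 ^ m := Nat.pow_le_pow_right two_pos hqm
  have hbx : ((2 ^ m : ℕ) : ℝ) ^ (12 * c) * ((2 ^ p : ℕ) : ℝ) ≤ x := by
    rw [hx, hρd]
    exact bx57 R (by linarith only [hιc, hι, p3]) hbs (by linarith only [hιc, hι, p3]) m6 hsl
  have hb1 : (1 : ℝ) ≤ ((2 ^ p : ℕ) : ℝ) := by exact_mod_cast Nat.one_le_two_pow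
  have hbc : ((2 ^ m : ℕ) : ℝ) ^ c ≤ ((2 ^ p : ℕ) : ℝ) :=
    (Real.rpow_le_rpow_of_exponent_le hn1.le (by linarith only [hιc, hι, p3, hcδ])).trans hbs.hb.lo
  have h16 : 16 * ((2 ^ p : ℕ) : ℝ) ≤ x := by
    have h2 : ((2 ^ m : ℕ) : ℝ) ^ c ≤ ((2 ^ m : ℕ) : ℝ) ^ (12 * c) := Real.rpow_le_rpow_of_exponent_le hn1.le (by linarith only [hιc, hι, p3])
    exact (mul_le_mul_of_nonneg_right (m6.trans h2) (by linarith only [])).trans hbx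
  have h16n : 16 * 2 ^ p ≤ x := by exact_mod_cast h16
  have hp0 : 0 < 2 ^ p := by positivity
  have hx8 : 8 * x ≤ 2 ^ u := by
    rw [hx]
    exact xx8 hρ0 hρ1 u
  have hid : (i + 1) * 2 ^ q ≤ 2 ^ m := by
    have h2 : (i + 1) * 2 ^ q ≤ 2 ^ (m - q) * 2 ^ q := Nat.mul_le_mul_right _ hi
    rwa [← pow_add, Nat.sub_add_cancel hqm] at h2
  have hgc : ((2 ^ m : ℕ) : ℝ) ^ c ≤ gl := by
    rw [hgl]
    refine le_trans ?_ hgap
    calc ((2 ^ m : ℕ) : ℝ) ^ c ≤ ((2 ^ m : ℕ) : ℝ) ^ (5 * c) := Real.rpow_le_rpow_of_exponent_le hn1.le (by linarith only [hιc, hι, p3])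
      _ = ((2 ^ m : ℕ) : ℝ) ^ (5 * c) * 1 := (mul_one _).symm
      _ ≤ _ := mul_le_mul_of_nonneg_left (one_le_pow₀ one_le_two) (by positivity)
  have hgl8 : 8 * gl ≤ (i + 1) * 2 ^ q := by
    rw [hgl]
    exact gl_le46 hι.le
  have hgl1 : 1 ≤ gl := by
    have h2 : (1 : ℝ) ≤ gl := by linarith only [hgc, m6]
    exact_mod_cast h2
  have hxc : ((2 ^ m : ℕ) : ℝ) ^ c ≤ x := by
    have h2 : (0 : ℝ) ≤ ((2 ^ p : ℕ) : ℝ) := by positivity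
    linarith only [h16, hbc]
  -- the window
  obtain ⟨b0, hb0d⟩ : ∃ b0, b0 = 2 ^ (p - ⌈ι * (m : ℝ)⌉₊) := ⟨_, rfl⟩
  have hb0b : b0 ≤ 2 ^ p := by
    rw [hb0d]
    exact Nat.pow_le_pow_right two_pos (Nat.sub_le _ _)
  have hb04 : ((2 ^ m : ℕ) : ℝ) ^ (δ / 4) ≤ (b0 : ℝ) := by
    rw [hb0d]
    exact m4 p hst.hp
  have hb016 : ((2 ^ m : ℕ) : ℝ) ^ (16 * c) ≤ (b0 : ℝ) :=
    (Real.rpow_le_rpow_of_exponent_le hn1.le (by linarith only [hcδ])).trans hb04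
  have hb0c : ((2 ^ m : ℕ) : ℝ) ^ c ≤ (b0 : ℝ) := (Real.rpow_le_rpow_of_exponent_le hn1.le (by linarith only [hιc, hι, p3])).trans hb016
  have hb01 : 1 ≤ b0 := by
    rw [hb0d]
    exact Nat.one_le_two_pow
  have hbb0 : ((2 ^ p : ℕ) : ℝ) ≤ 2 * A * b0 := by
    have h2 : 2 ^ p ≤ 2 ^ ⌈ι * (m : ℝ)⌉₊ * b0 := by
      rw [hb0d, ← pow_add]
      exact Nat.pow_le_pow_right two_pos (by omega)
    have h3 : ((2 ^ ⌈ι * (m : ℝ)⌉₊ : ℕ) : ℝ) ≤ 2 * A := by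
      rw [hA]
      push_cast
      rw [← Real.rpow_natCast 2 m, ← Real.rpow_natCast 2 ⌈ι * (m : ℝ)⌉₊, ← Real.rpow_mul two_pos.le]
      have h4 : (⌈ι * (m : ℝ)⌉₊ : ℝ) ≤ 1 + m * ι := by
        have := (Nat.ceil_lt_add_one (show 0 ≤ ι * (m : ℝ) by positivity)).le
        linarith only [this]
      calc (2 : ℝ) ^ ((⌈ι * (m : ℝ)⌉₊ : ℕ) : ℝ) ≤ 2 ^ (1 + m * ι) := Real.rpow_le_rpow_of_exponent_le one_le_two h4
        _ = 2 * 2 ^ (m * ι) := by rw [Real.rpow_add two_pos, Real.rpow_one]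
    calc ((2 ^ p : ℕ) : ℝ) ≤ ((2 ^ ⌈ι * (m : ℝ)⌉₊ * b0 : ℕ) : ℝ) := by exact_mod_cast h2
      _ = ((2 ^ ⌈ι * (m : ℝ)⌉₊ : ℕ) : ℝ) * b0 := by push_cast; ring
      _ ≤ _ := mul_le_mul_of_nonneg_right h3 (Nat.cast_nonneg _)
  -- the pieces
  obtain ⟨M, hM⟩ : ∃ M : ℝ, M = ((L33 K m : ℕ) : ℝ) ^ εM := ⟨_, rfl⟩
  have hM1 : 1 ≤ M := by
    rw [hM]
    exact Real.one_le_rpow hL1 hεM0.le
  have hMn : M ≤ ((2 ^ m : ℕ) : ℝ) ^ ι := by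
    rw [hM, ← hNι]
    exact Real.rpow_le_rpow_of_exponent_le hL1 hεM1
  have hM7 : 7 * M ≤ ((L33 K m : ℕ) : ℝ) ^ κ₂ := by
    have h2 : M ≤ ((L33 K m : ℕ) : ℝ) ^ (κ₂ / 2) := by
      rw [hM]
      exact Real.rpow_le_rpow_of_exponent_le hL1 hεM2
    have h3 : (7 : ℝ) ≤ ((L33 K m : ℕ) : ℝ) ^ (κ₂ / 2) := by
      rw [L33_pow]
      exact m9
    calc 7 * M ≤ ((L33 K m : ℕ) : ℝ) ^ (κ₂ / 2) * ((L33 K m : ℕ) : ℝ) ^ (κ₂ / 2) :=
          mul_le_mul h3 h2 (by linarith only [hM1]) (by positivity)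
      _ = _ := by
          rw [← Real.rpow_add hL0]
          ring_nf
  obtain ⟨q0, l0, r1, r2, r3, r4, r5, r6, r7⟩ := micnum57 hn1 hι (show ι ≤ c by linarith only [hιc, hι, p3]) hM1 hMn hb016 (by rw [← hA]; exact hA240)
  have hq01 : 1 ≤ q0 := by
    have h2 : (1 : ℝ) ≤ q0 := by linarith only [r1, hM1]
    exact_mod_cast h2
  -- the rows
  obtain ⟨S, hSd⟩ : ∃ S, S = (Rw (R33 ι m) (i * 2 ^ q) ((i + 1) * 2 ^ q)).filter fun j => zz zt u j < zz zt (u + 1) j := ⟨_, rfl⟩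
  have hSm : ∀ j ∈ S, (j ∈ R33 ι m ∧ i * 2 ^ q ≤ j ∧ j < (i + 1) * 2 ^ q) ∧ zz zt u j < zz zt (u + 1) j := fun j hj => by
    rw [hSd, mem_filter, mem_Rw57] at hj
    exact hj
  have hSlt : ∀ j ∈ S, zz zt u j < zt := fun j hj => lev_lt (hSm j hj).2
  have hS2 : ∀ j ∈ S, i * 2 ^ q ≤ j ∧ j < i * 2 ^ q + 2 ^ q := fun j hj => by
    have h2 := (hSm j hj).1
    have h3 : (i + 1) * 2 ^ q = i * 2 ^ q + 2 ^ q := by ring
    omega
  have hz' : ∀ j, zz zt u j ≤ zz zt (u + 1) j ∧ zz zt (u + 1) j ≤ zt := fun j => ⟨zz_mono_succ _ _ _, zz_le _ _ _⟩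
  have hrow : ∀ j ∈ S, j + 2 ^ p ≤ j + 2 ^ p ∧ j + 2 ^ p + (x - 2 ^ p) ≤ aa ρ zt u j ∧ aa ρ zt u j + x < zz zt u j ∧
      zz zt u j ≤ zz zt (u + 1) j ∧ zz zt (u + 1) j ≤ zt := fun j hj => by
    rw [hx]
    rw [hx] at h16n
    exact row57 (z' := fun j => zz zt (u + 1) j) hρ0 hRK (by omega) (by omega) (by omega) hz' (hSm j hj).1.1 (hSlt j hj)
  have hzt : zt ≤ (i + 1) * 2 ^ q := by
    have := zs_gap57 hz
    omega
  have hjb : ∀ j ∈ S, 2 ^ p ≤ j := fun j hj => by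
    have h2 := deepL hρ0 (hRK (hSm j hj).1.1) (show u ≤ m by omega)
    rw [← hx] at h2
    omega
  have gt := gt57 (N := L33 K m) (θ := c / K) (ι := ι) (b0 := b0) (S := S) (R := R33 ι m) (m := m) (q := q) (i := i) (u := u)
    (zt := zt) hρ0 hRK (by omega) (by rw [← hx]; omega) (by rw [← hx]; omega) (z' := fun j => zz zt (u + 1) j) hz'
    (fun j hj => ⟨(hSm j hj).1.1, hSlt j hj⟩) hz (hid.trans hn2) (by rw [hNc, ← hgl]; exact hgc) (by rw [← hgl]; omega)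
    (by rw [hNc, ← hx]; exact hxc) (by rw [← hx]; have := hlr.trans hqn; omega)
  rw [← hgl, ← hx] at gt
  -- the width of the boxes
  obtain ⟨W, hW⟩ : ∃ W, W = wd' μ s (2 ^ (u + 1)) := ⟨_, rfl⟩
  have hW1 : 1 ≤ W := by rw [hW]; exact le_max_left _ _
  obtain ⟨Rb, hRb⟩ : ∃ Rb, Rb = 4 * A * Kw * W := ⟨_, rfl⟩
  have hRb1 : 1 ≤ Rb := by
    rw [hRb]
    have h2 : 1 ≤ A * Kw := one_le_mul_of_one_le_of_one_le hA1 hKw
    have h3 : 1 ≤ A * Kw * W := one_le_mul_of_one_le_of_one_le h2 hW1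
    have e : 4 * A * Kw * W = 4 * (A * Kw * W) := by ring
    rw [e]
    linarith only [h3]
  have hu1m : 2 ^ (u + 1) ≤ 2 ^ m := Nat.pow_le_pow_right two_pos (by omega)
  have hRb2 : Rb ≤ ((L33 K m : ℕ) : ℝ) ^ 2 := by
    have h2 := (hwd 1 (2 ^ (u + 1)) le_rfl Nat.one_le_two_pow).2.2
    have h3 : (((2 ^ (u + 1) : ℕ) : ℝ) / ((1 : ℕ) : ℝ)) ^ (1 - aw) ≤ ((2 ^ m : ℕ) : ℝ) := by
      rw [Nat.cast_one, div_one]
      have h4 : (1 : ℝ) ≤ ((2 ^ (u + 1) : ℕ) : ℝ) := by exact_mod_cast Nat.one_le_two_pow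
      calc ((2 ^ (u + 1) : ℕ) : ℝ) ^ (1 - aw) ≤ ((2 ^ (u + 1) : ℕ) : ℝ) ^ (1 : ℝ) :=
            Real.rpow_le_rpow_of_exponent_le h4 (by linarith only [haw])
        _ = ((2 ^ (u + 1) : ℕ) : ℝ) := Real.rpow_one _
        _ ≤ _ := by exact_mod_cast hu1m
    have h5 : W ≤ Kw * ((2 ^ m : ℕ) : ℝ) * wd' μ s 1 := by
      rw [hW]
      refine h2.trans (mul_le_mul_of_nonneg_right (mul_le_mul_of_nonneg_left h3 (by linarith only [hKw])) (by linarith only [hwd1]))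
    have h6 : A ≤ ((2 ^ m : ℕ) : ℝ) := by
      rw [hA]
      calc ((2 ^ m : ℕ) : ℝ) ^ ι ≤ ((2 ^ m : ℕ) : ℝ) ^ (1 : ℝ) := Real.rpow_le_rpow_of_exponent_le hn1.le (by linarith only [hιc, p3, hc1])
        _ = _ := Real.rpow_one _
    have h7 : ((2 ^ m : ℕ) : ℝ) ^ 3 ≤ ((L33 K m : ℕ) : ℝ) := by
      rw [L33_real, ← Real.rpow_natCast]
      refine Real.rpow_le_rpow_of_exponent_le hn1.le ?_
      have : (32 : ℝ) ≤ K := by exact_mod_cast hK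
      push_cast
      linarith only [this]
    calc Rb = 4 * A * Kw * W := hRb
      _ ≤ 4 * A * Kw * (Kw * ((2 ^ m : ℕ) : ℝ) * wd' μ s 1) := mul_le_mul_of_nonneg_left h5 (by positivity)
      _ = (4 * Kw ^ 2 * wd' μ s 1) * A * ((2 ^ m : ℕ) : ℝ) := by ring
      _ ≤ ((2 ^ m : ℕ) : ℝ) * ((2 ^ m : ℕ) : ℝ) * ((2 ^ m : ℕ) : ℝ) := by
          refine mul_le_mul_of_nonneg_right (mul_le_mul (hA4.trans h6) h6 hA0.le hn0.le) hn0.le
      _ = ((2 ^ m : ℕ) : ℝ) ^ 3 := by ring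
      _ ≤ ((L33 K m : ℕ) : ℝ) := h7
      _ = ((L33 K m : ℕ) : ℝ) * 1 := (mul_one _).symm
      _ ≤ ((L33 K m : ℕ) : ℝ) * ((L33 K m : ℕ) : ℝ) := mul_le_mul_of_nonneg_left hL1 hL0.le
      _ = _ := by ring
  have hRw : ∀ j ∈ S, ∀ k : ℕ, 1 ≤ k → k ≤ zz zt (u + 1) j - aa ρ zt u j →
      ((L33 K m : ℕ) : ℝ) ^ (ι / K) * wd' μ s k ≤ Rb / 4 := fun j hj k hk1 hk2 => by
    have h2 := len57 (ρ := ρ) hρ0 (by linarith only [hρ1]) hRK (show u + 1 ≤ m by omega) (hSm j hj).1.1 (hSm j hj).2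
    have h3 := (hwd k (2 ^ (u + 1)) hk1 (by omega)).1
    rw [hNι, ← hA, hRb]
    rw [← hW] at h3
    calc A * wd' μ s k ≤ A * (Kw * W) := mul_le_mul_of_nonneg_left h3 hA0.le
      _ = 4 * A * Kw * W / 4 := by ring
  -- the data of the level
  have hys' : ∀ y ∈ ys33 μ s K m, y ≤ L33 K m := fun y hy => (hcone δm le_rfl y hy).1
  have hP : ∀ y ∈ ys33 μ s K m, ∀ k ≤ 5, T93.PrN μ s (L33 K m) y (ι / K) (c / K) κ₂ e₂ k := fun y hy =>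
    H₂ (L33 K m) k2 y (hcone δ₂ d2 y hy).1 (hcone δ₂ d2 y hy).2
  obtain ⟨L, hL⟩ : ∃ L : ℕ → ℕ → Fam (L33 K m), L = fun m' j => LR72 μ s (L33 K m) (aa ρ zt u j + 1 + m') b0 j l0 q0 M := ⟨_, rfl⟩
  obtain ⟨φ0, hφ0⟩ : ∃ φ0 : ℕ → ℝ, φ0 = phO μ s (L33 K m) (ι / K) e₂ (4 * gl) (4 * x) (2 ^ u) := ⟨_, rfl⟩
  obtain ⟨φ1, hφ1⟩ : ∃ φ1 : ℕ → ℝ, φ1 = phM μ s (L33 K m) (ι / K) e₂ (4 * gl) (4 * x) (4 * l0) b0 q0 (2 ^ u) := ⟨_, rfl⟩
  have hφ00 : ∀ D, 0 ≤ φ0 D := fun D => by rw [hφ0]; exact phO_nonneg _ _ _ _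
  have hφ10 : ∀ D, 0 ≤ φ1 D := fun D => by rw [hφ1]; exact phM_nonneg _ _ _ _ _ _ _
  have hp0' : ∀ j ∈ S, ∀ k ∈ S, avy (ys33 μ s K m) (T93.pr2 μ s (L33 K m) (T72.NN72 (L33 K m) zt ((i + 1) * 2 ^ q))
      (T72.UQ72 μ s (L33 K m) (aa ρ zt u j) (zz zt u j) (zz zt (u + 1) j) (T72.one72 (L33 K m)))
      (T72.UQ72 μ s (L33 K m) (aa ρ zt u k) (zz zt u k) (zz zt (u + 1) k) (T72.one72 (L33 K m)))) ≤ φ0 (T93.rdist j k) := by
    rw [hφ0]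
    refine own_pr (Df := 2 ^ u) hP hys' gt fun j hj k hk hjk => ?_
    exact (far57 (b := 2 ^ p) hρ0 hρ1 hRK (show u + 1 ≤ m by omega) (by rw [← hx]; omega) (hSm j hj).1.1 (hSm k hk).1.1
      (hSm j hj).2 (hSm k hk).2 hjk).1
  have hmc : Mc (L33 K m) (c / K) κ₂ (4 * l0) b0 l0 q0 M := by
    refine ⟨?_, ?_, by omega, r3, hM7⟩
    · rw [hNc]
      refine r4.trans ?_
      push_cast
      have : (0 : ℝ) ≤ l0 := Nat.cast_nonneg _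
      linarith only []
    · have h2 : 2 ^ p ≤ 2 ^ m := Nat.pow_le_pow_right two_pos (by omega)
      omega
  have hp1' : ∀ m' < x, ∀ j ∈ S, ∀ k ∈ S, avy (ys33 μ s K m) (T93.pr2 μ s (L33 K m) (T72.NN72 (L33 K m) zt ((i + 1) * 2 ^ q))
      (T72.UQ72 μ s (L33 K m) (aa ρ zt u j + x) (zz zt u j) (zz zt (u + 1) j) (L m' j))
      (T72.UQ72 μ s (L33 K m) (aa ρ zt u k + x) (zz zt u k) (zz zt (u + 1) k) (L m' k))) ≤ φ1 (T93.rdist j k) := fun m' hm' => by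
    rw [hφ1, hL]
    refine mic_pr (L := fun j => LR72 μ s (L33 K m) (aa ρ zt u j + 1 + m') b0 j l0 q0 M) (Df := 2 ^ u) hP hys' gt hmc
      (ml_rpM S (ys33 μ s K m) (fun j => aa ρ zt u j + 1 + m') b0 l0 q0 M) (fun j hj => hb0b.trans (hjb j hj))
      (fun j hj => ⟨by omega, by omega⟩) (fun j hj k hk hjk => ?_) hb01 (by rw [hNc]; exact hb0c) (fun j hj k hk hjk => ?_)
    · have h2 := mono57 (ρ := ρ) hρ0 hRK (show u ≤ m by omega) (hSm j hj).1.1 (hSm k hk).1.1 (hSlt j hj) (hSlt k hk) hjk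
      rw [← hx] at h2
      exact h2
    · have h2 := (far57 (b := b0) hρ0 hρ1 hRK (show u + 1 ≤ m by omega) (by rw [← hx]; omega) (hSm j hj).1.1 (hSm k hk).1.1
        (hSm j hj).2 (hSm k hk).2 hjk).2
      exact h2
  -- the spectator
  have hf' : Cls59 (L33 K m) (i * 2 ^ q) ((i + 1) * 2 ^ q) D f := hf
  have hD0 : 0 ≤ D := by
    obtain ⟨y, hy⟩ := hys0
    have := ne_Pn (hys' y hy)
    obtain ⟨S0⟩ := this
    exact (abs_nonneg _).trans (hf'.bdd y (fun _ => 0, ∅) S0)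
  have hD3 : D ≤ ((L33 K m : ℕ) : ℝ) ^ 3 := hD.trans (pow_le_pow_left₀ hn0.le hn2' 3)
  have ht' : |t| ≤ 1 := abs_le.2 ⟨ht.1, ht.2⟩
  -- the far part
  have hfar := H₃ (L33 K m) k3 (L33 K m) (2 ^ u) (by omega) le_rfl
    (by
      rw [hNc]
      refine (Real.rpow_le_rpow_of_exponent_le hn1.le (by linarith only [hιc, hι, p3, hcδ])).trans hl.lo)
    ((hlr.trans hqn).trans hn2) (ys33 μ s K m) hys0 (hcone δ₃ d3) Rb
    (by
      have h2 := (hwd (2 ^ u) (2 ^ (u + 1)) Nat.one_le_two_pow (Nat.pow_le_pow_right two_pos (by omega))).1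
      rw [← hW] at h2
      have h3 : ((L33 K m : ℕ) : ℝ) ^ (-δ₃) ≤ 1 := Real.rpow_le_one_of_one_le_of_nonpos hL1 (by linarith only [hδ₃])
      have h4 : 0 ≤ wd' μ s (2 ^ u) := zero_le_one.trans (le_max_left _ _)
      calc ((L33 K m : ℕ) : ℝ) ^ (-δ₃) * wd' μ s (2 ^ u) ≤ 1 * wd' μ s (2 ^ u) := mul_le_mul_of_nonneg_right h3 h4
        _ ≤ Kw * W := by linarith only [h2]
        _ = 1 * (Kw * W) := (one_mul _).symm
        _ ≤ (4 * A) * (Kw * W) := mul_le_mul_of_nonneg_right (by linarith only [hA240]) (by positivity)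
        _ = Rb := by rw [hRb]; ring) S (i * 2 ^ q) (2 ^ q) hS2
    (aa ρ zt u) (zz zt u) (fun j => zz zt (u + 1) j) zt ((i + 1) * 2 ^ q)
    (fun j hj => ⟨(hz' j).2, (hz' j).2.trans (hzt.trans (hid.trans hn2))⟩) φ0 hφ00 hp0' f D
    (fun y _ S => hf'.meas y S) (fun y ω S => hf'.bdd y ω S)
  -- the level
  have key := H₁ (L33 K m) k1 (ys33 μ s K m) hys0 (hcone δ₁ d1) (B33 β m) hB1 (hBN β₁ hββ₁) γ b0 (2 ^ p) x zt
    ((i + 1) * 2 ^ q) (i * 2 ^ q) ((i + 1) * 2 ^ q) (i * 2 ^ q) (2 ^ q) S (fun j => j + 2 ^ p) (fun _ => x - 2 ^ p)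
    (aa ρ zt u) (zz zt u) (fun j => zz zt (u + 1) j) hb0b (by omega) hzt le_rfl (hid.trans hn2) hS2
    (fun j hj => ⟨by
        rw [hNc]
        push_cast
        have h2 : (0 : ℝ) ≤ j := Nat.cast_nonneg _
        push_cast at hbc
        linarith only [hbc], by
        rw [hNc, Nat.cast_sub (by omega)]
        linarith only [h16, hbc], hrow j hj⟩)
    Rb hRb1 hRb2 hRw D f hD0 hD3 hf' t ht' L (fun m' j y ω S => by rw [hL]; exact LR72_nonneg _ _ _ _ _ _ _ _ _)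
    (fun m' j y ω S => by rw [hL]; exact LR72_le_one _ _ _ _ _ _ _ _ _) (fun m' j y S => by rw [hL]; exact meas_LR72 _ _ _ _ _ _ _ _)
    (B33 β m ^ 3 * ((L33 K m : ℕ) : ℝ) ^ (ι / K)) (((L33 K m : ℕ) : ℝ) ^ (-(4 : ℝ))) (by positivity)
    (fun j hj y hy _ m' hm' => by
      obtain ⟨g1, g2, g3, g4, g5⟩ := hrow j hj
      have h5 := (H₄ (L33 K m) k4 y (hcone δ₄ d4 y hy).1 (hcone δ₄ d4 y hy).2 (B33 β m) hB1 (hBN β₄ hββ₄) b0 (2 ^ p) j l0 q0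
        (by rw [hNc]; exact hb0c) hb0b (hjb j hj) M (by rw [hM]) r1 r2 r3 (j + 2 ^ p) (x - 2 ^ p) (aa ρ zt u j + 1 + m')
        (aa ρ zt u j + x) (zz zt u j) (zz zt (u + 1) j) ((i + 1) * 2 ^ q) (i * 2 ^ q) ((i + 1) * 2 ^ q)
        (by
          rw [hNc]
          push_cast
          have h2 : (0 : ℝ) ≤ j := Nat.cast_nonneg _
          push_cast at hbc
          linarith only [hbc])
        (by
          rw [hNc, Nat.cast_sub (by omega)]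
          linarith only [h16, hbc]) le_rfl (by omega) (by omega) (by omega) g4 (g5.trans hzt) le_rfl (hid.trans hn2) D f hD0 hD3 hf' t ht').1
      rw [hL]
      exact h5)
    (fun j hj y hy _ m' hm' => by
      obtain ⟨g1, g2, g3, g4, g5⟩ := hrow j hj
      have h5 := (H₄ (L33 K m) k4 y (hcone δ₄ d4 y hy).1 (hcone δ₄ d4 y hy).2 (B33 β m) hB1 (hBN β₄ hββ₄) b0 (2 ^ p) j l0 q0
        (by rw [hNc]; exact hb0c) hb0b (hjb j hj) M (by rw [hM]) r1 r2 r3 (j + 2 ^ p) (x - 2 ^ p) (aa ρ zt u j + 1 + m')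
        (aa ρ zt u j + x) (zz zt u j) (zz zt (u + 1) j) ((i + 1) * 2 ^ q) (i * 2 ^ q) ((i + 1) * 2 ^ q)
        (by
          rw [hNc]
          push_cast
          have h2 : (0 : ℝ) ≤ j := Nat.cast_nonneg _
          push_cast at hbc
          linarith only [hbc])
        (by
          rw [hNc, Nat.cast_sub (by omega)]
          linarith only [h16, hbc]) le_rfl (by omega) (by omega) (by omega) g4 (g5.trans hzt) le_rfl (hid.trans hn2) D f hD0 hD3 hf' t ht').2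
      rw [hL]
      exact h5)
    φ0 φ1 _ hφ00 hφ10 hp0' hp1' hfar
  -- the units
  have hEE : ∀ t, EE' μ s t = EE μ s t := fun t => EE'_eq46 s t
  have f1 := u1_46 R (r := 2 ^ q) hι hA hA240 hρA hρ1 hgl1
    (by
      rw [show ((2 ^ q : ℕ) : ℝ) = (2 : ℝ) ^ q by push_cast; rfl, hgl, hρd]
      exact Nat.floor_le (by positivity))
    (by
      rw [show ((2 ^ q : ℕ) : ℝ) = (2 : ℝ) ^ q by push_cast; rfl, hgl, hρd]
      exact Nat.lt_floor_add_one _)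
  have hx1 : 1 ≤ x := by omega
  have hlx : ((2 ^ u : ℕ) : ℝ) ≤ 8 * A * x := by
    have h4 := lt_xx ρ u
    rw [← hx] at h4
    have h5 : (1 : ℝ) ≤ x := by exact_mod_cast hx1
    have h6 : ρ * 2 ^ u ≤ 8 * x := by linarith only [h4, h5]
    have h7 : (2 : ℝ) ^ u = A * (ρ * 2 ^ u) := by rw [← mul_assoc, mul_comm A ρ, hρA, one_mul]
    push_cast
    rw [h7]
    calc A * (ρ * 2 ^ u) ≤ A * (8 * x) := mul_le_mul_of_nonneg_left h6 hA0.le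
      _ = _ := by ring
  have f2 := u2_46 R (l := 2 ^ u) hι hA hA240 hx1 hx8 hlx
  have f3 := u3_46 R (b := 2 ^ p) hι hA hA240 r7 r6 hb0b hbb0 r5
  have hNA : ((L33 K m : ℕ) : ℝ) ^ (ι / K) = A := by rw [hNι, hA]
  -- the errors
  have hqL : ((2 ^ q : ℕ) : ℝ) ≤ ((L33 K m : ℕ) : ℝ) := by exact_mod_cast hqn.trans hn2
  have her : ∀ e' : ℝ, ((L33 K m : ℕ) : ℝ) ^ 2 * Real.exp (-((L33 K m : ℕ) : ℝ) ^ e') ≤ (((2 ^ m : ℕ) : ℝ) ^ 4)⁻¹ →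
      ((2 ^ q : ℕ) : ℝ) * Real.exp (-((L33 K m : ℕ) : ℝ) ^ e') ≤ 1 := fun e' h2 => by
    have h3 : (((2 ^ m : ℕ) : ℝ) ^ 4)⁻¹ ≤ 1 := inv_le_one_of_one_le₀ (one_le_pow₀ hn1.le)
    have h4 : ((2 ^ q : ℕ) : ℝ) ≤ ((L33 K m : ℕ) : ℝ) ^ 2 := by
      calc ((2 ^ q : ℕ) : ℝ) ≤ ((L33 K m : ℕ) : ℝ) * 1 := by linarith only [hqL]
        _ ≤ ((L33 K m : ℕ) : ℝ) * ((L33 K m : ℕ) : ℝ) := mul_le_mul_of_nonneg_left hL1 hL0.le
        _ = _ := by ring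
    exact (mul_le_mul_of_nonneg_right h4 (Real.exp_pos _).le).trans (h2.trans h3)
  have er2 : ((2 ^ q : ℕ) : ℝ) * er (L33 K m) e₂ ≤ 1 := her e₂ m7
  have er3 : ((2 ^ q : ℕ) : ℝ) * Real.exp (-((L33 K m : ℕ) : ℝ) ^ e₃) ≤ 1 := her e₃ m8
  have hlη : ((2 ^ u : ℕ) : ℝ) ≤ ((2 ^ m : ℕ) : ℝ) ^ (1 - η) := by
    have h2 : (2 : ℝ) ^ u ≤ 2 ^ (u + 1) := pow_le_pow_right₀ one_le_two (by omega)
    push_cast at hu3 ⊢
    exact (h2.trans hu3).trans (Real.rpow_le_rpow_of_exponent_le (by push_cast at hn1; exact hn1.le) (by linarith only [hη]))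
  have hB0 : 0 ≤ B33 β m := zero_le_one.trans hB1
  have hW0 : 0 ≤ W := zero_le_one.trans hW1
  have hιc' : ι ≤ c₁ / 1000 := hιc
  -- the sums
  have s1 := sum1_46 R hbs hl hsl hlr (N := L33 K m) (c₁ := c₁) (x := x) (gl := gl) (Rb := Rb) (B := B33 β m) hEE hι hA hA1 hNA hB0 hBA hKw hW0 hRb
    (by
      have h3 := (hwd (2 ^ u) (2 ^ (u + 1)) Nat.one_le_two_pow (Nat.pow_le_pow_right two_pos (by omega))).2.2
      rw [← hW] at h3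
      have h4 : (((2 ^ (u + 1) : ℕ) : ℝ) / ((2 ^ u : ℕ) : ℝ)) = 2 := by
        push_cast
        rw [pow_succ]
        field_simp
      rw [h4] at h3
      have h5 : (2 : ℝ) ^ (1 - aw) ≤ 2 := by
        calc (2 : ℝ) ^ (1 - aw) ≤ 2 ^ (1 : ℝ) := Real.rpow_le_rpow_of_exponent_le one_le_two (by linarith only [haw])
          _ = 2 := Real.rpow_one _
      rw [← hwdE (2 ^ u) hl.lo]
      have h6 : 0 ≤ wd' μ s (2 ^ u) := zero_le_one.trans (le_max_left _ _)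
      calc W ≤ Kw * 2 ^ (1 - aw) * wd' μ s (2 ^ u) := h3
        _ ≤ Kw * 2 * wd' μ s (2 ^ u) := mul_le_mul_of_nonneg_right (mul_le_mul_of_nonneg_left h5 (by linarith only [hKw])) h6
        _ = _ := by ring)
    hx1 hlx hA560 f1 f2 er2 (by linarith only [p1, hιc', hι, hc₁0]) (by linarith only [p4, hιc', hι, hc₁0])
  have s2 := sum2_46 R hbs hl hsl hlr (N := L33 K m) (c₁ := c₁) (x := x) (gl := gl) (l0 := l0) (b0 := b0) (q0 := q0) (B := B33 β m) hEE hι hA hA240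
    hNA hη.le hlη hB0 hBA f1 f2 f3 hq01 r2 (by rw [hA]; exact hMn) hb01 hb0b er2 (by linarith only [p1, hιc', hι, hc₁0])
    (by linarith only [p2, hιc', hι, hc₁0]) (by linarith only [p3, hιc', hι, hc₁0])
  have s3 := sum3_46 R hbs hl hsl hlr (N := L33 K m) (c₁ := c₁) (x := x) (gl := gl) (B := B33 β m) hEE hι hA hA1 hNA hη.le hlη hB0 hBA f1 f2 er2 er3
    (by linarith only [p1, hιc', hι, hc₁0]) (by linarith only [p4, hιc', hι, hc₁0]) (by linarith only [p2, hιc', hι, hc₁0])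
  -- the end
  have hScard : (S.card : ℝ) ≤ ((2 ^ q : ℕ) : ℝ) := by
    have h2 : S ⊆ Ico (i * 2 ^ q) (i * 2 ^ q + 2 ^ q) := fun j hj => mem_Ico.2 (hS2 j hj)
    have h3 := card_le_card h2
    rw [Nat.card_Ico, Nat.add_sub_cancel_left] at h3
    exact_mod_cast h3
  have fin := fin57 (n := ((2 ^ m : ℕ) : ℝ)) hn0 (r := 2 ^ q) (S := S) hScard
    (a1 := B33 β m ^ 2 * gn72 (L33 K m) (ι / K) (B33 β m) Rb x * ((L33 K m : ℕ) : ℝ) ^ (ι / K))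
    (a2 := B33 β m ^ 3 * ((L33 K m : ℕ) : ℝ) ^ (ι / K)) (a3 := B33 β m ^ 3 * ((L33 K m : ℕ) : ℝ) ^ (ι / K))
    (Φ1 := ∑ D ∈ range (2 ^ q), φ0 D) (Φ2 := ∑ D ∈ range (2 ^ q), φ1 D)
    (Φ3 := ∑ D ∈ range (2 ^ q), (((L33 K m : ℕ) : ℝ) ^ (ι / K) * (EE' μ s (2 ^ u))⁻¹ * φ0 D +
      Real.exp (-((L33 K m : ℕ) : ℝ) ^ e₃))) (Θ := Θ) (c₁ := c₁)
    (by have := gn72_nonneg (L33 K m) (ι / K) (B33 β m) Rb x; positivity) (by positivity) (by positivity) (by rw [hφ0]; exact s1)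
    (by rw [hφ1]; exact s2) (by rw [hφ0]; exact s3)
    (by
      refine sum_nonneg fun D _ => add_nonneg (mul_nonneg (mul_nonneg (by positivity) ?_) (hφ00 D)) (Real.exp_pos _).le
      rw [hEE]
      exact inv_nonneg.2 (R.Epos _).le) key
  have hkey : |SR57 μ s (frm33 μ s K ι β γ) m p ((Rw ((frm33 μ s K ι β γ).R m) (i * 2 ^ q) ((i + 1) * 2 ^ q)).filter
      fun j => zz zt u j < zz zt (u + 1) j) t f (fun _ j => pJ 0 (zz zt (u + 1) j)) (fun _ j => pJ 0 (zz zt u j))| ≤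
      12 * (((2 ^ m : ℕ) : ℝ) ^ (-(c₁ / 2)) * √(((2 ^ q : ℕ) : ℝ) * ((2 ^ m : ℕ) : ℝ) ^ Θ)) *
        √(avy (ys33 μ s K m) (varF μ s (L33 K m) f)) +
      S.card * (2 * ((L33 K m : ℕ) : ℝ) ^ (-(4 : ℝ)) + ((L33 K m : ℕ) : ℝ) ^ (-(4 : ℝ))) := by
    rw [hSd, hb0d] at fin
    rw [hSd]
    exact fin
  refine hkey.trans ?_
  have hV0 : 0 ≤ √(avy (ys33 μ s K m) (varF μ s (L33 K m) f)) := Real.sqrt_nonneg _
  have v1 := v1_46 (q := q) (Θ := Θ) m10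
  have v2 := v2_46 (k := (S.card : ℝ)) hn0 hn2' (hScard.trans (by exact_mod_cast hqn)) (by
    have h5 : A ≤ ((2 ^ m : ℕ) : ℝ) ^ (2 : ℝ) := by
      rw [hA]
      exact Real.rpow_le_rpow_of_exponent_le hn1.le (by linarith only [hικ1, hιc', p3, hc1])
    linarith only [h5, hA240])
  exact add_le_add (mul_le_mul_of_nonneg_right v1 hV0) v2

end

end Pool.Agent.W_7d29a1_C0.TN57
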