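import Pool.Agent.W_7d29a1_C0.TNj72B
import Pool.Agent.W_7d29a1_C0.THE93
import Pool.Agent.W_7d29a1_C0.GP72B
import Pool.Agent.W_7d29a1_C0.TNb57
import Pool.Agent.W_7d29a1_C0.EstD44

/-!
CURV0 (MP_7d29a1_pr), leaf (T), CLOSED UP TO THE OWN BLOCK (helper72): `tjL72` : `TjL57`; `tL72` : `TL46` and `tV72` : the field `t` of
`XtB33`, from the own block `T0L57`.
-/

set_option autoImplicit false
set_option linter.unusedSectionVars false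
set_option linter.unusedVariables false

namespace Pool.Agent.W_7d29a1_C0.T72

open Finset MeasureTheory Filter Topology
open Pool.Agent.W_7d29a1_C0 Pool.Agent.W_7d29a1_C0.Mod92
open Pool.Agent.W_7d29a1_H (sl EE)
open Pool.Agent.W_7d29a1_HS (In wd)
open Pool.Agent.W_7d29a1_C0.Asm96 Pool.Agent.W_7d29a1_C0.EstC46 Pool.Agent.W_7d29a1_C0.TN57 Pool.Agent.W_7d29a1_C0.Frm33
open Pool.Agent.W_7d29a1_C0.H32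
open Pool.Agent.W_7d29a1_C0.Par92 (Est Sml)
open Pool.W7d29a1.C0.H27 (QI)

noncomputable section

variable {μ : Measure ℝ} {s : ℝ} {K : ℕ} {Θ : ℝ}

/-- **THE JUMP OF (T).** -/
theorem tjL72 [IsProbabilityMeasure μ] {c₂ C : ℝ} {n₀ : ℕ} (h : In μ s c₂ C n₀)
    (hQI : ∀ p : ℝ, 1 < p → ∃ C θ0 : ℝ, 0 ≤ C ∧ 0 < θ0 ∧ QI μ p C θ0) {f₀ f₀' : ℝ → ℝ} (hf₀ : DenLaw μ f₀ f₀') (hK : 32 ≤ K)
    (hΘ : 0 < Θ) {c₀ : ℝ} (hR : RegP46 μ s c₀ Θ) : TjL57 μ s K Θ :=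
  tjL_of72 hΘ fun δ c hδ hc hc1 => THE93.th93 h hQI hf₀ (micG57 h hQI) hK hΘ hR hδ hc hc1

/-- **LEAF (T) from the own block.** -/
theorem tL72 [IsProbabilityMeasure μ] {c₂ C : ℝ} {n₀ : ℕ} (h : In μ s c₂ C n₀)
    (hQI : ∀ p : ℝ, 1 < p → ∃ C θ0 : ℝ, 0 ≤ C ∧ 0 < θ0 ∧ QI μ p C θ0) {f₀ f₀' : ℝ → ℝ} (hf₀ : DenLaw μ f₀ f₀') (hK : 32 ≤ K)
    (hΘ : 0 < Θ) {c₀ : ℝ} (hR : RegP46 μ s c₀ Θ) (h0 : T0L57 μ s K Θ) : TL46 μ s K Θ :=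
  tl_of57 (by omega) hΘ hR h0 (tiL57 h hQI hf₀ hK hΘ hR (micG57 h hQI)) (tjL72 h hQI hf₀ hK hΘ hR)

/-- **The field `t` of `XtB33`.** -/
theorem tV72 [IsProbabilityMeasure μ] {c₂ C : ℝ} {n₀ : ℕ} (h : In μ s c₂ C n₀)
    (hQI : ∀ p : ℝ, 1 < p → ∃ C θ0 : ℝ, 0 ≤ C ∧ 0 < θ0 ∧ QI μ p C θ0) {f₀ f₀' : ℝ → ℝ} (hf₀ : DenLaw μ f₀ f₀') (hK : 32 ≤ K)
    (hΘ : 0 < Θ) {c₀ : ℝ} (hR : RegP46 μ s c₀ Θ) (h0 : T0L57 μ s K Θ) : Sml fun δ => Sml fun c => ∃ x : ℝ, 0 < x ∧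
      Est fun ι β γ m => EstD44.TV μ s (frm33 μ s K ι β γ) (EE μ s) Θ δ c x ι m :=
  (tL72 h hQI hf₀ hK hΘ hR h0).mono fun δ _ h1 => h1.mono fun c _ h2 => by
    obtain ⟨x, hx, h3⟩ := h2
    exact ⟨x, hx, h3.mono fun ι β γ _ _ _ => Eventually.of_forall fun m h4 => EstD44.Bl44.of46 h4⟩

end

end Pool.Agent.W_7d29a1_C0.T72
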