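import Pool.Agent.W_7d29a1_C0.Pair42E
import Pool.Agent.W_7d29a1_C0.Size1B

/-!
C0, helper42: DOUBLE TIES IN ONE BLOCK, part 6: THE MODEL FORM `pair42`: the second moment of the sum over the rows of a block of the products
(micro ties of the row given its window `[j - β, j + β)`) times (outer ties given the block `[C, D)`), both sides each:
`L ^ ε (ρ β / E_α + ρ ^ 2 (E_α E_β) ^ (-2) + ρ ^ 2 / (E_ρ E_α ^ 2))`.
-/

set_option autoImplicit false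

namespace Pool.Agent.W_7d29a1_C0.P42

open MeasureTheory ProbabilityTheory Filter Topology Finset
open Pool.Agent.W_7d29a1_F Pool.Agent.W_7d29a1_X Pool.Agent.W_7d29a1_h4g Pool.Agent.W_7d29a1_H
open Pool.Agent.W_7d29a1_HS (In wd md)
open Pool.Agent.W_7d29a1_HZ Pool.Agent.W_7d29a1_HZ.R72 Pool.Agent.W_7d29a1_Z.Asm72
open Pool.Agent.W_7d29a1_HZ.Z86
open Pool.Agent.W_7d29a1_C0.P86 Pool.Agent.W_7d29a1_C0.P15
open Pool.Agent.W_7d29a1_C0.P3 (Hy)
open Pool.Agent.W_7d29a1_C0.Mod92 (Px Pn lw ps pJ ne_Pn wm Pm meas_lw meas_cE)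
open Pool.Agent.W_7d29a1_C0.Swap57 (NI cE2)
open Pool.W7d29a1.C0 (gm gm_nonneg gm_mono gm_const)
open Pool.W7d29a1.C0.VT31 (cE)
open Pool.W7d29a1.C0.R43 (Tau st)
open Pool.W7d29a1.C0.S1 (tI i1 i1_of i1_not i1_nonneg)
open scoped ENNReal

variable {μ : Measure ℝ} {s : ℝ} {N : ℕ}

/-! ### The sides -/

/-- The start of the window between `α` and `β` on one side of the row. -/
def tm (α β : ℕ) (u : Bool) (j : ℕ) : ℕ := if u then j + α else j - β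

/-- The robust event on one side. -/
def Tt (μ : Measure ℝ) (s : ℝ) (N y c d α β : ℕ) (u : Bool) (j : ℕ) (M : ℝ) (η : Env) (S : Finset ℕ) : Prop :=
  TauS μ s N y c d (tm α β u j) (tm α β u j + (β - α)) M η S

theorem tauS_ms {y c d i j : ℕ} {M : ℝ} : Ms (TauS μ s N y c d i j M) := by
  intro S
  by_cases h : S ∈ Pn N y
  · have e : {η | TauS μ s N y c d i j M η S} = {η | Real.exp (-(5 * M)) ≤ cE2 (lw μ s η N (Pn N y)) (pJ c d) (NI i j) ⟨S, h⟩ ⟨S, h⟩} := by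
      ext η
      exact ⟨fun ⟨_, g⟩ => g, fun g => ⟨h, g⟩⟩
    rw [e]
    refine measurableSet_le measurable_const ?_
    unfold cE2
    refine meas_cE (w := fun η : Env => lw μ s η N (Pn N y)) (fun x => meas_lw x) (fun z => ?_) (pJ c d) ⟨S, h⟩
    exact meas_cE (w := fun η : Env => lw μ s η N (Pn N y)) (f := fun _ => NI i j z) (fun x => meas_lw x) (fun _ => measurable_const) (pJ c d)
      ⟨S, h⟩
  · have e : {η | TauS μ s N y c d i j M η S} = ∅ := by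
      ext η
      exact ⟨fun ⟨g, _⟩ => h g, fun g => absurd g (Set.notMem_empty _)⟩
    rw [e]
    exact MeasurableSet.empty

theorem tt_ms {y c d α β : ℕ} {u : Bool} {j : ℕ} {M : ℝ} : Ms (Tt μ s N y c d α β u j M) := tauS_ms

/-! ### The replacement -/

theorem rep4 {y : ℕ} {A B C D A' B' C' D' : Env → Finset ℕ → Prop} {a b c d : ℝ≥0∞}
    (hA : ∀ f : Env → Finset ℕ → ℝ≥0∞, (∀ η S, f η S ≤ 1) → Q1 μ s N y (fun η S => f η S * ind (A η S)) ≤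
      Q1 μ s N y (fun η S => f η S * ind (A' η S)) + a)
    (hB : ∀ f : Env → Finset ℕ → ℝ≥0∞, (∀ η S, f η S ≤ 1) → Q1 μ s N y (fun η S => f η S * ind (B η S)) ≤
      Q1 μ s N y (fun η S => f η S * ind (B' η S)) + b)
    (hC : ∀ f : Env → Finset ℕ → ℝ≥0∞, (∀ η S, f η S ≤ 1) → Q1 μ s N y (fun η S => f η S * ind (C η S)) ≤
      Q1 μ s N y (fun η S => f η S * ind (C' η S)) + c)
    (hD : ∀ f : Env → Finset ℕ → ℝ≥0∞, (∀ η S, f η S ≤ 1) → Q1 μ s N y (fun η S => f η S * ind (D η S)) ≤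
      Q1 μ s N y (fun η S => f η S * ind (D' η S)) + d) :
    Q1 μ s N y (fun η S => (ind (A η S) * ind (B η S)) * (ind (C η S) * ind (D η S))) ≤
      Q1 μ s N y (fun η S => (ind (A' η S) * ind (B' η S)) * (ind (C' η S) * ind (D' η S))) + (a + b + c + d) := by
  have h1 := hA (fun η S => ind (B η S) * (ind (C η S) * ind (D η S))) fun η S => mul_le_one' (ind_le _) (mul_le_one' (ind_le _) (ind_le _))
  have h2 := hB (fun η S => ind (A' η S) * (ind (C η S) * ind (D η S))) fun η S => mul_le_one' (ind_le _) (mul_le_one' (ind_le _) (ind_le _))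
  have h3 := hC (fun η S => (ind (A' η S) * ind (B' η S)) * ind (D η S)) fun η S => mul_le_one' (mul_le_one' (ind_le _) (ind_le _)) (ind_le _)
  have h4 := hD (fun η S => (ind (A' η S) * ind (B' η S)) * ind (C' η S)) fun η S => mul_le_one' (mul_le_one' (ind_le _) (ind_le _)) (ind_le _)
  have e1 : (fun η S => ind (A η S) * ind (B η S) * (ind (C η S) * ind (D η S))) =
      fun η S => ind (B η S) * (ind (C η S) * ind (D η S)) * ind (A η S) := by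
    funext η S
    ring
  have e2 : (fun η S => ind (B η S) * (ind (C η S) * ind (D η S)) * ind (A' η S)) =
      fun η S => ind (A' η S) * (ind (C η S) * ind (D η S)) * ind (B η S) := by
    funext η S
    ring
  have e3 : (fun η S => ind (A' η S) * (ind (C η S) * ind (D η S)) * ind (B' η S)) =
      fun η S => ind (A' η S) * ind (B' η S) * ind (D η S) * ind (C η S) := by
    funext η S
    ring
  have e4 : (fun η S => ind (A' η S) * ind (B' η S) * ind (D η S) * ind (C' η S)) =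
      fun η S => ind (A' η S) * ind (B' η S) * ind (C' η S) * ind (D η S) := by
    funext η S
    ring
  have e5 : (fun η S => ind (A' η S) * ind (B' η S) * ind (C' η S) * ind (D' η S)) =
      fun η S => ind (A' η S) * ind (B' η S) * (ind (C' η S) * ind (D' η S)) := by
    funext η S
    ring
  rw [e1]
  rw [e2] at h1
  rw [e3] at h2
  rw [e4] at h3
  rw [e5] at h4
  calc _ ≤ _ := h1
    _ ≤ (((Q1 μ s N y (fun η S => (ind (A' η S) * ind (B' η S)) * (ind (C' η S) * ind (D' η S))) + d) + c) + b) + a :=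
      add_le_add (h2.trans (add_le_add (h3.trans (add_le_add h4 le_rfl)) le_rfl)) le_rfl
    _ = _ := by ring

variable [IsProbabilityMeasure μ]

/-- **One pair of rows**: the robust events are replaced by the events of the pieces. -/
theorem tau_pair {y C D α₀ α β q lm : ℕ} {θ M : ℝ} {L : ℕ} (hy : y ≤ N) (hM : 8 ≤ M) (hq : 10 * M ≤ q) (hq' : (q : ℝ) ≤ 20 * M)
    (hlp : ∀ T : ℕ, (L : ℝ) ^ θ ≤ T → 1 ≤ lp T q) (hβ : β ≤ N) (h1 : 2 * α ≤ β) (hlm : 3 * q * (lm + 1) ≤ α - α₀)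
    {j k : ℕ} (hj : C + β ≤ j ∧ j + β ≤ D) (hk : C + β ≤ k ∧ k + β ≤ D) (u v u' v' : Bool) :
    Q1 μ s N y (fun η S => (ind (Tt μ s N y (j - β) (j + β) α₀ α u j M η S) * ind (Tt μ s N y C D α β v j M η S)) *
      (ind (Tt μ s N y (k - β) (k + β) α₀ α u' k M η S) * ind (Tt μ s N y C D α β v' k M η S))) ≤
    P1 μ s N y (fun η S => Zz μ s N y C D β lm q v θ (7 * M) L (tm α₀ α u j) j η S ∧
      Zz μ s N y C D β lm q v' θ (7 * M) L (tm α₀ α u' k) k η S) + (2 * (N + 1) + 2) * ENNReal.ofReal (Real.exp (-M)) := by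
  have hmic : ∀ (u : Bool) (i : ℕ), ∀ f : Env → Finset ℕ → ℝ≥0∞, (∀ η S, f η S ≤ 1) →
      Q1 μ s N y (fun η S => f η S * ind (Tt μ s N y (i - β) (i + β) α₀ α u i M η S)) ≤
        Q1 μ s N y (fun η S => f η S * ind (MicE μ s N y β lm q (tm α₀ α u i) i (7 * M) η S)) + ENNReal.ofReal (Real.exp (-M)) := by
    intro u i f hf
    have h2 := tau_Q1 (μ := μ) (s := s) (N := N) (y := y) (c := i - β) (d := i + β) hy (by omega) (tm α₀ α u i) lm q hM hq hq'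
      (E := tm α₀ α u i + (α - α₀)) (by omega) hf
    refine h2.trans (add_le_add (Q1_mono fun η S _ _ => mul_le_mul' le_rfl ?_) le_rfl)
    by_cases hR : RpS μ s N y (i - β) (i + β) (tm α₀ α u i) lm q M η S
    · have hE : MicE μ s N y β lm q (tm α₀ α u i) i (7 * M) η S := by
        obtain ⟨n, hn, hn'⟩ := hR
        exact ⟨n, mem_range.2 hn, hn'⟩
      rw [ind_of hR, ind_of hE]
    · rw [ind_not hR]
      exact zero_le
  have hown : ∀ (v : Bool) (i : ℕ), C + β ≤ i → i + β ≤ D → ∀ f : Env → Finset ℕ → ℝ≥0∞, (∀ η S, f η S ≤ 1) →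
      Q1 μ s N y (fun η S => f η S * ind (Tt μ s N y C D α β v i M η S)) ≤
        Q1 μ s N y (fun η S => f η S * ind (OwG μ s N y C D β q v i θ (7 * M) L η S)) + (N + 1) * ENNReal.ofReal (Real.exp (-M)) := by
    intro v i hi hi' f hf
    refine tau_own hy (by omega) hM hq hq' hlp (by omega) hβ (fun hv => ?_) (fun hv => ?_) hf
    · unfold tm
      rw [if_pos hv]
      omega
    · unfold tm
      rw [if_neg (by rw [hv]; exact Bool.false_ne_true)]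
      omega
  have h2 := rep4 (μ := μ) (s := s) (N := N) (y := y) (hmic u j) (hown v j hj.1 hj.2) (hmic u' k) (hown v' k hk.1 hk.2)
  refine h2.trans (add_le_add ?_ (le_of_eq (by ring)))
  rw [← Q1_ind (ms_and zz_ms zz_ms)]
  refine Q1_mono fun η S _ _ => ?_
  by_cases hA : Zz μ s N y C D β lm q v θ (7 * M) L (tm α₀ α u j) j η S ∧ Zz μ s N y C D β lm q v' θ (7 * M) L (tm α₀ α u' k) k η S
  · rw [ind_of hA]
    exact mul_le_one' (mul_le_one' (ind_le _) (ind_le _)) (mul_le_one' (ind_le _) (ind_le _))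
  · refine le_trans (le_of_eq ?_) zero_le
    by_contra hne
    refine hA ⟨⟨?_, ?_⟩, ?_, ?_⟩
    · by_contra hc
      exact hne (by rw [ind_not hc, zero_mul, zero_mul])
    · by_contra hc
      exact hne (by rw [ind_not hc, mul_zero, zero_mul])
    · by_contra hc
      exact hne (by rw [ind_not hc, zero_mul, mul_zero])
    · by_contra hc
      exact hne (by rw [ind_not hc, mul_zero, mul_zero])

/-! ### The sum of the indicators -/

omit [IsProbabilityMeasure μ] in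
theorem ofReal_i1 {A : Prop} : ENNReal.ofReal (i1 A) = ind A := by
  by_cases h : A
  · rw [i1_of h, ind_of h, ENNReal.ofReal_one]
  · rw [i1_not h, ind_not h, ENNReal.ofReal_zero]

theorem ti_nonneg {Q : Finset (Finset ℕ)} (u : Px Q → ℝ) (p : Px Q → Finset ℕ × ℕ) (c al be d : ℕ) (m : ℝ) (S : Px Q) :
    0 ≤ tI u p c al be d m S := add_nonneg (i1_nonneg _) (i1_nonneg _)

omit [IsProbabilityMeasure μ] in
/-- The two sides together. -/
theorem tI_ind {y c d α β j : ℕ} {M : ℝ} (hαβ : α ≤ β) (hj : β ≤ j) (η : Env) {S : Finset ℕ} (hS : S ∈ Pn N y) :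
    ENNReal.ofReal (tI (lw μ s η N (Pn N y)) (pJ c d) (j - β) (j - α) (j + α) (j + β) M ⟨S, hS⟩) =
      ∑ u : Bool, ind (Tt μ s N y c d α β u j M η S) := by
  have e : ∀ i i' : ℕ, Tau (lw μ s η N (Pn N y)) (pJ c d) i i' M ⟨S, hS⟩ ↔ TauS μ s N y c d i i' M η S := fun i i' =>
    ⟨fun h => ⟨hS, h⟩, fun ⟨_, h⟩ => h⟩
  have e1 : j - α = j - β + (β - α) := by omega
  have e2 : j + β = j + α + (β - α) := by omega
  unfold tI
  rw [ENNReal.ofReal_add (i1_nonneg _) (i1_nonneg _), ofReal_i1, ofReal_i1, Fintype.sum_bool, add_comm]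
  unfold Tt tm
  simp only [if_true, Bool.false_eq_true, if_false]
  rw [← e2, ← e1]
  congr 1
  · exact congrArg ind (propext (e _ _))
  · exact congrArg ind (propext (e _ _))

theorem Q1_sum4 {y : ℕ} {ι κ : Type*} (I : Finset ι) (R : Finset κ) {W : ι → ι → κ → κ → Env → Finset ℕ → ℝ≥0∞}
    (hW : ∀ b b' j k S, Measurable fun η => W b b' j k η S) :
    Q1 μ s N y (fun η S => ∑ b ∈ I, ∑ b' ∈ I, ∑ j ∈ R, ∑ k ∈ R, W b b' j k η S) =
      ∑ b ∈ I, ∑ b' ∈ I, ∑ j ∈ R, ∑ k ∈ R, Q1 μ s N y (W b b' j k) := by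
  rw [Q1_sum I fun b S => Finset.measurable_sum _ fun b' _ => Finset.measurable_sum _ fun j _ => Finset.measurable_sum _ fun k _ =>
    hW b b' j k S]
  refine sum_congr rfl fun b _ => ?_
  rw [Q1_sum I fun b' S => Finset.measurable_sum _ fun j _ => Finset.measurable_sum _ fun k _ => hW b b' j k S]
  refine sum_congr rfl fun b' _ => ?_
  rw [Q1_sum R fun j S => Finset.measurable_sum _ fun k _ => hW b b' j k S]
  exact sum_congr rfl fun j _ => Q1_sum R fun k S => hW b b' j k S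

omit [IsProbabilityMeasure μ] in
/-- The square of the sum of the indicators. -/
theorem sq_ind {R : Finset ℕ} {m o : Bool → ℕ → ℝ≥0∞} {a : ℕ → ℝ} (ha0 : ∀ j ∈ R, 0 ≤ a j)
    (ha : ∀ j ∈ R, ENNReal.ofReal (a j) = (∑ u : Bool, m u j) * ∑ v : Bool, o v j) :
    ENNReal.ofReal ((∑ j ∈ R, a j) ^ 2) = ∑ b : Bool × Bool, ∑ b' : Bool × Bool, ∑ j ∈ R, ∑ k ∈ R,
      (m b.1 j * o b.2 j) * (m b'.1 k * o b'.2 k) := by
  have e1 : ∀ j ∈ R, ENNReal.ofReal (a j) = ∑ b : Bool × Bool, m b.1 j * o b.2 j := fun j hj => by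
    rw [ha j hj, sum_mul_sum, Fintype.sum_prod_type]
  rw [ENNReal.ofReal_pow (sum_nonneg ha0), ENNReal.ofReal_sum_of_nonneg ha0, sum_congr rfl e1, sum_comm, sq, sum_mul_sum]
  refine sum_congr rfl fun b _ => sum_congr rfl fun b' _ => ?_
  rw [sum_mul_sum]

omit [IsProbabilityMeasure μ] in
theorem fin_num {P Q A ρ β ga gb gr g te ep n eM : ℝ} (hP : 0 ≤ P) (hQ : 1 ≤ Q) (hA : 64 * (P * (Q * Q)) ≤ A) (hg0 : 0 ≤ g)
    (hg : g ≤ 2 * Q * ga) (hga : 0 ≤ ga) (hgr : 0 ≤ gr) (hρ : 0 ≤ ρ) (hβ : 0 ≤ β) (hte : 16 * te ≤ ep)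
    (hρN : ρ ≤ n) (heM : 0 ≤ eM) :
    16 * (P * (ρ * β * g + (ρ ^ 2 * (g * gb) ^ 2 + ρ ^ 2 * gr * (g * g))) + te) + 16 * (ρ * ρ * ((2 * (n + 1) + 2) * eM)) ≤
      A * (ρ * β * ga + (ρ ^ 2 * (ga * gb) ^ 2 + ρ ^ 2 * gr * (ga * ga))) + (ep + 100 * (n + 1) ^ 3 * eM) := by
  have hQ0 : 0 ≤ Q := by linarith
  have hQQ : Q ≤ Q * Q := le_mul_of_one_le_left hQ0 hQ
  have g2 : g * g ≤ 4 * (Q * Q) * (ga * ga) := by
    calc g * g ≤ (2 * Q * ga) * (2 * Q * ga) := mul_le_mul hg hg hg0 (by positivity)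
      _ = _ := by ring
  have g1 : g ≤ 4 * (Q * Q) * ga := hg.trans (mul_le_mul_of_nonneg_right (by linarith) hga)
  have w1 : ρ * β * g ≤ 4 * (Q * Q) * (ρ * β * ga) := by
    calc ρ * β * g ≤ ρ * β * (4 * (Q * Q) * ga) := mul_le_mul_of_nonneg_left g1 (by positivity)
      _ = _ := by ring
  have w2 : ρ ^ 2 * (g * gb) ^ 2 ≤ 4 * (Q * Q) * (ρ ^ 2 * (ga * gb) ^ 2) := by
    calc ρ ^ 2 * (g * gb) ^ 2 = ρ ^ 2 * gb ^ 2 * (g * g) := by ring
      _ ≤ ρ ^ 2 * gb ^ 2 * (4 * (Q * Q) * (ga * ga)) := mul_le_mul_of_nonneg_left g2 (by positivity)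
      _ = _ := by ring
  have w3 : ρ ^ 2 * gr * (g * g) ≤ 4 * (Q * Q) * (ρ ^ 2 * gr * (ga * ga)) := by
    calc ρ ^ 2 * gr * (g * g) ≤ ρ ^ 2 * gr * (4 * (Q * Q) * (ga * ga)) := mul_le_mul_of_nonneg_left g2 (by positivity)
      _ = _ := by ring
  obtain ⟨W, hW⟩ : ∃ W, W = ρ * β * ga + (ρ ^ 2 * (ga * gb) ^ 2 + ρ ^ 2 * gr * (ga * ga)) := ⟨_, rfl⟩
  have hW0 : 0 ≤ W := by
    rw [hW]
    positivity
  have w4 : ρ * β * g + (ρ ^ 2 * (g * gb) ^ 2 + ρ ^ 2 * gr * (g * g)) ≤ 4 * (Q * Q) * W := by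
    rw [hW, mul_add, mul_add]
    exact add_le_add w1 (add_le_add w2 w3)
  have w5 : 16 * (P * (ρ * β * g + (ρ ^ 2 * (g * gb) ^ 2 + ρ ^ 2 * gr * (g * g)))) ≤ A * W := by
    calc _ ≤ 16 * (P * (4 * (Q * Q) * W)) := mul_le_mul_of_nonneg_left (mul_le_mul_of_nonneg_left w4 hP) (by norm_num)
      _ = 64 * (P * (Q * Q)) * W := by ring
      _ ≤ _ := mul_le_mul_of_nonneg_right hA hW0
  have w6 : 16 * (ρ * ρ * ((2 * (n + 1) + 2) * eM)) ≤ 100 * (n + 1) ^ 3 * eM := by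
    have hn : 0 ≤ n := hρ.trans hρN
    have h1 : ρ * ρ ≤ (n + 1) * (n + 1) := mul_le_mul (by linarith) (by linarith) hρ (by linarith)
    have h2 : 2 * (n + 1) + 2 ≤ 4 * (n + 1) := by linarith
    calc 16 * (ρ * ρ * ((2 * (n + 1) + 2) * eM)) = 16 * (ρ * ρ * (2 * (n + 1) + 2)) * eM := by ring
      _ ≤ 16 * ((n + 1) * (n + 1) * (4 * (n + 1))) * eM := by
          refine mul_le_mul_of_nonneg_right (mul_le_mul_of_nonneg_left ?_ (by norm_num)) heM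
          exact mul_le_mul h1 h2 (by linarith) (by positivity)
      _ = 64 * (n + 1) ^ 3 * eM := by ring
      _ ≤ _ := by
          refine mul_le_mul_of_nonneg_right ?_ heM
          have : 0 ≤ (n + 1) ^ 3 := by positivity
          linarith
  rw [← hW]
  linarith

variable {c₀ C₀ : ℝ} {n₀ : ℕ}

/-- **THE PAIR SUM OF ONE BLOCK**, model form. -/
theorem pair42 (h : In μ s c₀ C₀ n₀) : ∀ ε θ : ℝ, 0 < ε → 0 < θ → ∃ δ κ c₂ : ℝ, 0 < δ ∧ 0 < κ ∧ 0 < c₂ ∧ ∃ L₀ : ℕ,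
    ∀ L : ℕ, L₀ ≤ L → ∀ N : ℕ, L ≤ 16 * N → N ≤ L → ∀ y : ℕ, y ≤ N → |(y : ℝ) - sl μ s * N| ≤ ((L : ℝ) ^ δ * wd' μ s N) →
    ∀ α₀ α β C D r ρ : ℕ, (L : ℝ) ^ θ ≤ α → 2 * α₀ ≤ α → 2 * α ≤ β → β ≤ ρ → ρ ≤ N → D ≤ N →
    ∀ R : Finset ℕ, (∀ j ∈ R, r ≤ j ∧ j < r + ρ ∧ C + β ≤ j ∧ j + β ≤ D) → ∀ M : ℝ, 8 ≤ M → M ≤ (L : ℝ) ^ κ →
    ∫ ω, gm (wm μ s N (Pn N y) ω) (fun x => (∑ j ∈ R,
        tI (wm μ s N (Pn N y) ω) (pJ (j - β) (j + β)) (j - α) (j - α₀) (j + α₀) (j + α) M x *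
        tI (wm μ s N (Pn N y) ω) (pJ C D) (j - β) (j - α) (j + α) (j + β) M x) ^ 2) ∂(Pm μ N) ≤
      (L : ℝ) ^ ε * (ρ * β * (EE' μ s α)⁻¹ + ((ρ : ℝ) ^ 2 * ((EE' μ s α)⁻¹ * (EE' μ s β)⁻¹) ^ 2 +
        (ρ : ℝ) ^ 2 * (EE' μ s ρ)⁻¹ * ((EE' μ s α)⁻¹ * (EE' μ s α)⁻¹))) +
      (Real.exp (-(L : ℝ) ^ c₂) + 100 * ((N : ℝ) + 1) ^ 3 * Real.exp (-M)) := by
  intro ε θ hε hθ
  obtain ⟨θ', hθ', hθθ, δ, κ₁, d₁, hδ, hκ₁, hd₁, L₁, hP⟩ := pairP h (ε / 4) (θ / 4) (by positivity) (by positivity)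
  obtain ⟨κ₃, hκ₃⟩ : ∃ κ₃, κ₃ = min κ₁ (θ' / 4) := ⟨_, rfl⟩
  have hk3 : 0 < κ₃ := by
    rw [hκ₃]
    exact lt_min hκ₁ (by positivity)
  have k31 : κ₃ ≤ κ₁ := by rw [hκ₃]; exact min_le_left _ _
  have k32 : κ₃ ≤ θ' / 4 := by rw [hκ₃]; exact min_le_right _ _
  obtain ⟨κ, hκd⟩ : ∃ κ, κ = min (κ₃ / 2) (min (ε / 16) (min (θ / 8) (1 / 2))) := ⟨_, rfl⟩
  have hκ : 0 < κ := by
    rw [hκd]
    exact lt_min (by positivity) (lt_min (by positivity) (lt_min (by positivity) (by norm_num)))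
  have k1 : κ ≤ κ₃ / 2 := by rw [hκd]; exact min_le_left _ _
  have k2 : κ ≤ ε / 16 := by rw [hκd]; exact (min_le_right _ _).trans (min_le_left _ _)
  have k3 : κ ≤ θ / 8 := by rw [hκd]; exact (min_le_right _ _).trans ((min_le_right _ _).trans (min_le_left _ _))
  have k4 : κ ≤ 1 / 2 := by rw [hκd]; exact (min_le_right _ _).trans ((min_le_right _ _).trans (min_le_right _ _))
  obtain ⟨L₂, hT⟩ := tau_num (ε := ε / 4) (θ := θ / 2) (κ₁ := κ₃) hκ (by linarith) (by linarith) (by linarith) (by linarith) (by positivity)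
  obtain ⟨L₃, hB⟩ := lp_num hθ' (show θ' / 4 < θ' / 2 by linarith)
  obtain ⟨L₄, hE⟩ := ev_mul86 64 (show ε / 2 < ε by linarith)
  obtain ⟨L₅, hE'⟩ := ev_mul86 2 (show θ / 2 < θ by linarith)
  obtain ⟨c₂, hc₂, -, L₆, hX⟩ := Pool.Agent.W_7d29a1_Z.NumI77.pow_exp hd₁ 1
  refine ⟨δ, κ, c₂, hδ, hκ, hc₂, L₁ + L₂ + L₃ + L₄ + L₅ + L₆ + 16, ?_⟩
  intro L hL N hLN hNL y hyN hyc α₀ α β C D r ρ hα h0 h1 hβρ hρN hDN R hR M hM hML
  have hL16 : (16 : ℝ) ≤ L := by exact_mod_cast (show 16 ≤ L by omega)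
  have hL0 : (0 : ℝ) < L := by linarith
  have hL1 : (1 : ℝ) ≤ L := by linarith
  have hEp : ∀ t, 0 < EE' μ s t := fun t => lt_of_lt_of_le zero_lt_one (le_max_left _ _)
  have hEi : ∀ t, 0 ≤ (EE' μ s t)⁻¹ := fun t => (inv_pos.2 (hEp t)).le
  obtain ⟨l, hl⟩ : ∃ l, l = α - α₀ := ⟨_, rfl⟩
  have hl2 : α ≤ 2 * l := by omega
  have hlθ : (L : ℝ) ^ (θ / 2) ≤ l := by
    have g1 : (α : ℝ) ≤ 2 * l := by exact_mod_cast hl2
    have g2 := hE' L (by omega)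
    linarith
  obtain ⟨t1, t2, t3, t4, t5, t6, t7, t8, t9⟩ := hT L (by omega) M hM hML l hlθ
  obtain ⟨q, hq⟩ : ∃ q, q = ⌈10 * M⌉₊ := ⟨_, rfl⟩
  rw [← hq] at t1 t2 t3 t4 t5 t6 t8 t9
  obtain ⟨lm, hlm⟩ : ∃ lm, lm = l / (3 * q) - 1 := ⟨_, rfl⟩
  rw [← hlm] at t3 t4 t8
  have hq1 : 1 ≤ q := by
    have : (0 : ℝ) < q := by linarith
    exact_mod_cast this
  have hqκ : (q : ℝ) ≤ (L : ℝ) ^ κ₃ := by
    have : (q : ℝ) ≤ ((3 * q : ℕ) : ℝ) := by exact_mod_cast (show q ≤ 3 * q by omega)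
    exact this.trans t5
  have hlp : ∀ T : ℕ, (L : ℝ) ^ θ' ≤ T → 1 ≤ lp T q := fun T hT =>
    (hB L (by omega) q hq1 (hqκ.trans (Real.rpow_le_rpow_of_exponent_le hL1 k32)) T hT).2.1
  have hθ4 : (L : ℝ) ^ (θ / 4) ≤ β := by
    have g1 : (α : ℝ) ≤ β := by exact_mod_cast (show α ≤ β by omega)
    exact ((Real.rpow_le_rpow_of_exponent_le hL1 (by linarith)).trans hα).trans g1
  have hβN : β ≤ N := hβρ.trans hρN
  obtain ⟨r', hr'⟩ : ∃ r', r' = max r β := ⟨_, rfl⟩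
  have hR' : ∀ j ∈ R, r' ≤ j ∧ j < r' + ρ ∧ C + β ≤ j ∧ j + β ≤ D := fun j hj => by
    have := hR j hj
    omega
  have hτ : ∀ u : Bool, ∀ j ∈ R, j ≤ tm α₀ α u j + β / 2 ∧ tm α₀ α u j + 3 * q * (lm + 1) ≤ j + β / 2 := fun u j hj => by
    have := hR' j hj
    unfold tm
    cases u with
    | true =>
      rw [if_pos rfl]
      omega
    | false =>
      rw [if_neg Bool.false_ne_true]
      omega
  -- the numbers
  obtain ⟨P, hPd⟩ : ∃ P : ℝ, P = (L : ℝ) ^ (ε / 4) := ⟨_, rfl⟩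
  obtain ⟨Q, hQd⟩ : ∃ Q : ℝ, Q = (L : ℝ) ^ (ε / 4 / 2) := ⟨_, rfl⟩
  obtain ⟨g, hg⟩ : ∃ g : ℝ, g = (EE' μ s lm)⁻¹ := ⟨_, rfl⟩
  obtain ⟨ga, hga⟩ : ∃ ga : ℝ, ga = (EE' μ s α)⁻¹ := ⟨_, rfl⟩
  obtain ⟨gb, hgb⟩ : ∃ gb : ℝ, gb = (EE' μ s β)⁻¹ := ⟨_, rfl⟩
  obtain ⟨gr, hgr⟩ : ∃ gr : ℝ, gr = (EE' μ s ρ)⁻¹ := ⟨_, rfl⟩
  obtain ⟨te, hte⟩ : ∃ te : ℝ, te = Real.exp (-(L : ℝ) ^ d₁) := ⟨_, rfl⟩
  have hP0 : 0 ≤ P := by rw [hPd]; positivity
  have hQ1 : 1 ≤ Q := by rw [hQd]; exact Real.one_le_rpow hL1 (by positivity)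
  have hg0 : 0 ≤ g := by rw [hg]; exact hEi _
  have hga0 : 0 ≤ ga := by rw [hga]; exact hEi _
  have hgr0 : 0 ≤ gr := by rw [hgr]; exact hEi _
  have hgb0 : 0 ≤ gb := by rw [hgb]; exact hEi _
  have hte0 : 0 ≤ te := by rw [hte]; exact (Real.exp_pos _).le
  have hgg : g ≤ 2 * Q * ga := by
    have e0 : α ≤ 18 * q * lm := by
      calc α ≤ 2 * l := hl2
        _ ≤ 2 * (9 * q * lm) := Nat.mul_le_mul_left _ t8
        _ = 18 * q * lm := by ring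
    have e1 : EE' μ s α ≤ ((18 * q : ℕ) : ℝ) * EE' μ s lm := EE'_le_mul86 h (by omega) e0
    have e2 : ((18 * q : ℕ) : ℝ) ≤ 2 * Q := by
      rw [hQd]
      have : ((18 * q : ℕ) : ℝ) = 2 * ((9 * q : ℕ) : ℝ) := by
        push_cast
        ring
      rw [this]
      exact mul_le_mul_of_nonneg_left t9 (by norm_num)
    have e3 : EE' μ s α ≤ 2 * Q * EE' μ s lm := e1.trans (mul_le_mul_of_nonneg_right e2 (hEp _).le)
    rw [hg, hga, inv_le_iff_one_le_mul₀ (hEp _), mul_right_comm, ← div_eq_mul_inv, one_le_div (hEp _)]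
    exact e3
  have hPQ : 64 * (P * (Q * Q)) ≤ (L : ℝ) ^ ε := by
    have e1 : P * (Q * Q) = (L : ℝ) ^ (ε / 2) := by
      rw [hPd, hQd, ← Real.rpow_add hL0, ← Real.rpow_add hL0]
      congr 1
      ring
    rw [e1]
    exact hE L (by omega)
  have hte16 : 16 * te ≤ Real.exp (-(L : ℝ) ^ c₂) := by
    have e1 := hX L (by omega)
    rw [← hte, Real.rpow_one] at e1
    exact (mul_le_mul_of_nonneg_right hL16 hte0).trans e1
  -- the pair sums
  have hpair : ∀ u v u' v' : Bool, ∑ j ∈ R, ∑ k ∈ R, P1 μ s N y (fun η S => Zz μ s N y C D β lm q v θ' (7 * M) L (tm α₀ α u j) j η S ∧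
      Zz μ s N y C D β lm q v' θ' (7 * M) L (tm α₀ α u' k) k η S) ≤
      ENNReal.ofReal (P * (ρ * β * g + ((ρ : ℝ) ^ 2 * (g * gb) ^ 2 + (ρ : ℝ) ^ 2 * gr * (g * g))) + te) := by
    intro u v u' v'
    have s1 := hP L (by omega) N hLN hNL y hyN hyc β lm q C D r' ρ v v' hθ4 (le_trans (le_of_eq (by congr 1; ring)) t4) (by omega) hq1
      (hqκ.trans (Real.rpow_le_rpow_of_exponent_le hL1 k31)) hDN (by omega) hβρ hρN R hR' (tm α₀ α u) (tm α₀ α u') (hτ u) (hτ u') (7 * M)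
      (t7.trans (Real.rpow_le_rpow_of_exponent_le hL1 k31))
    rw [← hPd, ← hg, ← hgb, ← hgr, ← hte] at s1
    refine s1.trans (le_of_eq (ENNReal.ofReal_add (mul_nonneg hP0 (by positivity)) hte0).symm)
  -- the model
  obtain ⟨E, hEd⟩ : ∃ E : ℝ, E = 16 * (P * (ρ * β * g + ((ρ : ℝ) ^ 2 * (g * gb) ^ 2 + (ρ : ℝ) ^ 2 * gr * (g * g))) + te) +
    16 * (ρ * ρ * ((2 * (N + 1) + 2) * Real.exp (-M))) := ⟨_, rfl⟩
  have hW0 : 0 ≤ P * (ρ * β * g + ((ρ : ℝ) ^ 2 * (g * gb) ^ 2 + (ρ : ℝ) ^ 2 * gr * (g * g))) + te := by positivity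
  have hE0 : 0 ≤ E := by
    rw [hEd]
    positivity
  have hfin : E ≤ (L : ℝ) ^ ε * (ρ * β * ga + ((ρ : ℝ) ^ 2 * (ga * gb) ^ 2 + (ρ : ℝ) ^ 2 * gr * (ga * ga))) +
      (Real.exp (-(L : ℝ) ^ c₂) + 100 * ((N : ℝ) + 1) ^ 3 * Real.exp (-M)) := by
    rw [hEd]
    exact fin_num hP0 hQ1 hPQ hg0 hgg hga0 hgr0 (Nat.cast_nonneg _) (Nat.cast_nonneg _) hte16 (by exact_mod_cast hρN) (Real.exp_pos _).le
  rw [← hga, ← hgb, ← hgr]
  refine le_trans ?_ hfin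
  have hint := int_of_Q1 (μ := μ) (s := s) hyN (X := fun ω x => (∑ j ∈ R,
      tI (wm μ s N (Pn N y) ω) (pJ (j - β) (j + β)) (j - α) (j - α₀) (j + α₀) (j + α) M x *
      tI (wm μ s N (Pn N y) ω) (pJ C D) (j - β) (j - α) (j + α) (j + β) M x) ^ 2) (f := fun _ _ => 0) (fun _ _ => sq_nonneg _)
      (fun _ _ => measurable_const) (fun _ _ => le_rfl) (fun _ _ => zero_le_one) (R := 0) (e := E) le_rfl hE0 fun A => ?_
  · rw [zero_mul, zero_add] at hint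
    exact hint
  rw [ENNReal.ofReal_zero, zero_mul, zero_add]
  -- the indicators
  obtain ⟨m, hm⟩ : ∃ m : Bool → ℕ → Env → Finset ℕ → ℝ≥0∞, m = fun u j η S => ind (Tt μ s N y (j - β) (j + β) α₀ α u j M η S) := ⟨_, rfl⟩
  obtain ⟨o, ho⟩ : ∃ o : Bool → ℕ → Env → Finset ℕ → ℝ≥0∞, o = fun v j η S => ind (Tt μ s N y C D α β v j M η S) := ⟨_, rfl⟩
  have hmm : ∀ u j S, Measurable fun η => m u j η S := fun u j S => by
    rw [hm]
    exact Pool.Agent.W_7d29a1_C0.P86.meas_ind (tt_ms S)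
  have hom : ∀ u j S, Measurable fun η => o u j η S := fun u j S => by
    rw [ho]
    exact Pool.Agent.W_7d29a1_C0.P86.meas_ind (tt_ms S)
  have hpt : ∀ η S, ENNReal.ofReal (exP (fun x => (∑ j ∈ R,
      tI (wm μ s N (Pn N y) (η, A)) (pJ (j - β) (j + β)) (j - α) (j - α₀) (j + α₀) (j + α) M x *
      tI (wm μ s N (Pn N y) (η, A)) (pJ C D) (j - β) (j - α) (j + α) (j + β) M x) ^ 2) S) ≤
      ∑ b : Bool × Bool, ∑ b' : Bool × Bool, ∑ j ∈ R, ∑ k ∈ R, (m b.1 j η S * o b.2 j η S) * (m b'.1 k η S * o b'.2 k η S) := by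
    intro η S
    unfold exP
    by_cases hS : S ∈ Pn N y
    · rw [dif_pos hS]
      refine le_of_eq ?_
      refine sq_ind (R := R) (m := fun u j => m u j η S) (o := fun v j => o v j η S) (fun j _ => ?_) (fun j hj => ?_)
      · exact mul_nonneg (ti_nonneg _ _ _ _ _ _ _ _) (ti_nonneg _ _ _ _ _ _ _ _)
      · have hj' := hR' j hj
        rw [ENNReal.ofReal_mul (ti_nonneg _ _ _ _ _ _ _ _), hm, ho]
        exact congrArg₂ (· * ·) (tI_ind (show α₀ ≤ α by omega) (by omega) η hS) (tI_ind (show α ≤ β by omega) (by omega) η hS)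
    · rw [dif_neg hS, ENNReal.ofReal_zero]
      exact zero_le
  have hQ := (Q1_mono (μ := μ) (s := s) (N := N) (y := (y : ℤ)) fun η S _ _ => hpt η S).trans (le_of_eq (Q1_sum4 (μ := μ) (s := s) (N := N)
    (y := y) (univ : Finset (Bool × Bool)) R (W := fun b b' j k η S => (m b.1 j η S * o b.2 j η S) * (m b'.1 k η S * o b'.2 k η S))
    fun b b' j k S => ((hmm _ _ S).mul (hom _ _ S)).mul ((hmm _ _ S).mul (hom _ _ S))))
  refine hQ.trans ?_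
  have hone : ∀ b b' : Bool × Bool, ∑ j ∈ R, ∑ k ∈ R, Q1 μ s N y (fun η S => (m b.1 j η S * o b.2 j η S) * (m b'.1 k η S * o b'.2 k η S)) ≤
      ENNReal.ofReal (P * (ρ * β * g + ((ρ : ℝ) ^ 2 * (g * gb) ^ 2 + (ρ : ℝ) ^ 2 * gr * (g * g))) + te) +
        ENNReal.ofReal (ρ * ρ * ((2 * (N + 1) + 2) * Real.exp (-M))) := by
    intro b b'
    have e1 : ∀ j ∈ R, ∀ k ∈ R, Q1 μ s N y (fun η S => (m b.1 j η S * o b.2 j η S) * (m b'.1 k η S * o b'.2 k η S)) ≤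
        P1 μ s N y (fun η S => Zz μ s N y C D β lm q b.2 θ' (7 * M) L (tm α₀ α b.1 j) j η S ∧
          Zz μ s N y C D β lm q b'.2 θ' (7 * M) L (tm α₀ α b'.1 k) k η S) + ENNReal.ofReal ((2 * (N + 1) + 2) * Real.exp (-M)) := by
      intro j hj k hk
      have j1 := hR' j hj
      have j2 := hR' k hk
      have h3 := tau_pair (μ := μ) (s := s) (N := N) (y := y) (C := C) (D := D) (α₀ := α₀) (α := α) (β := β) (q := q) (lm := lm) (θ := θ')
        (M := M) (L := L) hyN hM t1 t2 hlp hβN h1 (by omega) (j := j) (k := k) ⟨j1.2.2.1, j1.2.2.2⟩ ⟨j2.2.2.1, j2.2.2.2⟩ b.1 b.2 b'.1 b'.2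
      rw [hm, ho]
      refine h3.trans (add_le_add le_rfl (le_of_eq ?_))
      rw [ENNReal.ofReal_mul (by positivity)]
      congr 1
      have : ((2 : ℝ) * (N + 1) + 2) = ((2 * (N + 1) + 2 : ℕ) : ℝ) := by push_cast; rfl
      rw [this, ENNReal.ofReal_natCast]
      push_cast
      rfl
    refine (sum_le_sum fun j hj => sum_le_sum fun k hk => e1 j hj k hk).trans ?_
    simp only [sum_add_distrib, sum_const, nsmul_eq_mul]
    refine add_le_add (hpair b.1 b.2 b'.1 b'.2) ?_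
    have hcard : (R.card : ℝ) ≤ ρ := by
      have h4 : R ⊆ Ico r (r + ρ) := fun k hk => mem_Ico.2 ⟨(hR k hk).1, (hR k hk).2.1⟩
      have h5 := card_le_card h4
      rw [Nat.card_Ico, Nat.add_sub_cancel_left] at h5
      exact_mod_cast h5
    rw [← ENNReal.ofReal_natCast, ← mul_assoc, ← ENNReal.ofReal_mul (Nat.cast_nonneg _), ← ENNReal.ofReal_mul (by positivity)]
    refine ENNReal.ofReal_le_ofReal (mul_le_mul_of_nonneg_right ?_ (by positivity))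
    exact mul_le_mul hcard hcard (Nat.cast_nonneg _) (Nat.cast_nonneg _)
  refine (sum_le_sum fun b _ => sum_le_sum fun b' _ => hone b b').trans ?_
  rw [sum_const, sum_const, card_univ, Fintype.card_prod, Fintype.card_bool, nsmul_eq_mul, nsmul_eq_mul, ← mul_assoc,
    ← ENNReal.ofReal_add hW0 (by positivity), hEd]
  have e16 : ((2 * 2 : ℕ) : ℝ≥0∞) * ((2 * 2 : ℕ) : ℝ≥0∞) = ENNReal.ofReal 16 := by
    rw [← Nat.cast_mul, ← ENNReal.ofReal_natCast]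
    norm_num
  rw [e16, ← ENNReal.ofReal_mul (by norm_num)]
  exact ENNReal.ofReal_le_ofReal (le_of_eq (by ring))

end Pool.Agent.W_7d29a1_C0.P42
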