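import Pool.Agent.W_7d29a1_C0.X3X44
import Pool.Agent.W_7d29a1_C0.Pair42F

/-!
MP_7d29a1_pr, [CURV0] (helper44): THE PAIR SUMS `XI44`, `XI3` AND THE SECOND MOMENT `X2N` AT THE CONCRETE FRAME, closed by helper42's `pair42`.
-/

set_option autoImplicit false

namespace Pool.Agent.W_7d29a1_C0.X2b44

open MeasureTheory Filter Topology Finset
open Pool.Agent.W_7d29a1_H (EE)
open Pool.Agent.W_7d29a1_HS (In)
open Pool.Agent.W_7d29a1_C0 Pool.Agent.W_7d29a1_C0.Asm96 Pool.Agent.W_7d29a1_C0.Frm33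
open Pool.Agent.W_7d29a1_C0.Eta3
open Pool.Agent.W_7d29a1_C0.Par92 (Sml Est)

noncomputable section

variable {μ : Measure ℝ} {s : ℝ} {K : ℕ} [IsProbabilityMeasure μ] {c₁ C : ℝ} {n₀ : ℕ}

/-- The model form of the pair sum. -/
theorem pm42 (h : In μ s c₁ C n₀) : PM42 μ s := fun ε θ hε hθ => P42.pair42 h ε θ hε hθ

/-- **THE PAIR SUM OF THE DOUBLE TIE**, closed. -/
theorem xiZ44 (h : In μ s c₁ C n₀) (hk : KapLe96 (EE μ s) (1 / 4)) (hK : 32 ≤ K) :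
    Sml fun δ => Sml fun c => ∀ ε₁ : ℝ, 0 < ε₁ → Est fun ι β γ m =>
      XI44 μ s (frm33 μ s K ι β γ) (EE μ s) δ c ε₁ (((2 ^ m : ℕ) : ℝ) ^ (2 * β)) m := xiL44 h (pm42 h) hk hK

/-- **THE PAIR SUM OF THE CHANGE OF BASE**, closed. -/
theorem xi3Z44 (h : In μ s c₁ C n₀) (hk : KapLe96 (EE μ s) (1 / 4)) (hK : 32 ≤ K) (Θ : ℝ) :
    Sml fun δ => Sml fun c => ∀ η : ℝ, 0 < η → ∀ ε₁ : ℝ, 0 < ε₁ → Est fun ι β γ m =>
      XI3 μ s (frm33 μ s K ι β γ) (EE μ s) Θ δ c η ε₁ (((2 ^ m : ℕ) : ℝ) ^ (2 * β)) m := xi3L44 h (pm42 h) hk hK Θ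

/-- **THE SECOND MOMENT OF THE DOUBLE TIE AT THE CONCRETE FRAME**, closed. -/
theorem x2Z44 (h : In μ s c₁ C n₀) (hk : KapLe96 (EE μ s) (1 / 4)) (hK : 32 ≤ K) {Θ c₀ : ℝ} (hΘ : 0 < Θ) (hΘ1 : Θ ≤ 1)
    (hR : RegP46 μ s c₀ Θ) :
    Sml fun δ => Sml fun c => ∃ x : ℝ, 0 < x ∧ Est fun ι β γ m => EstD44.X2N μ s (frm33 μ s K ι β γ) (EE μ s) Θ δ c x m :=
  x2L44 h (pm42 h) hk hK hΘ hΘ1 hR

end

end Pool.Agent.W_7d29a1_C0.X2b44
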