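import Pool.Agent.W_7d29a1_C0.RtB33
import Pool.Agent.W_7d29a1_C0.HandA29
import Pool.Agent.W_7d29a1_C0.E1F19
import Pool.Agent.W_7d29a1_C0.TV72
import Pool.Agent.W_7d29a1_C0.T0L57
import Pool.Agent.W_7d29a1_C0.T0L90
import Pool.Agent.W_7d29a1_C0.E2EN43
import Pool.Agent.W_7d29a1_C0.E2aV82
import Pool.Agent.W_7d29a1_C0.E2aF81
import Pool.Agent.W_7d29a1_C0.RqI81
import Pool.Agent.W_7d29a1_C0.XZ44
import Pool.Agent.W_7d29a1_C0.SiteS3D
import Pool.Agent.W_7d29a1_C0.GSZ96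
import Pool.Agent.W_7d29a1_C0.GSY52
import Pool.Agent.W_7d29a1_C0.NTopF23
import Pool.Agent.W_7d29a1_C0.MRow36C
import Pool.Agent.W_7d29a1_C0.N1Z14
import Pool.Agent.W_7d29a1_C0.N2Z5

/-!
MP_7d29a1_pr, [CURV0] (helper33): THE LAST COMPOSITION. `lst33`: the lower bound `CVL29` at every tilt for every law of the class `GLaw`
(no hypothesis left): the ten targets of `cvlRtB33` are theorems.
-/

set_option autoImplicit false

namespace Pool.Agent.W_7d29a1_C0.Lst33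

open Finset MeasureTheory Filter Topology
open Pool.Agent.W_7d29a1_H Pool.Agent.W_7d29a1_LB Pool.Agent.W_7d29a1_HK20
open Pool.Agent.W_7d29a1_C0 Pool.Agent.W_7d29a1_C0.Mod92
open Pool.Agent.W_7d29a1_C0.Asm96 Pool.Agent.W_7d29a1_C0.EstC46 Pool.Agent.W_7d29a1_C0.EstD44
open Pool.Agent.W_7d29a1_C0.Frm33
open Pool.Agent.W_7d29a1_C0.H32 (DenLaw)
open Pool.Agent.W_7d29a1_h47 (EM Nondeg)
open Pool.Agent.W_7d29a1_HS (In in_tilt)
open Pool.Agent.W_7d29a1_C0.Par92 (Sml Est)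
open Pool.W7d29a1.C0.T85 (GLaw)
open Pool.W7d29a1.C0.H27 (QI)

noncomputable section

/-- **The class of laws has quasi-invariance of every order.** -/
theorem glaw_qi {μ : Measure ℝ} [IsProbabilityMeasure μ] (h : GLaw μ) :
    ∀ p : ℝ, 1 < p → ∃ C θ0 : ℝ, 0 ≤ C ∧ 0 < θ0 ∧ QI μ p C θ0 := by
  obtain ⟨u, C, θ, hW⟩ := h.wl
  exact fun p hp => hW.qi hp

/-- **THE LOWER BOUND at every tilt** for the laws of the class `GLaw`. -/
theorem lst33 {μ : Measure ℝ} [IsProbabilityMeasure μ] (hE : EM μ) (hN : Nondeg μ) (hG : GLaw μ) {s : ℝ} {K : ℕ} (hK : 32 ≤ K) :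
    CVL29 μ s := by
  obtain ⟨c₁, C, n₀, hin⟩ := in_tilt hE hN s
  have hk := kap_quarter96 hE hN s
  obtain ⟨f, f', L, hd, -, -, -⟩ := hG.den
  obtain ⟨u, C', θ, hW⟩ := hG.wl
  refine cvlRtB33 hE hN hK fun a ha hst Θ hΘ hΘ4 hKap hR => ?_
  have h1 := E1F19.e1V19 hin (glaw_qi hG) hd hK hΘ (by linarith) hR
  have hT := T72.tV72 hin (glaw_qi hG) hd hK hΘ hR (TN57.t0L57 hin hK hR (T0L90.row57_90 hin (glaw_qi hG) hd))
  have hA := E2aT82.e2aV82 hin (glaw_qi hG) hd hK hΘ hR (E2aT82.mqv_of46 (E2aF81.mql81 hin hk (glaw_qi hG) hK))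
    (RqB81.rq81 hin hk (glaw_qi hG) hK)
  have hE2 := E2EN43.e2F43 hin (glaw_qi hG) hd hk hK hΘ hR
  refine ⟨?_, kbZ96 hin hk hK hΘ hR hW (Pool.W7d29a1.C0.GSY52.prU52 hin), ?_⟩
  · refine ((h1.and hT).and ((hE2.and hA).and (X2b44.x2Z44 hin hk hK hΘ (by linarith) hR))).mono fun δ hδ h1 => ?_
    obtain ⟨⟨h1, h2⟩, ⟨h3, h4⟩, h5⟩ := h1
    refine ((h1.and h2).and ((h3.and h4).and h5)).mono fun c hc g => ?_
    obtain ⟨⟨g1, g2⟩, ⟨g3, g4⟩, g5⟩ := g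
    exact ⟨g1, g2, E2T96.e2L96 (by omega) hΘ g3, g4, g5⟩
  · refine (((X2b44.xi3Z44 hin hk hK Θ).and (Pool.W7d29a1.C0.N14.r0_Z14 hd hin hk hK hR)).and ((DT5.r1_Z5 hin hk hK hR).and (MRow36.rowS36 hin hk hK hR hΘ))).mono fun δ hδ h1 => ?_
    obtain ⟨⟨h1, h2⟩, h3, h4⟩ := h1
    refine (((h1.and h2).and (h3.and h4)).and (Sml.le (show 0 < min 1 (min (δ / 64) Θ) by positivity))).mono
      fun c hc g η hη hηc => ?_
    obtain ⟨⟨⟨g1, g2⟩, g3, g4⟩, g6⟩ := g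
    have q1 : c ≤ 1 := g6.trans (min_le_left _ _)
    have q2 : c ≤ δ / 64 := g6.trans ((min_le_right _ _).trans (min_le_left _ _))
    have q3 : c ≤ Θ := g6.trans ((min_le_right _ _).trans (min_le_right _ _))
    refine ⟨NTop23.n1B23 hin hk hK hR hΘ q1 hδ hc q2 hη.le (g2 η hη hηc), NTop23.n2B23 hin hk hK hR hΘ q1 hδ hc q2 hη.le (g3 η hη hηc),
      NTop23.mB23 hin hk hK hR hΘ q1 hδ hc q2 hη.le (g4 η hη hηc), ?_⟩
    exact Eta3.rb33 hin hk (by omega) hR hΘ (by linarith) hδ hc (by linarith) q3 hη.le (show 0 ≤ c / 16 by positivity)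
      (by linarith) le_rfl (g1 η hη (c / 16) (by positivity))
      (SS3.si33 hin hk hK hδ hc (by linarith) hη.le (show 0 < c / 16 by positivity))

end

end Pool.Agent.W_7d29a1_C0.Lst33
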