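import Pool.Agent.W_7d29a1_C0.Base5
import Pool.Agent.W_7d29a1_C0.Two57

/-!
MP_7d29a1_pr, [CURV0] / [C0], leaf E5.7 (`M x M`), helper70, part 1: BOTH CORNERS OF ONE ROW, PATHWISE.

`cE_tiltf`: conditional means under `w + A`; `gb_log`: the mean response `gb81` in closed form; `Mf`: the odd part of the row, written
with conditional means under the ACTUAL weights only (`Mf_eq`). `tvc w A u`: the total variation distance, on the classes of `u`, of
the Gibbs measures with the log weights `w` and `w + A`; it is symmetric (`tvc_symm`). `corner70`: for a function `Ψ` of `u`,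
`|gm w Ψ - gm (w + A) Ψ| ≤ ct θ (tvc w A u) * (gm w |Ψ| + gm (w + A) |Ψ|) + 2 K θ`. `tvc_le`: `tvc` is at most a constant times the mass
of the pairs of free replicas which do not meet on both sides.
-/

set_option autoImplicit false
set_option linter.unusedSectionVars false

namespace Pool.W7d29a1.C0.MM70

open Finset MeasureTheory Pool.Agent.W_7d29a1_C0 Pool.Agent.W_7d29a1_C0.Mod92 Pool.Agent.W_7d29a1_C0.Swap57
open Pool.Agent.W_7d29a1_C0.Base5
open Pool.W7d29a1.C0 Pool.W7d29a1.C0.VT31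

noncomputable section

section Defs

variable {X : Type*} {Y Z : Type*} [DecidableEq Y] [DecidableEq Z]

/-- The exponential of a function. -/
def ex (A : X → ℝ) : X → ℝ := fun x => Real.exp (A x)

variable [Fintype X]

/-- The mean response, from the actual weights, `E = exp (- 2 a g)`. -/
def gf (w : X → ℝ) (a : ℝ) (E : X → ℝ) (v : X → Z) : X → ℝ := fun x => -(a / 2) * Real.log (cE w v E x)

/-- The conditional mean at the other corner. -/
def tf (w E : X → ℝ) (u : X → Y) (f : X → ℝ) : X → ℝ := fun x => cE w u (E * f) x / cE w u E x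

/-- **The odd part of the row**, from the actual weights. -/
def Mf (w : X → ℝ) (a : ℝ) (E : X → ℝ) (u : X → Y) (v : X → Z) : X → ℝ := fun x =>
  a / 2 * (cE w u (gf w a E v) x - tf w E u (gf w a E v) x) -
    1 / 6 * ((cE w u (gf w a E v * gf w a E v) x - cE w u (gf w a E v) x * cE w u (gf w a E v) x) +
      (tf w E u (gf w a E v * gf w a E v) x - tf w E u (gf w a E v) x * tf w E u (gf w a E v) x))

/-- The density of the other corner on the classes of `u`. -/
def rh (w A : X → ℝ) (u : X → Y) : X → ℝ := fun x => cE w u (ex A) x / gm w (ex A)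

/-- The total variation distance of both corners, on the classes of `u`. -/
def tvc (w A : X → ℝ) (u : X → Y) : ℝ := gm w fun x => |rh w A u x - 1|

/-- The cut off: zero below `θ`, one above `2 θ`. -/
def ct (θ v : ℝ) : ℝ := min 1 (max 0 (v / θ - 1))

end Defs

section Abs

variable {X : Type*} [Fintype X] [Nonempty X] {Y Z : Type*} [DecidableEq Y] [DecidableEq Z]

theorem ex_pos (A : X → ℝ) (x : X) : 0 < ex A x := Real.exp_pos _

theorem ex_add (A B : X → ℝ) : ex (A + B) = ex A * ex B := by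
  funext x
  unfold ex
  rw [Pi.add_apply, Real.exp_add]
  rfl

theorem ex_zero : ex (0 : X → ℝ) = fun _ => 1 := by
  funext x
  exact Real.exp_zero

/-- Conditional means under other weights. -/
theorem cE_tiltf (w A : X → ℝ) (p : X → Y) (f : X → ℝ) (x : X) :
    cE (w + A) p f x = cE w p (ex A * f) x / cE w p (ex A) x := by
  have h0 := fz_pos w p x
  unfold cE
  rw [div_div_div_cancel_right₀ h0.ne']
  congr 1
  · refine sum_congr rfl fun x' _ => ?_
    split_ifs
    · rw [Pi.add_apply, Real.exp_add, Pi.mul_apply]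
      unfold ex
      ring
    · rfl
  · unfold fz
    refine sum_congr rfl fun x' _ => ?_
    split_ifs
    · rw [Pi.add_apply, Real.exp_add]
      rfl
    · rfl

theorem gm_tiltf (w A f : X → ℝ) : gm (w + A) f = gm w (ex A * f) / gm w (ex A) := by
  obtain ⟨x⟩ := (inferInstance : Nonempty X)
  have h := cE_tiltf w A (fun _ : X => ()) f x
  rwa [gm_eq_cE, gm_eq_cE, gm_eq_cE] at h

theorem cE_cst (w : X → ℝ) (p : X → Y) (c : ℝ) (x : X) : cE w p (fun _ => c) x = c :=
  congrFun (cE_of_meas w (p := p) (h := fun _ => c) fun _ _ _ => rfl) x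

theorem cE_ge (w : X → ℝ) (p : X → Y) {f : X → ℝ} {c : ℝ} (h : ∀ x, c ≤ f x) (x : X) : c ≤ cE w p f x := by
  have e := cE_mono w p (f := fun _ => c) h x
  rwa [cE_cst] at e

theorem cE_le (w : X → ℝ) (p : X → Y) {f : X → ℝ} {c : ℝ} (h : ∀ x, f x ≤ c) (x : X) : cE w p f x ≤ c := by
  have e := cE_mono w p (g := fun _ => c) h x
  rwa [cE_cst] at e

theorem cE_abs_le (w : X → ℝ) (p : X → Y) {f : X → ℝ} {c : ℝ} (h : ∀ x, |f x| ≤ c) (x : X) : |cE w p f x| ≤ c :=
  abs_le.2 ⟨cE_ge w p (fun z => (abs_le.1 (h z)).1) x, cE_le w p (fun z => (abs_le.1 (h z)).2) x⟩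

theorem gm_cst (w : X → ℝ) (c : ℝ) : gm w (fun _ => c) = c := by
  obtain ⟨x⟩ := (inferInstance : Nonempty X)
  rw [← gm_eq_cE w _ x]
  exact cE_cst _ _ _ _

theorem gm_ge (w : X → ℝ) {f : X → ℝ} {c : ℝ} (h : ∀ x, c ≤ f x) : c ≤ gm w f := by
  obtain ⟨x⟩ := (inferInstance : Nonempty X)
  rw [← gm_eq_cE w f x]
  exact cE_ge _ _ h x

theorem gm_le (w : X → ℝ) {f : X → ℝ} {c : ℝ} (h : ∀ x, f x ≤ c) : gm w f ≤ c := by
  obtain ⟨x⟩ := (inferInstance : Nonempty X)
  rw [← gm_eq_cE w f x]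
  exact cE_le _ _ h x

theorem gm_mn (w : X → ℝ) {f g : X → ℝ} (h : ∀ x, f x ≤ g x) : gm w f ≤ gm w g := by
  obtain ⟨x⟩ := (inferInstance : Nonempty X)
  rw [← gm_eq_cE w f x, ← gm_eq_cE w g x]
  exact cE_mono _ _ h x

theorem gm_sc (w : X → ℝ) (c : ℝ) (f : X → ℝ) : gm w (fun x => c * f x) = c * gm w f := by
  obtain ⟨x⟩ := (inferInstance : Nonempty X)
  rw [← gm_eq_cE w f x, ← gm_eq_cE w _ x]
  exact congrFun (cE_smul w (fun _ : X => ()) c f) x

theorem gm_ad (w : X → ℝ) (f g : X → ℝ) : gm w (fun x => f x + g x) = gm w f + gm w g := by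
  obtain ⟨x⟩ := (inferInstance : Nonempty X)
  rw [← gm_eq_cE w f x, ← gm_eq_cE w g x, ← gm_eq_cE w _ x]
  exact congrFun (cE_add w (fun _ : X => ()) f g) x

theorem gm_sb (w : X → ℝ) (f g : X → ℝ) : gm w (fun x => f x - g x) = gm w f - gm w g := by
  obtain ⟨x⟩ := (inferInstance : Nonempty X)
  rw [← gm_eq_cE w f x, ← gm_eq_cE w g x, ← gm_eq_cE w _ x]
  exact congrFun (cE_sub w (fun _ : X => ()) f g) x

theorem gm_ab (w : X → ℝ) (f : X → ℝ) : |gm w f| ≤ gm w fun x => |f x| := by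
  rw [abs_le]
  constructor
  · have h := gm_mn w (f := fun x => (-1) * |f x|) (g := f) fun x => by linarith [neg_abs_le (f x)]
    rw [gm_sc] at h
    linarith
  · exact gm_mn w fun x => le_abs_self _

/-! ### The mean response in closed form -/

theorem hasDerivAt_cEe (w g : X → ℝ) (p : X → Y) (x : X) (t : ℝ) :
    HasDerivAt (fun s : ℝ => cE w p (ex (s • g)) x) (cE w p (ex (t • g) * g) x) t := by
  unfold cE
  refine HasDerivAt.div_const ?_ _
  refine HasDerivAt.fun_sum fun x' _ => ?_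
  by_cases h : p x' = p x
  · simp only [if_pos h]
    have h1 : HasDerivAt (fun s : ℝ => (s • g) x') (g x') t := by
      simp only [Pi.smul_apply, smul_eq_mul]
      simpa using (hasDerivAt_id t).mul_const (g x')
    exact h1.exp.const_mul _
  · simp only [if_neg h]
    exact hasDerivAt_const _ _

theorem cE_ex_pos (w A : X → ℝ) (p : X → Y) (x : X) : 0 < cE w p (ex A) x := by
  obtain ⟨c, hc, h⟩ : ∃ c : ℝ, 0 < c ∧ ∀ z, c ≤ ex A z := by
    obtain ⟨z0, hz0⟩ := exists_min_image univ (ex A) univ_nonempty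
    exact ⟨ex A z0, ex_pos A z0, fun z => hz0.2 z (mem_univ z)⟩
  exact hc.trans_le (cE_ge w p h x)

theorem hasDerivAt_logc (w g : X → ℝ) (p : X → Y) (x : X) (t : ℝ) :
    HasDerivAt (fun s : ℝ => Real.log (cE w p (ex (s • g)) x)) (cE (w + t • g) p g x) t := by
  rw [cE_tiltf w (t • g) p g x]
  exact (hasDerivAt_cEe w g p x t).log (cE_ex_pos w _ p x).ne'

theorem gb_log (w g : X → ℝ) (p : X → Y) (x : X) :
    gb81 w g p x = 1 / 2 * (Real.log (cE w p (ex ((1 : ℝ) • g)) x) - Real.log (cE w p (ex ((-1 : ℝ) • g)) x)) := by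
  rw [gb81_apply]
  unfold Mc
  congr 1
  exact intervalIntegral.integral_eq_sub_of_hasDerivAt (fun t _ => hasDerivAt_logc w g p x t)
    (((continuous_apply x).comp (continuous_cE_line p w g g)).intervalIntegrable _ _)

/-- The mean response from the actual weights: `w = w0 + a g`. -/
theorem gb_corner (w g : X → ℝ) (p : X → Y) (x : X) {a : ℝ} (ha : a = 1 ∨ a = -1) :
    gb81 w g p x = -(a / 2) * Real.log (cE (w + a • g) p (ex ((-2 * a) • g)) x) := by
  have h1 : ex (a • g) * ex ((-2 * a) • g) = ex ((-a) • g) := by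
    rw [← ex_add, ← add_smul]
    congr 2
    ring
  rw [gb_log, cE_tiltf, h1, Real.log_div (cE_ex_pos _ _ _ _).ne' (cE_ex_pos _ _ _ _).ne']
  rcases ha with rfl | rfl
  · ring
  · rw [neg_neg]
    ring

/-! ### The odd part from the actual weights -/

theorem Mf_eq (w g : X → ℝ) (u : X → Y) (v : X → Z) (x : X) {a : ℝ} (ha : a = 1 ∨ a = -1) :
    Mg w g u (gb81 w g v) x = Mf (w + a • g) a (ex ((-2 * a) • g)) u v x := by
  have hg : gb81 w g v = gf (w + a • g) a (ex ((-2 * a) • g)) v := by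
    funext z
    exact gb_corner w g v z ha
  have ht : ∀ f : X → ℝ, tf (w + a • g) (ex ((-2 * a) • g)) u f x = cE (w + (-a) • g) u f x := fun f => by
    have e : w + (-a) • g = (w + a • g) + (-2 * a) • g := by
      rw [add_assoc, ← add_smul]
      congr 2
      ring
    rw [e, cE_tiltf]
    rfl
  unfold Mf
  rw [← hg, ht, ht]
  unfold Mg Fg Dc Zr cV cC
  rcases ha with rfl | rfl
  · simp only [Pi.sub_apply, Pi.smul_apply, Pi.mul_apply, smul_eq_mul]
    ring
  · simp only [Pi.sub_apply, Pi.smul_apply, Pi.mul_apply, smul_eq_mul, neg_neg]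
    ring

/-! ### Both corners -/

theorem gm_ex_pos (w A : X → ℝ) : 0 < gm w (ex A) := by
  obtain ⟨x⟩ := (inferInstance : Nonempty X)
  rw [← gm_eq_cE w _ x]
  exact cE_ex_pos _ _ _ x

theorem rh_pos (w A : X → ℝ) (u : X → Y) (x : X) : 0 < rh w A u x := div_pos (cE_ex_pos _ _ _ _) (gm_ex_pos _ _)

theorem gm_rh (w A : X → ℝ) (u : X → Y) {f : X → ℝ} (hf : Mp u f) : gm (w + A) f = gm w fun x => rh w A u x * f x := by
  rw [gm_tiltf]
  have e1 : gm w (ex A * f) = gm w (fun x => cE w u (ex A) x * f x) := by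
    rw [← gm_cE w u (ex A * f), mul_comm (ex A) f, cE_pull w hf]
    congr 1
    funext x
    rw [Pi.mul_apply, mul_comm]
  rw [e1]
  have e2 : (fun x => rh w A u x * f x) = fun x => (gm w (ex A))⁻¹ * (cE w u (ex A) x * f x) := by
    funext x
    unfold rh
    ring
  rw [e2, gm_sc]
  ring

theorem mp_rh (w A : X → ℝ) (u : X → Y) : Mp u (rh w A u) := fun x x' h => by
  unfold rh
  rw [cE_meas w u _ x x' h]

theorem rh_neg (w A : X → ℝ) (u : X → Y) (x : X) : rh (w + A) (-A) u x = (rh w A u x)⁻¹ := by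
  have h1 : ex A * ex (-A) = fun _ => 1 := by
    rw [← ex_add, add_neg_cancel, ex_zero]
  unfold rh
  rw [cE_tiltf, gm_tiltf, h1, cE_one, gm_cst, inv_div]
  have h2 := (cE_ex_pos w A u x).ne'
  have h3 := (gm_ex_pos w A).ne'
  field_simp

theorem tvc_symm (w A : X → ℝ) (u : X → Y) : tvc (w + A) (-A) u = tvc w A u := by
  unfold tvc
  rw [gm_rh w A u (fun x x' h => by rw [mp_rh (w + A) (-A) u x x' h])]
  congr 1
  funext x
  have h := rh_pos w A u x
  rw [rh_neg, ← abs_of_pos h, ← abs_mul, abs_of_pos h, mul_sub, mul_inv_cancel₀ h.ne', mul_one, abs_sub_comm]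

theorem tvc_nonneg (w A : X → ℝ) (u : X → Y) : 0 ≤ tvc w A u := gm_ge w fun _ => abs_nonneg _

theorem ct_nonneg (θ v : ℝ) : 0 ≤ ct θ v := le_min zero_le_one (le_max_left _ _)

theorem ct_le_one (θ v : ℝ) : ct θ v ≤ 1 := min_le_left _ _

theorem ct_one {θ v : ℝ} (hθ : 0 < θ) (h : 2 * θ ≤ v) : ct θ v = 1 := by
  unfold ct
  have : 1 ≤ v / θ - 1 := by
    rw [le_sub_iff_add_le, le_div_iff₀ hθ]
    linarith
  rw [max_eq_right (by linarith), min_eq_left this]

theorem ct_zero {θ v : ℝ} (hθ : 0 < θ) (h : v ≤ θ) : ct θ v = 0 := by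
  unfold ct
  have : v / θ - 1 ≤ 0 := by
    rw [sub_nonpos, div_le_iff₀ hθ]
    linarith
  rw [max_eq_left this, min_eq_right zero_le_one]

theorem ct_lip {θ : ℝ} (hθ : 0 < θ) (v v' : ℝ) : |ct θ v - ct θ v'| ≤ θ⁻¹ * |v - v'| := by
  unfold ct
  refine (abs_min_sub_min_le_max 1 _ 1 _).trans ?_
  rw [sub_self, abs_zero, max_eq_right (abs_nonneg _)]
  refine (abs_max_sub_max_le_max 0 _ 0 _).trans ?_
  rw [sub_self, abs_zero, max_eq_right (abs_nonneg _)]
  refine le_of_eq ?_
  rw [sub_sub_sub_cancel_right, ← sub_div, abs_div, abs_of_pos hθ]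
  ring

/-- **BOTH CORNERS**: a function of the classes of `u`. -/
theorem corner70 (w A : X → ℝ) (u : X → Y) {f : X → ℝ} (hf : Mp u f) {K θ : ℝ} (hK : ∀ x, |f x| ≤ K) (hθ : 0 < θ) :
    |gm w f - gm (w + A) f| ≤ ct θ (tvc w A u) * (gm w (fun x => |f x|) + gm (w + A) fun x => |f x|) + 2 * K * θ := by
  obtain ⟨x0⟩ := (inferInstance : Nonempty X)
  have K0 : 0 ≤ K := (abs_nonneg _).trans (hK x0)
  by_cases h : 2 * θ ≤ tvc w A u
  · rw [ct_one hθ h, one_mul]
    have h1 := gm_ab w f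
    have h2 := gm_ab (w + A) f
    have h3 := abs_sub (gm w f) (gm (w + A) f)
    have : 0 ≤ 2 * K * θ := by positivity
    linarith
  · push Not at h
    have h1 : |gm w f - gm (w + A) f| ≤ K * tvc w A u := by
      rw [gm_rh w A u hf, ← gm_sb]
      refine (gm_ab w _).trans ?_
      unfold tvc
      rw [← gm_sc]
      refine gm_mn w fun x => ?_
      have e : f x - rh w A u x * f x = -(f x * (rh w A u x - 1)) := by ring
      rw [e, abs_neg, abs_mul]
      exact mul_le_mul_of_nonneg_right (hK x) (abs_nonneg _)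
    have h2 : K * tvc w A u ≤ K * (2 * θ) := mul_le_mul_of_nonneg_left h.le K0
    have h3 : 0 ≤ ct θ (tvc w A u) * (gm w (fun x => |f x|) + gm (w + A) fun x => |f x|) :=
      mul_nonneg (ct_nonneg _ _) (add_nonneg (gm_ge w fun _ => abs_nonneg _) (gm_ge (w + A) fun _ => abs_nonneg _))
    linarith

/-- The distance through two replicas. -/
theorem tvc_le (w A : X → ℝ) {u : X → Y} {D L : ℝ} (hA : ∀ x, |A x| ≤ D) {K : X → X → ℝ}
    (h : Dif w u K L (cE w u (ex A))) : tvc w A u ≤ Real.exp D * (L * gm2 w K) := by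
  obtain ⟨x0⟩ := (inferInstance : Nonempty X)
  have hZ : Real.exp (-D) ≤ gm w (ex A) := gm_ge w fun x => Real.exp_le_exp.2 (abs_le.1 (hA x)).1
  have Z0 := gm_ex_pos w A
  have e0 : gm w (ex A) = gm w (cE w u (ex A)) := (gm_cE w u (ex A)).symm
  have h1 : ∀ x, |rh w A u x - 1| ≤ Real.exp D * gm w (fun z => L * cE2 w u K x z) := fun x => by
    have e1 : rh w A u x - 1 = (cE w u (ex A) x - gm w (cE w u (ex A))) / gm w (ex A) := by
      unfold rh
      rw [← e0]
      field_simp
    have e2 : |cE w u (ex A) x - gm w (cE w u (ex A))| ≤ gm w (fun z => L * cE2 w u K x z) := by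
      have e3 : cE w u (ex A) x - gm w (cE w u (ex A)) = gm w fun z => cE w u (ex A) x - cE w u (ex A) z := by
        rw [gm_sb, gm_cst]
      rw [e3]
      exact (gm_ab w _).trans (gm_mn w fun z => h x z)
    have e4 : (gm w (ex A))⁻¹ ≤ Real.exp D := by
      rw [inv_le_comm₀ Z0 (Real.exp_pos _), ← Real.exp_neg]
      exact hZ
    rw [e1, abs_div, abs_of_pos Z0, div_eq_inv_mul]
    exact mul_le_mul e4 e2 (abs_nonneg _) (Real.exp_pos _).le
  unfold tvc
  refine (gm_mn w h1).trans ?_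
  rw [gm_sc]
  refine mul_le_mul_of_nonneg_left (le_of_eq ?_) (Real.exp_pos _).le
  have e5 : (fun x => gm w (fun z => L * cE2 w u K x z)) = fun x => L * gm w (fun z => cE2 w u K x z) := by
    funext x
    exact gm_sc w L _
  rw [e5, gm_sc]
  congr 1
  have e6 := cE2_tower w (q := fun _ : X => ()) (p := u) (fun _ _ _ => rfl) K x0 x0
  rw [gm2_eq, gm2_eq] at e6
  exact e6

end Abs

end

end Pool.W7d29a1.C0.MM70
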