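import Pool.Agent.W_7d29a1_C0.MMt70
import Pool.Agent.W_7d29a1_C0.Base5C
import Pool.Agent.W_7d29a1_C0.FlipV61

/-!
MP_7d29a1_pr, [CURV0] / [C0], leaf E5.7 (`M x M`), helper70, part 3: THE LAW. The odd part `M5e` of the row `j` as an expression of
helper61's calculus (`eM`), the total variation distance of both corners (`eV`), covariance of the odd parts of the other rows
(`cov_M5e`). `row70`: for every passenger `Yf` which is covariant for the flip of the row `j` and a function of the outside of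
`[j - b', j + b')`: the mean of `a_j M_j Yf` is at most the mean of `ct θ (tvc) |M_j Yf|`, everything at the actual weights, up to
`K θ` and the errors of two flips.
-/

set_option autoImplicit false
set_option linter.unusedSectionVars false

namespace Pool.Agent.W_7d29a1_C0.MM70

open Pool.Agent.W_7d29a1_F hiding W_pos W_nonneg W_add
open Finset MeasureTheory Pool.Agent.W_7d29a1_X
open Pool.Agent.W_7d29a1_C0.Mod92 Pool.Agent.W_7d29a1_C0.Flip61 Pool.Agent.W_7d29a1_C0.Base5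
open Pool.W7d29a1.C0.MM70
open Pool.W7d29a1.C0 (gz gm gz_pos gz_ne gm_const gm_mono gm_nonneg)
open Pool.W7d29a1.C0.VT31 (Mp Crs cE cV cC gc gv)

noncomputable section

/-! ### The Lipschitz functions -/

/-- The logarithm on `[exp (- B), exp B]`. -/
def lfLog {B : ℝ} (hB : 0 ≤ B) : LipF where
  f x := Real.log (max (Real.exp (-B)) (min (Real.exp B) x))
  M := B
  Λ := Real.exp B
  hM x := by
    have h1 : Real.exp (-B) ≤ max (Real.exp (-B)) (min (Real.exp B) x) := le_max_left _ _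
    have h2 : max (Real.exp (-B)) (min (Real.exp B) x) ≤ Real.exp B := max_le (Real.exp_le_exp.2 (by linarith)) (min_le_left _ _)
    rw [abs_le]
    constructor
    · have := Real.log_le_log (Real.exp_pos _) h1
      rwa [Real.log_exp] at this
    · have := Real.log_le_log ((Real.exp_pos (-B)).trans_le h1) h2
      rwa [Real.log_exp] at this
  hΛ x y := by
    refine (log_lip (Real.exp_pos (-B)) (le_max_left _ _) (le_max_left _ _)).trans ?_
    rw [← Real.exp_neg, neg_neg]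
    refine mul_le_mul_of_nonneg_left ?_ (Real.exp_pos _).le
    refine (abs_max_sub_max_le_max _ _ _ _).trans ?_
    rw [sub_self, abs_zero, max_eq_right (abs_nonneg _)]
    refine (abs_min_sub_min_le_max _ _ _ _).trans ?_
    rw [sub_self, abs_zero, max_eq_right (abs_nonneg _)]
  hΛ0 := (Real.exp_pos _).le

theorem lfLog_eq {B : ℝ} (hB : 0 ≤ B) {x : ℝ} (h1 : Real.exp (-B) ≤ x) (h2 : x ≤ Real.exp B) : (lfLog hB).f x = Real.log x := by
  show Real.log (max (Real.exp (-B)) (min (Real.exp B) x)) = Real.log x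
  rw [min_eq_right h2, max_eq_right h1]

/-- The inverse on `[exp (- B), ∞)`. -/
def lfInv (B : ℝ) : LipF where
  f x := (max (Real.exp (-B)) x)⁻¹
  M := Real.exp B
  Λ := Real.exp B * Real.exp B
  hM x := by
    have h1 : Real.exp (-B) ≤ max (Real.exp (-B)) x := le_max_left _ _
    have h0 := (Real.exp_pos (-B)).trans_le h1
    rw [abs_of_pos (inv_pos.2 h0)]
    have := inv_anti₀ (Real.exp_pos (-B)) h1
    rwa [← Real.exp_neg, neg_neg] at this
  hΛ x y := by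
    have hx : Real.exp (-B) ≤ max (Real.exp (-B)) x := le_max_left _ _
    have hy : Real.exp (-B) ≤ max (Real.exp (-B)) y := le_max_left _ _
    have x0 := (Real.exp_pos (-B)).trans_le hx
    have y0 := (Real.exp_pos (-B)).trans_le hy
    have ix := inv_anti₀ (Real.exp_pos (-B)) hx
    have iy := inv_anti₀ (Real.exp_pos (-B)) hy
    rw [← Real.exp_neg, neg_neg] at ix iy
    have e : (max (Real.exp (-B)) x)⁻¹ - (max (Real.exp (-B)) y)⁻¹ =
        (max (Real.exp (-B)) x)⁻¹ * (max (Real.exp (-B)) y)⁻¹ * (max (Real.exp (-B)) y - max (Real.exp (-B)) x) := by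
      field_simp
    rw [e, abs_mul, abs_of_pos (mul_pos (inv_pos.2 x0) (inv_pos.2 y0))]
    refine mul_le_mul (mul_le_mul ix iy (inv_pos.2 y0).le (Real.exp_pos _).le) ?_ (abs_nonneg _) (by positivity)
    refine (abs_max_sub_max_le_max _ _ _ _).trans ?_
    rw [sub_self, abs_zero, max_eq_right (abs_nonneg _), abs_sub_comm]
  hΛ0 := by positivity

theorem lfInv_eq {B x : ℝ} (h1 : Real.exp (-B) ≤ x) : (lfInv B).f x = x⁻¹ := by
  show (max (Real.exp (-B)) x)⁻¹ = x⁻¹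
  rw [max_eq_right h1]

/-- The absolute value on `[- K, K]`. -/
def lfAbs {K : ℝ} (hK : 0 ≤ K) : LipF where
  f x := min K |x|
  M := K
  Λ := 1
  hM x := by
    rw [abs_of_nonneg (le_min hK (abs_nonneg x))]
    exact min_le_left _ _
  hΛ x y := by
    refine (abs_min_sub_min_le_max _ _ _ _).trans ?_
    rw [sub_self, abs_zero, max_eq_right (abs_nonneg _), one_mul]
    exact abs_abs_sub_abs_le _ _
  hΛ0 := zero_le_one

theorem lfAbs_eq {K : ℝ} (hK : 0 ≤ K) {x : ℝ} (h : |x| ≤ K) : (lfAbs hK).f x = |x| := min_eq_right h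

/-- The cut off. -/
def lfCt {θ : ℝ} (hθ : 0 < θ) : LipF where
  f := ct θ
  M := 1
  Λ := θ⁻¹
  hM x := by
    rw [abs_of_nonneg (ct_nonneg θ x)]
    exact ct_le_one θ x
  hΛ x y := ct_lip hθ x y
  hΛ0 := (inv_pos.2 hθ).le

/-! ### The expressions -/

/-- `exp (- 2 a g)`. -/
def eE (a : ℤ) : Ex (Fin 3) Bool := Ex.fn (if a = 1 then 1 else 0)

def eG {B : ℝ} (hB : 0 ≤ B) (a : ℤ) : Ex (Fin 3) Bool := Ex.mul (Ex.cst (-((a : ℝ) / 2))) (Ex.lf (lfLog hB) (Ex.ce false (eE a)))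

def eT (B : ℝ) (a : ℤ) (e : Ex (Fin 3) Bool) : Ex (Fin 3) Bool :=
  Ex.mul (Ex.ce true (Ex.mul (eE a) e)) (Ex.lf (lfInv B) (Ex.ce true (eE a)))

/-- The odd part. -/
def eM {B : ℝ} (hB : 0 ≤ B) (a : ℤ) : Ex (Fin 3) Bool :=
  Ex.add (Ex.mul (Ex.cst ((a : ℝ) / 2)) (Ex.add (Ex.ce true (eG hB a)) (Ex.mul (Ex.cst (-1)) (eT B a (eG hB a)))))
    (Ex.mul (Ex.cst (-(1 / 6))) (Ex.add
      (Ex.add (Ex.ce true (Ex.mul (eG hB a) (eG hB a))) (Ex.mul (Ex.cst (-1)) (Ex.mul (Ex.ce true (eG hB a)) (Ex.ce true (eG hB a)))))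
      (Ex.add (eT B a (Ex.mul (eG hB a) (eG hB a))) (Ex.mul (Ex.cst (-1)) (Ex.mul (eT B a (eG hB a)) (eT B a (eG hB a)))))))

/-- The total variation distance of both corners. -/
def eV (B : ℝ) (a : ℤ) : Ex (Fin 3) Bool :=
  Ex.me (Ex.lf (lfAbs (K := 2 * (Real.exp B * Real.exp B)) (by positivity))
    (Ex.add (Ex.mul (Ex.ce true (eE a)) (Ex.lf (lfInv B) (Ex.me (eE a)))) (Ex.cst (-1))))

def e1 {B : ℝ} (hB : 0 ≤ B) (a : ℤ) : Ex (Fin 3) Bool := Ex.mul (Ex.cst (a : ℝ)) (Ex.mul (eM hB a) (Ex.fn 2))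

def e2 {B θ K : ℝ} (hB : 0 ≤ B) (hθ : 0 < θ) (hK : 0 ≤ K) (a : ℤ) : Ex (Fin 3) Bool :=
  Ex.mul (Ex.lf (lfCt hθ) (eV B a)) (Ex.lf (lfAbs hK) (Ex.mul (eM hB a) (Ex.fn 2)))

section Ev

variable {X : Type*} [Fintype X] [Nonempty X] {Y : Type*} [DecidableEq Y]
variable (w : X → ℝ) {h : Fin 3 → X → ℝ} (Q : Bool → X → Y) {E : X → ℝ} {B : ℝ} (hB : 0 ≤ B) {a : ℤ}
  (hE : h (if a = 1 then 1 else 0) = E) (h1 : ∀ x, Real.exp (-B) ≤ E x) (h2 : ∀ x, E x ≤ Real.exp B)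
include hE h1 h2

theorem ev_eG : Ex.evX w h Q (eG hB a) = gf w a E (Q false) := by
  funext x
  show -((a : ℝ) / 2) * (lfLog hB).f (cE w (Q false) (h (if a = 1 then 1 else 0)) x) = -((a : ℝ) / 2) * Real.log (cE w (Q false) E x)
  rw [hE, lfLog_eq hB (cE_ge w (Q false) h1 x) (cE_le w (Q false) h2 x)]

omit h2 in
theorem ev_eT (e : Ex (Fin 3) Bool) : Ex.evX w h Q (eT B a e) = tf w E (Q true) (Ex.evX w h Q e) := by
  funext x
  show cE w (Q true) (fun x => h (if a = 1 then 1 else 0) x * Ex.evX w h Q e x) x *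
    (lfInv B).f (cE w (Q true) (h (if a = 1 then 1 else 0)) x) = cE w (Q true) (E * Ex.evX w h Q e) x / cE w (Q true) E x
  rw [hE, lfInv_eq (cE_ge w (Q true) h1 x), div_eq_mul_inv]
  rfl

theorem ev_eM : Ex.evX w h Q (eM hB a) = Mf w a E (Q true) (Q false) := by
  have g1 := ev_eG w Q hB hE h1 h2
  have g2 : Ex.evX w h Q (Ex.mul (eG hB a) (eG hB a)) = gf w a E (Q false) * gf w a E (Q false) := by
    funext x
    show Ex.evX w h Q (eG hB a) x * Ex.evX w h Q (eG hB a) x = _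
    rw [g1]
    rfl
  have t1 := ev_eT w Q hE h1 (eG hB a)
  have t2 := ev_eT w Q hE h1 (Ex.mul (eG hB a) (eG hB a))
  rw [g1] at t1
  rw [g2] at t2
  funext x
  show (a : ℝ) / 2 * (cE w (Q true) (Ex.evX w h Q (eG hB a)) x + (-1) * Ex.evX w h Q (eT B a (eG hB a)) x) +
    (-(1 / 6)) * ((cE w (Q true) (Ex.evX w h Q (Ex.mul (eG hB a) (eG hB a))) x +
      (-1) * (cE w (Q true) (Ex.evX w h Q (eG hB a)) x * cE w (Q true) (Ex.evX w h Q (eG hB a)) x)) +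
      (Ex.evX w h Q (eT B a (Ex.mul (eG hB a) (eG hB a))) x +
        (-1) * (Ex.evX w h Q (eT B a (eG hB a)) x * Ex.evX w h Q (eT B a (eG hB a)) x))) = _
  rw [g1, g2, t1, t2]
  unfold Mf
  ring

theorem ev_eV (x : X) : Ex.evX w h Q (eV B a) x = tv1 w E (Q true) := by
  unfold tv1
  show gm w (fun x => (lfAbs (K := 2 * (Real.exp B * Real.exp B)) (by positivity)).f
    (cE w (Q true) (h (if a = 1 then 1 else 0)) x * (lfInv B).f (gm w (h (if a = 1 then 1 else 0))) + -1)) = _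
  have hg := gm_ge w h1
  congr 1
  funext x
  rw [hE, lfInv_eq hg, lfAbs_eq, div_eq_mul_inv, sub_eq_add_neg]
  have c0 := (Real.exp_pos (-B)).trans_le (cE_ge w (Q true) h1 x)
  have c1 := cE_le w (Q true) h2 x
  have i1 := inv_anti₀ (Real.exp_pos (-B)) hg
  rw [← Real.exp_neg, neg_neg] at i1
  have i0 : 0 < (gm w E)⁻¹ := inv_pos.2 ((Real.exp_pos (-B)).trans_le hg)
  have i2 : cE w (Q true) E x * (gm w E)⁻¹ ≤ Real.exp B * Real.exp B := mul_le_mul c1 i1 i0.le (Real.exp_pos _).le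
  have i3 : 0 < cE w (Q true) E x * (gm w E)⁻¹ := mul_pos c0 i0
  have i4 : 1 ≤ Real.exp B * Real.exp B := by
    have hB0 : 0 ≤ B := by
      have := Real.exp_le_exp.1 ((h1 x).trans (h2 x))
      linarith
    have := Real.one_le_exp hB0
    nlinarith
  rw [abs_le]
  constructor <;> linarith

end Ev

/-! ### Sizes -/

theorem sz_lf {b : Fin 3 → ℝ} (hb : ∀ i, 0 ≤ b i) (φ : LipF) (e : Ex (Fin 3) Bool) :
    Ex.sz b (Ex.lf φ e) ≤ φ.Λ * Ex.sz b e + 2 * φ.M := by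
  unfold Ex.sz
  show φ.Λ * Ex.li b e + 2 * φ.M ≤ _
  have h1 := Ex.bd_nonneg hb e
  have h2 := mul_nonneg φ.hΛ0 h1
  nlinarith

/-- The bounds of the given functions. -/
def b70 (G K : ℝ) : Fin 3 → ℝ := ![G, G, K]

section Sz

variable {B KY : ℝ} (hB : 0 ≤ B) (hK : 0 ≤ KY)
include hB hK

omit hB in
theorem b70_nonneg : ∀ i, 0 ≤ b70 (Real.exp B) KY i := fun i => by
  unfold b70
  fin_cases i
  · exact (Real.exp_pos _).le
  · exact (Real.exp_pos _).le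
  · exact hK

omit hB hK in
theorem sz_eE (a : ℤ) : Ex.sz (b70 (Real.exp B) KY) (eE a) = 2 * Real.exp B := by
  unfold eE
  rw [Ex.sz_fn]
  split_ifs <;> rfl

theorem sz_eG {a : ℤ} (ha : |(a : ℝ)| ≤ 1) : Ex.sz (b70 (Real.exp B) KY) (eG hB a) ≤ 6 * Real.exp B ^ 2 := by
  have hb := b70_nonneg (B := B) hK
  have G1 := Real.one_le_exp hB
  have G2 : B ≤ Real.exp B := by linarith [Real.add_one_le_exp B]
  have h0 : |(-((a : ℝ) / 2))| ≤ 1 := by
    rw [abs_neg, abs_div, abs_two]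
    linarith
  unfold eG
  refine (Ex.sz_cst_mul hb h0 _).trans ((sz_lf hb _ _).trans ?_)
  have h1 := Ex.sz_ce hb false (eE a)
  rw [sz_eE] at h1
  show Real.exp B * Ex.sz (b70 (Real.exp B) KY) (Ex.ce false (eE a)) + 2 * B ≤ _
  have h2 := mul_le_mul_of_nonneg_left h1 (Real.exp_pos B).le
  nlinarith

theorem sz_eT (a : ℤ) (e : Ex (Fin 3) Bool) :
    Ex.sz (b70 (Real.exp B) KY) (eT B a e) ≤ 24 * Real.exp B ^ 4 * Ex.sz (b70 (Real.exp B) KY) e := by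
  have hb := b70_nonneg (B := B) hK
  have G1 := Real.one_le_exp hB
  have s0 := Ex.sz_nonneg hb e
  unfold eT
  refine (Ex.sz_mul hb _ _).trans ?_
  have h1 := Ex.sz_ce hb true (Ex.mul (eE a) e)
  have h2 := Ex.sz_mul hb (eE a) e
  rw [sz_eE] at h2
  have h3 : Ex.sz (b70 (Real.exp B) KY) (Ex.lf (lfInv B) (Ex.ce true (eE a))) ≤ 6 * Real.exp B ^ 3 := by
    refine (sz_lf hb _ _).trans ?_
    have h4 := Ex.sz_ce hb true (eE a)
    rw [sz_eE] at h4
    show Real.exp B * Real.exp B * Ex.sz (b70 (Real.exp B) KY) (Ex.ce true (eE a)) + 2 * Real.exp B ≤ _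
    have h5 := mul_le_mul_of_nonneg_left h4 (by positivity : 0 ≤ Real.exp B * Real.exp B)
    have h6 : Real.exp B ≤ Real.exp B ^ 3 := le_self_pow₀ G1 (by norm_num)
    nlinarith
  have h7 : Ex.sz (b70 (Real.exp B) KY) (Ex.ce true (Ex.mul (eE a) e)) ≤ 4 * Real.exp B * Ex.sz (b70 (Real.exp B) KY) e := by linarith
  calc _ ≤ (4 * Real.exp B * Ex.sz (b70 (Real.exp B) KY) e) * (6 * Real.exp B ^ 3) :=
        mul_le_mul h7 h3 (Ex.sz_nonneg hb _) (by positivity)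
    _ = _ := by ring

theorem sz_eM {a : ℤ} (ha : |(a : ℝ)| ≤ 1) : Ex.sz (b70 (Real.exp B) KY) (eM hB a) ≤ 22000 * Real.exp B ^ 12 := by
  have hb := b70_nonneg (B := B) hK
  have G1 := Real.one_le_exp hB
  set G := Real.exp B with hG
  have hg := sz_eG hB hK ha
  rw [← hG] at hg
  have g0 := Ex.sz_nonneg hb (eG hB a)
  have hgg : Ex.sz (b70 G KY) (Ex.mul (eG hB a) (eG hB a)) ≤ 36 * G ^ 4 := by
    refine (Ex.sz_mul hb _ _).trans ((mul_le_mul hg hg g0 (by positivity)).trans (le_of_eq ?_))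
    ring
  have u1 : Ex.sz (b70 G KY) (Ex.ce true (eG hB a)) ≤ 12 * G ^ 2 := (Ex.sz_ce hb true _).trans (by linarith)
  have u2 : Ex.sz (b70 G KY) (Ex.ce true (Ex.mul (eG hB a) (eG hB a))) ≤ 72 * G ^ 4 := (Ex.sz_ce hb true _).trans (by linarith)
  have t1 : Ex.sz (b70 G KY) (eT B a (eG hB a)) ≤ 144 * G ^ 6 := by
    refine (sz_eT hB hK a _).trans ?_
    rw [← hG]
    calc 24 * G ^ 4 * Ex.sz (b70 G KY) (eG hB a) ≤ 24 * G ^ 4 * (6 * G ^ 2) := mul_le_mul_of_nonneg_left hg (by positivity)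
      _ = _ := by ring
  have t2 : Ex.sz (b70 G KY) (eT B a (Ex.mul (eG hB a) (eG hB a))) ≤ 864 * G ^ 8 := by
    refine (sz_eT hB hK a _).trans ?_
    rw [← hG]
    calc 24 * G ^ 4 * Ex.sz (b70 G KY) (Ex.mul (eG hB a) (eG hB a)) ≤ 24 * G ^ 4 * (36 * G ^ 4) :=
          mul_le_mul_of_nonneg_left hgg (by positivity)
      _ = _ := by ring
  have uu : Ex.sz (b70 G KY) (Ex.mul (Ex.ce true (eG hB a)) (Ex.ce true (eG hB a))) ≤ 144 * G ^ 4 := by
    refine (Ex.sz_mul hb _ _).trans ((mul_le_mul u1 u1 (Ex.sz_nonneg hb _) (by positivity)).trans (le_of_eq ?_))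
    ring
  have tt : Ex.sz (b70 G KY) (Ex.mul (eT B a (eG hB a)) (eT B a (eG hB a))) ≤ 20736 * G ^ 12 := by
    refine (Ex.sz_mul hb _ _).trans ((mul_le_mul t1 t1 (Ex.sz_nonneg hb _) (by positivity)).trans (le_of_eq ?_))
    ring
  have m1 : ∀ e : Ex (Fin 3) Bool, Ex.sz (b70 G KY) (Ex.mul (Ex.cst (-1)) e) ≤ Ex.sz (b70 G KY) e := fun e =>
    Ex.sz_cst_mul hb (by norm_num) e
  have h0 : |(a : ℝ) / 2| ≤ 1 := by
    rw [abs_div, abs_two]
    linarith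
  have p2 : G ^ 2 ≤ G ^ 12 := pow_le_pow_right₀ G1 (by norm_num)
  have p4 : G ^ 4 ≤ G ^ 12 := pow_le_pow_right₀ G1 (by norm_num)
  have p6 : G ^ 6 ≤ G ^ 12 := pow_le_pow_right₀ G1 (by norm_num)
  have p8 : G ^ 8 ≤ G ^ 12 := pow_le_pow_right₀ G1 (by norm_num)
  have A1 : Ex.sz (b70 G KY) (Ex.mul (Ex.cst ((a : ℝ) / 2)) (Ex.add (Ex.ce true (eG hB a)) (Ex.mul (Ex.cst (-1)) (eT B a (eG hB a))))) ≤
      12 * G ^ 2 + 144 * G ^ 6 := by
    refine (Ex.sz_cst_mul hb h0 _).trans ?_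
    rw [Ex.sz_add]
    have := m1 (eT B a (eG hB a))
    linarith
  have A2 : Ex.sz (b70 G KY) (Ex.mul (Ex.cst (-(1 / 6))) (Ex.add
      (Ex.add (Ex.ce true (Ex.mul (eG hB a) (eG hB a))) (Ex.mul (Ex.cst (-1)) (Ex.mul (Ex.ce true (eG hB a)) (Ex.ce true (eG hB a)))))
      (Ex.add (eT B a (Ex.mul (eG hB a) (eG hB a))) (Ex.mul (Ex.cst (-1)) (Ex.mul (eT B a (eG hB a)) (eT B a (eG hB a))))))) ≤
      (72 * G ^ 4 + 144 * G ^ 4) + (864 * G ^ 8 + 20736 * G ^ 12) := by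
    refine (Ex.sz_cst_mul hb (by
      rw [abs_neg, abs_of_pos (by norm_num : (0 : ℝ) < 1 / 6)]
      norm_num) _).trans ?_
    rw [Ex.sz_add, Ex.sz_add, Ex.sz_add]
    have := m1 (Ex.mul (Ex.ce true (eG hB a)) (Ex.ce true (eG hB a)))
    have := m1 (Ex.mul (eT B a (eG hB a)) (eT B a (eG hB a)))
    linarith
  unfold eM
  rw [Ex.sz_add]
  linarith

theorem sz_e1 {a : ℤ} (ha : |(a : ℝ)| ≤ 1) : Ex.sz (b70 (Real.exp B) KY) (e1 hB a) ≤ 44000 * Real.exp B ^ 12 * KY := by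
  have hb := b70_nonneg (B := B) hK
  unfold e1
  refine (Ex.sz_cst_mul hb ha _).trans ((Ex.sz_mul hb _ _).trans ?_)
  have h1 : Ex.sz (b70 (Real.exp B) KY) (Ex.fn 2 : Ex (Fin 3) Bool) = 2 * KY := Ex.sz_fn _ _
  rw [h1]
  have h2 := mul_le_mul_of_nonneg_right (sz_eM hB hK ha) (by positivity : 0 ≤ 2 * KY)
  linarith

theorem sz_eV (a : ℤ) : Ex.sz (b70 (Real.exp B) KY) (eV B a) ≤ 60 * Real.exp B ^ 4 := by
  have hb := b70_nonneg (B := B) hK
  have G1 := Real.one_le_exp hB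
  set G := Real.exp B with hG
  unfold eV
  refine (Ex.sz_me hb _).trans ?_
  have h1 : Ex.sz (b70 G KY) (Ex.lf (lfInv B) (Ex.me (eE a))) ≤ 6 * G ^ 3 := by
    refine (sz_lf hb _ _).trans ?_
    have h4 := Ex.sz_me hb (eE a)
    rw [hG, sz_eE, ← hG] at h4
    show Real.exp B * Real.exp B * Ex.sz (b70 G KY) (Ex.me (eE a)) + 2 * Real.exp B ≤ _
    rw [← hG]
    have h5 := mul_le_mul_of_nonneg_left h4 (by positivity : 0 ≤ G * G)
    have h6 : G ≤ G ^ 3 := le_self_pow₀ G1 (by norm_num)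
    nlinarith
  have h2 : Ex.sz (b70 G KY) (Ex.mul (Ex.ce true (eE a)) (Ex.lf (lfInv B) (Ex.me (eE a)))) ≤ 24 * G ^ 4 := by
    refine (Ex.sz_mul hb _ _).trans ?_
    have h4 := Ex.sz_ce hb true (eE a)
    rw [hG, sz_eE, ← hG] at h4
    calc _ ≤ (2 * (2 * G)) * (6 * G ^ 3) := mul_le_mul h4 h1 (Ex.sz_nonneg hb _) (by positivity)
      _ = _ := by ring
  have p4 : 1 ≤ G ^ 4 := one_le_pow₀ G1
  have p2 : G * G ≤ G ^ 4 := by
    have := pow_le_pow_right₀ G1 (by norm_num : 2 ≤ 4)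
    rwa [sq] at this
  have h3 : Ex.sz (b70 G KY) (Ex.lf (lfAbs (K := 2 * (Real.exp B * Real.exp B)) (by positivity))
      (Ex.add (Ex.mul (Ex.ce true (eE a)) (Ex.lf (lfInv B) (Ex.me (eE a)))) (Ex.cst (-1)))) ≤ 30 * G ^ 4 := by
    refine (sz_lf hb _ _).trans ?_
    rw [Ex.sz_add, Ex.sz_cst]
    show 1 * (_ + 2 * |(-1 : ℝ)|) + 2 * (2 * (Real.exp B * Real.exp B)) ≤ _
    rw [abs_neg, abs_one, ← hG]
    linarith
  linarith

theorem sz_e2 {θ K : ℝ} (hθ : 0 < θ) (hK' : 0 ≤ K) {a : ℤ} (ha : |(a : ℝ)| ≤ 1) : Ex.sz (b70 (Real.exp B) KY) (e2 hB hθ hK' a) ≤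
    (60 * θ⁻¹ * Real.exp B ^ 4 + 2) * (44000 * Real.exp B ^ 12 * KY + 2 * K) := by
  have hb := b70_nonneg (B := B) hK
  unfold e2
  refine (Ex.sz_mul hb _ _).trans ?_
  have h1 : Ex.sz (b70 (Real.exp B) KY) (Ex.lf (lfCt hθ) (eV B a)) ≤ 60 * θ⁻¹ * Real.exp B ^ 4 + 2 := by
    refine (sz_lf hb _ _).trans ?_
    show θ⁻¹ * _ + 2 * 1 ≤ _
    have h2 := mul_le_mul_of_nonneg_left (sz_eV hB hK a) (inv_pos.2 hθ).le
    linarith
  have h3 : Ex.sz (b70 (Real.exp B) KY) (Ex.lf (lfAbs hK') (Ex.mul (eM hB a) (Ex.fn 2))) ≤ 44000 * Real.exp B ^ 12 * KY + 2 * K := by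
    refine (sz_lf hb _ _).trans ?_
    show 1 * _ + 2 * K ≤ _
    have h4 := Ex.sz_mul hb (eM hB a) (Ex.fn 2)
    have h5 : Ex.sz (b70 (Real.exp B) KY) (Ex.fn 2 : Ex (Fin 3) Bool) = 2 * KY := Ex.sz_fn _ _
    rw [h5] at h4
    have h6 := mul_le_mul_of_nonneg_right (sz_eM hB hK ha) (by positivity : 0 ≤ 2 * KY)
    linarith
  have := inv_pos.2 hθ
  exact mul_le_mul h1 h3 (Ex.sz_nonneg hb _) (by positivity)

end Sz

end

end Pool.Agent.W_7d29a1_C0.MM70
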