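import Pool.Agent.W_7d29a1_C0.MMb70

/-!
MP_7d29a1_pr, [CURV0] / [C0], leaf E5.7 (`M x M`), helper70, part 4: THE ROW. `cov_M5e`: the odd part of another row (its window at the
base `b'` disjoint from the window at the base `b0` of the row `j`) is covariant for the flip of the row `j`. `row70`: for every passenger
`Yf` which is covariant and a function of the outside of `[j - b', j + b')`, the mean of `a_j M_j Yf` is at most the mean of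
`ct θ (tvc) |M_j Yf|` at the actual weights, `θ = exp (- t4)`, plus `K θ`, the errors of two flips (with the kick truncated at the level
`t1`) and the mean of `min 1 (2 Q5)` (bad masses at the levels `t1, .., t5`).
-/

set_option autoImplicit false
set_option linter.unusedSectionVars false

namespace Pool.Agent.W_7d29a1_C0.MM70

open Pool.Agent.W_7d29a1_F hiding W_pos W_nonneg W_add
open Finset MeasureTheory Pool.Agent.W_7d29a1_X
open Pool.Agent.W_7d29a1_C0.Mod92 Pool.Agent.W_7d29a1_C0.Flip61 Pool.Agent.W_7d29a1_C0.Base5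
open Pool.Agent.W_7d29a1_C0.Blk18 Pool.Agent.W_7d29a1_C0.Pin18
open Pool.W7d29a1.C0.MM70
open Pool.W7d29a1.C0 (gz gm gz_pos gz_ne gm_const gm_mono gm_nonneg)
open Pool.W7d29a1.C0.VT31 (Mp Crs cE cV cC gc gv)

noncomputable section

variable {μ : Measure ℝ} {s : ℝ} {N b0 j : ℕ}

/-! ### Covariant functions -/

section Cov

variable {f g : (y : ℕ) → Env × Finset ℕ → Px (Pn N y) → ℝ} {M M' : ℝ}

/-- A function of a covariant function. -/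
theorem c1_map (h : Cov1 N b0 j f M) {φ : ℝ → ℝ} (hφ : Measurable φ) (h0 : 0 ≤ M') (hb : ∀ x, |x| ≤ M → |φ x| ≤ M') :
    Cov1 N b0 j (fun y ω S => φ (f y ω S)) M' where
  pos := h0
  bdd y ω S := hb _ (h.bdd y ω S)
  mes y S := hφ.comp (h.mes y S)
  mp y ω := fun S S' e => by
    show φ (f y ω S) = φ (f y ω S')
    rw [h.mp y ω S S' e]
  eqv y h1 h2 ω := fun S S' e => by
    show φ (f y ω S) = φ (f (nb (sg ω.2 j) y) (Tj j ω) S')
    rw [h.eqv y h1 h2 ω S S' e]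

/-- A better bound. -/
theorem c1_bd (h : Cov1 N b0 j f M) (h0 : 0 ≤ M') (hb : ∀ y ω S, |f y ω S| ≤ M') : Cov1 N b0 j f M' where
  pos := h0
  bdd := hb
  mes := h.mes
  mp := h.mp
  eqv := h.eqv

theorem c1_neg (h : Cov1 N b0 j f M) : Cov1 N b0 j (fun y ω S => -f y ω S) M := c1_map h measurable_neg h.pos fun x hx => by
  rwa [abs_neg]

theorem c1_abs (h : Cov1 N b0 j f M) : Cov1 N b0 j (fun y ω S => |f y ω S|) M := c1_map h measurable_norm h.pos fun x hx => by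
  rwa [abs_abs]

end Cov

/-- `gf` with the clipped logarithm. -/
theorem gf_lf {X Z : Type*} [Fintype X] [Nonempty X] [DecidableEq Z] {B : ℝ} (hB : 0 ≤ B) (w : X → ℝ) (a : ℝ) {E : X → ℝ}
    (v : X → Z) (h1 : ∀ x, Real.exp (-B) ≤ E x) (h2 : ∀ x, E x ≤ Real.exp B) :
    gf w a E v = fun x => -(1 / 2) * (a * (lfLog hB).f (cE w v E x)) := by
  funext x
  unfold gf
  rw [lfLog_eq hB (cE_ge w v h1 x) (cE_le w v h2 x)]
  ring

theorem tf_lf {X Z : Type*} [Fintype X] [Nonempty X] [DecidableEq Z] {B : ℝ} (w : X → ℝ) {E : X → ℝ}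
    (u : X → Z) (h1 : ∀ x, Real.exp (-B) ≤ E x) (f : X → ℝ) :
    tf w E u f = fun x => cE w u (E * f) x * (lfInv B).f (cE w u E x) := by
  funext x
  unfold tf
  rw [lfInv_eq (cE_ge w u h1 x), div_eq_mul_inv]

/-- `exp (r g)`, `|r| ≤ 2`. -/
theorem ex_bds {X : Type*} {g : X → ℝ} {B : ℝ} (hg : ∀ x, |g x| ≤ B / 2) {r : ℝ} (hr : |r| ≤ 2) (x : X) :
    Real.exp (-B) ≤ ex (r • g) x ∧ ex (r • g) x ≤ Real.exp B := by
  have h : |(r • g) x| ≤ B := by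
    rw [Pi.smul_apply, smul_eq_mul, abs_mul]
    calc |r| * |g x| ≤ 2 * (B / 2) := mul_le_mul hr (hg x) (abs_nonneg _) (by norm_num)
      _ = B := by ring
  obtain ⟨h1, h2⟩ := abs_le.1 h
  exact ⟨Real.exp_le_exp.2 h1, Real.exp_le_exp.2 h2⟩

/-- The odd part of the row `k` from the actual weights. -/
theorem M5e_eq {Q : Finset (Finset ℕ)} [Nonempty (Px Q)] (δ B : ℝ) (b b' : ℕ) (ω : Env × Finset ℕ) (k : ℕ) :
    M5e μ s N Q δ B b0 b b' ω k = Mf (wm μ s N Q ω) (sr ω.2 k) (ex ((-2 * sr ω.2 k) • gg μ s Q δ B b0 ω k)) (pW b' k) (pW b k) := by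
  funext S
  unfold M5e ge5
  rw [Mf_eq _ _ _ _ S (sr_or ω.2 k)]
  unfold w5
  rw [sub_add_cancel]

/-- **The odd part of another row is covariant.** -/
theorem cov_M5e {b b' k : ℕ} (hb0 : 0 < b0) (h0b : b0 ≤ b) (hb : b ≤ b') (hkN : k + b' ≤ N)
    (hd : k + b' ≤ j - b0 ∨ j + b0 ≤ k - b') (δ : ℝ) {B : ℝ} (hB : 0 ≤ B) :
    Cov1 N b0 j (fun y ω => M5e μ s N (Pn N y) δ B b0 b b' ω k) (K5 B) := by
  have hkj : k ≠ j := by omega
  have cS := cov_sr (N := N) (b := b0) (j := j) (i := k) hkj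
  have cG := cov_gg (μ := μ) (s := s) (N := N) (b₀ := b0) (b := b0) (j := j) (i := k) hb0 hb0 (by omega) δ hB
  -- the exponential
  have cE0 : Cov1 N b0 j (fun y ω => ex ((-2 * sr ω.2 k) • gg μ s (Pn N y) δ B b0 ω k)) (Real.exp B) := by
    have h1 := (Cov1.const (N := N) (b := b0) (j := j) (-2)).mul (cS.mul cG)
    have h2 := c1_map h1 Real.measurable_exp (M' := Real.exp B) (Real.exp_pos _).le fun x hx => by
      rw [abs_of_pos (Real.exp_pos x)]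
      refine Real.exp_le_exp.2 ((le_abs_self x).trans (hx.trans (le_of_eq ?_)))
      rw [abs_neg, abs_two]
      ring
    have e : (fun (y : ℕ) (ω : Env × Finset ℕ) => ex ((-2 * sr ω.2 k) • gg μ s (Pn N y) δ B b0 ω k)) =
        fun (y : ℕ) (ω : Env × Finset ℕ) (S : Px (Pn N y)) => Real.exp (((fun _ => -2 : Px (Pn N y) → ℝ) *
          ((fun _ => sr ω.2 k : Px (Pn N y) → ℝ) * gg μ s (Pn N y) δ B b0 ω k)) S) := by
      funext y ω S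
      show Real.exp ((-2 * sr ω.2 k) * gg μ s (Pn N y) δ B b0 ω k S) = Real.exp (-2 * (sr ω.2 k * gg μ s (Pn N y) δ B b0 ω k S))
      congr 1
      ring
    rw [e]
    exact h2
  have hE : ∀ (y : ℕ) (ω : Env × Finset ℕ) (S : Px (Pn N y)), Real.exp (-B) ≤ ex ((-2 * sr ω.2 k) • gg μ s (Pn N y) δ B b0 ω k) S ∧
      ex ((-2 * sr ω.2 k) • gg μ s (Pn N y) δ B b0 ω k) S ≤ Real.exp B := fun y ω S =>
    ex_bds (fun S => abs_gg hB b0 ω k S) (by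
      rw [abs_mul, abs_sr, abs_neg, abs_two]
      norm_num) S
  -- windows
  have w1 : k + b ≤ j - b0 ∨ j + b0 ≤ k - b := by omega
  obtain ⟨Ef, hEf⟩ : ∃ Ef : (y : ℕ) → Env × Finset ℕ → Px (Pn N y) → ℝ,
    Ef = fun y ω => ex ((-2 * sr ω.2 k) • gg μ s (Pn N y) δ B b0 ω k) := ⟨_, rfl⟩
  rw [← hEf] at cE0
  obtain ⟨gF, hgF⟩ : ∃ gF : (y : ℕ) → Env × Finset ℕ → Px (Pn N y) → ℝ,
    gF = fun y ω S => -(1 / 2) * (sr ω.2 k * (lfLog hB).f (cE (wm μ s N (Pn N y) ω) (pJ (k - b) (k + b)) (Ef y ω) S)) := ⟨_, rfl⟩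
  have cV0 := cE0.cE (μ := μ) (s := s) (c := k - b) (d := k + b) (by omega) (by omega) w1
  have cL := c1_map cV0 (lfLog hB).meas (M' := B) hB fun x _ => (lfLog hB).hM x
  have cg : Cov1 N b0 j gF (|(-(1 / 2) : ℝ)| * (1 * B)) := by
    rw [hgF]
    exact (Cov1.const (N := N) (b := b0) (j := j) (-(1 / 2))).mul (cS.mul cL)
  obtain ⟨hF, hhF⟩ : ∃ hF : (y : ℕ) → Env × Finset ℕ → Px (Pn N y) → ℝ, hF = fun y ω => gF y ω * gF y ω := ⟨_, rfl⟩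
  have ch : Cov1 N b0 j hF (|(-(1 / 2) : ℝ)| * (1 * B) * (|(-(1 / 2) : ℝ)| * (1 * B))) := by
    rw [hhF]
    exact cg.mul cg
  obtain ⟨iF, hiF⟩ : ∃ iF : (y : ℕ) → Env × Finset ℕ → Px (Pn N y) → ℝ,
    iF = fun y ω S => (lfInv B).f (cE (wm μ s N (Pn N y) ω) (pJ (k - b') (k + b')) (Ef y ω) S) := ⟨_, rfl⟩
  have ci : Cov1 N b0 j iF (Real.exp B) := by
    rw [hiF]
    exact c1_map (cE0.cE (μ := μ) (s := s) (c := k - b') (d := k + b') (by omega) hkN hd) (lfInv B).meas (M' := Real.exp B)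
      (Real.exp_pos _).le fun x _ => (lfInv B).hM x
  -- conditional means at both corners
  obtain ⟨U, hU⟩ : ∃ U : ((y : ℕ) → Env × Finset ℕ → Px (Pn N y) → ℝ) → (y : ℕ) → Env × Finset ℕ → Px (Pn N y) → ℝ,
    U = fun f y ω => cE (wm μ s N (Pn N y) ω) (pJ (k - b') (k + b')) (f y ω) := ⟨_, rfl⟩
  obtain ⟨T, hT⟩ : ∃ T : ((y : ℕ) → Env × Finset ℕ → Px (Pn N y) → ℝ) → (y : ℕ) → Env × Finset ℕ → Px (Pn N y) → ℝ,
    T = fun f y ω S => cE (wm μ s N (Pn N y) ω) (pJ (k - b') (k + b')) (Ef y ω * f y ω) S * iF y ω S := ⟨_, rfl⟩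
  have cU : ∀ {f : (y : ℕ) → Env × Finset ℕ → Px (Pn N y) → ℝ} {M : ℝ}, Cov1 N b0 j f M → Cov1 N b0 j (U f) M := fun hf => by
    rw [hU]
    exact hf.cE (μ := μ) (s := s) (c := k - b') (d := k + b') (by omega) hkN hd
  have cT : ∀ {f : (y : ℕ) → Env × Finset ℕ → Px (Pn N y) → ℝ} {M : ℝ}, Cov1 N b0 j f M →
      Cov1 N b0 j (T f) (Real.exp B * M * Real.exp B) := fun hf => by
    rw [hT]
    exact ((cE0.mul hf).cE (μ := μ) (s := s) (c := k - b') (d := k + b') (by omega) hkN hd).mul ci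
  have cM := ((Cov1.const (N := N) (b := b0) (j := j) (1 / 2)).mul (cS.mul ((cU cg).add (c1_neg (cT cg))))).add
    ((Cov1.const (N := N) (b := b0) (j := j) (-(1 / 6))).mul (((cU ch).add (c1_neg ((cU cg).mul (cU cg)))).add
      ((cT ch).add (c1_neg ((cT cg).mul (cT cg))))))
  have hfun : (fun (y : ℕ) (ω : Env × Finset ℕ) => M5e μ s N (Pn N y) δ B b0 b b' ω k) = fun y ω S =>
      1 / 2 * (sr ω.2 k * (U gF y ω S + -T gF y ω S)) +
        -(1 / 6) * ((U hF y ω S + -(U gF y ω S * U gF y ω S)) + (T hF y ω S + -(T gF y ω S * T gF y ω S))) := by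
    funext y ω S
    have n1 : Nonempty (Px (Pn N y)) := ⟨S⟩
    have hEy : ex ((-2 * sr ω.2 k) • gg μ s (Pn N y) δ B b0 ω k) = Ef y ω := by rw [hEf]
    have b1 : ∀ S, Real.exp (-B) ≤ Ef y ω S := fun S => by
      rw [← hEy]
      exact (hE y ω S).1
    have b2 : ∀ S, Ef y ω S ≤ Real.exp B := fun S => by
      rw [← hEy]
      exact (hE y ω S).2
    have eg : gf (wm μ s N (Pn N y) ω) (sr ω.2 k) (Ef y ω) (pW (Q := Pn N y) b k) = gF y ω := by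
      rw [gf_lf hB _ _ _ b1 b2, hgF]
    have et : ∀ f : (y : ℕ) → Env × Finset ℕ → Px (Pn N y) → ℝ,
        tf (wm μ s N (Pn N y) ω) (Ef y ω) (pW (Q := Pn N y) b' k) (f y ω) = T f y ω := fun f => by
      rw [tf_lf (B := B) _ _ b1, hT, hiF]
    have eh : gF y ω * gF y ω = hF y ω := by rw [hhF]
    have eU : ∀ f : (y : ℕ) → Env × Finset ℕ → Px (Pn N y) → ℝ,
        cE (wm μ s N (Pn N y) ω) (pW (Q := Pn N y) b' k) (f y ω) = U f y ω := fun f => by rw [hU]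
    rw [M5e_eq, hEy]
    unfold Mf
    rw [eg, eh, et gF, et hF, eU gF, eU hF]
    ring
  rw [hfun]
  exact c1_bd cM (by
    unfold K5
    positivity) fun y ω S => by
      have n1 : Nonempty (Px (Pn N y)) := ⟨S⟩
      have e := congrFun (congrFun (congrFun hfun y) ω) S
      have h := abs_M5e (μ := μ) (s := s) (N := N) (Q := Pn N y) (δ := δ) hB b0 b b' ω k S
      rw [e] at h
      exact h

/-! ### The row -/

/-- The given functions: `exp (2 g)`, `exp (- 2 g)`, `g` truncated at the level `t`, and the passenger. -/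
def h70 (μ : Measure ℝ) (s : ℝ) (N : ℕ) (δ B t : ℝ) (b0 j : ℕ) (Yf : (y : ℕ) → Env × Finset ℕ → Px (Pn N y) → ℝ) (y : ℕ)
    (ω : Env × Finset ℕ) : Fin 3 → Px (Pn N y) → ℝ :=
  ![ex ((2 : ℝ) • tr (gg μ s (Pn N y) δ B b0 ω j) t), ex ((-2 : ℝ) • tr (gg μ s (Pn N y) δ B b0 ω j) t), Yf y ω]

theorem cov_h70 (δ : ℝ) {B t : ℝ} (hB : 0 ≤ B) (ht : 0 ≤ t) {Yf : (y : ℕ) → Env × Finset ℕ → Px (Pn N y) → ℝ} {KY : ℝ}
    (HY : Cov1 N b0 j Yf KY) : Cov N b0 j (h70 μ s N δ B t b0 j Yf) (b70 (Real.exp t) KY) := by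
  have key : ∀ r : ℝ, |r| ≤ 2 → Cov1 N b0 j (fun y ω => ex (r • tr (gg μ s (Pn N y) δ B b0 ω j) t)) (Real.exp t) := fun r hr =>
    c1_map (φ := fun x => Real.exp (r * max (-(t / 2)) (min (t / 2) x))) (cov_gj (μ := μ) (s := s) (N := N) (b := b0) (j := j) δ hB)
      (Real.measurable_exp.comp (measurable_const.mul (measurable_const.max (measurable_const.min measurable_id))))
      (Real.exp_pos _).le fun x hx => by
        rw [abs_of_pos (Real.exp_pos _)]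
        refine Real.exp_le_exp.2 ((le_abs_self _).trans ?_)
        rw [abs_mul]
        have h1 : |max (-(t / 2)) (min (t / 2) x)| ≤ t / 2 := by
          rw [abs_le]
          exact ⟨le_max_left _ _, max_le (by linarith) (min_le_left _ _)⟩
        calc |r| * |max (-(t / 2)) (min (t / 2) x)| ≤ 2 * (t / 2) := mul_le_mul hr h1 (abs_nonneg _) (by norm_num)
          _ = t := by ring
  refine cov_of fun i => ?_
  fin_cases i
  · exact key 2 (by norm_num)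
  · exact key (-2) (by norm_num)
  · exact HY

/-- The windows. -/
abbrev C70 (b b' j : ℕ) (i : Bool) : ℕ := cond i (j - b') (j - b)

abbrev D70 (b b' j : ℕ) (i : Bool) : ℕ := cond i (j + b') (j + b)

section Corner

variable {b b' y : ℕ} [Nonempty (Px (Pn N y))] {δ B t : ℝ} (ht : 0 ≤ t) (Yf : (y : ℕ) → Env × Finset ℕ → Px (Pn N y) → ℝ)
  (ω : Env × Finset ℕ) {κ : ℤ} (hκ : κ = 1 ∨ κ = -1)
include hκ

omit [Nonempty (Px (Pn N y))] in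
theorem h70_E : h70 μ s N δ B t b0 j Yf y ω (if κ = 1 then 1 else 0) = eg (tr (gg μ s (Pn N y) δ B b0 ω j) t) (κ : ℝ) := by
  unfold eg
  rcases hκ with rfl | rfl
  · rw [if_pos rfl]
    show ex ((-2 : ℝ) • tr (gg μ s (Pn N y) δ B b0 ω j) t) = _
    norm_num
  · rw [if_neg (by norm_num)]
    show ex ((2 : ℝ) • tr (gg μ s (Pn N y) δ B b0 ω j) t) = _
    norm_num

omit hκ in
theorem kr_or (hκ : κ = 1 ∨ κ = -1) : (κ : ℝ) = 1 ∨ (κ : ℝ) = -1 := by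
  rcases hκ with rfl | rfl
  · left; norm_num
  · right; norm_num

omit [Nonempty (Px (Pn N y))] in
include ht in
theorem ex_k (S : Px (Pn N y)) : Real.exp (-t) ≤ eg (tr (gg μ s (Pn N y) δ B b0 ω j) t) (κ : ℝ) S ∧
    eg (tr (gg μ s (Pn N y) δ B b0 ω j) t) (κ : ℝ) S ≤ Real.exp t := eg_bds (kr_or hκ) (tr_abs ht)

/-- The truncated odd part at a corner. -/
abbrev Mt70 (μ : Measure ℝ) (s : ℝ) (N y : ℕ) (δ B t : ℝ) (b0 b b' j : ℕ) (ω : Env × Finset ℕ) (κ : ℝ) : Px (Pn N y) → ℝ :=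
  Mf (w5 μ s N (Pn N y) δ B b0 ω j + κ • gg μ s (Pn N y) δ B b0 ω j) κ (eg (tr (gg μ s (Pn N y) δ B b0 ω j) t) κ) (pW b' j) (pW b j)

theorem ev_M : Ex.evX (w5 μ s N (Pn N y) δ B b0 ω j + (κ : ℝ) • gg μ s (Pn N y) δ B b0 ω j) (h70 μ s N δ B t b0 j Yf y ω)
    (fun i => pJ (C70 b b' j i) (D70 b b' j i)) (eM ht κ) = Mt70 μ s N y δ B t b0 b b' j ω κ :=
  ev_eM _ _ ht (h70_E Yf ω hκ) (fun S => (ex_k ht ω hκ S).1) (fun S => (ex_k ht ω hκ S).2)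

include ht in
/-- The distance at a corner. -/
theorem ev_V (S : Px (Pn N y)) : Ex.evX (w5 μ s N (Pn N y) δ B b0 ω j + (κ : ℝ) • gg μ s (Pn N y) δ B b0 ω j)
    (h70 μ s N δ B t b0 j Yf y ω) (fun i => pJ (C70 b b' j i) (D70 b b' j i)) (eV t κ) S =
      tv1 (w5 μ s N (Pn N y) δ B b0 ω j + (κ : ℝ) • gg μ s (Pn N y) δ B b0 ω j) (eg (tr (gg μ s (Pn N y) δ B b0 ω j) t) (κ : ℝ))
        (pW b' j) :=
  ev_eV _ _ (h70_E Yf ω hκ) (fun S => (ex_k ht ω hκ S).1) (fun S => (ex_k ht ω hκ S).2) S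

theorem gm_e1 : gm (w5 μ s N (Pn N y) δ B b0 ω j + (κ : ℝ) • gg μ s (Pn N y) δ B b0 ω j)
    (Ex.evX (w5 μ s N (Pn N y) δ B b0 ω j + (κ : ℝ) • gg μ s (Pn N y) δ B b0 ω j) (h70 μ s N δ B t b0 j Yf y ω)
      (fun i => pJ (C70 b b' j i) (D70 b b' j i)) (e1 ht κ)) =
    κ * gm (w5 μ s N (Pn N y) δ B b0 ω j + (κ : ℝ) • gg μ s (Pn N y) δ B b0 ω j)
      (fun S => Mt70 μ s N y δ B t b0 b b' j ω κ S * Yf y ω S) := by
  rw [← gm_sc]
  congr 1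
  funext S
  show (κ : ℝ) * (Ex.evX _ _ _ (eM ht κ) S * Yf y ω S) = _
  rw [ev_M ht Yf ω hκ]

theorem gm_e2 {θ K : ℝ} (hθ : 0 < θ) (hK : 0 ≤ K) (hb : ∀ S, |Mt70 μ s N y δ B t b0 b b' j ω κ S * Yf y ω S| ≤ K) :
    gm (w5 μ s N (Pn N y) δ B b0 ω j + (κ : ℝ) • gg μ s (Pn N y) δ B b0 ω j)
    (Ex.evX (w5 μ s N (Pn N y) δ B b0 ω j + (κ : ℝ) • gg μ s (Pn N y) δ B b0 ω j) (h70 μ s N δ B t b0 j Yf y ω)
      (fun i => pJ (C70 b b' j i) (D70 b b' j i)) (e2 ht hθ hK κ)) =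
    ct θ (tv1 (w5 μ s N (Pn N y) δ B b0 ω j + (κ : ℝ) • gg μ s (Pn N y) δ B b0 ω j)
        (eg (tr (gg μ s (Pn N y) δ B b0 ω j) t) (κ : ℝ)) (pW b' j)) *
      gm (w5 μ s N (Pn N y) δ B b0 ω j + (κ : ℝ) • gg μ s (Pn N y) δ B b0 ω j)
      (fun S => |Mt70 μ s N y δ B t b0 b b' j ω κ S * Yf y ω S|) := by
  rw [← gm_sc]
  congr 1
  funext S
  show ct θ (Ex.evX _ _ _ (eV t κ) S) * (lfAbs hK).f (Ex.evX _ _ _ (eM ht κ) S * Yf y ω S) = _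
  rw [ev_V ht Yf ω hκ, ev_M ht Yf ω hκ, lfAbs_eq hK (hb S)]

end Corner

/-- The total variation distance of both corners of the row `j`, outside of `[j - b', j + b')`. -/
def tv5 (μ : Measure ℝ) (s : ℝ) (N : ℕ) (Q : Finset (Finset ℕ)) (δ B : ℝ) (b0 b' : ℕ) (ω : Env × Finset ℕ) (j : ℕ) : ℝ :=
  tvc (wm μ s N Q ω) ((-2 * sr ω.2 j) • gg μ s Q δ B b0 ω j) (pW b' j)

/-- The bad masses of the row `j`, all levels. -/
def q70 (μ : Measure ℝ) (s : ℝ) (N : ℕ) (Q : Finset (Finset ℕ)) (δ B : ℝ) (b0 j : ℕ) (t1 t2 t3 t4 t5 : ℝ) (ω : Env × Finset ℕ) : ℝ :=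
  min 1 (2 * Q5 (wm μ s N Q ω) (gg μ s Q δ B b0 ω j) (sr ω.2 j) t1 t2 t3 t4 t5)

theorem mp_M5e {Q : Finset (Finset ℕ)} [Nonempty (Px Q)] (δ B : ℝ) (b b' : ℕ) (ω : Env × Finset ℕ) (k : ℕ) :
    Mp (pW b' k) (M5e μ s N Q δ B b0 b b' ω k) := fun S S' h => by
  unfold M5e Mg Pool.W7d29a1.C0.Dc Fg
  rw [Pool.W7d29a1.C0.VT31.Zr_meas _ _ _ _ S S' h, Pool.W7d29a1.C0.VT31.Zr_meas _ _ _ _ S S' h]

theorem c70_le {b b' : ℕ} (h0b : b0 ≤ b) (hb : b ≤ b') (i : Bool) : C70 b b' j i ≤ j - b0 := by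
  cases i
  · exact Nat.sub_le_sub_left h0b j
  · exact Nat.sub_le_sub_left (h0b.trans hb) j

theorem d70_ge {b b' : ℕ} (h0b : b0 ≤ b) (hb : b ≤ b') (i : Bool) : j + b0 ≤ D70 b b' j i := by
  cases i
  · exact Nat.add_le_add_left h0b j
  · exact Nat.add_le_add_left (h0b.trans hb) j

section Four

variable {b b' y : ℕ} [Nonempty (Px (Pn N y))] {δ B : ℝ} {Yf : (y : ℕ) → Env × Finset ℕ → Px (Pn N y) → ℝ} {KY : ℝ}
  {t1 t2 t3 t4 t5 : ℝ}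

/-- The weights at both corners. -/
theorem w70_a (ω : Env × Finset ℕ) : wm μ s N (Pn N y) ω =
    w5 μ s N (Pn N y) δ B b0 ω j + ((sg ω.2 j : ℤ) : ℝ) • gg μ s (Pn N y) δ B b0 ω j := by
  show wm μ s N (Pn N y) ω = (wm μ s N (Pn N y) ω - (sg ω.2 j : ℝ) • gg μ s (Pn N y) δ B b0 ω j) +
    (sg ω.2 j : ℝ) • gg μ s (Pn N y) δ B b0 ω j
  rw [sub_add_cancel]

theorem w70_b (ω : Env × Finset ℕ) : w5 μ s N (Pn N y) δ B b0 ω j + ((-sg ω.2 j : ℤ) : ℝ) • gg μ s (Pn N y) δ B b0 ω j =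
    w5 μ s N (Pn N y) δ B b0 ω j + ((sg ω.2 j : ℤ) : ℝ) • gg μ s (Pn N y) δ B b0 ω j +
      (-2 * ((sg ω.2 j : ℤ) : ℝ)) • gg μ s (Pn N y) δ B b0 ω j := by
  rw [add_assoc, ← add_smul]
  congr 2
  push_cast
  ring

/-- The odd part at both corners. -/
theorem M70_eq (b b' : ℕ) (ω : Env × Finset ℕ) {κ : ℝ} (hκ : κ = 1 ∨ κ = -1) : M5e μ s N (Pn N y) δ B b0 b b' ω j =
    Mf (w5 μ s N (Pn N y) δ B b0 ω j + κ • gg μ s (Pn N y) δ B b0 ω j) κ (eg (gg μ s (Pn N y) δ B b0 ω j) κ) (pW b' j) (pW b j) := by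
  funext S
  unfold M5e ge5
  exact Mf_eq _ _ _ _ S hκ

/-- **The four means.** -/
theorem four70 (hB : 0 ≤ B) (hYb : ∀ ω S, |Yf y ω S| ≤ KY) (hYm : ∀ ω, Mp (pW b' j) (Yf y ω)) (h5 : 0 ≤ t5) (h4 : 0 ≤ t4)
    (h43 : t4 ≤ t3) (h32 : t3 ≤ t2) (h21 : t2 ≤ t1) (h1B : t1 ≤ B) (ht : 0 ≤ t1) (hK : 0 ≤ (1 + B) ^ 2 * KY) (ω : Env × Finset ℕ) :
    (|ob μ s N j (C70 b b' j) (D70 b b' j) (h70 μ s N δ B t1 b0 j Yf) (e1 ht) y ω| ≤ (1 + B) ^ 2 * KY ∧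
      |ob μ s N j (C70 b b' j) (D70 b b' j) (h70 μ s N δ B t1 b0 j Yf) (e2 ht (Real.exp_pos (-t4)) hK) y ω| ≤ (1 + B) ^ 2 * KY) ∧
    gm (wm μ s N (Pn N y) ω) (fun S => sr ω.2 j * M5e μ s N (Pn N y) δ B b0 b b' ω j S * Yf y ω S) ≤
      ob μ s N j (C70 b b' j) (D70 b b' j) (h70 μ s N δ B t1 b0 j Yf) (e1 ht) y ω +
        10 * (1 + B) ^ 2 * KY * q70 μ s N (Pn N y) δ B b0 j t1 t2 t3 t4 t5 ω ∧
    ob μ s N j (C70 b b' j) (D70 b b' j) (h70 μ s N δ B t1 b0 j Yf) (e2 ht (Real.exp_pos (-t4)) hK) y ω ≤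
      ct (Real.exp (-t4)) (tv5 μ s N (Pn N y) δ B b0 b' ω j) *
        gm (wm μ s N (Pn N y) ω) (fun S => |M5e μ s N (Pn N y) δ B b0 b b' ω j S * Yf y ω S|) +
        10 * (1 + B) ^ 2 * KY * q70 μ s N (Pn N y) δ B b0 j t1 t2 t3 t4 t5 ω ∧
    ob μ s N j (C70 b b' j) (D70 b b' j) (h70 μ s N δ B t1 b0 j Yf) (e1 ht) y ω +
      obf μ s N δ B b0 j (C70 b b' j) (D70 b b' j) (h70 μ s N δ B t1 b0 j Yf) (e1 ht) y ω ≤
      ob μ s N j (C70 b b' j) (D70 b b' j) (h70 μ s N δ B t1 b0 j Yf) (e2 ht (Real.exp_pos (-t4)) hK) y ω +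
      obf μ s N δ B b0 j (C70 b b' j) (D70 b b' j) (h70 μ s N δ B t1 b0 j Yf) (e2 ht (Real.exp_pos (-t4)) hK) y ω +
      2 * ((1 + B) ^ 2 * KY) * Real.exp (-t4) + 40 * (1 + B) ^ 2 * KY * q70 μ s N (Pn N y) δ B b0 j t1 t2 t3 t4 t5 ω := by
  obtain ⟨S0⟩ := (inferInstance : Nonempty (Px (Pn N y)))
  have KY0 : 0 ≤ KY := (abs_nonneg _).trans (hYb ω S0)
  obtain ⟨g, hg⟩ : ∃ g, g = gg μ s (Pn N y) δ B b0 ω j := ⟨_, rfl⟩
  have gB : ∀ S, |g S| ≤ B / 2 := fun S => hg ▸ abs_gg hB b0 ω j S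
  obtain ⟨κ, hκd⟩ : ∃ κ : ℤ, κ = sg ω.2 j := ⟨_, rfl⟩
  have hκ : κ = 1 ∨ κ = -1 := hκd ▸ sg_or ω.2 j
  have hκ' : -κ = 1 ∨ -κ = -1 := by rcases hκ with h | h <;> rw [h] <;> simp
  have kr := kr_or hκ
  have kr' : -(κ : ℝ) = 1 ∨ -(κ : ℝ) = -1 := by rcases kr with h | h <;> rw [h] <;> simp
  obtain ⟨w, hw⟩ : ∃ w, w = w5 μ s N (Pn N y) δ B b0 ω j + (κ : ℝ) • g := ⟨_, rfl⟩
  obtain ⟨A, hA⟩ : ∃ A : Px (Pn N y) → ℝ, A = (-2 * (κ : ℝ)) • g := ⟨_, rfl⟩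
  have hw' : w5 μ s N (Pn N y) δ B b0 ω j + ((-κ : ℤ) : ℝ) • g = w + A := by
    rw [hw, hA, hκd, hg]
    exact w70_b ω
  have nA : (-2 * -(κ : ℝ)) • g = -A := by
    rw [hA, ← neg_smul]
    congr 1
    ring
  have wmw : wm μ s N (Pn N y) ω = w := by
    rw [hw, hκd, hg]
    exact w70_a ω
  have lww : lw μ s ω.1 N (Pn N y) = w := wmw
  have wtw : wt μ s ω.1 N (Pn N y) δ B b0 j (sg ω.2 j) (-(sg ω.2 j : ℝ)) = w + A := by
    rw [← hw', hκd, hg, w5_add]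
    push_cast
    rfl
  obtain ⟨q, hq⟩ : ∃ q, q = q70 μ s N (Pn N y) δ B b0 j t1 t2 t3 t4 t5 ω := ⟨_, rfl⟩
  have hqd : q = min 1 (2 * Q5 w g (κ : ℝ) t1 t2 t3 t4 t5) := by
    rw [hq]
    unfold q70
    rw [wmw, ← hg]
    show min 1 (2 * Q5 w g ((sg ω.2 j : ℤ) : ℝ) t1 t2 t3 t4 t5) = _
    rw [← hκd]
  obtain ⟨F, hF⟩ : ∃ F, F = Yf y ω := ⟨_, rfl⟩
  have Fb : ∀ S, |F S| ≤ KY := fun S => hF ▸ hYb ω S
  -- one corner each
  obtain ⟨a1, a2⟩ := one70m w gB kr h4 h43 h32 h21 h1B (pW b' j) (pW b j) Fb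
  obtain ⟨b1, b2⟩ := one70m (w + A) gB kr' h4 h43 h32 h21 h1B (pW b' j) (pW b j) Fb
  have m1 := min_Q4_Q5 w (g := g) (a := (κ : ℝ)) h5 t1 t2 t3 t4
  have m2 := min_Q4_corner w (g := g) kr (t5 := t5) t1 t2 t3 t4
  rw [← hA] at m2
  rw [← hqd] at m1 m2
  have K0 : 0 ≤ 10 * (1 + B) ^ 2 * KY := by positivity
  have c1 := mul_le_mul_of_nonneg_left m1 K0
  have c2 := mul_le_mul_of_nonneg_left m2 K0
  -- the exact means
  obtain ⟨M, hM⟩ : ∃ M, M = M5e μ s N (Pn N y) δ B b0 b b' ω j := ⟨_, rfl⟩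
  have Ma : M = Mf w (κ : ℝ) (eg g (κ : ℝ)) (pW b' j) (pW b j) := by
    rw [hM, M70_eq b b' ω kr, ← hg, ← hw]
  have Mb : M = Mf (w + A) (-(κ : ℝ)) (eg g (-(κ : ℝ))) (pW b' j) (pW b j) := by
    have e := M70_eq (μ := μ) (s := s) (N := N) (b0 := b0) (j := j) (y := y) (δ := δ) (B := B) b b' ω kr'
    rw [hM, e, ← hg, ← hw']
    push_cast
    rfl
  rw [← Ma] at a1 a2
  rw [← Mb] at b1 b2
  have tvb : tv1 (w + A) (eg g (-(κ : ℝ))) (pW b' j) = tvc w A (pW b' j) := by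
    rw [← tvc_symm, ← nA]
    rfl
  have tva : tv1 w (eg g (κ : ℝ)) (pW b' j) = tvc w A (pW b' j) := by
    rw [hA]
    rfl
  rw [tva] at a2
  rw [tvb] at b2
  -- the truncated means
  obtain ⟨Ta, hTa⟩ : ∃ T, T = Mf w (κ : ℝ) (eg (tr g t1) (κ : ℝ)) (pW b' j) (pW b j) := ⟨_, rfl⟩
  obtain ⟨Tb, hTb⟩ : ∃ T, T = Mf (w + A) (-(κ : ℝ)) (eg (tr g t1) (-(κ : ℝ))) (pW b' j) (pW b j) := ⟨_, rfl⟩
  rw [← hTa] at a1 a2
  rw [← hTb] at b1 b2
  have bdT : ∀ {v : Px (Pn N y) → ℝ} {r : ℝ}, (r = 1 ∨ r = -1) → ∀ S,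
      |Mf v r (eg (tr g t1) r) (pW b' j) (pW b j) S * F S| ≤ (1 + B) ^ 2 * KY := fun {v r} hr S => by
    rw [abs_mul]
    refine mul_le_mul (abs_Mf v hr (B := B) (fun x => ?_) (fun x => ?_) _ _ S) (Fb S) (abs_nonneg _) (by positivity)
    · exact (eg_bds hr ((tr_abs ht).trans (by linarith))).1
    · exact (eg_bds hr ((tr_abs ht).trans (by linarith))).2
  have mkT : Mt70 μ s N y δ B t1 b0 b b' j ω (κ : ℝ) = Ta := by
    rw [hTa, hw, hg]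
  have mkT' : Mt70 μ s N y δ B t1 b0 b b' j ω ((-κ : ℤ) : ℝ) = Tb := by
    rw [hTb, ← hw', hg]
    push_cast
    rfl
  have hTab : ∀ S, |Ta S * F S| ≤ (1 + B) ^ 2 * KY := fun S => hTa ▸ bdT kr S
  have hTbb : ∀ S, |Tb S * F S| ≤ (1 + B) ^ 2 * KY := fun S => hTb ▸ bdT kr' S
  have o1 : ob μ s N j (C70 b b' j) (D70 b b' j) (h70 μ s N δ B t1 b0 j Yf) (e1 ht) y ω = κ * gm w (fun S => Ta S * F S) := by
    unfold ob
    rw [lww, hw, hg, ← hκd, gm_e1 ht Yf ω hκ, mkT, ← hF]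
  have o2 : ob μ s N j (C70 b b' j) (D70 b b' j) (h70 μ s N δ B t1 b0 j Yf) (e2 ht (Real.exp_pos (-t4)) hK) y ω =
      ct (Real.exp (-t4)) (tv1 w (eg (tr g t1) (κ : ℝ)) (pW b' j)) * gm w (fun S => |Ta S * F S|) := by
    unfold ob
    rw [lww, hw, hg, ← hκd, gm_e2 ht Yf ω hκ (Real.exp_pos (-t4)) hK (by
      rw [mkT, ← hF]
      exact hTab), mkT, ← hF]
  have o3 : obf μ s N δ B b0 j (C70 b b' j) (D70 b b' j) (h70 μ s N δ B t1 b0 j Yf) (e1 ht) y ω =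
      -(κ : ℝ) * gm (w + A) (fun S => Tb S * F S) := by
    unfold obf
    rw [wtw, ← hw', hg, ← hκd, gm_e1 ht Yf ω hκ', mkT', ← hF]
    push_cast
    rfl
  have o4 : obf μ s N δ B b0 j (C70 b b' j) (D70 b b' j) (h70 μ s N δ B t1 b0 j Yf) (e2 ht (Real.exp_pos (-t4)) hK) y ω =
      ct (Real.exp (-t4)) (tv1 (w + A) (eg (tr g t1) (-(κ : ℝ))) (pW b' j)) * gm (w + A) (fun S => |Tb S * F S|) := by
    unfold obf
    rw [wtw, ← hw', hg, ← hκd, gm_e2 ht Yf ω hκ' (Real.exp_pos (-t4)) hK (by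
      rw [mkT', ← hF]
      exact hTbb), mkT', ← hF]
    push_cast
    rfl
  -- both corners
  have fM : Mp (pW b' j) (fun S => M S * F S) := by
    rw [hM, hF]
    exact (mp_M5e δ B b b' ω j).mul (hYm ω)
  have bM : ∀ S, |M S * F S| ≤ (1 + B) ^ 2 * KY := fun S => by
    rw [abs_mul, Ma]
    refine mul_le_mul (abs_Mf w kr (B := B) (fun x => ?_) (fun x => ?_) _ _ S) (Fb S) (abs_nonneg _) (by positivity)
    · exact (eg_bds kr (gB x)).1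
    · exact (eg_bds kr (gB x)).2
  have hc := corner70 w A (pW b' j) fM bM (Real.exp_pos (-t4))
  have kk : |(κ : ℝ)| = 1 := by rcases kr with h | h <;> rw [h] <;> norm_num
  have mul_k : ∀ x : ℝ, (κ : ℝ) * x ≤ |x| := fun x => by
    refine (le_abs_self _).trans ?_
    rw [abs_mul, kk, one_mul]
  have wmM : gm (wm μ s N (Pn N y) ω) (fun S => sr ω.2 j * M5e μ s N (Pn N y) δ B b0 b b' ω j S * Yf y ω S) =
      κ * gm w (fun S => M S * F S) := by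
    rw [wmw, ← gm_sc]
    congr 1
    funext S
    rw [hM, hF, hκd]
    unfold sr
    ring
  have wmA : gm (wm μ s N (Pn N y) ω) (fun S => |M5e μ s N (Pn N y) δ B b0 b b' ω j S * Yf y ω S|) =
      gm w (fun S => |M S * F S|) := by
    rw [wmw, hM, hF]
  have tv5e : tv5 μ s N (Pn N y) δ B b0 b' ω j = tvc w A (pW b' j) := by
    unfold tv5
    rw [wmw, hA, hκd, hg]
    rfl
  rw [← hq, o1, o2, o3, o4, wmM, wmA, tv5e]
  obtain ⟨x1, hx1⟩ : ∃ x, x = gm w (fun S => M S * F S) := ⟨_, rfl⟩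
  obtain ⟨x2, hx2⟩ : ∃ x, x = gm w (fun S => Ta S * F S) := ⟨_, rfl⟩
  obtain ⟨x3, hx3⟩ : ∃ x, x = gm (w + A) (fun S => M S * F S) := ⟨_, rfl⟩
  obtain ⟨x4, hx4⟩ : ∃ x, x = gm (w + A) (fun S => Tb S * F S) := ⟨_, rfl⟩
  rw [← hx1, ← hx3] at hc
  rw [← hx1, ← hx2] at a1
  rw [← hx3, ← hx4] at b1
  rw [← hx1, ← hx2, ← hx4]
  refine ⟨⟨?_, ?_⟩, ?_, ?_, ?_⟩
  · rw [abs_mul, kk, one_mul, hx2]
    exact (gm_ab _ _).trans (gm_le _ hTab)
  · rw [abs_mul, abs_of_nonneg (ct_nonneg _ _), abs_of_nonneg (gm_ge w fun _ => abs_nonneg _)]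
    have := mul_le_mul (ct_le_one (Real.exp (-t4)) (tv1 w (eg (tr g t1) (κ : ℝ)) (pW b' j))) (gm_le w hTab)
      (gm_ge w fun _ => abs_nonneg _) zero_le_one
    linarith
  · have := mul_k (x1 - x2)
    linarith
  · have := (abs_le.1 a2).1
    linarith
  · have k1 := mul_k (x2 - x1)
    rw [abs_sub_comm] at k1
    have k2 := mul_k (x3 - x4)
    have k3 := mul_k (x1 - x3)
    have k4 := (abs_le.1 a2).2
    have k5 := (abs_le.1 b2).2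
    have e : ct (Real.exp (-t4)) (tvc w A (pW b' j)) * (gm w (fun x => |M x * F x|) + gm (w + A) fun x => |M x * F x|) =
        ct (Real.exp (-t4)) (tvc w A (pW b' j)) * gm w (fun x => |M x * F x|) +
          ct (Real.exp (-t4)) (tvc w A (pW b' j)) * gm (w + A) (fun x => |M x * F x|) := by ring
    rw [e] at hc
    linarith

end Four

end

end Pool.Agent.W_7d29a1_C0.MM70
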