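import Pool.Agent.W_7d29a1_C0.MMr70
import Pool.Agent.W_7d29a1_C0.Size1B

/-!
MP_7d29a1_pr, [CURV0] / [C0], leaf E5.7 (`M x M`), helper70, part 6: THE EVENTS. `tE70`: two free replicas do not meet in `[j - b', j - b0]`
or in `[j + b0, j + b']` with a mass of at least `exp (- 5 m)` (`tI` with the condition `pJ 0 N`, which is constant); `tI70`: the same
for `[j - b, j - b0]`, `[j + b0, j + b]`, replicas given the outside of `[j - b', j + b')`. `row70E`: the mean of `a_j M_j Yf` is at most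
`2 (1 + B)²` times the mean of `tE70 tI70 |Yf|`, plus errors. The level `m` of the events is `≥ 4 (1 + B)` (no small level here: these
are masses of pairs without meeting).
-/

set_option autoImplicit false
set_option linter.unusedSectionVars false

namespace Pool.Agent.W_7d29a1_C0.MM70

open Pool.Agent.W_7d29a1_F hiding W_pos W_nonneg W_add
open Finset MeasureTheory Pool.Agent.W_7d29a1_X
open Pool.Agent.W_7d29a1_C0.Mod92 Pool.Agent.W_7d29a1_C0.Flip61 Pool.Agent.W_7d29a1_C0.Base5 Pool.Agent.W_7d29a1_C0.Swap57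
open Pool.W7d29a1.C0.MM70
open Pool.W7d29a1.C0.S1 (i1 i1_nonneg i1_of i1_not tI mod_M)
open Pool.W7d29a1.C0.R43 (Tau)
open Pool.W7d29a1.C0 (gz gm gz_pos gz_ne gm_const gm_mono gm_nonneg)
open Pool.W7d29a1.C0.VT31 (Mp Crs cE cV cC gc gv fz)

noncomputable section

variable {μ : Measure ℝ} {s : ℝ} {N y : ℕ}

/-! ### Free replicas -/

theorem pJ_all (S : Px (Pn N y)) : pJ 0 N S = (∅, y) := by
  have h := mem_powersetCard.1 S.2
  have h1 : S.1 ∩ Ico 0 N = S.1 := by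
    rw [inter_eq_left]
    intro i hi
    rw [mem_Ico]
    exact ⟨Nat.zero_le _, mem_range.1 (h.1 hi)⟩
  unfold pJ
  rw [h1, h.2, Prod.mk.injEq]
  refine ⟨?_, rfl⟩
  rw [sdiff_eq_empty_iff_subset]
  intro i hi
  rw [mem_Ico]
  exact ⟨Nat.zero_le _, mem_range.1 (h.1 hi)⟩

theorem cE_all (w : Px (Pn N y) → ℝ) (f : Px (Pn N y) → ℝ) (S : Px (Pn N y)) : cE w (pJ 0 N) f S = gm w f := by
  have h : ∀ z : Px (Pn N y), pJ 0 N z = pJ 0 N S := fun z => by rw [pJ_all, pJ_all]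
  unfold cE fz gm gz
  simp only [h, if_true]

theorem cE2_all (w : Px (Pn N y) → ℝ) (K : Px (Pn N y) → Px (Pn N y) → ℝ) (S S' : Px (Pn N y)) :
    cE2 w (pJ 0 N) K S S' = gm2 w K := by
  unfold cE2 gm2
  rw [cE_all]
  congr 1
  funext z
  exact cE_all _ _ _

/-! ### The events -/

/-- The outer event, free replicas. -/
def tE70 (μ : Measure ℝ) (s : ℝ) (N y : ℕ) (b0 b' j : ℕ) (m : ℝ) (ω : Env × Finset ℕ) (S : Px (Pn N y)) : ℝ :=
  tI (wm μ s N (Pn N y) ω) (pJ 0 N) (j - b') (j - b0) (j + b0) (j + b') m S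

/-- The event at the scale of the window. -/
def tI70 (μ : Measure ℝ) (s : ℝ) (N y : ℕ) (b0 b b' j : ℕ) (m : ℝ) (ω : Env × Finset ℕ) (S : Px (Pn N y)) : ℝ :=
  tI (wm μ s N (Pn N y) ω) (pW b' j) (j - b) (j - b0) (j + b0) (j + b) m S

theorem i1_le_one (A : Prop) : i1 A ≤ 1 := by
  by_cases h : A
  · rw [i1_of h]
  · rw [i1_not h]
    norm_num

theorem tI_nonneg {Q : Finset (Finset ℕ)} (w : Px Q → ℝ) (p : Px Q → Finset ℕ × ℕ) (c al be d : ℕ) (m : ℝ) (S : Px Q) :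
    0 ≤ tI w p c al be d m S := add_nonneg (i1_nonneg _) (i1_nonneg _)

theorem tI_le {Q : Finset (Finset ℕ)} (w : Px Q → ℝ) (p : Px Q → Finset ℕ × ℕ) (c al be d : ℕ) (m : ℝ) (S : Px Q) :
    tI w p c al be d m S ≤ 2 := by
  unfold tI
  linarith [i1_le_one (Tau w p c al m S), i1_le_one (Tau w p be d m S)]

theorem meas_i1 {Ω : Type*} [MeasurableSpace Ω] {A : Ω → Prop} (h : MeasurableSet {ω | A ω}) : Measurable fun ω => i1 (A ω) := by
  classical
  unfold i1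
  exact Measurable.ite h measurable_const measurable_const

theorem meas_tI {Q : Finset (Finset ℕ)} [Nonempty (Px Q)] (p : Px Q → Finset ℕ × ℕ) (c al be d : ℕ) (m : ℝ) (S : Px Q) :
    Measurable fun ω : Env × Finset ℕ => tI (wm μ s N Q ω) p c al be d m S := by
  have h : ∀ i j : ℕ, Measurable fun ω : Env × Finset ℕ => i1 (Tau (wm μ s N Q ω) p i j m S) := fun i j => by
    have hm : Measurable fun ω : Env × Finset ℕ => cE2 (wm μ s N Q ω) p (NI i j) S S := by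
      unfold cE2
      exact meas_cE meas_wm (f := fun ω z => cE (wm μ s N Q ω) p (NI i j z) S)
        (fun z => meas_cE meas_wm (f := fun _ => NI i j z) (fun _ => measurable_const) p S) p S
    have hs : MeasurableSet {ω : Env × Finset ℕ | Tau (wm μ s N Q ω) p i j m S} := measurableSet_le measurable_const hm
    exact meas_i1 hs
  exact (h c al).add (h be d)

theorem meas_tE70 [Nonempty (Px (Pn N y))] (b0 b' j : ℕ) (m : ℝ) (S : Px (Pn N y)) :
    Measurable fun ω => tE70 μ s N y b0 b' j m ω S := meas_tI _ _ _ _ _ _ _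

theorem meas_tI70 [Nonempty (Px (Pn N y))] (b0 b b' j : ℕ) (m : ℝ) (S : Px (Pn N y)) :
    Measurable fun ω => tI70 μ s N y b0 b b' j m ω S := meas_tI _ _ _ _ _ _ _

/-- The weights without the kick. -/
theorem wk_w5 {Q : Finset (Finset ℕ)} [SwQ Q] [Nonempty (Px Q)] (δ B : ℝ) {b0 j c al be d : ℕ} (hab : al ≤ be) (h1 : al ≤ j - b0)
    (h2 : j + b0 ≤ be) (ω : Env × Finset ℕ) : Wk c al be d (w5 μ s N Q δ B b0 ω j) := by
  unfold w5
  rw [sub_eq_add_neg, ← neg_smul]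
  exact (Wk_lw ω.1 hab).add ((Lk_gg δ B b0 j ω h1 h2).Wk.smul _)

/-- **The odd part is carried by the event at the scale of the window.** -/
theorem M5e_tI [Nonempty (Px (Pn N y))] (δ : ℝ) {B : ℝ} (hB : 0 ≤ B) {b0 b b' : ℕ} (hb : b ≤ b') (j : ℕ) (m : ℝ)
    (ω : Env × Finset ℕ) (S : Px (Pn N y)) :
    |M5e μ s N (Pn N y) δ B b0 b b' ω j S| ≤ 2 * (1 + B) ^ 2 * tI70 μ s N y b0 b b' j m ω S +
      2 * (4 * (1 + B) ^ 2 * Real.exp (16 * (1 + B))) * Real.exp (-(5 * m)) := by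
  have hw : Wk (j - b) (j - b0) (j + b0) (j + b) (w5 μ s N (Pn N y) δ B b0 ω j) := wk_w5 δ B (by omega) le_rfl le_rfl ω
  have hl : Lk (j - b0) (j + b0) (gg μ s (Pn N y) δ B b0 ω j) := Lk_gg δ B b0 j ω le_rfl le_rfl
  have h := mod_M (c := j - b) (d := j + b) (c' := j - b') (d' := j + b') (M := 1 + B) (τ := sr ω.2 j) (by omega) hw hl
    (by linarith) (fun S => (abs_gg (μ := μ) (s := s) (δ := δ) hB b0 ω j S).trans (by linarith)) (by rw [abs_sr]) (by omega)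
    (by omega) S m
  unfold w5 at h
  rw [sub_add_cancel] at h
  exact h

/-- **The distance of both corners is carried by the outer event.** -/
theorem tv5_tE [Nonempty (Px (Pn N y))] (δ : ℝ) {B t m : ℝ} (hB : 0 ≤ B) (hm : t + 2 * B + 1 ≤ 5 * m) {b0 : ℕ} (b' j : ℕ)
    (ω : Env × Finset ℕ) (S : Px (Pn N y)) :
    ct (Real.exp (-t)) (tv5 μ s N (Pn N y) δ B b0 b' ω j) ≤ tE70 μ s N y b0 b' j m ω S := by
  have hθ : 0 < Real.exp (-t) := Real.exp_pos _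
  have t0 := i1_nonneg (Tau (wm μ s N (Pn N y) ω) (pJ 0 N) (j - b') (j - b0) m S)
  have t1 := i1_nonneg (Tau (wm μ s N (Pn N y) ω) (pJ 0 N) (j + b0) (j + b') m S)
  by_cases h1 : Tau (wm μ s N (Pn N y) ω) (pJ 0 N) (j - b') (j - b0) m S
  · refine (ct_le_one _ _).trans ?_
    unfold tE70 tI
    rw [i1_of h1]
    linarith
  by_cases h2 : Tau (wm μ s N (Pn N y) ω) (pJ 0 N) (j + b0) (j + b') m S
  · refine (ct_le_one _ _).trans ?_
    unfold tE70 tI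
    rw [i1_of h2]
    linarith
  unfold Tau at h1 h2
  rw [not_le, cE2_all] at h1 h2
  rw [ct_zero hθ]
  · exact tI_nonneg _ _ _ _ _ _ _ _
  have hk : |(-2 * sr ω.2 j)| ≤ 2 := by
    rw [abs_mul, abs_sr, abs_neg, abs_two]
    norm_num
  have hA : ∀ S, |((-2 * sr ω.2 j) • gg μ s (Pn N y) δ B b0 ω j) S| ≤ B := fun S => by
    rw [Pi.smul_apply, smul_eq_mul, abs_mul]
    calc _ ≤ 2 * (B / 2) := mul_le_mul hk (abs_gg hB b0 ω j S) (abs_nonneg _) (by norm_num)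
      _ = B := by ring
  have hlk : Lk (j - b0) (j + b0) (ex ((-2 * sr ω.2 j) • gg μ s (Pn N y) δ B b0 ω j)) := fun S S' h => by
    unfold ex
    rw [Pi.smul_apply, Pi.smul_apply, Lk_gg δ B b0 j ω le_rfl le_rfl S S' h]
  have hd : Dif (wm μ s N (Pn N y) ω) (pJ (j - b') (j + b')) (NM (j - b') (j - b0) (j + b0) (j + b')) (Real.exp B)
      (cE (wm μ s N (Pn N y) ω) (pJ (j - b') (j + b')) (ex ((-2 * sr ω.2 j) • gg μ s (Pn N y) δ B b0 ω j))) :=
    dif_cE (by omega) (Wk_lw ω.1 (by omega)) hlk fun S S' => by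
      have a1 := ex_bds (g := gg μ s (Pn N y) δ B b0 ω j) (B := B) (fun S => abs_gg hB b0 ω j S) hk S
      have a2 := ex_bds (g := gg μ s (Pn N y) δ B b0 ω j) (B := B) (fun S => abs_gg hB b0 ω j S) hk S'
      have a3 := ex_pos ((-2 * sr ω.2 j) • gg μ s (Pn N y) δ B b0 ω j) S
      have a4 := ex_pos ((-2 * sr ω.2 j) • gg μ s (Pn N y) δ B b0 ω j) S'
      rw [abs_le]
      constructor <;> linarith [a1.2, a2.2]
  have h3 := tvc_le (wm μ s N (Pn N y) ω) ((-2 * sr ω.2 j) • gg μ s (Pn N y) δ B b0 ω j) (u := pW b' j) (D := B) hA hd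
  unfold tv5
  refine h3.trans ?_
  have h4 := gm2_NM_le (wm μ s N (Pn N y) ω) (j - b') (j - b0) (j + b0) (j + b')
  have h5 : gm2 (wm μ s N (Pn N y) ω) (NM (j - b') (j - b0) (j + b0) (j + b')) ≤ 2 * Real.exp (-(5 * m)) := by linarith
  have e1 : Real.exp (2 * B) = Real.exp B * Real.exp B := by
    rw [← Real.exp_add]
    congr 1
    ring
  have e2 : 2 * (Real.exp (2 * B) * Real.exp (-(5 * m))) ≤ Real.exp (-t) := by
    have h6 : (2 : ℝ) ≤ Real.exp 1 := by linarith [Real.add_one_le_exp (1 : ℝ)]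
    calc 2 * (Real.exp (2 * B) * Real.exp (-(5 * m))) ≤ Real.exp 1 * (Real.exp (2 * B) * Real.exp (-(5 * m))) :=
          mul_le_mul_of_nonneg_right h6 (by positivity)
      _ = Real.exp (1 + (2 * B + -(5 * m))) := by rw [Real.exp_add, Real.exp_add]
      _ ≤ _ := Real.exp_le_exp.2 (by linarith)
  calc Real.exp B * (Real.exp B * gm2 (wm μ s N (Pn N y) ω) (NM (j - b') (j - b0) (j + b0) (j + b'))) ≤
        Real.exp B * (Real.exp B * (2 * Real.exp (-(5 * m)))) :=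
        mul_le_mul_of_nonneg_left (mul_le_mul_of_nonneg_left h5 (Real.exp_pos _).le) (Real.exp_pos _).le
    _ = 2 * (Real.exp (2 * B) * Real.exp (-(5 * m))) := by
        rw [e1]
        ring
    _ ≤ _ := e2

/-- The errors of the row, with the level `m` of the events. -/
def er70 (B KY m t1 t4 ε qe : ℝ) (n : ℕ) : ℝ :=
  8 * (1 + B) ^ 2 * Real.exp (16 * (1 + B)) * Real.exp (-(5 * m)) * KY * 2 + err70 B KY t1 t4 ε qe n

/-- **THE ROW OF `M x M`, WITH THE EVENTS.** -/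
theorem row70E [IsProbabilityMeasure μ] {b0 b b' j : ℕ} (hb0 : 0 < b0) (h0b : b0 ≤ b) (hb : b ≤ b') (hjN : j + b' ≤ N) {δ B : ℝ}
    (hB : 0 ≤ B) {Yf : (y : ℕ) → Env × Finset ℕ → Px (Pn N y) → ℝ} {KY : ℝ} (HY : Cov1 N b0 j Yf KY)
    (hYm : ∀ y ω, Mp (pW b' j) (Yf y ω)) {t1 t2 t3 t4 t5 m : ℝ} (h5 : 0 ≤ t5) (h4 : 0 ≤ t4) (h43 : t4 ≤ t3) (h32 : t3 ≤ t2)
    (h21 : t2 ≤ t1) (h1B : t1 ≤ B) (hm : t4 + 2 * B + 1 ≤ 5 * m) {y₀ n : ℕ} (hy : 1 ≤ y₀) (hn : 1 ≤ n) (hyN : y₀ + n ≤ N)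
    {ε : ℝ} (hE : FErr μ s N δ B b0 j y₀ n ε) :
    avy (Ico y₀ (y₀ + n)) (fun y => ∫ ω, gm (wm μ s N (Pn N y) ω)
      (fun S => sr ω.2 j * M5e μ s N (Pn N y) δ B b0 b b' ω j S * Yf y ω S) ∂(Pm μ N)) ≤
    2 * (1 + B) ^ 2 * avy (Ico y₀ (y₀ + n)) (fun y => ∫ ω, gm (wm μ s N (Pn N y) ω)
      (fun S => |Yf y ω S| * (tI70 μ s N y b0 b b' j m ω S * tE70 μ s N y b0 b' j m ω S)) ∂(Pm μ N)) +
    er70 B KY m t1 t4 ε (avy (Ico y₀ (y₀ + n)) (fun y => ∫ ω, q70 μ s N (Pn N y) δ B b0 j t1 t2 t3 t4 t5 ω ∂(Pm μ N))) n := by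
  have h := row70 hb0 h0b hb hjN hB HY hYm h5 h4 h43 h32 h21 h1B hy hn hyN hE
  refine h.trans ?_
  have hKY : 0 ≤ KY := HY.pos
  obtain ⟨e, he⟩ : ∃ e : ℝ, e = 8 * (1 + B) ^ 2 * Real.exp (16 * (1 + B)) * Real.exp (-(5 * m)) * KY * 2 := ⟨_, rfl⟩
  have e0 : 0 ≤ e := by
    rw [he]
    positivity
  have hne : ∀ y ∈ Ico y₀ (y₀ + n), Nonempty (Px (Pn N y)) := fun y h => ne_Pn (by
    have := mem_Ico.1 h
    omega)
  have one : ∀ y ∈ Ico y₀ (y₀ + n), ∫ ω, ct (Real.exp (-t4)) (tv5 μ s N (Pn N y) δ B b0 b' ω j) *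
      gm (wm μ s N (Pn N y) ω) (fun S => |M5e μ s N (Pn N y) δ B b0 b b' ω j S * Yf y ω S|) ∂(Pm μ N) ≤
      2 * (1 + B) ^ 2 * (∫ ω, gm (wm μ s N (Pn N y) ω)
        (fun S => |Yf y ω S| * (tI70 μ s N y b0 b b' j m ω S * tE70 μ s N y b0 b' j m ω S)) ∂(Pm μ N)) + e := by
    intro y hyy
    have n1 := hne y hyy
    have mR : Measurable fun ω : Env × Finset ℕ => gm (wm μ s N (Pn N y) ω)
        (fun S => |Yf y ω S| * (tI70 μ s N y b0 b b' j m ω S * tE70 μ s N y b0 b' j m ω S)) :=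
      meas_gm meas_wm fun S => (HY.mes y S).abs.mul ((meas_tI70 b0 b b' j m S).mul (meas_tE70 b0 b' j m S))
    have pS : ∀ (ω : Env × Finset ℕ) (S : Px (Pn N y)), 0 ≤ tI70 μ s N y b0 b b' j m ω S * tE70 μ s N y b0 b' j m ω S := fun ω S =>
      mul_nonneg (tI_nonneg _ _ _ _ _ _ _ _) (tI_nonneg _ _ _ _ _ _ _ _)
    have bR : ∀ ω : Env × Finset ℕ, |gm (wm μ s N (Pn N y) ω)
        (fun S => |Yf y ω S| * (tI70 μ s N y b0 b b' j m ω S * tE70 μ s N y b0 b' j m ω S))| ≤ KY * (2 * 2) := fun ω => by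
      rw [abs_of_nonneg (gm_ge _ fun S => mul_nonneg (abs_nonneg _) (pS ω S))]
      refine gm_le _ fun S => ?_
      exact mul_le_mul (HY.bdd y ω S) (mul_le_mul (tI_le _ _ _ _ _ _ _ _) (tI_le _ _ _ _ _ _ _ _) (tI_nonneg _ _ _ _ _ _ _ _)
        (by norm_num)) (pS ω S) hKY
    have iR := int_bdd (μ := μ) (N := N) mR bR
    have i2 : Integrable (fun ω => 2 * (1 + B) ^ 2 * gm (wm μ s N (Pn N y) ω)
        (fun S => |Yf y ω S| * (tI70 μ s N y b0 b b' j m ω S * tE70 μ s N y b0 b' j m ω S)) + e) (Pm μ N) :=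
      (iR.const_mul _).add (integrable_const e)
    have h1 : ∫ ω, ct (Real.exp (-t4)) (tv5 μ s N (Pn N y) δ B b0 b' ω j) *
        gm (wm μ s N (Pn N y) ω) (fun S => |M5e μ s N (Pn N y) δ B b0 b b' ω j S * Yf y ω S|) ∂(Pm μ N) ≤
        ∫ ω, (2 * (1 + B) ^ 2 * gm (wm μ s N (Pn N y) ω)
          (fun S => |Yf y ω S| * (tI70 μ s N y b0 b b' j m ω S * tE70 μ s N y b0 b' j m ω S)) + e) ∂(Pm μ N) := by
      refine integral_mono_of_nonneg (Filter.Eventually.of_forall fun ω => mul_nonneg (ct_nonneg _ _)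
        (gm_ge _ fun S => abs_nonneg _)) i2 (Filter.Eventually.of_forall fun ω => ?_)
      show ct _ _ * gm _ _ ≤ 2 * (1 + B) ^ 2 * gm _ _ + e
      rw [← gm_sc, ← gm_sc, ← gm_cst (wm μ s N (Pn N y) ω) e, ← gm_ad]
      refine gm_mn _ fun S => ?_
      have a1 := M5e_tI (μ := μ) (s := s) δ hB (b0 := b0) hb j m ω S
      have a2 := tv5_tE (μ := μ) (s := s) δ hB hm (b0 := b0) b' j ω S
      have a3 := HY.bdd y ω S
      have a4 := tI_le (wm μ s N (Pn N y) ω) (pJ 0 N) (j - b') (j - b0) (j + b0) (j + b') m S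
      have a5 := ct_nonneg (Real.exp (-t4)) (tv5 μ s N (Pn N y) δ B b0 b' ω j)
      have a6 := abs_nonneg (Yf y ω S)
      have a7 := tI_nonneg (wm μ s N (Pn N y) ω) (pJ 0 N) (j - b') (j - b0) (j + b0) (j + b') m S
      have a8 := tI_nonneg (wm μ s N (Pn N y) ω) (pW b' j) (j - b) (j - b0) (j + b0) (j + b) m S
      obtain ⟨r, hr⟩ : ∃ r : ℝ, r = 2 * (4 * (1 + B) ^ 2 * Real.exp (16 * (1 + B))) * Real.exp (-(5 * m)) := ⟨_, rfl⟩
      have r0 : 0 ≤ r := by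
        rw [hr]
        positivity
      rw [← hr] at a1
      rw [abs_mul]
      have c1 : ct (Real.exp (-t4)) (tv5 μ s N (Pn N y) δ B b0 b' ω j) *
          (|M5e μ s N (Pn N y) δ B b0 b b' ω j S| * |Yf y ω S|) ≤
          tE70 μ s N y b0 b' j m ω S * ((2 * (1 + B) ^ 2 * tI70 μ s N y b0 b b' j m ω S + r) * |Yf y ω S|) :=
        mul_le_mul a2 (mul_le_mul_of_nonneg_right a1 a6) (mul_nonneg (abs_nonneg _) a6) a7
      have c2 : tE70 μ s N y b0 b' j m ω S * (r * |Yf y ω S|) ≤ 2 * (r * KY) :=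
        mul_le_mul a4 (mul_le_mul_of_nonneg_left a3 r0) (mul_nonneg r0 a6) (by norm_num)
      have c3 : 2 * (r * KY) = e := by
        rw [hr, he]
        ring
      have c4 : tE70 μ s N y b0 b' j m ω S * ((2 * (1 + B) ^ 2 * tI70 μ s N y b0 b b' j m ω S + r) * |Yf y ω S|) =
          2 * (1 + B) ^ 2 * (|Yf y ω S| * (tI70 μ s N y b0 b b' j m ω S * tE70 μ s N y b0 b' j m ω S)) +
            tE70 μ s N y b0 b' j m ω S * (r * |Yf y ω S|) := by ring
      linarith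
    refine h1.trans (le_of_eq ?_)
    rw [integral_add (iR.const_mul _) (integrable_const e), integral_const_mul, integral_const, probReal_univ, one_smul]
  unfold er70
  simp only [← he, avy_I70]
  have hn0 : (0 : ℝ) < n := by exact_mod_cast hn
  have hs := mul_le_mul_of_nonneg_left (sum_le_sum one) (inv_pos.2 hn0).le
  rw [sum_add_distrib, ← mul_sum, sum_const, Nat.card_Ico, Nat.add_sub_cancel_left, nsmul_eq_mul, mul_add, ← mul_assoc (n : ℝ)⁻¹ (n : ℝ) e,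
    inv_mul_cancel₀ hn0.ne', one_mul] at hs
  have e2 : (n : ℝ)⁻¹ * (2 * (1 + B) ^ 2 * ∑ i ∈ Ico y₀ (y₀ + n), ∫ ω, gm (wm μ s N (Pn N i) ω)
      (fun S => |Yf i ω S| * (tI70 μ s N i b0 b b' j m ω S * tE70 μ s N i b0 b' j m ω S)) ∂(Pm μ N)) =
      2 * (1 + B) ^ 2 * ((n : ℝ)⁻¹ * ∑ i ∈ Ico y₀ (y₀ + n), ∫ ω, gm (wm μ s N (Pn N i) ω)
      (fun S => |Yf i ω S| * (tI70 μ s N i b0 b b' j m ω S * tE70 μ s N i b0 b' j m ω S)) ∂(Pm μ N)) := by ring
  rw [e2] at hs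
  linarith

end

end Pool.Agent.W_7d29a1_C0.MM70
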