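import Pool.Agent.W_7d29a1_C0.MMc70

/-!
MP_7d29a1_pr, [CURV0] / [C0], leaf E5.7 (`M x M`), helper70, part 5: THE ROW, in the mean over the law (`row70`), from `four70` and helper61's
`fl_even` (two flips, with the kick truncated at the level `t1`).
-/

set_option autoImplicit false
set_option linter.unusedSectionVars false

namespace Pool.Agent.W_7d29a1_C0.MM70

open Pool.Agent.W_7d29a1_F hiding W_pos W_nonneg W_add
open Finset MeasureTheory Pool.Agent.W_7d29a1_X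
open Pool.Agent.W_7d29a1_C0.Mod92 Pool.Agent.W_7d29a1_C0.Flip61 Pool.Agent.W_7d29a1_C0.Base5
open Pool.Agent.W_7d29a1_C0.Blk18 Pool.Agent.W_7d29a1_C0.Pin18
open Pool.W7d29a1.C0.MM70
open Pool.W7d29a1.C0 (gz gm gz_pos gz_ne gm_const gm_mono gm_nonneg)
open Pool.W7d29a1.C0.VT31 (Mp Crs cE cV cC gc gv)

noncomputable section

variable {μ : Measure ℝ} {s : ℝ} {N b0 j : ℕ}

/-! ### Measurability of the bad masses -/

theorem meas_pb {Q : Finset (Finset ℕ)} (δ B : ℝ) (b0 j : ℕ) (t : ℝ) (S : Px Q) :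
    Measurable fun ω : Env × Finset ℕ => pb (gg μ s Q δ B b0 ω j) (sr ω.2 j) t S := by
  have m1 := meas_gg (μ := μ) (s := s) (Q := Q) δ B b0 j S
  have m2 := meas_sr j
  unfold pb ph
  have e : (fun ω : Env × Finset ℕ => eg (gg μ s Q δ B b0 ω j) (sr ω.2 j) S) =
      fun ω => Real.exp (-2 * sr ω.2 j * gg μ s Q δ B b0 ω j S) := by
    funext ω
    exact eg_apply
  refine Measurable.mul (measurable_const.add ?_) ?_
  · rw [e]
    exact ((m2.const_mul (-2)).mul m1).exp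
  · exact Measurable.ite (measurableSet_lt measurable_const (m1.abs.const_mul 2)) measurable_const measurable_const

theorem meas_q70 {Q : Finset (Finset ℕ)} (δ B : ℝ) (b0 j : ℕ) (t1 t2 t3 t4 t5 : ℝ) :
    Measurable fun ω => q70 μ s N Q δ B b0 j t1 t2 t3 t4 t5 ω := by
  have h : ∀ t : ℝ, Measurable fun ω : Env × Finset ℕ => gm (wm μ s N Q ω) (pb (gg μ s Q δ B b0 ω j) (sr ω.2 j) t) := fun t =>
    meas_gm meas_wm fun S => meas_pb δ B b0 j t S
  unfold q70 Q5 Q4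
  exact measurable_const.min (((((((h t1).const_mul _).add ((h t2).const_mul _)).add ((h t3).const_mul _)).add (h t4)).const_mul _).add
    (h t5) |>.const_mul 2)

theorem q70_nonneg {Q : Finset (Finset ℕ)} [Nonempty (Px Q)] (δ B : ℝ) (b0 j : ℕ) (t1 t2 t3 t4 t5 : ℝ) (ω : Env × Finset ℕ) :
    0 ≤ q70 μ s N Q δ B b0 j t1 t2 t3 t4 t5 ω := by
  have h1 := Q4_nonneg (wm μ s N Q ω) (g := gg μ s Q δ B b0 ω j) (a := sr ω.2 j) t1 t2 t3 t4
  have h2 := pbg_nonneg (wm μ s N Q ω) (g := gg μ s Q δ B b0 ω j) (a := sr ω.2 j) t5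
  unfold q70 Q5
  exact le_min zero_le_one (by positivity)

theorem q70_le {Q : Finset (Finset ℕ)} (δ B : ℝ) (b0 j : ℕ) (t1 t2 t3 t4 t5 : ℝ) (ω : Env × Finset ℕ) :
    q70 μ s N Q δ B b0 j t1 t2 t3 t4 t5 ω ≤ 1 := min_le_left _ _

theorem avy_I70 (y₀ m : ℕ) (Φ : ℕ → ℝ) : avy (Ico y₀ (y₀ + m)) Φ = (m : ℝ)⁻¹ * ∑ y ∈ Ico y₀ (y₀ + m), Φ y := by
  unfold avy
  rw [Nat.card_Ico, Nat.add_sub_cancel_left]

/-- The errors of the row: `qe` = the mean of `q70`. -/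
def err70 (B KY t1 t4 ε qe : ℝ) (m : ℕ) : ℝ :=
  (1 + B) ^ 2 * KY * Real.exp (-t4) + 2 * ((1 + B) ^ 2 * KY) / m + 3 / 2 * (44000 * Real.exp t1 ^ 12 * KY +
    (60 * Real.exp t4 * Real.exp t1 ^ 4 + 2) * (44000 * Real.exp t1 ^ 12 * KY + 2 * ((1 + B) ^ 2 * KY))) * ε +
    40 * (1 + B) ^ 2 * KY * qe

/-- **THE ROW OF `M x M`.** -/
theorem row70 [IsProbabilityMeasure μ] {b b' : ℕ} (hb0 : 0 < b0) (h0b : b0 ≤ b) (hb : b ≤ b') (hjN : j + b' ≤ N) {δ B : ℝ}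
    (hB : 0 ≤ B) {Yf : (y : ℕ) → Env × Finset ℕ → Px (Pn N y) → ℝ} {KY : ℝ} (HY : Cov1 N b0 j Yf KY)
    (hYm : ∀ y ω, Mp (pW b' j) (Yf y ω)) {t1 t2 t3 t4 t5 : ℝ} (h5 : 0 ≤ t5) (h4 : 0 ≤ t4) (h43 : t4 ≤ t3) (h32 : t3 ≤ t2)
    (h21 : t2 ≤ t1) (h1B : t1 ≤ B) {y₀ m : ℕ} (hy : 1 ≤ y₀) (hm : 1 ≤ m) (hyN : y₀ + m ≤ N)
    {ε : ℝ} (hE : FErr μ s N δ B b0 j y₀ m ε) :
    avy (Ico y₀ (y₀ + m)) (fun y => ∫ ω, gm (wm μ s N (Pn N y) ω)
      (fun S => sr ω.2 j * M5e μ s N (Pn N y) δ B b0 b b' ω j S * Yf y ω S) ∂(Pm μ N)) ≤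
    avy (Ico y₀ (y₀ + m)) (fun y => ∫ ω, ct (Real.exp (-t4)) (tv5 μ s N (Pn N y) δ B b0 b' ω j) * gm (wm μ s N (Pn N y) ω)
      (fun S => |M5e μ s N (Pn N y) δ B b0 b b' ω j S * Yf y ω S|) ∂(Pm μ N)) +
    err70 B KY t1 t4 ε (avy (Ico y₀ (y₀ + m)) (fun y => ∫ ω, q70 μ s N (Pn N y) δ B b0 j t1 t2 t3 t4 t5 ω ∂(Pm μ N))) m := by
  have ht : 0 ≤ t1 := by linarith
  have hKY : 0 ≤ KY := HY.pos
  have hK : 0 ≤ (1 + B) ^ 2 * KY := by positivity
  obtain ⟨K, hKdef⟩ : ∃ K, K = (1 + B) ^ 2 * KY := ⟨_, rfl⟩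
  have hK' : 0 ≤ K := hKdef ▸ hK
  have hH := cov_h70 (μ := μ) (s := s) (N := N) (b0 := b0) (j := j) δ hB ht HY
  have hC := fun i => c70_le (j := j) h0b hb i
  have hD := fun i => d70_ge (j := j) h0b hb i
  have hwN : j + b0 ≤ N := by omega
  have ha1 : ∀ a : ℤ, a = 1 ∨ a = -1 → |(a : ℝ)| ≤ 1 := fun a ha => by rcases ha with rfl | rfl <;> norm_num
  have hne : ∀ y ∈ Ico y₀ (y₀ + m), Nonempty (Px (Pn N y)) := fun y h => ne_Pn (by
    have := mem_Ico.1 h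
    omega)
  obtain ⟨E1, hE1⟩ : ∃ E1, E1 = e1 ht := ⟨_, rfl⟩
  obtain ⟨E2, hE2⟩ : ∃ E2, E2 = e2 ht (Real.exp_pos (-t4)) hK := ⟨_, rfl⟩
  have four : ∀ y, y ≤ N → ∀ ω : Env × Finset ℕ,
      (|ob μ s N j (C70 b b' j) (D70 b b' j) (h70 μ s N δ B t1 b0 j Yf) E1 y ω| ≤ K ∧
        |ob μ s N j (C70 b b' j) (D70 b b' j) (h70 μ s N δ B t1 b0 j Yf) E2 y ω| ≤ K) ∧
      gm (wm μ s N (Pn N y) ω) (fun S => sr ω.2 j * M5e μ s N (Pn N y) δ B b0 b b' ω j S * Yf y ω S) ≤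
        ob μ s N j (C70 b b' j) (D70 b b' j) (h70 μ s N δ B t1 b0 j Yf) E1 y ω +
          10 * (1 + B) ^ 2 * KY * q70 μ s N (Pn N y) δ B b0 j t1 t2 t3 t4 t5 ω ∧
      ob μ s N j (C70 b b' j) (D70 b b' j) (h70 μ s N δ B t1 b0 j Yf) E2 y ω ≤
        ct (Real.exp (-t4)) (tv5 μ s N (Pn N y) δ B b0 b' ω j) *
          gm (wm μ s N (Pn N y) ω) (fun S => |M5e μ s N (Pn N y) δ B b0 b b' ω j S * Yf y ω S|) +
          10 * (1 + B) ^ 2 * KY * q70 μ s N (Pn N y) δ B b0 j t1 t2 t3 t4 t5 ω ∧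
      ob μ s N j (C70 b b' j) (D70 b b' j) (h70 μ s N δ B t1 b0 j Yf) E1 y ω +
        obf μ s N δ B b0 j (C70 b b' j) (D70 b b' j) (h70 μ s N δ B t1 b0 j Yf) E1 y ω ≤
        ob μ s N j (C70 b b' j) (D70 b b' j) (h70 μ s N δ B t1 b0 j Yf) E2 y ω +
        obf μ s N δ B b0 j (C70 b b' j) (D70 b b' j) (h70 μ s N δ B t1 b0 j Yf) E2 y ω +
        2 * K * Real.exp (-t4) + 40 * (1 + B) ^ 2 * KY * q70 μ s N (Pn N y) δ B b0 j t1 t2 t3 t4 t5 ω := fun y hyy ω => by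
    have n1 : Nonempty (Px (Pn N y)) := ne_Pn hyy
    have h := four70 (μ := μ) (s := s) (N := N) (b0 := b0) (j := j) (b := b) (b' := b') (y := y) (δ := δ) hB
      (fun ω S => HY.bdd y ω S) (hYm y) h5 h4 h43 h32 h21 h1B ht hK ω
    rw [← hE1, ← hE2, ← hKdef] at h
    exact h
  -- the bounds of the means
  have M1 : ∀ y ω, |ob μ s N j (C70 b b' j) (D70 b b' j) (h70 μ s N δ B t1 b0 j Yf) E1 y ω| ≤ K := fun y ω => by
    by_cases hyy : y ≤ N
    · exact (four y hyy ω).1.1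
    · unfold ob
      rw [gm_zero_empty hyy, abs_zero]
      exact hK'
  have M2 : ∀ y ω, |ob μ s N j (C70 b b' j) (D70 b b' j) (h70 μ s N δ B t1 b0 j Yf) E2 y ω| ≤ K := fun y ω => by
    by_cases hyy : y ≤ N
    · exact (four y hyy ω).1.2
    · unfold ob
      rw [gm_zero_empty hyy, abs_zero]
      exact hK'
  have F1 := fl_even (μ := μ) (s := s) hb0 hwN hH (C70 b b' j) (D70 b b' j) hC hD E1 (δ := δ) (B := B)
    (L := 44000 * Real.exp t1 ^ 12 * KY) (M := K) (fun a ha => by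
      rw [hE1]
      exact sz_e1 ht hKY (ha1 a ha)) M1 hy hm hyN hE
  have F2 := fl_even (μ := μ) (s := s) hb0 hwN hH (C70 b b' j) (D70 b b' j) hC hD E2 (δ := δ) (B := B)
    (L := (60 * Real.exp t4 * Real.exp t1 ^ 4 + 2) * (44000 * Real.exp t1 ^ 12 * KY + 2 * K)) (M := K) (fun a ha => by
      have h := sz_e2 ht hKY (Real.exp_pos (-t4)) hK (ha1 a ha)
      rw [← Real.exp_neg, neg_neg] at h
      rw [hE2, hKdef]
      exact h) M2 hy hm hyN hE
  -- integrability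
  have io : ∀ (e : ℤ → Ex (Fin 3) Bool) (y : ℕ), Integrable (ob μ s N j (C70 b b' j) (D70 b b' j) (h70 μ s N δ B t1 b0 j Yf) e y) (Pm μ N) :=
    fun e y => int_bdd (meas_ob j _ _ hH.mes e y) (M := Ex.bd (b70 (Real.exp t1) KY) (e 1) + Ex.bd (b70 (Real.exp t1) KY) (e (-1)))
      fun ω => by
        have h1 := ob_bdd (μ := μ) (s := s) j (C70 b b' j) (D70 b b' j) hH.pos hH.bdd e y ω
        have h2 := Ex.bd_nonneg hH.pos (e 1)
        have h3 := Ex.bd_nonneg hH.pos (e (-1))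
        rcases sg_or ω.2 j with h4 | h4 <;> rw [h4] at h1 <;> linarith
  have iof : ∀ (e : ℤ → Ex (Fin 3) Bool) (y : ℕ),
      Integrable (obf μ s N δ B b0 j (C70 b b' j) (D70 b b' j) (h70 μ s N δ B t1 b0 j Yf) e y) (Pm μ N) :=
    fun e y => int_bdd (meas_obf δ B b0 j _ _ hH.mes e y) (M := Ex.bd (b70 (Real.exp t1) KY) (e 1) + Ex.bd (b70 (Real.exp t1) KY) (e (-1)))
      fun ω => by
        have h1 := obf_bdd (μ := μ) (s := s) δ B b0 j (C70 b b' j) (D70 b b' j) hH.pos hH.bdd e y ω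
        have h2 := Ex.bd_nonneg hH.pos (e 1)
        have h3 := Ex.bd_nonneg hH.pos (e (-1))
        rcases sg_or ω.2 j with h4 | h4 <;> rw [h4] at h1
        · linarith
        · rw [neg_neg] at h1
          linarith
  have iq : ∀ y ∈ Ico y₀ (y₀ + m), Integrable (fun ω => q70 μ s N (Pn N y) δ B b0 j t1 t2 t3 t4 t5 ω) (Pm μ N) := fun y hy' =>
    int_bdd (meas_q70 δ B b0 j t1 t2 t3 t4 t5) (M := 1) fun ω => by
      have n1 := hne y hy'
      rw [abs_of_nonneg (q70_nonneg δ B b0 j t1 t2 t3 t4 t5 ω)]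
      exact q70_le δ B b0 j t1 t2 t3 t4 t5 ω
  have tv0 : ∀ y, Measurable fun ω => tv5 μ s N (Pn N y) δ B b0 b' ω j := fun y => by
    unfold tv5 tvc rh
    have mA : ∀ S : Px (Pn N y), Measurable fun ω : Env × Finset ℕ =>
        ex ((-2 * sr ω.2 j) • gg μ s (Pn N y) δ B b0 ω j) S := fun S => by
      unfold ex
      simp only [Pi.smul_apply, smul_eq_mul]
      exact (((meas_sr j).const_mul (-2)).mul (meas_gg δ B b0 j S)).exp
    refine meas_gm (f := fun ω S => |cE (wm μ s N (Pn N y) ω) (pW b' j) (ex ((-2 * sr ω.2 j) • gg μ s (Pn N y) δ B b0 ω j)) S /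
      gm (wm μ s N (Pn N y) ω) (ex ((-2 * sr ω.2 j) • gg μ s (Pn N y) δ B b0 ω j)) - 1|) meas_wm fun S => ?_
    exact (((meas_cE meas_wm mA (pW b' j) S).div (meas_gm meas_wm mA)).sub measurable_const).abs
  have ctm : Measurable fun v : ℝ => ct (Real.exp (-t4)) v := by
    unfold ct
    exact measurable_const.min (measurable_const.max ((measurable_id.div_const _).sub measurable_const))
  have bM : ∀ y, ∀ ω S, |M5e μ s N (Pn N y) δ B b0 b b' ω j S * Yf y ω S| ≤ K5 B * KY := fun y ω S => by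
    have n1 : Nonempty (Px (Pn N y)) := ⟨S⟩
    rw [abs_mul]
    exact mul_le_mul (abs_M5e hB b0 b b' ω j S) (HY.bdd y ω S) (abs_nonneg _) (K5_nonneg hB)
  have iL : ∀ y ∈ Ico y₀ (y₀ + m), Integrable (fun ω => gm (wm μ s N (Pn N y) ω)
      (fun S => sr ω.2 j * M5e μ s N (Pn N y) δ B b0 b b' ω j S * Yf y ω S)) (Pm μ N) := fun y hy' => by
    have n1 := hne y hy'
    refine int_bdd (meas_gm meas_wm fun S => ((meas_sr j).mul (meas_M5e δ B b0 b b' j S)).mul (HY.mes y S)) (M := K5 B * KY) fun ω => ?_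
    refine (gm_ab _ _).trans (gm_le _ fun S => ?_)
    rw [mul_assoc, abs_mul, abs_sr, one_mul]
    exact bM y ω S
  have iR : ∀ y ∈ Ico y₀ (y₀ + m), Integrable (fun ω => ct (Real.exp (-t4)) (tv5 μ s N (Pn N y) δ B b0 b' ω j) *
      gm (wm μ s N (Pn N y) ω) (fun S => |M5e μ s N (Pn N y) δ B b0 b b' ω j S * Yf y ω S|)) (Pm μ N) := fun y hy' => by
    have n1 := hne y hy'
    refine int_bdd ((ctm.comp (tv0 y)).mul (meas_gm meas_wm fun S => ((meas_M5e δ B b0 b b' j S).mul (HY.mes y S)).abs))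
      (M := K5 B * KY) fun ω => ?_
    have h1 : gm (wm μ s N (Pn N y) ω) (fun S => |M5e μ s N (Pn N y) δ B b0 b b' ω j S * Yf y ω S|) ≤ K5 B * KY :=
      gm_le _ fun S => bM y ω S
    have h0 : 0 ≤ gm (wm μ s N (Pn N y) ω) (fun S => |M5e μ s N (Pn N y) δ B b0 b b' ω j S * Yf y ω S|) := gm_ge _ fun S => abs_nonneg _
    rw [abs_mul, abs_of_nonneg (ct_nonneg _ _), abs_of_nonneg h0]
    have := mul_le_mul (ct_le_one (Real.exp (-t4)) (tv5 μ s N (Pn N y) δ B b0 b' ω j)) h1 h0 zero_le_one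
    linarith
  obtain ⟨kt, hkt⟩ : ∃ x, x = K * Real.exp (-t4) := ⟨_, rfl⟩
  -- one end
  have one : ∀ y ∈ Ico y₀ (y₀ + m), ∫ ω, gm (wm μ s N (Pn N y) ω)
      (fun S => sr ω.2 j * M5e μ s N (Pn N y) δ B b0 b b' ω j S * Yf y ω S) ∂(Pm μ N) ≤
      ∫ ω, ct (Real.exp (-t4)) (tv5 μ s N (Pn N y) δ B b0 b' ω j) * gm (wm μ s N (Pn N y) ω)
        (fun S => |M5e μ s N (Pn N y) δ B b0 b b' ω j S * Yf y ω S|) ∂(Pm μ N) + kt +
      40 * (1 + B) ^ 2 * KY * (∫ ω, q70 μ s N (Pn N y) δ B b0 j t1 t2 t3 t4 t5 ω ∂(Pm μ N)) +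
      1 / 2 * (∫ ω, (ob μ s N j (C70 b b' j) (D70 b b' j) (h70 μ s N δ B t1 b0 j Yf) E1 y ω -
        obf μ s N δ B b0 j (C70 b b' j) (D70 b b' j) (h70 μ s N δ B t1 b0 j Yf) E1 y ω) ∂(Pm μ N)) -
      1 / 2 * (∫ ω, (ob μ s N j (C70 b b' j) (D70 b b' j) (h70 μ s N δ B t1 b0 j Yf) E2 y ω -
        obf μ s N δ B b0 j (C70 b b' j) (D70 b b' j) (h70 μ s N δ B t1 b0 j Yf) E2 y ω) ∂(Pm μ N)) := by
    intro y hy'
    have hyN' : y ≤ N := by
      have := mem_Ico.1 hy'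
      omega
    rw [hkt]
    obtain ⟨κ, hκ⟩ : ∃ κ, κ = 10 * (1 + B) ^ 2 * KY := ⟨_, rfl⟩
    have h40 : 40 * (1 + B) ^ 2 * KY = 4 * κ := by
      rw [hκ]
      ring
    have iE1 := io E1 y
    have iE2 := io E2 y
    have jE1 := iof E1 y
    have jE2 := iof E2 y
    have q1 := iq y hy'
    rw [integral_sub iE1 jE1, integral_sub iE2 jE2, h40]
    have g1 := integral_mono (iL y hy') (iE1.add (q1.const_mul κ)) fun ω => by
      rw [hκ]
      exact (four y hyN' ω).2.1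
    have g2 := integral_mono iE2 ((iR y hy').add (q1.const_mul κ)) fun ω => by
      rw [hκ]
      exact (four y hyN' ω).2.2.1
    have g3 := integral_mono (iE1.add jE1) (((iE2.add jE2).add (integrable_const (2 * K * Real.exp (-t4)))).add (q1.const_mul (4 * κ)))
      fun ω => by
        rw [← h40]
        exact (four y hyN' ω).2.2.2
    have r1 := integral_add iE1 (q1.const_mul κ)
    have r2 := integral_add (iR y hy') (q1.const_mul κ)
    have r3 := integral_add iE1 jE1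
    have r4 := integral_add ((iE2.add jE2).add (integrable_const (μ := Pm μ N) (2 * K * Real.exp (-t4)))) (q1.const_mul (4 * κ))
    have r5 := integral_add (iE2.add jE2) (integrable_const (μ := Pm μ N) (2 * K * Real.exp (-t4)))
    have r6 := integral_add iE2 jE2
    rw [integral_const_mul] at r1 r2 r4
    rw [integral_const, probReal_univ, one_smul] at r5
    have g1' := g1.trans r1.le
    have g2' := g2.trans r2.le
    have g3' := (r3.symm.le.trans g3).trans r4.le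
    have g4' := g3'.trans (add_le_add_left r5.le _)
    have g5' := g4'.trans (add_le_add_left (add_le_add_left r6.le _) _)
    linarith
  rw [avy_I70, avy_I70, avy_I70]
  have hm0 : (0 : ℝ) < m := by exact_mod_cast hm
  have hs := mul_le_mul_of_nonneg_left (sum_le_sum one) (inv_pos.2 hm0).le
  refine hs.trans ?_
  rw [sum_sub_distrib, sum_add_distrib, sum_add_distrib, sum_add_distrib, ← mul_sum, ← mul_sum, ← mul_sum, sum_const, Nat.card_Ico,
    Nat.add_sub_cancel_left, nsmul_eq_mul]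
  have k1 := (abs_le.1 F1).2
  have k2 := (abs_le.1 F2).1
  unfold err70
  rw [← hKdef]
  have k3 : (m : ℝ)⁻¹ * (m * kt) = kt := by
    rw [← mul_assoc, inv_mul_cancel₀ hm0.ne', one_mul]
  rw [mul_sub, mul_add, mul_add, mul_add, k3, hkt]
  linarith

end

end Pool.Agent.W_7d29a1_C0.MM70
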