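import Pool.Agent.W_7d29a1_C0.MMa70

/-!
MP_7d29a1_pr, [CURV0] / [C0], leaf E5.7 (`M x M`), helper70, part 2: TRUNCATION OF THE KICK, pathwise (finite `X`, no probability).
`eg g a = exp (- 2 a g)`, `|g| ≤ B / 2`, `a = ± 1`; `ph g t` = indicator of `2 |g| > t`; `tr g t` = `g` clipped at the level `t / 2`;
`pb g a t = (1 + eg g a) ph g t`. Order of the constants: no factor `exp B`, only levels `t1 ≥ t2 ≥ t3 ≥ t4`, `t5`; every mass `pb` at a
level `ti` is compared with `exp` of the smaller levels only (`Q4`). `Mf_dif`: the odd part with `tr g t1` in place of `g`; `tv_dif`: the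
same for the distance of both corners; `Q4_corner`: the other corner.
-/

set_option autoImplicit false
set_option linter.unusedSectionVars false

namespace Pool.W7d29a1.C0.MM70

open Finset MeasureTheory Pool.Agent.W_7d29a1_C0 Pool.Agent.W_7d29a1_C0.Mod92 Pool.Agent.W_7d29a1_C0.Swap57
open Pool.W7d29a1.C0 Pool.W7d29a1.C0.VT31

noncomputable section

/-! ### The kick -/

section Pt

variable {X : Type*}

/-- The indicator of a large kick. -/
def ph (g : X → ℝ) (t : ℝ) (x : X) : ℝ := if t < 2 * |g x| then 1 else 0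

/-- The kick clipped at the level `t`. -/
def tr (g : X → ℝ) (t : ℝ) (x : X) : ℝ := max (-(t / 2)) (min (t / 2) (g x))

/-- The density of the other corner, not normalised. -/
def eg (g : X → ℝ) (a : ℝ) : X → ℝ := ex ((-2 * a) • g)

/-- The bad mass. -/
def pb (g : X → ℝ) (a t : ℝ) (x : X) : ℝ := (1 + eg g a x) * ph g t x

variable {g : X → ℝ} {a t y B : ℝ} {x : X}

theorem ph_nonneg : 0 ≤ ph g t x := by
  unfold ph
  split_ifs <;> norm_num

theorem ph_le_one : ph g t x ≤ 1 := by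
  unfold ph
  split_ifs <;> norm_num

theorem ph_of (h : t < 2 * |g x|) : ph g t x = 1 := if_pos h

theorem ph_not (h : ¬ t < 2 * |g x|) : ph g t x = 0 := if_neg h

theorem eg_apply : eg g a x = Real.exp (-2 * a * g x) := rfl

theorem eg_pos : 0 < eg g a x := Real.exp_pos _

theorem pb_nonneg : 0 ≤ pb g a t x := mul_nonneg (by linarith [eg_pos (g := g) (a := a) (x := x)]) ph_nonneg

theorem ph_le_pb : ph g t x ≤ pb g a t x := by
  unfold pb
  have h1 := ph_nonneg (g := g) (t := t) (x := x)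
  have h2 := mul_nonneg (eg_pos (g := g) (a := a) (x := x)).le h1
  linarith

theorem tr_abs (ht : 0 ≤ t) : |tr g t x| ≤ t / 2 := by
  unfold tr
  rw [abs_le]
  exact ⟨le_max_left _ _, max_le (by linarith) (min_le_left _ _)⟩

theorem tr_of (h : ¬ t < 2 * |g x|) : tr g t x = g x := by
  obtain ⟨h1, h2⟩ := abs_le.1 (show |g x| ≤ t / 2 by linarith)
  unfold tr
  rw [min_eq_right h2, max_eq_right h1]

theorem mul_tr_le (ht : 0 ≤ t) (c : ℝ) : c * tr g t x ≤ max 0 (c * g x) := by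
  rcases le_total 0 (g x) with h | h
  · have h1 : 0 ≤ min (t / 2) (g x) := le_min (by linarith) h
    have h2 : tr g t x = min (t / 2) (g x) := max_eq_right (by linarith)
    have h3 : tr g t x ≤ g x := h2 ▸ min_le_right _ _
    rw [← h2] at h1
    rcases le_total 0 c with h4 | h4
    · exact (mul_le_mul_of_nonneg_left h3 h4).trans (le_max_right _ _)
    · exact (mul_nonpos_of_nonpos_of_nonneg h4 h1).trans (le_max_left _ _)
  · have h2 : tr g t x = max (-(t / 2)) (g x) := by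
      unfold tr
      rw [min_eq_right (by linarith)]
    have h1 : tr g t x ≤ 0 := by
      rw [h2]
      exact max_le (by linarith) h
    have h3 : g x ≤ tr g t x := h2 ▸ le_max_right _ _
    rcases le_total 0 c with h4 | h4
    · exact (mul_nonpos_of_nonneg_of_nonpos h4 h1).trans (le_max_left _ _)
    · exact (mul_le_mul_of_nonpos_left h3 h4).trans (le_max_right _ _)

theorem eg_tr_le (ht : 0 ≤ t) : eg (tr g t) a x ≤ 1 + eg g a x := by
  rw [eg_apply, eg_apply]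
  have h := mul_tr_le (g := g) (x := x) ht (-2 * a)
  rcases le_total 0 (-2 * a * g x) with h1 | h1
  · rw [max_eq_right h1] at h
    have := Real.exp_le_exp.2 h
    linarith
  · rw [max_eq_left h1] at h
    have h2 := Real.exp_le_exp.2 h
    rw [Real.exp_zero] at h2
    have := Real.exp_pos (-2 * a * g x)
    linarith

/-- The error of the truncation. -/
theorem eg_dif (ht : 0 ≤ t) : |eg g a x - eg (tr g t) a x| ≤ pb g a t x := by
  by_cases h : t < 2 * |g x|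
  · unfold pb
    rw [ph_of h, mul_one, abs_le]
    have h1 := eg_tr_le (g := g) (a := a) (x := x) ht
    have h2 := eg_pos (g := g) (a := a) (x := x)
    have h3 := eg_pos (g := tr g t) (a := a) (x := x)
    constructor <;> linarith
  · rw [eg_apply, eg_apply, tr_of h, sub_self, abs_zero]
    exact pb_nonneg

variable (ha : a = 1 ∨ a = -1)
include ha

theorem abs_m2 : |(-2 * a)| = 2 := by
  rcases ha with rfl | rfl <;> norm_num

theorem abs_c (h : |g x| ≤ t / 2) : |(-2 * a * g x)| ≤ t := by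
  rw [abs_mul, abs_m2 ha]
  linarith

theorem eg_bds (h : |g x| ≤ B / 2) : Real.exp (-B) ≤ eg g a x ∧ eg g a x ≤ Real.exp B := by
  obtain ⟨h1, h2⟩ := abs_le.1 (abs_c ha h)
  exact ⟨Real.exp_le_exp.2 h1, Real.exp_le_exp.2 h2⟩

/-- From below. -/
theorem eg_low : Real.exp (-t) * (1 - ph g t x) ≤ eg g a x := by
  by_cases h : t < 2 * |g x|
  · rw [ph_of h, sub_self, mul_zero]
    exact eg_pos.le
  · rw [ph_not h, sub_zero, mul_one]
    exact (eg_bds ha (by linarith)).1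

theorem eg_low_tr (hty : t ≤ y) : Real.exp (-t) * (1 - ph g t x) ≤ eg (tr g y) a x := by
  by_cases h : t < 2 * |g x|
  · rw [ph_of h, sub_self, mul_zero]
    exact eg_pos.le
  · rw [ph_not h, sub_zero, mul_one, eg_apply, tr_of (by linarith)]
    exact (eg_bds ha (by linarith)).1

/-- From above. -/
theorem eg_upp : eg g a x ≤ Real.exp t + pb g a t x := by
  by_cases h : t < 2 * |g x|
  · unfold pb
    rw [ph_of h, mul_one]
    have := Real.exp_pos t
    linarith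
  · have h1 := (eg_bds (g := g) (x := x) ha (B := t) (by linarith)).2
    have h2 := pb_nonneg (g := g) (a := a) (t := t) (x := x)
    linarith

end Pt

/-! ### Conditional means, pointwise forms -/

section Cond

variable {X : Type*} [Fintype X] [Nonempty X] {Y Z : Type*} [DecidableEq Y] [DecidableEq Z]

theorem cE_scx (w : X → ℝ) (p : X → Y) (c : ℝ) (f : X → ℝ) (x : X) : cE w p (fun z => c * f z) x = c * cE w p f x :=
  congrFun (cE_smul w p c f) x

theorem cE_adx (w : X → ℝ) (p : X → Y) (f h : X → ℝ) (x : X) : cE w p (fun z => f z + h z) x = cE w p f x + cE w p h x :=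
  congrFun (cE_add w p f h) x

theorem cE_sbx (w : X → ℝ) (p : X → Y) (f h : X → ℝ) (x : X) : cE w p (fun z => f z - h z) x = cE w p f x - cE w p h x :=
  congrFun (cE_sub w p f h) x

theorem cE_abx (w : X → ℝ) (p : X → Y) (f : X → ℝ) (x : X) : |cE w p f x| ≤ cE w p (fun z => |f z|) x := by
  rw [abs_le]
  constructor
  · have e := cE_mono w p (f := fun z => (-1) * |f z|) (g := f) (fun z => by linarith [neg_abs_le (f z)]) x
    rw [cE_scx] at e
    linarith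
  · exact cE_mono w p (fun z => le_abs_self _) x

/-- The difference of two conditional means. -/
theorem cE_dif (w : X → ℝ) (p : X → Y) {f f' H : X → ℝ} (h : ∀ x, |f x - f' x| ≤ H x) (x : X) :
    |cE w p f x - cE w p f' x| ≤ cE w p H x := by
  rw [← cE_sbx]
  exact (cE_abx w p _ x).trans (cE_mono w p h x)

theorem gm_cEx (w : X → ℝ) (p : X → Y) (f : X → ℝ) : gm w (fun x => cE w p f x) = gm w f := gm_cE w p f

variable (w : X → ℝ) {g : X → ℝ} {a t y B : ℝ}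

/-- The conditional mean of the density on a good class. -/
theorem good_low (p : X → Y) {F : X → ℝ} (h : ∀ x, Real.exp (-t) * (1 - ph g t x) ≤ F x) {x : X} (hg : cE w p (ph g t) x ≤ 1 / 2) :
    Real.exp (-t) / 2 ≤ cE w p F x := by
  have e := cE_mono w p h x
  rw [cE_scx, cE_sbx, cE_cst] at e
  have h1 := mul_le_mul_of_nonneg_left (show 1 / 2 ≤ 1 - cE w p (ph g t) x by linarith) (Real.exp_pos (-t)).le
  linarith

theorem log_lip {m a b : ℝ} (hm : 0 < m) (ha : m ≤ a) (hb : m ≤ b) : |Real.log a - Real.log b| ≤ m⁻¹ * |a - b| := by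
  have a0 := hm.trans_le ha
  have b0 := hm.trans_le hb
  have key : ∀ x y : ℝ, m ≤ x → m ≤ y → Real.log x - Real.log y ≤ m⁻¹ * |x - y| := fun x y hx hy => by
    have x0 := hm.trans_le hx
    have y0 := hm.trans_le hy
    rw [← Real.log_div x0.ne' y0.ne']
    refine (Real.log_le_sub_one_of_pos (div_pos x0 y0)).trans ?_
    have e : x / y - 1 = y⁻¹ * (x - y) := by field_simp
    rw [e]
    have h1 : y⁻¹ ≤ m⁻¹ := inv_anti₀ hm hy
    calc y⁻¹ * (x - y) ≤ y⁻¹ * |x - y| := mul_le_mul_of_nonneg_left (le_abs_self _) (inv_pos.2 y0).le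
      _ ≤ m⁻¹ * |x - y| := mul_le_mul_of_nonneg_right h1 (abs_nonneg _)
  rw [abs_le]
  constructor
  · have := key b a hb ha
    rw [abs_sub_comm] at this
    linarith
  · exact key a b ha hb

theorem inv_half_exp (t : ℝ) : (Real.exp (-t) / 2)⁻¹ = 2 * Real.exp t := by
  rw [inv_div, Real.exp_neg]
  field_simp

theorem abs_log_le {u B : ℝ} (h1 : Real.exp (-B) ≤ u) (h2 : u ≤ Real.exp B) : |Real.log u| ≤ B := by
  have u0 := (Real.exp_pos _).trans_le h1
  rw [abs_le]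
  constructor
  · have := Real.log_le_log (Real.exp_pos _) h1
    rwa [Real.log_exp] at this
  · have := Real.log_le_log u0 h2
    rwa [Real.log_exp] at this

theorem abs_gf (ha : a = 1 ∨ a = -1) {E : X → ℝ} (h1 : ∀ x, Real.exp (-B) ≤ E x) (h2 : ∀ x, E x ≤ Real.exp B) (v : X → Z) (x : X) :
    |gf w a E v x| ≤ B / 2 := by
  unfold gf
  have h3 := abs_log_le (cE_ge w v h1 x) (cE_le w v h2 x)
  have h4 : |(-(a / 2))| = 1 / 2 := by
    rcases ha with rfl | rfl <;> norm_num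
  rw [abs_mul, h4]
  linarith

/-- **The mean response with the truncated kick.** -/
theorem gf_dif (hB : ∀ x, |g x| ≤ B / 2) (ha : a = 1 ∨ a = -1) (ht : 0 ≤ t) (hty : t ≤ y) (hyB : y ≤ B) (v : X → Z) (x : X) :
    |gf w a (eg g a) v x - gf w a (eg (tr g y) a) v x| ≤ cE w v (fun z => Real.exp t * pb g a y z + 2 * B * ph g t z) x := by
  have hy : 0 ≤ y := ht.trans hty
  have hB0 : 0 ≤ B := hy.trans hyB
  have b1 : ∀ x, Real.exp (-B) ≤ eg g a x := fun x => (eg_bds ha (hB x)).1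
  have b2 : ∀ x, eg g a x ≤ Real.exp B := fun x => (eg_bds ha (hB x)).2
  have c1 : ∀ x, Real.exp (-B) ≤ eg (tr g y) a x := fun x => (eg_bds ha ((tr_abs hy).trans (by linarith))).1
  have c2 : ∀ x, eg (tr g y) a x ≤ Real.exp B := fun x => (eg_bds ha ((tr_abs hy).trans (by linarith))).2
  have hd : |cE w v (eg g a) x - cE w v (eg (tr g y) a) x| ≤ cE w v (pb g a y) x := cE_dif w v (fun x => eg_dif hy) x
  have p0 : 0 ≤ cE w v (pb g a y) x := cE_nonneg w v (fun _ => pb_nonneg) x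
  have f0 : 0 ≤ cE w v (ph g t) x := cE_nonneg w v (fun _ => ph_nonneg) x
  have key : |Real.log (cE w v (eg g a) x) - Real.log (cE w v (eg (tr g y) a) x)| ≤
      2 * Real.exp t * cE w v (pb g a y) x + 4 * B * cE w v (ph g t) x := by
    by_cases hg : cE w v (ph g t) x ≤ 1 / 2
    · have m1 := good_low w v (fun x => eg_low (g := g) (t := t) (x := x) ha) hg
      have m2 := good_low w v (fun x => eg_low_tr (g := g) (t := t) (x := x) ha hty) hg
      have h1 := log_lip (by positivity) m1 m2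
      rw [inv_half_exp] at h1
      have h2 := mul_le_mul_of_nonneg_left hd (by positivity : 0 ≤ 2 * Real.exp t)
      have h3 : 0 ≤ 4 * B * cE w v (ph g t) x := by positivity
      linarith
    · push Not at hg
      have h1 := abs_log_le (cE_ge w v b1 x) (cE_le w v b2 x)
      have h2 := abs_log_le (cE_ge w v c1 x) (cE_le w v c2 x)
      have h3 := abs_sub (Real.log (cE w v (eg g a) x)) (Real.log (cE w v (eg (tr g y) a) x))
      have h4 : 0 ≤ 2 * Real.exp t * cE w v (pb g a y) x := by positivity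
      have h5 : 4 * B * (1 / 2) ≤ 4 * B * cE w v (ph g t) x := mul_le_mul_of_nonneg_left hg.le (by positivity)
      linarith
  have h4 : |(-(a / 2))| = 1 / 2 := by
    rcases ha with rfl | rfl <;> norm_num
  rw [cE_adx, cE_scx, cE_scx]
  unfold gf
  rw [← mul_sub, abs_mul, h4]
  linarith

theorem abs_tf {E : X → ℝ} (hE : ∀ x, 0 < E x) {f : X → ℝ} {R : ℝ} (hf : ∀ x, |f x| ≤ R) (u : X → Y) (x : X) :
    |tf w E u f x| ≤ R ∧ |cE w u (E * f) x| ≤ R * cE w u E x ∧ 0 < cE w u E x := by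
  have D0 : 0 < cE w u E x := by
    obtain ⟨z0, -, hz0⟩ := exists_min_image univ E univ_nonempty
    exact (hE z0).trans_le (cE_ge w u (fun z => hz0 z (mem_univ z)) x)
  have h1 : |cE w u (E * f) x| ≤ R * cE w u E x := by
    refine (cE_abx w u _ x).trans ?_
    rw [← cE_scx]
    refine cE_mono w u (fun z => ?_) x
    rw [Pi.mul_apply, abs_mul, abs_of_pos (hE z), mul_comm]
    exact mul_le_mul_of_nonneg_right (hf z) (hE z).le
  refine ⟨?_, h1, D0⟩
  unfold tf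
  rw [abs_div, abs_of_pos D0, div_le_iff₀ D0]
  exact h1

/-- **The conditional mean at the other corner, with the truncated kick.** -/
theorem tf_difx (ha : a = 1 ∨ a = -1) (ht : 0 ≤ t) (hty : t ≤ y) {f f' : X → ℝ} {R : ℝ} (hf : ∀ x, |f x| ≤ R) (hf' : ∀ x, |f' x| ≤ R)
    (u : X → Y) (x : X) : |tf w (eg g a) u f x - tf w (eg (tr g y) a) u f' x| ≤
      cE w u (fun z => 2 * Real.exp t * (eg g a z * |f z - f' z| + 2 * R * pb g a y z) + 4 * R * ph g t z) x := by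
  have hy : 0 ≤ y := ht.trans hty
  have R0 : 0 ≤ R := (abs_nonneg _).trans (hf x)
  obtain ⟨q1, q2, D0⟩ := abs_tf w (fun x => eg_pos (g := g) (a := a) (x := x)) hf u x
  obtain ⟨r1, r2, D0'⟩ := abs_tf w (fun x => eg_pos (g := tr g y) (a := a) (x := x)) hf' u x
  have f0 : 0 ≤ cE w u (ph g t) x := cE_nonneg w u (fun _ => ph_nonneg) x
  have dD : |cE w u (eg g a) x - cE w u (eg (tr g y) a) x| ≤ cE w u (pb g a y) x := cE_dif w u (fun x => eg_dif hy) x
  have dN : |cE w u (eg g a * f) x - cE w u (eg (tr g y) a * f') x| ≤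
      cE w u (fun z => eg g a z * |f z - f' z| + R * pb g a y z) x := by
    refine cE_dif w u (fun z => ?_) x
    rw [Pi.mul_apply, Pi.mul_apply]
    have e : eg g a z * f z - eg (tr g y) a z * f' z = eg g a z * (f z - f' z) + (eg g a z - eg (tr g y) a z) * f' z := by ring
    rw [e]
    refine (abs_add_le _ _).trans (add_le_add ?_ ?_)
    · rw [abs_mul, abs_of_pos eg_pos]
    · rw [abs_mul, mul_comm R]
      exact mul_le_mul (eg_dif hy) (hf' z) (abs_nonneg _) pb_nonneg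
  obtain ⟨A, hA⟩ : ∃ A, A = cE w u (fun z => eg g a z * |f z - f' z|) x := ⟨_, rfl⟩
  obtain ⟨P, hP⟩ : ∃ P, P = cE w u (pb g a y) x := ⟨_, rfl⟩
  have A0 : 0 ≤ A := by
    rw [hA]
    exact cE_nonneg w u (fun z => mul_nonneg eg_pos.le (abs_nonneg _)) x
  have P0 : 0 ≤ P := by
    rw [hP]
    exact cE_nonneg w u (fun _ => pb_nonneg) x
  rw [cE_adx, cE_scx, ← hA, ← hP] at dN
  rw [← hP] at dD
  rw [cE_adx, cE_scx, cE_adx, cE_scx, cE_scx, ← hA, ← hP]
  by_cases hg : cE w u (ph g t) x ≤ 1 / 2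
  · have m1 := good_low w u (fun x => eg_low (g := g) (t := t) (x := x) ha) hg
    obtain ⟨D, hD⟩ : ∃ D, D = cE w u (eg g a) x := ⟨_, rfl⟩
    obtain ⟨D', hD'⟩ : ∃ D', D' = cE w u (eg (tr g y) a) x := ⟨_, rfl⟩
    obtain ⟨n, hn⟩ : ∃ n, n = cE w u (eg g a * f) x := ⟨_, rfl⟩
    obtain ⟨n', hn'⟩ : ∃ n', n' = cE w u (eg (tr g y) a * f') x := ⟨_, rfl⟩
    unfold tf at r1 ⊢
    rw [← hD', ← hn'] at r1
    rw [← hD, ← hD'] at dD
    rw [← hn, ← hn'] at dN
    rw [← hD] at m1 D0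
    rw [← hD'] at D0'
    rw [← hD, ← hD', ← hn, ← hn']
    have e : n / D - n' / D' = D⁻¹ * ((n - n') - n' / D' * (D - D')) := by
      field_simp
      ring
    have i1 : D⁻¹ ≤ 2 * Real.exp t := by
      rw [← inv_half_exp]
      exact inv_anti₀ (by positivity) m1
    have h1 : |(n - n') - n' / D' * (D - D')| ≤ (A + R * P) + R * P := by
      refine (abs_sub _ _).trans (add_le_add dN ?_)
      rw [abs_mul]
      exact mul_le_mul r1 dD (abs_nonneg _) R0
    rw [e, abs_mul, abs_of_pos (inv_pos.2 D0)]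
    have h2 := mul_le_mul i1 h1 (abs_nonneg _) (by positivity)
    have h3 : 0 ≤ 4 * R * cE w u (ph g t) x := by positivity
    linarith
  · push Not at hg
    have h3 := abs_sub (tf w (eg g a) u f x) (tf w (eg (tr g y) a) u f' x)
    have h4 : 0 ≤ 2 * Real.exp t * (A + 2 * R * P) := by positivity
    have h5 : 4 * R * (1 / 2) ≤ 4 * R * cE w u (ph g t) x := mul_le_mul_of_nonneg_left hg.le (by positivity)
    linarith

/-- The same, in the mean. -/
theorem tf_dif (ha : a = 1 ∨ a = -1) (ht : 0 ≤ t) (hty : t ≤ y) {f f' : X → ℝ} {R : ℝ} (hf : ∀ x, |f x| ≤ R)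
    (hf' : ∀ x, |f' x| ≤ R) (u : X → Y) : gm w (fun x => |tf w (eg g a) u f x - tf w (eg (tr g y) a) u f' x|) ≤
      2 * Real.exp t * (gm w (fun z => eg g a z * |f z - f' z|) + 2 * R * gm w (pb g a y)) + 4 * R * gm w (ph g t) := by
  refine (gm_mn w (tf_difx w ha ht hty hf hf' u)).trans (le_of_eq ?_)
  rw [gm_cEx, gm_ad, gm_sc, gm_ad, gm_sc, gm_sc]

/-- The density against a bounded function. -/
theorem eg_gm (ha : a = 1 ∨ a = -1) {f : X → ℝ} {R : ℝ} (hf : ∀ x, 0 ≤ f x) (hR : ∀ x, f x ≤ R) :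
    gm w (fun z => eg g a z * f z) ≤ Real.exp t * gm w f + R * gm w (pb g a t) := by
  rw [← gm_sc, ← gm_sc, ← gm_ad]
  refine gm_mn w fun z => ?_
  have h1 := mul_le_mul_of_nonneg_right (eg_upp (g := g) (t := t) (x := z) ha) (hf z)
  have h2 := mul_le_mul_of_nonneg_left (hR z) (pb_nonneg (g := g) (a := a) (t := t) (x := z))
  linarith

/-! ### The odd part -/

/-- The total of the bad masses, with the factors of the smaller levels. -/
def Q4 (w g : X → ℝ) (a t1 t2 t3 t4 : ℝ) : ℝ :=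
  Real.exp (t2 + t3 + t4) * gm w (pb g a t1) + Real.exp (t3 + t4) * gm w (pb g a t2) + Real.exp t4 * gm w (pb g a t3) +
    gm w (pb g a t4)

theorem pbg_nonneg (t : ℝ) : 0 ≤ gm w (pb g a t) := gm_ge w fun _ => pb_nonneg

theorem phg_le (t : ℝ) : gm w (ph g t) ≤ gm w (pb g a t) := gm_mn w fun _ => ph_le_pb

theorem Q4_nonneg (t1 t2 t3 t4 : ℝ) : 0 ≤ Q4 w g a t1 t2 t3 t4 := by
  have h1 := pbg_nonneg w (g := g) (a := a) t1
  have h2 := pbg_nonneg w (g := g) (a := a) t2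
  have h3 := pbg_nonneg w (g := g) (a := a) t3
  have h4 := pbg_nonneg w (g := g) (a := a) t4
  unfold Q4
  positivity

theorem sq_dif {a b R : ℝ} (ha : |a| ≤ R / 2) (hb : |b| ≤ R / 2) : |a * a - b * b| ≤ R * |a - b| := by
  have e : a * a - b * b = (a + b) * (a - b) := by ring
  rw [e, abs_mul]
  exact mul_le_mul_of_nonneg_right ((abs_add_le _ _).trans (by linarith)) (abs_nonneg _)

/-- **THE ODD PART WITH THE TRUNCATED KICK.** -/
theorem Mf_dif (hB : ∀ x, |g x| ≤ B / 2) (ha : a = 1 ∨ a = -1) {t1 t2 t3 t4 : ℝ} (h4 : 0 ≤ t4) (h43 : t4 ≤ t3) (h32 : t3 ≤ t2)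
    (h21 : t2 ≤ t1) (h1B : t1 ≤ B) (u : X → Y) (v : X → Z) :
    gm w (fun x => |Mf w a (eg g a) u v x - Mf w a (eg (tr g t1) a) u v x|) ≤ 6 * (1 + B) ^ 2 * Q4 w g a t1 t2 t3 t4 := by
  have B0 : 0 ≤ B := by linarith
  have b1 : ∀ x, Real.exp (-B) ≤ eg g a x := fun x => (eg_bds ha (hB x)).1
  have b2 : ∀ x, eg g a x ≤ Real.exp B := fun x => (eg_bds ha (hB x)).2
  have hy : 0 ≤ t1 := by linarith
  have c1 : ∀ x, Real.exp (-B) ≤ eg (tr g t1) a x := fun x => (eg_bds ha ((tr_abs hy).trans (by linarith))).1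
  have c2 : ∀ x, eg (tr g t1) a x ≤ Real.exp B := fun x => (eg_bds ha ((tr_abs hy).trans (by linarith))).2
  obtain ⟨γ, hγ⟩ : ∃ γ, γ = gf w a (eg g a) v := ⟨_, rfl⟩
  obtain ⟨γ', hγ'⟩ : ∃ γ', γ' = gf w a (eg (tr g t1) a) v := ⟨_, rfl⟩
  have g1 : ∀ x, |γ x| ≤ B / 2 := fun x => hγ ▸ abs_gf w ha b1 b2 v x
  have g2 : ∀ x, |γ' x| ≤ B / 2 := fun x => hγ' ▸ abs_gf w ha c1 c2 v x
  have gg1 : ∀ x, |(γ * γ) x| ≤ B / 2 * (B / 2) := fun x => by
    rw [Pi.mul_apply, abs_mul]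
    exact mul_le_mul (g1 x) (g1 x) (abs_nonneg _) (by positivity)
  have gg2 : ∀ x, |(γ' * γ') x| ≤ B / 2 * (B / 2) := fun x => by
    rw [Pi.mul_apply, abs_mul]
    exact mul_le_mul (g2 x) (g2 x) (abs_nonneg _) (by positivity)
  have sg : ∀ x, |(γ * γ) x - (γ' * γ') x| ≤ B * |γ x - γ' x| := fun x => sq_dif (g1 x) (g2 x)
  obtain ⟨P1, hP1⟩ : ∃ P, P = gm w (pb g a t1) := ⟨_, rfl⟩
  obtain ⟨P2, hP2⟩ : ∃ P, P = gm w (pb g a t2) := ⟨_, rfl⟩
  obtain ⟨P3, hP3⟩ : ∃ P, P = gm w (pb g a t3) := ⟨_, rfl⟩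
  obtain ⟨P4, hP4⟩ : ∃ P, P = gm w (pb g a t4) := ⟨_, rfl⟩
  have p1 : 0 ≤ P1 := hP1 ▸ pbg_nonneg w t1
  have p2 : 0 ≤ P2 := hP2 ▸ pbg_nonneg w t2
  have p3 : 0 ≤ P3 := hP3 ▸ pbg_nonneg w t3
  have p4 : 0 ≤ P4 := hP4 ▸ pbg_nonneg w t4
  obtain ⟨d, hd⟩ : ∃ d, d = gm w (fun x => |γ x - γ' x|) := ⟨_, rfl⟩
  have d0 : 0 ≤ d := hd ▸ gm_ge w fun _ => abs_nonneg _
  -- the responses
  have dle : d ≤ Real.exp t2 * P1 + 2 * B * P2 := by
    have h := gm_mn w (gf_dif w hB ha (by linarith : 0 ≤ t2) h21 h1B v)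
    rw [gm_cEx, gm_ad, gm_sc, gm_sc, ← hγ, ← hγ', ← hd, ← hP1] at h
    have h5 := mul_le_mul_of_nonneg_left (phg_le w (g := g) (a := a) t2) (by positivity : 0 ≤ 2 * B)
    rw [← hP2] at h5
    linarith
  have phP : gm w (ph g t4) ≤ P4 := hP4 ▸ phg_le w t4
  -- the other corner
  have hEd : gm w (fun z => eg g a z * |γ z - γ' z|) ≤ Real.exp t3 * d + B * P3 := by
    rw [hd, hP3]
    exact eg_gm w ha (fun x => abs_nonneg _) fun x => (abs_sub _ _).trans (by linarith [g1 x, g2 x])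
  obtain ⟨D, hD⟩ : ∃ D, D = 2 * Real.exp t4 * ((Real.exp t3 * d + B * P3) + B * P1) + 2 * B * P4 := ⟨_, rfl⟩
  have D0 : 0 ≤ D := by
    rw [hD]
    positivity
  have t1' : gm w (fun x => |tf w (eg g a) u γ x - tf w (eg (tr g t1) a) u γ' x|) ≤ D := by
    have h := tf_dif w (g := g) ha h4 (by linarith : t4 ≤ t1) g1 g2 u
    rw [← hP1] at h
    refine h.trans ?_
    rw [hD]
    have e1 : 2 * (B / 2) * P1 = B * P1 := by ring
    have e2 : 4 * (B / 2) * gm w (ph g t4) = 2 * B * gm w (ph g t4) := by ring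
    rw [e1, e2]
    have h5 := mul_le_mul_of_nonneg_left phP (by positivity : 0 ≤ 2 * B)
    have h6 := mul_le_mul_of_nonneg_left (add_le_add_left hEd (B * P1)) (by positivity : 0 ≤ 2 * Real.exp t4)
    linarith
  have t2' : gm w (fun x => |tf w (eg g a) u (γ * γ) x - tf w (eg (tr g t1) a) u (γ' * γ') x|) ≤ B * D := by
    have h := tf_dif w (g := g) ha h4 (by linarith : t4 ≤ t1) gg1 gg2 u
    rw [← hP1] at h
    refine h.trans ?_
    have h7 : gm w (fun z => eg g a z * |(γ * γ) z - (γ' * γ') z|) ≤ B * gm w (fun z => eg g a z * |γ z - γ' z|) := by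
      rw [← gm_sc]
      refine gm_mn w fun z => ?_
      have := mul_le_mul_of_nonneg_left (sg z) (eg_pos (g := g) (a := a) (x := z)).le
      linarith
    have h8 := h7.trans (mul_le_mul_of_nonneg_left hEd B0)
    have h5 := mul_le_mul_of_nonneg_left phP (by positivity : 0 ≤ 4 * (B / 2 * (B / 2)))
    have h6 := mul_le_mul_of_nonneg_left (add_le_add_left h8 (2 * (B / 2 * (B / 2)) * P1)) (by positivity : 0 ≤ 2 * Real.exp t4)
    have h9 : 0 ≤ Real.exp t4 * (B * (B * P1)) := by positivity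
    have h10 : 0 ≤ B * (B * P4) := by positivity
    rw [hD]
    nlinarith
  have q1 : ∀ x, |tf w (eg g a) u γ x| ≤ B / 2 := fun x => (abs_tf w (fun x => eg_pos) g1 u x).1
  have q2 : ∀ x, |tf w (eg (tr g t1) a) u γ' x| ≤ B / 2 := fun x => (abs_tf w (fun x => eg_pos) g2 u x).1
  have s1 : ∀ x, |cE w u γ x| ≤ B / 2 := fun x => cE_abs_le w u g1 x
  have s2 : ∀ x, |cE w u γ' x| ≤ B / 2 := fun x => cE_abs_le w u g2 x
  have u1 : gm w (fun x => |cE w u γ x - cE w u γ' x|) ≤ d := by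
    rw [hd, ← gm_cEx w u (fun x => |γ x - γ' x|)]
    exact gm_mn w fun x => cE_dif w u (fun z => le_rfl) x
  have u2 : gm w (fun x => |cE w u (γ * γ) x - cE w u (γ' * γ') x|) ≤ B * d := by
    rw [hd, ← gm_sc, ← gm_cEx w u (fun x => B * |γ x - γ' x|)]
    exact gm_mn w fun x => cE_dif w u sg x
  -- the sum
  have pt : ∀ x, |Mf w a (eg g a) u v x - Mf w a (eg (tr g t1) a) u v x| ≤
      (1 / 2 + 1 / 6 * B) * |cE w u γ x - cE w u γ' x| + (1 / 2 + 1 / 6 * B) * |tf w (eg g a) u γ x - tf w (eg (tr g t1) a) u γ' x| +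
        (1 / 6 * |cE w u (γ * γ) x - cE w u (γ' * γ') x| +
          1 / 6 * |tf w (eg g a) u (γ * γ) x - tf w (eg (tr g t1) a) u (γ' * γ') x|) := by
    intro x
    have r1 := sq_dif (s1 x) (s2 x)
    have r2 := sq_dif (q1 x) (q2 x)
    obtain ⟨z1, hz1⟩ : ∃ z, z = cE w u γ x := ⟨_, rfl⟩
    obtain ⟨z2, hz2⟩ : ∃ z, z = cE w u γ' x := ⟨_, rfl⟩
    obtain ⟨z3, hz3⟩ : ∃ z, z = tf w (eg g a) u γ x := ⟨_, rfl⟩
    obtain ⟨z4, hz4⟩ : ∃ z, z = tf w (eg (tr g t1) a) u γ' x := ⟨_, rfl⟩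
    obtain ⟨z5, hz5⟩ : ∃ z, z = cE w u (γ * γ) x := ⟨_, rfl⟩
    obtain ⟨z6, hz6⟩ : ∃ z, z = cE w u (γ' * γ') x := ⟨_, rfl⟩
    obtain ⟨z7, hz7⟩ : ∃ z, z = tf w (eg g a) u (γ * γ) x := ⟨_, rfl⟩
    obtain ⟨z8, hz8⟩ : ∃ z, z = tf w (eg (tr g t1) a) u (γ' * γ') x := ⟨_, rfl⟩
    unfold Mf
    rw [← hγ, ← hγ', ← hz1, ← hz2, ← hz3, ← hz4, ← hz5, ← hz6, ← hz7, ← hz8]
    rw [← hz1, ← hz2] at r1
    rw [← hz3, ← hz4] at r2
    have ha2 : |a / 2| = 1 / 2 := by
      rcases ha with rfl | rfl <;> norm_num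
    have e : a / 2 * (z1 - z3) - 1 / 6 * ((z5 - z1 * z1) + (z7 - z3 * z3)) -
        (a / 2 * (z2 - z4) - 1 / 6 * ((z6 - z2 * z2) + (z8 - z4 * z4))) =
        (a / 2 * ((z1 - z2) - (z3 - z4)) + 1 / 6 * ((z1 * z1 - z2 * z2) + (z3 * z3 - z4 * z4))) -
          1 / 6 * ((z5 - z6) + (z7 - z8)) := by ring
    rw [e]
    refine (abs_sub _ _).trans ?_
    have k1 : |a / 2 * ((z1 - z2) - (z3 - z4)) + 1 / 6 * ((z1 * z1 - z2 * z2) + (z3 * z3 - z4 * z4))| ≤
        1 / 2 * (|z1 - z2| + |z3 - z4|) + 1 / 6 * (B * |z1 - z2| + B * |z3 - z4|) := by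
      refine (abs_add_le _ _).trans (add_le_add ?_ ?_)
      · rw [abs_mul, ha2]
        exact mul_le_mul_of_nonneg_left (abs_sub _ _) (by norm_num)
      · rw [abs_mul, abs_of_pos (by norm_num : (0 : ℝ) < 1 / 6)]
        exact mul_le_mul_of_nonneg_left ((abs_add_le _ _).trans (add_le_add r1 r2)) (by norm_num)
    have k2 : |1 / 6 * ((z5 - z6) + (z7 - z8))| ≤ 1 / 6 * (|z5 - z6| + |z7 - z8|) := by
      rw [abs_mul, abs_of_pos (by norm_num : (0 : ℝ) < 1 / 6)]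
      exact mul_le_mul_of_nonneg_left (abs_add_le _ _) (by norm_num)
    linarith
  have hfin := gm_mn w pt
  rw [gm_ad, gm_ad, gm_ad, gm_sc, gm_sc, gm_sc, gm_sc] at hfin
  refine hfin.trans ?_
  have m1 := mul_le_mul_of_nonneg_left u1 (by positivity : 0 ≤ 1 / 2 + 1 / 6 * B)
  have m2 := mul_le_mul_of_nonneg_left t1' (by positivity : 0 ≤ 1 / 2 + 1 / 6 * B)
  have hs : (1 / 2 + 1 / 6 * B) * d + (1 / 2 + 1 / 6 * B) * D + (1 / 6 * (B * d) + 1 / 6 * (B * D)) ≤ (1 + B) * (d + D) := by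
    have : 0 ≤ B * d := by positivity
    have : 0 ≤ B * D := by positivity
    nlinarith
  have hq : d + D ≤ 6 * (1 + B) * Q4 w g a t1 t2 t3 t4 := by
    obtain ⟨x2, hx2⟩ : ∃ z, z = Real.exp t2 := ⟨_, rfl⟩
    obtain ⟨x3, hx3⟩ : ∃ z, z = Real.exp t3 := ⟨_, rfl⟩
    obtain ⟨x4, hx4⟩ : ∃ z, z = Real.exp t4 := ⟨_, rfl⟩
    have y2 : 1 ≤ x2 := hx2 ▸ Real.one_le_exp (by linarith)
    have y3 : 1 ≤ x3 := hx3 ▸ Real.one_le_exp (by linarith)
    have y4 : 1 ≤ x4 := hx4 ▸ Real.one_le_exp h4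
    have eQ : Q4 w g a t1 t2 t3 t4 = x2 * x3 * x4 * P1 + x3 * x4 * P2 + x4 * P3 + P4 := by
      unfold Q4
      rw [Real.exp_add, Real.exp_add, Real.exp_add, hx2, hx3, hx4, hP1, hP2, hP3, hP4]
    rw [← hx2] at dle
    rw [← hx3, ← hx4] at hD
    rw [eQ, hD]
    have z1 : 1 ≤ x3 * x4 := one_le_mul_of_one_le_of_one_le y3 y4
    have z2 : d ≤ x3 * x4 * d := le_mul_of_one_le_left d0 z1
    have z3 : x3 * x4 * d ≤ x3 * x4 * (x2 * P1 + 2 * B * P2) := mul_le_mul_of_nonneg_left dle (by positivity)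
    have z4 : x4 * P1 ≤ x2 * x3 * x4 * P1 := by
      have : 1 ≤ x2 * x3 := one_le_mul_of_one_le_of_one_le y2 y3
      have := mul_le_mul_of_nonneg_right this (by positivity : 0 ≤ x4 * P1)
      linarith
    have z5 : 0 ≤ x3 * x4 * P2 := by positivity
    have z6 : 0 ≤ x4 * P3 := by positivity
    have z7 : 0 ≤ B * (x2 * x3 * x4 * P1) := by positivity
    have z8 : B * (x4 * P1) ≤ B * (x2 * x3 * x4 * P1) := mul_le_mul_of_nonneg_left z4 B0
    have z9 : 0 ≤ B * (x4 * P3) := by positivity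
    have z10 : 0 ≤ B * P4 := by positivity
    have z11 : 0 ≤ x2 * x3 * x4 * P1 := by positivity
    nlinarith
  have hq2 := mul_le_mul_of_nonneg_left hq (by positivity : 0 ≤ 1 + B)
  have e1 : (1 + B) * (6 * (1 + B) * Q4 w g a t1 t2 t3 t4) = 6 * (1 + B) ^ 2 * Q4 w g a t1 t2 t3 t4 := by ring
  linarith

/-! ### The distance -/

/-- The distance of both corners, from the density. -/
def tv1 (w E : X → ℝ) (u : X → Y) : ℝ := gm w fun x => |cE w u E x / gm w E - 1|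

theorem tvc_eq (a : ℝ) (u : X → Y) : tvc w ((-2 * a) • g) u = tv1 w (eg g a) u := rfl

theorem tv_dif (ha : a = 1 ∨ a = -1) (ht : 0 ≤ t) (hty : t ≤ y) {θ : ℝ} (hθ : 0 < θ) (u : X → Y) :
    |ct θ (tv1 w (eg g a) u) - ct θ (tv1 w (eg (tr g y) a) u)| ≤ θ⁻¹ * (4 * Real.exp t * gm w (pb g a y)) + 2 * gm w (ph g t) := by
  have hy : 0 ≤ y := ht.trans hty
  obtain ⟨x0⟩ := (inferInstance : Nonempty X)
  have p0 := pbg_nonneg w (g := g) (a := a) y
  have i0 := inv_pos.2 hθ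
  have f0 : 0 ≤ gm w (ph g t) := gm_ge w fun _ => ph_nonneg
  by_cases hg : gm w (ph g t) ≤ 1 / 2
  · have m1 : Real.exp (-t) / 2 ≤ gm w (eg g a) := by
      have h := good_low w (fun _ : X => ()) (fun x => eg_low (g := g) (t := t) (x := x) ha) (x := x0) (by rwa [gm_eq_cE])
      rwa [gm_eq_cE] at h
    obtain ⟨z, hz⟩ : ∃ z, z = gm w (eg g a) := ⟨_, rfl⟩
    obtain ⟨z', hz'⟩ : ∃ z, z = gm w (eg (tr g y) a) := ⟨_, rfl⟩
    have z0 : 0 < z := hz ▸ gm_ex_pos w _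
    have z0' : 0 < z' := hz' ▸ gm_ex_pos w _
    have dz : |z' - z| ≤ gm w (pb g a y) := by
      rw [hz, hz', ← gm_sb]
      refine (gm_ab w _).trans (gm_mn w fun x => ?_)
      rw [abs_sub_comm]
      exact eg_dif hy
    have h1 : |tv1 w (eg g a) u - tv1 w (eg (tr g y) a) u| ≤ 4 * Real.exp t * gm w (pb g a y) := by
      unfold tv1
      rw [← hz, ← hz', ← gm_sb]
      refine (gm_ab w _).trans ?_
      have pt : ∀ x, |(|cE w u (eg g a) x / z - 1| - |cE w u (eg (tr g y) a) x / z' - 1|)| ≤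
          z⁻¹ * (cE w u (pb g a y) x + gm w (pb g a y) * z'⁻¹ * cE w u (eg (tr g y) a) x) := by
        intro x
        have c0 : 0 < cE w u (eg (tr g y) a) x := cE_ex_pos w _ u x
        have dD : |cE w u (eg g a) x - cE w u (eg (tr g y) a) x| ≤ cE w u (pb g a y) x := cE_dif w u (fun x => eg_dif hy) x
        refine (abs_abs_sub_abs_le _ _).trans ?_
        have e : cE w u (eg g a) x / z - 1 - (cE w u (eg (tr g y) a) x / z' - 1) =
            z⁻¹ * ((cE w u (eg g a) x - cE w u (eg (tr g y) a) x) + (z' - z) * z'⁻¹ * cE w u (eg (tr g y) a) x) := by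
          field_simp
          ring
        rw [e, abs_mul, abs_of_pos (inv_pos.2 z0)]
        refine mul_le_mul_of_nonneg_left ((abs_add_le _ _).trans (add_le_add dD ?_)) (inv_pos.2 z0).le
        rw [abs_mul, abs_mul, abs_of_pos c0, abs_of_pos (inv_pos.2 z0')]
        exact mul_le_mul_of_nonneg_right (mul_le_mul_of_nonneg_right dz (inv_pos.2 z0').le) c0.le
      refine (gm_mn w pt).trans ?_
      rw [gm_sc, gm_ad, gm_cEx, gm_sc, gm_cEx, ← hz', mul_assoc, inv_mul_cancel₀ z0'.ne', mul_one]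
      have i1 : z⁻¹ ≤ 2 * Real.exp t := by
        rw [← inv_half_exp, hz]
        exact inv_anti₀ (by positivity) m1
      have := mul_le_mul_of_nonneg_right i1 (by linarith : 0 ≤ gm w (pb g a y) + gm w (pb g a y))
      linarith
    have h2 := (ct_lip hθ (tv1 w (eg g a) u) (tv1 w (eg (tr g y) a) u)).trans (mul_le_mul_of_nonneg_left h1 i0.le)
    linarith
  · push Not at hg
    have a1 := ct_nonneg θ (tv1 w (eg g a) u)
    have a2 := ct_le_one θ (tv1 w (eg g a) u)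
    have a3 := ct_nonneg θ (tv1 w (eg (tr g y) a) u)
    have a4 := ct_le_one θ (tv1 w (eg (tr g y) a) u)
    have h1 : |ct θ (tv1 w (eg g a) u) - ct θ (tv1 w (eg (tr g y) a) u)| ≤ 1 := by
      rw [abs_le]
      constructor <;> linarith
    have h2 : 0 ≤ θ⁻¹ * (4 * Real.exp t * gm w (pb g a y)) := by positivity
    linarith

/-! ### The other corner -/

theorem pb_corner (t : ℝ) : gm (w + (-2 * a) • g) (pb g (-a) t) = gm w (pb g a t) / gm w (eg g a) := by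
  rw [gm_tiltf]
  congr 2
  funext x
  rw [Pi.mul_apply]
  show eg g a x * ((1 + eg g (-a) x) * ph g t x) = (1 + eg g a x) * ph g t x
  have e : eg g a x * eg g (-a) x = 1 := by
    rw [eg_apply, eg_apply, ← Real.exp_add]
    have : -2 * a * g x + -2 * -a * g x = 0 := by ring
    rw [this, Real.exp_zero]
  calc _ = (eg g a x + eg g a x * eg g (-a) x) * ph g t x := by ring
    _ = _ := by rw [e, add_comm]

/-- **The bad masses at the other corner.** -/
theorem Q4_corner (ha : a = 1 ∨ a = -1) {t5 : ℝ} (hg : gm w (ph g t5) ≤ 1 / 2) (t1 t2 t3 t4 : ℝ) :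
    Q4 (w + (-2 * a) • g) g (-a) t1 t2 t3 t4 ≤ 2 * Real.exp t5 * Q4 w g a t1 t2 t3 t4 := by
  obtain ⟨x0⟩ := (inferInstance : Nonempty X)
  have m1 : Real.exp (-t5) / 2 ≤ gm w (eg g a) := by
    have h := good_low w (fun _ : X => ()) (fun x => eg_low (g := g) (t := t5) (x := x) ha) (x := x0) (by rwa [gm_eq_cE])
    rwa [gm_eq_cE] at h
  have z0 : 0 < gm w (eg g a) := gm_ex_pos w _
  have e : Q4 (w + (-2 * a) • g) g (-a) t1 t2 t3 t4 = (gm w (eg g a))⁻¹ * Q4 w g a t1 t2 t3 t4 := by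
    unfold Q4
    rw [pb_corner, pb_corner, pb_corner, pb_corner]
    ring
  rw [e]
  refine mul_le_mul_of_nonneg_right ?_ (Q4_nonneg w _ _ _ _)
  rw [← inv_half_exp]
  exact inv_anti₀ (by positivity) m1

/-! ### Both functionals -/

/-- The bound of the odd part. -/
theorem abs_Mf (ha : a = 1 ∨ a = -1) {E : X → ℝ} (h1 : ∀ x, Real.exp (-B) ≤ E x) (h2 : ∀ x, E x ≤ Real.exp B) (u : X → Y) (v : X → Z)
    (x : X) : |Mf w a E u v x| ≤ (1 + B) ^ 2 := by
  have E0 : ∀ x, 0 < E x := fun x => (Real.exp_pos _).trans_le (h1 x)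
  obtain ⟨γ, hγ⟩ : ∃ γ, γ = gf w a E v := ⟨_, rfl⟩
  have g1 : ∀ x, |γ x| ≤ B / 2 := fun x => hγ ▸ abs_gf w ha h1 h2 v x
  have B0 : 0 ≤ B := by linarith [(abs_nonneg _).trans (g1 x)]
  have gg1 : ∀ x, |(γ * γ) x| ≤ B / 2 * (B / 2) := fun x => by
    rw [Pi.mul_apply, abs_mul]
    exact mul_le_mul (g1 x) (g1 x) (abs_nonneg _) (by positivity)
  have q1 := (abs_tf w E0 g1 u x).1
  have q2 := (abs_tf w E0 gg1 u x).1
  have q3 := cE_abs_le w u g1 x
  have q4 := cE_abs_le w u gg1 x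
  unfold Mf
  rw [← hγ]
  obtain ⟨z1, hz1⟩ : ∃ z, z = cE w u γ x := ⟨_, rfl⟩
  obtain ⟨z3, hz3⟩ : ∃ z, z = tf w E u γ x := ⟨_, rfl⟩
  rw [← hz1] at q3 ⊢
  rw [← hz3] at q1 ⊢
  have s1 : |z1 * z1| ≤ B / 2 * (B / 2) := by
    rw [abs_mul]
    exact mul_le_mul q3 q3 (abs_nonneg _) (by positivity)
  have s3 : |z3 * z3| ≤ B / 2 * (B / 2) := by
    rw [abs_mul]
    exact mul_le_mul q1 q1 (abs_nonneg _) (by positivity)
  have ha2 : |a / 2| = 1 / 2 := by
    rcases ha with rfl | rfl <;> norm_num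
  refine (abs_sub _ _).trans ?_
  have k1 : |a / 2 * (z1 - z3)| ≤ 1 / 2 * B := by
    rw [abs_mul, ha2]
    exact mul_le_mul_of_nonneg_left ((abs_sub _ _).trans (by linarith)) (by norm_num)
  have k2 : |1 / 6 * ((cE w u (γ * γ) x - z1 * z1) + (tf w E u (γ * γ) x - z3 * z3))| ≤ 1 / 6 * (4 * (B / 2 * (B / 2))) := by
    rw [abs_mul, abs_of_pos (by norm_num : (0 : ℝ) < 1 / 6)]
    refine mul_le_mul_of_nonneg_left ?_ (by norm_num)
    refine (abs_add_le _ _).trans ?_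
    have := abs_sub (cE w u (γ * γ) x) (z1 * z1)
    have := abs_sub (tf w E u (γ * γ) x) (z3 * z3)
    linarith
  nlinarith

/-- **One corner**: both functionals with the truncated kick. -/
theorem one70 (hB : ∀ x, |g x| ≤ B / 2) (ha : a = 1 ∨ a = -1) {t1 t2 t3 t4 : ℝ} (h4 : 0 ≤ t4) (h43 : t4 ≤ t3) (h32 : t3 ≤ t2)
    (h21 : t2 ≤ t1) (h1B : t1 ≤ B) (u : X → Y) (v : X → Z) {F : X → ℝ} {KY : ℝ} (hF : ∀ x, |F x| ≤ KY) :
    |gm w (fun x => Mf w a (eg g a) u v x * F x) - gm w (fun x => Mf w a (eg (tr g t1) a) u v x * F x)| ≤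
      10 * (1 + B) ^ 2 * KY * Q4 w g a t1 t2 t3 t4 ∧
    |ct (Real.exp (-t4)) (tv1 w (eg g a) u) * gm w (fun x => |Mf w a (eg g a) u v x * F x|) -
      ct (Real.exp (-t4)) (tv1 w (eg (tr g t1) a) u) * gm w (fun x => |Mf w a (eg (tr g t1) a) u v x * F x|)| ≤
      10 * (1 + B) ^ 2 * KY * Q4 w g a t1 t2 t3 t4 := by
  obtain ⟨x0⟩ := (inferInstance : Nonempty X)
  have B0 : 0 ≤ B := by linarith
  have K0 : 0 ≤ KY := (abs_nonneg _).trans (hF x0)
  have b1 : ∀ x, Real.exp (-B) ≤ eg g a x := fun x => (eg_bds ha (hB x)).1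
  have b2 : ∀ x, eg g a x ≤ Real.exp B := fun x => (eg_bds ha (hB x)).2
  have hM := Mf_dif w hB ha h4 h43 h32 h21 h1B u v
  have Q0 := Q4_nonneg w (g := g) (a := a) t1 t2 t3 t4
  obtain ⟨M, hMd⟩ : ∃ M, M = Mf w a (eg g a) u v := ⟨_, rfl⟩
  obtain ⟨M', hMd'⟩ : ∃ M, M = Mf w a (eg (tr g t1) a) u v := ⟨_, rfl⟩
  have bM : ∀ x, |M x| ≤ (1 + B) ^ 2 := fun x => hMd ▸ abs_Mf w ha b1 b2 u v x
  rw [← hMd, ← hMd'] at hM
  rw [← hMd, ← hMd']
  have k1 : gm w (fun x => |M x * F x - M' x * F x|) ≤ KY * (6 * (1 + B) ^ 2 * Q4 w g a t1 t2 t3 t4) := by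
    refine le_trans ?_ (mul_le_mul_of_nonneg_left hM K0)
    rw [← gm_sc]
    refine gm_mn w fun x => ?_
    rw [← sub_mul, abs_mul, mul_comm]
    exact mul_le_mul_of_nonneg_right (hF x) (abs_nonneg _)
  have r0 : 0 ≤ (1 + B) ^ 2 * KY * Q4 w g a t1 t2 t3 t4 := by positivity
  constructor
  · rw [← gm_sb]
    refine (gm_ab w _).trans (k1.trans ?_)
    linarith
  · have k2 : |gm w (fun x => |M x * F x|) - gm w (fun x => |M' x * F x|)| ≤ KY * (6 * (1 + B) ^ 2 * Q4 w g a t1 t2 t3 t4) := by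
      rw [← gm_sb]
      refine (gm_ab w _).trans (le_trans (gm_mn w fun x => ?_) k1)
      exact abs_abs_sub_abs_le _ _
    have k3 : |gm w (fun x => |M x * F x|)| ≤ (1 + B) ^ 2 * KY := by
      rw [abs_of_nonneg (gm_ge w fun _ => abs_nonneg _)]
      refine gm_le w fun x => ?_
      rw [abs_mul]
      exact mul_le_mul (bM x) (hF x) (abs_nonneg _) (by positivity)
    have k4 := tv_dif w (g := g) ha h4 (by linarith : t4 ≤ t1) (Real.exp_pos (-t4)) u
    have k5 : (Real.exp (-t4))⁻¹ * (4 * Real.exp t4 * gm w (pb g a t1)) + 2 * gm w (ph g t4) ≤ 4 * Q4 w g a t1 t2 t3 t4 := by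
      have p1 := pbg_nonneg w (g := g) (a := a) t1
      have p2 := pbg_nonneg w (g := g) (a := a) t2
      have p3 := pbg_nonneg w (g := g) (a := a) t3
      have p4 := phg_le w (g := g) (a := a) t4
      have p5 := pbg_nonneg w (g := g) (a := a) t4
      have e1 : (Real.exp (-t4))⁻¹ * (4 * Real.exp t4 * gm w (pb g a t1)) = 4 * (Real.exp (t4 + t4) * gm w (pb g a t1)) := by
        rw [← Real.exp_neg, neg_neg, Real.exp_add]
        ring
      have e2 : Real.exp (t4 + t4) ≤ Real.exp (t2 + t3 + t4) := Real.exp_le_exp.2 (by linarith)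
      have e3 := mul_le_mul_of_nonneg_right e2 p1
      have e4 : 0 ≤ Real.exp (t3 + t4) * gm w (pb g a t2) := by positivity
      have e5 : 0 ≤ Real.exp t4 * gm w (pb g a t3) := by positivity
      rw [e1]
      unfold Q4
      linarith
    obtain ⟨c, hc⟩ : ∃ c, c = ct (Real.exp (-t4)) (tv1 w (eg g a) u) := ⟨_, rfl⟩
    obtain ⟨c', hc'⟩ : ∃ c, c = ct (Real.exp (-t4)) (tv1 w (eg (tr g t1) a) u) := ⟨_, rfl⟩
    have c0 : |c'| ≤ 1 := by
      rw [hc', abs_of_nonneg (ct_nonneg _ _)]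
      exact ct_le_one _ _
    rw [← hc, ← hc'] at k4 ⊢
    obtain ⟨m, hm⟩ : ∃ m, m = gm w (fun x => |M x * F x|) := ⟨_, rfl⟩
    obtain ⟨m', hm'⟩ : ∃ m, m = gm w (fun x => |M' x * F x|) := ⟨_, rfl⟩
    rw [← hm, ← hm'] at k2 ⊢
    rw [← hm] at k3
    have e : c * m - c' * m' = (c - c') * m + c' * (m - m') := by ring
    rw [e]
    refine (abs_add_le _ _).trans ?_
    rw [abs_mul, abs_mul]
    have l1 := mul_le_mul (k4.trans k5) k3 (abs_nonneg _) (by positivity)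
    have l2 := mul_le_mul c0 k2 (abs_nonneg _) zero_le_one
    linarith

/-- The same, bounded. -/
theorem one70m (hB : ∀ x, |g x| ≤ B / 2) (ha : a = 1 ∨ a = -1) {t1 t2 t3 t4 : ℝ} (h4 : 0 ≤ t4) (h43 : t4 ≤ t3) (h32 : t3 ≤ t2)
    (h21 : t2 ≤ t1) (h1B : t1 ≤ B) (u : X → Y) (v : X → Z) {F : X → ℝ} {KY : ℝ} (hF : ∀ x, |F x| ≤ KY) :
    |gm w (fun x => Mf w a (eg g a) u v x * F x) - gm w (fun x => Mf w a (eg (tr g t1) a) u v x * F x)| ≤
      10 * (1 + B) ^ 2 * KY * min 1 (Q4 w g a t1 t2 t3 t4) ∧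
    |ct (Real.exp (-t4)) (tv1 w (eg g a) u) * gm w (fun x => |Mf w a (eg g a) u v x * F x|) -
      ct (Real.exp (-t4)) (tv1 w (eg (tr g t1) a) u) * gm w (fun x => |Mf w a (eg (tr g t1) a) u v x * F x|)| ≤
      10 * (1 + B) ^ 2 * KY * min 1 (Q4 w g a t1 t2 t3 t4) := by
  obtain ⟨x0⟩ := (inferInstance : Nonempty X)
  have B0 : 0 ≤ B := by linarith
  have K0 : 0 ≤ KY := (abs_nonneg _).trans (hF x0)
  have hy : 0 ≤ t1 := by linarith
  have b1 : ∀ x, Real.exp (-B) ≤ eg g a x := fun x => (eg_bds ha (hB x)).1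
  have b2 : ∀ x, eg g a x ≤ Real.exp B := fun x => (eg_bds ha (hB x)).2
  have c1 : ∀ x, Real.exp (-B) ≤ eg (tr g t1) a x := fun x => (eg_bds ha ((tr_abs hy).trans (by linarith))).1
  have c2 : ∀ x, eg (tr g t1) a x ≤ Real.exp B := fun x => (eg_bds ha ((tr_abs hy).trans (by linarith))).2
  obtain ⟨h1, h2⟩ := one70 w hB ha h4 h43 h32 h21 h1B u v hF
  have r0 : 0 ≤ (1 + B) ^ 2 * KY := by positivity
  have bd : ∀ {E : X → ℝ}, (∀ x, Real.exp (-B) ≤ E x) → (∀ x, E x ≤ Real.exp B) →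
      |gm w (fun x => Mf w a E u v x * F x)| ≤ (1 + B) ^ 2 * KY ∧ 0 ≤ gm w (fun x => |Mf w a E u v x * F x|) ∧
        gm w (fun x => |Mf w a E u v x * F x|) ≤ (1 + B) ^ 2 * KY := fun {E} e1 e2 => by
    have h3 : gm w (fun x => |Mf w a E u v x * F x|) ≤ (1 + B) ^ 2 * KY := by
      refine gm_le w fun x => ?_
      rw [abs_mul]
      exact mul_le_mul (abs_Mf w ha e1 e2 u v x) (hF x) (abs_nonneg _) (by positivity)
    exact ⟨(gm_ab w _).trans h3, gm_ge w fun _ => abs_nonneg _, h3⟩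
  obtain ⟨x1, x2, x3⟩ := bd b1 b2
  obtain ⟨y1, y2, y3⟩ := bd c1 c2
  have fin : ∀ {D : ℝ}, D ≤ 2 * ((1 + B) ^ 2 * KY) → D ≤ 10 * (1 + B) ^ 2 * KY * Q4 w g a t1 t2 t3 t4 →
      D ≤ 10 * (1 + B) ^ 2 * KY * min 1 (Q4 w g a t1 t2 t3 t4) := fun d1 d2 => by
    rcases min_choice 1 (Q4 w g a t1 t2 t3 t4) with h | h
    · rw [h]
      linarith
    · rw [h]
      exact d2
  refine ⟨fin ?_ h1, fin ?_ h2⟩
  · refine (abs_sub _ _).trans ?_
    linarith
  · obtain ⟨c, hc⟩ : ∃ c, c = ct (Real.exp (-t4)) (tv1 w (eg g a) u) := ⟨_, rfl⟩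
    obtain ⟨c', hc'⟩ : ∃ c, c = ct (Real.exp (-t4)) (tv1 w (eg (tr g t1) a) u) := ⟨_, rfl⟩
    have a1 : 0 ≤ c := hc ▸ ct_nonneg _ _
    have a2 : c ≤ 1 := hc ▸ ct_le_one _ _
    have a3 : 0 ≤ c' := hc' ▸ ct_nonneg _ _
    have a4 : c' ≤ 1 := hc' ▸ ct_le_one _ _
    rw [← hc, ← hc']
    obtain ⟨m, hm⟩ : ∃ m, m = gm w (fun x => |Mf w a (eg g a) u v x * F x|) := ⟨_, rfl⟩
    obtain ⟨m', hm'⟩ : ∃ m, m = gm w (fun x => |Mf w a (eg (tr g t1) a) u v x * F x|) := ⟨_, rfl⟩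
    rw [← hm] at x2 x3 ⊢
    rw [← hm'] at y2 y3 ⊢
    have l1 : c * m ≤ 1 * ((1 + B) ^ 2 * KY) := mul_le_mul a2 x3 x2 zero_le_one
    have l2 : c' * m' ≤ 1 * ((1 + B) ^ 2 * KY) := mul_le_mul a4 y3 y2 zero_le_one
    have l3 : 0 ≤ c * m := mul_nonneg a1 x2
    have l4 : 0 ≤ c' * m' := mul_nonneg a3 y2
    rw [abs_le]
    constructor <;> linarith

/-- All bad masses, both corners. -/
def Q5 (w g : X → ℝ) (a t1 t2 t3 t4 t5 : ℝ) : ℝ := Real.exp t5 * Q4 w g a t1 t2 t3 t4 + gm w (pb g a t5)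

theorem min_Q4_Q5 {t5 : ℝ} (h5 : 0 ≤ t5) (t1 t2 t3 t4 : ℝ) :
    min 1 (Q4 w g a t1 t2 t3 t4) ≤ min 1 (2 * Q5 w g a t1 t2 t3 t4 t5) := by
  have h1 := Q4_nonneg w (g := g) (a := a) t1 t2 t3 t4
  have h2 := pbg_nonneg w (g := g) (a := a) t5
  have h3 := mul_le_mul_of_nonneg_right (Real.one_le_exp h5) h1
  refine min_le_min le_rfl ?_
  unfold Q5
  linarith

theorem min_Q4_corner (ha : a = 1 ∨ a = -1) {t5 : ℝ} (t1 t2 t3 t4 : ℝ) :
    min 1 (Q4 (w + (-2 * a) • g) g (-a) t1 t2 t3 t4) ≤ min 1 (2 * Q5 w g a t1 t2 t3 t4 t5) := by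
  have h1 := Q4_nonneg w (g := g) (a := a) t1 t2 t3 t4
  have h2 := pbg_nonneg w (g := g) (a := a) t5
  have h3 := mul_nonneg (Real.exp_pos t5).le h1
  by_cases hg : gm w (ph g t5) ≤ 1 / 2
  · refine min_le_min le_rfl ((Q4_corner w ha hg t1 t2 t3 t4).trans ?_)
    unfold Q5
    linarith
  · push Not at hg
    have h4 := phg_le w (g := g) (a := a) t5
    refine (min_le_left _ _).trans (le_min le_rfl ?_)
    unfold Q5
    linarith

end Cond

end

end Pool.W7d29a1.C0.MM70
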