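import Pool.Agent.W_7d29a1_C0.PrI46

/-!
MP_7d29a1_pr, [CURV0], leaf E5 (helper36): THE CLOSING OF `MB`. `Row70`: what the row estimate of `sr * M5e` delivers at the frame (helper70:
both corners, events of ties); `xx36`: the product of the two ties of a row; `rowN36`: `RowN23` for `k = 2` from `Row70` and from the price
`Pr46` of the line `avF (|D| xx36)`; `mB36`: `MB`.
-/

set_option autoImplicit false
set_option linter.unusedSectionVars false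

namespace Pool.Agent.W_7d29a1_C0.MRow36

open Finset MeasureTheory Filter Topology
open Pool.Agent.W_7d29a1_F Pool.Agent.W_7d29a1_X
open Pool.Agent.W_7d29a1_H (EE EE_pos one_le_EE)
open Pool.Agent.W_7d29a1_HS (In wd)
open Pool.Agent.W_7d29a1_C0 Pool.Agent.W_7d29a1_C0.Mod92 Pool.Agent.W_7d29a1_C0.Asm96 Pool.Agent.W_7d29a1_C0.N38
open Pool.Agent.W_7d29a1_C0.NTop23 Pool.Agent.W_7d29a1_C0.Flip61 Pool.Agent.W_7d29a1_C0.Pr46
open Pool.Agent.W_7d29a1_C0.Frm33 Pool.Agent.W_7d29a1_C0.Sz23 Pool.Agent.W_7d29a1_C0.Base5 Pool.W7d29a1.C0.S1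
open Pool.Agent.W_7d29a1_C0.Par92 (Est Sml)
open Pool.W7d29a1.C0 (gz gm gz_pos gz_ne gm_nonneg gm_mono gm_const)
open Pool.W7d29a1.C0.VT31 (Mp Crs)
open Pool.W7d29a1.C0.Ps33

noncomputable section

/-! ### The inputs -/

/-- The product of the two ties of the row `j` of `M5e`: inside of the window, and outside for free replicas. -/
def xx36 (μ : Measure ℝ) (s : ℝ) (F : Frm96) (m p p' : ℕ) (M : ℝ) (y : ℕ) (ω : Env × Finset ℕ) (j : ℕ) (S : Px (Pn (F.L m) y)) : ℝ :=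
  tI (wm μ s (F.L m) (Pn (F.L m) y) ω) (pW (2 ^ p') j) (j - 2 ^ p) (j - F.b0 m p) (j + F.b0 m p) (j + 2 ^ p) M S *
    tI (wm μ s (F.L m) (Pn (F.L m) y) ω) (pJ 0 (F.L m)) (j - 2 ^ p') (j - F.b0 m p) (j + F.b0 m p) (j + 2 ^ p') M S

/-- **The row estimate of `sr * M5e`** (helper70), for every passenger `Yf` of the row. -/
def Row70 (μ : Measure ℝ) (s : ℝ) (F : Frm96) (E : ℕ → ℝ) (Θ δ c η A M : ℝ) (m : ℕ) : Prop :=
  ∀ p p' q i : ℕ, Chg96 E Θ δ c η m p p' q → i < 2 ^ (m - q) → ∀ j ∈ Rw (F.R m) (i * 2 ^ q) ((i + 1) * 2 ^ q),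
    ∀ (Yf : (y : ℕ) → Env × Finset ℕ → Px (Pn (F.L m) y) → ℝ) (KY : ℝ), Cov1 (F.L m) (2 ^ p') j Yf KY →
    avF μ s F m (fun y ω S => sr ω.2 j * M5e μ s (F.L m) (Pn (F.L m) y) F.dl (F.B m) (F.b0 m p) (2 ^ p) (2 ^ p') ω j S * Yf y ω S) ≤
      2 * (1 + F.B m) ^ 2 * avF μ s F m (fun y ω S => |Yf y ω S| * xx36 μ s F m p p' M y ω j S) +
        (1 + KY) * ((2 ^ m : ℕ) : ℝ) ^ (-A)

/-- The line of the two ties. -/
def ln36 (μ : Measure ℝ) (s : ℝ) (F : Frm96) (m p p' : ℕ) (M : ℝ) : ℝ → ℕ → Wt46 F m → ℝ := fun _ j D =>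
  avF μ s F m fun y ω S => |D y ω S| * xx36 μ s F m p p' M y ω j S

variable {μ : Measure ℝ} {s : ℝ}

/-! ### The end -/

/-- The numbers. -/
theorem num36 {x : ℝ} (hx : 0 < x) : Est fun _ β _ m => 2 ≤ ((2 ^ m : ℕ) : ℝ) ∧ 2 * (1 + B33 β m) ^ 2 ≤ ((2 ^ m : ℕ) : ℝ) ^ x ∧
    1 + K5 (B33 β m) ≤ ((2 ^ m : ℕ) : ℝ) := by
  refine Sml.of fun ι _ => ⟨min (x / 4) (1 / 8), lt_min (by positivity) (by norm_num), fun β hβ hβ' => Sml.of fun γ _ => ?_⟩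
  have hb1 := hβ'.trans (min_le_left _ _)
  have hb2 := hβ'.trans (min_le_right _ _)
  filter_upwards [ev_n (show 0 < x / 2 by positivity) 8, ev_n (show (0 : ℝ) < 1 / 2 by norm_num) 200] with m h1 h2
  have hB : B33 β m = ((2 ^ m : ℕ) : ℝ) ^ β := rfl
  obtain ⟨n, hn⟩ : ∃ n : ℝ, n = ((2 ^ m : ℕ) : ℝ) := ⟨_, rfl⟩
  rw [hB]
  have hn1 : 1 ≤ n := hn ▸ n_ge1 m
  rw [← hn] at h1 h2 ⊢
  have hn0 : 0 < n := by linarith
  obtain ⟨t, ht⟩ : ∃ t : ℝ, t = n ^ β := ⟨_, rfl⟩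
  rw [← ht]
  have ht1 : 1 ≤ t := ht ▸ Real.one_le_rpow hn1 hβ.le
  have hpw : ∀ k : ℕ, t ^ k = n ^ (β * k) := fun k => by rw [ht, ← Real.rpow_natCast, ← Real.rpow_mul hn0.le]
  have hsq : n ^ (1 / 2 : ℝ) * n ^ (1 / 2 : ℝ) = n := by
    rw [← Real.rpow_add hn0]
    norm_num
  have hxx : n ^ (x / 2) * n ^ (x / 2) = n ^ x := by
    rw [← Real.rpow_add hn0]
    congr 1
    ring
  have ht2 : t ^ 2 ≤ n ^ (x / 2) := by
    rw [hpw]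
    refine Real.rpow_le_rpow_of_exponent_le hn1 ?_
    push_cast
    linarith
  have ht3 : t ^ 3 ≤ n ^ (1 / 2 : ℝ) := by
    rw [hpw]
    refine Real.rpow_le_rpow_of_exponent_le hn1 ?_
    push_cast
    linarith
  have h13 : 1 ≤ t ^ 3 := one_le_pow₀ ht1
  have e1 : 1 + t ≤ 2 * t := by linarith
  have e2 : (1 + t) ^ 2 ≤ 4 * t ^ 2 := by nlinarith
  have e3 : (1 + t) ^ 3 ≤ 8 * t ^ 3 := (pow_le_pow_left₀ (by linarith) e1 3).trans (le_of_eq (by ring))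
  refine ⟨?_, ?_, ?_⟩
  · nlinarith
  · calc 2 * (1 + t) ^ 2 ≤ 8 * t ^ 2 := by linarith
      _ ≤ n ^ (x / 2) * n ^ (x / 2) := mul_le_mul h1 ht2 (by positivity) (by positivity)
      _ = n ^ x := hxx
  · unfold K5
    nlinarith

variable {K : ℕ} {Θ δ c η : ℝ}

/-- **`RowN23` FOR `k = 2`** from the row estimate and from the price of the line of the two ties. -/
theorem rowN36 [IsProbabilityMeasure μ] {c₁ C : ℝ} {n₀ : ℕ} (h : In μ s c₁ C n₀) (hk : KapLe96 (EE μ s) (1 / 4)) (hK : 32 ≤ K)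
    (hΘ : 0 < Θ) (hδ : 0 < δ) (hc : 0 < c) (hcδ : c ≤ δ / 64) (hη : 0 ≤ η) {x : ℝ} (hx : 0 < x) {Mf : ℝ → ℕ → ℝ}
    (Ha : Est fun ι β γ m => Row70 μ s (frm33 μ s K ι β γ) (EE μ s) Θ δ c η 5 (Mf β m) m)
    (Hb : Est fun ι β γ m => ∀ p p' q i : ℕ, Chg96 (EE μ s) Θ δ c η m p p' q → i < 2 ^ (m - q) →
      Pr46 μ s (frm33 μ s K ι β γ) (EE μ s) Θ c m p p' q i x 5 (ln36 μ s (frm33 μ s K ι β γ) m p p' (Mf β m))) :
    Est fun ι β γ m => RowN23 μ s (frm33 μ s K ι β γ) (EE μ s) Θ δ c η 2 m := by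
  obtain ⟨z, hz⟩ : ∃ z : ℝ, z = min (x / 2) (1 / 2) := ⟨_, rfl⟩
  have hz0 : 0 < z := hz ▸ lt_min (by positivity) (by norm_num)
  have hzx : z ≤ x / 2 := hz ▸ min_le_left _ _
  have hz1 : z ≤ 1 / 2 := hz ▸ min_le_right _ _
  refine rowN46 h hk hK hδ hc.le hcδ hη 2 ?_
  refine (((Ha.and Hb).and (num36 hz0)).and ((ok33 (μ := μ) (s := s) (by omega : 6 ≤ K) hΘ).and
    (rows46 (Θ := Θ) h hk hK hδ hc.le hcδ hη))).mono fun ι β γ hι hβ _ => ?_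
  refine Filter.Eventually.of_forall fun m hh => ?_
  obtain ⟨⟨⟨ha, hb⟩, n1, n2, n4⟩, hF, hrw⟩ := hh
  intro p p' q i hC hi
  obtain ⟨hsq', hqm⟩ := chg_le33 hC hc.le hη
  obtain ⟨F, hFd⟩ : ∃ F : Frm96, F = frm33 μ s K ι β γ := ⟨_, rfl⟩
  have hB : F.B m = B33 β m := by rw [hFd]; rfl
  have hn := rw46_pos m
  have hE : ∀ t, 0 < EE μ s t := fun t => EE_pos t
  have hB0 : 0 ≤ F.B m := by
    rw [hB]
    exact Real.rpow_nonneg (Nat.cast_nonneg _) _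
  have hrows : ∀ j ∈ rw46 F m q i, j + 2 ^ p' ≤ F.L m := fun j hj => by
    rw [hFd] at hj ⊢
    exact (hrw p p' q i hC hi j hj).2.2
  have hb0 : F.b0 m p ≤ 2 ^ p := by
    rw [hFd]
    exact Nat.pow_le_pow_right two_pos (Nat.sub_le _ _)
  have hcard : ((rw46 F m q i).card : ℝ) ≤ ((2 ^ m : ℕ) : ℝ) := by
    have h1 : (rw46 F m q i).card ≤ 2 ^ m := by
      rw [hFd]
      exact (card_le_card (inter_subset_left)).trans (R33_card ι m)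
    exact_mod_cast h1
  have hpr := hb p p' q i hC hi
  have hra := ha p p' q i hC hi
  rw [← hFd] at hpr hra hF ⊢
  have hsm := hpr.smul (fun y hy => hF.hy y hy) hE (r := 2 * (1 + F.B m) ^ 2) (z := z) (by positivity) hz0.le (by rw [hB]; exact n2)
  refine ⟨_, hsm.weaken hE (by linarith) (by linarith), ?_⟩
  obtain ⟨KY, hKY⟩ : ∃ KY : ℝ, KY = ((rw46 F m q i).card : ℝ) * K5 (F.B m) := ⟨_, rfl⟩
  have hKI := K5_nonneg hB0
  have hKY0 : 0 ≤ KY := hKY ▸ mul_nonneg (Nat.cast_nonneg _) hKI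
  rw [← hB] at n4
  obtain ⟨n, hnd⟩ : ∃ n : ℝ, n = ((2 ^ m : ℕ) : ℝ) := ⟨_, rfl⟩
  rw [← hnd] at n1 n4 hcard hn
  have hKYn : 1 + KY ≤ n ^ 2 := by
    have h1 : KY ≤ n * K5 (F.B m) := hKY ▸ mul_le_mul_of_nonneg_right hcard hKI
    nlinarith
  refine rb46_of_row (Ln := fun j D => 2 * (1 + F.B m) ^ 2 * avF μ s F m fun y ω S => |D y ω S| * xx36 μ s F m p p' (Mf β m) y ω j S)
    (e := (1 + KY) * n ^ (-5 : ℝ)) (by positivity) ?_ fun k j hj => ?_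
  · have hl : ((2 ^ (p' - 6) : ℕ) : ℝ) ≤ n := by
      rw [hnd]
      exact_mod_cast Nat.pow_le_pow_right two_pos ((Nat.sub_le _ _).trans ((hC.hps'.trans hsq').trans hqm))
    rw [← hnd]
    calc ((2 ^ (p' - 6) : ℕ) : ℝ) * ((1 + KY) * n ^ (-5 : ℝ)) ≤ n * (n ^ 2 * n ^ (-5 : ℝ)) :=
          mul_le_mul hl (mul_le_mul_of_nonneg_right hKYn (by positivity)) (by positivity) hn.le
      _ = n ^ (-2 : ℝ) := by
          rw [← Real.rpow_natCast n 2, ← Real.rpow_add hn]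
          nth_rw 1 [← Real.rpow_one n]
          rw [← Real.rpow_add hn]
          norm_num
  · have hj' := (mem_filter.1 hj).1
    have hjk := (mem_filter.1 hj).2
    have hcov := yf_cov (pas_I5 (μ := μ) (s := s) (F := F) 2 hB0 hC.hpp hb0) hrows (show 0 < 2 ^ (p' - 6) by positivity) hjk
    have h1 := hra j hj' _ _ hcov
    rw [← hKY, ← hnd] at h1
    exact h1

/-- **`MB`.** -/
theorem mB36 [IsProbabilityMeasure μ] {c₁ C : ℝ} {n₀ : ℕ} (h : In μ s c₁ C n₀) (hk : KapLe96 (EE μ s) (1 / 4)) (hK : 32 ≤ K)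
    {c₀ : ℝ} (hR : RegP46 μ s c₀ Θ) (hΘ : 0 < Θ) (hc1 : c ≤ 1) (hδ : 0 < δ) (hc : 0 < c) (hcδ : c ≤ δ / 64) (hη : 0 ≤ η)
    {x : ℝ} (hx : 0 < x) {Mf : ℝ → ℕ → ℝ}
    (Ha : Est fun ι β γ m => Row70 μ s (frm33 μ s K ι β γ) (EE μ s) Θ δ c η 5 (Mf β m) m)
    (Hb : Est fun ι β γ m => ∀ p p' q i : ℕ, Chg96 (EE μ s) Θ δ c η m p p' q → i < 2 ^ (m - q) →
      Pr46 μ s (frm33 μ s K ι β γ) (EE μ s) Θ c m p p' q i x 5 (ln36 μ s (frm33 μ s K ι β γ) m p p' (Mf β m))) :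
    Est fun ι β γ m => MB μ s (frm33 μ s K ι β γ) (EE μ s) Θ δ c η m :=
  mB23 h hk hK hR hΘ hc1 hδ hc hcδ hη (rowN36 h hk hK hΘ hδ hc hcδ hη hx Ha Hb)

end

end Pool.Agent.W_7d29a1_C0.MRow36
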