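import Pool.Agent.W_7d29a1_C0.MRow36
import Pool.Agent.W_7d29a1_C0.PrE46

/-!
MP_7d29a1_pr, [CURV0], leaf E5 (helper36): THE CLOSING OF `MB`, part 2: the price of the line of the two ties at the level `8 n ^ β`
(`prL36`, from `PrE46`) and `MB` from the row estimate `Row70` alone (`mbR36`).
-/

set_option autoImplicit false
set_option linter.unusedSectionVars false

namespace Pool.Agent.W_7d29a1_C0.MRow36

open Finset MeasureTheory Filter Topology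
open Pool.Agent.W_7d29a1_F Pool.Agent.W_7d29a1_X
open Pool.Agent.W_7d29a1_H (EE EE_pos one_le_EE)
open Pool.Agent.W_7d29a1_HS (In wd)
open Pool.Agent.W_7d29a1_C0 Pool.Agent.W_7d29a1_C0.Mod92 Pool.Agent.W_7d29a1_C0.Asm96
open Pool.Agent.W_7d29a1_C0.N38 (av BM BM.add BM.mul BM.abs BM.sum BM.zero BM.smul BM.sq)
open Pool.Agent.W_7d29a1_C0.NTop23 (avF YF RowB RowN23)
open Pool.Agent.W_7d29a1_C0.Pr46
open Pool.Agent.W_7d29a1_C0.Frm33 Pool.Agent.W_7d29a1_C0.Base5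
open Pool.Agent.W_7d29a1_C0.Sz23 (tj tj_nonneg tj_le meas_tj)
open Pool.Agent.W_7d29a1_C0.Par92 (Est Sml)
open Pool.W7d29a1.C0 (gz gm gz_pos gz_ne gm_nonneg gm_mono gm_const)
open Pool.W7d29a1.C0.S1
open Pool.W7d29a1.C0.R43 (Tau)

noncomputable section

variable {μ : Measure ℝ} {s : ℝ} {K : ℕ} {Θ δ c η : ℝ}

theorem tI_nn36 {Q : Finset (Finset ℕ)} (w : Px Q → ℝ) (p : Px Q → Finset ℕ × ℕ) (c al be d : ℕ) (m : ℝ) (S : Px Q) :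
    0 ≤ tI w p c al be d m S := add_nonneg (i1_nonneg _) (i1_nonneg _)

theorem tI_le36 {Q : Finset (Finset ℕ)} (w : Px Q → ℝ) (p : Px Q → Finset ℕ × ℕ) (c al be d : ℕ) (m : ℝ) (S : Px Q) :
    tI w p c al be d m S ≤ 2 := by
  unfold tI
  linarith [i1_le1 (Tau w p c al m S), i1_le1 (Tau w p be d m S)]

theorem ow_ge36 {N y : ℕ} (w : Px (Pn N y) → ℝ) (u b' j : ℕ) (M : ℝ) (S : Px (Pn N y)) :
    tI w (pJ 0 N) (j - b') (j - u) (j + u) (j + b') M S ≤ ow46 w u b' j M S :=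
  le_add_of_nonneg_right (add_nonneg (i1_nonneg _) (i1_nonneg _))

theorem ow_le36 {N y : ℕ} (w : Px (Pn N y) → ℝ) (u b' j : ℕ) (M : ℝ) (S : Px (Pn N y)) : ow46 w u b' j M S ≤ 4 := by
  unfold ow46
  linarith [tI_le36 w (pJ 0 N) (j - b') (j - u) (j + u) (j + b') M S,
    i1_le1 (Real.exp (-(7 * M)) < gm w (Pool.Agent.W_7d29a1_C0.Swap57.NI (j - b') (j - u) S)),
    i1_le1 (Real.exp (-(7 * M)) < gm w (Pool.Agent.W_7d29a1_C0.Swap57.NI (j + u) (j + b') S))]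

theorem meas_tI36 {N y : ℕ} (p : Px (Pn N y) → Finset ℕ × ℕ) (c al be d : ℕ) (m : ℝ) (S : Px (Pn N y)) :
    Measurable fun ω : Env × Finset ℕ => tI (wm μ s N (Pn N y) ω) p c al be d m S :=
  (meas_Tau46 p c al m S).add (meas_Tau46 p be d m S)

/-- **THE PRICE OF THE LINE OF THE TWO TIES** at the level `8 n ^ β`. -/
theorem prL36 [IsProbabilityMeasure μ] {c₁ C : ℝ} {n₀ : ℕ} (h : In μ s c₁ C n₀) (hk : KapLe96 (EE μ s) (1 / 4)) (hK : 32 ≤ K)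
    {c₀ : ℝ} (hR : RegP46 μ s c₀ Θ) (hΘ : 0 < Θ) (hδ : 0 < δ) (hc : 0 < c) (hc1 : c ≤ 1) (hcδ : c ≤ δ / 64) (hη : 0 ≤ η) :
    Est fun ι β γ m => ∀ p p' q i : ℕ, Chg96 (EE μ s) Θ δ c η m p p' q → i < 2 ^ (m - q) →
      Pr46 μ s (frm33 μ s K ι β γ) (EE μ s) Θ c m p p' q i (c / 8) 5 (ln36 μ s (frm33 μ s K ι β γ) m p p' (8 * B33 β m)) := by
  obtain ⟨κ, hκ, H⟩ := PrE46 h hk hK hR hδ hc hc1 hcδ hη
  have hlev : Est fun _ β _ m => 8 * B33 β m ≤ ((2 ^ m : ℕ) : ℝ) ^ κ := by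
    refine Sml.of fun ι _ => ⟨κ / 2, by positivity, fun β hβ hβ' => Sml.of fun γ _ => ?_⟩
    filter_upwards [ev_n (show 0 < κ / 2 by positivity) 8] with m h1
    have hn1 := n_ge1 m
    have hn0 : (0 : ℝ) < ((2 ^ m : ℕ) : ℝ) := by linarith
    calc 8 * B33 β m ≤ ((2 ^ m : ℕ) : ℝ) ^ (κ / 2) * ((2 ^ m : ℕ) : ℝ) ^ (κ / 2) :=
          mul_le_mul h1 (Real.rpow_le_rpow_of_exponent_le hn1 hβ') (Real.rpow_nonneg hn0.le _) (Real.rpow_nonneg hn0.le _)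
      _ = ((2 ^ m : ℕ) : ℝ) ^ κ := by rw [← Real.rpow_add hn0, add_halves]
  have hlarge : ∀ᶠ m : ℕ in atTop, 2 < δ * m := by
    have h1 : Tendsto (fun m : ℕ => δ * (m : ℝ)) atTop atTop := tendsto_natCast_atTop_atTop.const_mul_atTop hδ
    exact h1.eventually_gt_atTop 2
  refine (((H 5).and hlev).and (ok33 (μ := μ) (s := s) (by omega : 6 ≤ K) hΘ)).mono fun ι β γ hι hβ _ => ?_
  have hι1 : ∀ᶠ m : ℕ in atTop, 1 < ι * m := by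
    have h1 : Tendsto (fun m : ℕ => ι * (m : ℝ)) atTop atTop := tendsto_natCast_atTop_atTop.const_mul_atTop hι
    exact h1.eventually_gt_atTop 1
  filter_upwards [hι1, hlarge] with m hm1 hm2 hh
  obtain ⟨⟨hpr, hle⟩, hF⟩ := hh
  intro p p' q i hC hi
  have hp2 : 2 ≤ p := by
    have h1 : (2 : ℝ) < p := hm2.trans_le hC.hp
    have h2 : 2 < p := by exact_mod_cast h1
    omega
  have hb4 := b0_quarter hm1 hp2
  have hpp : 2 ^ p ≤ 2 ^ p' := Nat.pow_le_pow_right two_pos hC.hpp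
  refine (hpr p p' q i hC hi (8 * B33 β m) hle (2 ^ (p - ⌈ι * (m : ℝ)⌉₊)) (by omega)).mono fun t _ k j D Mh hD _ => ?_
  have hDb : BM ((frm33 μ s K ι β γ).ys m) fun y ω S => |D y ω S| := hD.bm.abs
  have hx : BM ((frm33 μ s K ι β γ).ys m) fun y ω S => xx36 μ s (frm33 μ s K ι β γ) m p p' (8 * B33 β m) y ω j S := by
    refine ⟨⟨2 * 2, fun y _ ω S => ?_⟩, fun y _ S => ?_⟩
    · unfold xx36
      rw [abs_of_nonneg (mul_nonneg (tI_nn36 _ _ _ _ _ _ _ _) (tI_nn36 _ _ _ _ _ _ _ _))]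
      exact mul_le_mul (tI_le36 _ _ _ _ _ _ _ _) (tI_le36 _ _ _ _ _ _ _ _) (tI_nn36 _ _ _ _ _ _ _ _) (by norm_num)
    · exact (meas_tI36 _ _ _ _ _ _ S).mul (meas_tI36 _ _ _ _ _ _ S)
  have hy2 : BM ((frm33 μ s K ι β γ).ys m) fun y ω S =>
      tj μ s (L33 K m) (Pn (L33 K m) y) (2 ^ (p - ⌈ι * (m : ℝ)⌉₊)) (2 ^ p) (2 ^ p') (8 * B33 β m) ω j S *
        ow46 (wm μ s (L33 K m) (Pn (L33 K m) y) ω) (2 ^ (p - ⌈ι * (m : ℝ)⌉₊)) (2 ^ p') j (8 * B33 β m) S := by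
    refine ⟨⟨2 * 4, fun y _ ω S => ?_⟩, fun y hy S => ?_⟩
    · have h0 : 0 ≤ ow46 (wm μ s (L33 K m) (Pn (L33 K m) y) ω) (2 ^ (p - ⌈ι * (m : ℝ)⌉₊)) (2 ^ p') j (8 * B33 β m) S :=
        (tI_nn36 _ _ _ _ _ _ _ _).trans (ow_ge36 _ _ _ _ _ _)
      rw [abs_of_nonneg (mul_nonneg (tj_nonneg _ _ _ _ _ _ _ _) h0)]
      exact mul_le_mul (tj_le _ _ _ _ _ _ _ _) (ow_le36 _ _ _ _ _ _) h0 (by norm_num)
    · have : Nonempty (Px (Pn (L33 K m) y)) := ⟨S⟩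
      exact (meas_tj _ _ _ _ j S).mul (meas_ow46 _ _ _ _ S)
  refine avF_mono (fun y hy => hF.hy y hy) (hDb.mul hx) (hDb.mul hy2) fun y _ ω S => mul_le_mul_of_nonneg_left ?_ (abs_nonneg _)
  exact mul_le_mul_of_nonneg_left (ow_ge36 _ _ _ _ _ _) (tI_nn36 _ _ _ _ _ _ _ _)

/-- **`RowN23` FOR `k = 2` FROM THE ROW ESTIMATE ALONE.** -/
theorem rowR36 [IsProbabilityMeasure μ] {c₁ C : ℝ} {n₀ : ℕ} (h : In μ s c₁ C n₀) (hk : KapLe96 (EE μ s) (1 / 4)) (hK : 32 ≤ K)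
    {c₀ : ℝ} (hR : RegP46 μ s c₀ Θ) (hΘ : 0 < Θ) (hδ : 0 < δ) (hc : 0 < c) (hc1 : c ≤ 1) (hcδ : c ≤ δ / 64) (hη : 0 ≤ η)
    (Ha : Est fun ι β γ m => Row70 μ s (frm33 μ s K ι β γ) (EE μ s) Θ δ c η 5 (8 * B33 β m) m) :
    Est fun ι β γ m => RowN23 μ s (frm33 μ s K ι β γ) (EE μ s) Θ δ c η 2 m :=
  rowN36 (Mf := fun β m => 8 * B33 β m) h hk hK hΘ hδ hc hcδ hη (show 0 < c / 8 by positivity) Ha
    (prL36 h hk hK hR hΘ hδ hc hc1 hcδ hη)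

/-- **`MB` FROM THE ROW ESTIMATE ALONE.** -/
theorem mbR36 [IsProbabilityMeasure μ] {c₁ C : ℝ} {n₀ : ℕ} (h : In μ s c₁ C n₀) (hk : KapLe96 (EE μ s) (1 / 4)) (hK : 32 ≤ K)
    {c₀ : ℝ} (hR : RegP46 μ s c₀ Θ) (hΘ : 0 < Θ) (hδ : 0 < δ) (hc : 0 < c) (hc1 : c ≤ 1) (hcδ : c ≤ δ / 64) (hη : 0 ≤ η)
    (Ha : Est fun ι β γ m => Row70 μ s (frm33 μ s K ι β γ) (EE μ s) Θ δ c η 5 (8 * B33 β m) m) :
    Est fun ι β γ m => MB μ s (frm33 μ s K ι β γ) (EE μ s) Θ δ c η m :=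
  mB36 (Mf := fun β m => 8 * B33 β m) h hk hK hR hΘ hc1 hδ hc hcδ hη (show 0 < c / 8 by positivity) Ha
    (prL36 h hk hK hR hΘ hδ hc hc1 hcδ hη)

end

end Pool.Agent.W_7d29a1_C0.MRow36
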