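import Pool.Agent.W_7d29a1_C0.NTE29

/-!
MP_7d29a1_pr, [CURV0] / [C0] (helper29): PLACES WITH ONE AND WITH TWO ALTERNATIVES IN ONE PRODUCT. `Cv`: a measurable functional `g` of the
box which is told by near ties: a family of events `NT p` of the path, which see only the rows `V`, have the prices `r p` (sum `R`) given
every event which does not see the rows `J p`, and `g` has mean at most `e` outside of them. `cv_mass`, `cv_tau`, `cv_tri`: masses of gaps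
(helper86's `PFam`), robust events, masses of two alternatives (helper51's `Pl3`). `cv_prod`, `cv_prodF`: the product price.
-/

set_option autoImplicit false

namespace Pool.Agent.W_7d29a1_C0.N29

open MeasureTheory ProbabilityTheory Filter Topology Finset
open Pool.Agent.W_7d29a1_F Pool.Agent.W_7d29a1_X Pool.Agent.W_7d29a1_h4g Pool.Agent.W_7d29a1_H
open Pool.Agent.W_7d29a1_HS (In wd md)
open Pool.Agent.W_7d29a1_HZ Pool.Agent.W_7d29a1_HZ.R72 Pool.Agent.W_7d29a1_Z.Asm72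
open Pool.Agent.W_7d29a1_HZ.Z86
open Pool.Agent.W_7d29a1_C0.Mod92 (Px Pn lw ps pJ ne_Pn ps_Pn pos_card ps_of_le ps_of_ge wm Pm meas_lw meas_cE meas_gz meas_gm int_Pm)
open Pool.Agent.W_7d29a1_C0.Swap57 (NI cE2)
open Pool.Agent.W_7d29a1_C0.P86
open Pool.Agent.W_7d29a1_C0.N51 (On3 mc3 mc3_nonneg P3 P3_mono' Pl3 pl3_wt K51 nm_mono)
open Pool.W7d29a1.C0 (gm gz gz_pos gm_nonneg gm_mono gm_const)
open Pool.W7d29a1.C0.VT31 (Mp cE gm_mul_cE fz cE_sum)
open Pool.W7d29a1.C0.R43 (Tau Rp mI st swP_pJ tau_rp)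
open scoped ENNReal

noncomputable section

variable {μ : Measure ℝ} {s : ℝ} {N : ℕ}

/-- **A FUNCTIONAL TOLD BY NEAR TIES.** -/
structure Cv (μ : Measure ℝ) (s : ℝ) (N y : ℕ) (R X pe e : ℝ≥0∞) (Jf : Finset ℕ) (Ob : Finset (Finset ℕ)) (V : Finset ℕ)
    (g : Env → Finset ℕ → ℝ≥0∞) : Prop where
  meas : ∀ S, Measurable fun η => g η S
  box : ∀ η η' S, EqB N η η' → g η S = g η' S
  le_one : ∀ η S, g η S ≤ 1
  ex : ∃ (P : Finset (ℕ × ℕ)) (r : ℕ × ℕ → ℝ≥0∞) (NT : ℕ × ℕ → Env → Finset ℕ → Prop) (J : ℕ × ℕ → Finset ℕ),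
    (∀ p, Ms (NT p)) ∧ (∀ p ∈ P, ∀ J' : Finset ℕ, Disjoint J' V → OffRows J' (NT p)) ∧
    (∀ p ∈ P, ∀ F : Env → Finset ℕ → Prop, Ms F → OffRows (J p) F →
      P1 μ s N y (fun η S => F η S ∧ NT p η S) ≤ r p * P1 μ s N y F + pe) ∧
    ∑ p ∈ P, r p ≤ R ∧ (P.card : ℝ≥0∞) ≤ X ∧ (∀ p ∈ P, J p ⊆ Jf ∧ ∀ O ∈ Ob, Disjoint (J p) O) ∧
    Q1 μ s N y (fun η S => g η S * ind (¬ ∃ p ∈ P, NT p η S)) ≤ e

theorem ind_not_mul (A : Prop) : ind (¬ A) * ind A = 0 := by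
  by_cases h : A
  · rw [ind_not (show ¬ ¬ A from fun h' => h' h), zero_mul]
  · rw [ind_not h, mul_zero]

theorem Q1_zero {y : ℤ} {f : Env → Finset ℕ → ℝ≥0∞} (h : ∀ η S, f η S = 0) : Q1 μ s N y f = 0 := by
  unfold Q1
  simp only [h, mul_zero, sum_const_zero, lintegral_zero]

variable [IsProbabilityMeasure μ]

/-! ### Productions -/

/-- A mass outside of the near ties. -/
theorem prod_mass {y c d : ℕ} (hy : y ≤ N) (hcd : c ≤ d ∧ d ≤ N) {A : Finset ℕ → Finset ℕ → Prop} (hA : On2 c d A)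
    {T : Env → Finset ℕ → Prop} (hT : Ms T) {g : Env → Finset ℕ → ℝ≥0∞} (hg1 : ∀ η S, g η S ≤ 1) {G : ℝ≥0∞}
    (hgm : ∀ η S, g η S ≤ G * ENNReal.ofReal (mc μ s N y c d A η S)) (x : ℝ) {q : ℝ≥0∞}
    (hq : P2 μ s N y (fun _ => 0) (fun η S S' => A S' S ∧ ¬ T η S') ≤ q) :
    Q1 μ s N y (fun η S => g η S * ind (¬ T η S)) ≤
      G * (ENNReal.ofReal (Real.exp x) * q + ENNReal.ofReal (((N : ℝ) + 1) ^ 2 * Real.exp (-x))) := by
  have k1 := Q1_multH (μ := μ) (s := s) (k := 1) hy (fun _ => c) (fun _ => d) (fun _ => hcd) (fun _ => A) (fun _ => hA) (fun _ => T)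
    (fun _ => hT) (f := fun η S => ind (¬ T η S)) (fun S => meas_ind (hT S).compl) (fun η S => ind_le _) (h := fun _ => g) (fun _ => hg1)
    (G := G) (fun _ => hgm) x
  simp only [Finset.univ_unique, Finset.prod_singleton, Finset.sum_singleton] at k1
  have k2 : Q1 μ s N y (fun η S => ind (¬ T η S) * ind (∀ _ : Fin 1, T η S)) = 0 := Q1_zero fun η S => by
    have : (∀ _ : Fin 1, T η S) = T η S := propext ⟨fun h => h 0, fun h _ => h⟩
    rw [this]
    exact ind_not_mul _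
  rw [k2, zero_add] at k1
  refine le_trans (le_of_eq ?_) (k1.trans (mul_le_mul' le_rfl (add_le_add (mul_le_mul' le_rfl hq) le_rfl)))
  congr 1
  funext η S
  rw [mul_comm]

/-- A mass of two alternatives outside of the near ties. -/
theorem prod_tri {y c d : ℕ} (hy : y ≤ N) (hcd : c ≤ d ∧ d ≤ N) {A : Finset ℕ → Finset ℕ → Finset ℕ → Prop} (hA : On3 c d c d A)
    {T : Env → Finset ℕ → Prop} (hT : Ms T) {g : Env → Finset ℕ → ℝ≥0∞} (hg1 : ∀ η S, g η S ≤ 1) {G : ℝ≥0∞}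
    (hgm : ∀ η S, g η S ≤ G * ENNReal.ofReal (mc3 μ s N y c d c d A η S)) (x : ℝ) {q : ℝ≥0∞}
    (hq : P3 μ s N y (fun η S a b => A S a b ∧ ¬ T η S) ≤ q) :
    Q1 μ s N y (fun η S => g η S * ind (¬ T η S)) ≤
      G * (ENNReal.ofReal (Real.exp (2 * x)) * q + 2 * ENNReal.ofReal (((N : ℝ) + 1) ^ 2 * Real.exp (-x))) := by
  have k1 := pl3_wt (μ := μ) (s := s) hy hcd hcd hA hT (f := fun η S => ind (¬ T η S)) (fun S => meas_ind (hT S).compl)
    (fun η S => ind_le _) (h := g) hg1 (G := G) hgm x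
  have k2 : Q1 μ s N y (fun η S => ind (¬ T η S) * ind (T η S)) = 0 := Q1_zero fun η S => ind_not_mul _
  rw [k2, zero_add] at k1
  refine le_trans (le_of_eq ?_) (k1.trans (mul_le_mul' le_rfl (add_le_add (mul_le_mul' le_rfl hq) le_rfl)))
  congr 1
  funext η S
  rw [mul_comm]

/-! ### Masses -/

/-- A mass told by a family of places. -/
theorem cv_fam {y c d : ℕ} (hy : y ≤ N) (hcd : c ≤ d ∧ d ≤ N) {R X pe : ℝ≥0∞} {A : Finset ℕ → Finset ℕ → Prop} {Jf : Finset ℕ}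
    {Ob : Finset (Finset ℕ)} {V : Finset ℕ} (hP : PFam μ s N y R X pe c d A Jf Ob V) {g : Env → Finset ℕ → ℝ≥0∞}
    (hm : ∀ S, Measurable fun η => g η S) (hb : ∀ η η' S, EqB N η η' → g η S = g η' S) (hg1 : ∀ η S, g η S ≤ 1)
    {h : Env → Finset ℕ → ℝ≥0∞} (hh1 : ∀ η S, h η S ≤ 1) {G e' : ℝ≥0∞}
    (hhm : ∀ η S, h η S ≤ G * ENNReal.ofReal (mc μ s N y c d A η S))
    (hgh : ∀ F : Env → Finset ℕ → ℝ≥0∞, (∀ η S, F η S ≤ 1) →
      Q1 μ s N y (fun η S => F η S * g η S) ≤ Q1 μ s N y (fun η S => F η S * h η S) + e') (x : ℝ) :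
    Cv μ s N y R X pe (G * (ENNReal.ofReal (Real.exp x) * (X * pe) + ENNReal.ofReal (((N : ℝ) + 1) ^ 2 * Real.exp (-x))) + e')
      Jf Ob V g := by
  classical
  obtain ⟨P, r, B, J, hPl, hA, hB, hR, hX, hJ⟩ := hP
  have hex : ∀ p, ∃ NT : Env → Finset ℕ → Prop, Ms NT ∧ (p ∈ P → (∀ J' : Finset ℕ, Disjoint J' V → OffRows J' NT) ∧
      P2 μ s N y (fun _ => 0) (fun η S S' => B p S' S ∧ ¬ NT η S') ≤ pe ∧
      ∀ F : Env → Finset ℕ → Prop, Ms F → OffRows (J p) F → P1 μ s N y (fun η S => F η S ∧ NT η S) ≤ r p * P1 μ s N y F + pe) := by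
    intro p
    by_cases hp : p ∈ P
    · obtain ⟨NT, h1, h2, h3, h4⟩ := hPl p hp
      exact ⟨NT, h1, fun _ => ⟨h2, h3, h4⟩⟩
    · exact ⟨fun _ _ => False, fun S => by simp, fun h => absurd h hp⟩
  choose NT hms hNT using hex
  refine ⟨hm, hb, hg1, P, r, NT, J, hms, fun p hp => (hNT p hp).1, fun p hp => (hNT p hp).2.2, hR, hX, hJ, ?_⟩
  set A' : Finset ℕ → Finset ℕ → Prop := fun S S' => ∃ p ∈ P, B p S S' with hA'
  have hon : On2 c d A' := fun S S' S'' h => by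
    simp only [hA']
    exact exists_congr fun p => and_congr_right fun _ => hB p S S' S'' h
  have hhm' : ∀ η S, h η S ≤ G * ENNReal.ofReal (mc μ s N y c d A' η S) := fun η S =>
    (hhm η S).trans (mul_le_mul' le_rfl (ENNReal.ofReal_le_ofReal
      (mc_mono (fun S S' g1 g2 g3 g4 g5 g6 => hA S S' g1 g2 g3 g4 g5 g6) η S)))
  have hT : Ms fun η S => ∃ p ∈ P, NT p η S := ms_ex P hms
  have k1 : P2 μ s N y (fun _ => 0) (fun η S S' => A' S' S ∧ ¬ ∃ p ∈ P, NT p η S') ≤ X * pe := by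
    have h1 : P2 μ s N y (fun _ => 0) (fun η S S' => A' S' S ∧ ¬ ∃ p ∈ P, NT p η S') ≤
        P2 μ s N y (fun _ => 0) (fun η S S' => ∃ p ∈ P, B p S' S ∧ ¬ NT p η S') := by
      refine A12.P2_mono' fun η S S' _ _ _ _ hev => ?_
      obtain ⟨⟨p, hp, hb⟩, h⟩ := hev
      exact ⟨p, hp, hb, fun h' => h ⟨p, hp, h'⟩⟩
    exact (h1.trans (Pool.Agent.W_7d29a1_HZ.Z74.P2_ex_le P (fun p η S S' => B p S' S ∧ ¬ NT p η S') fun p hp =>
      (hNT p hp).2.1)).trans (mul_le_mul' hX le_rfl)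
  have k2 := prod_mass hy hcd hon hT hh1 hhm' x k1
  have k3 := hgh (fun η S => ind (¬ ∃ p ∈ P, NT p η S)) fun η S => ind_le _
  refine le_trans (le_of_eq ?_) (k3.trans (add_le_add (le_trans (le_of_eq ?_) k2) le_rfl))
  · congr 1
    funext η S
    rw [mul_comm]
  · congr 1
    funext η S
    rw [mul_comm]

/-- **Masses.** -/
theorem cv_mass {y c d : ℕ} (hy : y ≤ N) (hcd : c ≤ d ∧ d ≤ N) {R X pe : ℝ≥0∞} {A : Finset ℕ → Finset ℕ → Prop} {Jf : Finset ℕ}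
    {Ob : Finset (Finset ℕ)} {V : Finset ℕ} (hP : PFam μ s N y R X pe c d A Jf Ob V) (G : ℝ≥0∞) (x : ℝ) :
    Cv μ s N y R X pe (G * (ENNReal.ofReal (Real.exp x) * (X * pe) + ENNReal.ofReal (((N : ℝ) + 1) ^ 2 * Real.exp (-x))))
      Jf Ob V (fun η S => min 1 (G * ENNReal.ofReal (mc μ s N y c d A η S))) := by
  have k := cv_fam hy hcd hP (g := fun η S => min 1 (G * ENNReal.ofReal (mc μ s N y c d A η S)))
    (fun S => measurable_const.min (measurable_const.mul (mc_meas86 A S).ennreal_ofReal))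
    (fun η η' S hq => by simp only [mc_box hq]) (fun η S => min_le_left _ _)
    (h := fun η S => min 1 (G * ENNReal.ofReal (mc μ s N y c d A η S))) (fun η S => min_le_left _ _) (G := G) (e' := 0)
    (fun η S => min_le_right _ _) (fun F _ => by rw [add_zero]) x
  rw [add_zero] at k
  exact k

/-! ### Robust events -/

theorem meas_TauS {y c d i j : ℕ} {M : ℝ} (S : Finset ℕ) : MeasurableSet {η : Env | TauS μ s N y c d i j M η S} := by
  by_cases hS : S ∈ Pn N y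
  · have : Nonempty (Px (Pn N y)) := ⟨⟨S, hS⟩⟩
    have e : {η : Env | TauS μ s N y c d i j M η S} =
        {η : Env | Real.exp (-(5 * M)) ≤ cE2 (lw μ s η N (Pn N y)) (pJ c d) (NI i j) ⟨S, hS⟩ ⟨S, hS⟩} := by
      ext η
      exact ⟨fun ⟨_, h⟩ => h, fun h => ⟨hS, h⟩⟩
    rw [e]
    refine measurableSet_le measurable_const ?_
    unfold cE2
    exact Pool.Agent.W_7d29a1_C0.Mod92.meas_cE (Ω := Env) (X := Px (Pn N y)) (w := fun η => Mod92.lw μ s η N (Pn N y))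
      (f := fun η z => cE (Mod92.lw μ s η N (Pn N y)) (pJ c d) (NI i j z) ⟨S, hS⟩) (fun x => Pool.Agent.W_7d29a1_C0.Mod92.meas_lw x)
      (fun z => Pool.Agent.W_7d29a1_C0.Mod92.meas_cE (Ω := Env) (X := Px (Pn N y)) (w := fun η => Mod92.lw μ s η N (Pn N y))
        (f := fun _ z' => NI i j z z') (fun x => Pool.Agent.W_7d29a1_C0.Mod92.meas_lw x) (fun _ => measurable_const) (pJ c d) ⟨S, hS⟩)
      (pJ c d) ⟨S, hS⟩
  · have e : {η : Env | TauS μ s N y c d i j M η S} = ∅ := by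
      ext η
      exact ⟨fun ⟨h, _⟩ => absurd h hS, fun h => absurd h (Set.notMem_empty _)⟩
    rw [e]
    exact MeasurableSet.empty

theorem TauS_box {y c d i j : ℕ} {M : ℝ} {η η' : Env} (h : EqB N η η') (S : Finset ℕ) :
    TauS μ s N y c d i j M η S ↔ TauS μ s N y c d i j M η' S := by
  unfold TauS
  rw [lw_box h]

/-- **Robust events.** -/
theorem cv_tau {y c d U l q E : ℕ} {M : ℝ} (hy : y ≤ N) (hcd : c ≤ d ∧ d ≤ N) (hM : 8 ≤ M) (hq : 10 * M ≤ q) (hq' : (q : ℝ) ≤ 20 * M)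
    (hE : U + 3 * q * (l + 1) ≤ E) {R X pe : ℝ≥0∞} {Jf : Finset ℕ} {Ob : Finset (Finset ℕ)} {V : Finset ℕ}
    (hP : PFam μ s N y R X pe c d (NMp U l q) Jf Ob V) (x : ℝ) :
    Cv μ s N y R X pe (ENNReal.ofReal (Real.exp (7 * M)) * (ENNReal.ofReal (Real.exp x) * (X * pe) +
      ENNReal.ofReal (((N : ℝ) + 1) ^ 2 * Real.exp (-x))) + (ENNReal.ofReal (Real.exp (-M)) + ENNReal.ofReal (Real.exp (-M))))
      Jf Ob V (fun η S => min 1 (ind (TauS μ s N y c d U E M η S) + ENNReal.ofReal (Real.exp (-M)))) := by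
  refine cv_fam hy hcd hP (fun S => measurable_const.min ((meas_ind (meas_TauS S)).add measurable_const)) (fun η η' S hq => ?_)
    (fun η S => min_le_left _ _) (h := fun η S => ind (RpS μ s N y c d U l q M η S)) (fun η S => ind_le _) (fun η S => rp_mc η S)
    (fun F hF => ?_) x
  · have e : (TauS μ s N y c d U E M η S) = (TauS μ s N y c d U E M η' S) := propext (TauS_box hq S)
    show min 1 (ind (TauS μ s N y c d U E M η S) + _) = min 1 (ind (TauS μ s N y c d U E M η' S) + _)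
    rw [e]
  · have k1 := Q1_add_err (μ := μ) (s := s) hy (F := F) (g := fun η S => min 1 (ind (TauS μ s N y c d U E M η S) + ENNReal.ofReal (Real.exp (-M))))
      (t := fun η S => ind (TauS μ s N y c d U E M η S)) (e := ENNReal.ofReal (Real.exp (-M))) hF fun η S => min_le_right _ _
    have k2 := tau_Q1 (μ := μ) (s := s) hy hcd.1 U l q hM hq hq' hE hF
    refine k1.trans ((add_le_add k2 le_rfl).trans (le_of_eq ?_))
    rw [add_assoc]

/-! ### Two alternatives -/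

/-- **Masses of two alternatives.** -/
theorem cv_tri {y c d c' d' U V : ℕ} (hy : y ≤ N) (h0 : c ≤ c') (h1 : c' ≤ U) (hUV : U ≤ V) (h2 : V ≤ d') (h3 : d' ≤ d) (h4 : d ≤ N)
    {A : Finset ℕ → Finset ℕ → Finset ℕ → Prop}
    (hA : ∀ S a b, S ∈ Pn N y → a ∈ Pn N y → b ∈ Pn N y → (∀ j, j ≤ c ∨ d ≤ j → pos S j = pos a j) →
      (∀ j, j ≤ c ∨ d ≤ j → pos S j = pos b j) → A S a b → A3 c' d' U V S a b)
    {r pe X : ℝ≥0∞} (hX : 1 ≤ X) {J Jf W V' : Finset ℕ} {Ob : Finset (Finset ℕ)} (hP : Pl3 μ s N y r pe (A3 c' d' U V) J W) (hW : W ⊆ V')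
    (hJf : J ⊆ Jf) (hOb : ∀ O ∈ Ob, Disjoint J O) (G : ℝ≥0∞) (x : ℝ) :
    Cv μ s N y r X pe (G * (ENNReal.ofReal (Real.exp (2 * x)) * pe + 2 * ENNReal.ofReal (((N : ℝ) + 1) ^ 2 * Real.exp (-x))))
      Jf Ob V' (fun η S => min 1 (G * ENNReal.ofReal (mc3 μ s N y c d c d A η S))) := by
  classical
  obtain ⟨T, hms, hoff, hprod, hpr⟩ := hP
  refine ⟨fun S => measurable_const.min (measurable_const.mul (mc3_meas A S).ennreal_ofReal), fun η η' S hq => by simp only [mc3_box hq],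
    fun η S => min_le_left _ _, {(0, 0)}, fun _ => r, fun _ => T, fun _ => J, fun _ => hms,
    fun _ _ J' hJ' => hoff J' (disjoint_of_subset_right hW hJ'), fun _ _ F hF hFo => hpr F hF hFo, ?_, ?_, fun _ _ => ⟨hJf, hOb⟩, ?_⟩
  · rw [sum_singleton]
  · rw [card_singleton, Nat.cast_one]
    exact hX
  · have e1 : ∀ η S, (∃ p ∈ ({(0, 0)} : Finset (ℕ × ℕ)), T η S) = T η S := fun η S =>
      propext ⟨fun ⟨_, _, h⟩ => h, fun h => ⟨(0, 0), mem_singleton_self _, h⟩⟩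
    simp only [e1]
    exact prod_tri (μ := μ) (s := s) hy (⟨by omega, h4⟩ : c ≤ d ∧ d ≤ N) (on3_A3 h0 h1 hUV h2 h3) hms (fun η S => min_le_left _ _)
      (fun η S => (min_le_right _ _).trans (mul_le_mul' le_rfl (ENNReal.ofReal_le_ofReal (mc3_fib hA η S)))) x hprod

/-! ### Products -/

/-- **THE PRODUCT PRICE.** -/
theorem cv_prod {k y : ℕ} {R : Fin k → ℝ≥0∞} {X pe : ℝ≥0∞} {e : Fin k → ℝ≥0∞} {Jf : Fin k → Finset ℕ}
    {Ob : Fin k → Finset (Finset ℕ)} {V : Fin k → Finset ℕ} {g : Fin k → Env → Finset ℕ → ℝ≥0∞}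
    (h : ∀ i, Cv μ s N y (R i) X pe (e i) (Jf i) (Ob i) (V i) (g i)) (hOb : ∀ i i', i < i' → V i' ∈ Ob i)
    {f : Env → Finset ℕ → ℝ≥0∞} (hf : ∀ S, Measurable fun η => f η S) (hf1 : ∀ η S, f η S ≤ 1) (hfo : ∀ i, OffW (Jf i) f) :
    Q1 μ s N y (fun η S => f η S * ∏ i, g i η S) ≤ (∏ i, R i) * Q1 μ s N y f + (X ^ k * (k * pe) + ∑ i, e i) := by
  classical
  have hex := fun i => (h i).ex
  choose P r NT J hms hoff hpr hR hX hJ hprod using hex
  have hT : ∀ i, Ms fun η S => ∃ p ∈ P i, NT i p η S := fun i => ms_ex (P i) (hms i)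
  have k1 : Q1 μ s N y (fun η S => f η S * ∏ i, g i η S) ≤ Q1 μ s N y (fun η S => f η S * ind (∀ i, ∃ p ∈ P i, NT i p η S) +
      ∑ i ∈ (univ : Finset (Fin k)), g i η S * ind (¬ ∃ p ∈ P i, NT i p η S)) := by
    refine Q1_mono fun η S _ _ => ?_
    by_cases hN : ∀ i, ∃ p ∈ P i, NT i p η S
    · rw [ind_of hN]
      exact le_trans (mul_le_mul' le_rfl (prod_le_one' fun i _ => (h i).le_one η S)) le_self_add
    · have hN' := hN
      push Not at hN'
      obtain ⟨i, hi⟩ := hN'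
      have hi' : ¬ ∃ p ∈ P i, NT i p η S := fun ⟨p, hp, hh⟩ => hi p hp hh
      refine le_trans ?_ le_add_self
      refine le_trans ?_ (single_le_sum (f := fun i => g i η S * ind (¬ ∃ p ∈ P i, NT i p η S)) (fun _ _ => zero_le) (mem_univ i))
      show _ ≤ g i η S * ind (¬ ∃ p ∈ P i, NT i p η S)
      rw [ind_of hi', mul_one, ← mul_prod_erase univ _ (mem_univ i)]
      exact (mul_le_of_le_one_left zero_le (hf1 η S)).trans
        (mul_le_of_le_one_right zero_le (prod_le_one' fun i _ => (h i).le_one η S))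
  have hm1 : ∀ S, Measurable fun η : Env => f η S * ind (∀ i, ∃ p ∈ P i, NT i p η S) := fun S => (hf S).mul (meas_ind ((ms_all hT) S))
  have hm2 : ∀ i S, Measurable fun η : Env => g i η S * ind (¬ ∃ p ∈ P i, NT i p η S) := fun i S =>
    ((h i).meas S).mul (meas_ind (hT i S).compl)
  refine k1.trans ?_
  rw [Q1_add hm1, Q1_sum (univ : Finset (Fin k)) hm2, ← add_assoc]
  refine add_le_add ?_ (sum_le_sum fun i _ => hprod i)
  refine wt_of_ev (JJ := {J' | ∃ i, J' = Jf i}) (ms_all hT) (fun F hF hFo => ?_) hf hf1 ?_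
  · have h1 : P1 μ s N y (fun η S => F η S ∧ ∀ i, ∃ p ∈ P i, NT i p η S) ≤
        P1 μ s N y (fun η S => ∃ π ∈ Fintype.piFinset P, F η S ∧ ∀ i, NT i (π i) η S) := by
      refine A12.P1_mono' fun η S _ _ hev => ?_
      choose π hπ1 hπ2 using hev.2
      exact ⟨π, Fintype.mem_piFinset.2 hπ1, hev.1, hπ2⟩
    refine h1.trans ((A12.P1_exists (μ := μ) (s := s) (N := N) (y := y) (Fintype.piFinset P)
      fun π η S => F η S ∧ ∀ i, NT i (π i) η S).trans ?_)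
    have h2 : ∀ π ∈ Fintype.piFinset P, P1 μ s N y (fun η S => F η S ∧ ∀ i, NT i (π i) η S) ≤
        (∏ i, r i (π i)) * P1 μ s N y F + k * pe := by
      intro π hπ
      rw [Fintype.mem_piFinset] at hπ
      exact prodP k (fun i => NT i (π i)) (fun i => J i (π i)) (fun i => r i (π i)) pe (fun i => hms _ _)
        (fun i => hpr i _ (hπ i)) (fun i i' hi => hoff i' _ (hπ i') _ ((hJ i _ (hπ i)).2 _ (hOb i i' hi))) F hF
        fun i => Pool.Agent.W_7d29a1_HZ.ZE.OffRows.mono36 (hJ i _ (hπ i)).1 (hFo _ ⟨i, rfl⟩)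
    refine (sum_le_sum h2).trans ?_
    rw [sum_add_distrib, sum_const, Fintype.card_piFinset, nsmul_eq_mul, ← Finset.sum_mul, ← Finset.prod_univ_sum]
    refine add_le_add (mul_le_mul' (Finset.prod_le_prod' fun i _ => hR i) le_rfl) (mul_le_mul' ?_ le_rfl)
    push_cast
    refine (Finset.prod_le_prod' fun i _ => hX i).trans (le_of_eq ?_)
    rw [prod_const, card_univ, Fintype.card_fin]
  · rintro J' ⟨i, rfl⟩
    exact hfo i

/-- **THE PRODUCT PRICE**, weights which are blind to finite changes. -/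
theorem cv_prodF {k y : ℕ} {R : Fin k → ℝ≥0∞} {X pe : ℝ≥0∞} {e : Fin k → ℝ≥0∞} {Jf : Fin k → Finset ℕ}
    {Ob : Fin k → Finset (Finset ℕ)} {V : Fin k → Finset ℕ} {g : Fin k → Env → Finset ℕ → ℝ≥0∞}
    (h : ∀ i, Cv μ s N y (R i) X pe (e i) (Jf i) (Ob i) (V i) (g i)) (hOb : ∀ i i', i < i' → V i' ∈ Ob i)
    {f : Env → Finset ℕ → ℝ≥0∞} (hf : ∀ S, Measurable fun η => f η S) (hf1 : ∀ η S, f η S ≤ 1) (hfo : ∀ i, OffF (Jf i) f) :
    Q1 μ s N y (fun η S => f η S * ∏ i, g i η S) ≤ (∏ i, R i) * Q1 μ s N y f + (X ^ k * (k * pe) + ∑ i, e i) :=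
  off_fin (H := fun η S => ∏ i, g i η S) (I := Set.range Jf) (fun S => Finset.measurable_prod _ fun i _ => (h i).meas S)
    (fun η η' S hq => prod_congr rfl fun i _ => (h i).box η η' S hq)
    (fun f hf hf1 hfo => cv_prod h hOb hf hf1 fun i => hfo _ ⟨i, rfl⟩) f hf hf1 (by
      rintro _ ⟨i, rfl⟩
      exact hfo i)

end

end Pool.Agent.W_7d29a1_C0.N29
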