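import Pool.Agent.W_7d29a1_C0.MixP29

/-!
MP_7d29a1_pr, [CURV0] / [C0] (helper29): THE PRICE LIST WITH TWO KINDS OF PLACES (`price_mix`), end.
-/

set_option autoImplicit false

namespace Pool.Agent.W_7d29a1_C0.N29

open MeasureTheory ProbabilityTheory Filter Topology Finset
open Pool.Agent.W_7d29a1_F Pool.Agent.W_7d29a1_X Pool.Agent.W_7d29a1_h4g Pool.Agent.W_7d29a1_H
open Pool.Agent.W_7d29a1_HS (In wd md)
open Pool.Agent.W_7d29a1_HZ Pool.Agent.W_7d29a1_HZ.R72 Pool.Agent.W_7d29a1_Z.Asm72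
open Pool.Agent.W_7d29a1_HZ.Z86
open Pool.Agent.W_7d29a1_C0.Mod92 (Px Pn lw ps pJ ne_Pn ps_Pn pos_card ps_of_le ps_of_ge wm Pm meas_lw meas_cE meas_gz meas_gm int_Pm)
open Pool.Agent.W_7d29a1_C0.Swap57 (NI cE2)
open Pool.Agent.W_7d29a1_C0.P86
open Pool.Agent.W_7d29a1_C0.N51 (On3 mc3 mc3_nonneg P3 P3_mono' Pl3 pl3_wt K51 nm_mono)
open Pool.W7d29a1.C0 (gm gz gz_pos gm_nonneg gm_mono gm_const)
open Pool.W7d29a1.C0.VT31 (Mp cE gm_mul_cE fz cE_sum)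
open Pool.W7d29a1.C0.R43 (Tau Rp mI st swP_pJ tau_rp)
open scoped ENNReal

noncomputable section

variable {μ : Measure ℝ} {s : ℝ} {N : ℕ}

theorem dom_mono {y : ℕ} {X X' M : ℝ} {p : Plc} {G : Env × Finset ℕ → Px (Pn N y) → ℝ} (h : Dom μ s N y X M p G) (hX : X ≤ X') :
    Dom μ s N y X' M p G := by
  obtain ⟨h0, h1, h2⟩ := h
  refine ⟨h0, h1, h2.imp ?_ id⟩
  rintro ⟨hT, A, n₁, u, v, a1, a2, a3, a4⟩
  exact ⟨hT, A, n₁, u, v, a1.trans hX, a2, a3, fun ω x => (a4 ω x).trans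
    (mul_le_mul_of_nonneg_right (Real.exp_le_exp.2 hX) (mc_nonneg _ _))⟩

theorem domT_mono {y : ℕ} {X X' R : ℝ} {p : Plc} {G : Env × Finset ℕ → Px (Pn N y) → ℝ} (h : DomT μ s N y X R p G) (hX : X ≤ X') :
    DomT μ s N y X' R p G := by
  obtain ⟨h0, h1, h2, h3, A, h4, h5⟩ := h
  exact ⟨h0, h1, h2, h3, A, h4, fun ω x => (h5 ω x).trans (mul_le_mul_of_nonneg_right (Real.exp_le_exp.2 hX) (mc3_nonneg _ _))⟩

theorem Cv.mono {y : ℕ} {R X pe pe' e e' : ℝ≥0∞} {Jf V : Finset ℕ} {Ob : Finset (Finset ℕ)} {g : Env → Finset ℕ → ℝ≥0∞}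
    (h : Cv μ s N y R X pe e Jf Ob V g) (hp : pe ≤ pe') (he : e ≤ e') : Cv μ s N y R X pe' e' Jf Ob V g := by
  obtain ⟨P, r, NT, J, q1, q2, q3, q4, q5, q6, q7⟩ := h.ex
  exact ⟨h.meas, h.box, h.le_one, P, r, NT, J, q1, q2, fun p hp' F hF hFo => (q3 p hp' F hF hFo).trans (add_le_add le_rfl hp), q4, q5, q6,
    q7.trans he⟩

variable [IsProbabilityMeasure μ] {c₀ C₀ : ℝ} {n₀ : ℕ}

/-- **A place of the second kind is told by near ties.** -/
theorem cv_trip (hC : CoreR μ s) : ∀ ε θ : ℝ, 0 < ε → 0 < θ → ∃ δ κ c₁ c₂ : ℝ, 0 < δ ∧ 0 < κ ∧ 0 < c₁ ∧ 0 < c₂ ∧ ∃ L₀ : ℕ,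
    ∀ L : ℕ, L₀ ≤ L → ∀ N : ℕ, L ≤ 16 * N → N ≤ L → ∀ y : ℕ, y ≤ N → |(y : ℝ) - sl μ s * N| ≤ ((L : ℝ) ^ δ * wd' μ s N) →
    ∀ (p : Plc) (G : Env × Finset ℕ → Px (Pn N y) → ℝ) (R : ℝ), p.Ok L N θ → DomT μ s N y ((L : ℝ) ^ κ) R p G →
    ∀ Ob : Finset (Finset ℕ), (∀ O ∈ Ob, Disjoint (Ico p.U (p.U + p.l)) O) →
    ∃ g : Env → Finset ℕ → ℝ≥0∞, Cv μ s N y (ENNReal.ofReal ((R * ((L : ℝ) ^ ε * (EE' μ s p.l)⁻¹)) ^ 2)) (ENNReal.ofReal ((L : ℝ) ^ 3))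
      (ENNReal.ofReal (Real.exp (-(L : ℝ) ^ c₁))) (ENNReal.ofReal (Real.exp (-(L : ℝ) ^ c₂))) (Ico p.U (p.U + p.l)) Ob (Icc p.c' p.d') g ∧
      ∀ A₀ η S, ENNReal.ofReal (exP (G (η, A₀)) S) ≤ g η S := by
  intro ε θ hε hθ
  obtain ⟨δ, c₁, hδ, hc₁, L₁, hP⟩ := pl3_nt hC ε θ hε hθ
  obtain ⟨κ, c₂, hκ, -, hc₂, L₂, hNum⟩ := nte_num hc₁
  refine ⟨δ, κ, c₁, c₂, hδ, hκ, hc₁, hc₂, L₁ + L₂ + 1, ?_⟩
  intro L hL N hLN hNL y hyN hyc p G R hok hdom Ob hOb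
  classical
  obtain ⟨⟨b1, b2, b3, b4, b5, b6⟩, hl⟩ := hok
  obtain ⟨hG0, hG1, hUV, ⟨H, hR, hw, hH⟩, A, hA, hG⟩ := hdom
  have hL1 : (1 : ℝ) ≤ L := by exact_mod_cast (show 1 ≤ L by omega)
  have hPl := hP L (by omega) N hLN hNL y hyN hyc p.c' p.d' p.U p.V p.l b2 hUV b4 (b5.trans b6) hl H R hR hw hH
  have hX : (1 : ℝ≥0∞) ≤ ENNReal.ofReal ((L : ℝ) ^ 3) := by
    rw [← ENNReal.ofReal_one]
    exact ENNReal.ofReal_le_ofReal (one_le_pow₀ hL1)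
  have hcv := cv_tri (μ := μ) (s := s) hyN b1 b2 b3 b4 b5 b6 hA hX hPl (V' := Icc p.c' p.d') (fun a ha => by
    rw [mem_Ioc] at ha
    rw [mem_Icc]
    omega) (Subset.refl _) hOb (ENNReal.ofReal (Real.exp ((L : ℝ) ^ κ))) (2 * (L : ℝ) ^ κ)
  refine ⟨_, hcv.mono le_rfl ?_, fun A₀ η S => ?_⟩
  · refine le_trans (le_of_eq ?_) ((ENNReal.ofReal_le_ofReal (hNum L (by omega) N hNL)).trans' (ENNReal.ofReal_le_ofReal
      (le_add_of_nonneg_left (Real.exp_pos _).le)))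
    rw [ENNReal.ofReal_mul (Real.exp_pos _).le, ENNReal.ofReal_add (by positivity) (by positivity), ENNReal.ofReal_mul (Real.exp_pos _).le,
      ENNReal.ofReal_mul (p := 2) (by norm_num), ENNReal.ofReal_ofNat]
  · refine le_min (ENNReal.ofReal_le_one.2 (exP_le (hG1 (η, A₀)) S)) ?_
    rw [← ENNReal.ofReal_mul (Real.exp_pos _).le]
    refine ENNReal.ofReal_le_ofReal ?_
    unfold exP
    by_cases hS : S ∈ Pn N y
    · rw [dif_pos hS]
      exact hG (η, A₀) ⟨S, hS⟩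
    · rw [dif_neg hS]
      exact mul_nonneg (Real.exp_pos _).le (mc3_nonneg _ _)

omit [IsProbabilityMeasure μ] in
theorem fin_num (k : ℕ) {c : ℝ} (hc : 0 < c) : ∃ c₂ : ℝ, 0 < c₂ ∧ ∃ L₀ : ℕ, ∀ L : ℕ, L₀ ≤ L →
    ((L : ℝ) ^ 3) ^ k * (k * Real.exp (-(L : ℝ) ^ c)) + k * Real.exp (-(L : ℝ) ^ c) ≤ Real.exp (-(L : ℝ) ^ c₂) := by
  obtain ⟨c₂, hc₂, -, L₂, hX⟩ := Pool.Agent.W_7d29a1_Z.NumI77.pow_exp hc (3 * k + 2)
  refine ⟨c₂, hc₂, L₂ + 2 * k + 2, fun L hL => le_trans ?_ (hX L (by omega))⟩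
  have hL1 : (1 : ℝ) ≤ L := by exact_mod_cast (show 1 ≤ L by omega)
  have hL0 : (0 : ℝ) < L := by linarith
  have hkL : 2 * (k : ℝ) ≤ L := by exact_mod_cast (show 2 * k ≤ L by omega)
  have hk0 : (0 : ℝ) ≤ k := Nat.cast_nonneg k
  have e1 : (L : ℝ) ^ (3 * (k : ℝ) + 2) = ((L : ℝ) ^ 3) ^ k * (L : ℝ) ^ 2 := by
    rw [Real.rpow_add hL0, Real.rpow_mul hL0.le, Real.rpow_natCast]
    congr 1
    · congr 1
      rw [← Real.rpow_natCast]
      norm_num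
    · rw [← Real.rpow_natCast]
      norm_num
  rw [e1]
  have hZ : 1 ≤ ((L : ℝ) ^ 3) ^ k := one_le_pow₀ (one_le_pow₀ hL1)
  have hp := (Real.exp_pos (-(L : ℝ) ^ c)).le
  have g1 : ((L : ℝ) ^ 3) ^ k * k + k ≤ ((L : ℝ) ^ 3) ^ k * (L : ℝ) ^ 2 := by
    have a1 : (k : ℝ) ≤ ((L : ℝ) ^ 3) ^ k * k := le_mul_of_one_le_left hk0 hZ
    have a2 : 2 * (k : ℝ) ≤ (L : ℝ) ^ 2 := by nlinarith
    have a3 := mul_le_mul_of_nonneg_left a2 (show 0 ≤ ((L : ℝ) ^ 3) ^ k by linarith)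
    linarith
  have g2 := mul_le_mul_of_nonneg_right g1 hp
  linarith

/-- **THE PRICE LIST WITH TWO KINDS OF PLACES.** -/
theorem price_mix (h : In μ s c₀ C₀ n₀) (hC : CoreR μ s) (k : ℕ) (hk : k ≤ 8) : ∀ ε θ : ℝ, 0 < ε → 0 < θ →
    ∃ δ κ c₂ : ℝ, 0 < δ ∧ 0 < κ ∧ 0 < c₂ ∧ ∃ L₀ : ℕ,
    ∀ L : ℕ, L₀ ≤ L → ∀ N : ℕ, L ≤ 16 * N → N ≤ L → ∀ y : ℕ, y ≤ N → |(y : ℝ) - sl μ s * N| ≤ ((L : ℝ) ^ δ * wd' μ s N) →
    ∀ M : ℝ, 8 ≤ M → M ≤ (L : ℝ) ^ κ →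
    ∀ Ps : List (Pla N y), Ps.length = k → (∀ P ∈ Ps, P.p.Ok L N θ) → Ps.Pairwise Pla.Bef → (∀ P ∈ Ps, P.Dm μ s ((L : ℝ) ^ κ) M) →
    ∀ f : Env × Finset ℕ → Px (Pn N y) → ℝ, (∀ A x, Measurable fun η => f (η, A) x) → (∀ ω x, 0 ≤ f ω x) → (∀ ω x, f ω x ≤ 1) →
    (∀ P ∈ Ps, ∀ (η η' : Env) A x, (∃ E : Finset Pt, (∀ q ∈ E, 0 ≤ q.1 ∧ q.1.toNat ∈ P.J) ∧ ∀ q, q ∉ E → η q = η' q) →
      f (η, A) x = f (η', A) x) →
    ∫ ω, gm (wm μ s N (Pn N y) ω) (fun x => f ω x * (Ps.map fun P => P.G ω x).prod) ∂(Pm μ N) ≤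
      (Ps.map fun P => P.pr μ s L ε).prod * ∫ ω, gm (wm μ s N (Pn N y) ω) (f ω) ∂(Pm μ N) +
        (Real.exp (-(L : ℝ) ^ c₂) + 2 * k * Real.exp (-M)) := by
  intro ε θ hε hθ
  obtain ⟨δ₁, κ₁, a₁, b₁, hδ₁, hκ₁, ha₁, hb₁, L₁, hP1⟩ := cv_place h ε θ hε hθ
  obtain ⟨δ₂, κ₂, a₂, b₂, hδ₂, hκ₂, ha₂, hb₂, L₂, hP2⟩ := cv_trip hC ε θ hε hθ
  obtain ⟨c, hcd⟩ : ∃ c : ℝ, c = min (min a₁ a₂) (min b₁ b₂) := ⟨_, rfl⟩
  have hc : 0 < c := by rw [hcd]; exact lt_min (lt_min ha₁ ha₂) (lt_min hb₁ hb₂)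
  obtain ⟨c₂, hc₂, L₃, hNum⟩ := fin_num k hc
  refine ⟨min δ₁ δ₂, min κ₁ κ₂, c₂, lt_min hδ₁ hδ₂, lt_min hκ₁ hκ₂, hc₂, L₁ + L₂ + L₃ + 1, ?_⟩
  intro L hL N hLN hNL y hyN hyc M hM hML Ps hlen hok hpw hdom f hfm hf0 hf1 hfo
  subst hlen
  classical
  have hL1 : 1 ≤ L := by omega
  have hLR : (1 : ℝ) ≤ L := by exact_mod_cast hL1
  have hwd : 0 < wd' μ s N := lt_of_lt_of_le zero_lt_one (le_max_left _ _)
  have hy1 : |(y : ℝ) - sl μ s * N| ≤ ((L : ℝ) ^ δ₁ * wd' μ s N) := hyc.trans (mul_le_mul_of_nonneg_right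
    (Real.rpow_le_rpow_of_exponent_le hLR (min_le_left _ _)) hwd.le)
  have hy2 : |(y : ℝ) - sl μ s * N| ≤ ((L : ℝ) ^ δ₂ * wd' μ s N) := hyc.trans (mul_le_mul_of_nonneg_right
    (Real.rpow_le_rpow_of_exponent_le hLR (min_le_right _ _)) hwd.le)
  have hk1 : (L : ℝ) ^ min κ₁ κ₂ ≤ (L : ℝ) ^ κ₁ := Real.rpow_le_rpow_of_exponent_le hLR (min_le_left _ _)
  have hk2 : (L : ℝ) ^ min κ₁ κ₂ ≤ (L : ℝ) ^ κ₂ := Real.rpow_le_rpow_of_exponent_le hLR (min_le_right _ _)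
  have hexp : ∀ {a : ℝ}, c ≤ a → ENNReal.ofReal (Real.exp (-(L : ℝ) ^ a)) ≤ ENNReal.ofReal (Real.exp (-(L : ℝ) ^ c)) := fun ha =>
    ENNReal.ofReal_le_ofReal (Pool.Agent.W_7d29a1_Z.NumI77.exp_mono ha hL1)
  have hca1 : c ≤ a₁ := by rw [hcd]; exact (min_le_left _ _).trans (min_le_left _ _)
  have hca2 : c ≤ a₂ := by rw [hcd]; exact (min_le_left _ _).trans (min_le_right _ _)
  have hcb1 : c ≤ b₁ := by rw [hcd]; exact (min_le_right _ _).trans (min_le_left _ _)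
  have hcb2 : c ≤ b₂ := by rw [hcd]; exact (min_le_right _ _).trans (min_le_right _ _)
  have hmem : ∀ i : Fin Ps.length, Ps.get i ∈ Ps := fun i => List.get_mem Ps i
  have hpw' := List.pairwise_iff_get.1 hpw
  obtain ⟨Ob, hObd⟩ : ∃ Ob : Fin Ps.length → Finset (Finset ℕ), Ob = fun i =>
    (univ.filter fun i' : Fin Ps.length => i < i').image fun i' => Icc (Ps.get i').p.c' (Ps.get i').p.d' := ⟨_, rfl⟩
  have hObi : ∀ i O, O ∈ Ob i → ∃ i', i < i' ∧ O = Icc (Ps.get i').p.c' (Ps.get i').p.d' := by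
    intro i O hO
    rw [hObd] at hO
    obtain ⟨i', hi', rfl⟩ := mem_image.1 hO
    exact ⟨i', (mem_filter.1 hi').2, rfl⟩
  have hcv : ∀ i : Fin Ps.length, ∃ g : Env → Finset ℕ → ℝ≥0∞, Cv μ s N y (ENNReal.ofReal ((Ps.get i).pr μ s L ε))
      (ENNReal.ofReal ((L : ℝ) ^ 3)) (ENNReal.ofReal (Real.exp (-(L : ℝ) ^ c))) (ENNReal.ofReal (Real.exp (-(L : ℝ) ^ c)) +
      (ENNReal.ofReal (Real.exp (-M)) + ENNReal.ofReal (Real.exp (-M)))) ((Ps.get i).J) (Ob i)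
      (Icc (Ps.get i).p.c' (Ps.get i).p.d') g ∧ ∀ A₀ η S, ENNReal.ofReal (exP ((Ps.get i).G (η, A₀)) S) ≤ g η S := by
    intro i
    have hd := hdom _ (hmem i)
    have hbef : ∀ i', i < i' → Pla.Bef (Ps.get i) (Ps.get i') := fun i' hi' => hpw' i i' hi'
    have hbl := (hok _ (hmem i)).1
    unfold Pla.Dm at hd
    unfold Pla.pr Pla.J
    cases htr : (Ps.get i).tr with
    | none =>
      rw [htr] at hd
      have hOT : ObT (Ps.get i).p (Ob i) := by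
        unfold ObT
        cases hty : (Ps.get i).p.ty with
        | L =>
          intro O hO
          obtain ⟨i', hi', rfl⟩ := hObi i O hO
          have hb := hbef i' hi'
          unfold Pla.Bef at hb
          rw [htr] at hb
          unfold Plc.Bef at hb
          rw [hty] at hb
          rcases hb with g | g | ⟨g0, g1, g2⟩
          · refine Or.inl (disjoint_left.2 fun a ha ha' => ?_)
            rw [mem_Ioo] at ha
            rw [mem_Icc] at ha'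
            omega
          · refine Or.inl (disjoint_left.2 fun a ha ha' => ?_)
            rw [mem_Ioo] at ha
            rw [mem_Icc] at ha'
            omega
          · exact Or.inr ⟨g0, _, _, Subset.refl _, g1, g2⟩
        | R =>
          intro O hO
          obtain ⟨i', hi', rfl⟩ := hObi i O hO
          have hb := hbef i' hi'
          unfold Pla.Bef at hb
          rw [htr] at hb
          unfold Plc.Bef at hb
          rw [hty] at hb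
          refine disjoint_left.2 fun a ha ha' => ?_
          rw [mem_Ioo] at ha
          rw [mem_Icc] at ha'
          rcases hb with g | g <;> omega
        | M =>
          intro O hO
          obtain ⟨i', hi', rfl⟩ := hObi i O hO
          have hb := hbef i' hi'
          unfold Pla.Bef at hb
          rw [htr] at hb
          unfold Plc.Bef at hb
          rw [hty] at hb
          refine disjoint_left.2 fun a ha ha' => ?_
          rw [mem_Ioo] at ha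
          rw [mem_Icc] at ha'
          rcases hb with g | g <;> omega
      obtain ⟨g, hg1, hg2⟩ := hP1 L (by omega) N hLN hNL y hyN hy1 M hM (hML.trans hk1) (Ps.get i).p (Ps.get i).G (hok _ (hmem i))
        (dom_mono hd hk1) (Ob i) (by rw [hObd]; exact card_ob hk i _) hOT
      exact ⟨g, hg1.mono (hexp hca1) (add_le_add (hexp hcb1) le_rfl), hg2⟩
    | some R =>
      rw [htr] at hd
      obtain ⟨g, hg1, hg2⟩ := hP2 L (by omega) N hLN hNL y hyN hy2 (Ps.get i).p (Ps.get i).G R (hok _ (hmem i))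
        (domT_mono hd hk2) (Ob i) fun O hO => by
          obtain ⟨i', hi', rfl⟩ := hObi i O hO
          have hb := hbef i' hi'
          unfold Pla.Bef at hb
          rw [htr] at hb
          refine disjoint_left.2 fun a ha ha' => ?_
          rw [mem_Ico] at ha
          rw [mem_Icc] at ha'
          rcases hb with g | g <;> omega
      exact ⟨g, hg1.mono (hexp hca2) ((hexp hcb2).trans le_self_add), hg2⟩
  choose g hg1 hg2 using hcv
  have hr0 : ∀ i : Fin Ps.length, 0 ≤ (Ps.get i).pr μ s L ε := by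
    intro i
    have hE : 0 < EE' μ s (Ps.get i).p.l := lt_of_lt_of_le one_pos (le_max_left _ _)
    unfold Pla.pr
    split
    · positivity
    · positivity
  have hG0 : ∀ (i : Fin Ps.length) ω x, 0 ≤ (Ps.get i).G ω x := fun i => Pla.g0 (hdom _ (hmem i))
  have e1 : ∀ ω x, (Ps.map fun P => P.G ω x).prod = ∏ i : Fin Ps.length, (Ps.get i).G ω x := fun ω x =>
    (prod_get Ps fun P => P.G ω x).symm
  rw [← prod_get Ps fun P => P.pr μ s L ε]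
  refine le_trans (le_of_eq ?_) (int_of_Q1 (X := fun ω x => f ω x * ∏ i : Fin Ps.length, (Ps.get i).G ω x) hyN
    (fun ω x => mul_nonneg (hf0 ω x) (prod_nonneg fun i _ => hG0 i ω x)) hfm hf0 hf1 (prod_nonneg fun i _ => hr0 i)
    (by positivity) fun A₀ => ?_)
  · congr 1
    funext ω
    congr 1
    funext x
    rw [e1]
  · have k1 : Q1 μ s N y (fun η S => ENNReal.ofReal (exP (fun x => f (η, A₀) x * ∏ i : Fin Ps.length, (Ps.get i).G (η, A₀) x) S)) ≤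
        Q1 μ s N y (fun η S => ENNReal.ofReal (exP (f (η, A₀)) S) * ∏ i, g i η S) := by
      refine Q1_mono fun η S _ _ => ?_
      by_cases hS : S ∈ Pn N y
      · have e2 : ∀ φ : Px (Pn N y) → ℝ, exP φ S = φ ⟨S, hS⟩ := fun φ => by
          unfold exP
          rw [dif_pos hS]
        rw [e2, e2, ENNReal.ofReal_mul (hf0 _ _), ENNReal.ofReal_prod_of_nonneg fun i _ => hG0 i _ _]
        refine mul_le_mul' le_rfl (prod_le_prod' fun i _ => ?_)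
        have := hg2 i A₀ η S
        rwa [e2] at this
      · unfold exP
        rw [dif_neg hS, ENNReal.ofReal_zero]
        exact zero_le
    have k2 := cv_prodF hg1 (fun i i' hi => by
      rw [hObd]
      exact mem_image.2 ⟨i', mem_filter.2 ⟨mem_univ _, hi⟩, rfl⟩) (f := fun η S => ENNReal.ofReal (exP (f (η, A₀)) S)) (fun S => ?_)
      (fun η S => ENNReal.ofReal_le_one.2 (exP_le (hf1 (η, A₀)) S)) (fun i η η' S hη => ?_)
    · refine k1.trans (k2.trans ?_)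
      rw [ENNReal.ofReal_prod_of_nonneg fun i _ => hr0 i]
      refine add_le_add le_rfl ?_
      have hk' : ((Ps.length : ℕ) : ℝ≥0∞) = ENNReal.ofReal (Ps.length : ℝ) := by rw [ENNReal.ofReal_natCast]
      have hs : ∑ _i : Fin Ps.length, (ENNReal.ofReal (Real.exp (-(L : ℝ) ^ c)) + (ENNReal.ofReal (Real.exp (-M)) +
          ENNReal.ofReal (Real.exp (-M)))) = ENNReal.ofReal ((Ps.length : ℝ) * (Real.exp (-(L : ℝ) ^ c) + (Real.exp (-M) + Real.exp (-M)))) := by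
        rw [sum_const, card_univ, Fintype.card_fin, nsmul_eq_mul, hk', ENNReal.ofReal_mul (Nat.cast_nonneg _),
          ENNReal.ofReal_add (Real.exp_pos _).le (by positivity), ENNReal.ofReal_add (Real.exp_pos _).le (Real.exp_pos _).le]
      have ht : ENNReal.ofReal ((L : ℝ) ^ 3) ^ Ps.length * ((Ps.length : ℕ) * ENNReal.ofReal (Real.exp (-(L : ℝ) ^ c))) =
          ENNReal.ofReal (((L : ℝ) ^ 3) ^ Ps.length * (Ps.length * Real.exp (-(L : ℝ) ^ c))) := by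
        rw [hk', ENNReal.ofReal_mul (by positivity), ENNReal.ofReal_mul (Nat.cast_nonneg _),
          ENNReal.ofReal_pow (show (0 : ℝ) ≤ (L : ℝ) ^ 3 by positivity) _]
      rw [hs, ht, ← ENNReal.ofReal_add (by positivity) (by positivity)]
      refine ENNReal.ofReal_le_ofReal ?_
      have := hNum L (by omega)
      linarith
    · refine ENNReal.measurable_ofReal.comp ?_
      unfold exP
      by_cases hS : S ∈ Pn N y
      · simp only [dif_pos hS]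
        exact hfm A₀ _
      · simp only [dif_neg hS]
        exact measurable_const
    · show ENNReal.ofReal (exP (f (η, A₀)) S) = ENNReal.ofReal (exP (f (η', A₀)) S)
      congr 1
      unfold exP
      by_cases hS : S ∈ Pn N y
      · rw [dif_pos hS, dif_pos hS]
        exact hfo _ (hmem i) η η' A₀ ⟨S, hS⟩ hη
      · rw [dif_neg hS, dif_neg hS]

end

end Pool.Agent.W_7d29a1_C0.N29
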