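import Pool.Agent.W_7d29a1_C0.Mix29
import Pool.Agent.W_7d29a1_C0.PrL86

/-!
MP_7d29a1_pr, [CURV0] / [C0] (helper29): THE PRICE LIST WITH TWO KINDS OF PLACES. A `Pla` is a place (`Plc` of helper86) with its functional;
`tr = none`: one alternative (`Dom`), price `L ^ ε / EE' l`; `tr = some R`: two alternatives (`DomT`), price `(R L ^ ε / EE' l) ^ 2`, it uses
the rows `[U, U + l)` only. `price_mix`: `∫ gm (f * ∏ G) ≤ ∏ prices ∫ gm f + error`, `f` blind to finite changes of the rows used.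
-/

set_option autoImplicit false

namespace Pool.Agent.W_7d29a1_C0.N29

open MeasureTheory ProbabilityTheory Filter Topology Finset
open Pool.Agent.W_7d29a1_F Pool.Agent.W_7d29a1_X Pool.Agent.W_7d29a1_h4g Pool.Agent.W_7d29a1_H
open Pool.Agent.W_7d29a1_HS (In wd md)
open Pool.Agent.W_7d29a1_HZ Pool.Agent.W_7d29a1_HZ.R72 Pool.Agent.W_7d29a1_Z.Asm72
open Pool.Agent.W_7d29a1_HZ.Z86
open Pool.Agent.W_7d29a1_C0.Mod92 (Px Pn lw ps pJ ne_Pn ps_Pn pos_card ps_of_le ps_of_ge wm Pm meas_lw meas_cE meas_gz meas_gm int_Pm)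
open Pool.Agent.W_7d29a1_C0.Swap57 (NI cE2)
open Pool.Agent.W_7d29a1_C0.P86
open Pool.Agent.W_7d29a1_C0.N51 (On3 mc3 mc3_nonneg P3 P3_mono' Pl3 pl3_wt K51 nm_mono)
open Pool.W7d29a1.C0 (gm gz gz_pos gm_nonneg gm_mono gm_const)
open Pool.W7d29a1.C0.VT31 (Mp cE gm_mul_cE fz cE_sum)
open Pool.W7d29a1.C0.R43 (Tau Rp mI st swP_pJ tau_rp)
open scoped ENNReal

noncomputable section

variable {μ : Measure ℝ} {s : ℝ} {N : ℕ}

/-! ### Places with their functionals -/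

/-- A place with its functional. -/
structure Pla (N y : ℕ) where
  p : Plc
  G : Env × Finset ℕ → Px (Pn N y) → ℝ
  tr : Option ℝ

variable {y : ℕ}

/-- The rows used. -/
def Pla.J (P : Pla N y) : Finset ℕ :=
  match P.tr with
  | none => P.p.J
  | some _ => Ico P.p.U (P.p.U + P.p.l)

/-- The price. -/
def Pla.pr (μ : Measure ℝ) (s : ℝ) (L : ℕ) (ε : ℝ) (P : Pla N y) : ℝ :=
  match P.tr with
  | none => (L : ℝ) ^ ε * (EE' μ s P.p.l)⁻¹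
  | some R => (R * ((L : ℝ) ^ ε * (EE' μ s P.p.l)⁻¹)) ^ 2

/-- `P` may be priced before `P'`. -/
def Pla.Bef (P P' : Pla N y) : Prop :=
  match P.tr with
  | none => P.p.Bef P'.p
  | some _ => P'.p.d' < P.p.U ∨ P.p.U + P.p.l ≤ P'.p.c'

/-- `G` is dominated by the mass of two alternatives, amplified by `exp X`. -/
def DomT (μ : Measure ℝ) (s : ℝ) (N y : ℕ) (X R : ℝ) (p : Plc) (G : Env × Finset ℕ → Px (Pn N y) → ℝ) : Prop :=
  (∀ ω x, 0 ≤ G ω x) ∧ (∀ ω x, G ω x ≤ 1) ∧ p.U + p.l ≤ p.V ∧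
    (∃ H : ℕ, 1 ≤ R ∧ (∀ j : ℕ, 1 ≤ j → j ≤ H → wd' μ s j ≤ R * wd' μ s p.l) ∧ (p.d' - p.U ≤ H ∨ p.V - p.c' ≤ H)) ∧
    ∃ A : Finset ℕ → Finset ℕ → Finset ℕ → Prop,
      (∀ S a b, S ∈ Pn N y → a ∈ Pn N y → b ∈ Pn N y → (∀ j, j ≤ p.c ∨ p.d ≤ j → pos S j = pos a j) →
        (∀ j, j ≤ p.c ∨ p.d ≤ j → pos S j = pos b j) → A S a b → A3 p.c' p.d' p.U p.V S a b) ∧
      ∀ ω x, G ω x ≤ Real.exp X * mc3 μ s N y p.c p.d p.c p.d A ω.1 x.1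

/-- The functional is dominated by its place. -/
def Pla.Dm (μ : Measure ℝ) (s : ℝ) (X M : ℝ) (P : Pla N y) : Prop :=
  match P.tr with
  | none => Dom μ s N y X M P.p P.G
  | some R => DomT μ s N y X R P.p P.G

theorem Pla.g0 {X M : ℝ} {P : Pla N y} (h : P.Dm μ s X M) : ∀ ω x, 0 ≤ P.G ω x := by
  unfold Pla.Dm at h
  split at h
  · exact h.1
  · exact h.1

theorem Pla.g1 {X M : ℝ} {P : Pla N y} (h : P.Dm μ s X M) : ∀ ω x, P.G ω x ≤ 1 := by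
  unfold Pla.Dm at h
  split at h
  · exact h.2.1
  · exact h.2.1

/-- `NT` of a block is dominated by its place. -/
theorem domT_NT (hy : y ≤ N) {X R : ℝ} {H c d U V l : ℕ} {ty : Ty} {T : Prop} (h1 : c ≤ U) (h2 : U + l ≤ V) (h3 : V ≤ d) (hR : 1 ≤ R)
    (hw : ∀ j : ℕ, 1 ≤ j → j ≤ H → wd' μ s j ≤ R * wd' μ s l) (hH : d - U ≤ H ∨ V - c ≤ H)
    {G : Env × Finset ℕ → Px (Pn N y) → ℝ} (hG0 : ∀ ω x, 0 ≤ G ω x) (hG1 : ∀ ω x, G ω x ≤ 1)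
    (hG : ∀ ω x, G ω x ≤ Real.exp X * Pool.W7d29a1.C0.O1.NT (wm μ s N (Pn N y) ω) (pJ c d) U V x) :
    DomT μ s N y X R ⟨c, d, c, d, U, V, l, ty, T⟩ G := by
  refine ⟨hG0, hG1, h2, ⟨H, hR, hw, hH⟩, A3 c d U V, fun S a b _ _ _ _ _ h => h, fun ω x => (hG ω x).trans (le_of_eq ?_)⟩
  congr 1
  exact NT_mc3 hy h1 h3 ω.1 x

/-! ### Each place is told by near ties -/

variable [IsProbabilityMeasure μ] {c₀ C₀ : ℝ} {n₀ : ℕ}

/-- The obstacles of a place of the first kind. -/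
def ObT (p : Plc) (Ob : Finset (Finset ℕ)) : Prop :=
  match p.ty with
  | Ty.L => ∀ O ∈ Ob, Disjoint (Ioo p.c' p.d') O ∨ (¬ p.T ∧ ∃ a b, O ⊆ Icc a b ∧ (b ≤ p.U ∨ p.V ≤ a) ∧ 4 * (b - a) ≤ p.l)
  | Ty.R => ∀ O ∈ Ob, Disjoint (Ioo p.U p.d') O
  | Ty.M => ∀ O ∈ Ob, Disjoint (Ioo p.c' p.V) O

theorem ObT.plt {p : Plc} {Ob : Finset (Finset ℕ)} (h : ObT p Ob) {l : ℕ} (hl : ¬ p.T → p.l ≤ l) :
    PlT p.J p.c' p.d' p.U p.V l Ob := by
  unfold ObT at h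
  unfold PlT Plc.J
  cases hty : p.ty with
  | L =>
    rw [hty] at h
    refine Or.inl ⟨rfl, fun O hO => (h O hO).imp id ?_⟩
    rintro ⟨hT, a, b, g1, g2, g3⟩
    exact ⟨a, b, g1, g2, g3.trans (hl hT)⟩
  | R =>
    rw [hty] at h
    exact Or.inr (Or.inl ⟨rfl, h⟩)
  | M =>
    rw [hty] at h
    exact Or.inr (Or.inr ⟨rfl, h⟩)

omit [IsProbabilityMeasure μ] in
theorem mix_num {c₁ : ℝ} (hc : 0 < c₁) : ∃ κ c₂ : ℝ, 0 < κ ∧ 0 < c₂ ∧ ∃ L₀ : ℕ, ∀ L : ℕ, L₀ ≤ L → ∀ N : ℕ, N ≤ L →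
    Real.exp ((L : ℝ) ^ κ) * (Real.exp (2 * (L : ℝ) ^ κ) * ((L : ℝ) ^ 3 * Real.exp (-(L : ℝ) ^ c₁)) +
      ((N : ℝ) + 1) ^ 2 * Real.exp (-(2 * (L : ℝ) ^ κ))) ≤ Real.exp (-(L : ℝ) ^ c₂) := by
  obtain ⟨c₂, hc₂, -, L₂, hX⟩ := Pool.Agent.W_7d29a1_Z.NumI77.pow_exp (show 0 < c₁ / 4 by positivity) 4
  obtain ⟨L₃, hL₃⟩ := Pool.Agent.W_7d29a1_Z.NumI77.large (show 0 < c₁ / 4 by positivity) 4
  refine ⟨c₁ / 4, c₂, by positivity, hc₂, L₂ + L₃ + 100, ?_⟩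
  intro L hL N hNL
  have hL100 : (100 : ℝ) ≤ L := by exact_mod_cast (show 100 ≤ L by omega)
  have hL0 : (0 : ℝ) < L := by linarith
  obtain ⟨x, hx⟩ : ∃ x : ℝ, x = (L : ℝ) ^ (c₁ / 4) := ⟨_, rfl⟩
  obtain ⟨-, hx4, -⟩ := hL₃ L (by omega)
  have h5 := hX L (by omega)
  rw [← hx] at hx4 h5 ⊢
  have hxx : (L : ℝ) ^ c₁ = x ^ 4 := by
    rw [hx, ← Real.rpow_natCast, ← Real.rpow_mul hL0.le]
    congr 1
    push_cast
    ring
  rw [hxx]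
  refine le_trans ?_ h5
  have g0 : 6 * x ≤ x ^ 4 := by
    have h1 : (64 : ℝ) ≤ x ^ 3 := by nlinarith [sq_nonneg x]
    nlinarith
  have hNL' : (N : ℝ) ≤ L := by exact_mod_cast hNL
  have hN0 : (0 : ℝ) ≤ N := Nat.cast_nonneg N
  have g3 : ((N : ℝ) + 1) ^ 2 ≤ 4 * (L : ℝ) ^ 2 := by nlinarith
  have g1 : Real.exp x * (Real.exp (2 * x) * Real.exp (-x ^ 4)) ≤ Real.exp (-x) := by
    rw [← Real.exp_add, ← Real.exp_add, Real.exp_le_exp]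
    linarith
  have g2 : Real.exp x * Real.exp (-(2 * x)) = Real.exp (-x) := by
    rw [← Real.exp_add]
    congr 1
    ring
  have hp0 := (Real.exp_pos (-x)).le
  have e4 : (L : ℝ) ^ (4 : ℝ) = (L : ℝ) ^ 4 := by
    rw [← Real.rpow_natCast]
    norm_num
  rw [e4]
  calc _ = (L : ℝ) ^ 3 * (Real.exp x * (Real.exp (2 * x) * Real.exp (-x ^ 4))) +
        ((N : ℝ) + 1) ^ 2 * (Real.exp x * Real.exp (-(2 * x))) := by ring
    _ ≤ (L : ℝ) ^ 3 * Real.exp (-x) + 4 * (L : ℝ) ^ 2 * Real.exp (-x) := by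
        rw [g2]
        exact add_le_add (mul_le_mul_of_nonneg_left g1 (by positivity)) (mul_le_mul_of_nonneg_right g3 hp0)
    _ = ((L : ℝ) ^ 3 + 4 * (L : ℝ) ^ 2) * Real.exp (-x) := by ring
    _ ≤ (L : ℝ) ^ 4 * Real.exp (-x) := by
        refine mul_le_mul_of_nonneg_right ?_ hp0
        have a1 : 4 * (L : ℝ) ^ 2 ≤ (L : ℝ) ^ 3 := by nlinarith [sq_nonneg (L : ℝ)]
        have a2 : 2 * (L : ℝ) ^ 3 ≤ (L : ℝ) ^ 4 := by
          have : (L : ℝ) ^ 4 = L * (L : ℝ) ^ 3 := by ring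
          rw [this]
          exact mul_le_mul_of_nonneg_right (by linarith) (by positivity)
        linarith

/-- **A place of the first kind is told by near ties.** -/
theorem cv_place (h : In μ s c₀ C₀ n₀) : ∀ ε θ : ℝ, 0 < ε → 0 < θ → ∃ δ κ c₁ c₂ : ℝ, 0 < δ ∧ 0 < κ ∧ 0 < c₁ ∧ 0 < c₂ ∧ ∃ L₀ : ℕ,
    ∀ L : ℕ, L₀ ≤ L → ∀ N : ℕ, L ≤ 16 * N → N ≤ L → ∀ y : ℕ, y ≤ N → |(y : ℝ) - sl μ s * N| ≤ ((L : ℝ) ^ δ * wd' μ s N) →
    ∀ M : ℝ, 8 ≤ M → M ≤ (L : ℝ) ^ κ → ∀ (p : Plc) (G : Env × Finset ℕ → Px (Pn N y) → ℝ), p.Ok L N θ → Dom μ s N y ((L : ℝ) ^ κ) M p G →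
    ∀ Ob : Finset (Finset ℕ), Ob.card ≤ 7 → ObT p Ob →
    ∃ g : Env → Finset ℕ → ℝ≥0∞, Cv μ s N y (ENNReal.ofReal ((L : ℝ) ^ ε * (EE' μ s p.l)⁻¹)) (ENNReal.ofReal ((L : ℝ) ^ 3))
      (ENNReal.ofReal (Real.exp (-(L : ℝ) ^ c₁))) (ENNReal.ofReal (Real.exp (-(L : ℝ) ^ c₂)) +
        (ENNReal.ofReal (Real.exp (-M)) + ENNReal.ofReal (Real.exp (-M)))) p.J Ob (Icc p.c' p.d') g ∧
      ∀ A₀ η S, ENNReal.ofReal (exP (G (η, A₀)) S) ≤ g η S := by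
  intro ε θ hε hθ
  obtain ⟨δ, c₁, hδ, hc₁, L₁, hP⟩ := pf_place h (ε / 2) (θ / 2) (by positivity) (by positivity)
  obtain ⟨κ₂, c₂, hκ₂, hc₂, L₃, hNumE⟩ := mix_num hc₁
  obtain ⟨κ₁, hκ₁d⟩ : ∃ κ₁, κ₁ = min κ₂ (min (ε / 8) 1) := ⟨_, rfl⟩
  have hκ₁ : 0 < κ₁ := by
    rw [hκ₁d]
    exact lt_min hκ₂ (lt_min (by positivity) one_pos)
  obtain ⟨κ, hκd⟩ : ∃ κ, κ = min (κ₁ / 2) (min (ε / 4) (min (θ / 4) (1 / 2))) := ⟨_, rfl⟩
  have hκ : 0 < κ := by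
    rw [hκd]
    exact lt_min (by positivity) (lt_min (by positivity) (lt_min (by positivity) (by norm_num)))
  have k1 : κ < κ₁ := by
    have : κ ≤ κ₁ / 2 := by rw [hκd]; exact min_le_left _ _
    linarith
  have k2 : κ < ε / 2 := by
    have : κ ≤ ε / 4 := by rw [hκd]; exact (min_le_right _ _).trans (min_le_left _ _)
    linarith
  have k3 : κ < θ / 2 := by
    have : κ ≤ θ / 4 := by rw [hκd]; exact (min_le_right _ _).trans ((min_le_right _ _).trans (min_le_left _ _))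
    linarith
  have k4 : κ < 1 := by
    have : κ ≤ 1 / 2 := by rw [hκd]; exact (min_le_right _ _).trans ((min_le_right _ _).trans (min_le_right _ _))
    linarith
  obtain ⟨L₂, hNum⟩ := tau_num hκ k1 k2 k3 k4 hθ
  refine ⟨δ, κ, c₁, c₂, hδ, hκ, hc₁, hc₂, L₁ + L₂ + L₃ + 1, ?_⟩
  intro L hL N hLN hNL y hyN hyc M hM hML p G hok hdom Ob hObc hOb
  classical
  have hL1 : (1 : ℝ) ≤ L := by exact_mod_cast (show 1 ≤ L by omega)
  have hLp : (0 : ℝ) < L := by linarith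
  have hpk : (L : ℝ) ^ κ ≤ (L : ℝ) ^ κ₁ := Real.rpow_le_rpow_of_exponent_le hL1 k1.le
  have hp12 : (L : ℝ) ^ κ₁ ≤ (L : ℝ) ^ κ₂ := Real.rpow_le_rpow_of_exponent_le hL1 (by rw [hκ₁d]; exact min_le_left _ _)
  have hp18 : (L : ℝ) ^ κ₁ ≤ (L : ℝ) ^ (ε / 2 / 4) := Real.rpow_le_rpow_of_exponent_le hL1 (by
    have : κ₁ ≤ ε / 8 := by rw [hκ₁d]; exact (min_le_right _ _).trans (min_le_left _ _)
    linarith)
  have hpt : (L : ℝ) ^ (θ / 2) ≤ (L : ℝ) ^ θ := Real.rpow_le_rpow_of_exponent_le hL1 (by linarith)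
  have hpe : (L : ℝ) ^ (ε / 2) ≤ (L : ℝ) ^ ε := Real.rpow_le_rpow_of_exponent_le hL1 (by linarith)
  have hL01 : (L : ℝ) ^ κ₁ ≤ L := (Real.rpow_le_rpow_of_exponent_le hL1 (by
    rw [hκ₁d]
    exact (min_le_right _ _).trans (min_le_right _ _))).trans_eq (Real.rpow_one _)
  obtain ⟨⟨b1, b2, b3, b4, b5, b6⟩, hl⟩ := hok
  obtain ⟨hG0, hG1, hG⟩ := hdom
  have hE : ∀ n, (0 : ℝ) < EE' μ s n := fun n => lt_of_lt_of_le one_pos (le_max_left _ _)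
  -- the error of the production
  have herr : ∀ x : ℝ, x ≤ (L : ℝ) ^ κ₂ → ENNReal.ofReal (Real.exp x) * (ENNReal.ofReal (Real.exp (2 * (L : ℝ) ^ κ₂)) *
      (ENNReal.ofReal ((L : ℝ) ^ 3) * ENNReal.ofReal (Real.exp (-(L : ℝ) ^ c₁))) +
      ENNReal.ofReal (((N : ℝ) + 1) ^ 2 * Real.exp (-(2 * (L : ℝ) ^ κ₂)))) ≤ ENNReal.ofReal (Real.exp (-(L : ℝ) ^ c₂)) := by
    intro x hx
    refine (mul_le_mul' (ENNReal.ofReal_le_ofReal (Real.exp_le_exp.2 hx)) le_rfl).trans ?_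
    refine le_trans (le_of_eq ?_) (ENNReal.ofReal_le_ofReal (hNumE L (by omega) N hNL))
    rw [ENNReal.ofReal_mul (Real.exp_pos _).le, ENNReal.ofReal_add (by positivity) (by positivity), ENNReal.ofReal_mul (Real.exp_pos _).le,
      ENNReal.ofReal_mul (show (0 : ℝ) ≤ (L : ℝ) ^ 3 by positivity)]
  rcases hG with ⟨hT, A, n₁, u, v, a1, a2, a3, a4⟩ | ⟨hT, hcc, hdd, hUV, hτ⟩
  · -- a mass
    have hn1 : (n₁ : ℝ) ≤ (L : ℝ) ^ κ₁ := a1.trans hpk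
    have hfam := hP L (by omega) N hLN hNL y hyN hyc p.c p.d p.c' p.d' p.U p.V p.l n₁ b1 b2 b4 b5 b6 (hpt.trans hl) u v a2
      (hn1.trans hp18) (by exact_mod_cast hn1.trans hL01) p.J Ob hObc (hOb.plt fun _ => le_rfl) A a3
    have hcv := cv_mass hyN (⟨by omega, b6⟩ : p.c ≤ p.d ∧ p.d ≤ N) hfam (ENNReal.ofReal (Real.exp ((L : ℝ) ^ κ))) (2 * (L : ℝ) ^ κ₂)
    refine ⟨_, ⟨hcv.meas, hcv.box, hcv.le_one, ?_⟩, fun A₀ η S => ?_⟩
    · obtain ⟨P, r, NT, J, q1, q2, q3, q4, q5, q6, q7⟩ := hcv.ex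
      refine ⟨P, r, NT, J, q1, q2, q3, q4.trans (ENNReal.ofReal_le_ofReal (mul_le_mul_of_nonneg_right hpe (inv_nonneg.2 (hE _).le))),
        q5, q6, q7.trans ((herr _ (hpk.trans hp12)).trans le_self_add)⟩
    · refine le_min (ENNReal.ofReal_le_one.2 (exP_le (hG1 (η, A₀)) S)) ?_
      rw [← ENNReal.ofReal_mul (Real.exp_pos _).le]
      refine ENNReal.ofReal_le_ofReal ?_
      unfold exP
      by_cases hS : S ∈ Pn N y
      · rw [dif_pos hS]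
        exact a4 (η, A₀) ⟨S, hS⟩
      · rw [dif_neg hS]
        exact mul_nonneg (Real.exp_pos _).le (mc_nonneg _ _)
  · -- a robust event
    obtain ⟨q, hq⟩ : ∃ q, q = ⌈10 * M⌉₊ := ⟨_, rfl⟩
    obtain ⟨m1, m2, m3, m4, m5, m6, m7, m8, m9⟩ := hNum L (by omega) M hM hML p.l hl
    rw [← hq] at m1 m2 m3 m4 m5 m6 m8 m9
    obtain ⟨l', hl'⟩ : ∃ l', l' = p.l / (3 * q) - 1 := ⟨_, rfl⟩
    rw [← hl'] at m3 m4 m8
    have hfam := hP L (by omega) N hLN hNL y hyN hyc p.c p.d p.c' p.d' p.U p.V l' (3 * q) b1 b2 b4 b5 b6 m4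
      (fun n => st p.U l' n) (fun n => st p.U l' n + l') (fun n hn => ?_) (m5.trans hp18) m6 p.J Ob hObc
      (hOb.plt fun h => absurd hT h) (NMp p.U l' q) (fun S S' _ _ _ _ hag hm => ?_)
    · have hcv := cv_tau hyN (⟨by omega, b6⟩ : p.c ≤ p.d ∧ p.d ≤ N) hM m1 m2 (show p.U + 3 * q * (l' + 1) ≤ p.V by omega) hfam
        (2 * (L : ℝ) ^ κ₂)
      refine ⟨_, ⟨hcv.meas, hcv.box, hcv.le_one, ?_⟩, fun A₀ η S => ?_⟩
      · obtain ⟨P, r, NT, J, q1, q2, q3, q4, q5, q6, q7⟩ := hcv.ex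
        refine ⟨P, r, NT, J, q1, q2, q3, q4.trans (ENNReal.ofReal_le_ofReal ?_), q5, q6,
          q7.trans (add_le_add (herr _ (m7.trans hp12)) le_rfl)⟩
        have hq0 : 1 ≤ 9 * q := by
          have : (0 : ℝ) < q := by linarith
          have : 0 < q := by exact_mod_cast this
          omega
        have e1 : EE' μ s p.l ≤ ((9 * q : ℕ) : ℝ) * EE' μ s l' := EE'_le_mul86 h hq0 m8
        have e2 : (EE' μ s l')⁻¹ ≤ ((9 * q : ℕ) : ℝ) * (EE' μ s p.l)⁻¹ := by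
          rw [inv_le_iff_one_le_mul₀ (hE _), mul_assoc]
          have : (EE' μ s p.l)⁻¹ * EE' μ s p.l = 1 := inv_mul_cancel₀ (hE _).ne'
          calc (1 : ℝ) = (EE' μ s p.l)⁻¹ * EE' μ s p.l := this.symm
            _ ≤ (EE' μ s p.l)⁻¹ * (((9 * q : ℕ) : ℝ) * EE' μ s l') := mul_le_mul_of_nonneg_left e1 (inv_nonneg.2 (hE _).le)
            _ = _ := by ring
        calc (L : ℝ) ^ (ε / 2) * (EE' μ s l')⁻¹ ≤ (L : ℝ) ^ (ε / 2) * (((9 * q : ℕ) : ℝ) * (EE' μ s p.l)⁻¹) :=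
              mul_le_mul_of_nonneg_left e2 (Real.rpow_nonneg hLp.le _)
          _ ≤ (L : ℝ) ^ (ε / 2) * ((L : ℝ) ^ (ε / 2) * (EE' μ s p.l)⁻¹) :=
              mul_le_mul_of_nonneg_left (mul_le_mul_of_nonneg_right m9 (inv_nonneg.2 (hE _).le)) (Real.rpow_nonneg hLp.le _)
          _ = (L : ℝ) ^ ε * (EE' μ s p.l)⁻¹ := by
              rw [← mul_assoc, ← Real.rpow_add hLp, add_halves]
      · refine le_min (ENNReal.ofReal_le_one.2 (exP_le (hG1 (η, A₀)) S)) ?_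
        by_cases hτS : TauS μ s N y p.c p.d p.U p.V M η S
        · rw [ind_of hτS]
          exact (ENNReal.ofReal_le_one.2 (exP_le (hG1 (η, A₀)) S)).trans le_self_add
        · refine le_trans (ENNReal.ofReal_le_ofReal ?_) le_add_self
          unfold exP
          by_cases hS : S ∈ Pn N y
          · rw [dif_pos hS]
            exact hτ (η, A₀) ⟨S, hS⟩ fun h' => hτS ⟨hS, h'⟩
          · rw [dif_neg hS]
            exact (Real.exp_pos _).le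
    · have e1 : (n + 1) * (l' + 1) ≤ 3 * q * (l' + 1) := Nat.mul_le_mul_right _ (by omega)
      have e2 : st p.U l' n + (l' + 1) = p.U + (n + 1) * (l' + 1) := by
        unfold st
        ring
      have e3 : p.U ≤ st p.U l' n := by
        unfold st
        exact Nat.le_add_right _ _
      show p.U ≤ st p.U l' n ∧ st p.U l' n + l' ≤ st p.U l' n + l' ∧ st p.U l' n + l' ≤ p.V
      omega
    · obtain ⟨n, hn, hm⟩ := hm
      refine ⟨n, hn, ?_⟩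
      have e1 : (n + 1) * (l' + 1) ≤ 3 * q * (l' + 1) := Nat.mul_le_mul_right _ (by omega)
      have e2 : st p.U l' n + (l' + 1) = p.U + (n + 1) * (l' + 1) := by
        unfold st
        ring
      have e3 : p.U ≤ st p.U l' n := by
        unfold st
        exact Nat.le_add_right _ _
      rw [hcc, hdd]
      show Gap p.c p.d (st p.U l' n) (st p.U l' n + l') S S'
      exact gap_of_nm (by omega) (by omega) hag hm

end

end Pool.Agent.W_7d29a1_C0.N29
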