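import Pool.Agent.W_7d29a1_C0.Row38B
import Pool.Agent.W_7d29a1_C0.Pas38
import Pool.Agent.W_7d29a1_C0.InT57

/-!
CURV0 (MP_7d29a1_pr), leaf E5.8, helper38: THE ROW INEQUALITY IN THE MODEL, one side, one tilt. Outer weights `lw` (the actual measure),
inner weights `wt .. t` (the kick of the row `j` at `t`), `g = gj` at the base `b0`, `γ` = the exact response of the window `b`, `p` = the
outside of the window `b'`, the passenger `Yf` a function of `p` which does not see the slabs. The boxes are the positions in the row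
`m0` (a function of `p`), the cones have the slope `sl` and the width `R`. `mod38`: the fields and the ties of the response are
hypotheses; right and left side in `Mod38B`.
-/

set_option autoImplicit false
set_option linter.unusedSectionVars false
set_option linter.unusedVariables false

namespace Pool.W7d29a1.C0.L38

open Finset Filter Topology MeasureTheory
open Pool.Agent.W_7d29a1_F Pool.Agent.W_7d29a1_C0 Pool.W7d29a1.C0 Pool.W7d29a1.C0.VT31 Pool.W7d29a1.C0.I52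
open Pool.Agent.W_7d29a1_C0.Swap57 Pool.Agent.W_7d29a1_C0.H32
open Pool.Agent.W_7d29a1_C0.Mod92 (Px Pn ps ps_zero ps_nonneg ps_le ps_Pn ps_of_le ps_of_ge pJ crs_pJ abs_cE_le meas_cE meas_cC meas_gm lw gj wt abs_gj meas_lw)
open Pool.Agent.W_7d29a1_C0.FP63 (sS mem_sS disj_sS nq lA tf gf wf_gf wf_tf at2 at2_gf at2_meas Wt_lw Wt_wt Cf_row cf cb)
open Pool.Agent.W_7d29a1_C0.InT57 (pz JZ JZ_ne card_JZ fst_mem_JZ vis_nq)
open Pool.Agent.W_7d29a1_C0.DGam14 (gam gamD)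
open Pool.W7d29a1.C0.H41 (Wt Obs lcG farF tail1 tail2 QV Ev Dr cut cut')
open Pool.W7d29a1.C0.H19 (Cf)
open Pool.W7d29a1.C0.R63 (Sd Bl DF Dg far2 two_box)
open Pool.W7d29a1.C0.T73 (chT OutB bx)

noncomputable section

/-! ### The integrals -/

section Ints

variable {X : Type*} [Fintype X] [DecidableEq X] [Nonempty X] {Y : Type*} [DecidableEq Y]

/-- The own pair. -/
def iM (μ : Measure ℝ) (w wi : Env → X → ℝ) (p : X → Y) (χ : X → X → ℝ) (Yf : Env → X → ℝ) : ℝ :=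
  ∫ η, gm (w η) (fun a => |Yf η a| * hb (wi η) p χ a) ∂(law μ)

/-- The own pair and a factor at one of the two. -/
def iD (μ : Measure ℝ) (w wi : Env → X → ℝ) (p : X → Y) (χ : X → X → ℝ) (Yf F : Env → X → ℝ) : ℝ :=
  ∫ η, gm (w η) (fun a => |Yf η a| * dt (wi η) p χ (F η) a) ∂(law μ)

/-- The own pair and a factor at a third inner replica. -/
def iS (μ : Measure ℝ) (w wi : Env → X → ℝ) (p : X → Y) (χ : X → X → ℝ) (Yf F : Env → X → ℝ) : ℝ :=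
  ∫ η, gm (w η) (fun a => |Yf η a| * (hb (wi η) p χ a * cE (wi η) p (F η) a)) ∂(law μ)

/-- The own pair and the outer functional. -/
def iO (μ : Measure ℝ) (w wi : Env → X → ℝ) (p : X → Y) (χ : X → X → ℝ) (Yf C : Env → X → ℝ) : ℝ :=
  ∫ η, ou (w η) (wi η) p χ (Yf η) (C η) ∂(law μ)

/-- The far parts. -/
def iF (μ : Measure ℝ) (w wi : Env → X → ℝ) (p : X → Y) (χ : X → X → ℝ) (Yf : Env → X → ℝ) (tub : X → X → ℝ) : ℝ :=
  ∫ η, fr (w η) (wi η) p χ (Yf η) tub ∂(law μ)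

/-- **The right side of the row inequality.** -/
def rhs38 (μ : Measure ℝ) (w wi : Env → X → ℝ) (p : X → Y) (χ : X → X → ℝ) (Yf g C1 C2 tie1 tie2 : Env → X → ℝ)
    (tub1 tub2 : X → X → ℝ) (B a1 a2 : ℝ) : ℝ :=
  a1 * a2 * (B ^ 2 / 2 * iM μ w wi p χ Yf) +
  a1 * (B ^ 3 / 4 * iD μ w wi p χ Yf tie2 +
    (B ^ 2 * (iD μ w wi p χ Yf (fun η x => |g η x - C2 η x|) + iS μ w wi p χ Yf fun η x => |g η x - C2 η x|) +
      B ^ 2 / 2 * iO μ w wi p χ Yf C2) + B ^ 3 / 4 * iF μ w wi p χ Yf tub2) +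
  (3 / 4 * B ^ 4 * iD μ w wi p χ Yf tie1 +
    (3 * B ^ 3 * (iD μ w wi p χ Yf (fun η x => |g η x - C1 η x|) + 3 * iS μ w wi p χ Yf fun η x => |g η x - C1 η x|) +
      B ^ 3 * iO μ w wi p χ Yf C1) + 3 / 4 * B ^ 4 * iF μ w wi p χ Yf tub1)

end Ints

/-- The tails. -/
def tl38 (N : ℕ) (L R B K θ Λ : ℝ) : ℝ := 32 * ((N : ℝ) + 2) ^ 4 * (L * R * B ^ 4) / θ ^ 2 * Real.exp (4 * K * θ ^ 2 - θ * Λ / 2)

/-- The quadratic variation of a cut field. -/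
def qv38 (R B : ℝ) (J : Finset ℕ) : ℝ := 7 * R * (B / 2) ^ 2 / J.card

/-- The gain of a slab. -/
def al38 (Λ R B : ℝ) (J : Finset ℕ) : ℝ := Λ * Real.sqrt (qv38 R B J)

theorem qv38_pos {R B : ℝ} (hR : 1 ≤ R) (hB : 1 ≤ B) {J : Finset ℕ} (hJ : J.Nonempty) : 0 < qv38 R B J := by
  have h1 : (0 : ℝ) < J.card := Nat.cast_pos.2 hJ.card_pos
  unfold qv38
  positivity

theorem qv38_le {R B : ℝ} (hR : 1 ≤ R) (hB : 1 ≤ B) {J : Finset ℕ} (hJ : J.Nonempty) : qv38 R B J ≤ 2 * R * B ^ 2 := by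
  have h1 : (1 : ℝ) ≤ J.card := by exact_mod_cast hJ.card_pos
  unfold qv38
  rw [div_le_iff₀ (by linarith)]
  have h2 : 0 ≤ R * B ^ 2 := by positivity
  have h3 := mul_le_mul_of_nonneg_left h1 (show 0 ≤ 2 * R * B ^ 2 by positivity)
  nlinarith

theorem sqrt_qv38_le {R B : ℝ} (hR : 1 ≤ R) (hB : 1 ≤ B) {J : Finset ℕ} (hJ : J.Nonempty) : Real.sqrt (qv38 R B J) ≤ 2 * R * B := by
  refine Real.sqrt_le_iff.2 ⟨by positivity, (qv38_le hR hB hJ).trans ?_⟩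
  have h1 : 0 ≤ R * B ^ 2 := by positivity
  have h2 : R * B ^ 2 * 1 ≤ R * B ^ 2 * R := mul_le_mul_of_nonneg_left hR h1
  nlinarith

/-- The condition of the exponential moments. -/
theorem cond38 {R B θ θ0 : ℝ} (hR : 1 ≤ R) (hB : 1 ≤ B) {J : Finset ℕ} (hJ : J.Nonempty) (hθ : 0 < θ) (h : θ ≤ θ0) :
    2 * (θ / Real.sqrt (qv38 R B J)) * (B / 2 / J.card) ≤ θ0 := by
  have h1 : (1 : ℝ) ≤ J.card := by exact_mod_cast hJ.card_pos
  have hq := qv38_pos hR hB hJ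
  have hs := Real.sqrt_pos.2 hq
  refine le_trans ?_ h
  have h2 : B / J.card ≤ Real.sqrt (qv38 R B J) := by
    refine Real.le_sqrt_of_sq_le ?_
    unfold qv38
    rw [div_pow, div_le_div_iff₀ (by positivity) (by linarith)]
    have h3 : B ^ 2 * (J.card : ℝ) ≤ B ^ 2 * (J.card : ℝ) ^ 2 := mul_le_mul_of_nonneg_left (by nlinarith) (by positivity)
    have h4 : B ^ 2 * (J.card : ℝ) ^ 2 * 1 ≤ B ^ 2 * (J.card : ℝ) ^ 2 * R := mul_le_mul_of_nonneg_left hR (by positivity)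
    nlinarith
  have e : 2 * (θ / Real.sqrt (qv38 R B J)) * (B / 2 / J.card) = θ * ((B / J.card) / Real.sqrt (qv38 R B J)) := by
    field_simp
  rw [e]
  have h3 : (B / J.card) / Real.sqrt (qv38 R B J) ≤ 1 := (div_le_one hs).2 h2
  nlinarith

/-- The sum of the tails. -/
theorem tails38 {N : ℕ} {L R B K θ Λ : ℝ} (hL : 0 ≤ L) (hR : 1 ≤ R) (hB : 1 ≤ B) (hK : 0 ≤ K) (hθ : 0 < θ) (hθ1 : θ ≤ 1)
    {J1 J2 : Finset ℕ} (hJ1 : J1.Nonempty) (hJ2 : J2.Nonempty) :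
    ((N + 1 : ℕ) : ℝ) ^ 3 * (tail2 K (L * (2 * (B / 2) * (B / 2))) (θ / Real.sqrt (qv38 R B J1)) (θ / Real.sqrt (qv38 R B J2))
        (al38 Λ R B J1) (al38 Λ R B J2) (qv38 R B J1) (qv38 R B J2) +
      tail1 K (((J2.card * (N + 1) : ℕ) : ℝ) * (B / 2 / J2.card * (L * (2 * B * (B / 2))))) (θ / Real.sqrt (qv38 R B J1))
        (al38 Λ R B J1) (qv38 R B J1) +
      tail1 K (L * (2 * (B / 2) * (B / 2)) * (6 * (B / 2 + ((J2.card * (N + 1) : ℕ) : ℝ) * (B / 2 / J2.card * 1))))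
        (θ / Real.sqrt (qv38 R B J1)) (al38 Λ R B J1) (qv38 R B J1) +
      tail1 K (L * (2 * (B / 2) * (B / 2)) * (6 * (((J2.card * (N + 1) : ℕ) : ℝ) * (B / 2 / J2.card * 1))))
        (θ / Real.sqrt (qv38 R B J1)) (al38 Λ R B J1) (qv38 R B J1)) ≤ tl38 N L R B K θ Λ := by
  have hj2 : (0 : ℝ) < J2.card := Nat.cast_pos.2 hJ2.card_pos
  have q1 := qv38_pos hR hB hJ1
  have q2 := qv38_pos hR hB hJ2
  have s1 := Real.sqrt_pos.2 q1
  have s2 := Real.sqrt_pos.2 q2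
  have u1 := sqrt_qv38_le hR hB hJ1
  have u2 := sqrt_qv38_le hR hB hJ2
  obtain ⟨e, he⟩ : ∃ e : ℝ, e = Real.exp (4 * K * θ ^ 2 - θ * Λ / 2) := ⟨_, rfl⟩
  have he0 : 0 < e := by rw [he]; exact Real.exp_pos _
  -- the tails
  have k2 : ∀ D : ℝ, tail2 K D (θ / Real.sqrt (qv38 R B J1)) (θ / Real.sqrt (qv38 R B J2)) (al38 Λ R B J1) (al38 Λ R B J2)
      (qv38 R B J1) (qv38 R B J2) = 8 * D * (Real.sqrt (qv38 R B J1) * Real.sqrt (qv38 R B J2) / θ ^ 2) * e := fun D => by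
    unfold tail2 al38
    have e1 : θ / Real.sqrt (qv38 R B J1) * (Λ * Real.sqrt (qv38 R B J1)) / 2 = θ * Λ / 2 := by field_simp
    have e2 : θ / Real.sqrt (qv38 R B J2) * (Λ * Real.sqrt (qv38 R B J2)) / 2 = θ * Λ / 2 := by field_simp
    have e3 : 4 * K * (θ / Real.sqrt (qv38 R B J1)) ^ 2 * qv38 R B J1 = 4 * K * θ ^ 2 := by
      rw [div_pow, Real.sq_sqrt q1.le]
      field_simp
    have e4 : 4 * K * (θ / Real.sqrt (qv38 R B J2)) ^ 2 * qv38 R B J2 = 4 * K * θ ^ 2 := by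
      rw [div_pow, Real.sq_sqrt q2.le]
      field_simp
    rw [e1, e2, e3, e4, he, sub_eq_add_neg, Real.exp_add]
    field_simp
    ring
  have k1 : ∀ D : ℝ, 0 ≤ D → tail1 K D (θ / Real.sqrt (qv38 R B J1)) (al38 Λ R B J1) (qv38 R B J1) ≤
      4 * D * (Real.sqrt (qv38 R B J1) / θ) * e := fun D hD => by
    have h1 := InT57.tail_num57 (K := K) (D0 := D) (θ := θ) (L := Λ) q1 hθ
    unfold al38
    rw [h1, he]
    refine mul_le_mul_of_nonneg_left (Real.exp_le_exp.2 ?_) (by positivity)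
    have : 0 ≤ K * θ ^ 2 := by positivity
    linarith
  have c1 : ((J2.card * (N + 1) : ℕ) : ℝ) * (B / 2 / J2.card * (L * (2 * B * (B / 2)))) = ((N : ℝ) + 1) * (L * B ^ 3 / 2) := by
    push_cast
    field_simp
  have c2 : ((J2.card * (N + 1) : ℕ) : ℝ) * (B / 2 / J2.card * 1) = ((N : ℝ) + 1) * (B / 2) := by
    push_cast
    field_simp
  rw [c1, c2]
  have hN : (0 : ℝ) ≤ N := Nat.cast_nonneg N
  have t2 := (k2 (L * (2 * (B / 2) * (B / 2)))).le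
  have t3 := k1 (((N : ℝ) + 1) * (L * B ^ 3 / 2)) (by positivity)
  have t4 := k1 (L * (2 * (B / 2) * (B / 2)) * (6 * (B / 2 + ((N : ℝ) + 1) * (B / 2)))) (by positivity)
  have t5 := k1 (L * (2 * (B / 2) * (B / 2)) * (6 * (((N : ℝ) + 1) * (B / 2)))) (by positivity)
  have hθ2 : 1 / θ ≤ 1 / θ ^ 2 := one_div_le_one_div_of_le (by positivity) (by nlinarith)
  have v1 : Real.sqrt (qv38 R B J1) / θ ≤ 2 * R * B / θ ^ 2 := by
    calc Real.sqrt (qv38 R B J1) / θ = Real.sqrt (qv38 R B J1) * (1 / θ) := by ring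
      _ ≤ 2 * R * B * (1 / θ ^ 2) := mul_le_mul u1 hθ2 (by positivity) (by positivity)
      _ = _ := by ring
  have v2 : Real.sqrt (qv38 R B J1) * Real.sqrt (qv38 R B J2) / θ ^ 2 ≤ 2 * R * B ^ 2 / θ ^ 2 := by
    refine div_le_div_of_nonneg_right ?_ (by positivity)
    have a1 := qv38_le hR hB hJ1
    have a2 := qv38_le hR hB hJ2
    have b1 := Real.sq_sqrt q1.le
    have b2 := Real.sq_sqrt q2.le
    nlinarith [sq_nonneg (Real.sqrt (qv38 R B J1) - Real.sqrt (qv38 R B J2))]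
  have w2 : tail2 K (L * (2 * (B / 2) * (B / 2))) (θ / Real.sqrt (qv38 R B J1)) (θ / Real.sqrt (qv38 R B J2)) (al38 Λ R B J1)
      (al38 Λ R B J2) (qv38 R B J1) (qv38 R B J2) ≤ 8 * (L * R * B ^ 4) / θ ^ 2 * e := by
    refine t2.trans ?_
    have h1 := mul_le_mul_of_nonneg_left v2 (show 0 ≤ 8 * (L * (2 * (B / 2) * (B / 2))) by positivity)
    refine (mul_le_mul_of_nonneg_right h1 he0.le).trans (le_of_eq ?_)
    ring
  have w1 : ∀ D T : ℝ, 0 ≤ D → T ≤ 4 * D * (Real.sqrt (qv38 R B J1) / θ) * e → T ≤ 8 * D * (R * B) / θ ^ 2 * e := fun D T hD h => by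
    refine h.trans ?_
    have h1 := mul_le_mul_of_nonneg_left v1 (show 0 ≤ 4 * D by positivity)
    refine (mul_le_mul_of_nonneg_right h1 he0.le).trans (le_of_eq ?_)
    ring
  have w3 := w1 _ _ (by positivity) t3
  have w4 := w1 _ _ (by positivity) t4
  have w5 := w1 _ _ (by positivity) t5
  have tot : _ ≤ 8 * (L * R * B ^ 4) / θ ^ 2 * e + 8 * (((N : ℝ) + 1) * (L * B ^ 3 / 2)) * (R * B) / θ ^ 2 * e +
      8 * (L * (2 * (B / 2) * (B / 2)) * (6 * (B / 2 + ((N : ℝ) + 1) * (B / 2)))) * (R * B) / θ ^ 2 * e +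
      8 * (L * (2 * (B / 2) * (B / 2)) * (6 * (((N : ℝ) + 1) * (B / 2)))) * (R * B) / θ ^ 2 * e :=
    add_le_add (add_le_add (add_le_add w2 w3) w4) w5
  refine (mul_le_mul_of_nonneg_left tot (by positivity)).trans ?_
  unfold tl38
  rw [← he]
  obtain ⟨G, hG⟩ : ∃ G : ℝ, G = L * R * B ^ 4 / θ ^ 2 * e := ⟨_, rfl⟩
  have hG0 : 0 ≤ G := by
    rw [hG]
    positivity
  have e1 : 8 * (L * R * B ^ 4) / θ ^ 2 * e + 8 * (((N : ℝ) + 1) * (L * B ^ 3 / 2)) * (R * B) / θ ^ 2 * e +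
      8 * (L * (2 * (B / 2) * (B / 2)) * (6 * (B / 2 + ((N : ℝ) + 1) * (B / 2)))) * (R * B) / θ ^ 2 * e +
      8 * (L * (2 * (B / 2) * (B / 2)) * (6 * (((N : ℝ) + 1) * (B / 2)))) * (R * B) / θ ^ 2 * e = (28 * N + 48) * G := by
    rw [hG]
    field_simp
    ring
  have e2 : 32 * ((N : ℝ) + 2) ^ 4 * (L * R * B ^ 4) / θ ^ 2 * e = 32 * ((N : ℝ) + 2) ^ 4 * G := by
    rw [hG]
    ring
  rw [e1, e2]
  have h1 : ((N + 1 : ℕ) : ℝ) ^ 3 ≤ ((N : ℝ) + 2) ^ 3 := pow_le_pow_left₀ (by positivity) (by push_cast; linarith) 3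
  have h2 : (28 * (N : ℝ) + 48) ≤ 32 * ((N : ℝ) + 2) := by linarith
  calc ((N + 1 : ℕ) : ℝ) ^ 3 * ((28 * N + 48) * G) ≤ ((N : ℝ) + 2) ^ 3 * (32 * ((N : ℝ) + 2) * G) :=
        mul_le_mul h1 (mul_le_mul_of_nonneg_right h2 hG0) (by positivity) (by positivity)
    _ = _ := by ring

/-! ### The model -/

section Mod

variable {μ : Measure ℝ} [IsProbabilityMeasure μ] {s : ℝ} {N : ℕ} {Q : Finset (Finset ℕ)} [Nonempty (Px Q)]
variable {f f' : ℝ → ℝ} {bk bk' : Bool}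

/-- The path functional of a slab sees only the positions in its rows. -/
theorem Cf_pos (hQ : Blk18.Full N Q) {J : Finset ℕ} (hJ : ∀ r ∈ J, 1 ≤ r ∧ r ≤ N) (cc : Pt → Env → ℝ) (η : Env) {S S' : Px Q}
    (h : ∀ r ∈ J, ps S r = ps S' r) : Cf (sS J N) cc (nq N) η S = Cf (sS J N) cc (nq N) η S' := by
  rw [Cf_row hQ hJ, Cf_row hQ hJ]
  exact sum_congr rfl fun r hr => by rw [h r hr]

open Classical in
/-- The indicator that `S` leaves the tube of the box `β` over the slab. -/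
def tb38 (N : ℕ) (sl R : ℝ) (m0 : ℤ) (J : Finset ℕ) (β : Fin (N + 1)) (S : Px Q) : ℝ :=
  if OutB pz sl R m0 (JZ J) (fun _ : Unit => β) S then 1 else 0

theorem tb38_nonneg (N : ℕ) (sl R : ℝ) (m0 : ℤ) (J : Finset ℕ) (β : Fin (N + 1)) (S : Px Q) : 0 ≤ tb38 N sl R m0 J β S := by
  unfold tb38
  split_ifs <;> norm_num

theorem tb38_le_one (N : ℕ) (sl R : ℝ) (m0 : ℤ) (J : Finset ℕ) (β : Fin (N + 1)) (S : Px Q) : tb38 N sl R m0 J β S ≤ 1 := by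
  unfold tb38
  split_ifs <;> norm_num

/-- The indicator that `S` leaves the tube of the box of `S0` over the slab. -/
def tub38 (N : ℕ) (sl R : ℝ) (m0 : ℤ) (J : Finset ℕ) (S0 S : Px Q) : ℝ := tb38 N sl R m0 J (bx pz R m0 N S0) S

theorem far38_le {J : Finset ℕ} {c : Pt → Env → ℝ} {B sl R : ℝ} {m0 : ℤ} (hB : 0 ≤ B) (hJ : J.Nonempty) (η : Env)
    (hc : ∀ p ∈ sS J N, |c p η| ≤ B / (JZ J).card) (β : Fin (N + 1)) (S : Px Q) :
    |Cf (sS J N) (cut' (chT sl R m0 fun _ : Unit => β) c) (nq N) η S| ≤ B * tb38 N sl R m0 J β S := by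
  unfold tb38
  exact T73.abs_far_le (pa := pz) vis_nq (fun p hp => fst_mem_JZ hp) (JZ_ne hJ) hB η hc _ S

theorem bx_eq38 {R : ℝ} {m0 : ℤ} {S S' : Px Q} (h : pz S m0 = pz S' m0) : bx pz R m0 N S = bx pz R m0 N S' := by
  refine Fin.ext ?_
  show min N ⌊(pz S m0 : ℝ) / R⌋₊ = min N ⌊(pz S' m0 : ℝ) / R⌋₊
  rw [h]

theorem card_sS38 (J : Finset ℕ) (N : ℕ) : (sS J N).card = J.card * (N + 1) := by
  unfold sS
  rw [card_image_of_injective, card_product, card_range]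
  rintro ⟨a, b⟩ ⟨a', b'⟩ h
  simp only [Prod.mk.injEq, Nat.cast_inj] at h
  rw [h.1, h.2]

/-- The exact response of the window `b` to the kick `gj` at the base `b0`. -/
def gm38 (μ : Measure ℝ) (s : ℝ) (N : ℕ) (Q : Finset (Finset ℕ)) (δ B : ℝ) (b0 b j : ℕ) (a : ℤ) (η : Env) : Px Q → ℝ :=
  gam (lw μ s η N Q) (gj μ s η δ B b0 j a) a (pJ (j - b) (j + b))

/-- Its derivative when the weights move in the direction `A`. -/
def gd38 (μ : Measure ℝ) (s : ℝ) (N : ℕ) (Q : Finset (Finset ℕ)) (δ B : ℝ) (b0 b j : ℕ) (a : ℤ) (A : Px Q → ℝ) (η : Env) : Px Q → ℝ :=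
  gamD (lw μ s η N Q) (gj μ s η δ B b0 j a) A a (pJ (j - b) (j + b))

theorem meas_gj38 {B : ℝ} (hB : 0 ≤ B) (δ : ℝ) (b0 j : ℕ) {a : ℤ} (ha : |(a : ℝ)| ≤ 1) :
    Measurable fun η => gj (Q := Q) μ s η δ B b0 j a := at2_meas (wf_gf (μ := μ) (s := s) hB δ b0 j ha)

theorem meas_gm38 {B : ℝ} (hB : 0 ≤ B) (δ : ℝ) (b0 b j : ℕ) {a : ℤ} (ha : |(a : ℝ)| ≤ 1) :
    Measurable fun η => gm38 μ s N Q δ B b0 b j a η :=
  measurable_pi_lambda _ fun S => DGam14.meas_gam (Ω := Env) (w := fun η => lw μ s η N Q) (g := fun η => gj μ s η δ B b0 j a)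
    (a := fun _ => (a : ℝ)) (fun x => meas_lw x) (fun x => (measurable_pi_apply x).comp (meas_gj38 hB δ b0 j ha)) measurable_const _ S

theorem meas_gd38 {B : ℝ} (hB : 0 ≤ B) (δ : ℝ) (b0 b j : ℕ) {a : ℤ} (ha : |(a : ℝ)| ≤ 1) (A : Px Q → ℝ) :
    Measurable (gd38 μ s N Q δ B b0 b j a A) :=
  measurable_pi_lambda _ fun S => DGam14.meas_gamD (Ω := Env) (w := fun η => lw μ s η N Q) (g := fun η => gj μ s η δ B b0 j a)
    (A := fun _ => A) (a := fun _ => (a : ℝ)) (fun x => meas_lw x) (fun x => (measurable_pi_apply x).comp (meas_gj38 hB δ b0 j ha))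
    (fun x => measurable_const) measurable_const _ S

theorem abs_gm38 {B : ℝ} (hB : 0 ≤ B) (δ : ℝ) (b0 b j : ℕ) {a : ℤ} (ha : |(a : ℝ)| ≤ 1) (η : Env) (S : Px Q) :
    |gm38 μ s N Q δ B b0 b j a η S| ≤ B / 2 := DGam14.abs_gam_le _ (fun x => abs_gj η hB ha b0 j x) _ _ S

theorem abs_gd38 {B : ℝ} (hB : 0 ≤ B) (δ : ℝ) (b0 b j : ℕ) {a : ℤ} (ha : |(a : ℝ)| ≤ 1) (q : Pt) (η : Env) (S : Px Q) :
    |gd38 μ s N Q δ B b0 b j a (nq N q) η S| ≤ B := by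
  have e := DGam14.abs_gamD_le_of (lw μ s η N Q) (A := nq N q) (K := 1) (fun S => FP63.abs_nq q S) (fun x => abs_gj (μ := μ) (s := s) (δ := δ) η hB ha b0 j x)
    (a : ℝ) (pJ (Q := Q) (j - b) (j + b)) S
  exact e.trans (le_of_eq (by ring))

theorem site_gm38 {B : ℝ} (δ : ℝ) (b0 b j : ℕ) (a : ℤ) {T : Finset Pt} (hw : Wt T (fun η => lw μ s η N Q) (nq N) 1)
    (hT : Bl T (fun η => gj (Q := Q) μ s η δ B b0 j a)) : ∀ q ∈ T, ∀ (η : Env) (x : ℝ) (S : Px Q),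
      HasDerivAt (fun u => gm38 μ s N Q δ B b0 b j a (Function.update η q u) S)
        (gd38 μ s N Q δ B b0 b j a (nq N q) (Function.update η q x) S) x :=
  fun q hq η x S => DGam14.site_gam hw hT (a : ℝ) (pJ (Q := Q) (j - b) (j + b)) q hq η x S

theorem gd38_sum {B : ℝ} (δ : ℝ) (b0 b j : ℕ) (a : ℤ) (T : Finset Pt) (c : Pt → Env → ℝ) (η : Env) (S : Px Q) :
    ∑ q ∈ T, c q η * gd38 μ s N Q δ B b0 b j a (nq N q) η S = gd38 μ s N Q δ B b0 b j a (Cf T c (nq N) η) η S :=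
  DGam14.gamD_sum T (lw μ s η N Q) (gj μ s η δ B b0 j a) (fun q => c q η) (fun q => nq N q) (a : ℝ) (pJ (Q := Q) (j - b) (j + b)) S

/-- **THE ROW INEQUALITY IN THE MODEL**, one side, one tilt. -/
theorem mod38 (h : DenLaw μ f f') {K θ0 : ℝ} (hs : SG μ (sc f f') K θ0) (hK : 0 ≤ K) (hQ : Blk18.Full N Q)
    {δ B : ℝ} (hB : 1 ≤ B) {b0 b b' j : ℕ} {a : ℤ} (ha : |(a : ℝ)| ≤ 1) (t : ℝ)
    -- the slabs and the fields
    {J1 J2 : Finset ℕ} (hJ1 : J1.Nonempty) (hJ2 : J2.Nonempty) (hJJ : Disjoint J1 J2)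
    (hw : ∀ r ∈ J1 ∪ J2, r ≤ j - b0 ∨ j + b0 < r) (hJ : ∀ r ∈ J1 ∪ J2, 1 ≤ r ∧ r ≤ N)
    {c1 c2 : Pt → Env → ℝ} (d1 : DF bk (sS J1 N) c1 (B / 2 / J1.card)) (d2 : DF bk' (sS J2 N) c2 (B / 2 / J2.card))
    (h12 : ∀ q1 ∈ sS J1 N, ∀ q2 ∈ sS J2 N, ∀ (η : Env) (x : ℝ), c1 q1 (Function.update η q2 x) = c1 q1 η)
    -- the passenger
    {Yf : Env → Px Q → ℝ} {L : ℝ} (mY : Measurable Yf) (hY : ∀ η x, |Yf η x| ≤ L) (hYp : ∀ η, Mp (pJ (j - b') (j + b')) (Yf η))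
    (bY : ∀ q ∈ sS (J1 ∪ J2) N, ∀ (η : Env) (x : ℝ), Yf (Function.update η q x) = Yf η)
    -- the cut
    {χ : Px Q → Px Q → ℝ} (h0 : ∀ b c, 0 ≤ χ b c) (h1 : ∀ b c, χ b c ≤ 1) (hs' : ∀ b c, χ b c = χ c b)
    -- the boxes
    {sl R : ℝ} (hR : 1 ≤ R) {m0 : ℤ} (hm0 : ∀ S S' : Px Q, pJ (j - b') (j + b') S = pJ (j - b') (j + b') S' → pz S m0 = pz S' m0)
    {θ Λ : ℝ} (hθ : 0 < θ) (hθ1 : θ ≤ 1) (hθ0 : θ ≤ θ0) (hΛ : 0 ≤ Λ)
    -- the ties of the response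
    {tie1 tie2 : Env → Px Q → ℝ} (mt1 : MF tie1 2) (mt2 : MF tie2 2)
    (ht1 : ∀ (η : Env) (A : Px Q → ℝ), (∀ S, |A S| ≤ B / 2) → (∀ S S' : Px Q, (∀ r ∈ J1, ps S r = ps S' r) → A S = A S') → ∀ S,
      |gd38 μ s N Q δ B b0 b j a A η S| ≤ (B / 2) ^ 2 * tie1 η S)
    (ht2 : ∀ (η : Env) (A : Px Q → ℝ), (∀ S, |A S| ≤ B / 2) → (∀ S S' : Px Q, (∀ r ∈ J2, ps S r = ps S' r) → A S = A S') → ∀ S,
      |gd38 μ s N Q δ B b0 b j a A η S| ≤ (B / 2) ^ 2 * tie2 η S) :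
    |∫ η, (K38 (pJ (Q := Q) (j - b') (j + b'))).dbl.dbl.toEv.ev (lab (lw μ s η N Q) (wt μ s η N Q δ B b0 j a t))
      ((K38 (pJ (Q := Q) (j - b') (j + b'))).dbl.dr.ins (inj (gj μ s η δ B b0 j a))
        ((K38 (pJ (Q := Q) (j - b') (j + b'))).dr.ins (inj (gj μ s η δ B b0 j a))
          (psC χ (Yf η) (gm38 μ s N Q δ B b0 b j a η) (gj μ s η δ B b0 j a)))) ∂(law μ)| ≤
      rhs38 μ (fun η => lw μ s η N Q) (fun η => wt μ s η N Q δ B b0 j a t) (pJ (j - b') (j + b')) χ Yf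
        (fun η => gj μ s η δ B b0 j a) (fun η => Cf (sS J1 N) c1 (nq N) η) (fun η => Cf (sS J2 N) c2 (nq N) η) tie1 tie2
        (tub38 N sl R m0 J1) (tub38 N sl R m0 J2) B (al38 Λ R B J1) (al38 Λ R B J2) + tl38 N L R B K θ Λ := by
  have hB0 : 0 ≤ B := by linarith
  have hL : 0 ≤ L := (abs_nonneg _).trans (hY (fun _ => 0) (Classical.arbitrary _))
  have j1c : (0 : ℝ) < J1.card := Nat.cast_pos.2 hJ1.card_pos
  have j2c : (0 : ℝ) < J2.card := Nat.cast_pos.2 hJ2.card_pos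
  have mem1 : ∀ p ∈ sS J1 N, p ∈ sS (J1 ∪ J2) N := fun p hp => by
    obtain ⟨r, hr, z, hz, rfl⟩ := mem_sS.1 hp
    exact mem_sS.2 ⟨r, mem_union_left _ hr, z, hz, rfl⟩
  have mem2 : ∀ p ∈ sS J2 N, p ∈ sS (J1 ∪ J2) N := fun p hp => by
    obtain ⟨r, hr, z, hz, rfl⟩ := mem_sS.1 hp
    exact mem_sS.2 ⟨r, mem_union_right _ hr, z, hz, rfl⟩
  have off : ∀ p ∈ sS (J1 ∪ J2) N, p.1 ≤ ((j - b0 : ℕ) : ℤ) ∨ ((j + b0 : ℕ) : ℤ) < p.1 := fun p hp => by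
    obtain ⟨r, hr, z, hz, rfl⟩ := mem_sS.1 hp
    rcases hw r hr with h2 | h2
    · left
      show (r : ℤ) ≤ ((j - b0 : ℕ) : ℤ)
      exact_mod_cast h2
    · right
      show ((j + b0 : ℕ) : ℤ) < (r : ℤ)
      exact_mod_cast h2
  -- the response `g`
  have wg := wf_gf (μ := μ) (s := s) hB0 δ b0 j ha
  have mg : Measurable fun η => gj (Q := Q) μ s η δ B b0 j a := at2_meas wg
  have hg : ∀ η x, |gj (Q := Q) μ s η δ B b0 j a x| ≤ B / 2 := fun η x => abs_gj η hB0 ha b0 j x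
  have bg : Bl (sS (J1 ∪ J2) N) (fun η => gj (Q := Q) μ s η δ B b0 j a) := fun p hp η x => by
    have e := wg.blind η p x (off p hp)
    funext S
    exact congrFun e (ps S)
  -- the weights
  have Wl : Wt (sS (J1 ∪ J2) N) (fun η => lw μ s η N Q) (nq N) 1 := by
    have e := Wt_lw (μ := μ) (s := s) (N := N) (Q := Q) (S := sS (J1 ∪ J2) N) (A := fun _ => 0) measurable_const fun _ _ _ _ => rfl
    simpa using e
  have Wi : Wt (sS (J1 ∪ J2) N) (fun η => wt μ s η N Q δ B b0 j a t) (nq N) 1 := Wt_wt hB0 δ b0 j ha t off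
  have sub : ∀ {S S' : Finset Pt} {w : Env → Px Q → ℝ}, (∀ p ∈ S, p ∈ S') → Wt S' w (nq N) 1 → Wt S w (nq N) 1 :=
    fun hss hW => ⟨hW.meas, fun p hp => hW.der p (hss p hp), fun p hp => hW.bd p (hss p hp)⟩
  -- the exact response
  have hd : ∀ q ∈ sS J1 N ∪ sS J2 N, ∀ (η : Env) (x : ℝ) (S : Px Q),
      HasDerivAt (fun u => gm38 μ s N Q δ B b0 b j a (Function.update η q u) S)
        (gd38 μ s N Q δ B b0 b j a (nq N q) (Function.update η q x) S) x := fun q hq η x S => by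
    have hq' : q ∈ sS (J1 ∪ J2) N := by
      rcases mem_union.1 hq with h2 | h2
      · exact mem1 q h2
      · exact mem2 q h2
    exact site_gm38 δ b0 b j a Wl bg q hq' η x S
  -- the cut fields
  have vis := vis_nq (N := N) (Q := Q)
  have cd : ∀ {J : Finset ℕ} {c : Pt → Env → ℝ} {bk : Bool}, DF bk (sS J N) c (B / 2 / J.card) → ∀ (η : Env), ∀ p ∈ sS J N,
      |c p η| ≤ B / 2 / (JZ J).card := fun dF η p hp => by
    rw [card_JZ]
    exact dF.bd p hp η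
  have hQV : ∀ {J : Finset ℕ} {c : Pt → Env → ℝ} {bk : Bool}, J.Nonempty → DF bk (sS J N) c (B / 2 / J.card) →
      ∀ (β : Fin (N + 1)) η, QV (sS J N) (cut (chT sl R m0 fun _ : Unit => β) c) η ≤ qv38 R B J := fun hJn dF β η => by
    have e := T73.QV_chT (sl := sl) (m0 := m0) (fun p hp => fst_mem_JZ hp) hR (JZ_ne hJn) η (cd dF η) (fun _ : Unit => β)
    rw [Fintype.card_unit, card_JZ] at e
    refine e.trans (le_of_eq ?_)
    unfold qv38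
    push_cast
    ring
  have hcut : ∀ {J : Finset ℕ} {c : Pt → Env → ℝ} {bk : Bool}, J.Nonempty → DF bk (sS J N) c (B / 2 / J.card) →
      ∀ (β : Fin (N + 1)) η (S : Px Q), |Cf (sS J N) (cut (chT sl R m0 fun _ : Unit => β) c) (nq N) η S| ≤ B / 2 :=
    fun hJn dF β η S => by
      refine T73.abs_Cf_vis (pa := pz) vis (fun p hp => fst_mem_JZ hp) (JZ_ne hJn) (by positivity) η (fun p hp => ?_) S
      refine le_trans ?_ (cd dF η p hp)
      unfold cut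
      rw [abs_mul, abs_of_nonneg (T73.chT_nonneg _ p)]
      exact mul_le_of_le_one_left (abs_nonneg _) (T73.chT_le_one _ p)
  have hfar : ∀ {J : Finset ℕ} {c : Pt → Env → ℝ} {bk : Bool}, J.Nonempty → DF bk (sS J N) c (B / 2 / J.card) →
      ∀ (β : Fin (N + 1)) η (S : Px Q), |Cf (sS J N) (cut' (chT sl R m0 fun _ : Unit => β) c) (nq N) η S| ≤
        B / 2 * tb38 N sl R m0 J β S := fun hJn dF β η S => far38_le (by positivity) hJn η (cd dF η) β S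
  -- the ties
  have tt : ∀ {J : Finset ℕ} {c : Pt → Env → ℝ} {bk : Bool} {tie : Env → Px Q → ℝ}, J.Nonempty → (∀ r ∈ J, 1 ≤ r ∧ r ≤ N) →
      DF bk (sS J N) c (B / 2 / J.card) →
      (∀ (η : Env) (A : Px Q → ℝ), (∀ S, |A S| ≤ B / 2) → (∀ S S' : Px Q, (∀ r ∈ J, ps S r = ps S' r) → A S = A S') → ∀ S,
        |gd38 μ s N Q δ B b0 b j a A η S| ≤ (B / 2) ^ 2 * tie η S) →
      ∀ (β : Fin (N + 1)) η (S : Px Q), |∑ q ∈ sS J N, cut (chT sl R m0 fun _ : Unit => β) c q η *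
        gd38 μ s N Q δ B b0 b j a (nq N q) η S| ≤ (B / 2) ^ 2 * tie η S := fun {J c bk tie} hJn hJr dF ht β η S => by
    rw [gd38_sum]
    exact ht η _ (hcut hJn dF β η) (fun S S' hS => Cf_pos hQ hJr (cut (chT sl R m0 fun _ : Unit => β) c) η hS) S
  have hJr1 : ∀ r ∈ J1, 1 ≤ r ∧ r ≤ N := fun r hr => hJ r (mem_union_left _ hr)
  have hJr2 : ∀ r ∈ J2, 1 ≤ r ∧ r ≤ N := fun r hr => hJ r (mem_union_right _ hr)
  have q1 := qv38_pos hR hB hJ1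
  have q2 := qv38_pos hR hB hJ2
  have key := row38 (μ := μ) (Kt := (B / 2) ^ 2) (Mf := B / 2) (Bx := Fin (N + 1)) (γ := gm38 μ s N Q δ B b0 b j a)
    (γ' := fun q => gd38 μ s N Q δ B b0 b j a (nq N q)) (g := fun η => gj (Q := Q) μ s η δ B b0 j a) h hs (disj_sS hJJ) d1 d2 (by positivity) (by positivity) h12
    (sub mem1 Wl) (sub mem1 Wi) (sub mem2 Wl) (sub mem2 Wi) mY (meas_gm38 hB0 δ b0 b j ha) mg hY
    (abs_gm38 hB0 δ b0 b j ha) hg (pJ (Q := Q) (j - b') (j + b')) hYp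
    (fun q hq => bY q (mem1 q hq)) (fun q hq => bY q (mem2 q hq)) (fun q hq => bg q (mem1 q hq)) (fun q hq => bg q (mem2 q hq))
    hd (fun q _ => meas_gd38 hB0 δ b0 b j ha (nq N q)) (fun q _ => abs_gd38 hB0 δ b0 b j ha q) h0 h1 hs' (b := fun S => bx pz R m0 N S)
    (fun S S' hS => bx_eq38 (hm0 S S' hS))
    (ch1 := fun β => chT sl R m0 fun _ : Unit => β) (ch2 := fun β => chT sl R m0 fun _ : Unit => β)
    (fun β p => T73.chT_nonneg _ p) (fun β p => T73.chT_le_one _ p) (fun β p => T73.chT_nonneg _ p) (fun β p => T73.chT_le_one _ p)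
    (div_pos hθ (Real.sqrt_pos.2 q1)) (div_pos hθ (Real.sqrt_pos.2 q2)) (cond38 hR hB hJ1 hθ hθ0) (cond38 hR hB hJ2 hθ hθ0)
    (hQV hJ1 d1) (hQV hJ2 d2) (a1 := al38 Λ R B J1) (a2 := al38 Λ R B J2) (mul_nonneg hΛ (Real.sqrt_nonneg _))
    (mul_nonneg hΛ (Real.sqrt_nonneg _)) mt1 mt2 (by positivity) (tt hJ1 hJr1 d1 ht1) (tt hJ2 hJr2 d2 ht2) (by positivity)
    (tub1 := tb38 N sl R m0 J1) (tub2 := tb38 N sl R m0 J2) (tb38_nonneg N sl R m0 J1) (tb38_le_one N sl R m0 J1)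
    (tb38_nonneg N sl R m0 J2) (tb38_le_one N sl R m0 J2) (hfar hJ1 d1) (hfar hJ2 d2)
  refine key.trans ?_
  have hcard : (Fintype.card (Fin 3 → Fin (N + 1)) : ℝ) = ((N + 1 : ℕ) : ℝ) ^ 3 := by
    rw [Fintype.card_fun, Fintype.card_fin, Fintype.card_fin, Nat.cast_pow]
  rw [hcard, card_sS38]
  refine add_le_add (le_of_eq ?_) (tails38 hL hR hB hK hθ hθ1 hJ1 hJ2)
  unfold rhs38 iM iD iS iO iF rst tub38
  ring

end Mod

end

end Pool.W7d29a1.C0.L38
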