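import Pool.Agent.W_7d29a1_C0.Mod38

/-!
CURV0 (MP_7d29a1_pr), leaf E5.8, helper38: RIGHT AND LEFT SIDE of the row inequality in the model. Right: the own pair misses on
`[j + b0, j + b]`, forward slabs in it, `CR38` = the mean over the rows `r` of the slab of the mean of `g` given the path outside of `[0, r)`,
`tieR38` = the pairs of the window `b` which do not meet between `j + b0` and the slab, boxes in the row `j + b'`. Left: the mirror image.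
`ou_le38`: the outer functional.
-/

set_option autoImplicit false
set_option linter.unusedSectionVars false
set_option linter.unusedVariables false

namespace Pool.W7d29a1.C0.L38

open Finset Filter Topology MeasureTheory
open Pool.Agent.W_7d29a1_F Pool.Agent.W_7d29a1_C0 Pool.W7d29a1.C0 Pool.W7d29a1.C0.VT31 Pool.W7d29a1.C0.I52
open Pool.Agent.W_7d29a1_C0.Swap57 Pool.Agent.W_7d29a1_C0.H32
open Pool.Agent.W_7d29a1_C0.Mod92 (Px Pn ps ps_zero ps_nonneg ps_le ps_Pn ps_of_le ps_of_ge pJ crs_pJ abs_cE_le meas_cE meas_cC meas_gm lw gj wt abs_gj meas_lw)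
open Pool.Agent.W_7d29a1_C0.FP63 (sS mem_sS disj_sS nq lA tf gf wf_gf wf_tf at2 at2_gf at2_meas Wt_lw Wt_wt Cf_row cf cb)
open Pool.Agent.W_7d29a1_C0.InT57 (pz JZ JZ_ne card_JZ fst_mem_JZ vis_nq)
open Pool.Agent.W_7d29a1_C0.DGam14 (gam gamD)
open Pool.W7d29a1.C0.H41 (Wt Obs lcG farF tail1 tail2 QV Ev Dr cut cut')
open Pool.W7d29a1.C0.H19 (Cf)
open Pool.W7d29a1.C0.R63 (Sd Bl DF Dg far2 two_box)
open Pool.W7d29a1.C0.T73 (chT OutB bx)

noncomputable section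

/-! ### The outer functional -/

section Out

theorem gm2_tower {X : Type*} [Fintype X] [Nonempty X] {Y : Type*} [DecidableEq Y] (w : X → ℝ) (p : X → Y) {H : X → ℝ} (hH : Mp p H)
    (K : X → X → ℝ) : gm2 w (fun a a' => H a * cE2 w p K a a') = gm2 w fun a a' => H a * K a a' := by
  rw [← E4T32.gm2_cE2 w p fun a a' => H a * K a a']
  congr 1
  funext a a'
  unfold cE2
  have e1 : (fun z => cE w p (fun z' => H z * K z z') a') = H * fun z => cE w p (K z) a' := by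
    funext z
    rw [Pi.mul_apply]
    have := congrFun (cE_smul w p (H z) (K z)) a'
    exact this
  rw [e1, cE_pull w hH, Pi.mul_apply]

variable {Q : Finset (Finset ℕ)} [Nonempty (Px Q)] [SwQ Q] {c al be d : ℕ}

/-- **The outer functional**: the own pair and a second outer replica which does not meet the first one on both sides of the slab. -/
theorem ou_le38 (hab : al ≤ be) {w : Px Q → ℝ} (hw : Wk c al be d w) (wi : Px Q → ℝ) {χ : Px Q → Px Q → ℝ} (h0 : ∀ b c, 0 ≤ χ b c)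
    {Yf : Px Q → ℝ} (hY : Mp (pJ c d) Yf) {C : Px Q → ℝ} (hC : Lk al be C) {D : ℝ} (hD : ∀ S, |C S| ≤ D) :
    ou w wi (pJ c d) χ Yf C ≤ 2 * D * gm2 w fun a a' => |Yf a| * hb wi (pJ c d) χ a * NM c al be d a a' := by
  have hH : Mp (pJ (Q := Q) c d) fun a => |Yf a| * hb wi (pJ c d) χ a := fun a a' h => by
    beta_reduce
    rw [hY a a' h]
    unfold hb cE2
    rw [cE_meas wi (pJ c d) (fun z => cE wi (pJ c d) (χ z) a) a a' h]
    have e : (fun z => cE wi (pJ (Q := Q) c d) (χ z) a) = fun z => cE wi (pJ c d) (χ z) a' :=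
      funext fun z => cE_meas wi (pJ c d) (χ z) a a' h
    rw [e]
  have h1 : Dif w (pJ c d) (NM c al be d) (2 * D) (cE w (pJ c d) C) := dif_cE hab hw hC fun S S' => by
    have a := abs_le.1 (hD S)
    have b := abs_le.1 (hD S')
    rw [abs_le]
    constructor <;> linarith [a.1, a.2, b.1, b.2]
  have h2 : ou w wi (pJ c d) χ Yf C ≤ gm2 w fun a a' => 2 * D * (|Yf a| * hb wi (pJ c d) χ a * cE2 w (pJ c d) (NM c al be d) a a') := by
    unfold ou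
    refine gm2_mono' w fun a a' => ?_
    have h3 := h1 a a'
    have h4 : 0 ≤ |Yf a| * hb wi (pJ c d) χ a := mul_nonneg (abs_nonneg _) (cE2_nonneg wi _ h0 a a)
    calc _ ≤ |Yf a| * hb wi (pJ c d) χ a * (2 * D * cE2 w (pJ c d) (NM c al be d) a a') := mul_le_mul_of_nonneg_left h3 h4
      _ = _ := by ring
  rw [gm2_smul] at h2
  have h5 := gm2_tower w (pJ (Q := Q) c d) hH (NM c al be d)
  rw [h5] at h2
  exact h2

end Out

/-! ### The two sides -/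

section Mod

variable {μ : Measure ℝ} [IsProbabilityMeasure μ] {s : ℝ} {N : ℕ} {Q : Finset (Finset ℕ)} [Nonempty (Px Q)] [SwQ Q]
variable {f f' : ℝ → ℝ}

/-- The path functional of a forward slab. -/
def CR38 (μ : Measure ℝ) (s : ℝ) (N : ℕ) (Q : Finset (Finset ℕ)) (δ B : ℝ) (b0 j : ℕ) (a : ℤ) (t : ℝ) (J : Finset ℕ) (η : Env)
    (S : Px Q) : ℝ := (J.card : ℝ)⁻¹ * ∑ r ∈ J, cE (wt μ s η N Q δ B b0 j a t) (pJ 0 r) (gj μ s η δ B b0 j a) S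

/-- The path functional of a backward slab. -/
def CL38 (μ : Measure ℝ) (s : ℝ) (N : ℕ) (Q : Finset (Finset ℕ)) (δ B : ℝ) (b0 j : ℕ) (a : ℤ) (t : ℝ) (J : Finset ℕ) (η : Env)
    (S : Px Q) : ℝ := (J.card : ℝ)⁻¹ * ∑ r ∈ J, cE (wt μ s η N Q δ B b0 j a t) (pJ r N) (gj μ s η δ B b0 j a) S

/-- The ties of the response, forward: the mass of the pairs in the window `b` which do not meet on `[j + b0, m]`. -/
def tieR38 (μ : Measure ℝ) (s : ℝ) (N : ℕ) (Q : Finset (Finset ℕ)) (δ B : ℝ) (b0 b j : ℕ) (a : ℤ) (m : ℕ) (η : Env) (S : Px Q) : ℝ :=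
  ∫ t in (-1 : ℝ)..1, cE2 (wt μ s η N Q δ B b0 j a t) (pJ (j - b) (j + b)) (NI (j + b0) m) S S

/-- The ties of the response, backward. -/
def tieL38 (μ : Measure ℝ) (s : ℝ) (N : ℕ) (Q : Finset (Finset ℕ)) (δ B : ℝ) (b0 b j : ℕ) (a : ℤ) (m : ℕ) (η : Env) (S : Px Q) : ℝ :=
  ∫ t in (-1 : ℝ)..1, cE2 (wt μ s η N Q δ B b0 j a t) (pJ (j - b) (j + b)) (NI m (j - b0)) S S

theorem mf_tie {B : ℝ} (hB : 0 ≤ B) (δ : ℝ) (b0 b j : ℕ) {a : ℤ} (ha : |(a : ℝ)| ≤ 1) {K : Px Q → Px Q → ℝ} (h0 : ∀ S S', 0 ≤ K S S')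
    (h1 : ∀ S S', K S S' ≤ 1) :
    MF (fun η S => ∫ t in (-1 : ℝ)..1, cE2 (wt μ s η N Q δ B b0 j a t) (pJ (j - b) (j + b)) K S S) 2 where
  ms := fun S => by
    have m1 : ∀ x : Px Q, Measurable fun q : Env × ℝ => wt μ s q.1 N Q δ B b0 j a q.2 x := fun x => by
      unfold Mod92.wt
      simp only [Pi.add_apply, Pi.smul_apply, smul_eq_mul]
      exact ((meas_lw x).comp measurable_fst).add ((measurable_snd.sub_const _).mul
        (((measurable_pi_apply x).comp (meas_gj38 hB δ b0 j ha)).comp measurable_fst))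
    have m2 : Measurable fun q : Env × ℝ => cE2 (wt μ s q.1 N Q δ B b0 j a q.2) (pJ (j - b) (j + b)) K S S :=
      meas_cE (w := fun q : Env × ℝ => wt μ s q.1 N Q δ B b0 j a q.2)
        (f := fun (q : Env × ℝ) z => cE (wt μ s q.1 N Q δ B b0 j a q.2) (pJ (j - b) (j + b)) (K z) S) m1
        (fun z => meas_cE (w := fun q : Env × ℝ => wt μ s q.1 N Q δ B b0 j a q.2) (f := fun (_ : Env × ℝ) => K z) m1
          (fun x => measurable_const) (pJ (j - b) (j + b)) S) (pJ (j - b) (j + b)) S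
    have e : ∀ η, ∫ t in (-1 : ℝ)..1, cE2 (wt μ s η N Q δ B b0 j a t) (pJ (j - b) (j + b)) K S S =
        ∫ t, cE2 (wt μ s η N Q δ B b0 j a t) (pJ (j - b) (j + b)) K S S ∂(volume.restrict (Set.Ioc (-1 : ℝ) 1)) := fun η =>
      intervalIntegral.integral_of_le (by norm_num)
    simp only [e]
    exact (m2.stronglyMeasurable.integral_prod_right' (ν := volume.restrict (Set.Ioc (-1 : ℝ) 1))).measurable
  bd := fun η S => by
    have h := intervalIntegral.norm_integral_le_of_norm_le_const (a := (-1 : ℝ)) (b := 1)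
      (f := fun t => cE2 (wt μ s η N Q δ B b0 j a t) (pJ (j - b) (j + b)) K S S) (C := 1) fun t _ => by
        rw [Real.norm_eq_abs, abs_of_nonneg (cE2_nonneg _ _ h0 S S)]
        exact cE2_le_one _ _ h1 S S
    rw [Real.norm_eq_abs] at h
    have e : |(1 : ℝ) - -1| = 2 := by norm_num
    rw [e] at h
    linarith

theorem NI_comm38 (i k : ℕ) (S S' : Px Q) : NI i k S S' = NI i k S' S := by
  unfold NI
  have e : (∀ r, i ≤ r → r ≤ k → ps S r ≠ ps S' r) ↔ ∀ r, i ≤ r → r ≤ k → ps S' r ≠ ps S r :=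
    ⟨fun h r h1 h2 h3 => h r h1 h2 h3.symm, fun h r h1 h2 h3 => h r h1 h2 h3.symm⟩
  simp only [e]

theorem lk_gj38 (δ B : ℝ) (b0 j : ℕ) (a : ℤ) (η : Env) : Lk (j - b0) (j + b0) (gj (Q := Q) μ s η δ B b0 j a) := by
  intro S S' h
  unfold gj
  rw [h _ le_rfl (by omega), h _ (by omega) le_rfl]

/-- **THE RIGHT SIDE.** -/
theorem modR38 (h : DenLaw μ f f') {K θ0 : ℝ} (hs : SG μ (sc f f') K θ0) (hK : 0 ≤ K) (hQ : Blk18.Full N Q)
    {δ B : ℝ} (hB : 1 ≤ B) {b0 b b' j : ℕ} (hb : b0 ≤ b) (hbb : b ≤ b') (hjN : j + b' ≤ N) {a : ℤ} (ha : |(a : ℝ)| ≤ 1) (t : ℝ)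
    {J1 J2 : Finset ℕ} (hJ1 : J1.Nonempty) (hJ2 : J2.Nonempty) {m1 m2 : ℕ} (hJ12 : ∀ r ∈ J1, ∀ r' ∈ J2, r < r')
    (hm1 : ∀ r ∈ J1, j + b0 < r ∧ m1 ≤ r ∧ r ≤ j + b) (hm2 : ∀ r ∈ J2, j + b0 < r ∧ m2 ≤ r ∧ r ≤ j + b)
    {Yf : Env → Px Q → ℝ} {L : ℝ} (mY : Measurable Yf) (hY : ∀ η x, |Yf η x| ≤ L) (hYp : ∀ η, Mp (pJ (j - b') (j + b')) (Yf η))
    (bY : ∀ q ∈ sS (J1 ∪ J2) N, ∀ (η : Env) (x : ℝ), Yf (Function.update η q x) = Yf η)
    {sl R : ℝ} (hR : 1 ≤ R) {θ Λ : ℝ} (hθ : 0 < θ) (hθ1 : θ ≤ 1) (hθ0 : θ ≤ θ0) (hΛ : 0 ≤ Λ) :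
    |∫ η, (K38 (pJ (Q := Q) (j - b') (j + b'))).dbl.dbl.toEv.ev (lab (lw μ s η N Q) (wt μ s η N Q δ B b0 j a t))
      ((K38 (pJ (Q := Q) (j - b') (j + b'))).dbl.dr.ins (inj (gj μ s η δ B b0 j a))
        ((K38 (pJ (Q := Q) (j - b') (j + b'))).dr.ins (inj (gj μ s η δ B b0 j a))
          (psC (cR Q (j + b0) (j + b)) (Yf η) (gm38 μ s N Q δ B b0 b j a η) (gj μ s η δ B b0 j a)))) ∂(law μ)| ≤
      rhs38 μ (fun η => lw μ s η N Q) (fun η => wt μ s η N Q δ B b0 j a t) (pJ (j - b') (j + b')) (NI (j + b0) (j + b)) Yf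
        (fun η => gj μ s η δ B b0 j a) (CR38 μ s N Q δ B b0 j a t J1) (CR38 μ s N Q δ B b0 j a t J2)
        (tieR38 μ s N Q δ B b0 b j a m1) (tieR38 μ s N Q δ B b0 b j a m2)
        (tub38 N sl R ((j + b' : ℕ) : ℤ) J1) (tub38 N sl R ((j + b' : ℕ) : ℤ) J2) B (al38 Λ R B J1) (al38 Λ R B J2) +
        tl38 N L R B K θ Λ := by
  have hB0 : 0 ≤ B := by linarith
  have wg := wf_gf (μ := μ) (s := s) hB0 δ b0 j ha
  have wft := wf_tf (μ := μ) (s := s) hB0 δ b0 j ha t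
  have hN1 : ∀ r ∈ J1, j + b0 < r ∧ r ≤ N := fun r hr => ⟨(hm1 r hr).1, by have := (hm1 r hr).2.2; omega⟩
  have hN2 : ∀ r ∈ J2, j + b0 < r ∧ r ≤ N := fun r hr => ⟨(hm2 r hr).1, by have := (hm2 r hr).2.2; omega⟩
  have hrow : ∀ r ∈ J1 ∪ J2, j + b0 < r ∧ r ≤ N := fun r hr => by
    rcases mem_union.1 hr with h1 | h1
    · exact hN1 r h1
    · exact hN2 r h1
  have hCf : ∀ {J : Finset ℕ}, (∀ r ∈ J, j + b0 < r ∧ r ≤ N) →
      (fun η => Cf (sS J N) (cf μ s (tf μ s δ B b0 j a t) (gf μ s δ B b0 j a) 0 0 J) (nq N) η) =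
        fun η => CR38 μ s N Q δ B b0 j a t J η := fun {J} hJ => by
    funext η S
    have e := FP63.Cf_wt (μ := μ) (s := s) (N := N) (Q := Q) hB0 δ b0 j ha t hQ (Nat.zero_le _) hJ η S
    rw [ps_zero] at e
    exact e
  -- the ties
  have tie : ∀ {J : Finset ℕ} {m : ℕ}, (∀ r ∈ J, j + b0 < r ∧ m ≤ r ∧ r ≤ j + b) → J.Nonempty →
      ∀ (η : Env) (A : Px Q → ℝ), (∀ S, |A S| ≤ B / 2) → (∀ S S' : Px Q, (∀ r ∈ J, ps S r = ps S' r) → A S = A S') → ∀ S,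
        |gd38 μ s N Q δ B b0 b j a A η S| ≤ (B / 2) ^ 2 * tieR38 μ s N Q δ B b0 b j a m η S := fun {J m} hm hJn η A hA1 hA2 S => by
    obtain ⟨r0, hr0⟩ := hJn
    have hmd : m ≤ j + b := (hm r0 hr0).2.1.trans (hm r0 hr0).2.2
    have e := DGam14.abs_gamD_R (c := j - b) (al := j - b0) (be := j + b0) (d := j + b) (m0 := m) (w := lw μ s η N Q) (a := (a : ℝ))
      (g := gj μ s η δ B b0 j a) (by omega) (by omega) hmd (Wk_lw η (by omega)) (lk_gj38 δ B b0 j a η) (A := A)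
      (fun S S' hS => hA2 S S' fun r hr => hS r (hm r hr).2.1) hA1 (fun S => abs_gj η hB0 ha b0 j S) S
    refine e.trans (le_of_eq ?_)
    unfold tieR38 Mod92.wt
    ring
  have key := mod38 (μ := μ) (s := s) (N := N) (Q := Q) (bk := false) (bk' := false) h hs hK hQ hB (b0 := b0) (b := b) (b' := b') (j := j)
    ha t hJ1 hJ2 (Finset.disjoint_left.2 fun r hr hr' => lt_irrefl r (hJ12 r hr r hr')) (fun r hr => Or.inr (hrow r hr).1)
    (fun r hr => ⟨by have := (hrow r hr).1; omega, (hrow r hr).2⟩)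
    (c1 := cf μ s (tf μ s δ B b0 j a t) (gf μ s δ B b0 j a) 0 0 J1) (c2 := cf μ s (tf μ s δ B b0 j a t) (gf μ s δ B b0 j a) 0 0 J2)
    (FP63.df_cf wft wg 0 (fun r hr => (hm1 r hr).1) N) (FP63.df_cf wft wg 0 (fun r hr => (hm2 r hr).1) N)
    (fun q1 hq1 q2 hq2 η x => by
      obtain ⟨r1, hr1, z1, hz1, rfl⟩ := mem_sS.1 hq1
      obtain ⟨r2, hr2, z2, hz2, rfl⟩ := mem_sS.1 hq2
      refine FP63.cf_blind wft wg 0 (fun r hr => (hm1 r hr).1) hq1 (Or.inl ⟨?_, ?_⟩) η x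
      · show ((j + b0 : ℕ) : ℤ) < (r2 : ℤ)
        exact_mod_cast (hm2 r2 hr2).1
      · show (r1 : ℤ) ≤ (r2 : ℤ)
        exact_mod_cast (hJ12 r1 hr1 r2 hr2).le)
    mY hY hYp bY (χ := NI (j + b0) (j + b)) (fun b c => NI_nonneg _ _ _ _) (fun b c => NI_le_one _ _ _ _)
    (fun b c => NI_comm38 _ _ _ _) hR (m0 := ((j + b' : ℕ) : ℤ)) (fun S S' hS => by
      unfold InT57.pz
      rw [Int.toNat_natCast]
      exact ps_of_ge hS le_rfl) (sl := sl) hθ hθ1 hθ0 hΛ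
    (mf_tie hB0 δ b0 b j ha (fun S S' => NI_nonneg _ _ _ _) (fun S S' => NI_le_one _ _ _ _))
    (mf_tie hB0 δ b0 b j ha (fun S S' => NI_nonneg _ _ _ _) (fun S S' => NI_le_one _ _ _ _))
    (tie hm1 hJ1) (tie hm2 hJ2)
  rw [hCf hN1, hCf hN2] at key
  exact key

theorem cL_comm38 (c al be d : ℕ) (S S' : Px Q) : cL Q c al be d S S' = cL Q c al be d S' S := by
  unfold cL
  rw [NI_comm38 be d S S', NI_comm38 c al S S']

/-- **THE LEFT SIDE.** -/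
theorem modL38 (h : DenLaw μ f f') {K θ0 : ℝ} (hs : SG μ (sc f f') K θ0) (hK : 0 ≤ K) (hQ : Blk18.Full N Q) {y : ℤ}
    (hy : ∀ S : Px Q, ps S N = y) {δ B : ℝ} (hB : 1 ≤ B) {b0 b b' j : ℕ} (hb : b0 ≤ b) (hbb : b ≤ b') (hj : b' ≤ j) (hjN : j + b' ≤ N)
    {a : ℤ} (ha : |(a : ℝ)| ≤ 1) (t : ℝ)
    {J1 J2 : Finset ℕ} (hJ1 : J1.Nonempty) (hJ2 : J2.Nonempty) {m1 m2 : ℕ} (hJ12 : ∀ r ∈ J1, ∀ r' ∈ J2, r' < r)
    (hm1 : ∀ r ∈ J1, j - b ≤ r ∧ r ≤ m1 ∧ r ≤ j - b0 ∧ 1 ≤ r) (hm2 : ∀ r ∈ J2, j - b ≤ r ∧ r ≤ m2 ∧ r ≤ j - b0 ∧ 1 ≤ r)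
    {Yf : Env → Px Q → ℝ} {L : ℝ} (mY : Measurable Yf) (hY : ∀ η x, |Yf η x| ≤ L) (hYp : ∀ η, Mp (pJ (j - b') (j + b')) (Yf η))
    (bY : ∀ q ∈ sS (J1 ∪ J2) N, ∀ (η : Env) (x : ℝ), Yf (Function.update η q x) = Yf η)
    {sl R : ℝ} (hR : 1 ≤ R) {θ Λ : ℝ} (hθ : 0 < θ) (hθ1 : θ ≤ 1) (hθ0 : θ ≤ θ0) (hΛ : 0 ≤ Λ) :
    |∫ η, (K38 (pJ (Q := Q) (j - b') (j + b'))).dbl.dbl.toEv.ev (lab (lw μ s η N Q) (wt μ s η N Q δ B b0 j a t))
      ((K38 (pJ (Q := Q) (j - b') (j + b'))).dbl.dr.ins (inj (gj μ s η δ B b0 j a))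
        ((K38 (pJ (Q := Q) (j - b') (j + b'))).dr.ins (inj (gj μ s η δ B b0 j a))
          (psC (cL Q (j - b) (j - b0) (j + b0) (j + b)) (Yf η) (gm38 μ s N Q δ B b0 b j a η) (gj μ s η δ B b0 j a)))) ∂(law μ)| ≤
      rhs38 μ (fun η => lw μ s η N Q) (fun η => wt μ s η N Q δ B b0 j a t) (pJ (j - b') (j + b'))
        (cL Q (j - b) (j - b0) (j + b0) (j + b)) Yf
        (fun η => gj μ s η δ B b0 j a) (CL38 μ s N Q δ B b0 j a t J1) (CL38 μ s N Q δ B b0 j a t J2)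
        (tieL38 μ s N Q δ B b0 b j a m1) (tieL38 μ s N Q δ B b0 b j a m2)
        (tub38 N sl R ((j - b' : ℕ) : ℤ) J1) (tub38 N sl R ((j - b' : ℕ) : ℤ) J2) B (al38 Λ R B J1) (al38 Λ R B J2) +
        tl38 N L R B K θ Λ := by
  have hB0 : 0 ≤ B := by linarith
  have wg := wf_gf (μ := μ) (s := s) hB0 δ b0 j ha
  have wft := wf_tf (μ := μ) (s := s) hB0 δ b0 j ha t
  have hN1 : ∀ r ∈ J1, 1 ≤ r ∧ r ≤ j - b0 := fun r hr => ⟨(hm1 r hr).2.2.2, (hm1 r hr).2.2.1⟩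
  have hN2 : ∀ r ∈ J2, 1 ≤ r ∧ r ≤ j - b0 := fun r hr => ⟨(hm2 r hr).2.2.2, (hm2 r hr).2.2.1⟩
  have hrow : ∀ r ∈ J1 ∪ J2, 1 ≤ r ∧ r ≤ j - b0 := fun r hr => by
    rcases mem_union.1 hr with h1 | h1
    · exact hN1 r h1
    · exact hN2 r h1
  have hCf : ∀ {J : Finset ℕ}, (∀ r ∈ J, 1 ≤ r ∧ r ≤ j - b0) →
      (fun η => Cf (sS J N) (cb μ s (tf μ s δ B b0 j a t) (gf μ s δ B b0 j a) N y J) (nq N) η) =
        fun η => CL38 μ s N Q δ B b0 j a t J η := fun {J} hJ => by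
    funext η S
    have e := FP63.Cf_wt_back (μ := μ) (s := s) (N := N) (Q := Q) hB0 δ b0 j ha t (d := N) hQ (by omega) le_rfl hJ η S
    rw [hy S] at e
    exact e
  -- the ties
  have tie : ∀ {J : Finset ℕ} {m : ℕ}, (∀ r ∈ J, j - b ≤ r ∧ r ≤ m ∧ r ≤ j - b0 ∧ 1 ≤ r) → J.Nonempty →
      ∀ (η : Env) (A : Px Q → ℝ), (∀ S, |A S| ≤ B / 2) → (∀ S S' : Px Q, (∀ r ∈ J, ps S r = ps S' r) → A S = A S') → ∀ S,
        |gd38 μ s N Q δ B b0 b j a A η S| ≤ (B / 2) ^ 2 * tieL38 μ s N Q δ B b0 b j a m η S := fun {J m} hm hJn η A hA1 hA2 S => by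
    obtain ⟨r0, hr0⟩ := hJn
    have hmd : j - b ≤ m := (hm r0 hr0).1.trans (hm r0 hr0).2.1
    have e := DGam14.abs_gamD_L (c := j - b) (al := j - b0) (be := j + b0) (d := j + b) (m0 := m) (w := lw μ s η N Q) (a := (a : ℝ))
      (g := gj μ s η δ B b0 j a) (by omega) (by omega) hmd (Wk_lw η (by omega)) (lk_gj38 δ B b0 j a η) (A := A)
      (fun S S' hS => hA2 S S' fun r hr => hS r (hm r hr).2.1) hA1 (fun S => abs_gj η hB0 ha b0 j S) S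
    refine e.trans (le_of_eq ?_)
    unfold tieL38 Mod92.wt
    ring
  have key := mod38 (μ := μ) (s := s) (N := N) (Q := Q) (bk := true) (bk' := true) h hs hK hQ hB (b0 := b0) (b := b) (b' := b') (j := j)
    ha t hJ1 hJ2 (Finset.disjoint_left.2 fun r hr hr' => lt_irrefl r (hJ12 r hr r hr')) (fun r hr => Or.inl (hrow r hr).2)
    (fun r hr => ⟨(hrow r hr).1, by have := (hrow r hr).2; omega⟩)
    (c1 := cb μ s (tf μ s δ B b0 j a t) (gf μ s δ B b0 j a) N y J1) (c2 := cb μ s (tf μ s δ B b0 j a t) (gf μ s δ B b0 j a) N y J2)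
    (FP63.df_cb wft wg y (fun r hr => (hm1 r hr).2.2.1) N) (FP63.df_cb wft wg y (fun r hr => (hm2 r hr).2.2.1) N)
    (fun q1 hq1 q2 hq2 η x => by
      obtain ⟨r1, hr1, z1, hz1, rfl⟩ := mem_sS.1 hq1
      obtain ⟨r2, hr2, z2, hz2, rfl⟩ := mem_sS.1 hq2
      refine FP63.cb_blind wft wg y (fun r hr => (hm1 r hr).2.2.1) hq1 (Or.inl ⟨?_, ?_⟩) η x
      · show (r2 : ℤ) ≤ ((j - b0 : ℕ) : ℤ)
        exact_mod_cast (hm2 r2 hr2).2.2.1
      · show (r2 : ℤ) ≤ (r1 : ℤ)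
        exact_mod_cast (hJ12 r1 hr1 r2 hr2).le)
    mY hY hYp bY (χ := cL Q (j - b) (j - b0) (j + b0) (j + b)) (fun b c => cL_nonneg _ _ _ _ _ _) (fun b c => cL_le_one _ _ _ _ _ _)
    (fun b c => cL_comm38 _ _ _ _ _ _) hR (m0 := ((j - b' : ℕ) : ℤ)) (fun S S' hS => by
      unfold InT57.pz
      rw [Int.toNat_natCast]
      exact ps_of_le hS le_rfl) (sl := sl) hθ hθ1 hθ0 hΛ
    (mf_tie hB0 δ b0 b j ha (fun S S' => NI_nonneg _ _ _ _) (fun S S' => NI_le_one _ _ _ _))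
    (mf_tie hB0 δ b0 b j ha (fun S S' => NI_nonneg _ _ _ _) (fun S S' => NI_le_one _ _ _ _))
    (tie hm1 hJ1) (tie hm2 hJ2)
  rw [hCf hN1, hCf hN2] at key
  exact key

end Mod

end

end Pool.W7d29a1.C0.L38
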