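import Pool.Agent.W_7d29a1_C0.Mod38C

/-!
CURV0 (MP_7d29a1_pr), leaf E5.8, helper38: THE IDENTITY IN THE TILT. `X38 t` = the mean over the environment of the third order cumulant at
the tilt `t` against the passenger; `int_N5e38`: the mean of `N5e` times the passenger is `- (1 / 12) ∫ t (1 - t ^ 2) X38 t dt`; `X38` is
continuous and bounded by the two right sides. `N5e_avg38`: finite sums over rows, signs and ends under the integral.
-/

set_option autoImplicit false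
set_option linter.unusedSectionVars false
set_option linter.unusedVariables false

namespace Pool.W7d29a1.C0.L38

open Finset Filter Topology MeasureTheory
open Pool.Agent.W_7d29a1_F Pool.Agent.W_7d29a1_C0 Pool.W7d29a1.C0 Pool.W7d29a1.C0.VT31 Pool.W7d29a1.C0.I52
open Pool.Agent.W_7d29a1_C0.Swap57 Pool.Agent.W_7d29a1_C0.H32
open Pool.Agent.W_7d29a1_C0.Mod92 (Px Pn ps pJ crs_pJ lw gj abs_gj)
open Pool.Agent.W_7d29a1_C0.Base5 (w5 N5e ge5 N1g w5_add pW)

noncomputable section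

variable {μ : Measure ℝ} [IsProbabilityMeasure μ] {s : ℝ} {N : ℕ} {Q : Finset (Finset ℕ)} [Nonempty (Px Q)] [SwQ Q]
variable {f f' : ℝ → ℝ}

/-- The mean over the environment of the third order cumulant at the tilt `t`, against the passenger. -/
def X38 (μ : Measure ℝ) (s : ℝ) (N : ℕ) (Q : Finset (Finset ℕ)) [Nonempty (Px Q)] (δ B : ℝ) (b0 b b' j : ℕ) (a : ℤ)
    (Yf : Env → Px Q → ℝ) (t : ℝ) : ℝ := ∫ η, F38 μ s N Q δ B b0 b b' j a Yf t η ∂(law μ)

theorem cont_X38 {δ B : ℝ} (hB : 0 ≤ B) {b0 b b' j : ℕ} (hb : b0 ≤ b) (hbb : b ≤ b') {a : ℤ} (ha : |(a : ℝ)| ≤ 1)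
    {Yf : Env → Px Q → ℝ} {L : ℝ} (mY : Measurable Yf) (hY : ∀ η x, |Yf η x| ≤ L) :
    Continuous (X38 μ s N Q δ B b0 b b' j a Yf) := by
  obtain ⟨mF, D, hD⟩ := meas_F38 (μ := μ) (s := s) (N := N) (Q := Q) (δ := δ) hB (b0 := b0) (b := b) (b' := b') (j := j) hb hbb ha mY hY
  exact continuous_of_dominated (F := fun t η => F38 μ s N Q δ B b0 b b' j a Yf t η) (bound := fun _ => D)
    (fun t => (mF t).aestronglyMeasurable) (fun t => ae_of_all _ fun η => by rw [Real.norm_eq_abs]; exact hD t η)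
    (integrable_const D) (ae_of_all _ fun η => cont_F38 δ B b0 b b' j a Yf η)

/-- **THE IDENTITY.** -/
theorem int_N5e38 {δ B : ℝ} (hB : 0 ≤ B) {b0 b b' j : ℕ} (hb : b0 ≤ b) (hbb : b ≤ b') (A : Finset ℕ)
    {Yf : Env → Px Q → ℝ} {L : ℝ} (mY : Measurable Yf) (hY : ∀ η x, |Yf η x| ≤ L) :
    ∫ η, gm (lw μ s η N Q) (fun S => N5e μ s N Q δ B b0 b b' (η, A) j S * Yf η S) ∂(law μ) =
      -(1 / 12) * ∫ t in (-1 : ℝ)..1, t * (1 - t ^ 2) * X38 μ s N Q δ B b0 b b' j (Mod92.sg A j) Yf t := by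
  have ha : |((Mod92.sg A j : ℤ) : ℝ)| ≤ 1 := (Mod92.abs_sg A j).le
  obtain ⟨mF, D, hD⟩ := meas_F38 (μ := μ) (s := s) (N := N) (Q := Q) (δ := δ) hB (b0 := b0) (b := b) (b' := b') (j := j) hb hbb ha mY hY
  simp only [gm_N5e]
  rw [integral_const_mul]
  have hm : Measurable (Function.uncurry fun (t : ℝ) (η : Env) => t * (1 - t ^ 2) * F38 μ s N Q δ B b0 b b' j (Mod92.sg A j) Yf t η) :=
    measurable_uncurry_of_continuous_of_measurable
      (fun η => (continuous_id.mul (continuous_const.sub (continuous_id.pow 2))).mul (cont_F38 δ B b0 b b' j _ Yf η))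
      fun t => (mF t).const_mul _
  have hint : Integrable (Function.uncurry fun (t : ℝ) (η : Env) => t * (1 - t ^ 2) * F38 μ s N Q δ B b0 b b' j (Mod92.sg A j) Yf t η)
      ((volume.restrict (Set.uIoc (-1 : ℝ) 1)).prod (law μ)) := by
    have h1 : Integrable (fun t : ℝ => |t * (1 - t ^ 2)|) (volume.restrict (Set.uIoc (-1 : ℝ) 1)) := by
      have h2 : Continuous fun t : ℝ => |t * (1 - t ^ 2)| := (continuous_id.mul (continuous_const.sub (continuous_id.pow 2))).abs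
      have h3 := h2.intervalIntegrable (μ := volume) (-1) 1
      exact (intervalIntegrable_iff.1 h3)
    have h4 : Integrable (fun z : ℝ × Env => |z.1 * (1 - z.1 ^ 2)| * D) ((volume.restrict (Set.uIoc (-1 : ℝ) 1)).prod (law μ)) :=
      h1.mul_prod (integrable_const D)
    refine h4.mono' hm.aestronglyMeasurable (ae_of_all _ fun z => ?_)
    rw [Real.norm_eq_abs]
    show |z.1 * (1 - z.1 ^ 2) * F38 μ s N Q δ B b0 b b' j (Mod92.sg A j) Yf z.1 z.2| ≤ _
    rw [abs_mul]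
    exact mul_le_mul_of_nonneg_left (hD z.1 z.2) (abs_nonneg _)
  rw [← intervalIntegral_integral_swap hint]
  congr 1
  refine intervalIntegral.integral_congr fun t _ => ?_
  rw [integral_const_mul]
  rfl

/-- **The bound at every tilt.** -/
theorem abs_X38 (h : DenLaw μ f f') {K θ0 : ℝ} (hs : SG μ (sc f f') K θ0) (hK : 0 ≤ K) (hQ : Blk18.Full N Q) {y : ℤ}
    (hy : ∀ S : Px Q, ps S N = y) {δ B : ℝ} (hB : 1 ≤ B) {b0 b b' j : ℕ} (hb : b0 + 6 ≤ b) (hbb : b ≤ b') (hj : b' ≤ j) (hjN : j + b' ≤ N)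
    {a : ℤ} (ha : |(a : ℝ)| ≤ 1) (t : ℝ) {Yf : Env → Px Q → ℝ} {L : ℝ} (hY : Psg N b0 b b' j Yf L)
    {sl R : ℝ} (hR : 1 ≤ R) {θ Λ : ℝ} (hθ : 0 < θ) (hθ1 : θ ≤ 1) (hθ0 : θ ≤ θ0) (hΛ : 0 ≤ Λ) :
    |X38 μ s N Q δ B b0 b b' j a Yf t| ≤
      RS38 μ s N Q δ B b0 b b' j a Yf sl R Λ t + LS38 μ s N Q δ B b0 b b' j a Yf sl R Λ t + 2 * tl38 N L R B K θ Λ :=
  kX38 h hs hK hQ hy hB hb hbb hj hjN ha t hY hR hθ hθ1 hθ0 hΛ

/-- **Averages under the tilt integral**: if the weighted sum of `X i` is at most `C` at every tilt, the weighted sum of the means is at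
most `C / 6`. -/
theorem avg38 {ι : Type*} (T : Finset ι) (c : ι → ℝ) {X : ι → ℝ → ℝ} {I : ι → ℝ} (hX : ∀ i ∈ T, Continuous (X i))
    (hI : ∀ i ∈ T, I i = -(1 / 12) * ∫ t in (-1 : ℝ)..1, t * (1 - t ^ 2) * X i t) {C : ℝ}
    (hC : ∀ t ∈ Set.Icc (-1 : ℝ) 1, |∑ i ∈ T, c i * X i t| ≤ C) : |∑ i ∈ T, c i * I i| ≤ C / 6 := by
  have e1 : ∑ i ∈ T, c i * I i = -(1 / 12) * ∫ t in (-1 : ℝ)..1, t * (1 - t ^ 2) * ∑ i ∈ T, c i * X i t := by
    have e2 : ∀ t : ℝ, t * (1 - t ^ 2) * ∑ i ∈ T, c i * X i t = ∑ i ∈ T, c i * (t * (1 - t ^ 2) * X i t) := fun t => by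
      rw [Finset.mul_sum]
      exact Finset.sum_congr rfl fun i _ => by ring
    have hc : ∀ i ∈ T, Continuous fun t : ℝ => c i * (t * (1 - t ^ 2) * X i t) := fun i hi =>
      continuous_const.mul ((continuous_id.mul (continuous_const.sub (continuous_id.pow 2))).mul (hX i hi))
    simp only [e2]
    rw [intervalIntegral.integral_finsetSum fun i hi => (hc i hi).intervalIntegrable _ _, Finset.mul_sum]
    refine Finset.sum_congr rfl fun i hi => ?_
    rw [hI i hi, intervalIntegral.integral_const_mul]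
    ring
  rw [e1, abs_mul]
  have key := intervalIntegral.norm_integral_le_of_norm_le_const (a := (-1 : ℝ)) (b := 1) (C := C)
    (f := fun t => t * (1 - t ^ 2) * ∑ i ∈ T, c i * X i t) fun t ht => by
      have ht' : -1 < t ∧ t ≤ 1 := by
        rw [Set.uIoc_of_le (by norm_num)] at ht
        exact ht
      rw [Real.norm_eq_abs, abs_mul]
      have k1 : |t * (1 - t ^ 2)| ≤ 1 := by
        rw [abs_mul]
        have a1 : |t| ≤ 1 := abs_le.2 ⟨ht'.1.le, ht'.2⟩
        have a2 : |1 - t ^ 2| ≤ 1 := by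
          rw [abs_le]
          constructor <;> nlinarith [sq_nonneg t, ht'.1, ht'.2]
        exact mul_le_one₀ a1 (abs_nonneg _) a2
      exact (mul_le_of_le_one_left (abs_nonneg _) k1).trans (hC t ⟨ht'.1.le, ht'.2⟩)
  rw [Real.norm_eq_abs] at key
  have e : |(1 : ℝ) - -1| = 2 := by norm_num
  rw [e] at key
  have e2 : |(-(1 / 12) : ℝ)| = 1 / 12 := by
    rw [abs_neg]
    norm_num
  rw [e2]
  linarith

/-- **The same with absolute values**: nonnegative weights, the absolute value of every row. -/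
theorem avg38_abs {ι : Type*} (T : Finset ι) (c : ι → ℝ) (hc : ∀ i ∈ T, 0 ≤ c i) {X : ι → ℝ → ℝ} {I : ι → ℝ}
    (hX : ∀ i ∈ T, Continuous (X i)) (hI : ∀ i ∈ T, I i = -(1 / 12) * ∫ t in (-1 : ℝ)..1, t * (1 - t ^ 2) * X i t) {C : ℝ}
    (hC : ∀ t ∈ Set.Icc (-1 : ℝ) 1, ∑ i ∈ T, c i * |X i t| ≤ C) : ∑ i ∈ T, c i * |I i| ≤ C / 6 := by
  have h1 := avg38 T (fun i => c i * SignType.sign (I i)) hX hI (C := C) fun t ht => by
    refine (Finset.abs_sum_le_sum_abs _ _).trans ((Finset.sum_le_sum fun i hi => ?_).trans (hC t ht))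
    rw [abs_mul, abs_mul, abs_of_nonneg (hc i hi)]
    refine mul_le_mul_of_nonneg_right (mul_le_of_le_one_right (hc i hi) ?_) (abs_nonneg _)
    rcases lt_trichotomy (I i) 0 with h | h | h
    · rw [sign_neg h]
      simp
    · rw [h]
      simp
    · rw [sign_pos h]
      simp
  have h2 : ∑ i ∈ T, c i * |I i| = ∑ i ∈ T, c i * SignType.sign (I i) * I i := by
    refine Finset.sum_congr rfl fun i _ => ?_
    rw [mul_assoc, sign_mul_self]
  rw [h2]
  exact (le_abs_self _).trans h1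

end

end Pool.W7d29a1.C0.L38
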