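import Pool.Agent.W_7d29a1_C0.VT31B
import Pool.Agent.W_7d29a1_C0.Cum52
import Pool.Agent.W_7d29a1_C0.Kick14
import Pool.Agent.W_7d29a1_X.Path89

/-!
MP_7d29a1_pr, [CURV0]: THE MODEL (helper92).

Paths of length `N` are subsets of `range N` (the times of the up steps), with the weights `pth` (log weight `lw`), in the ACTUAL
environment `η`. `Px Q` are the paths of the family `Q`: `Q = Fr N` (free end) or `Q = Pn N y` (pinned at the end `(N, y)`). The signs `a j = ± 1` of the kicked rows are independent of the environment; `sg A` are the signs of the set `A`.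
The window of the row `j` at the base `b` is the centred window `[j - b, j + b)`. `lk` is the response of a window to a kick `v` at one row,
`gw` the clipped half response (zero for the steep ends), `gj` the same as a function of the path: `exp (lw - 2 a_j gj)` is the path
measure with the kick of the row `j` flipped. `pJ c d` is what a path does outside of the block `[c, d)` (together with the ends);
`Zm` is the block functional of helper38 and helper31 (`VT31B`), `xm` its mean variance, `Zm_merge` the merging of two blocks.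
-/

set_option autoImplicit false

namespace Pool.Agent.W_7d29a1_C0.Mod92

open Finset MeasureTheory Pool.Agent.W_7d29a1_F Pool.Agent.W_7d29a1_X Pool.Agent.W_7d29a1_H
open Pool.Agent.W_7d29a1_HS (wd)
open Pool.Agent.W_7d29a1_Z74 (ZJ)
open Pool.W7d29a1.C0 (gz gm lse gz_pos gz_ne)
open Pool.W7d29a1.C0.VT31 (Mp Crs cE cV cC gc gv Zb Gam)

noncomputable section

/-! ### Paths -/

/-- The paths of the family `Q`. -/
abbrev Px (Q : Finset (Finset ℕ)) := {S : Finset ℕ // S ∈ Q}

/-- The family of all paths of length `N`. -/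
abbrev Fr (N : ℕ) : Finset (Finset ℕ) := (range N).powerset

/-- The family of the paths from the origin to `(N, y)`. -/
abbrev Pn (N y : ℕ) : Finset (Finset ℕ) := (range N).powersetCard y

instance (N : ℕ) : Nonempty (Px (Fr N)) := ⟨⟨∅, by simp⟩⟩

theorem ne_Pn {N y : ℕ} (h : y ≤ N) : Nonempty (Px (Pn N y)) :=
  ⟨⟨range y, by
    rw [mem_powersetCard]
    exact ⟨range_subset_range.2 h, card_range y⟩⟩⟩

/-- The logarithm of the weight of a path. -/
def lw (μ : Measure ℝ) (s : ℝ) (η : Env) (N : ℕ) (Q : Finset (Finset ℕ)) (S : Px Q) : ℝ := Real.log (pth μ s η N S.1)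

/-- The position of a path at a time. -/
def ps {Q : Finset (Finset ℕ)} (S : Px Q) (t : ℕ) : ℤ := pos S.1 t

variable {μ : Measure ℝ} {s : ℝ} {N : ℕ} {Q : Finset (Finset ℕ)}

theorem pos_card {N : ℕ} {S : Finset ℕ} (h : S ⊆ range N) : pos S N = S.card := by
  unfold pos
  rw [inter_eq_left.2 h]

/-- The end of a pinned path. -/
theorem ps_Pn {y : ℕ} (S : Px (Pn N y)) : ps S N = y := by
  obtain ⟨h1, h2⟩ := mem_powersetCard.1 S.2
  unfold ps
  rw [pos_card h1, h2]

theorem pth_pos (η : Env) (t : ℕ) (S : Finset ℕ) : 0 < pth μ s η t S :=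
  mul_pos (Real.exp_pos _) (prod_pos fun _ _ => Real.exp_pos _)

theorem exp_lw (η : Env) (S : Px Q) : Real.exp (lw μ s η N Q S) = pth μ s η N S.1 := Real.exp_log (pth_pos η N S.1)

theorem sum_Px (f : Finset ℕ → ℝ) : ∑ S : Px Q, f S.1 = ∑ S ∈ Q, f S := Finset.sum_coe_sort Q f

/-- The partition function. -/
theorem gz_lw (η : Env) : gz (lw μ s η N (Fr N)) = Real.exp (V μ s η 0 N) := by
  have h := GS_sum (μ := μ) (s := s) η N
  unfold GS at h
  rw [← sum_div, div_eq_one_iff_eq (Real.exp_pos _).ne'] at h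
  unfold gz
  rw [← h, ← sum_Px]
  exact sum_congr rfl fun S _ => exp_lw η S

/-- The partition function of the pinned paths. -/
theorem gz_Pn (η : Env) (y : ℕ) : gz (lw μ s η N (Pn N y)) = W μ s η 0 N y := by
  rw [← Mt_one]
  have h : Pn N y = (range N).powerset.filter fun S => pos S N = (y : ℤ) := by
    ext S
    rw [mem_powersetCard, mem_filter, mem_powerset]
    refine and_congr_right fun h => ?_
    rw [pos_card h]
    exact Int.natCast_inj.symm
  have h1 : gz (lw μ s η N (Pn N y)) = ∑ S : Px (Pn N y), (fun S => pth μ s η N S) S.1 :=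
    sum_congr rfl fun S _ => exp_lw η S
  rw [h1, sum_Px (Q := Pn N y) fun S => pth μ s η N S]
  unfold Mt
  rw [h, sum_filter]
  exact sum_congr rfl fun S _ => by simp

/-- The Gibbs mean is the mean under the weights `GS`. -/
theorem gm_lw (η : Env) (f : Finset ℕ → ℝ) :
    gm (lw μ s η N (Fr N)) (fun S => f S.1) = ∑ S ∈ (range N).powerset, GS μ s η N S * f S := by
  unfold gm
  rw [gz_lw, sum_div, ← sum_Px fun S => GS μ s η N S * f S]
  refine sum_congr rfl fun S _ => ?_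
  rw [exp_lw]
  unfold GS
  ring

/-- The Gibbs mean is the mean `gav` over the family with the weights `pth`. -/
theorem gm_gav (η : Env) (f : Finset ℕ → ℝ) :
    gm (lw μ s η N Q) (fun S => f S.1) = gav Q (pth μ s η N) f := by
  unfold gm gav gz
  rw [← sum_Px fun S => pth μ s η N S * f S, ← sum_Px fun S => pth μ s η N S]
  congr 1
  · exact sum_congr rfl fun S _ => by rw [exp_lw]
  · exact sum_congr rfl fun S _ => by rw [exp_lw]

theorem ps_nonneg (S : Px Q) (t : ℕ) : 0 ≤ ps S t := pos_nonneg _ _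

theorem ps_le (S : Px Q) (t : ℕ) : ps S t ≤ t := pos_le _ _

theorem ps_zero (S : Px Q) : ps S 0 = 0 := pos_zero _

/-! ### Outside of a block -/

/-- What the path does outside of the block `[c, d)`, and its displacement over the block. -/
def pJ (c d : ℕ) (S : Px Q) : Finset ℕ × ℕ := (S.1 \ Ico c d, (S.1 ∩ Ico c d).card)

/-- Outside of a block the positions are functions of `pJ`: rows before the block. -/
theorem ps_of_le {c d t : ℕ} {S S' : Px Q} (h : pJ c d S = pJ c d S') (ht : t ≤ c) : ps S t = ps S' t := by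
  have h1 : S.1 \ Ico c d = S'.1 \ Ico c d := congrArg Prod.fst h
  unfold ps pos
  have h2 : ∀ S : Finset ℕ, S ∩ range t = (S \ Ico c d) ∩ range t := fun S => by
    ext i
    simp only [mem_inter, mem_sdiff, mem_Ico, mem_range]
    constructor
    · rintro ⟨h3, h4⟩
      exact ⟨⟨h3, by omega⟩, h4⟩
    · rintro ⟨⟨h3, _⟩, h4⟩
      exact ⟨h3, h4⟩
  rw [h2 S.1, h2 S'.1, h1]

/-- Rows after the block. -/
theorem ps_of_ge {c d t : ℕ} {S S' : Px Q} (h : pJ c d S = pJ c d S') (ht : d ≤ t) : ps S t = ps S' t := by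
  have h1 : S.1 \ Ico c d = S'.1 \ Ico c d := congrArg Prod.fst h
  have h0 : (S.1 ∩ Ico c d).card = (S'.1 ∩ Ico c d).card := congrArg Prod.snd h
  unfold ps pos
  have h2 : ∀ S : Finset ℕ, (S ∩ range t).card = ((S \ Ico c d) ∩ range t).card + (S ∩ Ico c d).card := fun S => by
    rw [← card_union_of_disjoint]
    · congr 1
      ext i
      simp only [mem_inter, mem_sdiff, mem_Ico, mem_range, mem_union]
      constructor
      · rintro ⟨h3, h4⟩
        by_cases h5 : c ≤ i ∧ i < d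
        · exact Or.inr ⟨h3, h5⟩
        · exact Or.inl ⟨⟨h3, h5⟩, h4⟩
      · rintro (⟨⟨h3, _⟩, h4⟩ | ⟨h3, h4, h5⟩)
        · exact ⟨h3, h4⟩
        · exact ⟨h3, by omega⟩
    · rw [disjoint_left]
      intro i h3 h4
      simp only [mem_inter, mem_sdiff] at h3 h4
      exact h3.1.2 h4.2
  rw [h2 S.1, h2 S'.1, h1, h0]

/-- A smaller block determines a larger one. -/
theorem crs_pJ {c d c' d' : ℕ} (hc : c' ≤ c) (hd : d ≤ d') : Crs (pJ (Q := Q) c' d') (pJ c d) := by
  intro S S' h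
  have h1 : S.1 \ Ico c d = S'.1 \ Ico c d := congrArg Prod.fst h
  have h0 : (S.1 ∩ Ico c d).card = (S'.1 ∩ Ico c d).card := congrArg Prod.snd h
  have h2 : ∀ S : Finset ℕ, S \ Ico c' d' = (S \ Ico c d) \ Ico c' d' := fun S => by
    ext i
    simp only [mem_sdiff, mem_Ico]
    constructor
    · rintro ⟨h3, h4⟩
      exact ⟨⟨h3, by omega⟩, h4⟩
    · rintro ⟨⟨h3, _⟩, h4⟩
      exact ⟨h3, h4⟩
  have h3 : ∀ S : Finset ℕ, (S ∩ Ico c' d').card = ((S \ Ico c d) ∩ Ico c' d').card + (S ∩ Ico c d).card := fun S => by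
    rw [← card_union_of_disjoint]
    · congr 1
      ext i
      simp only [mem_inter, mem_sdiff, mem_Ico, mem_union]
      constructor
      · rintro ⟨h3, h4⟩
        by_cases h5 : c ≤ i ∧ i < d
        · exact Or.inr ⟨h3, h5⟩
        · exact Or.inl ⟨⟨h3, h5⟩, h4⟩
      · rintro (⟨⟨h3, _⟩, h4⟩ | ⟨h3, h4, h5⟩)
        · exact ⟨h3, h4⟩
        · exact ⟨h3, by omega⟩
    · rw [disjoint_left]
      intro i h3 h4
      simp only [mem_inter, mem_sdiff] at h3 h4
      exact h3.1.2 h4.2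
  unfold pJ
  rw [h2 S.1, h2 S'.1, h3 S.1, h3 S'.1, h1, h0]

/-- A function of the positions at two times outside of the block (`Mp (pJ c d) f`: `f` does not look inside of the block). -/
theorem mp_ps {c d t u : ℕ} (φ : ℤ → ℤ → ℝ) (ht : t ≤ c ∨ d ≤ t) (hu : u ≤ c ∨ d ≤ u) :
    Mp (pJ c d) fun S : Px Q => φ (ps S t) (ps S u) := by
  intro S S' h
  have h1 : ps S t = ps S' t := ht.elim (fun h2 => ps_of_le h h2) fun h2 => ps_of_ge h h2
  have h3 : ps S u = ps S' u := hu.elim (fun h2 => ps_of_le h h2) fun h2 => ps_of_ge h h2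
  simp only [h1, h3]

/-! ### Kicks -/

/-- The response of the window `[c, c + l]`, between the positions `x` and `y`, to the kick `v` at the row `c + k`. -/
def lk (μ : Measure ℝ) (s : ℝ) (η : Env) (c l k : ℕ) (v x y : ℤ) : ℝ :=
  Real.log (ZJ μ s η ((c : ℤ), x) k (l - k) v (y - x)) - Real.log (W μ s η ((c : ℤ), x) l (y - x))

/-- Clipping at the level `B`. -/
def cl (B u : ℝ) : ℝ := max (-B) (min B u)

theorem abs_cl {B : ℝ} (hB : 0 ≤ B) (u : ℝ) : |cl B u| ≤ B := by
  unfold cl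
  rw [abs_le]
  exact ⟨le_max_left _ _, max_le (by linarith) (min_le_left _ _)⟩

theorem cl_of_abs {B u : ℝ} (h : |u| ≤ B) : cl B u = u := by
  obtain ⟨h1, h2⟩ := abs_le.1 h
  unfold cl
  rw [min_eq_right h2, max_eq_right h1]

/-- The ends of a window of length `l` with the displacement `y` are not steep, at the sign `a` of the kicked row (symmetric under
the flip `a ↦ - a`, `y ↦ y + a`). -/
def Flat (μ : Measure ℝ) (s δ : ℝ) (l : ℕ) (a y : ℤ) : Prop := |(y : ℝ) + (a : ℝ) / 2 - sl μ s * l| ≤ (l : ℝ) ^ δ * wd μ s l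

theorem flat_flip {δ : ℝ} {l : ℕ} {a y : ℤ} : Flat μ s δ l (-a) (y + a) ↔ Flat μ s δ l a y := by
  unfold Flat
  have e : ((y + a : ℤ) : ℝ) + ((-a : ℤ) : ℝ) / 2 - sl μ s * l = (y : ℝ) + (a : ℝ) / 2 - sl μ s * l := by
    push_cast
    ring
  rw [e]

open Classical in
/-- The clipped half response of the window `[c, c + l]` to the flip of the sign `a` of the row `c + k`, for the ends `x`, `y`. -/
def gw (μ : Measure ℝ) (s : ℝ) (η : Env) (δ B : ℝ) (a : ℤ) (c l k : ℕ) (x y : ℤ) : ℝ :=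
  if Flat μ s δ l a (y - x) then -((a : ℝ) / 2) * cl B (lk μ s η c l k (-a) x y) else 0

theorem abs_gw (η : Env) {δ B : ℝ} (hB : 0 ≤ B) {a : ℤ} (ha : |(a : ℝ)| ≤ 1) (c l k : ℕ) (x y : ℤ) :
    |gw μ s η δ B a c l k x y| ≤ B / 2 := by
  unfold gw
  split_ifs
  · rw [abs_mul, abs_neg, abs_div, abs_two]
    have h1 := abs_cl hB (lk μ s η c l k (-a) x y)
    have h2 : |(a : ℝ)| / 2 ≤ 1 / 2 := by linarith
    calc |(a : ℝ)| / 2 * |cl B (lk μ s η c l k (-a) x y)| ≤ 1 / 2 * B :=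
          mul_le_mul h2 h1 (abs_nonneg _) (by norm_num)
      _ = B / 2 := by ring
  · rw [abs_zero]
    linarith

/-- The half response of the centred window `[j - b, j + b)` of the row `j` at the base `b`, as a function of the path. -/
def gj (μ : Measure ℝ) (s : ℝ) (η : Env) (δ B : ℝ) (b j : ℕ) (a : ℤ) (S : Px Q) : ℝ :=
  gw μ s η δ B a (j - b) (j + b - (j - b)) (j - (j - b)) (ps S (j - b)) (ps S (j + b))

theorem abs_gj (η : Env) {δ B : ℝ} (hB : 0 ≤ B) {a : ℤ} (ha : |(a : ℝ)| ≤ 1) (b j : ℕ) (S : Px Q) :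
    |gj μ s η δ B b j a S| ≤ B / 2 := abs_gw η hB ha _ _ _ _ _

/-- `gj` does not look at the interior of its window. -/
theorem mp_gj (η : Env) (δ B : ℝ) (b j : ℕ) (a : ℤ) :
    Mp (pJ (j - b) (j + b)) (gj (Q := Q) μ s η δ B b j a) :=
  mp_ps (Q := Q) (gw μ s η δ B a (j - b) (j + b - (j - b)) (j - (j - b))) (Or.inl le_rfl) (Or.inr le_rfl)

/-- The log weights of the measure with the kick of the row `j` at `t` (`t = a`: the actual measure, `t = - a`: the flipped one). -/
def wt (μ : Measure ℝ) (s : ℝ) (η : Env) (N : ℕ) (Q : Finset (Finset ℕ)) (δ B : ℝ) (b j : ℕ) (a : ℤ) (t : ℝ) : Px Q → ℝ :=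
  lw μ s η N Q + (t - a) • gj μ s η δ B b j a

theorem wt_self (η : Env) (δ B : ℝ) (b j : ℕ) (a : ℤ) : wt μ s η N Q δ B b j a a = lw μ s η N Q := by
  unfold wt
  rw [sub_self, zero_smul, add_zero]

/-! ### Signs -/

/-- The signs of the set `A`. -/
def sg (A : Finset ℕ) (j : ℕ) : ℤ := if j ∈ A then 1 else -1

theorem sg_or (A : Finset ℕ) (j : ℕ) : sg A j = 1 ∨ sg A j = -1 := by
  unfold sg
  split_ifs
  · exact Or.inl rfl
  · exact Or.inr rfl

theorem sg_sq (A : Finset ℕ) (j : ℕ) : sg A j * sg A j = 1 := by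
  rcases sg_or A j with h | h <;> rw [h] <;> norm_num

theorem abs_sg (A : Finset ℕ) (j : ℕ) : |(sg A j : ℝ)| = 1 := by
  rcases sg_or A j with h | h <;> rw [h] <;> norm_num

/-- The flip of the sign of the row `j`. -/
def flp (j : ℕ) (A : Finset ℕ) : Finset ℕ := symmDiff A {j}

theorem sg_flp (j : ℕ) (A : Finset ℕ) : sg (flp j A) j = -sg A j := by
  unfold sg flp
  by_cases h : j ∈ A <;> simp [mem_symmDiff, h]

theorem sg_flp_ne {j k : ℕ} (h : k ≠ j) (A : Finset ℕ) : sg (flp j A) k = sg A k := by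
  unfold sg flp
  simp [mem_symmDiff, h]

theorem flp_flp (j : ℕ) (A : Finset ℕ) : flp j (flp j A) = A := by
  unfold flp
  rw [symmDiff_assoc, symmDiff_self, Finset.bot_eq_empty]
  ext i
  simp [mem_symmDiff]

theorem flp_mem {j : ℕ} (hj : j < N) {A : Finset ℕ} (hA : A ∈ (range N).powerset) : flp j A ∈ (range N).powerset := by
  rw [mem_powerset] at hA ⊢
  intro i hi
  unfold flp at hi
  rw [mem_symmDiff, mem_singleton] at hi
  rcases hi with ⟨h, _⟩ | ⟨h, _⟩
  · exact hA h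
  · rw [h, mem_range]
    exact hj

/-- The sum over the signs is invariant under a flip. -/
theorem sum_flp {j : ℕ} (hj : j < N) (φ : Finset ℕ → ℝ) :
    ∑ A ∈ (range N).powerset, φ (flp j A) = ∑ A ∈ (range N).powerset, φ A :=
  sum_bij' (fun A _ => flp j A) (fun A _ => flp j A) (fun _ h => flp_mem hj h) (fun _ h => flp_mem hj h)
    (fun _ _ => flp_flp _ _) (fun _ _ => flp_flp _ _) fun _ _ => rfl

/-! ### The outer probability space: the environment and the signs -/

instance : MeasurableSpace (Finset ℕ) := ⊤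

/-- The law of (environment, set of the rows with sign `1`): independent, the set is uniform in the subsets of `range N`. -/
def Pm (μ : Measure ℝ) (N : ℕ) : Measure (Env × Finset ℕ) :=
  (2 ^ N : ENNReal)⁻¹ • ∑ A ∈ (range N).powerset, (law μ).map fun η => (η, A)

theorem meas_pair (A : Finset ℕ) : Measurable fun η : Env => (η, A) := measurable_id.prodMk measurable_const

instance [IsProbabilityMeasure μ] : IsProbabilityMeasure (Pm μ N) := by
  constructor
  unfold Pm
  rw [Measure.smul_apply, Measure.finsetSum_apply]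
  have h : ∀ A ∈ (range N).powerset, ((law μ).map fun η : Env => (η, A)) Set.univ = 1 := fun A _ => by
    rw [Measure.map_apply (meas_pair A) MeasurableSet.univ, Set.preimage_univ, measure_univ]
  rw [sum_congr rfl h, sum_const, card_powerset, card_range, nsmul_eq_mul, mul_one, smul_eq_mul]
  push_cast
  exact ENNReal.inv_mul_cancel (by positivity) (by finiteness)

/-- The mean over the signs and the environment. -/
theorem int_Pm {Φ : Env × Finset ℕ → ℝ} (h : ∀ A ∈ (range N).powerset, Integrable (fun η => Φ (η, A)) (law μ))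
    (hm : ∀ A, Measurable fun η => Φ (η, A)) :
    ∫ ω, Φ ω ∂(Pm μ N) = (2 ^ N : ℝ)⁻¹ * ∑ A ∈ (range N).powerset, ∫ η, Φ (η, A) ∂(law μ) := by
  have hΦ : Measurable Φ := by
    intro U hU
    have e : Φ ⁻¹' U = ⋃ A : Finset ℕ, ((fun η => Φ (η, A)) ⁻¹' U) ×ˢ {A} := by
      ext ⟨η, A⟩
      simp
    rw [e]
    exact MeasurableSet.iUnion fun A => ((hm A) hU).prod trivial
  unfold Pm
  rw [integral_smul_measure, integral_finsetSum_measure]
  · have e : ((2 ^ N : ENNReal)⁻¹).toReal = (2 ^ N : ℝ)⁻¹ := by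
      rw [ENNReal.toReal_inv, ENNReal.toReal_pow, ENNReal.toReal_ofNat]
    rw [e, smul_eq_mul]
    congr 1
    refine sum_congr rfl fun A _ => ?_
    exact integral_map (meas_pair A).aemeasurable hΦ.aestronglyMeasurable
  · intro A hA
    exact (integrable_map_measure hΦ.aestronglyMeasurable (meas_pair A).aemeasurable).2 (h A hA)

/-- The mean over the sign of one row: the half sum of a functional and of the functional at the flipped signs. -/
theorem sum_half {j : ℕ} (hj : j < N) (φ : Finset ℕ → ℝ) :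
    ∑ A ∈ (range N).powerset, φ A = ∑ A ∈ (range N).powerset, (φ A + φ (flp j A)) / 2 := by
  rw [← sum_div, sum_add_distrib, sum_flp hj φ]
  ring

/-! ### Kicked rows and block functionals -/

/-- The rows which are kicked: for every dyadic scale `2 ^ i ≤ 2 ^ M`, the distance to the multiples of `2 ^ i` is at least
`ρ 2 ^ i - 1` below and `ρ 2 ^ i` above (no condition if `ρ 2 ^ i ≤ 1`). -/
def Kr (N M : ℕ) (ρ : ℝ) : Finset ℕ := by
  classical
  exact (range N).filter fun j => ∀ i ≤ M, ρ * 2 ^ i ≤ ((j % 2 ^ i : ℕ) : ℝ) + 1 ∧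
    ρ * 2 ^ i ≤ ((2 ^ i - j % 2 ^ i : ℕ) : ℝ)

/-- The windows `[j - b, j + b)` of the kicked rows lie inside of their blocks of length `σ`. -/
def Deep (R : Finset ℕ) (b σ : ℕ) : Prop := ∀ j ∈ R, j / σ * σ + b ≤ j ∧ j + b ≤ (j / σ + 1) * σ

theorem Deep.mono {R : Finset ℕ} {b b' σ : ℕ} (h : Deep R b σ) (hb : b' ≤ b) : Deep R b' σ := fun j hj => by
  obtain ⟨h1, h2⟩ := h j hj
  exact ⟨by omega, by omega⟩

/-- The windows lie inside of the larger blocks, too. -/
theorem Deep.mul {R : Finset ℕ} {b σ : ℕ} (h : Deep R b σ) {m : ℕ} (hσ : 0 < σ) (hm : 0 < m) : Deep R b (m * σ) := fun j hj => by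
  obtain ⟨h1, h2⟩ := h j hj
  have h3 : j / (m * σ) * (m * σ) ≤ j / σ * σ := by
    have h4 : j / (m * σ) * m ≤ j / σ := by
      rw [Nat.le_div_iff_mul_le hσ, mul_assoc]
      exact Nat.div_mul_le_self j (m * σ)
    calc j / (m * σ) * (m * σ) = j / (m * σ) * m * σ := by ring
      _ ≤ j / σ * σ := Nat.mul_le_mul_right σ h4
  have h5 : (j / σ + 1) * σ ≤ (j / (m * σ) + 1) * (m * σ) := by
    have h6 : j / σ + 1 ≤ (j / (m * σ) + 1) * m := by
      have h7 : j / σ < (j / (m * σ) + 1) * m := by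
        rw [Nat.div_lt_iff_lt_mul hσ, mul_assoc]
        exact Nat.lt_mul_of_div_lt (Nat.lt_succ_self _) (Nat.mul_pos hm hσ)
      exact h7
    calc (j / σ + 1) * σ ≤ (j / (m * σ) + 1) * m * σ := Nat.mul_le_mul_right σ h6
      _ = (j / (m * σ) + 1) * (m * σ) := by ring
  exact ⟨by omega, by omega⟩

/-- The rows of `Kr` are deep. -/
theorem deep_Kr {N M i : ℕ} (hi : i ≤ M) {ρ : ℝ} {b : ℕ} (hb : (b : ℝ) + 1 ≤ ρ * 2 ^ i) : Deep (Kr N M ρ) b (2 ^ i) := by
  intro j hj
  unfold Kr at hj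
  simp only [mem_filter] at hj
  obtain ⟨h1, h2⟩ := hj.2 i hi
  have h3 : b ≤ j % 2 ^ i := by
    have : (b : ℝ) ≤ ((j % 2 ^ i : ℕ) : ℝ) := by linarith
    exact_mod_cast this
  have h4 : b ≤ 2 ^ i - j % 2 ^ i := by
    have : (b : ℝ) ≤ ((2 ^ i - j % 2 ^ i : ℕ) : ℝ) := by linarith
    exact_mod_cast this
  have h5 := Nat.div_add_mod j (2 ^ i)
  have h6 : j % 2 ^ i < 2 ^ i := Nat.mod_lt _ (by positivity)
  have h7 : 2 ^ i * (j / 2 ^ i) = j / 2 ^ i * 2 ^ i := Nat.mul_comm _ _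
  have h8 : (j / 2 ^ i + 1) * 2 ^ i = j / 2 ^ i * 2 ^ i + 2 ^ i := Nat.succ_mul _ _
  exact ⟨by omega, by omega⟩

/-- The kicked rows of the block `[c, d)`. -/
def Rw (R : Finset ℕ) (c d : ℕ) : Finset ℕ := R ∩ Ico c d

/-- The windows of the kicked rows of a block of the grid of length `σ` lie in the block. -/
theorem Deep.in_block {R : Finset ℕ} {b σ : ℕ} (h : Deep R b σ) (hσ : 0 < σ) {c d : ℕ} (hc : σ ∣ c) (hd : σ ∣ d) {j : ℕ}
    (hj : j ∈ Rw R c d) : c + b ≤ j ∧ j + b ≤ d := by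
  unfold Rw at hj
  rw [mem_inter, mem_Ico] at hj
  obtain ⟨h1, h2⟩ := h j hj.1
  obtain ⟨c', rfl⟩ := hc
  obtain ⟨d', rfl⟩ := hd
  have h3 : σ * c' ≤ j / σ * σ := by
    rw [mul_comm]
    refine Nat.mul_le_mul_right σ ?_
    rw [Nat.le_div_iff_mul_le hσ, mul_comm]
    exact hj.2.1
  have h4 : (j / σ + 1) * σ ≤ σ * d' := by
    rw [mul_comm σ d']
    refine Nat.mul_le_mul_right σ ?_
    have : j / σ < d' := by
      rw [Nat.div_lt_iff_lt_mul hσ, mul_comm]
      exact hj.2.2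
    exact this
  exact ⟨by omega, by omega⟩

/-- The half responses of all the rows, at the signs `a`. -/
def gg (μ : Measure ℝ) (s : ℝ) (Q : Finset (Finset ℕ)) (δ B : ℝ) (b : ℕ) (ω : Env × Finset ℕ) (j : ℕ) : Px Q → ℝ :=
  gj μ s ω.1 δ B b j (sg ω.2 j)

/-- The signs as real numbers. -/
def sr (A : Finset ℕ) (j : ℕ) : ℝ := sg A j

/-- The log weights. -/
def wm (μ : Measure ℝ) (s : ℝ) (N : ℕ) (Q : Finset (Finset ℕ)) (ω : Env × Finset ℕ) : Px Q → ℝ := lw μ s ω.1 N Q

/-- The response of the row `j` seen from outside of the block `[c, d)`. -/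
def Fm (μ : Measure ℝ) (s : ℝ) (N : ℕ) (Q : Finset (Finset ℕ)) (δ B : ℝ) (b c d : ℕ) (ω : Env × Finset ℕ)
    (j : ℕ) : Px Q → ℝ :=
  cE (wm μ s N Q ω) (pJ c d) (gg μ s Q δ B b ω j)

/-- Its conditional variance. -/
def Vm (μ : Measure ℝ) (s : ℝ) (N : ℕ) (Q : Finset (Finset ℕ)) (δ B : ℝ) (b c d : ℕ) (ω : Env × Finset ℕ)
    (j : ℕ) : Px Q → ℝ :=
  cV (wm μ s N Q ω) (pJ c d) (gg μ s Q δ B b ω j)

/-- **The block functional** `Z_J = ∑ (F_j - (a_j / 3) V_j)` of the block `[c, d)` with the base windows of length `b` and the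
kicked rows `R`. -/
def Zm (μ : Measure ℝ) (s : ℝ) (N : ℕ) (Q : Finset (Finset ℕ)) (δ B : ℝ) (b : ℕ) (R : Finset ℕ) (c d : ℕ)
    (ω : Env × Finset ℕ) : Px Q → ℝ :=
  Zb (wm μ s N Q ω) (pJ c d) (Rw R c d) (sr ω.2) (gg μ s Q δ B b ω)

/-- **The variance of the block functional** under the full Gibbs measure, averaged over the environment and the signs. -/
def xm (μ : Measure ℝ) (s : ℝ) (N : ℕ) (Q : Finset (Finset ℕ)) (δ B : ℝ) (b : ℕ) (R : Finset ℕ) (c d : ℕ) : ℝ :=
  ∫ ω, gv (wm μ s N Q ω) (Zm μ s N Q δ B b R c d ω) ∂(Pm μ N)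

theorem mp_gg (δ B : ℝ) (b : ℕ) (ω : Env × Finset ℕ) (j : ℕ) :
    Mp (pJ (j - b) (j + b)) (gg μ s Q δ B b ω j) := mp_gj ω.1 δ B b j _

theorem abs_gg {δ B : ℝ} (hB : 0 ≤ B) (b : ℕ) (ω : Env × Finset ℕ) (j : ℕ) (S : Px Q) : |gg μ s Q δ B b ω j S| ≤ B / 2 :=
  abs_gj ω.1 hB (abs_sg _ _).le b j S

theorem mp_Zm [Nonempty (Px Q)] (δ B : ℝ) (b : ℕ) (R : Finset ℕ) (c d : ℕ) (ω : Env × Finset ℕ) :
    Mp (pJ c d) (Zm μ s N Q δ B b R c d ω) :=
  Pool.W7d29a1.C0.VT31.Zb_meas _ _ _ _ _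

/-- The loss of the merging of the blocks `[c, e)` and `[e, d)`. -/
def Gm (μ : Measure ℝ) (s : ℝ) (N : ℕ) (Q : Finset (Finset ℕ)) (δ B : ℝ) (b : ℕ) (R : Finset ℕ) (c e d : ℕ)
    (ω : Env × Finset ℕ) : Px Q → ℝ :=
  Gam (wm μ s N Q ω) (pJ c d) (pJ c e) (Rw R c e) (sr ω.2) (gg μ s Q δ B b ω) +
    Gam (wm μ s N Q ω) (pJ c d) (pJ e d) (Rw R e d) (sr ω.2) (gg μ s Q δ B b ω)

/-- **The merging of two blocks**, exact: `Z_I = G[Z_I1 + Z_I2 | outside of I] - Gam_I`. -/
theorem Zm_merge [Nonempty (Px Q)] (δ B : ℝ) (b : ℕ) (R : Finset ℕ) {c e d : ℕ} (hce : c ≤ e) (hed : e ≤ d)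
    (ω : Env × Finset ℕ) :
    Zm μ s N Q δ B b R c d ω = cE (wm μ s N Q ω) (pJ c d) (Zm μ s N Q δ B b R c e ω + Zm μ s N Q δ B b R e d ω) -
      Gm μ s N Q δ B b R c e d ω := by
  have h : Rw R c d = Rw R c e ∪ Rw R e d := by
    unfold Rw
    ext i
    simp only [mem_inter, mem_union, mem_Ico]
    constructor
    · rintro ⟨h1, h2, h3⟩
      by_cases h4 : i < e
      · exact Or.inl ⟨h1, h2, h4⟩
      · exact Or.inr ⟨h1, by omega, h3⟩
    · rintro (⟨h1, h2, h3⟩ | ⟨h1, h2, h3⟩)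
      · exact ⟨h1, h2, by omega⟩
      · exact ⟨h1, by omega, h3⟩
  have hd : Disjoint (Rw R c e) (Rw R e d) := by
    unfold Rw
    rw [disjoint_left]
    intro i h1 h2
    simp only [mem_inter, mem_Ico] at h1 h2
    omega
  unfold Zm Gm
  rw [h]
  exact Pool.W7d29a1.C0.VT31.Zb_merge _ (crs_pJ le_rfl hed) (crs_pJ hce le_rfl) hd _ _

end

end Pool.Agent.W_7d29a1_C0.Mod92
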