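import Pool.Agent.W_7d29a1_C0.GSsum4
import Pool.Agent.W_7d29a1_C0.Cum82

/-!
MP_7d29a1_pr, [CURV0], leaf E5 (helper23): THE ROW SUMS OF THE CHANGE OF THE BASE. `∫ G[(∑_j Y_j)²]` from the second moments of the rows
(near pairs) and the pair bounds `H / E_|j-k| + C` (far pairs), and the numbers of the regime.
-/

set_option autoImplicit false
set_option linter.unusedSectionVars false

namespace Pool.Agent.W_7d29a1_C0.NN23

open Finset MeasureTheory Pool.Agent.W_7d29a1_C0.GS4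
open Pool.W7d29a1.C0 (gz gm gz_pos gz_ne gm_nonneg gm_mono gm_const gm_add gm_smul abs_gm_le)

section Alg

variable {X : Type*} [Fintype X] [Nonempty X]

theorem gm_sum (w : X → ℝ) {ι : Type*} (R : Finset ι) (f : ι → X → ℝ) : gm w (fun y => ∑ j ∈ R, f j y) = ∑ j ∈ R, gm w (f j) := by
  unfold gm
  rw [← sum_div, sum_comm]
  congr 1
  refine sum_congr rfl fun x _ => ?_
  rw [mul_sum]

theorem gm_sq_sum (w : X → ℝ) {ι : Type*} (R : Finset ι) (V : ι → X → ℝ) :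
    gm w (fun y => (∑ j ∈ R, V j y) ^ 2) = ∑ j ∈ R, ∑ k ∈ R, gm w fun y => V j y * V k y := by
  have e : (fun y => (∑ j ∈ R, V j y) ^ 2) = fun y => ∑ j ∈ R, ∑ k ∈ R, V j y * V k y := by
    funext y
    rw [sq, sum_mul_sum]
  rw [e, gm_sum]
  exact sum_congr rfl fun j _ => gm_sum _ _ _

/-- A pair by the two second moments. -/
theorem gm_mul_le (w : X → ℝ) (f g : X → ℝ) :
    gm w (fun y => f y * g y) ≤ (gm w (fun y => f y ^ 2) + gm w fun y => g y ^ 2) / 2 := by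
  have e : (gm w (fun y => f y ^ 2) + gm w fun y => g y ^ 2) / 2 = gm w fun y => (1 / 2) * (f y ^ 2 + g y ^ 2) := by
    have h1 := gm_add w (fun y => f y ^ 2) fun y => g y ^ 2
    have h2 := gm_smul w (1 / 2) ((fun y => f y ^ 2) + fun y => g y ^ 2)
    rw [h1] at h2
    rw [show (fun y => (1 / 2) * (f y ^ 2 + g y ^ 2)) = (1 / 2 : ℝ) • ((fun y => f y ^ 2) + fun y => g y ^ 2) from rfl, h2]
    ring
  rw [e]
  refine gm_mono w fun y => ?_
  nlinarith [sq_nonneg (f y - g y)]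

end Alg

/-! ### The sum over boxes -/

section Box

/-- **The double sum over the rows of a block of length `L`, by boxes of length `l`**: the pairs in one box or in neighbouring boxes cost
`A`, the pairs of far boxes are majorised by the distance of the boxes, in the mean over the two boxes. -/
theorem dsum_boxes {E : ℕ → ℝ} (hE : ∀ n, 0 < E n) {K : ℝ} (hK : 0 ≤ K)
    (hpow : ∀ t r : ℕ, 1 ≤ t → t ≤ r → E r ≤ K * Real.sqrt ((r : ℝ) / t) * E t) {A G H C : ℝ} (hA : 0 ≤ A) (hG : 0 ≤ G) (hH : 0 ≤ H)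
    (hC : 0 ≤ C) {l s' L c : ℕ} (hl : 1 ≤ l) (hls : l ∣ s') (hs : 1 ≤ s') (hlL : l ∣ L) (hL : 1 ≤ L) (hlc : l ∣ c) {S : Finset ℕ}
    (hS : ∀ k ∈ S, c ≤ k ∧ k < c + L) {P : ℕ → ℕ → ℝ} (hP : ∀ j ∈ S, ∀ k ∈ S, P j k ≤ A)
    (hF : ∀ i i' : ℕ, 2 ≤ Nat.dist i i' → ∑ j ∈ S.filter (fun j => j / l = i), ∑ k ∈ S.filter (fun k => k / l = i'), P j k ≤
      l ^ 2 * ((if Nat.dist i i' * l < s' then G / E (Nat.dist i i' * l) else 0) + H / E (Nat.dist i i' * l) + C)) :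
    ∑ j ∈ S, ∑ k ∈ S, P j k ≤ 2 * L * (2 * l * A + 3 * K * G * (s' / E s') + 3 * K * H * (L / E L) + L * C) := by
  obtain ⟨s₁, rfl⟩ := hls
  obtain ⟨L₁, rfl⟩ := hlL
  obtain ⟨c₁, rfl⟩ := hlc
  have hl0 : (0 : ℝ) < l := by exact_mod_cast hl
  have hs1 : 1 ≤ s₁ := Nat.pos_of_ne_zero fun h => by rw [h] at hs; omega
  have hL1 : 1 ≤ L₁ := Nat.pos_of_ne_zero fun h => by rw [h] at hL; omega
  obtain ⟨I, hI⟩ : ∃ I, I = S.image fun j => j / l := ⟨_, rfl⟩
  have hI' : ∀ i ∈ I, c₁ ≤ i ∧ i < c₁ + L₁ := by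
    intro i hi
    rw [hI] at hi
    obtain ⟨j, hj, rfl⟩ := mem_image.1 hi
    have h := hS j hj
    refine ⟨?_, ?_⟩
    · rw [Nat.le_div_iff_mul_le hl, mul_comm]
      exact h.1
    · rw [Nat.div_lt_iff_lt_mul hl, add_mul, mul_comm c₁, mul_comm L₁]
      exact h.2
  have hm : ∀ j ∈ S, j / l ∈ I := fun j hj => hI ▸ mem_image_of_mem _ hj
  -- the number of rows of a box
  have hcard : ∀ i, ((S.filter fun j => j / l = i).card : ℝ) ≤ l := by
    intro i
    have h1 : (S.filter fun j => j / l = i) ⊆ Ico (i * l) (i * l + l) := by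
      intro j hj
      have h2 := (mem_filter.1 hj).2
      rw [mem_Ico, ← h2]
      have h3 := Nat.div_add_mod j l
      have h4 := Nat.mod_lt j hl
      rw [mul_comm]
      omega
    have h5 := card_le_card h1
    rw [Nat.card_Ico, Nat.add_sub_cancel_left] at h5
    exact_mod_cast h5
  have e1 : ∑ j ∈ S, ∑ k ∈ S, P j k =
      ∑ i ∈ I, ∑ i' ∈ I, ∑ j ∈ S.filter (fun j => j / l = i), ∑ k ∈ S.filter (fun k => k / l = i'), P j k := by
    calc ∑ j ∈ S, ∑ k ∈ S, P j k = ∑ i ∈ I, ∑ j ∈ S.filter (fun j => j / l = i), ∑ k ∈ S, P j k :=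
          (sum_fiberwise_of_maps_to hm _).symm
      _ = ∑ i ∈ I, ∑ j ∈ S.filter (fun j => j / l = i), ∑ i' ∈ I, ∑ k ∈ S.filter (fun k => k / l = i'), P j k :=
          sum_congr rfl fun i _ => sum_congr rfl fun j _ => (sum_fiberwise_of_maps_to hm _).symm
      _ = _ := sum_congr rfl fun i _ => sum_comm
  rw [e1]
  have hE' : ∀ n, 0 < (fun n : ℕ => E (n * l)) n := fun n => hE _
  have hpow' : ∀ t r : ℕ, 1 ≤ t → t ≤ r → (fun n : ℕ => E (n * l)) r ≤
      K * Real.sqrt ((r : ℝ) / t) * (fun n : ℕ => E (n * l)) t := by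
    intro t r ht htr
    have h1 := hpow (t * l) (r * l) (Nat.mul_pos ht hl) (Nat.mul_le_mul_right l htr)
    have e : (((r * l : ℕ) : ℝ) / ((t * l : ℕ) : ℝ)) = (r : ℝ) / t := by
      push_cast
      rw [mul_div_mul_right _ _ hl0.ne']
    rw [e] at h1
    exact h1
  have hl2 : (0 : ℝ) ≤ (l : ℝ) ^ 2 := by positivity
  have key := dsum_Phi hE' hK hpow' (A := l ^ 2 * A) (G := l ^ 2 * G) (H := l ^ 2 * H) (C := l ^ 2 * C) (by positivity)
    (by positivity) (by positivity) (by positivity) (l := 2) (s := 1) (s' := s₁) (L := L₁) le_rfl hs1 hL1 hI'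
    (P := fun i i' => ∑ j ∈ S.filter (fun j => j / l = i), ∑ k ∈ S.filter (fun k => k / l = i'), P j k) ?_
  · refine key.trans (le_of_eq ?_)
    show 2 * (L₁ : ℝ) * ((2 : ℕ) * (l ^ 2 * A) + 3 * K * (l ^ 2 * G) * (s₁ / E (s₁ * l)) + 3 * K * (l ^ 2 * H) * (L₁ / E (L₁ * l)) +
      L₁ * (l ^ 2 * C)) = _
    rw [mul_comm s₁ l, mul_comm L₁ l]
    push_cast
    ring
  · intro i _ i' _
    have hEm := hE (max (Nat.dist i i') 1 * l)
    unfold Phi
    show _ ≤ (if Nat.dist i i' < 2 then (l : ℝ) ^ 2 * A else 0) +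
      (if Nat.dist i i' < s₁ then (l : ℝ) ^ 2 * G / E (max (Nat.dist i i') 1 * l) else 0) +
      (l : ℝ) ^ 2 * H / E (max (Nat.dist i i') 1 * l) + (l : ℝ) ^ 2 * C
    by_cases hd : Nat.dist i i' < 2
    · rw [if_pos hd]
      have h1 : ∑ j ∈ S.filter (fun j => j / l = i), ∑ k ∈ S.filter (fun k => k / l = i'), P j k ≤ (l : ℝ) ^ 2 * A := by
        calc ∑ j ∈ S.filter (fun j => j / l = i), ∑ k ∈ S.filter (fun k => k / l = i'), P j k
            ≤ ∑ j ∈ S.filter (fun j => j / l = i), ∑ k ∈ S.filter (fun k => k / l = i'), A :=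
              sum_le_sum fun j hj => sum_le_sum fun k hk => hP j (mem_filter.1 hj).1 k (mem_filter.1 hk).1
          _ = (S.filter fun j => j / l = i).card * ((S.filter fun k => k / l = i').card * A) := by
              rw [sum_const, sum_const, nsmul_eq_mul, nsmul_eq_mul]
          _ ≤ l * (l * A) := by
              refine mul_le_mul (hcard i) (mul_le_mul_of_nonneg_right (hcard i') hA) (by positivity) hl0.le
          _ = _ := by ring
      have h2 : 0 ≤ (if Nat.dist i i' < s₁ then (l : ℝ) ^ 2 * G / E (max (Nat.dist i i') 1 * l) else 0) := by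
        split_ifs
        · positivity
        · exact le_rfl
      have h3 : 0 ≤ (l : ℝ) ^ 2 * H / E (max (Nat.dist i i') 1 * l) := by positivity
      have h4 : 0 ≤ (l : ℝ) ^ 2 * C := by positivity
      linarith
    · rw [if_neg hd, zero_add]
      have h1 : max (Nat.dist i i') 1 = Nat.dist i i' := by omega
      rw [h1]
      refine (hF i i' (not_lt.1 hd)).trans (le_of_eq ?_)
      have h2 : (Nat.dist i i' * l < l * s₁) ↔ Nat.dist i i' < s₁ := by
        rw [mul_comm l s₁]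
        exact Nat.mul_lt_mul_right hl
      by_cases h3 : Nat.dist i i' < s₁
      · rw [if_pos (h2.2 h3), if_pos h3]
        ring
      · rw [if_neg fun h => h3 (h2.1 h), if_neg h3]
        ring

end Box

section Int

variable {X : Type*} [Fintype X] [Nonempty X] {Ω : Type*} [MeasurableSpace Ω] {P : Measure Ω} [IsProbabilityMeasure P]

/-- Bounded and measurable. -/
theorem int_gm {w : Ω → X → ℝ} (hw : ∀ x, Measurable fun ω => w ω x) {f : Ω → X → ℝ} (hf : ∀ x, Measurable fun ω => f ω x) {D : ℝ}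
    (hD : ∀ ω x, |f ω x| ≤ D) : Integrable (fun ω => gm (w ω) (f ω)) P := by
  have hm : Measurable fun ω => gm (w ω) (f ω) := by
    unfold gm gz
    refine Measurable.div ?_ ?_
    · exact Finset.measurable_fun_sum _ fun x _ => (Real.measurable_exp.comp (hw x)).mul (hf x)
    · exact Finset.measurable_fun_sum _ fun x _ => Real.measurable_exp.comp (hw x)
  refine Integrable.of_bound hm.aestronglyMeasurable D (Filter.Eventually.of_forall fun ω => ?_)
  rw [Real.norm_eq_abs]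
  refine (abs_gm_le _ _).trans ?_
  refine (gm_mono _ (hD ω)).trans_eq (gm_const _ _)

variable {w : Ω → X → ℝ} {Y : ℕ → Ω → X → ℝ} {S : Finset ℕ} {D : ℝ}

/-- **The double sum.** -/
theorem int_sq_sum (hw : ∀ x, Measurable fun ω => w ω x) (hY : ∀ j ∈ S, ∀ x, Measurable fun ω => Y j ω x)
    (hD : ∀ j ∈ S, ∀ ω x, |Y j ω x| ≤ D) :
    ∫ ω, gm (w ω) (fun y => (∑ j ∈ S, Y j ω y) ^ 2) ∂P = ∑ j ∈ S, ∑ k ∈ S, ∫ ω, gm (w ω) (fun y => Y j ω y * Y k ω y) ∂P := by
  have hi : ∀ j ∈ S, ∀ k ∈ S, Integrable (fun ω => gm (w ω) fun y => Y j ω y * Y k ω y) P := by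
    intro j hj k hk
    refine int_gm hw (fun x => (hY j hj x).mul (hY k hk x)) (D := D * D) fun ω x => ?_
    rw [abs_mul]
    exact mul_le_mul (hD j hj ω x) (hD k hk ω x) (abs_nonneg _) ((abs_nonneg _).trans (hD j hj ω x))
  have e : ∀ ω, gm (w ω) (fun y => (∑ j ∈ S, Y j ω y) ^ 2) = ∑ j ∈ S, ∑ k ∈ S, gm (w ω) fun y => Y j ω y * Y k ω y :=
    fun ω => gm_sq_sum (w ω) S fun j => Y j ω
  simp_rw [e]
  rw [integral_finsetSum _ fun j hj => integrable_finsetSum _ fun k hk => hi j hj k hk]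
  exact sum_congr rfl fun j hj => integral_finsetSum _ fun k hk => hi j hj k hk

/-- Near pairs from the second moments. -/
theorem int_mul_le (hw : ∀ x, Measurable fun ω => w ω x) (hY : ∀ j ∈ S, ∀ x, Measurable fun ω => Y j ω x)
    (hD : ∀ j ∈ S, ∀ ω x, |Y j ω x| ≤ D) {A : ℝ} (hA : ∀ j ∈ S, ∫ ω, gm (w ω) (fun y => Y j ω y ^ 2) ∂P ≤ A) {j k : ℕ} (hj : j ∈ S)
    (hk : k ∈ S) : ∫ ω, gm (w ω) (fun y => Y j ω y * Y k ω y) ∂P ≤ A := by
  have hi : ∀ j ∈ S, Integrable (fun ω => gm (w ω) fun y => Y j ω y ^ 2) P := by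
    intro j hj
    refine int_gm hw (fun x => (hY j hj x).pow_const 2) (D := D ^ 2) fun ω x => ?_
    rw [abs_pow]
    exact pow_le_pow_left₀ (abs_nonneg _) (hD j hj ω x) 2
  have hi' : Integrable (fun ω => gm (w ω) fun y => Y j ω y * Y k ω y) P := by
    refine int_gm hw (fun x => (hY j hj x).mul (hY k hk x)) (D := D * D) fun ω x => ?_
    rw [abs_mul]
    exact mul_le_mul (hD j hj ω x) (hD k hk ω x) (abs_nonneg _) ((abs_nonneg _).trans (hD j hj ω x))
  have h1 : ∫ ω, gm (w ω) (fun y => Y j ω y * Y k ω y) ∂P ≤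
      ∫ ω, (gm (w ω) (fun y => Y j ω y ^ 2) + gm (w ω) fun y => Y k ω y ^ 2) / 2 ∂P :=
    integral_mono hi' (((hi j hj).add (hi k hk)).div_const 2) fun ω => gm_mul_le (w ω) (Y j ω) (Y k ω)
  rw [integral_div, integral_add (hi j hj) (hi k hk)] at h1
  linarith [hA j hj, hA k hk]

/-- **The second moment of the sum over the rows**: near pairs (`|j - k| < l`) by the second moments `A` of the rows, far pairs by
`G / E (max |j-k| s)` (one loop of scale at most `s'`), `H / E (max |j-k| s)` (one loop), `C` (different loops). -/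
theorem sum_rows (hw : ∀ x, Measurable fun ω => w ω x) (hY : ∀ j ∈ S, ∀ x, Measurable fun ω => Y j ω x)
    (hD : ∀ j ∈ S, ∀ ω x, |Y j ω x| ≤ D) {E : ℕ → ℝ} (hE : ∀ n, 0 < E n) {K : ℝ} (hK : 0 ≤ K)
    (hpow : ∀ t r : ℕ, 1 ≤ t → t ≤ r → E r ≤ K * Real.sqrt ((r : ℝ) / t) * E t) {A G H C : ℝ} (hG : 0 ≤ G) (hH : 0 ≤ H)
    (hC : 0 ≤ C) {l s s' L : ℕ} (hs : 1 ≤ s) (hss : s ≤ s') (hsL : s ≤ L) {c : ℕ} (hS : ∀ k ∈ S, c ≤ k ∧ k < c + L)
    (hA0 : 0 ≤ A) (hA : ∀ j ∈ S, ∫ ω, gm (w ω) (fun y => Y j ω y ^ 2) ∂P ≤ A)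
    (hF : ∀ j ∈ S, ∀ k ∈ S, l ≤ Nat.dist j k → ∫ ω, gm (w ω) (fun y => Y j ω y * Y k ω y) ∂P ≤
      (if Nat.dist j k < s' then G / E (max (Nat.dist j k) s) else 0) + H / E (max (Nat.dist j k) s) + C) :
    ∫ ω, gm (w ω) (fun y => (∑ j ∈ S, Y j ω y) ^ 2) ∂P ≤
      2 * L * (l * A + 3 * K * G * (s' / E s') + 3 * K * H * (L / E L) + L * C) := by
  rw [int_sq_sum hw hY hD]
  refine dsum_Phi hE hK hpow hA0 hG hH hC hs hss hsL hS fun j hj k hk => ?_
  have hEm := hE (max (Nat.dist j k) s)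
  unfold Phi
  by_cases hd : Nat.dist j k < l
  · rw [if_pos hd]
    have h1 := int_mul_le hw hY hD hA hj hk
    have h2 : 0 ≤ (if Nat.dist j k < s' then G / E (max (Nat.dist j k) s) else 0) := by
      split_ifs
      · positivity
      · exact le_rfl
    have h3 : 0 ≤ H / E (max (Nat.dist j k) s) := by positivity
    linarith
  · rw [if_neg hd, zero_add]
    exact hF j hj k hk (not_lt.1 hd)

/-- **The second moment of the sum over the rows, by boxes of length `l`**: pairs in one box or in neighbouring boxes by the second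
moments `A` of the rows, pairs of far boxes in the mean over the two boxes. -/
theorem sum_boxes (hw : ∀ x, Measurable fun ω => w ω x) (hY : ∀ j ∈ S, ∀ x, Measurable fun ω => Y j ω x)
    (hD : ∀ j ∈ S, ∀ ω x, |Y j ω x| ≤ D) {E : ℕ → ℝ} (hE : ∀ n, 0 < E n) {K : ℝ} (hK : 0 ≤ K)
    (hpow : ∀ t r : ℕ, 1 ≤ t → t ≤ r → E r ≤ K * Real.sqrt ((r : ℝ) / t) * E t) {A G H C : ℝ} (hG : 0 ≤ G) (hH : 0 ≤ H)
    (hC : 0 ≤ C) {l s' L c : ℕ} (hl : 1 ≤ l) (hls : l ∣ s') (hs : 1 ≤ s') (hlL : l ∣ L) (hL : 1 ≤ L) (hlc : l ∣ c)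
    (hS : ∀ k ∈ S, c ≤ k ∧ k < c + L) (hA0 : 0 ≤ A) (hA : ∀ j ∈ S, ∫ ω, gm (w ω) (fun y => Y j ω y ^ 2) ∂P ≤ A)
    (hF : ∀ i i' : ℕ, 2 ≤ Nat.dist i i' → ∑ j ∈ S.filter (fun j => j / l = i), ∑ k ∈ S.filter (fun k => k / l = i'),
      ∫ ω, gm (w ω) (fun y => Y j ω y * Y k ω y) ∂P ≤
      l ^ 2 * ((if Nat.dist i i' * l < s' then G / E (Nat.dist i i' * l) else 0) + H / E (Nat.dist i i' * l) + C)) :
    ∫ ω, gm (w ω) (fun y => (∑ j ∈ S, Y j ω y) ^ 2) ∂P ≤
      2 * L * (2 * l * A + 3 * K * G * (s' / E s') + 3 * K * H * (L / E L) + L * C) := by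
  rw [int_sq_sum hw hY hD]
  exact dsum_boxes hE hK hpow hA0 hG hH hC hl hls hs hlL hL hlc hS (fun j hj k hk => int_mul_le hw hY hD hA hj hk) hF

end Int

end Pool.Agent.W_7d29a1_C0.NN23
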