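import Pool.Agent.W_7d29a1_C0.Mod38C
import Pool.Agent.W_7d29a1_C0.NN23

/-!
CURV0 (MP_7d29a1_pr), leaf E5.8 / N1B, helper14: THE RIGHT SIDE OF THE ROW INEQUALITY OF helper38 AS A SUM OF LINES, abstract part.
`side14`: from pathwise bounds of the own pair, of the ties, of the remainders, of the outer functional and of the far parts by ten lines
`F0`, `F i` to the bound of `rhs38` by their means against the passenger.
-/

set_option autoImplicit false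
set_option linter.unusedSectionVars false
set_option linter.unusedVariables false

namespace Pool.W7d29a1.C0.N14

open Finset Filter Topology MeasureTheory
open Pool.Agent.W_7d29a1_F Pool.Agent.W_7d29a1_C0 Pool.W7d29a1.C0 Pool.W7d29a1.C0.VT31
open Pool.Agent.W_7d29a1_C0.Mod92 (meas_cE meas_gm abs_cE_le)
open Pool.Agent.W_7d29a1_C0.Swap57 Pool.Agent.W_7d29a1_C0.H32
open Pool.W7d29a1.C0.L38

noncomputable section

variable {μ : Measure ℝ} [IsProbabilityMeasure μ] {X : Type*} [Fintype X] [DecidableEq X] [Nonempty X] {Y : Type*} [DecidableEq Y]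

/-- The mean of a line against the passenger. -/
def IY (μ : Measure ℝ) (w : Env → X → ℝ) (Yf F : Env → X → ℝ) : ℝ := ∫ η, gm (w η) (fun x => |Yf η x| * F η x) ∂(law μ)

section Abs

variable {w wi : Env → X → ℝ} {p : X → Y} {χ : X → X → ℝ} {Yf g C1 C2 tie : Env → X → ℝ} {tub1 tub2 : X → X → ℝ} {L : ℝ}

theorem IY_nonneg {F : Env → X → ℝ} (h : ∀ η x, 0 ≤ F η x) : 0 ≤ IY μ w Yf F :=
  integral_nonneg fun η => gm_nonneg _ fun x => mul_nonneg (abs_nonneg _) (h η x)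

theorem IY_add (mw : ∀ x, Measurable fun η => w η x) (hY : MF Yf L) {F G : Env → X → ℝ} {D D' : ℝ} (hF : MF F D) (hG : MF G D') :
    IY μ w Yf (fun η x => F η x + G η x) = IY μ w Yf F + IY μ w Yf G := by
  unfold IY
  rw [← integral_add (mfY mw hY hF) (mfY mw hY hG)]
  congr 1
  funext η
  rw [← gm_add]
  congr 1
  funext x
  rw [Pi.add_apply]
  ring

theorem IY_smul (c : ℝ) (F : Env → X → ℝ) : IY μ w Yf (fun η x => c * F η x) = c * IY μ w Yf F := by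
  unfold IY
  rw [← integral_const_mul]
  congr 1
  funext η
  have h := gm_smul (w η) c (fun x => |Yf η x| * F η x)
  rw [← h]
  congr 1
  funext x
  rw [Pi.smul_apply, smul_eq_mul]
  ring

theorem IY_sum (mw : ∀ x, Measurable fun η => w η x) (hY : MF Yf L) {ι : Type*} (T : Finset ι) {F : ι → Env → X → ℝ} {D : ℝ}
    (hF : ∀ i ∈ T, MF (F i) D) : IY μ w Yf (fun η x => ∑ i ∈ T, F i η x) = ∑ i ∈ T, IY μ w Yf (F i) := by
  unfold IY
  rw [← integral_finsetSum T fun i hi => mfY mw hY (hF i hi)]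
  congr 1
  funext η
  have h : (fun x => |Yf η x| * ∑ i ∈ T, F i η x) = fun x => ∑ i ∈ T, |Yf η x| * F i η x := by
    funext x
    rw [mul_sum]
  rw [h]
  exact NN23.gm_sum (w η) T fun i x => |Yf η x| * F i η x

/-- A pathwise bound with an error, under the integral. -/
theorem IY_le (mw : ∀ x, Measurable fun η => w η x) (hY : MF Yf L) {F G : Env → X → ℝ} {D e : ℝ} (hG : MF G D) (he : 0 ≤ e)
    (hF0 : ∀ η x, 0 ≤ F η x) (h : ∀ η x, F η x ≤ G η x + e) : IY μ w Yf F ≤ IY μ w Yf G + L * e := by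
  unfold IY
  have h1 : ∀ η, gm (w η) (fun x => |Yf η x| * F η x) ≤ gm (w η) (fun x => |Yf η x| * G η x) + L * e := fun η => by
    have e1 := gm_add (w η) (fun x => |Yf η x| * G η x) fun _ => L * e
    rw [gm_const] at e1
    rw [← e1]
    refine gm_mono (w η) fun x => ?_
    rw [Pi.add_apply]
    calc |Yf η x| * F η x ≤ |Yf η x| * (G η x + e) := mul_le_mul_of_nonneg_left (h η x) (abs_nonneg _)
      _ = |Yf η x| * G η x + |Yf η x| * e := by ring
      _ ≤ _ := add_le_add le_rfl (mul_le_mul_of_nonneg_right (hY.bd η x) he)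
  have h2 := integral_mono_of_nonneg (μ := law μ) (ae_of_all _ fun η => gm_nonneg (w η) fun x => mul_nonneg (abs_nonneg (Yf η x)) (hF0 η x))
    ((mfY mw hY hG).add (integrable_const (L * e))) (ae_of_all _ h1)
  refine h2.trans (le_of_eq ?_)
  simp only [Pi.add_apply]
  rw [integral_add (mfY mw hY hG) (integrable_const _), integral_const, probReal_univ, one_smul]

/-- **THE LINES OF ONE SIDE.** `F0` = the own pair, `F 0`, `F 1` = own pair and a free replica beside the slabs, `F 2` = own tie and tie of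
the response, `F 3`, `F 4` = own tie and oscillation, `F 5`, ..., `F 8` = own tie and long tie. -/
theorem side14 (mw : ∀ x, Measurable fun η => w η x) (mi : ∀ x, Measurable fun η => wi η x) (hY : MF Yf L)
    (h0 : ∀ b c, 0 ≤ χ b c) (h1 : ∀ b c, χ b c ≤ 1) (ht0 : ∀ η x, 0 ≤ tie η x)
    (k10 : ∀ a x, 0 ≤ tub1 a x) (k20 : ∀ a x, 0 ≤ tub2 a x)
    {F0 : Env → X → ℝ} {F : Fin 9 → Env → X → ℝ} (hF0 : MF F0 1) (hF : ∀ i, MF (F i) 1) (hFp : ∀ i η x, 0 ≤ F i η x)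
    (hF0p : ∀ η x, 0 ≤ F0 η x)
    {bd1 bd2 : X → ℝ} (hb1 : ∀ x, 0 ≤ bd1 x) (hb1' : ∀ x, bd1 x ≤ 1) (hb2 : ∀ x, 0 ≤ bd2 x) (hb2' : ∀ x, bd2 x ≤ 1)
    {e0 tn tn2 B G E2 : ℝ} (he0 : 0 ≤ e0) (htn : 0 ≤ tn) (htn2 : 0 ≤ tn2) (hB : 1 ≤ B) (hG0 : 0 ≤ G) (hG1 : G ≤ 1) (hE2 : 0 ≤ E2)
    (a1 : ∀ η x, hb (wi η) p χ x ≤ F0 η x + e0)
    (a2 : ∀ η x, dt (wi η) p χ (tie η) x ≤ 2 * F 2 η x + 4 * e0)
    (a3 : ∀ η x, dt (wi η) p χ (fun x => |g η x - C1 η x|) x ≤ B * (F 3 η x + F 5 η x) + tn)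
    (a3' : ∀ η x, dt (wi η) p χ (fun x => |g η x - C2 η x|) x ≤ B * (F 3 η x + F 6 η x) + tn)
    (a4 : ∀ η x, hb (wi η) p χ x * cE (wi η) p (fun x => |g η x - C1 η x|) x ≤ B * (F 4 η x + F 7 η x) + tn2)
    (a4' : ∀ η x, hb (wi η) p χ x * cE (wi η) p (fun x => |g η x - C2 η x|) x ≤ B * (F 4 η x + F 8 η x) + tn2)
    (a5 : ∀ η, ou (w η) (wi η) p χ (Yf η) (C1 η) ≤ B * (gm (w η) (fun a => |Yf η a| * (F 0 η a + F 1 η a)) + L * (4 * e0)))
    (a5' : ∀ η, ou (w η) (wi η) p χ (Yf η) (C2 η) ≤ B * (gm (w η) (fun a => |Yf η a| * (F 0 η a + F 1 η a)) + L * (4 * e0)))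
    (a6 : ∀ η, fr (w η) (wi η) p χ (Yf η) tub1 ≤ gm (w η) (fun a => |Yf η a| * (3 * (F 0 η a + F 1 η a))) + L * (6 * e0) +
      L * (15 * E2 * gm (w η) bd1))
    (a6' : ∀ η, fr (w η) (wi η) p χ (Yf η) tub2 ≤ gm (w η) (fun a => |Yf η a| * (3 * (F 0 η a + F 1 η a))) + L * (6 * e0) +
      L * (15 * E2 * gm (w η) bd2)) :
    rhs38 μ w wi p χ Yf g C1 C2 tie tie tub1 tub2 B G G ≤ G ^ 2 * B ^ 2 * IY μ w Yf F0 + 32 * B ^ 4 * ∑ i, IY μ w Yf (F i) +
      32 * B ^ 4 * (L * (7 * e0 + tn + tn2 + 15 * E2 * (∫ η, gm (w η) bd1 ∂(law μ) + ∫ η, gm (w η) bd2 ∂(law μ)))) := by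
  have hL : 0 ≤ L := hY.nn
  have hB0 : 0 < B := by linarith
  obtain ⟨I, hI⟩ : ∃ I : Fin 9 → ℝ, I = fun i => IY μ w Yf (F i) := ⟨_, rfl⟩
  have hIi : ∀ i, IY μ w Yf (F i) = I i := fun i => by rw [hI]
  have hI0 : ∀ i, 0 ≤ I i := fun i => by
    rw [hI]
    exact IY_nonneg (hFp i)
  obtain ⟨I0, hI00⟩ : ∃ I0, I0 = IY μ w Yf F0 := ⟨_, rfl⟩
  have hI00' : 0 ≤ I0 := by
    rw [hI00]
    exact IY_nonneg hF0p
  obtain ⟨b1, hbb1⟩ : ∃ b1, b1 = ∫ η, gm (w η) bd1 ∂(law μ) := ⟨_, rfl⟩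
  obtain ⟨b2, hbb2⟩ : ∃ b2, b2 = ∫ η, gm (w η) bd2 ∂(law μ) := ⟨_, rfl⟩
  have hb10 : 0 ≤ b1 := by
    rw [hbb1]
    exact integral_nonneg fun η => gm_nonneg _ hb1
  have hb20 : 0 ≤ b2 := by
    rw [hbb2]
    exact integral_nonneg fun η => gm_nonneg _ hb2
  obtain ⟨Sg, hSg⟩ : ∃ Sg, Sg = ∑ i, I i := ⟨_, rfl⟩
  have hS9 : Sg = I 0 + I 1 + I 2 + I 3 + I 4 + I 5 + I 6 + I 7 + I 8 := by
    rw [hSg]
    simp only [Fin.sum_univ_succ, Fin.sum_univ_zero]
    simp [Fin.succ]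
    ring
  -- the single integrals
  have r1 := (hY.abs).nn
  have mab : ∀ {F G : Env → X → ℝ} {D D' : ℝ}, MF F D → MF G D' → MF (fun η x => F η x + G η x) (D + D') := fun h h' => h.add h'
  have c1 : iM μ w wi p χ Yf ≤ I0 + L * e0 := by
    rw [hI00]
    exact IY_le (μ := μ) mw hY (F := fun η x => hb (wi η) p χ x) hF0 he0 (fun η x => cE2_nonneg _ _ h0 x x) a1
  have c2 : iD μ w wi p χ Yf tie ≤ 2 * I 2 + L * (4 * e0) := by
    have e := IY_le (μ := μ) mw hY (F := fun η x => dt (wi η) p χ (tie η) x) (G := fun η x => 2 * F 2 η x) ((hF 2).smul (by norm_num)) (by positivity)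
      (fun η x => cE2_nonneg _ _ (fun b c => mul_nonneg (ht0 η b) (h0 b c)) x x) a2
    rw [IY_smul, hIi] at e
    exact e
  have rem : ∀ {C : Env → X → ℝ} {i k : Fin 9}, (∀ η x, dt (wi η) p χ (fun x => |g η x - C η x|) x ≤ B * (F i η x + F k η x) + tn) →
      iD μ w wi p χ Yf (fun η x => |g η x - C η x|) ≤ B * (I i + I k) + L * tn := fun {C i k} h => by
    have e := IY_le (μ := μ) mw hY (F := fun η x => dt (wi η) p χ (fun x => |g η x - C η x|) x) (G := fun η x => B * (F i η x + F k η x))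
      (((hF i).add (hF k)).smul hB0.le) htn (fun η x => cE2_nonneg _ _ (fun b c => mul_nonneg (abs_nonneg _) (h0 b c)) x x) h
    rw [IY_smul, IY_add (μ := μ) mw hY (hF i) (hF k), hIi, hIi] at e
    exact e
  have rem2 : ∀ {C : Env → X → ℝ} {i k : Fin 9}, (∀ η x, hb (wi η) p χ x * cE (wi η) p (fun x => |g η x - C η x|) x ≤
      B * (F i η x + F k η x) + tn2) → iS μ w wi p χ Yf (fun η x => |g η x - C η x|) ≤ B * (I i + I k) + L * tn2 := fun {C i k} h => by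
    have e := IY_le (μ := μ) mw hY (F := fun η x => hb (wi η) p χ x * cE (wi η) p (fun x => |g η x - C η x|) x)
      (G := fun η x => B * (F i η x + F k η x))
      (((hF i).add (hF k)).smul hB0.le) htn2 (fun η x => mul_nonneg (cE2_nonneg _ _ h0 x x) (cE_nonneg _ _ (fun _ => abs_nonneg _) x)) h
    rw [IY_smul, IY_add (μ := μ) mw hY (hF i) (hF k), hIi, hIi] at e
    exact e
  have c3 := rem a3
  have c3' := rem a3'
  have c4 := rem2 a4
  have c4' := rem2 a4'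
  have hI01 := mfY (μ := μ) mw hY (mab (hF 0) (hF 1))
  have e01 : ∫ η, gm (w η) (fun a => |Yf η a| * (F 0 η a + F 1 η a)) ∂(law μ) = I 0 + I 1 := by
    have e := IY_add (μ := μ) mw hY (hF 0) (hF 1)
    rw [hIi, hIi] at e
    exact e
  have out : ∀ {C : Env → X → ℝ}, (∀ η, ou (w η) (wi η) p χ (Yf η) (C η) ≤
      B * (gm (w η) (fun a => |Yf η a| * (F 0 η a + F 1 η a)) + L * (4 * e0))) → iO μ w wi p χ Yf C ≤ B * (I 0 + I 1 + L * (4 * e0)) :=
    fun {C} h => by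
      have e := integral_mono_of_nonneg (μ := law μ) (f := fun η => ou (w η) (wi η) p χ (Yf η) (C η))
        (ae_of_all _ fun η => gm_nonneg (w η) fun a => gm_nonneg (w η) fun a' =>
          mul_nonneg (mul_nonneg (abs_nonneg _) (cE2_nonneg _ _ h0 a a)) (abs_nonneg _))
        ((hI01.add (integrable_const (L * (4 * e0)))).const_mul B) (ae_of_all _ h)
      refine e.trans (le_of_eq ?_)
      rw [integral_const_mul]
      simp only [Pi.add_apply]
      rw [integral_add hI01 (integrable_const _), integral_const, probReal_univ, one_smul, e01]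
  have c5 := out a5
  have c5' := out a5'
  have hI013 := mfY (μ := μ) mw hY ((mab (hF 0) (hF 1)).smul (show (0 : ℝ) ≤ 3 by norm_num))
  have e013 : ∫ η, gm (w η) (fun a => |Yf η a| * (3 * (F 0 η a + F 1 η a))) ∂(law μ) = 3 * (I 0 + I 1) := by
    have e := IY_smul (μ := μ) (w := w) (Yf := Yf) 3 (fun η a => F 0 η a + F 1 η a)
    unfold IY at e
    rw [e, e01]
  have far : ∀ {tub : X → X → ℝ} {bd : X → ℝ}, (∀ a x, 0 ≤ tub a x) → (∀ x, 0 ≤ bd x) → (∀ x, bd x ≤ 1) →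
      (∀ η, fr (w η) (wi η) p χ (Yf η) tub ≤
      gm (w η) (fun a => |Yf η a| * (3 * (F 0 η a + F 1 η a))) + L * (6 * e0) + L * (15 * E2 * gm (w η) bd)) →
      iF μ w wi p χ Yf tub ≤ 3 * (I 0 + I 1) + L * (6 * e0) + L * (15 * E2 * ∫ η, gm (w η) bd ∂(law μ)) :=
    fun {tub bd} hk hbd hbd' h => by
      have mbd : Integrable (fun η => gm (w η) bd) (law μ) := (MF.det (F := bd) (D := 1) fun x => by
        rw [abs_of_nonneg (hbd x)]
        exact hbd' x).int mw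
      have e := integral_mono_of_nonneg (μ := law μ) (f := fun η => fr (w η) (wi η) p χ (Yf η) tub)
        (ae_of_all _ fun η => gm_nonneg (w η) fun a => mul_nonneg (abs_nonneg _) (add_nonneg (mul_nonneg (cE2_nonneg _ _ h0 a a)
          (add_nonneg (hk a a) (mul_nonneg (by norm_num) (gm_nonneg _ (hk a))))) (mul_nonneg (by norm_num) (cE_nonneg _ _ (hk a) a))))
        ((hI013.add (integrable_const (L * (6 * e0)))).add ((mbd.const_mul (15 * E2)).const_mul L)) (ae_of_all _ h)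
      refine e.trans (le_of_eq ?_)
      have f1 := integral_add (hI013.add (integrable_const (L * (6 * e0)))) ((mbd.const_mul (15 * E2)).const_mul L)
      have f2 := integral_add hI013 (integrable_const (μ := law μ) (L * (6 * e0)))
      rw [integral_const, probReal_univ, one_smul, e013] at f2
      rw [integral_const_mul, integral_const_mul] at f1
      refine f1.trans ?_
      rw [← f2]
      rfl
  have c6 := far k10 hb1 hb1' a6
  have c6' := far k20 hb2 hb2' a6'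
  rw [← hbb1] at c6
  rw [← hbb2] at c6'
  rw [← hbb1, ← hbb2]
  -- one bound
  obtain ⟨Z, hZ⟩ : ∃ Z, Z = Sg + L * (6 * e0 + tn + tn2 + 15 * E2 * (b1 + b2)) := ⟨_, rfl⟩
  have l1 : 0 ≤ L * e0 := mul_nonneg hL he0
  have l2 : 0 ≤ L * tn := mul_nonneg hL htn
  have l3 : 0 ≤ L * tn2 := mul_nonneg hL htn2
  have l4 : 0 ≤ L * (15 * E2 * b1) := by positivity
  have l5 : 0 ≤ L * (15 * E2 * b2) := by positivity
  have hZ' : Z = Sg + 6 * (L * e0) + L * tn + L * tn2 + L * (15 * E2 * b1) + L * (15 * E2 * b2) := by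
    rw [hZ]
    ring
  have hSg0 : 0 ≤ Sg := by
    rw [hSg]
    exact sum_nonneg fun i _ => hI0 i
  have hZ0 : 0 ≤ Z := by rw [hZ']; linarith
  have p0 := hI0 0
  have p1 := hI0 1
  have p2 := hI0 2
  have p3 := hI0 3
  have p4 := hI0 4
  have p5 := hI0 5
  have p6 := hI0 6
  have p7 := hI0 7
  have p8 := hI0 8
  have d2 : iD μ w wi p χ Yf tie ≤ 2 * Z := by linarith
  have up : ∀ {x y c : ℝ}, 0 ≤ c → x ≤ B * y + c → y + c ≤ Z → x ≤ B * Z := fun {x y c} hc h1 h2 => by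
    have e1 : c ≤ B * c := le_mul_of_one_le_left hc hB
    calc x ≤ B * y + B * c := by linarith
      _ = B * (y + c) := by ring
      _ ≤ B * Z := mul_le_mul_of_nonneg_left h2 hB0.le
  have d3 : iD μ w wi p χ Yf (fun η x => |g η x - C1 η x|) ≤ B * Z := up l2 c3 (by linarith)
  have d3' : iD μ w wi p χ Yf (fun η x => |g η x - C2 η x|) ≤ B * Z := up l2 c3' (by linarith)
  have d4 : iS μ w wi p χ Yf (fun η x => |g η x - C1 η x|) ≤ B * Z := up l3 c4 (by linarith)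
  have d4' : iS μ w wi p χ Yf (fun η x => |g η x - C2 η x|) ≤ B * Z := up l3 c4' (by linarith)
  have d5 : iO μ w wi p χ Yf C1 ≤ B * Z := c5.trans (mul_le_mul_of_nonneg_left (by linarith) hB0.le)
  have d5' : iO μ w wi p χ Yf C2 ≤ B * Z := c5'.trans (mul_le_mul_of_nonneg_left (by linarith) hB0.le)
  have d6 : iF μ w wi p χ Yf tub1 ≤ 3 * Z := by linarith
  have d6' : iF μ w wi p χ Yf tub2 ≤ 3 * Z := by linarith
  have B34 : B ^ 3 * Z ≤ B ^ 4 * Z := mul_le_mul_of_nonneg_right (pow_le_pow_right₀ hB (by norm_num)) hZ0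
  have B24 : B ^ 2 ≤ B ^ 4 := pow_le_pow_right₀ hB (by norm_num)
  have B2 : 0 ≤ B ^ 2 := by positivity
  have B3 : 0 ≤ B ^ 3 := by positivity
  have B4 : 0 ≤ B ^ 4 := by positivity
  have G2 : G * G ≤ 1 := mul_le_one₀ hG1 hG0 hG1
  have t1 : G * G * (B ^ 2 / 2 * iM μ w wi p χ Yf) ≤ G ^ 2 * B ^ 2 * I0 + B ^ 4 * (L * e0) := by
    have e1 : G * G * (B ^ 2 / 2 * iM μ w wi p χ Yf) ≤ G * G * (B ^ 2 / 2 * (I0 + L * e0)) := by gcongr
    have e2 : G * G * (B ^ 2 * (L * e0)) ≤ 1 * (B ^ 4 * (L * e0)) :=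
      mul_le_mul G2 (mul_le_mul_of_nonneg_right B24 l1) (by positivity) (by norm_num)
    have e3 : 0 ≤ G * G * (B ^ 2 * (L * e0)) := by positivity
    have e4 : 0 ≤ G * G * (B ^ 2 * I0) := by positivity
    calc _ ≤ _ := e1
      _ = G * G * (B ^ 2 * I0) / 2 + G * G * (B ^ 2 * (L * e0)) / 2 := by ring
      _ ≤ G * G * (B ^ 2 * I0) + 1 * (B ^ 4 * (L * e0)) := by linarith
      _ = _ := by ring
  have t2 : B ^ 3 / 4 * iD μ w wi p χ Yf tie + (B ^ 2 * (iD μ w wi p χ Yf (fun η x => |g η x - C2 η x|) +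
      iS μ w wi p χ Yf fun η x => |g η x - C2 η x|) + B ^ 2 / 2 * iO μ w wi p χ Yf C2) + B ^ 3 / 4 * iF μ w wi p χ Yf tub2 ≤
      15 / 4 * (B ^ 3 * Z) := by
    calc _ ≤ B ^ 3 / 4 * (2 * Z) + (B ^ 2 * (B * Z + B * Z) + B ^ 2 / 2 * (B * Z)) + B ^ 3 / 4 * (3 * Z) := by gcongr
      _ = _ := by ring
  have t2' : G * (B ^ 3 / 4 * iD μ w wi p χ Yf tie + (B ^ 2 * (iD μ w wi p χ Yf (fun η x => |g η x - C2 η x|) +
      iS μ w wi p χ Yf fun η x => |g η x - C2 η x|) + B ^ 2 / 2 * iO μ w wi p χ Yf C2) + B ^ 3 / 4 * iF μ w wi p χ Yf tub2) ≤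
      15 / 4 * (B ^ 4 * Z) := by
    have e1 := mul_le_mul_of_nonneg_left t2 hG0
    have e2 : 0 ≤ 15 / 4 * (B ^ 3 * Z) := by positivity
    have e3 : G * (15 / 4 * (B ^ 3 * Z)) ≤ 15 / 4 * (B ^ 3 * Z) := mul_le_of_le_one_left e2 hG1
    linarith
  have t3 : 3 / 4 * B ^ 4 * iD μ w wi p χ Yf tie + (3 * B ^ 3 * (iD μ w wi p χ Yf (fun η x => |g η x - C1 η x|) +
      3 * iS μ w wi p χ Yf fun η x => |g η x - C1 η x|) + B ^ 3 * iO μ w wi p χ Yf C1) + 3 / 4 * B ^ 4 * iF μ w wi p χ Yf tub1 ≤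
      67 / 4 * (B ^ 4 * Z) := by
    calc _ ≤ 3 / 4 * B ^ 4 * (2 * Z) + (3 * B ^ 3 * (B * Z + 3 * (B * Z)) + B ^ 3 * (B * Z)) + 3 / 4 * B ^ 4 * (3 * Z) := by gcongr
      _ = _ := by ring
  have t4 : 0 ≤ B ^ 4 * (L * e0) := by positivity
  have t5 : 0 ≤ B ^ 4 * Z := mul_nonneg B4 hZ0
  unfold rhs38
  simp only [hIi]
  rw [← hI00, ← hSg]
  calc _ ≤ (G ^ 2 * B ^ 2 * I0 + B ^ 4 * (L * e0)) + 15 / 4 * (B ^ 4 * Z) + 67 / 4 * (B ^ 4 * Z) := add_le_add (add_le_add t1 t2') t3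
    _ ≤ G ^ 2 * B ^ 2 * I0 + 32 * (B ^ 4 * Z) + 32 * (B ^ 4 * (L * e0)) := by linarith
    _ = _ := by
        rw [hZ]
        ring

end Abs

end

end Pool.W7d29a1.C0.N14
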