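import Pool.Agent.W_7d29a1_C0.N1A14
import Pool.Agent.W_7d29a1_C0.DgR14
import Pool.Agent.W_7d29a1_C0.NN1C

/-!
CURV0 (MP_7d29a1_pr), leaf E5.8 / N1B, helper14: THE LINES OF ONE SIDE IN THE MODEL, pathwise. `osl`, `otl`, `lsl`, `ltl`, `msl`: own tie
(mass or pair) times oscillation, long tie or tie of the response, at the tilt; `F14`: the nine lines; `inj14`, `sh14`: the remainders of
helper1 in this form (long ties only with the short own piece `[o0, o1]`).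
-/

set_option autoImplicit false
set_option linter.unusedSectionVars false
set_option linter.unusedVariables false

namespace Pool.W7d29a1.C0.N14

open Finset Filter Topology MeasureTheory
open Pool.Agent.W_7d29a1_F Pool.Agent.W_7d29a1_C0 Pool.W7d29a1.C0 Pool.W7d29a1.C0.VT31
open Pool.Agent.W_7d29a1_C0.Swap57 Pool.Agent.W_7d29a1_C0.Mod92 Pool.Agent.W_7d29a1_C0.H32
open Pool.W7d29a1.C0.R43 (Tau mI mI_nonneg)
open Pool.W7d29a1.C0.S1 (i1 i1_nonneg i1_of i1_not cE_const osc)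
open Pool.W7d29a1.C0.L38 Pool.W7d29a1.C0.PM14 Pool.W7d29a1.C0.NN1

noncomputable section

section Path

variable {Q : Finset (Finset ℕ)} [SwQ Q] [Nonempty (Px Q)]

/-! ### Monotonicity -/

theorem i1_mono14 {A B : Prop} (h : A → B) : i1 A ≤ i1 B := by
  by_cases hA : A
  · rw [i1_of hA, i1_of (h hA)]
  · rw [i1_not hA]
    exact i1_nonneg _

theorem mI_anti14 (w : Px Q → ℝ) (p : Px Q → Finset ℕ × ℕ) {i i' k k' : ℕ} (hi : i ≤ i') (hk : k' ≤ k) (y : Px Q) :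
    mI w p i k y ≤ mI w p i' k' y := cE_mono w p (fun z => NI_anti14 hi hk y z) y

theorem Tau_anti14 {w : Px Q → ℝ} {p : Px Q → Finset ℕ × ℕ} {i i' k k' : ℕ} (hi : i ≤ i') (hk : k' ≤ k) {M : ℝ} {y : Px Q}
    (h : Tau w p i k M y) : Tau w p i' k' M y :=
  h.trans (cE2_mono w p (fun a b => NI_anti14 hi hk a b) y y)

theorem Tau_fib {w : Px Q → ℝ} {p : Px Q → Finset ℕ × ℕ} {U V : ℕ} {M : ℝ} {x y : Px Q} (h : p y = p x) :
    Tau w p U V M y ↔ Tau w p U V M x := by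
  unfold Tau cE2
  rw [cE_meas w p (fun z => cE w p (NI U V z) y) y x h]
  have e : (fun z => cE w p (NI U V z) y) = fun z => cE w p (NI U V z) x := funext fun z => cE_meas w p (NI U V z) y x h
  rw [e]

/-- `Tau` is constant on the fibres. -/
theorem tau_cE (w wi : Px Q → ℝ) (p : Px Q → Finset ℕ × ℕ) (U V : ℕ) (M : ℝ) (F : Px Q → ℝ) (x : Px Q) :
    i1 (Tau w p U V M x) * cE wi p F x = cE wi p (fun y => i1 (Tau w p U V M y) * F y) x := by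
  have e1 : cE wi p (fun y => i1 (Tau w p U V M x) * F y) x = i1 (Tau w p U V M x) * cE wi p F x :=
    congrFun (cE_smul wi p (i1 (Tau w p U V M x)) F) x
  rw [← e1]
  refine le_antisymm ?_ ?_
  · refine DGam14.cE_mono_on wi p x fun y hy => ?_
    rw [show i1 (Tau w p U V M y) = i1 (Tau w p U V M x) by rw [show Tau w p U V M y = Tau w p U V M x from propext (Tau_fib hy)]]
  · refine DGam14.cE_mono_on wi p x fun y hy => ?_
    rw [show i1 (Tau w p U V M y) = i1 (Tau w p U V M x) by rw [show Tau w p U V M y = Tau w p U V M x from propext (Tau_fib hy)]]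

/-! ### The lines -/

/-- Own tie (mass) times a factor. -/
def oml (w wi : Px Q → ℝ) (p : Px Q → Finset ℕ × ℕ) (o0 o1 : ℕ) (M : ℝ) (F : Px Q → ℝ) (x : Px Q) : ℝ :=
  cE wi p (fun y => i1 (Real.exp (-(5 * M)) ≤ mI w p o0 o1 y) * F y) x

/-- Own tie (pair) times a factor. -/
def otl (w wi : Px Q → ℝ) (p : Px Q → Finset ℕ × ℕ) (o0 o1 : ℕ) (M : ℝ) (F : Px Q → ℝ) (x : Px Q) : ℝ :=
  cE wi p (fun y => i1 (Tau w p o0 o1 M y) * F y) x

/-- Oscillation of `g` in the window. -/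
def mos (w : Px Q → ℝ) (q : Px Q → Finset ℕ × ℕ) (g : Px Q → ℝ) (M : ℝ) (y : Px Q) : ℝ := i1 (Real.exp (-(5 * M)) ≤ osc w q g y)

/-- Tie given another block. -/
def mlo (w : Px Q → ℝ) (r : Px Q → Finset ℕ × ℕ) (lu lv : ℕ) (M : ℝ) (y : Px Q) : ℝ := i1 (Real.exp (-(5 * M)) ≤ mI w r lu lv y)

/-- The nine lines. -/
def F14 (w wi : Px Q → ℝ) (p q : Px Q → Finset ℕ × ℕ) (g : Px Q → ℝ) (M : ℝ) (U V o0 o1 mu mv c1 d1 c2 d2 lu lv : ℕ) (J1 J2 : Finset ℕ)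
    (pm : ℕ → Px Q → Finset ℕ × ℕ) (i : Fin 9) (x : Px Q) : ℝ :=
  match i with
  | 0 => dT w p U V c1 d1 M x
  | 1 => dT w p U V c2 d2 M x
  | 2 => oml w wi p U V M (fun y => i1 (Tau w q mu mv M y)) x
  | 3 => oml w wi p U V M (mos w q g M) x
  | 4 => otl w wi p U V M (mos w q g M) x
  | 5 => (J1.card : ℝ)⁻¹ * ∑ r ∈ J1, oml w wi p o0 o1 M (mlo w (pm r) lu lv M) x
  | 6 => (J2.card : ℝ)⁻¹ * ∑ r ∈ J2, oml w wi p o0 o1 M (mlo w (pm r) lu lv M) x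
  | 7 => (J1.card : ℝ)⁻¹ * ∑ r ∈ J1, otl w wi p o0 o1 M (mlo w (pm r) lu lv M) x
  | 8 => (J2.card : ℝ)⁻¹ * ∑ r ∈ J2, otl w wi p o0 o1 M (mlo w (pm r) lu lv M) x

theorem oml_nonneg {w wi : Px Q → ℝ} {p : Px Q → Finset ℕ × ℕ} {o0 o1 : ℕ} {M : ℝ} {F : Px Q → ℝ} (h : ∀ y, 0 ≤ F y) (x : Px Q) :
    0 ≤ oml w wi p o0 o1 M F x := cE_nonneg _ _ (fun y => mul_nonneg (i1_nonneg _) (h y)) x

theorem otl_nonneg {w wi : Px Q → ℝ} {p : Px Q → Finset ℕ × ℕ} {o0 o1 : ℕ} {M : ℝ} {F : Px Q → ℝ} (h : ∀ y, 0 ≤ F y) (x : Px Q) :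
    0 ≤ otl w wi p o0 o1 M F x := cE_nonneg _ _ (fun y => mul_nonneg (i1_nonneg _) (h y)) x

theorem cE_le_one14 {wi : Px Q → ℝ} {p : Px Q → Finset ℕ × ℕ} {F : Px Q → ℝ} (h : ∀ y, F y ≤ 1) (x : Px Q) : cE wi p F x ≤ 1 := by
  have h2 := cE_mono wi p (f := F) (g := fun _ => (1 : ℝ)) h x
  rwa [cE_const] at h2

theorem oml_le_one {w wi : Px Q → ℝ} {p : Px Q → Finset ℕ × ℕ} {o0 o1 : ℕ} {M : ℝ} {F : Px Q → ℝ} (h0 : ∀ y, 0 ≤ F y) (h : ∀ y, F y ≤ 1)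
    (x : Px Q) : oml w wi p o0 o1 M F x ≤ 1 := cE_le_one14 (fun y => mul_le_one₀ (i1_le_one _) (h0 y) (h y)) x

theorem otl_le_one {w wi : Px Q → ℝ} {p : Px Q → Finset ℕ × ℕ} {o0 o1 : ℕ} {M : ℝ} {F : Px Q → ℝ} (h0 : ∀ y, 0 ≤ F y) (h : ∀ y, F y ≤ 1)
    (x : Px Q) : otl w wi p o0 o1 M F x ≤ 1 := cE_le_one14 (fun y => mul_le_one₀ (i1_le_one _) (h0 y) (h y)) x

theorem mos_nonneg (w : Px Q → ℝ) (q : Px Q → Finset ℕ × ℕ) (g : Px Q → ℝ) (M : ℝ) (y : Px Q) : 0 ≤ mos w q g M y := i1_nonneg _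
theorem mos_le_one (w : Px Q → ℝ) (q : Px Q → Finset ℕ × ℕ) (g : Px Q → ℝ) (M : ℝ) (y : Px Q) : mos w q g M y ≤ 1 := i1_le_one _
theorem mlo_nonneg (w : Px Q → ℝ) (r : Px Q → Finset ℕ × ℕ) (lu lv : ℕ) (M : ℝ) (y : Px Q) : 0 ≤ mlo w r lu lv M y := i1_nonneg _
theorem mlo_le_one (w : Px Q → ℝ) (r : Px Q → Finset ℕ × ℕ) (lu lv : ℕ) (M : ℝ) (y : Px Q) : mlo w r lu lv M y ≤ 1 := i1_le_one _

theorem avg_nonneg14 {J : Finset ℕ} {f : ℕ → ℝ} (h : ∀ r ∈ J, 0 ≤ f r) : 0 ≤ (J.card : ℝ)⁻¹ * ∑ r ∈ J, f r :=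
  mul_nonneg (inv_nonneg.2 (Nat.cast_nonneg _)) (sum_nonneg h)

theorem avg_le_one14 {J : Finset ℕ} {f : ℕ → ℝ} (h : ∀ r ∈ J, f r ≤ 1) : (J.card : ℝ)⁻¹ * ∑ r ∈ J, f r ≤ 1 := by
  rcases Nat.eq_zero_or_pos J.card with h0 | h0
  · rw [h0]
    simp
  · have h1 : (0 : ℝ) < J.card := Nat.cast_pos.2 h0
    have h2 : ∑ r ∈ J, f r ≤ J.card * 1 := by
      refine (sum_le_sum h).trans (le_of_eq ?_)
      rw [sum_const, nsmul_eq_mul]
    calc (J.card : ℝ)⁻¹ * ∑ r ∈ J, f r ≤ (J.card : ℝ)⁻¹ * (J.card * 1) := mul_le_mul_of_nonneg_left h2 (inv_nonneg.2 h1.le)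
      _ = 1 := by
          rw [mul_one]
          exact inv_mul_cancel₀ h1.ne'

variable {w wi : Px Q → ℝ} {p q : Px Q → Finset ℕ × ℕ} {g : Px Q → ℝ} {M : ℝ} {U V o0 o1 mu mv c1 d1 c2 d2 lu lv : ℕ} {J1 J2 : Finset ℕ}
  {pm : ℕ → Px Q → Finset ℕ × ℕ}

theorem F14_nonneg (i : Fin 9) (x : Px Q) : 0 ≤ F14 w wi p q g M U V o0 o1 mu mv c1 d1 c2 d2 lu lv J1 J2 pm i x := by
  fin_cases i
  · exact dT_nonneg _ _ _ _ _ _ _ _
  · exact dT_nonneg _ _ _ _ _ _ _ _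
  · exact oml_nonneg (fun _ => i1_nonneg _) x
  · exact oml_nonneg (mos_nonneg _ _ _ _) x
  · exact otl_nonneg (mos_nonneg _ _ _ _) x
  · exact avg_nonneg14 fun r _ => oml_nonneg (mlo_nonneg _ _ _ _ _) x
  · exact avg_nonneg14 fun r _ => oml_nonneg (mlo_nonneg _ _ _ _ _) x
  · exact avg_nonneg14 fun r _ => otl_nonneg (mlo_nonneg _ _ _ _ _) x
  · exact avg_nonneg14 fun r _ => otl_nonneg (mlo_nonneg _ _ _ _ _) x

theorem F14_le_one (i : Fin 9) (x : Px Q) : F14 w wi p q g M U V o0 o1 mu mv c1 d1 c2 d2 lu lv J1 J2 pm i x ≤ 1 := by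
  fin_cases i
  · exact dT_le_one _ _ _ _ _ _ _ _
  · exact dT_le_one _ _ _ _ _ _ _ _
  · exact oml_le_one (fun _ => i1_nonneg _) (fun _ => i1_le_one _) x
  · exact oml_le_one (mos_nonneg _ _ _ _) (mos_le_one _ _ _ _) x
  · exact otl_le_one (mos_nonneg _ _ _ _) (mos_le_one _ _ _ _) x
  · exact avg_le_one14 fun r _ => oml_le_one (mlo_nonneg _ _ _ _ _) (mlo_le_one _ _ _ _ _) x
  · exact avg_le_one14 fun r _ => oml_le_one (mlo_nonneg _ _ _ _ _) (mlo_le_one _ _ _ _ _) x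
  · exact avg_le_one14 fun r _ => otl_le_one (mlo_nonneg _ _ _ _ _) (mlo_le_one _ _ _ _ _) x
  · exact avg_le_one14 fun r _ => otl_le_one (mlo_nonneg _ _ _ _ _) (mlo_le_one _ _ _ _ _) x

/-! ### The remainders -/

/-- **(inj)** in this form: the long ties with the short own piece. -/
theorem inj14 {B T : ℝ} (hB : 0 ≤ B) {C : Px Q → ℝ} {J : Finset ℕ} (hU : U ≤ o0) (hV : o1 ≤ V) (x : Px Q)
    (h : dt wi p (NI U V) (fun y => |g y - C y|) x ≤ B * Ph w wi p q g M J (fun r => mI w (pm r) lu lv) U V x + T) :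
    dt wi p (NI U V) (fun y => |g y - C y|) x ≤ B * (oml w wi p U V M (mos w q g M) x +
      (J.card : ℝ)⁻¹ * ∑ r ∈ J, oml w wi p o0 o1 M (mlo w (pm r) lu lv M) x) + T := by
  refine h.trans (add_le_add (mul_le_mul_of_nonneg_left ?_ hB) le_rfl)
  unfold Ph
  refine add_le_add le_rfl (mul_le_mul_of_nonneg_left (sum_le_sum fun r _ => ?_) (inv_nonneg.2 (Nat.cast_nonneg _)))
  refine cE_mono wi p (fun y => mul_le_mul_of_nonneg_right ?_ (i1_nonneg _)) x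
  exact i1_mono14 fun h1 => h1.trans (mI_anti14 w p hU hV y)

/-- **(sh)** in this form. -/
theorem sh14 {B T e0 : ℝ} (hB : 0 ≤ B) (hT : 0 ≤ T) (he0 : 0 ≤ e0) {C : Px Q → ℝ} {J : Finset ℕ} (hU : U ≤ o0) (hV : o1 ≤ V)
    (hgC : ∀ y, |g y - C y| ≤ B) (x : Px Q) (hhb : hb wi p (NI U V) x ≤ i1 (Tau w p U V M x) + e0)
    (h : cE wi p (fun y => |g y - C y|) x ≤ B * (cE wi p (mos w q g M) x + (J.card : ℝ)⁻¹ * ∑ r ∈ J, cE wi p (mlo w (pm r) lu lv M) x) + T) :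
    hb wi p (NI U V) x * cE wi p (fun y => |g y - C y|) x ≤ B * (otl w wi p U V M (mos w q g M) x +
      (J.card : ℝ)⁻¹ * ∑ r ∈ J, otl w wi p o0 o1 M (mlo w (pm r) lu lv M) x) + (T + B * e0) := by
  have a1 : 0 ≤ cE wi p (fun y => |g y - C y|) x := cE_nonneg _ _ (fun _ => abs_nonneg _) x
  have a2 : cE wi p (fun y => |g y - C y|) x ≤ B := by
    have h2 := cE_mono wi p (f := fun y => |g y - C y|) (g := fun _ => B) hgC x
    rwa [cE_const] at h2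
  have a3 := i1_nonneg (Tau w p U V M x)
  have a4 := i1_le_one (Tau w p U V M x)
  have e1 : i1 (Tau w p U V M x) * (cE wi p (mos w q g M) x + (J.card : ℝ)⁻¹ * ∑ r ∈ J, cE wi p (mlo w (pm r) lu lv M) x) ≤
      otl w wi p U V M (mos w q g M) x + (J.card : ℝ)⁻¹ * ∑ r ∈ J, otl w wi p o0 o1 M (mlo w (pm r) lu lv M) x := by
    rw [mul_add]
    refine add_le_add (le_of_eq (tau_cE w wi p U V M (mos w q g M) x)) ?_
    rw [mul_left_comm, mul_sum]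
    refine mul_le_mul_of_nonneg_left (sum_le_sum fun r _ => ?_) (inv_nonneg.2 (Nat.cast_nonneg _))
    rw [tau_cE]
    refine cE_mono wi p (fun y => mul_le_mul_of_nonneg_right ?_ (i1_nonneg _)) x
    exact i1_mono14 (Tau_anti14 hU hV)
  calc hb wi p (NI U V) x * cE wi p (fun y => |g y - C y|) x ≤ (i1 (Tau w p U V M x) + e0) * cE wi p (fun y => |g y - C y|) x :=
        mul_le_mul_of_nonneg_right hhb a1
    _ = i1 (Tau w p U V M x) * cE wi p (fun y => |g y - C y|) x + e0 * cE wi p (fun y => |g y - C y|) x := by ring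
    _ ≤ i1 (Tau w p U V M x) * (B * (cE wi p (mos w q g M) x + (J.card : ℝ)⁻¹ * ∑ r ∈ J, cE wi p (mlo w (pm r) lu lv M) x) + T) + e0 * B :=
        add_le_add (mul_le_mul_of_nonneg_left h a3) (mul_le_mul_of_nonneg_left a2 he0)
    _ = B * (i1 (Tau w p U V M x) * (cE wi p (mos w q g M) x + (J.card : ℝ)⁻¹ * ∑ r ∈ J, cE wi p (mlo w (pm r) lu lv M) x)) +
          (i1 (Tau w p U V M x) * T + e0 * B) := by ring
    _ ≤ _ := by
        have f1 := mul_le_mul_of_nonneg_left e1 hB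
        have f2 := mul_le_mul_of_nonneg_right a4 hT
        linarith

/-- The own piece is empty. -/
theorem Ph_empty (J : Finset ℕ) (L : ℕ → Px Q → ℝ) (hM : 0 ≤ M) {i k : ℕ} (hik : k < i) (x : Px Q) :
    Ph w wi p q g M J L i k x = cE wi p (mos w q g M) x + (J.card : ℝ)⁻¹ * ∑ r ∈ J, cE wi p (fun y => i1 (Real.exp (-(5 * M)) ≤ L r y)) x := by
  have e1 : ∀ y, i1 (Real.exp (-(5 * M)) ≤ mI w p i k y) = 1 := fun y => by
    have e2 : mI w p i k y = 1 := by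
      unfold R43.mI
      have e3 : NI (Q := Q) i k y = fun _ => 1 := by
        funext z
        unfold NI
        rw [if_pos]
        intro r h1 h2
        omega
      rw [e3, cE_const]
    rw [e2]
    refine i1_of ?_
    rw [Real.exp_le_one_iff]
    linarith
  unfold Ph mos
  simp only [e1, one_mul]

end Path

end

end Pool.W7d29a1.C0.N14
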