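import Pool.Agent.W_7d29a1_C0.PrB5
import Pool.Agent.W_7d29a1_C0.Mod38D

/-!
MP_7d29a1_pr, [CURV0], leaf E5 / N1B (helper14): THE PRICE FORM WITH A TILT. `PrT` = `PrB` of helper5 for functionals which depend on the
tilt `t` in `[-1, 1]`, with the SAME long loops `Bl` and the same numbers for all `t`. `PrB.toT`, `PrT.of_mono`, `PrT.add`, `PrT.smul`,
`PrT.mono`, `PrT.num`, `prT_row`; the end `rowB_of_prT`: the row estimate `RowB` of the third order part `N5e` from a price of a family which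
dominates, at each tilt, the third order cumulant `X38` of helper38 against all passengers.
-/

set_option autoImplicit false
set_option linter.unusedSectionVars false

namespace Pool.Agent.W_7d29a1_C0.PrT14

open Finset MeasureTheory Filter Topology
open Pool.Agent.W_7d29a1_F Pool.Agent.W_7d29a1_X
open Pool.Agent.W_7d29a1_C0 Pool.Agent.W_7d29a1_C0.Mod92 Pool.Agent.W_7d29a1_C0.Asm96 Pool.Agent.W_7d29a1_C0.N38
open Pool.Agent.W_7d29a1_C0.NTop23 Pool.Agent.W_7d29a1_C0.Flip61 Pool.Agent.W_7d29a1_C0.PrB5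
open Pool.Agent.W_7d29a1_C0.Strip80 (OffD)
open Pool.W7d29a1.C0 (gz gm gz_pos gz_ne gm_nonneg gm_mono gm_const)
open Pool.W7d29a1.C0.VT31 (Mp Crs)
open Pool.W7d29a1.C0.Ps33
open Pool.W7d29a1.C0.L38
open Pool.Agent.W_7d29a1_C0.Base5 (N5e K5)

noncomputable section

variable (μ : Measure ℝ) (s : ℝ) (F : Frm96)

/-- **THE PRICE OF A FAMILY WITH A TILT**, uniformly in the tilt. -/
def PrT (m q i l b' : ℕ) (K : ℝ) (X : ℝ → (y : ℕ) → Env × Finset ℕ → ℕ → Px (Pn (F.L m) y) → ℝ) (g A₂ T e : ℝ) : Prop :=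
  ∃ Bl : ℕ → ∀ y, Env × Finset ℕ → Px (Pn (F.L m) y) → ℝ, (∀ k, BM (F.ys m) (Bl k)) ∧ (∀ k, ∀ y ∈ F.ys m, ∀ ω S, 0 ≤ Bl k y ω S) ∧
    avF μ s F m (fun y ω S => (∑ k ∈ (Rw (F.R m) (i * 2 ^ q) ((i + 1) * 2 ^ q)).image fun j => j / l, Bl k y ω S) ^ 2) ≤ T ∧
    (∀ k, avF μ s F m (fun y ω S => Bl k y ω S ^ 2) ≤ l ^ 2 * A₂) ∧
    ∀ t ∈ Set.Icc (-1 : ℝ) 1, ∀ (k : ℕ) (H : (y : ℕ) → Env × Finset ℕ → Px (Pn (F.L m) y) → ℝ), PsH (F.L m) b' l k K H →
      ∑ j ∈ rws F m q i l k, avF μ s F m (fun y ω S => X t y ω j S * H y ω S) ≤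
        l * g * avF μ s F m H + avF μ s F m (fun y ω S => Bl k y ω S * H y ω S) + e

variable {μ s F}

section Cl

variable {m q i l b' : ℕ} {K : ℝ}

theorem PrT.of_mono {X : ℝ → (y : ℕ) → Env × Finset ℕ → ℕ → Px (Pn (F.L m) y) → ℝ} {X' : (y : ℕ) → Env × Finset ℕ → ℕ → Px (Pn (F.L m) y) → ℝ}
    {g A T e e' : ℝ} (h : PrB μ s F m q i l b' K X' g A T e)
    (hm : ∀ t ∈ Set.Icc (-1 : ℝ) 1, ∀ (k : ℕ) (H : (y : ℕ) → Env × Finset ℕ → Px (Pn (F.L m) y) → ℝ), PsH (F.L m) b' l k K H →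
      ∑ j ∈ rws F m q i l k, avF μ s F m (fun y ω S => X t y ω j S * H y ω S) ≤
        ∑ j ∈ rws F m q i l k, avF μ s F m (fun y ω S => X' y ω j S * H y ω S) + e') :
    PrT μ s F m q i l b' K X g A T (e + e') := by
  obtain ⟨Bl, b1, b2, b3, b4, b5⟩ := h
  refine ⟨Bl, b1, b2, b3, b4, fun t ht k H hH => ?_⟩
  have h1 := b5 k H hH
  have h2 := hm t ht k H hH
  linarith

/-- A family without tilt. -/
theorem PrB.toT {X : (y : ℕ) → Env × Finset ℕ → ℕ → Px (Pn (F.L m) y) → ℝ} {g A T e : ℝ} (h : PrB μ s F m q i l b' K X g A T e) :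
    PrT μ s F m q i l b' K (fun _ => X) g A T e := by
  obtain ⟨Bl, b1, b2, b3, b4, b5⟩ := h
  exact ⟨Bl, b1, b2, b3, b4, fun _ _ k H hH => b5 k H hH⟩

/-- **Sum of two families.** -/
theorem PrT.add [IsProbabilityMeasure μ] (hX : ∀ y ∈ F.ys m, Nonempty (Px (Pn (F.L m) y)))
    {X X' : ℝ → (y : ℕ) → Env × Finset ℕ → ℕ → Px (Pn (F.L m) y) → ℝ} {g A T e g' A' T' e' : ℝ}
    (h : PrT μ s F m q i l b' K X g A T e) (h' : PrT μ s F m q i l b' K X' g' A' T' e')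
    (hm : ∀ t ∈ Set.Icc (-1 : ℝ) 1, ∀ j ∈ Rw (F.R m) (i * 2 ^ q) ((i + 1) * 2 ^ q), BM (F.ys m) fun y ω S => X t y ω j S)
    (hm' : ∀ t ∈ Set.Icc (-1 : ℝ) 1, ∀ j ∈ Rw (F.R m) (i * 2 ^ q) ((i + 1) * 2 ^ q), BM (F.ys m) fun y ω S => X' t y ω j S) :
    PrT μ s F m q i l b' K (fun t y ω j S => X t y ω j S + X' t y ω j S) (g + g') (2 * A + 2 * A') (2 * T + 2 * T') (e + e') := by
  obtain ⟨Bl, b1, b2, b3, b4, b5⟩ := h
  obtain ⟨Bl', b1', b2', b3', b4', b5'⟩ := h'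
  refine ⟨fun k y ω S => Bl k y ω S + Bl' k y ω S, fun k => (b1 k).add (b1' k), fun k y hy ω S => add_nonneg (b2 k y hy ω S) (b2' k y hy ω S),
    ?_, fun k => ?_, fun t ht k H hH => ?_⟩
  · have e1 : avF μ s F m (fun y ω S => (∑ k ∈ (Rw (F.R m) (i * 2 ^ q) ((i + 1) * 2 ^ q)).image fun j => j / l,
        (Bl k y ω S + Bl' k y ω S)) ^ 2) =
        avF μ s F m (fun y ω S => ((∑ k ∈ (Rw (F.R m) (i * 2 ^ q) ((i + 1) * 2 ^ q)).image fun j => j / l, Bl k y ω S) +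
          ∑ k ∈ (Rw (F.R m) (i * 2 ^ q) ((i + 1) * 2 ^ q)).image fun j => j / l, Bl' k y ω S) ^ 2) := by
      congr 1
      funext y ω S
      rw [sum_add_distrib]
    rw [e1]
    exact (avF_sq_add hX (BM.sum _ fun k _ => b1 k) (BM.sum _ fun k _ => b1' k)).trans (by linarith)
  · refine (avF_sq_add hX (b1 k) (b1' k)).trans ?_
    have := b4 k
    have := b4' k
    nlinarith
  · have e1 : ∀ j ∈ rws F m q i l k, avF μ s F m (fun y ω S => (X t y ω j S + X' t y ω j S) * H y ω S) =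
        avF μ s F m (fun y ω S => X t y ω j S * H y ω S) + avF μ s F m (fun y ω S => X' t y ω j S * H y ω S) := fun j hj => by
      rw [← avF_add hX ((hm t ht j (mem_filter.1 hj).1).mul (hH.bm _)) ((hm' t ht j (mem_filter.1 hj).1).mul (hH.bm _))]
      congr 1
      funext y ω S
      ring
    have e2 : avF μ s F m (fun y ω S => (Bl k y ω S + Bl' k y ω S) * H y ω S) =
        avF μ s F m (fun y ω S => Bl k y ω S * H y ω S) + avF μ s F m (fun y ω S => Bl' k y ω S * H y ω S) := by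
      rw [← avF_add hX ((b1 k).mul (hH.bm _)) ((b1' k).mul (hH.bm _))]
      congr 1
      funext y ω S
      ring
    rw [sum_congr rfl e1, sum_add_distrib, e2]
    have h1 := b5 t ht k H hH
    have h2 := b5' t ht k H hH
    nlinarith

/-- **A constant factor.** -/
theorem PrT.smul [IsProbabilityMeasure μ] (hX : ∀ y ∈ F.ys m, Nonempty (Px (Pn (F.L m) y)))
    {X : ℝ → (y : ℕ) → Env × Finset ℕ → ℕ → Px (Pn (F.L m) y) → ℝ} {g A T e : ℝ} (h : PrT μ s F m q i l b' K X g A T e) {C : ℝ} (hC : 0 ≤ C) :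
    PrT μ s F m q i l b' K (fun t y ω j S => C * X t y ω j S) (C * g) (C ^ 2 * A) (C ^ 2 * T) (C * e) := by
  obtain ⟨Bl, b1, b2, b3, b4, b5⟩ := h
  refine ⟨fun k y ω S => C * Bl k y ω S, fun k => BM_smul C (b1 k), fun k y hy ω S => mul_nonneg hC (b2 k y hy ω S), ?_, fun k => ?_,
    fun t ht k H hH => ?_⟩
  · have e1 : (fun (y : ℕ) (ω : Env × Finset ℕ) (S : Px (Pn (F.L m) y)) =>
        (∑ k ∈ (Rw (F.R m) (i * 2 ^ q) ((i + 1) * 2 ^ q)).image fun j => j / l, C * Bl k y ω S) ^ 2) =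
        fun y ω S => C ^ 2 * (∑ k ∈ (Rw (F.R m) (i * 2 ^ q) ((i + 1) * 2 ^ q)).image fun j => j / l, Bl k y ω S) ^ 2 := by
      funext y ω S
      rw [← mul_sum]
      ring
    rw [e1, avF_smul hX]
    exact mul_le_mul_of_nonneg_left b3 (sq_nonneg C)
  · have e1 : (fun (y : ℕ) (ω : Env × Finset ℕ) (S : Px (Pn (F.L m) y)) => (C * Bl k y ω S) ^ 2) = fun y ω S => C ^ 2 * Bl k y ω S ^ 2 := by
      funext y ω S
      ring
    rw [e1, avF_smul hX]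
    have := mul_le_mul_of_nonneg_left (b4 k) (sq_nonneg C)
    linarith
  · have e1 : ∀ j ∈ rws F m q i l k, avF μ s F m (fun y ω S => C * X t y ω j S * H y ω S) =
        C * avF μ s F m (fun y ω S => X t y ω j S * H y ω S) := fun j _ => by
      rw [← avF_smul hX]
      congr 1
      funext y ω S
      ring
    have e2 : avF μ s F m (fun y ω S => C * Bl k y ω S * H y ω S) = C * avF μ s F m (fun y ω S => Bl k y ω S * H y ω S) := by
      rw [← avF_smul hX]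
      congr 1
      funext y ω S
      ring
    rw [sum_congr rfl e1, ← mul_sum, e2]
    have := mul_le_mul_of_nonneg_left (b5 t ht k H hH) hC
    linarith

/-- **Domination in the mean.** -/
theorem PrT.mono {X X' : ℝ → (y : ℕ) → Env × Finset ℕ → ℕ → Px (Pn (F.L m) y) → ℝ} {g A T e e' : ℝ} (h : PrT μ s F m q i l b' K X' g A T e)
    (hm : ∀ t ∈ Set.Icc (-1 : ℝ) 1, ∀ (k : ℕ) (H : (y : ℕ) → Env × Finset ℕ → Px (Pn (F.L m) y) → ℝ), PsH (F.L m) b' l k K H →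
      ∑ j ∈ rws F m q i l k, avF μ s F m (fun y ω S => X t y ω j S * H y ω S) ≤
        ∑ j ∈ rws F m q i l k, avF μ s F m (fun y ω S => X' t y ω j S * H y ω S) + e') :
    PrT μ s F m q i l b' K X g A T (e + e') := by
  obtain ⟨Bl, b1, b2, b3, b4, b5⟩ := h
  refine ⟨Bl, b1, b2, b3, b4, fun t ht k H hH => ?_⟩
  have h1 := b5 t ht k H hH
  have h2 := hm t ht k H hH
  linarith

/-- Domination for each path. -/
theorem PrT.mono_path [IsProbabilityMeasure μ] (hX : ∀ y ∈ F.ys m, Nonempty (Px (Pn (F.L m) y)))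
    {X X' : ℝ → (y : ℕ) → Env × Finset ℕ → ℕ → Px (Pn (F.L m) y) → ℝ} {g A T e : ℝ} (h : PrT μ s F m q i l b' K X' g A T e)
    (hm : ∀ t ∈ Set.Icc (-1 : ℝ) 1, ∀ j ∈ Rw (F.R m) (i * 2 ^ q) ((i + 1) * 2 ^ q), BM (F.ys m) fun y ω S => X t y ω j S)
    (hm' : ∀ t ∈ Set.Icc (-1 : ℝ) 1, ∀ j ∈ Rw (F.R m) (i * 2 ^ q) ((i + 1) * 2 ^ q), BM (F.ys m) fun y ω S => X' t y ω j S)
    (hle : ∀ t ∈ Set.Icc (-1 : ℝ) 1, ∀ j ∈ Rw (F.R m) (i * 2 ^ q) ((i + 1) * 2 ^ q), ∀ y ∈ F.ys m, ∀ ω S, X t y ω j S ≤ X' t y ω j S) :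
    PrT μ s F m q i l b' K X g A T e := by
  have h1 := h.mono (X := X) (e' := 0) fun t ht k H hH => by
    rw [add_zero]
    refine sum_le_sum fun j hj => ?_
    have hj' := (mem_filter.1 hj).1
    exact avF_mono hX ((hm t ht j hj').mul (hH.bm _)) ((hm' t ht j hj').mul (hH.bm _)) fun y hy ω S =>
      mul_le_mul_of_nonneg_right (hle t ht j hj' y hy ω S) (hH.nn y ω S)
  rwa [add_zero] at h1

/-- The numbers may be increased. -/
theorem PrT.num [IsProbabilityMeasure μ] (hX : ∀ y ∈ F.ys m, Nonempty (Px (Pn (F.L m) y)))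
    {X : ℝ → (y : ℕ) → Env × Finset ℕ → ℕ → Px (Pn (F.L m) y) → ℝ}
    {g A T e g' A' T' e' : ℝ} (h : PrT μ s F m q i l b' K X g A T e) (hg : g ≤ g') (hA : A ≤ A') (hT : T ≤ T') (he : e ≤ e') :
    PrT μ s F m q i l b' K X g' A' T' e' := by
  obtain ⟨Bl, b1, b2, b3, b4, b5⟩ := h
  refine ⟨Bl, b1, b2, b3.trans hT, fun k => (b4 k).trans (mul_le_mul_of_nonneg_left hA (sq_nonneg _)), fun t ht k H hH => (b5 t ht k H hH).trans ?_⟩
  have h1 : 0 ≤ avF μ s F m H := avF_nonneg hX fun y _ ω S => hH.nn y ω S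
  have h2 : (l : ℝ) * g * avF μ s F m H ≤ l * g' * avF μ s F m H :=
    mul_le_mul_of_nonneg_right (mul_le_mul_of_nonneg_left hg (Nat.cast_nonneg _)) h1
  linarith

/-- **A price for each row and each tilt** (no long loops). -/
theorem prT_row [IsProbabilityMeasure μ] (hX : ∀ y ∈ F.ys m, Nonempty (Px (Pn (F.L m) y))) (hl : 0 < l)
    {X : ℝ → (y : ℕ) → Env × Finset ℕ → ℕ → Px (Pn (F.L m) y) → ℝ} {g e : ℝ} (hg : 0 ≤ g) (he : 0 ≤ e)
    (h : ∀ t ∈ Set.Icc (-1 : ℝ) 1, ∀ (k j : ℕ), j ∈ rws F m q i l k → ∀ (H : (y : ℕ) → Env × Finset ℕ → Px (Pn (F.L m) y) → ℝ),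
      PsH (F.L m) b' l k K H → avF μ s F m (fun y ω S => X t y ω j S * H y ω S) ≤ g * avF μ s F m H + e) :
    PrT μ s F m q i l b' K X g 0 0 (l * e) := by
  refine ⟨fun _ _ _ _ => 0, fun _ => BM.zero, fun _ _ _ _ _ => le_rfl, ?_, fun k => ?_, fun t ht k H hH => ?_⟩
  · refine le_of_eq ?_
    unfold avF av
    simp [gm]
  · refine le_of_eq ?_
    unfold avF av
    simp [gm]
  · have h1 : 0 ≤ avF μ s F m H := avF_nonneg hX fun y _ ω S => hH.nn y ω S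
    have h2 := sum_le_sum fun j (hj : j ∈ rws F m q i l k) => h t ht k j hj H hH
    rw [sum_const, nsmul_eq_mul] at h2
    have h3 : ((rws F m q i l k).card : ℝ) ≤ l := by exact_mod_cast card_rws_le hl
    have h4 : ((rws F m q i l k).card : ℝ) * (g * avF μ s F m H + e) ≤ l * (g * avF μ s F m H + e) :=
      mul_le_mul_of_nonneg_right h3 (by positivity)
    have h5 : avF μ s F m (fun y ω S => (0 : ℝ) * H y ω S) = 0 := by
      unfold avF av
      simp [gm]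
    rw [h5]
    linarith

end Cl

/-! ### The end -/

section End

variable {m q i l b' : ℕ} {K : ℝ}

/-- The average at the frame as a finite sum of integrals over the environment. -/
theorem avF_eq [IsProbabilityMeasure μ] (hX : ∀ y ∈ F.ys m, Nonempty (Px (Pn (F.L m) y)))
    {f : ∀ y, Env × Finset ℕ → Px (Pn (F.L m) y) → ℝ} (hf : BM (F.ys m) f) :
    avF μ s F m f = ∑ z ∈ F.ys m ×ˢ (range (F.L m)).powerset, (((F.ys m).card : ℝ)⁻¹ * (2 ^ F.L m : ℝ)⁻¹) *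
      ∫ η, gm (lw μ s η (F.L m) (Pn (F.L m) z.1)) (f z.1 (η, z.2)) ∂(law μ) := by
  unfold avF av
  rw [sum_product, mul_sum]
  refine sum_congr rfl fun y hy => ?_
  have hne := hX y hy
  obtain ⟨⟨D, hD⟩, hm⟩ := hf
  have e1 : ∀ A : Finset ℕ, Measurable fun η : Env => gm (wm μ s (F.L m) (Pn (F.L m) y) (η, A)) (f y (η, A)) := fun A =>
    meas_gm (w := fun η : Env => wm μ s (F.L m) (Pn (F.L m) y) (η, A)) (f := fun η => f y (η, A)) (fun S => (meas_wm S).comp (meas_pair A))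
      fun S => (hm y hy S).comp (meas_pair A)
  have e2 : ∀ ω : Env × Finset ℕ, |gm (wm μ s (F.L m) (Pn (F.L m) y) ω) (f y ω)| ≤ D := fun ω => abs_gm96 _ fun S => hD y hy ω S
  have e3 := int_Pm (μ := μ) (N := F.L m) (Φ := fun ω => gm (wm μ s (F.L m) (Pn (F.L m) y) ω) (f y ω))
    (fun A _ => (integrable_const D).mono' (e1 A).aestronglyMeasurable (ae_of_all _ fun η => by rw [Real.norm_eq_abs]; exact e2 (η, A))) e1
  beta_reduce at e3 ⊢
  rw [e3, ← mul_assoc, mul_sum]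
  rfl

/-- The third order cumulant of one row at the end `y` (zero if there is no path to `y`). -/
def Xd (μ : Measure ℝ) (s : ℝ) (N : ℕ) (δ B : ℝ) (b0 b b' y j : ℕ) (a : ℤ) (Yf : Env → Px (Pn N y) → ℝ) (t : ℝ) : ℝ := by
  classical
  exact if h : Nonempty (Px (Pn N y)) then X38 μ s N (Pn N y) δ B b0 b b' j a Yf t else 0

theorem Xd_eq {N : ℕ} {δ B : ℝ} {b0 b b' y j : ℕ} {a : ℤ} {Yf : Env → Px (Pn N y) → ℝ} (h : Nonempty (Px (Pn N y))) :
    Xd μ s N δ B b0 b b' y j a Yf = X38 μ s N (Pn N y) δ B b0 b b' j a Yf := by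
  funext t
  unfold Xd
  rw [dif_pos h]

/-- **THE END for the third order part**: the row estimate of `N5e` from the price of a family which dominates the third order cumulant at
each tilt against every passenger. -/
theorem rowB_of_prT [IsProbabilityMeasure μ] (hy : ∀ y ∈ F.ys m, y ≤ F.L m) (hl : 0 < l) {δ B : ℝ} {b0 b : ℕ} (hb' : 0 < b') (h0 : b0 ≤ b)
    (hb : b ≤ b') (hB : 0 ≤ B) (hN : ∀ j ∈ Rw (F.R m) (i * 2 ^ q) ((i + 1) * 2 ^ q), j + b' ≤ F.L m)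
    (hK : ((Rw (F.R m) (i * 2 ^ q) ((i + 1) * 2 ^ q)).card : ℝ) * K5 B = K)
    {X : ℝ → (y : ℕ) → Env × Finset ℕ → ℕ → Px (Pn (F.L m) y) → ℝ} {g A T e e1 : ℝ} (he1 : 0 ≤ e1)
    (h : PrT μ s F m q i l b' K X g A T e)
    (hXm : ∀ t ∈ Set.Icc (-1 : ℝ) 1, ∀ j ∈ Rw (F.R m) (i * 2 ^ q) ((i + 1) * 2 ^ q), BM (F.ys m) fun y ω S => X t y ω j S)
    (hrow : ∀ t ∈ Set.Icc (-1 : ℝ) 1, ∀ k, ∀ j ∈ rws F m q i l k, ∀ y ∈ F.ys m, ∀ (_ : Nonempty (Px (Pn (F.L m) y))) (A : Finset ℕ)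
      (Yf : Env → Px (Pn (F.L m) y) → ℝ), Psg (F.L m) b0 b b' j Yf K →
      |X38 μ s (F.L m) (Pn (F.L m) y) δ B b0 b b' j (Mod92.sg A j) Yf t| ≤
        ∫ η, gm (lw μ s η (F.L m) (Pn (F.L m) y)) (fun S => X t y (η, A) j S * |Yf η S|) ∂(law μ) + e1) :
    RowB μ s F m q i l (4 * b') g A T (e + l * e1) (fun y ω j S => N5e μ s (F.L m) (Pn (F.L m) y) δ B b0 b b' ω j S) := by
  obtain ⟨Bl, b1, b2, b3, b4, b5⟩ := h
  refine ⟨Bl, b1, b2, b3, b4, fun k => ?_⟩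
  have hX : ∀ y ∈ F.ys m, Nonempty (Px (Pn (F.L m) y)) := fun y h => ne_Pn (hy y h)
  have hI := pas_N5e (μ := μ) (s := s) (N := F.L m) hb' h0 hb δ hB
  have hP := psH_yf hI hN hl k
  rw [hK] at hP
  obtain ⟨Y, hY⟩ : ∃ Y, Y = YF F m q i l (4 * b') k (fun y ω j S => N5e μ s (F.L m) (Pn (F.L m) y) δ B b0 b b' ω j S) := ⟨_, rfl⟩
  have hYe : ∀ y ω S, Y y ω S = ∑ j ∈ (Rw (F.R m) (i * 2 ^ q) ((i + 1) * 2 ^ q)).filter (far38 l (4 * b') k),
      N5e μ s (F.L m) (Pn (F.L m) y) δ B b0 b b' ω j S := fun y ω S => by rw [hY]; rfl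
  rw [← hY]
  have hPe : (fun (y : ℕ) (ω : Env × Finset ℕ) (S : Px (Pn (F.L m) y)) => |∑ j ∈ (Rw (F.R m) (i * 2 ^ q) ((i + 1) * 2 ^ q)).filter (far38 l (4 * b') k),
      N5e μ s (F.L m) (Pn (F.L m) y) δ B b0 b b' ω j S|) = fun y ω S => |Y y ω S| := by
    funext y ω S
    rw [hYe]
  rw [hPe] at hP
  have hbI : ∀ j, BM (F.ys m) fun y ω S => N5e μ s (F.L m) (Pn (F.L m) y) δ B b0 b b' ω j S := fun j =>
    ⟨⟨K5 B, fun y _ ω S => hI.bdd j y ω S⟩, fun y _ S => hI.mes j y S⟩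
  have hbY : BM (F.ys m) Y := by
    have e : Y = fun y ω S => ∑ j ∈ (Rw (F.R m) (i * 2 ^ q) ((i + 1) * 2 ^ q)).filter (far38 l (4 * b') k),
      N5e μ s (F.L m) (Pn (F.L m) y) δ B b0 b b' ω j S := by
      funext y ω S
      exact hYe y ω S
    rw [e]
    exact BM.sum _ fun j _ => hbI j
  have hfil : (Rw (F.R m) (i * 2 ^ q) ((i + 1) * 2 ^ q)).filter (fun j => j / l = k) = rws F m q i l k := rfl
  rw [hfil]
  -- the passenger of a row
  have hmY : ∀ (y : ℕ) (A : Finset ℕ), Measurable fun η : Env => Y y (η, A) := fun y A => measurable_pi_lambda _ fun S => by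
    have e : (fun η : Env => Y y (η, A) S) = fun η => ∑ j ∈ (Rw (F.R m) (i * 2 ^ q) ((i + 1) * 2 ^ q)).filter (far38 l (4 * b') k),
      N5e μ s (F.L m) (Pn (F.L m) y) δ B b0 b b' (η, A) j S := by
      funext η
      exact hYe y (η, A) S
    rw [e]
    exact (yf_mes hI (Rw (F.R m) (i * 2 ^ q) ((i + 1) * 2 ^ q)) l k y S).comp (meas_pair A)
  have hbdY : ∀ (y : ℕ) (ω : Env × Finset ℕ) (S : Px (Pn (F.L m) y)), |Y y ω S| ≤ K := fun y ω S => by
    have e := yf_bdd hI (Rw (F.R m) (i * 2 ^ q) ((i + 1) * 2 ^ q)) l k y ω S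
    rw [hYe, ← hK]
    exact e
  have hPs : ∀ j ∈ rws F m q i l k, ∀ y (A : Finset ℕ), Psg (F.L m) b0 b b' j (fun η => Y y (η, A)) K := fun j hj y A => by
    have hjl := (mem_filter.1 hj).2
    obtain ⟨r1, r2⟩ := PsH.rows hl hjl
    refine ⟨hmY y A, fun η S => hbdY y (η, A) S, fun η => ?_, fun r hr z η x => ?_⟩
    · have e := yf_mpJ hI (Rw (F.R m) (i * 2 ^ q) ((i + 1) * 2 ^ q)) (l := l) (i := k) (c := j - b') (d := j + b') (by omega) (by omega) y (η, A)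
      intro S S' hS
      have e2 := e S S' hS
      beta_reduce at e2 ⊢
      rw [hYe, hYe]
      exact e2
    · funext S
      rw [hYe, hYe]
      refine sum_congr rfl fun k' hk' => ?_
      have hfar := far38_2 hl hjl (mem_filter.1 hk').2
      have e := hI.rows k' y (Function.update η ((r : ℤ), z) x) η A fun q h3 h4 => Function.update_of_ne (fun hc => by
        rw [hc] at h3 h4
        have h5 : ((k' - b' : ℕ) : ℤ) < (r : ℤ) := h3
        have h6 : (r : ℤ) ≤ ((k' + b' : ℕ) : ℤ) := h4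
        rcases hr with h7 | h7 <;> rcases hfar with h8 | h8 <;> omega) _ _
      exact congrFun e S
  -- the sums
  obtain ⟨cc, hcc⟩ : ∃ cc : ℝ, cc = ((F.ys m).card : ℝ)⁻¹ * (2 ^ F.L m : ℝ)⁻¹ := ⟨_, rfl⟩
  have hcc0 : 0 ≤ cc := by rw [hcc]; positivity
  obtain ⟨C, hC⟩ : ∃ C : ℝ, C = l * g * avF μ s F m (fun y ω S => |Y y ω S|) + avF μ s F m (fun y ω S => Bl k y ω S * |Y y ω S|) +
      (e + l * e1) := ⟨_, rfl⟩
  rw [← hC]
  obtain ⟨Tt, hTt⟩ : ∃ Tt : Finset (ℕ × ℕ × Finset ℕ), Tt = rws F m q i l k ×ˢ (F.ys m ×ˢ (range (F.L m)).powerset) := ⟨_, rfl⟩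
  have hmem : ∀ z ∈ Tt, z.1 ∈ rws F m q i l k ∧ z.2.1 ∈ F.ys m := fun z hz => by
    rw [hTt, mem_product, mem_product] at hz
    exact ⟨hz.1, hz.2.1⟩
  obtain ⟨Iz, hIz⟩ : ∃ Iz : ℕ × ℕ × Finset ℕ → ℝ, Iz = fun z => ∫ η, gm (lw μ s η (F.L m) (Pn (F.L m) z.2.1))
    (fun S => N5e μ s (F.L m) (Pn (F.L m) z.2.1) δ B b0 b b' (η, z.2.2) z.1 S * Y z.2.1 (η, z.2.2) S) ∂(law μ) := ⟨_, rfl⟩
  have hsum : ∑ j ∈ rws F m q i l k, avF μ s F m (fun y ω S => N5e μ s (F.L m) (Pn (F.L m) y) δ B b0 b b' ω j S * Y y ω S) =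
      ∑ z ∈ Tt, cc * Iz z := by
    rw [hTt, sum_product]
    refine sum_congr rfl fun j _ => ?_
    rw [avF_eq hX ((hbI j).mul hbY), hIz, hcc]
  have key := avg38_abs Tt (fun _ => cc) (fun _ _ => hcc0)
    (X := fun z => Xd μ s (F.L m) δ B b0 b b' z.2.1 z.1 (Mod92.sg z.2.2 z.1) (fun η => Y z.2.1 (η, z.2.2))) (I := Iz)
    (fun z hz => ?_) (fun z hz => ?_) (C := C) (fun t ht => ?_)
  · have h1 : ∑ z ∈ Tt, cc * Iz z ≤ ∑ z ∈ Tt, cc * |Iz z| := sum_le_sum fun z _ => mul_le_mul_of_nonneg_left (le_abs_self _) hcc0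
    have h2 : 0 ≤ ∑ z ∈ Tt, cc * |Iz z| := sum_nonneg fun z _ => mul_nonneg hcc0 (abs_nonneg _)
    have e3 : ∑ j ∈ rws F m q i l k, avF μ s F m (fun y ω S => N5e μ s (F.L m) (Pn (F.L m) y) δ B b0 b b' ω j S * Y y ω S) ≤ C := by
      rw [hsum]
      linarith
    exact e3
  · obtain ⟨hz1, hz2⟩ := hmem z hz
    have hne := hX _ hz2
    rw [Xd_eq hne]
    exact cont_X38 hB h0 hb (Mod92.abs_sg _ _).le (hmY _ _) fun η S => hbdY _ _ S
  · obtain ⟨hz1, hz2⟩ := hmem z hz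
    have hne := hX _ hz2
    rw [Xd_eq hne, hIz]
    exact int_N5e38 hB h0 hb z.2.2 (hmY _ _) fun η S => hbdY _ _ S
  · have h1 : ∀ z ∈ Tt, cc * |Xd μ s (F.L m) δ B b0 b b' z.2.1 z.1 (Mod92.sg z.2.2 z.1) (fun η => Y z.2.1 (η, z.2.2)) t| ≤
        cc * (∫ η, gm (lw μ s η (F.L m) (Pn (F.L m) z.2.1)) (fun S => X t z.2.1 (η, z.2.2) z.1 S * |Y z.2.1 (η, z.2.2) S|) ∂(law μ)) + cc * e1 :=
      fun z hz => by
        obtain ⟨hz1, hz2⟩ := hmem z hz
        have hne := hX _ hz2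
        rw [Xd_eq hne, ← mul_add]
        exact mul_le_mul_of_nonneg_left (hrow t ht k z.1 hz1 z.2.1 hz2 hne z.2.2 _ (hPs z.1 hz1 z.2.1 z.2.2)) hcc0
    refine (sum_le_sum h1).trans ?_
    rw [sum_add_distrib]
    have h2 : ∑ z ∈ Tt, cc * (∫ η, gm (lw μ s η (F.L m) (Pn (F.L m) z.2.1)) (fun S => X t z.2.1 (η, z.2.2) z.1 S * |Y z.2.1 (η, z.2.2) S|) ∂(law μ)) =
        ∑ j ∈ rws F m q i l k, avF μ s F m (fun y ω S => X t y ω j S * |Y y ω S|) := by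
      rw [hTt, sum_product]
      refine sum_congr rfl fun j hj => ?_
      rw [avF_eq hX ((hXm t ht j (mem_filter.1 hj).1).mul hbY.abs), hcc]
    have h3 : ∑ z ∈ Tt, cc * e1 ≤ l * e1 := by
      rw [sum_const, nsmul_eq_mul, hTt, card_product, card_product, card_powerset, card_range]
      have h4 : ((rws F m q i l k).card : ℝ) ≤ l := by exact_mod_cast card_rws_le hl
      have h5 : (((F.ys m).card : ℝ) * 2 ^ F.L m) * cc ≤ 1 := by
        rw [hcc]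
        rcases Nat.eq_zero_or_pos (F.ys m).card with h6 | h6
        · rw [h6]
          simp
        · have h7 : (0 : ℝ) < (F.ys m).card := Nat.cast_pos.2 h6
          refine le_of_eq ?_
          field_simp
      push_cast
      calc ((rws F m q i l k).card : ℝ) * (((F.ys m).card : ℝ) * 2 ^ F.L m) * (cc * e1)
          = ((rws F m q i l k).card : ℝ) * (((F.ys m).card : ℝ) * 2 ^ F.L m * cc) * e1 := by ring
        _ ≤ l * 1 * e1 := by gcongr
        _ = l * e1 := by ring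
    have h6 := b5 t ht k _ hP
    rw [h2, hC]
    linarith

end End

end

end Pool.Agent.W_7d29a1_C0.PrT14
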