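import Pool.Agent.W_7d29a1_C0.N1C14
import Pool.Agent.W_7d29a1_C0.PrT14

/-!
CURV0 (MP_7d29a1_pr), leaf E5.8 / N1B, helper14: THE THIRD ORDER CUMULANT OF A ROW BY THE LINES. `X14` = the sum of the two own lines and of
the eighteen lines; `abs_X38_le14`: `|X38|` is at most its mean against the passenger plus a small number. `PrT.sum`: the price of a finite
sum of families; `bm_X14`, `prT_X14`: the price of `X14` from the prices of the lines.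
-/

set_option autoImplicit false
set_option linter.unusedSectionVars false
set_option linter.unusedVariables false

namespace Pool.W7d29a1.C0.N14

open Finset Filter Topology MeasureTheory
open Pool.Agent.W_7d29a1_F Pool.Agent.W_7d29a1_C0 Pool.W7d29a1.C0 Pool.W7d29a1.C0.VT31
open Pool.Agent.W_7d29a1_C0.Swap57 Pool.Agent.W_7d29a1_C0.Mod92 Pool.Agent.W_7d29a1_C0.H32
open Pool.W7d29a1.C0.R43 (Tau mI mI_nonneg)
open Pool.W7d29a1.C0.S1 (i1 i1_nonneg i1_of i1_not cE_const osc)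
open Pool.W7d29a1.C0.L38 Pool.W7d29a1.C0.PM14 Pool.W7d29a1.C0.NN1

noncomputable section

section Mod

variable {μ : Measure ℝ} [IsProbabilityMeasure μ] {s : ℝ} {N : ℕ} {Q : Finset (Finset ℕ)} [SwQ Q] [Nonempty (Px Q)]

/-- The own line. -/
def ow14 (μ : Measure ℝ) (s : ℝ) (N : ℕ) (Q : Finset (Finset ℕ)) (b0 b b' j : ℕ) (M : ℝ) (η : Env) (S : Px Q) : ℝ :=
  i1 (Tau (lw μ s η N Q) (pJ (j - b') (j + b')) (j + b0) (j + b) M S) + i1 (Tau (lw μ s η N Q) (pJ (j - b') (j + b')) (j - b) (j - b0) M S)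

/-- The nine lines of both sides. -/
def FS14 (μ : Measure ℝ) (s : ℝ) (N : ℕ) (Q : Finset (Finset ℕ)) (δ B : ℝ) (b0 b b' j : ℕ) (a : ℤ) (M t : ℝ) (η : Env) (S : Px Q) : ℝ :=
  ∑ i, FR14 μ s N Q δ B b0 b b' j a M t i η S + ∑ i, FL14 μ s N Q δ B b0 b b' j a M t i η S

/-- The sum of the lines. -/
def X14 (μ : Measure ℝ) (s : ℝ) (N : ℕ) (Q : Finset (Finset ℕ)) (δ B : ℝ) (b0 b b' : ℕ) (G M t : ℝ) (j : ℕ) (a : ℤ) (η : Env) (S : Px Q) : ℝ :=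
  G ^ 2 * B ^ 2 * ow14 μ s N Q b0 b b' j M η S + 32 * B ^ 4 * FS14 μ s N Q δ B b0 b b' j a M t η S

/-- The mean mass of the bent paths of a row. -/
def bR14 (μ : Measure ℝ) (s : ℝ) (N : ℕ) (Q : Finset (Finset ℕ)) (sl R : ℝ) (b0 b b' j : ℕ) : ℝ :=
  ∫ η, gm (lw μ s η N Q) (bd14 sl R (j + b') (R1 b0 b j) (j + uu14 b0 b) (j + b')) ∂(law μ) +
    ∫ η, gm (lw μ s η N Q) (bd14 sl R (j + b') (R2 b0 b j) (j + uu14 b0 b) (j + b')) ∂(law μ)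

def bL14 (μ : Measure ℝ) (s : ℝ) (N : ℕ) (Q : Finset (Finset ℕ)) (sl R : ℝ) (b0 b b' j : ℕ) : ℝ :=
  ∫ η, gm (lw μ s η N Q) (bd14 sl R (j - b') (L1 b0 b j) (j - b') (j - uu14 b0 b)) ∂(law μ) +
    ∫ η, gm (lw μ s η N Q) (bd14 sl R (j - b') (L2 b0 b j) (j - b') (j - uu14 b0 b)) ∂(law μ)

variable {f f' : ℝ → ℝ}

theorem mf_FR14 {δ B : ℝ} (hB : 0 ≤ B) {b0 b b' j : ℕ} {a : ℤ} (ha : |(a : ℝ)| ≤ 1) (M t : ℝ) (i : Fin 9) :
    MF (FR14 μ s N Q δ B b0 b b' j a M t i) 1 :=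
  mf_F14 (fun x => meas_lw x) (meas_wi38 (μ := μ) (s := s) (N := N) (Q := Q) hB δ b0 j ha t)
    (MF.of (meas_gj38 (μ := μ) (s := s) (Q := Q) hB δ b0 j ha) fun η x => abs_gj η hB ha b0 j x) i

theorem mf_FL14 {δ B : ℝ} (hB : 0 ≤ B) {b0 b b' j : ℕ} {a : ℤ} (ha : |(a : ℝ)| ≤ 1) (M t : ℝ) (i : Fin 9) :
    MF (FL14 μ s N Q δ B b0 b b' j a M t i) 1 :=
  mf_F14 (fun x => meas_lw x) (meas_wi38 (μ := μ) (s := s) (N := N) (Q := Q) hB δ b0 j ha t)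
    (MF.of (meas_gj38 (μ := μ) (s := s) (Q := Q) hB δ b0 j ha) fun η x => abs_gj η hB ha b0 j x) i

theorem mf_sum {F : Fin 9 → Env → Px Q → ℝ} (h : ∀ i, MF (F i) 1) : MF (fun η x => ∑ i, F i η x) 9 where
  ms x := Finset.measurable_fun_sum _ fun i _ => (h i).ms x
  bd η x := by
    refine (abs_sum_le_sum_abs _ _).trans ((sum_le_sum fun i _ => (h i).bd η x).trans (le_of_eq ?_))
    simp

theorem mf_ow14 (b0 b b' j : ℕ) (M : ℝ) : MF (ow14 μ s N Q b0 b b' j M) (1 + 1) :=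
  (mf_tau (fun x => meas_lw x) _ _ _ _).add (mf_tau (fun x => meas_lw x) _ _ _ _)

/-- **THE THIRD ORDER CUMULANT OF A ROW BY THE LINES.** -/
theorem abs_X38_le14 (h : DenLaw μ f f') {K θ0 : ℝ} (hs : SG μ (sc f f') K θ0) (hK : 0 ≤ K) (hQ : Blk18.Full N Q) {y : ℤ}
    (hy : ∀ S : Px Q, ps S N = y) {δ B : ℝ} (hB : 1 ≤ B) {b0 b b' j : ℕ} (hb : b0 + 6 ≤ b) (hbb : b ≤ b') (hj : b' ≤ j) (hjN : j + b' ≤ N)
    {a : ℤ} (ha : |(a : ℝ)| ≤ 1) {t : ℝ} (ht : |t| ≤ 1) {Yf : Env → Px Q → ℝ} {L : ℝ} (hY : Psg N b0 b b' j Yf L)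
    {sl R : ℝ} (hR : 1 ≤ R) {θ Λ : ℝ} (hθ : 0 < θ) (hθ1 : θ ≤ 1) (hθ0 : θ ≤ θ0) (hΛ : 0 ≤ Λ) (hG : Gn14 Λ R B b0 b ≤ 1) {M : ℝ}
    (hM : 4 * B ≤ M) :
    |X38 μ s N Q δ B b0 b b' j a Yf t| ≤
      ∫ η, gm (lw μ s η N Q) (fun S => X14 μ s N Q δ B b0 b b' (Gn14 Λ R B b0 b) M t j a η S * |Yf η S|) ∂(law μ) +
      (32 * B ^ 4 * (L * er14 B M (bR14 μ s N Q sl R b0 b b' j) N) + 32 * B ^ 4 * (L * er14 B M (bL14 μ s N Q sl R b0 b b' j) N) +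
        2 * tl38 N L R B K θ Λ) := by
  have hB0 : 0 ≤ B := by linarith
  have mw : ∀ x : Px Q, Measurable fun η => lw μ s η N Q x := fun x => meas_lw x
  have hYm : MF Yf L := MF.of hY.ms hY.bd
  have h1 := abs_X38 (μ := μ) (s := s) (N := N) (Q := Q) (δ := δ) (sl := sl) h hs hK hQ hy hB hb hbb hj hjN ha t hY hR hθ hθ1 hθ0 hΛ
  have h2 := RS_le14 (μ := μ) (s := s) (N := N) (Q := Q) (δ := δ) (sl := sl) hB hb hbb hjN ha ht hY hR hΛ hG hM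
  have h3 := LS_le14 (μ := μ) (s := s) (N := N) (Q := Q) (δ := δ) (sl := sl) hy hB hb hbb hj hjN ha ht hY hR hΛ hG hM
  obtain ⟨G, hGe⟩ : ∃ G, G = Gn14 Λ R B b0 b := ⟨_, rfl⟩
  rw [← hGe] at h2 h3 ⊢
  have e1 : ∫ η, gm (lw μ s η N Q) (fun S => X14 μ s N Q δ B b0 b b' G M t j a η S * |Yf η S|) ∂(law μ) =
      IY μ (fun η => lw μ s η N Q) Yf (X14 μ s N Q δ B b0 b b' G M t j a) := by
    unfold IY
    congr 1
    funext η
    congr 1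
    funext S
    exact mul_comm _ _
  have mR := fun i => mf_FR14 (μ := μ) (s := s) (N := N) (Q := Q) (δ := δ) hB0 (b0 := b0) (b := b) (b' := b') (j := j) ha M t i
  have mL := fun i => mf_FL14 (μ := μ) (s := s) (N := N) (Q := Q) (δ := δ) hB0 (b0 := b0) (b := b) (b' := b') (j := j) ha M t i
  have mo := mf_ow14 (μ := μ) (s := s) (N := N) (Q := Q) b0 b b' j M
  have mS := (mf_sum mR).add (mf_sum mL)
  have e2 : IY μ (fun η => lw μ s η N Q) Yf (X14 μ s N Q δ B b0 b b' G M t j a) =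
      G ^ 2 * B ^ 2 * IY μ (fun η => lw μ s η N Q) Yf (ow14 μ s N Q b0 b b' j M) +
        32 * B ^ 4 * (IY μ (fun η => lw μ s η N Q) Yf (fun η S => ∑ i, FR14 μ s N Q δ B b0 b b' j a M t i η S) +
          IY μ (fun η => lw μ s η N Q) Yf (fun η S => ∑ i, FL14 μ s N Q δ B b0 b b' j a M t i η S)) := by
    have f1 := IY_add (μ := μ) mw hYm (F := fun η x => G ^ 2 * B ^ 2 * ow14 μ s N Q b0 b b' j M η x)
      (G := fun η x => 32 * B ^ 4 * FS14 μ s N Q δ B b0 b b' j a M t η x) (mo.smul (by positivity)) (mS.smul (by positivity))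
    have f2 := IY_add (μ := μ) mw hYm (mf_sum mR) (mf_sum mL)
    rw [IY_smul, IY_smul] at f1
    refine f1.trans ?_
    rw [← f2]
    rfl
  have e3 : IY μ (fun η => lw μ s η N Q) Yf (ow14 μ s N Q b0 b b' j M) =
      IY μ (fun η => lw μ s η N Q) Yf (fun η x => i1 (Tau (lw μ s η N Q) (pJ (j - b') (j + b')) (j + b0) (j + b) M x)) +
        IY μ (fun η => lw μ s η N Q) Yf (fun η x => i1 (Tau (lw μ s η N Q) (pJ (j - b') (j + b')) (j - b) (j - b0) M x)) :=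
    IY_add (μ := μ) mw hYm (mf_tau mw _ _ _ _) (mf_tau mw _ _ _ _)
  have e4 := IY_sum (μ := μ) mw hYm (Finset.univ : Finset (Fin 9)) (F := FR14 μ s N Q δ B b0 b b' j a M t) (D := 1) fun i _ => mR i
  have e5 := IY_sum (μ := μ) mw hYm (Finset.univ : Finset (Fin 9)) (F := FL14 μ s N Q δ B b0 b b' j a M t) (D := 1) fun i _ => mL i
  rw [e1, e2, e3, e4, e5]
  unfold bR14 bL14
  refine h1.trans ((add_le_add (add_le_add h2 h3) le_rfl).trans (le_of_eq ?_))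
  ring

end Mod

end

end Pool.W7d29a1.C0.N14
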