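import Pool.Agent.W_7d29a1_C0.N1E19

/-!
MP_7d29a1_pr, [CURV0], leaf E5.8 / N1B (helper19): THE END OF `N1B` FOR A PART OF THE CHAINS. `rowN19P`: `rowN19` with a condition `Pp p p'` on the
lengths in the hypothesis and in the conclusion (`p < p'` is wanted).
-/

set_option autoImplicit false
set_option linter.unusedSectionVars false
set_option linter.dupNamespace false

namespace Pool.Agent.W_7d29a1_C0.N1E19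

open Finset MeasureTheory Filter Topology
open Pool.Agent.W_7d29a1_F Pool.Agent.W_7d29a1_X
open Pool.Agent.W_7d29a1_H (EE EE_pos one_le_EE)
open Pool.Agent.W_7d29a1_HS (In wd)
open Pool.Agent.W_7d29a1_C0 Pool.Agent.W_7d29a1_C0.Mod92 Pool.Agent.W_7d29a1_C0.Asm96 Pool.Agent.W_7d29a1_C0.N38
open Pool.Agent.W_7d29a1_C0.Frm33 Pool.Agent.W_7d29a1_C0.Sz23 Pool.Agent.W_7d29a1_C0.Base5
open Pool.Agent.W_7d29a1_C0.NTop23 (avF YF RowB RowN23)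
open Pool.Agent.W_7d29a1_C0.Strip80 (OffD)
open Pool.Agent.W_7d29a1_C0.Par92 (Est Sml)
open Pool.Agent.W_7d29a1_C0.Flip61 (Cov1)
open Pool.Agent.W_7d29a1_C0.PrB5 (PsH PrB rws)
open Pool.Agent.W_7d29a1_C0.PrT14 (PrT rowB_of_prT)
open Pool.Agent.W_7d29a1_C0.Pr46
open Pool.W7d29a1.C0 (gz gm gz_pos gz_ne gm_nonneg gm_mono gm_const)
open Pool.W7d29a1.C0.Ps33
open Pool.W7d29a1.C0.VT31 (Mp)
open Pool.W7d29a1.C0.L38 (X38 Psg)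

noncomputable section

variable {μ : Measure ℝ} {s : ℝ}

section Frame

variable [IsProbabilityMeasure μ] {K : ℕ} {Θ δ c η : ℝ}

/-- **THE END OF `N1B` AT THE CONCRETE FRAME**, only for the lengths with `Pp p p'`. -/
theorem rowN19P {Pp : ℕ → ℕ → Prop} {c₁ C : ℝ} {n₀ : ℕ} (h : In μ s c₁ C n₀) (hk : KapLe96 (EE μ s) (1 / 4)) (hK : 32 ≤ K) (hδ : 0 < δ) (hc : 0 ≤ c)
    (hcδ : c ≤ δ / 64) (hη : 0 ≤ η) {A : ℝ} (hA : 3 < A)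
    (H : Est fun ι β γ m => ∀ p p' q i : ℕ, Chg96 (EE μ s) Θ δ c η m p p' q → i < 2 ^ (m - q) →
      Pp p p' → ∃ X : ℝ → (y : ℕ) → Env × Finset ℕ → ℕ → Px (Pn ((frm33 μ s K ι β γ).L m) y) → ℝ,
        (∀ t ∈ Set.Icc (-1 : ℝ) 1, ∀ j ∈ rw46 (frm33 μ s K ι β γ) m q i, BM ((frm33 μ s K ι β γ).ys m) fun y ω S => X t y ω j S) ∧
        Pr46 μ s (frm33 μ s K ι β γ) (EE μ s) Θ c m p p' q i 0 A (Lf19 μ s (frm33 μ s K ι β γ) m X) ∧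
        Row19 μ s (frm33 μ s K ι β γ) m p p' q i X (((2 ^ m : ℕ) : ℝ) ^ (-5 : ℝ))) :
    Est fun ι β γ m => ∀ p p' q i : ℕ, Chg96 (EE μ s) Θ δ c η m p p' q → i < 2 ^ (m - q) → Pp p p' →
      ∃ (l h : ℕ) (g A₂ T e : ℝ), 0 < l ∧ l ≤ 2 ^ p' ∧ h ≤ 4 * 2 ^ p' ∧ 0 ≤ g ∧ g ≤ ((2 ^ m : ℕ) : ℝ) ^ (-(c / 16)) / EE μ s (2 ^ q) ∧
        0 ≤ A₂ ∧ A₂ ≤ ((2 ^ m : ℕ) : ℝ) ^ (c / 32) / EE μ s (2 ^ p) ∧ 0 ≤ T ∧
        T ≤ 2 ^ q * (EE μ s (2 ^ q) * ((2 ^ m : ℕ) : ℝ) ^ (Θ - c / 16)) ∧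
        0 ≤ e ∧ e ≤ ((2 ^ m : ℕ) : ℝ) ^ (-1 : ℝ) ∧
        RowB μ s (frm33 μ s K ι β γ) m q i l h g A₂ T e (fun y ω j => I5 μ s (frm33 μ s K ι β γ) 0 m p p' y ω j) := by
  have hβ : Est fun _ β _ _ => β ≤ 1 / 8 := Est.beta (Sml.of fun _ _ => Sml.le (by norm_num))
  refine (H.and (hβ.and (rows46 (Θ := Θ) h hk hK hδ hc hcδ hη))).mono fun ι β γ hι hβ0 _ => ?_
  by_cases hβ8 : β ≤ 1 / 8
  swap
  · exact Eventually.of_forall fun m h1 => absurd h1.2.1 hβ8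
  filter_upwards [num_sz (κ := 1) (ε := 1) one_pos one_pos hβ0 (by linarith) (by linarith), ev_n one_pos 2,
    ev_n (show 0 < A - 3 by linarith) 2] with m hm hn2 hA2 hH
  obtain ⟨hH, -, hrw⟩ := hH
  obtain ⟨hB1, -, hK5, -⟩ := hm
  rw [Real.rpow_one] at hK5 hn2
  intro p p' q i hC hi hPp
  obtain ⟨X, hXm, hPr, hrow⟩ := hH p p' q i hC hi hPp
  have hn := rw46_pos m
  have hn1 := n_ge1 m
  obtain ⟨hsq', hqm⟩ := chg_le33 hC hc hη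
  have hp'm : p' ≤ m := hC.hps'.trans (hsq'.trans hqm)
  have hb0 : (frm33 μ s K ι β γ).b0 m p ≤ 2 ^ p := Nat.pow_le_pow_right two_pos (Nat.sub_le _ _)
  have hcard : ((rw46 (frm33 μ s K ι β γ) m q i).card : ℝ) ≤ ((2 ^ m : ℕ) : ℝ) := by
    have h1 : (rw46 (frm33 μ s K ι β γ) m q i).card ≤ 2 ^ m :=
      (card_le_card (inter_subset_left)).trans (R33_card ι m)
    exact_mod_cast h1
  have hK50 : 0 ≤ K5 (B33 β m) := K5_nonneg (zero_le_one.trans hB1)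
  have hyF : ∀ y ∈ (frm33 μ s K ι β γ).ys m, y ≤ (frm33 μ s K ι β γ).L m := fun y hy => hy33 (by omega) m y hy
  have hl : (((2 ^ (p' - 6) : ℕ) : ℝ)) ≤ ((2 ^ m : ℕ) : ℝ) := by
    exact_mod_cast Nat.pow_le_pow_right two_pos (by omega)
  refine rowB19 (A := A) (e₁ := ((2 ^ m : ℕ) : ℝ) ^ (-5 : ℝ)) (Mh := ((2 ^ m : ℕ) : ℝ) ^ (2 : ℝ)) hyF (zero_le_one.trans hB1) hC.hpp hb0
    (fun j hj => (hrw p p' q i hC hi j hj).2.2) (Real.rpow_pos_of_pos hn _) ?_ (Real.rpow_nonneg hn.le _) ?_ hXm hPr hrow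
  · calc ((rw46 (frm33 μ s K ι β γ) m q i).card : ℝ) * K5 (B33 β m) ≤ ((2 ^ m : ℕ) : ℝ) * ((2 ^ m : ℕ) : ℝ) :=
          mul_le_mul hcard hK5 hK50 hn.le
      _ = ((2 ^ m : ℕ) : ℝ) ^ (2 : ℝ) := by
          rw [Real.rpow_two, sq]
  · have e1 : 2 * (((2 ^ m : ℕ) : ℝ) ^ (2 : ℝ) * ((2 ^ m : ℕ) : ℝ) ^ (-A)) ≤ ((2 ^ m : ℕ) : ℝ) ^ (-1 : ℝ) := by
      have e0 : 0 ≤ ((2 ^ m : ℕ) : ℝ) ^ (2 : ℝ) * ((2 ^ m : ℕ) : ℝ) ^ (-A) := by positivity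
      calc 2 * (((2 ^ m : ℕ) : ℝ) ^ (2 : ℝ) * ((2 ^ m : ℕ) : ℝ) ^ (-A))
          ≤ ((2 ^ m : ℕ) : ℝ) ^ (A - 3) * (((2 ^ m : ℕ) : ℝ) ^ (2 : ℝ) * ((2 ^ m : ℕ) : ℝ) ^ (-A)) :=
            mul_le_mul_of_nonneg_right hA2 e0
        _ = ((2 ^ m : ℕ) : ℝ) ^ (-1 : ℝ) := by
            rw [← Real.rpow_add hn, ← Real.rpow_add hn]
            congr 1
            ring
    have e2 : ((2 ^ (p' - 6) : ℕ) : ℝ) * (((2 ^ m : ℕ) : ℝ) ^ (2 : ℝ) * ((2 ^ m : ℕ) : ℝ) ^ (-5 : ℝ)) ≤ ((2 ^ m : ℕ) : ℝ) ^ (-2 : ℝ) := by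
      calc ((2 ^ (p' - 6) : ℕ) : ℝ) * (((2 ^ m : ℕ) : ℝ) ^ (2 : ℝ) * ((2 ^ m : ℕ) : ℝ) ^ (-5 : ℝ))
          ≤ ((2 ^ m : ℕ) : ℝ) ^ (1 : ℝ) * (((2 ^ m : ℕ) : ℝ) ^ (2 : ℝ) * ((2 ^ m : ℕ) : ℝ) ^ (-5 : ℝ)) := by
            rw [Real.rpow_one]
            exact mul_le_mul_of_nonneg_right hl (mul_nonneg (Real.rpow_nonneg hn.le _) (Real.rpow_nonneg hn.le _))
        _ = ((2 ^ m : ℕ) : ℝ) ^ (-2 : ℝ) := by
            rw [← Real.rpow_add hn, ← Real.rpow_add hn]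
            norm_num
    have e3 : 2 * ((2 ^ m : ℕ) : ℝ) ^ (-2 : ℝ) ≤ ((2 ^ m : ℕ) : ℝ) ^ (-1 : ℝ) := by
      calc 2 * ((2 ^ m : ℕ) : ℝ) ^ (-2 : ℝ) ≤ ((2 ^ m : ℕ) : ℝ) ^ (1 : ℝ) * ((2 ^ m : ℕ) : ℝ) ^ (-2 : ℝ) := by
            rw [Real.rpow_one]
            exact mul_le_mul_of_nonneg_right hn2 (Real.rpow_nonneg hn.le _)
        _ = ((2 ^ m : ℕ) : ℝ) ^ (-1 : ℝ) := by
            rw [← Real.rpow_add hn]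
            norm_num
    linarith

end Frame

end

end Pool.Agent.W_7d29a1_C0.N1E19
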