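import Pool.Agent.W_7d29a1_C0.PrT14

/-!
MP_7d29a1_pr, [CURV0], leaf E5 / N1B (helper14): THE PRICE OF A FINITE SUM OF FAMILIES. `avF_sum14`, `prT_sum14`: the price of the sum over
a finite set of families with the same numbers. `bm_sec14`: bounded and measurable from the sections in the signs.
-/

set_option autoImplicit false
set_option linter.unusedSectionVars false

namespace Pool.Agent.W_7d29a1_C0.PrT14

open Finset MeasureTheory Filter Topology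
open Pool.Agent.W_7d29a1_F Pool.Agent.W_7d29a1_X
open Pool.Agent.W_7d29a1_C0 Pool.Agent.W_7d29a1_C0.Mod92 Pool.Agent.W_7d29a1_C0.Asm96 Pool.Agent.W_7d29a1_C0.N38
open Pool.Agent.W_7d29a1_C0.NTop23 Pool.Agent.W_7d29a1_C0.Flip61 Pool.Agent.W_7d29a1_C0.PrB5
open Pool.W7d29a1.C0 (gz gm gz_pos gz_ne gm_nonneg gm_mono gm_const)

noncomputable section

variable {μ : Measure ℝ} {s : ℝ} {F : Frm96} {m q i l b' : ℕ} {K : ℝ}

theorem avF_zero : avF μ s F m (fun (y : ℕ) (_ : Env × Finset ℕ) (_ : Px (Pn (F.L m) y)) => (0 : ℝ)) = 0 := by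
  unfold avF av
  simp [gm]

theorem avF_sum14 [IsProbabilityMeasure μ] (hX : ∀ y ∈ F.ys m, Nonempty (Px (Pn (F.L m) y))) {ι : Type*} (T : Finset ι)
    {f : ι → ∀ y, Env × Finset ℕ → Px (Pn (F.L m) y) → ℝ} (hf : ∀ i ∈ T, BM (F.ys m) (f i)) :
    avF μ s F m (fun y ω S => ∑ i ∈ T, f i y ω S) = ∑ i ∈ T, avF μ s F m (f i) := by
  classical
  induction T using Finset.induction_on with
  | empty => simpa using avF_zero (μ := μ) (s := s) (F := F) (m := m)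
  | insert i T hi ih =>
    simp only [sum_insert hi]
    rw [avF_add hX (hf i (mem_insert_self i T)) (BM.sum T fun j hj => hf j (mem_insert_of_mem hj)),
      ih fun j hj => hf j (mem_insert_of_mem hj)]

/-- The square of a finite sum. -/
theorem avF_sq_sum14 [IsProbabilityMeasure μ] (hX : ∀ y ∈ F.ys m, Nonempty (Px (Pn (F.L m) y))) {ι : Type*} (T : Finset ι)
    {f : ι → ∀ y, Env × Finset ℕ → Px (Pn (F.L m) y) → ℝ} (hf : ∀ i ∈ T, BM (F.ys m) (f i)) {A : ℝ}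
    (hA : ∀ i ∈ T, avF μ s F m (fun y ω S => f i y ω S ^ 2) ≤ A) :
    avF μ s F m (fun y ω S => (∑ i ∈ T, f i y ω S) ^ 2) ≤ (T.card : ℝ) ^ 2 * A := by
  have h2 : ∀ i ∈ T, BM (F.ys m) fun y ω S => f i y ω S ^ 2 := fun i hi => by simpa only [sq] using (hf i hi).mul (hf i hi)
  have hs : BM (F.ys m) fun y ω S => (∑ i ∈ T, f i y ω S) ^ 2 := by simpa only [sq] using (BM.sum T hf).mul (BM.sum T hf)
  have h3 : avF μ s F m (fun y ω S => (∑ i ∈ T, f i y ω S) ^ 2) ≤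
      avF μ s F m (fun y ω S => (T.card : ℝ) * ∑ i ∈ T, f i y ω S ^ 2) :=
    avF_mono hX hs (BM_smul _ (BM.sum T h2)) fun y _ ω S => sq_sum_le_card_mul_sum_sq
  rw [avF_smul hX, avF_sum14 hX T h2] at h3
  have h4 : ∑ i ∈ T, avF μ s F m (fun y ω S => f i y ω S ^ 2) ≤ T.card * A := by
    refine (sum_le_sum hA).trans (le_of_eq ?_)
    rw [sum_const, nsmul_eq_mul]
  calc _ ≤ (T.card : ℝ) * ∑ i ∈ T, avF μ s F m (fun y ω S => f i y ω S ^ 2) := h3
    _ ≤ (T.card : ℝ) * (T.card * A) := mul_le_mul_of_nonneg_left h4 (Nat.cast_nonneg _)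
    _ = _ := by ring

/-- **THE PRICE OF A FINITE SUM** of families with the same numbers. -/
theorem prT_sum14 [IsProbabilityMeasure μ] (hX : ∀ y ∈ F.ys m, Nonempty (Px (Pn (F.L m) y))) {ι : Type*} (Tt : Finset ι)
    {X : ι → ℝ → (y : ℕ) → Env × Finset ℕ → ℕ → Px (Pn (F.L m) y) → ℝ} {g A T e : ℝ}
    (h : ∀ c ∈ Tt, PrT μ s F m q i l b' K (X c) g A T e)
    (hm : ∀ c ∈ Tt, ∀ t ∈ Set.Icc (-1 : ℝ) 1, ∀ j ∈ Rw (F.R m) (i * 2 ^ q) ((i + 1) * 2 ^ q), BM (F.ys m) fun y ω S => X c t y ω j S) :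
    PrT μ s F m q i l b' K (fun t y ω j S => ∑ c ∈ Tt, X c t y ω j S) (Tt.card * g) ((Tt.card : ℝ) ^ 2 * A) ((Tt.card : ℝ) ^ 2 * T)
      (Tt.card * e) := by
  unfold PrT at h
  choose! Bl hBl using h
  refine ⟨fun k y ω S => ∑ c ∈ Tt, Bl c k y ω S, fun k => BM.sum Tt fun c hc => (hBl c hc).1 k,
    fun k y hy ω S => sum_nonneg fun c hc => (hBl c hc).2.1 k y hy ω S, ?_, fun k => ?_, fun t ht k H hH => ?_⟩
  · have e1 : (fun (y : ℕ) (ω : Env × Finset ℕ) (S : Px (Pn (F.L m) y)) =>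
        (∑ k ∈ (Rw (F.R m) (i * 2 ^ q) ((i + 1) * 2 ^ q)).image fun j => j / l, ∑ c ∈ Tt, Bl c k y ω S) ^ 2) =
        fun y ω S => (∑ c ∈ Tt, ∑ k ∈ (Rw (F.R m) (i * 2 ^ q) ((i + 1) * 2 ^ q)).image fun j => j / l, Bl c k y ω S) ^ 2 := by
      funext y ω S
      rw [sum_comm]
    rw [e1]
    exact avF_sq_sum14 hX Tt (f := fun c y ω S => ∑ k ∈ (Rw (F.R m) (i * 2 ^ q) ((i + 1) * 2 ^ q)).image fun j => j / l, Bl c k y ω S)
      (fun c hc => BM.sum _ fun k _ => (hBl c hc).1 k) fun c hc => (hBl c hc).2.2.1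
  · have h1 := avF_sq_sum14 (μ := μ) (s := s) hX Tt (f := fun c => Bl c k) (fun c hc => (hBl c hc).1 k) fun c hc => (hBl c hc).2.2.2.1 k
    refine h1.trans (le_of_eq ?_)
    ring
  · have e1 : ∀ j ∈ rws F m q i l k, avF μ s F m (fun y ω S => (∑ c ∈ Tt, X c t y ω j S) * H y ω S) =
        ∑ c ∈ Tt, avF μ s F m (fun y ω S => X c t y ω j S * H y ω S) := fun j hj => by
      rw [← avF_sum14 hX Tt fun c hc => (hm c hc t ht j (mem_filter.1 hj).1).mul (hH.bm _)]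
      congr 1
      funext y ω S
      rw [sum_mul]
    have e2 : avF μ s F m (fun y ω S => (∑ c ∈ Tt, Bl c k y ω S) * H y ω S) =
        ∑ c ∈ Tt, avF μ s F m (fun y ω S => Bl c k y ω S * H y ω S) := by
      rw [← avF_sum14 hX Tt fun c hc => ((hBl c hc).1 k).mul (hH.bm _)]
      congr 1
      funext y ω S
      rw [sum_mul]
    rw [sum_congr rfl e1, sum_comm, e2]
    refine (sum_le_sum fun c hc => (hBl c hc).2.2.2.2 t ht k H hH).trans (le_of_eq ?_)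
    rw [sum_add_distrib, sum_add_distrib, sum_const, sum_const, nsmul_eq_mul, nsmul_eq_mul]
    ring

/-- Measurability from the sections in the signs. -/
theorem meas_sec14 {Φ : Env × Finset ℕ → ℝ} (hm : ∀ A : Finset ℕ, Measurable fun η => Φ (η, A)) : Measurable Φ := by
  intro U hU
  have e : Φ ⁻¹' U = ⋃ A : Finset ℕ, ((fun η => Φ (η, A)) ⁻¹' U) ×ˢ {A} := by
    ext ⟨η, A⟩
    simp
  rw [e]
  exact MeasurableSet.iUnion fun A => ((hm A) hU).prod trivial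

theorem bm_sec14 {X : (y : ℕ) → Env × Finset ℕ → Px (Pn (F.L m) y) → ℝ} {D : ℝ} (hD : ∀ y ∈ F.ys m, ∀ ω S, |X y ω S| ≤ D)
    (hm : ∀ y ∈ F.ys m, ∀ S (A : Finset ℕ), Measurable fun η => X y (η, A) S) : BM (F.ys m) X :=
  ⟨⟨D, hD⟩, fun y hy S => meas_sec14 (hm y hy S)⟩

end

end Pool.Agent.W_7d29a1_C0.PrT14
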