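import Pool.Agent.W_7d29a1_C0.N1D14
import Pool.Agent.W_7d29a1_C0.PrU14
import Pool.Agent.W_7d29a1_C0.BdP14
import Pool.Agent.W_7d29a1_C0.NmB41

/-!
MP_7d29a1_pr, [CURV0], leaf E5.8 / N1B (helper14): THE THIRD ORDER CUMULANT OF A ROW BY THE LINES, AT THE CONCRETE FRAME. `hrow14`: for all
rows, ends, signs and passengers the third order cumulant is at most the mean of `X14` against the passenger plus `L n ^ (- A)`;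
`bm_X14`: `X14` is bounded and measurable at the frame.
-/

set_option autoImplicit false
set_option linter.unusedSectionVars false
set_option linter.unusedVariables false

namespace Pool.W7d29a1.C0.N14

open Finset Filter Topology MeasureTheory
open Pool.Agent.W_7d29a1_F Pool.Agent.W_7d29a1_C0 Pool.W7d29a1.C0 Pool.W7d29a1.C0.VT31
open Pool.Agent.W_7d29a1_H (EE EE_pos one_le_EE sl)
open Pool.Agent.W_7d29a1_HS (In wd)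
open Pool.Agent.W_7d29a1_HZ (wd')
open Pool.Agent.W_7d29a1_C0.Swap57 Pool.Agent.W_7d29a1_C0.Mod92 Pool.Agent.W_7d29a1_C0.H32 Pool.Agent.W_7d29a1_C0.Asm96
open Pool.Agent.W_7d29a1_C0.Frm33 Pool.Agent.W_7d29a1_C0.N38
open Pool.Agent.W_7d29a1_C0.Par92 (Est Sml)
open Pool.Agent.W_7d29a1_C0.PrT14 (bm_sec14)
open Pool.W7d29a1.C0.L38 Pool.W7d29a1.C0.PM14 Pool.W7d29a1.C0.NN1 Pool.W7d29a1.C0.H41

noncomputable section

/-- The gain at the frame. -/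
def Gf14 (μ : Measure ℝ) (s la ζ ι β : ℝ) (m p p' : ℕ) : ℝ :=
  Gn14 (((2 ^ m : ℕ) : ℝ) ^ la) (((2 ^ m : ℕ) : ℝ) ^ ζ * wd' μ s (2 ^ p')) (B33 β m) (2 ^ (p - ⌈ι * (m : ℝ)⌉₊)) (2 ^ p)

section Mod

variable {μ : Measure ℝ} [IsProbabilityMeasure μ] {s : ℝ} {N : ℕ} {Q : Finset (Finset ℕ)} [SwQ Q] [Nonempty (Px Q)]

theorem mf_X14 {δ B : ℝ} (hB : 0 ≤ B) {b0 b b' j : ℕ} {a : ℤ} (ha : |(a : ℝ)| ≤ 1) (G M t : ℝ) :
    MF (X14 μ s N Q δ B b0 b b' G M t j a) (G ^ 2 * B ^ 2 * (1 + 1) + 32 * B ^ 4 * (9 + 9)) :=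
  ((mf_ow14 b0 b b' j M).smul (by positivity)).add
    (((mf_sum fun i => mf_FR14 hB ha M t i).add (mf_sum fun i => mf_FL14 hB ha M t i)).smul (by positivity))

theorem bR_le14 {sl R : ℝ} {b0 b b' j : ℕ} {d : ℝ}
    (h : ∀ J : Finset ℕ, (∀ i ∈ J, j ≤ i ∧ i ≤ j + b') → ∀ u : ℕ,
      ∫ η, gm (lw μ s η N Q) (bd14 sl R (j + b') J (j + u) (j + b')) ∂(law μ) ≤ d) (hb : b ≤ b') (h0 : b0 ≤ b) :
    bR14 μ s N Q sl R b0 b b' j ≤ d + d := by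
  unfold bR14
  have hk := kn38_le b0 b
  refine add_le_add (h _ (fun i hi => ?_) _) (h _ (fun i hi => ?_) _)
  · unfold R1 at hi
    rw [mem_Ioc] at hi
    omega
  · unfold R2 at hi
    rw [mem_Ioc] at hi
    omega

theorem bL_le14 {sl R : ℝ} {b0 b b' j : ℕ} {d : ℝ}
    (h : ∀ J : Finset ℕ, (∀ i ∈ J, j - b' ≤ i ∧ i ≤ j) → ∀ u : ℕ,
      ∫ η, gm (lw μ s η N Q) (bd14 sl R (j - b') J (j - b') (j - u)) ∂(law μ) ≤ d) (hb : b ≤ b') (h0 : b0 ≤ b) :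
    bL14 μ s N Q sl R b0 b b' j ≤ d + d := by
  unfold bL14
  have hk := kn38_le b0 b
  refine add_le_add (h _ (fun i hi => ?_) _) (h _ (fun i hi => ?_) _)
  · unfold L1 at hi
    rw [mem_Ico] at hi
    omega
  · unfold L2 at hi
    rw [mem_Ico] at hi
    omega

end Mod

/-- `B e0 ≤ 2 tn`. -/
theorem e0_tn14 {B M : ℝ} (hB : 1 ≤ B) (hM : 4 * B ≤ M) (N : ℕ) :
    tn (B / 2) M N + (tn (B / 2) M N + B * (Real.exp (4 * B) * Real.exp (-(5 * M)))) ≤ 4 * tn (B / 2) M N := by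
  have h1 : Real.exp (4 * B) * Real.exp (-(5 * M)) ≤ Real.exp (-M) := by
    rw [← Real.exp_add]
    exact Real.exp_le_exp.2 (by linarith)
  have h2 : 2 * B * Real.exp (-M) ≤ tn (B / 2) M N := by
    unfold tn
    refine mul_le_mul_of_nonneg_right ?_ (Real.exp_pos _).le
    have : 0 ≤ 2 * (B / 2) * ((N : ℝ) + 2) ^ 3 := by positivity
    linarith
  have h3 : B * (Real.exp (4 * B) * Real.exp (-(5 * M))) ≤ B * Real.exp (-M) := mul_le_mul_of_nonneg_left h1 (by linarith)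
  have h4 : 0 ≤ B * Real.exp (-M) := by positivity
  linarith

theorem ev14 (A : ℝ) {g : ℝ} (hg : 0 < g) : ∀ᶠ m : ℕ in atTop, 4 * Real.exp (-(((2 ^ m : ℕ) : ℝ) ^ g)) ≤ ((2 ^ m : ℕ) : ℝ) ^ (-A) := by
  filter_upwards [absorb41 4 A one_pos hg] with m hm
  have hn1 : 1 ≤ ((2 ^ m : ℕ) : ℝ) := n_ge1 m
  have hn0 : 0 < ((2 ^ m : ℕ) : ℝ) := by linarith
  have h1 : Real.exp (-((2 ^ m : ℕ) : ℝ) ^ (g / 2)) ≤ 1 := Real.exp_le_one_iff.2 (by have := Real.rpow_nonneg hn0.le (g / 2); linarith)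
  rw [one_mul] at hm
  have h2 := hm.trans h1
  rw [Real.rpow_neg hn0.le, ← one_div, le_div_iff₀ (Real.rpow_pos_of_pos hn0 A)]
  calc _ = 4 * ((2 ^ m : ℕ) : ℝ) ^ A * Real.exp (-((2 ^ m : ℕ) : ℝ) ^ g) := by ring
    _ ≤ 1 := h2

theorem chg_le14 {E : ℕ → ℝ} {Θ δ c η : ℝ} {m p p' q : ℕ} (h : Chg96 E Θ δ c η m p p' q) (hc : 0 ≤ c) (hη : 0 ≤ η) :
    sg96 E c m p' ≤ q ∧ q ≤ m := by
  have hm : (0 : ℝ) ≤ m := Nat.cast_nonneg _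
  have h1 := h.hqm
  have h2 : 0 ≤ η * (m : ℝ) := mul_nonneg hη hm
  have h3 : (q : ℝ) ≤ m := by linarith
  have h4 := h.hsq'
  have h5 : 0 ≤ c * (m : ℝ) := mul_nonneg hc hm
  have h6 : (sg96 E c m p' : ℝ) ≤ q := by linarith
  exact ⟨by exact_mod_cast h6, by exact_mod_cast h3⟩

section Frame

variable {μ : Measure ℝ} [IsProbabilityMeasure μ] {s : ℝ} {f f' : ℝ → ℝ}

/-- **THE THIRD ORDER CUMULANT OF A ROW BY THE LINES, AT THE FRAME.** -/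
theorem hrow14 {c₁ C : ℝ} {n₀ : ℕ} (hd : DenLaw μ f f') (h : In μ s c₁ C n₀) (hk : KapLe96 (EE μ s) (1 / 4)) {K : ℕ} (hK : 32 ≤ K)
    {c₀ Θ δ c η : ℝ} (hR : RegP46 μ s c₀ Θ) (hδ : 0 < δ) (hc : 0 < c) (hcδ : c ≤ δ / 64) (hη : 0 ≤ η)
    {la ζ κ : ℝ} (hla : 0 < la) (hζ : 0 < ζ) (hκ : 0 < κ) (hs : 2 * la + ζ ≤ c / 4) (A : ℝ) :
    Est fun ι β γ m => ∀ p p' q i : ℕ, Chg96 (EE μ s) Θ δ c η m p p' q → i < 2 ^ (m - q) → ∀ t ∈ Set.Icc (-1 : ℝ) 1,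
      ∀ j ∈ Rw (R33 ι m) (i * 2 ^ q) ((i + 1) * 2 ^ q), ∀ y ∈ ys33 μ s K m, ∀ (_ : Nonempty (Px (Pn (L33 K m) y))) (S0 : Finset ℕ)
      (Yf : Env → Px (Pn (L33 K m) y) → ℝ) (L : ℝ), 0 ≤ L → Psg (L33 K m) (2 ^ (p - ⌈ι * (m : ℝ)⌉₊)) (2 ^ p) (2 ^ p') j Yf L →
      |X38 μ s (L33 K m) (Pn (L33 K m) y) γ (B33 β m) (2 ^ (p - ⌈ι * (m : ℝ)⌉₊)) (2 ^ p) (2 ^ p') j (Mod92.sg S0 j) Yf t| ≤
        ∫ η, gm (lw μ s η (L33 K m) (Pn (L33 K m) y)) (fun S => X14 μ s (L33 K m) (Pn (L33 K m) y) γ (B33 β m)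
          (2 ^ (p - ⌈ι * (m : ℝ)⌉₊)) (2 ^ p) (2 ^ p') (Gf14 μ s la ζ ι β m p p') (((2 ^ m : ℕ) : ℝ) ^ κ) t j (Mod92.sg S0 j) η S *
          |Yf η S|) ∂(law μ) + L * ((2 ^ m : ℕ) : ℝ) ^ (-A) := by
  obtain ⟨K₁, θ₀, hsg⟩ := hd.sg
  have hK1 : 0 < K₁ := hsg.2.1
  have hθ0 : 0 < θ₀ := hsg.2.2.1
  have hθ : 0 < min 1 θ₀ := lt_min one_pos hθ0
  obtain ⟨c2, hc2, hbd⟩ := bdF14 h hK hζ
  refine ⟨δ / 16, by positivity, fun ι hι hιδ => ⟨min (min (κ / 2) (c2 / 2)) (c / 32), by positivity, fun β hβ hβ' => Sml.of fun γ hγ => ?_⟩⟩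
  have hβκ : β < κ := by
    have := hβ'.trans ((min_le_left _ _).trans (min_le_left _ _))
    linarith
  have hβc : β < c2 := by
    have := hβ'.trans ((min_le_left _ _).trans (min_le_right _ _))
    linarith
  have hβ2 : β ≤ c / 32 := hβ'.trans (min_le_right _ _)
  obtain ⟨x, hx, hex⟩ := err41 K hκ hc2 hβ.le hβκ.le hβc
  filter_upwards [geo41 hδ hι (show ι ≤ δ / 2 by linarith), rows41 h hk (K := K) (by omega) (Θ := Θ) hδ hc.le hcδ hη hιδ,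
    gainF41 hR (la := la) (ζ := ζ) (β := β) (ε' := 0) hδ hc hcδ hη hβ.le le_rfl (by linarith),
    tl41 h K (la := la) (ζ := ζ) (β := β) (K₁ := K₁) (θ := min 1 θ₀) hla hζ.le hβ.le hθ, hex, hbd,
    ev_n (show 0 < κ - β by linarith) 4, ev14 A hx, ev14 A (show 0 < la / 2 by positivity)] with m h1 h2 h3 h4 h5 h6 h7 h8 h9
  intro p p' q i hC hi t ht j hj y hy hne S0 Yf L hL hY
  have := hne
  obtain ⟨hsq', hqm⟩ := chg_le14 hC hc.le hη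
  have hpm : p' ≤ m := hC.hps'.trans (hsq'.trans hqm)
  obtain ⟨g1, g2, g3, g4, g5, g6⟩ := h1 p hC.hp
  obtain ⟨r1, r2, r3, r4, r5, r6⟩ := h2 p p' q i hC hi j hj
  obtain ⟨G1, -⟩ := h3 p p' q hC (kn38 (2 ^ (p - ⌈ι * (m : ℝ)⌉₊)) (2 ^ p)) g4
  have hG1 : Gf14 μ s la ζ ι β m p p' ≤ 1 := G1
  have h4' := h4 p' hpm L hL
  have hn1 : 1 ≤ ((2 ^ m : ℕ) : ℝ) := n_ge1 m
  have hn0 : 0 < ((2 ^ m : ℕ) : ℝ) := by linarith
  have hB1 : 1 ≤ B33 β m := Real.one_le_rpow hn1 hβ.le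
  have hM : 4 * B33 β m ≤ ((2 ^ m : ℕ) : ℝ) ^ κ := by
    have e : ((2 ^ m : ℕ) : ℝ) ^ κ = ((2 ^ m : ℕ) : ℝ) ^ (κ - β) * ((2 ^ m : ℕ) : ℝ) ^ β := by
      rw [← Real.rpow_add hn0]
      congr 1
      ring
    rw [e]
    exact mul_le_mul_of_nonneg_right h7 (Real.rpow_nonneg hn0.le _)
  have hw1 : 1 ≤ wd' μ s (2 ^ p') := le_max_left _ _
  have hR1 : 1 ≤ ((2 ^ m : ℕ) : ℝ) ^ ζ * wd' μ s (2 ^ p') := by
    have := Real.one_le_rpow hn1 hζ.le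
    nlinarith
  have hpp : 2 ^ p ≤ 2 ^ p' := Nat.pow_le_pow_right two_pos hC.hpp
  have ha : |((Mod92.sg S0 j : ℤ) : ℝ)| ≤ 1 := (Mod92.abs_sg S0 j).le
  have ht' : |t| ≤ 1 := abs_le.2 ht
  have key := abs_X38_le14 (μ := μ) (s := s) (N := L33 K m) (Q := Pn (L33 K m) y) (δ := γ) (sl := sl μ s) (K := K₁) (θ0 := θ₀) hd hsg hK1.le
    (Blk18.full_Pn _ _) (y := (y : ℤ)) (fun S => ps_Pn S) hB1 g2 hpp r3.le r4.le ha ht' hY hR1 hθ (min_le_left _ _) (min_le_right _ _)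
    (Real.rpow_nonneg hn0.le la) (show Gn14 _ _ _ _ _ ≤ 1 from hG1) hM
  have hbR : bR14 μ s (L33 K m) (Pn (L33 K m) y) (sl μ s) (((2 ^ m : ℕ) : ℝ) ^ ζ * wd' μ s (2 ^ p')) (2 ^ (p - ⌈ι * (m : ℝ)⌉₊)) (2 ^ p)
      (2 ^ p') j ≤ Real.exp (-(((2 ^ m : ℕ) : ℝ) ^ c2)) + Real.exp (-(((2 ^ m : ℕ) : ℝ) ^ c2)) := by
    refine bR_le14 (fun J hJ u => h6 y hy hne p' J (j + u) (j + 2 ^ p') j (j + 2 ^ p') (j + 2 ^ p') (fun i hi => ?_) (by omega) le_rfl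
      r4.le le_rfl) hpp (by omega)
    rw [mem_union, mem_Icc] at hi
    rcases hi with hi | hi
    · exact hJ i hi
    · omega
  have hbL : bL14 μ s (L33 K m) (Pn (L33 K m) y) (sl μ s) (((2 ^ m : ℕ) : ℝ) ^ ζ * wd' μ s (2 ^ p')) (2 ^ (p - ⌈ι * (m : ℝ)⌉₊)) (2 ^ p)
      (2 ^ p') j ≤ Real.exp (-(((2 ^ m : ℕ) : ℝ) ^ c2)) + Real.exp (-(((2 ^ m : ℕ) : ℝ) ^ c2)) := by
    refine bL_le14 (fun J hJ u => h6 y hy hne p' J (j - 2 ^ p') (j - u) (j - 2 ^ p') j (j - 2 ^ p') (fun i hi => ?_) le_rfl (by omega)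
      (by omega) (by omega)) hpp (by omega)
    rw [mem_union, mem_Icc] at hi
    rcases hi with hi | hi
    · exact hJ i hi
    · omega
  have hE : ∀ bd : ℝ, bd ≤ Real.exp (-(((2 ^ m : ℕ) : ℝ) ^ c2)) + Real.exp (-(((2 ^ m : ℕ) : ℝ) ^ c2)) →
      32 * B33 β m ^ 4 * (L * er14 (B33 β m) (((2 ^ m : ℕ) : ℝ) ^ κ) bd (L33 K m)) ≤ L * Real.exp (-((2 ^ m : ℕ) : ℝ) ^ x) := by
    intro bd hbd'
    have e1 := h5 _ _ _ _ _ le_rfl (e0_tn14 hB1 hM (L33 K m)) le_rfl le_rfl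
    have e2 : er14 (B33 β m) (((2 ^ m : ℕ) : ℝ) ^ κ) bd (L33 K m) ≤
        7 * (Real.exp (4 * B33 β m) * Real.exp (-(5 * ((2 ^ m : ℕ) : ℝ) ^ κ))) + tn (B33 β m / 2) (((2 ^ m : ℕ) : ℝ) ^ κ) (L33 K m) +
          (tn (B33 β m / 2) (((2 ^ m : ℕ) : ℝ) ^ κ) (L33 K m) +
            B33 β m * (Real.exp (4 * B33 β m) * Real.exp (-(5 * ((2 ^ m : ℕ) : ℝ) ^ κ)))) +
          15 * Real.exp (2 * B33 β m) * (Real.exp (-(((2 ^ m : ℕ) : ℝ) ^ c2)) + Real.exp (-(((2 ^ m : ℕ) : ℝ) ^ c2))) := by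
      unfold er14
      have := mul_le_mul_of_nonneg_left hbd' (show 0 ≤ 15 * Real.exp (2 * B33 β m) by positivity)
      linarith
    have hB4 : 0 ≤ 32 * B33 β m ^ 4 := by positivity
    calc 32 * B33 β m ^ 4 * (L * er14 (B33 β m) (((2 ^ m : ℕ) : ℝ) ^ κ) bd (L33 K m))
        = L * (32 * B33 β m ^ 4 * er14 (B33 β m) (((2 ^ m : ℕ) : ℝ) ^ κ) bd (L33 K m)) := by ring
      _ ≤ L * Real.exp (-((2 ^ m : ℕ) : ℝ) ^ x) := mul_le_mul_of_nonneg_left ((mul_le_mul_of_nonneg_left e2 hB4).trans e1) hL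
  refine key.trans (add_le_add le_rfl ?_)
  have e1 := hE _ hbR
  have e2 := hE _ hbL
  have e3 : L * (4 * Real.exp (-(((2 ^ m : ℕ) : ℝ) ^ x))) ≤ L * ((2 ^ m : ℕ) : ℝ) ^ (-A) := mul_le_mul_of_nonneg_left h8 hL
  have e4 : L * (4 * Real.exp (-(((2 ^ m : ℕ) : ℝ) ^ (la / 2)))) ≤ L * ((2 ^ m : ℕ) : ℝ) ^ (-A) := mul_le_mul_of_nonneg_left h9 hL
  linarith

end Frame

end

end Pool.W7d29a1.C0.N14
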