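import Pool.Agent.W_7d29a1_C0.PrI46
import Pool.Agent.W_7d29a1_C0.PrU14

/-!
MP_7d29a1_pr, [CURV0], leaf E5 / N1B (helper14): THE MEAN OF FINITELY MANY LINES HAS THE SAME PRICE (`Pr46.avg14`), without any loss in the
numbers.
-/

set_option autoImplicit false
set_option linter.unusedSectionVars false
set_option linter.unusedVariables false
set_option linter.dupNamespace false

namespace Pool.Agent.W_7d29a1_C0.Pr46

open Finset MeasureTheory Filter Topology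
open Pool.Agent.W_7d29a1_F Pool.Agent.W_7d29a1_X
open Pool.Agent.W_7d29a1_C0 Pool.Agent.W_7d29a1_C0.Mod92 Pool.Agent.W_7d29a1_C0.Asm96
open Pool.Agent.W_7d29a1_C0.N38 (av BM BM.add BM.mul BM.abs BM.sum BM.zero BM.smul BM.sq)
open Pool.Agent.W_7d29a1_C0.NTop23 (avF)
open Pool.Agent.W_7d29a1_C0.PrT14 (avF_sum14 avF_sq_sum14)

noncomputable section

variable {μ : Measure ℝ} [IsProbabilityMeasure μ] {s : ℝ} {F : Frm96} {E : ℕ → ℝ} {Θ c : ℝ} {m p p' q i : ℕ} {x A : ℝ}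

/-- **THE MEAN OF FINITELY MANY LINES.** -/
theorem Pr46.avg14 (hy : ∀ y ∈ F.ys m, y ≤ F.L m) (hE : ∀ n, 0 < E n) {ι : Type*} {I : Finset ι} (hI : I.Nonempty)
    {Lf : ι → ℝ → ℕ → Wt46 F m → ℝ} (h : ∀ a ∈ I, Pr46 μ s F E Θ c m p p' q i x A (Lf a)) :
    Pr46 μ s F E Θ c m p p' q i x A fun t j D => (I.card : ℝ)⁻¹ * ∑ a ∈ I, Lf a t j D := by
  have hX : ∀ y ∈ F.ys m, Nonempty (Px (Pn (F.L m) y)) := fun y hh => ne_Pn (hy y hh)
  have hn : (0 : ℝ) < ((2 ^ m : ℕ) : ℝ) := by positivity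
  have i1 := hE (2 ^ q)
  have i2 := hE (2 ^ p)
  have hc0 : (0 : ℝ) < I.card := by exact_mod_cast hI.card_pos
  unfold Pr46 at h
  choose! Bl g A₂ T e hN hB hS using h
  obtain ⟨g', hg'⟩ : ∃ g', g' = ((2 ^ m : ℕ) : ℝ) ^ (-(c / 16) - x) / E (2 ^ q) := ⟨_, rfl⟩
  obtain ⟨A', hA'⟩ : ∃ A', A' = ((2 ^ m : ℕ) : ℝ) ^ (c / 32 - x) / E (2 ^ p) := ⟨_, rfl⟩
  obtain ⟨T', hT'⟩ : ∃ T' : ℝ, T' = 2 ^ q * (E (2 ^ q) * ((2 ^ m : ℕ) : ℝ) ^ (Θ - c / 16 - x)) := ⟨_, rfl⟩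
  obtain ⟨e', he'⟩ : ∃ e', e' = ((2 ^ m : ℕ) : ℝ) ^ (-A) := ⟨_, rfl⟩
  have hl : (0 : ℝ) ≤ ((2 ^ (p' - 6) : ℕ) : ℝ) := Nat.cast_nonneg _
  refine ⟨fun k y ω S => (I.card : ℝ)⁻¹ * ∑ a ∈ I, Bl a k y ω S, g', A', T', e',
    ⟨by rw [hg']; positivity, hg'.le, by rw [hA']; positivity, hA'.le, by rw [hT']; positivity, hT'.le, by rw [he']; positivity, he'.le⟩,
    ⟨fun k => BM.smul (BM.sum I fun a ha => (hB a ha).bm k) _, fun k y hy' ω S => mul_nonneg (by positivity)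
      (sum_nonneg fun a ha => (hB a ha).nn k y hy' ω S), ?_, fun k => ?_⟩, fun t ht k D Mh hD => ?_⟩
  · have e1 : (fun (y : ℕ) (ω : Env × Finset ℕ) (S : Px (Pn (F.L m) y)) =>
        (∑ k ∈ (rw46 F m q i).image fun j => j / 2 ^ (p' - 6), (I.card : ℝ)⁻¹ * ∑ a ∈ I, Bl a k y ω S) ^ 2) =
        fun y ω S => (I.card : ℝ)⁻¹ ^ 2 * (∑ a ∈ I, ∑ k ∈ (rw46 F m q i).image fun j => j / 2 ^ (p' - 6), Bl a k y ω S) ^ 2 := by
      funext y ω S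
      rw [← mul_sum, mul_pow, sum_comm]
    rw [e1, avF_smul hy]
    have h1 := avF_sq_sum14 (μ := μ) (s := s) hX I (f := fun a y ω S => ∑ k ∈ (rw46 F m q i).image fun j => j / 2 ^ (p' - 6), Bl a k y ω S)
      (fun a ha => BM.sum _ fun k _ => (hB a ha).bm k) (A := T') fun a ha => ((hB a ha).tot).trans ((hN a ha).T1.trans hT'.ge)
    calc _ ≤ (I.card : ℝ)⁻¹ ^ 2 * ((I.card : ℝ) ^ 2 * T') := mul_le_mul_of_nonneg_left h1 (by positivity)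
      _ = T' := by
          rw [← mul_assoc, ← mul_pow, inv_mul_cancel₀ hc0.ne', one_pow, one_mul]
  · have e1 : (fun (y : ℕ) (ω : Env × Finset ℕ) (S : Px (Pn (F.L m) y)) => ((I.card : ℝ)⁻¹ * ∑ a ∈ I, Bl a k y ω S) ^ 2) =
        fun y ω S => (I.card : ℝ)⁻¹ ^ 2 * (∑ a ∈ I, Bl a k y ω S) ^ 2 := by
      funext y ω S
      rw [mul_pow]
    rw [e1, avF_smul hy]
    have h1 := avF_sq_sum14 (μ := μ) (s := s) hX I (f := fun a => Bl a k) (fun a ha => (hB a ha).bm k)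
      (A := ((2 ^ (p' - 6) : ℕ) : ℝ) ^ 2 * A') fun a ha => ((hB a ha).one k).trans
        (mul_le_mul_of_nonneg_left ((hN a ha).A1.trans hA'.ge) (by positivity))
    calc _ ≤ (I.card : ℝ)⁻¹ ^ 2 * ((I.card : ℝ) ^ 2 * (((2 ^ (p' - 6) : ℕ) : ℝ) ^ 2 * A')) := mul_le_mul_of_nonneg_left h1 (by positivity)
      _ = ((2 ^ (p' - 6) : ℕ) : ℝ) ^ 2 * A' := by
          rw [← mul_assoc, ← mul_pow, inv_mul_cancel₀ hc0.ne', one_pow, one_mul]
  · have hDa : BM (F.ys m) fun y ω S => |D y ω S| := hD.bm.abs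
    have hD0 : 0 ≤ avF μ s F m (fun y ω S => |D y ω S|) := avF_nonneg hy fun y _ ω S => abs_nonneg _
    have e1 : avF μ s F m (fun y ω S => (I.card : ℝ)⁻¹ * (∑ a ∈ I, Bl a k y ω S) * |D y ω S|) =
        (I.card : ℝ)⁻¹ * ∑ a ∈ I, avF μ s F m (fun y ω S => Bl a k y ω S * |D y ω S|) := by
      rw [← avF_sum14 hX I fun a ha => ((hB a ha).bm k).mul hDa, ← avF_smul hy]
      congr 1
      funext y ω S
      rw [mul_assoc, sum_mul]
    rw [e1, ← mul_sum, sum_comm]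
    have h1 : ∑ a ∈ I, ∑ j ∈ st46 F m q i (2 ^ (p' - 6)) k, Lf a t j D ≤
        ∑ a ∈ I, (((2 ^ (p' - 6) : ℕ) : ℝ) * g' * avF μ s F m (fun y ω S => |D y ω S|) +
          avF μ s F m (fun y ω S => Bl a k y ω S * |D y ω S|) + Mh * e') := by
      refine sum_le_sum fun a ha => (hS a ha t ht k D Mh hD).trans ?_
      have h2 : ((2 ^ (p' - 6) : ℕ) : ℝ) * g a * avF μ s F m (fun y ω S => |D y ω S|) ≤
          ((2 ^ (p' - 6) : ℕ) : ℝ) * g' * avF μ s F m (fun y ω S => |D y ω S|) :=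
        mul_le_mul_of_nonneg_right (mul_le_mul_of_nonneg_left ((hN a ha).g1.trans hg'.ge) hl) hD0
      have h3 : Mh * e a ≤ Mh * e' := mul_le_mul_of_nonneg_left ((hN a ha).e1.trans he'.ge) hD.pos.le
      linarith
    refine (mul_le_mul_of_nonneg_left h1 (inv_nonneg.2 hc0.le)).trans (le_of_eq ?_)
    rw [sum_add_distrib, sum_add_distrib, sum_const, sum_const, nsmul_eq_mul, nsmul_eq_mul]
    field_simp

end

end Pool.Agent.W_7d29a1_C0.Pr46
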