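import Pool.Agent.W_7d29a1_C0.N1R14
import Pool.Agent.W_7d29a1_C0.PrV14

/-!
MP_7d29a1_pr, [CURV0], leaf E5.8 / N1B (helper14): THE LINES `5, …, 8` FROM THEIR PRICES AT A FIXED START. `oR14`, `oL14` = own tie times the
long tie told from one row `r = j + b0 + d` resp. `r = j - b0 - d`; `PLd14` = their price, uniformly in the distance `d`; `pl58_14` = the
price of the lines `5, …, 8`, which are the means over `d`.
-/

set_option autoImplicit false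
set_option linter.unusedSectionVars false
set_option linter.unusedVariables false

namespace Pool.W7d29a1.C0.N14

open Finset Filter Topology MeasureTheory
open Pool.Agent.W_7d29a1_F Pool.Agent.W_7d29a1_C0 Pool.W7d29a1.C0 Pool.W7d29a1.C0.VT31
open Pool.Agent.W_7d29a1_H (EE EE_pos one_le_EE sl)
open Pool.Agent.W_7d29a1_HS (In wd)
open Pool.Agent.W_7d29a1_C0.Swap57 Pool.Agent.W_7d29a1_C0.Mod92 Pool.Agent.W_7d29a1_C0.H32 Pool.Agent.W_7d29a1_C0.Asm96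
open Pool.Agent.W_7d29a1_C0.Frm33 Pool.Agent.W_7d29a1_C0.N38
open Pool.Agent.W_7d29a1_C0.Par92 (Est Sml)
open Pool.Agent.W_7d29a1_C0.Pr46 Pool.Agent.W_7d29a1_C0.N1E19 Pool.Agent.W_7d29a1_C0.NTop23
open Pool.Agent.W_7d29a1_C0.PrT14 (avF_sum14)
open Pool.W7d29a1.C0.R43 (Tau mI mI_nonneg)
open Pool.W7d29a1.C0.S1 (i1 i1_nonneg i1_of i1_not cE_const osc)
open Pool.W7d29a1.C0.L38 Pool.W7d29a1.C0.PM14 Pool.W7d29a1.C0.NN1 Pool.W7d29a1.C0.H41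

noncomputable section

/-- The own tie: its mass (`fm = true`) or the pair (`fm = false`), times a factor. -/
def ob14 {Q : Finset (Finset ℕ)} (fm : Bool) (w wi : Px Q → ℝ) (p : Px Q → Finset ℕ × ℕ) (o0 o1 : ℕ) (M : ℝ) (F : Px Q → ℝ) (x : Px Q) : ℝ :=
  if fm then oml w wi p o0 o1 M F x else otl w wi p o0 o1 M F x

section Defs

variable (μ : Measure ℝ) (s : ℝ) (fm : Bool) (d : ℕ) (F : Frm96) (m p p' : ℕ)

/-- Own tie on the right times the long tie told from the row `j + b0 + d`. -/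
def oR14 (M t : ℝ) (y : ℕ) (ω : Env × Finset ℕ) (j : ℕ) (S : Px (Pn (F.L m) y)) : ℝ :=
  ob14 fm (lw μ s ω.1 (F.L m) (Pn (F.L m) y)) (wi38 μ s (F.L m) (Pn (F.L m) y) F.dl (F.B m) (F.b0 m p) j (Mod92.sg ω.2 j) t ω.1)
    (pJ (j - 2 ^ p') (j + 2 ^ p')) (j + F.b0 m p) (j + 2 ^ p) M
    (mlo (lw μ s ω.1 (F.L m) (Pn (F.L m) y)) (pJ 0 (j + F.b0 m p + d)) (j - 2 ^ p) (j - F.b0 m p) M) S

/-- Own tie on the left times the long tie told from the row `j - b0 - d`. -/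
def oL14 (M t : ℝ) (y : ℕ) (ω : Env × Finset ℕ) (j : ℕ) (S : Px (Pn (F.L m) y)) : ℝ :=
  ob14 fm (lw μ s ω.1 (F.L m) (Pn (F.L m) y)) (wi38 μ s (F.L m) (Pn (F.L m) y) F.dl (F.B m) (F.b0 m p) j (Mod92.sg ω.2 j) t ω.1)
    (pJ (j - 2 ^ p') (j + 2 ^ p')) (j - 2 ^ p) (j - F.b0 m p) M
    (mlo (lw μ s ω.1 (F.L m) (Pn (F.L m) y)) (pJ (j - F.b0 m p - d) (F.L m)) (j + F.b0 m p) (j + 2 ^ p) M) S

end Defs

/-- **The price of a family with a distance `d`**, uniformly for `0 < d ≤ 4 k`. -/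
def PLd14 (μ : Measure ℝ) (s : ℝ) (K : ℕ) (Θ δ c η : ℝ)
    (Xf : ℕ → (F : Frm96) → (m p p' : ℕ) → ℝ → ℝ → (y : ℕ) → Env × Finset ℕ → ℕ → Px (Pn (F.L m) y) → ℝ) : Prop :=
  ∃ κ : ℝ, 0 < κ ∧ ∀ κ' : ℝ, 0 < κ' → κ' ≤ κ → ∃ x : ℝ, 0 < x ∧ Est fun ι β γ m => ∀ p p' q i : ℕ, Chg96 (EE μ s) Θ δ c η m p p' q → p < p' →
    i < 2 ^ (m - q) → ∀ d : ℕ, 0 < d → d ≤ 4 * kn38 (2 ^ (p - ⌈ι * (m : ℝ)⌉₊)) (2 ^ p) → Pr46 μ s (frm33 μ s K ι β γ) (EE μ s) Θ c m p p' q i x (7 / 2)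
      (Lf19 μ s (frm33 μ s K ι β γ) m (Xf d (frm33 μ s K ι β γ) m p p' (((2 ^ m : ℕ) : ℝ) ^ κ')))

/-- The mean over an interval of starts on the right. -/
theorem meanR14 {b0 j a b : ℕ} (f : ℕ → ℝ) :
    ((Ioc (j + b0 + a) (j + b0 + b)).card : ℝ)⁻¹ * ∑ r ∈ Ioc (j + b0 + a) (j + b0 + b), f r =
      ((Ioc a b).card : ℝ)⁻¹ * ∑ d ∈ Ioc a b, f (j + b0 + d) := by
  have e : Ioc (j + b0 + a) (j + b0 + b) = (Ioc a b).map (addLeftEmbedding (j + b0)) := (Finset.map_add_left_Ioc a b (j + b0)).symm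
  rw [e, card_map, sum_map]
  rfl

/-- The mean over an interval of starts on the left. -/
theorem meanL14 {b0 j a b : ℕ} (h : b0 + b ≤ j) (f : ℕ → ℝ) :
    ((Ico (j - b0 - b) (j - b0 - a)).card : ℝ)⁻¹ * ∑ r ∈ Ico (j - b0 - b) (j - b0 - a), f r =
      ((Ioc a b).card : ℝ)⁻¹ * ∑ d ∈ Ioc a b, f (j - b0 - d) := by
  have e : ∑ r ∈ Ico (j - b0 - b) (j - b0 - a), f r = ∑ d ∈ Ioc a b, f (j - b0 - d) := by
    refine sum_bij' (fun r _ => j - b0 - r) (fun d _ => j - b0 - d) (fun r hr => ?_) (fun d hd => ?_) (fun r hr => ?_) (fun d hd => ?_)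
      fun r hr => ?_
    · rw [mem_Ico] at hr
      rw [mem_Ioc]
      omega
    · rw [mem_Ioc] at hd
      rw [mem_Ico]
      omega
    · rw [mem_Ico] at hr
      omega
    · rw [mem_Ioc] at hd
      omega
    · rw [mem_Ico] at hr
      congr 1
      omega
  rw [e, Nat.card_Ico, Nat.card_Ioc]
  by_cases hab : a ≤ b
  · congr 3
    omega
  · have : Ioc a b = ∅ := Ioc_eq_empty_of_le (by omega)
    rw [this]
    simp

section BMs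

variable {μ : Measure ℝ} [IsProbabilityMeasure μ] {s : ℝ} {F : Frm96} {m : ℕ}

theorem mf_ob14 {Q : Finset (Finset ℕ)} [SwQ Q] [Nonempty (Px Q)] {w wi : Env → Px Q → ℝ} (fm : Bool) (mw : ∀ x, Measurable fun η => w η x)
    (mi : ∀ x, Measurable fun η => wi η x) (p : Px Q → Finset ℕ × ℕ) (U V : ℕ) (M : ℝ) {F : Env → Px Q → ℝ} (hF : MF F 1) :
    MF (fun η x => ob14 fm (w η) (wi η) p U V M (F η) x) (1 * 1) := by
  cases fm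
  · exact mf_otl mw mi p U V M hF
  · exact mf_oml mw mi p U V M hF

theorem bm_oR14 (hy : ∀ y ∈ F.ys m, y ≤ F.L m) (hB : 0 ≤ F.B m) (fm : Bool) (d p p' : ℕ) (M t : ℝ) (j : ℕ) :
    BM (F.ys m) fun y ω S => oR14 μ s fm d F m p p' M t y ω j S := by
  refine bm_mf14 (D := 1 * 1) (f := fun y A η S => ob14 fm (lw μ s η (F.L m) (Pn (F.L m) y))
    (wi38 μ s (F.L m) (Pn (F.L m) y) F.dl (F.B m) (F.b0 m p) j (Mod92.sg A j) t η) (pJ (j - 2 ^ p') (j + 2 ^ p')) (j + F.b0 m p) (j + 2 ^ p) M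
    (mlo (lw μ s η (F.L m) (Pn (F.L m) y)) (pJ 0 (j + F.b0 m p + d)) (j - 2 ^ p) (j - F.b0 m p) M) S) fun y h A => ?_
  have := ne_Pn (hy y h)
  exact mf_ob14 fm (fun x => meas_lw x) (meas_wi38 hB F.dl (F.b0 m p) j (Mod92.abs_sg A j).le t) _ _ _ _
    (mf_own (fun x => meas_lw x) _ _ _ _)

theorem bm_oL14 (hy : ∀ y ∈ F.ys m, y ≤ F.L m) (hB : 0 ≤ F.B m) (fm : Bool) (d p p' : ℕ) (M t : ℝ) (j : ℕ) :
    BM (F.ys m) fun y ω S => oL14 μ s fm d F m p p' M t y ω j S := by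
  refine bm_mf14 (D := 1 * 1) (f := fun y A η S => ob14 fm (lw μ s η (F.L m) (Pn (F.L m) y))
    (wi38 μ s (F.L m) (Pn (F.L m) y) F.dl (F.B m) (F.b0 m p) j (Mod92.sg A j) t η) (pJ (j - 2 ^ p') (j + 2 ^ p')) (j - 2 ^ p) (j - F.b0 m p) M
    (mlo (lw μ s η (F.L m) (Pn (F.L m) y)) (pJ (j - F.b0 m p - d) (F.L m)) (j + F.b0 m p) (j + 2 ^ p) M) S) fun y h A => ?_
  have := ne_Pn (hy y h)
  exact mf_ob14 fm (fun x => meas_lw x) (meas_wi38 hB F.dl (F.b0 m p) j (Mod92.abs_sg A j).le t) _ _ _ _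
    (mf_own (fun x => meas_lw x) _ _ _ _)

end BMs

section Main

variable {μ : Measure ℝ} [IsProbabilityMeasure μ] {s : ℝ}

/-- **The mean over the starts.** -/
theorem pls_mean14 {c₁ C : ℝ} {n₀ : ℕ} (h : In μ s c₁ C n₀) (hk : KapLe96 (EE μ s) (1 / 4)) {K : ℕ} (hK : 32 ≤ K)
    {Θ δ c η : ℝ} (hδ : 0 < δ) (hc : 0 < c) (hcδ : c ≤ δ / 64) (hη : 0 ≤ η) {u : ℕ} (hu : u = 2 ∨ u = 3)
    {Xf : ℕ → (F : Frm96) → (m p p' : ℕ) → ℝ → ℝ → (y : ℕ) → Env × Finset ℕ → ℕ → Px (Pn (F.L m) y) → ℝ}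
    {X : (F : Frm96) → (m p p' : ℕ) → ℝ → ℝ → (y : ℕ) → Env × Finset ℕ → ℕ → Px (Pn (F.L m) y) → ℝ} (H : PLd14 μ s K Θ δ c η Xf)
    (hbm : ∀ (F : Frm96) (m p p' : ℕ) (M t : ℝ) (d j : ℕ), (∀ y ∈ F.ys m, y ≤ F.L m) → 0 ≤ F.B m →
      BM (F.ys m) fun y ω S => Xf d F m p p' M t y ω j S)
    (heq : ∀ (F : Frm96) (m p p' : ℕ) (M t : ℝ) (j : ℕ), F.b0 m p + 4 * kn38 (F.b0 m p) (2 ^ p) ≤ j → ∀ y ω S,
      X F m p p' M t y ω j S = ((Ioc (u * kn38 (F.b0 m p) (2 ^ p)) ((u + 1) * kn38 (F.b0 m p) (2 ^ p))).card : ℝ)⁻¹ *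
        ∑ d ∈ Ioc (u * kn38 (F.b0 m p) (2 ^ p)) ((u + 1) * kn38 (F.b0 m p) (2 ^ p)), Xf d F m p p' M t y ω j S) :
    PLs14 μ s K Θ δ c η X := by
  obtain ⟨κ, hκ, H⟩ := H
  refine ⟨κ, hκ, fun κ' h1 h2 => ?_⟩
  obtain ⟨x, hx, H⟩ := H κ' h1 h2
  refine ⟨x, hx, ?_⟩
  have Eι : Est fun ι _ _ _ => ι ≤ δ / 16 := Est.iota (Sml.le (by positivity))
  refine (H.and Eι).mono fun ι β γ hι hβ _ => ?_
  by_cases hι2 : ι ≤ δ / 16
  swap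
  · exact Eventually.of_forall fun m hh => absurd hh.2 hι2
  filter_upwards [geo41 hδ hι (show ι ≤ δ / 2 by linarith), rows41 h hk (K := K) (by omega) (Θ := Θ) hδ hc.le hcδ hη hι2] with m hg hr hh
  intro p p' q i hC hpp hi
  obtain ⟨g1, g2, g3, g4, g5, g6⟩ := hg p hC.hp
  have hn1 : 1 ≤ ((2 ^ m : ℕ) : ℝ) := n_ge1 m
  have hys : ∀ y ∈ (frm33 μ s K ι β γ).ys m, y ≤ (frm33 μ s K ι β γ).L m := hy33 (by omega) m
  have hB0 : 0 ≤ (frm33 μ s K ι β γ).B m := Real.rpow_nonneg (by linarith) _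
  have hX : ∀ y ∈ (frm33 μ s K ι β γ).ys m, Nonempty (Px (Pn ((frm33 μ s K ι β γ).L m) y)) := fun y hh => ne_Pn (hys y hh)
  obtain ⟨k, hk'⟩ : ∃ k, k = kn38 (2 ^ (p - ⌈ι * (m : ℝ)⌉₊)) (2 ^ p) := ⟨_, rfl⟩
  rw [← hk'] at g4 g5 g6
  have hne : (Ioc (u * k) ((u + 1) * k)).Nonempty := by
    rw [nonempty_Ioc]
    nlinarith
  have h3 := Pr46.avg14 (μ := μ) (s := s) hys (fun n => EE_pos n) hne (E := EE μ s) (Θ := Θ) (c := c) (p := p) (p' := p') (q := q) (i := i)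
    (x := x) (A := 7 / 2) (Lf := fun d => Lf19 μ s (frm33 μ s K ι β γ) m (Xf d (frm33 μ s K ι β γ) m p p' (((2 ^ m : ℕ) : ℝ) ^ κ')))
    fun d hd => by
      rw [mem_Ioc] at hd
      have hd4 : d ≤ 4 * k := by
        rcases hu with rfl | rfl
        · omega
        · omega
      have hd0 : 0 < d := by omega
      exact hh.1 p p' q i hC hpp hi d hd0 (by omega)
  refine h3.mono fun t ht k0 j D Mh hD hj => le_of_eq ?_
  have hj2 : j ∈ rw46 (frm33 μ s K ι β γ) m q i := (mem_filter.1 hj).1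
  obtain ⟨r1, r2, r3, r4, r5, r6⟩ := hr p p' q i hC hi j hj2
  have hj3 : (frm33 μ s K ι β γ).b0 m p + 4 * kn38 ((frm33 μ s K ι β γ).b0 m p) (2 ^ p) ≤ j := by
    show 2 ^ (p - ⌈ι * (m : ℝ)⌉₊) + 4 * kn38 (2 ^ (p - ⌈ι * (m : ℝ)⌉₊)) (2 ^ p) ≤ j
    rw [← hk']
    omega
  have hbd : BM ((frm33 μ s K ι β γ).ys m) fun y ω S => |D y ω S| := hD.bm.abs
  have e1 := avF_sum14 (μ := μ) (s := s) hX (Ioc (u * k) ((u + 1) * k))
    (f := fun d y ω S => Xf d (frm33 μ s K ι β γ) m p p' (((2 ^ m : ℕ) : ℝ) ^ κ') t y ω j S * |D y ω S|)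
    fun d _ => (hbm _ m p p' _ t d j hys hB0).mul hbd
  show avF μ s (frm33 μ s K ι β γ) m (fun y ω S => X (frm33 μ s K ι β γ) m p p' (((2 ^ m : ℕ) : ℝ) ^ κ') t y ω j S * |D y ω S|) =
    ((Ioc (u * k) ((u + 1) * k)).card : ℝ)⁻¹ * ∑ d ∈ Ioc (u * k) ((u + 1) * k),
      avF μ s (frm33 μ s K ι β γ) m (fun y ω S => Xf d (frm33 μ s K ι β γ) m p p' (((2 ^ m : ℕ) : ℝ) ^ κ') t y ω j S * |D y ω S|)
  rw [← e1, ← avF_smul hys]
  congr 1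
  funext y ω S
  rw [heq _ m p p' _ t j hj3 y ω S, hk', mul_assoc, sum_mul]
  rfl

/-- **The lines `5, …, 8` on the right.** -/
theorem pl58R14 {c₁ C : ℝ} {n₀ : ℕ} (h : In μ s c₁ C n₀) (hk : KapLe96 (EE μ s) (1 / 4)) {K : ℕ} (hK : 32 ≤ K)
    {Θ δ c η : ℝ} (hδ : 0 < δ) (hc : 0 < c) (hcδ : c ≤ δ / 64) (hη : 0 ≤ η)
    (H : ∀ fm, PLd14 μ s K Θ δ c η fun d F m p p' M => oR14 μ s fm d F m p p' M) (i : Fin 9) (hi : 5 ≤ i) :
    PLs14 μ s K Θ δ c η fun F m p p' M => RF14 μ s F m p p' M i := by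
  have hi' : i = 5 ∨ i = 6 ∨ i = 7 ∨ i = 8 := by
    revert hi
    revert i
    decide
  rcases hi' with rfl | rfl | rfl | rfl
  · exact pls_mean14 h hk hK hδ hc hcδ hη (u := 2) (Or.inl rfl) (H true) (fun F m p p' M t d j hy hB => bm_oR14 hy hB true d p p' M t j)
      fun F m p p' M t j hj y ω S => meanR14 fun r => oml (lw μ s ω.1 (F.L m) (Pn (F.L m) y))
        (wi38 μ s (F.L m) (Pn (F.L m) y) F.dl (F.B m) (F.b0 m p) j (Mod92.sg ω.2 j) t ω.1) (pJ (j - 2 ^ p') (j + 2 ^ p')) (j + F.b0 m p)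
        (j + 2 ^ p) M (mlo (lw μ s ω.1 (F.L m) (Pn (F.L m) y)) (pJ 0 r) (j - 2 ^ p) (j - F.b0 m p) M) S
  · exact pls_mean14 h hk hK hδ hc hcδ hη (u := 3) (Or.inr rfl) (H true) (fun F m p p' M t d j hy hB => bm_oR14 hy hB true d p p' M t j)
      fun F m p p' M t j hj y ω S => meanR14 fun r => oml (lw μ s ω.1 (F.L m) (Pn (F.L m) y))
        (wi38 μ s (F.L m) (Pn (F.L m) y) F.dl (F.B m) (F.b0 m p) j (Mod92.sg ω.2 j) t ω.1) (pJ (j - 2 ^ p') (j + 2 ^ p')) (j + F.b0 m p)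
        (j + 2 ^ p) M (mlo (lw μ s ω.1 (F.L m) (Pn (F.L m) y)) (pJ 0 r) (j - 2 ^ p) (j - F.b0 m p) M) S
  · exact pls_mean14 h hk hK hδ hc hcδ hη (u := 2) (Or.inl rfl) (H false) (fun F m p p' M t d j hy hB => bm_oR14 hy hB false d p p' M t j)
      fun F m p p' M t j hj y ω S => meanR14 fun r => otl (lw μ s ω.1 (F.L m) (Pn (F.L m) y))
        (wi38 μ s (F.L m) (Pn (F.L m) y) F.dl (F.B m) (F.b0 m p) j (Mod92.sg ω.2 j) t ω.1) (pJ (j - 2 ^ p') (j + 2 ^ p')) (j + F.b0 m p)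
        (j + 2 ^ p) M (mlo (lw μ s ω.1 (F.L m) (Pn (F.L m) y)) (pJ 0 r) (j - 2 ^ p) (j - F.b0 m p) M) S
  · exact pls_mean14 h hk hK hδ hc hcδ hη (u := 3) (Or.inr rfl) (H false) (fun F m p p' M t d j hy hB => bm_oR14 hy hB false d p p' M t j)
      fun F m p p' M t j hj y ω S => meanR14 fun r => otl (lw μ s ω.1 (F.L m) (Pn (F.L m) y))
        (wi38 μ s (F.L m) (Pn (F.L m) y) F.dl (F.B m) (F.b0 m p) j (Mod92.sg ω.2 j) t ω.1) (pJ (j - 2 ^ p') (j + 2 ^ p')) (j + F.b0 m p)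
        (j + 2 ^ p) M (mlo (lw μ s ω.1 (F.L m) (Pn (F.L m) y)) (pJ 0 r) (j - 2 ^ p) (j - F.b0 m p) M) S

/-- **The lines `5, …, 8` on the left.** -/
theorem pl58L14 {c₁ C : ℝ} {n₀ : ℕ} (h : In μ s c₁ C n₀) (hk : KapLe96 (EE μ s) (1 / 4)) {K : ℕ} (hK : 32 ≤ K)
    {Θ δ c η : ℝ} (hδ : 0 < δ) (hc : 0 < c) (hcδ : c ≤ δ / 64) (hη : 0 ≤ η)
    (H : ∀ fm, PLd14 μ s K Θ δ c η fun d F m p p' M => oL14 μ s fm d F m p p' M) (i : Fin 9) (hi : 5 ≤ i) :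
    PLs14 μ s K Θ δ c η fun F m p p' M => LF14 μ s F m p p' M i := by
  have hi' : i = 5 ∨ i = 6 ∨ i = 7 ∨ i = 8 := by
    revert hi
    revert i
    decide
  rcases hi' with rfl | rfl | rfl | rfl
  · exact pls_mean14 h hk hK hδ hc hcδ hη (u := 2) (Or.inl rfl) (H true) (fun F m p p' M t d j hy hB => bm_oL14 hy hB true d p p' M t j)
      fun F m p p' M t j hj y ω S => meanL14 (by omega) fun r => oml (lw μ s ω.1 (F.L m) (Pn (F.L m) y))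
        (wi38 μ s (F.L m) (Pn (F.L m) y) F.dl (F.B m) (F.b0 m p) j (Mod92.sg ω.2 j) t ω.1) (pJ (j - 2 ^ p') (j + 2 ^ p')) (j - 2 ^ p)
        (j - F.b0 m p) M (mlo (lw μ s ω.1 (F.L m) (Pn (F.L m) y)) (pJ r (F.L m)) (j + F.b0 m p) (j + 2 ^ p) M) S
  · exact pls_mean14 h hk hK hδ hc hcδ hη (u := 3) (Or.inr rfl) (H true) (fun F m p p' M t d j hy hB => bm_oL14 hy hB true d p p' M t j)
      fun F m p p' M t j hj y ω S => meanL14 (by omega) fun r => oml (lw μ s ω.1 (F.L m) (Pn (F.L m) y))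
        (wi38 μ s (F.L m) (Pn (F.L m) y) F.dl (F.B m) (F.b0 m p) j (Mod92.sg ω.2 j) t ω.1) (pJ (j - 2 ^ p') (j + 2 ^ p')) (j - 2 ^ p)
        (j - F.b0 m p) M (mlo (lw μ s ω.1 (F.L m) (Pn (F.L m) y)) (pJ r (F.L m)) (j + F.b0 m p) (j + 2 ^ p) M) S
  · exact pls_mean14 h hk hK hδ hc hcδ hη (u := 2) (Or.inl rfl) (H false) (fun F m p p' M t d j hy hB => bm_oL14 hy hB false d p p' M t j)
      fun F m p p' M t j hj y ω S => meanL14 (by omega) fun r => otl (lw μ s ω.1 (F.L m) (Pn (F.L m) y))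
        (wi38 μ s (F.L m) (Pn (F.L m) y) F.dl (F.B m) (F.b0 m p) j (Mod92.sg ω.2 j) t ω.1) (pJ (j - 2 ^ p') (j + 2 ^ p')) (j - 2 ^ p)
        (j - F.b0 m p) M (mlo (lw μ s ω.1 (F.L m) (Pn (F.L m) y)) (pJ r (F.L m)) (j + F.b0 m p) (j + 2 ^ p) M) S
  · exact pls_mean14 h hk hK hδ hc hcδ hη (u := 3) (Or.inr rfl) (H false) (fun F m p p' M t d j hy hB => bm_oL14 hy hB false d p p' M t j)
      fun F m p p' M t j hj y ω S => meanL14 (by omega) fun r => otl (lw μ s ω.1 (F.L m) (Pn (F.L m) y))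
        (wi38 μ s (F.L m) (Pn (F.L m) y) F.dl (F.B m) (F.b0 m p) j (Mod92.sg ω.2 j) t ω.1) (pJ (j - 2 ^ p') (j + 2 ^ p')) (j - 2 ^ p)
        (j - F.b0 m p) M (mlo (lw μ s ω.1 (F.L m) (Pn (F.L m) y)) (pJ r (F.L m)) (j + F.b0 m p) (j + 2 ^ p) M) S

end Main

end

end Pool.W7d29a1.C0.N14
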