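import Pool.Agent.W_7d29a1_C0.N1V14
import Pool.Agent.W_7d29a1_C0.Ln58

/-!
MP_7d29a1_pr, [CURV0], leaf E5.8 / N1B (helper14): the families `oR14`, `oL14` of `N1V14` are the conditional means, under the tilted weights of
the row, of the families `fR58`, `fL58` of `Ln58`.
-/

set_option autoImplicit false
set_option linter.unusedSectionVars false
set_option linter.unusedVariables false

namespace Pool.W7d29a1.C0.N14

open Finset Filter Topology MeasureTheory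
open Pool.Agent.W_7d29a1_F Pool.Agent.W_7d29a1_C0 Pool.W7d29a1.C0 Pool.W7d29a1.C0.VT31
open Pool.Agent.W_7d29a1_H (EE EE_pos one_le_EE sl)
open Pool.Agent.W_7d29a1_HS (In wd)
open Pool.Agent.W_7d29a1_C0.Swap57 Pool.Agent.W_7d29a1_C0.Mod92 Pool.Agent.W_7d29a1_C0.H32 Pool.Agent.W_7d29a1_C0.Asm96
open Pool.Agent.W_7d29a1_C0.Frm33 Pool.Agent.W_7d29a1_C0.N38
open Pool.Agent.W_7d29a1_C0.Par92 (Est Sml)
open Pool.Agent.W_7d29a1_C0.Pr46 Pool.Agent.W_7d29a1_C0.N1E19 Pool.Agent.W_7d29a1_C0.NTop23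
open Pool.Agent.W_7d29a1_C0.Lo38 (own38 lng38)
open Pool.W7d29a1.C0.R43 (Tau mI mI_nonneg)
open Pool.W7d29a1.C0.S1 (i1 i1_nonneg i1_of i1_not cE_const osc)
open Pool.W7d29a1.C0.L38 Pool.W7d29a1.C0.PM14 Pool.W7d29a1.C0.NN1 Pool.W7d29a1.C0.H41
open Pool.W7d29a1.C0.Ln58

noncomputable section

theorem i1_congr14 {A B : Prop} (h : A ↔ B) : i1 A = i1 B := by rw [propext h]

/-- The own tie of helper38 is the own tie of `N1V14`. -/
theorem ob14_eq {Q : Finset (Finset ℕ)} (fm : Bool) (w wi : Px Q → ℝ) (p : Px Q → Finset ℕ × ℕ) (o0 o1 : ℕ) (M : ℝ) (F : Px Q → ℝ)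
    (x : Px Q) : ob14 fm w wi p o0 o1 M F x = cE wi p (fun y => own38 (fm = false) w p o0 o1 M y * F y) x := by
  cases fm
  · show otl w wi p o0 o1 M F x = _
    unfold otl own38
    simp only [if_true]
    rfl
  · show oml w wi p o0 o1 M F x = _
    unfold oml own38
    simp only [reduceCtorEq, if_false]

variable (μ : Measure ℝ) (s : ℝ) (fm : Bool) (d : ℕ) (F : Frm96) (m p p' : ℕ)

theorem oR14_eq (M t : ℝ) (y : ℕ) (ω : Env × Finset ℕ) (j : ℕ) (S : Px (Pn (F.L m) y)) : oR14 μ s fm d F m p p' M t y ω j S =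
    cE (wi38 μ s (F.L m) (Pn (F.L m) y) F.dl (F.B m) (F.b0 m p) j (Mod92.sg ω.2 j) t ω.1) (pJ (j - 2 ^ p') (j + 2 ^ p'))
      (fun S => fR58 μ s (fm = false) d F m p p' M y ω j S) S := ob14_eq _ _ _ _ _ _ _ _ _

theorem oL14_eq (M t : ℝ) (y : ℕ) (ω : Env × Finset ℕ) (j : ℕ) (S : Px (Pn (F.L m) y)) : oL14 μ s fm d F m p p' M t y ω j S =
    cE (wi38 μ s (F.L m) (Pn (F.L m) y) F.dl (F.B m) (F.b0 m p) j (Mod92.sg ω.2 j) t ω.1) (pJ (j - 2 ^ p') (j + 2 ^ p'))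
      (fun S => fL58 μ s (fm = false) d F m p p' M y ω j S) S := ob14_eq _ _ _ _ _ _ _ _ _

end

end Pool.W7d29a1.C0.N14
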