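import Pool.Agent.W_7d29a1_C0.N1W14
import Pool.Agent.W_7d29a1_C0.Ln3G
import Pool.Agent.W_7d29a1_C0.DT5TZ

/-!
MP_7d29a1_pr, [CURV0], leaf E5.8 / N1B (helper14): THE LINES `5, …, 8` OF `N1B`, both sides, closed (`pls58R14`, `pls58L14`): helper3's
`glue3` over `Ln58`, then the mean over the starts (`N1V14`).
-/

set_option autoImplicit false
set_option linter.unusedSectionVars false
set_option linter.unusedVariables false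

namespace Pool.W7d29a1.C0.N14

open Finset Filter Topology MeasureTheory
open Pool.Agent.W_7d29a1_F Pool.Agent.W_7d29a1_C0 Pool.W7d29a1.C0 Pool.W7d29a1.C0.VT31
open Pool.Agent.W_7d29a1_H (EE EE_pos one_le_EE sl)
open Pool.Agent.W_7d29a1_HS (In wd)
open Pool.Agent.W_7d29a1_C0.Swap57 Pool.Agent.W_7d29a1_C0.Mod92 Pool.Agent.W_7d29a1_C0.H32 Pool.Agent.W_7d29a1_C0.Asm96
open Pool.Agent.W_7d29a1_C0.Frm33 Pool.Agent.W_7d29a1_C0.N38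
open Pool.Agent.W_7d29a1_C0.Par92 (Est Sml)
open Pool.Agent.W_7d29a1_C0.Pr46 Pool.Agent.W_7d29a1_C0.N1E19 Pool.Agent.W_7d29a1_C0.NTop23
open Pool.Agent.W_7d29a1_C0.Lo38 (own38 lng38 own38_nonneg own38_le_one lng38_nonneg lng38_le_one meas_own38 meas_lng38 meas_mI38)
open Pool.Agent.W_7d29a1_C0.Ln3 (Ph3 Mc3 glue3)
open Pool.W7d29a1.C0.L38 Pool.W7d29a1.C0.PM14 Pool.W7d29a1.C0.NN1 Pool.W7d29a1.C0.H41
open Pool.W7d29a1.C0.Ln58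

noncomputable section

/-- The long factor, right. -/
def McR14 (μ : Measure ℝ) (s : ℝ) (d : ℕ) : Mc3 := fun F m p p' M y ω j S =>
  lng38 (wm μ s (F.L m) (Pn (F.L m) y) ω) (pJ 0 (j + F.b0 m p + d)) (j - 2 ^ p) (j - F.b0 m p) M S

/-- The long factor, left. -/
def McL14 (μ : Measure ℝ) (s : ℝ) (d : ℕ) : Mc3 := fun F m p p' M y ω j S =>
  lng38 (wm μ s (F.L m) (Pn (F.L m) y) ω) (pJ (j - F.b0 m p - d) (F.L m)) (j + F.b0 m p) (j + 2 ^ p) M S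

variable {μ : Measure ℝ} [IsProbabilityMeasure μ] {s : ℝ}

theorem pld58R14 {c₁ C : ℝ} {n₀ : ℕ} (h : In μ s c₁ C n₀) (hk : KapLe96 (EE μ s) (1 / 4)) {K : ℕ} (hK : 32 ≤ K)
    {c₀ Θ δ c η : ℝ} (hR : RegP46 μ s c₀ Θ) (hδ : 0 < δ) (hc : 0 < c) (hc1 : c ≤ 1) (hcδ : c ≤ δ / 64) (hη : 0 ≤ η) (fm : Bool) :
    PLd14 μ s K Θ δ c η fun d F m p p' M => oR14 μ s fm d F m p p' M := by
  obtain ⟨κ, hκ, H⟩ := glue3 (fun sd fm => DT5T.t4M h sd fm) h hk hK hR hδ hc hc1 hcδ hη true fm (Qd58) (McR14 μ s)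
    (fun d F m p p' M y ω j S => lng38_nonneg S) (fun d F m p p' M y ω j S => lng38_le_one S)
    (fun d F m p p' M y j S => by
      have : Nonempty (Px (Pn (F.L m) y)) := ⟨S⟩
      exact meas_lng38 _ _ _ M S) (p1R58 h hk hK hδ hc hcδ hη (fm = false)) (p2R58 h hk hK hδ hc.le hcδ hη (fm = false))
  refine ⟨κ, hκ, fun κ' h1 h2 => ?_⟩
  obtain ⟨x, hx, H⟩ := H κ' h1 h2
  refine ⟨x, hx, H.mono fun ι β γ _ _ _ => Eventually.of_forall fun m hh p p' q i hC hpp hi d hd0 hd => ?_⟩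
  refine (hh p p' q i hC hpp hi d ⟨hd0, hd⟩).mono fun t ht k j D Mh hD hj => le_of_eq ?_
  unfold Lf19
  congr 1
  funext y ω S
  exact congrArg (fun v => v * |D y ω S|) (oR14_eq μ s fm d (frm33 μ s K ι β γ) m p p' (((2 ^ m : ℕ) : ℝ) ^ κ') t y ω j S)

theorem pld58L14 {c₁ C : ℝ} {n₀ : ℕ} (h : In μ s c₁ C n₀) (hk : KapLe96 (EE μ s) (1 / 4)) {K : ℕ} (hK : 32 ≤ K)
    {c₀ Θ δ c η : ℝ} (hR : RegP46 μ s c₀ Θ) (hδ : 0 < δ) (hc : 0 < c) (hc1 : c ≤ 1) (hcδ : c ≤ δ / 64) (hη : 0 ≤ η) (fm : Bool) :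
    PLd14 μ s K Θ δ c η fun d F m p p' M => oL14 μ s fm d F m p p' M := by
  obtain ⟨κ, hκ, H⟩ := glue3 (fun sd fm => DT5T.t4M h sd fm) h hk hK hR hδ hc hc1 hcδ hη false fm (Qd58) (McL14 μ s)
    (fun d F m p p' M y ω j S => lng38_nonneg S) (fun d F m p p' M y ω j S => lng38_le_one S)
    (fun d F m p p' M y j S => by
      have : Nonempty (Px (Pn (F.L m) y)) := ⟨S⟩
      exact meas_lng38 _ _ _ M S) (p1L58 h hk hK hδ hc hcδ hη (fm = false)) (p2L58 h hk hK hδ hc.le hcδ hη (fm = false))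
  refine ⟨κ, hκ, fun κ' h1 h2 => ?_⟩
  obtain ⟨x, hx, H⟩ := H κ' h1 h2
  refine ⟨x, hx, H.mono fun ι β γ _ _ _ => Eventually.of_forall fun m hh p p' q i hC hpp hi d hd0 hd => ?_⟩
  refine (hh p p' q i hC hpp hi d ⟨hd0, hd⟩).mono fun t ht k j D Mh hD hj => le_of_eq ?_
  unfold Lf19
  congr 1
  funext y ω S
  exact congrArg (fun v => v * |D y ω S|) (oL14_eq μ s fm d (frm33 μ s K ι β γ) m p p' (((2 ^ m : ℕ) : ℝ) ^ κ') t y ω j S)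

/-- **THE LINES `5, …, 8`, right.** -/
theorem pls58R14 {c₁ C : ℝ} {n₀ : ℕ} (h : In μ s c₁ C n₀) (hk : KapLe96 (EE μ s) (1 / 4)) {K : ℕ} (hK : 32 ≤ K)
    {c₀ Θ δ c η : ℝ} (hR : RegP46 μ s c₀ Θ) (hδ : 0 < δ) (hc : 0 < c) (hc1 : c ≤ 1) (hcδ : c ≤ δ / 64) (hη : 0 ≤ η) (i : Fin 9)
    (hi : 5 ≤ i) : PLs14 μ s K Θ δ c η fun F m p p' M => RF14 μ s F m p p' M i :=
  pl58R14 h hk hK hδ hc hcδ hη (fun fm => pld58R14 h hk hK hR hδ hc hc1 hcδ hη fm) i hi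

/-- **THE LINES `5, …, 8`, left.** -/
theorem pls58L14 {c₁ C : ℝ} {n₀ : ℕ} (h : In μ s c₁ C n₀) (hk : KapLe96 (EE μ s) (1 / 4)) {K : ℕ} (hK : 32 ≤ K)
    {c₀ Θ δ c η : ℝ} (hR : RegP46 μ s c₀ Θ) (hδ : 0 < δ) (hc : 0 < c) (hc1 : c ≤ 1) (hcδ : c ≤ δ / 64) (hη : 0 ≤ η) (i : Fin 9)
    (hi : 5 ≤ i) : PLs14 μ s K Θ δ c η fun F m p p' M => LF14 μ s F m p p' M i :=
  pl58L14 h hk hK hδ hc hcδ hη (fun fm => pld58L14 h hk hK hR hδ hc hc1 hcδ hη fm) i hi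

end

end Pool.W7d29a1.C0.N14
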