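import Pool.Agent.W_7d29a1_C0.Own1
import Pool.Agent.W_7d29a1_C0.Lab38
import Pool.Agent.W_7d29a1_C0.Base5C

/-!
MP_7d29a1_pr, [CURV0], leaf E5.4 (helper5), part 1: THE DOUBLE TIES, PATHWISE. `cut_cC`: the covariance, given the outside `p` of the
large window, of the kick `g` and of a function `V` of the outside of the window `W = [c, d)` is carried by the pairs which do not meet on
both sides; `abs_cC_own`: it is at most `2 M cE p (V * ow)`, `ow y` = the mass of the replicas of the fibre which do not meet the path `y`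
itself on both sides. `tie_main`, `tie_end`: indicator forms at a reference weight. `N2_corner`: the whole double tie at both corners plus
the three levels error `T4` (the own factor kept).
-/

set_option autoImplicit false
set_option linter.unusedSectionVars false

namespace Pool.Agent.W_7d29a1_C0.N25

open Finset MeasureTheory Pool.Agent.W_7d29a1_C0.Swap57 Pool.Agent.W_7d29a1_C0 Pool.Agent.W_7d29a1_C0.Mod92
open Pool.W7d29a1.C0 Pool.W7d29a1.C0.VT31 Pool.W7d29a1.C0.R43 Pool.W7d29a1.C0.S1 Pool.W7d29a1.C0.K1 Pool.W7d29a1.C0.L38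
open Pool.W7d29a1.C0
open Pool.Agent.W_7d29a1_C0.Base5 (abs_cC_le1)

noncomputable section

section Fib

variable {X : Type*} [Fintype X] [Nonempty X] {Y : Type*} [DecidableEq Y]

/-- The conditional mean looks only at the fibre. -/
theorem cE_fib (w : X → ℝ) (p : X → Y) {F F' : X → ℝ} {x : X} (h : ∀ z, p z = p x → F z = F' z) : cE w p F x = cE w p F' x := by
  unfold cE
  congr 1
  refine sum_congr rfl fun z _ => ?_
  split_ifs with hz
  · rw [h z hz]
  · rfl

theorem cE_fib_le (w : X → ℝ) (p : X → Y) {F F' : X → ℝ} {x : X} (h : ∀ z, p z = p x → F z ≤ F' z) : cE w p F x ≤ cE w p F' x := by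
  unfold cE
  refine div_le_div_of_nonneg_right (sum_le_sum fun z _ => ?_) (fz_pos _ _ _).le
  split_ifs with hz
  · exact mul_le_mul_of_nonneg_left (h z hz) (Real.exp_pos _).le
  · exact le_rfl

theorem cE_add' (w : X → ℝ) (p : X → Y) (f h : X → ℝ) (x : X) : cE w p (fun z => f z + h z) x = cE w p f x + cE w p h x :=
  congrFun (cE_add w p f h) x

theorem cE_mul' (w : X → ℝ) (p : X → Y) (k : ℝ) (f : X → ℝ) (x : X) : cE w p (fun z => k * f z) x = k * cE w p f x :=
  congrFun (cE_smul w p k f) x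

theorem cE_const' (w : X → ℝ) (p : X → Y) (k : ℝ) (x : X) : cE w p (fun _ => k) x = k := by
  rw [cE_const]

end Fib

section Own

variable {Q : Finset (Finset ℕ)} {Y Z : Type*} [DecidableEq Y] [DecidableEq Z]

/-- The mass, in the fibre of `p`, of the replicas which do not meet the path `z` on both sides of `[al, be]` in `[c, d]`. -/
def ow (v : Px Q → ℝ) (p : Px Q → Y) (c al be d : ℕ) (z : Px Q) : ℝ := cE v p (NM c al be d z) z

variable [SwQ Q] [Nonempty (Px Q)]

theorem ow_nonneg (v : Px Q → ℝ) (p : Px Q → Y) (c al be d : ℕ) (z : Px Q) : 0 ≤ ow v p c al be d z :=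
  cE_nonneg v p (fun z' => NM_nonneg c al be d z z') z

theorem NM_le_one (c al be d : ℕ) (z z' : Px Q) : NM c al be d z z' ≤ 1 := by
  classical
  by_cases h : Mt c al be d z z'
  · rw [NM_of h]
    norm_num
  · rw [NM_of_not h]

theorem ow_le_one (v : Px Q → ℝ) (p : Px Q → Y) (c al be d : ℕ) (z : Px Q) : ow v p c al be d z ≤ 1 := by
  have h := cE_mono v p (f := NM c al be d z) (g := fun _ => 1) (fun z' => NM_le_one c al be d z z') z
  rwa [cE_const] at h

theorem NM_symm (c al be d : ℕ) (z z' : Px Q) : NM c al be d z z' = NM c al be d z' z := by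
  classical
  have e := Mt_symm c al be d z z'
  by_cases h : Mt c al be d z z'
  · have h' : Mt c al be d z' z := by rw [e]; exact h
    rw [NM_of h, NM_of h']
  · have h' : ¬ Mt c al be d z' z := by rw [e]; exact h
    rw [NM_of_not h, NM_of_not h']

variable {c al be d : ℕ} {w g : Px Q → ℝ} {M τ : ℝ}

/-- **The covariance is carried by the pairs which do not meet on both sides.** -/
theorem cut_cC (hab : al ≤ be) {p : Px Q → Y} (hp : Crs p (pJ c d)) (hw : Wk c al be d w) (hg : Lk al be g) {V : Px Q → ℝ}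
    (hV : Mp (pJ c d) V) (x : Px Q) :
    cC w p g V x = cE2 w p (fun z z' => NM c al be d z z' * (1 / 2 * (V z - V z') * (g z - g z'))) x x := by
  have h0 := cE_cut hab hp hw hV hg x
  have h1 := cC_two w p g V x
  have h2 := cE2_mul w p (1 / 2) (fun z z' => (g z - g z') * (V z - V z')) x x
  have h3 := cE2_congr w p (K := fun z z' => 1 / 2 * ((g z - g z') * (V z - V z')))
    (K' := fun z z' => (1 - NM c al be d z z') * (1 / 2 * (V z - V z') * (g z - g z')) +
      NM c al be d z z' * (1 / 2 * (V z - V z') * (g z - g z'))) (fun z z' => by ring) x x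
  have h4 := cE2_add w p (fun z z' => (1 - NM c al be d z z') * (1 / 2 * (V z - V z') * (g z - g z')))
    (fun z z' => NM c al be d z z' * (1 / 2 * (V z - V z') * (g z - g z'))) x x
  have h5 : cE2 w p (fun z z' => (1 - NM c al be d z z') * (1 / 2 * (V z - V z') * (g z - g z'))) x x = 0 := h0
  rw [h1, ← h2, h3, h4, h5, zero_add]

/-- **The covariance against the own pair of the path itself.** -/
theorem abs_cC_own (hab : al ≤ be) {p : Px Q → Y} (hp : Crs p (pJ c d)) (hw : Wk c al be d w) (hl : Lk al be g)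
    (hg : ∀ x, |g x| ≤ M) {V : Px Q → ℝ} (hV : Mp (pJ c d) V) (hV0 : ∀ x, 0 ≤ V x) (x : Px Q) :
    |cC w p g V x| ≤ 2 * M * cE w p (fun z => V z * ow w p c al be d z) x := by
  have hM : 0 ≤ M := (abs_nonneg _).trans (hg x)
  rw [cut_cC hab hp hw hl hV x]
  refine (abs_cE2_le w p _ x x).trans ?_
  have h1 := cE2_mono w p (K := fun z z' => |NM c al be d z z' * (1 / 2 * (V z - V z') * (g z - g z'))|)
    (K' := fun z z' => M * (V z * NM c al be d z z') + M * (V z' * NM c al be d z z')) (fun z z' => by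
      have n0 := NM_nonneg c al be d z z'
      have h2 : |V z - V z'| ≤ V z + V z' := by
        have a := hV0 z
        have b := hV0 z'
        rw [abs_le]
        constructor <;> linarith
      have h3 := osd hg z z'
      have h4 : |1 / 2 * (V z - V z') * (g z - g z')| ≤ M * (V z + V z') := by
        rw [abs_mul, abs_mul, abs_of_pos (by norm_num : (0 : ℝ) < 1 / 2)]
        have h5 := mul_le_mul h2 h3 (abs_nonneg _) (by linarith [hV0 z, hV0 z'])
        linarith
      rw [abs_mul, abs_of_nonneg n0]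
      calc NM c al be d z z' * |1 / 2 * (V z - V z') * (g z - g z')| ≤ NM c al be d z z' * (M * (V z + V z')) :=
            mul_le_mul_of_nonneg_left h4 n0
        _ = M * (V z * NM c al be d z z') + M * (V z' * NM c al be d z z') := by ring) x x
  refine h1.trans (le_of_eq ?_)
  have e1 := cE2_add w p (fun z z' => M * (V z * NM c al be d z z')) (fun z z' => M * (V z' * NM c al be d z z')) x x
  have e2 := cE2_mul w p M (fun z z' => V z * NM c al be d z z') x x
  have e3 := cE2_mul w p M (fun z z' => V z' * NM c al be d z z') x x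
  have e4 : cE2 w p (fun z z' => V z * NM c al be d z z') x x = cE w p (fun z => V z * ow w p c al be d z) x := by
    unfold cE2
    refine cE_fib w p fun z hz => ?_
    have h2 := cE_mul' w p (V z) (NM c al be d z) x
    refine h2.trans ?_
    unfold ow
    rw [cE_eq_of w p _ hz]
  have e5 : cE2 w p (fun z z' => V z' * NM c al be d z z') x x = cE2 w p (fun z z' => V z * NM c al be d z z') x x := by
    have h2 := cE_comm2 w w p (fun z z' => V z' * NM c al be d z z') x x
    refine Eq.trans h2 ?_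
    unfold cE2
    refine cE_fib w p fun z _ => ?_
    refine cE_fib w p fun z' _ => ?_
    beta_reduce
    rw [NM_symm]
  rw [e1, e2, e3, e5, e4]
  ring

/-- The micro tie and the own pair of the path, as indicators. -/
def Ft (v : Px Q → ℝ) (p : Px Q → Y) (c al be d : ℕ) (g : Px Q → ℝ) (m : ℝ) (z : Px Q) : ℝ :=
  i1 (Real.exp (-(5 * m)) ≤ osc v (pJ c d) g z) * i1 (Real.exp (-(5 * m)) ≤ ow v p c al be d z)

omit [SwQ Q] [Nonempty (Px Q)] in
theorem i1_le_one (A : Prop) : i1 A ≤ 1 := by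
  unfold i1
  split_ifs <;> norm_num

omit [SwQ Q] [Nonempty (Px Q)] in
theorem Ft_nonneg (v : Px Q → ℝ) (p : Px Q → Y) (c al be d : ℕ) (g : Px Q → ℝ) (m : ℝ) (z : Px Q) : 0 ≤ Ft v p c al be d g m z :=
  mul_nonneg (i1_nonneg _) (i1_nonneg _)

omit [SwQ Q] [Nonempty (Px Q)] in
theorem Ft_le_one (v : Px Q → ℝ) (p : Px Q → Y) (c al be d : ℕ) (g : Px Q → ℝ) (m : ℝ) (z : Px Q) : Ft v p c al be d g m z ≤ 1 :=
  mul_le_one₀ (i1_le_one _) (i1_nonneg _) (i1_le_one _)

theorem Ft_le_ow (v : Px Q → ℝ) (p : Px Q → Y) (c al be d : ℕ) (g : Px Q → ℝ) (m : ℝ) (z : Px Q) :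
    Ft v p c al be d g m z ≤ Real.exp (5 * m) * ow v p c al be d z := by
  unfold Ft
  have h0 := ow_nonneg v p c al be d z
  by_cases h : Real.exp (-(5 * m)) ≤ ow v p c al be d z
  · rw [i1_of h, mul_one]
    refine (i1_le_one _).trans ?_
    have h2 := mul_le_mul_of_nonneg_left h (Real.exp_pos (5 * m)).le
    rw [← Real.exp_add] at h2
    have e : 5 * m + -(5 * m) = 0 := by ring
    rwa [e, Real.exp_zero] at h2
  · rw [i1_not h, mul_zero]
    positivity

/-- The main part of the double tie at the tilts `t` (outer) and `s` (inner). -/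
theorem tie_main (hab : al ≤ be) {p : Px Q → Y} (hp : Crs p (pJ c d)) (hw : Wk c al be d w) (hl : Lk al be g) (hM : 1 ≤ M)
    (hg : ∀ x, |g x| ≤ M) (hτ : |τ| ≤ 1) (m : ℝ) {t s : ℝ} (ht : |t| ≤ 1) (hs : |s| ≤ 1) (x : Px Q) :
    |cC (w + t • g) p g (cV (w + s • g) (pJ c d) g) x| ≤
      4 * M ^ 3 * cE (w + t • g) p (Ft (w + τ • g) p c al be d g m) x + 6 * M ^ 3 * Real.exp (8 * M) * Real.exp (-(5 * m)) := by
  have hM0 : 0 ≤ M := by linarith
  have h1 := abs_cC_own hab hp (wk_line hw hl t) hl hg (cV_meas (w + s • g) (pJ c d) g) (cV_nonneg (w + s • g) (pJ c d) g) x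
  have e8 : Real.exp (4 * M) ≤ Real.exp (8 * M) := Real.exp_le_exp.2 (by linarith)
  have M2 : M ≤ M ^ 2 := by nlinarith
  have hz : ∀ z, cV (w + s • g) (pJ c d) g z * ow (w + t • g) p c al be d z ≤
      2 * M ^ 2 * Ft (w + τ • g) p c al be d g m z + 3 * M ^ 2 * Real.exp (8 * M) * Real.exp (-(5 * m)) := by
    intro z
    have v0 := cV_nonneg (w + s • g) (pJ c d) g z
    have v1 := cV_le_sq (pJ c d) hg (w + s • g) z
    have o0 := ow_nonneg (w + t • g) p c al be d z
    have o1 := ow_le_one (w + t • g) p c al be d z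
    have f0 := Ft_nonneg (w + τ • g) p c al be d g m z
    have x0 := (Real.exp_pos (8 * M)).le
    have y0 := (Real.exp_pos (-(5 * m))).le
    have hv : 0 ≤ 2 * M ^ 2 * Ft (w + τ • g) p c al be d g m z := by positivity
    by_cases a : Real.exp (-(5 * m)) ≤ osc (w + τ • g) (pJ c d) g z
    · by_cases b : Real.exp (-(5 * m)) ≤ ow (w + τ • g) p c al be d z
      · have e : Ft (w + τ • g) p c al be d g m z = 1 := by
          unfold Ft
          rw [i1_of a, i1_of b, one_mul]
        rw [e, mul_one]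
        have h2 : cV (w + s • g) (pJ c d) g z * ow (w + t • g) p c al be d z ≤ 2 * M ^ 2 * 1 :=
          mul_le_mul v1 o1 o0 (by positivity)
        have h3 : 0 ≤ 3 * M ^ 2 * Real.exp (8 * M) * Real.exp (-(5 * m)) := by positivity
        linarith
      · push Not at b
        have h2 : ow (w + t • g) p c al be d z ≤ Real.exp (4 * M) * ow (w + τ • g) p c al be d z :=
          ln_cE' w hg hτ p (fun z' => NM_nonneg c al be d z z') z ht
        have h3 : ow (w + t • g) p c al be d z ≤ Real.exp (8 * M) * Real.exp (-(5 * m)) :=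
          h2.trans (mul_le_mul e8 b.le (ow_nonneg _ _ _ _ _ _ _) x0)
        have h4 : cV (w + s • g) (pJ c d) g z * ow (w + t • g) p c al be d z ≤
            2 * M ^ 2 * (Real.exp (8 * M) * Real.exp (-(5 * m))) := mul_le_mul v1 h3 o0 (by positivity)
        have h5 : 0 ≤ M ^ 2 * (Real.exp (8 * M) * Real.exp (-(5 * m))) := by positivity
        linarith
    · push Not at a
      have h2 := size_cV w hM hg hτ (pJ c d) hg z hs
      have h3 : cV (w + s • g) (pJ c d) g z ≤ M * Real.exp (8 * M) * Real.exp (-(5 * m)) :=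
        h2.trans (mul_le_mul_of_nonneg_left a.le (by positivity))
      have h4 : cV (w + s • g) (pJ c d) g z * ow (w + t • g) p c al be d z ≤
          M * Real.exp (8 * M) * Real.exp (-(5 * m)) * 1 := mul_le_mul h3 o1 o0 (by positivity)
      have h5 : M * (Real.exp (8 * M) * Real.exp (-(5 * m))) ≤ M ^ 2 * (Real.exp (8 * M) * Real.exp (-(5 * m))) :=
        mul_le_mul_of_nonneg_right M2 (by positivity)
      have h6 : 0 ≤ M ^ 2 * (Real.exp (8 * M) * Real.exp (-(5 * m))) := by positivity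
      linarith
  have h2 := cE_mono (w + t • g) p hz x
  rw [cE_add', cE_mul', cE_const'] at h2
  have h3 := mul_le_mul_of_nonneg_left h2 (show 0 ≤ 2 * M by positivity)
  refine (h1.trans h3).trans (le_of_eq ?_)
  ring

/-- The corner part of the double tie, at the tilts `a` (outer) and `r` (inner); `γ` is the exact response of the window. -/
theorem tie_end (hab : al ≤ be) {p : Px Q → Y} (hp : Crs p (pJ c d)) (hw : Wk c al be d w) (hl : Lk al be g) (hM : 1 ≤ M)
    (hg : ∀ x, |g x| ≤ M) (hτ : |τ| ≤ 1) (m : ℝ) {γ : Px Q → ℝ} (hγ : ∀ x, |γ x| ≤ M) {a r : ℝ} (ha : |a| ≤ 1) (hr : |r| ≤ 1)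
    (x : Px Q) :
    |cC (w + a • g) p γ (cV (w + r • g) (pJ c d) g) x| ≤
      4 * M ^ 3 * (i1 (Real.exp (-(5 * m)) ≤ cE2 (w + τ • g) p (NM c al be d) x x) *
        cE (w + a • g) p (fun z => i1 (Real.exp (-(5 * m)) ≤ osc (w + τ • g) (pJ c d) g z)) x) +
      5 * M ^ 3 * Real.exp (16 * M) * Real.exp (-(5 * m)) := by
  have hM0 : 0 ≤ M := by linarith
  have M2 : M ≤ M ^ 2 := by nlinarith
  have x0 := (Real.exp_pos (8 * M)).le
  have y0 := (Real.exp_pos (-(5 * m))).le
  have e16 : Real.exp (8 * M) ≤ Real.exp (16 * M) := Real.exp_le_exp.2 (by linarith)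
  by_cases b : Real.exp (-(5 * m)) ≤ cE2 (w + τ • g) p (NM c al be d) x x
  · rw [i1_of b, one_mul]
    have h1 := abs_cC_le1 (w + a • g) p (g := cV (w + r • g) (pJ c d) g) hγ x
    have hz : ∀ z, |cV (w + r • g) (pJ c d) g z| ≤ 2 * M ^ 2 * i1 (Real.exp (-(5 * m)) ≤ osc (w + τ • g) (pJ c d) g z) +
        M ^ 2 * Real.exp (8 * M) * Real.exp (-(5 * m)) := by
      intro z
      rw [abs_of_nonneg (cV_nonneg _ _ _ _)]
      by_cases a' : Real.exp (-(5 * m)) ≤ osc (w + τ • g) (pJ c d) g z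
      · rw [i1_of a', mul_one]
        have v1 := cV_le_sq (pJ c d) hg (w + r • g) z
        have h3 : 0 ≤ M ^ 2 * Real.exp (8 * M) * Real.exp (-(5 * m)) := by positivity
        linarith
      · push Not at a'
        have h2 := size_cV w hM hg hτ (pJ c d) hg z hr
        have h3 : cV (w + r • g) (pJ c d) g z ≤ M * Real.exp (8 * M) * Real.exp (-(5 * m)) :=
          h2.trans (mul_le_mul_of_nonneg_left a'.le (by positivity))
        have h5 : M * Real.exp (8 * M) * Real.exp (-(5 * m)) ≤ M ^ 2 * Real.exp (8 * M) * Real.exp (-(5 * m)) :=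
          mul_le_mul_of_nonneg_right (mul_le_mul_of_nonneg_right M2 x0) y0
        have h6 : 0 ≤ 2 * M ^ 2 * i1 (Real.exp (-(5 * m)) ≤ osc (w + τ • g) (pJ c d) g z) := by
          have := i1_nonneg (Real.exp (-(5 * m)) ≤ osc (w + τ • g) (pJ c d) g z)
          positivity
        linarith
    have h2 := cE_mono (w + a • g) p hz x
    rw [cE_add', cE_mul', cE_const'] at h2
    have h3 := mul_le_mul_of_nonneg_left h2 (show 0 ≤ 2 * M by positivity)
    have h4 : M ^ 3 * Real.exp (8 * M) * Real.exp (-(5 * m)) ≤ M ^ 3 * Real.exp (16 * M) * Real.exp (-(5 * m)) :=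
      mul_le_mul_of_nonneg_right (mul_le_mul_of_nonneg_left e16 (by positivity)) y0
    have h5 : 0 ≤ M ^ 3 * Real.exp (16 * M) * Real.exp (-(5 * m)) := by positivity
    have h6 := h1.trans h3
    have h7 : 2 * M * (2 * M ^ 2 * cE (w + a • g) p (fun z => i1 (Real.exp (-(5 * m)) ≤ osc (w + τ • g) (pJ c d) g z)) x +
        M ^ 2 * Real.exp (8 * M) * Real.exp (-(5 * m))) =
        4 * M ^ 3 * cE (w + a • g) p (fun z => i1 (Real.exp (-(5 * m)) ≤ osc (w + τ • g) (pJ c d) g z)) x +
          2 * (M ^ 3 * Real.exp (8 * M) * Real.exp (-(5 * m))) := by ring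
    rw [h7] at h6
    linarith
  · rw [i1_not b, zero_mul, mul_zero, zero_add]
    push Not at b
    have h1 := abs_cC_le' (w + a • g) p (cV (w + r • g) (pJ c d) g) hγ x
    rw [cC_symm] at h1
    have h2 := oscV_K (M := M) w hg hτ hp (mod_difV hab hw hl hg hτ hr) x ha
    have h3 : Real.exp (8 * M) * (5 * M ^ 2 * Real.exp (8 * M) * cE2 (w + τ • g) p (NM c al be d) x x) ≤
        Real.exp (8 * M) * (5 * M ^ 2 * Real.exp (8 * M) * Real.exp (-(5 * m))) :=
      mul_le_mul_of_nonneg_left (mul_le_mul_of_nonneg_left b.le (by positivity)) x0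
    have h4 := h1.trans (mul_le_mul_of_nonneg_left (h2.trans h3) hM0)
    refine h4.trans (le_of_eq ?_)
    rw [← exp2 M]
    ring

/-- **Both corners for the double tie**; the error keeps the own factor (`T4` of `Own1`). -/
theorem Ft_corner {p : Px Q → Y} (hM : 1 ≤ M) (hg : ∀ x, |g x| ≤ M) (hτ : |τ| ≤ 1) (m : ℝ) {t δ : ℝ} (ht : |t| ≤ 1)
    (hδ : 0 ≤ δ) (x : Px Q) :
    cE (w + t • g) p (Ft (w + τ • g) p c al be d g m) x ≤
      Real.exp (2 * δ) * (cE (w + g) p (Ft (w + τ • g) p c al be d g m) x + cE (w - g) p (Ft (w + τ • g) p c al be d g m) x) +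
      min 1 (Real.exp (5 * m + 12 * M) * O1.T4 (w + τ • g) p g δ (ow (w + τ • g) p c al be d) x) := by
  have h1 := two_corner w g p (Φ := Ft (w + τ • g) p c al be d g m) (Ft_nonneg _ _ _ _ _ _ _ _) ht hδ x
  refine h1.trans (add_le_add_right ?_ _)
  have ep : w + g = w + (1 : ℝ) • g := by rw [one_smul]
  have em : w - g = w + (-1 : ℝ) • g := by rw [neg_one_smul, sub_eq_add_neg]
  have u0 : ∀ (v : Px Q → ℝ) y, 0 ≤ cE v p (upI g δ y) x := fun v y => cE_nonneg _ _ (fun z => (upI_mem g δ y z).1) _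
  have d0 : ∀ (v : Px Q → ℝ) y, 0 ≤ cE v p (dnI g δ y) x := fun v y => cE_nonneg _ _ (fun z => (dnI_mem g δ y z).1) _
  refine le_min ?_ ?_
  · have h2 := cE_mono (w + t • g) p (f := fun y => Ft (w + τ • g) p c al be d g m y *
      (cE (w + g) p (upI g δ y) x * cE (w - g) p (dnI g δ y) x)) (g := fun _ => 1) (fun y => by
        refine mul_le_one₀ (Ft_le_one _ _ _ _ _ _ _ _ _) (mul_nonneg (u0 _ y) (d0 _ y)) (mul_le_one₀ ?_ (d0 _ y) ?_)
        · exact (cE_mem _ p (fun z => (upI_mem g δ y z).1) (fun z => (upI_mem g δ y z).2) x).2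
        · exact (cE_mem _ p (fun z => (dnI_mem g δ y z).1) (fun z => (dnI_mem g δ y z).2) x).2) x
    rwa [cE_const'] at h2
  · have e12 : Real.exp (5 * m + 12 * M) = Real.exp (4 * M) * (Real.exp (5 * m) * (Real.exp (4 * M) * Real.exp (4 * M))) := by
      rw [← Real.exp_add, ← Real.exp_add, ← Real.exp_add]
      congr 1
      ring
    have k : ∀ y, Ft (w + τ • g) p c al be d g m y * (cE (w + g) p (upI g δ y) x * cE (w - g) p (dnI g δ y) x) ≤
        (Real.exp (5 * m) * (Real.exp (4 * M) * Real.exp (4 * M))) * (ow (w + τ • g) p c al be d y *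
          (cE (w + τ • g) p (upI g δ y) x * cE (w + τ • g) p (dnI g δ y) x)) := by
      intro y
      have a1 := ln_cE' w hg hτ p (fun z => (upI_mem g δ y z).1) x (t := 1) (by norm_num)
      have a2 := ln_cE' w hg hτ p (fun z => (dnI_mem g δ y z).1) x (t := -1) (by norm_num)
      rw [← ep] at a1
      rw [← em] at a2
      have a3 := mul_le_mul a1 a2 (d0 _ y) (mul_nonneg (Real.exp_pos _).le (u0 _ y))
      have a4 := mul_le_mul (Ft_le_ow (w + τ • g) p c al be d g m y) a3 (mul_nonneg (u0 _ y) (d0 _ y))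
        (mul_nonneg (Real.exp_pos _).le (ow_nonneg _ _ _ _ _ _ _))
      refine a4.trans (le_of_eq ?_)
      ring
    have h2 := cE_mono (w + t • g) p k x
    rw [cE_mul'] at h2
    have h3 := ln_cE' w hg hτ p (f := fun y => ow (w + τ • g) p c al be d y *
      (cE (w + τ • g) p (upI g δ y) x * cE (w + τ • g) p (dnI g δ y) x)) (fun y => mul_nonneg (ow_nonneg _ _ _ _ _ _ _)
        (mul_nonneg (u0 _ y) (d0 _ y))) x ht
    have h4 := mul_le_mul_of_nonneg_left h3 (show 0 ≤ Real.exp (5 * m) * (Real.exp (4 * M) * Real.exp (4 * M)) by positivity)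
    refine (h2.trans h4).trans (le_of_eq ?_)
    unfold O1.T4
    rw [e12]
    ring

/-- The two integrals of the double tie. -/
theorem N2_int {p : Px Q → Y} {q : Px Q → Z} {γ : Px Q → ℝ} (x : Px Q) {B1 bp bm : ℝ}
    (h1 : ∀ t s : ℝ, |t| ≤ 1 → |s| ≤ 1 → |cC (w + t • g) p g (cV (w + s • g) q g) x| ≤ B1)
    (hp : ∀ r : ℝ, |r| ≤ 1 → |cC (w + g) p γ (cV (w + r • g) q g) x| ≤ bp)
    (hm : ∀ r : ℝ, |r| ≤ 1 → |cC (w - g) p γ (cV (w + r • g) q g) x| ≤ bm) :
    |-(∫ s in (-1 : ℝ)..1, ∫ t in (-1 : ℝ)..1, Kn81 t s * cC (w + t • g) p g (cV (w + s • g) q g) x) +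
      (1 / 6) * Ac (fun a => ∫ u in (-1 : ℝ)..1, (1 + a * u) * cC (w + a • g) p γ (cV (w + u • g) q g) x)| ≤
      B1 + (bp + bm) := by
  have B0 : 0 ≤ B1 := (abs_nonneg _).trans (h1 0 0 (by norm_num) (by norm_num))
  have P0 : 0 ≤ bp := (abs_nonneg _).trans (hp 0 (by norm_num))
  have M0 : 0 ≤ bm := (abs_nonneg _).trans (hm 0 (by norm_num))
  have k1 : |∫ s in (-1 : ℝ)..1, ∫ t in (-1 : ℝ)..1, Kn81 t s * cC (w + t • g) p g (cV (w + s • g) q g) x| ≤ B1 := by
    have e := abs_int_le (φ := fun s => ∫ t in (-1 : ℝ)..1, Kn81 t s * cC (w + t • g) p g (cV (w + s • g) q g) x)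
      (B := B1 / 2) fun s hs => by
        have e := abs_int_le (φ := fun t => Kn81 t s * cC (w + t • g) p g (cV (w + s • g) q g) x) (B := B1 / 4) fun t ht => by
          have h2 := abs_Kn81_le (t := t) (s := s) ⟨(abs_le.1 ht).1, (abs_le.1 ht).2⟩ ⟨(abs_le.1 hs).1, (abs_le.1 hs).2⟩
          rw [abs_mul]
          calc |Kn81 t s| * |cC (w + t • g) p g (cV (w + s • g) q g) x| ≤ 1 / 4 * B1 :=
                mul_le_mul h2 (h1 t s ht hs) (abs_nonneg _) (by norm_num)
            _ = B1 / 4 := by ring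
        linarith
    linarith
  have k2 : ∀ (a b : ℝ), |a| ≤ 1 → 0 ≤ b → (∀ r : ℝ, |r| ≤ 1 → |cC (w + a • g) p γ (cV (w + r • g) q g) x| ≤ b) →
      |∫ u in (-1 : ℝ)..1, (1 + a * u) * cC (w + a • g) p γ (cV (w + u • g) q g) x| ≤ 4 * b := by
    intro a b ha hb h
    have e := abs_int_le (φ := fun u => (1 + a * u) * cC (w + a • g) p γ (cV (w + u • g) q g) x) (B := 2 * b)
      fun u hu => by
        have h4 : |1 + a * u| ≤ 2 := by
          have h5 : |a * u| ≤ 1 := by
            rw [abs_mul]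
            exact mul_le_one₀ ha (abs_nonneg _) hu
          refine (abs_add_le _ _).trans ?_
          rw [abs_one]
          linarith
        rw [abs_mul]
        exact mul_le_mul h4 (h u hu) (abs_nonneg _) (by norm_num)
    linarith
  have ep : w + (1 : ℝ) • g = w + g := by rw [one_smul]
  have em : w + (-1 : ℝ) • g = w - g := by rw [neg_one_smul, sub_eq_add_neg]
  have a1 := k2 1 bp (by norm_num) P0 fun r hr => by
    rw [ep]
    exact hp r hr
  have a2 := k2 (-1) bm (by norm_num) M0 fun r hr => by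
    rw [em]
    exact hm r hr
  have k3 : |(1 / 6) * Ac (fun a => ∫ u in (-1 : ℝ)..1, (1 + a * u) * cC (w + a • g) p γ (cV (w + u • g) q g) x)| ≤ bp + bm := by
    unfold Ac
    rw [abs_mul, abs_of_pos (by norm_num : (0 : ℝ) < 1 / 6), abs_div, abs_of_pos (by norm_num : (0 : ℝ) < 2)]
    have a3 := (abs_add_le _ _).trans (add_le_add a1 a2)
    beta_reduce
    linarith
  refine (abs_add_le _ _).trans ?_
  rw [abs_neg]
  linarith

/-- **THE DOUBLE TIES AT BOTH CORNERS.** -/
theorem N2_corner (hab : al ≤ be) {p : Px Q → Y} (hp : Crs p (pJ c d)) (hw : Wk c al be d w) (hl : Lk al be g) (hM : 1 ≤ M)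
    (hg : ∀ x, |g x| ≤ M) (hτ : |τ| ≤ 1) (m : ℝ) {γ : Px Q → ℝ} (hγ : ∀ x, |γ x| ≤ M) {δ : ℝ} (hδ : 0 ≤ δ) (x : Px Q) :
    |-(∫ s in (-1 : ℝ)..1, ∫ t in (-1 : ℝ)..1, Kn81 t s * cC (w + t • g) p g (cV (w + s • g) (pJ c d) g) x) +
      (1 / 6) * Ac (fun a => ∫ u in (-1 : ℝ)..1, (1 + a * u) * cC (w + a • g) p γ (cV (w + u • g) (pJ c d) g) x)| ≤
      4 * M ^ 3 * (Real.exp (2 * δ) * (cE (w + g) p (Ft (w + τ • g) p c al be d g m) x +
        cE (w - g) p (Ft (w + τ • g) p c al be d g m) x) +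
        min 1 (Real.exp (5 * m + 12 * M) * O1.T4 (w + τ • g) p g δ (ow (w + τ • g) p c al be d) x)) +
      4 * M ^ 3 * (i1 (Real.exp (-(5 * m)) ≤ cE2 (w + τ • g) p (NM c al be d) x x) *
        (cE (w + g) p (fun z => i1 (Real.exp (-(5 * m)) ≤ osc (w + τ • g) (pJ c d) g z)) x +
        cE (w - g) p (fun z => i1 (Real.exp (-(5 * m)) ≤ osc (w + τ • g) (pJ c d) g z)) x)) +
      16 * M ^ 3 * Real.exp (16 * M) * Real.exp (-(5 * m)) := by
  have hM0 : 0 ≤ M := by linarith
  have y0 := (Real.exp_pos (-(5 * m))).le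
  have e16 : Real.exp (8 * M) ≤ Real.exp (16 * M) := Real.exp_le_exp.2 (by linarith)
  have ep : w + (1 : ℝ) • g = w + g := by rw [one_smul]
  have em : w + (-1 : ℝ) • g = w - g := by rw [neg_one_smul, sub_eq_add_neg]
  have hM3 : 0 ≤ 4 * M ^ 3 := by positivity
  have h1 := N2_int (w := w) (g := g) (p := p) (q := pJ (Q := Q) c d) (γ := γ) x
    (fun t s ht hs => (tie_main hab hp hw hl hM hg hτ m ht hs x).trans (add_le_add_left
      (mul_le_mul_of_nonneg_left (Ft_corner hM hg hτ m ht hδ x) hM3) _))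
    (fun r hr => by
      have h := tie_end hab hp hw hl hM hg hτ m hγ (a := 1) (by norm_num) hr x
      rw [ep] at h
      exact h)
    (fun r hr => by
      have h := tie_end hab hp hw hl hM hg hτ m hγ (a := -1) (by norm_num) hr x
      rw [em] at h
      exact h)
  refine h1.trans ?_
  have e6 : 6 * M ^ 3 * Real.exp (8 * M) * Real.exp (-(5 * m)) ≤ 6 * M ^ 3 * Real.exp (16 * M) * Real.exp (-(5 * m)) :=
    mul_le_mul_of_nonneg_right (mul_le_mul_of_nonneg_left e16 (by positivity)) y0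
  linarith

end Own

end

end Pool.Agent.W_7d29a1_C0.N25
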