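import Pool.Agent.W_7d29a1_C0.Tau86

/-!
C0, helper86: THE GENERAL PRICE IN THE MODEL FORM: `∫ gm (wm ..) (f * ∏ G i) dPm ≤ ∏ (L ^ ε / EE' (l i)) ∫ gm (wm ..) f dPm + error`, for
conditional masses (amplified by `exp (L ^ κ)`) of gaps and for robust events `Tau`. No measurability of the `G i` is needed.
-/

set_option autoImplicit false

namespace Pool.Agent.W_7d29a1_C0.P86

open MeasureTheory ProbabilityTheory Filter Topology Finset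
open Pool.Agent.W_7d29a1_F Pool.Agent.W_7d29a1_X Pool.Agent.W_7d29a1_h4g Pool.Agent.W_7d29a1_H
open Pool.Agent.W_7d29a1_HS (In wd md)
open Pool.Agent.W_7d29a1_HZ Pool.Agent.W_7d29a1_HZ.R72 Pool.Agent.W_7d29a1_Z.Asm72
open Pool.Agent.W_7d29a1_HZ.Z86
open Pool.Agent.W_7d29a1_C0.Mod92 (Px Pn lw ps pJ ne_Pn ps_Pn pos_card ps_of_le ps_of_ge wm Pm meas_lw meas_cE meas_gz meas_gm int_Pm)
open Pool.Agent.W_7d29a1_C0.Swap57 (NI)
open Pool.W7d29a1.C0 (gm gz gz_pos gm_nonneg gm_mono gm_const)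
open Pool.W7d29a1.C0.VT31 (Mp cE gm_mul_cE fz cE_sum)
open Pool.W7d29a1.C0.R43 (Tau Rp mI st swP_pJ tau_rp)
open scoped ENNReal

variable {μ : Measure ℝ} {s : ℝ} {N : ℕ}

/-! ### Functions of a path of the model -/

open Classical in
/-- A function on the pinned paths, extended by zero. -/
noncomputable def exP {y : ℕ} (φ : Px (Pn N y) → ℝ) (S : Finset ℕ) : ℝ := if h : S ∈ Pn N y then φ ⟨S, h⟩ else 0

theorem exP_of {y : ℕ} (φ : Px (Pn N y) → ℝ) (x : Px (Pn N y)) : exP φ x.1 = φ x := by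
  unfold exP
  rw [dif_pos x.2]

theorem exP_nonneg {y : ℕ} {φ : Px (Pn N y) → ℝ} (h : ∀ x, 0 ≤ φ x) (S : Finset ℕ) : 0 ≤ exP φ S := by
  unfold exP
  split_ifs
  · exact h _
  · exact le_rfl

theorem exP_le {y : ℕ} {φ : Px (Pn N y) → ℝ} (h : ∀ x, φ x ≤ 1) (S : Finset ℕ) : exP φ S ≤ 1 := by
  unfold exP
  split_ifs
  · exact h _
  · exact zero_le_one

theorem gm_exP {y : ℕ} (η : Env) (φ : Px (Pn N y) → ℝ) :
    gm (lw μ s η N (Pn N y)) φ = ∑ S ∈ (range N).powerset, gp μ s η N y S * exP φ S := by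
  rw [← Pool.Agent.W_7d29a1_C0.Bri36.gm_Pn η (exP φ)]
  congr 1
  funext x
  exact (exP_of φ x).symm

theorem sum_exP {y : ℕ} (η : Env) {φ : Px (Pn N y) → ℝ} (h : ∀ x, 0 ≤ φ x) :
    ∑ S ∈ (range N).powerset, ENNReal.ofReal (gp μ s η N y S) * ENNReal.ofReal (exP φ S) =
      ENNReal.ofReal (gm (lw μ s η N (Pn N y)) φ) := by
  rw [gm_exP, ENNReal.ofReal_sum_of_nonneg fun S _ => mul_nonneg (Pool.Agent.W_7d29a1_HZ.gp_nonneg η N y S) (exP_nonneg h S)]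
  exact sum_congr rfl fun S _ => (ENNReal.ofReal_mul (Pool.Agent.W_7d29a1_HZ.gp_nonneg η N y S)).symm

theorem Q1_exP {y : ℕ} {X : Env → Px (Pn N y) → ℝ} (h : ∀ η x, 0 ≤ X η x) :
    Q1 μ s N y (fun η S => ENNReal.ofReal (exP (X η) S)) = ∫⁻ η, ENNReal.ofReal (gm (lw μ s η N (Pn N y)) (X η)) ∂law μ :=
  lintegral_congr fun η => sum_exP η (h η)

/-! ### Integrals -/

theorem int_le_toReal {Ω : Type*} [MeasurableSpace Ω] {ν : Measure Ω} {Φ : Ω → ℝ} (h : ∀ ω, 0 ≤ Φ ω) :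
    ∫ ω, Φ ω ∂ν ≤ (∫⁻ ω, ENNReal.ofReal (Φ ω) ∂ν).toReal := by
  by_cases hi : Integrable Φ ν
  · rw [← ofReal_integral_eq_lintegral_ofReal hi (Filter.Eventually.of_forall h), ENNReal.toReal_ofReal (integral_nonneg h)]
  · rw [integral_undef hi]
    exact ENNReal.toReal_nonneg

theorem lint_Pm_le (Φ : Env × Finset ℕ → ℝ≥0∞) :
    ∫⁻ ω, Φ ω ∂(Pm μ N) ≤ (2 ^ N : ℝ≥0∞)⁻¹ * ∑ A ∈ (range N).powerset, ∫⁻ η, Φ (η, A) ∂(law μ) := by
  unfold Pm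
  rw [lintegral_smul_measure, smul_eq_mul, lintegral_finsetSum_measure]
  exact mul_le_mul' le_rfl (sum_le_sum fun A _ => lintegral_map_le _ _)

variable [IsProbabilityMeasure μ]

/-- **From `Q1` to the integrals of the model.** -/
theorem int_of_Q1 {y : ℕ} (hy : y ≤ N) {X f : Env × Finset ℕ → Px (Pn N y) → ℝ} (hX : ∀ ω x, 0 ≤ X ω x)
    (hfm : ∀ A x, Measurable fun η => f (η, A) x) (hf0 : ∀ ω x, 0 ≤ f ω x) (hf1 : ∀ ω x, f ω x ≤ 1) {R e : ℝ} (hR : 0 ≤ R) (he : 0 ≤ e)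
    (h : ∀ A : Finset ℕ, Q1 μ s N y (fun η S => ENNReal.ofReal (exP (X (η, A)) S)) ≤
      ENNReal.ofReal R * Q1 μ s N y (fun η S => ENNReal.ofReal (exP (f (η, A)) S)) + ENNReal.ofReal e) :
    ∫ ω, gm (wm μ s N (Pn N y) ω) (X ω) ∂(Pm μ N) ≤ R * ∫ ω, gm (wm μ s N (Pn N y) ω) (f ω) ∂(Pm μ N) + e := by
  have := ne_Pn (N := N) (y := y) hy
  have hf2 : ∀ ω, 0 ≤ gm (wm μ s N (Pn N y) ω) (f ω) := fun ω => gm_nonneg _ (hf0 ω)
  have hf3 : ∀ ω, gm (wm μ s N (Pn N y) ω) (f ω) ≤ 1 := fun ω =>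
    (gm_mono _ (hf1 ω)).trans_eq (gm_const _ 1)
  have hfmm : ∀ A, Measurable fun η => gm (lw μ s η N (Pn N y)) (f (η, A)) := fun A =>
    meas_gm (fun x => meas_lw x) fun x => hfm A x
  have hfi : ∀ A, Integrable (fun η => gm (lw μ s η N (Pn N y)) (f (η, A))) (law μ) := fun A =>
    Integrable.of_bound (hfmm A).aestronglyMeasurable 1 (Filter.Eventually.of_forall fun η => by
      rw [Real.norm_eq_abs]
      show |gm (wm μ s N (Pn N y) (η, A)) (f (η, A))| ≤ 1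
      rw [abs_of_nonneg (hf2 (η, A))]
      exact hf3 (η, A))
  have h1 := int_le_toReal (ν := Pm μ N) (Φ := fun ω => gm (wm μ s N (Pn N y) ω) (X ω)) fun ω => gm_nonneg _ (hX ω)
  have h2N : (2 ^ N : ℝ≥0∞)⁻¹ * (2 ^ N : ℝ≥0∞) = 1 := ENNReal.inv_mul_cancel (by positivity) (by simp)
  have h2 : ∫⁻ ω, ENNReal.ofReal (gm (wm μ s N (Pn N y) ω) (X ω)) ∂(Pm μ N) ≤
      ENNReal.ofReal R * ENNReal.ofReal (∫ ω, gm (wm μ s N (Pn N y) ω) (f ω) ∂(Pm μ N)) + ENNReal.ofReal e := by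
    refine (lint_Pm_le _).trans ?_
    have e1 : ∀ A ∈ (range N).powerset, ∫⁻ η, ENNReal.ofReal (gm (wm μ s N (Pn N y) (η, A)) (X (η, A))) ∂(law μ) ≤
        ENNReal.ofReal R * ENNReal.ofReal (∫ η, gm (lw μ s η N (Pn N y)) (f (η, A)) ∂(law μ)) + ENNReal.ofReal e := by
      intro A _
      have h3 := h A
      rw [Q1_exP (fun η x => hX (η, A) x), Q1_exP (fun η x => hf0 (η, A) x)] at h3
      rw [ofReal_integral_eq_lintegral_ofReal (hfi A) (Filter.Eventually.of_forall fun η => hf2 (η, A))]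
      exact h3
    refine (mul_le_mul' le_rfl (sum_le_sum e1)).trans ?_
    rw [sum_add_distrib, mul_add, ← mul_sum, sum_const, card_powerset, card_range, nsmul_eq_mul, Nat.cast_pow, Nat.cast_ofNat, ← mul_assoc,
      ← mul_assoc, h2N, one_mul, mul_comm _ (ENNReal.ofReal R), mul_assoc]
    refine add_le_add (mul_le_mul' le_rfl (le_of_eq ?_)) le_rfl
    have e2 := int_Pm (μ := μ) (N := N) (Φ := fun ω => gm (wm μ s N (Pn N y) ω) (f ω)) (fun A _ => hfi A) hfmm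
    rw [e2, ENNReal.ofReal_mul (by positivity), ENNReal.ofReal_sum_of_nonneg fun A _ => integral_nonneg fun η => hf2 (η, A)]
    congr 1
    rw [ENNReal.ofReal_inv_of_pos (by positivity), ENNReal.ofReal_pow (by norm_num)]
    norm_num
  have h4 : 0 ≤ ∫ ω, gm (wm μ s N (Pn N y) ω) (f ω) ∂(Pm μ N) := integral_nonneg hf2
  refine h1.trans ((ENNReal.toReal_mono (by simp [ENNReal.mul_eq_top]) h2).trans_eq ?_)
  rw [ENNReal.toReal_add (by simp [ENNReal.mul_eq_top]) (by simp), ENNReal.toReal_mul, ENNReal.toReal_ofReal hR, ENNReal.toReal_ofReal h4,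
    ENNReal.toReal_ofReal he]

variable {c₀ C₀ : ℝ} {n₀ : ℕ}

omit [IsProbabilityMeasure μ] in
theorem exP_cE {y c d : ℕ} (A : Finset ℕ → Finset ℕ → Prop) [∀ S S', Decidable (A S S')] (η : Env) (x : Px (Pn N y)) :
    cE (lw μ s η N (Pn N y)) (pJ c d) (fun x' => if A x.1 x'.1 then (1 : ℝ) else 0) x = mc μ s N y c d A η x.1 := by
  classical
  unfold mc
  rw [dif_pos x.2]
  congr 1
  funext x'
  by_cases h : A x.1 x'.1
  · rw [if_pos h, if_pos h]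
  · rw [if_neg h, if_neg h]

/-- **THE GENERAL PRICE WITH ROBUST EVENTS, model form.** -/
theorem tauI (h : In μ s c₀ C₀ n₀) (k : ℕ) (hk : k ≤ 8) : ∀ ε θ : ℝ, 0 < ε → 0 < θ → ∃ δ κ c₂ : ℝ, 0 < δ ∧ 0 < κ ∧ 0 < c₂ ∧ ∃ L₀ : ℕ,
    ∀ L : ℕ, L₀ ≤ L → ∀ N : ℕ, L ≤ 16 * N → N ≤ L → ∀ y : ℕ, y ≤ N → |(y : ℝ) - sl μ s * N| ≤ ((L : ℝ) ^ δ * wd' μ s N) →
    ∀ c d c' d' U V l : Fin k → ℕ, (∀ i, c i ≤ c' i ∧ c' i ≤ U i ∧ U i ≤ V i ∧ V i ≤ d' i ∧ d' i ≤ d i ∧ d i ≤ N) →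
    (∀ i, (L : ℝ) ^ θ ≤ l i) → ∀ (T : Fin k → Prop) (Jf : Fin k → Finset ℕ),
    (∀ i, (Jf i = Ioo (c' i) (d' i) ∧ ∀ i', i < i' → d' i ≤ c' i' ∨ d' i' ≤ c' i ∨
        (¬ T i ∧ (d' i' ≤ U i ∨ V i ≤ c' i') ∧ 4 * (d' i' - c' i') ≤ l i)) ∨
      (Jf i = Ioo (U i) (d' i) ∧ ∀ i', i < i' → d' i' ≤ U i ∨ d' i ≤ c' i') ∨
      (Jf i = Ioo (c' i) (V i) ∧ ∀ i', i < i' → V i ≤ c' i' ∨ d' i' ≤ c' i)) →
    ∀ M : ℝ, 8 ≤ M → M ≤ (L : ℝ) ^ κ →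
    ∀ G : Fin k → Env × Finset ℕ → Px (Pn N y) → ℝ, (∀ i ω x, 0 ≤ G i ω x) → (∀ i ω x, G i ω x ≤ 1) →
    (∀ i, ¬ T i → ∃ (A : Finset ℕ → Finset ℕ → Prop) (n₁ : ℕ) (u v : ℕ → ℕ), (n₁ : ℝ) ≤ (L : ℝ) ^ κ ∧
      (∀ n < n₁, U i ≤ u n ∧ u n + l i ≤ v n ∧ v n ≤ V i) ∧
      (∀ S S', S ⊆ range N → S' ⊆ range N → pos S N = y → pos S' N = y → (∀ j, j ≤ c i ∨ d i ≤ j → pos S j = pos S' j) →
        A S S' → ∃ n < n₁, Gap (c' i) (d' i) (u n) (v n) S S') ∧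
      ∀ ω x, G i ω x ≤ Real.exp ((L : ℝ) ^ κ) * mc μ s N y (c i) (d i) A ω.1 x.1) →
    (∀ i, T i → c' i = c i ∧ d' i = d i ∧ U i + l i ≤ V i ∧
      ∀ ω x, ¬ Tau (wm μ s N (Pn N y) ω) (pJ (c i) (d i)) (U i) (V i) M x → G i ω x ≤ Real.exp (-M)) →
    ∀ f : Env × Finset ℕ → Px (Pn N y) → ℝ, (∀ A x, Measurable fun η => f (η, A) x) → (∀ ω x, 0 ≤ f ω x) → (∀ ω x, f ω x ≤ 1) →
    (∀ i (η η' : Env) A x, (∀ q : Pt, ¬ (0 ≤ q.1 ∧ q.1.toNat ∈ Jf i) → η q = η' q) → f (η, A) x = f (η', A) x) →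
    ∫ ω, gm (wm μ s N (Pn N y) ω) (fun x => f ω x * ∏ i, G i ω x) ∂(Pm μ N) ≤
      (∏ i, ((L : ℝ) ^ ε * (EE' μ s (l i))⁻¹)) * ∫ ω, gm (wm μ s N (Pn N y) ω) (f ω) ∂(Pm μ N) +
        (Real.exp (-(L : ℝ) ^ c₂) + 2 * k * Real.exp (-M)) := by
  intro ε θ hε hθ
  obtain ⟨δ, κ, c₂, hδ, hκ, hc₂, L₀, hP⟩ := tauQ h k hk ε θ hε hθ
  refine ⟨δ, κ, c₂, hδ, hκ, hc₂, L₀, ?_⟩
  intro L hL N hLN hNL y hyN hyc c d c' d' U V l hblk hl T Jf hT M hM hML G hG0 hG1 hg hτ f hfm hf0 hf1 hfo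
  classical
  have hE : ∀ n, (0 : ℝ) < EE' μ s n := fun n => lt_of_lt_of_le one_pos (le_max_left _ _)
  have hr0 : ∀ i, 0 ≤ (L : ℝ) ^ ε * (EE' μ s (l i))⁻¹ := fun i => mul_nonneg (Real.rpow_nonneg (Nat.cast_nonneg _) _) (inv_nonneg.2 (hE _).le)
  refine int_of_Q1 hyN (fun ω x => mul_nonneg (hf0 ω x) (prod_nonneg fun i _ => hG0 i ω x)) hfm hf0 hf1 (prod_nonneg fun i _ => hr0 i)
    (by positivity) fun A₀ => ?_
  have h1 := hP L hL N hLN hNL y hyN hyc c d c' d' U V l hblk hl T Jf hT M hM hML (fun i η S => ENNReal.ofReal (exP (G i (η, A₀)) S))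
    (fun i η S => ENNReal.ofReal_le_one.2 (exP_le (hG1 i (η, A₀)) S)) (fun i hi => ?_) (fun i hi => ?_)
    (fun η S => ENNReal.ofReal (exP (f (η, A₀)) S)) (fun S => ?_) (fun η S => ENNReal.ofReal_le_one.2 (exP_le (hf1 (η, A₀)) S)) (fun i η η' S hη => ?_)
  · refine le_trans (le_of_eq ?_) (h1.trans (le_of_eq ?_))
    · congr 1
      funext η S
      rw [← ENNReal.ofReal_prod_of_nonneg fun i _ => exP_nonneg (hG0 i (η, A₀)) S, ← ENNReal.ofReal_mul (exP_nonneg (hf0 (η, A₀)) S)]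
      congr 1
      unfold exP
      by_cases hS : S ∈ Pn N y
      · simp only [dif_pos hS]
      · simp only [dif_neg hS, zero_mul]
    · rw [ENNReal.ofReal_prod_of_nonneg fun i _ => hr0 i, ENNReal.ofReal_add (by positivity) (by positivity), add_assoc,
        ENNReal.ofReal_mul (by positivity), ENNReal.ofReal_mul (by positivity), ENNReal.ofReal_natCast, ENNReal.ofReal_ofNat]
  · obtain ⟨A, n₁, u, v, a1, a2, a3, a4⟩ := hg i hi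
    refine ⟨A, n₁, u, v, a1, a2, a3, fun η S => ?_⟩
    rw [← ENNReal.ofReal_mul (Real.exp_pos _).le]
    refine ENNReal.ofReal_le_ofReal ?_
    unfold exP
    by_cases hS : S ∈ Pn N y
    · rw [dif_pos hS]
      exact a4 (η, A₀) ⟨S, hS⟩
    · rw [dif_neg hS]
      exact mul_nonneg (Real.exp_pos _).le (by unfold mc; rw [dif_neg hS])
  · obtain ⟨a1, a2, a3, a4⟩ := hτ i hi
    refine ⟨a1, a2, a3, fun η S hnT => ENNReal.ofReal_le_ofReal ?_⟩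
    unfold exP
    by_cases hS : S ∈ Pn N y
    · rw [dif_pos hS]
      exact a4 (η, A₀) ⟨S, hS⟩ fun h' => hnT ⟨hS, h'⟩
    · rw [dif_neg hS]
      exact (Real.exp_pos _).le
  · refine ENNReal.measurable_ofReal.comp ?_
    unfold exP
    by_cases hS : S ∈ Pn N y
    · simp only [dif_pos hS]
      exact hfm A₀ _
    · simp only [dif_neg hS]
      exact measurable_const
  · show ENNReal.ofReal (exP (f (η, A₀)) S) = ENNReal.ofReal (exP (f (η', A₀)) S)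
    congr 1
    unfold exP
    by_cases hS : S ∈ Pn N y
    · rw [dif_pos hS, dif_pos hS]
      exact hfo i η η' A₀ ⟨S, hS⟩ hη
    · rw [dif_neg hS, dif_neg hS]

end Pool.Agent.W_7d29a1_C0.P86
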