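import Pool.Agent.W_7d29a1_C0.Size1B
import Pool.Agent.W_7d29a1_C0.Base5C
import Pool.Agent.W_7d29a1_C0.Tau86B
import Pool.Agent.W_7d29a1_C0.StripP80

/-!
MP_7d29a1_pr, [CURV0], leaf E5 (helper23): THE SIZES OF THE PIECES OF THE CHANGE OF BASE IN THE MODEL. `tj` = the indicator (two sides) of
the near tie of the window `[j - b, j + b)` given the ends of `[j - b', j + b')`, at the true weights; `abs_N5e_tj`, `abs_N25e_tj`,
`abs_M5e_tj`: pathwise bounds; `tj_price`: the weighted price of `tj`; `sq_price`: the second moment of one row.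
-/

set_option autoImplicit false
set_option linter.unusedSectionVars false

namespace Pool.Agent.W_7d29a1_C0.Sz23

open Finset MeasureTheory Pool.Agent.W_7d29a1_F Pool.Agent.W_7d29a1_X Pool.Agent.W_7d29a1_H Pool.Agent.W_7d29a1_C0.Mod92
open Pool.Agent.W_7d29a1_HS (In)
open Pool.Agent.W_7d29a1_HZ (wd' EE')
open Pool.Agent.W_7d29a1_C0.Strip80 (OffD)
open Pool.Agent.W_7d29a1_C0.Swap57 Pool.Agent.W_7d29a1_C0.Base5
open Pool.W7d29a1.C0 Pool.W7d29a1.C0.VT31 Pool.W7d29a1.C0.R43 Pool.W7d29a1.C0.S1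

noncomputable section

variable {μ : Measure ℝ} {s : ℝ} {N y : ℕ}

/-- The near tie of the window of the row `j`, told from the ends of the larger window. -/
def tj (μ : Measure ℝ) (s : ℝ) (N : ℕ) (Q : Finset (Finset ℕ)) (b0 b b' : ℕ) (m : ℝ) (ω : Env × Finset ℕ) (j : ℕ) : Px Q → ℝ :=
  tI (wm μ s N Q ω) (pW b' j) (j - b) (j - b0) (j + b0) (j + b) m

theorem tj_nonneg (Q : Finset (Finset ℕ)) (b0 b b' : ℕ) (m : ℝ) (ω : Env × Finset ℕ) (j : ℕ) (S : Px Q) : 0 ≤ tj μ s N Q b0 b b' m ω j S :=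
  add_nonneg (i1_nonneg _) (i1_nonneg _)

theorem i1_le (A : Prop) : i1 A ≤ 1 := by
  unfold i1
  split_ifs <;> norm_num

section Pathwise

variable {Q : Finset (Finset ℕ)} [SwQ Q] [Nonempty (Px Q)] {B δ : ℝ} {b0 b b' : ℕ}

theorem w5_back (δ B : ℝ) (b0 : ℕ) (ω : Env × Finset ℕ) (j : ℕ) :
    w5 μ s N Q δ B b0 ω j + (sr ω.2 j) • Mod92.gg μ s Q δ B b0 ω j = wm μ s N Q ω := by
  unfold w5
  abel

theorem abs_sr_le (A : Finset ℕ) (j : ℕ) : |sr A j| ≤ 1 := by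
  unfold sr sg
  split_ifs <;> norm_num

theorem wk5 (δ B : ℝ) (ω : Env × Finset ℕ) (j c d : ℕ) : Wk c (j - b0) (j + b0) d (w5 μ s N Q δ B b0 ω j) := by
  have h1 : Wk (Q := Q) c (j - b0) (j + b0) d (wm μ s N Q ω) := Wk_lw ω.1 (by omega)
  have h2 : Lk (j - b0) (j + b0) (Mod92.gg μ s Q δ B b0 ω j) := Lk_gg δ B b0 j ω le_rfl le_rfl
  have h3 := h1.add ((h2.Wk (c := c) (d := d)).smul (-(sr ω.2 j)))
  rw [neg_smul, ← sub_eq_add_neg] at h3
  exact h3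

/-- **Size of the third order part.** -/
theorem abs_N5e_tj (hB : 1 ≤ B) (hb : b ≤ b') (ω : Env × Finset ℕ) (j : ℕ) (S : Px Q) (m : ℝ) :
    |N5e μ s N Q δ B b0 b b' ω j S| ≤ 8 * B ^ 4 * tj μ s N Q b0 b b' m ω j S + 16 * B ^ 4 * Real.exp (16 * B) * Real.exp (-(5 * m)) := by
  have h := mod_N1 (Q := Q) (c := j - b) (al := j - b0) (be := j + b0) (d := j + b) (c' := j - b') (d' := j + b')
    (w := w5 μ s N Q δ B b0 ω j) (g := Mod92.gg μ s Q δ B b0 ω j) (M := B) (τ := sr ω.2 j) (by omega) (wk5 δ B ω j _ _)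
    (Lk_gg δ B b0 j ω le_rfl le_rfl) hB (fun S => (abs_gg (by linarith) b0 ω j S).trans (by linarith)) (abs_sr_le _ _) (by omega)
    (by omega) S m
  rw [w5_back] at h
  unfold N5e N1g
  rw [abs_neg]
  refine h.trans (le_of_eq ?_)
  unfold tj pW
  ring

/-- **Size of the double ties.** -/
theorem abs_N25e_tj (hB : 1 ≤ B) (hb : b ≤ b') (ω : Env × Finset ℕ) (j : ℕ) (S : Px Q) (m : ℝ) :
    |N25e μ s N Q δ B b0 b b' ω j S| ≤ 4 * B ^ 3 * tj μ s N Q b0 b b' m ω j S +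
      (20 * B ^ 3 + 4 * B ^ 2) * Real.exp (16 * B) * Real.exp (-(5 * m)) := by
  have h := mod_N2 (Q := Q) (c := j - b) (al := j - b0) (be := j + b0) (d := j + b) (c' := j - b') (d' := j + b')
    (w := w5 μ s N Q δ B b0 ω j) (g := Mod92.gg μ s Q δ B b0 ω j) (M := B) (τ := sr ω.2 j) (by omega) (wk5 δ B ω j _ _)
    (Lk_gg δ B b0 j ω le_rfl le_rfl) hB (fun S => (abs_gg (by linarith) b0 ω j S).trans (by linarith)) (abs_sr_le _ _) (by omega)
    (by omega) S m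
  rw [w5_back] at h
  unfold N25e N2g
  refine h.trans ?_
  have h1 : tj μ s N Q b0 b b' m ω j S * i1 (Real.exp (-(5 * m)) ≤
      cE (wm μ s N Q ω) (pJ (j - b') (j + b')) (osc (wm μ s N Q ω) (pJ (j - b) (j + b)) (Mod92.gg μ s Q δ B b0 ω j)) S) ≤
      tj μ s N Q b0 b b' m ω j S := by
    have := i1_le (Real.exp (-(5 * m)) ≤
      cE (wm μ s N Q ω) (pJ (j - b') (j + b')) (osc (wm μ s N Q ω) (pJ (j - b) (j + b)) (Mod92.gg μ s Q δ B b0 ω j)) S)
    have := tj_nonneg (μ := μ) (s := s) (N := N) Q b0 b b' m ω j S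
    nlinarith
  have h2 : (0 : ℝ) ≤ 4 * B ^ 3 := by positivity
  have h3 := mul_le_mul_of_nonneg_left h1 h2
  refine (add_le_add h3 le_rfl).trans (le_of_eq ?_)
  ring

/-- **Size of the odd part.** -/
theorem abs_M5e_tj (hB : 1 ≤ B) (hb : b ≤ b') (ω : Env × Finset ℕ) (j : ℕ) (S : Px Q) (m : ℝ) :
    |M5e μ s N Q δ B b0 b b' ω j S| ≤ 2 * B ^ 2 * tj μ s N Q b0 b b' m ω j S + 8 * B ^ 2 * Real.exp (16 * B) * Real.exp (-(5 * m)) := by
  have h := mod_M (Q := Q) (c := j - b) (al := j - b0) (be := j + b0) (d := j + b) (c' := j - b') (d' := j + b')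
    (w := w5 μ s N Q δ B b0 ω j) (g := Mod92.gg μ s Q δ B b0 ω j) (M := B) (τ := sr ω.2 j) (by omega) (wk5 δ B ω j _ _)
    (Lk_gg δ B b0 j ω le_rfl le_rfl) hB (fun S => (abs_gg (by linarith) b0 ω j S).trans (by linarith)) (abs_sr_le _ _) (by omega)
    (by omega) S m
  rw [w5_back] at h
  unfold M5e Mg Fg
  refine h.trans (le_of_eq ?_)
  unfold tj pW
  ring

end Pathwise

/-! ### The price -/

section Price

variable [IsProbabilityMeasure μ] {c₀ C₀ : ℝ} {n₀ : ℕ}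

/-- **The weighted price of one side.** -/
theorem side_price (h : In μ s c₀ C₀ n₀) : ∀ ε θ : ℝ, 0 < ε → 0 < θ → ∃ δ κ c₂ : ℝ, 0 < δ ∧ 0 < κ ∧ 0 < c₂ ∧ ∃ L₀ : ℕ,
    ∀ L : ℕ, L₀ ≤ L → ∀ N : ℕ, L ≤ 16 * N → N ≤ L → ∀ y : ℕ, y ≤ N → |(y : ℝ) - sl μ s * N| ≤ ((L : ℝ) ^ δ * wd' μ s N) →
    ∀ c d U V l : ℕ, c ≤ U → U + l ≤ V → V ≤ d → d ≤ N → (L : ℝ) ^ θ ≤ l → ∀ m : ℝ, 8 ≤ m → m ≤ (L : ℝ) ^ κ →
    ∀ (D : Env × Finset ℕ → Px (Pn N y) → ℝ) (M : ℝ), 0 < M → (∀ ω S, |D ω S| ≤ M) → (∀ S, Measurable fun ω => D ω S) →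
    OffD (Ioo c d) D →
    ∫ ω, gm (wm μ s N (Pn N y) ω) (fun S => |D ω S| * i1 (Tau (wm μ s N (Pn N y) ω) (pJ c d) U V m S)) ∂(Pm μ N) ≤
      ((L : ℝ) ^ ε * (EE' μ s l)⁻¹) * (∫ ω, gm (wm μ s N (Pn N y) ω) (fun S => |D ω S|) ∂(Pm μ N)) +
        M * (Real.exp (-(L : ℝ) ^ c₂) + 2 * Real.exp (-m)) := by
  intro ε θ hε hθ
  obtain ⟨δ, κ, c₂, hδ, hκ, hc₂, L₀, hP⟩ := P86.tauI h 1 (by norm_num) ε θ hε hθ
  refine ⟨δ, κ, c₂, hδ, hκ, hc₂, L₀, ?_⟩
  intro L hL N hLN hNL y hyN hyc c d U V l hcU hUV hVd hdN hl m hm hm' D M hM hD hDm hDo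
  have h1 := hP L hL N hLN hNL y hyN hyc (fun _ => c) (fun _ => d) (fun _ => c) (fun _ => d) (fun _ => U) (fun _ => V) (fun _ => l)
    (fun _ => ⟨le_rfl, hcU, by omega, hVd, le_rfl, hdN⟩) (fun _ => hl) (fun _ => True) (fun _ => Ioo c d)
    (fun i => Or.inl ⟨rfl, fun i' hi' => absurd hi' (by
      rw [Fin.lt_def]
      have := i.isLt
      have := i'.isLt
      omega)⟩) m hm hm'
    (fun _ ω x => i1 (Tau (wm μ s N (Pn N y) ω) (pJ c d) U V m x)) (fun _ ω x => i1_nonneg _) (fun _ ω x => i1_le _)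
    (fun _ ht => absurd trivial ht)
    (fun _ _ => ⟨rfl, rfl, hUV, fun ω x hx => by
      rw [i1_not hx]
      exact (Real.exp_pos _).le⟩)
    (fun ω x => |D ω x| / M) (fun A x => (((hDm x).comp (meas_pair A)).abs).div_const M) (fun ω x => by positivity)
    (fun ω x => by
      rw [div_le_one hM]
      exact hD ω x)
    (fun _ η η' A x hη => by
      show |D (η, A) x| / M = |D (η', A) x| / M
      rw [hDo η η' A x hη])
  simp only [univ_unique, prod_const, card_singleton, pow_one, Nat.cast_one] at h1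
  have e1 : ∀ ω : Env × Finset ℕ, gm (wm μ s N (Pn N y) ω) (fun x => |D ω x| / M * i1 (Tau (wm μ s N (Pn N y) ω) (pJ c d) U V m x)) =
      M⁻¹ * gm (wm μ s N (Pn N y) ω) (fun x => |D ω x| * i1 (Tau (wm μ s N (Pn N y) ω) (pJ c d) U V m x)) := fun ω => by
    rw [← Strip80.gm_mul_left]
    congr 1
    funext x
    rw [div_eq_inv_mul, mul_assoc]
  have e2 : ∀ ω : Env × Finset ℕ, gm (wm μ s N (Pn N y) ω) (fun x => |D ω x| / M) =
      M⁻¹ * gm (wm μ s N (Pn N y) ω) (fun x => |D ω x|) := fun ω => by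
    rw [← Strip80.gm_mul_left]
    congr 1
    funext x
    rw [div_eq_inv_mul]
  simp only [e1, e2, integral_const_mul] at h1
  have h2 := mul_le_mul_of_nonneg_left h1 hM.le
  rw [mul_inv_cancel_left₀ hM.ne'] at h2
  refine h2.trans (le_of_eq ?_)
  rw [mul_add, mul_left_comm, mul_inv_cancel_left₀ hM.ne', mul_one]

theorem meas_tau [Nonempty (Px (Pn N y))] (p : Px (Pn N y) → Finset ℕ × ℕ) (U V : ℕ) (m : ℝ) (S : Px (Pn N y)) :
    MeasurableSet {ω : Env × Finset ℕ | Tau (wm μ s N (Pn N y) ω) p U V m S} := by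
  have h1 : ∀ z : Px (Pn N y), Measurable fun ω : Env × Finset ℕ => cE (wm μ s N (Pn N y) ω) p (NI U V z) S := fun z =>
    meas_cE (w := fun ω : Env × Finset ℕ => wm μ s N (Pn N y) ω) (f := fun _ => NI U V z) meas_wm (fun z' => measurable_const) p S
  have h2 : Measurable fun ω : Env × Finset ℕ => cE (wm μ s N (Pn N y) ω) p (fun z => cE (wm μ s N (Pn N y) ω) p (NI U V z) S) S :=
    meas_cE (w := fun ω : Env × Finset ℕ => wm μ s N (Pn N y) ω)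
      (f := fun (ω : Env × Finset ℕ) z => cE (wm μ s N (Pn N y) ω) p (NI U V z) S) meas_wm h1 p S
  exact measurableSet_le measurable_const h2

theorem meas_tj [Nonempty (Px (Pn N y))] (b0 b b' : ℕ) (m : ℝ) (j : ℕ) (S : Px (Pn N y)) :
    Measurable fun ω : Env × Finset ℕ => tj μ s N (Pn N y) b0 b b' m ω j S := by
  unfold tj tI i1
  exact (Measurable.ite (meas_tau _ _ _ _ _) measurable_const measurable_const).add
    (Measurable.ite (meas_tau _ _ _ _ _) measurable_const measurable_const)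

theorem tj_le (Q : Finset (Finset ℕ)) (b0 b b' : ℕ) (m : ℝ) (ω : Env × Finset ℕ) (j : ℕ) (S : Px Q) : tj μ s N Q b0 b b' m ω j S ≤ 2 := by
  have h1 := i1_le (Tau (wm μ s N Q ω) (pW b' j) (j - b) (j - b0) m S)
  have h2 := i1_le (Tau (wm μ s N Q ω) (pW b' j) (j + b0) (j + b) m S)
  unfold tj tI
  linarith

/-- **The weighted price of the near tie of the window.** -/
theorem tj_price (h : In μ s c₀ C₀ n₀) : ∀ ε θ : ℝ, 0 < ε → 0 < θ → ∃ δ κ c₂ : ℝ, 0 < δ ∧ 0 < κ ∧ 0 < c₂ ∧ ∃ L₀ : ℕ,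
    ∀ L : ℕ, L₀ ≤ L → ∀ N : ℕ, L ≤ 16 * N → N ≤ L → ∀ y : ℕ, y ≤ N → |(y : ℝ) - sl μ s * N| ≤ ((L : ℝ) ^ δ * wd' μ s N) →
    ∀ b0 b b' j : ℕ, b0 ≤ b → b ≤ b' → b' ≤ j → j + b' ≤ N → (L : ℝ) ^ θ ≤ ((b - b0 : ℕ) : ℝ) → ∀ m : ℝ, 8 ≤ m → m ≤ (L : ℝ) ^ κ →
    ∀ (D : Env × Finset ℕ → Px (Pn N y) → ℝ) (M : ℝ), 0 < M → (∀ ω S, |D ω S| ≤ M) → (∀ S, Measurable fun ω => D ω S) →
    OffD (Ioo (j - b') (j + b')) D →
    ∫ ω, gm (wm μ s N (Pn N y) ω) (fun S => |D ω S| * tj μ s N (Pn N y) b0 b b' m ω j S) ∂(Pm μ N) ≤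
      (2 * ((L : ℝ) ^ ε * (EE' μ s (b - b0))⁻¹)) * (∫ ω, gm (wm μ s N (Pn N y) ω) (fun S => |D ω S|) ∂(Pm μ N)) +
        2 * M * (Real.exp (-(L : ℝ) ^ c₂) + 2 * Real.exp (-m)) := by
  intro ε θ hε hθ
  obtain ⟨δ, κ, c₂, hδ, hκ, hc₂, L₀, hP⟩ := side_price (μ := μ) (s := s) h ε θ hε hθ
  refine ⟨δ, κ, c₂, hδ, hκ, hc₂, L₀, ?_⟩
  intro L hL N hLN hNL y hyN hyc b0 b b' j hb0 hb hbj hjN hl m hm hm' D M hM hD hDm hDo
  have hne : Nonempty (Px (Pn N y)) := ne_Pn hyN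
  have h1 := hP L hL N hLN hNL y hyN hyc (j - b') (j + b') (j - b) (j - b0) (b - b0) (by omega) (by omega) (by omega) hjN hl m hm hm'
    D M hM hD hDm hDo
  have h2 := hP L hL N hLN hNL y hyN hyc (j - b') (j + b') (j + b0) (j + b) (b - b0) (by omega) (by omega) (by omega) hjN hl m hm hm'
    D M hM hD hDm hDo
  have e1 : ∀ ω : Env × Finset ℕ, gm (wm μ s N (Pn N y) ω) (fun S => |D ω S| * tj μ s N (Pn N y) b0 b b' m ω j S) =
      gm (wm μ s N (Pn N y) ω) (fun S => |D ω S| * i1 (Tau (wm μ s N (Pn N y) ω) (pJ (j - b') (j + b')) (j - b) (j - b0) m S)) +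
        gm (wm μ s N (Pn N y) ω) (fun S => |D ω S| * i1 (Tau (wm μ s N (Pn N y) ω) (pJ (j - b') (j + b')) (j + b0) (j + b) m S)) := fun ω => by
    rw [← gm_add]
    congr 1
    funext S
    unfold tj tI
    exact mul_add _ _ _
  have hint : ∀ U V : ℕ, Integrable (fun ω => gm (wm μ s N (Pn N y) ω)
      (fun S => |D ω S| * i1 (Tau (wm μ s N (Pn N y) ω) (pJ (j - b') (j + b')) U V m S))) (Pm μ N) := fun U V => by
    refine int_bdd (meas_gm meas_wm fun S => (hDm S).abs.mul ?_) (M := M) fun ω => ?_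
    · unfold i1
      refine Measurable.ite ?_ measurable_const measurable_const
      exact meas_tau _ U V m S
    · rw [abs_of_nonneg (gm_nonneg _ fun S => mul_nonneg (abs_nonneg _) (i1_nonneg _))]
      refine (gm_mono _ fun S => ?_).trans_eq (Pool.W7d29a1.C0.gm_const _ _)
      calc |D ω S| * i1 _ ≤ |D ω S| * 1 := mul_le_mul_of_nonneg_left (i1_le _) (abs_nonneg _)
        _ ≤ M := by rw [mul_one]; exact hD ω S
  simp only [e1]
  rw [integral_add (hint _ _) (hint _ _)]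
  refine (add_le_add h1 h2).trans (le_of_eq ?_)
  ring

/-- **The second moment of one row** from the pathwise bound. -/
theorem sq_price {y : ℕ} (hy : y ≤ N) {I t : Env × Finset ℕ → Px (Pn N y) → ℝ} (hIm : ∀ S, Measurable fun ω => I ω S)
    (htm : ∀ S, Measurable fun ω => t ω S) {T : ℝ} (ht0 : ∀ ω S, 0 ≤ t ω S) (htT : ∀ ω S, t ω S ≤ T) {K C e r : ℝ} (hK : 0 ≤ K) (hC : 0 ≤ C)
    (hIK : ∀ ω S, |I ω S| ≤ K) (hI : ∀ ω S, |I ω S| ≤ C * t ω S + e)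
    (hp : ∫ ω, gm (wm μ s N (Pn N y) ω) (t ω) ∂(Pm μ N) ≤ r) :
    ∫ ω, gm (wm μ s N (Pn N y) ω) (fun S => I ω S ^ 2) ∂(Pm μ N) ≤ K * (C * r + e) := by
  have hne : Nonempty (Px (Pn N y)) := ne_Pn hy
  have h1 : ∀ ω : Env × Finset ℕ, gm (wm μ s N (Pn N y) ω) (fun S => I ω S ^ 2) ≤
      K * (C * gm (wm μ s N (Pn N y) ω) (t ω) + e) := fun ω => by
    have e1 : gm (wm μ s N (Pn N y) ω) (fun S => K * (C * t ω S + e)) = K * (C * gm (wm μ s N (Pn N y) ω) (t ω) + e) := by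
      rw [Strip80.gm_mul_left]
      congr 1
      have e2 : (fun S => C * t ω S + e) = (fun S => C * t ω S) + fun _ => e := rfl
      rw [e2, gm_add, Strip80.gm_mul_left, gm_const]
    rw [← e1]
    refine gm_mono _ fun S => ?_
    calc I ω S ^ 2 = |I ω S| * |I ω S| := by rw [← sq_abs, sq]
      _ ≤ K * (C * t ω S + e) := mul_le_mul (hIK ω S) (hI ω S) (abs_nonneg _) hK
  have hi1 : Integrable (fun ω => gm (wm μ s N (Pn N y) ω) (fun S => I ω S ^ 2)) (Pm μ N) :=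
    int_bdd (meas_gm meas_wm fun S => (hIm S).pow_const 2) (M := K ^ 2) fun ω => by
      rw [abs_of_nonneg (gm_nonneg _ fun S => sq_nonneg _)]
      refine (gm_mono _ fun S => ?_).trans_eq (Pool.W7d29a1.C0.gm_const _ _)
      rw [← sq_abs]
      exact pow_le_pow_left₀ (abs_nonneg _) (hIK ω S) 2
  have hi2 : Integrable (fun ω => gm (wm μ s N (Pn N y) ω) (t ω)) (Pm μ N) :=
    int_bdd (meas_gm meas_wm htm) (M := T) fun ω => by
      rw [abs_of_nonneg (gm_nonneg _ (ht0 ω))]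
      exact (gm_mono _ (htT ω)).trans_eq (Pool.W7d29a1.C0.gm_const _ _)
  have h2 := integral_mono hi1 ((((hi2.const_mul C).add (integrable_const e)).const_mul K)) h1
  refine h2.trans ?_
  have e3 : ∫ ω, K * (C * gm (wm μ s N (Pn N y) ω) (t ω) + e) ∂(Pm μ N) =
      K * (C * (∫ ω, gm (wm μ s N (Pn N y) ω) (t ω) ∂(Pm μ N)) + e) := by
    rw [integral_const_mul, integral_add (hi2.const_mul C) (integrable_const e), integral_const_mul]
    simp
  refine (le_of_eq e3).trans ?_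
  exact mul_le_mul_of_nonneg_left (add_le_add (mul_le_mul_of_nonneg_left hp hC) le_rfl) hK

end Price

end

end Pool.Agent.W_7d29a1_C0.Sz23
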