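import Pool.Agent.W_7d29a1_C0.N25a
import Pool.Agent.W_7d29a1_C0.Sz23

/-!
MP_7d29a1_pr, [CURV0], leaf E5.4 (helper5), part 2: THE DOUBLE TIES INSIDE THE GIBBS MEAN, with a passenger `H` which is a function of the
outside `p` of the large window. `Gt` = the two forms (own pair of the path itself, own pair of the fibre) of own tie times micro tie.
`row_N2`: `gm v (H |N2|)` is at most the double tie at the actual corner `v`, at the other corner `vm`, the third term (own pair, free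
replica) and the error with the three levels.
-/

set_option autoImplicit false
set_option linter.unusedSectionVars false

namespace Pool.Agent.W_7d29a1_C0.N25

open Finset MeasureTheory Pool.Agent.W_7d29a1_C0.Swap57 Pool.Agent.W_7d29a1_C0 Pool.Agent.W_7d29a1_C0.Mod92
open Pool.W7d29a1.C0 Pool.W7d29a1.C0.VT31 Pool.W7d29a1.C0.R43 Pool.W7d29a1.C0.S1 Pool.W7d29a1.C0.K1
open Pool.Agent.W_7d29a1_C0.Base5 Pool.Agent.W_7d29a1_C0.Sz23

noncomputable section

variable {Q : Finset (Finset ℕ)} {Y : Type*} [DecidableEq Y]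

/-- The double tie: micro tie (in terms of the kick `g`) times own tie, of the path itself or of the fibre. -/
def Gt (v : Px Q → ℝ) (p : Px Q → Y) (c al be d : ℕ) (g : Px Q → ℝ) (m : ℝ) (z : Px Q) : ℝ :=
  Ft v p c al be d g m z + i1 (Real.exp (-(5 * m)) ≤ cE2 v p (NM c al be d) z z) * i1 (Real.exp (-(5 * m)) ≤ osc v (pJ c d) g z)

theorem Gt_nonneg (v : Px Q → ℝ) (p : Px Q → Y) (c al be d : ℕ) (g : Px Q → ℝ) (m : ℝ) (z : Px Q) : 0 ≤ Gt v p c al be d g m z :=
  add_nonneg (Ft_nonneg _ _ _ _ _ _ _ _ _) (mul_nonneg (i1_nonneg _) (i1_nonneg _))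

theorem Gt_le_two (v : Px Q → ℝ) (p : Px Q → Y) (c al be d : ℕ) (g : Px Q → ℝ) (m : ℝ) (z : Px Q) : Gt v p c al be d g m z ≤ 2 := by
  unfold Gt
  have h1 := Ft_le_one v p c al be d g m z
  have h2 : i1 (Real.exp (-(5 * m)) ≤ cE2 v p (NM c al be d) z z) * i1 (Real.exp (-(5 * m)) ≤ osc v (pJ c d) g z) ≤ 1 :=
    mul_le_one₀ (N25.i1_le_one _) (i1_nonneg _) (N25.i1_le_one _)
  linarith

variable [SwQ Q] [Nonempty (Px Q)] {c al be d c' d' : ℕ} {w g : Px Q → ℝ} {M τ : ℝ}

/-- A factor which is a function of the fibre. -/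
theorem cE_Tp (v v' : Px Q → ℝ) (p : Px Q → Y) (m : ℝ) (f : Px Q → ℝ) (x : Px Q) :
    cE v' p (fun z => i1 (Real.exp (-(5 * m)) ≤ cE2 v p (NM c al be d) z z) * f z) x =
      i1 (Real.exp (-(5 * m)) ≤ cE2 v p (NM c al be d) x x) * cE v' p f x := by
  rw [← cE_mul']
  refine cE_fib v' p fun z hz => ?_
  rw [O1.cE2_fib v p (NM c al be d) hz hz]

/-- The double ties at both corners, one bracket. -/
theorem N2_corner' (hab : al ≤ be) {p : Px Q → Y} (hp : Crs p (pJ c d)) (hw : Wk c al be d w) (hl : Lk al be g) (hM : 1 ≤ M)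
    (hg : ∀ x, |g x| ≤ M) (hτ : |τ| ≤ 1) (m : ℝ) {γ : Px Q → ℝ} (hγ : ∀ x, |γ x| ≤ M) {δ : ℝ} (hδ : 0 ≤ δ) (x : Px Q) :
    |-(∫ s in (-1 : ℝ)..1, ∫ t in (-1 : ℝ)..1, Kn81 t s * cC (w + t • g) p g (cV (w + s • g) (pJ c d) g) x) +
      (1 / 6) * Ac (fun a => ∫ u in (-1 : ℝ)..1, (1 + a * u) * cC (w + a • g) p γ (cV (w + u • g) (pJ c d) g) x)| ≤
      4 * M ^ 3 * (Real.exp (2 * δ) * (cE (w + g) p (Gt (w + τ • g) p c al be d g m) x +
        cE (w - g) p (Gt (w + τ • g) p c al be d g m) x) +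
        min 1 (Real.exp (5 * m + 12 * M) * O1.T4 (w + τ • g) p g δ (ow (w + τ • g) p c al be d) x)) +
      16 * M ^ 3 * Real.exp (16 * M) * Real.exp (-(5 * m)) := by
  have hM0 : 0 ≤ M := by linarith
  have h1 := N2_corner hab hp hw hl hM hg hτ m hγ hδ x
  have e1 : ∀ v' : Px Q → ℝ, cE v' p (Gt (w + τ • g) p c al be d g m) x = cE v' p (Ft (w + τ • g) p c al be d g m) x +
      i1 (Real.exp (-(5 * m)) ≤ cE2 (w + τ • g) p (NM c al be d) x x) *
        cE v' p (fun z => i1 (Real.exp (-(5 * m)) ≤ osc (w + τ • g) (pJ c d) g z)) x := fun v' => by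
    rw [← cE_Tp, ← cE_add']
    rfl
  rw [e1, e1]
  set T := i1 (Real.exp (-(5 * m)) ≤ cE2 (w + τ • g) p (NM c al be d) x x) with hT
  set a := cE (w + g) p (fun z => i1 (Real.exp (-(5 * m)) ≤ osc (w + τ • g) (pJ c d) g z)) x with ha
  set b := cE (w - g) p (fun z => i1 (Real.exp (-(5 * m)) ≤ osc (w + τ • g) (pJ c d) g z)) x with hb
  have T0 : 0 ≤ T := i1_nonneg _
  have a0 : 0 ≤ a := cE_nonneg _ _ (fun z => i1_nonneg _) _
  have b0 : 0 ≤ b := cE_nonneg _ _ (fun z => i1_nonneg _) _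
  have h2 : T * (a + b) ≤ Real.exp (2 * δ) * (T * a + T * b) := by
    have h3 : 1 ≤ Real.exp (2 * δ) := Real.one_le_exp (by linarith)
    have h4 : 0 ≤ T * a + T * b := by positivity
    nlinarith
  have h5 := mul_le_mul_of_nonneg_left h2 (show 0 ≤ 4 * M ^ 3 by positivity)
  linarith

/-- **THE DOUBLE TIES INSIDE THE GIBBS MEAN.** `v = w + τ g` the actual corner, `v - 2 τ g` the other one. -/
theorem row_N2 (hab : al ≤ be) (hw : Wk c al be d w) (hw' : Wk c' al be d' w) (hl : Lk al be g) (hM : 1 ≤ M)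
    (hg : ∀ x, |g x| ≤ M) (hτ : τ = 1 ∨ τ = -1) (hc : c' ≤ c) (hd : d ≤ d') (m : ℝ) {γ : Px Q → ℝ} (hγ : ∀ x, |γ x| ≤ M)
    {δ : ℝ} (hδ : 0 ≤ δ) {H : Px Q → ℝ} (hH : Mp (pJ c' d') H) (hH0 : ∀ x, 0 ≤ H x) :
    gm (w + τ • g) (fun x => H x *
      |-(∫ s in (-1 : ℝ)..1, ∫ t in (-1 : ℝ)..1, Kn81 t s * cC (w + t • g) (pJ c' d') g (cV (w + s • g) (pJ c d) g) x) +
      (1 / 6) * Ac (fun a => ∫ u in (-1 : ℝ)..1, (1 + a * u) *
        cC (w + a • g) (pJ c' d') γ (cV (w + u • g) (pJ c d) g) x)|) ≤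
      4 * M ^ 3 * (Real.exp (2 * δ) * (gm (w + τ • g) (fun x => H x * Gt (w + τ • g) (pJ c' d') c al be d g m x) +
        (gm (w + τ • g - (2 * τ) • g) (fun x => H x * Gt (w + τ • g) (pJ c' d') c al be d g m x) +
        gm (w + τ • g) (fun x => H x * cE (w + τ • g - (2 * τ) • g) (pJ c' d') (Gt (w + τ • g) (pJ c' d') c al be d g m) x *
          gm (w + τ • g - (2 * τ) • g) (NM c' al be d' x)))) +
        gm (w + τ • g) (fun x => H x * min 1 (Real.exp (5 * m + 12 * M) *
          O1.T4 (w + τ • g) (pJ c' d') g δ (ow (w + τ • g) (pJ c' d') c al be d) x))) +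
      16 * M ^ 3 * Real.exp (16 * M) * Real.exp (-(5 * m)) * gm (w + τ • g) H := by
  have hM0 : 0 ≤ M := by linarith
  set v := w + τ • g with hv
  set G := Gt v (pJ c' d') c al be d g m with hG
  set er : Px Q → ℝ := fun x => min 1 (Real.exp (5 * m + 12 * M) * O1.T4 v (pJ c' d') g δ (ow v (pJ c' d') c al be d) x) with her
  have hτ1 : |τ| ≤ 1 := by
    rcases hτ with h | h <;> rw [h] <;> norm_num
  -- the two corners are `v` and the other one
  have hpm : ∀ x, cE (w + g) (pJ c' d') G x + cE (w - g) (pJ c' d') G x = cE v (pJ c' d') G x + cE (v - (2 * τ) • g) (pJ c' d') G x := by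
    intro x
    rcases hτ with h | h
    · have e1 : w + g = v := by rw [hv, h, one_smul]
      have e2 : w - g = v - (2 * τ) • g := by
        rw [hv, h]
        funext z
        simp only [Pi.sub_apply, Pi.add_apply, Pi.smul_apply, smul_eq_mul]
        ring
      rw [e1, e2]
    · have e1 : w - g = v := by
        rw [hv, h, neg_one_smul, sub_eq_add_neg]
      have e2 : w + g = v - (2 * τ) • g := by
        rw [hv, h]
        funext z
        simp only [Pi.sub_apply, Pi.add_apply, Pi.smul_apply, smul_eq_mul]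
        ring
      rw [e1, e2, add_comm]
  have hpt : ∀ x, H x *
      |-(∫ s in (-1 : ℝ)..1, ∫ t in (-1 : ℝ)..1, Kn81 t s * cC (w + t • g) (pJ c' d') g (cV (w + s • g) (pJ c d) g) x) +
      (1 / 6) * Ac (fun a => ∫ u in (-1 : ℝ)..1, (1 + a * u) *
        cC (w + a • g) (pJ c' d') γ (cV (w + u • g) (pJ c d) g) x)| ≤
      (((4 * M ^ 3 * Real.exp (2 * δ)) • (H * cE v (pJ c' d') G) + (4 * M ^ 3 * Real.exp (2 * δ)) •
        (H * cE (v - (2 * τ) • g) (pJ c' d') G)) + (4 * M ^ 3) • (H * er)) x +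
        ((16 * M ^ 3 * Real.exp (16 * M) * Real.exp (-(5 * m))) • H) x := by
    intro x
    have h1 := N2_corner' hab (crs_pJ hc hd) hw hl hM hg hτ1 m hγ hδ x
    rw [← hv, ← hG, hpm] at h1
    have h2 := mul_le_mul_of_nonneg_left h1 (hH0 x)
    refine h2.trans (le_of_eq ?_)
    simp only [Pi.add_apply, Pi.smul_apply, Pi.mul_apply, smul_eq_mul, her]
    ring
  have h1 := gm_mono v hpt
  have e1 : gm v (fun x => (((4 * M ^ 3 * Real.exp (2 * δ)) • (H * cE v (pJ c' d') G) + (4 * M ^ 3 * Real.exp (2 * δ)) •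
        (H * cE (v - (2 * τ) • g) (pJ c' d') G)) + (4 * M ^ 3) • (H * er)) x +
        ((16 * M ^ 3 * Real.exp (16 * M) * Real.exp (-(5 * m))) • H) x) =
      ((4 * M ^ 3 * Real.exp (2 * δ)) * gm v (H * G) + (4 * M ^ 3 * Real.exp (2 * δ)) *
        gm v (H * cE (v - (2 * τ) • g) (pJ c' d') G)) + (4 * M ^ 3) * gm v (H * er) +
        (16 * M ^ 3 * Real.exp (16 * M) * Real.exp (-(5 * m))) * gm v H := by
    have f1 := gm_add v (((4 * M ^ 3 * Real.exp (2 * δ)) • (H * cE v (pJ c' d') G) + (4 * M ^ 3 * Real.exp (2 * δ)) •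
        (H * cE (v - (2 * τ) • g) (pJ c' d') G)) + (4 * M ^ 3) • (H * er)) ((16 * M ^ 3 * Real.exp (16 * M) * Real.exp (-(5 * m))) • H)
    have f2 : (fun x => (((4 * M ^ 3 * Real.exp (2 * δ)) • (H * cE v (pJ c' d') G) + (4 * M ^ 3 * Real.exp (2 * δ)) •
        (H * cE (v - (2 * τ) • g) (pJ c' d') G)) + (4 * M ^ 3) • (H * er)) x +
        ((16 * M ^ 3 * Real.exp (16 * M) * Real.exp (-(5 * m))) • H) x) =
        (((4 * M ^ 3 * Real.exp (2 * δ)) • (H * cE v (pJ c' d') G) + (4 * M ^ 3 * Real.exp (2 * δ)) •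
        (H * cE (v - (2 * τ) • g) (pJ c' d') G)) + (4 * M ^ 3) • (H * er)) +
          ((16 * M ^ 3 * Real.exp (16 * M) * Real.exp (-(5 * m))) • H) := rfl
    rw [f2, f1, gm_add, gm_add, gm_smul, gm_smul, gm_smul, gm_smul, gm_mul_cE v hH]
  rw [e1] at h1
  -- the swap to the other corner
  have h3 := gm_swap_line (w := w) hab hw' hl (H := H * cE (v - (2 * τ) • g) (pJ c' d') G) (hH.mul (cE_meas _ _ _))
    (fun S => mul_nonneg (hH0 S) (cE_nonneg _ _ (Gt_nonneg _ _ _ _ _ _ _ _) S)) τ (-τ)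
  have e3 : w + (-τ) • g = v - (2 * τ) • g := by
    rw [hv]
    funext z
    simp only [Pi.sub_apply, Pi.add_apply, Pi.smul_apply, smul_eq_mul]
    ring
  rw [← hv, e3, gm_mul_cE (v - (2 * τ) • g) hH G] at h3
  have h4 := mul_le_mul_of_nonneg_left h3 (show 0 ≤ 4 * M ^ 3 * Real.exp (2 * δ) by positivity)
  have e5 : (fun x => H x * G x) = H * G := rfl
  have e6 : (fun x => H x * min 1 (Real.exp (5 * m + 12 * M) * O1.T4 v (pJ c' d') g δ (ow v (pJ c' d') c al be d) x)) = H * er := rfl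
  have e7 : (fun x => H x * cE (v - (2 * τ) • g) (pJ c' d') G x * gm (v - (2 * τ) • g) (NM c' al be d' x)) =
      fun S => (H * cE (v - (2 * τ) • g) (pJ c' d') G) S * gm (v - (2 * τ) • g) (NM c' al be d' S) := rfl
  rw [e5, e6, e7]
  linarith

/-! ### Simplification of the terms -/

/-- The indicator of one of two masses. -/
theorem i1_split {a b e e' : ℝ} (h : 2 * e' ≤ e) : i1 (e ≤ a + b) ≤ i1 (e' ≤ a) + i1 (e' ≤ b) := by
  by_cases h1 : e ≤ a + b
  · rw [i1_of h1]
    by_cases h2 : e' ≤ a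
    · rw [i1_of h2]
      linarith [i1_nonneg (e' ≤ b)]
    · have h3 : e' ≤ b := by
        push Not at h2
        linarith
      rw [i1_of h3]
      linarith [i1_nonneg (e' ≤ a)]
  · rw [i1_not h1]
    exact add_nonneg (i1_nonneg _) (i1_nonneg _)

theorem i1_mono {A A' : Prop} (h : A → A') : i1 A ≤ i1 A' := by
  by_cases h1 : A
  · rw [i1_of (h h1)]
    exact N25.i1_le_one _
  · rw [i1_not h1]
    exact i1_nonneg _

theorem exp_half (m : ℝ) : 2 * Real.exp (-(5 * (m + 1))) ≤ Real.exp (-(5 * m)) := by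
  have e : Real.exp (-(5 * m)) = Real.exp 5 * Real.exp (-(5 * (m + 1))) := by
    rw [← Real.exp_add]
    congr 1
    ring
  rw [e]
  refine mul_le_mul_of_nonneg_right ?_ (Real.exp_pos _).le
  have := Real.add_one_le_exp (5 : ℝ)
  linarith

/-- The mass of the pairs of the fibre, two sides. -/
theorem cE2_NM_split (v : Px Q → ℝ) (p : Px Q → Finset ℕ × ℕ) (m : ℝ) (x : Px Q) :
    i1 (Real.exp (-(5 * m)) ≤ cE2 v p (NM c al be d) x x) ≤ i1 (Tau v p c al (m + 1) x) + i1 (Tau v p be d (m + 1) x) := by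
  have h1 : cE2 v p (NM c al be d) x x ≤ cE2 v p (NI c al) x x + cE2 v p (NI be d) x x := by
    rw [← cE2_add]
    exact cE2_mono v p (NM_le c al be d) x x
  refine (i1_mono fun h2 => h2.trans h1).trans ?_
  unfold Tau
  exact i1_split (exp_half m)

/-- The own mass of the path, two sides. -/
theorem ow_split (v : Px Q → ℝ) (p : Px Q → Y) (z : Px Q) : ow v p c al be d z ≤ mI v p c al z + mI v p be d z := by
  unfold ow mI
  have h1 := cE_mono v p (f := NM c al be d z) (g := fun z' => NI c al z z' + NI be d z z') (fun z' => NM_le c al be d z z') z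
  rwa [cE_add'] at h1

/-- The three levels error, two sides. -/
theorem T4_split (v : Px Q → ℝ) (p : Px Q → Y) (δ : ℝ) {E1 : ℝ} (hE : 0 ≤ E1) (x : Px Q) :
    min 1 (E1 * O1.T4 v p g δ (ow v p c al be d) x) ≤
      min 1 (E1 * O1.T4 v p g δ (mI v p c al) x) + min 1 (E1 * O1.T4 v p g δ (mI v p be d) x) := by
  have h1 : O1.T4 v p g δ (ow v p c al be d) x ≤ O1.T4 v p g δ (mI v p c al) x + O1.T4 v p g δ (mI v p be d) x := by
    unfold O1.T4
    rw [← cE_add']
    refine cE_mono v p (fun y => ?_) x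
    rw [← add_mul]
    exact mul_le_mul_of_nonneg_right (ow_split v p y) (O1.ud_mem x y).1
  have a0 := O1.T4_nonneg (w := v) (p := p) (g := g) (δ := δ) (A := mI v p c al) (mI_nonneg _ _ _ _) x
  have b0 := O1.T4_nonneg (w := v) (p := p) (g := g) (δ := δ) (A := mI v p be d) (mI_nonneg _ _ _ _) x
  have h2 := mul_le_mul_of_nonneg_left h1 hE
  rw [mul_add] at h2
  have a1 : 0 ≤ E1 * O1.T4 v p g δ (mI v p c al) x := mul_nonneg hE a0
  have b1 : 0 ≤ E1 * O1.T4 v p g δ (mI v p be d) x := mul_nonneg hE b0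
  rcases le_total 1 (E1 * O1.T4 v p g δ (mI v p c al) x) with ha | ha
  · rw [min_eq_left ha]
    have := le_min zero_le_one b1
    linarith [min_le_left 1 (E1 * O1.T4 v p g δ (ow v p c al be d) x)]
  · rcases le_total 1 (E1 * O1.T4 v p g δ (mI v p be d) x) with hb | hb
    · rw [min_eq_left hb]
      have := le_min zero_le_one a1
      linarith [min_le_left 1 (E1 * O1.T4 v p g δ (ow v p c al be d) x)]
    · rw [min_eq_right ha, min_eq_right hb]
      exact (min_le_right _ _).trans h2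

/-- **The third term**: own pair and free replica, both at the actual weights. -/
theorem third_le {v A : Px Q → ℝ} {D : ℝ} (hA : ∀ x, |A x| ≤ D) (p : Px Q → Y) {m m2 : ℝ} (hm : 0 ≤ m)
    (h2 : 10 * m + 2 * D ≤ 5 * m2) (x : Px Q) :
    cE (v + A) p (Gt v p c al be d g m) x * gm (v + A) (NM c' al be d' x) ≤
      2 * (i1 (Real.exp (-(5 * m2)) ≤ cE2 v p (NM c al be d) x x) * i1 (Real.exp (-(5 * m2)) ≤ gm v (NM c' al be d' x))) +
        5 * Real.exp (-(5 * m)) := by
  have D0 : 0 ≤ D := (abs_nonneg _).trans (hA x)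
  have e0 := (Real.exp_pos (-(5 * m))).le
  have e1 : Real.exp (-(5 * m)) ≤ 1 := Real.exp_le_one_iff.2 (by linarith)
  have k1 : Real.exp (2 * D) * (Real.exp (5 * m) * Real.exp (-(5 * m2))) ≤ Real.exp (-(5 * m)) := by
    rw [← Real.exp_add, ← Real.exp_add]
    exact Real.exp_le_exp.2 (by linarith)
  have k2 : Real.exp (2 * D) * Real.exp (-(5 * m2)) ≤ Real.exp (-(5 * m)) := by
    rw [← Real.exp_add]
    exact Real.exp_le_exp.2 (by linarith)
  have hmm : Real.exp (-(5 * m2)) ≤ Real.exp (-(5 * m)) := Real.exp_le_exp.2 (by linarith)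
  -- the first factor
  have a1 : cE (v + A) p (Gt v p c al be d g m) x ≤
      2 * i1 (Real.exp (-(5 * m2)) ≤ cE2 v p (NM c al be d) x x) + Real.exp (-(5 * m)) := by
    by_cases hc : Real.exp (-(5 * m2)) ≤ cE2 v p (NM c al be d) x x
    · rw [i1_of hc]
      have h3 := cE_mono (v + A) p (f := Gt v p c al be d g m) (g := fun _ => 2) (Gt_le_two _ _ _ _ _ _ _ _) x
      rw [cE_const'] at h3
      linarith
    · rw [i1_not hc]
      push Not at hc
      have h3 : cE (v + A) p (Gt v p c al be d g m) x = cE (v + A) p (Ft v p c al be d g m) x := by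
        refine cE_fib _ p fun z hz => ?_
        have h4 : ¬ Real.exp (-(5 * m)) ≤ cE2 v p (NM c al be d) z z := by
          rw [O1.cE2_fib v p (NM c al be d) hz hz]
          push Not
          exact hc.trans_le hmm
        unfold Gt
        rw [i1_not h4, zero_mul, add_zero]
      have h4 := cE_mono (v + A) p (f := Ft v p c al be d g m) (g := fun z => Real.exp (5 * m) * ow v p c al be d z)
        (Ft_le_ow v p c al be d g m) x
      rw [cE_mul'] at h4
      have h5 := cE_tilt hA p (f := ow v p c al be d) (ow_nonneg _ _ _ _ _ _) x (w := v)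
      have h6 : cE v p (ow v p c al be d) x = cE2 v p (NM c al be d) x x := by
        unfold ow cE2
        refine cE_fib v p fun z hz => ?_
        rw [cE_eq_of v p _ hz]
      rw [h6] at h5
      have h7 : Real.exp (5 * m) * cE (v + A) p (ow v p c al be d) x ≤ Real.exp (2 * D) * (Real.exp (5 * m) * Real.exp (-(5 * m2))) := by
        have h8 := mul_le_mul_of_nonneg_left (h5.trans (mul_le_mul_of_nonneg_left hc.le (Real.exp_pos (2 * D)).le))
          (Real.exp_pos (5 * m)).le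
        refine h8.trans (le_of_eq ?_)
        ring
      rw [h3]
      linarith [h4.trans (h7.trans k1)]
  have a2 : gm (v + A) (NM c' al be d' x) ≤ i1 (Real.exp (-(5 * m2)) ≤ gm v (NM c' al be d' x)) + Real.exp (-(5 * m)) := by
    by_cases hc : Real.exp (-(5 * m2)) ≤ gm v (NM c' al be d' x)
    · rw [i1_of hc]
      have h3 := gm_mono (v + A) (f := NM c' al be d' x) (g := fun _ => 1) (fun z => N25.NM_le_one c' al be d' x z)
      have h4 : gm (v + A) (fun _ => (1 : ℝ)) = 1 := gm_const _ _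
      linarith
    · rw [i1_not hc]
      push Not at hc
      have h5 := gm_tilt43 hA (f := NM c' al be d' x) (fun z => NM_nonneg _ _ _ _ _ _) (w := v)
      have h6 := h5.trans ((mul_le_mul_of_nonneg_left hc.le (Real.exp_pos (2 * D)).le).trans k2)
      linarith
  have a0 : 0 ≤ cE (v + A) p (Gt v p c al be d g m) x := cE_nonneg _ _ (Gt_nonneg _ _ _ _ _ _ _ _) _
  have b0 : 0 ≤ gm (v + A) (NM c' al be d' x) := gm_nonneg _ fun z => NM_nonneg _ _ _ _ _ _
  set P := i1 (Real.exp (-(5 * m2)) ≤ cE2 v p (NM c al be d) x x) with hP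
  set R := i1 (Real.exp (-(5 * m2)) ≤ gm v (NM c' al be d' x)) with hR
  have P0 : 0 ≤ P := i1_nonneg _
  have R0 : 0 ≤ R := i1_nonneg _
  have P1 : P ≤ 1 := N25.i1_le_one _
  have R1 : R ≤ 1 := N25.i1_le_one _
  have h3 := mul_le_mul a1 a2 b0 (by positivity)
  refine h3.trans ?_
  set ε := Real.exp (-(5 * m)) with hε
  have h4 : P * ε ≤ ε := by nlinarith
  have h5 : ε * R ≤ ε := by nlinarith
  have h6 : ε * ε ≤ ε := by nlinarith
  nlinarith

end

end Pool.Agent.W_7d29a1_C0.N25
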