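import Pool.Agent.W_7d29a1_C0.Own15

/-!
MP_7d29a1_pr, [C0], helper15: the price of the own loop IN FRONT of a place (mirror image of `own_near`), and of a family of opening times of a
replica at ONE window (mirror image of `mic_cl`). `own_fam`: the own loop has a near place (`Bkn`) in a finite family of lengths `>= T / 4`.
-/

set_option autoImplicit false

namespace Pool.Agent.W_7d29a1_C0.P15

open MeasureTheory ProbabilityTheory Filter Topology Finset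
open Pool.Agent.W_7d29a1_F Pool.Agent.W_7d29a1_X Pool.Agent.W_7d29a1_h4g Pool.Agent.W_7d29a1_H
open Pool.Agent.W_7d29a1_HS (In wd md)
open Pool.Agent.W_7d29a1_HZ Pool.Agent.W_7d29a1_HZ.R72 Pool.Agent.W_7d29a1_Z.Asm72
open Pool.Agent.W_7d29a1_HZ.Z86
open Pool.Agent.W_7d29a1_C0.P86
open Pool.Agent.W_7d29a1_C0.P3 (Hy hy_ms hy_off er amp amp_ex)
open scoped ENNReal

variable {μ : Measure ℝ} {s : ℝ} {N : ℕ}
variable [IsProbabilityMeasure μ] {c₀ C₀ : ℝ} {n₀ : ℕ}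

/-- **THE PRICE OF AN EVENT WITH NEAR PLACES OF LENGTHS `≥ T / 4`** in the rows `J`. -/
theorem own_fam (h : In μ s c₀ C₀ n₀) : ∀ ε θ : ℝ, 0 < ε → 0 < θ → ∃ δ κ c₂ : ℝ, 0 < δ ∧ 0 < κ ∧ 0 < c₂ ∧ ∃ L₀ : ℕ, ∀ L : ℕ, L₀ ≤ L →
    ∀ N : ℕ, L ≤ 16 * N → N ≤ L → ∀ y : ℕ, y ≤ N → |(y : ℝ) - sl μ s * N| ≤ ((L : ℝ) ^ δ * wd' μ s N) →
    ∀ T c d : ℕ, (L : ℝ) ^ θ ≤ T → d ≤ N → ∀ (P : Finset ℕ) (tt ta : ℕ → ℕ), P.card ≤ Nat.log 2 N + 4 → P.card ≤ N →
    ∀ J : Finset ℕ, (∀ i ∈ P, T ≤ 4 * tt i ∧ c ≤ ta i ∧ ta i + tt i ≤ d ∧ Ico (ta i) (ta i + tt i) ⊆ J) →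
    ∀ Ow : Finset ℕ → Finset ℕ → Prop, (∀ S S' : Finset ℕ, (∀ i, i ≤ c ∨ d ≤ i → pos S i = pos S' i) → Ow S S' →
      ∃ i ∈ P, Bkn c d (tt i) (ta i) S S') → ∀ x : ℝ, x ≤ (L : ℝ) ^ κ →
    ∀ F : Env → Finset ℕ → Prop, Ms F → OffRows J F →
    P1 μ s N y (fun η S => F η S ∧ Hy μ s N y c d Ow x η S) ≤
      ENNReal.ofReal ((L : ℝ) ^ ε * (EE' μ s T)⁻¹) * P1 μ s N y F + ENNReal.ofReal (Real.exp (-(L : ℝ) ^ c₂)) := by
  intro ε θ hε hθ
  obtain ⟨a, K, ha, ha1, hK, hE⟩ := EE'_pow h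
  obtain ⟨δ, c₁, hδ, hc₁, L₁, hP⟩ := pl_near h (ε / 2) (θ / 2) (by positivity) (by positivity)
  obtain ⟨κ, c₂, hκ, -, hc₂, L₂, hT⟩ := tiny15 hc₁
  obtain ⟨L₃, hC⟩ := log_card (show 0 < ε / 2 by positivity) (2 * K) (by linarith)
  obtain ⟨L₄, hL₄⟩ := Pool.Agent.W_7d29a1_Z.NumI77.large (show 0 < θ / 2 by positivity) 12
  refine ⟨δ, κ, c₂, hδ, hκ, hc₂, L₁ + L₂ + L₃ + L₄ + 100, ?_⟩
  intro L hL N hLN hNL y hyN hyc T c d hTL hdN P tt ta hcard hcard' J hPJ Ow hOw x hx F hF hoff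
  have hL100 : (100 : ℝ) ≤ L := by exact_mod_cast (show 100 ≤ L by omega)
  have hL0 : (0 : ℝ) < L := by linarith
  have hy0 : (0 : ℤ) ≤ y := by positivity
  have hyN' : (y : ℤ) ≤ N := by exact_mod_cast hyN
  have hyc' : |((y : ℤ) : ℝ) - sl μ s * N| ≤ ((L : ℝ) ^ δ * wd' μ s N) := by
    push_cast
    exact hyc
  obtain ⟨-, hx12, -⟩ := hL₄ L (by omega)
  obtain ⟨hLexp, hTiny⟩ := hT L (by omega)
  have hθ2 : (L : ℝ) ^ θ = (L : ℝ) ^ (θ / 2) * (L : ℝ) ^ (θ / 2) := by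
    rw [← Real.rpow_add hL0]
    congr 1
    ring
  have hT12' : 12 * (L : ℝ) ^ (θ / 2) ≤ T := by
    rw [hθ2] at hTL
    nlinarith
  have hT12 : 12 ≤ T := by
    have : (12 : ℝ) ≤ T := by nlinarith
    exact_mod_cast this
  have hE0 : ∀ t, 0 < EE' μ s t := fun t => lt_of_lt_of_le zero_lt_one (le_max_left _ _)
  have hlenR : ∀ i ∈ P, (L : ℝ) ^ (θ / 2) ≤ tt i := by
    intro i hi
    have h1 : (T : ℝ) ≤ 4 * tt i := by exact_mod_cast (hPJ i hi).1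
    have h2 : 0 ≤ (L : ℝ) ^ (θ / 2) := by positivity
    linarith
  have hEt : ∀ i ∈ P, (EE' μ s (tt i))⁻¹ ≤ 2 * K * (EE' μ s T)⁻¹ := by
    intro i hi
    have key : EE' μ s T ≤ 2 * K * EE' μ s (tt i) := by
      rcases le_total T (tt i) with g | g
      · have h1 := (hE T (tt i) (by omega) g).1
        have h2 := hE0 (tt i)
        nlinarith
      · have hpos : 1 ≤ tt i := by have := (hPJ i hi).1; omega
        have h1 := (hE (tt i) T hpos g).2.2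
        have hD0 : (0 : ℝ) < tt i := by exact_mod_cast hpos
        have h2 : Real.sqrt ((T : ℝ) / tt i) ≤ 2 := by
          rw [Real.sqrt_le_left (by norm_num), div_le_iff₀ hD0]
          have : (T : ℝ) ≤ 4 * tt i := by exact_mod_cast (hPJ i hi).1
          linarith
        refine h1.trans (mul_le_mul_of_nonneg_right ?_ (hE0 _).le)
        nlinarith
    rw [← div_eq_mul_inv, le_div_iff₀ (hE0 T), inv_mul_le_iff₀ (hE0 _)]
    linarith
  -- the places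
  have hpl : ∀ i ∈ P, Pl μ s N y (ENNReal.ofReal ((L : ℝ) ^ (ε / 2) * (EE' μ s (tt i))⁻¹))
      (ENNReal.ofReal (Real.exp (-(L : ℝ) ^ c₁))) (Bkn c d (tt i) (ta i))
      (Ico (ta i) (ta i + tt i)) (Ioc c d) := by
    intro i hi
    obtain ⟨h1, h2, h3, -⟩ := hPJ i hi
    exact hP L (by omega) N (tt i) hLN hNL (hlenR i hi) (by omega) y hy0 hyN' hyc' (ta i) c d h2 h3 hdN
  have hcd : 1 ≤ P.card → c ≤ d := fun h1 => by
    obtain ⟨i, hi⟩ := card_pos.1 h1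
    obtain ⟨-, h2, h3, -⟩ := hPJ i hi
    omega
  have hexp : (P.card : ℝ) ≤ Real.exp (2 * (L : ℝ) ^ κ - x) := by
    have h1 : (P.card : ℝ) ≤ L := by exact_mod_cast (show P.card ≤ L by omega)
    refine h1.trans (hLexp.trans (Real.exp_le_exp.2 ?_))
    linarith
  have hex : ∀ η S, Hy μ s N y c d Ow x η S →
      ∃ i ∈ P, Hy μ s N y c d (Bkn c d (tt i) (ta i)) (2 * (L : ℝ) ^ κ) η S := fun η S hh =>
    ex_of_sum P (fun i => mc μ s N y c d (Bkn c d (tt i) (ta i)) η S)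
      (mc_le_sum P _ (fun S S' _ _ _ _ h5 h6 => hOw S S' h5 h6) η S) hh hexp
  have h1 : P1 μ s N y (fun η S => F η S ∧ Hy μ s N y c d Ow x η S) ≤
      P1 μ s N y (fun η S => ∃ i ∈ P, F η S ∧ Hy μ s N y c d (Bkn c d (tt i) (ta i)) (2 * (L : ℝ) ^ κ) η S) :=
    A12.P1_mono fun η S hev => by
      obtain ⟨i, hi, h2⟩ := hex η S hev.2
      exact ⟨i, hi, hev.1, h2⟩
  refine h1.trans ((A12.P1_exists (μ := μ) (s := s) (N := N) (y := y) P _).trans ?_)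
  refine (sum_le_sum fun i hi => amp hyN (hcd (card_pos.2 ⟨i, hi⟩)) hdN (bkn_on2 c d (tt i) (ta i)) (fun _ _ h => h) (hpl i hi)
    (2 * (L : ℝ) ^ κ) (3 * (L : ℝ) ^ κ) hF (Pool.Agent.W_7d29a1_HZ.ZE.OffRows.mono36 (hPJ i hi).2.2.2 hoff)).trans ?_
  rw [sum_add_distrib, ← Finset.sum_mul, sum_const, nsmul_eq_mul]
  refine add_le_add (mul_le_mul' ?_ le_rfl) ?_
  · refine (sum_le_sum fun i hi => ENNReal.ofReal_le_ofReal
      (mul_le_mul_of_nonneg_left (hEt i hi) (show 0 ≤ (L : ℝ) ^ (ε / 2) by positivity))).trans ?_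
    rw [sum_const, nsmul_eq_mul, ← ENNReal.ofReal_natCast, ← ENNReal.ofReal_mul (Nat.cast_nonneg _)]
    refine ENNReal.ofReal_le_ofReal ?_
    have h2 := hC L (by omega) N hNL
    have h3 : (P.card : ℝ) ≤ ((Nat.log 2 N + 4 : ℕ) : ℝ) := by exact_mod_cast hcard
    have h4 : (L : ℝ) ^ ε = (L : ℝ) ^ (ε / 2) * (L : ℝ) ^ (ε / 2) := by
      rw [← Real.rpow_add hL0]
      congr 1
      ring
    have h5 : (P.card : ℝ) * (2 * K) ≤ (L : ℝ) ^ (ε / 2) := (mul_le_mul_of_nonneg_right h3 (by linarith)).trans h2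
    have h6 := (inv_pos.2 (hE0 T)).le
    calc (P.card : ℝ) * ((L : ℝ) ^ (ε / 2) * (2 * K * (EE' μ s T)⁻¹)) = (P.card : ℝ) * (2 * K) * (L : ℝ) ^ (ε / 2) * (EE' μ s T)⁻¹ := by
          ring
      _ ≤ (L : ℝ) ^ (ε / 2) * (L : ℝ) ^ (ε / 2) * (EE' μ s T)⁻¹ :=
          mul_le_mul_of_nonneg_right (mul_le_mul_of_nonneg_right h5 (by positivity)) h6
      _ = _ := by rw [h4]
  · refine le_trans (mul_le_mul' ?_ le_rfl) (hTiny N hNL _ le_rfl)
    rw [← ENNReal.ofReal_natCast]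
    refine ENNReal.ofReal_le_ofReal ?_
    have h3 : (P.card : ℝ) ≤ L := by exact_mod_cast (show P.card ≤ L by omega)
    nlinarith [sq_nonneg (L : ℝ)]

/-! ### The own loop in front of a place -/

/-- The replica misses the base path on `[e, e + b / 4]` and meets it in `[e - b, e + 3 b]`. -/
def OwnL (e b : ℕ) (S S' : Finset ℕ) : Prop := NoMeet e (e + b / 4) S S' ∧ ∃ i, e - b ≤ i ∧ i ≤ e + 3 * b ∧ pos S i = pos S' i

/-- The left end of the place. -/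
def aL (T b e i : ℕ) : ℕ := if i = 0 then e else e - tO T b i

omit [IsProbabilityMeasure μ] in
/-- The own loop has a place. -/
theorem own_coverL {T b e c d : ℕ} (hT : 12 ≤ T) (hTb : 4 * T ≤ b) (hc : c + b ≤ e) (hd : e + 3 * b ≤ d) {S S' : Finset ℕ}
    (hout : ∀ i, i ≤ c ∨ d ≤ i → pos S i = pos S' i) (h : OwnL e b S S') :
    ∃ i ∈ (range (Nat.log 2 b + 2)).filter fun i => tO T b i < b, Bkn c d (tO T b i) (aL T b e i) S S' := by
  obtain ⟨h1, i₀, h2, h3, h4⟩ := h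
  have hex : ∃ k, 1 ≤ k ∧ k ≤ e - c ∧ pos S (e - k) = pos S' (e - k) :=
    ⟨e - c, by omega, le_rfl, by
      have : e - (e - c) = c := by omega
      rw [this]
      exact hout c (Or.inl le_rfl)⟩
  obtain ⟨D, hD⟩ : ∃ D, D = Nat.find hex := ⟨_, rfl⟩
  obtain ⟨g0, g1, g2⟩ := Nat.find_spec hex
  rw [← hD] at g0 g1 g2
  have hmin : ∀ k, 1 ≤ k → k < D → pos S (e - k) ≠ pos S' (e - k) := fun k hk1 hk2 h5 =>
    Nat.find_min hex (show k < Nat.find hex by omega) ⟨hk1, by omega, h5⟩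
  have g4 : NoMeet (e - D + 1) (e + b / 4) S S' := fun k hk1 hk2 => by
    by_cases hk : e ≤ k
    · exact h1 k hk hk2
    · have h5 := hmin (e - k) (by omega) (by omega)
      have h6 : e - (e - k) = k := by omega
      rwa [h6] at h5
  have hd0 : pos S d = pos S' d := hout d (Or.inr le_rfl)
  have hc0 : pos S c = pos S' c := hout c (Or.inl le_rfl)
  by_cases hA : D ≤ 4 * T
  · refine ⟨0, ?_, e - D, d, by omega, ?_, ?_, le_rfl, Or.inl ?_, g2, hd0, fun k hk1 hk2 => g4 k ?_ ?_⟩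
    · rw [mem_filter, mem_range]
      refine ⟨by omega, ?_⟩
      unfold tO
      rw [if_pos rfl]
      omega
    all_goals
      simp only [tO, aL, if_pos] at *
      omega
  · by_cases hB : D ≤ b
    · obtain ⟨m, hm⟩ : ∃ m, m = Nat.log 2 ((D - 1) / T) := ⟨_, rfl⟩
      have k1 : 4 ≤ (D - 1) / T := by
        rw [Nat.le_div_iff_mul_le (by omega)]
        omega
      have k2 : 2 ^ m ≤ (D - 1) / T := hm ▸ Nat.pow_log_le_self 2 (by omega)
      have k3 : (D - 1) / T < 2 ^ (m + 1) := hm ▸ Nat.lt_pow_succ_log_self (by norm_num) _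
      rw [Nat.le_div_iff_mul_le (by omega)] at k2
      rw [Nat.div_lt_iff_lt_mul (by omega)] at k3
      have k4 : 1 ≤ m := by
        rw [hm]
        exact Nat.le_log_of_pow_le (by norm_num) (by omega)
      have k5 : 2 ^ (m + 1) * T = 2 * (2 ^ m * T) := by ring
      rw [k5] at k3
      obtain ⟨t, ht⟩ : ∃ t, t = 2 ^ m * T := ⟨_, rfl⟩
      rw [← ht] at k2 k3
      have k6 : tO T b (m + 1) = t := by
        unfold tO
        rw [if_neg (by omega), if_neg (by omega), ht]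
        rfl
      have k7 : aL T b e (m + 1) = e - t := by
        unfold aL
        rw [if_neg (by omega), k6]
      have k8 : 2 ^ m ≤ b := by
        have : 2 ^ m * 1 ≤ 2 ^ m * T := Nat.mul_le_mul_left _ (by omega)
        omega
      have k9 : m ≤ Nat.log 2 b := Nat.le_log_of_pow_le (by norm_num) k8
      have k10 : 2 * 12 ≤ 2 ^ m * T := Nat.mul_le_mul (by
        calc 2 = 2 ^ 1 := by norm_num
          _ ≤ 2 ^ m := Nat.pow_le_pow_right (by norm_num) k4) hT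
      refine ⟨m + 1, ?_, ?_⟩
      · rw [mem_filter, mem_range, k6]
        omega
      · rw [k6, k7]
        exact ⟨e - D, d, by omega, by omega, by omega, le_rfl, Or.inl (by omega), g2, hd0, fun k hk1 hk2 => g4 k (by omega) (by omega)⟩
    · have h5 : e + b / 4 < i₀ := by
        by_contra hcon
        exact g4 i₀ (by omega) (by omega) h4
      refine ⟨1, ?_, c, i₀, le_rfl, ?_, ?_, by omega, Or.inr ?_, hc0, h4, fun k hk1 hk2 => g4 k ?_ ?_⟩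
      · rw [mem_filter, mem_range]
        refine ⟨by omega, ?_⟩
        unfold tO
        rw [if_neg (by norm_num), if_pos rfl]
        omega
      all_goals
        simp only [tO, aL] at *
        norm_num at *
        omega

/-- **THE PRICE OF THE OWN LOOP IN FRONT OF A PLACE.** -/
theorem own_nearL (h : In μ s c₀ C₀ n₀) : ∀ ε θ : ℝ, 0 < ε → 0 < θ → ∃ δ κ c₂ : ℝ, 0 < δ ∧ 0 < κ ∧ 0 < c₂ ∧ ∃ L₀ : ℕ, ∀ L : ℕ, L₀ ≤ L →
    ∀ N : ℕ, L ≤ 16 * N → N ≤ L → ∀ y : ℕ, y ≤ N → |(y : ℝ) - sl μ s * N| ≤ ((L : ℝ) ^ δ * wd' μ s N) →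
    ∀ T b e c d : ℕ, (L : ℝ) ^ θ ≤ T → 4 * T ≤ b → c + b ≤ e → e + 3 * b ≤ d → d ≤ N → ∀ x : ℝ, x ≤ (L : ℝ) ^ κ →
    ∀ F : Env → Finset ℕ → Prop, Ms F → OffRows (Ico (e - b) (e + T)) F →
    P1 μ s N y (fun η S => F η S ∧ Hy μ s N y c d (OwnL e b) x η S) ≤
      ENNReal.ofReal ((L : ℝ) ^ ε * (EE' μ s T)⁻¹) * P1 μ s N y F + ENNReal.ofReal (Real.exp (-(L : ℝ) ^ c₂)) := by
  intro ε θ hε hθ
  obtain ⟨δ, κ, c₂, hδ, hκ, hc₂, L₁, hP⟩ := own_fam h ε θ hε hθ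
  obtain ⟨L₄, hL₄⟩ := Pool.Agent.W_7d29a1_Z.NumI77.large hθ 12
  refine ⟨δ, κ, c₂, hδ, hκ, hc₂, L₁ + L₄ + 100, ?_⟩
  intro L hL N hLN hNL y hyN hyc T b e c d hTL hTb hc hd hdN x hx F hF hoff
  have hT12 : 12 ≤ T := by exact_mod_cast (hL₄ L (by omega)).2.1.trans hTL
  refine hP L (by omega) N hLN hNL y hyN hyc T c d hTL hdN ((range (Nat.log 2 b + 2)).filter fun i => tO T b i < b) (tO T b) (aL T b e)
    ?_ ?_ (Ico (e - b) (e + T)) (fun i hi => ?_) (OwnL e b) (fun S S' h5 h6 => own_coverL hT12 hTb hc hd h5 h6) x hx F hF hoff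
  · refine (card_filter_le _ _).trans ?_
    rw [card_range]
    have := Nat.log_mono_right (b := 2) (show b ≤ N by omega)
    omega
  · refine (card_filter_le _ _).trans ?_
    rw [card_range]
    have := Nat.log_lt_self 2 (show b ≠ 0 by omega)
    omega
  · have h1 := (mem_filter.1 hi).2
    have h2 : T ≤ 4 * tO T b i ∧ (i = 0 → tO T b i = T / 2) := by
      unfold tO
      split_ifs with g1 g2
      · omega
      · omega
      · have h1 : 1 * T ≤ 2 ^ (i - 1) * T := Nat.mul_le_mul_right T Nat.one_le_two_pow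
        omega
    have h3 : (i = 0 ∧ aL T b e i = e) ∨ aL T b e i = e - tO T b i := by
      unfold aL
      split_ifs with g
      · exact Or.inl ⟨g, rfl⟩
      · exact Or.inr rfl
    refine ⟨h2.1, by omega, by omega, fun k hk => ?_⟩
    rw [mem_Ico] at hk ⊢
    omega

/-- **A replica of the block `[a, d)`, for SOME opening time `a ∈ [m, u)`, which misses the base path on `(a, v]`: one price.** -/
theorem mic_op (h : In μ s c₀ C₀ n₀) : ∀ ε θ : ℝ, 0 < ε → 0 < θ → ∃ δ κ c₂ : ℝ, 0 < δ ∧ 0 < κ ∧ 0 < c₂ ∧ ∃ L₀ : ℕ, ∀ L : ℕ, L₀ ≤ L →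
    ∀ N : ℕ, L ≤ 16 * N → N ≤ L → ∀ y : ℕ, y ≤ N → |(y : ℝ) - sl μ s * N| ≤ ((L : ℝ) ^ δ * wd' μ s N) →
    ∀ m d u v : ℕ, m ≤ u → v ≤ d → d ≤ N → (L : ℝ) ^ θ ≤ ((v - u : ℕ) : ℝ) → ∀ x : ℝ, x ≤ (L : ℝ) ^ κ →
    ∀ F : Env → Finset ℕ → Prop, Ms F → OffRows (Ioo m d) F →
    P1 μ s N y (fun η S => F η S ∧ ∃ a ∈ Ico m u, Hy μ s N y a d (NoMeet (a + 1) v) x η S) ≤
      ENNReal.ofReal ((L : ℝ) ^ ε * (EE' μ s (v - u))⁻¹) * P1 μ s N y F + ENNReal.ofReal (Real.exp (-(L : ℝ) ^ c₂)) := by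
  intro ε θ hε hθ
  obtain ⟨δ, c₁, hδ, hc₁, L₁, hP⟩ := pl_gap h ε θ hε hθ
  obtain ⟨κ, c₂, hκ, -, hc₂, L₂, hT⟩ := tiny15 hc₁
  refine ⟨δ, κ, c₂, hδ, hκ, hc₂, L₁ + L₂ + 100, ?_⟩
  intro L hL N hLN hNL y hyN hyc m d u v h1 h2 h3 h4 x hx F hF hoff
  have hL100 : (100 : ℝ) ≤ L := by exact_mod_cast (show 100 ≤ L by omega)
  have hL0 : (0 : ℝ) < L := by linarith
  have hX0 : 0 ≤ (L : ℝ) ^ κ := by positivity
  obtain ⟨-, hTiny⟩ := hT L (by omega)
  set A' : ℕ → Finset ℕ → Finset ℕ → Prop := fun a S S' => pos S a = pos S' a ∧ pos S d = pos S' d ∧ NoMeet (a + 1) v S S' with hA'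
  have huv : u < v := by
    have h5 : (0 : ℝ) < (L : ℝ) ^ θ := by positivity
    have h6 : (0 : ℝ) < ((v - u : ℕ) : ℝ) := h5.trans_le h4
    have h7 : 0 < v - u := by exact_mod_cast h6
    omega
  have hon : ∀ a ∈ Ico m u, On2 a d (A' a) := by
    intro a ha S S' S'' hS
    rw [mem_Ico] at ha
    simp only [hA']
    rw [hS a le_rfl (by omega), hS d (by omega) le_rfl, nm_on2 (Nat.le_succ a) h2 S S' S'' hS]
  have hgap : ∀ a ∈ Ico m u, ∀ S S', A' a S S' → Gap m d u v S S' := by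
    intro a ha S S' hh
    rw [mem_Ico] at ha
    exact ⟨a, d, ha.1, ha.2.le, h2, le_rfl, hh.1, hh.2.1, fun k hk1 hk2 => hh.2.2 k (by omega) (by omega)⟩
  have hsub : P1 μ s N y (fun η S => F η S ∧ ∃ a ∈ Ico m u, Hy μ s N y a d (NoMeet (a + 1) v) x η S) ≤
      P1 μ s N y (fun η S => F η S ∧ ∃ a ∈ Ico m u, Hy μ s N y a d (A' a) x η S) := by
    refine A12.P1_mono fun η S ⟨g1, a, g2, g3⟩ => ⟨g1, a, g2, lt_of_lt_of_le g3 ?_⟩
    exact Pool.Agent.W_7d29a1_C0.P86.mc_mono (fun S S' _ _ _ _ h5 h6 => ⟨h5 a (Or.inl le_rfl), h5 d (Or.inr le_rfl), h6⟩) η S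
  refine hsub.trans ((amp_ex (Ico m u) hyN (c := fun a => a) (d := fun _ => d) (fun a ha => by rw [mem_Ico] at ha; omega)
    (fun a _ => h3) hon hgap (hP L (by omega) N hLN hNL y hyN hyc m d u v h1 h2 h3 h4) x (3 * (L : ℝ) ^ κ)
    hF hoff).trans ?_)
  refine add_le_add le_rfl (le_trans ?_ (hTiny N hNL x (by linarith)))
  rw [mul_add]
  refine add_le_add (le_mul_of_one_le_left zero_le ?_) (mul_le_mul' ?_ le_rfl)
  · rw [← ENNReal.ofReal_one]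
    exact ENNReal.ofReal_le_ofReal (one_le_pow₀ (by linarith))
  · rw [Nat.card_Ico, ← ENNReal.ofReal_natCast]
    refine ENNReal.ofReal_le_ofReal ?_
    have g1 : ((u - m : ℕ) : ℝ) ≤ L := by exact_mod_cast (show u - m ≤ L by omega)
    have g2 : (L : ℝ) ≤ (L : ℝ) ^ 3 := by nlinarith [sq_nonneg (L : ℝ)]
    linarith

end Pool.Agent.W_7d29a1_C0.P15
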