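import Pool.Agent.W_7d29a1_C0.Site15
import Pool.Agent.W_7d29a1_C0.Own15B

/-!
MP_7d29a1_pr, [C0], helper15: `site_coreL` = the mirror image of `site_coreR` (the double tie at the LEFT end of a centred window, summed over a
stretch, for an abstract family of own events).
-/

set_option autoImplicit false

namespace Pool.Agent.W_7d29a1_C0.P15

open MeasureTheory ProbabilityTheory Filter Topology Finset
open Pool.Agent.W_7d29a1_F Pool.Agent.W_7d29a1_X Pool.Agent.W_7d29a1_h4g Pool.Agent.W_7d29a1_H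
open Pool.Agent.W_7d29a1_HS (In wd md)
open Pool.Agent.W_7d29a1_HZ Pool.Agent.W_7d29a1_HZ.R72 Pool.Agent.W_7d29a1_Z.Asm72
open Pool.Agent.W_7d29a1_HZ.Z86
open Pool.Agent.W_7d29a1_C0.P86
open Pool.Agent.W_7d29a1_C0.P3 (Hy hy_ms hy_off hy_mono hy_mono_x slotR slotL plNear)
open scoped ENNReal

variable {μ : Measure ℝ} {s : ℝ} {N : ℕ}

/-- The micro loop opens in the window of width `T` behind the left end of the window of the row. -/
def AmL (μ : Measure ℝ) (s : ℝ) (N y c e T v : ℕ) (x : ℝ) (η : Env) (S : Finset ℕ) : Prop :=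
  ∃ a ∈ Icc (c + T) (c + 2 * T), Hy μ s N y a e (NoMeet (a + 1) v) x η S

theorem amL_ms {c e T v y : ℕ} {x : ℝ} : Ms (AmL μ s N y c e T v x) := ms_ex (Icc (c + T) (c + 2 * T)) fun _ => hy_ms _ _

theorem amL_off {c e T v y : ℕ} {x : ℝ} (hc : c + 2 * T ≤ e) (he : e ≤ N) {J : Finset ℕ} (hJ : ∀ j ∈ J, j < c + T) :
    OffRows J (AmL μ s N y c e T v x) := by
  intro η η' S h
  refine exists_congr fun a => and_congr_right fun ha => ?_
  rw [mem_Icc] at ha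
  exact hy_off (by omega) (by omega) _ x (fun j hj => Or.inl (by have := hJ j hj; omega)) η η' S h

/-- The micro loop opens behind `m`. -/
def BmL (μ : Measure ℝ) (s : ℝ) (N y m u e v : ℕ) (x : ℝ) (η : Env) (S : Finset ℕ) : Prop :=
  ∃ a ∈ Ico m u, Hy μ s N y a e (NoMeet (a + 1) v) x η S

theorem bmL_ms {m u e v y : ℕ} {x : ℝ} : Ms (BmL μ s N y m u e v x) := ms_ex (Ico m u) fun _ => hy_ms _ _

theorem bmL_off {m u e v y : ℕ} {x : ℝ} (hc : u ≤ e) (he : e ≤ N) {J : Finset ℕ} (hJ : ∀ j ∈ J, j ≤ m) :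
    OffRows J (BmL μ s N y m u e v x) := by
  intro η η' S h
  refine exists_congr fun a => and_congr_right fun ha => ?_
  rw [mem_Ico] at ha
  exact hy_off (by omega) (by omega) _ x (fun j hj => Or.inl (by have := hJ j hj; omega)) η η' S h

/-- The decomposition of one row. -/
theorem rowL {y b j u v T0 I : ℕ} (hb : b ≤ j) (hN : j + b ≤ N) (hu : j ≤ u + b / 2) (hv : v ≤ j + b) (huv : u < v) (hb2 : 2 ≤ b)
    (hT0 : 1 ≤ T0) {x x' : ℝ} (hx : (N : ℝ) ≤ Real.exp (x' - x)) (Own F : Env → Finset ℕ → Prop) :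
    P1 μ s N y (fun η S => F η S ∧ Hy μ s N y (j - b) (j + b) (NoMeet u v) x η S ∧ Own η S) ≤
      P1 μ s N y (fun η S => F η S ∧ ∃ a ∈ Icc (j - b) (j - b + 2 * (2 ^ 0 * T0)), Hy μ s N y a (j + b) (NoMeet (a + 1) v) x' η S) +
      (∑ i ∈ range (I + 1), P1 μ s N y (fun η S => (F η S ∧ AmL μ s N y (j - b) (j + b) (2 ^ i * T0) v x' η S) ∧ Own η S) +
        P1 μ s N y (fun η S => (F η S ∧ BmL μ s N y (j - b + 2 * (2 ^ I * T0)) u (j + b) v x' η S) ∧ Own η S)) := by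
  have hmass : ∀ η S, Hy μ s N y (j - b) (j + b) (NoMeet u v) x η S →
      ∃ a ∈ Ico (j - b) u, Hy μ s N y a (j + b) (NoMeet (a + 1) v) x' η S := fun η S hh =>
    hy_open (by omega) (by omega) (by omega) hN hx hh
  have hsub : P1 μ s N y (fun η S => F η S ∧ Hy μ s N y (j - b) (j + b) (NoMeet u v) x η S ∧ Own η S) ≤
      P1 μ s N y (fun η S => (F η S ∧ ∃ a ∈ Icc (j - b) (j - b + 2 * (2 ^ 0 * T0)), Hy μ s N y a (j + b) (NoMeet (a + 1) v) x' η S) ∨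
        ((∃ i ∈ range (I + 1), (F η S ∧ AmL μ s N y (j - b) (j + b) (2 ^ i * T0) v x' η S) ∧ Own η S) ∨
        ((F η S ∧ BmL μ s N y (j - b + 2 * (2 ^ I * T0)) u (j + b) v x' η S) ∧ Own η S))) := by
    refine A12.P1_mono fun η S hev => ?_
    obtain ⟨f1, f2, f3⟩ := hev
    obtain ⟨a, ha, hHy⟩ := hmass η S f2
    rw [mem_Ico] at ha
    by_cases hA : a - (j - b) ≤ 2 * T0
    · refine Or.inl ⟨f1, a, mem_Icc.2 ⟨ha.1, ?_⟩, hHy⟩
      rw [pow_zero, one_mul]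
      omega
    · by_cases hB : a - (j - b) ≤ 2 * (2 ^ I * T0)
      · obtain ⟨i, hi1, hi2, hi3⟩ := dyad hT0 (by omega) hB
        refine Or.inr (Or.inl ⟨i, mem_range.2 (by omega), ⟨f1, a, mem_Icc.2 ?_, hHy⟩, f3⟩)
        omega
      · exact Or.inr (Or.inr ⟨⟨f1, a, mem_Ico.2 ⟨by omega, ha.2⟩, hHy⟩, f3⟩)
  refine hsub.trans ((A12.P1_or _ _).trans (add_le_add le_rfl ((A12.P1_or _ _).trans (add_le_add ?_ le_rfl))))
  exact A12.P1_exists (μ := μ) (s := s) (N := N) (y := y) (range (I + 1)) _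

/-- The event of the slot lemma. -/
def SLv (μ : Measure ℝ) (s : ℝ) (N y b lo T c e : ℕ) (x : ℝ) (F : Env → Finset ℕ → Prop) (η : Env) (S : Finset ℕ) : Prop :=
  F η S ∧ ∃ a ∈ Icc c (c + 2 * T), Hy μ s N y a e (NoMeet (a + 1) (lo + b / 8)) x η S

theorem sl_of {y b lo j v T m : ℕ} (h2 : lo + b ≤ j) (hv : j ≤ v + b / 2) (hm : j - b ≤ m) {x : ℝ} {F : Env → Finset ℕ → Prop}
    {η : Env} {S : Finset ℕ} (h : F η S ∧ ∃ a ∈ Icc m (j - b + 2 * T), Hy μ s N y a (j + b) (NoMeet (a + 1) v) x η S) :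
    SLv μ s N y b lo T (j - b) (j - b + 2 * b) x F η S := by
  obtain ⟨f1, a, ha, hh⟩ := h
  rw [mem_Icc] at ha
  refine ⟨f1, a, mem_Icc.2 ⟨by omega, ha.2⟩, ?_⟩
  have e : j - b + 2 * b = j + b := by omega
  rw [e]
  exact hy_mono (fun S' _ _ hm k hk1 hk2 => hm k hk1 (by omega)) hh

theorem card_ofL {b lo : ℕ} {JJ : Finset ℕ} (hb : 1 ≤ b) (h : ∀ j ∈ JJ, lo + b ≤ j ∧ j + b ≤ N) : JJ.card ≤ N := by
  have h1 : JJ ⊆ range N := fun j hj => by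
    rw [mem_range]
    have := h j hj
    omega
  have h2 := card_le_card h1
  rwa [card_range] at h2

variable [IsProbabilityMeasure μ] {c₀ C₀ : ℝ} {n₀ : ℕ}

/-- **THE DOUBLE TIE AT THE LEFT END OF A CENTRED WINDOW, SUMMED OVER A STRETCH**, for an abstract family of own events: `Own j` has the price
`L ^ ε' / EE' T` given every event which does not see the rows `[lo - A, j - b + T)`, for every `T`. -/
theorem site_coreL (h : In μ s c₀ C₀ n₀) : ∀ ε θ : ℝ, 0 < ε → 0 < θ → ∃ ε' θ' : ℝ, 0 < ε' ∧ 0 < θ' ∧ θ' ≤ θ ∧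
    ∀ c₁ : ℝ, 0 < c₁ → ∃ δ κ c₂ : ℝ, 0 < δ ∧ 0 < κ ∧ 0 < c₂ ∧ ∃ L₀ : ℕ, ∀ L : ℕ, L₀ ≤ L →
    ∀ N : ℕ, L ≤ 16 * N → N ≤ L → ∀ y : ℕ, y ≤ N → |(y : ℝ) - sl μ s * N| ≤ ((L : ℝ) ^ δ * wd' μ s N) →
    ∀ b l lo A : ℕ, (L : ℝ) ^ θ ≤ b → (L : ℝ) ^ θ ≤ l →
    ∀ JJ : Finset ℕ, (∀ j ∈ JJ, lo + b ≤ j ∧ j < lo + b + b / 64 ∧ j + b ≤ N) →
    ∀ u v : ℕ → ℕ, (∀ j ∈ JJ, j ≤ u j + b / 2 ∧ v j ≤ j + b ∧ u j + l ≤ v j) →
    ∀ Own : ℕ → Env → Finset ℕ → Prop,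
    (∀ j ∈ JJ, ∀ T : ℕ, (L : ℝ) ^ θ' ≤ T → 4 * T ≤ b → ∀ G : Env → Finset ℕ → Prop, Ms G → OffRows (Ico (lo - A) (j - b + T)) G →
      P1 μ s N y (fun η S => G η S ∧ Own j η S) ≤
        ENNReal.ofReal ((L : ℝ) ^ ε' * (EE' μ s T)⁻¹) * P1 μ s N y G + ENNReal.ofReal (Real.exp (-(L : ℝ) ^ c₁))) →
    ∀ x : ℝ, x ≤ (L : ℝ) ^ κ →
    ∀ F : Env → Finset ℕ → Prop, Ms F → OffRows (Ico (lo - A) (lo + 3 * b)) F →
    ∑ j ∈ JJ, P1 μ s N y (fun η S => F η S ∧ Hy μ s N y (j - b) (j + b) (NoMeet (u j) (v j)) x η S ∧ Own j η S) ≤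
      ENNReal.ofReal ((L : ℝ) ^ ε * ((b * (EE' μ s b)⁻¹ + JJ.card * (EE' μ s l)⁻¹) * (EE' μ s b)⁻¹)) * P1 μ s N y F +
        ENNReal.ofReal (Real.exp (-(L : ℝ) ^ c₂)) := by
  intro ε θ hε hθ
  obtain ⟨α, K, -, -, hK, hE⟩ := EE'_pow h
  have hE0 : ∀ t, 0 < EE' μ s t := fun t => lt_of_lt_of_le zero_lt_one (le_max_left _ _)
  obtain ⟨ε', hε'⟩ : ∃ ε' : ℝ, ε' = ε / 3 := ⟨_, rfl⟩
  have hε0 : 0 < ε' := by rw [hε']; positivity
  obtain ⟨θ', hθ'⟩ : ∃ θ' : ℝ, θ' = min (θ / 2) ε' := ⟨_, rfl⟩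
  have hθ0 : 0 < θ' := by rw [hθ']; exact lt_min (by positivity) hε0
  have hθ1 : 2 * θ' ≤ θ := by have := min_le_left (θ / 2) ε'; rw [← hθ'] at this; linarith
  have hθ2 : θ' ≤ ε' := by rw [hθ']; exact min_le_right _ _
  refine ⟨ε', θ', hε0, hθ0, by linarith, fun c₁ hc₁ => ?_⟩
  obtain ⟨δ₂, κ₂, c₂, hδ₂, hκ₂, hc₂, L₂, hMic⟩ := mic_op h ε' θ hε0 hθ
  obtain ⟨δ₃, c₃, hδ₃, hc₃, L₃, hSl⟩ := slotL h (plNear h) ε' θ' hε0 hθ0
  obtain ⟨cm, hcm⟩ : ∃ cm : ℝ, cm = min (min c₁ c₂) c₃ := ⟨_, rfl⟩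
  have hcm0 : 0 < cm := by rw [hcm]; exact lt_min (lt_min hc₁ hc₂) hc₃
  obtain ⟨κ, hκ⟩ : ∃ κ : ℝ, κ = min κ₂ c₃ / 2 := ⟨_, rfl⟩
  have hκ0 : 0 < κ := by rw [hκ]; have := lt_min hκ₂ hc₃; positivity
  obtain ⟨cp, hcp, L₄, hnum⟩ := num15 (μ := μ) (s := s) hK (fun m n h1 h2 => (hE m n h1 h2).2.2) hε0 hθ0 hθ2 hcm0
  obtain ⟨L₆, hL₆⟩ := Pool.Agent.W_7d29a1_Z.NumI77.large hκ0 2
  obtain ⟨L₇, hL₇⟩ := Pool.Agent.W_7d29a1_Z.NumI77.large hθ0 512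
  refine ⟨min δ₂ δ₃, κ, cp, lt_min hδ₂ hδ₃, hκ0, hcp, L₂ + L₃ + L₄ + L₆ + L₇ + 100, ?_⟩
  intro L hL N hLN hNL y hyN hyc b l lo A hbL hlL JJ hJJ u v huv Own hOwn x hx F hF hoff
  have hL2 : L₂ ≤ L := by omega
  have hL3 : L₃ ≤ L := by omega
  have hL4 : L₄ ≤ L := by omega
  have hL1 : 1 ≤ L := by omega
  have hL100 : (100 : ℝ) ≤ L := by exact_mod_cast (show 100 ≤ L by omega)
  obtain ⟨-, hX2, hXlog⟩ := hL₆ L (by omega)
  obtain ⟨-, hθ512, -⟩ := hL₇ L (by omega)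
  clear hL hL₆ hL₇
  have hLR : (1 : ℝ) ≤ L := by linarith
  have hL0 : (0 : ℝ) < L := by linarith
  have hwd : ∀ n, 0 < wd' μ s n := fun n => lt_of_lt_of_le zero_lt_one (le_max_left _ _)
  have hcone : ∀ δ', min δ₂ δ₃ ≤ δ' → |(y : ℝ) - sl μ s * N| ≤ ((L : ℝ) ^ δ' * wd' μ s N) := fun δ' hδ' =>
    hyc.trans (mul_le_mul_of_nonneg_right (Real.rpow_le_rpow_of_exponent_le hLR hδ') (hwd N).le)
  have hcy2 := hcone δ₂ (min_le_left _ _)
  have hcy3 := hcone δ₃ (min_le_right _ _)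
  rcases JJ.eq_empty_or_nonempty with hJe | hJne
  · rw [hJe, sum_empty]
    exact zero_le
  obtain ⟨j₀, hj₀⟩ := hJne
  have hbN : b ≤ N := by have h1 := hJJ j₀ hj₀; omega
  -- the amplification
  obtain ⟨x', hx'⟩ : ∃ x' : ℝ, x' = (L : ℝ) ^ (2 * κ) := ⟨_, rfl⟩
  have hxx : x' = (L : ℝ) ^ κ * (L : ℝ) ^ κ := by
    rw [hx', ← Real.rpow_add hL0]
    congr 1
    ring
  have hx1 : (N : ℝ) ≤ Real.exp (x' - x) := by
    have h1 : (N : ℝ) ≤ L := by exact_mod_cast hNL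
    refine h1.trans ?_
    rw [← Real.log_le_iff_le_exp hL0]
    have h2 : 0 ≤ Real.log L := Real.log_nonneg hLR
    have h3 : 2 * (L : ℝ) ^ κ ≤ (L : ℝ) ^ κ * (L : ℝ) ^ κ := mul_le_mul_of_nonneg_right hX2 (by linarith)
    linarith
  have hκle : ∀ κ', min κ₂ c₃ ≤ κ' → x' ≤ (L : ℝ) ^ κ' := fun κ' hκ' => by
    rw [hx']
    refine Real.rpow_le_rpow_of_exponent_le hLR ?_
    rw [hκ]
    linarith
  have hx'2 := hκle κ₂ (min_le_left _ _)
  have hx'3 := hκle c₃ (min_le_right _ _)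
  -- the scales
  obtain ⟨T0, hT0⟩ : ∃ T0 : ℕ, T0 = ⌈(L : ℝ) ^ θ'⌉₊ := ⟨_, rfl⟩
  have hT0a : (L : ℝ) ^ θ' ≤ T0 := hT0 ▸ Nat.le_ceil _
  have hT0b : (T0 : ℝ) ≤ 2 * (L : ℝ) ^ θ' := by
    have h1 : (T0 : ℝ) < (L : ℝ) ^ θ' + 1 := hT0 ▸ Nat.ceil_lt_add_one (by positivity)
    linarith
  have hT01 : 1 ≤ T0 := by
    have : (1 : ℝ) ≤ T0 := by linarith
    exact_mod_cast this
  have hT0c : 256 * T0 ≤ b := by
    have h1 : (256 : ℝ) * T0 ≤ b := by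
      calc (256 : ℝ) * T0 ≤ 512 * (L : ℝ) ^ θ' := by linarith
        _ ≤ (L : ℝ) ^ θ' * (L : ℝ) ^ θ' := mul_le_mul_of_nonneg_right hθ512 (by positivity)
        _ = (L : ℝ) ^ (2 * θ') := by
            rw [← Real.rpow_add hL0]
            congr 1
            ring
        _ ≤ (L : ℝ) ^ θ := Real.rpow_le_rpow_of_exponent_le hLR hθ1
        _ ≤ b := hbL
    exact_mod_cast h1
  obtain ⟨I, hIb, hTI, hTI2⟩ := scales hT01 hT0c
  have hT0T : ∀ i, T0 ≤ 2 ^ i * T0 := fun i => by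
    have : 1 * T0 ≤ 2 ^ i * T0 := Nat.mul_le_mul_right T0 Nat.one_le_two_pow
    omega
  have hTR : ∀ i, (L : ℝ) ^ θ' ≤ ((2 ^ i * T0 : ℕ) : ℝ) := fun i => hT0a.trans (by exact_mod_cast hT0T i)
  -- the errors
  have hp1 : ENNReal.ofReal (Real.exp (-(L : ℝ) ^ c₁)) ≤ ENNReal.ofReal (Real.exp (-(L : ℝ) ^ cm)) :=
    ENNReal.ofReal_le_ofReal (Pool.Agent.W_7d29a1_Z.NumI77.exp_mono (by rw [hcm]; exact (min_le_left _ _).trans (min_le_left _ _)) hL1)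
  have hp2 : ENNReal.ofReal (Real.exp (-(L : ℝ) ^ c₂)) ≤ ENNReal.ofReal (Real.exp (-(L : ℝ) ^ cm)) :=
    ENNReal.ofReal_le_ofReal (Pool.Agent.W_7d29a1_Z.NumI77.exp_mono (by rw [hcm]; exact (min_le_left _ _).trans (min_le_right _ _)) hL1)
  have hp3 : ENNReal.ofReal (Real.exp (-(L : ℝ) ^ c₃)) ≤ ENNReal.ofReal (Real.exp (-(L : ℝ) ^ cm)) :=
    ENNReal.ofReal_le_ofReal (Pool.Agent.W_7d29a1_Z.NumI77.exp_mono (by rw [hcm]; exact min_le_right _ _) hL1)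
  have hl1 : 1 ≤ l := by
    have h1 : (0 : ℝ) < (L : ℝ) ^ θ := by positivity
    have h2 : (0 : ℝ) < l := h1.trans_le hlL
    exact_mod_cast h2
  -- the slots
  have hSlj : ∀ i, i ≤ I → ∑ j ∈ JJ, P1 μ s N y (SLv μ s N y b lo (2 ^ i * T0) (j - b) (j - b + 2 * b) x' F) ≤
      ENNReal.ofReal ((L : ℝ) ^ ε' * ((((2 ^ i * T0 : ℕ) : ℝ) + b * (EE' μ s b)⁻¹) * (EE' μ s b)⁻¹)) * P1 μ s N y F +
        ENNReal.ofReal (Real.exp (-(L : ℝ) ^ cm)) := by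
    intro i hi'
    have h1 := hSl L hL3 N hLN hNL y hyN hcy3 (2 ^ i * T0) b lo (hTR i) (hTI i hi') hbN x' hx'3 (JJ.image fun j => j - b)
      (fun d' hd' => by
        obtain ⟨j, hj, rfl⟩ := mem_image.1 hd'
        have h5 := hJJ j hj
        clear * - h5
        constructor <;> omega) (fun d' => d' + 2 * b) (fun d' hd' => by
        obtain ⟨j, hj, rfl⟩ := mem_image.1 hd'
        have h5 := hJJ j hj
        clear * - h5
        constructor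
        · show lo + b / 8 ≤ j - b + 2 * b
          omega
        · show j - b + 2 * b ≤ N
          omega) F hF (Pool.Agent.W_7d29a1_HZ.ZE.OffRows.mono36 (fun k hk => by
        rw [mem_Ico] at hk ⊢
        clear * - hk
        omega) hoff)
    rw [sum_image (fun j hj j' hj' h => by
      have h5 := (hJJ j hj).1
      have h6 := (hJJ j' hj').1
      have h7 : j - b = j' - b := h
      clear * - h5 h6 h7
      omega)] at h1
    exact h1.trans (add_le_add le_rfl hp3)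
  -- one row
  have hrow : ∀ j ∈ JJ, P1 μ s N y (fun η S => F η S ∧ Hy μ s N y (j - b) (j + b) (NoMeet (u j) (v j)) x η S ∧ Own j η S) ≤
      P1 μ s N y (SLv μ s N y b lo (2 ^ 0 * T0) (j - b) (j - b + 2 * b) x' F) +
      (∑ i ∈ range (I + 1), (ENNReal.ofReal ((L : ℝ) ^ ε' * (EE' μ s (2 ^ i * T0))⁻¹) *
          P1 μ s N y (SLv μ s N y b lo (2 ^ i * T0) (j - b) (j - b + 2 * b) x' F) + ENNReal.ofReal (Real.exp (-(L : ℝ) ^ cm))) +
        (ENNReal.ofReal ((L : ℝ) ^ ε' * (EE' μ s (2 ^ I * T0))⁻¹) * (ENNReal.ofReal ((L : ℝ) ^ ε' * (K * (EE' μ s l)⁻¹)) * P1 μ s N y F +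
          ENNReal.ofReal (Real.exp (-(L : ℝ) ^ cm))) + ENNReal.ofReal (Real.exp (-(L : ℝ) ^ cm)))) := by
    intro j hj
    obtain ⟨j0, j1, j2⟩ := hJJ j hj
    obtain ⟨g1, g2, g3⟩ := huv j hj
    have hvb : j ≤ v j + b / 2 := by clear * - g1 g3; omega
    have hbj : b ≤ j := by clear * - j0; omega
    refine (rowL (T0 := T0) (I := I) hbj j2 g1 g2 (by omega) (by omega) hT01 hx1 (Own j) F).trans
      (add_le_add ?_ (add_le_add (sum_le_sum fun i hi' => ?_) ?_))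
    · exact A12.P1_mono fun η S hev => sl_of j0 hvb le_rfl hev
    · have hiI : i ≤ I := by rw [mem_range] at hi'; omega
      have hTi := hTI i hiI
      refine (hOwn j hj (2 ^ i * T0) (hTR i) (by omega) _ (ms_and hF amL_ms)
        (off_and (Pool.Agent.W_7d29a1_HZ.ZE.OffRows.mono36 (fun k hk => by
          rw [mem_Ico] at hk ⊢
          clear * - hk hTi j1 j0
          omega) hoff) (amL_off (by clear * - hTi hbj; omega) j2 fun k hk => by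
          rw [mem_Ico] at hk
          exact hk.2))).trans (add_le_add (mul_le_mul' le_rfl ?_) hp1)
      exact A12.P1_mono fun η S hev => sl_of j0 hvb (Nat.le_add_right _ _) hev
    · have hTi := hTI I le_rfl
      have hT1 := hT0T I
      refine (hOwn j hj (2 ^ I * T0) (hTR I) (by omega) _ (ms_and hF bmL_ms)
        (off_and (Pool.Agent.W_7d29a1_HZ.ZE.OffRows.mono36 (fun k hk => by
          rw [mem_Ico] at hk ⊢
          clear * - hk hTi j1 j0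
          omega) hoff) (bmL_off (by clear * - g2 g3; omega) j2 fun k hk => by
          rw [mem_Ico] at hk
          clear * - hk hT1 hT01
          omega))).trans (add_le_add (mul_le_mul' le_rfl ?_) hp1)
      have hlv : (L : ℝ) ^ θ ≤ ((v j - u j : ℕ) : ℝ) := hlL.trans (by exact_mod_cast (show l ≤ v j - u j by omega))
      refine (hMic L hL2 N hLN hNL y hyN hcy2 (j - b + 2 * (2 ^ I * T0)) (j + b) (u j) (v j) (by clear * - g1 hTi hbj; omega)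
        g2 j2 hlv x' hx'2 F hF
        (Pool.Agent.W_7d29a1_HZ.ZE.OffRows.mono36 (fun k hk => by
          rw [mem_Ioo] at hk
          rw [mem_Ico]
          clear * - hk j1 j0
          omega) hoff)).trans (add_le_add ?_ hp2)
      refine mul_le_mul' (ENNReal.ofReal_le_ofReal (mul_le_mul_of_nonneg_left ?_ (by positivity))) le_rfl
      have e3 := (hE l (v j - u j) hl1 (by omega)).1
      rw [← div_eq_mul_inv, le_div_iff₀ (hE0 l), inv_mul_le_iff₀ (hE0 _)]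
      linarith
  refine (asm15 (s := fun i => ENNReal.ofReal ((L : ℝ) ^ ε' * ((((2 ^ i * T0 : ℕ) : ℝ) + b * (EE' μ s b)⁻¹) * (EE' μ s b)⁻¹)))
    (r := fun i => ENNReal.ofReal ((L : ℝ) ^ ε' * (EE' μ s (2 ^ i * T0))⁻¹)) hrow hSlj).trans ?_
  have hfin := hnum L hL4 N b l T0 I JJ.card hNL hbN hl1
    ((card_ofL (N := N) (by omega) fun j hj => ⟨(hJJ j hj).1, (hJJ j hj).2.2⟩).trans hNL) hT01 hT0b hIb hTI hTI2 (P1 μ s N y F)
  have e9 : (3 : ℝ) * ε' = ε := by rw [hε']; ring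
  rw [e9] at hfin
  exact hfin

end Pool.Agent.W_7d29a1_C0.P15
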