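import Pool.Agent.W_7d29a1_C0.SiteN80
import Pool.Agent.W_7d29a1_C0.Site15L

/-!
C0, helper80: THE SITE PRICE WITH ROBUST EVENTS, left end, weighted form (`siteM_L`).
-/

set_option autoImplicit false

namespace Pool.Agent.W_7d29a1_C0.Own80

open MeasureTheory ProbabilityTheory Filter Topology Finset
open Pool.Agent.W_7d29a1_F Pool.Agent.W_7d29a1_X Pool.Agent.W_7d29a1_h4g Pool.Agent.W_7d29a1_H
open Pool.Agent.W_7d29a1_HS (In wd md)
open Pool.Agent.W_7d29a1_HZ Pool.Agent.W_7d29a1_HZ.R72 Pool.Agent.W_7d29a1_Z.Asm72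
open Pool.Agent.W_7d29a1_HZ.Z86
open Pool.Agent.W_7d29a1_C0.P86
open Pool.Agent.W_7d29a1_C0.P3 (Hy hy_ms hy_off er amp amp_ex)
open Pool.Agent.W_7d29a1_C0.P15 (site_coreL tiny15)
open Pool.W7d29a1.C0.R43 (st)
open Pool.Agent.W_7d29a1_C0.Wp23 (WPs WPs.mono)
open scoped ENNReal

variable {μ : Measure ℝ} {s : ℝ} {N : ℕ} [IsProbabilityMeasure μ] {c₀ C₀ : ℝ} {n₀ : ℕ}

/-- **THE SITE PRICE, LEFT END.** -/
theorem siteM_L (h : In μ s c₀ C₀ n₀) : ∀ ε θ : ℝ, 0 < ε → 0 < θ → ∃ δ κ c₂ : ℝ, 0 < δ ∧ 0 < κ ∧ 0 < c₂ ∧ ∃ L₀ : ℕ, ∀ L : ℕ, L₀ ≤ L →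
    ∀ N : ℕ, L ≤ 16 * N → N ≤ L → ∀ y : ℕ, y ≤ N → |(y : ℝ) - sl μ s * N| ≤ ((L : ℝ) ^ δ * wd' μ s N) →
    ∀ M : ℝ, 8 ≤ M → M ≤ (L : ℝ) ^ κ → ∀ b l lo : ℕ, (L : ℝ) ^ θ ≤ b → (L : ℝ) ^ θ ≤ l → 2 * b ≤ N →
    ∀ JJ : Finset ℕ, (∀ j ∈ JJ, lo + b ≤ j ∧ j < lo + b + b / 64 ∧ j + b ≤ N ∧ 3 * b ≤ j) →
    ∀ u v : ℕ → ℕ, (∀ j ∈ JJ, j ≤ u j + b / 2 ∧ v j ≤ j + b ∧ u j + l ≤ v j) →
    ∀ c d a : ℕ → ℕ, (∀ j ∈ JJ, c j + b ≤ j ∧ j ≤ d j ∧ d j ≤ N ∧ j + b / 4 ≤ a j + b) → ∀ Tm To : Prop,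
    WPs μ s N y (ENNReal.ofReal ((L : ℝ) ^ ε * ((b * (EE' μ s b)⁻¹ + JJ.card * (EE' μ s l)⁻¹) * (EE' μ s b)⁻¹)))
      (ENNReal.ofReal (Real.exp (-(L : ℝ) ^ c₂) + 2 * (L : ℝ) ^ 2 * Real.exp (-M))) JJ
      (fun j η S => ind (TK μ s N Tm y (j - b) (j + b) (u j) (v j) M η S ∧ TK μ s N To y (c j) (d j) (j - b) (a j) M η S ∧
        ¬ Lg μ s N y (c j) (d j) j b (8 * M) η S)) (Ico (lo - (2 * b - 1)) (lo + 3 * b)) := by
  intro ε θ hε hθ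
  obtain ⟨ε', θ', hε', hθ', hθθ, hS⟩ := site_coreL h (ε / 2) (θ / 2) (by positivity) (by positivity)
  obtain ⟨δ₁, κ₁, c₁, hδ₁, hκ₁, hc₁, L₁, hO⟩ := owL_own h ε' θ' hε' hθ'
  obtain ⟨δ₂, κ₂, c₂, hδ₂, hκ₂, hc₂, L₂, hC⟩ := hS c₁ hc₁
  obtain ⟨κ₀, hκ₀d⟩ : ∃ κ₀, κ₀ = min κ₁ κ₂ := ⟨_, rfl⟩
  have hκ₀ : 0 < κ₀ := by rw [hκ₀d]; exact lt_min hκ₁ hκ₂
  obtain ⟨κ, hκd⟩ : ∃ κ, κ = min (κ₀ / 2) (min (ε / 8) (min (θ' / 8) (1 / 2))) := ⟨_, rfl⟩
  have hκ : 0 < κ := by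
    rw [hκd]
    refine lt_min (by positivity) (lt_min (by positivity) (lt_min (by positivity) (by norm_num)))
  have k1 : κ < κ₀ := by
    have : κ ≤ κ₀ / 2 := by rw [hκd]; exact min_le_left _ _
    linarith
  have k2 : κ < (ε / 2) / 2 := by
    have : κ ≤ ε / 8 := by rw [hκd]; exact (min_le_right _ _).trans (min_le_left _ _)
    linarith
  have k3 : κ ≤ θ' / 8 := by rw [hκd]; exact (min_le_right _ _).trans ((min_le_right _ _).trans (min_le_left _ _))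
  have k4 : κ < 1 := by
    have : κ ≤ 1 / 2 := by rw [hκd]; exact (min_le_right _ _).trans ((min_le_right _ _).trans (min_le_right _ _))
    linarith
  obtain ⟨L₃, hNum⟩ := tau_num (ε := ε / 2) (θ := θ) hκ k1 k2 (by linarith) k4 hθ
  obtain ⟨L₄, hNuT⟩ := tau_num (ε := ε / 2) (θ := θ' / 2) hκ k1 k2 (by linarith) k4 (by positivity)
  obtain ⟨L₅, h8⟩ := ev_mul86 8 k1
  obtain ⟨κ₃, c₃, -, -, hc₃, L₆, hT⟩ := tiny15 hc₂
  obtain ⟨L₇, hL₇⟩ := ev_mul86 2 (show θ' / 2 < θ' by linarith)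
  refine ⟨min δ₁ δ₂, κ, c₃, lt_min hδ₁ hδ₂, hκ, hc₃, L₁ + L₂ + L₃ + L₄ + L₅ + L₆ + L₇ + 100, ?_⟩
  intro L hL N hLN hNL y hyN hyc M hM hML b l lo hbL hlL hbN JJ hJJ u v huv c d a hcd Tm To
  have hL100 : (100 : ℝ) ≤ L := by exact_mod_cast (show 100 ≤ L by omega)
  have hL0 : (0 : ℝ) < L := by linarith
  have hL1 : (1 : ℝ) ≤ L := by linarith
  have hwd : ∀ n, 0 < wd' μ s n := fun n => lt_of_lt_of_le zero_lt_one (le_max_left _ _)
  have hcone : ∀ δ', min δ₁ δ₂ ≤ δ' → |(y : ℝ) - sl μ s * N| ≤ ((L : ℝ) ^ δ' * wd' μ s N) := fun δ' hδ' =>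
    hyc.trans (mul_le_mul_of_nonneg_right (Real.rpow_le_rpow_of_exponent_le hL1 hδ') (hwd N).le)
  have hpw : ∀ κ', κ₀ ≤ κ' → 8 * M ≤ (L : ℝ) ^ κ' := fun κ' hk => by
    have g1 := h8 L (by omega)
    have g2 := Real.rpow_le_rpow_of_exponent_le hL1 hk
    linarith
  have q1 := hpw κ₁ (by rw [hκ₀d]; exact min_le_left _ _)
  have q2 := hpw κ₂ (by rw [hκ₀d]; exact min_le_right _ _)
  obtain ⟨n1, n2, n3, n4, n5, n6, n7, n8, n9⟩ := hNum L (by omega) M hM hML l hlL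
  obtain ⟨q, hq⟩ : ∃ q, q = ⌈10 * M⌉₊ := ⟨_, rfl⟩
  obtain ⟨l', hl'⟩ : ∃ l', l' = l / (3 * q) - 1 := ⟨_, rfl⟩
  rw [← hq, ← hl'] at n3 n4 n8
  rw [← hq] at n1 n2 n5 n6 n9
  have hq1 : 1 ≤ q := by
    have : (0 : ℝ) < q := by linarith
    exact_mod_cast this
  have hbL2 : (L : ℝ) ^ (θ / 2) ≤ b := (Real.rpow_le_rpow_of_exponent_le hL1 (by linarith)).trans hbL
  obtain ⟨T₀, hT₀⟩ : ∃ T₀, T₀ = ⌈(L : ℝ) ^ θ'⌉₊ := ⟨_, rfl⟩
  -- the windows of the own event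
  have hwin : ∀ T, T₀ ≤ T → 2 ≤ T ∧ 3 * q * (lT T q + 1) ≤ T - 1 := by
    intro T hTT
    have g0 : (L : ℝ) ^ θ' ≤ T := by
      rw [hT₀] at hTT
      exact (Nat.le_ceil _).trans (by exact_mod_cast hTT)
    have g1 := hL₇ L (by omega)
    have g2 : (1 : ℝ) ≤ (L : ℝ) ^ (θ' / 2) := Real.one_le_rpow hL1 (by positivity)
    have g3 : 2 ≤ T := by
      have : (2 : ℝ) ≤ T := by linarith
      exact_mod_cast this
    refine ⟨g3, ?_⟩
    have g4 : (L : ℝ) ^ (θ' / 2) ≤ ((T - 1 : ℕ) : ℝ) := by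
      rw [Nat.cast_sub (by omega), Nat.cast_one]
      linarith
    obtain ⟨-, -, m3, -⟩ := hNuT L (by omega) M hM hML (T - 1) g4
    rw [← hq] at m3
    exact m3
  have hkey := wps_core (μ := μ) (s := s) (N := N) (q := q) (b := b) (T₀ := T₀) hyN hM n1 n2 hq1 (JJ := JJ) (J := Ico (lo - (2 * b - 1)) (lo + 3 * b))
    (Tm := Tm) (To := To) (u := u) (v := v) (c := c) (d := d) (a := fun j => j - b) (e := a) (l' := l')
    (fun j hj => by have := hcd j hj; omega) (fun j hj => by have := huv j hj; omega) (U := fun j _ => j - b)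
    (fun j hj T hT1 hT2 => by
      obtain ⟨w1, w2⟩ := hwin T hT1
      have := hcd j hj
      show j - b ≤ j - b ∧ j - b + 3 * q * (lT T q + 1) ≤ a j
      omega)
    (r := ENNReal.ofReal ((L : ℝ) ^ (ε / 2) * ((b * (EE' μ s b)⁻¹ + JJ.card * (EE' μ s l')⁻¹) * (EE' μ s b)⁻¹)))
    (p := ENNReal.ofReal (Real.exp (-(L : ℝ) ^ c₂))) (fun n hn F hF hoff => ?_)
  · refine hkey.mono ?_ ?_ (fun j _ η S _ _ => le_rfl) (subset_refl _)
    · rw [← ENNReal.ofReal_natCast, ← ENNReal.ofReal_mul (Nat.cast_nonneg _)]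
      refine ENNReal.ofReal_le_ofReal (rate80 h hL0 hq1 n8 ?_)
      refine n9.trans (le_of_eq ?_)
      congr 1
      ring
    · rw [ENNReal.ofReal_add (Real.exp_pos _).le (by positivity)]
      refine add_le_add ?_ ?_
      · have h7 := (hT L (by omega)).2 N hNL 0 (by positivity)
        refine le_trans (mul_le_mul' ?_ le_self_add) h7
        rw [← ENNReal.ofReal_natCast]
        refine ENNReal.ofReal_le_ofReal ?_
        calc ((3 * q : ℕ) : ℝ) ≤ L := by exact_mod_cast n6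
          _ ≤ (L : ℝ) ^ 3 := le_self_pow₀ hL1 (by norm_num)
      · have hcard : JJ.card ≤ L := by
          have : JJ ⊆ range L := fun j hj => by
            have h1 := hJJ j hj
            rw [mem_range]
            have : 1 ≤ b := by
              have h2 : (0 : ℝ) < (L : ℝ) ^ θ := Real.rpow_pos_of_pos hL0 _
              have h3 : (0 : ℝ) < b := by linarith
              exact_mod_cast h3
            omega
          exact (card_le_card this).trans (le_of_eq (card_range _))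
        rw [← mul_assoc, ← Nat.cast_mul, ← ENNReal.ofReal_natCast, ← ENNReal.ofReal_mul (Nat.cast_nonneg _)]
        refine ENNReal.ofReal_le_ofReal (mul_le_mul_of_nonneg_right ?_ (Real.exp_pos _).le)
        have h9 : JJ.card * (b + 2) ≤ L * (2 * L) := Nat.mul_le_mul hcard (by omega)
        calc ((JJ.card * (b + 2) : ℕ) : ℝ) ≤ ((L * (2 * L) : ℕ) : ℝ) := by exact_mod_cast h9
          _ = 2 * (L : ℝ) ^ 2 := by
              push_cast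
              ring
  · have n4' : (L : ℝ) ^ (θ / 2) ≤ l' := n4
    refine hC L (by omega) N hLN hNL y hyN (hcone δ₂ (min_le_right _ _)) b l' lo (2 * b - 1) hbL2 n4' JJ (fun j hj => by have := hJJ j hj; omega)
      (fun j => st (u j) l' n) (fun j => st (u j) l' n + l') (fun j hj => ?_)
      (fun j η S => All80 μ s N y (c j) (d j) j b q T₀ (8 * M) (fun _ => j - b) η S) (fun j hj T hTL hTb G hG hGo => ?_) (7 * M)
      (by linarith) F hF hoff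
    · obtain ⟨g1, g2⟩ := st_bd (U := u j) (l := l') hn
      have := huv j hj
      show j ≤ st (u j) l' n + b / 2 ∧ st (u j) l' n + l' ≤ j + b ∧ st (u j) l' n + l' ≤ st (u j) l' n + l'
      omega
    · have g1 := hcd j hj
      have g2 := hJJ j hj
      have g3 := hO L (by omega) N hLN hNL y hyN (hcone δ₁ (min_le_left _ _)) M hM (by linarith) (8 * M) q1 T b (c j) (d j) j lo T₀ hTL
        (by rw [hT₀]; exact Nat.ceil_le.2 hTL) hTb hbN g1.1 g2.2.2.2 g1.2.1 g1.2.2.1 g2.1 G hG hGo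
      rw [← hq] at g3
      exact g3

end Pool.Agent.W_7d29a1_C0.Own80
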