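import Pool.Agent.W_7d29a1_C0.PrI46
import Pool.Agent.W_7d29a1_C0.SiteO80
import Pool.Agent.W_7d29a1_C0.Lng36
import Pool.Agent.W_7d29a1_C0.Bri36B

/-!
MP_7d29a1_pr, [CURV0], leaf E5 (helper46): THE PRICE OF THE PRODUCTS `tj * ow46` (micro tie told from the ends of the window, own tie of free
replicas), part 1: the alternatives (micro side, own side, own tie as a pair or as a mass), the passage to the site theorem of helper80
(`alt_le`), the rest = the long double ties of helper36 (`prod_le46`), one stretch (`stretch46`).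
-/

set_option autoImplicit false
set_option linter.unusedSectionVars false
set_option linter.dupNamespace false

namespace Pool.Agent.W_7d29a1_C0.Pr46

open Finset MeasureTheory Filter Topology
open Pool.Agent.W_7d29a1_F Pool.Agent.W_7d29a1_X
open Pool.Agent.W_7d29a1_C0 Pool.Agent.W_7d29a1_C0.Mod92 Pool.Agent.W_7d29a1_C0.Asm96
open Pool.Agent.W_7d29a1_C0.N38 (av BM BM.add BM.mul BM.abs BM.sum BM.zero BM.smul BM.sq)
open Pool.Agent.W_7d29a1_C0.Sz23 (tj)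
open Pool.Agent.W_7d29a1_C0.Base5 (pW)
open Pool.Agent.W_7d29a1_C0.NTop23 (avF)
open Pool.Agent.W_7d29a1_C0.Swap57 (NI NI_nonneg cE2)
open Pool.Agent.W_7d29a1_C0.P86 (ind ind_of ind_not NoMeet mc mI_mc TauS)
open Pool.Agent.W_7d29a1_C0.Own80 (TK Lg)
open Pool.Agent.W_7d29a1_C0.P3 (Hy)
open Pool.Agent.W_7d29a1_C0.Wp23 (WPs wps_av)
open Pool.Agent.W_7d29a1_C0.Lng36 (i36 i36_of i36_not i36_nonneg i36_le_one lm36 lo36 mi36 Bl36 Bl_nonneg Bl_le_one meas_Bl meas_lm meas_i36 meas_cE236 NI_sub)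
open Pool.Agent.W_7d29a1_C0.Bri36 (cE_free)
open Pool.W7d29a1.C0 (gz gm gz_pos gz_ne gm_nonneg gm_mono gm_const)
open Pool.W7d29a1.C0.VT31 (cE cE_mono cE_nonneg)
open Pool.W7d29a1.C0.R43 (Tau mI)
open Pool.W7d29a1.C0.S1 (tI i1 i1_nonneg i1_of i1_not)
open scoped ENNReal

noncomputable section

variable {μ : Measure ℝ} {s : ℝ} {N y : ℕ}

/-- **The own tie of the row `j`** beyond the distance `u`: two free replicas, or a free replica, which do not meet (the path) in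
`[j - b', j - u]` or in `[j + u, j + b']`. -/
def ow46 (w : Px (Pn N y) → ℝ) (u b' j : ℕ) (M : ℝ) (S : Px (Pn N y)) : ℝ :=
  tI w (pJ 0 N) (j - b') (j - u) (j + u) (j + b') M S +
    (i1 (Real.exp (-(7 * M)) < gm w (NI (j - b') (j - u) S)) + i1 (Real.exp (-(7 * M)) < gm w (NI (j + u) (j + b') S)))

/-! ### The alternatives -/

/-- The micro window, right (`true`) or left. -/
def uA (sm : Bool) (b0 b j : ℕ) : ℕ := if sm then j + b0 else j - b / 2

def vA (sm : Bool) (b0 b j : ℕ) : ℕ := if sm then j + b / 2 else j - b0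

/-- The own window, right (`true`) or left. -/
def cA (so : Bool) (u b' j : ℕ) : ℕ := if so then j + u else j - b'

def dA (so : Bool) (u b' j : ℕ) : ℕ := if so then j + b' else j - u

/-- The micro tie. -/
def mA (sm : Bool) (w : Px (Pn N y) → ℝ) (b0 b b' j : ℕ) (M : ℝ) (S : Px (Pn N y)) : ℝ :=
  i1 (Tau w (pJ (j - b') (j + b')) (uA sm b0 b j) (vA sm b0 b j) M S)

/-- The own tie, pair (`To = true`) or mass. -/
def oA (so To : Bool) (w : Px (Pn N y) → ℝ) (u b' j : ℕ) (M : ℝ) (S : Px (Pn N y)) : ℝ :=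
  if To then i1 (Tau w (pJ 0 N) (cA so u b' j) (dA so u b' j) M S)
  else i1 (Real.exp (-(7 * M)) < gm w (NI (cA so u b' j) (dA so u b' j) S))

theorem i1_mono {A B : Prop} (h : A → B) : i1 A ≤ i1 B := by
  by_cases a : A
  · rw [i1_of a, i1_of (h a)]
  · rw [i1_not a]
    exact i1_nonneg _

theorem i1_le1 (A : Prop) : i1 A ≤ 1 := by
  by_cases a : A
  · rw [i1_of a]
  · rw [i1_not a]
    exact zero_le_one

theorem i1_eq36 (A : Prop) : i1 A = i36 A := by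
  by_cases a : A
  · rw [i1_of a, i36_of a]
  · rw [i1_not a, i36_not a]

theorem mA_nonneg (sm : Bool) (w : Px (Pn N y) → ℝ) (b0 b b' j : ℕ) (M : ℝ) (S : Px (Pn N y)) : 0 ≤ mA sm w b0 b b' j M S := i1_nonneg _

theorem mA_le_one (sm : Bool) (w : Px (Pn N y) → ℝ) (b0 b b' j : ℕ) (M : ℝ) (S : Px (Pn N y)) : mA sm w b0 b b' j M S ≤ 1 := i1_le1 _

theorem oA_nonneg (so To : Bool) (w : Px (Pn N y) → ℝ) (u b' j : ℕ) (M : ℝ) (S : Px (Pn N y)) : 0 ≤ oA so To w u b' j M S := by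
  unfold oA
  split_ifs <;> exact i1_nonneg _

theorem oA_le_one (so To : Bool) (w : Px (Pn N y) → ℝ) (u b' j : ℕ) (M : ℝ) (S : Px (Pn N y)) : oA so To w u b' j M S ≤ 1 := by
  unfold oA
  split_ifs <;> exact i1_le1 _

/-- Levels and windows. -/
theorem tau_mono46 {Q : Finset (Finset ℕ)} [Nonempty (Px Q)] {Y : Type*} [DecidableEq Y] {w : Px Q → ℝ} {p : Px Q → Y} {i k i' k' : ℕ} {M M₀ : ℝ}
    (hM : M ≤ M₀) (h1 : i ≤ i') (h2 : k' ≤ k) {S : Px Q} (h : Tau w p i k M S) : Tau w p i' k' M₀ S := by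
  unfold Tau at h ⊢
  refine (Real.exp_le_exp.2 (by linarith)).trans (h.trans ?_)
  exact cE_mono _ _ (fun z => cE_mono _ _ (fun z' => NI_sub h1 h2 z z') S) S

/-- The micro ties at the larger level, windows cut at `b / 2`. -/
theorem tj_le46 {b0 b b' j : ℕ} {M M₀ : ℝ} (hM : M ≤ M₀) (ω : Env × Finset ℕ) (S : Px (Pn N y)) :
    tj μ s N (Pn N y) b0 b b' M ω j S ≤ ∑ sm : Bool, mA sm (wm μ s N (Pn N y) ω) b0 b b' j M₀ S := by
  have : Nonempty (Px (Pn N y)) := ⟨S⟩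
  rw [Fintype.sum_bool, add_comm]
  unfold tj tI mA pW
  refine add_le_add (i1_mono fun h => ?_) (i1_mono fun h => ?_)
  · exact tau_mono46 hM (show j - b ≤ j - b / 2 by omega) (show j - b0 ≤ j - b0 from le_rfl) h
  · exact tau_mono46 hM (show j + b0 ≤ j + b0 from le_rfl) (show j + b / 2 ≤ j + b by omega) h

theorem oA_mono {so To : Bool} {w : Px (Pn N y) → ℝ} {u b' j : ℕ} {M M₀ : ℝ} (hM : M ≤ M₀) (S : Px (Pn N y)) :
    oA so To w u b' j M S ≤ oA so To w u b' j M₀ S := by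
  have : Nonempty (Px (Pn N y)) := ⟨S⟩
  unfold oA
  split_ifs
  · exact i1_mono fun h => tau_mono46 hM le_rfl le_rfl h
  · exact i1_mono fun h => (Real.exp_le_exp.2 (by linarith)).trans_lt h

theorem ow_eq46 (w : Px (Pn N y) → ℝ) (u b' j : ℕ) (M : ℝ) (S : Px (Pn N y)) :
    ow46 w u b' j M S = ∑ so : Bool, ∑ To : Bool, oA so To w u b' j M S := by
  rw [Fintype.sum_bool, Fintype.sum_bool, Fintype.sum_bool]
  unfold ow46 tI oA cA dA
  simp only [if_true, Bool.false_eq_true, if_false]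
  ring

theorem ow_le46 {w : Px (Pn N y) → ℝ} {u b' j : ℕ} {M M₀ : ℝ} (hM : M ≤ M₀) (S : Px (Pn N y)) :
    ow46 w u b' j M S ≤ ∑ so : Bool, ∑ To : Bool, oA so To w u b' j M₀ S := by
  rw [ow_eq46]
  exact sum_le_sum fun so _ => sum_le_sum fun To _ => oA_mono hM S

theorem ow_nonneg (w : Px (Pn N y) → ℝ) (u b' j : ℕ) (M : ℝ) (S : Px (Pn N y)) : 0 ≤ ow46 w u b' j M S := by
  rw [ow_eq46]
  exact sum_nonneg fun so _ => sum_nonneg fun To _ => oA_nonneg _ _ _ _ _ _ _ _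

/-- One alternative, no long loop. -/
def aA (μ : Measure ℝ) (s : ℝ) (a : Bool × Bool × Bool) (b0 b b' u : ℕ) (M : ℝ) (j : ℕ) (y : ℕ) (ω : Env × Finset ℕ) (S : Px (Pn N y)) : ℝ :=
  mA a.1 (wm μ s N (Pn N y) ω) b0 b b' j M S * oA a.2.1 a.2.2 (wm μ s N (Pn N y) ω) u b' j M S * (1 - lo36 μ s N y 0 N b' M j ω S)

theorem aA_nonneg (a : Bool × Bool × Bool) (b0 b b' u : ℕ) (M : ℝ) (j : ℕ) (ω : Env × Finset ℕ) (S : Px (Pn N y)) :
    0 ≤ aA μ s a b0 b b' u M j y ω S := by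
  have h : lo36 μ s N y 0 N b' M j ω S ≤ 1 := i36_le_one _
  exact mul_nonneg (mul_nonneg (mA_nonneg _ _ _ _ _ _ _ _) (oA_nonneg _ _ _ _ _ _ _ _)) (by linarith)

theorem aA_le_one (a : Bool × Bool × Bool) (b0 b b' u : ℕ) (M : ℝ) (j : ℕ) (ω : Env × Finset ℕ) (S : Px (Pn N y)) :
    aA μ s a b0 b b' u M j y ω S ≤ 1 := by
  have h : 0 ≤ lo36 μ s N y 0 N b' M j ω S := i36_nonneg _
  have h' : lo36 μ s N y 0 N b' M j ω S ≤ 1 := i36_le_one _
  exact mul_le_one₀ (mul_le_one₀ (mA_le_one _ _ _ _ _ _ _ _) (oA_nonneg _ _ _ _ _ _ _ _) (oA_le_one _ _ _ _ _ _ _ _)) (by linarith) (by linarith)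

theorem meas_Tau46 {Q : Finset (Finset ℕ)} (p : Px Q → Finset ℕ × ℕ) (i k : ℕ) (M : ℝ) (S : Px Q) :
    Measurable fun ω : Env × Finset ℕ => i1 (Tau (wm μ s N Q ω) p i k M S) := by
  simp only [i1_eq36]
  exact meas_i36 (measurableSet_le measurable_const (meas_cE236 p (NI i k) S S))

theorem meas_mA (sm : Bool) (b0 b b' j : ℕ) (M : ℝ) (S : Px (Pn N y)) :
    Measurable fun ω => mA sm (wm μ s N (Pn N y) ω) b0 b b' j M S := meas_Tau46 _ _ _ _ _

theorem meas_oA (so To : Bool) (u b' j : ℕ) (M : ℝ) (S : Px (Pn N y)) :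
    Measurable fun ω => oA so To (wm μ s N (Pn N y) ω) u b' j M S := by
  unfold oA
  split_ifs
  · exact meas_Tau46 _ _ _ _ _
  · simp only [i1_eq36]
    have : Nonempty (Px (Pn N y)) := ⟨S⟩
    exact meas_i36 (measurableSet_lt measurable_const (meas_gm meas_wm fun _ => measurable_const))

theorem meas_lo36 (b' j : ℕ) (M : ℝ) (S : Px (Pn N y)) : Measurable fun ω => lo36 μ s N y 0 N b' M j ω S :=
  meas_i36 (measurableSet_lt measurable_const (meas_lm S))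

theorem meas_aA (a : Bool × Bool × Bool) (b0 b b' u : ℕ) (M : ℝ) (j : ℕ) (S : Px (Pn N y)) :
    Measurable fun ω => aA μ s a b0 b b' u M j y ω S :=
  ((meas_mA _ _ _ _ _ _ S).mul (meas_oA _ _ _ _ _ _ S)).mul (measurable_const.sub (meas_lo36 _ _ _ S))

theorem meas_ow46 (u b' j : ℕ) (M : ℝ) (S : Px (Pn N y)) : Measurable fun ω => ow46 (wm μ s N (Pn N y) ω) u b' j M S := by
  simp only [ow_eq46]
  exact Finset.measurable_fun_sum _ fun so _ => Finset.measurable_fun_sum _ fun To _ => meas_oA _ _ _ _ _ _ S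

/-- **The passage to the site theorem.** -/
theorem alt_le (a : Bool × Bool × Bool) {b0 b b' u : ℕ} {M : ℝ} (j : ℕ) (ω : Env × Finset ℕ) (S : Px (Pn N y)) :
    ENNReal.ofReal (aA μ s a b0 b b' u M j y ω S) ≤
      ind (TK μ s N True y (j - b') (j + b') (uA a.1 b0 b j) (vA a.1 b0 b j) M ω.1 S.1 ∧
        TK μ s N (a.2.2 = true) y 0 N (cA a.2.1 u b' j) (dA a.2.1 u b' j) M ω.1 S.1 ∧ ¬ Lg μ s N y 0 N j b' (8 * M) ω.1 S.1) := by
  unfold aA
  by_cases h1 : Tau (wm μ s N (Pn N y) ω) (pJ (j - b') (j + b')) (uA a.1 b0 b j) (vA a.1 b0 b j) M S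
  swap
  · unfold mA
    rw [i1_not h1, zero_mul, zero_mul, ENNReal.ofReal_zero]
    exact zero_le
  by_cases h3 : Real.exp (-(8 * M)) < lm36 μ s N y 0 N b' j ω S
  · unfold lo36
    rw [i36_of h3, sub_self, mul_zero, ENNReal.ofReal_zero]
    exact zero_le
  have hTK1 : TK μ s N True y (j - b') (j + b') (uA a.1 b0 b j) (vA a.1 b0 b j) M ω.1 S.1 := Or.inl ⟨trivial, S.2, h1⟩
  have hLg : ¬ Lg μ s N y 0 N j b' (8 * M) ω.1 S.1 := by
    intro hl
    refine h3 ?_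
    have e := mI_mc (μ := μ) (s := s) (N := N) (y := y) (c := 0) (d := N) (i := j - 11 * b') (j := j + 11 * b') ω.1 S.2
    show Real.exp (-(8 * M)) < mI (lw μ s ω.1 N (Pn N y)) (pJ 0 N) (j - 11 * b') (j + 11 * b') S
    rw [e]
    exact hl
  by_cases h2 : a.2.2 = true
  · by_cases h4 : Tau (wm μ s N (Pn N y) ω) (pJ 0 N) (cA a.2.1 u b' j) (dA a.2.1 u b' j) M S
    · refine (ENNReal.ofReal_le_one.2 ?_).trans (le_of_eq (ind_of ⟨hTK1, Or.inl ⟨h2, S.2, h4⟩, hLg⟩).symm)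
      exact aA_le_one (μ := μ) (s := s) a b0 b b' u M j ω S
    · unfold oA
      rw [if_pos h2, i1_not h4, mul_zero, zero_mul, ENNReal.ofReal_zero]
      exact zero_le
  · by_cases h4 : Real.exp (-(7 * M)) < gm (wm μ s N (Pn N y) ω) (NI (cA a.2.1 u b' j) (dA a.2.1 u b' j) S)
    · have e := mI_mc (μ := μ) (s := s) (N := N) (y := y) (c := 0) (d := N) (i := cA a.2.1 u b' j) (j := dA a.2.1 u b' j) ω.1 S.2
      have e2 : mI (lw μ s ω.1 N (Pn N y)) (pJ 0 N) (cA a.2.1 u b' j) (dA a.2.1 u b' j) S =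
          gm (wm μ s N (Pn N y) ω) (NI (cA a.2.1 u b' j) (dA a.2.1 u b' j) S) := cE_free _ _ _
      have hTK2 : TK μ s N (a.2.2 = true) y 0 N (cA a.2.1 u b' j) (dA a.2.1 u b' j) M ω.1 S.1 := by
        refine Or.inr ⟨h2, ?_⟩
        show Real.exp (-(7 * M)) < mc μ s N y 0 N (NoMeet (cA a.2.1 u b' j) (dA a.2.1 u b' j)) ω.1 S.1
        rw [← e]
        show Real.exp (-(7 * M)) < mI (lw μ s ω.1 N (Pn N y)) (pJ 0 N) (cA a.2.1 u b' j) (dA a.2.1 u b' j) S
        rw [e2]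
        exact h4
      refine (ENNReal.ofReal_le_one.2 ?_).trans (le_of_eq (ind_of ⟨hTK1, hTK2, hLg⟩).symm)
      exact aA_le_one (μ := μ) (s := s) a b0 b b' u M j ω S
    · unfold oA
      rw [if_neg h2, i1_not h4, mul_zero, zero_mul, ENNReal.ofReal_zero]
      exact zero_le

/-- The long double ties of a row. -/
def bl46 (μ : Measure ℝ) (s : ℝ) (b0 b b' : ℕ) (M : ℝ) (j y : ℕ) (ω : Env × Finset ℕ) (S : Px (Pn N y)) : ℝ :=
  ∑ sm : Bool, Bl36 μ s N y 0 N b' (uA sm b0 b) (vA sm b0 b) M j ω S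

theorem bl_nonneg (b0 b b' : ℕ) (M : ℝ) (j : ℕ) (ω : Env × Finset ℕ) (S : Px (Pn N y)) : 0 ≤ bl46 μ s b0 b b' M j y ω S :=
  sum_nonneg fun _ _ => Bl_nonneg _ _

theorem bl_le_two (b0 b b' : ℕ) (M : ℝ) (j : ℕ) (ω : Env × Finset ℕ) (S : Px (Pn N y)) : bl46 μ s b0 b b' M j y ω S ≤ 2 := by
  unfold bl46
  rw [Fintype.sum_bool]
  have h1 := Bl_le_one (μ := μ) (s := s) (C := 0) (D := N) (b := b') (U := uA true b0 b) (V := vA true b0 b) (M := M) (j := j) ω S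
  have h2 := Bl_le_one (μ := μ) (s := s) (C := 0) (D := N) (b := b') (U := uA false b0 b) (V := vA false b0 b) (M := M) (j := j) ω S
  linarith

theorem meas_bl (b0 b b' : ℕ) (M : ℝ) (j : ℕ) (S : Px (Pn N y)) : Measurable fun ω => bl46 μ s b0 b b' M j y ω S :=
  Finset.measurable_fun_sum _ fun _ _ => meas_Bl S

/-- **The product of the ties is at most the alternatives without long loop, plus the long double ties.** -/
theorem prod_le46 {b0 b b' u j : ℕ} {M M₀ : ℝ} (hM : M ≤ M₀) (ω : Env × Finset ℕ) (S : Px (Pn N y)) :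
    tj μ s N (Pn N y) b0 b b' M ω j S * ow46 (wm μ s N (Pn N y) ω) u b' j M S ≤
      ∑ a : Bool × Bool × Bool, aA μ s a b0 b b' u M₀ j y ω S + 4 * bl46 μ s b0 b b' M₀ j y ω S := by
  obtain ⟨w, hw⟩ : ∃ w, w = wm μ s N (Pn N y) ω := ⟨_, rfl⟩
  obtain ⟨lo, hlo⟩ : ∃ lo, lo = lo36 μ s N y 0 N b' M₀ j ω S := ⟨_, rfl⟩
  have hlo0 : 0 ≤ lo := hlo ▸ i36_nonneg _
  have h1 := tj_le46 (μ := μ) (s := s) (b0 := b0) (b := b) (b' := b') (j := j) hM ω S
  have h2 := ow_le46 (w := w) (u := u) (b' := b') (j := j) hM S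
  rw [← hw] at h1
  have ha : ∀ a : Bool × Bool × Bool, aA μ s a b0 b b' u M₀ j y ω S =
      mA a.1 w b0 b b' j M₀ S * oA a.2.1 a.2.2 w u b' j M₀ S * (1 - lo) := fun a => by
    unfold aA
    rw [← hw, ← hlo]
  have hb : bl46 μ s b0 b b' M₀ j y ω S = ∑ sm : Bool, mA sm w b0 b b' j M₀ S * lo := by
    unfold bl46 Bl36 mi36 mA
    rw [← hw, ← hlo]
    refine sum_congr rfl fun sm _ => ?_
    rw [i1_eq36]
  have e1 : (∑ sm : Bool, mA sm w b0 b b' j M₀ S) * (∑ so : Bool, ∑ To : Bool, oA so To w u b' j M₀ S) =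
      ∑ a : Bool × Bool × Bool, aA μ s a b0 b b' u M₀ j y ω S +
        (∑ sm : Bool, mA sm w b0 b b' j M₀ S * lo) * (∑ so : Bool, ∑ To : Bool, oA so To w u b' j M₀ S) := by
    simp only [ha, Fintype.sum_prod_type, Fintype.sum_bool]
    ring
  have e2 : (∑ so : Bool, ∑ To : Bool, oA so To w u b' j M₀ S) ≤ 4 := by
    simp only [Fintype.sum_bool]
    have g1 := oA_le_one true true w u b' j M₀ S
    have g2 := oA_le_one true false w u b' j M₀ S
    have g3 := oA_le_one false true w u b' j M₀ S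
    have g4 := oA_le_one false false w u b' j M₀ S
    linarith
  have e3 : 0 ≤ ∑ sm : Bool, mA sm w b0 b b' j M₀ S * lo := sum_nonneg fun sm _ => mul_nonneg (mA_nonneg _ _ _ _ _ _ _ _) hlo0
  have e4 : 0 ≤ ∑ sm : Bool, mA sm w b0 b b' j M₀ S := sum_nonneg fun sm _ => mA_nonneg _ _ _ _ _ _ _ _
  rw [← hw, hb]
  calc tj μ s N (Pn N y) b0 b b' M ω j S * ow46 w u b' j M S
      ≤ (∑ sm : Bool, mA sm w b0 b b' j M₀ S) * (∑ so : Bool, ∑ To : Bool, oA so To w u b' j M₀ S) :=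
        mul_le_mul h1 h2 (ow_nonneg _ _ _ _ _ _) e4
    _ ≤ _ := by
        rw [e1]
        refine add_le_add le_rfl ?_
        rw [mul_comm 4]
        exact mul_le_mul_of_nonneg_left e2 e3

/-! ### One stretch -/

section Stretch

variable [IsProbabilityMeasure μ] {F : Frm96} {m : ℕ} (hy : ∀ y ∈ F.ys m, y ≤ F.L m)

include hy

/-- **One stretch**: the site theorem for the alternatives, the long double ties are left over. -/
theorem stretch46 {JJ : Finset ℕ} {b0 b b' l k u : ℕ} {M M₀ r e : ℝ} (hM : M ≤ M₀) (hr : 0 ≤ r) (he : 0 ≤ e)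
    (hW : ∀ a : Bool × Bool × Bool, ∀ y ∈ F.ys m, WPs μ s (F.L m) y (ENNReal.ofReal r) (ENNReal.ofReal e) JJ
      (fun j η S => ind (TK μ s (F.L m) True y (j - b') (j + b') (uA a.1 b0 b j) (vA a.1 b0 b j) M₀ η S ∧
        TK μ s (F.L m) (a.2.2 = true) y 0 (F.L m) (cA a.2.1 u b' j) (dA a.2.1 u b' j) M₀ η S ∧
          ¬ Lg μ s (F.L m) y 0 (F.L m) j b' (8 * M₀) η S)) (J46 l b' k)) {D : Wt46 F m} {Mh : ℝ} (hD : Ps46 F m l b' k D Mh) :
    ∑ j ∈ JJ, avF μ s F m (fun y ω S => |D y ω S| * (tj μ s (F.L m) (Pn (F.L m) y) b0 b b' M ω j S *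
        ow46 (wm μ s (F.L m) (Pn (F.L m) y) ω) u b' j M S)) ≤
      8 * r * avF μ s F m (fun y ω S => |D y ω S|) +
        avF μ s F m (fun y ω S => (∑ j ∈ JJ, 4 * bl46 μ s b0 b b' M₀ j y ω S) * |D y ω S|) + Mh * (8 * e) := by
  classical
  have hDa : BM (F.ys m) fun y ω S => |D y ω S| := hD.bm.abs
  have hbA : ∀ a j, BM (F.ys m) fun y ω S => aA (N := F.L m) μ s a b0 b b' u M₀ j y ω S := fun a j =>
    ⟨⟨1, fun y _ ω S => by rw [abs_of_nonneg (aA_nonneg _ _ _ _ _ _ _ _ _)]; exact aA_le_one _ _ _ _ _ _ _ _ _⟩, fun y _ S => meas_aA _ _ _ _ _ _ _ S⟩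
  have hbB : ∀ j, BM (F.ys m) fun y ω S => bl46 (N := F.L m) μ s b0 b b' M₀ j y ω S := fun j =>
    ⟨⟨2, fun y _ ω S => by rw [abs_of_nonneg (bl_nonneg _ _ _ _ _ _ _)]; exact bl_le_two _ _ _ _ _ _ _⟩, fun y _ S => meas_bl _ _ _ _ _ S⟩
  have htj : ∀ j, BM (F.ys m) fun y ω S => tj μ s (F.L m) (Pn (F.L m) y) b0 b b' M ω j S := fun j =>
    ⟨⟨2, fun y _ ω S => by
      unfold tj tI
      have h1 := i1_le1 (Tau (wm μ s (F.L m) (Pn (F.L m) y) ω) (pW b' j) (j - b) (j - b0) M S)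
      have h2 := i1_le1 (Tau (wm μ s (F.L m) (Pn (F.L m) y) ω) (pW b' j) (j + b0) (j + b) M S)
      rw [abs_of_nonneg (add_nonneg (i1_nonneg _) (i1_nonneg _))]
      linarith⟩, fun y _ S => (meas_Tau46 _ _ _ _ S).add (meas_Tau46 _ _ _ _ S)⟩
  have how : ∀ j, BM (F.ys m) fun y ω S => ow46 (wm μ s (F.L m) (Pn (F.L m) y) ω) u b' j M S := fun j =>
    ⟨⟨4, fun y _ ω S => by
      rw [abs_of_nonneg (ow_nonneg _ _ _ _ _ _), ow_eq46]
      simp only [Fintype.sum_bool]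
      have g1 := oA_le_one true true (wm μ s (F.L m) (Pn (F.L m) y) ω) u b' j M S
      have g2 := oA_le_one true false (wm μ s (F.L m) (Pn (F.L m) y) ω) u b' j M S
      have g3 := oA_le_one false true (wm μ s (F.L m) (Pn (F.L m) y) ω) u b' j M S
      have g4 := oA_le_one false false (wm μ s (F.L m) (Pn (F.L m) y) ω) u b' j M S
      linarith⟩, fun y _ S => meas_ow46 _ _ _ _ S⟩
  -- one row
  have hrow : ∀ j ∈ JJ, avF μ s F m (fun y ω S => |D y ω S| * (tj μ s (F.L m) (Pn (F.L m) y) b0 b b' M ω j S *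
      ow46 (wm μ s (F.L m) (Pn (F.L m) y) ω) u b' j M S)) ≤
      ∑ a : Bool × Bool × Bool, avF μ s F m (fun y ω S => |D y ω S| * aA μ s a b0 b b' u M₀ j y ω S) +
        avF μ s F m (fun y ω S => (4 * bl46 μ s b0 b b' M₀ j y ω S) * |D y ω S|) := fun j _ => by
    have hb1 : BM (F.ys m) fun y ω S => ∑ a : Bool × Bool × Bool, |D y ω S| * aA (N := F.L m) μ s a b0 b b' u M₀ j y ω S :=
      BM.sum _ fun a _ => hDa.mul (hbA a j)
    have hb2 : BM (F.ys m) fun y ω S => (4 * bl46 (N := F.L m) μ s b0 b b' M₀ j y ω S) * |D y ω S| := ((hbB j).smul 4).mul hDa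
    refine (avF_mono hy (g := fun y ω S => (∑ a : Bool × Bool × Bool, |D y ω S| * aA (N := F.L m) μ s a b0 b b' u M₀ j y ω S) +
      (4 * bl46 (N := F.L m) μ s b0 b b' M₀ j y ω S) * |D y ω S|) (hDa.mul ((htj j).mul (how j))) (hb1.add hb2) fun y _ ω S => ?_).trans ?_
    · rw [← mul_sum]
      have h1 := mul_le_mul_of_nonneg_left (prod_le46 (μ := μ) (s := s) (b0 := b0) (b := b) (b' := b') (u := u) (j := j) hM ω S)
        (abs_nonneg (D y ω S))
      linarith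
    · rw [avF_add hy hb1 hb2, avF_sum hy univ (G := fun a y ω S => |D y ω S| * aA μ s a b0 b b' u M₀ j y ω S) fun a _ => hDa.mul (hbA a j)]
  have halt : ∀ a : Bool × Bool × Bool, ∑ j ∈ JJ, avF μ s F m (fun y ω S => |D y ω S| * aA μ s a b0 b b' u M₀ j y ω S) ≤
      r * avF μ s F m (fun y ω S => |D y ω S|) + Mh * e := fun a => by
    have h1 := wps_av (μ := μ) (s := s) (N := F.L m) (ys := F.ys m) hy hr he (I := JJ) (J := J46 l b' k)
      (A := fun y _ j η S => ind (TK μ s (F.L m) True y (j - b') (j + b') (uA a.1 b0 b j) (vA a.1 b0 b j) M₀ η S ∧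
        TK μ s (F.L m) (a.2.2 = true) y 0 (F.L m) (cA a.2.1 u b' j) (dA a.2.1 u b' j) M₀ η S ∧
          ¬ Lg μ s (F.L m) y 0 (F.L m) j b' (8 * M₀) η S))
      (fun y hy' T _ => hW a y hy') (a := fun j y ω S => aA μ s a b0 b b' u M₀ j y ω S)
      (fun j _ y _ ω S => aA_nonneg _ _ _ _ _ _ _ _ _) (K := 1) (fun j _ y _ ω S => aA_le_one _ _ _ _ _ _ _ _ _)
      (fun j _ y _ S => meas_aA _ _ _ _ _ _ _ S) (fun j _ y _ ω S => alt_le a j ω S) (D := D) hD.pos (fun y _ ω S => hD.bdd y ω S)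
      (fun y _ S => hD.mes y S) (fun y _ => hD.off y)
    exact h1
  refine (sum_le_sum hrow).trans ?_
  rw [sum_add_distrib, sum_comm]
  have e1 : ∑ j ∈ JJ, avF μ s F m (fun y ω S => (4 * bl46 μ s b0 b b' M₀ j y ω S) * |D y ω S|) =
      avF μ s F m (fun y ω S => (∑ j ∈ JJ, 4 * bl46 μ s b0 b b' M₀ j y ω S) * |D y ω S|) := by
    rw [← avF_sum hy JJ (G := fun j y ω S => (4 * bl46 μ s b0 b b' M₀ j y ω S) * |D y ω S|) fun j _ => ((hbB j).smul 4).mul hDa]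
    congr 1
    funext y ω S
    rw [sum_mul]
  rw [e1]
  have e2 := sum_le_sum fun (a : Bool × Bool × Bool) (_ : a ∈ univ) => halt a
  rw [sum_const, card_univ] at e2
  simp only [Fintype.card_prod, Fintype.card_bool, nsmul_eq_mul] at e2
  push_cast at e2
  linarith

end Stretch

end

end Pool.Agent.W_7d29a1_C0.Pr46
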