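import Pool.Agent.W_7d29a1_C0.DT5G
import Pool.Agent.W_7d29a1_C0.PrEa46

/-!
MP_7d29a1_pr, [CURV0], leaf E5.4 (helper5): THE ROW OF THE DOUBLE TIES IN THE FORM OF THE PRICES: `Gj_le5` (the double tie at the actual
weights = micro tie in terms of the kick times an own tie, four families), `third5` (the third term = micro tie and own tie of helper46),
`row5`: `row_N25e` with all its terms replaced.
-/

set_option autoImplicit false
set_option linter.unusedSectionVars false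

namespace Pool.Agent.W_7d29a1_C0.DT5

open Finset MeasureTheory
open Pool.Agent.W_7d29a1_F Pool.Agent.W_7d29a1_X
open Pool.Agent.W_7d29a1_C0 Pool.Agent.W_7d29a1_C0.Mod92
open Pool.Agent.W_7d29a1_C0.Base5 Pool.Agent.W_7d29a1_C0.Sz23
open Pool.Agent.W_7d29a1_C0.Swap57 (NI NI_nonneg NM NM_nonneg NM_le cE2)
open Pool.Agent.W_7d29a1_C0.N25 (Gt Gj Ft ow owj vm i1_mono i1_split exp_half cE2_NM_split ow_split T4_split third_le row_N25e)
open Pool.Agent.W_7d29a1_C0.Pr46 (cA dA ow46)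
open Pool.W7d29a1.C0.R43 (Tau mI mI_nonneg)
open Pool.W7d29a1.C0.VT31 (cE cE_nonneg Mp)
open Pool.W7d29a1.C0.S1 (osc i1 i1_nonneg i1_of i1_not tI)
open Pool.W7d29a1.C0.O1 (T4)
open Pool.W7d29a1.C0 (gm gm_mono gm_const gm_nonneg gm_add gm_smul)

noncomputable section

variable {μ : Measure ℝ} {s : ℝ} {N y : ℕ} [Nonempty (Px (Pn N y))]

/-- The micro tie in terms of the kick times an own tie of the path (mass) or of the fibre (pair), right or left. -/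
def oX5 (μ : Measure ℝ) (s : ℝ) (N : ℕ) (δ B : ℝ) (b0 b b' : ℕ) (so To : Bool) (M : ℝ) (y : ℕ) (ω : Env × Finset ℕ) (j : ℕ)
    (S : Px (Pn N y)) : ℝ :=
  i1 (Real.exp (-(5 * M)) ≤ osc (wm μ s N (Pn N y) ω) (pJ (j - b) (j + b)) (Mod92.gg μ s (Pn N y) δ B b0 ω j) S) *
    tkR (To = true) (wm μ s N (Pn N y) ω) (j - b') (j + b') (cA so b0 b j) (dA so b0 b j) M S

omit [Nonempty (Px (Pn N y))] in
theorem oX5_nonneg (δ B : ℝ) (b0 b b' : ℕ) (so To : Bool) (M : ℝ) (ω : Env × Finset ℕ) (j : ℕ) (S : Px (Pn N y)) :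
    0 ≤ oX5 μ s N δ B b0 b b' so To M y ω j S := mul_nonneg (i1_nonneg _) tkR_nonneg

omit [Nonempty (Px (Pn N y))] in
theorem oX5_le_one (δ B : ℝ) (b0 b b' : ℕ) (so To : Bool) (M : ℝ) (ω : Env × Finset ℕ) (j : ℕ) (S : Px (Pn N y)) :
    oX5 μ s N δ B b0 b b' so To M y ω j S ≤ 1 := mul_le_one₀ (N25.i1_le_one _) tkR_nonneg tkR_le_one

theorem meas_oX5 (δ B : ℝ) (b0 b b' : ℕ) (so To : Bool) (M : ℝ) (j : ℕ) (S : Px (Pn N y)) :
    Measurable fun ω => oX5 μ s N δ B b0 b b' so To M y ω j S := (meas_iosc δ B b0 j _ _ _ S).mul (meas_tkR S)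

omit [Nonempty (Px (Pn N y))] in
theorem Gj_bd5 (δ B : ℝ) (b0 b b' : ℕ) (m : ℝ) (ω : Env × Finset ℕ) (j : ℕ) (x : Px (Pn N y)) :
    |Gj μ s N (Pn N y) δ B b0 b b' m ω j x| ≤ 2 := by
  have : Nonempty (Px (Pn N y)) := ⟨x⟩
  have h0 : 0 ≤ Gj μ s N (Pn N y) δ B b0 b b' m ω j x := N25.Gt_nonneg _ _ _ _ _ _ _ _ _
  rw [abs_of_nonneg h0]
  exact N25.Gt_le_two _ _ _ _ _ _ _ _ _

/-- The double tie is measurable. -/
theorem meas_Gj5 (δ B : ℝ) (b0 b b' : ℕ) (m : ℝ) (j : ℕ) (S : Px (Pn N y)) :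
    Measurable fun ω => Gj μ s N (Pn N y) δ B b0 b b' m ω j S := by
  classical
  have h1 := meas_iosc (μ := μ) (s := s) (N := N) (Q := Pn N y) δ B b0 j (j - b) (j + b) (Real.exp (-(5 * m))) S
  have h2 : Measurable fun ω : Env × Finset ℕ =>
      i1 (Real.exp (-(5 * m)) ≤ ow (wm μ s N (Pn N y) ω) (pW b' j) (j - b) (j - b0) (j + b0) (j + b) S) := by
    unfold i1 ow
    exact Measurable.ite (measurableSet_le measurable_const (meas_cE (w := fun ω : Env × Finset ℕ => wm μ s N (Pn N y) ω) meas_wm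
      (f := fun _ => NM (j - b) (j - b0) (j + b0) (j + b) S) (fun _ => measurable_const) _ S)) measurable_const measurable_const
  have h3 : Measurable fun ω : Env × Finset ℕ =>
      i1 (Real.exp (-(5 * m)) ≤ cE2 (wm μ s N (Pn N y) ω) (pW b' j) (NM (j - b) (j - b0) (j + b0) (j + b)) S S) := by
    unfold i1 cE2
    exact Measurable.ite (measurableSet_le measurable_const (meas_cE (w := fun ω : Env × Finset ℕ => wm μ s N (Pn N y) ω) meas_wm
      (f := fun ω z => cE (wm μ s N (Pn N y) ω) (pW b' j) (NM (j - b) (j - b0) (j + b0) (j + b) z) S)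
      (fun z => meas_cE (w := fun ω : Env × Finset ℕ => wm μ s N (Pn N y) ω) meas_wm
        (f := fun _ => NM (j - b) (j - b0) (j + b0) (j + b) z) (fun _ => measurable_const) _ S) _ S)) measurable_const measurable_const
  exact (h1.mul h2).add (h3.mul h1)

/-- **The double tie at the actual weights, four families.** -/
theorem Gj_le5 (δ B : ℝ) (b0 b b' : ℕ) (m : ℝ) (ω : Env × Finset ℕ) (j : ℕ) (x : Px (Pn N y)) :
    Gj μ s N (Pn N y) δ B b0 b b' m ω j x ≤ ∑ so : Bool, ∑ To : Bool, oX5 μ s N δ B b0 b b' so To (m + 1) y ω j x := by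
  obtain ⟨W, hW⟩ : ∃ W : Px (Pn N y) → ℝ, W = wm μ s N (Pn N y) ω := ⟨_, rfl⟩
  obtain ⟨g, hg⟩ : ∃ g : Px (Pn N y) → ℝ, g = Mod92.gg μ s (Pn N y) δ B b0 ω j := ⟨_, rfl⟩
  have hl : Real.exp (-(5 * (m + 1))) ≤ Real.exp (-(5 * m)) := Real.exp_le_exp.2 (by linarith)
  obtain ⟨I, hI⟩ : ∃ I, I = i1 (Real.exp (-(5 * (m + 1))) ≤ osc W (pJ (j - b) (j + b)) g x) := ⟨_, rfl⟩
  have hI0 : 0 ≤ I := hI ▸ i1_nonneg _
  have h1 : i1 (Real.exp (-(5 * m)) ≤ osc W (pJ (j - b) (j + b)) g x) ≤ I := by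
    rw [hI]
    exact i1_mono fun h => hl.trans h
  have h1' := i1_nonneg (Real.exp (-(5 * m)) ≤ osc W (pJ (j - b) (j + b)) g x)
  have h2 : i1 (Real.exp (-(5 * m)) ≤ ow W (pW b' j) (j - b) (j - b0) (j + b0) (j + b) x) ≤
      i1 (Real.exp (-(5 * (m + 1))) ≤ mI W (pW b' j) (j - b) (j - b0) x) +
        i1 (Real.exp (-(5 * (m + 1))) ≤ mI W (pW b' j) (j + b0) (j + b) x) :=
    (i1_mono fun h => h.trans (ow_split W (pW b' j) x)).trans (i1_split (exp_half m))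
  have h3 := cE2_NM_split (c := j - b) (al := j - b0) (be := j + b0) (d := j + b) W (pW b' j) m x
  have e : Gj μ s N (Pn N y) δ B b0 b b' m ω j x =
      i1 (Real.exp (-(5 * m)) ≤ osc W (pJ (j - b) (j + b)) g x) *
        i1 (Real.exp (-(5 * m)) ≤ ow W (pW b' j) (j - b) (j - b0) (j + b0) (j + b) x) +
      i1 (Real.exp (-(5 * m)) ≤ cE2 W (pW b' j) (NM (j - b) (j - b0) (j + b0) (j + b)) x x) *
        i1 (Real.exp (-(5 * m)) ≤ osc W (pJ (j - b) (j + b)) g x) := by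
    rw [hW, hg]
    rfl
  rw [e]
  have k1 := mul_le_mul h1 h2 (i1_nonneg _) hI0
  have k2 := mul_le_mul h3 h1 h1' (add_nonneg (i1_nonneg _) (i1_nonneg _))
  refine (add_le_add k1 k2).trans (le_of_eq ?_)
  simp only [Fintype.sum_bool]
  unfold oX5
  rw [← hW, ← hg, ← hI]
  simp only [tkR_tau, tkR_mass, cA, dA, if_true, Bool.false_eq_true, if_false, not_false_eq_true]
  unfold pW
  ring

theorem tj_mono5 {b0 b b' : ℕ} {M M' : ℝ} (h : M ≤ M') (ω : Env × Finset ℕ) (j : ℕ) (x : Px (Pn N y)) :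
    i1 (Tau (wm μ s N (Pn N y) ω) (pW b' j) (j - b) (j - b0) M x) + i1 (Tau (wm μ s N (Pn N y) ω) (pW b' j) (j + b0) (j + b) M x) ≤
      tj μ s N (Pn N y) b0 b b' M' ω j x := by
  have hl : Real.exp (-(5 * M')) ≤ Real.exp (-(5 * M)) := Real.exp_le_exp.2 (by linarith)
  unfold tj tI
  refine add_le_add (i1_mono fun g => ?_) (i1_mono fun g => ?_)
  · unfold Tau at g ⊢
    exact hl.trans g
  · unfold Tau at g ⊢
    exact hl.trans g

/-- **The third term.** -/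
theorem third5 {δ B : ℝ} (hB : 0 ≤ B) {b0 b b' : ℕ} {m m2 M : ℝ} (hm : 0 ≤ m) (h2 : 10 * m + 2 * B ≤ 5 * m2) (hM : m2 + 1 ≤ M)
    (ω : Env × Finset ℕ) (j : ℕ) (x : Px (Pn N y)) :
    cE (vm μ s N (Pn N y) δ B b0 ω j) (pW b' j) (Gj μ s N (Pn N y) δ B b0 b b' m ω j) x *
        gm (vm μ s N (Pn N y) δ B b0 ω j) (NM (j - b') (j - b0) (j + b0) (j + b') x) ≤
      2 * (tj μ s N (Pn N y) b0 b b' M ω j x * ow46 (wm μ s N (Pn N y) ω) b0 b' j M x) + 5 * Real.exp (-(5 * m)) := by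
  have hm2 : 0 ≤ m2 := by linarith
  have e : vm μ s N (Pn N y) δ B b0 ω j = wm μ s N (Pn N y) ω + (-(2 * sr ω.2 j)) • Mod92.gg μ s (Pn N y) δ B b0 ω j := by
    unfold vm
    rw [neg_smul, sub_eq_add_neg]
  have hA : ∀ z, |((-(2 * sr ω.2 j)) • Mod92.gg μ s (Pn N y) δ B b0 ω j) z| ≤ B := fun z => by
    rw [Pi.smul_apply, smul_eq_mul, abs_mul, abs_neg, abs_mul]
    have k1 := abs_sr_le ω.2 j
    have k2 := abs_gg (μ := μ) (s := s) (Q := Pn N y) (δ := δ) hB b0 ω j z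
    rw [abs_of_pos (two_pos : (0 : ℝ) < 2)]
    calc 2 * |sr ω.2 j| * |Mod92.gg μ s (Pn N y) δ B b0 ω j z| ≤ 2 * 1 * (B / 2) := by
          gcongr
      _ = B := by ring
  have k := third_le (v := wm μ s N (Pn N y) ω) hA (pW b' j) (c := j - b) (al := j - b0) (be := j + b0) (d := j + b) (c' := j - b')
    (d' := j + b') (g := Mod92.gg μ s (Pn N y) δ B b0 ω j) hm h2 x
  rw [← e] at k
  refine k.trans (add_le_add (mul_le_mul_of_nonneg_left ?_ (by norm_num)) le_rfl)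
  refine mul_le_mul ?_ ?_ (i1_nonneg _) (tj_nonneg _ _ _ _ _ _ _ _)
  · exact (cE2_NM_split (wm μ s N (Pn N y) ω) (pW b' j) m2 x).trans (tj_mono5 hM ω j x)
  · have g1 : gm (wm μ s N (Pn N y) ω) (NM (j - b') (j - b0) (j + b0) (j + b') x) ≤
        gm (wm μ s N (Pn N y) ω) (NI (j - b') (j - b0) x) + gm (wm μ s N (Pn N y) ω) (NI (j + b0) (j + b') x) := by
      rw [← gm_add]
      exact gm_mono _ fun z => NM_le _ _ _ _ x z
    have g2 := (i1_mono fun (h : Real.exp (-(5 * m2)) ≤ gm (wm μ s N (Pn N y) ω) (NM (j - b') (j - b0) (j + b0) (j + b') x)) =>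
      h.trans g1).trans (i1_split (exp_half m2))
    refine g2.trans ?_
    unfold ow46
    have g3 : Real.exp (-(7 * M)) < Real.exp (-(5 * (m2 + 1))) := Real.exp_lt_exp.2 (by linarith)
    have g4 : 0 ≤ tI (wm μ s N (Pn N y) ω) (pJ 0 N) (j - b') (j - b0) (j + b0) (j + b') M x :=
      add_nonneg (i1_nonneg _) (i1_nonneg _)
    have g5 : i1 (Real.exp (-(5 * (m2 + 1))) ≤ gm (wm μ s N (Pn N y) ω) (NI (j - b') (j - b0) x)) ≤
        i1 (Real.exp (-(7 * M)) < gm (wm μ s N (Pn N y) ω) (NI (j - b') (j - b0) x)) := i1_mono fun h => g3.trans_le h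
    have g6 : i1 (Real.exp (-(5 * (m2 + 1))) ≤ gm (wm μ s N (Pn N y) ω) (NI (j + b0) (j + b') x)) ≤
        i1 (Real.exp (-(7 * M)) < gm (wm μ s N (Pn N y) ω) (NI (j + b0) (j + b') x)) := i1_mono fun h => g3.trans_le h
    linarith

/-- The three levels term of one side, `so = true` right. -/
def t4X5 (μ : Measure ℝ) (s : ℝ) (N : ℕ) (δ B : ℝ) (b0 b b' : ℕ) (so : Bool) (m : ℝ) (y : ℕ) (ω : Env × Finset ℕ) (j : ℕ)
    (S : Px (Pn N y)) : ℝ :=
  min 1 (Real.exp (5 * m + 12 * B) * T4 (wm μ s N (Pn N y) ω) (pJ (j - b') (j + b')) (Mod92.gg μ s (Pn N y) δ B b0 ω j) 1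
    (mI (wm μ s N (Pn N y) ω) (pJ (j - b') (j + b')) (cA so b0 b j) (dA so b0 b j)) S)

/-- **ONE ROW, ONE ENVIRONMENT.** -/
theorem row5 {δ B : ℝ} (hB : 1 ≤ B) {b0 b b' : ℕ} (hb : b ≤ b') {m m2 M : ℝ} (hm : 0 ≤ m) (h2 : 10 * m + 2 * B ≤ 5 * m2) (hM : m2 + 1 ≤ M)
    (ω : Env × Finset ℕ) (j : ℕ) {H : Px (Pn N y) → ℝ} (hH : Mp (pW b' j) H) (hH0 : ∀ x, 0 ≤ H x) :
    gm (wm μ s N (Pn N y) ω) (fun x => H x * |N25e μ s N (Pn N y) δ B b0 b b' ω j x|) ≤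
      4 * B ^ 3 * Real.exp 2 * (gm (wm μ s N (Pn N y) ω) (fun x => H x * Gj μ s N (Pn N y) δ B b0 b b' m ω j x) +
        (gm (vm μ s N (Pn N y) δ B b0 ω j) (fun x => H x * Gj μ s N (Pn N y) δ B b0 b b' m ω j x) +
        2 * gm (wm μ s N (Pn N y) ω) (fun x => H x * (tj μ s N (Pn N y) b0 b b' M ω j x * ow46 (wm μ s N (Pn N y) ω) b0 b' j M x)))) +
      4 * B ^ 3 * (gm (wm μ s N (Pn N y) ω) (fun x => H x * t4X5 μ s N δ B b0 b b' true m y ω j x) +
        gm (wm μ s N (Pn N y) ω) (fun x => H x * t4X5 μ s N δ B b0 b b' false m y ω j x)) +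
      (20 * B ^ 3 * Real.exp 2 * Real.exp (-(5 * m)) + 16 * B ^ 3 * Real.exp (16 * B) * Real.exp (-(5 * m))) *
        gm (wm μ s N (Pn N y) ω) H := by
  have hB0 : 0 ≤ B := by linarith
  obtain ⟨W, hW⟩ : ∃ W : Px (Pn N y) → ℝ, W = wm μ s N (Pn N y) ω := ⟨_, rfl⟩
  have k := row_N25e (μ := μ) (s := s) (N := N) (Q := Pn N y) (δ := δ) (b0 := b0) hB hb ω j m (zero_le_one : (0 : ℝ) ≤ 1) hH hH0
  rw [mul_one] at k
  -- the third term
  have k3 : gm (wm μ s N (Pn N y) ω) (fun x => H x * (cE (vm μ s N (Pn N y) δ B b0 ω j) (pW b' j) (Gj μ s N (Pn N y) δ B b0 b b' m ω j) x *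
          gm (vm μ s N (Pn N y) δ B b0 ω j) (NM (j - b') (j - b0) (j + b0) (j + b') x))) ≤
      2 * gm (wm μ s N (Pn N y) ω) (fun x => H x * (tj μ s N (Pn N y) b0 b b' M ω j x * ow46 (wm μ s N (Pn N y) ω) b0 b' j M x)) +
        5 * Real.exp (-(5 * m)) * gm (wm μ s N (Pn N y) ω) H := by
    have g1 := gm_mono (wm μ s N (Pn N y) ω) (f := fun x => H x * (cE (vm μ s N (Pn N y) δ B b0 ω j) (pW b' j)
        (Gj μ s N (Pn N y) δ B b0 b b' m ω j) x * gm (vm μ s N (Pn N y) δ B b0 ω j) (NM (j - b') (j - b0) (j + b0) (j + b') x)))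
      (g := (2 : ℝ) • (fun x => H x * (tj μ s N (Pn N y) b0 b b' M ω j x * ow46 (wm μ s N (Pn N y) ω) b0 b' j M x)) +
        (5 * Real.exp (-(5 * m))) • H) fun x => by
      have g2 := mul_le_mul_of_nonneg_left (third5 (μ := μ) (s := s) (δ := δ) (b0 := b0) (b := b) (b' := b') hB0 hm h2 hM ω j x) (hH0 x)
      simp only [Pi.add_apply, Pi.smul_apply, smul_eq_mul]
      linarith
    rw [gm_add, gm_smul, gm_smul] at g1
    exact g1
  -- the three levels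
  have k4 : gm (wm μ s N (Pn N y) ω) (fun x => H x * min 1 (Real.exp (5 * m + 12 * B) *
          T4 (wm μ s N (Pn N y) ω) (pW b' j) (Mod92.gg μ s (Pn N y) δ B b0 ω j) 1 (owj μ s N (Pn N y) b0 b b' ω j) x)) ≤
      gm (wm μ s N (Pn N y) ω) (fun x => H x * t4X5 μ s N δ B b0 b b' true m y ω j x) +
        gm (wm μ s N (Pn N y) ω) (fun x => H x * t4X5 μ s N δ B b0 b b' false m y ω j x) := by
    have g1 := gm_mono (wm μ s N (Pn N y) ω) (f := fun x => H x * min 1 (Real.exp (5 * m + 12 * B) *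
          T4 (wm μ s N (Pn N y) ω) (pW b' j) (Mod92.gg μ s (Pn N y) δ B b0 ω j) 1 (owj μ s N (Pn N y) b0 b b' ω j) x))
      (g := (fun x => H x * t4X5 μ s N δ B b0 b b' true m y ω j x) + fun x => H x * t4X5 μ s N δ B b0 b b' false m y ω j x)
      fun x => by
      have g2 := T4_split (c := j - b) (al := j - b0) (be := j + b0) (d := j + b) (g := Mod92.gg μ s (Pn N y) δ B b0 ω j)
        (wm μ s N (Pn N y) ω) (pW b' j) 1 (Real.exp_pos (5 * m + 12 * B)).le x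
      have g3 := mul_le_mul_of_nonneg_left g2 (hH0 x)
      rw [mul_add] at g3
      simp only [Pi.add_apply]
      exact g3.trans (le_of_eq (add_comm _ _))
    rw [gm_add] at g1
    exact g1
  have c1 : 0 ≤ 4 * B ^ 3 := by positivity
  have c2 : 0 ≤ 4 * B ^ 3 * Real.exp 2 := by positivity
  have m3 := mul_le_mul_of_nonneg_left k3 c2
  have m4 := mul_le_mul_of_nonneg_left k4 c1
  refine k.trans ?_
  linarith

end

end Pool.Agent.W_7d29a1_C0.DT5
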