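import Pool.Agent.W_7d29a1_C0.DT5H
import Pool.Agent.W_7d29a1_C0.N2L5
import Pool.Agent.W_7d29a1_C0.PrC5
import Pool.Agent.W_7d29a1_C0.PrE46

/-!
MP_7d29a1_pr, [CURV0], leaf E5.4 (helper5): THE PRICE OF THE DOUBLE TIE `Gj` AT THE ACTUAL WEIGHTS, at the concrete frame, in the form `Pr46`
(`prG5`): four families micro tie in terms of the kick times own tie (`prB_osc`), with the numbers of helper23 (`g_num23`).
-/

set_option autoImplicit false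
set_option linter.unusedSectionVars false

namespace Pool.Agent.W_7d29a1_C0.DT5

open Finset MeasureTheory Filter Topology
open Pool.Agent.W_7d29a1_F Pool.Agent.W_7d29a1_X
open Pool.Agent.W_7d29a1_H (EE EE_pos one_le_EE sl)
open Pool.Agent.W_7d29a1_HS (In wd)
open Pool.Agent.W_7d29a1_C0 Pool.Agent.W_7d29a1_C0.Mod92 Pool.Agent.W_7d29a1_C0.Asm96 Pool.Agent.W_7d29a1_C0.N38
open Pool.Agent.W_7d29a1_C0.Frm33 Pool.Agent.W_7d29a1_C0.NTop23 Pool.Agent.W_7d29a1_C0.PrB5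
open Pool.Agent.W_7d29a1_C0.Base5
open Pool.Agent.W_7d29a1_C0.Par92 (Est Sml)
open Pool.Agent.W_7d29a1_C0.N25 (Gj)
open Pool.Agent.W_7d29a1_C0.Pr46 (Pr46 Nm46 Wt46 cA dA b0_quarter)
open Pool.W7d29a1.C0.S1 (i1 i1_nonneg)
open Pool.W7d29a1.C0 (gm gm_mono gm_const gm_nonneg)

noncomputable section

variable {μ : Measure ℝ} {s : ℝ} [IsProbabilityMeasure μ] {K : ℕ} {Θ δ c η : ℝ}

/-- **The rows of a block are deep.** -/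
theorem rows5 {c₁ C : ℝ} {n₀ : ℕ} (h : In μ s c₁ C n₀) (hk : KapLe96 (EE μ s) (1 / 4)) (hK : 32 ≤ K) (hδ : 0 < δ) (hc : 0 ≤ c)
    (hcδ : c ≤ δ / 64) (hη : 0 ≤ η) : Est fun ι _ _ m => ∀ p p' q i : ℕ, Chg96 (EE μ s) Θ δ c η m p p' q → i < 2 ^ (m - q) →
      ∀ j ∈ Rw (R33 ι m) (i * 2 ^ q) ((i + 1) * 2 ^ q), 4 * 2 ^ p' ≤ j ∧ j + 4 * 2 ^ p' ≤ 2 ^ m ∧ j + 4 * 2 ^ p' ≤ L33 K m := by
  refine ⟨δ / 16, by positivity, fun ι _ hι => Sml.of fun β _ => Sml.of fun γ _ => ?_⟩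
  filter_upwards [deep33_ev h hk hδ hc hcδ hι] with m hD
  intro p p' q i hC hi j hj
  obtain ⟨hsq', hqm⟩ := chg_le33 hC hc hη
  have hp' : δ * m ≤ p' := hC.hp.trans (by exact_mod_cast hC.hpp)
  have hDp : Deep (R33 ι m) (4 * 2 ^ p') (2 ^ sg96 (EE μ s) c m p') := hD p' hp' (hsq'.trans hqm)
  have h6 := hDp.in_block (by positivity) (dvd96 hsq' i) (dvd96 hsq' (i + 1)) hj
  have h7 : (i + 1) * 2 ^ q ≤ 2 ^ m := by
    calc (i + 1) * 2 ^ q ≤ 2 ^ (m - q) * 2 ^ q := Nat.mul_le_mul_right _ hi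
      _ = 2 ^ m := by
          rw [← pow_add]
          congr 1
          omega
  have h8 : 2 ^ m ≤ L33 K m := L33_ge (by omega) m
  omega

/-- The double tie from its four families. -/
theorem prGj5 {F : Frm96} {m p p' q i : ℕ} (hy : ∀ y ∈ F.ys m, y ≤ F.L m) {E : ℕ → ℝ} {x A M g e : ℝ}
    (hfam : ∀ so To : Bool, PrB μ s F m q i (2 ^ (p' - 6)) (2 ^ p') 1
      (fun y ω j S => oX5 μ s (F.L m) F.dl (F.B m) (F.b0 m p) (2 ^ p) (2 ^ p') so To (M + 1) y ω j S) g 0 0 e)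
    (hN : Nm46 E Θ c m p q x A (4 * g) 0 0 (4 * e)) :
    Pr46 μ s F E Θ c m p p' q i x A fun _ j D => avF μ s F m fun y ω S =>
      Gj μ s (F.L m) (Pn (F.L m) y) F.dl (F.B m) (F.b0 m p) (2 ^ p) (2 ^ p') M ω j S * |D y ω S| := by
  have hne : ∀ y ∈ F.ys m, Nonempty (Px (Pn (F.L m) y)) := fun y h' => ne_Pn (hy y h')
  have hbm : ∀ so To : Bool, ∀ j ∈ Rw (F.R m) (i * 2 ^ q) ((i + 1) * 2 ^ q), BM (F.ys m)
      fun y ω S => oX5 μ s (F.L m) F.dl (F.B m) (F.b0 m p) (2 ^ p) (2 ^ p') so To (M + 1) y ω j S := fun so To j _ =>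
    ⟨⟨1, fun y _ ω S => by
      rw [abs_of_nonneg (oX5_nonneg _ _ _ _ _ _ _ _ _ _ _)]
      exact oX5_le_one _ _ _ _ _ _ _ _ _ _ _⟩, fun y hy S => by
      have : Nonempty (Px (Pn (F.L m) y)) := ⟨S⟩
      exact meas_oX5 _ _ _ _ _ _ _ _ _ _⟩
  have P0 := PrB.add hne (PrB.add hne (hfam true true) (hfam true false) (hbm _ _) (hbm _ _))
    (PrB.add hne (hfam false true) (hfam false false) (hbm _ _) (hbm _ _))
    (fun j hj => (hbm true true j hj).add (hbm true false j hj)) fun j hj => (hbm false true j hj).add (hbm false false j hj)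
  have P1 := PrB.mono_path hne (X := fun y ω j S => Gj μ s (F.L m) (Pn (F.L m) y) F.dl (F.B m) (F.b0 m p) (2 ^ p) (2 ^ p') M ω j S) P0
    (fun j _ => ⟨⟨2, fun y _ ω S => by
      have : Nonempty (Px (Pn (F.L m) y)) := ⟨S⟩
      exact Gj_bd5 _ _ _ _ _ _ _ _ _⟩, fun y _ S => by
      have : Nonempty (Px (Pn (F.L m) y)) := ⟨S⟩
      exact meas_Gj5 _ _ _ _ _ _ _ _⟩)
    (fun j hj => ((hbm true true j hj).add (hbm true false j hj)).add ((hbm false true j hj).add (hbm false false j hj)))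
    fun j _ y hy ω S => by
      have : Nonempty (Px (Pn (F.L m) y)) := ⟨S⟩
      have k := Gj_le5 (μ := μ) (s := s) (N := F.L m) (y := y) F.dl (F.B m) (F.b0 m p) (2 ^ p) (2 ^ p') M ω j S
      simp only [Fintype.sum_bool] at k
      exact k
  exact pr46_of_prB hy (P1.num hne (by linarith) (by norm_num) (by norm_num) (by linarith)) hN

/-- The numbers of the double tie. -/
theorem numG5 {E w : ℕ → ℝ} {c₀ a ε : ℝ} {m p p' q b0 : ℕ} (R : Reg46 E w c₀ Θ δ a ε ((2 ^ m : ℕ) : ℝ)) (hc : 0 < c) (hcδ : c ≤ δ / 64)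
    (hC : Chg96 E Θ δ c η m p p' q) (hqm : q ≤ m) (hε : ε ≤ c / 64) (hb01 : 1 ≤ b0) (hb0 : b0 ≤ 2 ^ p)
    (hbb0 : ((2 ^ p : ℕ) : ℝ) ≤ ((2 ^ m : ℕ) : ℝ) ^ (2 * ε) * b0) (h7 : 8 ≤ ((2 ^ m : ℕ) : ℝ) ^ (c / 64)) (h13 : 8 ≤ ((2 ^ m : ℕ) : ℝ)) (A : ℝ) :
    Nm46 E Θ c m p q (c / 8) A (4 * (2 * (((2 ^ m : ℕ) : ℝ) ^ (c / 64) * ((E b0)⁻¹ * (E (2 ^ p))⁻¹)))) 0 0
      (4 * (2 * ((2 ^ m : ℕ) : ℝ) ^ (-(A + 1)))) := by
  have hCh := ch46 R hc (by linarith) hC hqm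
  obtain ⟨n, hn⟩ : ∃ n : ℝ, n = ((2 ^ m : ℕ) : ℝ) := ⟨_, rfl⟩
  have hn1 : 1 ≤ n := hn ▸ n_ge1 m
  have hn0 : 0 < n := lt_of_lt_of_le one_pos hn1
  have hpw : ∀ x : ℝ, 0 < n ^ x := fun x => Real.rpow_pos_of_pos hn0 x
  rw [← hn] at R hCh h7 h13 hbb0 ⊢
  have hEb := R.Epos (2 ^ p)
  have hEb0 := R.Epos b0
  have hEq := R.Epos (2 ^ q)
  have hEb' := R.Epos (2 ^ p')
  obtain ⟨g, hg⟩ : ∃ g : ℝ, g = 2 * (n ^ (c / 64) * ((E b0)⁻¹ * (E (2 ^ p))⁻¹)) := ⟨_, rfl⟩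
  have hg0 : 0 ≤ g := by
    rw [hg]
    have := hpw (c / 64)
    positivity
  rw [← hg]
  refine ⟨by linarith, ?_, le_rfl, ?_, le_rfl, ?_, by have := hpw (-(A + 1)); positivity, ?_⟩
  · rw [← hn]
    have k := g_num23 R hCh (b₀ := b0) (C₀ := 2 * ε) (x := c / 8 + (c / 64 + c / 64)) hb01 hb0 (by linarith [R.ε0]) hbb0 (by linarith)
    have e1 : 4 * g ≤ n ^ (c / 64 + c / 64) * (1 / E (2 ^ p) * (1 / E b0)) := by
      rw [hg, Real.rpow_add hn0]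
      have e2 : 4 * (2 * (n ^ (c / 64) * ((E b0)⁻¹ * (E (2 ^ p))⁻¹))) = 8 * n ^ (c / 64) * (1 / E (2 ^ p) * (1 / E b0)) := by
        rw [one_div, one_div]
        ring
      rw [e2]
      exact mul_le_mul_of_nonneg_right (mul_le_mul_of_nonneg_right h7 (hpw _).le) (by positivity)
    have e3 : 1 / E (2 ^ p) * (1 / E b0) ≤ 1 / E (2 ^ p) * (w (2 ^ p') / ((2 ^ p : ℕ) : ℝ) + 1 / E b0 + 1 / E (2 ^ p')) := by
      refine mul_le_mul_of_nonneg_left ?_ (by positivity)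
      have := R.w0 (2 ^ p') Nat.one_le_two_pow
      have : 0 ≤ w (2 ^ p') / ((2 ^ p : ℕ) : ℝ) + 1 / E (2 ^ p') := by positivity
      linarith
    have e4 : n ^ (-(c / 16) - c / 8) = n ^ (-(c / 8)) * n ^ (-(c / 16)) := by
      rw [← Real.rpow_add hn0]
      congr 1
      ring
    have e5 : n ^ (c / 64 + c / 64) = n ^ (-(c / 8)) * n ^ (c / 8 + (c / 64 + c / 64)) := by
      rw [← Real.rpow_add hn0]
      congr 1
      ring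
    calc 4 * g ≤ n ^ (c / 64 + c / 64) * (1 / E (2 ^ p) * (1 / E b0)) := e1
      _ ≤ n ^ (c / 64 + c / 64) * (1 / E (2 ^ p) * (w (2 ^ p') / ((2 ^ p : ℕ) : ℝ) + 1 / E b0 + 1 / E (2 ^ p'))) :=
          mul_le_mul_of_nonneg_left e3 (hpw _).le
      _ = n ^ (-(c / 8)) * (n ^ (c / 8 + (c / 64 + c / 64)) *
          (1 / E (2 ^ p) * (w (2 ^ p') / ((2 ^ p : ℕ) : ℝ) + 1 / E b0 + 1 / E (2 ^ p')))) := by
          rw [e5]
          ring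
      _ ≤ n ^ (-(c / 8)) * (n ^ (-(c / 16)) / E (2 ^ q)) := mul_le_mul_of_nonneg_left k (hpw _).le
      _ = n ^ (-(c / 16) - c / 8) / E (2 ^ q) := by
          rw [e4]
          ring
  · rw [← hn]
    have := hpw (c / 32 - c / 8)
    positivity
  · rw [← hn]
    have := hpw (Θ - c / 16 - c / 8)
    positivity
  · rw [← hn]
    calc 4 * (2 * n ^ (-(A + 1))) = 8 * n ^ (-(A + 1)) := by ring
      _ ≤ n ^ (1 : ℝ) * n ^ (-(A + 1)) := mul_le_mul_of_nonneg_right (by rw [Real.rpow_one]; exact h13) (hpw _).le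
      _ = n ^ (-A) := by
          rw [← Real.rpow_add hn0]
          congr 1
          ring

/-- The finer window is not much smaller. -/
theorem bb05 {ι : ℝ} {m p : ℕ} (hι : 0 < ι) (h14 : 2 ≤ ((2 ^ m : ℕ) : ℝ) ^ ι) :
    ((2 ^ p : ℕ) : ℝ) ≤ ((2 ^ m : ℕ) : ℝ) ^ (2 * ι) * ((2 ^ (p - ⌈ι * (m : ℝ)⌉₊) : ℕ) : ℝ) := by
  obtain ⟨n, hn⟩ : ∃ n : ℝ, n = ((2 ^ m : ℕ) : ℝ) := ⟨_, rfl⟩
  have hn1 : 1 ≤ n := hn ▸ n_ge1 m
  have hn0 : 0 < n := lt_of_lt_of_le one_pos hn1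
  have hpw : ∀ x : ℝ, 0 < n ^ x := fun x => Real.rpow_pos_of_pos hn0 x
  have g1 : (⌈ι * (m : ℝ)⌉₊ : ℝ) ≤ ι * m + 1 := (Nat.ceil_lt_add_one (by positivity)).le
  have g2 : 2 ^ p ≤ 2 ^ ⌈ι * (m : ℝ)⌉₊ * 2 ^ (p - ⌈ι * (m : ℝ)⌉₊) := by
    rw [← pow_add]
    exact Nat.pow_le_pow_right two_pos (by omega)
  have g3 : ((2 ^ ⌈ι * (m : ℝ)⌉₊ : ℕ) : ℝ) ≤ n ^ (2 * ι) := by
    have g4 : ((2 ^ ⌈ι * (m : ℝ)⌉₊ : ℕ) : ℝ) ≤ n ^ ι * 2 := by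
      rw [hn]
      push_cast
      rw [← Real.rpow_natCast 2 ⌈ι * (m : ℝ)⌉₊, ← Real.rpow_natCast 2 m, ← Real.rpow_mul two_pos.le]
      calc (2 : ℝ) ^ ((⌈ι * (m : ℝ)⌉₊ : ℕ) : ℝ) ≤ (2 : ℝ) ^ (m * ι + 1) :=
            Real.rpow_le_rpow_of_exponent_le one_le_two (by linarith)
        _ = (2 : ℝ) ^ (m * ι) * 2 := by rw [Real.rpow_add two_pos, Real.rpow_one]
    have g5 : n ^ (2 * ι) = n ^ ι * n ^ ι := by
      rw [← Real.rpow_add hn0]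
      congr 1
      ring
    rw [g5]
    refine g4.trans (mul_le_mul_of_nonneg_left ?_ (hpw _).le)
    rw [hn]
    exact h14
  rw [← hn]
  calc ((2 ^ p : ℕ) : ℝ) ≤ ((2 ^ ⌈ι * (m : ℝ)⌉₊ * 2 ^ (p - ⌈ι * (m : ℝ)⌉₊) : ℕ) : ℝ) := by exact_mod_cast g2
    _ = ((2 ^ ⌈ι * (m : ℝ)⌉₊ : ℕ) : ℝ) * ((2 ^ (p - ⌈ι * (m : ℝ)⌉₊) : ℕ) : ℝ) := by push_cast; ring
    _ ≤ n ^ (2 * ι) * ((2 ^ (p - ⌈ι * (m : ℝ)⌉₊) : ℕ) : ℝ) := mul_le_mul_of_nonneg_right g3 (Nat.cast_nonneg _)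

/-- **THE PRICE OF THE DOUBLE TIE AT THE ACTUAL WEIGHTS.** -/
theorem prG5 {c₁ C : ℝ} {n₀ : ℕ} (h : In μ s c₁ C n₀) (hk : KapLe96 (EE μ s) (1 / 4)) (hK : 32 ≤ K)
    {c₀ : ℝ} (hR : RegP46 μ s c₀ Θ) (hδ : 0 < δ) (hc : 0 < c) (hcδ : c ≤ δ / 64) (hη : 0 ≤ η) :
    ∃ κ : ℝ, 0 < κ ∧ ∀ A : ℝ, Est fun ι β γ m => ∀ p p' q i : ℕ, Chg96 (EE μ s) Θ δ c η m p p' q → p < p' →
      i < 2 ^ (m - q) → ∀ M : ℝ, M + 1 ≤ ((2 ^ m : ℕ) : ℝ) ^ κ →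
        Pr46 μ s (frm33 μ s K ι β γ) (EE μ s) Θ c m p p' q i (c / 8) A fun _ j D =>
          avF μ s (frm33 μ s K ι β γ) m fun y ω S => Gj μ s ((frm33 μ s K ι β γ).L m) (Pn ((frm33 μ s K ι β γ).L m) y)
            (frm33 μ s K ι β γ).dl ((frm33 μ s K ι β γ).B m) ((frm33 μ s K ι β γ).b0 m p) (2 ^ p) (2 ^ p') M ω j S * |D y ω S| := by
  obtain ⟨a, -, -, hr⟩ := hR
  obtain ⟨κ, hκ, H⟩ := prB_osc (μ := μ) (s := s) h hK hδ (show 0 < c / 64 by positivity)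
  refine ⟨κ, hκ, fun A => ?_⟩
  have hι : Est fun ι _ _ _ => ι ≤ c / 64 := Est.iota (Sml.le (show 0 < c / 64 by positivity))
  have hreg : Est fun ι _ _ m => Reg46 (EE μ s) (wd μ s) c₀ Θ δ a ι ((2 ^ m : ℕ) : ℝ) :=
    Sml.of fun ι hι => Sml.of fun _ _ => Sml.of fun _ _ => (hr δ ι hδ hι).mono fun m hm => hm.1
  refine ((H (A + 1)).and ((rows5 (Θ := Θ) h hk hK hδ hc.le hcδ hη).and (hι.and hreg))).mono fun ι β γ hι0 hβ0 _ => ?_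
  filter_upwards [ev_n (show 0 < c / 64 by positivity) 8, (tendsto_natCast_atTop_atTop.const_mul_atTop hι0).eventually_gt_atTop 1,
    (tendsto_natCast_atTop_atTop.const_mul_atTop hδ).eventually_ge_atTop 6, ev_n (one_pos : (0 : ℝ) < 1) 8,
    ev_n hι0 2] with m h7 h11 h12 h13 h14 hh
  obtain ⟨hH, hrow, hι1, R⟩ := hh
  intro p p' q i hC hpp hi M hM
  obtain ⟨hsq', hqm⟩ := chg_le33 hC hc.le hη
  rw [Real.rpow_one] at h13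
  have hyF : ∀ y ∈ (frm33 μ s K ι β γ).ys m, y ≤ (frm33 μ s K ι β γ).L m := hy33 (by omega) m
  have hp2 : 2 ≤ p := by
    have g1 : (6 : ℝ) ≤ p := h12.trans hC.hp
    have g2 : 6 ≤ p := by exact_mod_cast g1
    omega
  have hb04 : 4 * 2 ^ (p - ⌈ι * (m : ℝ)⌉₊) ≤ 2 ^ p := b0_quarter h11 hp2
  have hN := numG5 R hc hcδ hC hqm hι1 (b0 := 2 ^ (p - ⌈ι * (m : ℝ)⌉₊)) Nat.one_le_two_pow (by omega) (bb05 hι0 h14) h7 h13 A
  have hrow2 : ∀ j ∈ Rw (R33 ι m) (i * 2 ^ q) ((i + 1) * 2 ^ q), 2 * 2 ^ p' ≤ j ∧ j + 2 ^ p' ≤ L33 K m := fun j hj => by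
    have := hrow p p' q i hC hi j hj
    omega
  have hpb : 2 * 2 ^ p ≤ 2 ^ p' := by
    rw [← pow_succ']
    exact Nat.pow_le_pow_right two_pos (by omega)
  refine prGj5 hyF (fun so To => ?_) hN
  have hside : (∀ j ∈ Rw (R33 ι m) (i * 2 ^ q) ((i + 1) * 2 ^ q), dA so (2 ^ (p - ⌈ι * (m : ℝ)⌉₊)) (2 ^ p) j = j + 2 ^ p ∧
      cA so (2 ^ (p - ⌈ι * (m : ℝ)⌉₊)) (2 ^ p) j + 2 ^ p / 4 ≤ j + 2 ^ p) ∨
      ∀ j ∈ Rw (R33 ι m) (i * 2 ^ q) ((i + 1) * 2 ^ q), cA so (2 ^ (p - ⌈ι * (m : ℝ)⌉₊)) (2 ^ p) j = j - 2 ^ p ∧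
      j + 2 ^ p / 4 ≤ dA so (2 ^ (p - ⌈ι * (m : ℝ)⌉₊)) (2 ^ p) j + 2 ^ p := by
    cases so
    · refine Or.inr fun j hj => ⟨rfl, ?_⟩
      unfold dA
      simp only [Bool.false_eq_true, if_false]
      have := hrow2 j hj
      omega
    · refine Or.inl fun j hj => ⟨rfl, ?_⟩
      unfold cA
      simp only [if_true]
      omega
  have k := hH p p' q i hC.hp hpp hrow2 _ _ hside (To = true) (M + 1) hM 1 zero_le_one
  have e : (1 + 1 : ℝ) = 2 := by norm_num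
  rw [e] at k
  exact k

end

end Pool.Agent.W_7d29a1_C0.DT5
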