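import Pool.Agent.W_7d29a1_C0.N2L5
import Pool.Agent.W_7d29a1_C0.PrI46

/-!
MP_7d29a1_pr, [CURV0], leaf E5.4 (helper5): ONE ROW OF THE DOUBLE TIES IN THE MEAN (`rowav5`): the average of `|N25e|` against a passenger in
terms of the lines which have prices, the term at the other corner of the flip as a hypothesis; `N25e_zero`: the row vanishes when the two
windows are the same.
-/

set_option autoImplicit false
set_option linter.unusedSectionVars false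

namespace Pool.Agent.W_7d29a1_C0.DT5

open Finset MeasureTheory Filter Topology
open Pool.Agent.W_7d29a1_F Pool.Agent.W_7d29a1_X
open Pool.Agent.W_7d29a1_C0 Pool.Agent.W_7d29a1_C0.Mod92 Pool.Agent.W_7d29a1_C0.Asm96 Pool.Agent.W_7d29a1_C0.N38
open Pool.Agent.W_7d29a1_C0.NTop23 Pool.Agent.W_7d29a1_C0.PrB5
open Pool.Agent.W_7d29a1_C0.Base5 Pool.Agent.W_7d29a1_C0.Sz23
open Pool.Agent.W_7d29a1_C0.N25 (Gj vm)
open Pool.Agent.W_7d29a1_C0.Pr46 (Ps46 ow46 meas_ow46 meas_Tau46 oA cA dA ow_nonneg)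
open Pool.W7d29a1.C0.R43 (Tau mI mI_nonneg)
open Pool.W7d29a1.C0.VT31 (cE cE_nonneg Mp)
open Pool.W7d29a1.C0.S1 (osc i1 i1_nonneg i1_of i1_not tI)
open Pool.W7d29a1.C0.O1 (T4 T4_nonneg)
open Pool.W7d29a1.C0 (gm gm_mono gm_const gm_nonneg gm_add gm_smul Ac)

noncomputable section

variable {μ : Measure ℝ} {s : ℝ}

section Meas

variable {N y : ℕ} [Nonempty (Px (Pn N y))]

theorem meas_mI5 (c d u v : ℕ) (S : Px (Pn N y)) : Measurable fun ω : Env × Finset ℕ => mI (wm μ s N (Pn N y) ω) (pJ c d) u v S := by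
  unfold mI
  exact meas_cE (w := fun ω : Env × Finset ℕ => wm μ s N (Pn N y) ω) meas_wm (f := fun _ => Swap57.NI u v S) (fun _ => measurable_const) _ S

theorem meas_t4X5 (δ B : ℝ) (b0 b b' : ℕ) (so : Bool) (m : ℝ) (j : ℕ) (S : Px (Pn N y)) :
    Measurable fun ω => t4X5 μ s N δ B b0 b b' so m y ω j S := by
  classical
  unfold t4X5 T4
  refine measurable_const.min (Measurable.const_mul (meas_cE (w := fun ω : Env × Finset ℕ => wm μ s N (Pn N y) ω) meas_wm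
    (f := fun ω u => mI (wm μ s N (Pn N y) ω) (pJ (j - b') (j + b')) (cA so b0 b j) (dA so b0 b j) u *
      (cE (wm μ s N (Pn N y) ω) (pJ (j - b') (j + b')) (Pool.W7d29a1.C0.K1.upI (Mod92.gg μ s (Pn N y) δ B b0 ω j) 1 u) S *
        cE (wm μ s N (Pn N y) ω) (pJ (j - b') (j + b')) (Pool.W7d29a1.C0.K1.dnI (Mod92.gg μ s (Pn N y) δ B b0 ω j) 1 u) S))
    (fun u => (meas_mI5 _ _ _ _ u).mul ?_) _ S) _)
  refine (meas_cE (w := fun ω : Env × Finset ℕ => wm μ s N (Pn N y) ω) meas_wm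
    (f := fun ω => Pool.W7d29a1.C0.K1.upI (Mod92.gg μ s (Pn N y) δ B b0 ω j) 1 u) (fun z => ?_) _ S).mul
    (meas_cE (w := fun ω : Env × Finset ℕ => wm μ s N (Pn N y) ω) meas_wm
    (f := fun ω => Pool.W7d29a1.C0.K1.dnI (Mod92.gg μ s (Pn N y) δ B b0 ω j) 1 u) (fun z => ?_) _ S)
  · unfold Pool.W7d29a1.C0.K1.upI
    exact Measurable.ite (measurableSet_lt ((meas_gg δ B b0 j u).add measurable_const) (meas_gg δ B b0 j z)) measurable_const measurable_const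
  · unfold Pool.W7d29a1.C0.K1.dnI
    exact Measurable.ite (measurableSet_lt (meas_gg δ B b0 j z) ((meas_gg δ B b0 j u).sub measurable_const)) measurable_const measurable_const

theorem t4X5_nonneg (δ B : ℝ) (b0 b b' : ℕ) (so : Bool) (m : ℝ) (ω : Env × Finset ℕ) (j : ℕ) (S : Px (Pn N y)) :
    0 ≤ t4X5 μ s N δ B b0 b b' so m y ω j S :=
  le_min zero_le_one (mul_nonneg (Real.exp_pos _).le (T4_nonneg (fun u => mI_nonneg _ _ _ _ u) S))

theorem t4X5_le_one (δ B : ℝ) (b0 b b' : ℕ) (so : Bool) (m : ℝ) (ω : Env × Finset ℕ) (j : ℕ) (S : Px (Pn N y)) :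
    t4X5 μ s N δ B b0 b b' so m y ω j S ≤ 1 := min_le_left _ _

theorem meas_tj5 (b0 b b' : ℕ) (M : ℝ) (j : ℕ) (S : Px (Pn N y)) : Measurable fun ω => tj μ s N (Pn N y) b0 b b' M ω j S := by
  unfold tj tI
  exact (meas_Tau46 _ _ _ _ _).add (meas_Tau46 _ _ _ _ _)

theorem tj_le_two5 (b0 b b' : ℕ) (M : ℝ) (ω : Env × Finset ℕ) (j : ℕ) (S : Px (Pn N y)) : tj μ s N (Pn N y) b0 b b' M ω j S ≤ 2 := by
  unfold tj tI
  linarith [N25.i1_le_one (Tau (wm μ s N (Pn N y) ω) (pW b' j) (j - b) (j - b0) M S),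
    N25.i1_le_one (Tau (wm μ s N (Pn N y) ω) (pW b' j) (j + b0) (j + b) M S)]

theorem ow_le_four5 (w : Px (Pn N y) → ℝ) (u b' j : ℕ) (M : ℝ) (S : Px (Pn N y)) : ow46 w u b' j M S ≤ 4 := by
  unfold ow46 tI
  linarith [N25.i1_le_one (Tau w (pJ 0 N) (j - b') (j - u) M S), N25.i1_le_one (Tau w (pJ 0 N) (j + u) (j + b') M S),
    N25.i1_le_one (Real.exp (-(7 * M)) < gm w (Swap57.NI (j - b') (j - u) S)),
    N25.i1_le_one (Real.exp (-(7 * M)) < gm w (Swap57.NI (j + u) (j + b') S))]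

theorem meas_vm5 (δ B : ℝ) (b0 j : ℕ) (S : Px (Pn N y)) : Measurable fun ω => vm μ s N (Pn N y) δ B b0 ω j S := by
  unfold vm
  exact (meas_wm S).sub (((meas_sr j).const_mul 2).mul (meas_gg δ B b0 j S))

/-- The row vanishes when the two windows are the same. -/
theorem N25e_zero {δ B : ℝ} {b0 b : ℕ} (ω : Env × Finset ℕ) (j : ℕ) (x : Px (Pn N y)) : N25e μ s N (Pn N y) δ B b0 b b ω j x = 0 := by
  have hc : ∀ (W W' f g : Px (Pn N y) → ℝ), Pool.W7d29a1.C0.VT31.cC W (pW b j) f (Pool.W7d29a1.C0.VT31.cV W' (pW b j) g) x = 0 :=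
    fun W W' f g => by
      rw [Pool.W7d29a1.C0.VT31.cC_symm, Pool.W7d29a1.C0.VT31.cC_meas_left W (Pool.W7d29a1.C0.VT31.cV_meas W' (pW b j) g) f]
      rfl
  unfold N25e N2g
  simp only [hc, mul_zero, intervalIntegral.integral_zero, neg_zero, zero_add]
  unfold Ac
  norm_num

end Meas

variable [IsProbabilityMeasure μ] {F : Frm96} {m p p' : ℕ}

/-- **ONE ROW IN THE MEAN.** -/
theorem rowav5 (hy : ∀ y ∈ F.ys m, y ≤ F.L m) (hB : 1 ≤ F.B m) (hpp : p ≤ p') {M1 M2 M3 m2 : ℝ} (hm : 0 ≤ M1)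
    (h2 : 10 * M1 + 2 * F.B m ≤ 5 * m2) (hM : m2 + 1 ≤ M3) {k j l : ℕ} (hl : 0 < l) (hj : j / l = k) {D : Pr46.Wt46 F m} {Mh ef : ℝ}
    (hD : Ps46 F m l (2 ^ p') k D Mh)
    (hflip : avy (F.ys m) (fun y => ∫ ω, gm (vm μ s (F.L m) (Pn (F.L m) y) F.dl (F.B m) (F.b0 m p) ω j) (fun x => |D y ω x| *
        Gj μ s (F.L m) (Pn (F.L m) y) F.dl (F.B m) (F.b0 m p) (2 ^ p) (2 ^ p') M1 ω j x) ∂(Pm μ (F.L m))) ≤
      avF μ s F m (fun y ω S => Gj μ s (F.L m) (Pn (F.L m) y) F.dl (F.B m) (F.b0 m p) (2 ^ p) (2 ^ p') M2 ω j S * |D y ω S|) + ef) :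
    avF μ s F m (fun y ω S => |N25e μ s (F.L m) (Pn (F.L m) y) F.dl (F.B m) (F.b0 m p) (2 ^ p) (2 ^ p') ω j S| * |D y ω S|) ≤
      4 * F.B m ^ 3 * Real.exp 2 *
        (avF μ s F m (fun y ω S => Gj μ s (F.L m) (Pn (F.L m) y) F.dl (F.B m) (F.b0 m p) (2 ^ p) (2 ^ p') M1 ω j S * |D y ω S|) +
        (avF μ s F m (fun y ω S => Gj μ s (F.L m) (Pn (F.L m) y) F.dl (F.B m) (F.b0 m p) (2 ^ p) (2 ^ p') M2 ω j S * |D y ω S|) +
        2 * avF μ s F m (fun y ω S => |D y ω S| * (tj μ s (F.L m) (Pn (F.L m) y) (F.b0 m p) (2 ^ p) (2 ^ p') M3 ω j S *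
          ow46 (wm μ s (F.L m) (Pn (F.L m) y) ω) (F.b0 m p) (2 ^ p') j M3 S)))) +
      4 * F.B m ^ 3 * (avF μ s F m (fun y ω S => t4X5 μ s (F.L m) F.dl (F.B m) (F.b0 m p) (2 ^ p) (2 ^ p') true M1 y ω j S * |D y ω S|) +
        avF μ s F m (fun y ω S => t4X5 μ s (F.L m) F.dl (F.B m) (F.b0 m p) (2 ^ p) (2 ^ p') false M1 y ω j S * |D y ω S|)) +
      (4 * F.B m ^ 3 * Real.exp 2 * ef + (20 * F.B m ^ 3 * Real.exp 2 * Real.exp (-(5 * M1)) +
        16 * F.B m ^ 3 * Real.exp (16 * F.B m) * Real.exp (-(5 * M1))) * Mh) := by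
  obtain ⟨B, hBd⟩ : ∃ B : ℝ, B = F.B m := ⟨_, rfl⟩
  obtain ⟨b0, hb0⟩ : ∃ b0 : ℕ, b0 = F.b0 m p := ⟨_, rfl⟩
  rw [← hBd, ← hb0] at hflip ⊢
  rw [← hBd] at hB h2
  have hB0 : 0 ≤ B := by linarith
  have hne : ∀ y ∈ F.ys m, Nonempty (Px (Pn (F.L m) y)) := fun y h' => ne_Pn (hy y h')
  have hMh := hD.pos
  obtain ⟨r1, r2⟩ := PsH.rows hl hj
  have hC1 : 0 ≤ 4 * B ^ 3 * Real.exp 2 := by positivity
  have hC2 : 0 ≤ 4 * B ^ 3 := by positivity
  obtain ⟨eT, heT⟩ : ∃ eT : ℝ, eT = 20 * B ^ 3 * Real.exp 2 * Real.exp (-(5 * M1)) + 16 * B ^ 3 * Real.exp (16 * B) * Real.exp (-(5 * M1)) := ⟨_, rfl⟩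
  have heT0 : 0 ≤ eT := by
    rw [heT]
    positivity
  rw [← heT]
  -- one end
  have key : ∀ y ∈ F.ys m, ∫ ω, gm (wm μ s (F.L m) (Pn (F.L m) y) ω)
        (fun x => |N25e μ s (F.L m) (Pn (F.L m) y) F.dl B b0 (2 ^ p) (2 ^ p') ω j x| * |D y ω x|) ∂(Pm μ (F.L m)) ≤
      4 * B ^ 3 * Real.exp 2 * (∫ ω, gm (wm μ s (F.L m) (Pn (F.L m) y) ω)
          (fun x => Gj μ s (F.L m) (Pn (F.L m) y) F.dl B b0 (2 ^ p) (2 ^ p') M1 ω j x * |D y ω x|) ∂(Pm μ (F.L m)) +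
        (∫ ω, gm (vm μ s (F.L m) (Pn (F.L m) y) F.dl B b0 ω j) (fun x => |D y ω x| *
          Gj μ s (F.L m) (Pn (F.L m) y) F.dl B b0 (2 ^ p) (2 ^ p') M1 ω j x) ∂(Pm μ (F.L m)) +
        2 * ∫ ω, gm (wm μ s (F.L m) (Pn (F.L m) y) ω) (fun x => |D y ω x| * (tj μ s (F.L m) (Pn (F.L m) y) b0 (2 ^ p) (2 ^ p') M3 ω j x *
          ow46 (wm μ s (F.L m) (Pn (F.L m) y) ω) b0 (2 ^ p') j M3 x)) ∂(Pm μ (F.L m)))) +
      4 * B ^ 3 * (∫ ω, gm (wm μ s (F.L m) (Pn (F.L m) y) ω) (fun x => t4X5 μ s (F.L m) F.dl B b0 (2 ^ p) (2 ^ p') true M1 y ω j x *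
          |D y ω x|) ∂(Pm μ (F.L m)) +
        ∫ ω, gm (wm μ s (F.L m) (Pn (F.L m) y) ω) (fun x => t4X5 μ s (F.L m) F.dl B b0 (2 ^ p) (2 ^ p') false M1 y ω j x *
          |D y ω x|) ∂(Pm μ (F.L m))) + eT * Mh := fun y hyy => by
    have := hne y hyy
    obtain ⟨W, hW⟩ : ∃ W : Env × Finset ℕ → Px (Pn (F.L m) y) → ℝ, W = fun ω => wm μ s (F.L m) (Pn (F.L m) y) ω := ⟨_, rfl⟩
    have eW : ∀ ω, wm μ s (F.L m) (Pn (F.L m) y) ω = W ω := fun ω => by rw [hW]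
    have mW : ∀ S, Measurable fun ω => W ω S := fun S => by
      rw [hW]
      exact meas_wm S
    have hG : ∀ (M : ℝ) ω x, 0 ≤ Gj μ s (F.L m) (Pn (F.L m) y) F.dl B b0 (2 ^ p) (2 ^ p') M ω j x ∧
        Gj μ s (F.L m) (Pn (F.L m) y) F.dl B b0 (2 ^ p) (2 ^ p') M ω j x ≤ 2 := fun M ω x => ⟨N25.Gt_nonneg _ _ _ _ _ _ _ _ _, N25.Gt_le_two _ _ _ _ _ _ _ _ _⟩
    -- integrability: a family in [0, r] against the passenger
    have hint : ∀ (V : Env × Finset ℕ → Px (Pn (F.L m) y) → ℝ) (f : Env × Finset ℕ → Px (Pn (F.L m) y) → ℝ) (r : ℝ),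
        (∀ S, Measurable fun ω => V ω S) → (∀ ω x, |f ω x| ≤ r) → (∀ x, Measurable fun ω => f ω x) →
        Integrable (fun ω => gm (V ω) (f ω)) (Pm μ (F.L m)) := fun V f r hV hf hfm => NN23.int_gm hV hfm (D := r) hf
    have bd : ∀ {a r : ℝ} (ω : Env × Finset ℕ) (x : Px (Pn (F.L m) y)), 0 ≤ a → a ≤ r → abs (|D y ω x| * a) ≤ Mh * r := fun ω x h0 h1 => by
      rw [abs_mul, abs_abs, abs_of_nonneg h0]
      exact mul_le_mul (hD.bdd y ω x) h1 h0 hMh.le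
    have bd' : ∀ {a r : ℝ} (ω : Env × Finset ℕ) (x : Px (Pn (F.L m) y)), 0 ≤ a → a ≤ r → abs (a * |D y ω x|) ≤ Mh * r := fun ω x h0 h1 => by
      rw [mul_comm]
      exact bd ω x h0 h1
    have mD : ∀ x, Measurable fun ω => |D y ω x| := fun x => (hD.mes y x).abs
    have iA := hint W (fun ω x => Gj μ s (F.L m) (Pn (F.L m) y) F.dl B b0 (2 ^ p) (2 ^ p') M1 ω j x * |D y ω x|) (Mh * 2) mW
      (fun ω x => bd' ω x (hG M1 ω x).1 (hG M1 ω x).2) fun x => (meas_Gj5 _ _ _ _ _ _ _ _).mul (mD x)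
    have iV := hint (fun ω => vm μ s (F.L m) (Pn (F.L m) y) F.dl B b0 ω j) (fun ω x => |D y ω x| *
          Gj μ s (F.L m) (Pn (F.L m) y) F.dl B b0 (2 ^ p) (2 ^ p') M1 ω j x) (Mh * 2) (fun S => meas_vm5 _ _ _ _ S)
      (fun ω x => bd ω x (hG M1 ω x).1 (hG M1 ω x).2) fun x => (mD x).mul (meas_Gj5 _ _ _ _ _ _ _ _)
    have iO := hint W (fun ω x => |D y ω x| * (tj μ s (F.L m) (Pn (F.L m) y) b0 (2 ^ p) (2 ^ p') M3 ω j x *
          ow46 (W ω) b0 (2 ^ p') j M3 x)) (Mh * (2 * 4)) mW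
      (fun ω x => bd ω x (mul_nonneg (tj_nonneg _ _ _ _ _ _ _ _) (ow_nonneg _ _ _ _ _ _))
        (mul_le_mul (tj_le_two5 _ _ _ _ _ _ _) (ow_le_four5 _ _ _ _ _ _) (ow_nonneg _ _ _ _ _ _) (by norm_num)))
      fun x => (mD x).mul ((meas_tj5 _ _ _ _ _ _).mul (by
        simp only [← eW]
        exact meas_ow46 _ _ _ _ _))
    have iT : ∀ so : Bool, Integrable (fun ω => gm (W ω) (fun x => t4X5 μ s (F.L m) F.dl B b0 (2 ^ p) (2 ^ p') so M1 y ω j x *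
          |D y ω x|)) (Pm μ (F.L m)) := fun so => hint W _ (Mh * 1) mW
      (fun ω x => bd' ω x (t4X5_nonneg _ _ _ _ _ _ _ _ _ _) (t4X5_le_one _ _ _ _ _ _ _ _ _ _)) fun x => (meas_t4X5 _ _ _ _ _ _ _ _ _).mul (mD x)
    have hpt : ∀ ω, gm (W ω) (fun x => |N25e μ s (F.L m) (Pn (F.L m) y) F.dl B b0 (2 ^ p) (2 ^ p') ω j x| * |D y ω x|) ≤
        4 * B ^ 3 * Real.exp 2 * (gm (W ω) (fun x => Gj μ s (F.L m) (Pn (F.L m) y) F.dl B b0 (2 ^ p) (2 ^ p') M1 ω j x * |D y ω x|) +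
          (gm (vm μ s (F.L m) (Pn (F.L m) y) F.dl B b0 ω j) (fun x => |D y ω x| *
            Gj μ s (F.L m) (Pn (F.L m) y) F.dl B b0 (2 ^ p) (2 ^ p') M1 ω j x) +
          2 * gm (W ω) (fun x => |D y ω x| * (tj μ s (F.L m) (Pn (F.L m) y) b0 (2 ^ p) (2 ^ p') M3 ω j x *
            ow46 (W ω) b0 (2 ^ p') j M3 x)))) +
        4 * B ^ 3 * (gm (W ω) (fun x => t4X5 μ s (F.L m) F.dl B b0 (2 ^ p) (2 ^ p') true M1 y ω j x * |D y ω x|) +
          gm (W ω) (fun x => t4X5 μ s (F.L m) F.dl B b0 (2 ^ p) (2 ^ p') false M1 y ω j x * |D y ω x|)) + eT * Mh := fun ω => by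
      have hMp : Mp (pW (2 ^ p') j) fun x => |D y ω x| := by
        have g1 : Mp (pJ (j - 2 ^ p') (j + 2 ^ p')) (D y ω) := fun S S' e => (hD.mp y ω).of_crs (crs_pJ (by omega) (by omega)) S S' e
        intro S S' e
        show |D y ω S| = |D y ω S'|
        rw [g1 S S' e]
      have k1 := row5 (μ := μ) (s := s) (N := F.L m) (y := y) (δ := F.dl) hB (Nat.pow_le_pow_right two_pos hpp) hm h2 hM ω j (b0 := b0)
        (H := fun x => |D y ω x|) hMp fun x => abs_nonneg _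
      rw [← heT, eW] at k1
      have e1 : ∀ f : Px (Pn (F.L m) y) → ℝ, (fun x => |D y ω x| * f x) = fun x => f x * |D y ω x| := fun f => by
        funext x
        exact mul_comm _ _
      have e2 : gm (W ω) (fun x => |D y ω x|) ≤ Mh := (gm_mono _ (g := fun _ => Mh) fun x => hD.bdd y ω x).trans (gm_const _ _).le
      have e3 := mul_le_mul_of_nonneg_left e2 heT0
      rw [e1 fun x => |N25e μ s (F.L m) (Pn (F.L m) y) F.dl B b0 (2 ^ p) (2 ^ p') ω j x|,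
        e1 fun x => t4X5 μ s (F.L m) F.dl B b0 (2 ^ p) (2 ^ p') true M1 y ω j x,
        e1 fun x => t4X5 μ s (F.L m) F.dl B b0 (2 ^ p) (2 ^ p') false M1 y ω j x] at k1
      have e4 : gm (W ω) (fun x => |D y ω x| * Gj μ s (F.L m) (Pn (F.L m) y) F.dl B b0 (2 ^ p) (2 ^ p') M1 ω j x) =
          gm (W ω) (fun x => Gj μ s (F.L m) (Pn (F.L m) y) F.dl B b0 (2 ^ p) (2 ^ p') M1 ω j x * |D y ω x|) := by
        rw [e1 fun x => Gj μ s (F.L m) (Pn (F.L m) y) F.dl B b0 (2 ^ p) (2 ^ p') M1 ω j x]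
      rw [e4] at k1
      linarith
    have hI := integral_mono_of_nonneg (μ := Pm μ (F.L m)) (ae_of_all _ fun ω => gm_nonneg (W ω) fun x =>
      mul_nonneg (abs_nonneg (N25e μ s (F.L m) (Pn (F.L m) y) F.dl B b0 (2 ^ p) (2 ^ p') ω j x)) (abs_nonneg (D y ω x)))
      (((((iA.add (iV.add (iO.const_mul 2))).const_mul (4 * B ^ 3 * Real.exp 2)).add
        (((iT true).add (iT false)).const_mul (4 * B ^ 3))).add (integrable_const (eT * Mh)))) (ae_of_all _ hpt)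
    have j1 := integral_add ((iA.add (iV.add (iO.const_mul 2))).const_mul (4 * B ^ 3 * Real.exp 2) |>.add
        (((iT true).add (iT false)).const_mul (4 * B ^ 3))) (integrable_const (μ := Pm μ (F.L m)) (eT * Mh))
    have j2 := integral_add ((iA.add (iV.add (iO.const_mul 2))).const_mul (4 * B ^ 3 * Real.exp 2))
        (((iT true).add (iT false)).const_mul (4 * B ^ 3))
    have j3 := integral_add iA (iV.add (iO.const_mul 2))
    have j4 := integral_add iV (iO.const_mul 2)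
    have j5 := integral_add (iT true) (iT false)
    simp only [Pi.add_apply] at j1 j2 j3 j4 j5 hI
    rw [j1, j2, integral_const_mul, integral_const_mul, j3, j4, integral_const_mul, j5, integral_const] at hI
    have e3 : (Pm μ (F.L m)).real Set.univ = 1 := by rw [measureReal_def, measure_univ, ENNReal.toReal_one]
    rw [e3, one_smul] at hI
    simp only [eW]
    exact hI
  rcases (F.ys m).eq_empty_or_nonempty with h0 | h0
  · have z : ∀ f : Pr46.Wt46 F m, avF μ s F m f = 0 := fun f => by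
      unfold avF av
      rw [h0, card_empty, Nat.cast_zero, inv_zero, zero_mul]
    rw [z, z] at *
    have z2 : avy (F.ys m) (fun y => ∫ ω, gm (vm μ s (F.L m) (Pn (F.L m) y) F.dl B b0 ω j) (fun x => |D y ω x| *
        Gj μ s (F.L m) (Pn (F.L m) y) F.dl B b0 (2 ^ p) (2 ^ p') M1 ω j x) ∂(Pm μ (F.L m))) = 0 := by
      unfold avy
      rw [h0, card_empty, Nat.cast_zero, inv_zero, zero_mul]
    simp only [z] at hflip ⊢
    rw [z2] at hflip
    have g1 : 0 ≤ ef := by linarith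
    have g2 : 0 ≤ eT * Mh := mul_nonneg heT0 hMh.le
    have g3 := mul_nonneg hC1 g1
    linarith
  · have k1 := avy_mono key
    rw [avy_add, avy_const h0, avy_add, avy_mul, avy_mul, avy_add, avy_add, avy_add, avy_mul] at k1
    have e : ∀ f : Pr46.Wt46 F m, avF μ s F m f = avy (F.ys m) fun y => ∫ ω, gm (wm μ s (F.L m) (Pn (F.L m) y) ω) (f y ω) ∂(Pm μ (F.L m)) :=
      fun f => rfl
    simp only [e] at hflip ⊢
    have k2 := mul_le_mul_of_nonneg_left hflip hC1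
    linarith

end

end Pool.Agent.W_7d29a1_C0.DT5
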