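import Pool.Agent.W_7d29a1_C0.N2R5

/-!
MP_7d29a1_pr, [CURV0], leaf E5.4 (helper5): THE LINE OF THE DOUBLE TIES (`LnN5`) and its price: `comb5` (the combination of the five lines),
`prLn5`, `rb5` (the rows of `N25e` are bounded by the line), `num5` (the numbers of the levels).
-/

set_option autoImplicit false
set_option linter.unusedSectionVars false

namespace Pool.Agent.W_7d29a1_C0.DT5

open Finset MeasureTheory Filter Topology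
open Pool.Agent.W_7d29a1_F Pool.Agent.W_7d29a1_X
open Pool.Agent.W_7d29a1_C0 Pool.Agent.W_7d29a1_C0.Mod92 Pool.Agent.W_7d29a1_C0.Asm96 Pool.Agent.W_7d29a1_C0.N38
open Pool.Agent.W_7d29a1_C0.Frm33 Pool.Agent.W_7d29a1_C0.NTop23 Pool.Agent.W_7d29a1_C0.PrB5
open Pool.Agent.W_7d29a1_C0.Base5 Pool.Agent.W_7d29a1_C0.Sz23
open Pool.Agent.W_7d29a1_C0.N25 (Gj vm)
open Pool.Agent.W_7d29a1_C0.Pr46 (Ps46 Pr46 Wt46 Rb46 ow46 st46 rw46 rb46_of_row ps_YF pas_I5 avF_mono)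
open Pool.W7d29a1.C0 (gm gm_nonneg)

noncomputable section

variable {μ : Measure ℝ} {s : ℝ} [IsProbabilityMeasure μ] {F : Frm96} {E : ℕ → ℝ} {Θ c : ℝ} {m p p' q i : ℕ}

/-- The combination of five lines. -/
theorem comb5 (hy : ∀ y ∈ F.ys m, y ≤ F.L m) (hE : ∀ n, 0 < E n) {x A z C1 C2 : ℝ} (hz : 0 ≤ z) (h4 : 4 ≤ ((2 ^ m : ℕ) : ℝ) ^ z)
    (c10 : 0 ≤ C1) (c11 : C1 ≤ ((2 ^ m : ℕ) : ℝ) ^ z) (c20 : 0 ≤ C2) (c21 : C2 ≤ ((2 ^ m : ℕ) : ℝ) ^ z)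
    {a1 a2 a3 a4 a5 : ℝ → ℕ → Wt46 F m → ℝ} (h1 : Pr46 μ s F E Θ c m p p' q i x A a1) (h2 : Pr46 μ s F E Θ c m p p' q i x A a2)
    (h3 : Pr46 μ s F E Θ c m p p' q i x A a3) (h5 : Pr46 μ s F E Θ c m p p' q i x A a4) (h6 : Pr46 μ s F E Θ c m p p' q i x A a5) :
    Pr46 μ s F E Θ c m p p' q i (x - 7 * z) (A - 7 * z) fun t j D =>
      C1 * (a1 t j D + (a2 t j D + 2 * a3 t j D)) + C2 * (a4 t j D + a5 t j D) := by
  have g3 := Pr46.smul hy hE h3 (r := 2) (z := z) (by norm_num) hz (by linarith)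
  have g2 := Pr46.add hy hE (h2.weaken hE (x' := x - 2 * z) (A' := A - 2 * z) (by linarith) (by linarith)) g3 h4
  have g1 := Pr46.add hy hE (h1.weaken hE (x' := x - 2 * z - z) (A' := A - 2 * z - z) (by linarith) (by linarith)) g2 h4
  have g0 := Pr46.smul hy hE g1 c10 hz c11
  have k0 := Pr46.add hy hE h5 h6 h4
  have k1 := Pr46.smul hy hE k0 c20 hz c21
  have r := Pr46.add hy hE (g0.weaken hE (x' := x - 6 * z) (A' := A - 6 * z) (by linarith) (by linarith))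
    (k1.weaken hE (x' := x - 6 * z) (A' := A - 6 * z) (by linarith) (by linarith)) h4
  exact r.weaken hE (by linarith) (by linarith)

/-- **The line of the double ties**: three levels. -/
def LnN5 (μ : Measure ℝ) (s : ℝ) (F : Frm96) (m p p' : ℕ) (M1 M2 M3 : ℝ) (j : ℕ) (D : Wt46 F m) : ℝ :=
  4 * F.B m ^ 3 * Real.exp 2 *
    (avF μ s F m (fun y ω S => Gj μ s (F.L m) (Pn (F.L m) y) F.dl (F.B m) (F.b0 m p) (2 ^ p) (2 ^ p') M1 ω j S * |D y ω S|) +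
    (avF μ s F m (fun y ω S => Gj μ s (F.L m) (Pn (F.L m) y) F.dl (F.B m) (F.b0 m p) (2 ^ p) (2 ^ p') M2 ω j S * |D y ω S|) +
    2 * avF μ s F m (fun y ω S => |D y ω S| * (tj μ s (F.L m) (Pn (F.L m) y) (F.b0 m p) (2 ^ p) (2 ^ p') M3 ω j S *
      ow46 (wm μ s (F.L m) (Pn (F.L m) y) ω) (F.b0 m p) (2 ^ p') j M3 S)))) +
  4 * F.B m ^ 3 * (avF μ s F m (fun y ω S => t4X5 μ s (F.L m) F.dl (F.B m) (F.b0 m p) (2 ^ p) (2 ^ p') true M1 y ω j S * |D y ω S|) +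
    avF μ s F m (fun y ω S => t4X5 μ s (F.L m) F.dl (F.B m) (F.b0 m p) (2 ^ p) (2 ^ p') false M1 y ω j S * |D y ω S|))

/-- The price of the line. -/
theorem prLn5 (hy : ∀ y ∈ F.ys m, y ≤ F.L m) (hE : ∀ n, 0 < E n) (hB : 0 ≤ F.B m) {x A z M1 M2 M3 : ℝ} (hz : 0 ≤ z)
    (h4 : 4 ≤ ((2 ^ m : ℕ) : ℝ) ^ z) (hC : 4 * F.B m ^ 3 * Real.exp 2 ≤ ((2 ^ m : ℕ) : ℝ) ^ z) (hx : 7 * z ≤ x) (hA : 4 + 7 * z ≤ A)
    (h1 : Pr46 μ s F E Θ c m p p' q i x A fun _ j D => avF μ s F m fun y ω S =>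
      Gj μ s (F.L m) (Pn (F.L m) y) F.dl (F.B m) (F.b0 m p) (2 ^ p) (2 ^ p') M1 ω j S * |D y ω S|)
    (h2 : Pr46 μ s F E Θ c m p p' q i x A fun _ j D => avF μ s F m fun y ω S =>
      Gj μ s (F.L m) (Pn (F.L m) y) F.dl (F.B m) (F.b0 m p) (2 ^ p) (2 ^ p') M2 ω j S * |D y ω S|)
    (h3 : Pr46 μ s F E Θ c m p p' q i x A fun _ j D => avF μ s F m fun y ω S => |D y ω S| *
      (tj μ s (F.L m) (Pn (F.L m) y) (F.b0 m p) (2 ^ p) (2 ^ p') M3 ω j S *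
        ow46 (wm μ s (F.L m) (Pn (F.L m) y) ω) (F.b0 m p) (2 ^ p') j M3 S))
    (h5 : ∀ so : Bool, Pr46 μ s F E Θ c m p p' q i x A fun _ j D => avF μ s F m fun y ω S =>
      t4X5 μ s (F.L m) F.dl (F.B m) (F.b0 m p) (2 ^ p) (2 ^ p') so M1 y ω j S * |D y ω S|) :
    Pr46 μ s F E Θ c m p p' q i 0 4 fun _ => LnN5 μ s F m p p' M1 M2 M3 := by
  have hC2 : 4 * F.B m ^ 3 ≤ ((2 ^ m : ℕ) : ℝ) ^ z := by
    have e1 : (1 : ℝ) ≤ Real.exp 2 := Real.one_le_exp (by norm_num)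
    have e2 : 0 ≤ 4 * F.B m ^ 3 := by positivity
    nlinarith
  have k := comb5 hy hE hz h4 (by positivity) hC (by positivity) hC2 h1 h2 h3 (h5 true) (h5 false)
  exact (k.weaken hE (x' := 0) (A' := 4) (by linarith) (by linarith))

/-- **The rows of `N25e` are bounded by the line.** -/
theorem rb5 (hy : ∀ y ∈ F.ys m, y ≤ F.L m) (hB : 1 ≤ F.B m) (hpp : p ≤ p') (hb0 : F.b0 m p ≤ 2 ^ p)
    (hL : ∀ j ∈ rw46 F m q i, j + 2 ^ p' ≤ F.L m) {M1 M2 M3 m2 Mh ef e e₁ : ℝ} (hm : 0 ≤ M1)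
    (h2 : 10 * M1 + 2 * F.B m ≤ 5 * m2) (hM : m2 + 1 ≤ M3) (hMh0 : 0 < Mh) (hMh : ((rw46 F m q i).card : ℝ) * K5 (F.B m) ≤ Mh)
    (hflip : ∀ k j D, Ps46 F m (2 ^ (p' - 6)) (2 ^ p') k D Mh → j ∈ st46 F m q i (2 ^ (p' - 6)) k →
      avy (F.ys m) (fun y => ∫ ω, gm (vm μ s (F.L m) (Pn (F.L m) y) F.dl (F.B m) (F.b0 m p) ω j) (fun x => |D y ω x| *
        Gj μ s (F.L m) (Pn (F.L m) y) F.dl (F.B m) (F.b0 m p) (2 ^ p) (2 ^ p') M1 ω j x) ∂(Pm μ (F.L m))) ≤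
      avF μ s F m (fun y ω S => Gj μ s (F.L m) (Pn (F.L m) y) F.dl (F.B m) (F.b0 m p) (2 ^ p) (2 ^ p') M2 ω j S * |D y ω S|) + ef)
    (he : 4 * F.B m ^ 3 * Real.exp 2 * ef + (20 * F.B m ^ 3 * Real.exp 2 * Real.exp (-(5 * M1)) +
        16 * F.B m ^ 3 * Real.exp (16 * F.B m) * Real.exp (-(5 * M1))) * Mh ≤ e) (he0 : 0 ≤ e)
    (he₁ : ((2 ^ (p' - 6) : ℕ) : ℝ) * e ≤ e₁) : Rb46 μ s F 1 m p p' q i e₁ fun _ => LnN5 μ s F m p p' M1 M2 M3 := by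
  refine rb46_of_row he0 he₁ fun k j hj => ?_
  have hj' : j / 2 ^ (p' - 6) = k := (mem_filter.1 hj).2
  have hP := ps_YF (μ := μ) (s := s) (F := F) (q := q) (i := i) 1 (by linarith : (0 : ℝ) ≤ F.B m) hpp hb0 hL (pow_pos two_pos (p' - 6)) k hMh0 hMh
  have hI := pas_I5 (μ := μ) (s := s) (F := F) 1 (by linarith : (0 : ℝ) ≤ F.B m) hpp hb0
  obtain ⟨D, hD⟩ : ∃ D : Wt46 F m, D = YF F m q i (2 ^ (p' - 6)) (4 * 2 ^ p') k fun y ω j => I5 μ s F 1 m p p' y ω j := ⟨_, rfl⟩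
  rw [← hD] at hP ⊢
  have s1 : avF μ s F m (fun y ω S => I5 μ s F 1 m p p' y ω j S * D y ω S) ≤
      avF μ s F m (fun y ω S => |N25e μ s (F.L m) (Pn (F.L m) y) F.dl (F.B m) (F.b0 m p) (2 ^ p) (2 ^ p') ω j S| * |D y ω S|) := by
    refine avF_mono hy ⟨⟨K5 (F.B m) * Mh, fun y _ ω S => ?_⟩, fun y _ S => (hI.mes j y S).mul (hP.mes y S)⟩
      ⟨⟨K5 (F.B m) * Mh, fun y _ ω S => ?_⟩, fun y _ S => (hI.mes j y S).abs.mul (hP.mes y S).abs⟩ fun y _ ω S => ?_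
    · rw [abs_mul]
      exact mul_le_mul (hI.bdd j y ω S) (hP.bdd y ω S) (abs_nonneg _) hI.K0
    · rw [abs_mul, abs_abs, abs_abs]
      exact mul_le_mul (hI.bdd j y ω S) (hP.bdd y ω S) (abs_nonneg _) hI.K0
    · exact (le_abs_self _).trans (abs_mul _ _).le
  have s2 := rowav5 (μ := μ) (s := s) (F := F) (m := m) (p := p) (p' := p') hy hB hpp hm h2 hM (pow_pos two_pos (p' - 6)) hj' hP
    (hflip k j D hP hj)
  unfold LnN5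
  linarith

end

end Pool.Agent.W_7d29a1_C0.DT5
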