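import Pool.Agent.W_7d29a1_C0.N2U5
import Pool.Agent.W_7d29a1_C0.N2G5
import Pool.Agent.W_7d29a1_C0.DT5T80
import Pool.Agent.W_7d29a1_C0.FlipDT4B

/-!
MP_7d29a1_pr, [CURV0], leaf E5.4 (helper5): **THE ROWS OF THE DOUBLE TIES (`N2B`) AT THE CONCRETE FRAME**: `row1_5`, `r1_5` = the field `r1` of
the list of open statements, from the three level form `T4M`.
-/

set_option autoImplicit false
set_option linter.unusedSectionVars false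

namespace Pool.Agent.W_7d29a1_C0.DT5

open Finset MeasureTheory Filter Topology
open Pool.Agent.W_7d29a1_F Pool.Agent.W_7d29a1_X
open Pool.Agent.W_7d29a1_H (EE EE_pos one_le_EE sl)
open Pool.Agent.W_7d29a1_HS (In wd)
open Pool.Agent.W_7d29a1_C0 Pool.Agent.W_7d29a1_C0.Mod92 Pool.Agent.W_7d29a1_C0.Asm96 Pool.Agent.W_7d29a1_C0.N38
open Pool.Agent.W_7d29a1_C0.Frm33 Pool.Agent.W_7d29a1_C0.NTop23 Pool.Agent.W_7d29a1_C0.PrB5
open Pool.Agent.W_7d29a1_C0.Base5 Pool.Agent.W_7d29a1_C0.Sz23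
open Pool.Agent.W_7d29a1_C0.Par92 (Est Sml)
open Pool.Agent.W_7d29a1_C0.N25 (Gj vm)
open Pool.Agent.W_7d29a1_C0.Flip61 (Cov1)
open Pool.Agent.W_7d29a1_C0.T4F80 (T4M dt5t Am)
open Pool.Agent.W_7d29a1_C0.Pr46 (Ps46 Pr46 Nm46 Wt46 Rb46 ow46 st46 rw46 rb46_of_row cA dA b0_quarter PrE46 rowN46 J46)
open Pool.W7d29a1.C0 (gm gm_nonneg)

noncomputable section

variable {μ : Measure ℝ} {s : ℝ} [IsProbabilityMeasure μ] {K : ℕ} {Θ δ c η : ℝ}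

/-- The flip of the double tie, in the form of the estimates. -/
theorem flip5 {c₁ C : ℝ} {n₀ : ℕ} (h : In μ s c₁ C n₀) (hK : 32 ≤ K) {κ : ℝ} (hκ : 0 < κ) :
    ∃ c₃ : ℝ, 0 < c₃ ∧ Est fun _ β γ k => ∀ B : ℝ, B33 β k ≤ B → 24 * B ≤ ((2 ^ k : ℕ) : ℝ) ^ c₃ →
        ∀ b₀ j : ℕ, ((2 ^ k : ℕ) : ℝ) ^ κ ≤ b₀ → b₀ ≤ 2 ^ k → b₀ ≤ j → j + b₀ ≤ L33 K k → ∀ b b' : ℕ, b₀ ≤ b → b₀ ≤ b' →
        ∀ m m' : ℝ, 5 * m + 4 * B + 1 ≤ 5 * m' → 10 * m ≤ ((2 ^ k : ℕ) : ℝ) ^ c₃ →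
        ∀ (H : (y : ℕ) → Env × Finset ℕ → Px (Pn (L33 K k) y) → ℝ) (Mh : ℝ), Cov1 (L33 K k) b₀ j H Mh → (∀ y ω x, 0 ≤ H y ω x) →
        avy (ys33 μ s K k) (fun y => ∫ ω, gm (vm μ s (L33 K k) (Pn (L33 K k) y) γ B b₀ ω j) (fun x => H y ω x *
            Gj μ s (L33 K k) (Pn (L33 K k) y) γ B b₀ b b' m ω j x) ∂(Pm μ (L33 K k))) ≤
          avy (ys33 μ s K k) (fun y => ∫ ω, gm (wm μ s (L33 K k) (Pn (L33 K k) y) ω) (fun x => H y ω x *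
            Gj μ s (L33 K k) (Pn (L33 K k) y) γ B b₀ b b' m' ω j x) ∂(Pm μ (L33 K k))) + Mh * (((2 ^ k : ℕ) : ℝ) ^ 5)⁻¹ := by
  obtain ⟨c₃, hc₃, H⟩ := FlipR4.DT.flip_dt4_33 (μ := μ) (s := s) h hK hκ
  refine ⟨c₃, hc₃, Sml.of fun ι _ => Sml.of fun β hβ => ?_⟩
  obtain ⟨γ₀, hγ₀, H⟩ := H β hβ
  exact ⟨γ₀, hγ₀, fun γ hγ hγ' => H γ hγ hγ'⟩

/-- The numbers of the three level line. -/
theorem numT5 {E : ℕ → ℝ} (hE : ∀ n, 0 < E n) {m p q : ℕ} (hc : 0 < c) (A : ℝ) :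
    Nm46 E Θ c m p q (c / 8) A (((2 ^ m : ℕ) : ℝ) ^ (-(c / 2)) / E (2 ^ q)) 0 0 (1 * ((2 ^ m : ℕ) : ℝ) ^ (-A)) := by
  have hn1 := n_ge1 m
  have hn0 : (0 : ℝ) < ((2 ^ m : ℕ) : ℝ) := by positivity
  have hq := hE (2 ^ q)
  have hp := hE (2 ^ p)
  have hpw : ∀ x : ℝ, 0 < ((2 ^ m : ℕ) : ℝ) ^ x := fun x => Real.rpow_pos_of_pos hn0 x
  refine ⟨div_nonneg (hpw _).le hq.le, ?_, le_rfl, div_nonneg (hpw _).le hp.le, le_rfl, ?_, ?_, (one_mul _).le⟩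
  · exact div_le_div_of_nonneg_right (Real.rpow_le_rpow_of_exponent_le hn1 (by linarith)) hq.le
  · have := hpw (Θ - c / 16 - c / 8)
    positivity
  · rw [one_mul]
    exact (hpw _).le

/-- **THE ROWS OF `N25e` AT THE CONCRETE FRAME.** -/
theorem row1_5 (hT : ∀ sd fm : Bool, T4M μ s sd fm) {c₁ C : ℝ} {n₀ : ℕ} (h : In μ s c₁ C n₀) (hk : KapLe96 (EE μ s) (1 / 4)) (hK : 32 ≤ K)
    {c₀ : ℝ} (hR : RegP46 μ s c₀ Θ) (hδ : 0 < δ) (hc : 0 < c) (hc1 : c ≤ 1) (hcδ : c ≤ δ / 64) (hη : 0 ≤ η) :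
    Est fun ι β γ m => RowN23 μ s (frm33 μ s K ι β γ) (EE μ s) Θ δ c η 1 m := by
  obtain ⟨κG, hκG, HG⟩ := prG5 (μ := μ) (s := s) (Θ := Θ) (K := K) h hk hK hR hδ hc hcδ hη
  obtain ⟨κE, hκE, HE⟩ := PrE46 (μ := μ) (s := s) (Θ := Θ) h hk hK hR hδ hc hc1 hcδ hη
  obtain ⟨κT, hκT, HT⟩ := dt5t (μ := μ) (s := s) (Θ := Θ) hT h hk hK hR hδ hc hcδ hη
  obtain ⟨c₃, hc₃, HF⟩ := flip5 (μ := μ) (s := s) h hK (show 0 < δ / 4 by positivity)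
  obtain ⟨κ, hκd⟩ : ∃ κ, κ = min (min κG κE) (min κT c₃) / 2 := ⟨_, rfl⟩
  have hκ : 0 < κ := by
    rw [hκd]
    exact half_pos (lt_min (lt_min hκG hκE) (lt_min hκT hc₃))
  have q1 : κ + κ ≤ κG := by rw [hκd]; linarith [(min_le_left (min κG κE) (min κT c₃)).trans (min_le_left _ _)]
  have q2 : κ + κ ≤ κE := by rw [hκd]; linarith [(min_le_left (min κG κE) (min κT c₃)).trans (min_le_right _ _)]
  have q3 : κ + κ ≤ κT := by rw [hκd]; linarith [(min_le_right (min κG κE) (min κT c₃)).trans (min_le_left _ _)]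
  have q4 : κ + κ ≤ c₃ := by rw [hκd]; linarith [(min_le_right (min κG κE) (min κT c₃)).trans (min_le_right _ _)]
  clear hκd
  have hβ : Est fun _ β _ _ => β ≤ min (κ / 2) (c / 64 / 16) := Est.beta (Sml.of fun _ _ => Sml.le (by positivity))
  have hι : Est fun ι _ _ _ => ι ≤ δ / 4 := Est.iota (Sml.le (by positivity))
  refine rowN46 (μ := μ) (s := s) (Θ := Θ) h hk hK hδ hc.le hcδ hη 1 ?_
  refine (((HG 5).and (HE 5)).and (((HT 5).and HF).and ((rows5 (μ := μ) (s := s) (K := K) (Θ := Θ) h hk hK hδ hc.le hcδ hη).and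
    (hι.and hβ)))).mono fun ι β γ hι0 hβ0 _ => ?_
  by_cases hβ1 : β ≤ min (κ / 2) (c / 64 / 16)
  swap
  · exact Eventually.of_forall fun m h1 => absurd h1.2.2.2.2 hβ1
  by_cases hι1 : ι ≤ δ / 4
  swap
  · exact Eventually.of_forall fun m h1 => absurd h1.2.2.2.1 hι1
  filter_upwards [lev5 (κ := κ) (z := c / 64) hκ (by positivity) (by linarith) hβ0 (hβ1.trans (min_le_left _ _))
      (hβ1.trans (min_le_right _ _)), b0_33 hδ hι1, (tendsto_natCast_atTop_atTop.const_mul_atTop hι0).eventually_gt_atTop 1,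
    (tendsto_natCast_atTop_atTop.const_mul_atTop hδ).eventually_ge_atTop 6] with m hlev hb0n h11 h12 hh
  obtain ⟨⟨hG, hE⟩, ⟨hT4, hF⟩, hrow, -, -⟩ := hh
  obtain ⟨hB1, hBM, hM24, h4, hC1, hMh, herr, hfin⟩ := hlev
  intro p p' q i hC hi
  have hyF : ∀ y ∈ (frm33 μ s K ι β γ).ys m, y ≤ (frm33 μ s K ι β γ).L m := hy33 (by omega) m
  have hEp : ∀ n, 0 < EE μ s n := fun n => EE_pos n
  obtain ⟨hsq', hqm⟩ := chg_le33 hC hc.le hη
  rcases hC.hpp.eq_or_lt with hpe | hpp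
  · -- the windows are the same
    subst hpe
    refine ⟨fun _ _ _ => 0, Pr46.zero hyF hEp, rb46_of_row (Ln := fun _ _ => 0) (e := 0) le_rfl (by
      rw [mul_zero]
      exact Real.rpow_nonneg (Nat.cast_nonneg _) _) fun k j _ => ?_⟩
    have e1 : (fun (y : ℕ) (ω : Env × Finset ℕ) (S : Px (Pn ((frm33 μ s K ι β γ).L m) y)) => I5 μ s (frm33 μ s K ι β γ) 1 m p p y ω j S *
        YF (frm33 μ s K ι β γ) m q i (2 ^ (p - 6)) (4 * 2 ^ p) k (fun y ω j => I5 μ s (frm33 μ s K ι β γ) 1 m p p y ω j) y ω S) =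
        fun _ _ _ => (0 : ℝ) := by
      funext y ω S
      have : Nonempty (Px (Pn ((frm33 μ s K ι β γ).L m) y)) := ⟨S⟩
      have e2 : I5 μ s (frm33 μ s K ι β γ) 1 m p p y ω j S = 0 := N25e_zero ω j S
      rw [e2, zero_mul]
    rw [e1]
    have e3 := Pr46.avF_smul (μ := μ) (s := s) hyF (f := fun _ _ _ => (0 : ℝ)) 0
    simp only [zero_mul] at e3
    rw [e3, add_zero]
  -- p < p'
  obtain ⟨n, hn⟩ : ∃ n : ℝ, n = ((2 ^ m : ℕ) : ℝ) := ⟨_, rfl⟩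
  have hn1 : 1 ≤ n := hn ▸ n_ge1 m
  have hn0 : 0 < n := by linarith
  obtain ⟨M, hM⟩ : ∃ M : ℝ, M = n ^ κ := ⟨_, rfl⟩
  have hM1 : 24 ≤ M := by rw [hM, hn]; exact hM24
  have hM2 : 24 * M ≤ n ^ (κ + κ) := by
    rw [Real.rpow_add hn0, ← hM]
    exact mul_le_mul_of_nonneg_right hM1 (by linarith)
  have eM : ∀ x : ℝ, κ + κ ≤ x → 24 * M ≤ ((2 ^ m : ℕ) : ℝ) ^ x := fun x hx => by
    rw [← hn]
    exact hM2.trans (Real.rpow_le_rpow_of_exponent_le hn1 hx)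
  have hBM' : B33 β m ≤ M := by rw [hM, hn]; exact hBM
  have hp6 : 6 ≤ p := by
    have g1 : (6 : ℝ) ≤ p := h12.trans hC.hp
    exact_mod_cast g1
  have hpm : p' ≤ m := hC.hps'.trans (hsq'.trans hqm)
  have hb04 : 4 * 2 ^ (p - ⌈ι * (m : ℝ)⌉₊) ≤ 2 ^ p := b0_quarter h11 (by omega)
  have h2p : 2 ^ p ≤ 2 ^ p' := Nat.pow_le_pow_right two_pos hC.hpp
  have h2m : 2 ^ p' ≤ 2 ^ m := Nat.pow_le_pow_right two_pos hpm
  have hrw := hrow p p' q i hC hi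
  have hcard : ((rw46 (frm33 μ s K ι β γ) m q i).card : ℝ) ≤ ((2 ^ m : ℕ) : ℝ) := by
    have h1 : (rw46 (frm33 μ s K ι β γ) m q i).card ≤ 2 ^ m := (card_le_card (inter_subset_left)).trans (R33_card ι m)
    exact_mod_cast h1
  have g1 := hG p p' q i hC hpp hi M (by have := eM _ q1; linarith)
  have g2 := hG p p' q i hC hpp hi (2 * M) (by have := eM _ q1; linarith)
  have g3 := hE p p' q i hC hi (4 * M) (by have := eM _ q2; linarith) (2 ^ (p - ⌈ι * (m : ℝ)⌉₊)) (by omega)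
  have g5 : ∀ so : Bool, Pr46 μ s (frm33 μ s K ι β γ) (EE μ s) Θ c m p p' q i (c / 8) 5 fun _ j D => avF μ s (frm33 μ s K ι β γ) m
      fun y ω S => t4X5 μ s ((frm33 μ s K ι β γ).L m) (frm33 μ s K ι β γ).dl ((frm33 μ s K ι β γ).B m) ((frm33 μ s K ι β γ).b0 m p)
        (2 ^ p) (2 ^ p') so M y ω j S * |D y ω S| := fun so => by
    refine pr46_of_prB hyF ?_ (numT5 hEp hc 5)
    have k := hT4 p p' q i hC hi M (by linarith) (by have := eM _ q3; linarith) so true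
      (fun j => if so then j + 2 ^ (p - ⌈ι * (m : ℝ)⌉₊) else j - 2 ^ (p - ⌈ι * (m : ℝ)⌉₊))
      (fun hs j _ => by
        subst hs
        simp only [if_true]
        omega)
      (fun hs j hj => by
        subst hs
        have := hrw j hj
        simp only [Bool.false_eq_true, if_false]
        omega) (2 ^ (p' - 6)) (pow_pos two_pos _) (Nat.pow_le_pow_right two_pos (by omega)) 1 one_pos
    cases so
    · exact k
    · exact k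
  refine ⟨fun _ => LnN5 μ s (frm33 μ s K ι β γ) m p p' M (2 * M) (4 * M),
    prLn5 hyF hEp (zero_le_one.trans hB1) (z := c / 64) (by positivity) h4 hC1 (by linarith) (by linarith) g1 g2 g3 g5, ?_⟩
  have hn54 : 0 < ((2 ^ m : ℕ) : ℝ) ^ (5 / 4 : ℝ) := Real.rpow_pos_of_pos (by positivity) _
  refine rb5 (m2 := 3 * M) (Mh := ((2 ^ m : ℕ) : ℝ) ^ (5 / 4 : ℝ)) (ef := ((2 ^ m : ℕ) : ℝ) ^ (5 / 4 : ℝ) * (((2 ^ m : ℕ) : ℝ) ^ 5)⁻¹)
    (e := 2 * ((2 ^ m : ℕ) : ℝ) ^ (-(7 / 2) : ℝ)) hyF hB1 hC.hpp (by show 2 ^ (p - ⌈ι * (m : ℝ)⌉₊) ≤ 2 ^ p; omega)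
    (fun j hj => by have := hrw j hj; show j + 2 ^ p' ≤ L33 K m; omega) (by linarith) ?_ (by linarith) hn54 ?_ ?_ ?_
    (by have := Real.rpow_nonneg (show (0 : ℝ) ≤ ((2 ^ m : ℕ) : ℝ) by positivity) (-(7 / 2)); linarith) ?_
  · show 10 * M + 2 * B33 β m ≤ 5 * (3 * M)
    linarith
  · exact (mul_le_mul_of_nonneg_right hcard (K5_nonneg (zero_le_one.trans hB1))).trans hMh
  · -- the flip
    intro k j D hD hj
    have hjr := hrw j (mem_filter.1 hj).1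
    have hcov : Cov1 (L33 K m) (2 ^ (p - ⌈ι * (m : ℝ)⌉₊)) j (fun y ω x => |D y ω x|) (((2 ^ m : ℕ) : ℝ) ^ (5 / 4 : ℝ)) :=
      (hD.abs.cov j (mem_filter.1 hj).2).window (by omega)
    have k := hF (B33 β m) le_rfl (by have := eM _ q4; linarith) (2 ^ (p - ⌈ι * (m : ℝ)⌉₊)) j (hb0n p hC.hp) (by omega) (by omega)
      (by omega) (2 ^ p) (2 ^ p') (by omega) (by omega) M (2 * M) (by linarith) (by have := eM _ q4; linarith) _ _ hcov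
      fun y ω x => abs_nonneg _
    refine k.trans (add_le_add (le_of_eq ?_) le_rfl)
    unfold avF av avy
    refine congrArg _ (sum_congr rfl fun y _ => ?_)
    refine integral_congr_ae (ae_of_all _ fun ω => ?_)
    refine congrArg _ (funext fun x => mul_comm _ _)
  · show 4 * B33 β m ^ 3 * Real.exp 2 * (((2 ^ m : ℕ) : ℝ) ^ (5 / 4 : ℝ) * (((2 ^ m : ℕ) : ℝ) ^ 5)⁻¹) +
        (20 * B33 β m ^ 3 * Real.exp 2 * Real.exp (-(5 * M)) + 16 * B33 β m ^ 3 * Real.exp (16 * B33 β m) * Real.exp (-(5 * M))) *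
          ((2 ^ m : ℕ) : ℝ) ^ (5 / 4 : ℝ) ≤ _
    rw [hM, hn]
    exact herr
  · refine le_trans (mul_le_mul_of_nonneg_right ?_ ?_) hfin
    · have : 2 ^ (p' - 6) ≤ 2 ^ m := Nat.pow_le_pow_right two_pos (by omega)
      exact_mod_cast this
    · have := Real.rpow_nonneg (show (0 : ℝ) ≤ ((2 ^ m : ℕ) : ℝ) by positivity) (-(7 / 2))
      linarith

/-- **THE FIELD `r1`.** -/
theorem r1_5 (hT : ∀ sd fm : Bool, T4M μ s sd fm) {c₁ C : ℝ} {n₀ : ℕ} (h : In μ s c₁ C n₀) (hk : KapLe96 (EE μ s) (1 / 4)) (hK : 32 ≤ K)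
    {c₀ : ℝ} (hR : RegP46 μ s c₀ Θ) : Sml fun δ => Sml fun c => ∀ η : ℝ, 0 < η → η ≤ c / 64 → Est fun ι β γ m =>
    RowN23 μ s (frm33 μ s K ι β γ) (EE μ s) Θ δ c η 1 m :=
  Sml.of fun δ hδ => ⟨min 1 (δ / 64), by positivity, fun _ hc hcm _ hη _ =>
    row1_5 hT h hk hK hR hδ hc (hcm.trans (min_le_left _ _)) (hcm.trans (min_le_right _ _)) hη.le⟩

end

end Pool.Agent.W_7d29a1_C0.DT5
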