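import Pool.Agent.W_7d29a1_C0.N2S5
import Pool.Agent.W_7d29a1_C0.SzF23

/-!
MP_7d29a1_pr, [CURV0], leaf E5.4 (helper5): THE NUMBERS OF THE LEVELS of the double ties (`lev5`).
-/

set_option autoImplicit false
set_option linter.unusedSectionVars false

namespace Pool.Agent.W_7d29a1_C0.DT5

open Finset MeasureTheory Filter Topology
open Pool.Agent.W_7d29a1_F Pool.Agent.W_7d29a1_X
open Pool.Agent.W_7d29a1_C0 Pool.Agent.W_7d29a1_C0.Mod92 Pool.Agent.W_7d29a1_C0.Asm96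
open Pool.Agent.W_7d29a1_C0.Frm33 Pool.Agent.W_7d29a1_C0.Base5 Pool.Agent.W_7d29a1_C0.Sz23

noncomputable section

/-- The numbers of the levels: `M = n ^ κ`, `B = n ^ β`. -/
theorem lev5 {κ z β : ℝ} (hκ : 0 < κ) (hz : 0 < z) (hz4 : z ≤ 1 / 4) (hβ : 0 < β) (hβκ : β ≤ κ / 2) (hβz : β ≤ z / 16) :
    ∀ᶠ m : ℕ in atTop, 1 ≤ B33 β m ∧ B33 β m ≤ ((2 ^ m : ℕ) : ℝ) ^ κ ∧ 24 ≤ ((2 ^ m : ℕ) : ℝ) ^ κ ∧ 4 ≤ ((2 ^ m : ℕ) : ℝ) ^ z ∧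
      4 * B33 β m ^ 3 * Real.exp 2 ≤ ((2 ^ m : ℕ) : ℝ) ^ z ∧ ((2 ^ m : ℕ) : ℝ) * K5 (B33 β m) ≤ ((2 ^ m : ℕ) : ℝ) ^ (5 / 4 : ℝ) ∧
      4 * B33 β m ^ 3 * Real.exp 2 * (((2 ^ m : ℕ) : ℝ) ^ (5 / 4 : ℝ) * (((2 ^ m : ℕ) : ℝ) ^ 5)⁻¹) +
        (20 * B33 β m ^ 3 * Real.exp 2 * Real.exp (-(5 * ((2 ^ m : ℕ) : ℝ) ^ κ)) +
          16 * B33 β m ^ 3 * Real.exp (16 * B33 β m) * Real.exp (-(5 * ((2 ^ m : ℕ) : ℝ) ^ κ))) * ((2 ^ m : ℕ) : ℝ) ^ (5 / 4 : ℝ) ≤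
        2 * ((2 ^ m : ℕ) : ℝ) ^ (-(7 / 2) : ℝ) ∧
      ((2 ^ m : ℕ) : ℝ) * (2 * ((2 ^ m : ℕ) : ℝ) ^ (-(7 / 2) : ℝ)) ≤ ((2 ^ m : ℕ) : ℝ) ^ (-2 : ℝ) := by
  filter_upwards [num_sz (κ := κ) (ε := z / 2) hκ (by positivity) hβ hβκ (by linarith), ev_n hκ 24, ev_n (show 0 < z / 2 by positivity) 4,
    ev_exp hκ 6, ev_n (show (0 : ℝ) < 1 / 2 by norm_num) 2] with m h1 h2 h3 h4 h5
  obtain ⟨hB1, hB4, hK5, hE⟩ := h1
  obtain ⟨n, hn⟩ : ∃ n : ℝ, n = ((2 ^ m : ℕ) : ℝ) := ⟨_, rfl⟩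
  have hn1 : 1 ≤ n := hn ▸ n_ge1 m
  have hn0 : 0 < n := by linarith
  have hpw : ∀ x : ℝ, 0 < n ^ x := fun x => Real.rpow_pos_of_pos hn0 x
  obtain ⟨B, hB⟩ : ∃ B : ℝ, B = B33 β m := ⟨_, rfl⟩
  have hBn : B = n ^ β := by rw [hB, hn]; rfl
  rw [← hn] at h2 h3 h4 h5 hB4 hK5 hE ⊢
  rw [← hB] at hB1 hB4 hK5 hE ⊢
  have hB0 : 0 < B := by linarith
  have e2 : Real.exp 2 ≤ 8 := by
    have h1 := Real.exp_one_lt_d9
    have h2 : Real.exp 2 = Real.exp 1 * Real.exp 1 := by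
      rw [← Real.exp_add]
      norm_num
    rw [h2]
    have h3 := Real.exp_pos 1
    nlinarith
  have hz2 : n ^ (z / 2) * n ^ (z / 2) = n ^ z := by
    rw [← Real.rpow_add hn0]
    congr 1
    ring
  have hB34 : B ^ 3 ≤ B ^ 4 := pow_le_pow_right₀ hB1 (by norm_num)
  have hC1 : 4 * B ^ 3 * Real.exp 2 ≤ n ^ z := by
    calc 4 * B ^ 3 * Real.exp 2 ≤ 4 * B ^ 4 * 8 := by gcongr
      _ = 4 * (8 * B ^ 4) := by ring
      _ ≤ n ^ (z / 2) * n ^ (z / 2) := mul_le_mul h3 hB4 (by positivity) (hpw _).le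
      _ = n ^ z := hz2
  have hz14 : n ^ z ≤ n ^ (1 / 4 : ℝ) := Real.rpow_le_rpow_of_exponent_le hn1 hz4
  have hMh : n * K5 B ≤ n ^ (5 / 4 : ℝ) := by
    have g1 : n ^ (z / 2) ≤ n ^ (1 / 4 : ℝ) := Real.rpow_le_rpow_of_exponent_le hn1 (by linarith)
    calc n * K5 B ≤ n ^ (1 : ℝ) * n ^ (1 / 4 : ℝ) := by
          rw [Real.rpow_one]
          exact mul_le_mul_of_nonneg_left (hK5.trans g1) hn0.le
      _ = n ^ (5 / 4 : ℝ) := by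
          rw [← Real.rpow_add hn0]
          norm_num
  have hn5 : (n ^ 5)⁻¹ = n ^ (-5 : ℝ) := by
    rw [Real.rpow_neg hn0.le]
    congr 1
    exact_mod_cast (Real.rpow_natCast n 5).symm
  have t1 : 4 * B ^ 3 * Real.exp 2 * (n ^ (5 / 4 : ℝ) * (n ^ 5)⁻¹) ≤ n ^ (-(7 / 2) : ℝ) := by
    calc 4 * B ^ 3 * Real.exp 2 * (n ^ (5 / 4 : ℝ) * (n ^ 5)⁻¹) ≤ n ^ (1 / 4 : ℝ) * (n ^ (5 / 4 : ℝ) * n ^ (-5 : ℝ)) := by
          rw [hn5]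
          exact mul_le_mul_of_nonneg_right (hC1.trans hz14) (mul_nonneg (hpw _).le (hpw _).le)
      _ = n ^ (-(7 / 2) : ℝ) := by
          rw [← Real.rpow_add hn0, ← Real.rpow_add hn0]
          norm_num
  have t2 : (20 * B ^ 3 * Real.exp 2 * Real.exp (-(5 * n ^ κ)) + 16 * B ^ 3 * Real.exp (16 * B) * Real.exp (-(5 * n ^ κ))) *
      n ^ (5 / 4 : ℝ) ≤ n ^ (-(7 / 2) : ℝ) := by
    have g1 : Real.exp 2 ≤ Real.exp (16 * B) := Real.exp_le_exp.2 (by linarith)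
    have g2 : 20 * B ^ 3 * Real.exp 2 * Real.exp (-(5 * n ^ κ)) + 16 * B ^ 3 * Real.exp (16 * B) * Real.exp (-(5 * n ^ κ)) ≤
        2 * Real.exp (-(n ^ κ)) := by
      have g3 : 20 * B ^ 3 * Real.exp 2 * Real.exp (-(5 * n ^ κ)) ≤ 20 * B ^ 4 * Real.exp (16 * B) * Real.exp (-(5 * n ^ κ)) := by gcongr
      have g4 : 16 * B ^ 3 * Real.exp (16 * B) * Real.exp (-(5 * n ^ κ)) ≤ 16 * B ^ 4 * Real.exp (16 * B) * Real.exp (-(5 * n ^ κ)) := by gcongr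
      have g5 : 0 < B ^ 4 * Real.exp (16 * B) * Real.exp (-(5 * n ^ κ)) := by positivity
      have g6 : 24 * B ^ 4 * Real.exp (16 * B) * Real.exp (-(5 * n ^ κ)) = 24 * (B ^ 4 * Real.exp (16 * B) * Real.exp (-(5 * n ^ κ))) := by ring
      have g7 : 20 * B ^ 4 * Real.exp (16 * B) * Real.exp (-(5 * n ^ κ)) = 20 * (B ^ 4 * Real.exp (16 * B) * Real.exp (-(5 * n ^ κ))) := by ring
      have g8 : 16 * B ^ 4 * Real.exp (16 * B) * Real.exp (-(5 * n ^ κ)) = 16 * (B ^ 4 * Real.exp (16 * B) * Real.exp (-(5 * n ^ κ))) := by ring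
      rw [g7] at g3
      rw [g8] at g4
      rw [g6] at hE
      linarith
    have g9 : 2 ≤ n := by
      have : n ^ (1 / 2 : ℝ) ≤ n ^ (1 : ℝ) := Real.rpow_le_rpow_of_exponent_le hn1 (by norm_num)
      rw [Real.rpow_one] at this
      linarith
    calc _ ≤ (2 * Real.exp (-(n ^ κ))) * n ^ (5 / 4 : ℝ) := mul_le_mul_of_nonneg_right g2 (hpw _).le
      _ ≤ (n ^ (1 : ℝ) * n ^ (-6 : ℝ)) * n ^ (5 / 4 : ℝ) := by
          refine mul_le_mul_of_nonneg_right (mul_le_mul ?_ ?_ (Real.exp_pos _).le (hpw _).le) (hpw _).le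
          · rw [Real.rpow_one]
            exact g9
          · exact h4
      _ = n ^ (-(15 / 4) : ℝ) := by
          rw [← Real.rpow_add hn0, ← Real.rpow_add hn0]
          norm_num
      _ ≤ n ^ (-(7 / 2) : ℝ) := Real.rpow_le_rpow_of_exponent_le hn1 (by norm_num)
  refine ⟨hB1, ?_, h2, ?_, hC1, hMh, by linarith, ?_⟩
  · rw [hBn]
    exact Real.rpow_le_rpow_of_exponent_le hn1 (by linarith)
  · exact h3.trans (Real.rpow_le_rpow_of_exponent_le hn1 (by linarith))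
  · calc n * (2 * n ^ (-(7 / 2) : ℝ)) ≤ n ^ (1 : ℝ) * (n ^ (1 / 2 : ℝ) * n ^ (-(7 / 2) : ℝ)) := by
          rw [Real.rpow_one]
          exact mul_le_mul_of_nonneg_left (mul_le_mul_of_nonneg_right h5 (hpw _).le) hn0.le
      _ = n ^ (-2 : ℝ) := by
          rw [← Real.rpow_add hn0, ← Real.rpow_add hn0]
          norm_num

end

end Pool.Agent.W_7d29a1_C0.DT5
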