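import Pool.Agent.W_7d29a1_C0.NN23

/-!
MP_7d29a1_pr, [CURV0], leaf E5.8 (helper23): THE ASSEMBLY OF ONE ROW AT A TIME, weighted form. `av` = average over the pinned ends, the
environment and the path. `D = ∑_(j ∈ S) Y_j`, stretches `JJ_i` of rows, `YF_i` = the part of `D` with the rows which are far from the stretch `i`.
If `∑_(j ∈ JJ_i) av (Y_j YF_i) ≤ G av |YF_i| + e` and `av Y_j² ≤ A`, then `av D² ≤ 2 n (G h √A + e) + 2 |S| h A + (n G)²` (`n` the number of the
stretches, `h` the number of the rows which are near one stretch): `n38`.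
-/

set_option autoImplicit false
set_option linter.unusedSectionVars false

namespace Pool.Agent.W_7d29a1_C0.N38

open Finset MeasureTheory Pool.Agent.W_7d29a1_C0.NN23
open Pool.W7d29a1.C0 (gz gm gz_pos gz_ne gm_nonneg gm_mono gm_const gm_add gm_smul abs_gm_le)

noncomputable section

variable {X : ℕ → Type*} [∀ y, Fintype (X y)] {Ω : Type*} [MeasurableSpace Ω]

/-- The average over the ends `y ∈ ys`, over `P` and over the Gibbs measure of the log weights `w y`. -/
def av (ys : Finset ℕ) (P : Measure Ω) (w f : ∀ y, Ω → X y → ℝ) : ℝ :=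
  (ys.card : ℝ)⁻¹ * ∑ y ∈ ys, ∫ ω, gm (w y ω) (f y ω) ∂P

/-- Bounded and measurable. -/
def BM (ys : Finset ℕ) (f : ∀ y, Ω → X y → ℝ) : Prop :=
  (∃ D : ℝ, ∀ y ∈ ys, ∀ ω x, |f y ω x| ≤ D) ∧ ∀ y ∈ ys, ∀ x, Measurable fun ω => f y ω x

variable {ys : Finset ℕ} {P : Measure Ω} [IsProbabilityMeasure P] {w f g : ∀ y, Ω → X y → ℝ}

theorem BM.zero : BM ys (fun (y : ℕ) (_ : Ω) (_ : X y) => (0 : ℝ)) := ⟨⟨0, fun _ _ _ _ => by rw [abs_zero]⟩, fun _ _ _ => measurable_const⟩

theorem BM.add (hf : BM ys f) (hg : BM ys g) : BM ys fun y ω x => f y ω x + g y ω x := by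
  obtain ⟨⟨D, hD⟩, hm⟩ := hf
  obtain ⟨⟨D', hD'⟩, hm'⟩ := hg
  exact ⟨⟨D + D', fun y hy ω x => (abs_add_le _ _).trans (add_le_add (hD y hy ω x) (hD' y hy ω x))⟩, fun y hy x => (hm y hy x).add (hm' y hy x)⟩

theorem BM.mul (hf : BM ys f) (hg : BM ys g) : BM ys fun y ω x => f y ω x * g y ω x := by
  obtain ⟨⟨D, hD⟩, hm⟩ := hf
  obtain ⟨⟨D', hD'⟩, hm'⟩ := hg
  refine ⟨⟨D * D', fun y hy ω x => ?_⟩, fun y hy x => (hm y hy x).mul (hm' y hy x)⟩
  rw [abs_mul]
  exact mul_le_mul (hD y hy ω x) (hD' y hy ω x) (abs_nonneg _) ((abs_nonneg _).trans (hD y hy ω x))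

theorem BM.abs (hf : BM ys f) : BM ys fun y ω x => |f y ω x| := by
  obtain ⟨⟨D, hD⟩, hm⟩ := hf
  exact ⟨⟨D, fun y hy ω x => by rw [abs_abs]; exact hD y hy ω x⟩, fun y hy x => (hm y hy x).abs⟩

theorem BM.sum {ι : Type*} (J : Finset ι) {F : ι → ∀ y, Ω → X y → ℝ} (h : ∀ j ∈ J, BM ys (F j)) :
    BM ys fun y ω x => ∑ j ∈ J, F j y ω x := by
  classical
  induction J using Finset.induction_on with
  | empty => simpa using BM.zero (X := X) (Ω := Ω) (ys := ys)
  | insert i J hi ih =>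
    simp only [sum_insert hi]
    exact (h i (mem_insert_self i J)).add (ih fun j hj => h j (mem_insert_of_mem hj))

theorem BM.int (hX : ∀ y ∈ ys, Nonempty (X y)) (hw : ∀ y ∈ ys, ∀ x, Measurable fun ω => w y ω x) (hf : BM ys f) {y : ℕ} (hy : y ∈ ys) :
    Integrable (fun ω => gm (w y ω) (f y ω)) P := by
  have := hX y hy
  obtain ⟨⟨D, hD⟩, hm⟩ := hf
  exact int_gm (hw y hy) (hm y hy) (D := D) fun ω x => hD y hy ω x

section Rules

variable (hX : ∀ y ∈ ys, Nonempty (X y)) (hw : ∀ y ∈ ys, ∀ x, Measurable fun ω => w y ω x)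

include hX hw

theorem av_mono (hf : BM ys f) (hg : BM ys g) (h : ∀ y ∈ ys, ∀ ω x, f y ω x ≤ g y ω x) : av ys P w f ≤ av ys P w g := by
  refine mul_le_mul_of_nonneg_left (sum_le_sum fun y hy => ?_) (by positivity)
  have := hX y hy
  exact integral_mono (hf.int hX hw hy) (hg.int hX hw hy) fun ω => gm_mono _ (h y hy ω)

theorem av_add (hf : BM ys f) (hg : BM ys g) : av ys P w (fun y ω x => f y ω x + g y ω x) = av ys P w f + av ys P w g := by
  unfold av
  rw [← mul_add, ← sum_add_distrib]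
  congr 1
  refine sum_congr rfl fun y hy => ?_
  have := hX y hy
  rw [← integral_add (hf.int hX hw hy) (hg.int hX hw hy)]
  refine integral_congr_ae (Filter.Eventually.of_forall fun ω => ?_)
  exact gm_add (w y ω) (f y ω) (g y ω)

theorem av_smul (r : ℝ) : av ys P w (fun y ω x => r * f y ω x) = r * av ys P w f := by
  unfold av
  have e : ∀ y ∈ ys, ∫ ω, gm (w y ω) (fun x => r * f y ω x) ∂P = r * ∫ ω, gm (w y ω) (f y ω) ∂P := by
    intro y hy
    have := hX y hy
    rw [← integral_const_mul]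
    exact integral_congr_ae (Filter.Eventually.of_forall fun ω => gm_smul (w y ω) r (f y ω))
  rw [Finset.sum_congr rfl e, ← Finset.mul_sum, mul_left_comm]

theorem av_sum {ι : Type*} (J : Finset ι) {F : ι → ∀ y, Ω → X y → ℝ} (h : ∀ j ∈ J, BM ys (F j)) :
    av ys P w (fun y ω x => ∑ j ∈ J, F j y ω x) = ∑ j ∈ J, av ys P w (F j) := by
  classical
  induction J using Finset.induction_on with
  | empty =>
    have e := av_smul (P := P) (w := w) (f := fun _ _ _ => (0 : ℝ)) hX hw 0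
    simp only [zero_mul] at e
    simpa using e
  | insert i J hi ih =>
    simp only [sum_insert hi]
    rw [av_add hX hw (h i (mem_insert_self i J)) (BM.sum J fun j hj => h j (mem_insert_of_mem hj)),
      ih fun j hj => h j (mem_insert_of_mem hj)]

theorem av_nonneg (h : ∀ y ∈ ys, ∀ ω x, 0 ≤ f y ω x) : 0 ≤ av ys P w f := by
  refine mul_nonneg (by positivity) (sum_nonneg fun y hy => integral_nonneg fun ω => ?_)
  have := hX y hy
  exact gm_nonneg _ (h y hy ω)

/-- Cauchy-Schwarz with one. -/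
theorem av_abs_le (hf : BM ys f) : av ys P w (fun y ω x => |f y ω x|) ≤ Real.sqrt (av ys P w fun y ω x => f y ω x ^ 2) := by
  have hsq : BM ys fun y ω x => f y ω x ^ 2 := by
    have := hf.mul hf
    simpa only [sq] using this
  obtain ⟨a, ha⟩ : ∃ a, a = av ys P w fun y ω x => |f y ω x| := ⟨_, rfl⟩
  obtain ⟨x, hx⟩ : ∃ x, x = av ys P w fun y ω x => f y ω x ^ 2 := ⟨_, rfl⟩
  rw [← ha, ← hx]
  have ha0 : 0 ≤ a := ha ▸ av_nonneg hX hw fun y _ ω x => abs_nonneg _
  have hx0 : 0 ≤ x := hx ▸ av_nonneg hX hw fun y _ ω x => sq_nonneg _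
  rcases ys.eq_empty_or_nonempty with h0 | h0
  · have : a = 0 := by
      rw [ha, h0]
      unfold av
      simp
    rw [this]
    exact Real.sqrt_nonneg _
  -- `0 ≤ av ((|f| - a) ^ 2)`
  have h1 : BM ys fun y ω x => (-(2 * a)) * |f y ω x| := by
    refine ⟨?_, fun y hy x => ((hf.2 y hy x).abs).const_mul _⟩
    obtain ⟨D, hD⟩ := hf.1
    refine ⟨|-(2 * a)| * D, fun y hy ω x => ?_⟩
    rw [abs_mul, abs_abs]
    exact mul_le_mul_of_nonneg_left (hD y hy ω x) (abs_nonneg _)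
  have h2 : BM ys fun (y : ℕ) (_ : Ω) (_ : X y) => a ^ 2 := ⟨⟨|a ^ 2|, fun _ _ _ _ => le_rfl⟩, fun _ _ _ => measurable_const⟩
  have h3 : (0 : ℝ) ≤ av ys P w fun y ω x => (f y ω x ^ 2 + (-(2 * a)) * |f y ω x|) + a ^ 2 := by
    refine av_nonneg hX hw fun y _ ω x => ?_
    have : (f y ω x ^ 2 + (-(2 * a)) * |f y ω x|) + a ^ 2 = (|f y ω x| - a) ^ 2 := by
      rw [← sq_abs (f y ω x)]
      ring
    rw [this]
    exact sq_nonneg _
  rw [av_add hX hw (hsq.add h1) h2, av_add hX hw hsq h1, av_smul hX hw, ← hx, ← ha] at h3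
  have h4 : av ys P w (fun (y : ℕ) (_ : Ω) (_ : X y) => a ^ 2) = a ^ 2 := by
    unfold av
    have e : ∀ y ∈ ys, ∫ ω, gm (w y ω) (fun _ => a ^ 2) ∂P = a ^ 2 := by
      intro y hy
      have := hX y hy
      have e1 : ∀ ω, gm (w y ω) (fun _ => a ^ 2) = a ^ 2 := fun ω => gm_const _ _
      simp only [e1]
      simp
    rw [sum_congr rfl e, sum_const, nsmul_eq_mul, ← mul_assoc, inv_mul_cancel₀, one_mul]
    exact_mod_cast h0.card_ne_zero
  rw [h4] at h3
  refine Real.le_sqrt_of_sq_le ?_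
  nlinarith

end Rules

/-- `x ≤ P + Q √x` gives `x ≤ 2 P + Q ^ 2`. -/
theorem close_sqrt {x p q : ℝ} (hx : 0 ≤ x) (h : x ≤ p + q * Real.sqrt x) : x ≤ 2 * p + q ^ 2 := by
  obtain ⟨r, hr⟩ : ∃ r, r = Real.sqrt x := ⟨_, rfl⟩
  have h2 : r ^ 2 = x := by rw [hr, Real.sq_sqrt hx]
  rw [← hr] at h
  nlinarith [sq_nonneg (r - q)]

section Main

variable (hX : ∀ y ∈ ys, Nonempty (X y)) (hw : ∀ y ∈ ys, ∀ x, Measurable fun ω => w y ω x)

include hX hw

/-- **One row at a time, weighted form.** `S` the rows, `st j` the stretch of the row `j`, `far i k`: the row `k` is far from the stretch `i`. -/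
theorem n38 {S : Finset ℕ} {Y : ℕ → ∀ y, Ω → X y → ℝ} (hY : ∀ j ∈ S, BM ys (Y j)) (st : ℕ → ℕ) (far : ℕ → ℕ → Prop)
    [∀ i k, Decidable (far i k)] {n h : ℕ} {A G e : ℝ} (hG : 0 ≤ G) (he : 0 ≤ e)
    (hn : (S.image st).card ≤ n) (hh : ∀ i, (S.filter fun k => ¬ far i k).card ≤ h)
    (hA : ∀ j ∈ S, av ys P w (fun y ω x => Y j y ω x ^ 2) ≤ A)
    (hrow : ∀ i ∈ S.image st, ∑ j ∈ S.filter (fun j => st j = i),
      av ys P w (fun y ω x => Y j y ω x * ∑ k ∈ S.filter (far i), Y k y ω x) ≤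
        G * av ys P w (fun y ω x => |∑ k ∈ S.filter (far i), Y k y ω x|) + e) :
    av ys P w (fun y ω x => (∑ j ∈ S, Y j y ω x) ^ 2) ≤ 2 * (n * (G * (h * Real.sqrt A) + e) + S.card * h * A) + (n * G) ^ 2 := by
  classical
  rcases S.eq_empty_or_nonempty with hS0 | hS0
  · subst hS0
    have e0 : av ys P w (fun y ω x => (∑ j ∈ (∅ : Finset ℕ), Y j y ω x) ^ 2) = 0 := by
      have e := av_smul (P := P) (w := w) (f := fun _ _ _ => (0 : ℝ)) hX hw 0
      simp only [zero_mul] at e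
      simpa using e
    rw [e0]
    simp only [card_empty, Nat.cast_zero, zero_mul, add_zero]
    have := Real.sqrt_nonneg A
    positivity
  obtain ⟨j₀, hj₀⟩ := hS0
  have hA0 : 0 ≤ A := (av_nonneg hX hw fun y _ ω x => sq_nonneg _).trans (hA j₀ hj₀)
  obtain ⟨x, hx⟩ : ∃ x, x = av ys P w fun y ω x => (∑ j ∈ S, Y j y ω x) ^ 2 := ⟨_, rfl⟩
  have hbF : ∀ i, BM ys fun y ω x => ∑ k ∈ S.filter (far i), Y k y ω x := fun i => BM.sum _ fun k hk => hY k (mem_filter.1 hk).1
  have hbN : ∀ i, BM ys fun y ω x => ∑ k ∈ S.filter (fun k => ¬ far i k), Y k y ω x := fun i =>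
    BM.sum _ fun k hk => hY k (mem_filter.1 hk).1
  have hbD : BM ys fun y ω x => ∑ k ∈ S, Y k y ω x := BM.sum _ hY
  have hx0 : 0 ≤ x := hx ▸ av_nonneg hX hw fun y _ ω x => sq_nonneg _
  -- the first moments
  have h1 : ∀ k ∈ S, av ys P w (fun y ω x => |Y k y ω x|) ≤ Real.sqrt A := fun k hk =>
    (av_abs_le hX hw (hY k hk)).trans (Real.sqrt_le_sqrt (hA k hk))
  -- `av |YF| ≤ √x + h √A`
  have h2 : ∀ i, av ys P w (fun y ω x => |∑ k ∈ S.filter (far i), Y k y ω x|) ≤ Real.sqrt x + h * Real.sqrt A := by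
    intro i
    have e1 : av ys P w (fun y ω x => |∑ k ∈ S.filter (far i), Y k y ω x|) ≤
        av ys P w (fun y ω x => |∑ k ∈ S, Y k y ω x| + ∑ k ∈ S.filter (fun k => ¬ far i k), |Y k y ω x|) := by
      refine av_mono hX hw (hbF i).abs (hbD.abs.add (BM.sum _ fun k hk => (hY k (mem_filter.1 hk).1).abs)) fun y _ ω x => ?_
      have e2 := sum_filter_add_sum_filter_not S (far i) fun k => Y k y ω x
      have e3 : ∑ k ∈ S.filter (far i), Y k y ω x = ∑ k ∈ S, Y k y ω x - ∑ k ∈ S.filter (fun k => ¬ far i k), Y k y ω x := by linarith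
      rw [e3]
      exact (abs_sub _ _).trans (add_le_add le_rfl (abs_sum_le_sum_abs _ _))
    rw [av_add hX hw hbD.abs (BM.sum _ fun k hk => (hY k (mem_filter.1 hk).1).abs),
      av_sum hX hw _ fun k hk => (hY k (mem_filter.1 hk).1).abs] at e1
    have e4 := av_abs_le (P := P) hX hw hbD
    rw [← hx] at e4
    have e5 : ∑ k ∈ S.filter (fun k => ¬ far i k), av ys P w (fun y ω x => |Y k y ω x|) ≤ h * Real.sqrt A := by
      refine (sum_le_card_nsmul _ _ _ fun k hk => h1 k (mem_filter.1 hk).1).trans ?_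
      rw [nsmul_eq_mul]
      exact mul_le_mul_of_nonneg_right (by exact_mod_cast hh i) (Real.sqrt_nonneg _)
    linarith
  -- the near pairs
  have h3 : ∀ j ∈ S, ∀ k ∈ S, av ys P w (fun y ω x => Y j y ω x * Y k y ω x) ≤ A := by
    intro j hj k hk
    have e1 : av ys P w (fun y ω x => Y j y ω x * Y k y ω x) ≤
        av ys P w (fun y ω x => (1 / 2) * Y j y ω x ^ 2 + (1 / 2) * Y k y ω x ^ 2) := by
      refine av_mono hX hw ((hY j hj).mul (hY k hk)) ?_ fun y _ ω x => ?_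
      · have s1 : ∀ k ∈ S, BM ys fun y ω x => (1 / 2) * Y k y ω x ^ 2 := fun k hk => by
          have hc : BM ys fun (y : ℕ) (_ : Ω) (_ : X y) => (1 / 2 : ℝ) := ⟨⟨|1 / 2|, fun _ _ _ _ => le_rfl⟩, fun _ _ _ => measurable_const⟩
          have := hc.mul ((hY k hk).mul (hY k hk))
          simpa only [sq] using this
        exact (s1 j hj).add (s1 k hk)
      · nlinarith [sq_nonneg (Y j y ω x - Y k y ω x)]
    have s1 : ∀ k ∈ S, BM ys fun y ω x => (1 / 2) * Y k y ω x ^ 2 := fun k hk => by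
      have hc : BM ys fun (y : ℕ) (_ : Ω) (_ : X y) => (1 / 2 : ℝ) := ⟨⟨|1 / 2|, fun _ _ _ _ => le_rfl⟩, fun _ _ _ => measurable_const⟩
      have := hc.mul ((hY k hk).mul (hY k hk))
      simpa only [sq] using this
    rw [av_add hX hw (s1 j hj) (s1 k hk), av_smul hX hw, av_smul hX hw] at e1
    linarith [hA j hj, hA k hk]
  -- the identity
  have h4 : x = ∑ i ∈ S.image st, (∑ j ∈ S.filter (fun j => st j = i),
      av ys P w (fun y ω x => Y j y ω x * ∑ k ∈ S.filter (far i), Y k y ω x) +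
        ∑ j ∈ S.filter (fun j => st j = i), ∑ k ∈ S.filter (fun k => ¬ far i k), av ys P w (fun y ω x => Y j y ω x * Y k y ω x)) := by
    have e1 : (fun (y : ℕ) (ω : Ω) (x : X y) => (∑ j ∈ S, Y j y ω x) ^ 2) =
        fun y ω x => ∑ j ∈ S, Y j y ω x * ∑ k ∈ S, Y k y ω x := by
      funext y ω x
      rw [sq, sum_mul]
    rw [hx, e1, av_sum hX hw _ fun j hj => (hY j hj).mul hbD]
    rw [← sum_fiberwise_of_maps_to (g := st) (t := S.image st) fun j hj => mem_image_of_mem _ hj]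
    refine sum_congr rfl fun i _ => ?_
    rw [← sum_add_distrib]
    refine sum_congr rfl fun j hj => ?_
    have hj' := (mem_filter.1 hj).1
    have e2 : (fun (y : ℕ) (ω : Ω) (x : X y) => Y j y ω x * ∑ k ∈ S, Y k y ω x) =
        fun y ω x => Y j y ω x * (∑ k ∈ S.filter (far i), Y k y ω x) +
          ∑ k ∈ S.filter (fun k => ¬ far i k), Y j y ω x * Y k y ω x := by
      funext y ω x
      rw [← mul_sum, ← mul_add, sum_filter_add_sum_filter_not]
    rw [e2, av_add hX hw ((hY j hj').mul (hbF i)) (BM.sum _ fun k hk => (hY j hj').mul (hY k (mem_filter.1 hk).1)),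
      av_sum hX hw _ fun k hk => (hY j hj').mul (hY k (mem_filter.1 hk).1)]
  have h5 : ∀ i ∈ S.image st, ∑ j ∈ S.filter (fun j => st j = i),
      av ys P w (fun y ω x => Y j y ω x * ∑ k ∈ S.filter (far i), Y k y ω x) +
        ∑ j ∈ S.filter (fun j => st j = i), ∑ k ∈ S.filter (fun k => ¬ far i k), av ys P w (fun y ω x => Y j y ω x * Y k y ω x) ≤
      (G * (Real.sqrt x + h * Real.sqrt A) + e) + (S.filter fun j => st j = i).card * (h * A) := by
    intro i hi
    refine add_le_add ((hrow i hi).trans (add_le_add (mul_le_mul_of_nonneg_left (h2 i) hG) le_rfl)) ?_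
    rw [← nsmul_eq_mul]
    refine sum_le_card_nsmul _ _ _ fun j hj => ?_
    refine (sum_le_card_nsmul _ _ _ fun k hk => h3 j (mem_filter.1 hj).1 k (mem_filter.1 hk).1).trans ?_
    rw [nsmul_eq_mul]
    exact mul_le_mul_of_nonneg_right (by exact_mod_cast hh i) hA0
  have h6 : x ≤ (S.image st).card * (G * (Real.sqrt x + h * Real.sqrt A) + e) + S.card * (h * A) := by
    refine h4.le.trans ((sum_le_sum h5).trans ?_)
    rw [sum_add_distrib, sum_const, nsmul_eq_mul, ← sum_mul]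
    refine add_le_add le_rfl (le_of_eq ?_)
    have e1 : ∑ i ∈ S.image st, ((S.filter fun j => st j = i).card : ℝ) = S.card := by
      have := card_eq_sum_card_image st S
      rw [this]
      push_cast
      rfl
    rw [e1]
  rw [← hx]
  have hsA := Real.sqrt_nonneg A
  have hsx := Real.sqrt_nonneg x
  have h7 : x ≤ (n * (G * (h * Real.sqrt A) + e) + S.card * h * A) + (n * G) * Real.sqrt x := by
    refine h6.trans ?_
    have e1 : ((S.image st).card : ℝ) * (G * (Real.sqrt x + h * Real.sqrt A) + e) ≤ n * (G * (Real.sqrt x + h * Real.sqrt A) + e) :=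
      mul_le_mul_of_nonneg_right (by exact_mod_cast hn) (by positivity)
    refine (add_le_add e1 le_rfl).trans (le_of_eq ?_)
    ring
  exact close_sqrt hx0 h7

end Main

end

end Pool.Agent.W_7d29a1_C0.N38
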