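import Pool.Agent.W_7d29a1_C0.N38B

/-!
MP_7d29a1_pr, [CURV0], leaf E5 (helper23), on `N38B`: THE ASSEMBLY WITH THE LONG LOOPS (helper80 77707). The row bound has one more term
`av (B_i |YF_i|)`, `B_i ≥ 0` (the long loops of the stretch `i`), which is paid by the second moment `av ((∑ B_i)²) ≤ T`: `n38L`, `n38L_rows`.
-/

set_option autoImplicit false
set_option linter.unusedSectionVars false

namespace Pool.Agent.W_7d29a1_C0.N38

open Finset MeasureTheory

noncomputable section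

variable {X : ℕ → Type*} [∀ y, Fintype (X y)] {Ω : Type*} [MeasurableSpace Ω] {ys : Finset ℕ} {P : Measure Ω} [IsProbabilityMeasure P]
  {w f g : ∀ y, Ω → X y → ℝ}

theorem BM.smul (hf : BM ys f) (r : ℝ) : BM ys fun y ω x => r * f y ω x := by
  obtain ⟨⟨D, hD⟩, hm⟩ := hf
  refine ⟨⟨|r| * D, fun y hy ω x => ?_⟩, fun y hy x => (hm y hy x).const_mul _⟩
  rw [abs_mul]
  exact mul_le_mul_of_nonneg_left (hD y hy ω x) (abs_nonneg _)

theorem BM.sq (hf : BM ys f) : BM ys fun y ω x => f y ω x ^ 2 := by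
  have := hf.mul hf
  simpa only [pow_two] using this

section Main

variable (hX : ∀ y ∈ ys, Nonempty (X y)) (hw : ∀ y ∈ ys, ∀ x, Measurable fun ω => w y ω x)

include hX hw

/-- Cauchy-Schwarz. -/
theorem av_cs (hf : BM ys f) (hg : BM ys g) : av ys P w (fun y ω x => f y ω x * g y ω x) ≤
    Real.sqrt (av ys P w fun y ω x => f y ω x ^ 2) * Real.sqrt (av ys P w fun y ω x => g y ω x ^ 2) := by
  obtain ⟨a, ha⟩ : ∃ a, a = av ys P w fun y ω x => f y ω x ^ 2 := ⟨_, rfl⟩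
  obtain ⟨b, hb⟩ : ∃ b, b = av ys P w fun y ω x => g y ω x ^ 2 := ⟨_, rfl⟩
  obtain ⟨c, hc⟩ : ∃ c, c = av ys P w fun y ω x => f y ω x * g y ω x := ⟨_, rfl⟩
  rw [← ha, ← hb, ← hc]
  have ha0 : 0 ≤ a := ha ▸ av_nonneg hX hw fun y _ ω x => sq_nonneg _
  have h1 : ∀ t : ℝ, 0 ≤ b * (t * t) + (-(2 * c)) * t + a := by
    intro t
    have h2 : (0 : ℝ) ≤ av ys P w fun y ω x => ((t * t) * g y ω x ^ 2 + (-(2 * t)) * (f y ω x * g y ω x)) + f y ω x ^ 2 := by
      refine av_nonneg hX hw fun y _ ω x => ?_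
      have : ((t * t) * g y ω x ^ 2 + (-(2 * t)) * (f y ω x * g y ω x)) + f y ω x ^ 2 = (f y ω x - t * g y ω x) ^ 2 := by ring
      rw [this]
      exact sq_nonneg _
    rw [av_add hX hw ((hg.sq.smul (t * t)).add ((hf.mul hg).smul (-(2 * t)))) hf.sq,
      av_add hX hw (hg.sq.smul (t * t)) ((hf.mul hg).smul (-(2 * t))), av_smul hX hw, av_smul hX hw, ← ha, ← hb, ← hc] at h2
    linarith
  have h3 := discrim_le_zero h1
  unfold discrim at h3
  rw [← Real.sqrt_mul ha0]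
  refine (le_abs_self c).trans ?_
  rw [← Real.sqrt_sq_eq_abs]
  refine Real.sqrt_le_sqrt ?_
  nlinarith

/-- **One row at a time, weighted form, with the long loops.** -/
theorem n38L {S : Finset ℕ} {Y : ℕ → ∀ y, Ω → X y → ℝ} (hY : ∀ j ∈ S, BM ys (Y j)) (st : ℕ → ℕ) (far : ℕ → ℕ → Prop)
    [∀ i k, Decidable (far i k)] {n h : ℕ} {A A' G e T : ℝ} (hA0 : 0 ≤ A) (hG : 0 ≤ G) (he : 0 ≤ e)
    (hn : (S.image st).card ≤ n) (hh : ∀ i, (S.filter fun k => ¬ far i k).card ≤ h)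
    (hA : ∀ j ∈ S, av ys P w (fun y ω x => Y j y ω x ^ 2) ≤ A)
    {B : ℕ → ∀ y, Ω → X y → ℝ} (hB : ∀ i ∈ S.image st, BM ys (B i)) (hB0 : ∀ i, ∀ y ∈ ys, ∀ ω x, 0 ≤ B i y ω x)
    (hT : av ys P w (fun y ω x => (∑ i ∈ S.image st, B i y ω x) ^ 2) ≤ T)
    (hA' : ∀ i ∈ S.image st, av ys P w (fun y ω x => B i y ω x ^ 2) ≤ A')
    (hrow : ∀ i ∈ S.image st, ∑ j ∈ S.filter (fun j => st j = i),
      av ys P w (fun y ω x => Y j y ω x * ∑ k ∈ S.filter (far i), Y k y ω x) ≤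
        G * av ys P w (fun y ω x => |∑ k ∈ S.filter (far i), Y k y ω x|) +
          av ys P w (fun y ω x => B i y ω x * |∑ k ∈ S.filter (far i), Y k y ω x|) + e) :
    av ys P w (fun y ω x => (∑ j ∈ S, Y j y ω x) ^ 2) ≤
      2 * (n * (G * (h * Real.sqrt A) + e) + S.card * h * A + n * (h * (Real.sqrt A' * Real.sqrt A))) + (n * G + Real.sqrt T) ^ 2 := by
  classical
  obtain ⟨x, hx⟩ : ∃ x, x = av ys P w fun y ω x => (∑ j ∈ S, Y j y ω x) ^ 2 := ⟨_, rfl⟩
  have hbF : ∀ i, BM ys fun y ω x => ∑ k ∈ S.filter (far i), Y k y ω x := fun i => BM.sum _ fun k hk => hY k (mem_filter.1 hk).1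
  have hbD : BM ys fun y ω x => ∑ k ∈ S, Y k y ω x := BM.sum _ hY
  have hx0 : 0 ≤ x := hx ▸ av_nonneg hX hw fun y _ ω x => sq_nonneg _
  have hsA := Real.sqrt_nonneg A
  have hsA' := Real.sqrt_nonneg A'
  have hsx := Real.sqrt_nonneg x
  have hsT := Real.sqrt_nonneg T
  -- the long loops
  have h1 : ∀ i ∈ S.image st, av ys P w (fun y ω x => B i y ω x * |∑ k ∈ S.filter (far i), Y k y ω x|) ≤
      av ys P w (fun y ω x => B i y ω x * |∑ k ∈ S, Y k y ω x|) + h * (Real.sqrt A' * Real.sqrt A) := by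
    intro i hi
    have hbk : ∀ k ∈ S.filter (fun k => ¬ far i k), BM ys fun y ω x => B i y ω x * |Y k y ω x| := fun k hk =>
      (hB i hi).mul (hY k (mem_filter.1 hk).1).abs
    have e1 : av ys P w (fun y ω x => B i y ω x * |∑ k ∈ S.filter (far i), Y k y ω x|) ≤
        av ys P w (fun y ω x => B i y ω x * |∑ k ∈ S, Y k y ω x| + ∑ k ∈ S.filter (fun k => ¬ far i k), B i y ω x * |Y k y ω x|) := by
      refine av_mono hX hw ((hB i hi).mul (hbF i).abs) (((hB i hi).mul hbD.abs).add (BM.sum _ hbk)) fun y hy ω x => ?_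
      have e2 := sum_filter_add_sum_filter_not S (far i) fun k => Y k y ω x
      have e3 : ∑ k ∈ S.filter (far i), Y k y ω x = ∑ k ∈ S, Y k y ω x - ∑ k ∈ S.filter (fun k => ¬ far i k), Y k y ω x := by linarith
      rw [e3, ← mul_sum, ← mul_add]
      refine mul_le_mul_of_nonneg_left ?_ (hB0 i y hy ω x)
      exact (abs_sub _ _).trans (add_le_add le_rfl (abs_sum_le_sum_abs _ _))
    rw [av_add hX hw ((hB i hi).mul hbD.abs) (BM.sum _ hbk), av_sum hX hw _ hbk] at e1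
    refine e1.trans (add_le_add le_rfl ?_)
    have e4 : ∀ k ∈ S.filter (fun k => ¬ far i k), av ys P w (fun y ω x => B i y ω x * |Y k y ω x|) ≤ Real.sqrt A' * Real.sqrt A := by
      intro k hk
      have hk' := (mem_filter.1 hk).1
      refine (av_cs hX hw (hB i hi) (hY k hk').abs).trans ?_
      refine mul_le_mul (Real.sqrt_le_sqrt (hA' i hi)) (Real.sqrt_le_sqrt ?_) (Real.sqrt_nonneg _) hsA'
      simp only [sq_abs]
      exact hA k hk'
    refine (sum_le_card_nsmul _ _ _ e4).trans ?_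
    rw [nsmul_eq_mul]
    exact mul_le_mul_of_nonneg_right (by exact_mod_cast hh i) (by positivity)
  have h2 : ∑ i ∈ S.image st, av ys P w (fun y ω x => B i y ω x * |∑ k ∈ S, Y k y ω x|) ≤ Real.sqrt T * Real.sqrt x := by
    rw [← av_sum hX hw _ fun i hi => (hB i hi).mul hbD.abs]
    have e1 : av ys P w (fun y ω x => ∑ i ∈ S.image st, B i y ω x * |∑ k ∈ S, Y k y ω x|) =
        av ys P w (fun y ω x => (∑ i ∈ S.image st, B i y ω x) * |∑ k ∈ S, Y k y ω x|) := by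
      congr 1
      funext y ω x
      rw [sum_mul]
    rw [e1]
    refine (av_cs hX hw (BM.sum _ hB) hbD.abs).trans ?_
    refine mul_le_mul (Real.sqrt_le_sqrt hT) (Real.sqrt_le_sqrt ?_) (Real.sqrt_nonneg _) hsT
    simp only [sq_abs]
    exact hx.ge
  -- the other terms: as in `n38`, for the difference
  have hbN : ∀ i, BM ys fun y ω x => ∑ k ∈ S.filter (fun k => ¬ far i k), Y k y ω x := fun i =>
    BM.sum _ fun k hk => hY k (mem_filter.1 hk).1
  have h3 : ∀ k ∈ S, av ys P w (fun y ω x => |Y k y ω x|) ≤ Real.sqrt A := fun k hk =>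
    (av_abs_le hX hw (hY k hk)).trans (Real.sqrt_le_sqrt (hA k hk))
  have h4 : ∀ i, av ys P w (fun y ω x => |∑ k ∈ S.filter (far i), Y k y ω x|) ≤ Real.sqrt x + h * Real.sqrt A := by
    intro i
    have e1 : av ys P w (fun y ω x => |∑ k ∈ S.filter (far i), Y k y ω x|) ≤
        av ys P w (fun y ω x => |∑ k ∈ S, Y k y ω x| + ∑ k ∈ S.filter (fun k => ¬ far i k), |Y k y ω x|) := by
      refine av_mono hX hw (hbF i).abs (hbD.abs.add (BM.sum _ fun k hk => (hY k (mem_filter.1 hk).1).abs)) fun y _ ω x => ?_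
      have e2 := sum_filter_add_sum_filter_not S (far i) fun k => Y k y ω x
      have e3 : ∑ k ∈ S.filter (far i), Y k y ω x = ∑ k ∈ S, Y k y ω x - ∑ k ∈ S.filter (fun k => ¬ far i k), Y k y ω x := by linarith
      rw [e3]
      exact (abs_sub _ _).trans (add_le_add le_rfl (abs_sum_le_sum_abs _ _))
    rw [av_add hX hw hbD.abs (BM.sum _ fun k hk => (hY k (mem_filter.1 hk).1).abs),
      av_sum hX hw _ fun k hk => (hY k (mem_filter.1 hk).1).abs] at e1
    have e4 := av_abs_le (P := P) hX hw hbD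
    rw [← hx] at e4
    have e5 : ∑ k ∈ S.filter (fun k => ¬ far i k), av ys P w (fun y ω x => |Y k y ω x|) ≤ h * Real.sqrt A := by
      refine (sum_le_card_nsmul _ _ _ fun k hk => h3 k (mem_filter.1 hk).1).trans ?_
      rw [nsmul_eq_mul]
      exact mul_le_mul_of_nonneg_right (by exact_mod_cast hh i) hsA
    linarith
  have h5 : ∀ j ∈ S, ∀ k ∈ S, av ys P w (fun y ω x => Y j y ω x * Y k y ω x) ≤ A := by
    intro j hj k hk
    refine (av_cs hX hw (hY j hj) (hY k hk)).trans ?_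
    refine (mul_le_mul (Real.sqrt_le_sqrt (hA j hj)) (Real.sqrt_le_sqrt (hA k hk)) (Real.sqrt_nonneg _) hsA).trans (le_of_eq ?_)
    exact Real.mul_self_sqrt hA0
  have h6 : x = ∑ i ∈ S.image st, (∑ j ∈ S.filter (fun j => st j = i),
      av ys P w (fun y ω x => Y j y ω x * ∑ k ∈ S.filter (far i), Y k y ω x) +
        ∑ j ∈ S.filter (fun j => st j = i), ∑ k ∈ S.filter (fun k => ¬ far i k), av ys P w (fun y ω x => Y j y ω x * Y k y ω x)) := by
    have e1 : (fun (y : ℕ) (ω : Ω) (x : X y) => (∑ j ∈ S, Y j y ω x) ^ 2) =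
        fun y ω x => ∑ j ∈ S, Y j y ω x * ∑ k ∈ S, Y k y ω x := by
      funext y ω x
      rw [sq, sum_mul]
    rw [hx, e1, av_sum hX hw _ fun j hj => (hY j hj).mul hbD]
    rw [← sum_fiberwise_of_maps_to (g := st) (t := S.image st) fun j hj => mem_image_of_mem _ hj]
    refine sum_congr rfl fun i _ => ?_
    rw [← sum_add_distrib]
    refine sum_congr rfl fun j hj => ?_
    have hj' := (mem_filter.1 hj).1
    have e2 : (fun (y : ℕ) (ω : Ω) (x : X y) => Y j y ω x * ∑ k ∈ S, Y k y ω x) =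
        fun y ω x => Y j y ω x * (∑ k ∈ S.filter (far i), Y k y ω x) +
          ∑ k ∈ S.filter (fun k => ¬ far i k), Y j y ω x * Y k y ω x := by
      funext y ω x
      rw [← mul_sum, ← mul_add, sum_filter_add_sum_filter_not]
    rw [e2, av_add hX hw ((hY j hj').mul (hbF i)) (BM.sum _ fun k hk => (hY j hj').mul (hY k (mem_filter.1 hk).1)),
      av_sum hX hw _ fun k hk => (hY j hj').mul (hY k (mem_filter.1 hk).1)]
  have h7 : ∀ i ∈ S.image st, ∑ j ∈ S.filter (fun j => st j = i),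
      av ys P w (fun y ω x => Y j y ω x * ∑ k ∈ S.filter (far i), Y k y ω x) +
        ∑ j ∈ S.filter (fun j => st j = i), ∑ k ∈ S.filter (fun k => ¬ far i k), av ys P w (fun y ω x => Y j y ω x * Y k y ω x) ≤
      ((G * (Real.sqrt x + h * Real.sqrt A) + e + h * (Real.sqrt A' * Real.sqrt A)) +
        av ys P w (fun y ω x => B i y ω x * |∑ k ∈ S, Y k y ω x|)) + (S.filter fun j => st j = i).card * (h * A) := by
    intro i hi
    refine add_le_add ?_ ?_
    · have e1 := hrow i hi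
      have e2 := mul_le_mul_of_nonneg_left (h4 i) hG
      have e3 := h1 i hi
      linarith
    · rw [← nsmul_eq_mul]
      refine sum_le_card_nsmul _ _ _ fun j hj => ?_
      refine (sum_le_card_nsmul _ _ _ fun k hk => h5 j (mem_filter.1 hj).1 k (mem_filter.1 hk).1).trans ?_
      rw [nsmul_eq_mul]
      exact mul_le_mul_of_nonneg_right (by exact_mod_cast hh i) hA0
  have h8 : x ≤ (S.image st).card * (G * (Real.sqrt x + h * Real.sqrt A) + e + h * (Real.sqrt A' * Real.sqrt A)) +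
      Real.sqrt T * Real.sqrt x + S.card * (h * A) := by
    refine h6.le.trans ((sum_le_sum h7).trans ?_)
    rw [sum_add_distrib, sum_add_distrib, sum_const, nsmul_eq_mul, ← sum_mul]
    refine add_le_add (add_le_add le_rfl h2) (le_of_eq ?_)
    have e1 : ∑ i ∈ S.image st, ((S.filter fun j => st j = i).card : ℝ) = S.card := by
      have := card_eq_sum_card_image st S
      rw [this]
      push_cast
      rfl
    rw [e1]
  rw [← hx]
  have h9 : x ≤ (n * (G * (h * Real.sqrt A) + e) + S.card * h * A + n * (h * (Real.sqrt A' * Real.sqrt A))) +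
      (n * G + Real.sqrt T) * Real.sqrt x := by
    refine h8.trans ?_
    have e1 : ((S.image st).card : ℝ) * (G * (Real.sqrt x + h * Real.sqrt A) + e + h * (Real.sqrt A' * Real.sqrt A)) ≤
        n * (G * (Real.sqrt x + h * Real.sqrt A) + e + h * (Real.sqrt A' * Real.sqrt A)) :=
      mul_le_mul_of_nonneg_right (by exact_mod_cast hn) (by positivity)
    linarith
  exact close_sqrt hx0 h9

/-- **The rows of a block, with the long loops.** -/
theorem n38L_rows {S : Finset ℕ} {Y : ℕ → ∀ y, Ω → X y → ℝ} (hY : ∀ j ∈ S, BM ys (Y j)) {l H c ρ : ℕ} (hl : 0 < l)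
    (hS : S ⊆ Ico c (c + ρ)) (hρ : l + 2 * H ≤ ρ) {A A₂ G e T : ℝ} (hA0 : 0 ≤ A) (hA20 : 0 ≤ A₂) (hG : 0 ≤ G) (he : 0 ≤ e) (hT0 : 0 ≤ T)
    (hA : ∀ j ∈ S, av ys P w (fun y ω x => Y j y ω x ^ 2) ≤ A)
    {B : ℕ → ∀ y, Ω → X y → ℝ} (hB : ∀ i, BM ys (B i)) (hB0 : ∀ i, ∀ y ∈ ys, ∀ ω x, 0 ≤ B i y ω x)
    (hT : av ys P w (fun y ω x => (∑ i ∈ S.image fun j => j / l, B i y ω x) ^ 2) ≤ T)
    (hA' : ∀ i, av ys P w (fun y ω x => B i y ω x ^ 2) ≤ l ^ 2 * A₂)
    (hrow : ∀ i, ∑ j ∈ S.filter (fun j => j / l = i),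
      av ys P w (fun y ω x => Y j y ω x * ∑ k ∈ S.filter (far38 l H i), Y k y ω x) ≤
        G * av ys P w (fun y ω x => |∑ k ∈ S.filter (far38 l H i), Y k y ω x|) +
          av ys P w (fun y ω x => B i y ω x * |∑ k ∈ S.filter (far38 l H i), Y k y ω x|) + e) :
    av ys P w (fun y ω x => (∑ j ∈ S, Y j y ω x) ^ 2) ≤
      2 * (((ρ / l + 2 : ℕ) : ℝ) * e) + 6 * (ρ * ((l + 2 * H : ℕ) : ℝ) * A) + 3 * (ρ * ((l + 2 * H : ℕ) : ℝ) * A₂) +
        3 * (((ρ / l + 2 : ℕ) : ℝ) * G) ^ 2 + 2 * T := by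
  have h1 := n38L (P := P) (w := w) hX hw hY (fun j => j / l) (far38 l H) hA0 hG he (card_st38 hl hS) (card_near38 l H · S) hA
    (fun i _ => hB i) hB0 hT (fun i _ => hA' i) fun i _ => hrow i
  refine h1.trans ?_
  obtain ⟨n, hn⟩ : ∃ n : ℝ, n = ((ρ / l + 2 : ℕ) : ℝ) := ⟨_, rfl⟩
  obtain ⟨h, hh⟩ : ∃ h : ℝ, h = ((l + 2 * H : ℕ) : ℝ) := ⟨_, rfl⟩
  have hn0 : 0 ≤ n := hn ▸ Nat.cast_nonneg _
  have hh0 : 0 ≤ h := hh ▸ Nat.cast_nonneg _
  have hhρ : h ≤ ρ := hh ▸ (by exact_mod_cast hρ)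
  have hlρ : (l : ℝ) ≤ ρ := by exact_mod_cast (by omega : l ≤ ρ)
  have hl0 : (0 : ℝ) < l := by exact_mod_cast hl
  have hnl : n * l ≤ 3 * ρ := by
    rw [hn]
    have e1 : ρ / l * l ≤ ρ := Nat.div_mul_le_self ρ l
    have e2 : (ρ / l + 2) * l ≤ 3 * ρ := by
      rw [add_mul]
      have : l ≤ ρ := by omega
      omega
    exact_mod_cast e2
  have hcard : (S.card : ℝ) ≤ ρ := by
    have := card_le_card hS
    rw [Nat.card_Ico, Nat.add_sub_cancel_left] at this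
    exact_mod_cast this
  rw [← hn, ← hh]
  have hs0 := Real.sqrt_nonneg A
  have hs2 : Real.sqrt A ^ 2 = A := Real.sq_sqrt hA0
  have ht0 := Real.sqrt_nonneg A₂
  have ht2 : Real.sqrt A₂ ^ 2 = A₂ := Real.sq_sqrt hA20
  have hT2 : Real.sqrt T ^ 2 = T := Real.sq_sqrt hT0
  have e0 : Real.sqrt ((l : ℝ) ^ 2 * A₂) = l * Real.sqrt A₂ := by
    rw [Real.sqrt_mul (by positivity), Real.sqrt_sq hl0.le]
  rw [e0]
  have a1 : 2 * (n * G) * (h * Real.sqrt A) ≤ (n * G) ^ 2 + h ^ 2 * A := by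
    have := sq_nonneg (n * G - h * Real.sqrt A)
    nlinarith
  have a2 : h ^ 2 * A ≤ ρ * h * A := by
    have : h * h ≤ ρ * h := mul_le_mul_of_nonneg_right hhρ hh0
    have := mul_le_mul_of_nonneg_right this hA0
    nlinarith
  have a3 : (S.card : ℝ) * h * A ≤ ρ * h * A :=
    mul_le_mul_of_nonneg_right (mul_le_mul_of_nonneg_right hcard hh0) hA0
  have a4 : 2 * (Real.sqrt A₂ * Real.sqrt A) ≤ A₂ + A := by
    have := sq_nonneg (Real.sqrt A₂ - Real.sqrt A)
    nlinarith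
  have a5 : 2 * (n * (h * (l * Real.sqrt A₂ * Real.sqrt A))) ≤ 3 * ρ * h * (A₂ + A) := by
    have e1 : 2 * (n * (h * (l * Real.sqrt A₂ * Real.sqrt A))) = n * l * (h * (2 * (Real.sqrt A₂ * Real.sqrt A))) := by ring
    rw [e1]
    have e2 : h * (2 * (Real.sqrt A₂ * Real.sqrt A)) ≤ h * (A₂ + A) := mul_le_mul_of_nonneg_left a4 hh0
    have e3 : 0 ≤ h * (A₂ + A) := mul_nonneg hh0 (by positivity)
    have e4 : 0 ≤ n * l := by positivity
    calc n * l * (h * (2 * (Real.sqrt A₂ * Real.sqrt A))) ≤ n * l * (h * (A₂ + A)) := mul_le_mul_of_nonneg_left e2 e4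
      _ ≤ 3 * ρ * (h * (A₂ + A)) := mul_le_mul_of_nonneg_right hnl e3
      _ = _ := by ring
  have a6 : (n * G + Real.sqrt T) ^ 2 ≤ 2 * (n * G) ^ 2 + 2 * T := by
    have := sq_nonneg (n * G - Real.sqrt T)
    nlinarith
  linarith

end Main

end

end Pool.Agent.W_7d29a1_C0.N38
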