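import Pool.Agent.W_7d29a1_C0.N59

/-!
MP_7d29a1_pr, [CURV0] (helper59): THE TOP CLAUSE. `topN59`: from the contracts `CR59`, `FL59` for the position at the row `2 ^ m` and the
root block (`κ = N ^ (- c₁) √(N N ^ Θ)`), the bound of its variance (`Den33`) and the number of the kicked rows: for every `ε > 0`,
eventually in `m`, at the records `N ^ (Θ - c₁) E N ^ 3 ≤ N`: `N ^ (2 - ε) ≤ xsa (root) * E N ^ 3`, `N = 2 ^ m`.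
-/

set_option autoImplicit false

namespace Pool.Agent.W_7d29a1_C0.Mod92

open Finset MeasureTheory Filter Topology Pool.Agent.W_7d29a1_F Pool.Agent.W_7d29a1_X Pool.Agent.W_7d29a1_H

noncomputable section

/-- The arithmetic of the top. -/
theorem top_num59 {N X V D κ e e' r : ℝ} (hN : 0 < N) (hX : 0 ≤ X) (hVD : V ≤ D) (hD : 0 ≤ D) (hr : N / 2 ≤ r)
    (hκ : 0 ≤ κ) (hκD : κ * Real.sqrt D ≤ N / 32) (he : e ≤ N / 32) (he' : e' ≤ 1 / 64)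
    (h : 1 / 2 * r ≤ (Real.sqrt X + κ) * Real.sqrt V + e + 2 * e' * r) : N ^ 2 / 64 ≤ X * D := by
  have h1 : Real.sqrt V ≤ Real.sqrt D := Real.sqrt_le_sqrt hVD
  have h2 : (Real.sqrt X + κ) * Real.sqrt V ≤ Real.sqrt X * Real.sqrt D + N / 32 := by
    calc (Real.sqrt X + κ) * Real.sqrt V ≤ (Real.sqrt X + κ) * Real.sqrt D :=
          mul_le_mul_of_nonneg_left h1 (add_nonneg (Real.sqrt_nonneg X) hκ)
      _ = Real.sqrt X * Real.sqrt D + κ * Real.sqrt D := by ring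
      _ ≤ _ := by linarith
  have h3 : 2 * e' * r ≤ 1 / 32 * r := by nlinarith
  have h4 : N / 8 ≤ Real.sqrt X * Real.sqrt D := by linarith
  have h5 : (N / 8) ^ 2 ≤ (Real.sqrt X * Real.sqrt D) ^ 2 := pow_le_pow_left₀ (by positivity) h4 2
  rw [mul_pow, Real.sq_sqrt hX, Real.sq_sqrt hD] at h5
  linarith

theorem pow_ev59 {a : ℝ} (ha : 0 < a) (K : ℝ) : ∀ᶠ m : ℕ in atTop, K ≤ ((2 ^ m : ℕ) : ℝ) ^ a := by
  have h1 : Tendsto (fun m : ℕ => ((2 ^ m : ℕ) : ℝ)) atTop atTop :=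
    tendsto_natCast_atTop_atTop.comp (tendsto_pow_atTop_atTop_of_one_lt one_lt_two)
  exact ((tendsto_rpow_atTop ha).comp h1).eventually_ge_atTop K

/-- Half of the rows of the root are kicked. -/
theorem card_Kr_half {m : ℕ} {ρ : ℝ} (hρ : 0 ≤ ρ) (h : 4 * ((m : ℝ) + 1) * ρ ≤ 1) :
    ((2 ^ m : ℕ) : ℝ) / 2 ≤ ((Rw (Kr (2 ^ m) m ρ) 0 (2 ^ m)).card : ℝ) := by
  have h1 := card_Kr (m := m) hρ
  have h2 : (0 : ℝ) < 2 ^ m := by positivity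
  push_cast
  nlinarith

theorem card_Kr_ev {a : ℝ} (ha : 0 < a) : ∀ᶠ m : ℕ in atTop,
    ((2 ^ m : ℕ) : ℝ) / 2 ≤ ((Rw (Kr (2 ^ m) m (((2 ^ m : ℕ) : ℝ) ^ (-a))) 0 (2 ^ m)).card : ℝ) := by
  have h1 : Tendsto (fun m : ℕ => ((m : ℝ) + 1) * ((2 : ℝ) ^ (-a)) ^ m) atTop (𝓝 0) := by
    have hr : |(2 : ℝ) ^ (-a)| < 1 := by
      rw [abs_of_pos (by positivity)]
      exact Real.rpow_lt_one_of_one_lt_of_neg one_lt_two (by linarith)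
    have h2 := tendsto_self_mul_const_pow_of_abs_lt_one hr
    have h3 := tendsto_pow_atTop_nhds_zero_of_abs_lt_one hr
    have h4 := h2.add h3
    rw [add_zero] at h4
    refine h4.congr fun m => ?_
    ring
  have h5 : ∀ᶠ m : ℕ in atTop, ((m : ℝ) + 1) * ((2 : ℝ) ^ (-a)) ^ m < 1 / 4 := h1.eventually_lt_const (by norm_num)
  filter_upwards [h5] with m hm
  have e1 : ((2 ^ m : ℕ) : ℝ) ^ (-a) = ((2 : ℝ) ^ (-a)) ^ m := by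
    push_cast
    rw [← Real.rpow_natCast ((2 : ℝ) ^ (-a)) m, ← Real.rpow_natCast 2 m, ← Real.rpow_mul two_pos.le, ← Real.rpow_mul two_pos.le,
      mul_comm]
  refine card_Kr_half (by positivity) ?_
  rw [e1]
  linarith

variable {μ : Measure ℝ} {s : ℝ}

/-- **THE TOP CLAUSE** at one `m`. -/
theorem top_pt59 [IsProbabilityMeasure μ] {E : ℕ → ℝ} {m : ℕ} (hEm : 0 < E (2 ^ m)) {L : ℕ} {ys : Finset ℕ} {dl B : ℝ}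
    {R : Finset ℕ} {b0 b σ : ℕ} {Θ c₁ ε a e e' : ℝ} (ha1 : a ≤ ε / 2) (ha2 : a ≤ c₁ / 2)
    (hys : ∀ y ∈ ys, y ≤ L) (hB : 0 ≤ B) (hσ : 0 < σ) (hσm : σ ∣ 2 ^ m) (h5 : 32 ≤ ((2 ^ m : ℕ) : ℝ) ^ (c₁ / 4))
    (h7 : 64 ≤ ((2 ^ m : ℕ) : ℝ) ^ (ε / 2)) (h0 : ((2 ^ m : ℕ) : ℝ) ^ (Θ - c₁) * E (2 ^ m) ^ 3 ≤ ((2 ^ m : ℕ) : ℝ))
    (h1 : ((2 ^ m : ℕ) : ℝ) / 2 ≤ ((Rw R 0 (2 ^ m)).card : ℝ)) (he : e ≤ ((2 ^ m : ℕ) : ℝ) / 32) (he' : e' ≤ 1 / 64)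
    (h2 : CR59 μ s L ys dl B b0 b σ R 0 (2 ^ m) (((2 ^ m : ℕ) : ℝ) ^ (-c₁) * √(2 ^ m * ((2 ^ m : ℕ) : ℝ) ^ Θ)) e (Sn L (2 ^ m)))
    (h3 : FL59 μ s L ys dl B b0 b σ R 0 (2 ^ m) (1 / 2) e' (Sn L (2 ^ m)))
    (h4 : avy ys (varF μ s L (Sn L (2 ^ m))) ≤ ((2 ^ m : ℕ) : ℝ) ^ a * E (2 ^ m) ^ 3) :
    ((2 ^ m : ℕ) : ℝ) ^ (2 - ε) ≤ xsa μ s L ys dl B b σ R 0 (2 ^ m) * E (2 ^ m) ^ 3 := by
  obtain ⟨N, hNdef⟩ : ∃ N : ℝ, N = ((2 ^ m : ℕ) : ℝ) := ⟨_, rfl⟩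
  have hN2 : (2 : ℝ) ^ m = N := by
    rw [hNdef]
    push_cast
    rfl
  rw [← hNdef] at h0 h1 h4 h5 h7 h2 he ⊢
  rw [hN2] at h2
  have hN1 : (1 : ℝ) ≤ N := by
    rw [hNdef]
    exact_mod_cast Nat.one_le_two_pow
  have hN0 : (0 : ℝ) < N := by linarith
  have hE3 : 0 < E (2 ^ m) ^ 3 := by positivity
  have key := top59 (μ := μ) (s := s) hys hB hσ R hσm h2 h3
  have hX : 0 ≤ xsa μ s L ys dl B b σ R 0 (2 ^ m) := by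
    refine avy_nonneg fun y hy => ?_
    have := ne_Pn (hys y hy)
    exact integral_nonneg fun ω => Pool.W7d29a1.C0.VT31.gv_nonneg _ _
  have hD : 0 ≤ N ^ a * E (2 ^ m) ^ 3 := by positivity
  have hκ : 0 ≤ N ^ (-c₁) * √(N * N ^ Θ) := by positivity
  have hκD : N ^ (-c₁) * √(N * N ^ Θ) * Real.sqrt (N ^ a * E (2 ^ m) ^ 3) ≤ N / 32 := by
    have e1 : √(N * N ^ Θ) * Real.sqrt (N ^ a * E (2 ^ m) ^ 3) ≤ N ^ (1 + c₁ / 2 + a / 2) := by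
      rw [← Real.sqrt_mul (by positivity)]
      refine Real.sqrt_le_iff.2 ⟨by positivity, ?_⟩
      have f1 : E (2 ^ m) ^ 3 ≤ N * N ^ (c₁ - Θ) := by
        have f2 : N ^ (c₁ - Θ) * (N ^ (Θ - c₁) * E (2 ^ m) ^ 3) ≤ N ^ (c₁ - Θ) * N := mul_le_mul_of_nonneg_left h0 (by positivity)
        have f3 : N ^ (c₁ - Θ) * N ^ (Θ - c₁) = 1 := by
          rw [← Real.rpow_add hN0]
          rw [show c₁ - Θ + (Θ - c₁) = 0 by ring, Real.rpow_zero]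
        calc E (2 ^ m) ^ 3 = N ^ (c₁ - Θ) * N ^ (Θ - c₁) * E (2 ^ m) ^ 3 := by rw [f3, one_mul]
          _ = N ^ (c₁ - Θ) * (N ^ (Θ - c₁) * E (2 ^ m) ^ 3) := by ring
          _ ≤ N ^ (c₁ - Θ) * N := f2
          _ = N * N ^ (c₁ - Θ) := mul_comm _ _
      calc N * N ^ Θ * (N ^ a * E (2 ^ m) ^ 3) ≤ N * N ^ Θ * (N ^ a * (N * N ^ (c₁ - Θ))) := by gcongr
        _ = N ^ (1 : ℝ) * N ^ Θ * (N ^ a * (N ^ (1 : ℝ) * N ^ (c₁ - Θ))) := by rw [Real.rpow_one]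
        _ = (N ^ (1 + c₁ / 2 + a / 2)) ^ 2 := by
          rw [← Real.rpow_natCast (N ^ (1 + c₁ / 2 + a / 2)) 2, ← Real.rpow_mul hN0.le, ← Real.rpow_add hN0, ← Real.rpow_add hN0,
            ← Real.rpow_add hN0, ← Real.rpow_add hN0]
          congr 1
          push_cast
          ring
    have e2 : N ^ (-c₁) * N ^ (1 + c₁ / 2 + a / 2) * 32 ≤ N := by
      calc N ^ (-c₁) * N ^ (1 + c₁ / 2 + a / 2) * 32 ≤ N ^ (-c₁) * N ^ (1 + c₁ / 2 + a / 2) * N ^ (c₁ / 4) :=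
            mul_le_mul_of_nonneg_left h5 (by positivity)
        _ = N ^ (-c₁ + (1 + c₁ / 2 + a / 2) + c₁ / 4) := by rw [← Real.rpow_add hN0, ← Real.rpow_add hN0]
        _ ≤ N ^ (1 : ℝ) := Real.rpow_le_rpow_of_exponent_le hN1 (by linarith)
        _ = N := Real.rpow_one N
    have e3 : N ^ (-c₁) * (√(N * N ^ Θ) * Real.sqrt (N ^ a * E (2 ^ m) ^ 3)) ≤ N ^ (-c₁) * N ^ (1 + c₁ / 2 + a / 2) :=
      mul_le_mul_of_nonneg_left e1 (by positivity)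
    rw [mul_assoc]
    linarith
  have h8 := top_num59 hN0 hX h4 hD h1 hκ hκD he he' key
  have h9 : N ^ (2 - ε) * N ^ a ≤ N ^ 2 / 64 := by
    have e1 : N ^ (2 - ε) * N ^ a * 64 ≤ N ^ (2 - ε) * N ^ a * N ^ (ε / 2) := mul_le_mul_of_nonneg_left h7 (by positivity)
    have e2 : N ^ (2 - ε) * N ^ a * N ^ (ε / 2) ≤ N ^ 2 := by
      rw [← Real.rpow_add hN0, ← Real.rpow_add hN0, ← Real.rpow_natCast N 2]
      exact Real.rpow_le_rpow_of_exponent_le hN1 (by push_cast; linarith)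
    linarith
  have h10 : N ^ a * N ^ (2 - ε) ≤ N ^ a * (xsa μ s L ys dl B b σ R 0 (2 ^ m) * E (2 ^ m) ^ 3) := by
    calc N ^ a * N ^ (2 - ε) = N ^ (2 - ε) * N ^ a := by ring
      _ ≤ _ := h9
      _ ≤ _ := h8
      _ = _ := by ring
  exact le_of_mul_le_mul_left h10 (by positivity)

/-- **THE TOP CLAUSE.** -/
theorem topN59 [IsProbabilityMeasure μ] {E : ℕ → ℝ} (hE : ∀ n, 0 < E n) {L : ℕ → ℕ} {ys : ℕ → Finset ℕ} {dl : ℝ} {Bf : ℕ → ℝ}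
    {R : ℕ → Finset ℕ} {Cond : ℕ → ℕ → Prop} {b0 σ : ℕ → ℕ → ℕ} {Θ c₁ : ℝ} (hc₁ : 0 < c₁)
    (hys : ∀ m, ∀ y ∈ ys m, y ≤ L m) (hB : ∀ m, 0 ≤ Bf m) (hσ : ∀ m p, Cond m p → σ m p ≤ m)
    (hrec : ∀ m p, Cond m p → ((2 ^ m : ℕ) : ℝ) ^ (Θ - c₁) * E (2 ^ m) ^ 3 ≤ ((2 ^ m : ℕ) : ℝ))
    (hR : ∀ᶠ m : ℕ in atTop, ((2 ^ m : ℕ) : ℝ) / 2 ≤ ((Rw (R m) 0 (2 ^ m)).card : ℝ))
    (hCR : ∀ᶠ m : ℕ in atTop, ∀ p, Cond m p → CR59 μ s (L m) (ys m) dl (Bf m) (b0 m p) (2 ^ p) (2 ^ σ m p) (R m) 0 (2 ^ m)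
      (((2 ^ m : ℕ) : ℝ) ^ (-c₁) * √(2 ^ m * ((2 ^ m : ℕ) : ℝ) ^ Θ)) 1 (Sn (L m) (2 ^ m)))
    (hFL : ∀ᶠ m : ℕ in atTop, ∀ p, Cond m p → FL59 μ s (L m) (ys m) dl (Bf m) (b0 m p) (2 ^ p) (2 ^ σ m p) (R m) 0 (2 ^ m)
      (1 / 2) (((2 ^ m : ℕ) : ℝ) ^ (-1 : ℝ)) (Sn (L m) (2 ^ m)))
    (hDen : ∀ ε : ℝ, 0 < ε → ∀ᶠ m : ℕ in atTop, avy (ys m) (varF μ s (L m) (Sn (L m) (2 ^ m))) ≤
      ((2 ^ m : ℕ) : ℝ) ^ ε * E (2 ^ m) ^ 3) :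
    ∀ ε : ℝ, 0 < ε → ∀ᶠ m : ℕ in atTop, ∀ p, Cond m p → ((2 ^ m : ℕ) : ℝ) ^ (2 - ε) ≤
      xsa μ s (L m) (ys m) dl (Bf m) (2 ^ p) (2 ^ σ m p) (R m) 0 (2 ^ m) * E (2 ^ m) ^ 3 := by
  intro ε hε
  obtain ⟨a, ha, ha1, ha2⟩ : ∃ a : ℝ, 0 < a ∧ a ≤ ε / 2 ∧ a ≤ c₁ / 2 :=
    ⟨min (ε / 2) (c₁ / 2), lt_min (by linarith) (by linarith), min_le_left _ _, min_le_right _ _⟩
  filter_upwards [hR, hCR, hFL, hDen a ha, pow_ev59 (show 0 < c₁ / 4 by linarith) 32, pow_ev59 (show (0 : ℝ) < 1 by norm_num) 64,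
    pow_ev59 (show 0 < ε / 2 by linarith) 64] with m h1 h2 h3 h4 h5 h6 h7 p hp
  rw [Real.rpow_one] at h6
  refine top_pt59 (hE _) ha1 ha2 (hys m) (hB m) (Nat.two_pow_pos (σ m p)) (pow_dvd_pow 2 (hσ m p hp)) h5 h7 (hrec m p hp) h1
    (by linarith) ?_ (h2 p hp) (h3 p hp) h4
  rw [Real.rpow_neg_one, one_div]
  exact inv_anti₀ (by norm_num) h6

end

end Pool.Agent.W_7d29a1_C0.Mod92
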