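import Pool.Agent.W_7d29a1_C0.Mod38D
import Pool.Agent.W_7d29a1_C0.Mod92C

/-!
CURV0 (MP_7d29a1_pr), leaf E5.8, helper23 over helper38's `Mod38D`: THE THIRD ORDER PART AGAINST A PASSENGER, AVERAGED FORM. `N5e_av38`: the sum
over the rows of the absolute values of the averages over the signs and the ends is at most `C / 6` if at every tilt the averaged right sides
are together at most `C`.
-/

set_option autoImplicit false
set_option linter.unusedSectionVars false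
set_option linter.unusedVariables false

namespace Pool.W7d29a1.C0.L38

open Finset Filter Topology MeasureTheory
open Pool.Agent.W_7d29a1_F Pool.Agent.W_7d29a1_C0 Pool.W7d29a1.C0 Pool.W7d29a1.C0.VT31 Pool.W7d29a1.C0.I52
open Pool.Agent.W_7d29a1_C0.Swap57 Pool.Agent.W_7d29a1_C0.H32
open Pool.Agent.W_7d29a1_C0.Mod92 (Px Pn ps ps_zero ps_nonneg ps_le ps_Pn ps_of_le ps_of_ge pJ crs_pJ abs_cE_le meas_cE meas_cC meas_gm lw gj abs_gj meas_lw
  wm Pm int_Pm meas_pair avy ne_Pn)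
open Pool.Agent.W_7d29a1_C0.Base5 (w5 N5e ge5 N1g w5_add pW)

noncomputable section

/-! ### The averages over the signs and the ends -/

section Av

variable {μ : Measure ℝ} [IsProbabilityMeasure μ] {s : ℝ} {N : ℕ} {f f' : ℝ → ℝ}

/-- **THE THIRD ORDER PARTS OF THE ROWS OF A STRETCH AGAINST A PASSENGER, AVERAGED.** `G t j y A` = any bound of both right sides of the row
inequality at the tilt `t`, the end `y` and the signs `A`. -/
theorem N5e_av38 (h : DenLaw μ f f') {K θ0 : ℝ} (hs : SG μ (sc f f') K θ0) (hK : 0 ≤ K) {ys : Finset ℕ} (hys : ∀ y ∈ ys, y ≤ N)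
    {δ B : ℝ} (hB : 1 ≤ B) {b0 b b' : ℕ} (hb : b0 + 6 ≤ b) (hbb : b ≤ b') {T : Finset ℕ} (hT : ∀ j ∈ T, b' ≤ j ∧ j + b' ≤ N)
    {Yf : ∀ y, Env × Finset ℕ → Px (Pn N y) → ℝ} {L : ℝ} (hL : 0 ≤ L)
    (hY : ∀ j ∈ T, ∀ y ∈ ys, ∀ A, Psg N b0 b b' j (fun η => Yf y (η, A)) L)
    {sl R : ℝ} (hR : 1 ≤ R) {θ Λ : ℝ} (hθ : 0 < θ) (hθ1 : θ ≤ 1) (hθ0 : θ ≤ θ0) (hΛ : 0 ≤ Λ) {G : ℝ → ℕ → ℕ → Finset ℕ → ℝ}
    (hG : ∀ t ∈ Set.Icc (-1 : ℝ) 1, ∀ j ∈ T, ∀ y ∈ ys, ∀ (_ : Nonempty (Px (Pn N y))) (A : Finset ℕ),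
      RS38 μ s N (Pn N y) δ B b0 b b' j (Mod92.sg A j) (fun η => Yf y (η, A)) sl R Λ t +
        LS38 μ s N (Pn N y) δ B b0 b b' j (Mod92.sg A j) (fun η => Yf y (η, A)) sl R Λ t ≤ G t j y A) {C : ℝ}
    (hC : ∀ t ∈ Set.Icc (-1 : ℝ) 1, ∑ j ∈ T, avy ys (fun y => (2 ^ N : ℝ)⁻¹ * ∑ A ∈ (range N).powerset, G t j y A) +
      T.card * (2 * tl38 N L R B K θ Λ) ≤ C) :
    ∑ j ∈ T, |avy ys (fun y => ∫ ω, gm (wm μ s N (Pn N y) ω) (fun S => N5e μ s N (Pn N y) δ B b0 b b' ω j S * Yf y ω S) ∂(Pm μ N))| ≤ C / 6 := by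
  classical
  have hB0 : 0 ≤ B := by linarith
  have htl : 0 ≤ tl38 N L R B K θ Λ := by
    unfold tl38
    positivity
  obtain ⟨c, hc⟩ : ∃ c : ℝ, c = (ys.card : ℝ)⁻¹ * (2 ^ N : ℝ)⁻¹ := ⟨_, rfl⟩
  have hc0 : 0 ≤ c := by rw [hc]; positivity
  -- the terms
  obtain ⟨x, hx⟩ : ∃ x : ℕ × Finset ℕ × ℕ → ℝ, x = fun i => ∫ η, gm (lw μ s η N (Pn N i.2.2))
    (fun S => N5e μ s N (Pn N i.2.2) δ B b0 b b' (η, i.2.1) i.1 S * Yf i.2.2 (η, i.2.1) S) ∂(law μ) := ⟨_, rfl⟩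
  obtain ⟨Φ, hΦ⟩ : ∃ Φ : ℕ × Finset ℕ × ℕ → ℝ → ℝ, Φ = fun i t => if hn : Nonempty (Px (Pn N i.2.2)) then
    X38 μ s N (Pn N i.2.2) δ B b0 b b' i.1 (Mod92.sg i.2.1 i.1) (fun η => Yf i.2.2 (η, i.2.1)) t else 0 := ⟨_, rfl⟩
  have hI : ∀ i ∈ T ×ˢ ((range N).powerset ×ˢ ys), i.1 ∈ T ∧ i.2.2 ∈ ys := fun i hi => by
    rw [mem_product, mem_product] at hi
    exact ⟨hi.1, hi.2.2⟩
  have key := avg38_abs (T ×ˢ ((range N).powerset ×ˢ ys)) (fun _ => c) (fun _ _ => hc0) (X := Φ) (I := x) (C := C) (fun i hi => by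
      obtain ⟨h1, h2⟩ := hI i hi
      have hn := ne_Pn (hys _ h2)
      have hP := hY _ h1 _ h2 i.2.1
      have e : Φ i = X38 μ s N (Pn N i.2.2) δ B b0 b b' i.1 (Mod92.sg i.2.1 i.1) (fun η => Yf i.2.2 (η, i.2.1)) := by
        rw [hΦ]
        funext t
        exact dif_pos hn
      rw [e]
      exact cont_X38 hB0 (by omega) hbb (Mod92.abs_sg _ _).le hP.ms hP.bd) (fun i hi => by
      obtain ⟨h1, h2⟩ := hI i hi
      have hn := ne_Pn (hys _ h2)
      have hP := hY _ h1 _ h2 i.2.1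
      have e : ∀ t, Φ i t = X38 μ s N (Pn N i.2.2) δ B b0 b b' i.1 (Mod92.sg i.2.1 i.1) (fun η => Yf i.2.2 (η, i.2.1)) t := fun t => by
        rw [hΦ]
        exact dif_pos hn
      simp only [e]
      rw [hx]
      exact int_N5e38 hB0 (by omega) hbb i.2.1 hP.ms hP.bd) fun t ht => by
      have h3 : ∀ i ∈ T ×ˢ ((range N).powerset ×ˢ ys), c * |Φ i t| ≤ c * (G t i.1 i.2.2 i.2.1 + 2 * tl38 N L R B K θ Λ) := fun i hi => by
        obtain ⟨h1, h2⟩ := hI i hi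
        have hn := ne_Pn (hys _ h2)
        have e : Φ i t = X38 μ s N (Pn N i.2.2) δ B b0 b b' i.1 (Mod92.sg i.2.1 i.1) (fun η => Yf i.2.2 (η, i.2.1)) t := by
          rw [hΦ]
          exact dif_pos hn
        rw [e]
        refine mul_le_mul_of_nonneg_left ?_ hc0
        have h4 := abs_X38 (μ := μ) (s := s) (N := N) (Q := Pn N i.2.2) h hs hK (Blk18.full_Pn N i.2.2) (y := (i.2.2 : ℤ))
          (fun S => ps_Pn S) (δ := δ) hB hb hbb (hT _ h1).1 (hT _ h1).2 (Mod92.abs_sg i.2.1 i.1).le t (hY _ h1 _ h2 i.2.1) (sl := sl) hR hθ hθ1 hθ0 hΛ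
        have h5 := hG t ht _ h1 _ h2 hn i.2.1
        linarith
      refine (sum_le_sum h3).trans (le_trans ?_ (hC t ht))
      rw [sum_product]
      have h4 : ∀ j ∈ T, ∑ z ∈ (range N).powerset ×ˢ ys, c * (G t j z.2 z.1 + 2 * tl38 N L R B K θ Λ) ≤
          avy ys (fun y => (2 ^ N : ℝ)⁻¹ * ∑ A ∈ (range N).powerset, G t j y A) + 2 * tl38 N L R B K θ Λ := fun j _ => by
        rw [sum_product, sum_comm]
        have e1 : ∀ y ∈ ys, ∑ A ∈ (range N).powerset, c * (G t j y A + 2 * tl38 N L R B K θ Λ) =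
            (ys.card : ℝ)⁻¹ * ((2 ^ N : ℝ)⁻¹ * ∑ A ∈ (range N).powerset, G t j y A) + (ys.card : ℝ)⁻¹ * (2 * tl38 N L R B K θ Λ) := fun y _ => by
          have e2 : ∀ A ∈ (range N).powerset, c * (G t j y A + 2 * tl38 N L R B K θ Λ) = c * G t j y A + c * (2 * tl38 N L R B K θ Λ) :=
            fun A _ => mul_add _ _ _
          rw [sum_congr rfl e2, sum_add_distrib, ← mul_sum, sum_const, card_powerset, card_range, nsmul_eq_mul, hc]
          have : (2 ^ N : ℝ) ≠ 0 := by positivity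
          push_cast
          field_simp
        rw [sum_congr rfl e1, sum_add_distrib, ← mul_sum, sum_const, nsmul_eq_mul]
        unfold avy
        have e3 : (ys.card : ℝ) * ((ys.card : ℝ)⁻¹ * (2 * tl38 N L R B K θ Λ)) ≤ 2 * tl38 N L R B K θ Λ := by
          rw [← mul_assoc]
          exact mul_le_of_le_one_left (by positivity) mul_inv_le_one
        linarith
      refine (sum_le_sum h4).trans (le_of_eq ?_)
      rw [sum_add_distrib, sum_const, nsmul_eq_mul]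
  refine le_trans ?_ key
  rw [sum_product]
  refine sum_le_sum fun j hj => ?_
  rw [sum_product, sum_comm]
  unfold avy
  rw [abs_mul, abs_of_nonneg (inv_nonneg.2 (Nat.cast_nonneg _))]
  have h5 : ∀ y ∈ ys, |∫ ω, gm (wm μ s N (Pn N y) ω) (fun S => N5e μ s N (Pn N y) δ B b0 b b' ω j S * Yf y ω S) ∂(Pm μ N)| ≤
      (2 ^ N : ℝ)⁻¹ * ∑ A ∈ (range N).powerset, |x (j, A, y)| := fun y hy => by
    have hn := ne_Pn (hys _ hy)
    have hm : ∀ A : Finset ℕ, Measurable fun η => gm (wm μ s N (Pn N y) (η, A))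
        (fun S => N5e μ s N (Pn N y) δ B b0 b b' (η, A) j S * Yf y (η, A) S) := fun A =>
      meas_gm (fun S => meas_lw S) fun S => ((Base5.meas_N5e δ B b0 hbb j S).comp (meas_pair A)).mul
        ((measurable_pi_apply S).comp (hY j hj y hy A).ms)
    have hi : ∀ A ∈ (range N).powerset, Integrable (fun η => gm (wm μ s N (Pn N y) (η, A))
        (fun S => N5e μ s N (Pn N y) δ B b0 b b' (η, A) j S * Yf y (η, A) S)) (law μ) := fun A _ =>
      (integrable_const (Base5.K5 B * L)).mono' (hm A).aestronglyMeasurable (ae_of_all _ fun η => by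
        rw [Real.norm_eq_abs]
        refine (abs_gm_le' _ _).trans ((gm_mono _ fun S => ?_).trans_eq (gm_const _ _))
        rw [abs_mul]
        exact mul_le_mul (Base5.abs_N5e hB0 b0 hbb (η, A) j S) ((hY j hj y hy A).bd η S) (abs_nonneg _) (Base5.K5_nonneg hB0))
    rw [int_Pm hi hm, abs_mul, abs_of_nonneg (by positivity)]
    refine mul_le_mul_of_nonneg_left ((abs_sum_le_sum_abs _ _).trans (le_of_eq ?_)) (by positivity)
    rw [hx]
    rfl
  calc (ys.card : ℝ)⁻¹ * |∑ y ∈ ys, ∫ ω, gm (wm μ s N (Pn N y) ω) (fun S => N5e μ s N (Pn N y) δ B b0 b b' ω j S * Yf y ω S) ∂(Pm μ N)| ≤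
      (ys.card : ℝ)⁻¹ * ∑ y ∈ ys, (2 ^ N : ℝ)⁻¹ * ∑ A ∈ (range N).powerset, |x (j, A, y)| :=
        mul_le_mul_of_nonneg_left ((abs_sum_le_sum_abs _ _).trans (sum_le_sum h5)) (by positivity)
    _ = ∑ y ∈ ys, ∑ A ∈ (range N).powerset, c * |x (j, A, y)| := by
        rw [hc, mul_sum]
        refine sum_congr rfl fun y _ => ?_
        rw [← mul_assoc, mul_sum]

end Av

end

end Pool.W7d29a1.C0.L38
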