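import Pool.Agent.W_7d29a1_C0.Own1C

/-!
MP_7d29a1_pr, [CURV0] / [C0], leaf E5.8 (helper1): THE REMAINDERS (inj), (sh) OF THE ROW INEQUALITY, PATHWISE, part 1: exchanges.

`Ex w t u`: the exchange of the piece `[t, u)` keeps the sum of the weights. `ex_core`: exchange between the fibres of two conditions.
`ex_pair`: between two replicas of one fibre. `cE_loc`: a conditional mean given the outside of `[a, r)` depends on the path only through
its piece over `[a, r]`. `sh_R`, `sh_L`: an own pair and a factor at a third replica of the same fibre: the factor moves to a path with its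
own tie. `oscR`, `oscL`: a resample with another value of `g` costs an oscillation of `g` in the window or a long tie.
-/

set_option autoImplicit false
set_option linter.unusedSectionVars false

namespace Pool.W7d29a1.C0.NN1

open Finset MeasureTheory Pool.Agent.W_7d29a1_C0.Swap57 Pool.Agent.W_7d29a1_C0 Pool.Agent.W_7d29a1_C0.Mod92
open Pool.Agent.W_7d29a1_F Pool.Agent.W_7d29a1_X
open Pool.W7d29a1.C0 Pool.W7d29a1.C0.VT31 Pool.W7d29a1.C0.R43 Pool.W7d29a1.C0.S1 Pool.W7d29a1.C0.K1 Pool.W7d29a1.C0.O1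

noncomputable section

variable {μ : Measure ℝ} {s : ℝ} {N : ℕ} {Q : Finset (Finset ℕ)}
variable {Y Z : Type*} [DecidableEq Y] [DecidableEq Z]

/-! ### Exchanges -/

/-- The exchange of the piece `[t, u)` keeps the sum of the weights. -/
def Ex (w : Px Q → ℝ) (t u : ℕ) : Prop :=
  ∀ S T : Px Q, Eqp S T t → Eqp S T u → w (swP t u S T) + w (swP t u T S) = w S + w T

theorem Ex.add {w w' : Px Q → ℝ} {t u : ℕ} (h : Ex w t u) (h' : Ex w' t u) : Ex (w + w') t u := fun S T h1 h2 => by
  have a := h S T h1 h2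
  have b := h' S T h1 h2
  simp only [Pi.add_apply]
  linarith

theorem Ex.smul {w : Px Q → ℝ} {t u : ℕ} (h : Ex w t u) (k : ℝ) : Ex (k • w) t u := fun S T h1 h2 => by
  have a := h S T h1 h2
  simp only [Pi.smul_apply, smul_eq_mul]
  rw [← mul_add, a, mul_add]

theorem ex_lw [SwQ Q] (η : Env) {t u : ℕ} (htu : t ≤ u) : Ex (lw μ s η N Q) t u := fun _ _ h1 h2 => lw_swP η htu h1 h2

theorem ex_Lk [SwQ Q] {al be t u : ℕ} {g : Px Q → ℝ} (hg : Lk al be g) (htu : t ≤ u) (h1 : t ≤ al) (h2 : be ≤ u) : Ex g t u :=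
  fun S T h3 h4 => by
    rw [hg (swP t u S T) T fun i hi hi' => ps_swP_mid htu h3 h4 (h1.trans hi) (hi'.trans h2),
      hg (swP t u T S) S fun i hi hi' => ps_swP_mid htu (Eq.symm h3) (Eq.symm h4) (h1.trans hi) (hi'.trans h2), add_comm]

theorem ps_sw_le [SwQ Q] {t u : ℕ} {S T : Px Q} (htu : t ≤ u) (h1 : Eqp S T t) (h2 : Eqp S T u) {i : ℕ} (hi : i ≤ t) :
    ps (swP t u S T) i = ps S i := by
  rcases ps_swP htu h1 h2 i with ⟨h3, -, -⟩ | ⟨h3, -, h4, -⟩
  · exact h3
  · have : i = t := le_antisymm hi h4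
    subst this
    rw [h3]
    exact Eq.symm h1

theorem ps_sw_ge [SwQ Q] {t u : ℕ} {S T : Px Q} (htu : t ≤ u) (h1 : Eqp S T t) (h2 : Eqp S T u) {i : ℕ} (hi : u ≤ i) :
    ps (swP t u S T) i = ps S i := by
  rcases ps_swP htu h1 h2 i with ⟨h3, -, -⟩ | ⟨h3, -, -, h4⟩
  · exact h3
  · have : i = u := le_antisymm h4 hi
    subst this
    rw [h3]
    exact Eq.symm h2

variable [Nonempty (Px Q)]

theorem cE_two (w : Px Q → ℝ) (p : Px Q → Y) (q' : Px Q → Z) (f f' : Px Q → ℝ) (x : Px Q) :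
    cE w p f x * cE w q' f' x = cE w p (fun v => cE w q' (fun z => f v * f' z) x) x := by
  have a1 : (fun v => cE w q' (fun z => f v * f' z) x) = fun v => cE w q' f' x * f v := by
    funext v
    rw [cE_mulf]
    ring
  rw [a1, cE_mulf]
  ring

open Classical in
/-- A double sum over two fibres as a sum over pairs. -/
theorem dsum (w : Px Q → ℝ) (p : Px Q → Y) (q' : Px Q → Z) (K : Px Q → Px Q → ℝ) (R : Px Q → Px Q → Prop) (x : Px Q) :
    cE w p (fun v => cE w q' (fun z => ind (R v) z * K v z) x) x =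
      (∑ a ∈ (univ : Finset (Px Q × Px Q)).filter (fun a => (p a.1 = p x ∧ q' a.2 = q' x) ∧ R a.1 a.2),
        Real.exp (w a.1) * Real.exp (w a.2) * K a.1 a.2) / (fz w p x * fz w q' x) := by
  rw [cE_cE']
  congr 1
  rw [sum_filter, ← univ_product_univ, sum_product]
  refine sum_congr rfl fun v _ => sum_congr rfl fun z _ => ?_
  unfold ind
  by_cases h1 : p v = p x
  · by_cases h2 : q' z = q' x
    · by_cases h3 : R v z
      · rw [if_pos h1, if_pos h2, if_pos h3, if_pos ⟨⟨h1, h2⟩, h3⟩, one_mul]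
      · rw [if_pos h1, if_pos h2, if_neg h3, if_neg fun h => h3 h.2, zero_mul, mul_zero]
    · rw [if_pos h1, if_neg h2, if_neg fun h => h2 h.1.2]
  · rw [if_neg h1, if_neg fun h => h1 h.1.1]

open Classical in
/-- **The general exchange of a piece between two replicas.** -/
theorem ex_gen [SwQ Q] {w : Px Q → ℝ} (p : Px Q → Y) (q' : Px Q → Z) (x : Px Q) {t u : ℕ} (htu : t ≤ u) (hw : Ex w t u)
    (R : Px Q → Px Q → Prop) {A A' : Px Q → Px Q → ℝ}
    (hE : ∀ v z : Px Q, p v = p x → q' z = q' x → R v z → Eqp v z t ∧ Eqp v z u ∧ p (swP t u v z) = p x ∧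
      q' (swP t u z v) = q' x ∧ R (swP t u v z) (swP t u z v) ∧ A' (swP t u v z) (swP t u z v) = A v z) :
    cE w p (fun v => cE w q' (fun z => ind (R v) z * A v z) x) x =
      cE w p (fun v => cE w q' (fun z => ind (R v) z * A' v z) x) x := by
  rw [dsum, dsum]
  congr 1
  refine sum_nbij' (fun a => (swP t u a.1 a.2, swP t u a.2 a.1)) (fun a => (swP t u a.1 a.2, swP t u a.2 a.1)) ?_ ?_ ?_ ?_ ?_
  · intro a ha
    obtain ⟨-, ⟨h1, h2⟩, h3⟩ := mem_filter.1 ha
    obtain ⟨k1, k2, k3, k4, k5, k6⟩ := hE a.1 a.2 h1 h2 h3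
    exact mem_filter.2 ⟨mem_univ _, ⟨k3, k4⟩, k5⟩
  · intro a ha
    obtain ⟨-, ⟨h1, h2⟩, h3⟩ := mem_filter.1 ha
    obtain ⟨k1, k2, k3, k4, k5, k6⟩ := hE a.1 a.2 h1 h2 h3
    exact mem_filter.2 ⟨mem_univ _, ⟨k3, k4⟩, k5⟩
  · intro a ha
    obtain ⟨-, ⟨h1, h2⟩, h3⟩ := mem_filter.1 ha
    obtain ⟨k1, k2, -⟩ := hE a.1 a.2 h1 h2 h3
    exact Prod.ext (swP_swP htu k1 k2) (swP_swP htu (Eq.symm k1) (Eq.symm k2))
  · intro a ha
    obtain ⟨-, ⟨h1, h2⟩, h3⟩ := mem_filter.1 ha
    obtain ⟨k1, k2, -⟩ := hE a.1 a.2 h1 h2 h3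
    exact Prod.ext (swP_swP htu k1 k2) (swP_swP htu (Eq.symm k1) (Eq.symm k2))
  · intro a ha
    obtain ⟨-, ⟨h1, h2⟩, h3⟩ := mem_filter.1 ha
    obtain ⟨k1, k2, k3, k4, k5, k6⟩ := hE a.1 a.2 h1 h2 h3
    show Real.exp (w a.1) * Real.exp (w a.2) * A a.1 a.2 = Real.exp (w (swP t u a.1 a.2)) * Real.exp (w (swP t u a.2 a.1)) *
      A' (swP t u a.1 a.2) (swP t u a.2 a.1)
    rw [k6, ← Real.exp_add, ← Real.exp_add, hw a.1 a.2 k1 k2]

/-- **Exchange between the fibres of two conditions**, with a factor. -/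
theorem ex_le [SwQ Q] {w : Px Q → ℝ} (p : Px Q → Y) (q' : Px Q → Z) (x : Px Q) {t u : ℕ} (htu : t ≤ u) (hw : Ex w t u)
    (P : Px Q → Prop) {F : Px Q → ℝ} (hF : ∀ v, 0 ≤ F v)
    (hE : ∀ v z : Px Q, p v = p x → q' z = q' x → P v → P z → Eqp v z t ∧ Eqp v z u ∧ p (swP t u v z) = p x ∧
      q' (swP t u z v) = q' x ∧ P (swP t u v z) ∧ P (swP t u z v) ∧ F (swP t u z v) = F v)
    {dl : ℝ} (hdl : 0 < dl) (hP : dl ≤ cE w q' (ind P) x) :
    cE w p (fun v => ind P v * F v) x ≤ dl⁻¹ * cE w q' (fun v => ind P v * F v) x := by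
  classical
  have h : cE w p (fun v => ind P v * F v) x * cE w q' (ind P) x = cE w p (ind P) x * cE w q' (fun v => ind P v * F v) x := by
    rw [cE_two, cE_two]
    have e0 : ∀ v z, ind (fun z => P v ∧ P z) z = ind P v * ind P z := fun v z => by
      unfold ind
      by_cases h1 : P v
      · by_cases h2 : P z
        · simp [h1, h2]
        · simp [h1, h2]
      · simp [h1]
    have e1 : ∀ v z, ind P v * F v * ind P z = ind (fun z => P v ∧ P z) z * F v := fun v z => by
      rw [e0]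
      ring
    have e2 : ∀ v z, ind P v * (ind P z * F z) = ind (fun z => P v ∧ P z) z * F z := fun v z => by
      rw [e0]
      ring
    simp only [e1, e2]
    exact ex_gen p q' x htu hw (fun v z => P v ∧ P z) (A := fun v _ => F v) (A' := fun _ z => F z) fun v z h1 h2 h3 => by
      obtain ⟨k1, k2, k3, k4, k5, k6, k7⟩ := hE v z h1 h2 h3.1 h3.2
      exact ⟨k1, k2, k3, k4, ⟨k5, k6⟩, k7⟩
  have h1 := (cE_mem w p (ind_nonneg P) (ind_le_one P) x).2
  have h2 : 0 ≤ cE w q' (fun v => ind P v * F v) x := cE_nonneg _ _ (fun v => mul_nonneg (ind_nonneg P v) (hF v)) x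
  have h3 : 0 ≤ cE w p (fun v => ind P v * F v) x := cE_nonneg _ _ (fun v => mul_nonneg (ind_nonneg P v) (hF v)) x
  rw [← div_eq_inv_mul, le_div_iff₀ hdl]
  calc cE w p (fun v => ind P v * F v) x * dl ≤ cE w p (fun v => ind P v * F v) x * cE w q' (ind P) x :=
        mul_le_mul_of_nonneg_left hP h3
    _ = _ := h
    _ ≤ 1 * cE w q' (fun v => ind P v * F v) x := mul_le_mul_of_nonneg_right h1 h2
    _ = _ := one_mul _

/-! ### Locality of the conditional means -/

theorem sw_out [SwQ Q] {a r : ℕ} (har : a ≤ r) {S T z : Px Q} (h1 : Eqp S T a) (h2 : Eqp S T r) (hz : pJ a r z = pJ a r S) :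
    swP a r z T = swP a r S T := by
  have e1 : Eqp z T a := (ps_of_le hz le_rfl).trans h1
  have e2 : Eqp z T r := (ps_of_ge hz le_rfl).trans h2
  apply Subtype.ext
  rw [swP_val har e1 e2, swP_val har h1 h2]
  have h3 : z.1 \ Ico a r = S.1 \ Ico a r := congrArg Prod.fst hz
  ext k
  rw [mem_swp, mem_swp]
  have h4 : (k ∈ z.1 ∧ ¬ k ∈ Ico a r) ↔ (k ∈ S.1 ∧ ¬ k ∈ Ico a r) := by
    rw [← mem_sdiff, ← mem_sdiff, h3]
  rw [mem_Ico] at h4
  constructor
  · rintro (h | h)
    · exact Or.inl (h4.1 h)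
    · exact Or.inr h
  · rintro (h | h)
    · exact Or.inl (h4.2 h)
    · exact Or.inr h

/-- **A conditional mean given the outside of `[a, r)` looks at the path only over `[a, r]`.** -/
theorem cE_loc [SwQ Q] {w : Px Q → ℝ} {a r : ℕ} (har : a ≤ r) (hw : Ex w a r) {S T : Px Q} (h1 : Eqp S T a) (h2 : Eqp S T r)
    {F F' : Px Q → ℝ} (hF : ∀ z, pJ a r z = pJ a r S → F' (swP a r T z) = F z) :
    cE w (pJ a r) F S = cE w (pJ a r) F' T := by
  classical
  have hz1 : ∀ z : Px Q, pJ a r z = pJ a r S → Eqp T z a ∧ Eqp T z r := fun z hz =>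
    ⟨((ps_of_le hz le_rfl).trans h1).symm, ((ps_of_ge hz le_rfl).trans h2).symm⟩
  have hz2 : ∀ z : Px Q, pJ a r z = pJ a r T → Eqp S z a ∧ Eqp S z r := fun z hz =>
    ⟨(Eq.symm ((ps_of_le hz le_rfl).trans (Eq.symm h1))), (Eq.symm ((ps_of_ge hz le_rfl).trans (Eq.symm h2)))⟩
  have key : ∀ z : Px Q, pJ a r z = pJ a r S → w (swP a r T z) = w z + (w T - w (swP a r S T)) := fun z hz => by
    have k1 := hw T z (hz1 z hz).1 (hz1 z hz).2
    rw [sw_out har h1 h2 hz] at k1
    linarith
  have bij : ∀ G G' : Px Q → ℝ, (∀ z, pJ a r z = pJ a r S → G' (swP a r T z) = G z) →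
      (∑ z, if pJ a r z = pJ a r T then G' z else 0) = ∑ z, if pJ a r z = pJ a r S then G z else 0 := by
    intro G G' hG
    rw [← sum_filter, ← sum_filter]
    refine sum_nbij' (fun z => swP a r S z) (fun z => swP a r T z) ?_ ?_ ?_ ?_ ?_
    · intro z hz
      have hz' := (mem_filter.1 hz).2
      exact mem_filter.2 ⟨mem_univ _, pJ_swP le_rfl har le_rfl (hz2 z hz').1 (hz2 z hz').2⟩
    · intro z hz
      have hz' := (mem_filter.1 hz).2
      exact mem_filter.2 ⟨mem_univ _, pJ_swP le_rfl har le_rfl (hz1 z hz').1 (hz1 z hz').2⟩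
    · intro z hz
      have hz' := (mem_filter.1 hz).2
      have e : swP a r (swP a r z S) (swP a r S z) = z := swP_swP har (Eq.symm (hz2 z hz').1) (Eq.symm (hz2 z hz').2)
      have e2 : swP a r z S = swP a r T S := sw_out har (Eq.symm h1) (Eq.symm h2) hz'
      have e3 : swP a r T (swP a r S z) = swP a r (swP a r T S) (swP a r S z) := by
        refine (sw_out har (z := swP a r T S) (S := T) (T := swP a r S z) ?_ ?_ ?_).symm
        · show ps T a = ps (swP a r S z) a
          rw [ps_sw_le har (hz2 z hz').1 (hz2 z hz').2 le_rfl]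
          exact Eq.symm h1
        · show ps T r = ps (swP a r S z) r
          rw [ps_sw_ge har (hz2 z hz').1 (hz2 z hz').2 le_rfl]
          exact Eq.symm h2
        · exact pJ_swP le_rfl har le_rfl (Eq.symm h1) (Eq.symm h2)
      show swP a r T (swP a r S z) = z
      rw [e3, ← e2]
      exact e
    · intro z hz
      have hz' := (mem_filter.1 hz).2
      have e : swP a r (swP a r z T) (swP a r T z) = z := swP_swP har (Eq.symm (hz1 z hz').1) (Eq.symm (hz1 z hz').2)
      have e2 : swP a r z T = swP a r S T := sw_out har h1 h2 hz'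
      have e3 : swP a r S (swP a r T z) = swP a r (swP a r S T) (swP a r T z) := by
        refine (sw_out har (z := swP a r S T) (S := S) (T := swP a r T z) ?_ ?_ ?_).symm
        · show ps S a = ps (swP a r T z) a
          rw [ps_sw_le har (hz1 z hz').1 (hz1 z hz').2 le_rfl]
          exact h1
        · show ps S r = ps (swP a r T z) r
          rw [ps_sw_ge har (hz1 z hz').1 (hz1 z hz').2 le_rfl]
          exact h2
        · exact pJ_swP le_rfl har le_rfl h1 h2
      show swP a r S (swP a r T z) = z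
      rw [e3, ← e2]
      exact e
    · intro z hz
      have hz' := (mem_filter.1 hz).2
      have hm : pJ a r (swP a r S z) = pJ a r S := pJ_swP le_rfl har le_rfl (hz2 z hz').1 (hz2 z hz').2
      have k := hG (swP a r S z) hm
      have e : swP a r (swP a r z S) (swP a r S z) = z := swP_swP har (Eq.symm (hz2 z hz').1) (Eq.symm (hz2 z hz').2)
      have e2 : swP a r z S = swP a r T S := sw_out har (Eq.symm h1) (Eq.symm h2) hz'
      have e3 : swP a r T (swP a r S z) = swP a r (swP a r T S) (swP a r S z) := by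
        refine (sw_out har (z := swP a r T S) (S := T) (T := swP a r S z) ?_ ?_ ?_).symm
        · show ps T a = ps (swP a r S z) a
          rw [ps_sw_le har (hz2 z hz').1 (hz2 z hz').2 le_rfl]
          exact Eq.symm h1
        · show ps T r = ps (swP a r S z) r
          rw [ps_sw_ge har (hz2 z hz').1 (hz2 z hz').2 le_rfl]
          exact Eq.symm h2
        · exact pJ_swP le_rfl har le_rfl (Eq.symm h1) (Eq.symm h2)
      rw [e3, ← e2, e] at k
      exact k
  set κ := w T - w (swP a r S T) with hκ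
  have d1 := bij (fun z => Real.exp κ * (Real.exp (w z) * F z)) (fun z => Real.exp (w z) * F' z) fun z hz => by
    show Real.exp (w (swP a r T z)) * F' (swP a r T z) = _
    rw [key z hz, hF z hz, Real.exp_add]
    ring
  have d2 := bij (fun z => Real.exp κ * Real.exp (w z)) (fun z => Real.exp (w z)) fun z hz => by
    show Real.exp (w (swP a r T z)) = _
    rw [key z hz, Real.exp_add]
    ring
  have e1 : (∑ z, if pJ a r z = pJ a r S then Real.exp κ * (Real.exp (w z) * F z) else 0) =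
      Real.exp κ * ∑ z, if pJ a r z = pJ a r S then Real.exp (w z) * F z else 0 := by
    rw [mul_sum]
    refine sum_congr rfl fun z _ => ?_
    split_ifs
    · rfl
    · rw [mul_zero]
  have e2 : (∑ z, if pJ a r z = pJ a r S then Real.exp κ * Real.exp (w z) else 0) =
      Real.exp κ * ∑ z, if pJ a r z = pJ a r S then Real.exp (w z) else 0 := by
    rw [mul_sum]
    refine sum_congr rfl fun z _ => ?_
    split_ifs
    · rfl
    · rw [mul_zero]
  unfold cE fz
  rw [d1, d2, e1, e2, mul_div_mul_left _ _ (Real.exp_pos κ).ne']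

/-! ### An own pair and a factor at a third replica -/

/-- The first meeting in `[k0, k1]` is in the row `k`. -/
def Fm1 (k0 k : ℕ) (y z : Px Q) : Prop := ps y k = ps z k ∧ ∀ i, k0 ≤ i → i < k → ps y i ≠ ps z i

/-- The last meeting in `[k0, k1]` is in the row `k`. -/
def Lm1 (k1 k : ℕ) (y z : Px Q) : Prop := ps y k = ps z k ∧ ∀ i, k < i → i ≤ k1 → ps y i ≠ ps z i

theorem sum_Fm1 {k0 k1 : ℕ} (y z : Px Q) : NI k0 k1 y z + ∑ k ∈ Icc k0 k1, ind (Fm1 k0 k y) z = 1 := by
  classical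
  by_cases h : Nm k0 k1 y.1 z.1
  · rw [NI_one h, sum_eq_zero fun k hk => ?_, add_zero]
    rw [mem_Icc] at hk
    unfold ind
    exact if_neg fun h2 => h k hk.1 hk.2 h2.1
  · rw [NI_zero h, zero_add]
    have hex : ∃ a, k0 ≤ a ∧ a ≤ k1 ∧ ps y a = ps z a := by
      unfold Nm at h
      push Not at h
      obtain ⟨a, ha, ha', h3⟩ := h
      exact ⟨a, ha, ha', h3⟩
    have h3 := Nat.find_spec hex
    have h4 := fun m (hm : m < Nat.find hex) => Nat.find_min hex hm
    set a := Nat.find hex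
    rw [sum_eq_single a]
    · exact if_pos ⟨h3.2.2, fun i hi hi' he => h4 i hi' ⟨hi, by omega, he⟩⟩
    · intro b hb hne
      rw [mem_Icc] at hb
      unfold ind
      refine if_neg fun h2 => ?_
      rcases lt_trichotomy a b with h5 | h5 | h5
      · exact h2.2 a h3.1 h5 h3.2.2
      · exact hne h5.symm
      · exact h4 b h5 ⟨hb.1, hb.2, h2.1⟩
    · intro h5
      exact absurd (mem_Icc.2 ⟨h3.1, h3.2.1⟩) h5

theorem sum_Lm1 {k0 k1 : ℕ} (y z : Px Q) : NI k0 k1 y z + ∑ k ∈ Icc k0 k1, ind (Lm1 k1 k y) z = 1 := by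
  classical
  by_cases h : Nm k0 k1 y.1 z.1
  · rw [NI_one h, sum_eq_zero fun k hk => ?_, add_zero]
    rw [mem_Icc] at hk
    unfold ind
    exact if_neg fun h2 => h k hk.1 hk.2 h2.1
  · rw [NI_zero h, zero_add]
    set S : Finset ℕ := (Icc k0 k1).filter fun a => ps y a = ps z a with hS
    have hne : S.Nonempty := by
      unfold Nm at h
      push Not at h
      obtain ⟨a, ha, ha', h3⟩ := h
      exact ⟨a, mem_filter.2 ⟨mem_Icc.2 ⟨ha, ha'⟩, h3⟩⟩
    have h3 := mem_filter.1 (S.max'_mem hne)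
    have h4 : ∀ b, k0 ≤ b → b ≤ k1 → ps y b = ps z b → b ≤ S.max' hne := fun b hb hb' he =>
      S.le_max' b (mem_filter.2 ⟨mem_Icc.2 ⟨hb, hb'⟩, he⟩)
    set a := S.max' hne
    have h6 := mem_Icc.1 h3.1
    rw [sum_eq_single a]
    · exact if_pos ⟨h3.2, fun i hi hi' he => by
        have := h4 i (by omega) hi' he
        omega⟩
    · intro b hb hne'
      rw [mem_Icc] at hb
      unfold ind
      refine if_neg fun h2 => ?_
      rcases lt_trichotomy a b with h5 | h5 | h5
      · have := h4 b hb.1 hb.2 h2.1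
        omega
      · exact hne' h5.symm
      · exact h2.2 a h5 h6.2 h3.2
    · intro h5
      exact absurd h3.1 h5

/-- **An own pair on `[k2, k3]` and a factor `D` at a third replica**, which looks only at the rows `≤ k0`: right side. -/
theorem sh_R [SwQ Q] {w : Px Q → ℝ} {c d k0 k1 k2 k3 : ℕ} (h0 : c ≤ k0) (h1 : k1 ≤ k2) (h2 : k1 ≤ d)
    (hw : ∀ k, k0 ≤ k → k ≤ k1 → Ex w c k) (x : Px Q) {D : Px Q → ℝ} (hD0 : ∀ y, 0 ≤ D y)
    (hD : ∀ S T : Px Q, (∀ i, i ≤ k0 → ps S i = ps T i) → D S = D T) :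
    cE w (pJ c d) (mI w (pJ c d) k2 k3) x * cE w (pJ c d) D x ≤
      cE w (pJ c d) (fun y => D y * mI w (pJ c d) k0 k1 y) x + cE w (pJ c d) (fun y => D y * mI w (pJ c d) k2 k3 y) x := by
  set p := pJ (Q := Q) c d with hp
  set A : Px Q → ℝ := fun y => cE w p (NI k2 k3 y) x with hA
  have hA0 : ∀ y, 0 ≤ A y := fun y => cE_nonneg _ _ (fun _ => NI_nonneg _ _ _ _) _
  have eA : ∀ y, p y = p x → mI w p k2 k3 y = A y := fun y hy => cE_eq_of w p _ hy
  have e1 : cE w p (mI w p k2 k3) x = cE w p A x := cE_fib_congr w p fun y hy => eA y hy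
  have e2 : cE w p (fun y => D y * mI w p k2 k3 y) x = cE w p (fun y => D y * A y) x := cE_fib_congr w p fun y hy => by
    rw [eA y hy]
  have e3 : cE w p (fun y => D y * mI w p k0 k1 y) x = cE w p (fun z => cE w p (fun y => NI k0 k1 z y * D z) x) x := by
    refine cE_fib_congr w p fun z hz => ?_
    have k : mI w p k0 k1 z = cE w p (NI k0 k1 z) x := cE_eq_of w p _ hz
    rw [k, ← cE_mulf]
    exact cE_congr w p (fun y => mul_comm _ _) x
  rw [e1, e2, e3, cE_two]
  have s1 : ∀ y z, A y * D z = NI k0 k1 y z * (A y * D z) + ∑ k ∈ Icc k0 k1, ind (Fm1 k0 k y) z * (A y * D z) := fun y z => by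
    rw [← sum_mul, ← add_mul, sum_Fm1, one_mul]
  have s2 : cE w p (fun y => cE w p (fun z => A y * D z) x) x =
      cE w p (fun y => cE w p (fun z => NI k0 k1 y z * (A y * D z)) x) x +
      ∑ k ∈ Icc k0 k1, cE w p (fun y => cE w p (fun z => ind (Fm1 k0 k y) z * (A y * D z)) x) x := by
    rw [← cE_sumf, ← cE_addf]
    refine cE_congr w p (fun y => ?_) x
    rw [← cE_sumf, ← cE_addf]
    exact cE_congr w p (fun z => s1 y z) x
  rw [s2]
  refine add_le_add ?_ ?_
  · rw [cE_comm2]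
    refine cE_mono w p (fun z => cE_mono w p (fun y => ?_) x) x
    show NI k0 k1 y z * (A y * D z) ≤ NI k0 k1 z y * D z
    rw [NI_symm k0 k1 z y]
    refine mul_le_mul_of_nonneg_left ?_ (NI_nonneg _ _ _ _)
    have : A y ≤ 1 := (cE_mem w p (fun _ => NI_nonneg _ _ _ _) (fun _ => NI_le_one _ _ _ _) x).2
    exact mul_le_of_le_one_left (hD0 z) this
  · have s3 : ∀ k ∈ Icc k0 k1, cE w p (fun y => cE w p (fun z => ind (Fm1 k0 k y) z * (A y * D z)) x) x =
        cE w p (fun y => cE w p (fun z => ind (Fm1 k0 k y) z * (D y * A y)) x) x := by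
      intro k hk
      rw [mem_Icc] at hk
      refine ex_gen p p x (t := c) (u := k) (by omega) (hw k hk.1 hk.2) (Fm1 k0 k) fun y z hy hz hR => ?_
      have ec : Eqp y z c := (ps_of_le hy le_rfl).trans (ps_of_le hz le_rfl).symm
      have ek : Eqp y z k := hR.1
      have hck : c ≤ k := by omega
      have a1 : ∀ i, i ≤ c → ps y i = ps z i := fun i hi => (ps_of_le hy hi).trans (ps_of_le hz hi).symm
      have g1 : ∀ i, i ≤ k → ps (swP c k y z) i = ps z i := fun i hi => by
        rcases le_total c i with h6 | h6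
        · exact ps_swP_mid hck ec ek h6 hi
        · rw [ps_sw_le hck ec ek h6]
          exact a1 i h6
      have g2 : ∀ i, i ≤ k → ps (swP c k z y) i = ps y i := fun i hi => by
        rcases le_total c i with h6 | h6
        · exact ps_swP_mid hck (Eq.symm ec) (Eq.symm ek) h6 hi
        · rw [ps_sw_le hck (Eq.symm ec) (Eq.symm ek) h6]
          exact (a1 i h6).symm
      refine ⟨ec, ek, (pJ_swP le_rfl hck (by omega) ec ek).trans hy, (pJ_swP le_rfl hck (by omega) (Eq.symm ec) (Eq.symm ek)).trans hz,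
        ⟨?_, fun i hi hi' => ?_⟩, ?_⟩
      · rw [g1 k le_rfl, g2 k le_rfl]
        exact hR.1.symm
      · rw [g1 i hi'.le, g2 i hi'.le]
        exact (hR.2 i hi hi').symm
      · have e5 : D (swP c k y z) = D z := hD _ _ fun i hi => g1 i (by omega)
        have e6 : A (swP c k y z) = A y := by
          refine cE_congr w p (fun v => ?_) x
          unfold NI
          refine if_congr (forall_congr' fun i => forall_congr' fun h3 => forall_congr' fun h4 => ?_) rfl rfl
          rw [ps_sw_ge hck ec ek (by omega)]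
        rw [e5, e6]
        ring
    rw [sum_congr rfl s3, ← cE_sumf]
    refine cE_mono w p (fun y => ?_) x
    rw [← cE_sumf]
    have s4 : ∀ z, ∑ k ∈ Icc k0 k1, ind (Fm1 k0 k y) z * (D y * A y) ≤ D y * A y := fun z => by
      rw [← sum_mul]
      have k1' := sum_Fm1 (k0 := k0) (k1 := k1) y z
      have k2' := NI_nonneg k0 k1 y z
      exact mul_le_of_le_one_left (mul_nonneg (hD0 y) (hA0 y)) (by linarith)
    have s5 := cE_mono w p s4 x
    rwa [cE_constf] at s5

/-- **The same on the left side**: `D` looks only at the rows `≥ k1`, own pair on `[k2, k3]`, `k3 ≤ k0`. -/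
theorem sh_L [SwQ Q] {w : Px Q → ℝ} {c d k0 k1 k2 k3 : ℕ} (h0 : k1 ≤ d) (h1 : k3 ≤ k0) (h2 : c ≤ k0)
    (hw : ∀ k, k0 ≤ k → k ≤ k1 → Ex w k d) (x : Px Q) {D : Px Q → ℝ} (hD0 : ∀ y, 0 ≤ D y)
    (hD : ∀ S T : Px Q, (∀ i, k1 ≤ i → ps S i = ps T i) → D S = D T) :
    cE w (pJ c d) (mI w (pJ c d) k2 k3) x * cE w (pJ c d) D x ≤
      cE w (pJ c d) (fun y => D y * mI w (pJ c d) k0 k1 y) x + cE w (pJ c d) (fun y => D y * mI w (pJ c d) k2 k3 y) x := by
  set p := pJ (Q := Q) c d with hp
  set A : Px Q → ℝ := fun y => cE w p (NI k2 k3 y) x with hA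
  have hA0 : ∀ y, 0 ≤ A y := fun y => cE_nonneg _ _ (fun _ => NI_nonneg _ _ _ _) _
  have eA : ∀ y, p y = p x → mI w p k2 k3 y = A y := fun y hy => cE_eq_of w p _ hy
  have e1 : cE w p (mI w p k2 k3) x = cE w p A x := cE_fib_congr w p fun y hy => eA y hy
  have e2 : cE w p (fun y => D y * mI w p k2 k3 y) x = cE w p (fun y => D y * A y) x := cE_fib_congr w p fun y hy => by
    rw [eA y hy]
  have e3 : cE w p (fun y => D y * mI w p k0 k1 y) x = cE w p (fun z => cE w p (fun y => NI k0 k1 z y * D z) x) x := by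
    refine cE_fib_congr w p fun z hz => ?_
    have k : mI w p k0 k1 z = cE w p (NI k0 k1 z) x := cE_eq_of w p _ hz
    rw [k, ← cE_mulf]
    exact cE_congr w p (fun y => mul_comm _ _) x
  rw [e1, e2, e3, cE_two]
  have s1 : ∀ y z, A y * D z = NI k0 k1 y z * (A y * D z) + ∑ k ∈ Icc k0 k1, ind (Lm1 k1 k y) z * (A y * D z) := fun y z => by
    rw [← sum_mul, ← add_mul, sum_Lm1, one_mul]
  have s2 : cE w p (fun y => cE w p (fun z => A y * D z) x) x =
      cE w p (fun y => cE w p (fun z => NI k0 k1 y z * (A y * D z)) x) x +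
      ∑ k ∈ Icc k0 k1, cE w p (fun y => cE w p (fun z => ind (Lm1 k1 k y) z * (A y * D z)) x) x := by
    rw [← cE_sumf, ← cE_addf]
    refine cE_congr w p (fun y => ?_) x
    rw [← cE_sumf, ← cE_addf]
    exact cE_congr w p (fun z => s1 y z) x
  rw [s2]
  refine add_le_add ?_ ?_
  · rw [cE_comm2]
    refine cE_mono w p (fun z => cE_mono w p (fun y => ?_) x) x
    show NI k0 k1 y z * (A y * D z) ≤ NI k0 k1 z y * D z
    rw [NI_symm k0 k1 z y]
    refine mul_le_mul_of_nonneg_left ?_ (NI_nonneg _ _ _ _)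
    have : A y ≤ 1 := (cE_mem w p (fun _ => NI_nonneg _ _ _ _) (fun _ => NI_le_one _ _ _ _) x).2
    exact mul_le_of_le_one_left (hD0 z) this
  · have s3 : ∀ k ∈ Icc k0 k1, cE w p (fun y => cE w p (fun z => ind (Lm1 k1 k y) z * (A y * D z)) x) x =
        cE w p (fun y => cE w p (fun z => ind (Lm1 k1 k y) z * (D y * A y)) x) x := by
      intro k hk
      rw [mem_Icc] at hk
      refine ex_gen p p x (t := k) (u := d) (by omega) (hw k hk.1 hk.2) (Lm1 k1 k) fun y z hy hz hR => ?_
      have ed : Eqp y z d := (ps_of_ge hy le_rfl).trans (ps_of_ge hz le_rfl).symm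
      have ek : Eqp y z k := hR.1
      have hkd : k ≤ d := by omega
      have a1 : ∀ i, d ≤ i → ps y i = ps z i := fun i hi => (ps_of_ge hy hi).trans (ps_of_ge hz hi).symm
      have g1 : ∀ i, k ≤ i → ps (swP k d y z) i = ps z i := fun i hi => by
        rcases le_total i d with h6 | h6
        · exact ps_swP_mid hkd ek ed hi h6
        · rw [ps_sw_ge hkd ek ed h6]
          exact a1 i h6
      have g2 : ∀ i, k ≤ i → ps (swP k d z y) i = ps y i := fun i hi => by
        rcases le_total i d with h6 | h6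
        · exact ps_swP_mid hkd (Eq.symm ek) (Eq.symm ed) hi h6
        · rw [ps_sw_ge hkd (Eq.symm ek) (Eq.symm ed) h6]
          exact (a1 i h6).symm
      refine ⟨ek, ed, (pJ_swP (by omega) hkd le_rfl ek ed).trans hy, (pJ_swP (by omega) hkd le_rfl (Eq.symm ek) (Eq.symm ed)).trans hz,
        ⟨?_, fun i hi hi' => ?_⟩, ?_⟩
      · rw [g1 k le_rfl, g2 k le_rfl]
        exact hR.1.symm
      · rw [g1 i hi.le, g2 i hi.le]
        exact (hR.2 i hi hi').symm
      · have e5 : D (swP k d y z) = D z := hD _ _ fun i hi => g1 i (by omega)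
        have e6 : A (swP k d y z) = A y := by
          refine cE_congr w p (fun v => ?_) x
          unfold NI
          refine if_congr (forall_congr' fun i => forall_congr' fun h3 => forall_congr' fun h4 => ?_) rfl rfl
          rw [ps_sw_le hkd ek ed (by omega)]
        rw [e5, e6]
        ring
    rw [sum_congr rfl s3, ← cE_sumf]
    refine cE_mono w p (fun y => ?_) x
    rw [← cE_sumf]
    have s4 : ∀ z, ∑ k ∈ Icc k0 k1, ind (Lm1 k1 k y) z * (D y * A y) ≤ D y * A y := fun z => by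
      rw [← sum_mul]
      have k1' := sum_Lm1 (k0 := k0) (k1 := k1) y z
      have k2' := NI_nonneg k0 k1 y z
      exact mul_le_of_le_one_left (mul_nonneg (hD0 y) (hA0 y)) (by linarith)
    have s5 := cE_mono w p s4 x
    rwa [cE_constf] at s5

end

end Pool.W7d29a1.C0.NN1
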