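import Pool.Agent.W_7d29a1_C0.NN1

/-!
MP_7d29a1_pr, [CURV0] / [C0], leaf E5.8 (helper1): THE REMAINDERS (inj), (sh) OF THE ROW INEQUALITY, PATHWISE, part 2.

`oscR`, `oscL`: the mean, over the resamples of `y` up to (from) a row `r`, of the difference of the response `g` is at most the
oscillation of `g` in the window `[c1, d1)` seen from `y`, plus the mass of a long tie on the other side. `D_lv`: in levels, at a reference
weight. `injR`, `injL`, `shR`, `shL`: the terms (inj), (sh) are at most the conditional mean of two products, each of ONE path `y`: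
own tie of `y` on a piece `[o0, o1]` of the own gap, times the oscillation of `g` in the window or the long tie. Nothing is assumed about the
environment.
-/

set_option autoImplicit false
set_option linter.unusedSectionVars false

namespace Pool.W7d29a1.C0.NN1

open Finset MeasureTheory Pool.Agent.W_7d29a1_C0.Swap57 Pool.Agent.W_7d29a1_C0 Pool.Agent.W_7d29a1_C0.Mod92
open Pool.Agent.W_7d29a1_F Pool.Agent.W_7d29a1_X
open Pool.W7d29a1.C0 Pool.W7d29a1.C0.VT31 Pool.W7d29a1.C0.R43 Pool.W7d29a1.C0.S1 Pool.W7d29a1.C0.K1 Pool.W7d29a1.C0.O1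

noncomputable section

variable {Q : Finset (Finset ℕ)} [Nonempty (Px Q)] {Y Z : Type*} [DecidableEq Y] [DecidableEq Z]

/-! ### Resamples with another value of the response -/

/-- The resamples of `y` given `p` with another value of `g`. -/
def Dr (w : Px Q → ℝ) (p : Px Q → Y) (g : Px Q → ℝ) (y : Px Q) : ℝ := cE w p (fun v => |g y - g v|) y

theorem Dr_nonneg (w : Px Q → ℝ) (p : Px Q → Y) (g : Px Q → ℝ) (y : Px Q) : 0 ≤ Dr w p g y :=
  cE_nonneg _ _ (fun _ => abs_nonneg _) _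

theorem Dr_le {g : Px Q → ℝ} {M : ℝ} (hM : ∀ S, |g S| ≤ M) (w : Px Q → ℝ) (p : Px Q → Y) (y : Px Q) : Dr w p g y ≤ 2 * M := by
  have h := cE_mono w p (f := fun v => |g y - g v|) (g := fun _ => 2 * M) (fun v => osd hM y v) y
  rwa [cE_constf] at h

theorem ind_iff {A A' : Px Q → Prop} {v v' : Px Q} (h : A v ↔ A' v') : ind A v = ind A' v' := by
  classical
  unfold ind
  by_cases h1 : A v
  · rw [if_pos h1, if_pos (h.1 h1)]
  · rw [if_neg h1, if_neg fun h2 => h1 (h.2 h2)]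

variable [SwQ Q]

/-- `g` looks only at the rows `[al, be]`; its resamples given the outside of `[c0, r)`. -/
theorem Dr_loc {w g : Px Q → ℝ} {al be a r : ℕ} (hg : Lk al be g) (har : a ≤ r) (h1 : a ≤ al) (h2 : be ≤ r) (hw : Ex w a r)
    {S T : Px Q} (h : ∀ i, a ≤ i → i ≤ r → ps S i = ps T i) : Dr w (pJ a r) g S = Dr w (pJ a r) g T := by
  have ea : Eqp S T a := h a le_rfl har
  have er : Eqp S T r := h r har le_rfl
  refine cE_loc har hw ea er fun z hz => ?_
  have k1 : Eqp T z a := (Eq.symm ea).trans (ps_of_le hz le_rfl).symm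
  have k2 : Eqp T z r := (Eq.symm er).trans (ps_of_ge hz le_rfl).symm
  have e1 : g (swP a r T z) = g z := hg _ _ fun i hi hi' => ps_swP_mid har k1 k2 (h1.trans hi) (hi'.trans h2)
  have e2 : g T = g S := hg _ _ fun i hi hi' => (h i (h1.trans hi) (hi'.trans h2)).symm
  rw [e1, e2]

/-- The sites of `y` in the rows `a`, `r`. -/
def PS2 (y : Px Q) (a r : ℕ) (v : Px Q) : Prop := PS y a v ∧ PS y r v

/-- **Right side**: the long tie is in front, on `[c1, al]`. -/
theorem oscR {w g : Px Q → ℝ} {M : ℝ} {al be c0 c1 d1 r : ℕ} (hg : Lk al be g) (hM : ∀ S, |g S| ≤ M) (h0 : c0 ≤ c1)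
    (h2 : al ≤ be) (h3 : be ≤ r) (h4 : r ≤ d1) (hw : ∀ a, c1 ≤ a → a ≤ al → Ex w a r) {dl : ℝ} (hdl : 0 < dl) (y : Px Q)
    (hT : ∀ a, c1 ≤ a → a ≤ al → dl ≤ cE w (pJ c1 d1) (ind (PS2 y a r)) y) :
    Dr w (pJ c0 r) g y ≤ 2 * M * mI w (pJ c0 r) c1 al y + dl⁻¹ * Dr w (pJ c1 d1) g y := by
  set F : Px Q → ℝ := fun v => |g y - g v| with hF
  have hF0 : ∀ v, 0 ≤ F v := fun v => abs_nonneg _
  have s1 : ∀ v, F v ≤ 2 * M * NI c1 al y v + ∑ a ∈ Icc c1 al, ind (Lm1 al a y) v * F v := fun v => by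
    have e1 := sum_Lm1 (k0 := c1) (k1 := al) y v
    have e2 : F v = NI c1 al y v * F v + ∑ a ∈ Icc c1 al, ind (Lm1 al a y) v * F v := by
      rw [← sum_mul, ← add_mul, e1, one_mul]
    have e3 : NI c1 al y v * F v ≤ 2 * M * NI c1 al y v := by
      rw [mul_comm]
      exact mul_le_mul_of_nonneg_right (osd hM y v) (NI_nonneg _ _ _ _)
    linarith
  have s2 := cE_mono w (pJ c0 r) s1 y
  rw [cE_addf, cE_mulf, cE_sumf] at s2
  have s3 : ∀ a ∈ Icc c1 al, cE w (pJ c0 r) (fun v => ind (Lm1 al a y) v * F v) y ≤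
      dl⁻¹ * cE w (pJ c1 d1) (fun v => ind (Lm1 al a y) v * F v) y := by
    intro a ha
    rw [mem_Icc] at ha
    have har : a ≤ r := by omega
    have e1 : cE w (pJ c0 r) (fun v => ind (Lm1 al a y) v * F v) y =
        cE w (pJ c0 r) (fun v => ind (PS2 y a r) v * (ind (Lm1 al a y) v * F v)) y := cE_fib_congr w _ fun v hv => by
      by_cases h5 : Lm1 al a y v
      · have h6 : ind (PS2 y a r) v = 1 := if_pos ⟨h5.1.symm, ps_of_ge hv le_rfl⟩
        rw [h6, one_mul]
      · have h6 : ind (Lm1 al a y) v = 0 := if_neg h5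
        rw [h6, zero_mul, mul_zero]
    have e2 := ex_le (w := w) (pJ (Q := Q) c0 r) (pJ (Q := Q) c1 d1) y har (hw a ha.1 ha.2) (PS2 y a r)
      (F := fun v => ind (Lm1 al a y) v * F v) (fun v => mul_nonneg (ind_nonneg _ _) (hF0 v)) (fun v z hv hz hPv hPz => by
        have ka : Eqp v z a := hPv.1.trans hPz.1.symm
        have kr : Eqp v z r := hPv.2.trans hPz.2.symm
        have g1 : ∀ i, a ≤ i → i ≤ r → ps (swP a r v z) i = ps z i := fun i hi hi' => ps_swP_mid har ka kr hi hi'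
        have g2 : ∀ i, a ≤ i → i ≤ r → ps (swP a r z v) i = ps v i := fun i hi hi' =>
          ps_swP_mid har (Eq.symm ka) (Eq.symm kr) hi hi'
        refine ⟨ka, kr, (pJ_swP (by omega) har le_rfl ka kr).trans hv, (pJ_swP (by omega) har h4 (Eq.symm ka) (Eq.symm kr)).trans hz,
          ⟨(g1 a le_rfl har).trans hPz.1, (g1 r har le_rfl).trans hPz.2⟩,
          ⟨(g2 a le_rfl har).trans hPv.1, (g2 r har le_rfl).trans hPv.2⟩, ?_⟩
        have e3 : g (swP a r z v) = g v := hg _ _ fun i hi hi' => g2 i (by omega) (by omega)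
        have e4 : ind (Lm1 al a y) (swP a r z v) = ind (Lm1 al a y) v := by
          refine ind_iff ?_
          unfold Lm1
          refine and_congr ?_ (forall_congr' fun i => forall_congr' fun h5 => forall_congr' fun h6 => ?_)
          · rw [g2 a le_rfl har]
          · rw [g2 i (by omega) (by omega)]
        show ind (Lm1 al a y) (swP a r z v) * |g y - g (swP a r z v)| = ind (Lm1 al a y) v * |g y - g v|
        rw [e3, e4]) hdl (hT a ha.1 ha.2)
    rw [e1]
    refine e2.trans (mul_le_mul_of_nonneg_left (cE_mono _ _ (fun v => ?_) y) (inv_nonneg.2 hdl.le))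
    exact mul_le_of_le_one_left (mul_nonneg (ind_nonneg _ _) (hF0 v)) (ind_le_one _ _)
  refine s2.trans (add_le_add_right ((sum_le_sum s3).trans ?_) _)
  rw [← mul_sum, ← cE_sumf]
  refine mul_le_mul_of_nonneg_left (cE_mono _ _ (fun v => ?_) y) (inv_nonneg.2 hdl.le)
  rw [← sum_mul]
  have e1 := sum_Lm1 (k0 := c1) (k1 := al) y v
  exact mul_le_of_le_one_left (hF0 v) (by linarith [NI_nonneg c1 al y v])

/-- **Left side**: the long tie is behind, on `[be, d1]`. -/
theorem oscL {w g : Px Q → ℝ} {M : ℝ} {al be c1 d1 e0 r : ℕ} (hg : Lk al be g) (hM : ∀ S, |g S| ≤ M) (h0 : d1 ≤ e0)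
    (h2 : al ≤ be) (h3 : r ≤ al) (h4 : c1 ≤ r) (hw : ∀ a, be ≤ a → a ≤ d1 → Ex w r a) {dl : ℝ} (hdl : 0 < dl) (y : Px Q)
    (hT : ∀ a, be ≤ a → a ≤ d1 → dl ≤ cE w (pJ c1 d1) (ind (PS2 y a r)) y) :
    Dr w (pJ r e0) g y ≤ 2 * M * mI w (pJ r e0) be d1 y + dl⁻¹ * Dr w (pJ c1 d1) g y := by
  set F : Px Q → ℝ := fun v => |g y - g v| with hF
  have hF0 : ∀ v, 0 ≤ F v := fun v => abs_nonneg _
  have s1 : ∀ v, F v ≤ 2 * M * NI be d1 y v + ∑ a ∈ Icc be d1, ind (Fm1 be a y) v * F v := fun v => by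
    have e1 := sum_Fm1 (k0 := be) (k1 := d1) y v
    have e2 : F v = NI be d1 y v * F v + ∑ a ∈ Icc be d1, ind (Fm1 be a y) v * F v := by
      rw [← sum_mul, ← add_mul, e1, one_mul]
    have e3 : NI be d1 y v * F v ≤ 2 * M * NI be d1 y v := by
      rw [mul_comm]
      exact mul_le_mul_of_nonneg_right (osd hM y v) (NI_nonneg _ _ _ _)
    linarith
  have s2 := cE_mono w (pJ r e0) s1 y
  rw [cE_addf, cE_mulf, cE_sumf] at s2
  have s3 : ∀ a ∈ Icc be d1, cE w (pJ r e0) (fun v => ind (Fm1 be a y) v * F v) y ≤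
      dl⁻¹ * cE w (pJ c1 d1) (fun v => ind (Fm1 be a y) v * F v) y := by
    intro a ha
    rw [mem_Icc] at ha
    have har : r ≤ a := by omega
    have e1 : cE w (pJ r e0) (fun v => ind (Fm1 be a y) v * F v) y =
        cE w (pJ r e0) (fun v => ind (PS2 y a r) v * (ind (Fm1 be a y) v * F v)) y := cE_fib_congr w _ fun v hv => by
      by_cases h5 : Fm1 be a y v
      · have h6 : ind (PS2 y a r) v = 1 := if_pos ⟨h5.1.symm, ps_of_le hv le_rfl⟩
        rw [h6, one_mul]
      · have h6 : ind (Fm1 be a y) v = 0 := if_neg h5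
        rw [h6, zero_mul, mul_zero]
    have e2 := ex_le (w := w) (pJ (Q := Q) r e0) (pJ (Q := Q) c1 d1) y har (hw a ha.1 ha.2) (PS2 y a r)
      (F := fun v => ind (Fm1 be a y) v * F v) (fun v => mul_nonneg (ind_nonneg _ _) (hF0 v)) (fun v z hv hz hPv hPz => by
        have ka : Eqp v z a := hPv.1.trans hPz.1.symm
        have kr : Eqp v z r := hPv.2.trans hPz.2.symm
        have g1 : ∀ i, r ≤ i → i ≤ a → ps (swP r a v z) i = ps z i := fun i hi hi' => ps_swP_mid har kr ka hi hi'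
        have g2 : ∀ i, r ≤ i → i ≤ a → ps (swP r a z v) i = ps v i := fun i hi hi' =>
          ps_swP_mid har (Eq.symm kr) (Eq.symm ka) hi hi'
        refine ⟨kr, ka, (pJ_swP le_rfl har (by omega) kr ka).trans hv, (pJ_swP h4 har ha.2 (Eq.symm kr) (Eq.symm ka)).trans hz,
          ⟨(g1 a har le_rfl).trans hPz.1, (g1 r le_rfl har).trans hPz.2⟩,
          ⟨(g2 a har le_rfl).trans hPv.1, (g2 r le_rfl har).trans hPv.2⟩, ?_⟩
        have e3 : g (swP r a z v) = g v := hg _ _ fun i hi hi' => g2 i (by omega) (by omega)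
        have e4 : ind (Fm1 be a y) (swP r a z v) = ind (Fm1 be a y) v := by
          refine ind_iff ?_
          unfold Fm1
          refine and_congr ?_ (forall_congr' fun i => forall_congr' fun h5 => forall_congr' fun h6 => ?_)
          · rw [g2 a har le_rfl]
          · rw [g2 i (by omega) (by omega)]
        show ind (Fm1 be a y) (swP r a z v) * |g y - g (swP r a z v)| = ind (Fm1 be a y) v * |g y - g v|
        rw [e3, e4]) hdl (hT a ha.1 ha.2)
    rw [e1]
    refine e2.trans (mul_le_mul_of_nonneg_left (cE_mono _ _ (fun v => ?_) y) (inv_nonneg.2 hdl.le))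
    exact mul_le_of_le_one_left (mul_nonneg (ind_nonneg _ _) (hF0 v)) (ind_le_one _ _)
  refine s2.trans (add_le_add_right ((sum_le_sum s3).trans ?_) _)
  rw [← mul_sum, ← cE_sumf]
  refine mul_le_mul_of_nonneg_left (cE_mono _ _ (fun v => ?_) y) (inv_nonneg.2 hdl.le)
  rw [← sum_mul]
  have e1 := sum_Fm1 (k0 := be) (k1 := d1) y v
  exact mul_le_of_le_one_left (hF0 v) (by linarith [NI_nonneg be d1 y v])

omit [SwQ Q] in
/-- The oscillation seen from a typical path. -/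
theorem Dr_le_osc (w : Px Q → ℝ) (p : Px Q → Y) {g : Px Q → ℝ} {al be : ℕ}
    (hg : ∀ S T : Px Q, ps S al = ps T al → ps S be = ps T be → g S = g T) {dl : ℝ} (hdl : 0 < dl) (y : Px Q)
    (hT : dl ≤ cE w p (ind (PS2 y al be)) y) : Dr w p g y ≤ dl⁻¹ * osc w p g y := by
  rw [← div_eq_inv_mul, le_div_iff₀ hdl]
  have h0 := Dr_nonneg w p g y
  have h1 : ∀ u, ind (PS2 y al be) u * Dr w p g y ≤ cE w p (fun v => |g u - g v|) y := fun u => by
    have k0 : 0 ≤ cE w p (fun v => |g u - g v|) y := cE_nonneg _ _ (fun _ => abs_nonneg _) _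
    by_cases h : PS2 y al be u
    · have e : ind (PS2 y al be) u = 1 := if_pos h
      rw [e, one_mul]
      have e2 : g u = g y := hg _ _ h.1 h.2
      unfold Dr
      rw [e2]
    · have e : ind (PS2 y al be) u = 0 := if_neg h
      rw [e, zero_mul]
      exact k0
  have h2 := cE_mono w p h1 y
  have h3 : cE w p (fun u => ind (PS2 y al be) u * Dr w p g y) y = cE w p (ind (PS2 y al be)) y * Dr w p g y := by
    rw [mul_comm, ← cE_mulf]
    exact cE_congr w p (fun u => mul_comm _ _) y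
  rw [h3] at h2
  calc Dr w p g y * dl = dl * Dr w p g y := mul_comm _ _
    _ ≤ cE w p (ind (PS2 y al be)) y * Dr w p g y := mul_le_mul_of_nonneg_right hT h0
    _ ≤ osc w p g y := h2

/-! ### Typical paths -/

omit [SwQ Q] in
theorem ty2_one (w : Px Q → ℝ) (q' : Px Q → Z) {dl : ℝ} (hdl : 0 ≤ dl) (a r : ℕ) (S0 : Px Q) :
    cE w q' (ind fun x => ¬ dl ≤ cE w q' (ind (PS2 x a r)) x) S0 ≤ (a + 1) * (r + 1) * dl := by
  classical
  set m : ℤ → ℤ → ℝ := fun u u' => cE w q' (ind fun v => ps v a = u ∧ ps v r = u') S0 with hm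
  have h1 : ∀ x, q' x = q' S0 → ind (fun x => ¬ dl ≤ cE w q' (ind (PS2 x a r)) x) x ≤
      ∑ c ∈ range (a + 1) ×ˢ range (r + 1), (if m c.1 c.2 < dl then 1 else 0) * ind (fun v => ps v a = (c.1 : ℤ) ∧ ps v r = (c.2 : ℤ)) x := by
    intro x hx
    have h0 : ∀ c ∈ range (a + 1) ×ˢ range (r + 1), 0 ≤ (if m c.1 c.2 < dl then (1 : ℝ) else 0) *
        ind (fun v => ps v a = (c.1 : ℤ) ∧ ps v r = (c.2 : ℤ)) x := fun u _ =>
      mul_nonneg (by split_ifs <;> norm_num) (ind_nonneg _ _)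
    by_cases h : dl ≤ cE w q' (ind (PS2 x a r)) x
    · have e : ind (fun x => ¬ dl ≤ cE w q' (ind (PS2 x a r)) x) x = 0 := if_neg (not_not.2 h)
      rw [e]
      exact sum_nonneg h0
    · have e : ind (fun x => ¬ dl ≤ cE w q' (ind (PS2 x a r)) x) x = 1 := if_pos h
      rw [e]
      obtain ⟨u, hu, e1⟩ := O1.ps_le x a
      obtain ⟨u', hu', e2⟩ := O1.ps_le x r
      have h2 : m u u' < dl := by
        refine lt_of_eq_of_lt ?_ (not_le.1 h)
        show cE w q' (ind fun v => ps v a = (u : ℤ) ∧ ps v r = (u' : ℤ)) S0 = cE w q' (ind (PS2 x a r)) x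
        rw [cE_eq_of w q' _ hx]
        unfold PS2 PS
        rw [e1, e2]
      have h3 := single_le_sum (f := fun c : ℕ × ℕ => (if m c.1 c.2 < dl then (1 : ℝ) else 0) *
        ind (fun v => ps v a = (c.1 : ℤ) ∧ ps v r = (c.2 : ℤ)) x) h0 (mem_product.2 ⟨hu, hu'⟩ : (u, u') ∈ _)
      beta_reduce at h3
      rw [if_pos h2, one_mul] at h3
      have h4 : ind (fun v => ps v a = (u : ℤ) ∧ ps v r = (u' : ℤ)) x = 1 := if_pos ⟨e1, e2⟩
      rwa [h4] at h3
  have h2 := cE_fib_mono w q' h1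
  rw [cE_sumf] at h2
  refine h2.trans ?_
  have h3 : ∀ c ∈ range (a + 1) ×ˢ range (r + 1), cE w q' (fun x => (if m c.1 c.2 < dl then 1 else 0) *
      ind (fun v => ps v a = (c.1 : ℤ) ∧ ps v r = (c.2 : ℤ)) x) S0 ≤ dl := by
    intro c _
    rw [cE_mulf]
    split_ifs with h
    · rw [one_mul]
      exact h.le
    · rw [zero_mul]
      exact hdl
  refine (sum_le_sum h3).trans (le_of_eq ?_)
  rw [sum_const, card_product, card_range, card_range, nsmul_eq_mul]
  push_cast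
  ring

omit [SwQ Q] in
theorem ty2_le (w : Px Q → ℝ) {p : Px Q → Y} {q' : Px Q → Z} (hc : Crs p q') {dl : ℝ} (hdl : 0 ≤ dl) {a r D : ℕ} (ha : a ≤ D)
    (hr : r ≤ D) (S0 : Px Q) : cE w p (ind fun x => ¬ dl ≤ cE w q' (ind (PS2 x a r)) x) S0 ≤ (D + 1) ^ 2 * dl := by
  have e := congrFun (cE_tower w hc (ind fun x => ¬ dl ≤ cE w q' (ind (PS2 x a r)) x)) S0
  rw [← e]
  have h4 := cE_mono w p (fun x => ty2_one w q' hdl a r x) S0
  rw [cE_constf] at h4
  refine h4.trans (mul_le_mul_of_nonneg_right ?_ hdl)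
  have h1 : (a : ℝ) ≤ D := by exact_mod_cast ha
  have h2 : (r : ℝ) ≤ D := by exact_mod_cast hr
  rw [pow_two]
  exact mul_le_mul (by linarith) (by linarith) (by positivity) (by positivity)

/-- Typical paths: rows `[i0, i1]` together with the row `r`, and the rows `al`, `be`. -/
def TT (w : Px Q → ℝ) (q' : Px Q → Z) (dl : ℝ) (i0 i1 r al be : ℕ) (y : Px Q) : Prop :=
  (∀ a, i0 ≤ a → a ≤ i1 → dl ≤ cE w q' (ind (PS2 y a r)) y) ∧ dl ≤ cE w q' (ind (PS2 y al be)) y

omit [SwQ Q] in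
theorem TT_le (w : Px Q → ℝ) {p : Px Q → Y} {q' : Px Q → Z} (hc : Crs p q') {dl : ℝ} (hdl : 0 ≤ dl) {i0 i1 r al be D : ℕ}
    (h1 : i1 ≤ D) (h2 : r ≤ D) (h3 : al ≤ D) (h4 : be ≤ D) (S0 : Px Q) :
    cE w p (ind fun x => ¬ TT w q' dl i0 i1 r al be x) S0 ≤ (D + 2) ^ 3 * dl := by
  have e1 : ∀ x, ind (fun x => ¬ TT w q' dl i0 i1 r al be x) x ≤
      (∑ a ∈ range (D + 1), ind (fun x => ¬ dl ≤ cE w q' (ind (PS2 x a r)) x) x) +
        ind (fun x => ¬ dl ≤ cE w q' (ind (PS2 x al be)) x) x := by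
    intro x
    have n1 : ∀ a ∈ range (D + 1), 0 ≤ ind (fun x => ¬ dl ≤ cE w q' (ind (PS2 x a r)) x) x := fun a _ => ind_nonneg _ _
    have n2 := sum_nonneg n1
    have n3 := ind_nonneg (fun x => ¬ dl ≤ cE w q' (ind (PS2 x al be)) x) x
    by_cases h : TT w q' dl i0 i1 r al be x
    · have e : ind (fun x => ¬ TT w q' dl i0 i1 r al be x) x = 0 := if_neg (not_not.2 h)
      rw [e]
      linarith
    · have e : ind (fun x => ¬ TT w q' dl i0 i1 r al be x) x = 1 := if_pos h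
      rw [e]
      by_cases h5 : dl ≤ cE w q' (ind (PS2 x al be)) x
      · have h6 : ¬ ∀ a, i0 ≤ a → a ≤ i1 → dl ≤ cE w q' (ind (PS2 x a r)) x := fun h6 => h ⟨h6, h5⟩
        push Not at h6
        obtain ⟨a, ha, ha', h7⟩ := h6
        have e2 : ind (fun x => ¬ dl ≤ cE w q' (ind (PS2 x a r)) x) x = 1 := if_pos (not_le.2 h7)
        have e3 := single_le_sum (f := fun a => ind (fun x => ¬ dl ≤ cE w q' (ind (PS2 x a r)) x) x) n1
          (mem_range.2 (show a < D + 1 by omega))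
        beta_reduce at e3
        rw [e2] at e3
        linarith
      · have e2 : ind (fun x => ¬ dl ≤ cE w q' (ind (PS2 x al be)) x) x = 1 := if_pos h5
        rw [e2]
        linarith
  have e2 := cE_mono w p e1 S0
  rw [cE_addf, cE_sumf] at e2
  have e3 : ∀ a ∈ range (D + 1), cE w p (ind fun x => ¬ dl ≤ cE w q' (ind (PS2 x a r)) x) S0 ≤ (D + 1) ^ 2 * dl := fun a ha =>
    ty2_le w hc hdl (by rw [mem_range] at ha; omega) h2 S0
  have e4 := (sum_le_sum e3)
  rw [sum_const, card_range, nsmul_eq_mul] at e4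
  have e5 := ty2_le (a := al) (r := be) w hc hdl h3 h4 S0
  have e6 : (((D + 1 : ℕ) : ℝ)) * (((D : ℝ) + 1) ^ 2 * dl) + ((D : ℝ) + 1) ^ 2 * dl = ((D : ℝ) + 1) ^ 2 * ((D : ℝ) + 2) * dl := by
    push_cast
    ring
  have e7 : ((D : ℝ) + 1) ^ 2 * ((D : ℝ) + 2) * dl ≤ ((D : ℝ) + 2) ^ 3 * dl := by
    refine mul_le_mul_of_nonneg_right ?_ hdl
    have : (0 : ℝ) ≤ D := Nat.cast_nonneg D
    nlinarith
  refine e2.trans ((add_le_add e4 e5).trans (e6.le.trans e7))

end

end Pool.W7d29a1.C0.NN1
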