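import Pool.Agent.W_7d29a1_HZ.Z21_Step

/-!
MP_7d29a1_pr, [CURV0] (helper61): TWO LEVELS IN LEMMA NS, the growth. The steps of `Z21_Step` for paths which are typical up to the factor
`exp B`, `B ≤ Q EE n` (instead of `exp Q`), `n` the length of the steep interval.
-/

set_option autoImplicit false

namespace Pool.Agent.W_7d29a1_C0.NS61

open MeasureTheory ProbabilityTheory Filter Topology
open Pool.Agent.W_7d29a1_F Pool.Agent.W_7d29a1_h4g Pool.Agent.W_7d29a1_H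
open Pool.Agent.W_7d29a1_HS (In wd scale_b sub_half vr_vl)
open Pool.Agent.W_7d29a1_HZ.Z21

variable {μ : Measure ℝ} [IsProbabilityMeasure μ] {s c C : ℝ} {n₀ : ℕ}

/-- The first two regions of `mass21`. -/
theorem first61 (h : In μ s c C n₀) {b g v₀ Q d B : ℝ} {n₁ R : ℕ} {η : Env} (hE : Env21 μ s c b Q d g v₀ n₁ R η)
    (hg0 : 0 < g) (hgb : 4 * g ≤ b) (hB : 0 ≤ B) {t x : ℤ} {n m : ℕ} {ya yq : ℤ} (ht : 0 ≤ t) (htR : t + (n + m : ℕ) ≤ R)
    (hx : |x| ≤ 2 * R) (hn : 1 ≤ n) (hya1 : ya ≤ n) (hD : sl μ s * n < (ya : ℝ)) (hv₀ : 0 < v₀)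
    {hh M φ : ℝ} (hφ : φ = n * Jt21 μ s v₀ (((ya : ℝ) - sl μ s * n) / n))
    (hhv : hh = th21 μ s g (min (((ya : ℝ) - sl μ s * n) / n) v₀))
    (hh0 : 0 ≤ hh) (htl : ∀ k : ℤ, 0 ≤ k → k ≤ n → V μ (s + hh) η (t + n, x + k) m ≤ M) :
    (n + 1) * (Real.exp B * W μ (s + hh) η (t, x) n ya * Real.exp (V μ (s + hh) η (t + n, x + ya) m)) +
      ∑ k ∈ Finset.Icc (0 : ℤ) n with ya ≤ k, W μ (s + hh) η (t, x) n k * Real.exp (V μ (s + hh) η (t + n, x + k) m) ≤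
      2 * ((n : ℝ) + 1) * Real.exp (B + Q * EE μ s n - 3 * g * φ + M) := by
  have hnR : (1 : ℝ) ≤ n := by exact_mod_cast hn
  have hn0 : (0 : ℝ) < n := by linarith
  have hya : ((ya : ℝ)) ≤ n := by exact_mod_cast hya1
  have hya00 : (0 : ℝ) < ya := lt_trans (mul_pos h.sl_pos hn0) hD
  have hya0' : 0 < ya := by exact_mod_cast hya00
  have hya0 : 0 ≤ ya := hya0'.le
  obtain ⟨v, hv⟩ : ∃ v : ℝ, v = ((ya : ℝ) - sl μ s * n) / n := ⟨_, rfl⟩
  rw [← hv] at hhv hφ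
  have hv0 : 0 < v := by rw [hv]; exact div_pos (by linarith) hn0
  have hLL := ex_nonneg h.em h.nd s hh
  -- one kernel
  have hker : ∀ k : ℤ, ya ≤ k → k ≤ n → W μ (s + hh) η (t, x) n k ≤ Real.exp (Q * EE μ s n - 3 * g * φ) := by
    intro k hk1 hk2
    have hkR : (ya : ℝ) ≤ k := by exact_mod_cast hk1
    have hkR2 : (k : ℝ) ≤ n := by exact_mod_cast hk2
    obtain ⟨u, hu⟩ : ∃ u : ℝ, u = ((k : ℝ) - sl μ s * n) / n := ⟨_, rfl⟩
    have hun : n * u = (k : ℝ) - sl μ s * n := by rw [hu]; field_simp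
    have hvu : v ≤ u := by
      rw [hv, hu]
      exact div_le_div_of_nonneg_right (by linarith) hn0.le
    have hu0 : 0 < u := by linarith
    have hen := hE.en t x n k ht (by push_cast at htR ⊢; omega) (by
      have := abs_nonneg x
      omega) hn (lt_of_lt_of_le hD hkR) hk2
    rw [← hu] at hen
    have hJvu : Jt21 μ s v₀ v ≤ Jt21 μ s v₀ u := Jt_mono21 h hv₀ hv0.le hvu
    have hJv : 0 ≤ Jt21 μ s v₀ v := (h.rf.nn _).trans (Jt_ge' h hv₀ (v := v))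
    have hJu : 0 ≤ Jt21 μ s v₀ u := hJv.trans hJvu
    -- `hh u ≤ g J u`
    have h1 : hh * u ≤ g * Jt21 μ s v₀ u := by
      rw [hhv]
      exact Jt_ge21 h hv₀ hv0 hvu hg0
    rw [W_tilt21, W_exp21 η (t, x) (by omega) hk2, ← Real.exp_add]
    refine Real.exp_le_exp.2 ?_
    have h3 : hh * ((k : ℝ) - sl μ s * n) = n * (hh * u) := by rw [← hun]; ring
    have h4 : (n : ℝ) * (hh * u) ≤ n * (g * Jt21 μ s v₀ u) := mul_le_mul_of_nonneg_left h1 hn0.le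
    have h5 : (0 : ℝ) ≤ n * ex μ s hh := by positivity
    have h6 : b * (n * Jt21 μ s v₀ u) ≥ 4 * g * (n * Jt21 μ s v₀ u) := mul_le_mul_of_nonneg_right hgb (by positivity)
    have h7 : 3 * g * (n * Jt21 μ s v₀ v) ≤ 3 * g * (n * Jt21 μ s v₀ u) :=
      mul_le_mul_of_nonneg_left (mul_le_mul_of_nonneg_left hJvu hn0.le) (by positivity)
    have h8 : (n : ℝ) * (g * Jt21 μ s v₀ u) = g * (n * Jt21 μ s v₀ u) := by ring
    rw [h3, hφ]
    rw [h8] at h4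
    linarith only [h4, h5, h6, h7, hen]
  obtain ⟨e, he⟩ : ∃ e : ℝ, e = Real.exp (B + Q * EE μ s n - 3 * g * φ + M) := ⟨_, rfl⟩
  have hval : Real.exp (Q * EE μ s n - 3 * g * φ) * Real.exp M ≤ e := by
    rw [he, ← Real.exp_add]
    exact Real.exp_le_exp.2 (by linarith)
  have hval2 : Real.exp B * Real.exp (Q * EE μ s n - 3 * g * φ) * Real.exp M = e := by
    rw [he, ← Real.exp_add, ← Real.exp_add]
    congr 1
    ring
  have hA : Real.exp B * W μ (s + hh) η (t, x) n ya * Real.exp (V μ (s + hh) η (t + n, x + ya) m) ≤ e := by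
    rw [← hval2]
    refine mul_le_mul (mul_le_mul_of_nonneg_left (hker ya le_rfl hya1) (Real.exp_pos _).le)
      (Real.exp_le_exp.2 (htl ya hya0 hya1)) (Real.exp_pos _).le (by positivity)
  have hB : ∑ k ∈ Finset.Icc (0 : ℤ) n with ya ≤ k, W μ (s + hh) η (t, x) n k * Real.exp (V μ (s + hh) η (t + n, x + k) m) ≤
      ((n : ℝ) + 1) * e := by
    calc ∑ k ∈ Finset.Icc (0 : ℤ) n with ya ≤ k, W μ (s + hh) η (t, x) n k * Real.exp (V μ (s + hh) η (t + n, x + k) m)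
        ≤ ∑ _k ∈ Finset.Icc (0 : ℤ) n with ya ≤ _k, e := by
          refine Finset.sum_le_sum fun k hk => ?_
          rw [Finset.mem_filter, Finset.mem_Icc] at hk
          refine le_trans ?_ hval
          exact mul_le_mul (hker k hk.2 hk.1.2) (Real.exp_le_exp.2 (htl k hk.1.1 hk.1.2)) (Real.exp_pos _).le
            (Real.exp_pos _).le
      _ ≤ ∑ _k ∈ Finset.Icc (0 : ℤ) n, e := Finset.sum_le_sum_of_subset_of_nonneg (Finset.filter_subset _ _)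
          fun _ _ _ => by rw [he]; exact (Real.exp_pos _).le
      _ = ((n : ℝ) + 1) * e := by
          rw [Finset.sum_const, Int.card_Icc, nsmul_eq_mul]
          have : ((n : ℤ) + 1 - 0).toNat = n + 1 := by omega
          rw [this]
          push_cast
          ring
  rw [← he]
  have hA' : ((n : ℝ) + 1) * (Real.exp B * W μ (s + hh) η (t, x) n ya * Real.exp (V μ (s + hh) η (t + n, x + ya) m)) ≤
      ((n : ℝ) + 1) * e := mul_le_mul_of_nonneg_left hA (by positivity)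
  linarith

theorem numA61 {N C Q E g φ a1 a2 B : ℝ} (hN : 0 < N + 1) (hC : 1 ≤ C) (hE : 1 ≤ E) (hQ : 1 ≤ Q)
    (hlog : Real.log (4 * (N + 1)) ≤ (3 + C) * E) (hBE : B ≤ Q * E) (hbig : (5 + C) * (Q * E) ≤ g * φ) (h1 : a1 ≤ g * φ / 4)
    (h2 : a2 ≤ g * φ / 4) :
    2 * (N + 1) * Real.exp (B + Q * E - 3 * g * φ + a1) ≤ 1 / 2 * Real.exp (-a2) := by
  have e1 : 4 * (N + 1) = Real.exp (Real.log (4 * (N + 1))) := (Real.exp_log (by positivity)).symm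
  have hQE2 : 1 * E ≤ Q * E := mul_le_mul_of_nonneg_right hQ (by linarith)
  have h3 : (3 + C) * E ≤ (3 + C) * (Q * E) := mul_le_mul_of_nonneg_left (by linarith) (by linarith)
  have h4 : (3 + C) * (Q * E) + 2 * (Q * E) = (5 + C) * (Q * E) := by ring
  have h5 : 0 ≤ (5 + C) * (Q * E) := mul_nonneg (by linarith) (by linarith)
  have h6 : 3 * g * φ = 3 * (g * φ) := by ring
  have h7 : Real.exp (Real.log (4 * (N + 1))) * Real.exp (B + Q * E - 3 * g * φ + a1) ≤ Real.exp (-a2) := by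
    rw [← Real.exp_add, h6]
    refine Real.exp_le_exp.2 ?_
    linarith
  rw [← e1] at h7
  linarith

/-- The growth property. The slope `v = (ya - sl n) / n > 0` of a steep interval of length `n`: the interval of length `T n` is at
least twice as steep (in units) or its energy is at least `c₂ T n`. -/
def Stp61 (μ : Measure ℝ) (s c b d g v₀ c₂ Λ : ℝ) (n₁ T : ℕ) : Prop :=
  ∀ (Q B : ℝ), 1 ≤ Q → 0 ≤ B → ∀ (R : ℕ) (η : Env), Env21 μ s c b Q d g v₀ n₁ R η → ∀ (t x : ℤ) (n : ℕ) (ya yq : ℤ), 0 ≤ t →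
    t + (T * n : ℕ) ≤ R → |x| ≤ 2 * R → 1 ≤ n → B ≤ Q * EE μ s n → ya ≤ n → 0 ≤ yq → yq ≤ ((T - 1) * n : ℕ) → sl μ s * n < ya →
    (∀ k : ℤ, 0 ≤ k → k ≤ n → W μ s η (t, x) n k * W μ s η (t + n, x + k) ((T - 1) * n) (ya + yq - k) ≤
      Real.exp B * (W μ s η (t, x) n ya * W μ s η (t + n, x + ya) ((T - 1) * n) yq)) →
    Λ * Q * EE μ s n ≤ ph21 μ s n ya →
    2 * ph21 μ s n ya * EE μ s (T * n) ≤ ph21 μ s (T * n) (ya + yq) * EE μ s n ∨ c₂ * (T * n : ℕ) ≤ ph21 μ s (T * n) (ya + yq)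

/-- **GROWTH.** -/
theorem step61 (h : In μ s c C n₀) {b : ℝ} (hb0 : 0 < b) : ∃ (g d : ℝ) (T : ℕ), 0 < g ∧ 4 * g ≤ c ∧
    0 < d ∧ 2 ≤ T ∧ ∀ n₁ : ℕ, ∃ v₁ : ℝ, 0 < v₁ ∧ v₁ ≤ 1 / 2 ∧ ∀ v₀ : ℝ, 0 < v₀ → v₀ ≤ v₁ → ∃ c₂ Λ : ℝ, 0 < c₂ ∧ 1 ≤ Λ ∧
    Stp61 μ s c b d g v₀ c₂ Λ n₁ T := by
  have hc0 := h.c0
  have hc1 := h.c1
  have hC1 := h.C1
  obtain ⟨bv, n₆, hbv, hbv1, -, hvv⟩ := vr_vl h
  obtain ⟨g, hg⟩ : ∃ g : ℝ, g = min (b / 4) (c * bv / 4) := ⟨_, rfl⟩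
  have hg0 : 0 < g := by rw [hg]; positivity
  have hgb : 4 * g ≤ b := by
    have : g ≤ b / 4 := hg ▸ min_le_left _ _
    linarith
  have hgK : g ≤ c * bv / 4 := hg ▸ min_le_right _ _
  have hgv : 2 * g / bv ≤ c / 2 := by
    rw [div_le_iff₀ hbv]
    linarith
  have hgc : 4 * g ≤ c := by
    have : c * bv ≤ c * 1 := mul_le_mul_of_nonneg_left hbv1 hc0.le
    linarith
  have hg1 : g < 1 := by linarith
  obtain ⟨κ, hκ0, hκ1, htilt⟩ := tilt21 h hg0 hg1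
  obtain ⟨K, hK, hup⟩ := J_cmp83 h
  obtain ⟨A', hA', n₂, hn₂1, hsub⟩ := sub_half h
  obtain ⟨c₁, hc₁⟩ : ∃ c₁ : ℝ, c₁ = 1 / (K * (2 / κ) ^ K) := ⟨_, rfl⟩
  have hc₁0 : 0 < c₁ := by rw [hc₁]; positivity
  have hJc : ∀ v : ℝ, 0 < v → v ≤ 1 → c₁ * J μ s v ≤ J μ s (κ / 2 * v) := by
    intro v hv hv1
    have h1 := hup (κ / 2 * v) v (2 / κ) (by rw [one_le_div hκ0]; linarith) (by
      rw [abs_mul, abs_of_pos (by positivity : (0 : ℝ) < κ / 2), ← mul_assoc, div_mul_div_comm, mul_comm 2 κ,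
        div_self (by positivity), one_mul]) (by rw [abs_of_pos hv]; exact hv1)
    rw [hc₁, one_div, inv_mul_le_iff₀ (by positivity)]
    exact h1
  obtain ⟨T, hT⟩ : ∃ T : ℕ, T = max 2 ⌈4 * A' / c₁ ^ 2⌉₊ := ⟨_, rfl⟩
  have hT2 : 2 ≤ T := hT ▸ le_max_left _ _
  have hTA : 4 * A' / c₁ ^ 2 ≤ T := by
    refine (Nat.le_ceil _).trans ?_
    exact_mod_cast (hT ▸ le_max_right 2 ⌈4 * A' / c₁ ^ 2⌉₊ : ⌈4 * A' / c₁ ^ 2⌉₊ ≤ T)
  rw [div_le_iff₀ (by positivity)] at hTA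
  have hT2R : (2 : ℝ) ≤ T := by exact_mod_cast hT2
  have hT0 : (0 : ℝ) < T := by linarith
  refine ⟨g, 1 / (4 * T), T, hg0, hgc, by positivity, hT2, fun n₁ => ?_⟩
  obtain ⟨v₁, hv₁0, hv₁h, hv₁⟩ := scale21 h (max n₁ n₆)
  refine ⟨min v₁ (1 / 2), lt_min hv₁0 (by norm_num), min_le_right _ _, fun v₀ hv₀0 hv₀1' => ?_⟩
  have hv₀1 : v₀ ≤ v₁ := hv₀1'.trans (min_le_left _ _)
  have hv₀h : v₀ ≤ 1 := hv₀1.trans hv₁h
  obtain ⟨cv, hcv⟩ : ∃ cv : ℝ, cv = J μ s v₀ := ⟨_, rfl⟩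
  have hJv₀ : 0 < J μ s v₀ := J_pos83 h hv₀0.ne'
  have hcv0 : 0 < cv := by rw [hcv]; exact hJv₀
  have hcv1 : cv ≤ 1 := by
    rw [hcv]
    have := J_le_abs h.em h.nd s v₀
    rw [abs_of_pos hv₀0] at this
    linarith
  obtain ⟨c₂, hc₂⟩ : ∃ c₂ : ℝ, c₂ = J μ s (κ / 2 * v₀) := ⟨_, rfl⟩
  have hc₂0 : 0 < c₂ := by
    rw [hc₂]
    exact J_pos83 h (by positivity : (0 : ℝ) < κ / 2 * v₀).ne'
  obtain ⟨Λ, hΛ⟩ : ∃ Λ : ℝ, Λ = (5 + C) / (g * cv) + 12 / (κ * cv) + 5 / cv + (n₂ : ℝ) + 1 := ⟨_, rfl⟩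
  have p1 : 0 < (5 + C) / (g * cv) := by positivity
  have p2 : 0 < 12 / (κ * cv) := by positivity
  have p3 : 0 < 5 / cv := by positivity
  have p4 : 0 ≤ (n₂ : ℝ) := by positivity
  have hΛ1 : 1 ≤ Λ := by linarith
  have hΛg : 5 + C ≤ Λ * (g * cv) := by
    have : (5 + C) / (g * cv) ≤ Λ := by linarith
    rwa [div_le_iff₀ (by positivity)] at this
  have hΛk : 12 ≤ Λ * (κ * cv) := by
    have : 12 / (κ * cv) ≤ Λ := by linarith
    rwa [div_le_iff₀ (by positivity)] at this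
  have hΛc : 5 ≤ Λ * cv := by
    have : 5 / cv ≤ Λ := by linarith
    rwa [div_le_iff₀ hcv0] at this
  have hΛn : (n₂ : ℝ) < Λ := by linarith
  refine ⟨c₂, Λ, hc₂0, hΛ1, fun Q B hQ hB0 R η hE t x n ya yq ht htR hx hn hBn hya1 hyq0 hyq1 hD htyp hbig => ?_⟩
  obtain ⟨m, hm⟩ : ∃ m : ℕ, m = (T - 1) * n := ⟨_, rfl⟩
  rw [← hm] at hyq1 htyp
  have hTn : T * n = n + m := by
    rw [hm]
    obtain ⟨T', rfl⟩ : ∃ T', T = T' + 1 := ⟨T - 1, by omega⟩
    rw [Nat.add_sub_cancel]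
    ring
  have hnm : n ≤ m := by
    rw [hm]
    exact Nat.le_mul_of_pos_left n (by omega)
  rw [hTn] at htR ⊢
  have hnR : (1 : ℝ) ≤ n := by exact_mod_cast hn
  have hn0 : (0 : ℝ) < n := by linarith
  have hTnR : (T : ℝ) * n = n + m := by exact_mod_cast hTn
  have hya : ((ya : ℝ)) ≤ n := by exact_mod_cast hya1
  have hmR : (n : ℝ) ≤ m := by exact_mod_cast hnm
  have hyqR : (yq : ℝ) ≤ m := by exact_mod_cast hyq1
  obtain ⟨v, hv⟩ : ∃ v : ℝ, v = ((ya : ℝ) - sl μ s * n) / n := ⟨_, rfl⟩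
  have hv0 : 0 < v := by rw [hv]; exact div_pos (by linarith) hn0
  have hvh : v ≤ 1 := by
    rw [hv, div_le_iff₀ hn0]
    have := mul_pos h.sl_pos hn0
    linarith
  have hphi : ph21 μ s n ya = n * J μ s v := by
    unfold ph21
    rw [hv]
  have hJv : 0 < J μ s v := J_pos83 h hv0.ne'
  have hJv1 : J μ s v ≤ 1 := by
    have := J_le_abs h.em h.nd s v
    rw [abs_of_pos hv0] at this
    linarith
  obtain ⟨φ, hφ⟩ : ∃ φ : ℝ, φ = ph21 μ s n ya := ⟨_, rfl⟩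
  rw [← hφ] at hbig ⊢
  rw [← hφ] at hphi
  have hφ0 : 0 < φ := by rw [hphi]; positivity
  obtain ⟨w, hw⟩ : ∃ w : ℝ, w = min v v₀ := ⟨_, rfl⟩
  have hw0 : 0 < w := by rw [hw]; exact lt_min hv0 hv₀0
  have hwv : w ≤ v := hw ▸ min_le_left _ _
  have hwv₀ : w ≤ v₀ := hw ▸ min_le_right _ _
  have hJw : cv * J μ s v ≤ J μ s w := by
    rcases le_total v v₀ with h1 | h1
    · rw [hw, min_eq_left h1]
      exact mul_le_of_le_one_left hJv.le hcv1
    · rw [hw, min_eq_right h1, hcv]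
      exact mul_le_of_le_one_right hJv₀.le hJv1
  have hJw0 : 0 < J μ s w := J_pos83 h hw0.ne'
  obtain ⟨ht0, htw, hLu, hLl, hLt⟩ := htilt w hw0 (hwv.trans hvh)
  obtain ⟨r, hr1, hr11, hrv, hrv2, hrE, hrJ⟩ := hv₁ w hw0 (hwv₀.trans hv₀1)
  have hadm := adm21 h hbv (hvv r ((le_max_right _ _).trans hr1)).1 hg0 hw0 hrv hrv2 hrE hrJ
  obtain ⟨θ, hθ⟩ : ∃ θ : ℝ, θ = th21 μ s g w := ⟨_, rfl⟩
  rw [← hθ] at ht0 htw hLu hLl hLt hadm
  obtain ⟨L, hL⟩ : ∃ L : ℝ, L = ex μ s θ := ⟨_, rfl⟩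
  rw [← hL] at hLu hLl hLt
  have hadm2 : θ * wd μ s r ≤ c / 2 * EE μ s r := hadm.2.trans (mul_le_mul_of_nonneg_right hgv (EE_pos _).le)
  have hL0 : 0 < L := lt_of_lt_of_le (by positivity) hLl
  have hEn := one_le_EE (μ := μ) (s := s) n
  have hEn0 := EE_pos (μ := μ) (s := s) n
  -- `Q r ≤ n`
  have hQr : Q * r ≤ n := numD21 h hn hr11 hQ hJw0 hcv0 hrJ hJw hΛc (by rw [← hphi]; exact hbig)
  -- the tilted lucks
  have hnRle : (n : ℤ) ≤ R := by push_cast at htR; omega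
  have htl : ∀ (t' x' : ℤ) (k : ℕ), 0 ≤ t' → t' + k ≤ R → |x'| ≤ 3 * R → n ≤ k →
      |V μ (s + θ) η (t', x') k| ≤ 1 / (4 * T) * (k * L) := by
    intro t' x' k h1 h2 h3 h4
    have h5 := hE.tl t' x' k h1 h2 h3 n ya (by exact_mod_cast hnRle) hya1 hD r ((le_max_left _ _).trans hr1)
    rw [← hv, ← hw, ← hθ, ← hL] at h5
    have hk : (n : ℝ) ≤ k := by exact_mod_cast h4
    exact h5 hadm.1 hadm2 (hQr.trans hk)
  have hx3 : |x| ≤ 3 * R := by
    have := abs_nonneg x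
    omega
  have hVs := htl t x (n + m) ht htR hx3 (by omega)
  have hVb : ∀ k : ℤ, 0 ≤ k → k ≤ n → V μ (s + θ) η (t + n, x + k) m ≤ 1 / (4 * T) * (m * L) := by
    intro k hk0 hk1
    refine (le_abs_self _).trans (htl (t + n) (x + k) m (by omega) (by push_cast at htR; omega) ?_ hnm)
    have h1 : |x + k| ≤ |x| + |k| := abs_add_le x k
    have h2 : |k| = k := abs_of_nonneg hk0
    omega
  have hmass := mass21 (μ := μ) (s := s + θ) (η := η) (t := t) (x := x) (n := n) (m := m) (ya := ya) (yq := yq) (B := B) hyq0 hyq1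
    fun k hk0 hk1 => typ_tilt21 θ (htyp k hk0 hk1)
  obtain ⟨φt, hφt⟩ : ∃ φt : ℝ, φt = n * Jt21 μ s v₀ v := ⟨_, rfl⟩
  have hfirst := first61 h hE hg0 hgb hB0 ht htR hx hn hya1 hD hv₀0 (hh := θ) (M := 1 / (4 * T) * (m * L)) (φ := φt)
    (yq := yq) (by rw [hφt, hv]) (by rw [hθ, hw, hv]) ht0.le hVb
  have hwt : J μ s w ≤ Jt21 μ s v₀ v := hw ▸ Jt_ge' h hv₀0 (v := v)
  have hlast := last21 (μ := μ) (s := s) ht0.le η (t, x) (n + m) (ya + yq)
  rw [← hL] at hlast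
  have hlu := hE.lu t x (n + m) ht htR hx3 (by omega)
  have hsR : (((n + m : ℕ) : ℝ)) = n + m := by push_cast; ring
  rw [hsR] at hVs hlast
  obtain ⟨q, hq⟩ : ∃ q : ℝ, q = (n : ℝ) + m := ⟨_, rfl⟩
  rw [← hq] at hVs hlast
  have hqT : q = T * n := by rw [hq, hTnR]
  have hq0 : 0 < q := by rw [hqT]; positivity
  obtain ⟨D', hD'⟩ : ∃ D' : ℝ, D' = ((ya + yq : ℤ) : ℝ) - sl μ s * q := ⟨_, rfl⟩
  rw [← hD'] at hlast
  -- the two exponentials
  have hdL : 1 / (4 * (T : ℝ)) * (q * L) ≤ g * φt / 4 := by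
    have h1 : 1 / (4 * (T : ℝ)) * (q * L) = n * L / 4 := by
      rw [hqT]
      field_simp
    rw [h1, hφt]
    have h2 : L ≤ g * Jt21 μ s v₀ v := hLu.trans (mul_le_mul_of_nonneg_left hwt hg0.le)
    have h3 : (n : ℝ) * L ≤ n * (g * Jt21 μ s v₀ v) := mul_le_mul_of_nonneg_left h2 hn0.le
    have h4 : (n : ℝ) * (g * Jt21 μ s v₀ v) = g * (n * Jt21 μ s v₀ v) := by ring
    linarith only [h3, h4]
  have hdm : 1 / (4 * (T : ℝ)) * (m * L) ≤ g * φt / 4 := by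
    refine le_trans ?_ hdL
    refine mul_le_mul_of_nonneg_left (mul_le_mul_of_nonneg_right ?_ hL0.le) (by positivity)
    rw [hq]
    linarith only [hn0]
  have hφt2 : cv * φ ≤ φt := by
    rw [hphi, hφt]
    calc cv * (n * J μ s v) = n * (cv * J μ s v) := by ring
      _ ≤ n * J μ s w := mul_le_mul_of_nonneg_left hJw hn0.le
      _ ≤ _ := mul_le_mul_of_nonneg_left hwt hn0.le
  have hbig1 : (5 + C) * (Q * EE μ s n) ≤ g * φt := by
    calc (5 + C) * (Q * EE μ s n) ≤ Λ * (g * cv) * (Q * EE μ s n) := mul_le_mul_of_nonneg_right hΛg (by positivity)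
      _ = g * (cv * (Λ * Q * EE μ s n)) := by ring
      _ ≤ g * (cv * φ) := mul_le_mul_of_nonneg_left (mul_le_mul_of_nonneg_left hbig hcv0.le) hg0.le
      _ ≤ g * φt := mul_le_mul_of_nonneg_left hφt2 hg0.le
  have hclA := numA61 (by linarith : (0 : ℝ) < (n : ℝ) + 1) hC1 hEn hQ (log_le21 h hn) hBn hbig1 hdm hdL
  have hVs2 : Real.exp (-(1 / (4 * T) * (q * L))) ≤ Real.exp (V μ (s + θ) η (t, x) (n + m)) :=
    Real.exp_le_exp.2 (abs_le.1 hVs).1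
  have hexp : -(1 / (4 * T) * (q * L)) ≤ θ * D' - q * L + Q * EE μ s (n + m) + 1 := by
    refine numB21 (V := V μ s η (t, x) (n + m)) ?_ hlu
    linarith only [hmass, hfirst, hclA, hlast, hVs2]
  -- the gain of the large interval
  have hgain : κ * cv * (T * φ) ≤ q * L := by
    rw [hqT, hphi]
    calc κ * cv * (T * (n * J μ s v)) = T * n * (κ * (cv * J μ s v)) := by ring
      _ ≤ T * n * (κ * J μ s w) := mul_le_mul_of_nonneg_left (mul_le_mul_of_nonneg_left hJw hκ0.le) (by positivity)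
      _ ≤ T * n * L := mul_le_mul_of_nonneg_left hLl (by positivity)
  have hEs : EE μ s (n + m) ≤ 2 * T * EE μ s n := by
    have h1 := scale_b h hn (show n ≤ n + m by omega)
    rw [hsR, ← hTnR] at h1
    have h2 : (n : ℝ) * EE μ s (n + m) ≤ n * (2 * T * EE μ s n) := by linarith
    exact le_of_mul_le_mul_left h2 hn0
  have hbig2 : 12 * (T * (Q * EE μ s n)) ≤ q * L := by
    refine le_trans ?_ hgain
    calc 12 * (T * (Q * EE μ s n)) ≤ Λ * (κ * cv) * (T * (Q * EE μ s n)) := mul_le_mul_of_nonneg_right hΛk (by positivity)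
      _ = κ * cv * (T * (Λ * Q * EE μ s n)) := by ring
      _ ≤ _ := mul_le_mul_of_nonneg_left (mul_le_mul_of_nonneg_left hbig hT0.le) (by positivity)
  have hhalf : q * L / 2 ≤ θ * D' := numC21 hT2R (mul_pos hq0 hL0) hQ hEn hexp hEs hbig2
  have hD'w : κ / 2 * w * q ≤ D' := by
    have h1 : θ * (κ / 2 * w * q) ≤ θ * D' := by
      calc θ * (κ / 2 * w * q) = q * (κ * (θ * w)) / 2 := by ring
        _ ≤ q * L / 2 := by
          have := mul_le_mul_of_nonneg_left hLt hq0.le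
          linarith
        _ ≤ θ * D' := hhalf
    exact le_of_mul_le_mul_left h1 ht0
  have hph' : ph21 μ s (n + m) (ya + yq) = q * J μ s (D' / q) := by
    unfold ph21
    rw [hsR, ← hq, ← hD']
  rw [hph']
  have hJD : J μ s (κ / 2 * w) ≤ J μ s (D' / q) := h.J_mono (by positivity) (by rwa [le_div_iff₀ hq0])
  rcases le_total v v₀ with h1 | h1
  · left
    have hwe : w = v := by rw [hw, min_eq_left h1]
    rw [hwe] at hJD
    have h2 := hJc v hv0 hvh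
    -- `n₂ ≤ n`
    have hn2 : n₂ ≤ n := by
      by_contra hcon
      push Not at hcon
      have h3 : (n : ℝ) ≤ n₂ := by exact_mod_cast hcon.le
      have h5 : φ ≤ n₂ * 1 := by
        rw [hphi]
        exact mul_le_mul h3 hJv1 hJv.le (by positivity)
      have h60 : (1 : ℝ) ≤ Q * EE μ s n := by
        calc (1 : ℝ) = 1 * 1 := by norm_num
          _ ≤ Q * EE μ s n := mul_le_mul hQ hEn zero_le_one (by linarith only [hQ])
      have h6 : Λ * 1 ≤ Λ * (Q * EE μ s n) := mul_le_mul_of_nonneg_left h60 (by linarith only [hΛ1])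
      have h7 : Λ * (Q * EE μ s n) = Λ * Q * EE μ s n := by ring
      linarith only [h5, h6, h7, hΛn, hbig]
    have h3 := hsub n (n + m) hn2 (by omega)
    rw [hsR, ← hq, hqT, mul_div_assoc, div_self hn0.ne', mul_one] at h3
    -- `EE (n + m) ^ 2 ≤ A' T EE n ^ 2`
    have h4 : 2 * EE μ s (n + m) ≤ c₁ * T * EE μ s n := numE21 hTA hT0 hc₁0 hEn0 h3
    have h5 : c₁ * J μ s v ≤ J μ s (D' / q) := h2.trans hJD
    rw [hqT, hphi]
    have hJv' := hJv.le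
    calc 2 * (n * J μ s v) * EE μ s (n + m) = n * J μ s v * (2 * EE μ s (n + m)) := by ring
      _ ≤ n * J μ s v * (c₁ * T * EE μ s n) := mul_le_mul_of_nonneg_left h4 (by positivity)
      _ = T * n * (c₁ * J μ s v) * EE μ s n := by ring
      _ ≤ T * n * J μ s (D' / (T * n)) * EE μ s n := by
        rw [← hqT]
        exact mul_le_mul_of_nonneg_right (mul_le_mul_of_nonneg_left h5 hq0.le) hEn0.le
  · right
    have hwe : w = v₀ := by rw [hw, min_eq_right h1]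
    rw [hwe, ← hc₂] at hJD
    rw [hsR, ← hq, mul_comm]
    exact mul_le_mul_of_nonneg_left hJD hq0.le

end Pool.Agent.W_7d29a1_C0.NS61
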