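import Pool.Agent.W_7d29a1_C0.NSa61
import Pool.Agent.W_7d29a1_HZ.Z21_Top

/-!
MP_7d29a1_pr, [CURV0] (helper61): TWO LEVELS IN LEMMA NS, the iteration up to the top scale and the top scale (`Z21_Iter`, `Z21_Top`), for
paths which are typical up to the factor `exp B`, `B ≤ Q EE m₀`, and intervals of length at least `m₀`.
-/

set_option autoImplicit false

namespace Pool.Agent.W_7d29a1_C0.NS61

open MeasureTheory ProbabilityTheory Filter Topology
open Pool.Agent.W_7d29a1_F Pool.Agent.W_7d29a1_h4g Pool.Agent.W_7d29a1_H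
open Pool.Agent.W_7d29a1_HS (In wd scale_b)
open Pool.Agent.W_7d29a1_Z21 (Typ21 typ_rv21)
open Pool.Agent.W_7d29a1_g (rv)
open Pool.Agent.W_7d29a1_HZ.Z21

variable {μ : Measure ℝ} [IsProbabilityMeasure μ] {s c C : ℝ} {n₀ : ℕ}

omit [IsProbabilityMeasure μ] in
/-- Growth to the right, forward. -/
theorem fwd61 {b Q B d g v₀ c₂ Λ : ℝ} {n₁ T N : ℕ} {η : Env} {P : ℕ → ℤ} (hS : Stp61 μ s c b d g v₀ c₂ Λ n₁ T) (hT : 2 ≤ T)
    (hQ : 1 ≤ Q) (hB0 : 0 ≤ B) (hE : Env21 μ s c b Q d g v₀ n₁ N η) (hty : Typ21 μ B N η P) (hP : Pa21 N P) {i n : ℕ} (hn : 1 ≤ n) (hBn : B ≤ Q * EE μ s n)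
    (hi : i + T * n ≤ N) (hD : sl μ s * n < ((P (i + n) - P i : ℤ) : ℝ)) (hb : Λ * Q * EE μ s n ≤ ph21 μ s n (P (i + n) - P i)) :
    2 * ph21 μ s n (P (i + n) - P i) * EE μ s (T * n) ≤ ph21 μ s (T * n) (P (i + T * n) - P i) * EE μ s n ∨
      c₂ * (T * n : ℕ) ≤ ph21 μ s (T * n) (P (i + T * n) - P i) := by
  have e1 : i + n + (T - 1) * n = i + T * n := by
    obtain ⟨T', rfl⟩ : ∃ T', T = T' + 1 := ⟨T - 1, by omega⟩
    rw [Nat.add_sub_cancel]
    ring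
  have hle1 := hP.le i n (by omega)
  have hle2 := hP.le (i + n) ((T - 1) * n) (by omega)
  rw [e1] at hle2
  have hty' : ∀ k : ℤ, 0 ≤ k → k ≤ n → _ := fun k h0 h1 => typ_s21 hty s (i := i) (n := n) (m := (T - 1) * n) (by omega) h0 h1
  rw [e1] at hty'
  have e2 : P (i + T * n) - P i = (P (i + n) - P i) + (P (i + T * n) - P (i + n)) := by ring
  have e3 : P i + (P (i + n) - P i) = P (i + n) := by ring
  rw [e2]
  refine hS Q B hQ hB0 N η hE i (P i) n (P (i + n) - P i) (P (i + T * n) - P (i + n)) (by omega) (by push_cast at hi ⊢; exact_mod_cast hi)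
    (hP.bx i (by omega)) hn hBn (by omega) (by omega) (by omega) hD ?_ hb
  intro k hk0 hk1
  have h1 := hty' k hk0 hk1
  rw [e3, ← e2]
  exact h1

/-- Growth forward, to the right (factor `T`) or to the left (factor `T'`). -/
theorem fwd2_61 (h : In μ s c C n₀) {b Q B d g v₀ c₂ Λ b' d' g' v₀' c₂' Λ' : ℝ} {n₁ T n₁' T' N : ℕ} {η : Env} {P : ℕ → ℤ}
    (hS : Stp61 μ s c b d g v₀ c₂ Λ n₁ T) (hT : 2 ≤ T) (hS' : Stp61 μ (-s) c b' d' g' v₀' c₂' Λ' n₁' T') (hT' : 2 ≤ T')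
    (hQ : 1 ≤ Q) (hB0 : 0 ≤ B) (hE : Env21 μ s c b Q d g v₀ n₁ N η) (hE' : Env21 μ (-s) c b' Q d' g' v₀' n₁' N (mir η)) (hty : Typ21 μ B N η P)
    (hP : Pa21 N P) (hb' : ∀ i, i ≤ N → |(i : ℤ) - P i| ≤ 2 * N) {i n : ℕ} (hn : 1 ≤ n) (hBn : B ≤ Q * EE μ s n)
    (hi : i + T * n ≤ N) (hi' : i + T' * n ≤ N) (hD : sl μ s * n ≠ ((P (i + n) - P i : ℤ) : ℝ))
    (hb : max Λ Λ' * Q * EE μ s n ≤ ph21 μ s n (P (i + n) - P i)) :
    Gr21 μ s (min c₂ c₂') n T (P (i + n) - P i) (P (i + T * n) - P i) ∨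
      Gr21 μ s (min c₂ c₂') n T' (P (i + n) - P i) (P (i + T' * n) - P i) := by
  have hEn := EE_pos (μ := μ) (s := s) n
  have hmul : ∀ x : ℝ, x ≤ max Λ Λ' → x * Q * EE μ s n ≤ ph21 μ s n (P (i + n) - P i) := fun x hx =>
    (mul_le_mul_of_nonneg_right (mul_le_mul_of_nonneg_right hx (by linarith)) hEn.le).trans hb
  rcases lt_or_gt_of_ne hD with h1 | h1
  · left
    rcases fwd61 hS hT hQ hB0 hE hty hP hn hBn hi h1 (hmul Λ (le_max_left _ _)) with h2 | h2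
    · exact Or.inl h2
    · exact Or.inr ((mul_le_mul_of_nonneg_right (min_le_left _ _) (Nat.cast_nonneg _)).trans h2)
  · right
    have h2 := typ_mir21 hty
    have h3 := hP.rho hb'
    have e : ∀ m : ℕ, ((i + m : ℕ) : ℤ) - P (i + m) - ((i : ℤ) - P i) = m - (P (i + m) - P i) := fun m => by
      push_cast
      ring
    have hTn : 1 ≤ T' * n := Nat.mul_pos (by omega) hn
    have h4 := fwd61 hS' hT' hQ hB0 hE' h2 h3 (i := i) (n := n) hn (by rw [EE_mir h.em]; exact hBn) hi' (by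
      rw [e n, side_mir21 h.em s h.nd]
      exact h1) (by
      rw [e n, ph_mir21 h.em s h.nd hn, EE_mir h.em]
      exact hmul Λ' (le_max_right _ _))
    rw [e n, e (T' * n), ph_mir21 h.em s h.nd hn, ph_mir21 h.em s h.nd hTn, EE_mir h.em, EE_mir h.em] at h4
    rcases h4 with h5 | h5
    · exact Or.inl h5
    · exact Or.inr ((mul_le_mul_of_nonneg_right (min_le_right _ _) (Nat.cast_nonneg _)).trans h5)

/-- Growth in some direction of time. -/
theorem grow61 (h : In μ s c C n₀) {b Q B d g v₀ c₂ Λ b' d' g' v₀' c₂' Λ' : ℝ} {n₁ T n₁' T' N : ℕ} {η : Env} {P : ℕ → ℤ}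
    (hS : Stp61 μ s c b d g v₀ c₂ Λ n₁ T) (hT : 2 ≤ T) (hS' : Stp61 μ (-s) c b' d' g' v₀' c₂' Λ' n₁' T') (hT' : 2 ≤ T')
    (hQ : 1 ≤ Q) (hB0 : 0 ≤ B) (hE : Env4 μ s c b Q d g v₀ n₁ b' d' g' v₀' n₁' N η) (hty : Typ21 μ B N η P) (hP : Pa21 N P)
    (h0 : ∀ i, i ≤ N → 0 ≤ P i ∧ P i ≤ i) {i n : ℕ} (hn : 1 ≤ n) (hBn : B ≤ Q * EE μ s n) (hi : i + n ≤ N) (hTn : 2 * (T * n) ≤ N) (hTn' : 2 * (T' * n) ≤ N)
    (hD : sl μ s * n ≠ ((P (i + n) - P i : ℤ) : ℝ)) (hb : max Λ Λ' * Q * EE μ s n ≤ ph21 μ s n (P (i + n) - P i)) :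
    ∃ U j : ℕ, 2 ≤ U ∧ j + U * n ≤ N ∧ Gr21 μ s (min c₂ c₂') n U (P (i + n) - P i) (P (j + U * n) - P j) := by
  have hTT : ∀ U : ℕ, U = T ∨ U = T' → 2 ≤ U ∧ 2 * (U * n) ≤ N := by
    rintro U (rfl | rfl)
    · exact ⟨hT, hTn⟩
    · exact ⟨hT', hTn'⟩
  rcases le_or_gt (i + max T T' * n) N with h1 | h1
  · have hm1 : T * n ≤ max T T' * n := Nat.mul_le_mul_right n (le_max_left _ _)
    have hm2 : T' * n ≤ max T T' * n := Nat.mul_le_mul_right n (le_max_right _ _)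
    rcases fwd2_61 h hS hT hS' hT' hQ hB0 hE.e1 hE.e2 hty hP (fun k hk => by
      have := h0 k hk
      rw [abs_le]
      constructor <;> omega) hn hBn (by omega) (by omega) hD hb with h2 | h2
    · exact ⟨T, i, hT, by omega, h2⟩
    · exact ⟨T', i, hT', by omega, h2⟩
  · have hmax : max T T' = T ∨ max T T' = T' := max_choice T T'
    obtain ⟨hM2, hMN⟩ := hTT _ hmax
    have hnT : n ≤ T * n := Nat.le_mul_of_pos_left n (by omega)
    have hnT' : n ≤ T' * n := Nat.le_mul_of_pos_left n (by omega)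
    have hm1 : T * n ≤ max T T' * n := Nat.mul_le_mul_right n (le_max_left _ _)
    have hm2 : T' * n ≤ max T T' * n := Nat.mul_le_mul_right n (le_max_right _ _)
    have hi2 : max T T' * n ≤ i + n := by
      have : n ≤ max T T' * n := hnT.trans hm1
      omega
    obtain ⟨i', hi'⟩ : ∃ i' : ℕ, i' = N - (i + n) := ⟨_, rfl⟩
    have e0 : N - i' = i + n := by omega
    have e1 : N - (i' + n) = i := by omega
    have e : -P i - -P (i + n) = P (i + n) - P i := by ring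
    have h2 := fwd2_61 h hS hT hS' hT' hQ hB0 hE.e3 hE.e4 (typ_rv21 hty) hP.rv (fun k hk => by
      have := h0 (N - k) (by omega)
      rw [abs_le]
      constructor <;> omega) (i := i') (n := n) hn hBn (by omega) (by omega) (by
        simp only [e0, e1]
        rw [e]
        exact hD) (by
        simp only [e0, e1]
        rw [e]
        exact hb)
    simp only [e0, e1] at h2
    rw [e] at h2
    have key : ∀ U : ℕ, 2 ≤ U → U * n ≤ max T T' * n →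
        Gr21 μ s (min c₂ c₂') n U (P (i + n) - P i) (-P (N - (i' + U * n)) - -P (i + n)) →
        ∃ U j : ℕ, 2 ≤ U ∧ j + U * n ≤ N ∧ Gr21 μ s (min c₂ c₂') n U (P (i + n) - P i) (P (j + U * n) - P j) := by
      intro U hU hUn h3
      refine ⟨U, i + n - U * n, hU, by omega, ?_⟩
      have e2 : N - (i' + U * n) = i + n - U * n := by omega
      have e3 : i + n - U * n + U * n = i + n := by omega
      have e' : -P (i + n - U * n) - -P (i + n) = P (i + n) - P (i + n - U * n) := by ring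
      rw [e2, e'] at h3
      rw [e3]
      exact h3
    rcases h2 with h3 | h3
    · exact key T hT hm1 h3
    · exact key T' hT' hm2 h3

/-- **THE ITERATION.** -/
theorem iter61 (h : In μ s c C n₀) {b Q B d g v₀ c₂ Λ b' d' g' v₀' c₂' Λ' Λ₀ : ℝ} {n₁ T n₁' T' N : ℕ} {η : Env} {P : ℕ → ℤ}
    (hS : Stp61 μ s c b d g v₀ c₂ Λ n₁ T) (hT : 2 ≤ T) (hS' : Stp61 μ (-s) c b' d' g' v₀' c₂' Λ' n₁' T') (hT' : 2 ≤ T')
    (hQ : 1 ≤ Q) (hB0 : 0 ≤ B) (hE : Env4 μ s c b Q d g v₀ n₁ b' d' g' v₀' n₁' N η) (hty : Typ21 μ B N η P) (hP : Pa21 N P)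
    (h0 : ∀ i, i ≤ N → 0 ≤ P i ∧ P i ≤ i) {m₀ : ℕ} (hBm : ∀ n, m₀ ≤ n → B ≤ Q * EE μ s n) (hΛ0 : 0 < Λ₀) (hΛ : max Λ Λ' * Q ≤ Λ₀)
    (htop : ∀ i n : ℕ, m₀ ≤ n → 1 ≤ n → i + n ≤ N → N < 2 * (max T T' * n) → ph21 μ s n (P (i + n) - P i) < Λ₀ * EE μ s n)
    {n₃ : ℕ} (hn₃ : ∀ n : ℕ, n₃ ≤ n → 1 ≤ n → Λ₀ * EE μ s n < min c₂ c₂' * n) :
    ∀ i n : ℕ, m₀ ≤ n → n₃ ≤ n → 1 ≤ n → i + n ≤ N → ph21 μ s n (P (i + n) - P i) < Λ₀ * EE μ s n := by
  have key : ∀ k : ℕ, ∀ i n : ℕ, N ≤ n + k → m₀ ≤ n → n₃ ≤ n → 1 ≤ n → i + n ≤ N → ph21 μ s n (P (i + n) - P i) < Λ₀ * EE μ s n := by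
    intro k
    induction k using Nat.strong_induction_on with
    | _ k ih =>
      intro i n hk hm0 hn3 hn1 hin
      rcases lt_or_ge N (2 * (max T T' * n)) with h1 | h1
      · exact htop i n hm0 hn1 hin h1
      by_contra hcon
      push Not at hcon
      have hEn := EE_pos (μ := μ) (s := s) n
      have hm1 : T * n ≤ max T T' * n := Nat.mul_le_mul_right n (le_max_left _ _)
      have hm2 : T' * n ≤ max T T' * n := Nat.mul_le_mul_right n (le_max_right _ _)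
      have hD : sl μ s * n ≠ ((P (i + n) - P i : ℤ) : ℝ) := by
        intro hD
        have hz : ph21 μ s n (P (i + n) - P i) = 0 := by
          unfold ph21
          rw [hD, sub_self, zero_div, h.rf.zero, mul_zero]
        rw [hz] at hcon
        have : 0 < Λ₀ * EE μ s n := by positivity
        linarith
      have hb : max Λ Λ' * Q * EE μ s n ≤ ph21 μ s n (P (i + n) - P i) := (mul_le_mul_of_nonneg_right hΛ hEn.le).trans hcon
      obtain ⟨U, j, hU, hj, hjj⟩ := grow61 h hS hT hS' hT' hQ hB0 hE hty hP h0 hn1 (hBm n hm0) hin (by omega) (by omega) hD hb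
      have hnT : 2 * n ≤ U * n := Nat.mul_le_mul_right n hU
      have h2 := ih (k - 1) (by omega) j (U * n) (by omega) (by omega) (by omega) (by omega) hj
      have hET := EE_pos (μ := μ) (s := s) (U * n)
      rcases hjj with h3 | h3
      · have h4 : 2 * (Λ₀ * EE μ s n) * EE μ s (U * n) ≤ 2 * ph21 μ s n (P (i + n) - P i) * EE μ s (U * n) :=
          mul_le_mul_of_nonneg_right (by linarith) hET.le
        have h5 : ph21 μ s (U * n) (P (j + U * n) - P j) * EE μ s n < Λ₀ * EE μ s (U * n) * EE μ s n :=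
          mul_lt_mul_of_pos_right h2 hEn
        have h6 : 0 < Λ₀ * EE μ s (U * n) * EE μ s n := by positivity
        nlinarith
      · have h4 := hn₃ (U * n) (by omega) (by omega)
        linarith
  intro i n hm0 hn3 hn1 hin
  exact key N i n (by omega) hm0 hn3 hn1 hin

/-- The positions of the path. -/
theorem pos61 (h : In μ s c C n₀) {b Q B d g v₀ b' d' g' v₀' cv : ℝ} {n₁ n₁' N : ℕ} {η : Env} {P : ℕ → ℤ}
    (hE : Env21 μ s c b Q d g v₀ n₁ N η) (hE' : Env21 μ (-s) c b' Q d' g' v₀' n₁' N (mir η))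
    (hcv : ∀ v : ℝ, 0 ≤ v → cv * J μ s v ≤ b * Jt21 μ s v₀ v) (hcv' : ∀ v : ℝ, 0 ≤ v → cv * J μ (-s) v ≤ b' * Jt21 μ (-s) v₀' v)
    (hQ : 1 ≤ Q) (hBN : B ≤ Q * EE μ s N) (hty : Typ21 μ B N η P)
    (hP : Pa21 N P) (h0 : ∀ i, i ≤ N → 0 ≤ P i ∧ P i ≤ i) (hX : X μ s η ((0 : ℤ), (0 : ℤ)) N (P N) ≤ Q * EE μ s N)
    {t : ℕ} (ht : 1 ≤ t) (htN : t ≤ N) :
    cv * ph21 μ s t (P t) ≤ (5 + C) * (Q * EE μ s N) := by
  obtain ⟨m, rfl⟩ : ∃ m, N = t + m := ⟨N - t, by omega⟩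
  have hP0 : P 0 = 0 := by
    have := h0 0 (by omega)
    omega
  have hle := hP.le t m le_rfl
  have hEN := one_le_EE (μ := μ) (s := s) (t + m)
  have h1 := en21 h hE hE' hcv hcv' ht (by omega) (h0 t (by omega)).1 (h0 t (by omega)).2
  have hEt : EE μ s t ≤ EE μ s (t + m) := EE_mono (by omega)
  have hEm : EE μ s m ≤ EE μ s (t + m) := EE_mono (by omega)
  -- the second piece
  have h2 : -(Q * EE μ s (t + m)) ≤ X μ s η ((t : ℤ), P t) m (P (t + m) - P t) := by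
    have h7 : W μ s η ((t : ℤ), P t) m (P (t + m) - P t) ≤ Real.exp (V μ s η ((t : ℤ), P t) m) := by
      have := WS_le_exp_V (μ := μ) (s := s) η ((t : ℤ), P t) m {P (t + m) - P t}
      unfold WS at this
      rwa [Finset.sum_singleton] at this
    have h8 : Real.log (W μ s η ((t : ℤ), P t) m (P (t + m) - P t)) ≤ V μ s η ((t : ℤ), P t) m := by
      rw [← Real.log_exp (V μ s η ((t : ℤ), P t) m)]
      exact Real.log_le_log (W_pos _ _ (by omega) (by omega)) h7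
    have h9 : V μ s η ((t : ℤ), P t) m ≤ Q * EE μ s (t + m) := by
      rcases Nat.eq_zero_or_pos m with hm | hm
      · subst hm
        rw [V_zero]
        positivity
      · refine (hE.lu t (P t) m (by omega) (by push_cast; omega) ?_ hm).trans (mul_le_mul_of_nonneg_left hEm (by linarith))
        have := h0 t (by omega)
        rw [abs_le]
        push_cast
        constructor <;> omega
    unfold X
    linarith
  -- typicality
  have hty' : ∀ k : ℤ, 0 ≤ k → k ≤ t → _ := fun k h0 h1 => typ_s21 hty s (i := 0) (n := t) (m := m) (by omega) h0 h1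
  rw [Nat.zero_add, hP0] at hty'
  have e0 : ((0 : ℕ) : ℤ) = 0 := rfl
  rw [e0] at hty'
  have hWt : 0 < W μ s η ((0 : ℤ), (0 : ℤ)) t (P t) := W_pos _ _ (h0 t (by omega)).1 (h0 t (by omega)).2
  have hWm : 0 < W μ s η ((t : ℤ), P t) m (P (t + m) - P t) := W_pos _ _ (by omega) (by omega)
  have hWN : 0 < W μ s η ((0 : ℤ), (0 : ℤ)) (t + m) (P (t + m)) :=
    W_pos _ _ (h0 (t + m) le_rfl).1 (by exact_mod_cast (h0 (t + m) le_rfl).2)
  have h3 : W μ s η ((0 : ℤ), (0 : ℤ)) (t + m) (P (t + m)) ≤ ((t : ℝ) + 1) * (Real.exp B *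
      (W μ s η ((0 : ℤ), (0 : ℤ)) t (P t) * W μ s η ((t : ℤ), P t) m (P (t + m) - P t))) := by
    rw [W_add]
    calc _ ≤ ∑ _k ∈ Finset.Icc (0 : ℤ) t, Real.exp B *
          (W μ s η ((0 : ℤ), (0 : ℤ)) t (P t) * W μ s η ((t : ℤ), P t) m (P (t + m) - P t)) := by
          refine Finset.sum_le_sum fun k hk => ?_
          rw [Finset.mem_Icc] at hk
          have h4 := hty' k hk.1 hk.2
          simp only [zero_add, sub_zero] at h4 ⊢
          exact h4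
      _ = _ := by
          rw [Finset.sum_const, Int.card_Icc, nsmul_eq_mul]
          have : ((t : ℤ) + 1 - 0).toNat = t + 1 := by omega
          rw [this]
          push_cast
          ring
  have ht0 : (0 : ℝ) < (t : ℝ) + 1 := by positivity
  have h4 : Real.log (W μ s η ((0 : ℤ), (0 : ℤ)) (t + m) (P (t + m))) ≤ Real.log ((t : ℝ) + 1) + (B +
      (Real.log (W μ s η ((0 : ℤ), (0 : ℤ)) t (P t)) + Real.log (W μ s η ((t : ℤ), P t) m (P (t + m) - P t)))) := by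
    have := Real.log_le_log hWN h3
    rwa [Real.log_mul ht0.ne' (by positivity), Real.log_mul (Real.exp_pos _).ne' (by positivity), Real.log_exp,
      Real.log_mul hWt.ne' hWm.ne'] at this
  have h5 : Real.log ((t : ℝ) + 1) ≤ (1 + C) * EE μ s (t + m) := by
    have htR : (1 : ℝ) ≤ t := by exact_mod_cast ht
    have h6 : Real.log ((t : ℝ) + 1) ≤ Real.log (2 * t) := Real.log_le_log ht0 (by linarith)
    rw [Real.log_mul (by norm_num) (by positivity)] at h6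
    have h7 := h.lg t ht
    have h8 := Real.log_two_lt_d9
    have hC1 := h.C1
    have h9 : C * EE μ s t ≤ C * EE μ s (t + m) := mul_le_mul_of_nonneg_left hEt (by linarith)
    linarith
  unfold X at hX h1 h2
  have h6 : Q * EE μ s t ≤ Q * EE μ s (t + m) := mul_le_mul_of_nonneg_left hEt (by linarith)
  have h8 : (1 + C) * EE μ s (t + m) ≤ (1 + C) * (Q * EE μ s (t + m)) := by
    refine mul_le_mul_of_nonneg_left ?_ (by have := h.C1; linarith)
    exact le_mul_of_one_le_left (by linarith) hQ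
  linarith

/-- The displacements of the top scale. -/
theorem top61 (h : In μ s c C n₀) {b v₀ b' v₀' : ℝ} (hb : 0 < b) (hv₀ : 0 < v₀) (hb' : 0 < b') (hv₀' : 0 < v₀') (T : ℕ)
    (hT : 1 ≤ T) :
    ∃ Λt : ℝ, 0 < Λt ∧ ∀ (d g : ℝ) (n₁ : ℕ) (d' g' : ℝ) (n₁' : ℕ) (Q B : ℝ), 1 ≤ Q → ∀ (N : ℕ), B ≤ Q * EE μ s N → ∀ (η : Env) (P : ℕ → ℤ),
    Env21 μ s c b Q d g v₀ n₁ N η → Env21 μ (-s) c b' Q d' g' v₀' n₁' N (mir η) → Typ21 μ B N η P → Pa21 N P →
    (∀ i, i ≤ N → 0 ≤ P i ∧ P i ≤ i) → X μ s η ((0 : ℤ), (0 : ℤ)) N (P N) ≤ Q * EE μ s N →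
    ∀ i n : ℕ, 1 ≤ n → i + n ≤ N → N < 2 * (T * n) → ph21 μ s n (P (i + n) - P i) ≤ Λt * Q * EE μ s n := by
  obtain ⟨c1, hc1, hcJ⟩ := Jt_cv21 h hv₀
  obtain ⟨c2, hc2, hcJ'⟩ := Jt_cv21 h.mir hv₀'
  obtain ⟨cv, hcv⟩ : ∃ cv : ℝ, cv = min (b * c1) (b' * c2) := ⟨_, rfl⟩
  have hcv0 : 0 < cv := by rw [hcv]; positivity
  have hcv1 : ∀ v : ℝ, 0 ≤ v → cv * J μ s v ≤ b * Jt21 μ s v₀ v := fun v hv =>
    calc cv * J μ s v ≤ b * c1 * J μ s v := mul_le_mul_of_nonneg_right (hcv ▸ min_le_left _ _) (h.rf.nn v)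
      _ = b * (c1 * J μ s v) := by ring
      _ ≤ _ := mul_le_mul_of_nonneg_left (hcJ v hv) hb.le
  have hcv2 : ∀ v : ℝ, 0 ≤ v → cv * J μ (-s) v ≤ b' * Jt21 μ (-s) v₀' v := fun v hv =>
    calc cv * J μ (-s) v ≤ b' * c2 * J μ (-s) v := mul_le_mul_of_nonneg_right (hcv ▸ min_le_right _ _) (h.mir.rf.nn v)
      _ = b' * (c2 * J μ (-s) v) := by ring
      _ ≤ _ := mul_le_mul_of_nonneg_left (hcJ' v hv) hb'.le
  obtain ⟨K, hK, hup⟩ := J_abs21 h
  have hC1 := h.C1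
  have hTR : (1 : ℝ) ≤ T := by exact_mod_cast hT
  obtain ⟨B, hB⟩ : ∃ B : ℝ, B = K * (4 * T) ^ K := ⟨_, rfl⟩
  have hB0 : 0 < B := by rw [hB]; positivity
  refine ⟨B * ((5 + C) / cv) * (4 * T), by positivity, fun d g n₁ d' g' n₁' Q B₁ hQ N hBN η P hE hE' hty hP h0 hX i n hn hin hNT => ?_⟩
  have hEN := EE_pos (μ := μ) (s := s) N
  have hN1 : 1 ≤ N := by omega
  have hN0 : (0 : ℝ) < N := by exact_mod_cast hN1
  have hn0 : (0 : ℝ) < n := by exact_mod_cast hn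
  obtain ⟨M, hM⟩ : ∃ M : ℝ, M = (5 + C) / cv * (Q * EE μ s N) := ⟨_, rfl⟩
  have hM0 : 0 ≤ M := by rw [hM]; positivity
  -- the positions
  have hpos : ∀ t : ℕ, t ≤ N → N * J μ s (((P t : ℝ) - sl μ s * t) / N) ≤ M := by
    intro t ht
    rcases Nat.eq_zero_or_pos t with h6 | h6
    · subst h6
      have h1 := h0 0 ht
      have h7 : (P 0 : ℝ) = 0 := by exact_mod_cast (by omega : P 0 = 0)
      rw [h7, Nat.cast_zero, mul_zero, sub_zero, zero_div, h.rf.zero, mul_zero]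
      exact hM0
    · have ht0 : (0 : ℝ) < t := by exact_mod_cast h6
      have htN : (t : ℝ) ≤ N := by exact_mod_cast ht
      have h7 := pos61 h hE hE' hcv1 hcv2 hQ hBN hty hP h0 hX h6 ht
      obtain ⟨x, hx⟩ : ∃ x : ℝ, x = (P t : ℝ) - sl μ s * t := ⟨_, rfl⟩
      unfold ph21 at h7
      rw [← hx] at h7 ⊢
      have h10 : N * J μ s (x / N) ≤ t * J μ s (x / t) := by
        have h11 := h.rf.le_mul (t := N / t) ((one_le_div ht0).2 htN) (x / N)
        have e : (N : ℝ) / t * (x / N) = x / t := by field_simp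
        rw [e, div_mul_eq_mul_div, div_le_iff₀ ht0] at h11
        linarith
      have h13 : cv * (N * J μ s (x / N)) ≤ (5 + C) * (Q * EE μ s N) :=
        (mul_le_mul_of_nonneg_left h10 hcv0.le).trans h7
      rw [hM, div_mul_eq_mul_div, le_div_iff₀ hcv0]
      linarith
  -- the displacement
  obtain ⟨x1, hx1⟩ : ∃ x1 : ℝ, x1 = ((P i : ℝ) - sl μ s * i) / N := ⟨_, rfl⟩
  obtain ⟨x2, hx2⟩ : ∃ x2 : ℝ, x2 = ((P (i + n) : ℝ) - sl μ s * ((i + n : ℕ) : ℝ)) / N := ⟨_, rfl⟩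
  have p1 := hpos i (by omega)
  have p2 := hpos (i + n) hin
  rw [← hx1] at p1
  rw [← hx2] at p2
  obtain ⟨u, huM, hu1, hu2⟩ : ∃ u : ℝ, N * J μ s u ≤ M ∧ |x1| ≤ |u| ∧ |x2| ≤ |u| := by
    rcases le_total |x1| |x2| with h1 | h1
    · exact ⟨x2, p2, h1, le_rfl⟩
    · exact ⟨x1, p1, le_rfl, h1⟩
  obtain ⟨v, hv⟩ : ∃ v : ℝ, v = (((P (i + n) - P i : ℤ) : ℝ) - sl μ s * n) / n := ⟨_, rfl⟩
  have hvu : |v| ≤ 4 * T * |u| := by
    rw [hv, abs_div, abs_of_pos hn0, div_le_iff₀ hn0]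
    have e : ((P (i + n) - P i : ℤ) : ℝ) - sl μ s * n = x2 * N - x1 * N := by
      rw [hx1, hx2, div_mul_cancel₀ _ hN0.ne', div_mul_cancel₀ _ hN0.ne']
      push_cast
      ring
    have h6 : (N : ℝ) ≤ 2 * (T * n) := by exact_mod_cast hNT.le
    have hu0 := abs_nonneg u
    rw [e]
    calc |x2 * N - x1 * N| ≤ |x2 * N| + |x1 * N| := abs_sub _ _
      _ = |x2| * N + |x1| * N := by rw [abs_mul, abs_mul, abs_of_pos hN0]
      _ ≤ |u| * N + |u| * N := add_le_add (mul_le_mul_of_nonneg_right hu2 hN0.le) (mul_le_mul_of_nonneg_right hu1 hN0.le)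
      _ = 2 * |u| * N := by ring
      _ ≤ 2 * |u| * (2 * (T * n)) := mul_le_mul_of_nonneg_left h6 (by positivity)
      _ = 4 * T * |u| * n := by ring
  have hJv : J μ s v ≤ B * J μ s u := by
    rw [hB]
    exact hup (4 * T) v u (by linarith) hvu
  have hJu0 := h.rf.nn u
  have hEE : EE μ s N ≤ 4 * T * EE μ s n := by
    have h1 := scale_b h hn (show n ≤ N by omega)
    have h6 : (N : ℝ) ≤ 2 * (T * n) := by exact_mod_cast hNT.le
    have hEn := EE_pos (μ := μ) (s := s) n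
    have h7 : (n : ℝ) * EE μ s N ≤ n * (4 * T * EE μ s n) := by
      calc (n : ℝ) * EE μ s N ≤ 2 * (N * EE μ s n) := h1
        _ ≤ 2 * (2 * (T * n) * EE μ s n) := by
          have := mul_le_mul_of_nonneg_right h6 hEn.le
          linarith
        _ = n * (4 * T * EE μ s n) := by ring
    exact le_of_mul_le_mul_left h7 hn0
  unfold ph21
  rw [← hv]
  have hnN : (n : ℝ) ≤ N := by exact_mod_cast (by omega : n ≤ N)
  calc (n : ℝ) * J μ s v ≤ n * (B * J μ s u) := mul_le_mul_of_nonneg_left hJv hn0.le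
    _ = B * (n * J μ s u) := by ring
    _ ≤ B * (N * J μ s u) := mul_le_mul_of_nonneg_left (mul_le_mul_of_nonneg_right hnN hJu0) hB0.le
    _ ≤ B * M := mul_le_mul_of_nonneg_left huM hB0.le
    _ = B * ((5 + C) / cv) * Q * EE μ s N := by rw [hM]; ring
    _ ≤ B * ((5 + C) / cv) * Q * (4 * T * EE μ s n) := mul_le_mul_of_nonneg_left hEE (by positivity)
    _ = _ := by ring

end Pool.Agent.W_7d29a1_C0.NS61
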