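import Pool.Agent.W_7d29a1_C0.Far13
import Pool.Agent.W_7d29a1_C0.Blk86

/-!
C0, helper51: THREE BRANCHES OVER THE SAME ROWS, first part. Two windows `V₁`, `V₂`: the base path is left of both lines, the alternative `a`
is in the class of `V₁` and left of the line of `V₂`, the alternative `b` is in the class of `V₂`. The near tie with `a` is told by the
kernels of the pieces left of the line of `V₂` (`A12`): it does not see the strip of `V₂`. Production (Markov depth), resampling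
(from `A12` to the ordinary near tie at `V₁`), the price of the two windows.
-/

set_option autoImplicit false

namespace Pool.Agent.W_7d29a1_C0.N51

open MeasureTheory ProbabilityTheory Filter Topology Finset
open Pool.Agent.W_7d29a1_F Pool.Agent.W_7d29a1_X Pool.Agent.W_7d29a1_h4g Pool.Agent.W_7d29a1_H
open Pool.Agent.W_7d29a1_HS (In wd md)
open Pool.Agent.W_7d29a1_HZ Pool.Agent.W_7d29a1_HZ.R72 Pool.Agent.W_7d29a1_Z.Asm72
open Pool.Agent.W_7d29a1_HZ.Z86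
open Pool.Agent.W_7d29a1_HZ.ZE
open Pool.Agent.W_7d29a1_HZ.Z15 (kC rC NTc swapC own_pos kC_nonneg kC_meas)
open Pool.Agent.W_7d29a1_HZ.Z36 (kk kk_nonneg kk_meas BadC depthC)
open Pool.Agent.W_7d29a1_Z36 (LocC)
open Pool.Agent.W_7d29a1_Z (Kc Reg)
open Pool.Agent.W_7d29a1_Z15 (Cls Own)
open Pool.Agent.W_7d29a1_ZE (Win Br J_sub_JJ)
open scoped ENNReal

noncomputable section

variable {μ : Measure ℝ} {s : ℝ}

/-! ### The classes -/

/-- Left of both lines. -/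
def cLL (μ : Measure ℝ) (s : ℝ) (V₁ V₂ : Win) (u : ℕ → ℤ) : Prop := cL μ s V₁ u ∧ cL μ s V₂ u

/-- In the class of the first window and left of the line of the second one. -/
def cEL (μ : Measure ℝ) (s : ℝ) (V₁ V₂ : Win) (L : ℕ) (e C : ℝ) (i₀ i₁ : ℕ) (u : ℕ → ℤ) : Prop :=
  cE μ s V₁ L e C i₀ i₁ u ∧ cL μ s V₂ u

theorem locC_mono {J J' : Finset ℕ} (h : J ⊆ J') {C : (ℕ → ℤ) → Prop} (hC : LocC J C) : LocC J' C :=
  fun p p' hp => hC p p' fun t ht => hp t (h ht)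

theorem locC_and {J : Finset ℕ} {C D : (ℕ → ℤ) → Prop} (hC : LocC J C) (hD : LocC J D) : LocC J fun u => C u ∧ D u :=
  fun p p' hp => and_congr (hC p p' hp) (hD p p' hp)

theorem locLL (V₁ V₂ : Win) : LocC (V₁.JJ ∪ V₂.JJ) (cLL μ s V₁ V₂) :=
  locC_and (locC_mono subset_union_left (locL V₁)) (locC_mono subset_union_right (locL V₂))

theorem locEL (V₁ V₂ : Win) (L : ℕ) (e C : ℝ) (i₀ : ℕ) {i₁ : ℕ} (hi : i₁ ≤ V₁.a) :
    LocC (V₁.JJ ∪ V₂.JJ) (cEL μ s V₁ V₂ L e C i₀ i₁) :=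
  locC_and (locC_mono subset_union_left (locE V₁ L e C i₀ hi)) (locC_mono subset_union_right (locL V₂))

/-- The brackets around both windows. -/
def Br2 (V₁ V₂ : Win) : Finset (ℕ × ℕ) :=
  ((range (V₁.N + 1)) ×ˢ (range (V₁.N + 1))).filter fun b => ∀ i ∈ V₁.JJ ∪ V₂.JJ, b.1 < i ∧ i < b.2

theorem mem_Br2 {V₁ V₂ : Win} {b : ℕ × ℕ} : b ∈ Br2 V₁ V₂ ↔ (b.1 ≤ V₁.N ∧ b.2 ≤ V₁.N) ∧ ∀ i ∈ V₁.JJ ∪ V₂.JJ, b.1 < i ∧ i < b.2 := by
  unfold Br2
  rw [mem_filter, mem_product, mem_range, mem_range, Nat.lt_succ_iff, Nat.lt_succ_iff]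

theorem Br2_card (V₁ V₂ : Win) : ((Br2 V₁ V₂).card : ℝ) ≤ ((V₁.N : ℝ) + 1) ^ 2 := by
  have h1 : (Br2 V₁ V₂).card ≤ (V₁.N + 1) * (V₁.N + 1) := by
    unfold Br2
    refine (card_filter_le _ _).trans ?_
    rw [card_product, card_range]
  have h2 : ((Br2 V₁ V₂).card : ℝ) ≤ (((V₁.N + 1) * (V₁.N + 1) : ℕ) : ℝ) := by exact_mod_cast h1
  refine h2.trans (le_of_eq ?_)
  push_cast
  ring

theorem Br2_lt {V₁ V₂ : Win} (hne : V₁.J.Nonempty) {b : ℕ × ℕ} (hb : b ∈ Br2 V₁ V₂) : b.1 < b.2 := by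
  obtain ⟨i, hi⟩ := hne
  have := (mem_Br2.1 hb).2 i (mem_union_left _ (J_sub_JJ V₁ hi))
  omega

theorem Br2_J1 {V₁ V₂ : Win} {b : ℕ × ℕ} (hb : b ∈ Br2 V₁ V₂) : ∀ i ∈ V₁.J, b.1 < i ∧ i < b.2 :=
  fun i hi => (mem_Br2.1 hb).2 i (mem_union_left _ (J_sub_JJ V₁ hi))

theorem Br2_J2 {V₁ V₂ : Win} {b : ℕ × ℕ} (hb : b ∈ Br2 V₁ V₂) : ∀ i ∈ V₂.J, b.1 < i ∧ i < b.2 :=
  fun i hi => (mem_Br2.1 hb).2 i (mem_union_right _ (J_sub_JJ V₂ hi))

theorem Br2_Br {V₁ V₂ : Win} (hH : V₁.N ≤ V₁.H) {b : ℕ × ℕ} (hb : b ∈ Br2 V₁ V₂) : b ∈ Br V₁ := by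
  have h1 := mem_Br2.1 hb
  unfold Br
  rw [mem_filter, mem_product, mem_range, mem_range, Nat.lt_succ_iff, Nat.lt_succ_iff]
  exact ⟨h1.1, by omega, Br2_J1 hb⟩

/-! ### The event -/

/-- **The near tie with the first alternative, told by the kernels left of the line of the second window**, with brackets in `[c, d]`. -/
def A12 (μ : Measure ℝ) (s : ℝ) (V₁ V₂ : Win) (L : ℕ) (e C : ℝ) (i₀ i₁ c d : ℕ) (M : ℝ) (η : Env) (S : Finset ℕ) : Prop :=
  ∃ b ∈ Br2 V₁ V₂, (c ≤ b.1 ∧ b.2 ≤ d) ∧ Real.exp (-M) * kk μ s (cLL μ s V₁ V₂) η b.1 b.2 (pos S) ≤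
    kk μ s (cEL μ s V₁ V₂ L e C i₀ i₁) η b.1 b.2 (pos S)

theorem a12_ms (V₁ V₂ : Win) (L : ℕ) (e C : ℝ) (i₀ i₁ c d : ℕ) (M : ℝ) : Ms (A12 μ s V₁ V₂ L e C i₀ i₁ c d M) := by
  intro S
  have h1 : {η : Env | A12 μ s V₁ V₂ L e C i₀ i₁ c d M η S} = ⋃ b ∈ Br2 V₁ V₂, ⋃ (_ : c ≤ b.1 ∧ b.2 ≤ d),
      {η : Env | Real.exp (-M) * kk μ s (cLL μ s V₁ V₂) η b.1 b.2 (pos S) ≤ kk μ s (cEL μ s V₁ V₂ L e C i₀ i₁) η b.1 b.2 (pos S)} := by
    ext η
    simp only [A12, Set.mem_ofPred_eq, Set.mem_iUnion, exists_prop]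
  rw [h1]
  exact Finset.measurableSet_biUnion _ fun b _ => MeasurableSet.iUnion fun _ =>
    measurableSet_le ((kk_meas _ _ _ _).const_mul _) (kk_meas _ _ _ _)

/-- Kernels of classes which avoid the sites where the environments differ. -/
theorem kk_congr {C : (ℕ → ℤ) → Prop} {η η' : Env} {a b : ℕ} {X : ℕ → ℤ}
    (h : ∀ u : ℕ → ℤ, C u → ∀ t ∈ Ioc a b, η ((t : ℤ), u t) = η' ((t : ℤ), u t)) : kk μ s C η a b X = kk μ s C η' a b X :=
  Pool.Agent.W_7d29a1_Z37.Kc_congr_env 0 _ a (X a) b (X b) fun _ hS _ t ht => h _ hS t ht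

/-- Left of the line: no site of the strip. -/
theorem off_strip {V : Win} {η η' : Env} (h : ∀ q : Pt, ¬ InStrip μ s V q → η q = η' q) {u : ℕ → ℤ} (hu : cL μ s V u) (t : ℕ) :
    η ((t : ℤ), u t) = η' ((t : ℤ), u t) := by
  refine h _ fun hq => ?_
  obtain ⟨-, h2, h3, -⟩ := hq
  have h2' : t ∈ V.J := by simpa using h2
  have h3' : V.Y < V.sg * (u t - md μ s t) := by simpa using h3
  have := hu t h2'
  omega

theorem a12_blind {V₁ V₂ : Win} {L : ℕ} {e C : ℝ} {i₀ i₁ c d : ℕ} {M : ℝ} {η η' : Env}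
    (h : ∀ q : Pt, ¬ InStrip μ s V₂ q → η q = η' q) (S : Finset ℕ) :
    A12 μ s V₁ V₂ L e C i₀ i₁ c d M η S ↔ A12 μ s V₁ V₂ L e C i₀ i₁ c d M η' S := by
  unfold A12
  refine exists_congr fun b => and_congr_right fun _ => and_congr_right fun _ => ?_
  rw [kk_congr (C := cLL μ s V₁ V₂) (η := η) (η' := η') fun u hu t _ => off_strip h hu.2 t,
    kk_congr (C := cEL μ s V₁ V₂ L e C i₀ i₁) (η := η) (η' := η') fun u hu t _ => off_strip h hu.2 t]

/-! ### Production -/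

theorem kk_xx (C : (ℕ → ℤ) → Prop) (η : Env) (a b : ℕ) (S : Finset ℕ) :
    kk μ s C (shr 0 (fun _ => 0) η) a b (pos S) = kk μ s C η a b (pos S) := by
  have h : shr 0 (fun _ => 0) η = η := Pool.Agent.W_7d29a1_HZ.shr_zero 0 η
  rw [h]

/-- What the negation of the bad event of the depth means, without shear. -/
theorem depth_use {a b : ℕ} {CL CR : (ℕ → ℤ) → Prop} {lm M : ℝ} {η : Env} {S S' : Finset ℕ}
    (h : ¬ BadC μ s (fun _ => 0) a b ∅ CL CR lm η S S') (ha : pos S a = pos S' a) (hb : pos S b = pos S' b) (hL : CL (pos S'))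
    (hR : CR (pos S)) (hM : 3 * lm ≤ M) : Real.exp (-M) * kk μ s CL η a b (pos S') ≤ kk μ s CR η a b (pos S') := by
  have h1 : ¬ kk μ s CR (shr 0 (fun _ => 0) η) a b (pos S') <
      Real.exp (Xd μ s (fun _ => 0) ∅ η (pos S) - Xd μ s (fun _ => 0) ∅ η (px (fun _ => 0) S') - 3 * lm) *
        kk μ s CL (shr 0 (fun _ => 0) η) a b (pos S') := by
    intro hlt
    refine h ⟨?_, ?_, hL, ?_, P86.coneQ_empty _ _, P86.coneQ_empty _ _, hlt⟩
    · exact (P86.meet_zero.2 ha : Meet (fun _ => 0) S S' a)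
    · exact (P86.meet_zero.2 hb : Meet (fun _ => 0) S S' b)
    · have e1 : (fun t => pos S t + sv (fun _ => 0) 0 t) = pos S := by
        funext t
        simp [sv]
      rw [e1]
      exact hR
  rw [kk_xx, kk_xx, P86.xd_zero, P86.xd_zero, not_lt] at h1
  refine le_trans ?_ h1
  exact mul_le_mul_of_nonneg_right (Real.exp_le_exp.2 (by linarith)) (kk_nonneg _ _ _ _ _)

/-! ### Resampling -/

theorem clL_iff {V : Win} {a b : ℕ} (hJ : ∀ i ∈ V.J, a < i ∧ i < b) (x : ℤ) (g : Finset ℕ) :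
    clL μ s V a x b g ↔ cL μ s V (Pool.Agent.W_7d29a1_Z.ps 0 a x g) := by
  unfold clL cL Reg Lr
  constructor
  · intro h t ht
    have h1 := h t (mem_Ioc.2 ⟨(hJ t ht).1, (hJ t ht).2.le⟩)
    simpa using h1 (by simpa using ht)
  · intro h t _ htJ
    simpa using h t (by simpa using htJ)

/-- The class of the pieces left of both lines. -/
def clLL (μ : Measure ℝ) (s : ℝ) (V₁ V₂ : Win) : Cls := fun a x b g => clL μ s V₁ a x b g ∧ clL μ s V₂ a x b g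

theorem kC_clLL (V₁ V₂ : Win) (S : Finset ℕ) {b : ℕ × ℕ} (hb : b ∈ Br2 V₁ V₂) (η : Env) :
    kC μ s (clLL μ s V₁ V₂) S b η = kk μ s (cLL μ s V₁ V₂) η b.1 b.2 (pos S) := by
  classical
  unfold kC kk Kc
  refine sum_congr ?_ fun _ _ => rfl
  ext g
  rw [mem_filter, mem_filter]
  refine and_congr_right fun _ => ?_
  exact and_congr (clL_iff (Br2_J1 hb) _ _) (clL_iff (Br2_J2 hb) _ _)

theorem own_LL {V₁ V₂ : Win} (hN : V₁.N = V₂.N) (hH₁ : V₁.N ≤ V₁.H) (hH₂ : V₂.N ≤ V₂.H) :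
    Own (clLL μ s V₁ V₂) (Br2 V₁ V₂) (fun S => InL μ s V₁.sg V₁.J V₁.Y S ∧ InL μ s V₂.sg V₂.J V₂.Y S) := by
  intro S hS b hb
  have h1 : b ∈ Br V₁ := Br2_Br hH₁ hb
  have h2 : b ∈ Br V₂ := by
    have h3 := mem_Br2.1 hb
    unfold Br
    rw [mem_filter, mem_product, mem_range, mem_range, Nat.lt_succ_iff, Nat.lt_succ_iff, ← hN]
    exact ⟨h3.1, by omega, Br2_J2 hb⟩
  exact ⟨own_L V₁ S hS.1 b h1, own_L V₂ S hS.2 b h2⟩

/-- The kernel left of both lines is small against the kernel left of the first line. -/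
def Low (μ : Measure ℝ) (s : ℝ) (V₁ V₂ : Win) (lm : ℝ) (η : Env) (S : Finset ℕ) : Prop :=
  (InL μ s V₁.sg V₁.J V₁.Y S ∧ InL μ s V₂.sg V₂.J V₂.Y S) ∧
    ∃ b ∈ Br2 V₁ V₂, kk μ s (cLL μ s V₁ V₂) η b.1 b.2 (pos S) < Real.exp (-lm) * kk μ s (cL μ s V₁) η b.1 b.2 (pos S)

theorem low_ms (V₁ V₂ : Win) (lm : ℝ) : Ms (Low μ s V₁ V₂ lm) := by
  intro S
  by_cases hc : InL μ s V₁.sg V₁.J V₁.Y S ∧ InL μ s V₂.sg V₂.J V₂.Y S
  · have h1 : {η : Env | Low μ s V₁ V₂ lm η S} = ⋃ b ∈ Br2 V₁ V₂,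
        {η : Env | kk μ s (cLL μ s V₁ V₂) η b.1 b.2 (pos S) < Real.exp (-lm) * kk μ s (cL μ s V₁) η b.1 b.2 (pos S)} := by
      ext η
      simp only [Low, Set.mem_ofPred_eq, Set.mem_iUnion, exists_prop]
      exact ⟨fun h => h.2, fun h => ⟨hc, h⟩⟩
    rw [h1]
    exact Finset.measurableSet_biUnion _ fun b _ => measurableSet_lt (kk_meas _ _ _ _) ((kk_meas _ _ _ _).const_mul _)
  · have h1 : {η : Env | Low μ s V₁ V₂ lm η S} = ∅ := by
      ext η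
      exact ⟨fun h => absurd h.1 hc, fun h => absurd h (Set.notMem_empty _)⟩
    rw [h1]
    exact MeasurableSet.empty

open scoped Classical in
theorem low_pr [IsProbabilityMeasure μ] {V₁ V₂ : Win} (hN : V₁.N = V₂.N) (hH₁ : V₁.N ≤ V₁.H) (hH₂ : V₂.N ≤ V₂.H)
    (hne : V₁.J.Nonempty) {y : ℤ} (lm : ℝ) :
    P1 μ s V₁.N y (Low μ s V₁ V₂ lm) ≤ ENNReal.ofReal (((V₁.N : ℝ) + 1) ^ 2 * Real.exp (-lm)) := by
  refine P1_quenched (low_ms V₁ V₂ lm) (by positivity) fun η => ?_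
  have hB : ∀ b ∈ Br2 V₁ V₂, b.1 ≤ b.2 ∧ b.2 ≤ V₁.N := fun b hb => ⟨(Br2_lt hne hb).le, (mem_Br2.1 hb).1.2⟩
  have hown := own_LL (μ := μ) (s := s) hN hH₁ hH₂
  have hsw := swapC (μ := μ) (s := s) η (N := V₁.N) (y := y) (C := clL μ s V₁) (D := clLL μ s V₁ V₂) hB hown
  have h1 : ∀ S ∈ (range V₁.N).powerset, (if Low μ s V₁ V₂ lm η S then gp μ s η V₁.N y S else 0) ≤
      Real.exp (-lm) * (if InL μ s V₁.sg V₁.J V₁.Y S ∧ InL μ s V₂.sg V₂.J V₂.Y S then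
        gp μ s η V₁.N y S * rC μ s (clL μ s V₁) (clLL μ s V₁ V₂) (Br2 V₁ V₂) S η else 0) := by
    intro S _
    by_cases hL : Low μ s V₁ V₂ lm η S
    · rw [if_pos hL, if_pos hL.1]
      obtain ⟨b, hb, hk⟩ := hL.2
      rw [← kC_clLL V₁ V₂ S hb η, ← kC_clL V₁ S (Br2_J1 hb) η] at hk
      have hpos := own_pos (μ := μ) (s := s) hown hL.1 hb (hB b hb).1 η
      have h2 : Real.exp lm ≤ rC μ s (clL μ s V₁) (clLL μ s V₁ V₂) (Br2 V₁ V₂) S η := by
        have h3 : Real.exp lm ≤ kC μ s (clL μ s V₁) S b η / kC μ s (clLL μ s V₁ V₂) S b η := by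
          rw [le_div_iff₀ hpos]
          have h4 := mul_lt_mul_of_pos_left hk (Real.exp_pos lm)
          rw [← mul_assoc, ← Real.exp_add, add_neg_cancel, Real.exp_zero, one_mul] at h4
          exact h4.le
        refine h3.trans ?_
        unfold rC
        exact single_le_sum (f := fun b => kC μ s (clL μ s V₁) S b η / kC μ s (clLL μ s V₁ V₂) S b η)
          (fun b _ => div_nonneg (kC_nonneg _ _ _ _) (kC_nonneg _ _ _ _)) hb
      have hg := Pool.Agent.W_7d29a1_HZ.gp_nonneg (μ := μ) (s := s) η V₁.N y S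
      have h5 := mul_le_mul_of_nonneg_left h2 hg
      have h6 := mul_le_mul_of_nonneg_left h5 (Real.exp_pos (-lm)).le
      have h7 : Real.exp (-lm) * (gp μ s η V₁.N y S * Real.exp lm) = gp μ s η V₁.N y S := by
        rw [mul_comm (gp μ s η V₁.N y S), ← mul_assoc, ← Real.exp_add, neg_add_cancel, Real.exp_zero, one_mul]
      rw [h7] at h6
      exact h6
    · rw [if_neg hL]
      refine mul_nonneg (Real.exp_pos _).le ?_
      split_ifs
      · refine mul_nonneg (Pool.Agent.W_7d29a1_HZ.gp_nonneg η V₁.N y S) ?_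
        unfold rC
        exact sum_nonneg fun b _ => div_nonneg (kC_nonneg _ _ _ _) (kC_nonneg _ _ _ _)
      · exact le_rfl
  refine (sum_le_sum h1).trans ?_
  rw [← mul_sum]
  have h8 := mul_le_mul_of_nonneg_left (hsw.trans (Br2_card V₁ V₂)) (Real.exp_pos (-lm)).le
  refine (le_of_eq ?_).trans (h8.trans (le_of_eq (mul_comm _ _)))
  congr 1
  refine sum_congr rfl fun S _ => ?_
  by_cases hc : InL μ s V₁.sg V₁.J V₁.Y S ∧ InL μ s V₂.sg V₂.J V₂.Y S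
  · rw [if_pos hc, if_pos hc]
  · rw [if_neg hc, if_neg hc]

/-- **From `A12` to the near tie at the first window.** -/
theorem nte_of_a12 {V₁ V₂ : Win} {L : ℕ} {e C : ℝ} {i₀ i₁ c d : ℕ} {M lm : ℝ} {η : Env} {S : Finset ℕ} (hH₁ : V₁.N ≤ V₁.H)
    (hA : A12 μ s V₁ V₂ L e C i₀ i₁ c d M η S) (hL : ¬ Low μ s V₁ V₂ lm η S) (h1 : InL μ s V₁.sg V₁.J V₁.Y S)
    (h2 : InL μ s V₂.sg V₂.J V₂.Y S) : NTE μ s V₁ L e C i₀ i₁ (M + lm) η S := by
  obtain ⟨b, hb, -, hk⟩ := hA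
  refine ⟨h1, b, Br2_Br hH₁ hb, ?_⟩
  have hJ := Br2_J1 hb
  rw [kC_clE V₁ L e C i₀ i₁ S hJ η, kC_clL V₁ S hJ η]
  have h3 : Real.exp (-lm) * kk μ s (cL μ s V₁) η b.1 b.2 (pos S) ≤ kk μ s (cLL μ s V₁ V₂) η b.1 b.2 (pos S) := by
    by_contra hcon
    exact hL ⟨⟨h1, h2⟩, b, hb, not_le.1 hcon⟩
  have h4 : kk μ s (cEL μ s V₁ V₂ L e C i₀ i₁) η b.1 b.2 (pos S) ≤ kk μ s (cE μ s V₁ L e C i₀ i₁) η b.1 b.2 (pos S) :=
    Pool.Agent.W_7d29a1_Z37.Kc_mono_class 0 η _ _ _ _ fun _ h => h.1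
  calc Real.exp (-(M + lm)) * kk μ s (cL μ s V₁) η b.1 b.2 (pos S)
      = Real.exp (-M) * (Real.exp (-lm) * kk μ s (cL μ s V₁) η b.1 b.2 (pos S)) := by
        rw [← mul_assoc, ← Real.exp_add]
        congr 2
        ring
    _ ≤ Real.exp (-M) * kk μ s (cLL μ s V₁ V₂) η b.1 b.2 (pos S) := mul_le_mul_of_nonneg_left h3 (Real.exp_pos _).le
    _ ≤ _ := hk.trans h4

/-! ### The price of the two windows -/

open scoped Classical in
/-- Indicators as weights. -/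
theorem PR_ind [IsProbabilityMeasure μ] {N : ℕ} {y : ℤ} {A B : Env → Finset ℕ → Prop} (hA : Ms A) (hB : Ms B) :
    PR μ s N y (rdW μ s N y 0 fun S η => if B η S then 1 else 0) A = P1 μ s N y fun η S => B η S ∧ A η S := by
  have e0 : (rdW μ s N y 0 fun S η => if B η S then 1 else 0) = fun (S : Finset ℕ) (η : Env) => if B η S then (1 : ℝ) else 0 := by
    funext S η
    unfold rdW
    rw [pow_zero, div_one]
  rw [e0]
  have hm : ∀ S : Finset ℕ, Measurable fun η : Env => if B η S then (1 : ℝ) else 0 := fun S =>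
    Measurable.ite (hB S) measurable_const measurable_const
  have e1 : P1 μ s N y (fun η S => B η S ∧ A η S) = PR μ s N y (fun _ _ => 1) (fun η S => B η S ∧ A η S) := by
    unfold PR P1
    simp only [mul_one]
  rw [e1, PR_eq hm (fun S η => by split_ifs <;> norm_num) (fun S η => by split_ifs <;> norm_num) hA,
    PR_eq (fun _ => measurable_const) (fun _ _ => zero_le_one) (fun _ _ => le_rfl) (P86.ms_and hB hA)]
  congr 1
  refine integral_congr_ae (Filter.Eventually.of_forall fun η => ?_)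
  refine sum_congr rfl fun S _ => ?_
  by_cases h1 : B η S
  · by_cases h2 : A η S
    · rw [if_pos h1, if_pos h2, if_pos ⟨h1, h2⟩]
    · rw [if_neg h2, if_neg fun h : B η S ∧ A η S => h2 h.2, zero_mul, zero_mul]
  · rw [if_neg h1, if_neg fun h : B η S ∧ A η S => h1 h.1, mul_zero, mul_zero, zero_mul]

open scoped Classical in
theorem rwOk_ind {N : ℕ} {y : ℤ} {B : Env → Finset ℕ → Prop} (hB : Ms B) :
    RwOk μ s N y 0 fun S η => if B η S then 1 else 0 where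
  meas S := Measurable.ite (hB S) measurable_const measurable_const
  nn S η := by split_ifs <;> norm_num
  le S η := by
    rw [pow_zero]
    split_ifs <;> norm_num

end

end Pool.Agent.W_7d29a1_C0.N51
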