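import Pool.Agent.W_7d29a1_C0.NT51A

/-!
C0, helper51: THREE BRANCHES, second part. The near ties `NT2` (one alternative) and `NT3` (two alternatives, one of them between the base path
and the line of the other one, or on the other side) at the windows `Ws` of one scale, with brackets in `[c, d]` and lines at a
bounded distance from the base path; measurability, locality, price.
-/

set_option autoImplicit false

namespace Pool.Agent.W_7d29a1_C0.N51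

open MeasureTheory ProbabilityTheory Filter Topology Finset
open Pool.Agent.W_7d29a1_F Pool.Agent.W_7d29a1_X Pool.Agent.W_7d29a1_h4g Pool.Agent.W_7d29a1_H
open Pool.Agent.W_7d29a1_HS (In wd md)
open Pool.Agent.W_7d29a1_HZ Pool.Agent.W_7d29a1_HZ.R72 Pool.Agent.W_7d29a1_Z.Asm72
open Pool.Agent.W_7d29a1_HZ.Z86
open Pool.Agent.W_7d29a1_HZ.Z86.GX (WT)
open Pool.Agent.W_7d29a1_HZ.ZE
open Pool.Agent.W_7d29a1_HZ.Z15 (kC rC NTc swapC own_pos kC_nonneg kC_meas)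
open Pool.Agent.W_7d29a1_HZ.Z36 (kk kk_nonneg kk_meas BadC depthC)
open Pool.Agent.W_7d29a1_ZE (Win Br J_sub_JJ)
open Pool.Agent.W_7d29a1_Z17 (card_grid)
open Pool.Agent.W_7d29a1_C0.P86 (ms_and off_and OnPos)
open scoped ENNReal

noncomputable section

variable {μ : Measure ℝ} {s : ℝ}

/-! ### Sums over events of the path -/

theorem P1_cnt {N : ℕ} {y : ℤ} {ι : Type*} (Q : Finset ι) (A : ι → Finset ℕ → Prop) {F : Env → Finset ℕ → Prop} (C : ℕ)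
    (hC : ∀ S, ∃ Q' : Finset ι, Q'.card ≤ C ∧ ∀ q ∈ Q, A q S → q ∈ Q') :
    ∑ q ∈ Q, P1 μ s N y (fun η S => F η S ∧ A q S) ≤ (C : ℝ≥0∞) * P1 μ s N y F := by
  classical
  unfold P1
  rw [sum_comm, mul_sum]
  refine sum_le_sum fun S _ => ?_
  obtain ⟨Q', h1, h2⟩ := hC S
  have h3 : ∀ q ∈ Q, ((law μ).withDensity fun η => ENNReal.ofReal (gp μ s η N y S)) {η | F η S ∧ A q S} ≤
      if q ∈ Q' then ((law μ).withDensity fun η => ENNReal.ofReal (gp μ s η N y S)) {η | F η S} else 0 := by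
    intro q hq
    by_cases hA : A q S
    · rw [if_pos (h2 q hq hA)]
      exact measure_mono fun η hη => hη.1
    · have : {η : Env | F η S ∧ A q S} = ∅ := by
        ext η
        exact ⟨fun h => absurd h.2 hA, fun h => absurd h (Set.notMem_empty _)⟩
      rw [this, measure_empty]
      exact zero_le
  refine (sum_le_sum h3).trans ?_
  rw [← sum_filter, sum_const, nsmul_eq_mul]
  refine mul_le_mul' (Nat.cast_le.2 ?_) le_rfl
  exact (card_le_card fun q hq => (mem_filter.1 hq).2).trans h1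

/-! ### The lines -/

/-- The lines. -/
def QL (L : ℕ) : Finset (ℤ × ℤ) := ({1, -1} : Finset ℤ) ×ˢ Icc (-(5 * (L : ℤ))) (5 * L)

theorem QL_card (L : ℕ) : (QL L).card = 2 * (10 * L + 1) := by
  unfold QL
  rw [card_product, Int.card_Icc]
  have h5 : ({1, -1} : Finset ℤ).card = 2 := by decide
  have h6 : ((5 * L : ℤ) + 1 - -(5 * L : ℤ)).toNat = 10 * L + 1 := by omega
  rw [h6, h5]

/-- The line is close to the path. -/
def NrK (μ : Measure ℝ) (s : ℝ) (K : ℕ) (W : WT) (q : ℤ × ℤ) (S : Finset ℕ) : Prop :=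
  (((2 ^ W.1 : ℕ)) : ℤ) ∣ q.2 ∧ |q.1 * (pos S W.2.1 - md μ s W.2.1) - q.2| ≤ ((K * 2 ^ W.1 : ℕ) : ℤ)

/-- The number of the lines close to a path. -/
theorem count_K (L K : ℕ) (W : WT) (S : Finset ℕ) :
    ∃ Q' : Finset (ℤ × ℤ), Q'.card ≤ 4 * (K + 1) ∧ ∀ q ∈ QL L, NrK μ s K W q S → q ∈ Q' := by
  classical
  obtain ⟨G, hG⟩ : ∃ G : Finset ℤ, G = Icc (-(5 * (L : ℤ))) (5 * L) := ⟨_, rfl⟩
  obtain ⟨G1, hG1⟩ : ∃ G1 : Finset ℤ, G1 = G.filter fun Y => (((2 ^ W.1 : ℕ)) : ℤ) ∣ Y ∧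
    |(pos S W.2.1 - md μ s W.2.1) - Y| ≤ ((K * 2 ^ W.1 : ℕ) : ℤ) := ⟨_, rfl⟩
  obtain ⟨G2, hG2⟩ : ∃ G2 : Finset ℤ, G2 = G.filter fun Y => (((2 ^ W.1 : ℕ)) : ℤ) ∣ Y ∧
    |(-(pos S W.2.1 - md μ s W.2.1)) - Y| ≤ ((K * 2 ^ W.1 : ℕ) : ℤ) := ⟨_, rfl⟩
  have h7 : (((K * 2 ^ W.1 : ℕ)) : ℝ) / ((2 ^ W.1 : ℕ) : ℝ) = K := by
    have h8 : (0 : ℝ) < 2 ^ W.1 := by positivity
    push_cast
    rw [mul_div_assoc, div_self h8.ne', mul_one]
  have h4 := card_grid G (Nat.one_le_two_pow (n := W.1)) (pos S W.2.1 - md μ s W.2.1) (K * 2 ^ W.1)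
  have h5 := card_grid G (Nat.one_le_two_pow (n := W.1)) (-(pos S W.2.1 - md μ s W.2.1)) (K * 2 ^ W.1)
  rw [h7, ← hG1] at h4
  rw [h7, ← hG2] at h5
  refine ⟨(G1.image fun Y => ((1 : ℤ), Y)) ∪ (G2.image fun Y => ((-1 : ℤ), Y)), ?_, ?_⟩
  · have h3 := (card_union_le (G1.image fun Y => ((1 : ℤ), Y)) (G2.image fun Y => ((-1 : ℤ), Y))).trans
      (add_le_add card_image_le card_image_le)
    have h6 : ((((G1.image fun Y => ((1 : ℤ), Y)) ∪ (G2.image fun Y => ((-1 : ℤ), Y))).card : ℕ) : ℝ) ≤ (G1.card : ℝ) + (G2.card : ℝ) := by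
      exact_mod_cast h3
    have h8 : ((((G1.image fun Y => ((1 : ℤ), Y)) ∪ (G2.image fun Y => ((-1 : ℤ), Y))).card : ℕ) : ℝ) ≤ ((4 * (K + 1) : ℕ) : ℝ) := by
      push_cast
      linarith
    exact_mod_cast h8
  · intro q hq hN
    unfold QL at hq
    rw [mem_product, mem_insert, mem_singleton, ← hG] at hq
    obtain ⟨h3, h6⟩ := hq
    obtain ⟨h8, h9⟩ := hN
    rw [mem_union, mem_image, mem_image]
    rcases h3 with h3 | h3
    · left
      refine ⟨q.2, ?_, Prod.ext h3.symm rfl⟩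
      rw [hG1, mem_filter]
      rw [h3, one_mul] at h9
      exact ⟨h6, h8, h9⟩
    · right
      refine ⟨q.2, ?_, Prod.ext h3.symm rfl⟩
      rw [hG2, mem_filter]
      rw [h3, neg_one_mul] at h9
      exact ⟨h6, h8, h9⟩

/-! ### The near ties -/

/-- Near tie at one line, brackets in `[c, d]`. -/
def NTB (μ : Measure ℝ) (s : ℝ) (V : Win) (L : ℕ) (e C : ℝ) (i₀ i₁ c d : ℕ) (M : ℝ) (η : Env) (S : Finset ℕ) : Prop :=
  InL μ s V.sg V.J V.Y S ∧ ∃ b ∈ Br V, (c ≤ b.1 ∧ b.2 ≤ d) ∧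
    Real.exp (-M) * kk μ s (cL μ s V) η b.1 b.2 (pos S) ≤ kk μ s (cE μ s V L e C i₀ i₁) η b.1 b.2 (pos S)

theorem br_J {V : Win} {b : ℕ × ℕ} (hb : b ∈ Br V) : ∀ i ∈ V.J, b.1 < i ∧ i < b.2 := (mem_filter.1 hb).2.2

theorem nte_of_ntb {V : Win} {L : ℕ} {e C : ℝ} {i₀ i₁ c d : ℕ} {M : ℝ} {η : Env} {S : Finset ℕ}
    (h : NTB μ s V L e C i₀ i₁ c d M η S) : NTE μ s V L e C i₀ i₁ M η S := by
  obtain ⟨h1, b, hb, -, hk⟩ := h
  refine ⟨h1, b, hb, ?_⟩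
  rw [kC_clE V L e C i₀ i₁ S (br_J hb) η, kC_clL V S (br_J hb) η]
  exact hk

theorem ntb_ms (V : Win) (L : ℕ) (e C : ℝ) (i₀ i₁ c d : ℕ) (M : ℝ) : Ms (NTB μ s V L e C i₀ i₁ c d M) := by
  intro S
  have h1 : {η : Env | NTB μ s V L e C i₀ i₁ c d M η S} = ⋃ (_ : InL μ s V.sg V.J V.Y S), ⋃ b ∈ Br V, ⋃ (_ : c ≤ b.1 ∧ b.2 ≤ d),
      {η : Env | Real.exp (-M) * kk μ s (cL μ s V) η b.1 b.2 (pos S) ≤ kk μ s (cE μ s V L e C i₀ i₁) η b.1 b.2 (pos S)} := by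
    ext η
    simp only [NTB, Set.mem_ofPred_eq, Set.mem_iUnion, exists_prop]
  rw [h1]
  exact MeasurableSet.iUnion fun _ => Finset.measurableSet_biUnion _ fun b _ => MeasurableSet.iUnion fun _ =>
    measurableSet_le ((kk_meas _ _ _ _).const_mul _) (kk_meas _ _ _ _)

/-- Kernels see only the rows of their bracket. -/
theorem kk_rows {C : (ℕ → ℤ) → Prop} {η η' : Env} {a b : ℕ} {X : ℕ → ℤ}
    (h : ∀ t ∈ Ioc a b, ∀ x : ℤ, η ((t : ℤ), x) = η' ((t : ℤ), x)) : kk μ s C η a b X = kk μ s C η' a b X :=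
  kk_congr fun _ _ t ht => h t ht _

/-- Kernels see only the ends of the base path. -/
theorem kk_ends {C : (ℕ → ℤ) → Prop} {η : Env} {a b : ℕ} {X X' : ℕ → ℤ} (ha : X a = X' a) (hb : X b = X' b) :
    kk μ s C η a b X = kk μ s C η a b X' := by
  unfold kk
  rw [ha, hb]

/-- The line of a window. -/
def VV (N : ℕ) (y : ℤ) (pr : Par) (W : WT) (q : ℤ × ℤ) : Win := winE N y pr.a W N q.1 q.2

theorem VV_J (N : ℕ) (y : ℤ) (pr : Par) (W : WT) (q : ℤ × ℤ) : (VV N y pr W q).J ⊆ W.2.2 := winE_J _ _ _ _ _ _ _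

theorem VV_JJ (N : ℕ) (y : ℤ) (pr : Par) (W : WT) (q : ℤ × ℤ) : (VV N y pr W q).JJ ⊆ W.2.2 := winE_JJ _ _ _ _ _ _ _

/-- **Near ties with one alternative.** -/
def NT2 (μ : Measure ℝ) (s : ℝ) (N : ℕ) (y : ℤ) (pr : Par) (L K : ℕ) (Ws : Finset WT) (c d : ℕ) (M : ℝ) (η : Env) (S : Finset ℕ) : Prop :=
  ∃ W ∈ Ws, ∃ q ∈ QL L, NrK μ s K W q S ∧ NTB μ s (VV N y pr W q) pr.L pr.e pr.C pr.i₀ pr.i₁ c d M η S

/-- **Near ties with two alternatives.** -/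
def NT3 (μ : Measure ℝ) (s : ℝ) (N : ℕ) (y : ℤ) (pr : Par) (L K : ℕ) (Ws : Finset WT) (c d : ℕ) (M : ℝ) (η : Env) (S : Finset ℕ) : Prop :=
  ∃ W ∈ Ws, ∃ q ∈ QL L ×ˢ QL L, (NrK μ s K W q.1 S ∧ NrK μ s K W q.2 S) ∧
    (InL μ s (VV N y pr W q.1).sg (VV N y pr W q.1).J (VV N y pr W q.1).Y S ∧
      A12 μ s (VV N y pr W q.1) (VV N y pr W q.2) pr.L pr.e pr.C pr.i₀ pr.i₁ c d M η S) ∧
    NTB μ s (VV N y pr W q.2) pr.L pr.e pr.C pr.i₀ pr.i₁ c d M η S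

theorem ms_ex {ι : Type*} (Q : Finset ι) {A : ι → Env → Finset ℕ → Prop} (hA : ∀ i, Ms (A i)) : Ms fun η S => ∃ i ∈ Q, A i η S := by
  intro S
  have e : {η : Env | ∃ i ∈ Q, A i η S} = ⋃ i ∈ Q, {η | A i η S} := by
    ext η
    simp only [Set.mem_ofPred_eq, Set.mem_iUnion, exists_prop]
  rw [e]
  exact Finset.measurableSet_biUnion _ fun i _ => hA i S

theorem ms_path (A : Finset ℕ → Prop) : Ms fun (_ : Env) S => A S := fun S => by
  by_cases h : A S <;> simp [h]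

theorem nt2_ms (N : ℕ) (y : ℤ) (pr : Par) (L K : ℕ) (Ws : Finset WT) (c d : ℕ) (M : ℝ) : Ms (NT2 μ s N y pr L K Ws c d M) :=
  ms_ex Ws fun _ => ms_ex (QL L) fun _ => ms_and (ms_path _) (ntb_ms _ _ _ _ _ _ _ _ _)

theorem nt3_ms (N : ℕ) (y : ℤ) (pr : Par) (L K : ℕ) (Ws : Finset WT) (c d : ℕ) (M : ℝ) : Ms (NT3 μ s N y pr L K Ws c d M) :=
  ms_ex Ws fun _ => ms_ex (QL L ×ˢ QL L) fun _ => ms_and (ms_path _) (ms_and (ms_and (ms_path _) (a12_ms _ _ _ _ _ _ _ _ _ _))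
    (ntb_ms _ _ _ _ _ _ _ _ _))

theorem off_rows {J' : Finset ℕ} {c d : ℕ} (hJ : ∀ j ∈ J', j ≤ c ∨ d < j) {η η' : Env}
    (h : ∀ q : Pt, ¬ (0 ≤ q.1 ∧ q.1.toNat ∈ J') → η q = η' q) {a b : ℕ} (ha : c ≤ a) (hb : b ≤ d) :
    ∀ t ∈ Ioc a b, ∀ x : ℤ, η ((t : ℤ), x) = η' ((t : ℤ), x) := by
  intro t ht x
  rw [mem_Ioc] at ht
  apply h
  rintro ⟨h5, h6⟩
  have h7 := hJ _ h6
  simp only [Int.toNat_natCast] at h7
  omega

theorem ntb_off {V : Win} {L : ℕ} {e C : ℝ} {i₀ i₁ c d : ℕ} {M : ℝ} {J' : Finset ℕ} (hJ : ∀ j ∈ J', j ≤ c ∨ d < j) :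
    OffRows J' (NTB μ s V L e C i₀ i₁ c d M) := by
  intro η η' S h
  refine and_congr_right fun _ => exists_congr fun b => and_congr_right fun _ => and_congr_right fun hb => ?_
  rw [kk_rows (off_rows hJ h hb.1 hb.2), kk_rows (off_rows hJ h hb.1 hb.2)]

theorem a12_off {V₁ V₂ : Win} {L : ℕ} {e C : ℝ} {i₀ i₁ c d : ℕ} {M : ℝ} {J' : Finset ℕ} (hJ : ∀ j ∈ J', j ≤ c ∨ d < j) :
    OffRows J' (A12 μ s V₁ V₂ L e C i₀ i₁ c d M) := by
  intro η η' S h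
  refine exists_congr fun b => and_congr_right fun _ => and_congr_right fun hb => ?_
  rw [kk_rows (off_rows hJ h hb.1 hb.2), kk_rows (off_rows hJ h hb.1 hb.2)]

theorem nt2_off {N : ℕ} {y : ℤ} {pr : Par} {L K : ℕ} {Ws : Finset WT} {c d : ℕ} {M : ℝ} {J' : Finset ℕ}
    (hJ : ∀ j ∈ J', j ≤ c ∨ d < j) : OffRows J' (NT2 μ s N y pr L K Ws c d M) := by
  intro η η' S h
  exact exists_congr fun W => and_congr_right fun _ => exists_congr fun q => and_congr_right fun _ => and_congr_right fun _ =>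
    ntb_off hJ η η' S h

theorem nt3_off {N : ℕ} {y : ℤ} {pr : Par} {L K : ℕ} {Ws : Finset WT} {c d : ℕ} {M : ℝ} {J' : Finset ℕ}
    (hJ : ∀ j ∈ J', j ≤ c ∨ d < j) : OffRows J' (NT3 μ s N y pr L K Ws c d M) := by
  intro η η' S h
  exact exists_congr fun W => and_congr_right fun _ => exists_congr fun q => and_congr_right fun _ => and_congr_right fun _ =>
    and_congr (and_congr_right fun _ => a12_off hJ η η' S h) (ntb_off hJ η η' S h)

/-! ### The price -/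

/-- The price at one line, for events. -/
theorem tie_ev [IsProbabilityMeasure μ] {pr : Par} {N : ℕ} {y : ℤ} {n1 : ℕ → ℕ} {e0 E : ℕ} {z dl : ℝ}
    (hT : TieInW μ s pr N y n1 e0 E z dl) {W : WT} (hW : GWk N n1 e0 E pr.a W) {q : ℤ × ℤ} (hq : q.1 = 1 ∨ q.1 = -1) {M : ℝ} (hM : 1 ≤ M)
    {B : Env → Finset ℕ → Prop} (hB : Ms B)
    (hbl : ∀ (η η' : Env) (S : Finset ℕ), (∀ p : Pt, ¬ InStrip μ s (VV N y pr W q) p → η p = η' p) → (B η S ↔ B η' S)) :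
    P1 μ s N y (fun η S => B η S ∧ NTE μ s (VV N y pr W q) pr.L pr.e pr.C pr.i₀ pr.i₁ M η S) ≤
      ENNReal.ofReal (z * M) * P1 μ s N y (fun η S => B η S ∧ InL μ s (VV N y pr W q).sg (VV N y pr W q).J (VV N y pr W q).Y S) +
        ENNReal.ofReal dl := by
  classical
  have h1 := hT W hW N M hM q.1 q.2 hq 0 (fun S η => if B η S then 1 else 0) (rwOk_ind hB)
    (fun η η' S _ h => by
      dsimp only
      rw [if_congr (hbl η η' S h) rfl rfl])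
  have e1 := PR_ind (μ := μ) (s := s) (N := N) (y := y) (NTE_ms (μ := μ) (s := s) (VV N y pr W q) pr.L pr.e pr.C pr.i₀ pr.i₁ M) hB
  have e2 := PR_ind (μ := μ) (s := s) (N := N) (y := y)
    (ms_path fun S => InL μ s (VV N y pr W q).sg (VV N y pr W q).J (VV N y pr W q).Y S) hB
  rw [← e1, ← e2]
  exact h1

theorem blind_of_off {J : Finset ℕ} {F : Env → Finset ℕ → Prop} (hF : OffRows J F) {N : ℕ} {y : ℤ} {pr : Par} {W : WT}
    (hW : W.2.2 ⊆ J) {q : ℤ × ℤ} (η η' : Env) (S : Finset ℕ) (h : ∀ p : Pt, ¬ InStrip μ s (VV N y pr W q) p → η p = η' p) :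
    F η S ↔ F η' S := by
  refine hF η η' S fun p hp => h p fun hin => hp ?_
  obtain ⟨h1, h2, -, -⟩ := hin
  exact ⟨h1, hW (VV_J N y pr W q h2)⟩

theorem QL_sgn {L : ℕ} {q : ℤ × ℤ} (hq : q ∈ QL L) : q.1 = 1 ∨ q.1 = -1 := by
  unfold QL at hq
  rw [mem_product, mem_insert, mem_singleton] at hq
  exact hq.1

theorem cast_const {A B : ℝ} (_hA : 0 ≤ A) (n : ℕ) (h : A * n ≤ B) : (n : ℝ≥0∞) * ENNReal.ofReal A ≤ ENNReal.ofReal B := by
  rw [← ENNReal.ofReal_natCast, ← ENNReal.ofReal_mul (Nat.cast_nonneg n)]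
  refine ENNReal.ofReal_le_ofReal ?_
  linarith

/-- **The price of one alternative.** -/
theorem nt2_price [IsProbabilityMeasure μ] {pr : Par} {N : ℕ} {y : ℤ} {n1 : ℕ → ℕ} {e0 E : ℕ} {z dl : ℝ} (hz : 0 ≤ z) (hdl : 0 ≤ dl)
    (hT : TieInW μ s pr N y n1 e0 E z dl) {Ws : Finset WT} (hWs : ∀ W ∈ Ws, GWk N n1 e0 E pr.a W) {J : Finset ℕ}
    (hJ : ∀ W ∈ Ws, W.2.2 ⊆ J) {L K c d : ℕ} {M : ℝ} (hM : 1 ≤ M) {F : Env → Finset ℕ → Prop} (hF : Ms F) (hFo : OffRows J F) :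
    P1 μ s N y (fun η S => F η S ∧ NT2 μ s N y pr L K Ws c d M η S) ≤
      ENNReal.ofReal (z * M * (4 * (K + 1)) * Ws.card) * P1 μ s N y F + ENNReal.ofReal (dl * (2 * (10 * L + 1)) * Ws.card) := by
  have h1 : P1 μ s N y (fun η S => F η S ∧ NT2 μ s N y pr L K Ws c d M η S) ≤
      ∑ W ∈ Ws, ∑ q ∈ QL L, P1 μ s N y (fun η S => (F η S ∧ NrK μ s K W q S) ∧
        NTE μ s (VV N y pr W q) pr.L pr.e pr.C pr.i₀ pr.i₁ M η S) := by
    refine (A12.P1_mono' (B := fun η S => ∃ W ∈ Ws, ∃ q ∈ QL L, (F η S ∧ NrK μ s K W q S) ∧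
      NTE μ s (VV N y pr W q) pr.L pr.e pr.C pr.i₀ pr.i₁ M η S) fun η S _ _ h => ?_).trans ?_
    · obtain ⟨hF', W, hW, q, hq, h2, h3⟩ := h
      exact ⟨W, hW, q, hq, ⟨hF', h2⟩, nte_of_ntb h3⟩
    · refine (A12.P1_exists (μ := μ) (s := s) (N := N) (y := y) Ws _).trans (sum_le_sum fun W _ => ?_)
      exact A12.P1_exists (μ := μ) (s := s) (N := N) (y := y) (QL L) _
  refine h1.trans ?_
  have h2 : ∀ W ∈ Ws, ∑ q ∈ QL L, P1 μ s N y (fun η S => (F η S ∧ NrK μ s K W q S) ∧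
        NTE μ s (VV N y pr W q) pr.L pr.e pr.C pr.i₀ pr.i₁ M η S) ≤
      ENNReal.ofReal (z * M * (4 * (K + 1))) * P1 μ s N y F + ENNReal.ofReal (dl * (2 * (10 * L + 1))) := by
    intro W hW
    have h3 : ∀ q ∈ QL L, P1 μ s N y (fun η S => (F η S ∧ NrK μ s K W q S) ∧
        NTE μ s (VV N y pr W q) pr.L pr.e pr.C pr.i₀ pr.i₁ M η S) ≤
        ENNReal.ofReal (z * M) * P1 μ s N y (fun η S => F η S ∧ NrK μ s K W q S) + ENNReal.ofReal dl := by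
      intro q hq
      refine (tie_ev hT (hWs W hW) (QL_sgn hq) hM (ms_and hF (ms_path _)) fun η η' S h =>
        and_congr_left fun _ => blind_of_off hFo (hJ W hW) η η' S h).trans ?_
      exact add_le_add (mul_le_mul' le_rfl (A12.P1_mono' fun η S _ _ h => h.1)) le_rfl
    refine (sum_le_sum h3).trans ?_
    rw [sum_add_distrib, ← mul_sum, sum_const, nsmul_eq_mul]
    refine add_le_add ?_ ?_
    · refine (mul_le_mul' le_rfl (P1_cnt (QL L) (fun q S => NrK μ s K W q S) (4 * (K + 1)) (count_K L K W))).trans ?_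
      rw [← mul_assoc]
      refine mul_le_mul' ?_ le_rfl
      rw [mul_comm]
      refine cast_const (by positivity) _ (le_of_eq ?_)
      push_cast
      ring
    · refine cast_const hdl _ (le_of_eq ?_)
      rw [QL_card]
      push_cast
      ring
  refine (sum_le_sum h2).trans ?_
  rw [sum_const, nsmul_eq_mul, mul_add, ← mul_assoc]
  exact add_le_add (mul_le_mul' (cast_const (by positivity) _ le_rfl) le_rfl) (cast_const (by positivity) _ le_rfl)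

/-- **The price of two alternatives.** -/
theorem nt3_price [IsProbabilityMeasure μ] {pr : Par} {N : ℕ} {y : ℤ} {n1 : ℕ → ℕ} {e0 E : ℕ} {z dl : ℝ} (hz : 0 ≤ z) (hdl : 0 ≤ dl)
    (hT : TieInW μ s pr N y n1 e0 E z dl) {Ws : Finset WT} (hWs : ∀ W ∈ Ws, GWk N n1 e0 E pr.a W) {J : Finset ℕ}
    (hJ : ∀ W ∈ Ws, W.2.2 ⊆ J) {L K c d : ℕ} {M lm : ℝ} (hM : 1 ≤ M) (hlm : 0 ≤ lm) {F : Env → Finset ℕ → Prop} (hF : Ms F)
    (hFo : OffRows J F) :
    P1 μ s N y (fun η S => F η S ∧ NT3 μ s N y pr L K Ws c d M η S) ≤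
      ENNReal.ofReal ((z * M) * (z * (M + lm)) * (4 * (K + 1)) ^ 2 * Ws.card) * P1 μ s N y F +
        ENNReal.ofReal (((z * M) * (dl + ((N : ℝ) + 1) ^ 2 * Real.exp (-lm)) + dl) * (2 * (10 * L + 1)) ^ 2 * Ws.card) := by
  have h1 : P1 μ s N y (fun η S => F η S ∧ NT3 μ s N y pr L K Ws c d M η S) ≤
      ∑ W ∈ Ws, ∑ q ∈ QL L ×ˢ QL L, P1 μ s N y (fun η S => ((F η S ∧ NrK μ s K W q.1 S ∧ NrK μ s K W q.2 S) ∧
        InL μ s (VV N y pr W q.1).sg (VV N y pr W q.1).J (VV N y pr W q.1).Y S ∧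
        A12 μ s (VV N y pr W q.1) (VV N y pr W q.2) pr.L pr.e pr.C pr.i₀ pr.i₁ c d M η S) ∧
        NTE μ s (VV N y pr W q.2) pr.L pr.e pr.C pr.i₀ pr.i₁ M η S) := by
    refine (A12.P1_mono' (B := fun η S => ∃ W ∈ Ws, ∃ q ∈ QL L ×ˢ QL L, ((F η S ∧ NrK μ s K W q.1 S ∧ NrK μ s K W q.2 S) ∧
        InL μ s (VV N y pr W q.1).sg (VV N y pr W q.1).J (VV N y pr W q.1).Y S ∧
        A12 μ s (VV N y pr W q.1) (VV N y pr W q.2) pr.L pr.e pr.C pr.i₀ pr.i₁ c d M η S) ∧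
        NTE μ s (VV N y pr W q.2) pr.L pr.e pr.C pr.i₀ pr.i₁ M η S) fun η S _ _ h => ?_).trans ?_
    · obtain ⟨hF', W, hW, q, hq, h2, h3, h4⟩ := h
      exact ⟨W, hW, q, hq, ⟨⟨hF', h2⟩, h3⟩, nte_of_ntb h4⟩
    · refine (A12.P1_exists (μ := μ) (s := s) (N := N) (y := y) Ws _).trans (sum_le_sum fun W _ => ?_)
      exact A12.P1_exists (μ := μ) (s := s) (N := N) (y := y) (QL L ×ˢ QL L) _
  refine h1.trans ?_
  have hx0 : 0 ≤ z * M := mul_nonneg hz (by linarith)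
  have hx1 : 0 ≤ z * (M + lm) := mul_nonneg hz (by linarith)
  have hw0 : 0 ≤ dl + ((N : ℝ) + 1) ^ 2 * Real.exp (-lm) := by positivity
  have hQc : (QL L ×ˢ QL L).card = (2 * (10 * L + 1)) ^ 2 := by rw [card_product, QL_card, sq]
  have h2 : ∀ W ∈ Ws, ∑ q ∈ QL L ×ˢ QL L, P1 μ s N y (fun η S => ((F η S ∧ NrK μ s K W q.1 S ∧ NrK μ s K W q.2 S) ∧
        InL μ s (VV N y pr W q.1).sg (VV N y pr W q.1).J (VV N y pr W q.1).Y S ∧
        A12 μ s (VV N y pr W q.1) (VV N y pr W q.2) pr.L pr.e pr.C pr.i₀ pr.i₁ c d M η S) ∧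
        NTE μ s (VV N y pr W q.2) pr.L pr.e pr.C pr.i₀ pr.i₁ M η S) ≤
      ENNReal.ofReal ((z * M) * (z * (M + lm)) * (4 * (K + 1)) ^ 2) * P1 μ s N y F +
        ENNReal.ofReal (((z * M) * (dl + ((N : ℝ) + 1) ^ 2 * Real.exp (-lm)) + dl) * (2 * (10 * L + 1)) ^ 2) := by
    intro W hW
    have h3 : ∀ q ∈ QL L ×ˢ QL L, P1 μ s N y (fun η S => ((F η S ∧ NrK μ s K W q.1 S ∧ NrK μ s K W q.2 S) ∧
        InL μ s (VV N y pr W q.1).sg (VV N y pr W q.1).J (VV N y pr W q.1).Y S ∧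
        A12 μ s (VV N y pr W q.1) (VV N y pr W q.2) pr.L pr.e pr.C pr.i₀ pr.i₁ c d M η S) ∧
        NTE μ s (VV N y pr W q.2) pr.L pr.e pr.C pr.i₀ pr.i₁ M η S) ≤
        ENNReal.ofReal ((z * M) * (z * (M + lm))) * P1 μ s N y (fun η S => F η S ∧ NrK μ s K W q.1 S ∧ NrK μ s K W q.2 S) +
          ENNReal.ofReal ((z * M) * (dl + ((N : ℝ) + 1) ^ 2 * Real.exp (-lm)) + dl) := by
      intro q hq
      rw [mem_product] at hq
      obtain ⟨V₁, hV₁⟩ : ∃ V₁, V₁ = VV N y pr W q.1 := ⟨_, rfl⟩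
      obtain ⟨V₂, hV₂⟩ : ∃ V₂, V₂ = VV N y pr W q.2 := ⟨_, rfl⟩
      have hF2 : Ms fun η S => F η S ∧ NrK μ s K W q.1 S ∧ NrK μ s K W q.2 S := ms_and hF (ms_path _)
      have t2 := tie_ev hT (hWs W hW) (QL_sgn hq.2) hM (B := fun η S => (F η S ∧ NrK μ s K W q.1 S ∧ NrK μ s K W q.2 S) ∧
        InL μ s (VV N y pr W q.1).sg (VV N y pr W q.1).J (VV N y pr W q.1).Y S ∧
        A12 μ s (VV N y pr W q.1) (VV N y pr W q.2) pr.L pr.e pr.C pr.i₀ pr.i₁ c d M η S)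
        (ms_and hF2 (ms_and (ms_path _) (a12_ms _ _ _ _ _ _ _ _ _ _)))
        (fun η η' S h => and_congr (and_congr_left fun _ => blind_of_off hFo (hJ W hW) η η' S h)
          (and_congr_right fun _ => a12_blind h S))
      have t1 := tie_ev hT (hWs W hW) (QL_sgn hq.1) (show 1 ≤ M + lm by linarith)
        (B := fun η S => F η S ∧ NrK μ s K W q.1 S ∧ NrK μ s K W q.2 S) hF2
        (fun η η' S h => and_congr_left fun _ => blind_of_off hFo (hJ W hW) η η' S h)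
      rw [← hV₁, ← hV₂] at t2
      rw [← hV₁] at t1
      rw [← hV₁, ← hV₂]
      have hlow := low_pr (μ := μ) (s := s) (V₁ := V₁) (V₂ := V₂) (by rw [hV₁, hV₂]; rfl) (by rw [hV₁]; exact le_rfl)
        (by rw [hV₂]; exact le_rfl) (by rw [hV₁]; exact winE_J_ne (hWs W hW).ne) (y := y) lm
      have hN1 : V₁.N = N := by rw [hV₁]; rfl
      rw [hN1] at hlow
      refine t2.trans ?_
      have t3 : P1 μ s N y (fun η S => ((F η S ∧ NrK μ s K W q.1 S ∧ NrK μ s K W q.2 S) ∧ InL μ s V₁.sg V₁.J V₁.Y S ∧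
          A12 μ s V₁ V₂ pr.L pr.e pr.C pr.i₀ pr.i₁ c d M η S) ∧ InL μ s V₂.sg V₂.J V₂.Y S) ≤
          P1 μ s N y (fun η S => (F η S ∧ NrK μ s K W q.1 S ∧ NrK μ s K W q.2 S) ∧ NTE μ s V₁ pr.L pr.e pr.C pr.i₀ pr.i₁ (M + lm) η S) +
            P1 μ s N y (Low μ s V₁ V₂ lm) := by
        refine (A12.P1_mono' (B := fun η S => ((F η S ∧ NrK μ s K W q.1 S ∧ NrK μ s K W q.2 S) ∧
          NTE μ s V₁ pr.L pr.e pr.C pr.i₀ pr.i₁ (M + lm) η S) ∨ Low μ s V₁ V₂ lm η S) fun η S _ _ h => ?_).trans (A12.P1_or _ _)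
        by_cases hl : Low μ s V₁ V₂ lm η S
        · exact Or.inr hl
        · exact Or.inl ⟨h.1.1, nte_of_a12 (by rw [hV₁]; exact le_rfl) h.1.2.2 hl h.1.2.1 h.2⟩
      have t4 := t1.trans (add_le_add (mul_le_mul' le_rfl (A12.P1_mono' (μ := μ) (s := s) (N := N) (y := y)
        (B := fun η S => F η S ∧ NrK μ s K W q.1 S ∧ NrK μ s K W q.2 S) fun η S _ _ h => h.1)) le_rfl)
      refine (add_le_add (mul_le_mul' le_rfl (t3.trans (add_le_add t4 hlow))) le_rfl).trans (le_of_eq ?_)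
      rw [mul_add, mul_add, ← mul_assoc, ← ENNReal.ofReal_mul hx0, ← ENNReal.ofReal_mul hx0, ← ENNReal.ofReal_mul hx0, add_assoc,
        add_assoc, ← ENNReal.ofReal_add (by positivity) hdl, ← ENNReal.ofReal_add (by positivity) (by positivity)]
      congr 2
      ring
    refine (sum_le_sum h3).trans ?_
    rw [sum_add_distrib, ← mul_sum, sum_const, nsmul_eq_mul]
    refine add_le_add ?_ ?_
    · have h4 : ∑ q ∈ QL L ×ˢ QL L, P1 μ s N y (fun η S => F η S ∧ NrK μ s K W q.1 S ∧ NrK μ s K W q.2 S) ≤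
          (((4 * (K + 1)) ^ 2 : ℕ) : ℝ≥0∞) * P1 μ s N y F := by
        refine P1_cnt (QL L ×ˢ QL L) (fun q S => NrK μ s K W q.1 S ∧ NrK μ s K W q.2 S) ((4 * (K + 1)) ^ 2) fun S => ?_
        obtain ⟨Q', g1, g2⟩ := count_K (μ := μ) (s := s) L K W S
        refine ⟨Q' ×ˢ Q', ?_, fun q hq hN => ?_⟩
        · rw [card_product, sq]
          exact Nat.mul_le_mul g1 g1
        · rw [mem_product] at hq
          exact mem_product.2 ⟨g2 _ hq.1 hN.1, g2 _ hq.2 hN.2⟩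
      refine (mul_le_mul' le_rfl h4).trans ?_
      rw [← mul_assoc]
      refine mul_le_mul' ?_ le_rfl
      rw [mul_comm]
      refine cast_const (by positivity) _ (le_of_eq ?_)
      push_cast
      ring
    · refine cast_const (by positivity) _ (le_of_eq ?_)
      rw [hQc]
      push_cast
      ring
  refine (sum_le_sum h2).trans ?_
  rw [sum_const, nsmul_eq_mul, mul_add, ← mul_assoc]
  exact add_le_add (mul_le_mul' (cast_const (by positivity) _ le_rfl) le_rfl) (cast_const (by positivity) _ le_rfl)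

end

end Pool.Agent.W_7d29a1_C0.N51
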