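import Pool.Agent.W_7d29a1_C0.NT51B

/-!
C0, helper51: THREE BRANCHES, third part (deterministic). The windows of one scale; three paths which are pairwise apart on a stretch are
pairwise separated at one time; closings nearby bound the distances; the production of the near ties with one and with two alternatives.
-/

set_option autoImplicit false

namespace Pool.Agent.W_7d29a1_C0.N51

open MeasureTheory ProbabilityTheory Filter Topology Finset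
open Pool.Agent.W_7d29a1_F Pool.Agent.W_7d29a1_X Pool.Agent.W_7d29a1_h4g Pool.Agent.W_7d29a1_H
open Pool.Agent.W_7d29a1_HS (In wd md)
open Pool.Agent.W_7d29a1_HZ Pool.Agent.W_7d29a1_HZ.R72 Pool.Agent.W_7d29a1_Z.Asm72
open Pool.Agent.W_7d29a1_HZ.Z86
open Pool.Agent.W_7d29a1_HZ.Z86.GX (WT)
open Pool.Agent.W_7d29a1_HZ.ZE
open Pool.Agent.W_7d29a1_HZ.Z36 (kk kk_nonneg kk_meas BadC depthC)
open Pool.Agent.W_7d29a1_ZE (Win Br J_sub_JJ)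
open Pool.Agent.W_7d29a1_C0.F13 (line_ex gwk_short cE_ofG)
open Pool.Agent.W_7d29a1_C0.P86 (NoMeet)
open scoped ENNReal

noncomputable section

variable {μ : Measure ℝ} {s : ℝ}

/-! ### The windows -/

open scoped Classical in
/-- The windows of the scale `e0` in `[τ, τ + t / 2)`. -/
def Ws5 (N t τ : ℕ) (n1 : ℕ → ℕ) (e0 E a : ℕ) : Finset WT :=
  ((range (t / 4 / (n1 e0 / 4) + 1)).image fun m =>
    ((e0, τ + m * (n1 e0 / 4), Ico (τ + m * (n1 e0 / 4)) (τ + m * (n1 e0 / 4) + n1 e0 / 4)) : WT)).filter (GWk N n1 e0 E a)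

open scoped Classical in
theorem mem_Ws5 {N t τ : ℕ} {n1 : ℕ → ℕ} {e0 E a : ℕ} {W : WT} : W ∈ Ws5 N t τ n1 e0 E a ↔
    (∃ m : ℕ, m ≤ t / 4 / (n1 e0 / 4) ∧
      W = (e0, τ + m * (n1 e0 / 4), Ico (τ + m * (n1 e0 / 4)) (τ + m * (n1 e0 / 4) + n1 e0 / 4))) ∧ GWk N n1 e0 E a W := by
  unfold Ws5
  rw [mem_filter, mem_image]
  refine and_congr_left fun _ => ?_
  constructor
  · rintro ⟨m, hm, rfl⟩
    exact ⟨m, Nat.lt_succ_iff.1 (mem_range.1 hm), rfl⟩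
  · rintro ⟨m, h1, rfl⟩
    exact ⟨m, mem_range.2 (Nat.lt_succ_iff.2 h1), rfl⟩

theorem Ws5_gwk {N t τ : ℕ} {n1 : ℕ → ℕ} {e0 E a : ℕ} {W : WT} (hW : W ∈ Ws5 N t τ n1 e0 E a) : GWk N n1 e0 E a W := (mem_Ws5.1 hW).2

theorem Ws5_rows {N t τ : ℕ} {n1 : ℕ → ℕ} {e0 E a : ℕ} {W : WT} (hW : W ∈ Ws5 N t τ n1 e0 E a) (hn : n1 e0 ≤ t) :
    W.2.2 ⊆ Ico τ (τ + t) ∧ τ ≤ W.2.1 ∧ W.2.1 ≤ τ + t / 4 := by
  obtain ⟨⟨m, h3, rfl⟩, -⟩ := mem_Ws5.1 hW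
  have h5 : m * (n1 e0 / 4) ≤ t / 4 := (Nat.mul_le_mul_right _ h3).trans (Nat.div_mul_le_self _ _)
  have hq : n1 e0 / 4 ≤ t / 4 := Nat.div_le_div_right hn
  refine ⟨fun i hi => ?_, ?_, ?_⟩
  · dsimp only at hi
    generalize n1 e0 / 4 = q at *
    rw [mem_Ico] at hi ⊢
    omega
  · dsimp only
    omega
  · dsimp only
    omega

open scoped Classical in
theorem Ws5_card {N t τ : ℕ} {n1 : ℕ → ℕ} {e0 E a : ℕ} {z : ℝ} (hz1 : 1 ≤ z) (h2 : (t : ℝ) ≤ z * n1 e0) (h3 : 16 ≤ n1 e0) :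
    ((Ws5 N t τ n1 e0 E a).card : ℝ) ≤ 3 * z := by
  have h5 : (Ws5 N t τ n1 e0 E a).card ≤ t / 4 / (n1 e0 / 4) + 1 := by
    unfold Ws5
    refine (card_filter_le _ _).trans (card_image_le.trans ?_)
    rw [card_range]
  have h6 : ((Ws5 N t τ n1 e0 E a).card : ℝ) ≤ ((t / 4 / (n1 e0 / 4) + 1 : ℕ) : ℝ) := by exact_mod_cast h5
  refine h6.trans ?_
  have g4 : n1 e0 ≤ 8 * (n1 e0 / 4) := by omega
  have g5 : 1 ≤ n1 e0 / 4 := by omega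
  have g6 : (t / 4 / (n1 e0 / 4)) * (n1 e0 / 4) ≤ t / 4 := Nat.div_mul_le_self _ _
  generalize n1 e0 / 4 = q at *
  generalize t / 4 / q = r at *
  have g7 : 4 * (r * q) ≤ t := by omega
  have g8 : (4 : ℝ) * (r * q) ≤ z * (8 * q) := by
    have e1 : (4 : ℝ) * (r * q) ≤ t := by exact_mod_cast g7
    have e2 : (n1 e0 : ℝ) ≤ 8 * q := by exact_mod_cast g4
    have e3 : z * n1 e0 ≤ z * (8 * q) := mul_le_mul_of_nonneg_left e2 (by linarith)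
    linarith
  have hq : (0 : ℝ) < q := by exact_mod_cast (show 0 < q by omega)
  have g9 : (r : ℝ) ≤ 2 * z := by
    have e1 : (4 * r : ℝ) * q ≤ (8 * z) * q := by linarith
    have := le_of_mul_le_mul_right e1 hq
    linarith
  push_cast
  linarith

/-- The window at a time. -/
theorem win_at {N t τ i₀ : ℕ} {n1 : ℕ → ℕ} {e0 E a : ℕ} (hE : e0 ≤ E) (hn : 2048 * 2 ^ a ≤ n1 e0) (hnt : n1 e0 ≤ t) (hτ : 1 ≤ τ)
    (hN : τ + t ≤ N) (h1 : τ ≤ i₀) (h2 : i₀ ≤ τ + t / 4) :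
    ∃ W ∈ Ws5 N t τ n1 e0 E a, W.1 = e0 ∧ ∀ i, (i ∈ W.2.2 ∨ i = W.2.1) → i ≤ i₀ + n1 e0 ∧ i₀ ≤ i + n1 e0 ∧ i ≤ N ∧ τ ≤ i ∧ i < τ + t := by
  have hP := Nat.one_le_two_pow (n := a)
  obtain ⟨q, hq⟩ : ∃ q, q = n1 e0 / 4 := ⟨_, rfl⟩
  have hq1 : 1 ≤ q := by omega
  obtain ⟨m, hm⟩ : ∃ m, m = (i₀ - τ) / q := ⟨_, rfl⟩
  have hm1 : m * q ≤ i₀ - τ := by rw [hm]; exact Nat.div_mul_le_self _ _
  have hm2 : i₀ - τ < m * q + q := by rw [hm]; exact Nat.lt_div_mul_add (by omega)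
  have hm3 : m ≤ t / 4 / q := by rw [hm]; exact Nat.div_le_div_right (by omega)
  have hGW := gwk_short (N := N) (n1 := n1) (E := E) le_rfl hE hn (z := τ + m * q) (by omega) (by rw [← hq]; omega) (τ + m * q)
  rw [← hq] at hGW
  refine ⟨(e0, τ + m * q, Ico (τ + m * q) (τ + m * q + q)), ?_, rfl, fun i hi => ?_⟩
  · rw [mem_Ws5]
    refine ⟨⟨m, by rw [← hq]; exact hm3, by rw [← hq]⟩, hGW⟩
  · have h3 : τ + m * q ≤ i ∧ i < τ + m * q + q := by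
      rcases hi with hi | hi
      · dsimp only at hi
        rw [mem_Ico] at hi
        exact hi
      · dsimp only at hi
        omega
    omega

/-! ### Separation -/

theorem gap_step (S S' : Finset ℕ) (i : ℕ) : |(pos S (i + 1) - pos S' (i + 1)) - (pos S i - pos S' i)| ≤ 1 := by
  rw [Pool.Agent.W_7d29a1_Z.pos_step, Pool.Agent.W_7d29a1_Z.pos_step S', abs_le]
  split_ifs <;> constructor <;> linarith

/-- Without meetings the order is constant. -/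
theorem ord_const {S S' : Finset ℕ} {i m : ℕ} (h : NoMeet i (i + m) S S') (h0 : pos S i < pos S' i) :
    ∀ k, i ≤ k → k ≤ i + m → pos S k < pos S' k := by
  intro k hk1
  induction k, hk1 using Nat.le_induction with
  | base => exact fun _ => h0
  | succ k hk ih =>
    intro hk2
    have h1 := ih (by omega)
    have h2 := h (k + 1) (by omega) hk2
    have h3 := abs_le.1 (gap_step S S' k)
    omega

theorem nm_symm {i j : ℕ} {S S' : Finset ℕ} (h : NoMeet i j S S') : NoMeet i j S' S := fun k h1 h2 => (h k h1 h2).symm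

theorem nm_mono {i j i' j' : ℕ} {S S' : Finset ℕ} (h : NoMeet i j S S') (hi : i ≤ i') (hj : j' ≤ j) : NoMeet i' j' S S' :=
  fun k h1 h2 => h k (hi.trans h1) (h2.trans hj)

/-- The gap of two regular paths moves slowly. -/
theorem gap_move {L N : ℕ} {ε : ℝ} {S S' : Finset ℕ} (hS : NSp μ s L N ε S) (hS' : NSp μ s L N ε S') {i n : ℕ} (hn : 1 ≤ n)
    (hiN : i + n ≤ N) : |(((pos S (i + n) - pos S' (i + n)) - (pos S i - pos S' i) : ℤ) : ℝ)| ≤ 2 * ((L : ℝ) ^ ε * wd' μ s n) := by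
  have h1 := hS i n hn hiN
  have h2 := hS' i n hn hiN
  have e1 : (((pos S (i + n) - pos S' (i + n)) - (pos S i - pos S' i) : ℤ) : ℝ) =
      (((pos S (i + n) - pos S i : ℤ) : ℝ) - sl μ s * n) - (((pos S' (i + n) - pos S' i : ℤ) : ℝ) - sl μ s * n) := by
    push_cast
    ring
  rw [e1]
  have h3 := abs_sub (((pos S (i + n) - pos S i : ℤ) : ℝ) - sl μ s * n) (((pos S' (i + n) - pos S' i : ℤ) : ℝ) - sl μ s * n)
  linarith

/-- A pair which is not close separates. -/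
theorem sep2 {L N i n : ℕ} {ε : ℝ} {S S' : Finset ℕ} (hC : ¬ Close μ s L N ε (fun _ => 0) S S') (hn : (L : ℝ) ^ ε ≤ n)
    (hiN : i + n ≤ N) (hno : NoMeet i (i + n) S S') :
    ∃ k, i ≤ k ∧ k ≤ i + n ∧ (L : ℝ) ^ (-ε) * wd' μ s n < |((pos S k - pos S' k : ℤ) : ℝ)| := by
  by_contra hcon
  push Not at hcon
  refine hC ⟨i, n, hn, hiN, fun k h1 h2 => ?_, fun k h1 h2 => ?_⟩
  · unfold px
    simpa [sv] using hno k h1 h2
  · have h3 := hcon k h1 h2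
    unfold px
    simpa [sv] using h3

/-- `S₂` is between `S₁` and `S₃`. -/
def Mid (i : ℕ) (S₁ S₂ S₃ : Finset ℕ) : Prop :=
  (pos S₁ i < pos S₂ i ∧ pos S₂ i < pos S₃ i) ∨ (pos S₃ i < pos S₂ i ∧ pos S₂ i < pos S₁ i)

theorem mid_ex {i : ℕ} {S₁ S₂ S₃ : Finset ℕ} (h1 : pos S₁ i ≠ pos S₂ i) (h2 : pos S₂ i ≠ pos S₃ i) (h3 : pos S₁ i ≠ pos S₃ i) :
    Mid i S₁ S₂ S₃ ∨ Mid i S₂ S₁ S₃ ∨ Mid i S₁ S₃ S₂ := by
  unfold Mid
  omega

theorem mid_const {i m : ℕ} {S₁ S₂ S₃ : Finset ℕ} (h : Mid i S₁ S₂ S₃) (h1 : NoMeet i (i + m) S₁ S₂) (h2 : NoMeet i (i + m) S₂ S₃) :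
    ∀ k, i ≤ k → k ≤ i + m → Mid k S₁ S₂ S₃ := by
  intro k hk1 hk2
  rcases h with ⟨g1, g2⟩ | ⟨g1, g2⟩
  · exact Or.inl ⟨ord_const h1 g1 k hk1 hk2, ord_const h2 g2 k hk1 hk2⟩
  · exact Or.inr ⟨ord_const (nm_symm h2) g1 k hk1 hk2, ord_const (nm_symm h1) g2 k hk1 hk2⟩

/-- Numbers of the separation. -/
structure SpN (μ : Measure ℝ) (s : ℝ) (L t e0 : ℕ) (ε : ℝ) (m n : ℕ) : Prop where
  m1 : (L : ℝ) ^ ε ≤ m
  n1 : (L : ℝ) ^ ε ≤ n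
  n0 : 1 ≤ n
  mn : m + n ≤ t / 4
  big : (2 : ℝ) ^ (e0 + 4) ≤ (L : ℝ) ^ (-ε) * wd' μ s n
  flat : ∀ j : ℕ, 1 ≤ j → j ≤ n → 2 * ((L : ℝ) ^ ε * wd' μ s j) + 2 ^ (e0 + 4) ≤ (L : ℝ) ^ (-ε) * wd' μ s m

/-- The two gaps of the middle path are large at the same time. -/
theorem sep_mid {L N t τ e0 m n : ℕ} {ε : ℝ} (hn : SpN μ s L t e0 ε m n) {S₁ S₂ S₃ : Finset ℕ} (hS₁ : NSp μ s L N ε S₁)
    (hS₂ : NSp μ s L N ε S₂) (hC₁ : ¬ Close μ s L N ε (fun _ => 0) S₁ S₂) (hC₂ : ¬ Close μ s L N ε (fun _ => 0) S₂ S₃)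
    (hN : τ + t / 4 ≤ N) (h1 : NoMeet τ (τ + t / 4) S₁ S₂) (h2 : NoMeet τ (τ + t / 4) S₂ S₃) :
    ∃ i₀, τ ≤ i₀ ∧ i₀ ≤ τ + t / 4 ∧ (2 : ℤ) ^ (e0 + 4) ≤ |pos S₁ i₀ - pos S₂ i₀| ∧ (2 : ℤ) ^ (e0 + 4) ≤ |pos S₂ i₀ - pos S₃ i₀| := by
  have hmn := hn.mn
  obtain ⟨k, k1, k2, k3⟩ := sep2 hC₁ hn.m1 (show τ + m ≤ N by omega) (nm_mono h1 le_rfl (by omega))
  obtain ⟨i₀, j1, j2, j3⟩ := sep2 hC₂ hn.n1 (show k + n ≤ N by omega) (nm_mono h2 k1 (by omega))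
  refine ⟨i₀, by omega, by omega, ?_, ?_⟩
  · obtain ⟨j, hj⟩ : ∃ j, i₀ = k + j := ⟨i₀ - k, by omega⟩
    subst hj
    rcases Nat.eq_zero_or_pos j with h0 | h0
    · subst h0
      have g1 := hn.flat 1 le_rfl hn.n0
      have h4 : 0 ≤ (L : ℝ) ^ ε * wd' μ s 1 := mul_nonneg (Real.rpow_nonneg (Nat.cast_nonneg _) _) (zero_le_one.trans (le_max_left _ _))
      have h5 : (((2 : ℤ) ^ (e0 + 4) : ℤ) : ℝ) ≤ ((|pos S₁ k - pos S₂ k| : ℤ) : ℝ) := by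
        push_cast at k3 ⊢
        linarith
      exact_mod_cast h5
    · have g1 := hn.flat j h0 (by omega)
      have g2 := gap_move hS₁ hS₂ h0 (show k + j ≤ N by omega)
      have h5 : (((2 : ℤ) ^ (e0 + 4) : ℤ) : ℝ) ≤ ((|pos S₁ (k + j) - pos S₂ (k + j)| : ℤ) : ℝ) := by
        push_cast at g2 k3 ⊢
        have g3 := abs_sub_abs_le_abs_sub ((pos S₁ k : ℝ) - pos S₂ k) (((pos S₁ (k + j) : ℝ) - pos S₂ (k + j)))
        rw [abs_sub_comm ((pos S₁ k : ℝ) - pos S₂ k)] at g3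
        linarith
      exact_mod_cast h5
  · have h5 : (((2 : ℤ) ^ (e0 + 4) : ℤ) : ℝ) ≤ ((|pos S₂ i₀ - pos S₃ i₀| : ℤ) : ℝ) := by
      have := hn.big
      push_cast at j3 ⊢
      linarith
    exact_mod_cast h5

/-- **Three paths which are pairwise apart are pairwise separated at one time.** -/
theorem sep3 {L N t τ e0 m n : ℕ} {ε : ℝ} (hn : SpN μ s L t e0 ε m n) {S a b : Finset ℕ} (hS : NSp μ s L N ε S)
    (ha : NSp μ s L N ε a) (hb : NSp μ s L N ε b) (hC₁ : ¬ Close μ s L N ε (fun _ => 0) S a)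
    (hC₂ : ¬ Close μ s L N ε (fun _ => 0) S b) (hC₃ : ¬ Close μ s L N ε (fun _ => 0) a b)
    (hC₁' : ¬ Close μ s L N ε (fun _ => 0) a S) (hC₃' : ¬ Close μ s L N ε (fun _ => 0) b a)
    (hN : τ + t / 4 ≤ N) (h1 : NoMeet τ (τ + t / 4) S a) (h2 : NoMeet τ (τ + t / 4) S b) (h3 : NoMeet τ (τ + t / 4) a b) :
    ∃ i₀, τ ≤ i₀ ∧ i₀ ≤ τ + t / 4 ∧ (2 : ℤ) ^ (e0 + 4) ≤ |pos S i₀ - pos a i₀| ∧ (2 : ℤ) ^ (e0 + 4) ≤ |pos S i₀ - pos b i₀| ∧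
      (2 : ℤ) ^ (e0 + 4) ≤ |pos a i₀ - pos b i₀| := by
  have hP : (0 : ℤ) < 2 ^ (e0 + 4) := by positivity
  rcases mid_ex (h1 τ le_rfl (by omega)) (h3 τ le_rfl (by omega)) (h2 τ le_rfl (by omega)) with h | h | h
  · obtain ⟨i₀, i1, i2, i3, i4⟩ := sep_mid hn hS ha hC₁ hC₃ hN h1 h3
    have h4 := mid_const h h1 h3 i₀ i1 i2
    refine ⟨i₀, i1, i2, i3, ?_, i4⟩
    rcases h4 with ⟨g1, g2⟩ | ⟨g1, g2⟩
    · rw [abs_of_neg (by linarith)] at i3 i4 ⊢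
      linarith
    · rw [abs_of_pos (by linarith)] at i3 i4 ⊢
      linarith
  · obtain ⟨i₀, i1, i2, i3, i4⟩ := sep_mid hn ha hS hC₁' hC₂ hN (nm_symm h1) h2
    have h4 := mid_const h (nm_symm h1) h2 i₀ i1 i2
    refine ⟨i₀, i1, i2, by rw [abs_sub_comm]; exact i3, i4, ?_⟩
    rcases h4 with ⟨g1, g2⟩ | ⟨g1, g2⟩
    · rw [abs_of_neg (by linarith)] at i3 i4 ⊢
      linarith
    · rw [abs_of_pos (by linarith)] at i3 i4 ⊢
      linarith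
  · obtain ⟨i₀, i1, i2, i3, i4⟩ := sep_mid hn hS hb hC₂ hC₃' hN h2 (nm_symm h3)
    have h4 := mid_const h h2 (nm_symm h3) i₀ i1 i2
    refine ⟨i₀, i1, i2, ?_, i3, by rw [abs_sub_comm]; exact i4⟩
    rcases h4 with ⟨g1, g2⟩ | ⟨g1, g2⟩
    · rw [abs_of_neg (by linarith)] at i3 i4 ⊢
      linarith
    · rw [abs_of_pos (by linarith)] at i3 i4 ⊢
      linarith

/-- Closings nearby bound the distance. -/
theorem gap_le {L N i₀ i : ℕ} {ε D : ℝ} {S S' : Finset ℕ} (hS : NSp μ s L N ε S) (hS' : NSp μ s L N ε S') (hi : pos S i = pos S' i)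
    (hiN : i ≤ N) (hi₀ : i₀ ≤ N) (hD0 : 0 ≤ D)
    (hD : ∀ n : ℕ, 1 ≤ n → n ≤ N → (i₀ = i + n ∨ i = i₀ + n) → 2 * ((L : ℝ) ^ ε * wd' μ s n) ≤ D) :
    |((pos S i₀ - pos S' i₀ : ℤ) : ℝ)| ≤ D := by
  rcases Nat.lt_trichotomy i i₀ with h | h | h
  · obtain ⟨n, hn⟩ : ∃ n, i₀ = i + n := ⟨i₀ - i, by omega⟩
    have h1 := gap_move hS hS' (i := i) (n := n) (by omega) (by omega)
    rw [← hn, hi, sub_self, sub_zero] at h1
    exact h1.trans (hD n (by omega) (by omega) (Or.inl hn))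
  · subst h
    rw [hi, sub_self, Int.cast_zero, abs_zero]
    exact hD0
  · obtain ⟨n, hn⟩ : ∃ n, i = i₀ + n := ⟨i - i₀, by omega⟩
    have h1 := gap_move hS hS' (i := i₀) (n := n) (by omega) (by omega)
    rw [← hn, hi, sub_self, zero_sub, Int.cast_neg, abs_neg] at h1
    exact h1.trans (hD n (by omega) (by omega) (Or.inr hn))

/-! ### The bad events -/

/-- The bad events of the depth with one alternative. -/
def Bad2 (μ : Measure ℝ) (s : ℝ) (N : ℕ) (y : ℤ) (pr : Par) (L : ℕ) (Ws : Finset WT) (lm : ℝ) (η : Env) (S' S : Finset ℕ) : Prop :=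
  ∃ i ∈ (Ws ×ˢ QL L) ×ˢ ((range (N + 1)) ×ˢ (range (N + 1))),
    ((i.2.1 ≤ i.2.2 ∧ i.2.2 ≤ N) ∧ ∀ k ∈ (VV N y pr i.1.1 i.1.2).JJ, i.2.1 ≤ k ∧ k ≤ i.2.2) ∧
    BadC μ s (fun _ => 0) i.2.1 i.2.2 ∅ (cL μ s (VV N y pr i.1.1 i.1.2)) (cE μ s (VV N y pr i.1.1 i.1.2) pr.L pr.e pr.C pr.i₀ pr.i₁) lm η S' S

/-- The bad events of the depth with two alternatives. -/
def Bad3 (μ : Measure ℝ) (s : ℝ) (N : ℕ) (y : ℤ) (pr : Par) (L : ℕ) (Ws : Finset WT) (lm : ℝ) (η : Env) (S' S : Finset ℕ) : Prop :=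
  ∃ i ∈ (Ws ×ˢ (QL L ×ˢ QL L)) ×ˢ ((range (N + 1)) ×ˢ (range (N + 1))),
    ((i.2.1 ≤ i.2.2 ∧ i.2.2 ≤ N) ∧ ∀ k ∈ (VV N y pr i.1.1 i.1.2.1).JJ ∪ (VV N y pr i.1.1 i.1.2.2).JJ, i.2.1 ≤ k ∧ k ≤ i.2.2) ∧
    BadC μ s (fun _ => 0) i.2.1 i.2.2 ∅ (cLL μ s (VV N y pr i.1.1 i.1.2.1) (VV N y pr i.1.1 i.1.2.2))
      (cEL μ s (VV N y pr i.1.1 i.1.2.1) (VV N y pr i.1.1 i.1.2.2) pr.L pr.e pr.C pr.i₀ pr.i₁) lm η S' S

theorem bad2_pr [IsProbabilityMeasure μ] {N : ℕ} {y : ℤ} {pr : Par} (hia : pr.i₁ ≤ pr.a) {L : ℕ} {Ws : Finset WT} {lm : ℝ} :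
    P2 μ s N y (fun _ => 0) (Bad2 μ s N y pr L Ws lm) ≤
      ENNReal.ofReal ((Ws.card : ℝ) * (2 * (10 * L + 1)) * ((N : ℝ) + 1) ^ 2 * (3 * Real.exp (-lm))) := by
  have h1 := Z74.P2_ex_le (μ := μ) (s := s) (N := N) (y := y) (v := fun _ => 0)
    ((Ws ×ˢ QL L) ×ˢ ((range (N + 1)) ×ˢ (range (N + 1))))
    (fun i η S' S => ((i.2.1 ≤ i.2.2 ∧ i.2.2 ≤ N) ∧ ∀ k ∈ (VV N y pr i.1.1 i.1.2).JJ, i.2.1 ≤ k ∧ k ≤ i.2.2) ∧
      BadC μ s (fun _ => 0) i.2.1 i.2.2 ∅ (cL μ s (VV N y pr i.1.1 i.1.2)) (cE μ s (VV N y pr i.1.1 i.1.2) pr.L pr.e pr.C pr.i₀ pr.i₁)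
        lm η S' S)
    (c := ENNReal.ofReal (3 * Real.exp (-lm))) (fun i _ => Z74.P2_and_le fun hc => by
      obtain ⟨⟨c1, c2⟩, c4⟩ := hc
      exact depthC (fun _ => 0) c1 c2 c4 (Pool.Agent.W_7d29a1_C0.P86.pcs_zero _ _ _) (locL _) (locE _ _ _ _ _ hia) lm)
  refine h1.trans (cast_const (by positivity) _ (le_of_eq ?_))
  rw [card_product, card_product, card_product, card_range, QL_card]
  push_cast
  ring

theorem bad3_pr [IsProbabilityMeasure μ] {N : ℕ} {y : ℤ} {pr : Par} (hia : pr.i₁ ≤ pr.a) {L : ℕ} {Ws : Finset WT} {lm : ℝ} :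
    P2 μ s N y (fun _ => 0) (Bad3 μ s N y pr L Ws lm) ≤
      ENNReal.ofReal ((Ws.card : ℝ) * (2 * (10 * L + 1)) ^ 2 * ((N : ℝ) + 1) ^ 2 * (3 * Real.exp (-lm))) := by
  have h1 := Z74.P2_ex_le (μ := μ) (s := s) (N := N) (y := y) (v := fun _ => 0)
    ((Ws ×ˢ (QL L ×ˢ QL L)) ×ˢ ((range (N + 1)) ×ˢ (range (N + 1))))
    (fun i η S' S => ((i.2.1 ≤ i.2.2 ∧ i.2.2 ≤ N) ∧ ∀ k ∈ (VV N y pr i.1.1 i.1.2.1).JJ ∪ (VV N y pr i.1.1 i.1.2.2).JJ,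
        i.2.1 ≤ k ∧ k ≤ i.2.2) ∧
      BadC μ s (fun _ => 0) i.2.1 i.2.2 ∅ (cLL μ s (VV N y pr i.1.1 i.1.2.1) (VV N y pr i.1.1 i.1.2.2))
        (cEL μ s (VV N y pr i.1.1 i.1.2.1) (VV N y pr i.1.1 i.1.2.2) pr.L pr.e pr.C pr.i₀ pr.i₁) lm η S' S)
    (c := ENNReal.ofReal (3 * Real.exp (-lm))) (fun i _ => Z74.P2_and_le fun hc => by
      obtain ⟨⟨c1, c2⟩, c4⟩ := hc
      exact depthC (fun _ => 0) c1 c2 c4 (Pool.Agent.W_7d29a1_C0.P86.pcs_zero _ _ _) (locLL _ _) (locEL _ _ _ _ _ _ hia) lm)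
  refine h1.trans (cast_const (by positivity) _ (le_of_eq ?_))
  rw [card_product, card_product, card_product, card_product, card_range, QL_card]
  push_cast
  ring

/-! ### Production -/

/-- The window around the time `i₀`: what the deterministic production uses. -/
structure Ar (μ : Measure ℝ) (s : ℝ) (N t τ : ℕ) (n1 : ℕ → ℕ) (e0 E : ℕ) (pr : Par) (L K : ℕ) (W : WT) (i₀ : ℕ) : Prop where
  pok : POk μ s t n1 e0 E pr
  gwk : GWk N n1 e0 E pr.a W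
  e : W.1 = e0
  iN : i₀ ≤ N
  near : ∀ i, (i ∈ W.2.2 ∨ i = W.2.1) → i ≤ i₀ + n1 e0 ∧ i₀ ≤ i + n1 e0 ∧ i ≤ N ∧ τ ≤ i ∧ i < τ + t
  NL : N ≤ L
  K6 : 6 ≤ K
  eE : e0 ≤ E
  E3 : 2 ^ (E + 3) ≤ L
  m0 : ∀ j, 0 ≤ md μ s j
  m1 : ∀ j, md μ s j ≤ j

/-- **The line next to the alternative `b`.** -/
theorem line51 {N t τ : ℕ} {n1 : ℕ → ℕ} {e0 E : ℕ} {pr : Par} {L K : ℕ} {W : WT} {i₀ : ℕ} (h : Ar μ s N t τ n1 e0 E pr L K W i₀)
    (y : ℤ) {sg : ℤ} (hsg : sg = 1 ∨ sg = -1) {b : Finset ℕ} (hb : FlatP μ s N e0 E n1 b) (hTV : TVp μ s N pr b) :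
    ∃ Y : ℤ, (sg, Y) ∈ QL L ∧ cE μ s (VV N y pr W (sg, Y)) pr.L pr.e pr.C pr.i₀ pr.i₁ (pos b) ∧
      (∀ u : Finset ℕ, FlatP μ s N e0 E n1 u → 2 ^ (e0 + 4) ≤ sg * (pos b i₀ - pos u i₀) →
        cL μ s (VV N y pr W (sg, Y)) (pos u)) ∧
      ∀ u : Finset ℕ, FlatP μ s N e0 E n1 u → |pos b i₀ - pos u i₀| ≤ ((K - 6 : ℕ) : ℤ) * 2 ^ e0 → NrK μ s K W (sg, Y) u := by
  have hP : (1 : ℤ) ≤ 2 ^ e0 := by exact_mod_cast Nat.one_le_two_pow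
  have e3 : (2 : ℤ) ^ (e0 + 3) = 8 * 2 ^ e0 := by ring
  have e4 : (2 : ℤ) ^ (e0 + 4) = 16 * 2 ^ e0 := by ring
  have hsgA : ∀ z : ℤ, |sg * z| = |z| := fun z => by
    rcases hsg with h | h
    · rw [h, one_mul]
    · rw [h, neg_one_mul, abs_neg]
  have hfl : ∀ u : Finset ℕ, FlatP μ s N e0 E n1 u → ∀ i, (i ∈ W.2.2 ∨ i = W.2.1) →
      32 * |sg * (pos u i - md μ s i) - sg * (pos u i₀ - md μ s i₀)| ≤ 2 ^ e0 := by
    intro u hu i hi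
    obtain ⟨a1, a2, a3, -⟩ := h.near i hi
    rw [← mul_sub, hsgA]
    rcases le_total i i₀ with g | g
    · rw [abs_sub_comm]
      exact hu e0 le_rfl h.eE i i₀ g h.iN a2
    · exact hu e0 le_rfl h.eE i₀ i g a3 a1
  obtain ⟨Y, hY, hY1, hY2⟩ := line_ex (2 ^ e0) (sg * (pos b i₀ - md μ s i₀)) hP
  have hbW : ∀ i, (i ∈ W.2.2 ∨ i = W.2.1) → Y < sg * (pos b i - md μ s i) ∧ sg * (pos b i - md μ s i) ≤ Y + 2 ^ (e0 + 3) ∧
      2 ^ e0 ≤ 8 * (sg * (pos b i - md μ s i) - Y) := by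
    intro i hi
    have g1 := abs_le.1 (show |sg * (pos b i - md μ s i) - sg * (pos b i₀ - md μ s i₀)| ≤ _ from le_rfl)
    have g2 := hfl b hb i hi
    rw [e3]
    refine ⟨?_, ?_, ?_⟩
    · linarith [g1.1]
    · linarith [g1.2]
    · linarith [g1.1]
  refine ⟨Y, ?_, ?_, fun u hu hub => ?_, fun u hu hub => ?_⟩
  · unfold QL
    rw [mem_product, mem_insert, mem_singleton, mem_Icc]
    refine ⟨hsg, ?_⟩
    have h4 := pos_nonneg b i₀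
    have h5 := pos_le b i₀
    have g5 := h.m0 i₀
    have g6 := h.m1 i₀
    have g7 : (i₀ : ℤ) ≤ L := by exact_mod_cast h.iN.trans h.NL
    have g8 : (2 : ℤ) ^ e0 * 5 ≤ 4 * L := by
      have a1 : 2 ^ e0 * 8 ≤ 2 ^ (E + 3) := by
        calc 2 ^ e0 * 8 = 2 ^ (e0 + 3) := by ring
          _ ≤ 2 ^ (E + 3) := Nat.pow_le_pow_right (by norm_num) (by have := h.eE; omega)
      have a2 : 2 ^ e0 * 5 ≤ 4 * L := by
        have := h.E3
        omega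
      exact_mod_cast a2
    rcases hsg with h6 | h6
    · rw [h6] at hY1 hY2
      constructor <;> linarith
    · rw [h6] at hY1 hY2
      constructor <;> linarith
  · refine cE_ofG h.pok h.gwk hTV (fun i hi => ?_) (fun i hi => ?_) y N
    · have g := hbW i (Or.inl hi)
      rw [h.e]
      push_cast
      exact ⟨g.1, g.2.1⟩
    · have g := hbW i (Or.inl hi)
      rw [h.e]
      exact g.2.2
  · intro i hi
    have hi' : i ∈ W.2.2 := VV_J N y pr W (sg, Y) hi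
    show sg * (pos u i - md μ s i) ≤ Y
    have g1 := abs_le.1 (show |sg * (pos u i - md μ s i) - sg * (pos u i₀ - md μ s i₀)| ≤ _ from le_rfl)
    have g2 := hfl u hu i (Or.inl hi')
    have g3 : sg * (pos b i₀ - pos u i₀) = sg * (pos b i₀ - md μ s i₀) - sg * (pos u i₀ - md μ s i₀) := by ring
    rw [g3, e4] at hub
    linarith [g1.2]
  · refine ⟨?_, ?_⟩
    · rw [h.e]
      push_cast
      exact hY
    · show |sg * (pos u W.2.1 - md μ s W.2.1) - Y| ≤ _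
      rw [h.e]
      have g1 := hfl u hu W.2.1 (Or.inr rfl)
      have g2 : |sg * (pos b i₀ - md μ s i₀) - sg * (pos u i₀ - md μ s i₀)| ≤ ((K - 6 : ℕ) : ℤ) * 2 ^ e0 := by
        rw [← mul_sub, hsgA]
        refine le_trans (le_of_eq ?_) hub
        congr 1
        ring
      have g3 : ((K - 6 : ℕ) : ℤ) = (K : ℤ) - 6 := by
        have := h.K6
        push_cast [Nat.cast_sub this]
        ring
      rw [g3] at g2
      push_cast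
      have g4 := abs_le.1 (show |sg * (pos u W.2.1 - md μ s W.2.1) - sg * (pos u i₀ - md μ s i₀)| ≤ _ from le_rfl)
      have g5 := abs_le.1 g2
      have g6 : ((K : ℤ) - 6) * 2 ^ e0 = K * 2 ^ e0 - 6 * 2 ^ e0 := by ring
      rw [g6] at g5
      rw [abs_le]
      constructor
      · linarith [g4.1, g5.1, g5.2]
      · linarith [g4.2, g5.1, g5.2]

/-- The meetings are away from the window. -/
theorem away51 {N t τ : ℕ} {n1 : ℕ → ℕ} {e0 E : ℕ} {pr : Par} {L K : ℕ} {W : WT} {i₀ : ℕ} (h : Ar μ s N t τ n1 e0 E pr L K W i₀)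
    {S b : Finset ℕ} (hS : FlatP μ s N e0 E n1 S) (hb : FlatP μ s N e0 E n1 b) (hd : (2 : ℤ) ^ (e0 + 4) ≤ |pos S i₀ - pos b i₀|)
    {i : ℕ} (hi : pos S i = pos b i) (hiN : i ≤ N) : (i ≤ i₀ → ∀ k ∈ W.2.2, i < k) ∧ (i₀ ≤ i → ∀ k ∈ W.2.2, k < i) := by
  have hP : (1 : ℤ) ≤ 2 ^ e0 := by exact_mod_cast Nat.one_le_two_pow
  have e4 : (2 : ℤ) ^ (e0 + 4) = 16 * 2 ^ e0 := by ring
  have key : ¬ (i ≤ i₀ + n1 e0 ∧ i₀ ≤ i + n1 e0) := by
    rintro ⟨g1, g2⟩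
    have hm : ∀ u : Finset ℕ, FlatP μ s N e0 E n1 u → 32 * |(pos u i - md μ s i) - (pos u i₀ - md μ s i₀)| ≤ 2 ^ e0 := by
      intro u hu
      rcases le_total i i₀ with g | g
      · rw [abs_sub_comm]
        exact hu e0 le_rfl h.eE i i₀ g h.iN g2
      · exact hu e0 le_rfl h.eE i₀ i g hiN g1
    have g3 := hm S hS
    have g4 := hm b hb
    have g5 := abs_le.1 (show |(pos S i - md μ s i) - (pos S i₀ - md μ s i₀)| ≤ _ from le_rfl)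
    have g6 := abs_le.1 (show |(pos b i - md μ s i) - (pos b i₀ - md μ s i₀)| ≤ _ from le_rfl)
    rw [e4] at hd
    rcases le_abs.1 hd with g | g
    · linarith [g5.1, g5.2, g6.1, g6.2]
    · linarith [g5.1, g5.2, g6.1, g6.2]
  refine ⟨fun g k hk => ?_, fun g k hk => ?_⟩
  · have := h.near k (Or.inl hk)
    omega
  · have := h.near k (Or.inl hk)
    omega

/-- **Production with one alternative.** -/
theorem prod2 {N t τ : ℕ} {n1 : ℕ → ℕ} {e0 E : ℕ} {pr : Par} {L K : ℕ} {W : WT} {i₀ : ℕ} (h : Ar μ s N t τ n1 e0 E pr L K W i₀)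
    (y : ℤ) {Ws : Finset WT} (hW : W ∈ Ws) {η : Env} {lm M : ℝ} (hM : 3 * lm ≤ M) {S b : Finset ℕ} (hS : FlatP μ s N e0 E n1 S)
    (hb : FlatP μ s N e0 E n1 b) (hTV : TVp μ s N pr b) (hBD : ¬ Bad2 μ s N y pr L Ws lm η b S)
    (hd : (2 : ℤ) ^ (e0 + 4) ≤ |pos S i₀ - pos b i₀|) (hK : |pos S i₀ - pos b i₀| ≤ ((K - 6 : ℕ) : ℤ) * 2 ^ e0)
    {c d i i' : ℕ} (hci : c ≤ i) (hik : ∀ k ∈ W.2.2, i < k ∧ k < i') (hii : i ≤ i') (hi : pos S i = pos b i) (hi'd : i' ≤ d)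
    (hdN : d ≤ N) (hi' : pos S i' = pos b i') : NT2 μ s N y pr L K Ws c d M η S := by
  obtain ⟨sg, hsg, hub⟩ : ∃ sg : ℤ, (sg = 1 ∨ sg = -1) ∧ 2 ^ (e0 + 4) ≤ sg * (pos b i₀ - pos S i₀) := by
    rcases le_total 0 (pos b i₀ - pos S i₀) with g | g
    · refine ⟨1, Or.inl rfl, ?_⟩
      rw [abs_sub_comm, abs_of_nonneg g] at hd
      linarith
    · refine ⟨-1, Or.inr rfl, ?_⟩
      rw [abs_sub_comm, abs_of_nonpos g] at hd
      linarith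
  obtain ⟨Y, q1, q2, q3, q4⟩ := line51 h y hsg hb hTV
  refine ⟨W, hW, (sg, Y), q1, q4 S hS (by rw [abs_sub_comm]; exact hK), q3 S hS hub, (i, i'), ?_, ⟨hci, hi'd⟩, ?_⟩
  · unfold Br
    rw [mem_filter, mem_product, mem_range, mem_range]
    refine ⟨⟨?_, ?_⟩, ?_, fun k hk => ?_⟩
    · show i < N + 1
      omega
    · show i' < N + 1
      omega
    · show i' ≤ i + N
      omega
    · exact hik k (VV_J N y pr W _ hk)
  · refine depth_use (S := b) (lm := lm) (fun hB => hBD ⟨((W, (sg, Y)), (i, i')), ?_, ⟨⟨hii, ?_⟩, fun k hk => ?_⟩, hB⟩) hi.symm hi'.symm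
      (q3 S hS hub) q2 hM
    · rw [mem_product, mem_product, mem_product, mem_range, mem_range]
      refine ⟨⟨hW, q1⟩, ?_, ?_⟩
      · show i < N + 1
        omega
      · show i' < N + 1
        omega
    · show i' ≤ N
      omega
    · have := hik k (VV_JJ N y pr W _ hk)
      exact ⟨this.1.le, this.2.le⟩

/-- **Production with two alternatives**, `b` being the extreme path. -/
theorem prod3e {N t τ : ℕ} {n1 : ℕ → ℕ} {e0 E : ℕ} {pr : Par} {L K : ℕ} {W : WT} {i₀ : ℕ} (h : Ar μ s N t τ n1 e0 E pr L K W i₀)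
    (y : ℤ) {Ws : Finset WT} (hW : W ∈ Ws) {η : Env} {lm M : ℝ} (hM : 3 * lm ≤ M) {S a b : Finset ℕ} (hS : FlatP μ s N e0 E n1 S)
    (ha : FlatP μ s N e0 E n1 a) (hb : FlatP μ s N e0 E n1 b) (hTVa : TVp μ s N pr a) (hTVb : TVp μ s N pr b)
    (hBb : ¬ Bad2 μ s N y pr L Ws lm η b S) (hBa : ¬ Bad3 μ s N y pr L Ws lm η a S)
    (hda : (2 : ℤ) ^ (e0 + 4) ≤ |pos S i₀ - pos a i₀|) {sg : ℤ} (hsg : sg = 1 ∨ sg = -1)
    (hdb : 2 ^ (e0 + 4) ≤ sg * (pos b i₀ - pos S i₀)) (hdab : 2 ^ (e0 + 4) ≤ sg * (pos b i₀ - pos a i₀))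
    (hKa : |pos S i₀ - pos a i₀| ≤ ((K - 6 : ℕ) : ℤ) * 2 ^ e0) (hKb : |pos S i₀ - pos b i₀| ≤ ((K - 6 : ℕ) : ℤ) * 2 ^ e0)
    {c d i i' j j' : ℕ} (hci : c ≤ i) (hik : ∀ k ∈ W.2.2, i < k ∧ k < i') (hii : i ≤ i') (hi : pos S i = pos a i) (hi'd : i' ≤ d)
    (hdN : d ≤ N) (hi' : pos S i' = pos a i') (hcj : c ≤ j) (hjk : ∀ k ∈ W.2.2, j < k ∧ k < j') (hjj : j ≤ j') (hj : pos S j = pos b j)
    (hj'd : j' ≤ d) (hj' : pos S j' = pos b j') : NT3 μ s N y pr L K Ws c d M η S := by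
  obtain ⟨sg', hsg', hua⟩ : ∃ sg' : ℤ, (sg' = 1 ∨ sg' = -1) ∧ 2 ^ (e0 + 4) ≤ sg' * (pos a i₀ - pos S i₀) := by
    rcases le_total 0 (pos a i₀ - pos S i₀) with g | g
    · refine ⟨1, Or.inl rfl, ?_⟩
      rw [abs_sub_comm, abs_of_nonneg g] at hda
      linarith
    · refine ⟨-1, Or.inr rfl, ?_⟩
      rw [abs_sub_comm, abs_of_nonpos g] at hda
      linarith
  obtain ⟨Y, q1, q2, q3, q4⟩ := line51 h y hsg hb hTVb
  obtain ⟨Y', p1, p2, p3, p4⟩ := line51 h y hsg' ha hTVa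
  refine ⟨W, hW, ((sg', Y'), (sg, Y)), mem_product.2 ⟨p1, q1⟩, ⟨p4 S hS (by rw [abs_sub_comm]; exact hKa),
    q4 S hS (by rw [abs_sub_comm]; exact hKb)⟩, ⟨p3 S hS hua, (i, i'), ?_, ⟨hci, hi'd⟩, ?_⟩, q3 S hS hdb, (j, j'), ?_, ⟨hcj, hj'd⟩, ?_⟩
  · rw [mem_Br2]
    refine ⟨⟨?_, ?_⟩, fun k hk => ?_⟩
    · show i ≤ N
      omega
    · show i' ≤ N
      omega
    · rw [mem_union] at hk
      exact hik k (hk.elim (fun hk => VV_JJ N y pr W _ hk) fun hk => VV_JJ N y pr W _ hk)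
  · refine depth_use (S := a) (lm := lm) (fun hB => hBa ⟨((W, ((sg', Y'), (sg, Y))), (i, i')), ?_, ⟨⟨hii, ?_⟩, fun k hk => ?_⟩, hB⟩)
      hi.symm hi'.symm ⟨p3 S hS hua, q3 S hS hdb⟩ ⟨p2, q3 a ha hdab⟩ hM
    · rw [mem_product, mem_product, mem_product, mem_product, mem_range, mem_range]
      refine ⟨⟨hW, p1, q1⟩, ?_, ?_⟩
      · show i < N + 1
        omega
      · show i' < N + 1
        omega
    · show i' ≤ N
      omega
    · rw [mem_union] at hk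
      have := hik k (hk.elim (fun hk => VV_JJ N y pr W _ hk) fun hk => VV_JJ N y pr W _ hk)
      exact ⟨this.1.le, this.2.le⟩
  · unfold Br
    rw [mem_filter, mem_product, mem_range, mem_range]
    refine ⟨⟨?_, ?_⟩, ?_, fun k hk => ?_⟩
    · show j < N + 1
      omega
    · show j' < N + 1
      omega
    · show j' ≤ j + N
      omega
    · exact hjk k (VV_J N y pr W _ hk)
  · refine depth_use (S := b) (lm := lm) (fun hB => hBb ⟨((W, (sg, Y)), (j, j')), ?_, ⟨⟨hjj, ?_⟩, fun k hk => ?_⟩, hB⟩) hj.symm hj'.symm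
      (q3 S hS hdb) q2 hM
    · rw [mem_product, mem_product, mem_product, mem_range, mem_range]
      refine ⟨⟨hW, q1⟩, ?_, ?_⟩
      · show j < N + 1
        omega
      · show j' < N + 1
        omega
    · show j' ≤ N
      omega
    · have := hjk k (VV_JJ N y pr W _ hk)
      exact ⟨this.1.le, this.2.le⟩

/-- **Production with two alternatives.** -/
theorem prod3 {N t τ : ℕ} {n1 : ℕ → ℕ} {e0 E : ℕ} {pr : Par} {L K : ℕ} {W : WT} {i₀ : ℕ} (h : Ar μ s N t τ n1 e0 E pr L K W i₀)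
    (y : ℤ) {Ws : Finset WT} (hW : W ∈ Ws) {η : Env} {lm M : ℝ} (hM : 3 * lm ≤ M) {S a b : Finset ℕ} (hS : FlatP μ s N e0 E n1 S)
    (ha : FlatP μ s N e0 E n1 a) (hb : FlatP μ s N e0 E n1 b) (hTVa : TVp μ s N pr a) (hTVb : TVp μ s N pr b)
    (hBb : ¬ Bad2 μ s N y pr L Ws lm η b S) (hBa : ¬ Bad3 μ s N y pr L Ws lm η a S)
    (hBa' : ¬ Bad2 μ s N y pr L Ws lm η a S) (hBb' : ¬ Bad3 μ s N y pr L Ws lm η b S)
    (hda : (2 : ℤ) ^ (e0 + 4) ≤ |pos S i₀ - pos a i₀|) (hdb : (2 : ℤ) ^ (e0 + 4) ≤ |pos S i₀ - pos b i₀|)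
    (hdab : (2 : ℤ) ^ (e0 + 4) ≤ |pos a i₀ - pos b i₀|)
    (hKa : |pos S i₀ - pos a i₀| ≤ ((K - 6 : ℕ) : ℤ) * 2 ^ e0) (hKb : |pos S i₀ - pos b i₀| ≤ ((K - 6 : ℕ) : ℤ) * 2 ^ e0)
    {c d i i' j j' : ℕ} (hci : c ≤ i) (hik : ∀ k ∈ W.2.2, i < k ∧ k < i') (hii : i ≤ i') (hi : pos S i = pos a i) (hi'd : i' ≤ d)
    (hdN : d ≤ N) (hi' : pos S i' = pos a i') (hcj : c ≤ j) (hjk : ∀ k ∈ W.2.2, j < k ∧ k < j') (hjj : j ≤ j') (hj : pos S j = pos b j)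
    (hj'd : j' ≤ d) (hj' : pos S j' = pos b j') : NT3 μ s N y pr L K Ws c d M η S := by
  have hP : (0 : ℤ) < 2 ^ (e0 + 4) := by positivity
  -- one of the alternatives is the extreme path on one side
  by_cases g1 : pos S i₀ < pos b i₀ ∧ pos a i₀ < pos b i₀
  · refine prod3e h y hW hM hS ha hb hTVa hTVb hBb hBa hda (sg := 1) (Or.inl rfl) ?_ ?_ hKa hKb hci hik hii hi hi'd hdN hi' hcj hjk hjj hj
      hj'd hj'
    · rw [abs_of_neg (by linarith [g1.1])] at hdb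
      linarith
    · rw [abs_of_neg (by linarith [g1.2])] at hdab
      linarith
  by_cases g2 : pos S i₀ < pos a i₀ ∧ pos b i₀ < pos a i₀
  · refine prod3e h y hW hM hS hb ha hTVb hTVa hBa' hBb' hdb (sg := 1) (Or.inl rfl) ?_ ?_ hKb hKa hcj hjk hjj hj hj'd hdN hj' hci hik hii hi
      hi'd hi'
    · rw [abs_of_neg (by linarith [g2.1])] at hda
      linarith
    · rw [abs_of_pos (by linarith [g2.2])] at hdab
      linarith
  -- the base path is the maximum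
  have hne : pos a i₀ ≠ pos b i₀ := fun hcon => by
    rw [hcon, sub_self, abs_zero] at hdab
    linarith
  have hna : pos S i₀ ≠ pos a i₀ := fun hcon => by
    rw [hcon, sub_self, abs_zero] at hda
    linarith
  have hnb : pos S i₀ ≠ pos b i₀ := fun hcon => by
    rw [hcon, sub_self, abs_zero] at hdb
    linarith
  have g3 : pos a i₀ < pos S i₀ ∧ pos b i₀ < pos S i₀ := by omega
  rcases lt_or_gt_of_ne hne with g4 | g4
  · refine prod3e h y hW hM hS hb ha hTVb hTVa hBa' hBb' hdb (sg := -1) (Or.inr rfl) ?_ ?_ hKb hKa hcj hjk hjj hj hj'd hdN hj' hci hik hii hi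
      hi'd hi'
    · rw [abs_of_pos (by linarith [g3.1])] at hda
      linarith
    · rw [abs_of_neg (by linarith)] at hdab
      linarith
  · refine prod3e h y hW hM hS ha hb hTVa hTVb hBb hBa hda (sg := -1) (Or.inr rfl) ?_ ?_ hKa hKb hci hik hii hi hi'd hdN hi' hcj hjk hjj hj
      hj'd hj'
    · rw [abs_of_pos (by linarith [g3.2])] at hdb
      linarith
    · rw [abs_of_pos (by linarith)] at hdab
      linarith

end

end Pool.Agent.W_7d29a1_C0.N51
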