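import Pool.Agent.W_7d29a1_C0.Lam86
import Pool.Agent.W_7d29a1_C0.Two57

/-!
C0, helper51: THREE BRANCHES, masses. Three replicas (`P3`), the mass `mc3` of two alternatives given the base path outside of two blocks,
places `Pl3` for events of the base path and two alternatives, and the price of their masses.
-/

set_option autoImplicit false

namespace Pool.Agent.W_7d29a1_C0.N51

open MeasureTheory ProbabilityTheory Filter Topology Finset
open Pool.Agent.W_7d29a1_F Pool.Agent.W_7d29a1_X Pool.Agent.W_7d29a1_h4g Pool.Agent.W_7d29a1_H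
open Pool.Agent.W_7d29a1_HS (In wd md)
open Pool.Agent.W_7d29a1_HZ
open Pool.Agent.W_7d29a1_C0.Mod92 (Px Pn lw ps pJ ne_Pn ps_Pn pos_card)
open Pool.Agent.W_7d29a1_C0.P86
open Pool.W7d29a1.C0 (gm gz gz_pos)
open Pool.W7d29a1.C0.VT31 (Mp cE gm_mul_cE cE_mono cE_nonneg cE_smul cE_sum cE_one)
open scoped ENNReal

noncomputable section

variable {μ : Measure ℝ} {s : ℝ} {N : ℕ} {y : ℤ}

/-! ### Three replicas -/

/-- The annealed probability of an event of three replicas in the same environment. -/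
def P3 (μ : Measure ℝ) (s : ℝ) (N : ℕ) (y : ℤ) (A : Env → Finset ℕ → Finset ℕ → Finset ℕ → Prop) : ℝ≥0∞ :=
  ∑ S ∈ (range N).powerset, ∑ a ∈ (range N).powerset, ∑ b ∈ (range N).powerset,
    ((law μ).withDensity fun η => ENNReal.ofReal (gp μ s η N y S * gp μ s η N y a * gp μ s η N y b)) {η | A η S a b}

theorem P3_eq [IsProbabilityMeasure μ] (A : Env → Finset ℕ → Finset ℕ → Finset ℕ → Prop) :
    P3 μ s N y A = ∑ S ∈ (range N).powerset, ∑ a ∈ (range N).powerset, ∑ b ∈ (range N).powerset,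
      ∫⁻ η in {η | A η S a b}, ENNReal.ofReal (gp μ s η N y S * gp μ s η N y a * gp μ s η N y b) ∂law μ := by
  unfold P3
  refine sum_congr rfl fun S _ => sum_congr rfl fun a _ => sum_congr rfl fun b _ => ?_
  rw [withDensity_apply']

theorem gp_off {η : Env} {S : Finset ℕ} (h : pos S N ≠ y) : gp μ s η N y S = 0 := by
  unfold gp
  rw [if_neg h]

theorem P3_mono' [IsProbabilityMeasure μ] {A B : Env → Finset ℕ → Finset ℕ → Finset ℕ → Prop}
    (h : ∀ η S a b, S ⊆ range N → a ⊆ range N → b ⊆ range N → pos S N = y → pos a N = y → pos b N = y → A η S a b → B η S a b) :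
    P3 μ s N y A ≤ P3 μ s N y B := by
  rw [P3_eq, P3_eq]
  refine sum_le_sum fun S hS => sum_le_sum fun a ha => sum_le_sum fun b hb => ?_
  rw [mem_powerset] at hS ha hb
  by_cases h1 : pos S N = y ∧ pos a N = y ∧ pos b N = y
  · exact lintegral_mono_set fun η hη => h η S a b hS ha hb h1.1 h1.2.1 h1.2.2 hη
  · have h2 : ∀ η : Env, ENNReal.ofReal (gp μ s η N y S * gp μ s η N y a * gp μ s η N y b) = 0 := by
      intro η
      by_cases g1 : pos S N = y
      · by_cases g2 : pos a N = y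
        · have g3 : pos b N ≠ y := fun g3 => h1 ⟨g1, g2, g3⟩
          rw [gp_off g3, mul_zero, ENNReal.ofReal_zero]
        · rw [gp_off g2, mul_zero, zero_mul, ENNReal.ofReal_zero]
      · rw [gp_off g1, zero_mul, zero_mul, ENNReal.ofReal_zero]
    simp only [h2, lintegral_zero]
    exact le_rfl

theorem P3_or (A B : Env → Finset ℕ → Finset ℕ → Finset ℕ → Prop) :
    P3 μ s N y (fun η S a b => A η S a b ∨ B η S a b) ≤ P3 μ s N y A + P3 μ s N y B := by
  unfold P3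
  rw [← sum_add_distrib]
  refine sum_le_sum fun S _ => ?_
  rw [← sum_add_distrib]
  refine sum_le_sum fun a _ => ?_
  rw [← sum_add_distrib]
  refine sum_le_sum fun b _ => ?_
  have e : {η | A η S a b ∨ B η S a b} = {η | A η S a b} ∪ {η | B η S a b} := rfl
  rw [e]
  exact measure_union_le _ _

theorem P3_swap12 [IsProbabilityMeasure μ] (A : Env → Finset ℕ → Finset ℕ → Finset ℕ → Prop) :
    P3 μ s N y A = P3 μ s N y fun η S a b => A η a S b := by
  rw [P3_eq, P3_eq, sum_comm]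
  refine sum_congr rfl fun S _ => sum_congr rfl fun a _ => sum_congr rfl fun b _ => lintegral_congr fun η => ?_
  congr 1
  ring

theorem P3_swap23 [IsProbabilityMeasure μ] (A : Env → Finset ℕ → Finset ℕ → Finset ℕ → Prop) :
    P3 μ s N y A = P3 μ s N y fun η S a b => A η S b a := by
  rw [P3_eq, P3_eq]
  refine sum_congr rfl fun S _ => ?_
  rw [sum_comm]
  refine sum_congr rfl fun a _ => sum_congr rfl fun b _ => lintegral_congr fun η => ?_
  congr 1
  ring

theorem sum_gp_one [IsProbabilityMeasure μ] (hy0 : 0 ≤ y) (hyN : y ≤ N) (η : Env) :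
    ∑ b ∈ (range N).powerset, gp μ s η N y b = 1 := Pool.Agent.W_7d29a1_HZ.gp_sum η hy0 hyN

theorem P3_12 [IsProbabilityMeasure μ] (hy0 : 0 ≤ y) (hyN : y ≤ N) (B : Env → Finset ℕ → Finset ℕ → Prop) :
    P3 μ s N y (fun η S a _ => B η S a) = P2 μ s N y (fun _ => 0) B := by
  rw [P3_eq, Pool.Agent.W_7d29a1_HZ.P2_eq]
  refine sum_congr rfl fun S _ => sum_congr rfl fun a _ => ?_
  rw [← lintegral_finsetSum]
  · refine lintegral_congr fun η => ?_
    have hn : ∀ S, 0 ≤ gp μ s η N y S := fun S => Pool.Agent.W_7d29a1_HZ.gp_nonneg η N y S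
    rw [← ENNReal.ofReal_sum_of_nonneg fun b _ => mul_nonneg (mul_nonneg (hn S) (hn a)) (hn b), ← mul_sum, sum_gp_one hy0 hyN, mul_one]
    have : W_7d29a1_HZ.shr 0 (fun _ => 0) η = η := Pool.Agent.W_7d29a1_HZ.shr_zero 0 η
    rw [this]
  · intro b _
    exact (((Pool.Agent.W_7d29a1_HZ.measurable_gp N y S).mul (Pool.Agent.W_7d29a1_HZ.measurable_gp N y a)).mul
      (Pool.Agent.W_7d29a1_HZ.measurable_gp N y b)).ennreal_ofReal

theorem P3_13 [IsProbabilityMeasure μ] (hy0 : 0 ≤ y) (hyN : y ≤ N) (B : Env → Finset ℕ → Finset ℕ → Prop) :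
    P3 μ s N y (fun η S _ b => B η S b) = P2 μ s N y (fun _ => 0) B := by
  rw [P3_swap23]
  exact P3_12 hy0 hyN B

theorem P3_23 [IsProbabilityMeasure μ] (hy0 : 0 ≤ y) (hyN : y ≤ N) (B : Env → Finset ℕ → Finset ℕ → Prop) :
    P3 μ s N y (fun η _ a b => B η a b) = P2 μ s N y (fun _ => 0) B := by
  rw [P3_swap12]
  exact P3_13 hy0 hyN B

theorem P3_21 [IsProbabilityMeasure μ] (hy0 : 0 ≤ y) (hyN : y ≤ N) (B : Env → Finset ℕ → Finset ℕ → Prop) :
    P3 μ s N y (fun η S a _ => B η a S) = P2 μ s N y (fun _ => 0) B := by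
  rw [P3_swap12]
  exact P3_12 hy0 hyN B

theorem P3_31 [IsProbabilityMeasure μ] (hy0 : 0 ≤ y) (hyN : y ≤ N) (B : Env → Finset ℕ → Finset ℕ → Prop) :
    P3 μ s N y (fun η S _ b => B η b S) = P2 μ s N y (fun _ => 0) B := by
  rw [P3_swap23]
  exact P3_21 hy0 hyN B

theorem P3_1 [IsProbabilityMeasure μ] (hy0 : 0 ≤ y) (hyN : y ≤ N) (B : Env → Finset ℕ → Prop) :
    P3 μ s N y (fun η S _ _ => B η S) = P1 μ s N y B := by
  rw [P3_12 hy0 hyN (fun η S _ => B η S)]
  exact Pool.Agent.W_7d29a1_HZ.P2_fst hy0 hyN (fun _ => 0) B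

theorem P3_2 [IsProbabilityMeasure μ] (hy0 : 0 ≤ y) (hyN : y ≤ N) (B : Env → Finset ℕ → Prop) :
    P3 μ s N y (fun η _ a _ => B η a) = P1 μ s N y B := by
  rw [P3_swap12]
  exact P3_1 hy0 hyN B

theorem P3_3 [IsProbabilityMeasure μ] (hy0 : 0 ≤ y) (hyN : y ≤ N) (B : Env → Finset ℕ → Prop) :
    P3 μ s N y (fun η _ _ b => B η b) = P1 μ s N y B := by
  rw [P3_swap23]
  exact P3_2 hy0 hyN B

/-- The mass of two free alternatives. -/
def Tri (μ : Measure ℝ) (s : ℝ) (N : ℕ) (y : ℤ) (A : Finset ℕ → Finset ℕ → Finset ℕ → Prop) (η : Env) (S : Finset ℕ) : ℝ≥0∞ :=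
  ∑ a ∈ (range N).powerset, ∑ b ∈ (range N).powerset, ENNReal.ofReal (gp μ s η N y a) * ENNReal.ofReal (gp μ s η N y b) * ind (A S a b)

theorem tri_meas [IsProbabilityMeasure μ] (A : Finset ℕ → Finset ℕ → Finset ℕ → Prop) (S : Finset ℕ) :
    Measurable fun η => Tri μ s N y A η S := by
  unfold Tri
  exact Finset.measurable_sum _ fun a _ => Finset.measurable_sum _ fun b _ =>
    (((Pool.Agent.W_7d29a1_HZ.measurable_gp N y a).ennreal_ofReal.mul
      (Pool.Agent.W_7d29a1_HZ.measurable_gp N y b).ennreal_ofReal)).mul_const _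

theorem Q1_tri [IsProbabilityMeasure μ] {A : Finset ℕ → Finset ℕ → Finset ℕ → Prop} {B : Env → Finset ℕ → Prop} (hB : Ms B) :
    Q1 μ s N y (fun η S => Tri μ s N y A η S * ind (B η S)) = P3 μ s N y (fun η S a b => A S a b ∧ B η S) := by
  rw [P3_eq]
  unfold Q1 Tri
  have hm : ∀ S' : Finset ℕ, Measurable fun η : Env => ENNReal.ofReal (gp μ s η N y S') := fun S' =>
    (Pool.Agent.W_7d29a1_HZ.measurable_gp N y S').ennreal_ofReal
  have hms : ∀ S a b : Finset ℕ, MeasurableSet {η : Env | A S a b ∧ B η S} := fun S a b => by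
    by_cases h1 : A S a b
    · have : {η : Env | A S a b ∧ B η S} = {η | B η S} := by
        ext η
        simp [h1]
      rw [this]
      exact hB S
    · have : {η : Env | A S a b ∧ B η S} = ∅ := by
        ext η
        simp [h1]
      rw [this]
      exact MeasurableSet.empty
  rw [lintegral_finsetSum _ fun S _ => ?_]
  · refine sum_congr rfl fun S _ => ?_
    have e1 : ∀ η : Env, ENNReal.ofReal (gp μ s η N y S) * ((∑ a ∈ (range N).powerset, ∑ b ∈ (range N).powerset,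
        ENNReal.ofReal (gp μ s η N y a) * ENNReal.ofReal (gp μ s η N y b) * ind (A S a b)) * ind (B η S)) =
        ∑ a ∈ (range N).powerset, ∑ b ∈ (range N).powerset, {η | A S a b ∧ B η S}.indicator
          (fun η => ENNReal.ofReal (gp μ s η N y S * gp μ s η N y a * gp μ s η N y b)) η := by
      intro η
      rw [sum_mul, mul_sum]
      refine sum_congr rfl fun a _ => ?_
      rw [sum_mul, mul_sum]
      refine sum_congr rfl fun b _ => ?_
      by_cases h1 : A S a b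
      · by_cases h2 : B η S
        · rw [Set.indicator_of_mem (show η ∈ {η | A S a b ∧ B η S} from ⟨h1, h2⟩), ind_of h1, ind_of h2, mul_one, mul_one,
            ENNReal.ofReal_mul (mul_nonneg (Pool.Agent.W_7d29a1_HZ.gp_nonneg η N y S) (Pool.Agent.W_7d29a1_HZ.gp_nonneg η N y a)),
            ENNReal.ofReal_mul (Pool.Agent.W_7d29a1_HZ.gp_nonneg η N y S), mul_assoc]
        · rw [Set.indicator_of_notMem (show η ∉ {η | A S a b ∧ B η S} from fun h => h2 h.2), ind_not h2, mul_zero, mul_zero]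
      · rw [Set.indicator_of_notMem (show η ∉ {η | A S a b ∧ B η S} from fun h => h1 h.1), ind_not h1, mul_zero, zero_mul, mul_zero]
    rw [lintegral_congr e1, lintegral_finsetSum _ fun a _ => ?_]
    · refine sum_congr rfl fun a _ => ?_
      rw [lintegral_finsetSum _ fun b _ => ?_]
      · refine sum_congr rfl fun b _ => ?_
        rw [lintegral_indicator (hms S a b)]
      · exact (((Pool.Agent.W_7d29a1_HZ.measurable_gp N y S).mul (Pool.Agent.W_7d29a1_HZ.measurable_gp N y a)).mul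
          (Pool.Agent.W_7d29a1_HZ.measurable_gp N y b)).ennreal_ofReal.indicator (hms S a b)
    · exact Finset.measurable_sum _ fun b _ =>
        (((Pool.Agent.W_7d29a1_HZ.measurable_gp N y S).mul (Pool.Agent.W_7d29a1_HZ.measurable_gp N y a)).mul
          (Pool.Agent.W_7d29a1_HZ.measurable_gp N y b)).ennreal_ofReal.indicator (hms S a b)
  · refine (hm S).mul (Measurable.mul ?_ (meas_ind (hB S)))
    exact tri_meas A S

/-! ### The mass of two conditional alternatives -/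

/-- The event depends on the alternatives only through their positions in the blocks. -/
def On3 (c₁ d₁ c₂ d₂ : ℕ) (A : Finset ℕ → Finset ℕ → Finset ℕ → Prop) : Prop :=
  ∀ S a a' b b' : Finset ℕ, (∀ i, c₁ ≤ i → i ≤ d₁ → pos a i = pos a' i) → (∀ i, c₂ ≤ i → i ≤ d₂ → pos b i = pos b' i) →
    (A S a b ↔ A S a' b')

/-- **The mass of two alternatives**, independent given the base path outside of the blocks `[c₁, d₁)` and `[c₂, d₂)`. -/
def mc3 (μ : Measure ℝ) (s : ℝ) (N y c₁ d₁ c₂ d₂ : ℕ) (A : Finset ℕ → Finset ℕ → Finset ℕ → Prop) (η : Env) (S : Finset ℕ) : ℝ := by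
  classical
  exact if h : S ∈ Pn N y then cE (lw μ s η N (Pn N y)) (pJ c₁ d₁) (fun a => mc μ s N y c₂ d₂ (fun S b => A S a.1 b) η S) ⟨S, h⟩ else 0

theorem mc3_nonneg {y c₁ d₁ c₂ d₂ : ℕ} {A : Finset ℕ → Finset ℕ → Finset ℕ → Prop} (η : Env) (S : Finset ℕ) :
    0 ≤ mc3 μ s N y c₁ d₁ c₂ d₂ A η S := by
  classical
  unfold mc3
  split_ifs with h
  · have : Nonempty (Px (Pn N y)) := ⟨⟨S, h⟩⟩
    exact cE_nonneg _ _ (fun a => mc_nonneg η S) _
  · exact le_rfl

theorem mc3_le_one {y c₁ d₁ c₂ d₂ : ℕ} {A : Finset ℕ → Finset ℕ → Finset ℕ → Prop} (η : Env) (S : Finset ℕ) :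
    mc3 μ s N y c₁ d₁ c₂ d₂ A η S ≤ 1 := by
  classical
  unfold mc3
  split_ifs with h
  · have : Nonempty (Px (Pn N y)) := ⟨⟨S, h⟩⟩
    exact cE_le_one _ _ (fun a => mc_le_one η S) _
  · exact zero_le_one

open scoped Classical in
/-- The conditional alternatives against the free ones. -/
theorem mc3_Ge {y c₁ d₁ c₂ d₂ : ℕ} (hy : y ≤ N) (h1 : c₁ ≤ d₁ ∧ d₁ ≤ N) (h2 : c₂ ≤ d₂ ∧ d₂ ≤ N)
    {A : Finset ℕ → Finset ℕ → Finset ℕ → Prop} (hA : On3 c₁ d₁ c₂ d₂ A) (η : Env) {S : Finset ℕ} (hS : S ∈ Pn N y) :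
    mc3 μ s N y c₁ d₁ c₂ d₂ A η S * (Ge μ s N y c₁ d₁ η S * Ge μ s N y c₂ d₂ η S) ≤
      ∑ a ∈ (range N).powerset, ∑ b ∈ (range N).powerset, gp μ s η N y a * gp μ s η N y b * (if A S a b then 1 else 0) := by
  have := ne_Pn (N := N) (y := y) hy
  have hn : ∀ S, 0 ≤ gp μ s η N y S := fun S => Pool.Agent.W_7d29a1_HZ.gp_nonneg η N y S
  have hG1 : 0 ≤ Ge μ s N y c₁ d₁ η S := by
    unfold Ge
    exact sum_nonneg fun S' _ => mul_nonneg (hn _) (by split_ifs <;> norm_num)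
  have e0 : mc3 μ s N y c₁ d₁ c₂ d₂ A η S =
      cE (lw μ s η N (Pn N y)) (pJ c₁ d₁) (fun a => mc μ s N y c₂ d₂ (fun S b => A S a.1 b) η S) ⟨S, hS⟩ := by
    unfold mc3
    rw [dif_pos hS]
  -- the second alternative
  have h3 : mc3 μ s N y c₁ d₁ c₂ d₂ A η S * Ge μ s N y c₂ d₂ η S ≤
      ∑ b ∈ (range N).powerset, gp μ s η N y b * mc μ s N y c₁ d₁ (fun S a => A S a b) η S := by
    have e1 : mc3 μ s N y c₁ d₁ c₂ d₂ A η S * Ge μ s N y c₂ d₂ η S = cE (lw μ s η N (Pn N y)) (pJ c₁ d₁)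
        (Ge μ s N y c₂ d₂ η S • fun a => mc μ s N y c₂ d₂ (fun S b => A S a.1 b) η S) ⟨S, hS⟩ := by
      rw [cE_smul, e0, Pi.smul_apply, smul_eq_mul, mul_comm]
    rw [e1]
    have e2 : ∀ a : Px (Pn N y), (Ge μ s N y c₂ d₂ η S • fun a : Px (Pn N y) => mc μ s N y c₂ d₂ (fun S b => A S a.1 b) η S) a ≤
        (∑ b ∈ (range N).powerset, gp μ s η N y b • fun a : Px (Pn N y) => if A S a.1 b then (1 : ℝ) else 0) a := by
      intro a
      have g := mc_Ge (μ := μ) (s := s) hy h2.1 h2.2 (A := fun S b => A S a.1 b)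
        (fun S' b b' hb => hA S' a.1 a.1 b b' (fun _ _ _ => rfl) hb) η hS
      rw [Pi.smul_apply, smul_eq_mul, mul_comm, Finset.sum_apply]
      refine g.trans (le_of_eq (sum_congr rfl fun b _ => ?_))
      rw [Pi.smul_apply, smul_eq_mul]
    refine (cE_mono _ _ e2 _).trans (le_of_eq ?_)
    rw [cE_sum, Finset.sum_apply]
    refine sum_congr rfl fun b _ => ?_
    rw [cE_smul, Pi.smul_apply, smul_eq_mul]
    unfold mc
    rw [dif_pos hS]
  -- the first alternative
  have h4 : mc3 μ s N y c₁ d₁ c₂ d₂ A η S * (Ge μ s N y c₁ d₁ η S * Ge μ s N y c₂ d₂ η S) ≤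
      ∑ b ∈ (range N).powerset, gp μ s η N y b * ∑ a ∈ (range N).powerset, gp μ s η N y a * (if A S a b then 1 else 0) := by
    have e1 : mc3 μ s N y c₁ d₁ c₂ d₂ A η S * (Ge μ s N y c₁ d₁ η S * Ge μ s N y c₂ d₂ η S) =
        (mc3 μ s N y c₁ d₁ c₂ d₂ A η S * Ge μ s N y c₂ d₂ η S) * Ge μ s N y c₁ d₁ η S := by ring
    rw [e1]
    refine (mul_le_mul_of_nonneg_right h3 hG1).trans ?_
    rw [sum_mul]
    refine sum_le_sum fun b _ => ?_
    rw [mul_assoc]
    refine mul_le_mul_of_nonneg_left ?_ (hn b)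
    exact mc_Ge (μ := μ) (s := s) hy h1.1 h1.2 (A := fun S a => A S a b)
      (fun S' a a' ha => hA S' a a' b b ha (fun _ _ _ => rfl)) η hS
  refine h4.trans (le_of_eq ?_)
  simp only [mul_sum]
  rw [sum_comm]
  refine sum_congr rfl fun a _ => sum_congr rfl fun b _ => ?_
  ring

/-- The mass of the conditional alternatives against the mass of the free ones, outside of rare ends. -/
theorem mc3_le [IsProbabilityMeasure μ] {y c₁ d₁ c₂ d₂ : ℕ} (hy : y ≤ N) (h1 : c₁ ≤ d₁ ∧ d₁ ≤ N) (h2 : c₂ ≤ d₂ ∧ d₂ ≤ N)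
    {A : Finset ℕ → Finset ℕ → Finset ℕ → Prop} (hA : On3 c₁ d₁ c₂ d₂ A) (x : ℝ) (η : Env)
    {S : Finset ℕ} (hS : S ⊆ range N) (hSy : pos S N = y) :
    ENNReal.ofReal (mc3 μ s N y c₁ d₁ c₂ d₂ A η S) ≤ ENNReal.ofReal (Real.exp (2 * x)) * Tri μ s N y A η S +
      (ind (Ge μ s N y c₁ d₁ η S ≤ Real.exp (-x)) + ind (Ge μ s N y c₂ d₂ η S ≤ Real.exp (-x))) := by
  classical
  have hSP : S ∈ Pn N y := by
    rw [mem_powersetCard]
    refine ⟨hS, ?_⟩
    rw [pos_card hS] at hSy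
    exact_mod_cast hSy
  have hone : ENNReal.ofReal (mc3 μ s N y c₁ d₁ c₂ d₂ A η S) ≤ 1 := by
    rw [← ENNReal.ofReal_one]
    exact ENNReal.ofReal_le_ofReal (mc3_le_one η S)
  by_cases hG1 : Ge μ s N y c₁ d₁ η S ≤ Real.exp (-x)
  · rw [ind_of hG1]
    exact hone.trans (le_self_add.trans le_add_self)
  by_cases hG2 : Ge μ s N y c₂ d₂ η S ≤ Real.exp (-x)
  · rw [ind_of hG2]
    exact hone.trans (le_add_self.trans le_add_self)
  rw [ind_not hG1, ind_not hG2, add_zero, add_zero]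
  rw [not_le] at hG1 hG2
  have h3 := mc3_Ge (μ := μ) (s := s) hy h1 h2 hA η hSP
  have hn : ∀ S, 0 ≤ gp μ s η N y S := fun S => Pool.Agent.W_7d29a1_HZ.gp_nonneg η N y S
  have e1 : Tri μ s N y A η S = ENNReal.ofReal (∑ a ∈ (range N).powerset, ∑ b ∈ (range N).powerset,
      gp μ s η N y a * gp μ s η N y b * (if A S a b then 1 else 0)) := by
    unfold Tri
    rw [ENNReal.ofReal_sum_of_nonneg fun a _ => sum_nonneg fun b _ => mul_nonneg (mul_nonneg (hn a) (hn b)) (by split_ifs <;> norm_num)]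
    refine sum_congr rfl fun a _ => ?_
    rw [ENNReal.ofReal_sum_of_nonneg fun b _ => mul_nonneg (mul_nonneg (hn a) (hn b)) (by split_ifs <;> norm_num)]
    refine sum_congr rfl fun b _ => ?_
    rw [← ENNReal.ofReal_mul (hn a)]
    by_cases h : A S a b
    · rw [ind_of h, if_pos h, mul_one, mul_one]
    · rw [ind_not h, if_neg h, mul_zero, mul_zero, ENNReal.ofReal_zero]
  rw [e1, ← ENNReal.ofReal_mul (Real.exp_pos _).le]
  refine ENNReal.ofReal_le_ofReal ?_
  have h4 : mc3 μ s N y c₁ d₁ c₂ d₂ A η S * Real.exp (-(2 * x)) ≤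
      mc3 μ s N y c₁ d₁ c₂ d₂ A η S * (Ge μ s N y c₁ d₁ η S * Ge μ s N y c₂ d₂ η S) := by
    refine mul_le_mul_of_nonneg_left ?_ (mc3_nonneg η S)
    have e2 : Real.exp (-(2 * x)) = Real.exp (-x) * Real.exp (-x) := by
      rw [← Real.exp_add]
      congr 1
      ring
    rw [e2]
    exact mul_le_mul hG1.le hG2.le (Real.exp_pos _).le ((Real.exp_pos _).le.trans hG1.le)
  have h5 := mul_le_mul_of_nonneg_left (h4.trans h3) (Real.exp_pos (2 * x)).le
  have h6 : Real.exp (2 * x) * (mc3 μ s N y c₁ d₁ c₂ d₂ A η S * Real.exp (-(2 * x))) = mc3 μ s N y c₁ d₁ c₂ d₂ A η S := by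
    rw [mul_comm (mc3 μ s N y c₁ d₁ c₂ d₂ A η S), ← mul_assoc, ← Real.exp_add, add_neg_cancel, Real.exp_zero, one_mul]
  rw [h6] at h5
  convert h5

/-! ### Places -/

/-- **A PLACE** for the event `A` of the base path and two alternatives: there are near ties `NT` of the base path which see only the rows
`V`, are produced by `A` up to the probability `p`, and have the price `r` given every event which does not see the rows `J`. -/
def Pl3 (μ : Measure ℝ) (s : ℝ) (N : ℕ) (y : ℤ) (r p : ℝ≥0∞) (A : Finset ℕ → Finset ℕ → Finset ℕ → Prop) (J V : Finset ℕ) : Prop :=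
  ∃ NT : Env → Finset ℕ → Prop, Ms NT ∧ (∀ J' : Finset ℕ, Disjoint J' V → OffRows J' NT) ∧
    P3 μ s N y (fun η S a b => A S a b ∧ ¬ NT η S) ≤ p ∧
    ∀ F : Env → Finset ℕ → Prop, Ms F → OffRows J F → P1 μ s N y (fun η S => F η S ∧ NT η S) ≤ r * P1 μ s N y F + p

theorem Pl3.mono [IsProbabilityMeasure μ] {r p : ℝ≥0∞} {A A' : Finset ℕ → Finset ℕ → Finset ℕ → Prop} {J V : Finset ℕ}
    (h : Pl3 μ s N y r p A J V) (hA : ∀ S a b, A' S a b → A S a b) : Pl3 μ s N y r p A' J V := by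
  obtain ⟨NT, h1, h2, h3, h4⟩ := h
  exact ⟨NT, h1, h2, (P3_mono' fun η S a b _ _ _ _ _ _ hev => ⟨hA _ _ _ hev.1, hev.2⟩).trans h3, h4⟩

/-- **The price of the mass of two alternatives**, with a weight. -/
theorem pl3_wt [IsProbabilityMeasure μ] {y c₁ d₁ c₂ d₂ : ℕ} (hy : y ≤ N) (h1 : c₁ ≤ d₁ ∧ d₁ ≤ N) (h2 : c₂ ≤ d₂ ∧ d₂ ≤ N)
    {A : Finset ℕ → Finset ℕ → Finset ℕ → Prop} (hA : On3 c₁ d₁ c₂ d₂ A) {NT : Env → Finset ℕ → Prop} (hms : Ms NT)
    {f : Env → Finset ℕ → ℝ≥0∞} (hf : ∀ S, Measurable fun η => f η S) (hf1 : ∀ η S, f η S ≤ 1) {h : Env → Finset ℕ → ℝ≥0∞}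
    (hh1 : ∀ η S, h η S ≤ 1) {G : ℝ≥0∞} (hhm : ∀ η S, h η S ≤ G * ENNReal.ofReal (mc3 μ s N y c₁ d₁ c₂ d₂ A η S)) (x : ℝ) :
    Q1 μ s N y (fun η S => f η S * h η S) ≤ Q1 μ s N y (fun η S => f η S * ind (NT η S)) +
      G * (ENNReal.ofReal (Real.exp (2 * x)) * P3 μ s N y (fun η S a b => A S a b ∧ ¬ NT η S) +
        2 * ENNReal.ofReal (((N : ℝ) + 1) ^ 2 * Real.exp (-x))) := by
  classical
  have hms3 : ∀ c d (S : Finset ℕ), Measurable fun η : Env => ind (Ge μ s N y c d η S ≤ Real.exp (-x)) := fun c d S => by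
    refine meas_ind (measurableSet_le ?_ measurable_const)
    unfold Ge
    exact Finset.measurable_sum _ fun S' _ => (Pool.Agent.W_7d29a1_HZ.measurable_gp N y S').mul_const _
  have hmt : ∀ S, Measurable fun η : Env => Tri μ s N y A η S * ind (¬ NT η S) := fun S =>
    (tri_meas A S).mul (meas_ind ((hms S).compl))
  have k1 : Q1 μ s N y (fun η S => f η S * h η S) ≤ Q1 μ s N y (fun η S => f η S * ind (NT η S) +
      G * (ENNReal.ofReal (Real.exp (2 * x)) * (Tri μ s N y A η S * ind (¬ NT η S)) +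
        (ind (Ge μ s N y c₁ d₁ η S ≤ Real.exp (-x)) + ind (Ge μ s N y c₂ d₂ η S ≤ Real.exp (-x))))) := by
    refine Q1_mono fun η S hS hSy => ?_
    by_cases hNT : NT η S
    · refine le_trans ?_ le_self_add
      rw [ind_of hNT]
      exact mul_le_mul' le_rfl (hh1 η S)
    · refine le_trans ?_ le_add_self
      refine (mul_le_of_le_one_left zero_le (hf1 η S)).trans ((hhm η S).trans (mul_le_mul' le_rfl ?_))
      rw [ind_of hNT, mul_one]
      exact mc3_le hy h1 h2 hA x η hS hSy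
  refine k1.trans ?_
  have hms1 : ∀ S, Measurable fun η : Env => f η S * ind (NT η S) := fun S => (hf S).mul (meas_ind (hms S))
  rw [Q1_add hms1]
  refine add_le_add le_rfl ?_
  have hmI : ∀ S, Measurable fun η : Env => ENNReal.ofReal (Real.exp (2 * x)) * (Tri μ s N y A η S * ind (¬ NT η S)) +
      (ind (Ge μ s N y c₁ d₁ η S ≤ Real.exp (-x)) + ind (Ge μ s N y c₂ d₂ η S ≤ Real.exp (-x))) := fun S =>
    ((hmt S).const_mul _).add ((hms3 c₁ d₁ S).add (hms3 c₂ d₂ S))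
  have k2 : Q1 μ s N y (fun η S => G * (ENNReal.ofReal (Real.exp (2 * x)) * (Tri μ s N y A η S * ind (¬ NT η S)) +
        (ind (Ge μ s N y c₁ d₁ η S ≤ Real.exp (-x)) + ind (Ge μ s N y c₂ d₂ η S ≤ Real.exp (-x))))) =
      G * Q1 μ s N y (fun η S => ENNReal.ofReal (Real.exp (2 * x)) * (Tri μ s N y A η S * ind (¬ NT η S)) +
        (ind (Ge μ s N y c₁ d₁ η S ≤ Real.exp (-x)) + ind (Ge μ s N y c₂ d₂ η S ≤ Real.exp (-x)))) := by
    unfold Q1
    rw [← lintegral_const_mul]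
    · refine lintegral_congr fun η => ?_
      rw [mul_sum]
      exact sum_congr rfl fun S _ => by ring
    · exact Finset.measurable_sum _ fun S _ => (Pool.Agent.W_7d29a1_HZ.measurable_gp N y S).ennreal_ofReal.mul (hmI S)
  rw [k2]
  refine mul_le_mul' le_rfl ?_
  have hms2 : ∀ S, Measurable fun η : Env => ENNReal.ofReal (Real.exp (2 * x)) * (Tri μ s N y A η S * ind (¬ NT η S)) := fun S =>
    (hmt S).const_mul _
  rw [Q1_add hms2, Q1_add fun S => hms3 c₁ d₁ S]
  refine add_le_add ?_ ?_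
  · have e1 : Q1 μ s N y (fun η S => ENNReal.ofReal (Real.exp (2 * x)) * (Tri μ s N y A η S * ind (¬ NT η S))) =
        ENNReal.ofReal (Real.exp (2 * x)) * Q1 μ s N y (fun η S => Tri μ s N y A η S * ind (¬ NT η S)) := by
      unfold Q1
      rw [← lintegral_const_mul]
      · refine lintegral_congr fun η => ?_
        rw [mul_sum]
        exact sum_congr rfl fun S _ => by ring
      · exact Finset.measurable_sum _ fun S _ => (Pool.Agent.W_7d29a1_HZ.measurable_gp N y S).ennreal_ofReal.mul (hmt S)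
    rw [e1, Q1_tri (B := fun η S => ¬ NT η S) fun S => (hms S).compl]
  · have g : ∀ c d, c ≤ d → d ≤ N → Q1 μ s N y (fun η S => ind (Ge μ s N y c d η S ≤ Real.exp (-x))) ≤
        ENNReal.ofReal (((N : ℝ) + 1) ^ 2 * Real.exp (-x)) := by
      intro c d hcd hd
      unfold Q1
      refine (lintegral_mono fun η => sum_Ge (hcd.trans hd) hd η (Real.exp_pos _).le).trans ?_
      rw [lintegral_const, measure_univ, mul_one]
    rw [two_mul]
    exact add_le_add (g _ _ h1.1 h1.2) (g _ _ h2.1 h2.2)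

end

end Pool.Agent.W_7d29a1_C0.N51
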