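import Pool.Agent.W_7d29a1_C0.NT51C
import Pool.Agent.W_7d29a1_C0.NT51D

/-!
C0, helper51: THREE BRANCHES, the numbers: the near ties with one (`T2`) and with two (`T3`) alternatives at the scale `t`, with brackets in
`[c, d]`: measurability, rows, production, prices `L ^ ε / EE' t` and `(L ^ ε / EE' t) ^ 2` (`core51`).
-/

set_option autoImplicit false

namespace Pool.Agent.W_7d29a1_C0.N51

open MeasureTheory ProbabilityTheory Filter Topology Finset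
open Pool.Agent.W_7d29a1_F Pool.Agent.W_7d29a1_X Pool.Agent.W_7d29a1_h4g Pool.Agent.W_7d29a1_H
open Pool.Agent.W_7d29a1_HS (In wd md)
open Pool.Agent.W_7d29a1_HZ Pool.Agent.W_7d29a1_HZ.R72 Pool.Agent.W_7d29a1_Z.Asm72
open Pool.Agent.W_7d29a1_HZ.Z86
open Pool.Agent.W_7d29a1_HZ.Z86.GX (WT numWX)
open Pool.Agent.W_7d29a1_HZ.ZE
open Pool.Agent.W_7d29a1_C0.P86 (NoMeet)
open scoped ENNReal

noncomputable section

variable {μ : Measure ℝ} {s : ℝ}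

/-! ### Numbers of the separation -/

theorem SpN.mono {L t e0 : ℕ} {ε ε' : ℝ} {m n : ℕ} (hL : 1 ≤ L) (hε : ε ≤ ε') (h : SpN μ s L t e0 ε' m n) : SpN μ s L t e0 ε m n := by
  have hLR : (1 : ℝ) ≤ L := by exact_mod_cast hL
  have g1 : (L : ℝ) ^ ε ≤ (L : ℝ) ^ ε' := Real.rpow_le_rpow_of_exponent_le hLR hε
  have g2 : (L : ℝ) ^ (-ε') ≤ (L : ℝ) ^ (-ε) := Real.rpow_le_rpow_of_exponent_le hLR (neg_le_neg hε)
  have hw : ∀ k, 0 ≤ wd' μ s k := fun k => zero_le_one.trans (le_max_left _ _)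
  refine ⟨g1.trans h.m1, g1.trans h.n1, h.n0, h.mn, h.big.trans (mul_le_mul_of_nonneg_right g2 (hw _)), fun j h1 h2 => ?_⟩
  have g3 := h.flat j h1 h2
  have g4 := mul_le_mul_of_nonneg_right g1 (hw j)
  have g5 := mul_le_mul_of_nonneg_right g2 (hw m)
  linarith

theorem spn_ex {a K : ℝ} (ha0 : 0 < a) (ha1 : a < 1) (hK : 1 ≤ K)
    (hw : ∀ m n : ℕ, 1 ≤ m → m ≤ n → wd' μ s m ≤ K * wd' μ s n ∧ K⁻¹ * ((n : ℝ) / m) ^ a * wd' μ s m ≤ wd' μ s n ∧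
      wd' μ s n ≤ K * ((n : ℝ) / m) ^ (1 - a) * wd' μ s m) {ε₁ θ : ℝ} (hε : 0 < ε₁) (hθ : 0 < θ) :
    ∃ ε' : ℝ, 0 < ε' ∧ ε' ≤ ε₁ / 2 ∧ ∃ L₀ : ℕ, ∀ L : ℕ, L₀ ≤ L → ∀ t e0 : ℕ, (L : ℝ) ^ θ ≤ t →
      (2 : ℝ) ^ (e0 + 1) ≤ (L : ℝ) ^ (-ε₁) * wd' μ s (t / 4) → ∃ m n, SpN μ s L t e0 ε' m n := by
  obtain ⟨κ, hκ⟩ : ∃ κ : ℝ, κ = min (ε₁ / 4) (θ / 4) := ⟨_, rfl⟩
  have hκ0 : 0 < κ := by rw [hκ]; exact lt_min (by positivity) (by positivity)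
  have hκ1 : κ ≤ ε₁ / 4 := by rw [hκ]; exact min_le_left _ _
  have hκ2 : κ ≤ θ / 4 := by rw [hκ]; exact min_le_right _ _
  obtain ⟨ε', hε'⟩ : ∃ ε' : ℝ, ε' = a * κ / 4 := ⟨_, rfl⟩
  have haκ : a * κ ≤ κ := mul_le_of_le_one_left hκ0.le ha1.le
  have haκ0 : 0 < a * κ := mul_pos ha0 hκ0
  have hε'0 : 0 < ε' := by rw [hε']; positivity
  have hε'κ : ε' ≤ κ / 4 := by rw [hε']; linarith
  obtain ⟨L1, h1⟩ := ev_const 16 hκ0
  obtain ⟨L2, h2⟩ := ev_const 256 (show 0 < θ / 2 by positivity)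
  obtain ⟨L3, h3⟩ := ev_const (256 * K ^ 2) (show 0 < ε₁ / 2 by positivity)
  obtain ⟨L4, h4⟩ := ev_const (64 * K ^ 3) (show 0 < a * κ / 2 by positivity)
  refine ⟨ε', hε'0, by linarith, L1 + L2 + L3 + L4 + 1, fun L hL t e0 ht he => ?_⟩
  have hL1 := h1 L (by omega)
  have hL2 := h2 L (by omega)
  have hL3 := h3 L (by omega)
  have hL4 := h4 L (by omega)
  have hLR : (1 : ℝ) ≤ L := by exact_mod_cast (show 1 ≤ L by omega)
  have hL0 : (0 : ℝ) < L := by linarith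
  have hwp : ∀ k, 0 < wd' μ s k := fun k => lt_of_lt_of_le zero_lt_one (le_max_left _ _)
  obtain ⟨A, hA⟩ : ∃ A : ℝ, A = (L : ℝ) ^ κ := ⟨_, rfl⟩
  rw [← hA] at hL1
  have hA0 : 0 < A := by linarith
  have hθh : (L : ℝ) ^ (θ / 2) * (L : ℝ) ^ (θ / 2) = (L : ℝ) ^ θ := by
    rw [← Real.rpow_add hL0, add_halves]
  have hθ0 : 0 < (L : ℝ) ^ (θ / 2) := Real.rpow_pos_of_pos hL0 _
  have hAθ : A ≤ (L : ℝ) ^ (θ / 2) := by rw [hA]; exact Real.rpow_le_rpow_of_exponent_le hLR (by linarith)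
  have ht256 : (256 : ℝ) * A ≤ t := by
    calc (256 : ℝ) * A ≤ (L : ℝ) ^ (θ / 2) * (L : ℝ) ^ (θ / 2) := mul_le_mul hL2 hAθ hA0.le hθ0.le
      _ = (L : ℝ) ^ θ := hθh
      _ ≤ t := ht
  have ht0 : (0 : ℝ) < t := by nlinarith
  have ht4096 : 4096 ≤ t := by
    have : (4096 : ℝ) ≤ t := by linarith
    exact_mod_cast this
  -- the two lengths
  obtain ⟨n, hn⟩ : ∃ n : ℕ, n = ⌊(t : ℝ) / A⌋₊ := ⟨_, rfl⟩
  obtain ⟨m, hm⟩ : ∃ m : ℕ, m = t / 8 := ⟨_, rfl⟩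
  have hm16 : t ≤ 16 * m := by omega
  have hm1 : 1 ≤ m := by omega
  have hmt : m ≤ t := by omega
  have htA : (256 : ℝ) ≤ t / A := by
    rw [le_div_iff₀ hA0]
    exact ht256
  have hn1 : (n : ℝ) ≤ t / A := by rw [hn]; exact Nat.floor_le (by positivity)
  have hn2 : (t : ℝ) / A ≤ 2 * n := by
    have : (t : ℝ) / A < n + 1 := by rw [hn]; exact Nat.lt_floor_add_one _
    linarith
  have hn0 : 1 ≤ n := by
    have : (1 : ℝ) ≤ n := by linarith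
    exact_mod_cast this
  have hnR : (0 : ℝ) < n := by exact_mod_cast hn0
  have hn16 : n ≤ t / 16 := by
    rw [Nat.le_div_iff_mul_le (by norm_num)]
    have : (n : ℝ) * 16 ≤ t := by
      have g : (t : ℝ) / A * 16 ≤ t := by
        rw [div_mul_eq_mul_div, div_le_iff₀ hA0]
        nlinarith
      linarith
    exact_mod_cast this
  have hnt : n ≤ t := by omega
  have htn : (t : ℝ) / n ≤ 2 * A := by
    rw [div_le_iff₀ hnR]
    rw [div_le_iff₀ hA0] at hn2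
    linarith
  have htn' : A ≤ (t : ℝ) / n := by
    rw [le_div_iff₀ hnR]
    rw [le_div_iff₀ hA0] at hn1
    linarith
  -- widths
  obtain ⟨u1, u2, u3⟩ := hw n t hn0 hnt
  obtain ⟨-, -, v3⟩ := hw m t hm1 hmt
  obtain ⟨x1, -, -⟩ := hw (t / 4) t (by omega) (by omega)
  have hKp : 0 < K := by linarith
  have wt1 : wd' μ s t ≤ K * (2 * A) * wd' μ s n := by
    refine u3.trans (mul_le_mul_of_nonneg_right (mul_le_mul_of_nonneg_left ?_ hKp.le) (hwp n).le)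
    have g1 : (1 : ℝ) ≤ (t : ℝ) / n := by linarith
    calc ((t : ℝ) / n) ^ (1 - a) ≤ ((t : ℝ) / n) ^ (1 : ℝ) := Real.rpow_le_rpow_of_exponent_le g1 (by linarith)
      _ = (t : ℝ) / n := Real.rpow_one _
      _ ≤ 2 * A := htn
  have hAa : A ^ a = (L : ℝ) ^ (a * κ) := by rw [hA, ← Real.rpow_mul hL0.le, mul_comm]
  have wn1 : (L : ℝ) ^ (a * κ) * wd' μ s n ≤ K * wd' μ s t := by
    have g1 : A ^ a ≤ ((t : ℝ) / n) ^ a := Real.rpow_le_rpow hA0.le htn' ha0.le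
    rw [hAa] at g1
    have g2 : K⁻¹ * ((L : ℝ) ^ (a * κ)) * wd' μ s n ≤ wd' μ s t := by
      refine le_trans ?_ u2
      have : 0 ≤ K⁻¹ := inv_nonneg.2 hKp.le
      exact mul_le_mul_of_nonneg_right (mul_le_mul_of_nonneg_left g1 this) (hwp n).le
    have g3 := mul_le_mul_of_nonneg_left g2 hKp.le
    refine le_trans (le_of_eq ?_) g3
    rw [mul_assoc K⁻¹, ← mul_assoc K, mul_inv_cancel₀ hKp.ne', one_mul]
  have wt2 : wd' μ s t ≤ K * 16 * wd' μ s m := by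
    refine v3.trans (mul_le_mul_of_nonneg_right (mul_le_mul_of_nonneg_left ?_ hKp.le) (hwp m).le)
    have hmR : (0 : ℝ) < m := by exact_mod_cast hm1
    have g1 : (1 : ℝ) ≤ (t : ℝ) / m := by
      rw [one_le_div hmR]
      exact_mod_cast hmt
    calc ((t : ℝ) / m) ^ (1 - a) ≤ ((t : ℝ) / m) ^ (1 : ℝ) := Real.rpow_le_rpow_of_exponent_le g1 (by linarith)
      _ = (t : ℝ) / m := Real.rpow_one _
      _ ≤ 16 := by
        rw [div_le_iff₀ hmR]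
        exact_mod_cast hm16
  have hp4 : (2 : ℝ) ^ (e0 + 4) ≤ 8 * K * ((L : ℝ) ^ (-ε₁) * wd' μ s t) := by
    have e1 : (2 : ℝ) ^ (e0 + 4) = 8 * 2 ^ (e0 + 1) := by ring
    have g1 := mul_le_mul_of_nonneg_left x1 (Real.rpow_nonneg hL0.le (-ε₁))
    rw [e1]
    calc 8 * (2 : ℝ) ^ (e0 + 1) ≤ 8 * ((L : ℝ) ^ (-ε₁) * wd' μ s (t / 4)) := by linarith
      _ ≤ 8 * ((L : ℝ) ^ (-ε₁) * (K * wd' μ s t)) := by linarith
      _ = 8 * K * ((L : ℝ) ^ (-ε₁) * wd' μ s t) := by ring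
  have hB0 : 0 < (L : ℝ) ^ (-ε') := Real.rpow_pos_of_pos hL0 _
  -- 256 K ^ 2 L ^ (- ε₁) ≤ L ^ (- ε') A⁻¹
  have key1 : 256 * K ^ 2 * (L : ℝ) ^ (-ε₁) * A ≤ (L : ℝ) ^ (-ε') := by
    have g1 : (L : ℝ) ^ (ε₁ / 2) * (L : ℝ) ^ (-ε₁) * A ≤ (L : ℝ) ^ (-ε') := by
      rw [hA, ← Real.rpow_add hL0, ← Real.rpow_add hL0]
      exact Real.rpow_le_rpow_of_exponent_le hLR (by linarith)
    refine le_trans ?_ g1
    have : 0 ≤ (L : ℝ) ^ (-ε₁) := Real.rpow_nonneg hL0.le _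
    gcongr
  have key2 : 64 * K ^ 3 * (L : ℝ) ^ ε' ≤ (L : ℝ) ^ (-ε') * (L : ℝ) ^ (a * κ) := by
    have g1 : (L : ℝ) ^ (a * κ / 2) * (L : ℝ) ^ ε' ≤ (L : ℝ) ^ (-ε') * (L : ℝ) ^ (a * κ) := by
      rw [← Real.rpow_add hL0, ← Real.rpow_add hL0]
      exact Real.rpow_le_rpow_of_exponent_le hLR (by rw [hε']; linarith)
    refine le_trans ?_ g1
    have : 0 ≤ (L : ℝ) ^ ε' := Real.rpow_nonneg hL0.le _
    gcongr
  have hEt : (L : ℝ) ^ ε' ≤ A := by rw [hA]; exact Real.rpow_le_rpow_of_exponent_le hLR (by linarith)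
  refine ⟨m, n, ⟨?_, ?_, hn0, by omega, ?_, fun j hj1 hj2 => ?_⟩⟩
  · have g1 : (t : ℝ) ≤ 16 * m := by exact_mod_cast hm16
    linarith
  · have g1 : (256 : ℝ) * A ≤ t := ht256
    have g2 : A ≤ t / A := by
      rw [le_div_iff₀ hA0]
      have e1 : A * A ≤ (L : ℝ) ^ (θ / 2) * (L : ℝ) ^ (θ / 2) := mul_le_mul hAθ hAθ hA0.le hθ0.le
      rw [hθh] at e1
      linarith
    have g3 : (L : ℝ) ^ ε' * 2 ≤ A := by
      have e1 : (L : ℝ) ^ ε' ≤ (L : ℝ) ^ (κ / 2) := Real.rpow_le_rpow_of_exponent_le hLR (by linarith)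
      have e2 : (L : ℝ) ^ (κ / 2) * (L : ℝ) ^ (κ / 2) = A := by rw [← Real.rpow_add hL0, add_halves, hA]
      have e3 : (2 : ℝ) ≤ (L : ℝ) ^ (κ / 2) := by
        by_contra hcon
        push Not at hcon
        have e4 : 0 < (L : ℝ) ^ (κ / 2) := Real.rpow_pos_of_pos hL0 _
        nlinarith
      have e5 : 0 < (L : ℝ) ^ (κ / 2) := Real.rpow_pos_of_pos hL0 _
      nlinarith
    linarith
  · calc (2 : ℝ) ^ (e0 + 4) ≤ 8 * K * ((L : ℝ) ^ (-ε₁) * wd' μ s t) := hp4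
      _ ≤ 8 * K * ((L : ℝ) ^ (-ε₁) * (K * (2 * A) * wd' μ s n)) := by
          have : 0 ≤ (L : ℝ) ^ (-ε₁) := Real.rpow_nonneg hL0.le _
          gcongr
      _ = (16 * K ^ 2 * (L : ℝ) ^ (-ε₁) * A) * wd' μ s n := by ring
      _ ≤ (256 * K ^ 2 * (L : ℝ) ^ (-ε₁) * A) * wd' μ s n := by
          have : 0 ≤ (L : ℝ) ^ (-ε₁) := Real.rpow_nonneg hL0.le _
          have := (hwp n).le
          gcongr
          norm_num
      _ ≤ (L : ℝ) ^ (-ε') * wd' μ s n := mul_le_mul_of_nonneg_right key1 (hwp n).le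
  · obtain ⟨y1, -, -⟩ := hw j n hj1 hj2
    have a0 : 0 ≤ (L : ℝ) ^ ε' := Real.rpow_nonneg hL0.le _
    have b1 : 2 * ((L : ℝ) ^ ε' * wd' μ s j) ≤ (L : ℝ) ^ (-ε') * wd' μ s m / 2 := by
      have c1 : (L : ℝ) ^ (a * κ) * (2 * ((L : ℝ) ^ ε' * wd' μ s j)) ≤ (L : ℝ) ^ (a * κ) * ((L : ℝ) ^ (-ε') * wd' μ s m / 2) := by
        calc (L : ℝ) ^ (a * κ) * (2 * ((L : ℝ) ^ ε' * wd' μ s j)) ≤ (L : ℝ) ^ (a * κ) * (2 * ((L : ℝ) ^ ε' * (K * wd' μ s n))) := by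
              have : 0 ≤ (L : ℝ) ^ (a * κ) := Real.rpow_nonneg hL0.le _
              gcongr
          _ = 2 * K * (L : ℝ) ^ ε' * ((L : ℝ) ^ (a * κ) * wd' μ s n) := by ring
          _ ≤ 2 * K * (L : ℝ) ^ ε' * (K * wd' μ s t) := mul_le_mul_of_nonneg_left wn1 (by positivity)
          _ ≤ 2 * K * (L : ℝ) ^ ε' * (K * (K * 16 * wd' μ s m)) := by gcongr
          _ = (64 * K ^ 3 * (L : ℝ) ^ ε') * wd' μ s m / 2 := by ring
          _ ≤ ((L : ℝ) ^ (-ε') * (L : ℝ) ^ (a * κ)) * wd' μ s m / 2 := by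
              have := (hwp m).le
              gcongr
          _ = (L : ℝ) ^ (a * κ) * ((L : ℝ) ^ (-ε') * wd' μ s m / 2) := by ring
      exact le_of_mul_le_mul_left c1 (Real.rpow_pos_of_pos hL0 _)
    have b2 : (2 : ℝ) ^ (e0 + 4) ≤ (L : ℝ) ^ (-ε') * wd' μ s m / 2 := by
      have c0 : 0 ≤ (L : ℝ) ^ (-ε₁) := Real.rpow_nonneg hL0.le _
      have c2 : 256 * K ^ 2 * (L : ℝ) ^ (-ε₁) ≤ (L : ℝ) ^ (-ε') := by
        refine le_trans ?_ key1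
        have : 0 ≤ 256 * K ^ 2 * (L : ℝ) ^ (-ε₁) := by positivity
        nlinarith
      calc (2 : ℝ) ^ (e0 + 4) ≤ 8 * K * ((L : ℝ) ^ (-ε₁) * wd' μ s t) := hp4
        _ ≤ 8 * K * ((L : ℝ) ^ (-ε₁) * (K * 16 * wd' μ s m)) := by gcongr
        _ = (256 * K ^ 2 * (L : ℝ) ^ (-ε₁)) * wd' μ s m / 2 := by ring
        _ ≤ (L : ℝ) ^ (-ε') * wd' μ s m / 2 := by
            have := (hwp m).le
            gcongr
    linarith

end

end Pool.Agent.W_7d29a1_C0.N51
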