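import Pool.Agent.W_7d29a1_C0.NT51E

/-!
C0, helper51: THREE BRANCHES, the structure `K51` (near ties `T2` with one and `T3` with two alternatives in `[τ, τ + t)` with brackets
in `[c, d]`: measurability, rows, production, prices) and the regular event `Gd5` with its probability.
-/

set_option autoImplicit false

namespace Pool.Agent.W_7d29a1_C0.N51

open MeasureTheory ProbabilityTheory Filter Topology Finset
open Pool.Agent.W_7d29a1_F Pool.Agent.W_7d29a1_X Pool.Agent.W_7d29a1_h4g Pool.Agent.W_7d29a1_H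
open Pool.Agent.W_7d29a1_HS (In wd md)
open Pool.Agent.W_7d29a1_HZ Pool.Agent.W_7d29a1_HZ.R72 Pool.Agent.W_7d29a1_Z.Asm72
open Pool.Agent.W_7d29a1_HZ.Z86
open Pool.Agent.W_7d29a1_HZ.Z86.GX (WT numWX)
open Pool.Agent.W_7d29a1_HZ.ZE
open Pool.Agent.W_7d29a1_C0.P86 (NoMeet)
open scoped ENNReal

noncomputable section

variable {μ : Measure ℝ} {s : ℝ}

/-- **The construction at one scale.** -/
structure K51 (μ : Measure ℝ) (s : ℝ) (N t H : ℕ) (y : ℤ) (r p : ℝ) (g : ℤ)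
    (T2 T3 : ℕ → ℕ → ℕ → Env → Finset ℕ → Prop) (Gd : ℕ → Env → Finset ℕ → Finset ℕ → Finset ℕ → Prop) : Prop where
  ms2 : ∀ τ c d, Ms (T2 τ c d)
  ms3 : ∀ τ c d, Ms (T3 τ c d)
  off2 : ∀ (τ c d : ℕ) (J' : Finset ℕ), (∀ j ∈ J', j ≤ c ∨ d < j) → OffRows J' (T2 τ c d)
  off3 : ∀ (τ c d : ℕ) (J' : Finset ℕ), (∀ j ∈ J', j ≤ c ∨ d < j) → OffRows J' (T3 τ c d)
  good : ∀ τ, P3 μ s N y (fun η S a b => ¬ Gd τ η S a b) ≤ ENNReal.ofReal p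
  swp : ∀ τ η S a b, Gd τ η S a b → Gd τ η S b a
  sepS : ∀ (τ : ℕ) η S a b, τ + t ≤ N → Gd τ η S a b → NoMeet τ (τ + t / 4) S a →
    ∃ i₀, τ ≤ i₀ ∧ i₀ ≤ τ + t / 4 ∧ 2 * g ≤ |pos S i₀ - pos a i₀|
  sepA : ∀ (τ : ℕ) η S a b, τ + t ≤ N → Gd τ η S a b → NoMeet τ (τ + t / 4) a b →
    ∃ i₀, τ ≤ i₀ ∧ i₀ ≤ τ + t / 4 ∧ 2 * g ≤ |pos a i₀ - pos b i₀|
  one : ∀ (τ c d : ℕ) η S a b (i₀ i i' : ℕ), 1 ≤ τ → τ + t ≤ N → d ≤ N → Gd τ η S a b → τ ≤ i₀ → i₀ ≤ τ + t / 4 →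
    g ≤ |pos S i₀ - pos a i₀| → c ≤ i → i ≤ i₀ → i₀ ≤ i' → i' ≤ d → (i₀ ≤ i + H ∨ i' ≤ i₀ + H) →
    pos S i = pos a i → pos S i' = pos a i' → T2 τ c d η S
  two : ∀ (τ c d : ℕ) η S a b (i i' j j' : ℕ), 1 ≤ τ → τ + t ≤ N → d ≤ N → Gd τ η S a b → NoMeet τ (τ + t / 4) S a →
    NoMeet τ (τ + t / 4) S b → NoMeet τ (τ + t / 4) a b → c ≤ i → i ≤ τ → τ + t / 4 ≤ i' → i' ≤ d →
    (τ + t / 4 ≤ i + H ∨ i' ≤ τ + H) → pos S i = pos a i → pos S i' = pos a i' → c ≤ j → j ≤ τ → τ + t / 4 ≤ j' → j' ≤ d →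
    (τ + t / 4 ≤ j + H ∨ j' ≤ τ + H) → pos S j = pos b j → pos S j' = pos b j' → T3 τ c d η S
  pr2 : ∀ (τ c d : ℕ) (F : Env → Finset ℕ → Prop), Ms F → OffRows (Ico τ (τ + t)) F →
    P1 μ s N y (fun η S => F η S ∧ T2 τ c d η S) ≤ ENNReal.ofReal r * P1 μ s N y F + ENNReal.ofReal p
  pr3 : ∀ (τ c d : ℕ) (F : Env → Finset ℕ → Prop), Ms F → OffRows (Ico τ (τ + t)) F →
    P1 μ s N y (fun η S => F η S ∧ T3 τ c d η S) ≤ ENNReal.ofReal (r ^ 2) * P1 μ s N y F + ENNReal.ofReal p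

theorem NSp.mono51 {L N : ℕ} (hL : 1 ≤ L) {ε ε' : ℝ} (hε : ε ≤ ε') {S : Finset ℕ} (h : NSp μ s L N ε S) : NSp μ s L N ε' S :=
  fun i n hn hin => (h i n hn hin).trans (mul_le_mul_of_nonneg_right
    (Real.rpow_le_rpow_of_exponent_le (by exact_mod_cast hL) hε) (zero_le_one.trans (le_max_left _ _)))

theorem close_symm {L N : ℕ} {ε : ℝ} {S S' : Finset ℕ} (h : Close μ s L N ε (fun _ => 0) S S') : Close μ s L N ε (fun _ => 0) S' S := by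
  have e : ∀ (U : Finset ℕ) (k : ℕ), px (fun _ => 0) U k = pos U k := fun U k => by simp [px, sv]
  obtain ⟨i, n, h1, h2, h3, h4⟩ := h
  refine ⟨i, n, h1, h2, fun k hk1 hk2 => ?_, fun k hk1 hk2 => ?_⟩
  · have := h3 k hk1 hk2
    rw [e] at this ⊢
    exact this.symm
  · have := h4 k hk1 hk2
    rw [e] at this ⊢
    rw [← abs_neg]
    push_cast at this ⊢
    rwa [neg_sub]

/-- Everything is regular at the region `τ`. -/
structure Gd5 (μ : Measure ℝ) (s : ℝ) (N : ℕ) (y : ℤ) (L t : ℕ) (ε : ℝ) (n1 : ℕ → ℕ) (e0 E : ℕ) (pr : Par) (lm : ℝ) (τ : ℕ) (η : Env)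
    (S a b : Finset ℕ) : Prop where
  nS : NSp μ s L N ε S
  na : NSp μ s L N ε a
  nb : NSp μ s L N ε b
  fS : FlatP μ s N e0 E n1 S
  fa : FlatP μ s N e0 E n1 a
  fb : FlatP μ s N e0 E n1 b
  ta : TVp μ s N pr a
  tb : TVp μ s N pr b
  cSa : ¬ Close μ s L N ε (fun _ => 0) S a
  cSb : ¬ Close μ s L N ε (fun _ => 0) S b
  cab : ¬ Close μ s L N ε (fun _ => 0) a b
  b2a : ¬ Bad2 μ s N y pr L (Ws5 N t τ n1 e0 E pr.a) lm η a S
  b2b : ¬ Bad2 μ s N y pr L (Ws5 N t τ n1 e0 E pr.a) lm η b S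
  b3a : ¬ Bad3 μ s N y pr L (Ws5 N t τ n1 e0 E pr.a) lm η a S
  b3b : ¬ Bad3 μ s N y pr L (Ws5 N t τ n1 e0 E pr.a) lm η b S

theorem Gd5.swp {N : ℕ} {y : ℤ} {L t : ℕ} {ε : ℝ} {n1 : ℕ → ℕ} {e0 E : ℕ} {pr : Par} {lm : ℝ} {τ : ℕ} {η : Env}
    {S a b : Finset ℕ} (h : Gd5 μ s N y L t ε n1 e0 E pr lm τ η S a b) : Gd5 μ s N y L t ε n1 e0 E pr lm τ η S b a :=
  ⟨h.nS, h.nb, h.na, h.fS, h.fb, h.fa, h.tb, h.ta, h.cSb, h.cSa, fun g => h.cab (close_symm g), h.b2b, h.b2a, h.b3b, h.b3a⟩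

theorem gd5_pr [IsProbabilityMeasure μ] {N : ℕ} {y : ℤ} (hy0 : 0 ≤ y) (hyN : y ≤ N) {L t : ℕ} {ε : ℝ} {n1 : ℕ → ℕ} {e0 E : ℕ} {pr : Par}
    {lm : ℝ} (hfl : ∀ S, S ⊆ range N → NSp μ s L N ε S → FlatP μ s N e0 E n1 S) {q : ℝ} (hq : 0 ≤ q)
    (hns : P1 μ s N y (fun _ S => ¬ NSp μ s L N ε S) ≤ ENNReal.ofReal q) (htv : P1 μ s N y (fun _ S => ¬ TVp μ s N pr S) ≤ ENNReal.ofReal q)
    (hcl : P2 μ s N y (fun _ => 0) (fun _ S S' => Close μ s L N ε (fun _ => 0) S S') ≤ ENNReal.ofReal q) {τ : ℕ}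
    (hb2 : P2 μ s N y (fun _ => 0) (Bad2 μ s N y pr L (Ws5 N t τ n1 e0 E pr.a) lm) ≤ ENNReal.ofReal q)
    (hb3 : P2 μ s N y (fun _ => 0) (Bad3 μ s N y pr L (Ws5 N t τ n1 e0 E pr.a) lm) ≤ ENNReal.ofReal q) :
    P3 μ s N y (fun η S a b => ¬ Gd5 μ s N y L t ε n1 e0 E pr lm τ η S a b) ≤ ENNReal.ofReal (12 * q) := by
  have h0 : P3 μ s N y (fun η S a b => ¬ Gd5 μ s N y L t ε n1 e0 E pr lm τ η S a b) ≤ P3 μ s N y (fun η S a b =>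
      ¬ NSp μ s L N ε S ∨ (¬ NSp μ s L N ε a ∨ (¬ NSp μ s L N ε b ∨ (¬ TVp μ s N pr a ∨ (¬ TVp μ s N pr b ∨
      (Close μ s L N ε (fun _ => 0) S a ∨ (Close μ s L N ε (fun _ => 0) S b ∨ (Close μ s L N ε (fun _ => 0) a b ∨
      (Bad2 μ s N y pr L (Ws5 N t τ n1 e0 E pr.a) lm η a S ∨ (Bad2 μ s N y pr L (Ws5 N t τ n1 e0 E pr.a) lm η b S ∨
      (Bad3 μ s N y pr L (Ws5 N t τ n1 e0 E pr.a) lm η a S ∨ Bad3 μ s N y pr L (Ws5 N t τ n1 e0 E pr.a) lm η b S))))))))))) := by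
    refine P3_mono' fun η S a b hS ha hb _ _ _ hev => ?_
    by_contra hcon
    simp only [not_or, not_not] at hcon
    obtain ⟨c1, c2, c3, c4, c5, c6, c7, c8, c9, c10, c11, c12⟩ := hcon
    exact hev ⟨c1, c2, c3, hfl S hS c1, hfl a ha c2, hfl b hb c3, c4, c5, c6, c7, c8, c9, c10, c11, c12⟩
  refine h0.trans ?_
  have d1 : P3 μ s N y (fun _ S _ _ => ¬ NSp μ s L N ε S) ≤ ENNReal.ofReal q := by
    rw [P3_1 hy0 hyN (fun _ S => ¬ NSp μ s L N ε S)]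
    exact hns
  have d2 : P3 μ s N y (fun _ _ a _ => ¬ NSp μ s L N ε a) ≤ ENNReal.ofReal q := by
    rw [P3_2 hy0 hyN (fun _ S => ¬ NSp μ s L N ε S)]
    exact hns
  have d3 : P3 μ s N y (fun _ _ _ b => ¬ NSp μ s L N ε b) ≤ ENNReal.ofReal q := by
    rw [P3_3 hy0 hyN (fun _ S => ¬ NSp μ s L N ε S)]
    exact hns
  have d4 : P3 μ s N y (fun _ _ a _ => ¬ TVp μ s N pr a) ≤ ENNReal.ofReal q := by
    rw [P3_2 hy0 hyN (fun _ S => ¬ TVp μ s N pr S)]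
    exact htv
  have d5 : P3 μ s N y (fun _ _ _ b => ¬ TVp μ s N pr b) ≤ ENNReal.ofReal q := by
    rw [P3_3 hy0 hyN (fun _ S => ¬ TVp μ s N pr S)]
    exact htv
  have d6 : P3 μ s N y (fun _ S a _ => Close μ s L N ε (fun _ => 0) S a) ≤ ENNReal.ofReal q := by
    rw [P3_12 hy0 hyN (fun _ S a => Close μ s L N ε (fun _ => 0) S a)]
    exact hcl
  have d7 : P3 μ s N y (fun _ S _ b => Close μ s L N ε (fun _ => 0) S b) ≤ ENNReal.ofReal q := by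
    rw [P3_13 hy0 hyN (fun _ S a => Close μ s L N ε (fun _ => 0) S a)]
    exact hcl
  have d8 : P3 μ s N y (fun _ _ a b => Close μ s L N ε (fun _ => 0) a b) ≤ ENNReal.ofReal q := by
    rw [P3_23 hy0 hyN (fun _ S a => Close μ s L N ε (fun _ => 0) S a)]
    exact hcl
  have d9 : P3 μ s N y (fun η S a _ => Bad2 μ s N y pr L (Ws5 N t τ n1 e0 E pr.a) lm η a S) ≤ ENNReal.ofReal q := by
    rw [P3_21 hy0 hyN (Bad2 μ s N y pr L (Ws5 N t τ n1 e0 E pr.a) lm)]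
    exact hb2
  have d10 : P3 μ s N y (fun η S _ b => Bad2 μ s N y pr L (Ws5 N t τ n1 e0 E pr.a) lm η b S) ≤ ENNReal.ofReal q := by
    rw [P3_31 hy0 hyN (Bad2 μ s N y pr L (Ws5 N t τ n1 e0 E pr.a) lm)]
    exact hb2
  have d11 : P3 μ s N y (fun η S a _ => Bad3 μ s N y pr L (Ws5 N t τ n1 e0 E pr.a) lm η a S) ≤ ENNReal.ofReal q := by
    rw [P3_21 hy0 hyN (Bad3 μ s N y pr L (Ws5 N t τ n1 e0 E pr.a) lm)]
    exact hb3
  have d12 : P3 μ s N y (fun η S _ b => Bad3 μ s N y pr L (Ws5 N t τ n1 e0 E pr.a) lm η b S) ≤ ENNReal.ofReal q := by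
    rw [P3_31 hy0 hyN (Bad3 μ s N y pr L (Ws5 N t τ n1 e0 E pr.a) lm)]
    exact hb3
  have e := (P3_or _ _).trans (add_le_add d1 ((P3_or _ _).trans (add_le_add d2 ((P3_or _ _).trans (add_le_add d3
    ((P3_or _ _).trans (add_le_add d4 ((P3_or _ _).trans (add_le_add d5 ((P3_or _ _).trans (add_le_add d6
    ((P3_or _ _).trans (add_le_add d7 ((P3_or _ _).trans (add_le_add d8 ((P3_or _ _).trans (add_le_add d9
    ((P3_or _ _).trans (add_le_add d10 ((P3_or _ _).trans (add_le_add d11 d12))))))))))))))))))))) 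
  refine e.trans (le_of_eq ?_)
  simp only [← ENNReal.ofReal_add hq hq, ← ENNReal.ofReal_add hq (show 0 ≤ q + q by positivity)]
  rw [← ENNReal.ofReal_add hq (by positivity), ← ENNReal.ofReal_add hq (by positivity), ← ENNReal.ofReal_add hq (by positivity),
    ← ENNReal.ofReal_add hq (by positivity), ← ENNReal.ofReal_add hq (by positivity), ← ENNReal.ofReal_add hq (by positivity),
    ← ENNReal.ofReal_add hq (by positivity), ← ENNReal.ofReal_add hq (by positivity), ← ENNReal.ofReal_add hq (by positivity)]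
  congr 1
  ring

/-! ### Numbers -/

theorem nu_b2 {L x p e n c : ℝ} (hL : 1000000000 ≤ L) (hx : 0 ≤ x) (hp : 0 ≤ p) (he0 : 0 ≤ e) (he : e ≤ p) (hn : 0 ≤ n) (hn1 : n ≤ 2 * L)
    (_hc0 : 0 ≤ c) (hc : c ≤ 3 * x) : c * (2 * (10 * L + 1)) * n ^ 2 * (3 * e) ≤ L ^ 5 * x * p := by
  have h22 : 2 * (10 * L + 1) ≤ 22 * L := by linarith
  have hL0 : 0 ≤ L := by linarith
  calc c * (2 * (10 * L + 1)) * n ^ 2 * (3 * e) ≤ (3 * x) * (22 * L) * (2 * L) ^ 2 * (3 * p) := by gcongr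
    _ = 792 * (L ^ 3 * x * p) := by ring
    _ ≤ L ^ 2 * (L ^ 3 * x * p) := by
        refine mul_le_mul_of_nonneg_right ?_ (by positivity)
        have : L ≤ L ^ 2 := le_self_pow₀ (by linarith) (by norm_num)
        linarith
    _ = L ^ 5 * x * p := by ring

theorem nu_b3 {L x p e n c : ℝ} (hL : 1000000000 ≤ L) (hx : 0 ≤ x) (hp : 0 ≤ p) (he0 : 0 ≤ e) (he : e ≤ p) (hn : 0 ≤ n) (hn1 : n ≤ 2 * L)
    (_hc0 : 0 ≤ c) (hc : c ≤ 3 * x) : c * (2 * (10 * L + 1)) ^ 2 * n ^ 2 * (3 * e) ≤ L ^ 5 * x * p := by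
  have h22 : 2 * (10 * L + 1) ≤ 22 * L := by linarith
  have hL0 : 0 ≤ L := by linarith
  calc c * (2 * (10 * L + 1)) ^ 2 * n ^ 2 * (3 * e) ≤ (3 * x) * (22 * L) ^ 2 * (2 * L) ^ 2 * (3 * p) := by gcongr
    _ = 17424 * (L ^ 4 * x * p) := by ring
    _ ≤ L * (L ^ 4 * x * p) := by
        refine mul_le_mul_of_nonneg_right ?_ (by positivity)
        linarith
    _ = L ^ 5 * x * p := by ring

theorem nu_p2 {x E K c : ℝ} (hx : 3000 ≤ x) (hE : 0 < E) (hc0 : 0 ≤ c) (hc : c ≤ 3 * x) (_hK0 : 0 ≤ K) (hK : 4 * K ≤ 5 * x) :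
    x / E * (3 * x) * (4 * K) * c ≤ x ^ 5 * E⁻¹ := by
  have hx0 : 0 ≤ x := by linarith
  calc x / E * (3 * x) * (4 * K) * c ≤ x / E * (3 * x) * (5 * x) * (3 * x) := by gcongr
    _ = (45 * x ^ 4) * E⁻¹ := by rw [div_eq_mul_inv]; ring
    _ ≤ x ^ 5 * E⁻¹ := by
        refine mul_le_mul_of_nonneg_right ?_ (by positivity)
        have : x ^ 5 = x * x ^ 4 := by ring
        rw [this]
        exact mul_le_mul_of_nonneg_right (by linarith) (by positivity)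

theorem nu_e2 {L x p e c : ℝ} (hL : 1000000000 ≤ L) (hx : 1 ≤ x) (hp : 0 ≤ p) (_he0 : 0 ≤ e) (he : e ≤ p)
    (hc0 : 0 ≤ c) (hc : c ≤ 3 * x) : e * (2 * (10 * L + 1)) * c ≤ L ^ 8 * x ^ 6 * p := by
  have h22 : 2 * (10 * L + 1) ≤ 22 * L := by linarith
  have hL0 : 0 ≤ L := by linarith
  have hx0 : 0 ≤ x := by linarith
  calc e * (2 * (10 * L + 1)) * c ≤ p * (22 * L) * (3 * x) := by gcongr
    _ = 66 * (L * x * p) := by ring
    _ ≤ L ^ 7 * (L * x * p) := by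
        refine mul_le_mul_of_nonneg_right ?_ (by positivity)
        have : L ≤ L ^ 7 := le_self_pow₀ (by linarith) (by norm_num)
        linarith
    _ = L ^ 8 * x * p := by ring
    _ ≤ L ^ 8 * x ^ 6 * p := by
        have e3 : x ≤ x ^ 6 := le_self_pow₀ hx (by norm_num)
        gcongr

theorem nu_p3 {x E K c : ℝ} (hx : 3000 ≤ x) (hE : 0 < E) (hc0 : 0 ≤ c) (hc : c ≤ 3 * x) (hK0 : 0 ≤ K) (hK : 4 * K ≤ 5 * x) :
    (x / E * (3 * x)) * (x / E * (3 * x + x)) * (4 * K) ^ 2 * c ≤ (x ^ 5 * E⁻¹) ^ 2 := by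
  have hx0 : 0 ≤ x := by linarith
  calc (x / E * (3 * x)) * (x / E * (3 * x + x)) * (4 * K) ^ 2 * c
      ≤ (x / E * (3 * x)) * (x / E * (3 * x + x)) * (5 * x) ^ 2 * (3 * x) := by gcongr
    _ = (900 * x ^ 7) * (E⁻¹) ^ 2 := by rw [div_eq_mul_inv]; ring
    _ ≤ (x * x ^ 7) * (E⁻¹) ^ 2 := by
        refine mul_le_mul_of_nonneg_right ?_ (by positivity)
        exact mul_le_mul_of_nonneg_right (by linarith) (by positivity)
    _ ≤ x ^ 10 * (E⁻¹) ^ 2 := by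
        refine mul_le_mul_of_nonneg_right ?_ (by positivity)
        have : x * x ^ 7 = x ^ 8 := by ring
        rw [this]
        exact pow_le_pow_right₀ (by linarith) (by norm_num)
    _ = (x ^ 5 * E⁻¹) ^ 2 := by ring

theorem nu_e3 {L x p e f n c z : ℝ} (hL : 1000000000 ≤ L) (hx : 1 ≤ x) (hp : 0 ≤ p) (he0 : 0 ≤ e) (he : e ≤ p) (hf0 : 0 ≤ f) (hf : f ≤ p)
    (hn : 0 ≤ n) (hn1 : n ≤ 2 * L) (_hz0 : 0 ≤ z) (hz : z ≤ x) (hc0 : 0 ≤ c) (hc : c ≤ 3 * x) :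
    (z * (3 * x) * (e + n ^ 2 * f) + e) * (2 * (10 * L + 1)) ^ 2 * c ≤ L ^ 8 * x ^ 6 * p := by
  have h22 : 2 * (10 * L + 1) ≤ 22 * L := by linarith
  have hL0 : 0 ≤ L := by linarith
  have hL1 : 1 ≤ L := by linarith
  have hx0 : 0 ≤ x := by linarith
  have a1 : z * (3 * x) ≤ 3 * x ^ 2 := by
    have := mul_le_mul_of_nonneg_right hz (show 0 ≤ 3 * x by positivity)
    calc _ ≤ x * (3 * x) := this
      _ = 3 * x ^ 2 := by ring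
  have a2 : e + n ^ 2 * f ≤ 5 * L ^ 2 * p := by
    have b1 : n ^ 2 * f ≤ (2 * L) ^ 2 * p := by gcongr
    have b2 : p ≤ L ^ 2 * p := le_mul_of_one_le_left hp (one_le_pow₀ hL1)
    have b3 : (2 * L) ^ 2 * p = 4 * (L ^ 2 * p) := by ring
    linarith
  have a3 : z * (3 * x) * (e + n ^ 2 * f) + e ≤ 16 * x ^ 2 * L ^ 2 * p := by
    have b1 : z * (3 * x) * (e + n ^ 2 * f) ≤ 3 * x ^ 2 * (5 * L ^ 2 * p) := mul_le_mul a1 a2 (by positivity) (by positivity)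
    have b2 : p ≤ x ^ 2 * L ^ 2 * p := by
      have c1 : (1 : ℝ) ≤ x ^ 2 * L ^ 2 := one_le_mul_of_one_le_of_one_le (one_le_pow₀ hx) (one_le_pow₀ hL1)
      exact le_mul_of_one_le_left hp c1
    have b3 : 3 * x ^ 2 * (5 * L ^ 2 * p) = 15 * (x ^ 2 * L ^ 2 * p) := by ring
    have b4 : 16 * x ^ 2 * L ^ 2 * p = 16 * (x ^ 2 * L ^ 2 * p) := by ring
    linarith
  calc _ ≤ (16 * x ^ 2 * L ^ 2 * p) * (22 * L) ^ 2 * (3 * x) := by gcongr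
    _ = 23232 * (L ^ 4 * x ^ 3 * p) := by ring
    _ ≤ L ^ 4 * (L ^ 4 * x ^ 3 * p) := by
        refine mul_le_mul_of_nonneg_right ?_ (by positivity)
        have : L ≤ L ^ 4 := le_self_pow₀ hL1 (by norm_num)
        linarith
    _ = L ^ 8 * x ^ 3 * p := by ring
    _ ≤ L ^ 8 * x ^ 6 * p := by
        have e3 : x ^ 3 ≤ x ^ 6 := pow_le_pow_right₀ hx (by norm_num)
        gcongr

end

end Pool.Agent.W_7d29a1_C0.N51
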