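import Pool.Agent.W_7d29a1_C0.TieG13
import Pool.Agent.W_7d29a1_C0.NumW13

/-!
C0, helper13: `numW13` (NumW13) for general normalisations (TieG13).
-/

set_option autoImplicit false

namespace Pool.Agent.W_7d29a1_HZ.ZE

open MeasureTheory ProbabilityTheory Filter Topology Finset
open Pool.Agent.W_7d29a1_F Pool.Agent.W_7d29a1_X Pool.Agent.W_7d29a1_h4g Pool.Agent.W_7d29a1_H Pool.Agent.W_7d29a1_HZ
open Pool.Agent.W_7d29a1_HS (In wd md)
open Pool.Agent.W_7d29a1_HZ.Z86 (Wd mem_Wd Nm ev_const exists_pow wd'_one_le)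
open Pool.Agent.W_7d29a1_HZ.Z86.GX (WT NRel NOk TieInX)
open Pool.Agent.W_7d29a1_Z17 (num_exp)
open Pool.Agent.W_7d29a1_ZE (Win Br cAnd mid Ce al mem_JJ J_sub_JJ node_JJ)
open scoped ENNReal

noncomputable section

variable {μ : Measure ℝ} {s : ℝ}

/-- The price at one line of the windows, for weights. -/
def TieInG (μ : Measure ℝ) (s : ℝ) (p : Par) (N : ℕ) (y : ℤ) (n1 : ℕ → ℕ) (e0 E : ℕ) (x δ : ℝ) : Prop :=
  ∀ W, GWk N n1 e0 E p.a W → ∀ (H : ℕ) (M : ℝ), 1 ≤ M → ∀ sg Y : ℤ, (sg = 1 ∨ sg = -1) →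
    ∀ (Zq : Env → ℝ) (R : Finset ℕ → Env → ℝ), RgOk Zq R → BlindR μ s (winE N y p.a W H sg Y) R →
      PR μ s N y (rdG Zq R) (NTE μ s (winE N y p.a W H sg Y) p.L p.e p.C p.i₀ p.i₁ M) ≤
        ENNReal.ofReal (x * M) * PR μ s N y (rdG Zq R) (fun _ S => InL μ s sg (winE N y p.a W H sg Y).J Y S) + ENNReal.ofReal δ

/-- **The parameters of the classes, the price of the near ties with weights and the regularity of the ordinary path.** -/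
theorem numG13 [IsProbabilityMeasure μ] {c C : ℝ} {n₀ : ℕ} (h : In μ s c C n₀)
    {ε θ : ℝ} (hε : 0 < ε) (hθ : 0 < θ) :
    ∃ ε₃ ε₅ c' : ℝ, 0 < ε₃ ∧ 0 < ε₅ ∧ 0 < c' ∧ ∃ L₀ : ℕ, ∀ L : ℕ, L₀ ≤ L → ∀ N t : ℕ, N ≤ L → (L : ℝ) ^ θ ≤ t → t ≤ N →
      ∀ y : ℤ, 0 ≤ y → y ≤ N → ∃ p : Par,
        P1 μ s N y (fun _ S => NSp μ s L N ε₅ S ∧ ¬ TVp μ s N p S) ≤ ENNReal.ofReal (Real.exp (-(L : ℝ) ^ c')) ∧
        ∀ (ε₂ ε₄ : ℝ) (n1 : ℕ → ℕ) (e0 E : ℕ), ε₂ ≤ ε₃ → ε₄ ≤ ε₃ → Nm μ s L N t ε₂ ε₄ n1 e0 E →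
          POk μ s t n1 e0 E p ∧
          TieInG μ s p N y n1 e0 E ((L : ℝ) ^ ε / EE' μ s t) (Real.exp (-(L : ℝ) ^ c')) := by
  obtain ⟨aw, Kw, haw0, haw1, hKw, hw⟩ := wd'_pow h
  obtain ⟨aE, KE, haE0, haE1, hKE, hE⟩ := EE'_pow h
  obtain ⟨Ct, hCt, htv⟩ := tvE h
  obtain ⟨εT, hεT⟩ : ∃ εT : ℝ, εT = min (ε / 8) (θ / 8) := ⟨_, rfl⟩
  have hεT0 : 0 < εT := by rw [hεT]; exact lt_min (by positivity) (by positivity)
  have hεT1 : εT ≤ ε / 8 := by rw [hεT]; exact min_le_left _ _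
  have hεT2 : εT ≤ θ / 8 := by rw [hεT]; exact min_le_right _ _
  obtain ⟨e₁, he₁, he₁ε, e₀, he₀, hTe⟩ := tieEG_all h εT hεT0
  obtain ⟨e, hee⟩ : ∃ e : ℝ, e = min (min (e₀ / 2) (aw * e₁ / 8)) (min (ε / 8) (θ / 8)) := ⟨_, rfl⟩
  have he0 : 0 < e := by rw [hee]; positivity
  have hee₀ : e < e₀ := by
    have : e ≤ e₀ / 2 := by rw [hee]; exact (min_le_left _ _).trans (min_le_left _ _)
    linarith
  have heaw : e ≤ aw * e₁ / 8 := by rw [hee]; exact (min_le_left _ _).trans (min_le_right _ _)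
  have heε : e ≤ ε / 8 := by rw [hee]; exact (min_le_right _ _).trans (min_le_left _ _)
  have heθ : e ≤ θ / 8 := by rw [hee]; exact (min_le_right _ _).trans (min_le_right _ _)
  obtain ⟨cT, hcT, LT, hTL⟩ := hTe e he0 hee₀ Ct hCt
  obtain ⟨ε', cV, hε', hcV, LV, hV⟩ := htv e₁ he₁
  obtain ⟨L₁, -, hL₁⟩ := num_exp hcT
  obtain ⟨L₂, hL₂⟩ := exists_scales he₁ he0 (show e + 3 * e₁ < θ by linarith)
  obtain ⟨L₃, hL₃⟩ := ev_const 2048 (show 0 < e / 2 by positivity)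
  obtain ⟨L₄, hL₄⟩ := ev_const (2048 * Kw) (show 0 < e / 2 by positivity)
  obtain ⟨L₅, hL₅⟩ := ev_const ((2 : ℝ) ^ (2 * e) * Kw) (show 0 < aw * e₁ / 2 by positivity)
  obtain ⟨L₆, hL₆⟩ := ev_const (36 * ((2 : ℝ) ^ εT * (KE * 2))) (show 0 < ε / 2 by positivity)
  obtain ⟨L₇, hL₇⟩ := ev_const 16 hθ
  refine ⟨min (e / 2) (aw * e₁ / 8), min ε' e, min cV (cT / 2), lt_min (by positivity) (by positivity), lt_min hε' he0,
    lt_min hcV (by positivity), LT + LV + L₁ + L₂ + L₃ + L₄ + L₅ + L₆ + L₇ + 1, fun L hL N t hNL htL htN y hy0 hyN => ?_⟩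
  have hL3 := hL₃ L (by omega)
  have hL4 := hL₄ L (by omega)
  have hL5 := hL₅ L (by omega)
  have hL6 := hL₆ L (by omega)
  have hL7 := hL₇ L (by omega)
  have hL0 : (1 : ℝ) ≤ L := by exact_mod_cast (show 1 ≤ L by omega)
  have hLp : (0 : ℝ) < L := by linarith
  have htp : (0 : ℝ) < t := lt_of_lt_of_le (Real.rpow_pos_of_pos hLp _) htL
  have ht16 : 16 ≤ t := by exact_mod_cast (hL7.trans htL)
  obtain ⟨a, i₀, i₁, hi01, hi1a, ha1, ha2, s1, s2, s3, s4⟩ := hL₂ L t (by omega) htL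
  have hΛR : ((2 * L : ℕ) : ℝ) = 2 * (L : ℝ) := by push_cast; ring
  have hLΛ : (L : ℝ) ≤ ((2 * L : ℕ) : ℝ) := by rw [hΛR]; linarith
  have hΛ1 : (1 : ℝ) ≤ ((2 * L : ℕ) : ℝ) := hL0.trans hLΛ
  have hPa : (0 : ℝ) < 2 ^ a := by positivity
  have hLe1 : (L : ℝ) ^ e₁ ≤ ((2 * L : ℕ) : ℝ) ^ e₁ := Real.rpow_le_rpow hLp.le hLΛ he₁.le
  have hpow : ∀ i, i ≤ i₁ → (2 : ℝ) ^ i * (L : ℝ) ^ e₁ ≤ t := by
    intro i hi
    have h1 : (2 : ℝ) ^ i ≤ 2 ^ i₁ := pow_le_pow_right₀ (by norm_num) hi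
    have h2 : (2 : ℝ) ^ i₁ * 2 ^ (a - i₁) = 2 ^ a := by
      rw [← pow_add, Nat.add_sub_cancel' hi1a]
    have h3 : (L : ℝ) ^ (-e) ≤ 1 := Real.rpow_le_one_of_one_le_of_nonpos hL0 (by linarith)
    calc (2 : ℝ) ^ i * (L : ℝ) ^ e₁ ≤ 2 ^ i₁ * 2 ^ (a - i₁) := mul_le_mul h1 (hLe1.trans s3) (by positivity) (by positivity)
      _ = 2 ^ a := h2
      _ ≤ t * (L : ℝ) ^ (-e) := ha1
      _ ≤ t := mul_le_of_le_one_right htp.le h3
  refine ⟨⟨2 * L, e, Ct, a, i₀, i₁⟩, ?_, fun ε₂ ε₄ n1 e0 E h2 h4 hnm => ?_⟩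
  · -- the ordinary path
    refine le_trans (P1_mono ?_) ((hV L (by omega) N hNL y hy0 hyN).trans (ENNReal.ofReal_le_ofReal (Real.exp_le_exp.2
      (neg_le_neg (Real.rpow_le_rpow_of_exponent_le hL0 (min_le_left _ _))))))
    rintro η S _ ⟨hns, hnt⟩
    refine ⟨fun i n hn hin => (hns i n hn hin).trans ?_, ?_⟩
    · have h5 : (L : ℝ) ^ min ε' e ≤ (L : ℝ) ^ ε' := Real.rpow_le_rpow_of_exponent_le hL0 (min_le_left _ _)
      have h6 : 0 ≤ wd' μ s n := zero_le_one.trans (wd'_one_le n)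
      have h7 := mul_le_mul_of_nonneg_right h5 h6
      linarith
    · by_contra hcon
      push Not at hcon
      refine hnt fun i g1 g2 T hT => ?_
      have hia : i ≤ a := g2.trans hi1a
      refine ⟨fun k hk => ?_, ?_⟩
      · have h8 : (k + 1) * 2 ^ i ≤ 2 ^ (a - i) * 2 ^ i := Nat.mul_le_mul_right _ hk
        rw [← pow_add, Nat.sub_add_cancel hia] at h8
        have h9 : T + (k + 1) * 2 ^ i = T + k * 2 ^ i + 2 ^ i := by ring
        have h10 := hns (T + k * 2 ^ i) (2 ^ i) Nat.one_le_two_pow (by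
          rw [← h9]
          have : T + 2 ^ a ≤ N := hT
          omega)
        rw [← h9, Int.cast_sub] at h10
        refine h10.trans ?_
        have h11 : (L : ℝ) ^ min ε' e ≤ ((2 * L : ℕ) : ℝ) ^ e :=
          (Real.rpow_le_rpow_of_exponent_le hL0 (min_le_right _ _)).trans (Real.rpow_le_rpow hLp.le hLΛ he0.le)
        have h12 : 0 ≤ wd' μ s (2 ^ i) := zero_le_one.trans (wd'_one_le _)
        have h13 := mul_le_mul_of_nonneg_right h11 h12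
        show (L : ℝ) ^ min ε' e * wd' μ s (2 ^ i) ≤ ((2 * L : ℕ) : ℝ) ^ e * wd' μ s (2 ^ i)
        linarith
      · refine hcon a i T ?_ ?_ hia hT
        · refine (hLe1.trans s1).trans ?_
          push_cast
          exact pow_le_pow_right₀ (by norm_num) g1
        · refine (hLe1.trans s3).trans ?_
          push_cast
          exact pow_le_pow_right₀ (by norm_num) (Nat.sub_le_sub_left g2 a)
  · -- the numbers
    have h2' : ε₂ ≤ aw * e₁ / 8 := h2.trans (min_le_right _ _)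
    have h4' : ε₄ ≤ e / 2 := h4.trans (min_le_left _ _)
    have hn1 : ∀ g, e0 ≤ g → g ≤ E → 2048 * 2 ^ a ≤ n1 g := by
      intro g g1 g2
      have h5 := hnm.n1_ge g g1 g2
      have h6 : (L : ℝ) ^ ε₄ ≤ (L : ℝ) ^ (e / 2) := Real.rpow_le_rpow_of_exponent_le hL0 h4'
      have h7 : (L : ℝ) ^ (-e) * ((L : ℝ) ^ (e / 2) * (L : ℝ) ^ (e / 2)) = 1 := by
        rw [← Real.rpow_add hLp, ← Real.rpow_add hLp, show -e + (e / 2 + e / 2) = 0 by ring, Real.rpow_zero]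
      have h8 : (2048 : ℝ) * 2 ^ a ≤ n1 g := by
        have h9 : (0 : ℝ) ≤ (L : ℝ) ^ (-e) := Real.rpow_nonneg hLp.le _
        have h10 : (0 : ℝ) ≤ n1 g := Nat.cast_nonneg _
        calc (2048 : ℝ) * 2 ^ a ≤ (L : ℝ) ^ (e / 2) * (t * (L : ℝ) ^ (-e)) := mul_le_mul hL3 ha1 hPa.le (by positivity)
          _ ≤ (L : ℝ) ^ (e / 2) * ((L : ℝ) ^ (e / 2) * n1 g * (L : ℝ) ^ (-e)) := by
              have h11 : (t : ℝ) ≤ (L : ℝ) ^ (e / 2) * n1 g := h5.trans (mul_le_mul_of_nonneg_right h6 h10)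
              gcongr
          _ = (L : ℝ) ^ (-e) * ((L : ℝ) ^ (e / 2) * (L : ℝ) ^ (e / 2)) * n1 g := by ring
          _ = n1 g := by rw [h7, one_mul]
      exact_mod_cast h8
    have hP8 : 8 * 2 ^ a ≤ t := by
      have h5 : (8 : ℝ) * 2 ^ a ≤ t := by
        have h7 : (8 : ℝ) ≤ (L : ℝ) ^ e := by
          have h8 : (L : ℝ) ^ (e / 2) ≤ (L : ℝ) ^ e := Real.rpow_le_rpow_of_exponent_le hL0 (by linarith)
          linarith
        have h9 : (L : ℝ) ^ e * (L : ℝ) ^ (-e) = 1 := by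
          rw [← Real.rpow_add hLp, add_neg_cancel, Real.rpow_zero]
        calc (8 : ℝ) * 2 ^ a ≤ (L : ℝ) ^ e * (t * (L : ℝ) ^ (-e)) := mul_le_mul h7 ha1 hPa.le (by positivity)
          _ = ((L : ℝ) ^ e * (L : ℝ) ^ (-e)) * t := by ring
          _ = t := by rw [h9, one_mul]
      exact_mod_cast h5
    have hat : 2 ^ a ≤ t := by omega
    have hPok : POk μ s t n1 e0 E ⟨2 * L, e, Ct, a, i₀, i₁⟩ := by
      refine ⟨hi1a, hP8, hn1, fun g g1 g2 i j1 j2 => ?_⟩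
      -- the walls
      show 16 * (((2 * L : ℕ) : ℝ) ^ (2 * e) * wd' μ s (2 ^ i)) ≤ 2 ^ g
      have hg : (2 : ℝ) ^ e0 ≤ 2 ^ g := pow_le_pow_right₀ (by norm_num) g1
      refine le_trans ?_ (hnm.e0_ge.trans hg)
      have hit : 2 ^ i ≤ t := by
        have h5 : 2 ^ i ≤ 2 ^ a := Nat.pow_le_pow_right (by norm_num) (j2.trans hi1a)
        omega
      obtain ⟨-, hlow, -⟩ := hw (2 ^ i) t Nat.one_le_two_pow hit
      have hwi := wd'_one_le (μ := μ) (s := s) (2 ^ i)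
      have hPi : (0 : ℝ) < 2 ^ i := by positivity
      have h5 : (L : ℝ) ^ (aw * e₁) ≤ ((t : ℝ) / ((2 ^ i : ℕ) : ℝ)) ^ aw := by
        rw [mul_comm aw, Real.rpow_mul hLp.le]
        refine Real.rpow_le_rpow (by positivity) ?_ haw0.le
        push_cast
        rw [le_div_iff₀ hPi, mul_comm]
        exact hpow i j2
      have h6 : (L : ℝ) ^ (aw * e₁) * wd' μ s (2 ^ i) ≤ Kw * wd' μ s t := by
        have h7 : Kw⁻¹ * (L : ℝ) ^ (aw * e₁) * wd' μ s (2 ^ i) ≤ wd' μ s t := by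
          refine le_trans ?_ hlow
          have : 0 ≤ Kw⁻¹ := inv_nonneg.2 (by linarith)
          gcongr
        have h8 := mul_le_mul_of_nonneg_left h7 (show (0 : ℝ) ≤ Kw by linarith)
        refine le_trans (le_of_eq ?_) h8
        rw [mul_assoc, ← mul_assoc Kw, mul_inv_cancel₀ (by linarith), one_mul]
      have e1 : ((2 * L : ℕ) : ℝ) ^ (2 * e) = (2 : ℝ) ^ (2 * e) * (L : ℝ) ^ (2 * e) := by
        rw [hΛR, Real.mul_rpow (by norm_num) hLp.le]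
      have hwt : 0 ≤ wd' μ s t := zero_le_one.trans (wd'_one_le t)
      -- in units of the power
      have h9 : (2 : ℝ) ^ (2 * e) * Kw * ((L : ℝ) ^ (2 * e) * (L : ℝ) ^ (2 * ε₂)) ≤ (L : ℝ) ^ (aw * e₁) := by
        have h10 : (L : ℝ) ^ (2 * e) * (L : ℝ) ^ (2 * ε₂) ≤ (L : ℝ) ^ (aw * e₁ / 2) := by
          rw [← Real.rpow_add hLp]
          exact Real.rpow_le_rpow_of_exponent_le hL0 (by linarith)
        calc (2 : ℝ) ^ (2 * e) * Kw * ((L : ℝ) ^ (2 * e) * (L : ℝ) ^ (2 * ε₂)) ≤ (L : ℝ) ^ (aw * e₁ / 2) * (L : ℝ) ^ (aw * e₁ / 2) :=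
              mul_le_mul hL5 h10 (by positivity) (by positivity)
          _ = (L : ℝ) ^ (aw * e₁) := by
              rw [← Real.rpow_add hLp]
              congr 1
              ring
      have hA : (0 : ℝ) < (L : ℝ) ^ (aw * e₁) := Real.rpow_pos_of_pos hLp _
      have hB : (0 : ℝ) < (L : ℝ) ^ (2 * ε₂) := Real.rpow_pos_of_pos hLp _
      have hBi : (L : ℝ) ^ (-(2 * ε₂)) * (L : ℝ) ^ (2 * ε₂) = 1 := by
        rw [← Real.rpow_add hLp, neg_add_cancel, Real.rpow_zero]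
      have h11 : ((2 : ℝ) ^ (2 * e) * (L : ℝ) ^ (2 * e) * wd' μ s (2 ^ i)) * ((L : ℝ) ^ (2 * ε₂) * (L : ℝ) ^ (aw * e₁)) ≤
          wd' μ s t * (L : ℝ) ^ (aw * e₁) := by
        calc ((2 : ℝ) ^ (2 * e) * (L : ℝ) ^ (2 * e) * wd' μ s (2 ^ i)) * ((L : ℝ) ^ (2 * ε₂) * (L : ℝ) ^ (aw * e₁))
            = (2 : ℝ) ^ (2 * e) * ((L : ℝ) ^ (2 * e) * (L : ℝ) ^ (2 * ε₂)) * ((L : ℝ) ^ (aw * e₁) * wd' μ s (2 ^ i)) := by ring
          _ ≤ (2 : ℝ) ^ (2 * e) * ((L : ℝ) ^ (2 * e) * (L : ℝ) ^ (2 * ε₂)) * (Kw * wd' μ s t) := by gcongr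
          _ = (2 : ℝ) ^ (2 * e) * Kw * ((L : ℝ) ^ (2 * e) * (L : ℝ) ^ (2 * ε₂)) * wd' μ s t := by ring
          _ ≤ (L : ℝ) ^ (aw * e₁) * wd' μ s t := mul_le_mul_of_nonneg_right h9 hwt
          _ = _ := mul_comm _ _
      have h12 : ((2 : ℝ) ^ (2 * e) * (L : ℝ) ^ (2 * e) * wd' μ s (2 ^ i)) * (L : ℝ) ^ (2 * ε₂) ≤ wd' μ s t := by
        rw [← mul_assoc] at h11
        exact le_of_mul_le_mul_right h11 hA
      have h13 : (2 : ℝ) ^ (2 * e) * (L : ℝ) ^ (2 * e) * wd' μ s (2 ^ i) ≤ (L : ℝ) ^ (-(2 * ε₂)) * wd' μ s t := by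
        have h14 := mul_le_mul_of_nonneg_left h12 (Real.rpow_nonneg hLp.le (-(2 * ε₂)))
        refine le_trans (le_of_eq ?_) h14
        rw [mul_comm ((2 : ℝ) ^ (2 * e) * (L : ℝ) ^ (2 * e) * wd' μ s (2 ^ i)), ← mul_assoc, hBi, one_mul]
      have h15 : 0 ≤ (L : ℝ) ^ (-(2 * ε₂)) * wd' μ s t := mul_nonneg (Real.rpow_nonneg hLp.le _) hwt
      rw [e1]
      linarith
    refine ⟨hPok, ?_⟩
    -- the price
    have hEt : 0 < EE' μ s t := zero_lt_one.trans_le (le_max_left _ _)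
    have hEa : 0 < EE' μ s (2 ^ a) := zero_lt_one.trans_le (le_max_left _ _)
    obtain ⟨x, hx⟩ : ∃ x : ℝ, x = ((2 * L : ℕ) : ℝ) ^ εT / EE' μ s (2 ^ a) := ⟨_, rfl⟩
    have hx0 : 0 ≤ x := by rw [hx]; positivity
    have hE4 : 2 ^ (E + 4) ≤ 2 * L := by
      have := hnm.E_le
      have h5 : 2 ^ (E + 4) = 2 * 2 ^ (E + 3) := by ring
      omega
    have hwide : ∀ g, e0 ≤ g → g ≤ E → ∀ m : ℕ, n1 g ≤ 1024 * m →
        (2 : ℝ) ^ (g + 4) * 2 ^ a ≤ ((2 * L : ℕ) : ℝ) ^ e * wd' μ s (2 ^ a) * m := by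
      intro g g1 g2 m hm
      show (2 : ℝ) ^ (g + 4) * 2 ^ a ≤ ((2 * L : ℕ) : ℝ) ^ e * wd' μ s (2 ^ a) * m
      have h5 := hnm.top g g1 g2
      have h6 := hn1 g g1 g2
      have h7 : 2 ^ a ≤ n1 g := by omega
      obtain ⟨-, -, hup⟩ := hw (2 ^ a) (n1 g) Nat.one_le_two_pow h7
      have hr : (1 : ℝ) ≤ (n1 g : ℝ) / ((2 ^ a : ℕ) : ℝ) := by
        rw [one_le_div (by positivity)]
        exact_mod_cast h7
      have h8 : ((n1 g : ℝ) / ((2 ^ a : ℕ) : ℝ)) ^ (1 - aw) ≤ (n1 g : ℝ) / ((2 ^ a : ℕ) : ℝ) := by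
        calc ((n1 g : ℝ) / ((2 ^ a : ℕ) : ℝ)) ^ (1 - aw) ≤ ((n1 g : ℝ) / ((2 ^ a : ℕ) : ℝ)) ^ (1 : ℝ) :=
              Real.rpow_le_rpow_of_exponent_le hr (by linarith)
          _ = _ := Real.rpow_one _
      have hwa := wd'_one_le (μ := μ) (s := s) (2 ^ a)
      have h9 : wd' μ s (n1 g) * 2 ^ a ≤ Kw * n1 g * wd' μ s (2 ^ a) := by
        have h10 : wd' μ s (n1 g) ≤ Kw * ((n1 g : ℝ) / ((2 ^ a : ℕ) : ℝ)) * wd' μ s (2 ^ a) :=
          hup.trans (mul_le_mul_of_nonneg_right (mul_le_mul_of_nonneg_left h8 (by linarith)) (by linarith))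
        have h11 := mul_le_mul_of_nonneg_right h10 hPa.le
        refine h11.trans (le_of_eq ?_)
        push_cast
        field_simp
      have h10 : (L : ℝ) ^ ε₄ ≤ (L : ℝ) ^ (e / 2) := Real.rpow_le_rpow_of_exponent_le hL0 h4'
      have h11 : (n1 g : ℝ) ≤ 1024 * m := by exact_mod_cast hm
      have h12 : (2 : ℝ) ^ (g + 4) = 2 * 2 ^ (g + 3) := by ring
      have hn0 : (0 : ℝ) ≤ n1 g := Nat.cast_nonneg _
      have hm0 : (0 : ℝ) ≤ m := Nat.cast_nonneg _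
      have hwn := wd'_one_le (μ := μ) (s := s) (n1 g)
      calc (2 : ℝ) ^ (g + 4) * 2 ^ a = 2 * 2 ^ (g + 3) * 2 ^ a := by rw [h12]
        _ ≤ 2 * ((L : ℝ) ^ (e / 2) * wd' μ s (n1 g)) * 2 ^ a := by
            have h13 : (2 : ℝ) ^ (g + 3) ≤ (L : ℝ) ^ (e / 2) * wd' μ s (n1 g) :=
              h5.trans (mul_le_mul_of_nonneg_right h10 (by linarith))
            gcongr
        _ = 2 * (L : ℝ) ^ (e / 2) * (wd' μ s (n1 g) * 2 ^ a) := by ring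
        _ ≤ 2 * (L : ℝ) ^ (e / 2) * (Kw * n1 g * wd' μ s (2 ^ a)) := mul_le_mul_of_nonneg_left h9 (by positivity)
        _ ≤ 2 * (L : ℝ) ^ (e / 2) * (Kw * (1024 * m) * wd' μ s (2 ^ a)) := by gcongr
        _ = (2048 * Kw) * (L : ℝ) ^ (e / 2) * wd' μ s (2 ^ a) * m := by ring
        _ ≤ (L : ℝ) ^ (e / 2) * (L : ℝ) ^ (e / 2) * wd' μ s (2 ^ a) * m := by gcongr
        _ = (L : ℝ) ^ e * wd' μ s (2 ^ a) * m := by
            rw [← Real.rpow_add hLp, add_halves]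
        _ ≤ ((2 * L : ℕ) : ℝ) ^ e * wd' μ s (2 ^ a) * m := by
            have h14 : (L : ℝ) ^ e ≤ ((2 * L : ℕ) : ℝ) ^ e := Real.rpow_le_rpow hLp.le hLΛ he0.le
            gcongr
    intro W hW H M hM sg Y hsg Zq R hR hb
    have hok := hW.ok hy0 hyN (show N ≤ 2 * L by omega) hE4 H hsg Y
    have h5 := hTL (2 * L) (by omega) (winE N y a W H sg Y) hok (by
      have h3 := hwide W.1 hW.ge hW.le _ hW.card
      rw [winE_nJ]
      refine le_trans (le_of_eq ?_) h3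
      show (((2 : ℤ) ^ (W.1 + 4) : ℤ) : ℝ) * 2 ^ a = _
      push_cast
      rfl) i₀ i₁ s1 s2 hi1a s3 s4 M hM Zq R hR hb
    refine h5.trans (add_le_add (mul_le_mul' (ENNReal.ofReal_le_ofReal ?_) le_rfl) (ENNReal.ofReal_le_ofReal ?_))
    · have h50 : ((2 * L : ℕ) : ℝ) ^ εT * (M / EE' μ s (2 ^ a)) = x * M := by
        rw [hx]
        ring
      show ((2 * L : ℕ) : ℝ) ^ εT * (M / EE' μ s (2 ^ a)) ≤ _
      rw [h50]
      have h51 : x ≤ 36 * x := by linarith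
      refine (mul_le_mul_of_nonneg_right h51 (by linarith)).trans ?_
      refine mul_le_mul_of_nonneg_right ?_ (by linarith)
      obtain ⟨-, -, hup⟩ := hE (2 ^ a) t Nat.one_le_two_pow hat
      have hsq : Real.sqrt ((t : ℝ) / ((2 ^ a : ℕ) : ℝ)) ≤ 2 * (L : ℝ) ^ (e / 2) := by
        rw [Real.sqrt_le_left (by positivity)]
        rw [div_le_iff₀ (by positivity), mul_pow, ← Real.rpow_natCast ((L : ℝ) ^ (e / 2)), ← Real.rpow_mul hLp.le]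
        have h5 : e / 2 * ((2 : ℕ) : ℝ) = e := by
          push_cast
          ring
        rw [h5]
        refine ha2.trans ?_
        push_cast
        have h6 : (0 : ℝ) ≤ (L : ℝ) ^ e * 2 ^ a := by positivity
        nlinarith
      have h5 : EE' μ s t ≤ KE * (2 * (L : ℝ) ^ (e / 2)) * EE' μ s (2 ^ a) := by
        refine hup.trans ?_
        gcongr
      have h6 : (1 : ℝ) / EE' μ s (2 ^ a) ≤ KE * (2 * (L : ℝ) ^ (e / 2)) / EE' μ s t := by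
        rw [div_le_div_iff₀ hEa hEt, one_mul]
        exact h5
      have h7 : (L : ℝ) ^ (e / 2) * (L : ℝ) ^ εT ≤ (L : ℝ) ^ (ε / 2) := by
        rw [← Real.rpow_add hLp]
        exact Real.rpow_le_rpow_of_exponent_le hL0 (by linarith)
      rw [hx, hΛR, Real.mul_rpow (by norm_num) hLp.le]
      calc 36 * ((2 : ℝ) ^ εT * (L : ℝ) ^ εT / EE' μ s (2 ^ a)) = 36 * ((2 : ℝ) ^ εT * (L : ℝ) ^ εT) * (1 / EE' μ s (2 ^ a)) := by ring
        _ ≤ 36 * ((2 : ℝ) ^ εT * (L : ℝ) ^ εT) * (KE * (2 * (L : ℝ) ^ (e / 2)) / EE' μ s t) :=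
            mul_le_mul_of_nonneg_left h6 (by positivity)
        _ = 36 * ((2 : ℝ) ^ εT * (KE * 2)) * ((L : ℝ) ^ (e / 2) * (L : ℝ) ^ εT) / EE' μ s t := by ring
        _ ≤ (L : ℝ) ^ (ε / 2) * (L : ℝ) ^ (ε / 2) / EE' μ s t := by gcongr
        _ = (L : ℝ) ^ ε / EE' μ s t := by
            rw [← Real.rpow_add hLp, add_halves]
    · refine Real.exp_le_exp.2 (neg_le_neg ?_)
      calc (L : ℝ) ^ min cV (cT / 2) ≤ (L : ℝ) ^ cT := Real.rpow_le_rpow_of_exponent_le hL0 ((min_le_right _ _).trans (by linarith))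
        _ ≤ ((2 * L : ℕ) : ℝ) ^ cT := Real.rpow_le_rpow hLp.le hLΛ hcT.le

end

end Pool.Agent.W_7d29a1_HZ.ZE
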