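import Pool.Agent.W_7d29a1_C0.NT51C
import Pool.Agent.W_7d29a1_C0.NumG13

/-!
C0, helper51: THREE BRANCHES, the second order event (definitions). The base path `S` has macroscopic alternatives `a` in the class of a
window `V₁`; a typical alternative `a` of this class has itself a near tie at a window `V₂`, whose strip is off the base path.
-/

set_option autoImplicit false

namespace Pool.Agent.W_7d29a1_C0.N51

open MeasureTheory ProbabilityTheory Filter Topology Finset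
open Pool.Agent.W_7d29a1_F Pool.Agent.W_7d29a1_X Pool.Agent.W_7d29a1_h4g Pool.Agent.W_7d29a1_H
open Pool.Agent.W_7d29a1_HS (In wd md)
open Pool.Agent.W_7d29a1_HZ Pool.Agent.W_7d29a1_HZ.R72 Pool.Agent.W_7d29a1_Z.Asm72
open Pool.Agent.W_7d29a1_HZ.Z86
open Pool.Agent.W_7d29a1_HZ.Z86.GX (WT)
open Pool.Agent.W_7d29a1_HZ.ZE
open Pool.Agent.W_7d29a1_HZ.Z36 (kk kk_nonneg kk_meas)
open Pool.Agent.W_7d29a1_ZE (Win Br J_sub_JJ)
open scoped ENNReal

noncomputable section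

variable {μ : Measure ℝ} {s : ℝ}

/-- The path has no site in the strip of the window. -/
def OffS (μ : Measure ℝ) (s : ℝ) (V : Win) (S : Finset ℕ) : Prop := ∀ i : ℕ, ¬ InStrip μ s V ((i : ℤ), pos S i)

/-- Near tie of `a` at one of the windows `Ws`, the strip of the window being off `S`. -/
def TP (μ : Measure ℝ) (s : ℝ) (N : ℕ) (y : ℤ) (pr : Par) (L K : ℕ) (Ws : Finset WT) (M : ℝ) (η : Env) (S a : Finset ℕ) : Prop :=
  ∃ W ∈ Ws, ∃ q ∈ QL L, NrK μ s K W q a ∧ OffS μ s (VV N y pr W q) S ∧ NTE μ s (VV N y pr W q) pr.L pr.e pr.C pr.i₀ pr.i₁ M η a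

open scoped Classical in
/-- The mass of the replicas with the positions of `S` at the times `c` and `d` and the property `A`. -/
def Bm (μ : Measure ℝ) (s : ℝ) (N : ℕ) (y : ℤ) (c d : ℕ) (A : Finset ℕ → Prop) (η : Env) (S : Finset ℕ) : ℝ :=
  ∑ a ∈ (range N).powerset, gp μ s η N y a * (if (pos a c = pos S c ∧ pos a d = pos S d) ∧ A a then 1 else 0)

/-- **The second order event** at one line: `S` is left of the line of `V₁`, the class of `V₁` is not rare between `c` and `d`, and the part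
`1 / κ` of this class has the near tie `TP`. -/
def SO1 (μ : Measure ℝ) (s : ℝ) (N : ℕ) (y : ℤ) (pr₁ pr₂ : Par) (L K₂ : ℕ) (Ws₂ : Finset WT) (c d : ℕ) (κ M M₂ : ℝ)
    (W : WT) (q : ℤ × ℤ) (η : Env) (S : Finset ℕ) : Prop :=
  cL μ s (VV N y pr₁ W q) (pos S) ∧
    Real.exp (-M) ≤ Bm μ s N y c d (fun a => cE μ s (VV N y pr₁ W q) pr₁.L pr₁.e pr₁.C pr₁.i₀ pr₁.i₁ (pos a)) η S ∧
    Bm μ s N y c d (fun a => cE μ s (VV N y pr₁ W q) pr₁.L pr₁.e pr₁.C pr₁.i₀ pr₁.i₁ (pos a)) η S ≤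
      κ * Bm μ s N y c d (fun a => cE μ s (VV N y pr₁ W q) pr₁.L pr₁.e pr₁.C pr₁.i₀ pr₁.i₁ (pos a) ∧
        TP μ s N y pr₂ L K₂ Ws₂ M₂ η S a) η S

/-- **The second order event.** -/
def SO (μ : Measure ℝ) (s : ℝ) (N : ℕ) (y : ℤ) (pr₁ pr₂ : Par) (L K₁ K₂ : ℕ) (Ws₁ Ws₂ : Finset WT) (c d : ℕ) (κ M M₂ : ℝ) (η : Env)
    (S : Finset ℕ) : Prop :=
  ∃ W ∈ Ws₁, ∃ q ∈ QL L, NrK μ s K₁ W q S ∧ SO1 μ s N y pr₁ pr₂ L K₂ Ws₂ c d κ M M₂ W q η S

end

end Pool.Agent.W_7d29a1_C0.N51
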