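import Pool.Agent.W_7d29a1_C0.NT51F
import Pool.Agent.W_7d29a1_C0.NT51H

/-!
C0, helper51: THREE BRANCHES, the raw numbers of one scale (`Bun`, `Ok51`) and their existence at all scales with the same exponents
(`raw51`); the price of the near ties is the one with general normalisations (`TieInG` of helper13).
-/

set_option autoImplicit false

namespace Pool.Agent.W_7d29a1_C0.N51

open MeasureTheory ProbabilityTheory Filter Topology Finset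
open Pool.Agent.W_7d29a1_F Pool.Agent.W_7d29a1_X Pool.Agent.W_7d29a1_h4g Pool.Agent.W_7d29a1_H
open Pool.Agent.W_7d29a1_HS (In wd md)
open Pool.Agent.W_7d29a1_HZ Pool.Agent.W_7d29a1_HZ.R72 Pool.Agent.W_7d29a1_Z.Asm72
open Pool.Agent.W_7d29a1_HZ.Z86
open Pool.Agent.W_7d29a1_HZ.Z86.GX (WT numWX)
open Pool.Agent.W_7d29a1_HZ.ZE
open Pool.Agent.W_7d29a1_C0.P86 (NoMeet)
open scoped ENNReal

noncomputable section

variable {μ : Measure ℝ} {s : ℝ}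

/-! ### Normalisations -/

theorem ZC_mono (N : ℕ) (y : ℤ) : Monotone fun η : Env => Z15.ZC μ s N y η := by
  intro η η' h
  show W μ s η 0 N y ≤ W μ s η' 0 N y
  rw [Pool.Agent.W_7d29a1_Z.W_eq_Kf0, Pool.Agent.W_7d29a1_Z.W_eq_Kf0]
  exact Pool.Agent.W_7d29a1_Z.Kf_mono _ _ _ _ _ h

theorem tieW_of_G [IsProbabilityMeasure μ] {pr : Par} {N : ℕ} {y : ℤ} (hy0 : 0 ≤ y) (hyN : y ≤ N) {n1 : ℕ → ℕ} {e0 E : ℕ} {x δ : ℝ}
    (h : TieInG μ s pr N y n1 e0 E x δ) : TieInW μ s pr N y n1 e0 E x δ := by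
  intro W hW H M hM sg Y hsg k R hR hb
  have h0 : ∀ η, 0 < Z15.ZC μ s N y η := fun η => ZC_pos hy0 hyN η
  have h1 : RgOk (fun η => Z15.ZC μ s N y η ^ k) R := by
    refine ⟨(ZC_meas N y).pow_const k, fun η => pow_pos (h0 η) k, fun η η' hle => ?_, hR.meas, hR.nn, hR.le⟩
    exact pow_le_pow_left₀ (h0 η).le (ZC_mono N y hle) k
  exact h W hW H M hM sg Y hsg _ R h1 hb

theorem tieG_mono {pr : Par} {N : ℕ} {y : ℤ} {n1 : ℕ → ℕ} {e0 E : ℕ} {x δ δ' : ℝ} (hδ : δ ≤ δ')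
    (h : TieInG μ s pr N y n1 e0 E x δ) : TieInG μ s pr N y n1 e0 E x δ' :=
  fun W hW H M hM sg Y hsg Zq R hR hb => (h W hW H M hM sg Y hsg Zq R hR hb).trans (add_le_add le_rfl (ENNReal.ofReal_le_ofReal hδ))

/-! ### Numbers -/

theorem nu_n1t {L : ℕ} {ε Kw W1 W2 : ℝ} {e0 : ℕ} (hLR : (1 : ℝ) ≤ L) (hKw : Kw ≤ (L : ℝ) ^ ε) (hε : 0 < ε) (hW2 : 0 < W2)
    (g1 : 64 * ((L : ℝ) ^ ε * W2) ≤ 2 ^ e0) (g2 : (2 : ℝ) ^ (e0 + 1) ≤ (L : ℝ) ^ (-ε) * W1) (g3 : W1 ≤ Kw * W2) : False := by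
  have hL0 : (0 : ℝ) < L := by linarith
  have g4 : (L : ℝ) ^ (-ε) * W1 ≤ (L : ℝ) ^ (-ε) * (Kw * W2) := mul_le_mul_of_nonneg_left g3 (Real.rpow_nonneg hL0.le _)
  have g5 : (2 : ℝ) ^ (e0 + 1) = 2 * 2 ^ e0 := by ring
  rw [g5] at g2
  have g6 : 128 * ((L : ℝ) ^ ε * W2) ≤ (L : ℝ) ^ (-ε) * Kw * W2 := by linarith
  have g8 : (L : ℝ) ^ (-ε) * Kw ≤ 1 := by
    calc (L : ℝ) ^ (-ε) * Kw ≤ (L : ℝ) ^ (-ε) * (L : ℝ) ^ ε := mul_le_mul_of_nonneg_left hKw (Real.rpow_nonneg hL0.le _)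
      _ = 1 := by rw [← Real.rpow_add hL0, neg_add_cancel, Real.rpow_zero]
  have g9 : 1 ≤ (L : ℝ) ^ ε := Real.one_le_rpow hLR hε.le
  have g11 : (L : ℝ) ^ (-ε) * Kw * W2 ≤ 1 * W2 := mul_le_mul_of_nonneg_right g8 hW2.le
  have g12 : 1 * W2 ≤ (L : ℝ) ^ ε * W2 := mul_le_mul_of_nonneg_right g9 hW2.le
  linarith

theorem nu_near {L : ℕ} {ε₁ εn β wj wt Kw x K e : ℝ} (hLR : (1 : ℝ) ≤ L) (hwt : 0 ≤ wt) (hwj0 : 0 ≤ wj)
    (hwj : wj ≤ Kw * ((L : ℝ) ^ (β / 8) * wt)) (hKA : Kw ≤ (L : ℝ) ^ (β / 8)) (he1 : ε₁ ≤ β / 8) (hεn : εn ≤ β / 8)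
    (hβ : 0 < β) (hx : x = (L : ℝ) ^ β) (hKx : x ≤ 16 * K) (hK0 : 0 ≤ K) (h64 : 64 * ((L : ℝ) ^ (-(2 * ε₁)) * wt) ≤ e) :
    2 * ((L : ℝ) ^ εn * wj) ≤ K * e := by
  have hL0 : (0 : ℝ) < L := by linarith
  obtain ⟨A, hA⟩ : ∃ A : ℝ, A = (L : ℝ) ^ (β / 8) := ⟨_, rfl⟩
  have hA1 : 1 ≤ A := by rw [hA]; exact Real.one_le_rpow hLR (by positivity)
  have hA0 : 0 ≤ A := by linarith
  have hεA : (L : ℝ) ^ εn ≤ A := by rw [hA]; exact Real.rpow_le_rpow_of_exponent_le hLR hεn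
  rw [← hA] at hwj hKA
  have hA8 : A ^ 8 = x := by
    rw [hA, hx, ← Real.rpow_natCast, ← Real.rpow_mul hL0.le]
    congr 1
    push_cast
    ring
  have h2e : 1 ≤ (L : ℝ) ^ (-(2 * ε₁)) * A ^ 2 := by
    rw [hA, ← Real.rpow_natCast, ← Real.rpow_mul hL0.le, ← Real.rpow_add hL0]
    refine Real.one_le_rpow hLR ?_
    push_cast
    linarith
  have hw0 : 0 ≤ (L : ℝ) ^ (-(2 * ε₁)) * wt := mul_nonneg (Real.rpow_nonneg hL0.le _) hwt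
  have hB : 64 * ((L : ℝ) ^ (-(2 * ε₁)) * wt) * K ≤ e * K := mul_le_mul_of_nonneg_right h64 hK0
  have hC : 4 * x * ((L : ℝ) ^ (-(2 * ε₁)) * wt) ≤ e * K := by
    refine le_trans ?_ hB
    have q1 := mul_le_mul_of_nonneg_right hKx hw0
    linarith
  have e1 : wj ≤ A * (A * wt) := hwj.trans (mul_le_mul_of_nonneg_right hKA (by positivity))
  have e2 : (L : ℝ) ^ εn * wj ≤ A * (A * (A * wt)) := mul_le_mul hεA e1 hwj0 hA0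
  have e3 : A ^ 3 * wt ≤ A ^ 3 * (((L : ℝ) ^ (-(2 * ε₁)) * A ^ 2) * wt) :=
    mul_le_mul_of_nonneg_left (le_mul_of_one_le_left hwt h2e) (by positivity)
  have e4 : A ^ 5 * ((L : ℝ) ^ (-(2 * ε₁)) * wt) ≤ A ^ 8 * ((L : ℝ) ^ (-(2 * ε₁)) * wt) :=
    mul_le_mul_of_nonneg_right (pow_le_pow_right₀ hA1 (by norm_num)) hw0
  rw [hA8] at e4
  have e5 : 0 ≤ x * ((L : ℝ) ^ (-(2 * ε₁)) * wt) := mul_nonneg (by rw [← hA8]; positivity) hw0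
  calc 2 * ((L : ℝ) ^ εn * wj) ≤ 2 * (A * (A * (A * wt))) := by linarith
    _ = 2 * (A ^ 3 * wt) := by ring
    _ ≤ 2 * (A ^ 3 * (((L : ℝ) ^ (-(2 * ε₁)) * A ^ 2) * wt)) := by linarith
    _ = 2 * (A ^ 5 * ((L : ℝ) ^ (-(2 * ε₁)) * wt)) := by ring
    _ ≤ 4 * x * ((L : ℝ) ^ (-(2 * ε₁)) * wt) := by linarith
    _ ≤ K * e := by linarith

/-! ### The raw data of one scale -/

/-- The numbers of one scale. -/
structure Bun where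
  n1 : ℕ → ℕ
  e0 : ℕ
  E : ℕ
  K : ℕ
  pr : Par
  m : ℕ
  n : ℕ

/-- The windows of the scale in `[τ, τ + t)`. -/
def Bun.Ws (B : Bun) (N t τ : ℕ) : Finset WT := Ws5 N t τ B.n1 B.e0 B.E B.pr.a

/-- **The numbers of the scale `t`.** -/
structure Ok51 (μ : Measure ℝ) (s : ℝ) (N t H L : ℕ) (y : ℤ) (x p ε : ℝ) (B : Bun) : Prop where
  pok : POk μ s t B.n1 B.e0 B.E B.pr
  tG : TieInG μ s B.pr N y B.n1 B.e0 B.E (x / EE' μ s t) p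
  sp : SpN μ s L t B.e0 ε B.m B.n
  n1t : B.n1 B.e0 ≤ t
  eE : B.e0 ≤ B.E
  E3 : 2 ^ (B.E + 3) ≤ L
  K6 : 6 ≤ B.K
  Kx : 16 * ((B.K : ℝ) + 1) ≤ 5 * x
  near : ∀ j : ℕ, 1 ≤ j → j ≤ H → 2 * ((L : ℝ) ^ ε * wd' μ s j) ≤ ((B.K - 6 : ℕ) : ℝ) * 2 ^ B.e0
  flat : ∀ S, S ⊆ range N → NSp μ s L N ε S → FlatP μ s N B.e0 B.E B.n1 S
  card : ∀ τ, ((B.Ws N t τ).card : ℝ) ≤ 3 * x
  quart : (L : ℝ) ^ ε ≤ ((t / 4 : ℕ) : ℝ)
  q4 : (2 : ℝ) ^ (B.e0 + 4) ≤ (L : ℝ) ^ (-ε) * wd' μ s (t / 4)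
  tv : P1 μ s N y (fun _ S => ¬ TVp μ s N B.pr S) ≤ ENNReal.ofReal (2 * p)

/-- The facts which do not depend on the scale. -/
structure Gen51 (μ : Measure ℝ) (s : ℝ) (N L : ℕ) (y : ℤ) (x p ε : ℝ) : Prop where
  NL : N ≤ L
  L9 : (1000000000 : ℝ) ≤ L
  x3 : 3000 ≤ x
  p0 : 0 < p
  ex : Real.exp (-x) ≤ p
  m0 : ∀ j, 0 ≤ md μ s j
  m1 : ∀ j, md μ s j ≤ j
  y0 : 0 ≤ y
  yN : y ≤ N
  ns : P1 μ s N y (fun _ S => ¬ NSp μ s L N ε S) ≤ ENNReal.ofReal p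
  cl : P2 μ s N y (fun _ => 0) (fun _ S S' => Close μ s L N ε (fun _ => 0) S S') ≤ ENNReal.ofReal p

/-- **The numbers exist at all scales.** -/
theorem raw51 [IsProbabilityMeasure μ] {c C : ℝ} {n₀ : ℕ} (h : In μ s c C n₀) : ∀ β θ : ℝ, 0 < β → 0 < θ → ∃ δ cm κ εn : ℝ,
    0 < δ ∧ 0 < cm ∧ cm ≤ β ∧ 0 < κ ∧ 0 < εn ∧ ∃ L₀ : ℕ, ∀ L : ℕ, L₀ ≤ L → ∀ N : ℕ, L ≤ 16 * N → N ≤ L →
    ∀ y : ℤ, 0 ≤ y → y ≤ N → |(y : ℝ) - sl μ s * N| ≤ ((L : ℝ) ^ δ * wd' μ s N) →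
      Gen51 μ s N L y ((L : ℝ) ^ β) (Real.exp (-(L : ℝ) ^ cm)) εn ∧
      ∀ t : ℕ, (L : ℝ) ^ θ ≤ t → t ≤ N → ∀ H : ℕ, (H : ℝ) ≤ (L : ℝ) ^ κ * t →
        ∃ B : Bun, Ok51 μ s N t H L y ((L : ℝ) ^ β) (Real.exp (-(L : ℝ) ^ cm)) εn B := by
  intro β θ hβ hθ
  obtain ⟨ε₃, ε₅, cX, hε₃, hε₅, hcX, LX, hNX⟩ := numG13 h hβ hθ
  have hε₃' : 0 < min ε₃ (β / 8) := lt_min hε₃ (by positivity)
  obtain ⟨ε₁, ε₄, hε₁, hε₄, h13, h43, LW, hW⟩ := numWX h β 1 θ (min ε₃ (β / 8)) hβ one_pos hθ hε₃'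
  obtain ⟨aw, Kw, haw0, haw1, hKw, hwp⟩ := wd'_pow h
  obtain ⟨ε', hε'0, hε'1, LS, hSp⟩ := spn_ex haw0 haw1 hKw hwp hε₁ hθ
  obtain ⟨εn, hεn⟩ : ∃ εn : ℝ, εn = min ε' ε₅ := ⟨_, rfl⟩
  have hεn0 : 0 < εn := by rw [hεn]; exact lt_min hε'0 hε₅
  have hεn1 : εn ≤ ε' := by rw [hεn]; exact min_le_left _ _
  have hεn5 : εn ≤ ε₅ := by rw [hεn]; exact min_le_right _ _
  obtain ⟨δn, cn, hδn, hcn, Ln, hNs⟩ := ns h εn hεn0
  obtain ⟨δf, cf, hδf, hcf, Lf, hFr⟩ := fresh h εn hεn0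
  obtain ⟨cm, hcm⟩ : ∃ cm : ℝ, cm = min (min cX cn) (min cf β) := ⟨_, rfl⟩
  have hcm0 : 0 < cm := by rw [hcm]; exact lt_min (lt_min hcX hcn) (lt_min hcf hβ)
  have hcmβ : cm ≤ β := by rw [hcm]; exact (min_le_right _ _).trans (min_le_right _ _)
  obtain ⟨La, hLa⟩ := ev_const 64 hθ
  obtain ⟨Lb, hLb⟩ := ev_const (3000 + 4 * Kw) hβ
  obtain ⟨Lc, hLc⟩ := ev_const (Kw + 16) (show 0 < ε₁ / 2 by positivity)
  obtain ⟨Ld, hLd⟩ := ev_const Kw (show 0 < β / 8 by positivity)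
  obtain ⟨δ, hδd⟩ : ∃ δ : ℝ, δ = min δn δf := ⟨_, rfl⟩
  have hδ : 0 < δ := by rw [hδd]; exact lt_min hδn hδf
  have hδ2 : δ ≤ δn := by rw [hδd]; exact min_le_left _ _
  have hδ3 : δ ≤ δf := by rw [hδd]; exact min_le_right _ _
  refine ⟨δ, cm, β / 8, εn, hδ, hcm0, hcmβ, by positivity, hεn0, LX + LW + LS + Ln + Lf + La + Lb + Lc + Ld + 1000000000, ?_⟩
  intro L hL N hLN hNL y hy0 hyN hyc
  have hL1 : 1 ≤ L := by omega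
  have hLR : (1 : ℝ) ≤ L := by exact_mod_cast hL1
  have hL0 : (0 : ℝ) < L := by linarith
  have hL9 : (1000000000 : ℝ) ≤ L := by exact_mod_cast (show 1000000000 ≤ L by omega)
  have hwd : ∀ n, 0 < wd' μ s n := fun n => lt_of_lt_of_le zero_lt_one (le_max_left _ _)
  have hcone : ∀ δ', δ ≤ δ' → |(y : ℝ) - sl μ s * N| ≤ ((L : ℝ) ^ δ' * wd' μ s N) := fun δ' hδ' =>
    hyc.trans (mul_le_mul_of_nonneg_right (Real.rpow_le_rpow_of_exponent_le hLR hδ') (hwd N).le)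
  have hns := hNs L (by omega) N hLN hNL y hy0 hyN (hcone _ hδ2)
  have hfr := hFr L (by omega) N hLN hNL y hy0 hyN (hcone _ hδ3) (fun _ => 0) (by simp [sv])
  obtain ⟨p, hp⟩ : ∃ p : ℝ, p = Real.exp (-(L : ℝ) ^ cm) := ⟨_, rfl⟩
  have hp0 : 0 < p := by rw [hp]; exact Real.exp_pos _
  have ecX : Real.exp (-(L : ℝ) ^ cX) ≤ p := by
    rw [hp, hcm]
    exact Pool.Agent.W_7d29a1_Z.NumI77.exp_mono ((min_le_left _ _).trans (min_le_left _ _)) hL1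
  have ecn : Real.exp (-(L : ℝ) ^ cn) ≤ p := by
    rw [hp, hcm]
    exact Pool.Agent.W_7d29a1_Z.NumI77.exp_mono ((min_le_left _ _).trans (min_le_right _ _)) hL1
  have ecf : Real.exp (-(L : ℝ) ^ cf) ≤ p := by
    rw [hp, hcm]
    exact Pool.Agent.W_7d29a1_Z.NumI77.exp_mono ((min_le_right _ _).trans (min_le_left _ _)) hL1
  have ecb : Real.exp (-(L : ℝ) ^ β) ≤ p := by
    rw [hp, hcm]
    exact Pool.Agent.W_7d29a1_Z.NumI77.exp_mono ((min_le_right _ _).trans (min_le_right _ _)) hL1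
  obtain ⟨x, hx⟩ : ∃ x : ℝ, x = (L : ℝ) ^ β := ⟨_, rfl⟩
  have hxk : 3000 + 4 * Kw ≤ x := by rw [hx]; exact hLb L (by omega)
  rw [← hx] at ecb
  rw [← hx, ← hp]
  refine ⟨⟨hNL, hL9, by linarith, hp0, ecb, h.md_nonneg, h.md_le_nat, hy0, hyN, hns.trans (ENNReal.ofReal_le_ofReal ecn),
    hfr.trans (ENNReal.ofReal_le_ofReal ecf)⟩, ?_⟩
  intro t htL htN H hH
  have ht64 : 64 ≤ t := by exact_mod_cast (hLa L (by omega)).trans htL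
  obtain ⟨n1, e0, E, X', w, hnm, w1, w2, w3, -, -, -, -, -, w9, w10, w11, w12⟩ := hW L (by omega) N t hLN hNL htL htN
  obtain ⟨pr, hp1, hp2⟩ := hNX L (by omega) N t hNL htL htN y hy0 hyN
  obtain ⟨hpr, hT⟩ := hp2 ε₁ ε₄ n1 e0 E (h13.trans (min_le_left _ _)) (h43.trans (min_le_left _ _)) hnm
  obtain ⟨m, n, hsp'⟩ := hSp L (by omega) t e0 htL hnm.e0_le
  have hsp := hsp'.mono hL1 hεn1
  obtain ⟨K, hK⟩ : ∃ K : ℕ, K = ⌊x / 8⌋₊ := ⟨_, rfl⟩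
  have hKx : (K : ℝ) ≤ x / 8 := by rw [hK]; exact Nat.floor_le (by linarith)
  have hKx' : x / 8 < K + 1 := by rw [hK]; exact Nat.lt_floor_add_one _
  have hK6 : 6 ≤ K := by
    have : (200 : ℝ) ≤ K := by linarith
    have : 200 ≤ K := by exact_mod_cast this
    omega
  have heE : e0 ≤ E := by
    have g1 := hnm.E_gt 1 le_rfl (by omega)
    have g2 := hnm.e0_le
    by_contra hcon
    have g3 : (2 : ℝ) ^ (E + 2) ≤ 2 ^ (e0 + 1) := pow_le_pow_right₀ (by norm_num) (by omega)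
    have g4 : 0 ≤ (L : ℝ) ^ ε₁ * wd' μ s 1 := mul_nonneg (Real.rpow_nonneg hL0.le _) (hwd _).le
    linarith
  have hKwL : Kw ≤ (L : ℝ) ^ ε₁ := by
    have e1 := hLc L (by omega)
    have e2 : (L : ℝ) ^ (ε₁ / 2) ≤ (L : ℝ) ^ ε₁ := Real.rpow_le_rpow_of_exponent_le hLR (by linarith)
    linarith
  have hn1t : n1 e0 ≤ t := by
    by_contra hcon
    push Not at hcon
    exact nu_n1t hLR hKwL hε₁ (hwd _) (hnm.n1_wd e0 le_rfl heE (n1 e0) (by omega) le_rfl) hnm.e0_le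
      (hwp (t / 4) (n1 e0) (by omega) (by omega)).1
  have hε₁β : ε₁ ≤ β / 8 := h13.trans (min_le_right _ _)
  have hε1n : εn ≤ ε₁ := by linarith
  have hKn : ∀ j : ℕ, 1 ≤ j → j ≤ H → 2 * ((L : ℝ) ^ εn * wd' μ s j) ≤ ((K - 6 : ℕ) : ℝ) * 2 ^ e0 := by
    intro j hj1 hjH
    have hwj : wd' μ s j ≤ Kw * ((L : ℝ) ^ (β / 8) * wd' μ s t) := by
      have hwt := (hwd t).le
      rcases le_total j t with g | g
      · have g1 := (hwp j t hj1 g).1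
        have g2 : wd' μ s t ≤ (L : ℝ) ^ (β / 8) * wd' μ s t := le_mul_of_one_le_left hwt (Real.one_le_rpow hLR (by positivity))
        exact g1.trans (mul_le_mul_of_nonneg_left g2 (by linarith))
      · obtain ⟨-, -, g3⟩ := hwp t j (by omega) g
        rw [mul_assoc] at g3
        refine g3.trans (mul_le_mul_of_nonneg_left (mul_le_mul_of_nonneg_right ?_ hwt) (by linarith))
        have htR : (0 : ℝ) < t := by exact_mod_cast (show 0 < t by omega)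
        have g4 : (1 : ℝ) ≤ (j : ℝ) / t := by
          rw [one_le_div htR]
          exact_mod_cast g
        calc ((j : ℝ) / t) ^ (1 - aw) ≤ ((j : ℝ) / t) ^ (1 : ℝ) := Real.rpow_le_rpow_of_exponent_le g4 (by linarith)
          _ = (j : ℝ) / t := Real.rpow_one _
          _ ≤ (L : ℝ) ^ (β / 8) := by
            rw [div_le_iff₀ htR]
            have : (j : ℝ) ≤ H := by exact_mod_cast hjH
            linarith
    refine nu_near hLR (hwd t).le (hwd j).le hwj (hLd L (by omega)) hε₁β (hε1n.trans hε₁β) hβ hx ?_ (Nat.cast_nonneg _) hnm.e0_ge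
    have hK6' : ((K - 6 : ℕ) : ℝ) = K - 6 := by
      rw [Nat.cast_sub hK6]
      norm_num
    rw [hK6']
    linarith
  have hz1 : 1 ≤ (L : ℝ) ^ ε₄ := Real.one_le_rpow hLR hε₄.le
  have hε₄β : (L : ℝ) ^ ε₄ ≤ x := by
    rw [hx]
    exact Real.rpow_le_rpow_of_exponent_le hLR (by have := h43.trans (min_le_right _ _); linarith)
  have hn16 : 16 ≤ n1 e0 := by
    have g3 := hpr.an1 e0 le_rfl heE
    have g4 := Nat.one_le_two_pow (n := pr.a)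
    omega
  refine ⟨⟨n1, e0, E, K, pr, m, n⟩, ⟨hpr, ?_, hsp, hn1t, heE, w1, hK6, ?_, hKn, fun S hS hN =>
    (w11 S hS (NSp.mono51 hL1 hε1n hN)).2, fun τ => ?_, ?_, ?_, ?_⟩⟩
  · rw [hx]
    exact tieG_mono ecX hT
  · show 16 * ((K : ℝ) + 1) ≤ 5 * x
    linarith
  · have g1 := Ws5_card (N := N) (τ := τ) (E := E) (a := pr.a) hz1 (hnm.n1_ge e0 le_rfl heE) hn16
    show ((Ws5 N t τ n1 e0 E pr.a).card : ℝ) ≤ 3 * x
    linarith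
  · have g1 := hsp.m1
    have g2 := hsp.mn
    have g3 : (m : ℝ) ≤ ((t / 4 : ℕ) : ℝ) := by exact_mod_cast (show m ≤ t / 4 by omega)
    linarith
  · show (2 : ℝ) ^ (e0 + 4) ≤ (L : ℝ) ^ (-εn) * wd' μ s (t / 4)
    have g1 := hnm.e0_le
    have e1 : (2 : ℝ) ^ (e0 + 4) = 8 * 2 ^ (e0 + 1) := by ring
    have g2 : 8 * (L : ℝ) ^ (-ε₁) ≤ (L : ℝ) ^ (-εn) := by
      have e2 := hLc L (by omega)
      have e3 : (8 : ℝ) ≤ (L : ℝ) ^ (ε₁ / 2) := by linarith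
      have e4 : 0 ≤ (L : ℝ) ^ (-ε₁) := Real.rpow_nonneg hL0.le _
      calc 8 * (L : ℝ) ^ (-ε₁) ≤ (L : ℝ) ^ (ε₁ / 2) * (L : ℝ) ^ (-ε₁) := mul_le_mul_of_nonneg_right e3 e4
        _ = (L : ℝ) ^ (ε₁ / 2 + -ε₁) := (Real.rpow_add hL0 _ _).symm
        _ ≤ (L : ℝ) ^ (-εn) := Real.rpow_le_rpow_of_exponent_le hLR (by linarith)
    rw [e1]
    calc 8 * (2 : ℝ) ^ (e0 + 1) ≤ 8 * ((L : ℝ) ^ (-ε₁) * wd' μ s (t / 4)) := by linarith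
      _ = 8 * (L : ℝ) ^ (-ε₁) * wd' μ s (t / 4) := by ring
      _ ≤ (L : ℝ) ^ (-εn) * wd' μ s (t / 4) := mul_le_mul_of_nonneg_right g2 (hwd _).le
  · refine (P1_tvp (L := L) (ε := ε₅) (pr := pr) (Real.exp_pos _).le (Real.exp_pos _).le ?_ hp1).trans
      (ENNReal.ofReal_le_ofReal (show Real.exp (-(L : ℝ) ^ cn) + Real.exp (-(L : ℝ) ^ cX) ≤ 2 * p by linarith))
    exact (Pool.Agent.W_7d29a1_HZ.A12.P1_mono' fun η S _ _ hev hev' => hev (NSp.mono51 hL1 hεn5 hev')).trans hns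

end

end Pool.Agent.W_7d29a1_C0.N51
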