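import Pool.Agent.W_7d29a1_C0.NTD51B
import Pool.Agent.W_7d29a1_C0.E3B52

/-!
C0, helper51: TWO WINDOWS OF DIFFERENT SCALES (`coreD`, asked by helper50). Two alternatives, given the base path outside of `[c, d)`, which
are apart from it on `[τ₁, τ₂ + t₂]` and from each other on `[τ₂, τ₂ + t₂]`: price `(R₁ L ^ ε / EE' t₁) (R₂ L ^ ε / EE' t₂)` for every weight
which is blind to finite changes of the rows of the two windows.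
-/

set_option autoImplicit false

namespace Pool.Agent.W_7d29a1_C0.N51

open MeasureTheory ProbabilityTheory Filter Topology Finset
open Pool.Agent.W_7d29a1_F Pool.Agent.W_7d29a1_X Pool.Agent.W_7d29a1_h4g Pool.Agent.W_7d29a1_H
open Pool.Agent.W_7d29a1_HS (In wd md)
open Pool.Agent.W_7d29a1_HZ
open Pool.Agent.W_7d29a1_HZ.Z86
open Pool.Agent.W_7d29a1_C0.Mod92 (Px Pn lw ps pJ ne_Pn ps_of_le ps_of_ge wm Pm)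
open Pool.Agent.W_7d29a1_C0.P86
open Pool.W7d29a1.C0 (gm)
open Pool.W7d29a1.C0.VT31 (cE)
open scoped ENNReal

noncomputable section

variable {μ : Measure ℝ} {s : ℝ} {N : ℕ}

/-- The mass of two alternatives is monotone in the event, for paths which agree outside of the block. -/
theorem mc3_monoD {y c d : ℕ} {A B : Finset ℕ → Finset ℕ → Finset ℕ → Prop}
    (h : ∀ S a b, S ⊆ range N → a ⊆ range N → b ⊆ range N → (∀ j, j ≤ c ∨ d ≤ j → pos S j = pos a j) →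
      (∀ j, j ≤ c ∨ d ≤ j → pos S j = pos b j) → A S a b → B S a b) (η : Env) (S : Finset ℕ) :
    mc3 μ s N y c d c d A η S ≤ mc3 μ s N y c d c d B η S := by
  classical
  unfold mc3
  by_cases hS : S ∈ Pn N y
  · have : Nonempty (Px (Pn N y)) := ⟨⟨S, hS⟩⟩
    rw [dif_pos hS, dif_pos hS]
    have agr : ∀ u : Px (Pn N y), pJ c d u = pJ c d (⟨S, hS⟩ : Px (Pn N y)) → ∀ j, j ≤ c ∨ d ≤ j → pos S j = pos u.1 j := by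
      intro u hu j hj
      rcases hj with hj | hj
      · exact (ps_of_le hu hj).symm
      · exact (ps_of_ge hu hj).symm
    refine cE_mono_fib _ _ _ fun u hu => ?_
    unfold mc
    rw [dif_pos hS, dif_pos hS]
    refine cE_mono_fib _ _ _ fun v hv => ?_
    by_cases hA : A S u.1 v.1
    · rw [if_pos hA, if_pos (h S u.1 v.1 (mem_powersetCard.1 hS).1 (mem_powersetCard.1 u.2).1 (mem_powersetCard.1 v.2).1 (agr u hu)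
        (agr v hv) hA)]
    · rw [if_neg hA]
      split_ifs <;> norm_num
  · rw [dif_neg hS, dif_neg hS]

theorem on3_ADD {c d c' d' U U' V : ℕ} (hc : c ≤ c') (hU : U ≤ U') (hUV : U ≤ V) (hd : d' ≤ d) :
    On3 c d c d (ADD c' d' U U' V) := by
  have key : ∀ S a a' b b' : Finset ℕ, (∀ i, c ≤ i → i ≤ d → pos a i = pos a' i) → (∀ i, c ≤ i → i ≤ d → pos b i = pos b' i) →
      ADD c' d' U U' V S a b → ADD c' d' U U' V S a' b' := by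
    intro S a a' b b' ha hb h
    obtain ⟨⟨i, i', h1, h2, h3, h4, h5, h6, h7⟩, ⟨j, j', g1, g2, g3, g4, g5, g6, g7⟩, h8⟩ := h
    refine ⟨⟨i, i', h1, h2, h3, h4, ?_, ?_, fun k k1 k2 => ?_⟩, ⟨j, j', g1, g2, g3, g4, ?_, ?_, fun k k1 k2 => ?_⟩, fun k k1 k2 => ?_⟩
    · rw [← ha i (by omega) (by omega)]; exact h5
    · rw [← ha i' (by omega) (by omega)]; exact h6
    · rw [← ha k (by omega) (by omega)]; exact h7 k k1 k2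
    · rw [← hb j (by omega) (by omega)]; exact g5
    · rw [← hb j' (by omega) (by omega)]; exact g6
    · rw [← hb k (by omega) (by omega)]; exact g7 k k1 k2
    · rw [← ha k (by omega) (by omega), ← hb k (by omega) (by omega)]; exact h8 k k1 k2
  intro S a a' b b' ha hb
  exact ⟨key S a a' b b' ha hb, key S a' a b' b (fun i h1 h2 => (ha i h1 h2).symm) fun i h1 h2 => (hb i h1 h2).symm⟩

/-- **THE PLACE OF TWO WINDOWS, all numbers inside.** -/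
theorem pl3D [IsProbabilityMeasure μ] {c₀ C₀ : ℝ} {n₀ : ℕ} (h : In μ s c₀ C₀ n₀) : ∀ ε θ : ℝ, 0 < ε → 0 < θ → ∃ δ c₁ : ℝ, 0 < δ ∧ 0 < c₁ ∧
    ∃ L₀ : ℕ, ∀ L : ℕ, L₀ ≤ L → ∀ N : ℕ, L ≤ 16 * N → N ≤ L → ∀ y : ℤ, 0 ≤ y → y ≤ N →
    |(y : ℝ) - sl μ s * N| ≤ ((L : ℝ) ^ δ * wd' μ s N) → ∀ t₁ t₂ τ₁ τ₂ c d : ℕ, (L : ℝ) ^ θ ≤ t₁ → (L : ℝ) ^ θ ≤ t₂ → 1 ≤ τ₁ →
    τ₁ + t₁ ≤ τ₂ → τ₂ + t₂ ≤ d → d ≤ N → ∀ R₁ R₂ : ℝ, 1 ≤ R₁ → 1 ≤ R₂ → (∀ j : ℕ, 1 ≤ j → j ≤ d - τ₁ → wd' μ s j ≤ R₁ * wd' μ s t₁) →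
    (∀ j : ℕ, 1 ≤ j → j ≤ d - τ₂ → wd' μ s j ≤ R₂ * wd' μ s t₂) →
    Pl3 μ s N y (ENNReal.ofReal ((R₁ * ((L : ℝ) ^ ε * (EE' μ s t₁)⁻¹)) * (R₂ * ((L : ℝ) ^ ε * (EE' μ s t₂)⁻¹))))
      (ENNReal.ofReal (Real.exp (-(L : ℝ) ^ c₁))) (ADD c d τ₁ τ₂ (τ₂ + t₂)) (Ico τ₁ (τ₁ + t₁) ∪ Ico τ₂ (τ₂ + t₂)) (Ioc c d) := by
  intro ε θ hε hθ
  obtain ⟨δ, cm, κ, εn, hδ, hcm, -, hκ, -, L₁, hR⟩ := raw51 h (ε / 5) θ (by positivity) hθ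
  obtain ⟨c₁, hc₁, -, L₂, hPE⟩ := Pool.Agent.W_7d29a1_Z.NumI77.pow_exp hcm (8 + 7 * (ε / 5))
  refine ⟨δ, c₁, hδ, hc₁, L₁ + L₂ + 1, ?_⟩
  intro L hL N hLN hNL y hy0 hyN hyc t₁ t₂ τ₁ τ₂ c d ht₁ ht₂ h1 h12 h2d hdN R₁ R₂ hR₁ hR₂ hw₁ hw₂
  have hL1 : (1 : ℝ) ≤ L := by exact_mod_cast (show 1 ≤ L by omega)
  have hL0 : (0 : ℝ) < L := by linarith
  obtain ⟨hG, hO⟩ := hR L (by omega) N hLN hNL y hy0 hyN hyc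
  have hLκ : (1 : ℝ) ≤ (L : ℝ) ^ κ := Real.one_le_rpow hL1 hκ.le
  have ht0 : ∀ t : ℕ, (L : ℝ) ^ θ ≤ t → 1 ≤ t := fun t ht => by
    have : (1 : ℝ) ≤ t := (Real.one_le_rpow hL1 hθ.le).trans ht
    exact_mod_cast this
  obtain ⟨B₁, hB₁⟩ := hO t₁ ht₁ (by omega) t₁ (le_mul_of_one_le_left (Nat.cast_nonneg _) hLκ)
  obtain ⟨B₂, hB₂⟩ := hO t₂ ht₂ (by omega) t₂ (le_mul_of_one_le_left (Nat.cast_nonneg _) hLκ)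
  have k := plD (c := c) hG (okD_up hB₁ (ht0 t₁ ht₁) hR₁ hw₁) (okD_up hB₂ (ht0 t₂ ht₂) hR₂ hw₂) (by linarith) (by linarith) (ht0 t₁ ht₁) h1
    h12 h2d hdN
  obtain ⟨NT, n1, n2, n3, n4⟩ := k
  have e5 : ((L : ℝ) ^ (ε / 5)) ^ 5 = (L : ℝ) ^ ε := by
    rw [← Real.rpow_natCast, ← Real.rpow_mul hL0.le]
    congr 1
    push_cast
    ring
  have e7 : (L : ℝ) ^ 8 * ((L : ℝ) ^ (ε / 5)) ^ 7 * Real.exp (-(L : ℝ) ^ cm) ≤ Real.exp (-(L : ℝ) ^ c₁) := by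
    refine le_trans (le_of_eq ?_) (hPE L (by omega))
    congr 1
    rw [Real.rpow_add hL0, ← Real.rpow_natCast (((L : ℝ)) ^ (ε / 5)), ← Real.rpow_mul hL0.le, ← Real.rpow_natCast (L : ℝ) 8]
    congr 1
    push_cast
    congr 1
    ring
  rw [e5] at n4
  exact ⟨NT, n1, n2, n3.trans (ENNReal.ofReal_le_ofReal e7), fun F hF hFo => (n4 F hF hFo).trans
    (add_le_add le_rfl (ENNReal.ofReal_le_ofReal e7))⟩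

/-- **THE PRICE OF TWO WINDOWS OF DIFFERENT SCALES, MODEL FORM.** -/
theorem coreD [IsProbabilityMeasure μ] {c₀ C₀ : ℝ} {n₀ : ℕ} (h : In μ s c₀ C₀ n₀) : ∀ ε θ : ℝ, 0 < ε → 0 < θ → ∃ δ κ c₂ : ℝ, 0 < δ ∧
    0 < κ ∧ 0 < c₂ ∧ ∃ L₀ : ℕ, ∀ L : ℕ, L₀ ≤ L → ∀ N : ℕ, L ≤ 16 * N → N ≤ L → ∀ y : ℕ, y ≤ N →
    |(y : ℝ) - sl μ s * N| ≤ ((L : ℝ) ^ δ * wd' μ s N) → ∀ t₁ t₂ τ₁ τ₂ c' d' c d : ℕ, (L : ℝ) ^ θ ≤ t₁ → (L : ℝ) ^ θ ≤ t₂ → c ≤ c' →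
    c' ≤ τ₁ → 1 ≤ τ₁ → τ₁ + t₁ ≤ τ₂ → τ₂ + t₂ ≤ d' → d' ≤ d → d ≤ N → ∀ R₁ R₂ : ℝ, 1 ≤ R₁ → 1 ≤ R₂ →
    (∀ j : ℕ, 1 ≤ j → j ≤ d' - τ₁ → wd' μ s j ≤ R₁ * wd' μ s t₁) → (∀ j : ℕ, 1 ≤ j → j ≤ d' - τ₂ → wd' μ s j ≤ R₂ * wd' μ s t₂) →
    ∀ A : Finset ℕ → Finset ℕ → Finset ℕ → Prop,
    (∀ S a b, S ⊆ range N → a ⊆ range N → b ⊆ range N → (∀ j, j ≤ c ∨ d ≤ j → pos S j = pos a j) →
      (∀ j, j ≤ c ∨ d ≤ j → pos S j = pos b j) → A S a b → ADD c' d' τ₁ τ₂ (τ₂ + t₂) S a b) →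
    ∀ G : Env × Finset ℕ → Px (Pn N y) → ℝ, (∀ ω x, 0 ≤ G ω x) → (∀ ω x, G ω x ≤ 1) →
    (∀ ω x, G ω x ≤ Real.exp ((L : ℝ) ^ κ) * mc3 μ s N y c d c d A ω.1 x.1) →
    ∀ f : Env × Finset ℕ → Px (Pn N y) → ℝ, (∀ A x, Measurable fun η => f (η, A) x) → (∀ ω x, 0 ≤ f ω x) → (∀ ω x, f ω x ≤ 1) →
    (∀ (η η' : Env) A x, (∃ E : Finset Pt, (∀ q ∈ E, 0 ≤ q.1 ∧ q.1.toNat ∈ Ico τ₁ (τ₁ + t₁) ∪ Ico τ₂ (τ₂ + t₂)) ∧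
      ∀ q, q ∉ E → η q = η' q) → f (η, A) x = f (η', A) x) →
    ∫ ω, gm (wm μ s N (Pn N y) ω) (fun x => f ω x * G ω x) ∂(Pm μ N) ≤
      ((R₁ * ((L : ℝ) ^ ε * (EE' μ s t₁)⁻¹)) * (R₂ * ((L : ℝ) ^ ε * (EE' μ s t₂)⁻¹))) *
        ∫ ω, gm (wm μ s N (Pn N y) ω) (f ω) ∂(Pm μ N) + Real.exp (-(L : ℝ) ^ c₂) := by
  intro ε θ hε hθ
  obtain ⟨δ, c₁, hδ, hc₁, L₁, hP⟩ := pl3D (μ := μ) (s := s) h ε θ hε hθ
  obtain ⟨κ, c₂, hκ, hc₂, L₂, hn⟩ := Pool.W7d29a1.C0.E3B52.num_e3 hc₁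
  refine ⟨δ, κ, c₂, hδ, hκ, hc₂, L₁ + L₂ + 1, ?_⟩
  intro L hL N hLN hNL y hyN hyc t₁ t₂ τ₁ τ₂ c' d' c d ht₁ ht₂ hcc hc1 h1 h12 h2d hdd hdN R₁ R₂ hR₁ hR₂ hw₁ hw₂ A hA G hG0 hG1 hGm f
    hfm hf0 hf1 hfo
  have hL1 : (1 : ℝ) ≤ L := by exact_mod_cast (show 1 ≤ L by omega)
  obtain ⟨x, hx⟩ := hn L (by omega) N hNL
  have hpl := hP L (by omega) N hLN hNL y (Int.natCast_nonneg y) (by exact_mod_cast hyN) (by simpa using hyc) t₁ t₂ τ₁ τ₂ c' d' ht₁ ht₂ h1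
    h12 h2d (hdd.trans hdN) R₁ R₂ hR₁ hR₂ hw₁ hw₂
  have hE : ∀ n, (0 : ℝ) ≤ (EE' μ s n)⁻¹ := fun n => inv_nonneg.2 (zero_le_one.trans (le_max_left _ _))
  have hLe : 0 ≤ (L : ℝ) ^ ε := Real.rpow_nonneg (Nat.cast_nonneg _) _
  have hr : 0 ≤ (R₁ * ((L : ℝ) ^ ε * (EE' μ s t₁)⁻¹)) * (R₂ * ((L : ℝ) ^ ε * (EE' μ s t₂)⁻¹)) := by
    have e1 := hE t₁
    have e2 := hE t₂
    positivity
  have k := Pool.W7d29a1.C0.E3B52.int_pl3 (μ := μ) (s := s) (N := N) hyN (c₁ := c) (d₁ := d) (c₂ := c) (d₂ := d) ⟨by omega, hdN⟩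
    ⟨by omega, hdN⟩ (on3_ADD hcc (by omega) (by omega) hdd) hr (Real.exp_pos _).le hpl hG0 hG1 (g := Real.exp ((L : ℝ) ^ κ))
    (Real.exp_pos _).le (fun ω x => (hGm ω x).trans (mul_le_mul_of_nonneg_left (mc3_monoD hA ω.1 x.1) (Real.exp_pos _).le)) x hfm hf0 hf1 hfo
  linarith

end

end Pool.Agent.W_7d29a1_C0.N51
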