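import Pool.Agent.W_7d29a1_C0.NT51I

/-!
C0, helper51: TWO WINDOWS OF DIFFERENT SCALES, first part. The near ties `ND` with two alternatives, the first one told at a window of
the first scale, the second one at a window of the second scale: measurability, rows, price `z₁ z₂`, bad events of the depth, production.
-/

set_option autoImplicit false

namespace Pool.Agent.W_7d29a1_C0.N51

open MeasureTheory ProbabilityTheory Filter Topology Finset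
open Pool.Agent.W_7d29a1_F Pool.Agent.W_7d29a1_X Pool.Agent.W_7d29a1_h4g Pool.Agent.W_7d29a1_H
open Pool.Agent.W_7d29a1_HS (In wd md)
open Pool.Agent.W_7d29a1_HZ Pool.Agent.W_7d29a1_HZ.R72 Pool.Agent.W_7d29a1_Z.Asm72
open Pool.Agent.W_7d29a1_HZ.Z86
open Pool.Agent.W_7d29a1_HZ.Z86.GX (WT)
open Pool.Agent.W_7d29a1_HZ.ZE
open Pool.Agent.W_7d29a1_HZ.Z36 (kk kk_nonneg kk_meas BadC depthC)
open Pool.Agent.W_7d29a1_ZE (Win Br J_sub_JJ)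
open Pool.Agent.W_7d29a1_C0.P86 (ms_and off_and NoMeet)
open scoped ENNReal

noncomputable section

variable {μ : Measure ℝ} {s : ℝ}

/-- **Near ties with two alternatives at two windows.** -/
def ND (μ : Measure ℝ) (s : ℝ) (N : ℕ) (y : ℤ) (B₁ B₂ : Bun) (L : ℕ) (Ws₁ Ws₂ : Finset WT) (c d : ℕ) (M : ℝ) (η : Env)
    (S : Finset ℕ) : Prop :=
  ∃ W ∈ Ws₁ ×ˢ Ws₂, ∃ q ∈ QL L ×ˢ QL L, (NrK μ s B₁.K W.1 q.1 S ∧ NrK μ s B₂.K W.2 q.2 S) ∧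
    (InL μ s (VV N y B₁.pr W.1 q.1).sg (VV N y B₁.pr W.1 q.1).J (VV N y B₁.pr W.1 q.1).Y S ∧
      A12 μ s (VV N y B₁.pr W.1 q.1) (VV N y B₂.pr W.2 q.2) B₁.pr.L B₁.pr.e B₁.pr.C B₁.pr.i₀ B₁.pr.i₁ c d M η S) ∧
    NTB μ s (VV N y B₂.pr W.2 q.2) B₂.pr.L B₂.pr.e B₂.pr.C B₂.pr.i₀ B₂.pr.i₁ c d M η S

theorem nd_ms (N : ℕ) (y : ℤ) (B₁ B₂ : Bun) (L : ℕ) (Ws₁ Ws₂ : Finset WT) (c d : ℕ) (M : ℝ) : Ms (ND μ s N y B₁ B₂ L Ws₁ Ws₂ c d M) :=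
  ms_ex (Ws₁ ×ˢ Ws₂) fun _ => ms_ex (QL L ×ˢ QL L) fun _ => ms_and (ms_path _)
    (ms_and (ms_and (ms_path _) (a12_ms _ _ _ _ _ _ _ _ _ _)) (ntb_ms _ _ _ _ _ _ _ _ _))

theorem nd_off {N : ℕ} {y : ℤ} {B₁ B₂ : Bun} {L : ℕ} {Ws₁ Ws₂ : Finset WT} {c d : ℕ} {M : ℝ} {J' : Finset ℕ}
    (hJ : ∀ j ∈ J', j ≤ c ∨ d < j) : OffRows J' (ND μ s N y B₁ B₂ L Ws₁ Ws₂ c d M) := by
  intro η η' S h
  exact exists_congr fun W => and_congr_right fun _ => exists_congr fun q => and_congr_right fun _ => and_congr_right fun _ =>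
    and_congr (and_congr_right fun _ => a12_off hJ η η' S h) (ntb_off hJ η η' S h)

/-- **The price of two alternatives at two windows.** -/
theorem nd_price [IsProbabilityMeasure μ] {N : ℕ} {y : ℤ} {B₁ B₂ : Bun} {z₁ z₂ dl : ℝ} (hz₁ : 0 ≤ z₁) (hz₂ : 0 ≤ z₂) (hdl : 0 ≤ dl)
    (hT₁ : TieInW μ s B₁.pr N y B₁.n1 B₁.e0 B₁.E z₁ dl) (hT₂ : TieInW μ s B₂.pr N y B₂.n1 B₂.e0 B₂.E z₂ dl)
    {Ws₁ Ws₂ : Finset WT} (hWs₁ : ∀ W ∈ Ws₁, GWk N B₁.n1 B₁.e0 B₁.E B₁.pr.a W) (hWs₂ : ∀ W ∈ Ws₂, GWk N B₂.n1 B₂.e0 B₂.E B₂.pr.a W)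
    {J : Finset ℕ} (hJ₁ : ∀ W ∈ Ws₁, W.2.2 ⊆ J) (hJ₂ : ∀ W ∈ Ws₂, W.2.2 ⊆ J) {L c d : ℕ} {M lm : ℝ} (hM : 1 ≤ M) (hlm : 0 ≤ lm)
    {F : Env → Finset ℕ → Prop} (hF : Ms F) (hFo : OffRows J F) :
    P1 μ s N y (fun η S => F η S ∧ ND μ s N y B₁ B₂ L Ws₁ Ws₂ c d M η S) ≤
      ENNReal.ofReal ((z₂ * M) * (z₁ * (M + lm)) * ((4 * (B₁.K + 1)) * (4 * (B₂.K + 1))) * (Ws₁.card * Ws₂.card)) * P1 μ s N y F +
        ENNReal.ofReal (((z₂ * M) * (dl + ((N : ℝ) + 1) ^ 2 * Real.exp (-lm)) + dl) * (2 * (10 * L + 1)) ^ 2 *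
          (Ws₁.card * Ws₂.card)) := by
  have h1 : P1 μ s N y (fun η S => F η S ∧ ND μ s N y B₁ B₂ L Ws₁ Ws₂ c d M η S) ≤
      ∑ W ∈ Ws₁ ×ˢ Ws₂, ∑ q ∈ QL L ×ˢ QL L, P1 μ s N y (fun η S => ((F η S ∧ NrK μ s B₁.K W.1 q.1 S ∧ NrK μ s B₂.K W.2 q.2 S) ∧
        InL μ s (VV N y B₁.pr W.1 q.1).sg (VV N y B₁.pr W.1 q.1).J (VV N y B₁.pr W.1 q.1).Y S ∧
        A12 μ s (VV N y B₁.pr W.1 q.1) (VV N y B₂.pr W.2 q.2) B₁.pr.L B₁.pr.e B₁.pr.C B₁.pr.i₀ B₁.pr.i₁ c d M η S) ∧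
        NTE μ s (VV N y B₂.pr W.2 q.2) B₂.pr.L B₂.pr.e B₂.pr.C B₂.pr.i₀ B₂.pr.i₁ M η S) := by
    refine (A12.P1_mono' (B := fun η S => ∃ W ∈ Ws₁ ×ˢ Ws₂, ∃ q ∈ QL L ×ˢ QL L,
        ((F η S ∧ NrK μ s B₁.K W.1 q.1 S ∧ NrK μ s B₂.K W.2 q.2 S) ∧
        InL μ s (VV N y B₁.pr W.1 q.1).sg (VV N y B₁.pr W.1 q.1).J (VV N y B₁.pr W.1 q.1).Y S ∧
        A12 μ s (VV N y B₁.pr W.1 q.1) (VV N y B₂.pr W.2 q.2) B₁.pr.L B₁.pr.e B₁.pr.C B₁.pr.i₀ B₁.pr.i₁ c d M η S) ∧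
        NTE μ s (VV N y B₂.pr W.2 q.2) B₂.pr.L B₂.pr.e B₂.pr.C B₂.pr.i₀ B₂.pr.i₁ M η S) fun η S _ _ h => ?_).trans ?_
    · obtain ⟨hF', W, hW, q, hq, h2, h3, h4⟩ := h
      exact ⟨W, hW, q, hq, ⟨⟨hF', h2⟩, h3⟩, nte_of_ntb h4⟩
    · refine (A12.P1_exists (μ := μ) (s := s) (N := N) (y := y) (Ws₁ ×ˢ Ws₂) _).trans (sum_le_sum fun W _ => ?_)
      exact A12.P1_exists (μ := μ) (s := s) (N := N) (y := y) (QL L ×ˢ QL L) _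
  refine h1.trans ?_
  have hx0 : 0 ≤ z₂ * M := mul_nonneg hz₂ (by linarith)
  have hx1 : 0 ≤ z₁ * (M + lm) := mul_nonneg hz₁ (by linarith)
  have hw0 : 0 ≤ dl + ((N : ℝ) + 1) ^ 2 * Real.exp (-lm) := by positivity
  have hQc : (QL L ×ˢ QL L).card = (2 * (10 * L + 1)) ^ 2 := by rw [card_product, QL_card, sq]
  have h2 : ∀ W ∈ Ws₁ ×ˢ Ws₂, ∑ q ∈ QL L ×ˢ QL L, P1 μ s N y (fun η S => ((F η S ∧ NrK μ s B₁.K W.1 q.1 S ∧ NrK μ s B₂.K W.2 q.2 S) ∧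
        InL μ s (VV N y B₁.pr W.1 q.1).sg (VV N y B₁.pr W.1 q.1).J (VV N y B₁.pr W.1 q.1).Y S ∧
        A12 μ s (VV N y B₁.pr W.1 q.1) (VV N y B₂.pr W.2 q.2) B₁.pr.L B₁.pr.e B₁.pr.C B₁.pr.i₀ B₁.pr.i₁ c d M η S) ∧
        NTE μ s (VV N y B₂.pr W.2 q.2) B₂.pr.L B₂.pr.e B₂.pr.C B₂.pr.i₀ B₂.pr.i₁ M η S) ≤
      ENNReal.ofReal ((z₂ * M) * (z₁ * (M + lm)) * ((4 * (B₁.K + 1)) * (4 * (B₂.K + 1)))) * P1 μ s N y F +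
        ENNReal.ofReal (((z₂ * M) * (dl + ((N : ℝ) + 1) ^ 2 * Real.exp (-lm)) + dl) * (2 * (10 * L + 1)) ^ 2) := by
    intro W hW
    rw [mem_product] at hW
    have h3 : ∀ q ∈ QL L ×ˢ QL L, P1 μ s N y (fun η S => ((F η S ∧ NrK μ s B₁.K W.1 q.1 S ∧ NrK μ s B₂.K W.2 q.2 S) ∧
        InL μ s (VV N y B₁.pr W.1 q.1).sg (VV N y B₁.pr W.1 q.1).J (VV N y B₁.pr W.1 q.1).Y S ∧
        A12 μ s (VV N y B₁.pr W.1 q.1) (VV N y B₂.pr W.2 q.2) B₁.pr.L B₁.pr.e B₁.pr.C B₁.pr.i₀ B₁.pr.i₁ c d M η S) ∧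
        NTE μ s (VV N y B₂.pr W.2 q.2) B₂.pr.L B₂.pr.e B₂.pr.C B₂.pr.i₀ B₂.pr.i₁ M η S) ≤
        ENNReal.ofReal ((z₂ * M) * (z₁ * (M + lm))) *
            P1 μ s N y (fun η S => F η S ∧ NrK μ s B₁.K W.1 q.1 S ∧ NrK μ s B₂.K W.2 q.2 S) +
          ENNReal.ofReal ((z₂ * M) * (dl + ((N : ℝ) + 1) ^ 2 * Real.exp (-lm)) + dl) := by
      intro q hq
      rw [mem_product] at hq
      obtain ⟨V₁, hV₁⟩ : ∃ V₁, V₁ = VV N y B₁.pr W.1 q.1 := ⟨_, rfl⟩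
      obtain ⟨V₂, hV₂⟩ : ∃ V₂, V₂ = VV N y B₂.pr W.2 q.2 := ⟨_, rfl⟩
      have hF2 : Ms fun η S => F η S ∧ NrK μ s B₁.K W.1 q.1 S ∧ NrK μ s B₂.K W.2 q.2 S := ms_and hF (ms_path _)
      have t2 := tie_ev hT₂ (hWs₂ W.2 hW.2) (QL_sgn hq.2) hM
        (B := fun η S => (F η S ∧ NrK μ s B₁.K W.1 q.1 S ∧ NrK μ s B₂.K W.2 q.2 S) ∧
        InL μ s (VV N y B₁.pr W.1 q.1).sg (VV N y B₁.pr W.1 q.1).J (VV N y B₁.pr W.1 q.1).Y S ∧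
        A12 μ s (VV N y B₁.pr W.1 q.1) (VV N y B₂.pr W.2 q.2) B₁.pr.L B₁.pr.e B₁.pr.C B₁.pr.i₀ B₁.pr.i₁ c d M η S)
        (ms_and hF2 (ms_and (ms_path _) (a12_ms _ _ _ _ _ _ _ _ _ _)))
        (fun η η' S h => and_congr (and_congr_left fun _ => blind_of_off hFo (hJ₂ W.2 hW.2) η η' S h)
          (and_congr_right fun _ => a12_blind h S))
      have t1 := tie_ev hT₁ (hWs₁ W.1 hW.1) (QL_sgn hq.1) (show 1 ≤ M + lm by linarith)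
        (B := fun η S => F η S ∧ NrK μ s B₁.K W.1 q.1 S ∧ NrK μ s B₂.K W.2 q.2 S) hF2
        (fun η η' S h => and_congr_left fun _ => blind_of_off hFo (hJ₁ W.1 hW.1) η η' S h)
      rw [← hV₁, ← hV₂] at t2
      rw [← hV₁] at t1
      rw [← hV₁, ← hV₂]
      have hlow := low_pr (μ := μ) (s := s) (V₁ := V₁) (V₂ := V₂) (by rw [hV₁, hV₂]; rfl) (by rw [hV₁]; exact le_rfl)
        (by rw [hV₂]; exact le_rfl) (by rw [hV₁]; exact winE_J_ne (hWs₁ W.1 hW.1).ne) (y := y) lm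
      have hN1 : V₁.N = N := by rw [hV₁]; rfl
      rw [hN1] at hlow
      refine t2.trans ?_
      have t3 : P1 μ s N y (fun η S => ((F η S ∧ NrK μ s B₁.K W.1 q.1 S ∧ NrK μ s B₂.K W.2 q.2 S) ∧ InL μ s V₁.sg V₁.J V₁.Y S ∧
          A12 μ s V₁ V₂ B₁.pr.L B₁.pr.e B₁.pr.C B₁.pr.i₀ B₁.pr.i₁ c d M η S) ∧ InL μ s V₂.sg V₂.J V₂.Y S) ≤
          P1 μ s N y (fun η S => (F η S ∧ NrK μ s B₁.K W.1 q.1 S ∧ NrK μ s B₂.K W.2 q.2 S) ∧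
            NTE μ s V₁ B₁.pr.L B₁.pr.e B₁.pr.C B₁.pr.i₀ B₁.pr.i₁ (M + lm) η S) +
            P1 μ s N y (Low μ s V₁ V₂ lm) := by
        refine (A12.P1_mono' (B := fun η S => ((F η S ∧ NrK μ s B₁.K W.1 q.1 S ∧ NrK μ s B₂.K W.2 q.2 S) ∧
          NTE μ s V₁ B₁.pr.L B₁.pr.e B₁.pr.C B₁.pr.i₀ B₁.pr.i₁ (M + lm) η S) ∨ Low μ s V₁ V₂ lm η S)
          fun η S _ _ h => ?_).trans (A12.P1_or _ _)
        by_cases hl : Low μ s V₁ V₂ lm η S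
        · exact Or.inr hl
        · exact Or.inl ⟨h.1.1, nte_of_a12 (by rw [hV₁]; exact le_rfl) h.1.2.2 hl h.1.2.1 h.2⟩
      have t4 := t1.trans (add_le_add (mul_le_mul' le_rfl (A12.P1_mono' (μ := μ) (s := s) (N := N) (y := y)
        (B := fun η S => F η S ∧ NrK μ s B₁.K W.1 q.1 S ∧ NrK μ s B₂.K W.2 q.2 S) fun η S _ _ h => h.1)) le_rfl)
      refine (add_le_add (mul_le_mul' le_rfl (t3.trans (add_le_add t4 hlow))) le_rfl).trans (le_of_eq ?_)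
      rw [mul_add, mul_add, ← mul_assoc, ← ENNReal.ofReal_mul hx0, ← ENNReal.ofReal_mul hx0, ← ENNReal.ofReal_mul hx0, add_assoc,
        add_assoc, ← ENNReal.ofReal_add (by positivity) hdl, ← ENNReal.ofReal_add (by positivity) (by positivity)]
      congr 2
      ring
    refine (sum_le_sum h3).trans ?_
    rw [sum_add_distrib, ← mul_sum, sum_const, nsmul_eq_mul]
    refine add_le_add ?_ ?_
    · have h4 : ∑ q ∈ QL L ×ˢ QL L, P1 μ s N y (fun η S => F η S ∧ NrK μ s B₁.K W.1 q.1 S ∧ NrK μ s B₂.K W.2 q.2 S) ≤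
          (((4 * (B₁.K + 1)) * (4 * (B₂.K + 1)) : ℕ) : ℝ≥0∞) * P1 μ s N y F := by
        refine P1_cnt (QL L ×ˢ QL L) (fun q S => NrK μ s B₁.K W.1 q.1 S ∧ NrK μ s B₂.K W.2 q.2 S) ((4 * (B₁.K + 1)) * (4 * (B₂.K + 1)))
          fun S => ?_
        obtain ⟨Q₁, g1, g2⟩ := count_K (μ := μ) (s := s) L B₁.K W.1 S
        obtain ⟨Q₂, g3, g4⟩ := count_K (μ := μ) (s := s) L B₂.K W.2 S
        refine ⟨Q₁ ×ˢ Q₂, ?_, fun q hq hN => ?_⟩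
        · rw [card_product]
          exact Nat.mul_le_mul g1 g3
        · rw [mem_product] at hq
          exact mem_product.2 ⟨g2 _ hq.1 hN.1, g4 _ hq.2 hN.2⟩
      refine (mul_le_mul' le_rfl h4).trans ?_
      rw [← mul_assoc]
      refine mul_le_mul' ?_ le_rfl
      rw [mul_comm]
      refine cast_const (by positivity) _ (le_of_eq ?_)
      push_cast
      ring
    · refine cast_const (by positivity) _ (le_of_eq ?_)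
      rw [hQc]
      push_cast
      ring
  refine (sum_le_sum h2).trans ?_
  rw [sum_const, nsmul_eq_mul, mul_add, ← mul_assoc]
  have hc : ((Ws₁ ×ˢ Ws₂).card : ℝ) = Ws₁.card * Ws₂.card := by rw [card_product]; push_cast; rfl
  refine add_le_add (mul_le_mul' (cast_const (by positivity) _ (le_of_eq ?_)) le_rfl) (cast_const (by positivity) _ (le_of_eq ?_))
  · rw [hc]
  · rw [hc]

/-! ### The bad events -/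

/-- The bad events of the depth at two windows. -/
def BadD (μ : Measure ℝ) (s : ℝ) (N : ℕ) (y : ℤ) (B₁ B₂ : Bun) (L : ℕ) (Ws₁ Ws₂ : Finset WT) (lm : ℝ) (η : Env)
    (S' S : Finset ℕ) : Prop :=
  ∃ i ∈ ((Ws₁ ×ˢ Ws₂) ×ˢ (QL L ×ˢ QL L)) ×ˢ ((range (N + 1)) ×ˢ (range (N + 1))),
    ((i.2.1 ≤ i.2.2 ∧ i.2.2 ≤ N) ∧ ∀ k ∈ (VV N y B₁.pr i.1.1.1 i.1.2.1).JJ ∪ (VV N y B₂.pr i.1.1.2 i.1.2.2).JJ,
      i.2.1 ≤ k ∧ k ≤ i.2.2) ∧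
    BadC μ s (fun _ => 0) i.2.1 i.2.2 ∅ (cLL μ s (VV N y B₁.pr i.1.1.1 i.1.2.1) (VV N y B₂.pr i.1.1.2 i.1.2.2))
      (cEL μ s (VV N y B₁.pr i.1.1.1 i.1.2.1) (VV N y B₂.pr i.1.1.2 i.1.2.2) B₁.pr.L B₁.pr.e B₁.pr.C B₁.pr.i₀ B₁.pr.i₁) lm η S' S

theorem badD_pr [IsProbabilityMeasure μ] {N : ℕ} {y : ℤ} {B₁ B₂ : Bun} (hia : B₁.pr.i₁ ≤ B₁.pr.a) {L : ℕ} {Ws₁ Ws₂ : Finset WT}
    {lm : ℝ} : P2 μ s N y (fun _ => 0) (BadD μ s N y B₁ B₂ L Ws₁ Ws₂ lm) ≤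
      ENNReal.ofReal (((Ws₁.card : ℝ) * Ws₂.card) * (2 * (10 * L + 1)) ^ 2 * ((N : ℝ) + 1) ^ 2 * (3 * Real.exp (-lm))) := by
  have h1 := Z74.P2_ex_le (μ := μ) (s := s) (N := N) (y := y) (v := fun _ => 0)
    (((Ws₁ ×ˢ Ws₂) ×ˢ (QL L ×ˢ QL L)) ×ˢ ((range (N + 1)) ×ˢ (range (N + 1))))
    (fun i η S' S => ((i.2.1 ≤ i.2.2 ∧ i.2.2 ≤ N) ∧ ∀ k ∈ (VV N y B₁.pr i.1.1.1 i.1.2.1).JJ ∪ (VV N y B₂.pr i.1.1.2 i.1.2.2).JJ,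
        i.2.1 ≤ k ∧ k ≤ i.2.2) ∧
      BadC μ s (fun _ => 0) i.2.1 i.2.2 ∅ (cLL μ s (VV N y B₁.pr i.1.1.1 i.1.2.1) (VV N y B₂.pr i.1.1.2 i.1.2.2))
        (cEL μ s (VV N y B₁.pr i.1.1.1 i.1.2.1) (VV N y B₂.pr i.1.1.2 i.1.2.2) B₁.pr.L B₁.pr.e B₁.pr.C B₁.pr.i₀ B₁.pr.i₁) lm η S' S)
    (c := ENNReal.ofReal (3 * Real.exp (-lm))) (fun i _ => Z74.P2_and_le fun hc => by
      obtain ⟨⟨c1, c2⟩, c4⟩ := hc
      exact depthC (fun _ => 0) c1 c2 c4 (Pool.Agent.W_7d29a1_C0.P86.pcs_zero _ _ _) (locLL _ _) (locEL _ _ _ _ _ _ hia) lm)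
  refine h1.trans (cast_const (by positivity) _ (le_of_eq ?_))
  rw [card_product, card_product, card_product, card_product, card_product, card_range, QL_card]
  push_cast
  ring

/-! ### Production -/

/-- **Production at two windows**, `b` being the extreme path at the second one. -/
theorem prodDe {N t₁ t₂ τ₁ τ₂ : ℕ} {B₁ B₂ : Bun} {L : ℕ} {W₁ W₂ : WT} {k₁ k₂ : ℕ}
    (h₁ : Ar μ s N t₁ τ₁ B₁.n1 B₁.e0 B₁.E B₁.pr L B₁.K W₁ k₁) (h₂ : Ar μ s N t₂ τ₂ B₂.n1 B₂.e0 B₂.E B₂.pr L B₂.K W₂ k₂)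
    (y : ℤ) {Ws₁ Ws₂ : Finset WT} (hW₁ : W₁ ∈ Ws₁) (hW₂ : W₂ ∈ Ws₂) {η : Env} {lm M : ℝ} (hM : 3 * lm ≤ M) {S a b : Finset ℕ}
    (hS₁ : FlatP μ s N B₁.e0 B₁.E B₁.n1 S) (hS₂ : FlatP μ s N B₂.e0 B₂.E B₂.n1 S)
    (ha₁ : FlatP μ s N B₁.e0 B₁.E B₁.n1 a) (ha₂ : FlatP μ s N B₂.e0 B₂.E B₂.n1 a) (hb₂ : FlatP μ s N B₂.e0 B₂.E B₂.n1 b)
    (hTVa : TVp μ s N B₁.pr a) (hTVb : TVp μ s N B₂.pr b)
    (hBb : ¬ Bad2 μ s N y B₂.pr L Ws₂ lm η b S) (hBa : ¬ BadD μ s N y B₁ B₂ L Ws₁ Ws₂ lm η a S)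
    (hda : (2 : ℤ) ^ (B₁.e0 + 4) ≤ |pos S k₁ - pos a k₁|) {sg : ℤ} (hsg : sg = 1 ∨ sg = -1)
    (hdb : 2 ^ (B₂.e0 + 4) ≤ sg * (pos b k₂ - pos S k₂)) (hdab : 2 ^ (B₂.e0 + 4) ≤ sg * (pos b k₂ - pos a k₂))
    (hKa : |pos S k₁ - pos a k₁| ≤ ((B₁.K - 6 : ℕ) : ℤ) * 2 ^ B₁.e0) (hKb : |pos S k₂ - pos b k₂| ≤ ((B₂.K - 6 : ℕ) : ℤ) * 2 ^ B₂.e0)
    {c d i i' j j' : ℕ} (hci : c ≤ i) (hik₁ : ∀ k ∈ W₁.2.2, i < k ∧ k < i') (hik₂ : ∀ k ∈ W₂.2.2, i < k ∧ k < i') (hii : i ≤ i')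
    (hi : pos S i = pos a i) (hi'd : i' ≤ d)
    (hdN : d ≤ N) (hi' : pos S i' = pos a i') (hcj : c ≤ j) (hjk : ∀ k ∈ W₂.2.2, j < k ∧ k < j') (hjj : j ≤ j') (hj : pos S j = pos b j)
    (hj'd : j' ≤ d) (hj' : pos S j' = pos b j') : ND μ s N y B₁ B₂ L Ws₁ Ws₂ c d M η S := by
  obtain ⟨sg', hsg', hua⟩ : ∃ sg' : ℤ, (sg' = 1 ∨ sg' = -1) ∧ 2 ^ (B₁.e0 + 4) ≤ sg' * (pos a k₁ - pos S k₁) := by
    rcases le_total 0 (pos a k₁ - pos S k₁) with g | g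
    · refine ⟨1, Or.inl rfl, ?_⟩
      rw [abs_sub_comm, abs_of_nonneg g] at hda
      linarith
    · refine ⟨-1, Or.inr rfl, ?_⟩
      rw [abs_sub_comm, abs_of_nonpos g] at hda
      linarith
  obtain ⟨Y, q1, q2, q3, q4⟩ := line51 h₂ y hsg hb₂ hTVb
  obtain ⟨Y', p1, p2, p3, p4⟩ := line51 h₁ y hsg' ha₁ hTVa
  refine ⟨(W₁, W₂), mem_product.2 ⟨hW₁, hW₂⟩, ((sg', Y'), (sg, Y)), mem_product.2 ⟨p1, q1⟩,
    ⟨p4 S hS₁ (by rw [abs_sub_comm]; exact hKa), q4 S hS₂ (by rw [abs_sub_comm]; exact hKb)⟩,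
    ⟨p3 S hS₁ hua, (i, i'), ?_, ⟨hci, hi'd⟩, ?_⟩, q3 S hS₂ hdb, (j, j'), ?_, ⟨hcj, hj'd⟩, ?_⟩
  · rw [mem_Br2]
    refine ⟨⟨?_, ?_⟩, fun k hk => ?_⟩
    · show i ≤ N
      omega
    · show i' ≤ N
      omega
    · rw [mem_union] at hk
      rcases hk with hk | hk
      · exact hik₁ k (VV_JJ N y B₁.pr W₁ _ hk)
      · exact hik₂ k (VV_JJ N y B₂.pr W₂ _ hk)
  · refine depth_use (S := a) (lm := lm) (fun hB => hBa ⟨(((W₁, W₂), ((sg', Y'), (sg, Y))), (i, i')), ?_, ⟨⟨hii, ?_⟩, fun k hk => ?_⟩,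
      hB⟩) hi.symm hi'.symm ⟨p3 S hS₁ hua, q3 S hS₂ hdb⟩ ⟨p2, q3 a ha₂ hdab⟩ hM
    · rw [mem_product, mem_product, mem_product, mem_product, mem_product, mem_range, mem_range]
      refine ⟨⟨⟨hW₁, hW₂⟩, p1, q1⟩, ?_, ?_⟩
      · show i < N + 1
        omega
      · show i' < N + 1
        omega
    · show i' ≤ N
      omega
    · rw [mem_union] at hk
      have : i < k ∧ k < i' := by
        rcases hk with hk | hk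
        · exact hik₁ k (VV_JJ N y B₁.pr W₁ _ hk)
        · exact hik₂ k (VV_JJ N y B₂.pr W₂ _ hk)
      exact ⟨this.1.le, this.2.le⟩
  · unfold Br
    rw [mem_filter, mem_product, mem_range, mem_range]
    refine ⟨⟨?_, ?_⟩, ?_, fun k hk => ?_⟩
    · show j < N + 1
      omega
    · show j' < N + 1
      omega
    · show j' ≤ j + N
      omega
    · exact hjk k (VV_J N y B₂.pr W₂ _ hk)
  · refine depth_use (S := b) (lm := lm) (fun hB => hBb ⟨((W₂, (sg, Y)), (j, j')), ?_, ⟨⟨hjj, ?_⟩, fun k hk => ?_⟩, hB⟩) hj.symm hj'.symm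
      (q3 S hS₂ hdb) q2 hM
    · rw [mem_product, mem_product, mem_product, mem_range, mem_range]
      refine ⟨⟨hW₂, q1⟩, ?_, ?_⟩
      · show j < N + 1
        omega
      · show j' < N + 1
        omega
    · show j' ≤ N
      omega
    · have := hjk k (VV_JJ N y B₂.pr W₂ _ hk)
      exact ⟨this.1.le, this.2.le⟩

end

end Pool.Agent.W_7d29a1_C0.N51
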