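import Pool.Agent.W_7d29a1_C0.NTD51A

/-!
C0, helper51: TWO WINDOWS OF DIFFERENT SCALES, second part. The regular event `GD51`, the numbers, the place `Pl3` of two alternatives
which are apart from the base path on `[τ₁, τ₂ + t₂]` and from each other on `[τ₂, τ₂ + t₂]`: price `(R₁ x ^ 5 / EE' t₁) (R₂ x ^ 5 / EE' t₂)`.
-/

set_option autoImplicit false

namespace Pool.Agent.W_7d29a1_C0.N51

open MeasureTheory ProbabilityTheory Filter Topology Finset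
open Pool.Agent.W_7d29a1_F Pool.Agent.W_7d29a1_X Pool.Agent.W_7d29a1_h4g Pool.Agent.W_7d29a1_H
open Pool.Agent.W_7d29a1_HS (In wd md)
open Pool.Agent.W_7d29a1_HZ Pool.Agent.W_7d29a1_HZ.R72 Pool.Agent.W_7d29a1_Z.Asm72
open Pool.Agent.W_7d29a1_HZ.Z86
open Pool.Agent.W_7d29a1_HZ.Z86.GX (WT)
open Pool.Agent.W_7d29a1_HZ.ZE
open Pool.Agent.W_7d29a1_C0.P86 (NoMeet Gap)
open scoped ENNReal

noncomputable section

variable {μ : Measure ℝ} {s : ℝ}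

/-! ### The numbers of one scale with a ratio -/

/-- The numbers of the scale `t`, closings within `H`, `wd' j ≤ R wd' t` there. -/
structure OkD (μ : Measure ℝ) (s : ℝ) (N t H L : ℕ) (y : ℤ) (x p ε R : ℝ) (B : Bun) : Prop where
  pok : POk μ s t B.n1 B.e0 B.E B.pr
  tG : TieInG μ s B.pr N y B.n1 B.e0 B.E (x / EE' μ s t) p
  sp : SpN μ s L t B.e0 ε B.m B.n
  n1t : B.n1 B.e0 ≤ t
  eE : B.e0 ≤ B.E
  E3 : 2 ^ (B.E + 3) ≤ L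
  K6 : 6 ≤ B.K
  Kx : 16 * ((B.K : ℝ) + 1) ≤ 10 * (x * R)
  near : ∀ j : ℕ, 1 ≤ j → j ≤ H → 2 * ((L : ℝ) ^ ε * wd' μ s j) ≤ ((B.K - 6 : ℕ) : ℝ) * 2 ^ B.e0
  flat : ∀ S, S ⊆ range N → NSp μ s L N ε S → FlatP μ s N B.e0 B.E B.n1 S
  card : ∀ τ, ((B.Ws N t τ).card : ℝ) ≤ 3 * x
  quart : (L : ℝ) ^ ε ≤ ((t / 4 : ℕ) : ℝ)
  q4 : (2 : ℝ) ^ (B.e0 + 4) ≤ (L : ℝ) ^ (-ε) * wd' μ s (t / 4)
  tv : P1 μ s N y (fun _ S => ¬ TVp μ s N B.pr S) ≤ ENNReal.ofReal (2 * p)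

/-- More lines. -/
def Bun.up (B : Bun) (k : ℕ) : Bun := ⟨B.n1, B.e0, B.E, k * B.K, B.pr, B.m, B.n⟩

theorem okD_up {N t H L : ℕ} {y : ℤ} {x p ε R : ℝ} {B : Bun} (h : Ok51 μ s N t t L y x p ε B) (ht : 1 ≤ t) (hR : 1 ≤ R)
    (hH : ∀ j : ℕ, 1 ≤ j → j ≤ H → wd' μ s j ≤ R * wd' μ s t) : OkD μ s N t H L y x p ε R (B.up ⌈R⌉₊) := by
  obtain ⟨k, hk⟩ : ∃ k : ℕ, k = ⌈R⌉₊ := ⟨_, rfl⟩
  rw [← hk]
  have hk1 : R ≤ k := by rw [hk]; exact Nat.le_ceil R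
  have hk2 : (k : ℝ) ≤ 2 * R := by
    have := Nat.ceil_lt_add_one (show 0 ≤ R by linarith)
    rw [hk]
    linarith
  have hk3 : 1 ≤ k := by
    have : (1 : ℝ) ≤ k := by linarith
    exact_mod_cast this
  have hK6 := h.K6
  have hKk : B.K ≤ k * B.K := Nat.le_mul_of_pos_left _ (by omega)
  refine ⟨h.pok, h.tG, h.sp, h.n1t, h.eE, h.E3, hK6.trans hKk, ?_, fun j hj1 hj2 => ?_, h.flat, h.card, h.quart, h.q4, h.tv⟩
  · show 16 * (((k * B.K : ℕ) : ℝ) + 1) ≤ 10 * (x * R)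
    have h1 := h.Kx
    have h2 : (1 : ℝ) ≤ k := by exact_mod_cast hk3
    have h3 : ((k * B.K : ℕ) : ℝ) + 1 ≤ k * ((B.K : ℝ) + 1) := by
      push_cast
      linarith
    have h0 : (0 : ℝ) ≤ (B.K : ℝ) + 1 := by positivity
    calc 16 * (((k * B.K : ℕ) : ℝ) + 1) ≤ k * (16 * ((B.K : ℝ) + 1)) := by linarith
      _ ≤ (2 * R) * (5 * x) := mul_le_mul hk2 h1 (by positivity) (by linarith)
      _ = 10 * (x * R) := by ring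
  · show 2 * ((L : ℝ) ^ ε * wd' μ s j) ≤ ((k * B.K - 6 : ℕ) : ℝ) * 2 ^ B.e0
    have h1 := h.near t ht le_rfl
    have h2 := hH j hj1 hj2
    have hL : 0 ≤ (L : ℝ) ^ ε := Real.rpow_nonneg (Nat.cast_nonneg _) _
    have hw : 0 ≤ wd' μ s t := zero_le_one.trans (le_max_left _ _)
    have h3 : 2 * ((L : ℝ) ^ ε * wd' μ s j) ≤ R * (2 * ((L : ℝ) ^ ε * wd' μ s t)) := by
      have := mul_le_mul_of_nonneg_left h2 hL
      calc _ ≤ 2 * ((L : ℝ) ^ ε * (R * wd' μ s t)) := by linarith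
        _ = _ := by ring
    have h4 : R * (2 * ((L : ℝ) ^ ε * wd' μ s t)) ≤ k * (((B.K - 6 : ℕ) : ℝ) * 2 ^ B.e0) :=
      mul_le_mul hk1 h1 (by positivity) (Nat.cast_nonneg _)
    refine h3.trans (h4.trans ?_)
    rw [← mul_assoc]
    refine mul_le_mul_of_nonneg_right ?_ (by positivity)
    have h5 : k * (B.K - 6) ≤ k * B.K - 6 := by
      have h6 : k * (B.K - 6) + 6 ≤ k * B.K := by
        have e1 : k * (B.K - 6) + k * 6 = k * B.K := by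
          rw [← Nat.mul_add]
          congr 1
          omega
        omega
      omega
    exact_mod_cast h5

/-! ### The regular event -/

/-- Everything is regular for the two windows. -/
structure GD51 (μ : Measure ℝ) (s : ℝ) (N : ℕ) (y : ℤ) (L : ℕ) (ε : ℝ) (B₁ B₂ : Bun) (Ws₁ Ws₂ : Finset WT) (lm : ℝ) (η : Env)
    (S a b : Finset ℕ) : Prop where
  nS : NSp μ s L N ε S
  na : NSp μ s L N ε a
  nb : NSp μ s L N ε b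
  f1S : FlatP μ s N B₁.e0 B₁.E B₁.n1 S
  f1a : FlatP μ s N B₁.e0 B₁.E B₁.n1 a
  f1b : FlatP μ s N B₁.e0 B₁.E B₁.n1 b
  f2S : FlatP μ s N B₂.e0 B₂.E B₂.n1 S
  f2a : FlatP μ s N B₂.e0 B₂.E B₂.n1 a
  f2b : FlatP μ s N B₂.e0 B₂.E B₂.n1 b
  t1a : TVp μ s N B₁.pr a
  t1b : TVp μ s N B₁.pr b
  t2a : TVp μ s N B₂.pr a
  t2b : TVp μ s N B₂.pr b
  cSa : ¬ Close μ s L N ε (fun _ => 0) S a
  cSb : ¬ Close μ s L N ε (fun _ => 0) S b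
  cab : ¬ Close μ s L N ε (fun _ => 0) a b
  b2a : ¬ Bad2 μ s N y B₂.pr L Ws₂ lm η a S
  b2b : ¬ Bad2 μ s N y B₂.pr L Ws₂ lm η b S
  bDa : ¬ BadD μ s N y B₁ B₂ L Ws₁ Ws₂ lm η a S
  bDb : ¬ BadD μ s N y B₁ B₂ L Ws₁ Ws₂ lm η b S

theorem GD51.swp {N : ℕ} {y : ℤ} {L : ℕ} {ε : ℝ} {B₁ B₂ : Bun} {Ws₁ Ws₂ : Finset WT} {lm : ℝ} {η : Env} {S a b : Finset ℕ}
    (h : GD51 μ s N y L ε B₁ B₂ Ws₁ Ws₂ lm η S a b) : GD51 μ s N y L ε B₁ B₂ Ws₁ Ws₂ lm η S b a :=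
  ⟨h.nS, h.nb, h.na, h.f1S, h.f1b, h.f1a, h.f2S, h.f2b, h.f2a, h.t1b, h.t1a, h.t2b, h.t2a, h.cSb, h.cSa, fun g => h.cab (close_symm g),
    h.b2b, h.b2a, h.bDb, h.bDa⟩

theorem gD_pr [IsProbabilityMeasure μ] {N : ℕ} {y : ℤ} (hy0 : 0 ≤ y) (hyN : y ≤ N) {L : ℕ} {ε : ℝ} {B₁ B₂ : Bun}
    {Ws₁ Ws₂ : Finset WT} {lm : ℝ} (hfl₁ : ∀ S, S ⊆ range N → NSp μ s L N ε S → FlatP μ s N B₁.e0 B₁.E B₁.n1 S)
    (hfl₂ : ∀ S, S ⊆ range N → NSp μ s L N ε S → FlatP μ s N B₂.e0 B₂.E B₂.n1 S) {q : ℝ} (_hq : 0 ≤ q)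
    (hns : P1 μ s N y (fun _ S => ¬ NSp μ s L N ε S) ≤ ENNReal.ofReal q)
    (ht₁ : P1 μ s N y (fun _ S => ¬ TVp μ s N B₁.pr S) ≤ ENNReal.ofReal q)
    (ht₂ : P1 μ s N y (fun _ S => ¬ TVp μ s N B₂.pr S) ≤ ENNReal.ofReal q)
    (hcl : P2 μ s N y (fun _ => 0) (fun _ S S' => Close μ s L N ε (fun _ => 0) S S') ≤ ENNReal.ofReal q)
    (hb2 : P2 μ s N y (fun _ => 0) (Bad2 μ s N y B₂.pr L Ws₂ lm) ≤ ENNReal.ofReal q)
    (hbD : P2 μ s N y (fun _ => 0) (BadD μ s N y B₁ B₂ L Ws₁ Ws₂ lm) ≤ ENNReal.ofReal q) :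
    P3 μ s N y (fun η S a b => ¬ GD51 μ s N y L ε B₁ B₂ Ws₁ Ws₂ lm η S a b) ≤ ENNReal.ofReal (14 * q) := by
  have h0 : P3 μ s N y (fun η S a b => ¬ GD51 μ s N y L ε B₁ B₂ Ws₁ Ws₂ lm η S a b) ≤ P3 μ s N y (fun η S a b =>
      ¬ NSp μ s L N ε S ∨ (¬ NSp μ s L N ε a ∨ (¬ NSp μ s L N ε b ∨ (¬ TVp μ s N B₁.pr a ∨ (¬ TVp μ s N B₁.pr b ∨
      (¬ TVp μ s N B₂.pr a ∨ (¬ TVp μ s N B₂.pr b ∨
      (Close μ s L N ε (fun _ => 0) S a ∨ (Close μ s L N ε (fun _ => 0) S b ∨ (Close μ s L N ε (fun _ => 0) a b ∨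
      (Bad2 μ s N y B₂.pr L Ws₂ lm η a S ∨ (Bad2 μ s N y B₂.pr L Ws₂ lm η b S ∨
      (BadD μ s N y B₁ B₂ L Ws₁ Ws₂ lm η a S ∨ BadD μ s N y B₁ B₂ L Ws₁ Ws₂ lm η b S))))))))))))) := by
    refine P3_mono' fun η S a b hS ha hb _ _ _ hev => ?_
    by_contra hcon
    simp only [not_or, not_not] at hcon
    obtain ⟨c1, c2, c3, c4, c5, c6, c7, c8, c9, c10, c11, c12, c13, c14⟩ := hcon
    exact hev ⟨c1, c2, c3, hfl₁ S hS c1, hfl₁ a ha c2, hfl₁ b hb c3, hfl₂ S hS c1, hfl₂ a ha c2, hfl₂ b hb c3, c4, c5, c6, c7, c8, c9,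
      c10, c11, c12, c13, c14⟩
  refine h0.trans ?_
  have d1 : P3 μ s N y (fun _ S _ _ => ¬ NSp μ s L N ε S) ≤ ENNReal.ofReal q := by
    rw [P3_1 hy0 hyN (fun _ S => ¬ NSp μ s L N ε S)]
    exact hns
  have d2 : P3 μ s N y (fun _ _ a _ => ¬ NSp μ s L N ε a) ≤ ENNReal.ofReal q := by
    rw [P3_2 hy0 hyN (fun _ S => ¬ NSp μ s L N ε S)]
    exact hns
  have d3 : P3 μ s N y (fun _ _ _ b => ¬ NSp μ s L N ε b) ≤ ENNReal.ofReal q := by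
    rw [P3_3 hy0 hyN (fun _ S => ¬ NSp μ s L N ε S)]
    exact hns
  have d4 : P3 μ s N y (fun _ _ a _ => ¬ TVp μ s N B₁.pr a) ≤ ENNReal.ofReal q := by
    rw [P3_2 hy0 hyN (fun _ S => ¬ TVp μ s N B₁.pr S)]
    exact ht₁
  have d5 : P3 μ s N y (fun _ _ _ b => ¬ TVp μ s N B₁.pr b) ≤ ENNReal.ofReal q := by
    rw [P3_3 hy0 hyN (fun _ S => ¬ TVp μ s N B₁.pr S)]
    exact ht₁
  have d6 : P3 μ s N y (fun _ _ a _ => ¬ TVp μ s N B₂.pr a) ≤ ENNReal.ofReal q := by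
    rw [P3_2 hy0 hyN (fun _ S => ¬ TVp μ s N B₂.pr S)]
    exact ht₂
  have d7 : P3 μ s N y (fun _ _ _ b => ¬ TVp μ s N B₂.pr b) ≤ ENNReal.ofReal q := by
    rw [P3_3 hy0 hyN (fun _ S => ¬ TVp μ s N B₂.pr S)]
    exact ht₂
  have d8 : P3 μ s N y (fun _ S a _ => Close μ s L N ε (fun _ => 0) S a) ≤ ENNReal.ofReal q := by
    rw [P3_12 hy0 hyN (fun _ S a => Close μ s L N ε (fun _ => 0) S a)]
    exact hcl
  have d9 : P3 μ s N y (fun _ S _ b => Close μ s L N ε (fun _ => 0) S b) ≤ ENNReal.ofReal q := by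
    rw [P3_13 hy0 hyN (fun _ S a => Close μ s L N ε (fun _ => 0) S a)]
    exact hcl
  have d10 : P3 μ s N y (fun _ _ a b => Close μ s L N ε (fun _ => 0) a b) ≤ ENNReal.ofReal q := by
    rw [P3_23 hy0 hyN (fun _ S a => Close μ s L N ε (fun _ => 0) S a)]
    exact hcl
  have d11 : P3 μ s N y (fun η S a _ => Bad2 μ s N y B₂.pr L Ws₂ lm η a S) ≤ ENNReal.ofReal q := by
    rw [P3_21 hy0 hyN (Bad2 μ s N y B₂.pr L Ws₂ lm)]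
    exact hb2
  have d12 : P3 μ s N y (fun η S _ b => Bad2 μ s N y B₂.pr L Ws₂ lm η b S) ≤ ENNReal.ofReal q := by
    rw [P3_31 hy0 hyN (Bad2 μ s N y B₂.pr L Ws₂ lm)]
    exact hb2
  have d13 : P3 μ s N y (fun η S a _ => BadD μ s N y B₁ B₂ L Ws₁ Ws₂ lm η a S) ≤ ENNReal.ofReal q := by
    rw [P3_21 hy0 hyN (BadD μ s N y B₁ B₂ L Ws₁ Ws₂ lm)]
    exact hbD
  have d14 : P3 μ s N y (fun η S _ b => BadD μ s N y B₁ B₂ L Ws₁ Ws₂ lm η b S) ≤ ENNReal.ofReal q := by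
    rw [P3_31 hy0 hyN (BadD μ s N y B₁ B₂ L Ws₁ Ws₂ lm)]
    exact hbD
  have e := (P3_or _ _).trans (add_le_add d1 ((P3_or _ _).trans (add_le_add d2 ((P3_or _ _).trans (add_le_add d3
    ((P3_or _ _).trans (add_le_add d4 ((P3_or _ _).trans (add_le_add d5 ((P3_or _ _).trans (add_le_add d6
    ((P3_or _ _).trans (add_le_add d7 ((P3_or _ _).trans (add_le_add d8 ((P3_or _ _).trans (add_le_add d9
    ((P3_or _ _).trans (add_le_add d10 ((P3_or _ _).trans (add_le_add d11 ((P3_or _ _).trans (add_le_add d12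
    ((P3_or _ _).trans (add_le_add d13 d14)))))))))))))))))))))))))
  refine e.trans (le_of_eq ?_)
  obtain ⟨q', hq'⟩ : ∃ q', q' = ENNReal.ofReal q := ⟨_, rfl⟩
  rw [ENNReal.ofReal_mul (by norm_num), ← hq', show ENNReal.ofReal 14 = 14 by norm_num]
  ring

/-! ### Numbers -/

theorem nu_bD {L x p e n c : ℝ} (hL : 1000000000 ≤ L) (_hx : 0 ≤ x) (hp : 0 ≤ p) (he0 : 0 ≤ e) (he : e ≤ p) (hn : 0 ≤ n) (hn1 : n ≤ 2 * L)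
    (_hc0 : 0 ≤ c) (hc : c ≤ 9 * x ^ 2) : c * (2 * (10 * L + 1)) ^ 2 * n ^ 2 * (3 * e) ≤ L ^ 5 * x ^ 2 * p := by
  have h22 : 2 * (10 * L + 1) ≤ 22 * L := by linarith
  have hL0 : 0 ≤ L := by linarith
  calc c * (2 * (10 * L + 1)) ^ 2 * n ^ 2 * (3 * e) ≤ (9 * x ^ 2) * (22 * L) ^ 2 * (2 * L) ^ 2 * (3 * p) := by gcongr
    _ = 52272 * (L ^ 4 * x ^ 2 * p) := by ring
    _ ≤ L * (L ^ 4 * x ^ 2 * p) := by
        refine mul_le_mul_of_nonneg_right ?_ (by positivity)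
        linarith
    _ = L ^ 5 * x ^ 2 * p := by ring

theorem nu_pD {x E₁ E₂ R₁ R₂ K₁ K₂ c : ℝ} (hx : 3000 ≤ x) (hE₁ : 0 < E₁) (hE₂ : 0 < E₂) (hR₁ : 0 ≤ R₁) (hR₂ : 0 ≤ R₂) (hc0 : 0 ≤ c)
    (hc : c ≤ 9 * x ^ 2) (hK₁0 : 0 ≤ K₁) (hK₁ : 16 * K₁ ≤ 10 * (x * R₁)) (hK₂0 : 0 ≤ K₂) (hK₂ : 16 * K₂ ≤ 10 * (x * R₂)) :
    (x / E₂ * (3 * x)) * (x / E₁ * (3 * x + x)) * ((4 * K₁) * (4 * K₂)) * c ≤ (R₁ * (x ^ 5 * E₁⁻¹)) * (R₂ * (x ^ 5 * E₂⁻¹)) := by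
  have hx0 : 0 ≤ x := by linarith
  have a1 : 4 * K₁ ≤ 3 * (x * R₁) := by
    have : 0 ≤ x * R₁ := by positivity
    linarith
  have a2 : 4 * K₂ ≤ 3 * (x * R₂) := by
    have : 0 ≤ x * R₂ := by positivity
    linarith
  calc (x / E₂ * (3 * x)) * (x / E₁ * (3 * x + x)) * ((4 * K₁) * (4 * K₂)) * c
      ≤ (x / E₂ * (3 * x)) * (x / E₁ * (3 * x + x)) * ((3 * (x * R₁)) * (3 * (x * R₂))) * (9 * x ^ 2) := by gcongr
    _ = 972 * x ^ 8 * (R₁ * R₂ * E₁⁻¹ * E₂⁻¹) := by rw [div_eq_mul_inv, div_eq_mul_inv]; ring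
    _ ≤ x * x ^ 8 * (R₁ * R₂ * E₁⁻¹ * E₂⁻¹) := by
        refine mul_le_mul_of_nonneg_right ?_ (by positivity)
        exact mul_le_mul_of_nonneg_right (by linarith) (by positivity)
    _ ≤ x ^ 10 * (R₁ * R₂ * E₁⁻¹ * E₂⁻¹) := by
        refine mul_le_mul_of_nonneg_right ?_ (by positivity)
        have : x * x ^ 8 = x ^ 9 := by ring
        rw [this]
        exact pow_le_pow_right₀ (by linarith) (by norm_num)
    _ = (R₁ * (x ^ 5 * E₁⁻¹)) * (R₂ * (x ^ 5 * E₂⁻¹)) := by ring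

theorem nu_eD {L x p e f n c z : ℝ} (hL : 1000000000 ≤ L) (hx : 1 ≤ x) (hp : 0 ≤ p) (he0 : 0 ≤ e) (he : e ≤ p) (hf0 : 0 ≤ f) (hf : f ≤ p)
    (hn : 0 ≤ n) (hn1 : n ≤ 2 * L) (_hz0 : 0 ≤ z) (hz : z ≤ x) (hc0 : 0 ≤ c) (hc : c ≤ 9 * x ^ 2) :
    (z * (3 * x) * (e + n ^ 2 * f) + e) * (2 * (10 * L + 1)) ^ 2 * c ≤ L ^ 8 * x ^ 7 * p := by
  have h22 : 2 * (10 * L + 1) ≤ 22 * L := by linarith
  have hL0 : 0 ≤ L := by linarith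
  have hL1 : 1 ≤ L := by linarith
  have hx0 : 0 ≤ x := by linarith
  have a1 : z * (3 * x) ≤ 3 * x ^ 2 := by
    have := mul_le_mul_of_nonneg_right hz (show 0 ≤ 3 * x by positivity)
    calc _ ≤ x * (3 * x) := this
      _ = 3 * x ^ 2 := by ring
  have a2 : e + n ^ 2 * f ≤ 5 * L ^ 2 * p := by
    have b1 : n ^ 2 * f ≤ (2 * L) ^ 2 * p := by gcongr
    have b2 : p ≤ L ^ 2 * p := le_mul_of_one_le_left hp (one_le_pow₀ hL1)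
    have b3 : (2 * L) ^ 2 * p = 4 * (L ^ 2 * p) := by ring
    linarith
  have a3 : z * (3 * x) * (e + n ^ 2 * f) + e ≤ 16 * x ^ 2 * L ^ 2 * p := by
    have b1 : z * (3 * x) * (e + n ^ 2 * f) ≤ 3 * x ^ 2 * (5 * L ^ 2 * p) := mul_le_mul a1 a2 (by positivity) (by positivity)
    have b2 : p ≤ x ^ 2 * L ^ 2 * p := by
      have c1 : (1 : ℝ) ≤ x ^ 2 * L ^ 2 := one_le_mul_of_one_le_of_one_le (one_le_pow₀ hx) (one_le_pow₀ hL1)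
      exact le_mul_of_one_le_left hp c1
    have b3 : 3 * x ^ 2 * (5 * L ^ 2 * p) = 15 * (x ^ 2 * L ^ 2 * p) := by ring
    have b4 : 16 * x ^ 2 * L ^ 2 * p = 16 * (x ^ 2 * L ^ 2 * p) := by ring
    linarith
  calc _ ≤ (16 * x ^ 2 * L ^ 2 * p) * (22 * L) ^ 2 * (9 * x ^ 2) := by gcongr
    _ = 69696 * (L ^ 4 * x ^ 4 * p) := by ring
    _ ≤ L ^ 4 * (L ^ 4 * x ^ 4 * p) := by
        refine mul_le_mul_of_nonneg_right ?_ (by positivity)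
        have : L ≤ L ^ 4 := le_self_pow₀ hL1 (by norm_num)
        linarith
    _ = L ^ 8 * x ^ 4 * p := by ring
    _ ≤ L ^ 8 * x ^ 7 * p := by
        have e3 : x ^ 4 ≤ x ^ 7 := pow_le_pow_right₀ hx (by norm_num)
        gcongr

/-! ### Production -/

/-- Two alternatives, apart from the base path on `[U, V]`, from each other on `[U', V]`. -/
def ADD (c d U U' V : ℕ) (S a b : Finset ℕ) : Prop := Gap c d U V S a ∧ Gap c d U V S b ∧ NoMeet U' V a b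

theorem ADD.swp {c d U U' V : ℕ} {S a b : Finset ℕ} (h : ADD c d U U' V S a b) : ADD c d U U' V S b a := ⟨h.2.1, h.1, nm_symm h.2.2⟩

theorem win_ar {N t H L τ i₀ : ℕ} {y : ℤ} {x p ε R : ℝ} {B : Bun} (hG : Gen51 μ s N L y x p ε) (h : OkD μ s N t H L y x p ε R B)
    (h1 : 1 ≤ τ) (h2 : τ + t ≤ N) (h3 : τ ≤ i₀) (h4 : i₀ ≤ τ + t / 4) :
    ∃ W ∈ B.Ws N t τ, Ar μ s N t τ B.n1 B.e0 B.E B.pr L B.K W i₀ := by
  obtain ⟨W, hW1, hW2, hW3⟩ := win_at (N := N) (t := t) (τ := τ) (i₀ := i₀) (n1 := B.n1) (a := B.pr.a) h.eE (h.pok.an1 B.e0 le_rfl h.eE)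
    h.n1t h1 h2 h3 h4
  exact ⟨W, hW1, ⟨h.pok, Ws5_gwk hW1, hW2, by omega, hW3, hG.NL, h.K6, h.eE, h.E3, hG.m0, hG.m1⟩⟩

theorem near_ar {N t H L i₀ i' : ℕ} {y : ℤ} {x p ε R : ℝ} {B : Bun} (h : OkD μ s N t H L y x p ε R B) {S a : Finset ℕ}
    (hS : NSp μ s L N ε S) (ha : NSp μ s L N ε a) (h1 : i₀ ≤ i') (h2 : i' ≤ i₀ + H) (hi'N : i' ≤ N) (hi' : pos S i' = pos a i') :
    |pos S i₀ - pos a i₀| ≤ ((B.K - 6 : ℕ) : ℤ) * 2 ^ B.e0 := by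
  have key : |((pos S i₀ - pos a i₀ : ℤ) : ℝ)| ≤ ((B.K - 6 : ℕ) : ℝ) * 2 ^ B.e0 :=
    gap_le hS ha hi' hi'N (h1.trans hi'N) (by positivity) fun j hj1 _ hj3 => h.near j hj1 (by omega)
  have : ((|pos S i₀ - pos a i₀| : ℤ) : ℝ) ≤ ((((B.K - 6 : ℕ) : ℤ) * 2 ^ B.e0 : ℤ) : ℝ) := by
    rw [Int.cast_abs]
    push_cast at key ⊢
    exact key
  exact_mod_cast this

/-- **Production at two windows.** -/
theorem prodD {N L t₁ t₂ τ₁ τ₂ c d : ℕ} {y : ℤ} {x p ε R₁ R₂ : ℝ} {B₁ B₂ : Bun} (hG : Gen51 μ s N L y x p ε)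
    (h₁ : OkD μ s N t₁ (d - τ₁) L y x p ε R₁ B₁) (h₂ : OkD μ s N t₂ (d - τ₂) L y x p ε R₂ B₂) (ht₁ : 1 ≤ t₁) (h1 : 1 ≤ τ₁)
    (h12 : τ₁ + t₁ ≤ τ₂) (h2d : τ₂ + t₂ ≤ d) (hdN : d ≤ N) {η : Env} {S a b : Finset ℕ}
    (hg : GD51 μ s N y L ε B₁ B₂ (B₁.Ws N t₁ τ₁) (B₂.Ws N t₂ τ₂) x η S a b) (hA : ADD c d τ₁ τ₂ (τ₂ + t₂) S a b) :
    ND μ s N y B₁ B₂ L (B₁.Ws N t₁ τ₁) (B₂.Ws N t₂ τ₂) c d (3 * x) η S := by
  obtain ⟨hGa, hGb, hab⟩ := hA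
  have q2 : τ₂ + t₂ / 4 ≤ τ₂ + t₂ := by omega
  -- separation at the second window
  have nSa : NoMeet τ₁ (τ₂ + t₂) S a := by
    obtain ⟨_, _, _, _, _, _, _, _, h⟩ := hGa
    exact h
  have nSb : NoMeet τ₁ (τ₂ + t₂) S b := by
    obtain ⟨_, _, _, _, _, _, _, _, h⟩ := hGb
    exact h
  obtain ⟨k₂, k1, k2, s1, s2, s3⟩ := sep3 h₂.sp hg.nS hg.na hg.nb hg.cSa hg.cSb hg.cab (fun g => hg.cSa (close_symm g))
    (fun g => hg.cab (close_symm g)) (show τ₂ + t₂ / 4 ≤ N by omega) (nm_mono nSa (by omega) q2) (nm_mono nSb (by omega) q2)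
    (nm_mono hab le_rfl q2)
  obtain ⟨W₂, hW₂, hAr₂⟩ := win_ar hG h₂ (show 1 ≤ τ₂ by omega) (by omega) k1 k2
  -- one alternative at the first window, the other one extreme at the second window
  have key : ∀ a b : Finset ℕ, GD51 μ s N y L ε B₁ B₂ (B₁.Ws N t₁ τ₁) (B₂.Ws N t₂ τ₂) x η S a b → Gap c d τ₁ (τ₂ + t₂) S a →
      Gap c d τ₁ (τ₂ + t₂) S b → (∃ sg : ℤ, (sg = 1 ∨ sg = -1) ∧ 2 ^ (B₂.e0 + 4) ≤ sg * (pos b k₂ - pos S k₂) ∧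
        2 ^ (B₂.e0 + 4) ≤ sg * (pos b k₂ - pos a k₂)) →
      ND μ s N y B₁ B₂ L (B₁.Ws N t₁ τ₁) (B₂.Ws N t₂ τ₂) c d (3 * x) η S := by
    intro a b hg hGa hGb hsg
    obtain ⟨sg, hsg, hdb, hdab⟩ := hsg
    obtain ⟨i, i', i1, i2, i3, i4, i5, i6, i7⟩ := hGa
    obtain ⟨j, j', j1, j2, j3, j4, j5, j6, j7⟩ := hGb
    have hi : i < τ₁ := lt_of_le_of_ne i2 fun h => i7 i (by omega) (by omega) i5
    have hi' : τ₂ + t₂ < i' := lt_of_le_of_ne i3 fun h => i7 i' (by omega) (by omega) i6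
    have hj : j < τ₁ := lt_of_le_of_ne j2 fun h => j7 j (by omega) (by omega) j5
    have hj' : τ₂ + t₂ < j' := lt_of_le_of_ne j3 fun h => j7 j' (by omega) (by omega) j6
    obtain ⟨k₁, k3, k4, k5⟩ := sep2 hg.cSa h₁.quart (show τ₁ + t₁ / 4 ≤ N by omega) (nm_mono i7 le_rfl (by omega))
    obtain ⟨W₁, hW₁, hAr₁⟩ := win_ar hG h₁ h1 (by omega) k3 k4
    have hda : (2 : ℤ) ^ (B₁.e0 + 4) ≤ |pos S k₁ - pos a k₁| := by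
      have h5 : (((2 : ℤ) ^ (B₁.e0 + 4) : ℤ) : ℝ) ≤ ((|pos S k₁ - pos a k₁| : ℤ) : ℝ) := by
        have := h₁.q4
        push_cast at k5 ⊢
        linarith
      exact_mod_cast h5
    refine prodDe hAr₁ hAr₂ y hW₁ hW₂ (lm := x) le_rfl hg.f1S hg.f2S hg.f1a hg.f2a hg.f2b hg.t1a hg.t2b hg.b2b hg.bDa hda hsg hdb hdab
      (near_ar h₁ hg.nS hg.na (show k₁ ≤ i' by omega) (by omega) (by omega) i6)
      (near_ar h₂ hg.nS hg.nb (show k₂ ≤ j' by omega) (by omega) (by omega) j6) i1 (fun k hk => ?_) (fun k hk => ?_) (by omega) i5 i4 hdN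
      i6 j1 (fun k hk => ?_) (by omega) j5 j4 j6
    · have := hAr₁.near k (Or.inl hk)
      omega
    · have := hAr₂.near k (Or.inl hk)
      omega
    · have := hAr₂.near k (Or.inl hk)
      omega
  have hP : (0 : ℤ) < 2 ^ (B₂.e0 + 4) := by positivity
  have hna : pos S k₂ ≠ pos a k₂ := nSa k₂ (by omega) (by omega)
  have hnb : pos S k₂ ≠ pos b k₂ := nSb k₂ (by omega) (by omega)
  have hne : pos a k₂ ≠ pos b k₂ := hab k₂ (by omega) (by omega)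
  by_cases g1 : pos S k₂ < pos b k₂ ∧ pos a k₂ < pos b k₂
  · refine key a b hg hGa hGb ⟨1, Or.inl rfl, ?_, ?_⟩
    · rw [abs_of_neg (by linarith [g1.1])] at s2
      linarith
    · rw [abs_of_neg (by linarith [g1.2])] at s3
      linarith
  by_cases g2 : pos S k₂ < pos a k₂ ∧ pos b k₂ < pos a k₂
  · refine key b a hg.swp hGb hGa ⟨1, Or.inl rfl, ?_, ?_⟩
    · rw [abs_of_neg (by linarith [g2.1])] at s1
      linarith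
    · rw [abs_of_pos (by linarith [g2.2])] at s3
      linarith
  have g3 : pos a k₂ < pos S k₂ ∧ pos b k₂ < pos S k₂ := by omega
  rcases lt_or_gt_of_ne hne with g4 | g4
  · refine key b a hg.swp hGb hGa ⟨-1, Or.inr rfl, ?_, ?_⟩
    · rw [abs_of_pos (by linarith [g3.1])] at s1
      linarith
    · rw [abs_of_neg (by linarith)] at s3
      linarith
  · refine key a b hg hGa hGb ⟨-1, Or.inr rfl, ?_, ?_⟩
    · rw [abs_of_pos (by linarith [g3.2])] at s2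
      linarith
    · rw [abs_of_pos (by linarith)] at s3
      linarith

/-- **THE PLACE.** -/
theorem plD [IsProbabilityMeasure μ] {N L t₁ t₂ τ₁ τ₂ c d : ℕ} {y : ℤ} {x p ε R₁ R₂ : ℝ} {B₁ B₂ : Bun} (hG : Gen51 μ s N L y x p ε)
    (h₁ : OkD μ s N t₁ (d - τ₁) L y x p ε R₁ B₁) (h₂ : OkD μ s N t₂ (d - τ₂) L y x p ε R₂ B₂) (hR₁ : 0 ≤ R₁) (hR₂ : 0 ≤ R₂)
    (ht₁ : 1 ≤ t₁) (h1 : 1 ≤ τ₁) (h12 : τ₁ + t₁ ≤ τ₂) (h2d : τ₂ + t₂ ≤ d) (hdN : d ≤ N) :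
    Pl3 μ s N y (ENNReal.ofReal ((R₁ * (x ^ 5 * (EE' μ s t₁)⁻¹)) * (R₂ * (x ^ 5 * (EE' μ s t₂)⁻¹)))) (ENNReal.ofReal (L ^ 8 * x ^ 7 * p))
      (ADD c d τ₁ τ₂ (τ₂ + t₂)) (Ico τ₁ (τ₁ + t₁) ∪ Ico τ₂ (τ₂ + t₂)) (Ioc c d) := by
  have hx3 := hG.x3
  have hL9 := hG.L9
  have hx0 : 0 ≤ x := by linarith
  have hx1 : 1 ≤ x := by linarith
  have hp0 := hG.p0.le
  have hE : ∀ n, (1 : ℝ) ≤ EE' μ s n := fun n => le_max_left _ _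
  have hE0 : ∀ n, (0 : ℝ) < EE' μ s n := fun n => zero_lt_one.trans_le (hE n)
  have hNR : (N : ℝ) + 1 ≤ 2 * L := by
    have : (N : ℝ) ≤ L := by exact_mod_cast hG.NL
    linarith
  have hN0 : (0 : ℝ) ≤ N := Nat.cast_nonneg N
  have hL0 : (0 : ℝ) ≤ L := by linarith
  have hL1 : (1 : ℝ) ≤ L := by linarith
  have hc1 := h₁.card τ₁
  have hc2 := h₂.card τ₂
  have hc10 : (0 : ℝ) ≤ (B₁.Ws N t₁ τ₁).card := Nat.cast_nonneg _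
  have hc20 : (0 : ℝ) ≤ (B₂.Ws N t₂ τ₂).card := Nat.cast_nonneg _
  have hcc : ((B₁.Ws N t₁ τ₁).card : ℝ) * (B₂.Ws N t₂ τ₂).card ≤ 9 * x ^ 2 := by
    calc _ ≤ (3 * x) * (3 * x) := mul_le_mul hc1 hc2 hc20 (by positivity)
      _ = 9 * x ^ 2 := by ring
  obtain ⟨q, hq⟩ : ∃ q : ℝ, q = (L : ℝ) ^ 5 * x ^ 2 * p := ⟨_, rfl⟩
  have hq0 : 0 ≤ q := by rw [hq]; positivity
  have hxx : x ≤ x ^ 2 := le_self_pow₀ hx1 (by norm_num)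
  have hpq : 2 * p ≤ q := by
    rw [hq]
    have e1 : (2 : ℝ) ≤ (L : ℝ) ^ 5 := by
      have : (L : ℝ) ≤ (L : ℝ) ^ 5 := le_self_pow₀ hL1 (by norm_num)
      linarith
    have e2 : (2 : ℝ) ≤ (L : ℝ) ^ 5 * x ^ 2 := e1.trans (le_mul_of_one_le_right (by linarith) (hx1.trans hxx))
    exact mul_le_mul_of_nonneg_right e2 hp0
  have hgood : P3 μ s N y (fun η S a b => ¬ GD51 μ s N y L ε B₁ B₂ (B₁.Ws N t₁ τ₁) (B₂.Ws N t₂ τ₂) x η S a b) ≤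
      ENNReal.ofReal (14 * q) := by
    refine gD_pr hG.y0 hG.yN h₁.flat h₂.flat hq0 (hG.ns.trans (ENNReal.ofReal_le_ofReal (by linarith)))
      (h₁.tv.trans (ENNReal.ofReal_le_ofReal hpq)) (h₂.tv.trans (ENNReal.ofReal_le_ofReal hpq))
      (hG.cl.trans (ENNReal.ofReal_le_ofReal (by linarith))) ?_ ?_
    · refine (bad2_pr h₂.pok.i₁a).trans (ENNReal.ofReal_le_ofReal ?_)
      refine (nu_b2 hL9 hx0 hp0 (Real.exp_pos _).le hG.ex (by linarith) hNR hc20 hc2).trans ?_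
      rw [hq]
      gcongr
    · refine (badD_pr h₁.pok.i₁a).trans (ENNReal.ofReal_le_ofReal ?_)
      rw [hq]
      exact nu_bD hL9 hx0 hp0 (Real.exp_pos _).le hG.ex (by linarith) hNR (mul_nonneg hc10 hc20) hcc
  have h14 : 14 * q ≤ L ^ 8 * x ^ 7 * p := by
    rw [hq]
    have e1 : (14 : ℝ) ≤ (L : ℝ) ^ 3 := by
      have : (L : ℝ) ≤ (L : ℝ) ^ 3 := le_self_pow₀ hL1 (by norm_num)
      linarith
    calc 14 * ((L : ℝ) ^ 5 * x ^ 2 * p) ≤ (L : ℝ) ^ 3 * ((L : ℝ) ^ 5 * x ^ 2 * p) := mul_le_mul_of_nonneg_right e1 (by positivity)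
      _ = (L : ℝ) ^ 8 * x ^ 2 * p := by ring
      _ ≤ (L : ℝ) ^ 8 * x ^ 7 * p := by
          have e3 : x ^ 2 ≤ x ^ 7 := pow_le_pow_right₀ hx1 (by norm_num)
          gcongr
  refine ⟨ND μ s N y B₁ B₂ L (B₁.Ws N t₁ τ₁) (B₂.Ws N t₂ τ₂) c d (3 * x), nd_ms _ _ _ _ _ _ _ _ _ _, fun J' hJ' => ?_, ?_, ?_⟩
  · refine nd_off fun j hj => ?_
    have : ¬ (c < j ∧ j ≤ d) := fun h => disjoint_left.1 hJ' hj (mem_Ioc.2 h)
    omega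
  · refine (P3_mono' fun η S a b _ _ _ _ _ _ hev => ?_).trans (hgood.trans (ENNReal.ofReal_le_ofReal h14))
    exact fun hg => hev.2 (prodD hG h₁ h₂ ht₁ h1 h12 h2d hdN hg hev.1)
  · intro F hF hFo
    have hz : ∀ t, 0 ≤ x / EE' μ s t := fun t => div_nonneg hx0 (hE0 t).le
    have hzx : ∀ t, x / EE' μ s t ≤ x := fun t => div_le_self hx0 (hE t)
    have hr₁ : ∀ W ∈ B₁.Ws N t₁ τ₁, W.2.2 ⊆ Ico τ₁ (τ₁ + t₁) ∪ Ico τ₂ (τ₂ + t₂) := fun W hW =>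
      (Ws5_rows hW h₁.n1t).1.trans subset_union_left
    have hr₂ : ∀ W ∈ B₂.Ws N t₂ τ₂, W.2.2 ⊆ Ico τ₁ (τ₁ + t₁) ∪ Ico τ₂ (τ₂ + t₂) := fun W hW =>
      (Ws5_rows hW h₂.n1t).1.trans subset_union_right
    have k := nd_price (hz t₁) (hz t₂) hp0 (tieW_of_G hG.y0 hG.yN h₁.tG) (tieW_of_G hG.y0 hG.yN h₂.tG) (fun W hW => Ws5_gwk hW)
      (fun W hW => Ws5_gwk hW) hr₁ hr₂ (L := L) (c := c) (d := d) (M := 3 * x) (lm := x) (by linarith) hx0 hF hFo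
    refine k.trans (add_le_add (mul_le_mul' (ENNReal.ofReal_le_ofReal ?_) le_rfl) (ENNReal.ofReal_le_ofReal ?_))
    · exact nu_pD hx3 (hE0 t₁) (hE0 t₂) hR₁ hR₂ (mul_nonneg hc10 hc20) hcc (by positivity) h₁.Kx (by positivity) h₂.Kx
    · exact nu_eD hL9 hx1 hp0 hp0 le_rfl (Real.exp_pos _).le hG.ex (by linarith) hNR (hz t₂) (hzx t₂) (mul_nonneg hc10 hc20) hcc

end

end Pool.Agent.W_7d29a1_C0.N51
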