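import Pool.Agent.W_7d29a1_C0.Own1B

/-!
MP_7d29a1_pr, [CURV0] / [C0], leaf E0C (helper1): THREE LEVELS WITH AN OWN FACTOR, PRICED INSIDE THE GIBBS MEAN.

`Ev`: an own tie, a tie in the region `1` and one of: a piece of the region `2` with a tie in the block `p1`; a tie on `[g0, g1]` in the
block `p2`; mass of the triples apart on the region `2`. `okR`, `okL`: a typical path without `Ev` is `okE` (own region behind / in front).
`fib_le`: in the fibre, mass without `Ev` times `T4` is small. `gm_T4`: `gm w (H * min 1 (C * T4)) ≤ gm w (H * 1[Ev]) + C K gm w H`.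
`cond_own`, `frozen_own`: both corners with the error `T4`, which keeps the own factor. Pathwise; one environment.
-/

set_option autoImplicit false
set_option linter.unusedSectionVars false

namespace Pool.W7d29a1.C0.O1

open Finset MeasureTheory Pool.Agent.W_7d29a1_C0.Swap57 Pool.Agent.W_7d29a1_C0 Pool.Agent.W_7d29a1_C0.Mod92
open Pool.Agent.W_7d29a1_F Pool.Agent.W_7d29a1_X
open Pool.W7d29a1.C0 Pool.W7d29a1.C0.VT31 Pool.W7d29a1.C0.R43 Pool.W7d29a1.C0.S1 Pool.W7d29a1.C0.K1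

noncomputable section

variable {μ : Measure ℝ} {s : ℝ} {N : ℕ} {Q : Finset (Finset ℕ)} [Nonempty (Px Q)]
variable {Y Y1 Y2 : Type*} [DecidableEq Y] [DecidableEq Y1] [DecidableEq Y2]

/-- The mass of the pairs apart from `x` and from each other on `[a, b]`. -/
def NT (w : Px Q → ℝ) (p : Px Q → Y) (a b : ℕ) (x : Px Q) : ℝ :=
  cE2 w p (fun u v => NI a b x u * (NI a b x v * NI a b u v)) x x

/-- The event of a path which is not told. -/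
def Ev (w : Px Q → ℝ) (p : Px Q → Y) (p1 : Px Q → Y1) (p2 : Px Q → Y2) (Bo : Px Q → Prop) (q : ℕ) (d d1 d3 : ℝ)
    (g0 g1 τ1 l1 τ2 l2 : ℕ) (x : Px Q) : Prop :=
  ¬ Bo x ∧ bI w p τ1 l1 q d x = 0 ∧ ((∃ n < 3 * q, d1 < mI w p1 (st τ2 l2 n) (st τ2 l2 n + l2) x) ∨
    d1 < mI w p2 g0 g1 x ∨ d3 < NT w p τ2 (en τ2 l2 q) x)

/-- **Own region behind.** The pieces are seen in `[c, r)`, the region `[g0, g1]` in `[r1, e)`. -/
theorem okR [SwQ Q] (η : Env) {Bo : Px Q → Prop} {q : ℕ} {d d1 d3 dl : ℝ} {g0 g1 τ1 l1 τ2 l2 c r1 r e : ℕ} (hdl : 0 < dl)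
    (h1 : c ≤ r1) (h2 : r1 ≤ τ2) (h3 : en τ2 l2 q < g0) (h4 : g1 ≤ r) (h5 : r ≤ e) (h6 : g0 ≤ g1) {x : Px Q}
    (hT : Ty (lw μ s η N Q) (pJ c r) dl g0 g1 x) (hT' : Ty (lw μ s η N Q) (pJ r1 e) dl τ2 (en τ2 l2 q) x)
    (hE : ¬ Ev (lw μ s η N Q) (pJ c e) (pJ c r) (pJ r1 e) Bo q d d1 d3 g0 g1 τ1 l1 τ2 l2 x) :
    okE (lw μ s η N Q) (pJ c e) Bo q d (dl⁻¹ * d1) d3 g0 g1 τ1 l1 τ2 l2 x := by
  intro hb ht
  unfold Ev at hE
  push Not at hE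
  obtain ⟨k1, k2, k3⟩ := hE hb ht
  have hi : 0 ≤ dl⁻¹ := (inv_pos.2 hdl).le
  have hen : τ2 ≤ en τ2 l2 q := Nat.le_add_right _ _
  refine ⟨fun n hn => ?_, ?_, k3⟩
  · have g3 := le_st τ2 l2 n
    have g4 : st τ2 l2 n + l2 ≤ en τ2 l2 q := st_end hn
    exact (locR η x (by omega) (by omega) h4 h5 hdl hT).trans (mul_le_mul_of_nonneg_left (k1 n hn) hi)
  · exact (locL η x h1 h2 h3 (by omega) hdl hT').trans (mul_le_mul_of_nonneg_left k2 hi)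

/-- **Own region in front.** The pieces are seen in `[r1, e)`, the region `[g0, g1]` in `[c, r)`. -/
theorem okL [SwQ Q] (η : Env) {Bo : Px Q → Prop} {q : ℕ} {d d1 d3 dl : ℝ} {g0 g1 τ1 l1 τ2 l2 c r1 r e : ℕ} (hdl : 0 < dl)
    (h1 : c ≤ r1) (h2 : r1 ≤ g0) (h3 : g0 ≤ g1) (h4 : g1 < τ2) (h5 : en τ2 l2 q ≤ r) (h6 : r ≤ e) {x : Px Q}
    (hT : Ty (lw μ s η N Q) (pJ r1 e) dl g0 g1 x) (hT' : Ty (lw μ s η N Q) (pJ c r) dl τ2 (en τ2 l2 q) x)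
    (hE : ¬ Ev (lw μ s η N Q) (pJ c e) (pJ r1 e) (pJ c r) Bo q d d1 d3 g0 g1 τ1 l1 τ2 l2 x) :
    okE (lw μ s η N Q) (pJ c e) Bo q d (dl⁻¹ * d1) d3 g0 g1 τ1 l1 τ2 l2 x := by
  intro hb ht
  unfold Ev at hE
  push Not at hE
  obtain ⟨k1, k2, k3⟩ := hE hb ht
  have hi : 0 ≤ dl⁻¹ := (inv_pos.2 hdl).le
  have hen : τ2 ≤ en τ2 l2 q := Nat.le_add_right _ _
  refine ⟨fun n hn => ?_, ?_, k3⟩
  · have g3 := le_st τ2 l2 n
    exact (locL η x h1 h2 (by omega) (by omega) hdl hT).trans (mul_le_mul_of_nonneg_left (k1 n hn) hi)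
  · exact (locR η x (by omega) h4 h5 h6 hdl hT').trans (mul_le_mul_of_nonneg_left k2 hi)

/-! ### From the fibre to the Gibbs mean -/

theorem ind_eq (A : Px Q → Prop) (x : Px Q) {D : Decidable (A x)} : ind A x = @ite ℝ (A x) D 1 0 := by
  unfold ind
  by_cases h : A x
  · rw [if_pos h, if_pos h]
  · rw [if_neg h, if_neg h]

/-- The bound of `T4A_small`. -/
def Kap (eo Lg δ : ℝ) (q : ℕ) (d e1 d3 : ℝ) : ℝ :=
  eo + 2 * (3 * Lg / δ) * (((1 / 2) ^ q + 3 * q * d) + ((1 / 2) ^ q + (d3 + 2 * ((3 * q + 1) * e1))))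

theorem cE_ind_compl (w : Px Q → ℝ) (p : Px Q → Y) (A : Px Q → Prop) (x : Px Q) :
    cE w p (ind A) x + cE w p (ind fun y => ¬ A y) x = 1 := by
  rw [← cE_addf]
  have : (fun z => ind A z + ind (fun y => ¬ A y) z) = fun _ => (1 : ℝ) := by
    funext z
    unfold ind
    by_cases h : A z
    · rw [if_pos h, if_neg (not_not.2 h), add_zero]
    · rw [if_neg h, if_pos h, zero_add]
  rw [this, cE_constf]

/-- **In the fibre**: the mass without `E` times `T` is small, if a path outside of `E` is told or not typical. -/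
theorem fib_gen (w : Px Q → ℝ) (p : Px Q → Y) {E ok : Px Q → Prop} {I : Type*} (J : Finset I) {T : I → Px Q → Prop} {T4' K1 K2 : ℝ}
    (hok : ∀ x, ¬ E x → (∀ i ∈ J, T i x) → ok x) (h0 : 0 ≤ T4') (h1 : T4' ≤ 1) (S0 : Px Q)
    (hK1 : cE w p (ind ok) S0 * T4' ≤ K1) (hK2 : ∀ i ∈ J, cE w p (ind fun x => ¬ T i x) S0 ≤ K2) :
    cE w p (ind fun x => ¬ E x) S0 * T4' ≤ K1 + J.card * K2 := by
  have a1 : ∀ x, ind (fun x => ¬ E x) x ≤ ind ok x + ∑ i ∈ J, ind (fun x => ¬ T i x) x := by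
    intro x
    have hs : 0 ≤ ∑ i ∈ J, ind (fun x => ¬ T i x) x := sum_nonneg fun i _ => ind_nonneg _ _
    by_cases hE : E x
    · have e : ind (fun x => ¬ E x) x = 0 := if_neg (not_not.2 hE)
      rw [e]
      exact add_nonneg (ind_nonneg _ _) hs
    · by_cases hT : ∀ i ∈ J, T i x
      · have e : ind ok x = 1 := if_pos (hok x hE hT)
        rw [e]
        linarith [ind_le_one (fun x => ¬ E x) x]
      · push Not at hT
        obtain ⟨i, hi, hTi⟩ := hT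
        have e : ind (fun x => ¬ T i x) x = 1 := if_pos hTi
        have h2 := single_le_sum (f := fun i => ind (fun x => ¬ T i x) x) (fun i _ => ind_nonneg _ _) hi
        beta_reduce at h2
        rw [e] at h2
        linarith [ind_le_one (fun x => ¬ E x) x, ind_nonneg ok x]
  have a2 := cE_mono w p a1 S0
  rw [cE_addf, cE_sumf] at a2
  have a3 : ∑ i ∈ J, cE w p (ind fun x => ¬ T i x) S0 ≤ J.card * K2 := by
    refine (sum_le_sum hK2).trans (le_of_eq ?_)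
    rw [sum_const, nsmul_eq_mul]
  have a4 : 0 ≤ ∑ i ∈ J, cE w p (ind fun x => ¬ T i x) S0 := sum_nonneg fun i _ => cE_nonneg _ _ (ind_nonneg _) _
  calc cE w p (ind fun x => ¬ E x) S0 * T4' ≤ (cE w p (ind ok) S0 + ∑ i ∈ J, cE w p (ind fun x => ¬ T i x) S0) * T4' :=
        mul_le_mul_of_nonneg_right a2 h0
    _ = cE w p (ind ok) S0 * T4' + (∑ i ∈ J, cE w p (ind fun x => ¬ T i x) S0) * T4' := add_mul _ _ _
    _ ≤ K1 + (∑ i ∈ J, cE w p (ind fun x => ¬ T i x) S0) * 1 := add_le_add hK1 (mul_le_mul_of_nonneg_left h1 a4)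
    _ ≤ K1 + J.card * K2 := by linarith

/-- **INSIDE THE GIBBS MEAN.** -/
theorem gm_gen (w : Px Q → ℝ) {p : Px Q → Y} {E : Px Q → Prop} {H R : Px Q → ℝ} {C K : ℝ} (hH : Mp p H) (hH0 : ∀ x, 0 ≤ H x)
    (hC : 0 ≤ C) (hK : ∀ S0, cE w p (ind fun x => ¬ E x) S0 * R S0 ≤ K) :
    gm w (fun x => H x * min 1 (C * R x)) ≤ gm w (fun x => H x * ind E x) + C * K * gm w H := by
  have a1 : ∀ x, H x * min 1 (C * R x) ≤ (H * cE w p (ind E) + (C * K) • H) x := by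
    intro x
    have e := cE_ind_compl w p E x
    have c0 := cE_nonneg w p (ind_nonneg E) x
    have c1 := cE_nonneg w p (ind_nonneg fun y => ¬ E y) x
    have m1 : min 1 (C * R x) ≤ 1 := min_le_left _ _
    have m2 : min 1 (C * R x) ≤ C * R x := min_le_right _ _
    have k1 : min 1 (C * R x) ≤ cE w p (ind E) x + C * K := by
      calc min 1 (C * R x) = cE w p (ind E) x * min 1 (C * R x) + cE w p (ind fun y => ¬ E y) x * min 1 (C * R x) := by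
            rw [← add_mul, e, one_mul]
        _ ≤ cE w p (ind E) x * 1 + cE w p (ind fun y => ¬ E y) x * (C * R x) :=
            add_le_add (mul_le_mul_of_nonneg_left m1 c0) (mul_le_mul_of_nonneg_left m2 c1)
        _ = cE w p (ind E) x + C * (cE w p (ind fun y => ¬ E y) x * R x) := by ring
        _ ≤ cE w p (ind E) x + C * K := add_le_add_right (mul_le_mul_of_nonneg_left (hK x) hC) _
    simp only [Pi.mul_apply, Pi.add_apply, Pi.smul_apply, smul_eq_mul]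
    have k2 := mul_le_mul_of_nonneg_left k1 (hH0 x)
    linarith
  have a2 := gm_mono w a1
  rw [gm_add, gm_smul, gm_mul_cE w hH (ind E)] at a2
  exact a2

section Prc

variable {q : ℕ} {d d1 d3 dl : ℝ} {g0 g1 : ℕ}

open Classical in
theorem ty_ind (w : Px Q → ℝ) {p : Px Q → Y} {q' : Px Q → Y1} (hc : Crs p q') {dl : ℝ} (hdl : 0 ≤ dl) {k0 k1 D : ℕ} (hD : k1 ≤ D)
    (S0 : Px Q) : cE w p (ind fun x => ¬ Ty w q' dl k0 k1 x) S0 ≤ (D + 1) ^ 2 * dl := by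
  have h := ty_le w hc hdl k0 k1 S0
  have e : ∀ x, ind (fun x => ¬ Ty w q' dl k0 k1 x) x = if Ty w q' dl k0 k1 x then 0 else 1 := fun x => by
    unfold ind
    by_cases h : Ty w q' dl k0 k1 x
    · rw [if_neg (not_not.2 h), if_pos h]
    · rw [if_pos h, if_neg h]
  rw [cE_congr w p e]
  refine h.trans (mul_le_mul_of_nonneg_right ?_ hdl)
  have : (k1 : ℝ) ≤ D := by exact_mod_cast hD
  exact pow_le_pow_left₀ (by positivity) (by linarith) 2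

/-- **THE PRICE OF THREE LEVELS WITH AN OWN FACTOR, own region behind**: `Z1 < Z2 < [g0, g1] < own` for both margins. -/
theorem fibR [MxQ Q] [SwQ Q] (η : Env) {c3 e3 : ℕ} (hce : c3 ≤ e3) {Z : Type*} [DecidableEq Z] {q0 : Px Q → Z}
    (hc : Crs (pJ c3 e3) q0)
    {g : Px Q → ℝ} {δ Lg : ℝ} (hδ : 0 < δ) (hLg : 0 ≤ Lg) {c al be e : ℕ} (hL : Dif (lw μ s η N Q) q0 (NM c al be e) Lg g)
    (hout : ∀ u v : Px Q, q0 u = q0 v → ∀ k, g0 ≤ k → k ≤ g1 → ps u k = ps v k)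
    {A : Px Q → ℝ} (hA0 : ∀ y, 0 ≤ A y) (hA1' : ∀ y, A y ≤ 1) {Bo : Px Q → Prop} {eo : ℝ} (S0 : Px Q)
    (hBA : cE (lw μ s η N Q) (pJ c3 e3) (ind Bo) S0 * cE (lw μ s η N Q) (pJ c3 e3) A S0 ≤ eo)
    {a1 m1 a2 m2 : ℕ} (hA1 : c ≤ a1) (hA1e : en a1 m1 q ≤ al) (hA2 : c ≤ a2) (hA2e : en a2 m2 q ≤ al)
    {b1 n1 b2 n2 : ℕ} (hB1 : be ≤ b1) (hB1e : en b1 n1 q ≤ e) (hB2 : be ≤ b2) (hB2e : en b2 n2 q ≤ e)
    (hd : 0 ≤ d) (hd1 : 0 ≤ d1) (hd3 : 0 ≤ d3) (hdl : 0 < dl) {r1 r D : ℕ}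
    (h1 : c3 ≤ r1) (h2 : r1 ≤ a2) (h2' : r1 ≤ b2) (h3 : en a2 m2 q < g0) (h3' : en b2 n2 q < g0) (h4 : g0 ≤ g1) (h5 : g1 ≤ r)
    (h6 : r ≤ e3) (hD : g1 ≤ D) :
    cE (lw μ s η N Q) (pJ c3 e3) (ind fun x => ¬ (Ev (lw μ s η N Q) (pJ c3 e3) (pJ c3 r) (pJ r1 e3) Bo q d d1 d3 g0 g1 a1 m1 a2 m2 x ∨
      Ev (lw μ s η N Q) (pJ c3 e3) (pJ c3 r) (pJ r1 e3) Bo q d d1 d3 g0 g1 b1 n1 b2 n2 x)) S0 *
      T4 (lw μ s η N Q) (pJ c3 e3) g δ A S0 ≤ Kap eo Lg δ q d (dl⁻¹ * d1) d3 + 3 * ((D + 1) ^ 2 * dl) := by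
  classical
  set w := lw μ s η N Q with hw
  have he : 0 ≤ dl⁻¹ * d1 := mul_nonneg (inv_pos.2 hdl).le hd1
  have hsm := T4A_small (μ := μ) (s := s) (N := N) (q := q) (d := d) (e1 := dl⁻¹ * d1) (d3 := d3) (g0 := g0) (g1 := g1) η
    (swP_pJ hce) hc hδ hLg hL hout hA0 hA1' (Bo := Bo) (eo := eo) S0 (by
      refine le_trans (le_of_eq ?_) hBA
      congr 1) hA1 hA1e hA2 hA2e hB1 hB1e hB2 hB2e hd he hd3
  have hsm' : cE w (pJ c3 e3) (ind fun x => okE w (pJ c3 e3) Bo q d (dl⁻¹ * d1) d3 g0 g1 a1 m1 a2 m2 x ∧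
      okE w (pJ c3 e3) Bo q d (dl⁻¹ * d1) d3 g0 g1 b1 n1 b2 n2 x) S0 * T4 w (pJ c3 e3) g δ A S0 ≤
      Kap eo Lg δ q d (dl⁻¹ * d1) d3 := by
    refine le_trans (le_of_eq ?_) hsm
    congr 1
    exact cE_congr _ _ (fun x => ind_eq _ x) S0
  have hcr : Crs (pJ (Q := Q) c3 e3) (pJ c3 r) := crs_pJ le_rfl h6
  have hcr' : Crs (pJ (Q := Q) c3 e3) (pJ r1 e3) := crs_pJ h1 le_rfl
  have hg := fib_gen w (pJ c3 e3) (Finset.univ : Finset (Fin 3)) (T4' := T4 w (pJ c3 e3) g δ A S0) (K2 := (D + 1) ^ 2 * dl)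
    (E := fun x => Ev w (pJ c3 e3) (pJ c3 r) (pJ r1 e3) Bo q d d1 d3 g0 g1 a1 m1 a2 m2 x ∨
      Ev w (pJ c3 e3) (pJ c3 r) (pJ r1 e3) Bo q d d1 d3 g0 g1 b1 n1 b2 n2 x)
    (ok := fun x => okE w (pJ c3 e3) Bo q d (dl⁻¹ * d1) d3 g0 g1 a1 m1 a2 m2 x ∧
      okE w (pJ c3 e3) Bo q d (dl⁻¹ * d1) d3 g0 g1 b1 n1 b2 n2 x)
    (T := ![Ty w (pJ c3 r) dl g0 g1, Ty w (pJ r1 e3) dl a2 (en a2 m2 q), Ty w (pJ r1 e3) dl b2 (en b2 n2 q)])
    (fun x hE hT => by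
      rw [not_or] at hE
      have t0 := hT 0 (mem_univ _)
      have t1 := hT 1 (mem_univ _)
      have t2 := hT 2 (mem_univ _)
      simp only [Matrix.cons_val_zero, Matrix.cons_val_one, Matrix.cons_val] at t0 t1 t2
      exact ⟨okR η hdl h1 h2 h3 h5 h6 h4 t0 t1 hE.1, okR η hdl h1 h2' h3' h5 h6 h4 t0 t2 hE.2⟩)
    (T4_nonneg hA0 S0) ((T4_le_own hA0 S0).trans (cE_mem _ _ hA0 hA1' S0).2) S0 (K1 := Kap eo Lg δ q d (dl⁻¹ * d1) d3) hsm'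
    (fun i _ => by
      fin_cases i
      · exact ty_ind w hcr hdl.le hD S0
      · exact ty_ind w hcr' hdl.le (by omega) S0
      · exact ty_ind w hcr' hdl.le (by omega) S0)
  rw [card_univ, Fintype.card_fin] at hg
  exact_mod_cast hg

/-- **The same, own region in front**: `own < [g0, g1] < Z2 < Z1` for both margins. -/
theorem fibL [MxQ Q] [SwQ Q] (η : Env) {c3 e3 : ℕ} (hce : c3 ≤ e3) {Z : Type*} [DecidableEq Z] {q0 : Px Q → Z}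
    (hc : Crs (pJ c3 e3) q0)
    {g : Px Q → ℝ} {δ Lg : ℝ} (hδ : 0 < δ) (hLg : 0 ≤ Lg) {c al be e : ℕ} (hL : Dif (lw μ s η N Q) q0 (NM c al be e) Lg g)
    (hout : ∀ u v : Px Q, q0 u = q0 v → ∀ k, g0 ≤ k → k ≤ g1 → ps u k = ps v k)
    {A : Px Q → ℝ} (hA0 : ∀ y, 0 ≤ A y) (hA1' : ∀ y, A y ≤ 1) {Bo : Px Q → Prop} {eo : ℝ} (S0 : Px Q)
    (hBA : cE (lw μ s η N Q) (pJ c3 e3) (ind Bo) S0 * cE (lw μ s η N Q) (pJ c3 e3) A S0 ≤ eo)
    {a1 m1 a2 m2 : ℕ} (hA1 : c ≤ a1) (hA1e : en a1 m1 q ≤ al) (hA2 : c ≤ a2) (hA2e : en a2 m2 q ≤ al)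
    {b1 n1 b2 n2 : ℕ} (hB1 : be ≤ b1) (hB1e : en b1 n1 q ≤ e) (hB2 : be ≤ b2) (hB2e : en b2 n2 q ≤ e)
    (hd : 0 ≤ d) (hd1 : 0 ≤ d1) (hd3 : 0 ≤ d3) (hdl : 0 < dl) {r1 r D : ℕ}
    (h1 : c3 ≤ r1) (h2 : r1 ≤ g0) (h3 : g0 ≤ g1) (h4 : g1 < a2) (h4' : g1 < b2) (h5 : en a2 m2 q ≤ r) (h5' : en b2 n2 q ≤ r)
    (h6 : r ≤ e3) (hD : r ≤ D) :
    cE (lw μ s η N Q) (pJ c3 e3) (ind fun x => ¬ (Ev (lw μ s η N Q) (pJ c3 e3) (pJ r1 e3) (pJ c3 r) Bo q d d1 d3 g0 g1 a1 m1 a2 m2 x ∨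
      Ev (lw μ s η N Q) (pJ c3 e3) (pJ r1 e3) (pJ c3 r) Bo q d d1 d3 g0 g1 b1 n1 b2 n2 x)) S0 *
      T4 (lw μ s η N Q) (pJ c3 e3) g δ A S0 ≤ Kap eo Lg δ q d (dl⁻¹ * d1) d3 + 3 * ((D + 1) ^ 2 * dl) := by
  classical
  set w := lw μ s η N Q with hw
  have he : 0 ≤ dl⁻¹ * d1 := mul_nonneg (inv_pos.2 hdl).le hd1
  have hsm := T4A_small (μ := μ) (s := s) (N := N) (q := q) (d := d) (e1 := dl⁻¹ * d1) (d3 := d3) (g0 := g0) (g1 := g1) η
    (swP_pJ hce) hc hδ hLg hL hout hA0 hA1' (Bo := Bo) (eo := eo) S0 (by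
      refine le_trans (le_of_eq ?_) hBA
      congr 1) hA1 hA1e hA2 hA2e hB1 hB1e hB2 hB2e hd he hd3
  have hsm' : cE w (pJ c3 e3) (ind fun x => okE w (pJ c3 e3) Bo q d (dl⁻¹ * d1) d3 g0 g1 a1 m1 a2 m2 x ∧
      okE w (pJ c3 e3) Bo q d (dl⁻¹ * d1) d3 g0 g1 b1 n1 b2 n2 x) S0 * T4 w (pJ c3 e3) g δ A S0 ≤
      Kap eo Lg δ q d (dl⁻¹ * d1) d3 := by
    refine le_trans (le_of_eq ?_) hsm
    congr 1
    exact cE_congr _ _ (fun x => ind_eq _ x) S0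
  have hcr : Crs (pJ (Q := Q) c3 e3) (pJ c3 r) := crs_pJ le_rfl h6
  have hcr' : Crs (pJ (Q := Q) c3 e3) (pJ r1 e3) := crs_pJ h1 le_rfl
  have hen : a2 ≤ en a2 m2 q := Nat.le_add_right _ _
  have hg := fib_gen w (pJ c3 e3) (Finset.univ : Finset (Fin 3)) (T4' := T4 w (pJ c3 e3) g δ A S0) (K2 := (D + 1) ^ 2 * dl)
    (E := fun x => Ev w (pJ c3 e3) (pJ r1 e3) (pJ c3 r) Bo q d d1 d3 g0 g1 a1 m1 a2 m2 x ∨
      Ev w (pJ c3 e3) (pJ r1 e3) (pJ c3 r) Bo q d d1 d3 g0 g1 b1 n1 b2 n2 x)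
    (ok := fun x => okE w (pJ c3 e3) Bo q d (dl⁻¹ * d1) d3 g0 g1 a1 m1 a2 m2 x ∧
      okE w (pJ c3 e3) Bo q d (dl⁻¹ * d1) d3 g0 g1 b1 n1 b2 n2 x)
    (T := ![Ty w (pJ r1 e3) dl g0 g1, Ty w (pJ c3 r) dl a2 (en a2 m2 q), Ty w (pJ c3 r) dl b2 (en b2 n2 q)])
    (fun x hE hT => by
      rw [not_or] at hE
      have t0 := hT 0 (mem_univ _)
      have t1 := hT 1 (mem_univ _)
      have t2 := hT 2 (mem_univ _)
      simp only [Matrix.cons_val_zero, Matrix.cons_val_one, Matrix.cons_val] at t0 t1 t2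
      exact ⟨okL η hdl h1 h2 h3 h4 h5 h6 t0 t1 hE.1, okL η hdl h1 h2 h3 h4' h5' h6 t0 t2 hE.2⟩)
    (T4_nonneg hA0 S0) ((T4_le_own hA0 S0).trans (cE_mem _ _ hA0 hA1' S0).2) S0 (K1 := Kap eo Lg δ q d (dl⁻¹ * d1) d3) hsm'
    (fun i _ => by
      fin_cases i
      · exact ty_ind w hcr' hdl.le (by omega) S0
      · exact ty_ind w hcr hdl.le (by omega) S0
      · exact ty_ind w hcr hdl.le (by omega) S0)
  rw [card_univ, Fintype.card_fin] at hg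
  exact_mod_cast hg

end Prc

/-! ### Rules for `T4` and the corners -/

section Rul4

variable {w g : Px Q → ℝ} {p : Px Q → Y} {δ : ℝ} {A A' : Px Q → ℝ}

theorem T4_mono (h : ∀ y, A y ≤ A' y) (x : Px Q) : T4 w p g δ A x ≤ T4 w p g δ A' x :=
  cE_mono w p (fun y => mul_le_mul_of_nonneg_right (h y) (ud_mem x y).1) x

theorem T4_add (x : Px Q) : T4 w p g δ (fun y => A y + A' y) x = T4 w p g δ A x + T4 w p g δ A' x := by
  unfold T4
  rw [← cE_addf]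
  exact cE_congr w p (fun y => add_mul _ _ _) x

theorem T4_smul (k : ℝ) (x : Px Q) : T4 w p g δ (fun y => k * A y) x = k * T4 w p g δ A x := by
  unfold T4
  rw [← cE_mulf]
  exact cE_congr w p (fun y => mul_assoc _ _ _) x

/-- Both corners, conditionally, with the own factor: `Φ ≤ B E1 A`. -/
theorem cond_own (p : Px Q → Y) {Φ : Px Q → ℝ} {B E1 M : ℝ} (hΦ : ∀ x, 0 ≤ Φ x) (hB : ∀ x, Φ x ≤ B) (hA0 : ∀ x, 0 ≤ A x)
    (hE1 : 0 ≤ E1) (hΦA : ∀ x, Φ x ≤ B * (E1 * A x)) (hg : ∀ x, |g x| ≤ M)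
    {t τ δ : ℝ} (ht : |t| ≤ 1) (hτ : |τ| ≤ 1) (hδ : 0 ≤ δ) (x : Px Q) :
    cE (w + t • g) p Φ x ≤ Real.exp (2 * δ) * (cE (w + g) p Φ x + cE (w - g) p Φ x) +
      B * min 1 (E1 * Real.exp (12 * M) * T4 (w + τ • g) p g δ A x) := by
  have hB0 : 0 ≤ B := (hΦ x).trans (hB x)
  refine (two_corner w g p hΦ ht hδ x).trans (add_le_add_right ?_ _)
  have tilt : ∀ r : ℝ, |r| ≤ 1 → ∀ {f : Px Q → ℝ}, (∀ y, 0 ≤ f y) →
      cE (w + r • g) p f x ≤ Real.exp (4 * M) * cE (w + τ • g) p f x := by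
    intro r hr f hf
    have e : w + r • g = (w + τ • g) + (r - τ) • g := by
      rw [add_assoc, ← add_smul]
      congr 2
      ring
    have h1 : ∀ y, |((r - τ) • g) y| ≤ 2 * M := fun y => by
      rw [Pi.smul_apply, smul_eq_mul, abs_mul]
      exact mul_le_mul ((abs_sub _ _).trans (by linarith)) (hg y) (abs_nonneg _) (by norm_num)
    have h2 := Pool.W7d29a1.C0.R43.cE_tilt h1 p hf x (w := w + τ • g)
    rw [e]
    refine h2.trans (le_of_eq ?_)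
    congr 2
    ring
  have tp := fun {f : Px Q → ℝ} (hf : ∀ y, 0 ≤ f y) => tilt 1 (by norm_num) hf
  have tm := fun {f : Px Q → ℝ} (hf : ∀ y, 0 ≤ f y) => tilt (-1) (by norm_num) hf
  simp only [one_smul, neg_one_smul, ← sub_eq_add_neg] at tp tm
  set U : Px Q → ℝ := fun y => cE (w + g) p (upI g δ y) x with hU
  set D : Px Q → ℝ := fun y => cE (w - g) p (dnI g δ y) x with hD
  have U0 : ∀ y, 0 ≤ U y := fun y => cE_nonneg _ _ (fun z => (upI_mem g δ y z).1) _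
  have U1 : ∀ y, U y ≤ 1 := fun y => (cE_mem _ _ (fun z => (upI_mem g δ y z).1) (fun z => (upI_mem g δ y z).2) _).2
  have D0 : ∀ y, 0 ≤ D y := fun y => cE_nonneg _ _ (fun z => (dnI_mem g δ y z).1) _
  have D1 : ∀ y, D y ≤ 1 := fun y => (cE_mem _ _ (fun z => (dnI_mem g δ y z).1) (fun z => (dnI_mem g δ y z).2) _).2
  have hmin : ∀ b1 b2 : ℝ, ∀ v : ℝ, v ≤ B * b1 → v ≤ B * b2 → v ≤ B * min b1 b2 := by
    intro b1 b2 v h1 h2
    rw [mul_min_of_nonneg _ _ hB0]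
    exact le_min h1 h2
  refine hmin _ _ _ ?_ ?_
  · have h := cE_mono (w + t • g) p (f := fun y => Φ y * (U y * D y)) (g := fun _ => B) (fun y =>
      (mul_le_of_le_one_right (hΦ y) (mul_le_one₀ (U1 y) (D0 y) (D1 y))).trans (hB y)) x
    rw [cE_constf] at h
    rwa [mul_one]
  · have e4 : 0 ≤ Real.exp (4 * M) := (Real.exp_pos _).le
    have h1 : ∀ y, Φ y * (U y * D y) ≤ (B * E1 * (Real.exp (4 * M) * Real.exp (4 * M))) *
        (A y * (cE (w + τ • g) p (upI g δ y) x * cE (w + τ • g) p (dnI g δ y) x)) := by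
      intro y
      have k1 := tp (fun z => (upI_mem g δ y z).1)
      have k2 := tm (fun z => (dnI_mem g δ y z).1)
      have k3 : U y * D y ≤ (Real.exp (4 * M) * cE (w + τ • g) p (upI g δ y) x) *
          (Real.exp (4 * M) * cE (w + τ • g) p (dnI g δ y) x) := mul_le_mul k1 k2 (D0 y) (mul_nonneg e4
            (cE_nonneg _ _ (fun z => (upI_mem g δ y z).1) _))
      have k4 := mul_le_mul (hΦA y) k3 (mul_nonneg (U0 y) (D0 y)) (mul_nonneg hB0 (mul_nonneg hE1 (hA0 y)))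
      refine k4.trans (le_of_eq ?_)
      ring
    have h2 := cE_mono (w + t • g) p h1 x
    rw [cE_mulf] at h2
    have h3 := tilt t ht (f := fun y => A y * (cE (w + τ • g) p (upI g δ y) x * cE (w + τ • g) p (dnI g δ y) x))
      (fun y => mul_nonneg (hA0 y) (ud_mem x y).1)
    have h4 := mul_le_mul_of_nonneg_left h3 (show 0 ≤ B * E1 * (Real.exp (4 * M) * Real.exp (4 * M)) by positivity)
    refine h2.trans (h4.trans (le_of_eq ?_))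
    have e12 : Real.exp (12 * M) = Real.exp (4 * M) * Real.exp (4 * M) * Real.exp (4 * M) := by
      rw [← Real.exp_add, ← Real.exp_add]
      congr 1
      ring
    rw [e12]
    unfold T4
    ring

end Rul4

section Frz

variable [SwQ Q] {c al be d : ℕ} {w g A : Px Q → ℝ}

/-- **THE FROZEN CORNER INEQUALITY WITH THE OWN FACTOR.** `u` = the corner `w + g`, `H ≥ 0` a function of the outside `pJ c d`. -/
theorem frozen_own (hab : al ≤ be) (hw : Wk c al be d w) (hl : Lk al be g) {H Φ : Px Q → ℝ} {B E1 M : ℝ} (hH : Mp (pJ c d) H)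
    (hH0 : ∀ S, 0 ≤ H S) (hΦ : ∀ S, 0 ≤ Φ S) (hB : ∀ S, Φ S ≤ B) (hA0 : ∀ x, 0 ≤ A x) (hE1 : 0 ≤ E1)
    (hΦA : ∀ x, Φ x ≤ B * (E1 * A x)) (hg : ∀ S, |g S| ≤ M) {t δ : ℝ} (ht : |t| ≤ 1) (hδ : 0 ≤ δ) :
    gm (w + g) (H * cE (w + t • g) (pJ c d) Φ) ≤
      Real.exp (2 * δ) * (gm (w + g) (H * Φ) + (gm (w - g) (H * Φ) +
        gm (w + g) (fun S => H S * cE (w - g) (pJ c d) Φ S * gm (w - g) (NM c al be d S)))) +
      B * gm (w + g) (fun S => H S * min 1 (E1 * Real.exp (12 * M) * T4 (w + g) (pJ c d) g δ A S)) := by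
  have h1 : ∀ x, (H * cE (w + t • g) (pJ c d) Φ) x ≤ (Real.exp (2 * δ) • (H * cE (w + g) (pJ c d) Φ + H * cE (w - g) (pJ c d) Φ) +
      B • (fun S => H S * min 1 (E1 * Real.exp (12 * M) * T4 (w + g) (pJ c d) g δ A S))) x := by
    intro x
    have h := mul_le_mul_of_nonneg_left (cond_own (pJ c d) hΦ hB hA0 hE1 hΦA hg ht (τ := 1) (by norm_num) hδ x (w := w)) (hH0 x)
    rw [one_smul] at h
    simp only [Pi.mul_apply, Pi.add_apply, Pi.smul_apply, smul_eq_mul]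
    linarith
  have h := gm_mono (w + g) h1
  rw [gm_add, gm_smul, gm_smul, gm_add] at h
  have e1 : gm (w + g) (H * cE (w + g) (pJ c d) Φ) = gm (w + g) (H * Φ) := gm_mul_cE (w + g) hH _
  have h2 := gm_swap_line hab hw hl (H := H * cE (w - g) (pJ c d) Φ) (hH.mul (cE_meas _ _ _))
    (fun S => mul_nonneg (hH0 S) (cE_nonneg _ _ hΦ S)) 1 (-1)
  rw [one_smul, neg_one_smul, ← sub_eq_add_neg, gm_mul_cE (w - g) hH Φ] at h2
  rw [e1] at h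
  refine h.trans (add_le_add_left (mul_le_mul_of_nonneg_left (add_le_add_right h2 _) (Real.exp_pos _).le) _)

end Frz

end

end Pool.W7d29a1.C0.O1
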