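import Pool.Agent.W_7d29a1_C0.NT51F
import Pool.Agent.W_7d29a1_C0.Glue86
import Pool.Agent.W_7d29a1_C0.Tau86B
import Pool.Agent.W_7d29a1_C0.Own1C

/-!
MP_7d29a1_pr, [CURV0] / [C0], leaf okE_price, case (iii) (helper29): THE PRICE OF THE MASS OF TWO ALTERNATIVES APART FROM THE PATH AND FROM
EACH OTHER, in the model form, over helper51's `K51`. `NT_mc3`: `O1.NT` is helper51's `mc3`. `pl3_nt`: the place: price
`(R L ^ ε / EE' l) ^ 2`, it uses the rows `[U, U + l)` only and sees the rows of the block `(c', d']`; `R` is the ratio of the widths of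
the shorter side of the block and of `l`. `nte_price`: `∫ gm (f * G) ≤ (R L ^ ε / EE' l) ^ 2 ∫ gm f + error` for `G ≤ exp (L ^ κ) NT` and
`f` blind to finite changes of `[U, U + l)`.
-/

set_option autoImplicit false

namespace Pool.Agent.W_7d29a1_C0.N29

open MeasureTheory ProbabilityTheory Filter Topology Finset
open Pool.Agent.W_7d29a1_F Pool.Agent.W_7d29a1_X Pool.Agent.W_7d29a1_h4g Pool.Agent.W_7d29a1_H
open Pool.Agent.W_7d29a1_HS (In wd md)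
open Pool.Agent.W_7d29a1_HZ Pool.Agent.W_7d29a1_HZ.R72 Pool.Agent.W_7d29a1_Z.Asm72
open Pool.Agent.W_7d29a1_HZ.Z86
open Pool.Agent.W_7d29a1_C0.Mod92 (Px Pn lw ps pJ ne_Pn ps_Pn pos_card ps_of_le ps_of_ge wm Pm meas_lw meas_cE meas_gz meas_gm int_Pm)
open Pool.Agent.W_7d29a1_C0.Swap57 (NI cE2)
open Pool.Agent.W_7d29a1_C0.P86
open Pool.Agent.W_7d29a1_C0.N51 (On3 mc3 mc3_nonneg P3 P3_mono' Pl3 pl3_wt K51 nm_mono)
open Pool.W7d29a1.C0 (gm gz gz_pos gm_nonneg gm_mono gm_const)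
open Pool.W7d29a1.C0.VT31 (Mp cE gm_mul_cE fz cE_sum)
open Pool.W7d29a1.C0.O1 (cE_fib_congr cE_fib_mono)
open scoped ENNReal

noncomputable section

variable {μ : Measure ℝ} {s : ℝ} {N : ℕ}

/-! ### The event -/

/-- The alternatives have a gap against the path and are apart from each other. -/
def A3 (c d U V : ℕ) (S a b : Finset ℕ) : Prop := Gap c d U V S a ∧ Gap c d U V S b ∧ NoMeet U V a b

theorem gap_congr {c d c' d' U V : ℕ} (h0 : c ≤ c') (h1 : c' ≤ U) (hUV : U ≤ V) (h2 : V ≤ d') (h3 : d' ≤ d) {S a a' : Finset ℕ}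
    (h : ∀ i, c ≤ i → i ≤ d → pos a i = pos a' i) : Gap c' d' U V S a → Gap c' d' U V S a' := by
  rintro ⟨i, j, g1, g2, g3, g4, g5, g6, g7⟩
  refine ⟨i, j, g1, g2, g3, g4, ?_, ?_, fun k k1 k2 => ?_⟩
  · rw [← h i (by omega) (by omega)]
    exact g5
  · rw [← h j (by omega) (by omega)]
    exact g6
  · rw [← h k (by omega) (by omega)]
    exact g7 k k1 k2

theorem on3_A3 {c d c' d' U V : ℕ} (h0 : c ≤ c') (h1 : c' ≤ U) (hUV : U ≤ V) (h2 : V ≤ d') (h3 : d' ≤ d) :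
    On3 c d c d (A3 c' d' U V) := by
  intro S a a' b b' ha hb
  refine and_congr ⟨gap_congr h0 h1 hUV h2 h3 ha, gap_congr h0 h1 hUV h2 h3 fun i g g' => (ha i g g').symm⟩
    (and_congr ⟨gap_congr h0 h1 hUV h2 h3 hb, gap_congr h0 h1 hUV h2 h3 fun i g g' => (hb i g g').symm⟩
      (forall_congr' fun k => forall_congr' fun g1 => forall_congr' fun g2 => ?_))
  rw [ha k (by omega) (by omega), hb k (by omega) (by omega)]

theorem agr {y c d : ℕ} {u x : Px (Pn N y)} (hu : pJ c d u = pJ c d x) (j : ℕ) (hj : j ≤ c ∨ d ≤ j) : pos x.1 j = pos u.1 j := by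
  rcases hj with hj | hj
  · exact (ps_of_le hu hj).symm
  · exact (ps_of_ge hu hj).symm

/-- The mass of two alternatives is monotone in the event, for paths which agree outside of the block. -/
theorem mc3_fib {y c d : ℕ} {A B : Finset ℕ → Finset ℕ → Finset ℕ → Prop}
    (h : ∀ S a b, S ∈ Pn N y → a ∈ Pn N y → b ∈ Pn N y → (∀ j, j ≤ c ∨ d ≤ j → pos S j = pos a j) →
      (∀ j, j ≤ c ∨ d ≤ j → pos S j = pos b j) → A S a b → B S a b) (η : Env) (S : Finset ℕ) :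
    mc3 μ s N y c d c d A η S ≤ mc3 μ s N y c d c d B η S := by
  classical
  unfold mc3
  by_cases hS : S ∈ Pn N y
  · have : Nonempty (Px (Pn N y)) := ⟨⟨S, hS⟩⟩
    rw [dif_pos hS, dif_pos hS]
    refine cE_fib_mono _ _ fun u hu => ?_
    unfold mc
    rw [dif_pos hS, dif_pos hS]
    refine cE_fib_mono _ _ fun v hv => ?_
    by_cases hA : A S u.1 v.1
    · rw [if_pos hA, if_pos (h S u.1 v.1 hS u.2 v.2 (agr hu) (agr hv) hA)]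
    · rw [if_neg hA]
      split_ifs <;> norm_num
  · rw [dif_neg hS, dif_neg hS]

/-- **`NT` is the mass of two alternatives.** -/
theorem NT_mc3 {y c d U V : ℕ} (hy : y ≤ N) (h1 : c ≤ U) (h2 : V ≤ d) (η : Env) (x : Px (Pn N y)) :
    Pool.W7d29a1.C0.O1.NT (lw μ s η N (Pn N y)) (pJ c d) U V x = mc3 μ s N y c d c d (A3 c d U V) η x.1 := by
  classical
  have := ne_Pn (N := N) (y := y) hy
  unfold Pool.W7d29a1.C0.O1.NT cE2 mc3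
  rw [dif_pos x.2]
  refine cE_fib_congr _ _ fun u hu => ?_
  unfold mc
  rw [dif_pos x.2]
  refine cE_fib_congr _ _ fun v hv => ?_
  unfold NI
  show (if ∀ k, U ≤ k → k ≤ V → ps x k ≠ ps u k then (1 : ℝ) else 0) * ((if ∀ k, U ≤ k → k ≤ V → ps x k ≠ ps v k then (1 : ℝ) else 0) *
    (if ∀ k, U ≤ k → k ≤ V → ps u k ≠ ps v k then (1 : ℝ) else 0)) = if A3 c d U V x.1 u.1 v.1 then (1 : ℝ) else 0
  by_cases g1 : NoMeet U V x.1 u.1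
  · by_cases g2 : NoMeet U V x.1 v.1
    · by_cases g3 : NoMeet U V u.1 v.1
      · rw [if_pos (show ∀ k, U ≤ k → k ≤ V → ps x k ≠ ps u k from g1), if_pos (show ∀ k, U ≤ k → k ≤ V → ps x k ≠ ps v k from g2),
          if_pos (show ∀ k, U ≤ k → k ≤ V → ps u k ≠ ps v k from g3), if_pos (show A3 c d U V x.1 u.1 v.1 from
            ⟨gap_of_nm h1 h2 (agr hu) g1, gap_of_nm h1 h2 (agr hv) g2, g3⟩)]
        norm_num
      · rw [if_neg (show ¬ ∀ k, U ≤ k → k ≤ V → ps u k ≠ ps v k from g3), if_neg (show ¬ A3 c d U V x.1 u.1 v.1 from fun h => g3 h.2.2),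
          mul_zero, mul_zero]
    · rw [if_neg (show ¬ ∀ k, U ≤ k → k ≤ V → ps x k ≠ ps v k from g2), if_neg (show ¬ A3 c d U V x.1 u.1 v.1 from fun h => by
          obtain ⟨-, ⟨-, -, -, -, -, -, -, -, g⟩, -⟩ := h
          exact g2 g), zero_mul, mul_zero]
  · rw [if_neg (show ¬ ∀ k, U ≤ k → k ≤ V → ps x k ≠ ps u k from g1), if_neg (show ¬ A3 c d U V x.1 u.1 v.1 from fun h => by
          obtain ⟨⟨-, -, -, -, -, -, -, -, g⟩, -⟩ := h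
          exact g1 g), zero_mul]

theorem mc3_meas {y c₁ d₁ c₂ d₂ : ℕ} (A : Finset ℕ → Finset ℕ → Finset ℕ → Prop) (S : Finset ℕ) :
    Measurable fun η : Env => mc3 μ s N y c₁ d₁ c₂ d₂ A η S := by
  classical
  unfold mc3
  by_cases hS : S ∈ Pn N y
  · simp only [dif_pos hS]
    have : Nonempty (Px (Pn N y)) := ⟨⟨S, hS⟩⟩
    exact Pool.Agent.W_7d29a1_C0.Mod92.meas_cE (Ω := Env) (X := Px (Pn N y)) (w := fun η => Mod92.lw μ s η N (Pn N y))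
      (f := fun η a => mc μ s N y c₂ d₂ (fun S b => A S a.1 b) η S) (fun x => Pool.Agent.W_7d29a1_C0.Mod92.meas_lw x)
      (fun x => mc_meas86 _ S) (pJ c₁ d₁) ⟨S, hS⟩
  · simp only [dif_neg hS]
    exact measurable_const

theorem mc3_box {y c₁ d₁ c₂ d₂ : ℕ} {A : Finset ℕ → Finset ℕ → Finset ℕ → Prop} {η η' : Env} (h : EqB N η η') (S : Finset ℕ) :
    mc3 μ s N y c₁ d₁ c₂ d₂ A η S = mc3 μ s N y c₁ d₁ c₂ d₂ A η' S := by
  unfold mc3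
  simp only [lw_box h, mc_box h]

/-! ### The place -/

variable [IsProbabilityMeasure μ]

/-- **THE PLACE OF TWO ALTERNATIVES**, from helper51's construction. -/
theorem pl3_K51 {l H : ℕ} {y : ℕ} {r q : ℝ} {g : ℤ} {T2 T3 : ℕ → ℕ → ℕ → Env → Finset ℕ → Prop}
    {Gd : ℕ → Env → Finset ℕ → Finset ℕ → Finset ℕ → Prop} (hK : K51 μ s N l H y r q g T2 T3 Gd) {c' d' U V : ℕ}
    (h1 : c' ≤ U) (h2 : U + l ≤ V) (h3 : V ≤ d') (h4 : d' ≤ N) (hnear : d' - U ≤ H ∨ V - c' ≤ H) :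
    Pl3 μ s N y (ENNReal.ofReal (r ^ 2)) (ENNReal.ofReal q) (A3 c' d' U V) (Ico U (U + l)) (Ioc c' d') := by
  refine ⟨T3 U c' d', hK.ms3 U c' d', fun J' hJ' => hK.off3 U c' d' J' fun j hj => ?_, ?_, fun F hF hFo => hK.pr3 U c' d' F hF hFo⟩
  · have := disjoint_left.1 hJ' hj
    rw [mem_Ioc] at this
    omega
  · refine (P3_mono' fun η S a b _ _ _ _ _ _ hev => ?_).trans (hK.good U)
    intro hGd
    obtain ⟨⟨⟨i, i', g1, g2, g3, g4, g5, g6, g7⟩, ⟨j, j', k1, k2, k3, k4, k5, k6, k7⟩, hab⟩, hnT⟩ := hev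
    have hU : 1 ≤ U := by
      by_contra hU
      have hU0 : U = 0 := by omega
      refine g7 0 (by omega) (by omega) ?_
      simp [pos]
    have hm : U + l / 4 ≤ V := by have := Nat.div_le_self l 4; omega
    refine hnT (hK.two U c' d' η S a b i i' j j' hU (by omega) h4 hGd (nm_mono g7 le_rfl hm) (nm_mono k7 le_rfl hm) (nm_mono hab le_rfl hm)
      g1 g2 (by omega) g4 ?_ g5 g6 k1 k2 (by omega) k4 ?_ k5 k6)
    · rcases hnear with q | q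
      · right
        omega
      · left
        omega
    · rcases hnear with q | q
      · right
        omega
      · left
        omega

/-- The construction at one scale with closings at any distance `H`: `R` bounds the widths up to `H` by the width of the window
(helper15's `core51R`). -/
def CoreR (μ : Measure ℝ) (s : ℝ) : Prop := ∀ ε θ : ℝ, 0 < ε → 0 < θ → ∃ δ c' : ℝ, 0 < δ ∧ 0 < c' ∧ ∃ L₀ : ℕ, ∀ L : ℕ, L₀ ≤ L →
    ∀ N t : ℕ, L ≤ 16 * N → N ≤ L → (L : ℝ) ^ θ ≤ t → t ≤ N → ∀ y : ℤ, 0 ≤ y → y ≤ N →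
    |(y : ℝ) - sl μ s * N| ≤ ((L : ℝ) ^ δ * wd' μ s N) → ∀ (H : ℕ) (R : ℝ), 1 ≤ R →
    (∀ j : ℕ, 1 ≤ j → j ≤ H → wd' μ s j ≤ R * wd' μ s t) →
    ∃ (g : ℤ) (T2 T3 : ℕ → ℕ → ℕ → Env → Finset ℕ → Prop) (Gd : ℕ → Env → Finset ℕ → Finset ℕ → Finset ℕ → Prop),
      K51 μ s N t H y (R * ((L : ℝ) ^ ε * (EE' μ s t)⁻¹)) (Real.exp (-(L : ℝ) ^ c')) g T2 T3 Gd

/-- **THE PLACE OF TWO ALTERNATIVES.** -/
theorem pl3_nt (hC : CoreR μ s) : ∀ ε θ : ℝ, 0 < ε → 0 < θ → ∃ δ c₁ : ℝ, 0 < δ ∧ 0 < c₁ ∧ ∃ L₀ : ℕ,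
    ∀ L : ℕ, L₀ ≤ L → ∀ N : ℕ, L ≤ 16 * N → N ≤ L → ∀ y : ℕ, y ≤ N → |(y : ℝ) - sl μ s * N| ≤ ((L : ℝ) ^ δ * wd' μ s N) →
    ∀ c' d' U V l : ℕ, c' ≤ U → U + l ≤ V → V ≤ d' → d' ≤ N → (L : ℝ) ^ θ ≤ l →
    ∀ (H : ℕ) (R : ℝ), 1 ≤ R → (∀ j : ℕ, 1 ≤ j → j ≤ H → wd' μ s j ≤ R * wd' μ s l) → (d' - U ≤ H ∨ V - c' ≤ H) →
    Pl3 μ s N y (ENNReal.ofReal ((R * ((L : ℝ) ^ ε * (EE' μ s l)⁻¹)) ^ 2)) (ENNReal.ofReal (Real.exp (-(L : ℝ) ^ c₁))) (A3 c' d' U V)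
      (Ico U (U + l)) (Ioc c' d') := by
  intro ε θ hε hθ
  obtain ⟨δ, c₁, hδ, hc₁, L₀, hP⟩ := hC ε θ hε hθ
  refine ⟨δ, c₁, hδ, hc₁, L₀, ?_⟩
  intro L hL N hLN hNL y hyN hyc c' d' U V l h1 h2 h3 h4 hl H R hR hw hnear
  obtain ⟨g, T2, T3, Gd, hK⟩ := hP L hL N l hLN hNL hl (by omega) y (by positivity) (by exact_mod_cast hyN) (by exact_mod_cast hyc) H R hR hw
  exact pl3_K51 hK h1 h2 h3 h4 hnear

/-- **The price of the mass of two alternatives**, `Q1` form. -/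
theorem nte_Q1 {y c d c' d' U V : ℕ} (hy : y ≤ N) (h0 : c ≤ c') (h1 : c' ≤ U) (hUV : U ≤ V) (h2 : V ≤ d') (h3 : d' ≤ d) (h4 : d ≤ N)
    {A : Finset ℕ → Finset ℕ → Finset ℕ → Prop}
    (hA : ∀ S a b, S ∈ Pn N y → a ∈ Pn N y → b ∈ Pn N y → (∀ j, j ≤ c ∨ d ≤ j → pos S j = pos a j) →
      (∀ j, j ≤ c ∨ d ≤ j → pos S j = pos b j) → A S a b → A3 c' d' U V S a b)
    {r p : ℝ≥0∞} {J W : Finset ℕ} (hP : Pl3 μ s N y r p (A3 c' d' U V) J W)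
    {f : Env → Finset ℕ → ℝ≥0∞} (hf : ∀ S, Measurable fun η => f η S) (hf1 : ∀ η S, f η S ≤ 1) (hfo : OffW J f)
    {h : Env → Finset ℕ → ℝ≥0∞} (hh1 : ∀ η S, h η S ≤ 1) {G : ℝ≥0∞}
    (hh : ∀ η S, h η S ≤ G * ENNReal.ofReal (mc3 μ s N y c d c d A η S)) (x : ℝ) :
    Q1 μ s N y (fun η S => f η S * h η S) ≤ r * Q1 μ s N y f + (p + G * (ENNReal.ofReal (Real.exp (2 * x)) * p +
      2 * ENNReal.ofReal (((N : ℝ) + 1) ^ 2 * Real.exp (-x)))) := by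
  obtain ⟨NT', hms, -, hprod, hpr⟩ := hP
  have k1 := pl3_wt (μ := μ) (s := s) hy (⟨by omega, h4⟩ : c ≤ d ∧ d ≤ N) (⟨by omega, h4⟩ : c ≤ d ∧ d ≤ N) (on3_A3 h0 h1 hUV h2 h3) hms hf
    hf1 hh1 (fun η S => (hh η S).trans (mul_le_mul' le_rfl (ENNReal.ofReal_le_ofReal (mc3_fib hA η S)))) x
  have k2 : Q1 μ s N y (fun η S => f η S * ind (NT' η S)) ≤ r * Q1 μ s N y f + p :=
    wt_of_ev hms (JJ := {J}) (fun F hF hJ => hpr F hF (hJ J rfl)) hf hf1 fun J' hJ' => by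
      rw [Set.mem_singleton_iff] at hJ'
      rw [hJ']
      exact hfo
  refine k1.trans ((add_le_add k2 (mul_le_mul' le_rfl (add_le_add (mul_le_mul' le_rfl hprod) le_rfl))).trans (le_of_eq ?_))
  rw [add_assoc]

/-- The same for weights which are blind to finite changes. -/
theorem nte_QF {y c d c' d' U V : ℕ} (hy : y ≤ N) (h0 : c ≤ c') (h1 : c' ≤ U) (hUV : U ≤ V) (h2 : V ≤ d') (h3 : d' ≤ d) (h4 : d ≤ N)
    {A : Finset ℕ → Finset ℕ → Finset ℕ → Prop}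
    (hA : ∀ S a b, S ∈ Pn N y → a ∈ Pn N y → b ∈ Pn N y → (∀ j, j ≤ c ∨ d ≤ j → pos S j = pos a j) →
      (∀ j, j ≤ c ∨ d ≤ j → pos S j = pos b j) → A S a b → A3 c' d' U V S a b)
    {r p : ℝ≥0∞} {J W : Finset ℕ} (hP : Pl3 μ s N y r p (A3 c' d' U V) J W)
    {f : Env → Finset ℕ → ℝ≥0∞} (hf : ∀ S, Measurable fun η => f η S) (hf1 : ∀ η S, f η S ≤ 1) (hfo : OffF J f)
    {h : Env → Finset ℕ → ℝ≥0∞} (hh1 : ∀ η S, h η S ≤ 1) {G : ℝ≥0∞}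
    (hh : ∀ η S, h η S ≤ G * ENNReal.ofReal (mc3 μ s N y c d c d A η S)) (x : ℝ) :
    Q1 μ s N y (fun η S => f η S * h η S) ≤ r * Q1 μ s N y f + (p + G * (ENNReal.ofReal (Real.exp (2 * x)) * p +
      2 * ENNReal.ofReal (((N : ℝ) + 1) ^ 2 * Real.exp (-x)))) := by
  obtain ⟨m, hm⟩ : ∃ m : Env → Finset ℕ → ℝ≥0∞, m = fun η S => min 1 (G * ENNReal.ofReal (mc3 μ s N y c d c d A η S)) := ⟨_, rfl⟩
  have k1 : Q1 μ s N y (fun η S => f η S * h η S) ≤ Q1 μ s N y (fun η S => f η S * m η S) := by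
    refine Q1_mono fun η S _ _ => mul_le_mul' le_rfl ?_
    rw [hm]
    exact le_min (hh1 η S) (hh η S)
  refine k1.trans (off_fin (H := m) (I := {J}) (fun S => ?_) (fun η η' S hq => ?_) (fun f hf hf1 hfo => ?_) f hf hf1 ?_)
  · rw [hm]
    exact measurable_const.min (measurable_const.mul (mc3_meas A S).ennreal_ofReal)
  · rw [hm]
    simp only [mc3_box hq]
  · refine nte_Q1 hy h0 h1 hUV h2 h3 h4 hA hP hf hf1 (hfo J rfl) (fun η S => ?_) (fun η S => ?_) x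
    · rw [hm]
      exact min_le_left _ _
    · rw [hm]
      exact min_le_right _ _
  · intro J' hJ'
    rw [Set.mem_singleton_iff] at hJ'
    rw [hJ']
    exact hfo

omit [IsProbabilityMeasure μ] in
/-- The numbers. -/
theorem nte_num {c₁ : ℝ} (hc : 0 < c₁) : ∃ κ c₂ : ℝ, 0 < κ ∧ κ ≤ c₁ / 4 ∧ 0 < c₂ ∧ ∃ L₀ : ℕ, ∀ L : ℕ, L₀ ≤ L → ∀ N : ℕ, N ≤ L →
    Real.exp (-(L : ℝ) ^ c₁) + Real.exp ((L : ℝ) ^ κ) * (Real.exp (2 * (2 * (L : ℝ) ^ κ)) * Real.exp (-(L : ℝ) ^ c₁) +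
      2 * (((N : ℝ) + 1) ^ 2 * Real.exp (-(2 * (L : ℝ) ^ κ)))) ≤ Real.exp (-(L : ℝ) ^ c₂) := by
  obtain ⟨c₂, hc₂, -, L₂, hX⟩ := Pool.Agent.W_7d29a1_Z.NumI77.pow_exp (show 0 < c₁ / 4 by positivity) 3
  obtain ⟨L₃, hL₃⟩ := Pool.Agent.W_7d29a1_Z.NumI77.large (show 0 < c₁ / 4 by positivity) 4
  refine ⟨c₁ / 4, c₂, by positivity, le_rfl, hc₂, L₂ + L₃ + 100, ?_⟩
  intro L hL N hNL
  have hL100 : (100 : ℝ) ≤ L := by exact_mod_cast (show 100 ≤ L by omega)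
  have hL0 : (0 : ℝ) < L := by linarith
  obtain ⟨x, hx⟩ : ∃ x : ℝ, x = (L : ℝ) ^ (c₁ / 4) := ⟨_, rfl⟩
  obtain ⟨-, hx4, -⟩ := hL₃ L (by omega)
  have h5 := hX L (by omega)
  rw [← hx] at hx4 h5 ⊢
  have hxx : (L : ℝ) ^ c₁ = x ^ 4 := by
    rw [hx, ← Real.rpow_natCast, ← Real.rpow_mul hL0.le]
    congr 1
    push_cast
    ring
  rw [hxx]
  refine le_trans ?_ h5
  have hx0 : 0 ≤ x := by linarith
  have g0 : 6 * x ≤ x ^ 4 := by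
    have h1 : (64 : ℝ) ≤ x ^ 3 := by nlinarith [sq_nonneg x]
    nlinarith
  have hNL' : (N : ℝ) ≤ L := by exact_mod_cast hNL
  have hN0 : (0 : ℝ) ≤ N := Nat.cast_nonneg N
  have g3 : ((N : ℝ) + 1) ^ 2 ≤ 4 * (L : ℝ) ^ 2 := by nlinarith
  have g1 : Real.exp x * (Real.exp (2 * (2 * x)) * Real.exp (-x ^ 4)) ≤ Real.exp (-x) := by
    rw [← Real.exp_add, ← Real.exp_add, Real.exp_le_exp]
    linarith
  have g2 : Real.exp x * Real.exp (-(2 * x)) = Real.exp (-x) := by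
    rw [← Real.exp_add]
    congr 1
    ring
  have g4 : Real.exp (-x ^ 4) ≤ Real.exp (-x) := by
    rw [Real.exp_le_exp]
    linarith
  have hp0 := (Real.exp_pos (-x)).le
  have e3 : (L : ℝ) ^ (3 : ℝ) = (L : ℝ) ^ 3 := by
    rw [← Real.rpow_natCast]
    norm_num
  rw [e3]
  calc _ = Real.exp (-x ^ 4) + (Real.exp x * (Real.exp (2 * (2 * x)) * Real.exp (-x ^ 4)) +
        2 * (((N : ℝ) + 1) ^ 2 * (Real.exp x * Real.exp (-(2 * x))))) := by ring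
    _ ≤ Real.exp (-x) + (Real.exp (-x) + 2 * (4 * (L : ℝ) ^ 2 * Real.exp (-x))) := by
        rw [g2]
        refine add_le_add g4 (add_le_add g1 ?_)
        exact mul_le_mul_of_nonneg_left (mul_le_mul_of_nonneg_right g3 hp0) (by norm_num)
    _ = (2 + 8 * (L : ℝ) ^ 2) * Real.exp (-x) := by ring
    _ ≤ (L : ℝ) ^ 3 * Real.exp (-x) := by
        refine mul_le_mul_of_nonneg_right ?_ hp0
        nlinarith [sq_nonneg (L : ℝ)]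

/-- **THE PRICE OF `NT`**, model form. -/
theorem nte_price (hC : CoreR μ s) : ∀ ε θ : ℝ, 0 < ε → 0 < θ → ∃ δ κ c₂ : ℝ, 0 < δ ∧ 0 < κ ∧ 0 < c₂ ∧ ∃ L₀ : ℕ,
    ∀ L : ℕ, L₀ ≤ L → ∀ N : ℕ, L ≤ 16 * N → N ≤ L → ∀ y : ℕ, y ≤ N → |(y : ℝ) - sl μ s * N| ≤ ((L : ℝ) ^ δ * wd' μ s N) →
    ∀ c d U V l : ℕ, c ≤ U → U + l ≤ V → V ≤ d → d ≤ N → (L : ℝ) ^ θ ≤ l →
    ∀ (H : ℕ) (R : ℝ), 1 ≤ R → (∀ j : ℕ, 1 ≤ j → j ≤ H → wd' μ s j ≤ R * wd' μ s l) → (d - U ≤ H ∨ V - c ≤ H) →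
    ∀ f : Env × Finset ℕ → Px (Pn N y) → ℝ, (∀ A x, Measurable fun η => f (η, A) x) → (∀ ω x, 0 ≤ f ω x) → (∀ ω x, f ω x ≤ 1) →
    (∀ (η η' : Env) (A : Finset ℕ) (x : Px (Pn N y)), (∃ E : Finset Pt, (∀ q ∈ E, 0 ≤ q.1 ∧ q.1.toNat ∈ Ico U (U + l)) ∧
      ∀ q, q ∉ E → η q = η' q) → f (η, A) x = f (η', A) x) →
    ∀ G : Env × Finset ℕ → Px (Pn N y) → ℝ, (∀ ω x, 0 ≤ G ω x) → (∀ ω x, G ω x ≤ 1) →
    (∀ ω x, G ω x ≤ Real.exp ((L : ℝ) ^ κ) * Pool.W7d29a1.C0.O1.NT (wm μ s N (Pn N y) ω) (pJ c d) U V x) →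
    ∫ ω, gm (wm μ s N (Pn N y) ω) (fun x => f ω x * G ω x) ∂(Pm μ N) ≤
      (R * ((L : ℝ) ^ ε * (EE' μ s l)⁻¹)) ^ 2 * ∫ ω, gm (wm μ s N (Pn N y) ω) (f ω) ∂(Pm μ N) + Real.exp (-(L : ℝ) ^ c₂) := by
  intro ε θ hε hθ
  obtain ⟨δ, c₁, hδ, hc₁, L₁, hP⟩ := pl3_nt hC ε θ hε hθ
  obtain ⟨κ₂, c₂, hκ₂, -, hc₂, L₂, hNum⟩ := nte_num hc₁
  refine ⟨δ, κ₂, c₂, hδ, hκ₂, hc₂, L₁ + L₂ + 1, ?_⟩
  intro L hL N hLN hNL y hyN hyc c d U V l h1 h2 h3 h4 hl H R hR hw hnear f hfm hf0 hf1 hfo G hG0 hG1 hG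
  classical
  have hE : 0 < EE' μ s l := lt_of_lt_of_le one_pos (le_max_left _ _)
  have hPl := hP L (by omega) N hLN hNL y hyN hyc c d U V l h1 h2 h3 h4 hl H R hR hw hnear
  refine int_of_Q1 hyN (fun ω x => mul_nonneg (hf0 ω x) (hG0 ω x)) hfm hf0 hf1 (by positivity) (Real.exp_pos _).le fun A₀ => ?_
  have k1 := nte_QF (μ := μ) (s := s) (A := A3 c d U V) hyN le_rfl h1 (by omega) h3 le_rfl h4 (fun S a b _ _ _ _ _ h => h) hPl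
    (f := fun η S => ENNReal.ofReal (exP (f (η, A₀)) S)) (fun S => ?_)
    (fun η S => ENNReal.ofReal_le_one.2 (exP_le (hf1 (η, A₀)) S)) (fun η η' S hη => ?_)
    (h := fun η S => ENNReal.ofReal (exP (G (η, A₀)) S)) (fun η S => ENNReal.ofReal_le_one.2 (exP_le (hG1 (η, A₀)) S))
    (G := ENNReal.ofReal (Real.exp ((L : ℝ) ^ κ₂))) (fun η S => ?_) (2 * (L : ℝ) ^ κ₂)
  · refine le_trans (le_of_eq ?_) (k1.trans (add_le_add le_rfl ?_))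
    · congr 1
      funext η S
      rw [← ENNReal.ofReal_mul (exP_nonneg (hf0 (η, A₀)) S)]
      congr 1
      unfold exP
      by_cases hS : S ∈ Pn N y
      · simp only [dif_pos hS]
      · simp only [dif_neg hS, zero_mul]
    · refine le_trans (le_of_eq ?_) (ENNReal.ofReal_le_ofReal (hNum L (by omega) N hNL))
      rw [ENNReal.ofReal_add (Real.exp_pos _).le (by positivity), ENNReal.ofReal_mul (Real.exp_pos _).le,
        ENNReal.ofReal_add (by positivity) (by positivity), ENNReal.ofReal_mul (Real.exp_pos _).le,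
        ENNReal.ofReal_mul (p := 2) (by norm_num), ENNReal.ofReal_ofNat]
  · refine ENNReal.measurable_ofReal.comp ?_
    unfold exP
    by_cases hS : S ∈ Pn N y
    · simp only [dif_pos hS]
      exact hfm A₀ _
    · simp only [dif_neg hS]
      exact measurable_const
  · show ENNReal.ofReal (exP (f (η, A₀)) S) = ENNReal.ofReal (exP (f (η', A₀)) S)
    congr 1
    unfold exP
    by_cases hS : S ∈ Pn N y
    · rw [dif_pos hS, dif_pos hS]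
      exact hfo η η' A₀ ⟨S, hS⟩ hη
    · rw [dif_neg hS, dif_neg hS]
  · rw [← ENNReal.ofReal_mul (Real.exp_pos _).le]
    refine ENNReal.ofReal_le_ofReal ?_
    unfold exP
    by_cases hS : S ∈ Pn N y
    · rw [dif_pos hS]
      have g0 : Pool.W7d29a1.C0.O1.NT (wm μ s N (Pn N y) (η, A₀)) (pJ c d) U V ⟨S, hS⟩ = mc3 μ s N y c d c d (A3 c d U V) η S :=
        NT_mc3 hyN h1 h3 η ⟨S, hS⟩
      have g1 := hG (η, A₀) ⟨S, hS⟩
      rw [g0] at g1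
      exact g1
    · rw [dif_neg hS]
      exact mul_nonneg (Real.exp_pos _).le (mc3_nonneg η S)

/-- **THE PRICE OF THE EVENT `EvT`** (`d3 < NT`). -/
theorem evt_price (hC : CoreR μ s) : ∀ ε θ : ℝ, 0 < ε → 0 < θ → ∃ δ κ c₂ : ℝ, 0 < δ ∧ 0 < κ ∧ 0 < c₂ ∧ ∃ L₀ : ℕ,
    ∀ L : ℕ, L₀ ≤ L → ∀ N : ℕ, L ≤ 16 * N → N ≤ L → ∀ y : ℕ, y ≤ N → |(y : ℝ) - sl μ s * N| ≤ ((L : ℝ) ^ δ * wd' μ s N) →
    ∀ c d U V l : ℕ, c ≤ U → U + l ≤ V → V ≤ d → d ≤ N → (L : ℝ) ^ θ ≤ l →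
    ∀ (H : ℕ) (R : ℝ), 1 ≤ R → (∀ j : ℕ, 1 ≤ j → j ≤ H → wd' μ s j ≤ R * wd' μ s l) → (d - U ≤ H ∨ V - c ≤ H) →
    ∀ d3 : ℝ, Real.exp (-(L : ℝ) ^ κ) ≤ d3 →
    ∀ f : Env × Finset ℕ → Px (Pn N y) → ℝ, (∀ A x, Measurable fun η => f (η, A) x) → (∀ ω x, 0 ≤ f ω x) → (∀ ω x, f ω x ≤ 1) →
    (∀ (η η' : Env) (A : Finset ℕ) (x : Px (Pn N y)), (∃ E : Finset Pt, (∀ q ∈ E, 0 ≤ q.1 ∧ q.1.toNat ∈ Ico U (U + l)) ∧
      ∀ q, q ∉ E → η q = η' q) → f (η, A) x = f (η', A) x) →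
    ∀ G : Env × Finset ℕ → Px (Pn N y) → ℝ, (∀ ω x, 0 ≤ G ω x) → (∀ ω x, G ω x ≤ 1) →
    (∀ ω x, G ω x ≠ 0 → d3 < Pool.W7d29a1.C0.O1.NT (wm μ s N (Pn N y) ω) (pJ c d) U V x) →
    ∫ ω, gm (wm μ s N (Pn N y) ω) (fun x => f ω x * G ω x) ∂(Pm μ N) ≤
      (R * ((L : ℝ) ^ ε * (EE' μ s l)⁻¹)) ^ 2 * ∫ ω, gm (wm μ s N (Pn N y) ω) (f ω) ∂(Pm μ N) + Real.exp (-(L : ℝ) ^ c₂) := by
  intro ε θ hε hθ
  obtain ⟨δ, κ, c₂, hδ, hκ, hc₂, L₀, hP⟩ := nte_price hC ε θ hε hθ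
  refine ⟨δ, κ, c₂, hδ, hκ, hc₂, L₀, ?_⟩
  intro L hL N hLN hNL y hyN hyc c d U V l h1 h2 h3 h4 hl H R hR hw hnear d3 hd3 f hfm hf0 hf1 hfo G hG0 hG1 hG
  refine hP L hL N hLN hNL y hyN hyc c d U V l h1 h2 h3 h4 hl H R hR hw hnear f hfm hf0 hf1 hfo G hG0 hG1 fun ω x => ?_
  have hNT0 : 0 ≤ Pool.W7d29a1.C0.O1.NT (wm μ s N (Pn N y) ω) (pJ c d) U V x := by
    have g0 : Pool.W7d29a1.C0.O1.NT (wm μ s N (Pn N y) ω) (pJ c d) U V x = mc3 μ s N y c d c d (A3 c d U V) ω.1 x.1 := NT_mc3 hyN h1 h3 ω.1 x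
    rw [g0]
    exact mc3_nonneg _ _
  by_cases h0 : G ω x = 0
  · rw [h0]
    exact mul_nonneg (Real.exp_pos _).le hNT0
  · refine (hG1 ω x).trans ?_
    have g1 := (hd3.trans (hG ω x h0).le)
    calc (1 : ℝ) = Real.exp ((L : ℝ) ^ κ) * Real.exp (-(L : ℝ) ^ κ) := by rw [← Real.exp_add, add_neg_cancel, Real.exp_zero]
      _ ≤ _ := mul_le_mul_of_nonneg_left g1 (Real.exp_pos _).le

end

end Pool.Agent.W_7d29a1_C0.N29
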