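import Pool.Agent.W_7d29a1_C0.NT51F

/-!
C0, helper15 (after `core51` of helper51): THREE BRANCHES, THE CONSTRUCTION AT ONE SCALE WITH FAR BRACKETS (`core51R`): `H` (the distance of the
brackets on the nearer side) is free, `R` bounds the ratio of the widths up to `H`: the prices are `R * L ^ ε / EE' t` and its square.
-/

set_option autoImplicit false

namespace Pool.Agent.W_7d29a1_C0.N15K

open MeasureTheory ProbabilityTheory Filter Topology Finset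
open Pool.Agent.W_7d29a1_F Pool.Agent.W_7d29a1_X Pool.Agent.W_7d29a1_h4g Pool.Agent.W_7d29a1_H
open Pool.Agent.W_7d29a1_HS (In wd md)
open Pool.Agent.W_7d29a1_HZ Pool.Agent.W_7d29a1_HZ.R72 Pool.Agent.W_7d29a1_Z.Asm72
open Pool.Agent.W_7d29a1_HZ.Z86
open Pool.Agent.W_7d29a1_HZ.Z86.GX (WT numWX)
open Pool.Agent.W_7d29a1_HZ.ZE
open Pool.Agent.W_7d29a1_C0.P86 (NoMeet)
open Pool.Agent.W_7d29a1_C0.N51
open scoped ENNReal

noncomputable section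

variable {μ : Measure ℝ} {s : ℝ}


theorem nu_p2R {x E K c R : ℝ} (hx : 3000 ≤ x) (hR : 1 ≤ R) (hE : 0 < E) (hc0 : 0 ≤ c) (hc : c ≤ 3 * x) (_hK0 : 0 ≤ K)
    (hK : 4 * K ≤ 5 * (x * R)) : x / E * (3 * x) * (4 * K) * c ≤ R * (x ^ 5 * E⁻¹) := by
  have hx0 : 0 ≤ x := by linarith
  have hR0 : 0 ≤ R := by linarith
  calc x / E * (3 * x) * (4 * K) * c ≤ x / E * (3 * x) * (5 * (x * R)) * (3 * x) := by gcongr
    _ = (45 * x ^ 4) * (R * E⁻¹) := by rw [div_eq_mul_inv]; ring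
    _ ≤ x ^ 5 * (R * E⁻¹) := by
        refine mul_le_mul_of_nonneg_right ?_ (by positivity)
        have : x ^ 5 = x * x ^ 4 := by ring
        rw [this]
        exact mul_le_mul_of_nonneg_right (by linarith) (by positivity)
    _ = R * (x ^ 5 * E⁻¹) := by ring

theorem nu_p3R {x E K c R : ℝ} (hx : 3000 ≤ x) (hR : 1 ≤ R) (hE : 0 < E) (hc0 : 0 ≤ c) (hc : c ≤ 3 * x) (hK0 : 0 ≤ K)
    (hK : 4 * K ≤ 5 * (x * R)) :
    (x / E * (3 * x)) * (x / E * (3 * x + x)) * (4 * K) ^ 2 * c ≤ (R * (x ^ 5 * E⁻¹)) ^ 2 := by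
  have hx0 : 0 ≤ x := by linarith
  have hR0 : 0 ≤ R := by linarith
  calc (x / E * (3 * x)) * (x / E * (3 * x + x)) * (4 * K) ^ 2 * c
      ≤ (x / E * (3 * x)) * (x / E * (3 * x + x)) * (5 * (x * R)) ^ 2 * (3 * x) := by gcongr
    _ = (900 * x ^ 7) * (R ^ 2 * (E⁻¹) ^ 2) := by rw [div_eq_mul_inv]; ring
    _ ≤ (x * x ^ 7) * (R ^ 2 * (E⁻¹) ^ 2) := by
        refine mul_le_mul_of_nonneg_right ?_ (by positivity)
        exact mul_le_mul_of_nonneg_right (by linarith) (by positivity)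
    _ ≤ x ^ 10 * (R ^ 2 * (E⁻¹) ^ 2) := by
        refine mul_le_mul_of_nonneg_right ?_ (by positivity)
        have : x * x ^ 7 = x ^ 8 := by ring
        rw [this]
        exact pow_le_pow_right₀ (by linarith) (by norm_num)
    _ = (R * (x ^ 5 * E⁻¹)) ^ 2 := by ring

/-- **THE CONSTRUCTION AT ONE SCALE, FAR BRACKETS.** -/
theorem core51R [IsProbabilityMeasure μ] {c C : ℝ} {n₀ : ℕ} (h : In μ s c C n₀) : ∀ ε θ : ℝ, 0 < ε → 0 < θ → ∃ δ c' : ℝ,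
    0 < δ ∧ 0 < c' ∧ ∃ L₀ : ℕ, ∀ L : ℕ, L₀ ≤ L → ∀ N t : ℕ, L ≤ 16 * N → N ≤ L → (L : ℝ) ^ θ ≤ t → t ≤ N →
    ∀ y : ℤ, 0 ≤ y → y ≤ N → |(y : ℝ) - sl μ s * N| ≤ ((L : ℝ) ^ δ * wd' μ s N) → ∀ (H : ℕ) (R : ℝ), 1 ≤ R →
    (∀ j : ℕ, 1 ≤ j → j ≤ H → wd' μ s j ≤ R * wd' μ s t) →
    ∃ (g : ℤ) (T2 T3 : ℕ → ℕ → ℕ → Env → Finset ℕ → Prop) (Gd : ℕ → Env → Finset ℕ → Finset ℕ → Finset ℕ → Prop),
      K51 μ s N t H y (R * ((L : ℝ) ^ ε * (EE' μ s t)⁻¹)) (Real.exp (-(L : ℝ) ^ c')) g T2 T3 Gd := by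
  intro ε θ hε hθ
  obtain ⟨β, hβd⟩ : ∃ β : ℝ, β = ε / 5 := ⟨_, rfl⟩
  have hβ : 0 < β := by rw [hβd]; positivity
  obtain ⟨ε₃, ε₅, cX, hε₃, hε₅, hcX, LX, hNX⟩ := numW13 h hβ hθ
  have hε₃' : 0 < min ε₃ (β / 8) := lt_min hε₃ (by positivity)
  obtain ⟨ε₁, ε₄, hε₁, hε₄, h13, h43, LW, hW⟩ := numWX h β 1 θ (min ε₃ (β / 8)) hβ one_pos hθ hε₃'
  obtain ⟨aw, Kw, haw0, haw1, hKw, hwp⟩ := wd'_pow h
  obtain ⟨ε', hε'0, hε'1, LS, hSp⟩ := spn_ex haw0 haw1 hKw hwp hε₁ hθ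
  obtain ⟨εn, hεn⟩ : ∃ εn : ℝ, εn = min ε' ε₅ := ⟨_, rfl⟩
  have hεn0 : 0 < εn := by rw [hεn]; exact lt_min hε'0 hε₅
  have hεn1 : εn ≤ ε' := by rw [hεn]; exact min_le_left _ _
  have hεn5 : εn ≤ ε₅ := by rw [hεn]; exact min_le_right _ _
  obtain ⟨δn, cn, hδn, hcn, Ln, hNs⟩ := ns h εn hεn0
  obtain ⟨δf, cf, hδf, hcf, Lf, hFr⟩ := fresh h εn hεn0
  obtain ⟨cm, hcm⟩ : ∃ cm : ℝ, cm = min (min cX cn) (min cf β) := ⟨_, rfl⟩
  have hcm0 : 0 < cm := by rw [hcm]; exact lt_min (lt_min hcX hcn) (lt_min hcf hβ)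
  obtain ⟨cp, hcp, -, Lp, hPE⟩ := Pool.Agent.W_7d29a1_Z.NumI77.pow_exp hcm0 (8 + 6 * β)
  obtain ⟨La, hLa⟩ := ev_const 64 hθ
  obtain ⟨Lb, hLb⟩ := ev_const (3000 + 4 * Kw) hβ
  obtain ⟨Lc, hLc⟩ := ev_const (Kw + 16) (show 0 < ε₁ / 2 by positivity)
  obtain ⟨Ld, hLd⟩ := ev_const Kw (show 0 < β / 8 by positivity)
  obtain ⟨δ, hδd⟩ : ∃ δ : ℝ, δ = min δn δf := ⟨_, rfl⟩
  have hδ : 0 < δ := by rw [hδd]; exact lt_min hδn hδf
  have hδ2 : δ ≤ δn := by rw [hδd]; exact min_le_left _ _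
  have hδ3 : δ ≤ δf := by rw [hδd]; exact min_le_right _ _
  refine ⟨δ, cp, hδ, hcp, LX + LW + LS + Ln + Lf + Lp + La + Lb + Lc + Ld + 1000000000, ?_⟩
  intro L hL N t hLN hNL htL htN y hy0 hyN hyc H R hR hH
  have hL1 : 1 ≤ L := by omega
  have hLR : (1 : ℝ) ≤ L := by exact_mod_cast hL1
  have hL0 : (0 : ℝ) < L := by linarith
  have hL9 : (1000000000 : ℝ) ≤ L := by exact_mod_cast (show 1000000000 ≤ L by omega)
  have ht64 : 64 ≤ t := by exact_mod_cast (hLa L (by omega)).trans htL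
  have hwd : ∀ n, 0 < wd' μ s n := fun n => lt_of_lt_of_le zero_lt_one (le_max_left _ _)
  have hcone : ∀ δ', δ ≤ δ' → |(y : ℝ) - sl μ s * N| ≤ ((L : ℝ) ^ δ' * wd' μ s N) := fun δ' hδ' =>
    hyc.trans (mul_le_mul_of_nonneg_right (Real.rpow_le_rpow_of_exponent_le hLR hδ') (hwd N).le)
  obtain ⟨n1, e0, E, X', w, hnm, w1, w2, w3, -, -, -, -, -, w9, w10, w11, w12⟩ := hW L (by omega) N t hLN hNL htL htN
  obtain ⟨pr, hp1, hp2⟩ := hNX L (by omega) N t hNL htL htN y hy0 hyN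
  obtain ⟨hpr, hT⟩ := hp2 ε₁ ε₄ n1 e0 E (h13.trans (min_le_left _ _)) (h43.trans (min_le_left _ _)) hnm
  obtain ⟨m, n, hsp'⟩ := hSp L (by omega) t e0 htL hnm.e0_le
  have hsp := hsp'.mono hL1 hεn1
  have hns := hNs L (by omega) N hLN hNL y hy0 hyN (hcone _ hδ2)
  have hfr := hFr L (by omega) N hLN hNL y hy0 hyN (hcone _ hδ3) (fun _ => 0) (by simp [sv])
  obtain ⟨p, hp⟩ : ∃ p : ℝ, p = Real.exp (-(L : ℝ) ^ cm) := ⟨_, rfl⟩
  have hp0 : 0 < p := by rw [hp]; exact Real.exp_pos _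
  have ecX : Real.exp (-(L : ℝ) ^ cX) ≤ p := by
    rw [hp, hcm]
    exact Pool.Agent.W_7d29a1_Z.NumI77.exp_mono ((min_le_left _ _).trans (min_le_left _ _)) hL1
  have ecn : Real.exp (-(L : ℝ) ^ cn) ≤ p := by
    rw [hp, hcm]
    exact Pool.Agent.W_7d29a1_Z.NumI77.exp_mono ((min_le_left _ _).trans (min_le_right _ _)) hL1
  have ecf : Real.exp (-(L : ℝ) ^ cf) ≤ p := by
    rw [hp, hcm]
    exact Pool.Agent.W_7d29a1_Z.NumI77.exp_mono ((min_le_right _ _).trans (min_le_left _ _)) hL1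
  have ecb : Real.exp (-(L : ℝ) ^ β) ≤ p := by
    rw [hp, hcm]
    exact Pool.Agent.W_7d29a1_Z.NumI77.exp_mono ((min_le_right _ _).trans (min_le_right _ _)) hL1
  obtain ⟨x, hx⟩ : ∃ x : ℝ, x = (L : ℝ) ^ β := ⟨_, rfl⟩
  have hxk : 3000 + 4 * Kw ≤ x := by rw [hx]; exact hLb L (by omega)
  have hx3 : 3000 ≤ x := by linarith
  have hx1 : 1 ≤ x := by linarith
  have hx0 : 0 < x := by linarith
  rw [← hx] at ecb
  have hR0 : 0 < R := by linarith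
  have hxR : x ≤ x * R := le_mul_of_one_le_right hx0.le hR
  obtain ⟨K, hK⟩ : ∃ K : ℕ, K = ⌊x * R⌋₊ := ⟨_, rfl⟩
  have hKx : (K : ℝ) ≤ x * R := by rw [hK]; exact Nat.floor_le (by positivity)
  have hKx' : x * R < K + 1 := by rw [hK]; exact Nat.lt_floor_add_one _
  have hK6 : 6 ≤ K := by
    have : (2000 : ℝ) ≤ K := by linarith
    have : 2000 ≤ K := by exact_mod_cast this
    omega
  have heE : e0 ≤ E := by
    have g1 := hnm.E_gt 1 le_rfl (by omega)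
    have g2 := hnm.e0_le
    by_contra hcon
    have g3 : (2 : ℝ) ^ (E + 2) ≤ 2 ^ (e0 + 1) := pow_le_pow_right₀ (by norm_num) (by omega)
    have g4 : 0 ≤ (L : ℝ) ^ ε₁ * wd' μ s 1 := mul_nonneg (Real.rpow_nonneg hL0.le _) (hwd _).le
    linarith
  -- the length of the windows
  have hn1t : n1 e0 ≤ t := by
    by_contra hcon
    push Not at hcon
    have g1 := hnm.n1_wd e0 le_rfl heE (n1 e0) (by omega) le_rfl
    have g2 := hnm.e0_le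
    have g3 := (hwp (t / 4) (n1 e0) (by omega) (by omega)).1
    have g4 : (L : ℝ) ^ (-ε₁) * wd' μ s (t / 4) ≤ (L : ℝ) ^ (-ε₁) * (Kw * wd' μ s (n1 e0)) :=
      mul_le_mul_of_nonneg_left g3 (Real.rpow_nonneg hL0.le _)
    have g5 : (2 : ℝ) ^ (e0 + 1) = 2 * 2 ^ e0 := by ring
    rw [g5] at g2
    have g6 : 128 * ((L : ℝ) ^ ε₁ * wd' μ s (n1 e0)) ≤ (L : ℝ) ^ (-ε₁) * Kw * wd' μ s (n1 e0) := by linarith
    have g7 : Kw ≤ (L : ℝ) ^ ε₁ := by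
      have e1 := hLc L (by omega)
      have e2 : (L : ℝ) ^ (ε₁ / 2) ≤ (L : ℝ) ^ ε₁ := Real.rpow_le_rpow_of_exponent_le hLR (by linarith)
      linarith
    have g8 : (L : ℝ) ^ (-ε₁) * Kw ≤ 1 := by
      calc (L : ℝ) ^ (-ε₁) * Kw ≤ (L : ℝ) ^ (-ε₁) * (L : ℝ) ^ ε₁ := mul_le_mul_of_nonneg_left g7 (Real.rpow_nonneg hL0.le _)
        _ = 1 := by rw [← Real.rpow_add hL0, neg_add_cancel, Real.rpow_zero]
    have g9 : 1 ≤ (L : ℝ) ^ ε₁ := Real.one_le_rpow hLR hε₁.le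
    have g10 := hwd (n1 e0)
    have g11 : (L : ℝ) ^ (-ε₁) * Kw * wd' μ s (n1 e0) ≤ 1 * wd' μ s (n1 e0) := mul_le_mul_of_nonneg_right g8 g10.le
    have g12 : 1 * wd' μ s (n1 e0) ≤ (L : ℝ) ^ ε₁ * wd' μ s (n1 e0) := mul_le_mul_of_nonneg_right g9 g10.le
    linarith
  -- nearby closings
  have hKn : ∀ j : ℕ, 1 ≤ j → j ≤ H → 2 * ((L : ℝ) ^ εn * wd' μ s j) ≤ ((K - 6 : ℕ) : ℝ) * 2 ^ e0 := by
    intro j hj1 hjH
    obtain ⟨A, hA⟩ : ∃ A : ℝ, A = (L : ℝ) ^ (β / 8) := ⟨_, rfl⟩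
    have hA1 : 1 ≤ A := by rw [hA]; exact Real.one_le_rpow hLR (by positivity)
    have hwj : wd' μ s j ≤ R * wd' μ s t := hH j hj1 hjH
    have he1 : ε₁ ≤ β / 8 := h13.trans (min_le_right _ _)
    have hεA : (L : ℝ) ^ εn ≤ A := by rw [hA]; exact Real.rpow_le_rpow_of_exponent_le hLR (by linarith)
    have hwt := (hwd t).le
    have h64 := hnm.e0_ge
    have hA8 : A ^ 8 = x := by
      rw [hA, hx, ← Real.rpow_natCast, ← Real.rpow_mul hL0.le]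
      congr 1
      push_cast
      ring
    have h2e : (L : ℝ) ^ (-(2 * ε₁)) * A ^ 2 ≥ 1 := by
      rw [hA, ← Real.rpow_natCast, ← Real.rpow_mul hL0.le, ← Real.rpow_add hL0]
      refine Real.one_le_rpow hLR ?_
      push_cast
      linarith
    have hK6' : ((K - 6 : ℕ) : ℝ) = K - 6 := by
      rw [Nat.cast_sub hK6]
      norm_num
    rw [hK6']
    have hKh : x * R ≤ 2 * ((K : ℝ) - 6) := by linarith
    have hB : 64 * ((L : ℝ) ^ (-(2 * ε₁)) * wd' μ s t) * ((K : ℝ) - 6) ≤ 2 ^ e0 * ((K : ℝ) - 6) :=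
      mul_le_mul_of_nonneg_right h64 (by linarith)
    have hC : 32 * (x * R) * ((L : ℝ) ^ (-(2 * ε₁)) * wd' μ s t) ≤ 2 ^ e0 * ((K : ℝ) - 6) := by
      refine le_trans ?_ hB
      have q0 : 0 ≤ (L : ℝ) ^ (-(2 * ε₁)) * wd' μ s t := mul_nonneg (Real.rpow_nonneg hL0.le _) hwt
      have q1 := mul_le_mul_of_nonneg_right hKh q0
      linarith
    have hD : 2 * ((L : ℝ) ^ εn * wd' μ s j) ≤ 32 * (x * R) * ((L : ℝ) ^ (-(2 * ε₁)) * wd' μ s t) := by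
      calc 2 * ((L : ℝ) ^ εn * wd' μ s j) ≤ 2 * (A * (R * wd' μ s t)) := by
            have e2 : (L : ℝ) ^ εn * wd' μ s j ≤ A * (R * wd' μ s t) := mul_le_mul hεA hwj (hwd j).le (by positivity)
            linarith
        _ = 2 * A * 1 * (R * wd' μ s t) := by ring
        _ ≤ 2 * A * ((L : ℝ) ^ (-(2 * ε₁)) * A ^ 2) * (R * wd' μ s t) := by gcongr
        _ = 2 * A ^ 3 * (R * ((L : ℝ) ^ (-(2 * ε₁)) * wd' μ s t)) := by ring
        _ ≤ 32 * x * (R * ((L : ℝ) ^ (-(2 * ε₁)) * wd' μ s t)) := by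
            have : 0 ≤ R * ((L : ℝ) ^ (-(2 * ε₁)) * wd' μ s t) := by positivity
            refine mul_le_mul_of_nonneg_right ?_ this
            rw [← hA8]
            have e1 : A ^ 3 ≤ A ^ 8 := pow_le_pow_right₀ hA1 (by norm_num)
            have e2 : 0 ≤ A ^ 8 := by positivity
            linarith
        _ = 32 * (x * R) * ((L : ℝ) ^ (-(2 * ε₁)) * wd' μ s t) := by ring
    linarith
  have hε1n : εn ≤ ε₁ := by linarith
  have hfl : ∀ S, S ⊆ range N → NSp μ s L N εn S → FlatP μ s N e0 E n1 S := fun S hS hN =>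
    (w11 S hS (NSp.mono51 hL1 hε1n hN)).2
  -- the number of the windows
  have hz1 : 1 ≤ (L : ℝ) ^ ε₄ := Real.one_le_rpow hLR hε₄.le
  have hε₄β : (L : ℝ) ^ ε₄ ≤ x := by
    rw [hx]
    exact Real.rpow_le_rpow_of_exponent_le hLR (by have := h43.trans (min_le_right _ _); linarith)
  have hn16 : 16 ≤ n1 e0 := by
    have g3 := hpr.an1 e0 le_rfl heE
    have g4 := Nat.one_le_two_pow (n := pr.a)
    omega
  have hWc : ∀ τ, ((Ws5 N t τ n1 e0 E pr.a).card : ℝ) ≤ 3 * x := fun τ => by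
    have g1 := Ws5_card (N := N) (τ := τ) (E := E) (a := pr.a) hz1 (hnm.n1_ge e0 le_rfl heE) hn16
    linarith
  have hW0 : ∀ τ, (0 : ℝ) ≤ ((Ws5 N t τ n1 e0 E pr.a).card : ℝ) := fun τ => Nat.cast_nonneg _
  -- the arena
  have hAr : ∀ τ i₀ : ℕ, 1 ≤ τ → τ + t ≤ N → τ ≤ i₀ → i₀ ≤ τ + t / 4 → ∃ W ∈ Ws5 N t τ n1 e0 E pr.a,
      Ar μ s N t τ n1 e0 E pr L K W i₀ := by
    intro τ i₀ h1 h2 h3 h4
    obtain ⟨W, hW1, hW2, hW3⟩ := win_at (N := N) (t := t) (τ := τ) (i₀ := i₀) (n1 := n1) (a := pr.a) heE (hpr.an1 e0 le_rfl heE) hn1t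
      h1 h2 h3 h4
    exact ⟨W, hW1, ⟨hpr, Ws5_gwk hW1, hW2, by omega, hW3, hNL, hK6, heE, w1, h.md_nonneg, h.md_le_nat⟩⟩
  have hgap : ∀ (S a : Finset ℕ) (i₀ i i' : ℕ), NSp μ s L N εn S → NSp μ s L N εn a → i₀ ≤ N → i' ≤ N → i ≤ i₀ → i₀ ≤ i' →
      (i₀ ≤ i + H ∨ i' ≤ i₀ + H) → pos S i = pos a i → pos S i' = pos a i' →
      |pos S i₀ - pos a i₀| ≤ ((K - 6 : ℕ) : ℤ) * 2 ^ e0 := by
    intro S a i₀ i i' hS ha hi₀ hi'N hii hii' hloc hi hi'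
    have hD0 : (0 : ℝ) ≤ ((K - 6 : ℕ) : ℝ) * 2 ^ e0 := by positivity
    have key : |((pos S i₀ - pos a i₀ : ℤ) : ℝ)| ≤ ((K - 6 : ℕ) : ℝ) * 2 ^ e0 := by
      rcases hloc with g | g
      · exact gap_le hS ha hi (by omega) hi₀ hD0 fun j hj1 _ hj3 => hKn j hj1 (by omega)
      · exact gap_le hS ha hi' hi'N hi₀ hD0 fun j hj1 _ hj3 => hKn j hj1 (by omega)
    have : ((|pos S i₀ - pos a i₀| : ℤ) : ℝ) ≤ ((((K - 6 : ℕ) : ℤ) * 2 ^ e0 : ℤ) : ℝ) := by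
      rw [Int.cast_abs]
      push_cast at key ⊢
      exact key
    exact_mod_cast this
  -- the quarter is long
  have hq4 : (2 : ℝ) ^ (e0 + 5) ≤ (L : ℝ) ^ (-εn) * wd' μ s (t / 4) := by
    have g1 := hnm.e0_le
    have e1 : (2 : ℝ) ^ (e0 + 5) = 16 * 2 ^ (e0 + 1) := by ring
    have g2 : 16 * (L : ℝ) ^ (-ε₁) ≤ (L : ℝ) ^ (-εn) := by
      have e2 := hLc L (by omega)
      have e3 : (16 : ℝ) ≤ (L : ℝ) ^ (ε₁ / 2) := by linarith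
      have e4 : 0 ≤ (L : ℝ) ^ (-ε₁) := Real.rpow_nonneg hL0.le _
      calc 16 * (L : ℝ) ^ (-ε₁) ≤ (L : ℝ) ^ (ε₁ / 2) * (L : ℝ) ^ (-ε₁) := mul_le_mul_of_nonneg_right e3 e4
        _ = (L : ℝ) ^ (ε₁ / 2 + -ε₁) := (Real.rpow_add hL0 _ _).symm
        _ ≤ (L : ℝ) ^ (-εn) := Real.rpow_le_rpow_of_exponent_le hLR (by linarith)
    rw [e1]
    calc 16 * (2 : ℝ) ^ (e0 + 1) ≤ 16 * ((L : ℝ) ^ (-ε₁) * wd' μ s (t / 4)) := by linarith
      _ = 16 * (L : ℝ) ^ (-ε₁) * wd' μ s (t / 4) := by ring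
      _ ≤ (L : ℝ) ^ (-εn) * wd' μ s (t / 4) := mul_le_mul_of_nonneg_right g2 (hwd _).le
  have hq4' : (L : ℝ) ^ εn ≤ ((t / 4 : ℕ) : ℝ) := by
    have g1 := hsp.m1
    have g2 := hsp.mn
    have g3 : (m : ℝ) ≤ ((t / 4 : ℕ) : ℝ) := by exact_mod_cast (show m ≤ t / 4 by omega)
    linarith
  have hsepG : ∀ (S a : Finset ℕ) (τ : ℕ), τ + t ≤ N → ¬ Close μ s L N εn (fun _ => 0) S a → NoMeet τ (τ + t / 4) S a →
      ∃ i₀, τ ≤ i₀ ∧ i₀ ≤ τ + t / 4 ∧ 2 * (2 : ℤ) ^ (e0 + 4) ≤ |pos S i₀ - pos a i₀| := by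
    intro S a τ hτ hC hno
    obtain ⟨k, k1, k2, k3⟩ := sep2 hC hq4' (show τ + t / 4 ≤ N by omega) hno
    refine ⟨k, k1, k2, ?_⟩
    have h5 : ((2 * (2 : ℤ) ^ (e0 + 4) : ℤ) : ℝ) ≤ ((|pos S k - pos a k| : ℤ) : ℝ) := by
      push_cast at k3 ⊢
      have e1 : (2 : ℝ) * 2 ^ (e0 + 4) = 2 ^ (e0 + 5) := by ring
      linarith
    exact_mod_cast h5
  -- the probability of the bad events
  obtain ⟨q, hq⟩ : ∃ q : ℝ, q = (L : ℝ) ^ 5 * x * p := ⟨_, rfl⟩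
  have hq0 : 0 ≤ q := by rw [hq]; positivity
  have hpq : 2 * p ≤ q := by
    rw [hq]
    have e1 : (2 : ℝ) ≤ (L : ℝ) ^ 5 := by
      have : (L : ℝ) ≤ (L : ℝ) ^ 5 := le_self_pow₀ hLR (by norm_num)
      linarith
    have e2 : (2 : ℝ) ≤ (L : ℝ) ^ 5 * x := e1.trans (le_mul_of_one_le_right (by linarith) hx1)
    exact mul_le_mul_of_nonneg_right e2 hp0.le
  have hNR : (N : ℝ) + 1 ≤ 2 * L := by
    have : (N : ℝ) ≤ L := by exact_mod_cast hNL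
    linarith
  have hN0 : (0 : ℝ) ≤ N := Nat.cast_nonneg N
  have hQ22 : 2 * (10 * (L : ℝ) + 1) ≤ 22 * L := by linarith
  have hns' : P1 μ s N y (fun _ S => ¬ NSp μ s L N εn S) ≤ ENNReal.ofReal q :=
    hns.trans (ENNReal.ofReal_le_ofReal (by linarith))
  have hfr' : P2 μ s N y (fun _ => 0) (fun _ S S' => Close μ s L N εn (fun _ => 0) S S') ≤ ENNReal.ofReal q :=
    hfr.trans (ENNReal.ofReal_le_ofReal (by linarith))
  have htv' : P1 μ s N y (fun _ S => ¬ TVp μ s N pr S) ≤ ENNReal.ofReal q := by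
    refine (P1_tvp (L := L) (ε := ε₅) (pr := pr) (Real.exp_pos _).le (Real.exp_pos _).le ?_ hp1).trans
      (ENNReal.ofReal_le_ofReal (show Real.exp (-(L : ℝ) ^ cn) + Real.exp (-(L : ℝ) ^ cX) ≤ q by linarith))
    exact (Pool.Agent.W_7d29a1_HZ.A12.P1_mono' fun η S _ _ hev hev' => hev (NSp.mono51 hL1 hεn5 hev')).trans hns
  have hb2 : ∀ τ, P2 μ s N y (fun _ => 0) (Bad2 μ s N y pr L (Ws5 N t τ n1 e0 E pr.a) x) ≤ ENNReal.ofReal q := fun τ => by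
    refine (bad2_pr hpr.i₁a).trans (ENNReal.ofReal_le_ofReal ?_)
    rw [hq]
    exact nu_b2 hL9 hx0.le hp0.le (Real.exp_pos _).le ecb (by linarith) hNR (hW0 τ) (hWc τ)
  have hb3 : ∀ τ, P2 μ s N y (fun _ => 0) (Bad3 μ s N y pr L (Ws5 N t τ n1 e0 E pr.a) x) ≤ ENNReal.ofReal q := fun τ => by
    refine (bad3_pr hpr.i₁a).trans (ENNReal.ofReal_le_ofReal ?_)
    rw [hq]
    exact nu_b3 hL9 hx0.le hp0.le (Real.exp_pos _).le ecb (by linarith) hNR (hW0 τ) (hWc τ)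
  -- the final error
  have hfin : (L : ℝ) ^ 8 * x ^ 6 * p ≤ Real.exp (-(L : ℝ) ^ cp) := by
    have k4 := hPE L (by omega)
    rw [← hp, Real.rpow_add hL0] at k4
    have e9 : (L : ℝ) ^ (8 : ℝ) = (L : ℝ) ^ 8 := by
      rw [← Real.rpow_natCast]
      norm_num
    have e6 : (L : ℝ) ^ (6 * β) = x ^ 6 := by
      rw [hx, ← Real.rpow_natCast, ← Real.rpow_mul hL0.le]
      congr 1
      push_cast
      ring
    rw [e9, e6] at k4
    exact k4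
  have hEt : 0 < EE' μ s t := lt_of_lt_of_le zero_lt_one (le_max_left _ _)
  have hE1 : 1 ≤ EE' μ s t := le_max_left _ _
  have hxε : (L : ℝ) ^ ε = x ^ 5 := by
    rw [hx, ← Real.rpow_natCast, ← Real.rpow_mul hL0.le, hβd]
    congr 1
    push_cast
    ring
  have hz0 : 0 ≤ (L : ℝ) ^ β / EE' μ s t := by positivity
  have hzx : (L : ℝ) ^ β / EE' μ s t ≤ x := by
    rw [← hx]
    exact div_le_self hx0.le hE1
  have hK1x : 4 * ((K : ℝ) + 1) ≤ 5 * (x * R) := by linarith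
  have hoffJ : ∀ τ, ∀ W ∈ Ws5 N t τ n1 e0 E pr.a, W.2.2 ⊆ Ico τ (τ + t) := fun τ W hW' => (Ws5_rows hW' hn1t).1
  refine ⟨2 ^ (e0 + 4), fun τ c d => NT2 μ s N y pr L K (Ws5 N t τ n1 e0 E pr.a) c d (3 * x),
    fun τ c d => NT3 μ s N y pr L K (Ws5 N t τ n1 e0 E pr.a) c d (3 * x), Gd5 μ s N y L t εn n1 e0 E pr x, ?_⟩
  refine ⟨fun τ c d => nt2_ms _ _ _ _ _ _ _ _ _, fun τ c d => nt3_ms _ _ _ _ _ _ _ _ _, fun τ c d J' hJ' => nt2_off hJ',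
    fun τ c d J' hJ' => nt3_off hJ', fun τ => ?_, fun τ η S a b hg => hg.swp, fun τ η S a b hτ hg hno => hsepG S a τ hτ hg.cSa hno,
    fun τ η S a b hτ hg hno => hsepG a b τ hτ hg.cab hno, ?_, ?_, ?_, ?_⟩
  · -- good
    refine (gd5_pr hy0 hyN hfl hq0 hns' htv' hfr' (hb2 τ) (hb3 τ)).trans (ENNReal.ofReal_le_ofReal (le_trans ?_ hfin))
    rw [hq]
    have e1 : 12 * ((L : ℝ) ^ 5 * x * p) ≤ (L : ℝ) ^ 3 * ((L : ℝ) ^ 5 * x * p) := by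
      refine mul_le_mul_of_nonneg_right ?_ (by positivity)
      have : (L : ℝ) ≤ (L : ℝ) ^ 3 := le_self_pow₀ hLR (by norm_num)
      linarith
    have e2 : x ≤ x ^ 6 := le_self_pow₀ hx1 (by norm_num)
    calc 12 * ((L : ℝ) ^ 5 * x * p) ≤ (L : ℝ) ^ 3 * ((L : ℝ) ^ 5 * x * p) := e1
      _ = (L : ℝ) ^ 8 * x * p := by ring
      _ ≤ (L : ℝ) ^ 8 * x ^ 6 * p := by gcongr
  · -- one alternative
    intro τ c d η S a b i₀ i i' h1τ hτN hdN hg k1 k2 k3 k4 k5 k6 k7 k8 k9 k10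
    obtain ⟨W, hW1, har⟩ := hAr τ i₀ h1τ hτN k1 k2
    have haw := away51 har hg.fS hg.fa k3 k9 (by omega)
    have haw' := away51 har hg.fS hg.fa k3 k10 (by omega)
    exact prod2 har y hW1 le_rfl hg.fS hg.fa hg.ta hg.b2a k3
      (hgap S a i₀ i i' hg.nS hg.na (by omega) (by omega) k5 k6 k8 k9 k10) k4
      (fun k hk => ⟨haw.1 k5 k hk, haw'.2 k6 k hk⟩) (by omega) k9 k7 hdN k10
  · -- two alternatives
    intro τ c d η S a b i i' j j' h1τ hτN hdN hg k1 k2 k3 k4 k5 k6 k7 k8 k9 k10 l4 l5 l6 l7 l8 l9 l10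
    obtain ⟨i₀, i1, i2, g1, g2, g3⟩ := sep3 hsp hg.nS hg.na hg.nb hg.cSa hg.cSb hg.cab (fun g => hg.cSa (close_symm g))
      (fun g => hg.cab (close_symm g)) (show τ + t / 4 ≤ N by omega) k1 k2 k3
    obtain ⟨W, hW1, har⟩ := hAr τ i₀ h1τ hτN i1 i2
    have haw := away51 har hg.fS hg.fa g1 k9 (by omega)
    have haw' := away51 har hg.fS hg.fa g1 k10 (by omega)
    have hbw := away51 har hg.fS hg.fb g2 l9 (by omega)
    have hbw' := away51 har hg.fS hg.fb g2 l10 (by omega)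
    exact prod3 har y hW1 le_rfl hg.fS hg.fa hg.fb hg.ta hg.tb hg.b2b hg.b3a hg.b2a hg.b3b g1 g2 g3
      (hgap S a i₀ i i' hg.nS hg.na (by omega) (by omega) (by omega) (by omega) (by omega) k9 k10)
      (hgap S b i₀ j j' hg.nS hg.nb (by omega) (by omega) (by omega) (by omega) (by omega) l9 l10)
      k4 (fun k hk => ⟨haw.1 (by omega) k hk, haw'.2 (by omega) k hk⟩) (by omega) k9 k7 hdN k10
      l4 (fun k hk => ⟨hbw.1 (by omega) k hk, hbw'.2 (by omega) k hk⟩) (by omega) l9 l7 l10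
  · -- the price of one
    intro τ c d F hF hFo
    refine (nt2_price hz0 (Real.exp_pos _).le hT (fun W hW' => Ws5_gwk hW') (hoffJ τ) (by linarith) hF hFo).trans
      (add_le_add (mul_le_mul' (ENNReal.ofReal_le_ofReal ?_) le_rfl) (ENNReal.ofReal_le_ofReal (le_trans ?_ hfin)))
    · rw [← hx, hxε]
      exact nu_p2R hx3 hR hEt (hW0 τ) (hWc τ) (by positivity) hK1x
    · exact nu_e2 hL9 hx1 hp0.le (Real.exp_pos _).le ecX (hW0 τ) (hWc τ)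
  · -- the price of two
    intro τ c d F hF hFo
    refine (nt3_price (lm := x) hz0 (Real.exp_pos _).le hT (fun W hW' => Ws5_gwk hW') (hoffJ τ) (by linarith) hx0.le hF hFo).trans
      (add_le_add (mul_le_mul' (ENNReal.ofReal_le_ofReal ?_) le_rfl) (ENNReal.ofReal_le_ofReal (le_trans ?_ hfin)))
    · rw [← hx, hxε]
      exact nu_p3R hx3 hR hEt (hW0 τ) (hWc τ) (by positivity) hK1x
    · exact nu_e3 hL9 hx1 hp0.le (Real.exp_pos _).le ecX (Real.exp_pos _).le ecb (by linarith) hNR hz0 hzx (hW0 τ) (hWc τ)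

end

end Pool.Agent.W_7d29a1_C0.N15K
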