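import Pool.Agent.W_7d29a1_C0.MixL29
import Pool.Agent.W_7d29a1_C0.NTK15

/-!
MP_7d29a1_pr, [CURV0] / [C0] (helper29): the price of `NT` (`evt_price`, `nte_price`) and the list with two kinds of places (`price_mix`)
over the bounds only: `CoreR` is helper15's `core51R`.
-/

set_option autoImplicit false

namespace Pool.Agent.W_7d29a1_C0.N29

open MeasureTheory ProbabilityTheory Filter Topology Finset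
open Pool.Agent.W_7d29a1_F Pool.Agent.W_7d29a1_X Pool.Agent.W_7d29a1_h4g Pool.Agent.W_7d29a1_H
open Pool.Agent.W_7d29a1_HS (In wd md)
open Pool.Agent.W_7d29a1_HZ Pool.Agent.W_7d29a1_HZ.R72 Pool.Agent.W_7d29a1_Z.Asm72
open Pool.Agent.W_7d29a1_HZ.Z86
open Pool.Agent.W_7d29a1_C0.Mod92 (Px Pn lw ps pJ ne_Pn ps_Pn pos_card ps_of_le ps_of_ge wm Pm meas_lw meas_cE meas_gz meas_gm int_Pm)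
open Pool.Agent.W_7d29a1_C0.P86
open Pool.Agent.W_7d29a1_C0.N51 (On3 mc3 mc3_nonneg P3 P3_mono' Pl3 pl3_wt K51 nm_mono)
open Pool.W7d29a1.C0 (gm gz gz_pos gm_nonneg gm_mono gm_const)

variable {μ : Measure ℝ} {s : ℝ} [IsProbabilityMeasure μ] {c₀ C₀ : ℝ} {n₀ : ℕ}

/-- **The construction at one scale with closings at any distance.** -/
theorem coreR (h : In μ s c₀ C₀ n₀) : CoreR μ s := fun ε θ hε hθ => Pool.Agent.W_7d29a1_C0.N15K.core51R h ε θ hε hθ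

/-- **THE PRICE OF THE EVENT `EvT`.** -/
theorem evt_price' (h : In μ s c₀ C₀ n₀) : ∀ ε θ : ℝ, 0 < ε → 0 < θ → ∃ δ κ c₂ : ℝ, 0 < δ ∧ 0 < κ ∧ 0 < c₂ ∧ ∃ L₀ : ℕ,
    ∀ L : ℕ, L₀ ≤ L → ∀ N : ℕ, L ≤ 16 * N → N ≤ L → ∀ y : ℕ, y ≤ N → |(y : ℝ) - sl μ s * N| ≤ ((L : ℝ) ^ δ * wd' μ s N) →
    ∀ c d U V l : ℕ, c ≤ U → U + l ≤ V → V ≤ d → d ≤ N → (L : ℝ) ^ θ ≤ l →
    ∀ (H : ℕ) (R : ℝ), 1 ≤ R → (∀ j : ℕ, 1 ≤ j → j ≤ H → wd' μ s j ≤ R * wd' μ s l) → (d - U ≤ H ∨ V - c ≤ H) →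
    ∀ d3 : ℝ, Real.exp (-(L : ℝ) ^ κ) ≤ d3 →
    ∀ f : Env × Finset ℕ → Px (Pn N y) → ℝ, (∀ A x, Measurable fun η => f (η, A) x) → (∀ ω x, 0 ≤ f ω x) → (∀ ω x, f ω x ≤ 1) →
    (∀ (η η' : Env) (A : Finset ℕ) (x : Px (Pn N y)), (∃ E : Finset Pt, (∀ q ∈ E, 0 ≤ q.1 ∧ q.1.toNat ∈ Ico U (U + l)) ∧
      ∀ q, q ∉ E → η q = η' q) → f (η, A) x = f (η', A) x) →
    ∀ G : Env × Finset ℕ → Px (Pn N y) → ℝ, (∀ ω x, 0 ≤ G ω x) → (∀ ω x, G ω x ≤ 1) →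
    (∀ ω x, G ω x ≠ 0 → d3 < Pool.W7d29a1.C0.O1.NT (wm μ s N (Pn N y) ω) (pJ c d) U V x) →
    ∫ ω, gm (wm μ s N (Pn N y) ω) (fun x => f ω x * G ω x) ∂(Pm μ N) ≤
      (R * ((L : ℝ) ^ ε * (EE' μ s l)⁻¹)) ^ 2 * ∫ ω, gm (wm μ s N (Pn N y) ω) (f ω) ∂(Pm μ N) + Real.exp (-(L : ℝ) ^ c₂) :=
  evt_price (coreR h)

/-- **THE PRICE OF `NT`.** -/
theorem nte_price' (h : In μ s c₀ C₀ n₀) : ∀ ε θ : ℝ, 0 < ε → 0 < θ → ∃ δ κ c₂ : ℝ, 0 < δ ∧ 0 < κ ∧ 0 < c₂ ∧ ∃ L₀ : ℕ,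
    ∀ L : ℕ, L₀ ≤ L → ∀ N : ℕ, L ≤ 16 * N → N ≤ L → ∀ y : ℕ, y ≤ N → |(y : ℝ) - sl μ s * N| ≤ ((L : ℝ) ^ δ * wd' μ s N) →
    ∀ c d U V l : ℕ, c ≤ U → U + l ≤ V → V ≤ d → d ≤ N → (L : ℝ) ^ θ ≤ l →
    ∀ (H : ℕ) (R : ℝ), 1 ≤ R → (∀ j : ℕ, 1 ≤ j → j ≤ H → wd' μ s j ≤ R * wd' μ s l) → (d - U ≤ H ∨ V - c ≤ H) →
    ∀ f : Env × Finset ℕ → Px (Pn N y) → ℝ, (∀ A x, Measurable fun η => f (η, A) x) → (∀ ω x, 0 ≤ f ω x) → (∀ ω x, f ω x ≤ 1) →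
    (∀ (η η' : Env) (A : Finset ℕ) (x : Px (Pn N y)), (∃ E : Finset Pt, (∀ q ∈ E, 0 ≤ q.1 ∧ q.1.toNat ∈ Ico U (U + l)) ∧
      ∀ q, q ∉ E → η q = η' q) → f (η, A) x = f (η', A) x) →
    ∀ G : Env × Finset ℕ → Px (Pn N y) → ℝ, (∀ ω x, 0 ≤ G ω x) → (∀ ω x, G ω x ≤ 1) →
    (∀ ω x, G ω x ≤ Real.exp ((L : ℝ) ^ κ) * Pool.W7d29a1.C0.O1.NT (wm μ s N (Pn N y) ω) (pJ c d) U V x) →
    ∫ ω, gm (wm μ s N (Pn N y) ω) (fun x => f ω x * G ω x) ∂(Pm μ N) ≤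
      (R * ((L : ℝ) ^ ε * (EE' μ s l)⁻¹)) ^ 2 * ∫ ω, gm (wm μ s N (Pn N y) ω) (f ω) ∂(Pm μ N) + Real.exp (-(L : ℝ) ^ c₂) :=
  nte_price (coreR h)

/-- **THE PRICE LIST WITH TWO KINDS OF PLACES.** -/
theorem price_mix' (h : In μ s c₀ C₀ n₀) (k : ℕ) (hk : k ≤ 8) : ∀ ε θ : ℝ, 0 < ε → 0 < θ →
    ∃ δ κ c₂ : ℝ, 0 < δ ∧ 0 < κ ∧ 0 < c₂ ∧ ∃ L₀ : ℕ,
    ∀ L : ℕ, L₀ ≤ L → ∀ N : ℕ, L ≤ 16 * N → N ≤ L → ∀ y : ℕ, y ≤ N → |(y : ℝ) - sl μ s * N| ≤ ((L : ℝ) ^ δ * wd' μ s N) →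
    ∀ M : ℝ, 8 ≤ M → M ≤ (L : ℝ) ^ κ →
    ∀ Ps : List (Pla N y), Ps.length = k → (∀ P ∈ Ps, P.p.Ok L N θ) → Ps.Pairwise Pla.Bef → (∀ P ∈ Ps, P.Dm μ s ((L : ℝ) ^ κ) M) →
    ∀ f : Env × Finset ℕ → Px (Pn N y) → ℝ, (∀ A x, Measurable fun η => f (η, A) x) → (∀ ω x, 0 ≤ f ω x) → (∀ ω x, f ω x ≤ 1) →
    (∀ P ∈ Ps, ∀ (η η' : Env) A x, (∃ E : Finset Pt, (∀ q ∈ E, 0 ≤ q.1 ∧ q.1.toNat ∈ P.J) ∧ ∀ q, q ∉ E → η q = η' q) →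
      f (η, A) x = f (η', A) x) →
    ∫ ω, gm (wm μ s N (Pn N y) ω) (fun x => f ω x * (Ps.map fun P => P.G ω x).prod) ∂(Pm μ N) ≤
      (Ps.map fun P => P.pr μ s L ε).prod * ∫ ω, gm (wm μ s N (Pn N y) ω) (f ω) ∂(Pm μ N) +
        (Real.exp (-(L : ℝ) ^ c₂) + 2 * k * Real.exp (-M)) :=
  price_mix h (coreR h) k hk

end Pool.Agent.W_7d29a1_C0.N29
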