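import Pool.Agent.W_7d29a1_C0.N38C
import Pool.Agent.W_7d29a1_C0.BasSt33

/-!
MP_7d29a1_pr, [CURV0], leaf E5 (helper23): THE ASSEMBLY OF `N1B`, `N2B`, `MB`. `RowB` = the row estimate of a family of functionals, one
stretch of rows at a time, with the long loops `Bl`; `top_num23`: the numbers; `s33_le23`: the second moment of the sum of the rows of a block
is at most `A33`, for every family of the size `n ^ (c / 32) / E_b`.
-/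

set_option autoImplicit false
set_option linter.unusedSectionVars false

namespace Pool.Agent.W_7d29a1_C0.NTop23

open Finset MeasureTheory Filter Topology
open Pool.Agent.W_7d29a1_F Pool.Agent.W_7d29a1_X
open Pool.Agent.W_7d29a1_C0 Pool.Agent.W_7d29a1_C0.Mod92 Pool.Agent.W_7d29a1_C0.Asm96 Pool.Agent.W_7d29a1_C0.N38
open Pool.W7d29a1.C0 (gz gm gz_pos gz_ne gm_nonneg gm_mono gm_const)

noncomputable section

/-! ### The numbers -/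

section Num

variable {E w : ℕ → ℝ} {c₀ Θ δ a ε N c : ℝ} {b s b' s' ρ : ℕ}

/-- The size: `b' / E_b ≤ N ^ (Θ - 15 c / 16) E_ρ`. -/
theorem num_size (R : Reg46 E w c₀ Θ δ a ε N) (H : Ch46 E δ c Θ N b s b' s' ρ) : (b' : ℝ) / E b ≤ N ^ (Θ - 15 / 16 * c) * E ρ := by
  have hN := R.N0
  have h0 := R.Epos b
  have h1 := R.Epos ρ
  have hb := H.h'.hb.pos R.N1
  refine of_lg46 R.N1 (by positivity) (by positivity) ?_
  rw [Real.logb_div hb.ne' h0.ne', Real.logb_mul (by positivity) h1.ne', lgN46 R.N1]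
  have e1 := Ch46.ltie R H
  have e2 := Bs46.lup R H.h'
  have e3 := Bs46.lpin R H.h
  linarith

/-- **The numbers of the assembly.** -/
theorem top_num23 (R : Reg46 E w c₀ Θ δ a ε N) (H : Ch46 E δ c Θ N b s b' s' ρ) (hε : ε ≤ c / 64) (hc1 : c ≤ 1) {l h : ℕ} (hl : 0 < l)
    (hlb : l + 2 * h ≤ 9 * b') (hlρ : l + 2 * h ≤ ρ) {A A₂ g T e : ℝ} (hA : A ≤ N ^ (c / 32) / E b) (hA₂ : A₂ ≤ N ^ (c / 32) / E b)
    (hg0 : 0 ≤ g) (hg : g ≤ N ^ (-(c / 16)) / E ρ) (hT : T ≤ ρ * (E ρ * N ^ (Θ - c / 16))) (he0 : 0 ≤ e) (he : e ≤ N ^ (-1 : ℝ)) :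
    2 * (((ρ / l + 2 : ℕ) : ℝ) * e) + 6 * (ρ * ((l + 2 * h : ℕ) : ℝ) * A) + 3 * (ρ * ((l + 2 * h : ℕ) : ℝ) * A₂) +
      3 * (((ρ / l + 2 : ℕ) : ℝ) * (l * g)) ^ 2 + 2 * T ≤ ρ * (E ρ * N ^ (Θ - c / 32)) := by
  have hN := R.N0
  have hN1 := R.N1.le
  have hc0 := H.h.c0
  have hΘ := R.Θ0
  have hEb := R.Epos b
  have hEρ := R.Epos ρ
  have hEρ1 := R.E1 ρ
  have hρ := H.h.hr.pos R.N1
  obtain ⟨U, hU⟩ : ∃ U : ℝ, U = ρ * (E ρ * N ^ (Θ - c / 16)) := ⟨_, rfl⟩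
  have hU0 : 0 ≤ U := by rw [hU]; positivity
  have hlρ' : (l : ℝ) ≤ ρ := by exact_mod_cast (by omega : l ≤ ρ)
  have hl0 : (0 : ℝ) < l := by exact_mod_cast hl
  have hl1 : (1 : ℝ) ≤ l := by exact_mod_cast hl
  -- the number of the stretches
  obtain ⟨n, hn⟩ : ∃ n : ℝ, n = ((ρ / l + 2 : ℕ) : ℝ) := ⟨_, rfl⟩
  have hn0 : 0 ≤ n := hn ▸ Nat.cast_nonneg _
  have hnl : n * l ≤ 3 * ρ := by
    rw [hn]
    have e1 : ρ / l * l ≤ ρ := Nat.div_mul_le_self ρ l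
    have e2 : (ρ / l + 2) * l ≤ 3 * ρ := by
      rw [add_mul]
      have : l ≤ ρ := by omega
      omega
    exact_mod_cast e2
  have hn3 : n ≤ 3 * ρ := (le_mul_of_one_le_right hn0 hl1).trans hnl
  -- the terms
  have t1 : 2 * (n * e) ≤ 6 * U := by
    have e1 : N ^ (-1 : ℝ) ≤ E ρ * N ^ (Θ - c / 16) := by
      calc N ^ (-1 : ℝ) ≤ N ^ (Θ - c / 16) := Real.rpow_le_rpow_of_exponent_le hN1 (by linarith)
        _ ≤ E ρ * N ^ (Θ - c / 16) := le_mul_of_one_le_left (Real.rpow_nonneg hN.le _) hEρ1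
    have e2 : n * e ≤ 3 * ρ * (E ρ * N ^ (Θ - c / 16)) := mul_le_mul hn3 (he.trans e1) he0 (by positivity)
    rw [hU]
    linarith
  have hsz : (b' : ℝ) * (N ^ (c / 32) / E b) ≤ E ρ * N ^ (Θ - c / 16) := by
    calc (b' : ℝ) * (N ^ (c / 32) / E b) = N ^ (c / 32) * (b' / E b) := by ring
      _ ≤ N ^ (c / 32) * (N ^ (Θ - 15 / 16 * c) * E ρ) := mul_le_mul_of_nonneg_left (num_size R H) (Real.rpow_nonneg hN.le _)
      _ = E ρ * N ^ (c / 32 + (Θ - 15 / 16 * c)) := by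
          rw [Real.rpow_add hN]
          ring
      _ ≤ E ρ * N ^ (Θ - c / 16) :=
          mul_le_mul_of_nonneg_left (Real.rpow_le_rpow_of_exponent_le hN1 (by linarith)) hEρ.le
  have hlen : ((l + 2 * h : ℕ) : ℝ) ≤ 9 * b' := by exact_mod_cast hlb
  have hgen : ∀ A : ℝ, A ≤ N ^ (c / 32) / E b → ρ * ((l + 2 * h : ℕ) : ℝ) * A ≤ 9 * U := by
    intro A hA
    calc ρ * ((l + 2 * h : ℕ) : ℝ) * A ≤ ρ * ((l + 2 * h : ℕ) : ℝ) * (N ^ (c / 32) / E b) := mul_le_mul_of_nonneg_left hA (by positivity)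
      _ ≤ ρ * (9 * b') * (N ^ (c / 32) / E b) := by gcongr
      _ = 9 * (ρ * (b' * (N ^ (c / 32) / E b))) := by ring
      _ ≤ 9 * (ρ * (E ρ * N ^ (Θ - c / 16))) := by gcongr
      _ = 9 * U := by rw [hU]
  have t4 : 3 * (n * (l * g)) ^ 2 ≤ 27 * U := by
    have e1 : n * (l * g) ≤ 3 * ρ * g := by
      calc n * (l * g) = n * l * g := by ring
        _ ≤ 3 * ρ * g := mul_le_mul_of_nonneg_right hnl hg0
    have e2 : (n * (l * g)) ^ 2 ≤ (3 * ρ * g) ^ 2 := pow_le_pow_left₀ (by positivity) e1 2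
    have e3 : ρ * g ^ 2 ≤ E ρ * N ^ (Θ - c / 16) := by
      have e4 : g ^ 2 ≤ (N ^ (-(c / 16)) / E ρ) ^ 2 := pow_le_pow_left₀ hg0 hg 2
      have e5 : (ρ : ℝ) ≤ N ^ (Θ + ε) * E ρ ^ 3 := by
        refine of_lg46 R.N1 hρ (by positivity) ?_
        rw [Real.logb_mul (by positivity) (by positivity), lgN46 R.N1, Real.logb_pow]
        have := R.lkap' H.h.hr
        push_cast
        linarith
      calc ρ * g ^ 2 ≤ (N ^ (Θ + ε) * E ρ ^ 3) * (N ^ (-(c / 16)) / E ρ) ^ 2 := mul_le_mul e5 e4 (by positivity) (by positivity)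
        _ = E ρ * (N ^ (Θ + ε) * (N ^ (-(c / 16)) * N ^ (-(c / 16)))) := by
            field_simp
        _ = E ρ * N ^ (Θ + ε + (-(c / 16) + -(c / 16))) := by rw [← Real.rpow_add hN, ← Real.rpow_add hN]
        _ ≤ E ρ * N ^ (Θ - c / 16) :=
            mul_le_mul_of_nonneg_left (Real.rpow_le_rpow_of_exponent_le hN1 (by linarith)) hEρ.le
    calc 3 * (n * (l * g)) ^ 2 ≤ 3 * (3 * ρ * g) ^ 2 := by linarith
      _ = 27 * (ρ * (ρ * g ^ 2)) := by ring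
      _ ≤ 27 * (ρ * (E ρ * N ^ (Θ - c / 16))) := by gcongr
      _ = 27 * U := by rw [hU]
  have hfin : 116 * U ≤ ρ * (E ρ * N ^ (Θ - c / 32)) := by
    have e1 : 116 ≤ N ^ (c / 32) := by
      have e2 : (16 : ℝ) * 16 ≤ N ^ ε * N ^ ε := mul_le_mul R.K R.K (by norm_num) (Real.rpow_nonneg hN.le _)
      rw [← Real.rpow_add hN] at e2
      have e3 : N ^ (ε + ε) ≤ N ^ (c / 32) := Real.rpow_le_rpow_of_exponent_le hN1 (by linarith)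
      linarith
    calc 116 * U ≤ N ^ (c / 32) * U := mul_le_mul_of_nonneg_right e1 hU0
      _ = ρ * (E ρ * (N ^ (c / 32) * N ^ (Θ - c / 16))) := by rw [hU]; ring
      _ = ρ * (E ρ * N ^ (Θ - c / 32)) := by
          rw [← Real.rpow_add hN]
          congr 3
          ring
  have t2 := hgen A hA
  have t3 := hgen A₂ hA₂
  rw [← hn]
  rw [← hU] at hT
  linarith

end Num

/-! ### The assembly -/

variable (μ : Measure ℝ) (s : ℝ) (F : Frm96)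

/-- The average at the frame. -/
def avF (m : ℕ) (f : ∀ y, Env × Finset ℕ → Px (Pn (F.L m) y) → ℝ) : ℝ :=
  av (F.ys m) (Pm μ (F.L m)) (fun y ω => wm μ s (F.L m) (Pn (F.L m) y) ω) f

/-- The rows of the block which are far from the stretch `k`. -/
def YF (m q i l h k : ℕ) (I : (y : ℕ) → Env × Finset ℕ → ℕ → Px (Pn (F.L m) y) → ℝ) (y : ℕ) (ω : Env × Finset ℕ)
    (S : Px (Pn (F.L m) y)) : ℝ :=
  ∑ j ∈ (Rw (F.R m) (i * 2 ^ q) ((i + 1) * 2 ^ q)).filter (far38 l h k), I y ω j S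

/-- **THE ROW ESTIMATE of a family**, one stretch of rows at a time, with the long loops `Bl`. -/
def RowB (m q i l h : ℕ) (g A₂ T e : ℝ) (I : (y : ℕ) → Env × Finset ℕ → ℕ → Px (Pn (F.L m) y) → ℝ) : Prop :=
  ∃ Bl : ℕ → ∀ y, Env × Finset ℕ → Px (Pn (F.L m) y) → ℝ, (∀ k, BM (F.ys m) (Bl k)) ∧ (∀ k, ∀ y ∈ F.ys m, ∀ ω S, 0 ≤ Bl k y ω S) ∧
    avF μ s F m (fun y ω S => (∑ k ∈ (Rw (F.R m) (i * 2 ^ q) ((i + 1) * 2 ^ q)).image fun j => j / l, Bl k y ω S) ^ 2) ≤ T ∧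
    (∀ k, avF μ s F m (fun y ω S => Bl k y ω S ^ 2) ≤ l ^ 2 * A₂) ∧
    ∀ k, ∑ j ∈ (Rw (F.R m) (i * 2 ^ q) ((i + 1) * 2 ^ q)).filter (fun j => j / l = k),
      avF μ s F m (fun y ω S => I y ω j S * YF F m q i l h k I y ω S) ≤
        l * g * avF μ s F m (fun y ω S => |YF F m q i l h k I y ω S|) +
          avF μ s F m (fun y ω S => Bl k y ω S * |YF F m q i l h k I y ω S|) + e

variable {μ s F} {E : ℕ → ℝ} {w : ℕ → ℝ} {c₀ Θ δ a ε c η : ℝ} {m p p' q i : ℕ}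

/-- **THE ASSEMBLY at a fixed length**: the second moment of the sum over the rows of a block. -/
theorem s33_le23 [IsProbabilityMeasure μ] (R : Reg46 E w c₀ Θ δ a ε ((2 ^ m : ℕ) : ℝ)) (hε : ε ≤ c / 64) (hc : 0 < c) (hc1 : c ≤ 1)
    (hcδ : 64 * c ≤ δ) (hη : 0 ≤ η) (h9 : 9 ≤ ((2 ^ m : ℕ) : ℝ) ^ c) (hF : F.Ok Θ m) (hC : Chg96 E Θ δ c η m p p' q)
    {I : (y : ℕ) → Env × Finset ℕ → ℕ → Px (Pn (F.L m) y) → ℝ}
    (hI : ∀ j ∈ Rw (F.R m) (i * 2 ^ q) ((i + 1) * 2 ^ q), BM (F.ys m) fun y ω S => I y ω j S)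
    (hA : ∀ j ∈ Rw (F.R m) (i * 2 ^ q) ((i + 1) * 2 ^ q),
      avF μ s F m (fun y ω S => I y ω j S ^ 2) ≤ ((2 ^ m : ℕ) : ℝ) ^ (c / 32) / E (2 ^ p))
    {l h : ℕ} (hl : 0 < l) (hl' : l ≤ 2 ^ p') (hh : h ≤ 4 * 2 ^ p') {g A₂ T e : ℝ} (hg0 : 0 ≤ g)
    (hg : g ≤ ((2 ^ m : ℕ) : ℝ) ^ (-(c / 16)) / E (2 ^ q)) (hA₂0 : 0 ≤ A₂) (hA₂ : A₂ ≤ ((2 ^ m : ℕ) : ℝ) ^ (c / 32) / E (2 ^ p))
    (hT0 : 0 ≤ T) (hT : T ≤ 2 ^ q * (E (2 ^ q) * ((2 ^ m : ℕ) : ℝ) ^ (Θ - c / 16))) (he0 : 0 ≤ e) (he : e ≤ ((2 ^ m : ℕ) : ℝ) ^ (-1 : ℝ))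
    (hrow : RowB μ s F m q i l h g A₂ T e I) :
    S33 μ s F m q i (fun y ω j S => I y ω j S) ≤ A33 E Θ c m q := by
  obtain ⟨Bl, hB, hB0, hBT, hBA, hr⟩ := hrow
  obtain ⟨hsq', hqm⟩ := chg_le33 hC hc.le hη
  have hH := ch46 R hc hcδ hC hqm
  have hp' : 2 ^ p' ≤ 2 ^ sg96 E c m p' := Nat.pow_le_pow_right two_pos hC.hps'
  have h9b : 9 * 2 ^ p' ≤ 2 ^ q := by
    have e1 : ((2 ^ m : ℕ) : ℝ) ^ c * ((2 ^ p' : ℕ) : ℝ) ≤ ((2 ^ q : ℕ) : ℝ) := by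
      have e2 : ((2 ^ m : ℕ) : ℝ) ^ c = (2 : ℝ) ^ (c * m) := pow_two96 m c
      rw [e2]
      push_cast
      rw [← Real.rpow_natCast 2 p', ← Real.rpow_natCast 2 q, ← Real.rpow_add two_pos]
      refine Real.rpow_le_rpow_of_exponent_le one_le_two ?_
      have e3 := hC.hsq'
      have e4 : (p' : ℝ) ≤ sg96 E c m p' := by exact_mod_cast hC.hps'
      linarith
    have e5 : (9 : ℝ) * ((2 ^ p' : ℕ) : ℝ) ≤ ((2 ^ q : ℕ) : ℝ) :=
      (mul_le_mul_of_nonneg_right h9 (Nat.cast_nonneg _)).trans e1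
    exact_mod_cast e5
  have hsub : Rw (F.R m) (i * 2 ^ q) ((i + 1) * 2 ^ q) ⊆ Ico (i * 2 ^ q) (i * 2 ^ q + 2 ^ q) := by
    have e1 : (i + 1) * 2 ^ q = i * 2 ^ q + 2 ^ q := by ring
    rw [← e1]
    exact inter_subset_right
  have hX : ∀ y ∈ F.ys m, Nonempty (Px (Pn (F.L m) y)) := fun y hy => ne_Pn (hF.hy y hy)
  have hw : ∀ y ∈ F.ys m, ∀ S : Px (Pn (F.L m) y), Measurable fun ω => wm μ s (F.L m) (Pn (F.L m) y) ω S := fun y _ S => meas_wm S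
  have hA0 : 0 ≤ ((2 ^ m : ℕ) : ℝ) ^ (c / 32) / E (2 ^ p) := by
    have := R.Epos (2 ^ p)
    positivity
  have key := n38L_rows (P := Pm μ (F.L m)) (w := fun y ω => wm μ s (F.L m) (Pn (F.L m) y) ω) hX hw hI hl hsub
    (show l + 2 * h ≤ 2 ^ q by omega) hA0 hA₂0 (mul_nonneg (Nat.cast_nonneg l) hg0) he0 hT0 hA hB hB0 hBT hBA hr
  have hnum := top_num23 R hH hε hc1 hl (show l + 2 * h ≤ 9 * 2 ^ p' by omega) (show l + 2 * h ≤ 2 ^ q by omega) (le_refl _) hA₂ hg0 hg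
    (T := T) (e := e) (by push_cast at hT ⊢; exact hT) he0 he
  have e1 : A33 E Θ c m q = ((2 ^ q : ℕ) : ℝ) * (E (2 ^ q) * ((2 ^ m : ℕ) : ℝ) ^ (Θ - c / 32)) := by
    unfold A33
    push_cast
    rfl
  rw [e1]
  exact key.trans hnum

end

end Pool.Agent.W_7d29a1_C0.NTop23
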