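import Pool.Agent.W_7d29a1_C0.Own15

/-!
MP_7d29a1_pr, [C0], helper15: the numbers of `Site15`.
-/

set_option autoImplicit false

namespace Pool.Agent.W_7d29a1_C0.P15

open MeasureTheory ProbabilityTheory Filter Topology Finset
open Pool.Agent.W_7d29a1_F Pool.Agent.W_7d29a1_X Pool.Agent.W_7d29a1_h4g Pool.Agent.W_7d29a1_H
open Pool.Agent.W_7d29a1_HS (In wd md)
open Pool.Agent.W_7d29a1_HZ
open scoped ENNReal

/-- The dyadic scale of a distance. -/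
theorem dyad {T0 D I : ℕ} (hT0 : 1 ≤ T0) (h1 : 2 * T0 < D) (h2 : D ≤ 2 * (2 ^ I * T0)) : ∃ i ≤ I, 2 ^ i * T0 ≤ D ∧ D ≤ 2 * (2 ^ i * T0) := by
  obtain ⟨m, hm⟩ : ∃ m, m = Nat.log 2 (D / T0) := ⟨_, rfl⟩
  have k1 : 1 ≤ D / T0 := by
    rw [Nat.le_div_iff_mul_le (by omega)]
    omega
  have k2 : 2 ^ m ≤ D / T0 := hm ▸ Nat.pow_log_le_self 2 (by omega)
  have k3 : D / T0 < 2 ^ (m + 1) := hm ▸ Nat.lt_pow_succ_log_self (by norm_num) _
  rw [Nat.le_div_iff_mul_le (by omega)] at k2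
  rw [Nat.div_lt_iff_lt_mul (by omega)] at k3
  have k5 : 2 ^ (m + 1) * T0 = 2 * (2 ^ m * T0) := by ring
  by_cases hmI : m ≤ I
  · exact ⟨m, hmI, k2, by omega⟩
  · refine ⟨I, le_rfl, ?_, h2⟩
    have k6 : 2 ^ (I + 1) ≤ 2 ^ m := Nat.pow_le_pow_right (by norm_num) (by omega)
    have k7 : 2 ^ (I + 1) * T0 ≤ 2 ^ m * T0 := Nat.mul_le_mul_right T0 k6
    have k8 : 2 ^ (I + 1) * T0 = 2 * (2 ^ I * T0) := by ring
    omega

/-- The number of the scales. -/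
theorem scales {T0 b : ℕ} (hT0 : 1 ≤ T0) (hb : 256 * T0 ≤ b) : ∃ I : ℕ, I ≤ Nat.log 2 b ∧ (∀ i, i ≤ I → 256 * (2 ^ i * T0) ≤ b) ∧
    b < 512 * (2 ^ I * T0) := by
  obtain ⟨I, hI⟩ : ∃ I : ℕ, I = Nat.log 2 (b / (256 * T0)) := ⟨_, rfl⟩
  have h1 : 1 ≤ b / (256 * T0) := by
    rw [Nat.le_div_iff_mul_le (by omega)]
    omega
  have h2 : 2 ^ I ≤ b / (256 * T0) := hI ▸ Nat.pow_log_le_self 2 (by omega)
  have h3 : b / (256 * T0) < 2 ^ (I + 1) := hI ▸ Nat.lt_pow_succ_log_self (by norm_num) _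
  rw [Nat.le_div_iff_mul_le (by omega)] at h2
  rw [Nat.div_lt_iff_lt_mul (by omega)] at h3
  refine ⟨I, hI ▸ Nat.log_mono_right (Nat.div_le_self _ _), fun i hi => ?_, ?_⟩
  · have h4 : 2 ^ i ≤ 2 ^ I := Nat.pow_le_pow_right (by norm_num) hi
    have h5 : 2 ^ i * (256 * T0) ≤ 2 ^ I * (256 * T0) := Nat.mul_le_mul_right _ h4
    have h6 : 2 ^ i * (256 * T0) = 256 * (2 ^ i * T0) := by ring
    omega
  · have h5 : 2 ^ (I + 1) * (256 * T0) = 512 * (2 ^ I * T0) := by ring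
    omega

/-- The algebra of the assembly. -/
theorem asm15 {JJ : Finset ℕ} {I : ℕ} {P : ℕ → ℝ≥0∞} {Sl : ℕ → ℕ → ℝ≥0∞} {r s : ℕ → ℝ≥0∞} {q Z p : ℝ≥0∞}
    (hrow : ∀ j ∈ JJ, P j ≤ Sl 0 j + (∑ i ∈ range (I + 1), (r i * Sl i j + p) + (r I * (q * Z + p) + p)))
    (hSl : ∀ i, i ≤ I → ∑ j ∈ JJ, Sl i j ≤ s i * Z + p) :
    ∑ j ∈ JJ, P j ≤ (s 0 + ∑ i ∈ range (I + 1), r i * s i + JJ.card * (r I * q)) * Z +
      (1 + ∑ i ∈ range (I + 1), (r i + JJ.card) + (JJ.card * r I + JJ.card)) * p := by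
  refine (sum_le_sum hrow).trans ?_
  rw [sum_add_distrib, sum_add_distrib, sum_comm]
  have h1 : ∀ i ∈ range (I + 1), ∑ j ∈ JJ, (r i * Sl i j + p) ≤ r i * s i * Z + (r i + JJ.card) * p := by
    intro i hi'
    rw [mem_range] at hi'
    rw [sum_add_distrib, ← mul_sum, sum_const, nsmul_eq_mul]
    calc r i * ∑ j ∈ JJ, Sl i j + JJ.card * p ≤ r i * (s i * Z + p) + JJ.card * p :=
          add_le_add (mul_le_mul' le_rfl (hSl i (by omega))) le_rfl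
      _ = _ := by ring
  refine (add_le_add (hSl 0 (Nat.zero_le _)) (add_le_add (sum_le_sum h1) le_rfl)).trans (le_of_eq ?_)
  rw [sum_add_distrib, ← sum_mul, ← sum_mul, sum_const, nsmul_eq_mul]
  ring

variable {μ : Measure ℝ} {s : ℝ}

/-- The numbers. -/
theorem num15 {K : ℝ} (hK : 1 ≤ K) (hE : ∀ m n : ℕ, 1 ≤ m → m ≤ n → EE' μ s n ≤ K * Real.sqrt ((n : ℝ) / m) * EE' μ s m)
    {ε' θ' cm : ℝ} (hε0 : 0 < ε') (hθ0 : 0 < θ') (hθ2 : θ' ≤ ε') (hcm0 : 0 < cm) : ∃ cp : ℝ, 0 < cp ∧ ∃ L₀ : ℕ, ∀ L : ℕ, L₀ ≤ L →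
    ∀ N b l T0 I nJ : ℕ, N ≤ L → b ≤ N → 1 ≤ l → nJ ≤ L → 1 ≤ T0 → (T0 : ℝ) ≤ 2 * (L : ℝ) ^ θ' → I ≤ Nat.log 2 b →
    (∀ i, i ≤ I → 256 * (2 ^ i * T0) ≤ b) → b < 512 * (2 ^ I * T0) → ∀ Z : ℝ≥0∞,
    (ENNReal.ofReal ((L : ℝ) ^ ε' * ((((2 ^ 0 * T0 : ℕ) : ℝ) + b * (EE' μ s b)⁻¹) * (EE' μ s b)⁻¹)) +
      ∑ i ∈ range (I + 1), ENNReal.ofReal ((L : ℝ) ^ ε' * (EE' μ s (2 ^ i * T0))⁻¹) *
        ENNReal.ofReal ((L : ℝ) ^ ε' * ((((2 ^ i * T0 : ℕ) : ℝ) + b * (EE' μ s b)⁻¹) * (EE' μ s b)⁻¹)) +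
      (nJ : ℝ≥0∞) * (ENNReal.ofReal ((L : ℝ) ^ ε' * (EE' μ s (2 ^ I * T0))⁻¹) * ENNReal.ofReal ((L : ℝ) ^ ε' * (K * (EE' μ s l)⁻¹)))) * Z +
    (1 + ∑ i ∈ range (I + 1), (ENNReal.ofReal ((L : ℝ) ^ ε' * (EE' μ s (2 ^ i * T0))⁻¹) + nJ) +
      (nJ * ENNReal.ofReal ((L : ℝ) ^ ε' * (EE' μ s (2 ^ I * T0))⁻¹) + nJ)) * ENNReal.ofReal (Real.exp (-(L : ℝ) ^ cm)) ≤
    ENNReal.ofReal ((L : ℝ) ^ (3 * ε') * ((b * (EE' μ s b)⁻¹ + nJ * (EE' μ s l)⁻¹) * (EE' μ s b)⁻¹)) * Z +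
      ENNReal.ofReal (Real.exp (-(L : ℝ) ^ cp)) := by
  have hE0 : ∀ t, 0 < EE' μ s t := fun t => lt_of_lt_of_le zero_lt_one (le_max_left _ _)
  have hE1 : ∀ t, 1 ≤ EE' μ s t := fun t => le_max_left _ _
  obtain ⟨cp, hcp, -, L₄, hPE⟩ := Pool.Agent.W_7d29a1_Z.NumI77.pow_exp hcm0 (ε' + 3)
  obtain ⟨BB, hBB⟩ : ∃ BB : ℝ, BB = 2 * K * EE' μ s 1 + 1 + (K + 1) + 23 * K ^ 2 := ⟨_, rfl⟩
  have hBB0 : 0 ≤ BB := by rw [hBB]; have := hE0 1; positivity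
  obtain ⟨L₅, hlog⟩ := log_card hε0 BB hBB0
  refine ⟨cp, hcp, L₄ + L₅ + 100, fun L hL N b l T0 I nJ hNL hbN hl1 hnJ hT01 hT0b hIb hTI hTI2 Z => ?_⟩
  have hL100 : (100 : ℝ) ≤ L := by exact_mod_cast (show 100 ≤ L by omega)
  have hLR : (1 : ℝ) ≤ L := by linarith
  have hL0 : (0 : ℝ) < L := by linarith
  obtain ⟨T, hTd⟩ : ∃ T : ℕ → ℕ, T = fun i => 2 ^ i * T0 := ⟨_, rfl⟩
  have hTdi : ∀ i, 2 ^ i * T0 = T i := fun i => by rw [hTd]
  simp only [hTdi] at hTI hTI2 ⊢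
  have hTT0 : T 0 = T0 := by rw [← hTdi]; omega
  have hT0T : ∀ i, T0 ≤ T i := fun i => by
    rw [← hTdi]
    have : 1 * T0 ≤ 2 ^ i * T0 := Nat.mul_le_mul_right T0 Nat.one_le_two_pow
    omega
  have hb1 : 1 ≤ b := by have := hTI 0 (Nat.zero_le _); omega
  have hIcard : I + 1 ≤ Nat.log 2 N + 4 := by
    have := Nat.log_mono_right (b := 2) hbN
    omega
  obtain ⟨E, hEd⟩ : ∃ E : ℝ, E = EE' μ s b := ⟨_, rfl⟩
  have hEp : 0 < E := hEd ▸ hE0 b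
  have hEi : 0 < E⁻¹ := inv_pos.2 hEp
  obtain ⟨X, hX⟩ : ∃ X : ℝ, X = b * E⁻¹ := ⟨_, rfl⟩
  have hX0 : 0 ≤ X := by rw [hX]; positivity
  obtain ⟨Y, hY⟩ : ∃ Y : ℝ, Y = nJ * (EE' μ s l)⁻¹ := ⟨_, rfl⟩
  have hY0 : 0 ≤ Y := by rw [hY]; have := hE0 l; positivity
  obtain ⟨Lε, hLε⟩ : ∃ Lε : ℝ, Lε = (L : ℝ) ^ ε' := ⟨_, rfl⟩
  have hLε1 : 1 ≤ Lε := hLε ▸ Real.one_le_rpow hLR hε0.le
  have hbR : (1 : ℝ) ≤ b := by exact_mod_cast hb1
  have hK0 : 0 < K := by linarith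
  -- the growth of the unit
  have n0 : ∀ m : ℕ, 1 ≤ m → m ≤ b → (m : ℝ) * (EE' μ s m)⁻¹ ≤ K * X := by
    intro m hm1 hmb
    have hm0 : (0 : ℝ) < m := by exact_mod_cast hm1
    have h1 := hE m b hm1 hmb
    have h2 : (1 : ℝ) ≤ (b : ℝ) / m := by
      rw [le_div_iff₀ hm0, one_mul]
      exact_mod_cast hmb
    have h3 : Real.sqrt ((b : ℝ) / m) ≤ (b : ℝ) / m := by
      rw [Real.sqrt_le_left (by linarith)]
      nlinarith
    have h4 : E ≤ K * ((b : ℝ) / m) * EE' μ s m := by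
      rw [hEd]
      exact h1.trans (mul_le_mul_of_nonneg_right (mul_le_mul_of_nonneg_left h3 hK0.le) (hE0 m).le)
    have h5 : (m : ℝ) * E ≤ K * b * EE' μ s m := by
      calc (m : ℝ) * E ≤ m * (K * ((b : ℝ) / m) * EE' μ s m) := mul_le_mul_of_nonneg_left h4 hm0.le
        _ = K * b * EE' μ s m := by
            field_simp
    rw [hX, ← div_eq_mul_inv, div_le_iff₀ (hE0 m)]
    calc (m : ℝ) = m * E * E⁻¹ := by rw [mul_assoc, mul_inv_cancel₀ hEp.ne', mul_one]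
      _ ≤ K * b * EE' μ s m * E⁻¹ := mul_le_mul_of_nonneg_right h5 hEi.le
      _ = _ := by ring
  have n1 : (1 : ℝ) ≤ K * EE' μ s 1 * X := by
    have h1 := n0 1 le_rfl hb1
    have h2 := hE0 1
    rw [Nat.cast_one, one_mul, inv_le_iff_one_le_mul₀ h2] at h1
    linarith
  have n2 : (T 0 : ℝ) + X ≤ Lε * (2 * K * EE' μ s 1 + 1) * X := by
    have h1 : (T 0 : ℝ) ≤ 2 * Lε := by
      rw [hTT0]
      refine hT0b.trans ?_
      have : (L : ℝ) ^ θ' ≤ Lε := hLε ▸ Real.rpow_le_rpow_of_exponent_le hLR hθ2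
      linarith
    have h2 : 2 * Lε * 1 ≤ 2 * Lε * (K * EE' μ s 1 * X) := mul_le_mul_of_nonneg_left n1 (by linarith)
    have h3 : 1 * X ≤ Lε * X := mul_le_mul_of_nonneg_right hLε1 hX0
    calc (T 0 : ℝ) + X ≤ 2 * Lε * 1 + 1 * X := by linarith
      _ ≤ 2 * Lε * (K * EE' μ s 1 * X) + Lε * X := add_le_add h2 h3
      _ = _ := by ring
  have n3 : ∀ i, i ≤ I → ((T i : ℝ) + X) * (EE' μ s (T i))⁻¹ ≤ (K + 1) * X := by
    intro i hi'
    have h1 := n0 (T i) (hT01.trans (hT0T i)) (by have := hTI i hi'; omega)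
    have h2 : (EE' μ s (T i))⁻¹ ≤ 1 := inv_le_one_of_one_le₀ (hE1 _)
    have h3 : X * (EE' μ s (T i))⁻¹ ≤ X := mul_le_of_le_one_right hX0 h2
    rw [add_mul]
    linarith
  have n4 : (EE' μ s (T I))⁻¹ ≤ 23 * K * E⁻¹ := by
    have hTI0 : 1 ≤ T I := hT01.trans (hT0T I)
    have hm0 : (0 : ℝ) < T I := by exact_mod_cast hTI0
    have h1 := hE (T I) b hTI0 (by have := hTI I le_rfl; omega)
    have h2 : Real.sqrt ((b : ℝ) / T I) ≤ 23 := by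
      rw [Real.sqrt_le_left (by norm_num), div_le_iff₀ hm0]
      have : (b : ℝ) ≤ 512 * T I := by exact_mod_cast hTI2.le
      linarith
    have h3 : E ≤ 23 * K * EE' μ s (T I) := by
      rw [hEd]
      refine h1.trans (mul_le_mul_of_nonneg_right ?_ (hE0 _).le)
      calc K * Real.sqrt ((b : ℝ) / T I) ≤ K * 23 := mul_le_mul_of_nonneg_left h2 hK0.le
        _ = 23 * K := by ring
    rw [← div_eq_mul_inv, le_div_iff₀ hEp, inv_mul_le_iff₀ (hE0 _)]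
    linarith
  have hcardJ : (nJ : ℝ) ≤ L := by exact_mod_cast hnJ
  have hIR : ((I + 1 : ℕ) : ℝ) ≤ ((Nat.log 2 N + 4 : ℕ) : ℝ) := by exact_mod_cast hIcard
  have hI1 : (1 : ℝ) ≤ ((I + 1 : ℕ) : ℝ) := by exact_mod_cast (show 1 ≤ I + 1 by omega)
  have hcardE : (nJ : ℝ≥0∞) = ENNReal.ofReal nJ := (ENNReal.ofReal_natCast _).symm
  refine add_le_add (mul_le_mul' ?_ le_rfl) ?_
  · -- the price
    have hW0 : 0 ≤ (X + Y) * E⁻¹ := by positivity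
    have t1 : ENNReal.ofReal ((L : ℝ) ^ ε' * ((T 0 + b * (EE' μ s b)⁻¹) * (EE' μ s b)⁻¹)) ≤
        ENNReal.ofReal (Lε * Lε * ((X + Y) * E⁻¹) * (2 * K * EE' μ s 1 + 1)) := by
      refine ENNReal.ofReal_le_ofReal ?_
      rw [← hEd, ← hX, ← hLε]
      have h1 := hE0 1
      calc Lε * (((T 0 : ℝ) + X) * E⁻¹) ≤ Lε * ((Lε * (2 * K * EE' μ s 1 + 1) * X) * E⁻¹) := by gcongr
        _ = Lε * Lε * (X * E⁻¹) * (2 * K * EE' μ s 1 + 1) := by ring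
        _ ≤ Lε * Lε * ((X + Y) * E⁻¹) * (2 * K * EE' μ s 1 + 1) := by
            gcongr
            linarith
    have t2 : ∑ i ∈ range (I + 1), ENNReal.ofReal ((L : ℝ) ^ ε' * (EE' μ s (T i))⁻¹) *
          ENNReal.ofReal ((L : ℝ) ^ ε' * ((T i + b * (EE' μ s b)⁻¹) * (EE' μ s b)⁻¹)) ≤
        ENNReal.ofReal (Lε * Lε * ((X + Y) * E⁻¹) * (((I + 1 : ℕ) : ℝ) * (K + 1))) := by
      have h1 : ∀ i ∈ range (I + 1), ENNReal.ofReal ((L : ℝ) ^ ε' * (EE' μ s (T i))⁻¹) *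
            ENNReal.ofReal ((L : ℝ) ^ ε' * ((T i + b * (EE' μ s b)⁻¹) * (EE' μ s b)⁻¹)) ≤
          ENNReal.ofReal (Lε * Lε * ((X + Y) * E⁻¹) * (K + 1)) := by
        intro i hi'
        rw [mem_range] at hi'
        have h2 := (inv_pos.2 (hE0 (T i))).le
        rw [← ENNReal.ofReal_mul (mul_nonneg (by positivity) h2)]
        refine ENNReal.ofReal_le_ofReal ?_
        rw [← hEd, ← hX, ← hLε]
        calc Lε * (EE' μ s (T i))⁻¹ * (Lε * (((T i : ℝ) + X) * E⁻¹)) = Lε * Lε * ((((T i : ℝ) + X) * (EE' μ s (T i))⁻¹) * E⁻¹) := by ring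
          _ ≤ Lε * Lε * (((K + 1) * X) * E⁻¹) := by
              have := n3 i (by omega)
              gcongr
          _ = Lε * Lε * (X * E⁻¹) * (K + 1) := by ring
          _ ≤ Lε * Lε * ((X + Y) * E⁻¹) * (K + 1) := by
              gcongr
              linarith
      refine (sum_le_sum h1).trans (le_of_eq ?_)
      rw [sum_const, card_range, nsmul_eq_mul, ← ENNReal.ofReal_natCast, ← ENNReal.ofReal_mul (Nat.cast_nonneg _)]
      congr 1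
      ring
    have t3 : (nJ : ℝ≥0∞) * (ENNReal.ofReal ((L : ℝ) ^ ε' * (EE' μ s (T I))⁻¹) * ENNReal.ofReal ((L : ℝ) ^ ε' * (K * (EE' μ s l)⁻¹))) ≤
        ENNReal.ofReal (Lε * Lε * ((X + Y) * E⁻¹) * (23 * K ^ 2)) := by
      have h2 := (inv_pos.2 (hE0 (T I))).le
      have h3 := (inv_pos.2 (hE0 l)).le
      rw [hcardE, ← ENNReal.ofReal_mul (mul_nonneg (by positivity) h2), ← ENNReal.ofReal_mul (Nat.cast_nonneg _)]
      refine ENNReal.ofReal_le_ofReal ?_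
      rw [← hLε]
      calc (nJ : ℝ) * (Lε * (EE' μ s (T I))⁻¹ * (Lε * (K * (EE' μ s l)⁻¹))) =
            Lε * Lε * K * (nJ * (EE' μ s l)⁻¹) * (EE' μ s (T I))⁻¹ := by ring
        _ = Lε * Lε * K * Y * (EE' μ s (T I))⁻¹ := by rw [hY]
        _ ≤ Lε * Lε * K * Y * (23 * K * E⁻¹) := by gcongr
        _ = Lε * Lε * (Y * E⁻¹) * (23 * K ^ 2) := by ring
        _ ≤ Lε * Lε * ((X + Y) * E⁻¹) * (23 * K ^ 2) := by
            gcongr
            linarith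
    refine (add_le_add (add_le_add t1 t2) t3).trans ?_
    have h1 := hE0 1
    rw [← ENNReal.ofReal_add (by positivity) (by positivity), ← ENNReal.ofReal_add (by positivity) (by positivity)]
    refine ENNReal.ofReal_le_ofReal ?_
    rw [← hEd, ← hX, ← hY]
    have h2 := hlog L (by omega) N hNL
    have h3 : (2 * K * EE' μ s 1 + 1) + (((I + 1 : ℕ) : ℝ) * (K + 1)) + 23 * K ^ 2 ≤ Lε := by
      rw [hLε]
      refine le_trans ?_ h2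
      refine le_trans ?_ (mul_le_mul_of_nonneg_right hIR hBB0)
      have h4 : 0 ≤ 2 * K * EE' μ s 1 + 1 := by positivity
      have h5 : 0 ≤ 23 * K ^ 2 := by positivity
      have h6 : 1 * (2 * K * EE' μ s 1 + 1 + 23 * K ^ 2) ≤ ((I + 1 : ℕ) : ℝ) * (2 * K * EE' μ s 1 + 1 + 23 * K ^ 2) :=
        mul_le_mul_of_nonneg_right hI1 (by linarith)
      rw [hBB]
      linarith
    have h6 : Lε * Lε * Lε = (L : ℝ) ^ (3 * ε') := by
      rw [hLε, ← Real.rpow_add hL0, ← Real.rpow_add hL0]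
      congr 1
      ring
    calc _ = Lε * Lε * ((X + Y) * E⁻¹) * ((2 * K * EE' μ s 1 + 1) + (((I + 1 : ℕ) : ℝ) * (K + 1)) + 23 * K ^ 2) := by ring
      _ ≤ Lε * Lε * ((X + Y) * E⁻¹) * Lε := mul_le_mul_of_nonneg_left h3 (by positivity)
      _ = Lε * Lε * Lε * ((X + Y) * E⁻¹) := by ring
      _ = _ := by rw [h6]
  · -- the errors
    have hri : ∀ i, ENNReal.ofReal ((L : ℝ) ^ ε' * (EE' μ s (T i))⁻¹) ≤ ENNReal.ofReal Lε := by
      intro i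
      rw [hLε]
      refine ENNReal.ofReal_le_ofReal (mul_le_of_le_one_right (by positivity) (inv_le_one_of_one_le₀ (hE1 _)))
    have hcardL : (nJ : ℝ≥0∞) ≤ ENNReal.ofReal L := by
      rw [hcardE]
      exact ENNReal.ofReal_le_ofReal hcardJ
    have hIL : ((I + 1 : ℕ) : ℝ) ≤ L + 4 := by
      refine hIR.trans ?_
      have h4 : Nat.log 2 N + 4 ≤ L + 4 := by
        have := Nat.log_le_self 2 N
        omega
      exact_mod_cast h4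
    have h1 : 1 + ∑ i ∈ range (I + 1), (ENNReal.ofReal ((L : ℝ) ^ ε' * (EE' μ s (T i))⁻¹) + (nJ : ℝ≥0∞)) +
        (nJ * ENNReal.ofReal ((L : ℝ) ^ ε' * (EE' μ s (T I))⁻¹) + nJ) ≤
        ENNReal.ofReal (1 + ((I + 1 : ℕ) : ℝ) * (Lε + L) + (L * Lε + L)) := by
      have h2 : ∑ i ∈ range (I + 1), (ENNReal.ofReal ((L : ℝ) ^ ε' * (EE' μ s (T i))⁻¹) + (nJ : ℝ≥0∞)) ≤
          ENNReal.ofReal (((I + 1 : ℕ) : ℝ) * (Lε + L)) := by
        refine (sum_le_sum fun i _ => add_le_add (hri i) hcardL).trans (le_of_eq ?_)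
        rw [sum_const, card_range, nsmul_eq_mul, ← ENNReal.ofReal_natCast, ← ENNReal.ofReal_add (by linarith) (by linarith),
          ← ENNReal.ofReal_mul (Nat.cast_nonneg _)]
      have h3 : (nJ : ℝ≥0∞) * ENNReal.ofReal ((L : ℝ) ^ ε' * (EE' μ s (T I))⁻¹) + nJ ≤ ENNReal.ofReal (L * Lε + L) := by
        rw [ENNReal.ofReal_add (by positivity) (by positivity)]
        exact add_le_add ((mul_le_mul' hcardL (hri I)).trans_eq (ENNReal.ofReal_mul (by linarith)).symm) hcardL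
      rw [ENNReal.ofReal_add (by positivity) (by positivity), ENNReal.ofReal_add (by positivity) (by positivity), ENNReal.ofReal_one]
      exact add_le_add (add_le_add le_rfl h2) h3
    refine (mul_le_mul' h1 le_rfl).trans ?_
    rw [← ENNReal.ofReal_mul (by positivity)]
    refine ENNReal.ofReal_le_ofReal (le_trans (mul_le_mul_of_nonneg_right ?_ (Real.exp_pos _).le) (hPE L (by omega)))
    rw [Real.rpow_add hL0, ← hLε]
    have e3 : (L : ℝ) ^ (3 : ℝ) = (L : ℝ) ^ 3 := by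
      rw [← Real.rpow_natCast]
      norm_num
    rw [e3]
    obtain ⟨w, hw⟩ : ∃ w : ℝ, w = L := ⟨_, rfl⟩
    rw [← hw] at hIL hL100 hLR ⊢
    have hLε0 : 0 ≤ Lε := by linarith
    have h4 : ((I + 1 : ℕ) : ℝ) * (Lε + w) ≤ (w + 4) * (Lε + w) := mul_le_mul_of_nonneg_right hIL (by linarith)
    have h5 : Lε + w ≤ 2 * w * Lε := by
      have g1 : 1 * Lε ≤ w * Lε := mul_le_mul_of_nonneg_right hLR hLε0
      have g2 : w * 1 ≤ w * Lε := mul_le_mul_of_nonneg_left hLε1 (by linarith)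
      linarith
    have h9 : (w + 4) * (Lε + w) ≤ (w + 4) * (2 * w * Lε) := mul_le_mul_of_nonneg_left h5 (by linarith)
    have h10 : 1 + w ≤ 2 * w * Lε := by
      have g2 : w * 1 ≤ w * Lε := mul_le_mul_of_nonneg_left hLε1 (by linarith)
      linarith
    have h11 : 2 * w ^ 2 + 11 * w ≤ w ^ 3 := by nlinarith [sq_nonneg w]
    have h12 : Lε * (2 * w ^ 2 + 11 * w) ≤ Lε * w ^ 3 := mul_le_mul_of_nonneg_left h11 hLε0
    calc 1 + ((I + 1 : ℕ) : ℝ) * (Lε + w) + (w * Lε + w) ≤ (1 + w) + (w + 4) * (2 * w * Lε) + w * Lε := by linarith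
      _ ≤ 2 * w * Lε + (w + 4) * (2 * w * Lε) + w * Lε := by linarith
      _ = Lε * (2 * w ^ 2 + 11 * w) := by ring
      _ ≤ Lε * w ^ 3 := h12

end Pool.Agent.W_7d29a1_C0.P15
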