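import Mathlib

/-!
STORM C0 (helper46): THE NUMBERS OF THE REGIME.

`Reg46 E w c₀ Θ δ a ε N` collects the facts about the unit `E` and the width `w` at the scales `r` with `N ^ δ ≤ r ≤ N` (`Rg46 δ N r`),
with all constants absorbed in `N ^ ε`.  `reg46` (file `Num46R`): under `Stiff96 _ c₀` and `KapLe96 _ Θ` it holds for every `δ, ε > 0`
and every large `N`.  `Bs46`: a base `b` with its corrected scale `s` at the block length `r`, `Ch46`: a change of the base.  All facts are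
given in the logarithms in the base `N`, where the inequalities between monomials are linear (see Num46B for the pattern of the proofs).
-/

set_option autoImplicit false

namespace Pool.Agent.W_7d29a1_C0

/-- The scales of the regime. -/
structure Rg46 (δ N : ℝ) (r : ℕ) : Prop where
  lo : N ^ δ ≤ r
  hi : (r : ℝ) ≤ N

/-- The facts of the regime at the length `N`. -/
structure Reg46 (E w : ℕ → ℝ) (c₀ Θ δ a ε N : ℝ) : Prop where
  N1 : 1 < N
  c₀0 : 0 < c₀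
  Θ0 : 0 < Θ
  δ0 : 0 < δ
  a0 : 0 < a
  a1 : a < 1
  ε0 : 0 < ε
  E1 : ∀ n, 1 ≤ E n
  mono : Monotone E
  dbl : ∀ n, E (2 * n) ≤ 2 * E n
  w0 : ∀ n : ℕ, 1 ≤ n → 0 < w n
  /-- Constants are at most `N ^ ε`. -/
  K : 16 ≤ N ^ ε
  /-- The number of the dyadic scales is at most `N ^ ε`. -/
  lg : Real.logb 2 N + 1 ≤ N ^ ε
  wle : ∀ r : ℕ, Rg46 δ N r → w r ≤ N ^ ε * E r ^ 2
  wge : ∀ r : ℕ, Rg46 δ N r → E r ^ 2 ≤ N ^ ε * w r
  stiff : ∀ r : ℕ, Rg46 δ N r → (r : ℝ) ^ (3 * c₀) * E r ^ 3 ≤ r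
  kap : ∀ r : ℕ, Rg46 δ N r → (r : ℝ) ≤ (r : ℝ) ^ (Θ + ε) * E r ^ 3
  quart : ∀ r : ℕ, Rg46 δ N r → (r : ℝ) ^ (1 / 4 : ℝ) ≤ E r
  half : ∀ t r : ℕ, 1 ≤ t → t ≤ r → E r ≤ N ^ ε * Real.sqrt ((r : ℝ) / t) * E t
  low : ∀ t r : ℕ, 1 ≤ t → t ≤ r → ((r : ℝ) / t) ^ a * E t ≤ N ^ ε * E r
  wmono : ∀ t r : ℕ, N ^ δ ≤ t → t ≤ r → w t ≤ N ^ ε * w r
  wlow : ∀ t r : ℕ, N ^ δ ≤ t → t ≤ r → ((r : ℝ) / t) ^ a * w t ≤ N ^ ε * w r
  wup : ∀ t r : ℕ, N ^ δ ≤ t → t ≤ r → w r ≤ N ^ ε * ((r : ℝ) / t) ^ (1 - a) * w t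

section logs

variable {E w : ℕ → ℝ} {c₀ Θ δ a ε N : ℝ}

/-- From logarithms to numbers. -/
theorem of_lg46 (hN : 1 < N) {x y : ℝ} (hx : 0 < x) (hy : 0 < y) (h : Real.logb N x ≤ Real.logb N y) : x ≤ y :=
  (Real.logb_le_logb hN hx hy).1 h

theorem to_lg46 (hN : 1 < N) {x y : ℝ} (hx : 0 < x) (h : x ≤ y) : Real.logb N x ≤ Real.logb N y :=
  Real.logb_le_logb_of_le hN hx h

theorem lgN46 (hN : 1 < N) (x : ℝ) : Real.logb N (N ^ x) = x :=
  Real.logb_rpow (by linarith) hN.ne'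

theorem lgNN46 (hN : 1 < N) : Real.logb N N = 1 := Real.logb_self_eq_one hN

theorem le_pow46 (hN : 1 < N) {x y : ℝ} (hx : 0 < x) (h : Real.logb N x ≤ y) : x ≤ N ^ y :=
  of_lg46 hN hx (Real.rpow_pos_of_pos (by linarith) _) (by rwa [lgN46 hN])

theorem pow_le46 (hN : 1 < N) {x y : ℝ} (hx : 0 < x) (h : y ≤ Real.logb N x) : N ^ y ≤ x :=
  of_lg46 hN (Real.rpow_pos_of_pos (by linarith) _) hx (by rwa [lgN46 hN])

namespace Rg46

variable {r : ℕ}

theorem pos (hN : 1 < N) (h : Rg46 δ N r) : 0 < (r : ℝ) :=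
  (Real.rpow_pos_of_pos (by linarith) _).trans_le h.lo

theorem npos (hN : 1 < N) (h : Rg46 δ N r) : 0 < r := by exact_mod_cast h.pos hN

theorem lx (hN : 1 < N) (h : Rg46 δ N r) : δ ≤ Real.logb N r :=
  (lgN46 hN δ).symm.le.trans (to_lg46 hN (Real.rpow_pos_of_pos (by linarith) _) h.lo)

theorem lx1 (hN : 1 < N) (h : Rg46 δ N r) : Real.logb N r ≤ 1 :=
  (to_lg46 hN (h.pos hN) h.hi).trans (lgNN46 hN).le

end Rg46

namespace Reg46

variable {r t : ℕ}

theorem N0 (R : Reg46 E w c₀ Θ δ a ε N) : 0 < N := by linarith [R.N1]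

theorem Epos (R : Reg46 E w c₀ Θ δ a ε N) (n : ℕ) : 0 < E n := lt_of_lt_of_le one_pos (R.E1 n)

theorem lE0 (R : Reg46 E w c₀ Θ δ a ε N) (n : ℕ) : 0 ≤ Real.logb N (E n) := Real.logb_nonneg R.N1 (R.E1 n)

theorem lmono (R : Reg46 E w c₀ Θ δ a ε N) (h : t ≤ r) : Real.logb N (E t) ≤ Real.logb N (E r) :=
  to_lg46 R.N1 (R.Epos t) (R.mono h)

theorem l16 (R : Reg46 E w c₀ Θ δ a ε N) : Real.logb N 16 ≤ ε := by
  have := to_lg46 R.N1 (by norm_num) R.K
  rwa [lgN46 R.N1] at this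

theorem l2 (R : Reg46 E w c₀ Θ δ a ε N) : Real.logb N 2 ≤ ε / 4 := by
  have h := R.l16
  rw [show (16 : ℝ) = 2 ^ 4 by norm_num, Real.logb_pow] at h
  push_cast at h
  linarith

theorem l2' (R : Reg46 E w c₀ Θ δ a ε N) : 0 ≤ Real.logb N 2 := Real.logb_nonneg R.N1 (by norm_num)

theorem lw (R : Reg46 E w c₀ Θ δ a ε N) (h : Rg46 δ N r) : Real.logb N (w r) ≤ 2 * Real.logb N (E r) + ε := by
  have hE := R.Epos r
  have hw := R.w0 r (h.npos R.N1)
  have hN := R.N0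
  have h1 := to_lg46 R.N1 hw (R.wle r h)
  rw [Real.logb_mul (by positivity) (by positivity), lgN46 R.N1, Real.logb_pow] at h1
  push_cast at h1
  linarith

theorem lw' (R : Reg46 E w c₀ Θ δ a ε N) (h : Rg46 δ N r) : 2 * Real.logb N (E r) ≤ Real.logb N (w r) + ε := by
  have hE := R.Epos r
  have hw := R.w0 r (h.npos R.N1)
  have hN := R.N0
  have h1 := to_lg46 R.N1 (by positivity) (R.wge r h)
  rw [Real.logb_mul (by positivity) (by positivity), lgN46 R.N1, Real.logb_pow] at h1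
  push_cast at h1
  linarith

theorem lst (R : Reg46 E w c₀ Θ δ a ε N) (h : Rg46 δ N r) :
    3 * Real.logb N (E r) + 3 * c₀ * Real.logb N r ≤ Real.logb N r := by
  have hE := R.Epos r
  have hr := h.pos R.N1
  have h1 := to_lg46 R.N1 (by positivity) (R.stiff r h)
  rw [Real.logb_mul (by positivity) (by positivity), Real.logb_rpow_eq_mul_logb_of_pos hr, Real.logb_pow] at h1
  push_cast at h1
  linarith

/-- `κ_r ≥ N ^ (3 c₀ δ)`. -/
theorem lst' (R : Reg46 E w c₀ Θ δ a ε N) (h : Rg46 δ N r) : 3 * Real.logb N (E r) + 3 * (c₀ * δ) ≤ Real.logb N r := by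
  have h1 := R.lst h
  have h2 : c₀ * δ ≤ c₀ * Real.logb N r := mul_le_mul_of_nonneg_left (h.lx R.N1) R.c₀0.le
  linarith

theorem lkap (R : Reg46 E w c₀ Θ δ a ε N) (h : Rg46 δ N r) :
    Real.logb N r ≤ (Θ + ε) * Real.logb N r + 3 * Real.logb N (E r) := by
  have hE := R.Epos r
  have hr := h.pos R.N1
  have h1 := to_lg46 R.N1 hr (R.kap r h)
  rw [Real.logb_mul (by positivity) (by positivity), Real.logb_rpow_eq_mul_logb_of_pos hr, Real.logb_pow] at h1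
  push_cast at h1
  linarith

/-- `κ_r ≤ N ^ (Θ + ε)`. -/
theorem lkap' (R : Reg46 E w c₀ Θ δ a ε N) (h : Rg46 δ N r) : Real.logb N r ≤ Θ + ε + 3 * Real.logb N (E r) := by
  have h1 := R.lkap h
  have h2 : (Θ + ε) * Real.logb N r ≤ (Θ + ε) * 1 :=
    mul_le_mul_of_nonneg_left (h.lx1 R.N1) (by linarith [R.Θ0, R.ε0])
  linarith

theorem lq (R : Reg46 E w c₀ Θ δ a ε N) (h : Rg46 δ N r) : Real.logb N r ≤ 4 * Real.logb N (E r) := by
  have hr := h.pos R.N1
  have h1 := to_lg46 R.N1 (by positivity) (R.quart r h)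
  rw [Real.logb_rpow_eq_mul_logb_of_pos hr] at h1
  linarith

/-- `E_r ≥ N ^ (δ / 4)`. -/
theorem lq' (R : Reg46 E w c₀ Θ δ a ε N) (h : Rg46 δ N r) : δ / 4 ≤ Real.logb N (E r) := by
  linarith [R.lq h, h.lx R.N1]

/-- `E_r ≤ N ^ (1 / 3 - c₀ δ)`. -/
theorem lE3 (R : Reg46 E w c₀ Θ δ a ε N) (h : Rg46 δ N r) : Real.logb N (E r) ≤ 1 / 3 - c₀ * δ := by
  linarith [R.lst' h, h.lx1 R.N1]

theorem lhalf (R : Reg46 E w c₀ Θ δ a ε N) (ht : 1 ≤ t) (h : t ≤ r) :
    Real.logb N (E r) ≤ Real.logb N (E t) + (Real.logb N r - Real.logb N t) / 2 + ε := by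
  have hE := R.Epos r
  have hE' := R.Epos t
  have ht' : (0 : ℝ) < t := by exact_mod_cast ht
  have hr' : (0 : ℝ) < r := by exact_mod_cast lt_of_lt_of_le ht h
  have hN := R.N0
  have h1 := to_lg46 R.N1 (by positivity) (R.half t r ht h)
  rw [Real.logb_mul (by positivity) (by positivity), Real.logb_mul (by positivity) (by positivity), lgN46 R.N1,
    Real.sqrt_eq_rpow, Real.logb_rpow_eq_mul_logb_of_pos (by positivity), Real.logb_div (by positivity) (by positivity)] at h1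
  linarith

theorem llow (R : Reg46 E w c₀ Θ δ a ε N) (ht : 1 ≤ t) (h : t ≤ r) :
    Real.logb N (E t) + a * (Real.logb N r - Real.logb N t) ≤ Real.logb N (E r) + ε := by
  have hE := R.Epos r
  have hE' := R.Epos t
  have ht' : (0 : ℝ) < t := by exact_mod_cast ht
  have hr' : (0 : ℝ) < r := by exact_mod_cast lt_of_lt_of_le ht h
  have hN := R.N0
  have h1 := to_lg46 R.N1 (by positivity) (R.low t r ht h)
  rw [Real.logb_mul (by positivity) (by positivity), Real.logb_mul (by positivity) (by positivity), lgN46 R.N1,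
    Real.logb_rpow_eq_mul_logb_of_pos (by positivity), Real.logb_div (by positivity) (by positivity)] at h1
  linarith

theorem lxmono (R : Reg46 E w c₀ Θ δ a ε N) (ht : 1 ≤ t) (h : t ≤ r) : Real.logb N t ≤ Real.logb N r := by
  have ht' : (0 : ℝ) < t := by exact_mod_cast ht
  exact to_lg46 R.N1 ht' (by exact_mod_cast h)

theorem one_le (R : Reg46 E w c₀ Θ δ a ε N) (ht : N ^ δ ≤ t) : 1 ≤ t := by
  have h1 : (0 : ℝ) < t := (Real.rpow_pos_of_pos R.N0 _).trans_le ht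
  exact_mod_cast h1

theorem lwlow (R : Reg46 E w c₀ Θ δ a ε N) (ht : N ^ δ ≤ t) (h : t ≤ r) :
    Real.logb N (w t) + a * (Real.logb N r - Real.logb N t) ≤ Real.logb N (w r) + ε := by
  have ht1 := R.one_le ht
  have hE := R.w0 r (ht1.trans h)
  have hE' := R.w0 t ht1
  have ht' : (0 : ℝ) < t := by exact_mod_cast ht1
  have hr' : (0 : ℝ) < r := by exact_mod_cast lt_of_lt_of_le ht1 h
  have hN := R.N0
  have h1 := to_lg46 R.N1 (by positivity) (R.wlow t r ht h)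
  rw [Real.logb_mul (by positivity) (by positivity), Real.logb_mul (by positivity) (by positivity), lgN46 R.N1,
    Real.logb_rpow_eq_mul_logb_of_pos (by positivity), Real.logb_div (by positivity) (by positivity)] at h1
  linarith

theorem lwup (R : Reg46 E w c₀ Θ δ a ε N) (ht : N ^ δ ≤ t) (h : t ≤ r) :
    Real.logb N (w r) ≤ Real.logb N (w t) + (1 - a) * (Real.logb N r - Real.logb N t) + ε := by
  have ht1 := R.one_le ht
  have hE := R.w0 r (ht1.trans h)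
  have hE' := R.w0 t ht1
  have ht' : (0 : ℝ) < t := by exact_mod_cast ht1
  have hr' : (0 : ℝ) < r := by exact_mod_cast lt_of_lt_of_le ht1 h
  have hN := R.N0
  have h1 := to_lg46 R.N1 (by positivity) (R.wup t r ht h)
  rw [Real.logb_mul (by positivity) (by positivity), Real.logb_mul (by positivity) (by positivity), lgN46 R.N1,
    Real.logb_rpow_eq_mul_logb_of_pos (by positivity), Real.logb_div (by positivity) (by positivity)] at h1
  linarith

end Reg46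

/-- A base `b` with its corrected scale `s`, `E_s ~ N ^ (-3 c / 4) E_b ^ (3 / 2)`, in the blocks of length `r`:
`N ^ c E_r ≤ E_b ^ 2 ≤ N ^ (9 c / 8) E_r`. -/
structure Bs46 (E : ℕ → ℝ) (δ c N : ℝ) (b s r : ℕ) : Prop where
  c0 : 0 < c
  cδ : 64 * c ≤ δ
  hb : Rg46 δ N b
  hs : Rg46 δ N s
  hr : Rg46 δ N r
  bs : b ≤ s
  sr : s ≤ r
  pin : N ^ c * E r ≤ E b ^ 2
  up : E b ^ 2 ≤ N ^ (9 / 8 * c) * E r
  s1 : E b ^ 6 ≤ N ^ (3 * c) * E s ^ 4
  s2 : N ^ (3 * c) * E s ^ 4 ≤ 16 * E b ^ 6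

/-- A change of the base, `(b, s) → (b', s')`, in the blocks of length `ρ`. -/
structure Ch46 (E : ℕ → ℝ) (δ c Θ N : ℝ) (b s b' s' ρ : ℕ) : Prop where
  h : Bs46 E δ c N b s ρ
  h' : Bs46 E δ c N b' s' ρ
  bb : b ≤ b'
  tie : N ^ c * b' ≤ N ^ Θ * (E b' * E ρ)

section base

variable {c : ℝ} {b b' s s' r ρ : ℕ}

namespace Bs46

theorem lpin (R : Reg46 E w c₀ Θ δ a ε N) (h : Bs46 E δ c N b s r) : c + Real.logb N (E r) ≤ 2 * Real.logb N (E b) := by
  have hN := R.N0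
  have h1 := R.Epos r
  have h2 := to_lg46 R.N1 (by positivity) h.pin
  rw [Real.logb_mul (by positivity) (by positivity), lgN46 R.N1, Real.logb_pow] at h2
  push_cast at h2
  linarith

theorem lup (R : Reg46 E w c₀ Θ δ a ε N) (h : Bs46 E δ c N b s r) :
    2 * Real.logb N (E b) ≤ 9 / 8 * c + Real.logb N (E r) := by
  have hN := R.N0
  have h0 := R.Epos b
  have h1 := R.Epos r
  have h2 := to_lg46 R.N1 (by positivity) h.up
  rw [Real.logb_mul (by positivity) (by positivity), lgN46 R.N1, Real.logb_pow] at h2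
  push_cast at h2
  linarith

/-- `E_s ≥ N ^ (-3 c / 4) E_b ^ (3 / 2)`. -/
theorem ls1 (R : Reg46 E w c₀ Θ δ a ε N) (h : Bs46 E δ c N b s r) :
    3 / 2 * Real.logb N (E b) - 3 / 4 * c ≤ Real.logb N (E s) := by
  have hN := R.N0
  have h1 := R.Epos b
  have h1' := R.Epos s
  have h2 := to_lg46 R.N1 (by positivity) h.s1
  rw [Real.logb_mul (by positivity) (by positivity), lgN46 R.N1, Real.logb_pow, Real.logb_pow] at h2
  push_cast at h2
  linarith

/-- `E_s ≤ 2 N ^ (-3 c / 4) E_b ^ (3 / 2)`. -/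
theorem ls2 (R : Reg46 E w c₀ Θ δ a ε N) (h : Bs46 E δ c N b s r) :
    Real.logb N (E s) ≤ 3 / 2 * Real.logb N (E b) - 3 / 4 * c + ε / 4 := by
  have hN := R.N0
  have h1 := R.Epos b
  have h1' := R.Epos s
  have h2 := to_lg46 R.N1 (by positivity) h.s2
  rw [Real.logb_mul (by positivity) (by positivity), lgN46 R.N1, Real.logb_mul (by positivity) (by positivity), Real.logb_pow,
    Real.logb_pow] at h2
  push_cast at h2
  linarith [R.l16]

/-- `E_s ≥ E_r ^ (3 / 4)`. -/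
theorem ls3 (R : Reg46 E w c₀ Θ δ a ε N) (h : Bs46 E δ c N b s r) : 3 / 4 * Real.logb N (E r) ≤ Real.logb N (E s) := by
  linarith [h.ls1 R, h.lpin R]

/-- `E_s ≤ N ^ (3 c / 32 + ε / 4) E_r ^ (3 / 4)`. -/
theorem ls4 (R : Reg46 E w c₀ Θ δ a ε N) (h : Bs46 E δ c N b s r) :
    Real.logb N (E s) ≤ 3 / 4 * Real.logb N (E r) + 3 / 32 * c + ε / 4 := by
  linarith [h.ls2 R, h.lup R]

/-- `b / s ≤ N ^ (2 ε + 3 c / 2) / E_b`, in logarithms. -/
theorem lbs (R : Reg46 E w c₀ Θ δ a ε N) (h : Bs46 E δ c N b s r) :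
    Real.logb N b - Real.logb N s ≤ 2 * ε + 3 / 2 * c - Real.logb N (E b) := by
  have h1 := R.lhalf (h.hb.npos R.N1) h.bs
  linarith [h.ls1 R]

/-- `E_b ≥ N ^ (8 c)`, `E_r ≥ N ^ (16 c)`. -/
theorem l8 (R : Reg46 E w c₀ Θ δ a ε N) (h : Bs46 E δ c N b s r) : 16 * c ≤ Real.logb N (E b) ∧ 16 * c ≤ Real.logb N (E r) :=
  ⟨by linarith [R.lq' h.hb, h.cδ], by linarith [R.lq' h.hr, h.cδ]⟩

/-- `s ≤ N ^ (-2 c) r` (in logarithms): the corrected scale is well below the blocks. -/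
theorem lsr (R : Reg46 E w c₀ Θ δ a ε N) (h : Bs46 E δ c N b s r) (hε : ε ≤ c / 4) :
    Real.logb N s + 7 * c ≤ Real.logb N r := by
  have h1 := R.lhalf (h.hs.npos R.N1) h.sr
  linarith [h.ls4 R, (h.l8 R).2, h.c0]

end Bs46

namespace Ch46

theorem ltie (R : Reg46 E w c₀ Θ δ a ε N) (H : Ch46 E δ c Θ N b s b' s' ρ) :
    c + Real.logb N b' ≤ Θ + Real.logb N (E b') + Real.logb N (E ρ) := by
  have hN := R.N0
  have h0 := R.Epos b'
  have h1 := R.Epos ρ
  have hb := H.h'.hb.pos R.N1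
  have h2 := to_lg46 R.N1 (by positivity) H.tie
  rw [Real.logb_mul (by positivity) (by positivity), lgN46 R.N1, Real.logb_mul (by positivity) (by positivity), lgN46 R.N1,
    Real.logb_mul (by positivity) (by positivity)] at h2
  linarith

theorem lbb (R : Reg46 E w c₀ Θ δ a ε N) (H : Ch46 E δ c Θ N b s b' s' ρ) : Real.logb N (E b) ≤ Real.logb N (E b') :=
  R.lmono H.bb

end Ch46

end base

end logs

end Pool.Agent.W_7d29a1_C0
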