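import Pool.Agent.W_7d29a1_C0.Cum52D
import Pool.Agent.W_7d29a1_HZ.ZE_Off
import Pool.Agent.W_7d29a1_HS.Mom

/-!
C0, helper86: THE NUMERATOR (force window). The quenched variance of the free end point, integrated over the forces `|r| ≤ g`,
`g = κ EE n / wd n`, is at most `K wd n` in the mean; so it is at most `K wd n ^ 2 / EE n` at some force of the window.
-/

set_option autoImplicit false

namespace Pool.Agent.W_7d29a1_C0.N86

open MeasureTheory ProbabilityTheory Filter Topology Finset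
open Pool.Agent.W_7d29a1_F Pool.Agent.W_7d29a1_h4g Pool.Agent.W_7d29a1_H Pool.Agent.W_7d29a1_HZ
open Pool.Agent.W_7d29a1_HS (In wd mean_V)
open Pool.Agent.W_7d29a1_HZ.Z59 (Zt Zt_pos Zt_nonneg Zt_dom tv_mom)

noncomputable section

variable {μ : Measure ℝ} {s : ℝ}

/-- The displacement of the end point from the line of slope `sl`. -/
def Yd (μ : Measure ℝ) (s : ℝ) (n : ℕ) (y : ℤ) : ℝ := (y : ℝ) - sl μ s * n

/-- The log weights of the end points at the additional force `r`. -/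
def Gf (μ : Measure ℝ) (s : ℝ) (n : ℕ) (η : Env) (r : ℝ) (y : ℤ) : ℝ := Real.log (W μ s η 0 n y) + r * Yd μ s n y

/-- The free energy at the additional force `r` (free end, normalised at `r = 0`). -/
def Ff (μ : Measure ℝ) (s : ℝ) (n : ℕ) (η : Env) (r : ℝ) : ℝ := Real.log (∑ y ∈ Icc (0 : ℤ) n, ew (Gf μ s n η r) y)

/-- The quenched mean of the end point displacement at the additional force `r`. -/
def Af (μ : Measure ℝ) (s : ℝ) (n : ℕ) (η : Env) (r : ℝ) : ℝ := gav (Icc (0 : ℤ) n) (ew (Gf μ s n η r)) (Yd μ s n)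

/-- The quenched variance of the end point at the additional force `r`. -/
def Vf (μ : Measure ℝ) (s : ℝ) (n : ℕ) (η : Env) (r : ℝ) : ℝ :=
  gcov (Icc (0 : ℤ) n) (ew (Gf μ s n η r)) (Yd μ s n) (Yd μ s n)

theorem icc_ne (n : ℕ) : (Icc (0 : ℤ) n).Nonempty := ⟨0, by simp⟩

theorem ew_Gf {n : ℕ} (η : Env) (r : ℝ) {y : ℤ} (h0 : 0 ≤ y) (h1 : y ≤ n) :
    ew (Gf μ s n η r) y = W μ s η 0 n y * Real.exp (r * Yd μ s n y) := by
  unfold ew Gf
  rw [Real.exp_add, Real.exp_log (W_pos η 0 h0 h1)]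

theorem Ff_zero (n : ℕ) (η : Env) : Ff μ s n η 0 = V μ s η 0 n := by
  unfold Ff V WS
  congr 1
  refine Finset.sum_congr rfl fun y hy => ?_
  rw [ew_Gf η 0 (mem_Icc.1 hy).1 (mem_Icc.1 hy).2, zero_mul, Real.exp_zero, mul_one]

theorem exp_Ff (n : ℕ) (η : Env) (r : ℝ) : Real.exp (Ff μ s n η r) = ∑ y ∈ Icc (0 : ℤ) n, W μ s η 0 n y * Real.exp (r * Yd μ s n y) := by
  unfold Ff
  rw [Real.exp_log (sum_ew_pos (icc_ne n) _)]
  exact Finset.sum_congr rfl fun y hy => ew_Gf η r (mem_Icc.1 hy).1 (mem_Icc.1 hy).2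

/-- The tangent of the free energy. -/
theorem Ff_tan (n : ℕ) (η : Env) (r r' : ℝ) : Ff μ s n η r + (r' - r) * Af μ s n η r ≤ Ff μ s n η r' := by
  have hZ := sum_ew_pos (icc_ne n) (Gf μ s n η r)
  have hZ' := sum_ew_pos (icc_ne n) (Gf μ s n η r')
  set Z := ∑ y ∈ Icc (0 : ℤ) n, ew (Gf μ s n η r) y with hZd
  set m := Af μ s n η r with hm
  have e1 : m * Z = ∑ y ∈ Icc (0 : ℤ) n, ew (Gf μ s n η r) y * Yd μ s n y := by
    rw [hm]
    unfold Af gav
    rw [← hZd, div_mul_cancel₀ _ hZ.ne']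
  have h1 : Real.exp ((r' - r) * m) * Z ≤ ∑ y ∈ Icc (0 : ℤ) n, ew (Gf μ s n η r') y := by
    have h2 : ∀ y ∈ Icc (0 : ℤ) n, Real.exp ((r' - r) * m) * (ew (Gf μ s n η r) y * (1 + (r' - r) * (Yd μ s n y - m))) ≤
        ew (Gf μ s n η r') y := by
      intro y _
      have h3 : 1 + (r' - r) * (Yd μ s n y - m) ≤ Real.exp ((r' - r) * (Yd μ s n y - m)) := by
        have := Real.add_one_le_exp ((r' - r) * (Yd μ s n y - m))
        linarith
      have h4 : ew (Gf μ s n η r') y = Real.exp ((r' - r) * m) * (ew (Gf μ s n η r) y * Real.exp ((r' - r) * (Yd μ s n y - m))) := by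
        unfold ew Gf
        rw [← Real.exp_add, ← Real.exp_add]
        congr 1
        ring
      rw [h4]
      exact mul_le_mul_of_nonneg_left (mul_le_mul_of_nonneg_left h3 (ew_pos _ _).le) (Real.exp_pos _).le
    refine le_trans (le_of_eq ?_) (Finset.sum_le_sum h2)
    rw [← Finset.mul_sum]
    congr 1
    have e2 : ∑ y ∈ Icc (0 : ℤ) n, ew (Gf μ s n η r) y * (1 + (r' - r) * (Yd μ s n y - m)) =
        Z + (r' - r) * (∑ y ∈ Icc (0 : ℤ) n, ew (Gf μ s n η r) y * Yd μ s n y) - (r' - r) * m * Z := by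
      rw [hZd, Finset.mul_sum, Finset.mul_sum, ← Finset.sum_add_distrib, ← Finset.sum_sub_distrib]
      exact Finset.sum_congr rfl fun y _ => by ring
    rw [e2, ← e1]
    ring
  have h5 := Real.log_le_log (by positivity) h1
  rw [Real.log_mul (Real.exp_pos _).ne' hZ.ne', Real.log_exp] at h5
  unfold Ff
  rw [← hZd]
  linarith

variable [IsProbabilityMeasure μ] {c C : ℝ} {n₀ : ℕ}

theorem abs_Yd (h : In μ s c C n₀) {n : ℕ} {y : ℤ} (h0 : 0 ≤ y) (h1 : y ≤ n) : |Yd μ s n y| ≤ n := by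
  unfold Yd
  have a0 := h.sl_pos
  have a1 := h.sl_lt
  have b0 : (0 : ℝ) ≤ y := by exact_mod_cast h0
  have b1 : (y : ℝ) ≤ n := by exact_mod_cast h1
  have n0 : (0 : ℝ) ≤ n := Nat.cast_nonneg n
  rw [abs_le]
  constructor <;> nlinarith

theorem abs_Af (h : In μ s c C n₀) (n : ℕ) (η : Env) (r : ℝ) : |Af μ s n η r| ≤ n :=
  abs_gav_le (ew_nonneg _ _) (sum_ew_pos (icc_ne n) _) fun y hy => abs_Yd h (mem_Icc.1 hy).1 (mem_Icc.1 hy).2

theorem abs_Ff (h : In μ s c C n₀) (n : ℕ) (η : Env) (r : ℝ) : |Ff μ s n η r| ≤ |V μ s η 0 n| + |r| * n := by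
  have h1 := Ff_tan (μ := μ) (s := s) n η 0 r
  have h2 := Ff_tan (μ := μ) (s := s) n η r 0
  rw [Ff_zero] at h1 h2
  have h3 : |(r - 0) * Af μ s n η 0| ≤ |r| * n := by
    rw [abs_mul, sub_zero]
    exact mul_le_mul_of_nonneg_left (abs_Af h n η 0) (abs_nonneg _)
  have h4 : |(0 - r) * Af μ s n η r| ≤ |r| * n := by
    rw [abs_mul, zero_sub, abs_neg]
    exact mul_le_mul_of_nonneg_left (abs_Af h n η r) (abs_nonneg _)
  have h5 := neg_abs_le (V μ s η 0 n)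
  have h6 := le_abs_self (V μ s η 0 n)
  rw [abs_le] at h3 h4 ⊢
  constructor <;> linarith

theorem meas_ew (n : ℕ) (r : ℝ) (y : ℤ) : Measurable fun η : Env => ew (Gf μ s n η r) y := by
  unfold ew Gf
  exact (((measurable_W (μ := μ) (s := s) 0 n y).log).add_const _).exp

theorem meas_Ff (n : ℕ) (r : ℝ) : Measurable fun η : Env => Ff μ s n η r := by
  unfold Ff
  exact (Finset.measurable_sum _ fun y _ => meas_ew n r y).log

theorem meas_gav (n : ℕ) (r : ℝ) (f : ℤ → ℝ) : Measurable fun η : Env => gav (Icc (0 : ℤ) n) (ew (Gf μ s n η r)) f := by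
  unfold gav
  exact (Finset.measurable_sum _ fun y _ => (meas_ew n r y).mul_const _).div (Finset.measurable_sum _ fun y _ => meas_ew n r y)

theorem meas_Vf (n : ℕ) (r : ℝ) : Measurable fun η : Env => Vf μ s n η r := by
  unfold Vf gcov
  exact (meas_gav n r _).sub ((meas_gav n r _).mul (meas_gav n r _))

theorem int_Ff (h : In μ s c C n₀) (n : ℕ) (r : ℝ) : Integrable (fun η => Ff μ s n η r) (law μ) := by
  refine ((V_int h.em s 0 n).abs.add (integrable_const (|r| * n))).mono' (meas_Ff n r).aestronglyMeasurable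
    (Eventually.of_forall fun η => ?_)
  exact abs_Ff h n η r

theorem int_Af (h : In μ s c C n₀) (n : ℕ) (r : ℝ) : Integrable (fun η => Af μ s n η r) (law μ) :=
  (integrable_const (n : ℝ)).mono' (meas_gav n r _).aestronglyMeasurable (Eventually.of_forall fun η => abs_Af h n η r)

/-- **The free energy in the force window.** -/
theorem mean_Ff (h : In μ s c C n₀) : ∃ K κ : ℝ, 1 ≤ K ∧ 0 < κ ∧ ∃ n₁ : ℕ, 1 ≤ n₁ ∧ ∀ n, n₁ ≤ n → 4 ≤ wd μ s n ∧ ∀ r : ℝ,
    |r| ≤ κ * EE μ s n / wd μ s n → ∫ η, Ff μ s n η r ∂(law μ) ≤ K * EE μ s n := by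
  obtain ⟨K, κ, hK, hκ, n₁, hn₁, hM⟩ := tv_mom h
  refine ⟨K * C, κ, ?_, hκ, n₁, hn₁, fun n hn => ?_⟩
  · have := h.C1
    nlinarith
  obtain ⟨hw4, hM'⟩ := hM n hn
  refine ⟨hw4, fun r hr => ?_⟩
  have hC1 := h.C1
  have hE1 : 1 ≤ EE μ s n := one_le_EE n
  obtain ⟨g, hg⟩ : ∃ g : ℝ, g = κ * EE μ s n / wd μ s n := ⟨_, rfl⟩
  have hm := hM' 1 0
  rw [← hg] at hm hr
  rw [pow_one] at hm
  obtain ⟨θ, hθ⟩ : ∃ θ : ℝ, θ = 1 / (C * EE μ s n) := ⟨_, rfl⟩
  have hθ0 : 0 < θ := by rw [hθ]; positivity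
  rw [← hθ] at hm
  have hint : Integrable (fun η => Real.exp (θ * Real.log (Zt μ s g n 1 η 0))) (law μ) := by
    have h2 := (Zt_dom (μ := μ) (s := s) (h := g) (r := n) 1 0).rpow_int h.em hθ0.le
    refine h2.congr (Eventually.of_forall fun η => ?_)
    show Zt μ s g n 1 η 0 ^ θ = Real.exp (θ * Real.log (Zt μ s g n 1 η 0))
    rw [Real.rpow_def_of_pos (Zt_pos 1 η 0), mul_comm]
  have h1 : ∀ η, θ * Ff μ s n η r ≤ Real.exp (θ * Real.log (Zt μ s g n 1 η 0)) := by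
    intro η
    have h2 : Ff μ s n η r ≤ Real.log (Zt μ s g n 1 η 0) := by
      rw [← Real.log_exp (Ff μ s n η r), exp_Ff]
      refine Real.log_le_log ?_ ?_
      · rw [← exp_Ff]
        exact Real.exp_pos _
      · have h3 : Zt μ s g n 1 η 0 = ∑ y ∈ Icc (0 : ℤ) n, W μ s η 0 n y * (Real.exp (g * |(y : ℝ) - sl μ s * n|) * 1) := rfl
        rw [h3]
        refine Finset.sum_le_sum fun y hy => mul_le_mul_of_nonneg_left ?_ (W_nonneg _ _ _ _)
        rw [mul_one]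
        refine Real.exp_le_exp.2 ?_
        calc r * Yd μ s n y ≤ |r * Yd μ s n y| := le_abs_self _
          _ = |r| * |Yd μ s n y| := abs_mul _ _
          _ ≤ g * |Yd μ s n y| := mul_le_mul_of_nonneg_right hr (abs_nonneg _)
    have h4 := mul_le_mul_of_nonneg_left h2 hθ0.le
    have h5 := Real.add_one_le_exp (θ * Real.log (Zt μ s g n 1 η 0))
    linarith
  have h6 : θ * ∫ η, Ff μ s n η r ∂(law μ) ≤ K := by
    rw [← integral_const_mul]
    exact (integral_mono ((int_Ff h n r).const_mul θ) hint h1).trans hm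
  have h7 : ∫ η, Ff μ s n η r ∂(law μ) = (C * EE μ s n) * (θ * ∫ η, Ff μ s n η r ∂(law μ)) := by
    rw [hθ]
    field_simp
  rw [h7]
  calc (C * EE μ s n) * (θ * ∫ η, Ff μ s n η r ∂(law μ)) ≤ (C * EE μ s n) * K := mul_le_mul_of_nonneg_left h6 (by positivity)
    _ = K * C * EE μ s n := by ring

/-! ### The derivatives -/

omit [IsProbabilityMeasure μ] in
theorem hasD_Gf (n : ℕ) (η : Env) (t : ℝ) : ∀ y ∈ Icc (0 : ℤ) n, HasDerivAt (fun u => Gf μ s n η u y) (Yd μ s n y) t := by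
  intro y _
  unfold Gf
  have h1 : HasDerivAt (fun u : ℝ => u * Yd μ s n y) (1 * Yd μ s n y) t := (hasDerivAt_id t).mul_const _
  rw [one_mul] at h1
  exact h1.const_add _

omit [IsProbabilityMeasure μ] in
theorem hasD_Af (n : ℕ) (η : Env) (t : ℝ) : HasDerivAt (fun u => Af μ s n η u) (Vf μ s n η t) t := by
  have h1 := hasDerivAt_gav (icc_ne n) (hasD_Gf (μ := μ) (s := s) n η t) (f := fun _ => Yd μ s n) (f' := fun _ => 0)
    fun y _ => hasDerivAt_const t (Yd μ s n y)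
  rw [gav_const (sum_ew_pos (icc_ne n) _), zero_add] at h1
  exact h1

omit [IsProbabilityMeasure μ] in
theorem cont_Vf (n : ℕ) (η : Env) : Continuous fun u => Vf μ s n η u := by
  refine continuous_iff_continuousAt.2 fun t => ?_
  exact (hasDerivAt_gcov (icc_ne n) (hasD_Gf (μ := μ) (s := s) n η t) (f := fun _ => Yd μ s n) (f' := fun _ => 0)
    (g := fun _ => Yd μ s n) (g' := fun _ => 0) (fun y _ => hasDerivAt_const t (Yd μ s n y))
    (fun y _ => hasDerivAt_const t (Yd μ s n y))).continuousAt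

omit [IsProbabilityMeasure μ] in
theorem Vf_nonneg (n : ℕ) (η : Env) (r : ℝ) : 0 ≤ Vf μ s n η r :=
  gcov_self_nonneg (ew_nonneg _ _) (sum_ew_pos (icc_ne n) _) _

theorem Vf_le (h : In μ s c C n₀) (n : ℕ) (η : Env) (r : ℝ) : Vf μ s n η r ≤ (n : ℝ) ^ 2 :=
  gcov_self_le_sq (ew_nonneg _ _) (sum_ew_pos (icc_ne n) _) fun y hy => abs_Yd h (mem_Icc.1 hy).1 (mem_Icc.1 hy).2

omit [IsProbabilityMeasure μ] in
theorem int_Vf (n : ℕ) (η : Env) (a b : ℝ) : ∫ r in a..b, Vf μ s n η r = Af μ s n η b - Af μ s n η a :=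
  intervalIntegral.integral_eq_sub_of_hasDerivAt (fun t _ => hasD_Af n η t) ((cont_Vf n η).intervalIntegrable a b)

/-- **THE NUMERATOR, mean displacement form.** -/
theorem mean_Af (h : In μ s c C n₀) : ∃ K κ : ℝ, 1 ≤ K ∧ 0 < κ ∧ ∃ n₁ : ℕ, 1 ≤ n₁ ∧ ∀ n, n₁ ≤ n → 4 ≤ wd μ s n ∧
    ∫ η, (Af μ s n η (κ * EE μ s n / wd μ s n) - Af μ s n η (-(κ * EE μ s n / wd μ s n))) ∂(law μ) ≤ K * wd μ s n := by
  obtain ⟨K, κ, hK, hκ, n₁, hn₁, hM⟩ := mean_Ff h
  refine ⟨(2 * K + 2) * (2 / κ) + 1, κ / 2, ?_, by positivity, n₁, hn₁, fun n hn => ?_⟩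
  · have : 0 ≤ (2 * K + 2) * (2 / κ) := by positivity
    linarith
  obtain ⟨hw4, hM'⟩ := hM n hn
  refine ⟨hw4, ?_⟩
  have hE1 : 1 ≤ EE μ s n := one_le_EE n
  have hw0 : 0 < wd μ s n := by linarith
  obtain ⟨g, hg⟩ : ∃ g : ℝ, g = κ / 2 * EE μ s n / wd μ s n := ⟨_, rfl⟩
  have hg0 : 0 < g := by rw [hg]; positivity
  have hg2 : 2 * g = κ * EE μ s n / wd μ s n := by rw [hg]; ring
  rw [← hg]
  have h1 := hM' (2 * g) (by rw [abs_of_pos (by positivity), hg2])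
  have h2 := hM' (-(2 * g)) (by rw [abs_neg, abs_of_pos (by positivity), hg2])
  have h3 := (mean_V h n).1
  have h4 : ∀ η, g * (Af μ s n η g - Af μ s n η (-g)) ≤ Ff μ s n η (2 * g) + Ff μ s n η (-(2 * g)) - 2 * V μ s η 0 n := by
    intro η
    have a1 := Ff_tan (μ := μ) (s := s) n η g (2 * g)
    have a2 := Ff_tan (μ := μ) (s := s) n η (-g) (-(2 * g))
    have a3 := Ff_tan (μ := μ) (s := s) n η 0 g
    have a4 := Ff_tan (μ := μ) (s := s) n η 0 (-g)
    rw [Ff_zero] at a3 a4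
    linarith
  have h5 : g * ∫ η, (Af μ s n η g - Af μ s n η (-g)) ∂(law μ) ≤ (2 * K + 2) * EE μ s n := by
    rw [← integral_const_mul]
    refine (integral_mono (((int_Af h n g).sub (int_Af h n (-g))).const_mul g)
      (((int_Ff h n (2 * g)).add (int_Ff h n (-(2 * g)))).sub ((V_int h.em s 0 n).const_mul 2)) h4).trans ?_
    have e0 := integral_add (int_Ff h n (2 * g)) (int_Ff h n (-(2 * g)))
    have e2 := integral_sub ((int_Ff h n (2 * g)).add (int_Ff h n (-(2 * g)))) ((V_int h.em s 0 n).const_mul 2)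
    have e3 : ∫ η, 2 * V μ s η 0 n ∂(law μ) = 2 * ∫ η, V μ s η 0 n ∂(law μ) := integral_const_mul _ _
    have e4 : ∫ η, ((fun η => Ff μ s n η (2 * g)) + fun η => Ff μ s n η (-(2 * g))) η ∂(law μ) =
      ∫ η, (Ff μ s n η (2 * g) + Ff μ s n η (-(2 * g))) ∂(law μ) := rfl
    have e1 : ∫ η, (Ff μ s n η (2 * g) + Ff μ s n η (-(2 * g)) - 2 * V μ s η 0 n) ∂(law μ) =
        ∫ η, Ff μ s n η (2 * g) ∂(law μ) + ∫ η, Ff μ s n η (-(2 * g)) ∂(law μ) - 2 * ∫ η, V μ s η 0 n ∂(law μ) := by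
      rw [← e0, ← e3, ← e4]
      exact e2
    refine (le_of_eq e1).trans ?_
    linarith
  have h6 : ∫ η, (Af μ s n η g - Af μ s n η (-g)) ∂(law μ) ≤ (2 * K + 2) * EE μ s n / g := by
    rw [le_div_iff₀ hg0]
    linarith
  refine h6.trans ?_
  have h7 : (2 * K + 2) * EE μ s n / g = (2 * K + 2) * (2 / κ) * wd μ s n := by
    rw [hg]
    field_simp
  rw [h7]
  nlinarith

/-- **THE NUMERATOR, variance form**: the force integral of the mean quenched variance of the end point. -/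
theorem mean_Vf (h : In μ s c C n₀) : ∃ K κ : ℝ, 1 ≤ K ∧ 0 < κ ∧ ∃ n₁ : ℕ, 1 ≤ n₁ ∧ ∀ n, n₁ ≤ n → 4 ≤ wd μ s n ∧
    ∫ r in (-(κ * EE μ s n / wd μ s n))..(κ * EE μ s n / wd μ s n), ∫ η, Vf μ s n η r ∂(law μ) ≤ K * wd μ s n := by
  obtain ⟨K, κ, hK, hκ, n₁, hn₁, hM⟩ := mean_Af h
  refine ⟨K, κ, hK, hκ, n₁, hn₁, fun n hn => ?_⟩
  obtain ⟨hw4, hM'⟩ := hM n hn
  refine ⟨hw4, ?_⟩
  refine le_trans (le_of_eq ?_) hM'
  rw [intervalIntegral_integral_swap]
  · exact integral_congr_ae (Eventually.of_forall fun η => int_Vf n η _ _)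
  · have hm : Measurable (Function.uncurry fun (r : ℝ) (η : Env) => Vf μ s n η r) :=
      measurable_uncurry_of_continuous_of_measurable (fun η => cont_Vf n η) fun r => meas_Vf n r
    have hfin0 : IsFiniteMeasure (volume.restrict (Set.uIoc (-(κ * EE μ s n / wd μ s n)) (κ * EE μ s n / wd μ s n))) :=
      isFiniteMeasure_restrict.2 (measure_Ioc_lt_top).ne
    refine (integrable_const ((n : ℝ) ^ 2)).mono' hm.aestronglyMeasurable (Eventually.of_forall fun p => ?_)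
    have e9 : Function.uncurry (fun (r : ℝ) (η : Env) => Vf μ s n η r) p = Vf μ s n p.2 p.1 := rfl
    rw [e9, Real.norm_eq_abs, abs_of_nonneg (Vf_nonneg n p.2 p.1)]
    exact Vf_le h n p.2 p.1

/-- **THE NUMERATOR at one force of the window.** -/
theorem exists_force (h : In μ s c C n₀) : ∃ K κ : ℝ, 1 ≤ K ∧ 0 < κ ∧ ∃ n₁ : ℕ, 1 ≤ n₁ ∧ ∀ n, n₁ ≤ n → 4 ≤ wd μ s n ∧
    ∀ v : ℝ, (∀ r : ℝ, |r| ≤ κ * EE μ s n / wd μ s n → v ≤ ∫ η, Vf μ s n η r ∂(law μ)) → v ≤ K * (wd μ s n ^ 2 / EE μ s n) := by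
  obtain ⟨K, κ, hK, hκ, n₁, hn₁, hM⟩ := mean_Vf h
  refine ⟨K * (1 / (2 * κ)) + 1, κ, ?_, hκ, n₁, hn₁, fun n hn => ?_⟩
  · have : 0 ≤ K * (1 / (2 * κ)) := by positivity
    linarith
  obtain ⟨hw4, hM'⟩ := hM n hn
  refine ⟨hw4, fun v hv => ?_⟩
  have hE1 : 1 ≤ EE μ s n := one_le_EE n
  have hw0 : 0 < wd μ s n := by linarith
  obtain ⟨g, hg⟩ : ∃ g : ℝ, g = κ * EE μ s n / wd μ s n := ⟨_, rfl⟩
  have hg0 : 0 < g := by rw [hg]; positivity
  rw [← hg] at hM' hv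
  have hcont : IntervalIntegrable (fun r => ∫ η, Vf μ s n η r ∂(law μ)) volume (-g) g := by
    refine Continuous.intervalIntegrable ?_ _ _
    refine continuous_of_dominated (bound := fun _ => (n : ℝ) ^ 2) (fun r => (meas_Vf n r).aestronglyMeasurable)
      (fun r => Eventually.of_forall fun η => ?_) (integrable_const _) (Eventually.of_forall fun η => cont_Vf n η)
    rw [Real.norm_eq_abs, abs_of_nonneg (Vf_nonneg n η r)]
    exact Vf_le h n η r
  have h1 : ∫ _r in (-g)..g, v ≤ ∫ r in (-g)..g, ∫ η, Vf μ s n η r ∂(law μ) := by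
    refine intervalIntegral.integral_mono_on (by linarith) intervalIntegrable_const hcont fun r hr => ?_
    exact hv r (abs_le.2 ⟨hr.1, hr.2⟩)
  rw [intervalIntegral.integral_const, smul_eq_mul] at h1
  have h2 : 2 * g * v ≤ K * wd μ s n := by linarith
  have h3 : v ≤ K * wd μ s n / (2 * g) := by
    rw [le_div_iff₀ (by positivity)]
    linarith
  refine h3.trans ?_
  have h4 : K * wd μ s n / (2 * g) = K * (1 / (2 * κ)) * (wd μ s n ^ 2 / EE μ s n) := by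
    rw [hg]
    field_simp
  rw [h4]
  have h5 : 0 ≤ wd μ s n ^ 2 / EE μ s n := by positivity
  nlinarith

end

end Pool.Agent.W_7d29a1_C0.N86
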