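import Pool.Agent.W_7d29a1_C0.OneF27
import Pool.Agent.W_7d29a1_C0.Num46P
import Pool.Agent.W_7d29a1_C0.Frm33B
import Pool.Agent.W_7d29a1_C0.Reg33
import Pool.Agent.W_7d29a1_C0.GSN73

/-!
MP_7d29a1_pr, [CURV0], GS IN ONE KICK (helper32): THE NUMBERS OF THE KICK. Slab of `b = 2 ^ p` rows, boxes of size `R ≤ N ^ κ w_b`.
`knum`: at fixed numbers, with `a = L / t`, `t ^ 2 = E_b / (14 N ^ κ B ^ 2)`: the field is small, the tail is `4 exp (26 C - L)`, the factor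
`((exp a - 1) (B / 2) ^ 2) ^ 2` is at most `4 L ^ 2 N ^ κ B ^ 6 / E_b`. `knumE`: at the concrete frame, for all the bases, with losses `N ^ (k ι)`.
-/

set_option autoImplicit false

namespace Pool.Agent.W_7d29a1_C0.NumR32

open Finset MeasureTheory Filter Topology
open Pool.Agent.W_7d29a1_H (EE EE_pos one_le_EE EE_mono)
open Pool.Agent.W_7d29a1_HS (In wd)
open Pool.Agent.W_7d29a1_C0 Pool.Agent.W_7d29a1_C0.Frm33
open Pool.Agent.W_7d29a1_C0.Par92 (Sml Est)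
open Pool.W7d29a1.C0.K27 (tlK)

noncomputable section

/-! ### Fixed numbers -/

/-- The inequalities of the kick: field, tail `T`, factor `F`. -/
structure KNum (C θ B b R a t T F : ℝ) : Prop where
  a0 : 0 < a
  a1 : a ≤ 1 / 2
  t1 : 1 ≤ t
  th : (2 * t + 3) * (B / b) ≤ θ
  K2 : ((Real.exp a - 1) * (B / 2) ^ 2) ^ 2 ≤ F
  tl : tlK C t a (14 * R * B ^ 2 / b) ≤ T

theorem exp_sub_le {a : ℝ} (h0 : 0 ≤ a) (h1 : a ≤ 1) : Real.exp a - 1 ≤ 2 * a := by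
  have h2 := Real.abs_exp_sub_one_sub_id_le (x := a) (by rwa [abs_of_nonneg h0])
  have h3 := (abs_le.1 h2).2
  nlinarith

theorem tlK_mono {C t a BB BB' : ℝ} (hC : 0 ≤ C) (h : BB ≤ BB') : tlK C t a BB ≤ tlK C t a BB' := by
  unfold Pool.W7d29a1.C0.K27.tlK
  refine mul_le_mul_of_nonneg_left (Real.exp_le_exp.2 ?_) (by positivity)
  exact mul_le_mul_of_nonneg_left h (by positivity)

/-- **The numbers of the kick**, `X = 14 N ^ κ B ^ 2`. -/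
theorem knum {C θ B b R Eb X L : ℝ} (hC : 0 ≤ C) (hB : 1 ≤ B) (hE : 1 ≤ Eb) (hb : Eb ^ 3 ≤ b) (hX1 : 1 ≤ X)
    (hR : 14 * R * B ^ 2 ≤ X * Eb ^ 2) (hL : 1 ≤ L) (hX : 4 * (L ^ 2 * X) ≤ Eb) (hθ : 5 * B ≤ θ * Eb ^ 2) :
    ∃ a t : ℝ, KNum C θ B b R a t (4 * Real.exp (26 * C - L)) (L ^ 2 * X * B ^ 4 / (4 * Eb)) := by
  have hE0 : 0 < Eb := by linarith
  have hX0 : 0 < X := by linarith
  have hb0 : 0 < b := lt_of_lt_of_le (by positivity) hb
  obtain ⟨t, ht⟩ : ∃ t, t = Real.sqrt (Eb / X) := ⟨_, rfl⟩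
  have ht0 : 0 ≤ t := ht ▸ Real.sqrt_nonneg _
  have ht2 : t ^ 2 = Eb / X := by
    rw [ht]
    exact Real.sq_sqrt (by positivity)
  have hLt : 2 * L ≤ t := by
    rw [ht]
    refine Real.le_sqrt_of_sq_le ?_
    rw [le_div_iff₀ hX0]
    linarith
  have ht1 : 1 ≤ t := by linarith
  have htE : t ≤ Eb := by
    have h1 : t ^ 2 ≤ Eb ^ 2 := by
      rw [ht2, div_le_iff₀ hX0]
      nlinarith
    exact le_of_pow_le_pow_left₀ two_ne_zero hE0.le h1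
  have hta : t * (L / t) = L := by
    field_simp
  have hBq : 14 * R * B ^ 2 / b ≤ X / Eb := by
    rw [div_le_div_iff₀ hb0 hE0]
    calc 14 * R * B ^ 2 * Eb ≤ X * Eb ^ 2 * Eb := mul_le_mul_of_nonneg_right hR hE0.le
      _ = X * Eb ^ 3 := by ring
      _ ≤ X * b := mul_le_mul_of_nonneg_left hb hX0.le
  have ha0 : 0 < L / t := by positivity
  have ha1 : L / t ≤ 1 / 2 := by
    rw [div_le_div_iff₀ (by linarith) (by norm_num)]
    linarith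
  have ha2 : (L / t) ^ 2 = L ^ 2 * X / Eb := by
    rw [div_pow, ht2]
    field_simp
  refine ⟨L / t, t, ?_⟩
  constructor
  · exact ha0
  · exact ha1
  · exact ht1
  · calc (2 * t + 3) * (B / b) ≤ (5 * Eb) * (B / Eb ^ 3) := by
          refine mul_le_mul (by linarith) ?_ (by positivity) (by positivity)
          exact div_le_div_of_nonneg_left (by linarith) (by positivity) hb
      _ = 5 * B / Eb ^ 2 := by
          field_simp
      _ ≤ θ := by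
          rw [div_le_iff₀ (by positivity)]
          exact hθ
  · have h1 := exp_sub_le ha0.le (ha1.trans (by norm_num))
    have h2 : 0 ≤ Real.exp (L / t) - 1 := by linarith [Real.add_one_le_exp (L / t)]
    calc ((Real.exp (L / t) - 1) * (B / 2) ^ 2) ^ 2 ≤ (2 * (L / t) * (B / 2) ^ 2) ^ 2 :=
          pow_le_pow_left₀ (by positivity) (mul_le_mul_of_nonneg_right h1 (by positivity)) 2
      _ = (L / t) ^ 2 * B ^ 4 / 4 := by ring
      _ = _ := by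
          rw [ha2]
          field_simp
  · have h1 : (2 * t + 3) ^ 2 + 1 ≤ 26 * t ^ 2 := by nlinarith
    have h2 : C * ((2 * t + 3) ^ 2 + 1) * (14 * R * B ^ 2 / b) ≤ 26 * C := by
      calc C * ((2 * t + 3) ^ 2 + 1) * (14 * R * B ^ 2 / b) ≤ C * ((2 * t + 3) ^ 2 + 1) * (X / Eb) :=
            mul_le_mul_of_nonneg_left hBq (by positivity)
        _ ≤ C * (26 * t ^ 2) * (X / Eb) :=
            mul_le_mul_of_nonneg_right (mul_le_mul_of_nonneg_left h1 hC) (by positivity)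
        _ = 26 * C := by
            rw [ht2]
            field_simp
    unfold Pool.W7d29a1.C0.K27.tlK
    rw [hta, mul_assoc, ← Real.exp_add]
    exact mul_le_mul_of_nonneg_left (Real.exp_le_exp.2 (by linarith)) (by norm_num)

/-! ### The concrete frame -/

variable {μ : Measure ℝ} {s : ℝ}

/-- **The numbers of the kick at the concrete frame**: boxes of size `R ≤ N ^ (k ι) w_b`, all the bases `b = 2 ^ p ≥ N ^ δ`. -/
theorem knumE {c₀ Θ : ℝ} (hR : RegP46 μ s c₀ Θ) {δ : ℝ} (hδ : 0 < δ) {k : ℝ} (hk : 0 ≤ k) {C θ : ℝ} (hC : 0 ≤ C) (hθ : 0 < θ) :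
    Est fun ι β _ m => ∀ p : ℕ, δ * m ≤ p → p ≤ m → ∀ R : ℝ, R ≤ ((2 ^ m : ℕ) : ℝ) ^ (k * ι) * wd μ s (2 ^ p) →
      ∃ a t : ℝ, KNum C θ (B33 β m) ((2 ^ p : ℕ) : ℝ) R a t (Real.exp (-(((2 ^ m : ℕ) : ℝ) ^ ι / 2)))
        (((2 ^ m : ℕ) : ℝ) ^ ((k + 10) * ι) / EE μ s (2 ^ p)) := by
  obtain ⟨α, -, -, h1⟩ := hR.est hδ (k := 1) one_pos
  have h2 : Est fun ι β _ m => 0 < ι ∧ 0 < β ∧ β ≤ ι ∧ (k + 7) * ι ≤ δ / 4 ∧ 14 ≤ ((2 ^ m : ℕ) : ℝ) ^ ι ∧
      5 / θ ≤ ((2 ^ m : ℕ) : ℝ) ^ ι ∧ 2 * (26 * C + Real.log 4) ≤ ((2 ^ m : ℕ) : ℝ) ^ ι := by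
    refine ⟨δ / 4 / (k + 7), by positivity, fun ι hι hι' => ⟨ι, hι, fun β hβ hβι => Sml.of fun _ _ => ?_⟩⟩
    filter_upwards [ev_n hι 14, ev_n hι (5 / θ), ev_n hι (2 * (26 * C + Real.log 4))] with m g1 g2 g3
    refine ⟨hι, hβ, hβι, ?_, g1, g2, g3⟩
    rw [le_div_iff₀ (by positivity)] at hι'
    linarith
  refine (h1.and h2).mono fun ι β γ _ _ _ => Eventually.of_forall fun m h => ?_
  obtain ⟨⟨hreg, -⟩, hι, hβ, hβι, hks, h14, h5, hlog⟩ := h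
  intro p hp hpm R hRw
  obtain ⟨n, hn⟩ : ∃ n : ℝ, n = ((2 ^ m : ℕ) : ℝ) := ⟨_, rfl⟩
  have hn1 : 1 ≤ n := hn ▸ n_ge1 m
  have hn0 : 0 < n := by linarith
  have hB33 : B33 β m = n ^ β := by
    unfold B33
    rw [hn]
  rw [hB33]
  rw [← hn] at hreg h14 h5 hlog hRw ⊢
  obtain ⟨E, hE⟩ : ∃ E : ℝ, E = EE μ s (2 ^ p) := ⟨_, rfl⟩
  have hrg : Rg46 δ n (2 ^ p) := ⟨hn ▸ two_ge hp, by
    rw [hn]
    exact_mod_cast Nat.pow_le_pow_right two_pos hpm⟩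
  have hE1 : 1 ≤ E := hE ▸ hreg.E1 _
  have hE0 : 0 < E := by linarith
  have hw := hreg.wle (2 ^ p) hrg
  have hst := hreg.stiff (2 ^ p) hrg
  have hq := hreg.quart (2 ^ p) hrg
  rw [← hE] at hw hst hq ⊢
  rw [one_mul] at hw
  have hb1 : (1 : ℝ) ≤ ((2 ^ p : ℕ) : ℝ) := n_ge1 p
  have hb3 : E ^ 3 ≤ ((2 ^ p : ℕ) : ℝ) := by
    have h3 : (1 : ℝ) ≤ ((2 ^ p : ℕ) : ℝ) ^ (3 * c₀) := Real.one_le_rpow hb1 (by linarith [hreg.c₀0])
    have h4 : 0 ≤ E ^ 3 := by positivity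
    nlinarith
  have hEn : n ^ (δ / 4) ≤ E := by
    refine le_trans ?_ hq
    calc n ^ (δ / 4) = (n ^ δ) ^ (1 / 4 : ℝ) := by
          rw [← Real.rpow_mul hn0.le]
          congr 1
          ring
      _ ≤ _ := Real.rpow_le_rpow (Real.rpow_nonneg hn0.le _) hrg.lo (by norm_num)
  have hB1 : 1 ≤ n ^ β := Real.one_le_rpow hn1 hβ.le
  have hnι : 1 ≤ n ^ ι := Real.one_le_rpow hn1 hι.le
  have pw : ∀ x y : ℝ, x ≤ y → n ^ x ≤ n ^ y := fun x y h => Real.rpow_le_rpow_of_exponent_le hn1 h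
  have pa : ∀ x y : ℝ, n ^ x * n ^ y = n ^ (x + y) := fun x y => (Real.rpow_add hn0 x y).symm
  have pp : ∀ (x : ℝ) (j : ℕ), (n ^ x) ^ j = n ^ (j * x) := fun x j => by
    rw [← Real.rpow_natCast, ← Real.rpow_mul hn0.le]
    congr 1
    ring
  obtain ⟨X, hX⟩ : ∃ X : ℝ, X = n ^ ι * n ^ (k * ι + ι) * (n ^ β) ^ 2 := ⟨_, rfl⟩
  have hX' : X = n ^ ((k + 2) * ι + 2 * β) := by
    rw [hX, pp, pa, pa]
    congr 1
    push_cast
    ring
  have hX1 : 1 ≤ X := by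
    rw [hX']
    exact Real.one_le_rpow hn1 (by nlinarith)
  have hRR : 14 * R * (n ^ β) ^ 2 ≤ X * E ^ 2 := by
    have h3 : R ≤ n ^ (k * ι + ι) * E ^ 2 := by
      refine hRw.trans ?_
      calc n ^ (k * ι) * wd μ s (2 ^ p) ≤ n ^ (k * ι) * (n ^ ι * E ^ 2) := mul_le_mul_of_nonneg_left hw (Real.rpow_nonneg hn0.le _)
        _ = _ := by
          rw [← mul_assoc, pa]
    have h4 : 0 ≤ n ^ (k * ι + ι) * E ^ 2 := by positivity
    calc 14 * R * (n ^ β) ^ 2 ≤ 14 * (n ^ (k * ι + ι) * E ^ 2) * (n ^ β) ^ 2 :=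
          mul_le_mul_of_nonneg_right (mul_le_mul_of_nonneg_left h3 (by norm_num)) (by positivity)
      _ ≤ n ^ ι * (n ^ (k * ι + ι) * E ^ 2) * (n ^ β) ^ 2 :=
          mul_le_mul_of_nonneg_right (mul_le_mul_of_nonneg_right h14 h4) (by positivity)
      _ = X * E ^ 2 := by
          rw [hX]
          ring
  have hLX : (n ^ ι) ^ 2 * X = n ^ ((k + 4) * ι + 2 * β) := by
    rw [hX', pp, pa]
    congr 1
    push_cast
    ring
  have hXE : 4 * ((n ^ ι) ^ 2 * X) ≤ E := by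
    rw [hLX]
    have h3 : 4 * n ^ ((k + 4) * ι + 2 * β) ≤ n ^ ι * n ^ ((k + 4) * ι + 2 * β) :=
      mul_le_mul_of_nonneg_right (by linarith) (by positivity)
    refine h3.trans ?_
    rw [pa]
    exact (pw _ _ (by nlinarith)).trans hEn
  have hθE : 5 * n ^ β ≤ θ * E ^ 2 := by
    have h3 : n ^ (2 * ι) ≤ E := (pw _ _ (by nlinarith)).trans hEn
    have h4 : n ^ β ≤ n ^ ι := pw _ _ hβι
    have h5' : 5 ≤ θ * n ^ ι := by
      rw [div_le_iff₀ hθ] at h5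
      linarith
    have h6 : n ^ ι * n ^ ι ≤ E := by
      rw [pa]
      refine (pw _ _ ?_).trans h3
      linarith
    have h7 : E ≤ E ^ 2 := by nlinarith
    calc 5 * n ^ β ≤ (θ * n ^ ι) * n ^ ι := mul_le_mul h5' h4 (by positivity) (by positivity)
      _ = θ * (n ^ ι * n ^ ι) := by ring
      _ ≤ θ * E ^ 2 := mul_le_mul_of_nonneg_left (h6.trans h7) hθ.le
  obtain ⟨a, t, h3⟩ := knum (C := C) (θ := θ) hC hB1 hE1 hb3 hX1 hRR hnι hXE hθE
  refine ⟨a, t, h3.a0, h3.a1, h3.t1, h3.th, h3.K2.trans ?_, h3.tl.trans ?_⟩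
  · rw [hLX, pp, div_le_div_iff₀ (by positivity) hE0]
    have h4 : n ^ ((k + 4) * ι + 2 * β) * n ^ (((4 : ℕ) : ℝ) * β) ≤ n ^ ((k + 10) * ι) := by
      rw [pa]
      refine pw _ _ ?_
      push_cast
      nlinarith
    have h5 := mul_le_mul_of_nonneg_right h4 hE0.le
    have h6 : 0 ≤ n ^ ((k + 10) * ι) * E := by positivity
    nlinarith
  · have h4 : (4 : ℝ) = Real.exp (Real.log 4) := (Real.exp_log (by norm_num)).symm
    calc 4 * Real.exp (26 * C - n ^ ι) = Real.exp (Real.log 4 + (26 * C - n ^ ι)) := by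
          rw [Real.exp_add, ← h4]
      _ ≤ _ := Real.exp_le_exp.2 (by linarith)

end

end Pool.Agent.W_7d29a1_C0.NumR32
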