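import Pool.Agent.W_7d29a1_C0.Num46B
import Pool.Agent.W_7d29a1_C0.Num46P
import Pool.Agent.W_7d29a1_C0.PrI46

/-!
MP_7d29a1_pr, [CURV0], leaf E5 (helper80): THE NUMBERS OF THE T4 LINE at the concrete frame. `num_t4`: for each change of the base window
there is a scale `l` with `N ^ (δ / 8) ≤ l`, `l N ^ e ≤ b0` such that the widths up to `2 b'` are at most `R` widths at `l` and
`10 (R N ^ e / E_l) ^ 2 ≤ N ^ (- c / 2) / E_q`, with `e = c / 96`.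
-/

set_option autoImplicit false
set_option linter.unusedSectionVars false

namespace Pool.Agent.W_7d29a1_C0.NumT80

open Finset MeasureTheory Filter Topology Pool.Agent.W_7d29a1_F Pool.Agent.W_7d29a1_X Pool.Agent.W_7d29a1_H
open Pool.Agent.W_7d29a1_HS (In wd)
open Pool.Agent.W_7d29a1_HZ (wd' EE')
open Pool.Agent.W_7d29a1_C0 Pool.Agent.W_7d29a1_C0.Mod92 Pool.Agent.W_7d29a1_C0.Asm96 Pool.Agent.W_7d29a1_C0.Frm33
open Pool.Agent.W_7d29a1_C0.Par92 (Sml Est)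

noncomputable section

variable {μ : Measure ℝ} {s : ℝ}

/-- The base window in terms of the finer one. -/
theorem b_le_b0 {ι : ℝ} (hι : 0 < ι) (m p : ℕ) :
    ((2 ^ p : ℕ) : ℝ) ≤ 2 * ((2 ^ m : ℕ) : ℝ) ^ ι * ((2 ^ (p - ⌈ι * (m : ℝ)⌉₊) : ℕ) : ℝ) := by
  have h1 : (⌈ι * (m : ℝ)⌉₊ : ℝ) ≤ ι * m + 1 := (Nat.ceil_lt_add_one (by positivity)).le
  have h2 : ((2 ^ ⌈ι * (m : ℝ)⌉₊ : ℕ) : ℝ) ≤ 2 * ((2 ^ m : ℕ) : ℝ) ^ ι := by
    push_cast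
    rw [← Real.rpow_natCast 2 m, ← Real.rpow_mul two_pos.le, ← Real.rpow_natCast 2]
    calc (2 : ℝ) ^ ((⌈ι * (m : ℝ)⌉₊ : ℕ) : ℝ) ≤ (2 : ℝ) ^ (ι * m + 1) := Real.rpow_le_rpow_of_exponent_le one_le_two h1
      _ = 2 * (2 : ℝ) ^ ((m : ℝ) * ι) := by
          rw [Real.rpow_add two_pos, Real.rpow_one, mul_comm (m : ℝ) ι]
          ring
  have h3 : (2 ^ p : ℕ) ≤ 2 ^ ⌈ι * (m : ℝ)⌉₊ * 2 ^ (p - ⌈ι * (m : ℝ)⌉₊) := by
    rw [← pow_add]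
    exact Nat.pow_le_pow_right two_pos (by omega)
  have h4 : ((2 ^ p : ℕ) : ℝ) ≤ ((2 ^ ⌈ι * (m : ℝ)⌉₊ : ℕ) : ℝ) * ((2 ^ (p - ⌈ι * (m : ℝ)⌉₊) : ℕ) : ℝ) := by exact_mod_cast h3
  exact h4.trans (mul_le_mul_of_nonneg_right h2 (Nat.cast_nonneg _))

/-- **The numbers of the T4 line.** -/
theorem num_t4 [IsProbabilityMeasure μ] {c₁ C : ℝ} {n₀ : ℕ} (h : In μ s c₁ C n₀) {c₀ Θ δ c η : ℝ} (hR : RegP46 μ s c₀ Θ) (hδ : 0 < δ)
    (hc : 0 < c) (hcδ : c ≤ δ / 64) (hη : 0 ≤ η) {ι : ℝ} (hι : 0 < ι) (hιe : ι ≤ c / 96) :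
    ∀ᶠ m : ℕ in atTop, ∀ p p' q : ℕ, Chg96 (EE μ s) Θ δ c η m p p' q → 4 * 2 ^ (p - ⌈ι * (m : ℝ)⌉₊) ≤ 2 ^ p ∧
      ∃ (l : ℕ) (R : ℝ), 1 ≤ R ∧ ((2 ^ m : ℕ) : ℝ) ^ (δ / 8) ≤ l ∧
        (l : ℝ) * ((2 ^ m : ℕ) : ℝ) ^ (c / 96) ≤ ((2 ^ (p - ⌈ι * (m : ℝ)⌉₊) : ℕ) : ℝ) ∧
        (∀ i : ℕ, 1 ≤ i → i ≤ 2 * 2 ^ p' → wd' μ s i ≤ R * wd' μ s l) ∧
        10 * (R * ((2 ^ m : ℕ) : ℝ) ^ (c / 96) * (EE' μ s l)⁻¹) ^ 2 ≤ ((2 ^ m : ℕ) : ℝ) ^ (-(c / 2)) / EE μ s (2 ^ q) := by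
  obtain ⟨a, ha0, ha1, hReg⟩ := hR
  obtain ⟨a', K₁, ha', ha'1, hK₁, hw⟩ := Pool.Agent.W_7d29a1_HZ.wd'_pow h
  obtain ⟨e, he⟩ : ∃ e : ℝ, e = c / 96 := ⟨_, rfl⟩
  have he0 : 0 < e := by rw [he]; positivity
  have heδ : e ≤ δ / 6144 := by rw [he]; linarith
  rw [← he] at hιe ⊢
  filter_upwards [hReg (δ / 8) e (by positivity) he0, b0_33 hδ (show ι ≤ δ / 4 by linarith), ev_n (show 0 < δ / 16 by positivity) 2,
    ev_n he0 (2 * K₁ ^ 2), ev_n he0 16, eventually_ge_atTop ⌈2 / ι⌉₊, eventually_ge_atTop ⌈2 / δ⌉₊] with m h1 h2 h3 h4 h5 h6 h7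
  intro p p' q hC
  obtain ⟨R, hwd⟩ := h1
  obtain ⟨hsq', hqm⟩ := chg_le33 hC hc.le hη
  obtain ⟨n, hn⟩ : ∃ n : ℝ, n = ((2 ^ m : ℕ) : ℝ) := ⟨_, rfl⟩
  obtain ⟨b0, hb0⟩ : ∃ b0 : ℕ, b0 = 2 ^ (p - ⌈ι * (m : ℝ)⌉₊) := ⟨_, rfl⟩
  have hb1 := b_le_b0 hι m p
  have h2p := h2 p hC.hp
  have hlow := hC.low
  have hupp := hC.upp'
  rw [← hn] at h2p h3 h4 h5 hb1 hlow hupp R hwd ⊢
  rw [← hb0] at h2p hb1 ⊢
  have hn1 : 1 ≤ n := hn ▸ n_ge1 m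
  have hn0 : 0 < n := by linarith
  have hpos : ∀ x : ℝ, 0 < n ^ x := fun x => Real.rpow_pos_of_pos hn0 x
  have hadd : ∀ x y : ℝ, n ^ x * n ^ y = n ^ (x + y) := fun x y => (Real.rpow_add hn0 x y).symm
  have hmono : ∀ {x y : ℝ}, x ≤ y → n ^ x ≤ n ^ y := fun hxy => Real.rpow_le_rpow_of_exponent_le hn1 hxy
  have hpm : p ≤ m := (hC.hps.trans hC.hsq).trans hqm
  have hpm' : p' ≤ m := (hC.hps'.trans hsq').trans hqm
  have hm2 : 2 / ι ≤ (m : ℝ) := (Nat.le_ceil _).trans (by exact_mod_cast h6)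
  have hm3 : 2 / δ ≤ (m : ℝ) := (Nat.le_ceil _).trans (by exact_mod_cast h7)
  have hcl : 2 ≤ ⌈ι * (m : ℝ)⌉₊ := by
    rw [div_le_iff₀ hι] at hm2
    have : (2 : ℝ) ≤ ⌈ι * (m : ℝ)⌉₊ := le_trans (by linarith) (Nat.le_ceil _)
    exact_mod_cast this
  have hp2 : 2 ≤ p := by
    rw [div_le_iff₀ hδ] at hm3
    have : (2 : ℝ) ≤ p := le_trans (by linarith) hC.hp
    exact_mod_cast this
  have h4b : 4 * b0 ≤ 2 ^ p := by
    rw [hb0]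
    calc 4 * 2 ^ (p - ⌈ι * (m : ℝ)⌉₊) = 2 ^ (p - ⌈ι * (m : ℝ)⌉₊ + 2) := by rw [pow_add]; ring
      _ ≤ 2 ^ p := Nat.pow_le_pow_right two_pos (by omega)
  refine ⟨h4b, ?_⟩
  -- the scale
  have hne0 := hpos e
  have hb0n : 2 * (2 * n ^ e) ≤ b0 := by
    have e1 : n ^ (δ / 4) = n ^ e * n ^ (δ / 16) * n ^ (δ / 16) * n ^ (δ / 8 - e) := by
      rw [hadd, hadd, hadd]
      congr 1
      ring
    have e2 : 1 ≤ n ^ (δ / 8 - e) := Real.one_le_rpow hn1 (by linarith)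
    have e3 : 2 * 2 ≤ n ^ (δ / 16) * n ^ (δ / 16) := mul_le_mul h3 h3 (by norm_num) (hpos _).le
    calc 2 * (2 * n ^ e) = n ^ e * (2 * 2) * 1 := by ring
      _ ≤ n ^ e * (n ^ (δ / 16) * n ^ (δ / 16)) * n ^ (δ / 8 - e) :=
          mul_le_mul (mul_le_mul_of_nonneg_left e3 hne0.le) e2 zero_le_one (by positivity)
      _ = n ^ (δ / 4) := by rw [e1]; ring
      _ ≤ b0 := h2p
  obtain ⟨l, hl⟩ : ∃ l : ℕ, l = ⌊(b0 : ℝ) / n ^ e⌋₊ := ⟨_, rfl⟩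
  have hl1 : (l : ℝ) * n ^ e ≤ b0 := by
    rw [← le_div_iff₀ hne0, hl]
    exact Nat.floor_le (by positivity)
  have hl2 : (b0 : ℝ) ≤ 2 * n ^ e * l := by
    have e1 : (b0 : ℝ) / n ^ e < l + 1 := by
      rw [hl]
      exact Nat.lt_floor_add_one _
    rw [div_lt_iff₀ hne0] at e1
    have e2 : ((l : ℝ) + 1) * n ^ e = l * n ^ e + n ^ e := by ring
    have e3 : 0 ≤ (l : ℝ) * n ^ e := by positivity
    have e4 : 2 * n ^ e * l = 2 * ((l : ℝ) * n ^ e) := by ring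
    linarith
  have hl3 : n ^ (δ / 8) ≤ l := by
    have e1 : 2 * n ^ e * n ^ (δ / 8) ≤ n ^ (δ / 4) := by
      calc 2 * n ^ e * n ^ (δ / 8) ≤ n ^ (δ / 16) * n ^ e * n ^ (δ / 8) := by gcongr
        _ = n ^ (δ / 16 + e + δ / 8) := by rw [hadd, hadd]
        _ ≤ n ^ (δ / 4) := hmono (by linarith)
    have e2 : 2 * n ^ e * n ^ (δ / 8) ≤ 2 * n ^ e * l := e1.trans (h2p.trans hl2)
    exact le_of_mul_le_mul_left e2 (by positivity)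
  have hl0 : 1 ≤ l := by
    have : (1 : ℝ) ≤ l := (Real.one_le_rpow hn1 (by positivity)).trans hl3
    exact_mod_cast this
  have hlb : l ≤ 2 ^ p := by
    have e1 : (l : ℝ) ≤ b0 := by
      have e2 : 1 ≤ n ^ e := Real.one_le_rpow hn1 he0.le
      exact (le_mul_of_one_le_right (Nat.cast_nonneg l) e2).trans hl1
    have e3 : l ≤ b0 := by exact_mod_cast e1
    omega
  have hbl : ((2 ^ p : ℕ) : ℝ) ≤ n ^ (3 * e) * l := by
    have e1 : n ^ ι ≤ n ^ e := hmono hιe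
    have e2 : 2 * n ^ ι * (2 * n ^ e * l) ≤ n ^ (3 * e) * l := by
      calc 2 * n ^ ι * (2 * n ^ e * l) ≤ 2 * n ^ e * (2 * n ^ e * l) := by gcongr
        _ = 4 * (n ^ e * n ^ e * l) := by ring
        _ ≤ n ^ e * (n ^ e * n ^ e * l) := by
            refine mul_le_mul_of_nonneg_right (by linarith) (by positivity)
        _ = n ^ (3 * e) * l := by
            rw [← mul_assoc, hadd, hadd]
            congr 2
            ring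
    exact hb1.trans ((mul_le_mul_of_nonneg_left hl2 (by positivity)).trans e2)
  have hEb : EE μ s (2 ^ p) ≤ n ^ (3 * e / 2 + e) * EE μ s l := R.Esub hl0 hlb hbl
  have hpmR : ∀ k : ℕ, k ≤ m → ((2 ^ k : ℕ) : ℝ) ≤ n := fun k hk => by
    rw [hn]
    exact_mod_cast Nat.pow_le_pow_right two_pos hk
  have hRl : Rg46 (δ / 8) n l := ⟨hl3, (show (l : ℝ) ≤ ((2 ^ p : ℕ) : ℝ) by exact_mod_cast hlb).trans (hpmR p hpm)⟩
  have hRb : Rg46 (δ / 8) n (2 ^ p') := by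
    refine ⟨?_, hpmR p' hpm'⟩
    have e1 : δ * m ≤ p' := hC.hp.trans (by exact_mod_cast hC.hpp)
    have e2 := two_ge e1
    rw [← hn] at e2
    exact (hmono (by linarith)).trans e2
  have hEl : 0 < EE μ s l := EE_pos _
  have hE0 : 0 < EE μ s (2 ^ p) := EE_pos _
  have hEq : 0 < EE μ s (2 ^ q) := EE_pos _
  have hEb' : 0 < EE μ s (2 ^ p') := EE_pos _
  have hEb2 : EE μ s (2 ^ p) ^ 2 ≤ n ^ (5 * e) * EE μ s l ^ 2 := by
    have e1 := pow_le_pow_left₀ hE0.le hEb 2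
    have e2 : (n ^ (3 * e / 2 + e) * EE μ s l) ^ 2 = n ^ (5 * e) * EE μ s l ^ 2 := by
      rw [mul_pow, sq (n ^ _), hadd]
      congr 2
      ring
    linarith
  have hEbb : EE μ s (2 ^ p') ^ 2 ≤ n ^ (c / 8) * EE μ s (2 ^ p) ^ 2 := by
    calc EE μ s (2 ^ p') ^ 2 ≤ n ^ (9 / 8 * c) * EE μ s (2 ^ q) := hupp
      _ = n ^ (c / 8) * (n ^ c * EE μ s (2 ^ q)) := by
          rw [← mul_assoc, hadd]
          congr 2
          ring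
      _ ≤ n ^ (c / 8) * EE μ s (2 ^ p) ^ 2 := mul_le_mul_of_nonneg_left hlow (hpos _).le
  have hwl : EE μ s l ^ 2 ≤ n ^ e * wd' μ s l := by
    rw [hwd l hl3]
    exact R.wge l hRl
  have hwb : wd' μ s (2 ^ p') ≤ n ^ e * EE μ s (2 ^ p') ^ 2 := by
    rw [hwd (2 ^ p') hRb.lo]
    exact R.wle _ hRb
  have hwl1 : 1 ≤ wd' μ s l := le_max_left _ _
  obtain ⟨Rr, hRr⟩ : ∃ Rr : ℝ, Rr = n ^ (c / 8 + 8 * e) := ⟨_, rfl⟩
  refine ⟨l, Rr, ?_, hl3, hl1, fun i hi hi2 => ?_, ?_⟩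
  · rw [hRr]
    exact Real.one_le_rpow hn1 (by positivity)
  · have e1 : wd' μ s i ≤ K₁ * wd' μ s (2 * 2 ^ p') := (hw i (2 * 2 ^ p') hi hi2).1
    have e2 := (hw (2 ^ p') (2 * 2 ^ p') Nat.one_le_two_pow (by omega)).2.2
    have e3 : (((2 * 2 ^ p' : ℕ) : ℝ) / ((2 ^ p' : ℕ) : ℝ)) ^ (1 - a') ≤ 2 := by
      have e4 : ((2 * 2 ^ p' : ℕ) : ℝ) / ((2 ^ p' : ℕ) : ℝ) = 2 := by
        push_cast
        field_simp
      rw [e4]
      calc (2 : ℝ) ^ (1 - a') ≤ 2 ^ (1 : ℝ) := Real.rpow_le_rpow_of_exponent_le one_le_two (by linarith)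
        _ = 2 := Real.rpow_one 2
    have hw0 : 0 ≤ wd' μ s (2 ^ p') := zero_le_one.trans (le_max_left _ _)
    have hK0 : 0 < K₁ := by linarith
    have e5 : wd' μ s (2 * 2 ^ p') ≤ K₁ * 2 * wd' μ s (2 ^ p') := e2.trans (by gcongr)
    calc wd' μ s i ≤ K₁ * (K₁ * 2 * wd' μ s (2 ^ p')) := e1.trans (mul_le_mul_of_nonneg_left e5 hK0.le)
      _ = 2 * K₁ ^ 2 * wd' μ s (2 ^ p') := by ring
      _ ≤ n ^ e * (n ^ e * (n ^ (c / 8) * (n ^ (5 * e) * (n ^ e * wd' μ s l)))) := by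
          refine mul_le_mul h4 ?_ hw0 (hpos _).le
          refine hwb.trans (mul_le_mul_of_nonneg_left ?_ (hpos _).le)
          refine hEbb.trans (mul_le_mul_of_nonneg_left ?_ (hpos _).le)
          exact hEb2.trans (mul_le_mul_of_nonneg_left hwl (hpos _).le)
      _ = Rr * wd' μ s l := by
          rw [hRr, show c / 8 + 8 * e = e + (e + (c / 8 + (5 * e + e))) by ring, ← hadd, ← hadd, ← hadd, ← hadd]
          ring
  · rw [EE'_eq46]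
    have e1 : 10 * (Rr * n ^ e * (EE μ s l)⁻¹) ^ 2 = 10 * n ^ (c / 4 + 18 * e) / EE μ s l ^ 2 := by
      have e2 : (Rr * n ^ e) ^ 2 = n ^ (c / 4 + 18 * e) := by
        rw [hRr, hadd, sq, hadd]
        congr 1
        ring
      rw [mul_pow, e2, inv_pow]
      ring
    rw [e1, div_le_div_iff₀ (by positivity) hEq]
    have e3 : n ^ c * EE μ s (2 ^ q) ≤ n ^ (5 * e) * EE μ s l ^ 2 := hlow.trans hEb2
    have e4 : 10 * n ^ (c / 4 + 18 * e) ≤ n ^ (c / 4 + 19 * e) := by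
      calc 10 * n ^ (c / 4 + 18 * e) ≤ n ^ e * n ^ (c / 4 + 18 * e) := by
            refine mul_le_mul_of_nonneg_right (by linarith) (hpos _).le
        _ = n ^ (c / 4 + 19 * e) := by
            rw [hadd]
            congr 1
            ring
    have e5 : n ^ (c / 4 + 19 * e) = n ^ (-(c / 2) - 5 * e) * n ^ c := by
      rw [hadd]
      congr 1
      rw [he]
      ring
    calc 10 * n ^ (c / 4 + 18 * e) * EE μ s (2 ^ q) ≤ n ^ (-(c / 2) - 5 * e) * n ^ c * EE μ s (2 ^ q) := by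
          refine mul_le_mul_of_nonneg_right (e4.trans e5.le) hEq.le
      _ = n ^ (-(c / 2) - 5 * e) * (n ^ c * EE μ s (2 ^ q)) := by ring
      _ ≤ n ^ (-(c / 2) - 5 * e) * (n ^ (5 * e) * EE μ s l ^ 2) := mul_le_mul_of_nonneg_left e3 (hpos _).le
      _ = n ^ (-(c / 2)) * EE μ s l ^ 2 := by
          rw [← mul_assoc, hadd]
          congr 2
          ring

end

end Pool.Agent.W_7d29a1_C0.NumT80
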