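import Pool.Agent.W_7d29a1_C0.Tie36
import Pool.Agent.W_7d29a1_C0.Near32

/-!
MP_7d29a1_pr, [CURV0], (GS2): THE MEAN OF `OI` (helper36). The outer non meeting (free competitor `z` of the base path `y`, outside of the
block `[c1, d1)` in `[c0, d0)`) times the inner non meeting (competitor conditional on the outside of `[c1, d1)`): the product of the
two tie prices.
-/

set_option autoImplicit false
set_option linter.unusedSectionVars false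
set_option linter.style.haveILetI false

namespace Pool.Agent.W_7d29a1_C0.Bri36

open Finset MeasureTheory Pool.Agent.W_7d29a1_F Pool.Agent.W_7d29a1_X Pool.Agent.W_7d29a1_H Pool.Agent.W_7d29a1_HZ
open Pool.Agent.W_7d29a1_HS (In wd)
open Pool.Agent.W_7d29a1_C0.Mod92
open Pool.Agent.W_7d29a1_C0.P86 (NoMeet On2 Bk Pl pl_blk)
open Pool.W7d29a1.C0 (gz gm gz_pos gz_ne gm_mono gm_const gm_nonneg)
open Pool.W7d29a1.C0.VT31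
open Pool.Agent.W_7d29a1_C0.Swap57
open Pool.Agent.W_7d29a1_C0.E4T32 (OI OI_le)
open Pool.Agent.W_7d29a1_C0.Near32 (OK)
open scoped ENNReal

noncomputable section

variable {μ : Measure ℝ} {s : ℝ} {N y : ℕ}

theorem bk_on2 (c d t τ : ℕ) : On2 c d (Bk c d t τ) := by
  have key : ∀ S S' S'' : Finset ℕ, (∀ i, c ≤ i → i ≤ d → pos S' i = pos S'' i) → Bk c d t τ S S' → Bk c d t τ S S'' := by
    rintro S S' S'' h ⟨a, b', h1, h2, h3, h4, h6, h7, h8⟩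
    refine ⟨a, b', h1, h2, h3, h4, ?_, ?_, fun k hk1 hk2 => ?_⟩
    · rw [h6, h a h1 (by omega)]
    · rw [h7, h b' (by omega) h4]
    · rw [← h k (by omega) (by omega)]
      exact h8 k hk1 hk2
  exact fun S S' S'' h => ⟨key S S' S'' h, key S S'' S' fun i h1 h2 => (h i h1 h2).symm⟩

/-- The inner competitor in terms of places. -/
theorem cE_NI_Bk (w : Px (Pn N y) → ℝ) {c d i j t : ℕ} (hci : c ≤ i) (hij : i + t / 4 ≤ j) (hjd : j ≤ d) (S : Px (Pn N y)) :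
    cE w (pJ c d) (NI i j S) S ≤ cE w (pJ c d) (fun S' => ind (Bk c d t i S.1 S'.1)) S := by
  haveI : Nonempty (Px (Pn N y)) := ⟨S⟩
  refine cE_mono_fib w _ fun S' hS' => ?_
  rw [NI_ind]
  refine ind_mono fun hn => ?_
  exact ⟨c, d, le_rfl, hci, by omega, le_rfl, (ps_of_le hS' le_rfl).symm, (ps_of_ge hS' le_rfl).symm,
    fun k hk1 hk2 => hn k hk1 (by omega)⟩

theorem int_add4 {Ω : Type*} [MeasurableSpace Ω] {P : Measure Ω} {f1 f2 f3 f4 : Ω → ℝ} (h1 : Integrable f1 P) (h2 : Integrable f2 P)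
    (h3 : Integrable f3 P) (h4 : Integrable f4 P) : ∫ ω, (f1 ω + f2 ω) + (f3 ω + f4 ω) ∂P =
      (∫ ω, f1 ω ∂P + ∫ ω, f2 ω ∂P) + (∫ ω, f3 ω ∂P + ∫ ω, f4 ω ∂P) := by
  rw [integral_add (f := fun ω => f1 ω + f2 ω) (g := fun ω => f3 ω + f4 ω) (h1.add h2) (h3.add h4), integral_add h1 h2,
    integral_add h3 h4]

theorem gm_add36 {X : Type*} [Fintype X] (w : X → ℝ) (f g : X → ℝ) : gm w f + gm w g = gm w fun S => f S + g S := by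
  unfold gm
  rw [← add_div, ← sum_add_distrib]
  congr 1
  exact sum_congr rfl fun x _ => (mul_add _ _ _).symm

theorem gm_mul36 {X : Type*} [Fintype X] (w : X → ℝ) (f : X → ℝ) (a : ℝ) : gm w f * a = gm w fun S => f S * a := by
  unfold gm
  rw [div_mul_eq_mul_div, sum_mul]
  congr 1
  exact sum_congr rfl fun x _ => mul_assoc _ _ _

/-- The outer non meeting of a free competitor in `[i, i + D]` times the inner place `Bk c1 d1 l τ`. -/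
def Gx (w : Px (Pn N y) → ℝ) (i j c1 d1 l τ : ℕ) : ℝ :=
  gm w fun S => cE w (pJ 0 N) (NI i j S) S * cE w (pJ c1 d1) (fun S' => ind (Bk c1 d1 l τ S.1 S'.1)) S

theorem Gx_bd [Nonempty (Px (Pn N y))] (w : Px (Pn N y) → ℝ) (i j c1 d1 l τ : ℕ) : 0 ≤ Gx w i j c1 d1 l τ ∧ Gx w i j c1 d1 l τ ≤ 1 := by
  have h0 : ∀ S : Px (Pn N y), 0 ≤ cE w (pJ 0 N) (NI i j S) S * cE w (pJ c1 d1) (fun S' => ind (Bk c1 d1 l τ S.1 S'.1)) S :=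
    fun S => mul_nonneg (cE_NI_nonneg _ 0 N i j S) (cE_ind_nonneg _ _ _ _ _)
  refine ⟨gm_nonneg _ h0, ?_⟩
  calc Gx w i j c1 d1 l τ ≤ gm w (fun _ => 1) := gm_mono _ fun S =>
        mul_le_one₀ (cE_NI_le_one _ 0 N i j S) (cE_ind_nonneg _ _ _ _ _) (cE_ind_le_one _ _ _ _ _)
    _ = 1 := gm_const _ 1

theorem int_Gx [IsProbabilityMeasure μ] [Nonempty (Px (Pn N y))] (i j c1 d1 l τ : ℕ) :
    Integrable (fun ω => Gx (wm μ s N (Pn N y) ω) i j c1 d1 l τ) (Pm μ N) := by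
  refine int_bdd (meas_gm (fun x => meas_wm x) fun S => (meas_cENI 0 N i j S).mul (meas_cEi c1 d1 (Bk c1 d1 l τ) S))
    (M := 1) fun ω => ?_
  obtain ⟨h1, h2⟩ := Gx_bd (wm μ s N (Pn N y) ω) i j c1 d1 l τ
  exact (abs_of_nonneg h1).le.trans h2

/-- **ONE OUTER TIE TIMES ONE INNER TIE.** -/
theorem one36 [IsProbabilityMeasure μ] {c₀ C₀ : ℝ} {n₀ : ℕ} (h : In μ s c₀ C₀ n₀) : ∀ ε θ : ℝ, 0 < ε → 0 < θ →
    ∃ δ c' : ℝ, 0 < δ ∧ 0 < c' ∧ ∃ L₀ : ℕ,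
    ∀ L : ℕ, L₀ ≤ L → ∀ N : ℕ, L ≤ 16 * N → N ≤ L → ∀ y : ℕ, y ≤ N → |(y : ℝ) - sl μ s * N| ≤ ((L : ℝ) ^ δ * wd' μ s N) →
    ∀ D l i c1 d1 τ : ℕ, (L : ℝ) ^ θ ≤ D → (L : ℝ) ^ θ ≤ l → i + D ≤ N → (i + D ≤ c1 ∨ d1 < i) → c1 ≤ τ → τ + l ≤ d1 → d1 ≤ N →
    d1 ≤ c1 + 3 * D →
    ∫ ω, Gx (wm μ s N (Pn N y) ω) i (i + D) c1 d1 l τ ∂(Pm μ N) ≤
      (L : ℝ) ^ ε * (EE' μ s D)⁻¹ * (EE' μ s l)⁻¹ + Real.exp (-(L : ℝ) ^ c') := by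
  intro ε θ hε hθ
  obtain ⟨δ₁, c₁, hδ₁, hc₁, hT⟩ := tieprod36 h 1 (ε / 2) θ (by positivity) hθ
  obtain ⟨δ₂, c₂, hδ₂, hc₂, L₂, hB⟩ := pl_blk h (ε / 2) θ (by positivity) hθ
  obtain ⟨c₄, hc₄, L₁, hT1⟩ := hT (min c₁ c₂) (lt_min hc₁ hc₂) (min_le_left _ _)
  refine ⟨min δ₁ δ₂, c₄, lt_min hδ₁ hδ₂, hc₄, L₁ + L₂ + 1, ?_⟩
  intro L hL N hLN hNL y hyN hyc D l i c1 d1 τ hDL hlL hiN hi hτ1 hτ2 hd1N hDD
  haveI := ne_Pn hyN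
  have hL1 : (1 : ℝ) ≤ L := by exact_mod_cast (show 1 ≤ L by omega)
  have hL0 : (0 : ℝ) < L := by linarith
  have hwd : 0 < wd' μ s N := lt_of_lt_of_le zero_lt_one (le_max_left _ _)
  have hcone : ∀ δ', min δ₁ δ₂ ≤ δ' → |(y : ℝ) - sl μ s * N| ≤ ((L : ℝ) ^ δ' * wd' μ s N) := fun δ' hδ' =>
    hyc.trans (mul_le_mul_of_nonneg_right (Real.rpow_le_rpow_of_exponent_le hL1 hδ') hwd.le)
  have hEl : 0 < EE' μ s l := lt_of_lt_of_le zero_lt_one (le_max_left _ _)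
  have hpl := hB L (by omega) N l hLN hNL hlL (by omega) (y : ℤ) (by positivity) (by exact_mod_cast hyN)
    (by push_cast; exact hcone _ (min_le_right _ _)) τ c1 d1 hτ1 (by omega)
  have hpl' := Pl_mono_p hpl (p' := ENNReal.ofReal (Real.exp (-(L : ℝ) ^ (min c₁ c₂))))
    (ENNReal.ofReal_le_ofReal (Pool.Agent.W_7d29a1_Z.NumI77.exp_mono (min_le_right _ _) (by omega)))
  have h1 := hT1 L (by omega) N hLN hNL y hyN (hcone _ (min_le_left _ _)) 0 N i D hDL (Nat.zero_le _) hiN le_rfl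
    (Ioc c1 d1) (fun n : Fin 3 => c1 + 1 + (n : ℕ) * D)
    (fun v hv => by
      rw [mem_Ioc] at hv
      rcases Nat.lt_or_ge v (c1 + 1 + D) with g1 | g1
      · exact ⟨0, by show c1 + 1 + 0 * D ≤ v; omega, by show v < c1 + 1 + 0 * D + D; omega⟩
      · rcases Nat.lt_or_ge v (c1 + 1 + 2 * D) with g2 | g2
        · exact ⟨1, by show c1 + 1 + 1 * D ≤ v; omega, by show v < c1 + 1 + 1 * D + D; omega⟩
        · exact ⟨2, by show c1 + 1 + 2 * D ≤ v; omega, by show v < c1 + 1 + 2 * D + D; omega⟩)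
    (by
      rw [disjoint_left]
      intro v hv hv'
      rw [mem_Ico] at hv
      rw [mem_Ioc] at hv'
      omega)
    (fun _ => (L : ℝ) ^ (ε / 2) * (EE' μ s l)⁻¹) (fun _ => Bk c1 d1 l τ) (fun _ => Ico τ d1) (fun _ => Ioc c1 d1) (fun _ => c1)
    (fun _ => d1) (fun _ => by positivity) (fun _ => hpl') (fun n n' hn => absurd hn (by omega)) (fun _ => Subset.refl _)
    (fun _ => ⟨by omega, by omega⟩) (fun _ => bk_on2 _ _ _ _)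
  rw [Fin.prod_univ_one] at h1
  have e1 : (L : ℝ) ^ ε = (L : ℝ) ^ (ε / 2) * (L : ℝ) ^ (ε / 2) := by
    rw [← Real.rpow_add hL0]
    congr 1
    ring
  have e2 : (L : ℝ) ^ (ε / 2) * (EE' μ s D)⁻¹ * ((L : ℝ) ^ (ε / 2) * (EE' μ s l)⁻¹) = (L : ℝ) ^ ε * (EE' μ s D)⁻¹ * (EE' μ s l)⁻¹ := by
    rw [e1]
    ring
  rw [← e2]
  refine le_trans (le_of_eq ?_) h1
  refine integral_congr_ae (Filter.Eventually.of_forall fun ω => ?_)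
  show gm (wm μ s N (Pn N y) ω) _ = gm (wm μ s N (Pn N y) ω) _
  congr 1
  funext S
  unfold mP
  rw [Fin.prod_univ_one]

/-- The four products. -/
theorem four36 [Nonempty (Px (Pn N y))] (w : Px (Pn N y) → ℝ) {K : Px (Pn N y) → Px (Pn N y) → ℝ} {I : Px (Pn N y) → Px (Pn N y) → ℝ}
    {i1 j1 i2 j2 c1 c2 al be d2 d1 l : ℕ}
    (hK : ∀ S z, K S z ≤ NI i1 j1 S z + NI i2 j2 S z) (hI : ∀ S z, I S z ≤ NI c2 al S z + NI be d2 S z) (hI0 : ∀ S z, 0 ≤ I S z)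
    (h12 : c1 ≤ c2) (h2a : c2 + l ≤ al) (hab : al ≤ be) (hb2 : be + l ≤ d2) (h21 : d2 ≤ d1) :
    gm2 w (fun u z => K u z * cE w (pJ c1 d1) (I u) u) ≤
      (Gx w i1 j1 c1 d1 l c2 + Gx w i1 j1 c1 d1 l be) + (Gx w i2 j2 c1 d1 l c2 + Gx w i2 j2 c1 d1 l be) := by
  unfold gm2 Gx
  rw [gm_add36, gm_add36, gm_add36]
  refine gm_mono _ fun S => ?_
  rw [← gm_mul36]
  have a0 : cE w (pJ c1 d1) (I S) S ≤ cE w (pJ c1 d1) (NI c2 al S) S + cE w (pJ c1 d1) (NI be d2 S) S := by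
    have e := cE_mono w (pJ c1 d1) (f := I S) (g := NI c2 al S + NI be d2 S) (fun z => hI S z) S
    rwa [cE_add, Pi.add_apply] at e
  have a1 : gm w (K S) ≤ cE w (pJ 0 N) (NI i1 j1 S) S + cE w (pJ 0 N) (NI i2 j2 S) S := by
    rw [cE_free, cE_free, gm_add36]
    exact gm_mono _ fun z => hK S z
  have a3 := cE_NI_Bk w (t := l) h12 (show c2 + l / 4 ≤ al by omega) (show al ≤ d1 by omega) S
  have a4 := cE_NI_Bk w (t := l) (show c1 ≤ be by omega) (show be + l / 4 ≤ d2 by omega) h21 S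
  have p1 : 0 ≤ cE w (pJ 0 N) (NI i1 j1 S) S := cE_NI_nonneg _ 0 N i1 j1 S
  have p2 : 0 ≤ cE w (pJ 0 N) (NI i2 j2 S) S := cE_NI_nonneg _ 0 N i2 j2 S
  have p0 : 0 ≤ cE w (pJ c1 d1) (I S) S := cE_nonneg _ _ (fun z => hI0 S z) S
  calc gm w (K S) * cE w (pJ c1 d1) (I S) S
      ≤ (cE w (pJ 0 N) (NI i1 j1 S) S + cE w (pJ 0 N) (NI i2 j2 S) S) *
        (cE w (pJ c1 d1) (fun S' => ind (Bk c1 d1 l c2 S.1 S'.1)) S + cE w (pJ c1 d1) (fun S' => ind (Bk c1 d1 l be S.1 S'.1)) S) :=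
        mul_le_mul a1 (a0.trans (add_le_add a3 a4)) p0 (add_nonneg p1 p2)
    _ = _ := by ring

/-- **OUTER KERNEL TIMES INNER NON MEETING** (one base path, free outer competitor, inner competitor given the outside of `[c1, d1)`):
the product of the two tie prices. The outer intervals `[i1, i1 + D]`, `[i2, i2 + D]` lie before and behind the block. -/
theorem ok36 [IsProbabilityMeasure μ] {c₀ C₀ : ℝ} {n₀ : ℕ} (h : In μ s c₀ C₀ n₀) : ∀ ε θ : ℝ, 0 < ε → 0 < θ →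
    ∃ δ c' : ℝ, 0 < δ ∧ 0 < c' ∧ ∃ L₀ : ℕ,
    ∀ L : ℕ, L₀ ≤ L → ∀ N : ℕ, L ≤ 16 * N → N ≤ L → ∀ y : ℕ, y ≤ N → |(y : ℝ) - sl μ s * N| ≤ ((L : ℝ) ^ δ * wd' μ s N) →
    ∀ D l i1 i2 c1 c2 al be d2 d1 : ℕ, (L : ℝ) ^ θ ≤ D → (L : ℝ) ^ θ ≤ l → i1 + D ≤ c1 → c1 ≤ c2 → c2 + l ≤ al → al ≤ be →
    be + l ≤ d2 → d2 ≤ d1 → d1 < i2 → i2 + D ≤ N → d1 ≤ c1 + 3 * D →
    ∀ (K : Env × Finset ℕ → Px (Pn N y) → Px (Pn N y) → ℝ) (I : Px (Pn N y) → Px (Pn N y) → ℝ),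
    (∀ ω S z, 0 ≤ K ω S z) → (∀ ω S z, K ω S z ≤ NI i1 (i1 + D) S z + NI i2 (i2 + D) S z) →
    (∀ S z, 0 ≤ I S z) → (∀ S z, I S z ≤ NI c2 al S z + NI be d2 S z) →
    ∫ ω, gm2 (wm μ s N (Pn N y) ω) (fun u z => K ω u z * cE (wm μ s N (Pn N y) ω) (pJ c1 d1) (I u) u) ∂(Pm μ N) ≤
      (L : ℝ) ^ ε * (EE' μ s D)⁻¹ * (EE' μ s l)⁻¹ + Real.exp (-(L : ℝ) ^ c') := by
  intro ε θ hε hθ
  obtain ⟨δ, c₁, hδ, hc₁, L₁, hO⟩ := one36 h (ε / 2) θ (by positivity) hθ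
  obtain ⟨c₂, hc₂, -, L₂, hX⟩ := Pool.Agent.W_7d29a1_Z.NumI77.pow_exp hc₁ (ε / 2)
  obtain ⟨L₃, h3⟩ := Pool.Agent.W_7d29a1_Z.NumI77.large (show 0 < ε / 2 by positivity) 4
  refine ⟨δ, c₂, hδ, hc₂, L₁ + L₂ + L₃ + 1, ?_⟩
  intro L hL N hLN hNL y hyN hyc D l i1 i2 c1 c2 al be d2 d1 hDL hlL h01 h12 h2a hab hb2 h21 h10 h0N hDD K I hK0 hK hI0 hI
  haveI := ne_Pn hyN
  have hL0 : (0 : ℝ) < L := by exact_mod_cast (show 0 < L by omega)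
  obtain ⟨-, g3, -⟩ := h3 L (by omega)
  have hED : 0 < EE' μ s D := lt_of_lt_of_le zero_lt_one (le_max_left _ _)
  have hEl : 0 < EE' μ s l := lt_of_lt_of_le zero_lt_one (le_max_left _ _)
  have H := hO L (by omega) N hLN hNL y hyN hyc D l
  have k1 := H i1 c1 d1 c2 hDL hlL (by omega) (Or.inl h01) h12 (by omega) (by omega) hDD
  have k2 := H i1 c1 d1 be hDL hlL (by omega) (Or.inl h01) (by omega) (by omega) (by omega) hDD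
  have k3 := H i2 c1 d1 c2 hDL hlL h0N (Or.inr h10) h12 (by omega) (by omega) hDD
  have k4 := H i2 c1 d1 be hDL hlL h0N (Or.inr h10) (by omega) (by omega) (by omega) hDD
  have I1 := int_Gx (μ := μ) (s := s) (N := N) (y := y) i1 (i1 + D) c1 d1 l c2
  have I2 := int_Gx (μ := μ) (s := s) (N := N) (y := y) i1 (i1 + D) c1 d1 l be
  have I3 := int_Gx (μ := μ) (s := s) (N := N) (y := y) i2 (i2 + D) c1 d1 l c2
  have I4 := int_Gx (μ := μ) (s := s) (N := N) (y := y) i2 (i2 + D) c1 d1 l be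
  have hpt : ∀ ω : Env × Finset ℕ, gm2 (wm μ s N (Pn N y) ω) (fun u z => K ω u z * cE (wm μ s N (Pn N y) ω) (pJ c1 d1) (I u) u) ≤
      (Gx (wm μ s N (Pn N y) ω) i1 (i1 + D) c1 d1 l c2 + Gx (wm μ s N (Pn N y) ω) i1 (i1 + D) c1 d1 l be) +
        (Gx (wm μ s N (Pn N y) ω) i2 (i2 + D) c1 d1 l c2 + Gx (wm μ s N (Pn N y) ω) i2 (i2 + D) c1 d1 l be) := fun ω =>
    four36 _ (hK ω) hI hI0 h12 h2a hab hb2 h21
  have h0 : ∀ ω : Env × Finset ℕ, 0 ≤ gm2 (wm μ s N (Pn N y) ω) (fun u z => K ω u z * cE (wm μ s N (Pn N y) ω) (pJ c1 d1) (I u) u) :=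
    fun ω => gm_nonneg _ fun S => gm_nonneg _ fun z => mul_nonneg (hK0 ω S z) (cE_nonneg _ _ (fun z => hI0 S z) S)
  have hall := (integral_mono_of_nonneg (Filter.Eventually.of_forall h0) ((I1.add I2).add (I3.add I4))
    (Filter.Eventually.of_forall hpt)).trans_eq (int_add4 I1 I2 I3 I4)
  refine hall.trans ?_
  have e1 : (L : ℝ) ^ ε = (L : ℝ) ^ (ε / 2) * (L : ℝ) ^ (ε / 2) := by
    rw [← Real.rpow_add hL0]
    congr 1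
    ring
  have hfin := hX L (by omega)
  have hp0 : 0 < Real.exp (-(L : ℝ) ^ c₁) := Real.exp_pos _
  have q1 : 4 * ((L : ℝ) ^ (ε / 2) * (EE' μ s D)⁻¹ * (EE' μ s l)⁻¹) ≤ (L : ℝ) ^ ε * (EE' μ s D)⁻¹ * (EE' μ s l)⁻¹ := by
    rw [e1]
    have : (L : ℝ) ^ (ε / 2) * (L : ℝ) ^ (ε / 2) * (EE' μ s D)⁻¹ * (EE' μ s l)⁻¹ =
        (L : ℝ) ^ (ε / 2) * ((L : ℝ) ^ (ε / 2) * (EE' μ s D)⁻¹ * (EE' μ s l)⁻¹) := by ring
    rw [this]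
    exact mul_le_mul_of_nonneg_right g3 (by positivity)
  have q2 : 4 * Real.exp (-(L : ℝ) ^ c₁) ≤ (L : ℝ) ^ (ε / 2) * Real.exp (-(L : ℝ) ^ c₁) := mul_le_mul_of_nonneg_right g3 hp0.le
  linarith

/-- **THE MEAN OF `OI`** (helper32, (GS2)). -/
theorem oi36 [IsProbabilityMeasure μ] {c₀ C₀ : ℝ} {n₀ : ℕ} (h : In μ s c₀ C₀ n₀) : ∀ ε θ : ℝ, 0 < ε → 0 < θ →
    ∃ δ c' : ℝ, 0 < δ ∧ 0 < c' ∧ ∃ L₀ : ℕ,
    ∀ L : ℕ, L₀ ≤ L → ∀ N : ℕ, L ≤ 16 * N → N ≤ L → ∀ y : ℕ, y ≤ N → |(y : ℝ) - sl μ s * N| ≤ ((L : ℝ) ^ δ * wd' μ s N) →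
    ∀ D l c0 c1 c2 al be d2 d1 d0 : ℕ, (L : ℝ) ^ θ ≤ D → (L : ℝ) ^ θ ≤ l → c0 + D ≤ c1 → c1 ≤ c2 → c2 + l ≤ al → al ≤ be →
    be + l ≤ d2 → d2 ≤ d1 → d1 + D < d0 → d0 ≤ N → d1 ≤ c1 + 3 * D →
    ∫ ω, OI (wm μ s N (Pn N y) ω) c0 c1 c2 al be d2 d1 d0 ∂(Pm μ N) ≤
      (L : ℝ) ^ ε * (EE' μ s D)⁻¹ * (EE' μ s l)⁻¹ + Real.exp (-(L : ℝ) ^ c') := by
  intro ε θ hε hθ
  obtain ⟨δ, c', hδ, hc', L₀, hP⟩ := ok36 h ε θ hε hθ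
  refine ⟨δ, c', hδ, hc', L₀, ?_⟩
  intro L hL N hLN hNL y hyN hyc D l c0 c1 c2 al be d2 d1 d0 hDL hlL h01 h12 h2a hab hb2 h21 h10 h0N hDD
  exact hP L hL N hLN hNL y hyN hyc D l c0 (d1 + 1) c1 c2 al be d2 d1 hDL hlL h01 h12 h2a hab hb2 h21 (by omega) (by omega) hDD
    (fun _ => NM c0 c1 d1 d0) (NM c2 al be d2) (fun _ S z => NM_nonneg _ _ _ _ S z)
    (fun _ S z => (NM_le c0 c1 d1 d0 S z).trans (add_le_add (NI_mono le_rfl h01 S z) (NI_mono (by omega) (by omega) S z)))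
    (fun S z => NM_nonneg _ _ _ _ S z) (fun S z => NM_le c2 al be d2 S z)

/-- **THE MEAN OF `OK`** (helper32, after the strip): outer kernel `NI i1 j1 + NI i2 j2`. -/
theorem okj36 [IsProbabilityMeasure μ] {c₀ C₀ : ℝ} {n₀ : ℕ} (h : In μ s c₀ C₀ n₀) : ∀ ε θ : ℝ, 0 < ε → 0 < θ →
    ∃ δ c' : ℝ, 0 < δ ∧ 0 < c' ∧ ∃ L₀ : ℕ,
    ∀ L : ℕ, L₀ ≤ L → ∀ N : ℕ, L ≤ 16 * N → N ≤ L → ∀ y : ℕ, y ≤ N → |(y : ℝ) - sl μ s * N| ≤ ((L : ℝ) ^ δ * wd' μ s N) →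
    ∀ D l i1 j1 i2 j2 c1 c2 al be d2 d1 : ℕ, (L : ℝ) ^ θ ≤ D → (L : ℝ) ^ θ ≤ l → i1 + D ≤ j1 → j1 ≤ c1 → c1 ≤ c2 → c2 + l ≤ al →
    al ≤ be → be + l ≤ d2 → d2 ≤ d1 → d1 < i2 → i2 + D ≤ j2 → j2 ≤ N → d1 ≤ c1 + 3 * D →
    ∫ ω, OK (wm μ s N (Pn N y) ω) (fun u z => NI i1 j1 u z + NI i2 j2 u z) c1 c2 al be d2 d1 ∂(Pm μ N) ≤
      (L : ℝ) ^ ε * (EE' μ s D)⁻¹ * (EE' μ s l)⁻¹ + Real.exp (-(L : ℝ) ^ c') := by
  intro ε θ hε hθ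
  obtain ⟨δ, c', hδ, hc', L₀, hP⟩ := ok36 h ε θ hε hθ
  refine ⟨δ, c', hδ, hc', L₀, ?_⟩
  intro L hL N hLN hNL y hyN hyc D l i1 j1 i2 j2 c1 c2 al be d2 d1 hDL hlL hij1 h01 h12 h2a hab hb2 h21 h10 hij2 h0N hDD
  exact hP L hL N hLN hNL y hyN hyc D l i1 i2 c1 c2 al be d2 d1 hDL hlL (by omega) h12 h2a hab hb2 h21 h10 (by omega) hDD
    (fun _ u z => NI i1 j1 u z + NI i2 j2 u z) (NM c2 al be d2) (fun _ S z => add_nonneg (NI_nonneg _ _ S z) (NI_nonneg _ _ S z))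
    (fun _ S z => add_le_add (NI_mono le_rfl hij1 S z) (NI_mono le_rfl hij2 S z))
    (fun S z => NM_nonneg _ _ _ _ S z) (fun S z => NM_le c2 al be d2 S z)

end

end Pool.Agent.W_7d29a1_C0.Bri36
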