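import Pool.Agent.W_7d29a1_C0.TauF86
import Pool.Agent.W_7d29a1_C0.Own1

/-!
MP_7d29a1_pr, [CURV0] / [C0] (helper15): THE PRICE OF THE EXCEPTION OF THE THREE LEVEL THEOREM WITH AN OWN FACTOR (`O1.okE`).
If `x` is not `okE` then `x` has an own tie, a tie in the region `1`, and for the region `2` one of the three events: `EvI` (some mass misses `x`
on a piece of the region and meets it on `g* = [g0, g1]`), `EvII` (some mass misses `x` on `g*` and meets it in the region), `EvT` (three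
branches). `EvI` with the own tie and `EvII` with the tie in the region `1` are two exclusive places, on both sides: `evI_R`, `evII_R` (own
behind: region 1 < region 2 < g* < own) and `evI_L`, `evII_L` (own in front: own < g* < region 2 < region 1).
-/

set_option autoImplicit false

namespace Pool.Agent.W_7d29a1_C0.P15

open MeasureTheory ProbabilityTheory Filter Topology Finset
open Pool.Agent.W_7d29a1_F Pool.Agent.W_7d29a1_X Pool.Agent.W_7d29a1_h4g Pool.Agent.W_7d29a1_H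
open Pool.Agent.W_7d29a1_HS (In wd md)
open Pool.Agent.W_7d29a1_HZ Pool.Agent.W_7d29a1_HZ.R72 Pool.Agent.W_7d29a1_Z.Asm72
open Pool.Agent.W_7d29a1_HZ.Z86
open Pool.Agent.W_7d29a1_C0.Mod92 (Px Pn lw ps pJ ne_Pn ps_Pn pos_card ps_of_le ps_of_ge wm Pm meas_lw meas_cE meas_gz meas_gm int_Pm)
open Pool.Agent.W_7d29a1_C0.Swap57 (NI cE2 NI_nonneg)
open Pool.W7d29a1.C0 (gm gz gz_pos gm_nonneg gm_mono gm_const)
open Pool.W7d29a1.C0.VT31 (Mp cE gm_mul_cE fz cE_sum cE_mono cE_nonneg)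
open Pool.W7d29a1.C0.R43 (Tau Rp mI bI st swP_pJ tau_rp st_end le_st)
open Pool.W7d29a1.C0.O1 (Gz okE en)
open Pool.Agent.W_7d29a1_C0.P86
open scoped ENNReal

/-! ### The three events -/

section Ev

variable {Q : Finset (Finset ℕ)} {Y : Type*} [DecidableEq Y]

theorem ni_le1 (i j : ℕ) (S S' : Px Q) : NI i j S S' ≤ 1 := by
  unfold NI
  split_ifs <;> norm_num

/-- Some mass misses `x` on a piece of the region and meets `x` on `[g0, g1]`. -/
def EvI (w : Px Q → ℝ) (p : Px Q → Y) (τ l q g0 g1 : ℕ) (e1 : ℝ) (x : Px Q) : Prop :=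
  ∃ n < 3 * q, e1 < cE w p (fun v => NI (st τ l n) (st τ l n + l) x v * (1 - NI g0 g1 x v)) x

/-- Some mass misses `x` on `[g0, g1]` and meets `x` in the region. -/
def EvII (w : Px Q → ℝ) (p : Px Q → Y) (τ l q g0 g1 : ℕ) (e1 : ℝ) (x : Px Q) : Prop :=
  e1 < cE w p (fun v => NI g0 g1 x v * (1 - NI τ (en τ l q) x v)) x

/-- Three branches in the region. -/
def EvT (w : Px Q → ℝ) (p : Px Q → Y) (τ l q : ℕ) (d3 : ℝ) (x : Px Q) : Prop :=
  d3 < cE2 w p (fun u v => NI τ (en τ l q) x u * (NI τ (en τ l q) x v * NI τ (en τ l q) u v)) x x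

/-- A tie in one of the pieces. -/
def TieP (w : Px Q → ℝ) (p : Px Q → Y) (τ l q : ℕ) (d : ℝ) (x : Px Q) : Prop := ∃ n < 3 * q, d < mI w p (st τ l n) (st τ l n + l) x

theorem tieP_of {w : Px Q → ℝ} {p : Px Q → Y} {τ l q : ℕ} {d : ℝ} {x : Px Q} (h : bI w p τ l q d x = 0) : TieP w p τ l q d x := by
  classical
  by_contra hcon
  unfold TieP at hcon
  push Not at hcon
  unfold bI at h
  rw [if_pos hcon] at h
  exact one_ne_zero h

theorem tieP_not [Nonempty (Px Q)] {w : Px Q → ℝ} {p : Px Q → Y} {τ l q : ℕ} {d : ℝ} {x : Px Q} (h : ¬ bI w p τ l q d x = 1) : TieP w p τ l q d x := by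
  rcases Pool.W7d29a1.C0.O1.bI01 w p τ l q d x with g | g
  · exact tieP_of g
  · exact absurd g h

/-- **What `¬ okE` means.** -/
theorem not_okE {w : Px Q → ℝ} {p : Px Q → Y} {Bo : Px Q → Prop} {q : ℕ} {d e1 d3 : ℝ} {g0 g1 τ1 l1 τ2 l2 : ℕ} {x : Px Q}
    (h : ¬ okE w p Bo q d e1 d3 g0 g1 τ1 l1 τ2 l2 x) : ¬ Bo x ∧ TieP w p τ1 l1 q d x ∧
      (EvI w p τ2 l2 q g0 g1 e1 x ∨ EvII w p τ2 l2 q g0 g1 e1 x ∨ EvT w p τ2 l2 q d3 x) := by
  unfold okE at h
  push Not at h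
  obtain ⟨h1, h2, h3⟩ := h
  refine ⟨h1, tieP_of h2, ?_⟩
  by_contra hcon
  push Not at hcon
  obtain ⟨a, b, c⟩ := hcon
  unfold EvI at a
  push Not at a
  exact h3 ⟨a, not_lt.1 b, not_lt.1 c⟩

end Ev

variable {μ : Measure ℝ} {s : ℝ} {N : ℕ}

/-! ### Events of masses as places -/

open Classical in
/-- The indicator of an event of the base path. -/
noncomputable def iE {y : ℕ} (E : Env × Finset ℕ → Px (Pn N y) → Prop) (ω : Env × Finset ℕ) (x : Px (Pn N y)) : ℝ := if E ω x then 1 else 0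

theorem iE_mem {y : ℕ} (E : Env × Finset ℕ → Px (Pn N y) → Prop) (ω : Env × Finset ℕ) (x : Px (Pn N y)) : 0 ≤ iE E ω x ∧ iE E ω x ≤ 1 := by
  unfold iE
  split_ifs <;> norm_num

theorem iE_one {y : ℕ} {E : Env × Finset ℕ → Px (Pn N y) → Prop} {ω : Env × Finset ℕ} {x : Px (Pn N y)} (h : E ω x) : iE E ω x = 1 := if_pos h

theorem iE_zero {y : ℕ} {E : Env × Finset ℕ → Px (Pn N y) → Prop} {ω : Env × Finset ℕ} {x : Px (Pn N y)} (h : ¬ E ω x) : iE E ω x = 0 :=
  if_neg h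

/-- **An event which forces a mass of gaps is dominated by a place.** -/
theorem dom_ev {y : ℕ} {X M e : ℝ} {p : Plc} (hT : ¬ p.T) (he : Real.exp (-X) ≤ e) {E : Env × Finset ℕ → Px (Pn N y) → Prop}
    (A : Finset ℕ → Finset ℕ → Prop) (n₁ : ℕ) (u v : ℕ → ℕ) (hn : (n₁ : ℝ) ≤ X)
    (huv : ∀ n < n₁, p.U ≤ u n ∧ u n + p.l ≤ v n ∧ v n ≤ p.V)
    (hA : ∀ S S', S ⊆ range N → S' ⊆ range N → pos S N = y → pos S' N = y → (∀ j, j ≤ p.c ∨ p.d ≤ j → pos S j = pos S' j) →
        A S S' → ∃ n < n₁, Gap p.c' p.d' (u n) (v n) S S')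
    (hE : ∀ ω x, E ω x → e ≤ mc μ s N y p.c p.d A ω.1 x.1) : Dom μ s N y X M p (iE E) := by
  refine ⟨fun ω x => (iE_mem E ω x).1, fun ω x => (iE_mem E ω x).2, Or.inl ⟨hT, A, n₁, u, v, hn, huv, hA, fun ω x => ?_⟩⟩
  by_cases h : E ω x
  · rw [iE_one h]
    have h1 := mul_le_mul_of_nonneg_left (he.trans (hE ω x h)) (Real.exp_pos X).le
    rwa [← Real.exp_add, add_neg_cancel, Real.exp_zero] at h1
  · rw [iE_zero h]
    exact mul_nonneg (Real.exp_pos _).le (mc_nonneg _ _)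

theorem NI_eq_ite {y : ℕ} {i j : ℕ} (x v : Px (Pn N y)) [Decidable (NoMeet i j x.1 v.1)] :
    NI i j x v = if NoMeet i j x.1 v.1 then 1 else 0 := by
  unfold NI
  exact if_congr Iff.rfl rfl rfl

/-- Mass against `mc`. -/
theorem cE_le_mc {y c d : ℕ} {A : Finset ℕ → Finset ℕ → Prop} (η : Env) {φ : Px (Pn N y) → ℝ} (x : Px (Pn N y))
    (hφ : ∀ v, φ v ≤ 1) (hA : ∀ v, φ v ≤ 0 ∨ A x.1 v.1) :
    cE (lw μ s η N (Pn N y)) (pJ c d) φ x ≤ mc μ s N y c d A η x.1 := by
  classical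
  have : Nonempty (Px (Pn N y)) := ⟨x⟩
  rw [← exP_cE]
  refine cE_mono _ _ (fun v => ?_) x
  rcases hA v with h | h
  · split_ifs
    · linarith
    · exact h
  · rw [if_pos h]
    exact hφ v

/-! ### The events as places -/

/-- The tie in the pieces, as a place with the whole block. -/
theorem dom_tie {y c d τ l q : ℕ} {X M e : ℝ} (hX : 3 * (q : ℝ) ≤ X) (he : Real.exp (-X) ≤ e) (h1 : c ≤ τ) (h2 : en τ l q ≤ d) (ty : Ty) :
    Dom μ s N y X M ⟨c, d, c, d, τ, en τ l q, l, ty, False⟩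
      (iE fun ω x => TieP (wm μ s N (Pn N y) ω) (pJ c d) τ l q e x) := by
  refine dom_ev (e := e) (fun h => h) he (fun S S' => ∃ n < 3 * q, NoMeet (st τ l n) (st τ l n + l) S S') (3 * q) (fun n => st τ l n)
    (fun n => st τ l n + l) (by push_cast; exact hX) (fun n hn => ⟨le_st τ l n, le_rfl, st_end hn⟩)
    (fun S S' _ _ _ _ hag hA => ?_) (fun ω x hE => ?_)
  · obtain ⟨n, hn, hm⟩ := hA
    have a1 := le_st τ l n
    have a2 : st τ l n + l ≤ en τ l q := st_end hn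
    exact ⟨n, hn, gap_of_nm (by show c ≤ st τ l n; omega) (by show st τ l n + l ≤ d; omega) hag hm⟩
  · obtain ⟨n, hn, hm⟩ := hE
    refine hm.le.trans ?_
    exact cE_le_mc ω.1 x (fun v => ni_le1 _ _ _ _) fun v => by
      by_cases h : NoMeet (st τ l n) (st τ l n + l) x.1 v.1
      · exact Or.inr ⟨n, hn, h⟩
      · left
        classical
        rw [NI_eq_ite, if_neg h]

/-- `EvI`, `g*` behind the region: closing in `g*`. -/
theorem dom_I {y c d τ l q g0 g1 : ℕ} {X M e : ℝ} (hX : 3 * (q : ℝ) ≤ X) (he : Real.exp (-X) ≤ e) (h1 : c ≤ τ) (h2 : en τ l q ≤ g0)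
    (ty : Ty) : Dom μ s N y X M ⟨c, d, c, g1, τ, en τ l q, l, ty, False⟩
      (iE fun ω x => EvI (wm μ s N (Pn N y) ω) (pJ c d) τ l q g0 g1 e x) := by
  classical
  refine dom_ev (e := e) (fun h => h) he
    (fun S S' => (∃ n < 3 * q, NoMeet (st τ l n) (st τ l n + l) S S') ∧ ∃ k, g0 ≤ k ∧ k ≤ g1 ∧ pos S k = pos S' k) (3 * q)
    (fun n => st τ l n) (fun n => st τ l n + l) (by push_cast; exact hX) (fun n hn => ⟨le_st τ l n, le_rfl, st_end hn⟩)
    (fun S S' _ _ _ _ hag hA => ?_) (fun ω x hE => ?_)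
  · obtain ⟨⟨n, hn, hm⟩, k, hk0, hk1, hk⟩ := hA
    have a1 := le_st τ l n
    have a2 : st τ l n + l ≤ en τ l q := st_end hn
    exact ⟨n, hn, c, k, le_rfl, by show c ≤ st τ l n; omega, by show st τ l n + l ≤ k; omega, hk1, hag c (Or.inl le_rfl), hk, hm⟩
  · obtain ⟨n, hn, hm⟩ := hE
    refine hm.le.trans ?_
    refine cE_le_mc ω.1 x (fun v => ?_) fun v => ?_
    · have a1 := NI_nonneg g0 g1 x v
      have a2 := ni_le1 g0 g1 x v
      exact mul_le_one₀ (ni_le1 _ _ _ _) (by linarith) (by linarith)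
    · rw [NI_eq_ite (i := st τ l n) (j := st τ l n + l), NI_eq_ite (i := g0) (j := g1)]
      by_cases h : NoMeet (st τ l n) (st τ l n + l) x.1 v.1
      · by_cases h' : NoMeet g0 g1 x.1 v.1
        · left
          rw [if_pos h']
          norm_num
        · right
          unfold NoMeet at h'
          push Not at h'
          obtain ⟨k, k0, k1, hk⟩ := h'
          exact ⟨⟨n, hn, h⟩, k, k0, k1, hk⟩
      · left
        rw [if_neg h, zero_mul]

/-- `EvI`, `g*` in front of the region: opening in `g*`. -/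
theorem dom_I' {y c d τ l q g0 g1 : ℕ} {X M e : ℝ} (hX : 3 * (q : ℝ) ≤ X) (he : Real.exp (-X) ≤ e) (h1 : g1 ≤ τ) (h2 : en τ l q ≤ d)
    (ty : Ty) : Dom μ s N y X M ⟨c, d, g0, d, τ, en τ l q, l, ty, False⟩
      (iE fun ω x => EvI (wm μ s N (Pn N y) ω) (pJ c d) τ l q g0 g1 e x) := by
  classical
  refine dom_ev (e := e) (fun h => h) he
    (fun S S' => (∃ n < 3 * q, NoMeet (st τ l n) (st τ l n + l) S S') ∧ ∃ k, g0 ≤ k ∧ k ≤ g1 ∧ pos S k = pos S' k) (3 * q)
    (fun n => st τ l n) (fun n => st τ l n + l) (by push_cast; exact hX) (fun n hn => ⟨le_st τ l n, le_rfl, st_end hn⟩)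
    (fun S S' _ _ _ _ hag hA => ?_) (fun ω x hE => ?_)
  · obtain ⟨⟨n, hn, hm⟩, k, hk0, hk1, hk⟩ := hA
    have a1 := le_st τ l n
    have a2 : st τ l n + l ≤ en τ l q := st_end hn
    exact ⟨n, hn, k, d, hk0, by show k ≤ st τ l n; omega, by show st τ l n + l ≤ d; omega, le_rfl, hk, hag d (Or.inr le_rfl), hm⟩
  · obtain ⟨n, hn, hm⟩ := hE
    refine hm.le.trans ?_
    refine cE_le_mc ω.1 x (fun v => ?_) fun v => ?_
    · have a1 := NI_nonneg g0 g1 x v
      have a2 := ni_le1 g0 g1 x v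
      exact mul_le_one₀ (ni_le1 _ _ _ _) (by linarith) (by linarith)
    · rw [NI_eq_ite (i := st τ l n) (j := st τ l n + l), NI_eq_ite (i := g0) (j := g1)]
      by_cases h : NoMeet (st τ l n) (st τ l n + l) x.1 v.1
      · by_cases h' : NoMeet g0 g1 x.1 v.1
        · left
          rw [if_pos h']
          norm_num
        · right
          unfold NoMeet at h'
          push Not at h'
          obtain ⟨k, k0, k1, hk⟩ := h'
          exact ⟨⟨n, hn, h⟩, k, k0, k1, hk⟩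
      · left
        rw [if_neg h, zero_mul]

/-- `EvII`, `g*` behind the region: opening in the region. -/
theorem dom_II {y c d τ l q g0 g1 : ℕ} {X M e : ℝ} (hX : 1 ≤ X) (he : Real.exp (-X) ≤ e) (h2 : en τ l q ≤ g0) (h3 : g0 ≤ g1)
    (h4 : g1 ≤ d) (ty : Ty) : Dom μ s N y X M ⟨c, d, τ, d, g0, g1, g1 - g0, ty, False⟩
      (iE fun ω x => EvII (wm μ s N (Pn N y) ω) (pJ c d) τ l q g0 g1 e x) := by
  classical
  refine dom_ev (e := e) (fun h => h) he
    (fun S S' => NoMeet g0 g1 S S' ∧ ∃ k, τ ≤ k ∧ k ≤ en τ l q ∧ pos S k = pos S' k) 1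
    (fun _ => g0) (fun _ => g1) (by simpa using hX) (fun n _ => ⟨le_rfl, by show g0 + (g1 - g0) ≤ g1; omega, le_rfl⟩)
    (fun S S' _ _ _ _ hag hA => ?_) (fun ω x hE => ?_)
  · obtain ⟨hm, k, hk0, hk1, hk⟩ := hA
    exact ⟨0, by norm_num, k, d, hk0, by show k ≤ g0; omega, h4, le_rfl, hk, hag d (Or.inr le_rfl), hm⟩
  · refine hE.le.trans ?_
    refine cE_le_mc ω.1 x (fun v => ?_) fun v => ?_
    · have a1 := NI_nonneg τ (en τ l q) x v
      have a2 := ni_le1 τ (en τ l q) x v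
      exact mul_le_one₀ (ni_le1 _ _ _ _) (by linarith) (by linarith)
    · rw [NI_eq_ite (i := τ) (j := en τ l q), NI_eq_ite (i := g0) (j := g1)]
      by_cases h : NoMeet g0 g1 x.1 v.1
      · by_cases h' : NoMeet τ (en τ l q) x.1 v.1
        · left
          rw [if_pos h']
          norm_num
        · right
          unfold NoMeet at h'
          push Not at h'
          obtain ⟨k, k0, k1, hk⟩ := h'
          exact ⟨h, k, k0, k1, hk⟩
      · left
        rw [if_neg h, zero_mul]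

/-- `EvII`, `g*` in front of the region: closing in the region. -/
theorem dom_II' {y c d τ l q g0 g1 : ℕ} {X M e : ℝ} (hX : 1 ≤ X) (he : Real.exp (-X) ≤ e) (h2 : g1 ≤ τ) (h3 : g0 ≤ g1)
    (h4 : c ≤ g0) (ty : Ty) : Dom μ s N y X M ⟨c, d, c, en τ l q, g0, g1, g1 - g0, ty, False⟩
      (iE fun ω x => EvII (wm μ s N (Pn N y) ω) (pJ c d) τ l q g0 g1 e x) := by
  classical
  refine dom_ev (e := e) (fun h => h) he
    (fun S S' => NoMeet g0 g1 S S' ∧ ∃ k, τ ≤ k ∧ k ≤ en τ l q ∧ pos S k = pos S' k) 1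
    (fun _ => g0) (fun _ => g1) (by simpa using hX) (fun n _ => ⟨le_rfl, by show g0 + (g1 - g0) ≤ g1; omega, le_rfl⟩)
    (fun S S' _ _ _ _ hag hA => ?_) (fun ω x hE => ?_)
  · obtain ⟨hm, k, hk0, hk1, hk⟩ := hA
    exact ⟨0, by norm_num, c, k, le_rfl, h4, by show g1 ≤ k; omega, hk1, hag c (Or.inl le_rfl), hk, hm⟩
  · refine hE.le.trans ?_
    refine cE_le_mc ω.1 x (fun v => ?_) fun v => ?_
    · have a1 := NI_nonneg τ (en τ l q) x v
      have a2 := ni_le1 τ (en τ l q) x v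
      exact mul_le_one₀ (ni_le1 _ _ _ _) (by linarith) (by linarith)
    · rw [NI_eq_ite (i := τ) (j := en τ l q), NI_eq_ite (i := g0) (j := g1)]
      by_cases h : NoMeet g0 g1 x.1 v.1
      · by_cases h' : NoMeet τ (en τ l q) x.1 v.1
        · left
          rw [if_pos h']
          norm_num
        · right
          unfold NoMeet at h'
          push Not at h'
          obtain ⟨k, k0, k1, hk⟩ := h'
          exact ⟨h, k, k0, k1, hk⟩
      · left
        rw [if_neg h, zero_mul]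

end Pool.Agent.W_7d29a1_C0.P15
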