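import Pool.Agent.W_7d29a1_C0.OkE15

/-!
MP_7d29a1_pr, [CURV0] / [C0] (helper15): THE PRICE OF `¬ okE` (`okE_price`: own behind, `okE_priceL`: own in front). The own tie is any place
`Po` on the far side of `g*`; the spectator `f` is blind to finite changes of the rows. `okE_split` adds the price of the three branches.
-/

set_option autoImplicit false

namespace Pool.Agent.W_7d29a1_C0.P15

open MeasureTheory ProbabilityTheory Filter Topology Finset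
open Pool.Agent.W_7d29a1_F Pool.Agent.W_7d29a1_X Pool.Agent.W_7d29a1_h4g Pool.Agent.W_7d29a1_H
open Pool.Agent.W_7d29a1_HS (In wd md)
open Pool.Agent.W_7d29a1_HZ Pool.Agent.W_7d29a1_HZ.R72 Pool.Agent.W_7d29a1_Z.Asm72
open Pool.Agent.W_7d29a1_HZ.Z86
open Pool.Agent.W_7d29a1_C0.Mod92 (Px Pn lw ps pJ ne_Pn ps_Pn pos_card ps_of_le ps_of_ge wm Pm meas_lw meas_cE meas_gz meas_gm meas_wm int_Pm)
open Pool.Agent.W_7d29a1_C0.Swap57 (NI cE2 NI_nonneg)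
open Pool.W7d29a1.C0 (gm gz gz_pos gm_nonneg gm_mono gm_const gm_add)
open Pool.W7d29a1.C0.VT31 (Mp cE gm_mul_cE fz cE_sum cE_mono cE_nonneg)
open Pool.W7d29a1.C0.R43 (Tau Rp mI bI st swP_pJ tau_rp st_end le_st)
open Pool.W7d29a1.C0.O1 (Gz okE en)
open Pool.Agent.W_7d29a1_C0.P86
open scoped ENNReal

variable {μ : Measure ℝ} {s : ℝ} {N : ℕ}

/-- Blind to finite changes of the rows `J`. -/
def FinB {y : ℕ} (J : Finset ℕ) (f : Env × Finset ℕ → Px (Pn N y) → ℝ) : Prop :=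
  ∀ (η η' : Env) (A : Finset ℕ) (x : Px (Pn N y)),
    (∃ E : Finset Pt, (∀ q ∈ E, 0 ≤ q.1 ∧ q.1.toNat ∈ J) ∧ ∀ q, q ∉ E → η q = η' q) → f (η, A) x = f (η', A) x

theorem FinB.mono {y : ℕ} {J J' : Finset ℕ} {f : Env × Finset ℕ → Px (Pn N y) → ℝ} (h : FinB J f) (hJ : J' ⊆ J) : FinB J' f :=
  fun η η' A x ⟨E, h1, h2⟩ => h η η' A x ⟨E, fun q hq => ⟨(h1 q hq).1, hJ (h1 q hq).2⟩, h2⟩

theorem meas_sec {Φ : Env × Finset ℕ → ℝ} (hm : ∀ A, Measurable fun η => Φ (η, A)) : Measurable Φ := by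
  intro U hU
  have e : Φ ⁻¹' U = ⋃ A : Finset ℕ, ((fun η => Φ (η, A)) ⁻¹' U) ×ˢ {A} := by
    ext ⟨η, A⟩
    simp
  rw [e]
  exact MeasurableSet.iUnion fun A => (hm A hU).prod (MeasurableSet.singleton A)

theorem gm01 {y : ℕ} (hy : y ≤ N) {f : Env × Finset ℕ → Px (Pn N y) → ℝ} (h0 : ∀ ω x, 0 ≤ f ω x) {B : ℝ} (h1 : ∀ ω x, f ω x ≤ B)
    (ω : Env × Finset ℕ) : 0 ≤ gm (wm μ s N (Pn N y) ω) (f ω) ∧ gm (wm μ s N (Pn N y) ω) (f ω) ≤ B := by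
  have := ne_Pn (N := N) (y := y) hy
  refine ⟨gm_nonneg _ (h0 ω), ?_⟩
  have h2 := gm_mono (wm μ s N (Pn N y) ω) (h1 ω)
  rwa [gm_const] at h2

variable [IsProbabilityMeasure μ]

theorem ig15 {y : ℕ} (hy : y ≤ N) {f : Env × Finset ℕ → Px (Pn N y) → ℝ} (hm : ∀ A x, Measurable fun η => f (η, A) x)
    (h0 : ∀ ω x, 0 ≤ f ω x) {B : ℝ} (h1 : ∀ ω x, f ω x ≤ B) : Integrable (fun ω => gm (wm μ s N (Pn N y) ω) (f ω)) (Pm μ N) := by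
  have := ne_Pn (N := N) (y := y) hy
  have hmm : Measurable fun ω => gm (wm μ s N (Pn N y) ω) (f ω) := meas_gm meas_wm fun x => meas_sec fun A => hm A x
  refine (integrable_const B).mono' hmm.aestronglyMeasurable (Filter.Eventually.of_forall fun ω => ?_)
  have h2 := gm01 (μ := μ) (s := s) hy h0 h1 ω
  rw [Real.norm_eq_abs, abs_of_nonneg h2.1]
  exact h2.2

/-- Two dominating functionals. -/
theorem int_two {y : ℕ} (hy : y ≤ N) {F G₁ G₂ : Env × Finset ℕ → Px (Pn N y) → ℝ} (hF0 : ∀ ω x, 0 ≤ F ω x)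
    (hle : ∀ ω x, F ω x ≤ G₁ ω x + G₂ ω x)
    (m1 : ∀ A x, Measurable fun η => G₁ (η, A) x) (m2 : ∀ A x, Measurable fun η => G₂ (η, A) x)
    (n1 : ∀ ω x, 0 ≤ G₁ ω x) (n2 : ∀ ω x, 0 ≤ G₂ ω x) (b1 : ∀ ω x, G₁ ω x ≤ 1) (b2 : ∀ ω x, G₂ ω x ≤ 1) {C₁ C₂ : ℝ}
    (h1 : ∫ ω, gm (wm μ s N (Pn N y) ω) (G₁ ω) ∂(Pm μ N) ≤ C₁) (h2 : ∫ ω, gm (wm μ s N (Pn N y) ω) (G₂ ω) ∂(Pm μ N) ≤ C₂) :
    ∫ ω, gm (wm μ s N (Pn N y) ω) (F ω) ∂(Pm μ N) ≤ C₁ + C₂ := by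
  have := ne_Pn (N := N) (y := y) hy
  have i1 := ig15 (μ := μ) (s := s) hy m1 n1 b1
  have i2 := ig15 (μ := μ) (s := s) hy m2 n2 b2
  have h3 : ∫ ω, gm (wm μ s N (Pn N y) ω) (F ω) ∂(Pm μ N) ≤
      ∫ ω, (gm (wm μ s N (Pn N y) ω) (G₁ ω) + gm (wm μ s N (Pn N y) ω) (G₂ ω)) ∂(Pm μ N) := by
    refine integral_mono_of_nonneg (Filter.Eventually.of_forall fun ω => gm_nonneg _ (hF0 ω)) (i1.add i2)
      (Filter.Eventually.of_forall fun ω => ?_)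
    have h4 := gm_mono (wm μ s N (Pn N y) ω) (hle ω)
    have h5 : gm (wm μ s N (Pn N y) ω) (fun x => G₁ ω x + G₂ ω x) =
        gm (wm μ s N (Pn N y) ω) (G₁ ω) + gm (wm μ s N (Pn N y) ω) (G₂ ω) := gm_add _ _ _
    rw [h5] at h4
    exact h4
  rw [integral_add i1 i2] at h3
  linarith

variable {c₀ C₀ : ℝ} {n₀ : ℕ}

/-- **Two places, lengths at least `l`.** -/
theorem two15 (h : In μ s c₀ C₀ n₀) : ∀ ε θ : ℝ, 0 < ε → 0 < θ → ∃ δ κ c₂ : ℝ, 0 < δ ∧ 0 < κ ∧ 0 < c₂ ∧ ∃ L₀ : ℕ,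
    ∀ L : ℕ, L₀ ≤ L → ∀ N : ℕ, L ≤ 16 * N → N ≤ L → ∀ y : ℕ, y ≤ N → |(y : ℝ) - sl μ s * N| ≤ ((L : ℝ) ^ δ * wd' μ s N) →
    ∀ M : ℝ, 8 ≤ M → M ≤ (L : ℝ) ^ κ → ∀ (P₁ P₂ : Plc) (l : ℕ), P₁.Ok L N θ → P₂.Ok L N θ → l ≤ P₁.l → l ≤ P₂.l → P₁.Bef P₂ →
    ∀ G₁ G₂ : Env × Finset ℕ → Px (Pn N y) → ℝ, Dom μ s N y ((L : ℝ) ^ κ) M P₁ G₁ → Dom μ s N y ((L : ℝ) ^ κ) M P₂ G₂ →
    ∀ f : Env × Finset ℕ → Px (Pn N y) → ℝ, (∀ A x, Measurable fun η => f (η, A) x) → (∀ ω x, 0 ≤ f ω x) → (∀ ω x, f ω x ≤ 1) →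
    FinB P₁.J f → FinB P₂.J f →
    ∫ ω, gm (wm μ s N (Pn N y) ω) (fun x => f ω x * (G₁ ω x * G₂ ω x)) ∂(Pm μ N) ≤
      ((L : ℝ) ^ ε * (EE' μ s l)⁻¹) ^ 2 * ∫ ω, gm (wm μ s N (Pn N y) ω) (f ω) ∂(Pm μ N) +
        (Real.exp (-(L : ℝ) ^ c₂) + 4 * Real.exp (-M)) := by
  intro ε θ hε hθ
  obtain ⟨δ, κ, c₂, hδ, hκ, hc₂, L₀, hP⟩ := price_listF h 2 (by norm_num) ε θ hε hθ
  refine ⟨δ, κ, c₂, hδ, hκ, hc₂, L₀, ?_⟩
  intro L hL N hLN hNL y hyN hyc M hM hML P₁ P₂ l k1 k2 l1 l2 hB G₁ G₂ d1 d2 f hfm hf0 hf1 hF1 hF2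
  have hE : ∀ n, (0 : ℝ) < EE' μ s n := fun n => lt_of_lt_of_le one_pos (le_max_left _ _)
  have hp := hP L hL N hLN hNL y hyN hyc M hM hML [(P₁, G₁), (P₂, G₂)] rfl (by
      intro P hP
      simp only [List.mem_cons, List.not_mem_nil, or_false] at hP
      rcases hP with hP | hP <;> subst hP
      · exact k1
      · exact k2) (by
      simp only [List.pairwise_cons, List.mem_cons, List.not_mem_nil, or_false, forall_eq, IsEmpty.forall_iff, implies_true,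
        List.Pairwise.nil, and_true]
      exact hB) (by
      intro P hP
      simp only [List.mem_cons, List.not_mem_nil, or_false] at hP
      rcases hP with hP | hP <;> subst hP
      · exact d1
      · exact d2) f hfm hf0 hf1 (by
      intro P hP
      simp only [List.mem_cons, List.not_mem_nil, or_false] at hP
      rcases hP with hP | hP <;> subst hP
      · exact hF1
      · exact hF2)
  simp only [List.map_cons, List.map_nil, List.prod_cons, List.prod_nil, mul_one, Nat.cast_ofNat] at hp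
  have g0 : 0 ≤ ∫ ω, gm (wm μ s N (Pn N y) ω) (f ω) ∂(Pm μ N) := integral_nonneg fun ω => (gm01 (μ := μ) (s := s) hyN hf0 hf1 ω).1
  have hmon : ∀ a : ℕ, l ≤ a → (L : ℝ) ^ ε * (EE' μ s a)⁻¹ ≤ (L : ℝ) ^ ε * (EE' μ s l)⁻¹ := fun a ha => by
    have h1 := EE'_le_mul86 (μ := μ) (s := s) h (m := l) (n := a) (k := 1) le_rfl (by omega)
    rw [Nat.cast_one, one_mul] at h1
    exact mul_le_mul_of_nonneg_left (inv_anti₀ (hE l) h1) (by positivity)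
  have hn : ∀ a : ℕ, 0 ≤ (L : ℝ) ^ ε * (EE' μ s a)⁻¹ := fun a => mul_nonneg (by positivity) (inv_nonneg.2 (hE a).le)
  have h2 : (L : ℝ) ^ ε * (EE' μ s P₁.l)⁻¹ * ((L : ℝ) ^ ε * (EE' μ s P₂.l)⁻¹) ≤ ((L : ℝ) ^ ε * (EE' μ s l)⁻¹) ^ 2 := by
    rw [pow_two]
    exact mul_le_mul (hmon _ l1) (hmon _ l2) (hn _) (hn _)
  refine hp.trans (add_le_add (mul_le_mul_of_nonneg_right h2 g0) (le_of_eq ?_))
  ring

/-! ### The events are measurable -/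

omit [IsProbabilityMeasure μ] in
theorem iE_meas {y : ℕ} {E : Env × Finset ℕ → Px (Pn N y) → Prop} (h : ∀ A x, MeasurableSet {η : Env | E (η, A) x}) (A : Finset ℕ)
    (x : Px (Pn N y)) : Measurable fun η => iE E (η, A) x := by
  classical
  unfold iE
  exact Measurable.ite (h A x) measurable_const measurable_const

omit [IsProbabilityMeasure μ] in
theorem meas_tieP {y : ℕ} (c d τ l q : ℕ) (e : ℝ) (A : Finset ℕ) (x : Px (Pn N y)) :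
    MeasurableSet {η : Env | TieP (wm μ s N (Pn N y) (η, A)) (pJ c d) τ l q e x} := by
  have e1 : {η : Env | TieP (wm μ s N (Pn N y) (η, A)) (pJ c d) τ l q e x} =
      ⋃ n ∈ range (3 * q), {η : Env | e < mI (lw μ s η N (Pn N y)) (pJ c d) (st τ l n) (st τ l n + l) x} := by
    ext η
    simp only [TieP, wm, Set.mem_ofPred_eq, Set.mem_iUnion, mem_range, exists_prop]
  rw [e1]
  have : Nonempty (Px (Pn N y)) := ⟨x⟩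
  refine Finset.measurableSet_biUnion _ fun n _ => measurableSet_lt measurable_const ?_
  exact meas_cE (w := fun η => lw μ s η N (Pn N y)) (f := fun _ => NI (st τ l n) (st τ l n + l) x) meas_lw (fun _ => measurable_const) _ x

omit [IsProbabilityMeasure μ] in
theorem meas_evI {y : ℕ} (c d τ l q g0 g1 : ℕ) (e : ℝ) (A : Finset ℕ) (x : Px (Pn N y)) :
    MeasurableSet {η : Env | EvI (wm μ s N (Pn N y) (η, A)) (pJ c d) τ l q g0 g1 e x} := by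
  have e1 : {η : Env | EvI (wm μ s N (Pn N y) (η, A)) (pJ c d) τ l q g0 g1 e x} =
      ⋃ n ∈ range (3 * q), {η : Env | e < cE (lw μ s η N (Pn N y)) (pJ c d)
        (fun v => NI (st τ l n) (st τ l n + l) x v * (1 - NI g0 g1 x v)) x} := by
    ext η
    simp only [EvI, wm, Set.mem_ofPred_eq, Set.mem_iUnion, mem_range, exists_prop]
  rw [e1]
  have : Nonempty (Px (Pn N y)) := ⟨x⟩
  refine Finset.measurableSet_biUnion _ fun n _ => measurableSet_lt measurable_const ?_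
  exact meas_cE (w := fun η => lw μ s η N (Pn N y)) (f := fun _ v => NI (st τ l n) (st τ l n + l) x v * (1 - NI g0 g1 x v))
    meas_lw (fun _ => measurable_const) _ x

omit [IsProbabilityMeasure μ] in
theorem meas_evII {y : ℕ} (c d τ l q g0 g1 : ℕ) (e : ℝ) (A : Finset ℕ) (x : Px (Pn N y)) :
    MeasurableSet {η : Env | EvII (wm μ s N (Pn N y) (η, A)) (pJ c d) τ l q g0 g1 e x} := by
  have : Nonempty (Px (Pn N y)) := ⟨x⟩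
  refine measurableSet_lt measurable_const ?_
  exact meas_cE (w := fun η => lw μ s η N (Pn N y)) (f := fun _ v => NI g0 g1 x v * (1 - NI τ (en τ l q) x v))
    meas_lw (fun _ => measurable_const) _ x

/-! ### The prices -/

/-- **THE PRICE OF `¬ okE`, OWN BEHIND**: region 1 < region 2 < `[g0, g1]` < own. -/
theorem okE_price (h : In μ s c₀ C₀ n₀) : ∀ ε θ : ℝ, 0 < ε → 0 < θ → ∃ δ κ c₂ : ℝ, 0 < δ ∧ 0 < κ ∧ 0 < c₂ ∧ ∃ L₀ : ℕ,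
    ∀ L : ℕ, L₀ ≤ L → ∀ N : ℕ, L ≤ 16 * N → N ≤ L → ∀ y : ℕ, y ≤ N → |(y : ℝ) - sl μ s * N| ≤ ((L : ℝ) ^ δ * wd' μ s N) →
    ∀ M : ℝ, 8 ≤ M → M ≤ (L : ℝ) ^ κ → ∀ c d τ1 l1 τ2 l2 q g0 g1 l D : ℕ, c ≤ τ1 → en τ1 l1 q ≤ τ2 → en τ2 l2 q ≤ g0 → g0 + l ≤ g1 →
    g1 ≤ d → d ≤ N → d ≤ D → 3 * (q : ℝ) ≤ (L : ℝ) ^ κ → (L : ℝ) ^ θ ≤ l → l ≤ l1 → l ≤ l2 →
    ∀ Po : Plc, Po.ty = Ty.R → Po.Ok L N θ → l ≤ Po.l → g1 ≤ Po.U → Po.d' ≤ D → ∀ Go : Env × Finset ℕ → Px (Pn N y) → ℝ,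
    (∀ A x, Measurable fun η => Go (η, A) x) → Dom μ s N y ((L : ℝ) ^ κ) M Po Go →
    ∀ Bo : Env × Finset ℕ → Px (Pn N y) → Prop, (∀ ω x, ¬ Bo ω x → Go ω x = 1) →
    ∀ dd e1 d3 : ℝ, Real.exp (-(L : ℝ) ^ κ) ≤ dd → Real.exp (-(L : ℝ) ^ κ) ≤ e1 →
    ∀ f : Env × Finset ℕ → Px (Pn N y) → ℝ, (∀ A x, Measurable fun η => f (η, A) x) → (∀ ω x, 0 ≤ f ω x) → (∀ ω x, f ω x ≤ 1) →
    FinB (Ioo c D) f →
    ∫ ω, gm (wm μ s N (Pn N y) ω) (fun x => f ω x * iE (fun ω x =>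
      ¬ okE (wm μ s N (Pn N y) ω) (pJ c d) (Bo ω) q dd e1 d3 g0 g1 τ1 l1 τ2 l2 x ∧
      ¬ EvT (wm μ s N (Pn N y) ω) (pJ c d) τ2 l2 q d3 x) ω x) ∂(Pm μ N) ≤
      2 * ((L : ℝ) ^ ε * (EE' μ s l)⁻¹) ^ 2 * ∫ ω, gm (wm μ s N (Pn N y) ω) (f ω) ∂(Pm μ N) +
        2 * (Real.exp (-(L : ℝ) ^ c₂) + 4 * Real.exp (-M)) := by
  intro ε θ hε hθ
  obtain ⟨δ, κ, c₂, hδ, hκ, hc₂, L₀, hP⟩ := two15 h ε θ hε hθ
  refine ⟨δ, κ, c₂, hδ, hκ, hc₂, L₀ + 1, ?_⟩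
  intro L hL N hLN hNL y hyN hyc M hM hML c d τ1 l1 τ2 l2 q g0 g1 l D h1 h2 h3 h4 h5 h6 h7 hq hl hl1 hl2 Po hty hok hlo hgU hdD Go hGm hGo
    Bo hBo dd e1 d3 hdd he1 f hfm hf0 hf1 hfb
  have hX1 : (1 : ℝ) ≤ (L : ℝ) ^ κ := Real.one_le_rpow (by exact_mod_cast (show 1 ≤ L by omega)) hκ.le
  have en1 : τ1 ≤ en τ1 l1 q := by
    unfold en
    omega
  have en2 : τ2 ≤ en τ2 l2 q := by
    unfold en
    omega
  have hcast : ∀ a : ℕ, l ≤ a → (L : ℝ) ^ θ ≤ a := fun a ha => hl.trans (by exact_mod_cast ha)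
  obtain ⟨E1, hE1⟩ : ∃ E1, E1 = iE fun ω x => EvI (wm μ s N (Pn N y) ω) (pJ c d) τ2 l2 q g0 g1 e1 x := ⟨_, rfl⟩
  obtain ⟨E2, hE2⟩ : ∃ E2, E2 = iE fun ω x => EvII (wm μ s N (Pn N y) ω) (pJ c d) τ2 l2 q g0 g1 e1 x := ⟨_, rfl⟩
  obtain ⟨Z1, hZ1⟩ : ∃ Z1, Z1 = iE fun ω x => TieP (wm μ s N (Pn N y) ω) (pJ c d) τ1 l1 q dd x := ⟨_, rfl⟩
  have D1 := dom_I (μ := μ) (s := s) (N := N) (y := y) (M := M) (d := d) (g1 := g1) hq he1 (h1.trans (en1.trans h2)) h3 Ty.L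
  have D2 := dom_II (μ := μ) (s := s) (N := N) (y := y) (M := M) (c := c) (g1 := g1) hX1 he1 h3 (by omega) h5 Ty.L
  have D3 := dom_tie (μ := μ) (s := s) (N := N) (y := y) (M := M) hq hdd h1 (show en τ1 l1 q ≤ d by omega) Ty.M
  rw [← hE1] at D1
  rw [← hE2] at D2
  rw [← hZ1] at D3
  have mE1 : ∀ A x, Measurable fun η => E1 (η, A) x := fun A x => by
    rw [hE1]
    exact iE_meas (fun A x => meas_evI c d τ2 l2 q g0 g1 e1 A x) A x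
  have mE2 : ∀ A x, Measurable fun η => E2 (η, A) x := fun A x => by
    rw [hE2]
    exact iE_meas (fun A x => meas_evII c d τ2 l2 q g0 g1 e1 A x) A x
  have mZ1 : ∀ A x, Measurable fun η => Z1 (η, A) x := fun A x => by
    rw [hZ1]
    exact iE_meas (fun A x => meas_tieP c d τ1 l1 q dd A x) A x
  have q1 := hP L (by omega) N hLN hNL y hyN hyc M hM hML Po ⟨c, d, c, g1, τ2, en τ2 l2 q, l2, Ty.L, False⟩ l hok
    ⟨⟨le_rfl, by show c ≤ τ2; omega, en2, by show en τ2 l2 q ≤ g1; omega, h5, h6⟩, hcast _ hl2⟩ hlo hl2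
    (by unfold Plc.Bef; rw [hty]; exact Or.inl hgU) Go E1 hGo D1 f hfm hf0 hf1
    (hfb.mono (by
      unfold Plc.J
      rw [hty]
      intro j hj
      have k1 : Po.U < j ∧ j < Po.d' := mem_Ioo.1 hj
      rw [mem_Ioo]
      omega)) (hfb.mono (by
      intro j hj
      have k1 : c < j ∧ j < g1 := mem_Ioo.1 hj
      rw [mem_Ioo]
      omega))
  have q2 := hP L (by omega) N hLN hNL y hyN hyc M hM hML ⟨c, d, c, d, τ1, en τ1 l1 q, l1, Ty.M, False⟩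
    ⟨c, d, τ2, d, g0, g1, g1 - g0, Ty.L, False⟩ l
    ⟨⟨le_rfl, h1, en1, by show en τ1 l1 q ≤ d; omega, le_rfl, h6⟩, hcast _ hl1⟩
    ⟨⟨by show c ≤ τ2; omega, by show τ2 ≤ g0; omega, by show g0 ≤ g1; omega, h5, le_rfl, h6⟩, hcast _ (by show l ≤ g1 - g0; omega)⟩
    hl1 (by show l ≤ g1 - g0; omega) (Or.inl h2) Z1 E2 D3 D2 f hfm hf0 hf1
    (hfb.mono (by
      intro j hj
      have k1 : c < j ∧ j < en τ1 l1 q := mem_Ioo.1 hj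
      rw [mem_Ioo]
      omega)) (hfb.mono (by
      intro j hj
      have k1 : τ2 < j ∧ j < d := mem_Ioo.1 hj
      rw [mem_Ioo]
      omega))
  have n1 : ∀ ω x, 0 ≤ Go ω x * E1 ω x ∧ Go ω x * E1 ω x ≤ 1 := fun ω x =>
    ⟨mul_nonneg (hGo.1 ω x) (D1.1 ω x), mul_le_one₀ (hGo.2.1 ω x) (D1.1 ω x) (D1.2.1 ω x)⟩
  have n2 : ∀ ω x, 0 ≤ Z1 ω x * E2 ω x ∧ Z1 ω x * E2 ω x ≤ 1 := fun ω x =>
    ⟨mul_nonneg (D3.1 ω x) (D2.1 ω x), mul_le_one₀ (D3.2.1 ω x) (D2.1 ω x) (D2.2.1 ω x)⟩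
  have := int_two (μ := μ) (s := s) hyN (F := fun ω x => f ω x * iE (fun ω x =>
      ¬ okE (wm μ s N (Pn N y) ω) (pJ c d) (Bo ω) q dd e1 d3 g0 g1 τ1 l1 τ2 l2 x ∧
      ¬ EvT (wm μ s N (Pn N y) ω) (pJ c d) τ2 l2 q d3 x) ω x)
    (fun ω x => mul_nonneg (hf0 ω x) (iE_mem _ ω x).1) (fun ω x => ?_)
    (fun A x => (hfm A x).mul ((hGm A x).mul (mE1 A x))) (fun A x => (hfm A x).mul ((mZ1 A x).mul (mE2 A x)))
    (fun ω x => mul_nonneg (hf0 ω x) (n1 ω x).1) (fun ω x => mul_nonneg (hf0 ω x) (n2 ω x).1)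
    (fun ω x => mul_le_one₀ (hf1 ω x) (n1 ω x).1 (n1 ω x).2) (fun ω x => mul_le_one₀ (hf1 ω x) (n2 ω x).1 (n2 ω x).2) q1 q2
  · refine this.trans (le_of_eq ?_)
    ring
  · by_cases hev : ¬ okE (wm μ s N (Pn N y) ω) (pJ c d) (Bo ω) q dd e1 d3 g0 g1 τ1 l1 τ2 l2 x ∧
        ¬ EvT (wm μ s N (Pn N y) ω) (pJ c d) τ2 l2 q d3 x
    · rw [iE_one (E := fun ω x => ¬ okE (wm μ s N (Pn N y) ω) (pJ c d) (Bo ω) q dd e1 d3 g0 g1 τ1 l1 τ2 l2 x ∧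
        ¬ EvT (wm μ s N (Pn N y) ω) (pJ c d) τ2 l2 q d3 x) hev, ← mul_add]
      refine mul_le_mul_of_nonneg_left ?_ (hf0 ω x)
      obtain ⟨a1, a2, a3⟩ := not_okE hev.1
      rcases a3 with a3 | a3 | a3
      · have k1 : E1 ω x = 1 := by
          rw [hE1]
          exact iE_one a3
        rw [k1, hBo ω x a1]
        linarith [(n2 ω x).1]
      · have k1 : E2 ω x = 1 := by
          rw [hE2]
          exact iE_one a3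
        have k2 : Z1 ω x = 1 := by
          rw [hZ1]
          exact iE_one a2
        rw [k1, k2]
        linarith [(n1 ω x).1]
      · exact absurd a3 hev.2
    · rw [iE_zero (E := fun ω x => ¬ okE (wm μ s N (Pn N y) ω) (pJ c d) (Bo ω) q dd e1 d3 g0 g1 τ1 l1 τ2 l2 x ∧
        ¬ EvT (wm μ s N (Pn N y) ω) (pJ c d) τ2 l2 q d3 x) hev, mul_zero]
      exact add_nonneg (mul_nonneg (hf0 ω x) (n1 ω x).1) (mul_nonneg (hf0 ω x) (n2 ω x).1)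

/-- **THE PRICE OF `¬ okE`, OWN IN FRONT**: own < `[g0, g1]` < region 2 < region 1. -/
theorem okE_priceL (h : In μ s c₀ C₀ n₀) : ∀ ε θ : ℝ, 0 < ε → 0 < θ → ∃ δ κ c₂ : ℝ, 0 < δ ∧ 0 < κ ∧ 0 < c₂ ∧ ∃ L₀ : ℕ,
    ∀ L : ℕ, L₀ ≤ L → ∀ N : ℕ, L ≤ 16 * N → N ≤ L → ∀ y : ℕ, y ≤ N → |(y : ℝ) - sl μ s * N| ≤ ((L : ℝ) ^ δ * wd' μ s N) →
    ∀ M : ℝ, 8 ≤ M → M ≤ (L : ℝ) ^ κ → ∀ c d τ1 l1 τ2 l2 q g0 g1 l C : ℕ, c ≤ g0 → g0 + l ≤ g1 → g1 ≤ τ2 → en τ2 l2 q ≤ τ1 →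
    en τ1 l1 q ≤ d → d ≤ N → C ≤ c → 3 * (q : ℝ) ≤ (L : ℝ) ^ κ → (L : ℝ) ^ θ ≤ l → l ≤ l1 → l ≤ l2 →
    ∀ Po : Plc, Po.ty = Ty.M → Po.Ok L N θ → l ≤ Po.l → Po.V ≤ g0 → C ≤ Po.c' → ∀ Go : Env × Finset ℕ → Px (Pn N y) → ℝ,
    (∀ A x, Measurable fun η => Go (η, A) x) → Dom μ s N y ((L : ℝ) ^ κ) M Po Go →
    ∀ Bo : Env × Finset ℕ → Px (Pn N y) → Prop, (∀ ω x, ¬ Bo ω x → Go ω x = 1) →
    ∀ dd e1 d3 : ℝ, Real.exp (-(L : ℝ) ^ κ) ≤ dd → Real.exp (-(L : ℝ) ^ κ) ≤ e1 →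
    ∀ f : Env × Finset ℕ → Px (Pn N y) → ℝ, (∀ A x, Measurable fun η => f (η, A) x) → (∀ ω x, 0 ≤ f ω x) → (∀ ω x, f ω x ≤ 1) →
    FinB (Ioo C d) f →
    ∫ ω, gm (wm μ s N (Pn N y) ω) (fun x => f ω x * iE (fun ω x =>
      ¬ okE (wm μ s N (Pn N y) ω) (pJ c d) (Bo ω) q dd e1 d3 g0 g1 τ1 l1 τ2 l2 x ∧
      ¬ EvT (wm μ s N (Pn N y) ω) (pJ c d) τ2 l2 q d3 x) ω x) ∂(Pm μ N) ≤
      2 * ((L : ℝ) ^ ε * (EE' μ s l)⁻¹) ^ 2 * ∫ ω, gm (wm μ s N (Pn N y) ω) (f ω) ∂(Pm μ N) +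
        2 * (Real.exp (-(L : ℝ) ^ c₂) + 4 * Real.exp (-M)) := by
  intro ε θ hε hθ
  obtain ⟨δ, κ, c₂, hδ, hκ, hc₂, L₀, hP⟩ := two15 h ε θ hε hθ
  refine ⟨δ, κ, c₂, hδ, hκ, hc₂, L₀ + 1, ?_⟩
  intro L hL N hLN hNL y hyN hyc M hM hML c d τ1 l1 τ2 l2 q g0 g1 l C h1 h2 h3 h4 h5 h6 h7 hq hl hl1 hl2 Po hty hok hlo hgU hdD Go hGm hGo
    Bo hBo dd e1 d3 hdd he1 f hfm hf0 hf1 hfb
  have hX1 : (1 : ℝ) ≤ (L : ℝ) ^ κ := Real.one_le_rpow (by exact_mod_cast (show 1 ≤ L by omega)) hκ.le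
  have en1 : τ1 ≤ en τ1 l1 q := by
    unfold en
    omega
  have en2 : τ2 ≤ en τ2 l2 q := by
    unfold en
    omega
  have hcast : ∀ a : ℕ, l ≤ a → (L : ℝ) ^ θ ≤ a := fun a ha => hl.trans (by exact_mod_cast ha)
  obtain ⟨E1, hE1⟩ : ∃ E1, E1 = iE fun ω x => EvI (wm μ s N (Pn N y) ω) (pJ c d) τ2 l2 q g0 g1 e1 x := ⟨_, rfl⟩
  obtain ⟨E2, hE2⟩ : ∃ E2, E2 = iE fun ω x => EvII (wm μ s N (Pn N y) ω) (pJ c d) τ2 l2 q g0 g1 e1 x := ⟨_, rfl⟩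
  obtain ⟨Z1, hZ1⟩ : ∃ Z1, Z1 = iE fun ω x => TieP (wm μ s N (Pn N y) ω) (pJ c d) τ1 l1 q dd x := ⟨_, rfl⟩
  have D1 := dom_I' (μ := μ) (s := s) (N := N) (y := y) (M := M) (c := c) (g0 := g0) hq he1 h3 (h4.trans (en1.trans h5)) Ty.L
  have D2 := dom_II' (μ := μ) (s := s) (N := N) (y := y) (M := M) (d := d) (l := l2) (q := q) hX1 he1 h3 (show g0 ≤ g1 by omega) h1 Ty.L
  have D3 := dom_tie (μ := μ) (s := s) (N := N) (y := y) (M := M) hq hdd (show c ≤ τ1 by omega) h5 Ty.R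
  rw [← hE1] at D1
  rw [← hE2] at D2
  rw [← hZ1] at D3
  have mE1 : ∀ A x, Measurable fun η => E1 (η, A) x := fun A x => by
    rw [hE1]
    exact iE_meas (fun A x => meas_evI c d τ2 l2 q g0 g1 e1 A x) A x
  have mE2 : ∀ A x, Measurable fun η => E2 (η, A) x := fun A x => by
    rw [hE2]
    exact iE_meas (fun A x => meas_evII c d τ2 l2 q g0 g1 e1 A x) A x
  have mZ1 : ∀ A x, Measurable fun η => Z1 (η, A) x := fun A x => by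
    rw [hZ1]
    exact iE_meas (fun A x => meas_tieP c d τ1 l1 q dd A x) A x
  have q1 := hP L (by omega) N hLN hNL y hyN hyc M hM hML Po ⟨c, d, g0, d, τ2, en τ2 l2 q, l2, Ty.L, False⟩ l hok
    ⟨⟨h1, by show g0 ≤ τ2; omega, en2, by show en τ2 l2 q ≤ d; omega, le_rfl, h6⟩, hcast _ hl2⟩ hlo hl2
    (by unfold Plc.Bef; rw [hty]; exact Or.inl hgU) Go E1 hGo D1 f hfm hf0 hf1
    (hfb.mono (by
      unfold Plc.J
      rw [hty]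
      intro j hj
      have k1 : Po.c' < j ∧ j < Po.V := mem_Ioo.1 hj
      rw [mem_Ioo]
      omega)) (hfb.mono (by
      intro j hj
      have k1 : g0 < j ∧ j < d := mem_Ioo.1 hj
      rw [mem_Ioo]
      omega))
  have q2 := hP L (by omega) N hLN hNL y hyN hyc M hM hML ⟨c, d, c, d, τ1, en τ1 l1 q, l1, Ty.R, False⟩
    ⟨c, d, c, en τ2 l2 q, g0, g1, g1 - g0, Ty.L, False⟩ l
    ⟨⟨le_rfl, by show c ≤ τ1; omega, en1, h5, le_rfl, h6⟩, hcast _ hl1⟩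
    ⟨⟨le_rfl, h1, by show g0 ≤ g1; omega, by show g1 ≤ en τ2 l2 q; omega, by show en τ2 l2 q ≤ d; omega, h6⟩,
      hcast _ (by show l ≤ g1 - g0; omega)⟩
    hl1 (by show l ≤ g1 - g0; omega) (Or.inl h4) Z1 E2 D3 D2 f hfm hf0 hf1
    (hfb.mono (by
      intro j hj
      have k1 : τ1 < j ∧ j < d := mem_Ioo.1 hj
      rw [mem_Ioo]
      omega)) (hfb.mono (by
      intro j hj
      have k1 : c < j ∧ j < en τ2 l2 q := mem_Ioo.1 hj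
      rw [mem_Ioo]
      omega))
  have n1 : ∀ ω x, 0 ≤ Go ω x * E1 ω x ∧ Go ω x * E1 ω x ≤ 1 := fun ω x =>
    ⟨mul_nonneg (hGo.1 ω x) (D1.1 ω x), mul_le_one₀ (hGo.2.1 ω x) (D1.1 ω x) (D1.2.1 ω x)⟩
  have n2 : ∀ ω x, 0 ≤ Z1 ω x * E2 ω x ∧ Z1 ω x * E2 ω x ≤ 1 := fun ω x =>
    ⟨mul_nonneg (D3.1 ω x) (D2.1 ω x), mul_le_one₀ (D3.2.1 ω x) (D2.1 ω x) (D2.2.1 ω x)⟩
  have := int_two (μ := μ) (s := s) hyN (F := fun ω x => f ω x * iE (fun ω x =>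
      ¬ okE (wm μ s N (Pn N y) ω) (pJ c d) (Bo ω) q dd e1 d3 g0 g1 τ1 l1 τ2 l2 x ∧
      ¬ EvT (wm μ s N (Pn N y) ω) (pJ c d) τ2 l2 q d3 x) ω x)
    (fun ω x => mul_nonneg (hf0 ω x) (iE_mem _ ω x).1) (fun ω x => ?_)
    (fun A x => (hfm A x).mul ((hGm A x).mul (mE1 A x))) (fun A x => (hfm A x).mul ((mZ1 A x).mul (mE2 A x)))
    (fun ω x => mul_nonneg (hf0 ω x) (n1 ω x).1) (fun ω x => mul_nonneg (hf0 ω x) (n2 ω x).1)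
    (fun ω x => mul_le_one₀ (hf1 ω x) (n1 ω x).1 (n1 ω x).2) (fun ω x => mul_le_one₀ (hf1 ω x) (n2 ω x).1 (n2 ω x).2) q1 q2
  · refine this.trans (le_of_eq ?_)
    ring
  · by_cases hev : ¬ okE (wm μ s N (Pn N y) ω) (pJ c d) (Bo ω) q dd e1 d3 g0 g1 τ1 l1 τ2 l2 x ∧
        ¬ EvT (wm μ s N (Pn N y) ω) (pJ c d) τ2 l2 q d3 x
    · rw [iE_one (E := fun ω x => ¬ okE (wm μ s N (Pn N y) ω) (pJ c d) (Bo ω) q dd e1 d3 g0 g1 τ1 l1 τ2 l2 x ∧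
        ¬ EvT (wm μ s N (Pn N y) ω) (pJ c d) τ2 l2 q d3 x) hev, ← mul_add]
      refine mul_le_mul_of_nonneg_left ?_ (hf0 ω x)
      obtain ⟨a1, a2, a3⟩ := not_okE hev.1
      rcases a3 with a3 | a3 | a3
      · have k1 : E1 ω x = 1 := by
          rw [hE1]
          exact iE_one a3
        rw [k1, hBo ω x a1]
        linarith [(n2 ω x).1]
      · have k1 : E2 ω x = 1 := by
          rw [hE2]
          exact iE_one a3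
        have k2 : Z1 ω x = 1 := by
          rw [hZ1]
          exact iE_one a2
        rw [k1, k2]
        linarith [(n1 ω x).1]
      · exact absurd a3 hev.2
    · rw [iE_zero (E := fun ω x => ¬ okE (wm μ s N (Pn N y) ω) (pJ c d) (Bo ω) q dd e1 d3 g0 g1 τ1 l1 τ2 l2 x ∧
        ¬ EvT (wm μ s N (Pn N y) ω) (pJ c d) τ2 l2 q d3 x) hev, mul_zero]
      exact add_nonneg (mul_nonneg (hf0 ω x) (n1 ω x).1) (mul_nonneg (hf0 ω x) (n2 ω x).1)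

/-- **The three branches added**: `hT` is the price of `EvT`. -/
theorem okE_split {y : ℕ} (hy : y ≤ N) {c d τ1 l1 τ2 l2 q g0 g1 : ℕ} {dd e1 d3 : ℝ} {Bo : Env × Finset ℕ → Px (Pn N y) → Prop}
    {f G : Env × Finset ℕ → Px (Pn N y) → ℝ} (hf0 : ∀ ω x, 0 ≤ f ω x) (hf1 : ∀ ω x, f ω x ≤ 1)
    (hfm : ∀ A x, Measurable fun η => f (η, A) x) (hGm : ∀ A x, Measurable fun η => G (η, A) x) (hG0 : ∀ ω x, 0 ≤ G ω x)
    (hG1 : ∀ ω x, G ω x ≤ 1) (hG : ∀ ω x, ¬ okE (wm μ s N (Pn N y) ω) (pJ c d) (Bo ω) q dd e1 d3 g0 g1 τ1 l1 τ2 l2 x →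
      EvT (wm μ s N (Pn N y) ω) (pJ c d) τ2 l2 q d3 x → G ω x = 1)
    (hm : ∀ A x, MeasurableSet {η : Env | ¬ okE (wm μ s N (Pn N y) (η, A)) (pJ c d) (Bo (η, A)) q dd e1 d3 g0 g1 τ1 l1 τ2 l2 x ∧
      ¬ EvT (wm μ s N (Pn N y) (η, A)) (pJ c d) τ2 l2 q d3 x}) {C₁ C₂ : ℝ}
    (h1 : ∫ ω, gm (wm μ s N (Pn N y) ω) (fun x => f ω x * iE (fun ω x =>
      ¬ okE (wm μ s N (Pn N y) ω) (pJ c d) (Bo ω) q dd e1 d3 g0 g1 τ1 l1 τ2 l2 x ∧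
      ¬ EvT (wm μ s N (Pn N y) ω) (pJ c d) τ2 l2 q d3 x) ω x) ∂(Pm μ N) ≤ C₁)
    (h2 : ∫ ω, gm (wm μ s N (Pn N y) ω) (fun x => f ω x * G ω x) ∂(Pm μ N) ≤ C₂) :
    ∫ ω, gm (wm μ s N (Pn N y) ω) (fun x => f ω x * iE (fun ω x =>
      ¬ okE (wm μ s N (Pn N y) ω) (pJ c d) (Bo ω) q dd e1 d3 g0 g1 τ1 l1 τ2 l2 x) ω x) ∂(Pm μ N) ≤ C₁ + C₂ := by
  have mI1 := fun A x => iE_meas (E := fun ω x => ¬ okE (wm μ s N (Pn N y) ω) (pJ c d) (Bo ω) q dd e1 d3 g0 g1 τ1 l1 τ2 l2 x ∧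
      ¬ EvT (wm μ s N (Pn N y) ω) (pJ c d) τ2 l2 q d3 x) hm A x
  refine int_two (μ := μ) (s := s) hy (fun ω x => mul_nonneg (hf0 ω x) (iE_mem _ ω x).1) (fun ω x => ?_)
    (fun A x => (hfm A x).mul (mI1 A x)) (fun A x => (hfm A x).mul (hGm A x))
    (fun ω x => mul_nonneg (hf0 ω x) (iE_mem _ ω x).1) (fun ω x => mul_nonneg (hf0 ω x) (hG0 ω x))
    (fun ω x => mul_le_one₀ (hf1 ω x) (iE_mem _ ω x).1 (iE_mem _ ω x).2) (fun ω x => mul_le_one₀ (hf1 ω x) (hG0 ω x) (hG1 ω x)) h1 h2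
  rw [← mul_add]
  refine mul_le_mul_of_nonneg_left ?_ (hf0 ω x)
  by_cases hev : ¬ okE (wm μ s N (Pn N y) ω) (pJ c d) (Bo ω) q dd e1 d3 g0 g1 τ1 l1 τ2 l2 x
  · by_cases hT : EvT (wm μ s N (Pn N y) ω) (pJ c d) τ2 l2 q d3 x
    · rw [hG ω x hev hT]
      linarith [(iE_mem (fun ω x => ¬ okE (wm μ s N (Pn N y) ω) (pJ c d) (Bo ω) q dd e1 d3 g0 g1 τ1 l1 τ2 l2 x) ω x).2,
        (iE_mem (fun ω x => ¬ okE (wm μ s N (Pn N y) ω) (pJ c d) (Bo ω) q dd e1 d3 g0 g1 τ1 l1 τ2 l2 x ∧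
          ¬ EvT (wm μ s N (Pn N y) ω) (pJ c d) τ2 l2 q d3 x) ω x).1]
    · rw [iE_one (E := fun ω x => ¬ okE (wm μ s N (Pn N y) ω) (pJ c d) (Bo ω) q dd e1 d3 g0 g1 τ1 l1 τ2 l2 x ∧
        ¬ EvT (wm μ s N (Pn N y) ω) (pJ c d) τ2 l2 q d3 x) ⟨hev, hT⟩]
      linarith [(iE_mem (fun ω x => ¬ okE (wm μ s N (Pn N y) ω) (pJ c d) (Bo ω) q dd e1 d3 g0 g1 τ1 l1 τ2 l2 x) ω x).2, hG0 ω x]
  · rw [iE_zero (E := fun ω x => ¬ okE (wm μ s N (Pn N y) ω) (pJ c d) (Bo ω) q dd e1 d3 g0 g1 τ1 l1 τ2 l2 x) hev]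
    exact add_nonneg (iE_mem _ ω x).1 (hG0 ω x)

end Pool.Agent.W_7d29a1_C0.P15
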