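import Pool.Agent.W_7d29a1_C0.OkE15C
import Pool.Agent.W_7d29a1_C0.NTE29
import Pool.Agent.W_7d29a1_C0.NTK15

/-!
MP_7d29a1_pr, [CURV0] / [C0] (helper15): THE PRICE OF `¬ okE`, CLOSED (`okE_closeR`, `okE_closeL`: one margin; `okE_bothR`, `okE_bothL`: both margins,
the event of `gm_okE`). `R` bounds the ratio of the widths up to the distance `H` of the nearer end of the block: `(R L ^ ε / EE' l) ^ 2`.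
-/

set_option autoImplicit false

namespace Pool.Agent.W_7d29a1_C0.P15

open MeasureTheory ProbabilityTheory Filter Topology Finset
open Pool.Agent.W_7d29a1_F Pool.Agent.W_7d29a1_X Pool.Agent.W_7d29a1_h4g Pool.Agent.W_7d29a1_H
open Pool.Agent.W_7d29a1_HS (In wd md)
open Pool.Agent.W_7d29a1_HZ Pool.Agent.W_7d29a1_HZ.R72 Pool.Agent.W_7d29a1_Z.Asm72
open Pool.Agent.W_7d29a1_HZ.Z86
open Pool.Agent.W_7d29a1_C0.Mod92 (Px Pn lw ps pJ ne_Pn ps_Pn pos_card ps_of_le ps_of_ge wm Pm meas_lw meas_cE meas_gz meas_gm meas_wm int_Pm)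
open Pool.Agent.W_7d29a1_C0.Swap57 (NI cE2 NI_nonneg)
open Pool.W7d29a1.C0 (gm gz gz_pos gm_nonneg gm_mono gm_const gm_add)
open Pool.W7d29a1.C0.VT31 (Mp cE gm_mul_cE fz cE_sum cE_mono cE_nonneg)
open Pool.W7d29a1.C0.R43 (Tau Rp mI bI st swP_pJ tau_rp st_end le_st)
open Pool.W7d29a1.C0.O1 (Gz okE en)
open Pool.Agent.W_7d29a1_C0.P86
open scoped ENNReal

variable {μ : Measure ℝ} {s : ℝ} {N : ℕ}

theorem coreR15 [IsProbabilityMeasure μ] {c₀ C₀ : ℝ} {n₀ : ℕ} (h : In μ s c₀ C₀ n₀) : N29.CoreR μ s := by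
  intro ε θ hε hθ
  exact N15K.core51R h ε θ hε hθ

variable [IsProbabilityMeasure μ] {c₀ C₀ : ℝ} {n₀ : ℕ}

/-- The three branches as a number. -/
theorem evT15 (h : In μ s c₀ C₀ n₀) : ∀ ε θ : ℝ, 0 < ε → 0 < θ → ∃ δ κ c₂ : ℝ, 0 < δ ∧ 0 < κ ∧ 0 < c₂ ∧ ∃ L₀ : ℕ,
    ∀ L : ℕ, L₀ ≤ L → ∀ N : ℕ, L ≤ 16 * N → N ≤ L → ∀ y : ℕ, y ≤ N → |(y : ℝ) - sl μ s * N| ≤ ((L : ℝ) ^ δ * wd' μ s N) →
    ∀ c d τ2 l2 q l : ℕ, c < τ2 → en τ2 l2 q ≤ d → d ≤ N → 1 ≤ q → l ≤ l2 → (L : ℝ) ^ θ ≤ l →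
    ∀ (H : ℕ) (R : ℝ), 1 ≤ R → (∀ j : ℕ, 1 ≤ j → j ≤ H → wd' μ s j ≤ R * wd' μ s l) → (d - τ2 ≤ H ∨ en τ2 l2 q - c ≤ H) →
    ∀ d3 : ℝ, Real.exp (-(L : ℝ) ^ κ) ≤ d3 →
    ∀ f : Env × Finset ℕ → Px (Pn N y) → ℝ, (∀ A x, Measurable fun η => f (η, A) x) → (∀ ω x, 0 ≤ f ω x) → (∀ ω x, f ω x ≤ 1) →
    FinB (Ioo c d) f →
    ∫ ω, gm (wm μ s N (Pn N y) ω) (fun x => f ω x * iE (fun ω x => EvT (wm μ s N (Pn N y) ω) (pJ c d) τ2 l2 q d3 x) ω x) ∂(Pm μ N) ≤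
      (R * ((L : ℝ) ^ ε * (EE' μ s l)⁻¹)) ^ 2 * ∫ ω, gm (wm μ s N (Pn N y) ω) (f ω) ∂(Pm μ N) + Real.exp (-(L : ℝ) ^ c₂) := by
  intro ε θ hε hθ
  obtain ⟨δ, κ, c₂, hδ, hκ, hc₂, L₀, hP⟩ := N29.evt_price (coreR15 h) ε θ hε hθ
  refine ⟨δ, κ, c₂, hδ, hκ, hc₂, L₀, ?_⟩
  intro L hL N hLN hNL y hyN hyc c d τ2 l2 q l h1 h2 h3 hq hl2 hl H R hR hw hnear d3 hd3 f hfm hf0 hf1 hfb
  have hen : τ2 + l + 1 ≤ en τ2 l2 q := by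
    unfold en
    have : 1 * (l2 + 1) ≤ 3 * q * (l2 + 1) := Nat.mul_le_mul_right _ (by omega)
    omega
  refine hP L hL N hLN hNL y hyN hyc c d τ2 (en τ2 l2 q) l h1.le (by omega) h2 h3 hl H R hR hw hnear d3 hd3 f hfm hf0 hf1 ?_ _
    (fun ω x => (iE_mem _ ω x).1) (fun ω x => (iE_mem _ ω x).2) fun ω x hne => ?_
  · rintro η η' A x ⟨E, hE1, hE2⟩
    refine hfb η η' A x ⟨E, fun q' hq' => ⟨(hE1 q' hq').1, ?_⟩, hE2⟩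
    have h5 := mem_Ico.1 (hE1 q' hq').2
    rw [mem_Ioo]
    omega
  · by_contra hcon
    exact hne (iE_zero hcon)

/-- **THE PRICE OF `¬ okE`, OWN BEHIND, CLOSED**: region 1 < region 2 < `[g0, g1]` < own region `o`, everything given `pJ c d`. -/
theorem okE_closeR (h : In μ s c₀ C₀ n₀) : ∀ ε θ : ℝ, 0 < ε → 0 < θ → ∃ δ κ c₂ : ℝ, 0 < δ ∧ 0 < κ ∧ 0 < c₂ ∧ ∃ L₀ : ℕ,
    ∀ L : ℕ, L₀ ≤ L → ∀ N : ℕ, L ≤ 16 * N → N ≤ L → ∀ y : ℕ, y ≤ N → |(y : ℝ) - sl μ s * N| ≤ ((L : ℝ) ^ δ * wd' μ s N) →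
    ∀ M : ℝ, 8 ≤ M → M ≤ (L : ℝ) ^ κ → ∀ c d τ1 l1 τ2 l2 τo lo q g0 g1 l : ℕ, c ≤ τ1 → en τ1 l1 q ≤ τ2 → en τ2 l2 q ≤ g0 → g0 + l ≤ g1 →
    g1 ≤ τo → en τo lo q ≤ d → d ≤ N → 1 ≤ q →
    3 * (q : ℝ) ≤ (L : ℝ) ^ κ → (L : ℝ) ^ θ ≤ l → l ≤ l1 → l ≤ l2 → l ≤ lo →
    ∀ (H : ℕ) (R : ℝ), 1 ≤ R → (∀ j : ℕ, 1 ≤ j → j ≤ H → wd' μ s j ≤ R * wd' μ s l) → (d - τ2 ≤ H ∨ en τ2 l2 q - c ≤ H) →
    ∀ dd e1 d3 : ℝ, Real.exp (-(L : ℝ) ^ κ) ≤ dd → Real.exp (-(L : ℝ) ^ κ) ≤ e1 → Real.exp (-(L : ℝ) ^ κ) ≤ d3 →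
    ∀ f : Env × Finset ℕ → Px (Pn N y) → ℝ, (∀ A x, Measurable fun η => f (η, A) x) → (∀ ω x, 0 ≤ f ω x) → (∀ ω x, f ω x ≤ 1) →
    FinB (Ioo c d) f →
    ∫ ω, gm (wm μ s N (Pn N y) ω) (fun x => f ω x * iE (fun ω x =>
      ¬ okE (wm μ s N (Pn N y) ω) (pJ c d) (fun x => bI (wm μ s N (Pn N y) ω) (pJ c d) τo lo q dd x = 1) q dd e1 d3 g0 g1 τ1 l1 τ2 l2 x)
        ω x) ∂(Pm μ N) ≤
      3 * (R * ((L : ℝ) ^ ε * (EE' μ s l)⁻¹)) ^ 2 * ∫ ω, gm (wm μ s N (Pn N y) ω) (f ω) ∂(Pm μ N) +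
        (3 * Real.exp (-(L : ℝ) ^ c₂) + 8 * Real.exp (-M)) := by
  intro ε θ hε hθ
  obtain ⟨δa, κa, ca, hδa, hκa, hca, La, hA⟩ := okE_fullR h ε θ hε hθ
  obtain ⟨δb, κb, cb, hδb, hκb, hcb, Lb, hB⟩ := evT15 h ε θ hε hθ
  refine ⟨min δa δb, min κa κb, min ca cb, lt_min hδa hδb, lt_min hκa hκb, lt_min hca hcb, La + Lb + 1, ?_⟩
  intro L hL N hLN hNL y hyN hyc M hM hML c d τ1 l1 τ2 l2 τo lo q g0 g1 l h1 h2 h3 h4 h5 h6 h7 hq1 hq hl hl1 hl2 hlo H R hR hw hnear dd e1 d3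
    hdd he1 hd3 f hfm hf0 hf1 hfb
  have hL1 : (1 : ℝ) ≤ L := by exact_mod_cast (show 1 ≤ L by omega)
  have hwd : ∀ n, 0 < wd' μ s n := fun n => lt_of_lt_of_le zero_lt_one (le_max_left _ _)
  have hcone : ∀ δ', min δa δb ≤ δ' → |(y : ℝ) - sl μ s * N| ≤ ((L : ℝ) ^ δ' * wd' μ s N) := fun δ' hδ' =>
    hyc.trans (mul_le_mul_of_nonneg_right (Real.rpow_le_rpow_of_exponent_le hL1 hδ') (hwd N).le)
  have kA : (L : ℝ) ^ min κa κb ≤ (L : ℝ) ^ κa := Real.rpow_le_rpow_of_exponent_le hL1 (min_le_left _ _)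
  have kB : (L : ℝ) ^ min κa κb ≤ (L : ℝ) ^ κb := Real.rpow_le_rpow_of_exponent_le hL1 (min_le_right _ _)
  have eA : Real.exp (-(L : ℝ) ^ κa) ≤ Real.exp (-(L : ℝ) ^ min κa κb) := Real.exp_le_exp.2 (by linarith)
  have eB : Real.exp (-(L : ℝ) ^ κb) ≤ Real.exp (-(L : ℝ) ^ min κa κb) := Real.exp_le_exp.2 (by linarith)
  have cA : Real.exp (-(L : ℝ) ^ ca) ≤ Real.exp (-(L : ℝ) ^ min ca cb) :=
    Real.exp_le_exp.2 (neg_le_neg (Real.rpow_le_rpow_of_exponent_le hL1 (min_le_left _ _)))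
  have cB : Real.exp (-(L : ℝ) ^ cb) ≤ Real.exp (-(L : ℝ) ^ min ca cb) :=
    Real.exp_le_exp.2 (neg_le_neg (Real.rpow_le_rpow_of_exponent_le hL1 (min_le_right _ _)))
  have en1 : τ1 < en τ1 l1 q := by
    unfold en
    have : 1 * (l1 + 1) ≤ 3 * q * (l1 + 1) := Nat.mul_le_mul_right _ (by omega)
    omega
  have eno : τo ≤ en τo lo q := by
    unfold en
    omega
  have hl1' : 1 ≤ l := by
    have : (1 : ℝ) ≤ l := (Real.one_le_rpow hL1 hθ.le).trans hl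
    exact_mod_cast this
  have hT := hB L (by omega) N hLN hNL y hyN (hcone _ (min_le_right _ _)) c d τ2 l2 q l (by omega) (by omega) h7 hq1 hl2 hl H R hR hw hnear d3
    (eB.trans hd3) f hfm hf0 hf1 hfb
  have h8 := hA L (by omega) N hLN hNL y hyN (hcone _ (min_le_left _ _)) M hM (hML.trans kA) c d τ1 l1 τ2 l2 τo lo q g0 g1 l h1 h2 h3 h4 h5 h6
    h7 (hq.trans kA) hl hl1 hl2 hlo dd e1 d3 (eA.trans hdd) (eA.trans he1) f hfm hf0 hf1 hfb _ hT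
  have g0' : 0 ≤ ∫ ω, gm (wm μ s N (Pn N y) ω) (f ω) ∂(Pm μ N) := integral_nonneg fun ω => (gm01 (μ := μ) (s := s) hyN hf0 hf1 ω).1
  have hE : (0 : ℝ) < EE' μ s l := lt_of_lt_of_le one_pos (le_max_left _ _)
  have hX : 0 ≤ (L : ℝ) ^ ε * (EE' μ s l)⁻¹ := mul_nonneg (by positivity) (inv_nonneg.2 hE.le)
  have hRX : ((L : ℝ) ^ ε * (EE' μ s l)⁻¹) ^ 2 ≤ (R * ((L : ℝ) ^ ε * (EE' μ s l)⁻¹)) ^ 2 :=
    pow_le_pow_left₀ hX (le_mul_of_one_le_left hX hR) 2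
  have h9 := mul_le_mul_of_nonneg_right hRX g0'
  refine h8.trans ?_
  have e1' : 2 * ((L : ℝ) ^ ε * (EE' μ s l)⁻¹) ^ 2 * ∫ ω, gm (wm μ s N (Pn N y) ω) (f ω) ∂(Pm μ N) =
      2 * (((L : ℝ) ^ ε * (EE' μ s l)⁻¹) ^ 2 * ∫ ω, gm (wm μ s N (Pn N y) ω) (f ω) ∂(Pm μ N)) := by ring
  have e2' : 3 * (R * ((L : ℝ) ^ ε * (EE' μ s l)⁻¹)) ^ 2 * ∫ ω, gm (wm μ s N (Pn N y) ω) (f ω) ∂(Pm μ N) =
      3 * ((R * ((L : ℝ) ^ ε * (EE' μ s l)⁻¹)) ^ 2 * ∫ ω, gm (wm μ s N (Pn N y) ω) (f ω) ∂(Pm μ N)) := by ring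
  rw [e1', e2']
  linarith

/-- **THE PRICE OF `¬ okE`, OWN IN FRONT, CLOSED**: own region `o` < `[g0, g1]` < region 2 < region 1, everything given `pJ c d`. -/
theorem okE_closeL (h : In μ s c₀ C₀ n₀) : ∀ ε θ : ℝ, 0 < ε → 0 < θ → ∃ δ κ c₂ : ℝ, 0 < δ ∧ 0 < κ ∧ 0 < c₂ ∧ ∃ L₀ : ℕ,
    ∀ L : ℕ, L₀ ≤ L → ∀ N : ℕ, L ≤ 16 * N → N ≤ L → ∀ y : ℕ, y ≤ N → |(y : ℝ) - sl μ s * N| ≤ ((L : ℝ) ^ δ * wd' μ s N) →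
    ∀ M : ℝ, 8 ≤ M → M ≤ (L : ℝ) ^ κ → ∀ c d τ1 l1 τ2 l2 τo lo q g0 g1 l : ℕ, c ≤ τo → en τo lo q ≤ g0 → g0 + l ≤ g1 → g1 ≤ τ2 →
    en τ2 l2 q ≤ τ1 → en τ1 l1 q ≤ d → d ≤ N → 1 ≤ q →
    3 * (q : ℝ) ≤ (L : ℝ) ^ κ → (L : ℝ) ^ θ ≤ l → l ≤ l1 → l ≤ l2 → l ≤ lo →
    ∀ (H : ℕ) (R : ℝ), 1 ≤ R → (∀ j : ℕ, 1 ≤ j → j ≤ H → wd' μ s j ≤ R * wd' μ s l) → (d - τ2 ≤ H ∨ en τ2 l2 q - c ≤ H) →
    ∀ dd e1 d3 : ℝ, Real.exp (-(L : ℝ) ^ κ) ≤ dd → Real.exp (-(L : ℝ) ^ κ) ≤ e1 → Real.exp (-(L : ℝ) ^ κ) ≤ d3 →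
    ∀ f : Env × Finset ℕ → Px (Pn N y) → ℝ, (∀ A x, Measurable fun η => f (η, A) x) → (∀ ω x, 0 ≤ f ω x) → (∀ ω x, f ω x ≤ 1) →
    FinB (Ioo c d) f →
    ∫ ω, gm (wm μ s N (Pn N y) ω) (fun x => f ω x * iE (fun ω x =>
      ¬ okE (wm μ s N (Pn N y) ω) (pJ c d) (fun x => bI (wm μ s N (Pn N y) ω) (pJ c d) τo lo q dd x = 1) q dd e1 d3 g0 g1 τ1 l1 τ2 l2 x)
        ω x) ∂(Pm μ N) ≤
      3 * (R * ((L : ℝ) ^ ε * (EE' μ s l)⁻¹)) ^ 2 * ∫ ω, gm (wm μ s N (Pn N y) ω) (f ω) ∂(Pm μ N) +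
        (3 * Real.exp (-(L : ℝ) ^ c₂) + 8 * Real.exp (-M)) := by
  intro ε θ hε hθ
  obtain ⟨δa, κa, ca, hδa, hκa, hca, La, hA⟩ := okE_fullL h ε θ hε hθ
  obtain ⟨δb, κb, cb, hδb, hκb, hcb, Lb, hB⟩ := evT15 h ε θ hε hθ
  refine ⟨min δa δb, min κa κb, min ca cb, lt_min hδa hδb, lt_min hκa hκb, lt_min hca hcb, La + Lb + 1, ?_⟩
  intro L hL N hLN hNL y hyN hyc M hM hML c d τ1 l1 τ2 l2 τo lo q g0 g1 l h1 h2 h3 h4 h5 h6 h7 hq1 hq hl hl1 hl2 hlo H R hR hw hnear dd e1 d3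
    hdd he1 hd3 f hfm hf0 hf1 hfb
  have hL1 : (1 : ℝ) ≤ L := by exact_mod_cast (show 1 ≤ L by omega)
  have hwd : ∀ n, 0 < wd' μ s n := fun n => lt_of_lt_of_le zero_lt_one (le_max_left _ _)
  have hcone : ∀ δ', min δa δb ≤ δ' → |(y : ℝ) - sl μ s * N| ≤ ((L : ℝ) ^ δ' * wd' μ s N) := fun δ' hδ' =>
    hyc.trans (mul_le_mul_of_nonneg_right (Real.rpow_le_rpow_of_exponent_le hL1 hδ') (hwd N).le)
  have kA : (L : ℝ) ^ min κa κb ≤ (L : ℝ) ^ κa := Real.rpow_le_rpow_of_exponent_le hL1 (min_le_left _ _)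
  have kB : (L : ℝ) ^ min κa κb ≤ (L : ℝ) ^ κb := Real.rpow_le_rpow_of_exponent_le hL1 (min_le_right _ _)
  have eA : Real.exp (-(L : ℝ) ^ κa) ≤ Real.exp (-(L : ℝ) ^ min κa κb) := Real.exp_le_exp.2 (by linarith)
  have eB : Real.exp (-(L : ℝ) ^ κb) ≤ Real.exp (-(L : ℝ) ^ min κa κb) := Real.exp_le_exp.2 (by linarith)
  have cA : Real.exp (-(L : ℝ) ^ ca) ≤ Real.exp (-(L : ℝ) ^ min ca cb) :=
    Real.exp_le_exp.2 (neg_le_neg (Real.rpow_le_rpow_of_exponent_le hL1 (min_le_left _ _)))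
  have cB : Real.exp (-(L : ℝ) ^ cb) ≤ Real.exp (-(L : ℝ) ^ min ca cb) :=
    Real.exp_le_exp.2 (neg_le_neg (Real.rpow_le_rpow_of_exponent_le hL1 (min_le_right _ _)))
  have en1 : τ1 < en τ1 l1 q := by
    unfold en
    have : 1 * (l1 + 1) ≤ 3 * q * (l1 + 1) := Nat.mul_le_mul_right _ (by omega)
    omega
  have eno : τo ≤ en τo lo q := by
    unfold en
    omega
  have hl1' : 1 ≤ l := by
    have : (1 : ℝ) ≤ l := (Real.one_le_rpow hL1 hθ.le).trans hl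
    exact_mod_cast this
  have hT := hB L (by omega) N hLN hNL y hyN (hcone _ (min_le_right _ _)) c d τ2 l2 q l (by omega) (by omega) h7 hq1 hl2 hl H R hR hw hnear d3
    (eB.trans hd3) f hfm hf0 hf1 hfb
  have h8 := hA L (by omega) N hLN hNL y hyN (hcone _ (min_le_left _ _)) M hM (hML.trans kA) c d τ1 l1 τ2 l2 τo lo q g0 g1 l h1 h2 h3 h4 h5 h6
    h7 (hq.trans kA) hl hl1 hl2 hlo dd e1 d3 (eA.trans hdd) (eA.trans he1) f hfm hf0 hf1 hfb _ hT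
  have g0' : 0 ≤ ∫ ω, gm (wm μ s N (Pn N y) ω) (f ω) ∂(Pm μ N) := integral_nonneg fun ω => (gm01 (μ := μ) (s := s) hyN hf0 hf1 ω).1
  have hE : (0 : ℝ) < EE' μ s l := lt_of_lt_of_le one_pos (le_max_left _ _)
  have hX : 0 ≤ (L : ℝ) ^ ε * (EE' μ s l)⁻¹ := mul_nonneg (by positivity) (inv_nonneg.2 hE.le)
  have hRX : ((L : ℝ) ^ ε * (EE' μ s l)⁻¹) ^ 2 ≤ (R * ((L : ℝ) ^ ε * (EE' μ s l)⁻¹)) ^ 2 :=
    pow_le_pow_left₀ hX (le_mul_of_one_le_left hX hR) 2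
  have h9 := mul_le_mul_of_nonneg_right hRX g0'
  refine h8.trans ?_
  have e1' : 2 * ((L : ℝ) ^ ε * (EE' μ s l)⁻¹) ^ 2 * ∫ ω, gm (wm μ s N (Pn N y) ω) (f ω) ∂(Pm μ N) =
      2 * (((L : ℝ) ^ ε * (EE' μ s l)⁻¹) ^ 2 * ∫ ω, gm (wm μ s N (Pn N y) ω) (f ω) ∂(Pm μ N)) := by ring
  have e2' : 3 * (R * ((L : ℝ) ^ ε * (EE' μ s l)⁻¹)) ^ 2 * ∫ ω, gm (wm μ s N (Pn N y) ω) (f ω) ∂(Pm μ N) =
      3 * ((R * ((L : ℝ) ^ ε * (EE' μ s l)⁻¹)) ^ 2 * ∫ ω, gm (wm μ s N (Pn N y) ω) (f ω) ∂(Pm μ N)) := by ring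
  rw [e1', e2']
  linarith

/-- **BOTH MARGINS, OWN BEHIND**: the regions `a`, `b` of the two margins, region 1 < region 2 < `[g0, g1]` < own region `o`. -/
theorem okE_bothR (h : In μ s c₀ C₀ n₀) : ∀ ε θ : ℝ, 0 < ε → 0 < θ → ∃ δ κ c₂ : ℝ, 0 < δ ∧ 0 < κ ∧ 0 < c₂ ∧ ∃ L₀ : ℕ,
    ∀ L : ℕ, L₀ ≤ L → ∀ N : ℕ, L ≤ 16 * N → N ≤ L → ∀ y : ℕ, y ≤ N → |(y : ℝ) - sl μ s * N| ≤ ((L : ℝ) ^ δ * wd' μ s N) →
    ∀ M : ℝ, 8 ≤ M → M ≤ (L : ℝ) ^ κ → ∀ c d a1 m1 a2 m2 b1 n1 b2 n2 τo lo q g0 g1 l : ℕ, c ≤ a1 → en a1 m1 q ≤ a2 → en a2 m2 q ≤ g0 →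
    c ≤ b1 → en b1 n1 q ≤ b2 → en b2 n2 q ≤ g0 → g0 + l ≤ g1 → g1 ≤ τo → en τo lo q ≤ d → d ≤ N → 1 ≤ q →
    3 * (q : ℝ) ≤ (L : ℝ) ^ κ → (L : ℝ) ^ θ ≤ l → l ≤ m1 → l ≤ m2 → l ≤ n1 → l ≤ n2 → l ≤ lo →
    ∀ (H : ℕ) (R : ℝ), 1 ≤ R → (∀ j : ℕ, 1 ≤ j → j ≤ H → wd' μ s j ≤ R * wd' μ s l) → (d - a2 ≤ H ∨ en a2 m2 q - c ≤ H) →
    (d - b2 ≤ H ∨ en b2 n2 q - c ≤ H) →
    ∀ dd e1 d3 : ℝ, Real.exp (-(L : ℝ) ^ κ) ≤ dd → Real.exp (-(L : ℝ) ^ κ) ≤ e1 → Real.exp (-(L : ℝ) ^ κ) ≤ d3 →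
    ∀ f : Env × Finset ℕ → Px (Pn N y) → ℝ, (∀ A x, Measurable fun η => f (η, A) x) → (∀ ω x, 0 ≤ f ω x) → (∀ ω x, f ω x ≤ 1) →
    FinB (Ioo c d) f →
    ∫ ω, gm (wm μ s N (Pn N y) ω) (fun x => f ω x * Pool.W7d29a1.C0.O1.ind (fun x =>
      ¬ okE (wm μ s N (Pn N y) ω) (pJ c d) (fun x => bI (wm μ s N (Pn N y) ω) (pJ c d) τo lo q dd x = 1) q dd e1 d3 g0 g1 a1 m1 a2 m2 x ∨
      ¬ okE (wm μ s N (Pn N y) ω) (pJ c d) (fun x => bI (wm μ s N (Pn N y) ω) (pJ c d) τo lo q dd x = 1) q dd e1 d3 g0 g1 b1 n1 b2 n2 x)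
        x) ∂(Pm μ N) ≤
      6 * (R * ((L : ℝ) ^ ε * (EE' μ s l)⁻¹)) ^ 2 * ∫ ω, gm (wm μ s N (Pn N y) ω) (f ω) ∂(Pm μ N) +
        (6 * Real.exp (-(L : ℝ) ^ c₂) + 16 * Real.exp (-M)) := by
  intro ε θ hε hθ
  obtain ⟨δ, κ, c₂, hδ, hκ, hc₂, L₀, hP⟩ := okE_closeR h ε θ hε hθ
  refine ⟨δ, κ, c₂, hδ, hκ, hc₂, L₀, ?_⟩
  intro L hL N hLN hNL y hyN hyc M hM hML c d a1 m1 a2 m2 b1 n1 b2 n2 τo lo q g0 g1 l h1 h2 h3 h4 h5 h6 h7 h8 h9 h10 hq1 hq hl hm1 hm2 hn1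
    hn2 hlo H R hR hw hnA hnB dd e1 d3 hdd he1 hd3 f hfm hf0 hf1 hfb
  have hA := hP L hL N hLN hNL y hyN hyc M hM hML c d a1 m1 a2 m2 τo lo q g0 g1 l h1 h2 h3 h7 h8 h9 h10 hq1 hq hl hm1 hm2 hlo H R hR hw hnA
    dd e1 d3 hdd he1 hd3 f hfm hf0 hf1 hfb
  have hB := hP L hL N hLN hNL y hyN hyc M hM hML c d b1 n1 b2 n2 τo lo q g0 g1 l h4 h5 h6 h7 h8 h9 h10 hq1 hq hl hn1 hn2 hlo H R hR hw hnB
    dd e1 d3 hdd he1 hd3 f hfm hf0 hf1 hfb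
  have mA := fun A x => iE_meas (E := fun ω x => ¬ okE (wm μ s N (Pn N y) ω) (pJ c d)
    (fun x => bI (wm μ s N (Pn N y) ω) (pJ c d) τo lo q dd x = 1) q dd e1 d3 g0 g1 a1 m1 a2 m2 x)
    (fun A x => (meas_okE c d (Bo := fun ω x => bI (wm μ s N (Pn N y) ω) (pJ c d) τo lo q dd x = 1)
      (fun A x => meas_bI c d τo lo q dd A x) q dd e1 d3 g0 g1 a1 m1 a2 m2 A x).compl) A x
  have mB := fun A x => iE_meas (E := fun ω x => ¬ okE (wm μ s N (Pn N y) ω) (pJ c d)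
    (fun x => bI (wm μ s N (Pn N y) ω) (pJ c d) τo lo q dd x = 1) q dd e1 d3 g0 g1 b1 n1 b2 n2 x)
    (fun A x => (meas_okE c d (Bo := fun ω x => bI (wm μ s N (Pn N y) ω) (pJ c d) τo lo q dd x = 1)
      (fun A x => meas_bI c d τo lo q dd A x) q dd e1 d3 g0 g1 b1 n1 b2 n2 A x).compl) A x
  have := int_two (μ := μ) (s := s) hyN (F := fun ω x => f ω x * Pool.W7d29a1.C0.O1.ind (fun x =>
      ¬ okE (wm μ s N (Pn N y) ω) (pJ c d) (fun x => bI (wm μ s N (Pn N y) ω) (pJ c d) τo lo q dd x = 1) q dd e1 d3 g0 g1 a1 m1 a2 m2 x ∨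
      ¬ okE (wm μ s N (Pn N y) ω) (pJ c d) (fun x => bI (wm μ s N (Pn N y) ω) (pJ c d) τo lo q dd x = 1) q dd e1 d3 g0 g1 b1 n1 b2 n2 x) x)
    (fun ω x => mul_nonneg (hf0 ω x) (by unfold Pool.W7d29a1.C0.O1.ind; split_ifs <;> norm_num)) (fun ω x => ?_)
    (fun A x => (hfm A x).mul (mA A x)) (fun A x => (hfm A x).mul (mB A x))
    (fun ω x => mul_nonneg (hf0 ω x) (iE_mem _ ω x).1) (fun ω x => mul_nonneg (hf0 ω x) (iE_mem _ ω x).1)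
    (fun ω x => mul_le_one₀ (hf1 ω x) (iE_mem _ ω x).1 (iE_mem _ ω x).2) (fun ω x => mul_le_one₀ (hf1 ω x) (iE_mem _ ω x).1 (iE_mem _ ω x).2) hA hB
  · refine this.trans (le_of_eq ?_)
    ring
  · rw [← mul_add]
    refine mul_le_mul_of_nonneg_left ?_ (hf0 ω x)
    by_cases g1' : okE (wm μ s N (Pn N y) ω) (pJ c d) (fun x => bI (wm μ s N (Pn N y) ω) (pJ c d) τo lo q dd x = 1) q dd e1 d3 g0 g1
        a1 m1 a2 m2 x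
    · by_cases g2' : okE (wm μ s N (Pn N y) ω) (pJ c d) (fun x => bI (wm μ s N (Pn N y) ω) (pJ c d) τo lo q dd x = 1) q dd e1 d3 g0 g1
          b1 n1 b2 n2 x
      · unfold Pool.W7d29a1.C0.O1.ind
        rw [if_neg (by push Not; exact ⟨g1', g2'⟩)]
        exact add_nonneg (iE_mem _ ω x).1 (iE_mem _ ω x).1
      · have k1 := iE_one (E := fun ω x => ¬ okE (wm μ s N (Pn N y) ω) (pJ c d)
          (fun x => bI (wm μ s N (Pn N y) ω) (pJ c d) τo lo q dd x = 1) q dd e1 d3 g0 g1 b1 n1 b2 n2 x) g2'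
        rw [k1]
        unfold Pool.W7d29a1.C0.O1.ind
        rw [if_pos (Or.inr g2')]
        exact le_add_of_nonneg_left (iE_mem _ ω x).1
    · have k1 := iE_one (E := fun ω x => ¬ okE (wm μ s N (Pn N y) ω) (pJ c d)
        (fun x => bI (wm μ s N (Pn N y) ω) (pJ c d) τo lo q dd x = 1) q dd e1 d3 g0 g1 a1 m1 a2 m2 x) g1'
      rw [k1]
      unfold Pool.W7d29a1.C0.O1.ind
      rw [if_pos (Or.inl g1')]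
      exact le_add_of_nonneg_right (iE_mem _ ω x).1

/-- **BOTH MARGINS, OWN IN FRONT**: the regions `a`, `b` of the two margins, own region `o` < `[g0, g1]` < region 2 < region 1. -/
theorem okE_bothL (h : In μ s c₀ C₀ n₀) : ∀ ε θ : ℝ, 0 < ε → 0 < θ → ∃ δ κ c₂ : ℝ, 0 < δ ∧ 0 < κ ∧ 0 < c₂ ∧ ∃ L₀ : ℕ,
    ∀ L : ℕ, L₀ ≤ L → ∀ N : ℕ, L ≤ 16 * N → N ≤ L → ∀ y : ℕ, y ≤ N → |(y : ℝ) - sl μ s * N| ≤ ((L : ℝ) ^ δ * wd' μ s N) →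
    ∀ M : ℝ, 8 ≤ M → M ≤ (L : ℝ) ^ κ → ∀ c d a1 m1 a2 m2 b1 n1 b2 n2 τo lo q g0 g1 l : ℕ, c ≤ τo → en τo lo q ≤ g0 → g0 + l ≤ g1 →
    g1 ≤ a2 → en a2 m2 q ≤ a1 → en a1 m1 q ≤ d → g1 ≤ b2 → en b2 n2 q ≤ b1 → en b1 n1 q ≤ d → d ≤ N → 1 ≤ q →
    3 * (q : ℝ) ≤ (L : ℝ) ^ κ → (L : ℝ) ^ θ ≤ l → l ≤ m1 → l ≤ m2 → l ≤ n1 → l ≤ n2 → l ≤ lo →
    ∀ (H : ℕ) (R : ℝ), 1 ≤ R → (∀ j : ℕ, 1 ≤ j → j ≤ H → wd' μ s j ≤ R * wd' μ s l) → (d - a2 ≤ H ∨ en a2 m2 q - c ≤ H) →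
    (d - b2 ≤ H ∨ en b2 n2 q - c ≤ H) →
    ∀ dd e1 d3 : ℝ, Real.exp (-(L : ℝ) ^ κ) ≤ dd → Real.exp (-(L : ℝ) ^ κ) ≤ e1 → Real.exp (-(L : ℝ) ^ κ) ≤ d3 →
    ∀ f : Env × Finset ℕ → Px (Pn N y) → ℝ, (∀ A x, Measurable fun η => f (η, A) x) → (∀ ω x, 0 ≤ f ω x) → (∀ ω x, f ω x ≤ 1) →
    FinB (Ioo c d) f →
    ∫ ω, gm (wm μ s N (Pn N y) ω) (fun x => f ω x * Pool.W7d29a1.C0.O1.ind (fun x =>
      ¬ okE (wm μ s N (Pn N y) ω) (pJ c d) (fun x => bI (wm μ s N (Pn N y) ω) (pJ c d) τo lo q dd x = 1) q dd e1 d3 g0 g1 a1 m1 a2 m2 x ∨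
      ¬ okE (wm μ s N (Pn N y) ω) (pJ c d) (fun x => bI (wm μ s N (Pn N y) ω) (pJ c d) τo lo q dd x = 1) q dd e1 d3 g0 g1 b1 n1 b2 n2 x)
        x) ∂(Pm μ N) ≤
      6 * (R * ((L : ℝ) ^ ε * (EE' μ s l)⁻¹)) ^ 2 * ∫ ω, gm (wm μ s N (Pn N y) ω) (f ω) ∂(Pm μ N) +
        (6 * Real.exp (-(L : ℝ) ^ c₂) + 16 * Real.exp (-M)) := by
  intro ε θ hε hθ
  obtain ⟨δ, κ, c₂, hδ, hκ, hc₂, L₀, hP⟩ := okE_closeL h ε θ hε hθ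
  refine ⟨δ, κ, c₂, hδ, hκ, hc₂, L₀, ?_⟩
  intro L hL N hLN hNL y hyN hyc M hM hML c d a1 m1 a2 m2 b1 n1 b2 n2 τo lo q g0 g1 l h1 h2 h3 h4 h5 h6 h7 h8 h9 h10 hq1 hq hl hm1 hm2 hn1
    hn2 hlo H R hR hw hnA hnB dd e1 d3 hdd he1 hd3 f hfm hf0 hf1 hfb
  have hA := hP L hL N hLN hNL y hyN hyc M hM hML c d a1 m1 a2 m2 τo lo q g0 g1 l h1 h2 h3 h4 h5 h6 h10 hq1 hq hl hm1 hm2 hlo H R hR hw hnA
    dd e1 d3 hdd he1 hd3 f hfm hf0 hf1 hfb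
  have hB := hP L hL N hLN hNL y hyN hyc M hM hML c d b1 n1 b2 n2 τo lo q g0 g1 l h1 h2 h3 h7 h8 h9 h10 hq1 hq hl hn1 hn2 hlo H R hR hw hnB
    dd e1 d3 hdd he1 hd3 f hfm hf0 hf1 hfb
  have mA := fun A x => iE_meas (E := fun ω x => ¬ okE (wm μ s N (Pn N y) ω) (pJ c d)
    (fun x => bI (wm μ s N (Pn N y) ω) (pJ c d) τo lo q dd x = 1) q dd e1 d3 g0 g1 a1 m1 a2 m2 x)
    (fun A x => (meas_okE c d (Bo := fun ω x => bI (wm μ s N (Pn N y) ω) (pJ c d) τo lo q dd x = 1)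
      (fun A x => meas_bI c d τo lo q dd A x) q dd e1 d3 g0 g1 a1 m1 a2 m2 A x).compl) A x
  have mB := fun A x => iE_meas (E := fun ω x => ¬ okE (wm μ s N (Pn N y) ω) (pJ c d)
    (fun x => bI (wm μ s N (Pn N y) ω) (pJ c d) τo lo q dd x = 1) q dd e1 d3 g0 g1 b1 n1 b2 n2 x)
    (fun A x => (meas_okE c d (Bo := fun ω x => bI (wm μ s N (Pn N y) ω) (pJ c d) τo lo q dd x = 1)
      (fun A x => meas_bI c d τo lo q dd A x) q dd e1 d3 g0 g1 b1 n1 b2 n2 A x).compl) A x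
  have := int_two (μ := μ) (s := s) hyN (F := fun ω x => f ω x * Pool.W7d29a1.C0.O1.ind (fun x =>
      ¬ okE (wm μ s N (Pn N y) ω) (pJ c d) (fun x => bI (wm μ s N (Pn N y) ω) (pJ c d) τo lo q dd x = 1) q dd e1 d3 g0 g1 a1 m1 a2 m2 x ∨
      ¬ okE (wm μ s N (Pn N y) ω) (pJ c d) (fun x => bI (wm μ s N (Pn N y) ω) (pJ c d) τo lo q dd x = 1) q dd e1 d3 g0 g1 b1 n1 b2 n2 x) x)
    (fun ω x => mul_nonneg (hf0 ω x) (by unfold Pool.W7d29a1.C0.O1.ind; split_ifs <;> norm_num)) (fun ω x => ?_)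
    (fun A x => (hfm A x).mul (mA A x)) (fun A x => (hfm A x).mul (mB A x))
    (fun ω x => mul_nonneg (hf0 ω x) (iE_mem _ ω x).1) (fun ω x => mul_nonneg (hf0 ω x) (iE_mem _ ω x).1)
    (fun ω x => mul_le_one₀ (hf1 ω x) (iE_mem _ ω x).1 (iE_mem _ ω x).2) (fun ω x => mul_le_one₀ (hf1 ω x) (iE_mem _ ω x).1 (iE_mem _ ω x).2) hA hB
  · refine this.trans (le_of_eq ?_)
    ring
  · rw [← mul_add]
    refine mul_le_mul_of_nonneg_left ?_ (hf0 ω x)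
    by_cases g1' : okE (wm μ s N (Pn N y) ω) (pJ c d) (fun x => bI (wm μ s N (Pn N y) ω) (pJ c d) τo lo q dd x = 1) q dd e1 d3 g0 g1
        a1 m1 a2 m2 x
    · by_cases g2' : okE (wm μ s N (Pn N y) ω) (pJ c d) (fun x => bI (wm μ s N (Pn N y) ω) (pJ c d) τo lo q dd x = 1) q dd e1 d3 g0 g1
          b1 n1 b2 n2 x
      · unfold Pool.W7d29a1.C0.O1.ind
        rw [if_neg (by push Not; exact ⟨g1', g2'⟩)]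
        exact add_nonneg (iE_mem _ ω x).1 (iE_mem _ ω x).1
      · have k1 := iE_one (E := fun ω x => ¬ okE (wm μ s N (Pn N y) ω) (pJ c d)
          (fun x => bI (wm μ s N (Pn N y) ω) (pJ c d) τo lo q dd x = 1) q dd e1 d3 g0 g1 b1 n1 b2 n2 x) g2'
        rw [k1]
        unfold Pool.W7d29a1.C0.O1.ind
        rw [if_pos (Or.inr g2')]
        exact le_add_of_nonneg_left (iE_mem _ ω x).1
    · have k1 := iE_one (E := fun ω x => ¬ okE (wm μ s N (Pn N y) ω) (pJ c d)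
        (fun x => bI (wm μ s N (Pn N y) ω) (pJ c d) τo lo q dd x = 1) q dd e1 d3 g0 g1 a1 m1 a2 m2 x) g1'
      rw [k1]
      unfold Pool.W7d29a1.C0.O1.ind
      rw [if_pos (Or.inl g1')]
      exact le_add_of_nonneg_right (iE_mem _ ω x).1

end Pool.Agent.W_7d29a1_C0.P15
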