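import Pool.Agent.W_7d29a1_C0.PlanS41

/-!
CURV0 (MP_7d29a1_pr), leaves T (TL3, TL8): THE SIGNED SLAB STEP (helper90). In the localised slab step of `BoxS41` / `PlanS41` the
remainder is a sum over the boxes `β` of ABSOLUTE values of `ins (T - C^β) (lc β Ψ)`, so that the exact algebra of
`D_(T - C)` (total variance, `dT72_slab`, `dT72_block`) is not available. Here the full field `C` (no cut) is split off BEFORE the
absolute values: `Σ_β ins (T - C^β) (lc β Ψ) = ins (T - C) Ψ + Σ_β ins (C - C^β) (lc β Ψ)`; only the second part (the field outside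
of the boxes) stays box by box.
-/

set_option autoImplicit false
set_option linter.unusedSectionVars false
set_option linter.unusedVariables false

namespace Pool.W7d29a1.C0.R90

open MeasureTheory ProbabilityTheory Filter Topology Finset
open Pool.Agent.W_7d29a1_F Pool.Agent.W_7d29a1_C0.H32 Pool.W7d29a1.C0 Pool.W7d29a1.C0.H41
open Pool.W7d29a1.C0.R63 (DF GF Sd Bl est_oneD est_twoD one_id ibpG2 ins_sub)
open Pool.W7d29a1.C0.I52 (Plan KS dn ks_ev ks_ins)

noncomputable section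

variable {X ι ι' : Type*} [Fintype X] [Nonempty X] [Fintype ι] [DecidableEq ι] [Fintype ι'] [DecidableEq ι']
  {B : Type*} [Fintype B] [DecidableEq B] {E : Ev X ι} {E' : Ev X ι'}
  {μ : Measure ℝ} {f f' : ℝ → ℝ}

/-- The field outside of the boxes, box by box, is at most its absolute value. -/
theorem far_le (d : Dr E E') (b : X → B) (χ : (ι → B) → Pt → ℝ) (S : Finset Pt) (c : Pt → Env → ℝ) (N : Pt → X → ℝ)
    (Ψ : (ι → X) → ℝ) (w : X → ℝ) (η : Env) :
    ∑ β : ι → B, |E'.ev w (d.ins (H19.Cf S (cut' (χ β) c) N η) (lcG b β Ψ))| ≤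
      E'.ev w (fun y => |d.insR b (fun β => H19.Cf S (cut' (χ β) c) N η) Ψ y|) := by
  have e2 : ∀ y : ι' → X, |d.insR b (fun β => H19.Cf S (cut' (χ β) c) N η) Ψ y| =
      ∑ β : ι → B, |d.ins (H19.Cf S (cut' (χ β) c) N η) (lcG b β Ψ) y| := fun y => by
    have e3 : ∀ β : ι → B, |d.ins (H19.Cf S (cut' (χ β) c) N η) (lcG b β Ψ) y| =
        if (fun i => b (y (d.emb i))) = β then |d.ins (H19.Cf S (cut' (χ β) c) N η) Ψ y| else 0 := fun β => by
      unfold Dr.ins lcG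
      split_ifs with h
      · rfl
      · rw [zero_mul, abs_zero]
    rw [Finset.sum_congr rfl fun β _ => e3 β, Finset.sum_ite_eq]
    simp [Dr.insR]
  rw [ev_congr _ _ e2, ev_sum]
  exact Finset.sum_le_sum fun β _ => abs_ev_le _ _ _

/-- **THE SIGNED SLAB STEP, blind observable.** -/
theorem oneSg [IsProbabilityMeasure μ] (d : Dr E E') (h : DenLaw μ f f') {K θ0 : ℝ} (hs : SG μ (sc f f') K θ0)
    {bk : Bool} {S : Finset Pt} {c : Pt → Env → ℝ} {M V D τ Q : ℝ} {χ : (ι → B) → Pt → ℝ} (sl : SlD bk S c M χ Q)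
    {w : Env → X → ℝ} {N : Pt → X → ℝ} (hw : Wt S w N V) {Ψ : Env → (ι → X) → ℝ}
    (hΨ : Obs Ψ D) (hbl : ∀ q ∈ S, ∀ (η : Env) (x : ℝ), Ψ (Function.update η q x) = Ψ η) {T : Env → X → ℝ}
    (hT : Measurable T) (hτ : ∀ η y, |T η y| ≤ τ) (b : X → B) {t a : ℝ} (ht : 0 < t) (ha : 0 ≤ a) (htM : t * M ≤ θ0) :
    |∫ η, E'.ev (w η) (d.ins (T η) (Ψ η)) ∂(law μ)| ≤
      a * ∫ η, E.ev (w η) (fun x => |Ψ η x|) ∂(law μ) + (Fintype.card (ι → B) : ℝ) * tail1 K D t a Q +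
      |∫ η, E'.ev (w η) (d.ins (T η - H19.Cf S c N η) (Ψ η)) ∂(law μ)| +
      ∫ η, E'.ev (w η) (fun y => |d.insR b (fun β => H19.Cf S (cut' (χ β) c) N η) (Ψ η) y|) ∂(law μ) := by
  have hC := meas_Cf sl.df.meas N
  have hCb : ∀ η y, |H19.Cf S c N η y| ≤ S.card * (M * V) := fun η y => abs_Cf_le sl.df.bd hw.bd η y
  have o : ∀ β : ι → B, Obs (fun η => d.ins (T η) (lcG b β (Ψ η))) (D * (d.sz * τ)) := fun β =>
    (hΨ.lc b β).ins d hT hτ
  have oC : ∀ β : ι → B, Obs (fun η => d.ins (T η - H19.Cf S c N η) (lcG b β (Ψ η)))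
      (D * (d.sz * (τ + S.card * (M * V)))) := fun β =>
    (hΨ.lc b β).ins d (hT.sub hC) fun η y => (abs_sub _ _).trans (add_le_add (hτ η y) (hCb η y))
  have hC' : ∀ β : ι → B, Measurable (H19.Cf S (cut' (χ β) c) N) := fun β => meas_Cf (sl.cutDF' β).meas N
  have hCb' : ∀ (β : ι → B) η y, |H19.Cf S (cut' (χ β) c) N η y| ≤ S.card * (M * V) := fun β η y =>
    abs_Cf_le (sl.cutDF' β).bd hw.bd η y
  have oC' : ∀ β : ι → B, Obs (fun η => d.ins (H19.Cf S (cut' (χ β) c) N η) (lcG b β (Ψ η)))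
      (D * (d.sz * (S.card * (M * V)))) := fun β => (hΨ.lc b β).ins d (hC' β) (hCb' β)
  -- the sum over the boxes
  have e : ∀ η, E'.ev (w η) (d.ins (T η) (Ψ η)) = ∑ β : ι → B, E'.ev (w η) (d.ins (T η) (lcG b β (Ψ η))) := fun η => by
    rw [← ev_sum]
    exact ev_congr _ _ fun y => ins_sumΨ d (T η) univ (fun x => (sum_lcG b (Ψ η) x).symm) y
  have e' : ∀ η, E'.ev (w η) (d.ins (T η - H19.Cf S c N η) (Ψ η)) =
      ∑ β : ι → B, E'.ev (w η) (d.ins (T η - H19.Cf S c N η) (lcG b β (Ψ η))) := fun η => by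
    rw [← ev_sum]
    exact ev_congr _ _ fun y => ins_sumΨ d _ univ (fun x => (sum_lcG b (Ψ η) x).symm) y
  -- one box
  have k : ∀ β : ι → B, ∫ η, E'.ev (w η) (d.ins (T η) (lcG b β (Ψ η))) ∂(law μ) =
      ∫ η, E.ev (w η) (lcG b β (Ψ η)) * SS (sc f f') S (cut (χ β) c) η ∂(law μ) +
      ∫ η, E'.ev (w η) (d.ins (T η - H19.Cf S c N η) (lcG b β (Ψ η))) ∂(law μ) +
      ∫ η, E'.ev (w η) (d.ins (H19.Cf S (cut' (χ β) c) N η) (lcG b β (Ψ η))) ∂(law μ) := fun β => by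
    have k0 := one_id d h ((sl.cutDF β).gf hs) hw (hΨ.lc b β) (D1 := 0) (fun p _ => (Obs_zero (X := X)).lc b β)
      (Sd_lc (Sd_blind hbl) b β) hT hτ
    have z : ∫ η, ∑ p ∈ S, cut (χ β) c p η * E.ev (w η) (lcG b β (fun _ : ι → X => (0 : ℝ))) ∂(law μ) = 0 := by
      simp_rw [lcG_zero, ev_const, mul_zero, Finset.sum_const_zero, integral_zero]
    rw [k0, z, sub_zero, add_assoc, ← integral_add ((oC β).int E' hw.meas) ((oC' β).int E' hw.meas)]
    congr 1
    refine integral_congr_ae (Filter.Eventually.of_forall fun η => ?_)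
    show E'.ev (w η) _ = E'.ev (w η) _ + E'.ev (w η) _
    rw [← ev_add]
    refine ev_congr _ _ fun y => ?_
    rw [← ins_add]
    congr 1
    rw [Cf_split (χ β) S c N η]
    abel
  have k1 : |∫ η, E'.ev (w η) (d.ins (T η) (Ψ η)) ∂(law μ)| ≤
      ∑ β : ι → B, |∫ η, E.ev (w η) (lcG b β (Ψ η)) * SS (sc f f') S (cut (χ β) c) η ∂(law μ)| +
      |∫ η, E'.ev (w η) (d.ins (T η - H19.Cf S c N η) (Ψ η)) ∂(law μ)| +
      ∑ β : ι → B, |∫ η, E'.ev (w η) (d.ins (H19.Cf S (cut' (χ β) c) N η) (lcG b β (Ψ η))) ∂(law μ)| := by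
    have e1 : ∫ η, E'.ev (w η) (d.ins (T η) (Ψ η)) ∂(law μ) =
        ∑ β : ι → B, ∫ η, E.ev (w η) (lcG b β (Ψ η)) * SS (sc f f') S (cut (χ β) c) η ∂(law μ) +
        ∫ η, E'.ev (w η) (d.ins (T η - H19.Cf S c N η) (Ψ η)) ∂(law μ) +
        ∑ β : ι → B, ∫ η, E'.ev (w η) (d.ins (H19.Cf S (cut' (χ β) c) N η) (lcG b β (Ψ η))) ∂(law μ) := by
      simp_rw [e]
      rw [integral_finsetSum _ fun β _ => (o β).int E' hw.meas, Finset.sum_congr rfl fun β _ => k β,
        Finset.sum_add_distrib, Finset.sum_add_distrib]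
      congr 2
      simp_rw [e']
      rw [integral_finsetSum _ fun β _ => (oC β).int E' hw.meas]
    rw [e1]
    exact (abs_add_le _ _).trans (add_le_add ((abs_add_le _ _).trans (add_le_add (Finset.abs_sum_le_sum_abs _ _) le_rfl))
      (Finset.abs_sum_le_sum_abs _ _))
  refine k1.trans (add_le_add (add_le_add ?_ le_rfl) ?_)
  · -- the scores
    have k2 : ∀ β : ι → B, |∫ η, E.ev (w η) (lcG b β (Ψ η)) * SS (sc f f') S (cut (χ β) c) η ∂(law μ)| ≤
        a * ∫ η, |E.ev (w η) (lcG b β (Ψ η))| ∂(law μ) + tail1 K D t a Q := fun β =>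
      est_oneD hs (sl.cutDF β) sl.pos ht htM (sl.qv β) ((hΨ.lc b β).int E hw.meas)
        fun η => abs_ev_le_of E (w η) ((hΨ.lc b β).bd η)
    refine (Finset.sum_le_sum fun β _ => k2 β).trans ?_
    rw [Finset.sum_add_distrib, Finset.sum_const, Finset.card_univ, nsmul_eq_mul, ← Finset.mul_sum]
    exact add_le_add (mul_le_mul_of_nonneg_left (sum_int_abs_lc hΨ E hw.meas b) ha) le_rfl
  · -- the far part
    have i1 : ∀ β : ι → B, Integrable (fun η => E'.ev (w η) (d.ins (H19.Cf S (cut' (χ β) c) N η) (lcG b β (Ψ η)))) (law μ) :=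
      fun β => (oC' β).int E' hw.meas
    have e3 : ∀ η, E'.ev (w η) (fun y => |d.insR b (fun β => H19.Cf S (cut' (χ β) c) N η) (Ψ η) y|) =
        ∑ β : ι → B, E'.ev (w η) (fun y => |d.ins (H19.Cf S (cut' (χ β) c) N η) (lcG b β (Ψ η)) y|) := fun η => by
      rw [← ev_sum]
      refine ev_congr _ _ fun y => ?_
      have e4 : ∀ β : ι → B, |d.ins (H19.Cf S (cut' (χ β) c) N η) (lcG b β (Ψ η)) y| =
          if (fun i => b (y (d.emb i))) = β then |d.ins (H19.Cf S (cut' (χ β) c) N η) (Ψ η) y| else 0 := fun β => by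
        unfold Dr.ins lcG
        split_ifs with h
        · rfl
        · rw [zero_mul, abs_zero]
      rw [Finset.sum_congr rfl fun β _ => e4 β, Finset.sum_ite_eq]
      simp [Dr.insR]
    have i2 : Integrable (fun η => E'.ev (w η) (fun y => |d.insR b (fun β => H19.Cf S (cut' (χ β) c) N η) (Ψ η) y|))
        (law μ) := by
      simp_rw [e3]
      exact integrable_finsetSum _ fun β _ => ((oC' β).abs).int E' hw.meas
    refine (Finset.sum_le_sum fun β _ => abs_integral_le_integral_abs).trans ?_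
    rw [← integral_finsetSum _ fun β _ => (i1 β).abs]
    exact integral_mono (integrable_finsetSum _ fun β _ => (i1 β).abs) i2 fun η => far_le d b χ S c N (Ψ η) (w η) η

variable [DecidableEq X] {m : ℕ}

/-- **THE SIGNED SLAB STEP FOR A PLAN, blind observable**: the remainder `ins P w (T - C) Ψ` is with the FULL field. -/
theorem planSg [IsProbabilityMeasure μ] (P : Plan X m) (h : DenLaw μ f f') {K θ0 : ℝ} (hs : SG μ (sc f f') K θ0)
    {bk : Bool} {S : Finset Pt} {c : Pt → Env → ℝ} {M V D τ Q : ℝ} {χ : (Fin m → B) → Pt → ℝ} (sl : SlD bk S c M χ Q)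
    {w : Env → X → ℝ} {N : Pt → X → ℝ} (hw : Wt S w N V) {Ψ : Env → (Fin m → X) → ℝ}
    (hΨ : Obs Ψ D) (hbl : ∀ q ∈ S, ∀ (η : Env) (x : ℝ), Ψ (Function.update η q x) = Ψ η) {T : Env → X → ℝ}
    (hT : Measurable T) (hτ : ∀ η y, |T η y| ≤ τ) (b : X → B) {t a : ℝ} (ht : 0 < t) (ha : 0 ≤ a) (htM : t * M ≤ θ0) :
    |∫ η, I52.ins P (w η) (T η) (Ψ η) ∂(law μ)| ≤
      a * ∫ η, I52.ev P (w η) (fun x => |Ψ η x|) ∂(law μ) + (Fintype.card (Fin m → B) : ℝ) * tail1 K D t a Q +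
      |∫ η, I52.ins P (w η) (T η - H19.Cf S c N η) (Ψ η) ∂(law μ)| +
      ∫ η, P.ks.dbl.toEv.ev (w η) (fun y => |P.ks.dr.insR b (fun β => H19.Cf S (cut' (χ β) c) N η) (Ψ η) y|) ∂(law μ) := by
  have k := oneSg P.ks.dr h hs sl hw hΨ hbl hT hτ b ht ha htM
  simp only [ks_ins, ks_ev] at k
  exact k

end

end Pool.W7d29a1.C0.R90
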