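import Pool.Agent.W_7d29a1_C0.LocB15
import Pool.Agent.W_7d29a1_C0.Cls15

/-!
MP_7d29a1_pr, [C0], helper15: THE PRICE OF THE OWN LOOP BEHIND A PLACE WHICH IS TAKEN UP TO THE ROW `e - T`. A conditional replica which misses
the base path on `[e - b / 4, e]` and meets it in `[e - 3 b, e + b]` has a mass which is not very small with the price `L ^ ε / EE' T`, given
every event which does not see the rows `(e - T, e + b]` (`own_near`; any block `[c, d)` of the replica around `[e - 3 b, e + b]`). The price of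
a family of closing times of a replica at ONE window (`mic_cl`).
-/

set_option autoImplicit false

namespace Pool.Agent.W_7d29a1_C0.P15

open MeasureTheory ProbabilityTheory Filter Topology Finset
open Pool.Agent.W_7d29a1_F Pool.Agent.W_7d29a1_X Pool.Agent.W_7d29a1_h4g Pool.Agent.W_7d29a1_H
open Pool.Agent.W_7d29a1_HS (In wd md)
open Pool.Agent.W_7d29a1_HZ Pool.Agent.W_7d29a1_HZ.R72 Pool.Agent.W_7d29a1_Z.Asm72
open Pool.Agent.W_7d29a1_HZ.Z86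
open Pool.Agent.W_7d29a1_C0.P86
open Pool.Agent.W_7d29a1_C0.P3 (Hy hy_ms hy_off er amp amp_ex)
open scoped ENNReal

variable {μ : Measure ℝ} {s : ℝ} {N : ℕ}

/-! ### Numbers -/

/-- The errors are tiny. -/
theorem tiny15 {c₁ : ℝ} (hc₁ : 0 < c₁) : ∃ κ c₂ : ℝ, 0 < κ ∧ κ ≤ c₁ ∧ 0 < c₂ ∧ ∃ L₀ : ℕ, ∀ L : ℕ, L₀ ≤ L →
    (L : ℝ) ≤ Real.exp ((L : ℝ) ^ κ) ∧ ∀ N : ℕ, N ≤ L → ∀ x : ℝ, x ≤ 2 * (L : ℝ) ^ κ →
    ENNReal.ofReal ((L : ℝ) ^ 3) * (ENNReal.ofReal (Real.exp (-(L : ℝ) ^ c₁)) + er N x (3 * (L : ℝ) ^ κ)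
      (ENNReal.ofReal (Real.exp (-(L : ℝ) ^ c₁)))) ≤ ENNReal.ofReal (Real.exp (-(L : ℝ) ^ c₂)) := by
  obtain ⟨c₂, hc₂, -, L₂, hX⟩ := Pool.Agent.W_7d29a1_Z.NumI77.pow_exp (show 0 < c₁ / 4 by positivity) 6
  obtain ⟨L₃, hL₃⟩ := Pool.Agent.W_7d29a1_Z.NumI77.large (show 0 < c₁ / 4 by positivity) 4
  refine ⟨c₁ / 4, c₂, by positivity, by linarith, hc₂, L₂ + L₃ + 100, ?_⟩
  intro L hL
  have hL100 : (100 : ℝ) ≤ L := by exact_mod_cast (show 100 ≤ L by omega)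
  have hL0 : (0 : ℝ) < L := by linarith
  obtain ⟨-, hx4, hlog⟩ := hL₃ L (by omega)
  obtain ⟨X, hX'⟩ : ∃ X : ℝ, X = (L : ℝ) ^ (c₁ / 4) := ⟨_, rfl⟩
  rw [← hX'] at hx4 hlog
  refine ⟨?_, ?_⟩
  · rw [← hX', ← Real.log_le_iff_le_exp hL0]
    have h0 : 0 ≤ Real.log L := Real.log_nonneg (by linarith)
    nlinarith
  intro N hNL x hx
  rw [← hX'] at hx ⊢
  have hxx : (L : ℝ) ^ c₁ = X ^ 4 := by
    rw [hX', ← Real.rpow_natCast, ← Real.rpow_mul hL0.le]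
    congr 1
    push_cast
    ring
  have h5 := hX L (by omega)
  rw [← hX'] at h5
  have e6 : (L : ℝ) ^ (6 : ℝ) = (L : ℝ) ^ 6 := by
    rw [← Real.rpow_natCast]
    norm_num
  rw [e6] at h5
  unfold er
  rw [hxx, ← ENNReal.ofReal_mul (Real.exp_pos _).le, ← ENNReal.ofReal_add (by positivity) (by positivity),
    ← ENNReal.ofReal_mul (Real.exp_pos x).le, ← ENNReal.ofReal_add (Real.exp_pos _).le (by positivity),
    ← ENNReal.ofReal_mul (by positivity)]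
  refine ENNReal.ofReal_le_ofReal (le_trans ?_ h5)
  have hX1 : X * 8 ≤ X ^ 4 := by
    have h1 : (8 : ℝ) ≤ X ^ 3 := by nlinarith [sq_nonneg X]
    nlinarith
  have hNL' : (N : ℝ) ≤ L := by exact_mod_cast hNL
  have hN0 : (0 : ℝ) ≤ N := Nat.cast_nonneg N
  have g0 : Real.exp (-X ^ 4) ≤ Real.exp (-X) := Real.exp_le_exp.2 (by linarith)
  have g1 : Real.exp x * (Real.exp (3 * X) * Real.exp (-X ^ 4)) ≤ Real.exp (-X) := by
    rw [← Real.exp_add, ← Real.exp_add]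
    exact Real.exp_le_exp.2 (by linarith)
  have g2 : Real.exp x * Real.exp (-(3 * X)) ≤ Real.exp (-X) := by
    rw [← Real.exp_add]
    exact Real.exp_le_exp.2 (by linarith)
  have g3 : ((N : ℝ) + 1) ^ 2 ≤ 4 * (L : ℝ) ^ 2 := by nlinarith
  have hp0 := (Real.exp_pos (-X)).le
  have g4 : Real.exp (-X ^ 4) + Real.exp x * (Real.exp (3 * X) * Real.exp (-X ^ 4) + ((N : ℝ) + 1) ^ 2 * Real.exp (-(3 * X))) ≤
      (2 + 4 * (L : ℝ) ^ 2) * Real.exp (-X) := by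
    have g5 : Real.exp x * (((N : ℝ) + 1) ^ 2 * Real.exp (-(3 * X))) ≤ 4 * (L : ℝ) ^ 2 * Real.exp (-X) := by
      calc _ = ((N : ℝ) + 1) ^ 2 * (Real.exp x * Real.exp (-(3 * X))) := by ring
        _ ≤ 4 * (L : ℝ) ^ 2 * Real.exp (-X) := mul_le_mul g3 g2 (by positivity) (by positivity)
    rw [mul_add]
    linarith
  calc (L : ℝ) ^ 3 * _ ≤ (L : ℝ) ^ 3 * ((2 + 4 * (L : ℝ) ^ 2) * Real.exp (-X)) := mul_le_mul_of_nonneg_left g4 (by positivity)
    _ = ((L : ℝ) ^ 3 * (2 + 4 * (L : ℝ) ^ 2)) * Real.exp (-X) := by ring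
    _ ≤ (L : ℝ) ^ 6 * Real.exp (-X) := by
        refine mul_le_mul_of_nonneg_right ?_ hp0
        have g6 : 2 + 4 * (L : ℝ) ^ 2 ≤ (L : ℝ) ^ 3 := by nlinarith [sq_nonneg (L : ℝ)]
        calc (L : ℝ) ^ 3 * (2 + 4 * (L : ℝ) ^ 2) ≤ (L : ℝ) ^ 3 * (L : ℝ) ^ 3 := mul_le_mul_of_nonneg_left g6 (by positivity)
          _ = (L : ℝ) ^ 6 := by ring

/-- The number of dyadic scales. -/
theorem log_card {ε : ℝ} (hε : 0 < ε) (B : ℝ) (hB : 0 ≤ B) : ∃ L₀ : ℕ, ∀ L : ℕ, L₀ ≤ L → ∀ n : ℕ, n ≤ L →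
    (((Nat.log 2 n + 4 : ℕ) : ℝ)) * B ≤ (L : ℝ) ^ ε := by
  obtain ⟨L₂, hL₂⟩ := Pool.Agent.W_7d29a1_Z.NumI77.large hε (6 * B)
  refine ⟨L₂ + 1, fun L hL n hn => ?_⟩
  obtain ⟨hL1, -, hlog⟩ := hL₂ L (by omega)
  refine le_trans ?_ hlog
  have hLR : (1 : ℝ) ≤ L := by exact_mod_cast hL1
  have h0 : 0 ≤ Real.log L := Real.log_nonneg hLR
  have h1 : ((Nat.log 2 n : ℕ) : ℝ) ≤ 2 * Real.log L := by
    rcases Nat.eq_zero_or_pos n with h | h
    · rw [h, Nat.log_zero_right]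
      push_cast
      linarith
    · have hn1 : (1 : ℝ) ≤ n := by exact_mod_cast h
      have h1 : ((Nat.log 2 n : ℕ) : ℝ) ≤ Real.logb 2 n := by
        have := Real.natLog_le_logb n 2
        exact_mod_cast this
      have h2 : Real.logb 2 n ≤ 2 * Real.log n := by
        unfold Real.logb
        rw [div_le_iff₀ (Real.log_pos (by norm_num))]
        have h3 : (0.5 : ℝ) ≤ Real.log 2 := by linarith [Real.log_two_gt_d9]
        have h4 : 0 ≤ Real.log n := Real.log_nonneg hn1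
        nlinarith
      have h5 : Real.log n ≤ Real.log L := Real.log_le_log (by linarith) (by exact_mod_cast hn)
      linarith
  push_cast
  nlinarith

variable [IsProbabilityMeasure μ] {c₀ C₀ : ℝ} {n₀ : ℕ}

/-! ### The own loop -/

/-- The replica misses the base path on `[e - b / 4, e]` and meets it in `[e - 3 b, e + b]`. -/
def OwnR (e b : ℕ) (S S' : Finset ℕ) : Prop := NoMeet (e - b / 4) e S S' ∧ ∃ i, e - 3 * b ≤ i ∧ i ≤ e + b ∧ pos S i = pos S' i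

/-- The length of the place. -/
def tO (T b i : ℕ) : ℕ := if i = 0 then T / 2 else if i = 1 then b / 3 else 2 ^ (i - 1) * T

/-- The left end of the place. -/
def aO (T e i : ℕ) : ℕ := if i = 0 then e - T + 1 else e + 1

omit [IsProbabilityMeasure μ] in
/-- The own loop has a place. -/
theorem own_cover {T b e c d : ℕ} (hT : 12 ≤ T) (hTb : 4 * T ≤ b) (hc : c + 3 * b ≤ e) (hd : e + b ≤ d) {S S' : Finset ℕ}
    (hout : ∀ i, i ≤ c ∨ d ≤ i → pos S i = pos S' i) (h : OwnR e b S S') :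
    ∃ i ∈ (range (Nat.log 2 b + 2)).filter fun i => tO T b i < b, Bkn c d (tO T b i) (aO T e i) S S' := by
  obtain ⟨h1, i₀, h2, h3, h4⟩ := h
  have hex : ∃ k, e < k ∧ pos S k = pos S' k := ⟨d, by omega, hout d (Or.inr le_rfl)⟩
  obtain ⟨q, hq⟩ : ∃ q, q = Nat.find hex := ⟨_, rfl⟩
  obtain ⟨g1, g2⟩ := Nat.find_spec hex
  rw [← hq] at g1 g2
  have g3 : q ≤ d := hq ▸ Nat.find_min' hex ⟨by omega, hout d (Or.inr le_rfl)⟩
  have g4 : NoMeet (e - b / 4) (q - 1) S S' := fun k hk1 hk2 => by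
    by_cases hk : k ≤ e
    · exact h1 k hk1 hk
    · intro h5
      exact Nat.find_min hex (show k < Nat.find hex by omega) ⟨by omega, h5⟩
  have hc0 : pos S c = pos S' c := hout c (Or.inl le_rfl)
  have hlb : Nat.log 2 b = Nat.log 2 b := rfl
  by_cases hA : q ≤ e + 4 * T
  · refine ⟨0, ?_, c, q, le_rfl, ?_, ?_, g3, Or.inr ?_, hc0, g2, fun k hk1 hk2 => g4 k ?_ ?_⟩
    · rw [mem_filter, mem_range]
      refine ⟨by omega, ?_⟩
      unfold tO
      rw [if_pos rfl]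
      omega
    all_goals
      simp only [tO, aO, if_pos] at *
      omega
  · by_cases hB : q ≤ e + b
    · obtain ⟨D, hD⟩ : ∃ D, D = q - e := ⟨_, rfl⟩
      obtain ⟨m, hm⟩ : ∃ m, m = Nat.log 2 ((D - 1) / T) := ⟨_, rfl⟩
      have k1 : 4 ≤ (D - 1) / T := by
        rw [Nat.le_div_iff_mul_le (by omega)]
        omega
      have k2 : 2 ^ m ≤ (D - 1) / T := hm ▸ Nat.pow_log_le_self 2 (by omega)
      have k3 : (D - 1) / T < 2 ^ (m + 1) := hm ▸ Nat.lt_pow_succ_log_self (by norm_num) _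
      rw [Nat.le_div_iff_mul_le (by omega)] at k2
      rw [Nat.div_lt_iff_lt_mul (by omega)] at k3
      have k4 : 1 ≤ m := by
        rw [hm]
        exact Nat.le_log_of_pow_le (by norm_num) (by omega)
      have k5 : 2 ^ (m + 1) * T = 2 * (2 ^ m * T) := by ring
      rw [k5] at k3
      obtain ⟨t, ht⟩ : ∃ t, t = 2 ^ m * T := ⟨_, rfl⟩
      rw [← ht] at k2 k3
      have k6 : tO T b (m + 1) = t := by
        unfold tO
        rw [if_neg (by omega), if_neg (by omega), ht]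
        rfl
      have k7 : aO T e (m + 1) = e + 1 := by
        unfold aO
        rw [if_neg (by omega)]
      have k8 : 2 ^ m ≤ b := by
        have : 2 ^ m * 1 ≤ 2 ^ m * T := Nat.mul_le_mul_left _ (by omega)
        omega
      have k9 : m ≤ Nat.log 2 b := Nat.le_log_of_pow_le (by norm_num) k8
      have k10 : 2 * 12 ≤ 2 ^ m * T := Nat.mul_le_mul (by
        calc 2 = 2 ^ 1 := by norm_num
          _ ≤ 2 ^ m := Nat.pow_le_pow_right (by norm_num) k4) hT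
      refine ⟨m + 1, ?_, ?_⟩
      · rw [mem_filter, mem_range, k6]
        omega
      · rw [k6, k7]
        exact ⟨c, q, le_rfl, by omega, by omega, g3, Or.inr (by omega), hc0, g2, fun k hk1 hk2 => g4 k (by omega) (by omega)⟩
    · refine ⟨1, ?_, i₀, q, by omega, ?_, ?_, g3, Or.inl ?_, h4, g2, fun k hk1 hk2 => g4 k ?_ ?_⟩
      · rw [mem_filter, mem_range]
        refine ⟨by omega, ?_⟩
        unfold tO
        rw [if_neg (by norm_num), if_pos rfl]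
        omega
      · have h5 : ¬ (e - b / 4 ≤ i₀) := fun h5 => g4 i₀ h5 (by omega) h4
        simp only [aO]
        norm_num
        omega
      all_goals
        simp only [tO, aO] at *
        norm_num at *
        omega

/-- **THE PRICE OF THE OWN LOOP.** -/
theorem own_near (h : In μ s c₀ C₀ n₀) : ∀ ε θ : ℝ, 0 < ε → 0 < θ → ∃ δ κ c₂ : ℝ, 0 < δ ∧ 0 < κ ∧ 0 < c₂ ∧ ∃ L₀ : ℕ, ∀ L : ℕ, L₀ ≤ L →
    ∀ N : ℕ, L ≤ 16 * N → N ≤ L → ∀ y : ℕ, y ≤ N → |(y : ℝ) - sl μ s * N| ≤ ((L : ℝ) ^ δ * wd' μ s N) →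
    ∀ T b e c d : ℕ, (L : ℝ) ^ θ ≤ T → 4 * T ≤ b → c + 3 * b ≤ e → e + b ≤ d → d ≤ N → ∀ x : ℝ, x ≤ (L : ℝ) ^ κ →
    ∀ F : Env → Finset ℕ → Prop, Ms F → OffRows (Ioc (e - T) (e + b)) F →
    P1 μ s N y (fun η S => F η S ∧ Hy μ s N y c d (OwnR e b) x η S) ≤
      ENNReal.ofReal ((L : ℝ) ^ ε * (EE' μ s T)⁻¹) * P1 μ s N y F + ENNReal.ofReal (Real.exp (-(L : ℝ) ^ c₂)) := by
  intro ε θ hε hθ
  obtain ⟨a, K, ha, ha1, hK, hE⟩ := EE'_pow h
  obtain ⟨δ, c₁, hδ, hc₁, L₁, hP⟩ := pl_near h (ε / 2) (θ / 2) (by positivity) (by positivity)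
  obtain ⟨κ, c₂, hκ, -, hc₂, L₂, hT⟩ := tiny15 hc₁
  obtain ⟨L₃, hC⟩ := log_card (show 0 < ε / 2 by positivity) (2 * K) (by linarith)
  obtain ⟨L₄, hL₄⟩ := Pool.Agent.W_7d29a1_Z.NumI77.large (show 0 < θ / 2 by positivity) 12
  refine ⟨δ, κ, c₂, hδ, hκ, hc₂, L₁ + L₂ + L₃ + L₄ + 100, ?_⟩
  intro L hL N hLN hNL y hyN hyc T b e c d hTL hTb hc hd hdN x hx F hF hoff
  have hL100 : (100 : ℝ) ≤ L := by exact_mod_cast (show 100 ≤ L by omega)
  have hL0 : (0 : ℝ) < L := by linarith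
  have hy0 : (0 : ℤ) ≤ y := by positivity
  have hyN' : (y : ℤ) ≤ N := by exact_mod_cast hyN
  have hyc' : |((y : ℤ) : ℝ) - sl μ s * N| ≤ ((L : ℝ) ^ δ * wd' μ s N) := by
    push_cast
    exact hyc
  obtain ⟨-, hx12, -⟩ := hL₄ L (by omega)
  obtain ⟨hLexp, hTiny⟩ := hT L (by omega)
  have hθ2 : (L : ℝ) ^ θ = (L : ℝ) ^ (θ / 2) * (L : ℝ) ^ (θ / 2) := by
    rw [← Real.rpow_add hL0]
    congr 1
    ring
  have hT12' : 12 * (L : ℝ) ^ (θ / 2) ≤ T := by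
    rw [hθ2] at hTL
    nlinarith
  have hT12 : 12 ≤ T := by
    have : (12 : ℝ) ≤ T := by nlinarith
    exact_mod_cast this
  have hE0 : ∀ t, 0 < EE' μ s t := fun t => lt_of_lt_of_le zero_lt_one (le_max_left _ _)
  set P := (range (Nat.log 2 b + 2)).filter fun i => tO T b i < b with hPd
  have hbN : b ≤ N := by omega
  have hcard : P.card ≤ Nat.log 2 N + 4 := by
    refine (card_filter_le _ _).trans ?_
    rw [card_range]
    have := Nat.log_mono_right (b := 2) hbN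
    omega
  -- the lengths of the places
  have hlen : ∀ i, T / 2 ≤ tO T b i ∧ T ≤ 4 * tO T b i := by
    intro i
    unfold tO
    split_ifs with g1 g2
    · omega
    · omega
    · have h1 : 1 * T ≤ 2 ^ (i - 1) * T := Nat.mul_le_mul_right T Nat.one_le_two_pow
      omega
  have hlenR : ∀ i, (L : ℝ) ^ (θ / 2) ≤ tO T b i := by
    intro i
    have h1 : (T : ℝ) ≤ 4 * tO T b i := by exact_mod_cast (hlen i).2
    have h2 : 0 ≤ (L : ℝ) ^ (θ / 2) := by positivity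
    linarith
  have hEt : ∀ i, (EE' μ s (tO T b i))⁻¹ ≤ 2 * K * (EE' μ s T)⁻¹ := by
    intro i
    have key : EE' μ s T ≤ 2 * K * EE' μ s (tO T b i) := by
      rcases le_total T (tO T b i) with g | g
      · have h1 := (hE T (tO T b i) (by omega) g).1
        have h2 := hE0 (tO T b i)
        nlinarith
      · have hpos : 1 ≤ tO T b i := by have := (hlen i).2; omega
        have h1 := (hE (tO T b i) T hpos g).2.2
        have hD0 : (0 : ℝ) < tO T b i := by exact_mod_cast hpos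
        have h2 : Real.sqrt ((T : ℝ) / tO T b i) ≤ 2 := by
          rw [Real.sqrt_le_left (by norm_num), div_le_iff₀ hD0]
          have : (T : ℝ) ≤ 4 * tO T b i := by exact_mod_cast (hlen i).2
          linarith
        refine h1.trans (mul_le_mul_of_nonneg_right ?_ (hE0 _).le)
        nlinarith
    rw [← div_eq_mul_inv, le_div_iff₀ (hE0 T), inv_mul_le_iff₀ (hE0 _)]
    linarith
  -- the places
  have hpl : ∀ i ∈ P, Pl μ s N y (ENNReal.ofReal ((L : ℝ) ^ (ε / 2) * (EE' μ s (tO T b i))⁻¹))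
      (ENNReal.ofReal (Real.exp (-(L : ℝ) ^ c₁))) (Bkn c d (tO T b i) (aO T e i))
      (Ico (aO T e i) (aO T e i + tO T b i)) (Ioc c d) := by
    intro i hi
    have h1 := (mem_filter.1 hi).2
    have h2 : c ≤ aO T e i ∧ aO T e i + tO T b i ≤ d := by
      unfold aO
      split_ifs with g
      · subst g
        have : tO T b 0 = T / 2 := if_pos rfl
        omega
      · omega
    exact hP L (by omega) N (tO T b i) hLN hNL (hlenR i) (h1.le.trans hbN) y hy0 hyN' hyc' (aO T e i) c d h2.1 h2.2 hdN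
  have hoffi : ∀ i ∈ P, OffRows (Ico (aO T e i) (aO T e i + tO T b i)) F := by
    intro i hi
    have h1 := (mem_filter.1 hi).2
    refine Pool.Agent.W_7d29a1_HZ.ZE.OffRows.mono36 (fun a ha => ?_) hoff
    rw [mem_Ico] at ha
    rw [mem_Ioc]
    unfold aO at ha
    split_ifs at ha with g
    · subst g
      have : tO T b 0 = T / 2 := if_pos rfl
      omega
    · omega
  have hexp : (P.card : ℝ) ≤ Real.exp (2 * (L : ℝ) ^ κ - x) := by
    have h1 : (P.card : ℝ) ≤ L := by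
      have h2 : P.card ≤ Nat.log 2 b + 2 := (card_filter_le _ _).trans (le_of_eq (card_range _))
      have h3 := Nat.log_lt_self 2 (show b ≠ 0 by omega)
      exact_mod_cast (show P.card ≤ L by omega)
    refine h1.trans (hLexp.trans (Real.exp_le_exp.2 ?_))
    linarith
  have hex : ∀ η S, Hy μ s N y c d (OwnR e b) x η S →
      ∃ i ∈ P, Hy μ s N y c d (Bkn c d (tO T b i) (aO T e i)) (2 * (L : ℝ) ^ κ) η S := fun η S hh =>
    ex_of_sum P (fun i => mc μ s N y c d (Bkn c d (tO T b i) (aO T e i)) η S)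
      (mc_le_sum P _ (fun S S' _ _ _ _ h5 h6 => own_cover hT12 hTb hc hd h5 h6) η S) hh hexp
  have h1 : P1 μ s N y (fun η S => F η S ∧ Hy μ s N y c d (OwnR e b) x η S) ≤
      P1 μ s N y (fun η S => ∃ i ∈ P, F η S ∧ Hy μ s N y c d (Bkn c d (tO T b i) (aO T e i)) (2 * (L : ℝ) ^ κ) η S) :=
    A12.P1_mono fun η S hev => by
      obtain ⟨i, hi, h2⟩ := hex η S hev.2
      exact ⟨i, hi, hev.1, h2⟩
  refine h1.trans ((A12.P1_exists (μ := μ) (s := s) (N := N) (y := y) P _).trans ?_)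
  refine (sum_le_sum fun i hi => amp hyN (by omega) hdN (bkn_on2 c d (tO T b i) (aO T e i)) (fun _ _ h => h) (hpl i hi)
    (2 * (L : ℝ) ^ κ) (3 * (L : ℝ) ^ κ) hF (hoffi i hi)).trans ?_
  rw [sum_add_distrib, ← Finset.sum_mul, sum_const, nsmul_eq_mul]
  refine add_le_add (mul_le_mul' ?_ le_rfl) ?_
  · refine (sum_le_sum fun i _ => ENNReal.ofReal_le_ofReal
      (mul_le_mul_of_nonneg_left (hEt i) (show 0 ≤ (L : ℝ) ^ (ε / 2) by positivity))).trans ?_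
    rw [sum_const, nsmul_eq_mul, ← ENNReal.ofReal_natCast, ← ENNReal.ofReal_mul (Nat.cast_nonneg _)]
    refine ENNReal.ofReal_le_ofReal ?_
    have h2 := hC L (by omega) N hNL
    have h3 : (P.card : ℝ) ≤ ((Nat.log 2 N + 4 : ℕ) : ℝ) := by exact_mod_cast hcard
    have h4 : (L : ℝ) ^ ε = (L : ℝ) ^ (ε / 2) * (L : ℝ) ^ (ε / 2) := by
      rw [← Real.rpow_add hL0]
      congr 1
      ring
    have h5 : (P.card : ℝ) * (2 * K) ≤ (L : ℝ) ^ (ε / 2) := (mul_le_mul_of_nonneg_right h3 (by linarith)).trans h2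
    have h6 := (inv_pos.2 (hE0 T)).le
    calc (P.card : ℝ) * ((L : ℝ) ^ (ε / 2) * (2 * K * (EE' μ s T)⁻¹)) = (P.card : ℝ) * (2 * K) * (L : ℝ) ^ (ε / 2) * (EE' μ s T)⁻¹ := by
          ring
      _ ≤ (L : ℝ) ^ (ε / 2) * (L : ℝ) ^ (ε / 2) * (EE' μ s T)⁻¹ :=
          mul_le_mul_of_nonneg_right (mul_le_mul_of_nonneg_right h5 (by positivity)) h6
      _ = _ := by rw [h4]
  · refine le_trans (mul_le_mul' ?_ le_rfl) (hTiny N hNL _ le_rfl)
    rw [← ENNReal.ofReal_natCast]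
    refine ENNReal.ofReal_le_ofReal ?_
    have h2 : (P.card : ℝ) ≤ ((Nat.log 2 N + 4 : ℕ) : ℝ) := by exact_mod_cast hcard
    have h3 : ((Nat.log 2 N + 4 : ℕ) : ℝ) ≤ (L : ℝ) + 4 := by
      have h4 : Nat.log 2 N + 4 ≤ L + 4 := by
        have := Nat.log_le_self 2 N
        omega
      exact_mod_cast h4
    nlinarith [sq_nonneg (L : ℝ)]

/-! ### Gaps of any length as one place -/

theorem pl_gap (h : In μ s c₀ C₀ n₀) : ∀ ε θ : ℝ, 0 < ε → 0 < θ → ∃ δ c₁ : ℝ, 0 < δ ∧ 0 < c₁ ∧ ∃ L₀ : ℕ,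
    ∀ L : ℕ, L₀ ≤ L → ∀ N : ℕ, L ≤ 16 * N → N ≤ L → ∀ y : ℕ, y ≤ N → |(y : ℝ) - sl μ s * N| ≤ ((L : ℝ) ^ δ * wd' μ s N) →
    ∀ c' d' u v : ℕ, c' ≤ u → v ≤ d' → d' ≤ N → (L : ℝ) ^ θ ≤ ((v - u : ℕ) : ℝ) →
    Pl μ s N y (ENNReal.ofReal ((L : ℝ) ^ ε * (EE' μ s (v - u))⁻¹)) (ENNReal.ofReal (Real.exp (-(L : ℝ) ^ c₁))) (Gap c' d' u v)
      (Ioo c' d') (Icc c' d') := by
  intro ε θ hε hθ
  obtain ⟨δ, c₁, hδ, hc₁, L₁, hP⟩ := pf_lam h ε θ hε hθ
  obtain ⟨c₂, hc₂, -, L₂, hX⟩ := Pool.Agent.W_7d29a1_Z.NumI77.pow_exp hc₁ 2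
  refine ⟨δ, c₂, hδ, hc₂, L₁ + L₂ + 100, ?_⟩
  intro L hL N hLN hNL y hyN hyc c' d' u v h1 h2 h3 h4
  have hL0 : (0 : ℝ) < L := by exact_mod_cast (show 0 < L by omega)
  have hpe : ENNReal.ofReal ((L : ℝ) ^ 2) * ENNReal.ofReal (Real.exp (-(L : ℝ) ^ c₁)) ≤ ENNReal.ofReal (Real.exp (-(L : ℝ) ^ c₂)) := by
    rw [← ENNReal.ofReal_mul (by positivity)]
    refine ENNReal.ofReal_le_ofReal ?_
    have h5 := hX L (by omega)
    have e6 : (L : ℝ) ^ (2 : ℝ) = (L : ℝ) ^ 2 := by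
      rw [← Real.rpow_natCast]
      norm_num
    rwa [e6] at h5
  obtain ⟨P, r, B, J, hPl, hA, hB, hR, hXc, hJ⟩ := hP L (by omega) N hLN hNL y hyN hyc 0 N c' d' u v (Nat.zero_le _) h1 h2 h3 le_rfl h4
    ∅ (by simp) (by simp) (Gap c' d' u v) (fun _ _ _ _ _ _ _ h => h)
  have hex : ∀ p, ∃ NT : Env → Finset ℕ → Prop, Ms NT ∧ (p ∈ P → (∀ J' : Finset ℕ, Disjoint J' (Icc c' d') → OffRows J' NT) ∧
      P2 μ s N y (fun _ => 0) (fun η S S' => B p S' S ∧ ¬ NT η S') ≤ ENNReal.ofReal (Real.exp (-(L : ℝ) ^ c₁)) ∧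
      ∀ F : Env → Finset ℕ → Prop, Ms F → OffRows (J p) F →
        P1 μ s N y (fun η S => F η S ∧ NT η S) ≤ r p * P1 μ s N y F + ENNReal.ofReal (Real.exp (-(L : ℝ) ^ c₁))) := by
    intro p
    by_cases hp : p ∈ P
    · obtain ⟨NT, q1, q2, q3, q4⟩ := hPl p hp
      exact ⟨NT, q1, fun _ => ⟨q2, q3, q4⟩⟩
    · exact ⟨fun _ _ => False, fun S => by simp, fun h => absurd h hp⟩
  choose NT hms hNT using hex
  refine ⟨fun η S => ∃ p ∈ P, NT p η S, ms_ex P hms, fun J' hJ' η η' S hη => ?_, ?_, fun F hF hoff => ?_⟩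
  · exact exists_congr fun p => and_congr_right fun hp => (hNT p hp).1 J' hJ' η η' S hη
  · have q1 : P2 μ s N y (fun _ => 0) (fun η S S' => Gap c' d' u v S' S ∧ ¬ ∃ p ∈ P, NT p η S') ≤
        P2 μ s N y (fun _ => 0) (fun η S S' => ∃ p ∈ P, B p S' S ∧ ¬ NT p η S') := by
      refine A12.P2_mono' fun η S S' hS hS' hSy hSy' hev => ?_
      have hout : ∀ T : Finset ℕ, T ⊆ range N → ∀ j, N ≤ j → pos T j = pos T N := fun T hT j hj => by
        unfold pos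
        have e1 : T ∩ range j = T ∩ range N := by
          ext i
          simp only [mem_inter, mem_range]
          constructor
          · rintro ⟨q1, -⟩
            exact ⟨q1, mem_range.1 (hT q1)⟩
          · rintro ⟨q1, q2⟩
            exact ⟨q1, by omega⟩
        rw [e1]
      obtain ⟨p, hp, hb⟩ := hA S' S hS' hS hSy' hSy (fun j hj => by
        rcases hj with hj | hj
        · have : j = 0 := by omega
          subst this
          rw [pos_zero, pos_zero]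
        · rw [hout S hS j hj, hout S' hS' j hj, hSy, hSy']) hev.1
      exact ⟨p, hp, hb, fun h' => hev.2 ⟨p, hp, h'⟩⟩
    exact (q1.trans (Pool.Agent.W_7d29a1_HZ.Z74.P2_ex_le P (fun p η S S' => B p S' S ∧ ¬ NT p η S') fun p hp =>
      (hNT p hp).2.1)).trans ((mul_le_mul' hXc le_rfl).trans hpe)
  · have q1 : P1 μ s N y (fun η S => F η S ∧ ∃ p ∈ P, NT p η S) ≤ P1 μ s N y (fun η S => ∃ p ∈ P, F η S ∧ NT p η S) :=
      A12.P1_mono' fun η S _ _ ⟨g1, p, g2, g3⟩ => ⟨p, g2, g1, g3⟩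
    refine q1.trans ((A12.P1_exists (μ := μ) (s := s) (N := N) (y := y) P fun p η S => F η S ∧ NT p η S).trans ?_)
    refine (sum_le_sum fun p hp => (hNT p hp).2.2 F hF (Pool.Agent.W_7d29a1_HZ.ZE.OffRows.mono36 (hJ p hp).1 hoff)).trans ?_
    rw [sum_add_distrib, ← Finset.sum_mul, sum_const, nsmul_eq_mul]
    exact add_le_add (mul_le_mul' hR le_rfl) ((mul_le_mul' hXc le_rfl).trans hpe)

/-- **A replica of the block `[c, a)`, for SOME closing time `a ∈ (v, m]`, which misses the base path on `[u, a)`: one price.** -/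
theorem mic_cl (h : In μ s c₀ C₀ n₀) : ∀ ε θ : ℝ, 0 < ε → 0 < θ → ∃ δ κ c₂ : ℝ, 0 < δ ∧ 0 < κ ∧ 0 < c₂ ∧ ∃ L₀ : ℕ, ∀ L : ℕ, L₀ ≤ L →
    ∀ N : ℕ, L ≤ 16 * N → N ≤ L → ∀ y : ℕ, y ≤ N → |(y : ℝ) - sl μ s * N| ≤ ((L : ℝ) ^ δ * wd' μ s N) →
    ∀ c m u v : ℕ, c ≤ u → v ≤ m → m ≤ N → (L : ℝ) ^ θ ≤ ((v - u : ℕ) : ℝ) → ∀ x : ℝ, x ≤ (L : ℝ) ^ κ →
    ∀ F : Env → Finset ℕ → Prop, Ms F → OffRows (Ioo c m) F →
    P1 μ s N y (fun η S => F η S ∧ ∃ a ∈ Ioc v m, Hy μ s N y c a (NoMeet u (a - 1)) x η S) ≤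
      ENNReal.ofReal ((L : ℝ) ^ ε * (EE' μ s (v - u))⁻¹) * P1 μ s N y F + ENNReal.ofReal (Real.exp (-(L : ℝ) ^ c₂)) := by
  intro ε θ hε hθ
  obtain ⟨δ, c₁, hδ, hc₁, L₁, hP⟩ := pl_gap h ε θ hε hθ
  obtain ⟨κ, c₂, hκ, -, hc₂, L₂, hT⟩ := tiny15 hc₁
  refine ⟨δ, κ, c₂, hδ, hκ, hc₂, L₁ + L₂ + 100, ?_⟩
  intro L hL N hLN hNL y hyN hyc c m u v h1 h2 h3 h4 x hx F hF hoff
  have hL100 : (100 : ℝ) ≤ L := by exact_mod_cast (show 100 ≤ L by omega)
  have hL0 : (0 : ℝ) < L := by linarith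
  have hX0 : 0 ≤ (L : ℝ) ^ κ := by positivity
  obtain ⟨-, hTiny⟩ := hT L (by omega)
  set A' : ℕ → Finset ℕ → Finset ℕ → Prop := fun a S S' => pos S c = pos S' c ∧ pos S a = pos S' a ∧ NoMeet u (a - 1) S S' with hA'
  have huv : u < v := by
    have h5 : (0 : ℝ) < (L : ℝ) ^ θ := by positivity
    have h6 : (0 : ℝ) < ((v - u : ℕ) : ℝ) := h5.trans_le h4
    have h7 : 0 < v - u := by exact_mod_cast h6
    omega
  have hon : ∀ a ∈ Ioc v m, On2 c a (A' a) := by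
    intro a ha S S' S'' hS
    rw [mem_Ioc] at ha
    simp only [hA']
    rw [hS c le_rfl (by omega), hS a (by omega) le_rfl, nm_on2 h1 (Nat.sub_le _ _) S S' S'' hS]
  have hgap : ∀ a ∈ Ioc v m, ∀ S S', A' a S S' → Gap c m u v S S' := by
    intro a ha S S' hh
    rw [mem_Ioc] at ha
    exact ⟨c, a, le_rfl, h1, ha.1.le, ha.2, hh.1, hh.2.1, fun k hk1 hk2 => hh.2.2 k (by omega) (by omega)⟩
  have hsub : P1 μ s N y (fun η S => F η S ∧ ∃ a ∈ Ioc v m, Hy μ s N y c a (NoMeet u (a - 1)) x η S) ≤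
      P1 μ s N y (fun η S => F η S ∧ ∃ a ∈ Ioc v m, Hy μ s N y c a (A' a) x η S) := by
    refine A12.P1_mono fun η S ⟨g1, a, g2, g3⟩ => ⟨g1, a, g2, lt_of_lt_of_le g3 ?_⟩
    exact Pool.Agent.W_7d29a1_C0.P86.mc_mono (fun S S' _ _ _ _ h5 h6 => ⟨h5 c (Or.inl le_rfl), h5 a (Or.inr le_rfl), h6⟩) η S
  refine hsub.trans ((amp_ex (Ioc v m) hyN (c := fun _ => c) (d := fun a => a) (fun a ha => by rw [mem_Ioc] at ha; omega)
    (fun a ha => (mem_Ioc.1 ha).2.trans h3) hon hgap (hP L (by omega) N hLN hNL y hyN hyc c m u v h1 h2 h3 h4) x (3 * (L : ℝ) ^ κ)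
    hF hoff).trans ?_)
  refine add_le_add le_rfl (le_trans ?_ (hTiny N hNL x (by linarith)))
  rw [mul_add]
  refine add_le_add (le_mul_of_one_le_left zero_le ?_) (mul_le_mul' ?_ le_rfl)
  · rw [← ENNReal.ofReal_one]
    exact ENNReal.ofReal_le_ofReal (one_le_pow₀ (by linarith))
  · rw [Nat.card_Ioc, ← ENNReal.ofReal_natCast]
    refine ENNReal.ofReal_le_ofReal ?_
    have g1 : ((m - v : ℕ) : ℝ) ≤ L := by exact_mod_cast (show m - v ≤ L by omega)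
    have g2 : (L : ℝ) ≤ (L : ℝ) ^ 3 := by nlinarith [sq_nonneg (L : ℝ)]
    linarith

end Pool.Agent.W_7d29a1_C0.P15
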