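import Pool.Agent.W_7d29a1_C0.Own1

/-!
MP_7d29a1_pr, [CURV0] / [C0], leaf E0C (helper1): LOCALISATION OF CONDITIONAL MASSES AT THE SITES OF ONE PATH.

`loc_core`: two replicas, given `p x` resp. given `q' x`, which pass through the same site of `x` exchange a piece. `locR`: the mass, given
the outside of `[c, d)`, of the paths which miss `x` on `[i, j]` and meet it on `[k0, k1]` behind, is at most `1 / δ` times the mass given the
outside of the smaller block `[c, r)`, if `x` is typical: its sites in the rows `[k0, k1]` have mass at least `δ` (`Ty`). `locL`: the mirror.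
`ty_le`: the paths which are not typical have small mass.
-/

set_option autoImplicit false
set_option linter.unusedSectionVars false

namespace Pool.W7d29a1.C0.O1

open Finset MeasureTheory Pool.Agent.W_7d29a1_C0.Swap57 Pool.Agent.W_7d29a1_C0 Pool.Agent.W_7d29a1_C0.Mod92
open Pool.Agent.W_7d29a1_F Pool.Agent.W_7d29a1_X
open Pool.W7d29a1.C0 Pool.W7d29a1.C0.VT31 Pool.W7d29a1.C0.R43 Pool.W7d29a1.C0.S1 Pool.W7d29a1.C0.K1

noncomputable section

variable {μ : Measure ℝ} {s : ℝ} {N : ℕ} {Q : Finset (Finset ℕ)} [Nonempty (Px Q)]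
variable {Y Z : Type*} [DecidableEq Y] [DecidableEq Z]

/-- The double sum for two conditions. -/
theorem cE_cE' (w : Px Q → ℝ) (p : Px Q → Y) (q' : Px Q → Z) (K : Px Q → Px Q → ℝ) (x : Px Q) :
    cE w p (fun v => cE w q' (K v) x) x = (∑ v, ∑ z, if p v = p x then (if q' z = q' x then
      Real.exp (w v) * Real.exp (w z) * K v z else 0) else 0) / (fz w p x * fz w q' x) := by
  unfold cE
  rw [eq_comm, mul_comm (fz w p x), ← div_div, sum_div]
  congr 1
  refine sum_congr rfl fun v _ => ?_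
  split_ifs with h1
  · rw [← mul_div_assoc, mul_sum]
    congr 1
    refine sum_congr rfl fun z _ => ?_
    split_ifs
    · ring
    · ring
  · rw [sum_const_zero, zero_div]

open Classical in
/-- The indicator of a set of paths. -/
def ind (A : Px Q → Prop) (v : Px Q) : ℝ := if A v then 1 else 0

theorem ind_nonneg (A : Px Q → Prop) (v : Px Q) : 0 ≤ ind A v := by
  unfold ind
  split_ifs <;> norm_num

theorem ind_le_one (A : Px Q → Prop) (v : Px Q) : ind A v ≤ 1 := by
  unfold ind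
  split_ifs <;> norm_num

theorem cE_two_ind (w : Px Q → ℝ) (p : Px Q → Y) (q' : Px Q → Z) (A A' : Px Q → Prop) (x : Px Q) :
    cE w p (ind A) x * cE w q' (ind A') x = cE w p (fun v => cE w q' (fun z => ind A v * ind A' z) x) x := by
  have a1 : (fun v => cE w q' (fun z => ind A v * ind A' z) x) = fun v => cE w q' (ind A') x * ind A v := by
    funext v
    rw [cE_mulf]
    ring
  rw [a1, cE_mulf]
  ring

/-- Two paths in the fibres of `x` with `A`, `A'`. -/
def Fl (p : Px Q → Y) (q' : Px Q → Z) (x : Px Q) (A A' : Px Q → Prop) (a : Px Q × Px Q) : Prop :=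
  p a.1 = p x ∧ q' a.2 = q' x ∧ A a.1 ∧ A' a.2

open Classical in
/-- **The exchange at a site.** -/
theorem loc_core [SwQ Q] (η : Env) (p : Px Q → Y) (q' : Px Q → Z) (x : Px Q) {t u : ℕ} (htu : t ≤ u) (P B : Px Q → Prop)
    (hE : ∀ v z : Px Q, p v = p x → q' z = q' x → P v → P z → Eqp v z t ∧ Eqp v z u ∧ p (swP t u v z) = p v ∧
      q' (swP t u z v) = q' z ∧ P (swP t u v z) ∧ P (swP t u z v) ∧ (B (swP t u z v) ↔ B v) ∧ (B (swP t u v z) ↔ B z)) :
    cE (lw μ s η N Q) p (ind fun v => B v ∧ P v) x * cE (lw μ s η N Q) q' (ind P) x =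
      cE (lw μ s η N Q) p (ind P) x * cE (lw μ s η N Q) q' (ind fun v => B v ∧ P v) x := by
  set w := lw μ s η N Q with hw
  rw [cE_two_ind, cE_two_ind, cE_cE', cE_cE']
  congr 1
  have e : ∀ (A A' : Px Q → Prop), ∑ v, ∑ z, (if p v = p x then (if q' z = q' x then
      Real.exp (w v) * Real.exp (w z) * (ind A v * ind A' z) else 0) else 0) =
      ∑ a ∈ (univ : Finset (Px Q × Px Q)).filter (Fl p q' x A A'), Real.exp (w a.1) * Real.exp (w a.2) := by
    intro A A'
    rw [sum_filter, ← sum_product', univ_product_univ]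
    refine sum_congr rfl fun a _ => ?_
    unfold ind Fl
    by_cases h1 : p a.1 = p x
    · by_cases h2 : q' a.2 = q' x
      · by_cases h3 : A a.1
        · by_cases h4 : A' a.2
          · simp [h1, h2, h3, h4]
          · simp [h1, h2, h3, h4]
        · simp [h1, h2, h3]
      · simp [h1, h2]
    · simp [h1]
  rw [e, e]
  refine sum_nbij' (fun a => (swP t u a.1 a.2, swP t u a.2 a.1)) (fun a => (swP t u a.1 a.2, swP t u a.2 a.1)) ?_ ?_ ?_ ?_ ?_
  · intro a ha
    obtain ⟨-, h1, h2, ⟨h3, h4⟩, h5⟩ := mem_filter.1 ha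
    obtain ⟨k1, k2, k3, k4, k5, k6, k7, k8⟩ := hE a.1 a.2 h1 h2 h4 h5
    exact mem_filter.2 ⟨mem_univ _, k3.trans h1, k4.trans h2, k5, k7.2 h3, k6⟩
  · intro a ha
    obtain ⟨-, h1, h2, h3, h4, h5⟩ := mem_filter.1 ha
    obtain ⟨k1, k2, k3, k4, k5, k6, k7, k8⟩ := hE a.1 a.2 h1 h2 h3 h5
    exact mem_filter.2 ⟨mem_univ _, k3.trans h1, k4.trans h2, ⟨k8.2 h4, k5⟩, k6⟩
  · intro a ha
    obtain ⟨-, h1, h2, ⟨h3, h4⟩, h5⟩ := mem_filter.1 ha
    obtain ⟨k1, k2, -⟩ := hE a.1 a.2 h1 h2 h4 h5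
    exact Prod.ext (swP_swP htu k1 k2) (swP_swP htu (Eq.symm k1) (Eq.symm k2))
  · intro a ha
    obtain ⟨-, h1, h2, h3, h4, h5⟩ := mem_filter.1 ha
    obtain ⟨k1, k2, -⟩ := hE a.1 a.2 h1 h2 h3 h5
    exact Prod.ext (swP_swP htu k1 k2) (swP_swP htu (Eq.symm k1) (Eq.symm k2))
  · intro a ha
    obtain ⟨-, h1, h2, ⟨h3, h4⟩, h5⟩ := mem_filter.1 ha
    obtain ⟨k1, k2, -⟩ := hE a.1 a.2 h1 h2 h4 h5
    show Real.exp (w a.1) * Real.exp (w a.2) = Real.exp (w (swP t u a.1 a.2)) * Real.exp (w (swP t u a.2 a.1))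
    rw [← Real.exp_add, ← Real.exp_add, hw, lw_swP η htu k1 k2]

theorem loc_le [SwQ Q] (η : Env) (p : Px Q → Y) (q' : Px Q → Z) (x : Px Q) {t u : ℕ} (htu : t ≤ u) (P B : Px Q → Prop)
    (hE : ∀ v z : Px Q, p v = p x → q' z = q' x → P v → P z → Eqp v z t ∧ Eqp v z u ∧ p (swP t u v z) = p v ∧
      q' (swP t u z v) = q' z ∧ P (swP t u v z) ∧ P (swP t u z v) ∧ (B (swP t u z v) ↔ B v) ∧ (B (swP t u v z) ↔ B z))
    {dl : ℝ} (hdl : 0 < dl) (hP : dl ≤ cE (lw μ s η N Q) q' (ind P) x) :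
    cE (lw μ s η N Q) p (ind fun v => B v ∧ P v) x ≤ dl⁻¹ * cE (lw μ s η N Q) q' (ind fun v => B v ∧ P v) x := by
  have h := loc_core η p q' x htu P B hE (μ := μ) (s := s) (N := N)
  have h1 := (cE_mem (lw μ s η N Q) p (ind_nonneg P) (ind_le_one P) x).2
  have h2 := cE_nonneg (lw μ s η N Q) q' (ind_nonneg fun v => B v ∧ P v) x
  have h3 := cE_nonneg (lw μ s η N Q) p (ind_nonneg fun v => B v ∧ P v) x
  rw [← div_eq_inv_mul, le_div_iff₀ hdl]
  calc cE (lw μ s η N Q) p (ind fun v => B v ∧ P v) x * dl ≤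
        cE (lw μ s η N Q) p (ind fun v => B v ∧ P v) x * cE (lw μ s η N Q) q' (ind P) x := mul_le_mul_of_nonneg_left hP h3
    _ = _ := h
    _ ≤ 1 * cE (lw μ s η N Q) q' (ind fun v => B v ∧ P v) x := mul_le_mul_of_nonneg_right h1 h2
    _ = _ := one_mul _

/-! ### Closing behind the piece -/

/-- Missing `x` on `[i, j]` and on `[k0, a)`. -/
def BR (x : Px Q) (i j k0 a : ℕ) (v : Px Q) : Prop := Nm i j x.1 v.1 ∧ ∀ k, k0 ≤ k → k < a → ps v k ≠ ps x k

/-- Missing `x` on `[i, j]` and on `(a, k1]`. -/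
def BL (x : Px Q) (i j k1 a : ℕ) (v : Px Q) : Prop := Nm i j x.1 v.1 ∧ ∀ k, a < k → k ≤ k1 → ps v k ≠ ps x k

/-- Passing through the site of `x` in the row `a`. -/
def PS (x : Px Q) (a : ℕ) (v : Px Q) : Prop := ps v a = ps x a

theorem sum_BR_le {x : Px Q} {i j k0 k1 : ℕ} (v : Px Q) :
    ∑ a ∈ Icc k0 k1, ind (fun v => BR x i j k0 a v ∧ PS x a v) v ≤ NI i j x v := by
  classical
  by_cases h : ∃ a ∈ Icc k0 k1, BR x i j k0 a v ∧ PS x a v
  · obtain ⟨a, ha, hB, hP⟩ := h
    rw [sum_eq_single a, NI_one hB.1]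
    · exact ind_le_one _ _
    · intro b hb hne
      unfold ind
      refine if_neg fun h2 => ?_
      rw [mem_Icc] at ha hb
      rcases lt_trichotomy a b with h3 | h3 | h3
      · exact h2.1.2 a ha.1 h3 hP
      · exact hne h3.symm
      · exact hB.2 b hb.1 h3 h2.2
    · intro h2
      exact absurd ha h2
  · rw [sum_eq_zero fun a ha => ?_]
    · exact NI_nonneg _ _ _ _
    · unfold ind
      exact if_neg fun h2 => h ⟨a, ha, h2⟩

theorem sum_BL_le {x : Px Q} {i j k0 k1 : ℕ} (v : Px Q) :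
    ∑ a ∈ Icc k0 k1, ind (fun v => BL x i j k1 a v ∧ PS x a v) v ≤ NI i j x v := by
  classical
  by_cases h : ∃ a ∈ Icc k0 k1, BL x i j k1 a v ∧ PS x a v
  · obtain ⟨a, ha, hB, hP⟩ := h
    rw [sum_eq_single a, NI_one hB.1]
    · exact ind_le_one _ _
    · intro b hb hne
      unfold ind
      refine if_neg fun h2 => ?_
      rw [mem_Icc] at ha hb
      rcases lt_trichotomy a b with h3 | h3 | h3
      · exact hB.2 b h3 hb.2 h2.2
      · exact hne h3.symm
      · exact h2.1.2 a h3 ha.2 hP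
    · intro h2
      exact absurd ha h2
  · rw [sum_eq_zero fun a ha => ?_]
    · exact NI_nonneg _ _ _ _
    · unfold ind
      exact if_neg fun h2 => h ⟨a, ha, h2⟩

theorem le_sum_BR {x : Px Q} {i j k0 k1 : ℕ} (v : Px Q) :
    NI i j x v * (1 - NI k0 k1 x v) ≤ ∑ a ∈ Icc k0 k1, ind (fun v => BR x i j k0 a v ∧ PS x a v) v := by
  classical
  have h0 : 0 ≤ ∑ a ∈ Icc k0 k1, ind (fun v => BR x i j k0 a v ∧ PS x a v) v := sum_nonneg fun a _ => ind_nonneg _ _
  by_cases h1 : Nm i j x.1 v.1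
  · by_cases h2 : Nm k0 k1 x.1 v.1
    · rw [NI_one h2, sub_self, mul_zero]
      exact h0
    · rw [NI_one h1, NI_zero h2, sub_zero, mul_one]
      have hex : ∃ a, k0 ≤ a ∧ a ≤ k1 ∧ ps v a = ps x a := by
        unfold Nm at h2
        push Not at h2
        obtain ⟨a, ha, ha', h3⟩ := h2
        exact ⟨a, ha, ha', h3.symm⟩
      have h3 := Nat.find_spec hex
      have h4 := fun m (hm : m < Nat.find hex) => Nat.find_min hex hm
      set a := Nat.find hex
      have h5 : ind (fun v => BR x i j k0 a v ∧ PS x a v) v = 1 := if_pos ⟨⟨h1, fun k hk hk' he =>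
        h4 k hk' ⟨hk, by omega, he⟩⟩, h3.2.2⟩
      rw [← h5]
      exact single_le_sum (f := fun a => ind (fun v => BR x i j k0 a v ∧ PS x a v) v) (fun a _ => ind_nonneg _ _)
        (mem_Icc.2 ⟨h3.1, h3.2.1⟩)
  · rw [NI_zero h1, zero_mul]
    exact h0

theorem le_sum_BL {x : Px Q} {i j k0 k1 : ℕ} (v : Px Q) :
    NI i j x v * (1 - NI k0 k1 x v) ≤ ∑ a ∈ Icc k0 k1, ind (fun v => BL x i j k1 a v ∧ PS x a v) v := by
  classical
  have h0 : 0 ≤ ∑ a ∈ Icc k0 k1, ind (fun v => BL x i j k1 a v ∧ PS x a v) v := sum_nonneg fun a _ => ind_nonneg _ _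
  by_cases h1 : Nm i j x.1 v.1
  · by_cases h2 : Nm k0 k1 x.1 v.1
    · rw [NI_one h2, sub_self, mul_zero]
      exact h0
    · rw [NI_one h1, NI_zero h2, sub_zero, mul_one]
      set S : Finset ℕ := (Icc k0 k1).filter fun a => ps v a = ps x a with hS
      have hne : S.Nonempty := by
        unfold Nm at h2
        push Not at h2
        obtain ⟨a, ha, ha', h3⟩ := h2
        exact ⟨a, mem_filter.2 ⟨mem_Icc.2 ⟨ha, ha'⟩, h3.symm⟩⟩
      have h3 := mem_filter.1 (S.max'_mem hne)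
      set a := S.max' hne
      have h6 := mem_Icc.1 h3.1
      have h5 : ind (fun v => BL x i j k1 a v ∧ PS x a v) v = 1 := if_pos ⟨⟨h1, fun k hk hk' he => by
        have h7 : k ∈ S := mem_filter.2 ⟨mem_Icc.2 ⟨by omega, hk'⟩, he⟩
        have h8 : k ≤ a := S.le_max' k h7
        omega⟩, h3.2⟩
      rw [← h5]
      exact single_le_sum (f := fun a => ind (fun v => BL x i j k1 a v ∧ PS x a v) v) (fun a _ => ind_nonneg _ _) h3.1
  · rw [NI_zero h1, zero_mul]
    exact h0

/-- `x` is typical in the rows `[k0, k1]`, given the condition `q'`. -/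
def Ty (w : Px Q → ℝ) (q' : Px Q → Z) (dl : ℝ) (k0 k1 : ℕ) (x : Px Q) : Prop :=
  ∀ a, k0 ≤ a → a ≤ k1 → dl ≤ cE w q' (ind (PS x a)) x

/-- **Localisation in front**: loops which close on `[k0, k1]`, behind the piece `[i, j]`. -/
theorem locR [SwQ Q] (η : Env) (x : Px Q) {c r d i j k0 k1 : ℕ} (hck : c ≤ k0) (hj : j < k0) (hkr : k1 ≤ r) (hrd : r ≤ d)
    {dl : ℝ} (hdl : 0 < dl) (hT : Ty (lw μ s η N Q) (pJ c r) dl k0 k1 x) :
    cE (lw μ s η N Q) (pJ c d) (fun v => NI i j x v * (1 - NI k0 k1 x v)) x ≤ dl⁻¹ * mI (lw μ s η N Q) (pJ c r) i j x := by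
  set w := lw μ s η N Q with hw
  have h1 := cE_mono w (pJ c d) (fun v => le_sum_BR (x := x) (i := i) (j := j) (k0 := k0) (k1 := k1) v) x
  rw [cE_sumf] at h1
  have h2 : ∀ a ∈ Icc k0 k1, cE w (pJ c d) (ind fun v => BR x i j k0 a v ∧ PS x a v) x ≤
      dl⁻¹ * cE w (pJ c r) (ind fun v => BR x i j k0 a v ∧ PS x a v) x := by
    intro a ha
    rw [mem_Icc] at ha
    refine loc_le η (pJ c d) (pJ c r) x (t := c) (u := a) (by omega) (PS x a) (BR x i j k0 a) ?_ hdl (hT a ha.1 ha.2)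
    intro v z hv hz hPv hPz
    have e1 : ps v c = ps x c := ps_of_le hv le_rfl
    have e2 : ps z c = ps x c := ps_of_le hz le_rfl
    have ec : Eqp v z c := e1.trans e2.symm
    have ea : Eqp v z a := hPv.trans hPz.symm
    have hca : c ≤ a := by omega
    have g1 : ∀ S T : Px Q, Eqp S T c → Eqp S T a → (∀ k, k ≤ c → ps S k = ps T k) → ∀ k, k ≤ a → ps (swP c a S T) k = ps T k := by
      intro S T h3 h4 h5 k hk
      rcases le_total c k with h6 | h6
      · exact ps_swP_mid hca h3 h4 h6 hk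
      · rcases ps_swP hca h3 h4 k with ⟨h7, -, -⟩ | ⟨h7, -, -⟩
        · rw [h7]
          exact h5 k h6
        · exact h7
    have a1 : ∀ k, k ≤ c → ps v k = ps z k := fun k hk => (ps_of_le hv hk).trans (ps_of_le hz hk).symm
    have b1 := g1 v z ec ea a1
    have b2 := g1 z v (Eq.symm ec) (Eq.symm ea) fun k hk => (a1 k hk).symm
    have key : ∀ S T : Px Q, (∀ k, k ≤ a → ps S k = ps T k) → (BR x i j k0 a S ↔ BR x i j k0 a T) := by
      intro S T h3
      unfold BR Nm
      refine and_congr (forall_congr' fun k => forall_congr' fun h4 => forall_congr' fun h5 => ?_)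
        (forall_congr' fun k => forall_congr' fun h4 => forall_congr' fun h5 => ?_)
      · have h6 : pos S.1 k = pos T.1 k := h3 k (by omega)
        rw [h6]
      · rw [h3 k (by omega)]
    refine ⟨ec, ea, pJ_swP le_rfl hca (by omega) ec ea, pJ_swP le_rfl hca (by omega) (Eq.symm ec) (Eq.symm ea),
      (b1 a le_rfl).trans hPz, (b2 a le_rfl).trans hPv, key _ _ b2, key _ _ b1⟩
  have h3 := sum_le_sum h2
  rw [← mul_sum] at h3
  have h4 := cE_sumf w (pJ c r) (Icc k0 k1) (fun a => ind fun v => BR x i j k0 a v ∧ PS x a v) x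
  refine h1.trans (h3.trans (mul_le_mul_of_nonneg_left ?_ (inv_nonneg.2 hdl.le)))
  exact h4.symm.le.trans (cE_mono w (pJ c r) (fun v => sum_BR_le v) x)

/-- **Localisation behind**: loops which open on `[k0, k1]`, in front of the piece `[i, j]`. -/
theorem locL [SwQ Q] (η : Env) (x : Px Q) {c r d i j k0 k1 : ℕ} (hcr : c ≤ r) (hrk : r ≤ k0) (hi : k1 < i) (hkd : k1 ≤ d)
    {dl : ℝ} (hdl : 0 < dl) (hT : Ty (lw μ s η N Q) (pJ r d) dl k0 k1 x) :
    cE (lw μ s η N Q) (pJ c d) (fun v => NI i j x v * (1 - NI k0 k1 x v)) x ≤ dl⁻¹ * mI (lw μ s η N Q) (pJ r d) i j x := by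
  set w := lw μ s η N Q with hw
  have h1 := cE_mono w (pJ c d) (fun v => le_sum_BL (x := x) (i := i) (j := j) (k0 := k0) (k1 := k1) v) x
  rw [cE_sumf] at h1
  have h2 : ∀ a ∈ Icc k0 k1, cE w (pJ c d) (ind fun v => BL x i j k1 a v ∧ PS x a v) x ≤
      dl⁻¹ * cE w (pJ r d) (ind fun v => BL x i j k1 a v ∧ PS x a v) x := by
    intro a ha
    rw [mem_Icc] at ha
    refine loc_le η (pJ c d) (pJ r d) x (t := a) (u := d) (by omega) (PS x a) (BL x i j k1 a) ?_ hdl (hT a ha.1 ha.2)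
    intro v z hv hz hPv hPz
    have e1 : ps v d = ps x d := ps_of_ge hv le_rfl
    have e2 : ps z d = ps x d := ps_of_ge hz le_rfl
    have ed : Eqp v z d := e1.trans e2.symm
    have ea : Eqp v z a := hPv.trans hPz.symm
    have had : a ≤ d := by omega
    have g1 : ∀ S T : Px Q, Eqp S T a → Eqp S T d → (∀ k, d ≤ k → ps S k = ps T k) → ∀ k, a ≤ k → ps (swP a d S T) k = ps T k := by
      intro S T h3 h4 h5 k hk
      rcases le_total k d with h6 | h6
      · exact ps_swP_mid had h3 h4 hk h6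
      · rcases ps_swP had h3 h4 k with ⟨h7, -, -⟩ | ⟨h7, -, -⟩
        · rw [h7]
          exact h5 k h6
        · exact h7
    have a1 : ∀ k, d ≤ k → ps v k = ps z k := fun k hk => (ps_of_ge hv hk).trans (ps_of_ge hz hk).symm
    have b1 := g1 v z ea ed a1
    have b2 := g1 z v (Eq.symm ea) (Eq.symm ed) fun k hk => (a1 k hk).symm
    have key : ∀ S T : Px Q, (∀ k, a ≤ k → ps S k = ps T k) → (BL x i j k1 a S ↔ BL x i j k1 a T) := by
      intro S T h3
      unfold BL Nm
      refine and_congr (forall_congr' fun k => forall_congr' fun h4 => forall_congr' fun h5 => ?_)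
        (forall_congr' fun k => forall_congr' fun h4 => forall_congr' fun h5 => ?_)
      · have h6 : pos S.1 k = pos T.1 k := h3 k (by omega)
        rw [h6]
      · rw [h3 k (by omega)]
    refine ⟨ea, ed, pJ_swP (by omega) had le_rfl ea ed, pJ_swP (by omega) had le_rfl (Eq.symm ea) (Eq.symm ed),
      (b1 a le_rfl).trans hPz, (b2 a le_rfl).trans hPv, key _ _ b2, key _ _ b1⟩
  have h3 := sum_le_sum h2
  rw [← mul_sum] at h3
  have h4 := cE_sumf w (pJ r d) (Icc k0 k1) (fun a => ind fun v => BL x i j k1 a v ∧ PS x a v) x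
  refine h1.trans (h3.trans (mul_le_mul_of_nonneg_left ?_ (inv_nonneg.2 hdl.le)))
  exact h4.symm.le.trans (cE_mono w (pJ r d) (fun v => sum_BL_le v) x)

/-! ### Typical paths -/

theorem ps_le (v : Px Q) (a : ℕ) : ∃ u ∈ range (a + 1), ps v a = (u : ℤ) := by
  refine ⟨(v.1 ∩ range a).card, mem_range.2 ?_, rfl⟩
  have h := card_le_card (inter_subset_right : v.1 ∩ range a ⊆ range a)
  rw [card_range] at h
  omega

open Classical in
/-- The sites of small mass have small mass. -/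
theorem ty_one (w : Px Q → ℝ) (q' : Px Q → Z) {dl : ℝ} (hdl : 0 ≤ dl) (a : ℕ) (S0 : Px Q) :
    cE w q' (fun x => if cE w q' (ind (PS x a)) x < dl then 1 else 0) S0 ≤ (a + 1) * dl := by
  set m : ℤ → ℝ := fun u => cE w q' (ind fun v => ps v a = u) S0 with hm
  have h1 : ∀ x, q' x = q' S0 → (if cE w q' (ind (PS x a)) x < dl then (1 : ℝ) else 0) ≤
      ∑ u ∈ range (a + 1), (if m u < dl then 1 else 0) * ind (fun v => ps v a = (u : ℤ)) x := by
    intro x hx
    have h0 : ∀ u ∈ range (a + 1), 0 ≤ (if m u < dl then (1 : ℝ) else 0) * ind (fun v => ps v a = (u : ℤ)) x := fun u _ =>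
      mul_nonneg (by split_ifs <;> norm_num) (ind_nonneg _ _)
    split_ifs with h
    · obtain ⟨u, hu, e⟩ := ps_le x a
      have h2 : m u < dl := by
        refine lt_of_eq_of_lt ?_ h
        show cE w q' (ind fun v => ps v a = (u : ℤ)) S0 = cE w q' (ind (PS x a)) x
        rw [cE_eq_of w q' _ hx]
        unfold PS
        rw [e]
      have h3 := single_le_sum (f := fun u : ℕ => (if m u < dl then (1 : ℝ) else 0) * ind (fun v => ps v a = (u : ℤ)) x) h0 hu
      beta_reduce at h3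
      rw [if_pos h2, one_mul] at h3
      have h4 : ind (fun v => ps v a = (u : ℤ)) x = 1 := if_pos e
      rwa [h4] at h3
    · exact sum_nonneg h0
  have h2 := cE_fib_mono w q' h1
  rw [cE_sumf] at h2
  refine h2.trans ?_
  have h3 : ∀ u ∈ range (a + 1), cE w q' (fun x => (if m u < dl then 1 else 0) * ind (fun v => ps v a = (u : ℤ)) x) S0 ≤ dl := by
    intro u _
    rw [cE_mulf]
    split_ifs with h
    · rw [one_mul]
      exact h.le
    · rw [zero_mul]
      exact hdl
  refine (sum_le_sum h3).trans (le_of_eq ?_)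
  rw [sum_const, card_range, nsmul_eq_mul]
  push_cast
  ring

open Classical in
/-- **Almost every path is typical.** -/
theorem ty_le (w : Px Q → ℝ) {p : Px Q → Y} {q' : Px Q → Z} (hc : Crs p q') {dl : ℝ} (hdl : 0 ≤ dl) (k0 k1 : ℕ) (S0 : Px Q) :
    cE w p (fun x => if Ty w q' dl k0 k1 x then 0 else 1) S0 ≤ (k1 + 1) ^ 2 * dl := by
  have h1 : ∀ x, (if Ty w q' dl k0 k1 x then (0 : ℝ) else 1) ≤
      ∑ a ∈ range (k1 + 1), if cE w q' (ind (PS x a)) x < dl then (1 : ℝ) else 0 := by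
    intro x
    have h0 : ∀ a ∈ range (k1 + 1), 0 ≤ (if cE w q' (ind (PS x a)) x < dl then (1 : ℝ) else 0) := fun a _ => by
      split_ifs <;> norm_num
    split_ifs with h
    · exact sum_nonneg h0
    · unfold Ty at h
      push Not at h
      obtain ⟨a, ha, ha', h3⟩ := h
      have h4 := single_le_sum (f := fun a => if cE w q' (ind (PS x a)) x < dl then (1 : ℝ) else 0) h0 (mem_range.2 (show a < k1 + 1 by omega))
      beta_reduce at h4
      rwa [if_pos h3] at h4
  have h2 := cE_mono w p h1 S0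
  rw [cE_sumf] at h2
  refine h2.trans ?_
  have h3 : ∀ a ∈ range (k1 + 1), cE w p (fun x => if cE w q' (ind (PS x a)) x < dl then (1 : ℝ) else 0) S0 ≤ (k1 + 1) * dl := by
    intro a ha
    rw [mem_range] at ha
    have e := congrFun (cE_tower w hc fun x => if cE w q' (ind (PS x a)) x < dl then (1 : ℝ) else 0) S0
    rw [← e]
    have h4 := cE_mono w p (fun x => ty_one w q' hdl a x) S0
    rw [cE_constf] at h4
    refine h4.trans (mul_le_mul_of_nonneg_right ?_ hdl)
    have : (a : ℝ) ≤ k1 := by exact_mod_cast (by omega : a ≤ k1)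
    linarith
  refine (sum_le_sum h3).trans (le_of_eq ?_)
  rw [sum_const, card_range, nsmul_eq_mul]
  push_cast
  ring

end

end Pool.W7d29a1.C0.O1
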