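import Pool.Agent.W_7d29a1_C0.Own15
import Pool.Agent.W_7d29a1_C0.Near86

/-!
C0, helper80: THE OWN LOOP SEEN ON A SHORT PIECE. A conditional replica (block `[c, d)`) which misses the base path on a piece
`[u, u + l]` near the row `j` and meets it somewhere in `[j - 11 b, j + 11 b]` has a near tie at one of few places, all of them with rows
to the right of `u` (`cover_r`, `u` in `[j, j + b]`) or to the left of `u + l` (`cover_l`), at distance at most `2 b` (`gpn_price`: the price).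
-/

set_option autoImplicit false

namespace Pool.Agent.W_7d29a1_C0.Own80

open MeasureTheory ProbabilityTheory Filter Topology Finset
open Pool.Agent.W_7d29a1_F Pool.Agent.W_7d29a1_X Pool.Agent.W_7d29a1_h4g Pool.Agent.W_7d29a1_H
open Pool.Agent.W_7d29a1_HS (In wd md)
open Pool.Agent.W_7d29a1_HZ Pool.Agent.W_7d29a1_HZ.R72 Pool.Agent.W_7d29a1_Z.Asm72
open Pool.Agent.W_7d29a1_HZ.Z86
open Pool.Agent.W_7d29a1_C0.P86
open Pool.Agent.W_7d29a1_C0.P3 (Hy hy_ms hy_off er amp amp_ex)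
open Pool.Agent.W_7d29a1_C0.P15 (ex_of_sum tiny15 log_card)
open scoped ENNReal

variable {μ : Measure ℝ} {s : ℝ} {N : ℕ}

/-- The two paths meet near the row `j`. -/
def Nr (j b : ℕ) (S S' : Finset ℕ) : Prop := ∃ i, j ≤ i + 11 * b ∧ i ≤ j + 11 * b ∧ pos S i = pos S' i

/-- The replica misses the base path on the piece and meets it near `j`. -/
def OwnP (u l j b : ℕ) (S S' : Finset ℕ) : Prop := NoMeet u (u + l) S S' ∧ Nr j b S S'

/-- The lengths of the places. -/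
def tP (l b i : ℕ) : ℕ := if i = 0 then b else 2 ^ (i - 1) * l

/-- The indices of the places. -/
def PP (l b : ℕ) : Finset ℕ := (range (Nat.log 2 b + 3)).filter fun i => tP l b i ≤ 2 * b

theorem tP_zero (l b : ℕ) : tP l b 0 = b := if_pos rfl

theorem tP_succ (l b m : ℕ) : tP l b (m + 1) = 2 ^ m * l := by
  unfold tP
  rw [if_neg (by omega)]
  rfl

/-- The scale of a gap. -/
theorem scale {l b D K : ℕ} (hl : 1 ≤ l) (hlb : l ≤ 2 * b) (hK : 12 ≤ K) (hDb : D ≤ K * b) :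
    ∃ m, m + 1 ∈ PP l b ∧ D ≤ K * (2 ^ m * l) ∧ (m = 0 ∨ K * (2 ^ m * l) < 2 * D) := by
  have hex : ∃ m, D ≤ K * (2 ^ m * l) := by
    refine ⟨D, ?_⟩
    have h1 : D < 2 ^ D := Nat.lt_two_pow_self
    have h2 : 2 ^ D * 1 ≤ 2 ^ D * l := Nat.mul_le_mul_left _ hl
    have h3 : 1 * (2 ^ D * l) ≤ K * (2 ^ D * l) := Nat.mul_le_mul_right _ (by omega)
    omega
  obtain ⟨m, hm⟩ : ∃ m, m = Nat.find hex := ⟨_, rfl⟩
  have h1 := Nat.find_spec hex
  rw [← hm] at h1
  have h2 : m = 0 ∨ K * (2 ^ m * l) < 2 * D := by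
    rcases Nat.eq_zero_or_pos m with g | g
    · exact Or.inl g
    · right
      have h3 := Nat.find_min hex (show m - 1 < Nat.find hex by omega)
      push Not at h3
      obtain ⟨k, rfl⟩ : ∃ k, m = k + 1 := ⟨m - 1, by omega⟩
      rw [Nat.add_sub_cancel] at h3
      have h4 : K * (2 ^ (k + 1) * l) = 2 * (K * (2 ^ k * l)) := by ring
      omega
  refine ⟨m, ?_, h1, h2⟩
  unfold PP
  rw [mem_filter, mem_range, tP_succ]
  rcases h2 with g | g
  · subst g
    rw [pow_zero, one_mul]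
    exact ⟨by omega, hlb⟩
  · have h5 : 2 ^ m * l ≤ 2 * b := by
      by_contra hcon
      push Not at hcon
      have h6 : K * (2 * b) ≤ K * (2 ^ m * l) := Nat.mul_le_mul_left _ hcon.le
      have h7 : K * (2 * b) = 2 * (K * b) := by ring
      omega
    refine ⟨?_, h5⟩
    have h8 : 2 ^ m * 1 ≤ 2 ^ m * l := Nat.mul_le_mul_left _ hl
    have h9 : 2 ^ m ≤ 2 * b := by omega
    have hb : b ≠ 0 := by
      intro h
      subst h
      have := Nat.one_le_two_pow (n := m)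
      omega
    have h10 : m ≤ Nat.log 2 (2 * b) := Nat.le_log_of_pow_le (by norm_num) h9
    have h11 : Nat.log 2 (2 * b) = Nat.log 2 b + 1 := by
      rw [mul_comm, Nat.log_mul_base (by norm_num) hb]
    omega

/-- **The places to the right.** -/
theorem cover_r {u l j b c d : ℕ} (hl : 1 ≤ l) (hlb : l ≤ 2 * b) (hju : j ≤ u) (huj : u ≤ j + b) (hc : c ≤ u) (hd : u + l ≤ d)
    {S S' : Finset ℕ} (hout : ∀ i, i ≤ c ∨ d ≤ i → pos S i = pos S' i) (h : OwnP u l j b S S') :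
    ∃ i ∈ PP l b, Gpn c d (tP l b i) u S S' := by
  obtain ⟨h1, i₀, h2, h3, h4⟩ := h
  have hud : u + l < d := by
    rcases Nat.lt_or_ge (u + l) d with g | g
    · exact g
    · exact absurd (hout d (Or.inr le_rfl)) (h1 d (by omega) (by omega))
  have hex : ∃ k, u + l < k ∧ pos S k = pos S' k := ⟨d, hud, hout d (Or.inr le_rfl)⟩
  obtain ⟨q, hq⟩ : ∃ q, q = Nat.find hex := ⟨_, rfl⟩
  obtain ⟨g1, g2⟩ := Nat.find_spec hex
  rw [← hq] at g1 g2
  have g3 : q ≤ d := hq ▸ Nat.find_min' hex ⟨hud, hout d (Or.inr le_rfl)⟩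
  have g4 : ∀ k, u ≤ k → k < q → pos S k ≠ pos S' k := fun k hk1 hk2 => by
    by_cases hk : k ≤ u + l
    · exact h1 k hk1 hk
    · intro h5
      exact Nat.find_min hex (show k < Nat.find hex by omega) ⟨by omega, h5⟩
  have hc0 : pos S c = pos S' c := hout c (Or.inl le_rfl)
  by_cases hA : q - u ≤ 12 * b
  · obtain ⟨m, k1, k2, k3⟩ := scale (D := q - u) (K := 12) hl hlb le_rfl hA
    refine ⟨m + 1, k1, ?_⟩
    rw [tP_succ]
    obtain ⟨t, ht⟩ : ∃ t, t = 2 ^ m * l := ⟨_, rfl⟩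
    rw [← ht] at k2 k3 ⊢
    have k4 : t < q - u := by
      rcases k3 with g | g
      · subst g
        rw [pow_zero, one_mul] at ht
        omega
      · omega
    exact ⟨c, q, le_rfl, hc, by omega, g3, Or.inr (by omega), hc0, g2, fun k hk1 hk2 => g4 k hk1 (by omega)⟩
  · refine ⟨0, ?_, ?_⟩
    · unfold PP
      rw [mem_filter, mem_range, tP_zero]
      omega
    · rw [tP_zero]
      have k1 : i₀ < u := by
        by_contra hcon
        push Not at hcon
        exact g4 i₀ hcon (by omega) h4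
      refine ⟨max c i₀, q, le_max_left _ _, by omega, by omega, g3, Or.inl (by omega), ?_, g2, fun k hk1 hk2 => g4 k hk1 (by omega)⟩
      rcases le_total c i₀ with g | g
      · rw [max_eq_right g]
        exact h4
      · rw [max_eq_left g]
        exact hc0

/-- **The places to the left.** -/
theorem cover_l {u l j b c d : ℕ} (hl : 1 ≤ l) (hlb : l ≤ 2 * b) (hju : j ≤ u + b) (huj : u + l ≤ j) (hc : c ≤ u) (hd : u + l ≤ d)
    {S S' : Finset ℕ} (hout : ∀ i, i ≤ c ∨ d ≤ i → pos S i = pos S' i) (h : OwnP u l j b S S') :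
    ∃ i ∈ PP l b, Gpn c d (tP l b i) (u + l - tP l b i) S S' := by
  obtain ⟨h1, i₀, h2, h3, h4⟩ := h
  have hcu : c < u := by
    rcases Nat.lt_or_ge c u with g | g
    · exact g
    · exact absurd (hout c (Or.inl le_rfl)) (h1 c g (by omega))
  have hex : ∃ k, c ≤ u - 1 - k ∧ k ≤ u - 1 ∧ pos S (u - 1 - k) = pos S' (u - 1 - k) :=
    ⟨u - 1 - c, by omega, by omega, by
      have : u - 1 - (u - 1 - c) = c := by omega
      rw [this]
      exact hout c (Or.inl le_rfl)⟩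
  obtain ⟨g1, g2, g3⟩ := Nat.find_spec hex
  obtain ⟨a, ha⟩ : ∃ a, a = u - 1 - Nat.find hex := ⟨_, rfl⟩
  rw [← ha] at g1 g3
  have g4 : ∀ k, a < k → k ≤ u + l → pos S k ≠ pos S' k := fun k hk1 hk2 => by
    by_cases hk : u ≤ k
    · exact h1 k hk hk2
    · intro h5
      refine Nat.find_min hex (show u - 1 - k < Nat.find hex by omega) ⟨by omega, by omega, ?_⟩
      have : u - 1 - (u - 1 - k) = k := by omega
      rw [this]
      exact h5
  have hd0 : pos S d = pos S' d := hout d (Or.inr le_rfl)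
  have hau : a < u := by omega
  by_cases hA : u + l - a ≤ 13 * b
  · obtain ⟨m, k1, k2, k3⟩ := scale (D := u + l - a) (K := 13) hl hlb (by norm_num) hA
    refine ⟨m + 1, k1, ?_⟩
    rw [tP_succ]
    obtain ⟨t, ht⟩ : ∃ t, t = 2 ^ m * l := ⟨_, rfl⟩
    rw [← ht] at k2 k3 ⊢
    have k4 : t < u + l - a := by
      rcases k3 with g | g
      · subst g
        rw [pow_zero, one_mul] at ht
        omega
      · omega
    have k5 : 1 ≤ t := by
      rw [ht]
      exact Nat.mul_pos (by positivity) hl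
    exact ⟨a, d, g1, by omega, by omega, le_rfl, Or.inl (by omega), g3, hd0, fun k hk1 hk2 => g4 k (by omega) (by omega)⟩
  · refine ⟨0, ?_, ?_⟩
    · unfold PP
      rw [mem_filter, mem_range, tP_zero]
      omega
    · rw [tP_zero]
      have k1 : u + l < i₀ := by
        by_contra hcon
        push Not at hcon
        exact g4 i₀ (by omega) hcon h4
      have k2 : 1 ≤ b := by omega
      have k3 : u + l < d := by
        rcases Nat.lt_or_ge (u + l) d with g | g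
        · exact g
        · exact absurd hd0 (h1 d (by omega) (by omega))
      refine ⟨a, min d i₀, g1, by omega, by omega, min_le_left _ _, Or.inr (by omega), g3, ?_, fun k hk1 hk2 => g4 k (by omega) (by omega)⟩
      rcases le_total d i₀ with g | g
      · rw [min_eq_left g]
        exact hd0
      · rw [min_eq_right g]
        exact h4

variable [IsProbabilityMeasure μ] {c₀ C₀ : ℝ} {n₀ : ℕ}

/-- **THE PRICE OF A COVERED REPLICA.** -/
theorem gpn_price (h : In μ s c₀ C₀ n₀) : ∀ ε θ : ℝ, 0 < ε → 0 < θ → ∃ δ κ c₂ : ℝ, 0 < δ ∧ 0 < κ ∧ 0 < c₂ ∧ ∃ L₀ : ℕ, ∀ L : ℕ, L₀ ≤ L →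
    ∀ N : ℕ, L ≤ 16 * N → N ≤ L → ∀ y : ℕ, y ≤ N → |(y : ℝ) - sl μ s * N| ≤ ((L : ℝ) ^ δ * wd' μ s N) →
    ∀ l b c d : ℕ, (L : ℝ) ^ θ ≤ l → l ≤ b → 2 * b ≤ N → c ≤ d → d ≤ N → ∀ (τ : ℕ → ℕ) (A : Finset ℕ → Finset ℕ → Prop),
    (∀ S S' : Finset ℕ, (∀ i, i ≤ c ∨ d ≤ i → pos S i = pos S' i) → A S S' → ∃ i ∈ PP l b, Gpn c d (tP l b i) (τ i) S S') →
    ∀ x : ℝ, x ≤ (L : ℝ) ^ κ → ∀ F : Env → Finset ℕ → Prop, Ms F → (∀ i ∈ PP l b, OffRows (Ico (τ i) (τ i + tP l b i)) F) →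
    P1 μ s N y (fun η S => F η S ∧ Hy μ s N y c d A x η S) ≤
      ENNReal.ofReal ((L : ℝ) ^ ε * (EE' μ s l)⁻¹) * P1 μ s N y F + ENNReal.ofReal (Real.exp (-(L : ℝ) ^ c₂)) := by
  intro ε θ hε hθ
  obtain ⟨a, K, ha, ha1, hK, hE⟩ := EE'_pow h
  obtain ⟨δ, c₁, hδ, hc₁, L₁, hP⟩ := pl_near86 h (ε / 2) θ (by positivity) hθ
  obtain ⟨κ, c₂, hκ, -, hc₂, L₂, hT⟩ := tiny15 hc₁
  obtain ⟨L₃, hC⟩ := log_card (show 0 < ε / 2 by positivity) (2 * K) (by linarith)
  refine ⟨δ, κ, c₂, hδ, hκ, hc₂, L₁ + L₂ + L₃ + 100, ?_⟩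
  intro L hL N hLN hNL y hyN hyc l b c d hlL hlb hbN hcd hdN τ A hcov x hx F hF hoff
  have hL100 : (100 : ℝ) ≤ L := by exact_mod_cast (show 100 ≤ L by omega)
  have hL0 : (0 : ℝ) < L := by linarith
  have hy0 : (0 : ℤ) ≤ y := by positivity
  have hyN' : (y : ℤ) ≤ N := by exact_mod_cast hyN
  have hyc' : |((y : ℤ) : ℝ) - sl μ s * N| ≤ ((L : ℝ) ^ δ * wd' μ s N) := by
    push_cast
    exact hyc
  obtain ⟨hLexp, hTiny⟩ := hT L (by omega)
  have hl1 : 1 ≤ l := by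
    have h1 : (0 : ℝ) < (L : ℝ) ^ θ := Real.rpow_pos_of_pos hL0 _
    have h2 : (0 : ℝ) < l := by linarith
    exact_mod_cast h2
  have hE0 : ∀ t, 0 < EE' μ s t := fun t => lt_of_lt_of_le zero_lt_one (le_max_left _ _)
  have hcard : (PP l b).card ≤ Nat.log 2 N + 4 := by
    refine (card_filter_le _ _).trans ?_
    rw [card_range]
    have := Nat.log_mono_right (b := 2) (show b ≤ N by omega)
    omega
  -- the lengths of the places
  have hlen : ∀ i, l ≤ tP l b i := by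
    intro i
    unfold tP
    split_ifs with g1
    · exact hlb
    · have h1 : 1 * l ≤ 2 ^ (i - 1) * l := Nat.mul_le_mul_right l Nat.one_le_two_pow
      omega
  have hEt : ∀ i, (EE' μ s (tP l b i))⁻¹ ≤ 2 * K * (EE' μ s l)⁻¹ := by
    intro i
    have key : EE' μ s l ≤ 2 * K * EE' μ s (tP l b i) := by
      have h1 := (hE l (tP l b i) hl1 (hlen i)).1
      have h2 := hE0 (tP l b i)
      nlinarith
    rw [← div_eq_mul_inv, le_div_iff₀ (hE0 l), inv_mul_le_iff₀ (hE0 _)]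
    linarith
  -- the places
  have hpl : ∀ i ∈ PP l b, Pl μ s N y (ENNReal.ofReal ((L : ℝ) ^ (ε / 2) * (EE' μ s (tP l b i))⁻¹))
      (ENNReal.ofReal (Real.exp (-(L : ℝ) ^ c₁))) (Gpn c d (tP l b i) (τ i))
      (Ico (τ i) (τ i + tP l b i)) (Ioc c d) := by
    intro i hi
    have h1 := (mem_filter.1 hi).2
    have h2 : (L : ℝ) ^ θ ≤ tP l b i := hlL.trans (by exact_mod_cast hlen i)
    exact hP L (by omega) N (tP l b i) hLN hNL h2 (h1.trans hbN) y hy0 hyN' hyc' (τ i) c d hdN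
  have hexp : ((PP l b).card : ℝ) ≤ Real.exp (2 * (L : ℝ) ^ κ - x) := by
    have h1 : ((PP l b).card : ℝ) ≤ L := by
      have h2 : (PP l b).card ≤ Nat.log 2 b + 3 := (card_filter_le _ _).trans (le_of_eq (card_range _))
      have h3 := Nat.log_lt_self 2 (show b ≠ 0 by omega)
      exact_mod_cast (show (PP l b).card ≤ L by omega)
    refine h1.trans (hLexp.trans (Real.exp_le_exp.2 ?_))
    linarith
  have hex : ∀ η S, Hy μ s N y c d A x η S →
      ∃ i ∈ PP l b, Hy μ s N y c d (Gpn c d (tP l b i) (τ i)) (2 * (L : ℝ) ^ κ) η S := fun η S hh =>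
    ex_of_sum (PP l b) (fun i => mc μ s N y c d (Gpn c d (tP l b i) (τ i)) η S)
      (mc_le_sum (PP l b) _ (fun S S' _ _ _ _ h5 h6 => hcov S S' h5 h6) η S) hh hexp
  have h1 : P1 μ s N y (fun η S => F η S ∧ Hy μ s N y c d A x η S) ≤
      P1 μ s N y (fun η S => ∃ i ∈ PP l b, F η S ∧ Hy μ s N y c d (Gpn c d (tP l b i) (τ i)) (2 * (L : ℝ) ^ κ) η S) :=
    A12.P1_mono fun η S hev => by
      obtain ⟨i, hi, h2⟩ := hex η S hev.2
      exact ⟨i, hi, hev.1, h2⟩
  refine h1.trans ((A12.P1_exists (μ := μ) (s := s) (N := N) (y := y) (PP l b) _).trans ?_)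
  refine (sum_le_sum fun i hi => amp hyN hcd hdN (gpn_on2 c d (tP l b i) (τ i)) (fun _ _ h => h) (hpl i hi)
    (2 * (L : ℝ) ^ κ) (3 * (L : ℝ) ^ κ) hF (hoff i hi)).trans ?_
  rw [sum_add_distrib, ← Finset.sum_mul, sum_const, nsmul_eq_mul]
  refine add_le_add (mul_le_mul' ?_ le_rfl) ?_
  · refine (sum_le_sum fun i _ => ENNReal.ofReal_le_ofReal
      (mul_le_mul_of_nonneg_left (hEt i) (show 0 ≤ (L : ℝ) ^ (ε / 2) by positivity))).trans ?_
    rw [sum_const, nsmul_eq_mul, ← ENNReal.ofReal_natCast, ← ENNReal.ofReal_mul (Nat.cast_nonneg _)]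
    refine ENNReal.ofReal_le_ofReal ?_
    have h2 := hC L (by omega) N hNL
    have h3 : ((PP l b).card : ℝ) ≤ ((Nat.log 2 N + 4 : ℕ) : ℝ) := by exact_mod_cast hcard
    have h4 : (L : ℝ) ^ ε = (L : ℝ) ^ (ε / 2) * (L : ℝ) ^ (ε / 2) := by
      rw [← Real.rpow_add hL0]
      congr 1
      ring
    have h5 : ((PP l b).card : ℝ) * (2 * K) ≤ (L : ℝ) ^ (ε / 2) := (mul_le_mul_of_nonneg_right h3 (by linarith)).trans h2
    have h6 := (inv_pos.2 (hE0 l)).le
    calc ((PP l b).card : ℝ) * ((L : ℝ) ^ (ε / 2) * (2 * K * (EE' μ s l)⁻¹)) =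
          ((PP l b).card : ℝ) * (2 * K) * (L : ℝ) ^ (ε / 2) * (EE' μ s l)⁻¹ := by
          ring
      _ ≤ (L : ℝ) ^ (ε / 2) * (L : ℝ) ^ (ε / 2) * (EE' μ s l)⁻¹ :=
          mul_le_mul_of_nonneg_right (mul_le_mul_of_nonneg_right h5 (by positivity)) h6
      _ = _ := by rw [h4]
  · refine le_trans (mul_le_mul' ?_ le_rfl) (hTiny N hNL _ le_rfl)
    rw [← ENNReal.ofReal_natCast]
    refine ENNReal.ofReal_le_ofReal ?_
    have h2 : ((PP l b).card : ℝ) ≤ ((Nat.log 2 N + 4 : ℕ) : ℝ) := by exact_mod_cast hcard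
    have h3 : ((Nat.log 2 N + 4 : ℕ) : ℝ) ≤ (L : ℝ) + 4 := by
      have h4 : Nat.log 2 N + 4 ≤ L + 4 := by
        have := Nat.log_le_self 2 N
        omega
      exact_mod_cast h4
    nlinarith [sq_nonneg (L : ℝ)]

end Pool.Agent.W_7d29a1_C0.Own80
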