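import Pool.Agent.W_7d29a1_C0.Lam86C
import Pool.Agent.W_7d29a1_C0.Rob43B
import Pool.Agent.W_7d29a1_C0.Bri36

/-!
C0, helper86: PRICES WITH THE ROBUST EVENTS `Tau` (helper43) AND MASSES TOGETHER, first for `Q1` (`tau_Q1`, `rp_mc`), then in the model form.
-/

set_option autoImplicit false

namespace Pool.Agent.W_7d29a1_C0.P86

open MeasureTheory ProbabilityTheory Filter Topology Finset
open Pool.Agent.W_7d29a1_F Pool.Agent.W_7d29a1_X Pool.Agent.W_7d29a1_h4g Pool.Agent.W_7d29a1_H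
open Pool.Agent.W_7d29a1_HS (In wd md)
open Pool.Agent.W_7d29a1_HZ Pool.Agent.W_7d29a1_HZ.R72 Pool.Agent.W_7d29a1_Z.Asm72
open Pool.Agent.W_7d29a1_HZ.Z86
open Pool.Agent.W_7d29a1_C0.Mod92 (Px Pn lw ps pJ ne_Pn ps_Pn pos_card ps_of_le ps_of_ge wm Pm meas_lw meas_cE meas_gz)
open Pool.Agent.W_7d29a1_C0.Swap57 (NI)
open Pool.W7d29a1.C0 (gm gz gz_pos)
open Pool.W7d29a1.C0.VT31 (Mp cE gm_mul_cE fz cE_sum)
open Pool.W7d29a1.C0.R43 (Tau Rp mI st swP_pJ tau_rp)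
open scoped ENNReal

variable {μ : Measure ℝ} {s : ℝ} {N : ℕ}

/-! ### From `Tau` to a mass -/

/-- The event `Tau` of the block `[c, d)` and the rows `[i, j]`, for the path `S`. -/
def TauS (μ : Measure ℝ) (s : ℝ) (N y c d i j : ℕ) (M : ℝ) (η : Env) (S : Finset ℕ) : Prop :=
  ∃ h : S ∈ Pn N y, Tau (lw μ s η N (Pn N y)) (pJ c d) i j M ⟨S, h⟩

/-- The partner misses `S` in one of the `3 q` pieces. -/
def NMp (τ l q : ℕ) (S S' : Finset ℕ) : Prop := ∃ n < 3 * q, NoMeet (st τ l n) (st τ l n + l) S S'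

/-- Some piece has an alternative of mass more than `exp (- 7 M)`. -/
def RpS (μ : Measure ℝ) (s : ℝ) (N y c d τ l q : ℕ) (M : ℝ) (η : Env) (S : Finset ℕ) : Prop :=
  ∃ n < 3 * q, Real.exp (-(7 * M)) < mc μ s N y c d (NoMeet (st τ l n) (st τ l n + l)) η S

theorem mI_mc {y c d i j : ℕ} (η : Env) {S : Finset ℕ} (h : S ∈ Pn N y) :
    mI (lw μ s η N (Pn N y)) (pJ c d) i j ⟨S, h⟩ = mc μ s N y c d (NoMeet i j) η S := by
  classical
  unfold mI mc
  rw [dif_pos h]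
  congr 1
  funext S'
  unfold NI
  exact if_congr Iff.rfl rfl rfl

/-- The event `Rp` against the conditional mass. -/
theorem rp_mc {y c d τ l q : ℕ} {M : ℝ} (η : Env) (S : Finset ℕ) :
    ind (RpS μ s N y c d τ l q M η S) ≤ ENNReal.ofReal (Real.exp (7 * M)) * ENNReal.ofReal (mc μ s N y c d (NMp τ l q) η S) := by
  by_cases h : RpS μ s N y c d τ l q M η S
  · rw [ind_of h]
    obtain ⟨n, hn, h1⟩ := h
    have h2 : mc μ s N y c d (NoMeet (st τ l n) (st τ l n + l)) η S ≤ mc μ s N y c d (NMp τ l q) η S :=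
      mc_mono (fun S S' _ _ _ _ _ hm => ⟨n, hn, hm⟩) η S
    rw [← ENNReal.ofReal_mul (Real.exp_pos _).le, ← ENNReal.ofReal_one]
    refine ENNReal.ofReal_le_ofReal ?_
    have h3 := mul_le_mul_of_nonneg_left (h1.le.trans h2) (Real.exp_pos (7 * M)).le
    rwa [← Real.exp_add, add_neg_cancel, Real.exp_zero] at h3
  · rw [ind_not h]
    exact zero_le

theorem Q1_add_const [IsProbabilityMeasure μ] {y : ℤ} {f g : Env → Finset ℕ → ℝ≥0∞} {e : ℝ≥0∞}
    (h : ∀ η, ∑ S ∈ (range N).powerset, ENNReal.ofReal (gp μ s η N y S) * f η S ≤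
      ∑ S ∈ (range N).powerset, ENNReal.ofReal (gp μ s η N y S) * g η S + e) : Q1 μ s N y f ≤ Q1 μ s N y g + e := by
  unfold Q1
  refine (lintegral_mono h).trans ?_
  rw [lintegral_add_right _ measurable_const, lintegral_const, measure_univ, mul_one]

/-- A factor may be enlarged by a constant. -/
theorem Q1_add_err [IsProbabilityMeasure μ] {y : ℕ} (hy : y ≤ N) {F g t : Env → Finset ℕ → ℝ≥0∞} {e : ℝ≥0∞} (hF : ∀ η S, F η S ≤ 1)
    (h : ∀ η S, g η S ≤ t η S + e) : Q1 μ s N y (fun η S => F η S * g η S) ≤ Q1 μ s N y (fun η S => F η S * t η S) + e := by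
  refine Q1_add_const fun η => ?_
  have h1 : ∑ S ∈ (range N).powerset, ENNReal.ofReal (gp μ s η N y S) = 1 := by
    rw [← ENNReal.ofReal_sum_of_nonneg fun S _ => Pool.Agent.W_7d29a1_HZ.gp_nonneg η N y S,
      Pool.Agent.W_7d29a1_HZ.gp_sum η (by positivity) (by exact_mod_cast hy), ENNReal.ofReal_one]
  calc ∑ S ∈ (range N).powerset, ENNReal.ofReal (gp μ s η N y S) * (F η S * g η S)
      ≤ ∑ S ∈ (range N).powerset, (ENNReal.ofReal (gp μ s η N y S) * (F η S * t η S) + ENNReal.ofReal (gp μ s η N y S) * e) := by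
        refine sum_le_sum fun S _ => ?_
        rw [← mul_add]
        refine mul_le_mul' le_rfl ((mul_le_mul' le_rfl (h η S)).trans ?_)
        rw [mul_add]
        exact add_le_add le_rfl ((mul_le_mul' (hF η S) le_rfl).trans_eq (one_mul _))
    _ = _ := by rw [sum_add_distrib, ← sum_mul, h1, one_mul]

/-- **`Tau` may be replaced by `Rp`.** -/
theorem tau_Q1 [IsProbabilityMeasure μ] {y c d : ℕ} (hy : y ≤ N) (hcd : c ≤ d) (τ l q : ℕ) {M : ℝ} (hM : 8 ≤ M) (hq : 10 * M ≤ q)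
    (hq' : (q : ℝ) ≤ 20 * M) {E : ℕ} (hE : τ + 3 * q * (l + 1) ≤ E) {f : Env → Finset ℕ → ℝ≥0∞} (hf : ∀ η S, f η S ≤ 1) :
    Q1 μ s N y (fun η S => f η S * ind (TauS μ s N y c d τ E M η S)) ≤
      Q1 μ s N y (fun η S => f η S * ind (RpS μ s N y c d τ l q M η S)) + ENNReal.ofReal (Real.exp (-M)) := by
  classical
  have := ne_Pn (N := N) (y := y) hy
  refine Q1_add_const fun η => ?_
  have h1 := tau_rp (μ := μ) (s := s) (N := N) (Q := Pn N y) η (swP_pJ hcd) τ l q hM hq hq' hE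
  -- the pair event
  obtain ⟨B, hB⟩ : ∃ B : Finset ℕ → Prop, B = fun S => TauS μ s N y c d τ E M η S ∧ ¬ RpS μ s N y c d τ l q M η S := ⟨_, rfl⟩
  have hRp : ∀ S : Px (Pn N y), Rp (lw μ s η N (Pn N y)) (pJ c d) τ l q M S ↔ RpS μ s N y c d τ l q M η S.1 := by
    intro S
    unfold Rp RpS
    refine exists_congr fun n => and_congr_right fun _ => ?_
    rw [← mI_mc η S.2]
  have hTau : ∀ S : Px (Pn N y), Tau (lw μ s η N (Pn N y)) (pJ c d) τ E M S ↔ TauS μ s N y c d τ E M η S.1 := fun S =>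
    ⟨fun h => ⟨S.2, h⟩, fun ⟨_, h⟩ => h⟩
  have h2 : gm (lw μ s η N (Pn N y)) (fun S => if B S.1 then (1 : ℝ) else 0) ≤ Real.exp (-M) := by
    refine le_trans (le_of_eq ?_) h1
    congr 1
    funext S
    have hb : B S.1 ↔ (Tau (lw μ s η N (Pn N y)) (pJ c d) τ E M S ∧ ¬ Rp (lw μ s η N (Pn N y)) (pJ c d) τ l q M S) := by
      rw [hB]
      exact and_congr (hTau S).symm (not_congr (hRp S).symm)
    by_cases h : B S.1
    · rw [if_pos h, if_pos (hb.1 h)]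
    · rw [if_neg h, if_neg fun h' => h (hb.2 h')]
  rw [Pool.Agent.W_7d29a1_C0.Bri36.gm_Pn η fun S => if B S then (1 : ℝ) else 0] at h2
  have h3 : ∑ S ∈ (range N).powerset, ENNReal.ofReal (gp μ s η N y S) * ind (B S) ≤ ENNReal.ofReal (Real.exp (-M)) := by
    have e1 : ∀ S ∈ (range N).powerset, ENNReal.ofReal (gp μ s η N y S) * ind (B S) =
        ENNReal.ofReal (gp μ s η N y S * if B S then 1 else 0) := by
      intro S _
      by_cases h : B S
      · rw [ind_of h, if_pos h, mul_one, mul_one]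
      · rw [ind_not h, if_neg h, mul_zero, mul_zero, ENNReal.ofReal_zero]
    rw [sum_congr rfl e1, ← ENNReal.ofReal_sum_of_nonneg fun S _ => mul_nonneg (Pool.Agent.W_7d29a1_HZ.gp_nonneg η N y S)
      (by split_ifs <;> norm_num)]
    exact ENNReal.ofReal_le_ofReal h2
  refine le_trans ?_ (add_le_add (le_refl (∑ S ∈ (range N).powerset, ENNReal.ofReal (gp μ s η N y S) *
    (f η S * ind (RpS μ s N y c d τ l q M η S)))) h3)
  rw [← sum_add_distrib]
  refine sum_le_sum fun S _ => ?_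
  rw [← mul_add]
  refine mul_le_mul' le_rfl ?_
  by_cases hT : TauS μ s N y c d τ E M η S
  · by_cases hR : RpS μ s N y c d τ l q M η S
    · rw [ind_of hT, ind_of hR]
      exact le_self_add
    · rw [ind_of hT, mul_one]
      have : B S := by
        rw [hB]
        exact ⟨hT, hR⟩
      rw [ind_of this]
      exact (hf η S).trans le_add_self
  · rw [ind_not hT, mul_zero]
    exact zero_le

/-- Factors of a product replaced one after the other. -/
theorem Q1_replace {k : ℕ} {y : ℤ} {f : Env → Finset ℕ → ℝ≥0∞} (hf : ∀ η S, f η S ≤ 1) {t r : Fin k → Env → Finset ℕ → ℝ≥0∞}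
    (ht : ∀ i η S, t i η S ≤ 1) (hr : ∀ i η S, r i η S ≤ 1) {e : Fin k → ℝ≥0∞}
    (h : ∀ i, ∀ F : Env → Finset ℕ → ℝ≥0∞, (∀ η S, F η S ≤ 1) →
      Q1 μ s N y (fun η S => F η S * t i η S) ≤ Q1 μ s N y (fun η S => F η S * r i η S) + e i) :
    Q1 μ s N y (fun η S => f η S * ∏ i, t i η S) ≤ Q1 μ s N y (fun η S => f η S * ∏ i, r i η S) + ∑ i, e i := by
  classical
  have key : ∀ I : Finset (Fin k), Q1 μ s N y (fun η S => f η S * ∏ i, t i η S) ≤
      Q1 μ s N y (fun η S => f η S * ∏ i, (if i ∈ I then r i η S else t i η S)) + ∑ i ∈ I, e i := by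
    intro I
    induction I using Finset.induction_on with
    | empty => simp
    | insert j I hj ih =>
      refine ih.trans ?_
      rw [sum_insert hj, add_comm (e j), ← add_assoc, add_right_comm]
      refine add_le_add ?_ le_rfl
      have h1 := h j (fun η S => f η S * ∏ i ∈ univ.erase j, (if i ∈ I then r i η S else t i η S)) fun η S =>
        mul_le_one' (hf η S) (prod_le_one' fun i _ => by split_ifs; exacts [hr _ _ _, ht _ _ _])
      have e1 : ∀ η S, f η S * ∏ i, (if i ∈ I then r i η S else t i η S) =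
          (f η S * ∏ i ∈ univ.erase j, (if i ∈ I then r i η S else t i η S)) * t j η S := by
        intro η S
        rw [← mul_prod_erase univ _ (mem_univ j), if_neg hj]
        ring
      have e2 : ∀ η S, f η S * ∏ i, (if i ∈ insert j I then r i η S else t i η S) =
          (f η S * ∏ i ∈ univ.erase j, (if i ∈ I then r i η S else t i η S)) * r j η S := by
        intro η S
        rw [← mul_prod_erase univ _ (mem_univ j), if_pos (mem_insert_self j I)]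
        have : ∏ i ∈ univ.erase j, (if i ∈ insert j I then r i η S else t i η S) =
            ∏ i ∈ univ.erase j, (if i ∈ I then r i η S else t i η S) := by
          refine prod_congr rfl fun i hi => ?_
          have hij : i ≠ j := (mem_erase.1 hi).1
          by_cases hI : i ∈ I
          · rw [if_pos hI, if_pos (mem_insert_of_mem hI)]
          · rw [if_neg hI, if_neg fun h' => (mem_insert.1 h').elim hij hI]
        rw [this]
        ring
      simp only [e1, e2]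
      exact h1
  have h2 := key univ
  simpa using h2

/-! ### Numbers -/

theorem ev_mul86 (K : ℝ) {a b : ℝ} (hab : a < b) : ∃ L₀ : ℕ, ∀ L : ℕ, L₀ ≤ L → K * (L : ℝ) ^ a ≤ (L : ℝ) ^ b := by
  obtain ⟨L₀, h⟩ := ev_const K (sub_pos.2 hab)
  refine ⟨L₀ + 1, fun L hL => ?_⟩
  have h1 : (0 : ℝ) < L := by exact_mod_cast (show 0 < L by omega)
  calc K * (L : ℝ) ^ a ≤ (L : ℝ) ^ (b - a) * (L : ℝ) ^ a := mul_le_mul_of_nonneg_right (h L (by omega)) (Real.rpow_nonneg h1.le _)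
    _ = (L : ℝ) ^ b := by rw [← Real.rpow_add h1, sub_add_cancel]

/-- The numbers of the pieces: `q = ⌈10 M⌉`, length `l' = l / (3 q) - 1`. -/
theorem tau_num {ε θ κ κ₁ : ℝ} (hκ : 0 < κ) (h1 : κ < κ₁) (h2 : κ < ε / 2) (h3 : κ < θ / 2) (h4 : κ < 1) (_hθ : 0 < θ) :
    ∃ L₀ : ℕ, ∀ L : ℕ, L₀ ≤ L → ∀ M : ℝ, 8 ≤ M → M ≤ (L : ℝ) ^ κ → ∀ l : ℕ, (L : ℝ) ^ θ ≤ l →
      10 * M ≤ ⌈10 * M⌉₊ ∧ (⌈10 * M⌉₊ : ℝ) ≤ 20 * M ∧ 3 * ⌈10 * M⌉₊ * (l / (3 * ⌈10 * M⌉₊) - 1 + 1) ≤ l ∧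
      (L : ℝ) ^ (θ / 2) ≤ ((l / (3 * ⌈10 * M⌉₊) - 1 : ℕ) : ℝ) ∧ ((3 * ⌈10 * M⌉₊ : ℕ) : ℝ) ≤ (L : ℝ) ^ κ₁ ∧ 3 * ⌈10 * M⌉₊ ≤ L ∧
      7 * M ≤ (L : ℝ) ^ κ₁ ∧ l ≤ 9 * ⌈10 * M⌉₊ * (l / (3 * ⌈10 * M⌉₊) - 1) ∧ ((9 * ⌈10 * M⌉₊ : ℕ) : ℝ) ≤ (L : ℝ) ^ (ε / 2) := by
  obtain ⟨a1, b1⟩ := ev_mul86 200 h1
  obtain ⟨a2, b2⟩ := ev_mul86 200 h2
  obtain ⟨a3, b3⟩ := ev_mul86 200 (show κ + θ / 2 < θ by linarith)
  obtain ⟨a4, b4⟩ := ev_mul86 200 h4
  refine ⟨a1 + a2 + a3 + a4 + 1, fun L hL M hM hML l hl => ?_⟩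
  have hL0 : (0 : ℝ) < L := by exact_mod_cast (show 0 < L by omega)
  have hL1 : (1 : ℝ) ≤ L := by exact_mod_cast (show 1 ≤ L by omega)
  have c1 := b1 L (by omega)
  have c2 := b2 L (by omega)
  have c3 := b3 L (by omega)
  have c4 := b4 L (by omega)
  rw [Real.rpow_one] at c4
  rw [Real.rpow_add hL0] at c3
  obtain ⟨q, hq⟩ : ∃ q, q = ⌈10 * M⌉₊ := ⟨_, rfl⟩
  rw [← hq]
  have q1 : 10 * M ≤ q := by rw [hq]; exact Nat.le_ceil _
  have q2 : (q : ℝ) < 10 * M + 1 := by rw [hq]; exact Nat.ceil_lt_add_one (by linarith)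
  have q3 : (q : ℝ) ≤ 11 * M := by linarith
  have q0 : 1 ≤ q := by
    have : (0 : ℝ) < q := by linarith
    exact_mod_cast this
  have hM0 : 0 ≤ (L : ℝ) ^ κ := Real.rpow_nonneg hL0.le _
  have hT1 : (1 : ℝ) ≤ (L : ℝ) ^ (θ / 2) := Real.one_le_rpow hL1 (by linarith)
  obtain ⟨e, he⟩ : ∃ e, e = l / (3 * q) := ⟨_, rfl⟩
  rw [← he]
  have e1 : 3 * q * e ≤ l := by rw [he]; exact Nat.mul_div_le _ _
  have e2 : l < 3 * q * (e + 1) := by rw [he]; exact Nat.lt_mul_div_succ _ (by omega)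
  have e3 : (L : ℝ) ^ (θ / 2) + 2 ≤ (e : ℝ) + 1 := by
    by_contra hcon
    push Not at hcon
    have g1 : (l : ℝ) < 3 * q * (e + 1) := by exact_mod_cast e2
    have g2 : 3 * (q : ℝ) * (e + 1) ≤ 3 * (11 * M) * ((L : ℝ) ^ (θ / 2) + 2) := by
      have : (0 : ℝ) ≤ (e : ℝ) + 1 := by positivity
      have : (0 : ℝ) ≤ M := by linarith
      gcongr
    have g3 : 3 * (11 * M) * ((L : ℝ) ^ (θ / 2) + 2) ≤ 3 * (11 * (L : ℝ) ^ κ) * (3 * (L : ℝ) ^ (θ / 2)) := by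
      have : (L : ℝ) ^ (θ / 2) + 2 ≤ 3 * (L : ℝ) ^ (θ / 2) := by linarith
      gcongr
    have g4 : 3 * (11 * (L : ℝ) ^ κ) * (3 * (L : ℝ) ^ (θ / 2)) ≤ 200 * ((L : ℝ) ^ κ * (L : ℝ) ^ (θ / 2)) := by
      have : 0 ≤ (L : ℝ) ^ κ * (L : ℝ) ^ (θ / 2) := by positivity
      nlinarith
    linarith
  have e4 : 2 ≤ e := by
    have : (2 : ℝ) ≤ e := by linarith
    exact_mod_cast this
  have e5 : e - 1 + 1 = e := by omega
  rw [e5]
  refine ⟨q1, by linarith, e1, ?_, ?_, ?_, by linarith, ?_, ?_⟩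
  · rw [Nat.cast_sub (by omega), Nat.cast_one]
    linarith
  · push_cast
    linarith
  · have : ((3 * q : ℕ) : ℝ) ≤ L := by
      push_cast
      linarith
    exact_mod_cast this
  · have : e + 1 ≤ 3 * (e - 1) := by omega
    calc l ≤ 3 * q * (e + 1) := e2.le
      _ ≤ 3 * q * (3 * (e - 1)) := Nat.mul_le_mul_left _ this
      _ = 9 * q * (e - 1) := by ring
  · push_cast
    linarith

/-! ### The price -/

variable [IsProbabilityMeasure μ] {c₀ C₀ : ℝ} {n₀ : ℕ}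

theorem EE'_le_mul86 (h : In μ s c₀ C₀ n₀) {m n k : ℕ} (hk : 1 ≤ k) (hm : m ≤ k * n) : EE' μ s m ≤ k * EE' μ s n := by
  have h1 : (1 : ℝ) ≤ k := by exact_mod_cast hk
  unfold EE'
  refine max_le ?_ ?_
  · nlinarith [le_max_left (1 : ℝ) (EE μ s n)]
  · exact (EE_le_mul h.em s hk hm).trans (mul_le_mul_of_nonneg_left (le_max_right _ _) (by linarith))

/-- **THE GENERAL PRICE WITH ROBUST EVENTS**, `Q1` form. -/
theorem tauQ (h : In μ s c₀ C₀ n₀) (k : ℕ) (hk : k ≤ 8) : ∀ ε θ : ℝ, 0 < ε → 0 < θ → ∃ δ κ c₂ : ℝ, 0 < δ ∧ 0 < κ ∧ 0 < c₂ ∧ ∃ L₀ : ℕ,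
    ∀ L : ℕ, L₀ ≤ L → ∀ N : ℕ, L ≤ 16 * N → N ≤ L → ∀ y : ℕ, y ≤ N → |(y : ℝ) - sl μ s * N| ≤ ((L : ℝ) ^ δ * wd' μ s N) →
    ∀ c d c' d' U V l : Fin k → ℕ, (∀ i, c i ≤ c' i ∧ c' i ≤ U i ∧ U i ≤ V i ∧ V i ≤ d' i ∧ d' i ≤ d i ∧ d i ≤ N) →
    (∀ i, (L : ℝ) ^ θ ≤ l i) → ∀ (T : Fin k → Prop) (Jf : Fin k → Finset ℕ),
    (∀ i, (Jf i = Ioo (c' i) (d' i) ∧ ∀ i', i < i' → d' i ≤ c' i' ∨ d' i' ≤ c' i ∨
        (¬ T i ∧ (d' i' ≤ U i ∨ V i ≤ c' i') ∧ 4 * (d' i' - c' i') ≤ l i)) ∨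
      (Jf i = Ioo (U i) (d' i) ∧ ∀ i', i < i' → d' i' ≤ U i ∨ d' i ≤ c' i') ∨
      (Jf i = Ioo (c' i) (V i) ∧ ∀ i', i < i' → V i ≤ c' i' ∨ d' i' ≤ c' i)) →
    ∀ M : ℝ, 8 ≤ M → M ≤ (L : ℝ) ^ κ →
    ∀ g : Fin k → Env → Finset ℕ → ℝ≥0∞, (∀ i η S, g i η S ≤ 1) →
    (∀ i, ¬ T i → ∃ (A : Finset ℕ → Finset ℕ → Prop) (n₁ : ℕ) (u v : ℕ → ℕ), (n₁ : ℝ) ≤ (L : ℝ) ^ κ ∧
      (∀ n < n₁, U i ≤ u n ∧ u n + l i ≤ v n ∧ v n ≤ V i) ∧
      (∀ S S', S ⊆ range N → S' ⊆ range N → pos S N = y → pos S' N = y → (∀ j, j ≤ c i ∨ d i ≤ j → pos S j = pos S' j) →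
        A S S' → ∃ n < n₁, Gap (c' i) (d' i) (u n) (v n) S S') ∧
      ∀ η S, g i η S ≤ ENNReal.ofReal (Real.exp ((L : ℝ) ^ κ)) * ENNReal.ofReal (mc μ s N y (c i) (d i) A η S)) →
    (∀ i, T i → c' i = c i ∧ d' i = d i ∧ U i + l i ≤ V i ∧
      ∀ η S, ¬ TauS μ s N y (c i) (d i) (U i) (V i) M η S → g i η S ≤ ENNReal.ofReal (Real.exp (-M))) →
    ∀ f : Env → Finset ℕ → ℝ≥0∞, (∀ S, Measurable fun η => f η S) → (∀ η S, f η S ≤ 1) → (∀ i, OffW (Jf i) f) →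
    Q1 μ s N y (fun η S => f η S * ∏ i, g i η S) ≤
      (∏ i, ENNReal.ofReal ((L : ℝ) ^ ε * (EE' μ s (l i))⁻¹)) * Q1 μ s N y f + ENNReal.ofReal (Real.exp (-(L : ℝ) ^ c₂)) +
        2 * k * ENNReal.ofReal (Real.exp (-M)) := by
  intro ε θ hε hθ
  obtain ⟨δ, κ₁, c₂, hδ, hκ₁, hc₂, L₁, hP⟩ := lam86M h k hk (ε / 2) (θ / 2) (by positivity) (by positivity)
  obtain ⟨κ, hκd⟩ : ∃ κ, κ = min (κ₁ / 2) (min (ε / 4) (min (θ / 4) (1 / 2))) := ⟨_, rfl⟩
  have hκ : 0 < κ := by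
    rw [hκd]
    refine lt_min (by positivity) (lt_min (by positivity) (lt_min (by positivity) (by norm_num)))
  have k1 : κ < κ₁ := by
    have : κ ≤ κ₁ / 2 := by rw [hκd]; exact min_le_left _ _
    linarith
  have k2 : κ < ε / 2 := by
    have : κ ≤ ε / 4 := by rw [hκd]; exact (min_le_right _ _).trans (min_le_left _ _)
    linarith
  have k3 : κ < θ / 2 := by
    have : κ ≤ θ / 4 := by rw [hκd]; exact (min_le_right _ _).trans ((min_le_right _ _).trans (min_le_left _ _))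
    linarith
  have k4 : κ < 1 := by
    have : κ ≤ 1 / 2 := by rw [hκd]; exact (min_le_right _ _).trans ((min_le_right _ _).trans (min_le_right _ _))
    linarith
  obtain ⟨L₂, hNum⟩ := tau_num hκ k1 k2 k3 k4 hθ
  refine ⟨δ, κ, c₂, hδ, hκ, hc₂, L₁ + L₂ + 1, ?_⟩
  intro L hL N hLN hNL y hyN hyc c d c' d' U V l hblk hl T Jf hT M hM hML g hg1 hg hτ f hf hf1 hfo
  classical
  have hL1 : (1 : ℝ) ≤ L := by exact_mod_cast (show 1 ≤ L by omega)
  have hpk : (L : ℝ) ^ κ ≤ (L : ℝ) ^ κ₁ := Real.rpow_le_rpow_of_exponent_le hL1 k1.le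
  have hpt : (L : ℝ) ^ (θ / 2) ≤ (L : ℝ) ^ θ := Real.rpow_le_rpow_of_exponent_le hL1 (by linarith)
  have hpe : (L : ℝ) ^ (ε / 2) ≤ (L : ℝ) ^ ε := Real.rpow_le_rpow_of_exponent_le hL1 (by linarith)
  have hL01 : (L : ℝ) ^ κ ≤ L := (Real.rpow_le_rpow_of_exponent_le hL1 k4.le).trans_eq (Real.rpow_one _)
  obtain ⟨q, hq⟩ : ∃ q, q = ⌈10 * M⌉₊ := ⟨_, rfl⟩
  have hnum := fun i => hNum L (by omega) M hM hML (l i) (hl i)
  rw [← hq] at hnum
  obtain ⟨l', hl'⟩ : ∃ l' : Fin k → ℕ, l' = fun i => if T i then l i / (3 * q) - 1 else l i := ⟨_, rfl⟩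
  have hlT : ∀ i, T i → l' i = l i / (3 * q) - 1 := fun i hi => by rw [hl']; exact if_pos hi
  have hlN : ∀ i, ¬ T i → l' i = l i := fun i hi => by rw [hl']; exact if_neg hi
  obtain ⟨t, ht⟩ : ∃ t : Fin k → Env → Finset ℕ → ℝ≥0∞, t = fun i η S =>
    if T i then ind (TauS μ s N y (c i) (d i) (U i) (V i) M η S) else g i η S := ⟨_, rfl⟩
  obtain ⟨r, hr⟩ : ∃ r : Fin k → Env → Finset ℕ → ℝ≥0∞, r = fun i η S =>
    if T i then ind (RpS μ s N y (c i) (d i) (U i) (l' i) q M η S) else g i η S := ⟨_, rfl⟩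
  have ht1 : ∀ i η S, t i η S ≤ 1 := by
    intro i η S
    rw [ht]
    by_cases hi : T i
    · simp only [if_pos hi]
      exact ind_le _
    · simp only [if_neg hi]
      exact hg1 i η S
  have hr1 : ∀ i η S, r i η S ≤ 1 := by
    intro i η S
    rw [hr]
    by_cases hi : T i
    · simp only [if_pos hi]
      exact ind_le _
    · simp only [if_neg hi]
      exact hg1 i η S
  have s1 := Q1_replace (μ := μ) (s := s) (N := N) (y := y) hf1 hg1 ht1 (e := fun i => ENNReal.ofReal (Real.exp (-M))) fun i F hF => by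
    refine Q1_add_err hyN hF fun η S => ?_
    by_cases hi : T i
    · rw [ht]
      simp only [if_pos hi]
      by_cases hτS : TauS μ s N y (c i) (d i) (U i) (V i) M η S
      · rw [ind_of hτS]
        exact (hg1 i η S).trans le_self_add
      · exact ((hτ i hi).2.2.2 η S hτS).trans le_add_self
    · rw [ht]
      simp only [if_neg hi]
      exact le_self_add
  have s2 := Q1_replace (μ := μ) (s := s) (N := N) (y := y) hf1 ht1 hr1 (e := fun i => ENNReal.ofReal (Real.exp (-M))) fun i F hF => by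
    by_cases hi : T i
    · have h1 := tau_Q1 (μ := μ) (s := s) (N := N) hyN (show c i ≤ d i by have := hblk i; omega) (U i) (l' i) q hM (hnum i).1
        (hnum i).2.1 (E := V i) (by
          have h2 := (hnum i).2.2.1
          rw [← hlT i hi] at h2
          have h3 := (hτ i hi).2.2.1
          omega) hF
      rw [ht, hr]
      simp only [if_pos hi]
      exact h1
    · rw [ht, hr]
      simp only [if_neg hi]
      exact le_self_add
  have s3 : Q1 μ s N y (fun η S => f η S * ∏ i, r i η S) ≤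
      (∏ i, ENNReal.ofReal ((L : ℝ) ^ (ε / 2) * (EE' μ s (l' i))⁻¹)) * Q1 μ s N y f + ENNReal.ofReal (Real.exp (-(L : ℝ) ^ c₂)) := by
    have hX : ∀ i, ∃ (A : Finset ℕ → Finset ℕ → Prop) (n₁ : ℕ) (u v : ℕ → ℕ), ((n₁ : ℝ) ≤ (L : ℝ) ^ κ₁ ∧ n₁ ≤ L) ∧
        (∀ n < n₁, U i ≤ u n ∧ u n + l' i ≤ v n ∧ v n ≤ V i) ∧
        (∀ S S', S ⊆ range N → S' ⊆ range N → pos S N = y → pos S' N = y → (∀ j, j ≤ c i ∨ d i ≤ j → pos S j = pos S' j) →
          A S S' → ∃ n < n₁, Gap (c' i) (d' i) (u n) (v n) S S') ∧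
        ∀ η S, r i η S ≤ ENNReal.ofReal (Real.exp ((L : ℝ) ^ κ₁)) * ENNReal.ofReal (mc μ s N y (c i) (d i) A η S) := by
      intro i
      by_cases hi : T i
      · obtain ⟨hc, hd, hUV, -⟩ := hτ i hi
        obtain ⟨-, -, n3, n4, n5, n6, n7, -, -⟩ := hnum i
        rw [← hlT i hi] at n3 n4
        refine ⟨NMp (U i) (l' i) q, 3 * q, fun n => st (U i) (l' i) n, fun n => st (U i) (l' i) n + l' i, ⟨n5, n6⟩,
          fun n hn => ?_, fun S S' _ _ _ _ hag hm => ?_, fun η S => ?_⟩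
        · have e1 : (n + 1) * (l' i + 1) ≤ 3 * q * (l' i + 1) := Nat.mul_le_mul_right _ (by omega)
          have e2 : st (U i) (l' i) n + (l' i + 1) = U i + (n + 1) * (l' i + 1) := by
            unfold st
            ring
          have e3 : U i ≤ st (U i) (l' i) n := by
            unfold st
            exact Nat.le_add_right _ _
          show U i ≤ st (U i) (l' i) n ∧ st (U i) (l' i) n + l' i ≤ st (U i) (l' i) n + l' i ∧ st (U i) (l' i) n + l' i ≤ V i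
          omega
        · obtain ⟨n, hn, hm⟩ := hm
          refine ⟨n, hn, ?_⟩
          have e1 : (n + 1) * (l' i + 1) ≤ 3 * q * (l' i + 1) := Nat.mul_le_mul_right _ (by omega)
          have e2 : st (U i) (l' i) n + (l' i + 1) = U i + (n + 1) * (l' i + 1) := by
            unfold st
            ring
          have e3 : U i ≤ st (U i) (l' i) n := by
            unfold st
            exact Nat.le_add_right _ _
          rw [hc, hd]
          have := hblk i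
          show Gap (c i) (d i) (st (U i) (l' i) n) (st (U i) (l' i) n + l' i) S S'
          exact gap_of_nm (by omega) (by omega) hag hm
        · rw [hr]
          simp only [if_pos hi]
          refine (rp_mc η S).trans (mul_le_mul' (ENNReal.ofReal_le_ofReal (Real.exp_le_exp.2 n7)) le_rfl)
      · obtain ⟨A, n₁, u, v, a1, a2, a3, a4⟩ := hg i hi
        refine ⟨A, n₁, u, v, ⟨a1.trans hpk, ?_⟩, fun n hn => ?_, a3, fun η S => ?_⟩
        · have : (n₁ : ℝ) ≤ L := a1.trans hL01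
          exact_mod_cast this
        · rw [hlN i hi]
          exact a2 n hn
        · rw [hr]
          simp only [if_neg hi]
          exact (a4 η S).trans (mul_le_mul' (ENNReal.ofReal_le_ofReal (Real.exp_le_exp.2 hpk)) le_rfl)
    choose A n₁ u v hX1 hX2 hX3 hX4 using hX
    refine hP L (by omega) N hLN hNL y hyN hyc c d c' d' U V l' n₁ hblk (fun i => ?_) u v hX2 hX1 Jf (fun i => ?_) A hX3 r hr1
      hX4 f hf hf1 hfo
    · by_cases hi : T i
      · rw [hlT i hi]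
        exact (hnum i).2.2.2.1
      · rw [hlN i hi]
        exact hpt.trans (hl i)
    · rcases hT i with ⟨h1, h2⟩ | h1 | h1
      · refine Or.inl ⟨h1, fun i' hi' => ?_⟩
        rcases h2 i' hi' with g1 | g1 | ⟨g0, g1⟩
        · exact Or.inl g1
        · exact Or.inr (Or.inl g1)
        · refine Or.inr (Or.inr ?_)
          rw [hlN i g0]
          exact g1
      · exact Or.inr (Or.inl h1)
      · exact Or.inr (Or.inr h1)
  have s4 : ∀ i, ENNReal.ofReal ((L : ℝ) ^ (ε / 2) * (EE' μ s (l' i))⁻¹) ≤ ENNReal.ofReal ((L : ℝ) ^ ε * (EE' μ s (l i))⁻¹) := by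
    intro i
    refine ENNReal.ofReal_le_ofReal ?_
    have hE : ∀ n, (0 : ℝ) < EE' μ s n := fun n => lt_of_lt_of_le one_pos (le_max_left _ _)
    have hLp : 0 ≤ (L : ℝ) ^ (ε / 2) := Real.rpow_nonneg (by linarith) _
    by_cases hi : T i
    · obtain ⟨n1, -, -, -, -, -, -, n8, n9⟩ := hnum i
      have hq0 : 1 ≤ 9 * q := by
        have : (0 : ℝ) < q := by linarith
        have : 0 < q := by exact_mod_cast this
        omega
      have e1 : EE' μ s (l i) ≤ ((9 * q : ℕ) : ℝ) * EE' μ s (l' i) := by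
        refine EE'_le_mul86 h hq0 ?_
        rw [hlT i hi]
        exact n8
      have e2 : (EE' μ s (l' i))⁻¹ ≤ ((9 * q : ℕ) : ℝ) * (EE' μ s (l i))⁻¹ := by
        rw [inv_le_iff_one_le_mul₀ (hE _), mul_assoc]
        have : (EE' μ s (l i))⁻¹ * EE' μ s (l i) = 1 := inv_mul_cancel₀ (hE _).ne'
        calc (1 : ℝ) = (EE' μ s (l i))⁻¹ * EE' μ s (l i) := this.symm
          _ ≤ (EE' μ s (l i))⁻¹ * (((9 * q : ℕ) : ℝ) * EE' μ s (l' i)) := mul_le_mul_of_nonneg_left e1 (inv_nonneg.2 (hE _).le)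
          _ = _ := by ring
      calc (L : ℝ) ^ (ε / 2) * (EE' μ s (l' i))⁻¹ ≤ (L : ℝ) ^ (ε / 2) * (((9 * q : ℕ) : ℝ) * (EE' μ s (l i))⁻¹) :=
            mul_le_mul_of_nonneg_left e2 hLp
        _ ≤ (L : ℝ) ^ (ε / 2) * ((L : ℝ) ^ (ε / 2) * (EE' μ s (l i))⁻¹) :=
            mul_le_mul_of_nonneg_left (mul_le_mul_of_nonneg_right n9 (inv_nonneg.2 (hE _).le)) hLp
        _ = (L : ℝ) ^ ε * (EE' μ s (l i))⁻¹ := by
            rw [← mul_assoc, ← Real.rpow_add (by linarith), add_halves]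
    · rw [hlN i hi]
      exact mul_le_mul_of_nonneg_right hpe (inv_nonneg.2 (hE _).le)
  refine s1.trans ((add_le_add (s2.trans (add_le_add (s3.trans (add_le_add (mul_le_mul' (prod_le_prod' fun i _ => s4 i) le_rfl) le_rfl))
    le_rfl)) le_rfl).trans (le_of_eq ?_))
  rw [sum_const, card_univ, Fintype.card_fin, nsmul_eq_mul]
  ring

end Pool.Agent.W_7d29a1_C0.P86
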