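import Pool.Agent.W_7d29a1_C0.OwnP80
import Pool.Agent.W_7d29a1_C0.Tau86

/-!
C0, helper80: THE OWN EVENTS `OwR`, `OwL` (for every `T` a replica which misses the base path on a piece of the last `T` rows of the window
of the row `j` and meets it in `[j - 11 b, j + 11 b]`): their price given every event which does not see the rows behind `j + b - T`
(`owR_own`: the hypothesis of the site theorem of helper15), and the passage from the robust event `Tau` and from a mass to `Long` or `OwR`.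
-/

set_option autoImplicit false

namespace Pool.Agent.W_7d29a1_C0.Own80

open MeasureTheory ProbabilityTheory Filter Topology Finset
open Pool.Agent.W_7d29a1_F Pool.Agent.W_7d29a1_X Pool.Agent.W_7d29a1_h4g Pool.Agent.W_7d29a1_H
open Pool.Agent.W_7d29a1_HS (In wd md)
open Pool.Agent.W_7d29a1_HZ Pool.Agent.W_7d29a1_HZ.R72 Pool.Agent.W_7d29a1_Z.Asm72
open Pool.Agent.W_7d29a1_HZ.Z86
open Pool.Agent.W_7d29a1_C0.P86
open Pool.Agent.W_7d29a1_C0.P3 (Hy hy_ms hy_off er amp amp_ex)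
open Pool.Agent.W_7d29a1_C0.P15 (ex_of_sum tiny15 log_card)
open Pool.W7d29a1.C0.R43 (st)
open scoped ENNReal

variable {μ : Measure ℝ} {s : ℝ} {N : ℕ}

/-- The length of the pieces of a window of length `T - 1`. -/
def lT (T q : ℕ) : ℕ := (T - 1) / (3 * q) - 1

/-- The own event at the right end. -/
def OwR (μ : Measure ℝ) (s : ℝ) (N y c d j b q T₀ : ℕ) (x : ℝ) (η : Env) (S : Finset ℕ) : Prop :=
  ∀ T, T₀ ≤ T → 4 * T ≤ b → ∃ n < 3 * q, Hy μ s N y c d (OwnP (st (j + b - T + 1) (lT T q) n) (lT T q) j b) x η S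

/-- The own event at the left end. -/
def OwL (μ : Measure ℝ) (s : ℝ) (N y c d j b q T₀ : ℕ) (x : ℝ) (η : Env) (S : Finset ℕ) : Prop :=
  ∀ T, T₀ ≤ T → 4 * T ≤ b → ∃ n < 3 * q, Hy μ s N y c d (OwnP (st (j - b) (lT T q) n) (lT T q) j b) x η S

theorem ms_fam {q b T₀ : ℕ} {A : ℕ → ℕ → Env → Finset ℕ → Prop} (hA : ∀ T n, Ms (A T n)) :
    Ms fun η S => ∀ T, T₀ ≤ T → 4 * T ≤ b → ∃ n < 3 * q, A T n η S := by
  intro S
  have e : {η : Env | ∀ T, T₀ ≤ T → 4 * T ≤ b → ∃ n < 3 * q, A T n η S} =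
      ⋂ T, ⋂ (_ : T₀ ≤ T), ⋂ (_ : 4 * T ≤ b), ⋃ n, ⋃ (_ : n < 3 * q), {η | A T n η S} := by
    ext η
    simp
  rw [e]
  exact MeasurableSet.iInter fun T => MeasurableSet.iInter fun _ => MeasurableSet.iInter fun _ => MeasurableSet.iUnion fun n =>
    MeasurableSet.iUnion fun _ => hA T n S

theorem owR_ms {y c d j b q T₀ : ℕ} {x : ℝ} : Ms (OwR μ s N y c d j b q T₀ x) := ms_fam fun _ _ => hy_ms _ x

theorem owL_ms {y c d j b q T₀ : ℕ} {x : ℝ} : Ms (OwL μ s N y c d j b q T₀ x) := ms_fam fun _ _ => hy_ms _ x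

/-- The place of a piece. -/
theorem st_bd {U l n q : ℕ} (hn : n < 3 * q) : U ≤ st U l n ∧ st U l n + l + 1 ≤ U + 3 * q * (l + 1) := by
  have e1 : (n + 1) * (l + 1) ≤ 3 * q * (l + 1) := Nat.mul_le_mul_right _ (by omega)
  have e2 : st U l n + (l + 1) = U + (n + 1) * (l + 1) := by
    unfold st
    ring
  have e3 : U ≤ st U l n := by
    unfold st
    exact Nat.le_add_right _ _
  omega

variable [IsProbabilityMeasure μ] {c₀ C₀ : ℝ} {n₀ : ℕ}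

/-- A family of pieces of a window of length `T - 1`. -/
theorem ow_core (h : In μ s c₀ C₀ n₀) : ∀ ε θ : ℝ, 0 < ε → 0 < θ → ∃ δ κ c₂ : ℝ, 0 < δ ∧ 0 < κ ∧ 0 < c₂ ∧ ∃ L₀ : ℕ, ∀ L : ℕ, L₀ ≤ L →
    ∀ N : ℕ, L ≤ 16 * N → N ≤ L → ∀ y : ℕ, y ≤ N → |(y : ℝ) - sl μ s * N| ≤ ((L : ℝ) ^ δ * wd' μ s N) →
    ∀ M : ℝ, 8 ≤ M → M ≤ (L : ℝ) ^ κ → ∀ x : ℝ, x ≤ (L : ℝ) ^ κ → ∀ T b c d U : ℕ, (L : ℝ) ^ θ ≤ T → 4 * T ≤ b → 2 * b ≤ N → c ≤ d → d ≤ N →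
    ∀ (τ : ℕ → ℕ → ℕ) (A : ℕ → Finset ℕ → Finset ℕ → Prop),
    (∀ n < 3 * ⌈10 * M⌉₊, U ≤ st U (lT T ⌈10 * M⌉₊) n → st U (lT T ⌈10 * M⌉₊) n + lT T ⌈10 * M⌉₊ + 1 ≤ U + T → 1 ≤ lT T ⌈10 * M⌉₊ →
      lT T ⌈10 * M⌉₊ ≤ b →
      (∀ S S' : Finset ℕ, (∀ i, i ≤ c ∨ d ≤ i → pos S i = pos S' i) → A n S S' → ∃ i ∈ PP (lT T ⌈10 * M⌉₊) b,
        Gpn c d (tP (lT T ⌈10 * M⌉₊) b i) (τ n i) S S')) →
    ∀ F : Env → Finset ℕ → Prop, Ms F →
    (∀ n < 3 * ⌈10 * M⌉₊, U ≤ st U (lT T ⌈10 * M⌉₊) n → st U (lT T ⌈10 * M⌉₊) n + lT T ⌈10 * M⌉₊ + 1 ≤ U + T → 1 ≤ lT T ⌈10 * M⌉₊ →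
      ∀ i ∈ PP (lT T ⌈10 * M⌉₊) b, OffRows (Ico (τ n i) (τ n i + tP (lT T ⌈10 * M⌉₊) b i)) F) →
    P1 μ s N y (fun η S => F η S ∧ ∃ n < 3 * ⌈10 * M⌉₊, Hy μ s N y c d (A n) x η S) ≤
      ENNReal.ofReal ((L : ℝ) ^ ε * (EE' μ s T)⁻¹) * P1 μ s N y F + ENNReal.ofReal (Real.exp (-(L : ℝ) ^ c₂)) := by
  intro ε θ hε hθ
  obtain ⟨δ, κ₁, c₁, hδ, hκ₁, hc₁, L₁, hP⟩ := gpn_price h (ε / 2) (θ / 4) (by positivity) (by positivity)
  obtain ⟨κ, hκd⟩ : ∃ κ, κ = min (κ₁ / 2) (min (ε / 8) (min (θ / 8) (1 / 2))) := ⟨_, rfl⟩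
  have hκ : 0 < κ := by
    rw [hκd]
    refine lt_min (by positivity) (lt_min (by positivity) (lt_min (by positivity) (by norm_num)))
  have k1 : κ < κ₁ := by
    have : κ ≤ κ₁ / 2 := by rw [hκd]; exact min_le_left _ _
    linarith
  have k2 : κ < (ε / 2) / 2 := by
    have : κ ≤ ε / 8 := by rw [hκd]; exact (min_le_right _ _).trans (min_le_left _ _)
    linarith
  have k3 : κ < (θ / 2) / 2 := by
    have : κ ≤ θ / 8 := by rw [hκd]; exact (min_le_right _ _).trans ((min_le_right _ _).trans (min_le_left _ _))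
    linarith
  have k4 : κ < 1 := by
    have : κ ≤ 1 / 2 := by rw [hκd]; exact (min_le_right _ _).trans ((min_le_right _ _).trans (min_le_right _ _))
    linarith
  obtain ⟨L₂, hNum⟩ := tau_num (ε := ε / 2) (θ := θ / 2) hκ k1 k2 k3 k4 (by positivity)
  obtain ⟨κ₃, c₂, -, -, hc₂, L₃, hT⟩ := tiny15 hc₁
  obtain ⟨L₄, hL₄⟩ := ev_mul86 2 (show θ / 2 < θ by linarith)
  refine ⟨δ, κ, c₂, hδ, hκ, hc₂, L₁ + L₂ + L₃ + L₄ + 100, ?_⟩
  intro L hL N hLN hNL y hyN hyc M hM hML x hx T b c d U hTL hTb hbN hcd hdN τ A hcov F hF hoff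
  have hL100 : (100 : ℝ) ≤ L := by exact_mod_cast (show 100 ≤ L by omega)
  have hL0 : (0 : ℝ) < L := by linarith
  have hL1 : (1 : ℝ) ≤ L := by linarith
  have hpk : (L : ℝ) ^ κ ≤ (L : ℝ) ^ κ₁ := Real.rpow_le_rpow_of_exponent_le hL1 k1.le
  have hT2 : (L : ℝ) ^ (θ / 2) ≤ ((T - 1 : ℕ) : ℝ) := by
    have h1 := hL₄ L (by omega)
    have h2 : (1 : ℝ) ≤ (L : ℝ) ^ (θ / 2) := Real.one_le_rpow hL1 (by positivity)
    have h3 : 1 ≤ T := by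
      have : (1 : ℝ) ≤ T := by linarith
      exact_mod_cast this
    rw [Nat.cast_sub h3, Nat.cast_one]
    linarith
  obtain ⟨n1, n2, n3, n4, n5, n6, n7, n8, n9⟩ := hNum L (by omega) M hM hML (T - 1) hT2
  obtain ⟨q, hq⟩ : ∃ q, q = ⌈10 * M⌉₊ := ⟨_, rfl⟩
  rw [← hq] at n1 n2 n3 n4 n5 n6 n8 n9 hcov hoff ⊢
  obtain ⟨l, hl⟩ : ∃ l, l = lT T q := ⟨_, rfl⟩
  have hl' : l = (T - 1) / (3 * q) - 1 := hl
  rw [← hl'] at n3 n4 n8
  rw [← hl] at hcov hoff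
  have n4' : (L : ℝ) ^ (θ / 4) ≤ l := by
    refine le_trans (le_of_eq ?_) n4
    congr 1
    ring
  have hl1 : 1 ≤ l := by
    have h1 : (0 : ℝ) < (L : ℝ) ^ (θ / 4) := Real.rpow_pos_of_pos hL0 _
    have h2 : (0 : ℝ) < l := by linarith
    exact_mod_cast h2
  have hq1 : 1 ≤ q := by
    have : (0 : ℝ) < q := by linarith
    exact_mod_cast this
  have hT2' : 2 ≤ T := by
    have h3 : 1 * (1 + 1) ≤ 3 * q * (l + 1) := Nat.mul_le_mul (by omega) (by omega)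
    omega
  have hlT : l ≤ T := by
    have h1 : 1 * (l + 1) ≤ 3 * q * (l + 1) := Nat.mul_le_mul_right _ (by omega)
    omega
  have hE0 : ∀ t, 0 < EE' μ s t := fun t => lt_of_lt_of_le zero_lt_one (le_max_left _ _)
  have hEl : (EE' μ s l)⁻¹ ≤ (18 * q : ℕ) * (EE' μ s T)⁻¹ := by
    have h1 : T ≤ 18 * q * l := by
      have : 2 * (9 * q * l) = 18 * q * l := by ring
      omega
    have h2 := EE'_le_mul86 h (m := T) (n := l) (k := 18 * q) (by omega) h1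
    rw [← div_eq_mul_inv, le_div_iff₀ (hE0 T), inv_mul_le_iff₀ (hE0 _)]
    linarith
  have hcd' := hcd
  have h1 : P1 μ s N y (fun η S => F η S ∧ ∃ n < 3 * q, Hy μ s N y c d (A n) x η S) ≤
      P1 μ s N y (fun η S => ∃ n ∈ range (3 * q), F η S ∧ Hy μ s N y c d (A n) x η S) :=
    A12.P1_mono fun η S hev => by
      obtain ⟨n, hn, h2⟩ := hev.2
      exact ⟨n, mem_range.2 hn, hev.1, h2⟩
  refine h1.trans ((A12.P1_exists (μ := μ) (s := s) (N := N) (y := y) (range (3 * q)) _).trans ?_)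
  have h2 : ∀ n ∈ range (3 * q), P1 μ s N y (fun η S => F η S ∧ Hy μ s N y c d (A n) x η S) ≤
      ENNReal.ofReal ((L : ℝ) ^ (ε / 2) * (EE' μ s l)⁻¹) * P1 μ s N y F + ENNReal.ofReal (Real.exp (-(L : ℝ) ^ c₁)) := by
    intro n hn
    have hn' := mem_range.1 hn
    obtain ⟨g1, g2⟩ := st_bd (U := U) (l := l) hn'
    have g3 : st U l n + l + 1 ≤ U + T := by omega
    exact hP L (by omega) N hLN hNL y hyN hyc l b c d n4' (by omega) hbN hcd hdN (τ n) (A n) (hcov n hn' g1 g3 hl1 (by omega)) x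
      (hx.trans hpk) F hF (hoff n hn' g1 g3 hl1)
  refine (sum_le_sum h2).trans ?_
  rw [sum_const, card_range, nsmul_eq_mul, mul_add, ← mul_assoc, ← ENNReal.ofReal_natCast, ← ENNReal.ofReal_mul (Nat.cast_nonneg _)]
  refine add_le_add (mul_le_mul' (ENNReal.ofReal_le_ofReal ?_) le_rfl) ?_
  · have h3 : (L : ℝ) ^ ε = (L : ℝ) ^ (ε / 2) * ((L : ℝ) ^ (ε / 2 / 2) * (L : ℝ) ^ (ε / 2 / 2)) := by
      rw [← Real.rpow_add hL0, ← Real.rpow_add hL0]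
      congr 1
      ring
    have h4 : ((3 * q : ℕ) : ℝ) * ((18 * q : ℕ) : ℝ) ≤ (L : ℝ) ^ (ε / 2 / 2) * (L : ℝ) ^ (ε / 2 / 2) := by
      refine le_trans ?_ (mul_le_mul n9 n9 (Nat.cast_nonneg _) (by positivity))
      have g0 : (0 : ℝ) ≤ (q : ℝ) * q := mul_nonneg (Nat.cast_nonneg _) (Nat.cast_nonneg _)
      push_cast
      calc 3 * (q : ℝ) * (18 * q) = 54 * ((q : ℝ) * q) := by ring
        _ ≤ 81 * ((q : ℝ) * q) := by linarith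
        _ = 9 * (q : ℝ) * (9 * q) := by ring
    have h5 := (inv_pos.2 (hE0 T)).le
    have h6 : 0 ≤ (L : ℝ) ^ (ε / 2) := by positivity
    calc ((3 * q : ℕ) : ℝ) * ((L : ℝ) ^ (ε / 2) * (EE' μ s l)⁻¹)
        ≤ ((3 * q : ℕ) : ℝ) * ((L : ℝ) ^ (ε / 2) * (((18 * q : ℕ) : ℝ) * (EE' μ s T)⁻¹)) := by gcongr
      _ = (L : ℝ) ^ (ε / 2) * (((3 * q : ℕ) : ℝ) * ((18 * q : ℕ) : ℝ)) * (EE' μ s T)⁻¹ := by ring
      _ ≤ (L : ℝ) ^ (ε / 2) * ((L : ℝ) ^ (ε / 2 / 2) * (L : ℝ) ^ (ε / 2 / 2)) * (EE' μ s T)⁻¹ := by gcongr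
      _ = _ := by rw [h3]
  · have h7 := (hT L (by omega)).2 N hNL 0 (by positivity)
    refine le_trans ?_ h7
    refine mul_le_mul' ?_ le_self_add
    refine ENNReal.ofReal_le_ofReal ?_
    have h8 : ((3 * q : ℕ) : ℝ) ≤ L := by exact_mod_cast n6
    calc ((3 * q : ℕ) : ℝ) ≤ L := h8
      _ ≤ (L : ℝ) ^ 3 := le_self_pow₀ hL1 (by norm_num)

end Pool.Agent.W_7d29a1_C0.Own80
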