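import Pool.Agent.W_7d29a1_C0.Own1C

/-!
MP_7d29a1_pr, [CURV0] / [C0], leaf E0C: `Own1`, `Own1C` WITH AN ERROR IN THE LIPSCHITZ HYPOTHESIS. (helper27, over the files of helper1)

`DifR`: `|g u - g v| ≤ Lg cE2 w q0 NN u v + (r u + r v)`, `r ≥ 0` (the half response of the window: `r = e ^ (- N ^ c) + B 1[the window leaves
the cone]`). `T4_le_pairs`, `T4A_small`, `T4_small`, `fibR`, `fibL`: the bounds of `Own1`, `Own1C` with the additional term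
`(6 / δ) cE w p r S0`. `gm_gen`, `gm_okE`, `gm_fibR`, `gm_fibL`: inside the Gibbs mean, with the additional term `C (6 / δ) gm w (H r)`;
`gm_okE` has the event that one of the two margins is not `okE` (no typical paths, no localisation).
-/

set_option autoImplicit false
set_option linter.unusedSectionVars false

namespace Pool.W7d29a1.C0.O1r

open Finset MeasureTheory Pool.Agent.W_7d29a1_C0.Swap57 Pool.Agent.W_7d29a1_C0 Pool.Agent.W_7d29a1_C0.Mod92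
open Pool.Agent.W_7d29a1_F Pool.Agent.W_7d29a1_X
open Pool.W7d29a1.C0 Pool.W7d29a1.C0.VT31 Pool.W7d29a1.C0.R43 Pool.W7d29a1.C0.S1 Pool.W7d29a1.C0.K1
open Pool.W7d29a1.C0.O1 hiding T4_le_pairs T4A_small T4_small fibR fibL gm_gen

noncomputable section

variable {μ : Measure ℝ} {s : ℝ} {N : ℕ} {Q : Finset (Finset ℕ)} {Y : Type*} [DecidableEq Y] [Nonempty (Px Q)]

/-- **The Lipschitz hypothesis with an error.** -/
def DifR {Z : Type*} [DecidableEq Z] (w : Px Q → ℝ) (q0 : Px Q → Z) (NN : Px Q → Px Q → ℝ) (Lg : ℝ) (r g : Px Q → ℝ) : Prop :=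
  ∀ u v, |g u - g v| ≤ Lg * cE2 w q0 NN u v + (r u + r v)

theorem DifR.of_dif {Z : Type*} [DecidableEq Z] {w : Px Q → ℝ} {q0 : Px Q → Z} {NN : Px Q → Px Q → ℝ} {Lg : ℝ} {r g : Px Q → ℝ}
    (h : Dif w q0 NN Lg g) (hr : ∀ x, 0 ≤ r x) : DifR w q0 NN Lg r g := fun u v =>
  (h u v).trans (le_add_of_nonneg_right (add_nonneg (hr u) (hr v)))

theorem DifR.smul {Z : Type*} [DecidableEq Z] {w : Px Q → ℝ} {q0 : Px Q → Z} {NN : Px Q → Px Q → ℝ} {Lg : ℝ} {r g : Px Q → ℝ}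
    (h : DifR w q0 NN Lg r g) (c : ℝ) : DifR w q0 NN (|c| * Lg) (|c| • r) (c • g) := fun u v => by
  simp only [Pi.smul_apply, smul_eq_mul]
  rw [← mul_sub, abs_mul]
  refine (mul_le_mul_of_nonneg_left (h u v) (abs_nonneg c)).trans (le_of_eq ?_)
  ring

section T4s

variable {w g r : Px Q → ℝ} {p : Px Q → Y} {δ : ℝ} {A : Px Q → ℝ}

/-- Only pairs of the same class are needed. -/
theorem T4_le_pairs (hA1 : ∀ y, A y ≤ 1) {Z : Type*} [DecidableEq Z] {q0 : Px Q → Z} {NN : Px Q → Px Q → ℝ} {Lg : ℝ} (hδ : 0 < δ)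
    (hr : ∀ x, 0 ≤ r x)
    (hL : DifR w q0 NN Lg r g) (hc : Crs p q0) {g0 g1 : ℕ}
    (hout : ∀ u v : Px Q, q0 u = q0 v → ∀ k, g0 ≤ k → k ≤ g1 → ps u k = ps v k) (x : Px Q) :
    T4 w p g δ A x ≤ 3 * Lg / δ * cE2 w p (fun h h' => sc g0 g1 x h h' * NN h h') x x + 6 / δ * cE w p r x := by
  set K : Px Q → Px Q → ℝ := fun u v => sc g0 g1 x u v * |g u - g v| with hK
  have sc0 : ∀ u v, 0 ≤ sc g0 g1 x u v := fun u v => sc_nonneg g0 g1 x u v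
  have hK0 : ∀ u v, 0 ≤ K u v := fun u v => mul_nonneg (sc0 u v) (abs_nonneg _)
  have h1 : ∀ y z z' : Px Q, upI g δ y z * dnI g δ y z' ≤ δ⁻¹ * (K y z + (K y z' + K z z')) := by
    intro y z z'
    have k1 := hK0 y z
    have k2 := hK0 y z'
    have k3 := hK0 z z'
    have kk : 0 ≤ δ⁻¹ * (K y z + (K y z' + K z z')) := mul_nonneg (inv_nonneg.2 hδ.le) (by linarith)
    unfold upI dnI
    split_ifs with a1 a2
    · rw [mul_one, ← div_eq_inv_mul, one_le_div hδ]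
      have b1 : δ ≤ |g y - g z| := by
        rw [abs_sub_comm]
        exact le_trans (by linarith) (le_abs_self _)
      have b2 : δ ≤ |g y - g z'| := le_trans (by linarith) (le_abs_self _)
      have b3 : δ ≤ |g z - g z'| := le_trans (by linarith) (le_abs_self _)
      have c1 := mul_le_mul_of_nonneg_left b1 (sc0 y z)
      have c2 := mul_le_mul_of_nonneg_left b2 (sc0 y z')
      have c3 := mul_le_mul_of_nonneg_left b3 (sc0 z z')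
      have c4 := mul_le_mul_of_nonneg_right (sc_three g0 g1 x y z z') hδ.le
      show δ ≤ sc g0 g1 x y z * |g y - g z| + (sc g0 g1 x y z' * |g y - g z'| + sc g0 g1 x z z' * |g z - g z'|)
      linarith
    · rw [mul_zero]
      exact kk
    · rw [zero_mul]
      exact kk
    · rw [zero_mul]
      exact kk
  have h2 : ∀ y, cE w p (upI g δ y) x * cE w p (dnI g δ y) x ≤
      δ⁻¹ * (cE w p (K y) x + (cE w p (K y) x + cE2 w p K x x)) := by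
    intro y
    rw [cE_prod2]
    have a1 : ∀ z, cE w p (fun z' => upI g δ y z * dnI g δ y z') x ≤ δ⁻¹ * (K y z + (cE w p (K y) x + cE w p (K z) x)) := by
      intro z
      refine (cE_mono w p (h1 y z) x).trans (le_of_eq ?_)
      rw [cE_mulf, cE_addf, cE_constf, cE_addf]
    refine (cE_mono w p a1 x).trans (le_of_eq ?_)
    rw [cE_mulf, cE_addf, cE_addf, cE_constf]
    rfl
  have h3 : T4 w p g δ A x ≤ δ⁻¹ * (3 * cE2 w p K x x) := by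
    have a1 : T4 w p g δ A x ≤ cE w p (fun y => δ⁻¹ * (cE w p (K y) x + (cE w p (K y) x + cE2 w p K x x))) x :=
      cE_mono w p (fun y => (mul_le_of_le_one_left (ud_mem x y).1 (hA1 y)).trans (h2 y)) x
    refine a1.trans (le_of_eq ?_)
    rw [cE_mulf, cE_addf, cE_addf, cE_constf]
    show δ⁻¹ * (cE2 w p K x x + (cE2 w p K x x + cE2 w p K x x)) = _
    ring
  have h4 : cE2 w p K x x ≤ Lg * cE2 w p (fun h h' => sc g0 g1 x h h' * NN h h') x x + (cE w p r x + cE w p r x) := by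
    have a1 : ∀ u v, K u v ≤ Lg * cE2 w q0 (fun h h' => sc g0 g1 x h h' * NN h h') u v + (r u + r v) := by
      intro u v
      have b1 : cE2 w q0 (fun h h' => sc g0 g1 x h h' * NN h h') u v = sc g0 g1 x u v * cE2 w q0 NN u v := by
        refine cE2_pull w q0 (fun z z' hz hz' => ?_) NN
        have c1 : NI g0 g1 x z = NI g0 g1 x u := by
          unfold NI
          refine if_congr (forall_congr' fun k => forall_congr' fun h1 => forall_congr' fun h2 => ?_) rfl rfl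
          rw [hout z u hz k h1 h2]
        have c2 : NI g0 g1 x z' = NI g0 g1 x v := by
          unfold NI
          refine if_congr (forall_congr' fun k => forall_congr' fun h1 => forall_congr' fun h2 => ?_) rfl rfl
          rw [hout z' v hz' k h1 h2]
        unfold sc
        rw [c1, c2]
      rw [b1]
      have b2 := mul_le_mul_of_nonneg_left (hL u v) (sc0 u v)
      show sc g0 g1 x u v * |g u - g v| ≤ _
      have b3 := mul_le_mul_of_nonneg_right (sc_le_one g0 g1 x u v) (add_nonneg (hr u) (hr v))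
      rw [mul_add] at b2
      linarith
    have a2 := cE2_mono w p a1 x x
    have a3 := cE2_add w p (fun u v => Lg * cE2 w q0 (fun h h' => sc g0 g1 x h h' * NN h h') u v) (fun u v => r u + r v) x x
    have a4 := cE2_add w p (fun u _ => r u) (fun _ v => r v) x x
    have a5 := cE2_left w p r x x
    have a6 := cE2_right w p r x x
    rw [cE2_mul, cE2_tower w hc] at a3
    rw [a5, a6] at a4
    rw [a4] at a3
    exact a2.trans_eq a3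
  calc T4 w p g δ A x ≤ δ⁻¹ * (3 * cE2 w p K x x) := h3
    _ ≤ δ⁻¹ * (3 * (Lg * cE2 w p (fun h h' => sc g0 g1 x h h' * NN h h') x x + (cE w p r x + cE w p r x))) :=
        mul_le_mul_of_nonneg_left (mul_le_mul_of_nonneg_left h4 (by norm_num)) (inv_nonneg.2 hδ.le)
    _ = _ := by
        rw [div_eq_mul_inv, div_eq_mul_inv]
        ring

end T4s

/-! ### The fibre -/

section Fin

variable {q : ℕ} {d e1 d3 : ℝ} {g0 g1 : ℕ}

open Classical in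
/-- **THREE LEVELS TOGETHER WITH AN OWN FACTOR ARE TOLD FROM ONE PATH.** `Bo x`: the path `x` has no own tie; then the own factor is small in
the mean (`hBA`). No order of the regions is assumed. -/
theorem T4A_small [MxQ Q] (η : Env) {p : Px Q → Y} (hp : SwP p) {Z : Type*} [DecidableEq Z] {q0 : Px Q → Z} (hc : Crs p q0)
    {g : Px Q → ℝ} {δ Lg : ℝ} (hδ : 0 < δ) (hLg : 0 ≤ Lg) {c al be e : ℕ} {r : Px Q → ℝ}
    (hr : ∀ x, 0 ≤ r x) (hL : DifR (lw μ s η N Q) q0 (NM c al be e) Lg r g)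
    (hout : ∀ u v : Px Q, q0 u = q0 v → ∀ k, g0 ≤ k → k ≤ g1 → ps u k = ps v k)
    {A : Px Q → ℝ} (hA0 : ∀ y, 0 ≤ A y) (hA1' : ∀ y, A y ≤ 1) {Bo : Px Q → Prop} {eo : ℝ} (S0 : Px Q)
    (hBA : cE (lw μ s η N Q) p (fun x => if Bo x then 1 else 0) S0 * cE (lw μ s η N Q) p A S0 ≤ eo)
    {a1 m1 a2 m2 : ℕ} (hA1 : c ≤ a1) (hA1e : en a1 m1 q ≤ al) (hA2 : c ≤ a2) (hA2e : en a2 m2 q ≤ al)
    {b1 n1 b2 n2 : ℕ} (hB1 : be ≤ b1) (hB1e : en b1 n1 q ≤ e) (hB2 : be ≤ b2) (hB2e : en b2 n2 q ≤ e)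
    (hd : 0 ≤ d) (he : 0 ≤ e1) (hd3 : 0 ≤ d3) :
    cE (lw μ s η N Q) p (fun x => if okE (lw μ s η N Q) p Bo q d e1 d3 g0 g1 a1 m1 a2 m2 x ∧
      okE (lw μ s η N Q) p Bo q d e1 d3 g0 g1 b1 n1 b2 n2 x then 1 else 0) S0 * T4 (lw μ s η N Q) p g δ A S0 ≤
      eo + 2 * (3 * Lg / δ) * (((1 / 2) ^ q + 3 * q * d) + ((1 / 2) ^ q + (d3 + 2 * ((3 * q + 1) * e1)))) +
        6 / δ * cE (lw μ s η N Q) p r S0 := by
  set w := lw μ s η N Q with hw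
  have hC : 0 ≤ 3 * Lg / δ := by positivity
  set MA' : Px Q → ℝ := mg w p q d e1 d3 g0 g1 a1 m1 a2 m2 S0 with hMA
  set MB' : Px Q → ℝ := mg w p q d e1 d3 g0 g1 b1 n1 b2 n2 S0 with hMB
  have hA' := cE_nonneg w p hA0 S0
  have key : ∀ x, p x = p S0 → T4 w p g δ A S0 * (if okE w p Bo q d e1 d3 g0 g1 a1 m1 a2 m2 x ∧
      okE w p Bo q d e1 d3 g0 g1 b1 n1 b2 n2 x then 1 else 0) ≤
      (cE w p A S0 * (if Bo x then 1 else 0) + (3 * Lg / δ) * (MA' x + MB' x)) + 6 / δ * cE w p r S0 := by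
    intro x hx
    have m1' := mg_nonneg (q := q) (d := d) (e1 := e1) (d3 := d3) (g0 := g0) (g1 := g1) w p a1 m1 a2 m2 S0 x
    have m2' := mg_nonneg (q := q) (d := d) (e1 := e1) (d3 := d3) (g0 := g0) (g1 := g1) w p b1 n1 b2 n2 S0 x
    have m3 : 0 ≤ (3 * Lg / δ) * (MA' x + MB' x) := mul_nonneg hC (add_nonneg m1' m2')
    have m4 : 0 ≤ 6 / δ * cE w p r S0 := mul_nonneg (by positivity) (cE_nonneg w p hr S0)
    by_cases hb : Bo x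
    · rw [if_pos hb, mul_one]
      have k1 : T4 w p g δ A S0 ≤ cE w p A S0 := T4_le_own hA0 S0
      have k2 := T4_nonneg (w := w) (p := p) (g := g) (δ := δ) hA0 S0
      split_ifs
      · linarith
      · linarith
    · rw [if_neg hb, mul_zero, zero_add]
      split_ifs with hok
      · rw [mul_one, ← T4_fib hx]
        have m5 : 6 / δ * cE w p r x = 6 / δ * cE w p r S0 := by rw [cE_eq_of w p r hx]
        rw [← m5]
        refine (T4_le_pairs hA1' hδ hr hL hc hout x).trans (add_le_add_left (mul_le_mul_of_nonneg_left ?_ hC) _)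
        have k1 := cE2_mono w p (K := fun h h' => sc g0 g1 x h h' * NM c al be e h h')
          (K' := fun h h' => sc g0 g1 x h h' * NI c al h h' + sc g0 g1 x h h' * NI be e h h') (fun h h' => by
            rw [← mul_add]
            exact mul_le_mul_of_nonneg_left (NM_le c al be e h h') (sc_nonneg _ _ _ _ _)) x x
        rw [cE2_add] at k1
        exact k1.trans (add_le_add (mg_ge w p hA1 hA1e hA2 hA2e hx (hok.1 hb)) (mg_ge w p hB1 hB1e hB2 hB2e hx (hok.2 hb)))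
      · rw [mul_zero]
        linarith
  have h1 := cE_fib_mono w p key
  rw [cE_mulf, cE_addf, cE_constf, cE_addf, cE_mulf, cE_mulf, cE_addf] at h1
  have h3 := cE_mg (q := q) (d := d) (e1 := e1) (d3 := d3) (g0 := g0) (g1 := g1) η hp S0 hd he hd3 a1 m1 a2 m2
    (μ := μ) (s := s) (N := N)
  have h4 := cE_mg (q := q) (d := d) (e1 := e1) (d3 := d3) (g0 := g0) (g1 := g1) η hp S0 hd he hd3 b1 n1 b2 n2
    (μ := μ) (s := s) (N := N)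
  have h5 := mul_le_mul_of_nonneg_left (add_le_add h3 h4) hC
  rw [mul_comm]
  rw [mul_comm] at hBA
  refine h1.trans ((add_le_add_left (add_le_add hBA h5) _).trans (le_of_eq ?_))
  ring

open Classical in
/-- **THE SAME WITH AN OWN PAIR OF THE FIBRE**: `A y` = mass of the paths of the fibre apart from `y` on `[o0, o1]`. -/
theorem T4_small [MxQ Q] (η : Env) {p : Px Q → Y} (hp : SwP p) {Z : Type*} [DecidableEq Z] {q0 : Px Q → Z} (hc : Crs p q0)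
    {g : Px Q → ℝ} {δ Lg : ℝ} (hδ : 0 < δ) (hLg : 0 ≤ Lg) {c al be e : ℕ} {r : Px Q → ℝ}
    (hr : ∀ x, 0 ≤ r x) (hL : DifR (lw μ s η N Q) q0 (NM c al be e) Lg r g)
    (hout : ∀ u v : Px Q, q0 u = q0 v → ∀ k, g0 ≤ k → k ≤ g1 → ps u k = ps v k)
    {o0 o1 τo lo : ℕ} (ho : o0 ≤ τo) (ho' : en τo lo q ≤ o1)
    {a1 m1 a2 m2 : ℕ} (hA1 : c ≤ a1) (hA1e : en a1 m1 q ≤ al) (hA2 : c ≤ a2) (hA2e : en a2 m2 q ≤ al)
    {b1 n1 b2 n2 : ℕ} (hB1 : be ≤ b1) (hB1e : en b1 n1 q ≤ e) (hB2 : be ≤ b2) (hB2e : en b2 n2 q ≤ e)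
    (hd : 0 ≤ d) (he : 0 ≤ e1) (hd3 : 0 ≤ d3) (S0 : Px Q) :
    cE (lw μ s η N Q) p (fun x => if okE (lw μ s η N Q) p (fun x => bI (lw μ s η N Q) p τo lo q d x = 1) q d e1 d3 g0 g1
      a1 m1 a2 m2 x ∧ okE (lw μ s η N Q) p (fun x => bI (lw μ s η N Q) p τo lo q d x = 1) q d e1 d3 g0 g1 b1 n1 b2 n2 x
      then 1 else 0) S0 * T4 (lw μ s η N Q) p g δ (mI (lw μ s η N Q) p o0 o1) S0 ≤
      ((1 / 2) ^ q + 3 * q * d) + 2 * (3 * Lg / δ) * (((1 / 2) ^ q + 3 * q * d) +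
        ((1 / 2) ^ q + (d3 + 2 * ((3 * q + 1) * e1)))) + 6 / δ * cE (lw μ s η N Q) p r S0 := by
  refine T4A_small η hp hc hδ hLg hr hL hout (mI_nonneg _ _ _ _) (fun y => ?_) S0 ?_ hA1 hA1e hA2 hA2e hB1 hB1e hB2 hB2e hd he hd3
  · exact (cE_mem _ p (fun _ => NI_nonneg _ _ _ _) (fun _ => NI_le_one _ _ _ _) y).2
  · have h2 := robP (μ := μ) (s := s) (N := N) η hp S0 τo lo q hd (L := en τo lo q) le_rfl
    refine le_trans (mul_le_mul (le_of_eq (cE_congr _ p (fun x => ?_) S0)) ?_ (cE_nonneg _ _ (mI_nonneg _ _ _ _) _)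
      (cE_nonneg _ _ (fun x => ?_) _)) h2
    · rcases bI01 (lw μ s η N Q) p τo lo q d x with h | h
      · rw [h, if_neg (by norm_num)]
      · rw [h, if_pos rfl]
    · rw [← cE2_mI]
      exact cE2_mono _ p (fun h h' => NI_sub ho ho' h h') S0 S0
    · rcases bI01 (lw μ s η N Q) p τo lo q d x with h | h
      · rw [h]
      · rw [h]
        norm_num

end Fin

/-! ### Inside the Gibbs mean -/

/-- **INSIDE THE GIBBS MEAN, with the error.** -/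
theorem gm_gen (w : Px Q → ℝ) {p : Px Q → Y} {E : Px Q → Prop} {H R r : Px Q → ℝ} {C K K' : ℝ} (hH : Mp p H) (hH0 : ∀ x, 0 ≤ H x)
    (hC : 0 ≤ C) (hK : ∀ S0, cE w p (ind fun x => ¬ E x) S0 * R S0 ≤ K + K' * cE w p r S0) :
    gm w (fun x => H x * min 1 (C * R x)) ≤ gm w (fun x => H x * ind E x) + C * K * gm w H +
      C * K' * gm w (fun x => H x * r x) := by
  have a1 : ∀ x, H x * min 1 (C * R x) ≤ (H * cE w p (ind E) + (C * K) • H + (C * K') • (H * cE w p r)) x := by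
    intro x
    have e := cE_ind_compl w p E x
    have c0 := cE_nonneg w p (ind_nonneg E) x
    have c1 := cE_nonneg w p (ind_nonneg fun y => ¬ E y) x
    have m1 : min 1 (C * R x) ≤ 1 := min_le_left _ _
    have m2 : min 1 (C * R x) ≤ C * R x := min_le_right _ _
    have k1 : min 1 (C * R x) ≤ cE w p (ind E) x + C * (K + K' * cE w p r x) := by
      calc min 1 (C * R x) = cE w p (ind E) x * min 1 (C * R x) + cE w p (ind fun y => ¬ E y) x * min 1 (C * R x) := by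
            rw [← add_mul, e, one_mul]
        _ ≤ cE w p (ind E) x * 1 + cE w p (ind fun y => ¬ E y) x * (C * R x) :=
            add_le_add (mul_le_mul_of_nonneg_left m1 c0) (mul_le_mul_of_nonneg_left m2 c1)
        _ = cE w p (ind E) x + C * (cE w p (ind fun y => ¬ E y) x * R x) := by ring
        _ ≤ cE w p (ind E) x + C * (K + K' * cE w p r x) := add_le_add_right (mul_le_mul_of_nonneg_left (hK x) hC) _
    simp only [Pi.mul_apply, Pi.add_apply, Pi.smul_apply, smul_eq_mul]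
    have k2 := mul_le_mul_of_nonneg_left k1 (hH0 x)
    refine k2.trans (le_of_eq ?_)
    ring
  have a2 := gm_mono w a1
  rw [gm_add, gm_add, gm_smul, gm_smul, gm_mul_cE w hH (ind E), gm_mul_cE w hH r] at a2
  exact a2

section Prc

variable {q : ℕ} {d d1 d3 dl : ℝ} {g0 g1 : ℕ}

/-- **INSIDE THE GIBBS MEAN, the event that one of the two margins is not told.** -/
theorem gm_okE [MxQ Q] (η : Env) {p : Px Q → Y} (hp : SwP p) {Z : Type*} [DecidableEq Z] {q0 : Px Q → Z} (hc : Crs p q0)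
    {g r : Px Q → ℝ} (hr : ∀ x, 0 ≤ r x) {δ Lg : ℝ} (hδ : 0 < δ) (hLg : 0 ≤ Lg) {c al be e : ℕ}
    (hL : DifR (lw μ s η N Q) q0 (NM c al be e) Lg r g)
    (hout : ∀ u v : Px Q, q0 u = q0 v → ∀ k, g0 ≤ k → k ≤ g1 → ps u k = ps v k)
    {A : Px Q → ℝ} (hA0 : ∀ y, 0 ≤ A y) (hA1' : ∀ y, A y ≤ 1) {Bo : Px Q → Prop} {eo : ℝ}
    (hBA : ∀ S0, cE (lw μ s η N Q) p (ind Bo) S0 * cE (lw μ s η N Q) p A S0 ≤ eo)
    {a1 m1 a2 m2 : ℕ} (hA1 : c ≤ a1) (hA1e : en a1 m1 q ≤ al) (hA2 : c ≤ a2) (hA2e : en a2 m2 q ≤ al)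
    {b1 n1 b2 n2 : ℕ} (hB1 : be ≤ b1) (hB1e : en b1 n1 q ≤ e) (hB2 : be ≤ b2) (hB2e : en b2 n2 q ≤ e)
    {e1 : ℝ} (hd : 0 ≤ d) (he : 0 ≤ e1) (hd3 : 0 ≤ d3) {H : Px Q → ℝ} (hH : Mp p H) (hH0 : ∀ x, 0 ≤ H x) {C : ℝ} (hC : 0 ≤ C) :
    gm (lw μ s η N Q) (fun x => H x * min 1 (C * T4 (lw μ s η N Q) p g δ A x)) ≤
      gm (lw μ s η N Q) (fun x => H x * ind (fun x => ¬ okE (lw μ s η N Q) p Bo q d e1 d3 g0 g1 a1 m1 a2 m2 x ∨
        ¬ okE (lw μ s η N Q) p Bo q d e1 d3 g0 g1 b1 n1 b2 n2 x) x) + C * Kap eo Lg δ q d e1 d3 * gm (lw μ s η N Q) H +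
        C * (6 / δ) * gm (lw μ s η N Q) (fun x => H x * r x) := by
  classical
  refine gm_gen (lw μ s η N Q) hH hH0 hC fun S0 => ?_
  have hsm := T4A_small (μ := μ) (s := s) (N := N) (q := q) (d := d) (e1 := e1) (d3 := d3) (g0 := g0) (g1 := g1) η
    hp hc hδ hLg hr hL hout hA0 hA1' (Bo := Bo) (eo := eo) S0 (by
      refine le_trans (le_of_eq ?_) (hBA S0)
      congr 1) hA1 hA1e hA2 hA2e hB1 hB1e hB2 hB2e hd he hd3
  refine le_trans (le_of_eq ?_) hsm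
  congr 1
  refine cE_congr _ _ (fun x => ?_) S0
  unfold ind
  by_cases h1 : okE (lw μ s η N Q) p Bo q d e1 d3 g0 g1 a1 m1 a2 m2 x
  · by_cases h2 : okE (lw μ s η N Q) p Bo q d e1 d3 g0 g1 b1 n1 b2 n2 x
    · simp [h1, h2]
    · simp [h2]
  · simp [h1]

/-- **THE PRICE OF THREE LEVELS WITH AN OWN FACTOR, own region behind**: `Z1 < Z2 < [g0, g1] < own` for both margins. -/
theorem fibR [MxQ Q] [SwQ Q] (η : Env) {c3 e3 : ℕ} (hce : c3 ≤ e3) {Z : Type*} [DecidableEq Z] {q0 : Px Q → Z}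
    (hc : Crs (pJ c3 e3) q0)
    {g : Px Q → ℝ} {δ Lg : ℝ} (hδ : 0 < δ) (hLg : 0 ≤ Lg) {c al be e : ℕ} {rr : Px Q → ℝ}
    (hr : ∀ x, 0 ≤ rr x) (hL : DifR (lw μ s η N Q) q0 (NM c al be e) Lg rr g)
    (hout : ∀ u v : Px Q, q0 u = q0 v → ∀ k, g0 ≤ k → k ≤ g1 → ps u k = ps v k)
    {A : Px Q → ℝ} (hA0 : ∀ y, 0 ≤ A y) (hA1' : ∀ y, A y ≤ 1) {Bo : Px Q → Prop} {eo : ℝ} (S0 : Px Q)
    (hBA : cE (lw μ s η N Q) (pJ c3 e3) (ind Bo) S0 * cE (lw μ s η N Q) (pJ c3 e3) A S0 ≤ eo)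
    {a1 m1 a2 m2 : ℕ} (hA1 : c ≤ a1) (hA1e : en a1 m1 q ≤ al) (hA2 : c ≤ a2) (hA2e : en a2 m2 q ≤ al)
    {b1 n1 b2 n2 : ℕ} (hB1 : be ≤ b1) (hB1e : en b1 n1 q ≤ e) (hB2 : be ≤ b2) (hB2e : en b2 n2 q ≤ e)
    (hd : 0 ≤ d) (hd1 : 0 ≤ d1) (hd3 : 0 ≤ d3) (hdl : 0 < dl) {r1 r D : ℕ}
    (h1 : c3 ≤ r1) (h2 : r1 ≤ a2) (h2' : r1 ≤ b2) (h3 : en a2 m2 q < g0) (h3' : en b2 n2 q < g0) (h4 : g0 ≤ g1) (h5 : g1 ≤ r)
    (h6 : r ≤ e3) (hD : g1 ≤ D) :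
    cE (lw μ s η N Q) (pJ c3 e3) (ind fun x => ¬ (Ev (lw μ s η N Q) (pJ c3 e3) (pJ c3 r) (pJ r1 e3) Bo q d d1 d3 g0 g1 a1 m1 a2 m2 x ∨
      Ev (lw μ s η N Q) (pJ c3 e3) (pJ c3 r) (pJ r1 e3) Bo q d d1 d3 g0 g1 b1 n1 b2 n2 x)) S0 *
      T4 (lw μ s η N Q) (pJ c3 e3) g δ A S0 ≤ Kap eo Lg δ q d (dl⁻¹ * d1) d3 + 3 * ((D + 1) ^ 2 * dl) +
        6 / δ * cE (lw μ s η N Q) (pJ c3 e3) rr S0 := by
  classical
  set w := lw μ s η N Q with hw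
  have he : 0 ≤ dl⁻¹ * d1 := mul_nonneg (inv_pos.2 hdl).le hd1
  have hsm := T4A_small (μ := μ) (s := s) (N := N) (q := q) (d := d) (e1 := dl⁻¹ * d1) (d3 := d3) (g0 := g0) (g1 := g1) η
    (swP_pJ hce) hc hδ hLg hr hL hout hA0 hA1' (Bo := Bo) (eo := eo) S0 (by
      refine le_trans (le_of_eq ?_) hBA
      congr 1) hA1 hA1e hA2 hA2e hB1 hB1e hB2 hB2e hd he hd3
  have hsm' : cE w (pJ c3 e3) (ind fun x => okE w (pJ c3 e3) Bo q d (dl⁻¹ * d1) d3 g0 g1 a1 m1 a2 m2 x ∧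
      okE w (pJ c3 e3) Bo q d (dl⁻¹ * d1) d3 g0 g1 b1 n1 b2 n2 x) S0 * T4 w (pJ c3 e3) g δ A S0 ≤
      Kap eo Lg δ q d (dl⁻¹ * d1) d3 + 6 / δ * cE w (pJ c3 e3) rr S0 := by
    refine le_trans (le_of_eq ?_) hsm
    congr 1
    exact cE_congr _ _ (fun x => ind_eq _ x) S0
  have hcr : Crs (pJ (Q := Q) c3 e3) (pJ c3 r) := crs_pJ le_rfl h6
  have hcr' : Crs (pJ (Q := Q) c3 e3) (pJ r1 e3) := crs_pJ h1 le_rfl
  have hg := fib_gen w (pJ c3 e3) (Finset.univ : Finset (Fin 3)) (T4' := T4 w (pJ c3 e3) g δ A S0) (K2 := (D + 1) ^ 2 * dl)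
    (E := fun x => Ev w (pJ c3 e3) (pJ c3 r) (pJ r1 e3) Bo q d d1 d3 g0 g1 a1 m1 a2 m2 x ∨
      Ev w (pJ c3 e3) (pJ c3 r) (pJ r1 e3) Bo q d d1 d3 g0 g1 b1 n1 b2 n2 x)
    (ok := fun x => okE w (pJ c3 e3) Bo q d (dl⁻¹ * d1) d3 g0 g1 a1 m1 a2 m2 x ∧
      okE w (pJ c3 e3) Bo q d (dl⁻¹ * d1) d3 g0 g1 b1 n1 b2 n2 x)
    (T := ![Ty w (pJ c3 r) dl g0 g1, Ty w (pJ r1 e3) dl a2 (en a2 m2 q), Ty w (pJ r1 e3) dl b2 (en b2 n2 q)])
    (fun x hE hT => by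
      rw [not_or] at hE
      have t0 := hT 0 (mem_univ _)
      have t1 := hT 1 (mem_univ _)
      have t2 := hT 2 (mem_univ _)
      simp only [Matrix.cons_val_zero, Matrix.cons_val_one, Matrix.cons_val] at t0 t1 t2
      exact ⟨okR η hdl h1 h2 h3 h5 h6 h4 t0 t1 hE.1, okR η hdl h1 h2' h3' h5 h6 h4 t0 t2 hE.2⟩)
    (T4_nonneg hA0 S0) ((T4_le_own hA0 S0).trans (cE_mem _ _ hA0 hA1' S0).2) S0 (K1 := Kap eo Lg δ q d (dl⁻¹ * d1) d3 +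
      6 / δ * cE w (pJ c3 e3) rr S0) hsm'
    (fun i _ => by
      fin_cases i
      · exact ty_ind w hcr hdl.le hD S0
      · exact ty_ind w hcr' hdl.le (by omega) S0
      · exact ty_ind w hcr' hdl.le (by omega) S0)
  rw [card_univ, Fintype.card_fin] at hg
  push_cast at hg
  linarith

/-- **The same, own region in front**: `own < [g0, g1] < Z2 < Z1` for both margins. -/
theorem fibL [MxQ Q] [SwQ Q] (η : Env) {c3 e3 : ℕ} (hce : c3 ≤ e3) {Z : Type*} [DecidableEq Z] {q0 : Px Q → Z}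
    (hc : Crs (pJ c3 e3) q0)
    {g : Px Q → ℝ} {δ Lg : ℝ} (hδ : 0 < δ) (hLg : 0 ≤ Lg) {c al be e : ℕ} {rr : Px Q → ℝ}
    (hr : ∀ x, 0 ≤ rr x) (hL : DifR (lw μ s η N Q) q0 (NM c al be e) Lg rr g)
    (hout : ∀ u v : Px Q, q0 u = q0 v → ∀ k, g0 ≤ k → k ≤ g1 → ps u k = ps v k)
    {A : Px Q → ℝ} (hA0 : ∀ y, 0 ≤ A y) (hA1' : ∀ y, A y ≤ 1) {Bo : Px Q → Prop} {eo : ℝ} (S0 : Px Q)
    (hBA : cE (lw μ s η N Q) (pJ c3 e3) (ind Bo) S0 * cE (lw μ s η N Q) (pJ c3 e3) A S0 ≤ eo)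
    {a1 m1 a2 m2 : ℕ} (hA1 : c ≤ a1) (hA1e : en a1 m1 q ≤ al) (hA2 : c ≤ a2) (hA2e : en a2 m2 q ≤ al)
    {b1 n1 b2 n2 : ℕ} (hB1 : be ≤ b1) (hB1e : en b1 n1 q ≤ e) (hB2 : be ≤ b2) (hB2e : en b2 n2 q ≤ e)
    (hd : 0 ≤ d) (hd1 : 0 ≤ d1) (hd3 : 0 ≤ d3) (hdl : 0 < dl) {r1 r D : ℕ}
    (h1 : c3 ≤ r1) (h2 : r1 ≤ g0) (h3 : g0 ≤ g1) (h4 : g1 < a2) (h4' : g1 < b2) (h5 : en a2 m2 q ≤ r) (h5' : en b2 n2 q ≤ r)
    (h6 : r ≤ e3) (hD : r ≤ D) :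
    cE (lw μ s η N Q) (pJ c3 e3) (ind fun x => ¬ (Ev (lw μ s η N Q) (pJ c3 e3) (pJ r1 e3) (pJ c3 r) Bo q d d1 d3 g0 g1 a1 m1 a2 m2 x ∨
      Ev (lw μ s η N Q) (pJ c3 e3) (pJ r1 e3) (pJ c3 r) Bo q d d1 d3 g0 g1 b1 n1 b2 n2 x)) S0 *
      T4 (lw μ s η N Q) (pJ c3 e3) g δ A S0 ≤ Kap eo Lg δ q d (dl⁻¹ * d1) d3 + 3 * ((D + 1) ^ 2 * dl) +
        6 / δ * cE (lw μ s η N Q) (pJ c3 e3) rr S0 := by
  classical
  set w := lw μ s η N Q with hw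
  have he : 0 ≤ dl⁻¹ * d1 := mul_nonneg (inv_pos.2 hdl).le hd1
  have hsm := T4A_small (μ := μ) (s := s) (N := N) (q := q) (d := d) (e1 := dl⁻¹ * d1) (d3 := d3) (g0 := g0) (g1 := g1) η
    (swP_pJ hce) hc hδ hLg hr hL hout hA0 hA1' (Bo := Bo) (eo := eo) S0 (by
      refine le_trans (le_of_eq ?_) hBA
      congr 1) hA1 hA1e hA2 hA2e hB1 hB1e hB2 hB2e hd he hd3
  have hsm' : cE w (pJ c3 e3) (ind fun x => okE w (pJ c3 e3) Bo q d (dl⁻¹ * d1) d3 g0 g1 a1 m1 a2 m2 x ∧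
      okE w (pJ c3 e3) Bo q d (dl⁻¹ * d1) d3 g0 g1 b1 n1 b2 n2 x) S0 * T4 w (pJ c3 e3) g δ A S0 ≤
      Kap eo Lg δ q d (dl⁻¹ * d1) d3 + 6 / δ * cE w (pJ c3 e3) rr S0 := by
    refine le_trans (le_of_eq ?_) hsm
    congr 1
    exact cE_congr _ _ (fun x => ind_eq _ x) S0
  have hcr : Crs (pJ (Q := Q) c3 e3) (pJ c3 r) := crs_pJ le_rfl h6
  have hcr' : Crs (pJ (Q := Q) c3 e3) (pJ r1 e3) := crs_pJ h1 le_rfl
  have hen : a2 ≤ en a2 m2 q := Nat.le_add_right _ _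
  have hg := fib_gen w (pJ c3 e3) (Finset.univ : Finset (Fin 3)) (T4' := T4 w (pJ c3 e3) g δ A S0) (K2 := (D + 1) ^ 2 * dl)
    (E := fun x => Ev w (pJ c3 e3) (pJ r1 e3) (pJ c3 r) Bo q d d1 d3 g0 g1 a1 m1 a2 m2 x ∨
      Ev w (pJ c3 e3) (pJ r1 e3) (pJ c3 r) Bo q d d1 d3 g0 g1 b1 n1 b2 n2 x)
    (ok := fun x => okE w (pJ c3 e3) Bo q d (dl⁻¹ * d1) d3 g0 g1 a1 m1 a2 m2 x ∧
      okE w (pJ c3 e3) Bo q d (dl⁻¹ * d1) d3 g0 g1 b1 n1 b2 n2 x)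
    (T := ![Ty w (pJ r1 e3) dl g0 g1, Ty w (pJ c3 r) dl a2 (en a2 m2 q), Ty w (pJ c3 r) dl b2 (en b2 n2 q)])
    (fun x hE hT => by
      rw [not_or] at hE
      have t0 := hT 0 (mem_univ _)
      have t1 := hT 1 (mem_univ _)
      have t2 := hT 2 (mem_univ _)
      simp only [Matrix.cons_val_zero, Matrix.cons_val_one, Matrix.cons_val] at t0 t1 t2
      exact ⟨okL η hdl h1 h2 h3 h4 h5 h6 t0 t1 hE.1, okL η hdl h1 h2 h3 h4' h5' h6 t0 t2 hE.2⟩)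
    (T4_nonneg hA0 S0) ((T4_le_own hA0 S0).trans (cE_mem _ _ hA0 hA1' S0).2) S0 (K1 := Kap eo Lg δ q d (dl⁻¹ * d1) d3 +
      6 / δ * cE w (pJ c3 e3) rr S0) hsm'
    (fun i _ => by
      fin_cases i
      · exact ty_ind w hcr' hdl.le (by omega) S0
      · exact ty_ind w hcr hdl.le (by omega) S0
      · exact ty_ind w hcr hdl.le (by omega) S0)
  rw [card_univ, Fintype.card_fin] at hg
  push_cast at hg
  linarith

/-- `fibR` inside the Gibbs mean. -/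
theorem gm_fibR [MxQ Q] [SwQ Q] (η : Env) {c3 e3 : ℕ} (hce : c3 ≤ e3) {Z : Type*} [DecidableEq Z] {q0 : Px Q → Z}
    (hc : Crs (pJ c3 e3) q0)
    {g : Px Q → ℝ} {δ Lg : ℝ} (hδ : 0 < δ) (hLg : 0 ≤ Lg) {c al be e : ℕ} {rr : Px Q → ℝ}
    (hr : ∀ x, 0 ≤ rr x) (hL : DifR (lw μ s η N Q) q0 (NM c al be e) Lg rr g)
    (hout : ∀ u v : Px Q, q0 u = q0 v → ∀ k, g0 ≤ k → k ≤ g1 → ps u k = ps v k)
    {A : Px Q → ℝ} (hA0 : ∀ y, 0 ≤ A y) (hA1' : ∀ y, A y ≤ 1) {Bo : Px Q → Prop} {eo : ℝ}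
    (hBA : ∀ S0, cE (lw μ s η N Q) (pJ c3 e3) (ind Bo) S0 * cE (lw μ s η N Q) (pJ c3 e3) A S0 ≤ eo)
    {a1 m1 a2 m2 : ℕ} (hA1 : c ≤ a1) (hA1e : en a1 m1 q ≤ al) (hA2 : c ≤ a2) (hA2e : en a2 m2 q ≤ al)
    {b1 n1 b2 n2 : ℕ} (hB1 : be ≤ b1) (hB1e : en b1 n1 q ≤ e) (hB2 : be ≤ b2) (hB2e : en b2 n2 q ≤ e)
    (hd : 0 ≤ d) (hd1 : 0 ≤ d1) (hd3 : 0 ≤ d3) (hdl : 0 < dl) {r1 r D : ℕ}
    (h1 : c3 ≤ r1) (h2 : r1 ≤ a2) (h2' : r1 ≤ b2) (h3 : en a2 m2 q < g0) (h3' : en b2 n2 q < g0) (h4 : g0 ≤ g1) (h5 : g1 ≤ r)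
    (h6 : r ≤ e3) (hD : g1 ≤ D) {H : Px Q → ℝ} (hH : Mp (pJ c3 e3) H) (hH0 : ∀ x, 0 ≤ H x) {C : ℝ} (hC : 0 ≤ C) :
    gm (lw μ s η N Q) (fun x => H x * min 1 (C * T4 (lw μ s η N Q) (pJ c3 e3) g δ A x)) ≤
      gm (lw μ s η N Q) (fun x => H x * ind (fun x =>
        Ev (lw μ s η N Q) (pJ c3 e3) (pJ c3 r) (pJ r1 e3) Bo q d d1 d3 g0 g1 a1 m1 a2 m2 x ∨
        Ev (lw μ s η N Q) (pJ c3 e3) (pJ c3 r) (pJ r1 e3) Bo q d d1 d3 g0 g1 b1 n1 b2 n2 x) x) +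
        C * (Kap eo Lg δ q d (dl⁻¹ * d1) d3 + 3 * ((D + 1) ^ 2 * dl)) * gm (lw μ s η N Q) H +
        C * (6 / δ) * gm (lw μ s η N Q) (fun x => H x * rr x) :=
  gm_gen (lw μ s η N Q) hH hH0 hC fun S0 => fibR η hce hc hδ hLg hr hL hout hA0 hA1' S0 (hBA S0) hA1 hA1e hA2 hA2e hB1 hB1e hB2
    hB2e hd hd1 hd3 hdl h1 h2 h2' h3 h3' h4 h5 h6 hD

/-- `fibL` inside the Gibbs mean. -/
theorem gm_fibL [MxQ Q] [SwQ Q] (η : Env) {c3 e3 : ℕ} (hce : c3 ≤ e3) {Z : Type*} [DecidableEq Z] {q0 : Px Q → Z}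
    (hc : Crs (pJ c3 e3) q0)
    {g : Px Q → ℝ} {δ Lg : ℝ} (hδ : 0 < δ) (hLg : 0 ≤ Lg) {c al be e : ℕ} {rr : Px Q → ℝ}
    (hr : ∀ x, 0 ≤ rr x) (hL : DifR (lw μ s η N Q) q0 (NM c al be e) Lg rr g)
    (hout : ∀ u v : Px Q, q0 u = q0 v → ∀ k, g0 ≤ k → k ≤ g1 → ps u k = ps v k)
    {A : Px Q → ℝ} (hA0 : ∀ y, 0 ≤ A y) (hA1' : ∀ y, A y ≤ 1) {Bo : Px Q → Prop} {eo : ℝ}
    (hBA : ∀ S0, cE (lw μ s η N Q) (pJ c3 e3) (ind Bo) S0 * cE (lw μ s η N Q) (pJ c3 e3) A S0 ≤ eo)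
    {a1 m1 a2 m2 : ℕ} (hA1 : c ≤ a1) (hA1e : en a1 m1 q ≤ al) (hA2 : c ≤ a2) (hA2e : en a2 m2 q ≤ al)
    {b1 n1 b2 n2 : ℕ} (hB1 : be ≤ b1) (hB1e : en b1 n1 q ≤ e) (hB2 : be ≤ b2) (hB2e : en b2 n2 q ≤ e)
    (hd : 0 ≤ d) (hd1 : 0 ≤ d1) (hd3 : 0 ≤ d3) (hdl : 0 < dl) {r1 r D : ℕ}
    (h1 : c3 ≤ r1) (h2 : r1 ≤ g0) (h3 : g0 ≤ g1) (h4 : g1 < a2) (h4' : g1 < b2) (h5 : en a2 m2 q ≤ r) (h5' : en b2 n2 q ≤ r)
    (h6 : r ≤ e3) (hD : r ≤ D) {H : Px Q → ℝ} (hH : Mp (pJ c3 e3) H) (hH0 : ∀ x, 0 ≤ H x) {C : ℝ} (hC : 0 ≤ C) :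
    gm (lw μ s η N Q) (fun x => H x * min 1 (C * T4 (lw μ s η N Q) (pJ c3 e3) g δ A x)) ≤
      gm (lw μ s η N Q) (fun x => H x * ind (fun x =>
        Ev (lw μ s η N Q) (pJ c3 e3) (pJ r1 e3) (pJ c3 r) Bo q d d1 d3 g0 g1 a1 m1 a2 m2 x ∨
        Ev (lw μ s η N Q) (pJ c3 e3) (pJ r1 e3) (pJ c3 r) Bo q d d1 d3 g0 g1 b1 n1 b2 n2 x) x) +
        C * (Kap eo Lg δ q d (dl⁻¹ * d1) d3 + 3 * ((D + 1) ^ 2 * dl)) * gm (lw μ s η N Q) H +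
        C * (6 / δ) * gm (lw μ s η N Q) (fun x => H x * rr x) :=
  gm_gen (lw μ s η N Q) hH hH0 hC fun S0 => fibL η hce hc hδ hLg hr hL hout hA0 hA1' S0 (hBA S0) hA1 hA1e hA2 hA2e hB1 hB1e hB2
    hB2e hd hd1 hd3 hdl h1 h2 h3 h4 h4' h5 h5' h6 hD

end Prc

end

end Pool.W7d29a1.C0.O1r
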