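import Pool.Agent.W_7d29a1_C0.OwnQ80

/-!
C0, helper80: the own events `OwR`, `OwL`: the price (`owR_own`, `owL_own`), and the passage from a mass (`mass_R`, `mass_L`) and from the
robust event `Tau` (`tau_R`, `tau_L`) to `Lg` (a replica without any meeting in `[j - 11 b, j + 11 b]`) or `OwR`, `OwL`.
-/

set_option autoImplicit false

namespace Pool.Agent.W_7d29a1_C0.Own80

open MeasureTheory ProbabilityTheory Filter Topology Finset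
open Pool.Agent.W_7d29a1_F Pool.Agent.W_7d29a1_X Pool.Agent.W_7d29a1_h4g Pool.Agent.W_7d29a1_H
open Pool.Agent.W_7d29a1_HS (In wd md)
open Pool.Agent.W_7d29a1_HZ Pool.Agent.W_7d29a1_HZ.R72 Pool.Agent.W_7d29a1_Z.Asm72
open Pool.Agent.W_7d29a1_HZ.Z86
open Pool.Agent.W_7d29a1_C0.P86
open Pool.Agent.W_7d29a1_C0.P3 (Hy hy_ms hy_off er amp amp_ex)
open Pool.Agent.W_7d29a1_C0.Mod92 (Px Pn lw pJ)
open Pool.Agent.W_7d29a1_C0.Swap57 (NI)
open Pool.W7d29a1.C0.VT31 (cE cE_mono)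
open Pool.W7d29a1.C0.R43 (st Tau cE2_mI mI)
open scoped ENNReal

variable {μ : Measure ℝ} {s : ℝ} {N : ℕ} [IsProbabilityMeasure μ] {c₀ C₀ : ℝ} {n₀ : ℕ}

/-- **THE PRICE OF THE OWN EVENT, RIGHT END** (the hypothesis of the site theorem). -/
theorem owR_own (h : In μ s c₀ C₀ n₀) : ∀ ε θ : ℝ, 0 < ε → 0 < θ → ∃ δ κ c₂ : ℝ, 0 < δ ∧ 0 < κ ∧ 0 < c₂ ∧ ∃ L₀ : ℕ, ∀ L : ℕ, L₀ ≤ L →
    ∀ N : ℕ, L ≤ 16 * N → N ≤ L → ∀ y : ℕ, y ≤ N → |(y : ℝ) - sl μ s * N| ≤ ((L : ℝ) ^ δ * wd' μ s N) →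
    ∀ M : ℝ, 8 ≤ M → M ≤ (L : ℝ) ^ κ → ∀ x : ℝ, x ≤ (L : ℝ) ^ κ → ∀ T b c d j hi T₀ : ℕ, (L : ℝ) ^ θ ≤ T → T₀ ≤ T → 4 * T ≤ b →
    2 * b ≤ N → c ≤ j → j + b ≤ d → d ≤ N → j + b ≤ hi →
    ∀ F : Env → Finset ℕ → Prop, Ms F → OffRows (Ioc (j + b - T) (hi + 2 * b)) F →
    P1 μ s N y (fun η S => F η S ∧ OwR μ s N y c d j b ⌈10 * M⌉₊ T₀ x η S) ≤
      ENNReal.ofReal ((L : ℝ) ^ ε * (EE' μ s T)⁻¹) * P1 μ s N y F + ENNReal.ofReal (Real.exp (-(L : ℝ) ^ c₂)) := by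
  intro ε θ hε hθ
  obtain ⟨δ, κ, c₂, hδ, hκ, hc₂, L₀, hP⟩ := ow_core h ε θ hε hθ
  refine ⟨δ, κ, c₂, hδ, hκ, hc₂, L₀, ?_⟩
  intro L hL N hLN hNL y hyN hyc M hM hML x hx T b c d j hi T₀ hTL hT0 hTb hbN hcj hjd hdN hjhi F hF hoff
  obtain ⟨q, hq⟩ : ∃ q, q = ⌈10 * M⌉₊ := ⟨_, rfl⟩
  obtain ⟨l, hl⟩ : ∃ l, l = lT T q := ⟨_, rfl⟩
  have h1 := hP L hL N hLN hNL y hyN hyc M hM hML x hx T b c d (j + b - T + 1) hTL hTb hbN (by omega) hdN
    (fun n _ => st (j + b - T + 1) (lT T ⌈10 * M⌉₊) n)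
    (fun n => OwnP (st (j + b - T + 1) (lT T ⌈10 * M⌉₊) n) (lT T ⌈10 * M⌉₊) j b) (fun n hn g1 g2 g3 g4 S S' hout hA => ?_) F hF
    (fun n hn g1 g2 g3 i hi' => ?_)
  · refine (A12.P1_mono fun η S hev => ⟨hev.1, ?_⟩).trans h1
    exact hev.2 T hT0 hTb
  · rw [← hq, ← hl] at g1 g2 g3 g4 hA ⊢
    exact cover_r g3 (by omega) (by omega) (by omega) (by omega) (by omega) hout hA
  · rw [← hq, ← hl] at g1 g2 g3 hi' ⊢
    have h2 := (mem_filter.1 hi').2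
    refine Pool.Agent.W_7d29a1_HZ.ZE.OffRows.mono36 (fun a ha => ?_) hoff
    rw [mem_Ico] at ha
    rw [mem_Ioc]
    omega

/-- **THE PRICE OF THE OWN EVENT, LEFT END.** -/
theorem owL_own (h : In μ s c₀ C₀ n₀) : ∀ ε θ : ℝ, 0 < ε → 0 < θ → ∃ δ κ c₂ : ℝ, 0 < δ ∧ 0 < κ ∧ 0 < c₂ ∧ ∃ L₀ : ℕ, ∀ L : ℕ, L₀ ≤ L →
    ∀ N : ℕ, L ≤ 16 * N → N ≤ L → ∀ y : ℕ, y ≤ N → |(y : ℝ) - sl μ s * N| ≤ ((L : ℝ) ^ δ * wd' μ s N) →
    ∀ M : ℝ, 8 ≤ M → M ≤ (L : ℝ) ^ κ → ∀ x : ℝ, x ≤ (L : ℝ) ^ κ → ∀ T b c d j lo T₀ : ℕ, (L : ℝ) ^ θ ≤ T → T₀ ≤ T → 4 * T ≤ b →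
    2 * b ≤ N → c + b ≤ j → 3 * b ≤ j → j ≤ d → d ≤ N → lo + b ≤ j →
    ∀ F : Env → Finset ℕ → Prop, Ms F → OffRows (Ico (lo - (2 * b - 1)) (j - b + T)) F →
    P1 μ s N y (fun η S => F η S ∧ OwL μ s N y c d j b ⌈10 * M⌉₊ T₀ x η S) ≤
      ENNReal.ofReal ((L : ℝ) ^ ε * (EE' μ s T)⁻¹) * P1 μ s N y F + ENNReal.ofReal (Real.exp (-(L : ℝ) ^ c₂)) := by
  intro ε θ hε hθ
  obtain ⟨δ, κ, c₂, hδ, hκ, hc₂, L₀, hP⟩ := ow_core h ε θ hε hθ
  refine ⟨δ, κ, c₂, hδ, hκ, hc₂, L₀, ?_⟩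
  intro L hL N hLN hNL y hyN hyc M hM hML x hx T b c d j lo T₀ hTL hT0 hTb hbN hcj hj3 hjd hdN hlo F hF hoff
  obtain ⟨q, hq⟩ : ∃ q, q = ⌈10 * M⌉₊ := ⟨_, rfl⟩
  obtain ⟨l, hl⟩ : ∃ l, l = lT T q := ⟨_, rfl⟩
  have h1 := hP L hL N hLN hNL y hyN hyc M hM hML x hx T b c d (j - b) hTL hTb hbN (by omega) hdN
    (fun n i => st (j - b) (lT T ⌈10 * M⌉₊) n + lT T ⌈10 * M⌉₊ - tP (lT T ⌈10 * M⌉₊) b i)
    (fun n => OwnP (st (j - b) (lT T ⌈10 * M⌉₊) n) (lT T ⌈10 * M⌉₊) j b) (fun n hn g1 g2 g3 g4 S S' hout hA => ?_) F hF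
    (fun n hn g1 g2 g3 i hi' => ?_)
  · refine (A12.P1_mono fun η S hev => ⟨hev.1, ?_⟩).trans h1
    exact hev.2 T hT0 hTb
  · rw [← hq, ← hl] at g1 g2 g3 g4 hA ⊢
    exact cover_l g3 (by omega) (by omega) (by omega) (by omega) (by omega) hout hA
  · rw [← hq, ← hl] at g1 g2 g3 hi' ⊢
    have h2 := (mem_filter.1 hi').2
    refine Pool.Agent.W_7d29a1_HZ.ZE.OffRows.mono36 (fun a ha => ?_) hoff
    rw [mem_Ico] at ha ⊢
    omega

/-- No meeting in `[j - 11 b, j + 11 b]`: the mass is not very small. -/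
def Lg (μ : Measure ℝ) (s : ℝ) (N y c d j b : ℕ) (x : ℝ) : Env → Finset ℕ → Prop := Hy μ s N y c d (NoMeet (j - 11 * b) (j + 11 * b)) x

omit [IsProbabilityMeasure μ] in
/-- One piece. -/
theorem piece {y c d j b u l : ℕ} {M : ℝ} (hM : 8 ≤ M) {η : Env} {S : Finset ℕ}
    (h : Real.exp (-(7 * M)) < mc μ s N y c d (NoMeet u (u + l)) η S) (hL : ¬ Lg μ s N y c d j b (8 * M) η S) :
    Hy μ s N y c d (OwnP u l j b) (8 * M) η S := by
  unfold Lg Hy at hL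
  push Not at hL
  have h1 := mc_le_two (μ := μ) (s := s) (N := N) (y := y) (c := c) (d := d) (A := NoMeet u (u + l)) (B := OwnP u l j b)
    (C := NoMeet (j - 11 * b) (j + 11 * b)) (fun S S' _ _ _ _ _ h6 => by
      by_cases g : Nr j b S S'
      · exact Or.inl ⟨h6, g⟩
      · refine Or.inr fun k hk1 hk2 hk3 => g ⟨k, by omega, hk2, hk3⟩) η S
  have h2 : 2 * Real.exp (-(8 * M)) ≤ Real.exp (-(7 * M)) := by
    have e1 : Real.exp (-(7 * M)) = Real.exp M * Real.exp (-(8 * M)) := by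
      rw [← Real.exp_add]
      congr 1
      ring
    rw [e1]
    refine mul_le_mul_of_nonneg_right ?_ (Real.exp_pos _).le
    linarith [Real.add_one_le_exp M]
  unfold Hy
  linarith

omit [IsProbabilityMeasure μ] in
/-- All the scales. -/
theorem rp_all {y c d j b q T₀ : ℕ} {M : ℝ} (hM : 8 ≤ M) {U : ℕ → ℕ} {η : Env} {S : Finset ℕ}
    (h : ∀ T, T₀ ≤ T → 4 * T ≤ b → RpS μ s N y c d (U T) (lT T q) q M η S) (hL : ¬ Lg μ s N y c d j b (8 * M) η S) :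
    ∀ T, T₀ ≤ T → 4 * T ≤ b → ∃ n < 3 * q, Hy μ s N y c d (OwnP (st (U T) (lT T q) n) (lT T q) j b) (8 * M) η S := fun T h1 h2 => by
  obtain ⟨n, hn, h3⟩ := h T h1 h2
  exact ⟨n, hn, piece hM h3 hL⟩

omit [IsProbabilityMeasure μ] in
/-- **From a mass.** -/
theorem mass_all {y c d j b q T₀ a e : ℕ} {M : ℝ} (hM : 8 ≤ M) (hq : 1 ≤ q) {U : ℕ → ℕ}
    (hU : ∀ T, T₀ ≤ T → 4 * T ≤ b → a ≤ U T ∧ U T + lT T q ≤ e) {η : Env} {S : Finset ℕ}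
    (h : Hy μ s N y c d (NoMeet a e) (7 * M) η S) (hL : ¬ Lg μ s N y c d j b (8 * M) η S) :
    ∀ T, T₀ ≤ T → 4 * T ≤ b → ∃ n < 3 * q, Hy μ s N y c d (OwnP (st (U T) (lT T q) n) (lT T q) j b) (8 * M) η S := by
  refine rp_all hM (fun T h1 h2 => ⟨0, by omega, lt_of_lt_of_le h (mc_mono (fun S S' _ _ _ _ _ h5 => ?_) η S)⟩) hL
  obtain ⟨g1, g2⟩ := hU T h1 h2
  have e0 : st (U T) (lT T q) 0 = U T := by
    unfold st
    omega
  rw [e0]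
  exact fun k hk1 hk2 => h5 k (by omega) (by omega)

omit [IsProbabilityMeasure μ] in
/-- The window of the event `Tau` may be replaced by a smaller one. -/
theorem tauS_mono {y c d i j i' j' : ℕ} {M : ℝ} (hi : i ≤ i') (hj : j' ≤ j) {η : Env} {S : Finset ℕ} (h : TauS μ s N y c d i j M η S) :
    TauS μ s N y c d i' j' M η S := by
  obtain ⟨hS, h⟩ := h
  refine ⟨hS, ?_⟩
  have : Nonempty (Px (Pn N y)) := ⟨⟨S, hS⟩⟩
  unfold Tau at h ⊢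
  refine h.trans ?_
  rw [cE2_mI, cE2_mI]
  refine cE_mono _ _ (fun x => cE_mono _ _ (fun x' => ?_) x) _
  unfold NI
  split_ifs with g1 g2 g2
  · exact le_rfl
  · exact absurd (fun k hk1 hk2 => g1 k (by omega) (by omega)) g2
  · exact zero_le_one
  · exact le_rfl

/-- **Products of robust events.** -/
theorem tau_fam {y c d a e q b T₀ : ℕ} (hy : y ≤ N) (hcd : c ≤ d) {M : ℝ} (hM : 8 ≤ M) (hq : 10 * M ≤ q) (hq' : (q : ℝ) ≤ 20 * M) {U : ℕ → ℕ}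
    (hU : ∀ T, T₀ ≤ T → 4 * T ≤ b → a ≤ U T ∧ U T + 3 * q * (lT T q + 1) ≤ e) {f : Env → Finset ℕ → ℝ≥0∞} (hf : ∀ η S, f η S ≤ 1)
    (K : Finset ℕ) (hK : ∀ T ∈ K, T₀ ≤ T ∧ 4 * T ≤ b) :
    Q1 μ s N y (fun η S => f η S * ind (TauS μ s N y c d a e M η S)) ≤
      Q1 μ s N y (fun η S => f η S * ((∏ T ∈ K, ind (RpS μ s N y c d (U T) (lT T q) q M η S)) * ind (TauS μ s N y c d a e M η S))) +
        K.card * ENNReal.ofReal (Real.exp (-M)) := by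
  classical
  induction K using Finset.induction_on with
  | empty => simp
  | insert T K hT ih =>
    have h1 := ih fun T' hT' => hK T' (mem_insert_of_mem hT')
    obtain ⟨g1, g2⟩ := hK T (mem_insert_self _ _)
    obtain ⟨u1, u2⟩ := hU T g1 g2
    obtain ⟨P, hP⟩ : ∃ P : Env → Finset ℕ → ℝ≥0∞, P = fun η S => ∏ T ∈ K, ind (RpS μ s N y c d (U T) (lT T q) q M η S) := ⟨_, rfl⟩
    have hP1 : ∀ η S, P η S ≤ 1 := fun η S => by
      rw [hP]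
      exact prod_le_one' fun _ _ => ind_le _
    have h2 := tau_Q1 (μ := μ) (s := s) (N := N) hy hcd (U T) (lT T q) q hM hq hq' u2
      (f := fun η S => f η S * (P η S * ind (TauS μ s N y c d a e M η S))) fun η S =>
        mul_le_one' (hf η S) (mul_le_one' (hP1 η S) (ind_le _))
    refine h1.trans ?_
    rw [card_insert_of_notMem hT]
    push_cast
    rw [add_mul, one_mul, add_comm ((K.card : ℝ≥0∞) * _), ← add_assoc]
    refine add_le_add ?_ le_rfl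
    refine le_trans ?_ (h2.trans (add_le_add (le_of_eq ?_) le_rfl))
    · refine Q1_mono fun η S _ _ => ?_
      by_cases g : TauS μ s N y c d a e M η S
      · rw [ind_of g, ind_of (tauS_mono u1 le_rfl g), hP]
        simp only [mul_one]
        exact le_rfl
      · rw [ind_not g, mul_zero, mul_zero]
        exact zero_le
    · congr 1
      funext η S
      rw [prod_insert hT, hP]
      ring

/-- **FROM THE ROBUST EVENT TO THE OWN EVENT**, no long loops. -/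
theorem tau_all {y c d a e j q b T₀ : ℕ} (hy : y ≤ N) (hcd : c ≤ d) {M : ℝ} (hM : 8 ≤ M) (hq : 10 * M ≤ q) (hq' : (q : ℝ) ≤ 20 * M)
    {U : ℕ → ℕ} (hU : ∀ T, T₀ ≤ T → 4 * T ≤ b → a ≤ U T ∧ U T + 3 * q * (lT T q + 1) ≤ e) {f : Env → Finset ℕ → ℝ≥0∞}
    (hf : ∀ η S, f η S ≤ 1) :
    Q1 μ s N y (fun η S => f η S * ind (TauS μ s N y c d a e M η S ∧ ¬ Lg μ s N y c d j b (8 * M) η S)) ≤
      Q1 μ s N y (fun η S => f η S * ind (∀ T, T₀ ≤ T → 4 * T ≤ b → ∃ n < 3 * q,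
        Hy μ s N y c d (OwnP (st (U T) (lT T q) n) (lT T q) j b) (8 * M) η S)) + (b + 1 : ℕ) * ENNReal.ofReal (Real.exp (-M)) := by
  classical
  obtain ⟨K, hK⟩ : ∃ K, K = (range (b + 1)).filter fun T => T₀ ≤ T ∧ 4 * T ≤ b := ⟨_, rfl⟩
  have hKm : ∀ T, T ∈ K ↔ T₀ ≤ T ∧ 4 * T ≤ b := fun T => by
    rw [hK, mem_filter, mem_range]
    exact ⟨fun g => g.2, fun g => ⟨by omega, g⟩⟩
  have hKc : (K.card : ℝ≥0∞) ≤ (b + 1 : ℕ) := by
    have : K.card ≤ b + 1 := by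
      rw [hK]
      exact (card_filter_le _ _).trans (le_of_eq (card_range _))
    exact_mod_cast this
  have h1 := tau_fam (μ := μ) (s := s) hy hcd hM hq hq' hU (f := fun η S => f η S * ind (¬ Lg μ s N y c d j b (8 * M) η S))
    (fun η S => mul_le_one' (hf η S) (ind_le _)) K fun T hT => (hKm T).1 hT
  refine le_trans (Q1_mono fun η S _ _ => ?_) (h1.trans (add_le_add (Q1_mono fun η S _ _ => ?_) (mul_le_mul' hKc le_rfl)))
  · by_cases g : TauS μ s N y c d a e M η S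
    · by_cases g' : Lg μ s N y c d j b (8 * M) η S
      · rw [show ind (TauS μ s N y c d a e M η S ∧ ¬ Lg μ s N y c d j b (8 * M) η S) = 0 from ind_not fun h => h.2 g', mul_zero]
        exact zero_le
      · rw [show ind (TauS μ s N y c d a e M η S ∧ ¬ Lg μ s N y c d j b (8 * M) η S) = 1 from ind_of ⟨g, g'⟩,
          show ind (¬ Lg μ s N y c d j b (8 * M) η S) = 1 from ind_of g', ind_of g, mul_one, mul_one]
    · rw [show ind (TauS μ s N y c d a e M η S ∧ ¬ Lg μ s N y c d j b (8 * M) η S) = 0 from ind_not fun h => g h.1, mul_zero]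
      exact zero_le
  · by_cases g' : Lg μ s N y c d j b (8 * M) η S
    · rw [show ind (¬ Lg μ s N y c d j b (8 * M) η S) = 0 from ind_not fun h => h g', mul_zero, zero_mul]
      exact zero_le
    · by_cases g : ∀ T ∈ K, RpS μ s N y c d (U T) (lT T q) q M η S
      · rw [show ind (¬ Lg μ s N y c d j b (8 * M) η S) = 1 from ind_of g', mul_one, ind_of (rp_all hM (fun T h1 h2 => g T ((hKm T).2 ⟨h1, h2⟩)) g'), mul_one]
        calc f η S * ((∏ T ∈ K, ind (RpS μ s N y c d (U T) (lT T q) q M η S)) * ind (TauS μ s N y c d a e M η S))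
            ≤ f η S * 1 := mul_le_mul' le_rfl (mul_le_one' (prod_le_one' fun _ _ => ind_le _) (ind_le _))
          _ = f η S := mul_one _
      · push Not at g
        obtain ⟨T, hT, g⟩ := g
        rw [prod_eq_zero hT (ind_not g), zero_mul, mul_zero]
        exact zero_le

end Pool.Agent.W_7d29a1_C0.Own80
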