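import Pool.Agent.W_7d29a1_C0.OwnS27

/-!
MP_7d29a1_pr, [CURV0] / [C0], leaf E0C: `OwnR27`, `OwnS27` IN THE THRESHOLD FORM. (helper27)

The error of the Lipschitz hypothesis of the response has a part which does not depend on the path, `r0 = e ^ (- N ^ c')`. In front of the
three levels stands `C = e ^ (5 M)`, and `C r0` is not small. `DifT`: the hypothesis in the form `t ≤ |g u - g v| → t' ≤ Lg cE2 + (r u + r v)`;
with `4 r0 ≤ t` and `t' = t / 2` only the part of the error which depends on the path is left (`DifR.toT`). `T4_le_pairsT`, `T4A_smallT`,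
`gm_okET`: the bounds of `OwnR27` with `t'`. `gm_okE_gjT`: at the window of a row, error `C (12 / t) B gm (H nCn)`.
-/

set_option autoImplicit false
set_option linter.unusedSectionVars false

namespace Pool.W7d29a1.C0.O1r

open Finset MeasureTheory Pool.Agent.W_7d29a1_C0.Swap57 Pool.Agent.W_7d29a1_C0 Pool.Agent.W_7d29a1_C0.Mod92
open Pool.Agent.W_7d29a1_F Pool.Agent.W_7d29a1_X
open Pool.W7d29a1.C0 Pool.W7d29a1.C0.VT31 Pool.W7d29a1.C0.R43 Pool.W7d29a1.C0.S1 Pool.W7d29a1.C0.K1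
open Pool.W7d29a1.C0.O1 hiding T4_le_pairs T4A_small T4_small fibR fibL gm_gen
open Pool.Agent.W_7d29a1_C0.Blk18 (Full)
open Pool.Agent.W_7d29a1_C0.GwA50 (GwW)
open Pool.W7d29a1.C0.Bd73 (nCn nCn_nonneg gj_dif)

noncomputable section

variable {μ : Measure ℝ} {s : ℝ} {N : ℕ} {Q : Finset (Finset ℕ)} {Y : Type*} [DecidableEq Y] [Nonempty (Px Q)]

/-- **The Lipschitz hypothesis in the threshold form.** -/
def DifT {Z : Type*} [DecidableEq Z] (w : Px Q → ℝ) (q0 : Px Q → Z) (NN : Px Q → Px Q → ℝ) (Lg t t' : ℝ) (r g : Px Q → ℝ) : Prop :=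
  ∀ u v, t ≤ |g u - g v| → t' ≤ Lg * cE2 w q0 NN u v + (r u + r v)

theorem DifR.toT {Z : Type*} [DecidableEq Z] {w : Px Q → ℝ} {q0 : Px Q → Z} {NN : Px Q → Px Q → ℝ} {Lg t r0 : ℝ} {r g : Px Q → ℝ}
    (h : DifR w q0 NN Lg (fun x => r0 + r x) g) (ht : 4 * r0 ≤ t) : DifT w q0 NN Lg t (t / 2) r g := fun u v huv => by
  have h1 := h u v
  have h2 : |g u - g v| ≤ Lg * cE2 w q0 NN u v + ((r0 + r u) + (r0 + r v)) := h1
  linarith

section T4s

variable {w g r : Px Q → ℝ} {p : Px Q → Y} {δ δ' : ℝ} {A : Px Q → ℝ}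

open Classical in
/-- Only pairs of the same class are needed. -/
theorem T4_le_pairsT (hA1 : ∀ y, A y ≤ 1) {Z : Type*} [DecidableEq Z] {q0 : Px Q → Z} {NN : Px Q → Px Q → ℝ} {Lg : ℝ} (hδ : 0 < δ)
    (hδ' : 0 < δ') (hLg : 0 ≤ Lg) (hNN : ∀ u v, 0 ≤ NN u v) (hr : ∀ x, 0 ≤ r x)
    (hL : DifT w q0 NN Lg δ δ' r g) (hc : Crs p q0) {g0 g1 : ℕ}
    (hout : ∀ u v : Px Q, q0 u = q0 v → ∀ k, g0 ≤ k → k ≤ g1 → ps u k = ps v k) (x : Px Q) :
    T4 w p g δ A x ≤ 3 * Lg / δ' * cE2 w p (fun h h' => sc g0 g1 x h h' * NN h h') x x + 6 / δ' * cE w p r x := by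
  set κ : Px Q → Px Q → ℝ := fun u v => if δ ≤ |g u - g v| then δ' else 0 with hκ
  have κ0 : ∀ u v, 0 ≤ κ u v := fun u v => by
    rw [hκ]
    beta_reduce
    split_ifs
    · exact hδ'.le
    · exact le_rfl
  set K : Px Q → Px Q → ℝ := fun u v => sc g0 g1 x u v * κ u v with hK
  have sc0 : ∀ u v, 0 ≤ sc g0 g1 x u v := fun u v => sc_nonneg g0 g1 x u v
  have hK0 : ∀ u v, 0 ≤ K u v := fun u v => mul_nonneg (sc0 u v) (κ0 u v)
  have h1 : ∀ y z z' : Px Q, upI g δ y z * dnI g δ y z' ≤ δ'⁻¹ * (K y z + (K y z' + K z z')) := by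
    intro y z z'
    have k1 := hK0 y z
    have k2 := hK0 y z'
    have k3 := hK0 z z'
    have kk : 0 ≤ δ'⁻¹ * (K y z + (K y z' + K z z')) := mul_nonneg (inv_nonneg.2 hδ'.le) (by linarith)
    unfold upI dnI
    split_ifs with a1 a2
    · rw [mul_one, ← div_eq_inv_mul, one_le_div hδ']
      have b1 : δ ≤ |g y - g z| := by
        rw [abs_sub_comm]
        exact le_trans (by linarith) (le_abs_self _)
      have b2 : δ ≤ |g y - g z'| := le_trans (by linarith) (le_abs_self _)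
      have b3 : δ ≤ |g z - g z'| := le_trans (by linarith) (le_abs_self _)
      have c1 : κ y z = δ' := if_pos b1
      have c2 : κ y z' = δ' := if_pos b2
      have c3 : κ z z' = δ' := if_pos b3
      have c4 := mul_le_mul_of_nonneg_right (sc_three g0 g1 x y z z') hδ'.le
      show δ' ≤ sc g0 g1 x y z * κ y z + (sc g0 g1 x y z' * κ y z' + sc g0 g1 x z z' * κ z z')
      rw [c1, c2, c3]
      linarith
    · rw [mul_zero]
      exact kk
    · rw [zero_mul]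
      exact kk
    · rw [zero_mul]
      exact kk
  have h2 : ∀ y, cE w p (upI g δ y) x * cE w p (dnI g δ y) x ≤
      δ'⁻¹ * (cE w p (K y) x + (cE w p (K y) x + cE2 w p K x x)) := by
    intro y
    rw [cE_prod2]
    have a1 : ∀ z, cE w p (fun z' => upI g δ y z * dnI g δ y z') x ≤ δ'⁻¹ * (K y z + (cE w p (K y) x + cE w p (K z) x)) := by
      intro z
      refine (cE_mono w p (h1 y z) x).trans (le_of_eq ?_)
      rw [cE_mulf, cE_addf, cE_constf, cE_addf]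
    refine (cE_mono w p a1 x).trans (le_of_eq ?_)
    rw [cE_mulf, cE_addf, cE_addf, cE_constf]
    rfl
  have h3 : T4 w p g δ A x ≤ δ'⁻¹ * (3 * cE2 w p K x x) := by
    have a1 : T4 w p g δ A x ≤ cE w p (fun y => δ'⁻¹ * (cE w p (K y) x + (cE w p (K y) x + cE2 w p K x x))) x :=
      cE_mono w p (fun y => (mul_le_of_le_one_left (ud_mem x y).1 (hA1 y)).trans (h2 y)) x
    refine a1.trans (le_of_eq ?_)
    rw [cE_mulf, cE_addf, cE_addf, cE_constf]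
    show δ'⁻¹ * (cE2 w p K x x + (cE2 w p K x x + cE2 w p K x x)) = _
    ring
  have h4 : cE2 w p K x x ≤ Lg * cE2 w p (fun h h' => sc g0 g1 x h h' * NN h h') x x + (cE w p r x + cE w p r x) := by
    have a1 : ∀ u v, K u v ≤ Lg * cE2 w q0 (fun h h' => sc g0 g1 x h h' * NN h h') u v + (r u + r v) := by
      intro u v
      have b1 : cE2 w q0 (fun h h' => sc g0 g1 x h h' * NN h h') u v = sc g0 g1 x u v * cE2 w q0 NN u v := by
        refine cE2_pull w q0 (fun z z' hz hz' => ?_) NN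
        have c1 : NI g0 g1 x z = NI g0 g1 x u := by
          unfold NI
          refine if_congr (forall_congr' fun k => forall_congr' fun h1 => forall_congr' fun h2 => ?_) rfl rfl
          rw [hout z u hz k h1 h2]
        have c2 : NI g0 g1 x z' = NI g0 g1 x v := by
          unfold NI
          refine if_congr (forall_congr' fun k => forall_congr' fun h1 => forall_congr' fun h2 => ?_) rfl rfl
          rw [hout z' v hz' k h1 h2]
        unfold sc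
        rw [c1, c2]
      rw [b1]
      have b0 : 0 ≤ Lg * cE2 w q0 NN u v := mul_nonneg hLg (cE2_nonneg _ _ hNN _ _)
      have b3 := mul_le_mul_of_nonneg_right (sc_le_one g0 g1 x u v) (add_nonneg (hr u) (hr v))
      have b4 := add_nonneg (hr u) (hr v)
      by_cases hd : δ ≤ |g u - g v|
      · have c1 : κ u v = δ' := if_pos hd
        have b2 := mul_le_mul_of_nonneg_left (hL u v hd) (sc0 u v)
        show sc g0 g1 x u v * κ u v ≤ _
        rw [c1]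
        rw [mul_add] at b2
        linarith
      · have c1 : κ u v = 0 := if_neg hd
        show sc g0 g1 x u v * κ u v ≤ _
        rw [c1, mul_zero]
        have b5 := mul_nonneg (sc0 u v) b0
        linarith
    have a2 := cE2_mono w p a1 x x
    have a3 := cE2_add w p (fun u v => Lg * cE2 w q0 (fun h h' => sc g0 g1 x h h' * NN h h') u v) (fun u v => r u + r v) x x
    have a4 := cE2_add w p (fun u _ => r u) (fun _ v => r v) x x
    have a5 := cE2_left w p r x x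
    have a6 := cE2_right w p r x x
    rw [cE2_mul, cE2_tower w hc] at a3
    rw [a5, a6] at a4
    rw [a4] at a3
    exact a2.trans_eq a3
  calc T4 w p g δ A x ≤ δ'⁻¹ * (3 * cE2 w p K x x) := h3
    _ ≤ δ'⁻¹ * (3 * (Lg * cE2 w p (fun h h' => sc g0 g1 x h h' * NN h h') x x + (cE w p r x + cE w p r x))) :=
        mul_le_mul_of_nonneg_left (mul_le_mul_of_nonneg_left h4 (by norm_num)) (inv_nonneg.2 hδ'.le)
    _ = _ := by
        rw [div_eq_mul_inv, div_eq_mul_inv]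
        ring

end T4s

section Fin

variable {q : ℕ} {d e1 d3 : ℝ} {g0 g1 : ℕ}

open Classical in
/-- **THREE LEVELS TOGETHER WITH AN OWN FACTOR ARE TOLD FROM ONE PATH**, threshold form. -/
theorem T4A_smallT [MxQ Q] (η : Env) {p : Px Q → Y} (hp : SwP p) {Z : Type*} [DecidableEq Z] {q0 : Px Q → Z} (hc : Crs p q0)
    {g : Px Q → ℝ} {δ δ' Lg : ℝ} (hδ : 0 < δ) (hδ' : 0 < δ') (hLg : 0 ≤ Lg) {c al be e : ℕ} {r : Px Q → ℝ}
    (hr : ∀ x, 0 ≤ r x) (hL : DifT (lw μ s η N Q) q0 (NM c al be e) Lg δ δ' r g)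
    (hout : ∀ u v : Px Q, q0 u = q0 v → ∀ k, g0 ≤ k → k ≤ g1 → ps u k = ps v k)
    {A : Px Q → ℝ} (hA0 : ∀ y, 0 ≤ A y) (hA1' : ∀ y, A y ≤ 1) {Bo : Px Q → Prop} {eo : ℝ} (S0 : Px Q)
    (hBA : cE (lw μ s η N Q) p (fun x => if Bo x then 1 else 0) S0 * cE (lw μ s η N Q) p A S0 ≤ eo)
    {a1 m1 a2 m2 : ℕ} (hA1 : c ≤ a1) (hA1e : en a1 m1 q ≤ al) (hA2 : c ≤ a2) (hA2e : en a2 m2 q ≤ al)
    {b1 n1 b2 n2 : ℕ} (hB1 : be ≤ b1) (hB1e : en b1 n1 q ≤ e) (hB2 : be ≤ b2) (hB2e : en b2 n2 q ≤ e)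
    (hd : 0 ≤ d) (he : 0 ≤ e1) (hd3 : 0 ≤ d3) :
    cE (lw μ s η N Q) p (fun x => if okE (lw μ s η N Q) p Bo q d e1 d3 g0 g1 a1 m1 a2 m2 x ∧
      okE (lw μ s η N Q) p Bo q d e1 d3 g0 g1 b1 n1 b2 n2 x then 1 else 0) S0 * T4 (lw μ s η N Q) p g δ A S0 ≤
      eo + 2 * (3 * Lg / δ') * (((1 / 2) ^ q + 3 * q * d) + ((1 / 2) ^ q + (d3 + 2 * ((3 * q + 1) * e1)))) +
        6 / δ' * cE (lw μ s η N Q) p r S0 := by
  set w := lw μ s η N Q with hw
  have hC : 0 ≤ 3 * Lg / δ' := by positivity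
  set MA' : Px Q → ℝ := mg w p q d e1 d3 g0 g1 a1 m1 a2 m2 S0 with hMA
  set MB' : Px Q → ℝ := mg w p q d e1 d3 g0 g1 b1 n1 b2 n2 S0 with hMB
  have hA' := cE_nonneg w p hA0 S0
  have key : ∀ x, p x = p S0 → T4 w p g δ A S0 * (if okE w p Bo q d e1 d3 g0 g1 a1 m1 a2 m2 x ∧
      okE w p Bo q d e1 d3 g0 g1 b1 n1 b2 n2 x then 1 else 0) ≤
      (cE w p A S0 * (if Bo x then 1 else 0) + (3 * Lg / δ') * (MA' x + MB' x)) + 6 / δ' * cE w p r S0 := by
    intro x hx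
    have m1' := mg_nonneg (q := q) (d := d) (e1 := e1) (d3 := d3) (g0 := g0) (g1 := g1) w p a1 m1 a2 m2 S0 x
    have m2' := mg_nonneg (q := q) (d := d) (e1 := e1) (d3 := d3) (g0 := g0) (g1 := g1) w p b1 n1 b2 n2 S0 x
    have m3 : 0 ≤ (3 * Lg / δ') * (MA' x + MB' x) := mul_nonneg hC (add_nonneg m1' m2')
    have m4 : 0 ≤ 6 / δ' * cE w p r S0 := mul_nonneg (by positivity) (cE_nonneg w p hr S0)
    by_cases hb : Bo x
    · rw [if_pos hb, mul_one]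
      have k1 : T4 w p g δ A S0 ≤ cE w p A S0 := T4_le_own hA0 S0
      have k2 := T4_nonneg (w := w) (p := p) (g := g) (δ := δ) hA0 S0
      split_ifs
      · linarith
      · linarith
    · rw [if_neg hb, mul_zero, zero_add]
      split_ifs with hok
      · rw [mul_one, ← T4_fib hx]
        have m5 : 6 / δ' * cE w p r x = 6 / δ' * cE w p r S0 := by rw [cE_eq_of w p r hx]
        rw [← m5]
        refine (T4_le_pairsT hA1' hδ hδ' hLg (fun u v => NM_nonneg c al be e u v) hr hL hc hout x).trans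
          (add_le_add_left (mul_le_mul_of_nonneg_left ?_ hC) _)
        have k1 := cE2_mono w p (K := fun h h' => sc g0 g1 x h h' * NM c al be e h h')
          (K' := fun h h' => sc g0 g1 x h h' * NI c al h h' + sc g0 g1 x h h' * NI be e h h') (fun h h' => by
            rw [← mul_add]
            exact mul_le_mul_of_nonneg_left (NM_le c al be e h h') (sc_nonneg _ _ _ _ _)) x x
        rw [cE2_add] at k1
        exact k1.trans (add_le_add (mg_ge w p hA1 hA1e hA2 hA2e hx (hok.1 hb)) (mg_ge w p hB1 hB1e hB2 hB2e hx (hok.2 hb)))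
      · rw [mul_zero]
        linarith
  have h1 := cE_fib_mono w p key
  rw [cE_mulf, cE_addf, cE_constf, cE_addf, cE_mulf, cE_mulf, cE_addf] at h1
  have h3 := cE_mg (q := q) (d := d) (e1 := e1) (d3 := d3) (g0 := g0) (g1 := g1) η hp S0 hd he hd3 a1 m1 a2 m2
    (μ := μ) (s := s) (N := N)
  have h4 := cE_mg (q := q) (d := d) (e1 := e1) (d3 := d3) (g0 := g0) (g1 := g1) η hp S0 hd he hd3 b1 n1 b2 n2
    (μ := μ) (s := s) (N := N)
  have h5 := mul_le_mul_of_nonneg_left (add_le_add h3 h4) hC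
  rw [mul_comm]
  rw [mul_comm] at hBA
  refine h1.trans ((add_le_add_left (add_le_add hBA h5) _).trans (le_of_eq ?_))
  ring

/-- **INSIDE THE GIBBS MEAN, the event that one of the two margins is not told**, threshold form. -/
theorem gm_okET [MxQ Q] (η : Env) {p : Px Q → Y} (hp : SwP p) {Z : Type*} [DecidableEq Z] {q0 : Px Q → Z} (hc : Crs p q0)
    {g r : Px Q → ℝ} (hr : ∀ x, 0 ≤ r x) {δ δ' Lg : ℝ} (hδ : 0 < δ) (hδ' : 0 < δ') (hLg : 0 ≤ Lg) {c al be e : ℕ}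
    (hL : DifT (lw μ s η N Q) q0 (NM c al be e) Lg δ δ' r g)
    (hout : ∀ u v : Px Q, q0 u = q0 v → ∀ k, g0 ≤ k → k ≤ g1 → ps u k = ps v k)
    {A : Px Q → ℝ} (hA0 : ∀ y, 0 ≤ A y) (hA1' : ∀ y, A y ≤ 1) {Bo : Px Q → Prop} {eo : ℝ}
    (hBA : ∀ S0, cE (lw μ s η N Q) p (ind Bo) S0 * cE (lw μ s η N Q) p A S0 ≤ eo)
    {a1 m1 a2 m2 : ℕ} (hA1 : c ≤ a1) (hA1e : en a1 m1 q ≤ al) (hA2 : c ≤ a2) (hA2e : en a2 m2 q ≤ al)
    {b1 n1 b2 n2 : ℕ} (hB1 : be ≤ b1) (hB1e : en b1 n1 q ≤ e) (hB2 : be ≤ b2) (hB2e : en b2 n2 q ≤ e)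
    (hd : 0 ≤ d) (he : 0 ≤ e1) (hd3 : 0 ≤ d3) {H : Px Q → ℝ} (hH : Mp p H) (hH0 : ∀ x, 0 ≤ H x) {C : ℝ} (hC : 0 ≤ C) :
    gm (lw μ s η N Q) (fun x => H x * min 1 (C * T4 (lw μ s η N Q) p g δ A x)) ≤
      gm (lw μ s η N Q) (fun x => H x * ind (fun x => ¬ okE (lw μ s η N Q) p Bo q d e1 d3 g0 g1 a1 m1 a2 m2 x ∨
        ¬ okE (lw μ s η N Q) p Bo q d e1 d3 g0 g1 b1 n1 b2 n2 x) x) + C * Kap eo Lg δ' q d e1 d3 * gm (lw μ s η N Q) H +
        C * (6 / δ') * gm (lw μ s η N Q) (fun x => H x * r x) := by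
  classical
  refine gm_gen (lw μ s η N Q) hH hH0 hC fun S0 => ?_
  have hsm := T4A_smallT (μ := μ) (s := s) (N := N) (q := q) (d := d) (e1 := e1) (d3 := d3) (g0 := g0) (g1 := g1) η
    hp hc hδ hδ' hLg hr hL hout hA0 hA1' (Bo := Bo) (eo := eo) S0 (by
      refine le_trans (le_of_eq ?_) (hBA S0)
      congr 1) hA1 hA1e hA2 hA2e hB1 hB1e hB2 hB2e hd he hd3
  refine le_trans (le_of_eq ?_) hsm
  congr 1
  refine cE_congr _ _ (fun x => ?_) S0
  unfold ind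
  by_cases h1 : okE (lw μ s η N Q) p Bo q d e1 d3 g0 g1 a1 m1 a2 m2 x
  · by_cases h2 : okE (lw μ s η N Q) p Bo q d e1 d3 g0 g1 b1 n1 b2 n2 x
    · simp [h1, h2]
    · simp [h2]
  · simp [h1]

end Fin

/-! ### At the window -/

/-- **The response of the window, threshold form.** -/
theorem difT_gj {κ δ δ₁ ε c' : ℝ} {η : Env} (h : GwW μ s N κ δ δ₁ ε c' η) (hQ : Full N Q) {b j : ℕ} (hj : j + b ≤ N)
    (h1 : (N : ℝ) ^ κ ≤ ((j - (j - b) : ℕ) : ℝ)) (h2 : (N : ℝ) ^ κ ≤ b) {B : ℝ} (hB : 0 ≤ B) {a : ℤ} (ha : a = 1 ∨ a = -1) {t : ℝ}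
    (ht : 2 * Real.exp (-(N : ℝ) ^ c') ≤ t) :
    DifT (lw μ s η N Q) (pJ (j - b) (j + b)) (NM (j - b) j j (j + b)) (Real.exp ((N : ℝ) ^ ε)) t (t / 2)
      (fun x => B * nCn μ s δ₁ (j - b) (j + b) x) (gj μ s η δ B b j a) := by
  refine DifR.toT (r0 := Real.exp (-(N : ℝ) ^ c') / 2) (fun u v => ?_) (by linarith)
  refine (gj_dif h hQ hj h1 h2 hB ha u v).trans (le_of_eq ?_)
  beta_reduce
  ring

/-- **`gm_okE` AT THE WINDOW, threshold form**: only the paths which leave the cone are left in the error. -/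
theorem gm_okE_gjT [MxQ Q] {κ δ δ₁ ε c' : ℝ} {η : Env} (h : GwW μ s N κ δ δ₁ ε c' η) (hQ : Full N Q) {b j : ℕ} (hj : j + b ≤ N)
    (hk1 : (N : ℝ) ^ κ ≤ ((j - (j - b) : ℕ) : ℝ)) (hk2 : (N : ℝ) ^ κ ≤ b) {B : ℝ} (hB : 0 ≤ B) {a : ℤ} (ha : a = 1 ∨ a = -1)
    {c3 e3 : ℕ} (hc3 : c3 ≤ j - b) (he3 : j + b ≤ e3) {t : ℝ} (ht : 2 * Real.exp (-(N : ℝ) ^ c') ≤ t) {g0 g1 : ℕ}
    (hg : g1 ≤ j - b ∨ j + b ≤ g0)
    {A : Px Q → ℝ} (hA0 : ∀ y, 0 ≤ A y) (hA1' : ∀ y, A y ≤ 1) {Bo : Px Q → Prop} {eo : ℝ}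
    (hBA : ∀ S0, cE (lw μ s η N Q) (pJ c3 e3) (ind Bo) S0 * cE (lw μ s η N Q) (pJ c3 e3) A S0 ≤ eo) {q : ℕ} {d e1 d3 : ℝ}
    {a1 m1 a2 m2 : ℕ} (hA1 : j - b ≤ a1) (hA1e : en a1 m1 q ≤ j) (hA2 : j - b ≤ a2) (hA2e : en a2 m2 q ≤ j)
    {b1 n1 b2 n2 : ℕ} (hB1 : j ≤ b1) (hB1e : en b1 n1 q ≤ j + b) (hB2 : j ≤ b2) (hB2e : en b2 n2 q ≤ j + b)
    (hd : 0 ≤ d) (he : 0 ≤ e1) (hd3 : 0 ≤ d3) {H : Px Q → ℝ} (hH : Mp (pJ c3 e3) H) (hH0 : ∀ x, 0 ≤ H x) {C : ℝ} (hC : 0 ≤ C) :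
    gm (lw μ s η N Q) (fun x => H x * min 1 (C * T4 (lw μ s η N Q) (pJ c3 e3) (gj μ s η δ B b j a) t A x)) ≤
      gm (lw μ s η N Q) (fun x => H x * ind (fun x => ¬ okE (lw μ s η N Q) (pJ c3 e3) Bo q d e1 d3 g0 g1 a1 m1 a2 m2 x ∨
        ¬ okE (lw μ s η N Q) (pJ c3 e3) Bo q d e1 d3 g0 g1 b1 n1 b2 n2 x) x) +
        C * Kap eo (Real.exp ((N : ℝ) ^ ε)) (t / 2) q d e1 d3 * gm (lw μ s η N Q) H +
        C * (12 / t) * B * gm (lw μ s η N Q) (fun x => H x * nCn μ s δ₁ (j - b) (j + b) x) := by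
  have ht0 : 0 < t := by
    have := Real.exp_pos (-(N : ℝ) ^ c')
    linarith
  have h1 := gm_okET (μ := μ) (s := s) (N := N) η (swP_pJ (show c3 ≤ e3 by omega)) (crs_pJ hc3 he3)
    (fun x => mul_nonneg hB (nCn_nonneg μ s δ₁ (j - b) (j + b) x)) ht0 (half_pos ht0)
    (Real.exp_pos _).le (difT_gj h hQ hj hk1 hk2 hB ha ht) (fun u v huv k h0 h1 => out_gj hg u v huv k h0 h1) hA0 hA1' hBA hA1 hA1e
    hA2 hA2e hB1 hB1e hB2 hB2e hd he hd3 hH hH0 hC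
  have e1 : (fun x => H x * (B * nCn μ s δ₁ (j - b) (j + b) x)) = B • fun x => H x * nCn μ s δ₁ (j - b) (j + b) x := by
    funext x
    simp only [Pi.smul_apply, smul_eq_mul]
    ring
  rw [e1, gm_smul] at h1
  refine h1.trans (le_of_eq ?_)
  have e2 : 6 / (t / 2) = 12 / t := by
    field_simp
    norm_num
  rw [e2]
  ring

end

end Pool.W7d29a1.C0.O1r
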