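import Pool.Agent.W_7d29a1_C0.T0A90
import Pool.Agent.W_7d29a1_C0.BrT57
import Pool.Agent.W_7d29a1_C0.PlanP13
import Pool.Agent.W_7d29a1_C0.Loc7P

/-!
CURV0 (MP_7d29a1_pr), leaf (T), `T_0L` (helper72): THE TERM OF THE OWN BLOCK AS A PLAN OF FOUR REPLICAS.

`P4 q' q`: `x 3 = S` free, `x 2 = v` given `q'` of `S`, `x 1 = y` given `q` of `S`, `x 0 = S'` free. `psi4`: `F(S) (G y - G v) (f S - f S')`
on the event that `y`, `v` are apart on one side of the window `[al, be]` and `S`, `S'` do not meet in `[bp, c]`. `plan4`, `fT72_eq_ev4`: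
EXACT for every weight with the swaps. `hasDerivAt_T4`, `dT72_eq_ins4`: the derivative along a path functional which keeps the swaps is
its insertion. `ev_abs_psi4`: the bound by `Pk` (T0A90). `marg_P4`, `bp_P4`: helper7's and helper13's predicates.
-/

set_option autoImplicit false
set_option linter.unusedSectionVars false
set_option linter.unusedVariables false

namespace Pool.Agent.W_7d29a1_C0.T72

open Finset
open Pool.Agent.W_7d29a1_C0 Pool.Agent.W_7d29a1_C0.Mod92 Pool.Agent.W_7d29a1_C0.Swap57 Pool.Agent.W_7d29a1_C0.NM82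
open Pool.Agent.W_7d29a1_C0.CutT57
open Pool.Agent.W_7d29a1_F Pool.Agent.W_7d29a1_X
open Pool.W7d29a1.C0 Pool.W7d29a1.C0.VT31 Pool.W7d29a1.C0.T72
open Pool.W7d29a1.C0.I52 (Plan wt ker zs av ev dn ins ev_cons ev_nil ev_congr gm_eq_av cE_eq_av ev_mono abs_ev_le ev_smul ev_sum
  hasDerivAt_ev gline)
open Pool.W7d29a1.C0.R43 (mI mI_nonneg)
open Pool.W7d29a1.C0.R90 (Pk kf kf_nonneg kf_mp Pk_mono Pk_smul crs_B Lk_blk)

noncomputable section

/-! ### The plan -/

section Abs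

variable {X : Type*} [Fintype X] [DecidableEq X] [Nonempty X] {Y Y' : Type*} [DecidableEq Y] [DecidableEq Y']

/-- The plan: `S` free; `v` given `q'` of `S`; `y` given `q` of `S`; `S'` free. -/
def P4 (q' : X → Y') (q : X → Y) : Plan X 4 := (((Plan.nil.fr).gi q' 0).gi q 1).fr

theorem ev_P4 (q' : X → Y') (q : X → Y) (w : X → ℝ) (F : X → X → X → X → ℝ) :
    ev (P4 q' q) w (fun x => F (x 3) (x 2) (x 1) (x 0)) =
      gm w fun S => cE w q' (fun v => cE w q (fun y => gm w (F S v y)) S) S := by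
  have e1 : ev (P4 q' q) w (fun x => F (x 3) (x 2) (x 1) (x 0)) =
      ev (((Plan.nil.fr).gi q' 0).gi q 1) w fun x => gm w (F (x 2) (x 1) (x 0)) := by
    show ev (Plan.cons _ _ _) w _ = _
    rw [ev_cons]
    refine ev_congr _ _ fun x => ?_
    rw [gm_eq_av]
    rfl
  have e2 : ev (((Plan.nil.fr).gi q' 0).gi q 1) w (fun x => gm w (F (x 2) (x 1) (x 0))) =
      ev ((Plan.nil.fr).gi q' 0) w fun x => cE w q (fun y => gm w (F (x 1) (x 0) y)) (x 1) := by
    show ev (Plan.cons _ _ _) w _ = _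
    rw [ev_cons]
    refine ev_congr _ _ fun x => ?_
    rw [cE_eq_av]
    rfl
  have e3 : ev ((Plan.nil.fr).gi q' 0) w (fun x => cE w q (fun y => gm w (F (x 1) (x 0) y)) (x 1)) =
      ev (Plan.nil.fr) w fun x => cE w q' (fun v => cE w q (fun y => gm w (F (x 0) v y)) (x 0)) (x 0) := by
    show ev (Plan.cons _ _ _) w _ = _
    rw [ev_cons]
    refine ev_congr _ _ fun x => ?_
    rw [cE_eq_av]
    rfl
  have e4 : ev (Plan.nil.fr) w (fun x => cE w q' (fun v => cE w q (fun y => gm w (F (x 0) v y)) (x 0)) (x 0)) =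
      gm w fun S => cE w q' (fun v => cE w q (fun y => gm w (F S v y)) S) S := by
    show ev (Plan.cons _ _ _) w _ = _
    rw [ev_cons, ev_nil, gm_eq_av]
    rfl
  rw [e1, e2, e3, e4]

theorem marg_P4 (q' : X → Y') (q : X → Y) : Pool.W7d29a1.C0.H7.Marg (P4 q' q) :=
  ((((Pool.W7d29a1.C0.H7.Marg.nil).fr).gi q' 0).gi q 1).fr

/-- Two conditional averages may be exchanged. -/
theorem cE_comm (w : X → ℝ) (q' : X → Y') (q : X → Y) (K : X → X → ℝ) (S T : X) :
    cE w q' (fun v => cE w q (fun y => K y v) T) S = cE w q (fun y => cE w q' (fun v => K y v) S) T := by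
  unfold cE
  simp only [div_eq_mul_inv, Finset.sum_mul, Finset.mul_sum]
  have e1 : ∀ v : X, (if q' v = q' S then Real.exp (w v) * ∑ y, (if q y = q T then Real.exp (w y) * K y v else 0) * (fz w q T)⁻¹
      else 0) * (fz w q' S)⁻¹ = ∑ y, (if q' v = q' S then (if q y = q T then Real.exp (w v) * Real.exp (w y) * K y v *
        (fz w q T)⁻¹ * (fz w q' S)⁻¹ else 0) else 0) := fun v => by
    split_ifs with h
    · rw [Finset.mul_sum, Finset.sum_mul]
      refine Finset.sum_congr rfl fun y _ => ?_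
      split_ifs
      · ring
      · ring
    · rw [zero_mul, Finset.sum_const_zero]
  have e2 : ∀ y : X, (if q y = q T then Real.exp (w y) * ∑ v, (if q' v = q' S then Real.exp (w v) * K y v else 0) * (fz w q' S)⁻¹
      else 0) * (fz w q T)⁻¹ = ∑ v, (if q' v = q' S then (if q y = q T then Real.exp (w v) * Real.exp (w y) * K y v *
        (fz w q T)⁻¹ * (fz w q' S)⁻¹ else 0) else 0) := fun y => by
    split_ifs with h
    · rw [Finset.mul_sum, Finset.sum_mul]
      refine Finset.sum_congr rfl fun v _ => ?_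
      split_ifs
      · ring
      · ring
    · rw [zero_mul]
      exact (Finset.sum_eq_zero fun v _ => by split_ifs <;> rfl).symm
  simp only [Finset.mul_sum] at e1 e2
  rw [Finset.sum_congr rfl fun v _ => e1 v, Finset.sum_congr rfl fun y _ => e2 y]
  exact Finset.sum_comm

end Abs

/-! ### The term of the own block -/

variable {Q : Finset (Finset ℕ)} [SwQ Q] [Nonempty (Px Q)]

/-- The observable of the four replicas. -/
def psi4 (bm al be bp c : ℕ) (F G f : Px Q → ℝ) (x : Fin 4 → Px Q) : ℝ :=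
  F (x 3) * ((G (x 1) - G (x 2)) * NM bm al be bp (x 1) (x 2)) * ((f (x 3) - f (x 0)) * NI bp c (x 3) (x 0))

variable {w : Px Q → ℝ} {bm al be bp c : ℕ} {F G f : Px Q → ℝ}

/-- **The own pair, exact**: given the outside of the block against given what is behind the block. -/
theorem own_eq4 (h1 : bm ≤ al) (h2 : al ≤ be) (h3 : be ≤ bp) (hw : Wk bm al be bp w) (hG : Lk al be G) (S : Px Q) :
    cE w (pJ bm bp) G S - cE w (pJ 0 bp) G S =
      cE w (pJ 0 bp) (fun v => cE w (pJ bm bp) (fun y => (G y - G v) * NM bm al be bp y v) S) S := by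
  have hcr := crs_B (Q := Q) (h1.trans (h2.trans h3))
  have e := congrFun (mic_fib h2 hw hG hcr) S
  have e1 : (fun T => G T - cE w (pJ 0 bp) G T) = G - cE w (pJ 0 bp) G := rfl
  rw [e1, cE_sub, Pi.sub_apply, cE_of_meas w (Mp.of_crs hcr (cE_meas w (pJ 0 bp) G))] at e
  rw [e, cE_comm w (pJ 0 bp) (pJ bm bp) (fun y v => (G y - G v) * NM bm al be bp y v) S S]
  refine cE_congr_fib fun z hz => ?_
  rw [cE_meas w (pJ 0 bp) (fun v => (G z - G v) * NM bm al be bp z v) S z (hcr _ _ hz).symm]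
  congr 1
  funext v
  ring

/-- **THE PLAN OF FOUR REPLICAS, exact.** -/
theorem plan4 (h1 : bm ≤ al) (h2 : al ≤ be) (h3 : be ≤ bp) (h4 : bp ≤ c) (hw : Wk bm al be bp w) (hw1 : Hd bp bp w)
    (hw2 : Hd bp c w) (hF : Lk 0 bp F) (hG : Lk al be G) (hf : Rk c f) :
    ev (P4 (pJ 0 bp) (pJ bm bp)) w (psi4 bm al be bp c F G f) =
      gc w (cC w (pJ 0 bp) (cE w (pJ bm bp) F) (cE w (pJ bm bp) G)) f := by
  have hB : bm ≤ bp := h1.trans (h2.trans h3)
  have hcr := crs_B (Q := Q) hB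
  obtain ⟨H, hH⟩ : ∃ H : Px Q → ℝ, H = fun S => gm w fun S' => (f S - f S') * NI bp c S S' := ⟨_, rfl⟩
  have hHm : Mp (pJ 0 bp) H := by
    rw [hH]
    exact mp_far (w := w) h4 hf fun t => t
  obtain ⟨K, hK⟩ : ∃ K : Px Q → ℝ, K = cE w (pJ bm bp) G - cE w (pJ 0 bp) G := ⟨_, rfl⟩
  have hKm : Mp (pJ bm bp) K := by
    rw [hK]
    exact (cE_meas _ _ _).sub (Mp.of_crs hcr (cE_meas _ _ _))
  have hG0 : Lk 0 bp G := Lk_mono (Nat.zero_le _) h3 hG
  have hKl : Lk 0 bp K := by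
    rw [hK]
    exact Lk_sub (Lk_blk hw1 hB hG0) (Lk_mono (Nat.zero_le _) le_rfl (markov_cE hw1 hG0))
  have e1 : ev (P4 (pJ 0 bp) (pJ bm bp)) w (psi4 bm al be bp c F G f) = gm w fun S => F S * (K S * H S) := by
    refine (ev_P4 (pJ 0 bp) (pJ bm bp) w (fun S v y S' =>
      F S * ((G y - G v) * NM bm al be bp y v) * ((f S - f S') * NI bp c S S'))).trans ?_
    congr 1
    funext S
    have h5 : ∀ v y : Px Q, gm w (fun S' => F S * ((G y - G v) * NM bm al be bp y v) * ((f S - f S') * NI bp c S S')) =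
        ((G y - G v) * NM bm al be bp y v) * (F S * H S) := fun v y => by
      rw [gm_const_mul, hH]
      ring
    have h6 : (fun v => cE w (pJ bm bp) (fun y =>
        gm w fun S' => F S * ((G y - G v) * NM bm al be bp y v) * ((f S - f S') * NI bp c S S')) S) =
        fun v => cE w (pJ bm bp) (fun y => (G y - G v) * NM bm al be bp y v) S * (F S * H S) := funext fun v => by
      rw [← cE_mul_const]
      congr 1
      funext y
      exact h5 v y
    rw [h6, cE_mul_const, ← own_eq4 h1 h2 h3 hw hG S, hK, Pi.sub_apply]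
    ring
  have hU : Lk 0 bp (cE w (pJ 0 bp) (F * K)) := Lk_mono (Nat.zero_le _) le_rfl (markov_cE hw1 (Lk_mul hF hKl))
  have e2 : cC w (pJ 0 bp) (cE w (pJ bm bp) F) (cE w (pJ bm bp) G) = cE w (pJ 0 bp) (F * K) := by
    have a1 : cE w (pJ 0 bp) (cE w (pJ bm bp) F) = cE w (pJ 0 bp) F := cE_tower w hcr F
    have a2 : cE w (pJ 0 bp) (cE w (pJ bm bp) G) = cE w (pJ 0 bp) G := cE_tower w hcr G
    have a3 : cE w (pJ 0 bp) (F * K) = cE w (pJ 0 bp) (cE w (pJ bm bp) F * K) := by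
      rw [← cE_tower w hcr (F * K), mul_comm F K, cE_pull w hKm, mul_comm]
    rw [a3, hK, mul_sub, cE_sub, mul_comm (cE w (pJ bm bp) F) (cE w (pJ 0 bp) G), cE_pull w (cE_meas w (pJ 0 bp) G), a1]
    unfold cC
    rw [a1, a2]
    ring
  rw [e1, e2, ← gc_eq_far hw2 hU hf]
  have e3 : (fun S => F S * (K S * H S)) = H * (F * K) := by
    funext S
    rw [Pi.mul_apply, Pi.mul_apply]
    ring
  have e4 : (fun S => cE w (pJ 0 bp) (F * K) S * gm w fun S' => (f S - f S') * NI bp c S S') = H * cE w (pJ 0 bp) (F * K) := by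
    funext S
    rw [Pi.mul_apply, hH]
    ring
  rw [e3, e4, gm_mul_cE w hHm]

/-- The functional of the own block is the plan. -/
theorem fT72_eq_ev4 (h1 : bm ≤ al) (h2 : al ≤ be) (h3 : be ≤ bp) (h4 : bp ≤ c) (hw : Wk bm al be bp w) (hw1 : Hd bp bp w)
    (hw2 : Hd bp c w) (hF : Lk 0 bp F) (hG : Lk al be G) (hf : Rk c f) :
    fT72 (pJ 0 bp) (pJ bm bp) F G f w = ev (P4 (pJ 0 bp) (pJ bm bp)) w (psi4 bm al be bp c F G f) :=
  (plan4 h1 h2 h3 h4 hw hw1 hw2 hF hG hf).symm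

/-- **The derivative of the term along `C`**: an insertion in the plan. `C` keeps the swaps. -/
theorem hasDerivAt_T4 (h1 : bm ≤ al) (h2 : al ≤ be) (h3 : be ≤ bp) (h4 : bp ≤ c) (hw : Wk bm al be bp w) (hw1 : Hd bp bp w)
    (hw2 : Hd bp c w) {C : Px Q → ℝ} (hC : Wk bm al be bp C) (hC1 : Hd bp bp C) (hC2 : Hd bp c C) (hF : Lk 0 bp F)
    (hG : Lk al be G) (hf : Rk c f) (t : ℝ) :
    HasDerivAt (fun t : ℝ => gc (w + t • C) (cC (w + t • C) (pJ 0 bp) (cE (w + t • C) (pJ bm bp) F)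
        (cE (w + t • C) (pJ bm bp) G)) f)
      (ins (P4 (pJ 0 bp) (pJ bm bp)) (w + t • C) C (psi4 bm al be bp c F G f)) t := by
  have e : (fun t : ℝ => gc (w + t • C) (cC (w + t • C) (pJ 0 bp) (cE (w + t • C) (pJ bm bp) F)
        (cE (w + t • C) (pJ bm bp) G)) f) =
      fun t : ℝ => ev (P4 (pJ 0 bp) (pJ bm bp)) (w + t • C) (psi4 bm al be bp c F G f) := by
    funext t
    exact (plan4 h1 h2 h3 h4 (hw.add (hC.smul t)) (Wk.add hw1 (Wk.smul hC1 t)) (Wk.add hw2 (Wk.smul hC2 t)) hF hG hf).symm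
  rw [e]
  exact hasDerivAt_ev (gline w C t) _ _

/-- **THE BRIDGE**: the derivative in a direction which keeps the swaps is the insertion. -/
theorem dT72_eq_ins4 (h1 : bm ≤ al) (h2 : al ≤ be) (h3 : be ≤ bp) (h4 : bp ≤ c) (hw : Wk bm al be bp w) (hw1 : Hd bp bp w)
    (hw2 : Hd bp c w) {C : Px Q → ℝ} (hC : Wk bm al be bp C) (hC1 : Hd bp bp C) (hC2 : Hd bp c C) (hF : Lk 0 bp F)
    (hG : Lk al be G) (hf : Rk c f) :
    dT72 (pJ 0 bp) (pJ bm bp) F G f w C = ins (P4 (pJ 0 bp) (pJ bm bp)) w C (psi4 bm al be bp c F G f) := by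
  have a1 := hasDerivAt_T4 h1 h2 h3 h4 hw hw1 hw2 hC hC1 hC2 hF hG hf 0
  have a2 := hasDerivAt_fT72 (hasDerivAt_line w C 0) (pJ 0 bp) (pJ bm bp) F G f
  have a3 := a2.unique a1
  rwa [zero_smul, add_zero] at a3

/-! ### The bound -/

/-- Given what is behind the row `d`, apart on one side of the window means apart in front of it. -/
theorem NM_le_NI {cc d : ℕ} (h2 : al ≤ be) (h3 : be ≤ d) {y v : Px Q} (e : ps y d = ps v d) : NM cc al be d y v ≤ NI cc al y v := by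
  unfold NM NI
  by_cases h6 : ∀ k, cc ≤ k → k ≤ al → ps y k ≠ ps v k
  · rw [if_pos h6]
    split_ifs <;> norm_num
  · rw [if_neg h6]
    push Not at h6
    obtain ⟨k, k1, k2, k3⟩ := h6
    rw [if_pos]
    exact ⟨⟨k, k1, k2, k3⟩, ⟨d, h3, le_rfl, e⟩⟩

/-- The absolute value of the observable. -/
theorem abs_psi4_le {M M' : ℝ} (hM : ∀ S, |F S| ≤ M) (hM' : ∀ S, |G S| ≤ M') (x : Fin 4 → Px Q) :
    |psi4 bm al be bp c F G f x| ≤ 2 * (M * M') * (NM bm al be bp (x 1) (x 2) * kf bp c f (x 3) (x 0)) := by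
  unfold psi4 kf
  have hM0 : 0 ≤ M := (abs_nonneg _).trans (hM (x 3))
  rw [abs_mul, abs_mul, abs_mul, abs_mul, abs_of_nonneg (NM_nonneg bm al be bp (x 1) (x 2)),
    abs_of_nonneg (NI_nonneg bp c (x 3) (x 0))]
  have a1 : |G (x 1) - G (x 2)| ≤ 2 * M' := (abs_sub _ _).trans (by linarith [hM' (x 1), hM' (x 2)])
  have a2 : |F (x 3)| * |G (x 1) - G (x 2)| ≤ M * (2 * M') := mul_le_mul (hM _) a1 (abs_nonneg _) hM0
  have a3 : 0 ≤ NM bm al be bp (x 1) (x 2) * (|f (x 3) - f (x 0)| * NI bp c (x 3) (x 0)) :=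
    mul_nonneg (NM_nonneg _ _ _ _ _ _) (mul_nonneg (abs_nonneg _) (NI_nonneg _ _ _ _))
  calc |F (x 3)| * (|G (x 1) - G (x 2)| * NM bm al be bp (x 1) (x 2)) * (|f (x 3) - f (x 0)| * NI bp c (x 3) (x 0))
      = |F (x 3)| * |G (x 1) - G (x 2)| * (NM bm al be bp (x 1) (x 2) * (|f (x 3) - f (x 0)| * NI bp c (x 3) (x 0))) := by ring
    _ ≤ M * (2 * M') * (NM bm al be bp (x 1) (x 2) * (|f (x 3) - f (x 0)| * NI bp c (x 3) (x 0))) :=
        mul_le_mul_of_nonneg_right a2 a3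
    _ = _ := by ring

/-- The mass of the own pair is at most the pair given `pJ 0 bp` apart on `[bm, al]`. -/
theorem ev_NM4_le (h2 : al ≤ be) (h3 : be ≤ bp) (hB : bm ≤ bp) :
    ev (P4 (pJ 0 bp) (pJ bm bp)) w (fun x => NM bm al be bp (x 1) (x 2) * kf bp c f (x 3) (x 0)) ≤
      Pk w (kf bp c f) (cE w (pJ bm bp) (mI w (pJ 0 bp) bm al)) := by
  have hcr := crs_B (Q := Q) hB
  refine (ev_P4 (pJ 0 bp) (pJ bm bp) w (fun S v y S' => NM bm al be bp y v * kf bp c f S S')).le.trans ?_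
  unfold Pk
  rw [← gm_gm_eq_PP]
  refine gm_mono' w fun S => ?_
  have e1 : ∀ v y : Px Q, gm w (fun S' => NM bm al be bp y v * kf bp c f S S') = NM bm al be bp y v * gm w (kf bp c f S) :=
    fun v y => gm_const_mul w _ _
  have e2 : (fun v => cE w (pJ bm bp) (fun y => gm w fun S' => NM bm al be bp y v * kf bp c f S S') S) =
      fun v => cE w (pJ bm bp) (fun y => NM bm al be bp y v) S * gm w (kf bp c f S) := funext fun v => by
    rw [← cE_mul_const]
    congr 1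
    funext y
    exact e1 v y
  rw [e2, cE_mul_const, gm_const_mul]
  refine mul_le_mul_of_nonneg_right ?_ ?_
  · rw [cE_comm w (pJ 0 bp) (pJ bm bp) (fun y v => NM bm al be bp y v) S S]
    refine Pool.W7d29a1.C0.R90.cE_mono_fib w (pJ bm bp) S fun y hy => ?_
    have e3 : cE w (pJ 0 bp) (fun v => NM bm al be bp y v) S = cE w (pJ 0 bp) (fun v => NM bm al be bp y v) y :=
      cE_meas w (pJ 0 bp) (fun v => NM bm al be bp y v) S y (hcr _ _ hy).symm
    rw [e3]
    unfold mI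
    exact Pool.W7d29a1.C0.R90.cE_mono_fib w (pJ 0 bp) y fun v hv => NM_le_NI h2 h3 (ps_of_ge hv le_rfl).symm
  · have h0 := gm_mono' w (h := fun _ => (0 : ℝ)) (k := kf bp c f S) fun S' => kf_nonneg _ _ _ _ _
    have h1 : gm w (fun _ : Px Q => (0 : ℝ)) = 0 := by
      have := gm_const_mul w 0 (fun _ : Px Q => (0 : ℝ))
      simpa using this
    rwa [h1] at h0

/-- **THE MASS OF THE TERM**: at most `2 M M'` times the own event told from one path. -/
theorem ev_abs_psi4 (h2 : al ≤ be) (h3 : be ≤ bp) (hB : bm ≤ bp) {M M' : ℝ} (hM : ∀ S, |F S| ≤ M) (hM' : ∀ S, |G S| ≤ M') :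
    ev (P4 (pJ 0 bp) (pJ bm bp)) w (fun x => |psi4 bm al be bp c F G f x|) ≤
      2 * (M * M') * Pk w (kf bp c f) (cE w (pJ bm bp) (mI w (pJ 0 bp) bm al)) := by
  have hM0 : 0 ≤ M := (abs_nonneg _).trans (hM (Classical.arbitrary _))
  have hM1 : 0 ≤ M' := (abs_nonneg _).trans (hM' (Classical.arbitrary _))
  refine (ev_mono _ _ fun x => abs_psi4_le hM hM' x).trans ?_
  rw [ev_smul]
  exact mul_le_mul_of_nonneg_left (ev_NM4_le h2 h3 hB) (by positivity)

/-- The plan is a block plan (helper13). -/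
theorem bp_P4 {N y : ℕ} [Nonempty (Px (Pn N y))] {bm bp : ℕ} (hB : bm ≤ bp) (hbp : bp ≤ N) :
    Pool.Agent.W_7d29a1_C0.F13.BP N y (P4 (X := Px (Pn N y)) (pJ 0 bp) (pJ bm bp)) :=
  (((Pool.Agent.W_7d29a1_C0.F13.BP.nil.fr).gi (Nat.zero_le _) hbp 0).gi hB hbp 1).fr

end

end Pool.Agent.W_7d29a1_C0.T72
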