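import Pool.Agent.W_7d29a1_C0.Clock85

/-!
CURV0 (MP_7d29a1_pr), E8 = the class of laws, THE EXACT CLOCK. `pb t m r` is the probability that the sum of `m` independent
Bernoulli variables with the parameters `t 0, …, t (m - 1)` is `< r` (Poisson binomial law). With `π_m = pb τ m R` as the factor
of the row `m` of the slab the field `C = Σ_m (1/R) E[g π_m | behind row m] τ_m` satisfies `E[C | Q] = E[g (1 - ε) | Q]` for every
`Q` behind the slab, `0 ≤ ε ≤ exp(R - Θ/2)`, `Θ = Σ_m τ_m` the clock of the path (`cE_clock`, `clk_eps`). (helper85)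
-/

set_option autoImplicit false
set_option linter.unusedSectionVars false
set_option linter.unusedVariables false

namespace Pool.W7d29a1.C0.T85

open Finset Pool.W7d29a1.C0.H19 Pool.W7d29a1.C0.VT31

noncomputable section

/-- The distribution function of the Poisson binomial law. -/
def pb (t : ℕ → ℝ) : ℕ → ℕ → ℝ
  | _, 0 => 0
  | 0, _ + 1 => 1
  | m + 1, r + 1 => (1 - t m) * pb t m (r + 1) + t m * pb t m r

theorem pb_zero (t : ℕ → ℝ) (m : ℕ) : pb t m 0 = 0 := by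
  cases m <;> rfl

theorem pb_start (t : ℕ → ℝ) (r : ℕ) : pb t 0 (r + 1) = 1 := rfl

theorem pb_succ (t : ℕ → ℝ) (m r : ℕ) : pb t (m + 1) (r + 1) = (1 - t m) * pb t m (r + 1) + t m * pb t m r := rfl

theorem pb_nn {t : ℕ → ℝ} (h0 : ∀ i, 0 ≤ t i) (h1 : ∀ i, t i ≤ 1) : ∀ m r : ℕ, 0 ≤ pb t m r
  | m, 0 => by rw [pb_zero]
  | 0, r + 1 => zero_le_one
  | m + 1, r + 1 => by
    rw [pb_succ]
    exact add_nonneg (mul_nonneg (sub_nonneg.2 (h1 m)) (pb_nn h0 h1 m (r + 1))) (mul_nonneg (h0 m) (pb_nn h0 h1 m r))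

theorem pb_le_one {t : ℕ → ℝ} (h0 : ∀ i, 0 ≤ t i) (h1 : ∀ i, t i ≤ 1) : ∀ m r : ℕ, pb t m r ≤ 1
  | m, 0 => by rw [pb_zero]; exact zero_le_one
  | 0, r + 1 => le_rfl
  | m + 1, r + 1 => by
    rw [pb_succ]
    have a := mul_le_mul_of_nonneg_left (pb_le_one h0 h1 m (r + 1)) (sub_nonneg.2 (h1 m))
    have b := mul_le_mul_of_nonneg_left (pb_le_one h0 h1 m r) (h0 m)
    linarith

/-- The clock only sees the rows before. -/
theorem pb_congr {t t' : ℕ → ℝ} : ∀ {m : ℕ}, (∀ i < m, t i = t' i) → ∀ r, pb t m r = pb t' m r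
  | m, _, 0 => by rw [pb_zero, pb_zero]
  | 0, _, r + 1 => rfl
  | m + 1, h, r + 1 => by
    rw [pb_succ, pb_succ, h m (Nat.lt_succ_self m), pb_congr (fun i hi => h i (Nat.lt_succ_of_lt hi)) (r + 1),
      pb_congr (fun i hi => h i (Nat.lt_succ_of_lt hi)) r]

/-- **The exact clock**: `E min(Θ_m, R) = Σ_{i<m} P(Θ_i < R) t_i = R - Σ_{r=1..R} P(Θ_m < r)`. -/
theorem pb_sum (t : ℕ → ℝ) (R : ℕ) : ∀ m : ℕ,
    ∑ i ∈ range m, pb t i R * t i = R - ∑ r ∈ range R, pb t m (r + 1)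
  | 0 => by simp [pb_start]
  | m + 1 => by
    rw [Finset.sum_range_succ, pb_sum t R m]
    have e : ∀ R : ℕ, ∑ r ∈ range R, pb t (m + 1) (r + 1) = ∑ r ∈ range R, pb t m (r + 1) - t m * pb t m R := by
      intro R
      induction R with
      | zero => simp [pb_zero]
      | succ R ih =>
        rw [Finset.sum_range_succ, Finset.sum_range_succ, ih, pb_succ]
        ring
    rw [e R]
    ring

/-- Chernoff. -/
theorem pb_exp {t : ℕ → ℝ} (h0 : ∀ i, 0 ≤ t i) (h1 : ∀ i, t i ≤ 1) : ∀ m r : ℕ,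
    pb t m r ≤ Real.exp (r - (∑ i ∈ range m, t i) / 2)
  | m, 0 => by rw [pb_zero]; exact (Real.exp_pos _).le
  | 0, r + 1 => by
    rw [pb_start]
    refine Real.one_le_exp ?_
    simp only [range_zero, sum_empty, zero_div, sub_zero]
    positivity
  | m + 1, r + 1 => by
    have a := pb_exp h0 h1 m (r + 1)
    have b := pb_exp h0 h1 m r
    set s : ℝ := (∑ i ∈ range m, t i) / 2 with hs
    rw [pb_succ, Finset.sum_range_succ]
    have e1 : Real.exp (r - s) ≤ Real.exp ((r + 1 : ℕ) - s) / 2 := by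
      have h2 : Real.exp ((r + 1 : ℕ) - s) = Real.exp 1 * Real.exp (r - s) := by
        rw [← Real.exp_add]
        push_cast
        ring_nf
      have h3 : (2 : ℝ) ≤ Real.exp 1 := by
        have := Real.add_one_le_exp (1 : ℝ)
        linarith
      rw [h2]
      have := mul_le_mul_of_nonneg_right h3 (Real.exp_pos (r - s)).le
      linarith
    have e2 : Real.exp ((r + 1 : ℕ) - (∑ i ∈ range m, t i + t m) / 2) =
        Real.exp ((r + 1 : ℕ) - s) * Real.exp (-(t m / 2)) := by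
      rw [← Real.exp_add, hs]
      ring_nf
    rw [e2]
    have e3 := Real.add_one_le_exp (-(t m / 2))
    have hE := Real.exp_pos ((r + 1 : ℕ) - s)
    calc (1 - t m) * pb t m (r + 1) + t m * pb t m r
        ≤ (1 - t m) * Real.exp ((r + 1 : ℕ) - s) + t m * (Real.exp ((r + 1 : ℕ) - s) / 2) :=
          add_le_add (mul_le_mul_of_nonneg_left a (sub_nonneg.2 (h1 m))) (mul_le_mul_of_nonneg_left (b.trans e1) (h0 m))
      _ = Real.exp ((r + 1 : ℕ) - s) * (-(t m / 2) + 1) := by ring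
      _ ≤ _ := mul_le_mul_of_nonneg_left e3 hE.le

theorem pb_mono {t : ℕ → ℝ} (h0 : ∀ i, 0 ≤ t i) (h1 : ∀ i, t i ≤ 1) : ∀ m r : ℕ, pb t m r ≤ pb t m (r + 1)
  | 0, 0 => by rw [pb_zero, pb_start]; exact zero_le_one
  | 0, r + 1 => by rw [pb_start, pb_start]
  | m + 1, 0 => by rw [pb_zero]; exact pb_nn h0 h1 _ _
  | m + 1, r + 1 => by
    rw [pb_succ, pb_succ]
    exact add_le_add (mul_le_mul_of_nonneg_left (pb_mono h0 h1 m (r + 1)) (sub_nonneg.2 (h1 m)))
      (mul_le_mul_of_nonneg_left (pb_mono h0 h1 m r) (h0 m))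

/-! ### The clocked field -/

section Field

variable {X : Type*} [Fintype X] [Nonempty X] {Y Y' : Type*} [DecidableEq Y] [DecidableEq Y']

/-- The defect of the clock: `E (R - Θ_L)_+ / R`. -/
def eps (t : ℕ → X → ℝ) (L R : ℕ) : X → ℝ := fun x => (∑ r ∈ range R, pb (fun i => t i x) L (r + 1)) / R

/-- The factor of the row `m`. -/
def pim (t : ℕ → X → ℝ) (R m : ℕ) : X → ℝ := fun x => pb (fun i => t i x) m R

/-- The clocked field of the slab with the rows `0, …, L - 1`; `q m` is everything behind the row `m`. -/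
def Cck (w : X → ℝ) (q : ℕ → X → Y) (t : ℕ → X → ℝ) (R L : ℕ) (g : X → ℝ) : X → ℝ :=
  (R : ℝ)⁻¹ • ∑ m ∈ range L, cE w (q m) (g * pim t R m) * t m

theorem eps_nn {t : ℕ → X → ℝ} (h0 : ∀ i x, 0 ≤ t i x) (h1 : ∀ i x, t i x ≤ 1) (L R : ℕ) (x : X) : 0 ≤ eps t L R x :=
  div_nonneg (Finset.sum_nonneg fun r _ => pb_nn (fun i => h0 i x) (fun i => h1 i x) L (r + 1)) (Nat.cast_nonneg R)

/-- **The defect of the clock is exponentially small** once the clock of the path has passed `4 R`. -/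
theorem eps_le {t : ℕ → X → ℝ} (h0 : ∀ i x, 0 ≤ t i x) (h1 : ∀ i x, t i x ≤ 1) (L R : ℕ) (x : X) :
    eps t L R x ≤ Real.exp (R - (∑ i ∈ range L, t i x) / 2) := by
  unfold eps
  refine div_le_of_le_mul₀ (Nat.cast_nonneg R) (Real.exp_pos _).le ?_
  refine (Finset.sum_le_card_nsmul _ _ (Real.exp (R - (∑ i ∈ range L, t i x) / 2)) fun r hr => ?_).trans_eq ?_
  · refine (pb_exp (fun i => h0 i x) (fun i => h1 i x) L (r + 1)).trans (Real.exp_le_exp.2 ?_)
    have : ((r + 1 : ℕ) : ℝ) ≤ R := by exact_mod_cast (mem_range.1 hr)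
    linarith
  · rw [card_range, nsmul_eq_mul, mul_comm]

theorem eps_le_one {t : ℕ → X → ℝ} (h0 : ∀ i x, 0 ≤ t i x) (h1 : ∀ i x, t i x ≤ 1) (L R : ℕ) (x : X) :
    eps t L R x ≤ 1 := by
  unfold eps
  refine div_le_of_le_mul₀ (Nat.cast_nonneg R) zero_le_one ?_
  refine (Finset.sum_le_card_nsmul _ _ 1 fun r hr => pb_le_one (fun i => h0 i x) (fun i => h1 i x) L (r + 1)).trans_eq ?_
  rw [card_range, nsmul_eq_mul, mul_comm]

theorem pim_sum {t : ℕ → X → ℝ} {L R : ℕ} (hR : R ≠ 0) :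
    (R : ℝ)⁻¹ • ∑ m ∈ range L, pim t R m * t m = 1 - eps t L R := by
  funext x
  have e := pb_sum (fun i => t i x) R L
  have hR' : (R : ℝ) ≠ 0 := Nat.cast_ne_zero.2 hR
  rw [Pi.smul_apply, Finset.sum_apply, Pi.sub_apply, Pi.one_apply, smul_eq_mul]
  have e1 : ∑ m ∈ range L, (pim t R m * t m) x = ∑ i ∈ range L, pb (fun i => t i x) i R * t i x := rfl
  rw [e1, e]
  unfold eps
  field_simp

/-- **The exact clock for the conditional means**: `E[C | Q] = E[g (1 - ε) | Q]` for every `Q` behind the slab. -/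
theorem cE_clock (w : X → ℝ) {q : ℕ → X → Y} {t : ℕ → X → ℝ} {L R : ℕ} (hR : R ≠ 0) (ht : ∀ m < L, Mp (q m) (t m))
    {Q : X → Y'} (hQ : ∀ m < L, Crs Q (q m)) (g : X → ℝ) :
    cE w Q (Cck w q t R L g) = cE w Q (g * (1 - eps t L R)) := by
  unfold Cck
  rw [cE_smul, cE_sum]
  have e1 : ∀ m ∈ range L, cE w Q (cE w (q m) (g * pim t R m) * t m) = cE w Q (g * (pim t R m * t m)) := fun m hm => by
    have hm' := mem_range.1 hm
    have e2 : cE w (q m) (g * pim t R m) * t m = cE w (q m) (g * (pim t R m * t m)) := by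
      have e3 : g * (pim t R m * t m) = t m * (g * pim t R m) := by ring
      rw [e3, cE_pull w (ht m hm'), mul_comm]
    rw [e2, cE_tower w (hQ m hm')]
  rw [Finset.sum_congr rfl e1, ← cE_sum, ← cE_smul, ← Finset.mul_sum, ← pim_sum (t := t) (L := L) hR]
  congr 1
  rw [mul_smul_comm]

/-- The error of the clocked field. -/
theorem cE_clock_err (w : X → ℝ) {q : ℕ → X → Y} {t : ℕ → X → ℝ} {L R : ℕ} (hR : R ≠ 0) (ht : ∀ m < L, Mp (q m) (t m))
    {Q : X → Y'} (hQ : ∀ m < L, Crs Q (q m)) (g : X → ℝ) :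
    cE w Q (g - Cck w q t R L g) = cE w Q (g * eps t L R) := by
  rw [cE_sub, cE_clock w hR ht hQ, ← cE_sub]
  congr 1
  ring

/-- The mean of the clocked field. -/
theorem gm_clock (w : X → ℝ) {q : ℕ → X → Y} {t : ℕ → X → ℝ} {L R : ℕ} (hR : R ≠ 0) (ht : ∀ m < L, Mp (q m) (t m))
    (g : X → ℝ) : gm w (Cck w q t R L g) = gm w (g * (1 - eps t L R)) := by
  obtain ⟨x⟩ := (inferInstance : Nonempty X)
  have e := congrFun (cE_clock w hR ht (Q := fun _ : X => ()) (fun m _ x x' _ => rfl) g) x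
  rwa [gm_eq_cE, gm_eq_cE] at e

/-- The covariance with a function of the far side. -/
theorem gc_clock (w : X → ℝ) {q : ℕ → X → Y} {t : ℕ → X → ℝ} {L R : ℕ} (hR : R ≠ 0) (ht : ∀ m < L, Mp (q m) (t m))
    {Q : X → Y'} (hQ : ∀ m < L, Crs Q (q m)) (g : X → ℝ) {h : X → ℝ} (hh : Mp Q h) :
    gc w (Cck w q t R L g) h = gc w (g * (1 - eps t L R)) h := by
  unfold gc
  have e1 : gm w (Cck w q t R L g * h) = gm w (g * (1 - eps t L R) * h) := by
    rw [mul_comm, ← gm_mul_cE w hh, cE_clock w hR ht hQ, gm_mul_cE w hh, mul_comm]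
  rw [e1, gm_clock w hR ht]

end Field

end

end Pool.W7d29a1.C0.T85
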