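import Pool.Agent.W_7d29a1_C0.Blk86
import Pool.Agent.W_7d29a1_C0.Tg93

/-!
CURV0 (MP_7d29a1_pr), leaf (T): THE PRICES IN THE MODEL. `Q1_multG`, `pl_prodG`: the product price of helper86 (`PP86`, `Blk86`) for any
weights `h i` between `0` and `1` which are at most `exp (L ^ κ)` times the conditional mass of the event of the place `i`: the conditional
masses, and the indicators of the events that this mass is not very small. `prc93`: the same in the model `Mod92` under `Pm`, for blocks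
`[0, z i)` (the replica agrees with the base path behind the row `z i`), windows `[u i, v i]` without meeting and a meeting in
`[v i, d i]`, ordered from right to left: `d i' < u i` for `i < i'`. Price: the product of the `N ^ ε / EE' (t i)`, `t i / 4 ≤ v i - u i`.
(helper93)
-/

set_option autoImplicit false
set_option linter.unusedSectionVars false
set_option linter.unusedVariables false

namespace Pool.Agent.W_7d29a1_C0.T93

open MeasureTheory ProbabilityTheory Filter Topology Finset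
open Pool.Agent.W_7d29a1_F Pool.Agent.W_7d29a1_X Pool.Agent.W_7d29a1_h4g Pool.Agent.W_7d29a1_H
open Pool.Agent.W_7d29a1_HS (In wd md)
open Pool.Agent.W_7d29a1_HZ Pool.Agent.W_7d29a1_HZ.R72 Pool.Agent.W_7d29a1_Z.Asm72
open Pool.Agent.W_7d29a1_HZ.Z86
open Pool.Agent.W_7d29a1_C0.Mod92
open Pool.Agent.W_7d29a1_C0.P86
open Pool.Agent.W_7d29a1_C0.Blk18 (gm_Pn)
open Pool.Agent.W_7d29a1_C0.Swap57 (NI NI_nonneg)
open Pool.W7d29a1.C0 (gz gm gz_pos PP PP_eq)
open Pool.W7d29a1.C0.VT31 (Mp cE fz fz_pos cE_mono cE_nonneg cE_one gm_eq_cE)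
open scoped ENNReal

variable {μ : Measure ℝ} {s : ℝ} {N : ℕ}

/-! ### The product price for general weights -/

/-- The product of weights against the events `NT`. -/
theorem Q1_multG [IsProbabilityMeasure μ] {y k : ℕ} (hy : y ≤ N) (c d : Fin k → ℕ) (hcd : ∀ i, c i ≤ d i ∧ d i ≤ N)
    (A : Fin k → Finset ℕ → Finset ℕ → Prop) (hA : ∀ i, On2 (c i) (d i) (A i)) (NT : Fin k → Env → Finset ℕ → Prop)
    (hms : ∀ i, Ms (NT i)) {F : Env → Finset ℕ → Prop} (hF : Ms F) (x x' : ℝ) {h : Fin k → Env → Finset ℕ → ℝ≥0∞}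
    (h1 : ∀ i η S, h i η S ≤ 1)
    (h2 : ∀ i η S, S ⊆ range N → pos S N = (y : ℤ) →
      h i η S ≤ ENNReal.ofReal (Real.exp x') * ENNReal.ofReal (mc μ s N y (c i) (d i) (A i) η S)) :
    Q1 μ s N y (fun η S => P86.ind (F η S) * ∏ i, h i η S) ≤
      P1 μ s N y (fun η S => F η S ∧ ∀ i, NT i η S) +
        ∑ i, ENNReal.ofReal (Real.exp x') * (ENNReal.ofReal (Real.exp x) *
          P2 μ s N y (fun _ => 0) (fun η S S' => A i S' S ∧ ¬ NT i η S') +
          ENNReal.ofReal (((N : ℝ) + 1) ^ 2 * Real.exp (-x))) := by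
  classical
  have hm : ∀ S' : Finset ℕ, Measurable fun η : Env => ENNReal.ofReal (gp μ s η N y S') := fun S' =>
    (Pool.Agent.W_7d29a1_HZ.measurable_gp N y S').ennreal_ofReal
  have e0 : Q1 μ s N y (fun η S => P86.ind (F η S) * ∏ i, h i η S) ≤
      Q1 μ s N y (fun η S => P86.ind (F η S ∧ ∀ i, NT i η S) + ∑ i ∈ (univ : Finset (Fin k)), ENNReal.ofReal (Real.exp x') *
        (ENNReal.ofReal (Real.exp x) * ((∑ S' ∈ (range N).powerset, ENNReal.ofReal (gp μ s η N y S') * P86.ind (A i S S')) *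
          P86.ind (¬ NT i η S)) + P86.ind (Ge μ s N y (c i) (d i) η S ≤ Real.exp (-x)))) := by
    refine Q1_mono fun η S hS hSy => ?_
    by_cases hNT : ∀ i, NT i η S
    · refine le_trans ?_ le_self_add
      by_cases hFS : F η S
      · rw [P86.ind_of hFS, P86.ind_of ⟨hFS, hNT⟩, one_mul]
        exact prod_le_one' fun i _ => h1 i η S
      · rw [ind_not hFS, zero_mul]
        exact zero_le
    · push Not at hNT
      obtain ⟨i, hi⟩ := hNT
      refine le_trans ?_ le_add_self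
      refine le_trans ?_ (single_le_sum (f := fun i => ENNReal.ofReal (Real.exp x') * (ENNReal.ofReal (Real.exp x) *
        ((∑ S' ∈ (range N).powerset, ENNReal.ofReal (gp μ s η N y S') * P86.ind (A i S S')) *
          P86.ind (¬ NT i η S)) + P86.ind (Ge μ s N y (c i) (d i) η S ≤ Real.exp (-x)))) (fun _ _ => zero_le) (mem_univ i))
      have h3 : P86.ind (F η S) * ∏ i, h i η S ≤ h i η S := by
        refine (mul_le_of_le_one_left zero_le (ind_le _)).trans ?_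
        rw [← mul_prod_erase univ _ (mem_univ i)]
        exact mul_le_of_le_one_right zero_le (prod_le_one' fun i _ => h1 i η S)
      refine h3.trans ((h2 i η S hS hSy).trans (mul_le_mul' le_rfl ?_))
      refine (mc_le hy (hcd i).1 (hcd i).2 (hA i) x η hS hSy).trans ?_
      rw [P86.ind_of hi, mul_one]
  refine e0.trans ?_
  have hms1 : ∀ S, Measurable fun η : Env => P86.ind (F η S ∧ ∀ i, NT i η S) := fun S => meas_ind ((ms_and hF (ms_all hms)) S)
  have hms2 : ∀ i S, Measurable fun η : Env => (∑ S' ∈ (range N).powerset, ENNReal.ofReal (gp μ s η N y S') * P86.ind (A i S S')) *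
      P86.ind (¬ NT i η S) := fun i S =>
    (Finset.measurable_sum _ fun S' _ => (hm S').mul_const _).mul (meas_ind ((hms i S).compl))
  have hms3 : ∀ i S, Measurable fun η : Env => P86.ind (Ge μ s N y (c i) (d i) η S ≤ Real.exp (-x)) := fun i S => by
    refine meas_ind (measurableSet_le ?_ measurable_const)
    unfold Ge
    exact Finset.measurable_sum _ fun S' _ => (Pool.Agent.W_7d29a1_HZ.measurable_gp N y S').mul_const _
  have hms4 : ∀ i S, Measurable fun η : Env => ENNReal.ofReal (Real.exp x) *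
      ((∑ S' ∈ (range N).powerset, ENNReal.ofReal (gp μ s η N y S') * P86.ind (A i S S')) *
      P86.ind (¬ NT i η S)) + P86.ind (Ge μ s N y (c i) (d i) η S ≤ Real.exp (-x)) := fun i S => ((hms2 i S).const_mul _).add (hms3 i S)
  have hU := Q1_sum (μ := μ) (s := s) (N := N) (y := (y : ℤ)) (univ : Finset (Fin k)) (f := fun i η S =>
    ENNReal.ofReal (Real.exp x') * (ENNReal.ofReal (Real.exp x) *
      ((∑ S' ∈ (range N).powerset, ENNReal.ofReal (gp μ s η N y S') * P86.ind (A i S S')) *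
      P86.ind (¬ NT i η S)) + P86.ind (Ge μ s N y (c i) (d i) η S ≤ Real.exp (-x)))) (fun i S => (hms4 i S).const_mul _)
  rw [Q1_add hms1, Q1_ind (ms_and hF (ms_all hms)), hU]
  refine add_le_add le_rfl (sum_le_sum fun i _ => ?_)
  have hcm : ∀ (a : ℝ≥0∞) (f : Env → Finset ℕ → ℝ≥0∞), (∀ S, Measurable fun η => f η S) →
      Q1 μ s N y (fun η S => a * f η S) = a * Q1 μ s N y f := by
    intro a f hf
    unfold Q1
    rw [← lintegral_const_mul]
    · refine lintegral_congr fun η => ?_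
      rw [mul_sum]
      exact sum_congr rfl fun S _ => by ring
    · exact Finset.measurable_sum _ fun S _ => (hm S).mul (hf S)
  rw [hcm _ _ (hms4 i), Q1_add fun S => (hms2 i S).const_mul _]
  refine mul_le_mul' le_rfl (add_le_add ?_ ?_)
  · rw [hcm _ _ (hms2 i), Q1_pair (B := fun η S => ¬ NT i η S) fun S => (hms i S).compl, P2_comm]
  · unfold Q1
    refine (lintegral_mono fun η => sum_Ge ((hcd i).1.trans (hcd i).2) (hcd i).2 η (Real.exp_pos _).le).trans ?_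
    rw [lintegral_const, measure_univ, mul_one]

/-- **THE PRODUCT PRICE FOR PLACES, general weights.** -/
theorem pl_prodG [IsProbabilityMeasure μ] (k : ℕ) {c₁ : ℝ} (hc₁ : 0 < c₁) : ∃ κ c₂ : ℝ, 0 < κ ∧ 0 < c₂ ∧ ∃ L₀ : ℕ, ∀ L : ℕ, L₀ ≤ L →
    ∀ N y : ℕ, N ≤ L → y ≤ N → ∀ (r : Fin k → ℝ≥0∞) (A : Fin k → Finset ℕ → Finset ℕ → Prop) (J V : Fin k → Finset ℕ)
    (c d : Fin k → ℕ), (∀ i, Pl μ s N y (r i) (ENNReal.ofReal (Real.exp (-(L : ℝ) ^ c₁))) (A i) (J i) (V i)) →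
    (∀ i i', i < i' → Disjoint (J i) (V i')) → (∀ i, c i ≤ d i ∧ d i ≤ N) → (∀ i, On2 (c i) (d i) (A i)) →
    ∀ F : Env → Finset ℕ → Prop, Ms F → (∀ i, OffRows (J i) F) → ∀ h : Fin k → Env → Finset ℕ → ℝ≥0∞, (∀ i η S, h i η S ≤ 1) →
    (∀ i η S, S ⊆ range N → pos S N = (y : ℤ) →
      h i η S ≤ ENNReal.ofReal (Real.exp ((L : ℝ) ^ κ)) * ENNReal.ofReal (mc μ s N y (c i) (d i) (A i) η S)) →
    Q1 μ s N y (fun η S => P86.ind (F η S) * ∏ i, h i η S) ≤
      (∏ i, r i) * P1 μ s N y F + ENNReal.ofReal (Real.exp (-(L : ℝ) ^ c₂)) := by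
  obtain ⟨c₂, hc₂, -, L₂, hX⟩ := Pool.Agent.W_7d29a1_Z.NumI77.pow_exp (show 0 < c₁ / 4 by positivity) 4
  obtain ⟨L₃, hL₃⟩ := Pool.Agent.W_7d29a1_Z.NumI77.large (show 0 < c₁ / 4 by positivity) 2
  refine ⟨c₁ / 4, c₂, by positivity, hc₂, L₂ + L₃ + 3 * k + 10, ?_⟩
  intro L hL N y hNL hyN r A J V c d hPl hJV hcd hA F hF hFo h h1 hh2
  have hL10 : (10 : ℝ) ≤ L := by exact_mod_cast (show 10 ≤ L by omega)
  have hL0 : (0 : ℝ) < L := by linarith
  have hkL : 3 * (k : ℝ) ≤ L := by exact_mod_cast (show 3 * k ≤ L by omega)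
  choose NT n1 n2 n4 n5 using hPl
  set u : ℝ := (L : ℝ) ^ (c₁ / 4) with hu
  obtain ⟨-, hu2, -⟩ := hL₃ L (by omega)
  have hu0 : 0 ≤ u := by positivity
  have hmul := Q1_multG (μ := μ) (s := s) hyN c d hcd A hA NT n1 hF (u ^ 2) u h1 hh2
  refine hmul.trans ?_
  have hpr := prodP (μ := μ) (s := s) (N := N) (y := y) k NT J r (ENNReal.ofReal (Real.exp (-(L : ℝ) ^ c₁))) n1 (fun i => n5 i)
    (fun i i' hi => n2 i' _ (hJV i i' hi)) F hF hFo
  have hE : Real.exp (-(L : ℝ) ^ c₁) ≤ Real.exp (-(4 * u ^ 2)) := by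
    rw [Real.exp_le_exp]
    have e1 : (L : ℝ) ^ c₁ = u ^ 4 := by
      rw [hu, ← Real.rpow_natCast, ← Real.rpow_mul hL0.le]
      congr 1
      push_cast
      ring
    rw [e1]
    have e2 : u ^ 4 = u ^ 2 * u ^ 2 := by ring
    have e3 : 4 ≤ u ^ 2 := by nlinarith
    rw [e2]
    nlinarith [sq_nonneg u]
  have h3 : ∀ i, ENNReal.ofReal (Real.exp u) * (ENNReal.ofReal (Real.exp (u ^ 2)) *
      P2 μ s N y (fun _ => 0) (fun η S S' => A i S' S ∧ ¬ NT i η S') + ENNReal.ofReal (((N : ℝ) + 1) ^ 2 * Real.exp (-u ^ 2))) ≤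
      ENNReal.ofReal ((((N : ℝ) + 1) ^ 2 + 1) * Real.exp (-u)) := by
    intro i
    have h4 : P2 μ s N y (fun _ => 0) (fun η S S' => A i S' S ∧ ¬ NT i η S') ≤ ENNReal.ofReal (Real.exp (-(4 * u ^ 2))) :=
      (n4 i).trans (ENNReal.ofReal_le_ofReal hE)
    refine (mul_le_mul' le_rfl (add_le_add (mul_le_mul' le_rfl h4) le_rfl)).trans ?_
    rw [← ENNReal.ofReal_mul (Real.exp_pos _).le, ← Real.exp_add, ← ENNReal.ofReal_add (Real.exp_pos _).le (by positivity),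
      ← ENNReal.ofReal_mul (Real.exp_pos _).le]
    refine ENNReal.ofReal_le_ofReal ?_
    have e1 : Real.exp u * Real.exp (u ^ 2 + -(4 * u ^ 2)) ≤ Real.exp (-u) := by
      rw [← Real.exp_add, Real.exp_le_exp]
      nlinarith
    have e2 : Real.exp u * Real.exp (-u ^ 2) ≤ Real.exp (-u) := by
      rw [← Real.exp_add, Real.exp_le_exp]
      nlinarith
    have e3 : 0 ≤ ((N : ℝ) + 1) ^ 2 := by positivity
    calc Real.exp u * (Real.exp (u ^ 2 + -(4 * u ^ 2)) + ((N : ℝ) + 1) ^ 2 * Real.exp (-u ^ 2))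
        = Real.exp u * Real.exp (u ^ 2 + -(4 * u ^ 2)) + ((N : ℝ) + 1) ^ 2 * (Real.exp u * Real.exp (-u ^ 2)) := by ring
      _ ≤ Real.exp (-u) + ((N : ℝ) + 1) ^ 2 * Real.exp (-u) := add_le_add e1 (mul_le_mul_of_nonneg_left e2 e3)
      _ = _ := by ring
  refine (add_le_add hpr (sum_le_sum fun i _ => h3 i)).trans ?_
  rw [sum_const, card_univ, Fintype.card_fin, nsmul_eq_mul, add_assoc]
  refine add_le_add le_rfl ?_
  have e2 : (k : ℝ≥0∞) = ENNReal.ofReal k := by rw [ENNReal.ofReal_natCast]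
  rw [e2, ← ENNReal.ofReal_mul (by positivity), ← ENNReal.ofReal_mul (by positivity), ← ENNReal.ofReal_add (by positivity) (by positivity)]
  refine ENNReal.ofReal_le_ofReal ?_
  have hN0 : (0 : ℝ) ≤ N := Nat.cast_nonneg N
  have hNL' : (N : ℝ) ≤ L := by exact_mod_cast hNL
  have h5 := hX L (by omega)
  rw [← hu] at h5
  have e4 : (L : ℝ) ^ (4 : ℝ) = (L : ℝ) ^ 4 := by
    rw [← Real.rpow_natCast]
    norm_num
  rw [e4] at h5
  refine le_trans ?_ h5
  have h6 : Real.exp (-(L : ℝ) ^ c₁) ≤ Real.exp (-u) := hE.trans (Real.exp_le_exp.2 (by nlinarith))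
  have hk0 : (0 : ℝ) ≤ k := Nat.cast_nonneg k
  have hp0 := (Real.exp_pos (-u)).le
  calc (k : ℝ) * Real.exp (-(L : ℝ) ^ c₁) + k * ((((N : ℝ) + 1) ^ 2 + 1) * Real.exp (-u))
      ≤ k * Real.exp (-u) + k * ((((L : ℝ) + 1) ^ 2 + 1) * Real.exp (-u)) := by gcongr
    _ = (k * (((L : ℝ) + 1) ^ 2 + 2)) * Real.exp (-u) := by ring
    _ ≤ (L : ℝ) ^ 4 * Real.exp (-u) := by
        refine mul_le_mul_of_nonneg_right ?_ hp0
        have h7 : ((L : ℝ) + 1) ^ 2 + 2 ≤ 2 * (L : ℝ) ^ 2 := by nlinarith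
        have h8 : (k : ℝ) * (((L : ℝ) + 1) ^ 2 + 2) ≤ L * (2 * (L : ℝ) ^ 2) := by
          refine mul_le_mul (by linarith) h7 (by positivity) hL0.le
        have h9 : L * (2 * (L : ℝ) ^ 2) ≤ (L : ℝ) ^ 4 := by
          have e5 : L * (2 * (L : ℝ) ^ 2) = 2 * (L : ℝ) ^ 3 := by ring
          have e6 : (L : ℝ) ^ 4 = L * (L : ℝ) ^ 3 := by ring
          rw [e5, e6]
          exact mul_le_mul_of_nonneg_right (by linarith) (by positivity)
        exact h8.trans h9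

/-! ### The kernel of a window with a meeting behind it -/

section Ker

variable {Q : Finset (Finset ℕ)}

open Classical in
/-- The two paths do not meet in `[u, v]`, and meet in `[v, d]`. -/
noncomputable def Kb (u v d : ℕ) (S S' : Px Q) : ℝ :=
  if (∀ k, u ≤ k → k ≤ v → ps S k ≠ ps S' k) ∧ ∃ b', v ≤ b' ∧ b' ≤ d ∧ ps S b' = ps S' b' then 1 else 0

theorem Kb_nonneg (u v d : ℕ) (S S' : Px Q) : 0 ≤ Kb u v d S S' := by
  unfold Kb
  split_ifs <;> norm_num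

theorem Kb_le_one (u v d : ℕ) (S S' : Px Q) : Kb u v d S S' ≤ 1 := by
  unfold Kb
  split_ifs <;> norm_num

/-- No meeting in the window: a meeting behind it, or a longer gap. -/
theorem NI_le_Kb (u v d : ℕ) (S S' : Px Q) : NI u v S S' ≤ Kb u v d S S' + NI v d S S' := by
  classical
  unfold NI Kb
  by_cases h1 : ∀ k, u ≤ k → k ≤ v → ps S k ≠ ps S' k
  · by_cases h2 : ∃ b', v ≤ b' ∧ b' ≤ d ∧ ps S b' = ps S' b'
    · rw [if_pos h1, if_pos ⟨h1, h2⟩]
      split_ifs <;> norm_num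
    · have h3 : ∀ k, v ≤ k → k ≤ d → ps S k ≠ ps S' k := fun k hk hk' he => h2 ⟨k, hk, hk', he⟩
      rw [if_pos h1, if_pos h3]
      split_ifs <;> norm_num
  · rw [if_neg h1]
    split_ifs <;> norm_num

/-- Monotonicity on one fibre. -/
theorem cE_mono_fib {X Y : Type*} [Fintype X] [Nonempty X] [DecidableEq Y] (w : X → ℝ) (p : X → Y) {f g : X → ℝ} {x : X}
    (h : ∀ z, p z = p x → f z ≤ g z) : cE w p f x ≤ cE w p g x := by
  unfold cE
  refine div_le_div_of_nonneg_right (sum_le_sum fun z _ => ?_) (fz_pos w p x).le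
  split_ifs with hz
  · exact mul_le_mul_of_nonneg_left (h z hz) (Real.exp_pos _).le
  · exact le_rfl

/-- In the block `[0, z)` the paths meet at `z`. -/
theorem NI_le_Kb_z [Nonempty (Px Q)] (w : Px Q → ℝ) {u v z : ℕ} (hv : v ≤ z) (S : Px Q) :
    cE w (pJ 0 z) (NI u v S) S ≤ cE w (pJ 0 z) (Kb u v z S) S := by
  classical
  refine cE_mono_fib w _ fun S' hS' => ?_
  unfold NI Kb
  by_cases h1 : ∀ k, u ≤ k → k ≤ v → ps S k ≠ ps S' k
  · rw [if_pos h1, if_pos ⟨h1, z, hv, le_rfl, ps_of_ge hS'.symm le_rfl⟩]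
  · rw [if_neg h1]
    split_ifs <;> norm_num

end Ker

theorem bk_on2 {c d t τ z : ℕ} (hz : d ≤ z) : On2 c z (Bk c d t τ) := by
  have key : ∀ S S' S'' : Finset ℕ, (∀ i, c ≤ i → i ≤ z → pos S' i = pos S'' i) → Bk c d t τ S S' → Bk c d t τ S S'' := by
    rintro S S' S'' h ⟨a, b', h1, h2, h3, h4, h5, h6, h7⟩
    refine ⟨a, b', h1, h2, h3, h4, ?_, ?_, fun k hk1 hk2 => ?_⟩
    · rw [h5, h a h1 (by omega)]
    · rw [h6, h b' (by omega) (by omega)]
    · rw [← h k (by omega) (by omega)]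
      exact h7 k hk1 hk2
  exact fun S S' S'' h => ⟨key S S' S'' h, key S S'' S' fun i h1 h2 => (h i h1 h2).symm⟩

/-- The kernel mass against the conditional mass of the place. -/
theorem Kb_mc {y z u v d t : ℕ} (hyN : y ≤ N) (huv : u + t / 4 ≤ v) (η : Env) (x : Px (Pn N y)) :
    cE (lw μ s η N (Pn N y)) (pJ 0 z) (Kb u v d x) x ≤ mc μ s N y 0 z (Bk 0 d t u) η x.1 := by
  classical
  have := ne_Pn (N := N) (y := y) hyN
  unfold mc
  rw [dif_pos x.2]
  refine cE_mono _ _ (fun S' => ?_) x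
  unfold Kb
  by_cases h : (∀ k, u ≤ k → k ≤ v → ps x k ≠ ps S' k) ∧ ∃ b', v ≤ b' ∧ b' ≤ d ∧ ps x b' = ps S' b'
  · rw [if_pos h]
    obtain ⟨h1, b', h2, h3, h4⟩ := h
    rw [if_pos]
    exact ⟨0, b', le_rfl, Nat.zero_le _, by omega, h3, by rw [pos_zero, pos_zero], h4, fun k hk1 hk2 => h1 k hk1 (by omega)⟩
  · rw [if_neg h]
    split_ifs <;> norm_num

/-! ### From the outer space to the law of the environment -/

/-- The Bochner integral against the lower integral. -/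
theorem ofReal_int_le {Ω : Type*} [MeasurableSpace Ω] {P : Measure Ω} {Φ : Ω → ℝ} (h0 : ∀ ω, 0 ≤ Φ ω) :
    ENNReal.ofReal (∫ ω, Φ ω ∂P) ≤ ∫⁻ ω, ENNReal.ofReal (Φ ω) ∂P := by
  by_cases h : AEStronglyMeasurable Φ P
  · by_cases hi : Integrable Φ P
    · rw [ofReal_integral_eq_lintegral_ofReal hi (Filter.Eventually.of_forall h0)]
    · rw [integral_undef hi, ENNReal.ofReal_zero]
      exact zero_le
  · rw [integral_undef fun hi => h hi.1, ENNReal.ofReal_zero]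
    exact zero_le

/-- The mean over the signs is at most the largest value. -/
theorem lint_Pm_le [IsProbabilityMeasure μ] {Φ : Env × Finset ℕ → ℝ≥0∞} {Ψ : Env → ℝ≥0∞} (h : ∀ ω, Φ ω ≤ Ψ ω.1) :
    ∫⁻ ω, Φ ω ∂(Pm μ N) ≤ ∫⁻ η, Ψ η ∂(law μ) := by
  unfold Pm
  rw [lintegral_smul_measure, lintegral_finsetSum_measure]
  have h1 : ∀ A ∈ (range N).powerset, ∫⁻ ω, Φ ω ∂((law μ).map fun η : Env => (η, A)) ≤ ∫⁻ η, Ψ η ∂(law μ) := fun A _ =>
    (lintegral_map_le Φ (fun η : Env => (η, A))).trans (lintegral_mono fun η => h (η, A))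
  calc (2 ^ N : ℝ≥0∞)⁻¹ • ∑ A ∈ (range N).powerset, ∫⁻ ω, Φ ω ∂((law μ).map fun η : Env => (η, A))
      ≤ (2 ^ N : ℝ≥0∞)⁻¹ • ∑ A ∈ (range N).powerset, ∫⁻ η, Ψ η ∂(law μ) := by
        rw [smul_eq_mul, smul_eq_mul]
        exact mul_le_mul' le_rfl (sum_le_sum h1)
    _ = ∫⁻ η, Ψ η ∂(law μ) := by
        rw [sum_const, card_powerset, card_range, nsmul_eq_mul, smul_eq_mul, ← mul_assoc]
        push_cast
        rw [ENNReal.inv_mul_cancel (by positivity) (by finiteness), one_mul]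

/-- **The bridge**: a Gibbs mean of a product of weights under `Pm` against `Q1`. -/
theorem int_gm_le_Q1 [IsProbabilityMeasure μ] {y k : ℕ} (hyN : y ≤ N) {H : Fin k → Env × Finset ℕ → Px (Pn N y) → ℝ}
    (H0 : ∀ i ω x, 0 ≤ H i ω x) {h : Fin k → Env → Finset ℕ → ℝ≥0∞}
    (hH : ∀ i ω (x : Px (Pn N y)), ENNReal.ofReal (H i ω x) ≤ h i ω.1 x.1) :
    ENNReal.ofReal (∫ ω, gm (wm μ s N (Pn N y) ω) (fun x => ∏ i, H i ω x) ∂(Pm μ N)) ≤
      Q1 μ s N y fun η S => ∏ i, h i η S := by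
  classical
  have := ne_Pn (N := N) (y := y) hyN
  have h0 : ∀ ω, 0 ≤ gm (wm μ s N (Pn N y) ω) (fun x => ∏ i, H i ω x) := fun ω => by
    unfold gm
    exact div_nonneg (sum_nonneg fun x _ => mul_nonneg (Real.exp_pos _).le (prod_nonneg fun i _ => H0 i ω x)) (gz_pos _).le
  refine (ofReal_int_le h0).trans (lint_Pm_le fun ω => ?_)
  -- one environment
  set G : Finset ℕ → ℝ := fun S => if hS : S ∈ Pn N y then ∏ i, H i ω ⟨S, hS⟩ else 0 with hG
  have e1 : (fun x : Px (Pn N y) => ∏ i, H i ω x) = fun x => G x.1 := by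
    funext x
    rw [hG]
    dsimp only
    rw [dif_pos x.2]
  have e2 : wm μ s N (Pn N y) ω = lw μ s ω.1 N (Pn N y) := rfl
  rw [e1, e2, gm_Pn]
  have hn : ∀ S, 0 ≤ gp μ s ω.1 N y S := fun S => Pool.Agent.W_7d29a1_HZ.gp_nonneg ω.1 N y S
  have hG0 : ∀ S, 0 ≤ G S := fun S => by
    rw [hG]
    dsimp only
    split_ifs
    · exact prod_nonneg fun i _ => H0 i ω _
    · exact le_rfl
  rw [ENNReal.ofReal_sum_of_nonneg fun S _ => mul_nonneg (hn S) (hG0 S)]
  refine sum_le_sum fun S _ => ?_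
  rw [ENNReal.ofReal_mul (hn S)]
  refine mul_le_mul' le_rfl ?_
  rw [hG]
  dsimp only
  split_ifs with hS
  · rw [ENNReal.ofReal_prod_of_nonneg fun i _ => H0 i ω _]
    exact prod_le_prod' fun i _ => hH i ω ⟨S, hS⟩
  · rw [ENNReal.ofReal_zero]
    exact zero_le

/-! ### The price in the model -/

theorem EE'_pos (μ : Measure ℝ) (s : ℝ) (t : ℕ) : 0 < EE' μ s t := lt_of_lt_of_le zero_lt_one (le_max_left _ _)

/-- **THE PRODUCT PRICE IN THE MODEL**: base path `x`, blocks `[0, z i)`, windows `[u i, v i]` from right to left, the replica meets the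
base path again in `[v i, d i]`. -/
theorem prc93 [IsProbabilityMeasure μ] {c₀ C₀ : ℝ} {n₀ : ℕ} (hin : In μ s c₀ C₀ n₀) (k : ℕ) : ∀ ε θ : ℝ, 0 < ε → 0 < θ →
    ∃ δ κ c' : ℝ, 0 < δ ∧ 0 < κ ∧ 0 < c' ∧ ∃ N₀ : ℕ, ∀ N : ℕ, N₀ ≤ N → ∀ y : ℕ, y ≤ N →
    |(y : ℝ) - sl μ s * N| ≤ (N : ℝ) ^ δ * wd' μ s N → ∀ t u v d z : Fin k → ℕ, (∀ i, (N : ℝ) ^ θ ≤ t i ∧ t i ≤ N) →
    (∀ i, u i + t i / 4 ≤ v i ∧ v i ≤ d i ∧ d i ≤ z i ∧ z i ≤ N) → (∀ i i', i < i' → d i' < u i) →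
    ∀ H : Fin k → Env × Finset ℕ → Px (Pn N y) → ℝ, (∀ i ω x, 0 ≤ H i ω x) → (∀ i ω x, H i ω x ≤ 1) →
    (∀ i ω x, H i ω x ≤ Real.exp ((N : ℝ) ^ κ) * cE (wm μ s N (Pn N y) ω) (pJ 0 (z i)) (Kb (u i) (v i) (d i) x) x) →
    ∫ ω, gm (wm μ s N (Pn N y) ω) (fun x => ∏ i, H i ω x) ∂(Pm μ N) ≤
      ∏ i, ((N : ℝ) ^ ε * (EE' μ s (t i))⁻¹) + Real.exp (-(N : ℝ) ^ c') := by
  intro ε θ hε hθ
  obtain ⟨δ, c₁, hδ, hc₁, L₁, hB⟩ := pl_blk hin ε θ hε hθ
  obtain ⟨κ, c₂, hκ, hc₂, L₂, hP⟩ := pl_prodG (μ := μ) (s := s) k hc₁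
  refine ⟨δ, κ, c₂, hδ, hκ, hc₂, L₁ + L₂ + 1, ?_⟩
  intro N hN y hyN hyc t u v d z ht huv hord H H0 H1 H2
  have := ne_Pn (N := N) (y := y) hyN
  have hyN' : (y : ℤ) ≤ N := by exact_mod_cast hyN
  have hpl : ∀ i, Pl μ s N y (ENNReal.ofReal ((N : ℝ) ^ ε * (EE' μ s (t i))⁻¹)) (ENNReal.ofReal (Real.exp (-(N : ℝ) ^ c₁)))
      (Bk 0 (d i) (t i) (u i)) (Ico (u i) (d i)) (Ioc 0 (d i)) := fun i => by
    have h := huv i
    exact hB N (by omega) N (t i) (by omega) le_rfl (ht i).1 (ht i).2 y (by positivity) hyN' (by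
      push_cast
      exact hyc) (u i) 0 (d i) (Nat.zero_le _) (by omega)
  set h : Fin k → Env → Finset ℕ → ℝ≥0∞ := fun i η S =>
    min 1 (ENNReal.ofReal (Real.exp ((N : ℝ) ^ κ)) * ENNReal.ofReal (mc μ s N y 0 (z i) (Bk 0 (d i) (t i) (u i)) η S)) with hh
  have key := hP N (by omega) N y le_rfl hyN (fun i => ENNReal.ofReal ((N : ℝ) ^ ε * (EE' μ s (t i))⁻¹))
    (fun i => Bk 0 (d i) (t i) (u i)) (fun i => Ico (u i) (d i)) (fun i => Ioc 0 (d i)) (fun _ => 0) z hpl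
    (fun i i' hi => by
      have := hord i i' hi
      rw [disjoint_left]
      intro j hj hj'
      rw [mem_Ico] at hj
      rw [mem_Ioc] at hj'
      omega)
    (fun i => ⟨Nat.zero_le _, (huv i).2.2.2⟩) (fun i => bk_on2 (huv i).2.2.1) (fun _ _ => True)
    (fun S => by
      have e : {η : Env | True} = Set.univ := by
        ext
        simp
      rw [e]
      exact MeasurableSet.univ)
    (fun i η η' S _ => Iff.rfl) h (fun i η S => min_le_left _ _) (fun i η S _ _ => min_le_right _ _)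
  have hbr := int_gm_le_Q1 (μ := μ) (s := s) hyN H0 (h := h) (fun i ω x => by
    rw [hh]
    dsimp only
    refine le_min ?_ ?_
    · rw [← ENNReal.ofReal_one]
      exact ENNReal.ofReal_le_ofReal (H1 i ω x)
    · rw [← ENNReal.ofReal_mul (Real.exp_pos _).le]
      refine ENNReal.ofReal_le_ofReal ((H2 i ω x).trans (mul_le_mul_of_nonneg_left ?_ (Real.exp_pos _).le))
      exact Kb_mc hyN (huv i).1 ω.1 x)
  have e1 : Q1 μ s N y (fun η S => P86.ind True * ∏ i, h i η S) = Q1 μ s N y (fun η S => ∏ i, h i η S) := by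
    unfold Q1
    refine lintegral_congr fun η => sum_congr rfl fun S _ => ?_
    dsimp only
    rw [P86.ind_of trivial, one_mul]
  rw [e1] at key
  have hp1 : P1 μ s N y (fun _ _ => True) ≤ 1 := Pool.Agent.W_7d29a1_HZ.P1_le_one (by positivity) hyN' _
  have hr0 : ∀ i, 0 ≤ (N : ℝ) ^ ε * (EE' μ s (t i))⁻¹ := fun i => by
    have := EE'_pos μ s (t i)
    positivity
  have hfin : ENNReal.ofReal (∫ ω, gm (wm μ s N (Pn N y) ω) (fun x => ∏ i, H i ω x) ∂(Pm μ N)) ≤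
      ENNReal.ofReal (∏ i, ((N : ℝ) ^ ε * (EE' μ s (t i))⁻¹) + Real.exp (-(N : ℝ) ^ c₂)) := by
    refine hbr.trans (key.trans ?_)
    rw [ENNReal.ofReal_add (prod_nonneg fun i _ => hr0 i) (Real.exp_pos _).le, ENNReal.ofReal_prod_of_nonneg fun i _ => hr0 i]
    exact add_le_add (mul_le_of_le_one_right zero_le hp1) le_rfl
  exact (ENNReal.ofReal_le_ofReal_iff (add_nonneg (prod_nonneg fun i _ => hr0 i) (Real.exp_pos _).le)).1 hfin

end Pool.Agent.W_7d29a1_C0.T93
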