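import Pool.Agent.W_7d29a1_C0.PT93
import Pool.Agent.W_7d29a1_C0.Rob43B

/-!
CURV0 (MP_7d29a1_pr), leaf (T), PRICES, part 2. The passage from the pair event `Tau` (helper43, `Rob43B`) to the events
`rpI` = the base path has, given what is behind a row, an alternative which does not meet it in a small piece (`gm_tau1`, `gm_tau2`), and
the prices with two, three and five windows (`prc2`, `prc3`, `prc5`), from right to left: outer pair, own loop and micro tie of the right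
row, own loop and micro tie of the left row. (helper93)
-/

set_option autoImplicit false
set_option linter.unusedSectionVars false
set_option linter.unusedVariables false

namespace Pool.Agent.W_7d29a1_C0.T93

open MeasureTheory ProbabilityTheory Filter Topology Finset
open Pool.Agent.W_7d29a1_F Pool.Agent.W_7d29a1_X Pool.Agent.W_7d29a1_h4g Pool.Agent.W_7d29a1_H
open Pool.Agent.W_7d29a1_HS (In wd md)
open Pool.Agent.W_7d29a1_HZ
open Pool.Agent.W_7d29a1_C0.Mod92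
open Pool.W7d29a1.C0 (gz gm gz_pos gm_mono gm_add gm_smul gm_const gm_nonneg PP PP_eq)
open Pool.W7d29a1.C0.VT31 (Mp cE fz fz_pos cE_mono cE_nonneg cE_one gm_eq_cE)
open Pool.W7d29a1.C0.R43 (Tau Rp mI mI_nonneg st tau_rp swP_pJ MxQ)
open Pool.Agent.W_7d29a1_C0.Swap57 (NI NI_nonneg cE2)

noncomputable section

variable {μ : Measure ℝ} {s : ℝ} {N y : ℕ}

/-! ### Sums -/

section Gen

variable {X : Type*} [Fintype X] [Nonempty X]

theorem gm_sum93 {ι : Type*} (w : X → ℝ) (I : Finset ι) (F : ι → X → ℝ) :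
    gm w (fun x => ∑ i ∈ I, F i x) = ∑ i ∈ I, gm w (F i) := by
  unfold gm
  rw [← sum_div, sum_comm]
  congr 1
  exact sum_congr rfl fun x _ => mul_sum _ _ _

theorem abs_gm93 (w : X → ℝ) {f : X → ℝ} {M : ℝ} (hf : ∀ x, |f x| ≤ M) : |gm w f| ≤ M := by
  have h1 : gm w f ≤ M := (gm_mono w (g := fun _ => M) fun x => (abs_le.1 (hf x)).2).trans (gm_const w M).le
  have h2 : -M ≤ gm w f := (gm_const w (-M)).symm.le.trans (gm_mono w (f := fun _ => -M) fun x => (abs_le.1 (hf x)).1)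
  exact abs_le.2 ⟨h2, h1⟩

/-- One event is replaced by a union of others, up to a small mass. -/
theorem gm_rep {w : X → ℝ} {F T E : X → ℝ} {n : ℕ} {R : ℕ → X → ℝ} (F0 : ∀ x, 0 ≤ F x) (F1 : ∀ x, F x ≤ 1)
    (h : ∀ x, T x ≤ ∑ i ∈ range n, R i x + E x) (E0 : ∀ x, 0 ≤ E x) {e : ℝ} (he : gm w E ≤ e) :
    gm w (fun x => F x * T x) ≤ ∑ i ∈ range n, gm w (fun x => F x * R i x) + e := by
  have h1 : ∀ x, F x * T x ≤ ∑ i ∈ range n, F x * R i x + E x := fun x => by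
    have := mul_le_mul_of_nonneg_left (h x) (F0 x)
    rw [mul_add, mul_sum] at this
    exact this.trans (add_le_add le_rfl (mul_le_of_le_one_left (E0 x) (F1 x)))
  refine (gm_mono w h1).trans ?_
  have e1 : gm w (fun x => ∑ i ∈ range n, F x * R i x + E x) = gm w (fun x => ∑ i ∈ range n, F x * R i x) + gm w E :=
    gm_add w _ _
  rw [e1, gm_sum93]
  exact add_le_add le_rfl he

end Gen

/-! ### The events of one row -/

open Classical in
/-- The indicator of the pair event: given what is behind `m`, pairs do not meet in `[i, L]` with mass at least `exp (- 5 M)`. -/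
def tauI (w : Px (Pn N y) → ℝ) (m i L : ℕ) (M : ℝ) (x : Px (Pn N y)) : ℝ := if Tau w (pJ 0 m) i L M x then 1 else 0

open Classical in
/-- The indicator: given what is behind `m`, the path has an alternative which does not meet it in `[u, v]`, of mass more than
`exp (- 7 M)`. -/
def rpI (w : Px (Pn N y) → ℝ) (m u v : ℕ) (M : ℝ) (x : Px (Pn N y)) : ℝ :=
  if Real.exp (-(7 * M)) < cE w (pJ 0 m) (NI u v x) x then 1 else 0

theorem tauI_nonneg (w : Px (Pn N y) → ℝ) (m i L : ℕ) (M : ℝ) (x : Px (Pn N y)) : 0 ≤ tauI w m i L M x := by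
  unfold tauI
  split_ifs <;> norm_num

theorem tauI_le_one (w : Px (Pn N y) → ℝ) (m i L : ℕ) (M : ℝ) (x : Px (Pn N y)) : tauI w m i L M x ≤ 1 := by
  unfold tauI
  split_ifs <;> norm_num

theorem rpI_nonneg (w : Px (Pn N y) → ℝ) (m u v : ℕ) (M : ℝ) (x : Px (Pn N y)) : 0 ≤ rpI w m u v M x := by
  unfold rpI
  split_ifs <;> norm_num

theorem rpI_le_one (w : Px (Pn N y) → ℝ) (m u v : ℕ) (M : ℝ) (x : Px (Pn N y)) : rpI w m u v M x ≤ 1 := by
  unfold rpI
  split_ifs <;> norm_num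

theorem rpI_le [Nonempty (Px (Pn N y))] (w : Px (Pn N y) → ℝ) {m u v : ℕ} (hv : v ≤ m) (M : ℝ) (x : Px (Pn N y)) :
    rpI w m u v M x ≤ Real.exp (7 * M) * cE w (pJ 0 m) (Kb u v m x) x := by
  have h0 : 0 ≤ cE w (pJ 0 m) (Kb u v m x) x := cE_nonneg _ _ (fun _ => Kb_nonneg _ _ _ _ _) _
  unfold rpI
  split_ifs with h
  · have h1 := NI_le_Kb_z w (u := u) hv x
    have h2 : Real.exp (7 * M) * Real.exp (-(7 * M)) = 1 := by
      rw [← Real.exp_add, add_neg_cancel, Real.exp_zero]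
    rw [← h2]
    exact mul_le_mul_of_nonneg_left (h.le.trans h1) (Real.exp_pos _).le
  · exact mul_nonneg (Real.exp_pos _).le h0

/-- **From the pair event to the pieces.** -/
theorem gm_tau1 (hy : y ≤ N) (ω : Env × Finset ℕ) {m i L l q : ℕ} {M : ℝ} (hM : 8 ≤ M) (hq : 10 * M ≤ q) (hq' : (q : ℝ) ≤ 20 * M)
    (hL : i + 3 * q * (l + 1) ≤ L) {F : Px (Pn N y) → ℝ} (F0 : ∀ x, 0 ≤ F x) (F1 : ∀ x, F x ≤ 1) :
    gm (wm μ s N (Pn N y) ω) (fun x => F x * tauI (wm μ s N (Pn N y) ω) m i L M x) ≤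
      ∑ n ∈ range (3 * q), gm (wm μ s N (Pn N y) ω) (fun x => F x * rpI (wm μ s N (Pn N y) ω) m (st i l n) (st i l n + l) M x) +
        Real.exp (-M) := by
  classical
  have := ne_Pn (N := N) (y := y) hy
  set w := wm μ s N (Pn N y) ω with hw
  refine gm_rep (E := fun x => if Tau w (pJ 0 m) i L M x ∧ ¬ Rp w (pJ 0 m) i l q M x then 1 else 0) F0 F1 (fun x => ?_)
    (fun x => by split_ifs <;> norm_num) (tau_rp (μ := μ) (s := s) ω.1 (swP_pJ (Nat.zero_le m)) i l q hM hq hq' hL)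
  unfold tauI
  have h0 : ∀ n, 0 ≤ rpI w m (st i l n) (st i l n + l) M x := fun n => rpI_nonneg _ _ _ _ _ _
  by_cases hT : Tau w (pJ 0 m) i L M x
  · rw [if_pos hT]
    by_cases hR : Rp w (pJ 0 m) i l q M x
    · obtain ⟨n, hn, h1⟩ := hR
      have h2 := single_le_sum (f := fun n => rpI w m (st i l n) (st i l n + l) M x) (fun n _ => h0 n) (mem_range.2 hn)
      have h3 : rpI w m (st i l n) (st i l n + l) M x = 1 := by
        unfold rpI
        exact if_pos h1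
      rw [h3] at h2
      refine h2.trans (le_add_of_nonneg_right ?_)
      split_ifs <;> norm_num
    · rw [if_pos ⟨hT, hR⟩]
      exact le_add_of_nonneg_left (sum_nonneg fun n _ => h0 n)
  · rw [if_neg hT]
    refine add_nonneg (sum_nonneg fun n _ => h0 n) ?_
    split_ifs <;> norm_num

/-! ### Measurability -/

theorem meas_cEK {Y : Type*} [DecidableEq Y] (p : Px (Pn N y) → Y) (g : Px (Pn N y) → ℝ) (x : Px (Pn N y)) :
    Measurable fun ω : Env × Finset ℕ => cE (wm μ s N (Pn N y) ω) p g x :=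
  meas_cE (f := fun _ => g) meas_wm (fun _ => measurable_const) p x

theorem meas_tauI (m i L : ℕ) (M : ℝ) (x : Px (Pn N y)) :
    Measurable fun ω : Env × Finset ℕ => tauI (wm μ s N (Pn N y) ω) m i L M x := by
  classical
  unfold tauI
  refine Measurable.ite ?_ measurable_const measurable_const
  show MeasurableSet {ω : Env × Finset ℕ | Real.exp (-(5 * M)) ≤
    cE2 (wm μ s N (Pn N y) ω) (pJ 0 m) (NI i L) x x}
  refine measurableSet_le measurable_const ?_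
  unfold cE2
  exact meas_cE meas_wm (fun z => meas_cEK _ _ _) _ _

theorem meas_rpI (m u v : ℕ) (M : ℝ) (x : Px (Pn N y)) :
    Measurable fun ω : Env × Finset ℕ => rpI (wm μ s N (Pn N y) ω) m u v M x := by
  classical
  unfold rpI
  refine Measurable.ite ?_ measurable_const measurable_const
  exact measurableSet_lt measurable_const (meas_cEK _ _ _)

/-- Bounded measurable functionals of one path. -/
theorem int_gm93 [IsProbabilityMeasure μ] (hy : y ≤ N) {G : Env × Finset ℕ → Px (Pn N y) → ℝ} {C : ℝ}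
    (hm : ∀ x, Measurable fun ω => G ω x) (hb : ∀ ω x, |G ω x| ≤ C) :
    Integrable (fun ω => gm (wm μ s N (Pn N y) ω) (G ω)) (Pm μ N) := by
  have := ne_Pn (N := N) (y := y) hy
  exact int_bdd (meas_gm meas_wm hm) fun ω => abs_gm93 _ (hb ω)

/-! ### Two, three and five windows -/

/-- A weight with a place: window `[u, v]`, a meeting in `[v, d]`, given what is behind `z`. -/
structure Wt (μ : Measure ℝ) (s : ℝ) (N y : ℕ) (κ : ℝ) (u v d z : ℕ) (H : Env × Finset ℕ → Px (Pn N y) → ℝ) : Prop where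
  nn : ∀ ω x, 0 ≤ H ω x
  le1 : ∀ ω x, H ω x ≤ 1
  ms : ∀ x, Measurable fun ω => H ω x
  pl : ∀ ω x, H ω x ≤ Real.exp ((N : ℝ) ^ κ) * cE (wm μ s N (Pn N y) ω) (pJ 0 z) (Kb u v d x) x

/-- A place of scale `t`. -/
def Plc (N : ℕ) (θ : ℝ) (t u v d z : ℕ) : Prop :=
  ((N : ℝ) ^ θ ≤ t ∧ t ≤ N) ∧ (u + t / 4 ≤ v ∧ v ≤ d ∧ d ≤ z ∧ z ≤ N)

/-- The prices with two, three and five windows. -/
structure Prc (μ : Measure ℝ) (s : ℝ) (N y : ℕ) (ε θ κ c' : ℝ) : Prop where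
  two : ∀ (t u v d z : Fin 2 → ℕ) (H : Fin 2 → Env × Finset ℕ → Px (Pn N y) → ℝ), (∀ i, Plc N θ (t i) (u i) (v i) (d i) (z i)) →
    (∀ i i', i < i' → d i' < u i) → (∀ i, Wt μ s N y κ (u i) (v i) (d i) (z i) (H i)) →
    ∫ ω, gm (wm μ s N (Pn N y) ω) (fun x => ∏ i, H i ω x) ∂(Pm μ N) ≤
      ∏ i, ((N : ℝ) ^ ε * (EE' μ s (t i))⁻¹) + Real.exp (-(N : ℝ) ^ c')
  three : ∀ (t u v d z : Fin 3 → ℕ) (H : Fin 3 → Env × Finset ℕ → Px (Pn N y) → ℝ), (∀ i, Plc N θ (t i) (u i) (v i) (d i) (z i)) →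
    (∀ i i', i < i' → d i' < u i) → (∀ i, Wt μ s N y κ (u i) (v i) (d i) (z i) (H i)) →
    ∫ ω, gm (wm μ s N (Pn N y) ω) (fun x => ∏ i, H i ω x) ∂(Pm μ N) ≤
      ∏ i, ((N : ℝ) ^ ε * (EE' μ s (t i))⁻¹) + Real.exp (-(N : ℝ) ^ c')
  five : ∀ (t u v d z : Fin 5 → ℕ) (H : Fin 5 → Env × Finset ℕ → Px (Pn N y) → ℝ), (∀ i, Plc N θ (t i) (u i) (v i) (d i) (z i)) →
    (∀ i i', i < i' → d i' < u i) → (∀ i, Wt μ s N y κ (u i) (v i) (d i) (z i) (H i)) →
    ∫ ω, gm (wm μ s N (Pn N y) ω) (fun x => ∏ i, H i ω x) ∂(Pm μ N) ≤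
      ∏ i, ((N : ℝ) ^ ε * (EE' μ s (t i))⁻¹) + Real.exp (-(N : ℝ) ^ c')

/-- **The prices hold**, for all ends in the cone. -/
theorem prc_all [IsProbabilityMeasure μ] {c₀ C₀ : ℝ} {n₀ : ℕ} (hin : In μ s c₀ C₀ n₀) : ∀ ε θ : ℝ, 0 < ε → 0 < θ →
    ∃ δ κ c' : ℝ, 0 < δ ∧ 0 < κ ∧ 0 < c' ∧ ∃ N₀ : ℕ, ∀ N : ℕ, N₀ ≤ N → ∀ y : ℕ, y ≤ N →
    |(y : ℝ) - sl μ s * N| ≤ (N : ℝ) ^ δ * wd' μ s N → Prc μ s N y ε θ κ c' := by
  intro ε θ hε hθ
  obtain ⟨δ2, κ2, c2, hδ2, hκ2, hc2, N2, h2⟩ := prc93 hin 2 ε θ hε hθ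
  obtain ⟨δ3, κ3, c3, hδ3, hκ3, hc3, N3, h3⟩ := prc93 hin 3 ε θ hε hθ
  obtain ⟨δ5, κ5, c5, hδ5, hκ5, hc5, N5, h5⟩ := prc93 hin 5 ε θ hε hθ
  refine ⟨min δ2 (min δ3 δ5), min κ2 (min κ3 κ5), min c2 (min c3 c5), lt_min hδ2 (lt_min hδ3 hδ5), lt_min hκ2 (lt_min hκ3 hκ5),
    lt_min hc2 (lt_min hc3 hc5), N2 + N3 + N5 + 1, ?_⟩
  intro N hN y hyN hyc
  have hN1 : (1 : ℝ) ≤ N := by exact_mod_cast (show 1 ≤ N by omega)
  have hwd : 0 ≤ wd' μ s N := le_trans zero_le_one (le_max_left _ _)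
  have hcone : ∀ δ', min δ2 (min δ3 δ5) ≤ δ' → |(y : ℝ) - sl μ s * N| ≤ (N : ℝ) ^ δ' * wd' μ s N := fun δ' hδ' =>
    hyc.trans (mul_le_mul_of_nonneg_right (Real.rpow_le_rpow_of_exponent_le hN1 hδ') hwd)
  have hκ : ∀ κ', min κ2 (min κ3 κ5) ≤ κ' → Real.exp ((N : ℝ) ^ min κ2 (min κ3 κ5)) ≤ Real.exp ((N : ℝ) ^ κ') := fun κ' h =>
    Real.exp_le_exp.2 (Real.rpow_le_rpow_of_exponent_le hN1 h)
  have hc : ∀ c', min c2 (min c3 c5) ≤ c' → Real.exp (-(N : ℝ) ^ c') ≤ Real.exp (-(N : ℝ) ^ min c2 (min c3 c5)) := fun c' h =>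
    Real.exp_le_exp.2 (neg_le_neg (Real.rpow_le_rpow_of_exponent_le hN1 h))
  have hcE : ∀ (ω : Env × Finset ℕ) (u v d z : ℕ) (x : Px (Pn N y)), 0 ≤ cE (wm μ s N (Pn N y) ω) (pJ 0 z) (Kb u v d x) x :=
    fun ω u v d z x => by
      have := ne_Pn (N := N) (y := y) hyN
      exact cE_nonneg _ _ (fun _ => Kb_nonneg _ _ _ _ _) _
  refine ⟨?_, ?_, ?_⟩
  · intro t u v d z H hP ho hW
    refine (h2 N (by omega) y hyN (hcone _ (min_le_left _ _)) t u v d z (fun i => (hP i).1) (fun i => (hP i).2) ho H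
      (fun i => (hW i).nn) (fun i => (hW i).le1) fun i ω x => ?_).trans (add_le_add le_rfl (hc _ (min_le_left _ _)))
    exact ((hW i).pl ω x).trans (mul_le_mul_of_nonneg_right (hκ _ (min_le_left _ _)) (hcE _ _ _ _ _ _))
  · intro t u v d z H hP ho hW
    refine (h3 N (by omega) y hyN (hcone _ ((min_le_right _ _).trans (min_le_left _ _))) t u v d z (fun i => (hP i).1)
      (fun i => (hP i).2) ho H (fun i => (hW i).nn) (fun i => (hW i).le1) fun i ω x => ?_).trans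
      (add_le_add le_rfl (hc _ ((min_le_right _ _).trans (min_le_left _ _))))
    exact ((hW i).pl ω x).trans (mul_le_mul_of_nonneg_right (hκ _ ((min_le_right _ _).trans (min_le_left _ _))) (hcE _ _ _ _ _ _))
  · intro t u v d z H hP ho hW
    refine (h5 N (by omega) y hyN (hcone _ ((min_le_right _ _).trans (min_le_right _ _))) t u v d z (fun i => (hP i).1)
      (fun i => (hP i).2) ho H (fun i => (hW i).nn) (fun i => (hW i).le1) fun i ω x => ?_).trans
      (add_le_add le_rfl (hc _ ((min_le_right _ _).trans (min_le_right _ _))))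
    exact ((hW i).pl ω x).trans (mul_le_mul_of_nonneg_right (hκ _ ((min_le_right _ _).trans (min_le_right _ _))) (hcE _ _ _ _ _ _))

/-! ### The weights of leaf (T) -/

/-- The own loop: the mass, given what is behind `z`, of the paths which do not meet in `[u, v]`. -/
theorem wt_own (hy : y ≤ N) {κ : ℝ} {u v z : ℕ} (hv : v ≤ z) :
    Wt μ s N y κ u v z z fun ω x => cE (wm μ s N (Pn N y) ω) (pJ 0 z) (NI u v x) x := by
  have := ne_Pn (N := N) (y := y) hy
  refine ⟨fun ω x => cE_nonneg _ _ (fun _ => NI_nonneg _ _ _ _) _, fun ω x => ?_, fun x => meas_cEK _ _ _, fun ω x => ?_⟩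
  · refine (cE_mono _ _ (g := fun _ => 1) (fun x' => ?_) x).trans (le_of_eq (congrFun (cE_one _ _) x))
    unfold NI
    split_ifs <;> norm_num
  · have h0 : 0 ≤ cE (wm μ s N (Pn N y) ω) (pJ 0 z) (Kb u v z x) x := cE_nonneg _ _ (fun _ => Kb_nonneg _ _ _ _ _) _
    have h1 : (1 : ℝ) ≤ Real.exp ((N : ℝ) ^ κ) := Real.one_le_exp (by positivity)
    calc cE (wm μ s N (Pn N y) ω) (pJ 0 z) (NI u v x) x ≤ 1 * cE (wm μ s N (Pn N y) ω) (pJ 0 z) (Kb u v z x) x := by
          rw [one_mul]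
          exact NI_le_Kb_z _ hv x
      _ ≤ _ := mul_le_mul_of_nonneg_right h1 h0

/-- The micro tie told from the base path. -/
theorem wt_rp (hy : y ≤ N) {κ M : ℝ} {u v m : ℕ} (hv : v ≤ m) (hM : 7 * M ≤ (N : ℝ) ^ κ) :
    Wt μ s N y κ u v m m fun ω x => rpI (wm μ s N (Pn N y) ω) m u v M x := by
  have := ne_Pn (N := N) (y := y) hy
  refine ⟨fun ω x => rpI_nonneg _ _ _ _ _ _, fun ω x => rpI_le_one _ _ _ _ _ _, fun x => meas_rpI _ _ _ _ _, fun ω x => ?_⟩
  refine (rpI_le _ hv M x).trans (mul_le_mul_of_nonneg_right (Real.exp_le_exp.2 hM) ?_)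
  exact cE_nonneg _ _ (fun _ => Kb_nonneg _ _ _ _ _) _

/-- All pinned paths have the same outside of `[0, N)`. -/
theorem pJ_all (S S' : Px (Pn N y)) : pJ 0 N S = pJ 0 N S' := by
  have key : ∀ S : Px (Pn N y), pJ 0 N S = (∅, y) := fun S => by
    obtain ⟨h1, h2⟩ := mem_powersetCard.1 S.2
    unfold pJ
    have e1 : Ico 0 N = range N := by
      ext i
      simp
    rw [e1, sdiff_eq_empty_iff_subset.2 h1, inter_eq_left.2 h1, h2]
  rw [key S, key S']

/-- The free second replica. -/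
theorem PP_out (hy : y ≤ N) (w : Px (Pn N y) → ℝ) (K : Px (Pn N y) → Px (Pn N y) → ℝ) (V : Px (Pn N y) → ℝ) :
    PP w (fun x z => K x z * V x) = gm w (fun x => cE w (pJ 0 N) (K x) x * V x) := by
  have := ne_Pn (N := N) (y := y) hy
  have e1 : ∀ x : Px (Pn N y), cE w (pJ 0 N) (K x) x = (∑ z, Real.exp (w z) * K x z) / gz w := fun x => by
    unfold cE fz gz
    congr 1
    · exact sum_congr rfl fun z _ => if_pos (pJ_all z x)
    · exact sum_congr rfl fun z _ => if_pos (pJ_all z x)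
  rw [PP_eq]
  unfold gm
  simp only [e1]
  have hz := (gz_pos w).ne'
  rw [div_eq_div_iff (pow_ne_zero 2 hz) hz, sum_mul, sum_mul]
  refine sum_congr rfl fun x _ => ?_
  have e2 : ∑ z, Real.exp (w x) * Real.exp (w z) * (K x z * V x) = Real.exp (w x) * V x * ∑ z, Real.exp (w z) * K x z := by
    rw [mul_sum]
    exact sum_congr rfl fun z _ => by ring
  rw [e2]
  field_simp

end

end Pool.Agent.W_7d29a1_C0.T93
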