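import Pool.Agent.W_7d29a1_C0.PT93B

/-!
CURV0 (MP_7d29a1_pr), leaf (T), PRICES, part 3: THE ROW SUMS. Rows `j` of a block; own loop `ow (u j) (v j) (Z j)` = the mass, given what
is behind the row `Z j`, of the paths which do not meet the base path in `[u j, v j]`; `mcw` = the own loop times the weighted pair events
`tauI m i L` (micro ties given what is behind `m ≤ u j`); the tie of the spectator: no meeting in `[zo, c]`, all `Z j < zo`.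
`own93`, `mic93`: the sum over the rows against the root of the variance of the spectator (`grp93`), with the prices
near (`|j - k| < Df`): `(E_r E_l)⁻¹`, resp. `(E_r E_l E_b)⁻¹`; far: `(E_r E_l ^ 2)⁻¹`, resp. `(E_r E_l ^ 2 E_b ^ 2)⁻¹`, and, if the row `Z j` is not
in front of the right row (`G = 1`, the last step at the root), `(E_r E_|j-k|)⁻¹`, resp. `(E_r E_|j-k| E_b)⁻¹`. (helper93)
-/

set_option autoImplicit false
set_option linter.unusedSectionVars false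
set_option linter.unusedVariables false

namespace Pool.Agent.W_7d29a1_C0.T93

open MeasureTheory ProbabilityTheory Filter Topology Finset
open Pool.Agent.W_7d29a1_F Pool.Agent.W_7d29a1_X Pool.Agent.W_7d29a1_h4g Pool.Agent.W_7d29a1_H
open Pool.Agent.W_7d29a1_HS (In wd md)
open Pool.Agent.W_7d29a1_HZ
open Pool.Agent.W_7d29a1_C0.Mod92
open Pool.W7d29a1.C0 (gz gm gz_pos gm_mono gm_add gm_smul gm_const gm_nonneg PP PP_eq)
open Pool.W7d29a1.C0.VT31 (Mp cE fz fz_pos cE_mono cE_nonneg cE_one gm_eq_cE cE_add gv)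
open Pool.W7d29a1.C0.R43 (Tau Rp mI mI_nonneg st tau_rp swP_pJ MxQ)
open Pool.Agent.W_7d29a1_C0.Swap57 (NI NI_nonneg cE2)

noncomputable section

variable {μ : Measure ℝ} {s : ℝ} {N y : ℕ}

/-! ### Two, three and five windows, explicit -/

/-- The price of one place. -/
def pc (μ : Measure ℝ) (s : ℝ) (N : ℕ) (ε : ℝ) (t : ℕ) : ℝ := (N : ℝ) ^ ε * (EE' μ s t)⁻¹

theorem pc_nonneg (N : ℕ) (ε : ℝ) (t : ℕ) : 0 ≤ pc μ s N ε t := by
  have : 0 < EE' μ s t := lt_of_lt_of_le zero_lt_one (le_max_left _ _)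
  unfold pc
  positivity

/-- The mass, given what is behind `z`, of the paths which do not meet the path in `[u, v]`. -/
def ow (w : Px (Pn N y) → ℝ) (u v z : ℕ) (x : Px (Pn N y)) : ℝ := cE w (pJ 0 z) (NI u v x) x

theorem NI_le_one93 {Q : Finset (Finset ℕ)} (u v : ℕ) (S S' : Px Q) : NI u v S S' ≤ 1 := by
  unfold NI
  split_ifs <;> norm_num

theorem NI_mono93 {Q : Finset (Finset ℕ)} {u v u' v' : ℕ} (h : u ≤ u') (h' : v' ≤ v) (S S' : Px Q) : NI u v S S' ≤ NI u' v' S S' :=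
  Pool.Agent.W_7d29a1_C0.Swap57.NI_mono h h' S S'

theorem ow_nonneg (hy : y ≤ N) (w : Px (Pn N y) → ℝ) (u v z : ℕ) (x : Px (Pn N y)) : 0 ≤ ow w u v z x := by
  have := ne_Pn (N := N) (y := y) hy
  exact cE_nonneg _ _ (fun _ => NI_nonneg _ _ _ _) _

theorem ow_le_one (hy : y ≤ N) (w : Px (Pn N y) → ℝ) (u v z : ℕ) (x : Px (Pn N y)) : ow w u v z x ≤ 1 := by
  have := ne_Pn (N := N) (y := y) hy
  exact (cE_mono _ _ (g := fun _ => 1) (fun x' => NI_le_one93 _ _ _ _) x).trans (le_of_eq (congrFun (cE_one _ _) x))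

theorem meas_ow (u v z : ℕ) (x : Px (Pn N y)) : Measurable fun ω : Env × Finset ℕ => ow (wm μ s N (Pn N y) ω) u v z x :=
  meas_cEK _ _ _

/-- The place of an own loop: any window inside. -/
theorem wt_ow (hy : y ≤ N) {κ : ℝ} {u u' v z : ℕ} (hu : u ≤ u') (hv : v ≤ z) :
    Wt μ s N y κ u' v z z fun ω x => ow (wm μ s N (Pn N y) ω) u v z x := by
  have := ne_Pn (N := N) (y := y) hy
  refine ⟨fun ω x => ow_nonneg hy _ _ _ _ _, fun ω x => ow_le_one hy _ _ _ _ _, fun x => meas_ow _ _ _ _, fun ω x => ?_⟩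
  refine le_trans ?_ ((wt_own (μ := μ) (s := s) hy (κ := κ) (u := u') hv).pl ω x)
  exact cE_mono _ _ (fun x' => NI_mono93 hu le_rfl _ _) x

/-- The place of an own loop which closes before `d`. -/
theorem wt_kb (hy : y ≤ N) {κ : ℝ} {u u' v d z : ℕ} (hu : u ≤ u') :
    Wt μ s N y κ u' v d z fun ω x => cE (wm μ s N (Pn N y) ω) (pJ 0 z) (Kb u v d x) x := by
  classical
  have := ne_Pn (N := N) (y := y) hy
  have h0 : ∀ (ω : Env × Finset ℕ) (x : Px (Pn N y)), 0 ≤ cE (wm μ s N (Pn N y) ω) (pJ 0 z) (Kb u' v d x) x := fun ω x =>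
    cE_nonneg _ _ (fun _ => Kb_nonneg _ _ _ _ _) _
  have h1 : (1 : ℝ) ≤ Real.exp ((N : ℝ) ^ κ) := Real.one_le_exp (by positivity)
  refine ⟨fun ω x => cE_nonneg _ _ (fun _ => Kb_nonneg _ _ _ _ _) _, fun ω x => ?_, fun x => meas_cEK _ _ _, fun ω x => ?_⟩
  · exact (cE_mono _ _ (g := fun _ => 1) (fun x' => Kb_le_one _ _ _ _ _) x).trans (le_of_eq (congrFun (cE_one _ _) x))
  · have h2 : cE (wm μ s N (Pn N y) ω) (pJ 0 z) (Kb u v d x) x ≤ cE (wm μ s N (Pn N y) ω) (pJ 0 z) (Kb u' v d x) x := by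
      refine cE_mono _ _ (fun x' => ?_) x
      unfold Kb
      by_cases h : (∀ k, u ≤ k → k ≤ v → ps x k ≠ ps x' k) ∧ ∃ b', v ≤ b' ∧ b' ≤ d ∧ ps x b' = ps x' b'
      · rw [if_pos h, if_pos ⟨fun k hk hk' => h.1 k (hu.trans hk) hk', h.2⟩]
      · rw [if_neg h]
        split_ifs <;> norm_num
    calc _ ≤ 1 * cE (wm μ s N (Pn N y) ω) (pJ 0 z) (Kb u' v d x) x := by rw [one_mul]; exact h2
      _ ≤ _ := mul_le_mul_of_nonneg_right h1 (h0 ω x)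

/-- The own loop: it closes before `d`, or it is longer. -/
theorem ow_split (hy : y ≤ N) (w : Px (Pn N y) → ℝ) (u v d z : ℕ) (x : Px (Pn N y)) :
    ow w u v z x ≤ cE w (pJ 0 z) (Kb u v d x) x + ow w v d z x := by
  have := ne_Pn (N := N) (y := y) hy
  have h1 : ow w u v z x ≤ cE w (pJ 0 z) (Kb u v d x + NI v d x) x := cE_mono _ _ (fun x' => NI_le_Kb u v d x x') x
  rw [cE_add, Pi.add_apply] at h1
  exact h1

variable {ε θ κ c' : ℝ}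

theorem Prc.two' (hP : Prc μ s N y ε θ κ c') {t0 u0 v0 d0 z0 t1 u1 v1 d1 z1 : ℕ} {H0 H1 : Env × Finset ℕ → Px (Pn N y) → ℝ}
    (p0 : Plc N θ t0 u0 v0 d0 z0) (p1 : Plc N θ t1 u1 v1 d1 z1) (o1 : d1 < u0) (w0 : Wt μ s N y κ u0 v0 d0 z0 H0)
    (w1 : Wt μ s N y κ u1 v1 d1 z1 H1) :
    ∫ ω, gm (wm μ s N (Pn N y) ω) (fun x => H0 ω x * H1 ω x) ∂(Pm μ N) ≤
      pc μ s N ε t0 * pc μ s N ε t1 + Real.exp (-(N : ℝ) ^ c') := by
  have h := hP.two ![t0, t1] ![u0, u1] ![v0, v1] ![d0, d1] ![z0, z1] ![H0, H1]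
    (by intro i; fin_cases i <;> assumption) (by
      intro i i' hi
      fin_cases i <;> fin_cases i' <;> first | exact absurd hi (by decide) | exact o1)
    (by intro i; fin_cases i <;> assumption)
  simp only [Fin.prod_univ_two] at h
  exact h

theorem Prc.three' (hP : Prc μ s N y ε θ κ c') {t0 u0 v0 d0 z0 t1 u1 v1 d1 z1 t2 u2 v2 d2 z2 : ℕ}
    {H0 H1 H2 : Env × Finset ℕ → Px (Pn N y) → ℝ} (p0 : Plc N θ t0 u0 v0 d0 z0) (p1 : Plc N θ t1 u1 v1 d1 z1)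
    (p2 : Plc N θ t2 u2 v2 d2 z2) (o1 : d1 < u0) (o2 : d2 < u1) (w0 : Wt μ s N y κ u0 v0 d0 z0 H0)
    (w1 : Wt μ s N y κ u1 v1 d1 z1 H1) (w2 : Wt μ s N y κ u2 v2 d2 z2 H2) :
    ∫ ω, gm (wm μ s N (Pn N y) ω) (fun x => H0 ω x * H1 ω x * H2 ω x) ∂(Pm μ N) ≤
      pc μ s N ε t0 * pc μ s N ε t1 * pc μ s N ε t2 + Real.exp (-(N : ℝ) ^ c') := by
  have q1 := p1.2
  have q2 := p2.2
  have o3 : d2 < u0 := by omega
  have h := hP.three ![t0, t1, t2] ![u0, u1, u2] ![v0, v1, v2] ![d0, d1, d2] ![z0, z1, z2] ![H0, H1, H2]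
    (by intro i; fin_cases i <;> assumption) (by
      intro i i' hi
      fin_cases i <;> fin_cases i' <;> first | exact absurd hi (by decide) | exact o1 | exact o2 | exact o3)
    (by intro i; fin_cases i <;> assumption)
  simp only [Fin.prod_univ_three] at h
  exact h

theorem Prc.five' (hP : Prc μ s N y ε θ κ c') {t0 u0 v0 d0 z0 t1 u1 v1 d1 z1 t2 u2 v2 d2 z2 t3 u3 v3 d3 z3 t4 u4 v4 d4 z4 : ℕ}
    {H0 H1 H2 H3 H4 : Env × Finset ℕ → Px (Pn N y) → ℝ} (p0 : Plc N θ t0 u0 v0 d0 z0) (p1 : Plc N θ t1 u1 v1 d1 z1)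
    (p2 : Plc N θ t2 u2 v2 d2 z2) (p3 : Plc N θ t3 u3 v3 d3 z3) (p4 : Plc N θ t4 u4 v4 d4 z4) (o1 : d1 < u0) (o2 : d2 < u1)
    (o3 : d3 < u2) (o4 : d4 < u3) (w0 : Wt μ s N y κ u0 v0 d0 z0 H0) (w1 : Wt μ s N y κ u1 v1 d1 z1 H1)
    (w2 : Wt μ s N y κ u2 v2 d2 z2 H2) (w3 : Wt μ s N y κ u3 v3 d3 z3 H3) (w4 : Wt μ s N y κ u4 v4 d4 z4 H4) :
    ∫ ω, gm (wm μ s N (Pn N y) ω) (fun x => H0 ω x * H1 ω x * H2 ω x * H3 ω x * H4 ω x) ∂(Pm μ N) ≤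
      pc μ s N ε t0 * pc μ s N ε t1 * pc μ s N ε t2 * pc μ s N ε t3 * pc μ s N ε t4 + Real.exp (-(N : ℝ) ^ c') := by
  have q1 := p1.2
  have q2 := p2.2
  have q3 := p3.2
  have q4 := p4.2
  have r1 : d2 < u0 := by omega
  have r2 : d3 < u0 := by omega
  have r3 : d4 < u0 := by omega
  have r4 : d3 < u1 := by omega
  have r5 : d4 < u1 := by omega
  have r6 : d4 < u2 := by omega
  have h := hP.five ![t0, t1, t2, t3, t4] ![u0, u1, u2, u3, u4] ![v0, v1, v2, v3, v4] ![d0, d1, d2, d3, d4] ![z0, z1, z2, z3, z4]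
    ![H0, H1, H2, H3, H4]
    (by intro i; fin_cases i <;> assumption) (by
      intro i i' hi
      fin_cases i <;> fin_cases i' <;> first
        | exact absurd hi (by decide)
        | exact o1
        | exact o2
        | exact o3
        | exact o4
        | exact r1
        | exact r2
        | exact r3
        | exact r4
        | exact r5
        | exact r6)
    (by intro i; fin_cases i <;> assumption)
  simp only [Fin.prod_univ_five] at h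
  exact h

/-! ### Finite sums under the integral -/

/-- A weighted finite sum of functionals. -/
theorem int_gm_sum_le [IsProbabilityMeasure μ] (hy : y ≤ N) {ι : Type*} (I : Finset ι) (a : ι → ℝ)
    {G : ι → Env × Finset ℕ → Px (Pn N y) → ℝ} {B C : ℝ} (a0 : ∀ i ∈ I, 0 ≤ a i) (hm : ∀ i ∈ I, ∀ x, Measurable fun ω => G i ω x)
    (hb : ∀ i ∈ I, ∀ ω x, |G i ω x| ≤ B) (h : ∀ i ∈ I, ∫ ω, gm (wm μ s N (Pn N y) ω) (G i ω) ∂(Pm μ N) ≤ C) :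
    ∫ ω, gm (wm μ s N (Pn N y) ω) (fun x => ∑ i ∈ I, a i * G i ω x) ∂(Pm μ N) ≤ (∑ i ∈ I, a i) * C := by
  have := ne_Pn (N := N) (y := y) hy
  have e1 : ∀ ω, gm (wm μ s N (Pn N y) ω) (fun x => ∑ i ∈ I, a i * G i ω x) = ∑ i ∈ I, a i * gm (wm μ s N (Pn N y) ω) (G i ω) := by
    intro ω
    rw [gm_sum93]
    refine sum_congr rfl fun i _ => ?_
    have := gm_smul (wm μ s N (Pn N y) ω) (a i) (G i ω)
    exact this
  simp only [e1]
  rw [integral_finsetSum _ fun i hi => (int_gm93 hy (hm i hi) (hb i hi)).const_mul _, sum_mul]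
  refine sum_le_sum fun i hi => ?_
  rw [integral_const_mul]
  exact mul_le_mul_of_nonneg_left (h i hi) (a0 i hi)

/-- Monotonicity. -/
theorem int_gm_mono [IsProbabilityMeasure μ] (hy : y ≤ N) {F G : Env × Finset ℕ → Px (Pn N y) → ℝ} {B : ℝ}
    (F0 : ∀ ω x, 0 ≤ F ω x) (hm : ∀ x, Measurable fun ω => G ω x) (hb : ∀ ω x, |G ω x| ≤ B) (h : ∀ ω x, F ω x ≤ G ω x) :
    ∫ ω, gm (wm μ s N (Pn N y) ω) (F ω) ∂(Pm μ N) ≤ ∫ ω, gm (wm μ s N (Pn N y) ω) (G ω) ∂(Pm μ N) := by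
  have := ne_Pn (N := N) (y := y) hy
  refine integral_mono_of_nonneg (Filter.Eventually.of_forall fun ω => ?_) (int_gm93 hy hm hb) (Filter.Eventually.of_forall fun ω => ?_)
  · exact gm_nonneg _ (F0 ω)
  · exact gm_mono _ (h ω)

/-- Sum of two functionals. -/
theorem int_gm_add_le [IsProbabilityMeasure μ] (hy : y ≤ N) {F G : Env × Finset ℕ → Px (Pn N y) → ℝ} {B C₁ C₂ : ℝ}
    (hF : ∀ x, Measurable fun ω => F ω x) (hG : ∀ x, Measurable fun ω => G ω x) (bF : ∀ ω x, |F ω x| ≤ B) (bG : ∀ ω x, |G ω x| ≤ B)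
    (h1 : ∫ ω, gm (wm μ s N (Pn N y) ω) (F ω) ∂(Pm μ N) ≤ C₁) (h2 : ∫ ω, gm (wm μ s N (Pn N y) ω) (G ω) ∂(Pm μ N) ≤ C₂) :
    ∫ ω, gm (wm μ s N (Pn N y) ω) (fun x => F ω x + G ω x) ∂(Pm μ N) ≤ C₁ + C₂ := by
  have := ne_Pn (N := N) (y := y) hy
  have e1 : ∀ ω, gm (wm μ s N (Pn N y) ω) (fun x => F ω x + G ω x) = gm (wm μ s N (Pn N y) ω) (F ω) + gm (wm μ s N (Pn N y) ω) (G ω) :=
    fun ω => gm_add _ _ _
  simp only [e1]
  rw [integral_add (int_gm93 hy hF bF) (int_gm93 hy hG bG)]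
  exact add_le_add h1 h2

/-- The pair event under the integral. -/
theorem int_tau [IsProbabilityMeasure μ] (hy : y ≤ N) {m i L l q : ℕ} {M : ℝ} (hM : 8 ≤ M) (hq : 10 * M ≤ q) (hq' : (q : ℝ) ≤ 20 * M)
    (hL : i + 3 * q * (l + 1) ≤ L) {F : Env × Finset ℕ → Px (Pn N y) → ℝ} (F0 : ∀ ω x, 0 ≤ F ω x) (F1 : ∀ ω x, F ω x ≤ 1)
    (hm : ∀ x, Measurable fun ω => F ω x) {C : ℝ}
    (h : ∀ n < 3 * q, ∫ ω, gm (wm μ s N (Pn N y) ω) (fun x => F ω x * rpI (wm μ s N (Pn N y) ω) m (st i l n) (st i l n + l) M x) ∂(Pm μ N)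
      ≤ C) :
    ∫ ω, gm (wm μ s N (Pn N y) ω) (fun x => F ω x * tauI (wm μ s N (Pn N y) ω) m i L M x) ∂(Pm μ N) ≤
      3 * q * C + Real.exp (-M) := by
  have := ne_Pn (N := N) (y := y) hy
  have hbR : ∀ n, ∀ (ω : Env × Finset ℕ) (x : Px (Pn N y)),
      |F ω x * rpI (wm μ s N (Pn N y) ω) m (st i l n) (st i l n + l) M x| ≤ 1 := fun n ω x => by
    rw [abs_of_nonneg (mul_nonneg (F0 ω x) (rpI_nonneg _ _ _ _ _ _))]
    exact mul_le_one₀ (F1 ω x) (rpI_nonneg _ _ _ _ _ _) (rpI_le_one _ _ _ _ _ _)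
  have hmR : ∀ n (x : Px (Pn N y)), Measurable fun ω => F ω x * rpI (wm μ s N (Pn N y) ω) m (st i l n) (st i l n + l) M x :=
    fun n x => (hm x).mul (meas_rpI _ _ _ _ _)
  have hI : ∀ n ∈ range (3 * q), Integrable (fun ω => gm (wm μ s N (Pn N y) ω)
      (fun x => F ω x * rpI (wm μ s N (Pn N y) ω) m (st i l n) (st i l n + l) M x)) (Pm μ N) := fun n _ =>
    int_gm93 hy (hmR n) (hbR n)
  have h1 : ∫ ω, gm (wm μ s N (Pn N y) ω) (fun x => F ω x * tauI (wm μ s N (Pn N y) ω) m i L M x) ∂(Pm μ N) ≤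
      ∫ ω, (∑ n ∈ range (3 * q), gm (wm μ s N (Pn N y) ω)
        (fun x => F ω x * rpI (wm μ s N (Pn N y) ω) m (st i l n) (st i l n + l) M x) + Real.exp (-M)) ∂(Pm μ N) := by
    refine integral_mono_of_nonneg (Filter.Eventually.of_forall fun ω => ?_) ((integrable_finsetSum _ hI).add (integrable_const _))
      (Filter.Eventually.of_forall fun ω => gm_tau1 hy ω hM hq hq' hL (F0 ω) (F1 ω))
    exact gm_nonneg _ fun x => mul_nonneg (F0 ω x) (tauI_nonneg _ _ _ _ _ _)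
  refine h1.trans ?_
  rw [integral_add (integrable_finsetSum _ hI) (integrable_const _), integral_finsetSum _ hI, integral_const, probReal_univ,
    one_smul]
  refine add_le_add ((sum_le_sum fun n hn => h n (mem_range.1 hn)).trans (le_of_eq ?_)) le_rfl
  rw [sum_const, card_range, nsmul_eq_mul]
  push_cast
  ring

/-! ### The prices of two rows -/

/-- The tie of the spectator: the mass of the free replicas which do not meet the path in `[zo, c]`. -/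
def ot (w : Px (Pn N y) → ℝ) (zo c : ℕ) (x : Px (Pn N y)) : ℝ := ow w zo c N x

/-- The error of one product price. -/
def er (N : ℕ) (c' : ℝ) : ℝ := Real.exp (-(N : ℝ) ^ c')

theorem er_nonneg (N : ℕ) (c' : ℝ) : 0 ≤ er N c' := (Real.exp_pos _).le

variable [IsProbabilityMeasure μ]

/-- Own loops, near rows. -/
theorem own_near (hP : Prc μ s N y ε θ κ c') (hy : y ≤ N) {tr tl zo c u v z : ℕ} (hr : (N : ℝ) ^ θ ≤ tr ∧ tr ≤ N)
    (hl : (N : ℝ) ^ θ ≤ tl ∧ tl ≤ N) (ho : zo + tr / 4 ≤ c ∧ c ≤ N) (hz : u + tl / 4 ≤ v ∧ v ≤ z ∧ z < zo) :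
    ∫ ω, gm (wm μ s N (Pn N y) ω) (fun x => ot (wm μ s N (Pn N y) ω) zo c x * ow (wm μ s N (Pn N y) ω) u v z x) ∂(Pm μ N) ≤
      pc μ s N ε tr * pc μ s N ε tl + er N c' :=
  hP.two' (z0 := N) (d0 := N) ⟨hr, by omega⟩ ⟨hl, by omega⟩ hz.2.2 (wt_ow hy le_rfl ho.2) (wt_ow hy le_rfl hz.2.1)

/-- Own loops, the left one closes before the right one opens. -/
theorem own_far (hP : Prc μ s N y ε θ κ c') (hy : y ≤ N) {tr tl zo c u v z u' v' z' : ℕ} (hr : (N : ℝ) ^ θ ≤ tr ∧ tr ≤ N)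
    (hl : (N : ℝ) ^ θ ≤ tl ∧ tl ≤ N) (ho : zo + tr / 4 ≤ c ∧ c ≤ N) (hz : u + tl / 4 ≤ v ∧ v ≤ z ∧ z < u')
    (hz' : u' + tl / 4 ≤ v' ∧ v' ≤ z' ∧ z' < zo) :
    ∫ ω, gm (wm μ s N (Pn N y) ω) (fun x => ot (wm μ s N (Pn N y) ω) zo c x * ow (wm μ s N (Pn N y) ω) u' v' z' x *
      ow (wm μ s N (Pn N y) ω) u v z x) ∂(Pm μ N) ≤
      pc μ s N ε tr * pc μ s N ε tl * pc μ s N ε tl + er N c' :=
  hP.three' (z0 := N) (d0 := N) ⟨hr, by omega⟩ ⟨hl, by omega⟩ ⟨hl, by omega⟩ hz'.2.2 hz.2.2 (wt_ow hy le_rfl ho.2)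
    (wt_ow hy le_rfl hz'.2.1) (wt_ow hy le_rfl hz.2.1)

/-- Own loops, given rows `z`, `z'` which may be the same. -/
theorem own_gap (hP : Prc μ s N y ε θ κ c') (hy : y ≤ N) {tr tl tD zo c u v z u' v' z' : ℕ} (hr : (N : ℝ) ^ θ ≤ tr ∧ tr ≤ N)
    (hl : (N : ℝ) ^ θ ≤ tl ∧ tl ≤ N) (hD : (N : ℝ) ^ θ ≤ tD ∧ tD ≤ N) (ho : zo + tr / 4 ≤ c ∧ c ≤ N)
    (hz : u + tl / 4 ≤ v ∧ v + tD / 4 + 1 ≤ u' ∧ u' ≤ z ∧ z < zo) (hz' : u' + tl / 4 ≤ v' ∧ v' ≤ z' ∧ z' < zo) :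
    ∫ ω, gm (wm μ s N (Pn N y) ω) (fun x => ot (wm μ s N (Pn N y) ω) zo c x * ow (wm μ s N (Pn N y) ω) u' v' z' x *
      ow (wm μ s N (Pn N y) ω) u v z x) ∂(Pm μ N) ≤
      (pc μ s N ε tr * pc μ s N ε tl * pc μ s N ε tl + er N c') + (pc μ s N ε tr * pc μ s N ε tD + er N c') := by
  have hu1 : 1 ≤ u' := by omega
  set K : Env × Finset ℕ → Px (Pn N y) → ℝ := fun ω x => cE (wm μ s N (Pn N y) ω) (pJ 0 z) (Kb u v (u' - 1) x) x with hK
  have wK : Wt μ s N y κ u v (u' - 1) z K := wt_kb hy le_rfl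
  have wo : Wt μ s N y κ zo c N N fun ω x => ot (wm μ s N (Pn N y) ω) zo c x := wt_ow hy le_rfl ho.2
  have wr : Wt μ s N y κ u' v' z' z' fun ω x => ow (wm μ s N (Pn N y) ω) u' v' z' x := wt_ow hy le_rfl hz'.2.1
  have wl : Wt μ s N y κ v (u' - 1) z z fun ω x => ow (wm μ s N (Pn N y) ω) v (u' - 1) z x := wt_ow hy le_rfl (by omega)
  have h1 : ∫ ω, gm (wm μ s N (Pn N y) ω) (fun x => ot (wm μ s N (Pn N y) ω) zo c x * ow (wm μ s N (Pn N y) ω) u' v' z' x * K ω x)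
      ∂(Pm μ N) ≤ pc μ s N ε tr * pc μ s N ε tl * pc μ s N ε tl + er N c' :=
    hP.three' ⟨hr, by omega⟩ ⟨hl, by omega⟩ ⟨hl, by omega⟩ hz'.2.2 (by omega) wo wr wK
  have h2 : ∫ ω, gm (wm μ s N (Pn N y) ω) (fun x => ot (wm μ s N (Pn N y) ω) zo c x * ow (wm μ s N (Pn N y) ω) v (u' - 1) z x)
      ∂(Pm μ N) ≤ pc μ s N ε tr * pc μ s N ε tD + er N c' :=
    hP.two' ⟨hr, by omega⟩ ⟨hD, by omega⟩ (by omega) wo wl
  have hG1 : ∀ x, Measurable fun ω => ot (wm μ s N (Pn N y) ω) zo c x * ow (wm μ s N (Pn N y) ω) u' v' z' x * K ω x := fun x =>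
    ((wo.ms x).mul (wr.ms x)).mul (wK.ms x)
  have hG2 : ∀ x, Measurable fun ω => ot (wm μ s N (Pn N y) ω) zo c x * ow (wm μ s N (Pn N y) ω) v (u' - 1) z x := fun x =>
    (wo.ms x).mul (wl.ms x)
  refine le_trans ?_ (int_gm_add_le (B := 1) hy hG1 hG2 (fun ω x => ?_) (fun ω x => ?_) h1 h2)
  · refine int_gm_mono (B := 2) hy (fun ω x => mul_nonneg (mul_nonneg (wo.nn ω x) (wr.nn ω x)) (ow_nonneg hy _ _ _ _ _))
      (fun x => (hG1 x).add (hG2 x)) (fun ω x => ?_) fun ω x => ?_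
    · have a1 := mul_le_one₀ (mul_le_one₀ (wo.le1 ω x) (wr.nn ω x) (wr.le1 ω x)) (wK.nn ω x) (wK.le1 ω x)
      have a2 := mul_le_one₀ (wo.le1 ω x) (wl.nn ω x) (wl.le1 ω x)
      have a3 := mul_nonneg (mul_nonneg (wo.nn ω x) (wr.nn ω x)) (wK.nn ω x)
      have a4 := mul_nonneg (wo.nn ω x) (wl.nn ω x)
      rw [abs_of_nonneg (add_nonneg a3 a4)]
      linarith
    · have b1 := ow_split hy (wm μ s N (Pn N y) ω) u v (u' - 1) z x
      have b2 := mul_le_mul_of_nonneg_left b1 (mul_nonneg (wo.nn ω x) (wr.nn ω x))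
      rw [mul_add] at b2
      refine b2.trans (add_le_add le_rfl ?_)
      have b3 : ot (wm μ s N (Pn N y) ω) zo c x * ow (wm μ s N (Pn N y) ω) u' v' z' x ≤ ot (wm μ s N (Pn N y) ω) zo c x :=
        mul_le_of_le_one_right (wo.nn ω x) (wr.le1 ω x)
      exact mul_le_mul_of_nonneg_right b3 (wl.nn ω x)
  · have a3 := mul_nonneg (mul_nonneg (wo.nn ω x) (wr.nn ω x)) (wK.nn ω x)
    rw [abs_of_nonneg a3]
    exact mul_le_one₀ (mul_le_one₀ (wo.le1 ω x) (wr.nn ω x) (wr.le1 ω x)) (wK.nn ω x) (wK.le1 ω x)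
  · have a4 := mul_nonneg (wo.nn ω x) (wl.nn ω x)
    rw [abs_of_nonneg a4]
    exact mul_le_one₀ (wo.le1 ω x) (wl.nn ω x) (wl.le1 ω x)

/-- The pieces of a micro window. -/
theorem st_piece {i l n q : ℕ} (hn : n < 3 * q) : i ≤ st i l n ∧ st i l n + l ≤ i + 3 * q * (l + 1) := by
  unfold st
  have h1 : (n + 1) * (l + 1) ≤ 3 * q * (l + 1) := Nat.mul_le_mul_right _ hn
  have h2 : (n + 1) * (l + 1) = n * (l + 1) + (l + 1) := by ring
  omega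

/-- Micro ties, near rows: only the right row. -/
theorem mic_near (hP : Prc μ s N y ε θ κ c') (hy : y ≤ N) {tr tl tb zo c u v z m i L l q : ℕ} {M : ℝ}
    (hr : (N : ℝ) ^ θ ≤ tr ∧ tr ≤ N) (hl : (N : ℝ) ^ θ ≤ tl ∧ tl ≤ N) (hb : (N : ℝ) ^ θ ≤ tb ∧ tb ≤ N) (hbl : tb / 4 ≤ l)
    (hM : 8 ≤ M) (hMκ : 7 * M ≤ (N : ℝ) ^ κ) (hq : 10 * M ≤ q) (hq' : (q : ℝ) ≤ 20 * M) (ho : zo + tr / 4 ≤ c ∧ c ≤ N)
    (hz : u + 1 + tl / 4 ≤ v ∧ v ≤ z ∧ z < zo) (hm : i + 3 * q * (l + 1) ≤ L ∧ L ≤ m ∧ m ≤ u) :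
    ∫ ω, gm (wm μ s N (Pn N y) ω) (fun x => ot (wm μ s N (Pn N y) ω) zo c x * ow (wm μ s N (Pn N y) ω) u v z x *
      tauI (wm μ s N (Pn N y) ω) m i L M x) ∂(Pm μ N) ≤
      3 * q * (pc μ s N ε tr * pc μ s N ε tl * pc μ s N ε tb + er N c') + Real.exp (-M) := by
  have wo : Wt μ s N y κ zo c N N fun ω x => ot (wm μ s N (Pn N y) ω) zo c x := wt_ow hy le_rfl ho.2
  have wr : Wt μ s N y κ (u + 1) v z z fun ω x => ow (wm μ s N (Pn N y) ω) u v z x := wt_ow hy (Nat.le_succ u) hz.2.1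
  refine int_tau hy hM hq hq' hm.1 (F := fun ω x => ot (wm μ s N (Pn N y) ω) zo c x * ow (wm μ s N (Pn N y) ω) u v z x)
    (fun ω x => mul_nonneg (wo.nn ω x) (wr.nn ω x)) (fun ω x => mul_le_one₀ (wo.le1 ω x) (wr.nn ω x) (wr.le1 ω x))
    (fun x => (wo.ms x).mul (wr.ms x)) fun n hn => ?_
  have hp := st_piece (i := i) (l := l) hn
  exact hP.three' ⟨hr, by omega⟩ ⟨hl, by omega⟩ ⟨hb, by omega⟩ hz.2.2 (by omega) wo wr (wt_rp hy (by omega) hMκ)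

/-- Micro ties, far rows: `A`, a weight of the left row with a place in front of the right row. -/
theorem mic_far (hP : Prc μ s N y ε θ κ c') (hy : y ≤ N) {tr tl tb zo c u' v' z' m i L m' i' L' l q : ℕ} {M : ℝ}
    (hr : (N : ℝ) ^ θ ≤ tr ∧ tr ≤ N) (hl : (N : ℝ) ^ θ ≤ tl ∧ tl ≤ N) (hb : (N : ℝ) ^ θ ≤ tb ∧ tb ≤ N) (hbl : tb / 4 ≤ l)
    (hM : 8 ≤ M) (hMκ : 7 * M ≤ (N : ℝ) ^ κ) (hq : 10 * M ≤ q) (hq' : (q : ℝ) ≤ 20 * M) (ho : zo + tr / 4 ≤ c ∧ c ≤ N)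
    (hz' : u' + 1 + tl / 4 ≤ v' ∧ v' ≤ z' ∧ z' < zo) (hm' : i' + 3 * q * (l + 1) ≤ L' ∧ L' ≤ m' ∧ m' ≤ u')
    {tA uA vA dA zA : ℕ} {A : Env × Finset ℕ → Px (Pn N y) → ℝ} (wA : Wt μ s N y κ uA vA dA zA A) (pA : Plc N θ tA uA vA dA zA)
    (hA : dA < i') (hm : i + 3 * q * (l + 1) ≤ L ∧ L ≤ m ∧ m < uA) :
    ∫ ω, gm (wm μ s N (Pn N y) ω) (fun x => ot (wm μ s N (Pn N y) ω) zo c x * ow (wm μ s N (Pn N y) ω) u' v' z' x *
      tauI (wm μ s N (Pn N y) ω) m' i' L' M x * A ω x * tauI (wm μ s N (Pn N y) ω) m i L M x) ∂(Pm μ N) ≤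
      3 * q * (3 * q * (pc μ s N ε tr * pc μ s N ε tl * pc μ s N ε tb * pc μ s N ε tA * pc μ s N ε tb + er N c') + Real.exp (-M)) +
        Real.exp (-M) := by
  have hpA := pA.2
  have wo : Wt μ s N y κ zo c N N fun ω x => ot (wm μ s N (Pn N y) ω) zo c x := wt_ow hy le_rfl ho.2
  have wr : Wt μ s N y κ (u' + 1) v' z' z' fun ω x => ow (wm μ s N (Pn N y) ω) u' v' z' x := wt_ow hy (Nat.le_succ u') hz'.2.1
  refine int_tau hy hM hq hq' hm.1 (F := fun ω x => ot (wm μ s N (Pn N y) ω) zo c x * ow (wm μ s N (Pn N y) ω) u' v' z' x *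
    tauI (wm μ s N (Pn N y) ω) m' i' L' M x * A ω x)
    (fun ω x => mul_nonneg (mul_nonneg (mul_nonneg (wo.nn ω x) (wr.nn ω x)) (tauI_nonneg _ _ _ _ _ _)) (wA.nn ω x))
    (fun ω x => mul_le_one₀ (mul_le_one₀ (mul_le_one₀ (wo.le1 ω x) (wr.nn ω x) (wr.le1 ω x)) (tauI_nonneg _ _ _ _ _ _)
      (tauI_le_one _ _ _ _ _ _)) (wA.nn ω x) (wA.le1 ω x))
    (fun x => (((wo.ms x).mul (wr.ms x)).mul (meas_tauI _ _ _ _ _)).mul (wA.ms x)) fun n hn => ?_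
  have hp := st_piece (i := i) (l := l) hn
  have wn : Wt μ s N y κ (st i l n) (st i l n + l) m m fun ω x => rpI (wm μ s N (Pn N y) ω) m (st i l n) (st i l n + l) M x :=
    wt_rp hy (by omega) hMκ
  have h2 := int_tau (μ := μ) (s := s) hy (m := m') hM hq hq' hm'.1 (F := fun ω x => ot (wm μ s N (Pn N y) ω) zo c x *
    ow (wm μ s N (Pn N y) ω) u' v' z' x * A ω x * rpI (wm μ s N (Pn N y) ω) m (st i l n) (st i l n + l) M x)
    (C := pc μ s N ε tr * pc μ s N ε tl * pc μ s N ε tb * pc μ s N ε tA * pc μ s N ε tb + er N c')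
    (fun ω x => mul_nonneg (mul_nonneg (mul_nonneg (wo.nn ω x) (wr.nn ω x)) (wA.nn ω x)) (wn.nn ω x))
    (fun ω x => mul_le_one₀ (mul_le_one₀ (mul_le_one₀ (wo.le1 ω x) (wr.nn ω x) (wr.le1 ω x)) (wA.nn ω x) (wA.le1 ω x))
      (wn.nn ω x) (wn.le1 ω x))
    (fun x => (((wo.ms x).mul (wr.ms x)).mul (wA.ms x)).mul (wn.ms x)) (fun n' hn' => ?_)
  · refine le_trans (le_of_eq ?_) h2
    refine integral_congr_ae (Filter.Eventually.of_forall fun ω => ?_)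
    show gm _ _ = gm _ _
    congr 1
    funext x
    ring
  · have hp' := st_piece (i := i') (l := l) hn'
    have wn' : Wt μ s N y κ (st i' l n') (st i' l n' + l) m' m' fun ω x =>
      rpI (wm μ s N (Pn N y) ω) m' (st i' l n') (st i' l n' + l) M x := wt_rp hy (by omega) hMκ
    have h5 := hP.five' (t0 := tr) (t1 := tl) (t2 := tb) (t3 := tA) (t4 := tb) ⟨hr, by omega⟩ ⟨hl, by omega⟩ ⟨hb, by omega⟩ pA
      ⟨hb, by omega⟩ hz'.2.2 (by omega) (by omega) (by omega) wo wr wn' wA wn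
    refine le_trans (le_of_eq ?_) h5
    refine integral_congr_ae (Filter.Eventually.of_forall fun ω => ?_)
    show gm _ _ = gm _ _
    congr 1
    funext x
    ring

/-- Micro ties, far rows, the own loop of the left row is long: only the long loop and the micro tie of the left row. -/
theorem mic_gap (hP : Prc μ s N y ε θ κ c') (hy : y ≤ N) {tr tD tb zo c u v z m i L l q : ℕ} {M : ℝ}
    (hr : (N : ℝ) ^ θ ≤ tr ∧ tr ≤ N) (hD : (N : ℝ) ^ θ ≤ tD ∧ tD ≤ N) (hb : (N : ℝ) ^ θ ≤ tb ∧ tb ≤ N) (hbl : tb / 4 ≤ l)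
    (hM : 8 ≤ M) (hMκ : 7 * M ≤ (N : ℝ) ^ κ) (hq : 10 * M ≤ q) (hq' : (q : ℝ) ≤ 20 * M) (ho : zo + tr / 4 ≤ c ∧ c ≤ N)
    (hz : u + tD / 4 ≤ v ∧ v ≤ z ∧ z < zo) (hm : i + 3 * q * (l + 1) ≤ L ∧ L ≤ m ∧ m < u) :
    ∫ ω, gm (wm μ s N (Pn N y) ω) (fun x => ot (wm μ s N (Pn N y) ω) zo c x * ow (wm μ s N (Pn N y) ω) u v z x *
      tauI (wm μ s N (Pn N y) ω) m i L M x) ∂(Pm μ N) ≤
      3 * q * (pc μ s N ε tr * pc μ s N ε tD * pc μ s N ε tb + er N c') + Real.exp (-M) := by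
  have wo : Wt μ s N y κ zo c N N fun ω x => ot (wm μ s N (Pn N y) ω) zo c x := wt_ow hy le_rfl ho.2
  have wr : Wt μ s N y κ u v z z fun ω x => ow (wm μ s N (Pn N y) ω) u v z x := wt_ow hy le_rfl hz.2.1
  refine int_tau hy hM hq hq' hm.1 (F := fun ω x => ot (wm μ s N (Pn N y) ω) zo c x * ow (wm μ s N (Pn N y) ω) u v z x)
    (fun ω x => mul_nonneg (wo.nn ω x) (wr.nn ω x)) (fun ω x => mul_le_one₀ (wo.le1 ω x) (wr.nn ω x) (wr.le1 ω x))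
    (fun x => (wo.ms x).mul (wr.ms x)) fun n hn => ?_
  have hp := st_piece (i := i) (l := l) hn
  exact hP.three' ⟨hr, by omega⟩ ⟨hD, by omega⟩ ⟨hb, by omega⟩ hz.2.2 (by omega) wo wr (wt_rp hy (by omega) hMκ)

end

end Pool.Agent.W_7d29a1_C0.T93
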