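import Pool.Agent.W_7d29a1_C0.PT93C

/-!
CURV0 (MP_7d29a1_pr), leaf (T), PRICES, part 4: THE PRICES OF TWO ROWS. `PrN k` = the price with `k` windows, `prN_all` = all `k ≤ K`
with common constants. Own loops `ow w u v z` = the mass, given what is behind the row `z`, of the paths which do not meet the base path
in `[u, v]`; micro ties `mcS` = the sum over the pieces of `[j - b, j + b]` of `rpI` (an alternative of mass more than `exp (- 7 M)` which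
does not meet the path in the piece, given what is behind the row `m`); outer tie `ow w zt c N`. Two rows `j < k`:
* own loops: `own1` (near: only the right one), `own2` (far), `own3` (the row behind may be common: the left loop closes in front of the
  right one, or it is long);
* with micro ties: `mic1` (distance `< 4 b`: only the right row), `mic2` (the tie of `j` closes in front of `k - b`, or it is long),
  `mic3` (far).  (helper93)
-/

set_option autoImplicit false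
set_option linter.unusedSectionVars false
set_option linter.unusedVariables false

namespace Pool.Agent.W_7d29a1_C0.T93

open MeasureTheory ProbabilityTheory Filter Topology Finset
open Pool.Agent.W_7d29a1_F Pool.Agent.W_7d29a1_X Pool.Agent.W_7d29a1_h4g Pool.Agent.W_7d29a1_H
open Pool.Agent.W_7d29a1_HS (In wd md)
open Pool.Agent.W_7d29a1_HZ
open Pool.Agent.W_7d29a1_C0.Mod92
open Pool.W7d29a1.C0 (gz gm gz_pos gm_mono gm_add gm_smul gm_const gm_nonneg PP PP_eq)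
open Pool.W7d29a1.C0.VT31 (Mp cE fz fz_pos cE_mono cE_nonneg cE_one gm_eq_cE cE_add gv)
open Pool.W7d29a1.C0.R43 (Tau Rp mI mI_nonneg st tau_rp swP_pJ MxQ)
open Pool.Agent.W_7d29a1_C0.Swap57 (NI NI_nonneg cE2)

noncomputable section

variable {μ : Measure ℝ} {s : ℝ} {N y : ℕ} {ε θ κ c' : ℝ}

/-! ### The price with `k` windows -/

/-- The price with `k` windows. -/
def PrN (μ : Measure ℝ) (s : ℝ) (N y : ℕ) (ε θ κ c' : ℝ) (k : ℕ) : Prop :=
  ∀ (t u v d z : Fin k → ℕ) (H : Fin k → Env × Finset ℕ → Px (Pn N y) → ℝ), (∀ i, Plc N θ (t i) (u i) (v i) (d i) (z i)) →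
    (∀ i i', i < i' → d i' < u i) → (∀ i, Wt μ s N y κ (u i) (v i) (d i) (z i) (H i)) →
    ∫ ω, gm (wm μ s N (Pn N y) ω) (fun x => ∏ i, H i ω x) ∂(Pm μ N) ≤
      ∏ i, ((N : ℝ) ^ ε * (EE' μ s (t i))⁻¹) + Real.exp (-(N : ℝ) ^ c')

theorem Wt.mono {κ₁ : ℝ} (hy : y ≤ N) (hN : 1 ≤ N) {u v d z : ℕ} {H : Env × Finset ℕ → Px (Pn N y) → ℝ}
    (h : Wt μ s N y κ u v d z H) (hκ : κ ≤ κ₁) : Wt μ s N y κ₁ u v d z H := by
  have := ne_Pn (N := N) (y := y) hy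
  have hN1 : (1 : ℝ) ≤ N := by exact_mod_cast hN
  refine ⟨h.nn, h.le1, h.ms, fun ω x => (h.pl ω x).trans (mul_le_mul_of_nonneg_right ?_ ?_)⟩
  · exact Real.exp_le_exp.2 (Real.rpow_le_rpow_of_exponent_le hN1 hκ)
  · exact cE_nonneg _ _ (fun _ => Kb_nonneg _ _ _ _ _) _

theorem PrN.mono {κ₁ c₁ : ℝ} {k : ℕ} (hy : y ≤ N) (hN : 1 ≤ N) (h : PrN μ s N y ε θ κ c' k) (hκ : κ₁ ≤ κ) (hc : c₁ ≤ c') :
    PrN μ s N y ε θ κ₁ c₁ k := fun t u v d z H hP ho hW => by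
  have hN1 : (1 : ℝ) ≤ N := by exact_mod_cast hN
  refine (h t u v d z H hP ho fun i => (hW i).mono hy hN hκ).trans (add_le_add le_rfl ?_)
  exact Real.exp_le_exp.2 (neg_le_neg (Real.rpow_le_rpow_of_exponent_le hN1 hc))

/-- **All prices with at most `K` windows hold**, for all ends in the cone. -/
theorem prN_all [IsProbabilityMeasure μ] {c₀ C₀ : ℝ} {n₀ : ℕ} (hin : In μ s c₀ C₀ n₀) (K : ℕ) : ∀ ε θ : ℝ, 0 < ε → 0 < θ →
    ∃ δ κ c' : ℝ, 0 < δ ∧ 0 < κ ∧ 0 < c' ∧ ∃ N₀ : ℕ, ∀ N : ℕ, N₀ ≤ N → ∀ y : ℕ, y ≤ N →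
    |(y : ℝ) - sl μ s * N| ≤ (N : ℝ) ^ δ * wd' μ s N → ∀ k ≤ K, PrN μ s N y ε θ κ c' k := by
  intro ε θ hε hθ
  have one : ∀ k : ℕ, ∃ δ κ c' : ℝ, 0 < δ ∧ 0 < κ ∧ 0 < c' ∧ ∃ N₀ : ℕ, ∀ N : ℕ, N₀ ≤ N → ∀ y : ℕ, y ≤ N →
      |(y : ℝ) - sl μ s * N| ≤ (N : ℝ) ^ δ * wd' μ s N → PrN μ s N y ε θ κ c' k := fun k => by
    obtain ⟨δ, κ, c', hδ, hκ, hc, N₀, h⟩ := prc93 hin k ε θ hε hθ
    refine ⟨δ, κ, c', hδ, hκ, hc, N₀, fun N hN y hy hyc t u v d z H hP ho hW => ?_⟩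
    exact h N hN y hy hyc t u v d z (fun i => (hP i).1) (fun i => (hP i).2) ho H (fun i => (hW i).nn) (fun i => (hW i).le1)
      fun i => (hW i).pl
  induction K with
  | zero =>
    obtain ⟨δ, κ, c', hδ, hκ, hc, N₀, h⟩ := one 0
    refine ⟨δ, κ, c', hδ, hκ, hc, N₀, fun N hN y hy hyc k hk => ?_⟩
    rw [Nat.le_zero.1 hk]
    exact h N hN y hy hyc
  | succ K ih =>
    obtain ⟨δ, κ, c', hδ, hκ, hc, N₀, h⟩ := ih
    obtain ⟨δ₁, κ₁, c₁, hδ₁, hκ₁, hc₁, N₁, h₁⟩ := one (K + 1)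
    refine ⟨min δ δ₁, min κ κ₁, min c' c₁, lt_min hδ hδ₁, lt_min hκ hκ₁, lt_min hc hc₁, N₀ + N₁ + 1, fun N hN y hy hyc k hk => ?_⟩
    have hN1 : (1 : ℝ) ≤ N := by exact_mod_cast (show 1 ≤ N by omega)
    have hwd : 0 ≤ wd' μ s N := le_trans zero_le_one (le_max_left _ _)
    have hcone : ∀ δ', min δ δ₁ ≤ δ' → |(y : ℝ) - sl μ s * N| ≤ (N : ℝ) ^ δ' * wd' μ s N := fun δ' hδ' =>
      hyc.trans (mul_le_mul_of_nonneg_right (Real.rpow_le_rpow_of_exponent_le hN1 hδ') hwd)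
    rcases Nat.lt_or_ge K k with hk' | hk'
    · have e : k = K + 1 := by omega
      rw [e]
      exact (h₁ N (by omega) y hy (hcone _ (min_le_right _ _))).mono hy (by omega) (min_le_right _ _) (min_le_right _ _)
    · exact (h N (by omega) y hy (hcone _ (min_le_left _ _)) k hk').mono hy (by omega) (min_le_left _ _) (min_le_left _ _)

/-! ### Means of functionals of one path -/

/-- The mean of a functional of one path. -/
def IG (μ : Measure ℝ) (s : ℝ) (N y : ℕ) (H : Env × Finset ℕ → Px (Pn N y) → ℝ) : ℝ :=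
  ∫ ω, gm (wm μ s N (Pn N y) ω) (H ω) ∂(Pm μ N)

/-- Functionals between `0` and `1`. -/
structure B01 (N y : ℕ) (H : Env × Finset ℕ → Px (Pn N y) → ℝ) : Prop where
  nn : ∀ ω x, 0 ≤ H ω x
  le1 : ∀ ω x, H ω x ≤ 1
  ms : ∀ x, Measurable fun ω => H ω x

theorem Wt.b {u v d z : ℕ} {H : Env × Finset ℕ → Px (Pn N y) → ℝ} (h : Wt μ s N y κ u v d z H) : B01 N y H :=
  ⟨h.nn, h.le1, h.ms⟩

theorem B01.mul {F G : Env × Finset ℕ → Px (Pn N y) → ℝ} (h : B01 N y F) (h' : B01 N y G) :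
    B01 N y fun ω x => F ω x * G ω x :=
  ⟨fun ω x => mul_nonneg (h.nn ω x) (h'.nn ω x), fun ω x => mul_le_one₀ (h.le1 ω x) (h'.nn ω x) (h'.le1 ω x),
    fun x => (h.ms x).mul (h'.ms x)⟩

theorem IG_congr {F G : Env × Finset ℕ → Px (Pn N y) → ℝ} (h : ∀ ω x, F ω x = G ω x) : IG μ s N y F = IG μ s N y G := by
  have e : F = G := funext fun ω => funext fun x => h ω x
  rw [e]

/-- The index set of the pairs of pieces. -/
theorem sum_pair93 {n : ℕ} (f g : ℕ → ℝ) : (∑ i ∈ range n, f i) * ∑ i ∈ range n, g i =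
    ∑ p ∈ range n ×ˢ range n, f p.1 * g p.2 := by
  rw [sum_mul_sum, sum_product]

section Prob

variable [IsProbabilityMeasure μ]

theorem IG_mono (hy : y ≤ N) {F G : Env × Finset ℕ → Px (Pn N y) → ℝ} {B : ℝ} (F0 : ∀ ω x, 0 ≤ F ω x)
    (hm : ∀ x, Measurable fun ω => G ω x) (hb : ∀ ω x, |G ω x| ≤ B) (h : ∀ ω x, F ω x ≤ G ω x) :
    IG μ s N y F ≤ IG μ s N y G := int_gm_mono hy F0 hm hb h

/-- Bounded by a product with a sum of pieces. -/
theorem IG_sum (hy : y ≤ N) {n : ℕ} {F G : Env × Finset ℕ → Px (Pn N y) → ℝ} {R : ℕ → Env × Finset ℕ → Px (Pn N y) → ℝ} {C : ℝ}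
    (F0 : ∀ ω x, 0 ≤ F ω x) (hG : B01 N y G) (hR : ∀ i < n, B01 N y (R i))
    (h : ∀ i < n, IG μ s N y (fun ω x => G ω x * R i ω x) ≤ C) (hF : ∀ ω x, F ω x ≤ G ω x * ∑ i ∈ range n, R i ω x) :
    IG μ s N y F ≤ n * C := by
  have hb : ∀ i ∈ range n, ∀ ω x, |G ω x * R i ω x| ≤ 1 := fun i hi ω x => by
    have := (hG.mul (hR i (mem_range.1 hi)))
    rw [abs_of_nonneg (this.nn ω x)]
    exact this.le1 ω x
  have hm : ∀ i ∈ range n, ∀ x, Measurable fun ω => G ω x * R i ω x := fun i hi x => (hG.mul (hR i (mem_range.1 hi))).ms x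
  have h1 := int_gm_sum_le (μ := μ) (s := s) hy (range n) (fun _ => (1 : ℝ)) (G := fun i ω x => G ω x * R i ω x) (B := 1) (C := C)
    (fun _ _ => zero_le_one) hm hb fun i hi => h i (mem_range.1 hi)
  rw [sum_const, card_range, nsmul_eq_mul, mul_one] at h1
  refine le_trans ?_ h1
  refine int_gm_mono (B := n) hy F0 (fun x => Finset.measurable_sum _ fun i hi => (hm i hi x).const_mul _) (fun ω x => ?_)
    fun ω x => (hF ω x).trans (le_of_eq ?_)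
  · refine (abs_sum_le_sum_abs _ _).trans ((sum_le_sum fun i hi => ?_).trans (le_of_eq (by
      rw [sum_const, card_range, nsmul_eq_mul, mul_one])))
    rw [one_mul]
    exact hb i hi ω x
  · rw [mul_sum]
    exact sum_congr rfl fun i _ => (one_mul _).symm

/-- Bounded by a product with two sums of pieces. -/
theorem IG_sum2 (hy : y ≤ N) {n : ℕ} {F G : Env × Finset ℕ → Px (Pn N y) → ℝ} {R R' : ℕ → Env × Finset ℕ → Px (Pn N y) → ℝ}
    {C : ℝ} (F0 : ∀ ω x, 0 ≤ F ω x) (hG : B01 N y G) (hR : ∀ i < n, B01 N y (R i)) (hR' : ∀ i < n, B01 N y (R' i))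
    (h : ∀ i < n, ∀ i' < n, IG μ s N y (fun ω x => G ω x * R i ω x * R' i' ω x) ≤ C)
    (hF : ∀ ω x, F ω x ≤ G ω x * (∑ i ∈ range n, R i ω x) * ∑ i ∈ range n, R' i ω x) :
    IG μ s N y F ≤ (n : ℝ) ^ 2 * C := by
  have hB : ∀ p ∈ range n ×ˢ range n, B01 N y fun ω x => G ω x * R p.1 ω x * R' p.2 ω x := fun p hp => by
    obtain ⟨h1, h2⟩ := mem_product.1 hp
    exact (hG.mul (hR _ (mem_range.1 h1))).mul (hR' _ (mem_range.1 h2))
  have hb : ∀ p ∈ range n ×ˢ range n, ∀ ω x, |G ω x * R p.1 ω x * R' p.2 ω x| ≤ 1 := fun p hp ω x => by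
    rw [abs_of_nonneg ((hB p hp).nn ω x)]
    exact (hB p hp).le1 ω x
  have h1 := int_gm_sum_le (μ := μ) (s := s) hy (range n ×ˢ range n) (fun _ => (1 : ℝ))
    (G := fun p ω x => G ω x * R p.1 ω x * R' p.2 ω x) (B := 1) (C := C)
    (fun _ _ => zero_le_one) (fun p hp => (hB p hp).ms) hb fun p hp => by
      obtain ⟨h1, h2⟩ := mem_product.1 hp
      exact h _ (mem_range.1 h1) _ (mem_range.1 h2)
  rw [sum_const, card_product, card_range, nsmul_eq_mul, mul_one] at h1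
  have e0 : ((n * n : ℕ) : ℝ) = (n : ℝ) ^ 2 := by
    push_cast
    ring
  rw [e0] at h1
  refine le_trans ?_ h1
  refine int_gm_mono (B := ((n * n : ℕ) : ℝ)) hy F0 (fun x => Finset.measurable_sum _ fun p hp => ((hB p hp).ms x).const_mul _)
    (fun ω x => ?_) fun ω x => (hF ω x).trans (le_of_eq ?_)
  · refine (abs_sum_le_sum_abs _ _).trans ((sum_le_sum fun p hp => ?_).trans (le_of_eq (by
      rw [sum_const, card_product, card_range, nsmul_eq_mul, mul_one])))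
    rw [one_mul]
    exact hb p hp ω x
  · rw [mul_assoc, sum_pair93 (fun i => R i ω x) fun i => R' i ω x, mul_sum]
    exact sum_congr rfl fun p _ => by ring

/-- Bounded by a sum of two functionals. -/
theorem IG_add (hy : y ≤ N) {F A B : Env × Finset ℕ → Px (Pn N y) → ℝ} {C D K : ℝ} (F0 : ∀ ω x, 0 ≤ F ω x)
    (A0 : ∀ ω x, 0 ≤ A ω x) (B0 : ∀ ω x, 0 ≤ B ω x) (hA : ∀ x, Measurable fun ω => A ω x) (hB : ∀ x, Measurable fun ω => B ω x)
    (bA : ∀ ω x, A ω x ≤ K) (bB : ∀ ω x, B ω x ≤ K) (h1 : IG μ s N y A ≤ C) (h2 : IG μ s N y B ≤ D)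
    (hF : ∀ ω x, F ω x ≤ A ω x + B ω x) : IG μ s N y F ≤ C + D := by
  have h3 := int_gm_add_le (μ := μ) (s := s) (B := K) hy hA hB
    (fun ω x => by rw [abs_of_nonneg (A0 ω x)]; exact bA ω x) (fun ω x => by rw [abs_of_nonneg (B0 ω x)]; exact bB ω x) h1 h2
  refine le_trans (int_gm_mono (G := fun ω x => A ω x + B ω x) (B := K + K) hy F0 (fun x => (hA x).add (hB x)) (fun ω x => ?_) hF) h3
  rw [abs_of_nonneg (add_nonneg (A0 ω x) (B0 ω x))]
  exact add_le_add (bA ω x) (bB ω x)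

end Prob

/-! ### Two to five windows, explicit -/

theorem PrN.p2 (hP : PrN μ s N y ε θ κ c' 2) {t0 u0 v0 d0 z0 t1 u1 v1 d1 z1 : ℕ} {H0 H1 : Env × Finset ℕ → Px (Pn N y) → ℝ}
    (p0 : Plc N θ t0 u0 v0 d0 z0) (p1 : Plc N θ t1 u1 v1 d1 z1) (o1 : d1 < u0) (w0 : Wt μ s N y κ u0 v0 d0 z0 H0)
    (w1 : Wt μ s N y κ u1 v1 d1 z1 H1) :
    IG μ s N y (fun ω x => H0 ω x * H1 ω x) ≤ pc μ s N ε t0 * pc μ s N ε t1 + er N c' := by
  have h := hP ![t0, t1] ![u0, u1] ![v0, v1] ![d0, d1] ![z0, z1] ![H0, H1]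
    (by intro i; fin_cases i <;> assumption) (by
      intro i i' hi
      fin_cases i <;> fin_cases i' <;> first | exact absurd hi (by decide) | exact o1)
    (by intro i; fin_cases i <;> assumption)
  simp only [Fin.prod_univ_two] at h
  exact h

theorem PrN.p3 (hP : PrN μ s N y ε θ κ c' 3) {t0 u0 v0 d0 z0 t1 u1 v1 d1 z1 t2 u2 v2 d2 z2 : ℕ}
    {H0 H1 H2 : Env × Finset ℕ → Px (Pn N y) → ℝ} (p0 : Plc N θ t0 u0 v0 d0 z0) (p1 : Plc N θ t1 u1 v1 d1 z1)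
    (p2 : Plc N θ t2 u2 v2 d2 z2) (o1 : d1 < u0) (o2 : d2 < u1) (w0 : Wt μ s N y κ u0 v0 d0 z0 H0)
    (w1 : Wt μ s N y κ u1 v1 d1 z1 H1) (w2 : Wt μ s N y κ u2 v2 d2 z2 H2) :
    IG μ s N y (fun ω x => H0 ω x * H1 ω x * H2 ω x) ≤ pc μ s N ε t0 * pc μ s N ε t1 * pc μ s N ε t2 + er N c' := by
  have q1 := p1.2
  have o3 : d2 < u0 := by omega
  have h := hP ![t0, t1, t2] ![u0, u1, u2] ![v0, v1, v2] ![d0, d1, d2] ![z0, z1, z2] ![H0, H1, H2]
    (by intro i; fin_cases i <;> assumption) (by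
      intro i i' hi
      fin_cases i <;> fin_cases i' <;> first | exact absurd hi (by decide) | exact o1 | exact o2 | exact o3)
    (by intro i; fin_cases i <;> assumption)
  simp only [Fin.prod_univ_three] at h
  exact h

theorem PrN.p4 (hP : PrN μ s N y ε θ κ c' 4) {t0 u0 v0 d0 z0 t1 u1 v1 d1 z1 t2 u2 v2 d2 z2 t3 u3 v3 d3 z3 : ℕ}
    {H0 H1 H2 H3 : Env × Finset ℕ → Px (Pn N y) → ℝ} (p0 : Plc N θ t0 u0 v0 d0 z0) (p1 : Plc N θ t1 u1 v1 d1 z1)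
    (p2 : Plc N θ t2 u2 v2 d2 z2) (p3 : Plc N θ t3 u3 v3 d3 z3) (o1 : d1 < u0) (o2 : d2 < u1) (o3 : d3 < u2)
    (w0 : Wt μ s N y κ u0 v0 d0 z0 H0) (w1 : Wt μ s N y κ u1 v1 d1 z1 H1) (w2 : Wt μ s N y κ u2 v2 d2 z2 H2)
    (w3 : Wt μ s N y κ u3 v3 d3 z3 H3) :
    IG μ s N y (fun ω x => H0 ω x * H1 ω x * H2 ω x * H3 ω x) ≤
      pc μ s N ε t0 * pc μ s N ε t1 * pc μ s N ε t2 * pc μ s N ε t3 + er N c' := by
  have q1 := p1.2
  have q2 := p2.2
  have q3 := p3.2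
  have r1 : d2 < u0 := by omega
  have r2 : d3 < u0 := by omega
  have r4 : d3 < u1 := by omega
  have h := hP ![t0, t1, t2, t3] ![u0, u1, u2, u3] ![v0, v1, v2, v3] ![d0, d1, d2, d3] ![z0, z1, z2, z3] ![H0, H1, H2, H3]
    (by intro i; fin_cases i <;> assumption) (by
      intro i i' hi
      fin_cases i <;> fin_cases i' <;> first
        | exact absurd hi (by decide)
        | exact o1
        | exact o2
        | exact o3
        | exact r1
        | exact r2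
        | exact r4)
    (by intro i; fin_cases i <;> assumption)
  simp only [Fin.prod_univ_four] at h
  exact h

theorem PrN.p5 (hP : PrN μ s N y ε θ κ c' 5) {t0 u0 v0 d0 z0 t1 u1 v1 d1 z1 t2 u2 v2 d2 z2 t3 u3 v3 d3 z3 t4 u4 v4 d4 z4 : ℕ}
    {H0 H1 H2 H3 H4 : Env × Finset ℕ → Px (Pn N y) → ℝ} (p0 : Plc N θ t0 u0 v0 d0 z0) (p1 : Plc N θ t1 u1 v1 d1 z1)
    (p2 : Plc N θ t2 u2 v2 d2 z2) (p3 : Plc N θ t3 u3 v3 d3 z3) (p4 : Plc N θ t4 u4 v4 d4 z4) (o1 : d1 < u0) (o2 : d2 < u1)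
    (o3 : d3 < u2) (o4 : d4 < u3) (w0 : Wt μ s N y κ u0 v0 d0 z0 H0) (w1 : Wt μ s N y κ u1 v1 d1 z1 H1)
    (w2 : Wt μ s N y κ u2 v2 d2 z2 H2) (w3 : Wt μ s N y κ u3 v3 d3 z3 H3) (w4 : Wt μ s N y κ u4 v4 d4 z4 H4) :
    IG μ s N y (fun ω x => H0 ω x * H1 ω x * H2 ω x * H3 ω x * H4 ω x) ≤
      pc μ s N ε t0 * pc μ s N ε t1 * pc μ s N ε t2 * pc μ s N ε t3 * pc μ s N ε t4 + er N c' := by
  have q1 := p1.2
  have q2 := p2.2
  have q3 := p3.2
  have q4 := p4.2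
  have r1 : d2 < u0 := by omega
  have r2 : d3 < u0 := by omega
  have r3 : d4 < u0 := by omega
  have r4 : d3 < u1 := by omega
  have r5 : d4 < u1 := by omega
  have r6 : d4 < u2 := by omega
  have h := hP ![t0, t1, t2, t3, t4] ![u0, u1, u2, u3, u4] ![v0, v1, v2, v3, v4] ![d0, d1, d2, d3, d4] ![z0, z1, z2, z3, z4]
    ![H0, H1, H2, H3, H4]
    (by intro i; fin_cases i <;> assumption) (by
      intro i i' hi
      fin_cases i <;> fin_cases i' <;> first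
        | exact absurd hi (by decide)
        | exact o1
        | exact o2
        | exact o3
        | exact o4
        | exact r1
        | exact r2
        | exact r3
        | exact r4
        | exact r5
        | exact r6)
    (by intro i; fin_cases i <;> assumption)
  simp only [Fin.prod_univ_five] at h
  exact h

/-! ### Micro ties -/

/-- The start of the piece `n` of the two halves of the window of the row `j`. -/
def pst (b j l q n : ℕ) : ℕ := if n < 3 * q then st (j - b) l n else st j l (n - 3 * q)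

theorem pst_bd {b j l q n : ℕ} (hb : b ≤ j) (hl : 3 * q * (l + 1) ≤ b) (hn : n < 6 * q) :
    j - b ≤ pst b j l q n ∧ pst b j l q n + l ≤ j + b := by
  unfold pst
  split_ifs with h
  · obtain ⟨h1, h2⟩ := st_piece (i := j - b) (l := l) h
    omega
  · obtain ⟨h1, h2⟩ := st_piece (i := j) (l := l) (show n - 3 * q < 3 * q by omega)
    omega

/-- The micro ties of the row `j`, given what is behind the row `m`. -/
def mcS (w : Px (Pn N y) → ℝ) (m b j l q : ℕ) (M : ℝ) (x : Px (Pn N y)) : ℝ :=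
  ∑ n ∈ range (6 * q), rpI w m (pst b j l q n) (pst b j l q n + l) M x

theorem mcS_nonneg (w : Px (Pn N y) → ℝ) (m b j l q : ℕ) (M : ℝ) (x : Px (Pn N y)) : 0 ≤ mcS w m b j l q M x :=
  sum_nonneg fun _ _ => rpI_nonneg _ _ _ _ _ _

/-- The alternatives which meet the path again in front of `d`. -/
def rq (w : Px (Pn N y) → ℝ) (m u v d : ℕ) (M : ℝ) (x : Px (Pn N y)) : ℝ :=
  min 1 (Real.exp (7 * M) * cE w (pJ 0 m) (Kb u v d x) x)

/-- The alternatives which do not meet the path in `[u, v]`. -/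
def rr (w : Px (Pn N y) → ℝ) (m u v : ℕ) (M : ℝ) (x : Px (Pn N y)) : ℝ := min 1 (Real.exp (7 * M) * ow w u v m x)

theorem rpI_split (hy : y ≤ N) (w : Px (Pn N y) → ℝ) (m u v d : ℕ) (M : ℝ) (x : Px (Pn N y)) :
    rpI w m u v M x ≤ rq w m u v d M x + rr w m v d M x := by
  have := ne_Pn (N := N) (y := y) hy
  have h1 : 0 ≤ Real.exp (7 * M) * cE w (pJ 0 m) (Kb u v d x) x :=
    mul_nonneg (Real.exp_pos _).le (cE_nonneg _ _ (fun _ => Kb_nonneg _ _ _ _ _) _)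
  have h2 : 0 ≤ Real.exp (7 * M) * ow w v d m x := mul_nonneg (Real.exp_pos _).le (ow_nonneg hy _ _ _ _ _)
  have h3 : 0 ≤ rq w m u v d M x := le_min zero_le_one h1
  have h4 : 0 ≤ rr w m v d M x := le_min zero_le_one h2
  unfold rpI
  split_ifs with h
  · have h5 : Real.exp (-(7 * M)) < cE w (pJ 0 m) (Kb u v d x) x + ow w v d m x := lt_of_lt_of_le h (ow_split hy w u v d m x)
    have h6 : Real.exp (7 * M) * Real.exp (-(7 * M)) = 1 := by
      rw [← Real.exp_add, add_neg_cancel, Real.exp_zero]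
    have h7 : 1 < Real.exp (7 * M) * cE w (pJ 0 m) (Kb u v d x) x + Real.exp (7 * M) * ow w v d m x := by
      rw [← mul_add, ← h6]
      exact mul_lt_mul_of_pos_left h5 (Real.exp_pos _)
    rcases le_total 1 (Real.exp (7 * M) * cE w (pJ 0 m) (Kb u v d x) x) with h8 | h8
    · have h9 : rq w m u v d M x = 1 := min_eq_left h8
      linarith
    · have h9 : rq w m u v d M x = Real.exp (7 * M) * cE w (pJ 0 m) (Kb u v d x) x := min_eq_right h8
      rcases le_total 1 (Real.exp (7 * M) * ow w v d m x) with h10 | h10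
      · have h11 : rr w m v d M x = 1 := min_eq_left h10
        linarith
      · have h11 : rr w m v d M x = Real.exp (7 * M) * ow w v d m x := min_eq_right h10
        linarith
  · linarith

theorem wt_rq (hy : y ≤ N) {M : ℝ} (m u v d : ℕ) (hM : 7 * M ≤ (N : ℝ) ^ κ) :
    Wt μ s N y κ u v d m fun ω x => rq (wm μ s N (Pn N y) ω) m u v d M x := by
  have := ne_Pn (N := N) (y := y) hy
  have h0 : ∀ (ω : Env × Finset ℕ) (x : Px (Pn N y)), 0 ≤ cE (wm μ s N (Pn N y) ω) (pJ 0 m) (Kb u v d x) x := fun ω x =>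
    cE_nonneg _ _ (fun _ => Kb_nonneg _ _ _ _ _) _
  refine ⟨fun ω x => le_min zero_le_one (mul_nonneg (Real.exp_pos _).le (h0 ω x)), fun ω x => min_le_left _ _, fun x => ?_,
    fun ω x => (min_le_right _ _).trans (mul_le_mul_of_nonneg_right (Real.exp_le_exp.2 hM) (h0 ω x))⟩
  exact measurable_const.min ((meas_cEK _ _ _).const_mul _)

theorem wt_rr (hy : y ≤ N) {M : ℝ} {m u v : ℕ} (hv : v ≤ m) (hM : 7 * M ≤ (N : ℝ) ^ κ) :
    Wt μ s N y κ u v m m fun ω x => rr (wm μ s N (Pn N y) ω) m u v M x := by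
  have := ne_Pn (N := N) (y := y) hy
  have h0 : ∀ (ω : Env × Finset ℕ) (x : Px (Pn N y)), 0 ≤ cE (wm μ s N (Pn N y) ω) (pJ 0 m) (Kb u v m x) x := fun ω x =>
    cE_nonneg _ _ (fun _ => Kb_nonneg _ _ _ _ _) _
  have h1 : ∀ (ω : Env × Finset ℕ) (x : Px (Pn N y)), ow (wm μ s N (Pn N y) ω) u v m x ≤
      cE (wm μ s N (Pn N y) ω) (pJ 0 m) (Kb u v m x) x := fun ω x => NI_le_Kb_z _ hv x
  refine ⟨fun ω x => le_min zero_le_one (mul_nonneg (Real.exp_pos _).le (ow_nonneg hy _ _ _ _ _)), fun ω x => min_le_left _ _,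
    fun x => ?_, fun ω x => (min_le_right _ _).trans (mul_le_mul (Real.exp_le_exp.2 hM) (h1 ω x) (ow_nonneg hy _ _ _ _ _)
      (Real.exp_pos _).le)⟩
  exact measurable_const.min ((meas_ow _ _ _ _).const_mul _)

/-! ### Own loops of two rows -/

section Pair

variable [IsProbabilityMeasure μ]
variable {zt c tr tl tD tb : ℕ} {M : ℝ}

/-- The outer tie. -/
theorem wt_out (hy : y ≤ N) (hc : c ≤ N) : Wt μ s N y κ (zt + 1) c N N fun ω x => ow (wm μ s N (Pn N y) ω) zt c N x :=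
  wt_ow hy (Nat.le_succ zt) hc

/-- The common data: the outer tie and the own loop of the right row `(uk, vk, zk)`. -/
structure Rt (N : ℕ) (θ : ℝ) (zt c tr tl uk vk zk : ℕ) : Prop where
  tr0 : (N : ℝ) ^ θ ≤ tr
  tr1 : tr ≤ N
  tl0 : (N : ℝ) ^ θ ≤ tl
  tl1 : tl ≤ N
  zc : zt + 1 + tr / 4 ≤ c
  cN : c ≤ N
  uv : uk + 1 + tl / 4 ≤ vk
  vz : vk ≤ zk
  zz : zk ≤ zt

variable {uk vk zk : ℕ}

theorem Rt.po (h : Rt N θ zt c tr tl uk vk zk) : Plc N θ tr (zt + 1) c N N := ⟨⟨h.tr0, h.tr1⟩, h.zc, h.cN, le_rfl, le_rfl⟩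

theorem Rt.pk (h : Rt N θ zt c tr tl uk vk zk) : Plc N θ tl (uk + 1) vk zk zk :=
  ⟨⟨h.tl0, h.tl1⟩, h.uv, h.vz, le_rfl, by have := h.zz; have := h.zc; have := h.cN; omega⟩

theorem Rt.wk (hy : y ≤ N) (h : Rt N θ zt c tr tl uk vk zk) :
    Wt μ s N y κ (uk + 1) vk zk zk fun ω x => ow (wm μ s N (Pn N y) ω) uk vk zk x := wt_ow hy (Nat.le_succ uk) h.vz

/-- (o1) Own loops: only the right one. -/
theorem own1 (hP : PrN μ s N y ε θ κ c' 2) (hy : y ≤ N) (h : Rt N θ zt c tr tl uk vk zk) {G : Env × Finset ℕ → Px (Pn N y) → ℝ}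
    (G0 : ∀ ω x, 0 ≤ G ω x) (G1 : ∀ ω x, G ω x ≤ 1) :
    IG μ s N y (fun ω x => ow (wm μ s N (Pn N y) ω) zt c N x * (G ω x * ow (wm μ s N (Pn N y) ω) uk vk zk x)) ≤
      pc μ s N ε tr * pc μ s N ε tl + er N c' := by
  have h1 := hP.p2 h.po h.pk (Nat.lt_succ_of_le h.zz) (wt_out hy h.cN) (h.wk hy)
  have hb : B01 N y fun ω x => ow (wm μ s N (Pn N y) ω) zt c N x * ow (wm μ s N (Pn N y) ω) uk vk zk x :=
    (wt_out (κ := κ) hy h.cN).b.mul (h.wk (κ := κ) hy).b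
  refine (IG_mono (B := 1) hy (fun ω x => mul_nonneg (ow_nonneg hy _ _ _ _ _) (mul_nonneg (G0 ω x) (ow_nonneg hy _ _ _ _ _)))
    hb.ms (fun ω x => ?_) fun ω x => ?_).trans h1
  · rw [abs_of_nonneg (hb.nn ω x)]
    exact hb.le1 ω x
  · exact mul_le_mul_of_nonneg_left (mul_le_of_le_one_left (ow_nonneg hy _ _ _ _ _) (G1 ω x)) (ow_nonneg hy _ _ _ _ _)

/-- (o2) Own loops: the row behind the left one is in front of the right one. -/
theorem own2 (hP : PrN μ s N y ε θ κ c' 3) (hy : y ≤ N) (h : Rt N θ zt c tr tl uk vk zk) {u v z : ℕ} (h1 : u + tl / 4 ≤ v)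
    (h2 : v ≤ z) (h3 : z ≤ uk) :
    IG μ s N y (fun ω x => ow (wm μ s N (Pn N y) ω) zt c N x *
      (ow (wm μ s N (Pn N y) ω) u v z x * ow (wm μ s N (Pn N y) ω) uk vk zk x)) ≤
      pc μ s N ε tr * pc μ s N ε tl * pc μ s N ε tl + er N c' := by
  have hk := h.uv
  have hk' := h.vz
  have hk2 := h.zz
  have hk3 := h.zc
  have hk4 := h.cN
  have w1 : Wt μ s N y κ u v z z fun ω x => ow (wm μ s N (Pn N y) ω) u v z x := wt_ow hy le_rfl h2
  have h4 := hP.p3 h.po h.pk ⟨⟨h.tl0, h.tl1⟩, h1, h2, le_rfl, by omega⟩ (Nat.lt_succ_of_le h.zz) (Nat.lt_succ_of_le h3)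
    (wt_out hy h.cN) (h.wk hy) w1
  refine le_trans (le_of_eq (IG_congr fun ω x => ?_)) h4
  ring

/-- (o3) Own loops: the row behind the left one may be behind the right one. -/
theorem own3 (hP : PrN μ s N y ε θ κ c' 3) (hP2 : PrN μ s N y ε θ κ c' 2) (hy : y ≤ N) (h : Rt N θ zt c tr tl uk vk zk)
    {u v z : ℕ} (h1 : u + tl / 4 ≤ v) (hD : (N : ℝ) ^ θ ≤ tD) (hD' : tD ≤ N) (h2 : v + tD / 4 ≤ uk) (h3 : uk ≤ z) (h4 : z ≤ zt) :
    IG μ s N y (fun ω x => ow (wm μ s N (Pn N y) ω) zt c N x *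
      (ow (wm μ s N (Pn N y) ω) u v z x * ow (wm μ s N (Pn N y) ω) uk vk zk x)) ≤
      (pc μ s N ε tr * pc μ s N ε tl * pc μ s N ε tl + er N c') + (pc μ s N ε tr * pc μ s N ε tD + er N c') := by
  have hk := h.uv
  have hk' := h.vz
  have hk2 := h.zz
  have hk3 := h.zc
  have hk4 := h.cN
  have wo : Wt μ s N y κ (zt + 1) c N N fun ω x => ow (wm μ s N (Pn N y) ω) zt c N x := wt_out hy h.cN
  have wr : Wt μ s N y κ (uk + 1) vk zk zk fun ω x => ow (wm μ s N (Pn N y) ω) uk vk zk x := h.wk hy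
  have wK : Wt μ s N y κ u v uk z fun ω x => cE (wm μ s N (Pn N y) ω) (pJ 0 z) (Kb u v uk x) x := wt_kb hy le_rfl
  have wl : Wt μ s N y κ v uk z z fun ω x => ow (wm μ s N (Pn N y) ω) v uk z x := wt_ow hy le_rfl h3
  have g1 := hP.p3 h.po h.pk ⟨⟨h.tl0, h.tl1⟩, h1, by omega, h3, by omega⟩ (Nat.lt_succ_of_le h.zz) (Nat.lt_succ_self uk) wo wr wK
  have g2 := hP2.p2 h.po (p1 := (⟨⟨hD, hD'⟩, h2, h3, le_rfl, by omega⟩ : Plc N θ tD v uk z z)) (Nat.lt_succ_of_le h4) wo wl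
  have b1 := (wo.b.mul wr.b).mul wK.b
  have b2 := wo.b.mul wl.b
  refine IG_add (K := 1) hy (fun ω x => mul_nonneg (ow_nonneg hy _ _ _ _ _) (mul_nonneg (ow_nonneg hy _ _ _ _ _)
    (ow_nonneg hy _ _ _ _ _))) b1.nn b2.nn b1.ms b2.ms b1.le1 b2.le1 g1 g2 fun ω x => ?_
  have a1 := ow_split hy (wm μ s N (Pn N y) ω) u v uk z x
  have a2 := wo.nn ω x
  have a3 := wr.nn ω x
  have a4 := wr.le1 ω x
  have a5 := wl.nn ω x
  have a6 := mul_le_mul_of_nonneg_left a1 (mul_nonneg a2 a3)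
  rw [mul_add] at a6
  have a7 : ow (wm μ s N (Pn N y) ω) zt c N x * ow (wm μ s N (Pn N y) ω) uk vk zk x * ow (wm μ s N (Pn N y) ω) v uk z x ≤
      ow (wm μ s N (Pn N y) ω) zt c N x * ow (wm μ s N (Pn N y) ω) v uk z x :=
    mul_le_mul_of_nonneg_right (mul_le_of_le_one_right a2 a4) a5
  calc _ = ow (wm μ s N (Pn N y) ω) zt c N x * ow (wm μ s N (Pn N y) ω) uk vk zk x * ow (wm μ s N (Pn N y) ω) u v z x := by ring
    _ ≤ _ := a6.trans (add_le_add le_rfl a7)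

/-! ### Micro ties of two rows -/

/-- The data of the micro tie of a row: pieces of length `l`, told behind `m`. -/
structure Mc (N : ℕ) (θ κ : ℝ) (tb b l q : ℕ) (M : ℝ) : Prop where
  tb0 : (N : ℝ) ^ θ ≤ tb
  tb1 : tb ≤ N
  tl : tb / 4 ≤ l
  bl : 3 * q * (l + 1) ≤ b
  hM : 7 * M ≤ (N : ℝ) ^ κ

variable {b l q j k mj mk : ℕ}

theorem wt_pst (hy : y ≤ N) (hm : Mc N θ κ tb b l q M) (hb : b ≤ j) (hj : j + b ≤ mj) {n : ℕ} (hn : n < 6 * q) :
    Wt μ s N y κ (pst b j l q n) (pst b j l q n + l) mj mj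
      fun ω x => rpI (wm μ s N (Pn N y) ω) mj (pst b j l q n) (pst b j l q n + l) M x := by
  have h := pst_bd hb hm.bl hn
  exact wt_rp hy (by omega) hm.hM

theorem plc_pst (hm : Mc N θ κ tb b l q M) (hb : b ≤ j) (hj : j + b ≤ mj) (hN : mj ≤ N) {n : ℕ} (hn : n < 6 * q) :
    Plc N θ tb (pst b j l q n) (pst b j l q n + l) mj mj := by
  have h := pst_bd hb hm.bl hn
  have h2 := hm.tl
  exact ⟨⟨hm.tb0, hm.tb1⟩, by omega, by omega, le_rfl, hN⟩

/-- (m1) Only the right row. -/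
theorem mic1 (hP : PrN μ s N y ε θ κ c' 3) (hy : y ≤ N) (h : Rt N θ zt c tr tl uk vk zk) (hm : Mc N θ κ tb b l q M)
    (hb : b ≤ k) (hk : k + b ≤ mk) (hk' : mk ≤ uk) {G L : Env × Finset ℕ → Px (Pn N y) → ℝ} (G0 : ∀ ω x, 0 ≤ G ω x)
    (G1 : ∀ ω x, G ω x ≤ 1) (L0 : ∀ ω x, 0 ≤ L ω x) (L1 : ∀ ω x, L ω x ≤ mcS (wm μ s N (Pn N y) ω) mk b k l q M x) :
    IG μ s N y (fun ω x => ow (wm μ s N (Pn N y) ω) zt c N x * (G ω x * (L ω x * ow (wm μ s N (Pn N y) ω) uk vk zk x))) ≤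
      6 * q * (pc μ s N ε tr * pc μ s N ε tl * pc μ s N ε tb + er N c') := by
  have e1 := h.uv
  have e2 := h.vz
  have e3 := h.zz
  have e4 := h.zc
  have e5 := h.cN
  have wo : Wt μ s N y κ (zt + 1) c N N fun ω x => ow (wm μ s N (Pn N y) ω) zt c N x := wt_out hy h.cN
  have wr : Wt μ s N y κ (uk + 1) vk zk zk fun ω x => ow (wm μ s N (Pn N y) ω) uk vk zk x := h.wk hy
  have key := IG_sum (μ := μ) (s := s) (n := 6 * q)
    (F := fun ω x => ow (wm μ s N (Pn N y) ω) zt c N x * (G ω x * (L ω x * ow (wm μ s N (Pn N y) ω) uk vk zk x)))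
    (G := fun ω x => ow (wm μ s N (Pn N y) ω) zt c N x * ow (wm μ s N (Pn N y) ω) uk vk zk x)
    (R := fun n ω x => rpI (wm μ s N (Pn N y) ω) mk (pst b k l q n) (pst b k l q n + l) M x)
    (C := pc μ s N ε tr * pc μ s N ε tl * pc μ s N ε tb + er N c') hy
    (fun ω x => mul_nonneg (wo.nn ω x) (mul_nonneg (G0 ω x) (mul_nonneg (L0 ω x) (wr.nn ω x)))) (wo.b.mul wr.b)
    (fun n hn => (wt_pst (μ := μ) (s := s) hy hm hb hk hn).b)
    (fun n hn => hP.p3 h.po h.pk (plc_pst hm hb hk (by omega) hn) (Nat.lt_succ_of_le e3) (Nat.lt_succ_of_le hk') wo wr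
      (wt_pst hy hm hb hk hn)) fun ω x => ?_
  · refine key.trans (le_of_eq ?_)
    push_cast
    ring
  · show _ ≤ _ * mcS (wm μ s N (Pn N y) ω) mk b k l q M x
    have a1 : G ω x * (L ω x * ow (wm μ s N (Pn N y) ω) uk vk zk x) ≤
        mcS (wm μ s N (Pn N y) ω) mk b k l q M x * ow (wm μ s N (Pn N y) ω) uk vk zk x :=
      (mul_le_of_le_one_left (mul_nonneg (L0 ω x) (wr.nn ω x)) (G1 ω x)).trans
        (mul_le_mul_of_nonneg_right (L1 ω x) (wr.nn ω x))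
    calc _ ≤ ow (wm μ s N (Pn N y) ω) zt c N x * (mcS (wm μ s N (Pn N y) ω) mk b k l q M x *
          ow (wm μ s N (Pn N y) ω) uk vk zk x) := mul_le_mul_of_nonneg_left a1 (wo.nn ω x)
      _ = _ := by ring

/-- (m2, far) The right own loop and both micro ties, the row `mj` in front of the window of `k`. -/
theorem mic2a (hP : PrN μ s N y ε θ κ c' 4) (hy : y ≤ N) (h : Rt N θ zt c tr tl uk vk zk) (hm : Mc N θ κ tb b l q M)
    (hbj : b ≤ j) (hj : j + b ≤ mj) (hjk : mj < k - b) (hk : k + b ≤ mk) (hk' : mk ≤ uk)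
    {O Lj Lk : Env × Finset ℕ → Px (Pn N y) → ℝ} (O0 : ∀ ω x, 0 ≤ O ω x) (O1 : ∀ ω x, O ω x ≤ 1) (Lj0 : ∀ ω x, 0 ≤ Lj ω x)
    (Lj1 : ∀ ω x, Lj ω x ≤ mcS (wm μ s N (Pn N y) ω) mj b j l q M x) (Lk0 : ∀ ω x, 0 ≤ Lk ω x)
    (Lk1 : ∀ ω x, Lk ω x ≤ mcS (wm μ s N (Pn N y) ω) mk b k l q M x) :
    IG μ s N y (fun ω x => ow (wm μ s N (Pn N y) ω) zt c N x *
      (Lj ω x * O ω x * (Lk ω x * ow (wm μ s N (Pn N y) ω) uk vk zk x))) ≤
      (6 * q) ^ 2 * (pc μ s N ε tr * pc μ s N ε tl * pc μ s N ε tb * pc μ s N ε tb + er N c') := by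
  have e1 := h.uv
  have e2 := h.vz
  have e3 := h.zz
  have e4 := h.zc
  have e5 := h.cN
  have hbk : b ≤ k := by omega
  have wo : Wt μ s N y κ (zt + 1) c N N fun ω x => ow (wm μ s N (Pn N y) ω) zt c N x := wt_out hy h.cN
  have wr : Wt μ s N y κ (uk + 1) vk zk zk fun ω x => ow (wm μ s N (Pn N y) ω) uk vk zk x := h.wk hy
  have key := IG_sum2 (μ := μ) (s := s) (n := 6 * q)
    (F := fun ω x => ow (wm μ s N (Pn N y) ω) zt c N x * (Lj ω x * O ω x * (Lk ω x * ow (wm μ s N (Pn N y) ω) uk vk zk x)))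
    (G := fun ω x => ow (wm μ s N (Pn N y) ω) zt c N x * ow (wm μ s N (Pn N y) ω) uk vk zk x)
    (R := fun n ω x => rpI (wm μ s N (Pn N y) ω) mk (pst b k l q n) (pst b k l q n + l) M x)
    (R' := fun n ω x => rpI (wm μ s N (Pn N y) ω) mj (pst b j l q n) (pst b j l q n + l) M x)
    (C := pc μ s N ε tr * pc μ s N ε tl * pc μ s N ε tb * pc μ s N ε tb + er N c') hy
    (fun ω x => mul_nonneg (wo.nn ω x) (mul_nonneg (mul_nonneg (Lj0 ω x) (O0 ω x)) (mul_nonneg (Lk0 ω x) (wr.nn ω x))))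
    (wo.b.mul wr.b) (fun n hn => (wt_pst (μ := μ) (s := s) hy hm hbk hk hn).b)
    (fun n hn => (wt_pst (μ := μ) (s := s) hy hm hbj hj hn).b)
    (fun n hn n' hn' => hP.p4 h.po h.pk (plc_pst hm hbk hk (by omega) hn) (plc_pst hm hbj hj (by omega) hn')
      (Nat.lt_succ_of_le e3) (Nat.lt_succ_of_le hk') (lt_of_lt_of_le hjk (pst_bd hbk hm.bl hn).1) wo wr
      (wt_pst hy hm hbk hk hn) (wt_pst hy hm hbj hj hn')) fun ω x => ?_
  · refine key.trans (le_of_eq ?_)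
    push_cast
    ring
  · show _ ≤ _ * mcS (wm μ s N (Pn N y) ω) mk b k l q M x * mcS (wm μ s N (Pn N y) ω) mj b j l q M x
    have m1 := mcS_nonneg (wm μ s N (Pn N y) ω) mj b j l q M x
    have m2 := mcS_nonneg (wm μ s N (Pn N y) ω) mk b k l q M x
    have a1 : Lj ω x * O ω x ≤ mcS (wm μ s N (Pn N y) ω) mj b j l q M x :=
      (mul_le_of_le_one_right (Lj0 ω x) (O1 ω x)).trans (Lj1 ω x)
    have a2 : Lk ω x * ow (wm μ s N (Pn N y) ω) uk vk zk x ≤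
        mcS (wm μ s N (Pn N y) ω) mk b k l q M x * ow (wm μ s N (Pn N y) ω) uk vk zk x :=
      mul_le_mul_of_nonneg_right (Lk1 ω x) (wr.nn ω x)
    calc _ ≤ ow (wm μ s N (Pn N y) ω) zt c N x * (mcS (wm μ s N (Pn N y) ω) mj b j l q M x *
          (mcS (wm μ s N (Pn N y) ω) mk b k l q M x * ow (wm μ s N (Pn N y) ω) uk vk zk x)) :=
        mul_le_mul_of_nonneg_left (mul_le_mul a1 a2 (mul_nonneg (Lk0 ω x) (wr.nn ω x)) m1) (wo.nn ω x)
      _ = _ := by ring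

/-- (m2, near) The row `mj` is behind the window of `k`: the tie of `j` closes in front of `k - b`, or it is long. -/
theorem mic2b (hP : PrN μ s N y ε θ κ c' 4) (hP3 : PrN μ s N y ε θ κ c' 3) (hy : y ≤ N) (h : Rt N θ zt c tr tl uk vk zk)
    (hm : Mc N θ κ tb b l q M) (hbj : b ≤ j) (hjk : j + b + tD / 4 + 1 ≤ k - b) (hkj : k - b ≤ mj) (hj' : mj ≤ uk)
    (hD : (N : ℝ) ^ θ ≤ tD) (hD' : tD ≤ N) (hk : k + b ≤ mk) (hk' : mk ≤ uk)
    {O Lj Lk : Env × Finset ℕ → Px (Pn N y) → ℝ} (O0 : ∀ ω x, 0 ≤ O ω x) (O1 : ∀ ω x, O ω x ≤ 1) (Lj0 : ∀ ω x, 0 ≤ Lj ω x)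
    (Lj1 : ∀ ω x, Lj ω x ≤ mcS (wm μ s N (Pn N y) ω) mj b j l q M x) (Lk0 : ∀ ω x, 0 ≤ Lk ω x) (Lk2 : ∀ ω x, Lk ω x ≤ 1)
    (Lk1 : ∀ ω x, Lk ω x ≤ mcS (wm μ s N (Pn N y) ω) mk b k l q M x) :
    IG μ s N y (fun ω x => ow (wm μ s N (Pn N y) ω) zt c N x *
      (Lj ω x * O ω x * (Lk ω x * ow (wm μ s N (Pn N y) ω) uk vk zk x))) ≤
      (6 * q) ^ 2 * (pc μ s N ε tr * pc μ s N ε tl * pc μ s N ε tb * pc μ s N ε tb + er N c') +
        6 * q * (pc μ s N ε tr * pc μ s N ε tl * pc μ s N ε tD + er N c') := by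
  have e1 := h.uv
  have e2 := h.vz
  have e3 := h.zz
  have e4 := h.zc
  have e5 := h.cN
  have e6 := hm.tl
  have hbk : b ≤ k := by omega
  obtain ⟨d, hd⟩ : ∃ d, d = k - b - 1 := ⟨_, rfl⟩
  have wo : Wt μ s N y κ (zt + 1) c N N fun ω x => ow (wm μ s N (Pn N y) ω) zt c N x := wt_out hy h.cN
  have wr : Wt μ s N y κ (uk + 1) vk zk zk fun ω x => ow (wm μ s N (Pn N y) ω) uk vk zk x := h.wk hy
  have wq : ∀ n, Wt μ s N y κ (pst b j l q n) (pst b j l q n + l) d mj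
      fun ω x => rq (wm μ s N (Pn N y) ω) mj (pst b j l q n) (pst b j l q n + l) d M x := fun n => wt_rq hy _ _ _ _ hm.hM
  have wl : ∀ n, Wt μ s N y κ (pst b j l q n + l) d mj mj
      fun ω x => rr (wm μ s N (Pn N y) ω) mj (pst b j l q n + l) d M x := fun n => wt_rr hy (by omega) hm.hM
  -- the two parts
  have k1 := IG_sum2 (μ := μ) (s := s) (n := 6 * q)
    (F := fun ω x => ow (wm μ s N (Pn N y) ω) zt c N x * ow (wm μ s N (Pn N y) ω) uk vk zk x *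
      (∑ n ∈ range (6 * q), rpI (wm μ s N (Pn N y) ω) mk (pst b k l q n) (pst b k l q n + l) M x) *
      ∑ n ∈ range (6 * q), rq (wm μ s N (Pn N y) ω) mj (pst b j l q n) (pst b j l q n + l) d M x)
    (G := fun ω x => ow (wm μ s N (Pn N y) ω) zt c N x * ow (wm μ s N (Pn N y) ω) uk vk zk x)
    (R := fun n ω x => rpI (wm μ s N (Pn N y) ω) mk (pst b k l q n) (pst b k l q n + l) M x)
    (R' := fun n ω x => rq (wm μ s N (Pn N y) ω) mj (pst b j l q n) (pst b j l q n + l) d M x)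
    (C := pc μ s N ε tr * pc μ s N ε tl * pc μ s N ε tb * pc μ s N ε tb + er N c') hy
    (fun ω x => mul_nonneg (mul_nonneg (mul_nonneg (wo.nn ω x) (wr.nn ω x)) (sum_nonneg fun n _ => rpI_nonneg _ _ _ _ _ _))
      (sum_nonneg fun n _ => (wq n).nn ω x))
    (wo.b.mul wr.b) (fun n hn => (wt_pst (μ := μ) (s := s) hy hm hbk hk hn).b) (fun n hn => (wq n).b)
    (fun n hn n' hn' => by
      have p1 := pst_bd hbk hm.bl hn
      have p2 := pst_bd hbj hm.bl hn'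
      exact hP.p4 h.po h.pk (plc_pst hm hbk hk (by omega) hn)
        ⟨⟨hm.tb0, hm.tb1⟩, by omega, by omega, by omega, by omega⟩ (Nat.lt_succ_of_le e3) (Nat.lt_succ_of_le hk') (by omega) wo wr
        (wt_pst hy hm hbk hk hn) (wq n')) fun ω x => le_rfl
  have k2 := IG_sum (μ := μ) (s := s) (n := 6 * q)
    (F := fun ω x => ow (wm μ s N (Pn N y) ω) zt c N x * ow (wm μ s N (Pn N y) ω) uk vk zk x *
      ∑ n ∈ range (6 * q), rr (wm μ s N (Pn N y) ω) mj (pst b j l q n + l) d M x)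
    (G := fun ω x => ow (wm μ s N (Pn N y) ω) zt c N x * ow (wm μ s N (Pn N y) ω) uk vk zk x)
    (R := fun n ω x => rr (wm μ s N (Pn N y) ω) mj (pst b j l q n + l) d M x)
    (C := pc μ s N ε tr * pc μ s N ε tl * pc μ s N ε tD + er N c') hy
    (fun ω x => mul_nonneg (mul_nonneg (wo.nn ω x) (wr.nn ω x)) (sum_nonneg fun n _ => (wl n).nn ω x))
    (wo.b.mul wr.b) (fun n hn => (wl n).b)
    (fun n hn => by
      have p2 := pst_bd hbj hm.bl hn
      exact hP3.p3 h.po h.pk (⟨⟨hD, hD'⟩, by omega, by omega, le_rfl, by omega⟩ : Plc N θ tD (pst b j l q n + l) d mj mj)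
        (Nat.lt_succ_of_le e3) (Nat.lt_succ_of_le hj') wo wr (wl n)) fun ω x => le_rfl
  have c1 : ((6 * q : ℕ) : ℝ) = 6 * q := by push_cast; ring
  rw [c1] at k1 k2
  -- bounds
  obtain ⟨K, hK⟩ : ∃ K : ℝ, K = (6 * q : ℕ) := ⟨_, rfl⟩
  have K0 : 0 ≤ K := by rw [hK]; positivity
  have s1 : ∀ {R : ℕ → Env × Finset ℕ → Px (Pn N y) → ℝ}, (∀ n < 6 * q, B01 N y (R n)) → ∀ ω x,
      0 ≤ ∑ n ∈ range (6 * q), R n ω x ∧ ∑ n ∈ range (6 * q), R n ω x ≤ K := fun hR ω x => by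
    refine ⟨sum_nonneg fun n hn => (hR n (mem_range.1 hn)).nn ω x, ?_⟩
    refine (sum_le_sum fun n hn => (hR n (mem_range.1 hn)).le1 ω x).trans (le_of_eq ?_)
    rw [sum_const, card_range, nsmul_eq_mul, mul_one, hK]
  have s2 := s1 (R := fun n ω x => rpI (wm μ s N (Pn N y) ω) mk (pst b k l q n) (pst b k l q n + l) M x)
    fun n hn => (wt_pst (μ := μ) (s := s) hy hm hbk hk hn).b
  have s3 := s1 (R := fun n ω x => rq (wm μ s N (Pn N y) ω) mj (pst b j l q n) (pst b j l q n + l) d M x)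
    fun n hn => (wq n).b
  have s4 := s1 (R := fun n ω x => rr (wm μ s N (Pn N y) ω) mj (pst b j l q n + l) d M x) fun n hn => (wl n).b
  have bG := wo.b.mul wr.b
  refine IG_add (K := K ^ 2 + K) hy
    (fun ω x => mul_nonneg (wo.nn ω x) (mul_nonneg (mul_nonneg (Lj0 ω x) (O0 ω x)) (mul_nonneg (Lk0 ω x) (wr.nn ω x))))
    (fun ω x => mul_nonneg (mul_nonneg (bG.nn ω x) (s2 ω x).1) (s3 ω x).1) (fun ω x => mul_nonneg (bG.nn ω x) (s4 ω x).1)
    (fun x => ((bG.ms x).mul (Finset.measurable_sum _ fun n hn =>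
      (wt_pst (μ := μ) (s := s) hy hm hbk hk (mem_range.1 hn)).ms x)).mul (Finset.measurable_sum _ fun n _ => (wq n).ms x))
    (fun x => (bG.ms x).mul (Finset.measurable_sum _ fun n _ => (wl n).ms x))
    (fun ω x => ?_) (fun ω x => ?_) k1 k2 fun ω x => ?_
  · have g1 := mul_le_mul (mul_le_mul (bG.le1 ω x) (s2 ω x).2 (s2 ω x).1 zero_le_one) (s3 ω x).2 (s3 ω x).1
      (mul_nonneg zero_le_one K0)
    refine g1.trans ?_
    nlinarith
  · have g1 := mul_le_mul (bG.le1 ω x) (s4 ω x).2 (s4 ω x).1 zero_le_one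
    refine g1.trans ?_
    nlinarith [sq_nonneg K]
  · have m1 : Lj ω x ≤ (∑ n ∈ range (6 * q), rq (wm μ s N (Pn N y) ω) mj (pst b j l q n) (pst b j l q n + l) d M x) +
        ∑ n ∈ range (6 * q), rr (wm μ s N (Pn N y) ω) mj (pst b j l q n + l) d M x := by
      refine (Lj1 ω x).trans ?_
      unfold mcS
      rw [← sum_add_distrib]
      exact sum_le_sum fun n _ => rpI_split hy _ _ _ _ _ _ _
    have a1 : Lj ω x * O ω x ≤ Lj ω x := mul_le_of_le_one_right (Lj0 ω x) (O1 ω x)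
    obtain ⟨X, hX⟩ : ∃ X, X = ow (wm μ s N (Pn N y) ω) zt c N x := ⟨_, rfl⟩
    obtain ⟨Y, hY⟩ : ∃ Y, Y = ow (wm μ s N (Pn N y) ω) uk vk zk x := ⟨_, rfl⟩
    obtain ⟨A, hA⟩ : ∃ A, A = ∑ n ∈ range (6 * q), rq (wm μ s N (Pn N y) ω) mj (pst b j l q n) (pst b j l q n + l) d M x := ⟨_, rfl⟩
    obtain ⟨B, hB⟩ : ∃ B, B = ∑ n ∈ range (6 * q), rr (wm μ s N (Pn N y) ω) mj (pst b j l q n + l) d M x := ⟨_, rfl⟩
    obtain ⟨P, hP'⟩ : ∃ P, P = mcS (wm μ s N (Pn N y) ω) mk b k l q M x := ⟨_, rfl⟩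
    have X0 : 0 ≤ X := by rw [hX]; exact wo.nn ω x
    have Y0 : 0 ≤ Y := by rw [hY]; exact wr.nn ω x
    have A0 : 0 ≤ A := by rw [hA]; exact (s3 ω x).1
    have B0 : 0 ≤ B := by rw [hB]; exact (s4 ω x).1
    have l1 := Lk1 ω x
    have l2 := Lk2 ω x
    have l0 := Lk0 ω x
    have j0 := Lj0 ω x
    show _ ≤ _ * mcS (wm μ s N (Pn N y) ω) mk b k l q M x * _ + _
    rw [← hA, ← hB] at m1
    rw [← hP'] at l1 ⊢
    rw [← hA, ← hB, ← hX, ← hY]
    calc X * (Lj ω x * O ω x * (Lk ω x * Y)) ≤ X * ((A + B) * (Lk ω x * Y)) :=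
          mul_le_mul_of_nonneg_left (mul_le_mul_of_nonneg_right (a1.trans m1) (mul_nonneg l0 Y0)) X0
      _ = X * Y * A * Lk ω x + X * Y * B * Lk ω x := by ring
      _ ≤ X * Y * A * P + X * Y * B * 1 := add_le_add (mul_le_mul_of_nonneg_left l1 (mul_nonneg (mul_nonneg X0 Y0) A0))
          (mul_le_mul_of_nonneg_left l2 (mul_nonneg (mul_nonneg X0 Y0) B0))
      _ = X * Y * P * A + X * Y * B := by ring

/-- (m3) Far rows: both own loops and both micro ties. -/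
theorem mic3 (hP : PrN μ s N y ε θ κ c' 5) (hy : y ≤ N) (h : Rt N θ zt c tr tl uk vk zk) (hm : Mc N θ κ tb b l q M)
    (hbj : b ≤ j) (hj : j + b ≤ mj) {uj vj zj : ℕ} (h1 : mj ≤ uj) (h2 : uj + 1 + tl / 4 ≤ vj) (h3 : vj ≤ zj) (hjk : zj < k - b)
    (hk : k + b ≤ mk) (hk' : mk ≤ uk) {Lj Lk : Env × Finset ℕ → Px (Pn N y) → ℝ} (Lj0 : ∀ ω x, 0 ≤ Lj ω x)
    (Lj1 : ∀ ω x, Lj ω x ≤ mcS (wm μ s N (Pn N y) ω) mj b j l q M x) (Lk0 : ∀ ω x, 0 ≤ Lk ω x)
    (Lk1 : ∀ ω x, Lk ω x ≤ mcS (wm μ s N (Pn N y) ω) mk b k l q M x) :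
    IG μ s N y (fun ω x => ow (wm μ s N (Pn N y) ω) zt c N x *
      (Lj ω x * ow (wm μ s N (Pn N y) ω) uj vj zj x * (Lk ω x * ow (wm μ s N (Pn N y) ω) uk vk zk x))) ≤
      (6 * q) ^ 2 * (pc μ s N ε tr * pc μ s N ε tl * pc μ s N ε tb * pc μ s N ε tl * pc μ s N ε tb + er N c') := by
  have e1 := h.uv
  have e2 := h.vz
  have e3 := h.zz
  have e4 := h.zc
  have e5 := h.cN
  have hbk : b ≤ k := by omega
  have wo : Wt μ s N y κ (zt + 1) c N N fun ω x => ow (wm μ s N (Pn N y) ω) zt c N x := wt_out hy h.cN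
  have wr : Wt μ s N y κ (uk + 1) vk zk zk fun ω x => ow (wm μ s N (Pn N y) ω) uk vk zk x := h.wk hy
  have wl : Wt μ s N y κ (uj + 1) vj zj zj fun ω x => ow (wm μ s N (Pn N y) ω) uj vj zj x := wt_ow hy (Nat.le_succ uj) h3
  have pl : Plc N θ tl (uj + 1) vj zj zj := ⟨⟨h.tl0, h.tl1⟩, h2, h3, le_rfl, by omega⟩
  have key := IG_sum2 (μ := μ) (s := s) (n := 6 * q)
    (F := fun ω x => ow (wm μ s N (Pn N y) ω) zt c N x *
      (Lj ω x * ow (wm μ s N (Pn N y) ω) uj vj zj x * (Lk ω x * ow (wm μ s N (Pn N y) ω) uk vk zk x)))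
    (G := fun ω x => ow (wm μ s N (Pn N y) ω) zt c N x * ow (wm μ s N (Pn N y) ω) uk vk zk x *
      ow (wm μ s N (Pn N y) ω) uj vj zj x)
    (R := fun n ω x => rpI (wm μ s N (Pn N y) ω) mk (pst b k l q n) (pst b k l q n + l) M x)
    (R' := fun n ω x => rpI (wm μ s N (Pn N y) ω) mj (pst b j l q n) (pst b j l q n + l) M x)
    (C := pc μ s N ε tr * pc μ s N ε tl * pc μ s N ε tb * pc μ s N ε tl * pc μ s N ε tb + er N c') hy
    (fun ω x => mul_nonneg (wo.nn ω x) (mul_nonneg (mul_nonneg (Lj0 ω x) (wl.nn ω x)) (mul_nonneg (Lk0 ω x) (wr.nn ω x))))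
    ((wo.b.mul wr.b).mul wl.b) (fun n hn => (wt_pst (μ := μ) (s := s) hy hm hbk hk hn).b)
    (fun n hn => (wt_pst (μ := μ) (s := s) hy hm hbj hj hn).b)
    (fun n hn n' hn' => by
      have p1 := pst_bd hbk hm.bl hn
      have g := hP.p5 h.po h.pk (plc_pst hm hbk hk (by omega) hn) pl (plc_pst hm hbj hj (by omega) hn')
        (Nat.lt_succ_of_le e3) (Nat.lt_succ_of_le hk') (lt_of_lt_of_le hjk p1.1) (Nat.lt_succ_of_le h1) wo wr
        (wt_pst hy hm hbk hk hn) wl (wt_pst hy hm hbj hj hn')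
      refine le_trans (le_of_eq (IG_congr fun ω x => ?_)) g
      ring) fun ω x => ?_
  · refine key.trans (le_of_eq ?_)
    push_cast
    ring
  · show _ ≤ _ * mcS (wm μ s N (Pn N y) ω) mk b k l q M x * mcS (wm μ s N (Pn N y) ω) mj b j l q M x
    have m1 := mcS_nonneg (wm μ s N (Pn N y) ω) mj b j l q M x
    have a1 : Lj ω x * ow (wm μ s N (Pn N y) ω) uj vj zj x ≤
        mcS (wm μ s N (Pn N y) ω) mj b j l q M x * ow (wm μ s N (Pn N y) ω) uj vj zj x :=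
      mul_le_mul_of_nonneg_right (Lj1 ω x) (wl.nn ω x)
    have a2 : Lk ω x * ow (wm μ s N (Pn N y) ω) uk vk zk x ≤
        mcS (wm μ s N (Pn N y) ω) mk b k l q M x * ow (wm μ s N (Pn N y) ω) uk vk zk x :=
      mul_le_mul_of_nonneg_right (Lk1 ω x) (wr.nn ω x)
    calc _ ≤ ow (wm μ s N (Pn N y) ω) zt c N x * (mcS (wm μ s N (Pn N y) ω) mj b j l q M x *
          ow (wm μ s N (Pn N y) ω) uj vj zj x *
          (mcS (wm μ s N (Pn N y) ω) mk b k l q M x * ow (wm μ s N (Pn N y) ω) uk vk zk x)) :=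
        mul_le_mul_of_nonneg_left (mul_le_mul a1 a2 (mul_nonneg (Lk0 ω x) (wr.nn ω x)) (mul_nonneg m1 (wl.nn ω x)))
          (wo.nn ω x)
      _ = _ := by ring

end Pair

end

end Pool.Agent.W_7d29a1_C0.T93
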