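import Pool.Agent.W_7d29a1_C0.TM72

/-!
CURV0 (MP_7d29a1_pr), leaf (T), THE CHAIN (helper72): `TI72_same`: no contribution of a row whose two conditions are the same;
`fT_chain72`, `PT_chain72`: the estimate `PT` of `CrAsm44` from the own block and the levels of ANY chain of rows `Z i j`
(`Z 0 j` = the end of the block of length `σ`, `Z k j = zt`).
-/

set_option autoImplicit false
set_option linter.unusedSectionVars false
set_option linter.unusedVariables false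

namespace Pool.Agent.W_7d29a1_C0.T72

open Finset MeasureTheory
open Pool.Agent.W_7d29a1_C0 Pool.Agent.W_7d29a1_C0.Mod92 Pool.Agent.W_7d29a1_C0.Swap57 Pool.Agent.W_7d29a1_C0.NM82
open Pool.Agent.W_7d29a1_C0.CutT57 Pool.Agent.W_7d29a1_C0.Base5
open Pool.Agent.W_7d29a1_F Pool.Agent.W_7d29a1_X
open Pool.Agent.W_7d29a1_C0.CrA44 (ge fT PT crs_pS crs_z mp_z)
open Pool.W7d29a1.C0 Pool.W7d29a1.C0.VT31 Pool.W7d29a1.C0.T72

noncomputable section

/-! ### The same condition twice -/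

section Same

variable {X : Type*} [Fintype X] [Nonempty X] {Y : Type*} [DecidableEq Y]

theorem cC_mp72 (w : X → ℝ) (p : X → Y) (A : X → ℝ) {F : X → ℝ} (hF : Mp p F) : cC w p A F = 0 := by
  rw [cC_symm w p A F]
  exact cC_meas_left w hF A

theorem dT72_same (q : X → Y) (γ g f w A : X → ℝ) : dT72 q q γ g f w A = 0 := by
  have h1 : Mp q (cE w q γ) := cE_meas w q γ
  have h2 : Mp q (cE w q g) := cE_meas w q g
  have h3 : Mp q (cE w q γ * cE w q g) := fun x x' e => by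
    rw [Pi.mul_apply, Pi.mul_apply, h1 x x' e, h2 x x' e]
  have e1 : cC w q (cE w q γ) (cE w q g) = 0 := cC_mp72 w q _ h2
  have e2 : dX72 q q γ g w A = 0 := by
    unfold dX72 c3
    rw [cC_mp72 w q A h3, cC_mp72 w q A h1, cC_mp72 w q A h2, cC_mp72 w q _ h2, cC_symm w q (cE w q γ) (cC w q A g),
      cC_mp72 w q _ h1]
    simp
  have z1 : gm w (0 : X → ℝ) = 0 := by
    unfold gm
    simp
  have z2 : gc w A 0 = 0 := by
    unfold gc
    rw [mul_zero, z1]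
    ring
  unfold dT72 g3
  rw [e1, e2, zero_mul, z1, z2, gc_zero_left]
  ring

end Same

theorem TI72_same {μ : Measure ℝ} {s : ℝ} {N : ℕ} {Q : Finset (Finset ℕ)} [Nonempty (Px Q)] (δ B : ℝ) (b0 j : ℕ) (t : ℝ)
    (q : Px Q → Finset ℕ × ℕ) (γ f : Env × Finset ℕ → Px Q → ℝ) : TI72 μ s N Q δ B b0 j t q q γ f = 0 := by
  unfold TI72
  simp only [dT72_same]
  exact integral_zero _ _

/-! ### The chain -/

section Chain

variable {μ : Measure ℝ} {s : ℝ} {N : ℕ} [IsProbabilityMeasure μ] {δ B : ℝ} {b0 b σ : ℕ} {c d : ℕ} {D : ℝ} {f : Fam N}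

/-- **One row**: the term (T) is the sum of the own block and the levels. -/
theorem fT_chain72 (hB : 0 ≤ B) (hf : Cls59 N c d D f) {zt : ℕ} (hzt : zt ≤ d) {k : ℕ} {j : ℕ} {Z : ℕ → ℕ}
    (hZ0 : (j / σ + 1) * σ ≤ Z 0) (hZ : ∀ i, i < k → Z i ≤ Z (i + 1)) (hZk : Z k = zt) {y : ℕ} [Nonempty (Px (Pn N y))] (t : ℝ) :
    fT μ s N δ B b0 b σ f zt t y j =
      TI72 μ s N (Pn N y) δ B b0 j t (pJ 0 (Z 0)) (pS σ j) (fun ω => ge μ s N (Pn N y) δ B b0 b ω j) (f y) +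
      ∑ i ∈ range k, TI72 μ s N (Pn N y) δ B b0 j t (pJ 0 (Z (i + 1))) (pJ 0 (Z i))
        (fun ω => ge μ s N (Pn N y) δ B b0 b ω j) (f y) := by
  -- the chain of the conditions
  obtain ⟨q, hq⟩ : ∃ q : ℕ → Px (Pn N y) → Finset ℕ × ℕ, q = fun i => match i with
    | 0 => pS σ j
    | i + 1 => pJ 0 (Z i) := ⟨_, rfl⟩
  have q0 : q 0 = pS σ j := by rw [hq]
  have qs : ∀ i, q (i + 1) = pJ 0 (Z i) := fun i => by rw [hq]
  have key := tel_int72 (μ := μ) (s := s) (N := N) (Q := Pn N y) (δ := δ) (B := B) (b0 := b0) (j := j) (t := t) (M := B / 2)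
    (D := D) (γ := fun ω => ge μ s N (Pn N y) δ B b0 b ω j) (f := f y) hB (by linarith) (meas_ge72 δ B b0 b j)
    (measurable_pi_lambda _ fun S => hf.meas y S) (fun ω x => abs_ge72 hB ω x) (fun ω S => hf.bdd y ω S) q (k + 1)
    (fun i hi => by
      rcases i with _ | i
      · rw [qs, q0]
        exact crs_z hZ0
      · rw [qs, qs]
        exact crs_pJ le_rfl (hZ i (by omega)))
    (fun ω => by
      rw [qs, hZk]
      exact mp_z hf hzt y ω)
  rw [q0, qs k, hZk, sum_range_succ'] at key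
  have e1 : fT μ s N δ B b0 b σ f zt t y j = TI72 μ s N (Pn N y) δ B b0 j t (pJ 0 zt) (pS σ j)
      (fun ω => ge μ s N (Pn N y) δ B b0 b ω j) (f y) := rfl
  have e2 : q (0 + 1) = pJ 0 (Z 0) := qs 0
  rw [e1, key, add_comm, e2, q0]
  congr 1
  exact sum_congr rfl fun i _ => by rw [qs, qs]

/-- **The chain**: `PT` from the own block and the levels; at the level `i` only the rows with `Z i j < Z (i + 1) j` occur. -/
theorem PT_chain72 (hB : 0 ≤ B) (hf : Cls59 N c d D f) {ys R : Finset ℕ} (hys : ∀ y ∈ ys, y ≤ N) {c' d' : ℕ} {zt : ℕ} (hzt : zt ≤ d)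
    {k : ℕ} {Z : ℕ → ℕ → ℕ} (hZ0 : ∀ j ∈ Rw R c' d', (j / σ + 1) * σ ≤ Z 0 j)
    (hZ : ∀ j ∈ Rw R c' d', ∀ i, i < k → Z i j ≤ Z (i + 1) j) (hZk : ∀ j ∈ Rw R c' d', Z k j = zt) {κ0 e0 : ℝ} {κ e : ℕ → ℝ}
    (h0 : ∀ t ∈ Set.Icc (-1 : ℝ) 1, |∑ j ∈ Rw R c' d', avy ys (fun y =>
      TI72 μ s N (Pn N y) δ B b0 j t (pJ 0 (Z 0 j)) (pS σ j) (fun ω => ge μ s N (Pn N y) δ B b0 b ω j) (f y))| ≤
      κ0 * √(avy ys (varF μ s N f)) + e0)
    (h1 : ∀ i, i < k → ∀ t ∈ Set.Icc (-1 : ℝ) 1, |∑ j ∈ (Rw R c' d').filter fun j => Z i j < Z (i + 1) j, avy ys (fun y =>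
      TI72 μ s N (Pn N y) δ B b0 j t (pJ 0 (Z (i + 1) j)) (pJ 0 (Z i j)) (fun ω => ge μ s N (Pn N y) δ B b0 b ω j) (f y))| ≤
      κ i * √(avy ys (varF μ s N f)) + e i) :
    PT μ s N δ B b0 b σ f ys R c' d' (κ0 + ∑ i ∈ range k, κ i) (e0 + ∑ i ∈ range k, e i) zt := by
  intro t ht
  have e1 : ∑ j ∈ Rw R c' d', avy ys (fT μ s N δ B b0 b σ f zt t · j) =
      ∑ j ∈ Rw R c' d', avy ys (fun y => TI72 μ s N (Pn N y) δ B b0 j t (pJ 0 (Z 0 j)) (pS σ j)
        (fun ω => ge μ s N (Pn N y) δ B b0 b ω j) (f y)) +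
      ∑ i ∈ range k, ∑ j ∈ Rw R c' d', avy ys (fun y =>
        TI72 μ s N (Pn N y) δ B b0 j t (pJ 0 (Z (i + 1) j)) (pJ 0 (Z i j))
          (fun ω => ge μ s N (Pn N y) δ B b0 b ω j) (f y)) := by
    rw [sum_comm, ← sum_add_distrib]
    refine sum_congr rfl fun j hj => ?_
    unfold avy
    rw [← mul_sum, ← mul_add]
    congr 1
    rw [sum_comm, ← sum_add_distrib]
    refine sum_congr rfl fun y hy => ?_
    have := ne_Pn (hys y hy)
    dsimp only
    rw [fT_chain72 hB hf hzt (hZ0 j hj) (hZ j hj) (hZk j hj) t]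
  have e2 : ∀ i ∈ range k, ∑ j ∈ Rw R c' d', avy ys (fun y =>
        TI72 μ s N (Pn N y) δ B b0 j t (pJ 0 (Z (i + 1) j)) (pJ 0 (Z i j))
          (fun ω => ge μ s N (Pn N y) δ B b0 b ω j) (f y)) =
      ∑ j ∈ (Rw R c' d').filter fun j => Z i j < Z (i + 1) j, avy ys (fun y =>
        TI72 μ s N (Pn N y) δ B b0 j t (pJ 0 (Z (i + 1) j)) (pJ 0 (Z i j))
          (fun ω => ge μ s N (Pn N y) δ B b0 b ω j) (f y)) := fun i hi => by
    symm
    refine sum_filter_of_ne fun j hj hne => ?_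
    have h2 := hZ j hj i (mem_range.1 hi)
    rcases h2.lt_or_eq with h3 | h3
    · exact h3
    · exfalso
      apply hne
      unfold avy
      rw [← h3]
      have h4 : ∑ y ∈ ys, TI72 μ s N (Pn N y) δ B b0 j t (pJ 0 (Z i j)) (pJ 0 (Z i j))
          (fun ω => ge μ s N (Pn N y) δ B b0 b ω j) (f y) = 0 := sum_eq_zero fun y hy => by
        have := ne_Pn (hys y hy)
        exact TI72_same δ B b0 j t _ _ _
      rw [h4, mul_zero]
  rw [e1, sum_congr rfl e2]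
  refine (abs_add_le _ _).trans ((add_le_add (h0 t ht) ((abs_sum_le_sum_abs _ _).trans
    (sum_le_sum fun i hi => h1 i (mem_range.1 hi) t ht))).trans (le_of_eq ?_))
  rw [sum_add_distrib, add_mul, sum_mul]
  ring

end Chain

end

end Pool.Agent.W_7d29a1_C0.T72
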