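import Pool.Agent.W_7d29a1_C0.TN72
import Pool.Agent.W_7d29a1_C0.TT72B

/-!
CURV0 (MP_7d29a1_pr), leaf (T), ONE LEVEL WITH THE NUMBERS (helper72): `levN72`, from `rowN72`, `RX72_le`, `lev72`. The micro terms of the
rows, the prices `φ0` (own pairs), `φ1` (own pair and micro event) and the far part `GF` are hypotheses.
-/

set_option autoImplicit false
set_option linter.unusedSectionVars false
set_option linter.unusedVariables false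

namespace Pool.Agent.W_7d29a1_C0.T72

open Finset MeasureTheory Filter Topology
open Pool.Agent.W_7d29a1_C0 Pool.Agent.W_7d29a1_C0.Mod92 Pool.Agent.W_7d29a1_C0.Swap57 Pool.Agent.W_7d29a1_C0.NM82
open Pool.Agent.W_7d29a1_C0.CutT57 Pool.Agent.W_7d29a1_C0.Base5
open Pool.Agent.W_7d29a1_F Pool.Agent.W_7d29a1_X
open Pool.Agent.W_7d29a1_H (sl)
open Pool.Agent.W_7d29a1_HS (In wd)
open Pool.Agent.W_7d29a1_HZ (wd')
open Pool.Agent.W_7d29a1_C0.H32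
open Pool.Agent.W_7d29a1_C0.InT57 (FV57)
open Pool.Agent.W_7d29a1_C0.CrA44 (ge)
open Pool.Agent.W_7d29a1_C0.EvT50 (RpM meas_RpM)
open Pool.W7d29a1.C0 Pool.W7d29a1.C0.VT31 Pool.W7d29a1.C0.T72
open Pool.W7d29a1.C0.H27 (QI)

noncomputable section

variable {μ : Measure ℝ} {s : ℝ} {N : ℕ}

/-! ### The micro factor -/

open Classical in
/-- The micro event of the row `j` seen from the row `m`, as a factor of the base path. -/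
def LR72 (μ : Measure ℝ) (s : ℝ) (N m b0 j l0 q0 : ℕ) (M : ℝ) : Fam N := fun y ω S =>
  if RpM (wm μ s N (Pn N y) ω) (pJ 0 m) b0 j l0 q0 M S then 1 else 0

theorem LR72_eq (m b0 j l0 q0 : ℕ) (M : ℝ) (y : ℕ) [Nonempty (Px (Pn N y))] (ω : Env × Finset ℕ) :
    LR72 μ s N m b0 j l0 q0 M y ω = ind72 (fun ω => RpM (wm μ s N (Pn N y) ω) (pJ 0 m) b0 j l0 q0 M) ω := rfl

theorem LR72_nonneg (m b0 j l0 q0 : ℕ) (M : ℝ) (y : ℕ) (ω : Env × Finset ℕ) (S : Px (Pn N y)) :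
    0 ≤ LR72 μ s N m b0 j l0 q0 M y ω S := by
  unfold LR72
  split_ifs <;> norm_num

theorem LR72_le_one (m b0 j l0 q0 : ℕ) (M : ℝ) (y : ℕ) (ω : Env × Finset ℕ) (S : Px (Pn N y)) :
    LR72 μ s N m b0 j l0 q0 M y ω S ≤ 1 := by
  unfold LR72
  split_ifs <;> norm_num

theorem meas_LR72 (m b0 j l0 q0 : ℕ) (M : ℝ) (y : ℕ) (S : Px (Pn N y)) :
    Measurable fun ω => LR72 μ s N m b0 j l0 q0 M y ω S := by
  classical
  unfold LR72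
  exact Measurable.ite (meas_RpM _ _ _ _ _ _ S) measurable_const measurable_const

/-! ### One level -/

theorem sum_Ioc72 (a n : ℕ) (F : ℕ → ℝ) : ∑ m ∈ Ioc a (a + n), F m = ∑ m ∈ range n, F (a + 1 + m) := by
  have e : Ioc a (a + n) = Ico (a + 1) (a + n + 1) := by
    ext m
    simp only [mem_Ioc, mem_Ico]
    omega
  rw [e, Finset.sum_Ico_eq_sum_range]
  congr 2
  omega

/-- **ONE LEVEL, WITH THE NUMBERS.** -/
theorem levN72 [IsProbabilityMeasure μ] {c₀ C₀ : ℝ} {n₀ : ℕ} (h : In μ s c₀ C₀ n₀)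
    (hQI : ∀ p : ℝ, 1 < p → ∃ C θ0 : ℝ, 0 ≤ C ∧ 0 < θ0 ∧ QI μ p C θ0) {f₀ f₀' : ℝ → ℝ} (hf₀ : DenLaw μ f₀ f₀')
    {κ ε K' : ℝ} (hκ : 0 < κ) (hκ1 : κ ≤ 1) (hε : 0 < ε) (hε1 : ε ≤ 1) (hK' : 0 ≤ K') :
    ∃ δ' β : ℝ, 0 < δ' ∧ 0 < β ∧ ∃ N₀ : ℕ, ∀ N : ℕ, N₀ ≤ N → ∀ ys : Finset ℕ, ys.Nonempty →
      (∀ y ∈ ys, y ≤ N ∧ |(y : ℝ) - sl μ s * N| ≤ (N : ℝ) ^ δ' * wd' μ s N) → ∀ B : ℝ, 1 ≤ B → B ≤ (N : ℝ) ^ β →
      ∀ (δ : ℝ) (b0 b n zt c cc d cb r : ℕ) (S : Finset ℕ) (c0 K a0 z z' : ℕ → ℕ), b0 ≤ b → 1 ≤ n → zt ≤ c → c ≤ d → d ≤ N →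
      (∀ j ∈ S, cb ≤ j ∧ j < cb + r) → (∀ j ∈ S, (N : ℝ) ^ κ ≤ c0 j ∧ (N : ℝ) ^ κ ≤ K j ∧ j + b ≤ c0 j ∧ c0 j + K j ≤ a0 j ∧
        a0 j + n < z j ∧ z j ≤ z' j ∧ z' j ≤ zt) →
      ∀ R : ℝ, 1 ≤ R → R ≤ (N : ℝ) ^ 2 → (∀ j ∈ S, ∀ k : ℕ, 1 ≤ k → k ≤ z' j - a0 j → (N : ℝ) ^ ε * wd' μ s k ≤ R / 4) →
      ∀ (D : ℝ) (f : Fam N), 0 ≤ D → D ≤ (N : ℝ) ^ 3 → Cls59 N cc d D f → ∀ t : ℝ, |t| ≤ 1 →
      ∀ L : ℕ → ℕ → Fam N, (∀ m j y ω S, 0 ≤ L m j y ω S) → (∀ m j y ω S, L m j y ω S ≤ 1) →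
      (∀ m j y S, Measurable fun ω => L m j y ω S) → ∀ A2 e2 : ℝ, 0 ≤ A2 →
      (∀ j ∈ S, ∀ y ∈ ys, ∀ [Nonempty (Px (Pn N y))], ∀ m < n, |MX72 μ s N (Pn N y) δ B b0 j t (z j) (z' j)
        (KX72 μ s N (Pn N y) δ B b0 j t (a0 j + 1 + m) fun ω => ge μ s N (Pn N y) δ B b0 b ω j)
        (fun ω => gg μ s (Pn N y) δ B b0 ω j) (f y)| ≤
          A2 * RX72 μ s N (Pn N y) (a0 j + n) (z j) (z' j) c (L m j y) (f y) + e2) →
      (∀ j ∈ S, ∀ y ∈ ys, ∀ [Nonempty (Px (Pn N y))], ∀ m < n, |MX72 μ s N (Pn N y) δ B b0 j t (z j) (z' j)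
        (KX72 μ s N (Pn N y) δ B b0 j t (a0 j + 1 + m) fun ω => gg μ s (Pn N y) δ B b0 ω j)
        (fun ω => ge μ s N (Pn N y) δ B b0 b ω j) (f y)| ≤
          A2 * RX72 μ s N (Pn N y) (a0 j + n) (z j) (z' j) c (L m j y) (f y) + e2) →
      ∀ (φ0 φ1 : ℕ → ℝ) (GF : ℝ), (∀ D, 0 ≤ φ0 D) → (∀ D, 0 ≤ φ1 D) →
      (∀ j ∈ S, ∀ k ∈ S, avy ys (T93.pr2 μ s N (NN72 N zt c) (UQ72 μ s N (a0 j) (z j) (z' j) (one72 N))
        (UQ72 μ s N (a0 k) (z k) (z' k) (one72 N))) ≤ φ0 (T93.rdist j k)) →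
      (∀ m < n, ∀ j ∈ S, ∀ k ∈ S, avy ys (T93.pr2 μ s N (NN72 N zt c) (UQ72 μ s N (a0 j + n) (z j) (z' j) (L m j))
        (UQ72 μ s N (a0 k + n) (z k) (z' k) (L m k))) ≤ φ1 (T93.rdist j k)) →
      (∑ j ∈ S, avy ys (fun y => ∫ ω, FV57 (wm μ s N (Pn N y) ω) (a0 j) (z j) (z' j) c R (f y ω) ∂(Pm μ N)) ≤ GF) →
      |∑ j ∈ S, avy ys (fun y => TI72 μ s N (Pn N y) δ B b0 j t (pJ 0 (z' j)) (pJ 0 (z j))
        (fun ω => ge μ s N (Pn N y) δ B b0 b ω j) (f y))| ≤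
        (B ^ 2 * gn72 N ε B R n * (N : ℝ) ^ ε * √(8 * S.card * ∑ D ∈ range r, φ0 D) +
          A2 * √(8 * S.card * ∑ D ∈ range r, φ1 D)) * √(2 * avy ys (varF μ s N f)) + B ^ 3 * (N : ℝ) ^ ε * GF +
          S.card * (2 * e2 + (N : ℝ) ^ (-K')) := by
  obtain ⟨δ', β, hδ', hβ, N₀, hN₀⟩ := rowN72 h hQI hf₀ hκ hκ1 hε hε1 hK'
  refine ⟨δ', β, hδ', hβ, N₀, ?_⟩
  intro N hN ys hys0 hys B hB1 hBβ δ b0 b n zt c cc d cb r S c0 K a0 z z' hb hn hzt hcd hdN hS hgeo R hR1 hR2 hRw D f hD0 hD hf t ht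
    L hL0 hL1 mL A2 e2 hA2 hm1 hm2 φ0 φ1 GF hφ0 hφ1 hp0 hp1 hGF
  have hB0 : 0 ≤ B := by linarith
  have hNe : 0 ≤ (N : ℝ) ^ ε := Real.rpow_nonneg (Nat.cast_nonneg _) _
  have hg0 := gn72_nonneg N ε B R n
  have hys' : ∀ y ∈ ys, y ≤ N := fun y hy => (hys y hy).1
  have mf : ∀ y S, Measurable fun ω => f y ω S := hf.meas
  have key := lev72 (μ := μ) (s := s) (N := N) (ys := ys) (S := S) hys0 hys' (cb := cb) (r := r) hS (a0 := a0)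
    (h := fun j => a0 j + n) (z := z) (z' := z') (zt := zt) (c := c) (n := n) (L := L) hL0 hL1 mL (f := f) (D := D) mf hf.bdd
    (ι := Unit) (I := {()}) (aF := fun _ => B ^ 3 * (N : ℝ) ^ ε)
    (RF := fun _ j y => ∫ ω, FV57 (wm μ s N (Pn N y) ω) (a0 j) (z j) (z' j) c R (f y ω) ∂(Pm μ N)) (GF := fun _ => GF)
    (α := B ^ 2 * gn72 N ε B R n * (N : ℝ) ^ ε) (β := A2) (e := 2 * e2 + (N : ℝ) ^ (-K'))
    (by positivity) hA2 (fun _ _ => by positivity)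
    (T := fun j y => TI72 μ s N (Pn N y) δ B b0 j t (pJ 0 (z' j)) (pJ 0 (z j)) (fun ω => ge μ s N (Pn N y) δ B b0 b ω j) (f y))
    (fun j hj y hy => by
      have := ne_Pn (hys' y hy)
      obtain ⟨g1, g2, g3, g4, g5, g6, g7⟩ := hgeo j hj
      have r1 := hN₀ N hN y (hys y hy).1 (hys y hy).2 B hB1 hBβ δ b0 b j (c0 j) (K j) (a0 j) n (z j) (z' j) c cc d hb g1 g2 g3 g4
        hn g5 g6 (g7.trans hzt) hcd hdN R hR1 hR2 (hRw j hj) D f hD0 hD hf t ht (fun m => L (m - (a0 j + 1)) j) A2 e2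
        (fun m hm => by
          have hm' := mem_Ioc.1 hm
          have h1 := hm1 j hj y hy (m - (a0 j + 1)) (by omega)
          rwa [show a0 j + 1 + (m - (a0 j + 1)) = m by omega] at h1)
        (fun m hm => by
          have hm' := mem_Ioc.1 hm
          have h1 := hm2 j hj y hy (m - (a0 j + 1)) (by omega)
          rwa [show a0 j + 1 + (m - (a0 j + 1)) = m by omega] at h1)
      refine r1.trans ?_
      rw [sum_Ioc72]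
      have e1 : ∀ m ∈ range n, RX72 μ s N (Pn N y) (a0 j + n) (z j) (z' j) c (L (a0 j + 1 + m - (a0 j + 1)) j y) (f y) ≤
          1 / 2 * T93.rw2 μ s N (NN72 N zt c) (UQ72 μ s N (a0 j + n) (z j) (z' j) (L m j)) f y := fun m _ => by
        rw [show a0 j + 1 + m - (a0 j + 1) = m by omega]
        exact RX72_le (hL0 m j) (hL1 m j) (mL m j) mf hf.bdd (hys' y hy) g7
      have e2' : RX72 μ s N (Pn N y) (a0 j) (z j) (z' j) c (fun _ _ => 1) (f y) ≤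
          1 / 2 * T93.rw2 μ s N (NN72 N zt c) (UQ72 μ s N (a0 j) (z j) (z' j) (one72 N)) f y :=
        RX72_le (L := one72 N) (fun _ _ _ => zero_le_one) (fun _ _ _ => le_rfl) (fun _ _ => measurable_const) mf hf.bdd (hys' y hy) g7
      have e3 := Finset.sum_le_sum e1
      rw [← mul_sum] at e3
      have hn0 : 0 ≤ (n : ℝ)⁻¹ := by positivity
      have e4 := mul_le_mul_of_nonneg_left e3 hn0
      have e5 := mul_le_mul_of_nonneg_left e4 (by positivity : 0 ≤ 2 * A2)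
      have e6 := mul_le_mul_of_nonneg_left e2' (by positivity : 0 ≤ B ^ 2 * gn72 N ε B R n * (N : ℝ) ^ ε)
      have e7 : 0 ≤ T93.rw2 μ s N (NN72 N zt c) (UQ72 μ s N (a0 j) (z j) (z' j) (one72 N)) f y := by
        have h0 := (integral_nonneg fun ω => Pool.W7d29a1.C0.I52.ev_nonneg (P3 (pJ 0 (z' j))) (wm μ s N (Pn N y) ω)
          fun x => chi3_nonneg (a0 := a0 j) (z := z j) (z' := z' j) (c := c) (L := fun _ => (1 : ℝ)) (fun _ => zero_le_one)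
            (f y ω) x : 0 ≤ ∫ ω, Pool.W7d29a1.C0.I52.ev (P3 (pJ 0 (z' j))) (wm μ s N (Pn N y) ω)
              (chi3 (a0 j) (z j) (z' j) c (fun _ => 1) (f y ω)) ∂(Pm μ N))
        have h1 : 0 ≤ RX72 μ s N (Pn N y) (a0 j) (z j) (z' j) c (fun _ _ => 1) (f y) := h0
        linarith
      have e8 : 0 ≤ B ^ 2 * gn72 N ε B R n * (N : ℝ) ^ ε *
          T93.rw2 μ s N (NN72 N zt c) (UQ72 μ s N (a0 j) (z j) (z' j) (one72 N)) f y := mul_nonneg (by positivity) e7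
      rw [sum_singleton]
      have e9 : 2 * A2 * ((n : ℝ)⁻¹ * (1 / 2 * ∑ m ∈ range n,
          T93.rw2 μ s N (NN72 N zt c) (UQ72 μ s N (a0 j + n) (z j) (z' j) (L m j)) f y)) =
          A2 * ((n : ℝ)⁻¹ * ∑ m ∈ range n,
          T93.rw2 μ s N (NN72 N zt c) (UQ72 μ s N (a0 j + n) (z j) (z' j) (L m j)) f y) := by ring
      rw [e9] at e5
      linarith)
    hφ0 hφ1 hp0 (fun m hm j hj k hk => hp1 m (mem_range.1 hm) j hj k hk) (fun _ _ => hGF)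
  rw [sum_singleton] at key
  exact key

end

end Pool.Agent.W_7d29a1_C0.T72
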