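import Pool.Agent.W_7d29a1_C0.Num46
import Pool.Agent.W_7d29a1_C0.GSsum4

/-!
STORM C0, leaf T.f = TL7 (helper70): THE ARITHMETIC OF THE TERM (T) in the frame of the telescope in the row `z` (72: 73137, 93: 73509,
90: 73358, 11: 73690).  The double sums over the pairs of rows of a block of length `r`, in units of the outer tie `1 / E r` (included):

* `sum_i` : the terms `T_i` (`i ≥ 1`) and `T_0R`: scale `l`, slab of scale `l`, boxes of width `w l`;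
* `sum_top` : the last term of the telescope at the root: slab of scale `l ~ N ^ (1 - 2 η)`, the whole cone, no far branch;
* `sum_0`, `near_0` : the term `T_0L`: own ties of scale `s` inside the block `B`, near slab of scale `b`, closings `b / s`.

Each one: `N ^ e₂ ∑ (D < r), φ D ≤ N ^ (Θ - c₁) / 2` with `φ` = `Phi` of `GSsum4` (near rows, rows in one loop, different loops);
`dsum70`, `grp70` give the double sums over the rows and the form of `grp93`; `par70` is the choice of the exponents.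
-/

set_option autoImplicit false

namespace Pool.Agent.W_7d29a1_C0.Tf70

open Finset Filter Topology
open Pool.Agent.W_7d29a1_C0
open Pool.Agent.W_7d29a1_C0.GS4 (Phi sum_Phi_le)

noncomputable section

variable {E w : ℕ → ℝ} {c₀ Θ δ a ε N c : ℝ} {b s r : ℕ}

/-! ### The monomials -/

variable {l : ℕ}

/-- (i1) `l (w_l / l) / (E_r E_l)`. -/
theorem i1 (R : Reg46 E w c₀ Θ δ a ε N) (hl : Rg46 δ N l) (hlr : l ≤ r) :
    (l : ℝ) * ((w l / l) / (E r * E l)) ≤ N ^ ε := by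
  have hl' := hl.pos R.N1
  have hE := R.Epos r
  have hE' := R.Epos l
  have hw := R.w0 l (hl.npos R.N1)
  refine le_pow46 R.N1 (by positivity) ?_
  simp (disch := positivity) only [Real.logb_mul, Real.logb_div]
  linarith [R.lw hl, R.lmono hlr]

/-- (i2) `l / (E_r E_l E_b ^ 2)`. -/
theorem i2 (R : Reg46 E w c₀ Θ δ a ε N) (h : Bs46 E δ c N b s r) (hl : Rg46 δ N l) (hlr : l ≤ r) :
    (l : ℝ) * ((1 / E b ^ 2) / (E r * E l)) ≤ N ^ (Θ - c + 2 * ε) := by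
  have hl' := hl.pos R.N1
  have hr' := h.hr.pos R.N1
  have hE := R.Epos r
  have hE' := R.Epos l
  have hE'' := R.Epos b
  refine le_pow46 R.N1 (by positivity) ?_
  simp (disch := positivity) only [Real.logb_mul, Real.logb_div, Real.logb_pow, Real.logb_one, Nat.cast_ofNat]
  linarith [R.lhalf (hl.npos R.N1) hlr, R.lxmono (hl.npos R.N1) hlr, R.lkap' h.hr, h.lpin R]

/-- (i3) `l / (E_r E_l ^ 2)`, `l ≤ N ^ (1 - η)`. -/
theorem i3 (R : Reg46 E w c₀ Θ δ a ε N) (hl : Rg46 δ N l) (hlr : l ≤ r) {η : ℝ} (hη : 0 ≤ η) (hl1 : (l : ℝ) ≤ N ^ (1 - η)) :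
    (1 / (E r * E l)) * ((l : ℝ) / E l) ≤ N ^ (Θ - Θ * η + ε) := by
  have hl' := hl.pos R.N1
  have hE := R.Epos r
  have hE' := R.Epos l
  refine le_pow46 R.N1 (by positivity) ?_
  simp (disch := positivity) only [Real.logb_mul, Real.logb_div, Real.logb_one]
  have h1 := R.lkap hl
  have h2 : Real.logb N l ≤ 1 - η := (to_lg46 R.N1 hl' hl1).trans (lgN46 R.N1 _).le
  have h3 : (Θ + ε) * Real.logb N l ≤ (Θ + ε) * (1 - η) := mul_le_mul_of_nonneg_left h2 (by linarith [R.Θ0, R.ε0])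
  have h4 : (Θ + ε) * (1 - η) ≤ Θ - Θ * η + ε := by nlinarith [mul_nonneg R.ε0.le hη]
  linarith [R.lmono hlr]

/-- (i4) `r / (E_r ^ 2 E_l ^ 2)`, `l ≥ s`. -/
theorem i4 (R : Reg46 E w c₀ Θ δ a ε N) (h : Bs46 E δ c N b s r) (hsl : s ≤ l) :
    (1 / (E r * E l ^ 2)) * ((r : ℝ) / E r) ≤ N ^ (Θ + ε - δ / 8) := by
  have hr' := h.hr.pos R.N1
  have hE := R.Epos r
  have hE' := R.Epos l
  refine le_pow46 R.N1 (by positivity) ?_
  simp (disch := positivity) only [Real.logb_mul, Real.logb_div, Real.logb_pow, Real.logb_one, Nat.cast_ofNat]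
  linarith [h.ls3 R, R.lmono hsl, R.lkap' h.hr, R.lq' h.hr]

/-- (i5a) `r / (E_r E_l ^ 2 E_b ^ 2)`, `l ≥ s`. -/
theorem i5a (R : Reg46 E w c₀ Θ δ a ε N) (h : Bs46 E δ c N b s r) (hsl : s ≤ l) :
    (r : ℝ) * ((1 / E b ^ 2) / (E r * E l ^ 2)) ≤ N ^ (Θ + ε - c - δ / 8) := by
  have hr' := h.hr.pos R.N1
  have hE := R.Epos r
  have hE' := R.Epos l
  have hE'' := R.Epos b
  refine le_pow46 R.N1 (by positivity) ?_
  simp (disch := positivity) only [Real.logb_mul, Real.logb_div, Real.logb_pow, Real.logb_one, Nat.cast_ofNat]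
  linarith [h.ls3 R, R.lmono hsl, R.lkap' h.hr, R.lq' h.hr, h.lpin R]

/-- (i5b) `r (w_l / l) / (E_r E_l ^ 2)`, `l ≥ s`. -/
theorem i5b (R : Reg46 E w c₀ Θ δ a ε N) (h : Bs46 E δ c N b s r) (hl : Rg46 δ N l) (hsl : s ≤ l) :
    (r : ℝ) * ((w l / l) / (E r * E l ^ 2)) ≤ N ^ (Θ + 2 * ε - δ / 16) := by
  have hr' := h.hr.pos R.N1
  have hl' := hl.pos R.N1
  have hE := R.Epos r
  have hE' := R.Epos l
  have hw := R.w0 l (hl.npos R.N1)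
  refine le_pow46 R.N1 (by positivity) ?_
  simp (disch := positivity) only [Real.logb_mul, Real.logb_div, Real.logb_pow, Nat.cast_ofNat]
  have hc0 : 0 < c₀ * δ := mul_pos R.c₀0 R.δ0
  linarith [h.ls3 R, R.lmono hsl, R.lkap' h.hr, R.lq' h.hr, R.lw hl, R.lst' hl]

/-- (z1) `s (w_b / b) / (E_r E_s)`. -/
theorem z1 (R : Reg46 E w c₀ Θ δ a ε N) (h : Bs46 E δ c N b s r) :
    (s : ℝ) * ((w b / b) / (E r * E s)) ≤ N ^ (Θ + 3 * ε - c / 4) := by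
  have hs' := h.hs.pos R.N1
  have hb' := h.hb.pos R.N1
  have hE := R.Epos r
  have hE' := R.Epos s
  have hw := R.w0 b (h.hb.npos R.N1)
  refine le_pow46 R.N1 (by positivity) ?_
  simp (disch := positivity) only [Real.logb_mul, Real.logb_div]
  have hc0 : 0 < c₀ * δ := mul_pos R.c₀0 R.δ0
  linarith [h.lup R, h.ls2 R, R.lkap' h.hs, R.lw h.hb, R.lst' h.hb, R.ε0, h.c0]

/-- (z3) `b (b / s) / (E_r E_s)`. -/
theorem z3 (R : Reg46 E w c₀ Θ δ a ε N) (h : Bs46 E δ c N b s r) :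
    (b : ℝ) * (((b : ℝ) / s) / (E r * E s)) ≤ N ^ (Θ + 3 * ε - δ / 16) := by
  have hs' := h.hs.pos R.N1
  have hb' := h.hb.pos R.N1
  have hE := R.Epos r
  have hE' := R.Epos s
  refine le_pow46 R.N1 (by positivity) ?_
  simp (disch := positivity) only [Real.logb_mul, Real.logb_div]
  linarith [h.lup R, h.ls1 R, R.lkap' h.hb, h.lbs R, h.cδ, R.lq' h.hr, h.c0, R.ε0, R.δ0]

/-- (z4a) `r (w_b / b) / (E_r E_s ^ 2)`. -/
theorem z4a (R : Reg46 E w c₀ Θ δ a ε N) (h : Bs46 E δ c N b s r) :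
    (r : ℝ) * ((w b / b) / (E r * E s ^ 2)) ≤ N ^ (Θ + 2 * ε - c / 2) := by
  have hr' := h.hr.pos R.N1
  have hb' := h.hb.pos R.N1
  have hE := R.Epos r
  have hE' := R.Epos s
  have hw := R.w0 b (h.hb.npos R.N1)
  refine le_pow46 R.N1 (by positivity) ?_
  simp (disch := positivity) only [Real.logb_mul, Real.logb_div, Real.logb_pow, Nat.cast_ofNat]
  have hc0 : 0 < c₀ * δ := mul_pos R.c₀0 R.δ0
  linarith [h.lpin R, h.ls1 R, R.lkap' h.hr, R.lw h.hb, R.lst' h.hb]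

/-- (z4c) `r (b / s) ^ 2 / (E_r E_s ^ 2)`. -/
theorem z4c (R : Reg46 E w c₀ Θ δ a ε N) (h : Bs46 E δ c N b s r) :
    (r : ℝ) * (((b : ℝ) / s) ^ 2 / (E r * E s ^ 2)) ≤ N ^ (Θ + 5 * ε - δ / 16) := by
  have hr' := h.hr.pos R.N1
  have hs' := h.hs.pos R.N1
  have hb' := h.hb.pos R.N1
  have hE := R.Epos r
  have hE' := R.Epos s
  refine le_pow46 R.N1 (by positivity) ?_
  simp (disch := positivity) only [Real.logb_mul, Real.logb_div, Real.logb_pow, Nat.cast_ofNat]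
  linarith [h.lpin R, h.ls1 R, R.lkap' h.hr, h.lbs R, R.lq' h.hr, h.cδ, h.c0, R.ε0, R.δ0]

/-- (z5) `s / (E_r E_s ^ 2)`. -/
theorem z5 (R : Reg46 E w c₀ Θ δ a ε N) (h : Bs46 E δ c N b s r) :
    (1 / (E r * E s)) * ((s : ℝ) / E s) ≤ N ^ (Θ + 2 * ε - δ / 32) := by
  have hs' := h.hs.pos R.N1
  have hE := R.Epos r
  have hE' := R.Epos s
  refine le_pow46 R.N1 (by positivity) ?_
  simp (disch := positivity) only [Real.logb_mul, Real.logb_div, Real.logb_one]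
  linarith [h.lup R, h.ls2 R, R.lkap' h.hs, R.lq' h.hr, h.cδ, h.c0, R.ε0, R.δ0]

section top

variable {n : ℕ} {Wc e₀ η : ℝ}

/-- (t1) `(Wc / l) r / E_r ^ 2`. -/
theorem t1 (R : Reg46 E w c₀ Θ δ a ε n) (hr : Rg46 δ n r) (hl : 0 < l) (hWc : 0 < Wc) (hW : Wc ≤ (n : ℝ) ^ e₀ * E n ^ 2)
    (hl1 : (n : ℝ) ^ (1 - 3 * η) ≤ l) : ((Wc / l) / E r) * ((r : ℝ) / E r) ≤ (n : ℝ) ^ (e₀ + 2 * ε + 3 * η) := by
  have hr' := hr.pos R.N1
  have hl' : (0 : ℝ) < l := by exact_mod_cast hl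
  have hE := R.Epos r
  have hEn := R.Epos n
  have hN := R.N0
  refine le_pow46 R.N1 (by positivity) ?_
  simp (disch := positivity) only [Real.logb_mul, Real.logb_div]
  have h1 := to_lg46 R.N1 hWc hW
  simp (disch := positivity) only [Real.logb_mul, Real.logb_pow, Nat.cast_ofNat, lgN46 R.N1] at h1
  have h2 := to_lg46 R.N1 (by positivity) hl1
  rw [lgN46 R.N1] at h2
  have h3 := R.lhalf (hr.npos R.N1) (show r ≤ n by exact_mod_cast hr.hi)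
  rw [lgNN46 R.N1] at h3
  linarith

/-- (t2) `l (Wc / l) / (E_r E_l)`. -/
theorem t2 (R : Reg46 E w c₀ Θ δ a ε n) (hr : Rg46 δ n r) (hl : 0 < l) (hlr : l ≤ r) (hWc : 0 < Wc)
    (hW : Wc ≤ (n : ℝ) ^ e₀ * E n ^ 2) (hl1 : (n : ℝ) ^ (1 - 3 * η) ≤ l) :
    (l : ℝ) * ((Wc / l) / (E r * E l)) ≤ (n : ℝ) ^ (e₀ + 2 * ε + 3 * η) := by
  have hr' := hr.pos R.N1
  have hl' : (0 : ℝ) < l := by exact_mod_cast hl
  have hE := R.Epos r
  have hE' := R.Epos l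
  have hEn := R.Epos n
  have hN := R.N0
  refine le_pow46 R.N1 (by positivity) ?_
  simp (disch := positivity) only [Real.logb_mul, Real.logb_div]
  have h1 := to_lg46 R.N1 hWc hW
  simp (disch := positivity) only [Real.logb_mul, Real.logb_pow, Nat.cast_ofNat, lgN46 R.N1] at h1
  have h2 := to_lg46 R.N1 (by positivity) hl1
  rw [lgN46 R.N1] at h2
  have hrn : r ≤ n := by exact_mod_cast hr.hi
  have h3 := R.lhalf (hr.npos R.N1) hrn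
  have h4 := R.lhalf (Nat.succ_le_of_lt hl) (hlr.trans hrn)
  rw [lgNN46 R.N1] at h3 h4
  have h5 := R.lxmono (Nat.succ_le_of_lt hl) hlr
  linarith

/-- (t4) `r (Wc / l) / (E_r E_l ^ 2)`. -/
theorem t4 (R : Reg46 E w c₀ Θ δ a ε n) (hr : Rg46 δ n r) (hl : 0 < l) (hlr : l ≤ r) (hWc : 0 < Wc)
    (hW : Wc ≤ (n : ℝ) ^ e₀ * E n ^ 2) (hl1 : (n : ℝ) ^ (1 - 3 * η) ≤ l) :
    (r : ℝ) * ((Wc / l) / (E r * E l ^ 2)) ≤ (n : ℝ) ^ (e₀ + 2 * ε + 6 * η) := by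
  have hr' := hr.pos R.N1
  have hl' : (0 : ℝ) < l := by exact_mod_cast hl
  have hE := R.Epos r
  have hE' := R.Epos l
  have hEn := R.Epos n
  have hN := R.N0
  refine le_pow46 R.N1 (by positivity) ?_
  simp (disch := positivity) only [Real.logb_mul, Real.logb_div, Real.logb_pow, Nat.cast_ofNat]
  have h1 := to_lg46 R.N1 hWc hW
  simp (disch := positivity) only [Real.logb_mul, Real.logb_pow, Nat.cast_ofNat, lgN46 R.N1] at h1
  have h2 := to_lg46 R.N1 (by positivity) hl1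
  rw [lgN46 R.N1] at h2
  have hrn : r ≤ n := by exact_mod_cast hr.hi
  have h3 := R.lhalf (hr.npos R.N1) hrn
  have h4 := R.lhalf (Nat.succ_le_of_lt hl) (hlr.trans hrn)
  rw [lgNN46 R.N1] at h3 h4
  have h5 := R.lxmono (Nat.succ_le_of_lt hl) hlr
  have h6 := hr.lx1 R.N1
  linarith [R.lE0 l]

/-- (t5) `r / (E_r ^ 2 E_b ^ 2)`. -/
theorem t5 (R : Reg46 E w c₀ Θ δ a ε N) (h : Bs46 E δ c N b s r) :
    ((1 / E b ^ 2) / E r) * ((r : ℝ) / E r) ≤ N ^ (Θ + ε - c) := by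
  have hr' := h.hr.pos R.N1
  have hE := R.Epos r
  have hE'' := R.Epos b
  refine le_pow46 R.N1 (by positivity) ?_
  simp (disch := positivity) only [Real.logb_mul, Real.logb_div, Real.logb_pow, Real.logb_one, Nat.cast_ofNat]
  linarith [R.lkap' h.hr, h.lpin R]

end top

/-! ### The sums over the distances -/

/-- The final step: at most `17` monomials, each at most `N ^ x`. -/
theorem fin70 (R : Reg46 E w c₀ Θ δ a ε N) {e₁ e₂ x y M₁ M₂ M₃ M₄ : ℝ} (he₁ : 0 ≤ e₁) (h1 : M₁ ≤ 4 * N ^ x)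
    (h2 : M₂ ≤ N ^ x) (h3 : M₃ ≤ 2 * N ^ x) (h4 : M₄ ≤ 4 * N ^ x) (hy : x + e₁ + e₂ + 3 * ε ≤ y) :
    N ^ e₂ * (N ^ e₁ * M₁ + 3 * N ^ ε * (N ^ e₁ * M₂) + 3 * N ^ ε * M₃ + M₄) ≤ N ^ y / 2 := by
  have hN := R.N0
  have hNe : 1 ≤ N ^ ε := by linarith [R.K]
  have hNe1 : 1 ≤ N ^ e₁ := Real.one_le_rpow R.N1.le he₁
  have hx : 0 < N ^ x := Real.rpow_pos_of_pos hN _
  have hp1 : 0 < N ^ e₁ := Real.rpow_pos_of_pos hN _
  have hp2 : 0 < N ^ e₂ := Real.rpow_pos_of_pos hN _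
  have k1 : N ^ e₁ * M₁ ≤ 4 * (N ^ ε * N ^ e₁ * N ^ x) := by
    calc N ^ e₁ * M₁ ≤ N ^ e₁ * (4 * N ^ x) := mul_le_mul_of_nonneg_left h1 hp1.le
      _ = 4 * (1 * N ^ e₁ * N ^ x) := by ring
      _ ≤ _ := by gcongr
  have k2 : 3 * N ^ ε * (N ^ e₁ * M₂) ≤ 3 * (N ^ ε * N ^ e₁ * N ^ x) := by
    calc 3 * N ^ ε * (N ^ e₁ * M₂) ≤ 3 * N ^ ε * (N ^ e₁ * N ^ x) := by gcongr
      _ = _ := by ring
  have k3 : 3 * N ^ ε * M₃ ≤ 6 * (N ^ ε * N ^ e₁ * N ^ x) := by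
    calc 3 * N ^ ε * M₃ ≤ 3 * N ^ ε * (2 * N ^ x) := by gcongr
      _ = 6 * (N ^ ε * 1 * N ^ x) := by ring
      _ ≤ _ := by gcongr
  have k4 : M₄ ≤ 4 * (N ^ ε * N ^ e₁ * N ^ x) := by
    calc M₄ ≤ 4 * N ^ x := h4
      _ = 4 * (1 * 1 * N ^ x) := by ring
      _ ≤ _ := by gcongr
  have k5 : (34 : ℝ) ≤ N ^ ε * N ^ ε := by nlinarith [R.K]
  calc N ^ e₂ * (N ^ e₁ * M₁ + 3 * N ^ ε * (N ^ e₁ * M₂) + 3 * N ^ ε * M₃ + M₄)
      ≤ N ^ e₂ * (17 * (N ^ ε * N ^ e₁ * N ^ x)) := by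
        gcongr
        linarith
    _ = 34 * (N ^ e₂ * N ^ ε * N ^ e₁ * N ^ x) / 2 := by ring
    _ ≤ (N ^ ε * N ^ ε) * (N ^ e₂ * N ^ ε * N ^ e₁ * N ^ x) / 2 := by gcongr
    _ = (N ^ ε * N ^ ε * N ^ ε * N ^ e₂ * N ^ e₁ * N ^ x) / 2 := by ring
    _ = N ^ (ε + ε + ε + e₂ + e₁ + x) / 2 := by
        rw [← Real.rpow_add hN, ← Real.rpow_add hN, ← Real.rpow_add hN, ← Real.rpow_add hN, ← Real.rpow_add hN]
    _ ≤ N ^ y / 2 := by
        gcongr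
        · exact R.N1.le
        · linarith

/-- `s' / E s' ≤ N ^ e₁ (l / E l)` for `l ≤ s' ≤ N ^ e₁ l`. -/
theorem ratio70 (R : Reg46 E w c₀ Θ δ a ε N) {s' : ℕ} {e₁ : ℝ} (hls : l ≤ s') (hs' : (s' : ℝ) ≤ N ^ e₁ * l) :
    (s' : ℝ) / E s' ≤ N ^ e₁ * (l / E l) := by
  have hE := R.Epos l
  have hE' := R.Epos s'
  have hN := R.N0
  calc (s' : ℝ) / E s' ≤ (N ^ e₁ * l) / E l := by
        have := R.mono hls
        gcongr
    _ = _ := by ring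

/-- The sum over the distances `D < r` of the majorant `Phi`, against the four monomials of the scale `l`. -/
theorem four70 (R : Reg46 E w c₀ Θ δ a ε N) {A G H C e₁ e₂ x y : ℝ} (hA : 0 ≤ A) (hG : 0 ≤ G) (hH : 0 ≤ H) (he₁ : 0 ≤ e₁)
    (hb : 1 ≤ b) (hbl : b ≤ l) (hbr : b ≤ r) {hh s' : ℕ} (hh1 : (hh : ℝ) ≤ N ^ e₁ * l) (hs' : l ≤ s') (hs'1 : (s' : ℝ) ≤ N ^ e₁ * l)
    (m1 : (l : ℝ) * A ≤ 4 * N ^ x) (m2 : G * ((l : ℝ) / E l) ≤ N ^ x) (m3 : H * ((r : ℝ) / E r) ≤ 2 * N ^ x)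
    (m4 : (r : ℝ) * C ≤ 4 * N ^ x) (hy : x + e₁ + e₂ + 3 * ε ≤ y) :
    N ^ e₂ * ∑ D ∈ range r, Phi E A G H C hh b s' D ≤ N ^ y / 2 := by
  have hN := R.N0
  have hp2 : 0 < N ^ e₂ := Real.rpow_pos_of_pos hN _
  have hp1 : 0 < N ^ e₁ := Real.rpow_pos_of_pos hN _
  have hpe : 0 < N ^ ε := Real.rpow_pos_of_pos hN _
  have h2 := sum_Phi_le (E := E) (C := C) (l := hh) R.Epos hpe.le R.half hA hG hH hb (hbl.trans hs') hbr
  have h3 := ratio70 R hs' hs'1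
  refine (mul_le_mul_of_nonneg_left h2 hp2.le).trans (le_trans ?_ (fin70 R he₁ m1 m2 m3 m4 hy))
  refine mul_le_mul_of_nonneg_left (add_le_add (add_le_add (add_le_add ?_ ?_) ?_) le_rfl) hp2.le
  · calc (hh : ℝ) * A ≤ (N ^ e₁ * l) * A := by gcongr
      _ = _ := by ring
  · calc 3 * N ^ ε * G * ((s' : ℝ) / E s') ≤ 3 * N ^ ε * G * (N ^ e₁ * (l / E l)) := by gcongr
      _ = _ := by ring
  · exact (mul_assoc _ _ _).le

/-- **`T_i`, `i ≥ 1`, and `T_0R`** (`l = s`): scale `l ≥ s`, `l ≤ N ^ (1 - η)`. Near rows: distance `< h`, `h ≤ N ^ e₁ l`. -/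
theorem sum_i (R : Reg46 E w c₀ Θ δ a ε N) (h : Bs46 E δ c N b s r) (hl : Rg46 δ N l) (hsl : s ≤ l) (hlr : l ≤ r) {η : ℝ}
    (hη : 0 ≤ η) (hl1 : (l : ℝ) ≤ N ^ (1 - η)) {e₁ e₂ c₁ : ℝ} (he₁ : 0 ≤ e₁) {hh : ℕ} (hh1 : (hh : ℝ) ≤ N ^ e₁ * l)
    {s' : ℕ} (hs' : l ≤ s') (hs'1 : (s' : ℝ) ≤ N ^ e₁ * l) (q1 : c₁ + e₁ + e₂ + 5 * ε ≤ Θ) (q2 : c₁ + e₁ + e₂ + 5 * ε ≤ c)
    (q3 : c₁ + e₁ + e₂ + 5 * ε ≤ Θ * η) (q4 : c₁ + e₁ + e₂ + 5 * ε ≤ δ / 16) :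
    N ^ e₂ * ∑ D ∈ range r, Phi E ((w l / l + 1 / E b ^ 2) / (E r * E l)) (1 / (E r * E l)) (1 / (E r * E l ^ 2))
      ((w l / l + 1 / E b ^ 2) / (E r * E l ^ 2)) hh b s' D ≤ N ^ (Θ - c₁) / 2 := by
  have hN := R.N0
  have hE := R.Epos r
  have hE' := R.Epos l
  have hE'' := R.Epos b
  have hw := R.w0 l (hl.npos R.N1)
  have hl' := hl.pos R.N1
  have hε := R.ε0
  have hδ := R.δ0
  have hc := h.c0
  obtain ⟨x, hx⟩ : ∃ x, x = Θ - c₁ - e₁ - e₂ - 3 * ε := ⟨_, rfl⟩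
  have e4 : 0 < N ^ x := Real.rpow_pos_of_pos hN _
  refine four70 (l := l) R (by positivity) (by positivity) (by positivity) he₁ (h.hb.npos R.N1) (h.bs.trans hsl) (h.bs.trans h.sr)
    hh1 hs' hs'1 ?_ ?_ ?_ ?_ (show x + e₁ + e₂ + 3 * ε ≤ Θ - c₁ by linarith)
  · have e1 := (i1 R (r := r) hl hlr).trans (Real.rpow_le_rpow_of_exponent_le R.N1.le (show ε ≤ x by linarith))
    have e2 := (i2 R h hl hlr).trans (Real.rpow_le_rpow_of_exponent_le R.N1.le (show Θ - c + 2 * ε ≤ x by linarith))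
    have e3 : (l : ℝ) * ((w l / l + 1 / E b ^ 2) / (E r * E l)) =
        (l : ℝ) * ((w l / l) / (E r * E l)) + (l : ℝ) * ((1 / E b ^ 2) / (E r * E l)) := by ring
    rw [e3]
    linarith
  · exact (i3 R hl hlr hη hl1).trans (Real.rpow_le_rpow_of_exponent_le R.N1.le (by linarith))
  · have e1 := (i4 R h hsl).trans (Real.rpow_le_rpow_of_exponent_le R.N1.le (show Θ + ε - δ / 8 ≤ x by linarith))
    linarith
  · have e1 := (i5b R h hl hsl).trans (Real.rpow_le_rpow_of_exponent_le R.N1.le (show Θ + 2 * ε - δ / 16 ≤ x by linarith))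
    have e2 := (i5a R h hsl).trans
      (Real.rpow_le_rpow_of_exponent_le R.N1.le (show Θ + ε - c - δ / 8 ≤ x by linarith))
    have e3 : (r : ℝ) * ((w l / l + 1 / E b ^ 2) / (E r * E l ^ 2)) =
        (r : ℝ) * ((w l / l) / (E r * E l ^ 2)) + (r : ℝ) * ((1 / E b ^ 2) / (E r * E l ^ 2)) := by ring
    rw [e3]
    linarith

/-- **The last term of the telescope** (root: `n = N`): slab of scale `l`, `N ^ (1 - 3 η) ≤ l ≤ N ^ (1 - 2 η)`, cone of width `Wc`. -/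
theorem sum_top {n : ℕ} (R : Reg46 E w c₀ Θ δ a ε n) (h : Bs46 E δ c n b s r) (hl : Rg46 δ n l) (hsl : s ≤ l) (hlr : l ≤ r)
    {η e₀ Wc : ℝ} (hη : 0 ≤ η) (hl0 : (n : ℝ) ^ (1 - 3 * η) ≤ l) (hl1 : (l : ℝ) ≤ (n : ℝ) ^ (1 - 2 * η)) (hWc : 0 < Wc)
    (hW : Wc ≤ (n : ℝ) ^ e₀ * E n ^ 2) {e₁ e₂ c₁ : ℝ} (he₁ : 0 ≤ e₁) {hh : ℕ} (hh1 : (hh : ℝ) ≤ (n : ℝ) ^ e₁ * l)
    {s' : ℕ} (hs' : l ≤ s') (hs'1 : (s' : ℝ) ≤ (n : ℝ) ^ e₁ * l) (q1 : c₁ + e₀ + e₁ + e₂ + 5 * ε + 6 * η ≤ Θ)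
    (q2 : c₁ + e₁ + e₂ + 5 * ε ≤ c) (q3 : c₁ + e₁ + e₂ + 5 * ε ≤ Θ * (2 * η)) (q4 : c₁ + e₁ + e₂ + 5 * ε ≤ δ / 16) :
    (n : ℝ) ^ e₂ * ∑ D ∈ range r, Phi E ((Wc / l + 1 / E b ^ 2) / (E r * E l)) (1 / (E r * E l))
      ((Wc / l + 1 / E b ^ 2) / E r) ((Wc / l + 1 / E b ^ 2) / (E r * E l ^ 2)) hh b s' D ≤ (n : ℝ) ^ (Θ - c₁) / 2 := by
  have hN := R.N0
  have hE := R.Epos r
  have hE' := R.Epos l
  have hE'' := R.Epos b
  have hl' := hl.pos R.N1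
  have hlp := hl.npos R.N1
  have hε := R.ε0
  have hδ := R.δ0
  have hc := h.c0
  obtain ⟨x, hx⟩ : ∃ x, x = Θ - c₁ - e₁ - e₂ - 3 * ε := ⟨_, rfl⟩
  have e4 : 0 < (n : ℝ) ^ x := Real.rpow_pos_of_pos hN _
  refine four70 (l := l) R (by positivity) (by positivity) (by positivity) he₁ (h.hb.npos R.N1) (h.bs.trans hsl) (h.bs.trans h.sr)
    hh1 hs' hs'1 ?_ ?_ ?_ ?_ (show x + e₁ + e₂ + 3 * ε ≤ Θ - c₁ by linarith)
  · have e1 := (t2 R h.hr hlp hlr hWc hW hl0).trans (Real.rpow_le_rpow_of_exponent_le R.N1.le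
      (show e₀ + 2 * ε + 3 * η ≤ x by linarith))
    have e2 := (i2 R h hl hlr).trans (Real.rpow_le_rpow_of_exponent_le R.N1.le (show Θ - c + 2 * ε ≤ x by linarith))
    have e3 : (l : ℝ) * ((Wc / l + 1 / E b ^ 2) / (E r * E l)) =
        (l : ℝ) * ((Wc / l) / (E r * E l)) + (l : ℝ) * ((1 / E b ^ 2) / (E r * E l)) := by ring
    rw [e3]
    linarith
  · exact (i3 R hl hlr (by linarith) hl1).trans (Real.rpow_le_rpow_of_exponent_le R.N1.le (by linarith))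
  · have e1 := (t1 R h.hr hlp hWc hW hl0).trans (Real.rpow_le_rpow_of_exponent_le R.N1.le
      (show e₀ + 2 * ε + 3 * η ≤ x by linarith))
    have e2 := (t5 R h).trans (Real.rpow_le_rpow_of_exponent_le R.N1.le (show Θ + ε - c ≤ x by linarith))
    have e3 : ((Wc / l + 1 / E b ^ 2) / E r) * ((r : ℝ) / E r) =
        ((Wc / l) / E r) * ((r : ℝ) / E r) + ((1 / E b ^ 2) / E r) * ((r : ℝ) / E r) := by ring
    rw [e3]
    linarith
  · have e1 := (t4 R h.hr hlp hlr hWc hW hl0).trans (Real.rpow_le_rpow_of_exponent_le R.N1.le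
      (show e₀ + 2 * ε + 6 * η ≤ x by linarith))
    have e2 := (i5a R h hsl).trans
      (Real.rpow_le_rpow_of_exponent_le R.N1.le (show Θ + ε - c - δ / 8 ≤ x by linarith))
    have e3 : (r : ℝ) * ((Wc / l + 1 / E b ^ 2) / (E r * E l ^ 2)) =
        (r : ℝ) * ((Wc / l) / (E r * E l ^ 2)) + (r : ℝ) * ((1 / E b ^ 2) / (E r * E l ^ 2)) := by ring
    rw [e3]
    linarith

/-- **`T_0L`, the part with the own pair of scale `s`**: near slab of scale `b` (gain `w_b / b`), micro loops, and the own closings at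
distance `O(b)` (two different blocks: `(b / s) ^ 2`). -/
theorem sum_0 (R : Reg46 E w c₀ Θ δ a ε N) (h : Bs46 E δ c N b s r) {e₁ e₂ c₁ : ℝ} (he₁ : 0 ≤ e₁)
    {hh : ℕ} (hh1 : (hh : ℝ) ≤ N ^ e₁ * s) {s' : ℕ} (hs' : s ≤ s') (hs'1 : (s' : ℝ) ≤ N ^ e₁ * s)
    (q2 : c₁ + e₁ + e₂ + 8 * ε ≤ c / 4) (q4 : c₁ + e₁ + e₂ + 8 * ε ≤ δ / 32) :
    N ^ e₂ * ∑ D ∈ range r, Phi E ((w b / b + 1 / E b ^ 2) / (E r * E s)) (1 / (E r * E s)) (1 / (E r * E s ^ 2))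
      ((w b / b + 1 / E b ^ 2 + ((b : ℝ) / s) ^ 2) / (E r * E s ^ 2)) hh b s' D ≤ N ^ (Θ - c₁) / 2 := by
  have hN := R.N0
  have hE := R.Epos r
  have hE' := R.Epos s
  have hE'' := R.Epos b
  have hw := R.w0 b (h.hb.npos R.N1)
  have hs0 := h.hs.pos R.N1
  have hb0 := h.hb.pos R.N1
  have hε := R.ε0
  have hδ := R.δ0
  have hc := h.c0
  obtain ⟨x, hx⟩ : ∃ x, x = Θ - c₁ - e₁ - e₂ - 3 * ε := ⟨_, rfl⟩
  have e4 : 0 < N ^ x := Real.rpow_pos_of_pos hN _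
  refine four70 (l := s) R (by positivity) (by positivity) (by positivity) he₁ (h.hb.npos R.N1) h.bs (h.bs.trans h.sr)
    hh1 hs' hs'1 ?_ ?_ ?_ ?_ (show x + e₁ + e₂ + 3 * ε ≤ Θ - c₁ by linarith)
  · have e1 := (z1 R h).trans (Real.rpow_le_rpow_of_exponent_le R.N1.le (show Θ + 3 * ε - c / 4 ≤ x by linarith))
    have e2 := (i2 R h h.hs h.sr).trans (Real.rpow_le_rpow_of_exponent_le R.N1.le (show Θ - c + 2 * ε ≤ x by linarith))
    have e3 : (s : ℝ) * ((w b / b + 1 / E b ^ 2) / (E r * E s)) =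
        (s : ℝ) * ((w b / b) / (E r * E s)) + (s : ℝ) * ((1 / E b ^ 2) / (E r * E s)) := by ring
    rw [e3]
    linarith
  · exact (z5 R h).trans (Real.rpow_le_rpow_of_exponent_le R.N1.le (by linarith))
  · have e1 := (i4 R h le_rfl).trans (Real.rpow_le_rpow_of_exponent_le R.N1.le (show Θ + ε - δ / 8 ≤ x by linarith))
    linarith
  · have e1 := (z4a R h).trans (Real.rpow_le_rpow_of_exponent_le R.N1.le (show Θ + 2 * ε - c / 2 ≤ x by linarith))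
    have e2 := (i5a R h le_rfl).trans
      (Real.rpow_le_rpow_of_exponent_le R.N1.le (show Θ + ε - c - δ / 8 ≤ x by linarith))
    have e5 := (z4c R h).trans (Real.rpow_le_rpow_of_exponent_le R.N1.le (show Θ + 5 * ε - δ / 16 ≤ x by linarith))
    have e3 : (r : ℝ) * ((w b / b + 1 / E b ^ 2 + ((b : ℝ) / s) ^ 2) / (E r * E s ^ 2)) =
        (r : ℝ) * ((w b / b) / (E r * E s ^ 2)) + (r : ℝ) * ((1 / E b ^ 2) / (E r * E s ^ 2)) +
          (r : ℝ) * (((b : ℝ) / s) ^ 2 / (E r * E s ^ 2)) := by ring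
    rw [e3]
    linarith

/-- The near part of `T_0L`: rows at distance `< h`, `h ≤ N ^ e₁ b`: `1 / (E_r E_s)` (new replica alone) is allowed. -/
theorem near_0 (R : Reg46 E w c₀ Θ δ a ε N) (h : Bs46 E δ c N b s r) {e₁ e₂ c₁ : ℝ}
    {hh : ℕ} (hh1 : (hh : ℝ) ≤ N ^ e₁ * b) (q4 : c₁ + e₁ + e₂ + 8 * ε ≤ δ / 32) :
    N ^ e₂ * (hh * (1 / (E r * E s))) ≤ N ^ (Θ - c₁) / 2 := by
  have hN := R.N0
  have hE := R.Epos r
  have hE' := R.Epos s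
  have hb0 := h.hb.pos R.N1
  have hε := R.ε0
  have hδ := R.δ0
  have hc := h.c0
  have m : (b : ℝ) * (1 / (E r * E s)) ≤ N ^ (Θ + ε - δ / 32) := by
    refine le_pow46 R.N1 (by positivity) ?_
    simp (disch := positivity) only [Real.logb_mul, Real.logb_div, Real.logb_one]
    linarith [h.lup R, h.ls1 R, R.lkap' h.hb, h.cδ, R.lq' h.hr]
  have k : (2 : ℝ) ≤ N ^ ε := by linarith [R.K]
  calc N ^ e₂ * (hh * (1 / (E r * E s))) ≤ N ^ e₂ * ((N ^ e₁ * b) * (1 / (E r * E s))) := by gcongr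
    _ = N ^ e₂ * N ^ e₁ * (b * (1 / (E r * E s))) := by ring
    _ ≤ N ^ e₂ * N ^ e₁ * N ^ (Θ + ε - δ / 32) := by gcongr
    _ = 2 * (N ^ e₂ * N ^ e₁ * N ^ (Θ + ε - δ / 32)) / 2 := by ring
    _ ≤ N ^ ε * (N ^ e₂ * N ^ e₁ * N ^ (Θ + ε - δ / 32)) / 2 := by gcongr
    _ = N ^ (ε + (e₂ + e₁ + (Θ + ε - δ / 32))) / 2 := by
        rw [← Real.rpow_add hN, ← Real.rpow_add hN, ← Real.rpow_add hN]
    _ ≤ N ^ (Θ - c₁) / 2 := by
        gcongr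
        · exact R.N1.le
        · linarith

/-! ### From the distances to the pairs of rows -/

/-- The double sum over the rows of a block of length `r`. -/
theorem dsum70 {X e₂ : ℝ} (hN : 0 < N) {φ : ℕ → ℝ} (hφ : ∀ D, 0 ≤ φ D) (hX : N ^ e₂ * ∑ D ∈ range r, φ D ≤ X / 2) {S : Finset ℕ} {c' : ℕ}
    (hS : ∀ k ∈ S, c' ≤ k ∧ k < c' + r) {P : ℕ → ℕ → ℝ} (hP : ∀ j ∈ S, ∀ k ∈ S, P j k ≤ N ^ e₂ * φ (Nat.dist j k)) :
    ∑ j ∈ S, ∑ k ∈ S, P j k ≤ r * X := by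
  have hp2 : 0 < N ^ e₂ := Real.rpow_pos_of_pos hN _
  have h1 := GS4.dsum_le hS (P := P) (Φ := fun D => N ^ e₂ * φ D) (fun D => mul_nonneg hp2.le (hφ D)) hP
  rw [← mul_sum] at h1
  have h3 : (S.card : ℝ) ≤ r := by
    have h4 : S ⊆ Ico c' (c' + r) := fun k hk => mem_Ico.2 (hS k hk)
    have h5 := card_le_card h4
    rw [Nat.card_Ico, Nat.add_sub_cancel_left] at h5
    exact_mod_cast h5
  have h6 : 0 ≤ N ^ e₂ * ∑ D ∈ range r, φ D := mul_nonneg hp2.le (sum_nonneg fun D _ => hφ D)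
  calc _ ≤ _ := h1
    _ ≤ (r : ℝ) * (2 * (N ^ e₂ * ∑ D ∈ range r, φ D)) := mul_le_mul_of_nonneg_right h3 (by positivity)
    _ ≤ (r : ℝ) * (2 * (X / 2)) := mul_le_mul_of_nonneg_left (by linarith) (Nat.cast_nonneg _)
    _ = r * X := by ring

/-- The form of `grp93`: `√(8 |S| ∑ φ) √(2 x) ≤ 4 N ^ (- c₁ / 2) √(r N ^ Θ) √x`. -/
theorem grp70 (hN : 0 < N) {Φ c₁ x : ℝ} {S : Finset ℕ} (hS : (S.card : ℝ) ≤ r) (hΦ : Φ ≤ N ^ (Θ - c₁)) :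
    √(8 * S.card * Φ) * √(2 * x) ≤ 4 * (N ^ (-(c₁ / 2)) * √(r * N ^ Θ)) * √x := by
  have e : N ^ (-(c₁ / 2)) * √(r * N ^ Θ) = √(r * N ^ (Θ - c₁)) := by
    have e1 : N ^ (-(c₁ / 2)) = √(N ^ (-c₁)) := by
      rw [Real.sqrt_eq_rpow, ← Real.rpow_mul hN.le]
      congr 1
      ring
    rw [e1, ← Real.sqrt_mul (by positivity)]
    congr 1
    have e2 : N ^ (Θ - c₁) = N ^ (-c₁) * N ^ Θ := by
      rw [← Real.rpow_add hN]
      congr 1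
      ring
    rw [e2]
    ring
  have hp : 0 < N ^ (Θ - c₁) := Real.rpow_pos_of_pos hN _
  have h1 : √(8 * S.card * Φ) ≤ √(8 * (r * N ^ (Θ - c₁))) := by
    refine Real.sqrt_le_sqrt ?_
    calc 8 * (S.card : ℝ) * Φ ≤ 8 * (S.card : ℝ) * N ^ (Θ - c₁) := mul_le_mul_of_nonneg_left hΦ (by positivity)
      _ ≤ 8 * (r : ℝ) * N ^ (Θ - c₁) := by gcongr
      _ = _ := by ring
  have h2 : √(8 * (r * N ^ (Θ - c₁))) * √(2 * x) = 4 * √(r * N ^ (Θ - c₁)) * √x := by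
    rw [← Real.sqrt_mul (by positivity), show 8 * ((r : ℝ) * N ^ (Θ - c₁)) * (2 * x) = 4 ^ 2 * ((r * N ^ (Θ - c₁)) * x) by ring,
      Real.sqrt_mul (by norm_num), Real.sqrt_sq (by norm_num), Real.sqrt_mul (by positivity)]
    ring
  rw [e]
  calc _ ≤ √(8 * (r * N ^ (Θ - c₁))) * √(2 * x) := mul_le_mul_of_nonneg_right h1 (Real.sqrt_nonneg _)
    _ = _ := h2

/-- **The choice of the exponents**: `η = Θ / 16` and a gain `c₁` which does not depend on the losses. -/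
theorem par70 {c : ℝ} (hΘ : 0 < Θ) (hδ : 0 < δ) (hc : 0 < c) : ∃ η c₁ : ℝ, 0 < η ∧ η ≤ Θ / 16 ∧ 0 < c₁ ∧
    ∀ e₀ e₁ e₂ ε : ℝ, 0 ≤ e₀ → 0 ≤ e₁ → 0 ≤ e₂ → 0 ≤ ε → e₀ + e₁ + e₂ + 8 * ε ≤ c₁ →
      c₁ + e₀ + e₁ + e₂ + 8 * ε + 6 * η ≤ Θ ∧ c₁ + e₁ + e₂ + 8 * ε ≤ c / 4 ∧ c₁ + e₁ + e₂ + 8 * ε ≤ Θ * (2 * η) ∧
        c₁ + e₁ + e₂ + 8 * ε ≤ δ / 32 := by
  refine ⟨Θ / 16, min (min (Θ / 8) (Θ ^ 2 / 16)) (min (c / 8) (δ / 64)), by positivity, le_rfl, by positivity, ?_⟩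
  intro e₀ e₁ e₂ ε h0 h1 h2 h3 h
  have k1 : min (min (Θ / 8) (Θ ^ 2 / 16)) (min (c / 8) (δ / 64)) ≤ Θ / 8 := (min_le_left _ _).trans (min_le_left _ _)
  have k2 : min (min (Θ / 8) (Θ ^ 2 / 16)) (min (c / 8) (δ / 64)) ≤ Θ ^ 2 / 16 := (min_le_left _ _).trans (min_le_right _ _)
  have k3 : min (min (Θ / 8) (Θ ^ 2 / 16)) (min (c / 8) (δ / 64)) ≤ c / 8 := (min_le_right _ _).trans (min_le_left _ _)
  have k4 : min (min (Θ / 8) (Θ ^ 2 / 16)) (min (c / 8) (δ / 64)) ≤ δ / 64 := (min_le_right _ _).trans (min_le_right _ _)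
  refine ⟨by linarith, by linarith, ?_, by linarith⟩
  have e : Θ * (2 * (Θ / 16)) = Θ ^ 2 / 8 := by ring
  rw [e]
  linarith

end

end Pool.Agent.W_7d29a1_C0.Tf70
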