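import Pool.Agent.W_7d29a1_C0.PT93E
import Pool.Agent.W_7d29a1_C0.TL72
import Pool.Agent.W_7d29a1_C0.Tf70


/-!
CURV0 (MP_7d29a1_pr), leaf (T), PRICES, part 6: the functions `phO`, `phOt`, `phM`, `phMt` of `PT93E` against the majorant `Phi` of
`GSsum4` / `Tf70`. `NP` = the prices of the places in units of `1 / E`, with a loss `Q`; `phO_prim`, `phOt_prim`, `phM_prim`, `phMt_prim` =
explicit sums; `phO_Phi`, `phM_Phi`, `phOt_Phi`, `phMt_Phi` for any coefficients above the ones needed. `pc_le` = the price of a window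
which is shorter than the scale. `ml_LR72`: the micro factors of `levN72`. (helper93)
-/

set_option autoImplicit false
set_option linter.unusedSectionVars false
set_option linter.unusedVariables false

namespace Pool.Agent.W_7d29a1_C0.T93

open MeasureTheory ProbabilityTheory Filter Topology Finset
open Pool.Agent.W_7d29a1_F Pool.Agent.W_7d29a1_X
open Pool.Agent.W_7d29a1_HZ (wd' EE')
open Pool.Agent.W_7d29a1_C0.Mod92
open Pool.Agent.W_7d29a1_C0.T72 (UQ72 NN72 one72 ind72 LR72)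
open Pool.Agent.W_7d29a1_C0.EvT50 (RpM)
open Pool.Agent.W_7d29a1_C0.GS4 (Phi)

noncomputable section

variable {μ : Measure ℝ} {s : ℝ} {N : ℕ} {ε θ κ c' : ℝ}

/-- The micro factors of `levN72`. -/
theorem ml_LR72 (S ys : Finset ℕ) (mm : ℕ → ℕ) (b l q : ℕ) (M : ℝ) :
    ML μ s N S ys mm (fun j => LR72 μ s N (mm j) b j l q M) b l q M :=
  ⟨fun _ _ _ _ _ _ => T72.LR72_nonneg _ _ _ _ _ _ _ _ _, fun _ _ _ _ _ _ => T72.LR72_le_one _ _ _ _ _ _ _ _ _,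
    fun j _ y _ ω x => mcS_of_rpM _ _ _ _ _ _ ω x⟩

/-! ### The prices in units of `1 / E` -/

/-- The prices of the places, with a loss `Q`. -/
structure NP (μ : Measure ℝ) (s : ℝ) (N : ℕ) (ε c' : ℝ) (E : ℕ → ℝ) (Q : ℝ) (tr tl tb q r l b b0 : ℕ) : Prop where
  E1 : ∀ n, 1 ≤ E n
  Q1 : 1 ≤ Q
  pr : pc μ s N ε tr ≤ Q * (E r)⁻¹
  pl : pc μ s N ε tl ≤ Q * (E l)⁻¹
  pb : pc μ s N ε tb ≤ Q * (E b)⁻¹
  pD : ∀ D, b0 ≤ D → D < r → pc μ s N ε D ≤ Q * (E (max D b))⁻¹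
  mb : ∀ D, D < 4 * b0 → (E b)⁻¹ ≤ 4 * (E (max D b))⁻¹
  hq : 6 * (q : ℝ) ≤ Q
  er : er N c' ≤ (E r)⁻¹ * ((E l)⁻¹) ^ 2 * ((E b)⁻¹) ^ 2

theorem fin93 {Q X y e : ℝ} {k : ℕ} (hQ : 1 ≤ Q) (hk : k ≤ 7) (hy : 0 ≤ y) (hX : X ≤ Q ^ k * y) (he : e ≤ y) :
    X + e ≤ 2 * Q ^ 7 * y := by
  have h1 : Q ^ k ≤ Q ^ 7 := pow_le_pow_right₀ hQ hk
  have h2 : (1 : ℝ) ≤ Q ^ 7 := one_le_pow₀ hQ
  have h3 := mul_le_mul_of_nonneg_right h1 hy
  have h4 := mul_le_mul_of_nonneg_right h2 hy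
  linarith

section NPs

variable {E : ℕ → ℝ} {Q : ℝ} {tr tl tb q r l b b0 Df hh s' D : ℕ}

/-- Own pairs, explicit. -/
theorem phO_prim (h : NP μ s N ε c' E Q tr tl tb q r l b b0) : phO μ s N ε c' tr tl Df D ≤
    2 * Q ^ 7 * ((if D < Df then (E r)⁻¹ * (E l)⁻¹ else 0) + (E r)⁻¹ * ((E l)⁻¹) ^ 2) := by
  obtain ⟨a, ha⟩ : ∃ a, a = (E r)⁻¹ := ⟨_, rfl⟩
  obtain ⟨c, hc⟩ : ∃ c, c = (E l)⁻¹ := ⟨_, rfl⟩
  obtain ⟨d, hd⟩ : ∃ d, d = (E b)⁻¹ := ⟨_, rfl⟩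
  have a0 : 0 < a := by rw [ha]; exact inv_pos.2 (by linarith [h.E1 r])
  have c0 : 0 < c := by rw [hc]; exact inv_pos.2 (by linarith [h.E1 l])
  have d0 : 0 < d := by rw [hd]; exact inv_pos.2 (by linarith [h.E1 b])
  have c1 : c ≤ 1 := by rw [hc]; exact inv_le_one_of_one_le₀ (h.E1 l)
  have d1 : d ≤ 1 := by rw [hd]; exact inv_le_one_of_one_le₀ (h.E1 b)
  have hQ := h.Q1
  have Q0 : 0 < Q := by linarith
  have p1 := h.pr
  have p2 := h.pl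
  have p4 := h.er
  have n1 := pc_nonneg (μ := μ) (s := s) N ε tr
  have n2 := pc_nonneg (μ := μ) (s := s) N ε tl
  rw [← ha] at p1
  rw [← hc] at p2
  rw [← ha, ← hc, ← hd] at p4
  rw [← ha, ← hc]
  have d2 : d ^ 2 ≤ 1 := pow_le_one₀ d0.le d1
  have c2 : c ^ 2 ≤ c := by
    calc c ^ 2 = c * c := by ring
      _ ≤ c * 1 := mul_le_mul_of_nonneg_left c1 c0.le
      _ = c := mul_one c
  have e1 : a * c ^ 2 * d ^ 2 ≤ a * c ^ 2 := mul_le_of_le_one_right (by positivity) d2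
  have e2 : a * c ^ 2 ≤ a * c := mul_le_mul_of_nonneg_left c2 a0.le
  have x1 : pc μ s N ε tr * pc μ s N ε tl ≤ Q ^ 2 * (a * c) :=
    (mul_le_mul p1 p2 n2 (by positivity)).trans (le_of_eq (by ring))
  have x2 : pc μ s N ε tr * pc μ s N ε tl * pc μ s N ε tl ≤ Q ^ 3 * (a * c ^ 2) :=
    (mul_le_mul (mul_le_mul p1 p2 n2 (by positivity)) p2 n2 (by positivity)).trans (le_of_eq (by ring))
  unfold phO
  split_ifs with hD
  · have g := fin93 hQ (by norm_num) (by positivity) x1 (p4.trans (e1.trans e2))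
    have g2 : 0 ≤ 2 * Q ^ 7 * (a * c ^ 2) := by positivity
    rw [mul_add]
    linarith
  · have g := fin93 hQ (by norm_num) (by positivity) x2 (p4.trans e1)
    rw [zero_add]
    exact g

/-- Own pairs, the last level, explicit. -/
theorem phOt_prim (h : NP μ s N ε c' E Q tr tl tb q r l b b0) (hbD : b0 ≤ Df) (hDr : D < r) : phOt μ s N ε c' tr tl Df D ≤
    2 * Q ^ 7 * ((if D < Df then (E r)⁻¹ * (E l)⁻¹ else 0) + (E r)⁻¹ * ((E l)⁻¹) ^ 2 + 2 * ((E r)⁻¹ * (E (max D b))⁻¹)) +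
      (if D < Df then 0 else 2 * Q ^ 7 * ((E r)⁻¹ * ((E l)⁻¹) ^ 2)) := by
  obtain ⟨a, ha⟩ : ∃ a, a = (E r)⁻¹ := ⟨_, rfl⟩
  obtain ⟨c, hc⟩ : ∃ c, c = (E l)⁻¹ := ⟨_, rfl⟩
  obtain ⟨d, hd⟩ : ∃ d, d = (E b)⁻¹ := ⟨_, rfl⟩
  obtain ⟨x, hx⟩ : ∃ x, x = (E (max D b))⁻¹ := ⟨_, rfl⟩
  have a0 : 0 < a := by rw [ha]; exact inv_pos.2 (by linarith [h.E1 r])
  have c0 : 0 < c := by rw [hc]; exact inv_pos.2 (by linarith [h.E1 l])
  have d0 : 0 < d := by rw [hd]; exact inv_pos.2 (by linarith [h.E1 b])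
  have x0 : 0 < x := by rw [hx]; exact inv_pos.2 (by linarith [h.E1 (max D b)])
  have c1 : c ≤ 1 := by rw [hc]; exact inv_le_one_of_one_le₀ (h.E1 l)
  have d1 : d ≤ 1 := by rw [hd]; exact inv_le_one_of_one_le₀ (h.E1 b)
  have hQ := h.Q1
  have Q0 : 0 < Q := by linarith
  have p1 := h.pr
  have p2 := h.pl
  have p4 := h.er
  have n1 := pc_nonneg (μ := μ) (s := s) N ε tr
  have n2 := pc_nonneg (μ := μ) (s := s) N ε tl
  have n3 := pc_nonneg (μ := μ) (s := s) N ε D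
  rw [← ha] at p1
  rw [← hc] at p2
  rw [← ha, ← hc, ← hd] at p4
  rw [← ha, ← hc, ← hx]
  have d2 : d ^ 2 ≤ 1 := pow_le_one₀ d0.le d1
  have c2 : c ^ 2 ≤ c := by
    calc c ^ 2 = c * c := by ring
      _ ≤ c * 1 := mul_le_mul_of_nonneg_left c1 c0.le
      _ = c := mul_one c
  have e1 : a * c ^ 2 * d ^ 2 ≤ a * c ^ 2 := mul_le_of_le_one_right (by positivity) d2
  have e2 : a * c ^ 2 ≤ a * c := mul_le_mul_of_nonneg_left c2 a0.le
  have x1 : pc μ s N ε tr * pc μ s N ε tl ≤ Q ^ 2 * (a * c) :=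
    (mul_le_mul p1 p2 n2 (by positivity)).trans (le_of_eq (by ring))
  have x2 : pc μ s N ε tr * pc μ s N ε tl * pc μ s N ε tl ≤ Q ^ 3 * (a * c ^ 2) :=
    (mul_le_mul (mul_le_mul p1 p2 n2 (by positivity)) p2 n2 (by positivity)).trans (le_of_eq (by ring))
  have Q7 : 0 < 2 * Q ^ 7 := by positivity
  unfold phOt
  split_ifs with hD
  · have g := fin93 hQ (by norm_num) (by positivity) x1 (p4.trans (e1.trans e2))
    have g2 : 0 ≤ 2 * Q ^ 7 * (a * c ^ 2) := by positivity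
    have g3 : 0 ≤ 2 * Q ^ 7 * (2 * (a * x)) := by positivity
    rw [mul_add, mul_add]
    linarith
  · have g := fin93 hQ (by norm_num) (by positivity) x2 (p4.trans e1)
    have p5 := h.pD D (by omega) hDr
    rw [← hx] at p5
    have x3 : pc μ s N ε tr * pc μ s N ε D ≤ Q ^ 2 * (a * x) :=
      (mul_le_mul p1 p5 n3 (by positivity)).trans (le_of_eq (by ring))
    have h1 : Q ^ 2 ≤ Q ^ 7 := pow_le_pow_right₀ hQ (by norm_num)
    have h3 := mul_le_mul_of_nonneg_right h1 (show 0 ≤ a * x by positivity)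
    have h4 : er N c' ≤ 2 * Q ^ 7 * (a * c ^ 2) := by
      have h5 : (1 : ℝ) ≤ 2 * Q ^ 7 := by
        have : (1 : ℝ) ≤ Q ^ 7 := one_le_pow₀ hQ
        linarith
      have h6 := mul_le_mul_of_nonneg_right h5 (show 0 ≤ a * c ^ 2 by positivity)
      linarith
    have h7 : 0 ≤ Q ^ 7 * (a * x) := by positivity
    have h8 : 2 * Q ^ 7 * (0 + a * c ^ 2 + 2 * (a * x)) = 2 * Q ^ 7 * (a * c ^ 2) + 4 * (Q ^ 7 * (a * x)) := by ring
    rw [h8]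
    linarith

/-- Two rows in one loop, explicit. -/
theorem phN_prim (h : NP μ s N ε c' E Q tr tl tb q r l b b0) (hbD : b0 ≤ D) (hDr : D < r) :
    phN μ s N ε c' tr tl tb q D ≤
      2 * Q ^ 7 * ((E r)⁻¹ * (E l)⁻¹ * ((E b)⁻¹) ^ 2) + 2 * Q ^ 7 * ((E r)⁻¹ * (E l)⁻¹ * (E (max D b))⁻¹) +
        2 * Q ^ 7 * ((E r)⁻¹ * (E l)⁻¹ * ((E b)⁻¹) ^ 2) := by
  obtain ⟨a, ha⟩ : ∃ a, a = (E r)⁻¹ := ⟨_, rfl⟩
  obtain ⟨c, hc⟩ : ∃ c, c = (E l)⁻¹ := ⟨_, rfl⟩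
  obtain ⟨d, hd⟩ : ∃ d, d = (E b)⁻¹ := ⟨_, rfl⟩
  obtain ⟨x, hx⟩ : ∃ x, x = (E (max D b))⁻¹ := ⟨_, rfl⟩
  have a0 : 0 < a := by rw [ha]; exact inv_pos.2 (by linarith [h.E1 r])
  have c0 : 0 < c := by rw [hc]; exact inv_pos.2 (by linarith [h.E1 l])
  have d0 : 0 < d := by rw [hd]; exact inv_pos.2 (by linarith [h.E1 b])
  have x0 : 0 < x := by rw [hx]; exact inv_pos.2 (by linarith [h.E1 (max D b)])
  have c1 : c ≤ 1 := by rw [hc]; exact inv_le_one_of_one_le₀ (h.E1 l)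
  have d1 : d ≤ 1 := by rw [hd]; exact inv_le_one_of_one_le₀ (h.E1 b)
  have hQ := h.Q1
  have Q0 : 0 < Q := by linarith
  have p1 := h.pr
  have p2 := h.pl
  have p3 := h.pb
  have p4 := h.er
  have p5 := h.pD D hbD hDr
  have hq := h.hq
  have n1 := pc_nonneg (μ := μ) (s := s) N ε tr
  have n2 := pc_nonneg (μ := μ) (s := s) N ε tl
  have n3 := pc_nonneg (μ := μ) (s := s) N ε D
  have n4 := pc_nonneg (μ := μ) (s := s) N ε tb
  have n5 := er_nonneg N c'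
  rw [← ha] at p1
  rw [← hc] at p2
  rw [← hd] at p3
  rw [← ha, ← hc, ← hd] at p4
  rw [← hx] at p5
  rw [← ha, ← hc, ← hd, ← hx]
  have c2 : c ^ 2 ≤ c := by
    calc c ^ 2 = c * c := by ring
      _ ≤ c * 1 := mul_le_mul_of_nonneg_left c1 c0.le
      _ = c := mul_one c
  have e1 : a * c ^ 2 * d ^ 2 ≤ a * c * d ^ 2 :=
    mul_le_mul_of_nonneg_right (mul_le_mul_of_nonneg_left c2 a0.le) (by positivity)
  have q0 : 0 ≤ 6 * (q : ℝ) := by positivity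
  have q2 : (6 * (q : ℝ)) ^ 2 ≤ Q ^ 2 := pow_le_pow_left₀ q0 hq 2
  have x1 : pc μ s N ε tr * pc μ s N ε tl * pc μ s N ε tb * pc μ s N ε tb ≤ Q ^ 4 * (a * c * d ^ 2) :=
    (mul_le_mul (mul_le_mul (mul_le_mul p1 p2 n2 (by positivity)) p3 n4 (by positivity)) p3 n4 (by positivity)).trans
      (le_of_eq (by ring))
  have x2 : pc μ s N ε tr * pc μ s N ε tl * pc μ s N ε D ≤ Q ^ 3 * (a * c * x) :=
    (mul_le_mul (mul_le_mul p1 p2 n2 (by positivity)) p5 n3 (by positivity)).trans (le_of_eq (by ring))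
  obtain ⟨Y, hY⟩ : ∃ Y, Y = a * c * d ^ 2 := ⟨_, rfl⟩
  obtain ⟨Z, hZ⟩ : ∃ Z, Z = a * c * x := ⟨_, rfl⟩
  have Y0 : 0 < Y := by rw [hY]; positivity
  have Z0 : 0 < Z := by rw [hZ]; positivity
  rw [← hY] at x1 e1 ⊢
  rw [← hZ] at x2 ⊢
  have er1 : er N c' ≤ Y := p4.trans e1
  have y1 : (6 * (q : ℝ)) ^ 2 * (pc μ s N ε tr * pc μ s N ε tl * pc μ s N ε tb * pc μ s N ε tb + er N c') ≤
      Q ^ 2 * (Q ^ 4 * Y + Y) :=
    mul_le_mul q2 (add_le_add x1 er1) (by positivity) (by positivity)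
  have y2 : 6 * (q : ℝ) * (pc μ s N ε tr * pc μ s N ε tl * pc μ s N ε D + er N c') ≤ Q * (Q ^ 3 * Z + Y) :=
    mul_le_mul hq (add_le_add x2 er1) (by positivity) (by positivity)
  have z1 : Q ^ 2 * (Q ^ 4 * Y + Y) ≤ 2 * Q ^ 7 * Y := by
    have h1 : Q ^ 6 ≤ Q ^ 7 := pow_le_pow_right₀ hQ (by norm_num)
    have h2 : Q ^ 2 ≤ Q ^ 7 := pow_le_pow_right₀ hQ (by norm_num)
    have h3 := mul_le_mul_of_nonneg_right h1 Y0.le
    have h4 := mul_le_mul_of_nonneg_right h2 Y0.le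
    have h5 : Q ^ 2 * (Q ^ 4 * Y + Y) = Q ^ 6 * Y + Q ^ 2 * Y := by ring
    rw [h5]
    linarith
  have z2 : Q * (Q ^ 3 * Z + Y) ≤ 2 * Q ^ 7 * Z + 2 * Q ^ 7 * Y := by
    have h1 : Q ^ 4 ≤ Q ^ 7 := pow_le_pow_right₀ hQ (by norm_num)
    have h2 : Q ≤ Q ^ 7 := by
      calc Q = Q ^ 1 := (pow_one Q).symm
        _ ≤ Q ^ 7 := pow_le_pow_right₀ hQ (by norm_num)
    have h3 := mul_le_mul_of_nonneg_right h1 Z0.le
    have h4 := mul_le_mul_of_nonneg_right h2 Y0.le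
    have h5 : Q * (Q ^ 3 * Z + Y) = Q ^ 4 * Z + Q * Y := by ring
    have h6 : 0 ≤ Q ^ 7 * Z := by positivity
    have h7 : 0 ≤ Q ^ 7 * Y := by positivity
    rw [h5]
    linarith
  unfold phN
  linarith

/-- Distance `< 4 b0`. -/
theorem ph4_prim (h : NP μ s N ε c' E Q tr tl tb q r l b b0) (hD : D < 4 * b0) :
    6 * (q : ℝ) * (pc μ s N ε tr * pc μ s N ε tl * pc μ s N ε tb + er N c') ≤
      8 * Q ^ 7 * ((E r)⁻¹ * (E l)⁻¹ * (E (max D b))⁻¹) := by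
  obtain ⟨a, ha⟩ : ∃ a, a = (E r)⁻¹ := ⟨_, rfl⟩
  obtain ⟨c, hc⟩ : ∃ c, c = (E l)⁻¹ := ⟨_, rfl⟩
  obtain ⟨d, hd⟩ : ∃ d, d = (E b)⁻¹ := ⟨_, rfl⟩
  obtain ⟨x, hx⟩ : ∃ x, x = (E (max D b))⁻¹ := ⟨_, rfl⟩
  have a0 : 0 < a := by rw [ha]; exact inv_pos.2 (by linarith [h.E1 r])
  have c0 : 0 < c := by rw [hc]; exact inv_pos.2 (by linarith [h.E1 l])
  have d0 : 0 < d := by rw [hd]; exact inv_pos.2 (by linarith [h.E1 b])
  have x0 : 0 < x := by rw [hx]; exact inv_pos.2 (by linarith [h.E1 (max D b)])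
  have c1 : c ≤ 1 := by rw [hc]; exact inv_le_one_of_one_le₀ (h.E1 l)
  have d1 : d ≤ 1 := by rw [hd]; exact inv_le_one_of_one_le₀ (h.E1 b)
  have hQ := h.Q1
  have Q0 : 0 < Q := by linarith
  have p1 := h.pr
  have p2 := h.pl
  have p3 := h.pb
  have p4 := h.er
  have p5 := h.mb D hD
  have hq := h.hq
  have n1 := pc_nonneg (μ := μ) (s := s) N ε tr
  have n2 := pc_nonneg (μ := μ) (s := s) N ε tl
  have n4 := pc_nonneg (μ := μ) (s := s) N ε tb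
  have n5 := er_nonneg N c'
  rw [← ha] at p1
  rw [← hc] at p2
  rw [← hd] at p3
  rw [← ha, ← hc, ← hd] at p4
  rw [← hx, ← hd] at p5
  rw [← ha, ← hc, ← hx]
  have c2 : c ^ 2 ≤ c := by
    calc c ^ 2 = c * c := by ring
      _ ≤ c * 1 := mul_le_mul_of_nonneg_left c1 c0.le
      _ = c := mul_one c
  have d2 : d ^ 2 ≤ d := by
    calc d ^ 2 = d * d := by ring
      _ ≤ d * 1 := mul_le_mul_of_nonneg_left d1 d0.le
      _ = d := mul_one d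
  have e1 : a * c ^ 2 * d ^ 2 ≤ a * c * d :=
    mul_le_mul (mul_le_mul_of_nonneg_left c2 a0.le) d2 (by positivity) (by positivity)
  have q0 : 0 ≤ 6 * (q : ℝ) := by positivity
  have x1 : pc μ s N ε tr * pc μ s N ε tl * pc μ s N ε tb ≤ Q ^ 3 * (a * c * d) :=
    (mul_le_mul (mul_le_mul p1 p2 n2 (by positivity)) p3 n4 (by positivity)).trans (le_of_eq (by ring))
  have er1 : er N c' ≤ a * c * d := p4.trans e1
  have y1 : 6 * (q : ℝ) * (pc μ s N ε tr * pc μ s N ε tl * pc μ s N ε tb + er N c') ≤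
      Q * (Q ^ 3 * (a * c * d) + a * c * d) :=
    mul_le_mul hq (add_le_add x1 er1) (by positivity) (by positivity)
  have h1 : Q ^ 4 ≤ Q ^ 7 := pow_le_pow_right₀ hQ (by norm_num)
  have h2 : Q ≤ Q ^ 7 := by
    calc Q = Q ^ 1 := (pow_one Q).symm
      _ ≤ Q ^ 7 := pow_le_pow_right₀ hQ (by norm_num)
  have y2 : Q * (Q ^ 3 * (a * c * d) + a * c * d) = (Q ^ 4 + Q) * (a * c * d) := by ring
  have y3 : a * c * d ≤ a * c * (4 * x) := mul_le_mul_of_nonneg_left p5 (by positivity)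
  rw [y2] at y1
  refine y1.trans ?_
  calc (Q ^ 4 + Q) * (a * c * d) ≤ (2 * Q ^ 7) * (a * c * (4 * x)) :=
        mul_le_mul (by linarith) y3 (by positivity) (by positivity)
    _ = _ := by ring

/-- The far price with micro ties, explicit. -/
theorem phF_prim (h : NP μ s N ε c' E Q tr tl tb q r l b b0) :
    (6 * (q : ℝ)) ^ 2 * (pc μ s N ε tr * pc μ s N ε tl * pc μ s N ε tb * pc μ s N ε tl * pc μ s N ε tb + er N c') ≤
      2 * Q ^ 7 * ((E r)⁻¹ * ((E l)⁻¹) ^ 2 * ((E b)⁻¹) ^ 2) := by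
  obtain ⟨a, ha⟩ : ∃ a, a = (E r)⁻¹ := ⟨_, rfl⟩
  obtain ⟨c, hc⟩ : ∃ c, c = (E l)⁻¹ := ⟨_, rfl⟩
  obtain ⟨d, hd⟩ : ∃ d, d = (E b)⁻¹ := ⟨_, rfl⟩
  have a0 : 0 < a := by rw [ha]; exact inv_pos.2 (by linarith [h.E1 r])
  have c0 : 0 < c := by rw [hc]; exact inv_pos.2 (by linarith [h.E1 l])
  have d0 : 0 < d := by rw [hd]; exact inv_pos.2 (by linarith [h.E1 b])
  have hQ := h.Q1
  have Q0 : 0 < Q := by linarith
  have p1 := h.pr
  have p2 := h.pl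
  have p3 := h.pb
  have p4 := h.er
  have hq := h.hq
  have n1 := pc_nonneg (μ := μ) (s := s) N ε tr
  have n2 := pc_nonneg (μ := μ) (s := s) N ε tl
  have n4 := pc_nonneg (μ := μ) (s := s) N ε tb
  have n5 := er_nonneg N c'
  rw [← ha] at p1
  rw [← hc] at p2
  rw [← hd] at p3
  rw [← ha, ← hc, ← hd] at p4
  rw [← ha, ← hc, ← hd]
  have q0 : 0 ≤ 6 * (q : ℝ) := by positivity
  have q2 : (6 * (q : ℝ)) ^ 2 ≤ Q ^ 2 := pow_le_pow_left₀ q0 hq 2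
  have x1 : pc μ s N ε tr * pc μ s N ε tl * pc μ s N ε tb * pc μ s N ε tl * pc μ s N ε tb ≤ Q ^ 5 * (a * c ^ 2 * d ^ 2) :=
    (mul_le_mul (mul_le_mul (mul_le_mul (mul_le_mul p1 p2 n2 (by positivity)) p3 n4 (by positivity)) p2 n2 (by positivity))
      p3 n4 (by positivity)).trans (le_of_eq (by ring))
  obtain ⟨Y, hY⟩ : ∃ Y, Y = a * c ^ 2 * d ^ 2 := ⟨_, rfl⟩
  have Y0 : 0 < Y := by rw [hY]; positivity
  rw [← hY] at x1 p4 ⊢
  have y1 : (6 * (q : ℝ)) ^ 2 * (pc μ s N ε tr * pc μ s N ε tl * pc μ s N ε tb * pc μ s N ε tl * pc μ s N ε tb + er N c') ≤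
      Q ^ 2 * (Q ^ 5 * Y + Y) :=
    mul_le_mul q2 (add_le_add x1 p4) (by positivity) (by positivity)
  have h2 : Q ^ 2 ≤ Q ^ 7 := pow_le_pow_right₀ hQ (by norm_num)
  have h4 := mul_le_mul_of_nonneg_right h2 Y0.le
  have h5 : Q ^ 2 * (Q ^ 5 * Y + Y) = Q ^ 7 * Y + Q ^ 2 * Y := by ring
  rw [h5] at y1
  linarith

/-- The price of the right own loop and of both micro ties, explicit. -/
theorem phG_prim (h : NP μ s N ε c' E Q tr tl tb q r l b b0) :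
    (6 * (q : ℝ)) ^ 2 * (pc μ s N ε tr * pc μ s N ε tl * pc μ s N ε tb * pc μ s N ε tb + er N c') ≤
      2 * Q ^ 7 * ((E r)⁻¹ * (E l)⁻¹ * ((E b)⁻¹) ^ 2) := by
  obtain ⟨a, ha⟩ : ∃ a, a = (E r)⁻¹ := ⟨_, rfl⟩
  obtain ⟨c, hc⟩ : ∃ c, c = (E l)⁻¹ := ⟨_, rfl⟩
  obtain ⟨d, hd⟩ : ∃ d, d = (E b)⁻¹ := ⟨_, rfl⟩
  have a0 : 0 < a := by rw [ha]; exact inv_pos.2 (by linarith [h.E1 r])
  have c0 : 0 < c := by rw [hc]; exact inv_pos.2 (by linarith [h.E1 l])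
  have d0 : 0 < d := by rw [hd]; exact inv_pos.2 (by linarith [h.E1 b])
  have c1 : c ≤ 1 := by rw [hc]; exact inv_le_one_of_one_le₀ (h.E1 l)
  have hQ := h.Q1
  have Q0 : 0 < Q := by linarith
  have p1 := h.pr
  have p2 := h.pl
  have p3 := h.pb
  have p4 := h.er
  have hq := h.hq
  have n1 := pc_nonneg (μ := μ) (s := s) N ε tr
  have n2 := pc_nonneg (μ := μ) (s := s) N ε tl
  have n4 := pc_nonneg (μ := μ) (s := s) N ε tb
  have n5 := er_nonneg N c'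
  rw [← ha] at p1
  rw [← hc] at p2
  rw [← hd] at p3
  rw [← ha, ← hc, ← hd] at p4
  rw [← ha, ← hc, ← hd]
  have c2 : c ^ 2 ≤ c := by
    calc c ^ 2 = c * c := by ring
      _ ≤ c * 1 := mul_le_mul_of_nonneg_left c1 c0.le
      _ = c := mul_one c
  have e1 : a * c ^ 2 * d ^ 2 ≤ a * c * d ^ 2 :=
    mul_le_mul_of_nonneg_right (mul_le_mul_of_nonneg_left c2 a0.le) (by positivity)
  have q0 : 0 ≤ 6 * (q : ℝ) := by positivity
  have q2 : (6 * (q : ℝ)) ^ 2 ≤ Q ^ 2 := pow_le_pow_left₀ q0 hq 2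
  have x1 : pc μ s N ε tr * pc μ s N ε tl * pc μ s N ε tb * pc μ s N ε tb ≤ Q ^ 4 * (a * c * d ^ 2) :=
    (mul_le_mul (mul_le_mul (mul_le_mul p1 p2 n2 (by positivity)) p3 n4 (by positivity)) p3 n4 (by positivity)).trans
      (le_of_eq (by ring))
  obtain ⟨Y, hY⟩ : ∃ Y, Y = a * c * d ^ 2 := ⟨_, rfl⟩
  have Y0 : 0 < Y := by rw [hY]; positivity
  rw [← hY] at x1 e1 ⊢
  have y1 : (6 * (q : ℝ)) ^ 2 * (pc μ s N ε tr * pc μ s N ε tl * pc μ s N ε tb * pc μ s N ε tb + er N c') ≤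
      Q ^ 2 * (Q ^ 4 * Y + Y) :=
    mul_le_mul q2 (add_le_add x1 (p4.trans e1)) (by positivity) (by positivity)
  have h1 : Q ^ 6 ≤ Q ^ 7 := pow_le_pow_right₀ hQ (by norm_num)
  have h2 : Q ^ 2 ≤ Q ^ 7 := pow_le_pow_right₀ hQ (by norm_num)
  have h3 := mul_le_mul_of_nonneg_right h1 Y0.le
  have h4 := mul_le_mul_of_nonneg_right h2 Y0.le
  have h5 : Q ^ 2 * (Q ^ 4 * Y + Y) = Q ^ 6 * Y + Q ^ 2 * Y := by ring
  rw [h5] at y1
  linarith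

/-! ### Against `Phi` -/

theorem inv3_93 (a b c : ℝ) : a⁻¹ * b⁻¹ * c⁻¹ = 1 / (a * b) / c := by
  rw [div_div, one_div, mul_inv, mul_inv]

/-- **Own pairs**: any gain `g ≥ 0`, coefficients `A ≥ g / (E_r E_l)`, `C ≥ g / (E_r E_l ^ 2)`. -/
theorem phO_Phi (h : NP μ s N ε c' E Q tr tl tb q r l b b0) (hDh : Df ≤ hh) {g A G H C : ℝ} (hg : 0 ≤ g)
    (hA : g / (E r * E l) ≤ A) (hG : 0 ≤ G) (hH : 0 ≤ H) (hC : g / (E r * E l ^ 2) ≤ C) :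
    g * phO μ s N ε c' tr tl Df D ≤ 8 * Q ^ 7 * Phi E A G H C hh b s' D := by
  have k1 := phO_prim (Df := Df) (D := D) h
  have hr := h.E1 r
  have hl := h.E1 l
  have hx := h.E1 (max D b)
  have Q7 : 1 ≤ Q ^ 7 := one_le_pow₀ h.Q1
  have Q0 : 0 ≤ Q ^ 7 := by linarith
  have A0 : 0 ≤ A := (by positivity : 0 ≤ g / (E r * E l)).trans hA
  have C0 : 0 ≤ C := (by positivity : 0 ≤ g / (E r * E l ^ 2)).trans hC
  have e1 : g * ((E r)⁻¹ * (E l)⁻¹) = g / (E r * E l) := by rw [← mul_inv, div_eq_mul_inv]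
  have e2 : g * ((E r)⁻¹ * ((E l)⁻¹) ^ 2) = g / (E r * E l ^ 2) := by rw [inv_pow, ← mul_inv, div_eq_mul_inv]
  have G1 : 0 ≤ (if D < s' then G / E (max D b) else 0) := by split_ifs <;> positivity
  have H1 : 0 ≤ H / E (max D b) := by positivity
  have k2 := mul_le_mul_of_nonneg_left k1 hg
  refine k2.trans ?_
  unfold Phi
  have Y0 : 0 ≤ (if D < hh then A else 0) := by split_ifs <;> linarith
  have t1 : g * (if D < Df then (E r)⁻¹ * (E l)⁻¹ else 0) ≤ (if D < hh then A else 0) := by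
    split_ifs with h1 h2 h2
    · rw [e1]; exact hA
    · exact absurd h1 (by omega)
    · rw [mul_zero]; exact A0
    · rw [mul_zero]
  have t2 : g * ((E r)⁻¹ * ((E l)⁻¹) ^ 2) ≤ C := by rw [e2]; exact hC
  calc g * (2 * Q ^ 7 * ((if D < Df then (E r)⁻¹ * (E l)⁻¹ else 0) + (E r)⁻¹ * ((E l)⁻¹) ^ 2))
      = 2 * Q ^ 7 * (g * (if D < Df then (E r)⁻¹ * (E l)⁻¹ else 0) + g * ((E r)⁻¹ * ((E l)⁻¹) ^ 2)) := by ring
    _ ≤ 8 * Q ^ 7 * ((if D < hh then A else 0) + (if D < s' then G / E (max D b) else 0) + H / E (max D b) + C) :=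
        mul_le_mul (by linarith) (by linarith) (add_nonneg (mul_nonneg hg (by split_ifs <;> positivity)) (by positivity))
          (by positivity)

/-- **Own pairs, the last level**: moreover `H ≥ g / E_r`. -/
theorem phOt_Phi (h : NP μ s N ε c' E Q tr tl tb q r l b b0) (hbD : b0 ≤ Df) (hDr : D < r) (hDh : Df ≤ hh) {g A G H C : ℝ}
    (hg : 0 ≤ g) (hA : g / (E r * E l) ≤ A) (hG : 0 ≤ G) (hH : g / E r ≤ H) (hC : g / (E r * E l ^ 2) ≤ C) :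
    g * phOt μ s N ε c' tr tl Df D ≤ 8 * Q ^ 7 * Phi E A G H C hh b s' D := by
  have k1 := phOt_prim (Df := Df) (D := D) h hbD hDr
  have hr := h.E1 r
  have hl := h.E1 l
  have hx := h.E1 (max D b)
  have Q7 : 1 ≤ Q ^ 7 := one_le_pow₀ h.Q1
  have Q0 : 0 ≤ Q ^ 7 := by linarith
  have A0 : 0 ≤ A := (by positivity : 0 ≤ g / (E r * E l)).trans hA
  have C0 : 0 ≤ C := (by positivity : 0 ≤ g / (E r * E l ^ 2)).trans hC
  have H0 : 0 ≤ H := (by positivity : 0 ≤ g / E r).trans hH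
  have e1 : g * ((E r)⁻¹ * (E l)⁻¹) = g / (E r * E l) := by rw [← mul_inv, div_eq_mul_inv]
  have e2 : g * ((E r)⁻¹ * ((E l)⁻¹) ^ 2) = g / (E r * E l ^ 2) := by rw [inv_pow, ← mul_inv, div_eq_mul_inv]
  have G1 : 0 ≤ (if D < s' then G / E (max D b) else 0) := by split_ifs <;> positivity
  have k2 := mul_le_mul_of_nonneg_left k1 hg
  refine k2.trans ?_
  unfold Phi
  have t1 : g * (if D < Df then (E r)⁻¹ * (E l)⁻¹ else 0) ≤ (if D < hh then A else 0) := by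
    split_ifs with h1 h2 h2
    · rw [e1]; exact hA
    · exact absurd h1 (by omega)
    · rw [mul_zero]; exact A0
    · rw [mul_zero]
  have t2 : g * ((E r)⁻¹ * ((E l)⁻¹) ^ 2) ≤ C := by rw [e2]; exact hC
  have t3 : g * ((E r)⁻¹ * (E (max D b))⁻¹) ≤ H / E (max D b) := by
    calc g * ((E r)⁻¹ * (E (max D b))⁻¹) = g / E r / E (max D b) := by
          rw [div_div, div_eq_mul_inv, mul_inv]
      _ ≤ _ := div_le_div_of_nonneg_right hH (by linarith)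
  have t4 : g * (if D < Df then 0 else 2 * Q ^ 7 * ((E r)⁻¹ * ((E l)⁻¹) ^ 2)) ≤ 2 * Q ^ 7 * C := by
    split_ifs
    · rw [mul_zero]; positivity
    · calc g * (2 * Q ^ 7 * ((E r)⁻¹ * ((E l)⁻¹) ^ 2)) = 2 * Q ^ 7 * (g * ((E r)⁻¹ * ((E l)⁻¹) ^ 2)) := by ring
        _ ≤ _ := mul_le_mul_of_nonneg_left t2 (by positivity)
  obtain ⟨X1, hX1⟩ : ∃ X1, X1 = g * (if D < Df then (E r)⁻¹ * (E l)⁻¹ else 0) := ⟨_, rfl⟩
  obtain ⟨X2, hX2⟩ : ∃ X2, X2 = g * ((E r)⁻¹ * ((E l)⁻¹) ^ 2) := ⟨_, rfl⟩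
  obtain ⟨X3, hX3⟩ : ∃ X3, X3 = g * ((E r)⁻¹ * (E (max D b))⁻¹) := ⟨_, rfl⟩
  have e3 : g * (2 * Q ^ 7 * ((if D < Df then (E r)⁻¹ * (E l)⁻¹ else 0) + (E r)⁻¹ * ((E l)⁻¹) ^ 2 +
      2 * ((E r)⁻¹ * (E (max D b))⁻¹)) + (if D < Df then 0 else 2 * Q ^ 7 * ((E r)⁻¹ * ((E l)⁻¹) ^ 2))) =
      2 * Q ^ 7 * (X1 + X2 + 2 * X3) + g * (if D < Df then 0 else 2 * Q ^ 7 * ((E r)⁻¹ * ((E l)⁻¹) ^ 2)) := by
    rw [hX1, hX2, hX3]
    ring
  rw [e3]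
  rw [← hX1] at t1
  rw [← hX2] at t2
  rw [← hX3] at t3
  obtain ⟨Y1, hY1⟩ : ∃ Y1, Y1 = (if D < hh then A else 0) := ⟨_, rfl⟩
  obtain ⟨Y2, hY2⟩ : ∃ Y2, Y2 = (if D < s' then G / E (max D b) else 0) := ⟨_, rfl⟩
  obtain ⟨Y3, hY3⟩ : ∃ Y3, Y3 = H / E (max D b) := ⟨_, rfl⟩
  have Y10 : 0 ≤ Y1 := by rw [hY1]; split_ifs <;> linarith
  have Y30 : 0 ≤ Y3 := by rw [hY3]; positivity
  rw [← hY1] at t1
  rw [← hY3] at t3
  rw [← hY2] at G1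
  rw [← hY1, ← hY2, ← hY3]
  have u1 := mul_le_mul_of_nonneg_left t1 Q0
  have u2 := mul_le_mul_of_nonneg_left t2 Q0
  have u3 := mul_le_mul_of_nonneg_left t3 Q0
  have v1 : 0 ≤ Q ^ 7 * Y1 := mul_nonneg Q0 Y10
  have v2 : 0 ≤ Q ^ 7 * Y2 := mul_nonneg Q0 G1
  have v3 : 0 ≤ Q ^ 7 * Y3 := mul_nonneg Q0 Y30
  have v4 : 0 ≤ Q ^ 7 * C := mul_nonneg Q0 C0
  nlinarith

/-- Lower bounds of `Phi`. -/
theorem Phi_ge {A G H C : ℝ} (hE : ∀ n, 1 ≤ E n) (hA : 0 ≤ A) (hG : 0 ≤ G) (hH : 0 ≤ H) (hC : 0 ≤ C) :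
    (D < hh → D < s' → A + G / E (max D b) ≤ Phi E A G H C hh b s' D) ∧
      (D < s' → G / E (max D b) ≤ Phi E A G H C hh b s' D) ∧ C ≤ Phi E A G H C hh b s' D := by
  have hx := hE (max D b)
  have H1 : 0 ≤ H / E (max D b) := by positivity
  have G1 : 0 ≤ G / E (max D b) := by positivity
  have A2 : 0 ≤ (if D < hh then A else 0) := by split_ifs <;> linarith
  have G2 : 0 ≤ (if D < s' then G / E (max D b) else 0) := by split_ifs <;> linarith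
  unfold Phi
  refine ⟨fun h1 h2 => ?_, fun h2 => ?_, by linarith⟩
  · rw [if_pos h1, if_pos h2]
    linarith
  · rw [if_pos h2]
    linarith

/-- The coefficients which are needed with micro ties. -/
theorem co93 (h : NP μ s N ε c' E Q tr tl tb q r l b b0) {A G C : ℝ} (hA : 1 / E b ^ 2 / (E r * E l) ≤ A)
    (hG : 1 / (E r * E l) ≤ G) : 0 ≤ A ∧ 0 ≤ G ∧ (E r)⁻¹ * (E l)⁻¹ * ((E b)⁻¹) ^ 2 ≤ A ∧
      (E r)⁻¹ * (E l)⁻¹ * (E (max D b))⁻¹ ≤ G / E (max D b) := by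
  have hr := h.E1 r
  have hl := h.E1 l
  have hb := h.E1 b
  have hx := h.E1 (max D b)
  have e1 : (E r)⁻¹ * (E l)⁻¹ * ((E b)⁻¹) ^ 2 = 1 / E b ^ 2 / (E r * E l) := by
    rw [div_div, one_div, mul_inv, mul_inv, inv_pow]
    ring
  refine ⟨(by positivity : 0 ≤ 1 / E b ^ 2 / (E r * E l)).trans hA, (by positivity : 0 ≤ 1 / (E r * E l)).trans hG, ?_, ?_⟩
  · rw [e1]
    exact hA
  · rw [inv3_93]
    exact div_le_div_of_nonneg_right hG (by linarith)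

/-- Distance `< 4 b0` against `Phi`. -/
theorem ph4_Phi (h : NP μ s N ε c' E Q tr tl tb q r l b b0) (hD : D < 4 * b0) (hbs : 4 * b0 ≤ s') {A G H C : ℝ}
    (hA : 1 / E b ^ 2 / (E r * E l) ≤ A) (hG : 1 / (E r * E l) ≤ G) (hH : 0 ≤ H) (hC : 0 ≤ C) :
    6 * (q : ℝ) * (pc μ s N ε tr * pc μ s N ε tl * pc μ s N ε tb + er N c') ≤ 8 * Q ^ 7 * Phi E A G H C hh b s' D := by
  obtain ⟨A0, G0, -, e3⟩ := co93 (D := D) (C := C) h hA hG
  have Q0 : 0 ≤ 8 * Q ^ 7 := by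
    have := one_le_pow₀ h.Q1 (n := 7)
    linarith
  have k := ph4_prim h hD
  have k2 := (Phi_ge (D := D) (hh := hh) (b := b) (s' := s') h.E1 A0 G0 hH hC).2.1 (by omega)
  exact k.trans (mul_le_mul_of_nonneg_left (e3.trans k2) Q0)

/-- Two rows in one loop against `Phi`. -/
theorem phN_Phi (h : NP μ s N ε c' E Q tr tl tb q r l b b0) (hbD : b0 ≤ D) (hDr : D < r) (hDh : D < hh) (hDs : D < s')
    {A G H C : ℝ} (hA : 1 / E b ^ 2 / (E r * E l) ≤ A) (hG : 1 / (E r * E l) ≤ G) (hH : 0 ≤ H) (hC : 0 ≤ C) :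
    phN μ s N ε c' tr tl tb q D ≤ 8 * Q ^ 7 * Phi E A G H C hh b s' D := by
  obtain ⟨A0, G0, e1, e3⟩ := co93 (D := D) (C := C) h hA hG
  have Q0 : 0 ≤ Q ^ 7 := by
    have := one_le_pow₀ h.Q1 (n := 7)
    linarith
  have k := phN_prim h hbD hDr
  have k2 := (Phi_ge (D := D) (hh := hh) (b := b) (s' := s') h.E1 A0 G0 hH hC).1 hDh hDs
  have k3 := mul_le_mul_of_nonneg_left k2 Q0
  have k4 := mul_le_mul_of_nonneg_left e1 Q0
  have k5 := mul_le_mul_of_nonneg_left e3 Q0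
  have hx := h.E1 (max D b)
  have k6 : 0 ≤ Q ^ 7 * A := mul_nonneg Q0 A0
  have k7 : 0 ≤ Q ^ 7 * (G / E (max D b)) := mul_nonneg Q0 (by positivity)
  rw [mul_add] at k3
  linarith

/-- **Own pairs with micro ties**: `A ≥ 1 / (E_r E_l E_b ^ 2)`, `G ≥ 1 / (E_r E_l)`, `C ≥ 1 / (E_r E_l ^ 2 E_b ^ 2)`. -/
theorem phM_Phi (h : NP μ s N ε c' E Q tr tl tb q r l b b0) (hDr : D < r) (hDh : Df ≤ hh) (hDs : Df ≤ s')
    (hbs : 4 * b0 ≤ s') {A G H C : ℝ} (hA : 1 / E b ^ 2 / (E r * E l) ≤ A) (hG : 1 / (E r * E l) ≤ G) (hH : 0 ≤ H)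
    (hC : 1 / E b ^ 2 / (E r * E l ^ 2) ≤ C) :
    phM μ s N ε c' tr tl tb b0 q Df D ≤ 8 * Q ^ 7 * Phi E A G H C hh b s' D := by
  have hr := h.E1 r
  have hl := h.E1 l
  have hb := h.E1 b
  have Q0 : 0 ≤ Q ^ 7 := by
    have := one_le_pow₀ h.Q1 (n := 7)
    linarith
  have C0 : 0 ≤ C := (by positivity : 0 ≤ 1 / E b ^ 2 / (E r * E l ^ 2)).trans hC
  obtain ⟨A0, G0, -, -⟩ := co93 (D := D) (C := C) h hA hG
  unfold phM
  split_ifs with h1 h2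
  · exact ph4_Phi h h1 hbs hA hG hH C0
  · exact phN_Phi h (by omega) hDr (by omega) (by omega) hA hG hH C0
  · have e2 : (E r)⁻¹ * ((E l)⁻¹) ^ 2 * ((E b)⁻¹) ^ 2 = 1 / E b ^ 2 / (E r * E l ^ 2) := by
      rw [div_div, one_div, mul_inv, mul_inv, inv_pow, inv_pow]
      ring
    have k := phF_prim h
    have k2 := (Phi_ge (D := D) (hh := hh) (b := b) (s' := s') h.E1 A0 G0 hH C0).2.2
    rw [e2] at k
    have k3 := mul_le_mul_of_nonneg_left (hC.trans k2) Q0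
    have k4 : 0 ≤ Q ^ 7 * Phi E A G H C hh b s' D := mul_nonneg Q0 (C0.trans k2)
    linarith

/-- **Own pairs with micro ties, the last level**: `C ≥ 1 / (E_r E_l E_b ^ 2)`. -/
theorem phMt_Phi (h : NP μ s N ε c' E Q tr tl tb q r l b b0) (hDr : D < r) (hDh : Df ≤ hh) (hDs : Df ≤ s')
    (hbs : 4 * b0 ≤ s') {A G H C : ℝ} (hA : 1 / E b ^ 2 / (E r * E l) ≤ A) (hG : 1 / (E r * E l) ≤ G) (hH : 0 ≤ H)
    (hC : 1 / E b ^ 2 / (E r * E l) ≤ C) :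
    phMt μ s N ε c' tr tl tb b0 q Df D ≤ 8 * Q ^ 7 * Phi E A G H C hh b s' D := by
  have hr := h.E1 r
  have hl := h.E1 l
  have hb := h.E1 b
  have Q0 : 0 ≤ Q ^ 7 := by
    have := one_le_pow₀ h.Q1 (n := 7)
    linarith
  have C0 : 0 ≤ C := (by positivity : 0 ≤ 1 / E b ^ 2 / (E r * E l)).trans hC
  obtain ⟨A0, G0, -, -⟩ := co93 (D := D) (C := C) h hA hG
  unfold phMt
  split_ifs with h1 h2
  · exact ph4_Phi h h1 hbs hA hG hH C0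
  · exact phN_Phi h (by omega) hDr (by omega) (by omega) hA hG hH C0
  · have e2 : (E r)⁻¹ * (E l)⁻¹ * ((E b)⁻¹) ^ 2 = 1 / E b ^ 2 / (E r * E l) := by
      rw [div_div, one_div, mul_inv, mul_inv, inv_pow]
      ring
    have k := phG_prim h
    have k2 := (Phi_ge (D := D) (hh := hh) (b := b) (s' := s') h.E1 A0 G0 hH C0).2.2
    rw [e2] at k
    have k3 := mul_le_mul_of_nonneg_left (hC.trans k2) Q0
    have k4 : 0 ≤ Q ^ 7 * Phi E A G H C hh b s' D := mul_nonneg Q0 (C0.trans k2)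
    linarith

/-! ### The constructor -/

/-- **The price of a window which is shorter than the scale**: `X ≤ n ^ e t`. -/
theorem pc_le {n e ε₁ : ℝ} (hn : 1 ≤ n) (he : 0 ≤ e) (hE1 : ∀ k, 1 ≤ E k) (hmono : Monotone E)
    (hhalf : ∀ t r : ℕ, 1 ≤ t → t ≤ r → E r ≤ n ^ ε₁ * √((r : ℝ) / t) * E t) (hε₁ : 0 ≤ ε₁)
    (hEE : ∀ k, EE' μ s k = E k) (hN : (N : ℝ) ^ ε ≤ n ^ ε₁) {t X : ℕ} (ht : 1 ≤ t) (hX : (X : ℝ) ≤ n ^ e * t) :
    pc μ s N ε t ≤ n ^ (2 * ε₁ + e) * (E X)⁻¹ := by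
  have n0 : 0 < n := by linarith
  have t0 : (0 : ℝ) < t := by exact_mod_cast ht
  have h1 : E X ≤ n ^ (ε₁ + e) * E t := by
    rcases le_total X t with h | h
    · have h2 : (1 : ℝ) ≤ n ^ (ε₁ + e) := Real.one_le_rpow hn (by linarith)
      calc E X ≤ E t := hmono h
        _ = 1 * E t := (one_mul _).symm
        _ ≤ _ := mul_le_mul_of_nonneg_right h2 (by linarith [hE1 t])
    · refine (hhalf t X ht h).trans (mul_le_mul_of_nonneg_right ?_ (by linarith [hE1 t]))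
      rw [Real.rpow_add n0]
      refine mul_le_mul_of_nonneg_left ?_ (by positivity)
      have h3 : (X : ℝ) / t ≤ n ^ e := by rwa [div_le_iff₀ t0]
      have h4 : (1 : ℝ) ≤ n ^ e := Real.one_le_rpow hn he
      calc √((X : ℝ) / t) ≤ √(n ^ e) := Real.sqrt_le_sqrt h3
        _ ≤ √((n ^ e) ^ 2) := Real.sqrt_le_sqrt (by nlinarith)
        _ = n ^ e := Real.sqrt_sq (by positivity)
  have hX0 : 0 < E X := by linarith [hE1 X]
  have ht0 : 0 < E t := by linarith [hE1 t]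
  have h5 : (E t)⁻¹ ≤ n ^ (ε₁ + e) * (E X)⁻¹ := by
    rw [inv_eq_one_div, div_le_iff₀ ht0, mul_assoc, mul_comm (E X)⁻¹, ← mul_assoc, ← div_eq_mul_inv, le_div_iff₀ hX0, one_mul]
    exact h1
  unfold pc
  rw [hEE]
  calc (N : ℝ) ^ ε * (E t)⁻¹ ≤ n ^ ε₁ * (n ^ (ε₁ + e) * (E X)⁻¹) :=
        mul_le_mul hN h5 (inv_nonneg.2 ht0.le) (by positivity)
    _ = n ^ (2 * ε₁ + e) * (E X)⁻¹ := by
        rw [← mul_assoc, ← Real.rpow_add n0]
        congr 2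
        ring

/-- **THE CONSTRUCTOR**: scales `r`, `l`, `b`, windows at least `n ^ (- e)` times these. -/
theorem NP_of {n e ε₁ : ℝ} (hn : 1 ≤ n) (he : 0 ≤ e) (hE1 : ∀ k, 1 ≤ E k) (hmono : Monotone E) (hdbl : ∀ k, E (2 * k) ≤ 2 * E k)
    (hhalf : ∀ t r : ℕ, 1 ≤ t → t ≤ r → E r ≤ n ^ ε₁ * √((r : ℝ) / t) * E t) (hε₁ : 0 ≤ ε₁)
    (hEE : ∀ k, EE' μ s k = E k) (hN : (N : ℝ) ^ ε ≤ n ^ ε₁) (htr : 1 ≤ tr) (hr : (r : ℝ) ≤ n ^ e * tr)
    (htl : 1 ≤ tl) (hl : (l : ℝ) ≤ n ^ e * tl) (htb : 1 ≤ tb) (hb : (b : ℝ) ≤ n ^ e * tb) (hb1 : 1 ≤ b0) (hbb : b0 ≤ b)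
    (hb0 : (b : ℝ) ≤ n ^ e * b0) (hq : 6 * (q : ℝ) ≤ n ^ e) (hEn : ∀ k : ℕ, (k : ℝ) ≤ n → E k ≤ n) (hrn : (r : ℝ) ≤ n)
    (hln : (l : ℝ) ≤ n) (hbn : (b : ℝ) ≤ n) (her : er N c' ≤ n ^ (-5 : ℝ)) :
    NP μ s N ε c' E (n ^ (2 * ε₁ + e)) tr tl tb q r l b b0 := by
  have n0 : 0 < n := by linarith
  have ne1 : (1 : ℝ) ≤ n ^ e := Real.one_le_rpow hn he
  refine ⟨hE1, Real.one_le_rpow hn (by linarith), pc_le hn he hE1 hmono hhalf hε₁ hEE hN htr hr,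
    pc_le hn he hE1 hmono hhalf hε₁ hEE hN htl hl, pc_le hn he hE1 hmono hhalf hε₁ hEE hN htb hb, fun D hD _ => ?_, fun D hD => ?_,
    hq.trans (Real.rpow_le_rpow_of_exponent_le hn (by linarith)), ?_⟩
  · refine pc_le hn he hE1 hmono hhalf hε₁ hEE hN (hb1.trans hD) ?_
    have hD' : (b0 : ℝ) ≤ D := by exact_mod_cast hD
    rw [Nat.cast_max]
    refine max_le ?_ ?_
    · have : (0 : ℝ) ≤ D := Nat.cast_nonneg D
      nlinarith
    · exact hb0.trans (mul_le_mul_of_nonneg_left hD' (by linarith))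
  · have h1 : E (max D b) ≤ 4 * E b := by
      have h2 : max D b ≤ 2 * (2 * b) := max_le (by omega) (by omega)
      have h3 := hmono h2
      have h4 := hdbl (2 * b)
      have h5 := hdbl b
      linarith
    have hx : 0 < E (max D b) := by linarith [hE1 (max D b)]
    have hb' : 0 < E b := by linarith [hE1 b]
    rw [inv_eq_one_div, div_le_iff₀ hb', mul_assoc, mul_comm (E (max D b))⁻¹, ← mul_assoc, ← div_eq_mul_inv, le_div_iff₀ hx,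
      one_mul]
    exact h1
  · refine her.trans ?_
    have hr' := hEn r hrn
    have hl' := hEn l hln
    have hb' := hEn b hbn
    have er1 := hE1 r
    have el1 := hE1 l
    have eb1 := hE1 b
    have h1 : E r * E l ^ 2 * E b ^ 2 ≤ n ^ 5 := by
      calc E r * E l ^ 2 * E b ^ 2 ≤ n * n ^ 2 * n ^ 2 :=
            mul_le_mul (mul_le_mul hr' (pow_le_pow_left₀ (by linarith) hl' 2) (by positivity) n0.le)
              (pow_le_pow_left₀ (by linarith) hb' 2) (by positivity) (by positivity)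
        _ = n ^ 5 := by ring
    have h2 : n ^ (-5 : ℝ) = (n ^ 5)⁻¹ := by
      rw [Real.rpow_neg n0.le]
      norm_num
    rw [h2]
    have h3 : (E r)⁻¹ * ((E l)⁻¹) ^ 2 * ((E b)⁻¹) ^ 2 = (E r * E l ^ 2 * E b ^ 2)⁻¹ := by
      rw [mul_inv, mul_inv, inv_pow, inv_pow]
    rw [h3]
    exact inv_anti₀ (by positivity) h1

end NPs

end

end Pool.Agent.W_7d29a1_C0.T93
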