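import Pool.Agent.W_7d29a1_C0.PT93F

/-!
CURV0 (MP_7d29a1_pr), leaf (T), PRICES, part 7: THE SUMS OVER THE DISTANCES. `sumO93`, `sumM93`, `sumF93` (levels: own pairs with the gain of
the slab, micro ties, far part), `sumOt93`, `sumMt93` (the last level), each one `≤ n ^ (Θ - c₁) / 2`, from `Tf70` (helper70) and
`PT93F`; `par93`: the choice of the exponents (`η = min Θ c / 16`). (helper93)
-/

set_option autoImplicit false
set_option linter.unusedSectionVars false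
set_option linter.unusedVariables false

namespace Pool.Agent.W_7d29a1_C0.T93

open MeasureTheory Filter Topology Finset
open Pool.Agent.W_7d29a1_C0
open Pool.Agent.W_7d29a1_C0.GS4 (Phi)
open Pool.Agent.W_7d29a1_C0.Tf70 (sum_i four70 i1 i2 i3 t1 t2 t4)

noncomputable section

variable {μ : Measure ℝ} {s : ℝ} {N : ℕ} {E w : ℕ → ℝ} {c₀ Θ δ a ε n c : ℝ} {b σ r l : ℕ}

/-- The sum of a function below a multiple of `Phi`. -/
theorem sum_of_Phi {ph : ℕ → ℝ} {g A G H C Q e₂ X : ℝ} {hh s' : ℕ} (hQ : 8 * Q ^ 7 ≤ n ^ e₂)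
    (h0 : ∀ D, 0 ≤ Phi E A G H C hh b s' D) (h1 : ∀ D, D < r → g * ph D ≤ 8 * Q ^ 7 * Phi E A G H C hh b s' D)
    (h2 : n ^ e₂ * ∑ D ∈ range r, Phi E A G H C hh b s' D ≤ X) : g * ∑ D ∈ range r, ph D ≤ X := by
  rw [mul_sum]
  rw [mul_sum] at h2
  refine (sum_le_sum fun D hD => (h1 D (mem_range.1 hD)).trans ?_).trans h2
  exact mul_le_mul_of_nonneg_right hQ (h0 D)

theorem Phi_nn {A G H C : ℝ} (hE : ∀ k, 1 ≤ E k) (hA : 0 ≤ A) (hG : 0 ≤ G) (hH : 0 ≤ H) (hC : 0 ≤ C) (hh b s' D : ℕ) :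
    0 ≤ Phi E A G H C hh b s' D :=
  GS4.Phi_nonneg (fun k => by linarith [hE k]) hA hG hH hC _ _ _ _

/-- (i6) `r / (E_r E_l ^ 3)`. -/
theorem i6 (R : Reg46 E w c₀ Θ δ a ε n) (h : Bs46 E δ c n b σ r) (hl : Rg46 δ n l) (hsl : σ ≤ l) :
    (r : ℝ) * ((1 / E l) / (E r * E l ^ 2)) ≤ n ^ (Θ + ε - δ / 16) := by
  have hr' := h.hr.pos R.N1
  have hE := R.Epos r
  have hE' := R.Epos l
  refine le_pow46 R.N1 (by positivity) ?_
  simp (disch := positivity) only [Real.logb_mul, Real.logb_div, Real.logb_pow, Real.logb_one, Nat.cast_ofNat]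
  linarith [R.lkap' h.hr, h.ls1 R, h.lpin R, R.lmono hsl, R.lq' h.hr, R.δ0]

/-- (t6) `r / (E_r E_l E_b ^ 2)`, `l ≥ N ^ (1 - 3 η)`. -/
theorem t6 {n : ℕ} {η : ℝ} (R : Reg46 E w c₀ Θ δ a ε n) (h : Bs46 E δ c n b σ r) (hl : 0 < l) (hlr : l ≤ r)
    (hη : 0 ≤ η) (hl1 : (n : ℝ) ^ (1 - 3 * η) ≤ l) :
    (r : ℝ) * ((1 / E b ^ 2) / (E r * E l)) ≤ (n : ℝ) ^ (Θ + 2 * ε - c + 2 * η) := by
  have hr' := h.hr.pos R.N1
  have hl' : (0 : ℝ) < l := by exact_mod_cast hl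
  have hE := R.Epos r
  have hE' := R.Epos l
  have hE'' := R.Epos b
  have hN := R.N0
  refine le_pow46 R.N1 (by positivity) ?_
  simp (disch := positivity) only [Real.logb_mul, Real.logb_div, Real.logb_pow, Real.logb_one, Nat.cast_ofNat]
  have h2 := to_lg46 R.N1 (by positivity) hl1
  rw [lgN46 R.N1] at h2
  have hrn : r ≤ n := by exact_mod_cast h.hr.hi
  have h4 := R.lhalf (Nat.succ_le_of_lt hl) (hlr.trans hrn)
  rw [lgNN46 R.N1] at h4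
  have h5 := R.lmono hrn
  have h6 := h.hr.lx1 R.N1
  have h7 := R.lhalf (Nat.succ_le_of_lt hl) hlr
  linarith [R.lkap' h.hr, h.lpin R]

section Lev

variable {ε₀ c' Q : ℝ} {tr tl tb q b0 Df : ℕ}

/-- **The levels, own pairs**: with the gain of the slab. -/
theorem sumO93 (R : Reg46 E w c₀ Θ δ a ε n) (h : Bs46 E δ c n b σ r) (hl : Rg46 δ n l) (hsl : σ ≤ l) (hlr : l ≤ r) {η : ℝ}
    (hη : 0 ≤ η) (hl1 : (l : ℝ) ≤ n ^ (1 - η)) (P : NP μ s N ε₀ c' E Q tr tl tb q r l b b0) {e₁ e₂ c₁ : ℝ} (he₁ : 0 ≤ e₁)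
    (hDf : (Df : ℝ) ≤ n ^ e₁ * l) (hQ : 8 * Q ^ 7 ≤ n ^ e₂) (q1 : c₁ + e₁ + e₂ + 5 * ε ≤ Θ) (q2 : c₁ + e₁ + e₂ + 5 * ε ≤ c)
    (q3 : c₁ + e₁ + e₂ + 5 * ε ≤ Θ * η) (q4 : c₁ + e₁ + e₂ + 5 * ε ≤ δ / 16) :
    w l / l * ∑ D ∈ range r, phO μ s N ε₀ c' tr tl Df D ≤ n ^ (Θ - c₁) / 2 := by
  have hE := R.Epos r
  have hE' := R.Epos l
  have hE'' := R.Epos b
  have hw := R.w0 l (hl.npos R.N1)
  have hl' := hl.pos R.N1
  have h1 : (1 : ℝ) ≤ n ^ e₁ := Real.one_le_rpow R.N1.le he₁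
  have hs1 : ((max l Df : ℕ) : ℝ) ≤ n ^ e₁ * l := by
    rw [Nat.cast_max]
    exact max_le (by nlinarith) hDf
  refine sum_of_Phi hQ (Phi_nn R.E1 (by positivity) (by positivity) (by positivity) (by positivity) _ _ _) (fun D hD => ?_)
    (sum_i R h hl hsl hlr hη hl1 he₁ (hh := max l Df) hs1 (s' := max l Df) (le_max_left _ _) hs1 q1 q2 q3 q4)
  refine phO_Phi P (le_max_right _ _) (by positivity) ?_ (by positivity) (by positivity) ?_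
  · exact div_le_div_of_nonneg_right (le_add_of_nonneg_right (by positivity)) (by positivity)
  · exact div_le_div_of_nonneg_right (le_add_of_nonneg_right (by positivity)) (by positivity)

/-- **The levels, micro ties.** -/
theorem sumM93 (R : Reg46 E w c₀ Θ δ a ε n) (h : Bs46 E δ c n b σ r) (hl : Rg46 δ n l) (hsl : σ ≤ l) (hlr : l ≤ r) {η : ℝ}
    (hη : 0 ≤ η) (hl1 : (l : ℝ) ≤ n ^ (1 - η)) (P : NP μ s N ε₀ c' E Q tr tl tb q r l b b0) (hb0 : b0 ≤ b) {e₁ e₂ c₁ : ℝ}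
    (he₁ : 0 ≤ e₁) (h4 : 4 ≤ n ^ e₁) (hDf : (Df : ℝ) ≤ n ^ e₁ * l) (hQ : 8 * Q ^ 7 ≤ n ^ e₂) (q1 : c₁ + e₁ + e₂ + 5 * ε ≤ Θ)
    (q2 : c₁ + e₁ + e₂ + 5 * ε ≤ c) (q3 : c₁ + e₁ + e₂ + 5 * ε ≤ Θ * η) (q4 : c₁ + e₁ + e₂ + 5 * ε ≤ δ / 16) :
    ∑ D ∈ range r, phM μ s N ε₀ c' tr tl tb b0 q Df D ≤ n ^ (Θ - c₁) / 2 := by
  have hE := R.Epos r
  have hE' := R.Epos l
  have hE'' := R.Epos b
  have hw := R.w0 l (hl.npos R.N1)
  have hl' := hl.pos R.N1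
  have hbl : (b0 : ℝ) ≤ l := by exact_mod_cast (hb0.trans (h.bs.trans hsl))
  have hs1 : ((max (max l Df) (4 * b0) : ℕ) : ℝ) ≤ n ^ e₁ * l := by
    rw [Nat.cast_max, Nat.cast_max]
    push_cast
    refine max_le (max_le (by nlinarith) hDf) ?_
    nlinarith
  rw [← one_mul (∑ D ∈ range r, phM μ s N ε₀ c' tr tl tb b0 q Df D)]
  refine sum_of_Phi hQ (Phi_nn R.E1 (by positivity) (by positivity) (by positivity) (by positivity) _ _ _) (fun D hD => ?_)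
    (sum_i R h hl hsl hlr hη hl1 he₁ (hh := max (max l Df) (4 * b0)) hs1 (s' := max (max l Df) (4 * b0))
      ((le_max_left _ _).trans (le_max_left _ _)) hs1 q1 q2 q3 q4)
  rw [one_mul]
  refine phM_Phi P hD ((le_max_right _ _).trans (le_max_left _ _)) ((le_max_right _ _).trans (le_max_left _ _))
    (le_max_right _ _) ?_ le_rfl (by positivity) ?_
  · exact div_le_div_of_nonneg_right (le_add_of_nonneg_left (by positivity)) (by positivity)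
  · exact div_le_div_of_nonneg_right (le_add_of_nonneg_left (by positivity)) (by positivity)

/-- **The levels, the far part**: `1 / E_l` times the price of the own pairs. -/
theorem sumF93 (R : Reg46 E w c₀ Θ δ a ε n) (h : Bs46 E δ c n b σ r) (hl : Rg46 δ n l) (hsl : σ ≤ l) (hlr : l ≤ r) {η : ℝ}
    (hη : 0 ≤ η) (hl1 : (l : ℝ) ≤ n ^ (1 - η)) (P : NP μ s N ε₀ c' E Q tr tl tb q r l b b0) {e₁ e₂ c₁ : ℝ} (he₁ : 0 ≤ e₁)
    (hDf : (Df : ℝ) ≤ n ^ e₁ * l) (hQ : 8 * Q ^ 7 ≤ n ^ e₂) (q1 : c₁ + e₁ + e₂ + 5 * ε ≤ Θ)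
    (q3 : c₁ + e₁ + e₂ + 5 * ε ≤ Θ * η) (q4 : c₁ + e₁ + e₂ + 5 * ε ≤ δ / 16) :
    1 / E l * ∑ D ∈ range r, phO μ s N ε₀ c' tr tl Df D ≤ n ^ (Θ - c₁) / 2 := by
  have hN := R.N0
  have hE := R.Epos r
  have hE' := R.Epos l
  have hl' := hl.pos R.N1
  have hε := R.ε0
  have h1 : (1 : ℝ) ≤ n ^ e₁ := Real.one_le_rpow R.N1.le he₁
  have hs1 : ((max l Df : ℕ) : ℝ) ≤ n ^ e₁ * l := by
    rw [Nat.cast_max]
    exact max_le (by nlinarith) hDf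
  obtain ⟨x, hx⟩ : ∃ x, x = Θ - c₁ - e₁ - e₂ - 3 * ε := ⟨_, rfl⟩
  have e4 : 0 < n ^ x := Real.rpow_pos_of_pos hN _
  refine sum_of_Phi (A := (1 / E l) / (E r * E l)) (G := 0) (H := 0) (C := (1 / E l) / (E r * E l ^ 2)) hQ
    (Phi_nn R.E1 (by positivity) le_rfl le_rfl (by positivity) _ _ _) (fun D hD => ?_)
    (four70 (l := l) R (x := x) (y := Θ - c₁) (by positivity) le_rfl le_rfl he₁ (h.hb.npos R.N1) (h.bs.trans hsl)
      (h.bs.trans h.sr) (hh := max l Df) (s' := max l Df) hs1 (le_max_left _ _) hs1 ?_ ?_ ?_ ?_ (by linarith))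
  · exact phO_Phi P (le_max_right _ _) (by positivity) le_rfl le_rfl le_rfl le_rfl
  · have e1 := (i3 R hl hlr hη hl1).trans (Real.rpow_le_rpow_of_exponent_le R.N1.le (show Θ - Θ * η + ε ≤ x by linarith))
    have e3 : (l : ℝ) * (1 / E l / (E r * E l)) = (1 / (E r * E l)) * ((l : ℝ) / E l) := by
      field_simp
    rw [e3]
    linarith
  · rw [zero_mul]
    exact e4.le
  · rw [zero_mul]
    positivity
  · have e1 := (i6 R h hl hsl).trans (Real.rpow_le_rpow_of_exponent_le R.N1.le (show Θ + ε - δ / 16 ≤ x by linarith))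
    linarith

end Lev

/-! ### The last level -/

section Top

variable {ε₀ c' Q : ℝ} {tr tl tb q b0 Df : ℕ}

/-- The sum over the distances with the coefficients of the last level. -/
theorem four93 {n : ℕ} (R : Reg46 E w c₀ Θ δ a ε n) (h : Bs46 E δ c n b σ r) (hl : Rg46 δ n l) (hsl : σ ≤ l) (hlr : l ≤ r)
    {η e₀ Wc : ℝ} (hη : 0 ≤ η) (hl0 : (n : ℝ) ^ (1 - 3 * η) ≤ l) (hl1 : (l : ℝ) ≤ (n : ℝ) ^ (1 - 2 * η)) (hWc : 0 < Wc)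
    (hW : Wc ≤ (n : ℝ) ^ e₀ * E n ^ 2) {e₁ e₂ c₁ : ℝ} (he₁ : 0 ≤ e₁) {hh : ℕ} (hh1 : (hh : ℝ) ≤ (n : ℝ) ^ e₁ * l)
    {s' : ℕ} (hs' : l ≤ s') (hs'1 : (s' : ℝ) ≤ (n : ℝ) ^ e₁ * l) (q1 : c₁ + e₀ + e₁ + e₂ + 5 * ε + 6 * η ≤ Θ)
    (q2 : c₁ + e₁ + e₂ + 5 * ε + 2 * η ≤ c) (q3 : c₁ + e₁ + e₂ + 5 * ε ≤ Θ * (2 * η)) :
    (n : ℝ) ^ e₂ * ∑ D ∈ range r, Phi E ((Wc / l + 1 / E b ^ 2) / (E r * E l)) (1 / (E r * E l))
      (Wc / l / E r) (Wc / l / (E r * E l ^ 2) + 1 / E b ^ 2 / (E r * E l)) hh b s' D ≤ (n : ℝ) ^ (Θ - c₁) / 2 := by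
  have hN := R.N0
  have hE := R.Epos r
  have hE' := R.Epos l
  have hE'' := R.Epos b
  have hl' := hl.pos R.N1
  have hlp := hl.npos R.N1
  have hε := R.ε0
  have hc := h.c0
  obtain ⟨x, hx⟩ : ∃ x, x = Θ - c₁ - e₁ - e₂ - 3 * ε := ⟨_, rfl⟩
  have e4 : 0 < (n : ℝ) ^ x := Real.rpow_pos_of_pos hN _
  refine four70 (l := l) R (by positivity) (by positivity) (by positivity) he₁ (h.hb.npos R.N1) (h.bs.trans hsl) (h.bs.trans h.sr)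
    hh1 hs' hs'1 ?_ ?_ ?_ ?_ (show x + e₁ + e₂ + 3 * ε ≤ Θ - c₁ by linarith)
  · have e1 := (t2 R h.hr hlp hlr hWc hW hl0).trans (Real.rpow_le_rpow_of_exponent_le R.N1.le
      (show e₀ + 2 * ε + 3 * η ≤ x by linarith))
    have e2 := (i2 R h hl hlr).trans (Real.rpow_le_rpow_of_exponent_le R.N1.le (show Θ - c + 2 * ε ≤ x by linarith))
    have e3 : (l : ℝ) * ((Wc / l + 1 / E b ^ 2) / (E r * E l)) =
        (l : ℝ) * ((Wc / l) / (E r * E l)) + (l : ℝ) * ((1 / E b ^ 2) / (E r * E l)) := by ring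
    rw [e3]
    linarith
  · exact (i3 R hl hlr (by linarith) hl1).trans (Real.rpow_le_rpow_of_exponent_le R.N1.le (by linarith))
  · have e1 := (t1 R h.hr hlp hWc hW hl0).trans (Real.rpow_le_rpow_of_exponent_le R.N1.le
      (show e₀ + 2 * ε + 3 * η ≤ x by linarith))
    linarith
  · have e1 := (t4 R h.hr hlp hlr hWc hW hl0).trans (Real.rpow_le_rpow_of_exponent_le R.N1.le
      (show e₀ + 2 * ε + 6 * η ≤ x by linarith))
    have e2 := (t6 R h hlp hlr hη hl0).trans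
      (Real.rpow_le_rpow_of_exponent_le R.N1.le (show Θ + 2 * ε - c + 2 * η ≤ x by linarith))
    rw [mul_add]
    linarith

/-- **The last level, own pairs.** -/
theorem sumOt93 {n : ℕ} (R : Reg46 E w c₀ Θ δ a ε n) (h : Bs46 E δ c n b σ r) (hl : Rg46 δ n l) (hsl : σ ≤ l) (hlr : l ≤ r)
    {η e₀ Wc : ℝ} (hη : 0 ≤ η) (hl0 : (n : ℝ) ^ (1 - 3 * η) ≤ l) (hl1 : (l : ℝ) ≤ (n : ℝ) ^ (1 - 2 * η)) (hWc : 0 < Wc)
    (hW : Wc ≤ (n : ℝ) ^ e₀ * E n ^ 2) (P : NP μ s N ε₀ c' E Q tr tl tb q r l b b0) (hb0 : b0 ≤ Df) {e₁ e₂ c₁ : ℝ}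
    (he₁ : 0 ≤ e₁) (hDf : (Df : ℝ) ≤ (n : ℝ) ^ e₁ * l) (hQ : 8 * Q ^ 7 ≤ (n : ℝ) ^ e₂)
    (q1 : c₁ + e₀ + e₁ + e₂ + 5 * ε + 6 * η ≤ Θ) (q2 : c₁ + e₁ + e₂ + 5 * ε + 2 * η ≤ c)
    (q3 : c₁ + e₁ + e₂ + 5 * ε ≤ Θ * (2 * η)) :
    Wc / l * ∑ D ∈ range r, phOt μ s N ε₀ c' tr tl Df D ≤ (n : ℝ) ^ (Θ - c₁) / 2 := by
  have hE := R.Epos r
  have hE' := R.Epos l
  have hE'' := R.Epos b
  have hl' := hl.pos R.N1
  have h1 : (1 : ℝ) ≤ (n : ℝ) ^ e₁ := Real.one_le_rpow R.N1.le he₁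
  have hs1 : ((max l Df : ℕ) : ℝ) ≤ (n : ℝ) ^ e₁ * l := by
    rw [Nat.cast_max]
    exact max_le (by nlinarith) hDf
  refine sum_of_Phi hQ (Phi_nn R.E1 (by positivity) (by positivity) (by positivity) (by positivity) _ _ _) (fun D hD => ?_)
    (four93 R h hl hsl hlr hη hl0 hl1 hWc hW he₁ (hh := max l Df) hs1 (s' := max l Df) (le_max_left _ _) hs1 q1 q2 q3)
  refine phOt_Phi P hb0 hD (le_max_right _ _) (by positivity) ?_ (by positivity) le_rfl ?_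
  · exact div_le_div_of_nonneg_right (le_add_of_nonneg_right (by positivity)) (by positivity)
  · exact le_add_of_nonneg_right (by positivity)

/-- **The last level, micro ties.** -/
theorem sumMt93 {n : ℕ} (R : Reg46 E w c₀ Θ δ a ε n) (h : Bs46 E δ c n b σ r) (hl : Rg46 δ n l) (hsl : σ ≤ l) (hlr : l ≤ r)
    {η e₀ Wc : ℝ} (hη : 0 ≤ η) (hl0 : (n : ℝ) ^ (1 - 3 * η) ≤ l) (hl1 : (l : ℝ) ≤ (n : ℝ) ^ (1 - 2 * η)) (hWc : 0 < Wc)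
    (hW : Wc ≤ (n : ℝ) ^ e₀ * E n ^ 2) (P : NP μ s N ε₀ c' E Q tr tl tb q r l b b0) (hb0 : b0 ≤ b) {e₁ e₂ c₁ : ℝ}
    (he₁ : 0 ≤ e₁) (h4 : 4 ≤ (n : ℝ) ^ e₁) (hDf : (Df : ℝ) ≤ (n : ℝ) ^ e₁ * l) (hQ : 8 * Q ^ 7 ≤ (n : ℝ) ^ e₂)
    (q1 : c₁ + e₀ + e₁ + e₂ + 5 * ε + 6 * η ≤ Θ) (q2 : c₁ + e₁ + e₂ + 5 * ε + 2 * η ≤ c)
    (q3 : c₁ + e₁ + e₂ + 5 * ε ≤ Θ * (2 * η)) :
    ∑ D ∈ range r, phMt μ s N ε₀ c' tr tl tb b0 q Df D ≤ (n : ℝ) ^ (Θ - c₁) / 2 := by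
  have hE := R.Epos r
  have hE' := R.Epos l
  have hE'' := R.Epos b
  have hl' := hl.pos R.N1
  have hbl : (b0 : ℝ) ≤ l := by exact_mod_cast (hb0.trans (h.bs.trans hsl))
  have hs1 : ((max (max l Df) (4 * b0) : ℕ) : ℝ) ≤ (n : ℝ) ^ e₁ * l := by
    rw [Nat.cast_max, Nat.cast_max]
    push_cast
    refine max_le (max_le (by nlinarith) hDf) ?_
    nlinarith
  rw [← one_mul (∑ D ∈ range r, phMt μ s N ε₀ c' tr tl tb b0 q Df D)]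
  refine sum_of_Phi hQ (Phi_nn R.E1 (by positivity) (by positivity) (by positivity) (by positivity) _ _ _) (fun D hD => ?_)
    (four93 R h hl hsl hlr hη hl0 hl1 hWc hW he₁ (hh := max (max l Df) (4 * b0)) hs1 (s' := max (max l Df) (4 * b0))
      ((le_max_left _ _).trans (le_max_left _ _)) hs1 q1 q2 q3)
  rw [one_mul]
  refine phMt_Phi P hD ((le_max_right _ _).trans (le_max_left _ _)) ((le_max_right _ _).trans (le_max_left _ _))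
    (le_max_right _ _) ?_ le_rfl (by positivity) ?_
  · exact div_le_div_of_nonneg_right (le_add_of_nonneg_left (by positivity)) (by positivity)
  · exact le_add_of_nonneg_left (by positivity)

end Top

/-- **The choice of the exponents**: `η = min Θ c / 16`, a gain `c₁` which does not depend on the losses. -/
theorem par93 (hΘ : 0 < Θ) (hδ : 0 < δ) (hc : 0 < c) : ∃ η c₁ : ℝ, 0 < η ∧ η ≤ Θ / 16 ∧ η ≤ c / 16 ∧ 0 < c₁ ∧
    ∀ e₀ e₁ e₂ ε : ℝ, 0 ≤ e₀ → 0 ≤ e₁ → 0 ≤ e₂ → 0 ≤ ε → e₀ + e₁ + e₂ + 8 * ε ≤ c₁ →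
      c₁ + e₀ + e₁ + e₂ + 8 * ε + 6 * η ≤ Θ ∧ c₁ + e₁ + e₂ + 8 * ε + 2 * η ≤ c ∧ c₁ + e₁ + e₂ + 8 * ε ≤ Θ * (2 * η) ∧
        c₁ + e₁ + e₂ + 8 * ε ≤ δ / 32 := by
  obtain ⟨η, hη⟩ : ∃ η, η = min Θ c / 16 := ⟨_, rfl⟩
  have η0 : 0 < η := by
    have : 0 < min Θ c := lt_min hΘ hc
    linarith
  have η1 : η ≤ Θ / 16 := by
    have : min Θ c ≤ Θ := min_le_left _ _
    linarith
  have η2 : η ≤ c / 16 := by
    have : min Θ c ≤ c := min_le_right _ _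
    linarith
  refine ⟨η, min (min (Θ / 8) (Θ * η)) (min (c / 8) (δ / 64)), η0, η1, η2, by positivity, ?_⟩
  intro e₀ e₁ e₂ ε h0 h1 h2 h3 h
  have k1 : min (min (Θ / 8) (Θ * η)) (min (c / 8) (δ / 64)) ≤ Θ / 8 := (min_le_left _ _).trans (min_le_left _ _)
  have k2 : min (min (Θ / 8) (Θ * η)) (min (c / 8) (δ / 64)) ≤ Θ * η := (min_le_left _ _).trans (min_le_right _ _)
  have k3 : min (min (Θ / 8) (Θ * η)) (min (c / 8) (δ / 64)) ≤ c / 8 := (min_le_right _ _).trans (min_le_left _ _)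
  have k4 : min (min (Θ / 8) (Θ * η)) (min (c / 8) (δ / 64)) ≤ δ / 64 := (min_le_right _ _).trans (min_le_right _ _)
  exact ⟨by linarith, by linarith, by linarith, by linarith⟩

end

end Pool.Agent.W_7d29a1_C0.T93
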