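import Pool.Agent.W_7d29a1_C0.Tau86B
import Pool.Agent.W_7d29a1_C0.Own15

/-!
C0, helper42: DOUBLE TIES IN ONE BLOCK, part 1. `Lc C m u v x`: in SOME block `[c, d)` inside of `[C, m)` around the window `[u, v]` the
conditional replica misses the path in `[u, v]` with a mass more than `exp (- x)`; this event sees only the rows of `[C, m)`.
`hy_cutR`, `hy_cutL`: a mass of the big block is a local one, or its gap reaches the middle row `m` (exact closing and opening of the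
replica at a meeting row). `lcR`, `lcL`: the price of `Lc`, given an event which is blind to the rows behind `u` (in front of `v`).
-/

set_option autoImplicit false

namespace Pool.Agent.W_7d29a1_C0.P42

open MeasureTheory ProbabilityTheory Filter Topology Finset
open Pool.Agent.W_7d29a1_F Pool.Agent.W_7d29a1_X Pool.Agent.W_7d29a1_h4g Pool.Agent.W_7d29a1_H
open Pool.Agent.W_7d29a1_HS (In wd md)
open Pool.Agent.W_7d29a1_HZ Pool.Agent.W_7d29a1_HZ.R72 Pool.Agent.W_7d29a1_Z.Asm72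
open Pool.Agent.W_7d29a1_HZ.Z86
open Pool.Agent.W_7d29a1_C0.P86 Pool.Agent.W_7d29a1_C0.P15
open Pool.Agent.W_7d29a1_C0.P3 (Hy hy_ms hy_off er amp amp_ex)
open Pool.Agent.W_7d29a1_C0.Mod92 (Px Pn lw ps pJ ne_Pn ps_Pn pos_card ps_of_le ps_of_ge)
open scoped ENNReal

variable {μ : Measure ℝ} {s : ℝ} {N : ℕ}

/-! ### Closing and opening -/

/-- The mass of the big block: the gap closes in front of `m`, or it reaches `m`. -/
theorem mc_cutR {C D u v m y : ℕ} (h1 : C ≤ u) (h2 : u ≤ v) (h3 : m ≤ D) (h4 : D ≤ N) (η : Env) (S : Finset ℕ) :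
    mc μ s N y C D (NoMeet u v) η S ≤ ∑ a ∈ Icc v m, mc μ s N y C a (NoMeet u v) η S + mc μ s N y C D (NoMeet u m) η S := by
  have g1 := mc_le_two (μ := μ) (s := s) (N := N) (y := y) (c := C) (d := D) (A := NoMeet u v) (B := Gap C m u v)
    (C := NoMeet u m) (fun S S' _ _ _ _ h h' => nm_cutR h1 (h C (Or.inl le_rfl)) h') η S
  refine g1.trans (add_le_add ?_ le_rfl)
  refine (mc_le_sum (Icc v m) (fun a S S' => pos S a = pos S' a ∧ NoMeet u v S S')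
    (fun S S' _ _ _ _ h h' => ?_) η S).trans (sum_le_sum fun a ha => ?_)
  · obtain ⟨a₀, b', k1, k2, k3, k4, k5, k6, k7⟩ := h'
    exact ⟨b', mem_Icc.2 ⟨k3, k4⟩, k6, k7⟩
  · rw [mem_Icc] at ha
    exact mc_pinR (by omega) (by omega) h4 (nm_on2 h1 ha.1) η S

/-- The mass of the big block: the gap opens behind `m`, or it reaches back to `m`. -/
theorem mc_cutL {C D u v m y : ℕ} (h1 : C ≤ m) (h2 : u ≤ v) (h3 : v ≤ D) (h4 : D ≤ N) (η : Env) (S : Finset ℕ) :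
    mc μ s N y C D (NoMeet u v) η S ≤ ∑ a ∈ Icc m u, mc μ s N y a D (NoMeet u v) η S + mc μ s N y C D (NoMeet m v) η S := by
  have g1 := mc_le_two (μ := μ) (s := s) (N := N) (y := y) (c := C) (d := D) (A := NoMeet u v) (B := Gap m D u v)
    (C := NoMeet m v) (fun S S' _ _ _ _ h h' => nm_cutL h3 (h D (Or.inr le_rfl)) h') η S
  refine g1.trans (add_le_add ?_ le_rfl)
  refine (mc_le_sum (Icc m u) (fun a S S' => pos S a = pos S' a ∧ NoMeet u v S S')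
    (fun S S' _ _ _ _ h h' => ?_) η S).trans (sum_le_sum fun a ha => ?_)
  · obtain ⟨a₀, b', k1, k2, k3, k4, k5, k6, k7⟩ := h'
    exact ⟨a₀, mem_Icc.2 ⟨k1, k2⟩, k5, k7⟩
  · rw [mem_Icc] at ha
    exact mc_pinL (by omega) (by omega) h4 (nm_on2 ha.2 h3) η S

/-! ### Local masses -/

/-- In some block `[c, d)` inside of `[C, m)` around `[u, v]` the replica misses the path in `[u, v]` with mass more than `exp (- x)`. -/
def Lc (μ : Measure ℝ) (s : ℝ) (N y C m u v : ℕ) (x : ℝ) (η : Env) (S : Finset ℕ) : Prop :=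
  ∃ c d : ℕ, (C ≤ c ∧ c ≤ u ∧ v ≤ d ∧ d ≤ m) ∧ Hy μ s N y c d (NoMeet u v) x η S

theorem lc_ms {C m u v y : ℕ} (x : ℝ) : Ms (Lc μ s N y C m u v x) := by
  intro S
  have e : {η | Lc μ s N y C m u v x η S} = ⋃ c : ℕ, ⋃ d : ℕ, {η | (C ≤ c ∧ c ≤ u ∧ v ≤ d ∧ d ≤ m) ∧ Hy μ s N y c d (NoMeet u v) x η S} := by
    ext η
    simp only [Set.mem_iUnion, Set.mem_ofPred_eq]
    exact Iff.rfl
  rw [e]
  refine MeasurableSet.iUnion fun c => MeasurableSet.iUnion fun d => ?_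
  by_cases h : C ≤ c ∧ c ≤ u ∧ v ≤ d ∧ d ≤ m
  · have e2 : {η | (C ≤ c ∧ c ≤ u ∧ v ≤ d ∧ d ≤ m) ∧ Hy μ s N y c d (NoMeet u v) x η S} = {η | Hy μ s N y c d (NoMeet u v) x η S} := by
      ext η
      exact and_iff_right h
    rw [e2]
    exact hy_ms (NoMeet u v) x S
  · have e2 : {η | (C ≤ c ∧ c ≤ u ∧ v ≤ d ∧ d ≤ m) ∧ Hy μ s N y c d (NoMeet u v) x η S} = ∅ := by
      ext η
      simp only [Set.mem_ofPred_eq, Set.mem_empty_iff_false, iff_false]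
      exact fun g => h g.1
    rw [e2]
    exact MeasurableSet.empty

theorem lc_off {C m u v y : ℕ} (huv : u ≤ v) (hm : m ≤ N) (x : ℝ) {J : Finset ℕ} (hJ : ∀ j ∈ J, j ≤ C ∨ m < j) :
    OffRows J (Lc μ s N y C m u v x) := by
  intro η η' S h
  have key : ∀ c d : ℕ, C ≤ c ∧ c ≤ u ∧ v ≤ d ∧ d ≤ m → (Hy μ s N y c d (NoMeet u v) x η S ↔ Hy μ s N y c d (NoMeet u v) x η' S) :=
    fun c d hcd => hy_off (by omega) (by omega) (NoMeet u v) x (fun j hj => by have := hJ j hj; omega) η η' S h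
  unfold Lc
  exact exists_congr fun c => exists_congr fun d => and_congr_right fun hcd => key c d hcd

/-- **The cut to the left block.** -/
theorem hy_cutR {C D u v m y : ℕ} (h1 : C ≤ u) (h2 : u ≤ v) (h3 : m ≤ D) (h4 : D ≤ N) {x x' : ℝ} (hx : ((N : ℝ) + 2) * Real.exp (-x') ≤ Real.exp (-x))
    {η : Env} {S : Finset ℕ} (h : Hy μ s N y C D (NoMeet u v) x η S) :
    Lc μ s N y C m u v x' η S ∨ Hy μ s N y C D (NoMeet u m) x' η S := by
  by_contra hcon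
  rw [not_or] at hcon
  obtain ⟨g1, g2⟩ := hcon
  have k1 := mc_cutR (μ := μ) (s := s) (y := y) h1 h2 h3 h4 η S
  have k2 : ∑ a ∈ Icc v m, mc μ s N y C a (NoMeet u v) η S ≤ ∑ _a ∈ Icc v m, Real.exp (-x') := sum_le_sum fun a ha => by
    rw [mem_Icc] at ha
    by_contra hc
    push Not at hc
    exact g1 ⟨C, a, ⟨le_rfl, h1, ha.1, ha.2⟩, hc⟩
  have k3 : mc μ s N y C D (NoMeet u m) η S ≤ Real.exp (-x') := by
    by_contra hc
    push Not at hc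
    exact g2 hc
  rw [sum_const, Nat.card_Icc, nsmul_eq_mul] at k2
  have k4 : ((m + 1 - v : ℕ) : ℝ) * Real.exp (-x') ≤ ((N : ℝ) + 1) * Real.exp (-x') := by
    refine mul_le_mul_of_nonneg_right ?_ (Real.exp_pos _).le
    exact_mod_cast (show m + 1 - v ≤ N + 1 by omega)
  have h5 : Real.exp (-x) < mc μ s N y C D (NoMeet u v) η S := h
  linarith

/-- **The cut to the right block.** -/
theorem hy_cutL {C D u v m y : ℕ} (h1 : C ≤ m) (h2 : u ≤ v) (h3 : v ≤ D) (h4 : D ≤ N) {x x' : ℝ} (hx : ((N : ℝ) + 2) * Real.exp (-x') ≤ Real.exp (-x))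
    {η : Env} {S : Finset ℕ} (h : Hy μ s N y C D (NoMeet u v) x η S) :
    Lc μ s N y m D u v x' η S ∨ Hy μ s N y C D (NoMeet m v) x' η S := by
  by_contra hcon
  rw [not_or] at hcon
  obtain ⟨g1, g2⟩ := hcon
  have k1 := mc_cutL (μ := μ) (s := s) (y := y) h1 h2 h3 h4 η S
  have k2 : ∑ a ∈ Icc m u, mc μ s N y a D (NoMeet u v) η S ≤ ∑ _a ∈ Icc m u, Real.exp (-x') := sum_le_sum fun a ha => by
    rw [mem_Icc] at ha
    by_contra hc
    push Not at hc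
    exact g1 ⟨a, D, ⟨ha.1, ha.2, h3, le_rfl⟩, hc⟩
  have k3 : mc μ s N y C D (NoMeet m v) η S ≤ Real.exp (-x') := by
    by_contra hc
    push Not at hc
    exact g2 hc
  rw [sum_const, Nat.card_Icc, nsmul_eq_mul] at k2
  have k4 : ((u + 1 - m : ℕ) : ℝ) * Real.exp (-x') ≤ ((N : ℝ) + 1) * Real.exp (-x') := by
    refine mul_le_mul_of_nonneg_right ?_ (Real.exp_pos _).le
    exact_mod_cast (show u + 1 - m ≤ N + 1 by omega)
  have h5 : Real.exp (-x) < mc μ s N y C D (NoMeet u v) η S := h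
  linarith

/-! ### The price of a local mass -/

variable [IsProbabilityMeasure μ] {c₀ C₀ : ℝ} {n₀ : ℕ}

/-- A family of places of the free replica is one place. -/
theorem pl_of_pfam {y : ℕ} {R X pe : ℝ≥0∞} {A : Finset ℕ → Finset ℕ → Prop} {Jf : Finset ℕ} {Ob : Finset (Finset ℕ)} {V : Finset ℕ}
    (hP : PFam μ s N y R X pe 0 N A Jf Ob V) : Pl μ s N y R (X * pe) A Jf V := by
  obtain ⟨P, r, B, J, hPl, hA, hB, hR, hXc, hJ⟩ := hP
  have hex : ∀ p, ∃ NT : Env → Finset ℕ → Prop, Ms NT ∧ (p ∈ P → (∀ J' : Finset ℕ, Disjoint J' V → OffRows J' NT) ∧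
      P2 μ s N y (fun _ => 0) (fun η S S' => B p S' S ∧ ¬ NT η S') ≤ pe ∧
      ∀ F : Env → Finset ℕ → Prop, Ms F → OffRows (J p) F → P1 μ s N y (fun η S => F η S ∧ NT η S) ≤ r p * P1 μ s N y F + pe) := by
    intro p
    by_cases hp : p ∈ P
    · obtain ⟨NT, q1, q2, q3, q4⟩ := hPl p hp
      exact ⟨NT, q1, fun _ => ⟨q2, q3, q4⟩⟩
    · exact ⟨fun _ _ => False, fun S => by simp, fun h => absurd h hp⟩
  choose NT hms hNT using hex
  refine ⟨fun η S => ∃ p ∈ P, NT p η S, ms_ex P hms, fun J' hJ' η η' S hη => ?_, ?_, fun F hF hoff => ?_⟩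
  · exact exists_congr fun p => and_congr_right fun hp => (hNT p hp).1 J' hJ' η η' S hη
  · have q1 : P2 μ s N y (fun _ => 0) (fun η S S' => A S' S ∧ ¬ ∃ p ∈ P, NT p η S') ≤
        P2 μ s N y (fun _ => 0) (fun η S S' => ∃ p ∈ P, B p S' S ∧ ¬ NT p η S') := by
      refine A12.P2_mono' fun η S S' hS hS' hSy hSy' hev => ?_
      have hout : ∀ T : Finset ℕ, T ⊆ range N → ∀ j, N ≤ j → pos T j = pos T N := fun T hT j hj => by
        unfold pos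
        have e1 : T ∩ range j = T ∩ range N := by
          ext i
          simp only [mem_inter, mem_range]
          constructor
          · rintro ⟨q1, -⟩
            exact ⟨q1, mem_range.1 (hT q1)⟩
          · rintro ⟨q1, q2⟩
            exact ⟨q1, by omega⟩
        rw [e1]
      obtain ⟨p, hp, hb⟩ := hA S' S hS' hS hSy' hSy (fun j hj => by
        rcases hj with hj | hj
        · have : j = 0 := by omega
          subst this
          rw [pos_zero, pos_zero]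
        · rw [hout S hS j hj, hout S' hS' j hj, hSy, hSy']) hev.1
      exact ⟨p, hp, hb, fun h' => hev.2 ⟨p, hp, h'⟩⟩
    exact (q1.trans (Pool.Agent.W_7d29a1_HZ.Z74.P2_ex_le P (fun p η S S' => B p S' S ∧ ¬ NT p η S') fun p hp =>
      (hNT p hp).2.1)).trans (mul_le_mul' hXc le_rfl)
  · have q1 : P1 μ s N y (fun η S => F η S ∧ ∃ p ∈ P, NT p η S) ≤ P1 μ s N y (fun η S => ∃ p ∈ P, F η S ∧ NT p η S) :=
      A12.P1_mono' fun η S _ _ ⟨g1, p, g2, g3⟩ => ⟨p, g2, g1, g3⟩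
    refine q1.trans ((A12.P1_exists (μ := μ) (s := s) (N := N) (y := y) P fun p η S => F η S ∧ NT p η S).trans ?_)
    refine (sum_le_sum fun p hp => (hNT p hp).2.2 F hF (Pool.Agent.W_7d29a1_HZ.ZE.OffRows.mono36 (hJ p hp).1 hoff)).trans ?_
    rw [sum_add_distrib, ← Finset.sum_mul, sum_const, nsmul_eq_mul]
    exact add_le_add (mul_le_mul' hR le_rfl) (mul_le_mul' hXc le_rfl)

/-- The price of the local mass from the price of the place. -/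
theorem lc_pr {C m u v y : ℕ} (hyN : y ≤ N) (huv : u ≤ v) (hvm : v ≤ m) (hm : m ≤ N) {R pe : ℝ≥0∞} {J V : Finset ℕ}
    (hP : Pl μ s N y R pe (Gap C m u v) J V) (x z : ℝ) {F : Env → Finset ℕ → Prop} (hF : Ms F) (hoff : OffRows J F) :
    P1 μ s N y (fun η S => F η S ∧ Lc μ s N y C m u v x η S) ≤
      R * P1 μ s N y F + (pe + (((N + 1) * (N + 1) : ℕ) : ℝ≥0∞) * er N x z pe) := by
  set A' : ℕ × ℕ → Finset ℕ → Finset ℕ → Prop := fun i S S' => pos S i.1 = pos S' i.1 ∧ pos S i.2 = pos S' i.2 ∧ NoMeet u v S S' with hA'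
  have hmem : ∀ i : ℕ × ℕ, i ∈ Icc C u ×ˢ Icc v m ↔ C ≤ i.1 ∧ i.1 ≤ u ∧ v ≤ i.2 ∧ i.2 ≤ m := fun i => by
    rw [mem_product, mem_Icc, mem_Icc, and_assoc]
  have hon : ∀ i ∈ Icc C u ×ˢ Icc v m, On2 i.1 i.2 (A' i) := by
    intro i hi S S' S'' hS
    rw [hmem] at hi
    simp only [hA']
    rw [hS i.1 le_rfl (by omega), hS i.2 (by omega) le_rfl, nm_on2 hi.2.1 hi.2.2.1 S S' S'' hS]
  have hgap : ∀ i ∈ Icc C u ×ˢ Icc v m, ∀ S S', A' i S S' → Gap C m u v S S' := by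
    intro i hi S S' hh
    rw [hmem] at hi
    exact ⟨i.1, i.2, hi.1, hi.2.1, hi.2.2.1, hi.2.2.2, hh.1, hh.2.1, hh.2.2⟩
  have hsub : P1 μ s N y (fun η S => F η S ∧ Lc μ s N y C m u v x η S) ≤
      P1 μ s N y (fun η S => F η S ∧ ∃ i ∈ Icc C u ×ˢ Icc v m, Hy μ s N y i.1 i.2 (A' i) x η S) := by
    refine A12.P1_mono fun η S ⟨g1, c, d, g2, g3⟩ => ⟨g1, (c, d), (hmem _).2 g2, lt_of_lt_of_le g3 ?_⟩
    exact Pool.Agent.W_7d29a1_C0.P86.mc_mono (fun S S' _ _ _ _ h5 h6 => ⟨h5 c (Or.inl le_rfl), h5 d (Or.inr le_rfl), h6⟩) η S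
  refine hsub.trans ((amp_ex (Icc C u ×ˢ Icc v m) hyN (c := fun i => i.1) (d := fun i => i.2)
    (fun i hi => by rw [hmem] at hi; omega) (fun i hi => by rw [hmem] at hi; omega) hon hgap hP x z hF hoff).trans ?_)
  refine add_le_add le_rfl (add_le_add le_rfl (mul_le_mul' ?_ le_rfl))
  have hc : (Icc C u ×ˢ Icc v m).card ≤ (N + 1) * (N + 1) := by
    rw [card_product, Nat.card_Icc, Nat.card_Icc]
    exact Nat.mul_le_mul (by omega) (by omega)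
  exact_mod_cast hc

/-- The numbers of the error. -/
theorem tiny42 {c₁ : ℝ} (hc₁ : 0 < c₁) : ∃ κ c₂ : ℝ, 0 < κ ∧ 0 < c₂ ∧ ∃ L₀ : ℕ, ∀ L : ℕ, L₀ ≤ L → ∀ N : ℕ, N ≤ L → ∀ x : ℝ, x ≤ (L : ℝ) ^ κ →
    ENNReal.ofReal ((L : ℝ) ^ 2) * ENNReal.ofReal (Real.exp (-(L : ℝ) ^ c₁)) + (((N + 1) * (N + 1) : ℕ) : ℝ≥0∞) *
      er N x (3 * (L : ℝ) ^ κ) (ENNReal.ofReal ((L : ℝ) ^ 2) * ENNReal.ofReal (Real.exp (-(L : ℝ) ^ c₁))) ≤
      ENNReal.ofReal (Real.exp (-(L : ℝ) ^ c₂)) := by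
  obtain ⟨c₂, hc₂, -, L₂, hX⟩ := Pool.Agent.W_7d29a1_Z.NumI77.pow_exp (show 0 < c₁ / 4 by positivity) 8
  obtain ⟨L₃, hL₃⟩ := Pool.Agent.W_7d29a1_Z.NumI77.large (show 0 < c₁ / 4 by positivity) 4
  refine ⟨c₁ / 4, c₂, by positivity, hc₂, L₂ + L₃ + 100, ?_⟩
  intro L hL N hNL x hx
  have hL100 : (100 : ℝ) ≤ L := by exact_mod_cast (show 100 ≤ L by omega)
  have hL0 : (0 : ℝ) < L := by linarith
  obtain ⟨-, hx4, -⟩ := hL₃ L (by omega)
  obtain ⟨X, hX'⟩ : ∃ X : ℝ, X = (L : ℝ) ^ (c₁ / 4) := ⟨_, rfl⟩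
  rw [← hX'] at hx4 hx ⊢
  have hxx : (L : ℝ) ^ c₁ = X ^ 4 := by
    rw [hX', ← Real.rpow_natCast, ← Real.rpow_mul hL0.le]
    congr 1
    push_cast
    ring
  have h5 := hX L (by omega)
  rw [← hX'] at h5
  have e6 : (L : ℝ) ^ (8 : ℝ) = (L : ℝ) ^ 8 := by
    rw [← Real.rpow_natCast]
    norm_num
  rw [e6] at h5
  unfold er
  have hc1 : (((N + 1) * (N + 1) : ℕ) : ℝ≥0∞) = ENNReal.ofReal (((N : ℝ) + 1) * (N + 1)) := by
    rw [← ENNReal.ofReal_natCast]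
    push_cast
    rfl
  rw [hxx, hc1, ← ENNReal.ofReal_mul (by positivity), ← ENNReal.ofReal_mul (Real.exp_pos _).le,
    ← ENNReal.ofReal_add (by positivity) (by positivity), ← ENNReal.ofReal_mul (Real.exp_pos _).le,
    ← ENNReal.ofReal_mul (by positivity), ← ENNReal.ofReal_add (by positivity) (by positivity)]
  refine ENNReal.ofReal_le_ofReal (le_trans ?_ h5)
  have hNL' : (N : ℝ) + 1 ≤ 2 * L := by
    have : (N : ℝ) ≤ L := by exact_mod_cast hNL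
    linarith
  have hN0 : (0 : ℝ) ≤ N := Nat.cast_nonneg N
  have hE : Real.exp (-X ^ 4) ≤ Real.exp (-(8 * X)) := by
    rw [Real.exp_le_exp]
    have h1 : (64 : ℝ) ≤ X ^ 3 := by nlinarith [sq_nonneg X]
    nlinarith
  have hep := (Real.exp_pos (-X)).le
  have t1 : (L : ℝ) ^ 2 * Real.exp (-X ^ 4) ≤ (L : ℝ) ^ 2 * Real.exp (-X) :=
    mul_le_mul_of_nonneg_left (hE.trans (Real.exp_le_exp.2 (by linarith))) (by positivity)
  have g1 : Real.exp x * (Real.exp (3 * X) * Real.exp (-X ^ 4)) ≤ Real.exp (-X) := by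
    refine (mul_le_mul (Real.exp_le_exp.2 hx) (mul_le_mul_of_nonneg_left hE (Real.exp_pos _).le) (by positivity) (Real.exp_pos _).le).trans ?_
    rw [← Real.exp_add, ← Real.exp_add, Real.exp_le_exp]
    linarith
  have g2 : Real.exp x * Real.exp (-(3 * X)) ≤ Real.exp (-X) := by
    rw [← Real.exp_add, Real.exp_le_exp]
    linarith
  have t2 : Real.exp x * (Real.exp (3 * X) * ((L : ℝ) ^ 2 * Real.exp (-X ^ 4)) + ((N : ℝ) + 1) ^ 2 * Real.exp (-(3 * X))) ≤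
      ((L : ℝ) ^ 2 + (2 * L) ^ 2) * Real.exp (-X) := by
    have k1 : ((N : ℝ) + 1) ^ 2 ≤ (2 * (L : ℝ)) ^ 2 := pow_le_pow_left₀ (by positivity) hNL' 2
    calc _ = (L : ℝ) ^ 2 * (Real.exp x * (Real.exp (3 * X) * Real.exp (-X ^ 4))) + ((N : ℝ) + 1) ^ 2 * (Real.exp x * Real.exp (-(3 * X))) := by ring
      _ ≤ (L : ℝ) ^ 2 * Real.exp (-X) + (2 * L) ^ 2 * Real.exp (-X) := by gcongr
      _ = _ := by ring
  have t3 : ((N : ℝ) + 1) * (N + 1) * (Real.exp x * (Real.exp (3 * X) * ((L : ℝ) ^ 2 * Real.exp (-X ^ 4)) + ((N : ℝ) + 1) ^ 2 * Real.exp (-(3 * X)))) ≤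
      (2 * L) * (2 * L) * (((L : ℝ) ^ 2 + (2 * L) ^ 2) * Real.exp (-X)) := by
    gcongr
  have h6 : (L : ℝ) ^ 2 + 20 * (L : ℝ) ^ 4 ≤ (L : ℝ) ^ 8 := by
    have a1 : (1 : ℝ) ≤ (L : ℝ) ^ 2 := one_le_pow₀ (by linarith)
    have a2 : (L : ℝ) ^ 2 ≤ (L : ℝ) ^ 4 := pow_le_pow_right₀ (by linarith) (by norm_num)
    have a3 : (21 : ℝ) ≤ (L : ℝ) ^ 4 := by nlinarith [sq_nonneg (L : ℝ), sq_nonneg ((L : ℝ) ^ 2)]
    have a4 : (L : ℝ) ^ 8 = (L : ℝ) ^ 4 * (L : ℝ) ^ 4 := by ring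
    nlinarith
  calc _ ≤ (L : ℝ) ^ 2 * Real.exp (-X) + (2 * L) * (2 * L) * (((L : ℝ) ^ 2 + (2 * L) ^ 2) * Real.exp (-X)) := add_le_add t1 t3
    _ = ((L : ℝ) ^ 2 + 20 * (L : ℝ) ^ 4) * Real.exp (-X) := by ring
    _ ≤ _ := mul_le_mul_of_nonneg_right h6 hep

/-- **THE PRICE OF A LOCAL MASS**, given an event which is blind to the rows `(u, m)`, or to the rows `(C, v)`. -/
theorem lcP (h : In μ s c₀ C₀ n₀) : ∀ ε θ : ℝ, 0 < ε → 0 < θ → ∃ δ κ c₂ : ℝ, 0 < δ ∧ 0 < κ ∧ 0 < c₂ ∧ ∃ L₀ : ℕ, ∀ L : ℕ, L₀ ≤ L →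
    ∀ N : ℕ, L ≤ 16 * N → N ≤ L → ∀ y : ℕ, y ≤ N → |(y : ℝ) - sl μ s * N| ≤ ((L : ℝ) ^ δ * wd' μ s N) →
    ∀ C m u v : ℕ, C ≤ u → u ≤ v → v ≤ m → m ≤ N → (L : ℝ) ^ θ ≤ ((v - u : ℕ) : ℝ) → ∀ x : ℝ, x ≤ (L : ℝ) ^ κ →
    ∀ F : Env → Finset ℕ → Prop, Ms F → OffRows (Ioo u m) F ∨ OffRows (Ioo C v) F →
    P1 μ s N y (fun η S => F η S ∧ Lc μ s N y C m u v x η S) ≤
      ENNReal.ofReal ((L : ℝ) ^ ε * (EE' μ s (v - u))⁻¹) * P1 μ s N y F + ENNReal.ofReal (Real.exp (-(L : ℝ) ^ c₂)) := by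
  intro ε θ hε hθ
  obtain ⟨δ₁, c₁, hδ₁, hc₁, L₁, hR⟩ := pf_right h ε θ hε hθ
  obtain ⟨δ₂, c₂, hδ₂, hc₂, L₂, hM⟩ := pf_left h ε θ hε hθ
  obtain ⟨κ, c₃, hκ, hc₃, L₃, hT⟩ := tiny42 (lt_min hc₁ hc₂)
  refine ⟨min δ₁ δ₂, κ, c₃, lt_min hδ₁ hδ₂, hκ, hc₃, L₁ + L₂ + L₃ + 1, ?_⟩
  intro L hL N hLN hNL y hyN hyc C m u v h1 h2 h3 h4 hl x hx F hF hoff
  have hL1 : 1 ≤ L := by omega
  have hLR : (1 : ℝ) ≤ L := by exact_mod_cast hL1
  have hwd : ∀ n, 0 < wd' μ s n := fun n => lt_of_lt_of_le zero_lt_one (le_max_left _ _)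
  have hcone : ∀ δ', min δ₁ δ₂ ≤ δ' → |(y : ℝ) - sl μ s * N| ≤ ((L : ℝ) ^ δ' * wd' μ s N) := fun δ' hδ' =>
    hyc.trans (mul_le_mul_of_nonneg_right (Real.rpow_le_rpow_of_exponent_le hLR hδ') (hwd N).le)
  rcases hoff with hoff | hoff
  · have hP := pl_of_pfam ((hR L (by omega) N hLN hNL y hyN (hcone _ (min_le_left _ _)) 0 N C m u v (Nat.zero_le _) h1 h3 h4 le_rfl hl ∅
      (by simp) (Gap C m u v) (fun _ _ _ _ _ _ _ hg => hg)).mono_p
        (ENNReal.ofReal_le_ofReal (Pool.Agent.W_7d29a1_Z.NumI77.exp_mono (min_le_left c₁ c₂) hL1)))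
    exact (lc_pr hyN h2 h3 h4 hP x (3 * (L : ℝ) ^ κ) hF hoff).trans (add_le_add le_rfl (hT L (by omega) N hNL x hx))
  · have hP := pl_of_pfam ((hM L (by omega) N hLN hNL y hyN (hcone _ (min_le_right _ _)) 0 N C m u v (Nat.zero_le _) h1 h3 h4 le_rfl hl ∅
      (by simp) (Gap C m u v) (fun _ _ _ _ _ _ _ hg => hg)).mono_p
        (ENNReal.ofReal_le_ofReal (Pool.Agent.W_7d29a1_Z.NumI77.exp_mono (min_le_right c₁ c₂) hL1)))
    exact (lc_pr hyN h2 h3 h4 hP x (3 * (L : ℝ) ^ κ) hF hoff).trans (add_le_add le_rfl (hT L (by omega) N hNL x hx))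

end Pool.Agent.W_7d29a1_C0.P42
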