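import Pool.Agent.W_7d29a1_C0.Slot3
import Pool.Agent.W_7d29a1_C0.Near86

/-!
C0, helper3: the named Prop `PlNear` of `Slot3` is `pl_near86` of `Near86`.
-/

set_option autoImplicit false

namespace Pool.Agent.W_7d29a1_C0.P3

open MeasureTheory ProbabilityTheory Filter Topology Finset
open Pool.Agent.W_7d29a1_F Pool.Agent.W_7d29a1_X Pool.Agent.W_7d29a1_h4g Pool.Agent.W_7d29a1_H
open Pool.Agent.W_7d29a1_HS (In wd md)
open Pool.Agent.W_7d29a1_HZ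
open Pool.Agent.W_7d29a1_C0.P86
open scoped ENNReal

variable {μ : Measure ℝ} {s : ℝ} {c₀ C₀ : ℝ} {n₀ : ℕ} [IsProbabilityMeasure μ]

theorem plNear (h : In μ s c₀ C₀ n₀) : PlNear μ s := by
  intro ε θ hε hθ
  obtain ⟨δ, c', hδ, hc', L₀, hP⟩ := pl_near86 h ε θ hε hθ
  refine ⟨δ, c', hδ, hc', L₀, fun L hL N t hLN hNL htL htN y hy0 hyN hyc τ c d hdN => ?_⟩
  refine (hP L hL N t hLN hNL htL htN y hy0 hyN hyc τ c d hdN).mono fun S S' hS => ?_
  obtain ⟨a, b', h1, h2, h3, h4, h5, h6, h7, h8⟩ := hS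
  exact ⟨a, b', h1, h2, h3, h4, by omega, h6, h7, h8⟩

end Pool.Agent.W_7d29a1_C0.P3
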