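import Pool.Agent.W_7d29a1_C0.Pair42
import Pool.Agent.W_7d29a1_C0.Slot3B

/-!
C0, helper42: DOUBLE TIES IN ONE BLOCK, part 2: THE OWN EVENT. In front of one end of the window `[j - β, j + β]` (right end `s = true`, left end
`s = false`) there is for every length `T` a stretch of length `T / 2` at the distance `T`; it is cut in `3 q` pieces `[wu, wv]`. `OwG`: at every
`T` the replica of the big block misses the path in some piece; `OwL`: the same for the local masses `Lc`. `tau_own`: the robust event on the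
whole side implies `OwG`; `owg_cut`: `OwG` is local or long; `owl_pr`: the price `L ^ ε / EE' T` of `OwL`.
-/

set_option autoImplicit false

namespace Pool.Agent.W_7d29a1_C0.P42

open MeasureTheory ProbabilityTheory Filter Topology Finset
open Pool.Agent.W_7d29a1_F Pool.Agent.W_7d29a1_X Pool.Agent.W_7d29a1_h4g Pool.Agent.W_7d29a1_H
open Pool.Agent.W_7d29a1_HS (In wd md)
open Pool.Agent.W_7d29a1_HZ Pool.Agent.W_7d29a1_HZ.R72 Pool.Agent.W_7d29a1_Z.Asm72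
open Pool.Agent.W_7d29a1_HZ.Z86
open Pool.Agent.W_7d29a1_C0.P86 Pool.Agent.W_7d29a1_C0.P15
open Pool.Agent.W_7d29a1_C0.P3 (Hy hy_ms hy_off er amp amp_ex)
open Pool.Agent.W_7d29a1_C0.Mod92 (Px Pn lw ps pJ ne_Pn ps_Pn pos_card ps_of_le ps_of_ge)
open Pool.Agent.W_7d29a1_C0.Swap57 (NI cE2)
open Pool.W7d29a1.C0 (gm gz gz_pos gm_nonneg gm_mono gm_const)
open Pool.W7d29a1.C0.VT31 (Mp cE)
open Pool.W7d29a1.C0.R43 (Tau Rp mI st swP_pJ tau_rp)
open scoped ENNReal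

variable {μ : Measure ℝ} {s : ℝ} {N : ℕ}

/-! ### The pieces -/

/-- The length of the pieces. -/
def lp (T q : ℕ) : ℕ := T / 2 / (3 * q) - 1

/-- The start of the stretch at the distance `T` of the end. -/
def w0 (β : ℕ) (s : Bool) (j T : ℕ) : ℕ := if s then j + β - T else j - β + T / 2

/-- The piece `n`. -/
def wu (β q : ℕ) (s : Bool) (j T n : ℕ) : ℕ := st (w0 β s j T) (lp T q) n

/-- Its end. -/
def wv (β q : ℕ) (s : Bool) (j T n : ℕ) : ℕ := wu β q s j T n + lp T q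

theorem st_in {τ l q n : ℕ} (hn : n < 3 * q) : τ ≤ st τ l n ∧ st τ l n + l + 1 ≤ τ + 3 * q * (l + 1) := by
  have e1 : (n + 1) * (l + 1) ≤ 3 * q * (l + 1) := Nat.mul_le_mul_right _ (by omega)
  have e2 : st τ l n + (l + 1) = τ + (n + 1) * (l + 1) := by
    unfold st
    ring
  have e3 : τ ≤ st τ l n := by
    unfold st
    exact Nat.le_add_right _ _
  exact ⟨e3, by omega⟩

theorem lp_le {T q : ℕ} (_hq : 1 ≤ q) (h : 1 ≤ lp T q) : 3 * q * (lp T q + 1) ≤ T / 2 := by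
  unfold lp at h ⊢
  have h1 : T / 2 / (3 * q) - 1 + 1 = T / 2 / (3 * q) := by omega
  rw [h1]
  exact Nat.mul_div_le _ _

/-- The whole stretch. -/
theorem w0_in {β q j T : ℕ} (s : Bool) (_hj : β ≤ j) (hT : 4 * T ≤ β) (hq : 1 ≤ q) (h : 1 ≤ lp T q) :
    (s = true → j + β - T ≤ w0 β s j T ∧ w0 β s j T + 3 * q * (lp T q + 1) ≤ j + β) ∧
      (s = false → j - β ≤ w0 β s j T ∧ w0 β s j T + 3 * q * (lp T q + 1) ≤ j - β + T) := by
  have h1 := lp_le hq h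
  refine ⟨fun hs => ?_, fun hs => ?_⟩
  · unfold w0
    rw [if_pos hs]
    omega
  · unfold w0
    rw [if_neg (by rw [hs]; exact Bool.false_ne_true)]
    omega

theorem w_in {β q j T n : ℕ} (s : Bool) (hj : β ≤ j) (hT : 4 * T ≤ β) (hq : 1 ≤ q) (h : 1 ≤ lp T q) (hn : n < 3 * q) :
    (s = true → j + β - T ≤ wu β q s j T n ∧ wv β q s j T n ≤ j + β) ∧
      (s = false → j - β ≤ wu β q s j T n ∧ wv β q s j T n ≤ j - β + T) := by
  obtain ⟨g1, g2⟩ := w0_in (q := q) s hj hT hq h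
  obtain ⟨g3, g4⟩ := st_in (τ := w0 β s j T) (l := lp T q) hn
  refine ⟨fun hs => ?_, fun hs => ?_⟩
  · obtain ⟨k1, k2⟩ := g1 hs
    unfold wv wu
    omega
  · obtain ⟨k1, k2⟩ := g2 hs
    unfold wv wu
    omega

/-- The pieces are inside of the window. -/
theorem w_mem {β q j T n : ℕ} (s : Bool) (hj : β ≤ j) (hT : 4 * T ≤ β) (hq : 1 ≤ q) (h : 1 ≤ lp T q) (hn : n < 3 * q) :
    j - β ≤ wu β q s j T n ∧ wv β q s j T n ≤ j + β ∧ wv β q s j T n = wu β q s j T n + lp T q := by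
  obtain ⟨g1, g2⟩ := w_in s hj hT hq h hn
  refine ⟨?_, ?_, rfl⟩
  · cases s with
    | true => have := (g1 rfl).1; omega
    | false => exact (g2 rfl).1
  · cases s with
    | true => exact (g1 rfl).2
    | false => have := (g2 rfl).2; omega

/-! ### The events -/

/-- At every length `T` the replica of the block `[C, D)` misses the path in some piece, with mass more than `exp (- x)`. -/
def OwG (μ : Measure ℝ) (s : ℝ) (N y C D β q : ℕ) (sd : Bool) (j : ℕ) (θ x : ℝ) (L : ℕ) (η : Env) (S : Finset ℕ) : Prop :=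
  ∀ T : ℕ, (L : ℝ) ^ θ ≤ T → 4 * T ≤ β → ∃ n ∈ range (3 * q), Hy μ s N y C D (NoMeet (wu β q sd j T n) (wv β q sd j T n)) x η S

/-- The same for the local masses. -/
def OwL (μ : Measure ℝ) (s : ℝ) (N y C m β q : ℕ) (sd : Bool) (j : ℕ) (θ x : ℝ) (L : ℕ) (η : Env) (S : Finset ℕ) : Prop :=
  ∀ T : ℕ, (L : ℝ) ^ θ ≤ T → 4 * T ≤ β → ∃ n ∈ range (3 * q), Lc μ s N y C m (wu β q sd j T n) (wv β q sd j T n) x η S

theorem ms_imp {A : Env → Finset ℕ → Prop} (P : Prop) (hA : Ms A) : Ms fun η S => P → A η S := by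
  intro S
  by_cases h : P
  · have e : {η | P → A η S} = {η | A η S} := by
      ext η
      exact ⟨fun g => g h, fun g _ => g⟩
    rw [e]
    exact hA S
  · have e : {η | P → A η S} = Set.univ := by
      ext η
      exact ⟨fun _ => Set.mem_univ _, fun _ g => absurd g h⟩
    rw [e]
    exact MeasurableSet.univ

theorem owl_ms {y C m β q : ℕ} {sd : Bool} {j : ℕ} {θ x : ℝ} {L : ℕ} : Ms (OwL μ s N y C m β q sd j θ x L) :=
  ms_all fun _ => ms_imp _ (ms_imp _ (ms_ex (range (3 * q)) fun _ => lc_ms x))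

theorem owg_ms {y C D β q : ℕ} {sd : Bool} {j : ℕ} {θ x : ℝ} {L : ℕ} : Ms (OwG μ s N y C D β q sd j θ x L) :=
  ms_all fun _ => ms_imp _ (ms_imp _ (ms_ex (range (3 * q)) fun _ => hy_ms _ x))

theorem owl_off {y C m β q : ℕ} {sd : Bool} {j : ℕ} {θ x : ℝ} {L : ℕ} (hm : m ≤ N) {J : Finset ℕ} (hJ : ∀ j ∈ J, j ≤ C ∨ m < j) :
    OffRows J (OwL μ s N y C m β q sd j θ x L) := by
  intro η η' S h
  exact forall_congr' fun T => forall_congr' fun _ => forall_congr' fun _ => exists_congr fun n => and_congr_right fun _ =>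
    lc_off (Nat.le_add_right _ _) hm x hJ η η' S h

/-- **The own event is local or long**, cut to the left block. -/
theorem owg_cutR {y C D m β q : ℕ} {sd : Bool} {j : ℕ} {θ x x' : ℝ} {L : ℕ} (hx : ((N : ℝ) + 2) * Real.exp (-x') ≤ Real.exp (-x)) (hq : 1 ≤ q)
    (h1 : C + β ≤ j) (_h2 : j + β ≤ m) (h3 : m ≤ D) (h4 : D ≤ N) (hlp : ∀ T : ℕ, (L : ℝ) ^ θ ≤ T → 1 ≤ lp T q) {η : Env} {S : Finset ℕ}
    (h : OwG μ s N y C D β q sd j θ x L η S) :
    OwL μ s N y C m β q sd j θ x' L η S ∨ Hy μ s N y C D (NoMeet (j + β) m) x' η S := by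
  by_cases hl : Hy μ s N y C D (NoMeet (j + β) m) x' η S
  · exact Or.inr hl
  · refine Or.inl fun T hT1 hT2 => ?_
    obtain ⟨n, hn, hH⟩ := h T hT1 hT2
    obtain ⟨g1, g2, g3⟩ := w_mem sd (by omega : β ≤ j) hT2 hq (hlp T hT1) (mem_range.1 hn)
    refine ⟨n, hn, (hy_cutR (by omega) (by omega) h3 h4 hx hH).resolve_right fun hc => hl ?_⟩
    exact lt_of_lt_of_le hc (Pool.Agent.W_7d29a1_C0.P86.mc_mono (fun S S' _ _ _ _ _ g k hk1 hk2 => g k (by omega) hk2) η S)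

/-- The same, cut to the right block. -/
theorem owg_cutL {y C D m β q : ℕ} {sd : Bool} {j : ℕ} {θ x x' : ℝ} {L : ℕ} (hx : ((N : ℝ) + 2) * Real.exp (-x') ≤ Real.exp (-x)) (hq : 1 ≤ q)
    (h1 : C ≤ m) (h2 : m + β ≤ j) (h3 : j + β ≤ D) (h4 : D ≤ N) (hlp : ∀ T : ℕ, (L : ℝ) ^ θ ≤ T → 1 ≤ lp T q) {η : Env} {S : Finset ℕ}
    (h : OwG μ s N y C D β q sd j θ x L η S) :
    OwL μ s N y m D β q sd j θ x' L η S ∨ Hy μ s N y C D (NoMeet m (j - β)) x' η S := by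
  by_cases hl : Hy μ s N y C D (NoMeet m (j - β)) x' η S
  · exact Or.inr hl
  · refine Or.inl fun T hT1 hT2 => ?_
    obtain ⟨n, hn, hH⟩ := h T hT1 hT2
    obtain ⟨g1, g2, g3⟩ := w_mem sd (by omega : β ≤ j) hT2 hq (hlp T hT1) (mem_range.1 hn)
    refine ⟨n, hn, (hy_cutL h1 (by omega) (by omega) h4 hx hH).resolve_right fun hc => hl ?_⟩
    exact lt_of_lt_of_le hc (Pool.Agent.W_7d29a1_C0.P86.mc_mono (fun S S' _ _ _ _ _ g k hk1 hk2 => g k hk1 (by omega)) η S)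

/-! ### From `Tau` -/

/-- For every environment the paths with `Tau` and without the masses on the pieces are rare. -/
theorem tau_fix {y c d : ℕ} (hy : y ≤ N) (hcd : c ≤ d) (τ l q : ℕ) {M : ℝ} (hM : 8 ≤ M) (hq : 10 * M ≤ q)
    (hq' : (q : ℝ) ≤ 20 * M) {E : ℕ} (hE : τ + 3 * q * (l + 1) ≤ E) (η : Env) :
    ∑ S ∈ (range N).powerset, ENNReal.ofReal (gp μ s η N y S) * ind (TauS μ s N y c d τ E M η S ∧ ¬ RpS μ s N y c d τ l q M η S) ≤
      ENNReal.ofReal (Real.exp (-M)) := by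
  classical
  have := ne_Pn (N := N) (y := y) hy
  have h1 := tau_rp (μ := μ) (s := s) (N := N) (Q := Pn N y) η (swP_pJ hcd) τ l q hM hq hq' hE
  obtain ⟨B, hB⟩ : ∃ B : Finset ℕ → Prop, B = fun S => TauS μ s N y c d τ E M η S ∧ ¬ RpS μ s N y c d τ l q M η S := ⟨_, rfl⟩
  have hRp : ∀ S : Px (Pn N y), Rp (lw μ s η N (Pn N y)) (pJ c d) τ l q M S ↔ RpS μ s N y c d τ l q M η S.1 := by
    intro S
    unfold Rp RpS
    refine exists_congr fun n => and_congr_right fun _ => ?_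
    rw [← mI_mc η S.2]
  have hTau : ∀ S : Px (Pn N y), Tau (lw μ s η N (Pn N y)) (pJ c d) τ E M S ↔ TauS μ s N y c d τ E M η S.1 := fun S =>
    ⟨fun h => ⟨S.2, h⟩, fun ⟨_, h⟩ => h⟩
  have h2 : gm (lw μ s η N (Pn N y)) (fun S => if B S.1 then (1 : ℝ) else 0) ≤ Real.exp (-M) := by
    refine le_trans (le_of_eq ?_) h1
    congr 1
    funext S
    have hb : B S.1 ↔ (Tau (lw μ s η N (Pn N y)) (pJ c d) τ E M S ∧ ¬ Rp (lw μ s η N (Pn N y)) (pJ c d) τ l q M S) := by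
      rw [hB]
      exact and_congr (hTau S).symm (not_congr (hRp S).symm)
    by_cases h : B S.1
    · rw [if_pos h, if_pos (hb.1 h)]
    · rw [if_neg h, if_neg fun h' => h (hb.2 h')]
  rw [Pool.Agent.W_7d29a1_C0.Bri36.gm_Pn η fun S => if B S then (1 : ℝ) else 0] at h2
  have e1 : ∀ S ∈ (range N).powerset, ENNReal.ofReal (gp μ s η N y S) * ind (TauS μ s N y c d τ E M η S ∧ ¬ RpS μ s N y c d τ l q M η S) =
      ENNReal.ofReal (gp μ s η N y S * if B S then 1 else 0) := by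
    intro S _
    by_cases h : B S
    · rw [ind_of (by rw [hB] at h; exact h), if_pos h, mul_one, mul_one]
    · rw [ind_not (fun h' => h (by rw [hB]; exact h')), if_neg h, mul_zero, mul_zero, ENNReal.ofReal_zero]
  rw [sum_congr rfl e1, ← ENNReal.ofReal_sum_of_nonneg fun S _ => mul_nonneg (Pool.Agent.W_7d29a1_HZ.gp_nonneg η N y S)
    (by split_ifs <;> norm_num)]
  exact ENNReal.ofReal_le_ofReal h2

/-- `Tau` on a smaller interval. -/
theorem tauS_mono {y c d i j i' j' : ℕ} (hy : y ≤ N) (hi : i ≤ i') (hj : j' ≤ j) {M : ℝ} {η : Env} {S : Finset ℕ}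
    (h : TauS μ s N y c d i j M η S) : TauS μ s N y c d i' j' M η S := by
  have := ne_Pn (N := N) (y := y) hy
  obtain ⟨hS, h1⟩ := h
  refine ⟨hS, ?_⟩
  unfold Tau at h1 ⊢
  refine h1.trans ?_
  have hK : ∀ z z' : Px (Pn N y), NI i j z z' ≤ NI i' j' z z' := by
    intro z z'
    unfold NI
    by_cases g : ∀ k : ℕ, i ≤ k → k ≤ j → ps z k ≠ ps z' k
    · rw [if_pos g, if_pos fun k hk1 hk2 => g k (by omega) (by omega)]
    · rw [if_neg g]
      split_ifs <;> norm_num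
  unfold cE2
  exact Pool.W7d29a1.C0.VT31.cE_mono _ _ (fun z => Pool.W7d29a1.C0.VT31.cE_mono _ _ (hK z) _) _

/-- **From the robust event on the side to the own event.** -/
theorem tau_own [IsProbabilityMeasure μ] {y C D β q : ℕ} {sd : Bool} {j : ℕ} {θ : ℝ} {L : ℕ} (hy : y ≤ N) (hCD : C ≤ D) {M : ℝ} (hM : 8 ≤ M)
    (hq : 10 * M ≤ q) (hq' : (q : ℝ) ≤ 20 * M) (hlp : ∀ T : ℕ, (L : ℝ) ^ θ ≤ T → 1 ≤ lp T q) (hj : β ≤ j) (hβ : β ≤ N) {i₁ i₂ : ℕ}
    (hR : sd = true → 4 * i₁ ≤ 4 * j + 3 * β ∧ j + β ≤ i₂) (hL : sd = false → i₁ ≤ j - β ∧ 4 * j ≤ 4 * i₂ + 3 * β)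
    {f : Env → Finset ℕ → ℝ≥0∞} (hf : ∀ η S, f η S ≤ 1) :
    Q1 μ s N y (fun η S => f η S * ind (TauS μ s N y C D i₁ i₂ M η S)) ≤
      Q1 μ s N y (fun η S => f η S * ind (OwG μ s N y C D β q sd j θ (7 * M) L η S)) + (N + 1) * ENNReal.ofReal (Real.exp (-M)) := by
  classical
  have hq1 : 1 ≤ q := by
    have : (0 : ℝ) < q := by linarith
    exact_mod_cast this
  refine Q1_add_const fun η => ?_
  have h1 : ∑ T ∈ range (N + 1), ∑ S ∈ (range N).powerset, ENNReal.ofReal (gp μ s η N y S) *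
      ind (TauS μ s N y C D (w0 β sd j T) (w0 β sd j T + 3 * q * (lp T q + 1)) M η S ∧ ¬ RpS μ s N y C D (w0 β sd j T) (lp T q) q M η S) ≤
      (N + 1) * ENNReal.ofReal (Real.exp (-M)) := by
    refine (sum_le_sum fun T _ => tau_fix hy hCD (w0 β sd j T) (lp T q) q hM hq hq' le_rfl η).trans (le_of_eq ?_)
    rw [sum_const, card_range, nsmul_eq_mul]
    push_cast
    rfl
  refine le_trans ?_ (add_le_add (le_refl (∑ S ∈ (range N).powerset, ENNReal.ofReal (gp μ s η N y S) *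
    (f η S * ind (OwG μ s N y C D β q sd j θ (7 * M) L η S)))) h1)
  rw [sum_comm, ← sum_add_distrib]
  refine sum_le_sum fun S _ => ?_
  rw [← mul_sum, ← mul_add]
  refine mul_le_mul' le_rfl ?_
  by_cases hT : TauS μ s N y C D i₁ i₂ M η S
  · by_cases hO : OwG μ s N y C D β q sd j θ (7 * M) L η S
    · rw [ind_of hT, ind_of hO]
      exact le_self_add
    · refine le_trans ?_ le_add_self
      rw [ind_of hT, mul_one]
      refine (hf η S).trans ?_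
      unfold OwG at hO
      push Not at hO
      obtain ⟨T, hT1, hT2, hT3⟩ := hO
      obtain ⟨g1, g2⟩ := w0_in (q := q) sd hj hT2 hq1 (hlp T hT1)
      have hTN : T ∈ range (N + 1) := mem_range.2 (by omega)
      refine le_trans (le_of_eq ?_) (single_le_sum (f := fun T => ind (TauS μ s N y C D (w0 β sd j T)
        (w0 β sd j T + 3 * q * (lp T q + 1)) M η S ∧ ¬ RpS μ s N y C D (w0 β sd j T) (lp T q) q M η S)) (fun _ _ => zero_le) hTN)
      symm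
      refine ind_of ⟨tauS_mono hy ?_ ?_ hT, fun hR' => ?_⟩
      · cases sd with
        | true =>
          have k1 := hR rfl
          have k2 := g1 rfl
          omega
        | false =>
          have k1 := hL rfl
          have k2 := g2 rfl
          omega
      · cases sd with
        | true =>
          have k1 := hR rfl
          have k2 := g1 rfl
          omega
        | false =>
          have k1 := hL rfl
          have k2 := g2 rfl
          omega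
      · obtain ⟨n, hn, hn'⟩ := hR'
        exact hT3 n (mem_range.2 hn) hn'
  · rw [ind_not hT, mul_zero]
    exact zero_le

/-! ### The price of the local own event -/

theorem lp_num {θ κ : ℝ} (hθ : 0 < θ) (hκ : κ < θ / 2) : ∃ L₀ : ℕ, ∀ L : ℕ, L₀ ≤ L → ∀ q : ℕ, 1 ≤ q → (q : ℝ) ≤ (L : ℝ) ^ κ →
    ∀ T : ℕ, (L : ℝ) ^ θ ≤ T → (L : ℝ) ^ (θ / 2) ≤ lp T q ∧ 1 ≤ lp T q ∧ T ≤ 18 * q * lp T q := by
  obtain ⟨a3, b3⟩ := ev_mul86 200 (show κ + θ / 2 < θ by linarith)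
  refine ⟨a3 + 1, fun L hL q hq hqL T hT => ?_⟩
  have hL0 : (0 : ℝ) < L := by exact_mod_cast (show 0 < L by omega)
  have hL1 : (1 : ℝ) ≤ L := by exact_mod_cast (show 1 ≤ L by omega)
  have c3 := b3 L (by omega)
  rw [Real.rpow_add hL0] at c3
  have hT1 : (1 : ℝ) ≤ (L : ℝ) ^ (θ / 2) := Real.one_le_rpow hL1 (by linarith)
  have hK0 : 0 < (L : ℝ) ^ κ := Real.rpow_pos_of_pos hL0 _
  obtain ⟨e, he⟩ : ∃ e, e = T / 2 / (3 * q) := ⟨_, rfl⟩
  have e2 : T / 2 < 3 * q * (e + 1) := by rw [he]; exact Nat.lt_mul_div_succ _ (by omega)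
  have e3 : T ≤ 6 * q * (e + 1) := by
    have : 6 * q * (e + 1) = 2 * (3 * q * (e + 1)) := by ring
    omega
  have e4 : (L : ℝ) ^ (θ / 2) + 4 ≤ (e : ℝ) + 1 := by
    by_contra hcon
    push Not at hcon
    have g1 : (T : ℝ) ≤ 6 * q * (e + 1) := by exact_mod_cast e3
    have g2 : 6 * (q : ℝ) * (e + 1) ≤ 6 * (L : ℝ) ^ κ * ((L : ℝ) ^ (θ / 2) + 4) := by
      have : (0 : ℝ) ≤ (e : ℝ) + 1 := by positivity
      gcongr
    have g3 : 6 * (L : ℝ) ^ κ * ((L : ℝ) ^ (θ / 2) + 4) ≤ 30 * ((L : ℝ) ^ κ * (L : ℝ) ^ (θ / 2)) := by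
      nlinarith
    have g4 : 0 < (L : ℝ) ^ κ * (L : ℝ) ^ (θ / 2) := by positivity
    linarith
  have e5 : 4 ≤ e := by
    have : (4 : ℝ) ≤ e := by linarith
    exact_mod_cast this
  unfold lp
  rw [← he]
  refine ⟨?_, by omega, ?_⟩
  · rw [Nat.cast_sub (by omega), Nat.cast_one]
    linarith
  · have : e + 1 ≤ 3 * (e - 1) := by omega
    calc T ≤ 6 * q * (e + 1) := e3
      _ ≤ 6 * q * (3 * (e - 1)) := Nat.mul_le_mul_left _ this
      _ = 18 * q * (e - 1) := by ring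

/-- **THE PRICE OF THE LOCAL OWN EVENT.** -/
theorem owl_pr [IsProbabilityMeasure μ] {c₀ C₀ : ℝ} {n₀ : ℕ} (h : In μ s c₀ C₀ n₀) : ∀ ε θ : ℝ, 0 < ε → 0 < θ → ∃ δ κ c₂ : ℝ, 0 < δ ∧ 0 < κ ∧
    0 < c₂ ∧ ∃ L₀ : ℕ, ∀ L : ℕ, L₀ ≤ L → ∀ N : ℕ, L ≤ 16 * N → N ≤ L → ∀ y : ℕ, y ≤ N → |(y : ℝ) - sl μ s * N| ≤ ((L : ℝ) ^ δ * wd' μ s N) →
    ∀ C m β q j : ℕ, ∀ sd : Bool, 1 ≤ q → (q : ℝ) ≤ (L : ℝ) ^ κ → C + β ≤ j → j + β ≤ m → m ≤ N → ∀ x : ℝ, x ≤ (L : ℝ) ^ κ →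
    ∀ T : ℕ, (L : ℝ) ^ θ ≤ T → 4 * T ≤ β → ∀ G : Env → Finset ℕ → Prop, Ms G →
    (sd = true → OffRows (Ioo (j + β - T) m) G) → (sd = false → OffRows (Ioo C (j - β + T)) G) →
    P1 μ s N y (fun η S => G η S ∧ OwL μ s N y C m β q sd j θ x L η S) ≤
      ENNReal.ofReal ((L : ℝ) ^ ε * (EE' μ s T)⁻¹) * P1 μ s N y G + ENNReal.ofReal (Real.exp (-(L : ℝ) ^ c₂)) := by
  intro ε θ hε hθ
  obtain ⟨δ, κ₁, c₁, hδ, hκ₁, hc₁, L₁, hP⟩ := lcP h (ε / 2) (θ / 2) (by positivity) (by positivity)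
  obtain ⟨c₂, hc₂, -, L₂, hX⟩ := Pool.Agent.W_7d29a1_Z.NumI77.pow_exp hc₁ 2
  obtain ⟨κ, hκd⟩ : ∃ κ, κ = min κ₁ (min (ε / 8) (min (θ / 4) (1 / 2))) := ⟨_, rfl⟩
  have hκ : 0 < κ := by
    rw [hκd]
    exact lt_min hκ₁ (lt_min (by positivity) (lt_min (by positivity) (by norm_num)))
  have k1 : κ ≤ κ₁ := by rw [hκd]; exact min_le_left _ _
  have k2 : κ ≤ ε / 8 := by rw [hκd]; exact (min_le_right _ _).trans (min_le_left _ _)
  have k3 : κ ≤ θ / 4 := by rw [hκd]; exact (min_le_right _ _).trans ((min_le_right _ _).trans (min_le_left _ _))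
  have k4 : κ ≤ 1 / 2 := by rw [hκd]; exact (min_le_right _ _).trans ((min_le_right _ _).trans (min_le_right _ _))
  obtain ⟨L₃, hN⟩ := lp_num hθ (show κ < θ / 2 by linarith)
  obtain ⟨L₄, hE⟩ := ev_mul86 54 (show κ + κ < ε / 2 by linarith)
  refine ⟨δ, κ, c₂, hδ, hκ, hc₂, L₁ + L₂ + L₃ + L₄ + 9, ?_⟩
  intro L hL N hLN hNL y hyN hyc C m β q j sd hq hqL hC hm hmN x hx T hT1 hT2 G hG hGR hGL
  have hL9 : (9 : ℝ) ≤ L := by exact_mod_cast (show 9 ≤ L by omega)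
  have hL0 : (0 : ℝ) < L := by linarith
  have hL1 : (1 : ℝ) ≤ L := by linarith
  obtain ⟨n1, n2, n3⟩ := hN L (by omega) q hq hqL T hT1
  have hEp : ∀ t, 0 < EE' μ s t := fun t => lt_of_lt_of_le zero_lt_one (le_max_left _ _)
  have hqL' : (q : ℝ) ≤ L ^ (1 / 2 : ℝ) := hqL.trans (Real.rpow_le_rpow_of_exponent_le hL1 k4)
  have hone : ∀ n ∈ range (3 * q), P1 μ s N y (fun η S => G η S ∧ Lc μ s N y C m (wu β q sd j T n) (wv β q sd j T n) x η S) ≤
      ENNReal.ofReal ((L : ℝ) ^ (ε / 2) * (EE' μ s (lp T q))⁻¹) * P1 μ s N y G + ENNReal.ofReal (Real.exp (-(L : ℝ) ^ c₁)) := by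
    intro n hn
    obtain ⟨g1, g2⟩ := w_in (q := q) sd (show β ≤ j by omega) hT2 hq n2 (mem_range.1 hn)
    obtain ⟨g3, g4, g5⟩ := w_mem (q := q) sd (show β ≤ j by omega) hT2 hq n2 (mem_range.1 hn)
    have hlen : wv β q sd j T n - wu β q sd j T n = lp T q := by omega
    have h1 := hP L (by omega) N hLN hNL y hyN hyc C m (wu β q sd j T n) (wv β q sd j T n) (by omega) (by omega) (by omega) hmN
      (by rw [hlen]; exact n1) x (hx.trans (Real.rpow_le_rpow_of_exponent_le hL1 k1)) G hG ?_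
    · rwa [hlen] at h1
    · cases sd with
      | true =>
        left
        have := g1 rfl
        exact Pool.Agent.W_7d29a1_HZ.ZE.OffRows.mono36 (fun a ha => by rw [mem_Ioo] at ha ⊢; omega) (hGR rfl)
      | false =>
        right
        have := g2 rfl
        exact Pool.Agent.W_7d29a1_HZ.ZE.OffRows.mono36 (fun a ha => by rw [mem_Ioo] at ha ⊢; omega) (hGL rfl)
  have hsub : P1 μ s N y (fun η S => G η S ∧ OwL μ s N y C m β q sd j θ x L η S) ≤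
      P1 μ s N y (fun η S => ∃ n ∈ range (3 * q), G η S ∧ Lc μ s N y C m (wu β q sd j T n) (wv β q sd j T n) x η S) :=
    A12.P1_mono fun η S ⟨g1, g2⟩ => by
      obtain ⟨n, hn, hn'⟩ := g2 T hT1 hT2
      exact ⟨n, hn, g1, hn'⟩
  refine hsub.trans ((A12.P1_exists (μ := μ) (s := s) (N := N) (y := y) (range (3 * q)) fun n η S =>
    G η S ∧ Lc μ s N y C m (wu β q sd j T n) (wv β q sd j T n) x η S).trans ((sum_le_sum hone).trans ?_))
  rw [sum_const, card_range, nsmul_eq_mul, mul_add, ← mul_assoc]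
  have hc : ((3 * q : ℕ) : ℝ≥0∞) = ENNReal.ofReal (3 * q) := by
    rw [← ENNReal.ofReal_natCast]
    push_cast
    rfl
  rw [hc]
  refine add_le_add (mul_le_mul' ?_ le_rfl) ?_
  · rw [← ENNReal.ofReal_mul (by positivity)]
    refine ENNReal.ofReal_le_ofReal ?_
    have e1 : EE' μ s T ≤ ((18 * q : ℕ) : ℝ) * EE' μ s (lp T q) := EE'_le_mul86 h (by omega) n3
    push_cast at e1
    have e2 : (EE' μ s (lp T q))⁻¹ ≤ 18 * q * (EE' μ s T)⁻¹ := by
      rw [inv_le_iff_one_le_mul₀ (hEp _), mul_assoc]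
      have : (EE' μ s T)⁻¹ * EE' μ s T = 1 := inv_mul_cancel₀ (hEp _).ne'
      calc (1 : ℝ) = (EE' μ s T)⁻¹ * EE' μ s T := this.symm
        _ ≤ (EE' μ s T)⁻¹ * (18 * q * EE' μ s (lp T q)) := mul_le_mul_of_nonneg_left e1 (inv_nonneg.2 (hEp _).le)
        _ = _ := by ring
    have e3 : 54 * ((q : ℝ) * q) ≤ (L : ℝ) ^ (ε / 2) := by
      refine le_trans ?_ (hE L (by omega))
      rw [Real.rpow_add hL0]
      gcongr
    have hi : 0 ≤ (EE' μ s T)⁻¹ := (inv_pos.2 (hEp T)).le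
    have hLp : 0 ≤ (L : ℝ) ^ (ε / 2) := by positivity
    calc 3 * (q : ℝ) * ((L : ℝ) ^ (ε / 2) * (EE' μ s (lp T q))⁻¹) ≤ 3 * (q : ℝ) * ((L : ℝ) ^ (ε / 2) * (18 * q * (EE' μ s T)⁻¹)) := by gcongr
      _ = 54 * ((q : ℝ) * q) * ((L : ℝ) ^ (ε / 2) * (EE' μ s T)⁻¹) := by ring
      _ ≤ (L : ℝ) ^ (ε / 2) * ((L : ℝ) ^ (ε / 2) * (EE' μ s T)⁻¹) := mul_le_mul_of_nonneg_right e3 (by positivity)
      _ = (L : ℝ) ^ ε * (EE' μ s T)⁻¹ := by rw [← mul_assoc, ← Real.rpow_add hL0, add_halves]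
  · rw [← ENNReal.ofReal_mul (by positivity)]
    refine ENNReal.ofReal_le_ofReal (le_trans ?_ (hX L (by omega)))
    refine mul_le_mul_of_nonneg_right ?_ (Real.exp_pos _).le
    have g1 : (L : ℝ) ^ (1 / 2 : ℝ) ≤ L := by
      calc (L : ℝ) ^ (1 / 2 : ℝ) ≤ (L : ℝ) ^ (1 : ℝ) := Real.rpow_le_rpow_of_exponent_le hL1 (by norm_num)
        _ = L := Real.rpow_one _
    have g2 : (L : ℝ) ^ (2 : ℝ) = L * L := by
      rw [show (2 : ℝ) = 1 + 1 by norm_num, Real.rpow_add hL0, Real.rpow_one]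
    rw [g2]
    nlinarith

end Pool.Agent.W_7d29a1_C0.P42
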