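import Pool.Agent.W_7d29a1_C0.Pair42B
import Pool.Agent.W_7d29a1_C0.Site15L

/-!
C0, helper42: DOUBLE TIES IN ONE BLOCK, part 3: the prices. `MicE`: the micro replica of the block `[j - β, j + β)` misses the path in one of
`3 q` pieces. `siteB`: the double tie (micro, local own), summed over a stretch of rows (over `site_coreR`, `site_coreL` of helper15), given an
event blind to the rows up to `R₀`. `micP`: one micro tie. `longP`: a long gap of the big block between two micro ties.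
-/

set_option autoImplicit false

namespace Pool.Agent.W_7d29a1_C0.P42

open MeasureTheory ProbabilityTheory Filter Topology Finset
open Pool.Agent.W_7d29a1_F Pool.Agent.W_7d29a1_X Pool.Agent.W_7d29a1_h4g Pool.Agent.W_7d29a1_H
open Pool.Agent.W_7d29a1_HS (In wd md)
open Pool.Agent.W_7d29a1_HZ Pool.Agent.W_7d29a1_HZ.R72 Pool.Agent.W_7d29a1_Z.Asm72
open Pool.Agent.W_7d29a1_HZ.Z86
open Pool.Agent.W_7d29a1_C0.P86 Pool.Agent.W_7d29a1_C0.P15
open Pool.Agent.W_7d29a1_C0.P3 (Hy hy_ms hy_off er amp amp_ex)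
open Pool.W7d29a1.C0.R43 (st)
open scoped ENNReal

variable {μ : Measure ℝ} {s : ℝ} {N : ℕ}

/-- The micro event. -/
def MicE (μ : Measure ℝ) (s : ℝ) (N y β lm q τ j : ℕ) (x : ℝ) (η : Env) (S : Finset ℕ) : Prop :=
  ∃ n ∈ range (3 * q), Hy μ s N y (j - β) (j + β) (NoMeet (st τ lm n) (st τ lm n + lm)) x η S

theorem mic_ms {y β lm q τ j : ℕ} {x : ℝ} : Ms (MicE μ s N y β lm q τ j x) := ms_ex (range (3 * q)) fun _ => hy_ms _ x

theorem mic_off {y β lm q τ j : ℕ} {x : ℝ} (hN : j + β ≤ N) {J : Finset ℕ} (hJ : ∀ i ∈ J, i ≤ j - β ∨ j + β < i) :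
    OffRows J (MicE μ s N y β lm q τ j x) := by
  intro η η' S h
  exact exists_congr fun n => and_congr_right fun _ => hy_off (by omega) hN _ x hJ η η' S h

variable [IsProbabilityMeasure μ] {c₀ C₀ : ℝ} {n₀ : ℕ}

/-- **THE DOUBLE TIE, SUMMED OVER A STRETCH**, both sides. -/
theorem siteB (h : In μ s c₀ C₀ n₀) : ∀ ε θ : ℝ, 0 < ε → 0 < θ → ∃ θ' : ℝ, 0 < θ' ∧ θ' ≤ θ ∧ ∃ δ κ c₂ : ℝ, 0 < δ ∧ 0 < κ ∧ 0 < c₂ ∧
    ∃ L₀ : ℕ, ∀ L : ℕ, L₀ ≤ L → ∀ N : ℕ, L ≤ 16 * N → N ≤ L → ∀ y : ℕ, y ≤ N → |(y : ℝ) - sl μ s * N| ≤ ((L : ℝ) ^ δ * wd' μ s N) →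
    ∀ β lm q C m lo R₀ : ℕ, ∀ sd : Bool, (L : ℝ) ^ θ ≤ β → (L : ℝ) ^ θ ≤ lm → 1 ≤ q → (q : ℝ) ≤ (L : ℝ) ^ κ → m ≤ N → β ≤ lo →
    m ≤ R₀ → lo + 3 * β ≤ R₀ →
    ∀ JJ : Finset ℕ, (∀ j ∈ JJ, lo ≤ j ∧ j < lo + β / 64 ∧ C + β ≤ j ∧ j + β ≤ m) →
    ∀ τ : ℕ → ℕ, (∀ j ∈ JJ, j ≤ τ j + β / 2 ∧ τ j + 3 * q * (lm + 1) ≤ j + β / 2) → ∀ x : ℝ, x ≤ (L : ℝ) ^ κ →
    ∀ F : Env → Finset ℕ → Prop, Ms F → OffRows (range (R₀ + 1)) F →
    ∑ j ∈ JJ, P1 μ s N y (fun η S => F η S ∧ MicE μ s N y β lm q (τ j) j x η S ∧ OwL μ s N y C m β q sd j θ' x L η S) ≤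
      ENNReal.ofReal ((L : ℝ) ^ ε * ((β * (EE' μ s β)⁻¹ + JJ.card * (EE' μ s lm)⁻¹) * (EE' μ s β)⁻¹)) * P1 μ s N y F +
        ENNReal.ofReal (Real.exp (-(L : ℝ) ^ c₂)) := by
  intro ε θ hε hθ
  obtain ⟨ε₁, θ₁, hε₁, hθ₁, hθ₁', hR⟩ := site_coreR h (ε / 2) θ (by positivity) hθ
  obtain ⟨ε₂, θ₂, hε₂, hθ₂, hθ₂', hLc⟩ := site_coreL h (ε / 2) θ (by positivity) hθ
  obtain ⟨θ', hθd⟩ : ∃ θ', θ' = min θ₁ θ₂ := ⟨_, rfl⟩
  have hθ' : 0 < θ' := by rw [hθd]; exact lt_min hθ₁ hθ₂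
  have hθ1 : θ' ≤ θ₁ := by rw [hθd]; exact min_le_left _ _
  have hθ2 : θ' ≤ θ₂ := by rw [hθd]; exact min_le_right _ _
  obtain ⟨δ₀, κ₀, c₁, hδ₀, hκ₀, hc₁, L₁, hO⟩ := owl_pr h (min ε₁ ε₂) θ' (lt_min hε₁ hε₂) hθ'
  obtain ⟨δ₁, κ₁, d₁, hδ₁, hκ₁, hd₁, L₂, hR⟩ := hR c₁ hc₁
  obtain ⟨δ₂, κ₂, d₂, hδ₂, hκ₂, hd₂, L₃, hLc⟩ := hLc c₁ hc₁
  obtain ⟨c₂, hc₂, -, L₄, hX⟩ := Pool.Agent.W_7d29a1_Z.NumI77.pow_exp (lt_min hd₁ hd₂) 2
  obtain ⟨κ, hκd⟩ : ∃ κ, κ = min κ₀ (min κ₁ (min κ₂ (min (ε / 4) (1 / 2)))) := ⟨_, rfl⟩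
  have hκ : 0 < κ := by
    rw [hκd]
    exact lt_min hκ₀ (lt_min hκ₁ (lt_min hκ₂ (lt_min (by positivity) (by norm_num))))
  have k0 : κ ≤ κ₀ := by rw [hκd]; exact min_le_left _ _
  have k1 : κ ≤ κ₁ := by rw [hκd]; exact (min_le_right _ _).trans (min_le_left _ _)
  have k2 : κ ≤ κ₂ := by rw [hκd]; exact (min_le_right _ _).trans ((min_le_right _ _).trans (min_le_left _ _))
  have k3 : κ ≤ ε / 4 := by
    rw [hκd]
    exact (min_le_right _ _).trans ((min_le_right _ _).trans ((min_le_right _ _).trans (min_le_left _ _)))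
  have k4 : κ ≤ 1 / 2 := by
    rw [hκd]
    exact (min_le_right _ _).trans ((min_le_right _ _).trans ((min_le_right _ _).trans (min_le_right _ _)))
  obtain ⟨L₅, hE⟩ := ev_mul86 3 (show κ < ε / 2 by linarith)
  refine ⟨θ', hθ', hθ1.trans hθ₁', min δ₀ (min δ₁ δ₂), κ, c₂, lt_min hδ₀ (lt_min hδ₁ hδ₂), hκ, hc₂, L₁ + L₂ + L₃ + L₄ + L₅ + 9, ?_⟩
  intro L hL N hLN hNL y hyN hyc β lm q C m lo R₀ sd hβ hlm hq hqL hmN hlo hmR hloR JJ hJJ τ hτ x hx F hF hFo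
  have hL9 : (9 : ℝ) ≤ L := by exact_mod_cast (show 9 ≤ L by omega)
  have hL0 : (0 : ℝ) < L := by linarith
  have hL1 : (1 : ℝ) ≤ L := by linarith
  have hwd : ∀ n, 0 < wd' μ s n := fun n => lt_of_lt_of_le zero_lt_one (le_max_left _ _)
  have hcone : ∀ δ', min δ₀ (min δ₁ δ₂) ≤ δ' → |(y : ℝ) - sl μ s * N| ≤ ((L : ℝ) ^ δ' * wd' μ s N) := fun δ' hδ' =>
    hyc.trans (mul_le_mul_of_nonneg_right (Real.rpow_le_rpow_of_exponent_le hL1 hδ') (hwd N).le)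
  have hxx : ∀ κ', κ ≤ κ' → x ≤ (L : ℝ) ^ κ' := fun κ' hk => hx.trans (Real.rpow_le_rpow_of_exponent_le hL1 hk)
  have hEp : ∀ t, 0 < EE' μ s t := fun t => lt_of_lt_of_le zero_lt_one (le_max_left _ _)
  -- one piece
  have hone : ∀ n ∈ range (3 * q), ∑ j ∈ JJ, P1 μ s N y (fun η S => F η S ∧ Hy μ s N y (j - β) (j + β)
      (NoMeet (st (τ j) lm n) (st (τ j) lm n + lm)) x η S ∧ OwL μ s N y C m β q sd j θ' x L η S) ≤
      ENNReal.ofReal ((L : ℝ) ^ (ε / 2) * ((β * (EE' μ s β)⁻¹ + JJ.card * (EE' μ s lm)⁻¹) * (EE' μ s β)⁻¹)) * P1 μ s N y F +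
        ENNReal.ofReal (Real.exp (-(L : ℝ) ^ (min d₁ d₂))) := by
    intro n hn
    have hst : ∀ j, τ j ≤ st (τ j) lm n ∧ st (τ j) lm n + lm + 1 ≤ τ j + 3 * q * (lm + 1) := fun j =>
      st_in (mem_range.1 hn)
    cases sd with
    | true =>
      obtain ⟨hi, hhi⟩ : ∃ hi, hi = min (lo + β + β / 64 - 1) N := ⟨_, rfl⟩
      have h1 := hR L (by omega) N hLN hNL y hyN (hcone _ ((min_le_right _ _).trans (min_le_left _ _))) β lm hi (m - 1 - hi) hβ hlm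
        (by omega) JJ (fun j hj => by have := hJJ j hj; omega) (fun j => st (τ j) lm n) (fun j => st (τ j) lm n + lm)
        (fun j hj => by have := hτ j hj; have := hst j; show j ≤ st (τ j) lm n + β ∧ st (τ j) lm n + lm ≤ j + β / 2 ∧ st (τ j) lm n + lm ≤ st (τ j) lm n + lm; omega)
        (fun j => OwL μ s N y C m β q true j θ' x L) (fun j hj T hT1 hT2 G hG hGo => ?_) x (hxx _ k1) F hF
        (Pool.Agent.W_7d29a1_HZ.ZE.OffRows.mono36 (fun a ha => by rw [mem_Ioc] at ha; rw [mem_range]; omega) hFo)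
      · refine h1.trans (add_le_add le_rfl (ENNReal.ofReal_le_ofReal (Pool.Agent.W_7d29a1_Z.NumI77.exp_mono (min_le_left _ _) (by omega))))
      · have hJ := hJJ j hj
        have h2 := hO L (by omega) N hLN hNL y hyN (hcone _ (min_le_left _ _)) C m β q j true hq
          (hqL.trans (Real.rpow_le_rpow_of_exponent_le hL1 k0)) (by omega) (by omega) hmN x (hxx _ k0) T
          (le_trans (Real.rpow_le_rpow_of_exponent_le hL1 hθ1) hT1) hT2 G hG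
          (fun _ => Pool.Agent.W_7d29a1_HZ.ZE.OffRows.mono36 (fun a ha => by rw [mem_Ioo] at ha; rw [mem_Ioc]; omega) hGo)
          (fun hc => absurd hc (by simp))
        refine h2.trans (add_le_add (mul_le_mul' (ENNReal.ofReal_le_ofReal ?_) le_rfl) le_rfl)
        exact mul_le_mul_of_nonneg_right (Real.rpow_le_rpow_of_exponent_le hL1 (min_le_left _ _)) (inv_pos.2 (hEp T)).le
    | false =>
      obtain ⟨lo', hlo'⟩ : ∃ lo', lo' = lo - β := ⟨_, rfl⟩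
      have h1 := hLc L (by omega) N hLN hNL y hyN (hcone _ ((min_le_right _ _).trans (min_le_right _ _))) β lm lo' (lo' - (C + 1)) hβ hlm
        JJ (fun j hj => by have := hJJ j hj; omega) (fun j => st (τ j) lm n) (fun j => st (τ j) lm n + lm)
        (fun j hj => by have := hτ j hj; have := hst j; show j ≤ st (τ j) lm n + β / 2 ∧ st (τ j) lm n + lm ≤ j + β ∧ st (τ j) lm n + lm ≤ st (τ j) lm n + lm; omega)
        (fun j => OwL μ s N y C m β q false j θ' x L) (fun j hj T hT1 hT2 G hG hGo => ?_) x (hxx _ k2) F hF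
        (Pool.Agent.W_7d29a1_HZ.ZE.OffRows.mono36 (fun a ha => by rw [mem_Ico] at ha; rw [mem_range]; omega) hFo)
      · refine h1.trans (add_le_add le_rfl (ENNReal.ofReal_le_ofReal (Pool.Agent.W_7d29a1_Z.NumI77.exp_mono (min_le_right _ _) (by omega))))
      · have hJ := hJJ j hj
        have h2 := hO L (by omega) N hLN hNL y hyN (hcone _ (min_le_left _ _)) C m β q j false hq
          (hqL.trans (Real.rpow_le_rpow_of_exponent_le hL1 k0)) (by omega) (by omega) hmN x (hxx _ k0) T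
          (le_trans (Real.rpow_le_rpow_of_exponent_le hL1 hθ2) hT1) hT2 G hG
          (fun hc => absurd hc (by simp))
          (fun _ => Pool.Agent.W_7d29a1_HZ.ZE.OffRows.mono36 (fun a ha => by rw [mem_Ioo] at ha; rw [mem_Ico]; omega) hGo)
        refine h2.trans (add_le_add (mul_le_mul' (ENNReal.ofReal_le_ofReal ?_) le_rfl) le_rfl)
        exact mul_le_mul_of_nonneg_right (Real.rpow_le_rpow_of_exponent_le hL1 (min_le_right _ _)) (inv_pos.2 (hEp T)).le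
  -- all pieces
  have hsub : ∑ j ∈ JJ, P1 μ s N y (fun η S => F η S ∧ MicE μ s N y β lm q (τ j) j x η S ∧ OwL μ s N y C m β q sd j θ' x L η S) ≤
      ∑ n ∈ range (3 * q), ∑ j ∈ JJ, P1 μ s N y (fun η S => F η S ∧ Hy μ s N y (j - β) (j + β)
      (NoMeet (st (τ j) lm n) (st (τ j) lm n + lm)) x η S ∧ OwL μ s N y C m β q sd j θ' x L η S) := by
    rw [sum_comm]
    refine sum_le_sum fun j _ => ?_
    refine le_trans (A12.P1_mono fun η S hev => ?_) (A12.P1_exists (μ := μ) (s := s) (N := N) (y := y) (range (3 * q)) fun n η S =>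
      F η S ∧ Hy μ s N y (j - β) (j + β) (NoMeet (st (τ j) lm n) (st (τ j) lm n + lm)) x η S ∧ OwL μ s N y C m β q sd j θ' x L η S)
    obtain ⟨g1, ⟨n, hn, g2⟩, g3⟩ := hev
    exact ⟨n, hn, g1, g2, g3⟩
  refine hsub.trans ((sum_le_sum hone).trans ?_)
  rw [sum_const, card_range, nsmul_eq_mul, mul_add, ← mul_assoc]
  have hc : ((3 * q : ℕ) : ℝ≥0∞) = ENNReal.ofReal (3 * q) := by
    rw [← ENNReal.ofReal_natCast]
    push_cast
    rfl
  rw [hc]
  have hqL' : (q : ℝ) ≤ L ^ (1 / 2 : ℝ) := hqL.trans (Real.rpow_le_rpow_of_exponent_le hL1 k4)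
  refine add_le_add (mul_le_mul' ?_ le_rfl) ?_
  · rw [← ENNReal.ofReal_mul (by positivity)]
    refine ENNReal.ofReal_le_ofReal ?_
    have e3 : 3 * (q : ℝ) ≤ (L : ℝ) ^ (ε / 2) := le_trans (by gcongr) (hE L (by omega))
    have hX0 : 0 ≤ (L : ℝ) ^ (ε / 2) * ((β * (EE' μ s β)⁻¹ + JJ.card * (EE' μ s lm)⁻¹) * (EE' μ s β)⁻¹) := by
      have g1 := (inv_pos.2 (hEp β)).le
      have g2 := (inv_pos.2 (hEp lm)).le
      positivity
    refine (mul_le_mul_of_nonneg_right e3 hX0).trans (le_of_eq ?_)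
    rw [← mul_assoc, ← Real.rpow_add hL0, add_halves]
  · rw [← ENNReal.ofReal_mul (by positivity)]
    refine ENNReal.ofReal_le_ofReal (le_trans ?_ (hX L (by omega)))
    refine mul_le_mul_of_nonneg_right ?_ (Real.exp_pos _).le
    have g1 : (L : ℝ) ^ (1 / 2 : ℝ) ≤ L := by
      calc (L : ℝ) ^ (1 / 2 : ℝ) ≤ (L : ℝ) ^ (1 : ℝ) := Real.rpow_le_rpow_of_exponent_le hL1 (by norm_num)
        _ = L := Real.rpow_one _
    have g2 : (L : ℝ) ^ (2 : ℝ) = L * L := by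
      rw [show (2 : ℝ) = 1 + 1 by norm_num, Real.rpow_add hL0, Real.rpow_one]
    rw [g2]
    nlinarith

omit [IsProbabilityMeasure μ] in
/-- The micro event against the conditional mass. -/
theorem mic_mc {y β lm q τ j : ℕ} {x : ℝ} (η : Env) (S : Finset ℕ) :
    ind (MicE μ s N y β lm q τ j x η S) ≤ ENNReal.ofReal (Real.exp x) * ENNReal.ofReal (mc μ s N y (j - β) (j + β) (NMp τ lm q) η S) := by
  by_cases h : MicE μ s N y β lm q τ j x η S
  · rw [ind_of h]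
    obtain ⟨n, hn, h1⟩ := h
    have h2 : mc μ s N y (j - β) (j + β) (NoMeet (st τ lm n) (st τ lm n + lm)) η S ≤ mc μ s N y (j - β) (j + β) (NMp τ lm q) η S :=
      Pool.Agent.W_7d29a1_C0.P86.mc_mono (fun S S' _ _ _ _ _ hm => ⟨n, mem_range.1 hn, hm⟩) η S
    rw [← ENNReal.ofReal_mul (Real.exp_pos _).le, ← ENNReal.ofReal_one]
    refine ENNReal.ofReal_le_ofReal ?_
    have h4 : Real.exp (-x) < mc μ s N y (j - β) (j + β) (NoMeet (st τ lm n) (st τ lm n + lm)) η S := h1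
    have h3 := mul_le_mul_of_nonneg_left (h4.le.trans h2) (Real.exp_pos x).le
    rwa [← Real.exp_add, add_neg_cancel, Real.exp_zero] at h3
  · rw [ind_not h]
    exact zero_le

omit [IsProbabilityMeasure μ] in
theorem hy_mc {y c d : ℕ} {A : Finset ℕ → Finset ℕ → Prop} {x : ℝ} (η : Env) (S : Finset ℕ) :
    ind (Hy μ s N y c d A x η S) ≤ ENNReal.ofReal (Real.exp x) * ENNReal.ofReal (mc μ s N y c d A η S) := by
  by_cases h : Hy μ s N y c d A x η S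
  · rw [ind_of h, ← ENNReal.ofReal_mul (Real.exp_pos _).le, ← ENNReal.ofReal_one]
    refine ENNReal.ofReal_le_ofReal ?_
    have h4 : Real.exp (-x) < mc μ s N y c d A η S := h
    have h3 := mul_le_mul_of_nonneg_left h4.le (Real.exp_pos x).le
    rwa [← Real.exp_add, add_neg_cancel, Real.exp_zero] at h3
  · rw [ind_not h]
    exact zero_le

/-- One micro tie. -/
theorem micP (h : In μ s c₀ C₀ n₀) : ∀ ε θ : ℝ, 0 < ε → 0 < θ → ∃ δ κ c₂ : ℝ, 0 < δ ∧ 0 < κ ∧ 0 < c₂ ∧ ∃ L₀ : ℕ,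
    ∀ L : ℕ, L₀ ≤ L → ∀ N : ℕ, L ≤ 16 * N → N ≤ L → ∀ y : ℕ, y ≤ N → |(y : ℝ) - sl μ s * N| ≤ ((L : ℝ) ^ δ * wd' μ s N) →
    ∀ β lm q j τ : ℕ, (L : ℝ) ^ θ ≤ lm → ((3 * q : ℕ) : ℝ) ≤ (L : ℝ) ^ κ → 3 * q ≤ L → j + β ≤ N →
    j - β ≤ τ → τ + 3 * q * (lm + 1) ≤ j + β → ∀ x : ℝ, x ≤ (L : ℝ) ^ κ →
    P1 μ s N y (MicE μ s N y β lm q τ j x) ≤ ENNReal.ofReal ((L : ℝ) ^ ε * (EE' μ s lm)⁻¹) + ENNReal.ofReal (Real.exp (-(L : ℝ) ^ c₂)) := by
  intro ε θ hε hθ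
  obtain ⟨δ, κ, c₂, hδ, hκ, hc₂, L₀, hP⟩ := lam86M h 1 (by norm_num) ε θ hε hθ
  refine ⟨δ, κ, c₂, hδ, hκ, hc₂, L₀, ?_⟩
  intro L hL N hLN hNL y hyN hyc β lm q j τ hlm hq hqL hjN h1 h2 x hx
  have hst : ∀ n, n < 3 * q → τ ≤ st τ lm n ∧ st τ lm n + lm + 1 ≤ τ + 3 * q * (lm + 1) := fun n hn => st_in hn
  have h3 := hP L hL N hLN hNL y hyN hyc (fun _ => j - β) (fun _ => j + β) (fun _ => j - β) (fun _ => j + β) (fun _ => τ)
    (fun _ => τ + 3 * q * (lm + 1)) (fun _ => lm) (fun _ => 3 * q) (fun _ => by omega) (fun _ => hlm)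
    (fun _ n => st τ lm n) (fun _ n => st τ lm n + lm) (fun _ n hn => by have := hst n hn; omega) (fun _ => ⟨hq, hqL⟩)
    (fun _ => Ioo (j - β) (j + β)) (fun i => Or.inl ⟨rfl, fun i' hi' => absurd hi' (by omega)⟩) (fun _ => NMp τ lm q)
    (fun _ S S' _ _ _ _ hag hm => by
      obtain ⟨n, hn, hm⟩ := hm
      exact ⟨n, hn, gap_of_nm (by have := hst n hn; omega) (by have := hst n hn; omega) hag hm⟩)
    (fun _ η S => ind (MicE μ s N y β lm q τ j x η S)) (fun _ η S => ind_le _)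
    (fun _ η S => (mic_mc η S).trans (mul_le_mul' (ENNReal.ofReal_le_ofReal (Real.exp_le_exp.2 hx)) le_rfl))
    (fun _ _ => 1) (fun _ => measurable_const) (fun _ _ => le_rfl) (fun _ η η' S _ => rfl)
  have e1 : Q1 μ s N y (fun _ _ => 1) ≤ 1 := by
    unfold Q1
    refine (lintegral_mono (g := fun _ => (1 : ℝ≥0∞)) fun η => ?_).trans (le_of_eq ?_)
    · have h4 : ∑ S ∈ (range N).powerset, ENNReal.ofReal (gp μ s η N y S) = 1 := by
        rw [← ENNReal.ofReal_sum_of_nonneg fun S _ => Pool.Agent.W_7d29a1_HZ.gp_nonneg η N y S,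
          Pool.Agent.W_7d29a1_HZ.gp_sum η (by positivity) (by exact_mod_cast hyN), ENNReal.ofReal_one]
      simp only [mul_one]
      exact h4.le
    · rw [lintegral_const, measure_univ, mul_one]
  simp only [univ_unique, prod_const, card_singleton, pow_one, one_mul] at h3
  rw [← Q1_ind mic_ms]
  refine h3.trans (add_le_add ?_ le_rfl)
  exact (mul_le_mul' le_rfl e1).trans (le_of_eq (mul_one _))

/-- **A LONG GAP BETWEEN TWO MICRO TIES.** -/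
theorem longP (h : In μ s c₀ C₀ n₀) : ∀ ε θ : ℝ, 0 < ε → 0 < θ → ∃ δ κ c₂ : ℝ, 0 < δ ∧ 0 < κ ∧ 0 < c₂ ∧ ∃ L₀ : ℕ,
    ∀ L : ℕ, L₀ ≤ L → ∀ N : ℕ, L ≤ 16 * N → N ≤ L → ∀ y : ℕ, y ≤ N → |(y : ℝ) - sl μ s * N| ≤ ((L : ℝ) ^ δ * wd' μ s N) →
    ∀ β lm q j k τ τ' C D U V : ℕ, (L : ℝ) ^ θ ≤ lm → (L : ℝ) ^ θ ≤ ((V - U : ℕ) : ℝ) → 1 ≤ q → ((3 * q : ℕ) : ℝ) ≤ (L : ℝ) ^ κ → 3 * q ≤ L →
    C + β ≤ j → j + β ≤ U → U + 8 * β ≤ V → V + β ≤ k → k + β ≤ D → D ≤ N →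
    j - β ≤ τ → τ + 3 * q * (lm + 1) ≤ j + β → k - β ≤ τ' → τ' + 3 * q * (lm + 1) ≤ k + β → ∀ x : ℝ, x ≤ (L : ℝ) ^ κ →
    P1 μ s N y (fun η S => Hy μ s N y C D (NoMeet U V) x η S ∧ MicE μ s N y β lm q τ j x η S ∧ MicE μ s N y β lm q τ' k x η S) ≤
      ENNReal.ofReal ((L : ℝ) ^ ε * ((EE' μ s (V - U))⁻¹ * ((EE' μ s lm)⁻¹ * (EE' μ s lm)⁻¹))) + ENNReal.ofReal (Real.exp (-(L : ℝ) ^ c₂)) := by
  intro ε θ hε hθ
  obtain ⟨δ, κ, c₂, hδ, hκ, hc₂, L₀, hP⟩ := lam86M h 3 (by norm_num) (ε / 3) θ (by positivity) hθ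
  refine ⟨δ, κ, c₂, hδ, hκ, hc₂, L₀ + 1, ?_⟩
  intro L hL N hLN hNL y hyN hyc β lm q j k τ τ' C D U V hlm hUV hq1 hq hqL hC hU hV hk hD hDN h1 h2 h1' h2' x hx
  have hL0 : (0 : ℝ) < L := by exact_mod_cast (show 0 < L by omega)
  have hst : ∀ n, n < 3 * q → τ ≤ st τ lm n ∧ st τ lm n + lm + 1 ≤ τ + 3 * q * (lm + 1) := fun n hn => st_in hn
  have hst' : ∀ n, n < 3 * q → τ' ≤ st τ' lm n ∧ st τ' lm n + lm + 1 ≤ τ' + 3 * q * (lm + 1) := fun n hn => st_in hn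
  have hone : (1 : ℝ) ≤ (L : ℝ) ^ κ := le_trans (by exact_mod_cast (show 1 ≤ 3 * q by omega)) hq
  have h3 := hP L (by omega) N hLN hNL y hyN hyc ![C, j - β, k - β] ![D, j + β, k + β] ![C, j - β, k - β] ![D, j + β, k + β] ![U, τ, τ']
    ![V, τ + 3 * q * (lm + 1), τ' + 3 * q * (lm + 1)] ![V - U, lm, lm] ![1, 3 * q, 3 * q]
    (fun i => by fin_cases i <;> simp only [Matrix.cons_val_zero, Matrix.cons_val_one, Matrix.cons_val, Fin.zero_eta, Fin.mk_one, Fin.reduceFinMk] <;> omega)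
    (fun i => by
      fin_cases i
      · exact hUV
      · exact hlm
      · exact hlm)
    ![fun _ => U, fun n => st τ lm n, fun n => st τ' lm n] ![fun _ => V, fun n => st τ lm n + lm, fun n => st τ' lm n + lm]
    (fun i n hn => by
      fin_cases i
      · show U ≤ U ∧ U + (V - U) ≤ V ∧ V ≤ V
        omega
      · have := hst n hn
        show τ ≤ st τ lm n ∧ st τ lm n + lm ≤ st τ lm n + lm ∧ st τ lm n + lm ≤ τ + 3 * q * (lm + 1)
        omega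
      · have := hst' n hn
        show τ' ≤ st τ' lm n ∧ st τ' lm n + lm ≤ st τ' lm n + lm ∧ st τ' lm n + lm ≤ τ' + 3 * q * (lm + 1)
        omega)
    (fun i => by
      fin_cases i
      · exact ⟨by simpa using hone, show 1 ≤ L by omega⟩
      · exact ⟨hq, hqL⟩
      · exact ⟨hq, hqL⟩)
    ![Ioo C D, Ioo (j - β) (j + β), Ioo (k - β) (k + β)]
    (fun i => by
      left
      fin_cases i
      · refine ⟨rfl, fun i' hi' => ?_⟩
        fin_cases i'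
        · exact absurd hi' (by decide)
        · right; right
          show (j + β ≤ U ∨ V ≤ j - β) ∧ 4 * (j + β - (j - β)) ≤ V - U
          omega
        · right; right
          show (k + β ≤ U ∨ V ≤ k - β) ∧ 4 * (k + β - (k - β)) ≤ V - U
          omega
      · refine ⟨rfl, fun i' hi' => ?_⟩
        fin_cases i'
        · exact absurd hi' (by decide)
        · exact absurd hi' (by decide)
        · left
          show j + β ≤ k - β
          omega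
      · refine ⟨rfl, fun i' hi' => ?_⟩
        fin_cases i' <;> exact absurd hi' (by decide))
    ![NoMeet U V, NMp τ lm q, NMp τ' lm q]
    (fun i S S' _ _ _ _ hag hm => by
      fin_cases i
      · exact ⟨0, by show 0 < 1; norm_num, gap_of_nm (show C ≤ U by omega) (show V ≤ D by omega) hag hm⟩
      · obtain ⟨n, hn, hm⟩ := hm
        exact ⟨n, hn, gap_of_nm (show j - β ≤ st τ lm n by have := hst n hn; omega) (show st τ lm n + lm ≤ j + β by have := hst n hn; omega) hag hm⟩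
      · obtain ⟨n, hn, hm⟩ := hm
        exact ⟨n, hn, gap_of_nm (show k - β ≤ st τ' lm n by have := hst' n hn; omega) (show st τ' lm n + lm ≤ k + β by have := hst' n hn; omega) hag hm⟩)
    ![fun η S => ind (Hy μ s N y C D (NoMeet U V) x η S), fun η S => ind (MicE μ s N y β lm q τ j x η S), fun η S => ind (MicE μ s N y β lm q τ' k x η S)]
    (fun i η S => by fin_cases i <;> exact ind_le _)
    (fun i η S => by
      have hx' := ENNReal.ofReal_le_ofReal (Real.exp_le_exp.2 hx)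
      fin_cases i
      · exact (hy_mc η S).trans (mul_le_mul' hx' le_rfl)
      · exact (mic_mc η S).trans (mul_le_mul' hx' le_rfl)
      · exact (mic_mc η S).trans (mul_le_mul' hx' le_rfl))
    (fun _ _ => 1) (fun _ => measurable_const) (fun _ _ => le_rfl) (fun _ η η' S _ => rfl)
  have e1 : Q1 μ s N y (fun _ _ => 1) ≤ 1 := by
    unfold Q1
    refine (lintegral_mono (g := fun _ => (1 : ℝ≥0∞)) fun η => ?_).trans (le_of_eq ?_)
    · have h4 : ∑ S ∈ (range N).powerset, ENNReal.ofReal (gp μ s η N y S) = 1 := by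
        rw [← ENNReal.ofReal_sum_of_nonneg fun S _ => Pool.Agent.W_7d29a1_HZ.gp_nonneg η N y S,
          Pool.Agent.W_7d29a1_HZ.gp_sum η (by positivity) (by exact_mod_cast hyN), ENNReal.ofReal_one]
      simp only [mul_one]
      exact h4.le
    · rw [lintegral_const, measure_univ, mul_one]
  have hEp : ∀ t, 0 < EE' μ s t := fun t => lt_of_lt_of_le zero_lt_one (le_max_left _ _)
  have hEi : ∀ t, 0 ≤ (EE' μ s t)⁻¹ := fun t => (inv_pos.2 (hEp t)).le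
  rw [Fin.prod_univ_three] at h3
  have e2 : P1 μ s N y (fun η S => Hy μ s N y C D (NoMeet U V) x η S ∧ MicE μ s N y β lm q τ j x η S ∧ MicE μ s N y β lm q τ' k x η S) =
      Q1 μ s N y (fun η S => ind (Hy μ s N y C D (NoMeet U V) x η S ∧ MicE μ s N y β lm q τ j x η S ∧ MicE μ s N y β lm q τ' k x η S)) :=
    (Q1_ind (ms_and (hy_ms _ x) (ms_and mic_ms mic_ms))).symm
  rw [e2]
  refine le_trans (Q1_mono fun η S _ _ => ?_) (h3.trans (add_le_add ?_ le_rfl))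
  · rw [one_mul, Fin.prod_univ_three]
    show ind _ ≤ ind (Hy μ s N y C D (NoMeet U V) x η S) * ind (MicE μ s N y β lm q τ j x η S) * ind (MicE μ s N y β lm q τ' k x η S)
    by_cases hev : Hy μ s N y C D (NoMeet U V) x η S ∧ MicE μ s N y β lm q τ j x η S ∧ MicE μ s N y β lm q τ' k x η S
    · rw [ind_of hev, ind_of hev.1, ind_of hev.2.1, ind_of hev.2.2, mul_one, mul_one]
    · rw [ind_not hev]
      exact zero_le
  · refine (mul_le_mul' le_rfl e1).trans ?_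
    rw [mul_one]
    show ENNReal.ofReal ((L : ℝ) ^ (ε / 3) * (EE' μ s (V - U))⁻¹) * ENNReal.ofReal ((L : ℝ) ^ (ε / 3) * (EE' μ s lm)⁻¹) *
      ENNReal.ofReal ((L : ℝ) ^ (ε / 3) * (EE' μ s lm)⁻¹) ≤ _
    rw [← ENNReal.ofReal_mul (mul_nonneg (by positivity) (hEi _)), ← ENNReal.ofReal_mul (mul_nonneg (mul_nonneg (by positivity) (hEi _))
      (mul_nonneg (by positivity) (hEi _)))]
    refine ENNReal.ofReal_le_ofReal (le_of_eq ?_)
    have e5 : (L : ℝ) ^ ε = (L : ℝ) ^ (ε / 3) * (L : ℝ) ^ (ε / 3) * (L : ℝ) ^ (ε / 3) := by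
      rw [← Real.rpow_add hL0, ← Real.rpow_add hL0]
      congr 1
      ring
    rw [e5]
    ring

end Pool.Agent.W_7d29a1_C0.P42
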