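import Pool.Agent.W_7d29a1_C0.Pair42C

/-!
C0, helper42: DOUBLE TIES IN ONE BLOCK, part 4: two stretches. `Zz`: the micro tie and the own tie (given the block `[C, D)`) of one row.
`farP`: the sum over the pairs of rows of two stretches of length `β / 64` at the distance at least `32 β`: both own gaps are local on their
side of the middle row (two sites), or one of them is long.
-/

set_option autoImplicit false

namespace Pool.Agent.W_7d29a1_C0.P42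

open MeasureTheory ProbabilityTheory Filter Topology Finset
open Pool.Agent.W_7d29a1_F Pool.Agent.W_7d29a1_X Pool.Agent.W_7d29a1_h4g Pool.Agent.W_7d29a1_H
open Pool.Agent.W_7d29a1_HS (In wd md)
open Pool.Agent.W_7d29a1_HZ Pool.Agent.W_7d29a1_HZ.R72 Pool.Agent.W_7d29a1_Z.Asm72
open Pool.Agent.W_7d29a1_HZ.Z86
open Pool.Agent.W_7d29a1_C0.P86 Pool.Agent.W_7d29a1_C0.P15
open Pool.Agent.W_7d29a1_C0.P3 (Hy hy_ms hy_off er amp amp_ex hy_mono_x)
open Pool.W7d29a1.C0.R43 (st)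
open scoped ENNReal

variable {μ : Measure ℝ} {s : ℝ} {N : ℕ}

/-- The two ties of the row `j`. -/
def Zz (μ : Measure ℝ) (s : ℝ) (N y C D β lm q : ℕ) (sd : Bool) (θ x : ℝ) (L τ j : ℕ) (η : Env) (S : Finset ℕ) : Prop :=
  MicE μ s N y β lm q τ j x η S ∧ OwG μ s N y C D β q sd j θ x L η S

theorem zz_ms {y C D β lm q : ℕ} {sd : Bool} {θ x : ℝ} {L τ j : ℕ} : Ms (Zz μ s N y C D β lm q sd θ x L τ j) := ms_and mic_ms owg_ms

theorem mic_mono {y β lm q τ j : ℕ} {x x' : ℝ} (hx : x ≤ x') {η : Env} {S : Finset ℕ} (h : MicE μ s N y β lm q τ j x η S) :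
    MicE μ s N y β lm q τ j x' η S := by
  obtain ⟨n, hn, h1⟩ := h
  exact ⟨n, hn, hy_mono_x hx h1⟩

/-- The amplitude after the cut. -/
theorem amp_num {κ : ℝ} (hκ : 0 < κ) : ∃ L₀ : ℕ, ∀ L : ℕ, L₀ ≤ L → ∀ N : ℕ, N ≤ L → ∀ x : ℝ, x ≤ (L : ℝ) ^ (κ / 2) →
    ((N : ℝ) + 2) * Real.exp (-(L : ℝ) ^ κ) ≤ Real.exp (-x) ∧ x ≤ (L : ℝ) ^ κ := by
  obtain ⟨L₁, h1⟩ := Pool.Agent.W_7d29a1_Z.NumI77.large (show 0 < κ / 2 by positivity) 4
  refine ⟨L₁ + 2, fun L hL N hN x hx => ?_⟩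
  obtain ⟨-, g2, g3⟩ := h1 L (by omega)
  have hL2 : (2 : ℝ) ≤ L := by exact_mod_cast (show 2 ≤ L by omega)
  have hL0 : (0 : ℝ) < L := by linarith
  obtain ⟨X, hX⟩ : ∃ X : ℝ, X = (L : ℝ) ^ (κ / 2) := ⟨_, rfl⟩
  have hXX : (L : ℝ) ^ κ = X * X := by
    rw [hX, ← Real.rpow_add hL0, add_halves]
  rw [← hX] at g2 g3 hx
  rw [hXX]
  have hlog : 0 ≤ Real.log L := Real.log_nonneg (by linarith)
  refine ⟨?_, by nlinarith⟩
  have hN2 : (N : ℝ) + 2 ≤ Real.exp (Real.log L + 1) := by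
    rw [Real.exp_add, Real.exp_log hL0]
    have h2 : (2 : ℝ) ≤ Real.exp 1 := by
      have := Real.add_one_le_exp (1 : ℝ)
      linarith
    have h3 : (N : ℝ) ≤ L := by exact_mod_cast hN
    nlinarith
  calc ((N : ℝ) + 2) * Real.exp (-(X * X)) ≤ Real.exp (Real.log L + 1) * Real.exp (-(X * X)) :=
        mul_le_mul_of_nonneg_right hN2 (Real.exp_pos _).le
    _ = Real.exp (Real.log L + 1 - X * X) := by
        rw [← Real.exp_add]
        congr 1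
    _ ≤ Real.exp (-x) := by
        rw [Real.exp_le_exp]
        nlinarith

variable [IsProbabilityMeasure μ] {c₀ C₀ : ℝ} {n₀ : ℕ}

theorem P1_top {y : ℕ} (hy : y ≤ N) : P1 μ s N y (fun _ _ => True) ≤ 1 := by
  have h1 : P1 μ s N y (fun _ _ => True) = Q1 μ s N y (fun _ _ => ind True) := (Q1_ind (μ := μ) (s := s) (N := N) (y := (y : ℤ)) fun S => by simp).symm
  rw [h1]
  unfold Q1
  refine (lintegral_mono (g := fun _ => (1 : ℝ≥0∞)) fun η => ?_).trans (le_of_eq ?_)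
  · have h4 : ∑ S ∈ (range N).powerset, ENNReal.ofReal (gp μ s η N y S) = 1 := by
      rw [← ENNReal.ofReal_sum_of_nonneg fun S _ => Pool.Agent.W_7d29a1_HZ.gp_nonneg η N y S,
        Pool.Agent.W_7d29a1_HZ.gp_sum η (by positivity) (by exact_mod_cast hy), ENNReal.ofReal_one]
    simp only [ind_of trivial, mul_one]
    exact h4.le
  · rw [lintegral_const, measure_univ, mul_one]

/-- The numbers of two stretches. -/
theorem far_close {L A a te sg B cJ cK ep : ℝ} (hL : 9 ≤ L) (ha1 : 1 ≤ a) (haa : 16 * (a * a) ≤ A) (hte0 : 0 ≤ te) (hBL : B ≤ L)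
    (hsg0 : 0 ≤ sg) (hcJ : cJ ≤ L) (hcK0 : 0 ≤ cK) (hcK : cK ≤ L) (hX : A * (L * L * L) * te ≤ ep) :
    2 * a * B * (2 * a * B + te) + cK * te + (8 * a * sg + 2 * te * (cJ * cK)) ≤ A * (B ^ 2 + sg) + ep := by
  have h1 : a ≤ a * a := le_mul_of_one_le_left (by linarith) ha1
  have hA : 1 ≤ A := by linarith
  have hL0 : 0 ≤ L := by linarith
  have e1 : 4 * (a * a) * B ^ 2 ≤ A * B ^ 2 := mul_le_mul_of_nonneg_right (by linarith) (sq_nonneg _)
  have e2 : 8 * a * sg ≤ A * sg := mul_le_mul_of_nonneg_right (by linarith) hsg0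
  have f1 : 2 * a * B ≤ A * L := by
    refine (mul_le_mul_of_nonneg_left hBL (by linarith)).trans (mul_le_mul_of_nonneg_right (by linarith) hL0)
  have f2 : cJ * cK ≤ L * L := mul_le_mul hcJ hcK hcK0 hL0
  have f3 : L * L ≤ A * (L * L) := le_mul_of_one_le_left (mul_nonneg hL0 hL0) hA
  have f4 : cK ≤ A * L := hcK.trans (le_mul_of_one_le_left hL0 hA)
  have f5 : 2 * (A * L) + 2 * (A * (L * L)) ≤ A * (L * L * L) := by
    have g1 : 9 * L ≤ L * L := mul_le_mul_of_nonneg_right hL hL0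
    have g2 : 9 * (L * L) ≤ L * L * L := by
      rw [mul_assoc]
      exact mul_le_mul_of_nonneg_right hL (mul_nonneg hL0 hL0)
    have g3 : 2 * L + 2 * (L * L) ≤ L * L * L := by
      have := mul_nonneg hL0 hL0
      linarith
    calc 2 * (A * L) + 2 * (A * (L * L)) = A * (2 * L + 2 * (L * L)) := by ring
      _ ≤ _ := mul_le_mul_of_nonneg_left g3 (by linarith)
  have e4 : (2 * a * B + cK + 2 * (cJ * cK)) * te ≤ A * (L * L * L) * te := mul_le_mul_of_nonneg_right (by linarith) hte0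
  calc _ = (4 * (a * a) * B ^ 2 + 8 * a * sg) + (2 * a * B + cK + 2 * (cJ * cK)) * te := by ring
    _ ≤ (A * B ^ 2 + A * sg) + ep := add_le_add (add_le_add e1 e2) (e4.trans hX)
    _ = _ := by ring

/-- **TWO STRETCHES.** -/
theorem farP (h : In μ s c₀ C₀ n₀) : ∀ ε θ : ℝ, 0 < ε → 0 < θ → ∃ θ' : ℝ, 0 < θ' ∧ θ' ≤ θ ∧ ∃ δ κ c₂ : ℝ, 0 < δ ∧ 0 < κ ∧ 0 < c₂ ∧
    ∃ L₀ : ℕ, ∀ L : ℕ, L₀ ≤ L → ∀ N : ℕ, L ≤ 16 * N → N ≤ L → ∀ y : ℕ, y ≤ N → |(y : ℝ) - sl μ s * N| ≤ ((L : ℝ) ^ δ * wd' μ s N) →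
    ∀ β lm q C D lo lo' : ℕ, ∀ sd sd' : Bool, (L : ℝ) ^ θ ≤ β → (L : ℝ) ^ θ ≤ lm → 3 * q * (lm + 1) ≤ β → 1 ≤ q → (q : ℝ) ≤ (L : ℝ) ^ κ → D ≤ N → β ≤ lo →
    lo + 32 * β ≤ lo' → ∀ JJ KK : Finset ℕ, (∀ j ∈ JJ, lo ≤ j ∧ j < lo + β / 64 ∧ C + β ≤ j) →
    (∀ k ∈ KK, lo' ≤ k ∧ k < lo' + β / 64 ∧ k + β ≤ D) → ∀ τ τ' : ℕ → ℕ,
    (∀ j ∈ JJ, j ≤ τ j + β / 2 ∧ τ j + 3 * q * (lm + 1) ≤ j + β / 2) →
    (∀ k ∈ KK, k ≤ τ' k + β / 2 ∧ τ' k + 3 * q * (lm + 1) ≤ k + β / 2) → ∀ x : ℝ, x ≤ (L : ℝ) ^ κ →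
    ∑ j ∈ JJ, ∑ k ∈ KK, P1 μ s N y (fun η S => Zz μ s N y C D β lm q sd θ' x L (τ j) j η S ∧ Zz μ s N y C D β lm q sd' θ' x L (τ' k) k η S) ≤
      ENNReal.ofReal ((L : ℝ) ^ ε * ((β * ((EE' μ s lm)⁻¹ * (EE' μ s β)⁻¹)) ^ 2 +
        ∑ j ∈ JJ, ∑ k ∈ KK, (EE' μ s (k - j))⁻¹ * ((EE' μ s lm)⁻¹ * (EE' μ s lm)⁻¹))) + ENNReal.ofReal (Real.exp (-(L : ℝ) ^ c₂)) := by
  intro ε θ hε hθ
  obtain ⟨θ', hθ', hθθ, δ₁, κ₁, d₁, hδ₁, hκ₁, hd₁, L₁, hS⟩ := siteB h (ε / 4) θ (by positivity) hθ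
  obtain ⟨δ₂, κ₂, d₂, hδ₂, hκ₂, hd₂, L₂, hG⟩ := longP h (ε / 4) θ (by positivity) hθ
  obtain ⟨κ, hκd⟩ : ∃ κ, κ = min κ₁ (min κ₂ (min (1 / 2) (θ' / 2))) := ⟨_, rfl⟩
  have hκ : 0 < κ := by
    rw [hκd]
    exact lt_min hκ₁ (lt_min hκ₂ (lt_min (by norm_num) (by positivity)))
  have k1 : κ ≤ κ₁ := by rw [hκd]; exact min_le_left _ _
  have k2 : κ ≤ κ₂ := by rw [hκd]; exact (min_le_right _ _).trans (min_le_left _ _)
  have k3 : κ ≤ 1 / 2 := by rw [hκd]; exact (min_le_right _ _).trans ((min_le_right _ _).trans (min_le_left _ _))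
  have k4 : κ ≤ θ' / 2 := by rw [hκd]; exact (min_le_right _ _).trans ((min_le_right _ _).trans (min_le_right _ _))
  obtain ⟨L₃, hA⟩ := amp_num hκ
  obtain ⟨L₄, hB⟩ := lp_num hθ' (show κ / 2 < θ' / 2 by linarith)
  obtain ⟨L₅, hE⟩ := ev_mul86 3 (show κ / 2 < κ by linarith)
  obtain ⟨L₆, hF⟩ := ev_mul86 16 (show ε / 2 < ε by linarith)
  obtain ⟨c₂, hc₂, -, L₇, hX⟩ := Pool.Agent.W_7d29a1_Z.NumI77.pow_exp (lt_min hd₁ hd₂) (3 + ε)
  obtain ⟨L₈, hH⟩ := Pool.Agent.W_7d29a1_Z.NumI77.large hθ 128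
  refine ⟨θ', hθ', hθθ, min δ₁ δ₂, κ / 2, c₂, lt_min hδ₁ hδ₂, by positivity, hc₂, L₁ + L₂ + L₃ + L₄ + L₅ + L₆ + L₇ + L₈ + 9, ?_⟩
  intro L hL N hLN hNL y hyN hyc β lm q C D lo lo' sd sd' hβ hlm hlβ hq hqL hDN hlo hlo' JJ KK hJJ hKK τ τ' hτ hτ' x hx
  have hL9 : (9 : ℝ) ≤ L := by exact_mod_cast (show 9 ≤ L by omega)
  have hL0 : (0 : ℝ) < L := by linarith
  have hL1 : (1 : ℝ) ≤ L := by linarith
  have hwd : ∀ n, 0 < wd' μ s n := fun n => lt_of_lt_of_le zero_lt_one (le_max_left _ _)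
  have hcone : ∀ δ', min δ₁ δ₂ ≤ δ' → |(y : ℝ) - sl μ s * N| ≤ ((L : ℝ) ^ δ' * wd' μ s N) := fun δ' hδ' =>
    hyc.trans (mul_le_mul_of_nonneg_right (Real.rpow_le_rpow_of_exponent_le hL1 hδ') (hwd N).le)
  have hEp : ∀ t, 0 < EE' μ s t := fun t => lt_of_lt_of_le zero_lt_one (le_max_left _ _)
  have hEi : ∀ t, 0 ≤ (EE' μ s t)⁻¹ := fun t => (inv_pos.2 (hEp t)).le
  obtain ⟨hx1, hx2⟩ := hA L (by omega) N hNL x hx
  obtain ⟨x', hx'⟩ : ∃ x' : ℝ, x' = (L : ℝ) ^ κ := ⟨_, rfl⟩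
  rw [← hx'] at hx1 hx2
  have hx1' : x' ≤ (L : ℝ) ^ κ₁ := by rw [hx']; exact Real.rpow_le_rpow_of_exponent_le hL1 k1
  have hx2' : x' ≤ (L : ℝ) ^ κ₂ := by rw [hx']; exact Real.rpow_le_rpow_of_exponent_le hL1 k2
  have hqκ : (q : ℝ) ≤ (L : ℝ) ^ κ := hqL.trans (Real.rpow_le_rpow_of_exponent_le hL1 (by linarith))
  have h3q : ((3 * q : ℕ) : ℝ) ≤ (L : ℝ) ^ κ := by
    push_cast
    refine le_trans ?_ (hE L (by omega))
    gcongr
  have h3qL : 3 * q ≤ L := by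
    have : ((3 * q : ℕ) : ℝ) ≤ L := h3q.trans ((Real.rpow_le_rpow_of_exponent_le hL1 (show κ ≤ 1 by linarith)).trans_eq (Real.rpow_one _))
    exact_mod_cast this
  have hlp : ∀ T : ℕ, (L : ℝ) ^ θ' ≤ T → 1 ≤ lp T q := fun T hT => (hB L (by omega) q hq hqL T hT).2.1
  have hβ128 : 128 ≤ β := by
    have h1 : (128 : ℝ) ≤ β := (hH L (by omega)).2.1.trans hβ
    exact_mod_cast h1
  have hlmβ : lm ≤ β := by
    have h1 : 1 * (lm + 1) ≤ 3 * q * (lm + 1) := Nat.mul_le_mul_right _ (by omega)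
    omega
  obtain ⟨m, hm⟩ : ∃ m, m = (lo + lo') / 2 := ⟨_, rfl⟩
  have hJm : ∀ j ∈ JJ, j + β + 8 * β ≤ m := fun j hj => by have := hJJ j hj; omega
  have hKm : ∀ k ∈ KK, m + 8 * β + β ≤ k := fun k hk => by have := hKK k hk; omega
  by_cases hDm : KK.Nonempty
  swap
  · rw [not_nonempty_iff_eq_empty] at hDm
    rw [hDm]
    simp
  have hmD : m ≤ D := by
    obtain ⟨k, hk⟩ := hDm
    have h1 := hKm k hk
    have h2 := hKK k hk
    omega
  obtain ⟨te, hte⟩ : ∃ te : ℝ, te = Real.exp (-(L : ℝ) ^ (min d₁ d₂)) := ⟨_, rfl⟩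
  have hte0 : 0 ≤ te := by rw [hte]; exact (Real.exp_pos _).le
  have ht1 : ENNReal.ofReal (Real.exp (-(L : ℝ) ^ d₁)) ≤ ENNReal.ofReal te := by
    rw [hte]
    exact ENNReal.ofReal_le_ofReal (Pool.Agent.W_7d29a1_Z.NumI77.exp_mono (min_le_left _ _) (by omega))
  have ht2 : ENNReal.ofReal (Real.exp (-(L : ℝ) ^ d₂)) ≤ ENNReal.ofReal te := by
    rw [hte]
    exact ENNReal.ofReal_le_ofReal (Pool.Agent.W_7d29a1_Z.NumI77.exp_mono (min_le_right _ _) (by omega))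
  obtain ⟨g, hg⟩ : ∃ g : ℝ, g = (EE' μ s lm)⁻¹ := ⟨_, rfl⟩
  obtain ⟨gb, hgb⟩ : ∃ gb : ℝ, gb = (EE' μ s β)⁻¹ := ⟨_, rfl⟩
  have hg0 : 0 ≤ g := by rw [hg]; exact hEi _
  have hgb0 : 0 ≤ gb := by rw [hgb]; exact hEi _
  have hgg : gb ≤ g := by
    rw [hg, hgb]
    refine inv_anti₀ (hEp _) ?_
    have h1 := EE'_le_mul86 h (m := lm) (n := β) (k := 1) le_rfl (by omega)
    simpa using h1
  have hgb1 : gb ≤ 1 := by
    rw [hgb]
    exact inv_le_one_of_one_le₀ (le_max_left _ _)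
  have hg1 : g ≤ 1 := by
    rw [hg]
    exact inv_le_one_of_one_le₀ (le_max_left _ _)
  obtain ⟨a, ha⟩ : ∃ a : ℝ, a = (L : ℝ) ^ (ε / 4) := ⟨_, rfl⟩
  have ha1 : 1 ≤ a := by rw [ha]; exact Real.one_le_rpow hL1 (by positivity)
  have hcJ : JJ.card ≤ β := by
    have h1 : JJ ⊆ Ico lo (lo + β / 64) := fun j hj => by have := hJJ j hj; rw [mem_Ico]; omega
    have h2 := card_le_card h1
    rw [Nat.card_Ico] at h2
    omega
  have hcK : KK.card ≤ β := by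
    have h1 : KK ⊆ Ico lo' (lo' + β / 64) := fun j hj => by have := hKK j hj; rw [mem_Ico]; omega
    have h2 := card_le_card h1
    rw [Nat.card_Ico] at h2
    omega
  have hβ0 : (0 : ℝ) ≤ β := Nat.cast_nonneg β
  have hsite : ∀ X : Finset ℕ, X.card ≤ β → a * ((β * gb + X.card * g) * gb) ≤ 2 * a * (β * (g * gb)) := by
    intro X hX
    have h1 : (X.card : ℝ) ≤ β := by exact_mod_cast hX
    have h2 : β * gb + X.card * g ≤ 2 * (β * g) := by
      have e1 := mul_le_mul_of_nonneg_left hgg hβ0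
      have e2 := mul_le_mul_of_nonneg_right h1 hg0
      linarith
    calc a * ((β * gb + X.card * g) * gb) ≤ a * ((2 * (β * g)) * gb) := by gcongr
      _ = _ := by ring
  -- the decomposition
  have hdec : ∀ j ∈ JJ, ∀ k ∈ KK, P1 μ s N y (fun η S => Zz μ s N y C D β lm q sd θ' x L (τ j) j η S ∧ Zz μ s N y C D β lm q sd' θ' x L (τ' k) k η S) ≤
      P1 μ s N y (fun η S => (MicE μ s N y β lm q (τ' k) k x' η S ∧ OwL μ s N y m D β q sd' k θ' x' L η S) ∧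
        MicE μ s N y β lm q (τ j) j x' η S ∧ OwL μ s N y C m β q sd j θ' x' L η S) +
      (P1 μ s N y (fun η S => Hy μ s N y C D (NoMeet (j + β) m) x' η S ∧ MicE μ s N y β lm q (τ j) j x' η S ∧ MicE μ s N y β lm q (τ' k) k x' η S) +
        P1 μ s N y (fun η S => Hy μ s N y C D (NoMeet m (k - β)) x' η S ∧ MicE μ s N y β lm q (τ j) j x' η S ∧ MicE μ s N y β lm q (τ' k) k x' η S)) := by
    intro j hj k hk
    have j1 := hJJ j hj
    have j2 := hJm j hj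
    have e1 := hKK k hk
    have e2 := hKm k hk
    refine le_trans (A12.P1_mono fun η S hev => ?_) ((A12.P1_or _ _).trans (add_le_add le_rfl (A12.P1_or _ _)))
    obtain ⟨⟨f1, f2⟩, f3, f4⟩ := hev
    have f1' := mic_mono hx2 f1
    have f3' := mic_mono hx2 f3
    rcases owg_cutR (m := m) hx1 hq (by omega) (by omega) hmD hDN hlp f2 with r1 | r1
    · rcases owg_cutL (m := m) hx1 hq (by omega) (by omega) (by omega) hDN hlp f4 with r2 | r2
      · exact Or.inl ⟨⟨f3', r2⟩, f1', r1⟩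
      · exact Or.inr (Or.inr ⟨r2, f1', f3'⟩)
    · exact Or.inr (Or.inl ⟨r1, f1', f3'⟩)
  -- the two sites
  have hsJ : ∀ k ∈ KK, ∑ j ∈ JJ, P1 μ s N y (fun η S => (MicE μ s N y β lm q (τ' k) k x' η S ∧ OwL μ s N y m D β q sd' k θ' x' L η S) ∧
      MicE μ s N y β lm q (τ j) j x' η S ∧ OwL μ s N y C m β q sd j θ' x' L η S) ≤
      ENNReal.ofReal (2 * a * (β * (g * gb))) * P1 μ s N y (fun η S => MicE μ s N y β lm q (τ' k) k x' η S ∧ OwL μ s N y m D β q sd' k θ' x' L η S) +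
        ENNReal.ofReal te := by
    intro k hk
    have e1 := hKK k hk
    have e2 := hKm k hk
    have h1 := hS L (by omega) N hLN hNL y hyN (hcone _ (min_le_left _ _)) β lm q C m lo m sd hβ hlm hq
      (hqκ.trans (Real.rpow_le_rpow_of_exponent_le hL1 k1)) (by omega) hlo le_rfl (by omega) JJ
      (fun j hj => by have := hJJ j hj; have := hJm j hj; omega) τ hτ x' hx1'
      (fun η S => MicE μ s N y β lm q (τ' k) k x' η S ∧ OwL μ s N y m D β q sd' k θ' x' L η S) (ms_and mic_ms owl_ms)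
      (off_and (mic_off (by omega) fun i hi => by rw [mem_range] at hi; omega) (owl_off hDN fun i hi => by rw [mem_range] at hi; omega))
    refine h1.trans (add_le_add (mul_le_mul' (ENNReal.ofReal_le_ofReal ?_) le_rfl) ht1)
    rw [← ha, ← hg, ← hgb]
    exact hsite JJ hcJ
  have hsK : ∑ k ∈ KK, P1 μ s N y (fun η S => MicE μ s N y β lm q (τ' k) k x' η S ∧ OwL μ s N y m D β q sd' k θ' x' L η S) ≤
      ENNReal.ofReal (2 * a * (β * (g * gb))) + ENNReal.ofReal te := by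
    have h1 := hS L (by omega) N hLN hNL y hyN (hcone _ (min_le_left _ _)) β lm q m D lo' (D + lo' + 3 * β) sd' hβ hlm hq
      (hqκ.trans (Real.rpow_le_rpow_of_exponent_le hL1 k1)) hDN (by omega) (by omega) (by omega) KK
      (fun k hk => by have := hKK k hk; have := hKm k hk; omega) τ' hτ' x' hx1'
      (fun _ _ => True) (fun S => by simp) (fun _ _ _ _ => Iff.rfl)
    simp only [true_and] at h1
    refine h1.trans (add_le_add ?_ ht1)
    refine (mul_le_mul' (ENNReal.ofReal_le_ofReal ?_) (P1_top hyN)).trans (le_of_eq (mul_one _))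
    rw [← ha, ← hg, ← hgb]
    exact hsite KK hcK
  -- the long gaps
  have hlong : ∀ j ∈ JJ, ∀ k ∈ KK,
      P1 μ s N y (fun η S => Hy μ s N y C D (NoMeet (j + β) m) x' η S ∧ MicE μ s N y β lm q (τ j) j x' η S ∧ MicE μ s N y β lm q (τ' k) k x' η S) +
        P1 μ s N y (fun η S => Hy μ s N y C D (NoMeet m (k - β)) x' η S ∧ MicE μ s N y β lm q (τ j) j x' η S ∧ MicE μ s N y β lm q (τ' k) k x' η S) ≤
      ENNReal.ofReal (8 * a * ((EE' μ s (k - j))⁻¹ * (g * g)) + 2 * te) := by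
    intro j hj k hk
    have j1 := hJJ j hj
    have j2 := hJm j hj
    have j3 := hτ j hj
    have e1 := hKK k hk
    have e2 := hKm k hk
    have e3 := hτ' k hk
    have hone : ∀ U V : ℕ, j + β ≤ U → U + 8 * β ≤ V → V + β ≤ k → k - j ≤ 4 * (V - U) →
        P1 μ s N y (fun η S => Hy μ s N y C D (NoMeet U V) x' η S ∧ MicE μ s N y β lm q (τ j) j x' η S ∧ MicE μ s N y β lm q (τ' k) k x' η S) ≤
        ENNReal.ofReal (4 * a * ((EE' μ s (k - j))⁻¹ * (g * g)) + te) := by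
      intro U V u1 u2 u3 u4
      have hβUV : (β : ℝ) ≤ ((V - U : ℕ) : ℝ) := by exact_mod_cast (show β ≤ V - U by omega)
      have h1 := hG L (by omega) N hLN hNL y hyN (hcone _ (min_le_right _ _)) β lm q j k (τ j) (τ' k) C D U V hlm (hβ.trans hβUV) hq
        (h3q.trans (Real.rpow_le_rpow_of_exponent_le hL1 k2)) h3qL (by omega) u1 u2 u3 (by omega) hDN (by omega) (by omega) (by omega) (by omega) x' hx2'
      refine h1.trans ((add_le_add (ENNReal.ofReal_le_ofReal ?_) ht2).trans (le_of_eq (ENNReal.ofReal_add ?_ hte0).symm))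
      · rw [← ha, ← hg]
        have h2 := EE'_le_mul86 h (m := k - j) (n := V - U) (k := 4) (by norm_num) u4
        have h3 : (EE' μ s (V - U))⁻¹ ≤ 4 * (EE' μ s (k - j))⁻¹ := by
          rw [inv_le_iff_one_le_mul₀ (hEp _), mul_assoc]
          have : (EE' μ s (k - j))⁻¹ * EE' μ s (k - j) = 1 := inv_mul_cancel₀ (hEp _).ne'
          push_cast at h2
          calc (1 : ℝ) = (EE' μ s (k - j))⁻¹ * EE' μ s (k - j) := this.symm
            _ ≤ (EE' μ s (k - j))⁻¹ * (4 * EE' μ s (V - U)) := mul_le_mul_of_nonneg_left h2 (hEi _)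
            _ = _ := by ring
        calc a * ((EE' μ s (V - U))⁻¹ * (g * g)) ≤ a * ((4 * (EE' μ s (k - j))⁻¹) * (g * g)) := by gcongr
          _ = _ := by ring
      · have := hEi (k - j)
        positivity
    have h1 := hone (j + β) m le_rfl (by omega) (by omega) (by omega)
    have h2 := hone m (k - β) (by omega) (by omega) (by omega) (by omega)
    refine (add_le_add h1 h2).trans (le_of_eq ?_)
    have h0 : 0 ≤ 4 * a * ((EE' μ s (k - j))⁻¹ * (g * g)) + te := by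
      have := hEi (k - j)
      positivity
    rw [← ENNReal.ofReal_add h0 h0]
    congr 1
    ring
  -- the sum
  have hR0 : 0 ≤ 2 * a * (β * (g * gb)) := by positivity
  have s1 : ∑ j ∈ JJ, ∑ k ∈ KK, P1 μ s N y (fun η S => (MicE μ s N y β lm q (τ' k) k x' η S ∧ OwL μ s N y m D β q sd' k θ' x' L η S) ∧
        MicE μ s N y β lm q (τ j) j x' η S ∧ OwL μ s N y C m β q sd j θ' x' L η S) ≤
      ENNReal.ofReal (2 * a * (β * (g * gb)) * (2 * a * (β * (g * gb)) + te) + KK.card * te) := by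
    rw [sum_comm]
    refine (sum_le_sum hsJ).trans ?_
    rw [sum_add_distrib, ← mul_sum, sum_const, nsmul_eq_mul, ENNReal.ofReal_add (by positivity) (by positivity), ENNReal.ofReal_mul hR0,
      ENNReal.ofReal_add hR0 hte0, ENNReal.ofReal_mul (Nat.cast_nonneg _), ENNReal.ofReal_natCast]
    exact add_le_add (mul_le_mul' le_rfl hsK) le_rfl
  have s2 : ∑ j ∈ JJ, ∑ k ∈ KK, ENNReal.ofReal (8 * a * ((EE' μ s (k - j))⁻¹ * (g * g)) + 2 * te) =
      ENNReal.ofReal (8 * a * ∑ j ∈ JJ, ∑ k ∈ KK, (EE' μ s (k - j))⁻¹ * (g * g) + 2 * te * (JJ.card * KK.card)) := by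
    have hnn : ∀ j k, 0 ≤ 8 * a * ((EE' μ s (k - j))⁻¹ * (g * g)) + 2 * te := fun j k => by
      have := hEi (k - j)
      positivity
    rw [sum_congr rfl fun j _ => (ENNReal.ofReal_sum_of_nonneg fun k _ => hnn j k).symm,
      ← ENNReal.ofReal_sum_of_nonneg fun j _ => sum_nonneg fun k _ => hnn j k]
    congr 1
    simp only [sum_add_distrib, sum_const, nsmul_eq_mul, ← mul_sum]
    ring
  have s3 : ∑ j ∈ JJ, ∑ k ∈ KK, P1 μ s N y (fun η S => Zz μ s N y C D β lm q sd θ' x L (τ j) j η S ∧ Zz μ s N y C D β lm q sd' θ' x L (τ' k) k η S) ≤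
      ENNReal.ofReal (2 * a * (β * (g * gb)) * (2 * a * (β * (g * gb)) + te) + KK.card * te) +
      ENNReal.ofReal (8 * a * ∑ j ∈ JJ, ∑ k ∈ KK, (EE' μ s (k - j))⁻¹ * (g * g) + 2 * te * (JJ.card * KK.card)) := by
    rw [← s2]
    refine le_trans (sum_le_sum fun j hj => sum_le_sum fun k hk => (hdec j hj k hk).trans (add_le_add le_rfl (hlong j hj k hk))) ?_
    simp only [sum_add_distrib]
    exact add_le_add s1 le_rfl
  refine s3.trans ?_
  obtain ⟨sg, hsg⟩ : ∃ sg : ℝ, sg = ∑ j ∈ JJ, ∑ k ∈ KK, (EE' μ s (k - j))⁻¹ * (g * g) := ⟨_, rfl⟩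
  have hsg0 : 0 ≤ sg := by
    rw [hsg]
    exact sum_nonneg fun j _ => sum_nonneg fun k _ => mul_nonneg (hEi _) (mul_nonneg hg0 hg0)
  rw [← hg, ← hgb, ← hsg]
  have hLβ : (β : ℝ) ≤ L := by
    have : β ≤ N := by
      obtain ⟨k, hk⟩ := hDm
      have := hKK k hk
      omega
    exact_mod_cast this.trans hNL
  have hcJ' : (JJ.card : ℝ) ≤ L := le_trans (by exact_mod_cast hcJ) hLβ
  have hcK' : (KK.card : ℝ) ≤ L := le_trans (by exact_mod_cast hcK) hLβ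
  have haa : 16 * (a * a) ≤ (L : ℝ) ^ ε := by
    have e1 : a * a = (L : ℝ) ^ (ε / 2) := by
      rw [ha, ← Real.rpow_add hL0]
      congr 1
      ring
    rw [e1]
    exact hF L (by omega)
  have hX' : (L : ℝ) ^ ε * (L * L * L) * te ≤ Real.exp (-(L : ℝ) ^ c₂) := by
    have e1 := hX L (by omega)
    rw [← hte] at e1
    refine le_trans (le_of_eq ?_) e1
    have e2 : (L : ℝ) ^ (3 + ε) = (L : ℝ) ^ ε * (L * L * L) := by
      have e3 : (L : ℝ) ^ (3 : ℝ) = L * L * L := by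
        rw [show (3 : ℝ) = ((3 : ℕ) : ℝ) by norm_num, Real.rpow_natCast]
        ring
      rw [Real.rpow_add hL0, e3, mul_comm]
    rw [e2]
  have hbg : β * (g * gb) ≤ L := by
    have e1 : g * gb ≤ 1 := mul_le_one₀ hg1 hgb0 hgb1
    exact (mul_le_of_le_one_right hβ0 e1).trans hLβ
  rw [← ENNReal.ofReal_add (by positivity) (by positivity), ← ENNReal.ofReal_add (by positivity) (Real.exp_pos _).le]
  exact ENNReal.ofReal_le_ofReal (far_close hL9 ha1 haa hte0 hbg hsg0 hcJ' (Nat.cast_nonneg _) hcK' hX')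

end Pool.Agent.W_7d29a1_C0.P42
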