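import Pool.Agent.W_7d29a1_C0.Pair42D
import Pool.Agent.W_7d29a1_C0.GSsum4

/-!
C0, helper42: DOUBLE TIES IN ONE BLOCK, part 5: all pairs of rows. `halfP`: the pairs of rows of far stretches in one order; `pairP`: all pairs
`j, k` of rows of an interval of length `ρ`: `L ^ ε (ρ β / E_lm + ρ ^ 2 (E_lm E_β) ^ (-2) + ρ ^ 2 / (E_ρ E_lm ^ 2))`.
-/

set_option autoImplicit false

namespace Pool.Agent.W_7d29a1_C0.P42

open MeasureTheory ProbabilityTheory Filter Topology Finset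
open Pool.Agent.W_7d29a1_F Pool.Agent.W_7d29a1_X Pool.Agent.W_7d29a1_h4g Pool.Agent.W_7d29a1_H
open Pool.Agent.W_7d29a1_HS (In wd md)
open Pool.Agent.W_7d29a1_HZ Pool.Agent.W_7d29a1_HZ.R72 Pool.Agent.W_7d29a1_Z.Asm72
open Pool.Agent.W_7d29a1_HZ.Z86
open Pool.Agent.W_7d29a1_C0.P86 Pool.Agent.W_7d29a1_C0.P15
open scoped ENNReal

variable {μ : Measure ℝ} {s : ℝ} {N : ℕ}

/-! ### Stretches -/

/-- The number of the stretch of a row. -/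
def ix (r w j : ℕ) : ℕ := (j - r) / w

theorem ix_mem {r w j : ℕ} (hw : 0 < w) (hj : r ≤ j) : r + ix r w j * w ≤ j ∧ j < r + ix r w j * w + w := by
  unfold ix
  have h1 := Nat.div_mul_le_self (j - r) w
  have h2 := Nat.lt_div_mul_add (a := j - r) hw
  omega

theorem ix_lt {r w j ρ : ℕ} (hj' : j < r + ρ) : ix r w j < ρ / w + 1 := by
  unfold ix
  have : (j - r) / w ≤ ρ / w := Nat.div_le_div_right (by omega)
  omega

theorem ix_mono {r w j k : ℕ} (h : k ≤ j) : ix r w k ≤ ix r w j := Nat.div_le_div_right (by omega)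

/-- A double sum over the rows by stretches. -/
theorem fib2 {M : Type*} [AddCommMonoid M] {R : Finset ℕ} {n : ℕ} {f : ℕ → ℕ} (hf : ∀ j ∈ R, f j < n) (A : ℕ) (T : ℕ → ℕ → M) :
    ∑ j ∈ R, ∑ k ∈ R, (if f j + A ≤ f k then T j k else 0) =
      ∑ a ∈ range n, ∑ b ∈ range n, (if a + A ≤ b then ∑ j ∈ R.filter (fun j => f j = a), ∑ k ∈ R.filter (fun k => f k = b), T j k else 0) := by
  have hm : ∀ j ∈ R, f j ∈ range n := fun j hj => mem_range.2 (hf j hj)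
  rw [← sum_fiberwise_of_maps_to hm]
  refine sum_congr rfl fun a _ => ?_
  have e : ∀ j ∈ R.filter (fun j => f j = a), ∑ k ∈ R, (if f j + A ≤ f k then T j k else 0) =
      ∑ b ∈ range n, (if a + A ≤ b then ∑ k ∈ R.filter (fun k => f k = b), T j k else 0) := by
    intro j hj
    have ha := (mem_filter.1 hj).2
    rw [← sum_fiberwise_of_maps_to hm]
    refine sum_congr rfl fun b _ => ?_
    by_cases h : a + A ≤ b
    · rw [if_pos h]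
      refine sum_congr rfl fun k hk => ?_
      rw [if_pos (by rw [ha, (mem_filter.1 hk).2]; exact h)]
    · rw [if_neg h]
      refine sum_eq_zero fun k hk => ?_
      rw [if_neg (by rw [ha, (mem_filter.1 hk).2]; exact h)]
  rw [sum_congr rfl e, sum_comm]
  refine sum_congr rfl fun b _ => ?_
  by_cases h : a + A ≤ b
  · simp only [if_pos h]
  · simp only [if_neg h, sum_const_zero]

theorem half_num {P Q n b ρ u gr gg K : ℝ} (hP : 0 ≤ P) (hQ : (16641 + 6 * K) * P ≤ Q) (hK : 0 ≤ K) (hn0 : 0 ≤ n * b) (hn : n * b ≤ 129 * ρ)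
    (hgr : 0 ≤ gr) (hgg : 0 ≤ gg) : P * (n ^ 2 * (b * u) ^ 2 + gg * (6 * K * (ρ ^ 2 * gr))) ≤ Q * (ρ ^ 2 * u ^ 2 + ρ ^ 2 * gr * gg) := by
  have h1 : (n * b) ^ 2 ≤ (129 * ρ) ^ 2 := pow_le_pow_left₀ hn0 hn 2
  have e1 : n ^ 2 * (b * u) ^ 2 ≤ 16641 * (ρ ^ 2 * u ^ 2) := by
    calc n ^ 2 * (b * u) ^ 2 = (n * b) ^ 2 * u ^ 2 := by ring
      _ ≤ (129 * ρ) ^ 2 * u ^ 2 := mul_le_mul_of_nonneg_right h1 (sq_nonneg _)
      _ = _ := by ring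
  have z1 : 0 ≤ ρ ^ 2 * u ^ 2 := by positivity
  have z2 : 0 ≤ ρ ^ 2 * gr * gg := by positivity
  have e2 : n ^ 2 * (b * u) ^ 2 + gg * (6 * K * (ρ ^ 2 * gr)) ≤ (16641 + 6 * K) * (ρ ^ 2 * u ^ 2 + ρ ^ 2 * gr * gg) := by
    have e3 : gg * (6 * K * (ρ ^ 2 * gr)) = 6 * K * (ρ ^ 2 * gr * gg) := by ring
    have e4 : 0 ≤ 6 * K * (ρ ^ 2 * u ^ 2) := mul_nonneg (by linarith) z1
    rw [e3]
    calc _ ≤ 16641 * (ρ ^ 2 * u ^ 2) + 6 * K * (ρ ^ 2 * gr * gg) := add_le_add e1 le_rfl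
      _ ≤ _ := by
        rw [add_mul, mul_add, mul_add]
        linarith
  calc _ ≤ P * ((16641 + 6 * K) * (ρ ^ 2 * u ^ 2 + ρ ^ 2 * gr * gg)) := mul_le_mul_of_nonneg_left e2 hP
    _ = ((16641 + 6 * K) * P) * (ρ ^ 2 * u ^ 2 + ρ ^ 2 * gr * gg) := by ring
    _ ≤ _ := mul_le_mul_of_nonneg_right hQ (add_nonneg z1 z2)

variable [IsProbabilityMeasure μ] {c₀ C₀ : ℝ} {n₀ : ℕ}

/-- The sum of `1 / E` over the pairs of rows. -/
theorem invsum (h : In μ s c₀ C₀ n₀) : ∃ K : ℝ, 1 ≤ K ∧ ∀ (R : Finset ℕ) (r ρ : ℕ), 1 ≤ ρ → (∀ j ∈ R, r ≤ j ∧ j < r + ρ) →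
    ∑ j ∈ R, ∑ k ∈ R, (if j < k then (EE' μ s (k - j))⁻¹ else 0) ≤ 6 * K * ((ρ : ℝ) ^ 2 * (EE' μ s ρ)⁻¹) := by
  obtain ⟨a₀, K, -, -, hK, hE⟩ := EE'_pow h
  refine ⟨K, hK, fun R r ρ hρ hR => ?_⟩
  have hEp : ∀ t, 0 < EE' μ s t := fun t => lt_of_lt_of_le zero_lt_one (le_max_left _ _)
  have h1 := GS4.dsum_le (S := R) (c := r) (L := ρ) hR (P := fun j k => if j < k then (EE' μ s (k - j))⁻¹ else 0)
    (Φ := fun m => 1 / EE' μ s (max m 1)) (fun m => (div_pos one_pos (hEp _)).le) (fun j _ k _ => by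
      show (if j < k then (EE' μ s (k - j))⁻¹ else 0) ≤ 1 / EE' μ s (max (Nat.dist j k) 1)
      by_cases hjk : j < k
      · rw [if_pos hjk, Nat.dist_eq_sub_of_le hjk.le, max_eq_left (by omega), one_div]
      · rw [if_neg hjk]
        exact (div_pos one_pos (hEp _)).le)
  have h2 := GS4.sum_inv_le (E := EE' μ s) hEp (K := K) (by linarith) (fun t r ht htr => (hE t r ht htr).2.2) (s := 1) (s' := ρ) le_rfl hρ
  have h3 : (R.card : ℝ) ≤ ρ := by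
    have h4 : R ⊆ Ico r (r + ρ) := fun k hk => mem_Ico.2 (hR k hk)
    have h5 := card_le_card h4
    rw [Nat.card_Ico, Nat.add_sub_cancel_left] at h5
    exact_mod_cast h5
  have h6 : 0 ≤ ∑ m ∈ range ρ, 1 / EE' μ s (max m 1) := sum_nonneg fun m _ => (div_pos one_pos (hEp _)).le
  refine h1.trans ?_
  calc (R.card : ℝ) * (2 * ∑ m ∈ range ρ, 1 / EE' μ s (max m 1)) ≤ ρ * (2 * (3 * K * (ρ / EE' μ s ρ))) :=
        mul_le_mul h3 (mul_le_mul_of_nonneg_left h2 (by norm_num)) (mul_nonneg (by norm_num) h6) (Nat.cast_nonneg _)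
    _ = _ := by
        rw [div_eq_mul_inv]
        ring

/-- The far pairs in one order. -/
theorem halfP (h : In μ s c₀ C₀ n₀) : ∀ ε θ : ℝ, 0 < ε → 0 < θ → ∃ θ' : ℝ, 0 < θ' ∧ θ' ≤ θ ∧ ∃ δ κ c₂ : ℝ, 0 < δ ∧ 0 < κ ∧ 0 < c₂ ∧
    ∃ L₀ : ℕ, ∀ L : ℕ, L₀ ≤ L → ∀ N : ℕ, L ≤ 16 * N → N ≤ L → ∀ y : ℕ, y ≤ N → |(y : ℝ) - sl μ s * N| ≤ ((L : ℝ) ^ δ * wd' μ s N) →
    ∀ β lm q C D r ρ : ℕ, ∀ sd sd' : Bool, (L : ℝ) ^ θ ≤ β → (L : ℝ) ^ θ ≤ lm → 3 * q * (lm + 1) ≤ β → 1 ≤ q → (q : ℝ) ≤ (L : ℝ) ^ κ → D ≤ N →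
    β ≤ r → β ≤ ρ → ρ ≤ N → ∀ R : Finset ℕ, (∀ j ∈ R, r ≤ j ∧ j < r + ρ ∧ C + β ≤ j ∧ j + β ≤ D) → ∀ τ τ' : ℕ → ℕ,
    (∀ j ∈ R, j ≤ τ j + β / 2 ∧ τ j + 3 * q * (lm + 1) ≤ j + β / 2) →
    (∀ k ∈ R, k ≤ τ' k + β / 2 ∧ τ' k + 3 * q * (lm + 1) ≤ k + β / 2) → ∀ x : ℝ, x ≤ (L : ℝ) ^ κ →
    ∑ j ∈ R, ∑ k ∈ R, (if ix r (β / 64) j + 4096 ≤ ix r (β / 64) k then
        P1 μ s N y (fun η S => Zz μ s N y C D β lm q sd θ' x L (τ j) j η S ∧ Zz μ s N y C D β lm q sd' θ' x L (τ' k) k η S) else 0) ≤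
      ENNReal.ofReal ((L : ℝ) ^ ε * ((ρ : ℝ) ^ 2 * ((EE' μ s lm)⁻¹ * (EE' μ s β)⁻¹) ^ 2 +
        (ρ : ℝ) ^ 2 * (EE' μ s ρ)⁻¹ * ((EE' μ s lm)⁻¹ * (EE' μ s lm)⁻¹))) + ENNReal.ofReal (Real.exp (-(L : ℝ) ^ c₂)) := by
  intro ε θ hε hθ
  obtain ⟨θ', hθ', hθθ, δ, κ, c₁, hδ, hκ, hc₁, L₁, hF⟩ := farP h (ε / 2) θ (by positivity) hθ
  obtain ⟨K, hK, hI⟩ := invsum h
  obtain ⟨L₂, hE⟩ := ev_mul86 (16641 + 6 * K) (show ε / 2 < ε by linarith)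
  obtain ⟨c₂, hc₂, -, L₃, hX⟩ := Pool.Agent.W_7d29a1_Z.NumI77.pow_exp hc₁ 3
  obtain ⟨L₄, hH⟩ := Pool.Agent.W_7d29a1_Z.NumI77.large hθ 128
  refine ⟨θ', hθ', hθθ, δ, κ, c₂, hδ, hκ, hc₂, L₁ + L₂ + L₃ + L₄ + 9, ?_⟩
  intro L hL N hLN hNL y hyN hyc β lm q C D r ρ sd sd' hβ hlm hlβ hq hqL hDN hr hρ hρN R hR τ τ' hτ hτ' x hx
  have hL9 : (9 : ℝ) ≤ L := by exact_mod_cast (show 9 ≤ L by omega)
  have hL0 : (0 : ℝ) < L := by linarith
  have hEp : ∀ t, 0 < EE' μ s t := fun t => lt_of_lt_of_le zero_lt_one (le_max_left _ _)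
  have hEi : ∀ t, 0 ≤ (EE' μ s t)⁻¹ := fun t => (inv_pos.2 (hEp t)).le
  have hβ128 : 128 ≤ β := by
    have h1 : (128 : ℝ) ≤ β := (hH L (by omega)).2.1.trans hβ
    exact_mod_cast h1
  obtain ⟨w, hw⟩ : ∃ w, w = β / 64 := ⟨_, rfl⟩
  obtain ⟨n, hn⟩ : ∃ n, n = ρ / w + 1 := ⟨_, rfl⟩
  obtain ⟨te, hte⟩ : ∃ te : ℝ, te = Real.exp (-(L : ℝ) ^ c₁) := ⟨_, rfl⟩
  have hte0 : 0 ≤ te := by rw [hte]; exact (Real.exp_pos _).le
  obtain ⟨g, hg⟩ : ∃ g : ℝ, g = (EE' μ s lm)⁻¹ := ⟨_, rfl⟩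
  obtain ⟨gb, hgb⟩ : ∃ gb : ℝ, gb = (EE' μ s β)⁻¹ := ⟨_, rfl⟩
  have hg0 : 0 ≤ g := by rw [hg]; exact hEi _
  have hgb0 : 0 ≤ gb := by rw [hgb]; exact hEi _
  obtain ⟨P, hP⟩ : ∃ P : ℝ, P = (L : ℝ) ^ (ε / 2) := ⟨_, rfl⟩
  have hP0 : 0 ≤ P := by rw [hP]; positivity
  have hw0 : 0 < w := by rw [hw]; omega
  rw [← hw]
  have hidx : ∀ j ∈ R, ix r w j < n := fun j hj => by
    rw [hn]
    exact ix_lt (hR j hj).2.1
  obtain ⟨f, hf⟩ : ∃ f : ℕ → ℕ, f = ix r w := ⟨_, rfl⟩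
  rw [← hf] at hidx ⊢
  rw [fib2 hidx]
  obtain ⟨X, hXd⟩ : ∃ X : ℕ → ℕ → ℝ, X = fun a b => if a + 4096 ≤ b then (β * (g * gb)) ^ 2 +
    ∑ j ∈ R.filter (fun j => f j = a), ∑ k ∈ R.filter (fun k => f k = b), (EE' μ s (k - j))⁻¹ * (g * g) else 0 := ⟨_, rfl⟩
  have hX0 : ∀ a b, 0 ≤ X a b := fun a b => by
    rw [hXd]
    show 0 ≤ if a + 4096 ≤ b then _ else _
    split_ifs
    · exact add_nonneg (sq_nonneg _) (sum_nonneg fun j _ => sum_nonneg fun k _ => mul_nonneg (hEi _) (mul_nonneg hg0 hg0))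
    · exact le_rfl
  have hone : ∀ a ∈ range n, ∀ b ∈ range n, (if a + 4096 ≤ b then ∑ j ∈ R.filter (fun j => f j = a), ∑ k ∈ R.filter (fun k => f k = b),
      P1 μ s N y (fun η S => Zz μ s N y C D β lm q sd θ' x L (τ j) j η S ∧ Zz μ s N y C D β lm q sd' θ' x L (τ' k) k η S) else 0) ≤
      ENNReal.ofReal (P * X a b + te) := by
    intro a _ b _
    by_cases hab : a + 4096 ≤ b
    · rw [if_pos hab]
      have hmem : ∀ i, ∀ j ∈ R.filter (fun j => f j = i), r + i * w ≤ j ∧ j < r + i * w + w := fun i j hj => by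
        obtain ⟨h1, h2⟩ := mem_filter.1 hj
        have h3 := ix_mem hw0 (hR j h1).1
        rw [← hf, h2] at h3
        exact h3
      have hd : r + a * w + 32 * β ≤ r + b * w := by
        have h1 : (a + 4096) * w ≤ b * w := Nat.mul_le_mul_right _ hab
        rw [add_mul] at h1
        omega
      have h1 := hF L (by omega) N hLN hNL y hyN hyc β lm q C D (r + a * w) (r + b * w) sd sd' hβ hlm hlβ hq hqL hDN (by omega) hd
        (R.filter (fun j => f j = a)) (R.filter (fun k => f k = b))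
        (fun j hj => by have h1 := hmem a j hj; have h2 := hR j (mem_filter.1 hj).1; rw [← hw]; omega)
        (fun k hk => by have h1 := hmem b k hk; have h2 := hR k (mem_filter.1 hk).1; rw [← hw]; omega) τ τ'
        (fun j hj => hτ j (mem_filter.1 hj).1) (fun k hk => hτ' k (mem_filter.1 hk).1) x hx
      refine h1.trans (le_of_eq ?_)
      rw [hXd]
      show _ = ENNReal.ofReal (P * (if a + 4096 ≤ b then _ else _) + te)
      rw [if_pos hab, ← hg, ← hgb, ← hP, ← hte]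
      refine (ENNReal.ofReal_add (mul_nonneg hP0 ?_) hte0).symm
      exact add_nonneg (sq_nonneg _) (sum_nonneg fun j _ => sum_nonneg fun k _ => mul_nonneg (hEi _) (mul_nonneg hg0 hg0))
    · rw [if_neg hab]
      exact zero_le
  refine (sum_le_sum fun a ha => sum_le_sum fun b hb => hone a ha b hb).trans ?_
  rw [← hg, ← hgb]
  have hT0 : ∀ a b, 0 ≤ P * X a b + te := fun a b => add_nonneg (mul_nonneg hP0 (hX0 a b)) hte0
  rw [sum_congr rfl fun a _ => (ENNReal.ofReal_sum_of_nonneg fun b _ => hT0 a b).symm,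
    ← ENNReal.ofReal_sum_of_nonneg fun a _ => sum_nonneg fun b _ => hT0 a b]
  have z1 : 0 ≤ (ρ : ℝ) ^ 2 * (g * gb) ^ 2 + (ρ : ℝ) ^ 2 * (EE' μ s ρ)⁻¹ * (g * g) := by
    have := hEi ρ
    positivity
  rw [← ENNReal.ofReal_add (mul_nonneg (by positivity) z1) (Real.exp_pos _).le]
  refine ENNReal.ofReal_le_ofReal ?_
  have e1 : ∑ a ∈ range n, ∑ b ∈ range n, (P * X a b + te) = P * (∑ a ∈ range n, ∑ b ∈ range n, X a b) + n ^ 2 * te := by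
    simp only [sum_add_distrib, sum_const, card_range, nsmul_eq_mul, mul_sum]
    ring
  have e2 : ∑ a ∈ range n, ∑ b ∈ range n, X a b ≤ n ^ 2 * (β * (g * gb)) ^ 2 + (g * g) * (6 * K * ((ρ : ℝ) ^ 2 * (EE' μ s ρ)⁻¹)) := by
    have f1 : ∑ a ∈ range n, ∑ b ∈ range n, X a b ≤ ∑ a ∈ range n, ∑ b ∈ range n, ((β * (g * gb)) ^ 2 + (if a + 4096 ≤ b then
        ∑ j ∈ R.filter (fun j => f j = a), ∑ k ∈ R.filter (fun k => f k = b), (EE' μ s (k - j))⁻¹ * (g * g) else 0)) := by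
      refine sum_le_sum fun a _ => sum_le_sum fun b _ => ?_
      rw [hXd]
      show (if a + 4096 ≤ b then _ else _) ≤ _
      by_cases hab : a + 4096 ≤ b
      · rw [if_pos hab, if_pos hab]
      · rw [if_neg hab, if_neg hab]
        exact add_nonneg (sq_nonneg _) le_rfl
    refine f1.trans ?_
    simp only [sum_add_distrib]
    refine add_le_add (le_of_eq ?_) ?_
    · rw [sum_const, sum_const, card_range, nsmul_eq_mul, nsmul_eq_mul]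
      ring
    · rw [← fib2 hidx 4096 fun j k => (EE' μ s (k - j))⁻¹ * (g * g)]
      refine le_trans ?_ (mul_le_mul_of_nonneg_left (hI R r ρ (by omega) fun j hj => ⟨(hR j hj).1, (hR j hj).2.1⟩) (mul_nonneg hg0 hg0))
      rw [mul_sum]
      refine sum_le_sum fun j _ => ?_
      rw [mul_sum]
      refine sum_le_sum fun k _ => ?_
      by_cases hc : f j + 4096 ≤ f k
      · have hjk : j < k := by
          by_contra hcon
          have := ix_mono (r := r) (w := w) (not_lt.1 hcon)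
          rw [← hf] at this
          omega
        rw [if_pos hc, if_pos hjk, mul_comm]
      · rw [if_neg hc]
        split_ifs
        · exact mul_nonneg (mul_nonneg hg0 hg0) (hEi _)
        · rw [mul_zero]
  have hnβ : (n : ℝ) * β ≤ 129 * ρ := by
    have h1 : n * β ≤ 129 * ρ := by
      have h2 := Nat.div_mul_le_self ρ w
      have h3 : β ≤ 128 * w := by omega
      calc n * β = ρ / w * β + β := by rw [hn]; ring
        _ ≤ ρ / w * (128 * w) + ρ := add_le_add (Nat.mul_le_mul_left _ h3) hρ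
        _ = 128 * (ρ / w * w) + ρ := by ring
        _ ≤ 129 * ρ := by omega
    exact_mod_cast h1
  have hnL : (n : ℝ) ≤ L + 1 := by
    have h1 : n ≤ N + 1 := by
      have := Nat.div_le_self ρ w
      omega
    have h2 : (N : ℝ) ≤ L := by exact_mod_cast hNL
    have h3 : (n : ℝ) ≤ N + 1 := by exact_mod_cast h1
    linarith
  have h3 : (n : ℝ) ^ 2 * te ≤ Real.exp (-(L : ℝ) ^ c₂) := by
    have f1 := hX L (by omega)
    rw [← hte] at f1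
    refine le_trans (mul_le_mul_of_nonneg_right ?_ hte0) f1
    have f2 : (n : ℝ) ^ 2 ≤ (L + 1) ^ 2 := pow_le_pow_left₀ (Nat.cast_nonneg _) hnL 2
    have f3 : (L : ℝ) ^ (3 : ℝ) = L ^ 2 * L := by
      rw [show (3 : ℝ) = ((3 : ℕ) : ℝ) by norm_num, Real.rpow_natCast]
      ring
    rw [f3]
    nlinarith
  rw [e1]
  refine add_le_add ?_ h3
  refine (mul_le_mul_of_nonneg_left e2 hP0).trans ?_
  refine half_num hP0 ?_ (by linarith) (by positivity) hnβ (hEi _) (mul_nonneg hg0 hg0)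
  rw [hP]
  exact hE L (by omega)

omit [IsProbabilityMeasure μ] in
/-- The near pairs. -/
theorem near_sum {R : Finset ℕ} {r ρ B : ℕ} (hR : ∀ j ∈ R, r ≤ j ∧ j < r + ρ) (hB : 1 ≤ B) {b : ℝ≥0∞} :
    ∑ j ∈ R, ∑ k ∈ R, (if Nat.dist j k ≤ 65 * B then b else 0) ≤ ((ρ * (131 * B) : ℕ) : ℝ≥0∞) * b := by
  have h1 : R.card ≤ ρ := by
    have h4 : R ⊆ Ico r (r + ρ) := fun k hk => mem_Ico.2 (hR k hk)
    have h5 := card_le_card h4
    rwa [Nat.card_Ico, Nat.add_sub_cancel_left] at h5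
  have h2 : ∀ j ∈ R, ∑ k ∈ R, (if Nat.dist j k ≤ 65 * B then b else 0) ≤ ((131 * B : ℕ) : ℝ≥0∞) * b := by
    intro j _
    rw [← sum_filter, sum_const, nsmul_eq_mul]
    refine mul_le_mul' ?_ le_rfl
    have h3 : R.filter (fun k => Nat.dist j k ≤ 65 * B) ⊆ Icc (j - 65 * B) (j + 65 * B) := fun k hk => by
      have := (mem_filter.1 hk).2
      unfold Nat.dist at this
      rw [mem_Icc]
      omega
    have h4 := card_le_card h3
    rw [Nat.card_Icc] at h4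
    have h5 : (R.filter (fun k => Nat.dist j k ≤ 65 * B)).card ≤ 131 * B := by omega
    exact_mod_cast h5
  refine (sum_le_sum h2).trans ?_
  rw [sum_const, nsmul_eq_mul, ← mul_assoc, Nat.cast_mul ρ]
  exact mul_le_mul' (mul_le_mul' (by exact_mod_cast h1) le_rfl) le_rfl

theorem pair_num {P Q W ρ β g te tc ep L : ℝ} (hPQ : 131 * P ≤ Q) (h2 : 2 * P ≤ Q) (hW : 0 ≤ W) (hρ : 0 ≤ ρ) (hβ : 0 ≤ β)
    (hg : 0 ≤ g) (hte : 0 ≤ te) (hL : 131 ≤ L) (hρL : ρ ≤ L) (hβL : β ≤ L) (htc : te + te + L ^ 3 * te ≤ ep) (hc : tc ≤ te) :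
    P * W + tc + (P * W + tc) + ρ * (131 * β) * (P * g + te) ≤ Q * (ρ * β * g + W) + ep := by
  have e1 : ρ * (131 * β) * te ≤ L ^ 3 * te := by
    refine mul_le_mul_of_nonneg_right ?_ hte
    calc ρ * (131 * β) ≤ L * (L * L) := mul_le_mul hρL (mul_le_mul hL hβL hβ (by linarith)) (by positivity) (by linarith)
      _ = L ^ 3 := by ring
  have e2 : 131 * P * (ρ * β * g) ≤ Q * (ρ * β * g) := mul_le_mul_of_nonneg_right hPQ (by positivity)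
  have e3 : 2 * P * W ≤ Q * W := mul_le_mul_of_nonneg_right h2 hW
  calc _ = 2 * P * W + 131 * P * (ρ * β * g) + (tc + tc + ρ * (131 * β) * te) := by ring
    _ ≤ Q * W + Q * (ρ * β * g) + ep := add_le_add (add_le_add e3 e2) (by linarith)
    _ = _ := by ring

/-- **ALL PAIRS OF ROWS.** -/
theorem pairP (h : In μ s c₀ C₀ n₀) : ∀ ε θ : ℝ, 0 < ε → 0 < θ → ∃ θ' : ℝ, 0 < θ' ∧ θ' ≤ θ ∧ ∃ δ κ c₂ : ℝ, 0 < δ ∧ 0 < κ ∧ 0 < c₂ ∧
    ∃ L₀ : ℕ, ∀ L : ℕ, L₀ ≤ L → ∀ N : ℕ, L ≤ 16 * N → N ≤ L → ∀ y : ℕ, y ≤ N → |(y : ℝ) - sl μ s * N| ≤ ((L : ℝ) ^ δ * wd' μ s N) →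
    ∀ β lm q C D r ρ : ℕ, ∀ sd sd' : Bool, (L : ℝ) ^ θ ≤ β → (L : ℝ) ^ θ ≤ lm → 3 * q * (lm + 1) ≤ β → 1 ≤ q → (q : ℝ) ≤ (L : ℝ) ^ κ → D ≤ N →
    β ≤ r → β ≤ ρ → ρ ≤ N → ∀ R : Finset ℕ, (∀ j ∈ R, r ≤ j ∧ j < r + ρ ∧ C + β ≤ j ∧ j + β ≤ D) → ∀ τ τ' : ℕ → ℕ,
    (∀ j ∈ R, j ≤ τ j + β / 2 ∧ τ j + 3 * q * (lm + 1) ≤ j + β / 2) →
    (∀ k ∈ R, k ≤ τ' k + β / 2 ∧ τ' k + 3 * q * (lm + 1) ≤ k + β / 2) → ∀ x : ℝ, x ≤ (L : ℝ) ^ κ →
    ∑ j ∈ R, ∑ k ∈ R, P1 μ s N y (fun η S => Zz μ s N y C D β lm q sd θ' x L (τ j) j η S ∧ Zz μ s N y C D β lm q sd' θ' x L (τ' k) k η S) ≤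
      ENNReal.ofReal ((L : ℝ) ^ ε * (ρ * β * (EE' μ s lm)⁻¹ + ((ρ : ℝ) ^ 2 * ((EE' μ s lm)⁻¹ * (EE' μ s β)⁻¹) ^ 2 +
        (ρ : ℝ) ^ 2 * (EE' μ s ρ)⁻¹ * ((EE' μ s lm)⁻¹ * (EE' μ s lm)⁻¹)))) + ENNReal.ofReal (Real.exp (-(L : ℝ) ^ c₂)) := by
  intro ε θ hε hθ
  obtain ⟨θ', hθ', hθθ, δ₁, κ₁, d₁, hδ₁, hκ₁, hd₁, L₁, hF⟩ := halfP h (ε / 2) θ (by positivity) hθ
  obtain ⟨δ₂, κ₂, d₂, hδ₂, hκ₂, hd₂, L₂, hM⟩ := micP h (ε / 2) θ (by positivity) hθ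
  obtain ⟨κ, hκd⟩ : ∃ κ, κ = min κ₁ (min (κ₂ / 2) (1 / 2)) := ⟨_, rfl⟩
  have hκ : 0 < κ := by
    rw [hκd]
    exact lt_min hκ₁ (lt_min (by positivity) (by norm_num))
  have k1 : κ ≤ κ₁ := by rw [hκd]; exact min_le_left _ _
  have k2 : κ ≤ κ₂ / 2 := by rw [hκd]; exact (min_le_right _ _).trans (min_le_left _ _)
  have k3 : κ ≤ 1 / 2 := by rw [hκd]; exact (min_le_right _ _).trans (min_le_right _ _)
  obtain ⟨L₃, hE⟩ := ev_mul86 131 (show ε / 2 < ε by linarith)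
  obtain ⟨c₂, hc₂, -, L₄, hX⟩ := Pool.Agent.W_7d29a1_Z.NumI77.pow_exp (lt_min hd₁ hd₂) 4
  obtain ⟨L₅, hH⟩ := Pool.Agent.W_7d29a1_Z.NumI77.large hθ 128
  obtain ⟨L₆, hQ⟩ := ev_mul86 3 (show κ₂ / 2 < κ₂ by linarith)
  obtain ⟨L₇, hQ'⟩ := ev_mul86 3 (show (1 / 2 : ℝ) < 1 by norm_num)
  refine ⟨θ', hθ', hθθ, min δ₁ δ₂, κ, c₂, lt_min hδ₁ hδ₂, hκ, hc₂, L₁ + L₂ + L₃ + L₄ + L₅ + L₆ + L₇ + 131, ?_⟩
  intro L hL N hLN hNL y hyN hyc β lm q C D r ρ sd sd' hβ hlm hlβ hq hqL hDN hr hρ hρN R hR τ τ' hτ hτ' x hx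
  have hL9 : (131 : ℝ) ≤ L := by exact_mod_cast (show 131 ≤ L by omega)
  have hL0 : (0 : ℝ) < L := by linarith
  have hL1 : (1 : ℝ) ≤ L := by linarith
  have hwd : ∀ n, 0 < wd' μ s n := fun n => lt_of_lt_of_le zero_lt_one (le_max_left _ _)
  have hcone : ∀ δ', min δ₁ δ₂ ≤ δ' → |(y : ℝ) - sl μ s * N| ≤ ((L : ℝ) ^ δ' * wd' μ s N) := fun δ' hδ' =>
    hyc.trans (mul_le_mul_of_nonneg_right (Real.rpow_le_rpow_of_exponent_le hL1 hδ') (hwd N).le)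
  have hEp : ∀ t, 0 < EE' μ s t := fun t => lt_of_lt_of_le zero_lt_one (le_max_left _ _)
  have hEi : ∀ t, 0 ≤ (EE' μ s t)⁻¹ := fun t => (inv_pos.2 (hEp t)).le
  have hβ128 : 128 ≤ β := by
    have h1 : (128 : ℝ) ≤ β := (hH L (by omega)).2.1.trans hβ
    exact_mod_cast h1
  have h3q : ((3 * q : ℕ) : ℝ) ≤ (L : ℝ) ^ κ₂ := by
    push_cast
    refine le_trans ?_ (hQ L (by omega))
    exact mul_le_mul_of_nonneg_left (hqL.trans (Real.rpow_le_rpow_of_exponent_le hL1 k2)) (by norm_num)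
  have h3qL : 3 * q ≤ L := by
    have h1 : ((3 * q : ℕ) : ℝ) ≤ L := by
      push_cast
      refine le_trans ?_ ((hQ' L (by omega)).trans_eq (Real.rpow_one _))
      exact mul_le_mul_of_nonneg_left (hqL.trans (Real.rpow_le_rpow_of_exponent_le hL1 k3)) (by norm_num)
    exact_mod_cast h1
  obtain ⟨te, hte⟩ : ∃ te : ℝ, te = Real.exp (-(L : ℝ) ^ (min d₁ d₂)) := ⟨_, rfl⟩
  have hte0 : 0 ≤ te := by rw [hte]; exact (Real.exp_pos _).le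
  have ht1 : Real.exp (-(L : ℝ) ^ d₁) ≤ te := by
    rw [hte]
    exact Pool.Agent.W_7d29a1_Z.NumI77.exp_mono (min_le_left _ _) (by omega)
  have ht2 : Real.exp (-(L : ℝ) ^ d₂) ≤ te := by
    rw [hte]
    exact Pool.Agent.W_7d29a1_Z.NumI77.exp_mono (min_le_right _ _) (by omega)
  obtain ⟨P, hP⟩ : ∃ P : ℝ, P = (L : ℝ) ^ (ε / 2) := ⟨_, rfl⟩
  have hP0 : 0 ≤ P := by rw [hP]; positivity
  obtain ⟨W, hW⟩ : ∃ W : ℝ, W = (ρ : ℝ) ^ 2 * ((EE' μ s lm)⁻¹ * (EE' μ s β)⁻¹) ^ 2 +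
        (ρ : ℝ) ^ 2 * (EE' μ s ρ)⁻¹ * ((EE' μ s lm)⁻¹ * (EE' μ s lm)⁻¹) := ⟨_, rfl⟩
  have hW0 : 0 ≤ W := by
    rw [hW]
    have h1 := hEi ρ
    have h2 := hEi lm
    positivity
  obtain ⟨g, hg⟩ : ∃ g : ℝ, g = (EE' μ s lm)⁻¹ := ⟨_, rfl⟩
  have hg0 : 0 ≤ g := by rw [hg]; exact hEi _
  obtain ⟨w, hw⟩ : ∃ w, w = β / 64 := ⟨_, rfl⟩
  have hw0 : 0 < w := by rw [hw]; omega
  have hqκ : (q : ℝ) ≤ (L : ℝ) ^ κ₁ := hqL.trans (Real.rpow_le_rpow_of_exponent_le hL1 k1)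
  have hxκ : x ≤ (L : ℝ) ^ κ₁ := hx.trans (Real.rpow_le_rpow_of_exponent_le hL1 k1)
  have s1 := hF L (by omega) N hLN hNL y hyN (hcone _ (min_le_left _ _)) β lm q C D r ρ sd sd' hβ hlm hlβ hq hqκ hDN hr hρ hρN R hR τ τ'
    hτ hτ' x hxκ
  have s2 := hF L (by omega) N hLN hNL y hyN (hcone _ (min_le_left _ _)) β lm q C D r ρ sd' sd hβ hlm hlβ hq hqκ hDN hr hρ hρN R hR τ' τ
    hτ' hτ x hxκ
  rw [← hW, ← hP, ← hw] at s1 s2
  rw [← hW, ← hg]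
  -- the near pairs
  have hnear : ∀ j ∈ R, ∀ k ∈ R, P1 μ s N y (fun η S => Zz μ s N y C D β lm q sd θ' x L (τ j) j η S ∧
      Zz μ s N y C D β lm q sd' θ' x L (τ' k) k η S) ≤ ENNReal.ofReal (P * g + te) := by
    intro j hj k _
    have j1 := hR j hj
    have j2 := hτ j hj
    have h1 := hM L (by omega) N hLN hNL y hyN (hcone _ (min_le_right _ _)) β lm q j (τ j) hlm h3q h3qL (by omega) (by omega) (by omega) x
      (hx.trans (Real.rpow_le_rpow_of_exponent_le hL1 (by linarith)))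
    refine (A12.P1_mono fun η S hev => hev.1.1).trans (h1.trans ?_)
    rw [← hP, ← hg, ENNReal.ofReal_add (mul_nonneg hP0 hg0) hte0]
    exact add_le_add le_rfl (ENNReal.ofReal_le_ofReal ht2)
  have hall : ∀ j ∈ R, ∀ k ∈ R, P1 μ s N y (fun η S => Zz μ s N y C D β lm q sd θ' x L (τ j) j η S ∧
      Zz μ s N y C D β lm q sd' θ' x L (τ' k) k η S) ≤
      (if ix r w j + 4096 ≤ ix r w k then P1 μ s N y (fun η S => Zz μ s N y C D β lm q sd θ' x L (τ j) j η S ∧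
        Zz μ s N y C D β lm q sd' θ' x L (τ' k) k η S) else 0) +
      (if ix r w k + 4096 ≤ ix r w j then P1 μ s N y (fun η S => Zz μ s N y C D β lm q sd' θ' x L (τ' k) k η S ∧
        Zz μ s N y C D β lm q sd θ' x L (τ j) j η S) else 0) + (if Nat.dist j k ≤ 65 * β then ENNReal.ofReal (P * g + te) else 0) := by
    intro j hj k hk
    by_cases h1 : ix r w j + 4096 ≤ ix r w k
    · rw [if_pos h1, add_assoc]
      exact le_self_add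
    · by_cases h2 : ix r w k + 4096 ≤ ix r w j
      · rw [if_neg h1, if_pos h2, zero_add]
        refine le_trans (A12.P1_mono fun η S hev => ⟨hev.2, hev.1⟩) le_self_add
      · have h3 : Nat.dist j k ≤ 65 * β := by
          have i1 := ix_mem hw0 (hR j hj).1
          have i2 := ix_mem hw0 (hR k hk).1
          have i3 : ix r w j * w ≤ (ix r w k + 4095) * w := Nat.mul_le_mul_right _ (by omega)
          have i4 : ix r w k * w ≤ (ix r w j + 4095) * w := Nat.mul_le_mul_right _ (by omega)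
          rw [add_mul] at i3 i4
          unfold Nat.dist
          omega
        rw [if_neg h1, if_neg h2, if_pos h3, zero_add, zero_add]
        exact hnear j hj k hk
  refine (sum_le_sum fun j hj => sum_le_sum fun k hk => hall j hj k hk).trans ?_
  simp only [sum_add_distrib]
  rw [sum_comm (s := R) (t := R) (f := fun j k => if ix r w k + 4096 ≤ ix r w j then P1 μ s N y (fun η S =>
    Zz μ s N y C D β lm q sd' θ' x L (τ' k) k η S ∧ Zz μ s N y C D β lm q sd θ' x L (τ j) j η S) else 0)]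
  refine (add_le_add (add_le_add s1 s2) (near_sum (fun j hj => ⟨(hR j hj).1, (hR j hj).2.1⟩) (by omega))).trans ?_
  have hPW : 0 ≤ P * W := mul_nonneg hP0 hW0
  have hPg : 0 ≤ P * g + te := add_nonneg (mul_nonneg hP0 hg0) hte0
  rw [← ENNReal.ofReal_natCast, ← ENNReal.ofReal_mul (Nat.cast_nonneg _), ← ENNReal.ofReal_add hPW (Real.exp_pos _).le,
    ← ENNReal.ofReal_add (add_nonneg hPW (Real.exp_pos _).le) (add_nonneg hPW (Real.exp_pos _).le),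
    ← ENNReal.ofReal_add (add_nonneg (add_nonneg hPW (Real.exp_pos _).le) (add_nonneg hPW (Real.exp_pos _).le))
      (mul_nonneg (Nat.cast_nonneg _) hPg), ← ENNReal.ofReal_add (mul_nonneg (by positivity) (add_nonneg (by positivity) hW0)) (Real.exp_pos _).le]
  refine ENNReal.ofReal_le_ofReal ?_
  push_cast
  have hρL : (ρ : ℝ) ≤ L := by exact_mod_cast hρN.trans hNL
  have hβL : (β : ℝ) ≤ L := by exact_mod_cast (hρ.trans hρN).trans hNL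
  have hEL := hE L (by omega)
  rw [← hP] at hEL
  refine pair_num (te := te) (L := L) hEL (by linarith) hW0 (Nat.cast_nonneg _) (Nat.cast_nonneg _) hg0 hte0 hL9 hρL hβL ?_ ht1
  have f1 := hX L (by omega)
  rw [← hte] at f1
  refine le_trans ?_ f1
  have f3 : (L : ℝ) ^ (4 : ℝ) = L ^ 3 * L := by
    rw [show (4 : ℝ) = ((4 : ℕ) : ℝ) by norm_num, Real.rpow_natCast]
    ring
  rw [f3]
  have f4 : (1 : ℝ) ≤ L ^ 3 := one_le_pow₀ hL1
  have f5 : (2 : ℝ) + L ^ 3 ≤ L ^ 3 * L := by nlinarith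
  calc te + te + (L : ℝ) ^ 3 * te = (2 + (L : ℝ) ^ 3) * te := by ring
    _ ≤ _ := mul_le_mul_of_nonneg_right f5 hte0

end Pool.Agent.W_7d29a1_C0.P42
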