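import Pool.Agent.W_7d29a1_C0.SiteS3

/-!
MP_7d29a1_pr, [C0], helper3: PAIRS OF DOUBLE TIES IN ONE BLOCK, FAR AND LOCAL (events). `strL`: one stretch of length `β / 64`, the own event is
local (`OwL`, block `[C, D)`). `pairL`: two stretches with a middle row `m` between them: the own event of the first is local to `[C, m)`, the
one of the second to `[m, D)`. `sumP`: the sum over all pairs at distance at least `64 β` of a set of rows inside of an interval of length `ρ`.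
-/

set_option autoImplicit false

namespace Pool.Agent.W_7d29a1_C0.SS3

open MeasureTheory ProbabilityTheory Filter Topology Finset
open Pool.Agent.W_7d29a1_F Pool.Agent.W_7d29a1_X Pool.Agent.W_7d29a1_h4g Pool.Agent.W_7d29a1_H
open Pool.Agent.W_7d29a1_HS (In wd md)
open Pool.Agent.W_7d29a1_HZ Pool.Agent.W_7d29a1_HZ.R72 Pool.Agent.W_7d29a1_Z.Asm72
open Pool.Agent.W_7d29a1_HZ.Z86
open Pool.Agent.W_7d29a1_C0.P86 Pool.Agent.W_7d29a1_C0.P15 Pool.Agent.W_7d29a1_C0.P42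
open Pool.Agent.W_7d29a1_C0.P3 (Hy hy_ms hy_off)
open scoped ENNReal

variable {μ : Measure ℝ} {s : ℝ} {N : ℕ} [IsProbabilityMeasure μ] {c₀ C₀ : ℝ} {n₀ : ℕ}

/-- **One stretch**, local own event. -/
theorem strL (h : In μ s c₀ C₀ n₀) (sd : Bool) : ∀ ε θ : ℝ, 0 < ε → 0 < θ → ∃ θ' : ℝ, 0 < θ' ∧ θ' ≤ θ ∧ ∃ δ κ c₂ : ℝ, 0 < δ ∧ 0 < κ ∧ 0 < c₂ ∧
    ∃ L₀ : ℕ, ∀ L : ℕ, L₀ ≤ L → ∀ N : ℕ, L ≤ 16 * N → N ≤ L → ∀ y : ℕ, y ≤ N → |(y : ℝ) - sl μ s * N| ≤ ((L : ℝ) ^ δ * wd' μ s N) →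
    ∀ C D β l q z : ℕ, (L : ℝ) ^ θ ≤ β → (L : ℝ) ^ θ ≤ l → D ≤ N → 1 ≤ q → (q : ℝ) ≤ (L : ℝ) ^ κ →
    ∀ JJ : Finset ℕ, (∀ j ∈ JJ, C + 4 * β ≤ j ∧ j + 4 * β ≤ D ∧ z ≤ j ∧ j < z + β / 64) →
    ∀ u v : ℕ → ℕ, (∀ j ∈ JJ, j ≤ u j + β / 2 ∧ v j ≤ j + β / 2 ∧ u j + l ≤ v j) → ∀ x : ℝ, x ≤ (L : ℝ) ^ κ →
    ∀ F : Env → Finset ℕ → Prop, Ms F → OffRows (Ioo C D) F →
    ∑ j ∈ JJ, P1 μ s N y (fun η S => F η S ∧ Hy μ s N y (j - β) (j + β) (NoMeet (u j) (v j)) x η S ∧ OwL μ s N y C D β q sd j θ' x L η S) ≤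
      ENNReal.ofReal ((L : ℝ) ^ ε * ((β * (EE' μ s β)⁻¹ + JJ.card * (EE' μ s l)⁻¹) * (EE' μ s β)⁻¹)) * P1 μ s N y F +
        ENNReal.ofReal (Real.exp (-(L : ℝ) ^ c₂)) := by
  intro ε θ hε hθ
  have hwd : ∀ n, 0 < wd' μ s n := fun n => lt_of_lt_of_le zero_lt_one (le_max_left _ _)
  cases sd with
  | true =>
    obtain ⟨ε', θ', hε', hθ', hθθ, hC⟩ := site_coreR h ε θ hε hθ
    obtain ⟨δ₁, κ₁, c₁, hδ₁, hκ₁, hc₁, L₁, hOwn⟩ := owl_pr h ε' θ' hε' hθ'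
    obtain ⟨δ₂, κ₂, c₂, hδ₂, hκ₂, hc₂, L₂, hP⟩ := hC c₁ hc₁
    obtain ⟨L₅, hβ64⟩ := ev_mul86 64 (show 0 < θ by linarith)
    refine ⟨θ', hθ', hθθ, min δ₁ δ₂, min κ₁ κ₂, c₂, lt_min hδ₁ hδ₂, lt_min hκ₁ hκ₂, hc₂, L₁ + L₂ + L₅ + 1, ?_⟩
    intro L hL N hLN hNL y hyN hyc C D β l q z hbL hlL hDN hq hqL JJ hJJ u v huv x hx F hF hFo
    have hLR : (1 : ℝ) ≤ L := by exact_mod_cast (show 1 ≤ L by omega)
    have hcone : ∀ δ', min δ₁ δ₂ ≤ δ' → |(y : ℝ) - sl μ s * N| ≤ ((L : ℝ) ^ δ' * wd' μ s N) := fun δ' hδ' =>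
      hyc.trans (mul_le_mul_of_nonneg_right (Real.rpow_le_rpow_of_exponent_le hLR hδ') (hwd N).le)
    have hx' : ∀ κ', min κ₁ κ₂ ≤ κ' → x ≤ (L : ℝ) ^ κ' := fun κ' hκ' => hx.trans (Real.rpow_le_rpow_of_exponent_le hLR hκ')
    have hq' : (q : ℝ) ≤ (L : ℝ) ^ κ₁ := hqL.trans (Real.rpow_le_rpow_of_exponent_le hLR (min_le_left _ _))
    have hb64 : 64 ≤ β := by
      have h1 := hβ64 L (by omega)
      rw [Real.rpow_zero, mul_one] at h1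
      exact_mod_cast h1.trans hbL
    rcases JJ.eq_empty_or_nonempty with hRe | ⟨j₁, hj₁⟩
    · rw [hRe, sum_empty]
      exact zero_le
    obtain ⟨hi, hhi⟩ : ∃ hi, hi = z + β + β / 64 - 1 := ⟨_, rfl⟩
    have k1 := hJJ j₁ hj₁
    have hiD : hi + (D - 1 - hi) = D - 1 := by omega
    refine hP L (by omega) N hLN hNL y hyN (hcone _ (min_le_right _ _)) β l hi (D - 1 - hi) hbL hlL (by omega) JJ
      (fun j hj => by have := hJJ j hj; omega) u v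
      (fun j hj => ⟨by have := huv j hj; omega, by have := huv j hj; omega, (huv j hj).2.2⟩)
      (fun j => OwL μ s N y C D β q true j θ' x L) (fun j hj T hT hTb G hG hGo => ?_) x (hx' _ (min_le_right _ _)) F hF
      (Pool.Agent.W_7d29a1_HZ.ZE.OffRows.mono36 (fun k hk => by
        rw [mem_Ioc] at hk
        rw [mem_Ioo]
        omega) hFo)
    have k3 := hJJ j hj
    exact hOwn L (by omega) N hLN hNL y hyN (hcone _ (min_le_left _ _)) C D β q j true hq hq' (by omega) (by omega) hDN x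
      (hx' _ (min_le_left _ _)) T hT hTb G hG (fun _ => Pool.Agent.W_7d29a1_HZ.ZE.OffRows.mono36 (fun k hk => by
        rw [mem_Ioo] at hk
        rw [mem_Ioc]
        omega) hGo) fun hh => absurd hh (by decide)
  | false =>
    obtain ⟨ε', θ', hε', hθ', hθθ, hC⟩ := site_coreL h ε θ hε hθ
    obtain ⟨δ₁, κ₁, c₁, hδ₁, hκ₁, hc₁, L₁, hOwn⟩ := owl_pr h ε' θ' hε' hθ'
    obtain ⟨δ₂, κ₂, c₂, hδ₂, hκ₂, hc₂, L₂, hP⟩ := hC c₁ hc₁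
    obtain ⟨L₅, hβ64⟩ := ev_mul86 64 (show 0 < θ by linarith)
    refine ⟨θ', hθ', hθθ, min δ₁ δ₂, min κ₁ κ₂, c₂, lt_min hδ₁ hδ₂, lt_min hκ₁ hκ₂, hc₂, L₁ + L₂ + L₅ + 1, ?_⟩
    intro L hL N hLN hNL y hyN hyc C D β l q z hbL hlL hDN hq hqL JJ hJJ u v huv x hx F hF hFo
    have hLR : (1 : ℝ) ≤ L := by exact_mod_cast (show 1 ≤ L by omega)
    have hcone : ∀ δ', min δ₁ δ₂ ≤ δ' → |(y : ℝ) - sl μ s * N| ≤ ((L : ℝ) ^ δ' * wd' μ s N) := fun δ' hδ' =>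
      hyc.trans (mul_le_mul_of_nonneg_right (Real.rpow_le_rpow_of_exponent_le hLR hδ') (hwd N).le)
    have hx' : ∀ κ', min κ₁ κ₂ ≤ κ' → x ≤ (L : ℝ) ^ κ' := fun κ' hκ' => hx.trans (Real.rpow_le_rpow_of_exponent_le hLR hκ')
    have hq' : (q : ℝ) ≤ (L : ℝ) ^ κ₁ := hqL.trans (Real.rpow_le_rpow_of_exponent_le hLR (min_le_left _ _))
    have hb64 : 64 ≤ β := by
      have h1 := hβ64 L (by omega)
      rw [Real.rpow_zero, mul_one] at h1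
      exact_mod_cast h1.trans hbL
    rcases JJ.eq_empty_or_nonempty with hRe | ⟨j₁, hj₁⟩
    · rw [hRe, sum_empty]
      exact zero_le
    obtain ⟨lo, hlo⟩ : ∃ lo, lo = z - β := ⟨_, rfl⟩
    have k1 := hJJ j₁ hj₁
    have hiD : lo - (lo - (C + 1)) = C + 1 := by omega
    refine hP L (by omega) N hLN hNL y hyN (hcone _ (min_le_right _ _)) β l lo (lo - (C + 1)) hbL hlL JJ
      (fun j hj => by have := hJJ j hj; omega) u v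
      (fun j hj => ⟨by have := huv j hj; omega, by have := huv j hj; omega, (huv j hj).2.2⟩)
      (fun j => OwL μ s N y C D β q false j θ' x L) (fun j hj T hT hTb G hG hGo => ?_) x (hx' _ (min_le_right _ _)) F hF
      (Pool.Agent.W_7d29a1_HZ.ZE.OffRows.mono36 (fun k hk => by
        rw [mem_Ico] at hk
        rw [mem_Ioo]
        omega) hFo)
    have k3 := hJJ j hj
    exact hOwn L (by omega) N hLN hNL y hyN (hcone _ (min_le_left _ _)) C D β q j false hq hq' (by omega) (by omega) hDN x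
      (hx' _ (min_le_left _ _)) T hT hTb G hG (fun hh => absurd hh (by decide)) fun _ =>
      Pool.Agent.W_7d29a1_HZ.ZE.OffRows.mono36 (fun k hk => by
        rw [mem_Ioo] at hk
        rw [mem_Ico]
        omega) hGo

/-- The event of one row, local. -/
def RowE (μ : Measure ℝ) (s : ℝ) (N y C D β q : ℕ) (sd : Bool) (θ' x : ℝ) (L : ℕ) (u v : ℕ → ℕ) (j : ℕ) (η : Env) (S : Finset ℕ) : Prop :=
  Hy μ s N y (j - β) (j + β) (NoMeet (u j) (v j)) x η S ∧ OwL μ s N y C D β q sd j θ' x L η S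

omit [IsProbabilityMeasure μ] in
theorem rowE_ms {y C D β q : ℕ} {sd : Bool} {θ' x : ℝ} {L : ℕ} {u v : ℕ → ℕ} {j : ℕ} : Ms (RowE μ s N y C D β q sd θ' x L u v j) :=
  ms_and (hy_ms _ _) owl_ms

omit [IsProbabilityMeasure μ] in
theorem rowE_off {y C D β q : ℕ} {sd : Bool} {θ' x : ℝ} {L : ℕ} {u v : ℕ → ℕ} {j : ℕ} (h1 : C + β ≤ j) (h2 : j + β ≤ D) (hD : D ≤ N) {J : Finset ℕ} (hJ : ∀ k ∈ J, k ≤ C ∨ D < k) :
    OffRows J (RowE μ s N y C D β q sd θ' x L u v j) :=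
  off_and (hy_off (by omega) (by omega) _ x fun k hk => by have := hJ k hk; omega) (owl_off hD hJ)

/-- **Two stretches**, a middle row between them. -/
theorem pairL (h : In μ s c₀ C₀ n₀) (sd sd' : Bool) : ∀ ε θ : ℝ, 0 < ε → 0 < θ → ∃ θ₁ θ₂ : ℝ, (0 < θ₁ ∧ θ₁ ≤ θ) ∧ (0 < θ₂ ∧ θ₂ ≤ θ) ∧
    ∃ δ κ c₂ : ℝ, 0 < δ ∧ 0 < κ ∧ 0 < c₂ ∧
    ∃ L₀ : ℕ, ∀ L : ℕ, L₀ ≤ L → ∀ N : ℕ, L ≤ 16 * N → N ≤ L → ∀ y : ℕ, y ≤ N → |(y : ℝ) - sl μ s * N| ≤ ((L : ℝ) ^ δ * wd' μ s N) →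
    ∀ C D m β l q z z' : ℕ, (L : ℝ) ^ θ ≤ β → (L : ℝ) ^ θ ≤ l → D ≤ N → 1 ≤ q → (q : ℝ) ≤ (L : ℝ) ^ κ →
    ∀ J₁ J₂ : Finset ℕ, (∀ j ∈ J₁, C + 4 * β ≤ j ∧ j + 4 * β ≤ m ∧ z ≤ j ∧ j < z + β / 64) →
    (∀ k ∈ J₂, m + 4 * β ≤ k ∧ k + 4 * β ≤ D ∧ z' ≤ k ∧ k < z' + β / 64) →
    ∀ u v u' v' : ℕ → ℕ, (∀ j ∈ J₁, j ≤ u j + β / 2 ∧ v j ≤ j + β / 2 ∧ u j + l ≤ v j) →
    (∀ j ∈ J₂, j ≤ u' j + β / 2 ∧ v' j ≤ j + β / 2 ∧ u' j + l ≤ v' j) →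
    ∀ x : ℝ, x ≤ (L : ℝ) ^ κ → ∀ F : Env → Finset ℕ → Prop, Ms F → OffRows (Ioo C D) F →
    ∑ j ∈ J₁, ∑ k ∈ J₂, P1 μ s N y (fun η S => F η S ∧ RowE μ s N y C m β q sd θ₁ x L u v j η S ∧ RowE μ s N y m D β q sd' θ₂ x L u' v' k η S) ≤
      ENNReal.ofReal ((L : ℝ) ^ ε * (((β * (EE' μ s β)⁻¹ + J₁.card * (EE' μ s l)⁻¹) * (EE' μ s β)⁻¹) *
        ((β * (EE' μ s β)⁻¹ + J₂.card * (EE' μ s l)⁻¹) * (EE' μ s β)⁻¹))) * P1 μ s N y F + ENNReal.ofReal (Real.exp (-(L : ℝ) ^ c₂)) := by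
  intro ε θ hε hθ
  have hE1 : ∀ t, 1 ≤ EE' μ s t := fun t => le_max_left _ _
  have hEi : ∀ t, (EE' μ s t)⁻¹ ≤ 1 := fun t => inv_le_one_of_one_le₀ (hE1 t)
  have hE0 : ∀ t, 0 ≤ (EE' μ s t)⁻¹ := fun t => inv_nonneg.2 (zero_le_one.trans (hE1 t))
  have hwd : ∀ n, 0 < wd' μ s n := fun n => lt_of_lt_of_le zero_lt_one (le_max_left _ _)
  obtain ⟨θ₁, hθ₁, hθ₁', δ₁, κ₁, c₁, hδ₁, hκ₁, hc₁, L₁, hS₁⟩ := strL h sd (ε / 2) θ (by positivity) hθ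
  obtain ⟨θ₂, hθ₂, hθ₂', δ₂, κ₂, c₂, hδ₂, hκ₂, hc₂, L₂, hS₂⟩ := strL h sd' (ε / 2) θ (by positivity) hθ
  obtain ⟨c₃, hc₃, -, L₃, hX⟩ := Pool.Agent.W_7d29a1_Z.NumI77.pow_exp (lt_min hc₁ hc₂) (ε / 2 + 3)
  refine ⟨θ₁, θ₂, ⟨hθ₁, hθ₁'⟩, ⟨hθ₂, hθ₂'⟩, min δ₁ δ₂, min κ₁ κ₂, c₃, lt_min hδ₁ hδ₂, lt_min hκ₁ hκ₂, hc₃, L₁ + L₂ + L₃ + 3, ?_⟩
  intro L hL N hLN hNL y hyN hyc C D m β l q z z' hbL hlL hDN hq hqL J₁ J₂ hJ₁ hJ₂ u v u' v' hu₁ hu₂ x hx F hF hFo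
  have hL3 : (3 : ℝ) ≤ L := by exact_mod_cast (show 3 ≤ L by omega)
  have hLR : (1 : ℝ) ≤ L := by linarith
  have hL0 : (0 : ℝ) < L := by linarith
  have hcone : ∀ δ', min δ₁ δ₂ ≤ δ' → |(y : ℝ) - sl μ s * N| ≤ ((L : ℝ) ^ δ' * wd' μ s N) := fun δ' hδ' =>
    hyc.trans (mul_le_mul_of_nonneg_right (Real.rpow_le_rpow_of_exponent_le hLR hδ') (hwd N).le)
  have hxx : ∀ w : ℝ, w ≤ (L : ℝ) ^ min κ₁ κ₂ → ∀ κ', min κ₁ κ₂ ≤ κ' → w ≤ (L : ℝ) ^ κ' := fun w hw κ' hκ' =>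
    hw.trans (Real.rpow_le_rpow_of_exponent_le hLR hκ')
  obtain ⟨e, he⟩ : ∃ e : ℝ, e = Real.exp (-(L : ℝ) ^ min c₁ c₂) := ⟨_, rfl⟩
  have he0 : 0 < e := by
    rw [he]
    exact Real.exp_pos _
  rcases J₁.eq_empty_or_nonempty with hRe | ⟨j₁, hj₁⟩
  · rw [hRe, sum_empty]
    exact zero_le
  rcases J₂.eq_empty_or_nonempty with hRe | ⟨k₁, hk₁⟩
  · rw [hRe]
    simp only [sum_empty, sum_const_zero]
    exact zero_le
  have m1 := hJ₁ j₁ hj₁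
  have m2 := hJ₂ k₁ hk₁
  obtain ⟨a₁, ha₁⟩ : ∃ a : ℝ, a = (β * (EE' μ s β)⁻¹ + J₁.card * (EE' μ s l)⁻¹) * (EE' μ s β)⁻¹ := ⟨_, rfl⟩
  obtain ⟨a₂, ha₂⟩ : ∃ a : ℝ, a = (β * (EE' μ s β)⁻¹ + J₂.card * (EE' μ s l)⁻¹) * (EE' μ s β)⁻¹ := ⟨_, rfl⟩
  rw [← ha₁, ← ha₂]
  have ha₁0 : 0 ≤ a₁ := by
    rw [ha₁]
    exact mul_nonneg (add_nonneg (mul_nonneg (Nat.cast_nonneg _) (hE0 _)) (mul_nonneg (Nat.cast_nonneg _) (hE0 _))) (hE0 _)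
  have ha₂0 : 0 ≤ a₂ := by
    rw [ha₂]
    exact mul_nonneg (add_nonneg (mul_nonneg (Nat.cast_nonneg _) (hE0 _)) (mul_nonneg (Nat.cast_nonneg _) (hE0 _))) (hE0 _)
  have hcard : ∀ J : Finset ℕ, (∀ k ∈ J, k < N) → (J.card : ℝ) ≤ L := fun J hJ => by
    have h1 : J ⊆ range N := fun k hk => mem_range.2 (hJ k hk)
    have h2 := card_le_card h1
    rw [card_range] at h2
    exact_mod_cast h2.trans hNL
  have hβN : (β : ℝ) ≤ L := by exact_mod_cast (show β ≤ L by omega)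
  have hb1 : 1 ≤ β := by
    have h1 : (0 : ℝ) < β := lt_of_lt_of_le (by positivity) hbL
    exact_mod_cast h1
  have hJ1L := hcard J₁ fun k hk => by have := hJ₁ k hk; omega
  have hJ2L := hcard J₂ fun k hk => by have := hJ₂ k hk; omega
  have ha₂L : a₂ ≤ 2 * L := by
    rw [ha₂]
    calc _ ≤ ((L : ℝ) * 1 + L * 1) * 1 := by
          refine mul_le_mul ?_ (hEi _) (hE0 _) (by positivity)
          exact add_le_add (mul_le_mul hβN (hEi _) (hE0 _) hL0.le) (mul_le_mul hJ2L (hEi _) (hE0 _) hL0.le)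
      _ = 2 * L := by ring
  have hj : ∀ j ∈ J₁, ∑ k ∈ J₂, P1 μ s N y (fun η S => F η S ∧ RowE μ s N y C m β q sd θ₁ x L u v j η S ∧
      RowE μ s N y m D β q sd' θ₂ x L u' v' k η S) ≤
      ENNReal.ofReal ((L : ℝ) ^ (ε / 2) * a₂) * P1 μ s N y (fun η S => F η S ∧ RowE μ s N y C m β q sd θ₁ x L u v j η S) + ENNReal.ofReal e := by
    intro j hj
    have m3 := hJ₁ j hj
    have h1 := hS₂ L (by omega) N hLN hNL y hyN (hcone _ (min_le_right _ _)) m D β l q z' hbL hlL hDN hq (hxx _ hqL _ (min_le_right _ _)) J₂ hJ₂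
      u' v' hu₂ x (hxx _ hx _ (min_le_right _ _)) (fun η S => F η S ∧ RowE μ s N y C m β q sd θ₁ x L u v j η S) (ms_and hF rowE_ms)
      (off_and (Pool.Agent.W_7d29a1_HZ.ZE.OffRows.mono36 (fun k hk => by
        rw [mem_Ioo] at hk ⊢
        omega) hFo) (rowE_off (by omega) (by omega) (by omega) fun k hk => by
        rw [mem_Ioo] at hk
        omega))
    rw [← ha₂] at h1
    refine le_trans (sum_le_sum fun k _ => A12.P1_mono fun η S hev => ?_) (h1.trans (add_le_add le_rfl (ENNReal.ofReal_le_ofReal ?_)))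
    · exact ⟨⟨hev.1, hev.2.1⟩, hev.2.2.1, hev.2.2.2⟩
    · rw [he]
      exact Pool.Agent.W_7d29a1_Z.NumI77.exp_mono (min_le_right _ _) (by omega)
  have hj' : ∑ j ∈ J₁, P1 μ s N y (fun η S => F η S ∧ RowE μ s N y C m β q sd θ₁ x L u v j η S) ≤
      ENNReal.ofReal ((L : ℝ) ^ (ε / 2) * a₁) * P1 μ s N y F + ENNReal.ofReal e := by
    have h1 := hS₁ L (by omega) N hLN hNL y hyN (hcone _ (min_le_left _ _)) C m β l q z hbL hlL (by omega) hq (hxx _ hqL _ (min_le_left _ _)) J₁ hJ₁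
      u v hu₁ x (hxx _ hx _ (min_le_left _ _)) F hF
      (Pool.Agent.W_7d29a1_HZ.ZE.OffRows.mono36 (fun k hk => by
        rw [mem_Ioo] at hk ⊢
        omega) hFo)
    rw [← ha₁] at h1
    refine h1.trans (add_le_add le_rfl (ENNReal.ofReal_le_ofReal ?_))
    rw [he]
    exact Pool.Agent.W_7d29a1_Z.NumI77.exp_mono (min_le_left _ _) (by omega)
  refine (sum_le_sum hj).trans ?_
  rw [sum_add_distrib, ← mul_sum, sum_const, nsmul_eq_mul]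
  refine (add_le_add (mul_le_mul' le_rfl hj') le_rfl).trans ?_
  rw [mul_add, ← mul_assoc, ← ENNReal.ofReal_mul (by positivity), add_assoc]
  refine add_le_add (mul_le_mul' (ENNReal.ofReal_le_ofReal (le_of_eq ?_)) le_rfl) ?_
  · calc (L : ℝ) ^ (ε / 2) * a₂ * ((L : ℝ) ^ (ε / 2) * a₁) = (L : ℝ) ^ (ε / 2) * (L : ℝ) ^ (ε / 2) * (a₁ * a₂) := by ring
      _ = (L : ℝ) ^ ε * (a₁ * a₂) := by rw [← Real.rpow_add hL0, add_halves]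
  · rw [← ENNReal.ofReal_mul (by positivity), ← ENNReal.ofReal_natCast, ← ENNReal.ofReal_mul (by positivity),
      ← ENNReal.ofReal_add (by positivity) (by positivity)]
    refine ENNReal.ofReal_le_ofReal (le_trans ?_ (hX L (by omega)))
    rw [← he, ← add_mul]
    refine mul_le_mul_of_nonneg_right ?_ he0.le
    have e1 : (L : ℝ) ^ (ε / 2 + 3) = (L : ℝ) ^ (ε / 2) * (L : ℝ) ^ 3 := by
      rw [Real.rpow_add hL0]
      norm_num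
    have e2 : (1 : ℝ) ≤ (L : ℝ) ^ (ε / 2) := Real.one_le_rpow hLR (by positivity)
    rw [e1]
    calc (L : ℝ) ^ (ε / 2) * a₂ + J₁.card ≤ (L : ℝ) ^ (ε / 2) * (2 * L) + (L : ℝ) ^ (ε / 2) * L := by
          refine add_le_add (mul_le_mul_of_nonneg_left ha₂L (by positivity)) (hJ1L.trans ?_)
          nlinarith
      _ = (L : ℝ) ^ (ε / 2) * (3 * L) := by ring
      _ ≤ (L : ℝ) ^ (ε / 2) * (L : ℝ) ^ 3 := by
          refine mul_le_mul_of_nonneg_left ?_ (by positivity)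
          nlinarith [sq_nonneg (L : ℝ)]

/-! ### All far pairs -/

/-- The pairs at distance at least `64 β`. -/
def farP (R : Finset ℕ) (β : ℕ) : Finset (ℕ × ℕ) := (R ×ˢ R).filter fun p => p.1 + 64 * β ≤ p.2

/-- The middle row. -/
def midP (β j k : ℕ) : ℕ := β / 64 * ((j / (β / 64) + k / (β / 64)) / 2)

theorem midP_in {β j k j' k' : ℕ} (hβ : 64 ≤ β) (hjk : j' + 64 * β ≤ k') (hj : j / (β / 64) = j' / (β / 64)) (hk : k / (β / 64) = k' / (β / 64)) :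
    j + 4 * β ≤ β / 64 * ((j' / (β / 64) + k' / (β / 64)) / 2) ∧ β / 64 * ((j' / (β / 64) + k' / (β / 64)) / 2) + 4 * β ≤ k := by
  obtain ⟨e, he⟩ : ∃ e, e = β / 64 := ⟨_, rfl⟩
  have he1 : 1 ≤ e := by omega
  rw [← he] at hj hk ⊢
  obtain ⟨t, ht⟩ : ∃ t, t = j' / e := ⟨_, rfl⟩
  obtain ⟨t', ht'⟩ : ∃ t', t' = k' / e := ⟨_, rfl⟩
  have a1 : e * t ≤ j' := ht ▸ Nat.mul_div_le _ _
  have a2 : j' < e * (t + 1) := ht ▸ Nat.lt_mul_div_succ _ (by omega)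
  have a3 : e * t' ≤ k' := ht' ▸ Nat.mul_div_le _ _
  have a4 : k' < e * (t' + 1) := ht' ▸ Nat.lt_mul_div_succ _ (by omega)
  have b1 : e * t ≤ j := by rw [ht, ← hj]; exact Nat.mul_div_le _ _
  have b2 : j < e * (t + 1) := by rw [ht, ← hj]; exact Nat.lt_mul_div_succ _ (by omega)
  have b3 : e * t' ≤ k := by rw [ht', ← hk]; exact Nat.mul_div_le _ _
  have b4 : k < e * (t' + 1) := by rw [ht', ← hk]; exact Nat.lt_mul_div_succ _ (by omega)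
  rw [← ht, ← ht']
  obtain ⟨z, hz⟩ : ∃ z, z = (t + t') / 2 := ⟨_, rfl⟩
  have z1 : 2 * z ≤ t + t' := by omega
  have z2 : t + t' ≤ 2 * z + 1 := by omega
  rw [← hz]
  have z3 : e * (2 * z) ≤ e * (t + t') := Nat.mul_le_mul_left _ z1
  have z4 : e * (t + t') ≤ e * (2 * z + 1) := Nat.mul_le_mul_left _ z2
  rw [mul_add, mul_one] at a2 a4 b2 b4
  rw [mul_add] at z3 z4
  rw [mul_add, mul_one] at z4
  have z5 : e * (2 * z) = 2 * (e * z) := by ring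
  rw [z5] at z3 z4
  constructor <;> omega

end Pool.Agent.W_7d29a1_C0.SS3
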