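import Pool.Agent.W_7d29a1_C0.PairF3

/-!
MP_7d29a1_pr, [C0], helper3: PAIRS OF DOUBLE TIES IN ONE BLOCK, FAR AND LOCAL (events), part 2: `sumP`, the sum over all pairs at distance at
least `64 β` of a set of rows inside of an interval of length `ρ ≥ β`.
-/

set_option autoImplicit false

namespace Pool.Agent.W_7d29a1_C0.SS3

open MeasureTheory ProbabilityTheory Filter Topology Finset
open Pool.Agent.W_7d29a1_F Pool.Agent.W_7d29a1_X Pool.Agent.W_7d29a1_h4g Pool.Agent.W_7d29a1_H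
open Pool.Agent.W_7d29a1_HS (In wd md)
open Pool.Agent.W_7d29a1_HZ Pool.Agent.W_7d29a1_HZ.R72 Pool.Agent.W_7d29a1_Z.Asm72
open Pool.Agent.W_7d29a1_HZ.Z86
open Pool.Agent.W_7d29a1_C0.P86 Pool.Agent.W_7d29a1_C0.P15 Pool.Agent.W_7d29a1_C0.P42
open Pool.Agent.W_7d29a1_C0.P3 (Hy hy_ms hy_off)
open scoped ENNReal

variable {μ : Measure ℝ} {s : ℝ} {N : ℕ} [IsProbabilityMeasure μ] {c₀ C₀ : ℝ} {n₀ : ℕ}

/-- The sum over the stretches. -/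
theorem sum_str {β n e : ℕ} {R T : Finset ℕ} (g : ℕ → ℕ) (hT : T = R.image g) {Eβ El : ℝ} (hEβ : 0 < Eβ) (hEl : 0 < El) (hlE : El ≤ Eβ)
    (hR : R.card ≤ n) (h1 : β * T.card ≤ 256 * n) (_he : e = e) :
    ∑ t ∈ T, (β * Eβ⁻¹ + (R.filter (fun j => g j = t)).card * El⁻¹) * Eβ⁻¹ ≤ 257 * (n * El⁻¹ * Eβ⁻¹) := by
  have h4 : ∑ t ∈ T, (R.filter (fun j => g j = t)).card ≤ n := by
    rw [hT, ← card_eq_sum_card_fiberwise (fun j hj => mem_image_of_mem g hj)]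
    exact hR
  rw [← sum_mul, sum_add_distrib, sum_const, nsmul_eq_mul, ← sum_mul]
  have a1 : (T.card : ℝ) * (β * Eβ⁻¹) ≤ 256 * n * El⁻¹ := by
    have b1 : (β : ℝ) * T.card ≤ 256 * n := by exact_mod_cast h1
    have b2 : Eβ⁻¹ ≤ El⁻¹ := inv_anti₀ hEl hlE
    calc (T.card : ℝ) * (β * Eβ⁻¹) = β * T.card * Eβ⁻¹ := by ring
      _ ≤ 256 * n * El⁻¹ := mul_le_mul b1 b2 (by positivity) (by positivity)
  have a2 : (∑ t ∈ T, ((R.filter (fun j => g j = t)).card : ℝ)) * El⁻¹ ≤ n * El⁻¹ := by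
    refine mul_le_mul_of_nonneg_right ?_ (by positivity)
    exact_mod_cast h4
  calc _ ≤ (256 * n * El⁻¹ + n * El⁻¹) * Eβ⁻¹ := by gcongr
    _ = _ := by ring

/-- **ALL FAR PAIRS, LOCAL OWN EVENTS.** -/
theorem sumP (h : In μ s c₀ C₀ n₀) (sd sd' : Bool) : ∀ ε θ : ℝ, 0 < ε → 0 < θ → ∃ θ₁ θ₂ : ℝ, (0 < θ₁ ∧ θ₁ ≤ θ) ∧ (0 < θ₂ ∧ θ₂ ≤ θ) ∧
    ∃ δ κ c₂ : ℝ, 0 < δ ∧ 0 < κ ∧ 0 < c₂ ∧
    ∃ L₀ : ℕ, ∀ L : ℕ, L₀ ≤ L → ∀ N : ℕ, L ≤ 16 * N → N ≤ L → ∀ y : ℕ, y ≤ N → |(y : ℝ) - sl μ s * N| ≤ ((L : ℝ) ^ δ * wd' μ s N) →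
    ∀ C D β l q r₀ ρ : ℕ, (L : ℝ) ^ θ ≤ β → (L : ℝ) ^ θ ≤ l → D ≤ N → 1 ≤ q → (q : ℝ) ≤ (L : ℝ) ^ κ → β ≤ ρ →
    ∀ R : Finset ℕ, R ⊆ Ico r₀ (r₀ + ρ) → (∀ j ∈ R, C + 4 * β ≤ j ∧ j + 4 * β ≤ D) →
    ∀ u v u' v' : ℕ → ℕ, (∀ j ∈ R, j ≤ u j + β / 2 ∧ v j ≤ j + β / 2 ∧ u j + l ≤ v j) →
    (∀ j ∈ R, j ≤ u' j + β / 2 ∧ v' j ≤ j + β / 2 ∧ u' j + l ≤ v' j) →
    ∀ x : ℝ, x ≤ (L : ℝ) ^ κ → ∀ F : Env → Finset ℕ → Prop, Ms F → OffRows (Ioo C D) F →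
    ∑ p ∈ farP R β, P1 μ s N y (fun η S => F η S ∧ RowE μ s N y C (midP β p.1 p.2) β q sd θ₁ x L u v p.1 η S ∧
        RowE μ s N y (midP β p.1 p.2) D β q sd' θ₂ x L u' v' p.2 η S) ≤
      ENNReal.ofReal ((L : ℝ) ^ ε * (ρ * (EE' μ s l)⁻¹ * (EE' μ s β)⁻¹) ^ 2) * P1 μ s N y F + ENNReal.ofReal (Real.exp (-(L : ℝ) ^ c₂)) := by
  intro ε θ hε hθ
  have hEp : ∀ t, 0 < EE' μ s t := fun t => lt_of_lt_of_le zero_lt_one (le_max_left _ _)
  obtain ⟨θ₁, θ₂, h₁, h₂, δ, κ, c₁, hδ, hκ, hc₁, L₁, hS⟩ := pairL h sd sd' (ε / 2) θ (by positivity) hθ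
  obtain ⟨c₂, hc₂, -, L₂, hX⟩ := Pool.Agent.W_7d29a1_Z.NumI77.pow_exp hc₁ 2
  obtain ⟨L₃, hE⟩ := ev_mul86 (257 ^ 2) (show ε / 2 < ε by linarith)
  obtain ⟨L₅, hβ64⟩ := ev_mul86 64 (show 0 < θ by linarith)
  refine ⟨θ₁, θ₂, h₁, h₂, δ, κ, c₂, hδ, hκ, hc₂, L₁ + L₂ + L₃ + L₅ + 1, ?_⟩
  intro L hL N hLN hNL y hyN hyc C D β l q r₀ ρ hbL hlL hDN hq hqL hβρ R hRρ hR u v u' v' huv huv' x hx F hF hFo
  have hLR : (1 : ℝ) ≤ L := by exact_mod_cast (show 1 ≤ L by omega)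
  have hL0 : (0 : ℝ) < L := by linarith
  have hb64 : 64 ≤ β := by
    have h1 := hβ64 L (by omega)
    rw [Real.rpow_zero, mul_one] at h1
    exact_mod_cast h1.trans hbL
  obtain ⟨e, he⟩ : ∃ e, e = β / 64 := ⟨_, rfl⟩
  have he1 : 1 ≤ e := by omega
  have he2 : β ≤ 128 * e := by omega
  rcases R.eq_empty_or_nonempty with hRe | ⟨j₀, hj₀⟩
  · rw [hRe]
    unfold farP
    simp only [empty_product, filter_empty, sum_empty]
    exact zero_le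
  have hlE : EE' μ s l ≤ EE' μ s β := by
    have h1 := huv j₀ hj₀
    have h2 := EE'_le_mul86 h (m := l) (n := β) (k := 1) (by omega) (by omega)
    rwa [Nat.cast_one, one_mul] at h2
  obtain ⟨T, hT⟩ : ∃ T, T = R.image fun j => j / e := ⟨_, rfl⟩
  obtain ⟨Rt, hRt⟩ : ∃ Rt : ℕ → Finset ℕ, Rt = fun t => R.filter fun j => j / e = t := ⟨_, rfl⟩
  obtain ⟨a, ha⟩ : ∃ a : ℕ → ℝ, a = fun t => (β * (EE' μ s β)⁻¹ + (Rt t).card * (EE' μ s l)⁻¹) * (EE' μ s β)⁻¹ := ⟨_, rfl⟩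
  have hE0 : ∀ t, 0 ≤ (EE' μ s t)⁻¹ := fun t => inv_nonneg.2 (hEp t).le
  have ha0 : ∀ t, 0 ≤ a t := fun t => by
    rw [ha]
    exact mul_nonneg (add_nonneg (mul_nonneg (Nat.cast_nonneg _) (hE0 _)) (mul_nonneg (Nat.cast_nonneg _) (hE0 _))) (hE0 _)
  have hTc : β * T.card ≤ 256 * ρ := by
    have h1 := card_str (C := r₀) (D := r₀ + ρ) he1 (by omega) (T := T) fun t ht => by
      rw [hT] at ht
      obtain ⟨j, hj, rfl⟩ := mem_image.1 ht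
      have h2 := mem_Ico.1 (hRρ hj)
      have h3 : e * (j / e) ≤ j := Nat.mul_div_le _ _
      have h4 : j < e * (j / e + 1) := Nat.lt_mul_div_succ _ (by omega)
      rw [mul_add, mul_one] at h4
      constructor <;> omega
    calc β * T.card ≤ 128 * e * T.card := Nat.mul_le_mul_right _ he2
      _ = 128 * (e * T.card) := by ring
      _ ≤ 128 * ((r₀ + ρ - r₀) + 3 * e) := Nat.mul_le_mul_left _ h1
      _ ≤ 256 * ρ := by omega
  have hRc : R.card ≤ ρ := by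
    have h2 := card_le_card hRρ
    rw [Nat.card_Ico] at h2
    omega
  have hsa : ∑ t ∈ T, a t ≤ 257 * (ρ * (EE' μ s l)⁻¹ * (EE' μ s β)⁻¹) := by
    rw [ha, hRt]
    exact sum_str (fun j => j / e) hT (hEp β) (hEp l) hlE hRc hTc (e := e) rfl
  obtain ⟨f, hf⟩ : ∃ f : ℕ → ℕ × ℕ → ℝ≥0∞, f = fun m p => P1 μ s N y (fun η S => F η S ∧ RowE μ s N y C m β q sd θ₁ x L u v p.1 η S ∧
        RowE μ s N y m D β q sd' θ₂ x L u' v' p.2 η S) := ⟨_, rfl⟩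
  obtain ⟨g, hg⟩ : ∃ g : ℕ × ℕ → ℕ × ℕ, g = fun p => (p.1 / e, p.2 / e) := ⟨_, rfl⟩
  obtain ⟨mt, hmt⟩ : ∃ mt : ℕ × ℕ → ℕ, mt = fun t => e * ((t.1 + t.2) / 2) := ⟨_, rfl⟩
  have hmid : ∀ p : ℕ × ℕ, midP β p.1 p.2 = mt (g p) := fun p => by
    rw [hmt, hg]
    unfold midP
    rw [← he]
  have e0 : ∀ p ∈ farP R β, P1 μ s N y (fun η S => F η S ∧ RowE μ s N y C (midP β p.1 p.2) β q sd θ₁ x L u v p.1 η S ∧
        RowE μ s N y (midP β p.1 p.2) D β q sd' θ₂ x L u' v' p.2 η S) = f (mt (g p)) p := fun p _ => by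
    rw [hf, hmid]
  have hT1 : T.card ≤ L := by
    have h1 : T.card ≤ R.card := by
      rw [hT]
      exact card_image_le
    have h2 : R ⊆ range N := fun j hj => by
      have := hR j hj
      rw [mem_range]
      omega
    have h3 := card_le_card h2
    rw [card_range] at h3
    omega
  have himg : (farP R β).image g ⊆ T ×ˢ T := fun t ht => by
    obtain ⟨p, hp, rfl⟩ := mem_image.1 ht
    unfold farP at hp
    rw [mem_filter, mem_product] at hp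
    rw [hg, hT, mem_product]
    exact ⟨mem_image_of_mem (fun j => j / e) hp.1.1, mem_image_of_mem (fun j => j / e) hp.1.2⟩
  rw [sum_congr rfl e0, ← sum_fiberwise_of_maps_to (fun p hp => mem_image_of_mem g hp) fun p => f (mt (g p)) p]
  have hone : ∀ t ∈ (farP R β).image g, ∑ p ∈ (farP R β).filter (fun p => g p = t), f (mt (g p)) p ≤
      ENNReal.ofReal ((L : ℝ) ^ (ε / 2) * (a t.1 * a t.2)) * P1 μ s N y F + ENNReal.ofReal (Real.exp (-(L : ℝ) ^ c₁)) := by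
    intro t ht
    obtain ⟨p₀, hp₀, hpt⟩ := mem_image.1 ht
    unfold farP at hp₀
    rw [mem_filter, mem_product] at hp₀
    have k1 : ∀ p ∈ (farP R β).filter (fun p => g p = t), f (mt (g p)) p = f (mt t) p := fun p hp => by
      rw [mem_filter] at hp
      rw [hp.2]
    rw [sum_congr rfl k1]
    have k2 : (farP R β).filter (fun p => g p = t) ⊆ Rt t.1 ×ˢ Rt t.2 := fun p hp => by
      rw [mem_filter] at hp
      obtain ⟨q1, q2⟩ := hp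
      unfold farP at q1
      rw [mem_filter, mem_product] at q1
      rw [hg] at q2
      rw [hRt, mem_product, mem_filter, mem_filter, ← q2]
      exact ⟨⟨q1.1.1, rfl⟩, ⟨q1.1.2, rfl⟩⟩
    refine (sum_le_sum_of_subset k2).trans ?_
    rw [sum_product]
    have k3 : ∀ j ∈ Rt t.1, j ∈ R ∧ j / e = p₀.1 / e := fun j hj => by
      rw [hRt, mem_filter] at hj
      refine ⟨hj.1, ?_⟩
      rw [hj.2, ← hpt, hg]
    have k4 : ∀ k ∈ Rt t.2, k ∈ R ∧ k / e = p₀.2 / e := fun j hj => by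
      rw [hRt, mem_filter] at hj
      refine ⟨hj.1, ?_⟩
      rw [hj.2, ← hpt, hg]
    have k5 : mt t = β / 64 * ((p₀.1 / (β / 64) + p₀.2 / (β / 64)) / 2) := by
      rw [← hpt, hg, hmt, ← he]
    have k6 : ∀ j k : ℕ, j / e = p₀.1 / e → k / e = p₀.2 / e → j + 4 * β ≤ mt t ∧ mt t + 4 * β ≤ k := fun j k hj hk => by
      rw [k5]
      exact midP_in hb64 hp₀.2 (by rw [← he]; exact hj) (by rw [← he]; exact hk)
    have k7 := hS L (by omega) N hLN hNL y hyN hyc C D (mt t) β l q (e * (p₀.1 / e)) (e * (p₀.2 / e)) hbL hlL hDN hq hqL (Rt t.1) (Rt t.2)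
      (fun j hj => by
        obtain ⟨q1, q2⟩ := k3 j hj
        have q3 := (k6 j p₀.2 q2 rfl).1
        have q4 := hR j q1
        have q5 : e * (j / e) ≤ j := Nat.mul_div_le _ _
        have q6 : j < e * (j / e + 1) := Nat.lt_mul_div_succ _ (by omega)
        rw [mul_add, mul_one] at q6
        rw [q2] at q5 q6
        omega) (fun k hk => by
        obtain ⟨q1, q2⟩ := k4 k hk
        have q3 := (k6 p₀.1 k rfl q2).2
        have q4 := hR k q1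
        have q5 : e * (k / e) ≤ k := Nat.mul_div_le _ _
        have q6 : k < e * (k / e + 1) := Nat.lt_mul_div_succ _ (by omega)
        rw [mul_add, mul_one] at q6
        rw [q2] at q5 q6
        omega) u v u' v' (fun j hj => huv j (k3 j hj).1) (fun k hk => huv' k (k4 k hk).1) x hx F hF hFo
    rw [hf, ha]
    exact k7
  refine (sum_le_sum hone).trans ?_
  rw [sum_add_distrib, ← sum_mul, sum_const, nsmul_eq_mul, ← ENNReal.ofReal_sum_of_nonneg fun t _ =>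
    mul_nonneg (by positivity) (mul_nonneg (ha0 _) (ha0 _))]
  refine add_le_add (mul_le_mul' (ENNReal.ofReal_le_ofReal ?_) le_rfl) ?_
  · have g1 : ∑ t ∈ (farP R β).image g, (L : ℝ) ^ (ε / 2) * (a t.1 * a t.2) ≤ ∑ t ∈ T ×ˢ T, (L : ℝ) ^ (ε / 2) * (a t.1 * a t.2) :=
      sum_le_sum_of_subset_of_nonneg himg fun t _ _ => mul_nonneg (by positivity) (mul_nonneg (ha0 _) (ha0 _))
    have g2 : ∑ t ∈ T ×ˢ T, (L : ℝ) ^ (ε / 2) * (a t.1 * a t.2) = (L : ℝ) ^ (ε / 2) * (∑ t ∈ T, a t) ^ 2 := by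
      rw [← mul_sum, sum_product, sq, sum_mul_sum]
    have g3 : 0 ≤ ∑ t ∈ T, a t := sum_nonneg fun t _ => ha0 t
    rw [g2] at g1
    refine g1.trans ?_
    calc (L : ℝ) ^ (ε / 2) * (∑ t ∈ T, a t) ^ 2 ≤ (L : ℝ) ^ (ε / 2) * (257 * (ρ * (EE' μ s l)⁻¹ * (EE' μ s β)⁻¹)) ^ 2 :=
          mul_le_mul_of_nonneg_left (pow_le_pow_left₀ g3 hsa 2) (by positivity)
      _ = 257 ^ 2 * (L : ℝ) ^ (ε / 2) * (ρ * (EE' μ s l)⁻¹ * (EE' μ s β)⁻¹) ^ 2 := by ring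
      _ ≤ (L : ℝ) ^ ε * (ρ * (EE' μ s l)⁻¹ * (EE' μ s β)⁻¹) ^ 2 := mul_le_mul_of_nonneg_right (hE L (by omega)) (by positivity)
  · rw [← ENNReal.ofReal_natCast, ← ENNReal.ofReal_mul (Nat.cast_nonneg _)]
    refine ENNReal.ofReal_le_ofReal (le_trans ?_ (hX L (by omega)))
    refine mul_le_mul_of_nonneg_right ?_ (Real.exp_pos _).le
    have g4 : ((farP R β).image g).card ≤ L * L := by
      refine (card_le_card himg).trans ?_
      rw [card_product]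
      exact Nat.mul_le_mul hT1 hT1
    have g5 : (L : ℝ) ^ (2 : ℝ) = L * L := by
      rw [show (2 : ℝ) = 1 + 1 by norm_num, Real.rpow_add hL0, Real.rpow_one]
    rw [g5]
    exact_mod_cast g4

end Pool.Agent.W_7d29a1_C0.SS3
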