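import Pool.Agent.W_7d29a1_C0.PrL86

/-!
C0, helper86: TWO ROWS IN ONE BLOCK, list form (`price_two`). Two factors whose tie blocks both contain the row `m`, the windows of the
first one in front of `m`, those of the second one behind `m`: both gaps are cut by `m`, or one of them reaches `m`.
-/

set_option autoImplicit false
set_option maxHeartbeats 400000

namespace Pool.Agent.W_7d29a1_C0.P86

open MeasureTheory ProbabilityTheory Filter Topology Finset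
open Pool.Agent.W_7d29a1_F Pool.Agent.W_7d29a1_X Pool.Agent.W_7d29a1_h4g Pool.Agent.W_7d29a1_H
open Pool.Agent.W_7d29a1_HS (In wd md)
open Pool.Agent.W_7d29a1_HZ Pool.Agent.W_7d29a1_HZ.R72 Pool.Agent.W_7d29a1_Z.Asm72
open Pool.Agent.W_7d29a1_HZ.Z86
open Pool.Agent.W_7d29a1_C0.Mod92 (Px Pn lw ps pJ ne_Pn ps_Pn pos_card ps_of_le ps_of_ge wm Pm meas_lw meas_cE meas_gz meas_gm int_Pm)
open Pool.Agent.W_7d29a1_C0.Swap57 (NI cE2)
open Pool.W7d29a1.C0 (gm gz gz_pos gm_nonneg gm_mono gm_const)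
open Pool.W7d29a1.C0.VT31 (Mp cE gm_mul_cE fz cE_sum)
open Pool.W7d29a1.C0.R43 (Tau Rp mI st swP_pJ tau_rp)
open scoped ENNReal

variable {μ : Measure ℝ} {s : ℝ} {N : ℕ}

/-! ### Mass places -/

/-- A mass place with its pair event and its windows. -/
structure MPl where
  p : Plc
  A : Finset ℕ → Finset ℕ → Prop
  n₁ : ℕ
  u : ℕ → ℕ
  v : ℕ → ℕ

def MPl.Gd (N y : ℕ) (X : ℝ) (L : ℕ) (P : MPl) : Prop :=
  ¬ P.p.T ∧ ((P.n₁ : ℝ) ≤ X ∧ P.n₁ ≤ L) ∧ (∀ n < P.n₁, P.p.U ≤ P.u n ∧ P.u n + P.p.l ≤ P.v n ∧ P.v n ≤ P.p.V) ∧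
    ∀ S S', S ⊆ range N → S' ⊆ range N → pos S N = y → pos S' N = y → (∀ j, j ≤ P.p.c ∨ P.p.d ≤ j → pos S j = pos S' j) →
      P.A S S' → ∃ n < P.n₁, Gap P.p.c' P.p.d' (P.u n) (P.v n) S S'

theorem MPl.Gd.mono {y : ℕ} {X X' : ℝ} {L : ℕ} {P : MPl} (h : P.Gd N y X L) (hX : X ≤ X') : P.Gd N y X' L :=
  ⟨h.1, ⟨h.2.1.1.trans hX, h.2.1.2⟩, h.2.2.1, h.2.2.2⟩

/-- The amplified mass, at most one. -/
noncomputable def mm (μ : Measure ℝ) (s : ℝ) (N y : ℕ) (X : ℝ) (P : MPl) (η : Env) (S : Finset ℕ) : ℝ≥0∞ :=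
  min 1 (ENNReal.ofReal (Real.exp X) * ENNReal.ofReal (mc μ s N y P.p.c P.p.d P.A η S))

theorem mm_le_one {y : ℕ} {X : ℝ} {P : MPl} (η : Env) (S : Finset ℕ) : mm μ s N y X P η S ≤ 1 := min_le_left _ _

theorem mm_mono {y : ℕ} {X X' : ℝ} (hX : X ≤ X') {P : MPl} (η : Env) (S : Finset ℕ) : mm μ s N y X P η S ≤ mm μ s N y X' P η S :=
  min_le_min le_rfl (mul_le_mul' (ENNReal.ofReal_le_ofReal (Real.exp_le_exp.2 hX)) le_rfl)

theorem mm_meas {y : ℕ} {X : ℝ} (P : MPl) (S : Finset ℕ) : Measurable fun η : Env => mm μ s N y X P η S := by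
  classical
  have h : Measurable fun η : Env => mc μ s N y P.p.c P.p.d P.A η S := by
    unfold mc
    by_cases hS : S ∈ Pn N y
    · simp only [dif_pos hS]
      have : Nonempty (Px (Pn N y)) := ⟨⟨S, hS⟩⟩
      have h := meas_cE (Ω := Env) (X := Px (Pn N y)) (w := fun η => lw μ s η N (Pn N y))
        (f := fun _ S' => if P.A S S'.1 then (1 : ℝ) else 0) (fun x => meas_lw x) (fun x => measurable_const) (pJ P.p.c P.p.d) ⟨S, hS⟩
      exact h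
    · simp only [dif_neg hS]
      exact measurable_const
  exact measurable_const.min (measurable_const.mul h.ennreal_ofReal)

theorem prod_getG {α : Type*} (Ps : List α) (g : α → ℝ≥0∞) : ∏ i : Fin Ps.length, g (Ps.get i) = (Ps.map g).prod := by
  induction Ps with
  | nil => simp
  | cons a l ih =>
    rw [List.map_cons, List.prod_cons, ← ih]
    exact Fin.prod_univ_succ (fun i : Fin (a :: l).length => g ((a :: l).get i))

variable [IsProbabilityMeasure μ] {c₀ C₀ : ℝ} {n₀ : ℕ}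

/-- **The price of a list of mass places**, `Q1` form. -/
theorem lamList (h : In μ s c₀ C₀ n₀) (k : ℕ) (hk : k ≤ 8) : ∀ ε θ : ℝ, 0 < ε → 0 < θ → ∃ δ κ c₂ : ℝ, 0 < δ ∧ 0 < κ ∧ 0 < c₂ ∧ ∃ L₀ : ℕ,
    ∀ L : ℕ, L₀ ≤ L → ∀ N : ℕ, L ≤ 16 * N → N ≤ L → ∀ y : ℕ, y ≤ N → |(y : ℝ) - sl μ s * N| ≤ ((L : ℝ) ^ δ * wd' μ s N) →
    ∀ X : ℝ, X ≤ (L : ℝ) ^ κ → ∀ Ps : List MPl, Ps.length = k → (∀ P ∈ Ps, P.p.Ok L N θ) → (∀ P ∈ Ps, P.Gd N y X L) →
    Ps.Pairwise (fun P P' => P.p.Bef P'.p) →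
    ∀ f : Env → Finset ℕ → ℝ≥0∞, (∀ S, Measurable fun η => f η S) → (∀ η S, f η S ≤ 1) → (∀ P ∈ Ps, OffW P.p.J f) →
    Q1 μ s N y (fun η S => f η S * (Ps.map fun P => mm μ s N y X P η S).prod) ≤
      (Ps.map fun P => ENNReal.ofReal ((L : ℝ) ^ ε * (EE' μ s P.p.l)⁻¹)).prod * Q1 μ s N y f +
        ENNReal.ofReal (Real.exp (-(L : ℝ) ^ c₂)) := by
  intro ε θ hε hθ
  obtain ⟨δ, κ, c₂, hδ, hκ, hc₂, L₀, hP⟩ := lam86M h k hk ε θ hε hθ
  refine ⟨δ, κ, c₂, hδ, hκ, hc₂, L₀, ?_⟩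
  intro L hL N hLN hNL y hyN hyc X hX Ps hlen hok hgd hpw f hfm hf1 hfo
  subst hlen
  have hmem : ∀ i : Fin Ps.length, Ps.get i ∈ Ps := fun i => List.get_mem Ps i
  have hpw' := List.pairwise_iff_get.1 hpw
  have h1 := hP L hL N hLN hNL y hyN hyc (fun i => (Ps.get i).p.c) (fun i => (Ps.get i).p.d) (fun i => (Ps.get i).p.c')
    (fun i => (Ps.get i).p.d') (fun i => (Ps.get i).p.U) (fun i => (Ps.get i).p.V) (fun i => (Ps.get i).p.l) (fun i => (Ps.get i).n₁)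
    (fun i => (hok _ (hmem i)).1) (fun i => (hok _ (hmem i)).2) (fun i => (Ps.get i).u) (fun i => (Ps.get i).v)
    (fun i n hn => (hgd _ (hmem i)).2.2.1 n hn) (fun i => ⟨(hgd _ (hmem i)).2.1.1.trans hX, (hgd _ (hmem i)).2.1.2⟩)
    (fun i => (Ps.get i).p.J) (fun i => ?_) (fun i => (Ps.get i).A) (fun i => (hgd _ (hmem i)).2.2.2)
    (fun i η S => mm μ s N y X (Ps.get i) η S) (fun i η S => mm_le_one η S)
    (fun i η S => (min_le_right _ _).trans (mul_le_mul' (ENNReal.ofReal_le_ofReal (Real.exp_le_exp.2 hX)) le_rfl)) f hfm hf1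
    (fun i => hfo _ (hmem i))
  · rw [prod_getG Ps fun P => ENNReal.ofReal ((L : ℝ) ^ ε * (EE' μ s P.p.l)⁻¹)] at h1
    refine le_trans (le_of_eq ?_) h1
    congr 1
    funext η S
    rw [← prod_getG Ps fun P => mm μ s N y X P η S]
  · have h2 : ∀ i', i < i' → (Ps.get i).p.Bef (Ps.get i').p := fun i' hi' => hpw' i i' hi'
    have h3 : ¬ (Ps.get i).p.T := (hgd _ (hmem i)).1
    unfold Plc.J
    unfold Plc.Bef at h2
    cases hty : (Ps.get i).p.ty with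
    | L =>
      rw [hty] at h2
      refine Or.inl ⟨rfl, fun i' hi' => ?_⟩
      rcases h2 i' hi' with g | g | g
      · exact Or.inl g
      · exact Or.inr (Or.inl g)
      · exact Or.inr (Or.inr g.2)
    | R =>
      rw [hty] at h2
      exact Or.inr (Or.inl ⟨rfl, h2⟩)
    | M =>
      rw [hty] at h2
      exact Or.inr (Or.inr ⟨rfl, h2⟩)

/-! ### Replacing factors by masses -/

/-- The same place, up to the length and the kind. -/
def Sim (p p' : Plc) : Prop :=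
  p'.c = p.c ∧ p'.d = p.d ∧ p'.c' = p.c' ∧ p'.d' = p.d' ∧ p'.U = p.U ∧ p'.V = p.V ∧ p'.ty = p.ty ∧ ¬ p'.T ∧ (¬ p.T → p'.l = p.l)

theorem Sim.bef {p p' q q' : Plc} (h : Sim p p') (h' : Sim q q') (hb : p.Bef q) : p'.Bef q' := by
  obtain ⟨-, -, a3, a4, a5, a6, a7, a8, a9⟩ := h
  obtain ⟨-, -, b3, b4, -⟩ := h'
  unfold Plc.Bef at hb ⊢
  rw [a7, a3, a4, a5, a6, b3, b4]
  cases hty : p.ty with
  | L =>
    rw [hty] at hb
    rcases hb with g | g | ⟨g0, g⟩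
    · exact Or.inl g
    · exact Or.inr (Or.inl g)
    · refine Or.inr (Or.inr ⟨a8, ?_⟩)
      rw [a9 g0]
      exact g
  | R =>
    rw [hty] at hb
    exact hb
  | M =>
    rw [hty] at hb
    exact hb

theorem Sim.J {p p' : Plc} (h : Sim p p') : p'.J = p.J := by
  obtain ⟨-, -, a3, a4, a5, a6, a7, -⟩ := h
  unfold Plc.J
  rw [a7, a3, a4, a5, a6]

theorem f2_mem {α β : Type*} {R : α → β → Prop} {as : List α} {bs : List β} (h : List.Forall₂ R as bs) : ∀ b ∈ bs, ∃ a ∈ as, R a b := by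
  induction h with
  | nil => simp
  | cons h1 h2 ih =>
    intro b hb
    rcases List.mem_cons.1 hb with rfl | hb
    · exact ⟨_, List.mem_cons_self, h1⟩
    · obtain ⟨a, ha, hr⟩ := ih b hb
      exact ⟨a, List.mem_cons_of_mem _ ha, hr⟩

theorem Sim.pw {as bs : List Plc} (h : List.Forall₂ Sim as bs) (hp : as.Pairwise Plc.Bef) : bs.Pairwise Plc.Bef := by
  induction h with
  | nil => exact List.Pairwise.nil
  | cons h1 h2 ih =>
    rw [List.pairwise_cons] at hp ⊢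
    refine ⟨fun b hb => ?_, ih hp.2⟩
    obtain ⟨a, ha, hr⟩ := f2_mem h2 b hb
    exact h1.bef hr (hp.1 a ha)

/-- `P'` replaces the factor `G` with the place `p`. -/
def Rep (μ : Measure ℝ) (s : ℝ) (N y L : ℕ) (ε θ X₁ M : ℝ) (p : Plc) (G : Env × Finset ℕ → Px (Pn N y) → ℝ) (P' : MPl) : Prop :=
  Sim p P'.p ∧ P'.p.Ok L N (θ / 2) ∧ P'.Gd N y X₁ L ∧
    ENNReal.ofReal ((L : ℝ) ^ (ε / 2) * (EE' μ s P'.p.l)⁻¹) ≤ ENNReal.ofReal ((L : ℝ) ^ ε * (EE' μ s p.l)⁻¹) ∧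
    ∀ (A₀ : Finset ℕ) (F : Env → Finset ℕ → ℝ≥0∞), (∀ η S, F η S ≤ 1) →
      Q1 μ s N y (fun η S => F η S * ENNReal.ofReal (exP (G (η, A₀)) S)) ≤
        Q1 μ s N y (fun η S => F η S * mm μ s N y X₁ P' η S) + 2 * ENNReal.ofReal (Real.exp (-M))

/-- Every factor is replaced by an amplified mass. -/
theorem rep_ex (h : In μ s c₀ C₀ n₀) {ε θ κ κ₁ : ℝ} (_hε : 0 < ε) (hθ : 0 < θ) (hκ : 0 < κ) (h1 : κ < κ₁) (h2 : κ < ε / 2) (h3 : κ < θ / 2)
    (h4 : κ < 1) : ∃ L₀ : ℕ, ∀ L : ℕ, L₀ ≤ L → ∀ N : ℕ, N ≤ L → ∀ y : ℕ, y ≤ N → ∀ M : ℝ, 8 ≤ M → M ≤ (L : ℝ) ^ κ →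
    ∀ (p : Plc) (G : Env × Finset ℕ → Px (Pn N y) → ℝ), p.Ok L N θ → Dom μ s N y ((L : ℝ) ^ κ) M p G →
    ∃ P' : MPl, Rep μ s N y L ε θ ((L : ℝ) ^ κ₁) M p G P' := by
  obtain ⟨L₂, hNum⟩ := tau_num hκ h1 h2 h3 h4 hθ
  refine ⟨L₂ + 1, fun L hL N hNL y hyN M hM hML p G hok hdom => ?_⟩
  have hL1 : (1 : ℝ) ≤ L := by exact_mod_cast (show 1 ≤ L by omega)
  have hpk : (L : ℝ) ^ κ ≤ (L : ℝ) ^ κ₁ := Real.rpow_le_rpow_of_exponent_le hL1 h1.le
  have hpt : (L : ℝ) ^ (θ / 2) ≤ (L : ℝ) ^ θ := Real.rpow_le_rpow_of_exponent_le hL1 (by linarith)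
  have hpe : (L : ℝ) ^ (ε / 2) ≤ (L : ℝ) ^ ε := Real.rpow_le_rpow_of_exponent_le hL1 (by linarith)
  have hL01 : (L : ℝ) ^ κ ≤ L := (Real.rpow_le_rpow_of_exponent_le hL1 h4.le).trans_eq (Real.rpow_one _)
  have hE : ∀ n, (0 : ℝ) < EE' μ s n := fun n => lt_of_lt_of_le one_pos (le_max_left _ _)
  obtain ⟨hG0, hG1, hD⟩ := hdom
  obtain ⟨⟨o1, o2, o3, o4, o5, o6⟩, hl⟩ := hok
  rcases hD with ⟨hnT, A, n₁, u, v, a1, a2, a3, a4⟩ | ⟨hT, hcc, hdd, hUV, hG⟩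
  · refine ⟨⟨⟨p.c, p.d, p.c', p.d', p.U, p.V, p.l, p.ty, False⟩, A, n₁, u, v⟩, ⟨rfl, rfl, rfl, rfl, rfl, rfl, rfl, fun h => h, fun _ => rfl⟩,
      ⟨⟨o1, o2, o3, o4, o5, o6⟩, hpt.trans hl⟩, ⟨fun h => h, ⟨a1.trans hpk, ?_⟩, a2, a3⟩, ?_, fun A₀ F hF => ?_⟩
    · have : (n₁ : ℝ) ≤ L := a1.trans hL01
      exact_mod_cast this
    · exact ENNReal.ofReal_le_ofReal (mul_le_mul_of_nonneg_right hpe (inv_nonneg.2 (hE _).le))
    · refine le_trans (Q1_mono fun η S _ _ => mul_le_mul' le_rfl (le_min (ENNReal.ofReal_le_one.2 (exP_le (hG1 (η, A₀)) S)) ?_)) le_self_add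
      rw [← ENNReal.ofReal_mul (Real.exp_pos _).le]
      refine ENNReal.ofReal_le_ofReal ?_
      unfold exP
      by_cases hS : S ∈ Pn N y
      · rw [dif_pos hS]
        exact (a4 (η, A₀) ⟨S, hS⟩).trans (mul_le_mul_of_nonneg_right (Real.exp_le_exp.2 hpk) (mc_nonneg η S))
      · rw [dif_neg hS]
        exact mul_nonneg (Real.exp_pos _).le (mc_nonneg η S)
  · obtain ⟨n1, n2, n3, n4, n5, n6, n7, n8, n9⟩ := hNum L (by omega) M hM hML p.l hl
    obtain ⟨q, hq⟩ : ∃ q, q = ⌈10 * M⌉₊ := ⟨_, rfl⟩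
    obtain ⟨l', hl'⟩ : ∃ l', l' = p.l / (3 * q) - 1 := ⟨_, rfl⟩
    rw [← hq] at n1 n2 n3 n4 n5 n6 n8 n9
    rw [← hl'] at n3 n4 n8
    have st1 : ∀ n < 3 * q, p.U ≤ st p.U l' n ∧ st p.U l' n + l' ≤ p.V := by
      intro n hn
      have e1 : (n + 1) * (l' + 1) ≤ 3 * q * (l' + 1) := Nat.mul_le_mul_right _ (by omega)
      have e2 : st p.U l' n + (l' + 1) = p.U + (n + 1) * (l' + 1) := by
        unfold st
        ring
      have e3 : p.U ≤ st p.U l' n := by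
        unfold st
        exact Nat.le_add_right _ _
      omega
    refine ⟨⟨⟨p.c, p.d, p.c', p.d', p.U, p.V, l', p.ty, False⟩, NMp p.U l' q, 3 * q, fun n => st p.U l' n, fun n => st p.U l' n + l'⟩,
      ⟨rfl, rfl, rfl, rfl, rfl, rfl, rfl, fun h => h, fun h => absurd hT h⟩, ⟨⟨o1, o2, o3, o4, o5, o6⟩, n4⟩,
      ⟨fun h => h, ⟨n5, n6⟩, fun n hn => ⟨(st1 n hn).1, le_rfl, (st1 n hn).2⟩, fun S S' _ _ _ _ hag hm => ?_⟩, ?_, fun A₀ F hF => ?_⟩
    · obtain ⟨n, hn, hm⟩ := hm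
      refine ⟨n, hn, ?_⟩
      show Gap p.c' p.d' (st p.U l' n) (st p.U l' n + l') S S'
      rw [hcc, hdd]
      have := st1 n hn
      exact gap_of_nm (by omega) (by omega) hag hm
    · refine ENNReal.ofReal_le_ofReal ?_
      have hLp : 0 ≤ (L : ℝ) ^ (ε / 2) := Real.rpow_nonneg (by linarith) _
      have hq0 : 1 ≤ 9 * q := by
        have : (0 : ℝ) < q := by linarith
        have : 0 < q := by exact_mod_cast this
        omega
      have e1 : EE' μ s p.l ≤ ((9 * q : ℕ) : ℝ) * EE' μ s l' := EE'_le_mul86 h hq0 n8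
      have e2 : (EE' μ s l')⁻¹ ≤ ((9 * q : ℕ) : ℝ) * (EE' μ s p.l)⁻¹ := by
        rw [inv_le_iff_one_le_mul₀ (hE _), mul_assoc]
        have : (EE' μ s p.l)⁻¹ * EE' μ s p.l = 1 := inv_mul_cancel₀ (hE _).ne'
        calc (1 : ℝ) = (EE' μ s p.l)⁻¹ * EE' μ s p.l := this.symm
          _ ≤ (EE' μ s p.l)⁻¹ * (((9 * q : ℕ) : ℝ) * EE' μ s l') := mul_le_mul_of_nonneg_left e1 (inv_nonneg.2 (hE _).le)
          _ = _ := by ring
      show (L : ℝ) ^ (ε / 2) * (EE' μ s l')⁻¹ ≤ _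
      calc (L : ℝ) ^ (ε / 2) * (EE' μ s l')⁻¹ ≤ (L : ℝ) ^ (ε / 2) * (((9 * q : ℕ) : ℝ) * (EE' μ s p.l)⁻¹) :=
            mul_le_mul_of_nonneg_left e2 hLp
        _ ≤ (L : ℝ) ^ (ε / 2) * ((L : ℝ) ^ (ε / 2) * (EE' μ s p.l)⁻¹) :=
            mul_le_mul_of_nonneg_left (mul_le_mul_of_nonneg_right n9 (inv_nonneg.2 (hE _).le)) hLp
        _ = (L : ℝ) ^ ε * (EE' μ s p.l)⁻¹ := by
            rw [← mul_assoc, ← Real.rpow_add (by linarith), add_halves]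
    · have s1 : Q1 μ s N y (fun η S => F η S * ENNReal.ofReal (exP (G (η, A₀)) S)) ≤
          Q1 μ s N y (fun η S => F η S * ind (TauS μ s N y p.c p.d p.U p.V M η S)) + ENNReal.ofReal (Real.exp (-M)) := by
        refine Q1_add_err hyN hF fun η S => ?_
        by_cases hτS : TauS μ s N y p.c p.d p.U p.V M η S
        · rw [ind_of hτS]
          exact (ENNReal.ofReal_le_one.2 (exP_le (hG1 (η, A₀)) S)).trans le_self_add
        · refine le_trans (ENNReal.ofReal_le_ofReal ?_) le_add_self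
          unfold exP
          by_cases hS : S ∈ Pn N y
          · rw [dif_pos hS]
            exact hG (η, A₀) ⟨S, hS⟩ fun h' => hτS ⟨hS, h'⟩
          · rw [dif_neg hS]
            exact (Real.exp_pos _).le
      have s2 := tau_Q1 (μ := μ) (s := s) (N := N) hyN (show p.c ≤ p.d by omega) p.U l' q hM n1 n2 (E := p.V) (by omega) hF
      have s3 : Q1 μ s N y (fun η S => F η S * ind (RpS μ s N y p.c p.d p.U l' q M η S)) ≤ Q1 μ s N y (fun η S => F η S *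
          mm μ s N y ((L : ℝ) ^ κ₁) ⟨⟨p.c, p.d, p.c', p.d', p.U, p.V, l', p.ty, False⟩, NMp p.U l' q, 3 * q, fun n => st p.U l' n,
            fun n => st p.U l' n + l'⟩ η S) := by
        refine Q1_mono fun η S _ _ => mul_le_mul' le_rfl (le_min (ind_le _) ?_)
        exact (rp_mc η S).trans (mul_le_mul' (ENNReal.ofReal_le_ofReal (Real.exp_le_exp.2 n7)) le_rfl)
      refine s1.trans ((add_le_add (s2.trans (add_le_add s3 le_rfl)) le_rfl).trans (le_of_eq ?_))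
      rw [add_assoc, two_mul]


theorem f2_ex {α β : Type*} {R : α → β → Prop} {as : List α} (h : ∀ a ∈ as, ∃ b, R a b) : ∃ bs, List.Forall₂ R as bs := by
  induction as with
  | nil => exact ⟨[], List.Forall₂.nil⟩
  | cons a l ih =>
    obtain ⟨b, hb⟩ := h a List.mem_cons_self
    obtain ⟨bs, hbs⟩ := ih fun a' ha' => h a' (List.mem_cons_of_mem _ ha')
    exact ⟨b :: bs, List.Forall₂.cons hb hbs⟩

theorem list_prod_le_one {α : Type*} (l : List α) {g : α → ℝ≥0∞} (h : ∀ a ∈ l, g a ≤ 1) : (l.map g).prod ≤ 1 := by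
  induction l with
  | nil => simp
  | cons a l ih =>
    rw [List.map_cons, List.prod_cons]
    exact mul_le_one' (h a List.mem_cons_self) (ih fun a' ha' => h a' (List.mem_cons_of_mem _ ha'))

omit [IsProbabilityMeasure μ] in
/-- All factors of a list are replaced. -/
theorem rep_list {y L : ℕ} {ε θ X₁ M : ℝ} {Qs : List (Plc × (Env × Finset ℕ → Px (Pn N y) → ℝ))} {Ps : List MPl}
    (h : List.Forall₂ (fun Q P' => Rep μ s N y L ε θ X₁ M Q.1 Q.2 P') Qs Ps) (h1 : ∀ Q ∈ Qs, ∀ ω x, Q.2 ω x ≤ 1) (A₀ : Finset ℕ) :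
    ∀ F : Env → Finset ℕ → ℝ≥0∞, (∀ η S, F η S ≤ 1) →
      Q1 μ s N y (fun η S => F η S * (Qs.map fun Q => ENNReal.ofReal (exP (Q.2 (η, A₀)) S)).prod) ≤
        Q1 μ s N y (fun η S => F η S * (Ps.map fun P => mm μ s N y X₁ P η S).prod) + Qs.length * (2 * ENNReal.ofReal (Real.exp (-M))) := by
  induction h with
  | nil =>
    intro F hF
    simp
  | @cons Q P' Qs Ps hr hrs ih =>
    intro F hF
    have h2 : ∀ Q' ∈ Qs, ∀ ω x, Q'.2 ω x ≤ 1 := fun Q' hQ' => h1 Q' (List.mem_cons_of_mem _ hQ')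
    have e1 := hr.2.2.2.2 A₀ (fun η S => F η S * (Qs.map fun Q => ENNReal.ofReal (exP (Q.2 (η, A₀)) S)).prod) fun η S => by
      exact mul_le_one' (hF η S) (list_prod_le_one _ fun Q' hQ' => ENNReal.ofReal_le_one.2 (exP_le (h2 Q' hQ' (η, A₀)) S))
    have e2 := ih h2 (fun η S => F η S * mm μ s N y X₁ P' η S) fun η S => mul_le_one' (hF η S) (mm_le_one η S)
    have a1 : Q1 μ s N y (fun η S => F η S * ((Q :: Qs).map fun Q => ENNReal.ofReal (exP (Q.2 (η, A₀)) S)).prod) =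
        Q1 μ s N y (fun η S => F η S * (Qs.map fun Q => ENNReal.ofReal (exP (Q.2 (η, A₀)) S)).prod *
          ENNReal.ofReal (exP (Q.2 (η, A₀)) S)) := by
      congr 1
      funext η S
      rw [List.map_cons, List.prod_cons]
      ring
    have a2 : Q1 μ s N y (fun η S => F η S * (Qs.map fun Q => ENNReal.ofReal (exP (Q.2 (η, A₀)) S)).prod * mm μ s N y X₁ P' η S) =
        Q1 μ s N y (fun η S => F η S * mm μ s N y X₁ P' η S * (Qs.map fun Q => ENNReal.ofReal (exP (Q.2 (η, A₀)) S)).prod) := by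
      congr 1
      funext η S
      ring
    have a3 : Q1 μ s N y (fun η S => F η S * mm μ s N y X₁ P' η S * (Ps.map fun P => mm μ s N y X₁ P η S).prod) =
        Q1 μ s N y (fun η S => F η S * ((P' :: Ps).map fun P => mm μ s N y X₁ P η S).prod) := by
      congr 1
      funext η S
      rw [List.map_cons, List.prod_cons]
      ring
    rw [a1]
    refine e1.trans ?_
    rw [a2, ← a3]
    refine (add_le_add e2 le_rfl).trans (le_of_eq ?_)
    rw [List.length_cons]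
    push_cast
    ring

/-! ### Cuts -/

/-- The gap is cut on the right at `m`. -/
def Plc.cutR (m : ℕ) (t : Ty) (p : Plc) : Plc := ⟨p.c, p.d, p.c', m, p.U, p.V, p.l, t, p.T⟩

/-- The gap goes on up to `m` on the right. -/
def Plc.longR (m : ℕ) (t : Ty) (p : Plc) : Plc := ⟨p.c, p.d, p.c', p.d', p.V, m, m - p.V, t, False⟩

/-- The gap is cut on the left at `m`. -/
def Plc.cutL (m : ℕ) (t : Ty) (p : Plc) : Plc := ⟨p.c, p.d, m, p.d', p.U, p.V, p.l, t, p.T⟩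

/-- The gap goes on up to `m` on the left. -/
def Plc.longL (m : ℕ) (t : Ty) (p : Plc) : Plc := ⟨p.c, p.d, p.c', p.d', m, p.U, p.U - m, t, False⟩

def MPl.cutR (m : ℕ) (t : Ty) (P : MPl) : MPl := ⟨P.p.cutR m t, fun S S' => ∃ n < P.n₁, Gap P.p.c' m (P.u n) (P.v n) S S', P.n₁, P.u, P.v⟩

def MPl.longR (m : ℕ) (t : Ty) (P : MPl) : MPl := ⟨P.p.longR m t, Gap P.p.c' P.p.d' P.p.V m, 1, fun _ => P.p.V, fun _ => m⟩

def MPl.cutL (m : ℕ) (t : Ty) (P : MPl) : MPl := ⟨P.p.cutL m t, fun S S' => ∃ n < P.n₁, Gap m P.p.d' (P.u n) (P.v n) S S', P.n₁, P.u, P.v⟩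

def MPl.longL (m : ℕ) (t : Ty) (P : MPl) : MPl := ⟨P.p.longL m t, Gap P.p.c' P.p.d' m P.p.U, 1, fun _ => m, fun _ => P.p.U⟩

theorem Sim.cutR {p p' : Plc} (h : Sim p p') (m : ℕ) (t : Ty) : Sim (p.cutR m t) (p'.cutR m t) :=
  ⟨h.1, h.2.1, h.2.2.1, rfl, h.2.2.2.2.1, h.2.2.2.2.2.1, rfl, h.2.2.2.2.2.2.2.1, h.2.2.2.2.2.2.2.2⟩

theorem Sim.cutL {p p' : Plc} (h : Sim p p') (m : ℕ) (t : Ty) : Sim (p.cutL m t) (p'.cutL m t) :=
  ⟨h.1, h.2.1, rfl, h.2.2.2.1, h.2.2.2.2.1, h.2.2.2.2.2.1, rfl, h.2.2.2.2.2.2.2.1, h.2.2.2.2.2.2.2.2⟩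

theorem Sim.longR {p p' : Plc} (h : Sim p p') (m : ℕ) (t : Ty) : Sim (p.longR m t) (p'.longR m t) :=
  ⟨h.1, h.2.1, h.2.2.1, h.2.2.2.1, h.2.2.2.2.2.1, rfl, rfl, fun h => h, fun _ => by
    show m - p'.V = m - p.V
    rw [h.2.2.2.2.2.1]⟩

theorem Sim.longL {p p' : Plc} (h : Sim p p') (m : ℕ) (t : Ty) : Sim (p.longL m t) (p'.longL m t) :=
  ⟨h.1, h.2.1, h.2.2.1, h.2.2.2.1, rfl, h.2.2.2.2.1, rfl, fun h => h, fun _ => by
    show p'.U - m = p.U - m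
    rw [h.2.2.2.2.1]⟩

theorem MPl.Gd.cutR {y : ℕ} {X : ℝ} {L : ℕ} {P : MPl} (h : P.Gd N y X L) (m : ℕ) (t : Ty) : (P.cutR m t).Gd N y X L :=
  ⟨h.1, h.2.1, h.2.2.1, fun _ _ _ _ _ _ _ h => h⟩

theorem MPl.Gd.cutL {y : ℕ} {X : ℝ} {L : ℕ} {P : MPl} (h : P.Gd N y X L) (m : ℕ) (t : Ty) : (P.cutL m t).Gd N y X L :=
  ⟨h.1, h.2.1, h.2.2.1, fun _ _ _ _ _ _ _ h => h⟩

theorem gd_longR {y : ℕ} {X : ℝ} {L : ℕ} (hX : 1 ≤ X) (hL : 1 ≤ L) (P : MPl) {m : ℕ} (t : Ty) (hm : P.p.V ≤ m) :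
    (P.longR m t).Gd N y X L :=
  ⟨fun h => h, ⟨by simpa [MPl.longR] using hX, hL⟩, fun n _ => ⟨le_rfl, by
    show P.p.V + (m - P.p.V) ≤ m
    omega, le_rfl⟩, fun _ _ _ _ _ _ _ h => ⟨0, Nat.one_pos, h⟩⟩

theorem gd_longL {y : ℕ} {X : ℝ} {L : ℕ} (hX : 1 ≤ X) (hL : 1 ≤ L) (P : MPl) {m : ℕ} (t : Ty) (hm : m ≤ P.p.U) :
    (P.longL m t).Gd N y X L :=
  ⟨fun h => h, ⟨by simpa [MPl.longL] using hX, hL⟩, fun n _ => ⟨le_rfl, by
    show m + (P.p.U - m) ≤ P.p.U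
    omega, le_rfl⟩, fun _ _ _ _ _ _ _ h => ⟨0, Nat.one_pos, h⟩⟩

theorem min_split {x y z : ℝ≥0∞} (h : x ≤ y + z) : min 1 x ≤ min 1 y + min 1 z := by
  rcases le_total 1 y with hy | hy
  · rw [min_eq_left hy]
    exact (min_le_left _ _).trans le_self_add
  · rcases le_total 1 z with hz | hz
    · rw [min_eq_left hz]
      exact (min_le_left _ _).trans le_add_self
    · rw [min_eq_right hy, min_eq_right hz]
      exact (min_le_right _ _).trans h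

omit [IsProbabilityMeasure μ] in
theorem mm_split {y : ℕ} {X : ℝ} {P P' P'' : MPl} (hc' : P'.p.c = P.p.c) (hd' : P'.p.d = P.p.d) (hc'' : P''.p.c = P.p.c)
    (hd'' : P''.p.d = P.p.d)
    (h : ∀ S S', S ⊆ range N → S' ⊆ range N → pos S N = y → pos S' N = y → (∀ i, i ≤ P.p.c ∨ P.p.d ≤ i → pos S i = pos S' i) →
      P.A S S' → P'.A S S' ∨ P''.A S S') (η : Env) (S : Finset ℕ) :
    mm μ s N y X P η S ≤ mm μ s N y X P' η S + mm μ s N y X P'' η S := by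
  unfold mm
  refine min_split ?_
  rw [← mul_add, hc', hd', hc'', hd'']
  refine mul_le_mul' le_rfl ?_
  rw [← ENNReal.ofReal_add (mc_nonneg η S) (mc_nonneg η S)]
  exact ENNReal.ofReal_le_ofReal (mc_le_two h η S)

omit [IsProbabilityMeasure μ] in
theorem mm_cutR {y : ℕ} {X : ℝ} {L : ℕ} {P : MPl} (h : P.Gd N y X L) {m : ℕ} (_h1 : P.p.V ≤ m) (_h2 : m ≤ P.p.d') (t t' : Ty) (η : Env)
    (S : Finset ℕ) : mm μ s N y X P η S ≤ mm μ s N y X (P.cutR m t) η S + mm μ s N y X (P.longR m t') η S := by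
  refine mm_split (P := P) (P' := P.cutR m t) (P'' := P.longR m t') rfl rfl rfl rfl (fun S S' g1 g2 g3 g4 g5 g6 => ?_) η S
  obtain ⟨n, hn, a, b', k1, k2, k3, k4, k5, k6, k7⟩ := h.2.2.2 S S' g1 g2 g3 g4 g5 g6
  obtain ⟨w1, w2, w3⟩ := h.2.2.1 n hn
  by_cases hk : ∃ k, P.v n ≤ k ∧ k ≤ m ∧ pos S k = pos S' k
  · obtain ⟨k, r1, r2, r3⟩ := hk
    exact Or.inl ⟨n, hn, a, k, k1, k2, r1, r2, k5, r3, k7⟩
  · push Not at hk
    have hb : m < b' := by
      by_contra hcon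
      exact hk b' k3 (by omega) k6
    refine Or.inr ⟨a, b', k1, by omega, hb.le, k4, k5, k6, fun k r1 r2 => ?_⟩
    by_cases hkv : k < P.v n
    · exact k7 k (by omega) hkv.le
    · exact hk k (by omega) r2

omit [IsProbabilityMeasure μ] in
theorem mm_cutL {y : ℕ} {X : ℝ} {L : ℕ} {P : MPl} (h : P.Gd N y X L) {m : ℕ} (_h1 : m ≤ P.p.U) (_h2 : P.p.c' ≤ m) (t t' : Ty) (η : Env)
    (S : Finset ℕ) : mm μ s N y X P η S ≤ mm μ s N y X (P.cutL m t) η S + mm μ s N y X (P.longL m t') η S := by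
  refine mm_split (P := P) (P' := P.cutL m t) (P'' := P.longL m t') rfl rfl rfl rfl (fun S S' g1 g2 g3 g4 g5 g6 => ?_) η S
  obtain ⟨n, hn, a, b', k1, k2, k3, k4, k5, k6, k7⟩ := h.2.2.2 S S' g1 g2 g3 g4 g5 g6
  obtain ⟨w1, w2, w3⟩ := h.2.2.1 n hn
  by_cases hk : ∃ k, m ≤ k ∧ k ≤ P.u n ∧ pos S k = pos S' k
  · obtain ⟨k, r1, r2, r3⟩ := hk
    exact Or.inl ⟨n, hn, k, b', r1, r2, k3, k4, r3, k6, k7⟩
  · push Not at hk
    have hb : a < m := by
      by_contra hcon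
      exact hk a (by omega) k2 k5
    refine Or.inr ⟨a, b', k1, hb.le, by omega, k4, k5, k6, fun k r1 r2 => ?_⟩
    by_cases hkv : P.u n < k
    · exact k7 k hkv.le (by omega)
    · exact hk k r1 (by omega)


/-! ### Two rows in one block -/

omit [IsProbabilityMeasure μ] in
theorem mmp_meas {y : ℕ} {X : ℝ} (Ps : List MPl) (S : Finset ℕ) : Measurable fun η : Env => (Ps.map fun P => mm μ s N y X P η S).prod := by
  induction Ps with
  | nil => simp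
  | cons a l ih =>
    simp only [List.map_cons, List.prod_cons]
    exact (mm_meas a S).mul ih

theorem ofReal_list_prod {α : Type*} (l : List α) {g : α → ℝ} (h : ∀ a, 0 ≤ g a) :
    ENNReal.ofReal (l.map g).prod = (l.map fun a => ENNReal.ofReal (g a)).prod := by
  induction l with
  | nil => simp
  | cons a l ih => rw [List.map_cons, List.prod_cons, List.map_cons, List.prod_cons, ENNReal.ofReal_mul (h a), ih]

theorem ofReal_map_prod {α : Type*} (l : List α) (g : α → ℝ) (h : ∀ a ∈ l, 0 ≤ g a) :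
    ENNReal.ofReal (l.map g).prod = (l.map fun a => ENNReal.ofReal (g a)).prod := by
  induction l with
  | nil => simp
  | cons a l ih =>
    rw [List.map_cons, List.prod_cons, List.map_cons, List.prod_cons, ENNReal.ofReal_mul (h a List.mem_cons_self),
      ih fun a' ha' => h a' (List.mem_cons_of_mem _ ha')]

theorem list_prod_nonneg {α : Type*} (l : List α) {g : α → ℝ} (h : ∀ a, 0 ≤ g a) : 0 ≤ (l.map g).prod := by
  induction l with
  | nil => simp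
  | cons a l ih =>
    rw [List.map_cons, List.prod_cons]
    exact mul_nonneg (h a) ih

omit [IsProbabilityMeasure μ] in
theorem f2_sim {y L : ℕ} {ε θ X₁ M : ℝ} {Qs : List (Plc × (Env × Finset ℕ → Px (Pn N y) → ℝ))} {Ps : List MPl}
    (h : List.Forall₂ (fun Q P' => Rep μ s N y L ε θ X₁ M Q.1 Q.2 P') Qs Ps) : List.Forall₂ Sim (Qs.map Prod.fst) (Ps.map MPl.p) := by
  induction h with
  | nil => exact List.Forall₂.nil
  | cons h1 _ ih => exact List.Forall₂.cons h1.1 ih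

omit [IsProbabilityMeasure μ] in
theorem f2_price {y L : ℕ} {ε θ X₁ M : ℝ} {Qs : List (Plc × (Env × Finset ℕ → Px (Pn N y) → ℝ))} {Ps : List MPl}
    (h : List.Forall₂ (fun Q P' => Rep μ s N y L ε θ X₁ M Q.1 Q.2 P') Qs Ps) :
    (Ps.map fun P => ENNReal.ofReal ((L : ℝ) ^ (ε / 2) * (EE' μ s P.p.l)⁻¹)).prod ≤
      (Qs.map fun Q => ENNReal.ofReal ((L : ℝ) ^ ε * (EE' μ s Q.1.l)⁻¹)).prod := by
  induction h with
  | nil => simp
  | cons h1 _ ih =>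
    rw [List.map_cons, List.prod_cons, List.map_cons, List.prod_cons]
    exact mul_le_mul' h1.2.2.2.1 ih

/-- **THE PRICE OF TWO ROWS IN ONE BLOCK.** -/
theorem price_two (h : In μ s c₀ C₀ n₀) (k : ℕ) (hk : k ≤ 6) : ∀ ε θ : ℝ, 0 < ε → 0 < θ → ∃ δ κ c₂ : ℝ, 0 < δ ∧ 0 < κ ∧ 0 < c₂ ∧ ∃ L₀ : ℕ,
    ∀ L : ℕ, L₀ ≤ L → ∀ N : ℕ, L ≤ 16 * N → N ≤ L → ∀ y : ℕ, y ≤ N → |(y : ℝ) - sl μ s * N| ≤ ((L : ℝ) ^ δ * wd' μ s N) →
    ∀ M : ℝ, 8 ≤ M → M ≤ (L : ℝ) ^ κ →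
    ∀ (P₁ P₂ : Plc) (m : ℕ) (tA tB tC tD : Ty), P₁.Ok L N θ → P₂.Ok L N θ → P₁.V ≤ m → m ≤ P₁.d' → P₂.c' ≤ m → m ≤ P₂.U →
    (L : ℝ) ^ θ ≤ ((m - P₁.V : ℕ) : ℝ) → (L : ℝ) ^ θ ≤ ((P₂.U - m : ℕ) : ℝ) →
    ∀ (G₁ G₂ : Env × Finset ℕ → Px (Pn N y) → ℝ), Dom μ s N y ((L : ℝ) ^ κ) M P₁ G₁ → Dom μ s N y ((L : ℝ) ^ κ) M P₂ G₂ →
    ∀ Qs₁ Qs₂ : List (Plc × (Env × Finset ℕ → Px (Pn N y) → ℝ)), Qs₁.length + Qs₂.length = k →
    (∀ Q ∈ Qs₁ ++ Qs₂, Q.1.Ok L N θ) → (∀ Q ∈ Qs₁ ++ Qs₂, Dom μ s N y ((L : ℝ) ^ κ) M Q.1 Q.2) →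
    (Qs₁.map Prod.fst ++ P₁.cutR m tA :: P₂.cutL m tB :: Qs₂.map Prod.fst).Pairwise Plc.Bef →
    (Qs₁.map Prod.fst ++ P₁.longR m tC :: Qs₂.map Prod.fst).Pairwise Plc.Bef →
    (Qs₁.map Prod.fst ++ P₂.longL m tD :: Qs₂.map Prod.fst).Pairwise Plc.Bef →
    ∀ f : Env × Finset ℕ → Px (Pn N y) → ℝ, (∀ A x, Measurable fun η => f (η, A) x) → (∀ ω x, 0 ≤ f ω x) → (∀ ω x, f ω x ≤ 1) →
    (∀ p ∈ P₁.cutR m tA :: P₂.cutL m tB :: P₁.longR m tC :: P₂.longL m tD :: (Qs₁ ++ Qs₂).map Prod.fst,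
      ∀ (η η' : Env) A x, (∀ q : Pt, ¬ (0 ≤ q.1 ∧ q.1.toNat ∈ p.J) → η q = η' q) → f (η, A) x = f (η', A) x) →
    ∫ ω, gm (wm μ s N (Pn N y) ω) (fun x => f ω x * (G₁ ω x * G₂ ω x * ((Qs₁ ++ Qs₂).map fun Q => Q.2 ω x).prod)) ∂(Pm μ N) ≤
      (((L : ℝ) ^ ε * (EE' μ s P₁.l)⁻¹) * ((L : ℝ) ^ ε * (EE' μ s P₂.l)⁻¹) + (L : ℝ) ^ ε * (EE' μ s (m - P₁.V))⁻¹ +
          (L : ℝ) ^ ε * (EE' μ s (P₂.U - m))⁻¹) * ((Qs₁ ++ Qs₂).map fun Q => (L : ℝ) ^ ε * (EE' μ s Q.1.l)⁻¹).prod *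
        ∫ ω, gm (wm μ s N (Pn N y) ω) (f ω) ∂(Pm μ N) +
        (3 * Real.exp (-(L : ℝ) ^ c₂) + 2 * (k + 2) * Real.exp (-M)) := by
  intro ε θ hε hθ
  obtain ⟨δa, κa, ca, hδa, hκa, hca, La, hPa⟩ := lamList (μ := μ) (s := s) h (k + 2) (by omega) (ε / 2) (θ / 2) (by positivity) (by positivity)
  obtain ⟨δb, κb, cb, hδb, hκb, hcb, Lb, hPb⟩ := lamList (μ := μ) (s := s) h (k + 1) (by omega) (ε / 2) (θ / 2) (by positivity) (by positivity)
  obtain ⟨κ₁, hκ₁d⟩ : ∃ κ₁, κ₁ = min κa κb := ⟨_, rfl⟩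
  have hκ₁ : 0 < κ₁ := by rw [hκ₁d]; exact lt_min hκa hκb
  obtain ⟨κ, hκd⟩ : ∃ κ, κ = min (κ₁ / 2) (min (ε / 4) (min (θ / 4) (1 / 2))) := ⟨_, rfl⟩
  have hκ : 0 < κ := by
    rw [hκd]
    refine lt_min (by positivity) (lt_min (by positivity) (lt_min (by positivity) (by norm_num)))
  have k1 : κ < κ₁ := by
    have : κ ≤ κ₁ / 2 := by rw [hκd]; exact min_le_left _ _
    linarith
  have k2 : κ < ε / 2 := by
    have : κ ≤ ε / 4 := by rw [hκd]; exact (min_le_right _ _).trans (min_le_left _ _)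
    linarith
  have k3 : κ < θ / 2 := by
    have : κ ≤ θ / 4 := by rw [hκd]; exact (min_le_right _ _).trans ((min_le_right _ _).trans (min_le_left _ _))
    linarith
  have k4 : κ < 1 := by
    have : κ ≤ 1 / 2 := by rw [hκd]; exact (min_le_right _ _).trans ((min_le_right _ _).trans (min_le_right _ _))
    linarith
  obtain ⟨Lc, hR⟩ := rep_ex (μ := μ) (s := s) h hε hθ hκ k1 k2 k3 k4
  refine ⟨min δa δb, κ, min ca cb, lt_min hδa hδb, hκ, lt_min hca hcb, La + Lb + Lc + 1, ?_⟩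
  intro L hL N hLN hNL y hyN hyc M hM hML P₁ P₂ m tA tB tC tD ok1 ok2 hm1 hm2 hm3 hm4 hl1 hl2 G₁ G₂ d1 d2 Qs₁ Qs₂ hlen okQ dQ pwA pwC pwD f
    hfm hf0 hf1 hfo
  have hL1 : (1 : ℝ) ≤ L := by exact_mod_cast (show 1 ≤ L by omega)
  have hwd : ∀ n, 0 < wd' μ s n := fun n => lt_of_lt_of_le zero_lt_one (le_max_left _ _)
  have hcone : ∀ δ', min δa δb ≤ δ' → |(y : ℝ) - sl μ s * N| ≤ ((L : ℝ) ^ δ' * wd' μ s N) := fun δ' hδ' =>
    hyc.trans (mul_le_mul_of_nonneg_right (Real.rpow_le_rpow_of_exponent_le hL1 hδ') (hwd N).le)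
  have hE : ∀ n, (0 : ℝ) < EE' μ s n := fun n => lt_of_lt_of_le one_pos (le_max_left _ _)
  have hXa : (L : ℝ) ^ κ₁ ≤ (L : ℝ) ^ κa := Real.rpow_le_rpow_of_exponent_le hL1 (by rw [hκ₁d]; exact min_le_left _ _)
  have hXb : (L : ℝ) ^ κ₁ ≤ (L : ℝ) ^ κb := Real.rpow_le_rpow_of_exponent_le hL1 (by rw [hκ₁d]; exact min_le_right _ _)
  have hX1 : (1 : ℝ) ≤ (L : ℝ) ^ κ₁ := Real.one_le_rpow hL1 hκ₁.le
  have hpe : (L : ℝ) ^ (ε / 2) ≤ (L : ℝ) ^ ε := Real.rpow_le_rpow_of_exponent_le hL1 (by linarith)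
  have hpt : (L : ℝ) ^ (θ / 2) ≤ (L : ℝ) ^ θ := Real.rpow_le_rpow_of_exponent_le hL1 (by linarith)
  -- the places
  obtain ⟨Ps₁, r1⟩ := f2_ex (R := fun (Q : Plc × (Env × Finset ℕ → Px (Pn N y) → ℝ)) P' => Rep μ s N y L ε θ ((L : ℝ) ^ κ₁) M Q.1 Q.2 P')
    (as := Qs₁) fun Q hQ => hR L (by omega) N hNL y hyN M hM hML Q.1 Q.2 (okQ Q (List.mem_append_left _ hQ)) (dQ Q (List.mem_append_left _ hQ))
  obtain ⟨Ps₂, r2⟩ := f2_ex (R := fun (Q : Plc × (Env × Finset ℕ → Px (Pn N y) → ℝ)) P' => Rep μ s N y L ε θ ((L : ℝ) ^ κ₁) M Q.1 Q.2 P')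
    (as := Qs₂) fun Q hQ => hR L (by omega) N hNL y hyN M hM hML Q.1 Q.2 (okQ Q (List.mem_append_right _ hQ)) (dQ Q (List.mem_append_right _ hQ))
  obtain ⟨R₁, q1⟩ := hR L (by omega) N hNL y hyN M hM hML P₁ G₁ ok1 d1
  obtain ⟨R₂, q2⟩ := hR L (by omega) N hNL y hyN M hM hML P₂ G₂ ok2 d2
  have hlen1 := r1.length_eq
  have hlen2 := r2.length_eq
  have hrall : List.Forall₂ (fun (Q : Plc × (Env × Finset ℕ → Px (Pn N y) → ℝ)) P' => Rep μ s N y L ε θ ((L : ℝ) ^ κ₁) M Q.1 Q.2 P')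
      (Qs₁ ++ (P₁, G₁) :: (P₂, G₂) :: Qs₂) (Ps₁ ++ R₁ :: R₂ :: Ps₂) :=
    List.rel_append r1 (List.Forall₂.cons q1 (List.Forall₂.cons q2 r2))
  have hP1 : ∀ P ∈ Ps₁, P.p.Ok L N (θ / 2) ∧ P.Gd N y ((L : ℝ) ^ κ₁) L := fun P hP => by
    obtain ⟨Q, -, hQ⟩ := f2_mem r1 P hP
    exact ⟨hQ.2.1, hQ.2.2.1⟩
  have hP2 : ∀ P ∈ Ps₂, P.p.Ok L N (θ / 2) ∧ P.Gd N y ((L : ℝ) ^ κ₁) L := fun P hP => by
    obtain ⟨Q, -, hQ⟩ := f2_mem r2 P hP
    exact ⟨hQ.2.1, hQ.2.2.1⟩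
  have sA : List.Forall₂ Sim (Qs₁.map Prod.fst ++ P₁.cutR m tA :: P₂.cutL m tB :: Qs₂.map Prod.fst)
      ((Ps₁ ++ R₁.cutR m tA :: R₂.cutL m tB :: Ps₂).map MPl.p) := by
    rw [List.map_append]
    exact List.rel_append (f2_sim r1) (List.Forall₂.cons (q1.1.cutR m tA) (List.Forall₂.cons (q2.1.cutL m tB) (f2_sim r2)))
  have sC : List.Forall₂ Sim (Qs₁.map Prod.fst ++ P₁.longR m tC :: Qs₂.map Prod.fst) ((Ps₁ ++ R₁.longR m tC :: Ps₂).map MPl.p) := by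
    rw [List.map_append]
    exact List.rel_append (f2_sim r1) (List.Forall₂.cons (q1.1.longR m tC) (f2_sim r2))
  have sD : List.Forall₂ Sim (Qs₁.map Prod.fst ++ P₂.longL m tD :: Qs₂.map Prod.fst) ((Ps₁ ++ R₂.longL m tD :: Ps₂).map MPl.p) := by
    rw [List.map_append]
    exact List.rel_append (f2_sim r1) (List.Forall₂.cons (q2.1.longL m tD) (f2_sim r2))
  obtain ⟨⟨a1, a2, a3, a4, a5, a6⟩, a7⟩ := q1.2.1
  obtain ⟨⟨b1, b2, b3, b4, b5, b6⟩, b7⟩ := q2.2.1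
  obtain ⟨u1, u2, u3, u4, u5, u6, -⟩ := q1.1
  obtain ⟨v1, v2, v3, v4, v5, v6, -⟩ := q2.1
  have okA1 : (R₁.cutR m tA).p.Ok L N (θ / 2) := by
    refine ⟨?_, a7⟩
    show R₁.p.c ≤ R₁.p.c' ∧ R₁.p.c' ≤ R₁.p.U ∧ R₁.p.U ≤ R₁.p.V ∧ R₁.p.V ≤ m ∧ m ≤ R₁.p.d ∧ R₁.p.d ≤ N
    omega
  have okA2 : (R₂.cutL m tB).p.Ok L N (θ / 2) := by
    refine ⟨?_, b7⟩
    show R₂.p.c ≤ m ∧ m ≤ R₂.p.U ∧ R₂.p.U ≤ R₂.p.V ∧ R₂.p.V ≤ R₂.p.d' ∧ R₂.p.d' ≤ R₂.p.d ∧ R₂.p.d ≤ N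
    omega
  have okC : (R₁.longR m tC).p.Ok L N (θ / 2) := by
    refine ⟨?_, ?_⟩
    · show R₁.p.c ≤ R₁.p.c' ∧ R₁.p.c' ≤ R₁.p.V ∧ R₁.p.V ≤ m ∧ m ≤ R₁.p.d' ∧ R₁.p.d' ≤ R₁.p.d ∧ R₁.p.d ≤ N
      omega
    · show (L : ℝ) ^ (θ / 2) ≤ ((m - R₁.p.V : ℕ) : ℝ)
      rw [u6]
      exact hpt.trans hl1
  have okD : (R₂.longL m tD).p.Ok L N (θ / 2) := by
    refine ⟨?_, ?_⟩
    · show R₂.p.c ≤ R₂.p.c' ∧ R₂.p.c' ≤ m ∧ m ≤ R₂.p.U ∧ R₂.p.U ≤ R₂.p.d' ∧ R₂.p.d' ≤ R₂.p.d ∧ R₂.p.d ≤ N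
      omega
    · show (L : ℝ) ^ (θ / 2) ≤ ((R₂.p.U - m : ℕ) : ℝ)
      rw [v5]
      exact hpt.trans hl2
  classical
  obtain ⟨X, hXd⟩ : ∃ X, X = (L : ℝ) ^ κ₁ := ⟨_, rfl⟩
  obtain ⟨pr, hpr⟩ : ∃ pr : Plc → ℝ, pr = fun p => (L : ℝ) ^ ε * (EE' μ s p.l)⁻¹ := ⟨_, rfl⟩
  have hpr0 : ∀ p, 0 ≤ pr p := fun p => by
    rw [hpr]
    exact mul_nonneg (Real.rpow_nonneg (Nat.cast_nonneg _) _) (inv_nonneg.2 (hE _).le)
  have hr0 : ∀ l, 0 ≤ (L : ℝ) ^ ε * (EE' μ s l)⁻¹ := fun l => mul_nonneg (Real.rpow_nonneg (Nat.cast_nonneg _) _) (inv_nonneg.2 (hE _).le)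
  have hRq0 : 0 ≤ ((Qs₁ ++ Qs₂).map fun Q => (L : ℝ) ^ ε * (EE' μ s Q.1.l)⁻¹).prod := list_prod_nonneg _ fun Q => hr0 _
  have hGdom : ∀ Q ∈ Qs₁ ++ (P₁, G₁) :: (P₂, G₂) :: Qs₂, (∀ ω x, 0 ≤ Q.2 ω x) ∧ ∀ ω x, Q.2 ω x ≤ 1 := by
    intro Q hQ
    rw [List.mem_append, List.mem_cons, List.mem_cons] at hQ
    rcases hQ with hQ | rfl | rfl | hQ
    · exact ⟨(dQ Q (List.mem_append_left _ hQ)).1, (dQ Q (List.mem_append_left _ hQ)).2.1⟩
    · exact ⟨d1.1, d1.2.1⟩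
    · exact ⟨d2.1, d2.2.1⟩
    · exact ⟨(dQ Q (List.mem_append_right _ hQ)).1, (dQ Q (List.mem_append_right _ hQ)).2.1⟩
  refine int_of_Q1 hyN (fun ω x => mul_nonneg (hf0 ω x) (mul_nonneg (mul_nonneg (d1.1 ω x) (d2.1 ω x)) ?_)) hfm hf0 hf1
    (mul_nonneg (add_nonneg (add_nonneg (mul_nonneg (hr0 _) (hr0 _)) (hr0 _)) (hr0 _)) hRq0) (by positivity) fun A₀ => ?_
  · refine List.prod_nonneg ?_
    intro z hz
    obtain ⟨Q, hQ, rfl⟩ := List.mem_map.1 hz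
    exact (dQ Q hQ).1 ω x
  · obtain ⟨F, hF⟩ : ∃ F : Env → Finset ℕ → ℝ≥0∞, F = fun η S => ENNReal.ofReal (exP (f (η, A₀)) S) := ⟨_, rfl⟩
    have hF1 : ∀ η S, F η S ≤ 1 := fun η S => by
      rw [hF]
      exact ENNReal.ofReal_le_one.2 (exP_le (hf1 (η, A₀)) S)
    have hFm : ∀ S, Measurable fun η => F η S := fun S => by
      rw [hF]
      refine ENNReal.measurable_ofReal.comp ?_
      unfold exP
      by_cases hS : S ∈ Pn N y
      · simp only [dif_pos hS]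
        exact hfm A₀ _
      · simp only [dif_neg hS]
        exact measurable_const
    have hFo : ∀ p ∈ P₁.cutR m tA :: P₂.cutL m tB :: P₁.longR m tC :: P₂.longL m tD :: (Qs₁ ++ Qs₂).map Prod.fst, OffW p.J F := by
      intro p hp η η' S hη
      rw [hF]
      show ENNReal.ofReal (exP (f (η, A₀)) S) = ENNReal.ofReal (exP (f (η', A₀)) S)
      congr 1
      unfold exP
      by_cases hS : S ∈ Pn N y
      · rw [dif_pos hS, dif_pos hS]
        exact hfo p hp η η' A₀ ⟨S, hS⟩ hη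
      · rw [dif_neg hS, dif_neg hS]
    -- the product of the factors
    have t1 : Q1 μ s N y (fun η S => ENNReal.ofReal (exP (fun x => f (η, A₀) x * (G₁ (η, A₀) x * G₂ (η, A₀) x *
        ((Qs₁ ++ Qs₂).map fun Q => Q.2 (η, A₀) x).prod)) S)) ≤
        Q1 μ s N y (fun η S => F η S * ((Qs₁ ++ (P₁, G₁) :: (P₂, G₂) :: Qs₂).map fun Q => ENNReal.ofReal (exP (Q.2 (η, A₀)) S)).prod) := by
      refine Q1_mono fun η S _ _ => le_of_eq ?_
      rw [hF]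
      by_cases hS : S ∈ Pn N y
      · have e1 : ∀ φ : Px (Pn N y) → ℝ, exP φ S = φ ⟨S, hS⟩ := fun φ => by
          unfold exP
          rw [dif_pos hS]
        simp only [e1]
        rw [ENNReal.ofReal_mul (hf0 _ _), ENNReal.ofReal_mul (mul_nonneg (d1.1 _ _) (d2.1 _ _)), ENNReal.ofReal_mul (d1.1 _ _),
          List.map_append, List.map_append, List.prod_append, List.prod_append, List.map_cons, List.map_cons, List.prod_cons, List.prod_cons,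
          ENNReal.ofReal_mul]
        · rw [← ofReal_map_prod Qs₁ _ fun Q hQ => (dQ Q (List.mem_append_left _ hQ)).1 _ _,
            ← ofReal_map_prod Qs₂ _ fun Q hQ => (dQ Q (List.mem_append_right _ hQ)).1 _ _]
          ring
        · refine List.prod_nonneg ?_
          intro z hz
          obtain ⟨Q, hQ, rfl⟩ := List.mem_map.1 hz
          exact (dQ Q (List.mem_append_left _ hQ)).1 _ _
      · have e1 : ∀ φ : Px (Pn N y) → ℝ, exP φ S = 0 := fun φ => by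
          unfold exP
          rw [dif_neg hS]
        simp only [e1, ENNReal.ofReal_zero, zero_mul]
    have t2 := rep_list hrall (fun Q hQ => (hGdom Q hQ).2) A₀ F hF1
    rw [← hXd] at t2
    -- the cut
    have t3 : Q1 μ s N y (fun η S => F η S * ((Ps₁ ++ R₁ :: R₂ :: Ps₂).map fun P => mm μ s N y X P η S).prod) ≤
        Q1 μ s N y (fun η S => F η S * ((Ps₁ ++ R₁.cutR m tA :: R₂.cutL m tB :: Ps₂).map fun P => mm μ s N y X P η S).prod) +
        (Q1 μ s N y (fun η S => F η S * ((Ps₁ ++ R₁.longR m tC :: Ps₂).map fun P => mm μ s N y X P η S).prod) +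
        Q1 μ s N y (fun η S => F η S * ((Ps₁ ++ R₂.longL m tD :: Ps₂).map fun P => mm μ s N y X P η S).prod)) := by
      have hMl : ∀ (Ps : List MPl) (S : Finset ℕ), Measurable fun η => F η S * (Ps.map fun P => mm μ s N y X P η S).prod :=
        fun Ps S => (hFm S).mul (mmp_meas Ps S)
      have e1 := Q1_add (μ := μ) (s := s) (N := N) (y := (y : ℤ))
        (f := fun η S => F η S * ((Ps₁ ++ R₁.longR m tC :: Ps₂).map fun P => mm μ s N y X P η S).prod)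
        (g := fun η S => F η S * ((Ps₁ ++ R₂.longL m tD :: Ps₂).map fun P => mm μ s N y X P η S).prod) (hMl _)
      have e2 := Q1_add (μ := μ) (s := s) (N := N) (y := (y : ℤ))
        (f := fun η S => F η S * ((Ps₁ ++ R₁.cutR m tA :: R₂.cutL m tB :: Ps₂).map fun P => mm μ s N y X P η S).prod)
        (g := fun η S => F η S * ((Ps₁ ++ R₁.longR m tC :: Ps₂).map fun P => mm μ s N y X P η S).prod +
          F η S * ((Ps₁ ++ R₂.longL m tD :: Ps₂).map fun P => mm μ s N y X P η S).prod) (hMl _)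
      rw [← e1, ← e2]
      refine Q1_mono fun η S _ _ => ?_
      rw [← mul_add, ← mul_add]
      refine mul_le_mul' le_rfl ?_
      simp only [List.map_append, List.prod_append, List.map_cons, List.prod_cons]
      rw [← mul_add, ← mul_add]
      refine mul_le_mul' le_rfl ?_
      have g1 : R₁.Gd N y X L := by rw [hXd]; exact q1.2.2.1
      have g2 : R₂.Gd N y X L := by rw [hXd]; exact q2.2.2.1
      have s1 := mm_cutR (μ := μ) (s := s) g1 (m := m) (by omega) (by omega) tA tC η S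
      have s2 := mm_cutL (μ := μ) (s := s) g2 (m := m) (by omega) (by omega) tB tD η S
      generalize (Ps₂.map fun P => mm μ s N y X P η S).prod = B
      have o1 := mm_le_one (μ := μ) (s := s) (N := N) (y := y) (X := X) (P := R₁.cutR m tA) η S
      have o2 := mm_le_one (μ := μ) (s := s) (N := N) (y := y) (X := X) (P := R₂) η S
      calc mm μ s N y X R₁ η S * (mm μ s N y X R₂ η S * B)
          ≤ (mm μ s N y X (R₁.cutR m tA) η S + mm μ s N y X (R₁.longR m tC) η S) * (mm μ s N y X R₂ η S * B) := mul_le_mul' s1 le_rfl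
        _ = mm μ s N y X (R₁.cutR m tA) η S * (mm μ s N y X R₂ η S * B) + mm μ s N y X (R₁.longR m tC) η S * (mm μ s N y X R₂ η S * B) :=
            add_mul _ _ _
        _ ≤ mm μ s N y X (R₁.cutR m tA) η S * ((mm μ s N y X (R₂.cutL m tB) η S + mm μ s N y X (R₂.longL m tD) η S) * B) +
            mm μ s N y X (R₁.longR m tC) η S * (1 * B) :=
            add_le_add (mul_le_mul' le_rfl (mul_le_mul' s2 le_rfl)) (mul_le_mul' le_rfl (mul_le_mul' o2 le_rfl))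
        _ = mm μ s N y X (R₁.cutR m tA) η S * (mm μ s N y X (R₂.cutL m tB) η S * B) +
            mm μ s N y X (R₁.cutR m tA) η S * (mm μ s N y X (R₂.longL m tD) η S * B) + mm μ s N y X (R₁.longR m tC) η S * B := by
            rw [one_mul, add_mul, mul_add]
        _ ≤ mm μ s N y X (R₁.cutR m tA) η S * (mm μ s N y X (R₂.cutL m tB) η S * B) +
            1 * (mm μ s N y X (R₂.longL m tD) η S * B) + mm μ s N y X (R₁.longR m tC) η S * B :=
            add_le_add (add_le_add le_rfl (mul_le_mul' o1 le_rfl)) le_rfl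
        _ = _ := by
            rw [one_mul]
            ring
    have g1 : R₁.Gd N y X L := by rw [hXd]; exact q1.2.2.1
    have g2 : R₂.Gd N y X L := by rw [hXd]; exact q2.2.2.1
    have hXX : 1 ≤ X := by rw [hXd]; exact hX1
    have hoff : ∀ {as : List Plc} {bs : List MPl}, List.Forall₂ Sim as (bs.map MPl.p) →
        (∀ a ∈ as, a ∈ P₁.cutR m tA :: P₂.cutL m tB :: P₁.longR m tC :: P₂.longL m tD :: (Qs₁ ++ Qs₂).map Prod.fst) →
        ∀ P ∈ bs, OffW P.p.J F := by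
      intro as bs hs hsub P hP
      obtain ⟨a, ha, hsim⟩ := f2_mem hs P.p (List.mem_map.2 ⟨P, hP, rfl⟩)
      rw [hsim.J]
      exact hFo a (hsub a ha)
    have t4 := hPa L (by omega) N hLN hNL y hyN (hcone _ (min_le_left _ _)) X (by rw [hXd]; exact hXa)
      (Ps₁ ++ R₁.cutR m tA :: R₂.cutL m tB :: Ps₂) (by rw [List.length_append, List.length_cons, List.length_cons]; omega)
      (by
        intro P hP
        rw [List.mem_append, List.mem_cons, List.mem_cons] at hP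
        rcases hP with hP | rfl | rfl | hP
        exacts [(hP1 P hP).1, okA1, okA2, (hP2 P hP).1])
      (by
        intro P hP
        rw [List.mem_append, List.mem_cons, List.mem_cons] at hP
        rcases hP with hP | rfl | rfl | hP
        · rw [hXd]; exact (hP1 P hP).2
        · exact g1.cutR m tA
        · exact g2.cutL m tB
        · rw [hXd]; exact (hP2 P hP).2)
      (List.pairwise_map.1 (Sim.pw sA pwA)) F hFm hF1
      (hoff sA (by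
        intro a ha
        simp only [List.mem_append, List.mem_cons, List.map_append] at ha ⊢
        tauto))
    have t5 := hPb L (by omega) N hLN hNL y hyN (hcone _ (min_le_right _ _)) X (by rw [hXd]; exact hXb)
      (Ps₁ ++ R₁.longR m tC :: Ps₂) (by rw [List.length_append, List.length_cons]; omega)
      (by
        intro P hP
        rw [List.mem_append, List.mem_cons] at hP
        rcases hP with hP | rfl | hP
        exacts [(hP1 P hP).1, okC, (hP2 P hP).1])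
      (by
        intro P hP
        rw [List.mem_append, List.mem_cons] at hP
        rcases hP with hP | rfl | hP
        · rw [hXd]; exact (hP1 P hP).2
        · exact gd_longR hXX (by omega) R₁ tC (by omega)
        · rw [hXd]; exact (hP2 P hP).2)
      (List.pairwise_map.1 (Sim.pw sC pwC)) F hFm hF1
      (hoff sC (by
        intro a ha
        simp only [List.mem_append, List.mem_cons, List.map_append] at ha ⊢
        tauto))
    have t6 := hPb L (by omega) N hLN hNL y hyN (hcone _ (min_le_right _ _)) X (by rw [hXd]; exact hXb)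
      (Ps₁ ++ R₂.longL m tD :: Ps₂) (by rw [List.length_append, List.length_cons]; omega)
      (by
        intro P hP
        rw [List.mem_append, List.mem_cons] at hP
        rcases hP with hP | rfl | hP
        exacts [(hP1 P hP).1, okD, (hP2 P hP).1])
      (by
        intro P hP
        rw [List.mem_append, List.mem_cons] at hP
        rcases hP with hP | rfl | hP
        · rw [hXd]; exact (hP1 P hP).2
        · exact gd_longL hXX (by omega) R₂ tD (by omega)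
        · rw [hXd]; exact (hP2 P hP).2)
      (List.pairwise_map.1 (Sim.pw sD pwD)) F hFm hF1
      (hoff sD (by
        intro a ha
        simp only [List.mem_append, List.mem_cons, List.map_append] at ha ⊢
        tauto))
    -- the prices
    have w1 := f2_price r1
    have w2 := f2_price r2
    have w3 := q1.2.2.2.1
    have w4 := q2.2.2.2.1
    have w5 : ENNReal.ofReal ((L : ℝ) ^ (ε / 2) * (EE' μ s (R₁.longR m tC).p.l)⁻¹) ≤
        ENNReal.ofReal ((L : ℝ) ^ ε * (EE' μ s (m - P₁.V))⁻¹) := by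
      refine ENNReal.ofReal_le_ofReal ?_
      show (L : ℝ) ^ (ε / 2) * (EE' μ s (m - R₁.p.V))⁻¹ ≤ _
      rw [u6]
      exact mul_le_mul_of_nonneg_right hpe (inv_nonneg.2 (hE _).le)
    have w6 : ENNReal.ofReal ((L : ℝ) ^ (ε / 2) * (EE' μ s (R₂.longL m tD).p.l)⁻¹) ≤
        ENNReal.ofReal ((L : ℝ) ^ ε * (EE' μ s (P₂.U - m))⁻¹) := by
      refine ENNReal.ofReal_le_ofReal ?_
      show (L : ℝ) ^ (ε / 2) * (EE' μ s (R₂.p.U - m))⁻¹ ≤ _
      rw [v5]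
      exact mul_le_mul_of_nonneg_right hpe (inv_nonneg.2 (hE _).le)
    rw [List.map_append, List.map_cons, List.map_cons, List.prod_append, List.prod_cons, List.prod_cons] at t4
    rw [List.map_append, List.map_cons, List.prod_append, List.prod_cons] at t5 t6
    have hee : ∀ c, min ca cb ≤ c → ENNReal.ofReal (Real.exp (-(L : ℝ) ^ c)) ≤ ENNReal.ofReal (Real.exp (-(L : ℝ) ^ min ca cb)) := by
      intro c hc
      exact ENNReal.ofReal_le_ofReal (Real.exp_le_exp.2 (neg_le_neg (Real.rpow_le_rpow_of_exponent_le hL1 hc)))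
    have f4 := t4.trans (add_le_add (mul_le_mul' (mul_le_mul' w1 (mul_le_mul' w3 (mul_le_mul' w4 w2))) le_rfl) (hee ca (min_le_left _ _)))
    have f5 := t5.trans (add_le_add (mul_le_mul' (mul_le_mul' w1 (mul_le_mul' w5 w2)) le_rfl) (hee cb (min_le_right _ _)))
    have f6 := t6.trans (add_le_add (mul_le_mul' (mul_le_mul' w1 (mul_le_mul' w6 w2)) le_rfl) (hee cb (min_le_right _ _)))
    refine t1.trans (t2.trans ((add_le_add (t3.trans (add_le_add f4 (add_le_add f5 f6))) le_rfl).trans (le_of_eq ?_)))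
    rw [ENNReal.ofReal_mul (add_nonneg (add_nonneg (mul_nonneg (hr0 _) (hr0 _)) (hr0 _)) (hr0 _)),
      ENNReal.ofReal_add (add_nonneg (mul_nonneg (hr0 _) (hr0 _)) (hr0 _)) (hr0 _),
      ENNReal.ofReal_add (mul_nonneg (hr0 _) (hr0 _)) (hr0 _), ENNReal.ofReal_mul (p := (L : ℝ) ^ ε * (EE' μ s P₁.l)⁻¹) (hr0 _),
      ofReal_list_prod _ fun Q => hr0 _, List.map_append, List.prod_append, ENNReal.ofReal_add (by positivity) (by positivity),
      ENNReal.ofReal_mul (p := (3 : ℝ)) (by norm_num), ENNReal.ofReal_mul (p := 2 * ((k : ℝ) + 2)) (by positivity),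
      ENNReal.ofReal_mul (p := (2 : ℝ)) (by norm_num), ENNReal.ofReal_add (by positivity) (by norm_num), ENNReal.ofReal_natCast,
      ENNReal.ofReal_ofNat, ENNReal.ofReal_ofNat, hF, List.length_append, List.length_cons, List.length_cons]
    have hlk : ((Qs₁.length + (Qs₂.length + 1 + 1) : ℕ) : ℝ≥0∞) = k + 2 := by
      have : Qs₁.length + (Qs₂.length + 1 + 1) = k + 2 := by omega
      rw [this]
      push_cast
      rfl
    rw [hlk]
    ring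

end Pool.Agent.W_7d29a1_C0.P86
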