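import Pool.Agent.W_7d29a1_C0.SiteP80
import Pool.Agent.W_7d29a1_C0.Two86

/-!
C0, helper80: DOUBLE TIES OF TWO ROWS IN ONE BLOCK, THE LONG PART (`pairG`, events; `pairG_int`, robust events): the micro ties of the rows
`j` and `k` and ONE replica of the block `[C, D)` without any meeting in `[m₁, m₂]` between the two windows. The near pairs (`near_pairs`).
-/

set_option autoImplicit false

namespace Pool.Agent.W_7d29a1_C0.Own80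

open MeasureTheory ProbabilityTheory Filter Topology Finset
open Pool.Agent.W_7d29a1_F Pool.Agent.W_7d29a1_X Pool.Agent.W_7d29a1_h4g Pool.Agent.W_7d29a1_H
open Pool.Agent.W_7d29a1_HS (In wd md)
open Pool.Agent.W_7d29a1_HZ Pool.Agent.W_7d29a1_HZ.R72 Pool.Agent.W_7d29a1_Z.Asm72
open Pool.Agent.W_7d29a1_HZ.Z86
open Pool.Agent.W_7d29a1_C0.P86
open Pool.Agent.W_7d29a1_C0.P3 (Hy hy_ms hy_off er amp amp_ex)
open Pool.Agent.W_7d29a1_C0.Mod92 (Px Pn lw ps pJ ne_Pn ps_Pn wm Pm meas_lw meas_wm meas_cE meas_gm int_Pm)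
open Pool.Agent.W_7d29a1_C0.Swap57 (NI)
open Pool.W7d29a1.C0 (gm gm_nonneg gm_mono gm_const)
open Pool.W7d29a1.C0.VT31 (cE cE_mono)
open Pool.W7d29a1.C0.S1 (i1 i1_nonneg)
open Pool.W7d29a1.C0.R43 (st Tau mI)
open Pool.Agent.W_7d29a1_C0.Strip80 (OffD)
open scoped ENNReal

variable {μ : Measure ℝ} {s : ℝ} {N : ℕ}

/-- A mass place with one window and the whole block. -/
def pl1 (c d u v l : ℕ) : MPl := ⟨⟨c, d, c, d, u, v, l, Ty.L, False⟩, NoMeet u v, 1, fun _ => u, fun _ => v⟩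

theorem pl1_gd {y c d u v l : ℕ} {X : ℝ} {L : ℕ} (hX : 1 ≤ X) (hL : 1 ≤ L) (h1 : c ≤ u) (h2 : u + l ≤ v) (h3 : v ≤ d) :
    (pl1 c d u v l).Gd N y X L := by
  refine ⟨fun h => h, ⟨by show ((1 : ℕ) : ℝ) ≤ X; simpa using hX, hL⟩, fun n _ => ⟨le_rfl, h2, le_rfl⟩, fun S S' _ _ _ _ hag hm => ⟨0, Nat.one_pos, ?_⟩⟩
  show Gap c d u v S S'
  exact gap_of_nm h1 h3 hag hm

theorem hy_mm {y c d u v l : ℕ} {x X : ℝ} (hx : x ≤ X) {η : Env} {S : Finset ℕ} (h : Hy μ s N y c d (NoMeet u v) x η S) :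
    mm μ s N y X (pl1 c d u v l) η S = 1 := by
  refine le_antisymm (mm_le_one η S) ?_
  unfold mm
  refine le_min le_rfl ?_
  rw [← ENNReal.ofReal_mul (Real.exp_pos _).le, ← ENNReal.ofReal_one]
  refine ENNReal.ofReal_le_ofReal ?_
  have h2 : Real.exp (-x) < mc μ s N y c d (NoMeet u v) η S := h
  have h3 := mul_le_mul_of_nonneg_left h2.le (Real.exp_pos X).le
  refine le_trans ?_ h3
  rw [← Real.exp_add, ← Real.exp_zero]
  exact Real.exp_le_exp.2 (by linarith)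

/-- Near pairs. -/
theorem near_pairs {R : Finset ℕ} {a : ℕ → ℝ} (h0 : ∀ j, 0 ≤ a j) (h1 : ∀ j, a j ≤ 1) (w : ℕ) :
    ∑ j ∈ R, ∑ k ∈ R with (k < j + w ∧ j < k + w), a j * a k ≤ 2 * w * ∑ j ∈ R, a j := by
  rw [mul_sum]
  refine sum_le_sum fun j _ => ?_
  have hc : (R.filter fun k => k < j + w ∧ j < k + w).card ≤ 2 * w := by
    refine (card_le_card (t := Ico (j + 1 - w) (j + w)) fun k hk => ?_).trans ?_
    · obtain ⟨-, g1, g2⟩ := mem_filter.1 hk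
      rw [mem_Ico]
      omega
    · rw [Nat.card_Ico]
      omega
  have hc' : ((R.filter fun k => k < j + w ∧ j < k + w).card : ℝ) ≤ 2 * w := by exact_mod_cast hc
  calc ∑ k ∈ R with (k < j + w ∧ j < k + w), a j * a k ≤ ∑ k ∈ R with (k < j + w ∧ j < k + w), a j :=
        sum_le_sum fun k _ => mul_le_of_le_one_right (h0 j) (h1 k)
    _ = (R.filter fun k => k < j + w ∧ j < k + w).card * a j := by rw [sum_const, nsmul_eq_mul]
    _ ≤ 2 * w * a j := mul_le_mul_of_nonneg_right hc' (h0 j)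

variable [IsProbabilityMeasure μ] {c₀ C₀ : ℝ} {n₀ : ℕ}

/-- **THE LONG PART OF TWO ROWS IN ONE BLOCK**, events. -/
theorem pairG (h : In μ s c₀ C₀ n₀) : ∀ ε θ : ℝ, 0 < ε → 0 < θ → ∃ δ κ c₂ : ℝ, 0 < δ ∧ 0 < κ ∧ 0 < c₂ ∧ ∃ L₀ : ℕ, ∀ L : ℕ, L₀ ≤ L →
    ∀ N : ℕ, L ≤ 16 * N → N ≤ L → ∀ y : ℕ, y ≤ N → |(y : ℝ) - sl μ s * N| ≤ ((L : ℝ) ^ δ * wd' μ s N) →
    ∀ x : ℝ, x ≤ (L : ℝ) ^ κ → ∀ β l C D j k m₁ m₂ u v u' v' : ℕ, (L : ℝ) ^ θ ≤ l → C + β ≤ j → k + β ≤ D → D ≤ N →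
    j ≤ u + β → v ≤ j + β → u + l ≤ v → k ≤ u' + β → v' ≤ k + β → u' + l ≤ v' → j + β ≤ m₁ → m₂ + β ≤ k → m₁ + 8 * β ≤ m₂ → l ≤ 2 * β →
    ∀ F : Env → Finset ℕ → Prop, Ms F → OffRows (Ioo C D) F →
    P1 μ s N y (fun η S => F η S ∧ Hy μ s N y (j - β) (j + β) (NoMeet u v) x η S ∧ Hy μ s N y (k - β) (k + β) (NoMeet u' v') x η S ∧
      Hy μ s N y C D (NoMeet m₁ m₂) x η S) ≤
      ENNReal.ofReal ((L : ℝ) ^ ε * ((EE' μ s l)⁻¹ ^ 2 * (EE' μ s (m₂ - m₁))⁻¹)) * P1 μ s N y F + ENNReal.ofReal (Real.exp (-(L : ℝ) ^ c₂)) := by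
  intro ε θ hε hθ
  obtain ⟨δ, κ, c₂, hδ, hκ, hc₂, L₁, hP⟩ := lamList h 3 (by norm_num) (ε / 3) θ (by positivity) hθ
  refine ⟨δ, κ, c₂, hδ, hκ, hc₂, L₁ + 1, ?_⟩
  intro L hL N hLN hNL y hyN hyc x hx β l C D j k m₁ m₂ u v u' v' hlL hCj hkD hDN h1 h2 h3 h4 h5 h6 h7 h8 h9 hlβ F hF hFo
  have hL1 : (1 : ℝ) ≤ L := by exact_mod_cast (show 1 ≤ L by omega)
  have hL0 : (0 : ℝ) < L := by linarith
  have hX : (1 : ℝ) ≤ (L : ℝ) ^ κ := Real.one_le_rpow hL1 hκ.le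
  have hE0 : ∀ t, 0 < EE' μ s t := fun t => lt_of_lt_of_le zero_lt_one (le_max_left _ _)
  have hlm : (L : ℝ) ^ θ ≤ ((m₂ - m₁ : ℕ) : ℝ) := hlL.trans (by exact_mod_cast (show l ≤ m₂ - m₁ by omega))
  have g := hP L (by omega) N hLN hNL y hyN hyc ((L : ℝ) ^ κ) le_rfl
    [pl1 C D m₁ m₂ (m₂ - m₁), pl1 (j - β) (j + β) u v l, pl1 (k - β) (k + β) u' v' l] rfl
    (by
      simp only [List.mem_cons, List.not_mem_nil, or_false]
      rintro P (rfl | rfl | rfl)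
      · refine ⟨?_, hlm⟩
        show C ≤ C ∧ C ≤ m₁ ∧ m₁ ≤ m₂ ∧ m₂ ≤ D ∧ D ≤ D ∧ D ≤ N
        omega
      · refine ⟨?_, hlL⟩
        show j - β ≤ j - β ∧ j - β ≤ u ∧ u ≤ v ∧ v ≤ j + β ∧ j + β ≤ j + β ∧ j + β ≤ N
        omega
      · refine ⟨?_, hlL⟩
        show k - β ≤ k - β ∧ k - β ≤ u' ∧ u' ≤ v' ∧ v' ≤ k + β ∧ k + β ≤ k + β ∧ k + β ≤ N
        omega)
    (by
      simp only [List.mem_cons, List.not_mem_nil, or_false]
      rintro P (rfl | rfl | rfl)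
      · exact pl1_gd hX (by omega) (by omega) (by omega) (by omega)
      · exact pl1_gd hX (by omega) (by omega) h3 h2
      · exact pl1_gd hX (by omega) (by omega) h6 h5)
    (by
      simp only [List.pairwise_cons, List.mem_cons, List.not_mem_nil, or_false, forall_eq_or_imp, forall_eq, List.Pairwise.nil, and_true,
        IsEmpty.forall_iff, implies_true]
      refine ⟨⟨Or.inr (Or.inr ⟨fun h => h, Or.inl ?_, ?_⟩), Or.inr (Or.inr ⟨fun h => h, Or.inr ?_, ?_⟩)⟩, Or.inl ?_⟩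
      · show j + β ≤ m₁
        exact h7
      · show 4 * (j + β - (j - β)) ≤ m₂ - m₁
        omega
      · show m₂ ≤ k - β
        omega
      · show 4 * (k + β - (k - β)) ≤ m₂ - m₁
        omega
      · show j + β ≤ k - β
        omega)
    (fun η S => ind (F η S)) (fun S => meas_ind (hF S)) (fun η S => ind_le _)
    (by
      have hoW : ∀ J : Finset ℕ, J ⊆ Ioo C D → OffW J (fun η S => ind (F η S)) := fun J hJ η η' S hq => by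
        have := hFo η η' S fun q hq' => hq q fun hh => hq' ⟨hh.1, hJ hh.2⟩
        show ind (F η S) = ind (F η' S)
        by_cases g : F η S
        · rw [ind_of g, ind_of (this.1 g)]
        · rw [ind_not g, ind_not fun g' => g (this.2 g')]
      simp only [List.mem_cons, List.not_mem_nil, or_false]
      rintro P (rfl | rfl | rfl)
      · exact hoW _ (subset_refl _)
      · refine hoW _ fun i hi => ?_
        have := mem_Ioo.1 (show i ∈ Ioo (j - β) (j + β) from hi)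
        rw [mem_Ioo]
        omega
      · refine hoW _ fun i hi => ?_
        have := mem_Ioo.1 (show i ∈ Ioo (k - β) (k + β) from hi)
        rw [mem_Ioo]
        omega)
  rw [Q1_ind hF] at g
  have hms : Ms (fun η S => F η S ∧ Hy μ s N y (j - β) (j + β) (NoMeet u v) x η S ∧ Hy μ s N y (k - β) (k + β) (NoMeet u' v') x η S ∧
      Hy μ s N y C D (NoMeet m₁ m₂) x η S) := ms_and hF (ms_and (hy_ms _ _) (ms_and (hy_ms _ _) (hy_ms _ _)))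
  rw [← Q1_ind hms]
  refine le_trans (Q1_mono fun η S _ _ => ?_) (g.trans (add_le_add (mul_le_mul' (le_of_eq ?_) le_rfl) le_rfl))
  · by_cases hh : F η S ∧ Hy μ s N y (j - β) (j + β) (NoMeet u v) x η S ∧ Hy μ s N y (k - β) (k + β) (NoMeet u' v') x η S ∧
        Hy μ s N y C D (NoMeet m₁ m₂) x η S
    · rw [ind_of hh, ind_of hh.1]
      simp only [List.map_cons, List.map_nil, List.prod_cons, List.prod_nil]
      rw [hy_mm hx hh.2.1, hy_mm hx hh.2.2.1, hy_mm hx hh.2.2.2]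
      simp
    · rw [ind_not hh]
      exact zero_le
  · simp only [List.map_cons, List.map_nil, List.prod_cons, List.prod_nil, mul_one]
    have p1 : ∀ t, 0 ≤ (L : ℝ) ^ (ε / 3) * (EE' μ s t)⁻¹ := fun t => mul_nonneg (by positivity) (inv_pos.2 (hE0 t)).le
    show ENNReal.ofReal ((L : ℝ) ^ (ε / 3) * (EE' μ s (m₂ - m₁))⁻¹) * (ENNReal.ofReal ((L : ℝ) ^ (ε / 3) * (EE' μ s l)⁻¹) *
      ENNReal.ofReal ((L : ℝ) ^ (ε / 3) * (EE' μ s l)⁻¹)) = _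
    rw [← ENNReal.ofReal_mul (p1 _), ← ENNReal.ofReal_mul (p1 _)]
    congr 1
    have e1 : (L : ℝ) ^ ε = (L : ℝ) ^ (ε / 3) * (L : ℝ) ^ (ε / 3) * (L : ℝ) ^ (ε / 3) := by
      rw [← Real.rpow_add hL0, ← Real.rpow_add hL0]
      congr 1
      ring
    rw [e1]
    ring

/-- **(N)**: the micro tie of one row. -/
theorem pairN (h : In μ s c₀ C₀ n₀) : ∀ ε θ : ℝ, 0 < ε → 0 < θ → ∃ δ κ c₂ : ℝ, 0 < δ ∧ 0 < κ ∧ 0 < c₂ ∧ ∃ L₀ : ℕ, ∀ L : ℕ, L₀ ≤ L →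
    ∀ N : ℕ, L ≤ 16 * N → N ≤ L → ∀ y : ℕ, y ≤ N → |(y : ℝ) - sl μ s * N| ≤ ((L : ℝ) ^ δ * wd' μ s N) →
    ∀ x : ℝ, x ≤ (L : ℝ) ^ κ → ∀ l c d u v : ℕ, (L : ℝ) ^ θ ≤ l → c ≤ u → v ≤ d → d ≤ N → u + l ≤ v →
    ∀ F : Env → Finset ℕ → Prop, Ms F → OffRows (Ioo c d) F →
    P1 μ s N y (fun η S => F η S ∧ Hy μ s N y c d (NoMeet u v) x η S) ≤
      ENNReal.ofReal ((L : ℝ) ^ ε * (EE' μ s l)⁻¹) * P1 μ s N y F + ENNReal.ofReal (Real.exp (-(L : ℝ) ^ c₂)) := by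
  intro ε θ hε hθ
  obtain ⟨δ, κ, c₂, hδ, hκ, hc₂, L₁, hP⟩ := lamList h 1 (by norm_num) ε θ hε hθ
  refine ⟨δ, κ, c₂, hδ, hκ, hc₂, L₁ + 1, ?_⟩
  intro L hL N hLN hNL y hyN hyc x hx l c d u v hlL h1 h2 h3 h4 F hF hFo
  have hL1 : (1 : ℝ) ≤ L := by exact_mod_cast (show 1 ≤ L by omega)
  have hX : (1 : ℝ) ≤ (L : ℝ) ^ κ := Real.one_le_rpow hL1 hκ.le
  have g := hP L (by omega) N hLN hNL y hyN hyc ((L : ℝ) ^ κ) le_rfl [pl1 c d u v l] rfl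
    (by
      simp only [List.mem_cons, List.not_mem_nil, or_false]
      rintro P rfl
      refine ⟨?_, hlL⟩
      show c ≤ c ∧ c ≤ u ∧ u ≤ v ∧ v ≤ d ∧ d ≤ d ∧ d ≤ N
      omega)
    (by
      simp only [List.mem_cons, List.not_mem_nil, or_false]
      rintro P rfl
      exact pl1_gd hX (by omega) h1 h4 h2)
    (List.pairwise_singleton _ _)
    (fun η S => ind (F η S)) (fun S => meas_ind (hF S)) (fun η S => ind_le _)
    (by
      simp only [List.mem_cons, List.not_mem_nil, or_false]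
      rintro P rfl η η' S hq
      have := hFo η η' S hq
      show ind (F η S) = ind (F η' S)
      by_cases g : F η S
      · rw [ind_of g, ind_of (this.1 g)]
      · rw [ind_not g, ind_not fun g' => g (this.2 g')])
  rw [Q1_ind hF] at g
  have hms : Ms (fun η S => F η S ∧ Hy μ s N y c d (NoMeet u v) x η S) := ms_and hF (hy_ms _ _)
  rw [← Q1_ind hms]
  refine le_trans (Q1_mono fun η S _ _ => ?_) (g.trans (add_le_add (mul_le_mul' (le_of_eq ?_) le_rfl) le_rfl))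
  · by_cases hh : F η S ∧ Hy μ s N y c d (NoMeet u v) x η S
    · rw [ind_of hh, ind_of hh.1]
      simp only [List.map_cons, List.map_nil, List.prod_cons, List.prod_nil]
      rw [hy_mm hx hh.2]
      simp
    · rw [ind_not hh]
      exact zero_le
  · simp only [List.map_cons, List.map_nil, List.prod_cons, List.prod_nil, mul_one]
    rfl

/-- **(G)**: per pair, both sides. -/
theorem pairG_RL (h : In μ s c₀ C₀ n₀) : ∀ ε θ : ℝ, 0 < ε → 0 < θ → ∃ δ κ c₂ : ℝ, 0 < δ ∧ 0 < κ ∧ 0 < c₂ ∧ ∃ L₀ : ℕ, ∀ L : ℕ, L₀ ≤ L →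
    ∀ N : ℕ, L ≤ 16 * N → N ≤ L → ∀ y : ℕ, y ≤ N → |(y : ℝ) - sl μ s * N| ≤ ((L : ℝ) ^ δ * wd' μ s N) →
    ∀ x : ℝ, x ≤ (L : ℝ) ^ κ → ∀ β l C D j k m u v u' v' : ℕ, (L : ℝ) ^ θ ≤ l → C + β ≤ j → k + β ≤ D → D ≤ N →
    j ≤ u + β → v ≤ j + β → u + l ≤ v → k ≤ u' + β → v' ≤ k + β → u' + l ≤ v' → j + 64 * β ≤ k → j + (k - j) / 4 ≤ m → m + (k - j) / 4 ≤ k →
    l ≤ 2 * β → ∀ F : Env → Finset ℕ → Prop, Ms F → OffRows (Ioo C D) F →
    P1 μ s N y (fun η S => F η S ∧ Hy μ s N y (j - β) (j + β) (NoMeet u v) x η S ∧ Hy μ s N y (k - β) (k + β) (NoMeet u' v') x η S ∧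
      Hy μ s N y C D (NoMeet (j + β) m) x η S) ≤
      ENNReal.ofReal ((L : ℝ) ^ ε * ((EE' μ s l)⁻¹ ^ 2 * (EE' μ s (k - j))⁻¹)) * P1 μ s N y F + ENNReal.ofReal (Real.exp (-(L : ℝ) ^ c₂)) ∧
    P1 μ s N y (fun η S => F η S ∧ Hy μ s N y (j - β) (j + β) (NoMeet u v) x η S ∧ Hy μ s N y (k - β) (k + β) (NoMeet u' v') x η S ∧
      Hy μ s N y C D (NoMeet m (k - β)) x η S) ≤
      ENNReal.ofReal ((L : ℝ) ^ ε * ((EE' μ s l)⁻¹ ^ 2 * (EE' μ s (k - j))⁻¹)) * P1 μ s N y F + ENNReal.ofReal (Real.exp (-(L : ℝ) ^ c₂)) := by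
  intro ε θ hε hθ
  obtain ⟨δ, κ, c₂, hδ, hκ, hc₂, L₁, hP⟩ := pairG h (ε / 2) θ (by positivity) hθ
  obtain ⟨L₂, h8⟩ := ev_const 8 (show 0 < ε / 2 by positivity)
  refine ⟨δ, κ, c₂, hδ, hκ, hc₂, L₁ + L₂ + 1, ?_⟩
  intro L hL N hLN hNL y hyN hyc x hx β l C D j k m u v u' v' hlL hCj hkD hDN h1 h2 h3 h4 h5 h6 h7 h9 h10 hlβ F hF hFo
  have hL1 : (1 : ℝ) ≤ L := by exact_mod_cast (show 1 ≤ L by omega)
  have hL0 : (0 : ℝ) < L := by linarith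
  have hE0 : ∀ t, 0 < EE' μ s t := fun t => lt_of_lt_of_le zero_lt_one (le_max_left _ _)
  have hl1 : 1 ≤ l := by
    have g1 : (0 : ℝ) < (L : ℝ) ^ θ := Real.rpow_pos_of_pos hL0 _
    have g2 : (0 : ℝ) < l := by linarith
    exact_mod_cast g2
  have key : ∀ t, k - j ≤ 8 * t → (L : ℝ) ^ (ε / 2) * ((EE' μ s l)⁻¹ ^ 2 * (EE' μ s t)⁻¹) ≤
      (L : ℝ) ^ ε * ((EE' μ s l)⁻¹ ^ 2 * (EE' μ s (k - j))⁻¹) := fun t ht => by
    have g1 := EE'_le_mul86 h (m := k - j) (n := t) (k := 8) (by norm_num) ht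
    have g2 : (EE' μ s t)⁻¹ ≤ 8 * (EE' μ s (k - j))⁻¹ := by
      rw [← div_eq_mul_inv, le_div_iff₀ (hE0 _), inv_mul_le_iff₀ (hE0 _)]
      push_cast at g1
      linarith
    have g3 : (L : ℝ) ^ ε = (L : ℝ) ^ (ε / 2) * (L : ℝ) ^ (ε / 2) := by
      rw [← Real.rpow_add hL0]
      congr 1
      ring
    have i1 := (inv_pos.2 (hE0 l)).le
    have i2 := (inv_pos.2 (hE0 (k - j))).le
    have h8' : (8 : ℝ) ≤ (L : ℝ) ^ (ε / 2) := h8 L (by omega)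
    calc (L : ℝ) ^ (ε / 2) * ((EE' μ s l)⁻¹ ^ 2 * (EE' μ s t)⁻¹)
        ≤ (L : ℝ) ^ (ε / 2) * ((EE' μ s l)⁻¹ ^ 2 * (8 * (EE' μ s (k - j))⁻¹)) := by gcongr
      _ = (L : ℝ) ^ (ε / 2) * 8 * ((EE' μ s l)⁻¹ ^ 2 * (EE' μ s (k - j))⁻¹) := by ring
      _ ≤ (L : ℝ) ^ (ε / 2) * (L : ℝ) ^ (ε / 2) * ((EE' μ s l)⁻¹ ^ 2 * (EE' μ s (k - j))⁻¹) := by gcongr
      _ = _ := by rw [g3]
  constructor
  · have g := hP L (by omega) N hLN hNL y hyN hyc x hx β l C D j k (j + β) m u v u' v' hlL hCj hkD hDN h1 h2 h3 h4 h5 h6 le_rfl (by omega)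
      (by omega) hlβ F hF hFo
    exact g.trans (add_le_add (mul_le_mul' (ENNReal.ofReal_le_ofReal (key _ (by omega))) le_rfl) le_rfl)
  · have g := hP L (by omega) N hLN hNL y hyN hyc x hx β l C D j k m (k - β) u v u' v' hlL hCj hkD hDN h1 h2 h3 h4 h5 h6 (by omega) (by omega)
      (by omega) hlβ F hF hFo
    exact g.trans (add_le_add (mul_le_mul' (ENNReal.ofReal_le_ofReal (key _ (by omega))) le_rfl) le_rfl)

/-- **THE LONG PART OF TWO ROWS IN ONE BLOCK**, robust events, model form. -/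
theorem pairG_int (h : In μ s c₀ C₀ n₀) : ∀ ε θ : ℝ, 0 < ε → 0 < θ → ∃ δ κ c₂ : ℝ, 0 < δ ∧ 0 < κ ∧ 0 < c₂ ∧ ∃ L₀ : ℕ, ∀ L : ℕ, L₀ ≤ L →
    ∀ N : ℕ, L ≤ 16 * N → N ≤ L → ∀ y : ℕ, y ≤ N → |(y : ℝ) - sl μ s * N| ≤ ((L : ℝ) ^ δ * wd' μ s N) →
    ∀ M : ℝ, 8 ≤ M → M ≤ (L : ℝ) ^ κ → ∀ x : ℝ, x ≤ (L : ℝ) ^ κ →
    ∀ β l C D j k m₁ m₂ u v u' v' : ℕ, (L : ℝ) ^ θ ≤ l → C + β ≤ j → k + β ≤ D → D ≤ N →
    j ≤ u + β → v ≤ j + β → u + l ≤ v → k ≤ u' + β → v' ≤ k + β → u' + l ≤ v' → j + β ≤ m₁ → m₂ + β ≤ k → m₁ + 8 * β ≤ m₂ → l ≤ 2 * β →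
    ∀ f : Env × Finset ℕ → Px (Pn N y) → ℝ, (∀ A x, Measurable fun η => f (η, A) x) → (∀ ω x, 0 ≤ f ω x) →
    (∀ ω x, f ω x ≤ 1) → OffD (Ioo C D) f →
    ∫ ω, gm (wm μ s N (Pn N y) ω) (fun z => f ω z * (mic80 μ s N y β u v j M ω z * mic80 μ s N y β u' v' k M ω z *
      i1 (Real.exp (-x) < mI (wm μ s N (Pn N y) ω) (pJ C D) m₁ m₂ z))) ∂(Pm μ N) ≤
      ((L : ℝ) ^ ε * ((EE' μ s l)⁻¹ ^ 2 * (EE' μ s (m₂ - m₁))⁻¹)) * ∫ ω, gm (wm μ s N (Pn N y) ω) (f ω) ∂(Pm μ N) +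
        (Real.exp (-(L : ℝ) ^ c₂) + 6 * Real.exp (-M)) := by
  intro ε θ hε hθ
  obtain ⟨δ, κ, c₂, hδ, hκ, hc₂, L₁, hP⟩ := price_list h 3 (by norm_num) (ε / 3) θ (by positivity) hθ
  refine ⟨δ, κ, c₂, hδ, hκ, hc₂, L₁ + 1, ?_⟩
  intro L hL N hLN hNL y hyN hyc M hM hML x hx β l C D j k m₁ m₂ u v u' v' hlL hCj hkD hDN h1 h2 h3 h4 h5 h6 h7 h8 h9 hlβ f hfm hf0 hf1 hfo
  have hL1 : (1 : ℝ) ≤ L := by exact_mod_cast (show 1 ≤ L by omega)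
  have hL0 : (0 : ℝ) < L := by linarith
  have hX : (1 : ℝ) ≤ (L : ℝ) ^ κ := Real.one_le_rpow hL1 hκ.le
  have hlm : (L : ℝ) ^ θ ≤ ((m₂ - m₁ : ℕ) : ℝ) := hlL.trans (by exact_mod_cast (show l ≤ m₂ - m₁ by omega))
  have := ne_Pn (N := N) (y := y) hyN
  have hdom1 : Dom μ s N y ((L : ℝ) ^ κ) M ⟨C, D, C, D, m₁, m₂, m₂ - m₁, Ty.L, False⟩
      (fun ω z => i1 (Real.exp (-x) < mI (wm μ s N (Pn N y) ω) (pJ C D) m₁ m₂ z)) := by
    refine dom_mass hX (fun h => h) ⟨le_rfl, by show C ≤ m₁; omega, by show m₁ ≤ m₂; omega, by show m₂ ≤ D; omega, le_rfl⟩ rfl rfl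
      (by show m₁ + (m₂ - m₁) ≤ m₂; omega) (fun ω z => i1_nonneg _) (fun ω z => i1_le1 _) (fun ω z => ?_)
    show i1 (Real.exp (-x) < mI (wm μ s N (Pn N y) ω) (pJ C D) m₁ m₂ z) ≤ Real.exp ((L : ℝ) ^ κ) * mI (wm μ s N (Pn N y) ω) (pJ C D) m₁ m₂ z
    unfold Pool.W7d29a1.C0.S1.i1
    split_ifs with g
    · have g3 := mul_le_mul_of_nonneg_left g.le (Real.exp_pos ((L : ℝ) ^ κ)).le
      refine le_trans ?_ g3
      rw [← Real.exp_add, ← Real.exp_zero]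
      exact Real.exp_le_exp.2 (by linarith)
    · exact mul_nonneg (Real.exp_pos _).le (Pool.W7d29a1.C0.R43.mI_nonneg _ _ _ _ _)
  have hdom : ∀ a b i : ℕ, a + l ≤ b → Dom μ s N y ((L : ℝ) ^ κ) M ⟨i - β, i + β, i - β, i + β, a, b, l, Ty.L, True⟩
      (fun ω z => mic80 μ s N y β a b i M ω z) := fun a b i hab => by
    refine dom_tau (by linarith) trivial rfl rfl hab (fun ω x => i1_nonneg _) (fun ω x => i1_le1 _) (fun ω x => Or.inl fun g => ?_)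
    by_contra hcon
    refine g ?_
    unfold mic80 Pool.W7d29a1.C0.S1.i1
    rw [if_neg hcon]
  have g := hP L (by omega) N hLN hNL y hyN hyc M hM hML
    [(⟨C, D, C, D, m₁, m₂, m₂ - m₁, Ty.L, False⟩, fun ω z => i1 (Real.exp (-x) < mI (wm μ s N (Pn N y) ω) (pJ C D) m₁ m₂ z)),
      (⟨j - β, j + β, j - β, j + β, u, v, l, Ty.L, True⟩, fun ω z => mic80 μ s N y β u v j M ω z),
      (⟨k - β, k + β, k - β, k + β, u', v', l, Ty.L, True⟩, fun ω z => mic80 μ s N y β u' v' k M ω z)] rfl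
    (by
      simp only [List.mem_cons, List.not_mem_nil, or_false]
      rintro P (rfl | rfl | rfl)
      · refine ⟨?_, hlm⟩
        show C ≤ C ∧ C ≤ m₁ ∧ m₁ ≤ m₂ ∧ m₂ ≤ D ∧ D ≤ D ∧ D ≤ N
        omega
      · refine ⟨?_, hlL⟩
        show j - β ≤ j - β ∧ j - β ≤ u ∧ u ≤ v ∧ v ≤ j + β ∧ j + β ≤ j + β ∧ j + β ≤ N
        omega
      · refine ⟨?_, hlL⟩
        show k - β ≤ k - β ∧ k - β ≤ u' ∧ u' ≤ v' ∧ v' ≤ k + β ∧ k + β ≤ k + β ∧ k + β ≤ N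
        omega)
    (by
      simp only [List.pairwise_cons, List.mem_cons, List.not_mem_nil, or_false, forall_eq_or_imp, forall_eq, List.Pairwise.nil, and_true,
        IsEmpty.forall_iff, implies_true]
      refine ⟨⟨Or.inr (Or.inr ⟨fun h => h, Or.inl ?_, ?_⟩), Or.inr (Or.inr ⟨fun h => h, Or.inr ?_, ?_⟩)⟩, Or.inl ?_⟩
      · show j + β ≤ m₁
        exact h7
      · show 4 * (j + β - (j - β)) ≤ m₂ - m₁
        omega
      · show m₂ ≤ k - β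
        omega
      · show 4 * (k + β - (k - β)) ≤ m₂ - m₁
        omega
      · show j + β ≤ k - β
        omega)
    (by
      simp only [List.mem_cons, List.not_mem_nil, or_false]
      rintro P (rfl | rfl | rfl)
      exacts [hdom1, hdom u v j h3, hdom u' v' k h6])
    f hfm hf0 hf1
    (by
      simp only [List.mem_cons, List.not_mem_nil, or_false]
      rintro P (rfl | rfl | rfl) η η' A z hq
      · exact hfo η η' A z hq
      · refine hfo η η' A z fun q hq' => hq q fun hh => hq' ⟨hh.1, ?_⟩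
        have := mem_Ioo.1 (show q.1.toNat ∈ Ioo (j - β) (j + β) from hh.2)
        exact mem_Ioo.2 ⟨by omega, by omega⟩
      · refine hfo η η' A z fun q hq' => hq q fun hh => hq' ⟨hh.1, ?_⟩
        have := mem_Ioo.1 (show q.1.toNat ∈ Ioo (k - β) (k + β) from hh.2)
        exact mem_Ioo.2 ⟨by omega, by omega⟩)
  simp only [List.map_cons, List.map_nil, List.prod_cons, List.prod_nil, mul_one] at g
  have e0 : ∀ ω z, f ω z * (mic80 μ s N y β u v j M ω z * mic80 μ s N y β u' v' k M ω z *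
      i1 (Real.exp (-x) < mI (wm μ s N (Pn N y) ω) (pJ C D) m₁ m₂ z)) = f ω z * (i1 (Real.exp (-x) < mI (wm μ s N (Pn N y) ω) (pJ C D) m₁ m₂ z) *
        (mic80 μ s N y β u v j M ω z * mic80 μ s N y β u' v' k M ω z)) := fun ω z => by ring
  simp only [e0]
  refine g.trans (le_of_eq ?_)
  have e1 : (L : ℝ) ^ ε = (L : ℝ) ^ (ε / 3) * (L : ℝ) ^ (ε / 3) * (L : ℝ) ^ (ε / 3) := by
    rw [← Real.rpow_add hL0, ← Real.rpow_add hL0]
    congr 1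
    ring
  rw [e1]
  push_cast
  ring

end Pool.Agent.W_7d29a1_C0.Own80
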