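import Pool.Agent.W_7d29a1_C0.Eta3D

/-!
MP_7d29a1_pr, [C0] (helper32): THE PAIR SUM, the statement. `PairM`: the second moment of the sum of the indicators `tI` (micro given the ends of
the window of radius `β`, outer given the block `[C, D)`) over the rows of one block, against every weight which is blind to the rows of the
block. The theorem is in `PairA32`, the frame in `XI32`.
-/

set_option autoImplicit false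

namespace Pool.Agent.W_7d29a1_C0.PA32

open MeasureTheory Finset
open Pool.Agent.W_7d29a1_F Pool.Agent.W_7d29a1_X Pool.Agent.W_7d29a1_H
open Pool.Agent.W_7d29a1_HZ Pool.Agent.W_7d29a1_HZ.R72
open Pool.Agent.W_7d29a1_C0.Eta3
open Pool.Agent.W_7d29a1_C0.Mod92
open Pool.W7d29a1.C0
open Pool.W7d29a1.C0.VT31 Pool.W7d29a1.C0.S1 Pool.W7d29a1.C0.R43
open Pool.Agent.W_7d29a1_C0 Pool.Agent.W_7d29a1_C0.Swap57 Pool.Agent.W_7d29a1_C0.Base5 Pool.Agent.W_7d29a1_C0.BasRow33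
open Pool.Agent.W_7d29a1_C0.Row96 Pool.Agent.W_7d29a1_C0.Asm96

noncomputable section

/-- The double tie of one row: micro given the window of radius `β`, outer given the block `[C, D)`. -/
def dbl {y N : ℕ} (w : Px (Pn N y) → ℝ) (C D b0 b β j : ℕ) (M : ℝ) (x : Px (Pn N y)) : ℝ :=
  tI w (pJ (j - β) (j + β)) (j - b) (j - b0) (j + b0) (j + b) M x * tI w (pJ C D) (j - β) (j - b) (j + b) (j + β) M x

/-- The pairs at the distance `64 β`. -/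
def Fp (R : Finset ℕ) (β : ℕ) : Finset (ℕ × ℕ) := (R ×ˢ R).filter fun p => p.1 + 64 * β ≤ p.2

/-- **THE PAIR SUM** (statement). -/
def PairM (μ : Measure ℝ) (s : ℝ) : Prop := ∀ ε θ : ℝ, 0 < ε → 0 < θ → ∃ δ κ c₂ : ℝ, 0 < δ ∧ 0 < κ ∧ 0 < c₂ ∧
    ∃ L₀ : ℕ, ∀ L : ℕ, L₀ ≤ L → ∀ N : ℕ, L ≤ 16 * N → N ≤ L → ∀ y : ℕ, y ≤ N → |(y : ℝ) - sl μ s * N| ≤ ((L : ℝ) ^ δ * wd' μ s N) →
    ∀ C D b0 b β : ℕ, 2 * b0 ≤ b → 2 * b ≤ β → (L : ℝ) ^ θ ≤ b → C ≤ D → D ≤ N →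
    ∀ R : Finset ℕ, (∀ j ∈ R, C + 4 * β ≤ j ∧ j + 4 * β ≤ D) → ∀ M : ℝ, 8 ≤ M → M ≤ (L : ℝ) ^ κ →
    ∀ f : Env × Finset ℕ → Px (Pn N y) → ℝ, (∀ x, Measurable fun ω => f ω x) → (∀ ω x, 0 ≤ f ω x) → (∀ ω x, f ω x ≤ 1) → Blind (Ioo C D) f →
    ∫ ω, gm (wm μ s N (Pn N y) ω) (fun x => f ω x * (∑ j ∈ R, dbl (wm μ s N (Pn N y) ω) C D b0 b β j M x) ^ 2) ∂(Pm μ N) ≤
      (L : ℝ) ^ ε * ((D - C : ℕ) * β * (EE' μ s b)⁻¹ * (EE' μ s β)⁻¹ + ((D - C : ℕ) * (EE' μ s b)⁻¹ * (EE' μ s β)⁻¹) ^ 2 +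
        (EE' μ s b)⁻¹ ^ 2 * ∑ p ∈ Fp R β, (EE' μ s (p.2 - p.1))⁻¹) * ∫ ω, gm (wm μ s N (Pn N y) ω) (f ω) ∂(Pm μ N) +
      (Real.exp (-(L : ℝ) ^ c₂) + ((N : ℝ) + 2) ^ 8 * Real.exp (-M))

end

end Pool.Agent.W_7d29a1_C0.PA32
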