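import Pool.Agent.W_7d29a1_C0.StripP80
import Pool.Agent.W_7d29a1_C0.N38

/-!
MP_7d29a1_pr, [CURV0], helper23: WEIGHTED PRICES OF FAMILIES OF ROWS. `WPs r p I A J`: `∑_(i ∈ I) Q1 (f A_i) ≤ r Q1 f + p` for every weight
`0 ≤ f ≤ 1` of (environment, path) which does not see the rows `J`. `wps_of_ev`: from the event form (layer cake, sum inside). `wps_int`,
`wps_Pm`, `wps_av`: for real functionals `D` (signs included, mean over the ends): `∑_(i ∈ I) av (|D| a_i) ≤ r av |D| + M p`.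
-/

set_option autoImplicit false
set_option linter.unusedSectionVars false

namespace Pool.Agent.W_7d29a1_C0.Wp23

open Finset MeasureTheory Pool.Agent.W_7d29a1_F Pool.Agent.W_7d29a1_X Pool.Agent.W_7d29a1_H Pool.Agent.W_7d29a1_C0.Mod92
open Pool.Agent.W_7d29a1_HZ (gp P1 P2 OffRows Ms)
open Pool.Agent.W_7d29a1_C0.P86 (Q1 ind Pl Q1_ind Q1_pair Q1_mono Q1_add ind_of ind_not ind_le NoMeet OffW wt_of_ev meas_ind ms_and)
open Pool.Agent.W_7d29a1_C0.Strip80 (ex80 ex80_val q1_real OffD gpe_nonneg)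
open Pool.W7d29a1.C0 (gz gm lse gz_pos gz_ne gm_nonneg gm_mono)
open Pool.W7d29a1.C0.VT31
open scoped ENNReal

variable {μ : Measure ℝ} {s : ℝ} {N : ℕ} {ι : Type*}

/-- **The weighted price of a family.** -/
def WPs (μ : Measure ℝ) (s : ℝ) (N : ℕ) (y : ℤ) (r p : ℝ≥0∞) (I : Finset ι) (A : ι → Env → Finset ℕ → ℝ≥0∞) (J : Finset ℕ) : Prop :=
  ∀ f : Env → Finset ℕ → ℝ≥0∞, (∀ S, Measurable fun η => f η S) → (∀ η S, f η S ≤ 1) → OffW J f →
    ∑ i ∈ I, Q1 μ s N y (fun η S => f η S * A i η S) ≤ r * Q1 μ s N y f + p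

theorem WPs.mono {y : ℤ} {r r' p p' : ℝ≥0∞} {I : Finset ι} {A A' : ι → Env → Finset ℕ → ℝ≥0∞} {J J' : Finset ℕ}
    (h : WPs μ s N y r p I A J) (hr : r ≤ r') (hp : p ≤ p')
    (hA : ∀ i ∈ I, ∀ η S, S ⊆ range N → pos S N = y → A' i η S ≤ A i η S) (hJ : J ⊆ J') : WPs μ s N y r' p' I A' J' := by
  intro f hf hf1 hfo
  have hfo' : OffW J f := fun η η' S e => hfo η η' S fun q hq => e q fun h => hq ⟨h.1, hJ h.2⟩
  refine le_trans (sum_le_sum fun i hi => Q1_mono fun η S hS hy => ?_) ((h f hf hf1 hfo').trans (add_le_add (mul_le_mul' hr le_rfl) hp))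
  exact mul_le_mul' le_rfl (hA i hi η S hS hy)

/-- The sum of two families. -/
theorem WPs.add [IsProbabilityMeasure μ] {y : ℤ} {r r' p p' : ℝ≥0∞} {I : Finset ι} {A A' : ι → Env → Finset ℕ → ℝ≥0∞} {J : Finset ℕ}
    (h : WPs μ s N y r p I A J) (h' : WPs μ s N y r' p' I A' J) (hA : ∀ i ∈ I, ∀ S, Measurable fun η => A i η S) :
    WPs μ s N y (r + r') (p + p') I (fun i η S => A i η S + A' i η S) J := by
  intro f hf hf1 hfo
  have e : ∀ i ∈ I, Q1 μ s N y (fun η S => f η S * (A i η S + A' i η S)) =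
      Q1 μ s N y (fun η S => f η S * A i η S) + Q1 μ s N y (fun η S => f η S * A' i η S) := fun i hi => by
    have e0 := Q1_add (μ := μ) (s := s) (N := N) (y := y) (f := fun η S => f η S * A i η S) (g := fun η S => f η S * A' i η S)
      fun S => (hf S).mul (hA i hi S)
    rw [← e0]
    congr 1
    funext η S
    rw [mul_add]
  rw [sum_congr rfl e, sum_add_distrib]
  calc _ ≤ (r * Q1 μ s N y f + p) + (r' * Q1 μ s N y f + p') := add_le_add (h f hf hf1 hfo) (h' f hf hf1 hfo)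
    _ = _ := by ring

/-- The sum over a second index. -/
theorem WPs.sum [IsProbabilityMeasure μ] {κ : Type*} (K : Finset κ) {y : ℤ} {r p : κ → ℝ≥0∞} {I : Finset ι}
    {A : κ → ι → Env → Finset ℕ → ℝ≥0∞} {J : Finset ℕ} (h : ∀ k ∈ K, WPs μ s N y (r k) (p k) I (A k) J)
    (hA : ∀ k i S, Measurable fun η => A k i η S) :
    WPs μ s N y (∑ k ∈ K, r k) (∑ k ∈ K, p k) I (fun i η S => ∑ k ∈ K, A k i η S) J := by
  classical
  intro f hf hf1 hfo
  have e : ∀ i ∈ I, Q1 μ s N y (fun η S => f η S * ∑ k ∈ K, A k i η S) = ∑ k ∈ K, Q1 μ s N y (fun η S => f η S * A k i η S) :=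
    fun i hi => by
      have e0 := P86.Q1_sum (μ := μ) (s := s) (N := N) (y := y) K (f := fun k η S => f η S * A k i η S) fun k S => (hf S).mul (hA k i S)
      rw [← e0]
      congr 1
      funext η S
      rw [mul_sum]
  rw [sum_congr rfl e, sum_comm, sum_mul, ← sum_add_distrib]
  exact sum_le_sum fun k hk => h k hk f hf hf1 hfo

/-- From one row to a family. -/
theorem wps_rows {y : ℤ} {r p : ℝ≥0∞} {I : Finset ι} {A : ι → Env → Finset ℕ → ℝ≥0∞} {J : Finset ℕ}
    (h : ∀ i ∈ I, WPs μ s N y r p ({i} : Finset ι) A J) : WPs μ s N y (I.card * r) (I.card * p) I A J := by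
  intro f hf hf1 hfo
  have h1 : ∀ i ∈ I, Q1 μ s N y (fun η S => f η S * A i η S) ≤ r * Q1 μ s N y f + p := fun i hi => by
    have := h i hi f hf hf1 hfo
    rwa [sum_singleton] at this
  refine (sum_le_sum h1).trans (le_of_eq ?_)
  rw [sum_const, nsmul_eq_mul]
  ring

/-! ### Layers -/

section Lay

variable [IsProbabilityMeasure μ]

theorem lay {a : ℝ≥0∞} (ha : a ≤ 1) : ∫⁻ u in Set.Ioo (0 : ℝ) 1, ind (ENNReal.ofReal u < a) = a := by
  have ha' : a ≠ ∞ := ne_top_of_le_ne_top ENNReal.one_ne_top ha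
  have h1 : ∀ u ∈ Set.Ioo (0 : ℝ) 1, ind (ENNReal.ofReal u < a) = (Set.Ioo (0 : ℝ) a.toReal).indicator 1 u := by
    intro u hu
    by_cases g : ENNReal.ofReal u < a
    · rw [ind_of g, Set.indicator_of_mem]
      · rfl
      · exact ⟨hu.1, (ENNReal.ofReal_lt_iff_lt_toReal hu.1.le ha').1 g⟩
    · rw [ind_not g, Set.indicator_of_notMem]
      exact fun g' => g ((ENNReal.ofReal_lt_iff_lt_toReal hu.1.le ha').2 g'.2)
  rw [setLIntegral_congr_fun measurableSet_Ioo h1, lintegral_indicator_one measurableSet_Ioo, Measure.restrict_apply measurableSet_Ioo,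
    Set.inter_eq_left.2, Real.volume_Ioo, sub_zero, ENNReal.ofReal_toReal ha']
  intro u hu
  refine ⟨hu.1, lt_of_lt_of_le hu.2 ?_⟩
  have := ENNReal.toReal_mono ENNReal.one_ne_top ha
  simpa using this

theorem lay_meas {y : ℤ} {f : Env → Finset ℕ → ℝ≥0∞} (hf : ∀ S, Measurable fun η => f η S) (S : Finset ℕ) {C : Env → Prop}
    (hC : MeasurableSet {η | C η}) :
    Measurable fun p : Env × ℝ => ENNReal.ofReal (gp μ s p.1 N y S) * (ind (ENNReal.ofReal p.2 < f p.1 S) * ind (C p.1)) := by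
  refine Measurable.mul ?_ (Measurable.mul ?_ ?_)
  · exact ((Pool.Agent.W_7d29a1_HZ.measurable_gp N y S).ennreal_ofReal).comp measurable_fst
  · unfold ind
    refine Measurable.ite ?_ measurable_const measurable_const
    exact measurableSet_lt (ENNReal.measurable_ofReal.comp measurable_snd) ((hf S).comp measurable_fst)
  · exact (meas_ind hC).comp measurable_fst

theorem lay_P1 {y : ℤ} {f : Env → Finset ℕ → ℝ≥0∞} (hf : ∀ S, Measurable fun η => f η S) {C : Env → Finset ℕ → Prop} (hC : Ms C) (u : ℝ) :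
    P1 μ s N y (fun η S => ENNReal.ofReal u < f η S ∧ C η S) =
      ∑ S ∈ (range N).powerset, ∫⁻ η, ENNReal.ofReal (gp μ s η N y S) * (ind (ENNReal.ofReal u < f η S) * ind (C η S)) ∂law μ := by
  rw [← Q1_ind (ms_and (fun S => measurableSet_lt measurable_const (hf S)) hC)]
  unfold Q1
  rw [lintegral_finsetSum]
  · refine sum_congr rfl fun S _ => lintegral_congr fun η => ?_
    show _ * ind (ENNReal.ofReal u < f η S ∧ C η S) = _ * (ind (ENNReal.ofReal u < f η S) * ind (C η S))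
    congr 1
    by_cases g : ENNReal.ofReal u < f η S
    · by_cases g' : C η S
      · rw [ind_of (show ENNReal.ofReal u < f η S ∧ C η S from ⟨g, g'⟩), ind_of g, ind_of g', mul_one]
      · rw [ind_not (show ¬ (ENNReal.ofReal u < f η S ∧ C η S) from fun h => g' h.2), ind_not g', mul_zero]
    · rw [ind_not (show ¬ (ENNReal.ofReal u < f η S ∧ C η S) from fun h => g h.1), ind_not g, zero_mul]
  · intro S _
    exact (Pool.Agent.W_7d29a1_HZ.measurable_gp N y S).ennreal_ofReal.mul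
      (meas_ind ((measurableSet_lt measurable_const (hf S)).inter (hC S)))

/-- **The layers.** -/
theorem lay_Q1 {y : ℤ} {f : Env → Finset ℕ → ℝ≥0∞} (hf : ∀ S, Measurable fun η => f η S) (hf1 : ∀ η S, f η S ≤ 1)
    {C : Env → Finset ℕ → Prop} (hC : Ms C) : Q1 μ s N y (fun η S => f η S * ind (C η S)) =
      ∫⁻ u in Set.Ioo (0 : ℝ) 1, P1 μ s N y (fun η S => ENNReal.ofReal u < f η S ∧ C η S) := by
  have e3 : ∫⁻ u in Set.Ioo (0 : ℝ) 1, P1 μ s N y (fun η S => ENNReal.ofReal u < f η S ∧ C η S) =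
      ∑ S ∈ (range N).powerset, ∫⁻ u in Set.Ioo (0 : ℝ) 1, ∫⁻ η, ENNReal.ofReal (gp μ s η N y S) *
        (ind (ENNReal.ofReal u < f η S) * ind (C η S)) ∂law μ := by
    rw [lintegral_congr fun u => lay_P1 hf hC u, lintegral_finsetSum]
    exact fun S _ => Measurable.lintegral_prod_left' (lay_meas hf S (hC S))
  rw [e3]
  have e4 : Q1 μ s N y (fun η S => f η S * ind (C η S)) = ∑ S ∈ (range N).powerset,
      ∫⁻ η, ENNReal.ofReal (gp μ s η N y S) * (f η S * ind (C η S)) ∂law μ := by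
    unfold Q1
    exact lintegral_finsetSum _ fun S _ =>
      (Pool.Agent.W_7d29a1_HZ.measurable_gp N y S).ennreal_ofReal.mul ((hf S).mul (meas_ind (hC S)))
  rw [e4]
  refine sum_congr rfl fun S _ => ?_
  rw [lintegral_lintegral_swap (f := fun u η => ENNReal.ofReal (gp μ s η N y S) * (ind (ENNReal.ofReal u < f η S) * ind (C η S)))
    ((lay_meas hf S (hC S)).comp measurable_swap).aemeasurable]
  refine lintegral_congr fun η => ?_
  rw [lintegral_const_mul, lintegral_mul_const, lay (hf1 η S)]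
  · unfold ind
    exact Measurable.ite (measurableSet_lt ENNReal.measurable_ofReal measurable_const) measurable_const measurable_const
  · refine Measurable.mul_const ?_ _
    unfold ind
    exact Measurable.ite (measurableSet_lt ENNReal.measurable_ofReal measurable_const) measurable_const measurable_const

theorem lay_P1_meas {y : ℤ} {f : Env → Finset ℕ → ℝ≥0∞} (hf : ∀ S, Measurable fun η => f η S) {C : Env → Finset ℕ → Prop} (hC : Ms C) :
    Measurable fun u : ℝ => P1 μ s N y (fun η S => ENNReal.ofReal u < f η S ∧ C η S) := by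
  simp only [lay_P1 hf hC]
  exact Finset.measurable_sum _ fun S _ => Measurable.lintegral_prod_left' (lay_meas hf S (hC S))

/-- **From events to weights, with the sum inside.** -/
theorem wps_of_ev {y : ℤ} {r p : ℝ≥0∞} {I : Finset ι} {B : ι → Env → Finset ℕ → Prop} (hB : ∀ i, Ms (B i)) {J : Finset ℕ}
    (h : ∀ F : Env → Finset ℕ → Prop, Ms F → OffRows J F → ∑ i ∈ I, P1 μ s N y (fun η S => F η S ∧ B i η S) ≤ r * P1 μ s N y F + p) :
    WPs μ s N y r p I (fun i η S => ind (B i η S)) J := by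
  intro f hf hf1 hfo
  have hmT : Ms (fun (_ : Env) (_ : Finset ℕ) => True) := fun S => by simp
  have e0 : Q1 μ s N y f = ∫⁻ u in Set.Ioo (0 : ℝ) 1, P1 μ s N y (fun η S => ENNReal.ofReal u < f η S ∧ True) := by
    rw [← lay_Q1 hf hf1 hmT]
    congr 1
    funext η S
    rw [ind_of trivial, mul_one]
  have e1 : ∑ i ∈ I, Q1 μ s N y (fun η S => f η S * ind (B i η S)) =
      ∫⁻ u in Set.Ioo (0 : ℝ) 1, ∑ i ∈ I, P1 μ s N y (fun η S => ENNReal.ofReal u < f η S ∧ B i η S) := by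
    rw [lintegral_finsetSum I fun i _ => lay_P1_meas hf (hB i)]
    exact sum_congr rfl fun i _ => lay_Q1 hf hf1 (hB i)
  rw [e1, e0]
  have h3 : ∀ u : ℝ, ∑ i ∈ I, P1 μ s N y (fun η S => ENNReal.ofReal u < f η S ∧ B i η S) ≤
      r * P1 μ s N y (fun η S => ENNReal.ofReal u < f η S ∧ True) + p := by
    intro u
    have h4 := h (fun η S => ENNReal.ofReal u < f η S) (fun S => measurableSet_lt measurable_const (hf S)) fun η η' S hη => by
      show ENNReal.ofReal u < f η S ↔ ENNReal.ofReal u < f η' S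
      rw [hfo η η' S hη]
    simpa only [and_true] using h4
  refine (lintegral_mono fun u => h3 u).trans ?_
  rw [lintegral_add_right _ measurable_const, setLIntegral_const, Real.volume_Ioo, lintegral_const_mul _ (lay_P1_meas hf hmT)]
  refine add_le_add le_rfl ?_
  norm_num

end Lay

/-! ### Real functionals -/

section Real

variable [IsProbabilityMeasure μ]

/-- The functional does not see the environment in the rows `J`. -/
def OffR (J : Finset ℕ) {y : ℕ} (D : Env → Px (Pn N y) → ℝ) : Prop :=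
  ∀ (η η' : Env) (S : Px (Pn N y)), (∀ q : Pt, ¬ (0 ≤ q.1 ∧ q.1.toNat ∈ J) → η q = η' q) → D η S = D η' S

theorem mem_Pn {y : ℕ} {S : Finset ℕ} (h1 : S ⊆ range N) (h2 : pos S N = (y : ℤ)) : S ∈ Pn N y := by
  rw [Pool.Agent.W_7d29a1_C0.Mod92.pos_card h1] at h2
  exact mem_powersetCard.2 ⟨h1, by exact_mod_cast h2⟩

/-- **The price for real functionals.** -/
theorem wps_int {y : ℕ} (hy : y ≤ N) {r p : ℝ} (hr : 0 ≤ r) (hp : 0 ≤ p) {I : Finset ι} {A : ι → Env → Finset ℕ → ℝ≥0∞}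
    {J : Finset ℕ} (hW : WPs μ s N y (ENNReal.ofReal r) (ENNReal.ofReal p) I A J) {a : ι → Env → Px (Pn N y) → ℝ}
    (ha0 : ∀ i ∈ I, ∀ η S, 0 ≤ a i η S) {K : ℝ} (haK : ∀ i ∈ I, ∀ η S, a i η S ≤ K) (ham : ∀ i ∈ I, ∀ S, Measurable fun η => a i η S)
    (haA : ∀ i ∈ I, ∀ (η : Env) (S : Px (Pn N y)), ENNReal.ofReal (a i η S) ≤ A i η S.1) {D : Env → Px (Pn N y) → ℝ} {M : ℝ}
    (hM : 0 < M) (hD : ∀ η S, |D η S| ≤ M) (hDm : ∀ S, Measurable fun η => D η S) (hDo : OffR J D) :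
    ∑ i ∈ I, ∫ η, gm (lw μ s η N (Pn N y)) (fun S => |D η S| * a i η S) ∂law μ ≤
      r * (∫ η, gm (lw μ s η N (Pn N y)) (fun S => |D η S|) ∂law μ) + M * p := by
  have hne : Nonempty (Px (Pn N y)) := ne_Pn hy
  obtain ⟨g, hg⟩ : ∃ g : Env → Finset ℕ → ℝ, g = fun η S => |ex80 (D η) S| / M := ⟨_, rfl⟩
  obtain ⟨m, hm⟩ : ∃ m : ι → Env → Finset ℕ → ℝ, m = fun i η S => ex80 (a i η) S := ⟨_, rfl⟩
  have g0 : ∀ η S, 0 ≤ g η S := fun η S => by
    rw [hg]
    positivity
  have hexb : ∀ η S, |ex80 (D η) S| ≤ M := fun η S => by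
    unfold ex80
    split_ifs with h
    · exact hD η _
    · rw [abs_zero]
      exact hM.le
  have g1 : ∀ η S, g η S ≤ 1 := fun η S => by
    rw [hg]
    show |ex80 (D η) S| / M ≤ 1
    rw [div_le_one hM]
    exact hexb η S
  have hexm : ∀ {E : Env → Px (Pn N y) → ℝ}, (∀ S, Measurable fun η => E η S) → ∀ S, Measurable fun η => ex80 (E η) S := by
    intro E hE S
    unfold ex80
    by_cases h : S ∈ Pn N y
    · simp only [dif_pos h]
      exact hE _
    · simp only [dif_neg h]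
      exact measurable_const
  have gms : ∀ S, Measurable fun η => g η S := fun S => by
    rw [hg]
    exact (hexm hDm S).abs.div_const M
  have m0 : ∀ i ∈ I, ∀ η S, 0 ≤ m i η S := fun i hi η S => by
    rw [hm]
    show 0 ≤ ex80 (a i η) S
    unfold ex80
    split_ifs
    · exact ha0 i hi η _
    · exact le_rfl
  have mK : ∀ i ∈ I, ∀ η S, m i η S ≤ max K 0 := fun i hi η S => by
    rw [hm]
    show ex80 (a i η) S ≤ max K 0
    unfold ex80
    split_ifs
    · exact (haK i hi η _).trans (le_max_left _ _)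
    · exact le_max_right _ _
  have mms : ∀ i ∈ I, ∀ S, Measurable fun η => m i η S := fun i hi S => by
    rw [hm]
    exact hexm (ham i hi) S
  have hoff : OffW J fun η S => ENNReal.ofReal (g η S) := by
    intro η η' S e
    show ENNReal.ofReal (g η S) = ENNReal.ofReal (g η' S)
    congr 1
    rw [hg]
    show |ex80 (D η) S| / M = |ex80 (D η') S| / M
    congr 2
    unfold ex80
    by_cases h : S ∈ Pn N y
    · rw [dif_pos h, dif_pos h]
      exact hDo η η' _ e
    · rw [dif_neg h, dif_neg h]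
  have h1 := hW (fun η S => ENNReal.ofReal (g η S)) (fun S => (gms S).ennreal_ofReal) (fun η S => by
    rw [← ENNReal.ofReal_one]
    exact ENNReal.ofReal_le_ofReal (g1 η S)) hoff
  have h2 : ∀ i ∈ I, Q1 μ s N y (fun η S => ENNReal.ofReal (g η S * m i η S)) ≤
      Q1 μ s N y (fun η S => ENNReal.ofReal (g η S) * A i η S) := fun i hi => by
    refine Q1_mono fun η S hS hSy => ?_
    rw [ENNReal.ofReal_mul (g0 η S)]
    refine mul_le_mul' le_rfl ?_
    have hmem : S ∈ Pn N y := mem_Pn hS hSy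
    rw [hm]
    have e := ex80_val (a i η) ⟨S, hmem⟩
    show ENNReal.ofReal (ex80 (a i η) S) ≤ A i η S
    rw [show ex80 (a i η) S = a i η ⟨S, hmem⟩ from e]
    exact haA i hi η ⟨S, hmem⟩
  have h3 := (sum_le_sum h2).trans h1
  have hI0 : 0 ≤ ∫ η, gm (lw μ s η N (Pn N y)) (fun S => g η S.1) ∂law μ := integral_nonneg fun η => gm_nonneg _ fun S => g0 η S.1
  have hJ0 : ∀ i ∈ I, 0 ≤ ∫ η, gm (lw μ s η N (Pn N y)) (fun S => g η S.1 * m i η S.1) ∂law μ := fun i hi =>
    integral_nonneg fun η => gm_nonneg _ fun S => mul_nonneg (g0 η S.1) (m0 i hi η S.1)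
  have e1 : ∀ i ∈ I, Q1 μ s N y (fun η S => ENNReal.ofReal (g η S * m i η S)) =
      ENNReal.ofReal (∫ η, gm (lw μ s η N (Pn N y)) (fun S => g η S.1 * m i η S.1) ∂law μ) := fun i hi =>
    q1_real (μ := μ) (s := s) hy (fun η S => mul_nonneg (g0 η S) (m0 i hi η S)) (M := 1 * max K 0)
      (fun η S => mul_le_mul (g1 η S) (mK i hi η S) (m0 i hi η S) zero_le_one) fun S => (gms S).mul (mms i hi S)
  rw [sum_congr rfl e1, q1_real (μ := μ) (s := s) hy g0 g1 gms, ← ENNReal.ofReal_mul hr, ← ENNReal.ofReal_sum_of_nonneg hJ0,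
    ← ENNReal.ofReal_add (mul_nonneg hr hI0) hp, ENNReal.ofReal_le_ofReal_iff (add_nonneg (mul_nonneg hr hI0) hp)] at h3
  have e2 : ∀ i ∈ I, ∀ η : Env, gm (lw μ s η N (Pn N y)) (fun S => |D η S| * a i η S) =
      M * gm (lw μ s η N (Pn N y)) (fun S => g η S.1 * m i η S.1) := by
    intro i hi η
    rw [← Strip80.gm_mul_left]
    congr 1
    funext S
    have a1 : m i η S.1 = a i η S := by
      rw [hm]
      exact ex80_val (a i η) S
    have a2 : g η S.1 = |D η S| / M := by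
      rw [hg]
      show |ex80 (D η) S.1| / M = _
      rw [ex80_val]
    rw [a1, a2]
    field_simp
  have e3 : ∀ η : Env, gm (lw μ s η N (Pn N y)) (fun S => |D η S|) = M * gm (lw μ s η N (Pn N y)) (fun S => g η S.1) := by
    intro η
    rw [← Strip80.gm_mul_left]
    congr 1
    funext S
    have a2 : g η S.1 = |D η S| / M := by
      rw [hg]
      show |ex80 (D η) S.1| / M = _
      rw [ex80_val]
    rw [a2]
    field_simp
  have e4 : ∑ i ∈ I, ∫ η, gm (lw μ s η N (Pn N y)) (fun S => |D η S| * a i η S) ∂law μ =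
      M * ∑ i ∈ I, ∫ η, gm (lw μ s η N (Pn N y)) (fun S => g η S.1 * m i η S.1) ∂law μ := by
    rw [mul_sum]
    refine sum_congr rfl fun i hi => ?_
    rw [← integral_const_mul]
    congr 1
    funext η
    exact e2 i hi η
  rw [e4]
  simp only [e3, integral_const_mul]
  have h4 := mul_le_mul_of_nonneg_left h3 hM.le
  calc _ ≤ M * (r * (∫ η, gm (lw μ s η N (Pn N y)) (fun S => g η S.1) ∂law μ) + p) := h4
    _ = _ := by ring

/-- **The price for real functionals, signs included.** -/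
theorem wps_Pm {y : ℕ} (hy : y ≤ N) {r p : ℝ} (hr : 0 ≤ r) (hp : 0 ≤ p) {I : Finset ι} {A : Finset ℕ → ι → Env → Finset ℕ → ℝ≥0∞}
    {J : Finset ℕ} (hW : ∀ T, T ⊆ range N → WPs μ s N y (ENNReal.ofReal r) (ENNReal.ofReal p) I (A T) J)
    {a : ι → Env × Finset ℕ → Px (Pn N y) → ℝ} (ha0 : ∀ i ∈ I, ∀ ω S, 0 ≤ a i ω S) {K : ℝ} (haK : ∀ i ∈ I, ∀ ω S, a i ω S ≤ K)
    (ham : ∀ i ∈ I, ∀ S, Measurable fun ω => a i ω S)
    (haA : ∀ i ∈ I, ∀ (ω : Env × Finset ℕ) (S : Px (Pn N y)), ENNReal.ofReal (a i ω S) ≤ A ω.2 i ω.1 S.1)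
    {D : Env × Finset ℕ → Px (Pn N y) → ℝ} {M : ℝ} (hM : 0 < M) (hD : ∀ ω S, |D ω S| ≤ M) (hDm : ∀ S, Measurable fun ω => D ω S)
    (hDo : OffD J D) :
    ∑ i ∈ I, ∫ ω, gm (wm μ s N (Pn N y) ω) (fun S => |D ω S| * a i ω S) ∂(Pm μ N) ≤
      r * (∫ ω, gm (wm μ s N (Pn N y) ω) (fun S => |D ω S|) ∂(Pm μ N)) + M * p := by
  have hne : Nonempty (Px (Pn N y)) := ne_Pn hy
  have mw : ∀ S : Px (Pn N y), Measurable fun ω : Env × Finset ℕ => wm μ s N (Pn N y) ω S := meas_wm
  have mA : ∀ i ∈ I, Measurable fun ω : Env × Finset ℕ => gm (wm μ s N (Pn N y) ω) (fun S => |D ω S| * a i ω S) := fun i hi =>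
    meas_gm mw fun S => (hDm S).abs.mul (ham i hi S)
  have mB : Measurable fun ω : Env × Finset ℕ => gm (wm μ s N (Pn N y) ω) (fun S => |D ω S|) :=
    meas_gm mw fun S => (hDm S).abs
  have bB : ∀ ω : Env × Finset ℕ, |gm (wm μ s N (Pn N y) ω) (fun S => |D ω S|)| ≤ M := fun ω => by
    rw [abs_of_nonneg (gm_nonneg _ fun S => abs_nonneg _)]
    exact (gm_mono _ (hD ω)).trans_eq (Pool.W7d29a1.C0.gm_const _ _)
  have bA : ∀ i ∈ I, ∀ ω : Env × Finset ℕ, |gm (wm μ s N (Pn N y) ω) (fun S => |D ω S| * a i ω S)| ≤ M * K := fun i hi ω => by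
    rw [abs_of_nonneg (gm_nonneg _ fun S => mul_nonneg (abs_nonneg _) (ha0 i hi ω S))]
    refine (gm_mono _ fun S => ?_).trans_eq (Pool.W7d29a1.C0.gm_const _ _)
    exact mul_le_mul (hD ω S) (haK i hi ω S) (ha0 i hi ω S) hM.le
  have iA : ∀ i ∈ I, ∀ T ∈ (range N).powerset, Integrable (fun η => gm (wm μ s N (Pn N y) (η, T))
      (fun S => |D (η, T) S| * a i (η, T) S)) (law μ) := fun i hi T _ =>
    Integrable.of_bound ((mA i hi).comp (meas_pair T)).aestronglyMeasurable (M * K) (Filter.Eventually.of_forall fun η => by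
      rw [Real.norm_eq_abs]
      exact bA i hi (η, T))
  have iB : ∀ T ∈ (range N).powerset, Integrable (fun η => gm (wm μ s N (Pn N y) (η, T)) (fun S => |D (η, T) S|)) (law μ) :=
    fun T _ => Integrable.of_bound (mB.comp (meas_pair T)).aestronglyMeasurable M (Filter.Eventually.of_forall fun η => by
      rw [Real.norm_eq_abs]
      exact bB (η, T))
  rw [sum_congr rfl fun i hi => int_Pm (iA i hi) fun T => (mA i hi).comp (meas_pair T), int_Pm iB fun T => mB.comp (meas_pair T)]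
  have h1 : ∀ T ∈ (range N).powerset, ∑ i ∈ I, ∫ η, gm (wm μ s N (Pn N y) (η, T)) (fun S => |D (η, T) S| * a i (η, T) S) ∂law μ ≤
      r * (∫ η, gm (wm μ s N (Pn N y) (η, T)) (fun S => |D (η, T) S|) ∂law μ) + M * p := fun T hT =>
    wps_int hy hr hp (hW T (mem_powerset.1 hT)) (a := fun i η => a i (η, T)) (fun i hi η S => ha0 i hi (η, T) S)
      (fun i hi η S => haK i hi (η, T) S) (fun i hi S => (ham i hi S).comp (meas_pair T)) (fun i hi η S => haA i hi (η, T) S)
      (D := fun η => D (η, T)) hM (fun η S => hD (η, T) S) (fun S => (hDm S).comp (meas_pair T)) fun η η' S e => hDo η η' T S e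
  have h2 := sum_le_sum h1
  rw [sum_comm, sum_add_distrib, ← mul_sum, sum_const, card_powerset, card_range, nsmul_eq_mul] at h2
  have hN : (0 : ℝ) < 2 ^ N := by positivity
  have h3 := mul_le_mul_of_nonneg_left h2 (inv_pos.2 hN).le
  rw [← mul_sum]
  refine h3.trans (le_of_eq ?_)
  push_cast
  field_simp

/-- **The price for real functionals, signs included, mean over the ends.** -/
theorem wps_av {ys : Finset ℕ} (hys : ∀ y ∈ ys, y ≤ N) {r p : ℝ} (hr : 0 ≤ r) (hp : 0 ≤ p) {I : Finset ι}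
    {A : ℕ → Finset ℕ → ι → Env → Finset ℕ → ℝ≥0∞} {J : Finset ℕ}
    (hW : ∀ y ∈ ys, ∀ T, T ⊆ range N → WPs μ s N y (ENNReal.ofReal r) (ENNReal.ofReal p) I (A y T) J)
    {a : ι → ∀ y : ℕ, Env × Finset ℕ → Px (Pn N y) → ℝ} (ha0 : ∀ i ∈ I, ∀ y ∈ ys, ∀ ω S, 0 ≤ a i y ω S) {K : ℝ}
    (haK : ∀ i ∈ I, ∀ y ∈ ys, ∀ ω S, a i y ω S ≤ K) (ham : ∀ i ∈ I, ∀ y ∈ ys, ∀ S, Measurable fun ω => a i y ω S)
    (haA : ∀ i ∈ I, ∀ y ∈ ys, ∀ (ω : Env × Finset ℕ) (S : Px (Pn N y)), ENNReal.ofReal (a i y ω S) ≤ A y ω.2 i ω.1 S.1)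
    {D : ∀ y : ℕ, Env × Finset ℕ → Px (Pn N y) → ℝ} {M : ℝ} (hM : 0 < M) (hD : ∀ y ∈ ys, ∀ ω S, |D y ω S| ≤ M)
    (hDm : ∀ y ∈ ys, ∀ S, Measurable fun ω => D y ω S) (hDo : ∀ y ∈ ys, OffD J (D y)) :
    ∑ i ∈ I, N38.av ys (Pm μ N) (fun y => wm μ s N (Pn N y)) (fun y ω S => |D y ω S| * a i y ω S) ≤
      r * N38.av ys (Pm μ N) (fun y => wm μ s N (Pn N y)) (fun y ω S => |D y ω S|) + M * p := by
  unfold N38.av
  have h1 := sum_le_sum fun y (hy : y ∈ ys) => wps_Pm (hys y hy) hr hp (hW y hy) (a := fun i => a i y) (fun i hi => ha0 i hi y hy)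
    (fun i hi => haK i hi y hy) (fun i hi => ham i hi y hy) (fun i hi => haA i hi y hy) hM (hD y hy) (hDm y hy) (hDo y hy)
  rw [sum_comm, sum_add_distrib, ← mul_sum, sum_const, nsmul_eq_mul] at h1
  rw [← mul_sum]
  have h2 : (0 : ℝ) ≤ (ys.card : ℝ)⁻¹ := by positivity
  have h3 := mul_le_mul_of_nonneg_left h1 h2
  refine h3.trans ?_
  rw [mul_add, mul_left_comm]
  refine add_le_add le_rfl ?_
  rcases ys.eq_empty_or_nonempty with h0 | h0
  · rw [h0]
    simp only [card_empty, Nat.cast_zero, inv_zero, zero_mul]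
    positivity
  · have h4 : (ys.card : ℝ) ≠ 0 := by exact_mod_cast h0.card_ne_zero
    refine le_of_eq ?_
    field_simp

end Real

end Pool.Agent.W_7d29a1_C0.Wp23
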