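import Pool.Agent.W_7d29a1_C0.SiteS3
import Pool.Agent.W_7d29a1_C0.Wp23
import Pool.Agent.W_7d29a1_C0.Eta3C

/-!
MP_7d29a1_pr, [C0], helper3: THE DOUBLE TIES OF THE ROWS OF ONE BLOCK, part 2 (weights). `wpsS`: micro tie = the robust event `TauS` of the
window `[j - β, j + β)` on one of its sides, own tie = the robust event of the whole block `[C, D)` on one side; the sum over the rows of the
block against every weight which is blind to `C < rows < D`. `prS`: the same for the indicators `tI` of the frame (the form `PrJ`).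
-/

set_option autoImplicit false

namespace Pool.Agent.W_7d29a1_C0.SS3

open MeasureTheory ProbabilityTheory Filter Topology Finset
open Pool.Agent.W_7d29a1_F Pool.Agent.W_7d29a1_X Pool.Agent.W_7d29a1_h4g Pool.Agent.W_7d29a1_H
open Pool.Agent.W_7d29a1_HS (In wd md)
open Pool.Agent.W_7d29a1_HZ Pool.Agent.W_7d29a1_HZ.R72 Pool.Agent.W_7d29a1_Z.Asm72
open Pool.Agent.W_7d29a1_HZ.Z86
open Pool.Agent.W_7d29a1_C0.P86 Pool.Agent.W_7d29a1_C0.P15 Pool.Agent.W_7d29a1_C0.P42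
open Pool.Agent.W_7d29a1_C0.P3 (Hy hy_ms hy_off)
open Pool.Agent.W_7d29a1_C0.Wp23
open Pool.Agent.W_7d29a1_C0.Mod92 (Px Pn lw ps pJ ne_Pn)
open Pool.W7d29a1.C0.R43 (Tau Rp mI st)
open scoped ENNReal

variable {μ : Measure ℝ} {s : ℝ} {N : ℕ}

/-- The start of the place at the side `a` (right: `true`) between the radii `b0` and `b`. -/
def m1 (a : Bool) (b0 b j : ℕ) : ℕ := if a then j + b0 else j - b

/-- Its end. -/
def m2 (a : Bool) (b0 b j : ℕ) : ℕ := if a then j + b else j - b0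

/-- The robust micro tie is a mass on a piece, up to a rare set of paths. -/
theorem mic_fix [IsProbabilityMeasure μ] {y c d : ℕ} (hy : y ≤ N) (hcd : c ≤ d) (τ l q : ℕ) {M : ℝ} (hM : 8 ≤ M) (hq : 10 * M ≤ q)
    (hq' : (q : ℝ) ≤ 20 * M) {E : ℕ} (hE : τ + 3 * q * (l + 1) ≤ E) {f : Env → Finset ℕ → ℝ≥0∞} (hf : ∀ η S, f η S ≤ 1) :
    Q1 μ s N y (fun η S => f η S * ind (TauS μ s N y c d τ E M η S)) ≤
      Q1 μ s N y (fun η S => f η S * ∑ n ∈ range (3 * q), ind (Hy μ s N y c d (NoMeet (st τ l n) (st τ l n + l)) (7 * M) η S)) +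
        ENNReal.ofReal (Real.exp (-M)) := by
  refine Q1_add_const fun η => ?_
  refine le_trans ?_ (add_le_add (le_refl (∑ S ∈ (range N).powerset, ENNReal.ofReal (gp μ s η N y S) *
    (f η S * ∑ n ∈ range (3 * q), ind (Hy μ s N y c d (NoMeet (st τ l n) (st τ l n + l)) (7 * M) η S))))
    (tau_fix (μ := μ) (s := s) hy hcd τ l q hM hq hq' hE η))
  rw [← sum_add_distrib]
  refine sum_le_sum fun S _ => ?_
  rw [← mul_add]
  refine mul_le_mul' le_rfl ?_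
  by_cases hT : TauS μ s N y c d τ E M η S
  · rw [ind_of hT, mul_one]
    by_cases hR : RpS μ s N y c d τ l q M η S
    · obtain ⟨n, hn, hn'⟩ := hR
      refine le_trans ?_ le_self_add
      have h1 : ind (Hy μ s N y c d (NoMeet (st τ l n) (st τ l n + l)) (7 * M) η S) = 1 := ind_of hn'
      calc f η S = f η S * ind (Hy μ s N y c d (NoMeet (st τ l n) (st τ l n + l)) (7 * M) η S) := by rw [h1, mul_one]
        _ ≤ _ := mul_le_mul' le_rfl (single_le_sum (f := fun n => ind (Hy μ s N y c d (NoMeet (st τ l n) (st τ l n + l)) (7 * M) η S))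
          (fun _ _ => zero_le) (mem_range.2 hn))
    · rw [ind_of ⟨hT, hR⟩]
      exact (hf η S).trans le_add_self
  · rw [ind_not hT, mul_zero]
    exact zero_le

theorem ind_and (A B : Prop) : ind A * ind B = ind (A ∧ B) := by
  by_cases h1 : A
  · by_cases h2 : B
    · rw [ind_of h1, ind_of h2, ind_of ⟨h1, h2⟩, one_mul]
    · rw [ind_not h2, ind_not (show ¬ (A ∧ B) from fun h => h2 h.2), mul_zero]
  · rw [ind_not h1, ind_not (show ¬ (A ∧ B) from fun h => h1 h.1), zero_mul]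

/-- One row: from the two robust ties to masses. -/
theorem combo [IsProbabilityMeasure μ] {y C D β q j l τ E o₁ o₂ L : ℕ} {θ : ℝ} {sd : Bool} (hy : y ≤ N) (hCD : C ≤ D) {M : ℝ} (hM : 8 ≤ M)
    (hq : 10 * M ≤ q) (hq' : (q : ℝ) ≤ 20 * M) (hlp : ∀ T : ℕ, (L : ℝ) ^ θ ≤ T → 1 ≤ lp T q) (hj : β ≤ j) (hβ : β ≤ N)
    (hR : sd = true → 4 * o₁ ≤ 4 * j + 3 * β ∧ j + β ≤ o₂) (hL : sd = false → o₁ ≤ j - β ∧ 4 * j ≤ 4 * o₂ + 3 * β)
    (hE : τ + 3 * q * (l + 1) ≤ E) {f : Env → Finset ℕ → ℝ≥0∞} (hfm : ∀ S, Measurable fun η => f η S) (hf : ∀ η S, f η S ≤ 1) :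
    Q1 μ s N y (fun η S => f η S * (ind (TauS μ s N y (j - β) (j + β) τ E M η S) * ind (TauS μ s N y C D o₁ o₂ M η S))) ≤
      ∑ n ∈ range (3 * q), Q1 μ s N y (fun η S => f η S * ind (Hy μ s N y (j - β) (j + β) (NoMeet (st τ l n) (st τ l n + l)) (7 * M) η S ∧
        OwG μ s N y C D β q sd j θ (7 * M) L η S)) + (N + 2) * ENNReal.ofReal (Real.exp (-M)) := by
  have h1 := tau_own (μ := μ) (s := s) (y := y) (C := C) (D := D) (β := β) (q := q) (sd := sd) (j := j) (θ := θ) (L := L) hy hCD hM hq hq' hlp hj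
    hβ hR hL (f := fun η S => f η S * ind (TauS μ s N y (j - β) (j + β) τ E M η S)) fun η S => by
      calc f η S * ind (TauS μ s N y (j - β) (j + β) τ E M η S) ≤ 1 * 1 := mul_le_mul' (hf η S) (ind_le _)
        _ = 1 := one_mul 1
  have h2 := mic_fix (μ := μ) (s := s) (y := y) (c := j - β) (d := j + β) hy (by omega) τ l q hM hq hq' hE
    (f := fun η S => f η S * ind (OwG μ s N y C D β q sd j θ (7 * M) L η S)) fun η S => by
      calc f η S * ind (OwG μ s N y C D β q sd j θ (7 * M) L η S) ≤ 1 * 1 := mul_le_mul' (hf η S) (ind_le _)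
        _ = 1 := one_mul 1
  have e1 : Q1 μ s N y (fun η S => f η S * ind (TauS μ s N y (j - β) (j + β) τ E M η S) * ind (OwG μ s N y C D β q sd j θ (7 * M) L η S)) =
      Q1 μ s N y (fun η S => f η S * ind (OwG μ s N y C D β q sd j θ (7 * M) L η S) * ind (TauS μ s N y (j - β) (j + β) τ E M η S)) := by
    congr 1
    funext η S
    rw [mul_assoc, mul_assoc, mul_comm (ind (TauS μ s N y (j - β) (j + β) τ E M η S))]
  have e2 : Q1 μ s N y (fun η S => f η S * ind (OwG μ s N y C D β q sd j θ (7 * M) L η S) *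
      ∑ n ∈ range (3 * q), ind (Hy μ s N y (j - β) (j + β) (NoMeet (st τ l n) (st τ l n + l)) (7 * M) η S)) =
      ∑ n ∈ range (3 * q), Q1 μ s N y (fun η S => f η S * ind (Hy μ s N y (j - β) (j + β) (NoMeet (st τ l n) (st τ l n + l)) (7 * M) η S ∧
        OwG μ s N y C D β q sd j θ (7 * M) L η S)) := by
    rw [← Q1_sum (μ := μ) (s := s) (N := N) (y := (y : ℤ)) (range (3 * q)) (f := fun n η S => f η S *
      ind (Hy μ s N y (j - β) (j + β) (NoMeet (st τ l n) (st τ l n + l)) (7 * M) η S ∧ OwG μ s N y C D β q sd j θ (7 * M) L η S))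
      fun n S => (hfm S).mul (meas_ind ((ms_and (hy_ms _ _) owg_ms) S))]
    congr 1
    funext η S
    rw [mul_sum]
    refine sum_congr rfl fun n _ => ?_
    rw [← ind_and, mul_assoc, mul_comm (ind (OwG μ s N y C D β q sd j θ (7 * M) L η S))]
  have e3 : Q1 μ s N y (fun η S => f η S * (ind (TauS μ s N y (j - β) (j + β) τ E M η S) * ind (TauS μ s N y C D o₁ o₂ M η S))) =
      Q1 μ s N y (fun η S => f η S * ind (TauS μ s N y (j - β) (j + β) τ E M η S) * ind (TauS μ s N y C D o₁ o₂ M η S)) := by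
    congr 1
    funext η S
    rw [mul_assoc]
  rw [e3]
  refine h1.trans ?_
  rw [e1]
  refine (add_le_add h2 le_rfl).trans (le_of_eq ?_)
  rw [e2, add_assoc]
  congr 1
  ring

variable [IsProbabilityMeasure μ] {c₀ C₀ : ℝ} {n₀ : ℕ}

/-- **THE PRICE OF THE DOUBLE TIES OF THE ROWS OF ONE BLOCK, weights.** -/
theorem wpsS (h : In μ s c₀ C₀ n₀) (a sd : Bool) : ∀ ε θ : ℝ, 0 < ε → 0 < θ → ∃ δ κ c₂ : ℝ, 0 < δ ∧ 0 < κ ∧ 0 < c₂ ∧
    ∃ L₀ : ℕ, ∀ L : ℕ, L₀ ≤ L → ∀ N : ℕ, L ≤ 16 * N → N ≤ L → ∀ y : ℕ, y ≤ N → |(y : ℝ) - sl μ s * N| ≤ ((L : ℝ) ^ δ * wd' μ s N) →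
    ∀ C D b0 b β : ℕ, 2 * b0 ≤ b → 2 * b ≤ β → (L : ℝ) ^ θ ≤ b → C ≤ D → D ≤ N →
    ∀ R : Finset ℕ, (∀ j ∈ R, C + 4 * β ≤ j ∧ j + 4 * β ≤ D) → ∀ M : ℝ, 8 ≤ M → M ≤ (L : ℝ) ^ κ →
    WPs μ s N y (ENNReal.ofReal ((L : ℝ) ^ ε * ((D - C : ℕ) * (EE' μ s b)⁻¹ * (EE' μ s β)⁻¹)))
      (ENNReal.ofReal (Real.exp (-(L : ℝ) ^ c₂) + N * (N + 2) * Real.exp (-M))) R
      (fun j η S => ind (TauS μ s N y (j - β) (j + β) (m1 a b0 b j) (m2 a b0 b j) M η S) *
        ind (TauS μ s N y C D (m1 sd b β j) (m2 sd b β j) M η S)) (Ioo C D) := by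
  intro ε θ hε hθ
  have hEp : ∀ t, 0 < EE' μ s t := fun t => lt_of_lt_of_le zero_lt_one (le_max_left _ _)
  obtain ⟨θ', hθ', hθθ, δ, κ₁, c₁, hδ, hκ₁, hc₁, L₁, hS⟩ := sumS h sd (ε / 2) (θ / 2) (by positivity) (by positivity)
  obtain ⟨κ₂, hκd⟩ : ∃ κ₂, κ₂ = min κ₁ (min (θ' / 4) (min (ε / 8) (1 / 2))) := ⟨_, rfl⟩
  have hκ₂ : 0 < κ₂ := by
    rw [hκd]
    exact lt_min hκ₁ (lt_min (by positivity) (lt_min (by positivity) (by norm_num)))
  have k1 : κ₂ ≤ κ₁ := by rw [hκd]; exact min_le_left _ _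
  have k2 : κ₂ ≤ θ' / 4 := by rw [hκd]; exact (min_le_right _ _).trans (min_le_left _ _)
  have k3 : κ₂ ≤ ε / 8 := by rw [hκd]; exact (min_le_right _ _).trans ((min_le_right _ _).trans (min_le_left _ _))
  have k4 : κ₂ ≤ 1 / 2 := by rw [hκd]; exact (min_le_right _ _).trans ((min_le_right _ _).trans (min_le_right _ _))
  obtain ⟨L₂, hN1⟩ := lp_num hθ' (show κ₂ < θ' / 2 by linarith)
  obtain ⟨L₃, hN2⟩ := lp_num hθ (show κ₂ < θ / 2 by linarith)
  obtain ⟨L₄, h20⟩ := ev_mul86 20 (show κ₂ / 2 < κ₂ by linarith)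
  obtain ⟨L₅, h54⟩ := ev_mul86 54 (show κ₂ + κ₂ < ε / 2 by linarith)
  obtain ⟨c₂, hc₂, -, L₆, hX⟩ := Pool.Agent.W_7d29a1_Z.NumI77.pow_exp hc₁ 2
  refine ⟨δ, κ₂ / 2, c₂, hδ, by positivity, hc₂, L₁ + L₂ + L₃ + L₄ + L₅ + L₆ + 9, ?_⟩
  intro L hL N hLN hNL y hyN hyc C D b0 b β hb0 hbβ hbL hCD hDN R hR M hM hML
  have hL9 : (9 : ℝ) ≤ L := by exact_mod_cast (show 9 ≤ L by omega)
  have hL0 : (0 : ℝ) < L := by linarith
  have hL1 : (1 : ℝ) ≤ L := by linarith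
  obtain ⟨q, hqd⟩ : ∃ q : ℕ, q = ⌈10 * M⌉₊ := ⟨_, rfl⟩
  have hq1 : 10 * M ≤ q := hqd ▸ Nat.le_ceil _
  have hq2 : (q : ℝ) ≤ 20 * M := by
    have h1 : (q : ℝ) < 10 * M + 1 := hqd ▸ Nat.ceil_lt_add_one (by linarith)
    linarith
  have hqL : (q : ℝ) ≤ (L : ℝ) ^ κ₂ := by
    refine hq2.trans (le_trans ?_ (h20 L (by omega)))
    exact mul_le_mul_of_nonneg_left hML (by norm_num)
  have hq : 1 ≤ q := by
    have : (0 : ℝ) < q := by linarith
    exact_mod_cast this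
  have hx : 7 * M ≤ (L : ℝ) ^ κ₁ := by
    have h1 : 7 * M ≤ 20 * M := by linarith
    refine (h1.trans ?_).trans (Real.rpow_le_rpow_of_exponent_le hL1 k1)
    exact (mul_le_mul_of_nonneg_left hML (by norm_num)).trans (h20 L (by omega))
  obtain ⟨n1, n2, n3⟩ := hN2 L (by omega) q hq hqL b hbL
  obtain ⟨l, hl⟩ : ∃ l, l = lp b q := ⟨_, rfl⟩
  have hl3 := lp_le hq n2
  rw [← hl] at n1 n2 n3 hl3
  have hβL : (L : ℝ) ^ (θ / 2) ≤ β := by
    have h1 : (L : ℝ) ^ (θ / 2) ≤ (L : ℝ) ^ θ := Real.rpow_le_rpow_of_exponent_le hL1 (by linarith)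
    have h2 : (b : ℝ) ≤ β := by exact_mod_cast (show b ≤ β by omega)
    linarith
  -- places
  have hpl : ∀ j ∈ R, ∀ n ∈ range (3 * q), j ≤ st (m1 a b0 b j) l n + β / 2 ∧ st (m1 a b0 b j) l n + l ≤ j + β / 2 := by
    intro j hj n hn
    obtain ⟨g3, g4⟩ := st_in (τ := m1 a b0 b j) (l := l) (mem_range.1 hn)
    have hj' := hR j hj
    cases a with
    | true =>
      have e : m1 true b0 b j = j + b0 := rfl
      rw [e] at g3 g4 ⊢
      omega
    | false =>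
      have e : m1 false b0 b j = j - b := rfl
      rw [e] at g3 g4 ⊢
      omega
  have hE2 : ∀ j ∈ R, m1 a b0 b j + 3 * q * (l + 1) ≤ m2 a b0 b j := by
    intro j hj
    have hj' := hR j hj
    cases a with
    | true =>
      show j + b0 + 3 * q * (l + 1) ≤ j + b
      omega
    | false =>
      show j - b + 3 * q * (l + 1) ≤ j - b0
      omega
  have hown : ∀ j ∈ R, (sd = true → 4 * m1 sd b β j ≤ 4 * j + 3 * β ∧ j + β ≤ m2 sd b β j) ∧
      (sd = false → m1 sd b β j ≤ j - β ∧ 4 * j ≤ 4 * m2 sd b β j + 3 * β) := by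
    intro j hj
    have hj' := hR j hj
    refine ⟨fun hs => ?_, fun hs => ?_⟩
    · subst hs
      show 4 * (j + b) ≤ 4 * j + 3 * β ∧ j + β ≤ j + β
      omega
    · subst hs
      show j - β ≤ j - β ∧ 4 * j ≤ 4 * (j - b) + 3 * β
      omega
  have hWn : ∀ n ∈ range (3 * q), WPs μ s N y (ENNReal.ofReal ((L : ℝ) ^ (ε / 2) * ((D - C : ℕ) * (EE' μ s l)⁻¹ * (EE' μ s β)⁻¹)))
      (ENNReal.ofReal (Real.exp (-(L : ℝ) ^ c₁))) R (fun j η S => ind (Hy μ s N y (j - β) (j + β)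
        (NoMeet (st (m1 a b0 b j) l n) (st (m1 a b0 b j) l n + l)) (7 * M) η S ∧ OwG μ s N y C D β q sd j θ' (7 * M) L η S)) (Ioo C D) := by
    intro n hn
    refine wps_of_ev (fun j => ms_and (hy_ms _ _) owg_ms) fun F hF hFo => ?_
    exact hS L (by omega) N hLN hNL y hyN hyc C D β l q hβL n1 hDN hq (hqL.trans (Real.rpow_le_rpow_of_exponent_le hL1 k1)) R hR
      (fun j => st (m1 a b0 b j) l n) (fun j => st (m1 a b0 b j) l n + l)
      (fun j hj => ⟨(hpl j hj n hn).1, (hpl j hj n hn).2, le_rfl⟩) (7 * M) hx F hF hFo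
  intro f hfm hf1 hfo
  have hj1 : ∀ j ∈ R, Q1 μ s N y (fun η S => f η S * (ind (TauS μ s N y (j - β) (j + β) (m1 a b0 b j) (m2 a b0 b j) M η S) *
      ind (TauS μ s N y C D (m1 sd b β j) (m2 sd b β j) M η S))) ≤
      ∑ n ∈ range (3 * q), Q1 μ s N y (fun η S => f η S * ind (Hy μ s N y (j - β) (j + β)
        (NoMeet (st (m1 a b0 b j) l n) (st (m1 a b0 b j) l n + l)) (7 * M) η S ∧ OwG μ s N y C D β q sd j θ' (7 * M) L η S)) +
        (N + 2) * ENNReal.ofReal (Real.exp (-M)) := fun j hj => by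
    have hj' := hR j hj
    exact combo hyN hCD hM hq1 hq2 (fun T hT => (hN1 L (by omega) q hq hqL T hT).2.1) (by omega) (by omega) (hown j hj).1 (hown j hj).2
      (hE2 j hj) hfm hf1
  refine (sum_le_sum hj1).trans ?_
  rw [sum_add_distrib, sum_comm]
  have h3 : ∑ n ∈ range (3 * q), ∑ j ∈ R, Q1 μ s N y (fun η S => f η S * ind (Hy μ s N y (j - β) (j + β)
        (NoMeet (st (m1 a b0 b j) l n) (st (m1 a b0 b j) l n + l)) (7 * M) η S ∧ OwG μ s N y C D β q sd j θ' (7 * M) L η S)) ≤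
      ∑ _n ∈ range (3 * q), (ENNReal.ofReal ((L : ℝ) ^ (ε / 2) * ((D - C : ℕ) * (EE' μ s l)⁻¹ * (EE' μ s β)⁻¹)) * Q1 μ s N y f +
        ENNReal.ofReal (Real.exp (-(L : ℝ) ^ c₁))) := sum_le_sum fun n hn => hWn n hn f hfm hf1 hfo
  rw [sum_const, card_range, nsmul_eq_mul] at h3
  rw [sum_const, nsmul_eq_mul]
  have hRN : R.card ≤ N := by
    have h1 : R ⊆ Ico C D := fun j hj => by
      have := hR j hj
      rw [mem_Ico]
      have hβ1 : 1 ≤ β := by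
        have h2 : (0 : ℝ) < β := lt_of_lt_of_le (by positivity) hβL
        exact_mod_cast h2
      omega
    have h2 := card_le_card h1
    rw [Nat.card_Ico] at h2
    omega
  have hE := EE'_le_mul86 h (by omega) n3
  push_cast at hE
  refine (add_le_add h3 le_rfl).trans ?_
  rw [mul_add, ← mul_assoc, add_assoc]
  have hc : ((3 * q : ℕ) : ℝ≥0∞) = ENNReal.ofReal (3 * q) := by
    rw [← ENNReal.ofReal_natCast]
    push_cast
    rfl
  refine add_le_add (mul_le_mul' ?_ le_rfl) ?_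
  · rw [hc, ← ENNReal.ofReal_mul (by positivity)]
    refine ENNReal.ofReal_le_ofReal ?_
    have e2 : (EE' μ s l)⁻¹ ≤ 18 * q * (EE' μ s b)⁻¹ := by
      rw [inv_le_iff_one_le_mul₀ (hEp _), mul_assoc]
      have : (EE' μ s b)⁻¹ * EE' μ s b = 1 := inv_mul_cancel₀ (hEp _).ne'
      calc (1 : ℝ) = (EE' μ s b)⁻¹ * EE' μ s b := this.symm
        _ ≤ (EE' μ s b)⁻¹ * (18 * q * EE' μ s l) := mul_le_mul_of_nonneg_left hE (inv_nonneg.2 (hEp _).le)
        _ = _ := by ring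
    have e3 : 54 * ((q : ℝ) * q) ≤ (L : ℝ) ^ (ε / 2) := by
      refine le_trans ?_ (h54 L (by omega))
      rw [Real.rpow_add hL0]
      gcongr
    have hi : 0 ≤ (EE' μ s b)⁻¹ := (inv_pos.2 (hEp b)).le
    have hi' : 0 ≤ (EE' μ s β)⁻¹ := (inv_pos.2 (hEp β)).le
    have hLp : 0 ≤ (L : ℝ) ^ (ε / 2) := by positivity
    calc 3 * (q : ℝ) * ((L : ℝ) ^ (ε / 2) * ((D - C : ℕ) * (EE' μ s l)⁻¹ * (EE' μ s β)⁻¹))
        ≤ 3 * (q : ℝ) * ((L : ℝ) ^ (ε / 2) * ((D - C : ℕ) * (18 * q * (EE' μ s b)⁻¹) * (EE' μ s β)⁻¹)) := by gcongr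
      _ = 54 * ((q : ℝ) * q) * ((L : ℝ) ^ (ε / 2) * ((D - C : ℕ) * (EE' μ s b)⁻¹ * (EE' μ s β)⁻¹)) := by ring
      _ ≤ (L : ℝ) ^ (ε / 2) * ((L : ℝ) ^ (ε / 2) * ((D - C : ℕ) * (EE' μ s b)⁻¹ * (EE' μ s β)⁻¹)) :=
          mul_le_mul_of_nonneg_right e3 (by positivity)
      _ = (L : ℝ) ^ ε * ((D - C : ℕ) * (EE' μ s b)⁻¹ * (EE' μ s β)⁻¹) := by rw [← mul_assoc, ← Real.rpow_add hL0, add_halves]
  · rw [ENNReal.ofReal_add (Real.exp_pos _).le (by positivity)]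
    refine add_le_add ?_ ?_
    · rw [hc, ← ENNReal.ofReal_mul (by positivity)]
      refine ENNReal.ofReal_le_ofReal (le_trans ?_ (hX L (by omega)))
      refine mul_le_mul_of_nonneg_right ?_ (Real.exp_pos _).le
      have hqL' : (q : ℝ) ≤ L ^ (1 / 2 : ℝ) := hqL.trans (Real.rpow_le_rpow_of_exponent_le hL1 k4)
      have g1 : (L : ℝ) ^ (1 / 2 : ℝ) ≤ L := by
        calc (L : ℝ) ^ (1 / 2 : ℝ) ≤ (L : ℝ) ^ (1 : ℝ) := Real.rpow_le_rpow_of_exponent_le hL1 (by norm_num)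
          _ = L := Real.rpow_one _
      have g2 : (L : ℝ) ^ (2 : ℝ) = L * L := by
        rw [show (2 : ℝ) = 1 + 1 by norm_num, Real.rpow_add hL0, Real.rpow_one]
      rw [g2]
      nlinarith
    · have e4 : ((N : ℝ≥0∞) + 2) = ENNReal.ofReal ((N : ℝ) + 2) := by
        rw [ENNReal.ofReal_add (Nat.cast_nonneg _) (by norm_num), ENNReal.ofReal_natCast]
        norm_num
      rw [e4, ← ENNReal.ofReal_mul (by positivity), ← ENNReal.ofReal_natCast, ← ENNReal.ofReal_mul (by positivity)]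
      refine ENNReal.ofReal_le_ofReal ?_
      rw [← mul_assoc]
      gcongr

end Pool.Agent.W_7d29a1_C0.SS3
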