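import Pool.Agent.W_7d29a1_C0.PairF3B
import Pool.Agent.W_7d29a1_C0.SiteS3B

/-!
MP_7d29a1_pr, [C0], helper3: PAIRS OF DOUBLE TIES IN ONE BLOCK: THE REDUCTION. `redP`: the two robust double ties of a far pair of rows are
masses: both own events local (`RowE` on both sides of the middle row), or one own gap is long (`LgR`, `LgL`). `wpsF`: the weight form of `sumP`.
-/

set_option autoImplicit false

namespace Pool.Agent.W_7d29a1_C0.SS3

open MeasureTheory ProbabilityTheory Filter Topology Finset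
open Pool.Agent.W_7d29a1_F Pool.Agent.W_7d29a1_X Pool.Agent.W_7d29a1_h4g Pool.Agent.W_7d29a1_H
open Pool.Agent.W_7d29a1_HS (In wd md)
open Pool.Agent.W_7d29a1_HZ Pool.Agent.W_7d29a1_HZ.R72 Pool.Agent.W_7d29a1_Z.Asm72
open Pool.Agent.W_7d29a1_HZ.Z86
open Pool.Agent.W_7d29a1_C0.P86 Pool.Agent.W_7d29a1_C0.P15 Pool.Agent.W_7d29a1_C0.P42
open Pool.Agent.W_7d29a1_C0.P3 (Hy hy_ms hy_off hy_mono_x)
open Pool.Agent.W_7d29a1_C0.Wp23
open Pool.W7d29a1.C0.R43 (Tau Rp mI st)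
open scoped ENNReal

variable {μ : Measure ℝ} {s : ℝ} {N : ℕ}

/-- The robust micro tie has an alternative on a piece, up to a rare set of paths. -/
theorem rp_fix [IsProbabilityMeasure μ] {y c d : ℕ} (hy : y ≤ N) (hcd : c ≤ d) (τ l q : ℕ) {M : ℝ} (hM : 8 ≤ M) (hq : 10 * M ≤ q)
    (hq' : (q : ℝ) ≤ 20 * M) {E : ℕ} (hE : τ + 3 * q * (l + 1) ≤ E) {f : Env → Finset ℕ → ℝ≥0∞} (hf : ∀ η S, f η S ≤ 1) :
    Q1 μ s N y (fun η S => f η S * ind (TauS μ s N y c d τ E M η S)) ≤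
      Q1 μ s N y (fun η S => f η S * ind (RpS μ s N y c d τ l q M η S)) + ENNReal.ofReal (Real.exp (-M)) := by
  refine Q1_add_const fun η => ?_
  refine le_trans ?_ (add_le_add (le_refl (∑ S ∈ (range N).powerset, ENNReal.ofReal (gp μ s η N y S) *
    (f η S * ind (RpS μ s N y c d τ l q M η S))))
    (tau_fix (μ := μ) (s := s) hy hcd τ l q hM hq hq' hE η))
  rw [← sum_add_distrib]
  refine sum_le_sum fun S _ => ?_
  rw [← mul_add]
  refine mul_le_mul' le_rfl ?_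
  by_cases hT : TauS μ s N y c d τ E M η S
  · rw [ind_of hT, mul_one]
    by_cases hR : RpS μ s N y c d τ l q M η S
    · rw [ind_of hR, mul_one]
      exact le_self_add
    · have e5 : ind (TauS μ s N y c d τ E M η S ∧ ¬ RpS μ s N y c d τ l q M η S) = 1 := ind_of ⟨hT, hR⟩
      rw [e5]
      exact (hf η S).trans le_add_self
  · rw [ind_not hT, mul_zero]
    exact zero_le

/-- The start of the piece `n` of the micro place. -/
def uP (a : Bool) (b0 b q n j : ℕ) : ℕ := st (m1 a b0 b j) (lp b q) n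

/-- Its end. -/
def vP (a : Bool) (b0 b q n j : ℕ) : ℕ := uP a b0 b q n j + lp b q

theorem uP_in {a : Bool} {b0 b β q n j : ℕ} (hb0 : 2 * b0 ≤ b) (hbβ : 2 * b ≤ β) (hj : β ≤ j) (hq : 1 ≤ q) (hl : 1 ≤ lp b q) (hn : n < 3 * q) :
    j ≤ uP a b0 b q n j + β / 2 ∧ vP a b0 b q n j ≤ j + β / 2 ∧ uP a b0 b q n j + lp b q ≤ vP a b0 b q n j := by
  have hl3 := lp_le hq hl
  obtain ⟨g3, g4⟩ := st_in (τ := m1 a b0 b j) (l := lp b q) hn
  unfold vP uP
  cases a with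
  | true =>
    have e : m1 true b0 b j = j + b0 := rfl
    rw [e] at g3 g4 ⊢
    omega
  | false =>
    have e : m1 false b0 b j = j - b := rfl
    rw [e] at g3 g4 ⊢
    omega

theorem m1_end {a : Bool} {b0 b β q j : ℕ} (hb0 : 2 * b0 ≤ b) (hbβ : 2 * b ≤ β) (hj : β ≤ j) (hq : 1 ≤ q) (hl : 1 ≤ lp b q) :
    m1 a b0 b j + 3 * q * (lp b q + 1) ≤ m2 a b0 b j := by
  have hl3 := lp_le hq hl
  cases a with
  | true =>
    show j + b0 + 3 * q * (lp b q + 1) ≤ j + b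
    omega
  | false =>
    show j - b + 3 * q * (lp b q + 1) ≤ j - b0
    omega

/-- The robust double tie of one row: micro place at the side `a`, own place at the side `sd`. -/
noncomputable def XX (μ : Measure ℝ) (s : ℝ) (N y C D b0 b β : ℕ) (a sd : Bool) (M : ℝ) (j : ℕ) (η : Env) (S : Finset ℕ) : ℝ≥0∞ :=
  ind (TauS μ s N y (j - β) (j + β) (m1 a b0 b j) (m2 a b0 b j) M η S) * ind (TauS μ s N y C D (m1 sd b β j) (m2 sd b β j) M η S)

/-- The own gap of the first row reaches the middle row. -/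
def LgR (μ : Measure ℝ) (s : ℝ) (N y C D b0 b β q : ℕ) (a : Bool) (x : ℝ) (m n n' j k : ℕ) (η : Env) (S : Finset ℕ) : Prop :=
  Hy μ s N y (j - β) (j + β) (NoMeet (uP a b0 b q n j) (vP a b0 b q n j)) x η S ∧
    Hy μ s N y (k - β) (k + β) (NoMeet (uP a b0 b q n' k) (vP a b0 b q n' k)) x η S ∧ Hy μ s N y C D (NoMeet (j + β) m) x η S

/-- The own gap of the second row reaches the middle row. -/
def LgL (μ : Measure ℝ) (s : ℝ) (N y C D b0 b β q : ℕ) (a : Bool) (x : ℝ) (m n n' j k : ℕ) (η : Env) (S : Finset ℕ) : Prop :=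
  Hy μ s N y (j - β) (j + β) (NoMeet (uP a b0 b q n j) (vP a b0 b q n j)) x η S ∧
    Hy μ s N y (k - β) (k + β) (NoMeet (uP a b0 b q n' k) (vP a b0 b q n' k)) x η S ∧ Hy μ s N y C D (NoMeet m (k - β)) x η S

theorem lgR_ms {y C D b0 b β q : ℕ} {a : Bool} {x : ℝ} {m n n' j k : ℕ} : Ms (LgR μ s N y C D b0 b β q a x m n n' j k) :=
  ms_and (hy_ms _ _) (ms_and (hy_ms _ _) (hy_ms _ _))

theorem lgL_ms {y C D b0 b β q : ℕ} {a : Bool} {x : ℝ} {m n n' j k : ℕ} : Ms (LgL μ s N y C D b0 b β q a x m n n' j k) :=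
  ms_and (hy_ms _ _) (ms_and (hy_ms _ _) (hy_ms _ _))

/-- Both own events are local. -/
def LcE (μ : Measure ℝ) (s : ℝ) (N y C D b0 b β q : ℕ) (a sd : Bool) (θ₁ θ₂ x : ℝ) (L m n n' j k : ℕ) (η : Env) (S : Finset ℕ) : Prop :=
  RowE μ s N y C m β q sd θ₁ x L (uP a b0 b q n) (vP a b0 b q n) j η S ∧
    RowE μ s N y m D β q sd θ₂ x L (uP a b0 b q n') (vP a b0 b q n') k η S

theorem lcE_ms {y C D b0 b β q : ℕ} {a sd : Bool} {θ₁ θ₂ x : ℝ} {L m n n' j k : ℕ} :
    Ms (LcE μ s N y C D b0 b β q a sd θ₁ θ₂ x L m n n' j k) := ms_and rowE_ms rowE_ms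

/-- **THE REDUCTION.** -/
theorem redP [IsProbabilityMeasure μ] {y C D b0 b β q j k m L : ℕ} {a sd : Bool} {θ₁ θ₂ M x : ℝ} (hy : y ≤ N) (hb0 : 2 * b0 ≤ b)
    (hbβ : 2 * b ≤ β) (hD : D ≤ N) (hM : 8 ≤ M) (hq : 10 * M ≤ q) (hq' : (q : ℝ) ≤ 20 * M)
    (hlp₁ : ∀ T : ℕ, (L : ℝ) ^ θ₁ ≤ T → 1 ≤ lp T q) (hlp₂ : ∀ T : ℕ, (L : ℝ) ^ θ₂ ≤ T → 1 ≤ lp T q) (hl : 1 ≤ lp b q)
    (hx : ((N : ℝ) + 2) * Real.exp (-x) ≤ Real.exp (-(7 * M))) (h1 : C + β ≤ j) (h2 : j + β ≤ m) (h3 : m + β ≤ k) (h4 : k + β ≤ D)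
    {f : Env → Finset ℕ → ℝ≥0∞} (hfm : ∀ S, Measurable fun η => f η S) (hf : ∀ η S, f η S ≤ 1) :
    Q1 μ s N y (fun η S => f η S * (XX μ s N y C D b0 b β a sd M j η S * XX μ s N y C D b0 b β a sd M k η S)) ≤
      ∑ n ∈ range (3 * q), ∑ n' ∈ range (3 * q),
        (Q1 μ s N y (fun η S => f η S * ind (LcE μ s N y C D b0 b β q a sd θ₁ θ₂ x L m n n' j k η S)) +
          (Q1 μ s N y (fun η S => f η S * ind (LgR μ s N y C D b0 b β q a x m n n' j k η S)) +
            Q1 μ s N y (fun η S => f η S * ind (LgL μ s N y C D b0 b β q a x m n n' j k η S)))) +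
        (2 * N + 4) * ENNReal.ofReal (Real.exp (-M)) := by
  have hq1 : 1 ≤ q := by
    have : (0 : ℝ) < q := by linarith
    exact_mod_cast this
  have hxM : 7 * M ≤ x := by
    have h5 : Real.exp (-x) ≤ Real.exp (-(7 * M)) := by
      have h6 : (0 : ℝ) ≤ N := Nat.cast_nonneg _
      nlinarith [Real.exp_pos (-x)]
    have := Real.exp_le_exp.1 h5
    linarith
  obtain ⟨Tj, hTj⟩ : ∃ T : Env → Finset ℕ → ℝ≥0∞, T = fun η S => ind (TauS μ s N y (j - β) (j + β) (m1 a b0 b j) (m2 a b0 b j) M η S) := ⟨_, rfl⟩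
  obtain ⟨Tk, hTk⟩ : ∃ T : Env → Finset ℕ → ℝ≥0∞, T = fun η S => ind (TauS μ s N y (k - β) (k + β) (m1 a b0 b k) (m2 a b0 b k) M η S) := ⟨_, rfl⟩
  obtain ⟨Oj, hOj⟩ : ∃ T : Env → Finset ℕ → ℝ≥0∞, T = fun η S => ind (TauS μ s N y C D (m1 sd b β j) (m2 sd b β j) M η S) := ⟨_, rfl⟩
  obtain ⟨Ok, hOk⟩ : ∃ T : Env → Finset ℕ → ℝ≥0∞, T = fun η S => ind (TauS μ s N y C D (m1 sd b β k) (m2 sd b β k) M η S) := ⟨_, rfl⟩
  obtain ⟨Gj, hGj⟩ : ∃ T : Env → Finset ℕ → ℝ≥0∞, T = fun η S => ind (OwG μ s N y C D β q sd j θ₁ (7 * M) L η S) := ⟨_, rfl⟩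
  obtain ⟨Gk, hGk⟩ : ∃ T : Env → Finset ℕ → ℝ≥0∞, T = fun η S => ind (OwG μ s N y C D β q sd k θ₂ (7 * M) L η S) := ⟨_, rfl⟩
  obtain ⟨Rj, hRj⟩ : ∃ T : Env → Finset ℕ → ℝ≥0∞, T = fun η S => ind (RpS μ s N y (j - β) (j + β) (m1 a b0 b j) (lp b q) q M η S) := ⟨_, rfl⟩
  obtain ⟨Rk, hRk⟩ : ∃ T : Env → Finset ℕ → ℝ≥0∞, T = fun η S => ind (RpS μ s N y (k - β) (k + β) (m1 a b0 b k) (lp b q) q M η S) := ⟨_, rfl⟩
  have iTj : ∀ η S, Tj η S ≤ 1 := fun η S => by rw [hTj]; exact ind_le _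
  have iTk : ∀ η S, Tk η S ≤ 1 := fun η S => by rw [hTk]; exact ind_le _
  have iOk : ∀ η S, Ok η S ≤ 1 := fun η S => by rw [hOk]; exact ind_le _
  have iGj : ∀ η S, Gj η S ≤ 1 := fun η S => by rw [hGj]; exact ind_le _
  have iGk : ∀ η S, Gk η S ≤ 1 := fun η S => by rw [hGk]; exact ind_le _
  have iRj : ∀ η S, Rj η S ≤ 1 := fun η S => by rw [hRj]; exact ind_le _
  have p2 : ∀ {a b : ℝ≥0∞}, a ≤ 1 → b ≤ 1 → a * b ≤ 1 := fun ha hb => by
    calc _ ≤ (1 : ℝ≥0∞) * 1 := mul_le_mul' ha hb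
      _ = 1 := one_mul 1
  have hownj : (sd = true → 4 * m1 sd b β j ≤ 4 * j + 3 * β ∧ j + β ≤ m2 sd b β j) ∧
      (sd = false → m1 sd b β j ≤ j - β ∧ 4 * j ≤ 4 * m2 sd b β j + 3 * β) := by
    refine ⟨fun hs => ?_, fun hs => ?_⟩
    · subst hs
      show 4 * (j + b) ≤ 4 * j + 3 * β ∧ j + β ≤ j + β
      omega
    · subst hs
      show j - β ≤ j - β ∧ 4 * j ≤ 4 * (j - b) + 3 * β
      omega
  have hownk : (sd = true → 4 * m1 sd b β k ≤ 4 * k + 3 * β ∧ k + β ≤ m2 sd b β k) ∧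
      (sd = false → m1 sd b β k ≤ k - β ∧ 4 * k ≤ 4 * m2 sd b β k + 3 * β) := by
    refine ⟨fun hs => ?_, fun hs => ?_⟩
    · subst hs
      show 4 * (k + b) ≤ 4 * k + 3 * β ∧ k + β ≤ k + β
      omega
    · subst hs
      show k - β ≤ k - β ∧ 4 * k ≤ 4 * (k - b) + 3 * β
      omega
  obtain ⟨e, he⟩ : ∃ e : ℝ≥0∞, e = ENNReal.ofReal (Real.exp (-M)) := ⟨_, rfl⟩
  have e0 : Q1 μ s N y (fun η S => f η S * (XX μ s N y C D b0 b β a sd M j η S * XX μ s N y C D b0 b β a sd M k η S)) =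
      Q1 μ s N y (fun η S => f η S * (Tj η S * (Tk η S * Ok η S)) * Oj η S) := by
    congr 1
    funext η S
    unfold XX
    rw [hTj, hTk, hOj, hOk]
    ring
  have s1 : Q1 μ s N y (fun η S => f η S * (Tj η S * (Tk η S * Ok η S)) * Oj η S) ≤
      Q1 μ s N y (fun η S => f η S * (Tj η S * (Tk η S * Ok η S)) * Gj η S) + (N + 1) * e := by
    rw [hOj, hGj, he]
    exact tau_own (μ := μ) (s := s) hy (by omega) hM hq hq' hlp₁ (by omega) (by omega) hownj.1 hownj.2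
      (f := fun η S => f η S * (Tj η S * (Tk η S * Ok η S))) fun η S => p2 (hf η S) (p2 (iTj η S) (p2 (iTk η S) (iOk η S)))
  have e1 : Q1 μ s N y (fun η S => f η S * (Tj η S * (Tk η S * Ok η S)) * Gj η S) =
      Q1 μ s N y (fun η S => f η S * (Tj η S * (Tk η S * Gj η S)) * Ok η S) := by
    congr 1
    funext η S
    ring
  have s2 : Q1 μ s N y (fun η S => f η S * (Tj η S * (Tk η S * Gj η S)) * Ok η S) ≤
      Q1 μ s N y (fun η S => f η S * (Tj η S * (Tk η S * Gj η S)) * Gk η S) + (N + 1) * e := by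
    rw [hOk, hGk, he]
    exact tau_own (μ := μ) (s := s) hy (by omega) hM hq hq' hlp₂ (by omega) (by omega) hownk.1 hownk.2
      (f := fun η S => f η S * (Tj η S * (Tk η S * Gj η S))) fun η S => p2 (hf η S) (p2 (iTj η S) (p2 (iTk η S) (iGj η S)))
  have e2 : Q1 μ s N y (fun η S => f η S * (Tj η S * (Tk η S * Gj η S)) * Gk η S) =
      Q1 μ s N y (fun η S => f η S * (Tk η S * (Gj η S * Gk η S)) * Tj η S) := by
    congr 1
    funext η S
    ring
  have s3 : Q1 μ s N y (fun η S => f η S * (Tk η S * (Gj η S * Gk η S)) * Tj η S) ≤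
      Q1 μ s N y (fun η S => f η S * (Tk η S * (Gj η S * Gk η S)) * Rj η S) + e := by
    rw [hTj, hRj, he]
    exact rp_fix (μ := μ) (s := s) hy (by omega) (m1 a b0 b j) (lp b q) q hM hq hq' (m1_end hb0 hbβ (by omega) hq1 hl)
      (f := fun η S => f η S * (Tk η S * (Gj η S * Gk η S))) fun η S => p2 (hf η S) (p2 (iTk η S) (p2 (iGj η S) (iGk η S)))
  have e3 : Q1 μ s N y (fun η S => f η S * (Tk η S * (Gj η S * Gk η S)) * Rj η S) =
      Q1 μ s N y (fun η S => f η S * (Rj η S * (Gj η S * Gk η S)) * Tk η S) := by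
    congr 1
    funext η S
    ring
  have s4 : Q1 μ s N y (fun η S => f η S * (Rj η S * (Gj η S * Gk η S)) * Tk η S) ≤
      Q1 μ s N y (fun η S => f η S * (Rj η S * (Gj η S * Gk η S)) * Rk η S) + e := by
    rw [hTk, hRk, he]
    exact rp_fix (μ := μ) (s := s) hy (by omega) (m1 a b0 b k) (lp b q) q hM hq hq' (m1_end hb0 hbβ (by omega) hq1 hl)
      (f := fun η S => f η S * (Rj η S * (Gj η S * Gk η S))) fun η S => p2 (hf η S) (p2 (iRj η S) (p2 (iGj η S) (iGk η S)))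
  have s5 : Q1 μ s N y (fun η S => f η S * (Rj η S * (Gj η S * Gk η S)) * Rk η S) ≤
      Q1 μ s N y (fun η S => ∑ n ∈ range (3 * q), ∑ n' ∈ range (3 * q),
        (f η S * ind (LcE μ s N y C D b0 b β q a sd θ₁ θ₂ x L m n n' j k η S) +
          (f η S * ind (LgR μ s N y C D b0 b β q a x m n n' j k η S) + f η S * ind (LgL μ s N y C D b0 b β q a x m n n' j k η S)))) := by
    refine Q1_mono fun η S _ _ => ?_
    by_cases c1 : RpS μ s N y (j - β) (j + β) (m1 a b0 b j) (lp b q) q M η S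
    swap
    · have : Rj η S = 0 := by rw [hRj]; exact ind_not c1
      rw [this]
      simp only [zero_mul, mul_zero]
      exact zero_le
    by_cases c2 : RpS μ s N y (k - β) (k + β) (m1 a b0 b k) (lp b q) q M η S
    swap
    · have : Rk η S = 0 := by rw [hRk]; exact ind_not c2
      rw [this, mul_zero]
      exact zero_le
    by_cases c3 : OwG μ s N y C D β q sd j θ₁ (7 * M) L η S
    swap
    · have : Gj η S = 0 := by rw [hGj]; exact ind_not c3
      rw [this]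
      simp only [zero_mul, mul_zero]
      exact zero_le
    by_cases c4 : OwG μ s N y C D β q sd k θ₂ (7 * M) L η S
    swap
    · have : Gk η S = 0 := by rw [hGk]; exact ind_not c4
      rw [this]
      simp only [zero_mul, mul_zero]
      exact zero_le
    have hle : f η S * (Rj η S * (Gj η S * Gk η S)) * Rk η S ≤ f η S := by
      have hRk1 : Rk η S ≤ 1 := by rw [hRk]; exact ind_le _
      calc _ ≤ f η S * 1 * 1 := mul_le_mul' (mul_le_mul' le_rfl (p2 (iRj η S) (p2 (iGj η S) (iGk η S)))) hRk1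
        _ = f η S := by rw [mul_one, mul_one]
    refine hle.trans ?_
    obtain ⟨n, hn, hHj⟩ := c1
    obtain ⟨n', hn', hHk⟩ := c2
    have hHj' : Hy μ s N y (j - β) (j + β) (NoMeet (uP a b0 b q n j) (vP a b0 b q n j)) x η S := hy_mono_x hxM hHj
    have hHk' : Hy μ s N y (k - β) (k + β) (NoMeet (uP a b0 b q n' k) (vP a b0 b q n' k)) x η S := hy_mono_x hxM hHk
    refine le_trans ?_ (single_le_sum (f := fun n => ∑ n' ∈ range (3 * q),
        (f η S * ind (LcE μ s N y C D b0 b β q a sd θ₁ θ₂ x L m n n' j k η S) +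
          (f η S * ind (LgR μ s N y C D b0 b β q a x m n n' j k η S) + f η S * ind (LgL μ s N y C D b0 b β q a x m n n' j k η S))))
      (fun _ _ => zero_le) (mem_range.2 hn))
    refine le_trans ?_ (single_le_sum (f := fun n' =>
        (f η S * ind (LcE μ s N y C D b0 b β q a sd θ₁ θ₂ x L m n n' j k η S) +
          (f η S * ind (LgR μ s N y C D b0 b β q a x m n n' j k η S) + f η S * ind (LgL μ s N y C D b0 b β q a x m n n' j k η S))))
      (fun _ _ => zero_le) (mem_range.2 hn'))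
    rcases owg_cutR hx hq1 h1 h2 (by omega) hD hlp₁ c3 with d1 | d1
    · rcases owg_cutL hx hq1 (by omega) h3 h4 hD hlp₂ c4 with d2 | d2
      · have e5 : ind (LcE μ s N y C D b0 b β q a sd θ₁ θ₂ x L m n n' j k η S) = 1 := ind_of ⟨⟨hHj', d1⟩, ⟨hHk', d2⟩⟩
        rw [e5, mul_one]
        exact le_self_add
      · have e5 : ind (LgL μ s N y C D b0 b β q a x m n n' j k η S) = 1 := ind_of ⟨hHj', hHk', d2⟩
        rw [e5, mul_one]
        exact le_add_self.trans le_add_self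
    · have e5 : ind (LgR μ s N y C D b0 b β q a x m n n' j k η S) = 1 := ind_of ⟨hHj', hHk', d1⟩
      rw [e5, mul_one]
      exact le_self_add.trans le_add_self
  have s6 : Q1 μ s N y (fun η S => ∑ n ∈ range (3 * q), ∑ n' ∈ range (3 * q),
        (f η S * ind (LcE μ s N y C D b0 b β q a sd θ₁ θ₂ x L m n n' j k η S) +
          (f η S * ind (LgR μ s N y C D b0 b β q a x m n n' j k η S) + f η S * ind (LgL μ s N y C D b0 b β q a x m n n' j k η S)))) =
      ∑ n ∈ range (3 * q), ∑ n' ∈ range (3 * q),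
        (Q1 μ s N y (fun η S => f η S * ind (LcE μ s N y C D b0 b β q a sd θ₁ θ₂ x L m n n' j k η S)) +
          (Q1 μ s N y (fun η S => f η S * ind (LgR μ s N y C D b0 b β q a x m n n' j k η S)) +
            Q1 μ s N y (fun η S => f η S * ind (LgL μ s N y C D b0 b β q a x m n n' j k η S)))) := by
    have m3 : ∀ n n' : ℕ, ∀ S, Measurable fun η => f η S * ind (LcE μ s N y C D b0 b β q a sd θ₁ θ₂ x L m n n' j k η S) := fun n n' S =>
      (hfm S).mul (meas_ind (lcE_ms S))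
    have m4 : ∀ n n' : ℕ, ∀ S, Measurable fun η => f η S * ind (LgR μ s N y C D b0 b β q a x m n n' j k η S) := fun n n' S =>
      (hfm S).mul (meas_ind (lgR_ms S))
    have m5 : ∀ n n' : ℕ, ∀ S, Measurable fun η => f η S * ind (LgL μ s N y C D b0 b β q a x m n n' j k η S) := fun n n' S =>
      (hfm S).mul (meas_ind (lgL_ms S))
    rw [Q1_sum (μ := μ) (s := s) (N := N) (y := (y : ℤ)) (range (3 * q)) (f := fun n η S => ∑ n' ∈ range (3 * q),
        (f η S * ind (LcE μ s N y C D b0 b β q a sd θ₁ θ₂ x L m n n' j k η S) +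
          (f η S * ind (LgR μ s N y C D b0 b β q a x m n n' j k η S) + f η S * ind (LgL μ s N y C D b0 b β q a x m n n' j k η S))))
      fun n S => Finset.measurable_fun_sum _ fun n' _ => (m3 n n' S).add ((m4 n n' S).add (m5 n n' S))]
    refine sum_congr rfl fun n _ => ?_
    rw [Q1_sum (μ := μ) (s := s) (N := N) (y := (y : ℤ)) (range (3 * q)) (f := fun n' η S =>
        (f η S * ind (LcE μ s N y C D b0 b β q a sd θ₁ θ₂ x L m n n' j k η S) +
          (f η S * ind (LgR μ s N y C D b0 b β q a x m n n' j k η S) + f η S * ind (LgL μ s N y C D b0 b β q a x m n n' j k η S))))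
      fun n' S => (m3 n n' S).add ((m4 n n' S).add (m5 n n' S))]
    refine sum_congr rfl fun n' _ => ?_
    rw [Q1_add (m3 n n'), Q1_add (m4 n n')]
  rw [e0]
  refine s1.trans ?_
  rw [e1]
  refine (add_le_add s2 le_rfl).trans ?_
  rw [e2]
  refine (add_le_add (add_le_add s3 le_rfl) le_rfl).trans ?_
  rw [e3]
  refine (add_le_add (add_le_add (add_le_add s4 le_rfl) le_rfl) le_rfl).trans ?_
  refine (add_le_add (add_le_add (add_le_add (add_le_add s5 le_rfl) le_rfl) le_rfl) le_rfl).trans ?_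
  rw [s6, ← he]
  refine le_of_eq ?_
  ring

end Pool.Agent.W_7d29a1_C0.SS3
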