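import Pool.Agent.W_7d29a1_C0.PairR3

/-!
MP_7d29a1_pr, [C0], helper3: `wpsF`: far local pairs against weights, summed over the pieces, with the price `E_b` of the whole micro place.
-/

set_option autoImplicit false

namespace Pool.Agent.W_7d29a1_C0.SS3

open MeasureTheory ProbabilityTheory Filter Topology Finset
open Pool.Agent.W_7d29a1_F Pool.Agent.W_7d29a1_X Pool.Agent.W_7d29a1_h4g Pool.Agent.W_7d29a1_H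
open Pool.Agent.W_7d29a1_HS (In wd md)
open Pool.Agent.W_7d29a1_HZ Pool.Agent.W_7d29a1_HZ.R72 Pool.Agent.W_7d29a1_Z.Asm72
open Pool.Agent.W_7d29a1_HZ.Z86
open Pool.Agent.W_7d29a1_C0.P86 Pool.Agent.W_7d29a1_C0.P15 Pool.Agent.W_7d29a1_C0.P42
open Pool.Agent.W_7d29a1_C0.P3 (Hy hy_ms hy_off hy_mono_x)
open Pool.Agent.W_7d29a1_C0.Wp23
open Pool.W7d29a1.C0.R43 (Tau Rp mI st)
open scoped ENNReal

variable {μ : Measure ℝ} {s : ℝ} {N : ℕ} [IsProbabilityMeasure μ] {c₀ C₀ : ℝ} {n₀ : ℕ}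

/-- **ALL FAR LOCAL PAIRS, weights.** -/
theorem wpsF (h : In μ s c₀ C₀ n₀) (a sd : Bool) : ∀ ε θ : ℝ, 0 < ε → 0 < θ → ∃ θ₁ θ₂ : ℝ, (0 < θ₁ ∧ θ₁ ≤ θ) ∧ (0 < θ₂ ∧ θ₂ ≤ θ) ∧
    ∃ δ κ c₂ : ℝ, 0 < δ ∧ 0 < κ ∧ 0 < c₂ ∧
    ∃ L₀ : ℕ, ∀ L : ℕ, L₀ ≤ L → ∀ N : ℕ, L ≤ 16 * N → N ≤ L → ∀ y : ℕ, y ≤ N → |(y : ℝ) - sl μ s * N| ≤ ((L : ℝ) ^ δ * wd' μ s N) →
    ∀ C D b0 b β q r₀ ρ : ℕ, 2 * b0 ≤ b → 2 * b ≤ β → (L : ℝ) ^ θ ≤ b → D ≤ N → 1 ≤ q → (q : ℝ) ≤ (L : ℝ) ^ κ → β ≤ ρ →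
    (1 ≤ lp b q ∧ ∀ T : ℕ, ((L : ℝ) ^ θ₁ ≤ T ∨ (L : ℝ) ^ θ₂ ≤ T) → 1 ≤ lp T q) ∧
    ∀ R : Finset ℕ, R ⊆ Ico r₀ (r₀ + ρ) → (∀ j ∈ R, C + 4 * β ≤ j ∧ j + 4 * β ≤ D) → ∀ x : ℝ, x ≤ (L : ℝ) ^ κ →
    ∀ f : Env → Finset ℕ → ℝ≥0∞, (∀ S, Measurable fun η => f η S) → (∀ η S, f η S ≤ 1) → OffW (Ioo C D) f →
    ∑ p ∈ farP R β, ∑ n ∈ range (3 * q), ∑ n' ∈ range (3 * q),
      Q1 μ s N y (fun η S => f η S * ind (LcE μ s N y C D b0 b β q a sd θ₁ θ₂ x L (midP β p.1 p.2) n n' p.1 p.2 η S)) ≤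
      ENNReal.ofReal ((L : ℝ) ^ ε * (ρ * (EE' μ s b)⁻¹ * (EE' μ s β)⁻¹) ^ 2) * Q1 μ s N y f + ENNReal.ofReal (Real.exp (-(L : ℝ) ^ c₂)) := by
  intro ε θ hε hθ
  have hEp : ∀ t, 0 < EE' μ s t := fun t => lt_of_lt_of_le zero_lt_one (le_max_left _ _)
  obtain ⟨θ₁, θ₂, hθ₁, hθ₂, δ, κ₁, c₁, hδ, hκ₁, hc₁, L₁, hS⟩ := sumP h sd sd (ε / 2) (θ / 2) (by positivity) (by positivity)
  obtain ⟨κ₂, hκd⟩ : ∃ κ₂, κ₂ = min κ₁ (min (min θ₁ θ₂ / 4) (min (ε / 16) (1 / 4))) := ⟨_, rfl⟩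
  have hmin : 0 < min θ₁ θ₂ := lt_min hθ₁.1 hθ₂.1
  have hκ₂ : 0 < κ₂ := by
    rw [hκd]
    exact lt_min hκ₁ (lt_min (by positivity) (lt_min (by positivity) (by norm_num)))
  have k1 : κ₂ ≤ κ₁ := by rw [hκd]; exact min_le_left _ _
  have k2 : κ₂ ≤ min θ₁ θ₂ / 4 := by rw [hκd]; exact (min_le_right _ _).trans (min_le_left _ _)
  have k3 : κ₂ ≤ ε / 16 := by rw [hκd]; exact (min_le_right _ _).trans ((min_le_right _ _).trans (min_le_left _ _))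
  have k4 : κ₂ ≤ 1 / 4 := by rw [hκd]; exact (min_le_right _ _).trans ((min_le_right _ _).trans (min_le_right _ _))
  have k5 : min θ₁ θ₂ ≤ θ₁ := min_le_left _ _
  have k6 : min θ₁ θ₂ ≤ θ₂ := min_le_right _ _
  obtain ⟨L₂, hN1⟩ := lp_num hθ₁.1 (show κ₂ < θ₁ / 2 by linarith)
  obtain ⟨L₃, hN2⟩ := lp_num hθ (show κ₂ < θ / 2 by linarith [hθ₁.2])
  obtain ⟨L₇, hN3⟩ := lp_num hθ₂.1 (show κ₂ < θ₂ / 2 by linarith)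
  obtain ⟨L₅, h54⟩ := ev_mul86 2916 (show 4 * κ₂ < ε / 2 by linarith)
  obtain ⟨c₂, hc₂, -, L₆, hX⟩ := Pool.Agent.W_7d29a1_Z.NumI77.pow_exp hc₁ 1
  refine ⟨θ₁, θ₂, ⟨hθ₁.1, by linarith [hθ₁.2]⟩, ⟨hθ₂.1, by linarith [hθ₂.2]⟩, δ, κ₂, c₂, hδ, hκ₂, hc₂, L₁ + L₂ + L₃ + L₅ + L₆ + L₇ + 81, ?_⟩
  intro L hL N hLN hNL y hyN hyc C D b0 b β q r₀ ρ hb0 hbβ hbL hDN hq hqL hβρ
  have hL9 : (81 : ℝ) ≤ L := by exact_mod_cast (show 81 ≤ L by omega)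
  have hL0 : (0 : ℝ) < L := by linarith
  have hL1 : (1 : ℝ) ≤ L := by linarith
  obtain ⟨n1, n2, n3⟩ := hN2 L (by omega) q hq hqL b hbL
  refine ⟨⟨n2, fun T hT => ?_⟩, ?_⟩
  · rcases hT with hT | hT
    · exact (hN1 L (by omega) q hq hqL T hT).2.1
    · exact (hN3 L (by omega) q hq hqL T hT).2.1
  intro R hRρ hR x hx f hfm hf1 hfo
  have hβL : (L : ℝ) ^ (θ / 2) ≤ β := by
    have h1 : (L : ℝ) ^ (θ / 2) ≤ (L : ℝ) ^ θ := Real.rpow_le_rpow_of_exponent_le hL1 (by linarith)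
    have h2 : (b : ℝ) ≤ β := by exact_mod_cast (show b ≤ β by omega)
    linarith
  have hWn : ∀ n ∈ range (3 * q), ∀ n' ∈ range (3 * q), ∑ p ∈ farP R β,
      Q1 μ s N y (fun η S => f η S * ind (LcE μ s N y C D b0 b β q a sd θ₁ θ₂ x L (midP β p.1 p.2) n n' p.1 p.2 η S)) ≤
      ENNReal.ofReal ((L : ℝ) ^ (ε / 2) * (ρ * (EE' μ s (lp b q))⁻¹ * (EE' μ s β)⁻¹) ^ 2) * Q1 μ s N y f +
        ENNReal.ofReal (Real.exp (-(L : ℝ) ^ c₁)) := by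
    intro n hn n' hn'
    have h1 := wps_of_ev (μ := μ) (s := s) (N := N) (y := (y : ℤ)) (I := farP R β)
      (B := fun p => LcE μ s N y C D b0 b β q a sd θ₁ θ₂ x L (midP β p.1 p.2) n n' p.1 p.2) (fun p => lcE_ms) (J := Ioo C D)
      (r := ENNReal.ofReal ((L : ℝ) ^ (ε / 2) * (ρ * (EE' μ s (lp b q))⁻¹ * (EE' μ s β)⁻¹) ^ 2))
      (p := ENNReal.ofReal (Real.exp (-(L : ℝ) ^ c₁))) fun F hF hFo => by
        exact hS L (by omega) N hLN hNL y hyN hyc C D β (lp b q) q r₀ ρ hβL n1 hDN hq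
          (hqL.trans (Real.rpow_le_rpow_of_exponent_le hL1 k1)) hβρ R hRρ hR (uP a b0 b q n) (vP a b0 b q n) (uP a b0 b q n') (vP a b0 b q n')
          (fun j hj => uP_in hb0 hbβ (by have := hR j hj; omega) hq n2 (mem_range.1 hn))
          (fun j hj => uP_in hb0 hbβ (by have := hR j hj; omega) hq n2 (mem_range.1 hn')) x
          (hx.trans (Real.rpow_le_rpow_of_exponent_le hL1 k1)) F hF hFo
    exact h1 f hfm hf1 hfo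
  have e1 : ∑ p ∈ farP R β, ∑ n ∈ range (3 * q), ∑ n' ∈ range (3 * q),
      Q1 μ s N y (fun η S => f η S * ind (LcE μ s N y C D b0 b β q a sd θ₁ θ₂ x L (midP β p.1 p.2) n n' p.1 p.2 η S)) =
      ∑ n ∈ range (3 * q), ∑ n' ∈ range (3 * q), ∑ p ∈ farP R β,
      Q1 μ s N y (fun η S => f η S * ind (LcE μ s N y C D b0 b β q a sd θ₁ θ₂ x L (midP β p.1 p.2) n n' p.1 p.2 η S)) := by
    rw [sum_comm]
    refine sum_congr rfl fun n _ => ?_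
    rw [sum_comm]
  rw [e1]
  refine (sum_le_sum fun n hn => sum_le_sum fun n' hn' => hWn n hn n' hn').trans ?_
  rw [sum_const, sum_const, card_range, nsmul_eq_mul, nsmul_eq_mul, mul_add, mul_add, ← mul_assoc, ← mul_assoc, ← mul_assoc]
  have hc : ((3 * q : ℕ) : ℝ≥0∞) * ((3 * q : ℕ) : ℝ≥0∞) = ENNReal.ofReal (9 * q ^ 2) := by
    rw [← ENNReal.ofReal_natCast, ← ENNReal.ofReal_mul (Nat.cast_nonneg _)]
    congr 1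
    push_cast
    ring
  have hE := EE'_le_mul86 h (by omega) n3
  push_cast at hE
  have hqp : (q : ℝ) ^ 4 ≤ (L : ℝ) ^ (4 * κ₂) := by
    calc (q : ℝ) ^ 4 ≤ ((L : ℝ) ^ κ₂) ^ 4 := pow_le_pow_left₀ (Nat.cast_nonneg _) hqL 4
      _ = (L : ℝ) ^ (4 * κ₂) := by
        rw [← Real.rpow_natCast, ← Real.rpow_mul hL0.le]
        congr 1
        push_cast
        ring
  rw [hc]
  refine add_le_add (mul_le_mul' ?_ le_rfl) ?_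
  · rw [← ENNReal.ofReal_mul (by positivity)]
    refine ENNReal.ofReal_le_ofReal ?_
    have e2 : (EE' μ s (lp b q))⁻¹ ≤ 18 * q * (EE' μ s b)⁻¹ := by
      rw [inv_le_iff_one_le_mul₀ (hEp _), mul_assoc]
      have : (EE' μ s b)⁻¹ * EE' μ s b = 1 := inv_mul_cancel₀ (hEp _).ne'
      calc (1 : ℝ) = (EE' μ s b)⁻¹ * EE' μ s b := this.symm
        _ ≤ (EE' μ s b)⁻¹ * (18 * q * EE' μ s (lp b q)) := mul_le_mul_of_nonneg_left hE (inv_nonneg.2 (hEp _).le)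
        _ = _ := by ring
    have hi : 0 ≤ (EE' μ s (lp b q))⁻¹ := (inv_pos.2 (hEp _)).le
    have hi' : 0 ≤ (EE' μ s β)⁻¹ := (inv_pos.2 (hEp β)).le
    have hLp : 0 ≤ (L : ℝ) ^ (ε / 2) := by positivity
    have e3 : 2916 * (q : ℝ) ^ 4 ≤ (L : ℝ) ^ (ε / 2) := by
      refine le_trans ?_ (h54 L (by omega))
      exact mul_le_mul_of_nonneg_left hqp (by norm_num)
    calc 9 * (q : ℝ) ^ 2 * ((L : ℝ) ^ (ε / 2) * (ρ * (EE' μ s (lp b q))⁻¹ * (EE' μ s β)⁻¹) ^ 2)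
        ≤ 9 * (q : ℝ) ^ 2 * ((L : ℝ) ^ (ε / 2) * (ρ * (18 * q * (EE' μ s b)⁻¹) * (EE' μ s β)⁻¹) ^ 2) := by gcongr
      _ = 2916 * (q : ℝ) ^ 4 * ((L : ℝ) ^ (ε / 2) * (ρ * (EE' μ s b)⁻¹ * (EE' μ s β)⁻¹) ^ 2) := by ring
      _ ≤ (L : ℝ) ^ (ε / 2) * ((L : ℝ) ^ (ε / 2) * (ρ * (EE' μ s b)⁻¹ * (EE' μ s β)⁻¹) ^ 2) :=
          mul_le_mul_of_nonneg_right e3 (by positivity)
      _ = (L : ℝ) ^ ε * (ρ * (EE' μ s b)⁻¹ * (EE' μ s β)⁻¹) ^ 2 := by rw [← mul_assoc, ← Real.rpow_add hL0, add_halves]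
  · rw [← ENNReal.ofReal_mul (by positivity)]
    refine ENNReal.ofReal_le_ofReal (le_trans ?_ (hX L (by omega)))
    refine mul_le_mul_of_nonneg_right ?_ (Real.exp_pos _).le
    have g1 : (q : ℝ) ≤ (L : ℝ) ^ (1 / 4 : ℝ) := hqL.trans (Real.rpow_le_rpow_of_exponent_le hL1 k4)
    have g2 : (q : ℝ) ^ 2 ≤ (L : ℝ) ^ (1 / 2 : ℝ) := by
      calc (q : ℝ) ^ 2 ≤ ((L : ℝ) ^ (1 / 4 : ℝ)) ^ 2 := pow_le_pow_left₀ (Nat.cast_nonneg _) g1 2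
        _ = (L : ℝ) ^ (1 / 2 : ℝ) := by
          rw [← Real.rpow_natCast, ← Real.rpow_mul hL0.le]
          norm_num
    have g3 : (9 : ℝ) ≤ (L : ℝ) ^ (1 / 2 : ℝ) := by
      have h9 : (9 : ℝ) = (81 : ℝ) ^ (1 / 2 : ℝ) := by
        rw [show (81 : ℝ) = 9 ^ (2 : ℝ) by norm_num, ← Real.rpow_mul (by norm_num)]
        norm_num
      rw [h9]
      exact Real.rpow_le_rpow (by norm_num) hL9 (by norm_num)
    calc 9 * (q : ℝ) ^ 2 ≤ (L : ℝ) ^ (1 / 2 : ℝ) * (L : ℝ) ^ (1 / 2 : ℝ) := mul_le_mul g3 g2 (by positivity) (by positivity)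
      _ = (L : ℝ) ^ (1 : ℝ) := by
        rw [← Real.rpow_add hL0]
        norm_num

end Pool.Agent.W_7d29a1_C0.SS3
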