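import Pool.Agent.W_7d29a1_C0.NT51G
import Pool.Agent.W_7d29a1_C0.E3B52

/-!
CURV0 (MP_7d29a1_pr): THE PLACE OF TWO ALTERNATIVES AT SEVERAL LEVELS (helper52). `Adm` = the base path and two alternatives `a`, `b`:
near ties with `a` and `b` at two levels which are two steps apart, or three branches in one window. `pl3_adm`: from `core51` of helper51,
`Adm` is a place `Pl3` of the price `(L ^ ε / EE' e) ^ 2`.
-/

set_option autoImplicit false
set_option linter.unusedSectionVars false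

namespace Pool.W7d29a1.C0.L52

open MeasureTheory ProbabilityTheory Filter Topology Finset
open Pool.Agent.W_7d29a1_F Pool.Agent.W_7d29a1_X Pool.Agent.W_7d29a1_h4g Pool.Agent.W_7d29a1_H
open Pool.Agent.W_7d29a1_HS (In wd md)
open Pool.Agent.W_7d29a1_HZ
open Pool.Agent.W_7d29a1_HZ.Z86
open Pool.Agent.W_7d29a1_C0.P86
open Pool.Agent.W_7d29a1_C0.N51 (Pl3 mc3 On3 pl3_wt P3 P3_mono' P3_or K51 core51)
open scoped ENNReal

noncomputable section

variable {μ : Measure ℝ} {s : ℝ} {N : ℕ}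

/-- The levels: window `[τ n, τ n + t n)`, closings within `H n` on one side, bracket `[c n, d n]`. -/
structure Lvs where
  (τ t H c d : ℕ → ℕ)

/-- One alternative in the window: apart on the first quarter, closings on both sides in `[c, d]`, near on one side. -/
def Cl1 (τ t H c d : ℕ) (S a : Finset ℕ) : Prop :=
  NoMeet τ (τ + t / 4) S a ∧ ∃ i i' : ℕ, (c ≤ i ∧ i ≤ τ ∧ τ + t / 4 ≤ i' ∧ i' ≤ d) ∧ (τ + t / 4 ≤ i + H ∨ i' ≤ τ + H) ∧
    pos S i = pos a i ∧ pos S i' = pos a i'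

theorem Cl1.mono {τ t H c d c' d' : ℕ} {S a : Finset ℕ} (hc : c' ≤ c) (hd : d ≤ d') (h : Cl1 τ t H c d S a) : Cl1 τ t H c' d' S a := by
  obtain ⟨h1, i, i', ⟨h2, h3, h4, h5⟩, h6, h7, h8⟩ := h
  exact ⟨h1, i, i', ⟨hc.trans h2, h3, h4, h5.trans hd⟩, h6, h7, h8⟩

/-- Near ties at two levels. -/
def AdT2 (lv : Lvs) (M c' d' : ℕ) (S a b : Finset ℕ) : Prop :=
  ∃ n < M, ∃ m < M, n + 2 ≤ m ∧
    ((Cl1 (lv.τ n) (lv.t n) (lv.H n) (max (lv.c n) c') (min (lv.d n) d') S a ∧ Cl1 (lv.τ m) (lv.t m) (lv.H m) (lv.c m) (lv.d m) S b) ∨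
      (Cl1 (lv.τ n) (lv.t n) (lv.H n) (lv.c n) (lv.d n) S b ∧ Cl1 (lv.τ m) (lv.t m) (lv.H m) (max (lv.c m) c') (min (lv.d m) d') S a))

/-- Three branches in one window. -/
def AdT3 (N : ℕ) (lv : Lvs) (M c' d' : ℕ) (S a b : Finset ℕ) : Prop :=
  ∃ n < M, Cl1 (lv.τ n) (lv.t n) (lv.H n) c' d' S a ∧ Cl1 (lv.τ n) (lv.t n) (lv.H n) 0 N S b ∧
    NoMeet (lv.τ n) (lv.τ n + lv.t n / 4) a b

/-- The base path and two alternatives, the first one in the block `[c', d')`. -/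
def Adm (N : ℕ) (lv : Lvs) (M c' d' : ℕ) (S a b : Finset ℕ) : Prop := AdT2 lv M c' d' S a b ∨ AdT3 N lv M c' d' S a b

/-! ### The event sees the alternatives in their blocks -/

theorem Cl1_on {τ t H c d c' d' : ℕ} (hc : c' ≤ c) (hd : d ≤ d') {S a a' : Finset ℕ} (h : ∀ i, c' ≤ i → i ≤ d' → pos a i = pos a' i)
    (hC : Cl1 τ t H c d S a) : Cl1 τ t H c d S a' := by
  obtain ⟨h1, i, i', ⟨h2, h3, h4, h5⟩, h6, h7, h8⟩ := hC
  refine ⟨fun j hj1 hj2 => ?_, i, i', ⟨h2, h3, h4, h5⟩, h6, ?_, ?_⟩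
  · rw [← h j (by omega) (by omega)]
    exact h1 j hj1 hj2
  · rw [← h i (by omega) (by omega)]
    exact h7
  · rw [← h i' (by omega) (by omega)]
    exact h8

theorem adm_on_aux {lv : Lvs} {M c' d' : ℕ} (hd' : ∀ n < M, lv.d n ≤ N) {S a a' b b' : Finset ℕ}
    (ha : ∀ i, c' ≤ i → i ≤ d' → pos a i = pos a' i) (hb : ∀ i, 0 ≤ i → i ≤ N → pos b i = pos b' i)
    (h : Adm N lv M c' d' S a b) : Adm N lv M c' d' S a' b' := by
  rcases h with ⟨n, hn, m, hm, hnm, h⟩ | ⟨n, hn, h1, h2, h3⟩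
  · refine Or.inl ⟨n, hn, m, hm, hnm, ?_⟩
    rcases h with ⟨h1, h2⟩ | ⟨h1, h2⟩
    · exact Or.inl ⟨Cl1_on (le_max_right _ _) (min_le_right _ _) ha h1, Cl1_on (Nat.zero_le _) (hd' m hm) hb h2⟩
    · exact Or.inr ⟨Cl1_on (Nat.zero_le _) (hd' n hn) hb h1, Cl1_on (le_max_right _ _) (min_le_right _ _) ha h2⟩
  · refine Or.inr ⟨n, hn, Cl1_on le_rfl le_rfl ha h1, Cl1_on le_rfl le_rfl hb h2, fun j hj1 hj2 => ?_⟩
    obtain ⟨-, i, i', ⟨g2, g3, g4, g5⟩, -⟩ := h1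
    obtain ⟨-, k, k', ⟨f2, f3, f4, f5⟩, -⟩ := h2
    rw [← ha j (by omega) (by omega), ← hb j (by omega) (by omega)]
    exact h3 j hj1 hj2

theorem on3_Adm {lv : Lvs} {M c' d' : ℕ} (hd' : ∀ n < M, lv.d n ≤ N) : On3 c' d' 0 N (Adm N lv M c' d') := fun S a a' b b' ha hb =>
  ⟨adm_on_aux hd' ha hb, adm_on_aux hd' (fun i h1 h2 => (ha i h1 h2).symm) fun i h1 h2 => (hb i h1 h2).symm⟩

/-! ### The place -/

theorem P3_false [IsProbabilityMeasure μ] {y : ℤ} : P3 μ s N y (fun _ _ _ _ => False) = 0 := by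
  unfold Pool.Agent.W_7d29a1_C0.N51.P3
  simp

theorem P3_ex [IsProbabilityMeasure μ] {y : ℤ} {p : ℝ≥0∞} (A : ℕ → Env → Finset ℕ → Finset ℕ → Finset ℕ → Prop) :
    ∀ M : ℕ, (∀ n < M, P3 μ s N y (A n) ≤ p) → P3 μ s N y (fun η S a b => ∃ n < M, A n η S a b) ≤ M * p := by
  intro M
  induction M with
  | zero =>
    intro _
    refine (P3_mono' (B := fun _ _ _ _ => False) fun η S a b _ _ _ _ _ _ h => ?_).trans ?_
    · obtain ⟨n, hn, -⟩ := h
      omega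
    · rw [P3_false]
      exact zero_le
  | succ M ih =>
    intro h
    refine (P3_mono' (B := fun η S a b => (∃ n < M, A n η S a b) ∨ A M η S a b) fun η S a b _ _ _ _ _ _ h => ?_).trans
      ((P3_or _ _).trans ((add_le_add (ih fun n hn => h n (by omega)) (h M (by omega))).trans (le_of_eq ?_)))
    · obtain ⟨n, hn, h1⟩ := h
      rcases Nat.lt_succ_iff_lt_or_eq.1 hn with g | g
      · exact Or.inl ⟨n, g, h1⟩
      · rw [← g]
        exact Or.inr h1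
    · push_cast
      ring

theorem P1_ex [IsProbabilityMeasure μ] {y : ℤ} {ι : Type*} (I : Finset ι) (A : ι → Env → Finset ℕ → Prop) :
    P1 μ s N y (fun η S => ∃ n ∈ I, A n η S) ≤ ∑ n ∈ I, P1 μ s N y (A n) := by
  classical
  unfold P1
  rw [sum_comm]
  refine sum_le_sum fun S _ => ?_
  have e : {η : Env | ∃ n ∈ I, A n η S} = ⋃ n ∈ I, {η | A n η S} := by
    ext η
    simp only [Set.mem_ofPred_eq, Set.mem_iUnion, exists_prop]
  rw [e]
  exact measure_biUnion_finset_le _ _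

/-- **THE PLACE FROM THE CONSTRUCTIONS AT THE LEVELS.** -/
theorem pl3_lev [IsProbabilityMeasure μ] {y : ℤ} {lv : Lvs} {M : ℕ} (hM : 1 ≤ M) (h1 : ∀ n < M, 1 ≤ lv.τ n) (hN : ∀ n < M, lv.τ n + lv.t n ≤ N)
    (hd : ∀ n < M, lv.d n ≤ N) (hsep : ∀ n m, n + 2 ≤ m → m < M → ∀ j ∈ Ico (lv.τ m) (lv.τ m + lv.t m), j ≤ lv.c n ∨ lv.d n < j)
    {r p : ℝ} (hr : 0 ≤ r) (hp : 0 ≤ p) {ρ : ℕ → ℝ} (hρ0 : ∀ n < M, 0 ≤ ρ n) (hρ : ∀ n < M, ρ n ≤ r) {g : ℕ → ℤ}
    {T2 T3 : ℕ → ℕ → ℕ → ℕ → Env → Finset ℕ → Prop} {Gd : ℕ → ℕ → Env → Finset ℕ → Finset ℕ → Finset ℕ → Prop}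
    (hK : ∀ n < M, K51 μ s N (lv.t n) (lv.H n) y (ρ n) p (g n) (T2 n) (T3 n) (Gd n)) (c' d' : ℕ) (hd' : d' ≤ N) {J : Finset ℕ}
    (hJ : ∀ n < M, Ico (lv.τ n) (lv.τ n + lv.t n) ⊆ J) :
    Pl3 μ s N y (ENNReal.ofReal ((2 * (M : ℝ) ^ 2) * r ^ 2)) (ENNReal.ofReal ((M : ℝ) ^ 2 * (r + 2) * p)) (Adm N lv M c' d') J
      (range (N + 1)) := by
  classical
  have hMR : (1 : ℝ) ≤ M := by exact_mod_cast hM
  obtain ⟨NT, hNT⟩ : ∃ NT : Env → Finset ℕ → Prop, NT = fun η S =>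
    (∃ q ∈ (range M ×ˢ range M).filter (fun q => q.1 + 2 ≤ q.2), T2 q.1 (lv.τ q.1) (lv.c q.1) (lv.d q.1) η S ∧
      T2 q.2 (lv.τ q.2) (lv.c q.2) (lv.d q.2) η S) ∨ (∃ n ∈ range M, T3 n (lv.τ n) 0 N η S) := ⟨_, rfl⟩
  have hq : ∀ q ∈ (range M ×ˢ range M).filter (fun q => q.1 + 2 ≤ q.2), q.1 < M ∧ q.2 < M ∧ q.1 + 2 ≤ q.2 := fun q hq => by
    rw [mem_filter, mem_product, mem_range, mem_range] at hq
    exact ⟨hq.1.1, hq.1.2, hq.2⟩
  refine ⟨NT, ?_, ?_, ?_, ?_⟩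
  · -- measurability
    intro S
    have e : {η : Env | NT η S} = (⋃ q ∈ (range M ×ˢ range M).filter (fun q => q.1 + 2 ≤ q.2),
        ({η | T2 q.1 (lv.τ q.1) (lv.c q.1) (lv.d q.1) η S} ∩ {η | T2 q.2 (lv.τ q.2) (lv.c q.2) (lv.d q.2) η S})) ∪
        ⋃ n ∈ range M, {η | T3 n (lv.τ n) 0 N η S} := by
      ext η
      rw [hNT]
      simp only [Set.mem_ofPred_eq, Set.mem_union, Set.mem_iUnion, exists_prop, Set.mem_inter_iff]
    rw [e]
    refine MeasurableSet.union (Finset.measurableSet_biUnion _ fun q hq' => ?_) (Finset.measurableSet_biUnion _ fun n hn => ?_)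
    · obtain ⟨q1, q2, -⟩ := hq q hq'
      exact ((hK _ q1).ms2 _ _ _ S).inter ((hK _ q2).ms2 _ _ _ S)
    · exact (hK n (mem_range.1 hn)).ms3 _ _ _ S
  · -- rows
    intro J' hJ' η η' S hηη
    have hj : ∀ j ∈ J', N < j := fun j hj => by
      by_contra hcon
      exact disjoint_left.1 hJ' hj (mem_range.2 (by omega))
    rw [hNT]
    refine or_congr (exists_congr fun q => and_congr_right fun hq' => ?_) (exists_congr fun n => and_congr_right fun hn => ?_)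
    · obtain ⟨q1, q2, -⟩ := hq q hq'
      exact and_congr ((hK _ q1).off2 _ _ _ J' (fun j hj' => Or.inr ((hd _ q1).trans_lt (hj j hj'))) η η' S hηη)
        ((hK _ q2).off2 _ _ _ J' (fun j hj' => Or.inr ((hd _ q2).trans_lt (hj j hj'))) η η' S hηη)
    · exact (hK n (mem_range.1 hn)).off3 _ _ _ J' (fun j hj' => Or.inr (hj j hj')) η η' S hηη
  · -- production
    have e1 : P3 μ s N y (fun η S a b => Adm N lv M c' d' S a b ∧ ¬ NT η S) ≤
        P3 μ s N y (fun η S a b => ∃ n < M, ¬ Gd n (lv.τ n) η S a b) := by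
      refine P3_mono' fun η S a b _ _ _ _ _ _ hev => ?_
      obtain ⟨hA, hn⟩ := hev
      by_contra hcon
      push Not at hcon
      refine hn ?_
      rw [hNT]
      have one : ∀ n < M, ∀ c d, d ≤ N → ∀ S a b, Gd n (lv.τ n) η S a b → Cl1 (lv.τ n) (lv.t n) (lv.H n) c d S a →
          T2 n (lv.τ n) c d η S := by
        intro n hn' c d hdN S a b hG hC
        obtain ⟨g1, i, i', ⟨g2, g3, g4, g5⟩, g6, g7, g8⟩ := hC
        obtain ⟨i₀, k1, k2, k3⟩ := (hK n hn').sepS (lv.τ n) η S a b (hN n hn') hG g1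
        refine (hK n hn').one (lv.τ n) c d η S a b i₀ i i' (h1 n hn') (hN n hn') hdN hG k1 k2 ?_ g2 (g3.trans k1) (k2.trans g4) g5
          (g6.imp (fun g => k2.trans g) fun g => g.trans (Nat.add_le_add_right k1 _)) g7 g8
        have := abs_nonneg (pos S i₀ - pos a i₀)
        omega
      rcases hA with ⟨n, hn', m, hm, hnm, hA⟩ | ⟨n, hn', hA1, hA2, hA3⟩
      · refine Or.inl ⟨(n, m), ?_, ?_⟩
        · rw [mem_filter, mem_product, mem_range, mem_range]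
          exact ⟨⟨hn', hm⟩, hnm⟩
        · rcases hA with ⟨hA1, hA2⟩ | ⟨hA1, hA2⟩
          · exact ⟨one n hn' _ _ (hd n hn') S a b (hcon n hn') (hA1.mono (le_max_left _ _) (min_le_left _ _)),
              one m hm _ _ (hd m hm) S b a ((hK m hm).swp _ _ _ _ _ (hcon m hm)) hA2⟩
          · exact ⟨one n hn' _ _ (hd n hn') S b a ((hK n hn').swp _ _ _ _ _ (hcon n hn')) hA1,
              one m hm _ _ (hd m hm) S a b (hcon m hm) (hA2.mono (le_max_left _ _) (min_le_left _ _))⟩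
      · refine Or.inr ⟨n, mem_range.2 hn', ?_⟩
        obtain ⟨g1, i, i', ⟨g2, g3, g4, g5⟩, g6, g7, g8⟩ := hA1
        obtain ⟨f1, k, k', ⟨f2, f3, f4, f5⟩, f6, f7, f8⟩ := hA2
        exact (hK n hn').two (lv.τ n) 0 N η S a b i i' k k' (h1 n hn') (hN n hn') le_rfl (hcon n hn') g1 f1 hA3 (Nat.zero_le _) g3 g4
          (g5.trans hd') g6 g7 g8 (Nat.zero_le _) f3 f4 f5 f6 f7 f8
    refine e1.trans ((P3_ex (p := ENNReal.ofReal p) _ M fun n hn => (hK n hn).good _).trans ?_)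
    rw [← ENNReal.ofReal_natCast, ← ENNReal.ofReal_mul (Nat.cast_nonneg _)]
    refine ENNReal.ofReal_le_ofReal (mul_le_mul_of_nonneg_right ?_ hp)
    nlinarith
  · -- the price
    intro F hF hFo
    have hFn : ∀ n < M, OffRows (Ico (lv.τ n) (lv.τ n + lv.t n)) F := fun n hn η η' S hq' =>
      hFo η η' S fun q hq'' => hq' q fun hc => hq'' ⟨hc.1, hJ n hn hc.2⟩
    have hrr : ∀ n < M, ENNReal.ofReal (ρ n) ≤ ENNReal.ofReal r := fun n hn => ENNReal.ofReal_le_ofReal (hρ n hn)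
    have p2 : ∀ q ∈ (range M ×ˢ range M).filter (fun q => q.1 + 2 ≤ q.2), P1 μ s N y (fun η S => F η S ∧
        (T2 q.1 (lv.τ q.1) (lv.c q.1) (lv.d q.1) η S ∧ T2 q.2 (lv.τ q.2) (lv.c q.2) (lv.d q.2) η S)) ≤
        ENNReal.ofReal (r ^ 2) * P1 μ s N y F + ENNReal.ofReal ((r + 1) * p) := by
      intro q hq'
      obtain ⟨q1, q2, q3⟩ := hq q hq'
      have a1 := (hK _ q2).pr2 (lv.τ q.2) (lv.c q.2) (lv.d q.2) (fun η S => F η S ∧ T2 q.1 (lv.τ q.1) (lv.c q.1) (lv.d q.1) η S)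
        (fun S => (hF S).inter ((hK _ q1).ms2 _ _ _ S)) (fun η η' S hηη => and_congr (hFn _ q2 η η' S hηη)
          ((hK _ q1).off2 _ _ _ _ (hsep q.1 q.2 q3 q2) η η' S hηη))
      have a2 := (hK _ q1).pr2 (lv.τ q.1) (lv.c q.1) (lv.d q.1) F hF (hFn _ q1)
      have e : (fun η S => F η S ∧ (T2 q.1 (lv.τ q.1) (lv.c q.1) (lv.d q.1) η S ∧ T2 q.2 (lv.τ q.2) (lv.c q.2) (lv.d q.2) η S)) =
          fun η S => (F η S ∧ T2 q.1 (lv.τ q.1) (lv.c q.1) (lv.d q.1) η S) ∧ T2 q.2 (lv.τ q.2) (lv.c q.2) (lv.d q.2) η S := by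
        funext η S
        rw [and_assoc]
      rw [e]
      calc _ ≤ ENNReal.ofReal (ρ q.2) * P1 μ s N y (fun η S => F η S ∧ T2 q.1 (lv.τ q.1) (lv.c q.1) (lv.d q.1) η S) + ENNReal.ofReal p := a1
        _ ≤ ENNReal.ofReal r * (ENNReal.ofReal r * P1 μ s N y F + ENNReal.ofReal p) + ENNReal.ofReal p :=
            add_le_add (mul_le_mul' (hrr _ q2) (a2.trans (add_le_add (mul_le_mul' (hrr _ q1) le_rfl) le_rfl))) le_rfl
        _ = ENNReal.ofReal (r ^ 2) * P1 μ s N y F + ENNReal.ofReal ((r + 1) * p) := by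
            rw [mul_add, ← mul_assoc, ← ENNReal.ofReal_mul hr, ← ENNReal.ofReal_mul hr, add_assoc,
              ← ENNReal.ofReal_add (mul_nonneg hr hp) hp]
            congr 2
            · rw [sq]
            · ring
    have p3 : ∀ n ∈ range M, P1 μ s N y (fun η S => F η S ∧ T3 n (lv.τ n) 0 N η S) ≤
        ENNReal.ofReal (r ^ 2) * P1 μ s N y F + ENNReal.ofReal p := by
      intro n hn
      have hn' := mem_range.1 hn
      refine ((hK n hn').pr3 (lv.τ n) 0 N F hF (hFn n hn')).trans (add_le_add (mul_le_mul' (ENNReal.ofReal_le_ofReal ?_) le_rfl) le_rfl)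
      exact pow_le_pow_left₀ (hρ0 n hn') (hρ n hn') 2
    have e0 : P1 μ s N y (fun η S => F η S ∧ NT η S) ≤
        ∑ q ∈ (range M ×ˢ range M).filter (fun q => q.1 + 2 ≤ q.2), P1 μ s N y (fun η S => F η S ∧
          (T2 q.1 (lv.τ q.1) (lv.c q.1) (lv.d q.1) η S ∧ T2 q.2 (lv.τ q.2) (lv.c q.2) (lv.d q.2) η S)) +
        ∑ n ∈ range M, P1 μ s N y (fun η S => F η S ∧ T3 n (lv.τ n) 0 N η S) := by
      have b1 := P1_ex (μ := μ) (s := s) (N := N) (y := y) ((range M ×ˢ range M).filter (fun q => q.1 + 2 ≤ q.2))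
        (fun q η S => F η S ∧ (T2 q.1 (lv.τ q.1) (lv.c q.1) (lv.d q.1) η S ∧ T2 q.2 (lv.τ q.2) (lv.c q.2) (lv.d q.2) η S))
      have b2 := P1_ex (μ := μ) (s := s) (N := N) (y := y) (range M) (fun n η S => F η S ∧ T3 n (lv.τ n) 0 N η S)
      have b3 := Pool.Agent.W_7d29a1_HZ.A12.P1_or (μ := μ) (s := s) (N := N) (y := y)
        (fun η S => ∃ q ∈ (range M ×ˢ range M).filter (fun q => q.1 + 2 ≤ q.2), F η S ∧
          (T2 q.1 (lv.τ q.1) (lv.c q.1) (lv.d q.1) η S ∧ T2 q.2 (lv.τ q.2) (lv.c q.2) (lv.d q.2) η S))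
        (fun η S => ∃ n ∈ range M, F η S ∧ T3 n (lv.τ n) 0 N η S)
      refine le_trans ?_ (b3.trans (add_le_add b1 b2))
      refine Pool.Agent.W_7d29a1_HZ.A12.P1_mono' fun η S _ _ hev => ?_
      obtain ⟨hf, hnt⟩ := hev
      rw [hNT] at hnt
      rcases hnt with ⟨q, hq', h⟩ | ⟨n, hn, h⟩
      · exact Or.inl ⟨q, hq', hf, h⟩
      · exact Or.inr ⟨n, hn, hf, h⟩
    refine e0.trans ((add_le_add (sum_le_sum p2) (sum_le_sum p3)).trans ?_)
    rw [sum_const, sum_const, card_range, nsmul_eq_mul, nsmul_eq_mul]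
    have hc : (((range M ×ˢ range M).filter (fun q => q.1 + 2 ≤ q.2)).card : ℝ≥0∞) ≤ ENNReal.ofReal ((M : ℝ) ^ 2) := by
      have g1 : ((range M ×ˢ range M).filter (fun q => q.1 + 2 ≤ q.2)).card ≤ M * M := by
        refine (card_filter_le _ _).trans ?_
        rw [card_product, card_range]
      have g2 : (((range M ×ˢ range M).filter (fun q => q.1 + 2 ≤ q.2)).card : ℝ≥0∞) ≤ ((M * M : ℕ) : ℝ≥0∞) := by exact_mod_cast g1
      refine g2.trans (le_of_eq ?_)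
      rw [← ENNReal.ofReal_natCast]
      congr 1
      push_cast
      ring
    have hc2 : (M : ℝ≥0∞) ≤ ENNReal.ofReal ((M : ℝ) ^ 2) := by
      rw [← ENNReal.ofReal_natCast]
      exact ENNReal.ofReal_le_ofReal (by nlinarith)
    calc _ ≤ ENNReal.ofReal ((M : ℝ) ^ 2) * (ENNReal.ofReal (r ^ 2) * P1 μ s N y F + ENNReal.ofReal ((r + 1) * p)) +
          ENNReal.ofReal ((M : ℝ) ^ 2) * (ENNReal.ofReal (r ^ 2) * P1 μ s N y F + ENNReal.ofReal p) :=
          add_le_add (mul_le_mul' hc le_rfl) (mul_le_mul' hc2 le_rfl)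
      _ = ENNReal.ofReal ((2 * (M : ℝ) ^ 2) * r ^ 2) * P1 μ s N y F + ENNReal.ofReal ((M : ℝ) ^ 2 * (r + 2) * p) := by
          have x1 : ENNReal.ofReal ((2 * (M : ℝ) ^ 2) * r ^ 2) = 2 * (ENNReal.ofReal ((M : ℝ) ^ 2) * ENNReal.ofReal (r ^ 2)) := by
            rw [← ENNReal.ofReal_mul (by positivity), ← ENNReal.ofReal_ofNat, ← ENNReal.ofReal_mul (by norm_num)]
            congr 1
            ring
          have x2 : ENNReal.ofReal ((M : ℝ) ^ 2 * (r + 2) * p) = ENNReal.ofReal ((M : ℝ) ^ 2) * ENNReal.ofReal ((r + 1) * p) +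
              ENNReal.ofReal ((M : ℝ) ^ 2) * ENNReal.ofReal p := by
            rw [← ENNReal.ofReal_mul (by positivity), ← ENNReal.ofReal_mul (by positivity), ← ENNReal.ofReal_add (by positivity) (by positivity)]
            congr 1
            ring
          rw [x1, x2]
          ring

end

end Pool.W7d29a1.C0.L52
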