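import Pool.Agent.W_7d29a1_C0.Ins52B
import Pool.Agent.W_7d29a1_C0.BoxS41

/-!
CURV0 (MP_7d29a1_pr), leaves GS5, T.d, E2: THE LOCALISED SLAB STEPS FOR A PLAN OF REPLICAS (`ins P`, `ins2 P` of Ins52), fields of any
direction, signed remainders box by box; and their absolute forms (replicas and shadows, no superfluous shadow). (helper41)
-/

set_option autoImplicit false
set_option linter.unusedSectionVars false
set_option linter.unusedVariables false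

namespace Pool.W7d29a1.C0.H41

open MeasureTheory ProbabilityTheory Filter Topology Finset
open Pool.Agent.W_7d29a1_F Pool.Agent.W_7d29a1_C0.H32 Pool.W7d29a1.C0
open Pool.W7d29a1.C0.R63 (DF GF Sd Bl est_oneD est_twoD one_id ibpG2)
open Pool.W7d29a1.C0.I52 (Plan KS dn ks_ev ks_ins)

noncomputable section

variable {X : Type*} [Fintype X] [DecidableEq X] [Nonempty X] {B : Type*} [Fintype B] [DecidableEq B] {m : ℕ}
  {μ : Measure ℝ} {f f' : ℝ → ℝ}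

/-! ### Observables of a plan -/

theorem obs_dn {Ψ : Env → (Fin m → X) → ℝ} {D : ℝ} (h : Obs Ψ D) {T : Env → X → ℝ} (hT : Measurable T) {τ : ℝ}
    (hτ : ∀ η y, |T η y| ≤ τ) (i : Fin m) : Obs (fun η => dn (T η) i (Ψ η)) (D * (2 * τ)) := by
  refine ⟨measurable_pi_lambda _ fun x => ?_, fun η x => I52.abs_dn_le (hτ η) i (h.bd η) x⟩
  unfold dn
  exact ((measurable_pi_apply _).comp h.meas).mul (((measurable_pi_apply _).comp hT).sub ((measurable_pi_apply _).comp hT))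

theorem memLp_ins [IsProbabilityMeasure μ] (P : Plan X m) {Ψ : Env → (Fin m → X) → ℝ} {D : ℝ} (h : Obs Ψ D)
    {T : Env → X → ℝ} (hT : Measurable T) {τ : ℝ} (hτ : ∀ η y, |T η y| ≤ τ) {w : Env → X → ℝ} (hw : Measurable w) :
    MemLp (fun η => I52.ins P (w η) (T η) (Ψ η)) 2 (law μ) := by
  unfold I52.ins
  refine memLp_finsetSum _ fun i _ => ?_
  have := (obs_dn h hT hτ i).memLp (μ := μ) (P.sh i).ks.toEv hw
  simpa only [ks_ev] using this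

theorem int_ins [IsProbabilityMeasure μ] (P : Plan X m) {Ψ : Env → (Fin m → X) → ℝ} {D : ℝ} (h : Obs Ψ D)
    {T : Env → X → ℝ} (hT : Measurable T) {τ : ℝ} (hτ : ∀ η y, |T η y| ≤ τ) {w : Env → X → ℝ} (hw : Measurable w) :
    Integrable (fun η => I52.ins P (w η) (T η) (Ψ η)) (law μ) :=
  (memLp_ins P h hT hτ hw).integrable (by norm_num)

theorem int_ins2 [IsProbabilityMeasure μ] (P : Plan X m) {Ψ : Env → (Fin m → X) → ℝ} {D : ℝ} (h : Obs Ψ D)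
    {T1 T2 : Env → X → ℝ} (hT1 : Measurable T1) (hT2 : Measurable T2) {τ1 τ2 : ℝ} (hτ1 : ∀ η y, |T1 η y| ≤ τ1)
    (hτ2 : ∀ η y, |T2 η y| ≤ τ2) {w : Env → X → ℝ} (hw : Measurable w) :
    Integrable (fun η => I52.ins2 P (w η) (T1 η) (T2 η) (Ψ η)) (law μ) := by
  unfold I52.ins2
  exact integrable_finsetSum _ fun i _ => int_ins (P.sh i) (obs_dn h hT2 hτ2 i) hT1 hτ1 hw

theorem int_evP [IsProbabilityMeasure μ] (P : Plan X m) {Ψ : Env → (Fin m → X) → ℝ} {D : ℝ} (h : Obs Ψ D)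
    {w : Env → X → ℝ} (hw : Measurable w) : Integrable (fun η => I52.ev P (w η) (Ψ η)) (law μ) := by
  have := h.int (μ := μ) P.ks.toEv hw
  simpa only [ks_ev] using this

/-! ### One derivative -/

/-- **ONE DERIVATIVE OF A PLAN, LOCALISED, SIGNED REMAINDER.** -/
theorem planOne [IsProbabilityMeasure μ] (P : Plan X m) (h : DenLaw μ f f') {K θ0 : ℝ} (hs : SG μ (sc f f') K θ0)
    {bk : Bool} {S : Finset Pt} {c : Pt → Env → ℝ} {M V D D1 τ Q : ℝ} {χ : (Fin m → B) → Pt → ℝ} (sl : SlD bk S c M χ Q)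
    {w : Env → X → ℝ} {N : Pt → X → ℝ} (hw : Wt S w N V) {Ψ : Env → (Fin m → X) → ℝ} {Ψ' : Pt → Env → (Fin m → X) → ℝ}
    (hΨ : Obs Ψ D) (hΨ' : ∀ p ∈ S, Obs (Ψ' p) D1) (hd : Sd S Ψ Ψ') {T : Env → X → ℝ} (hT : Measurable T)
    (hτ : ∀ η y, |T η y| ≤ τ) (b : X → B) {t a : ℝ} (ht : 0 < t) (ha : 0 ≤ a) (htM : t * M ≤ θ0) :
    |∫ η, I52.ins P (w η) (T η) (Ψ η) ∂(law μ)| ≤
      a * ∫ η, I52.ev P (w η) (fun x => |Ψ η x|) ∂(law μ) + (Fintype.card (Fin m → B) : ℝ) * tail1 K D t a Q +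
      ∑ β : Fin m → B, |∫ η, I52.ins P (w η) (T η - H19.Cf S (cut (χ β) c) N η) (lcG b β (Ψ η)) ∂(law μ)| +
      ∑ β : Fin m → B, |∫ η, ∑ p ∈ S, cut (χ β) c p η * I52.ev P (w η) (lcG b β (Ψ' p η)) ∂(law μ)| := by
  have k := oneS P.ks.dr h hs sl hw hΨ hΨ' hd hT hτ b ht ha htM
  simp only [ks_ins, ks_ev] at k
  exact k

/-- The same, blind observable. -/
theorem planOne_blind [IsProbabilityMeasure μ] (P : Plan X m) (h : DenLaw μ f f') {K θ0 : ℝ} (hs : SG μ (sc f f') K θ0)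
    {bk : Bool} {S : Finset Pt} {c : Pt → Env → ℝ} {M V D τ Q : ℝ} {χ : (Fin m → B) → Pt → ℝ} (sl : SlD bk S c M χ Q)
    {w : Env → X → ℝ} {N : Pt → X → ℝ} (hw : Wt S w N V) {Ψ : Env → (Fin m → X) → ℝ}
    (hΨ : Obs Ψ D) (hbl : ∀ q ∈ S, ∀ (η : Env) (x : ℝ), Ψ (Function.update η q x) = Ψ η) {T : Env → X → ℝ}
    (hT : Measurable T) (hτ : ∀ η y, |T η y| ≤ τ) (b : X → B) {t a : ℝ} (ht : 0 < t) (ha : 0 ≤ a) (htM : t * M ≤ θ0) :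
    |∫ η, I52.ins P (w η) (T η) (Ψ η) ∂(law μ)| ≤
      a * ∫ η, I52.ev P (w η) (fun x => |Ψ η x|) ∂(law μ) + (Fintype.card (Fin m → B) : ℝ) * tail1 K D t a Q +
      ∑ β : Fin m → B, |∫ η, I52.ins P (w η) (T η - H19.Cf S (cut (χ β) c) N η) (lcG b β (Ψ η)) ∂(law μ)| := by
  have k := oneS_blind P.ks.dr h hs sl hw hΨ hbl hT hτ b ht ha htM
  simp only [ks_ins, ks_ev] at k
  exact k

/-! ### Two derivatives -/

/-- Two derivatives of a plan, one box. -/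
theorem planTwo_box [IsProbabilityMeasure μ] (P : Plan X m) (h : DenLaw μ f f') {K θ0 : ℝ}
    (hs : SG μ (sc f f') K θ0) {bk1 bk2 : Bool} {S1 S2 : Finset Pt} (hd12 : Disjoint S1 S2) {c1 c2 : Pt → Env → ℝ}
    {M1 M2 V D D1 D2 τ1 τ2 Q1 Q2 : ℝ} {χ1 χ2 : (Fin m → B) → Pt → ℝ} (s1 : SlD bk1 S1 c1 M1 χ1 Q1)
    (s2 : SlD bk2 S2 c2 M2 χ2 Q2)
    (h12 : ∀ q1 ∈ S1, ∀ q2 ∈ S2, ∀ (η : Env) (x : ℝ), c1 q1 (Function.update η q2 x) = c1 q1 η)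
    {w : Env → X → ℝ} {N : Pt → X → ℝ} (hw1 : Wt S1 w N V) (hw2 : Wt S2 w N V) {Ψ : Env → (Fin m → X) → ℝ}
    {Ψ1 Ψ2 : Pt → Env → (Fin m → X) → ℝ} (hΨ : Obs Ψ D) (hΨ1 : ∀ p ∈ S1, Obs (Ψ1 p) D1) (hΨ2 : ∀ p ∈ S2, Obs (Ψ2 p) D2)
    (hd1 : Sd S1 Ψ Ψ1) (hd2 : Sd S2 Ψ Ψ2) {T1 T2 : Env → X → ℝ} (mT1 : Measurable T1) (mT2 : Measurable T2)
    (bT1 : ∀ η y, |T1 η y| ≤ τ1) (bT2 : ∀ η y, |T2 η y| ≤ τ2) (hTb : Bl S1 T2) (hM2 : 0 ≤ M2) (hD2 : 0 ≤ D2)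
    (b : X → B) (β : Fin m → B) {t1 t2 a1 a2 : ℝ} (q1 : 0 < t1) (q2 : 0 < t2) (ha1 : 0 ≤ a1) (ha2 : 0 ≤ a2)
    (r1 : 2 * t1 * M1 ≤ θ0) (r2 : 2 * t2 * M2 ≤ θ0) :
    |∫ η, I52.ins2 P (w η) (T1 η) (T2 η) (lcG b β (Ψ η)) ∂(law μ)| ≤
      a1 * a2 * ∫ η, |I52.ev P (w η) (lcG b β (Ψ η))| ∂(law μ) + tail2 K D t1 t2 a1 a2 Q1 Q2 +
      (a1 * ∫ η, |I52.ins P (w η) (T2 η - H19.Cf S2 (cut (χ2 β) c2) N η) (lcG b β (Ψ η))| ∂(law μ) +
        tail1 K (m * (D * (2 * (τ2 + S2.card * (M2 * V))))) t1 a1 Q1) +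
      (a1 * ∫ η, |∑ p ∈ S2, cut (χ2 β) c2 p η * I52.ev P (w η) (lcG b β (Ψ2 p η))| ∂(law μ) +
        tail1 K (S2.card * (M2 * D2)) t1 a1 Q1) +
      ∑ i, |∫ η, I52.ins (P.sh i) (w η) (T1 η - H19.Cf S1 (cut (χ1 β) c1) N η) (dn (T2 η) i (lcG b β (Ψ η))) ∂(law μ)| +
      |∫ η, ∑ p ∈ S1, cut (χ1 β) c1 p η * I52.ins P (w η) (T2 η) (lcG b β (Ψ1 p η)) ∂(law μ)| := by
  have oΨ := hΨ.lc b β
  have oΨ1 : ∀ p ∈ S1, Obs (fun η => lcG b β (Ψ1 p η)) D1 := fun p hp => (hΨ1 p hp).lc b β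
  have oΨ2 : ∀ p ∈ S2, Obs (fun η => lcG b β (Ψ2 p η)) D2 := fun p hp => (hΨ2 p hp).lc b β
  have g1 := (s1.cutDF β).gf hs
  have g2 := (s2.cutDF β).gf hs
  have hw := hw1.meas
  have k12 : ∀ p ∈ S1, ∀ q ∈ S2, ∀ (η : Env) (x : ℝ), cut (χ1 β) c1 p (Function.update η q x) = cut (χ1 β) c1 p η :=
    fun p hp q hq η x => by
      unfold cut
      rw [h12 p hp q hq]
  have mSS : MemLp (fun η => SS (sc f f') S1 (cut (χ1 β) c1) η) 2 (law μ) := g1.memLp hs.1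
  have hC1 := meas_Cf (s1.cutDF β).meas N
  have hC1b : ∀ η y, |H19.Cf S1 (cut (χ1 β) c1) N η y| ≤ S1.card * (M1 * V) := fun η y =>
    abs_Cf_le (s1.cutDF β).bd hw1.bd η y
  -- the first slab, for each shadow
  have o1 : ∀ i : Fin m, Obs (fun η => dn (T2 η) i (lcG b β (Ψ η))) (D * (2 * τ2)) := fun i => obs_dn oΨ mT2 bT2 i
  have o1' : ∀ i : Fin m, ∀ p ∈ S1, Obs (fun η => dn (T2 η) i (lcG b β (Ψ1 p η))) (D1 * (2 * τ2)) := fun i p hp =>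
    obs_dn (oΨ1 p hp) mT2 bT2 i
  have hd' : ∀ i : Fin m, Sd S1 (fun η => dn (T2 η) i (lcG b β (Ψ η))) fun p η => dn (T2 η) i (lcG b β (Ψ1 p η)) :=
    fun i p hp η x y => by
      unfold dn
      have e : ∀ t : ℝ, T2 (Function.update η p t) = T2 η := fun t => hTb p hp η t
      simp only [e]
      exact (Sd_lc hd1 b β p hp η x _).mul_const _
  have k1 : ∀ i : Fin m, ∫ η, I52.ins (P.sh i) (w η) (T1 η) (dn (T2 η) i (lcG b β (Ψ η))) ∂(law μ) =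
      ∫ η, I52.ev (P.sh i) (w η) (dn (T2 η) i (lcG b β (Ψ η))) * SS (sc f f') S1 (cut (χ1 β) c1) η ∂(law μ) +
      ∫ η, I52.ins (P.sh i) (w η) (T1 η - H19.Cf S1 (cut (χ1 β) c1) N η) (dn (T2 η) i (lcG b β (Ψ η))) ∂(law μ) -
      ∫ η, ∑ p ∈ S1, cut (χ1 β) c1 p η * I52.ev (P.sh i) (w η) (dn (T2 η) i (lcG b β (Ψ1 p η))) ∂(law μ) := fun i => by
    have k := one_id (P.sh i).ks.dr h g1 hw1 (o1 i) (o1' i) (hd' i) mT1 bT1
    simp only [ks_ins, ks_ev] at k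
    exact k
  have iev : ∀ i : Fin m, Integrable (fun η => I52.ev (P.sh i) (w η) (dn (T2 η) i (lcG b β (Ψ η))) *
      SS (sc f f') S1 (cut (χ1 β) c1) η) (law μ) := fun i => by
    have := (o1 i).memLp (μ := μ) (P.sh i).ks.toEv hw
    simp only [ks_ev] at this
    exact this.integrable_mul mSS
  have iev' : ∀ i : Fin m, Integrable (fun η => ∑ p ∈ S1, cut (χ1 β) c1 p η *
      I52.ev (P.sh i) (w η) (dn (T2 η) i (lcG b β (Ψ1 p η)))) (law μ) := fun i => by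
    have := (R63.int_c_ev (μ := μ) g1 (P.sh i).ks.toEv hw (o1' i)).integrable (by norm_num)
    simpa only [ks_ev] using this
  have e0 : ∫ η, I52.ins2 P (w η) (T1 η) (T2 η) (lcG b β (Ψ η)) ∂(law μ) =
      ∫ η, I52.ins P (w η) (T2 η) (lcG b β (Ψ η)) * SS (sc f f') S1 (cut (χ1 β) c1) η ∂(law μ) +
      ∑ i, ∫ η, I52.ins (P.sh i) (w η) (T1 η - H19.Cf S1 (cut (χ1 β) c1) N η) (dn (T2 η) i (lcG b β (Ψ η))) ∂(law μ) -
      ∫ η, ∑ p ∈ S1, cut (χ1 β) c1 p η * I52.ins P (w η) (T2 η) (lcG b β (Ψ1 p η)) ∂(law μ) := by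
    have u1 : ∫ η, I52.ins2 P (w η) (T1 η) (T2 η) (lcG b β (Ψ η)) ∂(law μ) =
        ∑ i, ∫ η, I52.ins (P.sh i) (w η) (T1 η) (dn (T2 η) i (lcG b β (Ψ η))) ∂(law μ) := by
      unfold I52.ins2
      exact integral_finsetSum _ fun i _ => int_ins (P.sh i) (o1 i) mT1 bT1 hw
    have u2 : ∫ η, I52.ins P (w η) (T2 η) (lcG b β (Ψ η)) * SS (sc f f') S1 (cut (χ1 β) c1) η ∂(law μ) =
        ∑ i, ∫ η, I52.ev (P.sh i) (w η) (dn (T2 η) i (lcG b β (Ψ η))) *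
          SS (sc f f') S1 (cut (χ1 β) c1) η ∂(law μ) := by
      rw [← integral_finsetSum _ fun i _ => iev i]
      refine integral_congr_ae (ae_of_all _ fun η => ?_)
      show I52.ins P (w η) (T2 η) (lcG b β (Ψ η)) * _ = ∑ i, I52.ev (P.sh i) (w η) (dn (T2 η) i (lcG b β (Ψ η))) * _
      unfold I52.ins
      rw [Finset.sum_mul]
    have u3 : ∫ η, ∑ p ∈ S1, cut (χ1 β) c1 p η * I52.ins P (w η) (T2 η) (lcG b β (Ψ1 p η)) ∂(law μ) =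
        ∑ i, ∫ η, ∑ p ∈ S1, cut (χ1 β) c1 p η *
          I52.ev (P.sh i) (w η) (dn (T2 η) i (lcG b β (Ψ1 p η))) ∂(law μ) := by
      rw [← integral_finsetSum _ fun i _ => iev' i]
      refine integral_congr_ae (ae_of_all _ fun η => ?_)
      show ∑ p ∈ S1, cut (χ1 β) c1 p η * I52.ins P (w η) (T2 η) (lcG b β (Ψ1 p η)) =
        ∑ i, ∑ p ∈ S1, cut (χ1 β) c1 p η * I52.ev (P.sh i) (w η) (dn (T2 η) i (lcG b β (Ψ1 p η)))
      rw [Finset.sum_comm]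
      unfold I52.ins
      exact Finset.sum_congr rfl fun p _ => Finset.mul_sum _ _ _
    rw [u1, u2, u3, Finset.sum_congr rfl fun i _ => k1 i, Finset.sum_sub_distrib, Finset.sum_add_distrib]
  rw [e0]
  refine (abs_sub _ _).trans (add_le_add ((abs_add_le _ _).trans (add_le_add ?_ (Finset.abs_sum_le_sum_abs _ _))) le_rfl)
  -- the second slab
  have hC := meas_Cf (s2.cutDF β).meas N
  have hCb : ∀ η y, |H19.Cf S2 (cut (χ2 β) c2) N η y| ≤ S2.card * (M2 * V) := fun η y =>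
    abs_Cf_le (s2.cutDF β).bd hw2.bd η y
  have mR : Measurable fun η => T2 η - H19.Cf S2 (cut (χ2 β) c2) N η := mT2.sub hC
  have bR : ∀ η y, |(T2 η - H19.Cf S2 (cut (χ2 β) c2) N η) y| ≤ τ2 + S2.card * (M2 * V) := fun η y =>
    (abs_sub _ _).trans (add_le_add (bT2 η y) (hCb η y))
  have k2 := ibpG2 P.ks.dr h hd12 g1 g2 k12 hw2 oΨ oΨ2 (Sd_lc hd2 b β)
  simp only [ks_ins, ks_ev] at k2
  have k3 : ∫ η, I52.ins P (w η) (T2 η) (lcG b β (Ψ η)) * SS (sc f f') S1 (cut (χ1 β) c1) η ∂(law μ) =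
      ∫ η, I52.ins P (w η) (H19.Cf S2 (cut (χ2 β) c2) N η) (lcG b β (Ψ η)) *
        SS (sc f f') S1 (cut (χ1 β) c1) η ∂(law μ) +
        ∫ η, I52.ins P (w η) (T2 η - H19.Cf S2 (cut (χ2 β) c2) N η) (lcG b β (Ψ η)) *
          SS (sc f f') S1 (cut (χ1 β) c1) η ∂(law μ) := by
    have i5 : Integrable (fun η => I52.ins P (w η) (H19.Cf S2 (cut (χ2 β) c2) N η) (lcG b β (Ψ η)) *
        SS (sc f f') S1 (cut (χ1 β) c1) η) (law μ) := (memLp_ins P oΨ hC hCb hw).integrable_mul mSS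
    have i6 : Integrable (fun η => I52.ins P (w η) (T2 η - H19.Cf S2 (cut (χ2 β) c2) N η) (lcG b β (Ψ η)) *
        SS (sc f f') S1 (cut (χ1 β) c1) η) (law μ) := (memLp_ins P oΨ mR bR hw).integrable_mul mSS
    rw [← integral_add i5 i6]
    refine integral_congr_ae (ae_of_all _ fun η => ?_)
    show I52.ins P (w η) (T2 η) (lcG b β (Ψ η)) * _ = I52.ins P (w η) (H19.Cf S2 (cut (χ2 β) c2) N η) (lcG b β (Ψ η)) * _ +
      I52.ins P (w η) (T2 η - H19.Cf S2 (cut (χ2 β) c2) N η) (lcG b β (Ψ η)) * _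
    rw [I52.ins_subB]
    ring
  rw [k3, eq_sub_of_add_eq k2]
  have r1' : t1 * M1 ≤ θ0 := by nlinarith [mul_nonneg q1.le s1.pos]
  have bev : ∀ η, |I52.ev P (w η) (lcG b β (Ψ η))| ≤ D := fun η => I52.abs_ev_le_of P (w η) (oΨ.bd η)
  have f1 := est_twoD hs (s1.cutDF β) (s2.cutDF β) s1.pos hM2 q1 q2 r1 r2 (s1.qv β) (s2.qv β) ha1 ha2
    (int_evP P oΨ hw) bev
  have f2 := est_oneD hs (s1.cutDF β) s1.pos (a := a1) q1 r1' (s1.qv β) (int_ins P oΨ mR bR hw)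
    fun η => I52.abs_ins_le_of P (w η) (bR η) (oΨ.bd η)
  have m3 : Integrable (fun η => ∑ p ∈ S2, cut (χ2 β) c2 p η * I52.ev P (w η) (lcG b β (Ψ2 p η))) (law μ) := by
    have := (R63.int_c_ev (μ := μ) g2 P.ks.toEv hw oΨ2).integrable (by norm_num)
    simpa only [ks_ev] using this
  have b3 : ∀ η, |∑ p ∈ S2, cut (χ2 β) c2 p η * I52.ev P (w η) (lcG b β (Ψ2 p η))| ≤ S2.card * (M2 * D2) := fun η => by
    refine (Finset.abs_sum_le_sum_abs _ _).trans ((Finset.sum_le_card_nsmul _ _ (M2 * D2) fun p hp => ?_).trans_eq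
      (by rw [nsmul_eq_mul]))
    rw [abs_mul]
    exact mul_le_mul ((s2.cutDF β).bd p hp η) (I52.abs_ev_le_of P (w η) ((oΨ2 p hp).bd η)) (abs_nonneg _) hM2
  have f3 := est_oneD hs (s1.cutDF β) s1.pos (a := a1) q1 r1' (s1.qv β) m3 b3
  have f4 := abs_add_le
    (∫ η, I52.ev P (w η) (lcG b β (Ψ η)) * (SS (sc f f') S1 (cut (χ1 β) c1) η * SS (sc f f') S2 (cut (χ2 β) c2) η) ∂(law μ) -
      ∫ η, (∑ p ∈ S2, cut (χ2 β) c2 p η * I52.ev P (w η) (lcG b β (Ψ2 p η))) * SS (sc f f') S1 (cut (χ1 β) c1) η ∂(law μ))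
    (∫ η, I52.ins P (w η) (T2 η - H19.Cf S2 (cut (χ2 β) c2) N η) (lcG b β (Ψ η)) *
          SS (sc f f') S1 (cut (χ1 β) c1) η ∂(law μ))
  have f5 := abs_sub
    (∫ η, I52.ev P (w η) (lcG b β (Ψ η)) * (SS (sc f f') S1 (cut (χ1 β) c1) η * SS (sc f f') S2 (cut (χ2 β) c2) η) ∂(law μ))
    (∫ η, (∑ p ∈ S2, cut (χ2 β) c2 p η * I52.ev P (w η) (lcG b β (Ψ2 p η))) * SS (sc f f') S1 (cut (χ1 β) c1) η ∂(law μ))
  unfold tail2 tail1
  linarith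

theorem ins2_sumΨ {J : Type*} (s : Finset J) (P : Plan X m) (w A C : X → ℝ) (Ψ : J → (Fin m → X) → ℝ) :
    I52.ins2 P w A C (fun x => ∑ j ∈ s, Ψ j x) = ∑ j ∈ s, I52.ins2 P w A C (Ψ j) := by
  unfold I52.ins2
  rw [Finset.sum_comm]
  refine Finset.sum_congr rfl fun i _ => ?_
  rw [← I52.ins_sumΨ]
  congr 1
  funext x
  unfold dn
  rw [Finset.sum_mul]

/-- **TWO DERIVATIVES OF A PLAN, LOCALISED, SIGNED REMAINDERS** (order of helper14: the second slab only on `Ψ`). -/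
theorem planTwo [IsProbabilityMeasure μ] (P : Plan X m) (h : DenLaw μ f f') {K θ0 : ℝ}
    (hs : SG μ (sc f f') K θ0) {bk1 bk2 : Bool} {S1 S2 : Finset Pt} (hd12 : Disjoint S1 S2) {c1 c2 : Pt → Env → ℝ}
    {M1 M2 V D D1 D2 τ1 τ2 Q1 Q2 : ℝ} {χ1 χ2 : (Fin m → B) → Pt → ℝ} (s1 : SlD bk1 S1 c1 M1 χ1 Q1)
    (s2 : SlD bk2 S2 c2 M2 χ2 Q2)
    (h12 : ∀ q1 ∈ S1, ∀ q2 ∈ S2, ∀ (η : Env) (x : ℝ), c1 q1 (Function.update η q2 x) = c1 q1 η)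
    {w : Env → X → ℝ} {N : Pt → X → ℝ} (hw1 : Wt S1 w N V) (hw2 : Wt S2 w N V) {Ψ : Env → (Fin m → X) → ℝ}
    {Ψ1 Ψ2 : Pt → Env → (Fin m → X) → ℝ} (hΨ : Obs Ψ D) (hΨ1 : ∀ p ∈ S1, Obs (Ψ1 p) D1) (hΨ2 : ∀ p ∈ S2, Obs (Ψ2 p) D2)
    (hd1 : Sd S1 Ψ Ψ1) (hd2 : Sd S2 Ψ Ψ2) {T1 T2 : Env → X → ℝ} (mT1 : Measurable T1) (mT2 : Measurable T2)
    (bT1 : ∀ η y, |T1 η y| ≤ τ1) (bT2 : ∀ η y, |T2 η y| ≤ τ2) (hTb : Bl S1 T2) (hM2 : 0 ≤ M2) (hD2 : 0 ≤ D2)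
    (b : X → B) {t1 t2 a1 a2 : ℝ} (q1 : 0 < t1) (q2 : 0 < t2) (ha1 : 0 ≤ a1) (ha2 : 0 ≤ a2)
    (r1 : 2 * t1 * M1 ≤ θ0) (r2 : 2 * t2 * M2 ≤ θ0) :
    |∫ η, I52.ins2 P (w η) (T1 η) (T2 η) (Ψ η) ∂(law μ)| ≤
      a1 * a2 * ∫ η, I52.ev P (w η) (fun x => |Ψ η x|) ∂(law μ) +
      (Fintype.card (Fin m → B) : ℝ) * (tail2 K D t1 t2 a1 a2 Q1 Q2 +
        tail1 K (m * (D * (2 * (τ2 + S2.card * (M2 * V))))) t1 a1 Q1 + tail1 K (S2.card * (M2 * D2)) t1 a1 Q1) +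
      a1 * ∑ β : Fin m → B, ∫ η, |I52.ins P (w η) (T2 η - H19.Cf S2 (cut (χ2 β) c2) N η) (lcG b β (Ψ η))| ∂(law μ) +
      a1 * ∑ β : Fin m → B, ∫ η, |∑ p ∈ S2, cut (χ2 β) c2 p η * I52.ev P (w η) (lcG b β (Ψ2 p η))| ∂(law μ) +
      ∑ β : Fin m → B, ∑ i,
        |∫ η, I52.ins (P.sh i) (w η) (T1 η - H19.Cf S1 (cut (χ1 β) c1) N η) (dn (T2 η) i (lcG b β (Ψ η))) ∂(law μ)| +
      ∑ β : Fin m → B, |∫ η, ∑ p ∈ S1, cut (χ1 β) c1 p η * I52.ins P (w η) (T2 η) (lcG b β (Ψ1 p η)) ∂(law μ)| := by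
  have e : ∀ η, I52.ins2 P (w η) (T1 η) (T2 η) (Ψ η) =
      ∑ β : Fin m → B, I52.ins2 P (w η) (T1 η) (T2 η) (lcG b β (Ψ η)) := fun η => by
    rw [← ins2_sumΨ]
    congr 1
    funext x
    exact (sum_lcG b (Ψ η) x).symm
  simp_rw [e]
  rw [integral_finsetSum _ fun β _ => int_ins2 P (hΨ.lc b β) mT1 mT2 bT1 bT2 hw1.meas]
  refine (Finset.abs_sum_le_sum_abs _ _).trans
    ((Finset.sum_le_sum fun β _ => planTwo_box P h hs hd12 s1 s2 h12 hw1 hw2 hΨ hΨ1 hΨ2 hd1 hd2 mT1 mT2 bT1 bT2 hTb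
      hM2 hD2 b β q1 q2 ha1 ha2 r1 r2).trans ?_)
  have k := mul_le_mul_of_nonneg_left (sum_int_abs_lc (μ := μ) hΨ P.ks.toEv hw1.meas b) (mul_nonneg ha1 ha2)
  simp only [ks_ev] at k
  simp only [Finset.sum_add_distrib, Finset.sum_const, Finset.card_univ, nsmul_eq_mul, ← Finset.mul_sum]
  linarith

/-- The same, blind observable. -/
theorem planTwo_blind [IsProbabilityMeasure μ] (P : Plan X m) (h : DenLaw μ f f') {K θ0 : ℝ}
    (hs : SG μ (sc f f') K θ0) {bk1 bk2 : Bool} {S1 S2 : Finset Pt} (hd12 : Disjoint S1 S2) {c1 c2 : Pt → Env → ℝ}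
    {M1 M2 V D τ1 τ2 Q1 Q2 : ℝ} {χ1 χ2 : (Fin m → B) → Pt → ℝ} (s1 : SlD bk1 S1 c1 M1 χ1 Q1)
    (s2 : SlD bk2 S2 c2 M2 χ2 Q2)
    (h12 : ∀ q1 ∈ S1, ∀ q2 ∈ S2, ∀ (η : Env) (x : ℝ), c1 q1 (Function.update η q2 x) = c1 q1 η)
    {w : Env → X → ℝ} {N : Pt → X → ℝ} (hw1 : Wt S1 w N V) (hw2 : Wt S2 w N V) {Ψ : Env → (Fin m → X) → ℝ}
    (hΨ : Obs Ψ D) (hb1 : ∀ q ∈ S1, ∀ (η : Env) (x : ℝ), Ψ (Function.update η q x) = Ψ η)
    (hb2 : ∀ q ∈ S2, ∀ (η : Env) (x : ℝ), Ψ (Function.update η q x) = Ψ η)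
    {T1 T2 : Env → X → ℝ} (mT1 : Measurable T1) (mT2 : Measurable T2)
    (bT1 : ∀ η y, |T1 η y| ≤ τ1) (bT2 : ∀ η y, |T2 η y| ≤ τ2) (hTb : Bl S1 T2) (hM2 : 0 ≤ M2)
    (b : X → B) {t1 t2 a1 a2 : ℝ} (q1 : 0 < t1) (q2 : 0 < t2) (ha1 : 0 ≤ a1) (ha2 : 0 ≤ a2)
    (r1 : 2 * t1 * M1 ≤ θ0) (r2 : 2 * t2 * M2 ≤ θ0) :
    |∫ η, I52.ins2 P (w η) (T1 η) (T2 η) (Ψ η) ∂(law μ)| ≤
      a1 * a2 * ∫ η, I52.ev P (w η) (fun x => |Ψ η x|) ∂(law μ) +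
      (Fintype.card (Fin m → B) : ℝ) * (tail2 K D t1 t2 a1 a2 Q1 Q2 +
        tail1 K (m * (D * (2 * (τ2 + S2.card * (M2 * V))))) t1 a1 Q1) +
      a1 * ∑ β : Fin m → B, ∫ η, |I52.ins P (w η) (T2 η - H19.Cf S2 (cut (χ2 β) c2) N η) (lcG b β (Ψ η))| ∂(law μ) +
      ∑ β : Fin m → B, ∑ i,
        |∫ η, I52.ins (P.sh i) (w η) (T1 η - H19.Cf S1 (cut (χ1 β) c1) N η) (dn (T2 η) i (lcG b β (Ψ η))) ∂(law μ)| := by
  have k := planTwo P h hs hd12 s1 s2 h12 hw1 hw2 hΨ (Ψ1 := fun _ _ _ => 0) (Ψ2 := fun _ _ _ => 0)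
    (fun p _ => Obs_zero) (fun p _ => Obs_zero) (Sd_blind hb1) (Sd_blind hb2) mT1 mT2 bT1 bT2 hTb hM2 le_rfl b q1 q2 ha1
    ha2 r1 r2
  have z0 : ∀ (w A : X → ℝ), I52.ins P w A (fun _ : Fin m → X => (0 : ℝ)) = 0 := fun w A => by
    rw [I52.ins_eq]
    simp only [zero_mul]
    exact I52.ev_const P w 0
  have z2 : ∀ β : Fin m → B, ∫ η, |∑ p ∈ S2, cut (χ2 β) c2 p η * I52.ev P (w η) (lcG b β (fun _ : Fin m → X => (0 : ℝ)))|
      ∂(law μ) = 0 := fun β => by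
    simp_rw [lcG_zero, I52.ev_const, mul_zero, Finset.sum_const_zero, abs_zero, integral_zero]
  have z1 : ∀ β : Fin m → B, ∫ η, ∑ p ∈ S1, cut (χ1 β) c1 p η *
      I52.ins P (w η) (T2 η) (lcG b β (fun _ : Fin m → X => (0 : ℝ))) ∂(law μ) = 0 := fun β => by
    simp_rw [lcG_zero, z0, mul_zero, Finset.sum_const_zero, integral_zero]
  have z3 : tail1 K 0 t1 a1 Q1 = 0 := by
    unfold tail1
    ring
  simp only [z1, z2, abs_zero, Finset.sum_const_zero, mul_zero, add_zero] at k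
  rw [z3, add_zero] at k
  exact k

/-! ### The absolute forms of the remainders -/

theorem sum_lc_abs (b : X → B) (R : (Fin m → B) → ℝ) (Ψ : (Fin m → X) → ℝ) (x : Fin m → X) :
    ∑ β : Fin m → B, |lcG b β Ψ x| * R β = |Ψ x| * R fun i => b (x i) := by
  have e : ∀ β : Fin m → B, |lcG b β Ψ x| * R β = if (fun i => b (x i)) = β then |Ψ x| * R β else 0 := fun β => by
    unfold lcG
    split_ifs with h
    · rfl
    · rw [abs_zero, zero_mul]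
  rw [Finset.sum_congr rfl fun β _ => e β, Finset.sum_ite_eq]
  simp

/-- The first remainder: the difference at the replicas and at their shadows. -/
theorem sum_abs_ins_lc (P : Plan X m) (w : X → ℝ) (b : X → B) (R : (Fin m → B) → X → ℝ) (Ψ : (Fin m → X) → ℝ) :
    ∑ β : Fin m → B, |I52.ins P w (R β) (lcG b β Ψ)| ≤
      ∑ i, I52.ev P w (fun x => |Ψ x| * |R (fun k => b (x k)) (x i)|) +
      ∑ i, I52.ev (P.sh i) w (fun x => |Ψ (Fin.tail x)| * |R (fun k => b (Fin.tail x k)) (x 0)|) := by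
  refine (Finset.sum_le_sum fun β _ => I52.abs_ins_le P w (R β) (lcG b β Ψ)).trans_eq ?_
  rw [Finset.sum_add_distrib, Finset.sum_comm, Finset.sum_comm (s := univ) (t := univ)
    (f := fun β i => I52.ev (P.sh i) w fun x => |lcG b β Ψ (Fin.tail x)| * |R β (x 0)|)]
  congr 1
  · refine Finset.sum_congr rfl fun i _ => ?_
    rw [← I52.ev_sum]
    exact I52.ev_congr P w fun x => sum_lc_abs b (fun β => |R β (x i)|) Ψ x
  · refine Finset.sum_congr rfl fun i _ => ?_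
    rw [← I52.ev_sum]
    exact I52.ev_congr _ w fun x => sum_lc_abs b (fun β => |R β (x 0)|) Ψ (Fin.tail x)

/-- The second remainder: the whole `T` of size `τ` at the replica `i` and at its shadow, then the difference. -/
theorem sum_abs_ins2_lc (P : Plan X m) (w : X → ℝ) (b : X → B) (R : (Fin m → B) → X → ℝ) {T : X → ℝ} {τ : ℝ}
    (hT : ∀ s, |T s| ≤ τ) (Ψ : (Fin m → X) → ℝ) :
    ∑ β : Fin m → B, ∑ i, |I52.ins (P.sh i) w (R β) (dn T i (lcG b β Ψ))| ≤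
      2 * τ * ∑ i, (∑ k, I52.ev (P.sh i) w (fun x => |Ψ (Fin.tail x)| * |R (fun j => b (Fin.tail x j)) (x k)|) +
      ∑ k, I52.ev ((P.sh i).sh k) w
        (fun x => |Ψ (Fin.tail (Fin.tail x))| * |R (fun j => b (Fin.tail (Fin.tail x) j)) (x 0)|)) := by
  rw [Finset.sum_comm, Finset.mul_sum]
  refine Finset.sum_le_sum fun i _ => ?_
  have hd : ∀ (β : Fin m → B) (x : Fin (m + 1) → X), |dn T i (lcG b β Ψ) x| ≤ 2 * τ * |lcG b β Ψ (Fin.tail x)| := fun β x => by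
    unfold dn
    rw [abs_mul, mul_comm (2 * τ)]
    refine mul_le_mul_of_nonneg_left ?_ (abs_nonneg _)
    refine (abs_sub _ _).trans ?_
    linarith [hT (x i.succ), hT (x 0)]
  have h1 : ∀ β : Fin m → B, |I52.ins (P.sh i) w (R β) (dn T i (lcG b β Ψ))| ≤
      2 * τ * (∑ k, I52.ev (P.sh i) w (fun x => |lcG b β Ψ (Fin.tail x)| * |R β (x k)|) +
        ∑ k, I52.ev ((P.sh i).sh k) w (fun x => |lcG b β Ψ (Fin.tail (Fin.tail x))| * |R β (x 0)|)) := fun β => by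
    refine (I52.abs_ins_le (P.sh i) w (R β) _).trans ?_
    rw [mul_add, Finset.mul_sum, Finset.mul_sum]
    refine add_le_add (Finset.sum_le_sum fun k _ => ?_) (Finset.sum_le_sum fun k _ => ?_)
    · rw [← I52.ev_smul]
      refine I52.ev_mono _ w fun x => ?_
      rw [← mul_assoc]
      exact mul_le_mul_of_nonneg_right (hd β x) (abs_nonneg _)
    · rw [← I52.ev_smul]
      refine I52.ev_mono _ w fun x => ?_
      rw [← mul_assoc]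
      exact mul_le_mul_of_nonneg_right (hd β (Fin.tail x)) (abs_nonneg _)
  refine (Finset.sum_le_sum fun β _ => h1 β).trans_eq ?_
  rw [← Finset.mul_sum, Finset.sum_add_distrib]
  congr 1
  congr 1
  · rw [Finset.sum_comm]
    refine Finset.sum_congr rfl fun k _ => ?_
    rw [← I52.ev_sum]
    exact I52.ev_congr _ w fun x => sum_lc_abs b (fun β => |R β (x k)|) Ψ (Fin.tail x)
  · rw [Finset.sum_comm]
    refine Finset.sum_congr rfl fun k _ => ?_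
    rw [← I52.ev_sum]
    exact I52.ev_congr _ w fun x => sum_lc_abs b (fun β => |R β (x 0)|) Ψ (Fin.tail (Fin.tail x))

end

end Pool.W7d29a1.C0.H41
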