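import Pool.Agent.W_7d29a1_C0.Mod38B
import Pool.Agent.W_7d29a1_C0.BentT57
import Pool.Agent.W_7d29a1_C0.Cor1

/-!
CURV0 (MP_7d29a1_pr), leaf E5.8, helper14: THE TERMS (m), (out), (far) OF THE ROW INEQUALITY OF helper38, pathwise. `w` = the outer
weights, `wi` = the inner weights, `|wi - w| ≤ D`. `hb_le14`: the own pair is at most the robust event `Tau` at `w` plus a small number;
`ou_red14`: the outer functional is at most the mean of `|Y| 1(Tau) 1(a free replica misses the path beside the slabs with a mass)`;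
`fr_red14`: the same for the far parts, up to the paths which are not straight (`bd14`).
-/

set_option autoImplicit false
set_option linter.unusedSectionVars false
set_option linter.unusedVariables false

namespace Pool.W7d29a1.C0.PM14

open Finset Filter Topology MeasureTheory
open Pool.Agent.W_7d29a1_F Pool.Agent.W_7d29a1_C0 Pool.W7d29a1.C0 Pool.W7d29a1.C0.VT31
open Pool.Agent.W_7d29a1_C0.Swap57 Pool.Agent.W_7d29a1_C0.Mod92
open Pool.Agent.W_7d29a1_C0.InT57 (pz JZ JZ_ne card_JZ fst_mem_JZ pz_nonneg pz_le bend57 bend57_nonneg bend57_le_one)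
open Pool.W7d29a1.C0.R43 (Tau)
open Pool.W7d29a1.C0.S1 (i1 i1_nonneg i1_of i1_not)
open Pool.W7d29a1.C0.K1 (cE_cE_le)
open Pool.W7d29a1.C0.T73 (chT OutB bx Str dl)
open Pool.W7d29a1.C0.L38

noncomputable section

/-! ### Indicators -/

theorem i1_le_one (A : Prop) : i1 A ≤ 1 := by
  unfold i1
  split_ifs <;> norm_num

/-- A number in `[0, 1]` is at most the indicator that it is at least `e`, plus `e`. -/
theorem le_i1 {x e : ℝ} (h1 : x ≤ 1) (he : 0 ≤ e) : x ≤ i1 (e ≤ x) + e := by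
  by_cases h : e ≤ x
  · rw [i1_of h]
    linarith
  · rw [i1_not h]
    linarith

section Mdl

variable {Q : Finset (Finset ℕ)} [SwQ Q] [Nonempty (Px Q)] {w wi : Px Q → ℝ} {D : ℝ}

theorem gm_le_one' {f : Px Q → ℝ} (h : ∀ x, f x ≤ 1) (w : Px Q → ℝ) : gm w f ≤ 1 := (gm_mono w h).trans_eq (gm_const w 1)

/-- The path has a free replica, with a mass, which does not meet it on `[i, k]`. -/
def oM (w : Px Q → ℝ) (i k : ℕ) (m : ℝ) (x : Px Q) : ℝ := i1 (Real.exp (-(5 * m)) ≤ gm w (NI i k x))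

theorem oM_nonneg (w : Px Q → ℝ) (i k : ℕ) (m : ℝ) (x : Px Q) : 0 ≤ oM w i k m x := i1_nonneg _

theorem oM_le_one (w : Px Q → ℝ) (i k : ℕ) (m : ℝ) (x : Px Q) : oM w i k m x ≤ 1 := i1_le_one _

theorem gm_NI_le (w : Px Q → ℝ) (i k : ℕ) (m : ℝ) (x : Px Q) : gm w (NI i k x) ≤ oM w i k m x + Real.exp (-(5 * m)) :=
  le_i1 (gm_le_one' (fun x' => NI_le_one i k x x') w) (Real.exp_pos _).le

theorem NI_anti14 {i i' k k' : ℕ} (hi : i ≤ i') (hk : k' ≤ k) (S S' : Px Q) : NI i k S S' ≤ NI i' k' S S' := by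
  unfold NI
  split_ifs with h1 h2 h2
  · exact le_rfl
  · exact absurd (fun r h3 h4 => h1 r (hi.trans h3) (h4.trans hk)) h2
  · exact zero_le_one
  · exact le_rfl

/-- **The own pair**: at most the robust event at the outer weights. -/
theorem hb_le14 (hD : ∀ x, |wi x - w x| ≤ D) (p : Px Q → Finset ℕ × ℕ) {χ : Px Q → Px Q → ℝ} {U V : ℕ} (h0 : ∀ b c, 0 ≤ χ b c)
    (h1 : ∀ b c, χ b c ≤ NI U V b c) (m : ℝ) (x : Px Q) :
    hb wi p χ x ≤ i1 (Tau w p U V m x) + Real.exp (4 * D) * Real.exp (-(5 * m)) := by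
  have e1 : hb wi p χ x ≤ 1 := cE2_le_one wi p (fun b c => (h1 b c).trans (NI_le_one _ _ _ _)) x x
  have e2 : hb wi p χ x ≤ Real.exp (4 * D) * cE2 w p (NI U V) x x := by
    refine le_trans ?_ (cE_cE_le hD hD p (K := NI U V) (fun y z => NI_nonneg _ _ _ _) x x)
    exact cE_mono wi p (fun y => cE_mono wi p (h1 y) x) x
  by_cases h : Tau w p U V m x
  · rw [i1_of h]
    have : 0 ≤ Real.exp (4 * D) * Real.exp (-(5 * m)) := by positivity
    linarith
  · rw [i1_not h, zero_add]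
    refine e2.trans (mul_le_mul_of_nonneg_left ?_ (Real.exp_pos _).le)
    exact (not_le.1 h).le

theorem hb_nonneg14 (wi : Px Q → ℝ) (p : Px Q → Finset ℕ × ℕ) {χ : Px Q → Px Q → ℝ} (h0 : ∀ b c, 0 ≤ χ b c) (x : Px Q) :
    0 ≤ hb wi p χ x := cE2_nonneg wi p h0 x x

/-- The double tie of the path: own pair in the window, free replica beside it. -/
def dT (w : Px Q → ℝ) (p : Px Q → Finset ℕ × ℕ) (U V i k : ℕ) (m : ℝ) (x : Px Q) : ℝ := i1 (Tau w p U V m x) * oM w i k m x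

theorem dT_nonneg (w : Px Q → ℝ) (p : Px Q → Finset ℕ × ℕ) (U V i k : ℕ) (m : ℝ) (x : Px Q) : 0 ≤ dT w p U V i k m x :=
  mul_nonneg (i1_nonneg _) (oM_nonneg _ _ _ _ _)

theorem dT_le_one (w : Px Q → ℝ) (p : Px Q → Finset ℕ × ℕ) (U V i k : ℕ) (m : ℝ) (x : Px Q) : dT w p U V i k m x ≤ 1 :=
  mul_le_one₀ (i1_le_one _) (oM_nonneg _ _ _ _ _) (oM_le_one _ _ _ _ _)

/-- The own pair times the mass of a free replica. -/
theorem hb_gm14 (hD : ∀ x, |wi x - w x| ≤ D) (hD0 : 0 ≤ D) (p : Px Q → Finset ℕ × ℕ) {χ : Px Q → Px Q → ℝ} {U V : ℕ}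
    (h0 : ∀ b c, 0 ≤ χ b c) (h1 : ∀ b c, χ b c ≤ NI U V b c) (m : ℝ) (i k : ℕ) (x : Px Q) :
    hb wi p χ x * gm w (NI i k x) ≤ dT w p U V i k m x + 2 * (Real.exp (4 * D) * Real.exp (-(5 * m))) := by
  have a1 := hb_le14 hD p h0 h1 m x
  have a2 := gm_NI_le w i k m x
  have a3 := hb_nonneg14 wi p h0 x
  have a4 : 0 ≤ gm w (NI i k x) := gm_nonneg w fun x' => NI_nonneg i k x x'
  have a5 : gm w (NI i k x) ≤ 1 := gm_le_one' (fun x' => NI_le_one i k x x') w
  have a6 := i1_nonneg (Tau w p U V m x)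
  have a7 := i1_le_one (Tau w p U V m x)
  obtain ⟨e, he⟩ : ∃ e, e = Real.exp (4 * D) * Real.exp (-(5 * m)) := ⟨_, rfl⟩
  have he0 : 0 ≤ e := by
    rw [he]
    positivity
  have he1 : Real.exp (-(5 * m)) ≤ e := by
    rw [he]
    exact le_mul_of_one_le_left (Real.exp_pos _).le (Real.one_le_exp (by linarith))
  rw [← he] at a1 ⊢
  unfold dT
  calc hb wi p χ x * gm w (NI i k x) ≤ (i1 (Tau w p U V m x) + e) * gm w (NI i k x) := mul_le_mul_of_nonneg_right a1 a4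
    _ = i1 (Tau w p U V m x) * gm w (NI i k x) + e * gm w (NI i k x) := by ring
    _ ≤ i1 (Tau w p U V m x) * (oM w i k m x + Real.exp (-(5 * m))) + e * 1 :=
        add_le_add (mul_le_mul_of_nonneg_left a2 a6) (mul_le_mul_of_nonneg_left a5 he0)
    _ ≤ i1 (Tau w p U V m x) * oM w i k m x + (1 * Real.exp (-(5 * m)) + e) := by
        have := mul_le_mul_of_nonneg_right a7 (Real.exp_pos (-(5 * m))).le
        linarith
    _ ≤ _ := by linarith

theorem gm_add_const (w : Px Q → ℝ) (f : Px Q → ℝ) (e : ℝ) : gm w (fun x => f x + e) = gm w f + e := by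
  have h := gm_add w f fun _ => e
  rw [gm_const] at h
  exact h

theorem gm_add3 (w : Px Q → ℝ) (f g h : Px Q → ℝ) : gm w (fun x => f x + g x + h x) = gm w f + gm w g + gm w h := by
  have h1 := gm_add w (fun x => f x + g x) h
  have h2 := gm_add w f g
  exact h1.trans (congrArg (fun z => z + gm w h) h2)

theorem gm_smul14 (w : Px Q → ℝ) (c : ℝ) (f : Px Q → ℝ) : gm w (fun x => c * f x) = c * gm w f := gm_smul w c f

/-- The mean of `|Y|` times a bound. -/
theorem gm_absY {Y F G : Px Q → ℝ} {L e : ℝ} (hY : ∀ x, |Y x| ≤ L) (he : 0 ≤ e) (h : ∀ x, F x ≤ G x + e) :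
    gm w (fun x => |Y x| * F x) ≤ gm w (fun x => |Y x| * G x) + L * e := by
  rw [← gm_add_const]
  refine gm_mono w fun x => ?_
  calc |Y x| * F x ≤ |Y x| * (G x + e) := mul_le_mul_of_nonneg_left (h x) (abs_nonneg _)
    _ = |Y x| * G x + |Y x| * e := by ring
    _ ≤ _ := add_le_add le_rfl (mul_le_mul_of_nonneg_right (hY x) he)

/-- **(m)**: the own pair. -/
theorem m_red14 (hD : ∀ x, |wi x - w x| ≤ D) (p : Px Q → Finset ℕ × ℕ) {χ : Px Q → Px Q → ℝ} {U V : ℕ}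
    (h0 : ∀ b c, 0 ≤ χ b c) (h1 : ∀ b c, χ b c ≤ NI U V b c) (m : ℝ) {Y : Px Q → ℝ} {L : ℝ} (hY : ∀ x, |Y x| ≤ L) :
    gm w (fun a => |Y a| * hb wi p χ a) ≤ gm w (fun a => |Y a| * i1 (Tau w p U V m a)) + L * (Real.exp (4 * D) * Real.exp (-(5 * m))) :=
  gm_absY hY (by positivity) fun x => hb_le14 hD p h0 h1 m x

/-- **(out)**: the own pair and a second outer replica. -/
theorem ou_red14 (hD : ∀ x, |wi x - w x| ≤ D) (hD0 : 0 ≤ D) (p : Px Q → Finset ℕ × ℕ) {χ : Px Q → Px Q → ℝ} {U V : ℕ}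
    (h0 : ∀ b c, 0 ≤ χ b c) (h1 : ∀ b c, χ b c ≤ NI U V b c) (m : ℝ) {Y : Px Q → ℝ} {L : ℝ} (hY : ∀ x, |Y x| ≤ L)
    {c al be d aL bR : ℕ} (haL : aL ≤ al) (hbR : be ≤ bR) :
    gm2 w (fun a a' => |Y a| * hb wi p χ a * NM c al be d a a') ≤
      gm w (fun a => |Y a| * (dT w p U V c aL m a + dT w p U V bR d m a)) +
        L * (4 * (Real.exp (4 * D) * Real.exp (-(5 * m)))) := by
  have e1 : gm2 w (fun a a' => |Y a| * hb wi p χ a * NM c al be d a a') ≤
      gm w (fun a => |Y a| * (hb wi p χ a * gm w (NI c aL a) + hb wi p χ a * gm w (NI bR d a))) := by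
    unfold gm2
    refine gm_mono w fun a => ?_
    rw [gm_smul14]
    have a3 := hb_nonneg14 wi p h0 a
    have a4 : gm w (NM c al be d a) ≤ gm w (NI c aL a) + gm w (NI bR d a) := by
      have h2 := gm_add w (NI c aL a) (NI bR d a)
      rw [← h2]
      refine gm_mono w fun a' => (NM_le c al be d a a').trans (add_le_add ?_ ?_)
      · exact NI_anti14 le_rfl haL a a'
      · exact NI_anti14 hbR le_rfl a a'
    calc |Y a| * hb wi p χ a * gm w (NM c al be d a) ≤ |Y a| * hb wi p χ a * (gm w (NI c aL a) + gm w (NI bR d a)) :=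
          mul_le_mul_of_nonneg_left a4 (mul_nonneg (abs_nonneg _) a3)
      _ = _ := by ring
  refine e1.trans (gm_absY hY (by positivity) fun a => ?_)
  have b1 := hb_gm14 hD hD0 p h0 h1 m c aL a
  have b2 := hb_gm14 hD hD0 p h0 h1 m bR d a
  linarith

end Mdl

/-! ### The far parts -/

section Far

variable {N : ℕ} {Q : Finset (Finset ℕ)} [SwQ Q] [Nonempty (Px Q)] {w wi : Px Q → ℝ} {D : ℝ} {sl R : ℝ} {k0 : ℕ} {J : Finset ℕ}

/-- The path is not straight on the rows of the slab and on `[zl, zr]`. -/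
def bd14 (sl R : ℝ) (k0 : ℕ) (J : Finset ℕ) (zl zr : ℕ) (S : Px Q) : ℝ := bend57 sl (R / 4) (k0 : ℤ) (J ∪ Icc zl zr) S

theorem bd14_nonneg (sl R : ℝ) (k0 : ℕ) (J : Finset ℕ) (zl zr : ℕ) (S : Px Q) : 0 ≤ bd14 sl R k0 J zl zr S := bend57_nonneg _ _ _ _ _

theorem bd14_le_one (sl R : ℝ) (k0 : ℕ) (J : Finset ℕ) (zl zr : ℕ) (S : Px Q) : bd14 sl R k0 J zl zr S ≤ 1 := bend57_le_one _ _ _ _ _

theorem str_of_bd14 {zl zr : ℕ} {S : Px Q} (h : bd14 sl R k0 J zl zr S = 0) : Str pz sl (R / 4) (k0 : ℤ) (JZ (J ∪ Icc zl zr)) S := by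
  by_contra h1
  have : bd14 sl R k0 J zl zr S = 1 := if_neg h1
  rw [this] at h
  norm_num at h

theorem bd14_zero_or (sl R : ℝ) (k0 : ℕ) (J : Finset ℕ) (zl zr : ℕ) (S : Px Q) : bd14 sl R k0 J zl zr S = 0 ∨ bd14 sl R k0 J zl zr S = 1 := by
  unfold bd14 bend57
  split_ifs
  · exact Or.inl rfl
  · exact Or.inr rfl

/-- Two straight paths with a common position: the second is in the tube of the box of the first. -/
theorem tub_of_meet (hR : 1 ≤ R) (hk0 : k0 ≤ N) {zl zr z : ℕ} (hz : zl ≤ z) (hz' : z ≤ zr) {a v : Px Q}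
    (ha : bd14 sl R k0 J zl zr a = 0) (hv : bd14 sl R k0 J zl zr v = 0) (h : ps a z = ps v z) : tub38 N sl R (k0 : ℤ) J a v = 0 := by
  unfold tub38 tb38
  rw [if_neg]
  rintro ⟨r, hr, h5⟩
  have sa := str_of_bd14 ha
  have sv := str_of_bd14 hv
  have hzJ : ((z : ℕ) : ℤ) ∈ JZ (J ∪ Icc zl zr) := mem_image.2 ⟨z, mem_union_right _ (mem_Icc.2 ⟨hz, hz'⟩), rfl⟩
  have hrJ : r ∈ JZ (J ∪ Icc zl zr) := by
    obtain ⟨r', h6, h7⟩ := mem_image.1 hr
    exact mem_image.2 ⟨r', mem_union_left _ h6, h7⟩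
  have a1 := sv r hrJ
  have a2 := sv z hzJ
  have a3 := sa z hzJ
  have a4 := h5 ()
  have a5 := T73.bx_spec (pa := pz (Q := Q)) (m0 := (k0 : ℤ)) (n := N) hR (x := a) (pz_nonneg _ _) (pz_le (by exact_mod_cast hk0))
  have e1 : pz v (z : ℤ) = ps v z := by
    unfold InT57.pz
    rw [Int.toNat_natCast]
  have e2 : pz a (z : ℤ) = ps v z := by
    unfold InT57.pz
    rw [Int.toNat_natCast, h]
  unfold dl at a1 a2 a3 a4
  simp only at a1 a2 a3 a4
  rw [e1] at a2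
  rw [e2] at a3
  rw [abs_le] at a1 a2 a3 a5
  rw [lt_abs] at a4
  rcases a4 with a4 | a4 <;> linarith [a1.1, a1.2, a2.1, a2.2, a3.1, a3.2, a5.1, a5.2]

theorem tub38_le_one (sl R : ℝ) (m0 : ℤ) (J : Finset ℕ) (S0 S : Px Q) : tub38 N sl R m0 J S0 S ≤ 1 := tb38_le_one _ _ _ _ _ _ _

theorem tub38_nonneg (sl R : ℝ) (m0 : ℤ) (J : Finset ℕ) (S0 S : Px Q) : 0 ≤ tub38 N sl R m0 J S0 S := tb38_nonneg _ _ _ _ _ _ _

/-- **The tube of the box of another path.** -/
theorem tub_le14 (hR : 1 ≤ R) (hk0 : k0 ≤ N) (zl zr : ℕ) (a v : Px Q) :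
    tub38 N sl R (k0 : ℤ) J a v ≤ NI zl zr a v + (bd14 sl R k0 J zl zr a + bd14 sl R k0 J zl zr v) := by
  have h1 := tub38_le_one (N := N) sl R (k0 : ℤ) J a v
  have h2 := bd14_nonneg sl R k0 J zl zr a
  have h3 := bd14_nonneg sl R k0 J zl zr v
  have h4 := NI_nonneg zl zr a v
  rcases bd14_zero_or sl R k0 J zl zr a with ha | ha
  · rcases bd14_zero_or sl R k0 J zl zr v with hv | hv
    · by_cases h : ∀ k, zl ≤ k → k ≤ zr → ps a k ≠ ps v k
      · have e : NI zl zr a v = 1 := by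
          unfold NI
          exact if_pos h
        rw [e]
        linarith
      · push Not at h
        obtain ⟨z, g1, g2, g3⟩ := h
        rw [tub_of_meet hR hk0 g1 g2 ha hv g3]
        linarith
    · rw [hv]
      linarith
  · rw [ha]
    linarith

/-- The own tube. -/
theorem tub_self14 (hR : 1 ≤ R) (hk0 : k0 ≤ N) {zl zr : ℕ} (hz : zl ≤ zr) (a : Px Q) :
    tub38 N sl R (k0 : ℤ) J a a ≤ bd14 sl R k0 J zl zr a := by
  rcases bd14_zero_or sl R k0 J zl zr a with ha | ha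
  · rw [tub_of_meet hR hk0 le_rfl hz ha ha rfl]
    exact ha.ge
  · rw [ha]
    exact tub38_le_one _ _ _ _ _ _

/-- The mass of the inner replicas out of the tube. -/
theorem cE_tub14 (hR : 1 ≤ R) (hk0 : k0 ≤ N) {zl zr : ℕ} (hz : zl ≤ zr) (hD : ∀ x, |wi x - w x| ≤ D) {p : Px Q → Finset ℕ × ℕ}
    (hp : ∀ S S' : Px Q, p S = p S' → pz S (k0 : ℤ) = pz S' (k0 : ℤ)) (a : Px Q) :
    cE wi p (tub38 N sl R (k0 : ℤ) J a) a ≤ Real.exp (2 * D) * cE w p (bd14 sl R k0 J zl zr) a := by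
  have h1 : cE wi p (tub38 N sl R (k0 : ℤ) J a) a ≤ cE wi p (bd14 sl R k0 J zl zr) a := by
    refine DGam14.cE_mono_on wi p a fun S hS => ?_
    have e : tub38 N sl R (k0 : ℤ) J a S = tub38 N sl R (k0 : ℤ) J S S := by
      unfold tub38
      rw [bx_eq38 (hp S a hS)]
    rw [e]
    exact tub_self14 hR hk0 hz S
  refine h1.trans ?_
  have e1 : wi = w + fun x => wi x - w x := by
    funext x
    rw [Pi.add_apply]
    ring
  have h2 := R43.cE_tilt (w := w) (A := fun x => wi x - w x) hD p (f := bd14 sl R k0 J zl zr) (bd14_nonneg sl R k0 J zl zr) a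
  rwa [← e1] at h2

/-- **(far)**: the far parts. -/
theorem fr_red14 (hR : 1 ≤ R) (hk0 : k0 ≤ N) {zl zr : ℕ} (hz : zl ≤ zr) (hD : ∀ x, |wi x - w x| ≤ D) (hD0 : 0 ≤ D)
    {p : Px Q → Finset ℕ × ℕ} (hp : ∀ S S' : Px Q, p S = p S' → pz S (k0 : ℤ) = pz S' (k0 : ℤ)) {χ : Px Q → Px Q → ℝ} {U V : ℕ}
    (h0 : ∀ b c, 0 ≤ χ b c) (h1 : ∀ b c, χ b c ≤ NI U V b c) (m : ℝ) {Y : Px Q → ℝ} {L : ℝ} (hY : ∀ x, |Y x| ≤ L) :
    fr w wi p χ Y (tub38 N sl R (k0 : ℤ) J) ≤ gm w (fun a => |Y a| * (3 * dT w p U V zl zr m a)) +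
      L * (6 * (Real.exp (4 * D) * Real.exp (-(5 * m)))) + L * (15 * Real.exp (2 * D) * gm w (bd14 sl R k0 J zl zr)) := by
  have hL : 0 ≤ L := (abs_nonneg _).trans (hY (Classical.arbitrary _))
  obtain ⟨b, hbd⟩ : ∃ b, b = bd14 (Q := Q) sl R k0 J zl zr := ⟨_, rfl⟩
  have b0 : ∀ x, 0 ≤ b x := fun x => hbd ▸ bd14_nonneg sl R k0 J zl zr x
  have b1 : ∀ x, b x ≤ 1 := fun x => hbd ▸ bd14_le_one sl R k0 J zl zr x
  have G0 : 0 ≤ gm w b := gm_nonneg w b0
  have hE : 1 ≤ Real.exp (2 * D) := Real.one_le_exp (by linarith)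
  have e1 : fr w wi p χ Y (tub38 N sl R (k0 : ℤ) J) ≤ gm w (fun a => |Y a| *
      ((3 * dT w p U V zl zr m a + 6 * (Real.exp (4 * D) * Real.exp (-(5 * m)))) +
        (4 * b a + 3 * gm w b + 8 * Real.exp (2 * D) * cE w p b a))) := by
    unfold fr
    refine gm_mono w fun a => mul_le_mul_of_nonneg_left ?_ (abs_nonneg _)
    have c1 := hb_nonneg14 wi p h0 a
    have c2 : hb wi p χ a ≤ 1 := cE2_le_one wi p (fun b c => (h1 b c).trans (NI_le_one _ _ _ _)) a a
    have c3 : tub38 N sl R (k0 : ℤ) J a a ≤ b a := hbd ▸ tub_self14 hR hk0 hz a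
    have c4 : gm w (tub38 N sl R (k0 : ℤ) J a) ≤ gm w (NI zl zr a) + (b a + gm w b) := by
      have d1 : gm w (fun v => NI zl zr a v + b v + b a) = gm w (NI zl zr a) + gm w b + b a := by
        rw [gm_add_const]
        exact congrArg (fun z => z + b a) (gm_add w (NI zl zr a) b)
      have d2 : gm w (tub38 N sl R (k0 : ℤ) J a) ≤ gm w (fun v => NI zl zr a v + b v + b a) := gm_mono w fun v => by
        have := tub_le14 (J := J) (sl := sl) hR hk0 zl zr a v
        rw [← hbd] at this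
        linarith
      linarith
    have c5 : cE wi p (tub38 N sl R (k0 : ℤ) J a) a ≤ Real.exp (2 * D) * cE w p b a := hbd ▸ cE_tub14 hR hk0 hz hD hp a
    have c6 := hb_gm14 hD hD0 p h0 h1 m zl zr a
    have c7 : hb wi p χ a * (tub38 N sl R (k0 : ℤ) J a a + 3 * gm w (tub38 N sl R (k0 : ℤ) J a)) ≤
        hb wi p χ a * (b a + 3 * (gm w (NI zl zr a) + (b a + gm w b))) := mul_le_mul_of_nonneg_left (by linarith) c1
    have c8 : hb wi p χ a * (4 * b a + 3 * gm w b) ≤ 1 * (4 * b a + 3 * gm w b) :=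
      mul_le_mul_of_nonneg_right c2 (by linarith [b0 a])
    have c9 : hb wi p χ a * (b a + 3 * (gm w (NI zl zr a) + (b a + gm w b))) =
        3 * (hb wi p χ a * gm w (NI zl zr a)) + hb wi p χ a * (4 * b a + 3 * gm w b) := by ring
    linarith
  have e2 : gm w (fun a => |Y a| * ((3 * dT w p U V zl zr m a + 6 * (Real.exp (4 * D) * Real.exp (-(5 * m)))) +
        (4 * b a + 3 * gm w b + 8 * Real.exp (2 * D) * cE w p b a))) =
      gm w (fun a => |Y a| * (3 * dT w p U V zl zr m a + 6 * (Real.exp (4 * D) * Real.exp (-(5 * m))))) +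
        gm w (fun a => |Y a| * (4 * b a + 3 * gm w b + 8 * Real.exp (2 * D) * cE w p b a)) := by
    rw [← gm_add]
    congr 1
    funext a
    rw [Pi.add_apply]
    ring
  have e3 : gm w (fun a => |Y a| * (3 * dT w p U V zl zr m a + 6 * (Real.exp (4 * D) * Real.exp (-(5 * m))))) ≤
      gm w (fun a => |Y a| * (3 * dT w p U V zl zr m a)) + L * (6 * (Real.exp (4 * D) * Real.exp (-(5 * m)))) :=
    gm_absY hY (by positivity) fun x => le_rfl
  have e4 : gm w (fun a => |Y a| * (4 * b a + 3 * gm w b + 8 * Real.exp (2 * D) * cE w p b a)) ≤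
      L * (15 * Real.exp (2 * D) * gm w b) := by
    have f1 : gm w (fun a => |Y a| * (4 * b a + 3 * gm w b + 8 * Real.exp (2 * D) * cE w p b a)) ≤
        gm w (fun a => L * (4 * b a + 3 * gm w b + 8 * Real.exp (2 * D) * cE w p b a)) := gm_mono w fun a => by
      refine mul_le_mul_of_nonneg_right (hY a) ?_
      have g1 := b0 a
      have g2 := cE_nonneg w p b0 a
      positivity
    refine f1.trans ?_
    rw [gm_smul14]
    refine mul_le_mul_of_nonneg_left ?_ hL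
    have f2 : gm w (fun a => 4 * b a + 3 * gm w b + 8 * Real.exp (2 * D) * cE w p b a) =
        4 * gm w b + 3 * gm w b + 8 * Real.exp (2 * D) * gm w b := by
      have g1 := gm_add3 w (fun a => 4 * b a) (fun _ => 3 * gm w b) (fun a => 8 * Real.exp (2 * D) * cE w p b a)
      rw [gm_smul14, gm_const, gm_smul14, gm_cE] at g1
      exact g1
    rw [f2]
    have f3 : gm w b ≤ Real.exp (2 * D) * gm w b := le_mul_of_one_le_left G0 hE
    linarith
  rw [← hbd]
  linarith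

end Far

end

end Pool.W7d29a1.C0.PM14
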