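import Pool.Agent.W_7d29a1_C0.NTX29
import Pool.Agent.W_7d29a1_C0.NTD51
import Pool.Agent.W_7d29a1_C0.OkE15B

/-!
MP_7d29a1_pr, [CURV0] / [C0] (helper72), PT4: THE CONSTANTS. `Prc`: all prices at one `(N, y)` with one amplification `exp X` and one error
`e`: the list with two kinds of places (`mix`), the events of two alternatives (`evt`, `nte`), two windows of different scales (`cD`).
`prc72`: from `In`, with `X = N ^ κ`, `e = exp (-N ^ c₂)`.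
-/

set_option autoImplicit false
set_option linter.unusedVariables false

namespace Pool.Agent.W_7d29a1_C0.Pt450

open MeasureTheory ProbabilityTheory Filter Topology Finset
open Pool.Agent.W_7d29a1_F Pool.Agent.W_7d29a1_X Pool.Agent.W_7d29a1_h4g Pool.Agent.W_7d29a1_H
open Pool.Agent.W_7d29a1_HS (In wd md)
open Pool.Agent.W_7d29a1_HZ Pool.Agent.W_7d29a1_HZ.R72
open Pool.Agent.W_7d29a1_HZ.Z86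
open Pool.Agent.W_7d29a1_C0.Mod92 (Px Pn lw ps pJ ne_Pn wm Pm)
open Pool.Agent.W_7d29a1_C0.P86
open Pool.Agent.W_7d29a1_C0.P15 (FinB)
open Pool.Agent.W_7d29a1_C0.N51 (On3 mc3 mc3_nonneg ADD)
open Pool.Agent.W_7d29a1_C0.N29 (Pla DomT dom_mono domT_mono)
open Pool.W7d29a1.C0 (gm)

noncomputable section

/-- The list with two kinds of places, `k` places. -/
def MixF (μ : Measure ℝ) (s : ℝ) (N y : ℕ) (ε θ X e M : ℝ) (k : ℕ) : Prop :=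
  ∀ Ps : List (Pla N y), Ps.length = k → (∀ P ∈ Ps, P.p.Ok N N θ) → Ps.Pairwise Pla.Bef → (∀ P ∈ Ps, P.Dm μ s X M) →
    ∀ f : Env × Finset ℕ → Px (Pn N y) → ℝ, (∀ A x, Measurable fun η => f (η, A) x) → (∀ ω x, 0 ≤ f ω x) → (∀ ω x, f ω x ≤ 1) →
    (∀ P ∈ Ps, FinB P.J f) →
    ∫ ω, gm (wm μ s N (Pn N y) ω) (fun x => f ω x * (Ps.map fun P => P.G ω x).prod) ∂(Pm μ N) ≤
      (Ps.map fun P => P.pr μ s N ε).prod * ∫ ω, gm (wm μ s N (Pn N y) ω) (f ω) ∂(Pm μ N) + (e + 2 * k * Real.exp (-M))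

/-- The event of two alternatives of the region, as an event. -/
def EvtF (μ : Measure ℝ) (s : ℝ) (N y : ℕ) (ε θ X e : ℝ) : Prop :=
  ∀ c d U V l : ℕ, c ≤ U → U + l ≤ V → V ≤ d → d ≤ N → (N : ℝ) ^ θ ≤ l →
    ∀ (H : ℕ) (R : ℝ), 1 ≤ R → (∀ j : ℕ, 1 ≤ j → j ≤ H → wd' μ s j ≤ R * wd' μ s l) → (d - U ≤ H ∨ V - c ≤ H) →
    ∀ d3 : ℝ, Real.exp (-X) ≤ d3 →
    ∀ f : Env × Finset ℕ → Px (Pn N y) → ℝ, (∀ A x, Measurable fun η => f (η, A) x) → (∀ ω x, 0 ≤ f ω x) → (∀ ω x, f ω x ≤ 1) →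
    FinB (Ico U (U + l)) f →
    ∀ G : Env × Finset ℕ → Px (Pn N y) → ℝ, (∀ ω x, 0 ≤ G ω x) → (∀ ω x, G ω x ≤ 1) →
    (∀ ω x, G ω x ≠ 0 → d3 < Pool.W7d29a1.C0.O1.NT (wm μ s N (Pn N y) ω) (pJ c d) U V x) →
    ∫ ω, gm (wm μ s N (Pn N y) ω) (fun x => f ω x * G ω x) ∂(Pm μ N) ≤
      (R * ((N : ℝ) ^ ε * (EE' μ s l)⁻¹)) ^ 2 * ∫ ω, gm (wm μ s N (Pn N y) ω) (f ω) ∂(Pm μ N) + e

/-- The mass of two alternatives. -/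
def NteF (μ : Measure ℝ) (s : ℝ) (N y : ℕ) (ε θ X e : ℝ) : Prop :=
  ∀ c d U V l : ℕ, c ≤ U → U + l ≤ V → V ≤ d → d ≤ N → (N : ℝ) ^ θ ≤ l →
    ∀ (H : ℕ) (R : ℝ), 1 ≤ R → (∀ j : ℕ, 1 ≤ j → j ≤ H → wd' μ s j ≤ R * wd' μ s l) → (d - U ≤ H ∨ V - c ≤ H) →
    ∀ f : Env × Finset ℕ → Px (Pn N y) → ℝ, (∀ A x, Measurable fun η => f (η, A) x) → (∀ ω x, 0 ≤ f ω x) → (∀ ω x, f ω x ≤ 1) →
    FinB (Ico U (U + l)) f →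
    ∀ G : Env × Finset ℕ → Px (Pn N y) → ℝ, (∀ ω x, 0 ≤ G ω x) → (∀ ω x, G ω x ≤ 1) →
    (∀ ω x, G ω x ≤ Real.exp X * Pool.W7d29a1.C0.O1.NT (wm μ s N (Pn N y) ω) (pJ c d) U V x) →
    ∫ ω, gm (wm μ s N (Pn N y) ω) (fun x => f ω x * G ω x) ∂(Pm μ N) ≤
      (R * ((N : ℝ) ^ ε * (EE' μ s l)⁻¹)) ^ 2 * ∫ ω, gm (wm μ s N (Pn N y) ω) (f ω) ∂(Pm μ N) + e

/-- Two windows of different scales. -/
def CDF (μ : Measure ℝ) (s : ℝ) (N y : ℕ) (ε θ X e : ℝ) : Prop :=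
  ∀ t₁ t₂ τ₁ τ₂ c' d' c d : ℕ, (N : ℝ) ^ θ ≤ t₁ → (N : ℝ) ^ θ ≤ t₂ → c ≤ c' →
    c' ≤ τ₁ → 1 ≤ τ₁ → τ₁ + t₁ ≤ τ₂ → τ₂ + t₂ ≤ d' → d' ≤ d → d ≤ N → ∀ R₁ R₂ : ℝ, 1 ≤ R₁ → 1 ≤ R₂ →
    (∀ j : ℕ, 1 ≤ j → j ≤ d' - τ₁ → wd' μ s j ≤ R₁ * wd' μ s t₁) → (∀ j : ℕ, 1 ≤ j → j ≤ d' - τ₂ → wd' μ s j ≤ R₂ * wd' μ s t₂) →
    ∀ A : Finset ℕ → Finset ℕ → Finset ℕ → Prop,
    (∀ S a b, S ⊆ range N → a ⊆ range N → b ⊆ range N → (∀ j, j ≤ c ∨ d ≤ j → pos S j = pos a j) →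
      (∀ j, j ≤ c ∨ d ≤ j → pos S j = pos b j) → A S a b → ADD c' d' τ₁ τ₂ (τ₂ + t₂) S a b) →
    ∀ G : Env × Finset ℕ → Px (Pn N y) → ℝ, (∀ ω x, 0 ≤ G ω x) → (∀ ω x, G ω x ≤ 1) →
    (∀ ω x, G ω x ≤ Real.exp X * mc3 μ s N y c d c d A ω.1 x.1) →
    ∀ f : Env × Finset ℕ → Px (Pn N y) → ℝ, (∀ A x, Measurable fun η => f (η, A) x) → (∀ ω x, 0 ≤ f ω x) → (∀ ω x, f ω x ≤ 1) →
    FinB (Ico τ₁ (τ₁ + t₁) ∪ Ico τ₂ (τ₂ + t₂)) f →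
    ∫ ω, gm (wm μ s N (Pn N y) ω) (fun x => f ω x * G ω x) ∂(Pm μ N) ≤
      ((R₁ * ((N : ℝ) ^ ε * (EE' μ s t₁)⁻¹)) * (R₂ * ((N : ℝ) ^ ε * (EE' μ s t₂)⁻¹))) *
        ∫ ω, gm (wm μ s N (Pn N y) ω) (f ω) ∂(Pm μ N) + e

/-- **ALL PRICES AT ONE `(N, y)`.** -/
structure Prc (μ : Measure ℝ) (s : ℝ) (N y : ℕ) (ε θ X e M : ℝ) : Prop where
  hy : y ≤ N
  N1 : 1 ≤ N
  X1 : 1 ≤ X
  hM : 8 ≤ M
  hMX : M ≤ X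
  e0 : 0 ≤ e
  mix : ∀ k ≤ 8, MixF μ s N y ε θ X e M k
  evt : EvtF μ s N y ε θ X e
  nte : NteF μ s N y ε θ X e
  cD : CDF μ s N y ε θ X e

variable {μ : Measure ℝ} {s : ℝ} {N y : ℕ} {ε θ X e M X' e' : ℝ}

theorem dm_mono72 {P : Pla N y} (h : P.Dm μ s X M) (hX : X ≤ X') : P.Dm μ s X' M := by
  obtain ⟨p, G, tr⟩ := P
  cases tr with
  | none => exact dom_mono h hX
  | some R => exact domT_mono h hX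

theorem MixF.mono {k : ℕ} (h : MixF μ s N y ε θ X e M k) (hX : X' ≤ X) (he : e ≤ e') : MixF μ s N y ε θ X' e' M k :=
  fun Ps h1 h2 h3 h4 f f1 f2 f3 f4 => (h Ps h1 h2 h3 (fun P hP => dm_mono72 (h4 P hP) hX) f f1 f2 f3 f4).trans (by linarith)

theorem EvtF.mono (h : EvtF μ s N y ε θ X e) (hX : X' ≤ X) (he : e ≤ e') : EvtF μ s N y ε θ X' e' :=
  fun c d U V l h1 h2 h3 h4 h5 H R hR hw hH d3 hd f f1 f2 f3 f4 G g1 g2 g3 =>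
    (h c d U V l h1 h2 h3 h4 h5 H R hR hw hH d3 ((Real.exp_le_exp.2 (neg_le_neg hX)).trans hd) f f1 f2 f3 f4 G g1 g2 g3).trans (by linarith)

theorem nT_nonneg (hy : y ≤ N) (c d U V : ℕ) (w : Px (Pn N y) → ℝ) (x : Px (Pn N y)) :
    0 ≤ Pool.W7d29a1.C0.O1.NT w (pJ c d) U V x := by
  have := ne_Pn (N := N) (y := y) hy
  unfold Pool.W7d29a1.C0.O1.NT
  refine Pool.W7d29a1.C0.VT31.cE_nonneg _ _ (fun u => ?_) x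
  refine Pool.W7d29a1.C0.VT31.cE_nonneg _ _ (fun v => ?_) x
  exact mul_nonneg (Pool.Agent.W_7d29a1_C0.Swap57.NI_nonneg _ _ _ _)
    (mul_nonneg (Pool.Agent.W_7d29a1_C0.Swap57.NI_nonneg _ _ _ _) (Pool.Agent.W_7d29a1_C0.Swap57.NI_nonneg _ _ _ _))

theorem NteF.mono (hy : y ≤ N) (h : NteF μ s N y ε θ X e) (hX : X' ≤ X) (he : e ≤ e') : NteF μ s N y ε θ X' e' :=
  fun c d U V l h1 h2 h3 h4 h5 H R hR hw hH f f1 f2 f3 f4 G g1 g2 g3 =>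
    (h c d U V l h1 h2 h3 h4 h5 H R hR hw hH f f1 f2 f3 f4 G g1 g2 fun ω x => (g3 ω x).trans
      (mul_le_mul_of_nonneg_right (Real.exp_le_exp.2 hX) (nT_nonneg hy _ _ _ _ _ x))).trans (by linarith)

theorem CDF.mono (h : CDF μ s N y ε θ X e) (hX : X' ≤ X) (he : e ≤ e') : CDF μ s N y ε θ X' e' :=
  fun t₁ t₂ τ₁ τ₂ c' d' c d h1 h2 h3 h4 h5 h6 h7 h8 h9 R₁ R₂ r1 r2 w1 w2 A hA G g1 g2 g3 f f1 f2 f3 f4 =>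
    (h t₁ t₂ τ₁ τ₂ c' d' c d h1 h2 h3 h4 h5 h6 h7 h8 h9 R₁ R₂ r1 r2 w1 w2 A hA G g1 g2 (fun ω x => (g3 ω x).trans
      (mul_le_mul_of_nonneg_right (Real.exp_le_exp.2 hX) (mc3_nonneg _ _))) f f1 f2 f3 f4).trans (by linarith)

/-- The amplification can be lowered, the error enlarged. -/
theorem Prc.mono (h : Prc μ s N y ε θ X e M) (hX : X' ≤ X) (he : e ≤ e') (hX1 : 1 ≤ X') (hMX : M ≤ X') : Prc μ s N y ε θ X' e' M :=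
  ⟨h.hy, h.N1, hX1, h.hM, hMX, h.e0.trans he, fun k hk => (h.mix k hk).mono hX he, h.evt.mono hX he, h.nte.mono h.hy hX he,
    h.cD.mono hX he⟩

/-! ### Common constants -/

/-- A price with its constants. -/
def Cst (P : ℝ → ℝ → ℝ → ℕ → Prop) : Prop := ∃ δ κ c : ℝ, 0 < δ ∧ 0 < κ ∧ 0 < c ∧ ∃ N₀ : ℕ, ∀ N : ℕ, N₀ ≤ N → P δ κ c N

/-- Smaller constants are allowed. -/
def Dn (P : ℝ → ℝ → ℝ → ℕ → Prop) : Prop :=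
  ∀ δ κ c δ' κ' c' : ℝ, ∀ N : ℕ, 1 ≤ N → δ' ≤ δ → κ' ≤ κ → c' ≤ c → P δ κ c N → P δ' κ' c' N

theorem Cst.and {P Q : ℝ → ℝ → ℝ → ℕ → Prop} (hP : Cst P) (hQ : Cst Q) (dP : Dn P) (dQ : Dn Q) :
    Cst fun δ κ c N => P δ κ c N ∧ Q δ κ c N := by
  obtain ⟨δ₁, κ₁, c₁, d1, k1, e1, N₁, h1⟩ := hP
  obtain ⟨δ₂, κ₂, c₂, d2, k2, e2, N₂, h2⟩ := hQ
  refine ⟨min δ₁ δ₂, min κ₁ κ₂, min c₁ c₂, lt_min d1 d2, lt_min k1 k2, lt_min e1 e2, N₁ + N₂ + 1, fun N hN => ⟨?_, ?_⟩⟩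
  · exact dP _ _ _ _ _ _ N (by omega) (min_le_left _ _) (min_le_left _ _) (min_le_left _ _) (h1 N (by omega))
  · exact dQ _ _ _ _ _ _ N (by omega) (min_le_right _ _) (min_le_right _ _) (min_le_right _ _) (h2 N (by omega))

theorem Dn.and {P Q : ℝ → ℝ → ℝ → ℕ → Prop} (dP : Dn P) (dQ : Dn Q) : Dn fun δ κ c N => P δ κ c N ∧ Q δ κ c N :=
  fun δ κ c δ' κ' c' N hN h1 h2 h3 h => ⟨dP _ _ _ _ _ _ N hN h1 h2 h3 h.1, dQ _ _ _ _ _ _ N hN h1 h2 h3 h.2⟩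

theorem Cst.fin {P : ℕ → ℝ → ℝ → ℝ → ℕ → Prop} (dP : ∀ k, Dn (P k)) : ∀ n : ℕ, (∀ k < n, Cst (P k)) →
    Cst fun δ κ c N => ∀ k < n, P k δ κ c N := by
  intro n
  induction n with
  | zero => exact fun _ => ⟨1, 1, 1, one_pos, one_pos, one_pos, 0, fun N _ k hk => absurd hk (Nat.not_lt_zero _)⟩
  | succ n ih =>
    intro h
    have d1 : Dn fun δ κ c N => ∀ k < n, P k δ κ c N := fun δ κ c δ' κ' c' N hN h1 h2 h3 h4 k hk =>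
      dP k _ _ _ _ _ _ N hN h1 h2 h3 (h4 k hk)
    obtain ⟨δ, κ, c, a1, a2, a3, N₀, h5⟩ := (ih fun k hk => h k (by omega)).and (h n (by omega)) d1 (dP n)
    refine ⟨δ, κ, c, a1, a2, a3, N₀, fun N hN k hk => ?_⟩
    rcases Nat.lt_or_ge k n with h6 | h6
    · exact (h5 N hN).1 k h6
    · have : k = n := by omega
      subst this
      exact (h5 N hN).2

/-- The cone. -/
abbrev Cone (μ : Measure ℝ) (s δ : ℝ) (N y : ℕ) : Prop := y ≤ N ∧ |(y : ℝ) - sl μ s * N| ≤ (N : ℝ) ^ δ * wd' μ s N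

theorem Cone.mono {δ δ' : ℝ} (h : Cone μ s δ' N y) (hN : 1 ≤ N) (hδ : δ' ≤ δ) : Cone μ s δ N y :=
  ⟨h.1, h.2.trans (mul_le_mul_of_nonneg_right (Real.rpow_le_rpow_of_exponent_le (by exact_mod_cast hN) hδ)
    (zero_le_one.trans (le_max_left _ _)))⟩

theorem pw_mono {κ κ' : ℝ} (hN : 1 ≤ N) (h : κ' ≤ κ) : (N : ℝ) ^ κ' ≤ (N : ℝ) ^ κ :=
  Real.rpow_le_rpow_of_exponent_le (by exact_mod_cast hN) h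

theorem ex_mono {κ κ' : ℝ} (hN : 1 ≤ N) (h : κ' ≤ κ) : Real.exp (-(N : ℝ) ^ κ) ≤ Real.exp (-(N : ℝ) ^ κ') :=
  Real.exp_le_exp.2 (neg_le_neg (pw_mono hN h))

variable [IsProbabilityMeasure μ] {c₀ C₀ : ℝ} {n₀ : ℕ}

theorem cst_mix (h : In μ s c₀ C₀ n₀) {ε θ : ℝ} (hε : 0 < ε) (hθ : 0 < θ) (k : ℕ) (hk : k ≤ 8) :
    Cst fun δ κ c N => ∀ y, Cone μ s δ N y → ∀ M : ℝ, 8 ≤ M → M ≤ (N : ℝ) ^ κ →
      MixF μ s N y ε θ ((N : ℝ) ^ κ) (Real.exp (-(N : ℝ) ^ c)) M k := by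
  obtain ⟨δ, κ, c, hδ, hκ, hc, L₀, hP⟩ := N29.price_mix' h k hk ε θ hε hθ
  exact ⟨δ, κ, c, hδ, hκ, hc, L₀, fun N hN y hy M hM hMN Ps h1 h2 h3 h4 f f1 f2 f3 f4 =>
    hP N hN N (by omega) le_rfl y hy.1 hy.2 M hM hMN Ps h1 h2 h3 h4 f f1 f2 f3 f4⟩

theorem cst_evt (h : In μ s c₀ C₀ n₀) {ε θ : ℝ} (hε : 0 < ε) (hθ : 0 < θ) :
    Cst fun δ κ c N => ∀ y, Cone μ s δ N y → EvtF μ s N y ε θ ((N : ℝ) ^ κ) (Real.exp (-(N : ℝ) ^ c)) := by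
  obtain ⟨δ, κ, c, hδ, hκ, hc, L₀, hP⟩ := N29.evt_price' h ε θ hε hθ
  exact ⟨δ, κ, c, hδ, hκ, hc, L₀, fun N hN y hy c d U V l h1 h2 h3 h4 h5 H R hR hw hH d3 hd f f1 f2 f3 f4 G g1 g2 g3 =>
    hP N hN N (by omega) le_rfl y hy.1 hy.2 c d U V l h1 h2 h3 h4 h5 H R hR hw hH d3 hd f f1 f2 f3 f4 G g1 g2 g3⟩

theorem cst_nte (h : In μ s c₀ C₀ n₀) {ε θ : ℝ} (hε : 0 < ε) (hθ : 0 < θ) :
    Cst fun δ κ c N => ∀ y, Cone μ s δ N y → NteF μ s N y ε θ ((N : ℝ) ^ κ) (Real.exp (-(N : ℝ) ^ c)) := by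
  obtain ⟨δ, κ, c, hδ, hκ, hc, L₀, hP⟩ := N29.nte_price' h ε θ hε hθ
  exact ⟨δ, κ, c, hδ, hκ, hc, L₀, fun N hN y hy c d U V l h1 h2 h3 h4 h5 H R hR hw hH f f1 f2 f3 f4 G g1 g2 g3 =>
    hP N hN N (by omega) le_rfl y hy.1 hy.2 c d U V l h1 h2 h3 h4 h5 H R hR hw hH f f1 f2 f3 f4 G g1 g2 g3⟩

theorem cst_cd (h : In μ s c₀ C₀ n₀) {ε θ : ℝ} (hε : 0 < ε) (hθ : 0 < θ) :
    Cst fun δ κ c N => ∀ y, Cone μ s δ N y → CDF μ s N y ε θ ((N : ℝ) ^ κ) (Real.exp (-(N : ℝ) ^ c)) := by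
  obtain ⟨δ, κ, c, hδ, hκ, hc, L₀, hP⟩ := N51.coreD h ε θ hε hθ
  exact ⟨δ, κ, c, hδ, hκ, hc, L₀, fun N hN y hy => hP N hN N (by omega) le_rfl y hy.1 hy.2⟩

/-- **THE CONSTANTS.** -/
theorem prc72 (h : In μ s c₀ C₀ n₀) : ∀ ε θ : ℝ, 0 < ε → 0 < θ → ∃ δ κ c₂ : ℝ, 0 < δ ∧ 0 < κ ∧ 0 < c₂ ∧ ∃ N₀ : ℕ, ∀ N : ℕ, N₀ ≤ N →
    ∀ y : ℕ, y ≤ N → |(y : ℝ) - sl μ s * N| ≤ (N : ℝ) ^ δ * wd' μ s N → ∀ M : ℝ, 8 ≤ M → M ≤ (N : ℝ) ^ κ →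
    Prc μ s N y ε θ ((N : ℝ) ^ κ) (Real.exp (-(N : ℝ) ^ c₂)) M := by
  intro ε θ hε hθ
  have d1 : ∀ k, Dn fun δ κ c N => ∀ y, Cone μ s δ N y → ∀ M : ℝ, 8 ≤ M → M ≤ (N : ℝ) ^ κ →
      MixF μ s N y ε θ ((N : ℝ) ^ κ) (Real.exp (-(N : ℝ) ^ c)) M k := fun k δ κ c δ' κ' c' N hN a1 a2 a3 hP y hy M hM hMN =>
    (hP y (hy.mono hN a1) M hM (hMN.trans (pw_mono hN a2))).mono (pw_mono hN a2) (ex_mono hN a3)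
  have d2 : Dn fun δ κ c N => ∀ y, Cone μ s δ N y → EvtF μ s N y ε θ ((N : ℝ) ^ κ) (Real.exp (-(N : ℝ) ^ c)) :=
    fun δ κ c δ' κ' c' N hN a1 a2 a3 hP y hy => (hP y (hy.mono hN a1)).mono (pw_mono hN a2) (ex_mono hN a3)
  have d3 : Dn fun δ κ c N => ∀ y, Cone μ s δ N y → NteF μ s N y ε θ ((N : ℝ) ^ κ) (Real.exp (-(N : ℝ) ^ c)) :=
    fun δ κ c δ' κ' c' N hN a1 a2 a3 hP y hy => (hP y (hy.mono hN a1)).mono hy.1 (pw_mono hN a2) (ex_mono hN a3)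
  have d4 : Dn fun δ κ c N => ∀ y, Cone μ s δ N y → CDF μ s N y ε θ ((N : ℝ) ^ κ) (Real.exp (-(N : ℝ) ^ c)) :=
    fun δ κ c δ' κ' c' N hN a1 a2 a3 hP y hy => (hP y (hy.mono hN a1)).mono (pw_mono hN a2) (ex_mono hN a3)
  have k1 := Cst.fin d1 9 fun k hk => cst_mix h hε hθ k (by omega)
  have e1 : Dn fun δ κ c N => ∀ k < 9, ∀ y, Cone μ s δ N y → ∀ M : ℝ, 8 ≤ M → M ≤ (N : ℝ) ^ κ →
      MixF μ s N y ε θ ((N : ℝ) ^ κ) (Real.exp (-(N : ℝ) ^ c)) M k := fun δ κ c δ' κ' c' N hN a1 a2 a3 hP k hk =>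
    d1 k _ _ _ _ _ _ N hN a1 a2 a3 (hP k hk)
  obtain ⟨δ, κ, c₂, hδ, hκ, hc, N₀, hP⟩ := ((k1.and (cst_evt h hε hθ) e1 d2).and ((cst_nte h hε hθ).and (cst_cd h hε hθ) d3 d4)
    (e1.and d2) (d3.and d4))
  refine ⟨δ, κ, c₂, hδ, hκ, hc, N₀ + 1, fun N hN y hyN hyc M hM hMN => ?_⟩
  obtain ⟨⟨q1, q2⟩, q3, q4⟩ := hP N (by omega)
  have hy : Cone μ s δ N y := ⟨hyN, hyc⟩
  exact ⟨hyN, by omega, Real.one_le_rpow (by exact_mod_cast (show 1 ≤ N by omega)) hκ.le, hM, hMN, (Real.exp_pos _).le,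
    fun k hk => q1 k (by omega) y hy M hM hMN, q2 y hy, q3 y hy, q4 y hy⟩

end

end Pool.Agent.W_7d29a1_C0.Pt450
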