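import Pool.Agent.W_7d29a1_C0.Trap82

/-!
CURV0 (MP_7d29a1_pr): cumulants and conditioning. The general product rule for the cumulants of arguments which depend on the
parameter; the conditional cumulants of `g` given `p`; the cumulants of `g, .., g` and of functions of `p` in terms of the
marginal over `p` (orders one to five). (helper82)
-/

set_option autoImplicit false
set_option linter.unusedSectionVars false
set_option linter.unusedVariables false

namespace Pool.W7d29a1.C0

open Finset Filter Topology
open Pool.Agent.W_7d29a1_C0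

noncomputable section

variable {X : Type*} [Fintype X] [Nonempty X]

/-! ### The product rule -/

/-- The values at `t` of the first components. -/
def evg (t : ℝ) (fs : List ((ℝ → X → ℝ) × (X → ℝ))) : List (X → ℝ) := fs.map fun q => q.1 t

/-- The sum of the cumulants in which one argument is replaced by its derivative. -/
def gsum (t : ℝ) (w : X → ℝ) : List (X → ℝ) → List ((ℝ → X → ℝ) × (X → ℝ)) → ℝ
  | _, [] => 0
  | k, q :: l => cm (k ++ q.2 :: evg t l) w + gsum t w (k ++ [q.1 t]) l

theorem gsum_basis [DecidableEq X] (t : ℝ) (w f : X → ℝ) : ∀ (l : List ((ℝ → X → ℝ) × (X → ℝ))) (k m : List (X → ℝ)),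
    gsum t w (k ++ f :: m) l = ∑ i, f i * gsum t w (k ++ (fun j => if i = j then (1 : ℝ) else 0) :: m) l
  | [], k, m => by simp [gsum]
  | q :: l, k, m => by
    have h := gsum_basis t w f l k (m ++ [q.1 t])
    have e : ∀ c : X → ℝ, (k ++ c :: m) ++ [q.1 t] = k ++ c :: (m ++ [q.1 t]) := fun c => by simp
    have e2 : ∀ c : X → ℝ, (k ++ c :: m) ++ q.2 :: evg t l = k ++ c :: (m ++ q.2 :: evg t l) := fun c => by simp
    show cm ((k ++ f :: m) ++ q.2 :: evg t l) w + gsum t w ((k ++ f :: m) ++ [q.1 t]) l = ∑ i, f i *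
      (cm ((k ++ (fun j => if i = j then (1 : ℝ) else 0) :: m) ++ q.2 :: evg t l) w +
        gsum t w ((k ++ (fun j => if i = j then (1 : ℝ) else 0) :: m) ++ [q.1 t]) l)
    rw [e, e2, h, cm_mid_basis, ← Finset.sum_add_distrib]
    refine Finset.sum_congr rfl fun i _ => ?_
    rw [e, e2]
    ring

/-- **The product rule** for cumulants whose weights and arguments depend on the parameter. -/
theorem hasDerivAt_cm_gen {w : ℝ → X → ℝ} {w' : X → ℝ} {t : ℝ} (hw : HasDerivAt w w' t) :
    ∀ (fs : List ((ℝ → X → ℝ) × (X → ℝ))), (∀ q ∈ fs, HasDerivAt q.1 q.2 t) → ∀ k : List (X → ℝ),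
      HasDerivAt (fun u => cm (k ++ evg u fs) (w u)) (cm (w' :: (k ++ evg t fs)) (w t) + gsum t (w t) k fs) t
  | [], _, k => by
    show HasDerivAt (fun u => cm (k ++ []) (w u)) (cm (w' :: (k ++ [])) (w t) + 0) t
    rw [add_zero]
    exact hasDerivAt_cm (k ++ []) hw
  | q :: l, h, k => by
    classical
    have hq : HasDerivAt q.1 q.2 t := h q (by simp)
    have ih := fun i => hasDerivAt_cm_gen hw l (fun r hr => h r (by simp [hr])) (k ++ [fun j => if i = j then (1 : ℝ) else 0])
    have hi : ∀ i : X, HasDerivAt (fun u => q.1 u i) (q.2 i) t := fun i => (hasDerivAt_pi.1 hq) i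
    have hs : HasDerivAt (fun u => ∑ i, q.1 u i * cm ((k ++ [fun j => if i = j then (1 : ℝ) else 0]) ++ evg u l) (w u))
        (∑ i, (q.2 i * cm ((k ++ [fun j => if i = j then (1 : ℝ) else 0]) ++ evg t l) (w t) + q.1 t i *
          (cm (w' :: ((k ++ [fun j => if i = j then (1 : ℝ) else 0]) ++ evg t l)) (w t) +
            gsum t (w t) (k ++ [fun j => if i = j then (1 : ℝ) else 0]) l))) t :=
      HasDerivAt.fun_sum fun i _ => (hi i).mul (ih i)
    have e : ∀ (c : X → ℝ) (u : ℝ), (k ++ [c]) ++ evg u l = k ++ c :: evg u l := fun c u => by simp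
    refine (hs.congr_deriv ?_).congr_of_eventuallyEq (Eventually.of_forall fun u => ?_)
    · have a1 := cm_mid_basis k (evg t l) q.2 (w t)
      have a2 := cm_mid_basis (w' :: k) (evg t l) (q.1 t) (w t)
      have a3 := gsum_basis t (w t) (q.1 t) l k []
      simp only [List.cons_append] at a2
      show _ = cm (w' :: (k ++ q.1 t :: evg t l)) (w t) +
        (cm (k ++ q.2 :: evg t l) (w t) + gsum t (w t) (k ++ [q.1 t]) l)
      rw [a1, a2, a3, ← Finset.sum_add_distrib, ← Finset.sum_add_distrib]
      refine Finset.sum_congr rfl fun i _ => ?_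
      rw [e]
      ring
    · show cm (k ++ q.1 u :: evg u l) (w u) = ∑ i, q.1 u i * cm ((k ++ [fun j => if i = j then (1 : ℝ) else 0]) ++ evg u l) (w u)
      rw [cm_mid_basis]
      refine Finset.sum_congr rfl fun i _ => ?_
      rw [e]

/-! ### Conditional cumulants -/

section Cond

variable {Y : Type*} [Fintype Y] [Nonempty Y] [DecidableEq Y]

/-- Restriction to the fibre over `y`. -/
def rs (p : X → Y) (y : Y) (f : X → ℝ) : {x : X // p x = y} → ℝ := fun x => f x.1

/-- The conditional cumulant of order `k` of `g` given `p = y`. -/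
def cc (p : X → Y) (g : X → ℝ) (k : ℕ) (w : X → ℝ) : Y → ℝ := fun y => cm (List.replicate k (rs p y g)) (rs p y w)

theorem nonempty_fib {p : X → Y} (hp : Function.Surjective p) (y : Y) : Nonempty {x : X // p x = y} := by
  obtain ⟨x, hx⟩ := hp y
  exact ⟨⟨x, hx⟩⟩

theorem cc_zero (p : X → Y) (g w : X → ℝ) : cc p g 0 w = wmarg p w := by
  funext y
  show Real.log (∑ x : {x : X // p x = y}, Real.exp (w x.1)) = Real.log _
  congr 1
  exact (Finset.sum_subtype (univ.filter fun x => p x = y) (fun x => by simp) fun x => Real.exp (w x)).symm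

theorem hasDerivAt_cc {p : X → Y} (hp : Function.Surjective p) (g w : X → ℝ) (k : ℕ) (t : ℝ) :
    HasDerivAt (fun t : ℝ => cc p g k (w + t • g)) (cc p g (k + 1) (w + t • g)) t := by
  rw [hasDerivAt_pi]
  intro y
  have := nonempty_fib hp y
  have h := hasDerivAt_cm_line (List.replicate k (rs p y g)) (rs p y w) (rs p y g) t
  exact h

theorem hasDerivAt_wmarg {p : X → Y} (hp : Function.Surjective p) (g w : X → ℝ) (t : ℝ) :
    HasDerivAt (fun t : ℝ => wmarg p (w + t • g)) (cc p g 1 (w + t • g)) t := by
  have h := hasDerivAt_cc hp g w 0 t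
  refine h.congr_of_eventuallyEq (Eventually.of_forall fun u => ?_)
  exact (cc_zero p g _).symm

/-- The conditional mean. -/
theorem cc_one {p : X → Y} (hp : Function.Surjective p) (g w : X → ℝ) (y : Y) : cc p g 1 w y =
    (∑ x ∈ univ.filter (fun x => p x = y), Real.exp (w x) * g x) / ∑ x ∈ univ.filter (fun x => p x = y), Real.exp (w x) := by
  have := nonempty_fib hp y
  show cm [rs p y g] (rs p y w) = _
  rw [cm_one]
  show (∑ x : {x : X // p x = y}, Real.exp (w x.1) * g x.1) / (∑ x : {x : X // p x = y}, Real.exp (w x.1)) = _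
  rw [Finset.sum_subtype (p := fun x => p x = y) (univ.filter fun x => p x = y) (fun x => by simp)
    fun x => Real.exp (w x) * g x,
    Finset.sum_subtype (p := fun x => p x = y) (univ.filter fun x => p x = y) (fun x => by simp) fun x => Real.exp (w x)]

/-- The conditional variance. -/
theorem cc_two {p : X → Y} (hp : Function.Surjective p) (g w : X → ℝ) (y : Y) : cc p g 2 w y =
    gcov univ (ew (rs p y w)) (rs p y g) (rs p y g) := by
  have := nonempty_fib hp y
  exact cm_two _ _ _

/-! ### The cumulants of the marginal along the direction `g` -/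

/-- The cumulant, under the marginal, of the conditional cumulants of orders `ks` and of the functions `l`. -/
def CC (p : X → Y) (g w : X → ℝ) (l : List (Y → ℝ)) (ks : List ℕ) (t : ℝ) : ℝ :=
  cm (ks.map (fun k => cc p g k (w + t • g)) ++ l) (wmarg p (w + t • g))

/-- The sum over the orders of the terms in which one order is raised by one. -/
def incs (p : X → Y) (g w : X → ℝ) (l : List (Y → ℝ)) (t : ℝ) : List ℕ → List ℕ → ℝ
  | _, [] => 0
  | pre, k :: ks => CC p g w l (pre ++ (k + 1) :: ks) t + incs p g w l t (pre ++ [k]) ks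

theorem CC_perm (p : X → Y) (g w : X → ℝ) (l : List (Y → ℝ)) {ks ks' : List ℕ} (h : ks.Perm ks') (t : ℝ) :
    CC p g w l ks t = CC p g w l ks' t := by
  unfold CC
  rw [cm_perm ((h.map _).append_right l)]

theorem gsum_eq_incs (p : X → Y) (g w : X → ℝ) (l : List (Y → ℝ)) (t : ℝ) : ∀ (ks pre : List ℕ),
    gsum t (wmarg p (w + t • g)) (l ++ pre.map fun k => cc p g k (w + t • g))
      (ks.map fun k => ((fun t : ℝ => cc p g k (w + t • g)), cc p g (k + 1) (w + t • g))) = incs p g w l t pre ks
  | [], pre => rfl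
  | k :: ks, pre => by
    have ih := gsum_eq_incs p g w l t ks (pre ++ [k])
    rw [List.map_append, ← List.append_assoc] at ih
    show cm ((l ++ pre.map fun k => cc p g k (w + t • g)) ++ cc p g (k + 1) (w + t • g) ::
      evg t (ks.map fun k => ((fun t : ℝ => cc p g k (w + t • g)), cc p g (k + 1) (w + t • g)))) (wmarg p (w + t • g)) +
      gsum t (wmarg p (w + t • g)) ((l ++ pre.map fun k => cc p g k (w + t • g)) ++ [cc p g k (w + t • g)])
        (ks.map fun k => ((fun t : ℝ => cc p g k (w + t • g)), cc p g (k + 1) (w + t • g))) =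
      CC p g w l (pre ++ (k + 1) :: ks) t + incs p g w l t (pre ++ [k]) ks
    rw [← ih]
    congr 1
    have e : evg t (ks.map fun k => ((fun t : ℝ => cc p g k (w + t • g)), cc p g (k + 1) (w + t • g))) =
        ks.map fun k => cc p g k (w + t • g) := by
      unfold evg
      rw [List.map_map]
      rfl
    rw [e]
    unfold CC
    rw [List.map_append, List.map_cons]
    refine congrFun (cm_perm ?_) _
    rw [List.append_assoc]
    exact List.perm_append_comm

/-- **The derivative rule of the marginal cumulants.** -/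
theorem hasDerivAt_CC {p : X → Y} (hp : Function.Surjective p) (g w : X → ℝ) (l : List (Y → ℝ)) (ks : List ℕ) (t : ℝ) :
    HasDerivAt (fun t => CC p g w l ks t) (CC p g w l (1 :: ks) t + incs p g w l t [] ks) t := by
  have h := hasDerivAt_cm_gen (hasDerivAt_wmarg hp g w t)
    (ks.map fun k => ((fun t : ℝ => cc p g k (w + t • g)), cc p g (k + 1) (w + t • g))) (fun q hq => by
      obtain ⟨k, _, rfl⟩ := List.mem_map.1 hq
      exact hasDerivAt_cc hp g w k t) l
  have e : ∀ u : ℝ, evg u (ks.map fun k => ((fun t : ℝ => cc p g k (w + t • g)), cc p g (k + 1) (w + t • g))) =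
      ks.map fun k => cc p g k (w + u • g) := fun u => by
    unfold evg
    rw [List.map_map]
    rfl
  have i := gsum_eq_incs p g w l t ks []
  rw [List.map_nil, List.append_nil] at i
  rw [i] at h
  refine (h.congr_deriv ?_).congr_of_eventuallyEq (Eventually.of_forall fun u => ?_)
  · congr 1
    rw [e t]
    unfold CC
    rw [List.map_cons, List.cons_append]
    exact congrFun (cm_perm (List.Perm.cons _ List.perm_append_comm)) _
  · show CC p g w l ks u = cm (l ++ evg u (ks.map fun k => ((fun t : ℝ => cc p g k (w + t • g)),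
      cc p g (k + 1) (w + t • g)))) (wmarg p (w + u • g))
    rw [e u]
    unfold CC
    exact congrFun (cm_perm List.perm_append_comm) _

/-- The cumulant of `g, .., g` (`k` times) and of functions of `p`, along the direction `g`. -/
def hg (p : X → Y) (g w : X → ℝ) (l : List (Y → ℝ)) (k : ℕ) (t : ℝ) : ℝ :=
  cm (List.replicate k g ++ l.map fun F => F ∘ p) (w + t • g)

theorem hasDerivAt_hg (p : X → Y) (g w : X → ℝ) (l : List (Y → ℝ)) (k : ℕ) (t : ℝ) :
    HasDerivAt (fun t => hg p g w l k t) (hg p g w l (k + 1) t) t :=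
  hasDerivAt_cm_line _ w g t

theorem hg_zero {p : X → Y} (hp : Function.Surjective p) (g w : X → ℝ) (l : List (Y → ℝ)) (t : ℝ) :
    hg p g w l 0 t = CC p g w l [] t := cm_marg hp l _

theorem hg_one {p : X → Y} (hp : Function.Surjective p) (g w : X → ℝ) (l : List (Y → ℝ)) (t : ℝ) :
    hg p g w l 1 t = CC p g w l [1] t := by
  have h := (hasDerivAt_hg p g w l 0 t).unique ((hasDerivAt_CC hp g w l [] t).congr_of_eventuallyEq
    (Eventually.of_forall fun u => hg_zero hp g w l u))
  simpa [incs] using h

theorem hg_two {p : X → Y} (hp : Function.Surjective p) (g w : X → ℝ) (l : List (Y → ℝ)) (t : ℝ) :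
    hg p g w l 2 t = CC p g w l [1, 1] t + CC p g w l [2] t := by
  have h := (hasDerivAt_hg p g w l 1 t).unique ((hasDerivAt_CC hp g w l [1] t).congr_of_eventuallyEq
    (Eventually.of_forall fun u => hg_one hp g w l u))
  simpa [incs] using h

theorem hg_three {p : X → Y} (hp : Function.Surjective p) (g w : X → ℝ) (l : List (Y → ℝ)) (t : ℝ) :
    hg p g w l 3 t = CC p g w l [1, 1, 1] t + 3 * CC p g w l [2, 1] t + CC p g w l [3] t := by
  have h := (hasDerivAt_hg p g w l 2 t).unique (((hasDerivAt_CC hp g w l [1, 1] t).add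
    (hasDerivAt_CC hp g w l [2] t)).congr_of_eventuallyEq (Eventually.of_forall fun u => hg_two hp g w l u))
  have e1 : CC p g w l [1, 2] t = CC p g w l [2, 1] t := CC_perm p g w l (by decide) t
  simp only [incs, List.nil_append, List.cons_append, add_zero] at h
  norm_num at h
  rw [e1] at h
  linarith

theorem hg_four {p : X → Y} (hp : Function.Surjective p) (g w : X → ℝ) (l : List (Y → ℝ)) (t : ℝ) :
    hg p g w l 4 t = CC p g w l [1, 1, 1, 1] t + 6 * CC p g w l [2, 1, 1] t + 4 * CC p g w l [3, 1] t +
      3 * CC p g w l [2, 2] t + CC p g w l [4] t := by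
  have h := (hasDerivAt_hg p g w l 3 t).unique ((((hasDerivAt_CC hp g w l [1, 1, 1] t).add
    ((hasDerivAt_CC hp g w l [2, 1] t).const_mul 3)).add (hasDerivAt_CC hp g w l [3] t)).congr_of_eventuallyEq
    (Eventually.of_forall fun u => hg_three hp g w l u))
  have e1 : CC p g w l [1, 2, 1] t = CC p g w l [2, 1, 1] t := CC_perm p g w l (by decide) t
  have e2 : CC p g w l [1, 1, 2] t = CC p g w l [2, 1, 1] t := CC_perm p g w l (by decide) t
  have e3 : CC p g w l [1, 3] t = CC p g w l [3, 1] t := CC_perm p g w l (by decide) t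
  simp only [incs, List.nil_append, List.cons_append, add_zero] at h
  norm_num at h
  rw [e1, e2, e3] at h
  linarith

theorem hg_five {p : X → Y} (hp : Function.Surjective p) (g w : X → ℝ) (l : List (Y → ℝ)) (t : ℝ) :
    hg p g w l 5 t = CC p g w l [1, 1, 1, 1, 1] t + 10 * CC p g w l [2, 1, 1, 1] t + 10 * CC p g w l [3, 1, 1] t +
      15 * CC p g w l [2, 2, 1] t + 10 * CC p g w l [3, 2] t + 5 * CC p g w l [4, 1] t + CC p g w l [5] t := by
  have h := (hasDerivAt_hg p g w l 4 t).unique ((((((hasDerivAt_CC hp g w l [1, 1, 1, 1] t).add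
    ((hasDerivAt_CC hp g w l [2, 1, 1] t).const_mul 6)).add ((hasDerivAt_CC hp g w l [3, 1] t).const_mul 4)).add
    ((hasDerivAt_CC hp g w l [2, 2] t).const_mul 3)).add (hasDerivAt_CC hp g w l [4] t)).congr_of_eventuallyEq
    (Eventually.of_forall fun u => hg_four hp g w l u))
  have e1 : CC p g w l [1, 2, 1, 1] t = CC p g w l [2, 1, 1, 1] t := CC_perm p g w l (by decide) t
  have e2 : CC p g w l [1, 1, 2, 1] t = CC p g w l [2, 1, 1, 1] t := CC_perm p g w l (by decide) t
  have e3 : CC p g w l [1, 1, 1, 2] t = CC p g w l [2, 1, 1, 1] t := CC_perm p g w l (by decide) t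
  have e4 : CC p g w l [1, 3, 1] t = CC p g w l [3, 1, 1] t := CC_perm p g w l (by decide) t
  have e5 : CC p g w l [2, 1, 2] t = CC p g w l [2, 2, 1] t := CC_perm p g w l (by decide) t
  have e6 : CC p g w l [1, 2, 2] t = CC p g w l [2, 2, 1] t := CC_perm p g w l (by decide) t
  have e7 : CC p g w l [1, 4] t = CC p g w l [4, 1] t := CC_perm p g w l (by decide) t
  have e8 : CC p g w l [2, 3] t = CC p g w l [3, 2] t := CC_perm p g w l (by decide) t
  simp only [incs, List.nil_append, List.cons_append, add_zero] at h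
  norm_num at h
  rw [e1, e2, e3, e4, e5, e6, e7, e8] at h
  linarith

/-- Projection, order one: `g` may be replaced by its conditional mean. -/
theorem cm_proj_one {p : X → Y} (hp : Function.Surjective p) (g w : X → ℝ) (l : List (Y → ℝ)) :
    cm (g :: l.map fun F => F ∘ p) w = cm (cc p g 1 w :: l) (wmarg p w) := by
  have h := hg_one hp g w l 0
  simpa [hg, CC] using h

/-- Projection, order two: the conditional mean twice, plus the conditional variance. -/
theorem cm_proj_two {p : X → Y} (hp : Function.Surjective p) (g w : X → ℝ) (l : List (Y → ℝ)) :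
    cm (g :: g :: l.map fun F => F ∘ p) w = cm (cc p g 1 w :: cc p g 1 w :: l) (wmarg p w) +
      cm (cc p g 2 w :: l) (wmarg p w) := by
  have h := hg_two hp g w l 0
  simpa [hg, CC, List.replicate_succ] using h

end Cond

end

end Pool.W7d29a1.C0
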