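import Pool.Agent.W_7d29a1_C0.E2S39C
import Pool.Agent.W_7d29a1_C0.OkE15C
import Pool.Agent.W_7d29a1_C0.NTX29

/-!
MP_7d29a1_pr, [C0], the pair price of `¬ okE` at the corner (helper50), first part: the three branches `EvT` given `(0, z)` as a mass of pairs
(`mc3`), cut at two rows `hA < hB` in front of the window: both loops local (`DomT`, block `(hA, z)`), one loop long and the other one local
(a product of two places), both loops over `[hB, ..]`.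
-/

set_option autoImplicit false
set_option linter.unusedSectionVars false
set_option linter.unusedVariables false

namespace Pool.Agent.W_7d29a1_C0.Pt450

open MeasureTheory ProbabilityTheory Filter Topology Finset
open Pool.Agent.W_7d29a1_F Pool.Agent.W_7d29a1_X Pool.Agent.W_7d29a1_h4g Pool.Agent.W_7d29a1_H
open Pool.Agent.W_7d29a1_HS (In wd md)
open Pool.Agent.W_7d29a1_HZ Pool.Agent.W_7d29a1_HZ.R72 Pool.Agent.W_7d29a1_Z.Asm72
open Pool.Agent.W_7d29a1_HZ.Z86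
open Pool.Agent.W_7d29a1_C0.P86
open Pool.Agent.W_7d29a1_C0.Mod92 (Px Pn lw ps pJ ne_Pn ps_Pn pos_card ps_of_le ps_of_ge wm Pm meas_lw meas_cE meas_gz meas_gm meas_wm int_Pm)
open Pool.Agent.W_7d29a1_C0.Swap57 (NI cE2 NI_nonneg)
open Pool.Agent.W_7d29a1_C0.N51 (mc3 mc3_nonneg mc3_le_one)
open Pool.Agent.W_7d29a1_C0.E2S39 (meas_mc39 gap_cutL gap_cutR)
open Pool.Agent.W_7d29a1_C0.P15 (iE iE_mem iE_one iE_zero EvT)
open Pool.W7d29a1.C0 (gm gz gz_pos gm_nonneg gm_mono gm_const gm_add)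
open Pool.W7d29a1.C0.VT31 (Mp cE gm_mul_cE fz cE_sum cE_mono cE_nonneg)
open Pool.W7d29a1.C0.R43 (Tau Rp mI bI st swP_pJ tau_rp st_end le_st)
open Pool.W7d29a1.C0.O1 (Gz okE en)
open scoped ENNReal

noncomputable section

variable {μ : Measure ℝ} {s : ℝ} {N : ℕ}

/-! ### The mass of pairs -/

theorem cE_scal {X Y : Type*} [Fintype X] [Nonempty X] [DecidableEq Y] (w : X → ℝ) (p : X → Y) (a : ℝ) (f : X → ℝ) (x : X) :
    cE w p (fun x => a * f x) x = a * cE w p f x := Pool.W7d29a1.C0.O1.cE_mulf w p a f x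

open Classical in
theorem mc3_eq {y c d : ℕ} {A : Finset ℕ → Finset ℕ → Finset ℕ → Prop} (η : Env) (x : Px (Pn N y)) :
    mc3 μ s N y c d c d A η x.1 = cE (lw μ s η N (Pn N y)) (pJ c d)
      (fun a => cE (lw μ s η N (Pn N y)) (pJ c d) (fun b => if A x.1 a.1 b.1 then (1 : ℝ) else 0) x) x := by
  unfold mc3 mc
  simp only [dif_pos x.2]

/-- Outside of the block the alternative agrees with the path. -/
theorem agr_pJ {y c d : ℕ} {x a : Px (Pn N y)} (e : pJ c d a = pJ c d x) : ∀ i, i ≤ c ∨ d ≤ i → pos x.1 i = pos a.1 i := fun i hi => by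
  rcases hi with hi | hi
  · exact (ps_of_le e hi : ps a i = ps x i).symm
  · exact (ps_of_ge e hi : ps a i = ps x i).symm

theorem mem_px {y : ℕ} (x : Px (Pn N y)) : x.1 ⊆ range N ∧ pos x.1 N = y := by
  obtain ⟨g1, g2⟩ := mem_powersetCard.1 x.2
  exact ⟨g1, by rw [pos_card g1, g2]⟩

/-- **Union bound for the mass of pairs.** -/
theorem mc3_le_sum {ι : Type*} {y c d : ℕ} {A : Finset ℕ → Finset ℕ → Finset ℕ → Prop} (P : Finset ι)
    (B : ι → Finset ℕ → Finset ℕ → Finset ℕ → Prop)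
    (h : ∀ S a b, S ⊆ range N → a ⊆ range N → b ⊆ range N → pos S N = y → pos a N = y → pos b N = y →
      (∀ i, i ≤ c ∨ d ≤ i → pos S i = pos a i) → (∀ i, i ≤ c ∨ d ≤ i → pos S i = pos b i) → A S a b → ∃ p ∈ P, B p S a b)
    (η : Env) (x : Px (Pn N y)) : mc3 μ s N y c d c d A η x.1 ≤ ∑ p ∈ P, mc3 μ s N y c d c d (B p) η x.1 := by
  classical
  have : Nonempty (Px (Pn N y)) := ⟨x⟩
  simp only [mc3_eq]
  have h1 : ∑ p ∈ P, cE (lw μ s η N (Pn N y)) (pJ c d)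
      (fun a => cE (lw μ s η N (Pn N y)) (pJ c d) (fun b => if B p x.1 a.1 b.1 then (1 : ℝ) else 0) x) x =
      cE (lw μ s η N (Pn N y)) (pJ c d) (fun a => cE (lw μ s η N (Pn N y)) (pJ c d)
        (fun b => ∑ p ∈ P, if B p x.1 a.1 b.1 then (1 : ℝ) else 0) x) x := by
    rw [← Pool.W7d29a1.C0.O1.cE_sumf]
    congr 1
    funext a
    rw [← Pool.W7d29a1.C0.O1.cE_sumf]
  rw [h1]
  refine cE_mono_fib _ _ _ fun a ea => cE_mono_fib _ _ _ fun b eb => ?_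
  by_cases hA : A x.1 a.1 b.1
  · rw [if_pos hA]
    obtain ⟨p, hp, hB⟩ := h x.1 a.1 b.1 (mem_px x).1 (mem_px a).1 (mem_px b).1 (mem_px x).2 (mem_px a).2 (mem_px b).2 (agr_pJ ea)
      (agr_pJ eb) hA
    have h2 := single_le_sum (f := fun p => if B p x.1 a.1 b.1 then (1 : ℝ) else 0) (fun p _ => by split_ifs <;> norm_num) hp
    refine le_trans (le_of_eq ?_) h2
    show (1 : ℝ) = if B p x.1 a.1 b.1 then 1 else 0
    rw [if_pos hB]
  · rw [if_neg hA]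
    exact sum_nonneg fun p _ => by split_ifs <;> norm_num

/-- The mass of pairs of a product event. -/
theorem mc3_prod {y c d : ℕ} {A B : Finset ℕ → Finset ℕ → Prop} (η : Env) (x : Px (Pn N y)) :
    mc3 μ s N y c d c d (fun S a b => A S a ∧ B S b) η x.1 = mc μ s N y c d A η x.1 * mc μ s N y c d B η x.1 := by
  classical
  have : Nonempty (Px (Pn N y)) := ⟨x⟩
  rw [mc3_eq]
  unfold mc
  simp only [dif_pos x.2]
  refine (congrArg (fun f => cE (lw μ s η N (Pn N y)) (pJ c d) f x) (funext fun a => ?_ : _ = fun a : Px (Pn N y) =>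
    cE (lw μ s η N (Pn N y)) (pJ c d) (fun b => if B x.1 b.1 then (1 : ℝ) else 0) x * (if A x.1 a.1 then (1 : ℝ) else 0))).trans ?_
  · by_cases hA : A x.1 a.1
    · simp only [hA, true_and, if_true, mul_one]
    · simp only [hA, false_and, if_false, mul_zero]
      exact Pool.W7d29a1.C0.O1.cE_constf _ _ 0 _
  · show cE _ _ _ x = _
    rw [Pool.W7d29a1.C0.O1.cE_mulf, mul_comm]

/-- `EvT` as a mass of pairs. -/
theorem evT_mc3 {y c d τ l q : ℕ} {d3 : ℝ} (η : Env) (x : Px (Pn N y)) (A : Finset ℕ)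
    (h : EvT (wm μ s N (Pn N y) (η, A)) (pJ c d) τ l q d3 x) :
    d3 < mc3 μ s N y c d c d (fun S a b => NoMeet τ (en τ l q) S a ∧ NoMeet τ (en τ l q) S b ∧ NoMeet τ (en τ l q) a b) η x.1 := by
  classical
  have : Nonempty (Px (Pn N y)) := ⟨x⟩
  refine lt_of_lt_of_eq h ?_
  rw [mc3_eq]
  show cE (lw μ s η N (Pn N y)) (pJ c d) (fun a => cE (lw μ s η N (Pn N y)) (pJ c d) (fun b => NI τ (en τ l q) x a *
    (NI τ (en τ l q) x b * NI τ (en τ l q) a b)) x) x = _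
  congr 1
  funext a
  congr 1
  funext b
  simp only [P15.NI_eq_ite]
  by_cases h1 : NoMeet τ (en τ l q) x.1 a.1 <;> by_cases h2 : NoMeet τ (en τ l q) x.1 b.1 <;>
    by_cases h3 : NoMeet τ (en τ l q) a.1 b.1 <;> simp [h1, h2, h3]

/-- The pairs which are both over `[τ1, V]`, and apart from each other on `[τ2, V]`. -/
def A2 (d τ1 τ2 V : ℕ) (S a b : Finset ℕ) : Prop := Gap 0 d τ1 V S a ∧ Gap 0 d τ1 V S b ∧ NoMeet τ2 V a b

/-- The functional of the mass of pairs `A2`. -/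
def T2f (μ : Measure ℝ) (s : ℝ) (N y : ℕ) (X : ℝ) (d τ1 τ2 V : ℕ) (ω : Env × Finset ℕ) (x : Px (Pn N y)) : ℝ :=
  min 1 (Real.exp X * mc3 μ s N y 0 d 0 d (A2 d τ1 τ2 V) ω.1 x.1)

theorem meas_mc3 {c d y : ℕ} (A : Finset ℕ → Finset ℕ → Finset ℕ → Prop) (S : Finset ℕ) :
    Measurable fun η : Env => mc3 μ s N y c d c d A η S := by
  classical
  unfold mc3
  by_cases hS : S ∈ Pn N y
  · simp only [dif_pos hS]
    have : Nonempty (Px (Pn N y)) := ⟨⟨S, hS⟩⟩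
    exact meas_cE (Ω := Env) (X := Px (Pn N y)) (w := fun η => lw μ s η N (Pn N y))
      (f := fun η (a : Px (Pn N y)) => mc μ s N y c d (fun S b => A S a.1 b) η S) (fun x => meas_lw x)
      (fun x => meas_mc39 _ S) (pJ c d) ⟨S, hS⟩
  · simp only [dif_neg hS]
    exact measurable_const

theorem min_prod {m1 m2 E : ℝ} (h1 : 0 ≤ m1) (h1' : m1 ≤ 1) (h2 : 0 ≤ m2) (h2' : m2 ≤ 1) (hE : 1 ≤ E) :
    min 1 (E * (m1 * m2)) ≤ min 1 (E * m1) * min 1 (E * m2) := by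
  rcases le_total 1 (E * m1) with g1 | g1 <;> rcases le_total 1 (E * m2) with g2 | g2
  · rw [min_eq_left g1, min_eq_left g2, mul_one]
    exact min_le_left _ _
  · rw [min_eq_left g1, min_eq_right g2, one_mul]
    refine (min_le_right _ _).trans ?_
    nlinarith [mul_nonneg (zero_le_one.trans hE) h2]
  · rw [min_eq_right g1, min_eq_left g2, mul_one]
    refine (min_le_right _ _).trans ?_
    nlinarith [mul_nonneg (zero_le_one.trans hE) h1]
  · rw [min_eq_right g1, min_eq_right g2]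
    refine (min_le_right _ _).trans ?_
    have h3 : 0 ≤ E * (m1 * m2) := mul_nonneg (zero_le_one.trans hE) (mul_nonneg h1 h2)
    nlinarith

theorem min_add {a b : ℝ} (ha : 0 ≤ a) (hb : 0 ≤ b) : min 1 (a + b) ≤ min 1 a + min 1 b := by
  rcases le_total 1 a with g1 | g1
  · rw [min_eq_left g1]
    have h1 : 0 ≤ min 1 b := le_min zero_le_one hb
    have h2 := min_le_left (1 : ℝ) (a + b)
    linarith
  · rw [min_eq_right g1]
    rcases le_total 1 b with g2 | g2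
    · rw [min_eq_left g2]
      have h2 := min_le_left (1 : ℝ) (a + b)
      linarith
    · rw [min_eq_right g2]
      exact min_le_right _ _

theorem exp_mul_ge {X d3 m : ℝ} (he : Real.exp (-X) ≤ d3) (h : d3 ≤ m) : 1 ≤ Real.exp X * m := by
  have k4 : Real.exp X * Real.exp (-X) = 1 := by rw [← Real.exp_add, add_neg_cancel, Real.exp_zero]
  have k5 := mul_le_mul_of_nonneg_left (he.trans h) (Real.exp_pos X).le
  rwa [k4] at k5

/-- A mass of gaps over one window. -/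
theorem dom_mc {y c d c' d' U V l : ℕ} {X M : ℝ} {ty : Ty} (hX : 1 ≤ X) (hl : U + l ≤ V) :
    Dom μ s N y X M ⟨c, d, c', d', U, V, l, ty, False⟩
      (fun ω x => min 1 (Real.exp X * mc μ s N y c d (Gap c' d' U V) ω.1 x.1)) ∧
    ∀ x : Px (Pn N y), Measurable fun ω : Env × Finset ℕ => min 1 (Real.exp X * mc μ s N y c d (Gap c' d' U V) ω.1 x.1) :=
  ⟨⟨fun ω x => le_min zero_le_one (mul_nonneg (Real.exp_pos _).le (mc_nonneg _ _)), fun ω x => min_le_left _ _, Or.inl ⟨fun h => h,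
      Gap c' d' U V, 1, fun _ => U, fun _ => V, by simpa using hX, fun n _ => ⟨le_rfl, hl, le_rfl⟩, fun S S' _ _ _ _ _ hm =>
        ⟨0, by norm_num, hm⟩, fun ω x => min_le_right _ _⟩⟩,
    fun x => measurable_const.min (((meas_mc39 (μ := μ) (s := s) _ x.1).comp measurable_fst).const_mul _)⟩

theorem meas_T2f {y d τ1 τ2 V : ℕ} {X : ℝ} (x : Px (Pn N y)) : Measurable fun ω => T2f μ s N y X d τ1 τ2 V ω x :=
  measurable_const.min (((meas_mc3 (μ := μ) (s := s) _ x.1).comp measurable_fst).const_mul _)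

theorem T2f01 {y d τ1 τ2 V : ℕ} {X : ℝ} (ω : Env × Finset ℕ) (x : Px (Pn N y)) :
    0 ≤ T2f μ s N y X d τ1 τ2 V ω x ∧ T2f μ s N y X d τ1 τ2 V ω x ≤ 1 :=
  ⟨le_min zero_le_one (mul_nonneg (Real.exp_pos _).le (mc3_nonneg _ _)), min_le_left _ _⟩

/-- **The cut of the three branches at two rows `hA ≤ hB`.** -/
theorem T_split {y z τ l q hA hB lp H : ℕ} {d3 X M R : ℝ} {ty : Ty} (hX : 1 ≤ X) (he : Real.exp (-X) ≤ d3) (h1 : hA ≤ hB) (h2 : hB ≤ τ)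
    (h3 : en τ l q ≤ z) (hl : τ + lp ≤ en τ l q) (hR : 1 ≤ R) (hw : ∀ i : ℕ, 1 ≤ i → i ≤ H → wd' μ s i ≤ R * wd' μ s lp)
    (hH : z - τ ≤ H) :
    ∃ T₁ Lg Lc : Env × Finset ℕ → Px (Pn N y) → ℝ,
      (N29.DomT μ s N y X R ⟨0, z, hA, z, τ, en τ l q, lp, Ty.L, False⟩ T₁ ∧ ∀ x, Measurable fun ω => T₁ ω x) ∧
      (Dom μ s N y X M ⟨0, z, 0, z, hA, hB, hB - hA, Ty.L, False⟩ Lg ∧ ∀ x, Measurable fun ω => Lg ω x) ∧
      (Dom μ s N y X M ⟨0, z, hB, z, τ, en τ l q, lp, ty, False⟩ Lc ∧ ∀ x, Measurable fun ω => Lc ω x) ∧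
      ∀ ω x, iE (fun ω x => EvT (wm μ s N (Pn N y) ω) (pJ 0 z) τ l q d3 x) ω x ≤
        T₁ ω x + (2 * (Lg ω x * Lc ω x) + T2f μ s N y X z hB τ (en τ l q) ω x) := by
  classical
  obtain ⟨V, hV⟩ : ∃ V, V = en τ l q := ⟨_, rfl⟩
  obtain ⟨A₀, hA₀⟩ : ∃ A₀ : Finset ℕ → Finset ℕ → Finset ℕ → Prop, A₀ = fun S a b => NoMeet τ V S a ∧ NoMeet τ V S b ∧ NoMeet τ V a b :=
    ⟨_, rfl⟩
  obtain ⟨A₁, hA₁⟩ : ∃ A₁ : Finset ℕ → Finset ℕ → Finset ℕ → Prop, A₁ = fun S a b =>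
    Gap hA z τ V S a ∧ Gap hA z τ V S b ∧ NoMeet τ V a b := ⟨_, rfl⟩
  obtain ⟨A₂, hA₂⟩ : ∃ A₂ : Finset ℕ → Finset ℕ → Finset ℕ → Prop, A₂ = A2 z hB τ V := ⟨_, rfl⟩
  obtain ⟨P, hP⟩ : ∃ P : Finset ℕ → Finset ℕ → Prop, P = Gap 0 z hA hB := ⟨_, rfl⟩
  obtain ⟨Q, hQ⟩ : ∃ Q : Finset ℕ → Finset ℕ → Prop, Q = Gap hB z τ V := ⟨_, rfl⟩
  rw [← hV] at h3 hl ⊢
  have hE : 1 ≤ Real.exp X := Real.one_le_exp (by linarith)
  have hE0 : 0 ≤ Real.exp X := zero_le_one.trans hE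
  -- the cut of the event
  have cut : ∀ S a b, (∀ i, i ≤ 0 ∨ z ≤ i → pos S i = pos a i) → (∀ i, i ≤ 0 ∨ z ≤ i → pos S i = pos b i) → A₀ S a b →
      A₁ S a b ∨ (P S a ∧ Q S b) ∨ (Q S a ∧ P S b) ∨ A₂ S a b := fun S a b ha hb hm => by
    rw [hA₀] at hm
    obtain ⟨m1, m2, m3⟩ := hm
    have ga : Gap 0 z τ V S a := gap_of_nm (Nat.zero_le _) h3 ha m1
    have gb : Gap 0 z τ V S b := gap_of_nm (Nat.zero_le _) h3 hb m2
    rw [hA₁, hA₂, hP, hQ]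
    rcases gap_cutL (h := hA) ga with a1 | a1
    · rcases gap_cutL (h := hA) gb with b1 | b1
      · exact Or.inl ⟨a1, b1, m3⟩
      · rcases gap_cutL (h := hB) ga with a2 | a2
        · exact Or.inr (Or.inr (Or.inl ⟨a2, b1.mono le_rfl le_rfl le_rfl (by omega)⟩))
        · exact Or.inr (Or.inr (Or.inr ⟨a2, b1.mono le_rfl le_rfl h1 le_rfl, m3⟩))
    · rcases gap_cutL (h := hB) gb with b2 | b2
      · exact Or.inr (Or.inl ⟨a1.mono le_rfl le_rfl le_rfl (by omega), b2⟩)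
      · exact Or.inr (Or.inr (Or.inr ⟨a1.mono le_rfl le_rfl h1 le_rfl, b2, m3⟩))
  have sum : ∀ (η : Env) (x : Px (Pn N y)), mc3 μ s N y 0 z 0 z A₀ η x.1 ≤ mc3 μ s N y 0 z 0 z A₁ η x.1 +
      (2 * (mc μ s N y 0 z P η x.1 * mc μ s N y 0 z Q η x.1) + mc3 μ s N y 0 z 0 z A₂ η x.1) := fun η x => by
    have k := mc3_le_sum (μ := μ) (s := s) (N := N) (y := y) (c := 0) (d := z) (A := A₀) (univ : Finset (Fin 4))
      (fun i => ![A₁, fun S a b => P S a ∧ Q S b, fun S a b => Q S a ∧ P S b, A₂] i) (fun S a b _ _ _ _ _ _ ha hb hm => by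
        rcases cut S a b ha hb hm with g | g | g | g
        exacts [⟨0, mem_univ _, g⟩, ⟨1, mem_univ _, g⟩, ⟨2, mem_univ _, g⟩, ⟨3, mem_univ _, g⟩]) η x
    rw [Fin.sum_univ_four] at k
    have k1 := mc3_prod (μ := μ) (s := s) (N := N) (y := y) (c := 0) (d := z) (A := P) (B := Q) η x
    have k2 := mc3_prod (μ := μ) (s := s) (N := N) (y := y) (c := 0) (d := z) (A := Q) (B := P) η x
    have k' : mc3 μ s N y 0 z 0 z A₀ η x.1 ≤ mc3 μ s N y 0 z 0 z A₁ η x.1 + mc3 μ s N y 0 z 0 z (fun S a b => P S a ∧ Q S b) η x.1 +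
      mc3 μ s N y 0 z 0 z (fun S a b => Q S a ∧ P S b) η x.1 + mc3 μ s N y 0 z 0 z A₂ η x.1 := k
    rw [k1, k2] at k'
    linarith
  have m0 : ∀ A (ω : Env × Finset ℕ) (x : Px (Pn N y)), 0 ≤ mc3 μ s N y 0 z 0 z A ω.1 x.1 := fun A ω x => mc3_nonneg _ _
  have n0 : ∀ A (ω : Env × Finset ℕ) (x : Px (Pn N y)), 0 ≤ mc μ s N y 0 z A ω.1 x.1 ∧ mc μ s N y 0 z A ω.1 x.1 ≤ 1 := fun A ω x =>
    ⟨mc_nonneg _ _, mc_le_one _ _⟩
  refine ⟨fun ω x => min 1 (Real.exp X * mc3 μ s N y 0 z 0 z A₁ ω.1 x.1),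
    fun ω x => min 1 (Real.exp X * mc μ s N y 0 z (Gap 0 z hA hB) ω.1 x.1), fun ω x => min 1 (Real.exp X * mc μ s N y 0 z (Gap hB z τ V) ω.1 x.1),
    ⟨⟨fun ω x => le_min zero_le_one (mul_nonneg hE0 (m0 _ ω x)), fun ω x => min_le_left _ _, hl, ⟨H, hR, hw, Or.inl hH⟩, A₁,
      fun S a b _ _ _ _ _ hm => ?_, fun ω x => min_le_right _ _⟩,
      fun x => measurable_const.min (((meas_mc3 A₁ x.1).comp measurable_fst).const_mul _)⟩,
    dom_mc hX (by omega), dom_mc hX hl, fun ω x => ?_⟩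
  · rw [hA₁] at hm
    exact hm
  · show _ ≤ min 1 (Real.exp X * mc3 μ s N y 0 z 0 z A₁ ω.1 x.1) + (2 * (min 1 (Real.exp X * mc μ s N y 0 z (Gap 0 z hA hB) ω.1 x.1) *
      min 1 (Real.exp X * mc μ s N y 0 z (Gap hB z τ V) ω.1 x.1)) + min 1 (Real.exp X * mc3 μ s N y 0 z 0 z (A2 z hB τ V) ω.1 x.1))
    rw [← hP, ← hQ, ← hA₂]
    by_cases hT : EvT (wm μ s N (Pn N y) ω) (pJ 0 z) τ l q d3 x
    · rw [iE_one (E := fun ω x => EvT (wm μ s N (Pn N y) ω) (pJ 0 z) τ l q d3 x) hT]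
      have k1 := evT_mc3 ω.1 x ω.2 hT
      rw [← hV] at k1
      have k1' : d3 < mc3 μ s N y 0 z 0 z A₀ ω.1 x.1 := by
        rw [hA₀]
        exact k1
      have k2 := sum ω.1 x
      have k3 : 1 ≤ Real.exp X * mc3 μ s N y 0 z 0 z A₁ ω.1 x.1 + (2 * (Real.exp X * (mc μ s N y 0 z P ω.1 x.1 *
          mc μ s N y 0 z Q ω.1 x.1)) + Real.exp X * mc3 μ s N y 0 z 0 z A₂ ω.1 x.1) := by
        refine (exp_mul_ge he (k1'.le.trans k2)).trans (le_of_eq ?_)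
        ring
      have a1 := mul_nonneg hE0 (m0 A₁ ω x)
      have a2 := mul_nonneg hE0 (m0 A₂ ω x)
      have a3 := mul_nonneg hE0 (mul_nonneg (n0 P ω x).1 (n0 Q ω x).1)
      have p1 := min_add a1 (show 0 ≤ 2 * (Real.exp X * (mc μ s N y 0 z P ω.1 x.1 * mc μ s N y 0 z Q ω.1 x.1)) +
        Real.exp X * mc3 μ s N y 0 z 0 z A₂ ω.1 x.1 by positivity)
      have p2 := min_add (show 0 ≤ 2 * (Real.exp X * (mc μ s N y 0 z P ω.1 x.1 * mc μ s N y 0 z Q ω.1 x.1)) by positivity) a2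
      have p3 := min_add a3 a3
      have p4 := min_prod (n0 P ω x).1 (n0 P ω x).2 (n0 Q ω x).1 (n0 Q ω x).2 hE
      rw [← two_mul] at p3
      rw [min_eq_left k3] at p1
      linarith
    · rw [iE_zero (E := fun ω x => EvT (wm μ s N (Pn N y) ω) (pJ 0 z) τ l q d3 x) hT]
      have b1 : ∀ a : ℝ, 0 ≤ a → 0 ≤ min 1 (Real.exp X * a) := fun a ha => le_min zero_le_one (mul_nonneg hE0 ha)
      have c1 := b1 _ (m0 A₁ ω x)
      have c2 := b1 _ (m0 A₂ ω x)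
      have c3 := mul_nonneg (b1 _ (n0 P ω x).1) (b1 _ (n0 Q ω x).1)
      linarith

/-- **The cut of the three branches at one row**: one loop local, or both over the gap. -/
theorem T_split2 {y z τ l q hB lp : ℕ} {d3 X M : ℝ} {ty : Ty} (hX : 1 ≤ X) (he : Real.exp (-X) ≤ d3) (h2 : hB ≤ τ)
    (h3 : en τ l q ≤ z) (hl : τ + lp ≤ en τ l q) :
    ∃ Lc : Env × Finset ℕ → Px (Pn N y) → ℝ,
      (Dom μ s N y X M ⟨0, z, hB, z, τ, en τ l q, lp, ty, False⟩ Lc ∧ ∀ x, Measurable fun ω => Lc ω x) ∧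
      ∀ ω x, iE (fun ω x => EvT (wm μ s N (Pn N y) ω) (pJ 0 z) τ l q d3 x) ω x ≤
        2 * Lc ω x + T2f μ s N y X z hB τ (en τ l q) ω x := by
  classical
  obtain ⟨V, hV⟩ : ∃ V, V = en τ l q := ⟨_, rfl⟩
  obtain ⟨A₀, hA₀⟩ : ∃ A₀ : Finset ℕ → Finset ℕ → Finset ℕ → Prop, A₀ = fun S a b => NoMeet τ V S a ∧ NoMeet τ V S b ∧ NoMeet τ V a b :=
    ⟨_, rfl⟩
  obtain ⟨A₂, hA₂⟩ : ∃ A₂ : Finset ℕ → Finset ℕ → Finset ℕ → Prop, A₂ = A2 z hB τ V := ⟨_, rfl⟩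
  obtain ⟨Q, hQ⟩ : ∃ Q : Finset ℕ → Finset ℕ → Prop, Q = Gap hB z τ V := ⟨_, rfl⟩
  obtain ⟨O, hO⟩ : ∃ O : Finset ℕ → Finset ℕ → Prop, O = fun _ _ => True := ⟨_, rfl⟩
  rw [← hV] at h3 hl ⊢
  have hE : 1 ≤ Real.exp X := Real.one_le_exp (by linarith)
  have hE0 : 0 ≤ Real.exp X := zero_le_one.trans hE
  have sum : ∀ (η : Env) (x : Px (Pn N y)), mc3 μ s N y 0 z 0 z A₀ η x.1 ≤
      2 * mc μ s N y 0 z Q η x.1 + mc3 μ s N y 0 z 0 z A₂ η x.1 := fun η x => by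
    have k := mc3_le_sum (μ := μ) (s := s) (N := N) (y := y) (c := 0) (d := z) (A := A₀) (univ : Finset (Fin 3))
      (fun i => ![fun S a b => Q S a ∧ O S b, fun S a b => O S a ∧ Q S b, A₂] i) (fun S a b _ _ _ _ _ _ ha hb hm => by
        rw [hA₀] at hm
        obtain ⟨m1, m2, m3⟩ := hm
        have ga : Gap 0 z τ V S a := gap_of_nm (Nat.zero_le _) h3 ha m1
        have gb : Gap 0 z τ V S b := gap_of_nm (Nat.zero_le _) h3 hb m2
        rw [hA₂, hQ, hO]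
        rcases gap_cutL (h := hB) ga with a1 | a1
        · exact ⟨0, mem_univ _, a1, trivial⟩
        · rcases gap_cutL (h := hB) gb with b1 | b1
          · exact ⟨1, mem_univ _, trivial, b1⟩
          · exact ⟨2, mem_univ _, a1, b1, m3⟩) η x
    rw [Fin.sum_univ_three] at k
    have k1 := mc3_prod (μ := μ) (s := s) (N := N) (y := y) (c := 0) (d := z) (A := Q) (B := O) η x
    have k2 := mc3_prod (μ := μ) (s := s) (N := N) (y := y) (c := 0) (d := z) (A := O) (B := Q) η x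
    have k' : mc3 μ s N y 0 z 0 z A₀ η x.1 ≤ mc3 μ s N y 0 z 0 z (fun S a b => Q S a ∧ O S b) η x.1 +
      mc3 μ s N y 0 z 0 z (fun S a b => O S a ∧ Q S b) η x.1 + mc3 μ s N y 0 z 0 z A₂ η x.1 := k
    rw [k1, k2] at k'
    have o0 := mc_nonneg (μ := μ) (s := s) (N := N) (y := y) (c := 0) (d := z) (A := O) η x.1
    have o1 := mc_le_one (μ := μ) (s := s) (N := N) (y := y) (c := 0) (d := z) (A := O) η x.1
    have q0 := mc_nonneg (μ := μ) (s := s) (N := N) (y := y) (c := 0) (d := z) (A := Q) η x.1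
    nlinarith
  refine ⟨fun ω x => min 1 (Real.exp X * mc μ s N y 0 z (Gap hB z τ V) ω.1 x.1), dom_mc hX hl, fun ω x => ?_⟩
  show _ ≤ 2 * min 1 (Real.exp X * mc μ s N y 0 z (Gap hB z τ V) ω.1 x.1) + min 1 (Real.exp X * mc3 μ s N y 0 z 0 z (A2 z hB τ V) ω.1 x.1)
  rw [← hQ, ← hA₂]
  have a0 := mul_nonneg hE0 (mc_nonneg (μ := μ) (s := s) (N := N) (y := y) (c := 0) (d := z) (A := Q) ω.1 x.1)
  have a1 := mul_nonneg hE0 (mc3_nonneg (μ := μ) (s := s) (N := N) (y := y) (c₁ := 0) (d₁ := z) (c₂ := 0) (d₂ := z) (A := A₂) ω.1 x.1)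
  by_cases hT : EvT (wm μ s N (Pn N y) ω) (pJ 0 z) τ l q d3 x
  · rw [iE_one (E := fun ω x => EvT (wm μ s N (Pn N y) ω) (pJ 0 z) τ l q d3 x) hT]
    have k1 := evT_mc3 ω.1 x ω.2 hT
    rw [← hV] at k1
    have k1' : d3 < mc3 μ s N y 0 z 0 z A₀ ω.1 x.1 := by
      rw [hA₀]
      exact k1
    have k3 := exp_mul_ge he (k1'.le.trans (sum ω.1 x))
    have k4 : 1 ≤ (Real.exp X * mc μ s N y 0 z Q ω.1 x.1 + Real.exp X * mc μ s N y 0 z Q ω.1 x.1) +
        Real.exp X * mc3 μ s N y 0 z 0 z A₂ ω.1 x.1 := by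
      refine k3.trans (le_of_eq ?_)
      ring
    have p1 := min_add (add_nonneg a0 a0) a1
    have p2 := min_add a0 a0
    rw [min_eq_left k4] at p1
    linarith
  · rw [iE_zero (E := fun ω x => EvT (wm μ s N (Pn N y) ω) (pJ 0 z) τ l q d3 x) hT]
    have b1 : ∀ a : ℝ, 0 ≤ a → 0 ≤ min 1 a := fun a ha => le_min zero_le_one ha
    have c1 := b1 _ a0
    have c2 := b1 _ a1
    linarith

end

end Pool.Agent.W_7d29a1_C0.Pt450
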