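import Pool.Agent.W_7d29a1_C0.Pt4A50
import Pool.Agent.W_7d29a1_C0.GSRow96

/-!
MP_7d29a1_pr, [C0], the pair price of `¬ okE` at the corner (helper50), second part: the data of the prices (`Pk50`), the outer functional
(`Out50`: the tie of the spectator, or `1`), functionals with a price (`Cv`), blindness of the events given `(0, z)`.
-/

set_option autoImplicit false
set_option linter.unusedSectionVars false
set_option linter.unusedVariables false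

namespace Pool.Agent.W_7d29a1_C0.Pt450

open MeasureTheory ProbabilityTheory Filter Topology Finset
open Pool.Agent.W_7d29a1_F Pool.Agent.W_7d29a1_X Pool.Agent.W_7d29a1_h4g Pool.Agent.W_7d29a1_H
open Pool.Agent.W_7d29a1_HS (In wd md)
open Pool.Agent.W_7d29a1_HZ Pool.Agent.W_7d29a1_HZ.R72 Pool.Agent.W_7d29a1_Z.Asm72
open Pool.Agent.W_7d29a1_HZ.Z86
open Pool.Agent.W_7d29a1_C0.P86
open Pool.Agent.W_7d29a1_C0.Mod92 (Px Pn lw ps pJ ne_Pn ps_Pn pos_card ps_of_le ps_of_ge wm Pm meas_lw meas_cE meas_gz meas_gm meas_wm int_Pm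
  Fam avy avy_mono avy_const)
open Pool.Agent.W_7d29a1_C0.Swap57 (NI cE2 NI_nonneg)
open Pool.Agent.W_7d29a1_C0.N51 (mc3 mc3_nonneg mc3_le_one)
open Pool.Agent.W_7d29a1_C0.N29 (Pla)
open Pool.Agent.W_7d29a1_C0.T93 (rdist Fam2 pr2)
open Pool.Agent.W_7d29a1_C0.E2S39 (meas_mc39 gap_cutL gap_cutR out39 out39_nonneg out39_le_one pout dom_out rdist_comm39 rdist_of_le39)
open Pool.Agent.W_7d29a1_C0.P15 (iE iE_mem iE_one iE_zero EvT EvI EvII TieP FinB ig15 gm01 meas_sec)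
open Pool.W7d29a1.C0 (gm gz gz_pos gm_nonneg gm_mono gm_const gm_add PP)
open Pool.W7d29a1.C0.VT31 (Mp cE gm_mul_cE fz cE_sum cE_mono cE_nonneg)
open Pool.W7d29a1.C0.R43 (Tau Rp mI bI st swP_pJ tau_rp st_end le_st)
open Pool.W7d29a1.C0.O1 (Gz okE en)
open scoped ENNReal

noncomputable section

variable {μ : Measure ℝ} {s : ℝ} {N : ℕ}

/-- Functionals of the environment and of a path. -/
abbrev Fn (N y : ℕ) := Env × Finset ℕ → Px (Pn N y) → ℝ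

/-- The price of a window of length `l`. -/
def po (μ : Measure ℝ) (s : ℝ) (N : ℕ) (ε : ℝ) (l : ℕ) : ℝ := (N : ℝ) ^ ε * (EE' μ s l)⁻¹

/-- A weight: measurable, with values in `[0, 1]`. -/
def Wt50 {y : ℕ} (f : Fn N y) : Prop := (∀ x, Measurable fun ω => f ω x) ∧ (∀ ω x, 0 ≤ f ω x) ∧ ∀ ω x, f ω x ≤ 1

theorem Wt50.sec {y : ℕ} {f : Fn N y} (h : Wt50 f) (A : Finset ℕ) (x : Px (Pn N y)) : Measurable fun η => f (η, A) x :=
  (h.1 x).comp (measurable_id.prodMk measurable_const)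

theorem Wt50.mul {y : ℕ} {f g : Fn N y} (hf : Wt50 f) (hg : Wt50 g) : Wt50 fun ω x => f ω x * g ω x :=
  ⟨fun x => (hf.1 x).mul (hg.1 x), fun ω x => mul_nonneg (hf.2.1 ω x) (hg.2.1 ω x),
    fun ω x => mul_le_one₀ (hf.2.2 ω x) (hg.2.1 ω x) (hg.2.2 ω x)⟩

/-- **The data of the prices at the length `N`.** -/
structure Pk50 (μ : Measure ℝ) (s ε θ κ : ℝ) (N : ℕ) (ys : Finset ℕ) (M e : ℝ) : Prop where
  N1 : 1 ≤ N
  yN : ∀ y ∈ ys, y ≤ N
  X1 : 1 ≤ (N : ℝ) ^ κ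
  ε0 : 0 ≤ ε
  e0 : 0 ≤ e
  mix : ∀ y ∈ ys, ∀ Ps : List (Pla N y), Ps.length ≤ 8 → (∀ P ∈ Ps, P.p.Ok N N θ) → Ps.Pairwise Pla.Bef →
    (∀ P ∈ Ps, P.Dm μ s ((N : ℝ) ^ κ) M) → ∀ f : Fn N y, Wt50 f → (∀ P ∈ Ps, FinB P.J f) →
    ∫ ω, gm (wm μ s N (Pn N y) ω) (fun x => f ω x * (Ps.map fun P => P.G ω x).prod) ∂(Pm μ N) ≤
      (Ps.map fun P => P.pr μ s N ε).prod * ∫ ω, gm (wm μ s N (Pn N y) ω) (f ω) ∂(Pm μ N) + e
  ntd : ∀ y ∈ ys, ∀ (R : ℝ) (H t1 t2 τ1 τ2 V d : ℕ), 1 ≤ R → (∀ i : ℕ, 1 ≤ i → i ≤ H → wd' μ s i ≤ R * wd' μ s t2) →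
    (N : ℝ) ^ θ ≤ t1 → (N : ℝ) ^ θ ≤ t2 → 1 ≤ τ1 → τ1 + t1 ≤ τ2 → τ2 + t2 ≤ V → V ≤ d → d ≤ N → d - τ1 ≤ 4 * t1 → d - τ2 ≤ H →
    ∀ f : Fn N y, Wt50 f → FinB (Ico τ1 (τ1 + t1)) f → FinB (Ico τ2 (τ2 + t2)) f →
    ∫ ω, gm (wm μ s N (Pn N y) ω) (fun x => f ω x * T2f μ s N y ((N : ℝ) ^ κ) d τ1 τ2 V ω x) ∂(Pm μ N) ≤
      (R * po μ s N ε t1) * (R * po μ s N ε t2) * ∫ ω, gm (wm μ s N (Pn N y) ω) (f ω) ∂(Pm μ N) + e

theorem po_nonneg (ε : ℝ) (l : ℕ) : 0 ≤ po μ s N ε l :=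
  mul_nonneg (Real.rpow_nonneg (Nat.cast_nonneg _) _) (inv_nonneg.2 (zero_le_one.trans (le_max_left _ _)))

theorem po_anti [IsProbabilityMeasure μ] (ε : ℝ) {l l' : ℕ} (h : l' ≤ l) : po μ s N ε l ≤ po μ s N ε l' := by
  have hp : ∀ l, 0 < EE' μ s l := fun l => lt_of_lt_of_le zero_lt_one (le_max_left _ _)
  exact mul_le_mul_of_nonneg_left (inv_anti₀ (hp l') (max_le_max le_rfl (EE_mono h))) (Real.rpow_nonneg (Nat.cast_nonneg _) _)

/-! ### Functionals with a price -/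

section CvL

variable {y : ℕ}

/-- The mass with the outer functional. -/
def Ig (μ : Measure ℝ) (s : ℝ) (N y : ℕ) (O V : Fn N y) : ℝ := ∫ ω, gm (wm μ s N (Pn N y) ω) (fun x => O ω x * V ω x) ∂(Pm μ N)

/-- `V` has the price `t`. -/
def Cv (μ : Measure ℝ) (s : ℝ) (N y : ℕ) (O V : Fn N y) (t : ℝ) : Prop :=
  ∃ V' : Fn N y, ∃ B : ℝ, (∀ x, Measurable fun ω => V' ω x) ∧ (∀ ω x, 0 ≤ V' ω x) ∧ (∀ ω x, V' ω x ≤ B) ∧
    (∀ ω x, V ω x ≤ V' ω x) ∧ Ig μ s N y O V' ≤ t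

variable [IsProbabilityMeasure μ] {O V V' V₁ V₂ : Fn N y} {t t' t₁ t₂ : ℝ}

theorem ig_int (hy : y ≤ N) (hO : Wt50 O) {B : ℝ} (hm : ∀ x, Measurable fun ω => V ω x) (h0 : ∀ ω x, 0 ≤ V ω x) (hB : ∀ ω x, V ω x ≤ B) :
    Integrable (fun ω => gm (wm μ s N (Pn N y) ω) fun x => O ω x * V ω x) (Pm μ N) := by
  have := ne_Pn (N := N) (y := y) hy
  have hmm : Measurable fun ω => gm (wm μ s N (Pn N y) ω) fun x => O ω x * V ω x :=
    meas_gm meas_wm fun x => (hO.1 x).mul (hm x)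
  refine (integrable_const B).mono' hmm.aestronglyMeasurable (Filter.Eventually.of_forall fun ω => ?_)
  rw [Real.norm_eq_abs, abs_of_nonneg (gm_nonneg _ fun x => mul_nonneg (hO.2.1 ω x) (h0 ω x))]
  refine (gm_mono _ (g := fun _ => B) fun x => ?_).trans (gm_const _ _).le
  have h1 := hO.2.1 ω x
  have h2 := hO.2.2 ω x
  have h3 := h0 ω x
  have h4 := hB ω x
  nlinarith

theorem Cv.mono (h : Cv μ s N y O V t) (hV : ∀ ω x, V' ω x ≤ V ω x) (ht : t ≤ t') : Cv μ s N y O V' t' := by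
  obtain ⟨W, B, h1, h2, h3, h4, h5⟩ := h
  exact ⟨W, B, h1, h2, h3, fun ω x => (hV ω x).trans (h4 ω x), h5.trans ht⟩

theorem Cv.add (hy : y ≤ N) (hO : Wt50 O) (h : Cv μ s N y O V₁ t₁) (h' : Cv μ s N y O V₂ t₂) (hV : ∀ ω x, V ω x ≤ V₁ ω x + V₂ ω x) :
    Cv μ s N y O V (t₁ + t₂) := by
  obtain ⟨W, B, h1, h2, h3, h4, h5⟩ := h
  obtain ⟨W', B', h1', h2', h3', h4', h5'⟩ := h'
  refine ⟨fun ω x => W ω x + W' ω x, B + B', fun x => (h1 x).add (h1' x), fun ω x => add_nonneg (h2 ω x) (h2' ω x),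
    fun ω x => add_le_add (h3 ω x) (h3' ω x), fun ω x => (hV ω x).trans (add_le_add (h4 ω x) (h4' ω x)), ?_⟩
  have := ne_Pn (N := N) (y := y) hy
  have e1 : Ig μ s N y O (fun ω x => W ω x + W' ω x) = Ig μ s N y O W + Ig μ s N y O W' := by
    unfold Ig
    rw [← integral_add (ig_int hy hO h1 h2 h3) (ig_int hy hO h1' h2' h3')]
    congr 1
    funext ω
    rw [← gm_add]
    congr 1
    funext x
    rw [Pi.add_apply]
    ring
  rw [e1]
  exact add_le_add h5 h5'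

theorem Cv.ig (hy : y ≤ N) (hO : Wt50 O) (h : Cv μ s N y O V t) (h0 : ∀ ω x, 0 ≤ V ω x) : Ig μ s N y O V ≤ t := by
  obtain ⟨W, B, h1, h2, h3, h4, h5⟩ := h
  have := ne_Pn (N := N) (y := y) hy
  refine le_trans ?_ h5
  unfold Ig
  refine integral_mono_of_nonneg (Filter.Eventually.of_forall fun ω => ?_) (ig_int hy hO h1 h2 h3) (Filter.Eventually.of_forall fun ω => ?_)
  · exact gm_nonneg _ fun x => mul_nonneg (hO.2.1 ω x) (h0 ω x)
  · exact gm_mono _ fun x => mul_le_mul_of_nonneg_left (h4 ω x) (hO.2.1 ω x)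

end CvL

section Ls

variable {ε θ κ M e w : ℝ} {zf y : ℕ} {ys : Finset ℕ}

/-- An admissible element of a list in front of `zf`. -/
def El (μ : Measure ℝ) (s : ℝ) (X M θ : ℝ) (zf : ℕ) (P : Pla N y) : Prop :=
  P.p.Ok N N θ ∧ P.p.d' ≤ zf ∧ P.Dm μ s X M ∧ ∀ x, Measurable fun ω => P.G ω x

/-- **The outer functional** with the price `w`. -/
structure Out50 (μ : Measure ℝ) (s ε θ κ : ℝ) (N y : ℕ) (M e : ℝ) (zf : ℕ) (O : Fn N y) (w : ℝ) : Prop where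
  wt : Wt50 O
  w0 : 0 ≤ w
  ls : ∀ Ps : List (Pla N y), Ps.length ≤ 7 → (∀ P ∈ Ps, El μ s ((N : ℝ) ^ κ) M θ zf P) → Ps.Pairwise Pla.Bef →
    Ig μ s N y O (fun ω x => (Ps.map fun P => P.G ω x).prod) ≤ w * (Ps.map fun P => P.pr μ s N ε).prod + e
  wg : ∀ f : Fn N y, Wt50 f → FinB (Ioo zf N) f → Ig μ s N y O f ≤ w * ∫ ω, gm (wm μ s N (Pn N y) ω) (f ω) ∂(Pm μ N) + e

theorem prod01 {X : ℝ} (Ps : List (Pla N y)) (h : ∀ P ∈ Ps, El μ s X M θ zf P) (ω : Env × Finset ℕ) (x : Px (Pn N y)) :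
    0 ≤ (Ps.map fun P => P.G ω x).prod ∧ (Ps.map fun P => P.G ω x).prod ≤ 1 := by
  induction Ps with
  | nil => simp
  | cons P Ps ih =>
    rw [List.map_cons, List.prod_cons]
    have h0 := h P (List.mem_cons_self ..)
    have h1 := Pla.g0 h0.2.2.1 ω x
    have h2 := Pla.g1 h0.2.2.1 ω x
    obtain ⟨h3, h4⟩ := ih fun Q hQ => h Q (List.mem_cons_of_mem _ hQ)
    exact ⟨mul_nonneg h1 h3, by nlinarith⟩

theorem measprod (Ps : List (Pla N y)) (x : Px (Pn N y)) (h : ∀ P ∈ Ps, Measurable fun ω => P.G ω x) :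
    Measurable fun ω => (Ps.map fun P => P.G ω x).prod := by
  induction Ps with
  | nil => simp
  | cons P Ps ih =>
    simp only [List.map_cons, List.prod_cons]
    exact (h P (List.mem_cons_self ..)).mul (ih fun Q hQ => h Q (List.mem_cons_of_mem _ hQ))

variable [IsProbabilityMeasure μ]

theorem wt_one : Wt50 (N := N) (y := y) fun _ _ => 1 := ⟨fun _ => measurable_const, fun _ _ => zero_le_one, fun _ _ => le_rfl⟩

/-- No outer functional. -/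
theorem out_one (hP : Pk50 μ s ε θ κ N ys M e) (hy : y ∈ ys) : Out50 μ s ε θ κ N y M e zf (fun _ _ => 1) 1 where
  wt := wt_one
  w0 := zero_le_one
  ls Ps hlen hg hpw := by
    have h1 := hP.mix y hy Ps (by omega) (fun P hPs => (hg P hPs).1) hpw (fun P hPs => (hg P hPs).2.2.1) (fun _ _ => 1) wt_one
      fun P _ η η' A x _ => rfl
    have e1 : ∫ ω, gm (wm μ s N (Pn N y) ω) (fun _ => (1 : ℝ)) ∂(Pm μ N) = 1 := int_one (hP.yN y hy)
    rw [e1, mul_one] at h1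
    rw [one_mul]
    exact h1
  wg f hf _ := by
    unfold Ig
    simp only [one_mul]
    linarith [hP.e0]

/-- The tie of the spectator. -/
theorem out_tie (hP : Pk50 μ s ε θ κ N ys M e) (hy : y ∈ ys) {c : ℕ} (hzc : zf ≤ c) (hcN : c ≤ N)
    (hlo : (N : ℝ) ^ θ ≤ ((c - zf : ℕ) : ℝ)) : Out50 μ s ε θ κ N y M e zf (out39 μ s N y zf c) (po μ s N ε (c - zf)) where
  wt := ⟨fun x => meas_gm meas_wm (f := fun _ => NI zf c x) fun _ => measurable_const, fun ω x => out39_nonneg _ _ _ _,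
    fun ω x => out39_le_one _ _ _ _⟩
  w0 := po_nonneg _ _
  ls Ps hlen hg hpw := by
    have h1 := hP.mix y hy (⟨pout N zf c, out39 μ s N y zf c, none⟩ :: Ps) (by rw [List.length_cons]; omega) (fun P hPs => ?_) ?_
      (fun P hPs => ?_) (fun _ _ => 1) wt_one fun P _ η η' A x _ => rfl
    · have e1 : ∫ ω, gm (wm μ s N (Pn N y) ω) (fun _ => (1 : ℝ)) ∂(Pm μ N) = 1 := int_one (hP.yN y hy)
      rw [e1, mul_one] at h1
      simp only [List.map_cons, List.prod_cons, one_mul] at h1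
      exact h1
    · rcases List.mem_cons.1 hPs with rfl | hPs
      · refine ⟨?_, hlo⟩
        show 0 ≤ 0 ∧ 0 ≤ zf ∧ zf ≤ c ∧ c ≤ N ∧ N ≤ N ∧ N ≤ N
        omega
      · exact (hg P hPs).1
    · rw [List.pairwise_cons]
      exact ⟨fun P hPs => Or.inl (hg P hPs).2.1, hpw⟩
    · rcases List.mem_cons.1 hPs with rfl | hPs
      · exact dom_out hP.X1 hzc hcN
      · exact (hg P hPs).2.2.1
  wg f hf hfb := by
    have h1 := hP.mix y hy [⟨pout N zf c, out39 μ s N y zf c, none⟩] (by simp) (fun P hPs => ?_) (by simp)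
      (fun P hPs => ?_) f hf (fun P hPs => ?_)
    · simp only [List.map_cons, List.map_nil, List.prod_cons, List.prod_nil, mul_one] at h1
      refine le_trans (le_of_eq ?_) h1
      unfold Ig
      congr 1
      funext ω
      congr 1
      funext x
      ring
    · rw [List.mem_singleton.1 hPs]
      refine ⟨?_, hlo⟩
      show 0 ≤ 0 ∧ 0 ≤ zf ∧ zf ≤ c ∧ c ≤ N ∧ N ≤ N ∧ N ≤ N
      omega
    · rw [List.mem_singleton.1 hPs]
      exact dom_out hP.X1 hzc hcN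
    · rw [List.mem_singleton.1 hPs]
      exact hfb

/-- **The price of a list.** -/
theorem Cv.lst {O V : Fn N y} {t : ℝ} (hO : Out50 μ s ε θ κ N y M e zf O w) (Ps : List (Pla N y)) (hlen : Ps.length ≤ 7)
    (hg : ∀ P ∈ Ps, El μ s ((N : ℝ) ^ κ) M θ zf P) (hpw : Ps.Pairwise Pla.Bef)
    (hV : ∀ ω x, V ω x ≤ (Ps.map fun P => P.G ω x).prod) (ht : w * (Ps.map fun P => P.pr μ s N ε).prod + e ≤ t) :
    Cv μ s N y O V t :=
  ⟨fun ω x => (Ps.map fun P => P.G ω x).prod, 1, fun x => measprod Ps x fun P hPs => (hg P hPs).2.2.2 x,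
    fun ω x => (prod01 Ps hg ω x).1, fun ω x => (prod01 Ps hg ω x).2, hV, (hO.ls Ps hlen hg hpw).trans ht⟩

end Ls

/-! ### Blindness of the events given `(0, z)` -/

theorem ag_of {z : ℕ} {J : Finset ℕ} (hJ : ∀ i ∈ J, z < i) {η η' : Env}
    (h : ∃ E : Finset Pt, (∀ q ∈ E, 0 ≤ q.1 ∧ q.1.toNat ∈ J) ∧ ∀ q, q ∉ E → η q = η' q) :
    Pool.Agent.W_7d29a1_C0.Row96.Ag 0 z η η' := by
  obtain ⟨E, h1, h2⟩ := h
  intro q hq1 hq2
  refine h2 q fun hq => ?_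
  have := hJ _ (h1 q hq).2
  omega

theorem finB_evI {y z τ l q g0 g1 : ℕ} {e : ℝ} {J : Finset ℕ} (hJ : ∀ i ∈ J, z < i) :
    FinB J (iE fun ω (x : Px (Pn N y)) => EvI (wm μ s N (Pn N y) ω) (pJ 0 z) τ l q g0 g1 e x) := by
  intro η η' A x hE
  have : Nonempty (Px (Pn N y)) := ⟨x⟩
  have h1 := ag_of hJ hE
  have key : EvI (wm μ s N (Pn N y) (η, A)) (pJ 0 z) τ l q g0 g1 e x ↔ EvI (wm μ s N (Pn N y) (η', A)) (pJ 0 z) τ l q g0 g1 e x := by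
    unfold EvI
    refine exists_congr fun n => and_congr_right fun _ => ?_
    show e < cE (lw μ s η N (Pn N y)) (pJ 0 z) _ x ↔ e < cE (lw μ s η' N (Pn N y)) (pJ 0 z) _ x
    rw [Pool.Agent.W_7d29a1_C0.Row96.cE_rows h1]
  by_cases h2 : EvI (wm μ s N (Pn N y) (η, A)) (pJ 0 z) τ l q g0 g1 e x
  · rw [iE_one (E := fun ω (x : Px (Pn N y)) => EvI (wm μ s N (Pn N y) ω) (pJ 0 z) τ l q g0 g1 e x) h2,
      iE_one (E := fun ω (x : Px (Pn N y)) => EvI (wm μ s N (Pn N y) ω) (pJ 0 z) τ l q g0 g1 e x) (key.1 h2)]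
  · rw [iE_zero (E := fun ω (x : Px (Pn N y)) => EvI (wm μ s N (Pn N y) ω) (pJ 0 z) τ l q g0 g1 e x) h2,
      iE_zero (E := fun ω (x : Px (Pn N y)) => EvI (wm μ s N (Pn N y) ω) (pJ 0 z) τ l q g0 g1 e x) fun h => h2 (key.2 h)]

theorem finB_T2f {y z τ1 τ2 V : ℕ} {X : ℝ} {J : Finset ℕ} (hJ : ∀ i ∈ J, z < i) : FinB J (T2f μ s N y X z τ1 τ2 V) := by
  intro η η' B x hE
  have : Nonempty (Px (Pn N y)) := ⟨x⟩
  have h1 := ag_of hJ hE
  show min 1 (Real.exp X * mc3 μ s N y 0 z 0 z _ η x.1) = min 1 (Real.exp X * mc3 μ s N y 0 z 0 z _ η' x.1)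
  rw [mc3_eq, mc3_eq]
  simp only [Pool.Agent.W_7d29a1_C0.Row96.cE_rows h1]

theorem FinB.mul' {y : ℕ} {J : Finset ℕ} {f g : Fn N y} (hf : FinB J f) (hg : FinB J g) :
    FinB J fun ω x => f ω x * g ω x := fun η η' A x hE => by
  show f (η, A) x * g (η, A) x = f (η', A) x * g (η', A) x
  rw [hf η η' A x hE, hg η η' A x hE]

end

end Pool.Agent.W_7d29a1_C0.Pt450
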