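import Pool.Agent.W_7d29a1_C0.Pt4B50

/-!
MP_7d29a1_pr, [C0], the pair price of `¬ okE` at the corner (helper50), third part: cuts of places, small lists, the data of a row.
-/

set_option autoImplicit false
set_option linter.unusedSectionVars false
set_option linter.unusedVariables false

namespace Pool.Agent.W_7d29a1_C0.Pt450

open MeasureTheory ProbabilityTheory Filter Topology Finset
open Pool.Agent.W_7d29a1_F Pool.Agent.W_7d29a1_X Pool.Agent.W_7d29a1_h4g Pool.Agent.W_7d29a1_H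
open Pool.Agent.W_7d29a1_HS (In wd md)
open Pool.Agent.W_7d29a1_HZ Pool.Agent.W_7d29a1_HZ.R72 Pool.Agent.W_7d29a1_Z.Asm72
open Pool.Agent.W_7d29a1_HZ.Z86
open Pool.Agent.W_7d29a1_C0.P86
open Pool.Agent.W_7d29a1_C0.Mod92 (Px Pn lw ps pJ ne_Pn ps_Pn pos_card ps_of_le ps_of_ge wm Pm meas_lw meas_cE meas_gz meas_gm meas_wm int_Pm
  Fam avy avy_mono avy_const)
open Pool.Agent.W_7d29a1_C0.Swap57 (NI cE2 NI_nonneg)
open Pool.Agent.W_7d29a1_C0.N51 (mc3 mc3_nonneg mc3_le_one)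
open Pool.Agent.W_7d29a1_C0.N29 (Pla)
open Pool.Agent.W_7d29a1_C0.T93 (rdist Fam2 pr2)
open Pool.Agent.W_7d29a1_C0.E2S39 (meas_mc39 gap_cutL gap_cutR out39 out39_nonneg out39_le_one pout dom_out rdist_comm39 rdist_of_le39)
open Pool.Agent.W_7d29a1_C0.P15 (iE iE_mem iE_one iE_zero EvT EvI EvII TieP FinB ig15 gm01 meas_sec)
open Pool.W7d29a1.C0 (gm gz gz_pos gm_nonneg gm_mono gm_const gm_add PP)
open Pool.W7d29a1.C0.VT31 (Mp cE gm_mul_cE fz cE_sum cE_mono cE_nonneg)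
open Pool.W7d29a1.C0.R43 (Tau Rp mI bI st swP_pJ tau_rp st_end le_st)
open Pool.W7d29a1.C0.O1 (Gz okE en)
open scoped ENNReal

noncomputable section

variable {μ : Measure ℝ} {s : ℝ} {N : ℕ}

section Pl

variable {y : ℕ} {X M : ℝ}

/-- Smaller lengths, any type. -/
theorem dom_len {c d c' d' U V l l' : ℕ} {ty ty' : Ty} {G : Fn N y} (h : Dom μ s N y X M ⟨c, d, c', d', U, V, l, ty, False⟩ G)
    (hl : l' ≤ l) : Dom μ s N y X M ⟨c, d, c', d', U, V, l', ty', False⟩ G := by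
  refine ⟨h.1, h.2.1, ?_⟩
  rcases h.2.2 with ⟨hT, A, n₁, u, v, k1, k2, k3, k4⟩ | ⟨g, -⟩
  · refine Or.inl ⟨fun h => h, A, n₁, u, v, k1, fun n hn => ?_, k3, k4⟩
    have h2 : U ≤ u n ∧ u n + l ≤ v n ∧ v n ≤ V := k2 n hn
    show U ≤ u n ∧ u n + l' ≤ v n ∧ v n ≤ V
    omega
  · exact absurd g fun h => h

/-- **The cut on the left**: the loop opens behind `h`, or it is open on `[h, V']`. -/
theorem cutL {c d c' d' U V l h V' l₂ : ℕ} {ty ty₁ ty₂ : Ty} {G : Fn N y}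
    (hG : Dom μ s N y X M ⟨c, d, c', d', U, V, l, ty, False⟩ G) (h1 : V' ≤ U) (h2 : h + l₂ ≤ V') :
    ∃ G₁ G₂ : Fn N y, (Dom μ s N y X M ⟨c, d, h, d', U, V, l, ty₁, False⟩ G₁ ∧ ∀ x, Measurable fun ω => G₁ ω x) ∧
      (Dom μ s N y X M ⟨c, d, c', d', h, V', l₂, ty₂, False⟩ G₂ ∧ ∀ x, Measurable fun ω => G₂ ω x) ∧ ∀ ω x, G ω x ≤ G₁ ω x + G₂ ω x := by
  refine E2S39.Dom.split (p := ⟨c, d, c', d', U, V, l, ty, False⟩) (p₁ := ⟨c, d, h, d', U, V, l, ty₁, False⟩)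
    (p₂ := ⟨c, d, c', d', h, V', l₂, ty₂, False⟩) hG (fun h => h) (fun h => h) (fun h => h) rfl rfl rfl rfl
    (fun u _ => u) (fun _ v => v) (fun _ _ => h) (fun _ _ => V') (fun u v k1 k2 k3 => ⟨k1, k2, k3⟩) (fun u v _ _ _ => ⟨le_rfl, h2, le_rfl⟩)
    (fun S S' u v k1 k2 k3 g => ?_)
  have k1 : U ≤ u := k1
  have k2 : u + l ≤ v := k2
  rcases gap_cutL (h := h) g with g | g
  · exact Or.inl g
  · exact Or.inr (g.mono le_rfl le_rfl le_rfl (show V' ≤ v by omega))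

/-- **The cut on the right**: the loop closes before `h`, or it is open on `[U', h]`. -/
theorem cutR {c d c' d' U V l h U' l₂ : ℕ} {ty ty₁ ty₂ : Ty} {G : Fn N y}
    (hG : Dom μ s N y X M ⟨c, d, c', d', U, V, l, ty, False⟩ G) (h1 : V ≤ U') (h2 : U' + l₂ ≤ h) :
    ∃ G₁ G₂ : Fn N y, (Dom μ s N y X M ⟨c, d, c', h, U, V, l, ty₁, False⟩ G₁ ∧ ∀ x, Measurable fun ω => G₁ ω x) ∧
      (Dom μ s N y X M ⟨c, d, c', d', U', h, l₂, ty₂, False⟩ G₂ ∧ ∀ x, Measurable fun ω => G₂ ω x) ∧ ∀ ω x, G ω x ≤ G₁ ω x + G₂ ω x := by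
  refine E2S39.Dom.split (p := ⟨c, d, c', d', U, V, l, ty, False⟩) (p₁ := ⟨c, d, c', h, U, V, l, ty₁, False⟩)
    (p₂ := ⟨c, d, c', d', U', h, l₂, ty₂, False⟩) hG (fun h => h) (fun h => h) (fun h => h) rfl rfl rfl rfl
    (fun u _ => u) (fun _ v => v) (fun _ _ => U') (fun _ _ => h) (fun u v k1 k2 k3 => ⟨k1, k2, k3⟩) (fun u v _ _ _ => ⟨le_rfl, h2, le_rfl⟩)
    (fun S S' u v k1 k2 k3 g => ?_)
  have k1 : U ≤ u := k1
  have k2 : u + l ≤ v := k2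
  have k3 : v ≤ V := k3
  rcases gap_cutR (h := h) g with g | g
  · exact Or.inl g
  · exact Or.inr (g.mono le_rfl le_rfl (show u ≤ U' by omega) le_rfl)

end Pl

/-! ### Lists -/

section Ls

variable [IsProbabilityMeasure μ] {ε θ κ M e w : ℝ} {zf y : ℕ} {O V : Fn N y} {t : ℝ} {P₁ P₂ P₃ P₄ : Pla N y}

theorem Cv.l1 (hO : Out50 μ s ε θ κ N y M e zf O w) (e1 : El μ s ((N : ℝ) ^ κ) M θ zf P₁) (hV : ∀ ω x, V ω x ≤ P₁.G ω x)
    (ht : w * P₁.pr μ s N ε + e ≤ t) : Cv μ s N y O V t := by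
  refine Cv.lst hO [P₁] (by simp) (fun P hP => ?_) (by simp) (fun ω x => ?_) ?_
  · rw [List.mem_singleton.1 hP]
    exact e1
  · simpa using hV ω x
  · simpa using ht

theorem Cv.l2 (hO : Out50 μ s ε θ κ N y M e zf O w) (e1 : El μ s ((N : ℝ) ^ κ) M θ zf P₁) (e2 : El μ s ((N : ℝ) ^ κ) M θ zf P₂)
    (b12 : P₁.Bef P₂) (hV : ∀ ω x, V ω x ≤ P₁.G ω x * P₂.G ω x) (ht : w * (P₁.pr μ s N ε * P₂.pr μ s N ε) + e ≤ t) :
    Cv μ s N y O V t := by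
  refine Cv.lst hO [P₁, P₂] (by simp) ?_ (by simpa using b12) (fun ω x => ?_) ?_
  · simp only [List.mem_cons, List.not_mem_nil, or_false]
    rintro P (rfl | rfl)
    exacts [e1, e2]
  · simpa using hV ω x
  · simpa using ht

theorem Cv.l3 (hO : Out50 μ s ε θ κ N y M e zf O w) (e1 : El μ s ((N : ℝ) ^ κ) M θ zf P₁) (e2 : El μ s ((N : ℝ) ^ κ) M θ zf P₂)
    (e3 : El μ s ((N : ℝ) ^ κ) M θ zf P₃) (b12 : P₁.Bef P₂) (b13 : P₁.Bef P₃) (b23 : P₂.Bef P₃)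
    (hV : ∀ ω x, V ω x ≤ P₁.G ω x * (P₂.G ω x * P₃.G ω x))
    (ht : w * (P₁.pr μ s N ε * (P₂.pr μ s N ε * P₃.pr μ s N ε)) + e ≤ t) : Cv μ s N y O V t := by
  refine Cv.lst hO [P₁, P₂, P₃] (by simp) ?_ ?_ (fun ω x => ?_) ?_
  · simp only [List.mem_cons, List.not_mem_nil, or_false]
    rintro P (rfl | rfl | rfl)
    exacts [e1, e2, e3]
  · simp only [List.pairwise_cons, List.mem_cons, List.not_mem_nil, or_false, forall_eq_or_imp, forall_eq, List.Pairwise.nil, and_true,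
      IsEmpty.forall_iff, implies_true]
    exact ⟨⟨b12, b13⟩, b23⟩
  · simpa using hV ω x
  · simpa using ht

theorem Cv.l4 (hO : Out50 μ s ε θ κ N y M e zf O w) (e1 : El μ s ((N : ℝ) ^ κ) M θ zf P₁) (e2 : El μ s ((N : ℝ) ^ κ) M θ zf P₂)
    (e3 : El μ s ((N : ℝ) ^ κ) M θ zf P₃) (e4 : El μ s ((N : ℝ) ^ κ) M θ zf P₄) (b12 : P₁.Bef P₂) (b13 : P₁.Bef P₃) (b14 : P₁.Bef P₄)
    (b23 : P₂.Bef P₃) (b24 : P₂.Bef P₄) (b34 : P₃.Bef P₄)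
    (hV : ∀ ω x, V ω x ≤ P₁.G ω x * (P₂.G ω x * (P₃.G ω x * P₄.G ω x)))
    (ht : w * (P₁.pr μ s N ε * (P₂.pr μ s N ε * (P₃.pr μ s N ε * P₄.pr μ s N ε))) + e ≤ t) : Cv μ s N y O V t := by
  refine Cv.lst hO [P₁, P₂, P₃, P₄] (by simp) ?_ ?_ (fun ω x => ?_) ?_
  · simp only [List.mem_cons, List.not_mem_nil, or_false]
    rintro P (rfl | rfl | rfl | rfl)
    exacts [e1, e2, e3, e4]
  · simp only [List.pairwise_cons, List.mem_cons, List.not_mem_nil, or_false, forall_eq_or_imp, forall_eq, List.Pairwise.nil, and_true,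
      IsEmpty.forall_iff, implies_true]
    exact ⟨⟨b12, b13, b14⟩, ⟨b23, b24⟩, b34⟩
  · simpa using hV ω x
  · simpa using ht

/-- A list for row `k`, all blocks in front of `h`. -/
structure Kl (μ : Measure ℝ) (s X M θ : ℝ) (zf h : ℕ) (ε : ℝ) (Ks : List (Pla N y)) (K : Fn N y) (κK : ℝ) : Prop where
  len : Ks.length ≤ 2
  el : ∀ P ∈ Ks, El μ s X M θ zf P ∧ P.p.d' ≤ h
  pw : Ks.Pairwise Pla.Bef
  K0 : ∀ ω x, 0 ≤ K ω x
  K1 : ∀ ω x, K ω x ≤ 1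
  le : ∀ ω x, K ω x ≤ (Ks.map fun P => P.G ω x).prod
  pr : (Ks.map fun P => P.pr μ s N ε).prod ≤ κK

/-- One place in front of the list of row `k`. -/
theorem Kl.c1 {X κK : ℝ} {h : ℕ} {Ks : List (Pla N y)} {K : Fn N y} (hX : X = (N : ℝ) ^ κ) (hK : Kl μ s X M θ zf h ε Ks K κK)
    (hO : Out50 μ s ε θ κ N y M e zf O w) (e1 : El μ s X M θ zf P₁) (b1 : ∀ P : Pla N y, P.p.d' ≤ h → P₁.Bef P) {p : ℝ}
    (hp : P₁.pr μ s N ε ≤ p) (hp0 : 0 ≤ P₁.pr μ s N ε) : Cv μ s N y O (fun ω x => K ω x * P₁.G ω x) (w * (p * κK) + e) := by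
  subst hX
  refine Cv.lst hO (P₁ :: Ks) (by have := hK.len; rw [List.length_cons]; omega) (fun P hP => ?_) ?_ (fun ω x => ?_) ?_
  · rcases List.mem_cons.1 hP with rfl | hP
    exacts [e1, (hK.el P hP).1]
  · rw [List.pairwise_cons]
    exact ⟨fun P hP => b1 P (hK.el P hP).2, hK.pw⟩
  · rw [List.map_cons, List.prod_cons, mul_comm]
    exact mul_le_mul_of_nonneg_left (hK.le ω x) (Pla.g0 e1.2.2.1 ω x)
  · rw [List.map_cons, List.prod_cons]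
    refine add_le_add (mul_le_mul_of_nonneg_left ?_ hO.w0) le_rfl
    have h0 : 0 ≤ (Ks.map fun P => P.pr μ s N ε).prod := List.prod_nonneg fun a ha => by
      obtain ⟨P, hP, rfl⟩ := List.mem_map.1 ha
      unfold Pla.pr
      cases P.tr with
      | none => exact po_nonneg (μ := μ) (s := s) ε P.p.l
      | some R => exact sq_nonneg _
    exact mul_le_mul hp hK.pr h0 (hp0.trans hp)

/-- Two places in front of the list of row `k`. -/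
theorem Kl.c2 {X κK : ℝ} {h : ℕ} {Ks : List (Pla N y)} {K : Fn N y} (hX : X = (N : ℝ) ^ κ) (hK : Kl μ s X M θ zf h ε Ks K κK)
    (hO : Out50 μ s ε θ κ N y M e zf O w) (e1 : El μ s X M θ zf P₁) (e2 : El μ s X M θ zf P₂)
    (b1 : ∀ P : Pla N y, P.p.d' ≤ h → P₁.Bef P) (b2 : ∀ P : Pla N y, P.p.d' ≤ h → P₂.Bef P) (b12 : P₁.Bef P₂) {p : ℝ}
    (hp : P₁.pr μ s N ε * P₂.pr μ s N ε ≤ p) (hp0 : 0 ≤ P₁.pr μ s N ε * P₂.pr μ s N ε) :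
    Cv μ s N y O (fun ω x => K ω x * (P₁.G ω x * P₂.G ω x)) (w * (p * κK) + e) := by
  subst hX
  refine Cv.lst hO (P₁ :: P₂ :: Ks) (by have := hK.len; rw [List.length_cons, List.length_cons]; omega) (fun P hP => ?_) ?_
    (fun ω x => ?_) ?_
  · rcases List.mem_cons.1 hP with rfl | hP
    · exact e1
    · rcases List.mem_cons.1 hP with rfl | hP
      exacts [e2, (hK.el P hP).1]
  · rw [List.pairwise_cons, List.pairwise_cons]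
    refine ⟨fun P hP => ?_, fun P hP => b2 P (hK.el P hP).2, hK.pw⟩
    rcases List.mem_cons.1 hP with rfl | hP
    exacts [b12, b1 P (hK.el P hP).2]
  · rw [List.map_cons, List.prod_cons, List.map_cons, List.prod_cons, mul_comm, ← mul_assoc]
    exact mul_le_mul_of_nonneg_left (hK.le ω x) (mul_nonneg (Pla.g0 e1.2.2.1 ω x) (Pla.g0 e2.2.2.1 ω x))
  · rw [List.map_cons, List.prod_cons, List.map_cons, List.prod_cons, ← mul_assoc (Pla.pr μ s N ε P₁)]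
    refine add_le_add (mul_le_mul_of_nonneg_left ?_ hO.w0) le_rfl
    have h0 : 0 ≤ (Ks.map fun P => P.pr μ s N ε).prod := List.prod_nonneg fun a ha => by
      obtain ⟨P, hP, rfl⟩ := List.mem_map.1 ha
      unfold Pla.pr
      cases P.tr with
      | none => exact po_nonneg (μ := μ) (s := s) ε P.p.l
      | some R => exact sq_nonneg _
    exact mul_le_mul hp hK.pr h0 (hp0.trans hp)

end Ls

/-! ### The data of a row -/

/-- The numbers and functionals of a row: own place `(oc, od)`, window `(ou, ov)`; `[g0, g1]`; region 2 `[t2, e2]`; region 1 `[t1, e1]`. -/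
structure Rd (N y : ℕ) where
  j : ℕ
  z : ℕ
  g0 : ℕ
  g1 : ℕ
  t1 : ℕ
  e1 : ℕ
  t2 : ℕ
  e2 : ℕ
  ou : ℕ
  ov : ℕ
  od : ℕ
  O : Fn N y
  I : Fn N y
  Z : Fn N y
  W : Fn N y
  T : Fn N y

/-- The row is admissible. -/
structure Rd.Ok {y : ℕ} (r : Rd N y) (μ : Measure ℝ) (s X M θ R : ℝ) (H zf oc b l : ℕ) : Prop where
  b1 : 1 ≤ b
  lb : l ≤ b
  hl : (N : ℝ) ^ θ ≤ l
  zfN : zf ≤ N
  X1 : 1 ≤ X
  R1 : 1 ≤ R
  hw : ∀ i : ℕ, 1 ≤ i → i ≤ H → wd' μ s i ≤ R * wd' μ s l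
  g : b < r.j ∧ oc ≤ r.j - b ∧ r.j - b ≤ r.g0 ∧ r.g0 + l ≤ r.g1 ∧ r.g1 ≤ r.t2 ∧ r.t2 + l ≤ r.e2 ∧ r.e2 ≤ r.t1 ∧ r.t1 + l ≤ r.e1 ∧
    r.e1 ≤ r.z ∧ r.z ≤ r.j + b ∧ r.z ≤ zf ∧ r.z - r.t2 ≤ H
  o : (r.j - b ≤ r.ou ∧ r.ou ≤ r.ov ∧ r.ov ≤ r.g0) ∨ (r.z ≤ r.ou ∧ r.ou ≤ r.ov ∧ r.ov ≤ r.j + b)
  od : r.ov ≤ r.od ∧ r.od ≤ zf
  dO : Dom μ s N y X M ⟨oc, r.od, oc, r.od, r.ou, r.ov, l, Ty.L, False⟩ r.O
  mO : ∀ x, Measurable fun ω => r.O ω x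
  dI : Dom μ s N y X M ⟨0, r.z, r.g0, r.z, r.t2, r.e2, l, Ty.L, False⟩ r.I
  mI : ∀ x, Measurable fun ω => r.I ω x
  bI : ∀ J : Finset ℕ, (∀ i ∈ J, r.z < i) → FinB J r.I
  dZ : Dom μ s N y X M ⟨0, r.z, 0, r.z, r.t1, r.e1, l, Ty.L, False⟩ r.Z
  mZ : ∀ x, Measurable fun ω => r.Z ω x
  dW : Dom μ s N y X M ⟨0, r.z, 0, r.e2, r.g0, r.g1, l, Ty.L, False⟩ r.W
  mW : ∀ x, Measurable fun ω => r.W ω x
  dT : N29.DomT μ s N y X R ⟨0, r.z, 0, r.z, r.t2, r.e2, l, Ty.L, False⟩ r.T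
  mT : ∀ x, Measurable fun ω => r.T ω x
  sp : ∀ hA hB : ℕ, hA ≤ hB → hB ≤ r.t2 → ∃ T₁ Lg Lc : Fn N y,
      (N29.DomT μ s N y X R ⟨0, r.z, hA, r.z, r.t2, r.e2, l, Ty.L, False⟩ T₁ ∧ ∀ x, Measurable fun ω => T₁ ω x) ∧
      (Dom μ s N y X M ⟨0, r.z, 0, r.z, hA, hB, hB - hA, Ty.L, False⟩ Lg ∧ ∀ x, Measurable fun ω => Lg ω x) ∧
      (Dom μ s N y X M ⟨0, r.z, hB, r.z, r.t2, r.e2, l, Ty.L, False⟩ Lc ∧ ∀ x, Measurable fun ω => Lc ω x) ∧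
      ∀ ω x, r.T ω x ≤ T₁ ω x + (2 * (Lg ω x * Lc ω x) + T2f μ s N y X r.z hB r.t2 r.e2 ω x)
  sp2 : ∀ hB : ℕ, hB ≤ r.t2 → ∃ Lc : Fn N y,
      (Dom μ s N y X M ⟨0, r.z, hB, r.z, r.t2, r.e2, l, Ty.L, False⟩ Lc ∧ ∀ x, Measurable fun ω => Lc ω x) ∧
      ∀ ω x, r.T ω x ≤ 2 * Lc ω x + T2f μ s N y X r.z hB r.t2 r.e2 ω x

/-- The functional of the row. -/
def Rd.U {y : ℕ} (r : Rd N y) (ω : Env × Finset ℕ) (x : Px (Pn N y)) : ℝ := r.O ω x * r.I ω x + r.Z ω x * r.W ω x + r.T ω x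

end

end Pool.Agent.W_7d29a1_C0.Pt450
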