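import Pool.Agent.W_7d29a1_C0.Pt4C50

/-!
MP_7d29a1_pr, [C0], the pair price of `¬ okE` at the corner (helper50), fourth part: the row `j` against a list in front of the cut.
-/

set_option autoImplicit false
set_option linter.unusedSectionVars false
set_option linter.unusedVariables false

namespace Pool.Agent.W_7d29a1_C0.Pt450

open MeasureTheory ProbabilityTheory Filter Topology Finset
open Pool.Agent.W_7d29a1_F Pool.Agent.W_7d29a1_X Pool.Agent.W_7d29a1_h4g Pool.Agent.W_7d29a1_H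
open Pool.Agent.W_7d29a1_HS (In wd md)
open Pool.Agent.W_7d29a1_HZ Pool.Agent.W_7d29a1_HZ.R72 Pool.Agent.W_7d29a1_Z.Asm72
open Pool.Agent.W_7d29a1_HZ.Z86
open Pool.Agent.W_7d29a1_C0.P86
open Pool.Agent.W_7d29a1_C0.Mod92 (Px Pn lw ps pJ ne_Pn ps_Pn pos_card ps_of_le ps_of_ge wm Pm meas_lw meas_cE meas_gz meas_gm meas_wm int_Pm
  Fam avy avy_mono avy_const)
open Pool.Agent.W_7d29a1_C0.Swap57 (NI cE2 NI_nonneg)
open Pool.Agent.W_7d29a1_C0.N51 (mc3 mc3_nonneg mc3_le_one)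
open Pool.Agent.W_7d29a1_C0.N29 (Pla)
open Pool.Agent.W_7d29a1_C0.T93 (rdist Fam2 pr2)
open Pool.Agent.W_7d29a1_C0.E2S39 (meas_mc39 gap_cutL gap_cutR out39 out39_nonneg out39_le_one pout dom_out rdist_comm39 rdist_of_le39)
open Pool.Agent.W_7d29a1_C0.P15 (iE iE_mem iE_one iE_zero EvT EvI EvII TieP FinB ig15 gm01 meas_sec)
open Pool.W7d29a1.C0 (gm gz gz_pos gm_nonneg gm_mono gm_const gm_add PP)
open Pool.W7d29a1.C0.VT31 (Mp cE gm_mul_cE fz cE_sum cE_mono cE_nonneg)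
open Pool.W7d29a1.C0.R43 (Tau Rp mI bI st swP_pJ tau_rp st_end le_st)
open Pool.W7d29a1.C0.O1 (Gz okE en)
open scoped ENNReal

noncomputable section

variable {μ : Measure ℝ} {s : ℝ} {N : ℕ} [IsProbabilityMeasure μ] {ε θ κ M e w R : ℝ} {H zf oc b l ld y : ℕ} {O : Fn N y} {r : Rd N y}

/-- The element of a place. -/
abbrev pl (p : Plc) (G : Fn N y) : Pla N y := ⟨p, G, none⟩

omit [IsProbabilityMeasure μ] in
theorem prP (p : Plc) (G : Fn N y) : (pl p G).pr μ s N ε = po μ s N ε p.l := rfl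

omit [IsProbabilityMeasure μ] in
theorem prT (p : Plc) (G : Fn N y) : (⟨p, G, some R⟩ : Pla N y).pr μ s N ε = (R * po μ s N ε p.l) ^ 2 := rfl

/-- **THE ROW `j` AGAINST A LIST WHICH IS TOLD IN FRONT OF THE CUT.** -/
theorem told {Ks : List (Pla N y)} {K : Fn N y} {κK : ℝ} {h hA : ℕ} (hr : r.Ok μ s ((N : ℝ) ^ κ) M θ R H zf oc b l)
    (hO : Out50 μ s ε θ κ N y M e zf O w) (hy : y ≤ N) (hK : Kl μ s ((N : ℝ) ^ κ) M θ zf h ε Ks K κK) (hκ : 0 ≤ κK)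
    (h1 : h ≤ hA) (h2 : hA + ld ≤ r.j - b) (h3 : oc ≤ hA) (hld : (N : ℝ) ^ θ ≤ ld) (hld1 : 1 ≤ ld) (he : 0 ≤ e) :
    Cv μ s N y O (fun ω x => K ω x * r.U ω x)
      (w * ((2 * po μ s N ε l ^ 2 + 2 * po μ s N ε ld + (R * po μ s N ε l) ^ 2) * κK) + 5 * e) := by
  obtain ⟨b1, lb, hl, zfN, X1, R1, hw, g, o, od, dO, mO, dI, mI, bI, dZ, mZ, dW, mW, dT, mT, sp, sp2⟩ := hr
  obtain ⟨g1, g2, g3, g4, g5, g6, g7, g8, g9, g10, g11, g12⟩ := g
  have pl0 := po_nonneg (μ := μ) (s := s) (N := N) ε l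
  have pd0 := po_nonneg (μ := μ) (s := s) (N := N) ε ld
  have i0 := fun ω x => dI.1 ω x
  have i1 := fun ω x => dI.2.1 ω x
  -- own and `I`
  have c1 : Cv μ s N y O (fun ω x => K ω x * (r.O ω x * r.I ω x)) (w * ((po μ s N ε l ^ 2 + po μ s N ε ld) * κK) + 2 * e) := by
    rcases o with ⟨o1, o2, o3⟩ | ⟨o1, o2, o3⟩
    · obtain ⟨G₁, G₂, ⟨d1, m1⟩, ⟨d2, m2⟩, hG⟩ := cutL (h := hA) (V' := r.j - b) (l₂ := ld) (ty₁ := Ty.M) (ty₂ := Ty.R) dO o1 h2
      have k1 := hK.c2 rfl hO (P₁ := pl _ G₁) (P₂ := pl _ r.I) (p := po μ s N ε l ^ 2) ⟨⟨?_, hl⟩, ?_, d1, m1⟩ ⟨⟨?_, hl⟩, ?_, dI, mI⟩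
        (fun P hP => Or.inr ?_) (fun P hP => Or.inr (Or.inl ?_)) (Or.inl ?_) (by rw [prP, prP, pow_two]) (by
          rw [prP, prP]
          positivity)
      have k2 := hK.c1 rfl hO (P₁ := pl _ G₂) (p := po μ s N ε ld) ⟨⟨?_, hld⟩, ?_, d2, m2⟩ (fun P hP => Or.inl ?_) (by rw [prP])
        (by rw [prP]; exact pd0)
      · refine Cv.mono (Cv.add hy hO.wt k1 k2 (V := fun ω x => K ω x * (r.O ω x * r.I ω x)) fun ω x => ?_) (fun ω x => le_rfl) (le_of_eq ?_)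
        · show K ω x * (r.O ω x * r.I ω x) ≤ K ω x * (G₁ ω x * r.I ω x) + K ω x * G₂ ω x
          have a1 := hK.K0 ω x
          have a2 := hG ω x
          have a3 : G₂ ω x * r.I ω x ≤ G₂ ω x := mul_le_of_le_one_right (d2.1 ω x) (i1 ω x)
          have a4 : r.O ω x * r.I ω x ≤ G₁ ω x * r.I ω x + G₂ ω x := by
            have := mul_le_mul_of_nonneg_right a2 (i0 ω x)
            rw [add_mul] at this
            linarith
          rw [← mul_add]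
          exact mul_le_mul_of_nonneg_left a4 a1
        · ring
      all_goals dsimp only
      all_goals omega
    · have k1 := hK.c2 rfl hO (P₁ := pl ⟨oc, r.od, oc, r.od, r.ou, r.ov, l, Ty.R, False⟩ r.O) (P₂ := pl _ r.I) (p := po μ s N ε l ^ 2)
        ⟨⟨?_, hl⟩, ?_, dom_len dO le_rfl, mO⟩ ⟨⟨?_, hl⟩, ?_, dI, mI⟩ (fun P hP => Or.inl ?_) (fun P hP => Or.inr (Or.inl ?_)) (Or.inl ?_)
        (by rw [prP, prP, pow_two]) (by
          rw [prP, prP]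
          positivity)
      · refine Cv.mono k1 (fun ω x => le_rfl) ?_
        have := hO.w0
        have h5 : w * (po μ s N ε l ^ 2 * κK) ≤ w * ((po μ s N ε l ^ 2 + po μ s N ε ld) * κK) := by
          refine mul_le_mul_of_nonneg_left (mul_le_mul_of_nonneg_right ?_ hκ) this
          linarith
        linarith
      all_goals dsimp only
      all_goals omega
  -- region 1 and `II`
  have c2 : Cv μ s N y O (fun ω x => K ω x * (r.Z ω x * r.W ω x)) (w * ((po μ s N ε l ^ 2 + po μ s N ε ld) * κK) + 2 * e) := by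
    obtain ⟨G₁, G₂, ⟨d1, m1⟩, ⟨d2, m2⟩, hG⟩ := cutL (h := hA) (V' := r.j - b) (l₂ := ld) (ty₁ := Ty.L) (ty₂ := Ty.R) dW g3 h2
    have k1 := hK.c2 rfl hO (P₁ := pl ⟨0, r.z, 0, r.z, r.t1, r.e1, l, Ty.R, False⟩ r.Z) (P₂ := pl _ G₁) (p := po μ s N ε l ^ 2)
      ⟨⟨?_, hl⟩, ?_, dom_len dZ le_rfl, mZ⟩ ⟨⟨?_, hl⟩, ?_, d1, m1⟩
      (fun P hP => Or.inl ?_) (fun P hP => Or.inr (Or.inl ?_)) (Or.inl ?_) (by rw [prP, prP, pow_two]) (by
        rw [prP, prP]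
        positivity)
    have k2 := hK.c1 rfl hO (P₁ := pl _ G₂) (p := po μ s N ε ld) ⟨⟨?_, hld⟩, ?_, d2, m2⟩ (fun P hP => Or.inl ?_) (by rw [prP])
      (by rw [prP]; exact pd0)
    · refine Cv.mono (Cv.add hy hO.wt k1 k2 (V := fun ω x => K ω x * (r.Z ω x * r.W ω x)) fun ω x => ?_) (fun ω x => le_rfl) (le_of_eq ?_)
      · show K ω x * (r.Z ω x * r.W ω x) ≤ K ω x * (r.Z ω x * G₁ ω x) + K ω x * G₂ ω x
        have a1 := hK.K0 ω x
        have a2 := hG ω x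
        have a3 : r.Z ω x * G₂ ω x ≤ G₂ ω x := mul_le_of_le_one_left (d2.1 ω x) (dZ.2.1 ω x)
        have a4 : r.Z ω x * r.W ω x ≤ r.Z ω x * G₁ ω x + G₂ ω x := by
          have := mul_le_mul_of_nonneg_left a2 (dZ.1 ω x)
          rw [mul_add] at this
          linarith
        rw [← mul_add]
        exact mul_le_mul_of_nonneg_left a4 a1
      · ring
    all_goals dsimp only
    all_goals omega
  -- three branches
  have c3 : Cv μ s N y O (fun ω x => K ω x * r.T ω x) (w * ((R * po μ s N ε l) ^ 2 * κK) + e) := by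
    refine hK.c1 rfl hO (P₁ := ⟨_, r.T, some R⟩) (p := (R * po μ s N ε l) ^ 2) ⟨⟨?_, hl⟩, ?_, dT, mT⟩ (fun P hP => Or.inl ?_)
      (by rw [prT]) (by rw [prT]; exact sq_nonneg _)
    all_goals dsimp only
    all_goals omega
  refine Cv.mono (Cv.add hy hO.wt (Cv.add hy hO.wt c1 c2 (V := fun ω x => K ω x * (r.O ω x * r.I ω x) + K ω x * (r.Z ω x * r.W ω x))
    fun ω x => le_rfl) c3 (V := fun ω x => K ω x * r.U ω x) fun ω x => le_of_eq ?_) (fun ω x => le_rfl) (le_of_eq ?_)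
  · unfold Rd.U
    ring
  · ring


end

end Pool.Agent.W_7d29a1_C0.Pt450
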