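import Pool.Agent.W_7d29a1_C0.Pt4D50

/-!
MP_7d29a1_pr, [C0], the pair price of `¬ okE` at the corner (helper50), fifth part: both loops of the three branches over the gap.
-/

set_option autoImplicit false
set_option linter.unusedSectionVars false
set_option linter.unusedVariables false

namespace Pool.Agent.W_7d29a1_C0.Pt450

open MeasureTheory ProbabilityTheory Filter Topology Finset
open Pool.Agent.W_7d29a1_F Pool.Agent.W_7d29a1_X Pool.Agent.W_7d29a1_h4g Pool.Agent.W_7d29a1_H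
open Pool.Agent.W_7d29a1_HS (In wd md)
open Pool.Agent.W_7d29a1_HZ Pool.Agent.W_7d29a1_HZ.R72 Pool.Agent.W_7d29a1_Z.Asm72
open Pool.Agent.W_7d29a1_HZ.Z86
open Pool.Agent.W_7d29a1_C0.P86
open Pool.Agent.W_7d29a1_C0.Mod92 (Px Pn lw ps pJ ne_Pn ps_Pn pos_card ps_of_le ps_of_ge wm Pm meas_lw meas_cE meas_gz meas_gm meas_wm int_Pm
  Fam avy avy_mono avy_const)
open Pool.Agent.W_7d29a1_C0.Swap57 (NI cE2 NI_nonneg)
open Pool.Agent.W_7d29a1_C0.N51 (mc3 mc3_nonneg mc3_le_one)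
open Pool.Agent.W_7d29a1_C0.N29 (Pla)
open Pool.Agent.W_7d29a1_C0.T93 (rdist Fam2 pr2)
open Pool.Agent.W_7d29a1_C0.E2S39 (meas_mc39 gap_cutL gap_cutR out39 out39_nonneg out39_le_one pout dom_out rdist_comm39 rdist_of_le39)
open Pool.Agent.W_7d29a1_C0.P15 (iE iE_mem iE_one iE_zero EvT EvI EvII TieP FinB ig15 gm01 meas_sec)
open Pool.W7d29a1.C0 (gm gz gz_pos gm_nonneg gm_mono gm_const gm_add PP)
open Pool.W7d29a1.C0.VT31 (Mp cE gm_mul_cE fz cE_sum cE_mono cE_nonneg)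
open Pool.W7d29a1.C0.R43 (Tau Rp mI bI st swP_pJ tau_rp st_end le_st)
open Pool.W7d29a1.C0.O1 (Gz okE en)
open scoped ENNReal

noncomputable section

variable {μ : Measure ℝ} {s : ℝ} {N : ℕ} [IsProbabilityMeasure μ] {ε θ κ M e w R : ℝ} {H zf oc b l ld y : ℕ} {O : Fn N y} {r k : Rd N y}
  {ys : Finset ℕ}

/-- The unit of the errors. -/
def er (N : ℕ) (ε R e : ℝ) : ℝ := R ^ 4 * ((N : ℝ) ^ ε) ^ 5 * e

omit [IsProbabilityMeasure μ] in
theorem po_le (ε : ℝ) (l : ℕ) : po μ s N ε l ≤ (N : ℝ) ^ ε := by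
  have h1 : (EE' μ s l)⁻¹ ≤ 1 := inv_le_one_of_one_le₀ (le_max_left _ _)
  exact mul_le_of_le_one_right (Real.rpow_nonneg (Nat.cast_nonneg _) _) h1

/-- The numbers of the cut between the rows `k < r`. -/
structure Cut (N : ℕ) (θ : ℝ) (k r : Rd N y) (hA hB b ld L2 : ℕ) : Prop where
  a1 : k.j + b < hA
  a2 : hA + ld ≤ hB
  a3 : hB + ld ≤ r.j - b
  a4 : 8 * b ≤ hB - hA
  a5 : 4 * (r.z - hB) ≤ hB - hA
  a6 : r.z - hB ≤ 4 * ld
  a7 : (N : ℝ) ^ θ ≤ ld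
  a8 : 1 ≤ ld
  a9 : k.j + b + L2 ≤ hA
  a10 : 8 * b ≤ L2
  a11 : 4 * (r.z - hB) ≤ L2
  a12 : ld ≤ L2

/-- **Both loops of the three branches over the gap**, with `I` of the row `k`. -/
theorem ntdI (hP : Pk50 μ s ε θ κ N ys M e) (hy : y ∈ ys) (hr : r.Ok μ s ((N : ℝ) ^ κ) M θ R H zf oc b l)
    (hk : k.Ok μ s ((N : ℝ) ^ κ) M θ R H zf oc b l) (hO : Out50 μ s ε θ κ N y M e zf O w) (hw : w ≤ (N : ℝ) ^ ε) {hA hB L2 : ℕ}
    (hc : Cut N θ k r hA hB b ld L2) :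
    Cv μ s N y O (fun ω x => k.I ω x * T2f μ s N y ((N : ℝ) ^ κ) r.z hB r.t2 r.e2 ω x)
      (w * (R ^ 2 * (po μ s N ε l ^ 2 * po μ s N ε ld)) + 3 * er N ε R e) := by
  obtain ⟨b1, lb, hl, zfN, X1, R1, hw', g, o, od, dO, mO, dI, mI, bI, dZ, mZ, dW, mW, dT, mT, sp, sp2⟩ := hr
  obtain ⟨-, -, -, -, -, -, -, gk, -, -, -, -, dIk, mIk, bIk, -, -, -, -, -, -, -, -⟩ := hk
  obtain ⟨a1, a2, a3, a4, a5, a6, a7, a8, a9, a10, a11, a12⟩ := hc
  have hyN := hP.yN y hy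
  have hN0 : (0 : ℝ) ≤ N := Nat.cast_nonneg _
  have hA1 : 1 ≤ (N : ℝ) ^ ε := Real.one_le_rpow (by exact_mod_cast hP.N1) hP.ε0
  have wI : Wt50 k.I := ⟨mIk, dIk.1, dIk.2.1⟩
  have wT : Wt50 (T2f μ s N y ((N : ℝ) ^ κ) r.z hB r.t2 r.e2) := ⟨meas_T2f, fun ω x => (T2f01 ω x).1, fun ω x => (T2f01 ω x).2⟩
  have k1 := hO.wg (fun ω x => k.I ω x * T2f μ s N y ((N : ℝ) ^ κ) r.z hB r.t2 r.e2 ω x) (wI.mul wT)
    (FinB.mul' (bIk _ fun i hi => by have := mem_Ioo.1 hi; omega) (finB_T2f fun i hi => by have := mem_Ioo.1 hi; omega))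
  have k2 := hP.ntd y hy R H ld l hB r.t2 r.e2 r.z R1 hw' a7 hl (by omega) (by omega) (by omega) (by omega) (by omega) (by omega) (by omega)
    k.I wI (bIk _ fun i hi => by have := mem_Ico.1 hi; omega) (bIk _ fun i hi => by have := mem_Ico.1 hi; omega)
  have k3 := hP.mix y hy [⟨⟨0, k.z, k.g0, k.z, k.t2, k.e2, l, Ty.L, False⟩, k.I, none⟩] (by simp) (fun P hP' => by
      rw [List.mem_singleton.1 hP']
      refine ⟨?_, hl⟩
      dsimp only
      omega) (by simp) (fun P hP' => by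
      rw [List.mem_singleton.1 hP']
      exact dIk) (fun _ _ => 1) wt_one fun P _ η η' A x _ => rfl
  have e1 : ∫ ω, gm (wm μ s N (Pn N y) ω) (fun _ => (1 : ℝ)) ∂(Pm μ N) = 1 := int_one hyN
  rw [e1] at k3
  simp only [List.map_cons, List.map_nil, List.prod_cons, List.prod_nil, mul_one, one_mul] at k3
  have k3' : ∫ ω, gm (wm μ s N (Pn N y) ω) (k.I ω) ∂(Pm μ N) ≤ po μ s N ε l + e := k3
  have pl0 := po_nonneg (μ := μ) (s := s) (N := N) ε l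
  have pd0 := po_nonneg (μ := μ) (s := s) (N := N) ε ld
  have plA := po_le (μ := μ) (s := s) (N := N) ε l
  have pdA := po_le (μ := μ) (s := s) (N := N) ε ld
  have he := hP.e0
  have hw0 := hO.w0
  have R0 : 0 ≤ R := by linarith
  refine ⟨fun ω x => k.I ω x * T2f μ s N y ((N : ℝ) ^ κ) r.z hB r.t2 r.e2 ω x, 1, (wI.mul wT).1, (wI.mul wT).2.1, (wI.mul wT).2.2,
    fun ω x => le_rfl, ?_⟩
  have k4 : (R * po μ s N ε ld) * (R * po μ s N ε l) * ∫ ω, gm (wm μ s N (Pn N y) ω) (k.I ω) ∂(Pm μ N) ≤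
      (R * po μ s N ε ld) * (R * po μ s N ε l) * (po μ s N ε l + e) := mul_le_mul_of_nonneg_left k3' (by positivity)
  have k5 : w * ∫ ω, gm (wm μ s N (Pn N y) ω) (fun x => k.I ω x * T2f μ s N y ((N : ℝ) ^ κ) r.z hB r.t2 r.e2 ω x) ∂(Pm μ N) ≤
      w * ((R * po μ s N ε ld) * (R * po μ s N ε l) * (po μ s N ε l + e) + e) := mul_le_mul_of_nonneg_left (k2.trans (by linarith)) hw0
  obtain ⟨A, hAe⟩ : ∃ A, A = (N : ℝ) ^ ε := ⟨_, rfl⟩
  rw [← hAe] at hA1 plA pdA hw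
  have q1 : e ≤ er N ε R e := by
    unfold er
    rw [← hAe]
    have : 1 ≤ R ^ 4 * A ^ 5 := one_le_mul_of_one_le_of_one_le (one_le_pow₀ R1) (one_le_pow₀ hA1)
    nlinarith
  have q2 : w * e ≤ er N ε R e := by
    unfold er
    rw [← hAe]
    have h1 : A ≤ A ^ 5 := le_self_pow₀ hA1 (by norm_num)
    have h2 : A ^ 5 ≤ R ^ 4 * A ^ 5 := le_mul_of_one_le_left (by positivity) (one_le_pow₀ R1)
    exact mul_le_mul_of_nonneg_right (by linarith) he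
  have q3 : w * ((R * po μ s N ε ld) * (R * po μ s N ε l) * e) ≤ er N ε R e := by
    unfold er
    rw [← hAe]
    have h1 : w * (po μ s N ε ld * po μ s N ε l) ≤ A * (A * A) := mul_le_mul hw (mul_le_mul pdA plA pl0 (by linarith)) (by positivity) (by linarith)
    have h2 : R ^ 2 ≤ R ^ 4 := pow_le_pow_right₀ R1 (by norm_num)
    have h3 : A * (A * A) ≤ A ^ 5 := by
      have : A ^ 3 ≤ A ^ 5 := pow_le_pow_right₀ hA1 (by norm_num)
      linarith [show A * (A * A) = A ^ 3 by ring]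
    have h4 : w * (po μ s N ε ld * po μ s N ε l) * R ^ 2 ≤ A ^ 5 * R ^ 4 := mul_le_mul (h1.trans h3) h2 (by positivity) (by positivity)
    calc w * ((R * po μ s N ε ld) * (R * po μ s N ε l) * e) = (w * (po μ s N ε ld * po μ s N ε l) * R ^ 2) * e := by ring
      _ ≤ (A ^ 5 * R ^ 4) * e := mul_le_mul_of_nonneg_right h4 he
      _ = R ^ 4 * A ^ 5 * e := by ring
  refine k1.trans ?_
  have k6 : w * ((R * po μ s N ε ld) * (R * po μ s N ε l) * (po μ s N ε l + e) + e) =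
      w * (R ^ 2 * (po μ s N ε l ^ 2 * po μ s N ε ld)) + w * ((R * po μ s N ε ld) * (R * po μ s N ε l) * e) + w * e := by ring
  rw [k6] at k5
  linarith

end

end Pool.Agent.W_7d29a1_C0.Pt450
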