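import Pool.Agent.W_7d29a1_C0.Pt4E50

/-!
MP_7d29a1_pr, [C0], the pair price of `¬ okE` at the corner (helper50), sixth part: the row `j` against own and `I` of the row `k`, own in front.
-/

set_option autoImplicit false
set_option linter.unusedSectionVars false
set_option linter.unusedVariables false

namespace Pool.Agent.W_7d29a1_C0.Pt450

open MeasureTheory ProbabilityTheory Filter Topology Finset
open Pool.Agent.W_7d29a1_F Pool.Agent.W_7d29a1_X Pool.Agent.W_7d29a1_h4g Pool.Agent.W_7d29a1_H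
open Pool.Agent.W_7d29a1_HS (In wd md)
open Pool.Agent.W_7d29a1_HZ Pool.Agent.W_7d29a1_HZ.R72 Pool.Agent.W_7d29a1_Z.Asm72
open Pool.Agent.W_7d29a1_HZ.Z86
open Pool.Agent.W_7d29a1_C0.P86
open Pool.Agent.W_7d29a1_C0.Mod92 (Px Pn lw ps pJ ne_Pn ps_Pn pos_card ps_of_le ps_of_ge wm Pm meas_lw meas_cE meas_gz meas_gm meas_wm int_Pm
  Fam avy avy_mono avy_const)
open Pool.Agent.W_7d29a1_C0.Swap57 (NI cE2 NI_nonneg)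
open Pool.Agent.W_7d29a1_C0.N51 (mc3 mc3_nonneg mc3_le_one)
open Pool.Agent.W_7d29a1_C0.N29 (Pla)
open Pool.Agent.W_7d29a1_C0.T93 (rdist Fam2 pr2)
open Pool.Agent.W_7d29a1_C0.E2S39 (meas_mc39 gap_cutL gap_cutR out39 out39_nonneg out39_le_one pout dom_out rdist_comm39 rdist_of_le39)
open Pool.Agent.W_7d29a1_C0.P15 (iE iE_mem iE_one iE_zero EvT EvI EvII TieP FinB ig15 gm01 meas_sec)
open Pool.W7d29a1.C0 (gm gz gz_pos gm_nonneg gm_mono gm_const gm_add PP)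
open Pool.W7d29a1.C0.VT31 (Mp cE gm_mul_cE fz cE_sum cE_mono cE_nonneg)
open Pool.W7d29a1.C0.R43 (Tau Rp mI bI st swP_pJ tau_rp st_end le_st)
open Pool.W7d29a1.C0.O1 (Gz okE en)
open scoped ENNReal

noncomputable section

variable {μ : Measure ℝ} {s : ℝ} {N : ℕ} [IsProbabilityMeasure μ] {ε θ κ M e w R : ℝ} {H zf oc b l ld y : ℕ} {O : Fn N y} {r k : Rd N y}
  {ys : Finset ℕ}

/-- `V` is the sum of parts with prices. -/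
theorem Cv.two (hy : y ≤ N) (hO : Wt50 O) {V V₁ V₂ : Fn N y} {t t₁ t₂ : ℝ} (h : Cv μ s N y O V₁ t₁) (h' : Cv μ s N y O V₂ t₂)
    (hV : ∀ ω x, V ω x ≤ V₁ ω x + V₂ ω x) (ht : t₁ + t₂ ≤ t) : Cv μ s N y O V t :=
  Cv.mono (Cv.add hy hO h h' hV) (fun _ _ => le_rfl) ht

omit [IsProbabilityMeasure μ] in
theorem num1 {w a a' p e : ℝ} (hw : 0 ≤ w) (h : a ≤ a') (hp : 0 ≤ p) : w * (a * (p * p)) + e ≤ w * (p ^ 2 * a') + e := by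
  have h1 : a * (p * p) ≤ a' * (p * p) := mul_le_mul_of_nonneg_right h (mul_nonneg hp hp)
  have h2 := mul_le_mul_of_nonneg_left h1 hw
  nlinarith

/-- `a b c ≤ x` style bounds of products of numbers in `[0, 1]`. -/
theorem pr_cut {ko ki a b g₁ g₂ : ℝ} (h0 : 0 ≤ ko) (h1 : ko ≤ 1) (i0 : 0 ≤ ki) (b0 : 0 ≤ b) (h : a ≤ g₁ + g₂) (g2 : 0 ≤ g₂) :
    ko * ki * (a * b) ≤ ko * ki * (g₁ * b) + g₂ * (b * ki) := by
  have h3 : a * b ≤ g₁ * b + g₂ * b := by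
    have := mul_le_mul_of_nonneg_right h b0
    rwa [add_mul] at this
  have h4 := mul_le_mul_of_nonneg_left h3 (mul_nonneg h0 i0)
  have h5 : ko * (ki * (g₂ * b)) ≤ 1 * (ki * (g₂ * b)) := mul_le_mul_of_nonneg_right h1 (mul_nonneg i0 (mul_nonneg g2 b0))
  nlinarith

/-- **OWN OF THE ROW `k` IN FRONT, event `I` of the row `k`, own and `I` of the row `j`.** -/
theorem kfrontA (hP : Pk50 μ s ε θ κ N ys M e) (hy : y ∈ ys) (hr : r.Ok μ s ((N : ℝ) ^ κ) M θ R H zf oc b l)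
    (hk : k.Ok μ s ((N : ℝ) ^ κ) M θ R H zf oc b l) (hO : Out50 μ s ε θ κ N y M e zf O w) {hA hB L2 : ℕ}
    (hc : Cut N θ k r hA hB b ld L2) (hf : k.j - b ≤ k.ou ∧ k.ou ≤ k.ov ∧ k.ov ≤ k.g0) :
    Cv μ s N y O (fun ω x => k.O ω x * k.I ω x * (r.O ω x * r.I ω x))
      (w * (po μ s N ε l ^ 4 + po μ s N ε l ^ 2 * po μ s N ε ld) + 2 * e) := by
  obtain ⟨b1, lb, hl, zfN, X1, R1, hw', g, o, od, dO, mO, dI, mI, bI, dZ, mZ, dW, mW, dT, mT, sp, sp2⟩ := hr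
  obtain ⟨-, -, -, -, -, -, -, gk, -, odk, dOk, mOk, dIk, mIk, bIk, -, -, -, -, -, -, -, -⟩ := hk
  obtain ⟨a1, a2, a3, a4, a5, a6, a7, a8, a9, a10, a11, a12⟩ := hc
  have hyN := hP.yN y hy
  have pl0 := po_nonneg (μ := μ) (s := s) (N := N) ε l
  have pAB := po_anti (μ := μ) (s := s) (N := N) ε (show ld ≤ hB - hA by omega)
  have hAB : (N : ℝ) ^ θ ≤ ((hB - hA : ℕ) : ℝ) := a7.trans (by exact_mod_cast (by omega : ld ≤ hB - hA))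
  have dOM : Dom μ s N y ((N : ℝ) ^ κ) M ⟨oc, k.od, oc, k.od, k.ou, k.ov, l, Ty.M, False⟩ k.O := dom_len dOk le_rfl
  have hou : r.j - b ≤ r.ou := by rcases o with o | o <;> omega
  obtain ⟨G₁, G₂, ⟨d1, m1⟩, ⟨d2, m2⟩, hG⟩ := cutL (h := hA) (V' := hB) (l₂ := hB - hA) (ty₁ := Ty.L) (ty₂ := Ty.L) dO
    (show hB ≤ r.ou by omega) (by omega)
  have k1 : Cv μ s N y O (fun ω x => k.O ω x * k.I ω x * (G₁ ω x * r.I ω x)) (w * po μ s N ε l ^ 4 + e) := by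
    rcases o with o | o
    · refine Cv.l4 hO (P₁ := pl _ k.O) (P₂ := pl ⟨oc, r.od, hA, r.od, r.ou, r.ov, l, Ty.M, False⟩ G₁) (P₃ := pl _ r.I) (P₄ := pl _ k.I)
        ⟨⟨?_, hl⟩, ?_, dOM, mOk⟩ ⟨⟨?_, hl⟩, ?_, dom_len d1 le_rfl, m1⟩ ⟨⟨?_, hl⟩, ?_, dI, mI⟩ ⟨⟨?_, hl⟩, ?_, dIk, mIk⟩
        (Or.inl ?_) (Or.inl ?_) (Or.inl ?_) (Or.inl ?_) (Or.inr ?_) (Or.inr (Or.inl ?_)) (fun ω x => le_of_eq ?_) (le_of_eq ?_)
      all_goals first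
        | (dsimp only; omega)
        | (simp only [prP]; ring1)
        | (dsimp only; ring1)
    · refine Cv.l4 hO (P₁ := pl _ k.O) (P₂ := pl ⟨oc, r.od, hA, r.od, r.ou, r.ov, l, Ty.R, False⟩ G₁) (P₃ := pl _ r.I) (P₄ := pl _ k.I)
        ⟨⟨?_, hl⟩, ?_, dOM, mOk⟩ ⟨⟨?_, hl⟩, ?_, dom_len d1 le_rfl, m1⟩ ⟨⟨?_, hl⟩, ?_, dI, mI⟩ ⟨⟨?_, hl⟩, ?_, dIk, mIk⟩
        (Or.inl ?_) (Or.inl ?_) (Or.inl ?_) (Or.inl ?_) (Or.inl ?_) (Or.inr (Or.inl ?_)) (fun ω x => le_of_eq ?_) (le_of_eq ?_)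
      all_goals first
        | (dsimp only; omega)
        | (simp only [prP]; ring1)
        | (dsimp only; ring1)
  have k2 : Cv μ s N y O (fun ω x => G₂ ω x * (r.I ω x * k.I ω x)) (w * (po μ s N ε l ^ 2 * po μ s N ε ld) + e) := by
    refine Cv.l3 hO (P₁ := pl _ G₂) (P₂ := pl _ r.I) (P₃ := pl _ k.I)
      ⟨⟨?_, hAB⟩, ?_, d2, m2⟩ ⟨⟨?_, hl⟩, ?_, dI, mI⟩ ⟨⟨?_, hl⟩, ?_, dIk, mIk⟩
      (Or.inr (Or.inr ⟨fun h => h, Or.inr ?_, ?_⟩)) (Or.inr (Or.inr ⟨fun h => h, Or.inl ?_, ?_⟩)) (Or.inr (Or.inl ?_))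
      (fun ω x => le_rfl) (num1 hO.w0 pAB pl0)
    all_goals dsimp only
    all_goals omega
  exact Cv.two hyN hO.wt k1 k2 (fun ω x => pr_cut (dOk.1 ω x) (dOk.2.1 ω x) (dIk.1 ω x) (dI.1 ω x) (hG ω x) (d2.1 ω x))
    (le_of_eq (by ring))

/-- The same, region 1 and `II` of the row `j`. -/
theorem kfrontB (hP : Pk50 μ s ε θ κ N ys M e) (hy : y ∈ ys) (hr : r.Ok μ s ((N : ℝ) ^ κ) M θ R H zf oc b l)
    (hk : k.Ok μ s ((N : ℝ) ^ κ) M θ R H zf oc b l) (hO : Out50 μ s ε θ κ N y M e zf O w) {hA hB L2 : ℕ}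
    (hc : Cut N θ k r hA hB b ld L2) (hf : k.j - b ≤ k.ou ∧ k.ou ≤ k.ov ∧ k.ov ≤ k.g0) :
    Cv μ s N y O (fun ω x => k.O ω x * k.I ω x * (r.Z ω x * r.W ω x))
      (w * (po μ s N ε l ^ 4 + 2 * (po μ s N ε l ^ 2 * po μ s N ε ld)) + 3 * e) := by
  obtain ⟨b1, lb, hl, zfN, X1, R1, hw', g, o, od, dO, mO, dI, mI, bI, dZ, mZ, dW, mW, dT, mT, sp, sp2⟩ := hr
  obtain ⟨-, -, -, -, -, -, -, gk, -, odk, dOk, mOk, dIk, mIk, bIk, -, -, -, -, -, -, -, -⟩ := hk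
  obtain ⟨a1, a2, a3, a4, a5, a6, a7, a8, a9, a10, a11, a12⟩ := hc
  have hyN := hP.yN y hy
  have pl0 := po_nonneg (μ := μ) (s := s) (N := N) ε l
  have pd0 := po_nonneg (μ := μ) (s := s) (N := N) ε ld
  have pAB := po_anti (μ := μ) (s := s) (N := N) ε (show ld ≤ hB - hA by omega)
  have hAB : (N : ℝ) ^ θ ≤ ((hB - hA : ℕ) : ℝ) := a7.trans (by exact_mod_cast (by omega : ld ≤ hB - hA))
  have dOM : Dom μ s N y ((N : ℝ) ^ κ) M ⟨oc, k.od, oc, k.od, k.ou, k.ov, l, Ty.M, False⟩ k.O := dom_len dOk le_rfl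
  obtain ⟨W₁, W₂, ⟨d1, m1⟩, ⟨d2, m2⟩, hW⟩ := cutL (h := hB) (V' := r.j - b) (l₂ := ld) (ty₁ := Ty.L) (ty₂ := Ty.R) dW
    (show r.j - b ≤ r.g0 by omega) (by omega)
  obtain ⟨Z₁, Z₂, ⟨d3, m3⟩, ⟨d4, m4⟩, hZ⟩ := cutL (h := hA) (V' := hB) (l₂ := hB - hA) (ty₁ := Ty.R) (ty₂ := Ty.L) dZ
    (show hB ≤ r.t1 by omega) (by omega)
  have k1 : Cv μ s N y O (fun ω x => r.Z ω x * (W₂ ω x * k.I ω x)) (w * (po μ s N ε l ^ 2 * po μ s N ε ld) + e) := by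
    refine Cv.l3 hO (P₁ := pl ⟨0, r.z, 0, r.z, r.t1, r.e1, l, Ty.R, False⟩ r.Z) (P₂ := pl _ W₂) (P₃ := pl _ k.I)
      ⟨⟨?_, hl⟩, ?_, dom_len dZ le_rfl, mZ⟩ ⟨⟨?_, a7⟩, ?_, d2, m2⟩ ⟨⟨?_, hl⟩, ?_, dIk, mIk⟩
      (Or.inl ?_) (Or.inl ?_) (Or.inl ?_) (fun ω x => le_rfl) (le_of_eq ?_)
    all_goals first
      | (dsimp only; omega)
      | (simp only [prP]; ring1)
  have k2 : Cv μ s N y O (fun ω x => k.O ω x * k.I ω x * (Z₁ ω x * W₁ ω x)) (w * po μ s N ε l ^ 4 + e) := by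
    refine Cv.l4 hO (P₁ := pl _ k.O) (P₂ := pl _ Z₁) (P₃ := pl _ W₁) (P₄ := pl _ k.I)
      ⟨⟨?_, hl⟩, ?_, dOM, mOk⟩ ⟨⟨?_, hl⟩, ?_, d3, m3⟩ ⟨⟨?_, hl⟩, ?_, d1, m1⟩ ⟨⟨?_, hl⟩, ?_, dIk, mIk⟩
      (Or.inl ?_) (Or.inl ?_) (Or.inl ?_) (Or.inl ?_) (Or.inl ?_) (Or.inr (Or.inl ?_)) (fun ω x => le_of_eq ?_) (le_of_eq ?_)
    all_goals first
      | (dsimp only; omega)
      | (simp only [prP]; ring1)
      | (dsimp only; ring1)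
  have k3 : Cv μ s N y O (fun ω x => Z₂ ω x * (W₁ ω x * k.I ω x)) (w * (po μ s N ε l ^ 2 * po μ s N ε ld) + e) := by
    refine Cv.l3 hO (P₁ := pl _ Z₂) (P₂ := pl _ W₁) (P₃ := pl _ k.I)
      ⟨⟨?_, hAB⟩, ?_, d4, m4⟩ ⟨⟨?_, hl⟩, ?_, d1, m1⟩ ⟨⟨?_, hl⟩, ?_, dIk, mIk⟩
      (Or.inr (Or.inr ⟨fun h => h, Or.inr ?_, ?_⟩)) (Or.inr (Or.inr ⟨fun h => h, Or.inl ?_, ?_⟩)) (Or.inr (Or.inl ?_))
      (fun ω x => le_rfl) (num1 hO.w0 pAB pl0)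
    all_goals dsimp only
    all_goals omega
  have k4 := Cv.two hyN hO.wt k2 k3 (V := fun ω x => k.O ω x * k.I ω x * (r.Z ω x * W₁ ω x))
    (fun ω x => pr_cut (dOk.1 ω x) (dOk.2.1 ω x) (dIk.1 ω x) (d1.1 ω x) (hZ ω x) (d4.1 ω x)) le_rfl
  refine Cv.two hyN hO.wt k4 k1 (fun ω x => ?_) (le_of_eq (by ring))
  have h1 := pr_cut (a := r.W ω x) (b := r.Z ω x) (g₁ := W₁ ω x) (g₂ := W₂ ω x) (dOk.1 ω x) (dOk.2.1 ω x) (dIk.1 ω x) (dZ.1 ω x)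
    (hW ω x) (d2.1 ω x)
  show k.O ω x * k.I ω x * (r.Z ω x * r.W ω x) ≤ k.O ω x * k.I ω x * (r.Z ω x * W₁ ω x) + r.Z ω x * (W₂ ω x * k.I ω x)
  calc k.O ω x * k.I ω x * (r.Z ω x * r.W ω x) = k.O ω x * k.I ω x * (r.W ω x * r.Z ω x) := by ring
    _ ≤ k.O ω x * k.I ω x * (W₁ ω x * r.Z ω x) + W₂ ω x * (r.Z ω x * k.I ω x) := h1
    _ = _ := by ring

/-- The same, three branches of the row `j`. -/
theorem kfrontC (hP : Pk50 μ s ε θ κ N ys M e) (hy : y ∈ ys) (hr : r.Ok μ s ((N : ℝ) ^ κ) M θ R H zf oc b l)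
    (hk : k.Ok μ s ((N : ℝ) ^ κ) M θ R H zf oc b l) (hO : Out50 μ s ε θ κ N y M e zf O w) (hw : w ≤ (N : ℝ) ^ ε) {hA hB L2 : ℕ}
    (hc : Cut N θ k r hA hB b ld L2) (hf : k.j - b ≤ k.ou ∧ k.ou ≤ k.ov ∧ k.ov ≤ k.g0) :
    Cv μ s N y O (fun ω x => k.O ω x * k.I ω x * r.T ω x)
      (w * (R ^ 2 * po μ s N ε l ^ 4 + (2 + R ^ 2) * (po μ s N ε l ^ 2 * po μ s N ε ld)) + 3 * e + 3 * er N ε R e) := by
  have cN := ntdI hP hy hr hk hO hw hc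
  obtain ⟨b1, lb, hl, zfN, X1, R1, hw', g, o, od, dO, mO, dI, mI, bI, dZ, mZ, dW, mW, dT, mT, sp, sp2⟩ := hr
  obtain ⟨-, -, -, -, -, -, -, gk, -, odk, dOk, mOk, dIk, mIk, bIk, -, -, -, -, -, -, -, -⟩ := hk
  obtain ⟨a1, a2, a3, a4, a5, a6, a7, a8, a9, a10, a11, a12⟩ := hc
  have hyN := hP.yN y hy
  have pl0 := po_nonneg (μ := μ) (s := s) (N := N) ε l
  have pd0 := po_nonneg (μ := μ) (s := s) (N := N) ε ld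
  have pAB := po_anti (μ := μ) (s := s) (N := N) ε (show ld ≤ hB - hA by omega)
  have hAB : (N : ℝ) ^ θ ≤ ((hB - hA : ℕ) : ℝ) := a7.trans (by exact_mod_cast (by omega : ld ≤ hB - hA))
  have dOM : Dom μ s N y ((N : ℝ) ^ κ) M ⟨oc, k.od, oc, k.od, k.ou, k.ov, l, Ty.M, False⟩ k.O := dom_len dOk le_rfl
  obtain ⟨T₁, Lg, Lc, ⟨d1, m1⟩, ⟨d2, m2⟩, ⟨d3, m3⟩, hT⟩ := sp hA hB (by omega) (by omega)
  have k1 : Cv μ s N y O (fun ω x => k.O ω x * (T₁ ω x * k.I ω x)) (w * (R ^ 2 * po μ s N ε l ^ 4) + e) := by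
    refine Cv.l3 hO (P₁ := pl _ k.O) (P₂ := ⟨_, T₁, some R⟩) (P₃ := pl _ k.I)
      ⟨⟨?_, hl⟩, ?_, dOM, mOk⟩ ⟨⟨?_, hl⟩, ?_, d1, m1⟩ ⟨⟨?_, hl⟩, ?_, dIk, mIk⟩
      (Or.inl ?_) (Or.inl ?_) (Or.inl ?_) (fun ω x => le_rfl) (le_of_eq ?_)
    all_goals first
      | (dsimp only; omega)
      | (simp only [prP, prT]; ring1)
  have k2 : Cv μ s N y O (fun ω x => Lg ω x * (Lc ω x * k.I ω x)) (w * (po μ s N ε l ^ 2 * po μ s N ε ld) + e) := by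
    refine Cv.l3 hO (P₁ := pl _ Lg) (P₂ := pl _ Lc) (P₃ := pl _ k.I)
      ⟨⟨?_, hAB⟩, ?_, d2, m2⟩ ⟨⟨?_, hl⟩, ?_, d3, m3⟩ ⟨⟨?_, hl⟩, ?_, dIk, mIk⟩
      (Or.inr (Or.inr ⟨fun h => h, Or.inr ?_, ?_⟩)) (Or.inr (Or.inr ⟨fun h => h, Or.inl ?_, ?_⟩)) (Or.inr (Or.inl ?_))
      (fun ω x => le_rfl) (num1 hO.w0 pAB pl0)
    all_goals dsimp only
    all_goals omega
  have k3 := Cv.two hyN hO.wt k2 k2 (V := fun ω x => 2 * (Lg ω x * (Lc ω x * k.I ω x))) (fun ω x => le_of_eq (by ring)) le_rfl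
  have k4 := Cv.two hyN hO.wt k3 cN (V := fun ω x => 2 * (Lg ω x * (Lc ω x * k.I ω x)) +
    k.I ω x * T2f μ s N y ((N : ℝ) ^ κ) r.z hB r.t2 r.e2 ω x) (fun ω x => le_rfl) le_rfl
  refine Cv.two hyN hO.wt k1 k4 (fun ω x => ?_) (le_of_eq (by ring))
  show k.O ω x * k.I ω x * r.T ω x ≤ k.O ω x * (T₁ ω x * k.I ω x) + (2 * (Lg ω x * (Lc ω x * k.I ω x)) +
    k.I ω x * T2f μ s N y ((N : ℝ) ^ κ) r.z hB r.t2 r.e2 ω x)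
  obtain ⟨t0, t1⟩ := T2f01 (μ := μ) (s := s) (y := y) (X := (N : ℝ) ^ κ) (d := r.z) (τ1 := hB) (τ2 := r.t2) (V := r.e2) ω x
  have q0 := dOk.1 ω x
  have q1 := dOk.2.1 ω x
  have q2 := dIk.1 ω x
  have q3 := d2.1 ω x
  have q4 := d3.1 ω x
  have h1 := mul_le_mul_of_nonneg_left (hT ω x) (mul_nonneg q0 q2)
  have h2 : k.O ω x * (k.I ω x * (Lg ω x * Lc ω x)) ≤ 1 * (k.I ω x * (Lg ω x * Lc ω x)) :=
    mul_le_mul_of_nonneg_right q1 (mul_nonneg q2 (mul_nonneg q3 q4))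
  have h3 : k.O ω x * (k.I ω x * T2f μ s N y ((N : ℝ) ^ κ) r.z hB r.t2 r.e2 ω x) ≤
      1 * (k.I ω x * T2f μ s N y ((N : ℝ) ^ κ) r.z hB r.t2 r.e2 ω x) := mul_le_mul_of_nonneg_right q1 (mul_nonneg q2 t0)
  linarith

/-- **OWN OF THE ROW `k` IN FRONT, event `I` of the row `k`.** -/
theorem kfront (hP : Pk50 μ s ε θ κ N ys M e) (hy : y ∈ ys) (hr : r.Ok μ s ((N : ℝ) ^ κ) M θ R H zf oc b l)
    (hk : k.Ok μ s ((N : ℝ) ^ κ) M θ R H zf oc b l) (hO : Out50 μ s ε θ κ N y M e zf O w) (hw : w ≤ (N : ℝ) ^ ε) {hA hB L2 : ℕ}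
    (hc : Cut N θ k r hA hB b ld L2) (hf : k.j - b ≤ k.ou ∧ k.ou ≤ k.ov ∧ k.ov ≤ k.g0) :
    Cv μ s N y O (fun ω x => k.O ω x * k.I ω x * r.U ω x)
      (w * ((2 + R ^ 2) * po μ s N ε l ^ 4 + (5 + R ^ 2) * (po μ s N ε l ^ 2 * po μ s N ε ld)) + 8 * e + 3 * er N ε R e) := by
  have hyN := hP.yN y hy
  have h1 := kfrontA hP hy hr hk hO hc hf
  have h2 := kfrontB hP hy hr hk hO hc hf
  have h3 := kfrontC hP hy hr hk hO hw hc hf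
  have h4 := Cv.two hyN hO.wt h1 h2 (V := fun ω x => k.O ω x * k.I ω x * (r.O ω x * r.I ω x) + k.O ω x * k.I ω x * (r.Z ω x * r.W ω x))
    (fun ω x => le_rfl) le_rfl
  refine Cv.two hyN hO.wt h4 h3 (fun ω x => le_of_eq ?_) (le_of_eq (by ring))
  unfold Rd.U
  ring

end

end Pool.Agent.W_7d29a1_C0.Pt450
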