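import Pool.Agent.W_7d29a1_C0.Pt4F50

/-!
MP_7d29a1_pr, [C0], the pair price of `¬ okE` at the corner (helper50), seventh part: own of the row `k` behind.
-/

set_option autoImplicit false
set_option linter.unusedSectionVars false
set_option linter.unusedVariables false

namespace Pool.Agent.W_7d29a1_C0.Pt450

open MeasureTheory ProbabilityTheory Filter Topology Finset
open Pool.Agent.W_7d29a1_F Pool.Agent.W_7d29a1_X Pool.Agent.W_7d29a1_h4g Pool.Agent.W_7d29a1_H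
open Pool.Agent.W_7d29a1_HS (In wd md)
open Pool.Agent.W_7d29a1_HZ Pool.Agent.W_7d29a1_HZ.R72 Pool.Agent.W_7d29a1_Z.Asm72
open Pool.Agent.W_7d29a1_HZ.Z86
open Pool.Agent.W_7d29a1_C0.P86
open Pool.Agent.W_7d29a1_C0.Mod92 (Px Pn lw ps pJ ne_Pn ps_Pn pos_card ps_of_le ps_of_ge wm Pm meas_lw meas_cE meas_gz meas_gm meas_wm int_Pm
  Fam avy avy_mono avy_const)
open Pool.Agent.W_7d29a1_C0.Swap57 (NI cE2 NI_nonneg)
open Pool.Agent.W_7d29a1_C0.N51 (mc3 mc3_nonneg mc3_le_one)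
open Pool.Agent.W_7d29a1_C0.N29 (Pla)
open Pool.Agent.W_7d29a1_C0.T93 (rdist Fam2 pr2)
open Pool.Agent.W_7d29a1_C0.E2S39 (meas_mc39 gap_cutL gap_cutR out39 out39_nonneg out39_le_one pout dom_out rdist_comm39 rdist_of_le39)
open Pool.Agent.W_7d29a1_C0.P15 (iE iE_mem iE_one iE_zero EvT EvI EvII TieP FinB ig15 gm01 meas_sec)
open Pool.W7d29a1.C0 (gm gz gz_pos gm_nonneg gm_mono gm_const gm_add PP)
open Pool.W7d29a1.C0.VT31 (Mp cE gm_mul_cE fz cE_sum cE_mono cE_nonneg)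
open Pool.W7d29a1.C0.R43 (Tau Rp mI bI st swP_pJ tau_rp st_end le_st)
open Pool.W7d29a1.C0.O1 (Gz okE en)
open scoped ENNReal

noncomputable section

variable {μ : Measure ℝ} {s : ℝ} {N : ℕ} [IsProbabilityMeasure μ] {ε θ κ M e w R : ℝ} {H zf oc b l ld y : ℕ} {O : Fn N y} {r k : Rd N y}
  {ys : Finset ℕ}

theorem pr_drop {a g₁ g₂ c : ℝ} (h : a ≤ g₁ + g₂) (c0 : 0 ≤ c) : a * c ≤ g₁ * c + g₂ * c := by
  rw [← add_mul]
  exact mul_le_mul_of_nonneg_right h c0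

/-- **OWN OF THE ROW `k` BEHIND, its loop long**: open on `[k + b, hA]`. -/
theorem klong (hP : Pk50 μ s ε θ κ N ys M e) (hy : y ∈ ys) (hr : r.Ok μ s ((N : ℝ) ^ κ) M θ R H zf oc b l)
    (hk : k.Ok μ s ((N : ℝ) ^ κ) M θ R H zf oc b l) (hO : Out50 μ s ε θ κ N y M e zf O w) (hw : w ≤ (N : ℝ) ^ ε) {hA hB L2 : ℕ}
    (hc : Cut N θ k r hA hB b ld L2) (hA' : hA ≤ k.od) {G : Fn N y}
    (dG : Dom μ s N y ((N : ℝ) ^ κ) M ⟨oc, k.od, oc, k.od, k.j + b, hA, hA - (k.j + b), Ty.L, False⟩ G)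
    (mG : ∀ x, Measurable fun ω => G ω x) :
    Cv μ s N y O (fun ω x => G ω x * k.I ω x * r.U ω x)
      (w * ((5 + R ^ 2) * (po μ s N ε l ^ 2 * po μ s N ε ld)) + 5 * e + 3 * er N ε R e) := by
  have cN := ntdI hP hy hr hk hO hw hc
  obtain ⟨b1, lb, hl, zfN, X1, R1, hw', g, o, od, dO, mO, dI, mI, bI, dZ, mZ, dW, mW, dT, mT, sp, sp2⟩ := hr
  obtain ⟨-, -, -, -, -, -, -, gk, -, odk, dOk, mOk, dIk, mIk, bIk, -, -, -, -, -, -, -, -⟩ := hk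
  obtain ⟨a1, a2, a3, a4, a5, a6, a7, a8, a9, a10, a11, a12⟩ := hc
  have hyN := hP.yN y hy
  have pl0 := po_nonneg (μ := μ) (s := s) (N := N) ε l
  have pd0 := po_nonneg (μ := μ) (s := s) (N := N) ε ld
  have pAB := po_anti (μ := μ) (s := s) (N := N) ε (show ld ≤ hA - (k.j + b) by omega)
  have hAB : (N : ℝ) ^ θ ≤ ((hA - (k.j + b) : ℕ) : ℝ) := a7.trans (by exact_mod_cast (by omega : ld ≤ hA - (k.j + b)))
  have G0 := fun ω x => dG.1 ω x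
  have G1 := fun ω x => dG.2.1 ω x
  have I0 := fun ω x => dIk.1 ω x
  -- own and `I`
  have c1 : Cv μ s N y O (fun ω x => G ω x * k.I ω x * (r.O ω x * r.I ω x)) (w * (po μ s N ε l ^ 2 * po μ s N ε ld) + e) := by
    refine Cv.mono (Cv.l3 hO (V := fun ω x => G ω x * (r.I ω x * k.I ω x)) (P₁ := pl _ G) (P₂ := pl _ r.I) (P₃ := pl _ k.I)
      ⟨⟨?_, hAB⟩, ?_, dG, mG⟩ ⟨⟨?_, hl⟩, ?_, dI, mI⟩ ⟨⟨?_, hl⟩, ?_, dIk, mIk⟩
      (Or.inr (Or.inr ⟨fun h => h, Or.inr ?_, ?_⟩)) (Or.inr (Or.inr ⟨fun h => h, Or.inl ?_, ?_⟩)) (Or.inr (Or.inl ?_))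
      (fun ω x => le_rfl) (num1 hO.w0 pAB pl0)) (fun ω x => ?_) le_rfl
    rotate_right
    · show G ω x * k.I ω x * (r.O ω x * r.I ω x) ≤ G ω x * (r.I ω x * k.I ω x)
      have h1 : r.O ω x * (G ω x * (r.I ω x * k.I ω x)) ≤ 1 * (G ω x * (r.I ω x * k.I ω x)) :=
        mul_le_mul_of_nonneg_right (dO.2.1 ω x) (mul_nonneg (G0 ω x) (mul_nonneg (dI.1 ω x) (I0 ω x)))
      linarith
    all_goals dsimp only
    all_goals omega
  -- region 1 and `II`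
  obtain ⟨W₁, W₂, ⟨d1, m1⟩, ⟨d2, m2⟩, hW⟩ := cutL (h := hB) (V' := r.j - b) (l₂ := ld) (ty₁ := Ty.L) (ty₂ := Ty.R) dW
    (show r.j - b ≤ r.g0 by omega) (by omega)
  have k1 : Cv μ s N y O (fun ω x => r.Z ω x * (W₂ ω x * k.I ω x)) (w * (po μ s N ε l ^ 2 * po μ s N ε ld) + e) := by
    refine Cv.l3 hO (P₁ := pl ⟨0, r.z, 0, r.z, r.t1, r.e1, l, Ty.R, False⟩ r.Z) (P₂ := pl _ W₂) (P₃ := pl _ k.I)
      ⟨⟨?_, hl⟩, ?_, dom_len dZ le_rfl, mZ⟩ ⟨⟨?_, a7⟩, ?_, d2, m2⟩ ⟨⟨?_, hl⟩, ?_, dIk, mIk⟩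
      (Or.inl ?_) (Or.inl ?_) (Or.inl ?_) (fun ω x => le_rfl) (le_of_eq ?_)
    all_goals first
      | (dsimp only; omega)
      | (simp only [prP]; ring1)
  have k2 : Cv μ s N y O (fun ω x => G ω x * (W₁ ω x * k.I ω x)) (w * (po μ s N ε l ^ 2 * po μ s N ε ld) + e) := by
    refine Cv.l3 hO (P₁ := pl _ G) (P₂ := pl _ W₁) (P₃ := pl _ k.I)
      ⟨⟨?_, hAB⟩, ?_, dG, mG⟩ ⟨⟨?_, hl⟩, ?_, d1, m1⟩ ⟨⟨?_, hl⟩, ?_, dIk, mIk⟩
      (Or.inr (Or.inr ⟨fun h => h, Or.inr ?_, ?_⟩)) (Or.inr (Or.inr ⟨fun h => h, Or.inl ?_, ?_⟩)) (Or.inr (Or.inl ?_))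
      (fun ω x => le_rfl) (num1 hO.w0 pAB pl0)
    all_goals dsimp only
    all_goals omega
  have c2 := Cv.two hyN hO.wt k1 k2 (V := fun ω x => G ω x * k.I ω x * (r.Z ω x * r.W ω x)) (fun ω x => by
    show G ω x * k.I ω x * (r.Z ω x * r.W ω x) ≤ r.Z ω x * (W₂ ω x * k.I ω x) + G ω x * (W₁ ω x * k.I ω x)
    have q1 := mul_le_mul_of_nonneg_left (hW ω x) (mul_nonneg (mul_nonneg (G0 ω x) (I0 ω x)) (dZ.1 ω x))
    have q2 : G ω x * (r.Z ω x * (W₂ ω x * k.I ω x)) ≤ 1 * (r.Z ω x * (W₂ ω x * k.I ω x)) :=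
      mul_le_mul_of_nonneg_right (G1 ω x) (mul_nonneg (dZ.1 ω x) (mul_nonneg (d2.1 ω x) (I0 ω x)))
    have q3 : r.Z ω x * (G ω x * (W₁ ω x * k.I ω x)) ≤ 1 * (G ω x * (W₁ ω x * k.I ω x)) :=
      mul_le_mul_of_nonneg_right (dZ.2.1 ω x) (mul_nonneg (G0 ω x) (mul_nonneg (d1.1 ω x) (I0 ω x)))
    linarith) le_rfl
  -- three branches
  obtain ⟨Lc, ⟨d3, m3⟩, hT⟩ := sp2 hB (by omega)
  have k3 : Cv μ s N y O (fun ω x => G ω x * (Lc ω x * k.I ω x)) (w * (po μ s N ε l ^ 2 * po μ s N ε ld) + e) := by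
    refine Cv.l3 hO (P₁ := pl _ G) (P₂ := pl _ Lc) (P₃ := pl _ k.I)
      ⟨⟨?_, hAB⟩, ?_, dG, mG⟩ ⟨⟨?_, hl⟩, ?_, d3, m3⟩ ⟨⟨?_, hl⟩, ?_, dIk, mIk⟩
      (Or.inr (Or.inr ⟨fun h => h, Or.inr ?_, ?_⟩)) (Or.inr (Or.inr ⟨fun h => h, Or.inl ?_, ?_⟩)) (Or.inr (Or.inl ?_))
      (fun ω x => le_rfl) (num1 hO.w0 pAB pl0)
    all_goals dsimp only
    all_goals omega
  have k4 := Cv.two hyN hO.wt k3 k3 (V := fun ω x => 2 * (G ω x * (Lc ω x * k.I ω x))) (fun ω x => le_of_eq (by ring)) le_rfl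
  have c3 := Cv.two hyN hO.wt k4 cN (V := fun ω x => G ω x * k.I ω x * r.T ω x) (fun ω x => by
    show G ω x * k.I ω x * r.T ω x ≤ 2 * (G ω x * (Lc ω x * k.I ω x)) + k.I ω x * T2f μ s N y ((N : ℝ) ^ κ) r.z hB r.t2 r.e2 ω x
    obtain ⟨t0, t1⟩ := T2f01 (μ := μ) (s := s) (y := y) (X := (N : ℝ) ^ κ) (d := r.z) (τ1 := hB) (τ2 := r.t2) (V := r.e2) ω x
    have h1 := mul_le_mul_of_nonneg_left (hT ω x) (mul_nonneg (G0 ω x) (I0 ω x))
    have h3 : G ω x * (k.I ω x * T2f μ s N y ((N : ℝ) ^ κ) r.z hB r.t2 r.e2 ω x) ≤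
        1 * (k.I ω x * T2f μ s N y ((N : ℝ) ^ κ) r.z hB r.t2 r.e2 ω x) := mul_le_mul_of_nonneg_right (G1 ω x) (mul_nonneg (I0 ω x) t0)
    linarith) le_rfl
  have c12 := Cv.two hyN hO.wt c1 c2 (V := fun ω x => G ω x * k.I ω x * (r.O ω x * r.I ω x) + G ω x * k.I ω x * (r.Z ω x * r.W ω x))
    (fun ω x => le_rfl) le_rfl
  refine Cv.two hyN hO.wt c12 c3 (fun ω x => le_of_eq ?_) (le_of_eq (by ring))
  unfold Rd.U
  ring

/-- **OWN OF THE ROW `k` BEHIND, event `I` of the row `k`.** -/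
theorem kbehind (hP : Pk50 μ s ε θ κ N ys M e) (hy : y ∈ ys) (hr : r.Ok μ s ((N : ℝ) ^ κ) M θ R H zf oc b l)
    (hk : k.Ok μ s ((N : ℝ) ^ κ) M θ R H zf oc b l) (hO : Out50 μ s ε θ κ N y M e zf O w) (hw : w ≤ (N : ℝ) ^ ε) {hA hB L2 : ℕ}
    (hc : Cut N θ k r hA hB b ld L2) (hf : k.z ≤ k.ou ∧ k.ou ≤ k.ov ∧ k.ov ≤ k.j + b) :
    Cv μ s N y O (fun ω x => k.O ω x * k.I ω x * r.U ω x)
      (w * ((2 + R ^ 2) * po μ s N ε l ^ 4 + (7 + R ^ 2) * (po μ s N ε l ^ 2 * po μ s N ε ld)) + 10 * e + 3 * er N ε R e) := by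
  have hk' := hk
  have hr' := hr
  obtain ⟨-, -, -, -, -, -, -, gr, -, -, -, -, -, -, -, -, -, -, -, -, -, -, -⟩ := hr
  obtain ⟨b1, lb, hl, zfN, X1, R1, -, gk, -, odk, dOk, mOk, dIk, mIk, bIk, -, -, -, -, -, -, -, -⟩ := hk
  have hc' := hc
  obtain ⟨a1, a2, a3, a4, a5, a6, a7, a8, a9, a10, a11, a12⟩ := hc
  have hyN := hP.yN y hy
  have he := hP.e0
  have pl0 := po_nonneg (μ := μ) (s := s) (N := N) ε l
  have pd0 := po_nonneg (μ := μ) (s := s) (N := N) ε ld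
  have hN0 : (0 : ℝ) ≤ N := Nat.cast_nonneg _
  have er0 : 0 ≤ er N ε R e := by
    unfold er
    positivity
  have hw0 := hO.w0
  have kI := fun ω x => dIk.1 ω x
  have kI1 := fun ω x => dIk.2.1 ω x
  by_cases hod : k.od ≤ hA
  · -- the own block of the row `k` is in front of the cut
    have hK : Kl μ s ((N : ℝ) ^ κ) M θ zf hA ε [pl ⟨oc, k.od, oc, k.od, k.ou, k.ov, l, Ty.R, False⟩ k.O,
        pl ⟨0, k.z, k.g0, k.z, k.t2, k.e2, l, Ty.L, False⟩ k.I]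
        (fun ω x => k.O ω x * k.I ω x) (po μ s N ε l ^ 2) := by
      refine ⟨by simp, ?_, ?_, fun ω x => mul_nonneg (dOk.1 ω x) (kI ω x), fun ω x => mul_le_one₀ (dOk.2.1 ω x) (kI ω x) (kI1 ω x),
        fun ω x => ?_, ?_⟩
      · simp only [List.mem_cons, List.not_mem_nil, or_false]
        rintro P (rfl | rfl)
        · refine ⟨⟨⟨?_, hl⟩, ?_, dom_len dOk le_rfl, mOk⟩, ?_⟩ <;> dsimp only <;> omega
        · refine ⟨⟨⟨?_, hl⟩, ?_, dIk, mIk⟩, ?_⟩ <;> dsimp only <;> omega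
      · simp only [List.pairwise_cons, List.mem_cons, List.not_mem_nil, or_false, forall_eq, List.Pairwise.nil, and_true,
          IsEmpty.forall_iff, implies_true]
        exact Or.inl hf.1
      · simp
      · simp only [List.map_cons, List.map_nil, List.prod_cons, List.prod_nil, mul_one, prP]
        rw [pow_two]
    have h1 := told (ld := ld) hr' hO hyN hK (by positivity) le_rfl (by omega) (by omega) a7 a8 he
    refine Cv.mono h1 (fun ω x => le_rfl) ?_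
    have q1 : 0 ≤ w * ((5 + R ^ 2) * (po μ s N ε l ^ 2 * po μ s N ε ld)) := by positivity
    nlinarith
  · -- the cut of the own loop
    obtain ⟨G₁, G₂, ⟨d1, m1⟩, ⟨d2, m2⟩, hG⟩ := cutR (h := hA) (U' := k.j + b) (l₂ := hA - (k.j + b)) (ty₁ := Ty.R) (ty₂ := Ty.L) dOk
      hf.2.2 (by omega)
    have hK : Kl μ s ((N : ℝ) ^ κ) M θ zf hA ε [pl ⟨oc, k.od, oc, hA, k.ou, k.ov, l, Ty.R, False⟩ G₁,
        pl ⟨0, k.z, k.g0, k.z, k.t2, k.e2, l, Ty.L, False⟩ k.I]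
        (fun ω x => G₁ ω x * k.I ω x) (po μ s N ε l ^ 2) := by
      refine ⟨by simp, ?_, ?_, fun ω x => mul_nonneg (d1.1 ω x) (kI ω x), fun ω x => mul_le_one₀ (d1.2.1 ω x) (kI ω x) (kI1 ω x),
        fun ω x => ?_, ?_⟩
      · simp only [List.mem_cons, List.not_mem_nil, or_false]
        rintro P (rfl | rfl)
        · refine ⟨⟨⟨?_, hl⟩, ?_, d1, m1⟩, ?_⟩ <;> dsimp only <;> omega
        · refine ⟨⟨⟨?_, hl⟩, ?_, dIk, mIk⟩, ?_⟩ <;> dsimp only <;> omega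
      · simp only [List.pairwise_cons, List.mem_cons, List.not_mem_nil, or_false, forall_eq, List.Pairwise.nil, and_true,
          IsEmpty.forall_iff, implies_true]
        exact Or.inl hf.1
      · simp
      · simp only [List.map_cons, List.map_nil, List.prod_cons, List.prod_nil, mul_one, prP]
        rw [pow_two]
    have h1 := told (ld := ld) hr' hO hyN hK (by positivity) le_rfl (by omega) (by omega) a7 a8 he
    have h2 := klong hP hy hr' hk' hO hw hc' (by omega) d2 m2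
    refine Cv.two hyN hO.wt h1 h2 (fun ω x => ?_) (le_of_eq (by ring))
    have U0 : 0 ≤ r.U ω x := by
      unfold Rd.U
      have := hr'.dO.1 ω x
      have := hr'.dI.1 ω x
      have := hr'.dZ.1 ω x
      have := hr'.dW.1 ω x
      have := hr'.dT.1 ω x
      positivity
    have q := mul_le_mul_of_nonneg_right (hG ω x) (mul_nonneg (kI ω x) U0)
    show k.O ω x * k.I ω x * r.U ω x ≤ G₁ ω x * k.I ω x * r.U ω x + G₂ ω x * k.I ω x * r.U ω x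
    linarith

end

end Pool.Agent.W_7d29a1_C0.Pt450
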