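import Pool.Agent.W_7d29a1_C0.Pt4G50

/-!
MP_7d29a1_pr, [C0], the pair price of `¬ okE` at the corner (helper50), eighth part: two rows.
-/

set_option autoImplicit false
set_option linter.unusedSectionVars false
set_option linter.unusedVariables false

namespace Pool.Agent.W_7d29a1_C0.Pt450

open MeasureTheory ProbabilityTheory Filter Topology Finset
open Pool.Agent.W_7d29a1_F Pool.Agent.W_7d29a1_X Pool.Agent.W_7d29a1_h4g Pool.Agent.W_7d29a1_H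
open Pool.Agent.W_7d29a1_HS (In wd md)
open Pool.Agent.W_7d29a1_HZ Pool.Agent.W_7d29a1_HZ.R72 Pool.Agent.W_7d29a1_Z.Asm72
open Pool.Agent.W_7d29a1_HZ.Z86
open Pool.Agent.W_7d29a1_C0.P86
open Pool.Agent.W_7d29a1_C0.Mod92 (Px Pn lw ps pJ ne_Pn ps_Pn pos_card ps_of_le ps_of_ge wm Pm meas_lw meas_cE meas_gz meas_gm meas_wm int_Pm
  Fam avy avy_mono avy_const)
open Pool.Agent.W_7d29a1_C0.Swap57 (NI cE2 NI_nonneg)
open Pool.Agent.W_7d29a1_C0.N51 (mc3 mc3_nonneg mc3_le_one)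
open Pool.Agent.W_7d29a1_C0.N29 (Pla)
open Pool.Agent.W_7d29a1_C0.T93 (rdist Fam2 pr2)
open Pool.Agent.W_7d29a1_C0.E2S39 (meas_mc39 gap_cutL gap_cutR out39 out39_nonneg out39_le_one pout dom_out rdist_comm39 rdist_of_le39)
open Pool.Agent.W_7d29a1_C0.P15 (iE iE_mem iE_one iE_zero EvT EvI EvII TieP FinB ig15 gm01 meas_sec)
open Pool.W7d29a1.C0 (gm gz gz_pos gm_nonneg gm_mono gm_const gm_add PP)
open Pool.W7d29a1.C0.VT31 (Mp cE gm_mul_cE fz cE_sum cE_mono cE_nonneg)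
open Pool.W7d29a1.C0.R43 (Tau Rp mI bI st swP_pJ tau_rp st_end le_st)
open Pool.W7d29a1.C0.O1 (Gz okE en)
open scoped ENNReal

noncomputable section

variable {μ : Measure ℝ} {s : ℝ} {N : ℕ} [IsProbabilityMeasure μ] {ε θ κ M e w R : ℝ} {H zf oc b l ld y : ℕ} {O : Fn N y} {r k : Rd N y}
  {ys : Finset ℕ}

/-- **REGION 1 AND `II` OF THE ROW `k`.** -/
theorem ktoldW (hP : Pk50 μ s ε θ κ N ys M e) (hy : y ∈ ys) (hr : r.Ok μ s ((N : ℝ) ^ κ) M θ R H zf oc b l)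
    (hk : k.Ok μ s ((N : ℝ) ^ κ) M θ R H zf oc b l) (hO : Out50 μ s ε θ κ N y M e zf O w) {hA hB L2 : ℕ}
    (hc : Cut N θ k r hA hB b ld L2) :
    Cv μ s N y O (fun ω x => k.Z ω x * k.W ω x * r.U ω x)
      (w * ((2 * po μ s N ε l ^ 2 + 2 * po μ s N ε ld + (R * po μ s N ε l) ^ 2) * po μ s N ε l ^ 2) + 5 * e) := by
  have hr' := hr
  obtain ⟨b1, lb, hl, zfN, X1, R1, -, gk, -, odk, -, -, -, -, -, dZ, mZ, dW, mW, -, -, -, -⟩ := hk
  obtain ⟨-, -, -, -, -, -, -, gr, -, -, -, -, -, -, -, -, -, -, -, -, -, -, -⟩ := hr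
  obtain ⟨a1, a2, a3, a4, a5, a6, a7, a8, a9, a10, a11, a12⟩ := hc
  have pl0 := po_nonneg (μ := μ) (s := s) (N := N) ε l
  have hK : Kl μ s ((N : ℝ) ^ κ) M θ zf hA ε [pl ⟨0, k.z, 0, k.z, k.t1, k.e1, l, Ty.R, False⟩ k.Z,
      pl ⟨0, k.z, 0, k.e2, k.g0, k.g1, l, Ty.L, False⟩ k.W] (fun ω x => k.Z ω x * k.W ω x) (po μ s N ε l ^ 2) := by
    refine ⟨by simp, ?_, ?_, fun ω x => mul_nonneg (dZ.1 ω x) (dW.1 ω x), fun ω x => mul_le_one₀ (dZ.2.1 ω x) (dW.1 ω x) (dW.2.1 ω x),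
      fun ω x => ?_, ?_⟩
    · simp only [List.mem_cons, List.not_mem_nil, or_false]
      rintro P (rfl | rfl)
      · refine ⟨⟨⟨?_, hl⟩, ?_, dom_len dZ le_rfl, mZ⟩, ?_⟩ <;> dsimp only <;> omega
      · refine ⟨⟨⟨?_, hl⟩, ?_, dW, mW⟩, ?_⟩ <;> dsimp only <;> omega
    · simp only [List.pairwise_cons, List.mem_cons, List.not_mem_nil, or_false, forall_eq, List.Pairwise.nil, and_true,
        IsEmpty.forall_iff, implies_true]
      exact Or.inl (show k.e2 ≤ k.t1 by omega)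
    · simp
    · simp only [List.map_cons, List.map_nil, List.prod_cons, List.prod_nil, mul_one, prP]
      rw [pow_two]
  exact told (ld := ld) hr' hO (hP.yN y hy) hK (by positivity) le_rfl (by omega) (by omega) a7 a8 hP.e0

/-- **THE THREE BRANCHES OF THE ROW `k`.** -/
theorem ktoldT (hP : Pk50 μ s ε θ κ N ys M e) (hy : y ∈ ys) (hr : r.Ok μ s ((N : ℝ) ^ κ) M θ R H zf oc b l)
    (hk : k.Ok μ s ((N : ℝ) ^ κ) M θ R H zf oc b l) (hO : Out50 μ s ε θ κ N y M e zf O w) {hA hB L2 : ℕ}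
    (hc : Cut N θ k r hA hB b ld L2) :
    Cv μ s N y O (fun ω x => k.T ω x * r.U ω x)
      (w * ((2 * po μ s N ε l ^ 2 + 2 * po μ s N ε ld + (R * po μ s N ε l) ^ 2) * (R * po μ s N ε l) ^ 2) + 5 * e) := by
  have hr' := hr
  obtain ⟨b1, lb, hl, zfN, X1, R1, -, gk, -, odk, -, -, -, -, -, -, -, -, -, dT, mT, -, -⟩ := hk
  obtain ⟨-, -, -, -, -, -, -, gr, -, -, -, -, -, -, -, -, -, -, -, -, -, -, -⟩ := hr
  obtain ⟨a1, a2, a3, a4, a5, a6, a7, a8, a9, a10, a11, a12⟩ := hc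
  have hK : Kl μ s ((N : ℝ) ^ κ) M θ zf hA ε [⟨⟨0, k.z, 0, k.z, k.t2, k.e2, l, Ty.L, False⟩, k.T, some R⟩]
      k.T ((R * po μ s N ε l) ^ 2) := by
    refine ⟨by simp, ?_, by simp, fun ω x => dT.1 ω x, fun ω x => dT.2.1 ω x, fun ω x => ?_, ?_⟩
    · simp only [List.mem_cons, List.not_mem_nil, or_false]
      rintro P rfl
      refine ⟨⟨⟨?_, hl⟩, ?_, dT, mT⟩, ?_⟩ <;> dsimp only <;> omega
    · simp
    · simp only [List.map_cons, List.map_nil, List.prod_cons, List.prod_nil, mul_one, prT]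
      exact le_rfl
  exact told (ld := ld) hr' hO (hP.yN y hy) hK (sq_nonneg _) le_rfl (by omega) (by omega) a7 a8 hP.e0

/-- **TWO ROWS FAR APART.** -/
theorem far50 (hP : Pk50 μ s ε θ κ N ys M e) (hy : y ∈ ys) (hr : r.Ok μ s ((N : ℝ) ^ κ) M θ R H zf oc b l)
    (hk : k.Ok μ s ((N : ℝ) ^ κ) M θ R H zf oc b l) (hO : Out50 μ s ε θ κ N y M e zf O w) (hw : w ≤ (N : ℝ) ^ ε) {hA hB L2 : ℕ}
    (hc : Cut N θ k r hA hB b ld L2) :
    Cv μ s N y O (fun ω x => k.U ω x * r.U ω x)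
      (w * (12 * R ^ 4 * (po μ s N ε l ^ 4 + po μ s N ε l ^ 2 * po μ s N ε ld)) + 23 * er N ε R e) := by
  have hyN := hP.yN y hy
  have pl0 := po_nonneg (μ := μ) (s := s) (N := N) ε l
  have pd0 := po_nonneg (μ := μ) (s := s) (N := N) ε ld
  have he := hP.e0
  have hw0 := hO.w0
  have R1 := hk.R1
  have hA1 : 1 ≤ (N : ℝ) ^ ε := Real.one_le_rpow (by exact_mod_cast hP.N1) hP.ε0
  have q1 : e ≤ er N ε R e := by
    unfold er
    have : 1 ≤ R ^ 4 * ((N : ℝ) ^ ε) ^ 5 := one_le_mul_of_one_le_of_one_le (one_le_pow₀ R1) (one_le_pow₀ hA1)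
    nlinarith
  have h1 : Cv μ s N y O (fun ω x => k.O ω x * k.I ω x * r.U ω x)
      (w * ((2 + R ^ 2) * po μ s N ε l ^ 4 + (7 + R ^ 2) * (po μ s N ε l ^ 2 * po μ s N ε ld)) + 10 * e + 3 * er N ε R e) := by
    rcases hk.o with o | o
    · refine Cv.mono (kfront hP hy hr hk hO hw hc o) (fun ω x => le_rfl) ?_
      have : 0 ≤ w * (po μ s N ε l ^ 2 * po μ s N ε ld) := by positivity
      nlinarith
    · exact kbehind hP hy hr hk hO hw hc o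
  have h2 := ktoldW hP hy hr hk hO hc
  have h3 := ktoldT hP hy hr hk hO hc
  have h4 := Cv.two hyN hO.wt h1 h2 (V := fun ω x => k.O ω x * k.I ω x * r.U ω x + k.Z ω x * k.W ω x * r.U ω x)
    (fun ω x => le_rfl) le_rfl
  refine Cv.two hyN hO.wt h4 h3 (fun ω x => le_of_eq ?_) ?_
  · show k.U ω x * r.U ω x = k.O ω x * k.I ω x * r.U ω x + k.Z ω x * k.W ω x * r.U ω x + k.T ω x * r.U ω x
    have e1 : k.U ω x = k.O ω x * k.I ω x + k.Z ω x * k.W ω x + k.T ω x := rfl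
    rw [e1]
    ring
  · obtain ⟨A, hA'⟩ : ∃ A, A = w * po μ s N ε l ^ 4 := ⟨_, rfl⟩
    obtain ⟨B, hB'⟩ : ∃ B, B = w * (po μ s N ε l ^ 2 * po μ s N ε ld) := ⟨_, rfl⟩
    have A0 : 0 ≤ A := by
      rw [hA']
      positivity
    have B0 : 0 ≤ B := by
      rw [hB']
      positivity
    have e1 : w * ((2 + R ^ 2) * po μ s N ε l ^ 4 + (7 + R ^ 2) * (po μ s N ε l ^ 2 * po μ s N ε ld)) + 10 * e + 3 * er N ε R e +
        (w * ((2 * po μ s N ε l ^ 2 + 2 * po μ s N ε ld + (R * po μ s N ε l) ^ 2) * po μ s N ε l ^ 2) + 5 * e) +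
        (w * ((2 * po μ s N ε l ^ 2 + 2 * po μ s N ε ld + (R * po μ s N ε l) ^ 2) * (R * po μ s N ε l) ^ 2) + 5 * e) =
        (2 + R ^ 2) ^ 2 * A + (9 + 3 * R ^ 2) * B + 20 * e + 3 * er N ε R e := by
      rw [hA', hB']
      ring
    have e2 : w * (12 * R ^ 4 * (po μ s N ε l ^ 4 + po μ s N ε l ^ 2 * po μ s N ε ld)) = 12 * R ^ 4 * A + 12 * R ^ 4 * B := by
      rw [hA', hB']
      ring
    rw [e1, e2]
    have r2 : 1 ≤ R ^ 2 := one_le_pow₀ R1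
    have r4 : R ^ 2 ≤ R ^ 4 := pow_le_pow_right₀ R1 (by norm_num)
    have r5 : (2 + R ^ 2) ^ 2 ≤ 12 * R ^ 4 := by nlinarith
    have r6 : 9 + 3 * R ^ 2 ≤ 12 * R ^ 4 := by nlinarith
    have k1 := mul_le_mul_of_nonneg_right r5 A0
    have k2 := mul_le_mul_of_nonneg_right r6 B0
    linarith

/-- **ONE ROW.** -/
theorem near50 (hP : Pk50 μ s ε θ κ N ys M e) (hy : y ∈ ys) (hr : r.Ok μ s ((N : ℝ) ^ κ) M θ R H zf oc b l)
    (hO : Out50 μ s ε θ κ N y M e zf O w) :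
    Cv μ s N y O (fun ω x => r.U ω x) (w * (2 * po μ s N ε l + (R * po μ s N ε l) ^ 2) + 3 * e) := by
  obtain ⟨b1, lb, hl, zfN, X1, R1, hw', g, o, od, dO, mO, dI, mI, bI, dZ, mZ, dW, mW, dT, mT, sp, sp2⟩ := hr
  have hyN := hP.yN y hy
  have c1 : Cv μ s N y O (fun ω x => r.O ω x * r.I ω x) (w * po μ s N ε l + e) := by
    refine Cv.l1 hO (P₁ := pl _ r.I) ⟨⟨?_, hl⟩, ?_, dI, mI⟩ (fun ω x => mul_le_of_le_one_left (dI.1 ω x) (dO.2.1 ω x)) (le_of_eq ?_)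
    all_goals first
      | (dsimp only; omega)
      | (simp only [prP])
  have c2 : Cv μ s N y O (fun ω x => r.Z ω x * r.W ω x) (w * po μ s N ε l + e) := by
    refine Cv.l1 hO (P₁ := pl _ r.Z) ⟨⟨?_, hl⟩, ?_, dZ, mZ⟩ (fun ω x => mul_le_of_le_one_right (dZ.1 ω x) (dW.2.1 ω x)) (le_of_eq ?_)
    all_goals first
      | (dsimp only; omega)
      | (simp only [prP])
  have c3 : Cv μ s N y O (fun ω x => r.T ω x) (w * (R * po μ s N ε l) ^ 2 + e) := by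
    refine Cv.l1 hO (P₁ := ⟨_, r.T, some R⟩) ⟨⟨?_, hl⟩, ?_, dT, mT⟩ (fun ω x => le_rfl) (le_of_eq ?_)
    all_goals first
      | (dsimp only; omega)
      | (simp only [prT])
  have c4 := Cv.two hyN hO.wt c1 c2 (V := fun ω x => r.O ω x * r.I ω x + r.Z ω x * r.W ω x) (fun ω x => le_rfl) le_rfl
  exact Cv.two hyN hO.wt c4 c3 (fun ω x => le_rfl) (le_of_eq (by ring))

/-- The cut for rows at distance `D ≥ 64 b`. -/
theorem cut50 (hr : r.Ok μ s ((N : ℝ) ^ κ) M θ R H zf oc b l) (hD : k.j + 64 * b ≤ r.j) :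
    Cut N θ k r (r.j - (r.j - k.j) / 4) (r.j - (r.j - k.j) / 32) b ((r.j - k.j) / 64) ((r.j - k.j) / 2) := by
  obtain ⟨b1, lb, hl, zfN, X1, R1, hw', g, -, -, -, -, -, -, -, -, -, -, -, -, -, -, -⟩ := hr
  obtain ⟨D, hDe⟩ : ∃ D, D = r.j - k.j := ⟨_, rfl⟩
  rw [← hDe]
  have h64 : b ≤ D / 64 := by omega
  refine ⟨?_, ?_, ?_, ?_, ?_, ?_, ?_, ?_, ?_, ?_, ?_, ?_⟩
  rotate_left 6
  · exact hl.trans (by exact_mod_cast lb.trans h64)
  all_goals omega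

end

end Pool.Agent.W_7d29a1_C0.Pt450
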