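import Pool.Agent.W_7d29a1_C0.Pt4H50

/-!
MP_7d29a1_pr, [C0], the pair price of `¬ okE` at the corner (helper50), ninth part: the rows from their data; the pair price `pair50`.
-/

set_option autoImplicit false
set_option linter.unusedSectionVars false
set_option linter.unusedVariables false

namespace Pool.Agent.W_7d29a1_C0.Pt450

open MeasureTheory ProbabilityTheory Filter Topology Finset
open Pool.Agent.W_7d29a1_F Pool.Agent.W_7d29a1_X Pool.Agent.W_7d29a1_h4g Pool.Agent.W_7d29a1_H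
open Pool.Agent.W_7d29a1_HS (In wd md)
open Pool.Agent.W_7d29a1_HZ Pool.Agent.W_7d29a1_HZ.R72 Pool.Agent.W_7d29a1_Z.Asm72
open Pool.Agent.W_7d29a1_HZ.Z86
open Pool.Agent.W_7d29a1_C0.P86
open Pool.Agent.W_7d29a1_C0.Mod92 (Px Pn lw ps pJ ne_Pn ps_Pn pos_card ps_of_le ps_of_ge wm Pm meas_lw meas_cE meas_gz meas_gm meas_wm int_Pm
  Fam avy avy_mono avy_const)
open Pool.Agent.W_7d29a1_C0.Swap57 (NI cE2 NI_nonneg)
open Pool.Agent.W_7d29a1_C0.N51 (mc3 mc3_nonneg mc3_le_one)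
open Pool.Agent.W_7d29a1_C0.N29 (Pla)
open Pool.Agent.W_7d29a1_C0.T93 (rdist Fam2 pr2)
open Pool.Agent.W_7d29a1_C0.E2S39 (meas_mc39 gap_cutL gap_cutR out39 out39_nonneg out39_le_one pout dom_out rdist_comm39 rdist_of_le39)
open Pool.Agent.W_7d29a1_C0.P15 (iE iE_mem iE_one iE_zero EvT EvI EvII TieP FinB ig15 gm01 meas_sec)
open Pool.W7d29a1.C0 (gm gz gz_pos gm_nonneg gm_mono gm_const gm_add PP)
open Pool.W7d29a1.C0.VT31 (Mp cE gm_mul_cE fz cE_sum cE_mono cE_nonneg)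
open Pool.W7d29a1.C0.R43 (Tau Rp mI bI st swP_pJ tau_rp st_end le_st)
open Pool.W7d29a1.C0.O1 (Gz okE en)
open scoped ENNReal

noncomputable section

variable {μ : Measure ℝ} {s : ℝ} {N : ℕ} {ε θ κ M e w R : ℝ} {ys : Finset ℕ}

/-- **THE GEOMETRY OF THE ROWS.** Row `j`: own place `(oc, od j)`, window `(ou j, ov j)`, in front of `[g0 j, g1 j]` or behind `z j`;
`[g0 j, g1 j]` in front of the region 2 `[t2 j, en ..]`, in front of the region 1 `[t1 j, en ..]`, in front of `z j`. -/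
structure Geo50 (S : Finset ℕ) (N zf oc b l lo l1 l2 q H : ℕ) (od ou ov g0 g1 t1 t2 z : ℕ → ℕ) : Prop where
  b1 : 1 ≤ b
  lb : l ≤ b
  llo : l ≤ lo
  ll1 : l ≤ l1
  ll2 : l ≤ l2
  q1 : 1 ≤ q
  zfN : zf ≤ N
  jb : ∀ j ∈ S, b < j ∧ oc ≤ j - b
  g : ∀ j ∈ S, j - b ≤ g0 j ∧ g0 j + l ≤ g1 j ∧ g1 j ≤ t2 j ∧ en (t2 j) l2 q ≤ t1 j ∧ en (t1 j) l1 q ≤ z j ∧ z j ≤ j + b ∧
    z j ≤ zf ∧ z j - t2 j ≤ H
  o : ∀ j ∈ S, (j - b ≤ ou j ∧ ou j ≤ ov j ∧ ov j ≤ g0 j) ∨ (z j ≤ ou j ∧ ou j ≤ ov j ∧ ov j ≤ j + b)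
  od : ∀ j ∈ S, ov j ≤ od j ∧ od j ≤ zf

/-- The data of the row `j`. -/
def mkR (μ : Measure ℝ) (s : ℝ) (N y : ℕ) (l1 l2 q : ℕ) (od ou ov g0 g1 t1 t2 z : ℕ → ℕ) (dd e1 d3 : ℝ) (Go : Fn N y) (j : ℕ) : Rd N y where
  j := j
  z := z j
  g0 := g0 j
  g1 := g1 j
  t1 := t1 j
  e1 := en (t1 j) l1 q
  t2 := t2 j
  e2 := en (t2 j) l2 q
  ou := ou j
  ov := ov j
  od := od j
  O := Go
  I := iE fun ω x => EvI (wm μ s N (Pn N y) ω) (pJ 0 (z j)) (t2 j) l2 q (g0 j) (g1 j) e1 x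
  Z := iE fun ω x => TieP (wm μ s N (Pn N y) ω) (pJ 0 (z j)) (t1 j) l1 q dd x
  W := iE fun ω x => EvII (wm μ s N (Pn N y) ω) (pJ 0 (z j)) (t2 j) l2 q (g0 j) (g1 j) e1 x
  T := iE fun ω x => EvT (wm μ s N (Pn N y) ω) (pJ 0 (z j)) (t2 j) l2 q d3 x

theorem en_ge {τ l q : ℕ} (hq : 1 ≤ q) : τ + l ≤ en τ l q := by
  unfold en
  nlinarith

/-- **The rows are admissible.** -/
theorem mkR_ok {S : Finset ℕ} {zf oc b l lo l1 l2 q H : ℕ} {od ou ov g0 g1 t1 t2 z : ℕ → ℕ}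
    (G : Geo50 S N zf oc b l lo l1 l2 q H od ou ov g0 g1 t1 t2 z) {j y : ℕ} (hj : j ∈ S) (hy : y ≤ N) {X M : ℝ} {dd e1 d3 : ℝ} {Go : Fn N y}
    (hX : 1 ≤ X) (hq : 3 * (q : ℝ) ≤ X) (hdd : Real.exp (-X) ≤ dd) (he1 : Real.exp (-X) ≤ e1) (hd3 : Real.exp (-X) ≤ d3)
    (hl : (N : ℝ) ^ θ ≤ l) (hR : 1 ≤ R) (hw : ∀ i : ℕ, 1 ≤ i → i ≤ H → wd' μ s i ≤ R * wd' μ s l) {ty : Ty}
    (hGo : Dom μ s N y X M ⟨oc, od j, oc, od j, ou j, ov j, lo, ty, False⟩ Go) (mGo : ∀ x, Measurable fun ω => Go ω x) :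
    (mkR μ s N y l1 l2 q od ou ov g0 g1 t1 t2 z dd e1 d3 Go j).Ok μ s X M θ R H zf oc b l := by
  obtain ⟨b1, lb, llo, ll1, ll2, q1, zfN, jb, g, o, odd⟩ := G
  obtain ⟨j1, j2⟩ := jb j hj
  obtain ⟨g1', g2, g3, g4, g5, g6, g7, g8⟩ := g j hj
  have hn1 := en_ge (τ := t1 j) (l := l1) q1
  have hn2 := en_ge (τ := t2 j) (l := l2) q1
  have he1' : g0 j ≤ g1 j := by omega
  have dT0 : ∀ ω (x : Px (Pn N y)), iE (fun ω x => EvT (wm μ s N (Pn N y) ω) (pJ 0 (z j)) (t2 j) l2 q d3 x) ω x ≤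
      Real.exp X * Pool.W7d29a1.C0.O1.NT (wm μ s N (Pn N y) ω) (pJ 0 (z j)) (t2 j) (en (t2 j) l2 q) x := fun ω x => by
    have : Nonempty (Px (Pn N y)) := ⟨x⟩
    by_cases h : EvT (wm μ s N (Pn N y) ω) (pJ 0 (z j)) (t2 j) l2 q d3 x
    · rw [iE_one (E := fun ω x => EvT (wm μ s N (Pn N y) ω) (pJ 0 (z j)) (t2 j) l2 q d3 x) h]
      exact exp_mul_ge hd3 (le_of_lt h)
    · rw [iE_zero (E := fun ω x => EvT (wm μ s N (Pn N y) ω) (pJ 0 (z j)) (t2 j) l2 q d3 x) h]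
      refine mul_nonneg (Real.exp_pos _).le ?_
      exact cE_nonneg _ _ (fun u => cE_nonneg _ _ (fun v => mul_nonneg (NI_nonneg _ _ _ _) (mul_nonneg (NI_nonneg _ _ _ _)
        (NI_nonneg _ _ _ _))) _) _
  have k1 : t2 j + l ≤ en (t2 j) l2 q := by
    have := en_ge (τ := t2 j) (l := l2) q1
    omega
  have k2 : t1 j + l ≤ en (t1 j) l1 q := by omega
  have k3 : en (t2 j) l2 q ≤ z j := by omega
  have dI := dom_len (l' := l) (ty' := Ty.L) (P15.dom_I' (μ := μ) (s := s) (N := N) (y := y) (M := M) (c := 0) (d := z j) (l := l2)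
    (g0 := g0 j) (g1 := g1 j) (τ := t2 j) hq he1 g3 k3 Ty.L) ll2
  have dZ := dom_len (l' := l) (ty' := Ty.L) (P15.dom_tie (μ := μ) (s := s) (N := N) (y := y) (M := M) (c := 0) (d := z j) (l := l1)
    (τ := t1 j) hq hdd (Nat.zero_le _) g5 Ty.L) ll1
  have dW := dom_len (l' := l) (ty' := Ty.L) (P15.dom_II' (μ := μ) (s := s) (N := N) (y := y) (M := M) (c := 0) (d := z j) (l := l2) (q := q)
    (g0 := g0 j) (g1 := g1 j) (τ := t2 j) hX he1 g3 he1' (Nat.zero_le _) Ty.L) (show l ≤ g1 j - g0 j by omega)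
  have dT : N29.DomT μ s N y X R ⟨0, z j, 0, z j, t2 j, en (t2 j) l2 q, l, Ty.L, False⟩
      (iE fun ω x => EvT (wm μ s N (Pn N y) ω) (pJ 0 (z j)) (t2 j) l2 q d3 x) :=
    N29.domT_NT hy (Nat.zero_le _) k1 k3 hR hw (Or.inl g8) (fun ω x => (iE_mem _ ω x).1) (fun ω x => (iE_mem _ ω x).2) dT0
  have mI : ∀ x, Measurable fun ω => iE (fun ω (x : Px (Pn N y)) => EvI (wm μ s N (Pn N y) ω) (pJ 0 (z j)) (t2 j) l2 q (g0 j) (g1 j) e1 x) ω x :=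
    fun x => meas_sec fun A => P15.iE_meas (fun A x => P15.meas_evI _ _ _ _ _ _ _ _ A x) A x
  have mZ : ∀ x, Measurable fun ω => iE (fun ω (x : Px (Pn N y)) => TieP (wm μ s N (Pn N y) ω) (pJ 0 (z j)) (t1 j) l1 q dd x) ω x :=
    fun x => meas_sec fun A => P15.iE_meas (fun A x => P15.meas_tieP _ _ _ _ _ _ A x) A x
  have mW : ∀ x, Measurable fun ω => iE (fun ω (x : Px (Pn N y)) => EvII (wm μ s N (Pn N y) ω) (pJ 0 (z j)) (t2 j) l2 q (g0 j) (g1 j) e1 x) ω x :=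
    fun x => meas_sec fun A => P15.iE_meas (fun A x => P15.meas_evII _ _ _ _ _ _ _ _ A x) A x
  have mT : ∀ x, Measurable fun ω => iE (fun ω (x : Px (Pn N y)) => EvT (wm μ s N (Pn N y) ω) (pJ 0 (z j)) (t2 j) l2 q d3 x) ω x :=
    fun x => meas_sec fun A => P15.iE_meas (fun A x => P15.meas_evT _ _ _ _ _ _ A x) A x
  exact ⟨b1, lb, hl, zfN, hX, hR, hw, ⟨j1, j2, g1', g2, g3, k1, g4, k2, g5, g6, g7, g8⟩, o j hj, odd j hj, dom_len hGo llo, mGo,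
    dI, mI, fun J hJ => finB_evI hJ, dZ, mZ, dW, mW, dT, mT, fun hA hB h1 h2 => T_split hX hd3 h1 h2 k3 k1 hR hw g8,
    fun hB h2 => T_split2 hX hd3 h2 k3 k1⟩

/-- **The functional of the row is dominated.** -/
theorem mkR_U {y l1 l2 q : ℕ} {od ou ov g0 g1 t1 t2 z : ℕ → ℕ} {dd e1 d3 : ℝ} {Go U : Fn N y} {j : ℕ}
    {Bo : Env × Finset ℕ → Px (Pn N y) → Prop} (hGo : ∀ ω x, 0 ≤ Go ω x) (hU1 : ∀ ω x, U ω x ≤ 1)
    (hU : ∀ ω x, U ω x ≠ 0 → ¬ okE (wm μ s N (Pn N y) ω) (pJ 0 (z j)) (Bo ω) q dd e1 d3 (g0 j) (g1 j) (t1 j) l1 (t2 j) l2 x)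
    (hB : ∀ ω x, ¬ Bo ω x → U ω x ≤ Go ω x) (ω : Env × Finset ℕ) (x : Px (Pn N y)) :
    U ω x ≤ (mkR μ s N y l1 l2 q od ou ov g0 g1 t1 t2 z dd e1 d3 Go j).U ω x := by
  show U ω x ≤ Go ω x * iE (fun ω x => EvI (wm μ s N (Pn N y) ω) (pJ 0 (z j)) (t2 j) l2 q (g0 j) (g1 j) e1 x) ω x +
    iE (fun ω x => TieP (wm μ s N (Pn N y) ω) (pJ 0 (z j)) (t1 j) l1 q dd x) ω x *
      iE (fun ω x => EvII (wm μ s N (Pn N y) ω) (pJ 0 (z j)) (t2 j) l2 q (g0 j) (g1 j) e1 x) ω x +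
    iE (fun ω x => EvT (wm μ s N (Pn N y) ω) (pJ 0 (z j)) (t2 j) l2 q d3 x) ω x
  have n1 := mul_nonneg (hGo ω x) (iE_mem (fun ω x => EvI (wm μ s N (Pn N y) ω) (pJ 0 (z j)) (t2 j) l2 q (g0 j) (g1 j) e1 x) ω x).1
  have n2 := mul_nonneg (iE_mem (fun ω x => TieP (wm μ s N (Pn N y) ω) (pJ 0 (z j)) (t1 j) l1 q dd x) ω x).1
    (iE_mem (fun ω x => EvII (wm μ s N (Pn N y) ω) (pJ 0 (z j)) (t2 j) l2 q (g0 j) (g1 j) e1 x) ω x).1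
  have n3 := (iE_mem (fun ω x => EvT (wm μ s N (Pn N y) ω) (pJ 0 (z j)) (t2 j) l2 q d3 x) ω x).1
  by_cases h0 : U ω x = 0
  · rw [h0]
    linarith
  · obtain ⟨a1, a2, a3⟩ := P15.not_okE (hU ω x h0)
    rcases a3 with a3 | a3 | a3
    · have h1 := hB ω x a1
      rw [iE_one (E := fun ω x => EvI (wm μ s N (Pn N y) ω) (pJ 0 (z j)) (t2 j) l2 q (g0 j) (g1 j) e1 x) a3, mul_one]
      linarith
    · rw [iE_one (E := fun ω x => TieP (wm μ s N (Pn N y) ω) (pJ 0 (z j)) (t1 j) l1 q dd x) a2,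
        iE_one (E := fun ω x => EvII (wm μ s N (Pn N y) ω) (pJ 0 (z j)) (t2 j) l2 q (g0 j) (g1 j) e1 x) a3]
      linarith [hU1 ω x]
    · rw [iE_one (E := fun ω x => EvT (wm μ s N (Pn N y) ω) (pJ 0 (z j)) (t2 j) l2 q d3 x) a3]
      linarith [hU1 ω x]

/-- **The price of two rows**, as a function of their distance. -/
def phT (μ : Measure ℝ) (s : ℝ) (N : ℕ) (ε R e w : ℝ) (b l D : ℕ) : ℝ :=
  (if D < 64 * b then w * (2 * po μ s N ε l + (R * po μ s N ε l) ^ 2) + 3 * e else 0) +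
    (w * (12 * R ^ 4 * (po μ s N ε l ^ 4 + po μ s N ε l ^ 2 * po μ s N ε (D / 64))) + 23 * er N ε R e)

theorem phT_nonneg (hw : 0 ≤ w) (he : 0 ≤ e) (hR : 0 ≤ R) (b l D : ℕ) : 0 ≤ phT μ s N ε R e w b l D := by
  have pl0 := po_nonneg (μ := μ) (s := s) (N := N) ε l
  have pd0 := po_nonneg (μ := μ) (s := s) (N := N) ε (D / 64)
  have hN0 : (0 : ℝ) ≤ N := Nat.cast_nonneg _
  have er0 : 0 ≤ er N ε R e := by
    unfold er
    positivity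
  unfold phT
  split_ifs <;> positivity

/-- The hypotheses on the functionals of the rows, for the end `y`. -/
structure Fu50 (μ : Measure ℝ) (s : ℝ) (N y : ℕ) (X M : ℝ) (S : Finset ℕ) (oc lo l1 l2 q : ℕ) (od ou ov g0 g1 t1 t2 z : ℕ → ℕ)
    (dd e1 d3 : ℝ) (U Go : ℕ → Fn N y) (Bo : ℕ → Env × Finset ℕ → Px (Pn N y) → Prop) : Prop where
  U0 : ∀ j ∈ S, ∀ ω x, 0 ≤ U j ω x
  U1 : ∀ j ∈ S, ∀ ω x, U j ω x ≤ 1
  Um : ∀ j ∈ S, ∀ x, Measurable fun ω => U j ω x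
  ok : ∀ j ∈ S, ∀ ω x, U j ω x ≠ 0 →
    ¬ okE (wm μ s N (Pn N y) ω) (pJ 0 (z j)) (Bo j ω) q dd e1 d3 (g0 j) (g1 j) (t1 j) l1 (t2 j) l2 x
  ow : ∀ j ∈ S, ∀ ω x, ¬ Bo j ω x → U j ω x ≤ Go j ω x
  dG : ∀ j ∈ S, ∃ ty : Ty, Dom μ s N y X M ⟨oc, od j, oc, od j, ou j, ov j, lo, ty, False⟩ (Go j)
  mG : ∀ j ∈ S, ∀ x, Measurable fun ω => Go j ω x

variable [IsProbabilityMeasure μ]

/-- **THE PAIR PRICE OF `¬ okE`**, rows `k ≤ j`. -/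
theorem pair50 (hP : Pk50 μ s ε θ κ N ys M e) {y : ℕ} (hy : y ∈ ys) {S : Finset ℕ} {zf oc b l lo l1 l2 q H : ℕ}
    {od ou ov g0 g1 t1 t2 z : ℕ → ℕ} (G : Geo50 S N zf oc b l lo l1 l2 q H od ou ov g0 g1 t1 t2 z) {O : Fn N y}
    (hO : Out50 μ s ε θ κ N y M e zf O w) (hw : w ≤ (N : ℝ) ^ ε) (hl : (N : ℝ) ^ θ ≤ l) (hR : 1 ≤ R)
    (hwd : ∀ i : ℕ, 1 ≤ i → i ≤ H → wd' μ s i ≤ R * wd' μ s l) (hq : 3 * (q : ℝ) ≤ (N : ℝ) ^ κ) {dd e1 d3 : ℝ}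
    (hdd : Real.exp (-(N : ℝ) ^ κ) ≤ dd) (he1 : Real.exp (-(N : ℝ) ^ κ) ≤ e1) (hd3 : Real.exp (-(N : ℝ) ^ κ) ≤ d3)
    {U Go : ℕ → Fn N y} {Bo : ℕ → Env × Finset ℕ → Px (Pn N y) → Prop}
    (hF : Fu50 μ s N y ((N : ℝ) ^ κ) M S oc lo l1 l2 q od ou ov g0 g1 t1 t2 z dd e1 d3 U Go Bo) {k j : ℕ} (hk : k ∈ S) (hj : j ∈ S)
    (hkj : k ≤ j) : Ig μ s N y O (fun ω x => U k ω x * U j ω x) ≤ phT μ s N ε R e w b l (j - k) := by
  have hyN := hP.yN y hy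
  have he := hP.e0
  obtain ⟨tk, dk⟩ := hF.dG k hk
  obtain ⟨tj, dj⟩ := hF.dG j hj
  have rk := mkR_ok G hk hyN hP.X1 hq hdd he1 hd3 hl hR hwd dk (hF.mG k hk)
  have rj := mkR_ok G hj hyN hP.X1 hq hdd he1 hd3 hl hR hwd dj (hF.mG j hj)
  have uk := mkR_U (od := od) (ou := ou) (ov := ov) (hGo := dk.1) (hF.U1 k hk) (hF.ok k hk) (hF.ow k hk)
  have uj := mkR_U (od := od) (ou := ou) (ov := ov) (hGo := dj.1) (hF.U1 j hj) (hF.ok j hj) (hF.ow j hj)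
  have pl0 := po_nonneg (μ := μ) (s := s) (N := N) ε l
  have pd0 := po_nonneg (μ := μ) (s := s) (N := N) ε ((j - k) / 64)
  have hN0 : (0 : ℝ) ≤ N := Nat.cast_nonneg _
  have R0 : 0 ≤ R := by linarith
  have er0 : 0 ≤ er N ε R e := by
    unfold er
    positivity
  have hw0 := hO.w0
  refine Cv.ig hyN hO.wt ?_ (fun ω x => mul_nonneg (hF.U0 k hk ω x) (hF.U0 j hj ω x))
  unfold phT
  by_cases hD : j - k < 64 * b
  · rw [if_pos hD]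
    refine Cv.mono (near50 hP hy rj hO) (fun ω x => ?_) ?_
    · have h1 := hF.U1 k hk ω x
      have h2 := hF.U0 j hj ω x
      have h3 := uj ω x
      have h4 : U k ω x * U j ω x ≤ U j ω x := mul_le_of_le_one_left h2 h1
      linarith
    · have : 0 ≤ w * (12 * R ^ 4 * (po μ s N ε l ^ 4 + po μ s N ε l ^ 2 * po μ s N ε ((j - k) / 64))) + 23 * er N ε R e := by positivity
      linarith
  · rw [if_neg hD, zero_add]
    refine Cv.mono (far50 hP hy rj rk hO hw (cut50 rj (show k + 64 * b ≤ j by omega))) (fun ω x => ?_) le_rfl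
    have h1 := hF.U0 k hk ω x
    have h2 := hF.U0 j hj ω x
    exact mul_le_mul (uk ω x) (uj ω x) h2 (h1.trans (uk ω x))

end

end Pool.Agent.W_7d29a1_C0.Pt450
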