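import Pool.Agent.W_7d29a1_C0.E2N62
import Pool.Agent.W_7d29a1_C0.Pt4I50

/-!
CURV0 (MP_7d29a1_pr), leaves E2, E2a (helper82): **THE NUMBERS OF THE PRICE OF THE THIRD TERM** (`phT` of `Pt4I50`, the price of two rows
at the distance `D`). `numT82`: `al ^ 2 * ∑ (D < r), phT ≤ n ^ (Θ - 2 x)`; `trmT82`: the term of `E2T96`.
-/

set_option autoImplicit false
set_option linter.unusedSectionVars false
set_option linter.unusedVariables false

namespace Pool.Agent.W_7d29a1_C0.Pt4N82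

open Finset Filter Topology MeasureTheory
open Pool.Agent.W_7d29a1_F
open Pool.Agent.W_7d29a1_C0 Pool.Agent.W_7d29a1_H Pool.Agent.W_7d29a1_HZ
open Pool.Agent.W_7d29a1_C0.E2N39 Pool.Agent.W_7d29a1_C0.E2S39
open Pool.Agent.W_7d29a1_C0.Mod92 (Px Pn wm Pm avy avy_mono avy_const Fam)
open Pool.Agent.W_7d29a1_C0.Swap57 (NI NI_nonneg)
open Pool.Agent.W_7d29a1_C0.T93 (rdist Fam2 pr2 dist_sum_le)
open Pool.Agent.W_7d29a1_C0.E2T96 (pr96 rw96 one96 pr_one96 qb_one96 Qb96 Trm96)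
open Pool.Agent.W_7d29a1_C0.Pt450 (po phT er phT_nonneg po_nonneg po_le)

noncomputable section

/-- One price (the same as `po`). -/
def pn82 (μ : Measure ℝ) (s : ℝ) (N : ℕ) (ε : ℝ) (n : ℕ) : ℝ := (N : ℝ) ^ ε * (EE' μ s n)⁻¹

/-- The price of two rows in the form used by `Pt4K50`. -/
def phT82 (μ : Measure ℝ) (s : ℝ) (N : ℕ) (ε R e e' : ℝ) (b l : ℕ) (w : ℝ) (D : ℕ) : ℝ :=
  (if D < 64 * b then w * (2 * pn82 μ s N ε l + (R * pn82 μ s N ε l) ^ 2) + 3 * e else 0) +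
    10 * R ^ 4 * w * (pn82 μ s N ε l ^ 4 + pn82 μ s N ε l ^ 2 * pn82 μ s N ε (D / 64)) + 50 * e'

/-! ### The numbers in the form of `E2` -/

section Nm

variable {E w : ℕ → ℝ} {c₀ Θ δ a ε n c : ℝ} {b s r : ℕ} {A al e₀ x e : ℝ}

/-- **THE SUM OVER THE DISTANCES**: near rows `1 / (E_r E_b)`, a shared lane `1 / (E_r E_b ^ 2 E_D)`, four lanes `1 / (E_r E_b ^ 4)`. -/
theorem numT82 (R : Reg46 E w c₀ Θ δ a ε n) (h : Bs46 E δ c n b s r) (X : Ex39 Θ c ε e₀ x) (hA1 : 1 ≤ A) (hA : A ≤ n ^ e₀)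
    (hal : al ^ 2 ≤ n ^ e₀) (hεe : 3 * ε ≤ e₀) {φ : ℕ → ℝ} (hφ : ∀ D < r, φ D ≤ ((if D < 64 * b then A ^ 5 * (1 / (E r * E b)) else 0) +
      A ^ 5 * (1 / (E r * E b ^ 2)) / E (max D b) + A ^ 5 * (1 / (E r * E b ^ 4))) + e)
    (he : al ^ 2 * (r * e) ≤ 1) : al ^ 2 * ∑ D ∈ range r, φ D ≤ n ^ (Θ - 2 * x) := by
  have hE := R.Epos r
  have hE' := R.Epos b
  have hEb1 := R.E1 b
  have hε := R.ε0
  have X1 := X.q1
  have X2 := X.q2
  have X3 := X.e0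
  have X4 := X.x0
  have hA0 : 0 ≤ A := by linarith
  have one_e : (1 : ℝ) ≤ n ^ e₀ := Real.one_le_rpow R.N1.le X3
  have hr' := h.hr.pos R.N1
  have hb' := h.hb.pos R.N1
  have hN := R.N0
  have hpε : 0 < n ^ ε := Real.rpow_pos_of_pos hN _
  have hs : ∑ D ∈ range r, φ D ≤ ((64 * b : ℕ) : ℝ) * (A ^ 5 * (1 / (E r * E b))) +
      r * (A ^ 5 * (3 * n ^ ε * (1 / (E r ^ 2 * E b ^ 2)))) + r * (A ^ 5 * (1 / (E r * E b ^ 4))) + r * e := by
    refine (sum_le_sum fun D hD => hφ D (mem_range.1 hD)).trans ?_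
    rw [sum_add_distrib, sum_add_distrib, sum_add_distrib, sum_const, sum_const, card_range, nsmul_eq_mul, nsmul_eq_mul]
    have s1 := sum_steps (α := A ^ 5 * (1 / (E r * E b))) (β := 0) (γ := 0) (e := 0) (by positivity) le_rfl le_rfl (64 * b) 0 r
      (φ := fun D => if D < 64 * b then A ^ 5 * (1 / (E r * E b)) else 0) (fun D => by
        show (if D < 64 * b then A ^ 5 * (1 / (E r * E b)) else 0) ≤ _
        split_ifs <;> simp)
    have s2 := sumE39 R (H₀ := A ^ 5 * (1 / (E r * E b ^ 2))) (by positivity) (h.hb.npos R.N1) (h.bs.trans h.sr)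
    have e2 : 3 * n ^ ε * (A ^ 5 * (1 / (E r * E b ^ 2))) * (r / E r) =
        r * (A ^ 5 * (3 * n ^ ε * (1 / (E r ^ 2 * E b ^ 2)))) := by
      field_simp
    push_cast at s1 ⊢
    linarith
  have m1 := (near39 (hh := 64 * b) R h X hal (by
    have h1 : (64 : ℝ) ≤ n ^ e₀ := by
      have h2 : n ^ (3 * ε) ≤ n ^ e₀ := Real.rpow_le_rpow_of_exponent_le R.N1.le hεe
      have h3 : n ^ (3 * ε) = (n ^ ε) ^ 3 := by
        rw [← Real.rpow_natCast, ← Real.rpow_mul hN.le]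
        congr 1
        push_cast
        ring
      have h4 : (16 : ℝ) ^ 3 ≤ (n ^ ε) ^ 3 := pow_le_pow_left₀ (by norm_num) R.K 3
      linarith
    push_cast
    exact mul_le_mul_of_nonneg_right h1 hb'.le)).trans (Real.rpow_le_rpow_of_exponent_le R.N1.le
    (show Θ - 2 * x - 5 * e₀ - 2 * ε ≤ Θ - 2 * x - 5 * e₀ - ε by linarith))
  have m2 := far39 (k := r) (k₀ := r) (α₀ := 3 * n ^ ε * (1 / (E r ^ 2 * E b ^ 2))) R X hal (Nat.cast_nonneg r) (by positivity)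
    (show (r : ℝ) ≤ n ^ e₀ * r by nlinarith) (by
      have h1 : (r : ℝ) * (1 / (E r ^ 2 * E b ^ 2)) ≤ n ^ (Θ + ε - c) := by
        refine le_trans (le_of_eq ?_) (r3 R h)
        field_simp
      have h2 : (3 : ℝ) ≤ n ^ ε := by linarith [R.K]
      calc (r : ℝ) * (3 * n ^ ε * (1 / (E r ^ 2 * E b ^ 2))) = (3 * n ^ ε) * (r * (1 / (E r ^ 2 * E b ^ 2))) := by ring
        _ ≤ (n ^ ε * n ^ ε) * n ^ (Θ + ε - c) := by gcongr
        _ = n ^ (Θ + 3 * ε - c) := by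
            rw [← Real.rpow_add hN, ← Real.rpow_add hN]
            congr 1
            ring
        _ ≤ _ := Real.rpow_le_rpow_of_exponent_le R.N1.le (by linarith))
  have m3 := far39 R X hal (Nat.cast_nonneg r) (show 0 ≤ 1 / (E r * E b ^ 4) by positivity)
    (show (r : ℝ) ≤ n ^ e₀ * r by nlinarith) (q8 R h)
  have hfin := comb39 (al := al) (hh := 64 * b) (s' := r) (e' := e) (y := Θ - 2 * x - 5 * e₀ - ε) (α₀ := 1 / (E r * E b))
    (β₀ := 3 * n ^ ε * (1 / (E r ^ 2 * E b ^ 2))) (γ₀ := 1 / (E r * E b ^ 4)) R hs hA1 hA m1 m2 m3 he (by linarith [R.Θ0, h.c0])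
  refine hfin.trans (le_of_eq ?_)
  congr 1
  ring

end Nm

/-! ### The price at the scales `b`, `r` -/

section Ph

variable {μ : Measure ℝ} {sl : ℝ} {L : ℕ} {ε' Rr e A wo W : ℝ} {E : ℕ → ℝ} {b l r : ℕ}

/-- The scales of the price: the outer price `A / W`, the lanes of scale `b`, the shared lane of scale `D`, the loss `Rr`. -/
structure St82 (μ : Measure ℝ) (sl : ℝ) (L : ℕ) (ε' Rr : ℝ) (E : ℕ → ℝ) (A wo W : ℝ) (b l r : ℕ) : Prop where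
  A16 : 16 ≤ A
  R0 : 0 ≤ Rr
  Rle : Rr ≤ A
  w0 : 0 ≤ wo
  W0 : 0 < W
  w1 : wo ≤ A / W
  pl : po μ sl L ε' l ≤ A / E b
  p1 : (L : ℝ) ^ ε' ≤ A
  pd : ∀ D : ℕ, 64 * b ≤ D → D < r → po μ sl L ε' (D / 64) ≤ A / E D

theorem phT_le82 (H : St82 μ sl L ε' Rr E A wo W b l r) (hE : ∀ k, 1 ≤ E k) (he : 0 ≤ e) (D : ℕ) (hD : D < r) :
    phT μ sl L ε' Rr e wo b l D ≤ ((if D < 64 * b then (A ^ 2) ^ 5 * (1 / (W * E b)) else 0) +
      (A ^ 2) ^ 5 * (1 / (W * E b ^ 2)) / E (max D b) + (A ^ 2) ^ 5 * (1 / (W * E b ^ 4))) + (3 * e + 23 * er L ε' Rr e) := by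
  obtain ⟨P, hP⟩ : ∃ P, P = po μ sl L ε' l := ⟨_, rfl⟩
  obtain ⟨PD, hPD⟩ : ∃ PD, PD = po μ sl L ε' (D / 64) := ⟨_, rfl⟩
  have hP0 : 0 ≤ P := by rw [hP]; exact po_nonneg _ _
  have hPD0 : 0 ≤ PD := by rw [hPD]; exact po_nonneg _ _
  have hA := H.A16
  have hA0 : 0 < A := by linarith
  have h2 := hE b
  have h1' : 0 < W := H.W0
  have h2' : 0 < E b := by linarith
  have hm' : 0 < E (max D b) := by linarith [hE (max D b)]
  have hR4 : Rr ^ 4 ≤ A ^ 4 := pow_le_pow_left₀ H.R0 H.Rle 4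
  have hPl : P ≤ A / E b := by rw [hP]; exact H.pl
  have hPD1 : PD ≤ A := by rw [hPD]; exact (po_le _ _).trans H.p1
  have z1 : 0 ≤ (A ^ 2) ^ 5 * (1 / (W * E b ^ 2)) / E (max D b) := by positivity
  have a10 : (A ^ 2) ^ 5 = A ^ 10 := by ring
  have k0 : wo * (12 * Rr ^ 4) ≤ (A / W) * (12 * A ^ 4) :=
    mul_le_mul H.w1 (mul_le_mul_of_nonneg_left hR4 (by norm_num)) (by have := H.R0; positivity) (by positivity)
  have k00 : 0 ≤ (A / W) * (12 * A ^ 4) := by positivity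
  -- four lanes
  have k1 : wo * (12 * Rr ^ 4 * P ^ 4) ≤ (A ^ 2) ^ 5 * (1 / (W * E b ^ 4)) := by
    have b1 : P ^ 4 ≤ (A / E b) ^ 4 := pow_le_pow_left₀ hP0 hPl 4
    calc wo * (12 * Rr ^ 4 * P ^ 4) = wo * (12 * Rr ^ 4) * P ^ 4 := by ring
      _ ≤ (A / W) * (12 * A ^ 4) * (A / E b) ^ 4 := mul_le_mul k0 b1 (by positivity) k00
      _ = 12 * A ^ 9 * (1 / (W * E b ^ 4)) := by
          field_simp
      _ ≤ A * A ^ 9 * (1 / (W * E b ^ 4)) := by gcongr; linarith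
      _ = _ := by ring
  have k2 : ∀ Z : ℝ, 0 ≤ Z → PD ≤ A * Z → wo * (12 * Rr ^ 4 * (P ^ 2 * PD)) ≤ 12 * A ^ 8 * (1 / (W * E b ^ 2)) * Z := fun Z hZ hz => by
    have b1 : P ^ 2 ≤ (A / E b) ^ 2 := pow_le_pow_left₀ hP0 hPl 2
    calc wo * (12 * Rr ^ 4 * (P ^ 2 * PD)) = wo * (12 * Rr ^ 4) * (P ^ 2 * PD) := by ring
      _ ≤ (A / W) * (12 * A ^ 4) * ((A / E b) ^ 2 * (A * Z)) :=
          mul_le_mul k0 (mul_le_mul b1 hz hPD0 (by positivity)) (by positivity) k00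
      _ = 12 * A ^ 8 * (1 / (W * E b ^ 2)) * Z := by
          field_simp
  have g5 : wo * (12 * Rr ^ 4 * (P ^ 4 + P ^ 2 * PD)) = wo * (12 * Rr ^ 4 * P ^ 4) + wo * (12 * Rr ^ 4 * (P ^ 2 * PD)) := by ring
  have d12 : 12 * A ^ 8 ≤ A ^ 10 := by
    have e2 : A ^ 10 = A ^ 8 * A ^ 2 := by ring
    have e3 : (12 : ℝ) ≤ A ^ 2 := by nlinarith
    have e4 : 0 < A ^ 8 := by positivity
    nlinarith
  unfold phT
  rw [← hP, ← hPD, g5]
  by_cases hDb : D < 64 * b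
  · rw [if_pos hDb, if_pos hDb]
    have g1 : wo * (2 * P + (Rr * P) ^ 2) ≤ 3 * A ^ 5 * (1 / (W * E b)) := by
      have b1 : 2 * P + (Rr * P) ^ 2 ≤ 3 * A ^ 4 / E b := by
        have c1 : P ≤ A ^ 4 / E b := hPl.trans (by
          gcongr
          exact le_self_pow₀ (by linarith) (by norm_num))
        have c2 : (Rr * P) ^ 2 ≤ (A * (A / E b)) ^ 2 :=
          pow_le_pow_left₀ (mul_nonneg H.R0 hP0) (mul_le_mul H.Rle hPl hP0 hA0.le) 2
        have c3 : (A * (A / E b)) ^ 2 ≤ A ^ 4 / E b := by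
          have d1 : (A * (A / E b)) ^ 2 = A ^ 4 / E b * (1 / E b) := by
            field_simp
          rw [d1]
          have d2 : 1 / E b ≤ 1 := by
            rw [div_le_one h2']
            exact h2
          exact mul_le_of_le_one_right (by positivity) d2
        calc 2 * P + (Rr * P) ^ 2 ≤ 2 * (A ^ 4 / E b) + A ^ 4 / E b := by linarith
          _ = _ := by ring
      calc wo * (2 * P + (Rr * P) ^ 2) ≤ (A / W) * (3 * A ^ 4 / E b) := mul_le_mul H.w1 b1 (by positivity) (by positivity)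
        _ = _ := by
            field_simp
    have g2 := k2 1 zero_le_one (by linarith)
    have g3 : 1 / (W * E b ^ 2) ≤ 1 / (W * E b) :=
      one_div_le_one_div_of_le (by positivity) (mul_le_mul_of_nonneg_left (le_self_pow₀ h2 (by norm_num)) h1'.le)
    have g4 : 3 * A ^ 5 * (1 / (W * E b)) + 12 * A ^ 8 * (1 / (W * E b ^ 2)) * 1 ≤ (A ^ 2) ^ 5 * (1 / (W * E b)) := by
      have d0 : 0 ≤ 1 / (W * E b) := by positivity
      have d1 : 12 * A ^ 8 * (1 / (W * E b ^ 2)) ≤ 12 * A ^ 8 * (1 / (W * E b)) := mul_le_mul_of_nonneg_left g3 (by positivity)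
      have d2 : 3 * A ^ 5 + 12 * A ^ 8 ≤ A ^ 10 := by
        have e1 : A ^ 5 ≤ A ^ 8 := pow_le_pow_right₀ (by linarith) (by norm_num)
        have e2 : A ^ 10 = A ^ 8 * A ^ 2 := by ring
        have e3 : (15 : ℝ) ≤ A ^ 2 := by nlinarith
        have e4 : 0 < A ^ 8 := by positivity
        nlinarith
      rw [a10]
      calc _ ≤ (3 * A ^ 5 + 12 * A ^ 8) * (1 / (W * E b)) := by linarith
        _ ≤ _ := mul_le_mul_of_nonneg_right d2 d0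
    linarith
  · rw [if_neg hDb, if_neg hDb]
    have hmx : max D b = D := max_eq_left (by omega)
    have g2 := k2 (1 / E D) (by have := hE D; positivity) ((by rw [hPD]; exact H.pd D (by omega) hD : PD ≤ A / E D).trans
      (le_of_eq (by ring)))
    have hED : 0 < E D := by linarith [hE D]
    have g4 : 12 * A ^ 8 * (1 / (W * E b ^ 2)) * (1 / E D) ≤ (A ^ 2) ^ 5 * (1 / (W * E b ^ 2)) / E (max D b) := by
      rw [hmx, a10, mul_one_div]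
      gcongr
    linarith

end Ph

/-! ### The term -/

section Trm

variable {μ : Measure ℝ} [IsProbabilityMeasure μ] {sl : ℝ} {N : ℕ} {ε' Rr e A wo al e₀ x : ℝ} {ys S : Finset ℕ} {c0 zf cc l : ℕ}
variable {E w : ℕ → ℝ} {c₀ Θ δ a ε n c : ℝ} {b s r : ℕ}

/-- **THE THIRD TERM OF A ROW** as a term of `E2T96`: from the price of the pairs of rows. -/
def trmT82 (R : Reg46 E w c₀ Θ δ a ε n) (h : Bs46 E δ c n b s r) (H : St82 μ sl N ε' Rr E A wo (E r) b l r) (X : Ex39 Θ c ε e₀ x)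
    (hA : A ^ 2 ≤ n ^ e₀) (hεe : 3 * ε ≤ e₀) (hS : ∀ j ∈ S, c0 ≤ j ∧ j < c0 + r) (al0 : 0 ≤ al) (hal : al ^ 2 ≤ n ^ e₀)
    (he0 : 0 ≤ e) (he : al ^ 2 * (r * (3 * e + 23 * er N ε' Rr e)) ≤ 1) (nn : ℕ) (Fm : ℕ → ℕ → Fam N)
    (f0 : ∀ u < nn, ∀ j ∈ S, ∀ y ω S, 0 ≤ Fm u j y ω S) (f1 : ∀ u < nn, ∀ j ∈ S, ∀ y ω S, Fm u j y ω S ≤ 1)
    (fm : ∀ u < nn, ∀ j ∈ S, ∀ y S, Measurable fun ω => Fm u j y ω S)
    (hp : ∀ u < nn, ∀ j ∈ S, ∀ k ∈ S, avy ys (pr2 μ sl N (fun y ω x z => NI zf cc x z) (Fm u j) (Fm u k)) ≤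
      phT μ sl N ε' Rr e wo b l (rdist j k)) : Trm96 μ sl N ys S r (n ^ (Θ - 2 * x)) :=
  Trm96.ofDist hS al nn (fun u j => one96 N (Fm u j) zf cc) (phT μ sl N ε' Rr e wo b l) al0
    (fun u hu j hj => qb_one96 (f0 u hu j hj) (f1 u hu j hj) (fm u hu j hj) _ _)
    (fun D => phT_nonneg H.w0 he0 H.R0 b l D)
    (fun u hu j hj k hk => by
      have e1 : pr96 μ sl N (one96 N (Fm u j) zf cc) (one96 N (Fm u k) zf cc) =
          pr2 μ sl N (fun y ω x z => NI zf cc x z) (Fm u j) (Fm u k) := funext fun y => pr_one96 _ _ _ _ _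
      rw [e1]
      exact hp u hu j hj k hk)
    (numT82 R h X (one_le_pow₀ (by linarith [H.A16])) hA hal hεe (phT_le82 H R.E1 he0) he)

theorem val_trmT82 (R : Reg46 E w c₀ Θ δ a ε n) (h : Bs46 E δ c n b s r) (H : St82 μ sl N ε' Rr E A wo (E r) b l r) (X : Ex39 Θ c ε e₀ x)
    (hA : A ^ 2 ≤ n ^ e₀) (hεe : 3 * ε ≤ e₀) (hS : ∀ j ∈ S, c0 ≤ j ∧ j < c0 + r) (al0 : 0 ≤ al) (hal : al ^ 2 ≤ n ^ e₀)
    (he0 : 0 ≤ e) (he : al ^ 2 * (r * (3 * e + 23 * er N ε' Rr e)) ≤ 1) (nn : ℕ) (Fm : ℕ → ℕ → Fam N)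
    (f0 : ∀ u < nn, ∀ j ∈ S, ∀ y ω S, 0 ≤ Fm u j y ω S) (f1 : ∀ u < nn, ∀ j ∈ S, ∀ y ω S, Fm u j y ω S ≤ 1)
    (fm : ∀ u < nn, ∀ j ∈ S, ∀ y S, Measurable fun ω => Fm u j y ω S)
    (hp : ∀ u < nn, ∀ j ∈ S, ∀ k ∈ S, avy ys (pr2 μ sl N (fun y ω x z => NI zf cc x z) (Fm u j) (Fm u k)) ≤
      phT μ sl N ε' Rr e wo b l (rdist j k)) (f : Fam N) (j y : ℕ) :
    (trmT82 R h H X hA hεe hS al0 hal he0 he nn Fm f0 f1 fm hp).val f j y =
      al * ((nn : ℝ)⁻¹ * ∑ u ∈ range nn, rw96 μ sl N (one96 N (Fm u j) zf cc) f y) := rfl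

end Trm

end

end Pool.Agent.W_7d29a1_C0.Pt4N82
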