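import Pool.Agent.W_7d29a1_C0.Pt4J50
import Pool.Agent.W_7d29a1_C0.Pt4N82

/-!
CURV0 (MP_7d29a1_pr), leaves E2, E2a, RQ (helper50): the pair price in the form `phT82` of `Pt4N82`.
-/

set_option autoImplicit false
set_option linter.unusedSectionVars false
set_option linter.unusedVariables false

namespace Pool.Agent.W_7d29a1_C0.Pt450

open MeasureTheory ProbabilityTheory Filter Topology Finset
open Pool.Agent.W_7d29a1_F Pool.Agent.W_7d29a1_X Pool.Agent.W_7d29a1_h4g Pool.Agent.W_7d29a1_H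
open Pool.Agent.W_7d29a1_HS (In wd md)
open Pool.Agent.W_7d29a1_HZ Pool.Agent.W_7d29a1_HZ.R72 Pool.Agent.W_7d29a1_Z.Asm72
open Pool.Agent.W_7d29a1_HZ.Z86
open Pool.Agent.W_7d29a1_C0.P86
open Pool.Agent.W_7d29a1_C0.Mod92 (Px Pn lw ps pJ ne_Pn ps_Pn pos_card ps_of_le ps_of_ge wm Pm meas_lw meas_cE meas_gz meas_gm meas_wm int_Pm
  Fam avy avy_mono avy_const)
open Pool.Agent.W_7d29a1_C0.Swap57 (NI cE2 NI_nonneg)
open Pool.Agent.W_7d29a1_C0.N51 (mc3 mc3_nonneg mc3_le_one)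
open Pool.Agent.W_7d29a1_C0.N29 (Pla)
open Pool.Agent.W_7d29a1_C0.T93 (rdist Fam2 pr2)
open Pool.Agent.W_7d29a1_C0.E2S39 (meas_mc39 gap_cutL gap_cutR out39 out39_nonneg out39_le_one pout dom_out rdist_comm39 rdist_of_le39)
open Pool.Agent.W_7d29a1_C0.P15 (iE iE_mem iE_one iE_zero EvT EvI EvII TieP FinB ig15 gm01 meas_sec)
open Pool.W7d29a1.C0 (gm gz gz_pos gm_nonneg gm_mono gm_const gm_add PP)
open Pool.W7d29a1.C0.VT31 (Mp cE gm_mul_cE fz cE_sum cE_mono cE_nonneg)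
open Pool.W7d29a1.C0.R43 (Tau Rp mI bI st swP_pJ tau_rp st_end le_st)
open Pool.W7d29a1.C0.O1 (Gz okE en)
open scoped ENNReal


noncomputable section

variable {μ : Measure ℝ} {s : ℝ} {N : ℕ}

/-! ### The bridge to `Pt4N82.phT82` -/

open Pool.Agent.W_7d29a1_C0.Pt4N82 (pn82 phT82)

theorem po_pn (ε : ℝ) (l : ℕ) : po μ s N ε l = pn82 μ s N ε l := rfl

/-- `phT` in the form of `Pt4N82`: the constant `12` against `10` costs the factor `11 / 10` on `R`. -/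
theorem phT_le82 {ε R e w : ℝ} {b l D : ℕ} (hw : 0 ≤ w) (he : 0 ≤ e) (hR : 0 ≤ R) :
    phT μ s N ε R e w b l D ≤ phT82 μ s N ε (11 / 10 * R) e (er N ε R e) b l w D := by
  have pl0 := po_nonneg (μ := μ) (s := s) (N := N) ε l
  have pd0 := po_nonneg (μ := μ) (s := s) (N := N) ε (D / 64)
  have hN0 : (0 : ℝ) ≤ N := Nat.cast_nonneg _
  have er0 : 0 ≤ er N ε R e := by
    unfold er
    positivity
  unfold phT phT82
  rw [← po_pn, ← po_pn]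
  obtain ⟨P, hP⟩ : ∃ P, P = po μ s N ε l := ⟨_, rfl⟩
  obtain ⟨Q, hQ⟩ : ∃ Q, Q = po μ s N ε (D / 64) := ⟨_, rfl⟩
  rw [← hP, ← hQ]
  rw [← hP] at pl0
  rw [← hQ] at pd0
  have h1 : w * (12 * R ^ 4 * (P ^ 4 + P ^ 2 * Q)) ≤ 10 * (11 / 10 * R) ^ 4 * w * (P ^ 4 + P ^ 2 * Q) := by
    have h2 : 0 ≤ w * R ^ 4 * (P ^ 4 + P ^ 2 * Q) := by positivity
    nlinarith
  have h3 : w * (2 * P + (R * P) ^ 2) + 3 * e ≤ w * (2 * P + (11 / 10 * R * P) ^ 2) + 3 * e := by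
    have h4 : (R * P) ^ 2 ≤ (11 / 10 * R * P) ^ 2 := pow_le_pow_left₀ (by positivity) (by nlinarith [mul_nonneg hR pl0]) 2
    have h5 := mul_le_mul_of_nonneg_left h4 hw
    linarith
  split_ifs <;> linarith

variable [IsProbabilityMeasure μ]

variable {ε θ κ M e R dd e1 d3 : ℝ} {ys S : Finset ℕ} {zf oc b l lo l1 l2 q H c : ℕ} {od ou ov g0 g1 t1 t2 z : ℕ → ℕ}

/-- The tied form, with `phT82`. -/
theorem pair82_tie (hP : Pk50 μ s ε θ κ N ys M e) (G : Geo50 S N zf oc b l lo l1 l2 q H od ou ov g0 g1 t1 t2 z)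
    (hl : (N : ℝ) ^ θ ≤ l) (hR : 1 ≤ R) (hwd : ∀ i : ℕ, 1 ≤ i → i ≤ H → wd' μ s i ≤ R * wd' μ s l) (hq : 3 * (q : ℝ) ≤ (N : ℝ) ^ κ)
    (hdd : Real.exp (-(N : ℝ) ^ κ) ≤ dd) (he1 : Real.exp (-(N : ℝ) ^ κ) ≤ e1) (hd3 : Real.exp (-(N : ℝ) ^ κ) ≤ d3)
    (hzc : zf ≤ c) (hcN : c ≤ N) (hlo : (N : ℝ) ^ θ ≤ ((c - zf : ℕ) : ℝ)) (hys : ys.Nonempty) {U Go : ℕ → Fam N}
    {Bo : ℕ → ∀ y : ℕ, Env × Finset ℕ → Px (Pn N y) → Prop}
    (hF : ∀ y ∈ ys, Fu50 μ s N y ((N : ℝ) ^ κ) M S oc lo l1 l2 q od ou ov g0 g1 t1 t2 z dd e1 d3 (fun j => U j y) (fun j => Go j y)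
      (fun j => Bo j y)) :
    ∀ j ∈ S, ∀ k ∈ S, avy ys (pr2 μ s N (fun y ω x z => NI zf c x z) (U j) (U k)) ≤
      phT82 μ s N ε (11 / 10 * R) e (er N ε R e) b l (pn82 μ s N ε (c - zf)) (rdist j k) := fun j hj k hk =>
  (pair50_tie hP G hl hR hwd hq hdd he1 hd3 hzc hcN hlo hys hF j hj k hk).trans
    (phT_le82 (po_nonneg ε (c - zf)) hP.e0 (zero_le_one.trans hR))

/-- The form for one end point, with `phT82`. -/
theorem pair82_one (hP : Pk50 μ s ε θ κ N ys M e) (G : Geo50 S N zf oc b l lo l1 l2 q H od ou ov g0 g1 t1 t2 z)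
    (hl : (N : ℝ) ^ θ ≤ l) (hR : 1 ≤ R) (hwd : ∀ i : ℕ, 1 ≤ i → i ≤ H → wd' μ s i ≤ R * wd' μ s l) (hq : 3 * (q : ℝ) ≤ (N : ℝ) ^ κ)
    (hdd : Real.exp (-(N : ℝ) ^ κ) ≤ dd) (he1 : Real.exp (-(N : ℝ) ^ κ) ≤ e1) (hd3 : Real.exp (-(N : ℝ) ^ κ) ≤ d3)
    {y : ℕ} (hy : y ∈ ys) {U Go : ℕ → Fn N y} {Bo : ℕ → Env × Finset ℕ → Px (Pn N y) → Prop}
    (hF : Fu50 μ s N y ((N : ℝ) ^ κ) M S oc lo l1 l2 q od ou ov g0 g1 t1 t2 z dd e1 d3 U Go Bo) :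
    ∀ j ∈ S, ∀ k ∈ S, ∫ ω, gm (wm μ s N (Pn N y) ω) (fun x => U j ω x * U k ω x) ∂(Pm μ N) ≤
      phT82 μ s N ε (11 / 10 * R) e (er N ε R e) b l 1 (rdist j k) := fun j hj k hk =>
  (pair50_one hP G hl hR hwd hq hdd he1 hd3 hy hF j hj k hk).trans (phT_le82 zero_le_one hP.e0 (zero_le_one.trans hR))

end

end Pool.Agent.W_7d29a1_C0.Pt450
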