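import Pool.Agent.W_7d29a1_C0.Prc72
import Pool.Agent.W_7d29a1_C0.Pt4B50

/-!
MP_7d29a1_pr, [CURV0] / [C0] (helper72), PT4, part (P): THE DATA OF THE PRICES `Pk50` FROM `In`. `ntd72`: the mass of pairs `T2f` from the
price of two windows; `pk50_of`.
-/

set_option autoImplicit false
set_option linter.unusedSectionVars false
set_option linter.unusedVariables false

namespace Pool.Agent.W_7d29a1_C0.Pt450

open MeasureTheory ProbabilityTheory Filter Topology Finset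
open Pool.Agent.W_7d29a1_F Pool.Agent.W_7d29a1_X Pool.Agent.W_7d29a1_h4g Pool.Agent.W_7d29a1_H
open Pool.Agent.W_7d29a1_HS (In wd md)
open Pool.Agent.W_7d29a1_HZ Pool.Agent.W_7d29a1_HZ.R72
open Pool.Agent.W_7d29a1_HZ.Z86
open Pool.Agent.W_7d29a1_C0.Mod92 (Px Pn lw ps pJ ne_Pn wm Pm)
open Pool.Agent.W_7d29a1_C0.P86
open Pool.Agent.W_7d29a1_C0.P15 (FinB gm01)
open Pool.Agent.W_7d29a1_C0.N51 (On3 mc3 mc3_nonneg ADD)
open Pool.Agent.W_7d29a1_C0.N29 (Pla DomT dom_mono domT_mono)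
open Pool.W7d29a1.C0 (gm)

noncomputable section

variable {μ : Measure ℝ} {s : ℝ} {N y : ℕ} {ε θ X e M κ : ℝ}

theorem FinB.union {J J' : Finset ℕ} {f : Fn N y} (h : FinB J f) (h' : FinB J' f) : FinB (J ∪ J') f := by
  classical
  rintro η η' A x ⟨E, hE1, hE2⟩
  obtain ⟨η₁, hη₁⟩ : ∃ η₁ : Env, η₁ = fun q => if q ∈ E ∧ q.1.toNat ∈ J then η' q else η q := ⟨_, rfl⟩
  have k1 := h η η₁ A x ⟨E.filter fun q => q.1.toNat ∈ J, fun q hq => by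
    obtain ⟨q1, q2⟩ := Finset.mem_filter.1 hq
    exact ⟨(hE1 q q1).1, q2⟩, fun q hq => by
      rw [hη₁]
      show η q = if q ∈ E ∧ q.1.toNat ∈ J then η' q else η q
      rw [if_neg fun hc => hq (Finset.mem_filter.2 hc)]⟩
  have k2 := h' η₁ η' A x ⟨E.filter fun q => q.1.toNat ∈ J', fun q hq => by
    obtain ⟨q1, q2⟩ := Finset.mem_filter.1 hq
    exact ⟨(hE1 q q1).1, q2⟩, fun q hq => by
      rw [hη₁]
      show (if q ∈ E ∧ q.1.toNat ∈ J then η' q else η q) = η' q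
      by_cases hc : q ∈ E ∧ q.1.toNat ∈ J
      · rw [if_pos hc]
      · rw [if_neg hc]
        by_cases hqE : q ∈ E
        · have h1 := (hE1 q hqE).2
          rcases Finset.mem_union.1 h1 with h2 | h2
          · exact absurd ⟨hqE, h2⟩ hc
          · exact absurd (Finset.mem_filter.2 ⟨hqE, h2⟩) hq
        · exact hE2 q hqE⟩
  exact k1.trans k2

/-- The mass of pairs `T2f` from the price of two windows. -/
theorem ntd72 [IsProbabilityMeasure μ] (hy : y ≤ N) (hε : 0 ≤ ε) (h : CDF μ s N y ε θ X e) (R : ℝ) (H t1 t2 τ1 τ2 V d : ℕ) (hR : 1 ≤ R)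
    (hw : ∀ i : ℕ, 1 ≤ i → i ≤ H → wd' μ s i ≤ R * wd' μ s t2) (h1 : (N : ℝ) ^ θ ≤ t1) (h2 : (N : ℝ) ^ θ ≤ t2) (h3 : 1 ≤ τ1)
    (h4 : τ1 + t1 ≤ τ2) (h5 : τ2 + t2 ≤ V) (h6 : V ≤ d) (h7 : d ≤ N)
    (hw1 : ∀ i : ℕ, 1 ≤ i → i ≤ d - τ1 → wd' μ s i ≤ R * wd' μ s t1) (hH : d - τ2 ≤ H) (f : Fn N y) (hf : Wt50 f)
    (f1 : FinB (Ico τ1 (τ1 + t1)) f) (f2 : FinB (Ico τ2 (τ2 + t2)) f) :
    ∫ ω, gm (wm μ s N (Pn N y) ω) (fun x => f ω x * T2f μ s N y X d τ1 τ2 V ω x) ∂(Pm μ N) ≤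
      (R * po μ s N ε t1) * (R * po μ s N ε t2) * ∫ ω, gm (wm μ s N (Pn N y) ω) (f ω) ∂(Pm μ N) + e := by
  refine h t1 t2 τ1 τ2 0 d 0 d h1 h2 le_rfl (Nat.zero_le _) h3 h4 (h5.trans h6) le_rfl h7 R R hR hR hw1
    (fun j j1 j2 => hw j j1 (j2.trans hH)) (A2 d τ1 τ2 V) (fun S a b _ _ _ _ _ hA => ?_) _ (fun ω x => (T2f01 ω x).1)
    (fun ω x => (T2f01 ω x).2) (fun ω x => min_le_right _ _) f (fun A x => hf.sec A x) hf.2.1 hf.2.2 (FinB.union f1 f2)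
  obtain ⟨a1, a2, a3⟩ := hA
  exact ⟨a1.mono le_rfl le_rfl le_rfl h5, a2.mono le_rfl le_rfl le_rfl h5, fun k k1 k2 => a3 k k1 (k2.trans h5)⟩

theorem po_mono {ε' : ℝ} (hN : 1 ≤ N) (h : ε ≤ ε') (l : ℕ) : po μ s N ε l ≤ po μ s N ε' l :=
  mul_le_mul_of_nonneg_right (Real.rpow_le_rpow_of_exponent_le (by exact_mod_cast hN) h) (inv_nonneg.2 (zero_le_one.trans (le_max_left _ _)))

theorem pr_mono {ε' : ℝ} (hN : 1 ≤ N) (h : ε ≤ ε') (P : Pla N y) : 0 ≤ P.pr μ s N ε ∧ P.pr μ s N ε ≤ P.pr μ s N ε' := by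
  obtain ⟨p, G, tr⟩ := P
  cases tr with
  | none => exact ⟨po_nonneg (μ := μ) (s := s) ε p.l, po_mono hN h p.l⟩
  | some R =>
    refine ⟨sq_nonneg _, ?_⟩
    show (R * po μ s N ε p.l) ^ 2 ≤ (R * po μ s N ε' p.l) ^ 2
    rw [mul_pow, mul_pow]
    exact mul_le_mul_of_nonneg_left (pow_le_pow_left₀ (po_nonneg _ _) (po_mono hN h p.l) 2) (sq_nonneg _)

theorem prod_mono {ε' : ℝ} (hN : 1 ≤ N) (h : ε ≤ ε') (Ps : List (Pla N y)) :
    0 ≤ (Ps.map fun P => P.pr μ s N ε).prod ∧ (Ps.map fun P => P.pr μ s N ε).prod ≤ (Ps.map fun P => P.pr μ s N ε').prod := by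
  induction Ps with
  | nil => simp
  | cons P Ps ih =>
    simp only [List.map_cons, List.prod_cons]
    obtain ⟨p1, p2⟩ := pr_mono (μ := μ) (s := s) hN h P
    exact ⟨mul_nonneg p1 ih.1, mul_le_mul p2 ih.2 ih.1 (p1.trans p2)⟩

/-- **THE DATA OF THE PRICES FROM `In`.** -/
theorem pk50_of [IsProbabilityMeasure μ] {c₀ C₀ : ℝ} {n₀ : ℕ} (h : In μ s c₀ C₀ n₀) : ∀ ε θ : ℝ, 0 < ε → 0 < θ →
    ∃ δ κ c₂ : ℝ, 0 < δ ∧ 0 < κ ∧ 0 < c₂ ∧ ∃ N₀ : ℕ, ∀ N : ℕ, N₀ ≤ N → ∀ ys : Finset ℕ,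
    (∀ y ∈ ys, y ≤ N ∧ |(y : ℝ) - sl μ s * N| ≤ (N : ℝ) ^ δ * wd' μ s N) → ∀ M : ℝ, 8 ≤ M → M ≤ (N : ℝ) ^ κ →
    Pk50 μ s ε θ κ N ys M (Real.exp (-(N : ℝ) ^ c₂) + 16 * Real.exp (-M)) := by
  intro ε θ hε hθ
  obtain ⟨δ, κ, c₂, hδ, hκ, hc, N₁, hP⟩ := prc72 h (ε / 2) θ (by positivity) hθ
  obtain ⟨a, K, ha, ha1, hK, hw⟩ := wd'_pow h
  obtain ⟨N₂, hN₂⟩ := eventually_atTop.1
    (((tendsto_rpow_atTop (show 0 < ε / 2 by positivity)).comp tendsto_natCast_atTop_atTop).eventually_ge_atTop (4 * K))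
  refine ⟨δ, κ, c₂, hδ, hκ, hc, max N₁ (max N₂ 1), fun N hN ys hys M hM hMN => ?_⟩
  have n1 : N₁ ≤ N := (le_max_left _ _).trans hN
  have n2 : N₂ ≤ N := (le_max_left _ _).trans ((le_max_right _ _).trans hN)
  have n3 : 1 ≤ N := (le_max_right _ _).trans ((le_max_right _ _).trans hN)
  have hN1 : (1 : ℝ) ≤ N := by exact_mod_cast n3
  have hN0 : (0 : ℝ) < N := by linarith
  have h4K : 4 * K ≤ (N : ℝ) ^ (ε / 2) := hN₂ N n2
  have hwd : ∀ n, 0 ≤ wd' μ s n := fun n => zero_le_one.trans (le_max_left _ _)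
  have eM := (Real.exp_pos (-M)).le
  have eN := (Real.exp_pos (-(N : ℝ) ^ c₂)).le
  have hR := fun y hy => hP N n1 y (hys y hy).1 (hys y hy).2 M hM hMN
  refine ⟨n3, fun y hy => (hys y hy).1, Real.one_le_rpow hN1 hκ.le, hε.le, by positivity, fun y hy Ps hlen hok hpw hdm f hf hfb => ?_,
    fun y hy R H t1 t2 τ1 τ2 V d r1 hwR h1 h2 h3 h4 h5 h6 h7 h8 h9 f hf f1 f2 => ?_⟩
  · have g0 : 0 ≤ ∫ ω, gm (wm μ s N (Pn N y) ω) (f ω) ∂(Pm μ N) :=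
      integral_nonneg fun ω => (gm01 (μ := μ) (s := s) (hys y hy).1 hf.2.1 hf.2.2 ω).1
    have k1 := (hR y hy).mix Ps.length hlen Ps rfl hok hpw hdm f (fun A x => hf.sec A x) hf.2.1 hf.2.2 hfb
    have k2 := mul_le_mul_of_nonneg_right (prod_mono (μ := μ) (s := s) n3 (show ε / 2 ≤ ε by linarith) Ps).2 g0
    have k3 : 2 * (Ps.length : ℝ) * Real.exp (-M) ≤ 16 * Real.exp (-M) := by
      have : (Ps.length : ℝ) ≤ 8 := by exact_mod_cast hlen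
      exact mul_le_mul_of_nonneg_right (by linarith) eM
    linarith
  · have g0 : 0 ≤ ∫ ω, gm (wm μ s N (Pn N y) ω) (f ω) ∂(Pm μ N) :=
      integral_nonneg fun ω => (gm01 (μ := μ) (s := s) (hys y hy).1 hf.2.1 hf.2.2 ω).1
    have ht1 : 1 ≤ t1 := by
      have : (1 : ℝ) ≤ t1 := (Real.one_le_rpow hN1 hθ.le).trans h1
      exact_mod_cast this
    have hw1 : ∀ i : ℕ, 1 ≤ i → i ≤ d - τ1 → wd' μ s i ≤ 4 * K * wd' μ s t1 := fun i i1 i2 => by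
      rcases le_total i t1 with hi | hi
      · refine (hw i t1 i1 hi).1.trans (mul_le_mul_of_nonneg_right (by linarith) (hwd _))
      · refine (hw t1 i ht1 hi).2.2.trans (mul_le_mul_of_nonneg_right ?_ (hwd _))
        rw [mul_comm 4 K]
        refine mul_le_mul_of_nonneg_left ?_ (by linarith)
        have t0 : (0 : ℝ) < t1 := by exact_mod_cast ht1
        have q1 : (1 : ℝ) ≤ (i : ℝ) / t1 := by
          rw [one_le_div t0]
          exact_mod_cast hi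
        have q2 : (i : ℝ) / t1 ≤ 4 := by
          rw [div_le_iff₀ t0]
          exact_mod_cast i2.trans h8
        calc ((i : ℝ) / t1) ^ (1 - a) ≤ ((i : ℝ) / t1) ^ (1 : ℝ) := Real.rpow_le_rpow_of_exponent_le q1 (by linarith)
          _ = (i : ℝ) / t1 := Real.rpow_one _
          _ ≤ 4 := q2
    have k1 := (hR y hy).cD t1 t2 τ1 τ2 0 d 0 d h1 h2 le_rfl (Nat.zero_le _) h3 h4 (h5.trans h6) le_rfl h7 (4 * K) R (by linarith) r1 hw1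
      (fun j j1 j2 => hwR j j1 (j2.trans h9)) (A2 d τ1 τ2 V) (fun S a b _ _ _ _ _ hA => by
        obtain ⟨a1, a2, a3⟩ := hA
        exact ⟨a1.mono le_rfl le_rfl le_rfl h5, a2.mono le_rfl le_rfl le_rfl h5, fun k k1 k2 => a3 k k1 (k2.trans h5)⟩)
      (T2f μ s N y ((N : ℝ) ^ κ) d τ1 τ2 V) (fun ω x => (T2f01 ω x).1) (fun ω x => (T2f01 ω x).2) (fun ω x => min_le_right _ _) f
      (fun A x => hf.sec A x) hf.2.1 hf.2.2 (FinB.union f1 f2)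
    have e0 : ∀ l, 0 ≤ (EE' μ s l)⁻¹ := fun l => inv_nonneg.2 (zero_le_one.trans (le_max_left _ _))
    have p1 : 4 * K * ((N : ℝ) ^ (ε / 2) * (EE' μ s t1)⁻¹) ≤ R * po μ s N ε t1 := by
      have q1 : 4 * K * (N : ℝ) ^ (ε / 2) ≤ (N : ℝ) ^ ε := by
        calc 4 * K * (N : ℝ) ^ (ε / 2) ≤ (N : ℝ) ^ (ε / 2) * (N : ℝ) ^ (ε / 2) :=
              mul_le_mul_of_nonneg_right h4K (Real.rpow_nonneg hN0.le _)
          _ = (N : ℝ) ^ ε := by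
              rw [← Real.rpow_add hN0]
              congr 1
              ring
      calc 4 * K * ((N : ℝ) ^ (ε / 2) * (EE' μ s t1)⁻¹) = 4 * K * (N : ℝ) ^ (ε / 2) * (EE' μ s t1)⁻¹ := by ring
        _ ≤ (N : ℝ) ^ ε * (EE' μ s t1)⁻¹ := mul_le_mul_of_nonneg_right q1 (e0 _)
        _ ≤ R * po μ s N ε t1 := le_mul_of_one_le_left (po_nonneg _ _) r1
    have p2 : R * ((N : ℝ) ^ (ε / 2) * (EE' μ s t2)⁻¹) ≤ R * po μ s N ε t2 :=
      mul_le_mul_of_nonneg_left (po_mono (μ := μ) (s := s) n3 (show ε / 2 ≤ ε by linarith) t2) (by linarith)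
    have p3 : 0 ≤ R * ((N : ℝ) ^ (ε / 2) * (EE' μ s t2)⁻¹) :=
      mul_nonneg (by linarith) (mul_nonneg (Real.rpow_nonneg hN0.le _) (e0 _))
    have k2 := mul_le_mul_of_nonneg_right (mul_le_mul p1 p2 p3 (mul_nonneg (by linarith) (po_nonneg _ _))) g0
    linarith

end

end Pool.Agent.W_7d29a1_C0.Pt450
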