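import Pool.Agent.W_7d29a1_C0.Pt4P72
import Pool.Agent.W_7d29a1_C0.EstM45
import Pool.Agent.W_7d29a1_C0.Frm33
import Pool.Agent.W_7d29a1_C0.EvU50

/-!
MP_7d29a1_pr, [CURV0] / [C0] (helper72), PT4: THE DATA OF THE PRICES `Pk50` AT THE CONCRETE FRAME, with the level `M = L ^ εM` and
`q = ⌈10 M⌉` (`EstM` of helper45).
-/

set_option autoImplicit false
set_option linter.unusedSectionVars false
set_option linter.unusedVariables false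

namespace Pool.Agent.W_7d29a1_C0.Pt450

open MeasureTheory ProbabilityTheory Filter Topology Finset
open Pool.Agent.W_7d29a1_H (sl)
open Pool.Agent.W_7d29a1_HS (In wd md)
open Pool.Agent.W_7d29a1_HZ (wd' EE')
open Pool.Agent.W_7d29a1_C0.Par92 (Est Sml)
open Pool.Agent.W_7d29a1_C0.EstM45 (EstM)
open Pool.Agent.W_7d29a1_C0.EvT50 (ev_pw50 ev_exp50)
open Pool.Agent.W_7d29a1_C0.Frm33

noncomputable section

variable {μ : Measure ℝ} {s : ℝ}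

/-- The numbers of the level. -/
structure Lv72 (L : ℕ) (εM κ A e : ℝ) : Prop where
  εM0 : 0 < εM
  κ0 : 0 < κ
  M8 : 8 ≤ (L : ℝ) ^ εM
  Mκ : 120 * (L : ℝ) ^ εM ≤ (L : ℝ) ^ κ
  e0 : 0 ≤ e
  eA : e ≤ (L : ℝ) ^ (-A)
  eM : Real.exp (-(L : ℝ) ^ εM) ≤ (L : ℝ) ^ (-A)
  q1 : 10 * (L : ℝ) ^ εM ≤ (⌈10 * (L : ℝ) ^ εM⌉₊ : ℕ)
  q2 : ((⌈10 * (L : ℝ) ^ εM⌉₊ : ℕ) : ℝ) ≤ 20 * (L : ℝ) ^ εM

/-- **`Pk50` AT THE FRAME**, any margin `θ`, any power `A` of the error, `ε = ι / K`. -/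
theorem pkM72 [IsProbabilityMeasure μ] {c₀ C₀ : ℝ} {n₀ : ℕ} (h : In μ s c₀ C₀ n₀) {K : ℕ} (hK : 32 ≤ K) {θ : ℝ} (hθ : 0 < θ) (A : ℝ) :
    EstM fun ι εM β γ m => ∃ κ e : ℝ, Lv72 (L33 K m) εM κ A e ∧
      Pk50 μ s (ι / K) θ κ (L33 K m) (ys33 μ s K m) ((L33 K m : ℝ) ^ εM) e := by
  have hK0 : (0 : ℝ) < K := by exact_mod_cast (show 0 < K by omega)
  refine Sml.of fun ι hι => ?_
  obtain ⟨δ, κ, c₂, hδ, hκ, hc₂, N₀, hP⟩ := pk50_of (s := s) h (ι / K) θ (by positivity) hθ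
  refine ⟨κ / 2, by positivity, fun εM hM hMκ => Sml.of fun β _ => Sml.of fun γ _ => ?_⟩
  have tL : Tendsto (fun m : ℕ => L33 K m) atTop atTop := tend_L (by omega)
  have e1 := tL.eventually (ev_pw50 (show (0 : ℝ) < εM from hM) 8)
  have e2 := tL.eventually (ev_pw50 (show εM < κ by linarith) 120)
  have e3 := tL.eventually (ev_exp50 32 A one_pos hM)
  have e4 := tL.eventually (ev_exp50 2 A one_pos hc₂)
  filter_upwards [cone33 h hK hδ, ev_L (by omega : 1 ≤ K) (max N₀ 1), e1, e2, e3, e4] with m h1 h2 h3 h4 h5 h6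
  obtain ⟨L, hL⟩ : ∃ L, L = L33 K m := ⟨_, rfl⟩
  rw [← hL] at h1 h2 h3 h4 h5 h6 ⊢
  have hL1 : (1 : ℝ) ≤ L := by exact_mod_cast (le_max_right N₀ 1).trans h2
  rw [Real.rpow_zero, mul_one] at h3
  rw [one_mul] at h5 h6
  have hX : 0 ≤ (L : ℝ) ^ εM := by linarith
  have p1 := Real.exp_pos (-(L : ℝ) ^ εM)
  have p2 := Real.exp_pos (-(L : ℝ) ^ c₂)
  refine ⟨κ, Real.exp (-(L : ℝ) ^ c₂) + 16 * Real.exp (-(L : ℝ) ^ εM), ⟨hM, hκ, h3, h4, by positivity, by linarith, by linarith,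
    Nat.le_ceil _, ?_⟩, ?_⟩
  · have := (Nat.ceil_lt_add_one (show 0 ≤ 10 * (L : ℝ) ^ εM by positivity)).le
    linarith
  · refine hP L ((le_max_left _ _).trans h2) (ys33 μ s K m) (fun y hy => ?_) _ h3 (by linarith)
    have hy1 := mem_Ico.1 (show y ∈ Ico (y33 μ s K m) (y33 μ s K m + M33 m) from hy)
    exact h1.2.2 y (by omega) (by omega)

end

end Pool.Agent.W_7d29a1_C0.Pt450
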