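import Pool.Agent.W_7d29a1_C0.OwL19
import Pool.Agent.W_7d29a1_C0.N1R14

/-!
MP_7d29a1_pr, [CURV0], leaf E5.8 / N1B (helper19, for helper14): `powL19` = the own line in the form `POw14` wanted by `n1R14s`; `n1L19` = the
rows of `N1B` from the prices of the fourteen lines `i = 2, ..., 8` of the two sides, wanted for `p < p'` only.
-/

set_option autoImplicit false
set_option linter.unusedSectionVars false

namespace Pool.Agent.W_7d29a1_C0.N1E19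

open Finset MeasureTheory Filter Topology
open Pool.Agent.W_7d29a1_F Pool.Agent.W_7d29a1_X
open Pool.Agent.W_7d29a1_H (EE EE_pos one_le_EE)
open Pool.Agent.W_7d29a1_HS (In wd)
open Pool.Agent.W_7d29a1_C0 Pool.Agent.W_7d29a1_C0.Mod92 Pool.Agent.W_7d29a1_C0.Asm96 Pool.Agent.W_7d29a1_C0.H32
open Pool.Agent.W_7d29a1_C0.Frm33 Pool.Agent.W_7d29a1_C0.NTop23
open Pool.Agent.W_7d29a1_C0.Par92 (Est Sml)
open Pool.W7d29a1.C0.N14 (PLn14 PLs14 POw14 RF14 LF14 n1R14s pl01_14)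

noncomputable section

variable {μ : Measure ℝ} {s : ℝ} [IsProbabilityMeasure μ]

/-- The own line. -/
theorem powL19 {c₁ C : ℝ} {n₀ : ℕ} (h : In μ s c₁ C n₀) (hk : KapLe96 (EE μ s) (1 / 4)) {K : ℕ} (hK : 32 ≤ K) {c₀ Θ δ c η : ℝ}
    (hR : RegP46 μ s c₀ Θ) (hδ : 0 < δ) (hc : 0 < c) (hcδ : c ≤ δ / 64) (hη : 0 ≤ η) : POw14 μ s K Θ δ c η (c / 24) (c / 24) := by
  obtain ⟨κ, hκ, H⟩ := owL19 (la := c / 24) (ζ := c / 24) h hk hK hR hδ hc hcδ hη (by linarith)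
  exact ⟨κ, hκ, fun κ' h1 h2 => ⟨3 * c / 16, by positivity, H κ' h1 h2 (7 / 2)⟩⟩

/-- **THE ROWS OF `N1B` FROM THE PRICES OF FOURTEEN LINES.** -/
theorem n1L19 {f f' : ℝ → ℝ} {c₁ C : ℝ} {n₀ : ℕ} (hd : DenLaw μ f f') (h : In μ s c₁ C n₀) (hk : KapLe96 (EE μ s) (1 / 4)) {K : ℕ}
    (hK : 32 ≤ K) {c₀ Θ δ c η : ℝ} (hR : RegP46 μ s c₀ Θ) (hδ : 0 < δ) (hc : 0 < c) (hc1 : c ≤ 1) (hcδ : c ≤ δ / 64) (hη : 0 ≤ η)
    (HR : ∀ i : Fin 9, 2 ≤ (i : ℕ) → PLs14 μ s K Θ δ c η fun F m p p' M => RF14 μ s F m p p' M i)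
    (HL : ∀ i : Fin 9, 2 ≤ (i : ℕ) → PLs14 μ s K Θ δ c η fun F m p p' M => LF14 μ s F m p p' M i) :
    Est fun ι β γ m => RowN23 μ s (frm33 μ s K ι β γ) (EE μ s) Θ δ c η 0 m := by
  have h01 : ∀ i : Fin 9, (i : ℕ) < 2 → i = 0 ∨ i = 1 := fun i hi => by
    rcases Nat.lt_succ_iff_lt_or_eq.1 hi with h1 | h1
    · left
      exact Fin.ext (Nat.lt_one_iff.1 h1)
    · right
      exact Fin.ext h1
  refine n1R14s hd h hk hK hR hδ hc hcδ hη (fun i => ?_) (fun i => ?_) (powL19 h hk hK hR hδ hc hcδ hη)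
  · rcases Nat.lt_or_ge (i : ℕ) 2 with h1 | h1
    · exact (pl01_14 h hk hK hR hδ hc hc1 hcδ hη i (h01 i h1)).1.strict
    · exact HR i h1
  · rcases Nat.lt_or_ge (i : ℕ) 2 with h1 | h1
    · exact (pl01_14 h hk hK hR hδ hc hc1 hcδ hη i (h01 i h1)).2.strict
    · exact HL i h1

end

end Pool.Agent.W_7d29a1_C0.N1E19
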