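import Pool.Agent.W_7d29a1_C0.Score32

/-!
CURV0 (MP_7d29a1_pr), section SM0: quasi-invariance of the product law under a bounded predictable shift. (helper27)

`QI μ p C θ0` is the one-site statement; `quasi` is the statement for the shift `η ↦ η + φ η` over a finite set of sites,
where the field `φ` is predictable (`Pred`), with the compensator `exp (- C ∑ φ²)` inside and the SAME exponent `p`.
-/

set_option autoImplicit false

namespace Pool.W7d29a1.C0.H27

open MeasureTheory ProbabilityTheory Filter Topology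
open Pool.Agent.W_7d29a1_F Pool.Agent.W_7d29a1_C0.H32
open scoped ENNReal

noncomputable section

variable {μ : Measure ℝ}

/-- One-site quasi-invariance under small shifts. -/
def QI (μ : Measure ℝ) (p C θ0 : ℝ) : Prop :=
  ∀ θ : ℝ, |θ| ≤ θ0 → ∀ g : ℝ → ℝ≥0∞, Measurable g →
    ∫⁻ x, g (x + θ) ∂μ ≤ ENNReal.ofReal (Real.exp (C * θ ^ 2)) * (∫⁻ x, g x ^ p ∂μ) ^ (1 / p)

/-- The environment shifted by the field `φ` over the sites `S`. -/
def Sh (S : Finset Pt) (φ : Pt → Env → ℝ) (η : Env) : Env := fun p => if p ∈ S then η p + φ p η else η p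

theorem Sh_in {S : Finset Pt} (φ : Pt → Env → ℝ) (η : Env) {p : Pt} (hp : p ∈ S) : Sh S φ η p = η p + φ p η := by
  simp [Sh, hp]

theorem Sh_out {S : Finset Pt} (φ : Pt → Env → ℝ) (η : Env) {p : Pt} (hp : p ∉ S) : Sh S φ η p = η p := by
  simp [Sh, hp]

theorem Sh_meas {S : Finset Pt} {φ : Pt → Env → ℝ} (hm : ∀ p ∈ S, Measurable (φ p)) : Measurable (Sh S φ) := by
  refine measurable_pi_lambda _ fun p => ?_
  by_cases hp : p ∈ S
  · simp only [Sh, hp, if_true]
    exact (measurable_pi_apply p).add (hm p hp)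
  · simp only [Sh, hp, if_false]
    exact measurable_pi_apply p

/-- The field `φ` over `S` is triangular for the rank `r`: `φ a` does not see the sites of `S` of rank `≥ r a`. The rank
`r p = p.1` is `Pred`; `r p = - p.1` is the backward one. -/
def PredR (r : Pt → ℤ) (S : Finset Pt) (φ : Pt → Env → ℝ) : Prop :=
  ∀ a ∈ S, ∀ b ∈ S, r a ≤ r b → ∀ (η : Env) (x : ℝ), φ a (Function.update η b x) = φ a η

/-- **Quasi-invariance of the product law under a triangular bounded shift**, any rank. -/
theorem quasi_r [IsProbabilityMeasure μ] {p C θ0 : ℝ} (hp : 1 ≤ p) (hQ : QI μ p C θ0) (r : Pt → ℤ) (S : Finset Pt)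
    (φ : Pt → Env → ℝ) (hm : ∀ a ∈ S, Measurable (φ a)) (hc : PredR r S φ) (hM : ∀ a ∈ S, ∀ η, |φ a η| ≤ θ0)
    (F : Env → ℝ≥0∞) (hF : Measurable F) :
    ∫⁻ η, F (Sh S φ η) * ENNReal.ofReal (Real.exp (-(C * ∑ a ∈ S, φ a η ^ 2))) ∂(law μ) ≤
      (∫⁻ η, F η ^ p ∂(law μ)) ^ (1 / p) := by
  have hp0 : 0 < p := by linarith
  induction S using Finset.induction_on_max_value r generalizing F with
  | empty =>
    have e : ∀ η : Env, Sh ∅ φ η = η := fun η => by funext a; simp [Sh]
    simp only [e, Finset.sum_empty, mul_zero, neg_zero, Real.exp_zero, ENNReal.ofReal_one, mul_one]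
    have h1 : eLpNorm F 1 (law μ) ≤ eLpNorm F (ENNReal.ofReal p) (law μ) := by
      refine eLpNorm_le_eLpNorm_of_exponent_le ?_ hF.aestronglyMeasurable
      rw [← ENNReal.ofReal_one]
      exact ENNReal.ofReal_le_ofReal hp
    rw [eLpNorm_one_eq_lintegral_enorm, eLpNorm_eq_lintegral_rpow_enorm_toReal
      (by simpa using hp0) ENNReal.ofReal_ne_top, ENNReal.toReal_ofReal hp0.le] at h1
    simpa using h1
  | insert a S ha hmax ih =>
    have ih' := fun (G : Env → ℝ≥0∞) (hG : Measurable G) => ih (fun b hb => hm b (Finset.mem_insert_of_mem hb))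
      (fun b hb q hq h => hc b (Finset.mem_insert_of_mem hb) q (Finset.mem_insert_of_mem hq) h)
      (fun b hb => hM b (Finset.mem_insert_of_mem hb)) G hG
    have hu := Pool.Agent.W_7d29a1_Z17.mp_upd (μ := μ) a
    have hma : Measurable (φ a) := hm a (Finset.mem_insert_self _ _)
    have hmS : ∀ b ∈ S, Measurable (φ b) := fun b hb => hm b (Finset.mem_insert_of_mem hb)
    have hφa : ∀ η x, φ a (Function.update η a x) = φ a η := fun η x =>
      hc a (Finset.mem_insert_self _ _) a (Finset.mem_insert_self _ _) le_rfl η x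
    have hφS : ∀ b ∈ S, ∀ η x, φ b (Function.update η a x) = φ b η := fun b hb η x =>
      hc b (Finset.mem_insert_of_mem hb) a (Finset.mem_insert_self _ _) (hmax b hb) η x
    -- the shifted environment
    have hSh : ∀ (η : Env) (x : ℝ), Sh (insert a S) φ (Function.update η a x) =
        Function.update (Sh S φ η) a (x + φ a η) := fun η x => by
      funext b
      by_cases hba : b = a
      · subst hba
        rw [Sh_in _ _ (Finset.mem_insert_self _ _), Function.update_self, Function.update_self, hφa]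
      · rw [Function.update_of_ne hba]
        by_cases hbS : b ∈ S
        · rw [Sh_in _ _ (Finset.mem_insert_of_mem hbS), Sh_in _ _ hbS, Function.update_of_ne hba, hφS b hbS]
        · have : b ∉ insert a S := by simp [hba, hbS]
          rw [Sh_out _ _ this, Sh_out _ _ hbS, Function.update_of_ne hba]
    set W : Env → ℝ≥0∞ := fun η => ENNReal.ofReal (Real.exp (-(C * ∑ b ∈ S, φ b η ^ 2))) with hW
    have hWm : Measurable W := by
      refine Measurable.ennreal_ofReal (Measurable.exp (Measurable.neg (Measurable.const_mul ?_ _)))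
      exact Finset.measurable_sum _ fun b hb => (hmS b hb).pow_const 2
    set H : Env → ℝ≥0∞ := fun ζ => (∫⁻ x, F (Function.update ζ a x) ^ p ∂μ) ^ (1 / p) with hH
    have hFu : Measurable fun q : Env × ℝ => F (Function.update q.1 a q.2) ^ p := (hF.comp hu.measurable).pow_const p
    have hHm : Measurable H := (hFu.lintegral_prod_right').pow_const _
    have hG : Measurable fun η : Env => F (Sh (insert a S) φ η) *
        ENNReal.ofReal (Real.exp (-(C * ∑ b ∈ insert a S, φ b η ^ 2))) := by
      refine (hF.comp (Sh_meas hm)).mul ?_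
      refine Measurable.ennreal_ofReal (Measurable.exp (Measurable.neg (Measurable.const_mul ?_ _)))
      exact Finset.measurable_sum _ fun b hb => (hm b hb).pow_const 2
    have hSSm : Measurable fun q : Env × ℝ => Function.update (Sh S φ q.1) a (q.2 + φ a q.1) :=
      hu.measurable.comp (((Sh_meas hmS).comp measurable_fst).prodMk
        (measurable_snd.add (hma.comp measurable_fst)))
    calc ∫⁻ η, F (Sh (insert a S) φ η) *
          ENNReal.ofReal (Real.exp (-(C * ∑ b ∈ insert a S, φ b η ^ 2))) ∂(law μ)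
        = ∫⁻ q : Env × ℝ, F (Sh (insert a S) φ (Function.update q.1 a q.2)) *
            ENNReal.ofReal (Real.exp (-(C * ∑ b ∈ insert a S, φ b (Function.update q.1 a q.2) ^ 2)))
              ∂((law μ).prod μ) := (hu.lintegral_comp hG).symm
      _ = ∫⁻ q : Env × ℝ, F (Function.update (Sh S φ q.1) a (q.2 + φ a q.1)) *
            (ENNReal.ofReal (Real.exp (-(C * φ a q.1 ^ 2))) * W q.1) ∂((law μ).prod μ) := by
          refine lintegral_congr fun q => ?_
          rw [hSh]
          congr 1
          rw [hW]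
          simp only
          rw [← ENNReal.ofReal_mul (Real.exp_pos _).le, ← Real.exp_add, Finset.sum_insert ha, hφa]
          congr 2
          rw [show (∑ b ∈ S, φ b (Function.update q.1 a q.2) ^ 2) = ∑ b ∈ S, φ b q.1 ^ 2 from
            Finset.sum_congr rfl fun b hb => by rw [hφS b hb]]
          ring
      _ = ∫⁻ η, ∫⁻ x, F (Function.update (Sh S φ η) a (x + φ a η)) *
            (ENNReal.ofReal (Real.exp (-(C * φ a η ^ 2))) * W η) ∂μ ∂(law μ) := by
          refine lintegral_prod _ (Measurable.aemeasurable ?_)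
          refine (hF.comp hSSm).mul (Measurable.mul ?_ (hWm.comp measurable_fst))
          exact Measurable.ennreal_ofReal (Measurable.exp (Measurable.neg
            (((hma.comp measurable_fst).pow_const 2).const_mul _)))
      _ ≤ ∫⁻ η, H (Sh S φ η) * W η ∂(law μ) := by
          refine lintegral_mono fun η => ?_
          have hgm : Measurable fun x => F (Function.update (Sh S φ η) a x) :=
            hF.comp (hu.measurable.comp (measurable_const.prodMk measurable_id))
          have h1 := hQ (φ a η) (hM a (Finset.mem_insert_self _ _) η) _ hgm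
          rw [lintegral_mul_const]
          · calc (∫⁻ x, F (Function.update (Sh S φ η) a (x + φ a η)) ∂μ) *
                  (ENNReal.ofReal (Real.exp (-(C * φ a η ^ 2))) * W η)
                ≤ (ENNReal.ofReal (Real.exp (C * φ a η ^ 2)) * H (Sh S φ η)) *
                  (ENNReal.ofReal (Real.exp (-(C * φ a η ^ 2))) * W η) := mul_le_mul_left h1 _
              _ = (ENNReal.ofReal (Real.exp (C * φ a η ^ 2)) * ENNReal.ofReal (Real.exp (-(C * φ a η ^ 2)))) *
                  (H (Sh S φ η) * W η) := by ring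
              _ = H (Sh S φ η) * W η := by
                  rw [← ENNReal.ofReal_mul (Real.exp_pos _).le, ← Real.exp_add, add_neg_cancel, Real.exp_zero,
                    ENNReal.ofReal_one, one_mul]
          · exact hgm.comp (measurable_id.add_const _)
      _ ≤ (∫⁻ η, H η ^ p ∂(law μ)) ^ (1 / p) := ih' H hHm
      _ = (∫⁻ η, F η ^ p ∂(law μ)) ^ (1 / p) := by
          congr 1
          have e1 : ∀ η, H η ^ p = ∫⁻ x, F (Function.update η a x) ^ p ∂μ := fun η => by
            rw [hH]
            simp only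
            rw [← ENNReal.rpow_mul, one_div, inv_mul_cancel₀ hp0.ne', ENNReal.rpow_one]
          simp_rw [e1]
          rw [← lintegral_prod _ hFu.aemeasurable]
          exact hu.lintegral_comp (hF.pow_const p)

/-- **Quasi-invariance of the product law under a predictable bounded shift.** -/
theorem quasi [IsProbabilityMeasure μ] {p C θ0 : ℝ} (hp : 1 ≤ p) (hQ : QI μ p C θ0) (S : Finset Pt)
    (φ : Pt → Env → ℝ) (hm : ∀ a ∈ S, Measurable (φ a)) (hc : Pred S φ) (hM : ∀ a ∈ S, ∀ η, |φ a η| ≤ θ0)
    (F : Env → ℝ≥0∞) (hF : Measurable F) :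
    ∫⁻ η, F (Sh S φ η) * ENNReal.ofReal (Real.exp (-(C * ∑ a ∈ S, φ a η ^ 2))) ∂(law μ) ≤
      (∫⁻ η, F η ^ p ∂(law μ)) ^ (1 / p) :=
  quasi_r hp hQ (fun a => a.1) S φ hm hc hM F hF

/-- The compensator is bounded: `E F (η + φ) ≤ exp (C B) (E F ^ p) ^ (1 / p)`. -/
theorem quasi_bd [IsProbabilityMeasure μ] {p C θ0 B : ℝ} (hp : 1 ≤ p) (hC : 0 ≤ C) (hQ : QI μ p C θ0) (r : Pt → ℤ)
    (S : Finset Pt) (φ : Pt → Env → ℝ) (hm : ∀ a ∈ S, Measurable (φ a)) (hc : PredR r S φ)
    (hM : ∀ a ∈ S, ∀ η, |φ a η| ≤ θ0) (hB : ∀ η, ∑ a ∈ S, φ a η ^ 2 ≤ B) (F : Env → ℝ≥0∞) (hF : Measurable F) :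
    ∫⁻ η, F (Sh S φ η) ∂(law μ) ≤ ENNReal.ofReal (Real.exp (C * B)) * (∫⁻ η, F η ^ p ∂(law μ)) ^ (1 / p) := by
  have h1 := quasi_r hp hQ r S φ hm hc hM F hF
  calc ∫⁻ η, F (Sh S φ η) ∂(law μ)
      ≤ ∫⁻ η, ENNReal.ofReal (Real.exp (C * B)) * (F (Sh S φ η) *
          ENNReal.ofReal (Real.exp (-(C * ∑ a ∈ S, φ a η ^ 2)))) ∂(law μ) := by
        refine lintegral_mono fun η => ?_
        have h2 : (1 : ℝ≥0∞) ≤ ENNReal.ofReal (Real.exp (C * B)) *
            ENNReal.ofReal (Real.exp (-(C * ∑ a ∈ S, φ a η ^ 2))) := by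
          rw [← ENNReal.ofReal_mul (Real.exp_pos _).le, ← Real.exp_add, ← ENNReal.ofReal_one]
          refine ENNReal.ofReal_le_ofReal (Real.one_le_exp ?_)
          nlinarith [hB η]
        calc F (Sh S φ η) = F (Sh S φ η) * 1 := (mul_one _).symm
          _ ≤ F (Sh S φ η) * (ENNReal.ofReal (Real.exp (C * B)) *
            ENNReal.ofReal (Real.exp (-(C * ∑ a ∈ S, φ a η ^ 2)))) := by gcongr
          _ = _ := by ring
    _ = ENNReal.ofReal (Real.exp (C * B)) * ∫⁻ η, F (Sh S φ η) *
          ENNReal.ofReal (Real.exp (-(C * ∑ a ∈ S, φ a η ^ 2))) ∂(law μ) := by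
        refine lintegral_const_mul _ ?_
        refine (hF.comp (Sh_meas hm)).mul ?_
        refine Measurable.ennreal_ofReal (Measurable.exp (Measurable.neg (Measurable.const_mul ?_ _)))
        exact Finset.measurable_sum _ fun b hb => (hm b hb).pow_const 2
    _ ≤ _ := by gcongr

end

end Pool.W7d29a1.C0.H27
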