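import Mathlib

/-!
STORM C0 (helper96): THE RECURSION FOR THE RESISTIVITY.

`v k` is the resistivity per row of level `k` of the block functional on `[0, n]`, `E` the scale of the fluctuations of the free
energy, `κ r = r / E r ^ 3`.  A step `√(v (k + 1)) ≤ √(v k + θ (v k + v (k + 1)) + B) + √B` (Minkowski for the block functionals) gives
`√(v (k + 1)) ≤ (1 + 4 θ) (√(v k) + 4 √B)`; after `O(log n)` steps `v` is at most `n ^ ε B`.  With `B = n ^ (Θ - c')`, `Θ` the upper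
exponent of `κ`, and `n ^ (1 - ε) ≤ v K * E n ^ 3` at the records of `κ` this is impossible.  So `E` cannot be uniformly below
`r ^ (1 / 3 - c)`.
-/

set_option autoImplicit false

namespace Pool.Agent.W_7d29a1_C0

open Filter Topology

/-- One step. -/
theorem step96 {θ B v v' : ℝ} (hθ : 0 ≤ θ) (hθ' : θ ≤ 1 / 4) (hB : 0 ≤ B) (hv : 0 ≤ v) (hv' : 0 ≤ v')
    (h : √v' ≤ √(v + θ * (v + v') + B) + √B) : √v' ≤ (1 + 4 * θ) * (√v + 4 * √B) := by
  obtain ⟨x, hx⟩ : ∃ x, x = √v := ⟨_, rfl⟩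
  obtain ⟨y, hy⟩ : ∃ y, y = √v' := ⟨_, rfl⟩
  obtain ⟨b, hb⟩ : ∃ b, b = √B := ⟨_, rfl⟩
  have hx0 : 0 ≤ x := hx ▸ Real.sqrt_nonneg _
  have hy0 : 0 ≤ y := hy ▸ Real.sqrt_nonneg _
  have hb0 : 0 ≤ b := hb ▸ Real.sqrt_nonneg _
  have hvx : v = x ^ 2 := by rw [hx, Real.sq_sqrt hv]
  have hvy : v' = y ^ 2 := by rw [hy, Real.sq_sqrt hv']
  have hBb : B = b ^ 2 := by rw [hb, Real.sq_sqrt hB]
  rw [← hy, ← hb, hvx, hvy, hBb] at h
  rw [← hx, ← hy, ← hb]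
  by_contra hc
  push Not at hc
  have h0 : 0 ≤ x + 4 * b := by linarith
  have h1 : x + 4 * b ≤ (1 + 4 * θ) * (x + 4 * b) := by nlinarith [mul_nonneg hθ h0]
  have h2 : x + 4 * b < y := h1.trans_lt hc
  have hxy : x < y := by linarith
  have hypos : 0 < y := by linarith
  -- `(y - 2 b) ^ 2 ≤ x ^ 2 + 2 θ y ^ 2`
  have h3 : √(x ^ 2 + θ * (x ^ 2 + y ^ 2) + b ^ 2) ≤ √(x ^ 2 + 2 * θ * y ^ 2) + b := by
    rw [Real.sqrt_le_left (by positivity)]
    have e1 : 0 ≤ x ^ 2 + 2 * θ * y ^ 2 := by positivity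
    have e2 := Real.sq_sqrt e1
    have e3 : θ * x ^ 2 ≤ θ * y ^ 2 := mul_le_mul_of_nonneg_left (by nlinarith) hθ
    nlinarith [Real.sqrt_nonneg (x ^ 2 + 2 * θ * y ^ 2), mul_nonneg (Real.sqrt_nonneg (x ^ 2 + 2 * θ * y ^ 2)) hb0]
  have h4 : y - 2 * b ≤ √(x ^ 2 + 2 * θ * y ^ 2) := by linarith
  have h5 : (y - 2 * b) ^ 2 ≤ x ^ 2 + 2 * θ * y ^ 2 := by
    have e1 : 0 ≤ y - 2 * b := by linarith
    have e2 := pow_le_pow_left₀ e1 h4 2
    rwa [Real.sq_sqrt (by positivity)] at e2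
  -- `(1 - 2 θ) y > x + 4 b`
  have h6 : x + 4 * b < (1 - 2 * θ) * y := by
    have e1 : (1 - 2 * θ) * ((1 + 4 * θ) * (x + 4 * b)) < (1 - 2 * θ) * y :=
      mul_lt_mul_of_pos_left hc (by linarith)
    have e2 : 0 ≤ (2 * θ - 8 * θ ^ 2) * (x + 4 * b) := mul_nonneg (by nlinarith) h0
    nlinarith
  have h7 : (x + 4 * b) * y < (1 - 2 * θ) * y * y := mul_lt_mul_of_pos_right h6 hypos
  have h8 : x * x ≤ x * y := mul_le_mul_of_nonneg_left hxy.le hx0
  nlinarith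

/-- `k` steps. -/
theorem iter96 {θ B : ℝ} {v : ℕ → ℝ} {K : ℕ} (hθ : 0 ≤ θ) (hθ' : θ ≤ 1 / 4) (hB : 0 ≤ B) (hv : ∀ k, 0 ≤ v k)
    (h : ∀ k < K, √(v (k + 1)) ≤ √(v k + θ * (v k + v (k + 1)) + B) + √B) :
    ∀ k ≤ K, √(v k) ≤ (1 + 4 * θ) ^ k * (√(v 0) + 4 * √B * k) := by
  intro k
  induction k with
  | zero => intro _; simp
  | succ k ih =>
    intro hk
    have h1 := ih (by omega)
    have h2 := step96 hθ hθ' hB (hv k) (hv (k + 1)) (h k (by omega))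
    have h3 : (1 : ℝ) ≤ (1 + 4 * θ) ^ k := one_le_pow₀ (by linarith)
    calc √(v (k + 1)) ≤ (1 + 4 * θ) * (√(v k) + 4 * √B) := h2
      _ ≤ (1 + 4 * θ) * ((1 + 4 * θ) ^ k * (√(v 0) + 4 * √B * k) + (1 + 4 * θ) ^ k * (4 * √B)) := by
          refine mul_le_mul_of_nonneg_left (add_le_add h1 ?_) (by linarith)
          exact le_mul_of_one_le_left (by positivity) h3
      _ = (1 + 4 * θ) ^ (k + 1) * (√(v 0) + 4 * √B * (k + 1 : ℕ)) := by
          push_cast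
          ring

/-- The scale `E` is uniformly below `r ^ (1 / 3 - c)`. -/
def Stiff96 (E : ℕ → ℝ) (c : ℝ) : Prop :=
  ∀ᶠ r : ℕ in atTop, E r ≤ (r : ℝ) ^ (1 / 3 - c)

/-- The upper exponent of `κ r = r / E r ^ 3` is at most `Θ`. -/
def KapLe96 (E : ℕ → ℝ) (Θ : ℝ) : Prop :=
  ∀ ε : ℝ, 0 < ε → ∀ᶠ r : ℕ in atTop, (r : ℝ) ≤ (r : ℝ) ^ (Θ + ε) * E r ^ 3

/-- The chain of block functionals over `[0, n]`: at most `4 log n` steps with relative error `n ^ (-c')` and absolute error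
`n ^ (Θ - c')`. -/
def Chain96 (Θ c' : ℝ) (n K : ℕ) (v : ℕ → ℝ) : Prop :=
  (K : ℝ) ≤ 4 * Real.log n ∧ (∀ k, 0 ≤ v k) ∧ v 0 ≤ (n : ℝ) ^ (Θ - c') ∧
    ∀ k < K, √(v (k + 1)) ≤
      √(v k + (n : ℝ) ^ (-c') * (v k + v (k + 1)) + (n : ℝ) ^ (Θ - c')) + √((n : ℝ) ^ (Θ - c'))

/-- The recursion: at every large record `n` of `κ` there is a chain whose last resistivity is at least `n ^ (-ε) κ n`. -/
def Rec96 (E : ℕ → ℝ) : Prop :=
  ∀ Θ : ℝ, 0 < Θ → KapLe96 E Θ → ∃ c' ε : ℝ, 0 < ε ∧ 4 * ε ≤ c' ∧ ∀ᶠ n : ℕ in atTop,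
    (n : ℝ) ^ (Θ - ε) * E n ^ 3 ≤ n → ∃ (K : ℕ) (v : ℕ → ℝ), Chain96 Θ c' n K v ∧ (n : ℝ) ^ (1 - ε) ≤ v K * E n ^ 3

theorem tend96 {δ : ℝ} (hδ : 0 < δ) : Tendsto (fun n : ℕ => (n : ℝ) ^ (-δ) * Real.log n) atTop (𝓝 0) := by
  have h1 : Tendsto (fun x : ℝ => x ^ (-δ) * Real.log x) atTop (𝓝 0) := by
    have h2 := (isLittleO_log_rpow_atTop hδ).tendsto_div_nhds_zero
    refine h2.congr' ?_
    filter_upwards [eventually_gt_atTop (0 : ℝ)] with x hx
    rw [Real.rpow_neg hx.le, div_eq_mul_inv, mul_comm]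
  exact h1.comp tendsto_natCast_atTop_atTop

theorem tend0_96 {δ : ℝ} (hδ : 0 < δ) : Tendsto (fun n : ℕ => (n : ℝ) ^ (-δ)) atTop (𝓝 0) :=
  (tendsto_rpow_neg_atTop hδ).comp tendsto_natCast_atTop_atTop

/-- The resistivity of the top level is at most `n ^ (Θ - c' + ε)`. -/
theorem top96 {Θ c' ε : ℝ} (hc : 0 < c') (hε : 0 < ε) :
    ∀ᶠ n : ℕ in atTop, ∀ (K : ℕ) (v : ℕ → ℝ), Chain96 Θ c' n K v → v K ≤ (n : ℝ) ^ (Θ - c' + ε) := by
  filter_upwards [(tend96 hc).eventually_le_const (show (0 : ℝ) < 1 / 32 by norm_num),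
    (tend0_96 hc).eventually_le_const (show (0 : ℝ) < 1 / 4 by norm_num),
    (tend96 (show 0 < ε / 2 by positivity)).eventually_le_const (show (0 : ℝ) < 1 / 64 by norm_num),
    (tend0_96 (show 0 < ε / 2 by positivity)).eventually_le_const (show (0 : ℝ) < 1 / 4 by norm_num),
    eventually_ge_atTop 1] with n g1 g2 g3 g4 hn1 K v hch
  obtain ⟨hK, hv, h0, hstep⟩ := hch
  have hn : (0 : ℝ) < n := by exact_mod_cast hn1
  have hn1' : (1 : ℝ) ≤ n := by exact_mod_cast hn1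
  have hθ : 0 ≤ (n : ℝ) ^ (-c') := (Real.rpow_pos_of_pos hn _).le
  have hB : 0 ≤ (n : ℝ) ^ (Θ - c') := (Real.rpow_pos_of_pos hn _).le
  have hlog : 0 ≤ Real.log n := Real.log_nonneg hn1'
  have h1 := iter96 hθ g2 hB hv hstep K le_rfl
  -- the product of the growth factors
  have h2 : (1 + 4 * (n : ℝ) ^ (-c')) ^ K ≤ 2 := by
    have e1 : (1 + 4 * (n : ℝ) ^ (-c')) ^ K ≤ Real.exp (4 * (n : ℝ) ^ (-c')) ^ K := by
      refine pow_le_pow_left₀ (by linarith) ?_ K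
      linarith [Real.add_one_le_exp (4 * (n : ℝ) ^ (-c'))]
    rw [← Real.exp_nat_mul] at e1
    have e2 : (K : ℝ) * (4 * (n : ℝ) ^ (-c')) ≤ 1 / 2 := by
      calc (K : ℝ) * (4 * (n : ℝ) ^ (-c')) ≤ 4 * Real.log n * (4 * (n : ℝ) ^ (-c')) :=
            mul_le_mul_of_nonneg_right hK (by linarith)
        _ = 16 * ((n : ℝ) ^ (-c') * Real.log n) := by ring
        _ ≤ 1 / 2 := by linarith
    have e3 : Real.exp (1 / 2) ≤ 2 := by
      have := Real.exp_one_lt_d9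
      have e4 : Real.exp (1 / 2) ^ 2 = Real.exp 1 := by
        rw [← Real.exp_nat_mul]
        norm_num
      nlinarith [Real.exp_pos (1 / 2 : ℝ)]
    exact e1.trans ((Real.exp_le_exp.2 e2).trans e3)
  obtain ⟨b, hb⟩ : ∃ b, b = √((n : ℝ) ^ (Θ - c')) := ⟨_, rfl⟩
  rw [← hb] at h1
  have hb0 : 0 ≤ b := hb ▸ Real.sqrt_nonneg _
  have hbsq : b ^ 2 = (n : ℝ) ^ (Θ - c') := by rw [hb, Real.sq_sqrt hB]
  have hsum : 0 ≤ √(v 0) + 4 * b * K := by positivity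
  have h3 : √(v K) ≤ 2 * (√(v 0) + 4 * b * K) := h1.trans (mul_le_mul_of_nonneg_right h2 hsum)
  -- the base
  have h4 : √(v 0) ≤ b := hb ▸ Real.sqrt_le_sqrt h0
  have h5 : √(v K) ≤ (n : ℝ) ^ (ε / 2) * b := by
    have e1 : Real.log n ≤ (n : ℝ) ^ (ε / 2) * (1 / 64) := by
      calc Real.log n = (n : ℝ) ^ (ε / 2) * ((n : ℝ) ^ (-(ε / 2)) * Real.log n) := by
            rw [← mul_assoc, ← Real.rpow_add hn]
            simp
        _ ≤ _ := mul_le_mul_of_nonneg_left g3 (by positivity)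
    have e2 : (1 : ℝ) ≤ (n : ℝ) ^ (ε / 2) * (1 / 4) := by
      calc (1 : ℝ) = (n : ℝ) ^ (ε / 2) * (n : ℝ) ^ (-(ε / 2)) := by
            rw [← Real.rpow_add hn]
            simp
        _ ≤ _ := mul_le_mul_of_nonneg_left g4 (by positivity)
    have e3 : 4 * b * K ≤ 16 * (b * Real.log n) := by
      calc 4 * b * K ≤ 4 * b * (4 * Real.log n) := mul_le_mul_of_nonneg_left hK (by positivity)
        _ = _ := by ring
    have e4 : b * Real.log n ≤ b * ((n : ℝ) ^ (ε / 2) * (1 / 64)) := mul_le_mul_of_nonneg_left e1 hb0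
    have e5 : b * 1 ≤ b * ((n : ℝ) ^ (ε / 2) * (1 / 4)) := mul_le_mul_of_nonneg_left e2 hb0
    linarith
  calc v K = √(v K) ^ 2 := (Real.sq_sqrt (hv K)).symm
    _ ≤ ((n : ℝ) ^ (ε / 2) * b) ^ 2 := pow_le_pow_left₀ (Real.sqrt_nonneg _) h5 2
    _ = (n : ℝ) ^ ε * (n : ℝ) ^ (Θ - c') := by
        rw [mul_pow, hbsq, ← Real.rpow_natCast ((n : ℝ) ^ (ε / 2)) 2, ← Real.rpow_mul hn.le]
        norm_num
    _ = (n : ℝ) ^ (Θ - c' + ε) := by
        rw [← Real.rpow_add hn]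
        ring_nf

/-- The upper exponent of `κ` exists. -/
theorem exists_theta96 {E : ℕ → ℝ} (hE : ∀ᶠ n : ℕ in atTop, 1 ≤ E n) {c : ℝ} (hc : 0 < c) (hst : Stiff96 E c) :
    ∃ Θ : ℝ, 0 < Θ ∧ KapLe96 E Θ ∧ ∀ ε : ℝ, 0 < ε → ∃ᶠ n : ℕ in atTop, (n : ℝ) ^ (Θ - ε) * E n ^ 3 ≤ n := by
  obtain ⟨u, hu⟩ : ∃ u : ℕ → ℝ, u = fun n => Real.log (n / E n ^ 3) / Real.log n := ⟨_, rfl⟩
  -- `3 c ≤ u ≤ 1`
  have hb : ∀ᶠ n : ℕ in atTop, 3 * c ≤ u n ∧ u n ≤ 1 := by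
    filter_upwards [hE, hst, eventually_ge_atTop 2] with n h1 h2 hn2
    have hn1 : (1 : ℝ) < n := by
      have : 1 < n := by omega
      exact_mod_cast this
    have hn : (0 : ℝ) < n := by linarith
    have hlog : 0 < Real.log n := Real.log_pos hn1
    have hEp : 0 < E n ^ 3 := by positivity
    rw [hu]
    constructor
    · rw [le_div_iff₀ hlog, ← Real.log_rpow hn]
      refine Real.log_le_log (by positivity) ?_
      rw [le_div_iff₀ hEp]
      calc (n : ℝ) ^ (3 * c) * E n ^ 3 ≤ (n : ℝ) ^ (3 * c) * ((n : ℝ) ^ (1 / 3 - c)) ^ 3 :=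
            mul_le_mul_of_nonneg_left (pow_le_pow_left₀ (by linarith) h2 3) (by positivity)
        _ = n := by
            rw [← Real.rpow_natCast ((n : ℝ) ^ (1 / 3 - c)) 3, ← Real.rpow_mul hn.le, ← Real.rpow_add hn]
            have : 3 * c + (1 / 3 - c) * ((3 : ℕ) : ℝ) = 1 := by
              push_cast
              ring
            rw [this, Real.rpow_one]
    · rw [div_le_one hlog]
      refine Real.log_le_log (by positivity) ?_
      rw [div_le_iff₀ hEp]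
      exact le_mul_of_one_le_right hn.le (one_le_pow₀ h1)
  have hbd1 : IsBoundedUnder (· ≤ ·) atTop u := ⟨1, by
    rw [eventually_map]
    exact hb.mono fun n h => h.2⟩
  have hbd2 : IsCoboundedUnder (· ≤ ·) atTop u := by
    have : IsBoundedUnder (· ≥ ·) atTop u := ⟨3 * c, by
      rw [eventually_map]
      exact hb.mono fun n h => h.1⟩
    exact this.isCoboundedUnder_le
  have hup : ∀ ε : ℝ, 0 < ε → ∀ᶠ n : ℕ in atTop, u n < limsup u atTop + ε := fun ε hε =>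
    eventually_lt_of_limsup_lt (by linarith) hbd1
  have hlo : ∀ ε : ℝ, 0 < ε → ∃ᶠ n : ℕ in atTop, limsup u atTop - ε < u n := fun ε hε =>
    frequently_lt_of_lt_limsup hbd2 (by linarith)
  refine ⟨limsup u atTop, ?_, ?_, ?_⟩
  · have h1 : 3 * c ≤ limsup u atTop := le_of_forall_pos_lt_add fun ε hε => by
      obtain ⟨n, h1, h2⟩ := ((hup ε hε).and hb).exists
      linarith [h2.1]
    linarith
  · intro ε hε
    filter_upwards [hup ε hε, hE, eventually_ge_atTop 2] with n h1 h2 hn2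
    have hn1 : (1 : ℝ) < n := by
      have : 1 < n := by omega
      exact_mod_cast this
    have hn : (0 : ℝ) < n := by linarith
    have hlog : 0 < Real.log n := Real.log_pos hn1
    have hEp : 0 < E n ^ 3 := by positivity
    rw [hu] at h1
    simp only at h1
    rw [div_lt_iff₀ hlog, ← Real.log_rpow hn] at h1
    have h3 := (Real.log_lt_log_iff (by positivity) (by positivity)).1 h1
    rw [div_lt_iff₀ hEp] at h3
    rw [← hu] at h3
    exact h3.le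
  · intro ε hε
    refine ((hlo ε hε).and_eventually (hE.and (eventually_ge_atTop 2))).mono fun n h => ?_
    obtain ⟨h1, h2, hn2⟩ := h
    have hn1 : (1 : ℝ) < n := by
      have : 1 < n := by omega
      exact_mod_cast this
    have hn : (0 : ℝ) < n := by linarith
    have hlog : 0 < Real.log n := Real.log_pos hn1
    have hEp : 0 < E n ^ 3 := by positivity
    have h1' : limsup u atTop - ε < Real.log (n / E n ^ 3) / Real.log n := by
      have := h1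
      rw [hu] at this ⊢
      exact this
    rw [lt_div_iff₀ hlog, ← Real.log_rpow hn] at h1'
    have h3 := (Real.log_lt_log_iff (by positivity) (by positivity)).1 h1'
    rw [lt_div_iff₀ hEp] at h3
    exact h3.le

/-- The recursion is incompatible with uniform stiffness. -/
theorem not_stiff96 {E : ℕ → ℝ} (hE : ∀ᶠ n : ℕ in atTop, 1 ≤ E n) {c : ℝ} (hc : 0 < c) (hst : Stiff96 E c) : ¬ Rec96 E := by
  intro h
  obtain ⟨Θ, hΘ, hle, hrec⟩ := exists_theta96 hE hc hst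
  obtain ⟨c', ε, hε, hεc, h1⟩ := h Θ hΘ hle
  have hc' : 0 < c' := by linarith
  have hε' : 0 < c' / 4 := by positivity
  obtain ⟨n, hκ, h2, htop, hE1, hn2⟩ :=
    ((hrec ε hε).and_eventually (h1.and
      ((top96 (Θ := Θ) hc' hε').and (hE.and (eventually_ge_atTop 2))))).exists
  obtain ⟨K, v, hch, hnum⟩ := h2 hκ
  have h3 := htop K v hch
  have hn1 : (1 : ℝ) < n := by
    have : 1 < n := by omega
    exact_mod_cast this
  have hn : (0 : ℝ) < n := by linarith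
  have hEp : 0 < E n ^ 3 := by positivity
  -- `n ^ (1 - ε) n ^ (Θ - ε) ≤ v K * n`
  have h4 : (n : ℝ) ^ (1 - ε) * ((n : ℝ) ^ (Θ - ε) * E n ^ 3) ≤ (v K * E n ^ 3) * n :=
    mul_le_mul hnum hκ (by positivity) ((Real.rpow_pos_of_pos hn _).le.trans hnum)
  have h5 : (n : ℝ) ^ (1 - ε) * (n : ℝ) ^ (Θ - ε) ≤ v K * n := by
    by_contra hcon
    push Not at hcon
    have := mul_lt_mul_of_pos_right hcon hEp
    nlinarith
  have h6 : (n : ℝ) ^ (1 + Θ - 2 * ε) ≤ (n : ℝ) ^ (Θ - c' + c' / 4 + 1) := by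
    calc (n : ℝ) ^ (1 + Θ - 2 * ε) = (n : ℝ) ^ (1 - ε) * (n : ℝ) ^ (Θ - ε) := by
          rw [← Real.rpow_add hn]
          ring_nf
      _ ≤ v K * n := h5
      _ ≤ (n : ℝ) ^ (Θ - c' + c' / 4) * n := mul_le_mul_of_nonneg_right h3 hn.le
      _ = _ := by rw [Real.rpow_add_one hn.ne']
  have h7 := (Real.rpow_le_rpow_left_iff hn1).1 h6
  linarith

/-- **THE END**: if the recursion holds under stiffness then `E n` is frequently above `n ^ (1 / 3 - c)`, for every `c > 0`. -/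
theorem end96 {E : ℕ → ℝ} (hE : ∀ᶠ n : ℕ in atTop, 1 ≤ E n) (h : ∀ c : ℝ, 0 < c → Stiff96 E c → Rec96 E) {c : ℝ} (hc : 0 < c) :
    ∃ᶠ n : ℕ in atTop, (n : ℝ) ^ (1 / 3 - c) < E n := by
  intro hn
  have hst : Stiff96 E c := hn.mono fun n h1 => not_lt.1 h1
  exact not_stiff96 hE hc hst (h c hc hst)

theorem sqrt_add96 {x y : ℝ} (hx : 0 ≤ x) (hy : 0 ≤ y) : √(x + y) ≤ √x + √y := by
  rw [Real.sqrt_le_left (by positivity), add_sq, Real.sq_sqrt hx, Real.sq_sqrt hy]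
  nlinarith [mul_nonneg (Real.sqrt_nonneg x) (Real.sqrt_nonneg y)]

/-- A step `v' ≤ v + a (1 + √v + √v') + θ (v + v')` is a step of the chain. -/
theorem ofAdd96 {a θ B v v' : ℝ} (ha : 0 ≤ a) (hv : 0 ≤ v) (hv' : 0 ≤ v') (hB : a ≤ B)
    (hθ : 0 ≤ θ) (haθ : a ^ 2 ≤ θ * B) (h : v' ≤ v + a * (1 + √v + √v') + θ * (v + v')) :
    √v' ≤ √(v + 2 * θ * (v + v') + 2 * B) + √(2 * B) := by
  have h1 : a * √v ≤ θ * v + B := by
    have e1 := Real.sq_sqrt hv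
    have hB0 : 0 ≤ B := ha.trans hB
    by_contra hc
    push Not at hc
    have e2 : 0 ≤ θ * v + B := by positivity
    have e3 : (θ * v + B) ^ 2 < (a * √v) ^ 2 := pow_lt_pow_left₀ hc e2 (by norm_num)
    rw [mul_pow, e1] at e3
    nlinarith [sq_nonneg (θ * v - B), mul_le_mul_of_nonneg_right haθ hv, mul_nonneg (mul_nonneg hθ hB0) hv]
  have h2 : a * √v' ≤ θ * v' + B := by
    have e1 := Real.sq_sqrt hv'
    have hB0 : 0 ≤ B := ha.trans hB
    by_contra hc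
    push Not at hc
    have e2 : 0 ≤ θ * v' + B := by positivity
    have e3 : (θ * v' + B) ^ 2 < (a * √v') ^ 2 := pow_lt_pow_left₀ hc e2 (by norm_num)
    rw [mul_pow, e1] at e3
    nlinarith [sq_nonneg (θ * v' - B), mul_le_mul_of_nonneg_right haθ hv', mul_nonneg (mul_nonneg hθ hB0) hv']
  have hB0 : 0 ≤ B := ha.trans hB
  have h3 : v' ≤ (v + 2 * θ * (v + v') + 2 * B) + B := by nlinarith
  calc √v' ≤ √((v + 2 * θ * (v + v') + 2 * B) + B) := Real.sqrt_le_sqrt h3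
    _ ≤ √(v + 2 * θ * (v + v') + 2 * B) + √B := sqrt_add96 (by positivity) hB0
    _ ≤ _ := by
        have : √B ≤ √(2 * B) := Real.sqrt_le_sqrt (by linarith)
        linarith

end Pool.Agent.W_7d29a1_C0
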