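import Pool.Agent.W_7d29a1_HZ.Act12
import Pool.Agent.W_7d29a1_g.TubeR17
import Pool.Agent.W_7d29a1_F.CoreB1

/-!
CURV0 (MP_7d29a1_pr), helper39: THE REVERSAL OF TIME OF THE PINNED MODEL: the environment `rv (N, y) η`, the path `rvS N S`.
The Gibbs weights `gp` and the annealed probabilities `P1`, `P2` (no shear) are invariant.
-/

set_option autoImplicit false

namespace Pool.Agent.W_7d29a1_C0.Rev39

open MeasureTheory ProbabilityTheory Filter Topology Finset
open Pool.Agent.W_7d29a1_F Pool.Agent.W_7d29a1_X Pool.Agent.W_7d29a1_h4g Pool.Agent.W_7d29a1_H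
open Pool.Agent.W_7d29a1_HS (In wd md)
open Pool.Agent.W_7d29a1_HZ
open Pool.Agent.W_7d29a1_g (rv)
open scoped ENNReal

variable {μ : Measure ℝ} {s : ℝ}

/-! ### Reversed paths -/

/-- The reversed path. -/
def rvS (N : ℕ) (S : Finset ℕ) : Finset ℕ := (range N).filter fun t => N - 1 - t ∈ S

theorem mem_rvS {N : ℕ} {S : Finset ℕ} {t : ℕ} : t ∈ rvS N S ↔ t < N ∧ N - 1 - t ∈ S := by
  unfold rvS
  rw [mem_filter, mem_range]

theorem rvS_sub (N : ℕ) (S : Finset ℕ) : rvS N S ⊆ range N := filter_subset _ _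

theorem rvS_rvS {N : ℕ} {S : Finset ℕ} (hS : S ⊆ range N) : rvS N (rvS N S) = S := by
  ext t
  rw [mem_rvS, mem_rvS]
  constructor
  · rintro ⟨h1, h2, h3⟩
    have e : N - 1 - (N - 1 - t) = t := by omega
    rwa [e] at h3
  · intro h
    have h1 := mem_range.1 (hS h)
    have e : N - 1 - (N - 1 - t) = t := by omega
    exact ⟨h1, by omega, by rwa [e]⟩

/-- The positions of the reversed path. -/
theorem pos_rvS {N i : ℕ} (S : Finset ℕ) (hi : i ≤ N) : pos (rvS N S) i = pos S N - pos S (N - i) := by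
  have h1 : (rvS N S ∩ range i).card = (S ∩ Ico (N - i) N).card := by
    refine card_bij (fun t _ => N - 1 - t) ?_ ?_ ?_
    · intro t ht
      rw [mem_inter, mem_rvS, mem_range] at ht
      rw [mem_inter, mem_Ico]
      refine ⟨ht.1.2, ?_, ?_⟩ <;> omega
    · intro a ha b hb hab
      rw [mem_inter, mem_rvS, mem_range] at ha hb
      omega
    · intro b hb
      rw [mem_inter, mem_Ico] at hb
      have e : N - 1 - (N - 1 - b) = b := by omega
      refine ⟨N - 1 - b, ?_, e⟩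
      rw [mem_inter, mem_rvS, mem_range]
      refine ⟨⟨by omega, by rw [e]; exact hb.1⟩, by omega⟩
  have h2 : (S ∩ range N).card = (S ∩ range (N - i)).card + (S ∩ Ico (N - i) N).card := by
    rw [← card_union_of_disjoint]
    · congr 1
      ext t
      rw [mem_union, mem_inter, mem_inter, mem_inter, mem_range, mem_range, mem_Ico]
      constructor
      · rintro ⟨h3, h4⟩
        rcases Nat.lt_or_ge t (N - i) with h5 | h5
        · exact Or.inl ⟨h3, h5⟩
        · exact Or.inr ⟨h3, h5, h4⟩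
      · rintro (⟨h3, h4⟩ | ⟨h3, h4, h5⟩)
        · exact ⟨h3, by omega⟩
        · exact ⟨h3, h5⟩
    · rw [disjoint_left]
      intro t h3 h4
      rw [mem_inter, mem_range] at h3
      rw [mem_inter, mem_Ico] at h4
      omega
  unfold pos
  rw [h1]
  omega

theorem pos_rvS_N {N : ℕ} (S : Finset ℕ) : pos (rvS N S) N = pos S N := by
  rw [pos_rvS S le_rfl, Nat.sub_self, pos_zero, sub_zero]

/-- The sum over the paths, reversed. -/
theorem sum_rvS {β : Type*} [AddCommMonoid β] (N : ℕ) (f : Finset ℕ → β) :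
    ∑ S ∈ (range N).powerset, f (rvS N S) = ∑ S ∈ (range N).powerset, f S := by
  refine sum_nbij' (fun S => rvS N S) (fun S => rvS N S) ?_ ?_ ?_ ?_ ?_
  · exact fun S _ => mem_powerset.2 (rvS_sub N S)
  · exact fun S _ => mem_powerset.2 (rvS_sub N S)
  · exact fun S hS => rvS_rvS (mem_powerset.1 hS)
  · exact fun S hS => rvS_rvS (mem_powerset.1 hS)
  · exact fun S _ => rfl

/-! ### The weights -/

theorem prod_rv (η : Env) (N : ℕ) (S : Finset ℕ) :
    Real.exp (η ((N : ℤ), pos S N)) * ∏ i ∈ range N, Real.exp (rv ((N : ℤ), pos S N) η ((i : ℤ) + 1, pos (rvS N S) (i + 1))) =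
      Real.exp (η (0, 0)) * ∏ i ∈ range N, Real.exp (η ((i : ℤ) + 1, pos S (i + 1))) := by
  have h1 : ∏ i ∈ range N, Real.exp (rv ((N : ℤ), pos S N) η ((i : ℤ) + 1, pos (rvS N S) (i + 1))) =
      ∏ i ∈ range N, Real.exp (η ((i : ℤ), pos S i)) := by
    rw [← prod_range_reflect]
    refine prod_congr rfl fun i hi => ?_
    rw [mem_range] at hi
    have e1 : N - 1 - i + 1 = N - i := by omega
    rw [e1, pos_rvS S (by omega : N - i ≤ N)]
    have e2 : N - (N - i) = i := by omega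
    rw [e2]
    unfold rv
    congr 2
    refine Prod.ext ?_ ?_
    · show (N : ℤ) - (((N - 1 - i : ℕ) : ℤ) + 1) = i
      omega
    · show pos S N - (pos S N - pos S i) = pos S i
      ring
  rw [h1]
  have h2 := prod_range_succ (fun i : ℕ => Real.exp (η ((i : ℤ), pos S i))) N
  have h3 := prod_range_succ' (fun i : ℕ => Real.exp (η ((i : ℤ), pos S i))) N
  rw [h2] at h3
  rw [mul_comm, h3]
  rw [mul_comm]
  congr 1
  show Real.exp (η (((0 : ℕ) : ℤ), pos S 0)) = _
  rw [pos_zero]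
  rfl

theorem pth_rv (η : Env) (N : ℕ) (S : Finset ℕ) :
    Real.exp (η ((N : ℤ), pos S N)) * pth μ s (rv ((N : ℤ), pos S N) η) N (rvS N S) = Real.exp (η (0, 0)) * pth μ s η N S := by
  have h := prod_rv η N S
  unfold pth
  rw [pos_rvS_N]
  calc _ = Real.exp (s * (pos S N : ℝ) - N * lam μ s) * (Real.exp (η ((N : ℤ), pos S N)) *
        ∏ i ∈ range N, Real.exp (rv ((N : ℤ), pos S N) η ((i : ℤ) + 1, pos (rvS N S) (i + 1)))) := by ring
    _ = _ := by
      rw [h]
      ring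

theorem W_rv (η : Env) (N : ℕ) (y : ℤ) :
    Real.exp (η ((N : ℤ), y)) * W μ s (rv ((N : ℤ), y) η) 0 N y = Real.exp (η (0, 0)) * W μ s η 0 N y := by
  have h := Pool.Agent.W_7d29a1_g.Zr_rev η ((N : ℤ), y) N y
  have e : (((N : ℤ), y) : Pt).1 - N = 0 := sub_self _
  have e' : (((N : ℤ), y) : Pt).2 - y = 0 := sub_self _
  rw [e, e'] at h
  unfold W WR
  calc _ = Real.exp (s * y - N * lam μ s) * (Real.exp (η ((N : ℤ), y)) *
        Zr Set.univ (rv ((N : ℤ), y) η) 0 N y) := by ring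
    _ = Real.exp (s * y - N * lam μ s) * (Real.exp (η (0, 0)) * Zr Set.univ η (0, 0) N y) := by rw [h]
    _ = _ := by
      have e3 : ((0, 0) : Pt) = 0 := rfl
      rw [e3]
      ring

/-- **The Gibbs weights are invariant.** -/
theorem gp_rv (η : Env) (N : ℕ) (y : ℤ) (S : Finset ℕ) : gp μ s (rv ((N : ℤ), y) η) N y (rvS N S) = gp μ s η N y S := by
  unfold gp
  rw [pos_rvS_N]
  by_cases h : pos S N = y
  · rw [if_pos h, if_pos h]
    subst h
    have h1 := pth_rv (μ := μ) (s := s) η N S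
    have h2 := W_rv (μ := μ) (s := s) η N (pos S N)
    have p1 := Real.exp_pos (η ((N : ℤ), pos S N))
    have p2 := Real.exp_pos (η (0, 0))
    have e1 : pth μ s (rv ((N : ℤ), pos S N) η) N (rvS N S) = Real.exp (η (0, 0)) / Real.exp (η ((N : ℤ), pos S N)) * pth μ s η N S := by
      field_simp
      linarith [h1]
    have e2 : W μ s (rv ((N : ℤ), pos S N) η) 0 N (pos S N) =
        Real.exp (η (0, 0)) / Real.exp (η ((N : ℤ), pos S N)) * W μ s η 0 N (pos S N) := by
      field_simp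
      linarith [h2]
    rw [e1, e2, mul_div_mul_left]
    exact (div_pos p2 p1).ne'
  · rw [if_neg h, if_neg h]

/-! ### The annealed probabilities -/

variable [IsProbabilityMeasure μ]

theorem mp_rv (Z : Pt) : MeasurePreserving (rv Z) (law μ) (law μ) := mp_neg Z

theorem rv_rv (Z : Pt) (η : Env) : rv Z (rv Z η) = η := by
  funext p
  unfold rv
  rw [sub_sub_cancel]

theorem meas_rv (Z : Pt) : Measurable (rv Z) := measurable_pi_lambda _ fun _ => measurable_pi_apply _

/-- The reversal as an equivalence. -/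
def rvE (Z : Pt) : Env ≃ᵐ Env where
  toFun := rv Z
  invFun := rv Z
  left_inv := rv_rv Z
  right_inv := rv_rv Z
  measurable_toFun := meas_rv Z
  measurable_invFun := meas_rv Z

theorem lint_rv (Z : Pt) (F : Env → ℝ≥0∞) (A : Set Env) :
    ∫⁻ η in A, F η ∂(law μ) = ∫⁻ η in {η | rv Z η ∈ A}, F (rv Z η) ∂(law μ) :=
  ((mp_rv Z).setLIntegral_comp_preimage_emb (rvE Z).measurableEmbedding F A).symm

/-- **`P1` is invariant.** -/
theorem P1_rv (N : ℕ) (y : ℤ) (A : Env → Finset ℕ → Prop) :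
    P1 μ s N y A = P1 μ s N y fun η S => A (rv ((N : ℤ), y) η) (rvS N S) := by
  rw [A12.P1_eq, A12.P1_eq, ← sum_rvS N fun S => ∫⁻ η in {η | A η S}, ENNReal.ofReal (gp μ s η N y S) ∂law μ]
  refine sum_congr rfl fun S _ => ?_
  rw [lint_rv ((N : ℤ), y)]
  simp only [gp_rv]
  rfl

/-- **`P2` is invariant** (no shear). -/
theorem P2_rv (N : ℕ) (y : ℤ) (A : Env → Finset ℕ → Finset ℕ → Prop) :
    P2 μ s N y (fun _ => 0) A = P2 μ s N y (fun _ => 0) fun η S S' => A (rv ((N : ℤ), y) η) (rvS N S) (rvS N S') := by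
  have h0 : ∀ η : Env, shr 0 (fun _ => 0) η = η := fun η => by
    funext p
    unfold shr sv
    simp
  rw [A12.P2_eq, A12.P2_eq, ← sum_rvS N fun S => ∑ S' ∈ (range N).powerset,
    ∫⁻ η in {η | A η S S'}, ENNReal.ofReal (gp μ s η N y S * gp μ s (shr 0 (fun _ => 0) η) N y S') ∂law μ]
  refine sum_congr rfl fun S _ => ?_
  rw [← sum_rvS N fun S' => ∫⁻ η in {η | A η (rvS N S) S'},
    ENNReal.ofReal (gp μ s η N y (rvS N S) * gp μ s (shr 0 (fun _ => 0) η) N y S') ∂law μ]
  refine sum_congr rfl fun S' _ => ?_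
  rw [lint_rv ((N : ℤ), y)]
  simp only [h0, gp_rv]
  rfl

/-! ### Events -/

theorem ms_rv {N : ℕ} {y : ℤ} {A : Env → Finset ℕ → Prop} (hA : Ms A) : Ms fun η S => A (rv ((N : ℤ), y) η) (rvS N S) :=
  fun S => meas_rv ((N : ℤ), y) (hA (rvS N S))

/-- The reversed rows. -/
def rvJ (N : ℕ) (J : Finset ℕ) : Finset ℕ := (range (N + 1)).filter fun i => N - i ∈ J

theorem mem_rvJ {N i : ℕ} {J : Finset ℕ} : i ∈ rvJ N J ↔ i ≤ N ∧ N - i ∈ J := by
  unfold rvJ
  rw [mem_filter, mem_range, Nat.lt_succ_iff]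

omit [IsProbabilityMeasure μ] in
theorem off_rv {N : ℕ} {y : ℤ} {J : Finset ℕ} {A : Env → Finset ℕ → Prop} (hA : OffRows J A) :
    OffRows (rvJ N J) fun η S => A (rv ((N : ℤ), y) η) (rvS N S) := by
  intro η η' S h
  refine hA _ _ _ fun q hq => h _ ?_
  rintro ⟨h1, h2⟩
  rw [mem_rvJ] at h2
  have e1 : (((N : ℤ), y) - q : Pt).1 = N - q.1 := rfl
  rw [e1] at h1 h2
  have h3 : 0 ≤ q.1 := by
    by_contra hcon
    have : N < ((N : ℤ) - q.1).toNat := by omega
    omega
  refine hq ⟨h3, ?_⟩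
  have e2 : N - ((N : ℤ) - q.1).toNat = q.1.toNat := by omega
  rw [e2] at h2
  exact h2.2

end Pool.Agent.W_7d29a1_C0.Rev39
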