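import Pool.Agent.W_7d29a1_C0.Rob43B

/-!
MP_7d29a1_pr, [CURV0] / [C0]: THE ROBUST STEP FOR A PAIR WITH TWO DIFFERENT CONDITIONS (helper42), after helper43's `Rob43`.

Triples `(S, T, U)`: `S` the base path, `T` a replica given `p₁ S`, `U` a replica given `p₂ S`, `p₂` coarser than `p₁`. `Sw3`: weights
of the triples which do not see exchanges of pieces between `S` and `T`. `rob2`: **if `T` and `U` do not meet in a long interval with a
probability which is not very small, then (almost) every base path `S` has, in some piece, an alternative given `p₁` or an alternative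
given `p₂` with a mass which is not very small.** `Tau2`: the mass of the pairs `(T, U)` without meeting in `[i, j]` is at least
`exp (- 5 M)`; `Rp2`: in some piece one of the two masses is more than `exp (- 7 M)`; `tau_rp2`: the paths with `Tau2` and without `Rp2`
have Gibbs mass at most `exp (- M)`.
-/

set_option autoImplicit false
set_option linter.unusedSectionVars false

namespace Pool.W7d29a1.C0.R42

open Finset MeasureTheory Pool.Agent.W_7d29a1_F Pool.Agent.W_7d29a1_X Pool.Agent.W_7d29a1_C0.Mod92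
open Pool.Agent.W_7d29a1_C0.Swap57
open Pool.W7d29a1.C0 (gz gm lse gz_pos gz_ne gm_nonneg gm_mono gm_const)
open Pool.W7d29a1.C0.VT31
open Pool.W7d29a1.C0.R43

noncomputable section

/-! ### Abstract -/

section Abs

variable {Q : Finset (Finset ℕ)} {W3 : Finset ℕ × Finset ℕ × Finset ℕ → ℝ}

/-- Weights of triples which do not see exchanges of pieces between the first two paths. -/
structure Sw3 (Q : Finset (Finset ℕ)) (W3 : Finset ℕ × Finset ℕ × Finset ℕ → ℝ) : Prop where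
  nn : ∀ x ∈ Q ×ˢ Q ×ˢ Q, 0 ≤ W3 x
  mem : ∀ I : Finset ℕ, ∀ S ∈ Q, ∀ T ∈ Q, Bd I S T → mx I S T ∈ Q
  inv : ∀ I : Finset ℕ, ∀ S ∈ Q, ∀ T ∈ Q, ∀ U ∈ Q, Bd I S T → W3 (mx I S T, mx I T S, U) = W3 (S, T, U)
  tot : ∑ x ∈ Q ×ˢ Q ×ˢ Q, W3 x ≤ 1

theorem ph_mem3 (h : Sw3 Q W3) {τ l q : ℕ} {A : Finset ℕ} (hA : A ⊆ range q) {x : Finset ℕ × Finset ℕ × Finset ℕ}
    (hx : x ∈ R43.Gd Q τ l q) : Ph τ l A x ∈ Q ×ˢ Q ×ˢ Q ∧ W3 (Ph τ l A x) = W3 x := by
  classical
  unfold R43.Gd at hx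
  rw [mem_filter, mem_product, mem_product] at hx
  obtain ⟨⟨h1, h2, h3⟩, h4, -, -⟩ := hx
  have hb := bd_IA (h4.sub hA)
  refine ⟨?_, ?_⟩
  · rw [mem_product, mem_product]
    exact ⟨h.mem _ _ h1 _ h2 hb, h.mem _ _ h2 _ h1 hb.symm, h3⟩
  · exact h.inv _ _ h1 _ h2 _ h3 hb

/-- The entropy bound. -/
theorem gd_le3 (h : Sw3 Q W3) (τ l q : ℕ) : 2 ^ q * ∑ x ∈ R43.Gd Q τ l q, W3 x ≤ 1 := by
  classical
  have hinj : ∀ A ⊆ range q, Set.InjOn (Ph τ l A) (R43.Gd Q τ l q : Set (Finset ℕ × Finset ℕ × Finset ℕ)) := by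
    intro A hA x hx x' hx' hxx
    have h1 : MA τ l A x.1 x.2.1 := by
      have := (mem_filter.1 (mem_coe.1 hx)).2.1
      exact this.sub hA
    have h2 : MA τ l A x'.1 x'.2.1 := by
      have := (mem_filter.1 (mem_coe.1 hx')).2.1
      exact this.sub hA
    rw [← Ph_Ph h1, ← Ph_Ph h2, hxx]
  have hdis : Set.PairwiseDisjoint ((range q).powerset : Set (Finset ℕ)) fun A => (R43.Gd Q τ l q).image (Ph τ l A) := by
    intro A hA A' hA' hne
    rw [mem_coe, mem_powerset] at hA hA'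
    rw [Function.onFun, disjoint_left]
    intro z hz hz'
    rw [mem_image] at hz hz'
    obtain ⟨x, hx, hxz⟩ := hz
    obtain ⟨x', hx', hxz'⟩ := hz'
    refine hne ?_
    ext i
    by_cases hi : i ∈ range q
    · rw [← ph_pat hA hx hi, ← ph_pat hA' hx' hi, hxz, hxz']
    · exact iff_of_false (fun h1 => hi (hA h1)) fun h1 => hi (hA' h1)
  have e1 : ∑ A ∈ (range q).powerset, ∑ z ∈ (R43.Gd Q τ l q).image (Ph τ l A), W3 z = 2 ^ q * ∑ x ∈ R43.Gd Q τ l q, W3 x := by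
    rw [sum_congr rfl fun A hA => ?_, sum_const, card_powerset, card_range, nsmul_eq_mul]
    · push_cast
      rfl
    · rw [mem_powerset] at hA
      rw [sum_image (hinj A hA)]
      exact sum_congr rfl fun x hx => (ph_mem3 h hA hx).2
  rw [← e1, ← sum_biUnion hdis]
  refine le_trans ?_ h.tot
  refine sum_le_sum_of_subset_of_nonneg ?_ fun z hz _ => h.nn z hz
  intro z hz
  rw [mem_biUnion] at hz
  obtain ⟨A, hA, hz⟩ := hz
  rw [mem_powerset] at hA
  rw [mem_image] at hz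
  obtain ⟨x, hx, rfl⟩ := hz
  exact (ph_mem3 h hA hx).1

open Classical in
/-- **THE ROBUST STEP FOR TRIPLES.** -/
theorem rob2 (h : Sw3 Q W3) (τ l q : ℕ) {d : ℝ} {L : ℕ} (hL : τ + 3 * q * (l + 1) ≤ L) (B : Finset ℕ → Prop)
    (hm1 : ∀ n < 3 * q, ∑ x ∈ Q ×ˢ Q ×ˢ Q, (if B x.1 ∧ Nm (st τ l n) (st τ l n + l) x.1 x.2.1 then W3 x else 0) ≤ d)
    (hm2 : ∀ n < 3 * q, ∑ x ∈ Q ×ˢ Q ×ˢ Q, (if B x.1 ∧ Nm (st τ l n) (st τ l n + l) x.1 x.2.2 then W3 x else 0) ≤ d) :
    ∑ x ∈ Q ×ˢ Q ×ˢ Q, (if B x.1 ∧ Nm τ L x.2.1 x.2.2 then W3 x else 0) ≤ (1 / 2) ^ q + 3 * q * d := by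
  have key : ∀ x ∈ Q ×ˢ Q ×ˢ Q, (if B x.1 ∧ Nm τ L x.2.1 x.2.2 then W3 x else 0) ≤
      (if x ∈ R43.Gd Q τ l q then W3 x else 0) +
      ∑ n ∈ range (3 * q), (if n % 3 = 1 then (if B x.1 ∧ Nm (st τ l n) (st τ l n + l) x.1 x.2.2 then W3 x else 0)
        else (if B x.1 ∧ Nm (st τ l n) (st τ l n + l) x.1 x.2.1 then W3 x else 0)) := by
    intro x hx
    have hp : 0 ≤ W3 x := h.nn x hx
    have hsn : ∀ n, 0 ≤ (if n % 3 = 1 then (if B x.1 ∧ Nm (st τ l n) (st τ l n + l) x.1 x.2.2 then W3 x else 0)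
        else (if B x.1 ∧ Nm (st τ l n) (st τ l n + l) x.1 x.2.1 then W3 x else 0)) := by
      intro n
      split_ifs <;> first | exact hp | exact le_rfl
    have hsum0 := sum_nonneg fun n (_ : n ∈ range (3 * q)) => hsn n
    have hg0 : 0 ≤ (if x ∈ R43.Gd Q τ l q then W3 x else 0) := by
      split_ifs
      · exact hp
      · exact le_rfl
    by_cases hBN : B x.1 ∧ Nm τ L x.2.1 x.2.2
    · rw [if_pos hBN]
      by_cases hg : x ∈ R43.Gd Q τ l q
      · rw [if_pos hg]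
        linarith
      · have hex : ∃ n ∈ range (3 * q), (n % 3 ≠ 1 ∧ Nm (st τ l n) (st τ l n + l) x.1 x.2.1) ∨
            (n % 3 = 1 ∧ Nm (st τ l n) (st τ l n + l) x.1 x.2.2) := by
          by_contra hcon
          push Not at hcon
          refine hg ?_
          unfold R43.Gd
          rw [mem_filter]
          refine ⟨hx, ?_, ?_, ?_⟩
          · intro i hi
            rw [mem_range] at hi
            refine ⟨(hcon (3 * i) (mem_range.2 (by omega))).1 (by omega),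
              (hcon (3 * i + 2) (mem_range.2 (by omega))).1 (by omega)⟩
          · intro i hi
            rw [mem_range] at hi
            exact (hcon (3 * i + 1) (mem_range.2 (by omega))).2 (by omega)
          · intro i hi k hk1 hk2
            rw [mem_range] at hi
            have g1 := le_st τ l (3 * i + 1)
            have g2 := st_end (τ := τ) (l := l) (q := q) (n := 3 * i + 1) (by omega)
            exact hBN.2 k (by omega) (by omega)
        obtain ⟨n, hn, hor⟩ := hex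
        have h1 : W3 x ≤ (if n % 3 = 1 then (if B x.1 ∧ Nm (st τ l n) (st τ l n + l) x.1 x.2.2 then W3 x else 0)
            else (if B x.1 ∧ Nm (st τ l n) (st τ l n + l) x.1 x.2.1 then W3 x else 0)) := by
          rcases hor with ho | ho
          · rw [if_neg ho.1, if_pos ⟨hBN.1, ho.2⟩]
          · rw [if_pos ho.1, if_pos ⟨hBN.1, ho.2⟩]
        have h2 := single_le_sum (f := fun n => (if n % 3 = 1 then
            (if B x.1 ∧ Nm (st τ l n) (st τ l n + l) x.1 x.2.2 then W3 x else 0)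
            else (if B x.1 ∧ Nm (st τ l n) (st τ l n + l) x.1 x.2.1 then W3 x else 0))) (fun n _ => hsn n) hn
        linarith
    · rw [if_neg hBN]
      linarith
  have hmiss : ∀ n ∈ range (3 * q), ∑ x ∈ Q ×ˢ Q ×ˢ Q, (if n % 3 = 1 then
      (if B x.1 ∧ Nm (st τ l n) (st τ l n + l) x.1 x.2.2 then W3 x else 0)
        else (if B x.1 ∧ Nm (st τ l n) (st τ l n + l) x.1 x.2.1 then W3 x else 0)) ≤ d := by
    intro n hn
    rw [mem_range] at hn
    by_cases h3 : n % 3 = 1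
    · simp only [if_pos h3]
      exact hm2 n hn
    · simp only [if_neg h3]
      exact hm1 n hn
  have e3 : ∑ x ∈ Q ×ˢ Q ×ˢ Q, (if x ∈ R43.Gd Q τ l q then W3 x else 0) = ∑ x ∈ R43.Gd Q τ l q, W3 x := by
    rw [← sum_filter]
    refine sum_congr ?_ fun _ _ => rfl
    ext x
    rw [mem_filter]
    refine ⟨fun h1 => h1.2, fun h1 => ⟨?_, h1⟩⟩
    unfold R43.Gd at h1
    exact (mem_filter.1 h1).1
  have hgd := gd_le3 h τ l q
  have hgd' : ∑ x ∈ R43.Gd Q τ l q, W3 x ≤ (1 / 2) ^ q := by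
    rw [one_div, inv_pow]
    rw [← one_div, le_div_iff₀ (by positivity)]
    linarith
  calc _ ≤ ∑ x ∈ Q ×ˢ Q ×ˢ Q, ((if x ∈ R43.Gd Q τ l q then W3 x else 0) +
      ∑ n ∈ range (3 * q), (if n % 3 = 1 then (if B x.1 ∧ Nm (st τ l n) (st τ l n + l) x.1 x.2.2 then W3 x else 0)
        else (if B x.1 ∧ Nm (st τ l n) (st τ l n + l) x.1 x.2.1 then W3 x else 0))) := sum_le_sum key
    _ = ∑ x ∈ R43.Gd Q τ l q, W3 x + ∑ n ∈ range (3 * q), ∑ x ∈ Q ×ˢ Q ×ˢ Q, (if n % 3 = 1 then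
        (if B x.1 ∧ Nm (st τ l n) (st τ l n + l) x.1 x.2.2 then W3 x else 0)
        else (if B x.1 ∧ Nm (st τ l n) (st τ l n + l) x.1 x.2.1 then W3 x else 0)) := by
        rw [← e3, sum_comm (s := range (3 * q)), ← sum_add_distrib]
    _ ≤ (1 / 2) ^ q + ∑ n ∈ range (3 * q), d := add_le_add hgd' (sum_le_sum hmiss)
    _ = (1 / 2) ^ q + 3 * q * d := by
        rw [sum_const, card_range, nsmul_eq_mul]
        push_cast
        ring

end Abs

/-! ### The model -/

variable {μ : Measure ℝ} {s : ℝ} {N : ℕ} {Q : Finset (Finset ℕ)} {Y₁ Y₂ : Type*} [DecidableEq Y₁] [DecidableEq Y₂] [Nonempty (Px Q)]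

/-- The weight of a triple: `S` with the Gibbs measure, `T` given `p₁ S`, `U` given `p₂ S`. -/
def w3 (w : Px Q → ℝ) (p₁ : Px Q → Y₁) (p₂ : Px Q → Y₂) (S T U : Px Q) : ℝ :=
  Real.exp (w S) / gz w * ((if p₁ T = p₁ S then Real.exp (w T) / fz w p₁ S else 0) *
    (if p₂ U = p₂ S then Real.exp (w U) / fz w p₂ S else 0))

open Classical in
/-- The same on sets. -/
def w3' (w : Px Q → ℝ) (p₁ : Px Q → Y₁) (p₂ : Px Q → Y₂) (x : Finset ℕ × Finset ℕ × Finset ℕ) : ℝ :=
  if h : x.1 ∈ Q ∧ x.2.1 ∈ Q ∧ x.2.2 ∈ Q then w3 w p₁ p₂ ⟨x.1, h.1⟩ ⟨x.2.1, h.2.1⟩ ⟨x.2.2, h.2.2⟩ else 0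

theorem w3_nonneg (w : Px Q → ℝ) (p₁ : Px Q → Y₁) (p₂ : Px Q → Y₂) (S T U : Px Q) : 0 ≤ w3 w p₁ p₂ S T U := by
  unfold w3
  have h1 := gz_pos w
  have h2 := fz_pos w p₁ S
  have h3 := fz_pos w p₂ S
  refine mul_nonneg (by positivity) (mul_nonneg ?_ ?_)
  · split_ifs <;> positivity
  · split_ifs <;> positivity

theorem fz_cl {Y : Type*} [DecidableEq Y] (w : Px Q → ℝ) {p : Px Q → Y} {S S' : Px Q} (h : p S = p S') : fz w p S = fz w p S' := by
  unfold fz
  rw [h]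

theorem w3_inv [MxQ Q] (η : Env) {p₁ : Px Q → Y₁} {p₂ : Px Q → Y₂} (hp : SwP p₁) (hc : Crs p₂ p₁) (I : Finset ℕ) {S T U S' T' : Px Q}
    (hb : Bd I S.1 T.1) (hS : S'.1 = mx I S.1 T.1) (hT : T'.1 = mx I T.1 S.1) :
    w3 (lw μ s η N Q) p₁ p₂ S' T' U = w3 (lw μ s η N Q) p₁ p₂ S T U := by
  by_cases h : p₁ T = p₁ S
  · have h1 : p₁ S' = p₁ S := hp I S T S' h.symm hb hS
    have h2 : p₁ T' = p₁ T := hp I T S T' h hb.symm hT
    have h3 : p₂ S' = p₂ S := hc _ _ h1
    unfold w3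
    rw [if_pos h, if_pos (h2.trans (h.trans h1.symm)), fz_cl _ h1, fz_cl _ h3, h3]
    have e : Real.exp (lw μ s η N Q S') * Real.exp (lw μ s η N Q T') = Real.exp (lw μ s η N Q S) * Real.exp (lw μ s η N Q T) := by
      rw [exp_lw, exp_lw, exp_lw, exp_lw, hS, hT, pth_mx η N hb]
    rw [← mul_assoc, ← mul_assoc, div_mul_div_comm, div_mul_div_comm, e]
  · have h1 : p₁ T' ≠ p₁ S' := by
      intro h2
      apply h
      have hb' : Bd I S'.1 T'.1 := by
        rw [hS, hT]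
        exact bd_mx hb
      have e1 : S.1 = mx I S'.1 T'.1 := by
        rw [hS, hT, mx_mx]
      have e2 : T.1 = mx I T'.1 S'.1 := by
        rw [hS, hT, mx_mx]
      rw [hp I T' S' T h2 hb'.symm e2, hp I S' T' S h2.symm hb' e1]
      exact h2
    unfold w3
    rw [if_neg h, if_neg h1]
    ring

theorem sum3 (F : Px Q → Px Q → Px Q → ℝ) : (∑ x ∈ Q ×ˢ Q ×ˢ Q, (if h : x.1 ∈ Q ∧ x.2.1 ∈ Q ∧ x.2.2 ∈ Q then
      F ⟨x.1, h.1⟩ ⟨x.2.1, h.2.1⟩ ⟨x.2.2, h.2.2⟩ else 0)) = ∑ S, ∑ T, ∑ U, F S T U := by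
  classical
  rw [sum_product]
  rw [← sum_coe_sort Q]
  refine sum_congr rfl fun S _ => ?_
  rw [sum_product]
  rw [← sum_coe_sort Q]
  refine sum_congr rfl fun T _ => ?_
  rw [← sum_coe_sort Q]
  refine sum_congr rfl fun U _ => ?_
  rw [dif_pos ⟨S.2, T.2, U.2⟩]

/-- The mean over the triples. -/
theorem sum_w3 (w : Px Q → ℝ) (p₁ : Px Q → Y₁) (p₂ : Px Q → Y₂) (f : Px Q → ℝ) (K : Px Q → Px Q → ℝ) (K' : Px Q → Px Q → Px Q → ℝ)
    (hK : ∀ S T U, K' S T U = f S * K T U) :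
    ∑ S, ∑ T, ∑ U, w3 w p₁ p₂ S T U * K' S T U = gm w (fun S => f S * cE w p₁ (fun T => cE w p₂ (K T) S) S) := by
  unfold gm
  rw [sum_div]
  refine sum_congr rfl fun S _ => ?_
  unfold cE w3
  simp only [hK]
  have e1 : ∀ T : Px Q, ∑ U, Real.exp (w S) / gz w * ((if p₁ T = p₁ S then Real.exp (w T) / fz w p₁ S else 0) *
      (if p₂ U = p₂ S then Real.exp (w U) / fz w p₂ S else 0)) * (f S * K T U) =
      Real.exp (w S) * f S / gz w * ((if p₁ T = p₁ S then Real.exp (w T) * ((∑ U, if p₂ U = p₂ S then Real.exp (w U) * K T U else 0) /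
        fz w p₂ S) else 0) / fz w p₁ S) := by
    intro T
    have e2 : ∀ U : Px Q, Real.exp (w S) / gz w * ((if p₁ T = p₁ S then Real.exp (w T) / fz w p₁ S else 0) *
      (if p₂ U = p₂ S then Real.exp (w U) / fz w p₂ S else 0)) * (f S * K T U) =
      (Real.exp (w S) * f S / gz w * (if p₁ T = p₁ S then Real.exp (w T) / fz w p₁ S else 0)) *
        ((if p₂ U = p₂ S then Real.exp (w U) * K T U else 0) / fz w p₂ S) := by
      intro U
      by_cases h3 : p₁ T = p₁ S <;> by_cases h4 : p₂ U = p₂ S <;> simp [h3, h4] <;> ring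
    rw [sum_congr rfl fun U _ => e2 U, ← mul_sum, ← sum_div]
    split_ifs
    · ring
    · ring
  rw [sum_congr rfl fun T _ => e1 T, ← mul_sum, ← sum_div]
  ring

theorem sw3 [MxQ Q] (η : Env) {p₁ : Px Q → Y₁} {p₂ : Px Q → Y₂} (hp : SwP p₁) (hc : Crs p₂ p₁) :
    Sw3 Q (w3' (lw μ s η N Q) p₁ p₂) where
  nn x _ := by
    unfold w3'
    split_ifs
    · exact w3_nonneg _ _ _ _ _ _
    · exact le_rfl
  mem := MxQ.mem
  inv I S hS T hT U hU hb := by
    have h1 := MxQ.mem I S hS T hT hb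
    have h2 := MxQ.mem I T hT S hS hb.symm
    unfold w3'
    rw [dif_pos (show (mx I S T, mx I T S, U).1 ∈ Q ∧ _ from ⟨h1, h2, hU⟩), dif_pos (show (S, T, U).1 ∈ Q ∧ _ from ⟨hS, hT, hU⟩)]
    exact w3_inv (S := ⟨S, hS⟩) (T := ⟨T, hT⟩) η hp hc I hb rfl rfl
  tot := by
    unfold w3'
    rw [sum3]
    have h := sum_w3 (lw μ s η N Q) p₁ p₂ (fun _ => 1) (fun _ _ => 1) (fun _ _ _ => 1) (fun _ _ _ => by ring)
    simp only [mul_one] at h
    rw [h]
    have e : ∀ S, (1 : ℝ) * cE (lw μ s η N Q) p₁ (fun _ => cE (lw μ s η N Q) p₂ (fun _ => 1) S) S = 1 := fun S => by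
      rw [cE_one, one_mul]
      exact congrFun (cE_one _ _) S
    rw [show (fun S => (1 : ℝ) * cE (lw μ s η N Q) p₁ (fun _ => cE (lw μ s η N Q) p₂ (fun _ => 1) S) S) = fun _ => (1 : ℝ) from
      funext e, gm_const]

open Classical in
/-- The paths without an alternative given `p₁` and without an alternative given `p₂` in the pieces. -/
def b2 (w : Px Q → ℝ) (p₁ : Px Q → Y₁) (p₂ : Px Q → Y₂) (τ l q : ℕ) (d : ℝ) (S : Px Q) : ℝ :=
  if ∀ n < 3 * q, mI w p₁ (st τ l n) (st τ l n + l) S ≤ d ∧ mI w p₂ (st τ l n) (st τ l n + l) S ≤ d then 1 else 0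

/-- **THE ROBUST STEP FOR A PAIR WITH TWO CONDITIONS**: `S` the base path without alternatives, `T` given `p₁ S`, `U` given `p₂ S`. -/
theorem rob2P [MxQ Q] (η : Env) {p₁ : Px Q → Y₁} {p₂ : Px Q → Y₂} (hp : SwP p₁) (hc : Crs p₂ p₁) (τ l q : ℕ) {d : ℝ} (hd : 0 ≤ d)
    {L : ℕ} (hL : τ + 3 * q * (l + 1) ≤ L) :
    gm (lw μ s η N Q) (fun S => b2 (lw μ s η N Q) p₁ p₂ τ l q d S * cE (lw μ s η N Q) p₁ (mI (lw μ s η N Q) p₂ τ L) S) ≤
      (1 / 2) ^ q + 3 * q * d := by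
  classical
  set w := lw μ s η N Q with hw
  set B : Finset ℕ → Prop := fun S => ∃ h : S ∈ Q, ∀ n < 3 * q, mI w p₁ (st τ l n) (st τ l n + l) ⟨S, h⟩ ≤ d ∧
    mI w p₂ (st τ l n) (st τ l n + l) ⟨S, h⟩ ≤ d with hB
  have hBb : ∀ S : Px Q, b2 w p₁ p₂ τ l q d S = if B S.1 then 1 else 0 := fun S => by
    unfold b2
    refine if_congr ?_ rfl rfl
    rw [hB]
    exact ⟨fun h => ⟨S.2, h⟩, fun ⟨_, h⟩ => h⟩
  have hNI : ∀ (i j : ℕ) (S T : Px Q), NI i j S T = if Nm i j S.1 T.1 then 1 else 0 := fun i j S T => by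
    rw [← nm_NI]
  -- sums of `W3` against an indicator
  have hsum : ∀ (P : Finset ℕ → Finset ℕ → Finset ℕ → Prop) [∀ S T U, Decidable (P S T U)], ∑ x ∈ Q ×ˢ Q ×ˢ Q, (if P x.1 x.2.1 x.2.2 then w3' w p₁ p₂ x else 0) =
      ∑ S, ∑ T, ∑ U, w3 w p₁ p₂ S T U * (if P S.1 T.1 U.1 then 1 else 0) := by
    intro P _
    rw [← sum3]
    refine sum_congr rfl fun x hx => ?_
    rw [mem_product, mem_product] at hx
    unfold w3'
    rw [dif_pos ⟨hx.1, hx.2.1, hx.2.2⟩, dif_pos ⟨hx.1, hx.2.1, hx.2.2⟩]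
    split_ifs
    · ring
    · ring
  have hsw : Sw3 Q (w3' w p₁ p₂) := sw3 (μ := μ) (s := s) (N := N) η hp hc
  have h := rob2 hsw τ l q (d := d) hL B ?_ ?_
  · have h' : ∑ S, ∑ T, ∑ U, w3 w p₁ p₂ S T U * (if B S.1 ∧ Nm τ L T.1 U.1 then 1 else 0) ≤ (1 / 2) ^ q + 3 * q * d := by
      rw [← hsum fun S T U => B S ∧ Nm τ L T U]
      convert h
    rw [sum_w3 w p₁ p₂ (fun S => if B S.1 then 1 else 0) (fun T U => if Nm τ L T.1 U.1 then 1 else 0)] at h'
    · refine le_trans (le_of_eq ?_) h'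
      congr 1
      funext S
      rw [hBb]
      congr 1
      unfold cE
      congr 1
      refine sum_congr rfl fun T _ => ?_
      split_ifs with h1
      · congr 1
        unfold mI
        have e1 : cE w p₂ (NI τ L T) T = cE w p₂ (NI τ L T) S := cE_meas w p₂ _ _ _ (hc _ _ h1)
        rw [e1]
        unfold cE
        congr 1
        refine sum_congr rfl fun U _ => ?_
        rw [hNI]
      · rfl
    · intro S T U
      by_cases h1 : B S.1
      · by_cases h2 : Nm τ L T.1 U.1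
        · simp [h1, h2]
        · simp [h1, h2]
      · simp [h1]
  · -- the alternatives given `p₁`
    intro n hn
    refine le_trans (le_of_eq (Eq.trans (by congr! 2) (hsum fun S T U => B S ∧ Nm (st τ l n) (st τ l n + l) S T))) ?_
    have e : ∀ S : Px Q, ∑ T, ∑ U, w3 w p₁ p₂ S T U * (if B S.1 ∧ Nm (st τ l n) (st τ l n + l) S.1 T.1 then 1 else 0) =
        Real.exp (w S) / gz w * ((if B S.1 then 1 else 0) * mI w p₁ (st τ l n) (st τ l n + l) S) := by
      intro S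
      have e1 : ∀ T : Px Q, ∑ U, w3 w p₁ p₂ S T U * (if B S.1 ∧ Nm (st τ l n) (st τ l n + l) S.1 T.1 then 1 else 0) =
          Real.exp (w S) / gz w * ((if B S.1 then 1 else 0) * ((if p₁ T = p₁ S then Real.exp (w T) *
            NI (st τ l n) (st τ l n + l) S T else 0) / fz w p₁ S)) := by
        intro T
        have e2 : ∀ U : Px Q, w3 w p₁ p₂ S T U * (if B S.1 ∧ Nm (st τ l n) (st τ l n + l) S.1 T.1 then 1 else 0) =
            (Real.exp (w S) / gz w * ((if B S.1 then 1 else 0) * ((if p₁ T = p₁ S then Real.exp (w T) *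
            NI (st τ l n) (st τ l n + l) S T else 0) / fz w p₁ S))) * ((if p₂ U = p₂ S then Real.exp (w U) else 0) / fz w p₂ S) := by
          intro U
          unfold w3
          rw [hNI]
          by_cases h1 : B S.1 <;> by_cases h2 : Nm (st τ l n) (st τ l n + l) S.1 T.1 <;> by_cases h3 : p₁ T = p₁ S <;>
            by_cases h4 : p₂ U = p₂ S <;> simp [h1, h2, h3, h4] <;> ring
        rw [sum_congr rfl fun U _ => e2 U, ← mul_sum, ← sum_div]
        have e3 : ∑ U, (if p₂ U = p₂ S then Real.exp (w U) else 0) = fz w p₂ S := rfl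
        rw [e3, div_self (fz_pos w p₂ S).ne', mul_one]
      rw [sum_congr rfl fun T _ => e1 T, ← mul_sum, ← mul_sum, ← sum_div]
      rfl
    rw [sum_congr rfl fun S _ => e S]
    have e4 : ∀ S ∈ (univ : Finset (Px Q)), Real.exp (w S) / gz w * ((if B S.1 then 1 else 0) *
        mI w p₁ (st τ l n) (st τ l n + l) S) ≤ Real.exp (w S) / gz w * d := by
      intro S _
      refine mul_le_mul_of_nonneg_left ?_ (div_nonneg (Real.exp_pos _).le (gz_pos w).le)
      split_ifs with h1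
      · rw [one_mul]
        obtain ⟨h2, h3⟩ := h1
        exact (h3 n hn).1
      · rw [zero_mul]
        exact hd
    refine (sum_le_sum e4).trans (le_of_eq ?_)
    rw [← sum_mul, ← sum_div]
    have e5 : ∑ S, Real.exp (w S) = gz w := rfl
    rw [e5, div_self (gz_pos w).ne', one_mul]
  · -- the alternatives given `p₂`
    intro n hn
    refine le_trans (le_of_eq (Eq.trans (by congr! 2) (hsum fun S T U => B S ∧ Nm (st τ l n) (st τ l n + l) S U))) ?_
    have e : ∀ S : Px Q, ∑ T, ∑ U, w3 w p₁ p₂ S T U * (if B S.1 ∧ Nm (st τ l n) (st τ l n + l) S.1 U.1 then 1 else 0) =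
        Real.exp (w S) / gz w * ((if B S.1 then 1 else 0) * mI w p₂ (st τ l n) (st τ l n + l) S) := by
      intro S
      rw [sum_comm]
      have e1 : ∀ U : Px Q, ∑ T, w3 w p₁ p₂ S T U * (if B S.1 ∧ Nm (st τ l n) (st τ l n + l) S.1 U.1 then 1 else 0) =
          Real.exp (w S) / gz w * ((if B S.1 then 1 else 0) * ((if p₂ U = p₂ S then Real.exp (w U) *
            NI (st τ l n) (st τ l n + l) S U else 0) / fz w p₂ S)) := by
        intro U
        have e2 : ∀ T : Px Q, w3 w p₁ p₂ S T U * (if B S.1 ∧ Nm (st τ l n) (st τ l n + l) S.1 U.1 then 1 else 0) =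
            (Real.exp (w S) / gz w * ((if B S.1 then 1 else 0) * ((if p₂ U = p₂ S then Real.exp (w U) *
            NI (st τ l n) (st τ l n + l) S U else 0) / fz w p₂ S))) * ((if p₁ T = p₁ S then Real.exp (w T) else 0) / fz w p₁ S) := by
          intro T
          unfold w3
          rw [hNI]
          by_cases h1 : B S.1 <;> by_cases h2 : Nm (st τ l n) (st τ l n + l) S.1 U.1 <;> by_cases h3 : p₁ T = p₁ S <;>
            by_cases h4 : p₂ U = p₂ S <;> simp [h1, h2, h3, h4] <;> ring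
        rw [sum_congr rfl fun T _ => e2 T, ← mul_sum, ← sum_div]
        have e3 : ∑ T, (if p₁ T = p₁ S then Real.exp (w T) else 0) = fz w p₁ S := rfl
        rw [e3, div_self (fz_pos w p₁ S).ne', mul_one]
      rw [sum_congr rfl fun U _ => e1 U, ← mul_sum, ← mul_sum, ← sum_div]
      rfl
    rw [sum_congr rfl fun S _ => e S]
    have e4 : ∀ S ∈ (univ : Finset (Px Q)), Real.exp (w S) / gz w * ((if B S.1 then 1 else 0) *
        mI w p₂ (st τ l n) (st τ l n + l) S) ≤ Real.exp (w S) / gz w * d := by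
      intro S _
      refine mul_le_mul_of_nonneg_left ?_ (div_nonneg (Real.exp_pos _).le (gz_pos w).le)
      split_ifs with h1
      · rw [one_mul]
        obtain ⟨h2, h3⟩ := h1
        exact (h3 n hn).2
      · rw [zero_mul]
        exact hd
    refine (sum_le_sum e4).trans (le_of_eq ?_)
    rw [← sum_mul, ← sum_div]
    have e5 : ∑ S, Real.exp (w S) = gz w := rfl
    rw [e5, div_self (gz_pos w).ne', one_mul]

/-! ### Events -/

/-- The mass of the pairs (`T` given `p₁ S`, `U` given `p₂ S`) without meeting in `[i, j]`. -/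
def m2 (w : Px Q → ℝ) (p₁ : Px Q → Y₁) (p₂ : Px Q → Y₂) (i j : ℕ) (S : Px Q) : ℝ := cE w p₁ (mI w p₂ i j) S

theorem m2_nonneg (w : Px Q → ℝ) (p₁ : Px Q → Y₁) (p₂ : Px Q → Y₂) (i j : ℕ) (S : Px Q) : 0 ≤ m2 w p₁ p₂ i j S :=
  cE_nonneg _ _ (fun _ => mI_nonneg _ _ _ _ _) _

/-- This mass is at least `exp (- 5 M)`. -/
def Tau2 (w : Px Q → ℝ) (p₁ : Px Q → Y₁) (p₂ : Px Q → Y₂) (i j : ℕ) (M : ℝ) (S : Px Q) : Prop :=
  Real.exp (-(5 * M)) ≤ m2 w p₁ p₂ i j S

/-- In one of the pieces the path has an alternative given `p₁` or given `p₂` with a mass of more than `exp (- 7 M)`. -/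
def Rp2 (w : Px Q → ℝ) (p₁ : Px Q → Y₁) (p₂ : Px Q → Y₂) (τ l q : ℕ) (M : ℝ) (S : Px Q) : Prop :=
  Rp w p₁ τ l q M S ∨ Rp w p₂ τ l q M S

theorem num42 {M : ℝ} (hM : 8 ≤ M) {q : ℕ} (hq : 10 * M ≤ q) (hq' : (q : ℝ) ≤ 20 * M) :
    Real.exp (5 * M) * ((1 / 2) ^ q + 3 * q * Real.exp (-(7 * M))) ≤ Real.exp (-M) := by
  have h4 : ((1 : ℝ) / 2) ^ q ≤ Real.exp (-(13 / 2 * M)) := by
    have e1 : (1 : ℝ) / 2 ≤ Real.exp (-(65 / 100)) := by
      rw [Real.exp_neg, one_div]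
      refine inv_anti₀ (Real.exp_pos _) ?_
      have : (65 / 100 : ℝ) ≤ Real.log 2 := by
        have := Real.log_two_gt_d9
        linarith
      calc Real.exp (65 / 100) ≤ Real.exp (Real.log 2) := Real.exp_le_exp.2 this
        _ = 2 := Real.exp_log (by norm_num)
    calc ((1 : ℝ) / 2) ^ q ≤ Real.exp (-(65 / 100)) ^ q := pow_le_pow_left₀ (by norm_num) e1 q
      _ = Real.exp (q * (-(65 / 100))) := (Real.exp_nat_mul _ _).symm
      _ ≤ _ := Real.exp_le_exp.2 (by linarith)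
  have e8 : 60 * M * Real.exp (-M) ≤ 1 / 2 := by
    have h6 : 120 * M ≤ Real.exp M := by
      have h7 : Real.exp M = Real.exp 8 * Real.exp (M - 8) := by
        rw [← Real.exp_add]
        congr 1
        ring
      have h8 : (960 : ℝ) ≤ Real.exp 8 := by
        have h9 : Real.exp 8 = Real.exp 1 ^ 8 := by
          rw [← Real.exp_nat_mul]
          norm_num
        rw [h9]
        have h10 : (2.7 : ℝ) ≤ Real.exp 1 := by
          have := Real.exp_one_gt_d9
          linarith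
        calc (960 : ℝ) ≤ 2.7 ^ 8 := by norm_num
          _ ≤ Real.exp 1 ^ 8 := pow_le_pow_left₀ (by norm_num) h10 8
      have h11 : M - 8 + 1 ≤ Real.exp (M - 8) := Real.add_one_le_exp _
      have h12 : 0 ≤ M - 8 := by linarith
      rw [h7]
      calc 120 * M ≤ 960 * (M - 8 + 1) := by nlinarith
        _ ≤ Real.exp 8 * Real.exp (M - 8) := by
          refine mul_le_mul h8 h11 (by linarith) (Real.exp_pos _).le
    rw [Real.exp_neg]
    have h13 : 0 < Real.exp M := Real.exp_pos _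
    rw [← div_eq_mul_inv, div_le_iff₀ h13]
    linarith
  have e7 : Real.exp (-(M / 2)) ≤ 1 / 2 := by
    have h6 : Real.exp (-(M / 2)) ≤ Real.exp (-(4 * Real.log 2)) := by
      refine Real.exp_le_exp.2 ?_
      have := Real.log_two_lt_d9
      linarith
    have h7 : Real.exp (-(4 * Real.log 2)) = 1 / 16 := by
      rw [Real.exp_neg, show (4 : ℝ) * Real.log 2 = ((4 : ℕ) : ℝ) * Real.log 2 by norm_num, Real.exp_nat_mul, Real.exp_log (by norm_num)]
      norm_num
    linarith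
  have h0 : 0 < Real.exp (-M) := Real.exp_pos _
  have a1 : Real.exp (5 * M) * Real.exp (-(13 / 2 * M)) = Real.exp (-(M / 2)) * Real.exp (-M) := by
    rw [← Real.exp_add, ← Real.exp_add]
    congr 1
    ring
  have a2 : Real.exp (5 * M) * Real.exp (-(7 * M)) = Real.exp (-M) * Real.exp (-M) := by
    rw [← Real.exp_add, ← Real.exp_add]
    congr 1
    ring
  have a3 : 3 * (q : ℝ) * (Real.exp (-M) * Real.exp (-M)) ≤ 60 * M * (Real.exp (-M) * Real.exp (-M)) :=
    mul_le_mul_of_nonneg_right (by linarith) (by positivity)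
  calc _ = Real.exp (5 * M) * (1 / 2) ^ q + 3 * q * (Real.exp (5 * M) * Real.exp (-(7 * M))) := by ring
    _ ≤ Real.exp (5 * M) * Real.exp (-(13 / 2 * M)) + 3 * q * (Real.exp (-M) * Real.exp (-M)) := by
        rw [a2]
        have := mul_le_mul_of_nonneg_left h4 (Real.exp_pos (5 * M)).le
        linarith
    _ ≤ Real.exp (-(M / 2)) * Real.exp (-M) + 60 * M * (Real.exp (-M) * Real.exp (-M)) := by
        rw [a1]
        linarith
    _ = (Real.exp (-(M / 2)) + 60 * M * Real.exp (-M)) * Real.exp (-M) := by ring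
    _ ≤ 1 * Real.exp (-M) := mul_le_mul_of_nonneg_right (by linarith) h0.le
    _ = _ := one_mul _

open Classical in
/-- **The paths with `Tau2` and without `Rp2` have mass at most `exp (- M)`.** -/
theorem tau_rp2 [MxQ Q] (η : Env) {p₁ : Px Q → Y₁} {p₂ : Px Q → Y₂} (hp : SwP p₁) (hc : Crs p₂ p₁) (τ l q : ℕ) {M : ℝ} (hM : 8 ≤ M)
    (hq : 10 * M ≤ q) (hq' : (q : ℝ) ≤ 20 * M) {L : ℕ} (hL : τ + 3 * q * (l + 1) ≤ L) :
    gm (lw μ s η N Q) (fun S => if Tau2 (lw μ s η N Q) p₁ p₂ τ L M S ∧ ¬ Rp2 (lw μ s η N Q) p₁ p₂ τ l q M S then 1 else 0) ≤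
      Real.exp (-M) := by
  set w := lw μ s η N Q with hw
  have h1 : ∀ S, (if Tau2 w p₁ p₂ τ L M S ∧ ¬ Rp2 w p₁ p₂ τ l q M S then (1 : ℝ) else 0) ≤
      Real.exp (5 * M) * (b2 w p₁ p₂ τ l q (Real.exp (-(7 * M))) S * cE w p₁ (mI w p₂ τ L) S) := by
    intro S
    have h0 : 0 ≤ b2 w p₁ p₂ τ l q (Real.exp (-(7 * M))) S := by
      unfold b2
      split_ifs <;> norm_num
    have h00 := m2_nonneg w p₁ p₂ τ L S
    split_ifs with h
    · obtain ⟨h2, h3⟩ := h
      have h4 : b2 w p₁ p₂ τ l q (Real.exp (-(7 * M))) S = 1 := by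
        unfold b2
        rw [if_pos]
        intro n hn
        unfold Rp2 Rp at h3
        push Not at h3
        exact ⟨h3.1 n hn, h3.2 n hn⟩
      rw [h4, one_mul]
      have h5 : Real.exp (5 * M) * Real.exp (-(5 * M)) = 1 := by
        rw [← Real.exp_add, add_neg_cancel, Real.exp_zero]
      rw [← h5]
      exact mul_le_mul_of_nonneg_left h2 (Real.exp_pos _).le
    · exact mul_nonneg (Real.exp_pos _).le (mul_nonneg h0 h00)
  refine (gm_mono w h1).trans ?_
  have e : gm w (fun S => Real.exp (5 * M) * (b2 w p₁ p₂ τ l q (Real.exp (-(7 * M))) S * cE w p₁ (mI w p₂ τ L) S)) =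
      Real.exp (5 * M) * gm w (fun S => b2 w p₁ p₂ τ l q (Real.exp (-(7 * M))) S * cE w p₁ (mI w p₂ τ L) S) :=
    Pool.W7d29a1.C0.gm_smul _ _ _
  rw [e]
  have h2 := rob2P (μ := μ) (s := s) (N := N) η hp hc τ l q (Real.exp_pos (-(7 * M))).le hL
  exact (mul_le_mul_of_nonneg_left h2 (Real.exp_pos _).le).trans (num42 hM hq hq')

end

end Pool.W7d29a1.C0.R42
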