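import Pool.Agent.W_7d29a1_HZ.Defs

/-!
MP_7d29a1_pr, [CURV0] / [C0]: THE ROBUST STEP (helper43).

Paths are finite sets of up steps, `pos S t` the position at the time `t`, `w` nonnegative weights of total mass at most one for
which pieces of two paths between common points can be exchanged (`SwF`: the pinned polymer `gp`, hence also the conditional law of a
block). `Nm i j S T`: the paths do not meet in `[i, j]`. The interval of length `3 q (l + 1)` behind `τ` is cut in `3 q` pieces
`[st n, st n + l]`; `mn n S` is the mass of the paths which do not meet `S` in the piece `n`, `pN` the mass of the pairs which do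
not meet in the whole interval, `gB d` the mass of the paths `S` with `mn n S ≤ d` for all `n`.

`rob : gB d * pN ≤ (1 / 2) ^ q + 3 q d`: **if two paths do not meet in a long interval with a probability which is not very small, then
(almost) EVERY path has, in some piece, an alternative with a mass which is not very small.** Proof: triples `(S, S₁, S₂)`, `S` in `B`,
`S₁`, `S₂` without meeting; for `A ⊆ range q` exchange `S` and `S₁` between their first meetings in the pieces `3 i`, `3 i + 2`,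
`i ∈ A`: then `S₁` meets `S₂` in the piece `3 i + 1` exactly for `i ∈ A`, so the `2 ^ q` images are disjoint.
-/

set_option autoImplicit false

namespace Pool.W7d29a1.C0.R43

open Finset Pool.Agent.W_7d29a1_F Pool.Agent.W_7d29a1_X Pool.Agent.W_7d29a1_HZ

noncomputable section

/-! ### Exchange of pieces -/

/-- The paths do not meet in `[i, j]`. -/
def Nm (i j : ℕ) (S T : Finset ℕ) : Prop := ∀ k : ℕ, i ≤ k → k ≤ j → pos S k ≠ pos T k

/-- The steps of `S` outside of `I`, the steps of `T` in `I`. -/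
def mx (I S T : Finset ℕ) : Finset ℕ := (S \ I) ∪ (T ∩ I)

theorem mem_mx {I S T : Finset ℕ} {t : ℕ} : t ∈ mx I S T ↔ if t ∈ I then t ∈ T else t ∈ S := by
  unfold mx
  rw [mem_union, mem_sdiff, mem_inter]
  split_ifs with h <;> simp [h]

theorem mx_mx (I S T : Finset ℕ) : mx I (mx I S T) (mx I T S) = S := by
  ext t
  rw [mem_mx]
  split_ifs with h
  · rw [mem_mx, if_pos h]
  · rw [mem_mx, if_neg h]

theorem pos_succ43 (S : Finset ℕ) (t : ℕ) : pos S (t + 1) = pos S t + if t ∈ S then 1 else 0 := by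
  unfold pos
  have h1 : S ∩ range (t + 1) = if t ∈ S then insert t (S ∩ range t) else S ∩ range t := by
    ext i
    split_ifs with h
    · rw [mem_inter, mem_range, mem_insert, mem_inter, mem_range]
      constructor
      · rintro ⟨h1, h2⟩
        rcases Nat.lt_succ_iff_lt_or_eq.1 h2 with h3 | h3
        · exact Or.inr ⟨h1, h3⟩
        · exact Or.inl h3
      · rintro (h1 | ⟨h1, h2⟩)
        · exact ⟨h1 ▸ h, by omega⟩
        · exact ⟨h1, by omega⟩
    · rw [mem_inter, mem_range, mem_inter, mem_range]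
      constructor
      · rintro ⟨h1, h2⟩
        refine ⟨h1, ?_⟩
        rcases Nat.lt_succ_iff_lt_or_eq.1 h2 with h3 | h3
        · exact h3
        · exact absurd (h3 ▸ h1) h
      · rintro ⟨h1, h2⟩
        exact ⟨h1, by omega⟩
  rw [h1]
  split_ifs with h
  · rw [card_insert_of_notMem (by simp)]
    push_cast
    ring
  · simp

/-- At the ends of the runs of `I` the two paths are at the same point. -/
def Bd (I S T : Finset ℕ) : Prop := ∀ t : ℕ, ¬ (t ∈ I ↔ t + 1 ∈ I) → pos S (t + 1) = pos T (t + 1)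

theorem Bd.symm {I S T : Finset ℕ} (h : Bd I S T) : Bd I T S := fun t ht => (h t ht).symm

/-- The positions of the mixed path. -/
theorem pos_mx {I S T : Finset ℕ} (h : Bd I S T) (t : ℕ) :
    pos (mx I S T) (t + 1) = if t ∈ I then pos T (t + 1) else pos S (t + 1) := by
  induction t with
  | zero =>
    rw [pos_succ43, pos_succ43 S, pos_succ43 T, pos_zero, pos_zero, pos_zero]
    by_cases h0 : 0 ∈ I
    · rw [if_pos h0]
      congr 1
      by_cases h1 : 0 ∈ T
      · rw [if_pos h1, if_pos (mem_mx.2 (by rw [if_pos h0]; exact h1))]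
      · rw [if_neg h1, if_neg fun h2 => h1 (by rw [mem_mx, if_pos h0] at h2; exact h2)]
    · rw [if_neg h0]
      congr 1
      by_cases h1 : 0 ∈ S
      · rw [if_pos h1, if_pos (mem_mx.2 (by rw [if_neg h0]; exact h1))]
      · rw [if_neg h1, if_neg fun h2 => h1 (by rw [mem_mx, if_neg h0] at h2; exact h2)]
  | succ t ih =>
    rw [pos_succ43, ih]
    by_cases h1 : t + 1 ∈ I
    · have e1 : (if t ∈ I then pos T (t + 1) else pos S (t + 1)) = pos T (t + 1) := by
        by_cases h0 : t ∈ I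
        · rw [if_pos h0]
        · rw [if_neg h0]
          exact h t fun h2 => h0 (h2.2 h1)
      rw [e1, if_pos h1, pos_succ43 T (t + 1)]
      congr 1
      by_cases h2 : t + 1 ∈ T
      · rw [if_pos h2, if_pos (mem_mx.2 (by rw [if_pos h1]; exact h2))]
      · rw [if_neg h2, if_neg fun h3 => h2 (by rw [mem_mx, if_pos h1] at h3; exact h3)]
    · have e1 : (if t ∈ I then pos T (t + 1) else pos S (t + 1)) = pos S (t + 1) := by
        by_cases h0 : t ∈ I
        · rw [if_pos h0]
          exact (h t fun h2 => h1 (h2.1 h0)).symm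
        · rw [if_neg h0]
      rw [e1, if_neg h1, pos_succ43 S (t + 1)]
      congr 1
      by_cases h2 : t + 1 ∈ S
      · rw [if_pos h2, if_pos (mem_mx.2 (by rw [if_neg h1]; exact h2))]
      · rw [if_neg h2, if_neg fun h3 => h2 (by rw [mem_mx, if_neg h1] at h3; exact h3)]

/-- The meeting times do not change. -/
theorem meet_mx {I S T : Finset ℕ} (h : Bd I S T) (k : ℕ) :
    pos (mx I S T) k = pos (mx I T S) k ↔ pos S k = pos T k := by
  cases k with
  | zero => simp [pos_zero]
  | succ t =>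
    rw [pos_mx h, pos_mx h.symm]
    split_ifs
    · exact eq_comm
    · exact Iff.rfl

theorem bd_mx {I S T : Finset ℕ} (h : Bd I S T) : Bd I (mx I S T) (mx I T S) :=
  fun t ht => (meet_mx h (t + 1)).2 (h t ht)

/-- The family `Q` with the weights `w`: exchange of pieces between common points. -/
structure SwF (Q : Finset (Finset ℕ)) (w : Finset ℕ → ℝ) : Prop where
  nn : ∀ S ∈ Q, 0 ≤ w S
  mem : ∀ I : Finset ℕ, ∀ S ∈ Q, ∀ T ∈ Q, Bd I S T → mx I S T ∈ Q
  mul : ∀ I : Finset ℕ, ∀ S ∈ Q, ∀ T ∈ Q, Bd I S T → w (mx I S T) * w (mx I T S) = w S * w T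
  tot : ∑ S ∈ Q, w S ≤ 1

/-! ### The pieces -/

/-- The start of the piece `n`. -/
def st (τ l n : ℕ) : ℕ := τ + n * (l + 1)

/-- The first meeting in the piece `n`. -/
def fm (τ l n : ℕ) (S T : Finset ℕ) : ℕ := sInf {k | st τ l n ≤ k ∧ k ≤ st τ l n + l ∧ pos S k = pos T k}

theorem fm_mem {τ l n : ℕ} {S T : Finset ℕ} (h : ¬ Nm (st τ l n) (st τ l n + l) S T) :
    st τ l n ≤ fm τ l n S T ∧ fm τ l n S T ≤ st τ l n + l ∧ pos S (fm τ l n S T) = pos T (fm τ l n S T) := by
  have hne : {k | st τ l n ≤ k ∧ k ≤ st τ l n + l ∧ pos S k = pos T k}.Nonempty := by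
    by_contra hcon
    rw [Set.not_nonempty_iff_eq_empty] at hcon
    refine h fun k h1 h2 h3 => ?_
    have : k ∈ ({k | st τ l n ≤ k ∧ k ≤ st τ l n + l ∧ pos S k = pos T k} : Set ℕ) := ⟨h1, h2, h3⟩
    rw [hcon] at this
    exact this
  exact Nat.sInf_mem hne

theorem fm_congr {τ l n : ℕ} {S T S' T' : Finset ℕ} (h : ∀ k, pos S' k = pos T' k ↔ pos S k = pos T k) :
    fm τ l n S' T' = fm τ l n S T := by
  unfold fm
  congr 1
  ext k
  simp only [Set.mem_ofPred_eq, h k]

/-- The exchanged rows. -/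
def IA (τ l : ℕ) (A : Finset ℕ) (S T : Finset ℕ) : Finset ℕ :=
  A.biUnion fun i => Ico (fm τ l (3 * i) S T) (fm τ l (3 * i + 2) S T)

theorem mem_IA {τ l : ℕ} {A S T : Finset ℕ} {t : ℕ} :
    t ∈ IA τ l A S T ↔ ∃ i ∈ A, fm τ l (3 * i) S T ≤ t ∧ t < fm τ l (3 * i + 2) S T := by
  unfold IA
  simp only [mem_biUnion, mem_Ico]

/-- `S` and `T` meet in the pieces `3 i`, `3 i + 2` for all `i ∈ A`. -/
def MA (τ l : ℕ) (A S T : Finset ℕ) : Prop :=
  ∀ i ∈ A, ¬ Nm (st τ l (3 * i)) (st τ l (3 * i) + l) S T ∧ ¬ Nm (st τ l (3 * i + 2)) (st τ l (3 * i + 2) + l) S T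

theorem bd_IA {τ l : ℕ} {A S T : Finset ℕ} (h : MA τ l A S T) : Bd (IA τ l A S T) S T := by
  intro t ht
  by_cases h0 : t ∈ IA τ l A S T
  · have h1 : t + 1 ∉ IA τ l A S T := fun h1 => ht ⟨fun _ => h1, fun _ => h0⟩
    obtain ⟨i, hi, h2, h3⟩ := mem_IA.1 h0
    have h4 : fm τ l (3 * i + 2) S T ≤ t + 1 := by
      by_contra h5
      exact h1 (mem_IA.2 ⟨i, hi, by omega, by omega⟩)
    have h5 : fm τ l (3 * i + 2) S T = t + 1 := by omega
    rw [← h5]
    exact (fm_mem (h i hi).2).2.2
  · have h1 : t + 1 ∈ IA τ l A S T := by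
      by_contra h1
      exact ht ⟨fun h2 => absurd h2 h0, fun h2 => absurd h2 h1⟩
    obtain ⟨i, hi, h2, h3⟩ := mem_IA.1 h1
    have h4 : t < fm τ l (3 * i) S T := by
      by_contra h5
      exact h0 (mem_IA.2 ⟨i, hi, by omega, by omega⟩)
    have h5 : fm τ l (3 * i) S T = t + 1 := by omega
    rw [← h5]
    exact (fm_mem (h i hi).1).2.2

theorem st_le {τ l n m : ℕ} (h : n < m) : st τ l n + l < st τ l m := by
  unfold st
  have h1 : (n + 1) * (l + 1) ≤ m * (l + 1) := Nat.mul_le_mul_right _ h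
  have h2 : (n + 1) * (l + 1) = n * (l + 1) + (l + 1) := by ring
  omega

theorem st_mono {τ l n m : ℕ} (h : n ≤ m) : st τ l n ≤ st τ l m := by
  unfold st
  have h1 : n * (l + 1) ≤ m * (l + 1) := Nat.mul_le_mul_right _ h
  omega

/-- The rows just before the rows of the middle piece `3 i + 1` are exchanged exactly if `i ∈ A`. -/
theorem mid_IA {τ l i t : ℕ} {A S T : Finset ℕ} (h : MA τ l A S T) (h1 : st τ l (3 * i + 1) ≤ t + 1)
    (h2 : t + 1 ≤ st τ l (3 * i + 1) + l) : t ∈ IA τ l A S T ↔ i ∈ A := by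
  constructor
  · intro h0
    obtain ⟨j, hj, h3, h4⟩ := mem_IA.1 h0
    obtain ⟨a1, a2, -⟩ := fm_mem (h j hj).1
    obtain ⟨b1, b2, -⟩ := fm_mem (h j hj).2
    rcases lt_trichotomy j i with hji | hji | hji
    · exfalso
      have g1 : st τ l (3 * j + 2) + l < st τ l (3 * i) := st_le (by omega)
      have g2 : st τ l (3 * i) + l < st τ l (3 * i + 1) := st_le (by omega)
      omega
    · exact hji ▸ hj
    · exfalso
      have g1 : st τ l (3 * i + 1) + l < st τ l (3 * j) := st_le (by omega)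
      omega
  · intro hi
    obtain ⟨a1, a2, -⟩ := fm_mem (h i hi).1
    obtain ⟨b1, b2, -⟩ := fm_mem (h i hi).2
    have g1 : st τ l (3 * i) + l < st τ l (3 * i + 1) := st_le (by omega)
    have g2 : st τ l (3 * i + 1) + l < st τ l (3 * i + 2) := st_le (by omega)
    exact mem_IA.2 ⟨i, hi, by omega, by omega⟩

/-- The positions in the middle piece after the exchange. -/
theorem pos_mid {τ l i k : ℕ} {A S T : Finset ℕ} (h : MA τ l A S T) (h1 : st τ l (3 * i + 1) ≤ k)
    (h2 : k ≤ st τ l (3 * i + 1) + l) :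
    pos (mx (IA τ l A S T) T S) k = if i ∈ A then pos S k else pos T k := by
  have h3 : 1 ≤ st τ l (3 * i + 1) := by
    unfold st
    have : 1 * (l + 1) ≤ (3 * i + 1) * (l + 1) := Nat.mul_le_mul_right _ (by omega)
    omega
  obtain ⟨t, rfl⟩ : ∃ t, k = t + 1 := ⟨k - 1, by omega⟩
  rw [pos_mx (bd_IA h).symm]
  by_cases hi : i ∈ A
  · rw [if_pos ((mid_IA h h1 h2).2 hi), if_pos hi]
  · rw [if_neg fun h4 => hi ((mid_IA h h1 h2).1 h4), if_neg hi]

/-! ### The map on triples -/

/-- The exchange of `S` and `S₁`. -/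
def Ph (τ l : ℕ) (A : Finset ℕ) (x : Finset ℕ × Finset ℕ × Finset ℕ) : Finset ℕ × Finset ℕ × Finset ℕ :=
  (mx (IA τ l A x.1 x.2.1) x.1 x.2.1, mx (IA τ l A x.1 x.2.1) x.2.1 x.1, x.2.2)

theorem Ph_Ph {τ l : ℕ} {A : Finset ℕ} {x : Finset ℕ × Finset ℕ × Finset ℕ} (h : MA τ l A x.1 x.2.1) :
    Ph τ l A (Ph τ l A x) = x := by
  have e : IA τ l A (Ph τ l A x).1 (Ph τ l A x).2.1 = IA τ l A x.1 x.2.1 := by
    unfold IA
    refine biUnion_congr rfl fun i _ => ?_
    have hm : ∀ k, pos (Ph τ l A x).1 k = pos (Ph τ l A x).2.1 k ↔ pos x.1 k = pos x.2.1 k := meet_mx (bd_IA h)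
    rw [fm_congr hm, fm_congr hm]
  show (mx (IA τ l A (Ph τ l A x).1 (Ph τ l A x).2.1) (Ph τ l A x).1 (Ph τ l A x).2.1,
    mx (IA τ l A (Ph τ l A x).1 (Ph τ l A x).2.1) (Ph τ l A x).2.1 (Ph τ l A x).1, (Ph τ l A x).2.2) = x
  rw [e]
  refine Prod.ext ?_ (Prod.ext ?_ rfl)
  · exact mx_mx _ _ _
  · exact mx_mx _ _ _

variable {Q : Finset (Finset ℕ)} {w : Finset ℕ → ℝ}

open Classical in
/-- The triples which can be exchanged. -/
def Gd (Q : Finset (Finset ℕ)) (τ l q : ℕ) : Finset (Finset ℕ × Finset ℕ × Finset ℕ) :=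
  (Q ×ˢ Q ×ˢ Q).filter fun x => MA τ l (range q) x.1 x.2.1 ∧
    (∀ i ∈ range q, ¬ Nm (st τ l (3 * i + 1)) (st τ l (3 * i + 1) + l) x.1 x.2.2) ∧
    ∀ i ∈ range q, Nm (st τ l (3 * i + 1)) (st τ l (3 * i + 1) + l) x.2.1 x.2.2

/-- The weight of a triple. -/
def wt (w : Finset ℕ → ℝ) (x : Finset ℕ × Finset ℕ × Finset ℕ) : ℝ := w x.1 * w x.2.1 * w x.2.2

theorem MA.sub {τ l : ℕ} {A A' S T : Finset ℕ} (h : MA τ l A S T) (hA : A' ⊆ A) : MA τ l A' S T := fun i hi => h i (hA hi)

theorem ph_mem (h : SwF Q w) {τ l q : ℕ} {A : Finset ℕ} (hA : A ⊆ range q) {x : Finset ℕ × Finset ℕ × Finset ℕ}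
    (hx : x ∈ Gd Q τ l q) : Ph τ l A x ∈ Q ×ˢ Q ×ˢ Q ∧ wt w (Ph τ l A x) = wt w x := by
  classical
  unfold Gd at hx
  rw [mem_filter, mem_product, mem_product] at hx
  obtain ⟨⟨h1, h2, h3⟩, h4, -, -⟩ := hx
  have hb := bd_IA (h4.sub hA)
  refine ⟨?_, ?_⟩
  · rw [mem_product, mem_product]
    exact ⟨h.mem _ _ h1 _ h2 hb, h.mem _ _ h2 _ h1 hb.symm, h3⟩
  · show w (mx _ x.1 x.2.1) * w (mx _ x.2.1 x.1) * w x.2.2 = w x.1 * w x.2.1 * w x.2.2
    rw [h.mul _ _ h1 _ h2 hb]

/-- The pattern of the meetings of `S₁` and `S₂` after the exchange. -/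
theorem ph_pat {τ l q : ℕ} {A : Finset ℕ} (hA : A ⊆ range q) {x : Finset ℕ × Finset ℕ × Finset ℕ} (hx : x ∈ Gd Q τ l q)
    {i : ℕ} (hi : i ∈ range q) :
    ¬ Nm (st τ l (3 * i + 1)) (st τ l (3 * i + 1) + l) (Ph τ l A x).2.1 (Ph τ l A x).2.2 ↔ i ∈ A := by
  classical
  unfold Gd at hx
  rw [mem_filter] at hx
  obtain ⟨-, h4, h5, h6⟩ := hx
  have hM := h4.sub hA
  have e : ∀ k, st τ l (3 * i + 1) ≤ k → k ≤ st τ l (3 * i + 1) + l →
      pos (Ph τ l A x).2.1 k = if i ∈ A then pos x.1 k else pos x.2.1 k := fun k hk1 hk2 => pos_mid hM hk1 hk2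
  by_cases hiA : i ∈ A
  · refine iff_of_true (fun hn => h5 i hi fun k hk1 hk2 => ?_) hiA
    have := hn k hk1 hk2
    rw [e k hk1 hk2, if_pos hiA] at this
    exact this
  · refine iff_of_false (fun hn => hn fun k hk1 hk2 => ?_) hiA
    rw [e k hk1 hk2, if_neg hiA]
    exact h6 i hi k hk1 hk2

/-- **The entropy bound.** -/
theorem gd_le (h : SwF Q w) (τ l q : ℕ) : 2 ^ q * ∑ x ∈ Gd Q τ l q, wt w x ≤ 1 := by
  classical
  have hw0 : ∀ x ∈ Q ×ˢ Q ×ˢ Q, 0 ≤ wt w x := by
    intro x hx
    rw [mem_product, mem_product] at hx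
    exact mul_nonneg (mul_nonneg (h.nn _ hx.1) (h.nn _ hx.2.1)) (h.nn _ hx.2.2)
  have hinj : ∀ A ⊆ range q, Set.InjOn (Ph τ l A) (Gd Q τ l q : Set (Finset ℕ × Finset ℕ × Finset ℕ)) := by
    intro A hA x hx x' hx' hxx
    have h1 : MA τ l A x.1 x.2.1 := by
      have := (mem_filter.1 (mem_coe.1 hx)).2.1
      exact this.sub hA
    have h2 : MA τ l A x'.1 x'.2.1 := by
      have := (mem_filter.1 (mem_coe.1 hx')).2.1
      exact this.sub hA
    rw [← Ph_Ph h1, ← Ph_Ph h2, hxx]
  have hdis : Set.PairwiseDisjoint ((range q).powerset : Set (Finset ℕ)) fun A => (Gd Q τ l q).image (Ph τ l A) := by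
    intro A hA A' hA' hne
    rw [mem_coe, mem_powerset] at hA hA'
    rw [Function.onFun, disjoint_left]
    intro z hz hz'
    rw [mem_image] at hz hz'
    obtain ⟨x, hx, hxz⟩ := hz
    obtain ⟨x', hx', hxz'⟩ := hz'
    refine hne ?_
    ext i
    by_cases hi : i ∈ range q
    · rw [← ph_pat hA hx hi, ← ph_pat hA' hx' hi, hxz, hxz']
    · exact iff_of_false (fun h1 => hi (hA h1)) fun h1 => hi (hA' h1)
  have e1 : ∑ A ∈ (range q).powerset, ∑ z ∈ (Gd Q τ l q).image (Ph τ l A), wt w z = 2 ^ q * ∑ x ∈ Gd Q τ l q, wt w x := by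
    rw [sum_congr rfl fun A hA => ?_, sum_const, card_powerset, card_range, nsmul_eq_mul]
    · push_cast
      rfl
    · rw [mem_powerset] at hA
      rw [sum_image (hinj A hA)]
      exact sum_congr rfl fun x hx => (ph_mem h hA hx).2
  rw [← e1, ← sum_biUnion hdis]
  calc _ ≤ ∑ z ∈ Q ×ˢ Q ×ˢ Q, wt w z := by
        refine sum_le_sum_of_subset_of_nonneg ?_ fun z hz _ => hw0 z hz
        intro z hz
        rw [mem_biUnion] at hz
        obtain ⟨A, hA, hz⟩ := hz
        rw [mem_powerset] at hA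
        rw [mem_image] at hz
        obtain ⟨x, hx, rfl⟩ := hz
        exact (ph_mem h hA hx).1
    _ = (∑ S ∈ Q, w S) * ((∑ S ∈ Q, w S) * ∑ S ∈ Q, w S) := by
        rw [sum_product, sum_mul]
        refine sum_congr rfl fun S _ => ?_
        rw [sum_product, sum_mul, mul_sum]
        refine sum_congr rfl fun T _ => ?_
        rw [mul_sum, mul_sum]
        refine sum_congr rfl fun U _ => ?_
        show w S * w T * w U = w S * (w T * w U)
        ring
    _ ≤ 1 := by
        have h0 : 0 ≤ ∑ S ∈ Q, w S := sum_nonneg h.nn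
        have h1 := h.tot
        calc _ ≤ (1 : ℝ) * (1 * 1) := by gcongr
          _ = 1 := by norm_num

/-! ### The lemma -/

open Classical in
/-- The mass of the paths which do not meet `S` in the piece `n`. -/
def mn (Q : Finset (Finset ℕ)) (w : Finset ℕ → ℝ) (τ l n : ℕ) (S : Finset ℕ) : ℝ :=
  ∑ T ∈ Q, if Nm (st τ l n) (st τ l n + l) S T then w T else 0

open Classical in
/-- The mass of the paths with `mn n S ≤ d` in all the pieces. -/
def gB (Q : Finset (Finset ℕ)) (w : Finset ℕ → ℝ) (τ l q : ℕ) (d : ℝ) : ℝ :=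
  ∑ S ∈ Q, if ∀ n < 3 * q, mn Q w τ l n S ≤ d then w S else 0

open Classical in
/-- The mass of the pairs which do not meet in `[i, j]`. -/
def pN (Q : Finset (Finset ℕ)) (w : Finset ℕ → ℝ) (i j : ℕ) : ℝ :=
  ∑ S ∈ Q, ∑ T ∈ Q, if Nm i j S T then w S * w T else 0

theorem st_end {τ l q n : ℕ} (hn : n < 3 * q) : st τ l n + l ≤ τ + 3 * q * (l + 1) := by
  have h1 : st τ l n + l < st τ l (3 * q) := st_le hn
  unfold st at h1 ⊢
  omega

theorem le_st (τ l n : ℕ) : τ ≤ st τ l n := by
  unfold st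
  omega

/-- **THE ROBUST STEP.** -/
theorem rob (h : SwF Q w) (τ l q : ℕ) {d : ℝ} (hd : 0 ≤ d) {L : ℕ} (hL : τ + 3 * q * (l + 1) ≤ L) :
    gB Q w τ l q d * pN Q w τ L ≤ (1 / 2) ^ q + 3 * q * d := by
  classical
  have hw0 := h.nn
  have htot := h.tot
  have h0 : 0 ≤ ∑ S ∈ Q, w S := sum_nonneg hw0
  set B : Finset ℕ → Prop := fun S => ∀ n < 3 * q, mn Q w τ l n S ≤ d with hB
  -- the product as a sum over triples
  have e1 : gB Q w τ l q d * pN Q w τ L = ∑ S ∈ Q, ∑ T ∈ Q, ∑ U ∈ Q, if B S ∧ Nm τ L T U then w S * w T * w U else 0 := by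
    unfold gB pN
    rw [sum_mul]
    refine sum_congr rfl fun S _ => ?_
    rw [mul_sum]
    refine sum_congr rfl fun T _ => ?_
    rw [mul_sum]
    refine sum_congr rfl fun U _ => ?_
    by_cases h1 : B S
    · by_cases h2 : Nm τ L T U
      · rw [if_pos h1, if_pos h2, if_pos ⟨h1, h2⟩]
        ring
      · rw [if_neg h2, if_neg (show ¬ (B S ∧ Nm τ L T U) from fun h3 => h2 h3.2), mul_zero]
    · rw [if_neg (show ¬ (∀ n < 3 * q, mn Q w τ l n S ≤ d) from h1), if_neg (show ¬ (B S ∧ Nm τ L T U) from fun h3 => h1 h3.1),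
        zero_mul]
  -- pointwise: good triple or a missing meeting
  have key : ∀ S ∈ Q, ∀ T ∈ Q, ∀ U ∈ Q, (if B S ∧ Nm τ L T U then w S * w T * w U else 0) ≤
      (if (S, T, U) ∈ Gd Q τ l q then w S * w T * w U else 0) +
      ∑ n ∈ range (3 * q), ((if B S ∧ n % 3 ≠ 1 ∧ Nm (st τ l n) (st τ l n + l) S T then w S * w T * w U else 0) +
        (if B S ∧ n % 3 = 1 ∧ Nm (st τ l n) (st τ l n + l) S U then w S * w T * w U else 0)) := by
    intro S hS T hT U hU
    have hp : 0 ≤ w S * w T * w U := mul_nonneg (mul_nonneg (hw0 S hS) (hw0 T hT)) (hw0 U hU)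
    have hsn : ∀ n, 0 ≤ (if B S ∧ n % 3 ≠ 1 ∧ Nm (st τ l n) (st τ l n + l) S T then w S * w T * w U else 0) +
        (if B S ∧ n % 3 = 1 ∧ Nm (st τ l n) (st τ l n + l) S U then w S * w T * w U else 0) := by
      intro n
      have a1 : 0 ≤ (if B S ∧ n % 3 ≠ 1 ∧ Nm (st τ l n) (st τ l n + l) S T then w S * w T * w U else 0) := by
        split_ifs
        · exact hp
        · exact le_rfl
      have a2 : 0 ≤ (if B S ∧ n % 3 = 1 ∧ Nm (st τ l n) (st τ l n + l) S U then w S * w T * w U else 0) := by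
        split_ifs
        · exact hp
        · exact le_rfl
      exact add_nonneg a1 a2
    have hsum0 := sum_nonneg fun n (_ : n ∈ range (3 * q)) => hsn n
    have hg0 : 0 ≤ (if (S, T, U) ∈ Gd Q τ l q then w S * w T * w U else 0) := by
      split_ifs
      · exact hp
      · exact le_rfl
    by_cases hBN : B S ∧ Nm τ L T U
    · rw [if_pos hBN]
      by_cases hg : (S, T, U) ∈ Gd Q τ l q
      · rw [if_pos hg]
        linarith
      · -- some meeting is missing
        have hex : ∃ n ∈ range (3 * q), (n % 3 ≠ 1 ∧ Nm (st τ l n) (st τ l n + l) S T) ∨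
            (n % 3 = 1 ∧ Nm (st τ l n) (st τ l n + l) S U) := by
          by_contra hcon
          push Not at hcon
          refine hg ?_
          unfold Gd
          rw [mem_filter, mem_product, mem_product]
          refine ⟨⟨hS, hT, hU⟩, ?_, ?_, ?_⟩
          · intro i hi
            rw [mem_range] at hi
            refine ⟨(hcon (3 * i) (mem_range.2 (by omega))).1 (by omega),
              (hcon (3 * i + 2) (mem_range.2 (by omega))).1 (by omega)⟩
          · intro i hi
            rw [mem_range] at hi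
            exact (hcon (3 * i + 1) (mem_range.2 (by omega))).2 (by omega)
          · intro i hi k hk1 hk2
            rw [mem_range] at hi
            have g1 := le_st τ l (3 * i + 1)
            have g2 := st_end (τ := τ) (l := l) (q := q) (n := 3 * i + 1) (by omega)
            exact hBN.2 k (by omega) (by omega)
        obtain ⟨n, hn, hor⟩ := hex
        have h1 : w S * w T * w U ≤ (if B S ∧ n % 3 ≠ 1 ∧ Nm (st τ l n) (st τ l n + l) S T then w S * w T * w U else 0) +
            (if B S ∧ n % 3 = 1 ∧ Nm (st τ l n) (st τ l n + l) S U then w S * w T * w U else 0) := by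
          rcases hor with ho | ho
          · rw [if_pos ⟨hBN.1, ho⟩]
            have : 0 ≤ (if B S ∧ n % 3 = 1 ∧ Nm (st τ l n) (st τ l n + l) S U then w S * w T * w U else 0) := by
              split_ifs
              · exact hp
              · exact le_rfl
            linarith
          · rw [if_pos (show B S ∧ n % 3 = 1 ∧ Nm (st τ l n) (st τ l n + l) S U from ⟨hBN.1, ho⟩)]
            have : 0 ≤ (if B S ∧ n % 3 ≠ 1 ∧ Nm (st τ l n) (st τ l n + l) S T then w S * w T * w U else 0) := by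
              split_ifs
              · exact hp
              · exact le_rfl
            linarith
        have h2 := single_le_sum (f := fun n => (if B S ∧ n % 3 ≠ 1 ∧ Nm (st τ l n) (st τ l n + l) S T then w S * w T * w U else 0) +
            (if B S ∧ n % 3 = 1 ∧ Nm (st τ l n) (st τ l n + l) S U then w S * w T * w U else 0)) (fun n _ => hsn n) hn
        linarith
    · rw [if_neg hBN]
      linarith
  -- the missing meetings cost `d`
  have hmiss : ∀ n ∈ range (3 * q), ∑ S ∈ Q, ∑ T ∈ Q, ∑ U ∈ Q,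
      ((if B S ∧ n % 3 ≠ 1 ∧ Nm (st τ l n) (st τ l n + l) S T then w S * w T * w U else 0) +
        (if B S ∧ n % 3 = 1 ∧ Nm (st τ l n) (st τ l n + l) S U then w S * w T * w U else 0)) ≤ d := by
    intro n hn
    rw [mem_range] at hn
    have hS1 : ∀ S ∈ Q, ∑ T ∈ Q, ∑ U ∈ Q,
        ((if B S ∧ n % 3 ≠ 1 ∧ Nm (st τ l n) (st τ l n + l) S T then w S * w T * w U else 0) +
          (if B S ∧ n % 3 = 1 ∧ Nm (st τ l n) (st τ l n + l) S U then w S * w T * w U else 0)) ≤ w S * d := by
      intro S hS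
      by_cases hBS : B S
      · have hm := hBS n hn
        have hm0 : 0 ≤ mn Q w τ l n S := by
          unfold mn
          refine sum_nonneg fun T hT => ?_
          split_ifs
          · exact hw0 T hT
          · exact le_rfl
        by_cases h3 : n % 3 = 1
        · have e2 : ∑ T ∈ Q, ∑ U ∈ Q, ((if B S ∧ n % 3 ≠ 1 ∧ Nm (st τ l n) (st τ l n + l) S T then w S * w T * w U else 0) +
              (if B S ∧ n % 3 = 1 ∧ Nm (st τ l n) (st τ l n + l) S U then w S * w T * w U else 0)) =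
              w S * ((∑ T ∈ Q, w T) * mn Q w τ l n S) := by
            unfold mn
            rw [sum_mul, mul_sum]
            refine sum_congr rfl fun T _ => ?_
            rw [mul_sum, mul_sum]
            refine sum_congr rfl fun U _ => ?_
            rw [if_neg fun h4 => h4.2.1 h3, zero_add]
            by_cases h5 : Nm (st τ l n) (st τ l n + l) S U
            · rw [if_pos ⟨hBS, h3, h5⟩, if_pos h5]
              ring
            · rw [if_neg fun h6 => h5 h6.2.2, if_neg h5]
              ring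
          rw [e2]
          refine mul_le_mul_of_nonneg_left ?_ (hw0 S hS)
          calc _ ≤ 1 * d := by gcongr
            _ = d := one_mul d
        · have e2 : ∑ T ∈ Q, ∑ U ∈ Q, ((if B S ∧ n % 3 ≠ 1 ∧ Nm (st τ l n) (st τ l n + l) S T then w S * w T * w U else 0) +
              (if B S ∧ n % 3 = 1 ∧ Nm (st τ l n) (st τ l n + l) S U then w S * w T * w U else 0)) =
              w S * (mn Q w τ l n S * ∑ U ∈ Q, w U) := by
            unfold mn
            rw [sum_mul, mul_sum]
            refine sum_congr rfl fun T _ => ?_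
            rw [mul_sum, mul_sum]
            refine sum_congr rfl fun U _ => ?_
            rw [if_neg (show ¬ (B S ∧ n % 3 = 1 ∧ Nm (st τ l n) (st τ l n + l) S U) from fun h4 => h3 h4.2.1), add_zero]
            by_cases h5 : Nm (st τ l n) (st τ l n + l) S T
            · rw [if_pos ⟨hBS, h3, h5⟩, if_pos h5]
              ring
            · rw [if_neg fun h6 => h5 h6.2.2, if_neg h5]
              ring
          rw [e2]
          refine mul_le_mul_of_nonneg_left ?_ (hw0 S hS)
          calc _ ≤ d * 1 := by gcongr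
            _ = d := mul_one d
      · rw [sum_eq_zero fun T _ => sum_eq_zero fun U _ => by
          rw [if_neg fun h4 => hBS h4.1, if_neg fun h4 => hBS h4.1, add_zero]]
        exact mul_nonneg (hw0 S hS) hd
    refine (sum_le_sum hS1).trans ?_
    rw [← sum_mul]
    calc _ ≤ 1 * d := by gcongr
      _ = d := one_mul d
  rw [e1]
  have e3 : ∑ S ∈ Q, ∑ T ∈ Q, ∑ U ∈ Q, (if (S, T, U) ∈ Gd Q τ l q then w S * w T * w U else 0) =
      ∑ x ∈ Gd Q τ l q, wt w x := by
    have e4 : ∑ x ∈ Q ×ˢ Q ×ˢ Q, (if x ∈ Gd Q τ l q then wt w x else 0) = ∑ x ∈ Gd Q τ l q, wt w x := by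
      rw [← sum_filter]
      refine sum_congr ?_ fun _ _ => rfl
      ext x
      rw [mem_filter]
      refine ⟨fun h1 => h1.2, fun h1 => ⟨?_, h1⟩⟩
      unfold Gd at h1
      exact (mem_filter.1 h1).1
    rw [← e4, sum_product]
    refine sum_congr rfl fun S _ => ?_
    rw [sum_product]
    rfl
  have hgd := gd_le h τ l q
  have hgd' : ∑ x ∈ Gd Q τ l q, wt w x ≤ (1 / 2) ^ q := by
    rw [one_div, inv_pow]
    rw [← one_div, le_div_iff₀ (by positivity)]
    linarith
  calc _ ≤ ∑ S ∈ Q, ∑ T ∈ Q, ∑ U ∈ Q, ((if (S, T, U) ∈ Gd Q τ l q then w S * w T * w U else 0) +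
      ∑ n ∈ range (3 * q), ((if B S ∧ n % 3 ≠ 1 ∧ Nm (st τ l n) (st τ l n + l) S T then w S * w T * w U else 0) +
        (if B S ∧ n % 3 = 1 ∧ Nm (st τ l n) (st τ l n + l) S U then w S * w T * w U else 0))) :=
        sum_le_sum fun S hS => sum_le_sum fun T hT => sum_le_sum fun U hU => key S hS T hT U hU
    _ = ∑ x ∈ Gd Q τ l q, wt w x + ∑ n ∈ range (3 * q), ∑ S ∈ Q, ∑ T ∈ Q, ∑ U ∈ Q,
        ((if B S ∧ n % 3 ≠ 1 ∧ Nm (st τ l n) (st τ l n + l) S T then w S * w T * w U else 0) +
        (if B S ∧ n % 3 = 1 ∧ Nm (st τ l n) (st τ l n + l) S U then w S * w T * w U else 0)) := by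
        rw [← e3, sum_comm (s := range (3 * q)), ← sum_add_distrib]
        refine sum_congr rfl fun S _ => ?_
        rw [sum_comm (s := range (3 * q)), ← sum_add_distrib]
        refine sum_congr rfl fun T _ => ?_
        rw [sum_comm (s := range (3 * q)), ← sum_add_distrib]
    _ ≤ (1 / 2) ^ q + ∑ n ∈ range (3 * q), d := add_le_add hgd' (sum_le_sum hmiss)
    _ = (1 / 2) ^ q + 3 * q * d := by
        rw [sum_const, card_range, nsmul_eq_mul]
        push_cast
        ring

/-! ### The polymer -/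

/-- The weights of a path after an exchange. -/
theorem pth_mx {μ : MeasureTheory.Measure ℝ} {s : ℝ} (η : Env) (N : ℕ) {I S T : Finset ℕ} (h : Bd I S T) :
    pth μ s η N (mx I S T) * pth μ s η N (mx I T S) = pth μ s η N S * pth μ s η N T := by
  unfold pth
  have e1 : pos (mx I S T) N + pos (mx I T S) N = pos S N + pos T N := by
    cases N with
    | zero => simp [pos_zero]
    | succ t =>
      rw [pos_mx h, pos_mx h.symm]
      split_ifs
      · ring
      · rfl
  have e2 : (∏ i ∈ range N, Real.exp (η ((i : ℤ) + 1, pos (mx I S T) (i + 1)))) *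
      ∏ i ∈ range N, Real.exp (η ((i : ℤ) + 1, pos (mx I T S) (i + 1))) =
      (∏ i ∈ range N, Real.exp (η ((i : ℤ) + 1, pos S (i + 1)))) * ∏ i ∈ range N, Real.exp (η ((i : ℤ) + 1, pos T (i + 1))) := by
    rw [← prod_mul_distrib, ← prod_mul_distrib]
    refine prod_congr rfl fun i _ => ?_
    rw [pos_mx h, pos_mx h.symm]
    split_ifs
    · exact mul_comm _ _
    · rfl
  have e3 : Real.exp (s * (pos (mx I S T) N : ℝ) - N * lam μ s) * Real.exp (s * (pos (mx I T S) N : ℝ) - N * lam μ s) =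
      Real.exp (s * (pos S N : ℝ) - N * lam μ s) * Real.exp (s * (pos T N : ℝ) - N * lam μ s) := by
    rw [← Real.exp_add, ← Real.exp_add]
    congr 1
    have e4 : (pos (mx I S T) N : ℝ) + pos (mx I T S) N = pos S N + pos T N := by exact_mod_cast e1
    linear_combination s * e4
  calc _ = (Real.exp (s * (pos (mx I S T) N : ℝ) - N * lam μ s) * Real.exp (s * (pos (mx I T S) N : ℝ) - N * lam μ s)) *
      ((∏ i ∈ range N, Real.exp (η ((i : ℤ) + 1, pos (mx I S T) (i + 1)))) *
      ∏ i ∈ range N, Real.exp (η ((i : ℤ) + 1, pos (mx I T S) (i + 1)))) := by ring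
    _ = _ := by rw [e2, e3]; ring

theorem mx_sub {N : ℕ} {I S T : Finset ℕ} (hS : S ⊆ range N) (hT : T ⊆ range N) : mx I S T ⊆ range N :=
  union_subset (sdiff_subset.trans hS) (inter_subset_left.trans hT)

/-- At every time the two mixed paths are at the two positions of `S` and `T`. -/
theorem pos_mx_or {I S T : Finset ℕ} (h : Bd I S T) (k : ℕ) :
    (pos (mx I S T) k = pos S k ∧ pos (mx I T S) k = pos T k) ∨ (pos (mx I S T) k = pos T k ∧ pos (mx I T S) k = pos S k) := by
  cases k with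
  | zero => simp [pos_zero]
  | succ t =>
    rw [pos_mx h, pos_mx h.symm]
    split_ifs
    · exact Or.inr ⟨rfl, rfl⟩
    · exact Or.inl ⟨rfl, rfl⟩

/-- **The pinned polymer.** -/
theorem swF_gp (μ : MeasureTheory.Measure ℝ) (s : ℝ) (η : Env) (m : ℕ) (y : ℤ) : SwF (range m).powerset (gp μ s η m y) where
  nn S _ := by
    unfold gp
    split_ifs
    · refine div_nonneg (pth_nonneg _ _ _) ?_
      rw [← Mt_one]
      unfold Mt
      exact sum_nonneg fun T _ => by
        split_ifs
        · rw [mul_one]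
          exact pth_nonneg _ _ _
        · exact le_rfl
    · exact le_rfl
  mem I S hS T hT _ := by
    rw [mem_powerset] at hS hT ⊢
    exact mx_sub hS hT
  mul I S _ T _ h := by
    have h2 := pth_mx (μ := μ) (s := s) η m h
    unfold gp
    rcases pos_mx_or h m with ⟨h3, h4⟩ | ⟨h3, h4⟩
    · rw [h3, h4]
      by_cases h5 : pos S m = y <;> by_cases h6 : pos T m = y
      · rw [if_pos h5, if_pos h6, if_pos h5, if_pos h6, div_mul_div_comm, div_mul_div_comm, h2]
      · rw [if_neg h6, if_neg h6, mul_zero, mul_zero]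
      · rw [if_neg h5, if_neg h5, zero_mul, zero_mul]
      · rw [if_neg h5, if_neg h5, zero_mul, zero_mul]
    · rw [h3, h4]
      by_cases h5 : pos S m = y <;> by_cases h6 : pos T m = y
      · rw [if_pos h5, if_pos h6, if_pos h5, if_pos h6, div_mul_div_comm, div_mul_div_comm, h2]
      · rw [if_neg h6, if_neg h6, mul_zero, zero_mul]
      · rw [if_neg h5, if_neg h5, zero_mul, mul_zero]
      · rw [if_neg h5, if_neg h5, zero_mul, mul_zero]
  tot := by
    have h1 : ∑ S ∈ (range m).powerset, gp μ s η m y S = W μ s η 0 m y / W μ s η 0 m y := by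
      conv_rhs => lhs; rw [← Mt_one]
      unfold Mt
      rw [sum_div]
      refine sum_congr rfl fun S _ => ?_
      unfold gp
      split_ifs
      · rw [mul_one]
      · rw [zero_div]
    rw [h1]
    exact div_self_le_one _

/-! ### The robust form with numbers -/

/-- **If two independent paths do not meet in `[τ, L]` with probability at least `exp (- 5 M)`, then all paths up to a mass
`exp (- M)` have, in one of the `3 q` pieces, an alternative of mass more than `exp (- 7 M)`.** -/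
theorem rob_tau (h : SwF Q w) (τ l q : ℕ) {M : ℝ} (hM : 8 ≤ M) (hq : 10 * M ≤ q) (hq' : (q : ℝ) ≤ 20 * M) {L : ℕ}
    (hL : τ + 3 * q * (l + 1) ≤ L) (hp : Real.exp (-(5 * M)) ≤ pN Q w τ L) :
    gB Q w τ l q (Real.exp (-(7 * M))) ≤ Real.exp (-M) := by
  have h1 := rob h τ l q (Real.exp_pos (-(7 * M))).le hL
  have h2 : 0 ≤ gB Q w τ l q (Real.exp (-(7 * M))) := by
    unfold gB
    refine sum_nonneg fun S hS => ?_
    split_ifs
    · exact h.nn S hS
    · exact le_rfl
  have h3 : gB Q w τ l q (Real.exp (-(7 * M))) * Real.exp (-(5 * M)) ≤ (1 / 2) ^ q + 3 * q * Real.exp (-(7 * M)) :=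
    (mul_le_mul_of_nonneg_left hp h2).trans h1
  have h4 : ((1 : ℝ) / 2) ^ q ≤ Real.exp (-(13 / 2 * M)) := by
    have e1 : (1 : ℝ) / 2 ≤ Real.exp (-(65 / 100)) := by
      rw [Real.exp_neg, one_div]
      refine inv_anti₀ (Real.exp_pos _) ?_
      have : (65 / 100 : ℝ) ≤ Real.log 2 := by
        have := Real.log_two_gt_d9
        linarith
      calc Real.exp (65 / 100) ≤ Real.exp (Real.log 2) := Real.exp_le_exp.2 this
        _ = 2 := Real.exp_log (by norm_num)
    calc ((1 : ℝ) / 2) ^ q ≤ Real.exp (-(65 / 100)) ^ q := pow_le_pow_left₀ (by norm_num) e1 q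
      _ = Real.exp (q * (-(65 / 100))) := (Real.exp_nat_mul _ _).symm
      _ ≤ _ := Real.exp_le_exp.2 (by linarith)
  have h5 : gB Q w τ l q (Real.exp (-(7 * M))) ≤ Real.exp (-(3 / 2 * M)) + 60 * M * Real.exp (-(2 * M)) := by
    have e1 : (0 : ℝ) < Real.exp (-(5 * M)) := Real.exp_pos _
    rw [← mul_le_mul_iff_left₀ e1]
    refine h3.trans ?_
    have e2 : Real.exp (-(13 / 2 * M)) = Real.exp (-(3 / 2 * M)) * Real.exp (-(5 * M)) := by
      rw [← Real.exp_add]
      congr 1
      ring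
    have e3 : Real.exp (-(7 * M)) = Real.exp (-(2 * M)) * Real.exp (-(5 * M)) := by
      rw [← Real.exp_add]
      congr 1
      ring
    have e4 : 3 * (q : ℝ) * Real.exp (-(7 * M)) ≤ 60 * M * Real.exp (-(2 * M)) * Real.exp (-(5 * M)) := by
      rw [e3]
      have : 0 ≤ Real.exp (-(2 * M)) * Real.exp (-(5 * M)) := by positivity
      nlinarith
    calc _ ≤ Real.exp (-(3 / 2 * M)) * Real.exp (-(5 * M)) + 60 * M * Real.exp (-(2 * M)) * Real.exp (-(5 * M)) :=
          add_le_add (h4.trans e2.le) e4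
      _ = _ := by ring
  refine h5.trans ?_
  have e5 : Real.exp (-(3 / 2 * M)) = Real.exp (-(M / 2)) * Real.exp (-M) := by
    rw [← Real.exp_add]
    congr 1
    ring
  have e6 : Real.exp (-(2 * M)) = Real.exp (-M) * Real.exp (-M) := by
    rw [← Real.exp_add]
    congr 1
    ring
  have e7 : Real.exp (-(M / 2)) ≤ 1 / 2 := by
    have h6 : Real.exp (-(M / 2)) ≤ Real.exp (-(4 * Real.log 2)) := by
      refine Real.exp_le_exp.2 ?_
      have := Real.log_two_lt_d9
      linarith
    have h7 : Real.exp (-(4 * Real.log 2)) = 1 / 16 := by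
      rw [Real.exp_neg, show (4 : ℝ) * Real.log 2 = ((4 : ℕ) : ℝ) * Real.log 2 by norm_num, Real.exp_nat_mul, Real.exp_log (by norm_num)]
      norm_num
    linarith
  have e8 : 60 * M * Real.exp (-M) ≤ 1 / 2 := by
    -- `exp M ≥ 120 M` for `M ≥ 8`
    have h6 : 120 * M ≤ Real.exp M := by
      have h7 : Real.exp M = Real.exp 8 * Real.exp (M - 8) := by
        rw [← Real.exp_add]
        congr 1
        ring
      have h8 : (960 : ℝ) ≤ Real.exp 8 := by
        have h9 : Real.exp 8 = Real.exp 1 ^ 8 := by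
          rw [← Real.exp_nat_mul]
          norm_num
        rw [h9]
        have h10 : (2.7 : ℝ) ≤ Real.exp 1 := by
          have := Real.exp_one_gt_d9
          linarith
        calc (960 : ℝ) ≤ 2.7 ^ 8 := by norm_num
          _ ≤ Real.exp 1 ^ 8 := pow_le_pow_left₀ (by norm_num) h10 8
      have h11 : M - 8 + 1 ≤ Real.exp (M - 8) := Real.add_one_le_exp _
      have h12 : 0 ≤ M - 8 := by linarith
      rw [h7]
      calc 120 * M ≤ 960 * (M - 8 + 1) := by nlinarith
        _ ≤ Real.exp 8 * Real.exp (M - 8) := by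
          refine mul_le_mul h8 h11 (by linarith) (Real.exp_pos _).le
    rw [Real.exp_neg]
    have h13 : 0 < Real.exp M := Real.exp_pos _
    rw [← div_eq_mul_inv, div_le_iff₀ h13]
    linarith
  rw [e5, e6]
  have h0 : 0 < Real.exp (-M) := Real.exp_pos _
  calc _ = (Real.exp (-(M / 2)) + 60 * M * Real.exp (-M)) * Real.exp (-M) := by ring
    _ ≤ 1 * Real.exp (-M) := mul_le_mul_of_nonneg_right (by linarith) h0.le
    _ = _ := one_mul _

end

end Pool.W7d29a1.C0.R43
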