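import Pool.Agent.W_7d29a1_C0.Lab38

/-!
CURV0 (MP_7d29a1_pr), leaf E5.8, helper38: THE TERMS OF `two_box` ON THE LABELLED SYSTEM, in terms of the outer mean `gm w`
and the inner conditional means `cE wi p`.

`dbl_sum`, `dbl2_sum`: nonnegative sums over all the replicas of the doubled systems. `ev_out`, `ev2_out`: an insertion at the outer
replicas is a covariance `gc w C H` with `H` = the inner double mean, a function of `p`; hence (`abs_gc_out`) it is at most the mean of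
`|H x| * |cE w p C x - cE w p C x'|` over two outer replicas.
-/

set_option autoImplicit false
set_option linter.unusedSectionVars false
set_option linter.unusedVariables false

namespace Pool.W7d29a1.C0.L38

open Finset Filter Topology MeasureTheory
open Pool.Agent.W_7d29a1_F Pool.Agent.W_7d29a1_C0 Pool.W7d29a1.C0 Pool.W7d29a1.C0.VT31 Pool.W7d29a1.C0.I52
open Pool.Agent.W_7d29a1_C0.Swap57
open Pool.Agent.W_7d29a1_C0.Mod92 (Px ps pJ crs_pJ)

noncomputable section

/-! ### Sums over all the replicas of the doubled systems -/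

section Gen

variable {X : Type*} [Fintype X] [DecidableEq X] {ι : Type*} [Fintype ι] [DecidableEq ι]

/-- One doubling. -/
theorem dbl_sum (K : KS X ι) (w : X → ℝ) (F : (ι → X) → ℝ) (A : (ι → X) → X → ℝ) :
    K.dbl.toEv.ev w (fun y => F (fun i => y (Sum.inl i)) * ∑ j, A (fun i => y (Sum.inl i)) (y j)) =
      K.toEv.ev w fun x => F x * ∑ i, (A x (x i) + av w (K.A i x) (A x)) := by
  have e : ∀ y : ι ⊕ ι → X, F (fun i => y (Sum.inl i)) * ∑ j, A (fun i => y (Sum.inl i)) (y j) =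
      ∑ i, (F (fun i => y (Sum.inl i)) * A (fun i => y (Sum.inl i)) (y (Sum.inl i)) +
        F (fun i => y (Sum.inl i)) * A (fun i => y (Sum.inl i)) (y (Sum.inr i))) := fun y => by
    rw [Fintype.sum_sum_type, ← Finset.sum_add_distrib, Finset.mul_sum]
    exact Finset.sum_congr rfl fun i _ => mul_add _ _ _
  have e2 : ∀ i, K.dbl.toEv.ev w (fun y => F (fun i => y (Sum.inl i)) * A (fun i => y (Sum.inl i)) (y (Sum.inl i)) +
      F (fun i => y (Sum.inl i)) * A (fun i => y (Sum.inl i)) (y (Sum.inr i))) =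
      K.toEv.ev w fun x => F x * (A x (x i) + av w (K.A i x) (A x)) := fun i => by
    have h1 := K.dbl_old w fun x => F x * A x (x i)
    have h2 := K.dbl_one w i fun x s => F x * A x s
    rw [H41.ev_add, h1, h2, ← H41.ev_add]
    refine H41.ev_congr _ _ fun x => ?_
    rw [av_smul, mul_add]
  rw [H41.ev_congr _ _ e, H41.ev_sum, Finset.sum_congr rfl fun i _ => e2 i, ← H41.ev_sum]
  exact H41.ev_congr _ _ fun x => (Finset.mul_sum _ _ _).symm

/-- Two doublings. -/
theorem dbl2_sum (K : KS X ι) (w : X → ℝ) (F : (ι → X) → ℝ) (A : (ι → X) → X → ℝ) :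
    K.dbl.dbl.toEv.ev w (fun y => F (fun i => y (Sum.inl (Sum.inl i))) * ∑ j, A (fun i => y (Sum.inl (Sum.inl i))) (y j)) =
      K.toEv.ev w fun x => F x * ∑ i, (A x (x i) + 3 * av w (K.A i x) (A x)) := by
  have h1 := dbl_sum K.dbl w (fun y => F fun i => y (Sum.inl i)) fun y => A fun i => y (Sum.inl i)
  have e : ∀ y : ι ⊕ ι → X, F (fun i => y (Sum.inl i)) *
      ∑ j, (A (fun i => y (Sum.inl i)) (y j) + av w (K.dbl.A j y) (A fun i => y (Sum.inl i))) =
      F (fun i => y (Sum.inl i)) * ∑ j, A (fun i => y (Sum.inl i)) (y j) +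
        F (fun i => y (Sum.inl i)) * (2 * ∑ i, av w (K.A i fun i => y (Sum.inl i)) (A fun i => y (Sum.inl i))) := fun y => by
    rw [Finset.sum_add_distrib, mul_add]
    congr 2
    rw [Fintype.sum_sum_type, two_mul]
    rfl
  refine h1.trans ?_
  rw [H41.ev_congr _ _ e, H41.ev_add, dbl_sum K w F A,
    K.dbl_old w fun x => F x * (2 * ∑ i, av w (K.A i x) (A x)), ← H41.ev_add]
  refine H41.ev_congr _ _ fun x => ?_
  rw [← mul_add]
  congr 1
  rw [Finset.mul_sum, ← Finset.sum_add_distrib]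
  exact Finset.sum_congr rfl fun i _ => by ring

/-- The size of an insertion. -/
theorem abs_ins_sum {ι' : Type*} [Fintype ι'] [DecidableEq ι'] {E : H41.Ev X ι} {E' : H41.Ev X ι'} (d : H41.Dr E E')
    (hsg : ∀ j, |d.sg j| ≤ 1) {A B : X → ℝ} (hA : ∀ s, |A s| ≤ B s) (Ψ : (ι → X) → ℝ) (y : ι' → X) :
    |d.ins A Ψ y| ≤ |Ψ fun i => y (d.emb i)| * ∑ j, B (y j) := by
  unfold H41.Dr.ins
  rw [abs_mul]
  refine mul_le_mul_of_nonneg_left ((Finset.abs_sum_le_sum_abs _ _).trans (Finset.sum_le_sum fun j _ => ?_)) (abs_nonneg _)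
  rw [abs_mul]
  calc |d.sg j| * |A (y j)| ≤ 1 * |A (y j)| := mul_le_mul_of_nonneg_right (hsg j) (abs_nonneg _)
    _ = |A (y j)| := one_mul _
    _ ≤ B (y j) := hA _

theorem KS_sg (K : KS X ι) (j : ι ⊕ ι) : |K.dr.sg j| ≤ 1 := by
  show |sgs j| ≤ 1
  cases j
  · show |(1 : ℝ)| ≤ 1
    rw [abs_one]
  · show |(-1 : ℝ)| ≤ 1
    rw [abs_neg, abs_one]

/-- **One insertion in absolute value**: `|A| ≤ B`. -/
theorem ev_abs_ins (K : KS X ι) (w : X → ℝ) {A B : X → ℝ} (hA : ∀ s, |A s| ≤ B s) (Ψ : (ι → X) → ℝ) :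
    K.dbl.toEv.ev w (fun y => |K.dr.ins A Ψ y|) ≤ K.toEv.ev w fun x => |Ψ x| * ∑ i, (B (x i) + av w (K.A i x) B) := by
  rw [← dbl_sum K w (fun x => |Ψ x|) fun _ => B]
  exact H41.ev_mono _ _ fun y => abs_ins_sum K.dr (KS_sg K) hA Ψ y

/-- **Two insertions in absolute value**: `|A| ≤ B`, `|T| ≤ M`. -/
theorem ev_abs_ins2 (K : KS X ι) (w : X → ℝ) {A B T : X → ℝ} (hA : ∀ s, |A s| ≤ B s) {M : ℝ} (hT : ∀ s, |T s| ≤ M)
    (Ψ : (ι → X) → ℝ) :
    K.dbl.dbl.toEv.ev w (fun y => |K.dbl.dr.ins A (K.dr.ins T Ψ) y|) ≤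
      2 * Fintype.card ι * M * K.toEv.ev w fun x => |Ψ x| * ∑ i, (B (x i) + 3 * av w (K.A i x) B) := by
  rw [← dbl2_sum K w (fun x => |Ψ x|) fun _ => B, ← H41.ev_smul]
  refine H41.ev_mono _ _ fun y => ?_
  have h1 := abs_ins_sum K.dbl.dr (KS_sg K.dbl) hA (K.dr.ins T Ψ) y
  have h2 := abs_ins_sum K.dr (KS_sg K) (B := fun _ => M) hT Ψ fun i => y (K.dbl.dr.emb i)
  have h3 : ∑ j : ι ⊕ ι, (fun _ : X => M) ((fun i => y (K.dbl.dr.emb i)) j) = 2 * Fintype.card ι * M := by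
    show ∑ j : ι ⊕ ι, M = _
    rw [Finset.sum_const, Finset.card_univ, Fintype.card_sum, nsmul_eq_mul]
    push_cast
    ring
  rw [h3] at h2
  have h4 : 0 ≤ ∑ j, B (y j) := Finset.sum_nonneg fun j _ => (abs_nonneg _).trans (hA _)
  have h5 := h1.trans (mul_le_mul_of_nonneg_right h2 h4)
  refine h5.trans (le_of_eq ?_)
  show |Ψ fun i => y (Sum.inl (Sum.inl i))| * (2 * Fintype.card ι * M) * ∑ j, B (y j) =
    2 * Fintype.card ι * M * (|Ψ fun i => y (Sum.inl (Sum.inl i))| * ∑ j, B (y j))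
  ring

end Gen

/-! ### The labelled system -/

section Abs

variable {X : Type*} [Fintype X] [DecidableEq X] [Nonempty X] {Y : Type*} [DecidableEq Y]

/-- The inner double mean of an observable. -/
def Hh (wi : X → ℝ) (p : X → Y) (Φ : (Fin 3 → X × Bool) → ℝ) (a : X) : ℝ :=
  cE wi p (fun b => cE wi p (fun c => Φ ![(c, true), (b, true), (a, false)]) a) a

theorem vec3 (x : Fin 3 → X × Bool) : ![x 0, x 1, x 2] = x := by
  funext i
  fin_cases i <;> rfl

theorem ev_Hh (p : X → Y) (w wi : X → ℝ) (Φ : (Fin 3 → X × Bool) → ℝ) :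
    (K38 p).toEv.ev (lab w wi) Φ = gm w (Hh wi p Φ) := by
  have h := ev_K38 p w wi fun a b c => Φ ![c, b, a]
  have e : Φ = fun x : Fin 3 → X × Bool => (fun a b c : X × Bool => Φ ![c, b, a]) (x 2) (x 1) (x 0) := by
    funext x
    show Φ x = Φ ![x 0, x 1, x 2]
    rw [vec3]
  rw [e, h]
  rfl

theorem lab_out (w wi C : X → ℝ) (u : ℝ) : lab (w + u • C) wi = lab w wi + u • out C := by
  funext z
  obtain ⟨x, l⟩ := z
  cases l
  · rfl
  · show wi x = wi x + u * 0
    rw [mul_zero, add_zero]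

theorem der_out (w wi C : X → ℝ) (t : ℝ) : HasDerivAt (fun u : ℝ => lab (w + u • C) wi) (out C) t := by
  simp_rw [lab_out]
  exact gline (lab w wi) (out C) t

theorem der_gm (w C H : X → ℝ) (t : ℝ) : HasDerivAt (fun u : ℝ => gm (w + u • C) H) (gc (w + t • C) C H) t := by
  have h := H19.hasDerivAt_gm H (hasDerivAt_line w C t)
  rwa [← gc_eq_cm] at h

/-- **An insertion at the outer replica is a covariance.** -/
theorem ev_out (p : X → Y) (w wi C : X → ℝ) (Φ : (Fin 3 → X × Bool) → ℝ) :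
    (K38 p).dbl.toEv.ev (lab w wi) ((K38 p).dr.ins (out C) Φ) = gc w C (Hh wi p Φ) := by
  have d1 := (K38 p).dr.der' Φ (der_out w wi C 0)
  have e : (fun u : ℝ => (K38 p).toEv.ev (lab (w + u • C) wi) Φ) = fun u => gm (w + u • C) (Hh wi p Φ) :=
    funext fun u => ev_Hh p _ wi Φ
  rw [e] at d1
  have h3 := d1.unique (der_gm w C (Hh wi p Φ) 0)
  rwa [zero_smul, add_zero] at h3

/-- The observable of the inserted inner replicas. -/
def insH (wi : X → ℝ) (p : X → Y) (g : X → ℝ) (Φ : (Fin 3 → X × Bool) → ℝ) (x : Fin 3 → X × Bool) : ℝ :=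
  Φ x * ((g (x 1).1 - cE wi p g (x 2).1) + (g (x 0).1 - cE wi p g (x 2).1))

theorem av_inj_o (w wi g : X → ℝ) : av (lab w wi) (Ao X) (inj g) = 0 := by
  rw [av_Ao]
  show gm w (fun _ => (0 : ℝ)) = 0
  unfold gm
  simp

theorem av_inj_i (w wi g : X → ℝ) (p : X → Y) (a : X) : av (lab w wi) (Ai p a) (inj g) = cE wi p g a := av_Ai w wi p a _

theorem S_P38 (p : X → Y) (x : Fin 3 → X × Bool) : (K38 p).A 0 x = Ai p (x 2).1 ∧ (K38 p).A 1 x = Ai p (x 2).1 ∧
    (K38 p).A 2 x = Ao X := ⟨rfl, rfl, rfl⟩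

theorem Hh_congr (wi : X → ℝ) (p : X → Y) {Φ Φ' : (Fin 3 → X × Bool) → ℝ}
    (h : ∀ a b c : X, Φ ![(c, true), (b, true), (a, false)] = Φ' ![(c, true), (b, true), (a, false)]) (a : X) :
    Hh wi p Φ a = Hh wi p Φ' a := by
  unfold Hh
  simp only [h]

/-- **One insertion at the inner replicas.** -/
theorem ev_insH (p : X → Y) (w wi g : X → ℝ) (Φ : (Fin 3 → X × Bool) → ℝ) :
    (K38 p).dbl.toEv.ev (lab w wi) ((K38 p).dr.ins (inj g) Φ) = gm w (Hh wi p (insH wi p g Φ)) := by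
  have h := (K38 p).ins_ev (lab w wi) (inj g) Φ
  have h2 : (K38 p).dbl.toEv.ev (lab w wi) ((K38 p).dr.ins (inj g) Φ) =
      (K38 p).dbl.toEv.ev (lab w wi) (fun y => Φ (fun i => y (Sum.inl i)) * ∑ j, sgs j * inj g (y j)) := rfl
  rw [h2, h, ev_Hh]
  congr 1
  funext a
  refine Hh_congr wi p (fun a b c => ?_) a
  unfold insH
  congr 1
  rw [Fin.sum_univ_three, (S_P38 p _).1, (S_P38 p _).2.1, (S_P38 p _).2.2, av_inj_i, av_inj_o]
  show (g c - cE wi p g a) + (g b - cE wi p g a) + (0 - 0) = (g b - cE wi p g a) + (g c - cE wi p g a)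
  ring

/-- **An insertion at the outer replicas after one at the inner replicas.** -/
theorem ev2_out (p : X → Y) (w wi C g : X → ℝ) (Φ : (Fin 3 → X × Bool) → ℝ) :
    (K38 p).dbl.dbl.toEv.ev (lab w wi) ((K38 p).dbl.dr.ins (out C) ((K38 p).dr.ins (inj g) Φ)) =
      gc w C (Hh wi p (insH wi p g Φ)) := by
  have d1 := (K38 p).dbl.dr.der' ((K38 p).dr.ins (inj g) Φ) (der_out w wi C 0)
  have e : (fun u : ℝ => (K38 p).dbl.toEv.ev (lab (w + u • C) wi) ((K38 p).dr.ins (inj g) Φ)) =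
      fun u => gm (w + u • C) (Hh wi p (insH wi p g Φ)) := funext fun u => ev_insH p _ wi g Φ
  rw [e] at d1
  have h3 := d1.unique (der_gm w C _ 0)
  rwa [zero_smul, add_zero] at h3

/-- A covariance through two replicas. -/
theorem gc_two (w f h : X → ℝ) : gc w f h = gm w fun a => h a * (f a - gm w f) := by
  have e : (fun a => h a * (f a - gm w f)) = f * h - (gm w f) • h := by
    funext a
    simp only [Pi.sub_apply, Pi.mul_apply, Pi.smul_apply, smul_eq_mul]
    ring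
  unfold gc
  rw [e]
  have h2 : gm w (f * h - gm w f • h) = gm w (f * h) - gm w f * gm w h := by
    rw [gm_eq_av, gm_eq_av w (f * h), gm_eq_av w h]
    have h3 : (f * h - gm w f • h : X → ℝ) = fun s => (f * h) s - (gm w f * h s) := rfl
    rw [h3, av_sub, av_smul]
  rw [h2]

theorem gm_const (w : X → ℝ) (c : ℝ) : gm w (fun _ => c) = c := by
  rw [gm_eq_av]
  exact av_const w univ_nonempty c

theorem gm_sub' (w f h : X → ℝ) : gm w (fun s => f s - h s) = gm w f - gm w h := by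
  rw [gm_eq_av, av_sub, ← gm_eq_av, ← gm_eq_av]

theorem gm_smul' (w : X → ℝ) (c : ℝ) (f : X → ℝ) : gm w (fun s => c * f s) = c * gm w f := by
  rw [gm_eq_av, av_smul, ← gm_eq_av]

theorem gm_add' (w f h : X → ℝ) : gm w (fun s => f s + h s) = gm w f + gm w h := by
  rw [gm_eq_av, av_add, ← gm_eq_av, ← gm_eq_av]

theorem abs_gm_le' (w f : X → ℝ) : |gm w f| ≤ gm w fun s => |f s| := by
  rw [gm_eq_av, gm_eq_av]
  exact abs_av_le w univ f

/-- **The covariance with a function of `p`.** -/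
theorem abs_gc_out (w : X → ℝ) {p : X → Y} (C : X → ℝ) {H : X → ℝ} (hH : Mp p H) :
    |gc w C H| ≤ gm2 w fun a a' => |H a| * |cE w p C a - cE w p C a'| := by
  rw [← gc_cE_left w C hH, gc_two]
  unfold gm2
  refine (abs_gm_le' w _).trans (gm_mono w fun a => ?_)
  rw [abs_mul, gm_smul']
  refine mul_le_mul_of_nonneg_left ?_ (abs_nonneg _)
  have h1 : cE w p C a - gm w (cE w p C) = gm w fun a' => cE w p C a - cE w p C a' := by
    rw [gm_sub', gm_const]
  rw [h1]
  exact abs_gm_le' w _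

/-- The inner double mean of an observable which sees the outer replica through `p` is a function of `p`. -/
theorem mp_Hh (wi : X → ℝ) {p : X → Y} {Φ : (Fin 3 → X × Bool) → ℝ}
    (h : ∀ a a' b c : X, p a = p a' → Φ ![(c, true), (b, true), (a, false)] = Φ ![(c, true), (b, true), (a', false)]) :
    Mp p (Hh wi p Φ) := by
  intro a a' haa
  have e1 : Hh wi p Φ a = cE wi p (fun b => cE wi p (fun c => Φ ![(c, true), (b, true), (a', false)]) a) a := by
    unfold Hh
    simp only [h a a' _ _ haa]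
  have e2 : ∀ b, cE wi p (fun c => Φ ![(c, true), (b, true), (a', false)]) a =
      cE wi p (fun c => Φ ![(c, true), (b, true), (a', false)]) a' := fun b => cE_meas wi p _ a a' haa
  rw [e1]
  simp only [e2]
  exact cE_meas wi p _ a a' haa

/-! ### Bounds by kernels of the inner pair -/

/-- The mass of the inner pairs of `χ`. -/
def hb (wi : X → ℝ) (p : X → Y) (χ : X → X → ℝ) (a : X) : ℝ := cE2 wi p χ a a

/-- The same with a factor at one of the two. -/
def dt (wi : X → ℝ) (p : X → Y) (χ : X → X → ℝ) (F : X → ℝ) (a : X) : ℝ := cE2 wi p (fun b c => F b * χ b c) a a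

theorem dt_symm (wi : X → ℝ) (p : X → Y) {χ : X → X → ℝ} (hs : ∀ b c, χ b c = χ c b) (F : X → ℝ) (a : X) :
    cE2 wi p (fun b c => F c * χ b c) a a = dt wi p χ F a := by
  unfold dt cE2
  rw [cE_comm wi p p (fun b c => F c * χ b c) a a]
  congr 1
  funext c
  congr 1
  funext b
  rw [hs]

theorem dt_eq (wi : X → ℝ) (p : X → Y) (χ : X → X → ℝ) (F : X → ℝ) (a : X) :
    dt wi p χ F a = cE wi p (fun b => F b * cE wi p (χ b) a) a := by
  unfold dt cE2
  congr 1
  funext b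
  exact cE_const_mul wi p (F b) (χ b) a

theorem cE2_le_fst (wi : X → ℝ) (p : X → Y) {χ : X → X → ℝ} (h0 : ∀ b c, 0 ≤ χ b c) (h1 : ∀ b c, χ b c ≤ 1) {F : X → ℝ}
    (hF : ∀ x, 0 ≤ F x) (a : X) : dt wi p χ F a ≤ cE wi p F a := by
  rw [dt_eq]
  refine cE_mono wi p (fun b => ?_) a
  have h := cE_mono wi p (f := χ b) (g := fun _ => 1) (h1 b) a
  rw [cE_one] at h
  calc F b * cE wi p (χ b) a ≤ F b * 1 := mul_le_mul_of_nonneg_left h (hF b)
    _ = F b := mul_one _

/-- The general bound. -/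
theorem ev_le (p : X → Y) (w wi Yf : X → ℝ) {Φ : (Fin 3 → X × Bool) → ℝ} {κ : X → X → X → ℝ}
    (h : ∀ a b c : X, Φ ![(c, true), (b, true), (a, false)] ≤ |Yf a| * κ a b c) :
    (K38 p).toEv.ev (lab w wi) Φ ≤ gm w fun a => |Yf a| * cE2 wi p (κ a) a a := by
  rw [ev_Hh]
  refine gm_mono w fun a => ?_
  have e : |Yf a| * cE2 wi p (κ a) a a = cE2 wi p (fun b c => |Yf a| * κ a b c) a a := (cE2_mul wi p _ (κ a) a a).symm
  rw [e]
  exact cE2_mono wi p (fun b c => h a b c) a a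

variable {χ : X → X → ℝ} {Yf γ g : X → ℝ} {M : ℝ}

theorem psC_at (a b c : X) : psC χ Yf γ g ![(c, true), (b, true), (a, false)] =
    χ b c * (Yf a * (1 / 2 * (γ b - γ c) * (g b - g c))) := rfl

theorem abs_psC_at (h0 : ∀ b c, 0 ≤ χ b c) (hγ : ∀ x, |γ x| ≤ M) (hg : ∀ x, |g x| ≤ M) (x : Fin 3 → X × Bool) :
    |psC χ Yf γ g x| ≤ |Yf (x 2).1| * (2 * M ^ 2 * χ (x 1).1 (x 0).1) := by
  rw [abs_psC_le h0]
  have e1 : |γ (x 1).1 - γ (x 0).1| ≤ 2 * M := (abs_sub _ _).trans (by linarith [hγ (x 1).1, hγ (x 0).1])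
  have e2 : |g (x 1).1 - g (x 0).1| ≤ 2 * M := (abs_sub _ _).trans (by linarith [hg (x 1).1, hg (x 0).1])
  have hM : 0 ≤ M := (abs_nonneg _).trans (hγ (x 2).1)
  calc |Yf (x 2).1| * (1 / 2 * |γ (x 1).1 - γ (x 0).1| * |g (x 1).1 - g (x 0).1|) * χ (x 1).1 (x 0).1 ≤
      |Yf (x 2).1| * (1 / 2 * (2 * M) * (2 * M)) * χ (x 1).1 (x 0).1 := by
        have := h0 (x 1).1 (x 0).1
        gcongr
    _ = _ := by ring

/-- **The mean of the integrand.** -/
theorem T1_le (p : X → Y) (w wi : X → ℝ) (h0 : ∀ b c, 0 ≤ χ b c) (hγ : ∀ x, |γ x| ≤ M) (hg : ∀ x, |g x| ≤ M) :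
    (K38 p).toEv.ev (lab w wi) (fun x => |psC χ Yf γ g x|) ≤ 2 * M ^ 2 * gm w fun a => |Yf a| * hb wi p χ a := by
  refine (ev_le p w wi Yf (κ := fun _ b c => 2 * M ^ 2 * χ b c) fun a b c =>
    abs_psC_at (Yf := Yf) h0 hγ hg ![(c, true), (b, true), (a, false)]).trans (le_of_eq ?_)
  rw [← gm_smul']
  congr 1
  funext a
  rw [cE2_mul]
  unfold hb
  ring

/-- **The derivative of the response**: `|γ'| ≤ K tie`. -/
theorem T2_le (p : X → Y) (w wi : X → ℝ) (h0 : ∀ b c, 0 ≤ χ b c) (hs : ∀ b c, χ b c = χ c b) {γ' : X → X → ℝ} {tie : X → ℝ} {K : ℝ}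
    (hγ : ∀ a x, |γ' a x| ≤ K * tie x) (hg : ∀ x, |g x| ≤ M) :
    (K38 p).toEv.ev (lab w wi) (fun x => |psC χ Yf (γ' (x 2).1) g x|) ≤
      2 * K * M * gm w fun a => |Yf a| * dt wi p χ tie a := by
  have hM : 0 ≤ M := (abs_nonneg _).trans (hg (Classical.arbitrary X))
  refine (ev_le p w wi Yf (κ := fun _ b c => K * M * (tie b * χ b c) + K * M * (tie c * χ b c)) fun a b c => ?_).trans (le_of_eq ?_)
  · rw [abs_psC_le h0]
    show |Yf a| * (1 / 2 * |γ' a b - γ' a c| * |g b - g c|) * χ b c ≤ _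
    have e1 : |γ' a b - γ' a c| ≤ K * tie b + K * tie c := (abs_sub _ _).trans (add_le_add (hγ a b) (hγ a c))
    have e2 : |g b - g c| ≤ 2 * M := (abs_sub _ _).trans (by linarith [hg b, hg c])
    have e3 : 0 ≤ K * tie b + K * tie c := (abs_nonneg _).trans e1
    calc |Yf a| * (1 / 2 * |γ' a b - γ' a c| * |g b - g c|) * χ b c ≤
        |Yf a| * (1 / 2 * (K * tie b + K * tie c) * (2 * M)) * χ b c := by
          have := h0 b c
          gcongr
      _ = _ := by ring
  · rw [← gm_smul']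
    congr 1
    funext a
    rw [cE2_add, cE2_mul, cE2_mul, dt_symm wi p hs]
    unfold dt
    ring

/-- **The rest of a field at the inner replicas** (`k = 1`: one insertion, `k = 3`: two). -/
theorem T3_le (p : X → Y) (w wi : X → ℝ) (h0 : ∀ b c, 0 ≤ χ b c) (hs : ∀ b c, χ b c = χ c b) (hγ : ∀ x, |γ x| ≤ M)
    (hg : ∀ x, |g x| ≤ M) {R : X → ℝ} (hR : ∀ x, 0 ≤ R x) {k : ℝ} (hk : 0 ≤ k) :
    (K38 p).toEv.ev (lab w wi) (fun x => |psC χ Yf γ g x| * ∑ i, (inj R (x i) + k * av (lab w wi) ((K38 p).A i x) (inj R))) ≤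
      4 * M ^ 2 * (gm w (fun a => |Yf a| * dt wi p χ R a) + k * gm w fun a => |Yf a| * (hb wi p χ a * cE wi p R a)) := by
  refine (ev_le p w wi Yf (κ := fun a b c => 2 * M ^ 2 * (R b * χ b c) + (2 * M ^ 2 * (R c * χ b c) +
    (4 * M ^ 2 * k * cE wi p R a) * χ b c)) fun a b c => ?_).trans (le_of_eq ?_)
  · have e : ∑ i, (inj R (![(c, true), (b, true), (a, false)] i) +
        k * av (lab w wi) ((K38 p).A i ![(c, true), (b, true), (a, false)]) (inj R)) = R b + R c + 2 * k * cE wi p R a := by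
      rw [Fin.sum_univ_three, (S_P38 p _).1, (S_P38 p _).2.1, (S_P38 p _).2.2, av_inj_i, av_inj_o]
      show (R c + k * cE wi p R a) + (R b + k * cE wi p R a) + (0 + k * 0) = _
      ring
    rw [e]
    have h1 : |psC χ Yf γ g ![(c, true), (b, true), (a, false)]| ≤ |Yf a| * (2 * M ^ 2 * χ b c) :=
      abs_psC_at (Yf := Yf) h0 hγ hg ![(c, true), (b, true), (a, false)]
    have h2 : 0 ≤ cE wi p R a := cE_nonneg wi p hR a
    have h3 : 0 ≤ R b + R c + 2 * k * cE wi p R a := by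
      have := mul_nonneg hk h2
      linarith [hR b, hR c]
    refine (mul_le_mul_of_nonneg_right h1 h3).trans (le_of_eq ?_)
    ring
  · have e : ∀ a, |Yf a| * cE2 wi p (fun b c => 2 * M ^ 2 * (R b * χ b c) + (2 * M ^ 2 * (R c * χ b c) +
        (4 * M ^ 2 * k * cE wi p R a) * χ b c)) a a =
        4 * M ^ 2 * (|Yf a| * dt wi p χ R a + k * (|Yf a| * (hb wi p χ a * cE wi p R a))) := fun a => by
      rw [cE2_add, cE2_add, cE2_mul, cE2_mul, cE2_mul, dt_symm wi p hs]
      unfold dt hb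
      ring
    simp only [e]
    rw [gm_smul', gm_add', gm_smul' w k]

/-- **The far part**: `tub β x` = the path `x` leaves the cone of the box `β` (`k = 1`: one insertion, `k = 3`: two). -/
theorem T4_le (p : X → Y) (w wi : X → ℝ) (h0 : ∀ b c, 0 ≤ χ b c) (h1 : ∀ b c, χ b c ≤ 1) (hγ : ∀ x, |γ x| ≤ M)
    (hg : ∀ x, |g x| ≤ M) {tub : X → X → ℝ} (ht : ∀ a x, 0 ≤ tub a x) {k : ℝ} (hk : 0 ≤ k) :
    (K38 p).toEv.ev (lab w wi) (fun x => |psC χ Yf γ g x| *
      ∑ i, (fp (tub (x 2).1) (x i) + k * av (lab w wi) ((K38 p).A i x) (fp (tub (x 2).1)))) ≤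
      2 * M ^ 2 * gm w fun a => |Yf a| * (hb wi p χ a * (tub a a + k * gm w (tub a)) + (2 + 2 * k) * cE wi p (tub a) a) := by
  refine (ev_le p w wi Yf (κ := fun a b c => 2 * M ^ 2 * (tub a b * χ b c) + (2 * M ^ 2 * (tub a c * χ b c) +
    (2 * M ^ 2 * (tub a a + k * gm w (tub a) + 2 * k * cE wi p (tub a) a)) * χ b c)) fun a b c => ?_).trans ?_
  · have e : ∑ i, (fp (tub a) (![(c, true), (b, true), (a, false)] i) +
        k * av (lab w wi) ((K38 p).A i ![(c, true), (b, true), (a, false)]) (fp (tub a))) =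
        tub a b + tub a c + (tub a a + k * gm w (tub a) + 2 * k * cE wi p (tub a) a) := by
      rw [Fin.sum_univ_three, (S_P38 p _).1, (S_P38 p _).2.1, (S_P38 p _).2.2, av_Ai, av_Ao]
      show (tub a c + k * cE wi p (tub a) a) + (tub a b + k * cE wi p (tub a) a) + (tub a a + k * gm w (tub a)) = _
      ring
    have e' : ∑ i, (fp (tub (![(c, true), (b, true), (a, false)] (2 : Fin 3) : X × Bool).1) (![(c, true), (b, true), (a, false)] i) +
        k * av (lab w wi) ((K38 p).A i ![(c, true), (b, true), (a, false)])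
          (fp (tub (![(c, true), (b, true), (a, false)] (2 : Fin 3) : X × Bool).1))) =
        tub a b + tub a c + (tub a a + k * gm w (tub a) + 2 * k * cE wi p (tub a) a) := e
    rw [e']
    have h3 : |psC χ Yf γ g ![(c, true), (b, true), (a, false)]| ≤ |Yf a| * (2 * M ^ 2 * χ b c) :=
      abs_psC_at (Yf := Yf) h0 hγ hg ![(c, true), (b, true), (a, false)]
    have h4 : 0 ≤ tub a b + tub a c + (tub a a + k * gm w (tub a) + 2 * k * cE wi p (tub a) a) := by
      have k1 := mul_nonneg hk (gm_nonneg w (ht a))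
      have k2 := mul_nonneg hk (cE_nonneg wi p (ht a) a)
      linarith [ht a b, ht a c, ht a a]
    refine (mul_le_mul_of_nonneg_right h3 h4).trans (le_of_eq ?_)
    ring
  · rw [← gm_smul']
    refine gm_mono w fun a => ?_
    have e : cE2 wi p (fun b c => 2 * M ^ 2 * (tub a b * χ b c) + (2 * M ^ 2 * (tub a c * χ b c) +
        (2 * M ^ 2 * (tub a a + k * gm w (tub a) + 2 * k * cE wi p (tub a) a)) * χ b c)) a a =
        2 * M ^ 2 * (cE2 wi p (fun b c => tub a b * χ b c) a a + (cE2 wi p (fun b c => tub a c * χ b c) a a +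
          (tub a a + k * gm w (tub a) + 2 * k * cE wi p (tub a) a) * hb wi p χ a)) := by
      rw [cE2_add, cE2_add, cE2_mul, cE2_mul, cE2_mul]
      unfold hb
      ring
    rw [e]
    have k1 : cE2 wi p (fun b c => tub a b * χ b c) a a ≤ cE wi p (tub a) a := cE2_le_fst wi p h0 h1 (ht a) a
    have k2 : cE2 wi p (fun b c => tub a c * χ b c) a a ≤ cE wi p (tub a) a := by
      have e2 : cE2 wi p (fun b c => tub a c * χ b c) a a = dt wi p (fun b c => χ c b) (tub a) a := by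
        unfold dt cE2
        exact cE_comm wi p p (fun b c => tub a c * χ b c) a a
      rw [e2]
      exact cE2_le_fst wi p (fun b c => h0 c b) (fun b c => h1 c b) (ht a) a
    have k3 : hb wi p χ a ≤ 1 := cE2_le_one wi p h1 a a
    have k4 : 0 ≤ k * cE wi p (tub a) a := mul_nonneg hk (cE_nonneg wi p (ht a) a)
    have k5 : k * cE wi p (tub a) a * hb wi p χ a ≤ k * cE wi p (tub a) a := by
      calc k * cE wi p (tub a) a * hb wi p χ a ≤ k * cE wi p (tub a) a * 1 := mul_le_mul_of_nonneg_left k3 k4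
        _ = _ := mul_one _
    have k6 : cE2 wi p (fun b c => tub a b * χ b c) a a + (cE2 wi p (fun b c => tub a c * χ b c) a a +
        (tub a a + k * gm w (tub a) + 2 * k * cE wi p (tub a) a) * hb wi p χ a) ≤
        hb wi p χ a * (tub a a + k * gm w (tub a)) + (2 + 2 * k) * cE wi p (tub a) a := by
      nlinarith
    calc |Yf a| * (2 * M ^ 2 * _) ≤ |Yf a| * (2 * M ^ 2 * (hb wi p χ a * (tub a a + k * gm w (tub a)) +
          (2 + 2 * k) * cE wi p (tub a) a)) := mul_le_mul_of_nonneg_left (mul_le_mul_of_nonneg_left k6 (by positivity)) (abs_nonneg _)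
      _ = _ := by ring

end Abs

end

end Pool.W7d29a1.C0.L38
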