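import Pool.Agent.W_7d29a1_C0.Row38
import Pool.Agent.W_7d29a1_C0.Mod92B

/-!
CURV0 (MP_7d29a1_pr), leaf E5.8, helper38: **THE ROW INEQUALITY**, abstract form: `two_box` on the labelled system of `Lab38` with the terms
of `Row38`. All the terms on the right are outer means `gm w` (corner) of `|Yf|` times inner conditional means `cE wi p` (tilt):
`hb` (own pair), `dt .. |g - C|` (own pair and the rest of the field at the same replica), `hb * cE |g - C|`, `dt .. tie`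
(the derivative of the response), `gm2 (|Yf| hb |cE C x - cE C x'|)` (outer replica), the far parts.
-/

set_option autoImplicit false
set_option linter.unusedSectionVars false
set_option linter.unusedVariables false

namespace Pool.W7d29a1.C0.L38

open Finset Filter Topology MeasureTheory
open Pool.Agent.W_7d29a1_F Pool.Agent.W_7d29a1_C0 Pool.W7d29a1.C0 Pool.W7d29a1.C0.VT31 Pool.W7d29a1.C0.I52
open Pool.Agent.W_7d29a1_C0.Swap57 Pool.Agent.W_7d29a1_C0.H32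
open Pool.Agent.W_7d29a1_C0.Mod92 (Px ps pJ crs_pJ abs_cE_le meas_cE meas_gm)
open Pool.W7d29a1.C0.H41 (Wt Obs lcG farF tail1 tail2 QV Ev Dr)
open Pool.W7d29a1.C0.H19 (Cf)
open Pool.W7d29a1.C0.R63 (Sd Bl DF Dg far2 two_box)

noncomputable section

variable {μ : Measure ℝ} [IsProbabilityMeasure μ] {X : Type*} [Fintype X] [DecidableEq X] [Nonempty X] {Y : Type*} [DecidableEq Y]

/-! ### Bounded measurable path functionals -/

/-- A bounded measurable path functional. -/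
structure MF (F : Env → X → ℝ) (D : ℝ) : Prop where
  ms : ∀ x, Measurable fun η => F η x
  bd : ∀ η x, |F η x| ≤ D

theorem MF.of {F : Env → X → ℝ} {D : ℝ} (h : Measurable F) (hb : ∀ η x, |F η x| ≤ D) : MF F D :=
  ⟨fun x => (measurable_pi_apply x).comp h, hb⟩

theorem MF.nn {F : Env → X → ℝ} {D : ℝ} (h : MF F D) : 0 ≤ D :=
  (abs_nonneg _).trans (h.bd (fun _ => 0) (Classical.arbitrary X))

theorem MF.abs {F : Env → X → ℝ} {D : ℝ} (h : MF F D) : MF (fun η x => |F η x|) D :=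
  ⟨fun x => by simpa [Real.norm_eq_abs] using (h.ms x).norm, fun η x => by rw [abs_abs]; exact h.bd η x⟩

theorem MF.mul {F G : Env → X → ℝ} {D D' : ℝ} (h : MF F D) (h' : MF G D') : MF (fun η x => F η x * G η x) (D * D') :=
  ⟨fun x => (h.ms x).mul (h'.ms x), fun η x => by
    rw [abs_mul]
    exact mul_le_mul (h.bd η x) (h'.bd η x) (abs_nonneg _) h.nn⟩

theorem MF.add {F G : Env → X → ℝ} {D D' : ℝ} (h : MF F D) (h' : MF G D') : MF (fun η x => F η x + G η x) (D + D') :=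
  ⟨fun x => (h.ms x).add (h'.ms x), fun η x => (abs_add_le _ _).trans (add_le_add (h.bd η x) (h'.bd η x))⟩

theorem MF.sub {F G : Env → X → ℝ} {D D' : ℝ} (h : MF F D) (h' : MF G D') : MF (fun η x => F η x - G η x) (D + D') :=
  ⟨fun x => (h.ms x).sub (h'.ms x), fun η x => (abs_sub _ _).trans (add_le_add (h.bd η x) (h'.bd η x))⟩

theorem MF.smul {F : Env → X → ℝ} {D : ℝ} (h : MF F D) {k : ℝ} (hk : 0 ≤ k) : MF (fun η x => k * F η x) (k * D) :=
  ⟨fun x => (h.ms x).const_mul k, fun η x => by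
    rw [abs_mul, abs_of_nonneg hk]
    exact mul_le_mul_of_nonneg_left (h.bd η x) hk⟩

theorem MF.det {F : X → ℝ} {D : ℝ} (h : ∀ x, |F x| ≤ D) : MF (fun (_ : Env) x => F x) D :=
  ⟨fun x => measurable_const, fun _ x => h x⟩

theorem MF.cE {w F : Env → X → ℝ} {D : ℝ} (hw : ∀ x, Measurable fun η => w η x) (h : MF F D) (p : X → Y) :
    MF (fun η x => cE (w η) p (F η) x) D :=
  ⟨fun x => meas_cE hw h.ms p x, fun η x => abs_cE_le (w η) p (h.bd η) x⟩

/-- A conditional double mean. -/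
theorem MF.cE2 {w : Env → X → ℝ} {k : Env → X → X → ℝ} {D : ℝ} (hw : ∀ x, Measurable fun η => w η x)
    (hm : ∀ b c, Measurable fun η => k η b c) (hb : ∀ η b c, |k η b c| ≤ D) (p : X → Y) :
    MF (fun η x => cE2 (w η) p (k η) x x) D :=
  ⟨fun x => meas_cE (f := fun η b => VT31.cE (w η) p (k η b) x) hw (fun b => meas_cE hw (hm b) p x) p x,
    fun η x => abs_cE_le (w η) p (fun b => abs_cE_le (w η) p (hb η b) x) x⟩

/-- The mean of a bounded functional is integrable. -/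
theorem MF.int {w F : Env → X → ℝ} {D : ℝ} (hw : ∀ x, Measurable fun η => w η x) (h : MF F D) :
    Integrable (fun η => gm (w η) (F η)) (law μ) := by
  refine (integrable_const D).mono' (meas_gm hw h.ms).aestronglyMeasurable (ae_of_all _ fun η => ?_)
  rw [Real.norm_eq_abs]
  exact (abs_gm_le' (w η) (F η)).trans ((gm_mono (w η) fun x => h.bd η x).trans_eq (gm_const (w η) D))

/-- The mean over two free replicas. -/
theorem int_gm2 {w : Env → X → ℝ} {k : Env → X → X → ℝ} {D : ℝ} (hw : ∀ x, Measurable fun η => w η x)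
    (hm : ∀ b c, Measurable fun η => k η b c) (hb : ∀ η b c, |k η b c| ≤ D) :
    Integrable (fun η => gm2 (w η) (k η)) (law μ) := by
  have h : MF (fun η b => gm (w η) (k η b)) D := ⟨fun b => meas_gm hw (hm b), fun η b =>
    (abs_gm_le' (w η) (k η b)).trans ((gm_mono (w η) fun x => hb η b x).trans_eq (gm_const (w η) D))⟩
  exact h.int hw

/-! ### The sum over the boxes -/

section Box

variable {ι : Type*} [Fintype ι] [DecidableEq ι] {Bx : Type*} [Fintype Bx] [DecidableEq Bx] {Z : Type*} [Fintype Z]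

theorem sum_abs_ins_lcG {ι' : Type*} [Fintype ι'] [DecidableEq ι'] {E : Ev Z ι} {E' : Ev Z ι'} (d : Dr E E') (b : Z → Bx)
    (A : Z → ℝ) (Ψ : (ι → Z) → ℝ) (y : ι' → Z) : ∑ β, |d.ins A (lcG b β Ψ) y| = |d.ins A Ψ y| := by
  have e : ∀ β : ι → Bx, |d.ins A (lcG b β Ψ) y| = if (fun i => b (y (d.emb i))) = β then |d.ins A Ψ y| else 0 := fun β => by
    unfold Dr.ins lcG
    split_ifs with h
    · rfl
    · rw [zero_mul, abs_zero]
  rw [Finset.sum_congr rfl fun β _ => e β, Finset.sum_ite_eq]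
  simp

theorem sum_abs_lcG (b : Z → Bx) (Ψ : (ι → Z) → ℝ) (x : ι → Z) : ∑ β, |lcG b β Ψ x| = |Ψ x| := by
  have e : ∀ β : ι → Bx, |lcG b β Ψ x| = if (fun i => b (x i)) = β then |Ψ x| else 0 := fun β => by
    unfold lcG
    split_ifs with h
    · rfl
    · rw [abs_zero]
  rw [Finset.sum_congr rfl fun β _ => e β, Finset.sum_ite_eq]
  simp

end Box

section Out

variable {Bx : Type*} [Fintype Bx] [DecidableEq Bx] {χ : X → X → ℝ} {Yf γ g : X → ℝ} {M : ℝ}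

theorem gm2_sum {J : Type*} (s : Finset J) (w : X → ℝ) (k : J → X → X → ℝ) :
    gm2 w (fun a a' => ∑ j ∈ s, k j a a') = ∑ j ∈ s, gm2 w (k j) := by
  unfold gm2
  have e : (fun z => gm w fun a' => ∑ j ∈ s, k j z a') = fun z => ∑ j ∈ s, gm w (k j z) := by
    funext z
    rw [gm_eq_av, av_sum]
    exact sum_congr rfl fun j _ => (gm_eq_av w _).symm
  rw [e, gm_eq_av, av_sum]
  exact sum_congr rfl fun j _ => (gm_eq_av w _).symm

theorem gm2_mono' (w : X → ℝ) {k k' : X → X → ℝ} (h : ∀ a a', k a a' ≤ k' a a') : gm2 w k ≤ gm2 w k' :=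
  gm_mono w fun a => gm_mono w fun a' => h a a'

theorem gm2_smul (w : X → ℝ) (c : ℝ) (k : X → X → ℝ) : gm2 w (fun a a' => c * k a a') = c * gm2 w k := by
  unfold gm2
  rw [← gm_smul']
  congr 1
  funext a
  rw [gm_smul']

theorem abs_Hh_le (wi : X → ℝ) (p : X → Y) (Φ : (Fin 3 → X × Bool) → ℝ) (a : X) : |Hh wi p Φ a| ≤ Hh wi p (fun x => |Φ x|) a := by
  unfold Hh
  rw [abs_le]
  constructor
  · have e : -cE wi p (fun b => cE wi p (fun c => |Φ ![(c, true), (b, true), (a, false)]|) a) a =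
        cE wi p (fun b => cE wi p (fun c => -1 * |Φ ![(c, true), (b, true), (a, false)]|) a) a := by
      have e1 : ∀ b, cE wi p (fun c => -1 * |Φ ![(c, true), (b, true), (a, false)]|) a =
          -1 * cE wi p (fun c => |Φ ![(c, true), (b, true), (a, false)]|) a := fun b => cE_const_mul wi p _ _ a
      simp only [e1]
      rw [cE_const_mul]
      ring
    rw [e]
    exact cE_mono wi p (fun b => cE_mono wi p (fun c => by linarith [neg_abs_le (Φ ![(c, true), (b, true), (a, false)])]) a) a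
  · exact cE_mono wi p (fun b => cE_mono wi p (fun c => le_abs_self _) a) a

theorem Hh_mono (wi : X → ℝ) (p : X → Y) {Φ Φ' : (Fin 3 → X × Bool) → ℝ}
    (h : ∀ a b c : X, Φ ![(c, true), (b, true), (a, false)] ≤ Φ' ![(c, true), (b, true), (a, false)]) (a : X) :
    Hh wi p Φ a ≤ Hh wi p Φ' a := cE_mono wi p (fun b => cE_mono wi p (fun c => h a b c) a) a

theorem Hh_sum {J : Type*} (s : Finset J) (wi : X → ℝ) (p : X → Y) (Φ : J → (Fin 3 → X × Bool) → ℝ) (a : X) :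
    Hh wi p (fun x => ∑ j ∈ s, Φ j x) a = ∑ j ∈ s, Hh wi p (Φ j) a := by
  unfold Hh
  have e : ∀ b, cE wi p (fun c => ∑ j ∈ s, Φ j ![(c, true), (b, true), (a, false)]) a =
      ∑ j ∈ s, cE wi p (fun c => Φ j ![(c, true), (b, true), (a, false)]) a := fun b => by
    rw [cE_eq_av, av_sum]
    exact sum_congr rfl fun j _ => (cE_eq_av wi p _ a).symm
  simp only [e]
  rw [cE_eq_av, av_sum]
  exact sum_congr rfl fun j _ => (cE_eq_av wi p _ a).symm

/-- The inner double mean of the integrand. -/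
theorem Hh_psC (wi : X → ℝ) (p : X → Y) (h0 : ∀ b c, 0 ≤ χ b c) (hγ : ∀ x, |γ x| ≤ M) (hg : ∀ x, |g x| ≤ M) {k : ℝ} (hk : 0 ≤ k) (a : X) :
    Hh wi p (fun x => k * |psC χ Yf γ g x|) a ≤ k * (2 * M ^ 2) * (|Yf a| * hb wi p χ a) := by
  have e : k * (2 * M ^ 2) * (|Yf a| * hb wi p χ a) = cE2 wi p (fun b c => (k * (2 * M ^ 2) * |Yf a|) * χ b c) a a := by
    rw [cE2_mul]
    unfold hb
    ring
  rw [e]
  refine cE_mono wi p (fun b => cE_mono wi p (fun c => ?_) a) a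
  have h1 : |psC χ Yf γ g ![(c, true), (b, true), (a, false)]| ≤ |Yf a| * (2 * M ^ 2 * χ b c) :=
    abs_psC_at (Yf := Yf) h0 hγ hg ![(c, true), (b, true), (a, false)]
  calc k * |psC χ Yf γ g ![(c, true), (b, true), (a, false)]| ≤ k * (|Yf a| * (2 * M ^ 2 * χ b c)) :=
        mul_le_mul_of_nonneg_left h1 hk
    _ = _ := by ring

/-- **The outer term, one insertion**, summed over the boxes. -/
theorem out1_le (p : X → Y) (w wi C : X → ℝ) {b : X → Bx} (hb' : ∀ a a', p a = p a' → b a = b a')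
    (hY : Mp p Yf) (h0 : ∀ b c, 0 ≤ χ b c) (hγ : ∀ x, |γ x| ≤ M) (hg : ∀ x, |g x| ≤ M) :
    ∑ β : Fin 3 → Bx, |(K38 p).dbl.toEv.ev (lab w wi) ((K38 p).dr.ins (out C) (lcG (fun z => b z.1) β (psC χ Yf γ g)))| ≤
      2 * M ^ 2 * gm2 w fun a a' => |Yf a| * hb wi p χ a * |cE w p C a - cE w p C a'| := by
  have h1 : ∀ β : Fin 3 → Bx, |(K38 p).dbl.toEv.ev (lab w wi) ((K38 p).dr.ins (out C) (lcG (fun z => b z.1) β (psC χ Yf γ g)))| ≤
      gm2 w fun a a' => |Hh wi p (lcG (fun z => b z.1) β (psC χ Yf γ g)) a| * |cE w p C a - cE w p C a'| := fun β => by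
    rw [ev_out]
    refine abs_gc_out w C (mp_Hh wi fun a a' b' c haa => ?_)
    unfold lcG
    have e1 : (fun i => b (![(c, true), (b', true), (a, false)] i : X × Bool).1) =
        fun i => b (![(c, true), (b', true), (a', false)] i : X × Bool).1 := by
      funext i
      fin_cases i
      · rfl
      · rfl
      · exact hb' a a' haa
    rw [e1, psC_at, psC_at, hY a a' haa]
  refine (Finset.sum_le_sum fun β _ => h1 β).trans ?_
  rw [← gm2_sum, ← gm2_smul]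
  refine gm2_mono' w fun a a' => ?_
  rw [← Finset.sum_mul]
  have h2 : ∑ β : Fin 3 → Bx, |Hh wi p (lcG (fun z => b z.1) β (psC χ Yf γ g)) a| ≤ 2 * M ^ 2 * (|Yf a| * hb wi p χ a) := by
    refine (Finset.sum_le_sum fun β _ => abs_Hh_le wi p _ a).trans ?_
    rw [← Hh_sum]
    have h3 := Hh_psC (Yf := Yf) wi p h0 hγ hg (k := 1) zero_le_one a
    refine le_trans (Hh_mono wi p (fun a b' c => ?_) a) (h3.trans_eq (by ring))
    rw [sum_abs_lcG, one_mul]
  calc (∑ β : Fin 3 → Bx, |Hh wi p (lcG (fun z => b z.1) β (psC χ Yf γ g)) a|) * |cE w p C a - cE w p C a'| ≤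
      2 * M ^ 2 * (|Yf a| * hb wi p χ a) * |cE w p C a - cE w p C a'| := mul_le_mul_of_nonneg_right h2 (abs_nonneg _)
    _ = _ := by ring

/-- **The outer term, two insertions.** -/
theorem out2_le (p : X → Y) (w wi C : X → ℝ) (hY : Mp p Yf) (h0 : ∀ b c, 0 ≤ χ b c) (hγ : ∀ x, |γ x| ≤ M) (hg : ∀ x, |g x| ≤ M) :
    |(K38 p).dbl.dbl.toEv.ev (lab w wi) ((K38 p).dbl.dr.ins (out C) ((K38 p).dr.ins (inj g) (psC χ Yf γ g)))| ≤
      8 * M ^ 3 * gm2 w fun a a' => |Yf a| * hb wi p χ a * |cE w p C a - cE w p C a'| := by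
  have hM : 0 ≤ M := (abs_nonneg _).trans (hg (Classical.arbitrary X))
  rw [ev2_out]
  have hm : Mp p (Hh wi p (insH wi p g (psC χ Yf γ g))) := mp_Hh wi fun a a' b' c haa => by
    unfold insH
    rw [psC_at, psC_at, hY a a' haa]
    show _ * ((g b' - cE wi p g a) + (g c - cE wi p g a)) = _ * ((g b' - cE wi p g a') + (g c - cE wi p g a'))
    rw [cE_meas wi p g a a' haa]
  refine (abs_gc_out w C hm).trans ?_
  rw [← gm2_smul]
  refine gm2_mono' w fun a a' => ?_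
  have h2 : |Hh wi p (insH wi p g (psC χ Yf γ g)) a| ≤ 8 * M ^ 3 * (|Yf a| * hb wi p χ a) := by
    refine (abs_Hh_le wi p _ a).trans ?_
    have h3 := Hh_psC (Yf := Yf) wi p h0 hγ hg (k := 4 * M) (by positivity) a
    refine le_trans (Hh_mono wi p (fun a b' c => ?_) a) (h3.trans_eq (by ring))
    unfold insH
    rw [abs_mul, mul_comm]
    refine mul_le_mul_of_nonneg_right ?_ (abs_nonneg _)
    show |(g b' - cE wi p g a) + (g c - cE wi p g a)| ≤ 4 * M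
    have k1 := abs_cE_le wi p hg a
    have k2 := hg b'
    have k3 := hg c
    rw [abs_le] at *
    constructor
    · linarith [k1.1, k1.2, k2.1, k3.1]
    · linarith [k1.1, k1.2, k2.2, k3.2]
  calc |Hh wi p (insH wi p g (psC χ Yf γ g)) a| * |cE w p C a - cE w p C a'| ≤
      8 * M ^ 3 * (|Yf a| * hb wi p χ a) * |cE w p C a - cE w p C a'| := mul_le_mul_of_nonneg_right h2 (abs_nonneg _)
    _ = _ := by ring

end Out

/-! ### Assembly -/

section Row

variable {f f' : ℝ → ℝ} {bk bk' : Bool} {Bx : Type*} [Fintype Bx] [DecidableEq Bx] {χ : X → X → ℝ}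
variable {S1 S2 : Finset Pt} {c1 c2 : Pt → Env → ℝ} {M1 M2 V L M M' Kt : ℝ} {w wi Yf γ g : Env → X → ℝ} {N : Pt → X → ℝ}
  {γ' : Pt → Env → X → ℝ}

theorem lin3 {A B C : Env → ℝ} (hA : Integrable A (law μ)) (hB : Integrable B (law μ)) (hC : Integrable C (law μ)) (α k β : ℝ) :
    Integrable (fun η => α * (A η + k * B η) + β * C η) (law μ) ∧
      ∫ η, (α * (A η + k * B η) + β * C η) ∂(law μ) = α * (∫ η, A η ∂(law μ) + k * ∫ η, B η ∂(law μ)) + β * ∫ η, C η ∂(law μ) := by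
  have h1 : Integrable (fun η => k * B η) (law μ) := hB.const_mul k
  have h2 : Integrable (fun η => A η + k * B η) (law μ) := hA.add h1
  have h3 : Integrable (fun η => α * (A η + k * B η)) (law μ) := h2.const_mul α
  have h4 : Integrable (fun η => β * C η) (law μ) := hC.const_mul β
  refine ⟨h3.add h4, ?_⟩
  rw [integral_add h3 h4, integral_const_mul, integral_const_mul, integral_add hA h1, integral_const_mul]

/-- The rest of a field. -/
def rst (S : Finset Pt) (c : Pt → Env → ℝ) (N : Pt → X → ℝ) (g : Env → X → ℝ) (η : Env) (x : X) : ℝ := |g η x - Cf S c N η x|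

/-- The far part of the mean of the outer and of the inner replicas. -/
def fr (w wi : X → ℝ) (p : X → Y) (χ : X → X → ℝ) (Yf : X → ℝ) (tub : X → X → ℝ) : ℝ :=
  gm w fun a => |Yf a| * (hb wi p χ a * (tub a a + 3 * gm w (tub a)) + 8 * cE wi p (tub a) a)

/-- The outer functional. -/
def ou (w wi : X → ℝ) (p : X → Y) (χ : X → X → ℝ) (Yf C : X → ℝ) : ℝ :=
  gm2 w fun a a' => |Yf a| * hb wi p χ a * |cE w p C a - cE w p C a'|

theorem KS_sz (p : X → Y) : (K38 p).dr.sz = 6 := by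
  rw [(K38 p).sz]
  norm_num

/-- **Term 3, pointwise.** -/
theorem t3_pt (p : X → Y) (w wi C : X → ℝ) {b : X → Bx} (hb' : ∀ a a', p a = p a' → b a = b a') {Yf γ g : X → ℝ} {M : ℝ}
    (hY : Mp p Yf) (h0 : ∀ b c, 0 ≤ χ b c) (hs : ∀ b c, χ b c = χ c b) (hγ : ∀ x, |γ x| ≤ M) (hg : ∀ x, |g x| ≤ M) :
    ∑ β : Fin 3 → Bx, |(K38 p).dbl.toEv.ev (lab w wi) ((K38 p).dr.ins (inj g - fp C) (lcG (fun z => b z.1) β (psC χ Yf γ g)))| ≤
      4 * M ^ 2 * (gm w (fun a => |Yf a| * dt wi p χ (fun x => |g x - C x|) a) +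
        gm w fun a => |Yf a| * (hb wi p χ a * cE wi p (fun x => |g x - C x|) a)) + 2 * M ^ 2 * ou w wi p χ Yf C := by
  have h1 : ∀ β : Fin 3 → Bx, |(K38 p).dbl.toEv.ev (lab w wi) ((K38 p).dr.ins (inj g - fp C) (lcG (fun z => b z.1) β (psC χ Yf γ g)))| ≤
      (K38 p).dbl.toEv.ev (lab w wi) (fun y => |(K38 p).dr.ins (inj (g - C)) (lcG (fun z => b z.1) β (psC χ Yf γ g)) y|) +
        |(K38 p).dbl.toEv.ev (lab w wi) ((K38 p).dr.ins (out C) (lcG (fun z => b z.1) β (psC χ Yf γ g)))| := fun β => by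
    rw [rem_fp]
    have e : ∀ y, (K38 p).dr.ins (inj (g - C) - out C) (lcG (fun z => b z.1) β (psC χ Yf γ g)) y =
        (K38 p).dr.ins (inj (g - C)) (lcG (fun z => b z.1) β (psC χ Yf γ g)) y -
          (K38 p).dr.ins (out C) (lcG (fun z => b z.1) β (psC χ Yf γ g)) y := fun y => R63.ins_sub _ _ _ _ _
    rw [H41.ev_congr _ _ e, R63.ev_sub]
    exact (abs_sub _ _).trans (add_le_add (H41.abs_ev_le _ _ _) le_rfl)
  refine (Finset.sum_le_sum fun β _ => h1 β).trans ?_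
  rw [Finset.sum_add_distrib]
  refine add_le_add ?_ (out1_le p w wi C hb' hY h0 hγ hg)
  rw [← H41.ev_sum]
  have h2 : ∀ y, ∑ β, |(K38 p).dr.ins (inj (g - C)) (lcG (fun z => b z.1) β (psC χ Yf γ g)) y| =
      |(K38 p).dr.ins (inj (g - C)) (psC χ Yf γ g) y| := fun y => sum_abs_ins_lcG _ _ _ _ _
  rw [H41.ev_congr _ _ h2]
  have h3 := ev_abs_ins (K38 p) (lab w wi) (A := inj (g - C)) (B := inj fun x => |g x - C x|) (fun z => by
    obtain ⟨x, l⟩ := z
    cases l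
    · show |(0 : ℝ)| ≤ 0
      rw [abs_zero]
    · exact le_rfl) (psC χ Yf γ g)
  have h4 := T3_le (Yf := Yf) p w wi h0 hs hγ hg (R := fun x => |g x - C x|) (fun x => abs_nonneg _) (k := 1) zero_le_one
  simp only [one_mul] at h4
  exact h3.trans h4

/-- **Term 6, pointwise.** -/
theorem t6_pt (p : X → Y) (w wi C : X → ℝ) {Yf γ g : X → ℝ} {M : ℝ}
    (hY : Mp p Yf) (h0 : ∀ b c, 0 ≤ χ b c) (hs : ∀ b c, χ b c = χ c b) (hγ : ∀ x, |γ x| ≤ M) (hg : ∀ x, |g x| ≤ M) :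
    |(K38 p).dbl.dbl.toEv.ev (lab w wi) ((K38 p).dbl.dr.ins (inj g - fp C) ((K38 p).dr.ins (inj g) (psC χ Yf γ g)))| ≤
      24 * M ^ 3 * (gm w (fun a => |Yf a| * dt wi p χ (fun x => |g x - C x|) a) +
        3 * gm w fun a => |Yf a| * (hb wi p χ a * cE wi p (fun x => |g x - C x|) a)) + 8 * M ^ 3 * ou w wi p χ Yf C := by
  have hM : 0 ≤ M := (abs_nonneg _).trans (hg (Classical.arbitrary X))
  rw [rem_fp]
  have e : ∀ y, (K38 p).dbl.dr.ins (inj (g - C) - out C) ((K38 p).dr.ins (inj g) (psC χ Yf γ g)) y =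
      (K38 p).dbl.dr.ins (inj (g - C)) ((K38 p).dr.ins (inj g) (psC χ Yf γ g)) y -
        (K38 p).dbl.dr.ins (out C) ((K38 p).dr.ins (inj g) (psC χ Yf γ g)) y := fun y => R63.ins_sub _ _ _ _ _
  rw [H41.ev_congr _ _ e, R63.ev_sub]
  refine (abs_sub _ _).trans (add_le_add ((H41.abs_ev_le _ _ _).trans ?_) (out2_le p w wi C hY h0 hγ hg))
  have h3 := ev_abs_ins2 (K38 p) (lab w wi) (A := inj (g - C)) (B := inj fun x => |g x - C x|) (T := inj g) (fun z => by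
    obtain ⟨x, l⟩ := z
    cases l
    · show |(0 : ℝ)| ≤ 0
      rw [abs_zero]
    · exact le_rfl) (M := M) (abs_inj hg) (psC χ Yf γ g)
  have h4 := T3_le (Yf := Yf) p w wi h0 hs hγ hg (R := fun x => |g x - C x|) (fun x => abs_nonneg _) (k := 3) (by norm_num)
  have e3 : (2 : ℝ) * (Fintype.card (Fin 3) : ℝ) * M = 6 * M := by
    rw [Fintype.card_fin]
    push_cast
    ring
  rw [e3] at h3
  refine h3.trans ((mul_le_mul_of_nonneg_left h4 (by positivity)).trans (le_of_eq ?_))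
  ring

/-- **Term 4, pointwise.** -/
theorem t4_pt (p : X → Y) (w wi : X → ℝ) {b : X → Bx} {Yf γ g : X → ℝ} {M Mf : ℝ} (h0 : ∀ b c, 0 ≤ χ b c) (h1 : ∀ b c, χ b c ≤ 1)
    (hγ : ∀ x, |γ x| ≤ M) (hg : ∀ x, |g x| ≤ M) {F : Bx → X → ℝ} {tub : Bx → X → ℝ} (hM : 0 ≤ Mf) (ht : ∀ β x, 0 ≤ tub β x)
    (hF : ∀ β x, |F β x| ≤ Mf * tub β x) :
    (K38 p).dbl.toEv.ev (lab w wi) (fun y => |(K38 p).dr.insR (fun z => b z.1) (fun β : Fin 3 → Bx => fp (F (β 2)))
      (psC χ Yf γ g) y|) ≤ 2 * M ^ 2 * Mf * fr w wi p χ Yf (fun a => tub (b a)) := by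
  have h2 : ∀ y : Fin 3 ⊕ Fin 3 → X × Bool, |(K38 p).dr.insR (fun z => b z.1) (fun β : Fin 3 → Bx => fp (F (β 2)))
      (psC χ Yf γ g) y| ≤ Mf * ((fun x => |psC χ Yf γ g x|) (fun i => y (Sum.inl i)) *
        ∑ j, (fun x : Fin 3 → X × Bool => fp (tub (b (x 2).1))) (fun i => y (Sum.inl i)) (y j)) := fun y => by
    have h3 := abs_ins_sum (K38 p).dr (KS_sg (K38 p)) (A := fp (F (b (y (Sum.inl 2)).1)))
      (B := fun z => Mf * tub (b (y (Sum.inl 2)).1) z.1) (fun z => hF _ _) (psC χ Yf γ g) y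
    refine h3.trans (le_of_eq ?_)
    rw [← Finset.mul_sum]
    show |psC χ Yf γ g fun i => y (Sum.inl i)| * (Mf * ∑ j, tub (b (y (Sum.inl 2)).1) (y j).1) = _
    show _ = Mf * (|psC χ Yf γ g fun i => y (Sum.inl i)| * ∑ j, tub (b (y (Sum.inl 2)).1) (y j).1)
    ring
  refine (H41.ev_mono _ _ h2).trans ?_
  rw [H41.ev_smul, dbl_sum (K38 p) (lab w wi) (fun x => |psC χ Yf γ g x|) fun x => fp (tub (b (x 2).1))]
  have h4 := T4_le (Yf := Yf) p w wi h0 h1 hγ hg (tub := fun a => tub (b a)) (fun a x => ht _ _) (k := 1) zero_le_one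
  simp only [one_mul] at h4
  have h5 : gm w (fun a => |Yf a| * (hb wi p χ a * (tub (b a) a + gm w (tub (b a))) + (2 + 2 * 1) * cE wi p (tub (b a)) a)) ≤
      fr w wi p χ Yf (fun a => tub (b a)) := gm_mono w fun a => mul_le_mul_of_nonneg_left (by
    have k1 : 0 ≤ hb wi p χ a := cE2_nonneg wi p h0 a a
    have k2 : 0 ≤ gm w (tub (b a)) := gm_nonneg w (ht _)
    have k3 : 0 ≤ cE wi p (tub (b a)) a := cE_nonneg wi p (ht _) a
    have k4 := mul_nonneg k1 k2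
    nlinarith) (abs_nonneg _)
  calc Mf * _ ≤ Mf * (2 * M ^ 2 * fr w wi p χ Yf (fun a => tub (b a))) :=
        mul_le_mul_of_nonneg_left (h4.trans (mul_le_mul_of_nonneg_left (by simpa using h5) (by positivity))) hM
    _ = _ := by ring

/-- **Term 7, pointwise.** -/
theorem t7_pt (p : X → Y) (w wi : X → ℝ) {b : X → Bx} {Yf γ g : X → ℝ} {M Mf : ℝ} (h0 : ∀ b c, 0 ≤ χ b c) (h1 : ∀ b c, χ b c ≤ 1)
    (hγ : ∀ x, |γ x| ≤ M) (hg : ∀ x, |g x| ≤ M) {F : Bx → X → ℝ} {tub : Bx → X → ℝ} (hM : 0 ≤ Mf) (ht : ∀ β x, 0 ≤ tub β x)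
    (hF : ∀ β x, |F β x| ≤ Mf * tub β x) :
    (K38 p).dbl.dbl.toEv.ev (lab w wi) (fun y => |(K38 p).dbl.dr.ins (fp (F (b (y (Sum.inl (Sum.inl 2))).1)))
      ((K38 p).dr.ins (inj g) (psC χ Yf γ g)) y|) ≤ 12 * M ^ 3 * Mf * fr w wi p χ Yf (fun a => tub (b a)) := by
  have hM0 : 0 ≤ M := (abs_nonneg _).trans (hg (Classical.arbitrary X))
  have h2 : ∀ y : (Fin 3 ⊕ Fin 3) ⊕ (Fin 3 ⊕ Fin 3) → X × Bool,
      |(K38 p).dbl.dr.ins (fp (F (b (y (Sum.inl (Sum.inl 2))).1))) ((K38 p).dr.ins (inj g) (psC χ Yf γ g)) y| ≤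
      6 * M * Mf * ((fun x => |psC χ Yf γ g x|) (fun i => y (Sum.inl (Sum.inl i))) *
        ∑ j, (fun x : Fin 3 → X × Bool => fp (tub (b (x 2).1))) (fun i => y (Sum.inl (Sum.inl i))) (y j)) := fun y => by
    have h3 := abs_ins_sum (K38 p).dbl.dr (KS_sg (K38 p).dbl) (A := fp (F (b (y (Sum.inl (Sum.inl 2))).1)))
      (B := fun z => Mf * tub (b (y (Sum.inl (Sum.inl 2))).1) z.1) (fun z => hF _ _) ((K38 p).dr.ins (inj g) (psC χ Yf γ g)) y
    have h5 : |(K38 p).dr.ins (inj g) (psC χ Yf γ g) fun i => y ((K38 p).dbl.dr.emb i)| ≤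
        |psC χ Yf γ g fun i => y (Sum.inl (Sum.inl i))| * (6 * M) := by
      have h6 := abs_ins_sum (K38 p).dr (KS_sg (K38 p)) (A := inj g) (B := fun _ => M) (abs_inj hg) (psC χ Yf γ g)
        fun i => y ((K38 p).dbl.dr.emb i)
      have e6 : ∑ j : Fin 3 ⊕ Fin 3, (fun _ : X × Bool => M) ((fun i => y ((K38 p).dbl.dr.emb i)) j) = 6 * M := by
        show ∑ j : Fin 3 ⊕ Fin 3, M = _
        rw [Finset.sum_const, Finset.card_univ, Fintype.card_sum, Fintype.card_fin, nsmul_eq_mul]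
        push_cast
        ring
      rw [e6] at h6
      exact h6
    have h7 : 0 ≤ ∑ j, Mf * tub (b (y (Sum.inl (Sum.inl 2))).1) (y j).1 :=
      Finset.sum_nonneg fun j _ => mul_nonneg hM (ht _ _)
    refine (h3.trans (mul_le_mul_of_nonneg_right h5 h7)).trans (le_of_eq ?_)
    rw [← Finset.mul_sum]
    show _ = 6 * M * Mf * (|psC χ Yf γ g fun i => y (Sum.inl (Sum.inl i))| * ∑ j, tub (b (y (Sum.inl (Sum.inl 2))).1) (y j).1)
    ring
  refine (H41.ev_mono _ _ h2).trans ?_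
  rw [H41.ev_smul, dbl2_sum (K38 p) (lab w wi) (fun x => |psC χ Yf γ g x|) fun x => fp (tub (b (x 2).1))]
  have h4 := T4_le (Yf := Yf) p w wi h0 h1 hγ hg (tub := fun a => tub (b a)) (fun a x => ht _ _) (k := 3) (by norm_num)
  have h5 : gm w (fun a => |Yf a| * (hb wi p χ a * (tub (b a) a + 3 * gm w (tub (b a))) + (2 + 2 * 3) * cE wi p (tub (b a)) a)) =
      fr w wi p χ Yf (fun a => tub (b a)) := by
    unfold fr
    norm_num
  rw [h5] at h4
  calc 6 * M * Mf * _ ≤ 6 * M * Mf * (2 * M ^ 2 * fr w wi p χ Yf (fun a => tub (b a))) :=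
        mul_le_mul_of_nonneg_left h4 (by positivity)
    _ = _ := by ring

/-- **THE ROW INEQUALITY.** -/
theorem row38 (h : DenLaw μ f f') {K θ0 : ℝ} (hs : SG μ (sc f f') K θ0)
    -- the slabs and the fields
    (hd12 : Disjoint S1 S2) (d1 : DF bk S1 c1 M1) (d2 : DF bk' S2 c2 M2) (hM1 : 0 ≤ M1) (hM2 : 0 ≤ M2)
    (h12 : ∀ q1 ∈ S1, ∀ q2 ∈ S2, ∀ (η : Env) (x : ℝ), c1 q1 (Function.update η q2 x) = c1 q1 η)
    -- the weights
    (hw1 : Wt S1 w N V) (hv1 : Wt S1 wi N V) (hw2 : Wt S2 w N V) (hv2 : Wt S2 wi N V)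
    -- the functionals
    (mY : Measurable Yf) (mγ : Measurable γ) (mg : Measurable g) (hY : ∀ η x, |Yf η x| ≤ L) (hγ : ∀ η x, |γ η x| ≤ M)
    (hg : ∀ η x, |g η x| ≤ M) (p : X → Y) (hYp : ∀ η, Mp p (Yf η)) (bY1 : Bl S1 Yf) (bY2 : Bl S2 Yf) (bg1 : Bl S1 g) (bg2 : Bl S2 g)
    (hd : ∀ q ∈ S1 ∪ S2, ∀ (η : Env) (x : ℝ) (s : X), HasDerivAt (fun t => γ (Function.update η q t) s)
      (γ' q (Function.update η q x) s) x) (mγ' : ∀ q ∈ S1 ∪ S2, Measurable (γ' q)) (hγ' : ∀ q ∈ S1 ∪ S2, ∀ η x, |γ' q η x| ≤ M')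
    (h0 : ∀ b c, 0 ≤ χ b c) (h1 : ∀ b c, χ b c ≤ 1) (hs' : ∀ b c, χ b c = χ c b)
    -- the boxes and the cones
    {b : X → Bx} (hbp : ∀ a a', p a = p a' → b a = b a') {ch1 ch2 : Bx → Pt → ℝ} (z1 : ∀ β q, 0 ≤ ch1 β q)
    (u1 : ∀ β q, ch1 β q ≤ 1) (z2 : ∀ β q, 0 ≤ ch2 β q) (u2 : ∀ β q, ch2 β q ≤ 1) {t1 t2 a1 a2 Q1 Q2 : ℝ} (q1 : 0 < t1)
    (q2 : 0 < t2) (r1 : 2 * t1 * M1 ≤ θ0) (r2 : 2 * t2 * M2 ≤ θ0) (hQ1 : ∀ β η, QV S1 (H41.cut (ch1 β) c1) η ≤ Q1)
    (hQ2 : ∀ β η, QV S2 (H41.cut (ch2 β) c2) η ≤ Q2) (ha1 : 0 ≤ a1) (ha2 : 0 ≤ a2)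
    -- the ties of the response and the tubes
    {tie1 tie2 : Env → X → ℝ} {Dt : ℝ} (mt1 : MF tie1 Dt) (mt2 : MF tie2 Dt) (hKt : 0 ≤ Kt)
    (ht1 : ∀ β η x, |∑ q ∈ S1, H41.cut (ch1 β) c1 q η * γ' q η x| ≤ Kt * tie1 η x)
    (ht2 : ∀ β η x, |∑ q ∈ S2, H41.cut (ch2 β) c2 q η * γ' q η x| ≤ Kt * tie2 η x)
    {Mf : ℝ} (hMf : 0 ≤ Mf) {tub1 tub2 : Bx → X → ℝ} (v1 : ∀ β x, 0 ≤ tub1 β x) (v1' : ∀ β x, tub1 β x ≤ 1) (v2 : ∀ β x, 0 ≤ tub2 β x)
    (v2' : ∀ β x, tub2 β x ≤ 1) (hf1 : ∀ β η x, |Cf S1 (H41.cut' (ch1 β) c1) N η x| ≤ Mf * tub1 β x)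
    (hf2 : ∀ β η x, |Cf S2 (H41.cut' (ch2 β) c2) N η x| ≤ Mf * tub2 β x) :
    |∫ η, (K38 p).dbl.dbl.toEv.ev (lab (w η) (wi η)) ((K38 p).dbl.dr.ins (inj (g η)) ((K38 p).dr.ins (inj (g η))
      (psC χ (Yf η) (γ η) (g η)))) ∂(law μ)| ≤
      a1 * a2 * (2 * M ^ 2 * ∫ η, gm (w η) (fun a => |Yf η a| * hb (wi η) p χ a) ∂(law μ)) +
      a1 * (2 * Kt * M * ∫ η, gm (w η) (fun a => |Yf η a| * dt (wi η) p χ (tie2 η) a) ∂(law μ)) +
      a1 * (4 * M ^ 2 * (∫ η, gm (w η) (fun a => |Yf η a| * dt (wi η) p χ (rst S2 c2 N g η) a) ∂(law μ) +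
        ∫ η, gm (w η) (fun a => |Yf η a| * (hb (wi η) p χ a * cE (wi η) p (rst S2 c2 N g η) a)) ∂(law μ)) +
        2 * M ^ 2 * ∫ η, ou (w η) (wi η) p χ (Yf η) (Cf S2 c2 N η) ∂(law μ)) +
      a1 * (2 * M ^ 2 * Mf * ∫ η, fr (w η) (wi η) p χ (Yf η) (fun a => tub2 (b a)) ∂(law μ)) +
      6 * M * (2 * Kt * M * ∫ η, gm (w η) (fun a => |Yf η a| * dt (wi η) p χ (tie1 η) a) ∂(law μ)) +
      (24 * M ^ 3 * (∫ η, gm (w η) (fun a => |Yf η a| * dt (wi η) p χ (rst S1 c1 N g η) a) ∂(law μ) +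
        3 * ∫ η, gm (w η) (fun a => |Yf η a| * (hb (wi η) p χ a * cE (wi η) p (rst S1 c1 N g η) a)) ∂(law μ)) +
        8 * M ^ 3 * ∫ η, ou (w η) (wi η) p χ (Yf η) (Cf S1 c1 N η) ∂(law μ)) +
      12 * M ^ 3 * Mf * ∫ η, fr (w η) (wi η) p χ (Yf η) (fun a => tub1 (b a)) ∂(law μ) +
      (Fintype.card (Fin 3 → Bx) : ℝ) * (tail2 K (L * (2 * M * M)) t1 t2 a1 a2 Q1 Q2 +
        tail1 K (S2.card * (M2 * (L * (2 * M' * M)))) t1 a1 Q1 +
        tail1 K (L * (2 * M * M) * (6 * (M + S2.card * (M2 * V)))) t1 a1 Q1 +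
        tail1 K (L * (2 * M * M) * (6 * (S2.card * (M2 * V)))) t1 a1 Q1) := by
  have hM : 0 ≤ M := (abs_nonneg _).trans (hg (fun _ => 0) (Classical.arbitrary X))
  have hL : 0 ≤ L := (abs_nonneg _).trans (hY (fun _ => 0) (Classical.arbitrary X))
  have mw : ∀ x, Measurable fun η => w η x := fun x => (measurable_pi_apply x).comp hw1.meas
  have mv : ∀ x, Measurable fun η => wi η x := fun x => (measurable_pi_apply x).comp hv1.meas
  have W1 := Wt_lab hw1 hv1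
  have W2 := Wt_lab hw2 hv2
  have oΨ : Obs (fun η => psC χ (Yf η) (γ η) (g η)) (L * (2 * M * M)) := obs_psC h0 h1 mY mγ mg hY hγ hg
  have oΨ1 : ∀ q ∈ S1, Obs (fun η => psC χ (Yf η) (γ' q η) (g η)) (L * (2 * M' * M)) := fun q hq =>
    obs_psC h0 h1 mY (mγ' q (mem_union_left _ hq)) mg hY (hγ' q (mem_union_left _ hq)) hg
  have oΨ2 : ∀ q ∈ S2, Obs (fun η => psC χ (Yf η) (γ' q η) (g η)) (L * (2 * M' * M)) := fun q hq =>
    obs_psC h0 h1 mY (mγ' q (mem_union_right _ hq)) mg hY (hγ' q (mem_union_right _ hq)) hg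
  have sd1 : Sd S1 (fun η => psC χ (Yf η) (γ η) (g η)) fun q η => psC χ (Yf η) (γ' q η) (g η) :=
    sd_psC χ bY1 bg1 fun q hq => hd q (mem_union_left _ hq)
  have sd2 : Sd S2 (fun η => psC χ (Yf η) (γ η) (g η)) fun q η => psC χ (Yf η) (γ' q η) (g η) :=
    sd_psC χ bY2 bg2 fun q hq => hd q (mem_union_right _ hq)
  have mT : Measurable fun η => inj (g η) := meas_inj mg
  have hτ : ∀ η z, |inj (g η) z| ≤ M := fun η => abs_inj (hg η)
  have key := two_box (K38 p).dr (K38 p).dbl.dr h hs hd12 d1 d2 hM1 hM2 h12 W1 W2 oΨ oΨ1 oΨ2 sd1 sd2 mT hτ mT hτ (bl_inj bg1)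
    (fun z : X × Bool => b z.1) (χ1 := fun β => ch1 (β 2)) (χ2 := fun β => ch2 (β 2)) (fun β => z1 _) (fun β => u1 _)
    (fun β => z2 _) (fun β => u2 _) q1 q2 r1 r2 (fun β => hQ1 _) (fun β => hQ2 _) ha1 ha2
  rw [KS_sz] at key
  -- bounded functionals
  have Ya : MF (fun η a => |Yf η a|) L := (MF.of mY hY).abs
  have hχ : ∀ b c, |χ b c| ≤ 1 := fun b c => by rw [abs_of_nonneg (h0 b c)]; exact h1 b c
  have Hb : MF (fun η a => hb (wi η) p χ a) 1 := MF.cE2 (k := fun _ => χ) mv (fun _ _ => measurable_const) (fun _ => hχ) p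
  have Dt' : ∀ {F : Env → X → ℝ} {D : ℝ}, MF F D → MF (fun η a => dt (wi η) p χ (F η) a) D := fun {F D} hF =>
    MF.cE2 (k := fun η b c => F η b * χ b c) mv (fun b c => (hF.ms b).mul_const _) (fun η b c => by
      rw [abs_mul]
      calc |F η b| * |χ b c| ≤ D * 1 := mul_le_mul (hF.bd η b) (hχ b c) (abs_nonneg _) hF.nn
        _ = D := mul_one D) p
  have G : MF g M := MF.of mg hg
  have C1 : MF (fun η => Cf S1 c1 N η) (S1.card * (M1 * V)) := MF.of (H41.meas_Cf d1.meas N) fun η y => H41.abs_Cf_le d1.bd hw1.bd η y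
  have C2 : MF (fun η => Cf S2 c2 N η) (S2.card * (M2 * V)) := MF.of (H41.meas_Cf d2.meas N) fun η y => H41.abs_Cf_le d2.bd hw2.bd η y
  have R1 : MF (rst S1 c1 N g) (M + S1.card * (M1 * V)) := (G.sub C1).abs
  have R2 : MF (rst S2 c2 N g) (M + S2.card * (M2 * V)) := (G.sub C2).abs
  have iI : ∀ {R : Env → X → ℝ} {D : ℝ}, MF R D → Integrable (fun η => gm (w η) (fun a => |Yf η a| * dt (wi η) p χ (R η) a)) (law μ) :=
    fun {R D} hR => (Ya.mul (Dt' hR)).int mw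
  have iH : ∀ {R : Env → X → ℝ} {D : ℝ}, MF R D →
      Integrable (fun η => gm (w η) (fun a => |Yf η a| * (hb (wi η) p χ a * cE (wi η) p (R η) a))) (law μ) :=
    fun {R D} hR => (Ya.mul (Hb.mul (hR.cE mv p))).int mw
  have iM : Integrable (fun η => gm (w η) (fun a => |Yf η a| * hb (wi η) p χ a)) (law μ) := (Ya.mul Hb).int mw
  have iO : ∀ {C : Env → X → ℝ} {D : ℝ}, MF C D → Integrable (fun η => ou (w η) (wi η) p χ (Yf η) (C η)) (law μ) :=
    fun {C D} hC => by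
      have hcE := hC.cE mw p
      refine int_gm2 mw (D := L * 1 * (D + D)) (fun a a' => ?_) (fun η a a' => ?_)
      · exact ((Ya.mul Hb).ms a).mul (by simpa [Real.norm_eq_abs] using ((hcE.ms a).sub (hcE.ms a')).norm)
      · rw [abs_mul, abs_abs]
        exact mul_le_mul ((Ya.mul Hb).bd η a) ((abs_sub _ _).trans (add_le_add (hcE.bd η a) (hcE.bd η a'))) (abs_nonneg _)
          (Ya.mul Hb).nn
  have iF : ∀ {tub : Bx → X → ℝ}, (∀ β x, 0 ≤ tub β x) → (∀ β x, tub β x ≤ 1) →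
      Integrable (fun η => fr (w η) (wi η) p χ (Yf η) (fun a => tub (b a))) (law μ) := fun {tub} k0 k1 => by
    have kb : ∀ β x, |tub β x| ≤ 1 := fun β x => by rw [abs_of_nonneg (k0 β x)]; exact k1 β x
    have e1 : MF (fun (_ : Env) a => tub (b a) a) 1 := MF.det fun a => kb _ _
    have e2 : MF (fun η a => gm (w η) (tub (b a))) 1 := ⟨fun a => meas_gm mw fun _ => measurable_const, fun η a =>
      (abs_gm_le' (w η) _).trans ((gm_mono (w η) fun x => kb _ x).trans_eq (gm_const (w η) 1))⟩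
    have e3 : MF (fun η a => cE (wi η) p (tub (b a)) a) 1 := ⟨fun a => meas_cE (f := fun _ => tub (b a)) mv (fun _ => measurable_const) p a,
      fun η a => abs_cE_le (wi η) p (kb _) a⟩
    exact (Ya.mul ((Hb.mul (e1.add (e2.smul (by norm_num : (0 : ℝ) ≤ 3)))).add (e3.smul (by norm_num : (0 : ℝ) ≤ 8)))).int mw
  -- term 1
  have k1 : ∫ η, (K38 p).toEv.ev (lab (w η) (wi η)) (fun x => |psC χ (Yf η) (γ η) (g η) x|) ∂(law μ) ≤
      2 * M ^ 2 * ∫ η, gm (w η) (fun a => |Yf η a| * hb (wi η) p χ a) ∂(law μ) := by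
    rw [← integral_const_mul]
    exact integral_mono (oΨ.abs.int _ W1.meas) (iM.const_mul _) fun η => T1_le p (w η) (wi η) h0 (hγ η) (hg η)
  -- the derivative of the integrand
  have eDg : ∀ (S : Finset Pt) (c : Pt → Env → ℝ) (ch : Bx → Pt → ℝ) (η : Env) (x : Fin 3 → X × Bool),
      Dg (fun z : X × Bool => b z.1) (fun β => ch (β 2)) S c (fun q η => psC χ (Yf η) (γ' q η) (g η)) η x =
      psC χ (Yf η) (fun x' => ∑ q ∈ S, H41.cut (ch (b (x 2).1)) c q η * γ' q η x') (g η) x := fun S c ch η x => by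
    have e1 := psC_sum χ (Yf η) (g η) S (fun q => H41.cut (ch (b (x 2).1)) c q η) (fun q => γ' q η) x
    have e2 : (∑ q ∈ S, H41.cut (ch (b (x 2).1)) c q η • γ' q η) =
        fun x' => ∑ q ∈ S, H41.cut (ch (b (x 2).1)) c q η * γ' q η x' := by
      funext x'
      simp only [Finset.sum_apply, Pi.smul_apply, smul_eq_mul]
    rw [e2] at e1
    exact e1
  have oD1 : Obs (Dg (fun z : X × Bool => b z.1) (fun β => ch1 (β 2)) S1 c1 fun q η => psC χ (Yf η) (γ' q η) (g η))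
      (S1.card * (M1 * (L * (2 * M' * M)))) := R63.Obs.dg d1 oΨ1 _ (fun β => z1 _) fun β => u1 _
  have oD2 : Obs (Dg (fun z : X × Bool => b z.1) (fun β => ch2 (β 2)) S2 c2 fun q η => psC χ (Yf η) (γ' q η) (g η))
      (S2.card * (M2 * (L * (2 * M' * M)))) := R63.Obs.dg d2 oΨ2 _ (fun β => z2 _) fun β => u2 _
  have p1 : ∀ η, (K38 p).toEv.ev (lab (w η) (wi η)) (fun x => |Dg (fun z : X × Bool => b z.1) (fun β => ch1 (β 2)) S1 c1
      (fun q η => psC χ (Yf η) (γ' q η) (g η)) η x|) ≤ 2 * Kt * M * gm (w η) (fun a => |Yf η a| * dt (wi η) p χ (tie1 η) a) := fun η => by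
    simp only [eDg]
    exact T2_le p (w η) (wi η) h0 hs' (γ' := fun a x' => ∑ q ∈ S1, H41.cut (ch1 (b a)) c1 q η * γ' q η x') (fun a x => ht1 _ η x) (hg η)
  have p2 : ∀ η, (K38 p).toEv.ev (lab (w η) (wi η)) (fun x => |Dg (fun z : X × Bool => b z.1) (fun β => ch2 (β 2)) S2 c2
      (fun q η => psC χ (Yf η) (γ' q η) (g η)) η x|) ≤ 2 * Kt * M * gm (w η) (fun a => |Yf η a| * dt (wi η) p χ (tie2 η) a) := fun η => by
    simp only [eDg]
    exact T2_le p (w η) (wi η) h0 hs' (γ' := fun a x' => ∑ q ∈ S2, H41.cut (ch2 (b a)) c2 q η * γ' q η x') (fun a x => ht2 _ η x) (hg η)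
  have k2 : ∫ η, (K38 p).toEv.ev (lab (w η) (wi η)) (fun x => |Dg (fun z : X × Bool => b z.1) (fun β => ch2 (β 2)) S2 c2
      (fun q η => psC χ (Yf η) (γ' q η) (g η)) η x|) ∂(law μ) ≤
      2 * Kt * M * ∫ η, gm (w η) (fun a => |Yf η a| * dt (wi η) p χ (tie2 η) a) ∂(law μ) := by
    rw [← integral_const_mul]
    exact integral_mono (oD2.abs.int _ W1.meas) ((iI mt2).const_mul _) p2
  have k5 : ∫ η, (K38 p).dbl.toEv.ev (lab (w η) (wi η)) (fun y => |(K38 p).dr.ins (inj (g η)) (Dg (fun z : X × Bool => b z.1)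
      (fun β => ch1 (β 2)) S1 c1 (fun q η => psC χ (Yf η) (γ' q η) (g η)) η) y|) ∂(law μ) ≤
      6 * M * (2 * Kt * M * ∫ η, gm (w η) (fun a => |Yf η a| * dt (wi η) p χ (tie1 η) a) ∂(law μ)) := by
    rw [← integral_const_mul, ← integral_const_mul]
    refine integral_mono ((oD1.ins (K38 p).dr mT hτ).abs.int _ W1.meas) (((iI mt1).const_mul _).const_mul _) fun η => ?_
    have e1 := ev_abs_ins (K38 p) (lab (w η) (wi η)) (A := inj (g η)) (B := fun _ => M) (hτ η)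
      (Dg (fun z : X × Bool => b z.1) (fun β => ch1 (β 2)) S1 c1 (fun q η => psC χ (Yf η) (γ' q η) (g η)) η)
    have e2 : ∀ x : Fin 3 → X × Bool, ∑ i, ((fun _ : X × Bool => M) (x i) + av (lab (w η) (wi η)) ((K38 p).A i x) fun _ => M) = 6 * M :=
      fun x => by
        have e3 : ∀ i, (fun _ : X × Bool => M) (x i) + av (lab (w η) (wi η)) ((K38 p).A i x) (fun _ => M) = M + M := fun i => by
          rw [av_const _ ((K38 p).ne i x)]
        rw [Finset.sum_congr rfl fun i _ => e3 i, Finset.sum_const, Finset.card_univ, Fintype.card_fin, nsmul_eq_mul]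
        push_cast
        ring
    simp only [e2] at e1
    refine e1.trans ?_
    have e4 : ∀ x : Fin 3 → X × Bool, |Dg (fun z : X × Bool => b z.1) (fun β => ch1 (β 2)) S1 c1
        (fun q η => psC χ (Yf η) (γ' q η) (g η)) η x| * (6 * M) = 6 * M * |Dg (fun z : X × Bool => b z.1) (fun β => ch1 (β 2)) S1 c1
        (fun q η => psC χ (Yf η) (γ' q η) (g η)) η x| := fun x => mul_comm _ _
    rw [H41.ev_congr _ _ e4, H41.ev_smul]
    exact mul_le_mul_of_nonneg_left (p1 η) (by positivity)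
  -- term 3
  have k3 : ∑ β : Fin 3 → Bx, ∫ η, |(K38 p).dbl.toEv.ev (lab (w η) (wi η)) ((K38 p).dr.ins (inj (g η) - Cf S2 c2 (fun q => fp (N q)) η)
      (lcG (fun z : X × Bool => b z.1) β (psC χ (Yf η) (γ η) (g η))))| ∂(law μ) ≤
      4 * M ^ 2 * (∫ η, gm (w η) (fun a => |Yf η a| * dt (wi η) p χ (rst S2 c2 N g η) a) ∂(law μ) +
        ∫ η, gm (w η) (fun a => |Yf η a| * (hb (wi η) p χ a * cE (wi η) p (rst S2 c2 N g η) a)) ∂(law μ)) +
        2 * M ^ 2 * ∫ η, ou (w η) (wi η) p χ (Yf η) (Cf S2 c2 N η) ∂(law μ) := by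
    have mR : Measurable fun η => inj (g η) - Cf S2 c2 (fun q => fp (N q)) η := mT.sub (H41.meas_Cf d2.meas _)
    have bR : ∀ η z, |(inj (g η) - Cf S2 c2 (fun q => fp (N q)) η) z| ≤ M + S2.card * (M2 * V) := fun η y =>
      (abs_sub _ _).trans (add_le_add (hτ η y) (H41.abs_Cf_le d2.bd W2.bd η y))
    have i3 : ∀ β : Fin 3 → Bx, Integrable (fun η => |(K38 p).dbl.toEv.ev (lab (w η) (wi η)) ((K38 p).dr.ins
        (inj (g η) - Cf S2 c2 (fun q => fp (N q)) η) (lcG (fun z : X × Bool => b z.1) β (psC χ (Yf η) (γ η) (g η))))|) (law μ) :=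
      fun β => (((oΨ.lc (fun z : X × Bool => b z.1) β).ins (K38 p).dr mR bR).int (K38 p).dbl.toEv W1.meas).abs
    have e3 := integral_finsetSum (μ := law μ) (univ : Finset (Fin 3 → Bx)) fun β _ => i3 β
    obtain ⟨i4, e4⟩ := lin3 (iI R2) (iH R2) (iO C2) (4 * M ^ 2) 1 (2 * M ^ 2)
    simp only [one_mul] at i4 e4
    rw [← e3, ← e4]
    refine integral_mono (integrable_finsetSum _ fun β _ => i3 β) i4 fun η => ?_
    beta_reduce
    rw [Cf_fp]
    exact t3_pt p (w η) (wi η) (Cf S2 c2 N η) hbp (hYp η) h0 hs' (hγ η) (hg η)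
  -- term 6
  have k6 : |∫ η, (K38 p).dbl.dbl.toEv.ev (lab (w η) (wi η)) ((K38 p).dbl.dr.ins (inj (g η) - Cf S1 c1 (fun q => fp (N q)) η)
      ((K38 p).dr.ins (inj (g η)) (psC χ (Yf η) (γ η) (g η)))) ∂(law μ)| ≤
      24 * M ^ 3 * (∫ η, gm (w η) (fun a => |Yf η a| * dt (wi η) p χ (rst S1 c1 N g η) a) ∂(law μ) +
        3 * ∫ η, gm (w η) (fun a => |Yf η a| * (hb (wi η) p χ a * cE (wi η) p (rst S1 c1 N g η) a)) ∂(law μ)) +
        8 * M ^ 3 * ∫ η, ou (w η) (wi η) p χ (Yf η) (Cf S1 c1 N η) ∂(law μ) := by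
    have mR : Measurable fun η => inj (g η) - Cf S1 c1 (fun q => fp (N q)) η := mT.sub (H41.meas_Cf d1.meas _)
    have bR : ∀ η z, |(inj (g η) - Cf S1 c1 (fun q => fp (N q)) η) z| ≤ M + S1.card * (M1 * V) := fun η y =>
      (abs_sub _ _).trans (add_le_add (hτ η y) (H41.abs_Cf_le d1.bd W1.bd η y))
    have o6 : Integrable (fun η => (K38 p).dbl.dbl.toEv.ev (lab (w η) (wi η)) ((K38 p).dbl.dr.ins
        (inj (g η) - Cf S1 c1 (fun q => fp (N q)) η) ((K38 p).dr.ins (inj (g η)) (psC χ (Yf η) (γ η) (g η))))) (law μ) :=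
      ((oΨ.ins (K38 p).dr mT hτ).ins (K38 p).dbl.dr mR bR).int (K38 p).dbl.dbl.toEv W1.meas
    refine (abs_integral_le_integral_abs).trans ?_
    obtain ⟨i4, e4⟩ := lin3 (iI R1) (iH R1) (iO C1) (24 * M ^ 3) 3 (8 * M ^ 3)
    rw [← e4]
    refine integral_mono o6.abs i4 fun η => ?_
    beta_reduce
    rw [Cf_fp]
    exact t6_pt p (w η) (wi η) (Cf S1 c1 N η) (hYp η) h0 hs' (hγ η) (hg η)
  -- term 4
  have eF : ∀ (S : Finset Pt) (c : Pt → Env → ℝ) (ch : Bx → Pt → ℝ) (η : Env),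
      farF (fun β : Fin 3 → Bx => ch (β 2)) S c (fun q => fp (N q)) η = fun β => fp (Cf S (H41.cut' (ch (β 2)) c) N η) :=
    fun S c ch η => funext fun β => Cf_fp _ N η
  have k4 : ∫ η, (K38 p).dbl.toEv.ev (lab (w η) (wi η)) (fun y => |(K38 p).dr.insR (fun z : X × Bool => b z.1)
      (farF (fun β : Fin 3 → Bx => ch2 (β 2)) S2 c2 (fun q => fp (N q)) η) (psC χ (Yf η) (γ η) (g η)) y|) ∂(law μ) ≤
      2 * M ^ 2 * Mf * ∫ η, fr (w η) (wi η) p χ (Yf η) (fun a => tub2 (b a)) ∂(law μ) := by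
    have mR : ∀ β : Fin 3 → Bx, Measurable fun η => farF (fun β : Fin 3 → Bx => ch2 (β 2)) S2 c2 (fun q => fp (N q)) η β := fun β =>
      H41.meas_Cf (d2.cut' (z2 (β 2)) (u2 (β 2))).meas _
    have bR : ∀ η (β : Fin 3 → Bx) y, |farF (fun β : Fin 3 → Bx => ch2 (β 2)) S2 c2 (fun q => fp (N q)) η β y| ≤ S2.card * (M2 * V) :=
      fun η β y => H41.abs_Cf_le (d2.cut' (z2 (β 2)) (u2 (β 2))).bd W2.bd η y
    rw [← integral_const_mul]
    refine integral_mono ((oΨ.insR (K38 p).dr (fun z : X × Bool => b z.1) mR bR).abs.int _ W1.meas) ((iF v2 v2').const_mul _) fun η => ?_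
    beta_reduce
    rw [eF]
    exact t4_pt p (w η) (wi η) h0 h1 (hγ η) (hg η) (F := fun β => Cf S2 (H41.cut' (ch2 β) c2) N η) hMf v2 (fun β x => hf2 β η x)
  -- term 7
  have k7 : ∫ η, (K38 p).dbl.dbl.toEv.ev (lab (w η) (wi η)) (fun y => |far2 (K38 p).dr (K38 p).dbl.dr (fun z : X × Bool => b z.1)
      (fun β : Fin 3 → Bx => ch1 (β 2)) S1 c1 (fun q => fp (N q)) (fun η => inj (g η)) (fun η => psC χ (Yf η) (γ η) (g η)) η y|) ∂(law μ) ≤
      12 * M ^ 3 * Mf * ∫ η, fr (w η) (wi η) p χ (Yf η) (fun a => tub1 (b a)) ∂(law μ) := by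
    have mR : ∀ β : Fin 3 → Bx, Measurable fun η => farF (fun β : Fin 3 → Bx => ch1 (β 2)) S1 c1 (fun q => fp (N q)) η β := fun β =>
      H41.meas_Cf (d1.cut' (z1 (β 2)) (u1 (β 2))).meas _
    have bR : ∀ η (β : Fin 3 → Bx) y, |farF (fun β : Fin 3 → Bx => ch1 (β 2)) S1 c1 (fun q => fp (N q)) η β y| ≤ S1.card * (M1 * V) :=
      fun η β y => H41.abs_Cf_le (d1.cut' (z1 (β 2)) (u1 (β 2))).bd W1.bd η y
    have o7 := R63.Obs.far2 (K38 p).dr (K38 p).dbl.dr (fun z : X × Bool => b z.1) (χ := fun β : Fin 3 → Bx => ch1 (β 2))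
      (A := fun η β => farF (fun β : Fin 3 → Bx => ch1 (β 2)) S1 c1 (fun q => fp (N q)) η β) mR bR mT hτ oΨ
    rw [← integral_const_mul]
    refine integral_mono (o7.abs.int _ W1.meas) ((iF v1 v1').const_mul _) fun η => ?_
    beta_reduce
    have e1 : ∀ y, far2 (K38 p).dr (K38 p).dbl.dr (fun z : X × Bool => b z.1) (fun β : Fin 3 → Bx => ch1 (β 2)) S1 c1
        (fun q => fp (N q)) (fun η => inj (g η)) (fun η => psC χ (Yf η) (γ η) (g η)) η y =
        (K38 p).dbl.dr.ins (fp (Cf S1 (H41.cut' (ch1 (b (y (Sum.inl (Sum.inl 2))).1)) c1) N η))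
          ((K38 p).dr.ins (inj (g η)) (psC χ (Yf η) (γ η) (g η))) y := fun y => by
      unfold far2
      rw [eF]
      rfl
    simp only [e1]
    exact t7_pt p (w η) (wi η) h0 h1 (hγ η) (hg η) (F := fun β => Cf S1 (H41.cut' (ch1 β) c1) N η) hMf v1 (fun β x => hf1 β η x)
  -- assembly
  have j1 := mul_le_mul_of_nonneg_left k1 (mul_nonneg ha1 ha2)
  have j2 := mul_le_mul_of_nonneg_left k2 ha1
  have j3 := mul_le_mul_of_nonneg_left k3 ha1
  have j4 := mul_le_mul_of_nonneg_left k4 ha1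
  refine key.trans ?_
  linarith

end Row

end

end Pool.W7d29a1.C0.L38
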