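import Pool.Agent.W_7d29a1_C0.PlT72
import Pool.Agent.W_7d29a1_C0.Mic57
import Pool.Agent.W_7d29a1_C0.Rob43B

/-!
CURV0 (MP_7d29a1_pr), leaf (T), TL8 = the term `T_0L` of the own block (helper90). `pB = pJ bm bp` (outside of the block),
`P1 = pJ 0 bp` (behind the block), a near slab of rows `m` inside of the block behind the window `[al, be]`, `C` the slab average of
`cE_m g`. The derivative in the direction `g - C` (`dT72_block`) has one third cumulant and two micro terms; here all of them are bounded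
by events of ONE base path, told from its future: `A m` (pairs given `pJ 0 m` apart on `[bm, al]`), `OB` (pairs given `P1` apart on
`[bm, al]`), `Oj` (pairs given `P1` apart on `[be, h]`), `Mm m` (the micro event given `pJ 0 m`). No own closing appears:
`cE_B F - cE_P1 F = cE_B (F - cE_h F) + (cE_B - cE_P1) (cE_h F)`.
-/

set_option autoImplicit false
set_option linter.unusedSectionVars false
set_option linter.unusedVariables false

namespace Pool.W7d29a1.C0.R90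

open Finset
open Pool.Agent.W_7d29a1_C0 Pool.Agent.W_7d29a1_C0.Mod92 Pool.Agent.W_7d29a1_C0.Swap57 Pool.Agent.W_7d29a1_C0.NM82
open Pool.Agent.W_7d29a1_C0.T72
open Pool.Agent.W_7d29a1_F Pool.Agent.W_7d29a1_X
open Pool.W7d29a1.C0 Pool.W7d29a1.C0.VT31 Pool.W7d29a1.C0.T72
open Pool.W7d29a1.C0.R43 (mI cE2_mI)

noncomputable section

/-! ### Averages over two free replicas, told from the first one -/

section Abs

variable {X : Type*} [Fintype X] [Nonempty X] {Y1 YB Ym : Type*} [DecidableEq Y1] [DecidableEq YB] [DecidableEq Ym]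
  {w : X → ℝ} {k : X → X → ℝ} {q1 : X → Y1} {pB : X → YB} {pm : X → Ym}

/-- The average of `φ` of the first replica with the spectator `k`. -/
def Pk (w : X → ℝ) (k : X → X → ℝ) (φ : X → ℝ) : ℝ := PP w fun x y => φ x * k x y

/-- The indicator. -/
def ii (T : X → Prop) : X → ℝ := by
  classical
  exact fun x => if T x then 1 else 0

theorem ii_nonneg (T : X → Prop) (x : X) : 0 ≤ ii T x := by
  unfold ii
  split_ifs <;> norm_num

theorem ii_le_one (T : X → Prop) (x : X) : ii T x ≤ 1 := by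
  unfold ii
  split_ifs <;> norm_num

theorem ii_of {T : X → Prop} {x : X} (h : T x) : ii T x = 1 := by
  unfold ii
  rw [if_pos h]

theorem ii_not {T : X → Prop} {x : X} (h : ¬ T x) : ii T x = 0 := by
  unfold ii
  rw [if_neg h]

theorem mp_ii {T : X → Prop} (h : ∀ x x', q1 x = q1 x' → (T x ↔ T x')) : Mp q1 (ii T) := fun x x' e => by
  by_cases hT : T x
  · rw [ii_of hT, ii_of ((h x x' e).1 hT)]
  · rw [ii_not hT, ii_not fun h' => hT ((h x x' e).2 h')]

theorem Pk_mono (hk : ∀ x y, 0 ≤ k x y) {φ ψ : X → ℝ} (h : ∀ x, φ x ≤ ψ x) : Pk w k φ ≤ Pk w k ψ :=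
  PP_mono72 w fun x y => mul_le_mul_of_nonneg_right (h x) (hk x y)

theorem Pk_nonneg (hk : ∀ x y, 0 ≤ k x y) {φ : X → ℝ} (h : ∀ x, 0 ≤ φ x) : 0 ≤ Pk w k φ :=
  PP_nonneg w fun x y => mul_nonneg (h x) (hk x y)

theorem Pk_add (φ ψ : X → ℝ) : Pk w k (fun x => φ x + ψ x) = Pk w k φ + Pk w k ψ := by
  unfold Pk
  rw [← PP_add]
  congr 1
  funext x y
  ring

theorem Pk_smul (c : ℝ) (φ : X → ℝ) : Pk w k (fun x => c * φ x) = c * Pk w k φ := by
  unfold Pk
  rw [← PP_smul]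
  congr 1
  funext x y
  ring

theorem Pk_zero : Pk w k (fun _ => 0) = 0 := by
  have h := Pk_smul (w := w) (k := k) 0 (fun _ => 0)
  simpa using h

theorem Pk_sum {ι : Type*} (S : Finset ι) (φ : ι → X → ℝ) : Pk w k (fun x => ∑ i ∈ S, φ i x) = ∑ i ∈ S, Pk w k (φ i) := by
  classical
  induction S using Finset.induction_on with
  | empty => simp only [sum_empty]; exact Pk_zero
  | insert a S ha ih =>
    rw [sum_insert ha, ← ih, ← Pk_add]
    congr 1
    funext x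
    rw [sum_insert ha]

theorem mp_crs {Y Y' : Type*} {q : X → Y} {p : X → Y'} (hc : Crs q p) {h : X → ℝ} (hh : Mp q h) : Mp p h :=
  fun x x' e => hh x x' (hc x x' e)

/-- The conditional mean of the first replica may be dropped. -/
theorem Pk_pull (hk1 : ∀ y, Mp q1 fun x => k x y) {p : X → YB} (hc : Crs q1 p) (V : X → ℝ) {R : X → ℝ} (hR : Mp p R) :
    Pk w k (fun x => cE w p V x * R x) = Pk w k fun x => V x * R x := by
  unfold Pk
  have h := PP_pull (q := p) w V (k := fun x y => R x * k x y) fun y x x' e => by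
    show R x * k x y = R x' * k x' y
    rw [hR x x' e, show k x y = k x' y from hk1 y x x' (hc x x' e)]
  calc PP w (fun x y => cE w p V x * R x * k x y) = PP w fun x y => cE w p V x * (R x * k x y) := by
        congr 1
        funext x y
        ring
    _ = PP w fun x y => V x * (R x * k x y) := h.symm
    _ = _ := by
        congr 1
        funext x y
        ring

/-- **Told from one path**: a mean given `pB` of `φ` is seen through the mean of `φ` given `pm`. -/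
theorem told (hk : ∀ x y, 0 ≤ k x y) (hk1 : ∀ y, Mp q1 fun x => k x y) (hB : Crs q1 pB) (hm : Crs q1 pm) {φ G R : X → ℝ}
    (hR : Mp q1 R) (hR0 : ∀ x, 0 ≤ R x) (hG : ∀ x, cE w pm φ x ≤ G x) :
    Pk w k (fun x => cE w pB φ x * R x) ≤ Pk w k fun x => G x * R x := by
  rw [Pk_pull hk1 hB φ (mp_crs hB hR), ← Pk_pull hk1 hm φ (mp_crs hm hR)]
  exact Pk_mono hk fun x => mul_le_mul_of_nonneg_right (hG x) (hR0 x)

/-- **The own factor**: off the event `T` it is small. -/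
theorem own_cut (hk : ∀ x y, 0 ≤ k x y) (hk1 : ∀ y, Mp q1 fun x => k x y) (hB : Crs q1 pB) {V U ψ R : X → ℝ} {T : X → Prop}
    {L M0 e : ℝ} (hT : ∀ x x', q1 x = q1 x' → (T x ↔ T x')) (hV : ∀ x, V x ≤ M0) (hM0 : 0 ≤ M0) (hV0 : ∀ x, 0 ≤ V x)
    (hU0 : ∀ x, 0 ≤ U x) (hU : ∀ x, U x ≤ L * cE w pB ψ x) (hL : 0 ≤ L) (hR : Mp q1 R) (hR0 : ∀ x, 0 ≤ R x) (hR1 : ∀ x, R x ≤ 1)
    (he : ∀ x, cE w q1 ψ x ≤ ii T x + e) (he0 : 0 ≤ e) :
    Pk w k (fun x => V x * U x * R x) ≤ Pk w k (fun x => V x * U x * (ii T x * R x)) + M0 * L * e * Pk w k fun _ => 1 := by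
  have h1 : Pk w k (fun x => V x * U x * R x) ≤ Pk w k (fun x => V x * U x * (ii T x * R x)) +
      Pk w k (fun x => M0 * L * (cE w pB ψ x * ((1 - ii T x) * R x))) := by
    rw [← Pk_add]
    refine Pk_mono hk fun x => ?_
    have a0 : 0 ≤ (1 - ii T x) * R x := mul_nonneg (by linarith [ii_le_one T x]) (hR0 x)
    have a1 : V x * U x ≤ M0 * (L * cE w pB ψ x) := mul_le_mul (hV x) (hU x) (hU0 x) hM0
    have a2 := mul_le_mul_of_nonneg_right a1 a0
    linarith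
  have h2 : Mp q1 fun x => (1 - ii T x) * R x := fun x x' e => by
    show (1 - ii T x) * R x = (1 - ii T x') * R x'
    rw [mp_ii hT x x' e, hR x x' e]
  have h3 : Pk w k (fun x => cE w pB ψ x * ((1 - ii T x) * R x)) ≤ Pk w k fun x => (ii T x + e) * ((1 - ii T x) * R x) :=
    told hk hk1 hB (fun _ _ h => h) h2 (fun x => mul_nonneg (by linarith [ii_le_one T x]) (hR0 x)) he
  have h4 : Pk w k (fun x => (ii T x + e) * ((1 - ii T x) * R x)) ≤ Pk w k fun x => e * 1 := by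
    refine Pk_mono hk fun x => ?_
    by_cases hx : T x
    · rw [ii_of hx, sub_self, zero_mul, mul_zero, mul_one]
      exact he0
    · rw [ii_not hx, zero_add, sub_zero, one_mul]
      exact mul_le_mul_of_nonneg_left (hR1 x) he0
  rw [Pk_smul] at h1 h4
  calc _ ≤ _ := h1
    _ ≤ Pk w k (fun x => V x * U x * (ii T x * R x)) + M0 * L * (e * Pk w k fun _ => 1) := by
        refine add_le_add le_rfl (mul_le_mul_of_nonneg_left (h3.trans h4) (mul_nonneg hM0 hL))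
    _ = _ := by ring

theorem cE_mono_fib {Y : Type*} [DecidableEq Y] (w : X → ℝ) (p : X → Y) {f g : X → ℝ} (x : X) (h : ∀ z, p z = p x → f z ≤ g z) :
    cE w p f x ≤ cE w p g x := by
  unfold cE
  refine div_le_div_of_nonneg_right (sum_le_sum fun z _ => ?_) (fz_pos w p x).le
  split_ifs with e
  · exact mul_le_mul_of_nonneg_left (h z e) (Real.exp_pos _).le
  · exact le_rfl

theorem abs_cE_le90 {Y : Type*} [DecidableEq Y] (w : X → ℝ) (p : X → Y) {f g : X → ℝ} (h : ∀ x, |f x| ≤ g x) (x : X) :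
    |cE w p f x| ≤ cE w p g x := by
  rw [abs_le]
  constructor
  · rw [neg_le, ← Pi.neg_apply, ← cE_neg]
    exact cE_mono w p (fun z => by rw [Pi.neg_apply]; linarith [(abs_le.1 (h z)).1]) x
  · exact cE_mono w p (fun z => (abs_le.1 (h z)).2) x

theorem abs_cE_le_const {Y : Type*} [DecidableEq Y] (w : X → ℝ) (p : X → Y) {f : X → ℝ} {M : ℝ} (h : ∀ x, |f x| ≤ M) (x : X) :
    |cE w p f x| ≤ M := by
  refine (abs_cE_le90 w p (g := fun _ => M) h x).trans_eq ?_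
  exact congrFun (cE_of_meas w (show Mp p (fun _ : X => M) from fun _ _ _ => rfl)) x

theorem cE_smul_fun {Y : Type*} [DecidableEq Y] (w : X → ℝ) (p : X → Y) (c : ℝ) (f : X → ℝ) (x : X) :
    cE w p (fun z => c * f z) x = c * cE w p f x := by
  have h := congrFun (cE_smul w p c f) x
  rw [Pi.smul_apply, smul_eq_mul] at h
  exact h

/-- The third conditional cumulant with a direction without conditional mean, two factors centred. -/
theorem c3_centred {w : X → ℝ} {p : X → Y1} {A F G : X → ℝ} (hA : cE w p A = 0) :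
    c3 w p A F G = cE w p (A * ((F - cE w p F) * (G - cE w p G))) := by
  have hF := cE_meas w p F
  have hG := cE_meas w p G
  have e : A * ((F - cE w p F) * (G - cE w p G)) =
      A * (F * G) - cE w p F * (A * G) - cE w p G * (A * F) + (cE w p F * cE w p G) * A := by ring
  have hFG : Mp p (cE w p F * cE w p G) := fun x x' h => by
    rw [Pi.mul_apply, Pi.mul_apply, hF x x' h, hG x x' h]
  rw [e, cE_add, cE_sub, cE_sub, cE_pull w hF, cE_pull w hG, cE_pull w hFG, hA, mul_zero, add_zero]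
  unfold c3 cC
  rw [hA]
  ring

/-- The conditional covariance, one factor centred. -/
theorem cC_centred1 (w : X → ℝ) (p : X → Y1) (N F : X → ℝ) : cC w p N F = cE w p (N * (F - cE w p F)) := by
  have hF := cE_meas w p F
  have e : N * (F - cE w p F) = N * F - cE w p F * N := by ring
  rw [e, cE_sub, cE_pull w hF]
  unfold cC
  ring

end Abs

/-! ### The model part -/

section Mod

variable {Q : Finset (Finset ℕ)}

/-- The outside of a block is determined by the positions. -/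
theorem pJ_of_pos {c d : ℕ} (hcd : c ≤ d) {S S' : Px Q} (h1 : ∀ i, i ≤ c → ps S i = ps S' i) (h2 : ∀ i, d ≤ i → ps S i = ps S' i) :
    pJ c d S = pJ c d S' := by
  have e : ∀ k, (k < c ∨ d ≤ k) → (k ∈ S.1 ↔ k ∈ S'.1) := by
    intro k hk
    rw [mem_iff_ps, mem_iff_ps]
    rcases hk with hk | hk
    · rw [h1 k hk.le, h1 (k + 1) hk]
    · rw [h2 k hk, h2 (k + 1) (by omega)]
  unfold pJ
  have e1 : S.1 \ Ico c d = S'.1 \ Ico c d := by
    ext k
    rw [mem_sdiff, mem_sdiff, mem_Ico]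
    constructor
    · rintro ⟨a, b⟩
      exact ⟨(e k (by omega)).1 a, b⟩
    · rintro ⟨a, b⟩
      exact ⟨(e k (by omega)).2 a, b⟩
  have e2 : (S.1 ∩ Ico c d).card = (S'.1 ∩ Ico c d).card := by
    have a1 := pos_split S.1 hcd
    have a2 := pos_split S'.1 hcd
    have a3 : pos S.1 c = pos S'.1 c := h1 c le_rfl
    have a4 : pos S.1 d = pos S'.1 d := h2 d le_rfl
    have a5 : ((S.1 ∩ Ico c d).card : ℤ) = ((S'.1 ∩ Ico c d).card : ℤ) := by linarith
    exact_mod_cast a5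
  rw [e1, e2]

variable [SwQ Q] [Nonempty (Px Q)] {w : Px Q → ℝ} {bm bp al be m h c : ℕ}

/-- What is behind the block is coarser than the outside of the block. -/
theorem crs_B (h1 : bm ≤ bp) : Crs (pJ (Q := Q) 0 bp) (pJ bm bp) := crs_pJ (Nat.zero_le bm) le_rfl

/-- **The block conditional mean of a functional of the rows `≤ bp` is a functional of the rows `≤ bp`.** -/
theorem Lk_blk (hw : Hd bp bp w) (hB : bm ≤ bp) {g : Px Q → ℝ} (hg : Lk 0 bp g) : Lk 0 bp (cE w (pJ bm bp) g) := by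
  intro S S' h0
  have h := h0 bp (Nat.zero_le _) le_rfl
  have hcr := crs_B (Q := Q) hB
  have hp1 : ∀ T, pJ 0 bp T = pJ 0 bp S → ∀ i, i ≤ bp → ps (gl bp S' T) i = ps T i := fun T hT i hi =>
    ps_gl (h.symm.trans (ps_of_ge hT le_rfl).symm) hi
  have hp2 : ∀ T, pJ 0 bp T = pJ 0 bp S → ∀ i, bp ≤ i → ps (gl bp S' T) i = ps S' i := fun T hT i hi =>
    ps_of_ge (pJ_gl (h.symm.trans (ps_of_ge hT le_rfl).symm)) hi
  have key : ∀ T, pJ 0 bp T = pJ 0 bp S → (pJ bm bp (gl bp S' T) = pJ bm bp S' ↔ pJ bm bp T = pJ bm bp S) := by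
    intro T hT
    constructor
    · intro e
      refine pJ_of_pos hB (fun i hi => ?_) fun i hi => ps_of_ge hT hi
      rw [← hp1 T hT i (hi.trans hB), ps_of_le e hi, h0 i (Nat.zero_le _) (hi.trans hB)]
    · intro e
      refine pJ_of_pos hB (fun i hi => ?_) fun i hi => hp2 T hT i hi
      rw [hp1 T hT i (hi.trans hB), ps_of_le e hi, h0 i (Nat.zero_le _) (hi.trans hB)]
  have e1 : ∀ φ : Px Q → ℝ, (∀ T, pJ 0 bp T = pJ 0 bp S → φ (gl bp S' T) = φ T) →
      ∑ T, (if pJ bm bp T = pJ bm bp S' then Real.exp (w T) * φ T else 0) =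
        Real.exp (w (gl bp S' S) - w S) * ∑ T, (if pJ bm bp T = pJ bm bp S then Real.exp (w T) * φ T else 0) := by
    intro φ hφ
    have a1 : ∀ (S0 : Px Q) (ψ : Px Q → ℝ), ∑ T, (if pJ bm bp T = pJ bm bp S0 then ψ T else 0) =
        ∑ T, if pJ 0 bp T = pJ 0 bp S0 then (if pJ bm bp T = pJ bm bp S0 then ψ T else 0) else 0 := fun S0 ψ =>
      Finset.sum_congr rfl fun T _ => by
        by_cases hT : pJ bm bp T = pJ bm bp S0
        · rw [if_pos hT, if_pos (hcr _ _ hT)]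
        · rw [if_neg hT, ite_self]
    rw [a1 S' fun T => Real.exp (w T) * φ T, a1 S fun T => Real.exp (w T) * φ T,
      sum_fib h fun T => if pJ bm bp T = pJ bm bp S' then Real.exp (w T) * φ T else 0, Finset.mul_sum]
    refine Finset.sum_congr rfl fun T _ => ?_
    by_cases hT : pJ 0 bp T = pJ 0 bp S
    · rw [if_pos hT, if_pos hT]
      by_cases hT2 : pJ bm bp T = pJ bm bp S
      · rw [if_pos hT2, if_pos ((key T hT).2 hT2), gl_lw hw h hT, hφ T hT, Real.exp_add]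
        ring
      · rw [if_neg hT2, if_neg fun h' => hT2 ((key T hT).1 h'), mul_zero]
    · rw [if_neg hT, if_neg hT, mul_zero]
  have hg' : ∀ T, pJ 0 bp T = pJ 0 bp S → g (gl bp S' T) = g T := fun T hT =>
    hg _ _ fun i _ hi => hp1 T hT i hi
  have a1 := e1 g hg'
  have a2 := e1 (fun _ => 1) fun _ _ => rfl
  simp only [mul_one] at a2
  unfold cE fz
  rw [a1, a2, mul_div_mul_left _ _ (Real.exp_pos _).ne']

/-- The spectator of the outer pair. -/
def kf (z c : ℕ) (f : Px Q → ℝ) (S S' : Px Q) : ℝ := |f S - f S'| * NI z c S S'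

omit [SwQ Q] [Nonempty (Px Q)] in
theorem kf_nonneg (z c : ℕ) (f : Px Q → ℝ) (S S' : Px Q) : 0 ≤ kf z c f S S' := mul_nonneg (abs_nonneg _) (NI_nonneg _ _ _ _)

omit [SwQ Q] [Nonempty (Px Q)] in
theorem kf_mp {z c : ℕ} (hz : z ≤ c) {f : Px Q → ℝ} (hf : Rk c f) (S' : Px Q) : Mp (pJ (Q := Q) 0 z) fun S => kf z c f S S' := by
  intro S1 S2 e
  have h1 : f S1 = f S2 := hf S1 S2 fun i hi => ps_of_ge e (hz.trans hi)
  have h2 : NI z c S1 S' = NI z c S2 S' := by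
    unfold NI
    have e' : (∀ k, z ≤ k → k ≤ c → ps S1 k ≠ ps S' k) ↔ ∀ k, z ≤ k → k ≤ c → ps S2 k ≠ ps S' k := by
      constructor
      · intro h3 k h4 h5
        rw [← ps_of_ge e h4]
        exact h3 k h4 h5
      · intro h3 k h4 h5
        rw [ps_of_ge e h4]
        exact h3 k h4 h5
    by_cases h6 : ∀ k, z ≤ k → k ≤ c → ps S1 k ≠ ps S' k
    · rw [if_pos h6, if_pos (e'.1 h6)]
    · rw [if_neg h6, if_neg fun h7 => h6 (e'.2 h7)]
  show |f S1 - f S'| * NI z c S1 S' = |f S2 - f S'| * NI z c S2 S'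
  rw [h1, h2]

/-- **The covariance of a conditional mean with `f`**, told from one path. -/
theorem abs_gc_Pk (hw : Hd bp c w) (hw' : Hd bp bp w) (hc : bp ≤ c) {V f : Px Q → ℝ} (hV : Lk 0 bp V) (hf : Rk c f) :
    |gc w (cE w (pJ 0 bp) V) f| ≤ Pk w (kf bp c f) fun S => |V S| := by
  have hA : Lk 0 bp (cE w (pJ 0 bp) V) := Lk_mono (Nat.zero_le _) le_rfl (markov_cE hw' hV)
  refine (abs_gc_le72 hw hA hf).trans ?_
  have h1 : (PP w fun S S' => |cE w (pJ 0 bp) V S| * (|f S - f S'| * NI bp c S S')) ≤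
      Pk w (kf bp c f) fun S => cE w (pJ 0 bp) (fun T => |V T|) S * 1 := by
    refine PP_mono72 w fun S S' => ?_
    show _ ≤ cE w (pJ 0 bp) (fun T => |V T|) S * 1 * kf bp c f S S'
    rw [mul_one]
    exact mul_le_mul_of_nonneg_right (abs_cE_le90 w _ (fun _ => le_rfl) S) (kf_nonneg _ _ _ _ _)
  refine h1.trans (le_of_eq ?_)
  rw [Pk_pull (kf_mp hc hf) (fun _ _ e => e) (fun T => |V T|) (R := fun _ => 1) fun _ _ _ => rfl]
  simp only [mul_one]

/-! #### The replicas which are apart -/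

/-- The micro cut in the block: `cE_B (F - cE_m F)` is told by a replica given `pJ 0 m` apart on `[bm, al]`. -/
theorem abs_cut_le (h1 : bm ≤ al) (h2 : al ≤ be) (h3 : be ≤ m) (h4 : m ≤ bp) (hw : Wk bm al be m w) {F : Px Q → ℝ} (hF : Lk al be F)
    {M : ℝ} (hM : ∀ S, |F S| ≤ M) (S : Px Q) :
    |cE w (pJ bm bp) (fun T => F T - cE w (pJ 0 m) F T) S| ≤ 2 * M * cE w (pJ bm bp) (mI w (pJ 0 m) bm al) S := by
  have hc : Crs (pJ (Q := Q) 0 m) (pJ bm m) := crs_pJ (Nat.zero_le bm) le_rfl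
  have hB : Crs (pJ (Q := Q) bm bp) (pJ bm m) := crs_pJ le_rfl h4
  have e := mic_fib h2 hw hF hc
  have hM0 : 0 ≤ M := (abs_nonneg _).trans (hM S)
  rw [← cE_tower w hB (fun T => F T - cE w (pJ 0 m) F T), e, cE_tower w hB]
  have h5 : ∀ T : Px Q, |cE w (pJ 0 m) (fun v => NM bm al be m T v * (F T - F v)) T| ≤ 2 * M * mI w (pJ 0 m) bm al T := fun T => by
    refine (abs_cE_le90 w (pJ 0 m) (g := fun v => 2 * M * NM bm al be m T v) (fun v => ?_) T).trans ?_
    · rw [abs_mul, abs_of_nonneg (NM_nonneg _ _ _ _ _ _), mul_comm]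
      refine mul_le_mul_of_nonneg_right ((abs_sub _ _).trans ?_) (NM_nonneg _ _ _ _ _ _)
      linarith [hM T, hM v]
    · rw [cE_smul_fun]
      refine mul_le_mul_of_nonneg_left ?_ (by linarith)
      unfold mI
      refine cE_mono_fib w (pJ 0 m) T fun v hv => ?_
      -- they meet at the row `m`
      unfold NM NI
      by_cases h6 : ∀ k, bm ≤ k → k ≤ al → ps T k ≠ ps v k
      · rw [if_pos h6]
        split_ifs <;> norm_num
      · rw [if_neg h6]
        push Not at h6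
        obtain ⟨k, k1, k2, k3⟩ := h6
        rw [if_pos]
        exact ⟨⟨k, k1, k2, k3⟩, ⟨m, h3, le_rfl, (ps_of_ge hv le_rfl).symm⟩⟩
  refine (abs_cE_le90 w (pJ bm bp) h5 S).trans_eq ?_
  exact cE_smul_fun w _ _ _ S

/-- The own pair: `cE_B F - cE_P1 F` is told by a replica given `pJ 0 bp` apart on `[bm, al]`. -/
theorem abs_own_le (h1 : bm ≤ al) (h2 : al ≤ be) (h3 : be ≤ bp) (hw : Wk bm al be bp w) {F : Px Q → ℝ} (hF : Lk al be F)
    {M : ℝ} (hM : ∀ S, |F S| ≤ M) (S : Px Q) :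
    |cE w (pJ bm bp) F S - cE w (pJ 0 bp) F S| ≤ 2 * M * cE w (pJ bm bp) (mI w (pJ 0 bp) bm al) S := by
  have h5 := abs_cut_le h1 h2 h3 le_rfl hw hF hM S
  have e : cE w (pJ bm bp) (fun T => F T - cE w (pJ 0 bp) F T) S = cE w (pJ bm bp) F S - cE w (pJ 0 bp) F S := by
    have e1 : (fun T => F T - cE w (pJ 0 bp) F T) = F - cE w (pJ 0 bp) F := rfl
    rw [e1, cE_sub, Pi.sub_apply, cE_of_meas w (mp_crs (crs_B (h1.trans (h2.trans h3))) (cE_meas w (pJ 0 bp) F))]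
  rwa [e] at h5

/-- The second part of the own pair, for a functional `K` of the row `h`: apart on `[be, h]`. -/
theorem abs_own2_le (h1 : bm ≤ be) (h2 : be ≤ h) (h3 : h ≤ bp) (hw : Wk be h h bp w) {K : Px Q → ℝ} (hK : Lk h h K)
    {M : ℝ} (hM : ∀ S, |K S| ≤ M) (S : Px Q) :
    |cE w (pJ bm bp) K S - cE w (pJ 0 bp) K S| ≤ 2 * M * cE w (pJ bm bp) (mI w (pJ 0 bp) be h) S := by
  have h5 : ∀ S, |cE w (pJ be bp) K S - cE w (pJ 0 bp) K S| ≤ 2 * M * cE w (pJ be bp) (mI w (pJ 0 bp) be h) S := fun S =>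
    abs_own_le h2 le_rfl h3 hw hK hM S
  have hB : Crs (pJ (Q := Q) bm bp) (pJ be bp) := crs_pJ h1 le_rfl
  have e : cE w (pJ bm bp) K S - cE w (pJ 0 bp) K S =
      cE w (pJ bm bp) (fun T => cE w (pJ be bp) K T - cE w (pJ 0 bp) K T) S := by
    have e1 : (fun T => cE w (pJ be bp) K T - cE w (pJ 0 bp) K T) = cE w (pJ be bp) K - cE w (pJ 0 bp) K := rfl
    rw [e1, cE_sub, Pi.sub_apply, cE_tower w hB,
      cE_of_meas w (mp_crs (crs_B (h1.trans (h2.trans h3))) (cE_meas w (pJ 0 bp) K))]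
  rw [e]
  refine (abs_cE_le90 w (pJ bm bp) h5 S).trans_eq ?_
  rw [cE_smul_fun]
  congr 1
  have h6 := congrFun (cE_tower w hB (mI w (pJ 0 bp) be h)) S
  exact h6

/-! #### The remainder of `T_0L` -/

/-- The data of the remainder: the weights, the slab, the events. -/
structure TD (bm bp al be h c : ℕ) (w : Px Q → ℝ) (J : Finset ℕ) (θ : ℕ → ℝ) (g γ f : Px Q → ℝ) (M A1 e1 e2 : ℝ)
    (A Mm : ℕ → Px Q → Prop) (OB Oj : Px Q → Prop) : Prop where
  h1 : bm ≤ al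
  h2 : al ≤ be
  h3 : be ≤ h
  h4 : h ≤ bp
  h5 : bp ≤ c
  hJ : ∀ m ∈ J, be ≤ m ∧ m ≤ bp
  th0 : ∀ m ∈ J, 0 ≤ θ m
  th1 : ∑ m ∈ J, θ m = 1
  wk : ∀ m, be ≤ m → m ≤ bp → Wk bm al be m w
  wk2 : Wk be h h bp w
  hd : HdAll be w
  g1 : Lk al be g
  g2 : Lk al be γ
  m1 : ∀ S, |g S| ≤ M
  m2 : ∀ S, |γ S| ≤ M
  hf : Rk c f
  A0 : 0 ≤ A1
  e10 : 0 ≤ e1
  e20 : 0 ≤ e2
  eA : ∀ m ∈ insert h J, ∀ S, cE2 w (pJ 0 m) (NI bm al) S S ≤ ii (A m) S + e1
  mB : ∀ S S', pJ 0 bp S = pJ 0 bp S' → (OB S ↔ OB S')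
  eB : ∀ S, cE2 w (pJ 0 bp) (NI bm al) S S ≤ ii OB S + e1
  mj : ∀ S S', pJ 0 bp S = pJ 0 bp S' → (Oj S ↔ Oj S')
  ej : ∀ S, cE2 w (pJ 0 bp) (NI be h) S S ≤ ii Oj S + e1
  eM : ∀ m ∈ J, ∀ S, cE w (pJ 0 m) (fun T => |g T - cE w (pJ 0 m) g T|) S ≤ A1 * ii (Mm m) S + e2

section Rem

variable {J : Finset ℕ} {θ : ℕ → ℝ} {g γ f : Px Q → ℝ} {M A1 e1 e2 : ℝ} {A Mm : ℕ → Px Q → Prop} {OB Oj : Px Q → Prop}

/-- The slab average. -/
abbrev CC (w : Px Q → ℝ) (J : Finset ℕ) (θ : ℕ → ℝ) (g : Px Q → ℝ) : Px Q → ℝ := avC w J θ (fun m => pJ (Q := Q) 0 m) g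

theorem sub_CC (d : TD bm bp al be h c w J θ g γ f M A1 e1 e2 A Mm OB Oj) :
    g - CC w J θ g = ∑ m ∈ J, θ m • (fun T => g T - cE w (pJ 0 m) g T) := by
  have e : ∀ m ∈ J, θ m • (fun T => g T - cE w (pJ 0 m) g T) = θ m • g - θ m • cE w (pJ 0 m) g := fun m _ => by
    rw [← smul_sub]
    rfl
  rw [Finset.sum_congr rfl e, Finset.sum_sub_distrib, ← Finset.sum_smul, d.th1, one_smul]
  rfl

theorem abs_sub_CC_le (d : TD bm bp al be h c w J θ g γ f M A1 e1 e2 A Mm OB Oj) (S : Px Q) :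
    |(g - CC w J θ g) S| ≤ ∑ m ∈ J, θ m * |g S - cE w (pJ 0 m) g S| := by
  rw [sub_CC d, Finset.sum_apply]
  refine (Finset.abs_sum_le_sum_abs _ _).trans (sum_le_sum fun m hm => ?_)
  rw [Pi.smul_apply, smul_eq_mul, abs_mul, abs_of_nonneg (d.th0 m hm)]

theorem abs_sub_CC_le2 (d : TD bm bp al be h c w J θ g γ f M A1 e1 e2 A Mm OB Oj) (S : Px Q) :
    |(g - CC w J θ g) S| ≤ 2 * M := by
  refine (abs_sub_CC_le d S).trans ?_
  have h1 : ∀ m ∈ J, θ m * |g S - cE w (pJ 0 m) g S| ≤ θ m * (2 * M) := fun m hm => by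
    refine mul_le_mul_of_nonneg_left ((abs_sub _ _).trans ?_) (d.th0 m hm)
    linarith [d.m1 S, abs_cE_le_const w (pJ (Q := Q) 0 m) d.m1 S]
  refine (sum_le_sum h1).trans_eq ?_
  rw [← Finset.sum_mul, d.th1, one_mul]

/-- The field: the block mean of `g - C` is told by `A m`. -/
theorem abs_H_le (d : TD bm bp al be h c w J θ g γ f M A1 e1 e2 A Mm OB Oj) (S : Px Q) :
    |cE w (pJ bm bp) (g - CC w J θ g) S| ≤ ∑ m ∈ J, θ m * (2 * M * cE w (pJ bm bp) (mI w (pJ 0 m) bm al) S) := by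
  rw [sub_CC d, cE_sum, Finset.sum_apply]
  refine (Finset.abs_sum_le_sum_abs _ _).trans (sum_le_sum fun m hm => ?_)
  rw [cE_smul, Pi.smul_apply, smul_eq_mul, abs_mul, abs_of_nonneg (d.th0 m hm)]
  exact mul_le_mul_of_nonneg_left (abs_cut_le d.h1 d.h2 (d.hJ m hm).1 (d.hJ m hm).2 (d.wk m (d.hJ m hm).1 (d.hJ m hm).2)
    d.g1 d.m1 S) (d.th0 m hm)

theorem Lk_CC (d : TD bm bp al be h c w J θ g γ f M A1 e1 e2 A Mm OB Oj) : Lk 0 bp (g - CC w J θ g) := by
  refine Lk_sub (Lk_mono (Nat.zero_le _) (d.h3.trans d.h4) d.g1) ?_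
  unfold CC avC
  refine Lk_sum fun m hm => Lk_smul ?_ _
  exact Lk_mono (Nat.zero_le _) (d.hJ m hm).2 (markov_cE (d.hd m m (d.hJ m hm).1 le_rfl)
    (Lk_mono (Nat.zero_le _) (d.hJ m hm).1 d.g1))

/-- A block mean told by an event. -/
theorem told_B (d : TD bm bp al be h c w J θ g γ f M A1 e1 e2 A Mm OB Oj) {m : ℕ} (hm : m ≤ bp) {φ G R : Px Q → ℝ}
    (hR : Mp (pJ 0 bp) R) (hR0 : ∀ S, 0 ≤ R S) (hG : ∀ S, cE w (pJ 0 m) φ S ≤ G S) :
    Pk w (kf bp c f) (fun S => cE w (pJ bm bp) φ S * R S) ≤ Pk w (kf bp c f) fun S => G S * R S :=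
  told (kf_nonneg bp c f) (kf_mp d.h5 d.hf) (crs_B (d.h1.trans (d.h2.trans (d.h3.trans d.h4)))) (crs_pJ le_rfl hm) hR hR0 hG

theorem mp_OB (d : TD bm bp al be h c w J θ g γ f M A1 e1 e2 A Mm OB Oj) : Mp (pJ (Q := Q) 0 bp) (ii OB) := mp_ii d.mB

theorem mp_OjB (d : TD bm bp al be h c w J θ g γ f M A1 e1 e2 A Mm OB Oj) :
    Mp (pJ (Q := Q) 0 bp) fun S => ii Oj S * ii OB S := fun S S' e => by
  show ii Oj S * ii OB S = ii Oj S' * ii OB S'
  rw [mp_ii d.mj S S' e, mp_ii d.mB S S' e]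

/-- The term `A m`. -/
theorem Pk_A (d : TD bm bp al be h c w J θ g γ f M A1 e1 e2 A Mm OB Oj) {m : ℕ} (hm : m ∈ insert h J) :
    Pk w (kf bp c f) (fun S => cE w (pJ bm bp) (mI w (pJ 0 m) bm al) S * ii OB S) ≤
      Pk w (kf bp c f) (fun S => ii (A m) S * ii OB S) + e1 * Pk w (kf bp c f) fun _ => 1 := by
  have hmp : m ≤ bp := by
    rcases mem_insert.1 hm with h' | h'
    · rw [h']; exact d.h4
    · exact (d.hJ m h').2
  refine (told_B d hmp (mp_OB d) (ii_nonneg OB) (G := fun S => ii (A m) S + e1) fun S => ?_).trans ?_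
  · rw [← cE2_mI]
    exact d.eA m hm S
  · rw [← Pk_smul, ← Pk_add]
    refine Pk_mono (kf_nonneg bp c f) fun S => ?_
    have h1 := mul_le_mul_of_nonneg_left (ii_le_one OB S) d.e10
    linarith

/-- The third cumulant. -/
theorem rem_c3 (d : TD bm bp al be h c w J θ g γ f M A1 e1 e2 A Mm OB Oj) :
    |gc w (c3 w (pJ 0 bp) (cE w (pJ bm bp) g - cE w (pJ bm bp) (CC w J θ g)) (cE w (pJ bm bp) γ) (cE w (pJ bm bp) g)) f| ≤
      8 * M ^ 3 * ∑ m ∈ J, θ m * Pk w (kf bp c f) (fun S => ii (A m) S * ii OB S) +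
        16 * M ^ 3 * e1 * Pk w (kf bp c f) fun _ => 1 := by
  have hbe : be ≤ bp := d.h3.trans d.h4
  have hbB : bm ≤ bp := d.h1.trans (d.h2.trans hbe)
  have hM0 : 0 ≤ M := (abs_nonneg _).trans (d.m1 (Classical.arbitrary _))
  have hcr := crs_B (Q := Q) hbB
  have hk := kf_nonneg (Q := Q) bp c f
  have hk1 := kf_mp d.h5 d.hf
  set H : Px Q → ℝ := cE w (pJ bm bp) (g - CC w J θ g) with hH
  have e0 : cE w (pJ bm bp) g - cE w (pJ bm bp) (CC w J θ g) = H := by rw [hH, cE_sub]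
  have hA0 : cE w (pJ 0 bp) H = 0 := by
    rw [hH, cE_tower w hcr]
    exact cE_sub_avC d.th1 (fun m hm => crs_pJ le_rfl (d.hJ m hm).2) g
  rw [e0, c3_centred hA0, cE_tower w hcr, cE_tower w hcr]
  set V : Px Q → ℝ := H * ((cE w (pJ bm bp) γ - cE w (pJ 0 bp) γ) * (cE w (pJ bm bp) g - cE w (pJ 0 bp) g)) with hV
  have hdB : Hd bp bp w := d.hd bp bp hbe le_rfl
  have l1 : Lk 0 bp g := Lk_mono (Nat.zero_le _) hbe d.g1
  have l2 : Lk 0 bp γ := Lk_mono (Nat.zero_le _) hbe d.g2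
  have hLV : Lk 0 bp V := by
    refine Lk_mul (Lk_blk hdB hbB (Lk_CC d)) (Lk_mul ?_ ?_)
    · exact Lk_sub (Lk_blk hdB hbB l2) (Lk_mono (Nat.zero_le _) le_rfl (markov_cE hdB l2))
    · exact Lk_sub (Lk_blk hdB hbB l1) (Lk_mono (Nat.zero_le _) le_rfl (markov_cE hdB l1))
  refine (abs_gc_Pk (d.hd bp c hbe d.h5) hdB d.h5 hLV d.hf).trans ?_
  have b1 : ∀ S, |cE w (pJ bm bp) γ S - cE w (pJ 0 bp) γ S| ≤ 2 * M := fun S =>
    (abs_sub _ _).trans (by linarith [abs_cE_le_const w (pJ (Q := Q) bm bp) d.m2 S, abs_cE_le_const w (pJ (Q := Q) 0 bp) d.m2 S])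
  have b2 : ∀ S, |cE w (pJ bm bp) g S - cE w (pJ 0 bp) g S| ≤ 2 * M := fun S =>
    (abs_sub _ _).trans (by linarith [abs_cE_le_const w (pJ (Q := Q) bm bp) d.m1 S, abs_cE_le_const w (pJ (Q := Q) 0 bp) d.m1 S])
  have b3 : ∀ S, |H S| ≤ 2 * M := fun S => abs_cE_le_const w _ (abs_sub_CC_le2 d) S
  -- the first factor is bounded
  have s1 : Pk w (kf bp c f) (fun S => |V S|) ≤
      2 * M * Pk w (kf bp c f) (fun S => |H S| * |cE w (pJ bm bp) g S - cE w (pJ 0 bp) g S| * 1) := by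
    rw [← Pk_smul]
    refine Pk_mono hk fun S => ?_
    rw [hV, Pi.mul_apply, Pi.mul_apply, Pi.sub_apply, Pi.sub_apply, abs_mul, abs_mul]
    have := mul_le_mul_of_nonneg_right (b1 S) (mul_nonneg (abs_nonneg (H S)) (abs_nonneg (cE w (pJ bm bp) g S - cE w (pJ 0 bp) g S)))
    linarith
  -- the own factor
  have s2 := own_cut hk hk1 hcr (w := w) (V := fun S => |H S|) (U := fun S => |cE w (pJ bm bp) g S - cE w (pJ 0 bp) g S|)
    (ψ := mI w (pJ 0 bp) bm al) (R := fun _ => 1) (T := OB) (L := 2 * M) (M0 := 2 * M) (e := e1) d.mB b3 (by linarith)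
    (fun S => abs_nonneg _) (fun S => abs_nonneg _)
    (fun S => abs_own_le d.h1 d.h2 hbe (d.wk bp hbe le_rfl) d.g1 d.m1 S) (by linarith) (fun _ _ _ => rfl) (fun _ => zero_le_one)
    (fun _ => le_rfl) (fun S => by rw [← cE2_mI]; exact d.eB S) d.e10
  have s3 : Pk w (kf bp c f) (fun S => |H S| * |cE w (pJ bm bp) g S - cE w (pJ 0 bp) g S| * (ii OB S * 1)) ≤
      2 * M * Pk w (kf bp c f) (fun S => |H S| * ii OB S) := by
    rw [← Pk_smul]
    refine Pk_mono hk fun S => ?_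
    have a1 := mul_le_mul_of_nonneg_left (b2 S) (mul_nonneg (abs_nonneg (H S)) (ii_nonneg OB S))
    linarith
  have s4 : Pk w (kf bp c f) (fun S => |H S| * ii OB S) ≤
      ∑ m ∈ J, θ m * (2 * M * (Pk w (kf bp c f) (fun S => ii (A m) S * ii OB S) + e1 * Pk w (kf bp c f) fun _ => 1)) := by
    have a1 : Pk w (kf bp c f) (fun S => |H S| * ii OB S) ≤
        Pk w (kf bp c f) fun S => ∑ m ∈ J, θ m * (2 * M * (cE w (pJ bm bp) (mI w (pJ 0 m) bm al) S * ii OB S)) := by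
      refine Pk_mono hk fun S => ?_
      refine (mul_le_mul_of_nonneg_right (abs_H_le d S) (ii_nonneg OB S)).trans_eq ?_
      rw [Finset.sum_mul]
      exact Finset.sum_congr rfl fun m _ => by ring
    refine a1.trans ?_
    rw [Pk_sum]
    refine sum_le_sum fun m hm => ?_
    rw [Pk_smul, Pk_smul]
    exact mul_le_mul_of_nonneg_left (mul_le_mul_of_nonneg_left (Pk_A d (mem_insert_of_mem hm)) (by linarith)) (d.th0 m hm)
  have s5 : ∑ m ∈ J, θ m * (2 * M * (Pk w (kf bp c f) (fun S => ii (A m) S * ii OB S) + e1 * Pk w (kf bp c f) fun _ => 1)) =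
      2 * M * (∑ m ∈ J, θ m * Pk w (kf bp c f) (fun S => ii (A m) S * ii OB S)) +
        2 * M * e1 * Pk w (kf bp c f) fun _ => 1 := by
    have a1 : ∀ m ∈ J, θ m * (2 * M * (Pk w (kf bp c f) (fun S => ii (A m) S * ii OB S) + e1 * Pk w (kf bp c f) fun _ => 1)) =
        2 * M * (θ m * Pk w (kf bp c f) (fun S => ii (A m) S * ii OB S)) + θ m * (2 * M * e1 * Pk w (kf bp c f) fun _ => 1) :=
      fun m _ => by ring
    rw [Finset.sum_congr rfl a1, Finset.sum_add_distrib, ← Finset.mul_sum, ← Finset.sum_mul, d.th1, one_mul]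
  rw [s5] at s4
  have p0 : 0 ≤ 2 * M := by linarith
  have q1 := mul_le_mul_of_nonneg_left s4 p0
  have q2 := mul_le_mul_of_nonneg_left (s2.trans (add_le_add (s3.trans q1) le_rfl)) p0
  refine (s1.trans q2).trans (le_of_eq ?_)
  ring

/-- One micro term: `F'` in the covariance, `F''` own. -/
theorem rem_mic (d : TD bm bp al be h c w J θ g γ f M A1 e1 e2 A Mm OB Oj) {F' F'' : Px Q → ℝ} (l1 : Lk al be F')
    (l2 : Lk al be F'') (b1 : ∀ S, |F' S| ≤ M) (b2 : ∀ S, |F'' S| ≤ M) :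
    |gc w (cC w (pJ 0 bp) (cC w (pJ bm bp) (g - CC w J θ g) F') (cE w (pJ bm bp) F'')) f| ≤
      8 * M ^ 3 * Pk w (kf bp c f) (fun S => ii (A h) S * ii OB S) +
        4 * M ^ 2 * A1 * ∑ m ∈ J, θ m * Pk w (kf bp c f) (fun S => ii (Mm m) S * (ii Oj S * ii OB S)) +
        (24 * M ^ 3 * e1 + 4 * M ^ 2 * e2) * Pk w (kf bp c f) fun _ => 1 := by
  have hbe : be ≤ bp := d.h3.trans d.h4
  have hbB : bm ≤ bp := d.h1.trans (d.h2.trans hbe)
  have hM0 : 0 ≤ M := (abs_nonneg _).trans (d.m1 (Classical.arbitrary _))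
  have hcr := crs_B (Q := Q) hbB
  have hk := kf_nonneg (Q := Q) bp c f
  have hk1 := kf_mp d.h5 d.hf
  have hdB : Hd bp bp w := d.hd bp bp hbe le_rfl
  set N : Px Q → ℝ := cC w (pJ bm bp) (g - CC w J θ g) F' with hN
  have l1' : Lk 0 bp F' := Lk_mono (Nat.zero_le _) hbe l1
  have l2' : Lk 0 bp F'' := Lk_mono (Nat.zero_le _) hbe l2
  rw [cC_centred1, cE_tower w hcr]
  set V : Px Q → ℝ := N * (cE w (pJ bm bp) F'' - cE w (pJ 0 bp) F'') with hV
  have hLN : Lk 0 bp N := by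
    rw [hN]
    unfold cC
    exact Lk_sub (Lk_blk hdB hbB (Lk_mul (Lk_CC d) l1')) (Lk_mul (Lk_blk hdB hbB (Lk_CC d)) (Lk_blk hdB hbB l1'))
  have hLV : Lk 0 bp V := Lk_mul hLN (Lk_sub (Lk_blk hdB hbB l2') (Lk_mono (Nat.zero_le _) le_rfl (markov_cE hdB l2')))
  refine (abs_gc_Pk (d.hd bp c hbe d.h5) hdB d.h5 hLV d.hf).trans ?_
  -- the two bounds of `N`
  have hNc : N = cE w (pJ bm bp) ((g - CC w J θ g) * (F' - cE w (pJ bm bp) F')) := cC_centred1 w _ _ _
  have bF : ∀ S, |(F' - cE w (pJ bm bp) F') S| ≤ 2 * M := fun S => by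
    rw [Pi.sub_apply]
    exact (abs_sub _ _).trans (by linarith [b1 S, abs_cE_le_const w (pJ (Q := Q) bm bp) b1 S])
  have nb1 : ∀ S, |N S| ≤ 4 * M ^ 2 := fun S => by
    rw [hNc]
    refine abs_cE_le_const w _ (fun T => ?_) S
    rw [Pi.mul_apply, abs_mul]
    calc |(g - CC w J θ g) T| * |(F' - cE w (pJ bm bp) F') T| ≤ 2 * M * (2 * M) :=
          mul_le_mul (abs_sub_CC_le2 d T) (bF T) (abs_nonneg _) (by linarith)
      _ = 4 * M ^ 2 := by ring
  have nb2 : ∀ S, |N S| ≤ ∑ m ∈ J, θ m * (2 * M * cE w (pJ bm bp) (fun T => |g T - cE w (pJ 0 m) g T|) S) := fun S => by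
    rw [hNc]
    refine (abs_cE_le90 w _ (g := ∑ m ∈ J, (θ m * (2 * M)) • fun T => |g T - cE w (pJ 0 m) g T|) (fun T => ?_) S).trans_eq ?_
    · rw [Pi.mul_apply, abs_mul, Finset.sum_apply]
      refine (mul_le_mul (abs_sub_CC_le d T) (bF T) (abs_nonneg _) (Finset.sum_nonneg fun m hm =>
        mul_nonneg (d.th0 m hm) (abs_nonneg _))).trans_eq ?_
      rw [Finset.sum_mul]
      exact Finset.sum_congr rfl fun m _ => by rw [Pi.smul_apply, smul_eq_mul]; ring
    · rw [cE_sum, Finset.sum_apply]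
      exact Finset.sum_congr rfl fun m _ => by rw [cE_smul, Pi.smul_apply, smul_eq_mul]; ring
  -- the own factor
  have s1 : Pk w (kf bp c f) (fun S => |V S|) =
      Pk w (kf bp c f) (fun S => |N S| * |cE w (pJ bm bp) F'' S - cE w (pJ 0 bp) F'' S| * 1) := by
    congr 1
    funext S
    rw [hV, Pi.mul_apply, Pi.sub_apply, abs_mul, mul_one]
  have s2 := own_cut hk hk1 hcr (w := w) (V := fun S => |N S|) (U := fun S => |cE w (pJ bm bp) F'' S - cE w (pJ 0 bp) F'' S|)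
    (ψ := mI w (pJ 0 bp) bm al) (R := fun _ => 1) (T := OB) (L := 2 * M) (M0 := 4 * M ^ 2) (e := e1) d.mB nb1 (by positivity)
    (fun S => abs_nonneg _) (fun S => abs_nonneg _)
    (fun S => abs_own_le d.h1 d.h2 hbe (d.wk bp hbe le_rfl) l2 b2 S) (by linarith) (fun _ _ _ => rfl) (fun _ => zero_le_one)
    (fun _ => le_rfl) (fun S => by rw [← cE2_mI]; exact d.eB S) d.e10
  -- the two parts of the own factor
  set K : Px Q → ℝ := cE w (pJ 0 h) F'' with hK
  have lK : Lk h h K := markov_cE (d.hd h h d.h3 le_rfl) (Lk_mono (Nat.zero_le _) d.h3 l2)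
  have bK : ∀ S, |K S| ≤ M := fun S => abs_cE_le_const w _ b2 S
  have s3 : ∀ S, |cE w (pJ bm bp) F'' S - cE w (pJ 0 bp) F'' S| ≤
      |cE w (pJ bm bp) (fun T => F'' T - K T) S| + |cE w (pJ bm bp) K S - cE w (pJ 0 bp) K S| := fun S => by
    have e1 : (fun T => F'' T - K T) = F'' - K := rfl
    have e2 : cE w (pJ 0 bp) K S = cE w (pJ 0 bp) F'' S := congrFun (cE_tower w (crs_pJ le_rfl d.h4) F'') S
    rw [e1, cE_sub, Pi.sub_apply, e2]
    have e3 : cE w (pJ bm bp) F'' S - cE w (pJ 0 bp) F'' S =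
        (cE w (pJ bm bp) F'' S - cE w (pJ bm bp) K S) + (cE w (pJ bm bp) K S - cE w (pJ 0 bp) F'' S) := by ring
    rw [e3]
    exact abs_add_le _ _
  have s4 : Pk w (kf bp c f) (fun S => |N S| * |cE w (pJ bm bp) F'' S - cE w (pJ 0 bp) F'' S| * (ii OB S * 1)) ≤
      Pk w (kf bp c f) (fun S => 4 * M ^ 2 * (2 * M) * (cE w (pJ bm bp) (mI w (pJ 0 h) bm al) S * ii OB S)) +
        Pk w (kf bp c f) (fun S => |N S| * |cE w (pJ bm bp) K S - cE w (pJ 0 bp) K S| * ii OB S) := by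
    rw [← Pk_add]
    refine Pk_mono hk fun S => ?_
    have a1 := mul_le_mul_of_nonneg_left (s3 S) (mul_nonneg (abs_nonneg (N S)) (ii_nonneg OB S))
    have a2 : |N S| * |cE w (pJ bm bp) (fun T => F'' T - K T) S| ≤ 4 * M ^ 2 * (2 * M * cE w (pJ bm bp) (mI w (pJ 0 h) bm al) S) :=
      mul_le_mul (nb1 S) (abs_cut_le d.h1 d.h2 d.h3 d.h4 (d.wk h d.h3 d.h4) l2 b2 S) (abs_nonneg _) (by positivity)
    have a3 := mul_le_mul_of_nonneg_right a2 (ii_nonneg OB S)
    linarith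
  have s5 := Pk_A d (mem_insert_self h J)
  have s6 := own_cut hk hk1 hcr (w := w) (V := fun S => |N S|) (U := fun S => |cE w (pJ bm bp) K S - cE w (pJ 0 bp) K S|)
    (ψ := mI w (pJ 0 bp) be h) (R := ii OB) (T := Oj) (L := 2 * M) (M0 := 4 * M ^ 2) (e := e1) d.mj nb1 (by positivity)
    (fun S => abs_nonneg _) (fun S => abs_nonneg _)
    (fun S => abs_own2_le (d.h1.trans d.h2) d.h3 d.h4 d.wk2 lK bK S) (by linarith) (mp_OB d) (ii_nonneg OB)
    (ii_le_one OB) (fun S => by rw [← cE2_mI]; exact d.ej S) d.e10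
  have s7 : Pk w (kf bp c f) (fun S => |N S| * |cE w (pJ bm bp) K S - cE w (pJ 0 bp) K S| * (ii Oj S * ii OB S)) ≤
      2 * M * Pk w (kf bp c f) (fun S => |N S| * (ii Oj S * ii OB S)) := by
    rw [← Pk_smul]
    refine Pk_mono hk fun S => ?_
    have a0 : |cE w (pJ bm bp) K S - cE w (pJ 0 bp) K S| ≤ 2 * M :=
      (abs_sub _ _).trans (by linarith [abs_cE_le_const w (pJ (Q := Q) bm bp) bK S, abs_cE_le_const w (pJ (Q := Q) 0 bp) bK S])
    have a1 := mul_le_mul_of_nonneg_left a0 (mul_nonneg (abs_nonneg (N S)) (mul_nonneg (ii_nonneg Oj S) (ii_nonneg OB S)))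
    linarith
  have s8 : Pk w (kf bp c f) (fun S => |N S| * (ii Oj S * ii OB S)) ≤
      ∑ m ∈ J, θ m * (2 * M * (A1 * Pk w (kf bp c f) (fun S => ii (Mm m) S * (ii Oj S * ii OB S)) +
        e2 * Pk w (kf bp c f) fun _ => 1)) := by
    have a1 : Pk w (kf bp c f) (fun S => |N S| * (ii Oj S * ii OB S)) ≤
        Pk w (kf bp c f) fun S => ∑ m ∈ J, θ m * (2 * M * (cE w (pJ bm bp) (fun T => |g T - cE w (pJ 0 m) g T|) S *
          (ii Oj S * ii OB S))) := by
      refine Pk_mono hk fun S => ?_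
      refine (mul_le_mul_of_nonneg_right (nb2 S) (mul_nonneg (ii_nonneg Oj S) (ii_nonneg OB S))).trans_eq ?_
      rw [Finset.sum_mul]
      exact Finset.sum_congr rfl fun m _ => by ring
    refine a1.trans ?_
    rw [Pk_sum]
    refine sum_le_sum fun m hm => ?_
    rw [Pk_smul, Pk_smul]
    refine mul_le_mul_of_nonneg_left (mul_le_mul_of_nonneg_left ?_ (by linarith)) (d.th0 m hm)
    refine (told_B d (d.hJ m hm).2 (mp_OjB d) (fun S => mul_nonneg (ii_nonneg Oj S) (ii_nonneg OB S))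
      (G := fun S => A1 * ii (Mm m) S + e2) (d.eM m hm)).trans ?_
    rw [← Pk_smul, ← Pk_smul, ← Pk_add]
    refine Pk_mono hk fun S => ?_
    have a2 : ii Oj S * ii OB S ≤ 1 := mul_le_one₀ (ii_le_one Oj S) (ii_nonneg OB S) (ii_le_one OB S)
    have a3 := mul_le_mul_of_nonneg_left a2 d.e20
    linarith
  have s9 : ∑ m ∈ J, θ m * (2 * M * (A1 * Pk w (kf bp c f) (fun S => ii (Mm m) S * (ii Oj S * ii OB S)) +
        e2 * Pk w (kf bp c f) fun _ => 1)) =
      2 * M * A1 * (∑ m ∈ J, θ m * Pk w (kf bp c f) (fun S => ii (Mm m) S * (ii Oj S * ii OB S))) +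
        2 * M * e2 * Pk w (kf bp c f) fun _ => 1 := by
    have a1 : ∀ m ∈ J, θ m * (2 * M * (A1 * Pk w (kf bp c f) (fun S => ii (Mm m) S * (ii Oj S * ii OB S)) +
        e2 * Pk w (kf bp c f) fun _ => 1)) =
        2 * M * A1 * (θ m * Pk w (kf bp c f) (fun S => ii (Mm m) S * (ii Oj S * ii OB S))) +
          θ m * (2 * M * e2 * Pk w (kf bp c f) fun _ => 1) := fun m _ => by ring
    rw [Finset.sum_congr rfl a1, Finset.sum_add_distrib, ← Finset.mul_sum, ← Finset.sum_mul, d.th1, one_mul]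
  rw [s9] at s8
  rw [Pk_smul] at s4
  have p0 : 0 ≤ 2 * M := by linarith
  have p1 : 0 ≤ 4 * M ^ 2 * (2 * M) := by positivity
  have q1 := mul_le_mul_of_nonneg_left s5 p1
  have q2 := mul_le_mul_of_nonneg_left s8 p0
  rw [s1]
  linarith

/-- **THE REMAINDER OF `T_0L`**: `D_(g - C)` of the term of the own block, in events told from the future of one path. -/
theorem T0_rem (d : TD bm bp al be h c w J θ g γ f M A1 e1 e2 A Mm OB Oj) :
    |gc w (c3 w (pJ 0 bp) (cE w (pJ bm bp) g - cE w (pJ bm bp) (CC w J θ g)) (cE w (pJ bm bp) γ) (cE w (pJ bm bp) g) +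
        cC w (pJ 0 bp) (cC w (pJ bm bp) (g - CC w J θ g) γ) (cE w (pJ bm bp) g) +
        cC w (pJ 0 bp) (cE w (pJ bm bp) γ) (cC w (pJ bm bp) (g - CC w J θ g) g)) f| ≤
      8 * M ^ 3 * ∑ m ∈ J, θ m * Pk w (kf bp c f) (fun S => ii (A m) S * ii OB S) +
      16 * M ^ 3 * Pk w (kf bp c f) (fun S => ii (A h) S * ii OB S) +
      8 * M ^ 2 * A1 * ∑ m ∈ J, θ m * Pk w (kf bp c f) (fun S => ii (Mm m) S * (ii Oj S * ii OB S)) +
      (64 * M ^ 3 * e1 + 8 * M ^ 2 * e2) * Pk w (kf bp c f) fun _ => 1 := by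
  rw [cC_symm w (pJ 0 bp) (cE w (pJ bm bp) γ), gc_add_left, gc_add_left]
  have h1 := rem_c3 d
  have h2 := rem_mic d (F' := γ) (F'' := g) d.g2 d.g1 d.m2 d.m1
  have h3 := rem_mic d (F' := g) (F'' := γ) d.g1 d.g2 d.m1 d.m2
  refine (abs_add_three _ _ _).trans ((add_le_add (add_le_add h1 h2) h3).trans (le_of_eq ?_))
  ring

end Rem

end Mod

end

end Pool.W7d29a1.C0.R90
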