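import Pool.Agent.W_7d29a1_C0.PT93E
import Pool.Agent.W_7d29a1_C0.T0A90

/-!
CURV0 (MP_7d29a1_pr), leaf (T), `T_0L` (helper90): THE FAMILIES OF THE OWN BLOCK. All near ties are pair events told from the future of
the one path `S`, at the corner `wm`. `bm = j / σ σ`, `bp = (j / σ + 1) σ` (the block of length `σ` of the row `j`).
`U0F`: pairs given `pJ 0 bp` apart on `[bm, j - b]`. `UAF m`: pairs given `pJ 0 m` apart on `[bm, j - b]`, and the event `U0F`.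
`UMF m`: pairs given `pJ 0 m` apart on `[j - b0, j]` or on `[j, j + b0]`, and pairs given `pJ 0 bp` apart on `[j + b, j + 4 b]`.
`grpT90`: the group bound with a TOTAL of the prices.
-/

set_option autoImplicit false
set_option linter.unusedSectionVars false
set_option linter.unusedVariables false

namespace Pool.Agent.W_7d29a1_C0.T0E90

open Finset MeasureTheory
open Pool.Agent.W_7d29a1_C0 Pool.Agent.W_7d29a1_C0.Mod92 Pool.Agent.W_7d29a1_C0.Swap57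
open Pool.Agent.W_7d29a1_F Pool.Agent.W_7d29a1_X
open Pool.W7d29a1.C0 Pool.W7d29a1.C0.VT31
open Pool.Agent.W_7d29a1_C0.T93 (tauI tauI_nonneg tauI_le_one meas_tauI)

noncomputable section

variable {μ : Measure ℝ} {s : ℝ} {N : ℕ}

/-- The left end of the block of the row `j`. -/
def bmB (σ j : ℕ) : ℕ := j / σ * σ

/-- The right end of the block of the row `j`. -/
def bpB (σ j : ℕ) : ℕ := (j / σ + 1) * σ

/-- The near tie over `[i, k]`, told from `pJ 0 m`, at the corner. -/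
def tI (μ : Measure ℝ) (s : ℝ) (N : ℕ) (m i k : ℕ) (M : ℝ) : Fam N := fun y ω S => tauI (wm μ s N (Pn N y) ω) m i k M S

theorem tI_nonneg (m i k : ℕ) (M : ℝ) (y : ℕ) (ω : Env × Finset ℕ) (S : Px (Pn N y)) : 0 ≤ tI μ s N m i k M y ω S :=
  tauI_nonneg _ _ _ _ _ _

theorem tI_le_one (m i k : ℕ) (M : ℝ) (y : ℕ) (ω : Env × Finset ℕ) (S : Px (Pn N y)) : tI μ s N m i k M y ω S ≤ 1 :=
  tauI_le_one _ _ _ _ _ _

theorem meas_tI (m i k : ℕ) (M : ℝ) (y : ℕ) (S : Px (Pn N y)) : Measurable fun ω => tI μ s N m i k M y ω S :=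
  meas_tauI m i k M S

/-- The own pairs of the row `j`. -/
def U0F (μ : Measure ℝ) (s : ℝ) (N σ b : ℕ) (M : ℝ) (j : ℕ) : Fam N := tI μ s N (bpB σ j) (bmB σ j) (j - b) M

/-- The slab field of the row `m` in the block of the row `j`. -/
def UAF (μ : Measure ℝ) (s : ℝ) (N σ b : ℕ) (M : ℝ) (m j : ℕ) : Fam N := fun y ω S =>
  tI μ s N m (bmB σ j) (j - b) M y ω S * tI μ s N (bpB σ j) (bmB σ j) (j - b) M y ω S

/-- The micro ties of the row `j`, told from the row `m`, and the second part of the own pair. -/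
def UMF (μ : Measure ℝ) (s : ℝ) (N σ b b0 : ℕ) (M : ℝ) (m j : ℕ) : Fam N := fun y ω S =>
  (tI μ s N m (j - b0) j M y ω S + tI μ s N m j (j + b0) M y ω S) * tI μ s N (bpB σ j) (j + b) (j + 4 * b) M y ω S

theorem U0F_nonneg (σ b : ℕ) (M : ℝ) (j y : ℕ) (ω : Env × Finset ℕ) (S : Px (Pn N y)) : 0 ≤ U0F μ s N σ b M j y ω S :=
  tI_nonneg _ _ _ _ _ _ _

theorem U0F_le_one (σ b : ℕ) (M : ℝ) (j y : ℕ) (ω : Env × Finset ℕ) (S : Px (Pn N y)) : U0F μ s N σ b M j y ω S ≤ 1 :=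
  tI_le_one _ _ _ _ _ _ _

theorem meas_U0F (σ b : ℕ) (M : ℝ) (j y : ℕ) (S : Px (Pn N y)) : Measurable fun ω => U0F μ s N σ b M j y ω S :=
  meas_tI _ _ _ _ _ _

theorem UAF_nonneg (σ b : ℕ) (M : ℝ) (m j y : ℕ) (ω : Env × Finset ℕ) (S : Px (Pn N y)) : 0 ≤ UAF μ s N σ b M m j y ω S :=
  mul_nonneg (tI_nonneg _ _ _ _ _ _ _) (tI_nonneg _ _ _ _ _ _ _)

theorem UAF_le_one (σ b : ℕ) (M : ℝ) (m j y : ℕ) (ω : Env × Finset ℕ) (S : Px (Pn N y)) : UAF μ s N σ b M m j y ω S ≤ 1 :=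
  mul_le_one₀ (tI_le_one _ _ _ _ _ _ _) (tI_nonneg _ _ _ _ _ _ _) (tI_le_one _ _ _ _ _ _ _)

theorem meas_UAF (σ b : ℕ) (M : ℝ) (m j y : ℕ) (S : Px (Pn N y)) : Measurable fun ω => UAF μ s N σ b M m j y ω S :=
  (meas_tI _ _ _ _ _ _).mul (meas_tI _ _ _ _ _ _)

theorem UMF_nonneg (σ b b0 : ℕ) (M : ℝ) (m j y : ℕ) (ω : Env × Finset ℕ) (S : Px (Pn N y)) : 0 ≤ UMF μ s N σ b b0 M m j y ω S :=
  mul_nonneg (add_nonneg (tI_nonneg _ _ _ _ _ _ _) (tI_nonneg _ _ _ _ _ _ _)) (tI_nonneg _ _ _ _ _ _ _)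

theorem UMF_le_two (σ b b0 : ℕ) (M : ℝ) (m j y : ℕ) (ω : Env × Finset ℕ) (S : Px (Pn N y)) : UMF μ s N σ b b0 M m j y ω S ≤ 2 := by
  have h1 := tI_le_one (μ := μ) (s := s) m (j - b0) j M y ω S
  have h2 := tI_le_one (μ := μ) (s := s) m j (j + b0) M y ω S
  have h3 := tI_le_one (μ := μ) (s := s) (bpB σ j) (j + b) (j + 4 * b) M y ω S
  have h4 := tI_nonneg (μ := μ) (s := s) (bpB σ j) (j + b) (j + 4 * b) M y ω S
  have h5 := tI_nonneg (μ := μ) (s := s) m (j - b0) j M y ω S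
  have h6 := tI_nonneg (μ := μ) (s := s) m j (j + b0) M y ω S
  unfold UMF
  nlinarith

theorem meas_UMF (σ b b0 : ℕ) (M : ℝ) (m j y : ℕ) (S : Px (Pn N y)) : Measurable fun ω => UMF μ s N σ b b0 M m j y ω S :=
  ((meas_tI _ _ _ _ _ _).add (meas_tI _ _ _ _ _ _)).mul (meas_tI _ _ _ _ _ _)

/-! ### The group bound with a total -/

section Grp

open Pool.Agent.W_7d29a1_C0.T72 (NN72 NN72_nonneg NN72_le_one NN72_symm abs_PP_bd72 meas_PP72)
open Pool.Agent.W_7d29a1_C0.T93 (rw2 pr2 grp_one)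

variable [IsProbabilityMeasure μ]

theorem int_pr90 {y : ℕ} (hy : y ≤ N) (zt c : ℕ) {U V : Fam N} {a : ℝ} (U0 : ∀ ω x, 0 ≤ U y ω x) (V0 : ∀ ω x, 0 ≤ V y ω x)
    (U1 : ∀ ω x, U y ω x ≤ a) (V1 : ∀ ω x, V y ω x ≤ a) (mU : ∀ S, Measurable fun ω => U y ω S)
    (mV : ∀ S, Measurable fun ω => V y ω S) :
    Integrable (fun ω => PP (wm μ s N (Pn N y) ω) fun x z => NN72 N zt c y ω x z * (U y ω x * V y ω x)) (Pm μ N) := by
  have := ne_Pn hy
  refine int_bdd (M := 1 * (a * a)) (meas_PP72 fun x z => measurable_const.mul ((mU x).mul (mV x))) fun ω =>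
    abs_PP_bd72 _ fun x z => ?_
  have ha : 0 ≤ a := (U0 ω x).trans (U1 ω x)
  rw [abs_of_nonneg (mul_nonneg (NN72_nonneg zt c y ω x z) (mul_nonneg (U0 ω x) (V0 ω x)))]
  exact mul_le_mul (NN72_le_one _ _ _ _ _ _) (mul_le_mul (U1 ω x) (V1 ω x) (V0 ω x) ha) (mul_nonneg (U0 ω x) (V0 ω x))
    zero_le_one

theorem int_rw90 {y : ℕ} (hy : y ≤ N) (zt c : ℕ) {U f : Fam N} {a D : ℝ} (U0 : ∀ ω x, 0 ≤ U y ω x)
    (U1 : ∀ ω x, U y ω x ≤ a) (mU : ∀ S, Measurable fun ω => U y ω S) (mf : ∀ S, Measurable fun ω => f y ω S)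
    (bf : ∀ ω S, |f y ω S| ≤ D) : Integrable (fun ω => PP (wm μ s N (Pn N y) ω) fun x z => NN72 N zt c y ω x z *
      (U y ω x + U y ω z) * |f y ω x - f y ω z|) (Pm μ N) := by
  have := ne_Pn hy
  refine int_bdd (M := 1 * (2 * a) * (2 * D)) (meas_PP72 fun x z => (measurable_const.mul ((mU x).add (mU z))).mul
    (((mf x).sub (mf z)).abs)) fun ω => abs_PP_bd72 _ fun x z => ?_
  have bd : |f y ω x - f y ω z| ≤ 2 * D := (abs_sub _ _).trans (by linarith [bf ω x, bf ω z])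
  rw [abs_mul, abs_mul, abs_abs, abs_of_nonneg (NN72_nonneg zt c y ω x z), abs_of_nonneg (add_nonneg (U0 ω x) (U0 ω z))]
  have ha : 0 ≤ a := (U0 ω x).trans (U1 ω x)
  refine mul_le_mul (mul_le_mul (NN72_le_one _ _ _ _ _ _) ?_ (add_nonneg (U0 ω x) (U0 ω z)) zero_le_one) bd
    (abs_nonneg _) (by positivity)
  linarith [U1 ω x, U1 ω z]

/-- **The group bound with a total of the prices.** -/
theorem grpT90 {ys S : Finset ℕ} (hys : ∀ y ∈ ys, y ≤ N) {zt c : ℕ} {U : ℕ → Fam N} {f : Fam N} {a D : ℝ}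
    (U0 : ∀ j y ω x, 0 ≤ U j y ω x) (U1 : ∀ j y ω x, U j y ω x ≤ a) (mU : ∀ j y S, Measurable fun ω => U j y ω S)
    (mf : ∀ y S, Measurable fun ω => f y ω S) (bf : ∀ y ω S, |f y ω S| ≤ D) {T : ℝ}
    (hp : ∑ j ∈ S, ∑ k ∈ S, avy ys (pr2 μ s N (NN72 N zt c) (U j) (U k)) ≤ T) :
    ∑ j ∈ S, avy ys (rw2 μ s N (NN72 N zt c) (U j) f) ≤ Real.sqrt (4 * T) * Real.sqrt (2 * avy ys (varF μ s N f)) := by
  have v0 : ∀ y ∈ ys, 0 ≤ varF μ s N f y := fun y hy => by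
    have := ne_Pn (hys y hy)
    exact integral_nonneg fun ω => gv_nonneg _ _
  have p0 : ∀ y ∈ ys, 0 ≤ ∑ j ∈ S, ∑ k ∈ S, pr2 μ s N (NN72 N zt c) (U j) (U k) y := fun y hy => by
    have := ne_Pn (hys y hy)
    refine sum_nonneg fun j _ => sum_nonneg fun k _ => integral_nonneg fun ω => PP_nonneg _ fun x z => ?_
    exact mul_nonneg (NN72_nonneg zt c y ω x z) (mul_nonneg (U0 j y ω x) (U0 k y ω x))
  rw [← avy_sum]
  have h1 : avy ys (fun y => ∑ j ∈ S, rw2 μ s N (NN72 N zt c) (U j) f y) ≤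
      avy ys fun y => Real.sqrt (4 * ∑ j ∈ S, ∑ k ∈ S, pr2 μ s N (NN72 N zt c) (U j) (U k) y) *
        Real.sqrt (2 * varF μ s N f y) :=
    avy_mono fun y hy => grp_one (hys y hy) (NN72_nonneg zt c y) (NN72_le_one zt c y) (NN72_symm zt c y)
      (fun j _ => U0 j y) (fun j _ k _ => int_pr90 (hys y hy) zt c (U0 j y) (U0 k y) (U1 j y) (U1 k y) (mU j y) (mU k y))
      (fun j _ => int_rw90 (hys y hy) zt c (U0 j y) (U1 j y) (mU j y) (mf y) (bf y))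
      (by
        have := ne_Pn (hys y hy)
        exact int_bdd (meas_gv meas_wm fun S => mf y S) fun ω => abs_gv_le _ (bf y ω))
  refine h1.trans ((T93.avy_sqrt_mul_le (fun y hy => mul_nonneg (by norm_num) (p0 y hy))
    (fun y hy => mul_nonneg (by norm_num) (v0 y hy))).trans ?_)
  rw [avy_mul, avy_mul, avy_sum]
  have e2 : ∀ j ∈ S, avy ys (fun y => ∑ k ∈ S, pr2 μ s N (NN72 N zt c) (U j) (U k) y) =
      ∑ k ∈ S, avy ys (pr2 μ s N (NN72 N zt c) (U j) (U k)) :=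
    fun j _ => avy_sum ys S fun k y => pr2 μ s N (NN72 N zt c) (U j) (U k) y
  rw [sum_congr rfl e2]
  refine mul_le_mul_of_nonneg_right (Real.sqrt_le_sqrt ?_) (Real.sqrt_nonneg _)
  exact mul_le_mul_of_nonneg_left hp (by norm_num)

end Grp

end

end Pool.Agent.W_7d29a1_C0.T0E90
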