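import Pool.Agent.W_7d29a1_C0.E2S39
import Pool.Agent.W_7d29a1_C0.T0E90

/-!
CURV0 (MP_7d29a1_pr), leaf E2a, the remainder, corner side, part A (helper13): THE OUTER TIE FIRST. `out_first`: the pair of free replicas
without common position on `[zf, c]` costs `N ^ ε / EE' (c - zf)` against every weight of the base path which is blind to the rows behind
`zf`. `tot13`: the total of the pair functionals of the rows of `S` against the second moment of the sum of the row events.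
`row13`: the row sum against the root of the variance of the spectator.
-/

set_option autoImplicit false
set_option linter.unusedSectionVars false
set_option linter.unusedVariables false

namespace Pool.Agent.W_7d29a1_C0.Rq13

open MeasureTheory ProbabilityTheory Filter Topology Finset
open Pool.Agent.W_7d29a1_F Pool.Agent.W_7d29a1_X Pool.Agent.W_7d29a1_h4g Pool.Agent.W_7d29a1_H
open Pool.Agent.W_7d29a1_HS (In wd md)
open Pool.Agent.W_7d29a1_HZ Pool.Agent.W_7d29a1_HZ.R72 Pool.Agent.W_7d29a1_Z.Asm72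
open Pool.Agent.W_7d29a1_HZ.Z86
open Pool.Agent.W_7d29a1_C0 Pool.Agent.W_7d29a1_C0.P86
open Pool.Agent.W_7d29a1_C0.Mod92
open Pool.Agent.W_7d29a1_C0.Swap57 (NI cE2 NI_nonneg)
open Pool.Agent.W_7d29a1_C0.CutT57 (NI_le_one)
open Pool.Agent.W_7d29a1_C0.MicE14 (rh rh_nonneg)
open Pool.Agent.W_7d29a1_C0.T72 (NN72 NN72_nonneg)
open Pool.Agent.W_7d29a1_C0.T93 (rdist Fam2 pr2 rw2 grp93)
open Pool.Agent.W_7d29a1_C0.E2S39 (out39 out39_nonneg out39_le_one out_eq39)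
open Pool.W7d29a1.C0 (gz gm gz_pos gm_nonneg gm_mono gm_const PP PP_mono PP_nonneg)
open Pool.W7d29a1.C0.VT31 (Mp cE gc gv gv_nonneg gm_mul_cE fz cE_sum cE_nonneg cE_mono)
open Pool.W7d29a1.C0.R43
open Pool.W7d29a1.C0.C45 (meas_PP45)

noncomputable section

variable {μ : Measure ℝ} {s : ℝ} {N : ℕ}

/-- The free replica is averaged. -/
theorem PP_out13 {y : ℕ} [Nonempty (Px (Pn N y))] (zf c : ℕ) (ω : Env × Finset ℕ) (F : Px (Pn N y) → ℝ) :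
    PP (wm μ s N (Pn N y) ω) (fun x z => NI zf c x z * F x) = gm (wm μ s N (Pn N y) ω) fun x => F x * out39 μ s N y zf c ω x := by
  rw [← Pool.Agent.W_7d29a1_C0.CutT57.gm_gm_eq_PP]
  congr 1
  funext x
  unfold out39
  have h1 : (fun z => NI zf c x z * F x) = fun z => F x * NI zf c x z := by
    funext z
    ring
  rw [h1, Pool.Agent.W_7d29a1_C0.CutT57.gm_const_mul]

section Out

variable [IsProbabilityMeasure μ] {c₀ C₀ : ℝ} {n₀ : ℕ}

/-- **THE OUTER TIE FIRST.** -/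
theorem out_first (h : In μ s c₀ C₀ n₀) : ∀ ε θ : ℝ, 0 < ε → 0 < θ → ∃ δ c₂ : ℝ, 0 < δ ∧ 0 < c₂ ∧ ∃ L₀ : ℕ, ∀ N : ℕ, L₀ ≤ N →
    ∀ y : ℕ, y ≤ N → |(y : ℝ) - sl μ s * N| ≤ ((N : ℝ) ^ δ * wd' μ s N) → ∀ zf c : ℕ, zf ≤ c → c ≤ N →
    (N : ℝ) ^ θ ≤ ((c - zf : ℕ) : ℝ) → ∀ F : Env × Finset ℕ → Px (Pn N y) → ℝ, (∀ A x, Measurable fun η => F (η, A) x) →
    (∀ ω x, 0 ≤ F ω x) → (∀ ω x, F ω x ≤ 1) →
    (∀ (η η' : Env) A x, (∀ q : Pt, ¬ (0 ≤ q.1 ∧ q.1.toNat ∈ Ioo zf N) → η q = η' q) → F (η, A) x = F (η', A) x) →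
    ∫ ω, PP (wm μ s N (Pn N y) ω) (fun x z => NI zf c x z * F ω x) ∂(Pm μ N) ≤
      ((N : ℝ) ^ ε * (EE' μ s (c - zf))⁻¹) * ∫ ω, gm (wm μ s N (Pn N y) ω) (F ω) ∂(Pm μ N) + Real.exp (-(N : ℝ) ^ c₂) := by
  intro ε θ hε hθ
  obtain ⟨δ, κ, c₂, hδ, hκ, hc₂, L₀, hP⟩ := tauI h 1 (by norm_num) ε θ hε hθ
  obtain ⟨N₁, hN₁⟩ := Pool.Agent.W_7d29a1_Z.NumI77.large (show 0 < min κ c₂ / 2 by positivity) 8
  refine ⟨δ, min κ c₂ / 2, hδ, by positivity, max L₀ N₁, fun N hN y hyN hyc zf c hzc hcN hlo F hFm hF0 hF1 hFo => ?_⟩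
  obtain ⟨n1, n2, -⟩ := hN₁ N ((le_max_right _ _).trans hN)
  have hNR : (1 : ℝ) ≤ N := by exact_mod_cast n1
  have hX1 : (1 : ℝ) ≤ (N : ℝ) ^ κ := Real.one_le_rpow hNR hκ.le
  have hx0 : (0 : ℝ) ≤ (N : ℝ) ^ (min κ c₂ / 2) := Real.rpow_nonneg (by linarith) _
  have hsq : (N : ℝ) ^ (min κ c₂ / 2) * (N : ℝ) ^ (min κ c₂ / 2) = (N : ℝ) ^ (min κ c₂) := by
    rw [← Real.rpow_add (by linarith)]
    congr 1
    ring
  have hk : (N : ℝ) ^ (min κ c₂) ≤ (N : ℝ) ^ κ := Real.rpow_le_rpow_of_exponent_le hNR (min_le_left _ _)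
  have hc : (N : ℝ) ^ (min κ c₂) ≤ (N : ℝ) ^ c₂ := Real.rpow_le_rpow_of_exponent_le hNR (min_le_right _ _)
  have h8 : (8 : ℝ) * (N : ℝ) ^ (min κ c₂ / 2) ≤ (N : ℝ) ^ (min κ c₂) := by
    rw [← hsq]
    exact mul_le_mul_of_nonneg_right n2 hx0
  have h1x : (1 : ℝ) ≤ (N : ℝ) ^ (min κ c₂ / 2) := Real.one_le_rpow hNR (by positivity)
  have hM8 : (8 : ℝ) ≤ (N : ℝ) ^ κ := by nlinarith
  have hne := ne_Pn (N := N) hyN
  have key := hP N ((le_max_left _ _).trans hN) N (by omega) le_rfl y hyN hyc (fun _ => 0) (fun _ => N) (fun _ => 0) (fun _ => N)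
    (fun _ => zf) (fun _ => c) (fun _ => c - zf) (fun _ => ⟨le_rfl, by omega, hzc, hcN, le_rfl, le_rfl⟩) (fun _ => hlo) (fun _ => False)
    (fun _ => Ioo zf N) (fun i => Or.inr (Or.inl ⟨rfl, fun i' hi => absurd hi (by
      rw [Subsingleton.elim i i']
      exact lt_irrefl _)⟩)) ((N : ℝ) ^ κ) hM8 le_rfl (fun _ => out39 μ s N y zf c) (fun _ ω x => out39_nonneg zf c ω x)
    (fun _ ω x => out39_le_one zf c ω x) (fun _ _ => ⟨NoMeet zf c, 1, fun _ => zf, fun _ => c, by exact_mod_cast hX1,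
      fun n _ => ⟨le_rfl, by show zf + (c - zf) ≤ c; omega, le_rfl⟩, fun S S' _ _ _ _ hag hm => ⟨0, one_pos, ?_⟩, fun ω x => ?_⟩)
    (fun _ hT => absurd hT fun h => h) F hFm hF0 hF1 (fun _ η η' A x hq => hFo η η' A x hq)
  · simp only [Finset.univ_unique, Finset.prod_singleton] at key
    simp only [PP_out13]
    refine key.trans (add_le_add le_rfl ?_)
    have e1 : Real.exp (-(N : ℝ) ^ c₂) ≤ Real.exp (-(8 * (N : ℝ) ^ (min κ c₂ / 2))) := Real.exp_le_exp.2 (by linarith)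
    have e2 : Real.exp (-(N : ℝ) ^ κ) ≤ Real.exp (-(8 * (N : ℝ) ^ (min κ c₂ / 2))) := Real.exp_le_exp.2 (by linarith)
    have e3 : Real.exp (-(8 * (N : ℝ) ^ (min κ c₂ / 2))) = Real.exp (-(N : ℝ) ^ (min κ c₂ / 2)) * Real.exp (-(7 * (N : ℝ) ^ (min κ c₂ / 2))) := by
      rw [← Real.exp_add]
      congr 1
      ring
    have e4 : Real.exp (-(7 * (N : ℝ) ^ (min κ c₂ / 2))) ≤ 1 / 3 := by
      have a1 : Real.exp (-(7 * (N : ℝ) ^ (min κ c₂ / 2))) ≤ Real.exp (-7) := Real.exp_le_exp.2 (by linarith)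
      have a3 : (8 : ℝ) ≤ Real.exp 7 := by
        have := Real.add_one_le_exp (7 : ℝ)
        linarith
      have a4 : Real.exp (-7) ≤ 1 / 8 := by
        rw [Real.exp_neg, one_div]
        exact inv_anti₀ (by norm_num) a3
      linarith
    have e5 := Real.exp_pos (-(N : ℝ) ^ (min κ c₂ / 2))
    have e6 := mul_le_mul_of_nonneg_left e4 e5.le
    push_cast
    linarith
  · exact gap_of_nm (by omega) (by omega) hag hm
  · have h1 : out39 μ s N y zf c ω x = mc μ s N y 0 N (NoMeet zf c) ω.1 x.1 := by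
      rw [out_eq39]
      exact Pool.Agent.W_7d29a1_C0.P86.mI_mc ω.1 x.2
    rw [h1]
    have h2 : 0 ≤ mc μ s N y 0 N (NoMeet zf c) ω.1 x.1 := mc_nonneg _ _
    have h3 : 1 ≤ Real.exp ((N : ℝ) ^ κ) := Real.one_le_exp (by linarith)
    nlinarith

/-! ### The total of the pairs -/

/-- **The pairs of the rows of `S`**, one end: the outer tie first, then the second moment of the sum of the row events. -/
theorem tot13 (h : In μ s c₀ C₀ n₀) : ∀ ε θ : ℝ, 0 < ε → 0 < θ → ∃ δ c₂ : ℝ, 0 < δ ∧ 0 < c₂ ∧ ∃ L₀ : ℕ, ∀ N : ℕ, L₀ ≤ N →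
    ∀ y : ℕ, y ≤ N → |(y : ℝ) - sl μ s * N| ≤ ((N : ℝ) ^ δ * wd' μ s N) → ∀ zf c : ℕ, zf ≤ c → c ≤ N →
    (N : ℝ) ^ θ ≤ ((c - zf : ℕ) : ℝ) → ∀ (S : Finset ℕ) (U : ℕ → Fam N), (∀ j ∈ S, ∀ A x, Measurable fun η => U j y (η, A) x) →
    (∀ j ∈ S, ∀ ω x, 0 ≤ U j y ω x) → (∀ j ∈ S, ∀ ω x, U j y ω x ≤ 1) →
    (∀ j ∈ S, ∀ (η η' : Env) A x, (∀ q : Pt, ¬ (0 ≤ q.1 ∧ q.1.toNat ∈ Ioo zf N) → η q = η' q) → U j y (η, A) x = U j y (η', A) x) →
    (∀ j ∈ S, ∀ x, Measurable fun ω => U j y ω x) →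
    ∑ j ∈ S, ∑ k ∈ S, pr2 μ s N (NN72 N zf c) (U j) (U k) y ≤
      ((N : ℝ) ^ ε * (EE' μ s (c - zf))⁻¹) * ∫ ω, gm (wm μ s N (Pn N y) ω) (fun x => (∑ j ∈ S, U j y ω x) ^ 2) ∂(Pm μ N) +
        (S.card : ℝ) ^ 2 * Real.exp (-(N : ℝ) ^ c₂) := by
  intro ε θ hε hθ
  obtain ⟨δ, c₂, hδ, hc₂, L₀, hP⟩ := out_first h ε θ hε hθ
  refine ⟨δ, c₂, hδ, hc₂, L₀, fun N hN y hyN hyc zf c hzc hcN hlo S U hUm hU0 hU1 hUo hUm' => ?_⟩
  have hne := ne_Pn (N := N) hyN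
  rcases S.eq_empty_or_nonempty with rfl | hS
  · simp only [sum_empty, card_empty]
    have h1 : ∫ ω, gm (wm μ s N (Pn N y) ω) (fun x : Px (Pn N y) => (0 : ℝ) ^ 2) ∂(Pm μ N) = 0 := by
      simp only [ne_eq, OfNat.ofNat_ne_zero, not_false_eq_true, zero_pow, gm_const, integral_zero]
    rw [h1]
    simp
  have hc : (0 : ℝ) < S.card := by exact_mod_cast hS.card_pos
  set F : Env × Finset ℕ → Px (Pn N y) → ℝ := fun ω x => ((S.card : ℝ) ^ 2)⁻¹ * (∑ j ∈ S, U j y ω x) ^ 2 with hF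
  have s0 : ∀ ω x, 0 ≤ ∑ j ∈ S, U j y ω x := fun ω x => sum_nonneg fun j hj => hU0 j hj ω x
  have s1 : ∀ ω x, ∑ j ∈ S, U j y ω x ≤ S.card := fun ω x => by
    refine (sum_le_sum fun j hj => hU1 j hj ω x).trans ?_
    rw [sum_const, nsmul_eq_mul, mul_one]
  have key := hP N hN y hyN hyc zf c hzc hcN hlo F (fun A x => (Measurable.pow_const (Finset.measurable_sum S fun j hj => hUm j hj A x) 2).const_mul _)
    (fun ω x => by positivity)
    (fun ω x => by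
      rw [hF]
      show ((S.card : ℝ) ^ 2)⁻¹ * (∑ j ∈ S, U j y ω x) ^ 2 ≤ 1
      rw [inv_mul_le_iff₀ (by positivity), mul_one]
      exact pow_le_pow_left₀ (s0 ω x) (s1 ω x) 2)
    (fun η η' A x hq => by
      rw [hF]
      show ((S.card : ℝ) ^ 2)⁻¹ * (∑ j ∈ S, U j y (η, A) x) ^ 2 = ((S.card : ℝ) ^ 2)⁻¹ * (∑ j ∈ S, U j y (η', A) x) ^ 2
      rw [sum_congr rfl fun j hj => hUo j hj η η' A x hq])
  have hint : ∀ j ∈ S, ∀ k ∈ S, Integrable (fun ω => PP (wm μ s N (Pn N y) ω) fun x z => NN72 N zf c y ω x z * (U j y ω x * U k y ω x)) (Pm μ N) :=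
    fun j hj k hk => by
    refine Pool.Agent.W_7d29a1_C0.Mod92.int_bdd (M := 1) (meas_PP45 meas_wm fun x z => measurable_const.mul ((hUm' j hj x).mul (hUm' k hk x))) fun ω =>
      Pool.W7d29a1.C0.C45.abs_PP_le45 _ (fun x z => mul_nonneg (NN72_nonneg zf c y ω x z) (mul_nonneg (hU0 j hj ω x) (hU0 k hk ω x)))
        fun x z => ?_
    have h1 : NN72 N zf c y ω x z ≤ 1 := NI_le_one _ _ _ _
    have h2 := mul_le_mul (hU1 j hj ω x) (hU1 k hk ω x) (hU0 k hk ω x) zero_le_one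
    calc NN72 N zf c y ω x z * (U j y ω x * U k y ω x) ≤ 1 * (1 * 1) :=
          mul_le_mul h1 h2 (mul_nonneg (hU0 j hj ω x) (hU0 k hk ω x)) zero_le_one
      _ = 1 := by norm_num
  have e1 : ∑ j ∈ S, ∑ k ∈ S, pr2 μ s N (NN72 N zf c) (U j) (U k) y =
      (S.card : ℝ) ^ 2 * ∫ ω, PP (wm μ s N (Pn N y) ω) (fun x z => NI zf c x z * F ω x) ∂(Pm μ N) := by
    have a1 : ∀ ω, PP (wm μ s N (Pn N y) ω) (fun x z => NI zf c x z * F ω x) =
        ((S.card : ℝ) ^ 2)⁻¹ * ∑ j ∈ S, ∑ k ∈ S, PP (wm μ s N (Pn N y) ω) (fun x z => NN72 N zf c y ω x z * (U j y ω x * U k y ω x)) := fun ω => by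
      have b1 : (fun x z : Px (Pn N y) => NI zf c x z * F ω x) = fun x z => ((S.card : ℝ) ^ 2)⁻¹ *
          ∑ j ∈ S, ∑ k ∈ S, NN72 N zf c y ω x z * (U j y ω x * U k y ω x) := by
        funext x z
        have c1 : (∑ j ∈ S, U j y ω x) ^ 2 = ∑ j ∈ S, ∑ k ∈ S, U j y ω x * U k y ω x := by
          rw [sq, sum_mul_sum]
        rw [hF]
        show NI zf c x z * (((S.card : ℝ) ^ 2)⁻¹ * (∑ j ∈ S, U j y ω x) ^ 2) = _
        rw [c1]
        have c2 : ∑ j ∈ S, ∑ k ∈ S, NN72 N zf c y ω x z * (U j y ω x * U k y ω x) =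
            NI zf c x z * ∑ j ∈ S, ∑ k ∈ S, U j y ω x * U k y ω x := by
          rw [mul_sum]
          refine sum_congr rfl fun j _ => ?_
          rw [mul_sum]
          rfl
        rw [c2]
        ring
      rw [b1, Pool.W7d29a1.C0.PP_smul]
      congr 1
      rw [Pool.W7d29a1.C0.Row39.PP_sum]
      exact sum_congr rfl fun j _ => Pool.W7d29a1.C0.Row39.PP_sum _ _ _
    simp only [a1]
    rw [integral_const_mul, ← mul_assoc, mul_inv_cancel₀ (by positivity), one_mul, integral_finsetSum _ fun j hj =>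
      integrable_finsetSum _ fun k hk => hint j hj k hk]
    refine sum_congr rfl fun j hj => ?_
    rw [integral_finsetSum _ fun k hk => hint j hj k hk]
    rfl
  have e2 : ∫ ω, gm (wm μ s N (Pn N y) ω) (F ω) ∂(Pm μ N) =
      ((S.card : ℝ) ^ 2)⁻¹ * ∫ ω, gm (wm μ s N (Pn N y) ω) (fun x => (∑ j ∈ S, U j y ω x) ^ 2) ∂(Pm μ N) := by
    rw [← integral_const_mul]
    congr 1
    funext ω
    exact Pool.Agent.W_7d29a1_C0.CutT57.gm_const_mul _ _ _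
  rw [e1]
  rw [e2] at key
  have h3 := mul_le_mul_of_nonneg_left key (by positivity : 0 ≤ (S.card : ℝ) ^ 2)
  refine h3.trans (le_of_eq ?_)
  field_simp

end Out

end

end Pool.Agent.W_7d29a1_C0.Rq13
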