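import Pool.Agent.W_7d29a1_C0.Rq13A
import Pool.Agent.W_7d29a1_C0.GSRow96
import Pool.Agent.W_7d29a1_C0.E2aD81

/-!
CURV0 (MP_7d29a1_pr), leaf E2a, the remainder, corner side, part C (helper13): THE ROWS OF A BLOCK against a spectator at the length `N`.
`sum13`: row events `U j` with values in `[0, 1]`, blind to the rows behind `zf`, whose sum has second moment at most `T0` for every end:
the sum of `∫ PP (U j x) |f x - f x'| NI zf c` is at most `√ (4 (N ^ ε / EE' (c - zf) * T0 + tiny)) √ (2 avy varF)`. `UM13`: the row event of the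
main part of the remainder; `iT_rows13`, `UM_blind13`: the rows of the environment which it sees.
-/

set_option autoImplicit false
set_option linter.unusedSectionVars false
set_option linter.unusedVariables false

namespace Pool.Agent.W_7d29a1_C0.Rq13

open MeasureTheory ProbabilityTheory Filter Topology Finset
open Pool.Agent.W_7d29a1_F Pool.Agent.W_7d29a1_X Pool.Agent.W_7d29a1_H
open Pool.Agent.W_7d29a1_HS (In)
open Pool.Agent.W_7d29a1_HZ (wd' EE')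
open Pool.Agent.W_7d29a1_C0 Pool.Agent.W_7d29a1_C0.Mod92
open Pool.Agent.W_7d29a1_C0.Swap57 (NI cE2 NI_nonneg SwQ)
open Pool.Agent.W_7d29a1_C0.CutT57 (NI_le_one)
open Pool.Agent.W_7d29a1_C0.MicE14 (rh rh_nonneg)
open Pool.Agent.W_7d29a1_C0.T72 (NN72 NN72_nonneg meas_PP72 abs_PP_bd72)
open Pool.Agent.W_7d29a1_C0.T93 (Fam2 pr2 rw2)
open Pool.Agent.W_7d29a1_C0.T0E90 (grpT90 int_rw90)
open Pool.Agent.W_7d29a1_C0.E2aC81 (iT iT_nonneg iT_le_one T2)
open Pool.Agent.W_7d29a1_C0.Row96 (Ag cE_rows)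
open Pool.Agent.W_7d29a1_C0.Base5 (pW)
open Pool.W7d29a1.C0 (gz gm gz_pos gm_nonneg gm_mono gm_const PP PP_mono PP_nonneg)
open Pool.W7d29a1.C0.VT31
open Pool.W7d29a1.C0.R43 (Tau)

noncomputable section

variable {μ : Measure ℝ} {s : ℝ} {N : ℕ}

/-! ### The rows which are seen -/

section Rows

variable {Q : Finset (Finset ℕ)} [SwQ Q] [Nonempty (Px Q)]

theorem iT_rows13 {c d : ℕ} {η η' : Env} (h : Ag c d η η') (i k i' k' : ℕ) (M : ℝ) (S : Px Q) :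
    iT (lw μ s η N Q) (pJ c d) i k i' k' M S = iT (lw μ s η' N Q) (pJ c d) i k i' k' M S := by
  have e : ∀ (K : Px Q → Px Q → ℝ), cE2 (lw μ s η N Q) (pJ c d) K S S = cE2 (lw μ s η' N Q) (pJ c d) K S S := fun K => by
    unfold cE2
    rw [cE_rows h]
    congr 1
    funext z
    rw [cE_rows h]
  unfold iT T2 Tau
  rw [e, e]

/-- The environments which agree off the rows behind `zf`. -/
theorem ag13 {zf c d : ℕ} (hd : d ≤ zf) {η η' : Env} (hq : ∀ q : Pt, ¬ (0 ≤ q.1 ∧ q.1.toNat ∈ Ioo zf N) → η q = η' q) : Ag c d η η' :=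
  fun q h1 h2 => hq q fun h => by
    have h3 := (mem_Ioo.1 h.2).1
    omega

end Rows

/-- The row event of the main part of the remainder: two replicas given the ends of the window of base `b` apart on one half of the window
of `b0`, and two replicas given what is behind `m` apart on one of the two sides. -/
def UM13 (μ : Measure ℝ) (s : ℝ) (N b0 b m : ℕ) (M : ℝ) (j : ℕ) : Fam N := fun y ω x =>
  iT (wm μ s N (Pn N y) ω) (pW b j) (j - b0) j j (j + b0) M x * iT (wm μ s N (Pn N y) ω) (pJ 0 m) (j - b) (j - b0) (j + b0) (j + b) M x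

theorem UM_nonneg13 (b0 b m : ℕ) (M : ℝ) (j y : ℕ) (ω : Env × Finset ℕ) (x : Px (Pn N y)) : 0 ≤ UM13 μ s N b0 b m M j y ω x := by
  have : Nonempty (Px (Pn N y)) := ⟨x⟩
  exact mul_nonneg (iT_nonneg _ _ _ _ _ _ _ _) (iT_nonneg _ _ _ _ _ _ _ _)

theorem UM_le_one13 (b0 b m : ℕ) (M : ℝ) (j y : ℕ) (ω : Env × Finset ℕ) (x : Px (Pn N y)) : UM13 μ s N b0 b m M j y ω x ≤ 1 := by
  have : Nonempty (Px (Pn N y)) := ⟨x⟩
  exact mul_le_one₀ (iT_le_one _ _ _ _ _ _ _ _) (iT_nonneg _ _ _ _ _ _ _ _) (iT_le_one _ _ _ _ _ _ _ _)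

theorem meas_iT13 {y : ℕ} {Y : Type*} [DecidableEq Y] (p : Px (Pn N y) → Y) (i k i' k' : ℕ) (M : ℝ) (x : Px (Pn N y)) :
    Measurable fun ω : Env × Finset ℕ => iT (wm μ s N (Pn N y) ω) p i k i' k' M x := by
  classical
  have : Nonempty (Px (Pn N y)) := ⟨x⟩
  have h1 : ∀ a b : ℕ, MeasurableSet {ω : Env × Finset ℕ | Tau (wm μ s N (Pn N y) ω) p a b M x} := fun a b =>
    measurableSet_le measurable_const (meas_cE (w := fun ω : Env × Finset ℕ => wm μ s N (Pn N y) ω) (fun S => meas_wm S)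
      (f := fun ω z => cE (wm μ s N (Pn N y) ω) p (NI a b z) x)
      (fun z => meas_cE (w := fun ω : Env × Finset ℕ => wm μ s N (Pn N y) ω) (fun S => meas_wm S)
        (f := fun _ => NI a b z) (fun _ => measurable_const) _ x) _ x)
  unfold iT T2
  exact Measurable.ite ((h1 i k).union (h1 i' k')) measurable_const measurable_const

theorem meas_UM13 (b0 b m : ℕ) (M : ℝ) (j y : ℕ) (x : Px (Pn N y)) : Measurable fun ω => UM13 μ s N b0 b m M j y ω x :=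
  (meas_iT13 _ _ _ _ _ _ x).mul (meas_iT13 _ _ _ _ _ _ x)

theorem UM_blind13 {b0 b m zf j : ℕ} (hj : j + b ≤ zf) (hm : m ≤ zf) (M : ℝ) (y : ℕ) {η η' : Env}
    (hq : ∀ q : Pt, ¬ (0 ≤ q.1 ∧ q.1.toNat ∈ Ioo zf N) → η q = η' q) (A : Finset ℕ) (x : Px (Pn N y)) :
    UM13 μ s N b0 b m M j y (η, A) x = UM13 μ s N b0 b m M j y (η', A) x := by
  have : Nonempty (Px (Pn N y)) := ⟨x⟩
  unfold UM13
  have e1 := iT_rows13 (μ := μ) (s := s) (N := N) (ag13 (N := N) hj hq : Ag (j - b) (j + b) η η') (j - b0) j j (j + b0) M x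
  have e2 := iT_rows13 (μ := μ) (s := s) (N := N) (ag13 (N := N) hm hq : Ag 0 m η η') (j - b) (j - b0) (j + b0) (j + b) M x
  show iT (lw μ s η N (Pn N y)) (pJ (j - b) (j + b)) (j - b0) j j (j + b0) M x * iT (lw μ s η N (Pn N y)) (pJ 0 m) _ _ _ _ M x =
    iT (lw μ s η' N (Pn N y)) (pJ (j - b) (j + b)) (j - b0) j j (j + b0) M x * iT (lw μ s η' N (Pn N y)) (pJ 0 m) _ _ _ _ M x
  rw [e1, e2]

/-! ### The rows of a block -/

section Sum

variable [IsProbabilityMeasure μ] {c₀ C₀ : ℝ} {n₀ : ℕ}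

/-- **THE ROWS OF A BLOCK AGAINST A SPECTATOR**, from the second moment of the sum of the row events. -/
theorem sum13 (h : In μ s c₀ C₀ n₀) : ∀ ε θ : ℝ, 0 < ε → 0 < θ → ∃ δ c₂ : ℝ, 0 < δ ∧ 0 < c₂ ∧ ∃ L₀ : ℕ, ∀ N : ℕ, L₀ ≤ N →
    ∀ ys : Finset ℕ, (∀ y ∈ ys, y ≤ N ∧ |(y : ℝ) - sl μ s * N| ≤ ((N : ℝ) ^ δ * wd' μ s N)) → ∀ zf c : ℕ, zf ≤ c → c ≤ N →
    (N : ℝ) ^ θ ≤ ((c - zf : ℕ) : ℝ) → ∀ (S : Finset ℕ) (U : ℕ → Fam N) (f : Fam N) (D : ℝ),
    (∀ j y x, Measurable fun ω => U j y ω x) → (∀ j y ω x, 0 ≤ U j y ω x) → (∀ j y ω x, U j y ω x ≤ 1) →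
    (∀ j ∈ S, ∀ y, ∀ (η η' : Env) A x, (∀ q : Pt, ¬ (0 ≤ q.1 ∧ q.1.toNat ∈ Ioo zf N) → η q = η' q) → U j y (η, A) x = U j y (η', A) x) →
    (∀ y x, Measurable fun ω => f y ω x) → (∀ y ω x, |f y ω x| ≤ D) → ∀ T0 : ℝ, 0 ≤ T0 →
    (∀ y ∈ ys, ∫ ω, gm (wm μ s N (Pn N y) ω) (fun x => (∑ j ∈ S, U j y ω x) ^ 2) ∂(Pm μ N) ≤ T0) →
    ∑ j ∈ S, avy ys (fun y => ∫ ω, PP (wm μ s N (Pn N y) ω) (fun x x' => U j y ω x * rh zf c (f y ω) x x') ∂(Pm μ N)) ≤
      √(4 * ((N : ℝ) ^ ε * (EE' μ s (c - zf))⁻¹ * T0 + (S.card : ℝ) ^ 2 * Real.exp (-(N : ℝ) ^ c₂))) * √(2 * avy ys (varF μ s N f)) := by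
  intro ε θ hε hθ
  obtain ⟨δ, c₂, hδ, hc₂, L₀, hP⟩ := tot13 h ε θ hε hθ
  refine ⟨δ, c₂, hδ, hc₂, L₀, fun N hN ys hys zf c hzc hcN hlo S U f D mU U0 U1 hUo mf bf T0 hT0 hT => ?_⟩
  have hE : 0 ≤ (N : ℝ) ^ ε * (EE' μ s (c - zf))⁻¹ :=
    mul_nonneg (Real.rpow_nonneg (Nat.cast_nonneg _) _) (inv_nonneg.2 (zero_le_one.trans (le_max_left _ _)))
  have key := grpT90 (μ := μ) (s := s) (N := N) (ys := ys) (S := S) (fun y hy => (hys y hy).1) (zt := zf) (c := c) (U := U) (f := f) U0 U1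
    mU mf bf (T := (N : ℝ) ^ ε * (EE' μ s (c - zf))⁻¹ * T0 + (S.card : ℝ) ^ 2 * Real.exp (-(N : ℝ) ^ c₂)) (by
      have e1 : ∑ j ∈ S, ∑ k ∈ S, avy ys (pr2 μ s N (NN72 N zf c) (U j) (U k)) =
          avy ys fun y => ∑ j ∈ S, ∑ k ∈ S, pr2 μ s N (NN72 N zf c) (U j) (U k) y := by
        rw [avy_sum]
        refine sum_congr rfl fun j _ => ?_
        rw [avy_sum]
      rw [e1]
      refine (avy_mono fun y hy => ?_).trans (Pool.Agent.W_7d29a1_C0.Far34.avy_const_le (ys := ys) (by positivity))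
      have h1 := hP N hN y (hys y hy).1 (hys y hy).2 zf c hzc hcN hlo S U (fun j _ A x => (mU j y x).comp measurable_prodMk_right)
        (fun j _ ω x => U0 j y ω x) (fun j _ ω x => U1 j y ω x) (fun j hj η η' A x hq => hUo j hj y η η' A x hq) (fun j _ x => mU j y x)
      exact h1.trans (add_le_add (mul_le_mul_of_nonneg_left (hT y hy) hE) le_rfl))
  refine le_trans (sum_le_sum fun j hj => avy_mono fun y hy => ?_) key
  have := ne_Pn (hys y hy).1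
  have D0 : 0 ≤ D := (abs_nonneg _).trans (bf y (fun _ => 0, ∅) (Classical.arbitrary _))
  unfold rw2
  refine integral_mono (int_bdd (M := 2 * D) (meas_PP72 fun x x' => (mU j y x).mul (((mf y x).sub (mf y x')).abs.mul_const _)) fun ω =>
    abs_PP_bd72 _ fun x x' => ?_) (int_rw90 (hys y hy).1 zf c (U0 j y) (U1 j y) (mU j y) (mf y) (bf y)) fun ω => PP_mono _ fun x x' => ?_
  · have h1 := E2aD81.rh_le81 (m0 := zf) (m1 := c) (fun S => bf y ω S) x x'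
    have h2 := rh_nonneg (z := zf) (c := c) (f y ω) x x'
    show |U j y ω x * rh zf c (f y ω) x x'| ≤ 2 * D
    rw [abs_of_nonneg (mul_nonneg (U0 j y ω x) h2)]
    calc U j y ω x * rh zf c (f y ω) x x' ≤ 1 * rh zf c (f y ω) x x' := mul_le_mul_of_nonneg_right (U1 j y ω x) h2
      _ ≤ 2 * D := by rw [one_mul]; exact h1
  · have h2 := rh_nonneg (z := zf) (c := c) (f y ω) x x'
    have h3 : NN72 N zf c y ω x x' * (U j y ω x + U j y ω x') * |f y ω x - f y ω x'| =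
        U j y ω x * rh zf c (f y ω) x x' + U j y ω x' * rh zf c (f y ω) x x' := by
      unfold rh NN72
      ring
    rw [h3]
    exact le_add_of_nonneg_right (mul_nonneg (U0 j y ω x') h2)

end Sum

end

end Pool.Agent.W_7d29a1_C0.Rq13
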