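import Pool.Agent.W_7d29a1_C0.Rq13B
import Pool.Agent.W_7d29a1_C0.Rq13C
import Pool.Agent.W_7d29a1_C0.OkE15C

/-!
CURV0 (MP_7d29a1_pr), leaf E2a, the remainder, corner side, part D (helper13): THE LEVELS OF THE REMAINDER, ROW BY ROW. `UL13`: the row event
`one margin is not told given (0, z)` times the own event (a piece of one side) given `(0, m)`; it is measurable, blind to the rows behind `z`
and `m`. `lb2_13`: for a good environment the levels `jA7` (any inner factor with values in `[0, 1]`) times the own event of either side,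
against the four row events (two margins, two sides).
-/

set_option autoImplicit false
set_option linter.unusedSectionVars false
set_option linter.unusedVariables false

namespace Pool.Agent.W_7d29a1_C0.Rq13

open MeasureTheory ProbabilityTheory Filter Topology Finset
open Pool.Agent.W_7d29a1_F Pool.Agent.W_7d29a1_X Pool.Agent.W_7d29a1_H
open Pool.Agent.W_7d29a1_HS (In)
open Pool.Agent.W_7d29a1_HZ (wd' EE')
open Pool.Agent.W_7d29a1_C0 Pool.Agent.W_7d29a1_C0.Mod92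
open Pool.Agent.W_7d29a1_C0.Swap57 (NI cE2 NI_nonneg SwQ)
open Pool.Agent.W_7d29a1_C0.MicE14 (rh rh_nonneg)
open Pool.Agent.W_7d29a1_C0.NM82 (Rk)
open Pool.Agent.W_7d29a1_C0.T72 (meas_PP72 abs_PP_bd72 ind72)
open Pool.Agent.W_7d29a1_C0.E2S39 (i0 i1)
open Pool.Agent.W_7d29a1_C0.E2aC81 (iT iT_nonneg iT_le_one T2)
open Pool.Agent.W_7d29a1_C0.GwA50 (GwW)
open Pool.Agent.W_7d29a1_C0.Row96 (Ag cE_rows)
open Pool.W7d29a1.C0 (gz gm gz_pos gm_nonneg gm_mono gm_const PP PP_mono PP_nonneg PP_add PP_smul)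
open Pool.W7d29a1.C0.VT31
open Pool.W7d29a1.C0.R43 (Tau Rp bI mI swP_pJ tau_rp)
open Pool.W7d29a1.C0.O1 (T4 okE Gz Kap ind ind_nonneg en)
open Pool.W7d29a1.C0.Bd73 (nCn nCn_nonneg)
open Pool.W7d29a1.C0.H7 (jA7 jA7_01 meas_jA7)
open Pool.Agent.W_7d29a1_C0.P15 (meas_okE meas_sec)

noncomputable section

variable {μ : Measure ℝ} {s : ℝ} {N : ℕ}

/-! ### The row event -/

/-- One margin is not told given what is behind `z`, and the own event given what is behind `m`: an alternative in one of the pieces. -/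
def UL13 (μ : Measure ℝ) (s : ℝ) (N z q : ℕ) (dd e1 d3 : ℝ) (g0 g1 t1 l1 t2 l2 m τ l qo : ℕ) (M : ℝ) : Fam N := fun y ω x =>
  ind72 (fun ω x => ¬ okE (wm μ s N (Pn N y) ω) (pJ 0 z) (fun _ => False) q dd e1 d3 g0 g1 t1 l1 t2 l2 x) ω x *
    ind72 (fun ω => Rp (wm μ s N (Pn N y) ω) (pJ 0 m) τ l qo M) ω x

/-- The first margin of the regions `r`. -/
def UA13 (μ : Measure ℝ) (s : ℝ) (N : ℕ) (r : Rg13) (m τ l qo : ℕ) (M : ℝ) : Fam N :=
  UL13 μ s N r.z r.q r.d r.e1 r.d3 r.g0 r.g1 r.a1 r.m1 r.a2 r.m2 m τ l qo M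

/-- The second margin of the regions `r`. -/
def UB13 (μ : Measure ℝ) (s : ℝ) (N : ℕ) (r : Rg13) (m τ l qo : ℕ) (M : ℝ) : Fam N :=
  UL13 μ s N r.z r.q r.d r.e1 r.d3 r.g0 r.g1 r.b1 r.n1 r.b2 r.n2 m τ l qo M

section Fam

variable {z q g0 g1 t1 l1 t2 l2 m τ l qo : ℕ} {dd e1 d3 M : ℝ}

theorem UL_nonneg13 (y : ℕ) (ω : Env × Finset ℕ) (x : Px (Pn N y)) : 0 ≤ UL13 μ s N z q dd e1 d3 g0 g1 t1 l1 t2 l2 m τ l qo M y ω x :=
  mul_nonneg (i0 _ _ _) (i0 _ _ _)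

theorem UL_le_one13 (y : ℕ) (ω : Env × Finset ℕ) (x : Px (Pn N y)) : UL13 μ s N z q dd e1 d3 g0 g1 t1 l1 t2 l2 m τ l qo M y ω x ≤ 1 :=
  mul_le_one₀ (i1 _ _ _) (i0 _ _ _) (i1 _ _ _)

theorem meas_UL13 (y : ℕ) (x : Px (Pn N y)) : Measurable fun ω => UL13 μ s N z q dd e1 d3 g0 g1 t1 l1 t2 l2 m τ l qo M y ω x := by
  classical
  have : Nonempty (Px (Pn N y)) := ⟨x⟩
  refine Measurable.mul (meas_sec fun A => ?_) ?_
  · unfold ind72
    refine Measurable.ite ?_ measurable_const measurable_const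
    exact (meas_okE (μ := μ) (s := s) (N := N) 0 z (Bo := fun _ _ => False) (fun A x => by
      show MeasurableSet {η : Env | False}
      exact MeasurableSet.const False) q dd e1 d3 g0 g1 t1 l1 t2 l2 A x).compl
  · unfold ind72
    refine Measurable.ite ?_ measurable_const measurable_const
    have e1' : {ω : Env × Finset ℕ | Rp (wm μ s N (Pn N y) ω) (pJ 0 m) τ l qo M x} =
        ⋃ n ∈ range (3 * qo), {ω : Env × Finset ℕ | Real.exp (-(7 * M)) < mI (wm μ s N (Pn N y) ω) (pJ 0 m)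
          (Pool.W7d29a1.C0.R43.st τ l n) (Pool.W7d29a1.C0.R43.st τ l n + l) x} := by
      ext ω
      simp only [Set.mem_ofPred_eq, Set.mem_iUnion, mem_range, exists_prop]
      rfl
    rw [e1']
    refine Finset.measurableSet_biUnion _ fun n _ => measurableSet_lt measurable_const ?_
    exact meas_cE (w := fun ω : Env × Finset ℕ => wm μ s N (Pn N y) ω) (fun S => meas_wm S) (f := fun _ => NI _ _ x)
      (fun _ => measurable_const) _ x

end Fam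

section Rows

variable {Q : Finset (Finset ℕ)} [SwQ Q] [Nonempty (Px Q)]

theorem okE_rows13 {c d : ℕ} {η η' : Env} (h : Ag c d η η') (Bo : Px Q → Prop) (q : ℕ) (dd e1 d3 : ℝ) (g0 g1 τ1 l1 τ2 l2 : ℕ) (x : Px Q) :
    okE (lw μ s η N Q) (pJ c d) Bo q dd e1 d3 g0 g1 τ1 l1 τ2 l2 x ↔ okE (lw μ s η' N Q) (pJ c d) Bo q dd e1 d3 g0 g1 τ1 l1 τ2 l2 x := by
  have e : ∀ f : Px Q → ℝ, cE (lw μ s η N Q) (pJ c d) f = cE (lw μ s η' N Q) (pJ c d) f := fun f => cE_rows h f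
  unfold okE bI Gz mI cE2
  simp only [e]

theorem rp_rows13 {c d : ℕ} {η η' : Env} (h : Ag c d η η') (τ l q : ℕ) (M : ℝ) (x : Px Q) :
    Rp (lw μ s η N Q) (pJ c d) τ l q M x ↔ Rp (lw μ s η' N Q) (pJ c d) τ l q M x := by
  have e : ∀ f : Px Q → ℝ, cE (lw μ s η N Q) (pJ c d) f = cE (lw μ s η' N Q) (pJ c d) f := fun f => cE_rows h f
  unfold Rp mI
  simp only [e]

end Rows

theorem ind_iff13 {Q : Finset (Finset ℕ)} {T T' : Env × Finset ℕ → Px Q → Prop} {ω ω' : Env × Finset ℕ} {x : Px Q}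
    (h : T ω x ↔ T' ω' x) : ind72 T ω x = ind72 T' ω' x := by
  unfold ind72
  by_cases h1 : T ω x
  · rw [if_pos h1, if_pos (h.1 h1)]
  · rw [if_neg h1, if_neg fun h2 => h1 (h.2 h2)]

theorem UL_blind13 {z q g0 g1 t1 l1 t2 l2 m τ l qo zf : ℕ} {dd e1 d3 M : ℝ} (hz : z ≤ zf) (hm : m ≤ zf) (y : ℕ) {η η' : Env}
    (hq : ∀ q : Pt, ¬ (0 ≤ q.1 ∧ q.1.toNat ∈ Ioo zf N) → η q = η' q) (A : Finset ℕ) (x : Px (Pn N y)) :
    UL13 μ s N z q dd e1 d3 g0 g1 t1 l1 t2 l2 m τ l qo M y (η, A) x = UL13 μ s N z q dd e1 d3 g0 g1 t1 l1 t2 l2 m τ l qo M y (η', A) x := by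
  have : Nonempty (Px (Pn N y)) := ⟨x⟩
  unfold UL13
  congr 1
  · exact ind_iff13 (not_congr (okE_rows13 (ag13 (N := N) hz hq) _ _ _ _ _ _ _ _ _ _ _ x))
  · exact ind_iff13 (rp_rows13 (ag13 (N := N) hm hq) _ _ _ _ x)

/-! ### One environment -/

section Pt

variable {y : ℕ} [Nonempty (Px (Pn N y))] {κ δk δ₁ ε c' B D ϑ M : ℝ} {b0 b j m m0 m1 : ℕ}

theorem tau_sub13 {Q : Finset (Finset ℕ)} [Nonempty (Px Q)] {w : Px Q → ℝ} {p : Px Q → Finset ℕ × ℕ} {i k i' k' : ℕ} {M : ℝ} {S : Px Q}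
    (h : Tau w p i k M S) (h1 : i ≤ i') (h2 : k' ≤ k) : Tau w p i' k' M S :=
  le_trans h (Pool.Agent.W_7d29a1_C0.Swap57.cE2_mono w p (fun z z' => Pool.W7d29a1.C0.O1.NI_sub h1 h2 z z') S S)

open Classical in
/-- Off the pieces the own event has small mass. -/
theorem own_rp13 (ω : Env × Finset ℕ) (m : ℕ) {i k τ l q : ℕ} (hM : 8 ≤ M) (hq : 10 * M ≤ q) (hq' : (q : ℝ) ≤ 20 * M) (h1 : i ≤ τ)
    (h2 : τ + 3 * q * (l + 1) ≤ k) :
    gm (wm μ s N (Pn N y) ω) (fun S => if Tau (wm μ s N (Pn N y) ω) (pJ 0 m) i k M S ∧ ¬ Rp (wm μ s N (Pn N y) ω) (pJ 0 m) τ l q M S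
      then 1 else 0) ≤ Real.exp (-M) := by
  refine le_trans (gm_mono _ fun S => ?_) (tau_rp (μ := μ) (s := s) (N := N) (Q := Pn N y) ω.1 (swP_pJ (Nat.zero_le m)) τ l q hM hq hq' h2)
  by_cases h : Tau (wm μ s N (Pn N y) ω) (pJ 0 m) i k M S ∧ ¬ Rp (wm μ s N (Pn N y) ω) (pJ 0 m) τ l q M S
  · rw [if_pos h, if_pos ⟨tau_sub13 h.1 h1 le_rfl, h.2⟩]
  · rw [if_neg h]
    split_ifs <;> norm_num

open Classical in
/-- **THE LEVELS TIMES THE OWN EVENT**, one good environment: four row events. -/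
theorem lb2_13 {ω : Env × Finset ℕ} (hη : GwW μ s N κ δk δ₁ ε c' ω.1) (hj : j + b0 ≤ N)
    (h1 : (N : ℝ) ^ κ ≤ ((j - (j - b0) : ℕ) : ℝ)) (h2 : (N : ℝ) ^ κ ≤ b0) (hB : 0 ≤ B) {r : Rg13} (hz : j + b0 ≤ r.z) (ho : r.Ok b0 j)
    {dl m' : ℝ} (hdl : 0 < dl) {V : Px (Pn N y) → ℝ} (hV0 : ∀ x, 0 ≤ V x) (hV1 : ∀ x, V x ≤ 1) (hzm : r.z ≤ m) (hm0 : m ≤ m0)
    (hm : m0 ≤ m1) {F : Px (Pn N y) → ℝ} (hF : Rk m1 F) (hFD : ∀ S, |F S| ≤ D)
    (hϑ : gm (lw μ s ω.1 N (Pn N y)) (nCn μ s δ₁ (j - b0) (j + b0)) ≤ ϑ) (hM : 8 ≤ M) {qo : ℕ} (hq : 10 * M ≤ qo)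
    (hq' : (qo : ℝ) ≤ 20 * M) {τL τR lo : ℕ} (hL1 : j - b ≤ τL) (hL2 : τL + 3 * qo * (lo + 1) ≤ j - b0) (hR1 : j + b0 ≤ τR)
    (hR2 : τR + 3 * qo * (lo + 1) ≤ j + b) :
    PP (wm μ s N (Pn N y) ω) (fun x x' => jA7 μ s N (Pn N y) δk B b0 j r.z dl m' V ω.1 (sg ω.2 j) x *
      (iT (wm μ s N (Pn N y) ω) (pJ 0 m) (j - b) (j - b0) (j + b0) (j + b) M x * rh m0 m1 F x x')) ≤
      PP (wm μ s N (Pn N y) ω) (fun x x' => UA13 μ s N r m τL lo qo M y ω x * rh m0 m1 F x x') +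
        PP (wm μ s N (Pn N y) ω) (fun x x' => UB13 μ s N r m τL lo qo M y ω x * rh m0 m1 F x x') +
        (PP (wm μ s N (Pn N y) ω) (fun x x' => UA13 μ s N r m τR lo qo M y ω x * rh m0 m1 F x x') +
        PP (wm μ s N (Pn N y) ω) (fun x x' => UB13 μ s N r m τR lo qo M y ω x * rh m0 m1 F x x')) +
        2 * D * (Real.exp m' * Kap 0 (Real.exp ((N : ℝ) ^ ε)) dl r.q r.d r.e1 r.d3 +
          Real.exp m' * (6 / dl) * (Real.exp (-(N : ℝ) ^ c') + B * ϑ) + 2 * Real.exp (-M)) := by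
  have hD0 : 0 ≤ D := (abs_nonneg _).trans (hFD (Classical.arbitrary _))
  set w := wm μ s N (Pn N y) ω with hw
  have R0 : ∀ x x' : Px (Pn N y), 0 ≤ rh m0 m1 F x x' := fun x x' => rh_nonneg F x x'
  have R1 : ∀ x x' : Px (Pn N y), rh m0 m1 F x x' ≤ 2 * D := fun x x' => E2aD81.rh_le81 hFD x x'
  have t0 : ∀ x : Px (Pn N y), 0 ≤ iT w (pJ 0 m) (j - b) (j - b0) (j + b0) (j + b) M x := fun x => iT_nonneg _ _ _ _ _ _ _ _
  have t1 : ∀ x : Px (Pn N y), iT w (pJ 0 m) (j - b) (j - b0) (j + b0) (j + b) M x ≤ 1 := fun x => iT_le_one _ _ _ _ _ _ _ _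
  have key := lb_pt13 (μ := μ) (s := s) (N := N) (y := y) (κ := κ) (δk := δk) (δ₁ := δ₁) (ε := ε) (c' := c') (B := B) (F0 := 2 * D) (ϑ := ϑ)
    (b0 := b0) (j := j) (ω := ω) hη hj h1 h2 hB hz ho hdl (m' := m') (V := V) hV0 hV1
    (H := fun x x' => iT w (pJ 0 m) (j - b) (j - b0) (j + b0) (j + b) M x * rh m0 m1 F x x')
    (fun x' S S' hSS => by
      have a1 : pJ (Q := Pn N y) 0 m S = pJ 0 m S' := crs_pJ (Q := Pn N y) le_rfl hzm S S' hSS
      have a2 := E2aC81.iT_Mp w (pJ (Q := Pn N y) 0 m) (j - b) (j - b0) (j + b0) (j + b) M S S' a1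
      have a3 := Pool.W7d29a1.C0.C45.rh_mp45 (c1 := 0) (z := r.z) (hzm.trans hm0) hm hF x' S S' hSS
      show _ * _ = _ * _
      rw [a2]
      congr 1)
    (fun x x' => mul_nonneg (t0 x) (R0 x x')) (fun x x' => (mul_le_of_le_one_left (R0 x x') (t1 x)).trans (R1 x x')) hϑ
  -- the pieces
  obtain ⟨eL, heL⟩ : ∃ e : Px (Pn N y) → ℝ, e = fun S => if Tau w (pJ 0 m) (j - b) (j - b0) M S ∧ ¬ Rp w (pJ 0 m) τL lo qo M S then 1 else 0 :=
    ⟨_, rfl⟩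
  obtain ⟨eR, heR⟩ : ∃ e : Px (Pn N y) → ℝ, e = fun S => if Tau w (pJ 0 m) (j + b0) (j + b) M S ∧ ¬ Rp w (pJ 0 m) τR lo qo M S then 1 else 0 :=
    ⟨_, rfl⟩
  have gL : gm w eL ≤ Real.exp (-M) := by
    rw [heL]
    exact own_rp13 ω m hM hq hq' hL1 hL2
  have gR : gm w eR ≤ Real.exp (-M) := by
    rw [heR]
    exact own_rp13 ω m hM hq hq' hR1 hR2
  have eL0 : ∀ x, 0 ≤ eL x := fun x => by
    rw [heL]
    show (0 : ℝ) ≤ if _ then 1 else 0
    split_ifs <;> norm_num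
  have eR0 : ∀ x, 0 ≤ eR x := fun x => by
    rw [heR]
    show (0 : ℝ) ≤ if _ then 1 else 0
    split_ifs <;> norm_num
  obtain ⟨pL, hpL⟩ : ∃ e : Px (Pn N y) → ℝ, e = ind72 (fun ω => Rp (wm μ s N (Pn N y) ω) (pJ 0 m) τL lo qo M) ω := ⟨_, rfl⟩
  obtain ⟨pR, hpR⟩ : ∃ e : Px (Pn N y) → ℝ, e = ind72 (fun ω => Rp (wm μ s N (Pn N y) ω) (pJ 0 m) τR lo qo M) ω := ⟨_, rfl⟩
  obtain ⟨nA, hnA⟩ : ∃ e : Px (Pn N y) → ℝ, e = ind72 (fun ω x => ¬ okE (wm μ s N (Pn N y) ω) (pJ 0 r.z) (fun _ => False) r.q r.d r.e1 r.d3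
    r.g0 r.g1 r.a1 r.m1 r.a2 r.m2 x) ω := ⟨_, rfl⟩
  obtain ⟨nB, hnB⟩ : ∃ e : Px (Pn N y) → ℝ, e = ind72 (fun ω x => ¬ okE (wm μ s N (Pn N y) ω) (pJ 0 r.z) (fun _ => False) r.q r.d r.e1 r.d3
    r.g0 r.g1 r.b1 r.n1 r.b2 r.n2 x) ω := ⟨_, rfl⟩
  have pL0 : ∀ x, 0 ≤ pL x := fun x => by rw [hpL]; exact i0 _ _ _
  have pR0 : ∀ x, 0 ≤ pR x := fun x => by rw [hpR]; exact i0 _ _ _
  have nA0 : ∀ x, 0 ≤ nA x := fun x => by rw [hnA]; exact i0 _ _ _
  have nB0 : ∀ x, 0 ≤ nB x := fun x => by rw [hnB]; exact i0 _ _ _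
  have hown : ∀ x, iT w (pJ 0 m) (j - b) (j - b0) (j + b0) (j + b) M x ≤ pL x + pR x + (eL x + eR x) := fun x => by
    have a1 := pL0 x
    have a2 := pR0 x
    have a3 := eL0 x
    have a4 := eR0 x
    by_cases h : T2 w (pJ 0 m) (j - b) (j - b0) (j + b0) (j + b) M x
    · have e1 : iT w (pJ 0 m) (j - b) (j - b0) (j + b0) (j + b) M x = 1 := if_pos h
      rw [e1]
      rcases h with h | h
      · by_cases h' : Rp w (pJ 0 m) τL lo qo M x
        · have e2 : pL x = 1 := by rw [hpL]; exact if_pos h'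
          linarith
        · have e2 : eL x = 1 := by rw [heL]; exact if_pos ⟨h, h'⟩
          linarith
      · by_cases h' : Rp w (pJ 0 m) τR lo qo M x
        · have e2 : pR x = 1 := by rw [hpR]; exact if_pos h'
          linarith
        · have e2 : eR x = 1 := by rw [heR]; exact if_pos ⟨h, h'⟩
          linarith
    · have e1 : iT w (pJ 0 m) (j - b) (j - b0) (j + b0) (j + b) M x = 0 := if_neg h
      rw [e1]
      linarith
  have hnE : ∀ x, ind (nE13 w r) x ≤ nA x + nB x := fun x => by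
    have a1 := nA0 x
    have a2 := nB0 x
    by_cases h : nE13 w r x
    · have e1 : ind (nE13 w r) x = 1 := if_pos h
      rw [e1]
      rcases h with h | h
      · have e2 : nA x = 1 := by rw [hnA]; exact if_pos h
        linarith
      · have e2 : nB x = 1 := by rw [hnB]; exact if_pos h
        linarith
    · have e1 : ind (nE13 w r) x = 0 := if_neg h
      rw [e1]
      linarith
  have hpt : ∀ x x' : Px (Pn N y), ind (nE13 w r) x * (iT w (pJ 0 m) (j - b) (j - b0) (j + b0) (j + b) M x * rh m0 m1 F x x') ≤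
      nA x * pL x * rh m0 m1 F x x' + nB x * pL x * rh m0 m1 F x x' + (nA x * pR x * rh m0 m1 F x x' + nB x * pR x * rh m0 m1 F x x') +
        (eL x * rh m0 m1 F x x' + eR x * rh m0 m1 F x x') := fun x x' => by
    have a0 : 0 ≤ ind (nE13 w r) x := ind_nonneg _ _
    have a1 : ind (nE13 w r) x ≤ 1 := by
      unfold ind
      split_ifs <;> norm_num
    have b1 : ind (nE13 w r) x * iT w (pJ 0 m) (j - b) (j - b0) (j + b0) (j + b) M x ≤
        (nA x + nB x) * (pL x + pR x) + (eL x + eR x) := by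
      have c1 := mul_le_mul_of_nonneg_left (hown x) a0
      have c2 := mul_le_mul_of_nonneg_right (hnE x) (add_nonneg (pL0 x) (pR0 x))
      have c3 := mul_le_mul_of_nonneg_right a1 (add_nonneg (eL0 x) (eR0 x))
      rw [mul_add] at c1
      linarith
    have b2 := mul_le_mul_of_nonneg_right b1 (R0 x x')
    calc _ = ind (nE13 w r) x * iT w (pJ 0 m) (j - b) (j - b0) (j + b0) (j + b) M x * rh m0 m1 F x x' := by ring
      _ ≤ ((nA x + nB x) * (pL x + pR x) + (eL x + eR x)) * rh m0 m1 F x x' := b2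
      _ = _ := by ring
  have hPP := PP_mono w hpt
  rw [PP_add, PP_add, PP_add, PP_add, PP_add] at hPP
  have kL := MicT14.PP_le_const w R1 eL eL0
  have kR := MicT14.PP_le_const w R1 eR eR0
  have kL' := mul_le_mul_of_nonneg_left gL (by linarith : 0 ≤ 2 * D)
  have kR' := mul_le_mul_of_nonneg_left gR (by linarith : 0 ≤ 2 * D)
  have q1 : (fun x x' => UA13 μ s N r m τL lo qo M y ω x * rh m0 m1 F x x') = fun x x' => nA x * pL x * rh m0 m1 F x x' := by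
    rw [hnA, hpL]
    rfl
  have q2 : (fun x x' => UB13 μ s N r m τL lo qo M y ω x * rh m0 m1 F x x') = fun x x' => nB x * pL x * rh m0 m1 F x x' := by
    rw [hnB, hpL]
    rfl
  have q3 : (fun x x' => UA13 μ s N r m τR lo qo M y ω x * rh m0 m1 F x x') = fun x x' => nA x * pR x * rh m0 m1 F x x' := by
    rw [hnA, hpR]
    rfl
  have q4 : (fun x x' => UB13 μ s N r m τR lo qo M y ω x * rh m0 m1 F x x') = fun x x' => nB x * pR x * rh m0 m1 F x x' := by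
    rw [hnB, hpR]
    rfl
  rw [q1, q2, q3, q4]
  linarith

end Pt

end

end Pool.Agent.W_7d29a1_C0.Rq13
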