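import Pool.Agent.W_7d29a1_C0.Rq13D

/-!
CURV0 (MP_7d29a1_pr), leaf E2a, the remainder, corner side, part E (helper13): THE LEVELS OF THE REMAINDER IN THE MEAN. `ev13`: the numbers;
`lb13`: the levels `jA7` times the own event of either side in the mean over the environment, against the four row events of `Rq13D`, up to
`D * exp (- N ^ c')`.
-/

set_option autoImplicit false
set_option linter.unusedSectionVars false
set_option linter.unusedVariables false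

namespace Pool.Agent.W_7d29a1_C0.Rq13

open MeasureTheory ProbabilityTheory Filter Topology Finset
open Pool.Agent.W_7d29a1_F Pool.Agent.W_7d29a1_X Pool.Agent.W_7d29a1_H
open Pool.Agent.W_7d29a1_HS (In)
open Pool.Agent.W_7d29a1_HZ (wd' EE')
open Pool.Agent.W_7d29a1_C0 Pool.Agent.W_7d29a1_C0.Mod92
open Pool.Agent.W_7d29a1_C0.Swap57 (NI cE2 NI_nonneg SwQ)
open Pool.Agent.W_7d29a1_C0.MicE14 (rh rh_nonneg)
open Pool.Agent.W_7d29a1_C0.T72 (meas_PP72 abs_PP_bd72 ind72)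
open Pool.Agent.W_7d29a1_C0.E2aC81 (iT iT_nonneg iT_le_one T2)
open Pool.Agent.W_7d29a1_C0.GwA50 (GwW)
open Pool.W7d29a1.C0 (gz gm gz_pos gm_nonneg gm_mono gm_const PP PP_mono PP_nonneg PP_add PP_smul)
open Pool.W7d29a1.C0.VT31
open Pool.W7d29a1.C0.R43 (Tau Rp)
open Pool.W7d29a1.C0.O1 (okE Kap)
open Pool.W7d29a1.C0.Bd73 (nCn nCn_nonneg)
open Pool.W7d29a1.C0.H7 (jA7 jA7_01 meas_jA7)

noncomputable section

/-! ### The numbers -/

theorem half_pow13 (q : ℕ) : ((1 : ℝ) / 2) ^ q ≤ Real.exp (-(q / 2)) := by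
  have h1 : (1 : ℝ) / 2 ≤ Real.exp (-(1 / 2)) := by
    have := Real.add_one_le_exp (-(1 / 2 : ℝ))
    linarith
  calc ((1 : ℝ) / 2) ^ q ≤ Real.exp (-(1 / 2)) ^ q := pow_le_pow_left₀ (by norm_num) h1 q
    _ = Real.exp (-(q / 2)) := by
        rw [← Real.exp_nat_mul]
        congr 1
        ring

theorem ev13 {κ₁ c1 a₁ aM c2 : ℝ} (hκ₁ : 0 < κ₁) (hc1 : 0 < c1) (ha₁ : 0 < a₁) (haM : 0 < aM) (hc2 : 0 < c2) : ∃ c' : ℝ, 0 < c' ∧
    ∃ N₀ : ℕ, ∀ N : ℕ, N₀ ≤ N → ∀ (B M m' dl d e1 d3 : ℝ) (q : ℕ), 0 ≤ B → B ≤ (N : ℝ) ^ (min (min 1 (κ₁ / 2)) (min (c1 / 2) (a₁ / 2))) →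
      m' ≤ (N : ℝ) ^ (min (min 1 (κ₁ / 2)) (min (c1 / 2) (a₁ / 2))) → (N : ℝ) ^ aM ≤ M → (N : ℝ)⁻¹ ≤ dl → (N : ℝ) ^ κ₁ ≤ q → (q : ℝ) ≤ N →
      0 ≤ d → 0 ≤ e1 → 0 ≤ d3 →
      d ≤ Real.exp (-(N : ℝ) ^ κ₁) → e1 ≤ Real.exp (-(N : ℝ) ^ κ₁) → d3 ≤ Real.exp (-(N : ℝ) ^ κ₁) →
      2 * (Real.exp m' * Kap 0 (Real.exp ((N : ℝ) ^ (κ₁ / 2))) dl q d e1 d3 +
          Real.exp m' * (6 / dl) * (Real.exp (-(N : ℝ) ^ c1) + B * Real.exp (-(N : ℝ) ^ a₁)) + 2 * Real.exp (-M)) +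
        2 * (Real.exp (-(N : ℝ) ^ c1) + Real.exp (-(N : ℝ) ^ c2)) ≤ Real.exp (-(N : ℝ) ^ c') := by
  obtain ⟨c', hc'⟩ : ∃ c' : ℝ, c' = min (κ₁ / 2) (min (c1 / 2) (min (a₁ / 2) (min (aM / 2) (c2 / 2)))) := ⟨_, rfl⟩
  have c0 : 0 < c' := by
    rw [hc']
    exact lt_min (by positivity) (lt_min (by positivity) (lt_min (by positivity) (lt_min (by positivity) (by positivity))))
  have l1 : c' ≤ κ₁ / 2 := by rw [hc']; exact min_le_left _ _
  have l2 : c' ≤ c1 / 2 := by rw [hc']; exact (min_le_right _ _).trans (min_le_left _ _)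
  have l3 : c' ≤ a₁ / 2 := by rw [hc']; exact (min_le_right _ _).trans ((min_le_right _ _).trans (min_le_left _ _))
  have l4 : c' ≤ aM / 2 := by
    rw [hc']
    exact (min_le_right _ _).trans ((min_le_right _ _).trans ((min_le_right _ _).trans (min_le_left _ _)))
  have l5 : c' ≤ c2 / 2 := by
    rw [hc']
    exact (min_le_right _ _).trans ((min_le_right _ _).trans ((min_le_right _ _).trans (min_le_right _ _)))
  have E1 := Pool.Agent.W_7d29a1_HZ.Z74.ev_exp (A := 1344) (a := 1 / 4) (by norm_num) (by norm_num) hκ₁ (by linarith : c' < κ₁) 2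
  have E2 := Pool.Agent.W_7d29a1_HZ.Z74.ev_exp (A := 96) (a := 1 / 2) (by norm_num) (by norm_num) hc1 (by linarith : c' < c1) 2
  have E3 := Pool.Agent.W_7d29a1_HZ.Z74.ev_exp (A := 96) (a := 1 / 2) (by norm_num) (by norm_num) ha₁ (by linarith : c' < a₁) 2
  have E4 := Pool.Agent.W_7d29a1_HZ.Z74.ev_exp (A := 32) (a := 1) (by norm_num) one_pos haM (by linarith : c' < aM) 2
  have E6 := Pool.Agent.W_7d29a1_HZ.Z74.ev_exp (A := 16) (a := 1) (by norm_num) one_pos hc2 (by linarith : c' < c2) 2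
  obtain ⟨L1, hL1⟩ := eventually_atTop.1 (E1.and (E2.and (E3.and (E4.and E6))))
  obtain ⟨L2, hL2⟩ := Pool.Agent.W_7d29a1_Z.NumI77.large (show 0 < κ₁ / 2 by positivity) 8
  obtain ⟨L3, hL3⟩ := Pool.Agent.W_7d29a1_Z.NumI77.large (show 0 < c1 / 2 by positivity) 2
  obtain ⟨L4, hL4⟩ := Pool.Agent.W_7d29a1_Z.NumI77.large (show 0 < a₁ / 2 by positivity) 2
  refine ⟨c', c0, max L1 (max L2 (max L3 L4)), fun N hN B M m' dl d e1 d3 q hB hBN hm' hM hdl hq hqN hd he1 hd3 hd' he1' hd3' => ?_⟩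
  obtain ⟨g1, g2, g3, g4, g6⟩ := hL1 N ((le_max_left _ _).trans hN)
  obtain ⟨n1, n2, -⟩ := hL2 N ((le_max_left _ _).trans ((le_max_right _ _).trans hN))
  obtain ⟨-, n3, -⟩ := hL3 N ((le_max_left _ _).trans ((le_max_right _ _).trans ((le_max_right _ _).trans hN)))
  obtain ⟨-, n4, -⟩ := hL4 N ((le_max_right _ _).trans ((le_max_right _ _).trans ((le_max_right _ _).trans hN)))
  have hNR : (1 : ℝ) ≤ N := by exact_mod_cast n1
  have hN0 : (0 : ℝ) < N := by linarith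
  have up : ∀ a : ℝ, min (min 1 (κ₁ / 2)) (min (c1 / 2) (a₁ / 2)) ≤ a →
      (N : ℝ) ^ (min (min 1 (κ₁ / 2)) (min (c1 / 2) (a₁ / 2))) ≤ (N : ℝ) ^ a := fun a h => Real.rpow_le_rpow_of_exponent_le hNR h
  have m1 : (N : ℝ) ^ (min (min 1 (κ₁ / 2)) (min (c1 / 2) (a₁ / 2))) ≤ N :=
    (up 1 ((min_le_left _ _).trans (min_le_left _ _))).trans (by rw [Real.rpow_one])
  have m2 := up (κ₁ / 2) ((min_le_left _ _).trans (min_le_right _ _))
  have m3 := up (c1 / 2) ((min_le_right _ _).trans (min_le_left _ _))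
  have m4 := up (a₁ / 2) ((min_le_right _ _).trans (min_le_right _ _))
  have sq : ∀ a : ℝ, (N : ℝ) ^ a = (N : ℝ) ^ (a / 2) * (N : ℝ) ^ (a / 2) := fun a => by
    rw [← Real.rpow_add hN0]
    ring_nf
  obtain ⟨x, hx⟩ : ∃ x : ℝ, x = (N : ℝ) ^ (κ₁ / 2) := ⟨_, rfl⟩
  obtain ⟨v, hv⟩ : ∃ v : ℝ, v = (N : ℝ) ^ (c1 / 2) := ⟨_, rfl⟩
  obtain ⟨z, hz⟩ : ∃ z : ℝ, z = (N : ℝ) ^ (a₁ / 2) := ⟨_, rfl⟩
  have hxx : (N : ℝ) ^ κ₁ = x * x := by rw [hx]; exact sq κ₁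
  have hvv : (N : ℝ) ^ c1 = v * v := by rw [hv]; exact sq c1
  have hzz : (N : ℝ) ^ a₁ = z * z := by rw [hz]; exact sq a₁
  have bN : B ≤ N := hBN.trans m1
  have q1 : m' ≤ x := by rw [hx]; exact hm'.trans m2
  have q2 : m' ≤ v := by rw [hv]; exact hm'.trans m3
  have q3 : m' ≤ z := by rw [hz]; exact hm'.trans m4
  rw [← hx] at n2
  rw [← hv] at n3
  rw [← hz] at n4
  obtain ⟨T, hT⟩ : ∃ T : ℝ, T = Real.exp (-(N : ℝ) ^ c') := ⟨_, rfl⟩
  rw [← hT, Real.rpow_ofNat] at g1 g2 g3 g4 g6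
  rw [one_mul] at g4 g6
  have hN2 : (1 : ℝ) ≤ (N : ℝ) ^ 2 := one_le_pow₀ hNR
  have hNN : (N : ℝ) ≤ (N : ℝ) ^ 2 := by
    rw [pow_two]
    exact le_mul_of_one_le_left hN0.le hNR
  have hup : ∀ u : ℝ, 0 ≤ u → u ≤ (N : ℝ) ^ 2 * u := fun u hu => le_mul_of_one_le_left hu hN2
  have sx : 8 * x ≤ x * x := mul_le_mul_of_nonneg_right n2 (by linarith)
  have sv : 2 * v ≤ v * v := mul_le_mul_of_nonneg_right n3 (by linarith)
  have sz : 2 * z ≤ z * z := mul_le_mul_of_nonneg_right n4 (by linarith)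
  have dl0 : 0 < dl := lt_of_lt_of_le (inv_pos.2 hN0) hdl
  have hdi : dl⁻¹ ≤ N := by
    have := inv_anti₀ (inv_pos.2 hN0) hdl
    rwa [inv_inv] at this
  have hdi0 : 0 < dl⁻¹ := inv_pos.2 dl0
  -- the small number
  obtain ⟨E, hE⟩ : ∃ E : ℝ, E = Real.exp (-(x * x / 2)) := ⟨_, rfl⟩
  have E0 : 0 < E := by rw [hE]; exact Real.exp_pos _
  have hq2 : ((1 : ℝ) / 2) ^ q ≤ E := by
    refine (half_pow13 q).trans ?_
    rw [hE]
    refine Real.exp_le_exp.2 ?_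
    rw [hxx] at hq
    linarith
  have hE' : Real.exp (-(N : ℝ) ^ κ₁) ≤ E := by
    rw [hE, hxx]
    refine Real.exp_le_exp.2 ?_
    linarith
  have d1 : d ≤ E := hd'.trans hE'
  have d2 : e1 ≤ E := he1'.trans hE'
  have d4 : d3 ≤ E := hd3'.trans hE'
  have hq0 : (0 : ℝ) ≤ q := Nat.cast_nonneg _
  -- the first term
  have t1 : Real.exp m' * Kap 0 (Real.exp ((N : ℝ) ^ (κ₁ / 2))) dl q d e1 d3 ≤ T / 32 := by
    have a1 : ((1 : ℝ) / 2) ^ q + 3 * q * d + (((1 : ℝ) / 2) ^ q + (d3 + 2 * ((3 * q + 1) * e1))) ≤ 14 * N * E := by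
      have b1 : 3 * q * d ≤ 3 * N * E := mul_le_mul (by linarith) d1 hd (by linarith)
      have b2 : (3 * q + 1) * e1 ≤ (3 * N + 1) * E := mul_le_mul (by linarith) d2 he1 (by linarith)
      have b3 : E ≤ N * E := le_mul_of_one_le_left E0.le hNR
      linarith
    have a0 : 0 ≤ ((1 : ℝ) / 2) ^ q + 3 * q * d + (((1 : ℝ) / 2) ^ q + (d3 + 2 * ((3 * q + 1) * e1))) := by positivity
    have a2 : Kap 0 (Real.exp ((N : ℝ) ^ (κ₁ / 2))) dl q d e1 d3 ≤ 84 * (N : ℝ) ^ 2 * (Real.exp x * E) := by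
      unfold Kap
      rw [zero_add, ← hx, div_eq_mul_inv]
      calc 2 * (3 * Real.exp x * dl⁻¹) * (((1 : ℝ) / 2) ^ q + 3 * q * d + (((1 : ℝ) / 2) ^ q + (d3 + 2 * ((3 * q + 1) * e1))))
          ≤ 2 * (3 * Real.exp x * N) * (14 * N * E) :=
            mul_le_mul (mul_le_mul_of_nonneg_left (mul_le_mul_of_nonneg_left hdi (by positivity)) (by norm_num)) a1 a0 (by positivity)
        _ = _ := by ring
    have a3 : Real.exp m' * (Real.exp x * E) ≤ Real.exp (-(1 / 4 * (N : ℝ) ^ κ₁)) := by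
      rw [hE, ← Real.exp_add, ← Real.exp_add, hxx]
      refine Real.exp_le_exp.2 ?_
      linarith
    calc Real.exp m' * Kap 0 (Real.exp ((N : ℝ) ^ (κ₁ / 2))) dl q d e1 d3 ≤ Real.exp m' * (84 * (N : ℝ) ^ 2 * (Real.exp x * E)) :=
          mul_le_mul_of_nonneg_left a2 (Real.exp_pos _).le
      _ = 84 * (N : ℝ) ^ 2 * (Real.exp m' * (Real.exp x * E)) := by ring
      _ ≤ 84 * (N : ℝ) ^ 2 * Real.exp (-(1 / 4 * (N : ℝ) ^ κ₁)) := mul_le_mul_of_nonneg_left a3 (by positivity)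
      _ ≤ T / 32 := by linarith
  -- the second term
  have t2 : Real.exp m' * (6 / dl) * Real.exp (-(N : ℝ) ^ c1) ≤ T / 32 := by
    have a1 : Real.exp m' * Real.exp (-(N : ℝ) ^ c1) ≤ Real.exp (-(1 / 2 * (N : ℝ) ^ c1)) := by
      rw [← Real.exp_add, hvv]
      refine Real.exp_le_exp.2 ?_
      linarith
    have a2 : 6 / dl ≤ 6 * (N : ℝ) ^ 2 := by
      rw [div_eq_mul_inv]
      linarith
    calc Real.exp m' * (6 / dl) * Real.exp (-(N : ℝ) ^ c1) = (6 / dl) * (Real.exp m' * Real.exp (-(N : ℝ) ^ c1)) := by ring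
      _ ≤ 6 * (N : ℝ) ^ 2 * Real.exp (-(1 / 2 * (N : ℝ) ^ c1)) := mul_le_mul a2 a1 (by positivity) (by positivity)
      _ ≤ T / 32 := by
        have := Real.exp_pos (-(1 / 2 * (N : ℝ) ^ c1))
        linarith
  have t3 : Real.exp m' * (6 / dl) * (B * Real.exp (-(N : ℝ) ^ a₁)) ≤ T / 32 := by
    have a1 : Real.exp m' * Real.exp (-(N : ℝ) ^ a₁) ≤ Real.exp (-(1 / 2 * (N : ℝ) ^ a₁)) := by
      rw [← Real.exp_add, hzz]
      refine Real.exp_le_exp.2 ?_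
      linarith
    have a2 : 6 / dl * B ≤ 6 * (N : ℝ) ^ 2 := by
      rw [div_eq_mul_inv, pow_two]
      have := mul_le_mul hdi bN hB hN0.le
      linarith
    have a3 : 0 ≤ 6 / dl * B := by positivity
    calc Real.exp m' * (6 / dl) * (B * Real.exp (-(N : ℝ) ^ a₁)) = (6 / dl * B) * (Real.exp m' * Real.exp (-(N : ℝ) ^ a₁)) := by ring
      _ ≤ 6 * (N : ℝ) ^ 2 * Real.exp (-(1 / 2 * (N : ℝ) ^ a₁)) := mul_le_mul a2 a1 (by positivity) (by positivity)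
      _ ≤ T / 32 := by linarith
  have t4 : Real.exp (-M) ≤ T / 64 := by
    have a1 : Real.exp (-M) ≤ Real.exp (-(N : ℝ) ^ aM) := Real.exp_le_exp.2 (by linarith)
    have a2 := Real.exp_pos (-(N : ℝ) ^ aM)
    have a3 := hup _ a2.le
    linarith
  have t5 : Real.exp (-(N : ℝ) ^ c1) ≤ T / 64 := by
    have a1 : Real.exp (-(N : ℝ) ^ c1) ≤ Real.exp (-(1 / 2 * (N : ℝ) ^ c1)) := Real.exp_le_exp.2 (by
      rw [hvv]
      linarith)
    have a2 := Real.exp_pos (-(1 / 2 * (N : ℝ) ^ c1))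
    have a3 := hup _ a2.le
    linarith
  have t6 : Real.exp (-(N : ℝ) ^ c2) ≤ T / 32 := by
    have a2 := Real.exp_pos (-(N : ℝ) ^ c2)
    have a3 := hup _ a2.le
    linarith
  have T0 : 0 ≤ T := by
    rw [hT]
    positivity
  rw [← hT]
  have e2 : Real.exp m' * (6 / dl) * (Real.exp (-(N : ℝ) ^ c1) + B * Real.exp (-(N : ℝ) ^ a₁)) =
      Real.exp m' * (6 / dl) * Real.exp (-(N : ℝ) ^ c1) + Real.exp m' * (6 / dl) * (B * Real.exp (-(N : ℝ) ^ a₁)) := by ring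
  rw [e2]
  linarith

end

end Pool.Agent.W_7d29a1_C0.Rq13
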