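import Pool.Agent.W_7d29a1_C0.Rq13C
import Pool.Agent.W_7d29a1_C0.Pair42F

/-!
CURV0 (MP_7d29a1_pr), leaf E2a, the remainder, corner side, part F (helper13): THE MAIN FAMILY OF THE REMAINDER. `ym13`: the second moment of the
sum of the row events `UM13` over rows of an interval of length `ρ` in front of `m`, from `pair42` (helper42) at `(0, b0, b)`, block `[0, m)`.
-/

set_option autoImplicit false
set_option linter.unusedSectionVars false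
set_option linter.unusedVariables false

namespace Pool.Agent.W_7d29a1_C0.Rq13

open MeasureTheory ProbabilityTheory Filter Topology Finset
open Pool.Agent.W_7d29a1_F Pool.Agent.W_7d29a1_X Pool.Agent.W_7d29a1_H
open Pool.Agent.W_7d29a1_HS (In)
open Pool.Agent.W_7d29a1_HZ (wd' EE')
open Pool.Agent.W_7d29a1_C0 Pool.Agent.W_7d29a1_C0.Mod92
open Pool.Agent.W_7d29a1_C0.Swap57 (NI cE2 NI_nonneg SwQ)
open Pool.Agent.W_7d29a1_C0.E2aC81 (iT iT_nonneg iT_le_one T2)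
open Pool.Agent.W_7d29a1_C0.Base5 (pW)
open Pool.W7d29a1.C0 (gz gm gz_pos gm_nonneg gm_mono gm_const)
open Pool.W7d29a1.C0.VT31
open Pool.W7d29a1.C0.R43 (Tau)
open Pool.W7d29a1.C0.S1 (tI i1 i1_of i1_not i1_nonneg)

noncomputable section

variable {μ : Measure ℝ} {s : ℝ} {N : ℕ}

theorem i1_le13 (P : Prop) : i1 P ≤ 1 := by
  by_cases h : P
  · rw [i1_of h]
  · rw [i1_not h]
    norm_num

theorem iT_le_tI13 {Q : Finset (Finset ℕ)} [Nonempty (Px Q)] (w : Px Q → ℝ) (p : Px Q → Finset ℕ × ℕ) (c al be d : ℕ) (M : ℝ)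
    (S : Px Q) : iT w p c al be d M S ≤ tI w p c al be d M S := by
  have a1 := i1_nonneg (Tau w p c al M S)
  have a2 := i1_nonneg (Tau w p be d M S)
  unfold tI
  by_cases h : T2 w p c al be d M S
  · have e1 : iT w p c al be d M S = 1 := if_pos h
    rw [e1]
    rcases h with h | h
    · rw [i1_of h]
      linarith
    · rw [i1_of h]
      linarith
  · have e1 : iT w p c al be d M S = 0 := if_neg h
    rw [e1]
    linarith

theorem meas_tI13 {y : ℕ} (p : Px (Pn N y) → Finset ℕ × ℕ) (a b c d : ℕ) (M : ℝ) (x : Px (Pn N y)) :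
    Measurable fun ω : Env × Finset ℕ => tI (wm μ s N (Pn N y) ω) p a b c d M x := by
  classical
  have : Nonempty (Px (Pn N y)) := ⟨x⟩
  have h1 : ∀ a b : ℕ, Measurable fun ω : Env × Finset ℕ => i1 (Tau (wm μ s N (Pn N y) ω) p a b M x) := fun a b => by
    have h : (fun ω : Env × Finset ℕ => i1 (Tau (wm μ s N (Pn N y) ω) p a b M x)) =
        fun ω => if Tau (wm μ s N (Pn N y) ω) p a b M x then 1 else 0 := by
      funext ω
      by_cases h : Tau (wm μ s N (Pn N y) ω) p a b M x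
      · rw [i1_of h, if_pos h]
      · rw [i1_not h, if_neg h]
    rw [h]
    exact Measurable.ite (measurableSet_le measurable_const (meas_cE (w := fun ω : Env × Finset ℕ => wm μ s N (Pn N y) ω)
      (fun S => meas_wm S) (f := fun ω z => cE (wm μ s N (Pn N y) ω) p (NI a b z) x)
      (fun z => meas_cE (w := fun ω : Env × Finset ℕ => wm μ s N (Pn N y) ω) (fun S => meas_wm S)
        (f := fun _ => NI a b z) (fun _ => measurable_const) _ x) _ x)) measurable_const measurable_const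
  exact (h1 a b).add (h1 c d)

section Main

variable [IsProbabilityMeasure μ] {c₀ C₀ : ℝ} {n₀ : ℕ}

/-- **THE SECOND MOMENT OF THE MAIN FAMILY.** -/
theorem ym13 (h : In μ s c₀ C₀ n₀) : ∀ ε θ : ℝ, 0 < ε → 0 < θ → ∃ δ κ c₂ : ℝ, 0 < δ ∧ 0 < κ ∧ 0 < c₂ ∧ ∃ L₀ : ℕ,
    ∀ N : ℕ, L₀ ≤ N → ∀ y : ℕ, y ≤ N → |(y : ℝ) - sl μ s * N| ≤ ((N : ℝ) ^ δ * wd' μ s N) →
    ∀ b0 b m r ρ : ℕ, (N : ℝ) ^ θ ≤ b0 → 2 * b0 ≤ b → b ≤ ρ → ρ ≤ N → m ≤ N →
    ∀ R : Finset ℕ, (∀ j ∈ R, r ≤ j ∧ j < r + ρ ∧ b ≤ j ∧ j + b ≤ m) → ∀ M : ℝ, 8 ≤ M → M ≤ (N : ℝ) ^ κ →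
    ∫ ω, gm (wm μ s N (Pn N y) ω) (fun x => (∑ j ∈ R, UM13 μ s N b0 b m M j y ω x) ^ 2) ∂(Pm μ N) ≤
      (N : ℝ) ^ ε * (ρ * b * (EE' μ s b0)⁻¹ + ((ρ : ℝ) ^ 2 * ((EE' μ s b0)⁻¹ * (EE' μ s b)⁻¹) ^ 2 +
        (ρ : ℝ) ^ 2 * (EE' μ s ρ)⁻¹ * ((EE' μ s b0)⁻¹ * (EE' μ s b0)⁻¹))) +
      (Real.exp (-(N : ℝ) ^ c₂) + 100 * ((N : ℝ) + 1) ^ 3 * Real.exp (-M)) := by
  intro ε θ hε hθ
  obtain ⟨δ, κ, c₂, hδ, hκ, hc₂, L₀, hP⟩ := Pool.Agent.W_7d29a1_C0.P42.pair42 h ε θ hε hθ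
  refine ⟨δ, κ, c₂, hδ, hκ, hc₂, L₀, fun N hN y hy hyc b0 b m r ρ hb0 hb hbρ hρN hmN R hR M hM hMN => ?_⟩
  have hne := ne_Pn hy
  have key := hP N hN N (by omega) le_rfl y hy hyc 0 b0 b 0 m r ρ hb0 (by omega) hb hbρ hρN hmN R (fun j hj => by
    obtain ⟨h1, h2, h3, h4⟩ := hR j hj
    exact ⟨h1, h2, by omega, h4⟩) M hM hMN
  refine le_trans ?_ key
  set T : ℕ → Env × Finset ℕ → Px (Pn N y) → ℝ := fun j ω x =>
    tI (wm μ s N (Pn N y) ω) (pJ (j - b) (j + b)) (j - b0) (j - 0) (j + 0) (j + b0) M x *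
      tI (wm μ s N (Pn N y) ω) (pJ 0 m) (j - b) (j - b0) (j + b0) (j + b) M x with hT
  have tI0 : ∀ (w : Px (Pn N y) → ℝ) (p : Px (Pn N y) → Finset ℕ × ℕ) (a b c d : ℕ) (x : Px (Pn N y)), 0 ≤ tI w p a b c d M x :=
    fun w p a b c d x => add_nonneg (i1_nonneg _) (i1_nonneg _)
  have tI2 : ∀ (w : Px (Pn N y) → ℝ) (p : Px (Pn N y) → Finset ℕ × ℕ) (a b c d : ℕ) (x : Px (Pn N y)), tI w p a b c d M x ≤ 2 :=
    fun w p a b c d x => by
      have a1 := i1_le13 (Tau w p a b M x)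
      have a2 := i1_le13 (Tau w p c d M x)
      unfold tI
      linarith
  have T0 : ∀ j ω x, 0 ≤ T j ω x := fun j ω x => mul_nonneg (tI0 _ _ _ _ _ _ _) (tI0 _ _ _ _ _ _ _)
  have T4 : ∀ j ω x, T j ω x ≤ 4 := fun j ω x => by
    have a1 := mul_le_mul (tI2 (wm μ s N (Pn N y) ω) (pJ (j - b) (j + b)) (j - b0) (j - 0) (j + 0) (j + b0) x)
      (tI2 (wm μ s N (Pn N y) ω) (pJ 0 m) (j - b) (j - b0) (j + b0) (j + b) x) (tI0 _ _ _ _ _ _ _) (by norm_num)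
    calc T j ω x ≤ 2 * 2 := a1
      _ = 4 := by norm_num
  have hUT : ∀ j ω x, UM13 μ s N b0 b m M j y ω x ≤ T j ω x := fun j ω x =>
    mul_le_mul (iT_le_tI13 _ _ _ _ _ _ _ _) (iT_le_tI13 _ _ _ _ _ _ _ _) (iT_nonneg _ _ _ _ _ _ _ _) (tI0 _ _ _ _ _ _ _)
  have mT : ∀ j x, Measurable fun ω => T j ω x := fun j x => (meas_tI13 _ _ _ _ _ _ x).mul (meas_tI13 _ _ _ _ _ _ x)
  have s0 : ∀ ω x, 0 ≤ ∑ j ∈ R, T j ω x := fun ω x => sum_nonneg fun j _ => T0 j ω x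
  have s1 : ∀ ω x, ∑ j ∈ R, T j ω x ≤ R.card * 4 := fun ω x => by
    refine (sum_le_sum fun j _ => T4 j ω x).trans ?_
    rw [sum_const, nsmul_eq_mul]
  refine integral_mono_of_nonneg (ae_of_all _ fun ω => gm_nonneg _ fun x => sq_nonneg _)
    (int_bdd (M := ((R.card : ℝ) * 4) ^ 2) (meas_gm (fun S => meas_wm S) fun x => (Finset.measurable_sum R fun j _ => mT j x).pow_const 2)
      fun ω => ?_) (ae_of_all _ fun ω => gm_mono _ fun x => ?_)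
  · have a1 : ∀ x, (∑ j ∈ R, T j ω x) ^ 2 ≤ ((R.card : ℝ) * 4) ^ 2 := fun x => pow_le_pow_left₀ (s0 ω x) (s1 ω x) 2
    have a2 := gm_mono (wm μ s N (Pn N y) ω) a1
    rw [gm_const] at a2
    have a3 : 0 ≤ gm (wm μ s N (Pn N y) ω) fun x => (∑ j ∈ R, T j ω x) ^ 2 := gm_nonneg _ fun x => sq_nonneg _
    show |gm (wm μ s N (Pn N y) ω) fun x => (∑ j ∈ R, T j ω x) ^ 2| ≤ _
    rw [abs_of_nonneg a3]
    exact a2
  · exact pow_le_pow_left₀ (sum_nonneg fun j _ => UM_nonneg13 _ _ _ _ _ _ _ _) (sum_le_sum fun j _ => hUT j ω x) 2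

end Main

end

end Pool.Agent.W_7d29a1_C0.Rq13
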