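import Pool.Agent.W_7d29a1_C0.Rq61C

/-!
MP_7d29a1_pr, [CURV0] / [C0], leaf E2a, THE REMAINDER (RQ), LAW SIDE (helper61), part 4: **`rq_row61` = RqS61**: the remainder of one row in the
mean over the ends, at the actual corner, in terms of events: (1) the window of the row and the own event; (2) the response of the row has
alternatives on both sides (`jT45`) and the own event.
-/

set_option autoImplicit false
set_option linter.unusedSectionVars false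
set_option linter.unusedVariables false

namespace Pool.Agent.W_7d29a1_C0.Rq61

open Finset MeasureTheory Filter Topology Pool.Agent.W_7d29a1_F Pool.Agent.W_7d29a1_X Pool.Agent.W_7d29a1_C0.Mod92
open Pool.Agent.W_7d29a1_H (sl)
open Pool.Agent.W_7d29a1_HS (In)
open Pool.Agent.W_7d29a1_HZ (wd')
open Pool.Agent.W_7d29a1_C0 Pool.Agent.W_7d29a1_C0.Swap57 Pool.Agent.W_7d29a1_C0.Blk18 Pool.Agent.W_7d29a1_C0.NM82
open Pool.Agent.W_7d29a1_C0.MicE14 (rh rh_nonneg)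
open Pool.Agent.W_7d29a1_C0.GwA50 (GwW)
open Pool.Agent.W_7d29a1_C0.T72 (Sp72 Rb72 ind72 ind72_nonneg ind72_le_one meas_ind72 uj72 meas_uj72)
open Pool.W7d29a1.C0 (gz gm gm_nonneg gm_mono gm_const PP PP_mono PP_nonneg rep)
open Pool.W7d29a1.C0.VT31
open Pool.W7d29a1.C0.H7 (E0D)
open Pool.W7d29a1.C0.H27 (QI)
open Pool.W7d29a1.C0.C45
open Pool.W7d29a1.C0.Bd73 (nCn)
open Pool.Agent.W_7d29a1_C0.E2aC81 (T2 eW eT)
open Pool.Agent.W_7d29a1_C0.E2aM82 (vX rX)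
open Pool.Agent.W_7d29a1_C0.E2aD81 (ev81)
open Pool.Agent.W_7d29a1_C0.Base5 (pW)
open Pool.Agent.W_7d29a1_C0.Flip61

noncomputable section

/-! ### The events at the corner -/

/-- The window of the row `j` (base `b`, halves of the half width `b0`) and the own event given what is behind the row `m`. -/
def Ev61 (μ : Measure ℝ) (s : ℝ) (N y b0 b j m : ℕ) (M : ℝ) (ω : Env × Finset ℕ) (S : Px (Pn N y)) : Prop :=
  T2 (wm μ s N (Pn N y) ω) (pW b j) (j - b0) j j (j + b0) M S ∧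
    T2 (wm μ s N (Pn N y) ω) (pJ 0 m) (j - b) (j - b0) (j + b0) (j + b) M S

/-- The own event given what is behind the row `m`, and the response of the row `j` has alternatives on both sides, given what is behind
the row `z`. -/
def Eq61 (μ : Measure ℝ) (s : ℝ) (N y : ℕ) (γ B : ℝ) (b0 b j m z : ℕ) (d M : ℝ) (ω : Env × Finset ℕ) (S : Px (Pn N y)) : Prop :=
  T2 (wm μ s N (Pn N y) ω) (pJ 0 m) (j - b) (j - b0) (j + b0) (j + b) M S ∧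
    jT45 μ s N (Pn N y) γ B b0 j z d (5 * M) (fun _ _ => True) ω S

section One

variable {μ : Measure ℝ} {s : ℝ} {N y : ℕ} [IsProbabilityMeasure μ] [Nonempty (Px (Pn N y))]
variable {γ B t D M : ℝ} {b0 b j m m0 m1 c0 K cb e : ℕ} {f : Fam N}

theorem meas_Ev61 (M : ℝ) (S : Px (Pn N y)) : MeasurableSet {ω : Env × Finset ℕ | Ev61 μ s N y b0 b j m M ω S} :=
  ((ev_T2 _ _ _ _ _).meas meas_wm M S).inter ((ev_T2 _ _ _ _ _).meas meas_wm M S)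

theorem mono_Ev61 {M M' : ℝ} (h : M ≤ M') (ω : Env × Finset ℕ) (S : Px (Pn N y)) (h1 : Ev61 μ s N y b0 b j m M ω S) :
    Ev61 μ s N y b0 b j m M' ω S := ⟨(ev_T2 _ _ _ _ _).mono h h1.1, (ev_T2 _ _ _ _ _).mono h h1.2⟩

theorem meas_Eq61 (z : ℕ) (d M : ℝ) (S : Px (Pn N y)) : MeasurableSet {ω : Env × Finset ℕ | Eq61 μ s N y γ B b0 b j m z d M ω S} :=
  ((ev_T2 _ _ _ _ _).meas meas_wm M S).inter (meas_jT45 z d _ (fun _ => MeasurableSet.const True) S)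

theorem mono_jT61 {z : ℕ} {d M M' : ℝ} (h : M ≤ M') (ω : Env × Finset ℕ) (S : Px (Pn N y))
    (h1 : jT45 μ s N (Pn N y) γ B b0 j z d M (fun _ _ => True) ω S) : jT45 μ s N (Pn N y) γ B b0 j z d M' (fun _ _ => True) ω S :=
  (Real.exp_le_exp.2 (by linarith)).trans h1

/-- The corner functional is monotone in the event. -/
theorem cP_mono61 (hf : Sp72 (Pn N y) m1 D c0 K (f y)) {T T' : Env × Finset ℕ → Px (Pn N y) → Prop} (hT : ∀ S, MeasurableSet {ω | T ω S})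
    (hT' : ∀ S, MeasurableSet {ω | T' ω S}) (h : ∀ ω S, T ω S → T' ω S) (m0 : ℕ) :
    cP45 μ s N (Pn N y) T m0 m1 (f y) ≤ cP45 μ s N (Pn N y) T' m0 m1 (f y) := by
  have hi : ∀ T : Env × Finset ℕ → Px (Pn N y) → Prop, (∀ S, MeasurableSet {ω | T ω S}) → Integrable (fun ω =>
      PP (wm μ s N (Pn N y) ω) (fun x z => ind72 T ω x * rh m0 m1 (f y ω) x z)) (Pm μ N) := fun T hT =>
    int_bdd (M := 1 * (2 * D)) (meas_PP45 meas_wm fun x x' => (meas_ind72 hT x).mul (meas_rh45 hf x x')) fun ω =>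
      abs_PP_le45 _ (fun x x' => mul_nonneg (ind72_nonneg _ _ _) (rh_nonneg _ _ _)) fun x x' =>
        mul_le_mul (ind72_le_one _ _ _) (rh_le45 hf ω x x') (rh_nonneg _ _ _) zero_le_one
  refine integral_mono (hi T hT) (hi T' hT') fun ω => PP_mono _ fun x x' => mul_le_mul_of_nonneg_right ?_ (rh_nonneg _ _ _)
  unfold ind72
  by_cases h1 : T ω x
  · rw [if_pos h1, if_pos (h ω x h1)]
  · rw [if_neg h1]
    split_ifs <;> norm_num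

end One

/-! ### The numbers -/

theorem eT_le61 {B D M X : ℝ} (hD : 0 ≤ D) (hBM : B ≤ M) (hDX : 2 * D ≤ X) :
    (B / 2) ^ 2 * (2 * D) * eT B M + (B / 2) ^ 2 * (X * Real.exp (-M)) ≤ B ^ 2 * (X * Real.exp (-M)) := by
  have h1 : Real.exp (4 * B - 5 * M) ≤ Real.exp (-M) := Real.exp_le_exp.2 (by linarith)
  have h2 := (Real.exp_pos (-M)).le
  unfold eT
  have h3 : (B / 2) ^ 2 * (2 * D) * (2 * Real.exp (4 * B - 5 * M)) ≤ (B / 2) ^ 2 * X * (2 * Real.exp (-M)) :=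
    mul_le_mul (mul_le_mul_of_nonneg_left hDX (sq_nonneg _)) (mul_le_mul_of_nonneg_left h1 (by norm_num)) (by positivity)
      (mul_nonneg (sq_nonneg _) (by linarith))
  have h4 : 0 ≤ B ^ 2 * (X * Real.exp (-M)) := mul_nonneg (sq_nonneg _) (mul_nonneg (by linarith) h2)
  have h5 : (B / 2) ^ 2 * X * (2 * Real.exp (-M)) = 1 / 2 * (B ^ 2 * (X * Real.exp (-M))) := by ring
  have h6 : (B / 2) ^ 2 * (X * Real.exp (-M)) = 1 / 4 * (B ^ 2 * (X * Real.exp (-M))) := by ring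
  rw [h5] at h3
  linarith

/-- The error of the flip. -/
theorem eF_le61 {B D M θ ε : ℝ} {N K n : ℕ} (hB : 0 ≤ B) (hD : 0 ≤ D) (hM : 12 * B ≤ M) (hK : K ≤ N) (hN : 1 ≤ N) (hθ : 0 ≤ θ) :
    2 * (1 / 2 * (B * B) * (2 * D)) / n + (3 * (Real.exp (2 * B) * ((1 / 2 * (B * B) * (2 * D) *
        (16 * Real.exp (5 * (M + 2 * B)) + 8 * K) + (2 * D * (1 / 2 * (Real.exp (4 * B) * (4 * (B * B)))) +
          1 / 2 * (B * B) * (Real.exp (2 * B) * (0 + 2 * (2 * D))))) + 2 * (1 / 2 * (B * B) * (2 * D)))) * θ +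
        4 * (1 / 2 * (B * B) * (2 * D)) * ε) ≤
      2 * (B ^ 2 * D) / n + 96 * (B ^ 2 * D) * (N * Real.exp (6 * M)) * θ + 4 * (B ^ 2 * D) * ε := by
  have hNR : (1 : ℝ) ≤ N := by exact_mod_cast hN
  have hKR : (K : ℝ) ≤ N := by exact_mod_cast hK
  obtain ⟨X, hX⟩ : ∃ X : ℝ, X = B ^ 2 * D := ⟨_, rfl⟩
  have X0 : 0 ≤ X := by rw [hX]; positivity
  obtain ⟨T, hT⟩ : ∃ T : ℝ, T = Real.exp (6 * M) := ⟨_, rfl⟩
  have T0 : 0 < T := by rw [hT]; exact Real.exp_pos _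
  have a1 : Real.exp (2 * B) * Real.exp (5 * (M + 2 * B)) ≤ T := by
    rw [← Real.exp_add, hT]
    exact Real.exp_le_exp.2 (by linarith)
  have a2 : Real.exp (2 * B) ≤ T := by
    rw [hT]
    exact Real.exp_le_exp.2 (by linarith)
  have a3 : Real.exp (2 * B) * Real.exp (4 * B) ≤ T := by
    rw [← Real.exp_add, hT]
    exact Real.exp_le_exp.2 (by linarith)
  have a4 : Real.exp (2 * B) * Real.exp (2 * B) ≤ T := by
    rw [← Real.exp_add, hT]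
    exact Real.exp_le_exp.2 (by linarith)
  have e1 : 3 * (Real.exp (2 * B) * ((1 / 2 * (B * B) * (2 * D) *
        (16 * Real.exp (5 * (M + 2 * B)) + 8 * K) + (2 * D * (1 / 2 * (Real.exp (4 * B) * (4 * (B * B)))) +
          1 / 2 * (B * B) * (Real.exp (2 * B) * (0 + 2 * (2 * D))))) + 2 * (1 / 2 * (B * B) * (2 * D)))) =
      3 * X * (16 * (Real.exp (2 * B) * Real.exp (5 * (M + 2 * B))) + 8 * K * Real.exp (2 * B) +
        4 * (Real.exp (2 * B) * Real.exp (4 * B)) + 2 * (Real.exp (2 * B) * Real.exp (2 * B)) + 2 * Real.exp (2 * B)) := by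
    rw [hX]
    ring
  have e2 : 3 * X * (16 * (Real.exp (2 * B) * Real.exp (5 * (M + 2 * B))) + 8 * K * Real.exp (2 * B) +
        4 * (Real.exp (2 * B) * Real.exp (4 * B)) + 2 * (Real.exp (2 * B) * Real.exp (2 * B)) + 2 * Real.exp (2 * B)) ≤
      3 * X * (32 * (N * T)) := by
    refine mul_le_mul_of_nonneg_left ?_ (by positivity)
    have b1 : 8 * (K : ℝ) * Real.exp (2 * B) ≤ 8 * N * T := by
      have := mul_le_mul hKR a2 (Real.exp_pos _).le (by linarith : (0 : ℝ) ≤ N)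
      linarith
    have b2 : T ≤ N * T := by
      have := mul_le_mul_of_nonneg_right hNR T0.le
      linarith
    linarith
  rw [e1]
  have e3 := mul_le_mul_of_nonneg_right e2 hθ
  have e4 : 2 * (1 / 2 * (B * B) * (2 * D)) / (n : ℝ) = 2 * X / n := by
    rw [hX]
    ring
  have e5 : 4 * (1 / 2 * (B * B) * (2 * D)) * ε = 4 * X * ε := by
    rw [hX]
    ring
  rw [e4, e5, ← hX, ← hT]
  have e6 : 3 * X * (32 * (N * T)) * θ = 96 * X * (N * T) * θ := by ring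
  rw [e6] at e3
  linarith

/-! ### The end theorem -/

section Row

variable {μ : Measure ℝ} {s : ℝ} [IsProbabilityMeasure μ]

/-- **RqS61: THE REMAINDER OF ONE ROW OF (E2a), IN THE MEAN OVER THE ENDS, AT THE ACTUAL CORNER.** -/
theorem rq_row61 {c₀ C₀ : ℝ} {n₀ : ℕ} (hIn : In μ s c₀ C₀ n₀)
    (hQI : ∀ p : ℝ, 1 < p → ∃ C θ0 : ℝ, 0 ≤ C ∧ 0 < θ0 ∧ QI μ p C θ0) {κ : ℝ} (hκ : 0 < κ) (hκ1 : κ ≤ 1) {ε K' aM : ℝ}
    (hε : 0 < ε) (hK' : 0 ≤ K') (haM : 0 < aM) : ∃ β₀ : ℝ, 0 < β₀ ∧ ∀ γ : ℝ, 0 < γ → ∃ δ' c' : ℝ, 0 < δ' ∧ 0 < c' ∧ ∃ N₀ : ℕ,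
      ∀ N : ℕ, N₀ ≤ N → ∀ y₀ n : ℕ, 1 ≤ y₀ → 1 ≤ n → y₀ + n ≤ N →
      (∀ y ∈ Ico y₀ (y₀ + n), |(y : ℝ) - sl μ s * N| ≤ ((N : ℝ) ^ δ' * wd' μ s N)) →
      ∀ c0 K : ℕ, (N : ℝ) ^ κ ≤ c0 → (N : ℝ) ^ κ ≤ K → c0 + K ≤ N → ∀ (B : ℝ) (b0 b j : ℕ), 0 ≤ B → B ≤ (N : ℝ) ^ β₀ →
      (N : ℝ) ^ κ ≤ b0 → b0 ≤ b → b ≤ j → j + b0 ≤ c0 → j + b ≤ N →
      ∀ (cb e : ℕ) (D : ℝ) (f : Fam N), Cls59 N cb e D f → 2 * D ≤ (N : ℝ) ^ K' → ∀ θ' D' : ℝ,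
      Cov1 N b0 j (fun y ω S => f y ω S - 2 * θ' * y) D' → ∀ m m0 m1 : ℕ, c0 + K ≤ m → c0 + K ≤ m0 → m0 ≤ m1 → m1 ≤ e →
      ∀ t ∈ Set.Icc (-1 : ℝ) 1, ∀ u ∈ Set.Icc (-1 : ℝ) 1, ∀ M : ℝ, (N : ℝ) ^ aM ≤ M → ∀ dl : ℝ, 0 < dl → dl ≤ 1 →
      ∀ θ ε' : ℝ, FErr2 μ s N γ B b0 j y₀ n θ ε' → 0 ≤ θ →
      avy (Ico y₀ (y₀ + n)) (fun y => ∫ ω, rep 2 (wj μ s N (Pn N y) γ B b0 j ω t) (rX μ s N γ B b0 b j t u y f m0 m1 m ω) ∂(Pm μ N)) ≤
        (B / 2) ^ 2 * (N : ℝ) ^ ε * (2 * avy (Ico y₀ (y₀ + n)) (fun y => cP45 μ s N (Pn N y)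
            (Ev61 μ s N y b0 b j m (2 * M)) m0 m1 (f y)) +
          avy (Ico y₀ (y₀ + n)) (fun y => cP45 μ s N (Pn N y) (Eq61 μ s N y γ B b0 b j m (c0 + K) (dl / 4) (2 * M)) m0 m1 (f y))) +
        ((B ^ 2 * ((N : ℝ) ^ ε * (N : ℝ) ^ (-K') + (N : ℝ) ^ K' * Real.exp (-M)) + D * Real.exp (-(N : ℝ) ^ c')) +
          (2 * (B ^ 2 * D) / n + 96 * (B ^ 2 * D) * (N * Real.exp (6 * M)) * θ + 4 * (B ^ 2 * D) * ε')) := by
  obtain ⟨δ₀, ε₁, hδ₀, hε₁, N₁, hN₁⟩ := Pool.W7d29a1.C0.H7.e0_finD hIn hQI hκ hκ1 2 hε hK'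
  obtain ⟨a₁, ha₁, hA⟩ := TauE34.nCn34 hIn hκ
  obtain ⟨c1, hc1, hGw⟩ := Pool.Agent.W_7d29a1_C0.GwA50.gw_ord73 hIn (ε := aM / 2) hκ (by positivity)
  obtain ⟨β₀, hβ₀⟩ : ∃ β₀ : ℝ, β₀ = min ε₁ (min (min 1 (c1 / 2)) (min (aM / 2) (a₁ / 2))) := ⟨_, rfl⟩
  refine ⟨β₀, by rw [hβ₀]; exact lt_min hε₁ (lt_min (lt_min one_pos (by positivity)) (lt_min (by positivity) (by positivity))),
    fun γ hγ => ?_⟩
  obtain ⟨δ₁, hδ₁, -, N₂, hN₂⟩ := hGw γ hγ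
  obtain ⟨δ₂, c2, hδ₂, hc2, N₃, hN₃⟩ := hA δ₁ hδ₁
  obtain ⟨c', hc', N₄, hN₄⟩ := ev81 haM ha₁ hc1 hc2
  obtain ⟨c'', hc''⟩ : ∃ c'' : ℝ, c'' = c' / 2 := ⟨_, rfl⟩
  have hc0'' : 0 < c'' := by rw [hc'']; positivity
  have v1 := Pool.Agent.W_7d29a1_HZ.Z74.ev_pow (show 0 < aM / 2 by positivity) 48
  have v2 := Pool.Agent.W_7d29a1_HZ.Z74.ev_exp (A := 4) (a := 1) (by norm_num) one_pos hc' (by rw [hc'']; linarith : c'' < c') 0
  obtain ⟨N₅, hN₅⟩ := eventually_atTop.1 (v1.and v2)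
  obtain ⟨N₆, hN₆⟩ := Pool.Agent.W_7d29a1_Z.NumI77.large (show 0 < aM / 2 by positivity) 8
  refine ⟨min δ₀ δ₂, c'', lt_min hδ₀ hδ₂, hc0'', max (max N₁ N₂) (max N₃ (max N₄ (max N₅ N₆))),
    fun N hN y₀ n hy hn hyN hcone c0 K hc hK hcK B b0 b j hB hBN
    hb0 hb hbj hjc hjN cb e D f hf hDN θ' D' hcov m m0 m1 hm hm0 hm01 hme t ht u hu M hM dl hdl hdl1 θ ε' hFE hθ => ?_⟩
  have k1 : N₁ ≤ N := (le_max_left _ _).trans ((le_max_left _ _).trans hN)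
  have k2 : N₂ ≤ N := (le_max_right _ _).trans ((le_max_left _ _).trans hN)
  have k3 : N₃ ≤ N := (le_max_left _ _).trans ((le_max_right _ _).trans hN)
  have k4 : N₄ ≤ N := (le_max_left _ _).trans ((le_max_right _ _).trans ((le_max_right _ _).trans hN))
  have k5 : N₅ ≤ N := (le_max_left _ _).trans ((le_max_right _ _).trans ((le_max_right _ _).trans ((le_max_right _ _).trans hN)))
  have k6 : N₆ ≤ N := (le_max_right _ _).trans ((le_max_right _ _).trans ((le_max_right _ _).trans ((le_max_right _ _).trans hN)))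
  obtain ⟨n1, n2, n3⟩ := hN₆ N k6
  obtain ⟨g1, g2⟩ := hN₅ N k5
  have hNR : (1 : ℝ) ≤ N := by exact_mod_cast n1
  have hN0 : (0 : ℝ) < N := by linarith
  have w0 : 0 ≤ wd' μ s N := zero_le_one.trans (le_max_left _ _)
  have ht1 := abs_le.2 ht
  have hu1 := abs_le.2 hu
  have hBe : B ≤ (N : ℝ) ^ ε₁ := hBN.trans (Real.rpow_le_rpow_of_exponent_le hNR (by rw [hβ₀]; exact min_le_left _ _))
  have hBs : B ≤ (N : ℝ) ^ (min (min 1 (c1 / 2)) (min (aM / 2) (a₁ / 2))) :=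
    hBN.trans (Real.rpow_le_rpow_of_exponent_le hNR (by rw [hβ₀]; exact min_le_right _ _))
  have hBh : B ≤ (N : ℝ) ^ (aM / 2) := hBs.trans (Real.rpow_le_rpow_of_exponent_le hNR ((min_le_right _ _).trans (min_le_left _ _)))
  have hsq : (N : ℝ) ^ aM = (N : ℝ) ^ (aM / 2) * (N : ℝ) ^ (aM / 2) := by
    rw [← Real.rpow_add hN0]
    ring_nf
  have hnum : 48 * B ≤ M ∧ 12 * B + 4 * Real.log (N + 1) + 4 ≤ M ∧ 8 ≤ M := by
    obtain ⟨x, hx⟩ : ∃ x : ℝ, x = (N : ℝ) ^ (aM / 2) := ⟨_, rfl⟩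
    rw [← hx] at g1 hBh hsq n3 n2
    have hMx : 48 * x ≤ M := by
      have : 48 * x ≤ x * x := mul_le_mul_of_nonneg_right g1 (by linarith)
      linarith
    have l1 : Real.log ((N : ℝ) + 1) ≤ Real.log N + 1 := by
      have l2 : Real.log ((N : ℝ) + 1) ≤ Real.log (2 * N) := Real.log_le_log (by linarith) (by linarith)
      rw [Real.log_mul (by norm_num) hN0.ne'] at l2
      have l3 := Real.log_two_lt_d9
      linarith
    have l4 : 0 ≤ Real.log (N : ℝ) := Real.log_nonneg hNR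
    exact ⟨by linarith, by linarith, by linarith⟩
  obtain ⟨hM48, hlog, hM1⟩ := hnum
  have hD : 0 ≤ D := by
    have hne := ne_Pn (show y₀ ≤ N by omega)
    exact (abs_nonneg _).trans (hf.bdd y₀ (fun _ => 0, ∅) Classical.ofNonempty)
  have hK0 : (0 : ℝ) < K := lt_of_lt_of_le (Real.rpow_pos_of_pos hN0 κ) hK
  have hb0' : 0 < b0 := by
    have : (0 : ℝ) < b0 := lt_of_lt_of_le (Real.rpow_pos_of_pos hN0 κ) hb0
    exact_mod_cast this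
  have hw1 : (N : ℝ) ^ κ ≤ ((j - (j - b0) : ℕ) : ℝ) := by
    have e1 : j - (j - b0) = b0 := by omega
    rw [e1]
    exact hb0
  have hw2 : (N : ℝ) ^ κ ≤ ((j + b0 - (j - b0) : ℕ) : ℝ) := by
    refine hb0.trans ?_
    exact_mod_cast (by omega : b0 ≤ j + b0 - (j - b0))
  obtain ⟨M', hM'⟩ : ∃ M' : ℝ, M' = M + 2 * B + 1 := ⟨_, rfl⟩
  have hT := hN₄ N k4 B D M' hB hD hBs (by rw [hM']; linarith)
  obtain ⟨E₁, hE₁⟩ : ∃ E₁ : ℝ, E₁ = 2 * D * eW B M' (Real.exp ((N : ℝ) ^ (aM / 2))) (Real.exp (-(N : ℝ) ^ c1)) (B / 2)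
    (Real.exp (-(N : ℝ) ^ a₁)) + (B / 2) ^ 2 * (2 * D) * (Real.exp (-(N : ℝ) ^ c1) + Real.exp (-(N : ℝ) ^ c2)) := ⟨_, rfl⟩
  have hE₁' : 2 * E₁ ≤ D * Real.exp (-(N : ℝ) ^ c'') := by
    have q1 : 0 ≤ 2 * D * ((B / 2) ^ 2 * (2 * Real.exp (2 * B + 5 * M' - 5 * (2 * M')))) := by positivity
    have q2 : E₁ ≤ D * Real.exp (-(N : ℝ) ^ c') := by
      rw [hE₁]
      refine le_trans ?_ hT
      have e : (B / 2) ^ 2 * (2 * D) * (Real.exp (-(N : ℝ) ^ c1) + Real.exp (-(N : ℝ) ^ c2)) =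
        2 * (B / 2) ^ 2 * D * (Real.exp (-(N : ℝ) ^ c1) + Real.exp (-(N : ℝ) ^ c2)) := by ring
      rw [e]
      linarith
    rw [one_mul, Real.rpow_zero, mul_one] at g2
    have q3 : Real.exp (-(N : ℝ) ^ c') ≤ 1 / 8 * Real.exp (-(N : ℝ) ^ c'') := by linarith
    have q4 := mul_le_mul_of_nonneg_left q3 hD
    have q5 : 0 ≤ D * Real.exp (-(N : ℝ) ^ c'') := mul_nonneg hD (Real.exp_pos _).le
    have q6 : D * (1 / 8 * Real.exp (-(N : ℝ) ^ c'')) = 1 / 8 * (D * Real.exp (-(N : ℝ) ^ c'')) := by ring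
    rw [q6] at q4
    linarith
  have hX0 : 0 ≤ (N : ℝ) ^ K' := Real.rpow_nonneg hN0.le _
  have hNε : 0 ≤ (N : ℝ) ^ ε := Real.rpow_nonneg hN0.le _
  -- the rows
  have hys : ∀ y ∈ Ico y₀ (y₀ + n), y ≤ N := fun y hy' => by
    rw [mem_Ico] at hy'
    omega
  have hsp : ∀ y, Sp72 (Pn N y) m1 D c0 K (f y) := fun y => T72.sp72_of_cls hf hme (by omega : c0 + K ≤ e) y
  have hR : ∀ y ∈ Ico y₀ (y₀ + n), RD61 μ s N (Pn N y) γ B b0 j t c0 K ε K' := fun y hy' => by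
    have hyc := hcone y hy'
    have hy0 : |(y : ℝ) - sl μ s * N| ≤ (N : ℝ) ^ δ₀ * wd' μ s N :=
      hyc.trans (mul_le_mul_of_nonneg_right (Real.rpow_le_rpow_of_exponent_le hNR (min_le_left _ _)) w0)
    exact ⟨fun F δ h0 h1 U hU => hN₁ N k1 _ (Or.inr ⟨y, hys y hy', hy0, rfl⟩) c0 K hc hK hcK B hB hBe U hU F δ h0 h1,
      fun r hr => Pool.W7d29a1.C0.H27.fam_Pn hr y, hB, ht1, by omega, hcK⟩
  obtain ⟨a, ha⟩ : ∃ a : ℕ → ℝ, a = fun y => cP45 μ s N (Pn N y) (Ev61 μ s N y b0 b j m (2 * M)) m0 m1 (f y) := ⟨_, rfl⟩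
  obtain ⟨q, hq⟩ : ∃ q : ℕ → ℝ, q = fun y => cP45 μ s N (Pn N y) (Eq61 μ s N y γ B b0 b j m (c0 + K) (dl / 4) (2 * M)) m0 m1 (f y) :=
    ⟨_, rfl⟩
  obtain ⟨V1, hV1⟩ : ∃ V1 : ℕ → ℝ, V1 = fun y => pV61 μ s N γ B b0 b j t u m0 m1 f y (fun ω S =>
        T2 (wm μ s N (Pn N y) ω) (pJ 0 m) (j - b) (j - b0) (j + b0) (j + b) (M + 2 * B + 1) S ∧
          nP45 μ s N (Pn N y) γ B b0 j t dl c0 K ω S) := ⟨_, rfl⟩
  obtain ⟨V2, hV2⟩ : ∃ V2 : ℕ → ℝ, V2 = fun y => pV61 μ s N γ B b0 b j t u m0 m1 f y (fun ω S =>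
        T2 (wf45 μ s N (Pn N y) γ B b0 j ω) (pJ 0 m) (j - b) (j - b0) (j + b0) (j + b) (M + 2 * B) S ∧
          nM45 μ s N (Pn N y) γ B b0 j t (dl / 2) c0 K ω S) := ⟨_, rfl⟩
  have hV1' : ∀ y ∈ Ico y₀ (y₀ + n), V1 y ≤ (B / 2) ^ 2 * ((N : ℝ) ^ ε * (a y + (N : ℝ) ^ (-K'))) + E₁ := fun y hy' => by
    have hne := ne_Pn (hys y hy')
    have hy2 : |(y : ℝ) - sl μ s * N| ≤ (N : ℝ) ^ δ₂ * wd' μ s N :=
      (hcone y hy').trans (mul_le_mul_of_nonneg_right (Real.rpow_le_rpow_of_exponent_le hNR (min_le_right _ _)) w0)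
    have h1 := corner61 (κ := κ) (δ₁ := δ₁) (c' := c1) (ε' := aM / 2) (ϑ := Real.exp (-(N : ℝ) ^ a₁)) (P1 := Real.exp (-(N : ℝ) ^ c1))
      (P2 := Real.exp (-(N : ℝ) ^ c2)) (hR y hy') hu1 hf hb (by omega) hw1 hb0 hm hm0 hm01 hme hDN hdl.le hdl1 M' (Real.exp_pos _).le
      (hN₂ N k2) (hN₃ N k3 y (hys y hy') hy2 (j - b0) (j + b0) hw2 (by omega)) (Real.exp_pos _).le (Real.exp_pos _).le
    have h2 := cP_mono61 (μ := μ) (s := s) (hsp y) (meas_Ev61 (μ := μ) (s := s) (b0 := b0) (b := b) (j := j) (m := m) (M' + 4 * B))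
      (meas_Ev61 (2 * M)) (fun ω S h => mono_Ev61 (by rw [hM']; linarith) ω S h) m0
    have h3 : cP45 μ s N (Pn N y) (fun ω S =>
        T2 (wm μ s N (Pn N y) ω) (pW b j) (j - b0) j j (j + b0) (M' + 4 * B) S ∧
          T2 (wm μ s N (Pn N y) ω) (pJ 0 m) (j - b) (j - b0) (j + b0) (j + b) (M' + 4 * B) S) m0 m1 (f y) ≤ a y := by
      rw [ha]
      exact h2
    have h4 : V1 y = pV61 μ s N γ B b0 b j t u m0 m1 f y (fun ω S =>
        T2 (wm μ s N (Pn N y) ω) (pJ 0 m) (j - b) (j - b0) (j + b0) (j + b) M' S ∧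
          nP45 μ s N (Pn N y) γ B b0 j t dl c0 K ω S) := by rw [hV1, hM']
    rw [h4]
    refine h1.trans ?_
    rw [hE₁]
    have h5 := mul_le_mul_of_nonneg_left (mul_le_mul_of_nonneg_left (add_le_add_right h3 ((N : ℝ) ^ (-K'))) hNε) (sq_nonneg (B / 2))
    linarith
  have hth : ∀ y ∈ Ico y₀ (y₀ + n), th45 μ s N (Pn N y) γ B b0 j t dl c0 K
        (fun ω => T2 (wm μ s N (Pn N y) ω) (pJ 0 m) (j - b) (j - b0) (j + b0) (j + b) M) m0 m1 (f y) ≤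
        (N : ℝ) ^ ε * (q y + (N : ℝ) ^ (-K')) + (N : ℝ) ^ K' * Real.exp (-M) := fun y hy' => by
    have hne := ne_Pn (hys y hy')
    have h1 := (hR y hy').third (M := M) hlog hdl.le hm0 hm01 (hsp y) hDN (rb_T2 (μ := μ) (s := s) (N := N) (Q := Pn N y) (c0 := c0) (K := K)
      (m := m) hm (j - b) (j - b0) (j + b0) (j + b) (θ := 2 * B / K) (D := 2 * B) (M := M) (M' := M + 4 * B) (by linarith) le_rfl
      (by linarith))
    have h2 := cP_mono61 (μ := μ) (s := s) (hsp y) (T := fun ω S => T2 (wm μ s N (Pn N y) ω) (pJ 0 m) (j - b) (j - b0) (j + b0) (j + b)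
      (M + 4 * B) S ∧ jT45 μ s N (Pn N y) γ B b0 j (c0 + K) (dl / 4) (5 * M) (fun _ _ => True) ω S)
      (T' := Eq61 μ s N y γ B b0 b j m (c0 + K) (dl / 4) (2 * M))
      (fun S => ((ev_T2 _ _ _ _ _).meas meas_wm _ S).inter (meas_jT45 _ _ _ (fun _ => MeasurableSet.const True) S))
      (meas_Eq61 _ _ _) (fun ω S h => ⟨(ev_T2 _ _ _ _ _).mono (by linarith) h.1, mono_jT61 (by linarith) ω S h.2⟩) m0
    refine h1.trans ?_
    rw [hq]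
    exact add_le_add_left (mul_le_mul_of_nonneg_left (add_le_add_left h2 _) hNε) _
  obtain ⟨dd, hdd⟩ : ∃ dd : ℝ, dd = (B / 2) ^ 2 * (N : ℝ) ^ ε := ⟨_, rfl⟩
  obtain ⟨eF, heF⟩ : ∃ eF : ℝ, eF = 2 * (1 / 2 * (B * B) * (2 * D)) / n + (3 * (Real.exp (2 * B) * ((1 / 2 * (B * B) * (2 * D) *
        (16 * Real.exp (5 * (M + 2 * B)) + 8 * K) + (2 * D * (1 / 2 * (Real.exp (4 * B) * (4 * (B * B)))) +
          1 / 2 * (B * B) * (Real.exp (2 * B) * (0 + 2 * (2 * D))))) + 2 * (1 / 2 * (B * B) * (2 * D)))) * θ +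
        4 * (1 / 2 * (B * B) * (2 * D)) * ε') := ⟨_, rfl⟩
  obtain ⟨cc, hcc⟩ : ∃ cc : ℝ, cc = (B / 2) ^ 2 * ((N : ℝ) ^ ε * (N : ℝ) ^ (-K') + (N : ℝ) ^ K' * Real.exp (-M)) +
    (B / 2) ^ 2 * (2 * D) * eT B M := ⟨_, rfl⟩
  have hne : (Ico y₀ (y₀ + n)).Nonempty := ⟨y₀, mem_Ico.2 ⟨le_rfl, by omega⟩⟩
  have hL : avy (Ico y₀ (y₀ + n)) (fun y => ∫ ω, rep 2 (wj μ s N (Pn N y) γ B b0 j ω t)
      (rX μ s N γ B b0 b j t u y f m0 m1 m ω) ∂(Pm μ N)) ≤ avy (Ico y₀ (y₀ + n)) fun y => (V1 y + V2 y) + (cc + dd * q y) := by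
    refine avy_mono fun y hy' => ?_
    have hney := ne_Pn (hys y hy')
    have h1 := stat61 (μ := μ) (s := s) (γ := γ) (t := t) (u := u) (j := j) (b := b) (b0 := b0) hB hb (by omega) ht1 (hsp y) m0 m M dl
    refine h1.trans ?_
    have h2 := mul_le_mul_of_nonneg_left (hth y hy') (sq_nonneg (B / 2))
    rw [hV1, hV2, hcc, hdd]
    beta_reduce
    linarith
  have e1 : avy (Ico y₀ (y₀ + n)) (fun y => (V1 y + V2 y) + (cc + dd * q y)) =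
      avy (Ico y₀ (y₀ + n)) V1 + avy (Ico y₀ (y₀ + n)) V2 + (cc + dd * avy (Ico y₀ (y₀ + n)) q) := by
    rw [avy_add _ (fun y => V1 y + V2 y) fun y => cc + dd * q y, avy_add _ V1 V2, avy_add _ (fun _ => cc) fun y => dd * q y,
      avy_const hne, avy_mul]
  have h2 : avy (Ico y₀ (y₀ + n)) V2 ≤ avy (Ico y₀ (y₀ + n)) V1 + eF := by
    have h3 := flip61 (μ := μ) (s := s) (δ := γ) (b := b) hb0' (by omega : j + b0 ≤ N) hB hb ht1 hu1 hf hcov (c0 := c0) (K := K) (m := m)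
      (m0 := m0) (m1 := m1) (by omega) (by omega) (by omega) hdl (M + 2 * B) hy hn hyN hFE
    rw [hV1, hV2, heF]
    exact h3
  have h3 : avy (Ico y₀ (y₀ + n)) V1 ≤ dd * avy (Ico y₀ (y₀ + n)) a + ((B / 2) ^ 2 * ((N : ℝ) ^ ε * (N : ℝ) ^ (-K')) + E₁) := by
    have h4 : avy (Ico y₀ (y₀ + n)) V1 ≤ avy (Ico y₀ (y₀ + n)) fun y => dd * a y + ((B / 2) ^ 2 * ((N : ℝ) ^ ε * (N : ℝ) ^ (-K')) + E₁) :=
      avy_mono fun y hy' => (hV1' y hy').trans (le_of_eq (by rw [hdd]; ring))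
    refine h4.trans (le_of_eq ?_)
    rw [avy_add _ (fun y => dd * a y) fun _ => (B / 2) ^ 2 * ((N : ℝ) ^ ε * (N : ℝ) ^ (-K')) + E₁, avy_mul, avy_const hne]
  have h5 := eF_le61 (ε := ε') (n := n) (K := K) hB hD (by linarith : 12 * B ≤ M) (by omega : K ≤ N) n1 hθ
  rw [← heF] at h5
  have h6 := eT_le61 (B := B) hD (by linarith : B ≤ M) hDN
  have h7 : 0 ≤ (B / 2) ^ 2 * ((N : ℝ) ^ ε * (N : ℝ) ^ (-K')) :=
    mul_nonneg (sq_nonneg _) (mul_nonneg hNε (Real.rpow_nonneg hN0.le _))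
  have h8 : B ^ 2 * ((N : ℝ) ^ ε * (N : ℝ) ^ (-K')) = 4 * ((B / 2) ^ 2 * ((N : ℝ) ^ ε * (N : ℝ) ^ (-K'))) := by ring
  rw [← ha, ← hq, ← hdd]
  rw [e1] at hL
  rw [hcc] at hL
  linarith

end Row

end

end Pool.Agent.W_7d29a1_C0.Rq61
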