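import Pool.Agent.W_7d29a1_C0.Rq13G
import Pool.Agent.W_7d29a1_C0.Rq61D

/-!
CURV0 (MP_7d29a1_pr), leaf E2a, the remainder, corner side, part H (helper13): THE TWO EVENTS OF `Rq61D` (helper61) AS FAMILIES. `cPE13`: the event
`Ev61` is the family `UM13`; `cPQ13`: the event `Eq61` is the level `jA7` times the own event; `lbE13`: the functional of `Eq61` at the corner is
at most the four row events (two margins, two sides) with the regions `reg13`, up to `D * exp (- N ^ c')`.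
-/

set_option autoImplicit false
set_option linter.unusedSectionVars false
set_option linter.unusedVariables false

namespace Pool.Agent.W_7d29a1_C0.Rq13

open MeasureTheory ProbabilityTheory Filter Topology Finset
open Pool.Agent.W_7d29a1_F Pool.Agent.W_7d29a1_X Pool.Agent.W_7d29a1_H
open Pool.Agent.W_7d29a1_HS (In)
open Pool.Agent.W_7d29a1_HZ (wd' EE')
open Pool.Agent.W_7d29a1_C0 Pool.Agent.W_7d29a1_C0.Mod92
open Pool.Agent.W_7d29a1_C0.MicE14 (rh rh_nonneg)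
open Pool.Agent.W_7d29a1_C0.T72 (ind72)
open Pool.Agent.W_7d29a1_C0.E2aC81 (iT T2)
open Pool.W7d29a1.C0 (gm PP)
open Pool.W7d29a1.C0.C45 (cP45 jT45 ind_and45)
open Pool.W7d29a1.C0.H7 (jA7)
open Pool.Agent.W_7d29a1_C0.Rq61 (Ev61 Eq61)

noncomputable section

variable {μ : Measure ℝ} {s : ℝ} {N : ℕ}

theorem iT_ind13 {y : ℕ} (p : Px (Pn N y) → Finset ℕ × ℕ) (a b c d : ℕ) (M : ℝ) (ω : Env × Finset ℕ) (S : Px (Pn N y)) :
    ind72 (fun ω S => T2 (wm μ s N (Pn N y) ω) p a b c d M S) ω S = iT (wm μ s N (Pn N y) ω) p a b c d M S := by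
  rfl

/-- The window event times the own event is the main family. -/
theorem cPE13 {y b0 b j m zf cc : ℕ} {M : ℝ} {f : Env × Finset ℕ → Px (Pn N y) → ℝ} :
    cP45 μ s N (Pn N y) (Ev61 μ s N y b0 b j m M) zf cc f =
      ∫ ω, PP (wm μ s N (Pn N y) ω) (fun x x' => UM13 μ s N b0 b m M j y ω x * rh zf cc (f ω) x x') ∂(Pm μ N) := by
  unfold cP45
  refine integral_congr_ae (ae_of_all _ fun ω => ?_)
  show PP _ _ = PP _ _
  congr 1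
  funext x x'
  congr 1
  have h1 := ind_and45 (fun ω S => T2 (wm μ s N (Pn N y) ω) (Base5.pW b j) (j - b0) j j (j + b0) M S)
    (fun ω S => T2 (wm μ s N (Pn N y) ω) (pJ 0 m) (j - b) (j - b0) (j + b0) (j + b) M S) ω x
  rw [iT_ind13, iT_ind13] at h1
  exact h1

/-- The own event times the levels. -/
theorem cPQ13 {y b0 b j m z zf cc : ℕ} [Nonempty (Px (Pn N y))] {γ B d M : ℝ} {f : Env × Finset ℕ → Px (Pn N y) → ℝ} :
    cP45 μ s N (Pn N y) (Eq61 μ s N y γ B b0 b j m z d M) zf cc f =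
      ∫ ω, PP (wm μ s N (Pn N y) ω) (fun x x' => jA7 μ s N (Pn N y) γ B b0 j z d (5 * M) (ind72 (fun _ _ => True) ω) ω.1 (sg ω.2 j) x *
        (iT (wm μ s N (Pn N y) ω) (pJ 0 m) (j - b) (j - b0) (j + b0) (j + b) M x * rh zf cc (f ω) x x')) ∂(Pm μ N) := by
  unfold cP45
  refine integral_congr_ae (ae_of_all _ fun ω => ?_)
  show PP _ _ = PP _ _
  congr 1
  funext x x'
  have h1 := ind_and45 (fun ω S => T2 (wm μ s N (Pn N y) ω) (pJ 0 m) (j - b) (j - b0) (j + b0) (j + b) M S)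
    (jT45 μ s N (Pn N y) γ B b0 j z d (5 * M) (fun _ _ => True)) ω x
  rw [iT_ind13] at h1
  have h2 : ind72 (jT45 μ s N (Pn N y) γ B b0 j z d (5 * M) (fun _ _ => True)) ω x =
      jA7 μ s N (Pn N y) γ B b0 j z d (5 * M) (ind72 (fun _ _ => True) ω) ω.1 (sg ω.2 j) x := by
    unfold ind72 jA7
    by_cases h : jT45 μ s N (Pn N y) γ B b0 j z d (5 * M) (fun _ _ => True) ω x
    · rw [if_pos h]
      exact (if_pos h).symm
    · rw [if_neg h]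
      exact (if_neg h).symm
  have h3 : ind72 (Eq61 μ s N y γ B b0 b j m z d M) ω x = iT (wm μ s N (Pn N y) ω) (pJ 0 m) (j - b) (j - b0) (j + b0) (j + b) M x *
      jA7 μ s N (Pn N y) γ B b0 j z d (5 * M) (ind72 (fun _ _ => True) ω) ω.1 (sg ω.2 j) x := by
    rw [← h2]
    exact h1
  rw [h3]
  ring

section Lb

variable [IsProbabilityMeasure μ]

/-- **THE LEVEL EVENT OF THE REMAINDER AT THE CORNER AGAINST FOUR ROW EVENTS.** `κ₁`: the exponent of the number of pieces `q` and of the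
thresholds; `M`: the level of the own event and of the levels; `qo`: the number of pieces of the own event. -/
theorem lbE13 {c₀ C₀ : ℝ} {n₀ : ℕ} (hIn : In μ s c₀ C₀ n₀) {κ κ₁ aM : ℝ} (hκ : 0 < κ) (hκ₁ : 0 < κ₁) (haM : 0 < aM) :
    ∃ β₀ : ℝ, 0 < β₀ ∧ ∀ γ : ℝ, 0 < γ → ∃ δ' c' : ℝ, 0 < δ' ∧ 0 < c' ∧ ∃ N₀ : ℕ,
      ∀ N : ℕ, N₀ ≤ N → ∀ y : ℕ, y ≤ N → |(y : ℝ) - sl μ s * N| ≤ ((N : ℝ) ^ δ' * wd' μ s N) →
      ∀ (B : ℝ) (b0 b j z q l : ℕ) (dd : ℝ), 0 ≤ B → B ≤ (N : ℝ) ^ β₀ → (N : ℝ) ^ κ ≤ b0 → b0 ≤ b → b ≤ j → j + b0 ≤ z →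
      6 * q * (l + 1) ≤ b0 → (N : ℝ) ^ κ₁ ≤ q → (q : ℝ) ≤ N → 0 ≤ dd → dd ≤ Real.exp (-(N : ℝ) ^ κ₁) → ∀ d M : ℝ, (N : ℝ)⁻¹ ≤ d → 8 ≤ M →
      (N : ℝ) ^ aM ≤ M → 5 * M ≤ (N : ℝ) ^ β₀ → ∀ (m m0 m1 cb e : ℕ) (D : ℝ) (f : Fam N),
      z ≤ m → m ≤ m0 → m0 ≤ m1 → m1 ≤ e → m1 ≤ N → Cls59 N cb e D f → ∀ qo τL τR lo : ℕ, 10 * M ≤ qo → (qo : ℝ) ≤ 20 * M →
      j - b ≤ τL → τL + 3 * qo * (lo + 1) ≤ j - b0 → j + b0 ≤ τR → τR + 3 * qo * (lo + 1) ≤ j + b →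
      cP45 μ s N (Pn N y) (Eq61 μ s N y γ B b0 b j m z d M) m0 m1 (f y) ≤
        ∫ ω, PP (wm μ s N (Pn N y) ω) (fun x x' => UA13 μ s N (reg13 z q l b0 j dd) m τL lo qo M y ω x * rh m0 m1 (f y ω) x x') ∂(Pm μ N) +
        ∫ ω, PP (wm μ s N (Pn N y) ω) (fun x x' => UB13 μ s N (reg13 z q l b0 j dd) m τL lo qo M y ω x * rh m0 m1 (f y ω) x x') ∂(Pm μ N) +
        (∫ ω, PP (wm μ s N (Pn N y) ω) (fun x x' => UA13 μ s N (reg13 z q l b0 j dd) m τR lo qo M y ω x * rh m0 m1 (f y ω) x x') ∂(Pm μ N) +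
        ∫ ω, PP (wm μ s N (Pn N y) ω) (fun x x' => UB13 μ s N (reg13 z q l b0 j dd) m τR lo qo M y ω x * rh m0 m1 (f y ω) x x') ∂(Pm μ N)) +
        D * Real.exp (-(N : ℝ) ^ c') := by
  obtain ⟨β₀, hβ₀, h⟩ := lb13 hIn hκ hκ₁ haM
  refine ⟨β₀, hβ₀, fun γ hγ => ?_⟩
  obtain ⟨δ', c', hδ', hc', N₀, hN₀⟩ := h γ hγ
  refine ⟨δ', c', hδ', hc', N₀, fun N hN y hy hyc B b0 b j z q l dd hB hBN hb0 hbb hbj hz hl hq hqN hdd hdd' d M hd hM8 hM h5 m m0 m1 cb e D f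
    hzm hm0 hm hme hmN hf qo τL τR lo hqo hqo' hL1 hL2 hR1 hR2 => ?_⟩
  have hne := ne_Pn hy
  rw [cPQ13]
  exact hN₀ N hN y hy hyc B b0 b j hB hBN hb0 hbj hbb (reg13 z q l b0 j dd) hz (reg_ok13 hdd (by omega) hl) hq hqN hdd' hdd' hdd' d (5 * M) hd h5
    m m0 m1 cb e D f hzm hm0 hm hme hmN hf (fun ω => ind72 (fun _ _ => True) ω) (fun ω x => E2S39.i0 _ _ _) (fun ω x => E2S39.i1 _ _ _) M hM8 hM
    qo τL τR lo hqo hqo' hL1 hL2 hR1 hR2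

end Lb

end

end Pool.Agent.W_7d29a1_C0.Rq13
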