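import Pool.Agent.W_7d29a1_C0.Rq13D
import Pool.Agent.W_7d29a1_C0.Pt4J50
import Pool.Agent.W_7d29a1_C0.Pt4P72

/-!
CURV0 (MP_7d29a1_pr), leaf E2a, the remainder, corner side, part I (helper13): THE INPUT OF THE PAIR PRICES `PT4` (helper50). `fu13`: the row
events `UL13` of `Rq13D` are functionals with a price; `sec13`: the second moment of a sum of row events from the pair prices; `sumE13`: the sum
of the prices over the distances.
-/

set_option autoImplicit false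
set_option linter.unusedSectionVars false
set_option linter.unusedVariables false

namespace Pool.Agent.W_7d29a1_C0.Rq13

open MeasureTheory ProbabilityTheory Filter Topology Finset
open Pool.Agent.W_7d29a1_F Pool.Agent.W_7d29a1_X Pool.Agent.W_7d29a1_H
open Pool.Agent.W_7d29a1_HS (In)
open Pool.Agent.W_7d29a1_HZ (wd' EE' EE'_pow)
open Pool.Agent.W_7d29a1_C0 Pool.Agent.W_7d29a1_C0.Mod92
open Pool.Agent.W_7d29a1_C0.T72 (ind72)
open Pool.Agent.W_7d29a1_C0.E2S39 (i0 i1 dom_rp)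
open Pool.Agent.W_7d29a1_C0.T93 (rdist dist_sum_le)
open Pool.Agent.W_7d29a1_C0.Pt450 (Fn Fu50)
open Pool.W7d29a1.C0 (gm gm_nonneg gm_mono gm_const)
open Pool.W7d29a1.C0.VT31
open Pool.W7d29a1.C0.R43 (Rp mI)
open Pool.W7d29a1.C0.O1 (okE)

noncomputable section

variable {μ : Measure ℝ} {s : ℝ} {N : ℕ}

theorem gm_sum13 {X ι : Type*} [Fintype X] [Nonempty X] (w : X → ℝ) (T : Finset ι) (f : ι → X → ℝ) :
    gm w (fun S => ∑ j ∈ T, f j S) = ∑ j ∈ T, gm w (f j) := by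
  unfold gm
  rw [← sum_div]
  congr 1
  rw [sum_comm]
  exact sum_congr rfl fun x _ => by rw [mul_sum]

theorem meas_rp13 {y m τ l qo : ℕ} {M : ℝ} (x : Px (Pn N y)) :
    Measurable fun ω : Env × Finset ℕ => ind72 (fun ω => Rp (wm μ s N (Pn N y) ω) (pJ 0 m) τ l qo M) ω x := by
  classical
  have : Nonempty (Px (Pn N y)) := ⟨x⟩
  unfold ind72
  refine Measurable.ite ?_ measurable_const measurable_const
  have e1' : {ω : Env × Finset ℕ | Rp (wm μ s N (Pn N y) ω) (pJ 0 m) τ l qo M x} =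
      ⋃ n ∈ range (3 * qo), {ω : Env × Finset ℕ | Real.exp (-(7 * M)) < mI (wm μ s N (Pn N y) ω) (pJ 0 m)
        (Pool.W7d29a1.C0.R43.st τ l n) (Pool.W7d29a1.C0.R43.st τ l n + l) x} := by
    ext ω
    simp only [Set.mem_ofPred_eq, Set.mem_iUnion, mem_range, exists_prop]
    rfl
  rw [e1']
  refine Finset.measurableSet_biUnion _ fun n _ => measurableSet_lt measurable_const ?_
  exact meas_cE (w := fun ω : Env × Finset ℕ => wm μ s N (Pn N y) ω) (fun S => meas_wm S) (f := fun _ => Pool.Agent.W_7d29a1_C0.Swap57.NI _ _ x)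
    (fun _ => measurable_const) _ x

/-- **The row events of the remainder are functionals with a price.** -/
theorem fu13 {y : ℕ} {X M M₂ : ℝ} (hX : 0 ≤ X) {S : Finset ℕ} {lo l q qo m : ℕ} {τ ov g0 g1 t1 t2 z : ℕ → ℕ} {dd e1 d3 : ℝ}
    (hov : ∀ j ∈ S, τ j + 3 * qo * (lo + 1) ≤ ov j ∧ ov j ≤ m) (hqo : (3 * qo : ℝ) ≤ X) (hM : 7 * M₂ ≤ X) :
    Fu50 μ s N y X M S 0 lo l l q (fun _ => m) τ ov g0 g1 t1 t2 z dd e1 d3
      (fun j => UL13 μ s N (z j) q dd e1 d3 (g0 j) (g1 j) (t1 j) l (t2 j) l m (τ j) lo qo M₂ y)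
      (fun j => ind72 fun ω => Rp (wm μ s N (Pn N y) ω) (pJ 0 m) (τ j) lo qo M₂) (fun _ _ _ => False) where
  U0 j _ ω x := UL_nonneg13 y ω x
  U1 j _ ω x := UL_le_one13 y ω x
  Um j _ x := meas_UL13 y x
  ok j _ ω x hU := by
    intro hk
    refine hU ?_
    show ind72 (fun ω x => ¬ okE (wm μ s N (Pn N y) ω) (pJ 0 (z j)) (fun _ => False) q dd e1 d3 (g0 j) (g1 j) (t1 j) l (t2 j) l x) ω x *
      ind72 (fun ω => Rp (wm μ s N (Pn N y) ω) (pJ 0 m) (τ j) lo qo M₂) ω x = 0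
    have h1 : ind72 (fun ω x => ¬ okE (wm μ s N (Pn N y) ω) (pJ 0 (z j)) (fun _ => False) q dd e1 d3 (g0 j) (g1 j) (t1 j) l (t2 j) l x) ω x = 0 :=
      if_neg (not_not.2 hk)
    rw [h1, zero_mul]
  ow j _ ω x _ := by
    show ind72 (fun ω x => ¬ okE (wm μ s N (Pn N y) ω) (pJ 0 (z j)) (fun _ => False) q dd e1 d3 (g0 j) (g1 j) (t1 j) l (t2 j) l x) ω x *
      ind72 (fun ω => Rp (wm μ s N (Pn N y) ω) (pJ 0 m) (τ j) lo qo M₂) ω x ≤
      ind72 (fun ω => Rp (wm μ s N (Pn N y) ω) (pJ 0 m) (τ j) lo qo M₂) ω x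
    exact mul_le_of_le_one_left (i0 _ _ _) (i1 _ _ _)
  dG j hj := by
    obtain ⟨h1, h2⟩ := hov j hj
    exact ⟨.L, dom_rp hX (Nat.zero_le _) h2 le_rfl h1 hqo hM⟩
  mG j _ x := meas_rp13 x

section Sec

variable [IsProbabilityMeasure μ]

/-- **The second moment of a sum of row events** from the prices of the pairs. -/
theorem sec13 {y : ℕ} (hy : y ≤ N) {S : Finset ℕ} {U : ℕ → Fn N y} (U0 : ∀ j ∈ S, ∀ ω x, 0 ≤ U j ω x) (U1 : ∀ j ∈ S, ∀ ω x, U j ω x ≤ 1)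
    (Um : ∀ j ∈ S, ∀ x, Measurable fun ω => U j ω x) {c r : ℕ} (hS : ∀ j ∈ S, c ≤ j ∧ j < c + r) {φ : ℕ → ℝ} (hφ : ∀ D, 0 ≤ φ D)
    (hp : ∀ j ∈ S, ∀ k ∈ S, ∫ ω, gm (wm μ s N (Pn N y) ω) (fun x => U j ω x * U k ω x) ∂(Pm μ N) ≤ φ (rdist j k)) :
    ∫ ω, gm (wm μ s N (Pn N y) ω) (fun x => (∑ j ∈ S, U j ω x) ^ 2) ∂(Pm μ N) ≤ r * (2 * ∑ D ∈ range r, φ D) := by
  have := ne_Pn hy
  have hint : ∀ j ∈ S, ∀ k ∈ S, Integrable (fun ω => gm (wm μ s N (Pn N y) ω) (fun x => U j ω x * U k ω x)) (Pm μ N) := fun j hj k hk => by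
    refine int_bdd (M := 1) (meas_gm (fun S => meas_wm S) fun x => (Um j hj x).mul (Um k hk x)) fun ω => ?_
    have h0 : 0 ≤ gm (wm μ s N (Pn N y) ω) (fun x => U j ω x * U k ω x) := gm_nonneg _ fun x => mul_nonneg (U0 j hj ω x) (U0 k hk ω x)
    have h1 : gm (wm μ s N (Pn N y) ω) (fun x => U j ω x * U k ω x) ≤ 1 := by
      have := gm_mono (wm μ s N (Pn N y) ω) (f := fun x => U j ω x * U k ω x) (g := fun _ => (1 : ℝ))
        fun x => mul_le_one₀ (U1 j hj ω x) (U0 k hk ω x) (U1 k hk ω x)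
      rwa [gm_const] at this
    show |gm (wm μ s N (Pn N y) ω) (fun x => U j ω x * U k ω x)| ≤ 1
    rw [abs_of_nonneg h0]
    exact h1
  have e1 : ∀ ω, gm (wm μ s N (Pn N y) ω) (fun x => (∑ j ∈ S, U j ω x) ^ 2) =
      ∑ j ∈ S, ∑ k ∈ S, gm (wm μ s N (Pn N y) ω) (fun x => U j ω x * U k ω x) := fun ω => by
    have e2 : (fun x => (∑ j ∈ S, U j ω x) ^ 2) = fun x => ∑ j ∈ S, ∑ k ∈ S, U j ω x * U k ω x := by
      funext x
      rw [pow_two, Finset.sum_mul_sum]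
    rw [e2, gm_sum13]
    exact sum_congr rfl fun j _ => gm_sum13 _ _ _
  have e3 : ∫ ω, gm (wm μ s N (Pn N y) ω) (fun x => (∑ j ∈ S, U j ω x) ^ 2) ∂(Pm μ N) =
      ∑ j ∈ S, ∑ k ∈ S, ∫ ω, gm (wm μ s N (Pn N y) ω) (fun x => U j ω x * U k ω x) ∂(Pm μ N) := by
    rw [integral_congr_ae (ae_of_all _ e1), integral_finsetSum _ fun j hj => integrable_finsetSum _ fun k hk => hint j hj k hk]
    exact sum_congr rfl fun j hj => integral_finsetSum _ fun k hk => hint j hj k hk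
  rw [e3]
  refine (dist_sum_le hS hφ hp).trans ?_
  have h1 : (S.card : ℝ) ≤ r := by
    have h2 : S ⊆ Ico c (c + r) := fun j hj => mem_Ico.2 (hS j hj)
    have h3 := card_le_card h2
    rw [Nat.card_Ico, Nat.add_sub_cancel_left] at h3
    exact_mod_cast h3
  exact mul_le_mul_of_nonneg_right h1 (mul_nonneg (by norm_num) (sum_nonneg fun D _ => hφ D))

end Sec

/-! ### The sum over the distances -/

theorem sum_sqrt13 (c : ℝ) (hc : 0 ≤ c) (n : ℕ) : ∑ m ∈ range n, c / √(m : ℝ) ≤ 2 * c * √(n : ℝ) := by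
  have key : ∀ M : ℕ, ∑ m ∈ range (M + 1), c / √(m : ℝ) ≤ 2 * c * √(M : ℝ) := by
    intro M
    induction M with
    | zero =>
      rw [zero_add, Finset.sum_range_one]
      simp
    | succ M ih =>
      rw [Finset.sum_range_succ]
      obtain ⟨s, hs⟩ : ∃ s : ℝ, s = √((M + 1 : ℕ) : ℝ) := ⟨_, rfl⟩
      obtain ⟨t, ht⟩ : ∃ t : ℝ, t = √(M : ℝ) := ⟨_, rfl⟩
      rw [← ht] at ih
      rw [← hs]
      have hs2 : s * s = (M : ℝ) + 1 := by
        rw [hs, Real.mul_self_sqrt (by positivity)]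
        push_cast
        ring
      have ht2 : t * t = (M : ℝ) := by
        rw [ht, Real.mul_self_sqrt (by positivity)]
      have hs0 : 0 < s := by
        rw [hs]
        exact Real.sqrt_pos.2 (by positivity)
      have h1 : 1 / s ≤ 2 * (s - t) := by
        rw [div_le_iff₀ hs0]
        nlinarith [sq_nonneg (s - t)]
      have h2 : c / s = c * (1 / s) := by ring
      rw [h2]
      have h3 := mul_le_mul_of_nonneg_left h1 hc
      nlinarith [h3]
  rcases Nat.eq_zero_or_pos n with h0 | h0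
  · subst h0
    simp
  · obtain ⟨M, rfl⟩ : ∃ M, n = M + 1 := ⟨n - 1, by omega⟩
    refine (key M).trans ?_
    refine mul_le_mul_of_nonneg_left (Real.sqrt_le_sqrt ?_) (by positivity)
    push_cast
    linarith

/-- **The sum of the prices of the shared lane over the distances.** -/
theorem sumE13 [IsProbabilityMeasure μ] {c₀ C₀ : ℝ} {n₀ : ℕ} (h : In μ s c₀ C₀ n₀) :
    ∃ C : ℝ, 1 ≤ C ∧ ∀ r : ℕ, 1 ≤ r → ∑ D ∈ range r, (EE' μ s (D / 64))⁻¹ ≤ C * (r * (EE' μ s r)⁻¹) := by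
  obtain ⟨a, K, -, -, hK, hpow⟩ := EE'_pow h
  have hE : ∀ n, 1 ≤ EE' μ s n := fun n => le_max_left _ _
  have hE1 := hE 1
  refine ⟨64 * K * EE' μ s 1 + 24 * K, by nlinarith, fun r hr => ?_⟩
  have hEr := hE r
  have hEr0 : 0 < EE' μ s r := by linarith
  have hr1 : (1 : ℝ) ≤ r := by exact_mod_cast hr
  have hr0 : (0 : ℝ) < r := by linarith
  have hsr : √(r : ℝ) * √(r : ℝ) = r := Real.mul_self_sqrt hr0.le
  have hsr1 : 1 ≤ √(r : ℝ) := by
    rw [show (1 : ℝ) = √1 by simp]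
    exact Real.sqrt_le_sqrt hr1
  have hterm : ∀ D ∈ range r, (EE' μ s (D / 64))⁻¹ ≤ (if D < 64 then 1 else 0) + (12 * K * (EE' μ s r)⁻¹ * √(r : ℝ)) / √(D : ℝ) := by
    intro D hD
    have hDr := mem_range.1 hD
    have h0 : 0 ≤ (12 * K * (EE' μ s r)⁻¹ * √(r : ℝ)) / √(D : ℝ) := by positivity
    by_cases hD64 : D < 64
    · rw [if_pos hD64]
      have := inv_le_one_of_one_le₀ (hE (D / 64))
      linarith
    · rw [if_neg hD64, zero_add]
      obtain ⟨k, hk⟩ : ∃ k, k = D / 64 := ⟨_, rfl⟩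
      rw [← hk]
      have k1 : 1 ≤ k := by omega
      have k2 : k ≤ r := by omega
      have k3 : D ≤ 128 * k := by omega
      have hk1 : (1 : ℝ) ≤ k := by exact_mod_cast k1
      have hk0 : (0 : ℝ) < k := by linarith
      have hD0 : (0 : ℝ) < D := by
        have : 0 < D := by omega
        exact_mod_cast this
      have hDk : (D : ℝ) ≤ 128 * k := by exact_mod_cast k3
      have e1 := (hpow k r k1 k2).2.2
      have e2 : √((r : ℝ) / k) ≤ 12 * (√(r : ℝ) / √(D : ℝ)) := by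
        rw [Real.sqrt_le_left (by positivity)]
        rw [mul_pow, div_pow, Real.sq_sqrt hr0.le, Real.sq_sqrt hD0.le, div_le_iff₀ hk0]
        have e3 : (12 : ℝ) ^ 2 * (r / D) * k = r * (144 * k / D) := by ring
        rw [e3]
        have e4 : 1 ≤ 144 * (k : ℝ) / D := by
          rw [one_le_div hD0]
          linarith
        exact le_mul_of_one_le_right hr0.le e4
      have hEk := hE k
      have hEk0 : 0 < EE' μ s k := by linarith
      rw [inv_eq_one_div, div_le_iff₀ hEk0]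
      have e5 : EE' μ s r ≤ K * (12 * (√(r : ℝ) / √(D : ℝ))) * EE' μ s k :=
        e1.trans (mul_le_mul_of_nonneg_right (mul_le_mul_of_nonneg_left e2 (by linarith)) hEk0.le)
      have e6 : (12 * K * (EE' μ s r)⁻¹ * √(r : ℝ)) / √(D : ℝ) * EE' μ s k =
          (EE' μ s r)⁻¹ * (K * (12 * (√(r : ℝ) / √(D : ℝ))) * EE' μ s k) := by ring
      rw [e6]
      calc (1 : ℝ) = (EE' μ s r)⁻¹ * EE' μ s r := (inv_mul_cancel₀ hEr0.ne').symm
        _ ≤ _ := mul_le_mul_of_nonneg_left e5 (inv_nonneg.2 hEr0.le)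
  refine (sum_le_sum hterm).trans ?_
  rw [sum_add_distrib]
  have s1 : ∑ D ∈ range r, (if D < 64 then (1 : ℝ) else 0) ≤ 64 := by
    rw [← sum_filter, sum_const, nsmul_eq_mul, mul_one]
    have h1 : (range r).filter (fun D => D < 64) ⊆ range 64 := fun D hD => mem_range.2 (mem_filter.1 hD).2
    have h2 := card_le_card h1
    rw [card_range] at h2
    exact_mod_cast h2
  have s2 := sum_sqrt13 (12 * K * (EE' μ s r)⁻¹ * √(r : ℝ)) (by positivity) r
  have s3 : 2 * (12 * K * (EE' μ s r)⁻¹ * √(r : ℝ)) * √(r : ℝ) = 24 * K * (r * (EE' μ s r)⁻¹) := by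
    calc _ = 24 * K * (EE' μ s r)⁻¹ * (√(r : ℝ) * √(r : ℝ)) := by ring
      _ = _ := by rw [hsr]; ring
  have s4 : (64 : ℝ) ≤ 64 * K * EE' μ s 1 * (r * (EE' μ s r)⁻¹) := by
    have e1 := (hpow 1 r le_rfl hr).2.2
    rw [Nat.cast_one, div_one] at e1
    have e2 : EE' μ s r ≤ K * r * EE' μ s 1 := by
      refine e1.trans ?_
      refine mul_le_mul_of_nonneg_right (mul_le_mul_of_nonneg_left ?_ (by linarith)) (by linarith)
      calc √(r : ℝ) = 1 * √(r : ℝ) := (one_mul _).symm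
        _ ≤ √(r : ℝ) * √(r : ℝ) := mul_le_mul_of_nonneg_right hsr1 (by linarith)
        _ = r := hsr
    have e3 : (1 : ℝ) ≤ K * r * EE' μ s 1 * (EE' μ s r)⁻¹ := by
      calc (1 : ℝ) = EE' μ s r * (EE' μ s r)⁻¹ := (mul_inv_cancel₀ hEr0.ne').symm
        _ ≤ _ := mul_le_mul_of_nonneg_right e2 (inv_nonneg.2 hEr0.le)
    calc (64 : ℝ) = 64 * 1 := by norm_num
      _ ≤ 64 * (K * r * EE' μ s 1 * (EE' μ s r)⁻¹) := mul_le_mul_of_nonneg_left e3 (by norm_num)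
      _ = _ := by ring
  rw [s3] at s2
  have s5 : (64 * K * EE' μ s 1 + 24 * K) * (r * (EE' μ s r)⁻¹) = 64 * K * EE' μ s 1 * (r * (EE' μ s r)⁻¹) + 24 * K * (r * (EE' μ s r)⁻¹) := by ring
  rw [s5]
  linarith

end

end Pool.Agent.W_7d29a1_C0.Rq13
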