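import Pool.Agent.W_7d29a1_C0.Rq13I

/-!
CURV0 (MP_7d29a1_pr), leaf E2a, the remainder, corner side, part J (helper13): THE SECOND MOMENT OF THE FAMILIES OF THE LEVELS FROM THE PAIR PRICES.
`yl13`: the row events `UL13` with the regions of helper81's `rg81`, in terms of the sum of the prices over the distances; `numY13`: the sum.
-/

set_option autoImplicit false
set_option linter.unusedSectionVars false
set_option linter.unusedVariables false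

namespace Pool.Agent.W_7d29a1_C0.Rq13

open MeasureTheory ProbabilityTheory Filter Topology Finset
open Pool.Agent.W_7d29a1_F Pool.Agent.W_7d29a1_X Pool.Agent.W_7d29a1_H
open Pool.Agent.W_7d29a1_HS (In)
open Pool.Agent.W_7d29a1_HZ (wd' EE' EE'_pow wd'_pow)
open Pool.Agent.W_7d29a1_C0 Pool.Agent.W_7d29a1_C0.Mod92
open Pool.Agent.W_7d29a1_C0.T93 (rdist)
open Pool.Agent.W_7d29a1_C0.Pt450 (Fn Fu50 Geo50 Pk50 phT phT_nonneg pair50_one po er)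
open Pool.W7d29a1.C0 (gm)
open Pool.W7d29a1.C0.O1 (en)

noncomputable section

variable {μ : Measure ℝ} {s : ℝ} {N : ℕ}

section Yl

variable [IsProbabilityMeasure μ]

/-- **THE SECOND MOMENT OF THE ROW EVENTS OF THE LEVELS** against the prices of the pairs. -/
theorem yl13 {y : ℕ} {ε θ κ M' e R : ℝ} (hP : Pk50 μ s ε θ κ N {y} M' e) {b0 b l lo q qo m r ρ : ℕ} {S : Finset ℕ}
    (hS : ∀ j ∈ S, r ≤ j ∧ j < r + ρ ∧ b < j ∧ j + b ≤ m) (hmN : m ≤ N) (h16 : 16 * b0 ≤ b) (hl0 : l ≤ b0) (hb0 : 1 ≤ b0) (hlo : l ≤ lo)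
    (hq1 : 1 ≤ q) {t1 t2 τ : ℕ → ℕ} (ht : ∀ j ∈ S, j - b0 ≤ t2 j ∧ t2 j + 3 * q * (l + 1) ≤ t1 j ∧ t1 j + 3 * q * (l + 1) ≤ j + b0)
    (ho : ∀ j ∈ S, (j - b ≤ τ j ∧ τ j + 3 * qo * (lo + 1) ≤ j - b / 2) ∨ (j + b / 2 ≤ τ j ∧ τ j + 3 * qo * (lo + 1) ≤ j + b))
    (hl : (N : ℝ) ^ θ ≤ l) (hR : 1 ≤ R) (hwd : ∀ i : ℕ, 1 ≤ i → i ≤ b → wd' μ s i ≤ R * wd' μ s l) (hq : 3 * (q : ℝ) ≤ (N : ℝ) ^ κ)
    {dd : ℝ} (hdd : Real.exp (-(N : ℝ) ^ κ) ≤ dd) {M₂ : ℝ} (hqo : (3 * qo : ℝ) ≤ (N : ℝ) ^ κ) (hM : 7 * M₂ ≤ (N : ℝ) ^ κ) :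
    ∫ ω, gm (wm μ s N (Pn N y) ω) (fun x => (∑ j ∈ S, UL13 μ s N (j + b0 + b / 16) q dd dd dd (j - b / 2) (j - b0) (t1 j) l (t2 j) l m
      (τ j) lo qo M₂ y ω x) ^ 2) ∂(Pm μ N) ≤ ρ * (2 * ∑ D ∈ range ρ, phT μ s N ε R e 1 b l D) := by
  have hy : y ≤ N := hP.yN y (mem_singleton_self y)
  have G : Geo50 S N m 0 b l lo l l q b (fun _ => m) τ (fun j => τ j + 3 * qo * (lo + 1)) (fun j => j - b / 2) (fun j => j - b0) t1 t2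
      (fun j => j + b0 + b / 16) := by
    refine ⟨by omega, by omega, hlo, le_rfl, le_rfl, hq1, hmN, fun j hj => ?_, fun j hj => ?_, fun j hj => ?_, fun j hj => ?_⟩
    · obtain ⟨-, -, h3, -⟩ := hS j hj
      exact ⟨h3, Nat.zero_le _⟩
    · obtain ⟨-, -, h3, h4⟩ := hS j hj
      obtain ⟨h5, h6, h7⟩ := ht j hj
      unfold en
      refine ⟨by omega, by omega, h5, h6, by omega, by omega, by omega, ?_⟩
      show j + b0 + b / 16 - t2 j ≤ b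
      omega
    · obtain ⟨-, -, h3, h4⟩ := hS j hj
      rcases ho j hj with ⟨h5, h6⟩ | ⟨h5, h6⟩
      · exact Or.inl ⟨h5, Nat.le_add_right _ _, h6⟩
      · refine Or.inr ⟨?_, Nat.le_add_right _ _, h6⟩
        show j + b0 + b / 16 ≤ τ j
        omega
    · obtain ⟨-, -, h3, h4⟩ := hS j hj
      refine ⟨?_, le_rfl⟩
      show τ j + 3 * qo * (lo + 1) ≤ m
      rcases ho j hj with ⟨h5, h6⟩ | ⟨h5, h6⟩ <;> omega
  have hX : (0 : ℝ) ≤ (N : ℝ) ^ κ := Real.rpow_nonneg (Nat.cast_nonneg _) _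
  have F := fu13 (μ := μ) (s := s) (N := N) (y := y) (X := (N : ℝ) ^ κ) (M := M') (M₂ := M₂) hX (S := S) (lo := lo) (l := l) (q := q)
    (qo := qo) (m := m) (τ := τ) (ov := fun j => τ j + 3 * qo * (lo + 1)) (g0 := fun j => j - b / 2) (g1 := fun j => j - b0) (t1 := t1)
    (t2 := t2) (z := fun j => j + b0 + b / 16) (dd := dd) (e1 := dd) (d3 := dd) (fun j hj => by
      obtain ⟨-, -, h3, h4⟩ := hS j hj
      refine ⟨le_rfl, ?_⟩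
      show τ j + 3 * qo * (lo + 1) ≤ m
      rcases ho j hj with ⟨h5, h6⟩ | ⟨h5, h6⟩ <;> omega) hqo hM
  have pair := pair50_one hP G hl hR hwd hq hdd hdd hdd (mem_singleton_self y) F
  exact sec13 (μ := μ) (s := s) hy F.U0 F.U1 F.Um (c := r) (r := ρ) (fun j hj => ⟨(hS j hj).1, (hS j hj).2.1⟩)
    (fun D => phT_nonneg zero_le_one hP.e0 (zero_le_one.trans hR) b l D) pair

end Yl

/-! ### The numbers -/

/-- The sum of the prices over the distances, as numbers: `A` absorbs the constants, `x = 1 / E l`, `u0 = 1 / E b0`, `ub = 1 / E b`,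
`ur = 1 / E ρ`. -/
theorem num13 {A R x u0 ub ur C e b ρ Sg N2 : ℝ} (hA : 20 ≤ A) (hR : R ≤ A ^ 2) (hR0 : 0 ≤ R) (hx0 : 0 ≤ x) (hx1 : x ≤ 1) (hxu : x ≤ A ^ 2 * u0)
    (hxb : x ≤ A ^ 2 * ub) (hu0 : 0 ≤ u0) (hub : 0 ≤ ub) (hur : 0 ≤ ur) (hC0 : 0 ≤ C) (hC : C ≤ A) (hSg : Sg ≤ C * (ρ * ur)) (hSg0 : 0 ≤ Sg)
    (hρ : 0 ≤ ρ) (hb : 0 ≤ b) (he : 0 ≤ e) (hρN : ρ ≤ N2) (hbN : b ≤ N2) (hAN : A ^ 22 ≤ N2) (hN1 : 1 ≤ N2) :
    ρ * (2 * (64 * b * ((2 * (A * x) + (R * (A * x)) ^ 2) + 3 * e) + ρ * (12 * R ^ 4 * (A * x) ^ 4) + 12 * R ^ 4 * (A * x) ^ 2 * (A * Sg) +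
      ρ * (23 * (R ^ 4 * A ^ 5 * e)))) ≤
    A ^ 22 * (ρ * b * u0 + (ρ ^ 2 * (u0 * ub) ^ 2 + ρ ^ 2 * ur * (u0 * u0))) + 430 * N2 ^ 3 * e := by
  have hA0 : 0 < A := by linarith
  have hA1 : 1 ≤ A := by linarith
  have hR4 : R ^ 4 ≤ A ^ 8 := by
    calc R ^ 4 ≤ (A ^ 2) ^ 4 := pow_le_pow_left₀ hR0 hR 4
      _ = A ^ 8 := by ring
  have hx2 : x ^ 2 ≤ A ^ 4 * u0 ^ 2 := by
    calc x ^ 2 ≤ (A ^ 2 * u0) ^ 2 := pow_le_pow_left₀ hx0 hxu 2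
      _ = A ^ 4 * u0 ^ 2 := by ring
  have hx4 : x ^ 4 ≤ A ^ 8 * (u0 * ub) ^ 2 := by
    have h1 : x ^ 2 ≤ A ^ 4 * ub ^ 2 := by
      calc x ^ 2 ≤ (A ^ 2 * ub) ^ 2 := pow_le_pow_left₀ hx0 hxb 2
        _ = A ^ 4 * ub ^ 2 := by ring
    calc x ^ 4 = x ^ 2 * x ^ 2 := by ring
      _ ≤ (A ^ 4 * u0 ^ 2) * (A ^ 4 * ub ^ 2) := mul_le_mul hx2 h1 (by positivity) (by positivity)
      _ = _ := by ring
  -- near rows
  have n1 : 2 * (A * x) + (R * (A * x)) ^ 2 ≤ 3 * A ^ 8 * u0 := by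
    have a1 : A * x ≤ A ^ 3 * u0 := by
      calc A * x ≤ A * (A ^ 2 * u0) := mul_le_mul_of_nonneg_left hxu hA0.le
        _ = _ := by ring
    have a2 : A ^ 3 * u0 ≤ A ^ 8 * u0 := mul_le_mul_of_nonneg_right (pow_le_pow_right₀ hA1 (by norm_num)) hu0
    have a3 : (R * (A * x)) ^ 2 ≤ A ^ 8 * u0 := by
      have c1 : R ^ 2 ≤ A ^ 4 := by
        calc R ^ 2 ≤ (A ^ 2) ^ 2 := pow_le_pow_left₀ hR0 hR 2
          _ = A ^ 4 := by ring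
      calc (R * (A * x)) ^ 2 = R ^ 2 * (A ^ 2 * (x * x)) := by ring
        _ ≤ A ^ 4 * (A ^ 2 * (1 * (A ^ 2 * u0))) := by gcongr
        _ = A ^ 8 * u0 := by ring
    linarith
  have n2 : R ^ 4 * (A * x) ^ 4 ≤ A ^ 20 * (u0 * ub) ^ 2 := by
    calc R ^ 4 * (A * x) ^ 4 = R ^ 4 * (A ^ 4 * x ^ 4) := by ring
      _ ≤ A ^ 8 * (A ^ 4 * (A ^ 8 * (u0 * ub) ^ 2)) := by gcongr
      _ = _ := by ring
  have n3 : R ^ 4 * (A * x) ^ 2 * (A * Sg) ≤ A ^ 20 * (ρ * (ur * (u0 * u0))) := by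
    calc R ^ 4 * (A * x) ^ 2 * (A * Sg) = R ^ 4 * (A ^ 2 * x ^ 2) * (A * Sg) := by ring
      _ ≤ A ^ 8 * (A ^ 2 * (A ^ 4 * u0 ^ 2)) * (A * (A * (ρ * ur))) := by
          have c1 : Sg ≤ A * (ρ * ur) := hSg.trans (mul_le_mul_of_nonneg_right hC (by positivity))
          gcongr
      _ = A ^ 16 * (ρ * (ur * (u0 * u0))) := by ring
      _ ≤ A ^ 20 * (ρ * (ur * (u0 * u0))) := mul_le_mul_of_nonneg_right (pow_le_pow_right₀ hA1 (by norm_num)) (by positivity)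
  have n4 : R ^ 4 * A ^ 5 * e ≤ N2 * e := by
    refine mul_le_mul_of_nonneg_right ?_ he
    calc R ^ 4 * A ^ 5 ≤ A ^ 8 * A ^ 5 := mul_le_mul_of_nonneg_right hR4 (by positivity)
      _ = A ^ 13 := by ring
      _ ≤ A ^ 22 := pow_le_pow_right₀ hA1 (by norm_num)
      _ ≤ N2 := hAN
  have hA2 : (24 : ℝ) ≤ A ^ 2 := by nlinarith
  have m1 : 384 * A ^ 8 ≤ A ^ 22 := by
    have c1 : (384 : ℝ) ≤ A ^ 14 := by
      calc (384 : ℝ) ≤ 20 ^ 2 := by norm_num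
        _ ≤ A ^ 2 := pow_le_pow_left₀ (by norm_num) hA 2
        _ ≤ A ^ 14 := pow_le_pow_right₀ hA1 (by norm_num)
    calc 384 * A ^ 8 ≤ A ^ 14 * A ^ 8 := mul_le_mul_of_nonneg_right c1 (by positivity)
      _ = A ^ 22 := by ring
  have m2 : 24 * A ^ 20 ≤ A ^ 22 := by
    calc 24 * A ^ 20 ≤ A ^ 2 * A ^ 20 := mul_le_mul_of_nonneg_right hA2 (by positivity)
      _ = A ^ 22 := by ring
  -- the four parts
  have q1 : ρ * b * (128 * (2 * (A * x) + (R * (A * x)) ^ 2)) ≤ A ^ 22 * (ρ * b * u0) := by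
    calc ρ * b * (128 * (2 * (A * x) + (R * (A * x)) ^ 2)) ≤ ρ * b * (128 * (3 * A ^ 8 * u0)) := by gcongr
      _ = 384 * A ^ 8 * (ρ * b * u0) := by ring
      _ ≤ A ^ 22 * (ρ * b * u0) := mul_le_mul_of_nonneg_right m1 (by positivity)
  have q2 : ρ ^ 2 * (24 * (R ^ 4 * (A * x) ^ 4)) ≤ A ^ 22 * (ρ ^ 2 * (u0 * ub) ^ 2) := by
    calc ρ ^ 2 * (24 * (R ^ 4 * (A * x) ^ 4)) ≤ ρ ^ 2 * (24 * (A ^ 20 * (u0 * ub) ^ 2)) := by gcongr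
      _ = 24 * A ^ 20 * (ρ ^ 2 * (u0 * ub) ^ 2) := by ring
      _ ≤ _ := mul_le_mul_of_nonneg_right m2 (by positivity)
  have q3 : ρ * (24 * (R ^ 4 * (A * x) ^ 2 * (A * Sg))) ≤ A ^ 22 * (ρ ^ 2 * ur * (u0 * u0)) := by
    calc ρ * (24 * (R ^ 4 * (A * x) ^ 2 * (A * Sg))) ≤ ρ * (24 * (A ^ 20 * (ρ * (ur * (u0 * u0))))) := by gcongr
      _ = 24 * A ^ 20 * (ρ ^ 2 * ur * (u0 * u0)) := by ring
      _ ≤ _ := mul_le_mul_of_nonneg_right m2 (by positivity)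
  have q4 : ρ * (384 * b * e) + ρ ^ 2 * (46 * (R ^ 4 * A ^ 5 * e)) ≤ 430 * N2 ^ 3 * e := by
    have c1 : ρ * (384 * b * e) ≤ 384 * N2 ^ 3 * e := by
      calc ρ * (384 * b * e) ≤ N2 * (384 * N2 * e) := by gcongr
        _ = 384 * N2 ^ 2 * e := by ring
        _ ≤ 384 * N2 ^ 3 * e := by
            have : N2 ^ 2 ≤ N2 ^ 3 := pow_le_pow_right₀ hN1 (by norm_num)
            gcongr
    have c2 : ρ ^ 2 * (46 * (R ^ 4 * A ^ 5 * e)) ≤ 46 * N2 ^ 3 * e := by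
      calc ρ ^ 2 * (46 * (R ^ 4 * A ^ 5 * e)) ≤ N2 ^ 2 * (46 * (N2 * e)) := by gcongr
        _ = _ := by ring
    linarith
  calc _ = ρ * b * (128 * (2 * (A * x) + (R * (A * x)) ^ 2)) + ρ ^ 2 * (24 * (R ^ 4 * (A * x) ^ 4)) +
        ρ * (24 * (R ^ 4 * (A * x) ^ 2 * (A * Sg))) + (ρ * (384 * b * e) + ρ ^ 2 * (46 * (R ^ 4 * A ^ 5 * e))) := by ring
    _ ≤ A ^ 22 * (ρ * b * u0) + A ^ 22 * (ρ ^ 2 * (u0 * ub) ^ 2) + A ^ 22 * (ρ ^ 2 * ur * (u0 * u0)) + 430 * N2 ^ 3 * e :=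
        add_le_add (add_le_add (add_le_add q1 q2) q3) q4
    _ = _ := by ring

/-- The sum of the prices over the distances. -/
theorem sumPh13 {ε R e : ℝ} (he : 0 ≤ e) (hR : 0 ≤ R) (b l ρ : ℕ) :
    ∑ D ∈ range ρ, phT μ s N ε R e 1 b l D ≤ 64 * b * ((2 * ((N : ℝ) ^ ε * (EE' μ s l)⁻¹) + (R * ((N : ℝ) ^ ε * (EE' μ s l)⁻¹)) ^ 2) + 3 * e) +
      ρ * (12 * R ^ 4 * ((N : ℝ) ^ ε * (EE' μ s l)⁻¹) ^ 4) + 12 * R ^ 4 * ((N : ℝ) ^ ε * (EE' μ s l)⁻¹) ^ 2 *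
        ((N : ℝ) ^ ε * ∑ D ∈ range ρ, (EE' μ s (D / 64))⁻¹) + ρ * (23 * (R ^ 4 * ((N : ℝ) ^ ε) ^ 5 * e)) := by
  obtain ⟨P, hPd⟩ : ∃ P : ℝ, P = (N : ℝ) ^ ε * (EE' μ s l)⁻¹ := ⟨_, rfl⟩
  have hNε : (0 : ℝ) ≤ (N : ℝ) ^ ε := Real.rpow_nonneg (Nat.cast_nonneg _) _
  have hE : ∀ n, 0 ≤ (EE' μ s n)⁻¹ := fun n => inv_nonneg.2 (zero_le_one.trans (le_max_left _ _))
  have hP0 : 0 ≤ P := by rw [hPd]; exact mul_nonneg hNε (hE l)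
  rw [← hPd]
  have e1 : ∀ D, phT μ s N ε R e 1 b l D = (if D < 64 * b then ((2 * P + (R * P) ^ 2) + 3 * e) else 0) + 12 * R ^ 4 * P ^ 4 +
      12 * R ^ 4 * P ^ 2 * ((N : ℝ) ^ ε * (EE' μ s (D / 64))⁻¹) + 23 * (R ^ 4 * ((N : ℝ) ^ ε) ^ 5 * e) := fun D => by
    unfold phT po er
    rw [← hPd]
    split_ifs <;> ring
  simp only [e1]
  rw [sum_add_distrib, sum_add_distrib, sum_add_distrib, sum_const, sum_const, card_range, nsmul_eq_mul, nsmul_eq_mul, ← mul_sum, ← mul_sum]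
  have h1 : ∑ D ∈ range ρ, (if D < 64 * b then ((2 * P + (R * P) ^ 2) + 3 * e) else 0) ≤ 64 * b * ((2 * P + (R * P) ^ 2) + 3 * e) := by
    rw [← sum_filter, sum_const, nsmul_eq_mul]
    refine mul_le_mul_of_nonneg_right ?_ (by positivity)
    have h1 : (range ρ).filter (fun D => D < 64 * b) ⊆ range (64 * b) := fun D hD => mem_range.2 (mem_filter.1 hD).2
    have h2 := card_le_card h1
    rw [card_range] at h2
    exact_mod_cast h2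
  linarith

end

end Pool.Agent.W_7d29a1_C0.Rq13
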