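import Pool.Agent.W_7d29a1_C0.Rq13J
import Pool.Agent.W_7d29a1_C0.RqR81

/-!
CURV0 (MP_7d29a1_pr), leaf E2a, the remainder, corner side, part K (helper13): THE SECOND MOMENTS OF THE FOUR FAMILIES OF THE LEVELS (`ym4_13`),
with the letters of `RqR81` (helper81), from `In` alone.
-/

set_option autoImplicit false
set_option linter.unusedSectionVars false
set_option linter.unusedVariables false

namespace Pool.Agent.W_7d29a1_C0.Rq13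

open MeasureTheory ProbabilityTheory Filter Topology Finset
open Pool.Agent.W_7d29a1_F Pool.Agent.W_7d29a1_X Pool.Agent.W_7d29a1_H
open Pool.Agent.W_7d29a1_HS (In)
open Pool.Agent.W_7d29a1_HZ (wd' EE' EE'_pow wd'_pow)
open Pool.Agent.W_7d29a1_C0 Pool.Agent.W_7d29a1_C0.Mod92
open Pool.Agent.W_7d29a1_C0.Pt450 (Pk50 phT pk50_of)
open Pool.Agent.W_7d29a1_C0.RqB81 (q81 l81 d81 rg81 U81)
open Pool.W7d29a1.C0 (gm)

noncomputable section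

variable {μ : Measure ℝ} {s : ℝ} {N : ℕ}

/-! ### The letters -/

theorem q81_pos {M : ℝ} (hM : 0 < M) : 1 ≤ q81 M := by
  unfold q81
  exact Nat.ceil_pos.2 (by linarith)

theorem q81_le {M : ℝ} (hM : 1 ≤ M) : (q81 M : ℝ) ≤ 11 * M := by
  unfold q81
  have := (Nat.ceil_lt_add_one (show 0 ≤ 10 * M by linarith)).le
  linarith

theorem q81_mono {M M1 : ℝ} (h : M ≤ M1) : q81 M ≤ q81 M1 := Nat.ceil_mono (by linarith)

theorem l81_fit {b : ℕ} {M : ℝ} (hl : 1 ≤ l81 b M) : 6 * q81 M * (l81 b M + 1) ≤ b := by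
  unfold l81 at hl ⊢
  have h1 : b / (6 * q81 M) - 1 + 1 = b / (6 * q81 M) := by omega
  rw [h1]
  exact Nat.mul_div_le b (6 * q81 M)

theorem l81_mono {b0 b : ℕ} {M M1 : ℝ} (hM : 0 < M) (h : M ≤ M1) (hb : b0 ≤ b) : l81 b0 M1 ≤ l81 b M := by
  unfold l81
  have h1 := q81_mono h
  have h2 := q81_pos hM
  have h3 : b0 / (6 * q81 M1) ≤ b / (6 * q81 M) :=
    (Nat.div_le_div_right hb).trans (Nat.div_le_div_left (by omega) (by omega))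
  omega

section Main

variable [IsProbabilityMeasure μ] {c₀ C₀ : ℝ} {n₀ : ℕ}

/-- The families `1 .. 4` of `U81` are row events of the levels. -/
theorem U81_cases {b0 b m : ℕ} {M1 M : ℝ} {k : ℕ} (hk : k < 4) : ∃ t1 t2 τ : ℕ → ℕ,
    (∀ j y ω x, U81 μ s N b0 b m M1 M (k + 1) j y ω x = UL13 μ s N (j + b0 + b / 16) (q81 M1) (d81 M1) (d81 M1) (d81 M1) (j - b / 2) (j - b0)
      (t1 j) (l81 b0 M1) (t2 j) (l81 b0 M1) m (τ j) (l81 b M) (q81 M) M y ω x) ∧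
    ((∀ j, t1 j = j - b0 / 2 ∧ t2 j = j - b0) ∨ ∀ j, t1 j = j + b0 / 2 ∧ t2 j = j) ∧ ((∀ j, τ j = j - b) ∨ ∀ j, τ j = j + b / 2) := by
  obtain rfl | rfl | rfl | rfl : k = 0 ∨ k = 1 ∨ k = 2 ∨ k = 3 := by omega
  · exact ⟨fun j => j - b0 / 2, fun j => j - b0, fun j => j - b, fun j y ω x => rfl, Or.inl fun j => ⟨rfl, rfl⟩, Or.inl fun j => rfl⟩
  · exact ⟨fun j => j + b0 / 2, fun j => j, fun j => j - b, fun j y ω x => rfl, Or.inr fun j => ⟨rfl, rfl⟩, Or.inl fun j => rfl⟩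
  · exact ⟨fun j => j - b0 / 2, fun j => j - b0, fun j => j + b / 2, fun j y ω x => rfl, Or.inl fun j => ⟨rfl, rfl⟩, Or.inr fun j => rfl⟩
  · exact ⟨fun j => j + b0 / 2, fun j => j, fun j => j + b / 2, fun j y ω x => rfl, Or.inr fun j => ⟨rfl, rfl⟩, Or.inr fun j => rfl⟩

/-- **THE SECOND MOMENTS OF THE FOUR FAMILIES OF THE LEVELS.** -/
theorem ym4_13 (h : In μ s c₀ C₀ n₀) : ∀ ε θ : ℝ, 0 < ε → 0 < θ → ∃ δ κ c₂ : ℝ, 0 < δ ∧ 0 < κ ∧ 0 < c₂ ∧ ∃ L₀ : ℕ,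
    ∀ N : ℕ, L₀ ≤ N → ∀ y : ℕ, y ≤ N → |(y : ℝ) - sl μ s * N| ≤ ((N : ℝ) ^ δ * wd' μ s N) →
    ∀ (b0 b m r ρ : ℕ) (M1 M : ℝ), 8 ≤ M → M ≤ M1 → 90 * M1 ≤ (N : ℝ) ^ κ → (N : ℝ) ^ θ ≤ (l81 b0 M1 : ℝ) →
    (b : ℝ) ≤ (N : ℝ) ^ κ * (l81 b0 M1 : ℝ) → 16 * b0 ≤ b → b ≤ ρ → ρ ≤ N → m ≤ N →
    ∀ S : Finset ℕ, (∀ j ∈ S, r ≤ j ∧ j < r + ρ ∧ b < j ∧ j + b ≤ m) → ∀ k < 4,
    ∫ ω, gm (wm μ s N (Pn N y) ω) (fun x => (∑ j ∈ S, U81 μ s N b0 b m M1 M (k + 1) j y ω x) ^ 2) ∂(Pm μ N) ≤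
      (N : ℝ) ^ ε * (ρ * b * (EE' μ s b0)⁻¹ + ((ρ : ℝ) ^ 2 * ((EE' μ s b0)⁻¹ * (EE' μ s b)⁻¹) ^ 2 +
        (ρ : ℝ) ^ 2 * (EE' μ s ρ)⁻¹ * ((EE' μ s b0)⁻¹ * (EE' μ s b0)⁻¹))) + Real.exp (-(N : ℝ) ^ c₂) := by
  intro ε θ hε hθ
  obtain ⟨ε₁, hε₁⟩ : ∃ ε₁ : ℝ, ε₁ = min ε 1 / 22 := ⟨_, rfl⟩
  have hε₁0 : 0 < ε₁ := by
    rw [hε₁]
    have : 0 < min ε 1 := lt_min hε one_pos
    positivity
  obtain ⟨δ, κp, cp, hδ, hκp, hcp, N₁, hP⟩ := pk50_of h ε₁ θ hε₁0 hθ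
  obtain ⟨aw, Kw, haw, haw1, hKw, hw⟩ := wd'_pow h
  obtain ⟨ae, Ke, -, -, hKe, hEp⟩ := EE'_pow h
  obtain ⟨C, hC1, hC⟩ := sumE13 h
  obtain ⟨κ, hκd⟩ : ∃ κ : ℝ, κ = min κp ε₁ := ⟨_, rfl⟩
  obtain ⟨c3, hc3d⟩ : ∃ c3 : ℝ, c3 = min cp κp := ⟨_, rfl⟩
  have hκ0 : 0 < κ := by rw [hκd]; exact lt_min hκp hε₁0
  have hc30 : 0 < c3 := by rw [hc3d]; exact lt_min hcp hκp
  have E1 := Pool.Agent.W_7d29a1_HZ.Z74.ev_exp (A := 7310) (a := 1) (by norm_num) one_pos hc30 (by linarith : c3 / 2 < c3) 3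
  obtain ⟨L1, hL1⟩ := eventually_atTop.1 E1
  obtain ⟨L2, hL2⟩ := Pool.Agent.W_7d29a1_Z.NumI77.large hε₁0 (max (max 20 Kw) (max Ke C))
  obtain ⟨L3, hL3⟩ := Pool.Agent.W_7d29a1_Z.NumI77.large hκp 8
  refine ⟨δ, κ, c3 / 2, hδ, hκ0, by positivity, max (max N₁ L1) (max L2 L3), fun N hN y hy hyc b0 b m r ρ M1 M hM8 hMM h90 hθl hbl h16 hbρ
    hρN hmN S hS k hk => ?_⟩
  have g0 : N₁ ≤ N := (le_max_left _ _).trans ((le_max_left _ _).trans hN)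
  have g1 := hL1 N ((le_max_right _ _).trans ((le_max_left _ _).trans hN))
  obtain ⟨n1, g2, -⟩ := hL2 N ((le_max_left _ _).trans ((le_max_right _ _).trans hN))
  obtain ⟨-, g3, -⟩ := hL3 N ((le_max_right _ _).trans ((le_max_right _ _).trans hN))
  have hNR : (1 : ℝ) ≤ N := by exact_mod_cast n1
  have hN0 : (0 : ℝ) < N := by linarith
  obtain ⟨A, hAd⟩ : ∃ A : ℝ, A = (N : ℝ) ^ ε₁ := ⟨_, rfl⟩
  rw [← hAd] at g2
  have A20 : 20 ≤ A := ((le_max_left _ _).trans (le_max_left _ _)).trans g2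
  have AKw : Kw ≤ A := ((le_max_right _ _).trans (le_max_left _ _)).trans g2
  have AKe : Ke ≤ A := ((le_max_left _ _).trans (le_max_right _ _)).trans g2
  have AC : C ≤ A := ((le_max_right _ _).trans (le_max_right _ _)).trans g2
  have hA0 : 0 < A := by linarith
  have hκp' : (N : ℝ) ^ κ ≤ (N : ℝ) ^ κp := Real.rpow_le_rpow_of_exponent_le hNR (by rw [hκd]; exact min_le_left _ _)
  have hκA : (N : ℝ) ^ κ ≤ A := by
    rw [hAd]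
    exact Real.rpow_le_rpow_of_exponent_le hNR (by rw [hκd]; exact min_le_right _ _)
  have hκ1 : 1 ≤ (N : ℝ) ^ κ := Real.one_le_rpow hNR hκ0.le
  -- the letters
  have hM0 : 0 < M := by linarith
  have hM10 : 0 < M1 := by linarith
  obtain ⟨l, hl⟩ : ∃ l, l = l81 b0 M1 := ⟨_, rfl⟩
  obtain ⟨q, hq⟩ : ∃ q, q = q81 M1 := ⟨_, rfl⟩
  obtain ⟨lo, hlo⟩ : ∃ lo, lo = l81 b M := ⟨_, rfl⟩
  obtain ⟨qo, hqo⟩ : ∃ qo, qo = q81 M := ⟨_, rfl⟩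
  have hl1 : 1 ≤ l := by
    have h1 : (1 : ℝ) ≤ (l : ℝ) := by
      rw [hl]
      exact (Real.one_le_rpow hNR hθ.le).trans hθl
    exact_mod_cast h1
  have hllo : l ≤ lo := by
    rw [hl, hlo]
    exact l81_mono hM0 hMM (by omega)
  have hfit : 6 * q * (l + 1) ≤ b0 := by
    rw [hq, hl]
    exact l81_fit (by rw [← hl]; exact hl1)
  have hfit' : 6 * qo * (lo + 1) ≤ b := by
    rw [hqo, hlo]
    exact l81_fit (by rw [← hlo]; omega)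
  have hq1 : 1 ≤ q := by rw [hq]; exact q81_pos hM10
  have hlb0 : l ≤ b0 := by
    have h1 : 1 * (l + 1) ≤ 6 * q * (l + 1) := Nat.mul_le_mul_right _ (by omega)
    omega
  have hf2 : 3 * q * (l + 1) ≤ b0 / 2 := by
    have h1 : 6 * q * (l + 1) = 2 * (3 * q * (l + 1)) := by ring
    omega
  have hf2' : 3 * qo * (lo + 1) ≤ b / 2 := by
    have h1 : 6 * qo * (lo + 1) = 2 * (3 * qo * (lo + 1)) := by ring
    omega
  have hqR : 3 * (q : ℝ) ≤ (N : ℝ) ^ κp := by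
    have h1 : (q : ℝ) ≤ 11 * M1 := by rw [hq]; exact q81_le (by linarith)
    linarith
  have hqoR : (3 * qo : ℝ) ≤ (N : ℝ) ^ κp := by
    have h1 : (qo : ℝ) ≤ 11 * M := by rw [hqo]; exact q81_le (by linarith)
    linarith
  have hdd : Real.exp (-(N : ℝ) ^ κp) ≤ d81 M1 := by
    unfold d81
    exact Real.exp_le_exp.2 (by linarith)
  have hl0R : (0 : ℝ) < l := by
    have : 0 < l := by omega
    exact_mod_cast this
  rw [← hl] at hθl hbl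
  -- the widths
  have hwd0 : ∀ n, 0 ≤ wd' μ s n := fun n => zero_le_one.trans (le_max_left _ _)
  have hwd : ∀ i : ℕ, 1 ≤ i → i ≤ b → wd' μ s i ≤ Kw * (N : ℝ) ^ κ * wd' μ s l := fun i i1 i2 => by
    rcases le_total i l with hi | hi
    · refine (hw i l i1 hi).1.trans (mul_le_mul_of_nonneg_right ?_ (hwd0 _))
      exact le_mul_of_one_le_right (by linarith) hκ1
    · refine (hw l i hl1 hi).2.2.trans (mul_le_mul_of_nonneg_right (mul_le_mul_of_nonneg_left ?_ (by linarith)) (hwd0 _))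
      have q1 : (1 : ℝ) ≤ (i : ℝ) / l := by
        rw [one_le_div hl0R]
        exact_mod_cast hi
      have q2 : (i : ℝ) / l ≤ (N : ℝ) ^ κ := by
        rw [div_le_iff₀ hl0R]
        exact le_trans (by exact_mod_cast i2) hbl
      calc ((i : ℝ) / l) ^ (1 - aw) ≤ ((i : ℝ) / l) ^ (1 : ℝ) := Real.rpow_le_rpow_of_exponent_le q1 (by linarith)
        _ = (i : ℝ) / l := Real.rpow_one _
        _ ≤ _ := q2
  have hR1 : 1 ≤ Kw * (N : ℝ) ^ κ := one_le_mul_of_one_le_of_one_le hKw hκ1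
  have hRA : Kw * (N : ℝ) ^ κ ≤ A ^ 2 := by
    rw [pow_two]
    exact mul_le_mul AKw hκA (by linarith) hA0.le
  -- the second moment
  have hPk := hP N g0 {y} (fun y' hy' => by
    rw [mem_singleton] at hy'
    rw [hy']
    exact ⟨hy, hyc⟩) ((N : ℝ) ^ κp) g3 le_rfl
  obtain ⟨e, hed⟩ : ∃ e : ℝ, e = Real.exp (-(N : ℝ) ^ cp) + 16 * Real.exp (-(N : ℝ) ^ κp) := ⟨_, rfl⟩
  rw [← hed] at hPk
  have he0 : 0 ≤ e := hPk.e0
  obtain ⟨t1, t2, τ, hU, ht, hτ⟩ := U81_cases (μ := μ) (s := s) (N := N) (b0 := b0) (b := b) (m := m) (M1 := M1) (M := M) hk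
  have key := yl13 (lo := lo) (qo := qo) (m := m) (r := r) (ρ := ρ) (b0 := b0) (b := b) (l := l) (q := q) (dd := d81 M1) (M₂ := M) hPk hS hmN h16
    hlb0 (by omega) hllo hq1 (t1 := t1) (t2 := t2) (τ := τ) (fun j hj => by
      obtain ⟨-, -, h3, h4⟩ := hS j hj
      rcases ht with ht | ht <;> rw [(ht j).1, (ht j).2] <;> refine ⟨?_, ?_, ?_⟩ <;> omega) (fun j hj => by
      obtain ⟨-, -, h3, h4⟩ := hS j hj
      rcases hτ with hτ | hτ <;> rw [hτ j]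
      · refine Or.inl ⟨le_rfl, ?_⟩
        omega
      · refine Or.inr ⟨le_rfl, ?_⟩
        omega) hθl hR1 hwd hqR hdd hqoR (by linarith)
  have e1 : ∀ ω x, (∑ j ∈ S, U81 μ s N b0 b m M1 M (k + 1) j y ω x) = ∑ j ∈ S, UL13 μ s N (j + b0 + b / 16) q (d81 M1) (d81 M1) (d81 M1)
      (j - b / 2) (j - b0) (t1 j) l (t2 j) l m (τ j) lo qo M y ω x := fun ω x => sum_congr rfl fun j _ => by
    rw [hU, hq, hl, hlo, hqo]
  simp only [e1]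
  refine key.trans ?_
  -- the numbers
  have hE : ∀ n, 1 ≤ EE' μ s n := fun n => le_max_left _ _
  have hE0 : ∀ n, 0 < EE' μ s n := fun n => lt_of_lt_of_le one_pos (hE n)
  have hEi : ∀ n, 0 ≤ (EE' μ s n)⁻¹ := fun n => inv_nonneg.2 (hE0 n).le
  have hcmp : ∀ n : ℕ, l ≤ n → n ≤ b → (EE' μ s l)⁻¹ ≤ A ^ 2 * (EE' μ s n)⁻¹ := fun n h1 h2 => by
    have a1 := (hEp l n hl1 h1).2.2
    have a2 : Real.sqrt ((n : ℝ) / l) ≤ A := by
      have q1 : (1 : ℝ) ≤ (n : ℝ) / l := by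
        rw [one_le_div hl0R]
        exact_mod_cast h1
      have q2 : (n : ℝ) / l ≤ (N : ℝ) ^ κ := by
        rw [div_le_iff₀ hl0R]
        exact le_trans (by exact_mod_cast h2) hbl
      have q3 : Real.sqrt ((n : ℝ) / l) ≤ (n : ℝ) / l := by
        rw [Real.sqrt_le_left (by linarith)]
        exact le_self_pow₀ q1 (by norm_num)
      exact q3.trans (q2.trans hκA)
    have a3 : EE' μ s n ≤ A ^ 2 * EE' μ s l := by
      refine a1.trans (mul_le_mul_of_nonneg_right ?_ (hE0 l).le)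
      rw [pow_two]
      exact mul_le_mul AKe a2 (Real.sqrt_nonneg _) hA0.le
    rw [inv_eq_one_div, div_le_iff₀ (hE0 l)]
    calc (1 : ℝ) = EE' μ s n * (EE' μ s n)⁻¹ := (mul_inv_cancel₀ (hE0 n).ne').symm
      _ ≤ A ^ 2 * EE' μ s l * (EE' μ s n)⁻¹ := mul_le_mul_of_nonneg_right a3 (hEi n)
      _ = A ^ 2 * (EE' μ s n)⁻¹ * EE' μ s l := by ring
  have hρ1 : 1 ≤ ρ := by omega
  have hsg := hC ρ hρ1
  have hph := sumPh13 (μ := μ) (s := s) (N := N) (ε := ε₁) (R := Kw * (N : ℝ) ^ κ) (e := e) he0 (by linarith) b l ρ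
  rw [← hAd] at hph
  have hA22 : A ^ 22 = (N : ℝ) ^ (min ε 1) := by
    rw [hAd, ← Real.rpow_natCast, ← Real.rpow_mul hN0.le, hε₁]
    congr 1
    push_cast
    ring
  have hA22N : A ^ 22 ≤ N := by
    rw [hA22]
    exact (Real.rpow_le_rpow_of_exponent_le hNR (min_le_right _ _)).trans (by rw [Real.rpow_one])
  have hA22ε : A ^ 22 ≤ (N : ℝ) ^ ε := by
    rw [hA22]
    exact Real.rpow_le_rpow_of_exponent_le hNR (min_le_left _ _)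
  have hρR : (0 : ℝ) ≤ ρ := Nat.cast_nonneg _
  have hbR : (0 : ℝ) ≤ b := Nat.cast_nonneg _
  have hSg0 : 0 ≤ ∑ D ∈ range ρ, (EE' μ s (D / 64))⁻¹ := sum_nonneg fun D _ => hEi _
  have hn := num13 (A := A) (R := Kw * (N : ℝ) ^ κ) (x := (EE' μ s l)⁻¹) (u0 := (EE' μ s b0)⁻¹) (ub := (EE' μ s b)⁻¹) (ur := (EE' μ s ρ)⁻¹)
    (C := C) (e := e) (b := b) (ρ := ρ) (Sg := ∑ D ∈ range ρ, (EE' μ s (D / 64))⁻¹) (N2 := N) A20 hRA (by linarith) (hEi l)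
    (inv_le_one_of_one_le₀ (hE l)) (hcmp b0 hlb0 (by omega)) (hcmp b (by omega) le_rfl) (hEi _) (hEi _) (hEi _) (by linarith) AC hsg hSg0 hρR hbR he0
    (by exact_mod_cast hρN) (by exact_mod_cast hbρ.trans hρN) hA22N hNR
  have hmain : ρ * (2 * ∑ D ∈ range ρ, phT μ s N ε₁ (Kw * (N : ℝ) ^ κ) e 1 b l D) ≤
      A ^ 22 * (ρ * b * (EE' μ s b0)⁻¹ + ((ρ : ℝ) ^ 2 * ((EE' μ s b0)⁻¹ * (EE' μ s b)⁻¹) ^ 2 +
        (ρ : ℝ) ^ 2 * (EE' μ s ρ)⁻¹ * ((EE' μ s b0)⁻¹ * (EE' μ s b0)⁻¹))) + 430 * (N : ℝ) ^ 3 * e :=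
    (mul_le_mul_of_nonneg_left (mul_le_mul_of_nonneg_left hph (by norm_num)) hρR).trans hn
  refine hmain.trans (add_le_add (mul_le_mul_of_nonneg_right hA22ε ?_) ?_)
  · have h1 := hEi b0
    have h2 := hEi b
    have h3 := hEi ρ
    positivity
  · have f1 : e ≤ 17 * Real.exp (-(N : ℝ) ^ c3) := by
      have a1 : Real.exp (-(N : ℝ) ^ cp) ≤ Real.exp (-(N : ℝ) ^ c3) := Real.exp_le_exp.2 (neg_le_neg
        (Real.rpow_le_rpow_of_exponent_le hNR (by rw [hc3d]; exact min_le_left _ _)))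
      have a2 : Real.exp (-(N : ℝ) ^ κp) ≤ Real.exp (-(N : ℝ) ^ c3) := Real.exp_le_exp.2 (neg_le_neg
        (Real.rpow_le_rpow_of_exponent_le hNR (by rw [hc3d]; exact min_le_right _ _)))
      rw [hed]
      linarith
    rw [Real.rpow_ofNat, one_mul] at g1
    have f2 : 430 * (N : ℝ) ^ 3 * e ≤ 430 * (N : ℝ) ^ 3 * (17 * Real.exp (-(N : ℝ) ^ c3)) := mul_le_mul_of_nonneg_left f1 (by positivity)
    have f3 := Real.exp_pos (-(N : ℝ) ^ (c3 / 2))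
    linarith

end Main

end

end Pool.Agent.W_7d29a1_C0.Rq13
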