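import Pool.Agent.W_7d29a1_C0.E2aD81
import Pool.Agent.W_7d29a1_C0.Cor45H

/-!
MP_7d29a1_pr, [CURV0] / [C0], leaf E2a, THE REMAINDER (RQ), LAW SIDE (helper61), part 1: the static terms of one row.

`ev_T2`: the own event is robust. `RD61`: the data of one row (`E0D` for two replicas). `RD61.third`: the part whose level is missed at both
corners, in terms of `jA7`. `rep_rX`: the remainder as a two replica mean; `own61`: the own mass replaced by its event.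
-/

set_option autoImplicit false
set_option linter.unusedSectionVars false
set_option linter.unusedVariables false

namespace Pool.Agent.W_7d29a1_C0.Rq61

open Finset MeasureTheory Filter Topology Pool.Agent.W_7d29a1_F Pool.Agent.W_7d29a1_X Pool.Agent.W_7d29a1_C0.Mod92
open Pool.Agent.W_7d29a1_C0 Pool.Agent.W_7d29a1_C0.Swap57 Pool.Agent.W_7d29a1_C0.Blk18 Pool.Agent.W_7d29a1_C0.NM82
open Pool.Agent.W_7d29a1_C0.MicE14 (rh rh_nonneg nn Cq)
open Pool.Agent.W_7d29a1_C0.CutT57 (NI_congr NI_le_one)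
open Pool.Agent.W_7d29a1_C0.T72 (Sp72 Rb72 ind72 ind72_nonneg ind72_le_one meas_ind72 meas_fix crs_pB72 ps_of_pB72 uj72 abs_uj72
  meas_uj72 tA_uj72 pA_ut72 wj_eq72)
open Pool.W7d29a1.C0 (gz gm gz_ne gz_pos gm_nonneg gm_mono gm_const PP PP_eq PP_mono PP_nonneg PP_add PP_smul rep rep_two_PP)
open Pool.W7d29a1.C0.VT31
open Pool.W7d29a1.C0.R43 (Tau TauM mI mI_nonneg cE2_mI cE_tilt tauM_meas mI_le_one tauM_self tauM_tilt MxQ)
open Pool.W7d29a1.C0.H7 (E0D NL7 HL7 Ms7 iM7 jA7 jA7_01)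
open Pool.W7d29a1.C0.H27 (pB slb PA tA)
open Pool.W7d29a1.C0.C45
open Pool.Agent.W_7d29a1_C0.E2aC81 (iT iT_nonneg iT_le_one iT_Mp T2 mq_T2 eW mM_T2 eT)
open Pool.Agent.W_7d29a1_C0.E2a81 (mM mM_nonneg mM_le)
open Pool.Agent.W_7d29a1_C0.E2aB81 (VN RV abs_VN)
open Pool.Agent.W_7d29a1_C0.E2aM82 (vX rX meas_vA)
open Pool.Agent.W_7d29a1_C0.E2aD81 (rh_le81)
open Pool.Agent.W_7d29a1_C0.Base5 (pW)

noncomputable section

/-! ### The own event -/

section Ev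

variable {μ : Measure ℝ} {s : ℝ} {N : ℕ} {Q : Finset (Finset ℕ)} [IsProbabilityMeasure μ] [SwQ Q] [MxQ Q] [Nonempty (Px Q)] {c0 K : ℕ}

/-- The own event is robust. -/
theorem ev_T2 {Y : Type*} [DecidableEq Y] (p : Px Q → Y) (c al be d : ℕ) : Ev45 fun w M => T2 w p c al be d M where
  tilt {w w' D M M'} hA hM S h := by
    rcases h with h | h
    · exact Or.inl ((tauM_self _ _ _ _ _ _).1 ((Ev45.tau p p c al).tilt hA hM S ((tauM_self _ _ _ _ _ _).2 h)))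
    · exact Or.inr ((tauM_self _ _ _ _ _ _).1 ((Ev45.tau p p be d).tilt hA hM S ((tauM_self _ _ _ _ _ _).2 h)))
  meas {w} hw M S := by
    have h1 := (Ev45.tau p p c al).meas hw M S
    have h2 := (Ev45.tau p p be d).meas hw M S
    have e : {ω | T2 (w ω) p c al be d M S} = {ω | TauM (w ω) p p c al M S} ∪ {ω | TauM (w ω) p p be d M S} := by
      ext ω
      simp only [Set.mem_union, Set.mem_setOf_eq, tauM_self]
      exact Iff.rfl
    rw [e]
    exact h1.union h2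

theorem ind_iT {Y : Type*} [DecidableEq Y] (w : Env × Finset ℕ → Px Q → ℝ) (p : Px Q → Y) (c al be d : ℕ) (M : ℝ) (ω : Env × Finset ℕ)
    (S : Px Q) : ind72 (fun ω => T2 (w ω) p c al be d M) ω S = iT (w ω) p c al be d M S := rfl

/-- The own event is told from the path behind the slab. -/
theorem rb_T2 {m : ℕ} (hm : c0 + K ≤ m) (c al be d : ℕ) {θ D M M' : ℝ} (hD : 0 ≤ D) (hθ : θ ≤ D / K) (hM : M + 2 * D ≤ M') :
    Rb72 Q c0 K θ (fun ω => T2 (wm μ s N Q ω) (pJ 0 m) c al be d M) fun ω => T2 (wm μ s N Q ω) (pJ 0 m) c al be d M' := by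
  have h := (ev_T2 (Q := Q) (pJ 0 m) c al be d).rbW (μ := μ) (s := s) (N := N) (c0 := c0) (K := K) hD hθ hM
  refine ⟨h.meas, h.meas', fun ω S S' e => ?_, h.rob⟩
  have e1 : pJ 0 m S = pJ 0 m S' := crs_pB72 hm S S' e
  have k : ∀ i k : ℕ, Tau (wm μ s N Q ω) (pJ 0 m) i k M S ↔ Tau (wm μ s N Q ω) (pJ 0 m) i k M S' := fun i k => by
    rw [← tauM_self, ← tauM_self]
    exact tauM_meas _ _ _ _ _ _ e1
  unfold T2
  rw [k, k]

end Ev

/-! ### The data of one row -/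

/-- **The data of one row.** -/
structure RD61 (μ : Measure ℝ) (s : ℝ) (N : ℕ) (Q : Finset (Finset ℕ)) (γ B : ℝ) (b j : ℕ) (t : ℝ) (c0 K : ℕ) (ε K' : ℝ) : Prop where
  hD : ∀ (F : Fin 2 → Prop) (δ : ℝ), 0 ≤ δ → δ ≤ 1 → ∀ U : Env → Finset ℕ → ℝ, PA c0 B U →
    E0D μ s 2 N Q F δ c0 K (2 * B / K) (tA c0 U) ε K'
  fam : ∀ r ≤ N, Pool.W7d29a1.C0.H27.Fam N r Q
  B0 : 0 ≤ B
  ht : |t| ≤ 1
  hjc : j + b ≤ c0
  hcN : c0 + K ≤ N

section Row

variable {μ : Measure ℝ} {s : ℝ} {N : ℕ} {Q : Finset (Finset ℕ)} [IsProbabilityMeasure μ] [SwQ Q] [MxQ Q] [Nonempty (Px Q)]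
variable {γ B : ℝ} {b j : ℕ} {t : ℝ} {c0 K : ℕ} {ε K' : ℝ} {zf cc : ℕ} {F M : ℝ} {f : Env × Finset ℕ → Px Q → ℝ}

omit [IsProbabilityMeasure μ] [SwQ Q] [MxQ Q] [Nonempty (Px Q)] in
/-- `E0D` for the tilt of the row. -/
theorem RD61.hU (R : RD61 μ s N Q γ B b j t c0 K ε K') (F : Fin 2 → Prop) {δ : ℝ} (h0 : 0 ≤ δ) (h1 : δ ≤ 1) (A : Finset ℕ) :
    E0D μ s 2 N Q F δ c0 K (2 * B / K) (uj72 μ s Q γ B b j t A) ε K' := by
  rw [tA_uj72 γ B R.hjc R.B0 t A]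
  exact R.hD F δ h0 h1 _ (pA_ut72 R.B0 γ R.hjc R.ht A)

/-- **THE PART WHOSE LEVEL IS MISSED AT BOTH CORNERS**: an event of the future stays. -/
theorem RD61.third (R : RD61 μ s N Q γ B b j t c0 K ε K') (hM : 12 * B + 4 * Real.log (N + 1) + 4 ≤ M) {δ : ℝ} (hδ : 0 ≤ δ)
    (hz : c0 + K ≤ zf) (hc : zf ≤ cc) (hf : Sp72 Q cc F c0 K f) (hF : 2 * F ≤ (N : ℝ) ^ K') {E E' : Env × Finset ℕ → Px Q → Prop}
    (h2 : Rb72 Q c0 K (2 * B / K) E E') :
    th45 μ s N Q γ B b j t δ c0 K E zf cc f ≤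
      (N : ℝ) ^ ε * (cP45 μ s N Q (fun ω S => E' ω S ∧
        jT45 μ s N Q γ B b j (c0 + K) (δ / 4) (5 * M) (fun _ _ => True) ω S) zf cc f + (N : ℝ) ^ (-K')) +
        (N : ℝ) ^ K' * Real.exp (-M) := by
  have mMs : ∀ S, MeasurableSet {ω : Env × Finset ℕ | Ms7 μ s N Q γ B b j t (δ / 2) c0 K ω.1 (sg ω.2 j) S} := fun S =>
    (meas_nlq45 (w := fun ω => wm μ s N Q ω) (u := fun ω => uj72 μ s Q γ B b j t ω.2 ω.1) meas_wm (meas_uj72 γ B b j t) (1 / 2) (δ / 2)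
      c0 K S).compl.inter (meas_nM45 (δ / 2) S).compl
  have mI7 : ∀ S, Measurable fun ω : Env × Finset ℕ => iM7 μ s N Q γ B b j t (δ / 2) c0 K ω.1 (sg ω.2 j) S := fun S => by
    unfold iM7
    exact Measurable.ite (mMs S) measurable_const measurable_const
  have i01 : ∀ (ω : Env × Finset ℕ) (S : Px Q), 0 ≤ iM7 μ s N Q γ B b j t (δ / 2) c0 K ω.1 (sg ω.2 j) S ∧
      iM7 μ s N Q γ B b j t (δ / 2) c0 K ω.1 (sg ω.2 j) S ≤ 1 := fun ω S => by
    unfold iM7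
    split_ifs <;> norm_num
  have b0 : ∀ ω x y, rh zf cc (f ω) x y ≤ 2 * F := fun ω x y => rh_le45 hf ω x y
  have b1 : ∀ (T : Env × Finset ℕ → Px Q → Prop) ω x y, ind72 T ω x * rh zf cc (f ω) x y ≤ 2 * F := fun T ω x y => by
    calc ind72 T ω x * rh zf cc (f ω) x y ≤ 1 * rh zf cc (f ω) x y :=
          mul_le_mul_of_nonneg_right (ind72_le_one _ _ _) (rh_nonneg _ _ _)
      _ ≤ 2 * F := by rw [one_mul]; exact b0 ω x y
  have b2 : ∀ (T : Env × Finset ℕ → Px Q → Prop) ω x y, 0 ≤ ind72 T ω x * rh zf cc (f ω) x y := fun T ω x y =>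
    mul_nonneg (ind72_nonneg _ _ _) (rh_nonneg _ _ _)
  have b3 : ∀ T : Env × Finset ℕ → Px Q → Prop, (∀ S, MeasurableSet {ω | T ω S}) → ∀ x y,
      Measurable fun ω => ind72 T ω x * rh zf cc (f ω) x y := fun T hT x y => (meas_ind72 hT x).mul (meas_rh45 hf x y)
  -- the passage
  have key := Pool.W7d29a1.C0.H7.t4_wtD (μ := μ) (s := s) (N := N) (P := Q) R.fam (k := 2) (F := fun _ => False) (δ' := 0) (ε := ε) (K' := K')
    (fun U hU => R.hD (fun _ => False) 0 le_rfl zero_le_one U hU) R.B0 R.hcN (δ := γ) R.ht R.hjc (G := Set.univ) MeasurableSet.univ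
    (Ψ := fun ω x => ind72 E ω (x 0) * rh zf cc (f ω) (x 0) (x 1)) (Ψ' := fun ω x => ind72 E' ω (x 0) * rh zf cc (f ω) (x 0) (x 1))
    (fun ω x => b2 E ω _ _) (fun ω x => (b1 E ω _ _).trans hF) (fun ω x => b2 E' ω _ _) (fun ω x => (b1 E' ω _ _).trans hF)
    (fun x A => meas_fix (b3 E h2.meas _ _) A) (fun x A => meas_fix (b3 E' h2.meas' _ _) A) (fun ω x x' _ hp => ?_)
    (fun A η _ x _ i hi => absurd hi id) (fun A η _ ζ g1 g2 x => ?_) (i := 0) id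
    (V := fun ω => ind72 (fun _ _ => True) ω) (V' := fun ω => ind72 (fun _ _ => True) ω) (fun ω x => ind72_nonneg _ _ _)
    (fun ω x => ind72_le_one _ _ _)
    (fun x A => meas_fix (meas_ind72 (fun _ => MeasurableSet.const True) x) A)
    (fun x A => meas_fix (meas_ind72 (fun _ => MeasurableSet.const True) x) A) (fun A η _ ζ g1 g2 x => le_rfl)
    (δ1 := δ / 2) (m := M) (by linarith) hM
  · rw [Set.compl_univ, measure_empty, ENNReal.toReal_zero, mul_zero, add_zero] at key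
    have i1 : Integrable (fun ω => PP (wu μ s N Q (uj72 μ s Q γ B b j t) ω) (fun x y => ind72 (fun ω S => E ω S ∧
        (¬ nP45 μ s N Q γ B b j t δ c0 K ω S ∧ ¬ nM45 μ s N Q γ B b j t (δ / 2) c0 K ω S)) ω x * rh zf cc (f ω) x y)) (Pm μ N) :=
      int_bdd (M := 2 * F) (meas_PP45 (meas_wu (meas_uj72 γ B b j t)) fun x y => b3 _ (fun S =>
        (h2.meas S).inter ((meas_nP45 δ S).compl.inter (meas_nM45 (δ / 2) S).compl)) x y) fun ω =>
          abs_PP_le45 _ (fun x y => b2 _ ω x y) fun x y => b1 _ ω x y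
    have i2 : Integrable (fun ω => PP (wu μ s N Q (uj72 μ s Q γ B b j t) ω) (fun x y => 1 *
        iM7 μ s N Q γ B b j t (δ / 2) c0 K ω.1 (sg ω.2 j) x * (ind72 E ω x * rh zf cc (f ω) x y))) (Pm μ N) :=
      int_bdd (M := 1 * 1 * (2 * F)) (meas_PP45 (meas_wu (meas_uj72 γ B b j t)) fun x y =>
        (measurable_const.mul (mI7 x)).mul (b3 _ h2.meas x y)) fun ω =>
          abs_PP_le45 _ (fun x y => mul_nonneg (mul_nonneg zero_le_one (i01 ω x).1) (b2 _ ω x y)) fun x y =>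
            mul_le_mul (mul_le_mul le_rfl (i01 ω x).2 (i01 ω x).1 zero_le_one) (b1 _ ω x y) (b2 _ ω x y) (by norm_num)
    have hle : th45 μ s N Q γ B b j t δ c0 K E zf cc f ≤
        ∫ ω, PP (wu μ s N Q (uj72 μ s Q γ B b j t) ω) (fun x y => 1 *
        iM7 μ s N Q γ B b j t (δ / 2) c0 K ω.1 (sg ω.2 j) x * (ind72 E ω x * rh zf cc (f ω) x y)) ∂(Pm μ N) := by
      unfold th45
      refine integral_mono i1 i2 fun ω => PP_mono _ fun x y => ?_
      have r0 := rh_nonneg (z := zf) (c := cc) (f ω) x y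
      by_cases g : E ω x ∧ (¬ nP45 μ s N Q γ B b j t δ c0 K ω x ∧ ¬ nM45 μ s N Q γ B b j t (δ / 2) c0 K ω x)
      · have e1 : ind72 (fun ω S => E ω S ∧
          (¬ nP45 μ s N Q γ B b j t δ c0 K ω S ∧ ¬ nM45 μ s N Q γ B b j t (δ / 2) c0 K ω S)) ω x = 1 := if_pos g
        have e3 : ind72 E ω x = 1 := if_pos g.1
        have e4 : iM7 μ s N Q γ B b j t (δ / 2) c0 K ω.1 (sg ω.2 j) x = 1 :=
          if_pos (Ms7.of_nl (μ := μ) (s := s) (N := N) (P := Q) (δ := γ) (B := B) (b := b) (j := j) (t := t) (δ1 := δ) (δ2 := δ / 2)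
            (by linarith) g.2.1 g.2.2)
        rw [e1, e3, e4, one_mul, one_mul, one_mul]
      · have e1 : ind72 (fun ω S => E ω S ∧
          (¬ nP45 μ s N Q γ B b j t δ c0 K ω S ∧ ¬ nM45 μ s N Q γ B b j t (δ / 2) c0 K ω S)) ω x = 0 := if_neg g
        rw [e1, zero_mul]
        exact mul_nonneg (mul_nonneg zero_le_one (i01 ω x).1) (b2 _ ω x y)
    refine hle.trans ?_
    have e0 : ∀ ω, wu μ s N Q (uj72 μ s Q γ B b j t) ω = Pool.Agent.W_7d29a1_C0.Mod92.wt μ s ω.1 N Q γ B b j (sg ω.2 j) t := wu_uj45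
    simp only [e0]
    have e5 : ∀ ω (x : Px Q), ind72 (fun (_ : Env × Finset ℕ) (_ : Px Q) => True) ω x = 1 := fun ω x => if_pos trivial
    have e4 : δ / 2 / 2 = δ / 4 := by ring
    rw [e4] at key
    simp only [jA_ind45] at key
    simp only [e5] at key
    refine (le_of_eq rfl).trans (key.trans (le_of_eq ?_))
    congr 3
    unfold cP45
    congr 1
    funext ω
    rw [rep_two_PP (wm μ s N Q ω) (fun x z => ind72 (jT45 μ s N Q γ B b j (c0 + K) (δ / 4) (5 * M) fun _ _ => True) ω x *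
      (ind72 E' ω x * rh zf cc (f ω) x z)) fun x => rfl]
    congr 1
    funext x z
    rw [← mul_assoc, ind_and45 E' (jT45 μ s N Q γ B b j (c0 + K) (δ / 4) (5 * M) (fun _ _ => True)) ω x,
      mul_comm (ind72 E' ω x)]
  · have hp' : ∀ i k, c0 + K ≤ k → ps (x i) k = ps (x' i) k := fun i k hk => ps_of_pB72 (hp i) hk
    have e1 : ind72 E ω (x 0) = ind72 E ω (x' 0) := by
      unfold ind72
      rw [show E ω (x 0) = E ω (x' 0) from propext (h2.beh ω _ _ (hp 0))]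
    have e2 : rh zf cc (f ω) (x 0) (x 1) = rh zf cc (f ω) (x' 0) (x' 1) := by
      unfold rh
      rw [NI_congr (m := zf) (u := cc) (S := x 0) (T := x' 0) (S' := x 1) (T' := x' 1) (fun k hk _ => hp' 0 k (by omega))
        (fun k hk _ => hp' 1 k (by omega)), hf.rk ω (x 0) (x' 0) (fun k hk => hp' 0 k (by omega)),
        hf.rk ω (x 1) (x' 1) (fun k hk => hp' 1 k (by omega))]
    show ind72 E ω (x 0) * rh zf cc (f ω) (x 0) (x 1) = ind72 E ω (x' 0) * rh zf cc (f ω) (x' 0) (x' 1)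
    rw [e1, e2]
  · show ind72 E (η, A) (x 0) * rh zf cc (f (η, A)) (x 0) (x 1) ≤ ind72 E' (ζ, A) (x 0) * rh zf cc (f (ζ, A)) (x 0) (x 1)
    rw [show f (ζ, A) = f (η, A) from (hf.blind A η ζ g1).symm]
    refine mul_le_mul_of_nonneg_right ?_ (rh_nonneg _ _ _)
    unfold ind72
    by_cases h5 : E (η, A) (x 0)
    · rw [if_pos h5, if_pos (h2.rob A η ζ g1 g2 (x 0) h5)]
    · rw [if_neg h5]
      split_ifs <;> norm_num

end Row

/-! ### The remainder of one row at one environment -/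

section Pt

variable {μ : Measure ℝ} {s : ℝ} {N y : ℕ} [Nonempty (Px (Pn N y))] {γ B t u D M : ℝ} {b0 b j m m0 m1 : ℕ} {f : Fam N}

theorem vX_nonneg (ω : Env × Finset ℕ) (S : Px (Pn N y)) : 0 ≤ vX μ s N γ B b0 b j u y ω S := cV_nonneg _ _ _ S

theorem vX_le (hB : 0 ≤ B) (ω : Env × Finset ℕ) (S : Px (Pn N y)) : vX μ s N γ B b0 b j u y ω S ≤ (B / 2) ^ 2 :=
  cV_le_sq _ _ (fun S => abs_gg hB b0 ω j S) S

theorem meas_vX (hB : 0 ≤ B) (hb : b0 ≤ b) (hj : j + b ≤ N) (S : Px (Pn N y)) :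
    Measurable fun ω : Env × Finset ℕ => vX μ s N γ B b0 b j u y ω S :=
  meas_om fun A => (measurable_pi_apply S).comp (meas_vA hB hb hj A u)

/-- The remainder as a two replica mean. -/
theorem rep_rX (ω : Env × Finset ℕ) :
    rep 2 (wj μ s N (Pn N y) γ B b0 j ω t) (rX μ s N γ B b0 b j t u y f m0 m1 m ω) =
      PP (wj μ s N (Pn N y) γ B b0 j ω t) fun x x' => mM (j - b) (j - b0) (j + b0) (j + b) (wj μ s N (Pn N y) γ B b0 j ω t) m x *
        (vX μ s N γ B b0 b j u y ω x * rh m0 m1 (f y ω) x x') :=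
  rep_two_PP _ _ fun x => by
    have hV : ∀ S, 0 ≤ vX μ s N γ B b0 b j u y ω S := fun S => vX_nonneg ω S
    unfold rX RV
    rw [abs_VN hV]
    unfold rh
    ring

/-- **The own mass replaced by its event.** -/
theorem own61 (hB : 0 ≤ B) (ht : |t| ≤ 1) {ω : Env × Finset ℕ} (hF : ∀ S : Px (Pn N y), |f y ω S| ≤ D) (M : ℝ) :
    rep 2 (wj μ s N (Pn N y) γ B b0 j ω t) (rX μ s N γ B b0 b j t u y f m0 m1 m ω) ≤
      PP (wj μ s N (Pn N y) γ B b0 j ω t) (fun x x' => iT (wm μ s N (Pn N y) ω) (pJ 0 m) (j - b) (j - b0) (j + b0) (j + b) M x *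
        (vX μ s N γ B b0 b j u y ω x * rh m0 m1 (f y ω) x x')) + (B / 2) ^ 2 * (2 * D) * eT B M := by
  rw [rep_rX, wj_eq72]
  have hA : ∀ x : Px (Pn N y), |uj72 μ s (Pn N y) γ B b0 j t ω.2 ω.1 x| ≤ B := fun x => abs_uj72 hB b0 j ht ω.2 ω.1 x
  have h0 : ∀ x x', 0 ≤ vX μ s N γ B b0 b j u y ω x * rh m0 m1 (f y ω) x x' := fun x x' =>
    mul_nonneg (vX_nonneg ω x) (rh_nonneg _ _ _)
  exact mM_T2 (w := lw μ s ω.1 N (Pn N y)) (A := uj72 μ s (Pn N y) γ B b0 j t ω.2 ω.1) hA m (M := M)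
    (H := fun x x' => vX μ s N γ B b0 b j u y ω x * rh m0 m1 (f y ω) x x') h0
    (fun x x' => mul_le_mul (vX_le hB ω x) (rh_le81 hF x x') (rh_nonneg _ _ _) (sq_nonneg _))

end Pt

end

end Pool.Agent.W_7d29a1_C0.Rq61
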