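import Pool.Agent.W_7d29a1_C0.FlipR4D
import Pool.Agent.W_7d29a1_C0.Rq61A

/-!
MP_7d29a1_pr, [CURV0] / [C0], leaf E2a, THE REMAINDER (RQ), LAW SIDE (helper61), part 2: the part whose level is seen from the other corner is
flipped (in the mean over the ends). `trep_vX`, `trep_rh`: the functionals; `tsw_T2`, `tsw_nl`: the events; `flip61`: the flip.
-/

set_option autoImplicit false
set_option linter.unusedSectionVars false
set_option linter.unusedVariables false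

namespace Pool.Agent.W_7d29a1_C0.Rq61

open Finset MeasureTheory Filter Topology Pool.Agent.W_7d29a1_F Pool.Agent.W_7d29a1_X Pool.Agent.W_7d29a1_C0.Mod92
open Pool.Agent.W_7d29a1_C0 Pool.Agent.W_7d29a1_C0.Swap57 Pool.Agent.W_7d29a1_C0.Blk18 Pool.Agent.W_7d29a1_C0.NM82
open Pool.Agent.W_7d29a1_C0.MicE14 (rh rh_nonneg)
open Pool.Agent.W_7d29a1_C0.T72 (Sp72 ind72 ind72_nonneg ind72_le_one uj72)
open Pool.W7d29a1.C0 (gz gm gz_ne gz_pos gm_nonneg gm_mono gm_const PP PP_eq PP_mono PP_nonneg)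
open Pool.W7d29a1.C0.VT31
open Pool.W7d29a1.C0.H7 (NL7 HL7 lv7)
open Pool.W7d29a1.C0.C45
open Pool.Agent.W_7d29a1_C0.E2aC81 (T2)
open Pool.Agent.W_7d29a1_C0.E2aM82 (vX)
open Pool.Agent.W_7d29a1_C0.Base5 (pW)
open Pool.Agent.W_7d29a1_C0.Flip61
open Pool.Agent.W_7d29a1_C0.FlipR4 (CovW zT gT Fnl TRep Pfl MsP TSw iv iv_eq iv_nonneg wf)

noncomputable section

variable {μ : Measure ℝ} {s : ℝ} {N : ℕ} {b0 b j : ℕ} {δ B : ℝ}

/-! ### The functionals -/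

/-- The tilt with the coefficient `t - a_j`. -/
def ps61 (μ : Measure ℝ) (s : ℝ) (δ : ℝ) (hB : 0 ≤ B) (t : ℝ) (A : Finset ℕ) : CovW N b0 j :=
  gT μ s δ hB le_rfl (t - sg A j)

theorem ps61_K (hB : 0 ≤ B) {t : ℝ} (ht : |t| ≤ 1) (A : Finset ℕ) : (ps61 (N := N) (b0 := b0) (j := j) μ s δ hB t A).K ≤ B := by
  show |t - (sg A j : ℝ)| * (B / 2) ≤ B
  have h2 : |t - (sg A j : ℝ)| ≤ 2 := (abs_sub _ _).trans (by rw [abs_sg]; linarith)
  calc |t - (sg A j : ℝ)| * (B / 2) ≤ 2 * (B / 2) := mul_le_mul_of_nonneg_right h2 (by positivity)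
    _ = B := by ring

/-- The kernel of the conditional variance. -/
theorem cov_dg2 (hB : 0 ≤ B) : CovM N b0 j (fun y ω ρ =>
    (gg μ s (Pn N y) δ B b0 ω j (ρ 0) - gg μ s (Pn N y) δ B b0 ω j (ρ 1)) ^ 2) (B * B) := by
  have h0 := cov_gj' (μ := μ) (s := s) (N := N) (j := j) (le_refl b0) δ hB
  have h := (CovM.of1 h0 0).sub (CovM.of1 h0 1)
  rw [add_halves] at h
  have h2 := h.mul h
  have e : (fun (y : ℕ) (ω : Env × Finset ℕ) (ρ : ℕ → Px (Pn N y)) =>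
      (gg μ s (Pn N y) δ B b0 ω j (ρ 0) - gg μ s (Pn N y) δ B b0 ω j (ρ 1)) ^ 2) = fun y ω ρ =>
      (gj μ s ω.1 δ B b0 j (sg ω.2 j) (ρ 0) - gj μ s ω.1 δ B b0 j (sg ω.2 j) (ρ 1)) *
        (gj μ s ω.1 δ B b0 j (sg ω.2 j) (ρ 0) - gj μ s ω.1 δ B b0 j (sg ω.2 j) (ρ 1)) := by
    funext y ω ρ
    rw [sq]
    rfl
  rw [e]
  exact h2

/-- The conditional variance as a functional of the base weight. -/
theorem trep_vX (hB : 0 ≤ B) (hb : b0 ≤ b) {u : ℝ} (hu : |u| ≤ 1) :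
    TRep μ s N δ B b0 j (fun y ω A w ρ => cV (w + (ps61 (N := N) (b0 := b0) (j := j) μ s δ hB u A).F y ω) (pW b j)
      (gg μ s (Pn N y) δ B b0 ω j) (ρ 0)) (1 / 2 * (B * B)) (1 / 2 * (Real.exp (4 * B) * (4 * (B * B)))) := by
  have h1 := TRep.mass2T (μ := μ) (s := s) (N := N) (b := b0) (j := j) (δ := δ) (B := B)
    (K' := fun y ω S S' => (gg μ s (Pn N y) δ B b0 ω j S - gg μ s (Pn N y) δ B b0 ω j S') ^ 2) (cov_dg2 hB)
    (c := j - b) (d := j + b) (c' := j - b) (d' := j + b) (by omega) (by omega) (by omega) (by omega) 0 0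
    (ps61 (N := N) (b0 := b0) (j := j) μ s δ hB u) hB (ps61_K hB hu)
  have h2 := h1.smul (1 / 2)
  rw [abs_of_nonneg (by norm_num : (0 : ℝ) ≤ 1 / 2)] at h2
  refine h2.congr fun y ω A t ρ => ?_
  have n1 : Nonempty (Px (Pn N y)) := ⟨ρ 0⟩
  rw [cV_eq_two]
  rfl

/-- The kernel of the pair of the spectator: covariant, with the bound of the class. -/
theorem cov_rh {cb e : ℕ} {D : ℝ} {f : Fam N} (hf : Cls59 N cb e D f) {θ D' : ℝ}
    (H : Cov1 N b0 j (fun y ω S => f y ω S - 2 * θ * y) D') {m0 m1 : ℕ} (h : j + b0 ≤ m0) :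
    CovM N b0 j (fun y ω ρ => rh m0 m1 (f y ω) (ρ 0) (ρ 1)) (2 * D) := by
  have h1 := (((CovM.of1 H 0).sub (CovM.of1 H 1)).abs).mul (cov_NI (N := N) (b := b0) (j := j) (i := m0) (k := m1) (Or.inr h) 0 1)
  have e' : (fun (y : ℕ) (ω : Env × Finset ℕ) (ρ : ℕ → Px (Pn N y)) => rh m0 m1 (f y ω) (ρ 0) (ρ 1)) = fun y ω ρ =>
      |(f y ω (ρ 0) - 2 * θ * y) - (f y ω (ρ 1) - 2 * θ * y)| * NI m0 m1 (ρ 0) (ρ 1) := by
    funext y ω ρ
    unfold rh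
    congr 2
    ring
  rw [← e'] at h1
  have n0 : Nonempty (Px (Pn N 0)) := ne_Pn (Nat.zero_le N)
  have hD : 0 ≤ D := (abs_nonneg _).trans (hf.bdd 0 (fun _ => 0, ∅) Classical.ofNonempty)
  refine ⟨by linarith, fun y ω ρ => ?_, h1.mes, h1.mp, h1.eqv⟩
  have n1 : Nonempty (Px (Pn N y)) := ⟨ρ 0⟩
  rw [abs_of_nonneg (rh_nonneg _ _ _)]
  exact E2aD81.rh_le81 (fun S => hf.bdd y ω S) _ _

/-- The pair of the spectator, as a functional. -/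
theorem trep_rh (hB : 0 ≤ B) {cb e : ℕ} {D : ℝ} {f : Fam N} (hf : Cls59 N cb e D f) {θ D' : ℝ}
    (H : Cov1 N b0 j (fun y ω S => f y ω S - 2 * θ * y) D') {m0 m1 : ℕ} (h : j + b0 ≤ m0) {t : ℝ} (ht : |t| ≤ 1) :
    TRep μ s N δ B b0 j (fun y ω A w ρ => gm (w + (ps61 (N := N) (b0 := b0) (j := j) μ s δ hB t A).F y ω) fun z =>
      rh m0 m1 (f y ω) (ρ 0) z) (2 * D) (Real.exp (2 * B) * (0 + 2 * (2 * D))) := by
  have h1 : TRep μ s N δ B b0 j (fun y ω _ _ ρ => rh m0 m1 (f y ω) (ρ 1) (ρ 0)) (2 * D) 0 :=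
    TRep.fn (CovM.swap (K := fun y ω S S' => rh m0 m1 (f y ω) S S') (cov_rh hf H h) 1 0)
  exact TRep.meT (ps61 (N := N) (b0 := b0) (j := j) μ s δ hB t) (ps61_K hB ht) h1

/-! ### The events -/

theorem thr_num (M : ℝ) : Real.exp (-(5 * (M + 1))) < Real.exp (-(5 * M)) ∧
    1 / (Real.exp (-(5 * M)) - Real.exp (-(5 * (M + 1)))) ≤ 2 * Real.exp (5 * M) := by
  have h1 : Real.exp (-(5 * (M + 1))) = Real.exp (-5) * Real.exp (-(5 * M)) := by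
    rw [← Real.exp_add]
    congr 1
    ring
  have h2 : Real.exp (-5) ≤ 1 / 2 := by
    rw [Real.exp_neg]
    have h3 := Real.add_one_le_exp (5 : ℝ)
    rw [one_div]
    exact inv_anti₀ (by norm_num) (by linarith)
  have h3 := Real.exp_pos (-(5 * M))
  have h4 : Real.exp (-(5 * (M + 1))) ≤ 1 / 2 * Real.exp (-(5 * M)) := by
    rw [h1]
    exact mul_le_mul_of_nonneg_right h2 h3.le
  refine ⟨by linarith, ?_⟩
  rw [div_le_iff₀ (by linarith)]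
  have h5 : Real.exp (5 * M) * Real.exp (-(5 * M)) = 1 := by rw [← Real.exp_add, add_neg_cancel, Real.exp_zero]
  have h6 := mul_le_mul_of_nonneg_left (show 1 / 2 * Real.exp (-(5 * M)) ≤ Real.exp (-(5 * M)) - Real.exp (-(5 * (M + 1))) by linarith)
    (show 0 ≤ 2 * Real.exp (5 * M) by positivity)
  linarith

/-- The own event. -/
theorem tsw_T2 {m : ℕ} (hm : j + b0 ≤ m) {c al be d : ℕ} (h1 : al ≤ j - b0) (h2 : j + b0 ≤ be) (M : ℝ) :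
    TSw μ s N δ B b0 j (fun y ω A w ρ => T2 w (pJ 0 m) c al be d M (ρ 0)) (fun y ω A w ρ => T2 w (pJ 0 m) c al be d (M + 1) (ρ 0))
      (16 * Real.exp (5 * M)) := by
  obtain ⟨a1, a2⟩ := thr_num M
  have k : ∀ i k : ℕ, (k ≤ j - b0 ∨ j + b0 ≤ i) → TSw μ s N δ B b0 j
      (fun y ω A w ρ => Real.exp (-(5 * M)) ≤ cE2 w (pJ 0 m) (NI i k) (ρ 0) (ρ 0))
      (fun y ω A w ρ => Real.exp (-(5 * (M + 1))) ≤ cE2 w (pJ 0 m) (NI i k) (ρ 0) (ρ 0)) (8 * Real.exp (5 * M)) := fun i k hik => by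
    have h3 := TRep.cE2 (μ := μ) (s := s) (N := N) (b := b0) (j := j) (δ := δ) (B := B) (K' := fun _ _ => NI i k) (cov_NI hik 0 1)
      (c := 0) (d := m) (Nat.zero_le _) hm 0 0
    refine (TSw.thr h3 a1).mono ?_
    have := mul_le_mul_of_nonneg_right a2 (show (0 : ℝ) ≤ 4 * 1 by norm_num)
    linarith
  exact ((k c al (Or.inl h1)).or (k be d (Or.inr h2))).mono (by linarith [Real.exp_pos (5 * M)])

/-- **The levels seen at the slab.** -/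
theorem tsw_nl (hB : 0 ≤ B) {c0 K : ℕ} (hc : j + b0 ≤ c0) {t : ℝ} (ht : |t| ≤ 1) {dl : ℝ} (hdl : 0 < dl) :
    TSw μ s N δ B b0 j
      (fun y ω A w ρ => HL7 w (fun S => (t - sg A j) * gj μ s ω.1 δ B b0 j (sg ω.2 j) S) (dl / 2) c0 K (ρ 0))
      (fun y ω A w ρ => NL7 w (fun S => (t - sg A j) * gj μ s ω.1 δ B b0 j (sg ω.2 j) S) dl c0 K (ρ 0)) (8 * K) := by
  have hg := cov_gj' (μ := μ) (s := s) (N := N) (j := j) (le_refl b0) δ hB
  have x1 : TRep μ s N δ B b0 j (fun y ω A w ρ => (t - sg A j) * (gj μ s ω.1 δ B b0 j (sg ω.2 j) (ρ 0) -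
      gj μ s ω.1 δ B b0 j (sg ω.2 j) (ρ 1))) (2 * (B / 2 + B / 2)) ((B / 2 + B / 2) * 0 + 2 * 0) :=
    (TRep.cstA (fun A => t - sg A j) (M := 2) fun A => (abs_sub _ _).trans (by rw [abs_sg]; linarith)).mul
      (TRep.fn ((CovM.of1 hg 0).sub (CovM.of1 hg 1)))
  have x2 : TSw μ s N δ B b0 j
      (fun y ω A w ρ => -(dl / 2) ≤ (t - sg A j) * (gj μ s ω.1 δ B b0 j (sg ω.2 j) (ρ 0) - gj μ s ω.1 δ B b0 j (sg ω.2 j) (ρ 1)))
      (fun y ω A w ρ => -dl ≤ (t - sg A j) * (gj μ s ω.1 δ B b0 j (sg ω.2 j) (ρ 0) - gj μ s ω.1 δ B b0 j (sg ω.2 j) (ρ 1))) 0 :=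
    (TSw.thr x1 (by linarith)).mono (le_of_eq (by ring))
  have x3 : ∀ m ∈ Ioc c0 (c0 + K), TSw μ s N δ B b0 j
      (fun y ω A w ρ => 1 / 2 ≤ lv7 w (fun S => (t - sg A j) * gj μ s ω.1 δ B b0 j (sg ω.2 j) S) (dl / 2) m (ρ 0))
      (fun y ω A w ρ => 1 / 4 ≤ lv7 w (fun S => (t - sg A j) * gj μ s ω.1 δ B b0 j (sg ω.2 j) S) dl m (ρ 0)) 8 := fun m hm => by
    rw [mem_Ioc] at hm
    have h1 := x2.mass (c := 0) (d := m) (Nat.zero_le _) (by omega) 0 (fun _ => zT) (K := 0) (fun _ => le_rfl)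
      (q := 1 / 2) (q' := 1 / 4) (by norm_num)
    have h2 := h1.mono (L' := 8) (by rw [mul_zero, Real.exp_zero]; norm_num)
    have ez : ∀ (y : ℕ) (ω : Env × Finset ℕ) (w : Px (Pn N y) → ℝ), w + (zT (N := N) (b := b0) (j := j)).F y ω = w := fun y ω w =>
      add_zero w
    have e1 : ∀ (d : ℝ) (y : ℕ) (ω : Env × Finset ℕ) (A : Finset ℕ) (w : Px (Pn N y) → ℝ) (ρ : ℕ → Px (Pn N y)),
        cE w (pJ 0 m) (fun z => iv (-d ≤ (t - sg A j) * (gj μ s ω.1 δ B b0 j (sg ω.2 j) (cns z ρ 0) -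
          gj μ s ω.1 δ B b0 j (sg ω.2 j) (cns z ρ 1)))) (ρ 0) =
        lv7 w (fun S => (t - sg A j) * gj μ s ω.1 δ B b0 j (sg ω.2 j) S) d m (ρ 0) := fun d y ω A w ρ => by
      classical
      unfold lv7
      congr 1
      funext z
      rw [iv_eq]
      have e2 : (-d ≤ (t - sg A j) * (gj μ s ω.1 δ B b0 j (sg ω.2 j) (cns z ρ 0) - gj μ s ω.1 δ B b0 j (sg ω.2 j) (cns z ρ 1))) ↔
          ((t - sg A j) * gj μ s ω.1 δ B b0 j (sg ω.2 j) (ρ 0) - d ≤ (t - sg A j) * gj μ s ω.1 δ B b0 j (sg ω.2 j) z) := by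
        show (-d ≤ (t - sg A j) * (gj μ s ω.1 δ B b0 j (sg ω.2 j) z - gj μ s ω.1 δ B b0 j (sg ω.2 j) (ρ 0))) ↔ _
        constructor
        · intro h; linarith
        · intro h; linarith
      simp only [e2]
    simp only [ez, e1] at h2
    exact h2
  have x4 := TSw.all (Ioc c0 (c0 + K)) x3
  have e3 : ∑ i ∈ Ioc c0 (c0 + K), (8 : ℝ) = 8 * K := by
    rw [sum_const, Nat.card_Ioc, nsmul_eq_mul, Nat.add_sub_cancel_left, mul_comm]
  rw [e3] at x4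
  have e4 : ∀ (q dd : ℝ) (y : ℕ) (w u : Px (Pn N y) → ℝ) (S : Px (Pn N y)),
      (∀ i ∈ Ioc c0 (c0 + K), q ≤ lv7 w u dd i S) ↔ ∀ m, c0 < m → m ≤ c0 + K → q ≤ lv7 w u dd m S := fun q dd y w u S =>
    ⟨fun h m h1 h2 => h m (mem_Ioc.2 ⟨h1, h2⟩), fun h m hm => h m (mem_Ioc.1 hm).1 (mem_Ioc.1 hm).2⟩
  simp only [e4] at x4
  exact x4

/-! ### The flip -/

section Flip

variable [IsProbabilityMeasure μ]

/-- The functional of the remainder with an event, tilted weights. -/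
def pV61 (μ : Measure ℝ) (s : ℝ) (N : ℕ) (δ B : ℝ) (b0 b j : ℕ) (t u : ℝ) (m0 m1 : ℕ) (f : Fam N) (y : ℕ)
    (T : Env × Finset ℕ → Px (Pn N y) → Prop) : ℝ :=
  ∫ ω, PP (wu μ s N (Pn N y) (uj72 μ s (Pn N y) δ B b0 j t) ω) (fun x x' => ind72 T ω x *
    (vX μ s N δ B b0 b j u y ω x * rh m0 m1 (f y ω) x x')) ∂(Pm μ N)

theorem PP_fac61 {Q : Finset (Finset ℕ)} [Nonempty (Px Q)] (w : Px Q → ℝ) (a v : Px Q → ℝ) (h : Px Q → Px Q → ℝ) :
    PP w (fun x x' => a x * (v x * h x x')) = gm w fun x => a x * (v x * gm w fun x' => h x x') := by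
  rw [Bri36.PP_eq_gm]
  congr 1
  funext x
  have e : (fun x' => a x * (v x * h x x')) = (a x * v x) • fun x' => h x x' := by
    funext x'
    rw [Pi.smul_apply, smul_eq_mul]
    ring
  rw [e, Pool.W7d29a1.C0.gm_smul]
  ring

theorem ind_iv61 {Q : Finset (Finset ℕ)} (T : Env × Finset ℕ → Px Q → Prop) (ω : Env × Finset ℕ) (x : Px Q) :
    ind72 T ω x = iv (T ω x) := by
  classical
  unfold ind72
  rw [iv_eq]

/-- **THE FLIP OF THE SECOND PART**, in the mean over the ends. -/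
theorem flip61 (hb0 : 0 < b0) (hj : j + b0 ≤ N) (hB : 0 ≤ B) (hb : b0 ≤ b) {t u : ℝ} (ht : |t| ≤ 1) (hu : |u| ≤ 1) {cb e : ℕ} {D : ℝ}
    {f : Fam N} (hf : Cls59 N cb e D f) {θ' D' : ℝ} (H : Cov1 N b0 j (fun y ω S => f y ω S - 2 * θ' * y) D') {c0 K m m0 m1 : ℕ} (hc : j + b0 ≤ c0) (hm : j + b0 ≤ m)
    (hm0 : j + b0 ≤ m0) {dl : ℝ} (hdl : 0 < dl) (M : ℝ) {y₀ n : ℕ} (hy : 1 ≤ y₀) (hn : 1 ≤ n) (hyN : y₀ + n ≤ N) {θ ε : ℝ}
    (hE : FErr2 μ s N δ B b0 j y₀ n θ ε) :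
    avy (Ico y₀ (y₀ + n)) (fun y => pV61 μ s N δ B b0 b j t u m0 m1 f y fun ω S =>
        T2 (wf45 μ s N (Pn N y) δ B b0 j ω) (pJ 0 m) (j - b) (j - b0) (j + b0) (j + b) M S ∧
          nM45 μ s N (Pn N y) δ B b0 j t (dl / 2) c0 K ω S) ≤
      avy (Ico y₀ (y₀ + n)) (fun y => pV61 μ s N δ B b0 b j t u m0 m1 f y fun ω S =>
        T2 (wm μ s N (Pn N y) ω) (pJ 0 m) (j - b) (j - b0) (j + b0) (j + b) (M + 1) S ∧
          nP45 μ s N (Pn N y) δ B b0 j t dl c0 K ω S) +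
      (2 * (1 / 2 * (B * B) * (2 * D)) / n + (3 * (Real.exp (2 * B) * ((1 / 2 * (B * B) * (2 * D) *
        (16 * Real.exp (5 * M) + 8 * K) + (2 * D * (1 / 2 * (Real.exp (4 * B) * (4 * (B * B)))) +
          1 / 2 * (B * B) * (Real.exp (2 * B) * (0 + 2 * (2 * D))))) + 2 * (1 / 2 * (B * B) * (2 * D)))) * θ +
        4 * (1 / 2 * (B * B) * (2 * D)) * ε)) := by
  have hP := (tsw_T2 (μ := μ) (s := s) (N := N) (b0 := b0) (j := j) (δ := δ) (B := B) hm (c := j - b) (al := j - b0) (be := j + b0)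
    (d := j + b) le_rfl le_rfl M).and (tsw_nl (μ := μ) (s := s) (N := N) (b0 := b0) (j := j) (δ := δ) hB hc (K := K) ht hdl)
  have hG := (trep_vX (μ := μ) (s := s) (N := N) (b0 := b0) (b := b) (j := j) (δ := δ) hB hb hu).mul
    (trep_rh (μ := μ) (s := s) (N := N) (b0 := b0) (j := j) (δ := δ) hB hf H (m0 := m0) (m1 := m1) hm0 ht)
  have key := hP.flip hb0 hj hG (fun y ω A τ ρ => by
    have n1 : Nonempty (Px (Pn N y)) := ⟨ρ 0⟩
    exact mul_nonneg (cV_nonneg _ _ _ _) (gm_nonneg _ fun x => rh_nonneg _ _ _))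
    (ps61 (N := N) (b0 := b0) (j := j) μ s δ hB t) (ps61_K hB ht) hy hn hyN hE
  have w1 : ∀ (t : ℝ) (y : ℕ) (ω : Env × Finset ℕ), wm μ s N (Pn N y) ω + (ps61 (N := N) (b0 := b0) (j := j) μ s δ hB t ω.2).F y ω =
      Mod92.wt μ s ω.1 N (Pn N y) δ B b0 j (sg ω.2 j) t := fun t y ω => FlipR4.wm_tilt δ B y ω t
  have w2 : ∀ (t : ℝ) (y : ℕ) (ω : Env × Finset ℕ), wf μ s N δ B b0 j y ω +
      (ps61 (N := N) (b0 := b0) (j := j) μ s δ hB t (flp j ω.2)).F y ω =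
      Mod92.wt μ s ω.1 N (Pn N y) δ B b0 j (sg ω.2 j) t := fun t y ω => FlipR4.wf_tilt δ B y ω t
  have e1 : ∀ y ∈ Ico y₀ (y₀ + n), pV61 μ s N δ B b0 b j t u m0 m1 f y (fun ω S =>
        T2 (wf45 μ s N (Pn N y) δ B b0 j ω) (pJ 0 m) (j - b) (j - b0) (j + b0) (j + b) M S ∧
          nM45 μ s N (Pn N y) δ B b0 j t (dl / 2) c0 K ω S) =
      ∫ ω, gm (wf μ s N δ B b0 j y ω + (ps61 (N := N) (b0 := b0) (j := j) μ s δ hB t (flp j ω.2)).F y ω) (fun x =>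
        iv (T2 (wf μ s N δ B b0 j y ω) (pJ 0 m) (j - b) (j - b0) (j + b0) (j + b) M x ∧
          HL7 (wf μ s N δ B b0 j y ω) (fun S => (t - sg (flp j ω.2) j) * gj μ s ω.1 δ B b0 j (sg ω.2 j) S) (dl / 2) c0 K x) *
        (cV (wf μ s N δ B b0 j y ω + (ps61 (N := N) (b0 := b0) (j := j) μ s δ hB u (flp j ω.2)).F y ω) (pW b j)
          (gg μ s (Pn N y) δ B b0 ω j) x *
          gm (wf μ s N δ B b0 j y ω + (ps61 (N := N) (b0 := b0) (j := j) μ s δ hB t (flp j ω.2)).F y ω) fun z =>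
            rh m0 m1 (f y ω) x z)) ∂(Pm μ N) := fun y hy' => by
    have n1 : Nonempty (Px (Pn N y)) := ne_Pn (by
      rw [mem_Ico] at hy'
      omega)
    unfold pV61
    congr 1
    funext ω
    rw [PP_fac61, wu_uj45, w2, w2]
    congr 1
    funext x
    congr 1
    rw [ind_iv61]
    have e3 : (fun S => (t - sg (flp j ω.2) j) * gj μ s ω.1 δ B b0 j (sg ω.2 j) S) = uf45 μ s (Pn N y) δ B b0 j t ω := by
      funext S
      show _ = (t + sg ω.2 j) * gj μ s ω.1 δ B b0 j (sg ω.2 j) S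
      rw [sg_flp]
      push_cast
      ring
    rw [e3]
    rfl
  have e2 : ∀ y ∈ Ico y₀ (y₀ + n), pV61 μ s N δ B b0 b j t u m0 m1 f y (fun ω S =>
        T2 (wm μ s N (Pn N y) ω) (pJ 0 m) (j - b) (j - b0) (j + b0) (j + b) (M + 1) S ∧
          nP45 μ s N (Pn N y) δ B b0 j t dl c0 K ω S) =
      ∫ ω, gm (wm μ s N (Pn N y) ω + (ps61 (N := N) (b0 := b0) (j := j) μ s δ hB t ω.2).F y ω) (fun x =>
        iv (T2 (wm μ s N (Pn N y) ω) (pJ 0 m) (j - b) (j - b0) (j + b0) (j + b) (M + 1) x ∧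
          NL7 (wm μ s N (Pn N y) ω) (fun S => (t - sg ω.2 j) * gj μ s ω.1 δ B b0 j (sg ω.2 j) S) dl c0 K x) *
        (cV (wm μ s N (Pn N y) ω + (ps61 (N := N) (b0 := b0) (j := j) μ s δ hB u ω.2).F y ω) (pW b j)
          (gg μ s (Pn N y) δ B b0 ω j) x *
          gm (wm μ s N (Pn N y) ω + (ps61 (N := N) (b0 := b0) (j := j) μ s δ hB t ω.2).F y ω) fun z =>
            rh m0 m1 (f y ω) x z)) ∂(Pm μ N) := fun y hy' => by
    have n1 : Nonempty (Px (Pn N y)) := ne_Pn (by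
      rw [mem_Ico] at hy'
      omega)
    unfold pV61
    congr 1
    funext ω
    rw [PP_fac61, wu_uj45, w1, w1]
    congr 1
  have e3 := sum_congr (rfl : Ico y₀ (y₀ + n) = _) e1
  have e4 := sum_congr (rfl : Ico y₀ (y₀ + n) = _) e2
  unfold avy at key ⊢
  rw [e3, e4]
  exact key

end Flip

end

end Pool.Agent.W_7d29a1_C0.Rq61
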