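import Pool.Agent.W_7d29a1_C0.Rq61B

/-!
MP_7d29a1_pr, [CURV0] / [C0], leaf E2a, THE REMAINDER (RQ), LAW SIDE (helper61), part 3: `stat61` = the remainder of one row split by the
levels; `corner61` = the part whose level is seen at the slab, at the corner, as events; `ends61` = the mean over the ends.
-/

set_option autoImplicit false
set_option linter.unusedSectionVars false
set_option linter.unusedVariables false

namespace Pool.Agent.W_7d29a1_C0.Rq61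

open Finset MeasureTheory Filter Topology Pool.Agent.W_7d29a1_F Pool.Agent.W_7d29a1_X Pool.Agent.W_7d29a1_C0.Mod92
open Pool.Agent.W_7d29a1_C0 Pool.Agent.W_7d29a1_C0.Swap57 Pool.Agent.W_7d29a1_C0.Blk18 Pool.Agent.W_7d29a1_C0.NM82
open Pool.Agent.W_7d29a1_C0.MicE14 (rh rh_nonneg)
open Pool.Agent.W_7d29a1_C0.MicT14 (DifB)
open Pool.Agent.W_7d29a1_C0.GwA50 (GwW)
open Pool.Agent.W_7d29a1_C0.T72 (Sp72 Rb72 ind72 ind72_nonneg ind72_le_one meas_ind72 uj72 meas_uj72 wj_eq72 abs_uj72)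
open Pool.W7d29a1.C0 (gz gm gz_ne gz_pos gm_nonneg gm_mono gm_const PP PP_eq PP_mono PP_nonneg PP_add PP_smul rep)
open Pool.W7d29a1.C0.VT31
open Pool.W7d29a1.C0.H7 (E0D NL7 HL7 jA7)
open Pool.W7d29a1.C0.H27 (pB slb PA tA)
open Pool.W7d29a1.C0.C45
open Pool.W7d29a1.C0.Bd73 (nCn nCn_nonneg gj_dif)
open Pool.Agent.W_7d29a1_C0.E2aC81 (iT iT_nonneg iT_le_one T2 mq_T2 eW eT)
open Pool.Agent.W_7d29a1_C0.E2aM82 (vX rX)
open Pool.Agent.W_7d29a1_C0.E2aD81 (rh_le81 int_off81)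
open Pool.Agent.W_7d29a1_C0.Base5 (pW)
open Pool.Agent.W_7d29a1_C0.Flip61

noncomputable section

section One

variable {μ : Measure ℝ} {s : ℝ} {N y : ℕ} [IsProbabilityMeasure μ] [Nonempty (Px (Pn N y))]
variable {γ B t u D M : ℝ} {b0 b j m m0 m1 c0 K cb e : ℕ} {f : Fam N} {ε K' : ℝ}

theorem wu_wj61 (ω : Env × Finset ℕ) :
    wu μ s N (Pn N y) (uj72 μ s (Pn N y) γ B b0 j t) ω = wj μ s N (Pn N y) γ B b0 j ω t := wu_uj45 ω

/-- Integrability. -/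
theorem int_pV (hB : 0 ≤ B) (hb : b0 ≤ b) (hj : j + b ≤ N) (hf : Sp72 (Pn N y) m1 D c0 K (f y)) (m0 : ℕ)
    {V : Env × Finset ℕ → Px (Pn N y) → ℝ} (V0 : ∀ ω S, 0 ≤ V ω S) (V1 : ∀ ω S, V ω S ≤ 1) (Vm : ∀ S, Measurable fun ω => V ω S) :
    Integrable (fun ω => PP (wu μ s N (Pn N y) (uj72 μ s (Pn N y) γ B b0 j t) ω) (fun x x' => V ω x *
      (vX μ s N γ B b0 b j u y ω x * rh m0 m1 (f y ω) x x'))) (Pm μ N) :=
  int_rh45 (meas_uj72 γ B b0 j t) hf (z := m0) (B := (B / 2) ^ 2) (n := fun ω => vX μ s N γ B b0 b j u y ω)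
    (fun ω S => vX_nonneg ω S) (fun ω S => vX_le hB ω S) (fun S => meas_vX hB hb hj S) V0 V1 Vm

/-- A larger event. -/
theorem pV_mono (hB : 0 ≤ B) (hb : b0 ≤ b) (hj : j + b ≤ N) (hf : Sp72 (Pn N y) m1 D c0 K (f y)) (m0 : ℕ)
    {T T' : Env × Finset ℕ → Px (Pn N y) → Prop} (hT : ∀ S, MeasurableSet {ω | T ω S}) (hT' : ∀ S, MeasurableSet {ω | T' ω S})
    (h : ∀ ω S, T ω S → T' ω S) :
    pV61 μ s N γ B b0 b j t u m0 m1 f y T ≤ pV61 μ s N γ B b0 b j t u m0 m1 f y T' := by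
  refine integral_mono (int_pV hB hb hj hf m0 (V := ind72 T) (fun ω S => ind72_nonneg _ _ _) (fun ω S => ind72_le_one _ _ _)
    fun S => meas_ind72 hT S) (int_pV hB hb hj hf m0 (V := ind72 T') (fun ω S => ind72_nonneg _ _ _)
    (fun ω S => ind72_le_one _ _ _) fun S => meas_ind72 hT' S) fun ω => PP_mono _ fun x x' => ?_
  refine mul_le_mul_of_nonneg_right ?_ (mul_nonneg (vX_nonneg _ _) (rh_nonneg _ _ _))
  unfold ind72
  by_cases h1 : T ω x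
  · rw [if_pos h1, if_pos (h ω x h1)]
  · rw [if_neg h1]
    split_ifs <;> norm_num

/-- **THE REMAINDER OF ONE ROW, SPLIT BY THE LEVELS.** -/
theorem stat61 (hB : 0 ≤ B) (hb : b0 ≤ b) (hj : j + b ≤ N) (ht : |t| ≤ 1) (hf : Sp72 (Pn N y) m1 D c0 K (f y)) (m0 m : ℕ) (M dl : ℝ) :
    ∫ ω, rep 2 (wj μ s N (Pn N y) γ B b0 j ω t) (rX μ s N γ B b0 b j t u y f m0 m1 m ω) ∂(Pm μ N) ≤
      pV61 μ s N γ B b0 b j t u m0 m1 f y (fun ω S =>
        T2 (wm μ s N (Pn N y) ω) (pJ 0 m) (j - b) (j - b0) (j + b0) (j + b) (M + 2 * B + 1) S ∧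
          nP45 μ s N (Pn N y) γ B b0 j t dl c0 K ω S) +
      pV61 μ s N γ B b0 b j t u m0 m1 f y (fun ω S =>
        T2 (wf45 μ s N (Pn N y) γ B b0 j ω) (pJ 0 m) (j - b) (j - b0) (j + b0) (j + b) (M + 2 * B) S ∧
          nM45 μ s N (Pn N y) γ B b0 j t (dl / 2) c0 K ω S) +
      (B / 2) ^ 2 * th45 μ s N (Pn N y) γ B b0 j t dl c0 K
        (fun ω => T2 (wm μ s N (Pn N y) ω) (pJ 0 m) (j - b) (j - b0) (j + b0) (j + b) M) m0 m1 (f y) +
      (B / 2) ^ 2 * (2 * D) * eT B M := by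
  have hev := ev_T2 (Q := Pn N y) (pJ 0 m) (j - b) (j - b0) (j + b0) (j + b)
  have i0 := int_pV (μ := μ) (s := s) (γ := γ) (t := t) (u := u) hB hb hj hf m0
    (V := ind72 fun ω => T2 (wm μ s N (Pn N y) ω) (pJ 0 m) (j - b) (j - b0) (j + b0) (j + b) M)
    (fun ω S => ind72_nonneg _ _ _) (fun ω S => ind72_le_one _ _ _) fun S => meas_ind72 (fun S => hev.meas meas_wm _ S) S
  have h1 : ∫ ω, rep 2 (wj μ s N (Pn N y) γ B b0 j ω t) (rX μ s N γ B b0 b j t u y f m0 m1 m ω) ∂(Pm μ N) ≤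
      pV61 μ s N γ B b0 b j t u m0 m1 f y (fun ω =>
        T2 (wm μ s N (Pn N y) ω) (pJ 0 m) (j - b) (j - b0) (j + b0) (j + b) M) + (B / 2) ^ 2 * (2 * D) * eT B M := by
    have h2 := integral_mono_of_nonneg (μ := Pm μ N) (f := fun ω => rep 2 (wj μ s N (Pn N y) γ B b0 j ω t)
      (rX μ s N γ B b0 b j t u y f m0 m1 m ω)) (g := fun ω => PP (wu μ s N (Pn N y) (uj72 μ s (Pn N y) γ B b0 j t) ω) (fun x x' =>
        ind72 (fun ω => T2 (wm μ s N (Pn N y) ω) (pJ 0 m) (j - b) (j - b0) (j + b0) (j + b) M) ω x *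
          (vX μ s N γ B b0 b j u y ω x * rh m0 m1 (f y ω) x x')) + (B / 2) ^ 2 * (2 * D) * eT B M)
      (ae_of_all _ fun ω => by
        show (0 : ℝ) ≤ rep 2 (wj μ s N (Pn N y) γ B b0 j ω t) (rX μ s N γ B b0 b j t u y f m0 m1 m ω)
        rw [rep_rX]
        exact PP_nonneg _ fun x x' => mul_nonneg (E2a81.mM_nonneg _ _ _) (mul_nonneg (vX_nonneg _ _) (rh_nonneg _ _ _)))
      (i0.add (integrable_const _)) (ae_of_all _ fun ω => by
        beta_reduce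
        rw [wu_wj61]
        exact own61 hB ht (fun S => hf.bdd ω S) M)
    refine h2.trans (le_of_eq ?_)
    refine (integral_add i0 (integrable_const (μ := Pm μ N) ((B / 2) ^ 2 * (2 * D) * eT B M))).trans ?_
    rw [integral_const, measureReal_def, measure_univ, ENNReal.toReal_one, one_smul]
    rfl
  have h3 := splitN45 (μ := μ) (s := s) (N := N) (Q := Pn N y) (u := uj72 μ s (Pn N y) γ B b0 j t) (meas_uj72 γ B b0 j t)
    (z := m0) hf (B := (B / 2) ^ 2) (n := fun ω => vX μ s N γ B b0 b j u y ω) (fun ω S => vX_nonneg ω S) (fun ω S => vX_le hB ω S)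
    (fun S => meas_vX hB hb hj S)
    (A := fun ω => T2 (wm μ s N (Pn N y) ω) (pJ 0 m) (j - b) (j - b0) (j + b0) (j + b) M)
    (A₂ := fun ω => T2 (wf45 μ s N (Pn N y) γ B b0 j ω) (pJ 0 m) (j - b) (j - b0) (j + b0) (j + b) (M + 2 * B))
    (E := fun ω => T2 (wm μ s N (Pn N y) ω) (pJ 0 m) (j - b) (j - b0) (j + b0) (j + b) M)
    (n₁ := nP45 μ s N (Pn N y) γ B b0 j t dl c0 K) (n₂ := nM45 μ s N (Pn N y) γ B b0 j t (dl / 2) c0 K)
    (fun ω S h => hev.tilt (near_wf45 hB ω) le_rfl S h) (fun ω S h => h) (hev.meas meas_wm _) (hev.meas meas_wf45 _)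
    (hev.meas meas_wm _) (meas_nP45 dl) (meas_nM45 (dl / 2))
  have h4 := pV_mono (μ := μ) (s := s) (γ := γ) (t := t) (u := u) hB hb hj hf m0
    (T := fun ω S => T2 (wm μ s N (Pn N y) ω) (pJ 0 m) (j - b) (j - b0) (j + b0) (j + b) M S ∧
      nP45 μ s N (Pn N y) γ B b0 j t dl c0 K ω S)
    (T' := fun ω S => T2 (wm μ s N (Pn N y) ω) (pJ 0 m) (j - b) (j - b0) (j + b0) (j + b) (M + 2 * B + 1) S ∧
      nP45 μ s N (Pn N y) γ B b0 j t dl c0 K ω S)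
    (fun S => (hev.meas meas_wm _ S).inter (meas_nP45 dl S)) (fun S => (hev.meas meas_wm _ S).inter (meas_nP45 dl S))
    (fun ω S h => ⟨hev.mono (by linarith) h.1, h.2⟩)
  unfold pV61 th45 at *
  linarith

theorem ind_and61 {Q : Finset (Finset ℕ)} (A1 A2 A3 : Env × Finset ℕ → Px Q → Prop) (ω : Env × Finset ℕ) (x : Px Q) :
    ind72 A1 ω x * ind72 (fun ω S => A2 ω S ∧ A3 ω S) ω x = ind72 (fun ω S => (A1 ω S ∧ A2 ω S) ∧ A3 ω S) ω x := by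
  rw [ind_and45 A2 A3, ind_and45 (fun ω S => A1 ω S ∧ A2 ω S) A3, ind_and45 A1 A2, mul_assoc]

/-- **AT THE CORNER.** -/
theorem corner61 (R : RD61 μ s N (Pn N y) γ B b0 j t c0 K ε K') (hu : |u| ≤ 1) (hf : Cls59 N cb e D f) (hb : b0 ≤ b) (hj : j + b ≤ N)
    {κ δ₁ c' ε' : ℝ} (h1 : (N : ℝ) ^ κ ≤ ((j - (j - b0) : ℕ) : ℝ)) (h2 : (N : ℝ) ^ κ ≤ b0) (hm : c0 + K ≤ m) (hm0 : c0 + K ≤ m0)
    (hm1 : m0 ≤ m1) (hme : m1 ≤ e) (hDN : 2 * D ≤ (N : ℝ) ^ K') {dl : ℝ} (hdl : 0 ≤ dl) (hdl1 : dl ≤ 1) (M : ℝ) {ϑ P1 P2 : ℝ}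
    (hϑ : 0 ≤ ϑ) (hP1 : law μ {η | ¬ GwW μ s N κ γ δ₁ ε' c' η} ≤ ENNReal.ofReal P1)
    (hP2 : law μ {η | ϑ < gm (lw μ s η N (Pn N y)) (nCn μ s δ₁ (j - b0) (j + b0))} ≤ ENNReal.ofReal P2) (hP1' : 0 ≤ P1)
    (hP2' : 0 ≤ P2) :
    pV61 μ s N γ B b0 b j t u m0 m1 f y (fun ω S =>
        T2 (wm μ s N (Pn N y) ω) (pJ 0 m) (j - b) (j - b0) (j + b0) (j + b) M S ∧
          nP45 μ s N (Pn N y) γ B b0 j t dl c0 K ω S) ≤
      (B / 2) ^ 2 * ((N : ℝ) ^ ε * (cP45 μ s N (Pn N y) (fun ω S =>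
        T2 (wm μ s N (Pn N y) ω) (pW b j) (j - b0) j j (j + b0) (M + 4 * B) S ∧
          T2 (wm μ s N (Pn N y) ω) (pJ 0 m) (j - b) (j - b0) (j + b0) (j + b) (M + 4 * B) S) m0 m1 (f y) + (N : ℝ) ^ (-K'))) +
      (2 * D * eW B M (Real.exp ((N : ℝ) ^ ε')) (Real.exp (-(N : ℝ) ^ c')) (B / 2) ϑ + (B / 2) ^ 2 * (2 * D) * (P1 + P2)) := by
  have hB := R.B0
  have hev := ev_T2 (Q := Pn N y) (pJ 0 m) (j - b) (j - b0) (j + b0) (j + b)
  have hev' := ev_T2 (Q := Pn N y) (pW b j) (j - b0) j j (j + b0)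
  have hsp : Sp72 (Pn N y) m1 D c0 K (f y) := T72.sp72_of_cls hf hme (by omega : c0 + K ≤ e) y
  have hD0 : 0 ≤ D := (abs_nonneg _).trans (hf.bdd y (fun _ => 0, ∅) Classical.ofNonempty)
  have mE : ∀ S, MeasurableSet {ω : Env × Finset ℕ | T2 (wm μ s N (Pn N y) ω) (pJ 0 m) (j - b) (j - b0) (j + b0) (j + b) M S ∧
      nP45 μ s N (Pn N y) γ B b0 j t dl c0 K ω S} := fun S => (hev.meas meas_wm M S).inter (meas_nP45 dl S)
  have mV : ∀ S, MeasurableSet {ω : Env × Finset ℕ | (T2 (wm μ s N (Pn N y) ω) (pW b j) (j - b0) j j (j + b0) M S ∧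
      T2 (wm μ s N (Pn N y) ω) (pJ 0 m) (j - b) (j - b0) (j + b0) (j + b) M S) ∧ nP45 μ s N (Pn N y) γ B b0 j t dl c0 K ω S} := fun S =>
    ((hev'.meas meas_wm M S).inter (hev.meas meas_wm M S)).inter (meas_nP45 dl S)
  obtain ⟨G, hG⟩ : ∃ G : Env × Finset ℕ → ℝ, ∀ ω, G ω = PP (wu μ s N (Pn N y) (uj72 μ s (Pn N y) γ B b0 j t) ω) (fun x x' =>
      ind72 (fun ω S => (T2 (wm μ s N (Pn N y) ω) (pW b j) (j - b0) j j (j + b0) M S ∧
        T2 (wm μ s N (Pn N y) ω) (pJ 0 m) (j - b) (j - b0) (j + b0) (j + b) M S) ∧ nP45 μ s N (Pn N y) γ B b0 j t dl c0 K ω S) ω x *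
      rh m0 m1 (f y ω) x x') := ⟨_, fun _ => rfl⟩
  have hG' : G = fun ω => PP (wu μ s N (Pn N y) (uj72 μ s (Pn N y) γ B b0 j t) ω) (fun x x' =>
      ind72 (fun ω S => (T2 (wm μ s N (Pn N y) ω) (pW b j) (j - b0) j j (j + b0) M S ∧
        T2 (wm μ s N (Pn N y) ω) (pJ 0 m) (j - b) (j - b0) (j + b0) (j + b) M S) ∧ nP45 μ s N (Pn N y) γ B b0 j t dl c0 K ω S) ω x *
      rh m0 m1 (f y ω) x x') := funext hG
  have G0 : ∀ ω, 0 ≤ G ω := fun ω => by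
    rw [hG]
    exact PP_nonneg _ fun x x' => mul_nonneg (ind72_nonneg _ _ _) (rh_nonneg _ _ _)
  have iG : Integrable G (Pm μ N) := by
    rw [hG']
    exact int_bdd (M := 1 * (2 * D)) (meas_PP45 (meas_wu (meas_uj72 γ B b0 j t)) fun x x' =>
      (meas_ind72 mV x).mul (meas_rh45 hsp x x')) fun ω => abs_PP_le45 _ (fun x x' => mul_nonneg (ind72_nonneg _ _ _) (rh_nonneg _ _ _))
        fun x x' => mul_le_mul (ind72_le_one _ _ _) (rh_le45 hsp ω x x') (rh_nonneg _ _ _) zero_le_one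
  have key := int_off81 (μ := μ) (N := N)
    (Φ := fun ω => PP (wu μ s N (Pn N y) (uj72 μ s (Pn N y) γ B b0 j t) ω) (fun x x' => ind72 (fun ω S =>
        T2 (wm μ s N (Pn N y) ω) (pJ 0 m) (j - b) (j - b0) (j + b0) (j + b) M S ∧
          nP45 μ s N (Pn N y) γ B b0 j t dl c0 K ω S) ω x * (vX μ s N γ B b0 b j u y ω x * rh m0 m1 (f y ω) x x')))
    (G := fun ω => (B / 2) ^ 2 * G ω)
    (K0 := 2 * D * eW B M (Real.exp ((N : ℝ) ^ ε')) (Real.exp (-(N : ℝ) ^ c')) (B / 2) ϑ) (T := (B / 2) ^ 2 * (2 * D)) (P := P1 + P2)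
    (bad := {η | ¬ GwW μ s N κ γ δ₁ ε' c' η} ∪ {η | ϑ < gm (lw μ s η N (Pn N y)) (nCn μ s δ₁ (j - b0) (j + b0))})
    (fun ω => PP_nonneg _ fun x x' => mul_nonneg (ind72_nonneg _ _ _) (mul_nonneg (vX_nonneg _ _) (rh_nonneg _ _ _)))
    (fun ω => mul_nonneg (sq_nonneg _) (G0 ω)) (iG.const_mul _)
    (by unfold eW; positivity) (by positivity) (by positivity)
    (fun ω => ?_)
    ((measure_union_le _ _).trans (by
      rw [ENNReal.ofReal_add hP1' hP2']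
      exact add_le_add hP1 hP2)) fun ω hω => ?_
  · have hE := e0D_ev45 (μ := μ) (s := s) (N := N) (Q := Pn N y) (u := uj72 μ s (Pn N y) γ B b0 j t) (ε := ε) (K' := K')
      (θ := 2 * B / K) (R.hU (fun i => i = 0) hdl hdl1) (meas_uj72 γ B b0 j t) hm0 hm1 hsp hDN
      (T := fun ω S => T2 (wm μ s N (Pn N y) ω) (pW b j) (j - b0) j j (j + b0) M S ∧
        T2 (wm μ s N (Pn N y) ω) (pJ 0 m) (j - b) (j - b0) (j + b0) (j + b) M S)
      (T' := fun ω S => T2 (wm μ s N (Pn N y) ω) (pW b j) (j - b0) j j (j + b0) (M + 4 * B) S ∧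
        T2 (wm μ s N (Pn N y) ω) (pJ 0 m) (j - b) (j - b0) (j + b0) (j + b) (M + 4 * B) S)
      ((hev'.rbW (D := 2 * B) (by linarith) le_rfl (by linarith)).and (hev.rbW (D := 2 * B) (by linarith) le_rfl (by linarith)))
    rw [integral_const_mul] at key
    have h3 := mul_le_mul_of_nonneg_left hE (sq_nonneg (B / 2))
    have e3 : ∫ ω, G ω ∂(Pm μ N) = ∫ ω, PP (wu μ s N (Pn N y) (uj72 μ s (Pn N y) γ B b0 j t) ω) (fun x x' =>
      ind72 (fun ω S => (T2 (wm μ s N (Pn N y) ω) (pW b j) (j - b0) j j (j + b0) M S ∧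
        T2 (wm μ s N (Pn N y) ω) (pJ 0 m) (j - b) (j - b0) (j + b0) (j + b) M S) ∧ nP45 μ s N (Pn N y) γ B b0 j t dl c0 K ω S) ω x *
      rh m0 m1 (f y ω) x x') ∂(Pm μ N) := by rw [hG']
    rw [e3] at key
    exact key.trans (add_le_add h3 le_rfl)
  · refine (PP_mono _ fun x x' => ?_).trans (Pool.W7d29a1.C0.Row39.PP_const _ _).le
    calc _ ≤ 1 * ((B / 2) ^ 2 * (2 * D)) := mul_le_mul (ind72_le_one _ _ _)
          (mul_le_mul (vX_le hB ω x) (rh_le45 hsp ω x x') (rh_nonneg _ _ _) (sq_nonneg _))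
          (mul_nonneg (vX_nonneg _ _) (rh_nonneg _ _ _)) zero_le_one
      _ = _ := one_mul _
  · rw [Set.mem_union, not_or] at hω
    have g1 : GwW μ s N κ γ δ₁ ε' c' ω.1 := not_not.1 hω.1
    have g2 : gm (lw μ s ω.1 N (Pn N y)) (nCn μ s δ₁ (j - b0) (j + b0)) ≤ ϑ := not_lt.1 hω.2
    have hA : ∀ {t : ℝ}, |t| ≤ 1 → ∀ x : Px (Pn N y), |uj72 μ s (Pn N y) γ B b0 j t ω.2 ω.1 x| ≤ B := fun ht x =>
      abs_uj72 hB b0 j ht ω.2 ω.1 x
    have hdif : DifB (lw μ s ω.1 N (Pn N y)) (pJ (j - b0) (j + b0)) (NM (j - b0) j j (j + b0)) (Real.exp ((N : ℝ) ^ ε'))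
        (Real.exp (-(N : ℝ) ^ c')) (B / 2) (nCn μ s δ₁ (j - b0) (j + b0)) (gg μ s (Pn N y) γ B b0 ω j) := fun x x' => by
      have h := gj_dif g1 (Blk18.full_Pn N y) (by omega : j + b0 ≤ N) h1 h2 hB (sg_or ω.2 j) x x'
      have e : 2 * (B / 2) = B := by ring
      rw [e]
      exact h
    have k1 := mq_T2 (M := M) (w := lw μ s ω.1 N (Pn N y)) (hA R.ht) (hA hu)
      (crs_pJ (by omega) (by omega) : Crs (pW (Q := Pn N y) b j) (pJ (j - b0) (j + b0))) (by positivity : 0 ≤ B / 2)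
      (Real.exp_pos _).le (Real.exp_pos _).le (fun x => nCn_nonneg μ s δ₁ (j - b0) (j + b0) x) (fun x => abs_gg hB b0 ω j x) hdif
      (F0 := 2 * D) (H := fun x x' => ind72 (fun ω S =>
        T2 (wm μ s N (Pn N y) ω) (pJ 0 m) (j - b) (j - b0) (j + b0) (j + b) M S ∧
          nP45 μ s N (Pn N y) γ B b0 j t dl c0 K ω S) ω x * rh m0 m1 (f y ω) x x')
      (fun x x' => mul_nonneg (ind72_nonneg _ _ _) (rh_nonneg _ _ _))
      (fun x x' => (mul_le_of_le_one_left (rh_nonneg _ _ _) (ind72_le_one _ _ _)).trans (rh_le45 hsp ω x x'))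
    have k3 : eW B M (Real.exp ((N : ℝ) ^ ε')) (Real.exp (-(N : ℝ) ^ c')) (B / 2)
        (gm (lw μ s ω.1 N (Pn N y)) (nCn μ s δ₁ (j - b0) (j + b0))) ≤
        eW B M (Real.exp ((N : ℝ) ^ ε')) (Real.exp (-(N : ℝ) ^ c')) (B / 2) ϑ := by
      unfold eW
      refine mul_le_mul_of_nonneg_left (add_le_add le_rfl ?_) (by positivity)
      exact mul_le_mul_of_nonneg_left (mul_le_mul_of_nonneg_left g2 (Real.exp_pos _).le) (by positivity)
    have k5 := mul_le_mul_of_nonneg_left k3 (by positivity : 0 ≤ 2 * D)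
    show PP _ _ ≤ (B / 2) ^ 2 * G ω + _
    have e5 : PP (lw μ s ω.1 N (Pn N y) + uj72 μ s (Pn N y) γ B b0 j t ω.2 ω.1) (fun x x' =>
        iT (lw μ s ω.1 N (Pn N y)) (pW b j) (j - b0) j j (j + b0) M x * (ind72 (fun ω S =>
        T2 (wm μ s N (Pn N y) ω) (pJ 0 m) (j - b) (j - b0) (j + b0) (j + b) M S ∧
          nP45 μ s N (Pn N y) γ B b0 j t dl c0 K ω S) ω x * rh m0 m1 (f y ω) x x')) = G ω := by
      rw [hG]
      show PP _ _ = PP _ _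
      congr 1
      funext x x'
      rw [← mul_assoc]
      congr 1
      exact ind_and61 (fun ω S => T2 (wm μ s N (Pn N y) ω) (pW b j) (j - b0) j j (j + b0) M S)
        (fun ω S => T2 (wm μ s N (Pn N y) ω) (pJ 0 m) (j - b) (j - b0) (j + b0) (j + b) M S) (nP45 μ s N (Pn N y) γ B b0 j t dl c0 K) ω x
    rw [← e5]
    have e6 : (fun x x' => ind72 (fun ω S =>
        T2 (wm μ s N (Pn N y) ω) (pJ 0 m) (j - b) (j - b0) (j + b0) (j + b) M S ∧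
          nP45 μ s N (Pn N y) γ B b0 j t dl c0 K ω S) ω x * (vX μ s N γ B b0 b j u y ω x * rh m0 m1 (f y ω) x x')) = fun x x' =>
        cV (lw μ s ω.1 N (Pn N y) + uj72 μ s (Pn N y) γ B b0 j u ω.2 ω.1) (pW b j) (gg μ s (Pn N y) γ B b0 ω j) x *
        (ind72 (fun ω S =>
        T2 (wm μ s N (Pn N y) ω) (pJ 0 m) (j - b) (j - b0) (j + b0) (j + b) M S ∧
          nP45 μ s N (Pn N y) γ B b0 j t dl c0 K ω S) ω x * rh m0 m1 (f y ω) x x') := by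
      funext x x'
      have e7 : vX μ s N γ B b0 b j u y ω x =
          cV (lw μ s ω.1 N (Pn N y) + uj72 μ s (Pn N y) γ B b0 j u ω.2 ω.1) (pW b j) (gg μ s (Pn N y) γ B b0 ω j) x := by
        unfold vX
        rw [wj_eq72]
        rfl
      rw [e7]
      ring
    rw [e6]
    show PP (lw μ s ω.1 N (Pn N y) + uj72 μ s (Pn N y) γ B b0 j t ω.2 ω.1) _ ≤ _
    linarith

end One

end

end Pool.Agent.W_7d29a1_C0.Rq61
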