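import Pool.Agent.W_7d29a1_C0.Rq13H

/-!
MP_7d29a1_pr, [CURV0] / [C0], leaf E2a, THE REMAINDER (RQ), part F (helper61): `lbA61` = `lb13` (helper13) with the order of the constants which
the frame needs (`β₀` before the lower exponent of the level); `lbE61`: the same in terms of `cP45 (Eq61 ..)`.
-/

set_option autoImplicit false
set_option linter.unusedSectionVars false
set_option linter.unusedVariables false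

namespace Pool.Agent.W_7d29a1_C0.Rq61

open MeasureTheory ProbabilityTheory Filter Topology Finset
open Pool.Agent.W_7d29a1_F Pool.Agent.W_7d29a1_X Pool.Agent.W_7d29a1_H
open Pool.Agent.W_7d29a1_HS (In)
open Pool.Agent.W_7d29a1_HZ (wd' EE')
open Pool.Agent.W_7d29a1_C0 Pool.Agent.W_7d29a1_C0.Mod92
open Pool.Agent.W_7d29a1_C0.Swap57 (NI cE2 NI_nonneg SwQ)
open Pool.Agent.W_7d29a1_C0.MicE14 (rh rh_nonneg)
open Pool.Agent.W_7d29a1_C0.T72 (meas_PP72 abs_PP_bd72 ind72)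
open Pool.Agent.W_7d29a1_C0.E2aC81 (iT iT_nonneg iT_le_one T2)
open Pool.Agent.W_7d29a1_C0.GwA50 (GwW)
open Pool.W7d29a1.C0 (gz gm gz_pos gm_nonneg gm_mono gm_const PP PP_mono PP_nonneg PP_add PP_smul)
open Pool.W7d29a1.C0.VT31
open Pool.W7d29a1.C0.R43 (Tau Rp)
open Pool.W7d29a1.C0.O1 (okE Kap en)
open Pool.W7d29a1.C0.Bd73 (nCn nCn_nonneg)
open Pool.W7d29a1.C0.H7 (jA7 jA7_01 meas_jA7)
open Pool.W7d29a1.C0.C45 (cP45)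
open Pool.Agent.W_7d29a1_C0.Rq13 (Rg13 UA13 UB13 int_UL13 ev13 lb2_13 UL_nonneg13 cPQ13)

noncomputable section

variable {μ : Measure ℝ} {s : ℝ} {N : ℕ}

section Lb

variable [IsProbabilityMeasure μ]

/-- **THE LEVELS TIMES THE OWN EVENT, IN THE MEAN**: `lb13` of helper13, `β₀` before the lower exponent `aM` of the level. -/
theorem lbA61 {c₀ C₀ : ℝ} {n₀ : ℕ} (hIn : In μ s c₀ C₀ n₀) {κ κ₁ : ℝ} (hκ : 0 < κ) (hκ₁ : 0 < κ₁) :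
    ∃ β₀ : ℝ, 0 < β₀ ∧ ∀ aM : ℝ, 0 < aM → ∀ δk : ℝ, 0 < δk → ∃ δ' c' : ℝ, 0 < δ' ∧ 0 < c' ∧ ∃ N₀ : ℕ,
      ∀ N : ℕ, N₀ ≤ N → ∀ y : ℕ, y ≤ N → |(y : ℝ) - sl μ s * N| ≤ ((N : ℝ) ^ δ' * wd' μ s N) → ∀ [Nonempty (Px (Pn N y))],
      ∀ (B : ℝ) (b0 b j : ℕ), 0 ≤ B → B ≤ (N : ℝ) ^ β₀ → (N : ℝ) ^ κ ≤ b0 → b ≤ j → b0 ≤ b → ∀ r : Rg13, j + b0 ≤ r.z → r.Ok b0 j →
      (N : ℝ) ^ κ₁ ≤ r.q → (r.q : ℝ) ≤ N → r.d ≤ Real.exp (-(N : ℝ) ^ κ₁) → r.e1 ≤ Real.exp (-(N : ℝ) ^ κ₁) →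
      r.d3 ≤ Real.exp (-(N : ℝ) ^ κ₁) → ∀ dl m' : ℝ, (N : ℝ)⁻¹ ≤ dl → m' ≤ (N : ℝ) ^ β₀ → ∀ (m m0 m1 cb e : ℕ) (D : ℝ) (f : Fam N),
      r.z ≤ m → m ≤ m0 → m0 ≤ m1 → m1 ≤ e → m1 ≤ N → Cls59 N cb e D f → ∀ V : Env × Finset ℕ → Px (Pn N y) → ℝ, (∀ ω x, 0 ≤ V ω x) →
      (∀ ω x, V ω x ≤ 1) → ∀ M : ℝ, 8 ≤ M → (N : ℝ) ^ aM ≤ M → ∀ qo τL τR lo : ℕ, 10 * M ≤ qo → (qo : ℝ) ≤ 20 * M →
      j - b ≤ τL → τL + 3 * qo * (lo + 1) ≤ j - b0 → j + b0 ≤ τR → τR + 3 * qo * (lo + 1) ≤ j + b →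
      ∫ ω, PP (wm μ s N (Pn N y) ω) (fun x x' => jA7 μ s N (Pn N y) δk B b0 j r.z dl m' (V ω) ω.1 (sg ω.2 j) x *
        (iT (wm μ s N (Pn N y) ω) (pJ 0 m) (j - b) (j - b0) (j + b0) (j + b) M x * rh m0 m1 (f y ω) x x')) ∂(Pm μ N) ≤
        ∫ ω, PP (wm μ s N (Pn N y) ω) (fun x x' => UA13 μ s N r m τL lo qo M y ω x * rh m0 m1 (f y ω) x x') ∂(Pm μ N) +
        ∫ ω, PP (wm μ s N (Pn N y) ω) (fun x x' => UB13 μ s N r m τL lo qo M y ω x * rh m0 m1 (f y ω) x x') ∂(Pm μ N) +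
        (∫ ω, PP (wm μ s N (Pn N y) ω) (fun x x' => UA13 μ s N r m τR lo qo M y ω x * rh m0 m1 (f y ω) x x') ∂(Pm μ N) +
        ∫ ω, PP (wm μ s N (Pn N y) ω) (fun x x' => UB13 μ s N r m τR lo qo M y ω x * rh m0 m1 (f y ω) x x') ∂(Pm μ N)) +
        D * Real.exp (-(N : ℝ) ^ c') := by
  obtain ⟨a₁, ha₁, hA⟩ := TauE34.nCn34 hIn hκ
  obtain ⟨c1, hc1, hGw⟩ := Pool.Agent.W_7d29a1_C0.GwA50.gw_ord73 hIn (ε := κ₁ / 2) hκ (by positivity)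
  obtain ⟨β₀, hβ₀⟩ : ∃ β₀ : ℝ, β₀ = min (min 1 (κ₁ / 2)) (min (c1 / 2) (a₁ / 2)) := ⟨_, rfl⟩
  refine ⟨β₀, by rw [hβ₀]; exact lt_min (lt_min one_pos (by positivity)) (lt_min (by positivity) (by positivity)), fun aM haM δk hδk => ?_⟩
  obtain ⟨δ₁, hδ₁, -, N₂, hN₂⟩ := hGw δk hδk
  obtain ⟨δ₂, c2, hδ₂, hc2, N₃, hN₃⟩ := hA δ₁ hδ₁
  obtain ⟨c', hc', N₄, hN₄⟩ := ev13 hκ₁ hc1 ha₁ haM hc2
  refine ⟨δ₂, c', hδ₂, hc', max N₂ (max N₃ (max N₄ 1)), fun N hN y hy hyc hne B b0 b j hB hBN hb0 hbj hbb r hz ho hq hqN hd he1 hd3 dl m' hdl hm'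
    m m0 m1 cb e D f hzm hm0 hm hme hmN hf V hV0 hV1 M hM8 hM qo τL τR lo hqo hqo' hL1 hL2 hR1 hR2 => ?_⟩
  have k2 : N₂ ≤ N := (le_max_left _ _).trans hN
  have k3 : N₃ ≤ N := (le_max_left _ _).trans ((le_max_right _ _).trans hN)
  have k4 : N₄ ≤ N := (le_max_left _ _).trans ((le_max_right _ _).trans ((le_max_right _ _).trans hN))
  have hD0 : 0 ≤ D := (abs_nonneg _).trans (hf.bdd y (fun _ => 0, ∅) Classical.ofNonempty)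
  rw [hβ₀] at hBN hm'
  have hnum := hN₄ N k4 B M m' dl r.d r.e1 r.d3 r.q hB hBN hm' hM hdl hq hqN ho.hd ho.he ho.h3 hd he1 hd3
  have hw1 : (N : ℝ) ^ κ ≤ ((j - (j - b0) : ℕ) : ℝ) := by
    have e1 : j - (j - b0) = b0 := by omega
    rw [e1]
    exact hb0
  have hw2 : (N : ℝ) ^ κ ≤ ((j + b0 - (j - b0) : ℕ) : ℝ) := by
    refine hb0.trans ?_
    exact_mod_cast (by omega : b0 ≤ j + b0 - (j - b0))
  have hN0 : (0 : ℝ) < N := by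
    have : 1 ≤ N := (le_max_right _ _).trans ((le_max_right _ _).trans ((le_max_right _ _).trans hN))
    exact_mod_cast this
  have hdl0 : 0 < dl := lt_of_lt_of_le (inv_pos.2 hN0) hdl
  have iA := fun τ => int_UL13 (μ := μ) (s := s) (N := N) (y := y) (z := r.z) (q := r.q) (g0 := r.g0) (g1 := r.g1) (t1 := r.a1) (l1 := r.m1)
    (t2 := r.a2) (l2 := r.m2) (m := m) (τ := τ) (l := lo) (qo := qo) (m0 := m0) (m1 := m1) (dd := r.d) (e1 := r.e1) (d3 := r.d3) (M := M) hy hf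
  have iB := fun τ => int_UL13 (μ := μ) (s := s) (N := N) (y := y) (z := r.z) (q := r.q) (g0 := r.g0) (g1 := r.g1) (t1 := r.b1) (l1 := r.n1)
    (t2 := r.b2) (l2 := r.n2) (m := m) (τ := τ) (l := lo) (qo := qo) (m0 := m0) (m1 := m1) (dd := r.d) (e1 := r.e1) (d3 := r.d3) (M := M) hy hf
  have pos : ∀ (U : Px (Pn N y) → ℝ) (ω : Env × Finset ℕ), (∀ x, 0 ≤ U x) →
      0 ≤ PP (wm μ s N (Pn N y) ω) (fun x x' => U x * rh m0 m1 (f y ω) x x') := fun U ω hU =>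
    PP_nonneg _ fun x x' => mul_nonneg (hU x) (rh_nonneg _ _ _)
  have key := E2aD81.int_off81 (μ := μ) (N := N)
    (Φ := fun ω => PP (wm μ s N (Pn N y) ω) (fun x x' => jA7 μ s N (Pn N y) δk B b0 j r.z dl m' (V ω) ω.1 (sg ω.2 j) x *
        (iT (wm μ s N (Pn N y) ω) (pJ 0 m) (j - b) (j - b0) (j + b0) (j + b) M x * rh m0 m1 (f y ω) x x')))
    (G := fun ω => PP (wm μ s N (Pn N y) ω) (fun x x' => UA13 μ s N r m τL lo qo M y ω x * rh m0 m1 (f y ω) x x') +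
        PP (wm μ s N (Pn N y) ω) (fun x x' => UB13 μ s N r m τL lo qo M y ω x * rh m0 m1 (f y ω) x x') +
        (PP (wm μ s N (Pn N y) ω) (fun x x' => UA13 μ s N r m τR lo qo M y ω x * rh m0 m1 (f y ω) x x') +
        PP (wm μ s N (Pn N y) ω) (fun x x' => UB13 μ s N r m τR lo qo M y ω x * rh m0 m1 (f y ω) x x')))
    (K0 := 2 * D * (Real.exp m' * Kap 0 (Real.exp ((N : ℝ) ^ (κ₁ / 2))) dl r.q r.d r.e1 r.d3 +
          Real.exp m' * (6 / dl) * (Real.exp (-(N : ℝ) ^ c1) + B * Real.exp (-(N : ℝ) ^ a₁)) + 2 * Real.exp (-M))) (T := 2 * D)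
    (P := Real.exp (-(N : ℝ) ^ c1) + Real.exp (-(N : ℝ) ^ c2))
    (bad := {η | ¬ GwW μ s N κ δk δ₁ (κ₁ / 2) c1 η} ∪ {η | Real.exp (-(N : ℝ) ^ a₁) < gm (lw μ s η N (Pn N y)) (nCn μ s δ₁ (j - b0) (j + b0))})
    (fun ω => PP_nonneg _ fun x x' => mul_nonneg jA7_01.1 (mul_nonneg (iT_nonneg _ _ _ _ _ _ _ _) (rh_nonneg _ _ _)))
    (fun ω => add_nonneg (add_nonneg (pos _ ω fun x => UL_nonneg13 y ω x) (pos _ ω fun x => UL_nonneg13 y ω x))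
      (add_nonneg (pos _ ω fun x => UL_nonneg13 y ω x) (pos _ ω fun x => UL_nonneg13 y ω x)))
    (((iA τL).add (iB τL)).add ((iA τR).add (iB τR)))
    (by
      have h1 := ho.hd
      have h2 := ho.he
      have h3 := ho.h3
      unfold Kap
      positivity) (by positivity) (by positivity)
    (fun ω => (PP_mono _ (R := fun _ _ => 2 * D) fun x x' => ?_).trans_eq (Pool.W7d29a1.C0.Row39.PP_const _ _))
    ((measure_union_le _ _).trans (by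
      rw [ENNReal.ofReal_add (Real.exp_pos _).le (Real.exp_pos _).le]
      exact add_le_add (hN₂ N k2) (hN₃ N k3 y hy hyc (j - b0) (j + b0) hw2 (by omega)))) fun ω hω => ?_
  · refine key.trans ?_
    have e1 : ∫ ω, (PP (wm μ s N (Pn N y) ω) (fun x x' => UA13 μ s N r m τL lo qo M y ω x * rh m0 m1 (f y ω) x x') +
        PP (wm μ s N (Pn N y) ω) (fun x x' => UB13 μ s N r m τL lo qo M y ω x * rh m0 m1 (f y ω) x x') +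
        (PP (wm μ s N (Pn N y) ω) (fun x x' => UA13 μ s N r m τR lo qo M y ω x * rh m0 m1 (f y ω) x x') +
        PP (wm μ s N (Pn N y) ω) (fun x x' => UB13 μ s N r m τR lo qo M y ω x * rh m0 m1 (f y ω) x x'))) ∂(Pm μ N) =
        ∫ ω, PP (wm μ s N (Pn N y) ω) (fun x x' => UA13 μ s N r m τL lo qo M y ω x * rh m0 m1 (f y ω) x x') ∂(Pm μ N) +
        ∫ ω, PP (wm μ s N (Pn N y) ω) (fun x x' => UB13 μ s N r m τL lo qo M y ω x * rh m0 m1 (f y ω) x x') ∂(Pm μ N) +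
        (∫ ω, PP (wm μ s N (Pn N y) ω) (fun x x' => UA13 μ s N r m τR lo qo M y ω x * rh m0 m1 (f y ω) x x') ∂(Pm μ N) +
        ∫ ω, PP (wm μ s N (Pn N y) ω) (fun x x' => UB13 μ s N r m τR lo qo M y ω x * rh m0 m1 (f y ω) x x') ∂(Pm μ N)) := by
      have a1 := integral_add ((iA τL).add (iB τL)) ((iA τR).add (iB τR))
      have a2 := integral_add (iA τL) (iB τL)
      have a3 := integral_add (iA τR) (iB τR)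
      simp only [Pi.add_apply] at a1 a2 a3
      exact a1.trans (congrArg₂ (· + ·) a2 a3)
    rw [e1]
    have h5 := mul_le_mul_of_nonneg_left hnum hD0
    linarith
  · have h1 := E2aD81.rh_le81 (m0 := m0) (m1 := m1) (fun S => hf.bdd y ω S) x x'
    have h2 := rh_nonneg (z := m0) (c := m1) (f y ω) x x'
    have h3 : iT (wm μ s N (Pn N y) ω) (pJ 0 m) (j - b) (j - b0) (j + b0) (j + b) M x * rh m0 m1 (f y ω) x x' ≤ 2 * D :=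
      (mul_le_of_le_one_left h2 (iT_le_one _ _ _ _ _ _ _ _)).trans h1
    exact (mul_le_of_le_one_left (mul_nonneg (iT_nonneg _ _ _ _ _ _ _ _) h2) jA7_01.2).trans h3
  · rw [Set.mem_union, not_or] at hω
    have g1 : GwW μ s N κ δk δ₁ (κ₁ / 2) c1 ω.1 := not_not.1 hω.1
    have g2 : gm (lw μ s ω.1 N (Pn N y)) (nCn μ s δ₁ (j - b0) (j + b0)) ≤ Real.exp (-(N : ℝ) ^ a₁) := not_lt.1 hω.2
    exact lb2_13 g1 (by omega) hw1 hb0 hB hz ho hdl0 (hV0 ω) (hV1 ω) hzm hm0 hm (Pool.Agent.W_7d29a1_C0.E1M82.rk_cls hf hme y ω)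
      (fun S => hf.bdd y ω S) g2 hM8 hqo hqo' hL1 hL2 hR1 hR2

/-- **THE LEVEL EVENT OF THE REMAINDER AT THE CORNER AGAINST FOUR ROW EVENTS.** -/
theorem lbE61 {c₀ C₀ : ℝ} {n₀ : ℕ} (hIn : In μ s c₀ C₀ n₀) {κ κ₁ : ℝ} (hκ : 0 < κ) (hκ₁ : 0 < κ₁) :
    ∃ β₀ : ℝ, 0 < β₀ ∧ ∀ aM : ℝ, 0 < aM → ∀ γ : ℝ, 0 < γ → ∃ δ' c' : ℝ, 0 < δ' ∧ 0 < c' ∧ ∃ N₀ : ℕ,
      ∀ N : ℕ, N₀ ≤ N → ∀ y : ℕ, y ≤ N → |(y : ℝ) - sl μ s * N| ≤ ((N : ℝ) ^ δ' * wd' μ s N) →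
      ∀ (B : ℝ) (b0 b j : ℕ), 0 ≤ B → B ≤ (N : ℝ) ^ β₀ → (N : ℝ) ^ κ ≤ b0 → b ≤ j → b0 ≤ b → ∀ r : Rg13, j + b0 ≤ r.z → r.Ok b0 j →
      (N : ℝ) ^ κ₁ ≤ r.q → (r.q : ℝ) ≤ N → r.d ≤ Real.exp (-(N : ℝ) ^ κ₁) → r.e1 ≤ Real.exp (-(N : ℝ) ^ κ₁) →
      r.d3 ≤ Real.exp (-(N : ℝ) ^ κ₁) → ∀ d M : ℝ, (N : ℝ)⁻¹ ≤ d → 8 ≤ M → (N : ℝ) ^ aM ≤ M → 5 * M ≤ (N : ℝ) ^ β₀ →
      ∀ (m m0 m1 cb e : ℕ) (D : ℝ) (f : Fam N), r.z ≤ m → m ≤ m0 → m0 ≤ m1 → m1 ≤ e → m1 ≤ N → Cls59 N cb e D f →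
      ∀ qo τL τR lo : ℕ, 10 * M ≤ qo → (qo : ℝ) ≤ 20 * M →
      j - b ≤ τL → τL + 3 * qo * (lo + 1) ≤ j - b0 → j + b0 ≤ τR → τR + 3 * qo * (lo + 1) ≤ j + b →
      cP45 μ s N (Pn N y) (Eq61 μ s N y γ B b0 b j m r.z d M) m0 m1 (f y) ≤
        ∫ ω, PP (wm μ s N (Pn N y) ω) (fun x x' => UA13 μ s N r m τL lo qo M y ω x * rh m0 m1 (f y ω) x x') ∂(Pm μ N) +
        ∫ ω, PP (wm μ s N (Pn N y) ω) (fun x x' => UB13 μ s N r m τL lo qo M y ω x * rh m0 m1 (f y ω) x x') ∂(Pm μ N) +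
        (∫ ω, PP (wm μ s N (Pn N y) ω) (fun x x' => UA13 μ s N r m τR lo qo M y ω x * rh m0 m1 (f y ω) x x') ∂(Pm μ N) +
        ∫ ω, PP (wm μ s N (Pn N y) ω) (fun x x' => UB13 μ s N r m τR lo qo M y ω x * rh m0 m1 (f y ω) x x') ∂(Pm μ N)) +
        D * Real.exp (-(N : ℝ) ^ c') := by
  obtain ⟨β₀, hβ₀, h⟩ := lbA61 hIn hκ hκ₁
  refine ⟨β₀, hβ₀, fun aM haM γ hγ => ?_⟩
  obtain ⟨δ', c', hδ', hc', N₀, hN₀⟩ := h aM haM γ hγ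
  refine ⟨δ', c', hδ', hc', N₀, fun N hN y hy hyc B b0 b j hB hBN hb0 hbj hbb r hz ho hq hqN hd he1 hd3 d M hdl hM8 hM h5 m m0 m1 cb e D f
    hzm hm0 hm hme hmN hf qo τL τR lo hqo hqo' hL1 hL2 hR1 hR2 => ?_⟩
  have hne := ne_Pn hy
  rw [cPQ13]
  exact hN₀ N hN y hy hyc B b0 b j hB hBN hb0 hbj hbb r hz ho hq hqN hd he1 hd3 d (5 * M) hdl h5
    m m0 m1 cb e D f hzm hm0 hm hme hmN hf (fun ω => ind72 (fun _ _ => True) ω) (fun ω x => E2S39.i0 _ _ _) (fun ω x => E2S39.i1 _ _ _) M hM8 hM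
    qo τL τR lo hqo hqo' hL1 hL2 hR1 hR2

end Lb

end

end Pool.Agent.W_7d29a1_C0.Rq61
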