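import Pool.Agent.W_7d29a1_C0.Rq13A
import Pool.Agent.W_7d29a1_C0.E2aF81
import Pool.Agent.W_7d29a1_C0.E2aV82

/-!
CURV0 (MP_7d29a1_pr), leaf E2a, the remainder, END, first part (helper81): `RQ81` of a block from the row inequality against finitely many
event functionals of the base path and from their second moments without the outer tie (`RowY81`), and `RQV81` at the concrete frame
from `RqY81`.
-/

set_option autoImplicit false
set_option linter.unusedSectionVars false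
set_option linter.unusedVariables false

namespace Pool.Agent.W_7d29a1_C0.RqB81

open Finset MeasureTheory Filter Topology Pool.Agent.W_7d29a1_F Pool.Agent.W_7d29a1_X Pool.Agent.W_7d29a1_H
open Pool.Agent.W_7d29a1_HS (In)
open Pool.Agent.W_7d29a1_HZ (wd' EE')
open Pool.Agent.W_7d29a1_C0 Pool.Agent.W_7d29a1_C0.Mod92 Pool.Agent.W_7d29a1_C0.Swap57
open Pool.W7d29a1.C0 Pool.W7d29a1.C0.VT31
open Pool.Agent.W_7d29a1_C0.MicE14 (rh rh_nonneg)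
open Pool.W7d29a1.C0.C45 (meas_PP45 abs_PP_le45)
open Pool.Agent.W_7d29a1_C0.T72 (NN72 NN72_nonneg)
open Pool.Agent.W_7d29a1_C0.T93 (pr2 rw2 grp_one)
open Pool.Agent.W_7d29a1_C0.Rq13 (tot13)
open Pool.Agent.W_7d29a1_C0.E2aM82 (rX)
open Pool.Agent.W_7d29a1_C0.E2aT82 (rM RQ81)
open Pool.Agent.W_7d29a1_C0.E2aD81 (rh_le81)
open Pool.Agent.W_7d29a1_C0.Far34 (avy_root34 varF_nonneg34 avy_const_le)

noncomputable section

variable {μ : Measure ℝ} {s : ℝ} {N : ℕ}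

/-- The functionals of the base path which are admissible in front of the outer tie. -/
structure Ev81 (N zf : ℕ) (U : Fam N) : Prop where
  u0 : ∀ y ω x, 0 ≤ U y ω x
  u1 : ∀ y ω x, U y ω x ≤ 1
  ms : ∀ y x, Measurable fun ω => U y ω x
  bl : ∀ y (η η' : Env) (A : Finset ℕ) x, (∀ q : Pt, ¬ (0 ≤ q.1 ∧ q.1.toNat ∈ Ioo zf N) → η q = η' q) → U y (η, A) x = U y (η', A) x

theorem sym72 {y zf c : ℕ} (ω : Env × Finset ℕ) (x z : Px (Pn N y)) : NN72 N zf c y ω x z = NN72 N zf c y ω z x :=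
  Pool.Agent.W_7d29a1_C0.E2S39.NI_symm39 _ _ _ _

/-- **THE SUM OVER THE ROWS FROM THE SECOND MOMENT.** -/
theorem rsumY81 [IsProbabilityMeasure μ] {c₀ C₀ : ℝ} {n₀ : ℕ} (h : In μ s c₀ C₀ n₀) : ∀ ε θ : ℝ, 0 < ε → 0 < θ → ∃ δ c₂ : ℝ, 0 < δ ∧
    0 < c₂ ∧ ∃ L₀ : ℕ, ∀ N : ℕ, L₀ ≤ N → ∀ ys : Finset ℕ, (∀ y ∈ ys, y ≤ N ∧ |(y : ℝ) - sl μ s * N| ≤ ((N : ℝ) ^ δ * wd' μ s N)) →
    ∀ zf c : ℕ, zf ≤ c → c ≤ N → (N : ℝ) ^ θ ≤ ((c - zf : ℕ) : ℝ) → ∀ (S : Finset ℕ) (U : ℕ → Fam N), (∀ j ∈ S, Ev81 N zf (U j)) →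
    ∀ (f : Fam N) (D : ℝ), (∀ y (S : Px (Pn N y)), Measurable fun ω => f y ω S) → (∀ y ω (S : Px (Pn N y)), |f y ω S| ≤ D) →
    ∀ Y : ℝ, 0 ≤ Y → (∀ y ∈ ys, ∫ ω, gm (wm μ s N (Pn N y) ω) (fun x => (∑ j ∈ S, U j y ω x) ^ 2) ∂(Pm μ N) ≤ Y) →
    ∑ j ∈ S, avy ys (fun y => ∫ ω, PP (wm μ s N (Pn N y) ω) (fun x x' => U j y ω x * rh zf c (f y ω) x x') ∂(Pm μ N)) ≤
      √(4 * ((N : ℝ) ^ ε * (EE' μ s (c - zf))⁻¹ * Y + (S.card : ℝ) ^ 2 * Real.exp (-(N : ℝ) ^ c₂))) * √(2 * avy ys (varF μ s N f)) := by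
  intro ε θ hε hθ
  obtain ⟨δ, c₂, hδ, hc₂, L₀, hP⟩ := tot13 h ε θ hε hθ
  refine ⟨δ, c₂, hδ, hc₂, L₀, fun N hN ys hys zf c hzc hcN hlo S U hU f D fm fb Y hY hYy => ?_⟩
  have hyN : ∀ y ∈ ys, y ≤ N := fun y hy => (hys y hy).1
  obtain ⟨P, hPd⟩ : ∃ P : ℝ, P = (N : ℝ) ^ ε * (EE' μ s (c - zf))⁻¹ * Y + (S.card : ℝ) ^ 2 * Real.exp (-(N : ℝ) ^ c₂) := ⟨_, rfl⟩
  have E0 : 1 ≤ EE' μ s (c - zf) := le_max_left _ _
  have hN0 : (0 : ℝ) ≤ (N : ℝ) ^ ε := Real.rpow_nonneg (Nat.cast_nonneg _) _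
  have hP0 : 0 ≤ P := by rw [hPd]; positivity
  rw [← hPd]
  -- one end
  have hone : ∀ y ∈ ys, ∑ j ∈ S, ∫ ω, PP (wm μ s N (Pn N y) ω) (fun x x' => U j y ω x * rh zf c (f y ω) x x') ∂(Pm μ N) ≤
      √(2 * varF μ s N f y) * √(4 * P) := fun y hy => by
    have := ne_Pn (hyN y hy)
    have hD0 : 0 ≤ D := (abs_nonneg _).trans (fb y (fun _ => 0, ∅) Classical.ofNonempty)
    have htot := hP N hN y (hyN y hy) (hys y hy).2 zf c hzc hcN hlo S U (fun j hj A x => ((hU j hj).ms y x).comp measurable_prodMk_right)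
      (fun j hj ω x => (hU j hj).u0 y ω x) (fun j hj ω x => (hU j hj).u1 y ω x) (fun j hj η η' A x hq => (hU j hj).bl y η η' A x hq)
      (fun j hj x => (hU j hj).ms y x)
    have hI : ∀ j ∈ S, ∀ k ∈ S, Integrable (fun ω => PP (wm μ s N (Pn N y) ω) fun x z => NN72 N zf c y ω x z * (U j y ω x * U k y ω x))
        (Pm μ N) := fun j hj k hk => by
      refine int_bdd (M := 1) (meas_PP45 meas_wm fun x z => measurable_const.mul (((hU j hj).ms y x).mul ((hU k hk).ms y x))) fun ω =>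
        abs_PP_le45 _ (fun x z => mul_nonneg (NN72_nonneg zf c y ω x z) (mul_nonneg ((hU j hj).u0 y ω x) ((hU k hk).u0 y ω x)))
          fun x z => ?_
      have h1 : NN72 N zf c y ω x z ≤ 1 := Pool.Agent.W_7d29a1_C0.CutT57.NI_le_one _ _ _ _
      have h2 := mul_le_mul ((hU j hj).u1 y ω x) ((hU k hk).u1 y ω x) ((hU k hk).u0 y ω x) zero_le_one
      calc NN72 N zf c y ω x z * (U j y ω x * U k y ω x) ≤ 1 * (1 * 1) :=
            mul_le_mul h1 h2 (mul_nonneg ((hU j hj).u0 y ω x) ((hU k hk).u0 y ω x)) zero_le_one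
        _ = 1 := by norm_num
    have bd : ∀ ω (x z : Px (Pn N y)), |f y ω x - f y ω z| ≤ 2 * D := fun ω x z =>
      (abs_sub _ _).trans (by linarith [fb y ω x, fb y ω z])
    have hJ : ∀ j ∈ S, Integrable (fun ω => PP (wm μ s N (Pn N y) ω) fun x z =>
        NN72 N zf c y ω x z * (U j y ω x + U j y ω z) * |f y ω x - f y ω z|) (Pm μ N) := fun j hj => by
      refine int_bdd (M := 1 * 2 * (2 * D)) (meas_PP45 meas_wm fun x z => (measurable_const.mul (((hU j hj).ms y x).add ((hU j hj).ms y z))).mul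
        ((fm y x).sub (fm y z)).abs) fun ω => abs_PP_le45 _ (fun x z =>
          mul_nonneg (mul_nonneg (NN72_nonneg _ _ _ _ _ _) (add_nonneg ((hU j hj).u0 y ω x) ((hU j hj).u0 y ω z))) (abs_nonneg _)) fun x z => ?_
      have h1 : NN72 N zf c y ω x z ≤ 1 := Pool.Agent.W_7d29a1_C0.CutT57.NI_le_one _ _ _ _
      have h2 : U j y ω x + U j y ω z ≤ 2 := by linarith [(hU j hj).u1 y ω x, (hU j hj).u1 y ω z]
      exact mul_le_mul (mul_le_mul h1 h2 (add_nonneg ((hU j hj).u0 y ω x) ((hU j hj).u0 y ω z)) zero_le_one) (bd ω x z)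
        (abs_nonneg _) (by norm_num)
    have hfI : Integrable (fun ω => gv (wm μ s N (Pn N y) ω) (f y ω)) (Pm μ N) := by
      refine int_bdd (M := D ^ 2) (meas_gv meas_wm (fm y)) fun ω => ?_
      rw [abs_of_nonneg (gv_nonneg _ _)]
      exact gv_le_sq _ (fb y ω)
    have hg := grp_one (μ := μ) (s := s) (hyN y hy) (S := S) (Nn := NN72 N zf c) (U := U) (f := f) (fun ω x z => NN72_nonneg zf c y ω x z)
      (fun ω x z => Pool.Agent.W_7d29a1_C0.CutT57.NI_le_one _ _ _ _) (fun ω x z => sym72 ω x z) (fun j hj ω x => (hU j hj).u0 y ω x) hI hJ hfI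
    have h1 : ∀ j ∈ S, ∫ ω, PP (wm μ s N (Pn N y) ω) (fun x x' => U j y ω x * rh zf c (f y ω) x x') ∂(Pm μ N) ≤
        rw2 μ s N (NN72 N zf c) (U j) f y := fun j hj => by
      unfold rw2
      refine integral_mono_of_nonneg (Filter.Eventually.of_forall fun ω => PP_nonneg _ fun x z => mul_nonneg ((hU j hj).u0 y ω x) (rh_nonneg _ _ _))
        (hJ j hj) (Filter.Eventually.of_forall fun ω => PP_mono _ fun x z => ?_)
      show U j y ω x * (|f y ω x - f y ω z| * NI zf c x z) ≤ NI zf c x z * (U j y ω x + U j y ω z) * |f y ω x - f y ω z|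
      have h2 : 0 ≤ NI zf c x z * |f y ω x - f y ω z| := mul_nonneg (NI_nonneg _ _ _ _) (abs_nonneg _)
      have h3 := mul_nonneg h2 ((hU j hj).u0 y ω z)
      nlinarith
    refine (sum_le_sum h1).trans (hg.trans ?_)
    rw [mul_comm]
    refine mul_le_mul_of_nonneg_left (Real.sqrt_le_sqrt ?_) (Real.sqrt_nonneg _)
    refine mul_le_mul_of_nonneg_left (htot.trans ?_) (by norm_num)
    rw [hPd]
    have h4 := hYy y hy
    have h5 : 0 ≤ (N : ℝ) ^ ε * (EE' μ s (c - zf))⁻¹ := by positivity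
    exact add_le_add (mul_le_mul_of_nonneg_left h4 h5) le_rfl
  have h2 := avy_root34 (μ := μ) (s := s) (f := f) hyN (p := 4 * P) (by positivity) hone
  rw [← avy_sum, mul_comm (√(4 * P))]
  exact h2

/-- **The row inequality of the remainder** for the row `mm` of the slab: finitely many event functionals of the base path at the corner, with
their second moments (without the outer tie). -/
def RowY81 (μ : Measure ℝ) (s : ℝ) (N : ℕ) (δ B : ℝ) (b0 b : ℕ) (f : Fam N) (ys R : Finset ℕ) (c d l : ℕ) (A e Y t u : ℝ) (mm : ℕ) : Prop :=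
  ∃ (k : ℕ) (U : ℕ → ℕ → Fam N), (k : ℝ) ≤ A ∧ (∀ i < k, ∀ j ∈ Rw R c d, Ev81 N (d - 3 * l) (U i j)) ∧
    (∀ i < k, ∀ y ∈ ys, ∫ ω, gm (wm μ s N (Pn N y) ω) (fun x => (∑ j ∈ Rw R c d, U i j y ω x) ^ 2) ∂(Pm μ N) ≤ Y) ∧
    ∀ j ∈ Rw R c d, avy ys (fun y => ∫ ω, rep 2 (wj μ s N (Pn N y) δ B b0 j ω t) (rX μ s N δ B b0 b j t u y f (d - 3 * l) d mm ω) ∂(Pm μ N)) ≤
      A * ∑ i ∈ range k, avy ys (fun y => ∫ ω, PP (wm μ s N (Pn N y) ω) (fun x x' => U i j y ω x * rh (d - 3 * l) d (f y ω) x x') ∂(Pm μ N)) + e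

/-- **(RQ) OF ONE BLOCK.** -/
theorem rq_block [IsProbabilityMeasure μ] {c₀ C₀ : ℝ} {n₀ : ℕ} (h : In μ s c₀ C₀ n₀) : ∀ ε θ : ℝ, 0 < ε → 0 < θ → ∃ δ' c₂ : ℝ, 0 < δ' ∧
    0 < c₂ ∧ ∃ L₀ : ℕ, ∀ N : ℕ, L₀ ≤ N → ∀ ys : Finset ℕ, (∀ y ∈ ys, y ≤ N ∧ |(y : ℝ) - sl μ s * N| ≤ ((N : ℝ) ^ δ' * wd' μ s N)) →
    ∀ (δ B : ℝ) (b0 b l c d r cb : ℕ) (R : Finset ℕ) (D : ℝ) (f : Fam N), 3 * l ≤ d → d ≤ N → (N : ℝ) ^ θ ≤ ((3 * l : ℕ) : ℝ) → d ≤ c + r →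
    Cls59 N cb d D f → ∀ A e Y : ℝ, 0 ≤ A → 0 ≤ e → 0 ≤ Y → (∀ t ∈ Set.Icc (-1 : ℝ) 1, ∀ u ∈ Set.Icc (-1 : ℝ) 1,
      ∀ mm ∈ Ico (d - 4 * l) (d - 3 * l), RowY81 μ s N δ B b0 b f ys R c d l A e Y t u mm) →
    RQ81 μ s N δ B b0 b f ys R c d l (A ^ 2 * √(8 * ((N : ℝ) ^ ε * (EE' μ s (3 * l))⁻¹ * Y + (r : ℝ) ^ 2 * Real.exp (-(N : ℝ) ^ c₂)))) (r * e) := by
  intro ε θ hε hθ
  obtain ⟨δ', c₂, hδ', hc₂, L₀, hP⟩ := rsumY81 h ε θ hε hθ
  refine ⟨δ', c₂, hδ', hc₂, L₀, fun N hN ys hys δ B b0 b l c d r cb R D f h3l hdN hlo hdr hf A e Y hA he hY hrow t ht u hu => ?_⟩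
  have hl3 : d - (d - 3 * l) = 3 * l := by omega
  have E0 : 1 ≤ EE' μ s (3 * l) := le_max_left _ _
  have hNε : (0 : ℝ) ≤ (N : ℝ) ^ ε := Real.rpow_nonneg (Nat.cast_nonneg _) _
  obtain ⟨V, hV⟩ : ∃ V : ℝ, V = avy ys (varF μ s N f) := ⟨_, rfl⟩
  obtain ⟨P, hPd⟩ : ∃ P : ℝ, P = (N : ℝ) ^ ε * (EE' μ s (3 * l))⁻¹ * Y + (r : ℝ) ^ 2 * Real.exp (-(N : ℝ) ^ c₂) := ⟨_, rfl⟩
  have hP0 : 0 ≤ P := by rw [hPd]; positivity
  rw [← hV, ← hPd]
  have hV0 : 0 ≤ V := by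
    rw [hV]
    unfold avy
    exact mul_nonneg (by positivity) (sum_nonneg fun y hy => varF_nonneg34 f (hys y hy).1)
  have hcard : ((Rw R c d).card : ℝ) ≤ r := by
    have h1 : (Rw R c d).card ≤ r := (card_le_card inter_subset_right).trans (by rw [Nat.card_Ico]; omega)
    exact_mod_cast h1
  have hroot : √(4 * P) * √(2 * V) = √(8 * P) * √V := by
    rw [← Real.sqrt_mul (by positivity), ← Real.sqrt_mul (by positivity)]
    ring_nf
  have hG0 : 0 ≤ √(8 * P) * √V := by positivity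
  -- one row of the slab
  have hmm : ∀ mm ∈ Ico (d - 4 * l) (d - 3 * l), ∑ j ∈ Rw R c d, avy ys (fun y => ∫ ω, rep 2 (wj μ s N (Pn N y) δ B b0 j ω t)
      (rX μ s N δ B b0 b j t u y f (d - 3 * l) d mm ω) ∂(Pm μ N)) ≤ A ^ 2 * (√(8 * P) * √V) + r * e := fun mm hmm => by
    obtain ⟨k, U, hk, hU, hUY, hUrow⟩ := hrow t ht u hu mm hmm
    refine (sum_le_sum hUrow).trans ?_
    rw [sum_add_distrib, ← mul_sum, sum_comm, sum_const, nsmul_eq_mul]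
    refine add_le_add ?_ (mul_le_mul_of_nonneg_right hcard he)
    have h1 : ∀ i ∈ range k, ∑ j ∈ Rw R c d, avy ys (fun y => ∫ ω, PP (wm μ s N (Pn N y) ω) (fun x x' => U i j y ω x *
        rh (d - 3 * l) d (f y ω) x x') ∂(Pm μ N)) ≤ √(8 * P) * √V := fun i hi => by
      have h2 := hP N hN ys hys (d - 3 * l) d (Nat.sub_le _ _) hdN (by rw [hl3]; exact hlo) (Rw R c d) (U i)
        (hU i (mem_range.1 hi)) f D (fun y S => hf.meas y S) (fun y ω S => hf.bdd y ω S) Y hY (hUY i (mem_range.1 hi))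
      rw [hl3, ← hV] at h2
      refine h2.trans ?_
      rw [← hroot]
      refine mul_le_mul_of_nonneg_right (Real.sqrt_le_sqrt (mul_le_mul_of_nonneg_left ?_ (by norm_num))) (Real.sqrt_nonneg _)
      rw [hPd]
      refine add_le_add le_rfl (mul_le_mul_of_nonneg_right ?_ (Real.exp_pos _).le)
      exact pow_le_pow_left₀ (Nat.cast_nonneg _) hcard 2
    have h3 := sum_le_sum h1
    rw [sum_const, card_range, nsmul_eq_mul] at h3
    calc _ ≤ A * ((k : ℝ) * (√(8 * P) * √V)) := mul_le_mul_of_nonneg_left h3 hA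
      _ ≤ A * (A * (√(8 * P) * √V)) := mul_le_mul_of_nonneg_left (mul_le_mul_of_nonneg_right hk hG0) hA
      _ = A ^ 2 * (√(8 * P) * √V) := by ring
  -- the average over the slab
  have e1 : ∑ j ∈ Rw R c d, avy ys (fun y => rM μ s N δ B b0 b f d l t u y j) = (l : ℝ)⁻¹ * ∑ mm ∈ Ico (d - 4 * l) (d - 3 * l),
      ∑ j ∈ Rw R c d, avy ys (fun y => ∫ ω, rep 2 (wj μ s N (Pn N y) δ B b0 j ω t)
        (rX μ s N δ B b0 b j t u y f (d - 3 * l) d mm ω) ∂(Pm μ N)) := by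
    rw [sum_comm, mul_sum]
    refine sum_congr rfl fun j _ => ?_
    unfold rM
    rw [avy_mul, avy_sum]
  rw [e1]
  have hR0 : 0 ≤ A ^ 2 * (√(8 * P) * √V) + r * e := by positivity
  have h4 : (l : ℝ)⁻¹ * ∑ mm ∈ Ico (d - 4 * l) (d - 3 * l), ∑ j ∈ Rw R c d, avy ys (fun y => ∫ ω, rep 2 (wj μ s N (Pn N y) δ B b0 j ω t)
        (rX μ s N δ B b0 b j t u y f (d - 3 * l) d mm ω) ∂(Pm μ N)) ≤ A ^ 2 * (√(8 * P) * √V) + r * e := by
    refine (mul_le_mul_of_nonneg_left (sum_le_sum hmm) (by positivity)).trans ?_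
    rw [sum_const, nsmul_eq_mul, ← mul_assoc]
    refine mul_le_of_le_one_left hR0 ?_
    rw [Nat.card_Ico]
    rcases Nat.eq_zero_or_pos l with rfl | hl
    · simp
    · have hl0 : (0 : ℝ) < l := by exact_mod_cast hl
      rw [inv_mul_le_iff₀ hl0, mul_one]
      exact_mod_cast (by omega : d - 3 * l - (d - 4 * l) ≤ l)
  refine h4.trans (le_of_eq ?_)
  ring

end

end Pool.Agent.W_7d29a1_C0.RqB81
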