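import Pool.Agent.W_7d29a1_C0.RqR81

/-!
CURV0 (MP_7d29a1_pr), leaf E2a, the remainder, END (helper81): **`RQV81` at the concrete frame** from the third part of a row (`LbT81`) and the
second moments of the families of the levels (`YmT81`).
-/

set_option autoImplicit false
set_option linter.unusedSectionVars false
set_option linter.unusedVariables false

namespace Pool.Agent.W_7d29a1_C0.RqB81

open Finset MeasureTheory Filter Topology Pool.Agent.W_7d29a1_F Pool.Agent.W_7d29a1_X Pool.Agent.W_7d29a1_H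
open Pool.Agent.W_7d29a1_HS (In)
open Pool.Agent.W_7d29a1_HZ (wd' EE')
open Pool.Agent.W_7d29a1_C0 Pool.Agent.W_7d29a1_C0.Mod92 Pool.Agent.W_7d29a1_C0.Asm96 Pool.Agent.W_7d29a1_C0.CrA44
open Pool.Agent.W_7d29a1_C0.Frm33 Pool.Agent.W_7d29a1_C0.EstC46 Pool.Agent.W_7d29a1_C0.EstD44
open Pool.Agent.W_7d29a1_C0.Par92 (Sml Est)
open Pool.Agent.W_7d29a1_C0.E2aT82 Pool.Agent.W_7d29a1_C0.E2aE81 Pool.Agent.W_7d29a1_C0.E2aF81
open Pool.Agent.W_7d29a1_C0.MicE14 (rh rh_nonneg)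
open Pool.Agent.W_7d29a1_C0.T72 (ind72)
open Pool.Agent.W_7d29a1_C0.Rq13
open Pool.Agent.W_7d29a1_C0.Rq61 (Eq61 Ev61 rqs61_33)
open Pool.Agent.W_7d29a1_C0.E2aC81 (iT T2)
open Pool.W7d29a1.C0 Pool.W7d29a1.C0.VT31
open Pool.W7d29a1.C0.C45 (cP45 ind_and45)
open Pool.W7d29a1.C0.H27 (QI)

noncomputable section

variable {μ : Measure ℝ} {s : ℝ} {N : ℕ}

/-- The event of the main part. -/
theorem cP_ev81 (y b0 b j m : ℕ) (M1 M : ℝ) (m0 m1 : ℕ) (f : Fam N) :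
    cP45 μ s N (Pn N y) (Ev61 μ s N y b0 b j m M) m0 m1 (f y) = cU81 μ s N y (U81 μ s N b0 b m M1 M 0 j) m0 m1 f := by
  unfold cP45 cU81
  congr 1
  funext ω
  congr 1
  funext x x'
  congr 1
  have h1 := ind_and45 (fun ω S => T2 (wm μ s N (Pn N y) ω) (Base5.pW b j) (j - b0) j j (j + b0) M S)
    (fun ω S => T2 (wm μ s N (Pn N y) ω) (pJ 0 m) (j - b) (j - b0) (j + b0) (j + b) M S) ω x
  exact h1

theorem ev_U81 {b0 b mm zf j : ℕ} (M1 M : ℝ) (hj : j + b ≤ zf) (hb : 2 * b0 ≤ b) (hm : mm ≤ zf) (i : ℕ) :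
    Ev81 N zf (U81 μ s N b0 b mm M1 M i j) := by
  have hz : (rg81 b0 b M1 j).z ≤ zf := by
    show j + b0 + b / 16 ≤ zf
    omega
  unfold U81
  split_ifs
  · exact ⟨fun y ω x => UM_nonneg13 _ _ _ _ _ _ _ _, fun y ω x => UM_le_one13 _ _ _ _ _ _ _ _, fun y x => meas_UM13 _ _ _ _ _ _ _,
      fun y η η' A x hq => UM_blind13 hj hm M y hq A x⟩
  · exact ⟨fun y ω x => UL_nonneg13 y ω x, fun y ω x => UL_le_one13 y ω x, fun y x => meas_UL13 y x,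
      fun y η η' A x hq => UL_blind13 hz hm y hq A x⟩
  · exact ⟨fun y ω x => UL_nonneg13 y ω x, fun y ω x => UL_le_one13 y ω x, fun y x => meas_UL13 y x,
      fun y η η' A x hq => UL_blind13 hz hm y hq A x⟩
  · exact ⟨fun y ω x => UL_nonneg13 y ω x, fun y ω x => UL_le_one13 y ω x, fun y x => meas_UL13 y x,
      fun y η η' A x hq => UL_blind13 hz hm y hq A x⟩
  · exact ⟨fun y ω x => UL_nonneg13 y ω x, fun y ω x => UL_le_one13 y ω x, fun y x => meas_UL13 y x,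
      fun y η η' A x hq => UL_blind13 hz hm y hq A x⟩

/-- The numbers of one row. -/
theorem num81 {n ν ν' X Y Z V W : ℝ} (hn : 1 ≤ n) (hν : ν' ≤ ν) (hν0 : 0 < ν') (hν1 : ν' ≤ 1) (h4 : 4 ≤ n ^ (1 / 2 : ℝ)) (hW : W = Y + V) (hV : 0 ≤ V)
    (hY : 0 ≤ Y) (hX : X ≤ n ^ ν' * (Y + Z) + n ^ (-(5 / 2) : ℝ)) (hZ : Z ≤ V + n ^ (-(4 : ℝ))) : X ≤ n ^ ν * W + n ^ (-(2 : ℝ)) := by
  have hn0 : 0 < n := by linarith
  have a1 : n ^ ν' ≤ n ^ ν := Real.rpow_le_rpow_of_exponent_le hn hν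
  have a2 : n ^ ν' * n ^ (-(4 : ℝ)) ≤ n ^ (-(5 / 2) : ℝ) := by
    rw [← Real.rpow_add hn0]
    exact Real.rpow_le_rpow_of_exponent_le hn (by linarith)
  have a3 : 2 * n ^ (-(5 / 2) : ℝ) ≤ n ^ (-(2 : ℝ)) := by
    have e1 : n ^ (-(2 : ℝ)) = n ^ (1 / 2 : ℝ) * n ^ (-(5 / 2) : ℝ) := by
      rw [← Real.rpow_add hn0]
      norm_num
    rw [e1]
    exact mul_le_mul_of_nonneg_right (by linarith) (by positivity)
  have a4 := mul_le_mul_of_nonneg_left hZ (Real.rpow_nonneg hn0.le ν')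
  have a5 := mul_le_mul_of_nonneg_right a1 (add_nonneg hY hV)
  rw [hW]
  rw [mul_add] at a4 hX
  linarith

/-- **THE ROWS AND THE SECOND MOMENTS OF THE REMAINDER** at the concrete frame. -/
theorem rqY81 [IsProbabilityMeasure μ] {c₁ C : ℝ} {n₀ : ℕ} (h : In μ s c₁ C n₀) (hk : KapLe96 (EE μ s) (1 / 4))
    (hQI : ∀ p : ℝ, 1 < p → ∃ C θ0 : ℝ, 0 ≤ C ∧ 0 < θ0 ∧ QI μ p C θ0) {K : ℕ} (hK : 32 ≤ K) (hT : LbT81 μ s K) (hY : YmT81 μ s K) :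
    RqY81 μ s K := by
  refine (Sml.le one_pos).mono fun δ hδ hδ1 => (Sml.le (show 0 < δ / 64 by positivity)).mono fun c hc hcδ => fun ν hν => ?_
  have hK0 : (0 : ℝ) < K := by
    have : (32 : ℝ) ≤ K := by exact_mod_cast hK
    linarith
  have hκ : 0 < δ / 8 := by positivity
  have hκ1 : δ / 8 ≤ 1 := by linarith
  have hν' : 0 < min ν 1 := lt_min hν one_pos
  obtain ⟨a₀, ha₀, hS⟩ := rqs61_33 h hQI hK hκ hκ1 hν'
  obtain ⟨a1, ha1', hTa1, hYa1⟩ := ((hT (δ / 8) hκ hκ1).and (hY δ c ν hδ hδ1 hc hcδ hν)).exists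
  obtain ⟨a, ha, ha1, ⟨hTa, hYa⟩, hMa⟩ := Sml.exists_le ((hTa1.and hYa1).and
    ((ym33 h hk hK hδ hc.le hcδ hν).comp_mul (show (0 : ℝ) < 1 / K by positivity))) ha₀
  obtain ⟨β₀, hβ₀, hS⟩ := hS a ha
  -- the choice of the exponents
  refine Sml.mono (Sml.and hYa (Sml.le (show 0 < min (δ / 16) 1 from lt_min (by positivity) one_pos))) fun ι hι h1 => ?_
  obtain ⟨hYι, hι'⟩ := h1
  have hιδ : ι ≤ δ / 16 := hι'.trans (min_le_left _ _)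
  refine Sml.mono (Sml.and hTa (Sml.le hβ₀)) fun β hβ h2 => ?_
  obtain ⟨hTβ, hβ'⟩ := h2
  obtain ⟨γ₀, hγ₀, hS⟩ := hS β hβ hβ'
  refine Sml.mono (Sml.and hTβ (Sml.le hγ₀)) fun γ hγ h3 => ?_
  obtain ⟨hTγ, hγ'⟩ := h3
  have v1 : ∀ᶠ m : ℕ in atTop, 4 ≤ ι * (m : ℝ) := by
    have h1 : ∀ᶠ m : ℕ in atTop, 4 / ι ≤ (m : ℝ) := tendsto_natCast_atTop_atTop.eventually_ge_atTop _
    filter_upwards [h1] with m hm
    rw [div_le_iff₀ hι] at hm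
    linarith
  have v2 : ∀ᶠ m : ℕ in atTop, 4 ≤ δ * (m : ℝ) := by
    have h1 : ∀ᶠ m : ℕ in atTop, 4 / δ ≤ (m : ℝ) := tendsto_natCast_atTop_atTop.eventually_ge_atTop _
    filter_upwards [h1] with m hm
    rw [div_le_iff₀ hδ] at hm
    linarith
  filter_upwards [hYι, hTγ, hS γ hγ hγ', hMa ι hι hιδ, geo81 h hk hδ hc.le hcδ hι hιδ (A := 4) (by norm_num), b0_33 hδ (by linarith : ι ≤ δ / 4),
    v1, v2, ev_n hν 5, ev_n (show (0 : ℝ) < 1 / 2 by norm_num) 4, ev_n (show 0 < δ / 2 by positivity) 32,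
    cone33 h hK one_pos] with m m1 m2 m3 m4 m5 m6 m7 m8 m9 m10 m11 m12
  intro p q i hst hi D f hD hf hcv t ht u hu mm hmm
  obtain ⟨hgap, hgl8, hblk, hpw, hrows⟩ := m5 p q i hst hi
  obtain ⟨n, hn⟩ : ∃ n : ℝ, n = ((2 ^ m : ℕ) : ℝ) := ⟨_, rfl⟩
  have hn1 : 1 ≤ n := by
    rw [hn]
    exact n_ge1 m
  have hn0 : 0 < n := lt_of_lt_of_le one_pos hn1
  have hgap' : 4 * 2 ^ p ≤ gl46 ι m q := by exact_mod_cast hgap
  have hNn : 2 ^ m ≤ L33 K m := L33_ge (by omega) m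
  have hqm : 2 ^ q ≤ 2 ^ m := Nat.pow_le_pow_right two_pos hst.hqm
  have hpm : 2 ^ p ≤ 2 ^ m := Nat.pow_le_pow_right two_pos ((hst.hps.trans hst.hsq).trans hst.hqm)
  have hp1 : 1 ≤ 2 ^ p := Nat.one_le_two_pow
  have hb0b : 16 * 2 ^ (p - ⌈ι * (m : ℝ)⌉₊) ≤ 2 ^ p := by
    have e1 : 4 ≤ ⌈ι * (m : ℝ)⌉₊ := by
      have e2 : (4 : ℝ) ≤ (⌈ι * (m : ℝ)⌉₊ : ℝ) := m7.trans (Nat.le_ceil _)
      exact_mod_cast e2
    have e3 : 4 ≤ p := by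
      have e4 : (4 : ℝ) ≤ (p : ℝ) := m8.trans hst.hp
      exact_mod_cast e4
    calc 16 * 2 ^ (p - ⌈ι * (m : ℝ)⌉₊) = 2 ^ (p - ⌈ι * (m : ℝ)⌉₊ + 4) := by rw [pow_add]; ring
      _ ≤ 2 ^ p := Nat.pow_le_pow_right two_pos (by omega)
  have hmm' := hmm
  rw [mem_Ico] at hmm'
  have g0 : n ^ (δ / 8) ≤ ((2 ^ (p - ⌈ι * (m : ℝ)⌉₊) : ℕ) : ℝ) := by
    rw [hn]
    exact (Real.rpow_le_rpow_of_exponent_le (n_ge1 m) (by linarith)).trans (m6 p hst.hp)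
  have g1 : n ^ (δ / 8) ≤ ((2 ^ p / 16 : ℕ) : ℝ) := by
    have e1 := two_ge hst.hp
    rw [← hn] at e1
    have e2 : n ^ δ = n ^ (δ / 2) * n ^ (δ / 2) := by
      rw [← Real.rpow_add hn0]
      ring_nf
    have e3 : n ^ (δ / 8) ≤ n ^ (δ / 2) := Real.rpow_le_rpow_of_exponent_le hn1 (by linarith)
    rw [← hn] at m11
    have e4 : (1 : ℝ) ≤ n ^ (δ / 2) := Real.one_le_rpow hn1 (by positivity)
    have e5 : 32 * n ^ (δ / 2) ≤ ((2 ^ p : ℕ) : ℝ) := by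
      refine le_trans ?_ e1
      rw [e2]
      exact mul_le_mul_of_nonneg_right m11 (by positivity)
    have e6 : ((2 ^ p : ℕ) : ℝ) ≤ 16 * ((2 ^ p / 16 : ℕ) : ℝ) + 16 := by
      have : 2 ^ p ≤ 16 * (2 ^ p / 16) + 16 := by omega
      exact_mod_cast this
    linarith
  have hM1 : ((L33 K m : ℕ) : ℝ) ^ (1 / K * a) = n ^ a := by
    rw [L33_pow, hn]
    congr 1
    field_simp
  refine ⟨5, U81 μ s (L33 K m) (2 ^ (p - ⌈ι * (m : ℝ)⌉₊)) (2 ^ p) mm (2 * ((2 ^ m : ℕ) : ℝ) ^ a1) (2 * ((2 ^ m : ℕ) : ℝ) ^ a), by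
      rw [Nat.cast_ofNat]
      exact m9, fun k hk j hj => ?_, fun k hk y hy => ?_, fun j hj => ?_⟩
  · obtain ⟨r1, r2, r3, r4⟩ := hrows j hj
    exact ev_U81 _ _ (by omega) (by omega) (by omega) k
  · rcases Nat.eq_zero_or_pos k with rfl | hk0
    · have e1 := m4 p q i hst hi mm hmm y hy
      rw [hM1, hn] at e1
      exact e1
    · obtain ⟨k', rfl⟩ : ∃ k' : ℕ, k = k' + 1 := ⟨k - 1, by omega⟩
      exact m1 p q i hst hi mm hmm y hy k' (mem_range.2 (by omega))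
  · obtain ⟨r1, r2, r3, r4⟩ := hrows j hj
    obtain ⟨θ', -, hcov⟩ := hcv
    have hD0 : D ≤ ((2 ^ m : ℕ) : ℝ) ^ 3 := hD
    have hS' := m3 (j + 2 ^ (p - ⌈ι * (m : ℝ)⌉₊)) (2 ^ p / 16) (by
        rw [← hn]
        refine g0.trans ?_
        exact_mod_cast Nat.le_add_left _ _) (by
        rw [← hn]
        exact g1) (by omega) (2 ^ (p - ⌈ι * (m : ℝ)⌉₊)) (2 ^ p) j (by
        rw [← hn]
        exact g0) (by omega) (by omega) (by omega) le_rfl (by omega) (i * 2 ^ q) ((i + 1) * 2 ^ q) D f hD hf θ' _ (hcov j hj) mm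
        ((i + 1) * 2 ^ q - 3 * gl46 ι m q) ((i + 1) * 2 ^ q) (by omega) (by omega)
        (by omega) le_rfl t ht u hu (((2 ^ m : ℕ) : ℝ) ^ a) le_rfl (Real.rpow_le_rpow_of_exponent_le (n_ge1 m) ha1) 1 one_pos le_rfl
    have hT' : ∀ y ∈ ys33 μ s K m, _ := fun y hy => m2 (2 ^ (p - ⌈ι * (m : ℝ)⌉₊)) (2 ^ p) j mm ((i + 1) * 2 ^ q - 3 * gl46 ι m q)
      ((i + 1) * 2 ^ q) (by
        rw [← hn]
        exact g0) hb0b (by omega) (by omega) (by omega) (by omega) (by omega) hblk (i * 2 ^ q) ((i + 1) * 2 ^ q) D f hD hf le_rfl y hy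
    have hT2 := avy_mono hT'
    rw [avy_add, avy_sum] at hT2
    have hc2 : avy (ys33 μ s K m) (fun _ => ((2 ^ m : ℕ) : ℝ) ^ (-(4 : ℝ))) ≤ ((2 ^ m : ℕ) : ℝ) ^ (-(4 : ℝ)) :=
      Far34.avy_const_le (by positivity)
    have hev : (fun y => cP45 μ s (L33 K m) (Pn (L33 K m) y) (Ev61 μ s (L33 K m) y (2 ^ (p - ⌈ι * (m : ℝ)⌉₊)) (2 ^ p) j mm
        (2 * ((2 ^ m : ℕ) : ℝ) ^ a)) ((i + 1) * 2 ^ q - 3 * gl46 ι m q) ((i + 1) * 2 ^ q) (f y)) = fun y => cU81 μ s (L33 K m) y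
          (U81 μ s (L33 K m) (2 ^ (p - ⌈ι * (m : ℝ)⌉₊)) (2 ^ p) mm (2 * ((2 ^ m : ℕ) : ℝ) ^ a1) (2 * ((2 ^ m : ℕ) : ℝ) ^ a) 0 j)
            ((i + 1) * 2 ^ q - 3 * gl46 ι m q) ((i + 1) * 2 ^ q) f := funext fun y => cP_ev81 _ _ _ _ _ _ _ _ _ _
    rw [hev] at hS'
    have hc0 : ∀ k : ℕ, 0 ≤ avy (ys33 μ s K m) (fun y => cU81 μ s (L33 K m) y (U81 μ s (L33 K m) (2 ^ (p - ⌈ι * (m : ℝ)⌉₊)) (2 ^ p) mm (2 * ((2 ^ m : ℕ) : ℝ) ^ a1)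
        (2 * ((2 ^ m : ℕ) : ℝ) ^ a) k j) ((i + 1) * 2 ^ q - 3 * gl46 ι m q) ((i + 1) * 2 ^ q) f) := fun k => avy_nonneg fun y hy => by
      have hyL : y ≤ L33 K m := by
        have e1 := (mem_Ico.1 hy).2
        have e2 := m12.2.1
        omega
      have hne := ne_Pn hyL
      exact integral_nonneg fun ω => PP_nonneg _ fun x x' => mul_nonneg ((ev_U81 (zf := (i + 1) * 2 ^ q - 3 * gl46 ι m q) _ _ (by omega) (by omega)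
        (by omega) k).u0 y ω x) (rh_nonneg _ _ _)
    have hsum : ∑ k ∈ range 5, avy (ys33 μ s K m) (fun y => cU81 μ s (L33 K m) y (U81 μ s (L33 K m) (2 ^ (p - ⌈ι * (m : ℝ)⌉₊)) (2 ^ p) mm (2 * ((2 ^ m : ℕ) : ℝ) ^ a1)
        (2 * ((2 ^ m : ℕ) : ℝ) ^ a) k j) ((i + 1) * 2 ^ q - 3 * gl46 ι m q) ((i + 1) * 2 ^ q) f) =
        avy (ys33 μ s K m) (fun y => cU81 μ s (L33 K m) y (U81 μ s (L33 K m) (2 ^ (p - ⌈ι * (m : ℝ)⌉₊)) (2 ^ p) mm (2 * ((2 ^ m : ℕ) : ℝ) ^ a1)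
        (2 * ((2 ^ m : ℕ) : ℝ) ^ a) 0 j) ((i + 1) * 2 ^ q - 3 * gl46 ι m q) ((i + 1) * 2 ^ q) f) +
        ∑ k ∈ range 4, avy (ys33 μ s K m) (fun y => cU81 μ s (L33 K m) y (U81 μ s (L33 K m) (2 ^ (p - ⌈ι * (m : ℝ)⌉₊)) (2 ^ p) mm (2 * ((2 ^ m : ℕ) : ℝ) ^ a1)
        (2 * ((2 ^ m : ℕ) : ℝ) ^ a) (k + 1) j) ((i + 1) * 2 ^ q - 3 * gl46 ι m q) ((i + 1) * 2 ^ q) f) := by
      rw [sum_range_succ' _ 4, add_comm]
    exact num81 (n_ge1 m) (min_le_left _ _) hν' (min_le_right _ _) m10 hsum (sum_nonneg fun k _ => hc0 (k + 1)) (hc0 0) hS'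
      (hT2.trans (add_le_add le_rfl hc2))

/-- **(RQ) AT THE CONCRETE FRAME**, from the last two statements. -/
theorem rqv81' [IsProbabilityMeasure μ] {c₁ C : ℝ} {n₀ : ℕ} (h : In μ s c₁ C n₀) (hk : KapLe96 (EE μ s) (1 / 4))
    (hQI : ∀ p : ℝ, 1 < p → ∃ C θ0 : ℝ, 0 ≤ C ∧ 0 < θ0 ∧ QI μ p C θ0) {K : ℕ} (hK : 32 ≤ K) (hT : LbT81 μ s K) (hY : YmT81 μ s K) :
    RQV81 μ s K := rqv81 h hk hK (rqY81 h hk hQI hK hT hY)

end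

end Pool.Agent.W_7d29a1_C0.RqB81
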