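import Pool.Agent.W_7d29a1_C0.RqR81

/-!
CURV0 (MP_7d29a1_pr), leaf E2a, the remainder, END (helper81): THE NUMBERS OF THE SECOND MOMENT of the families of the levels (`yl81`): the
price with the fourth power of the smaller unit is the second moment `Y0`, up to a small power.
-/

set_option autoImplicit false
set_option linter.unusedSectionVars false
set_option linter.unusedVariables false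

namespace Pool.Agent.W_7d29a1_C0.RqB81

open Finset MeasureTheory Filter Topology Pool.Agent.W_7d29a1_F Pool.Agent.W_7d29a1_X Pool.Agent.W_7d29a1_H
open Pool.Agent.W_7d29a1_HS (In)
open Pool.Agent.W_7d29a1_HZ (wd' EE')
open Pool.Agent.W_7d29a1_C0 Pool.Agent.W_7d29a1_C0.Mod92 Pool.Agent.W_7d29a1_C0.Asm96 Pool.Agent.W_7d29a1_C0.CrA44
open Pool.Agent.W_7d29a1_C0.Frm33 Pool.Agent.W_7d29a1_C0.EstC46 Pool.Agent.W_7d29a1_C0.EstD44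
open Pool.Agent.W_7d29a1_C0.Par92 (Sml Est)
open Pool.Agent.W_7d29a1_C0.E2aT82 Pool.Agent.W_7d29a1_C0.E2aE81 Pool.Agent.W_7d29a1_C0.E2aF81
open Pool.W7d29a1.C0 Pool.W7d29a1.C0.VT31

noncomputable section

variable {μ : Measure ℝ} {s : ℝ}

theorem yn81 {x z r b E0 Eb Er Li X : ℝ} (hz : 1 ≤ z) (hzx : z + 1 ≤ x) (hr : 0 ≤ r) (hb : 0 ≤ b) (h0 : 1 ≤ E0) (h1 : 1 ≤ Eb)
    (h2 : 1 ≤ Er) (hE : Eb ^ 2 ≤ z * E0 ^ 2)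
    (hX : X ≤ x * (r * b * E0⁻¹ + (r ^ 2 * (E0⁻¹) ^ 4 + r ^ 2 * ((E0⁻¹) ^ 2 * Er⁻¹))) + Li)
    (hL : Li ≤ r ^ 2 / (E0 ^ 2 * Eb ^ 2) + r ^ 2 / (E0 ^ 2 * Er) + r * b / E0) :
    X ≤ x * x * (r ^ 2 / (E0 ^ 2 * Eb ^ 2) + r ^ 2 / (E0 ^ 2 * Er) + r * b / E0) := by
  have e1 : r * b * E0⁻¹ = r * b / E0 := by rw [div_eq_mul_inv]
  have e2 : r ^ 2 * ((E0⁻¹) ^ 2 * Er⁻¹) = r ^ 2 / (E0 ^ 2 * Er) := by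
    rw [div_eq_mul_inv, mul_inv, inv_pow]
  have e3 : r ^ 2 * (E0⁻¹) ^ 4 ≤ z * (r ^ 2 / (E0 ^ 2 * Eb ^ 2)) := by
    have a1 : (E0⁻¹) ^ 2 ≤ z * (Eb ^ 2)⁻¹ := by
      rw [← div_eq_mul_inv, inv_pow, inv_eq_one_div, div_le_div_iff₀ (by positivity) (by positivity), one_mul]
      exact hE
    calc r ^ 2 * (E0⁻¹) ^ 4 = r ^ 2 * ((E0⁻¹) ^ 2 * (E0⁻¹) ^ 2) := by ring
      _ ≤ r ^ 2 * ((E0⁻¹) ^ 2 * (z * (Eb ^ 2)⁻¹)) := by gcongr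
      _ = z * (r ^ 2 / (E0 ^ 2 * Eb ^ 2)) := by
          rw [div_eq_mul_inv, mul_inv, inv_pow]
          ring
  obtain ⟨A, hA⟩ : ∃ A : ℝ, A = r ^ 2 / (E0 ^ 2 * Eb ^ 2) := ⟨_, rfl⟩
  obtain ⟨B, hB⟩ : ∃ B : ℝ, B = r ^ 2 / (E0 ^ 2 * Er) := ⟨_, rfl⟩
  obtain ⟨D, hD⟩ : ∃ D : ℝ, D = r * b / E0 := ⟨_, rfl⟩
  have hA0 : 0 ≤ A := by rw [hA]; positivity
  have hB0 : 0 ≤ B := by rw [hB]; positivity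
  have hD0 : 0 ≤ D := by rw [hD]; positivity
  have hx : 0 ≤ x := by linarith
  rw [e1, e2, ← hB, ← hD] at hX
  rw [← hA] at e3 hL ⊢
  rw [← hB, ← hD] at hL ⊢
  have a1 : x * (D + (r ^ 2 * (E0⁻¹) ^ 4 + B)) ≤ x * (z * (A + B + D)) := by
    refine mul_le_mul_of_nonneg_left ?_ hx
    have b1 : B ≤ z * B := le_mul_of_one_le_left hB0 hz
    have b2 : D ≤ z * D := le_mul_of_one_le_left hD0 hz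
    linarith
  have a2 : x * (z * (A + B + D)) + (A + B + D) ≤ x * x * (A + B + D) := by
    have b1 : x * z + 1 ≤ x * x := by nlinarith
    calc x * (z * (A + B + D)) + (A + B + D) = (x * z + 1) * (A + B + D) := by ring
      _ ≤ x * x * (A + B + D) := mul_le_mul_of_nonneg_right b1 (by positivity)
  linarith

/-- **The numbers of the second moment** at the concrete frame. -/
theorem yl81 [IsProbabilityMeasure μ] {c₁ C : ℝ} {n₀ : ℕ} (h : In μ s c₁ C n₀) {K : ℕ} (hK : 32 ≤ K) {δ c ν ι : ℝ} (hν : 0 < ν)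
    (hι : 0 < ι) (hιν : ι ≤ ν / 4) : ∀ᶠ m : ℕ in atTop, ∀ p q : ℕ, St96 (EE μ s) δ c m p q → ∀ X : ℝ,
      X ≤ ((2 ^ m : ℕ) : ℝ) ^ (ν / 2) * (((2 ^ q : ℕ) : ℝ) * ((2 ^ p : ℕ) : ℝ) * (EE' μ s (2 ^ (p - ⌈ι * (m : ℝ)⌉₊)))⁻¹ +
        (((2 ^ q : ℕ) : ℝ) ^ 2 * ((EE' μ s (2 ^ (p - ⌈ι * (m : ℝ)⌉₊)))⁻¹) ^ 4 +
          ((2 ^ q : ℕ) : ℝ) ^ 2 * (((EE' μ s (2 ^ (p - ⌈ι * (m : ℝ)⌉₊)))⁻¹) ^ 2 * (EE' μ s (2 ^ q))⁻¹))) + (((L33 K m : ℕ) : ℝ))⁻¹ →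
      X ≤ ((2 ^ m : ℕ) : ℝ) ^ ν * Y0 (EE μ s) (2 ^ q) (2 ^ p) (2 ^ (p - ⌈ι * (m : ℝ)⌉₊)) := by
  obtain ⟨a₂, K₂, -, -, hK₂, hpow⟩ := Pool.Agent.W_7d29a1_HZ.EE'_pow h
  filter_upwards [(tend_L (by omega : 1 ≤ K)).eventually (evl81 (show (0 : ℝ) < 1 / 2 by norm_num) (K₂ * EE' μ s 1)),
    ev_n (show 0 < ν / 4 by positivity) (2 * K₂ ^ 2 + 1)] with m m5 m6
  intro p q hst X hX
  have hn1 := n_ge1 m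
  have hn0 : (0 : ℝ) < ((2 ^ m : ℕ) : ℝ) := by linarith
  have hNn : 2 ^ m ≤ L33 K m := L33_ge (by omega) m
  have hL1 : 1 ≤ L33 K m := le_trans Nat.one_le_two_pow hNn
  have hL1R : (1 : ℝ) ≤ ((L33 K m : ℕ) : ℝ) := by exact_mod_cast hL1
  have hL0R : (0 : ℝ) < ((L33 K m : ℕ) : ℝ) := by linarith
  have hE1 : ∀ k, 1 ≤ EE μ s k := fun k => one_le_EE k
  have hEN : ∀ k : ℕ, 1 ≤ k → k ≤ L33 K m → EE μ s k ≤ (L33 K m : ℕ) := fun k k1 k2 => by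
    have e1 := (hpow 1 k le_rfl k1).2.2
    rw [Nat.cast_one, div_one, EE'_eq46] at e1
    have e2 : Real.sqrt k ≤ ((L33 K m : ℕ) : ℝ) ^ (1 / 2 : ℝ) := by
      rw [← Real.sqrt_eq_rpow]
      exact Real.sqrt_le_sqrt (by exact_mod_cast k2)
    have e3 : ((L33 K m : ℕ) : ℝ) ^ (1 / 2 : ℝ) * ((L33 K m : ℕ) : ℝ) ^ (1 / 2 : ℝ) = ((L33 K m : ℕ) : ℝ) := by
      rw [← Real.rpow_add hL0R]
      norm_num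
    have e4 : 1 ≤ EE' μ s 1 := le_max_left _ _
    calc EE μ s k ≤ K₂ * Real.sqrt k * EE' μ s 1 := e1
      _ = Real.sqrt k * (K₂ * EE' μ s 1) := by ring
      _ ≤ ((L33 K m : ℕ) : ℝ) ^ (1 / 2 : ℝ) * ((L33 K m : ℕ) : ℝ) ^ (1 / 2 : ℝ) := mul_le_mul e2 m5 (by positivity) (by positivity)
      _ = _ := e3
  have hb0N : 2 ^ (p - ⌈ι * (m : ℝ)⌉₊) ≤ L33 K m :=
    (Nat.pow_le_pow_right two_pos ((Nat.sub_le _ _).trans ((hst.hps.trans hst.hsq).trans hst.hqm))).trans hNn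
  have hY := Y0_ge81 (E := EE μ s) hE1 (r := 2 ^ q) (b := 2 ^ p) (b0 := 2 ^ (p - ⌈ι * (m : ℝ)⌉₊)) Nat.one_le_two_pow Nat.one_le_two_pow
    (hEN _ Nat.one_le_two_pow hb0N)
  rw [EE'_eq46, EE'_eq46] at hX
  unfold Y0 at hY ⊢
  have hx : ((2 ^ m : ℕ) : ℝ) ^ ν = ((2 ^ m : ℕ) : ℝ) ^ (ν / 2) * ((2 ^ m : ℕ) : ℝ) ^ (ν / 2) := by
    rw [← Real.rpow_add hn0]
    ring_nf
  have hx2 : ((2 ^ m : ℕ) : ℝ) ^ (ν / 2) = ((2 ^ m : ℕ) : ℝ) ^ (ν / 4) * ((2 ^ m : ℕ) : ℝ) ^ (ν / 4) := by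
    rw [← Real.rpow_add hn0]
    ring_nf
  -- the two units
  have hle : 2 ^ (p - ⌈ι * (m : ℝ)⌉₊) ≤ 2 ^ p := Nat.pow_le_pow_right two_pos (Nat.sub_le _ _)
  have e1 := (hpow (2 ^ (p - ⌈ι * (m : ℝ)⌉₊)) (2 ^ p) Nat.one_le_two_pow hle).2.2
  rw [EE'_eq46, EE'_eq46] at e1
  have hb0R : (1 : ℝ) ≤ ((2 ^ (p - ⌈ι * (m : ℝ)⌉₊) : ℕ) : ℝ) := n_ge1 _
  have e2 : ((2 ^ p : ℕ) : ℝ) ≤ 2 * ((2 ^ m : ℕ) : ℝ) ^ ι * ((2 ^ (p - ⌈ι * (m : ℝ)⌉₊) : ℕ) : ℝ) := by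
    have f1 : 2 ^ p ≤ 2 ^ ⌈ι * (m : ℝ)⌉₊ * 2 ^ (p - ⌈ι * (m : ℝ)⌉₊) := by
      rw [← pow_add]
      exact Nat.pow_le_pow_right two_pos (by omega)
    have f2 : ((2 ^ ⌈ι * (m : ℝ)⌉₊ : ℕ) : ℝ) ≤ 2 * ((2 ^ m : ℕ) : ℝ) ^ ι := by
      push_cast
      rw [← Real.rpow_natCast 2 m, ← Real.rpow_mul two_pos.le, ← Real.rpow_natCast 2 ⌈ι * (m : ℝ)⌉₊]
      have f3 : (⌈ι * (m : ℝ)⌉₊ : ℝ) ≤ m * ι + 1 := by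
        have := (Nat.ceil_lt_add_one (show (0 : ℝ) ≤ ι * m by positivity)).le
        linarith
      calc (2 : ℝ) ^ (⌈ι * (m : ℝ)⌉₊ : ℝ) ≤ 2 ^ (m * ι + 1 : ℝ) := Real.rpow_le_rpow_of_exponent_le one_le_two f3
        _ = 2 * 2 ^ (m * ι : ℝ) := by
            rw [Real.rpow_add two_pos, Real.rpow_one]
            ring
    have f4 : ((2 ^ p : ℕ) : ℝ) ≤ ((2 ^ ⌈ι * (m : ℝ)⌉₊ : ℕ) : ℝ) * ((2 ^ (p - ⌈ι * (m : ℝ)⌉₊) : ℕ) : ℝ) := by exact_mod_cast f1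
    exact f4.trans (mul_le_mul_of_nonneg_right f2 (by positivity))
  have e3 : EE μ s (2 ^ p) ^ 2 ≤ 2 * K₂ ^ 2 * ((2 ^ m : ℕ) : ℝ) ^ ι * EE μ s (2 ^ (p - ⌈ι * (m : ℝ)⌉₊)) ^ 2 := by
    have f1 : (0 : ℝ) ≤ ((2 ^ p : ℕ) : ℝ) / ((2 ^ (p - ⌈ι * (m : ℝ)⌉₊) : ℕ) : ℝ) := by positivity
    have f2 : ((2 ^ p : ℕ) : ℝ) / ((2 ^ (p - ⌈ι * (m : ℝ)⌉₊) : ℕ) : ℝ) ≤ 2 * ((2 ^ m : ℕ) : ℝ) ^ ι := by
      rw [div_le_iff₀ (by linarith)]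
      exact e2
    calc EE μ s (2 ^ p) ^ 2 ≤ (K₂ * Real.sqrt (((2 ^ p : ℕ) : ℝ) / ((2 ^ (p - ⌈ι * (m : ℝ)⌉₊) : ℕ) : ℝ)) *
          EE μ s (2 ^ (p - ⌈ι * (m : ℝ)⌉₊))) ^ 2 := pow_le_pow_left₀ (by linarith [hE1 (2 ^ p)]) e1 2
      _ = K₂ ^ 2 * (((2 ^ p : ℕ) : ℝ) / ((2 ^ (p - ⌈ι * (m : ℝ)⌉₊) : ℕ) : ℝ)) * EE μ s (2 ^ (p - ⌈ι * (m : ℝ)⌉₊)) ^ 2 := by
          rw [mul_pow, mul_pow, Real.sq_sqrt f1]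
      _ ≤ K₂ ^ 2 * (2 * ((2 ^ m : ℕ) : ℝ) ^ ι) * EE μ s (2 ^ (p - ⌈ι * (m : ℝ)⌉₊)) ^ 2 := by gcongr
      _ = _ := by ring
  have e4 : (1 : ℝ) ≤ ((2 ^ m : ℕ) : ℝ) ^ ι := Real.one_le_rpow hn1 hι.le
  have e5 : ((2 ^ m : ℕ) : ℝ) ^ ι ≤ ((2 ^ m : ℕ) : ℝ) ^ (ν / 4) := Real.rpow_le_rpow_of_exponent_le hn1 hιν
  have hK₂' : 1 ≤ K₂ ^ 2 := by nlinarith
  rw [hx]
  refine yn81 (z := 2 * K₂ ^ 2 * ((2 ^ m : ℕ) : ℝ) ^ ι) (by nlinarith) ?_ (by positivity) (by positivity) (hE1 _) (hE1 _) (hE1 _) e3 hX hY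
  rw [hx2]
  obtain ⟨x, hxd⟩ : ∃ x : ℝ, x = ((2 ^ m : ℕ) : ℝ) ^ (ν / 4) := ⟨_, rfl⟩
  rw [← hxd] at m6 e5 ⊢
  have g1 : 2 * K₂ ^ 2 * ((2 ^ m : ℕ) : ℝ) ^ ι ≤ 2 * K₂ ^ 2 * x := by gcongr
  have g2 : (1 : ℝ) ≤ x := e4.trans e5
  nlinarith

end

end Pool.Agent.W_7d29a1_C0.RqB81
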