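import Pool.Agent.W_7d29a1_C0.RqF81

/-!
CURV0 (MP_7d29a1_pr), leaf E2a, the remainder, END (helper81): THE PIECES of the regions at the concrete frame (`lq81`).
-/

set_option autoImplicit false
set_option linter.unusedSectionVars false
set_option linter.unusedVariables false

namespace Pool.Agent.W_7d29a1_C0.RqB81

open Finset MeasureTheory Filter Topology Pool.Agent.W_7d29a1_F Pool.Agent.W_7d29a1_X Pool.Agent.W_7d29a1_H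
open Pool.Agent.W_7d29a1_HS (In)
open Pool.Agent.W_7d29a1_HZ (wd' EE')
open Pool.Agent.W_7d29a1_C0 Pool.Agent.W_7d29a1_C0.Mod92 Pool.Agent.W_7d29a1_C0.Asm96 Pool.Agent.W_7d29a1_C0.CrA44
open Pool.Agent.W_7d29a1_C0.Frm33 Pool.Agent.W_7d29a1_C0.EstC46 Pool.Agent.W_7d29a1_C0.EstD44
open Pool.Agent.W_7d29a1_C0.Par92 (Sml Est)
open Pool.Agent.W_7d29a1_C0.E2aE81

noncomputable section

theorem q_bd81 {M : ℝ} (hM : 1 ≤ M) : 10 * M ≤ (q81 M : ℝ) ∧ (q81 M : ℝ) ≤ 20 * M ∧ (q81 M : ℝ) ≤ 10 * M + 1 := by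
  have h1 : 10 * M ≤ (q81 M : ℝ) := Nat.le_ceil _
  have h2 : (q81 M : ℝ) ≤ 10 * M + 1 := (Nat.ceil_lt_add_one (by linarith)).le
  exact ⟨h1, by linarith, h2⟩

theorem q_mono81 {M M' : ℝ} (h : M ≤ M') : q81 M ≤ q81 M' := Nat.ceil_le_ceil (by linarith)

theorem l_fit81 {b : ℕ} {M : ℝ} (hM : 1 ≤ M) (hb : 6 * q81 M ≤ b) : 6 * q81 M * (l81 b M + 1) ≤ b := by
  have hq : 0 < 6 * q81 M := by
    have h1 := (q_bd81 hM).1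
    have : (0 : ℝ) < (q81 M : ℝ) := by linarith
    have : 0 < q81 M := by exact_mod_cast this
    omega
  have h1 : 1 ≤ b / (6 * q81 M) := (Nat.one_le_div_iff hq).2 hb
  unfold l81
  rw [Nat.sub_add_cancel h1]
  exact Nat.mul_div_le _ _

theorem l_mono81 {b0 b : ℕ} {M M' : ℝ} (hM : 1 ≤ M) (h : M ≤ M') (hb : b0 ≤ b) : l81 b0 M' ≤ l81 b M := by
  unfold l81
  have hq : 0 < 6 * q81 M := by
    have h1 := (q_bd81 hM).1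
    have : (0 : ℝ) < (q81 M : ℝ) := by linarith
    have : 0 < q81 M := by exact_mod_cast this
    omega
  have h1 : 6 * q81 M ≤ 6 * q81 M' := Nat.mul_le_mul_left _ (q_mono81 h)
  have h2 : b0 / (6 * q81 M') ≤ b / (6 * q81 M) := Nat.div_le_div hb h1 hq.ne'
  omega

/-- The length of a piece from below. -/
theorem l_low81 {b : ℕ} {M x : ℝ} (hM : 1 ≤ M) (hx : (q81 M : ℝ) ≤ x) (hb : 24 * x ≤ b) : (b : ℝ) ≤ 12 * x * (l81 b M : ℝ) := by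
  have hq0 : (0 : ℝ) < (q81 M : ℝ) := by
    have := (q_bd81 hM).1
    linarith
  have h1 : b < 6 * q81 M * (b / (6 * q81 M) + 1) := Nat.lt_mul_div_succ b (by
    have : 0 < q81 M := by exact_mod_cast hq0
    omega)
  have h1' : b ≤ 6 * q81 M * (l81 b M + 2) := by
    have h2 : b / (6 * q81 M) + 1 ≤ l81 b M + 2 := by
      unfold l81
      omega
    exact h1.le.trans (Nat.mul_le_mul_left _ h2)
  have h3 : (b : ℝ) ≤ 6 * (q81 M : ℝ) * ((l81 b M : ℝ) + 2) := by exact_mod_cast h1'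
  have h4 : 6 * (q81 M : ℝ) * ((l81 b M : ℝ) + 2) ≤ 6 * x * ((l81 b M : ℝ) + 2) := by gcongr
  linarith

/-- **THE PIECES AT THE CONCRETE FRAME.** -/
theorem lq81 {δ ι a1 : ℝ} (hδ : 0 < δ) (hι : 0 < ι) (hιδ : ι ≤ δ / 16) (ha : 0 < a1) (haδ : a1 ≤ δ / 16) : ∀ᶠ m : ℕ in atTop,
    ∀ p : ℕ, δ * m ≤ p →
      6 * q81 (2 * ((2 ^ m : ℕ) : ℝ) ^ a1) * (l81 (2 ^ (p - ⌈ι * (m : ℝ)⌉₊)) (2 * ((2 ^ m : ℕ) : ℝ) ^ a1) + 1) ≤ 2 ^ (p - ⌈ι * (m : ℝ)⌉₊) ∧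
      ((2 ^ m : ℕ) : ℝ) ^ (δ / 8) ≤ (l81 (2 ^ (p - ⌈ι * (m : ℝ)⌉₊)) (2 * ((2 ^ m : ℕ) : ℝ) ^ a1) : ℝ) ∧
      ((2 ^ p : ℕ) : ℝ) ≤ 504 * ((2 ^ m : ℕ) : ℝ) ^ (ι + a1) * (l81 (2 ^ (p - ⌈ι * (m : ℝ)⌉₊)) (2 * ((2 ^ m : ℕ) : ℝ) ^ a1) : ℝ) ∧
      (q81 (2 * ((2 ^ m : ℕ) : ℝ) ^ a1) : ℝ) ≤ 21 * ((2 ^ m : ℕ) : ℝ) ^ a1 := by
  filter_upwards [b0_33 hδ (by linarith : ι ≤ δ / 4), ev_n (show 0 < δ / 16 by positivity) 504] with m m1 m2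
  intro p hp
  have hn1 := n_ge1 m
  obtain ⟨n, hn⟩ : ∃ n : ℝ, n = ((2 ^ m : ℕ) : ℝ) := ⟨_, rfl⟩
  have hb0 := m1 p hp
  rw [← hn] at hn1 m2 hb0 ⊢
  have hn0 : 0 < n := by linarith
  have hna : 1 ≤ n ^ a1 := Real.one_le_rpow hn1 ha.le
  have hM : 1 ≤ 2 * n ^ a1 := by linarith
  obtain ⟨q1, q2, q3⟩ := q_bd81 hM
  have q4 : (q81 (2 * n ^ a1) : ℝ) ≤ 21 * n ^ a1 := by linarith
  have a1le : n ^ a1 ≤ n ^ (δ / 16) := Real.rpow_le_rpow_of_exponent_le hn1 haδ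
  have e1 : n ^ (δ / 4) = n ^ (δ / 16) * n ^ (δ / 16) * n ^ (δ / 8) := by
    rw [← Real.rpow_add hn0, ← Real.rpow_add hn0]
    ring_nf
  have e8 : 1 ≤ n ^ (δ / 8) := Real.one_le_rpow hn1 (by positivity)
  obtain ⟨x, hx⟩ : ∃ x : ℝ, x = n ^ (δ / 16) := ⟨_, rfl⟩
  obtain ⟨z, hz⟩ : ∃ z : ℝ, z = n ^ (δ / 8) := ⟨_, rfl⟩
  rw [e1, ← hx, ← hz] at hb0
  rw [← hx] at a1le m2
  rw [← hz] at e8 ⊢
  obtain ⟨b0, hb0d⟩ : ∃ b0 : ℕ, b0 = 2 ^ (p - ⌈ι * (m : ℝ)⌉₊) := ⟨_, rfl⟩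
  rw [← hb0d] at hb0 ⊢
  have f1 : 504 * n ^ a1 * z ≤ (b0 : ℝ) := by
    refine le_trans ?_ hb0
    have : 504 * n ^ a1 ≤ x * x := mul_le_mul m2 a1le (by positivity) (by linarith)
    exact mul_le_mul_of_nonneg_right this (by linarith)
  have f2 : 504 * n ^ a1 ≤ (b0 : ℝ) := by
    refine le_trans ?_ f1
    exact le_mul_of_one_le_right (by positivity) e8
  have low := l_low81 (b := b0) hM q4 (by linarith)
  have hfit : 6 * q81 (2 * n ^ a1) ≤ b0 := by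
    have : (6 : ℝ) * (q81 (2 * n ^ a1) : ℝ) ≤ b0 := by linarith
    exact_mod_cast this
  refine ⟨l_fit81 hM hfit, ?_, ?_, q4⟩
  · have h1 : 504 * n ^ a1 * z ≤ 12 * (21 * n ^ a1) * (l81 b0 (2 * n ^ a1) : ℝ) := f1.trans low
    have h2 : 252 * n ^ a1 * z ≤ 252 * n ^ a1 * (l81 b0 (2 * n ^ a1) : ℝ) := by
      have h3 : 0 ≤ n ^ a1 * z := by positivity
      linarith
    exact le_of_mul_le_mul_left h2 (by positivity)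
  · have g1 : ((2 ^ p : ℕ) : ℝ) ≤ 2 * n ^ ι * (b0 : ℝ) := by
      have f1 : 2 ^ p ≤ 2 ^ ⌈ι * (m : ℝ)⌉₊ * b0 := by
        rw [hb0d, ← pow_add]
        exact Nat.pow_le_pow_right two_pos (by omega)
      have f2 : ((2 ^ ⌈ι * (m : ℝ)⌉₊ : ℕ) : ℝ) ≤ 2 * n ^ ι := by
        rw [hn]
        push_cast
        rw [← Real.rpow_natCast 2 m, ← Real.rpow_mul two_pos.le, ← Real.rpow_natCast 2 ⌈ι * (m : ℝ)⌉₊]
        have f3 : (⌈ι * (m : ℝ)⌉₊ : ℝ) ≤ m * ι + 1 := by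
          have := (Nat.ceil_lt_add_one (show (0 : ℝ) ≤ ι * m by positivity)).le
          linarith
        calc (2 : ℝ) ^ (⌈ι * (m : ℝ)⌉₊ : ℝ) ≤ 2 ^ (m * ι + 1 : ℝ) := Real.rpow_le_rpow_of_exponent_le one_le_two f3
          _ = 2 * 2 ^ (m * ι : ℝ) := by
              rw [Real.rpow_add two_pos, Real.rpow_one]
              ring
      have f4 : ((2 ^ p : ℕ) : ℝ) ≤ ((2 ^ ⌈ι * (m : ℝ)⌉₊ : ℕ) : ℝ) * (b0 : ℝ) := by exact_mod_cast f1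
      exact f4.trans (mul_le_mul_of_nonneg_right f2 (by positivity))
    rw [Real.rpow_add hn0]
    calc ((2 ^ p : ℕ) : ℝ) ≤ 2 * n ^ ι * (b0 : ℝ) := g1
      _ ≤ 2 * n ^ ι * (12 * (21 * n ^ a1) * (l81 b0 (2 * n ^ a1) : ℝ)) := by gcongr
      _ = 504 * (n ^ ι * n ^ a1) * (l81 b0 (2 * n ^ a1) : ℝ) := by ring

end

end Pool.Agent.W_7d29a1_C0.RqB81
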