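import Pool.Agent.W_7d29a1_C0.Wpr96
import Pool.Agent.W_7d29a1_C0.GSN65

/-!
STORM C0 (helper96): THE END OF GS WITH THE MAJORANT `Ph65` (helper65: one own tie for all pairs in the same block `B'`). `sigE65`: `SigN` at
the gain `c / 64` in every frame from `KbN65`; `sigL65`: `SigL33` from `KbL65` (the prices of the margins are `wpr96`).
-/

set_option autoImplicit false

namespace Pool.Agent.W_7d29a1_C0.Asm96

open Finset MeasureTheory Filter Topology Pool.Agent.W_7d29a1_F Pool.Agent.W_7d29a1_X Pool.Agent.W_7d29a1_H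
open Pool.Agent.W_7d29a1_C0.Mod92 Pool.Agent.W_7d29a1_C0 Pool.Agent.W_7d29a1_C0.Frm33
open Pool.W7d29a1.C0 (gz gm lse gz_pos gz_ne gm_nonneg gm_mono gm_const)
open Pool.W7d29a1.C0.VT31
open Pool.Agent.W_7d29a1_HS (In)
open Pool.Agent.W_7d29a1_C0.Par92 (Est Sml)
open Pool.Agent.W_7d29a1_C0.GSN65 (Phi65 Ph65 KbN65 sigN65)

noncomputable section

variable {μ : Measure ℝ} {s : ℝ} {F : Frm96} {E : ℕ → ℝ} {Θ δ c η ε₁ ε₂ ι : ℝ} {m : ℕ}

theorem Ph65_mono96 (hE : ∀ n, 0 < E n) (h1 : ε₁ ≤ ε₂) (p p' n : ℕ) : Ph65 E c ε₁ m p p' n ≤ Ph65 E c ε₂ m p p' n := by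
  have h2 := pw_mono96 (m := m) h1
  have e1 := hE (2 ^ sg96 E c m p)
  have e2 := hE (2 ^ p)
  unfold Ph65 Phi65
  have e3 := hE (max n (2 ^ sg96 E c m p))
  refine add_le_add (add_le_add (add_le_add ?_ ?_) ?_) ?_
  · split_ifs
    · exact div_le_div_of_nonneg_right h2 e1.le
    · exact le_rfl
  · split_ifs
    · exact div_le_div_of_nonneg_right (mul_le_mul_of_nonneg_right h2 (by positivity)) e1.le
    · exact le_rfl
  · exact div_le_div_of_nonneg_right (div_le_div_of_nonneg_right h2 (by positivity)) e3.le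
  · exact div_le_div_of_nonneg_right h2 (by positivity)

theorem KbN65.mono96 (hE : ∀ n, 0 < E n) (h : KbN65 μ s F E Θ δ c η ε₁ m) (h1 : ε₁ ≤ ε₂) : KbN65 μ s F E Θ δ c η ε₂ m := by
  intro p p' q i hC hi
  obtain ⟨P, P', hP, hd⟩ := h p p' q i hC hi
  refine ⟨P, P', fun j hj k hk => ⟨(hP j hj k hk).1.trans (Ph65_mono96 hE h1 _ _ _), (hP j hj k hk).2.trans (Ph65_mono96 hE h1 _ _ _)⟩,
    hd.trans ?_⟩
  refine add_le_add (add_le_add (add_le_add ?_ le_rfl) le_rfl) le_rfl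
  refine mul_le_mul_of_nonneg_left (mul_le_mul_of_nonneg_left ?_ (by positivity)) (by positivity)
  exact div_le_div_of_nonneg_right (pw_mono96 h1) (hE _).le

/-- **THE END OF GS.** -/
theorem sigE65 [IsProbabilityMeasure μ] {F : ℝ → ℝ → ℝ → Frm96} {K : ℕ} {c₀ C : ℝ} (hK : 0 < K)
    (hFk : ∀ ι β γ, Frk96 μ s K (F ι β γ)) (hRK : ∀ ι β γ m, (F ι β γ).R m ⊆ Kr (2 ^ m) m (((2 ^ m : ℕ) : ℝ) ^ (-ι)))
    (hR : RegP46 μ s c₀ Θ) (hδ : 0 < δ) (hc : 0 < c) (hcδ : 64 * c ≤ δ) (hcΘ : c ≤ Θ) (hΘ1 : Θ ≤ 1) (hη : 0 ≤ η)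
    (hok : Est fun ι β γ m => (F ι β γ).Ok Θ m)
    (hdeep : Est fun ι β γ m => ∀ p q : ℕ, St96 (EE μ s) δ c m p q → Deep ((F ι β γ).R m) (2 ^ p) (2 ^ sg96 (EE μ s) c m p))
    (hW : Wpr96 μ s) (hkb : Est fun ι β γ m => KbN65 μ s (F ι β γ) (EE μ s) Θ δ c η (C * ι) m) :
    Est fun ι β γ m => SigN μ s (F ι β γ) (EE μ s) Θ δ c η (c / 64) m := by
  have hE : ∀ n, 0 < EE μ s n := fun n => EE_pos n
  obtain ⟨C', hC'⟩ : ∃ C', C' = max C 5 := ⟨_, rfl⟩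
  have hC1 : C ≤ C' := hC' ▸ le_max_left _ _
  have hC5 : 5 ≤ C' := hC' ▸ le_max_right _ _
  obtain ⟨a, -, -, h1⟩ := hR.est hδ (k := 1) one_pos
  have ht : Tendsto (fun m : ℕ => ((2 ^ m : ℕ) : ℝ)) atTop atTop :=
    tendsto_natCast_atTop_atTop.comp (tendsto_pow_atTop_atTop_of_one_lt one_lt_two)
  refine sigN65 hR hδ hc hcδ hcΘ hη (C := C') (by linarith) hok ?_ ?_
  · have h2 : Est fun ι _ _ m => 0 < ι ∧ ι ≤ c / 4 ∧ 32 ≤ ((2 ^ m : ℕ) : ℝ) ^ ι := by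
      refine ⟨c / 4, by positivity, fun ι hι h => Sml.of fun _ _ => Sml.of fun _ _ => ?_⟩
      filter_upwards [((tendsto_rpow_atTop hι).comp ht).eventually_ge_atTop 32] with m hm
      exact ⟨hι, h, hm⟩
    refine ((h1.and h2).and ((hok.and hdeep).and (strN96 hK hFk hR hδ hW))).mono fun ι β γ _ _ _ =>
      Eventually.of_forall fun m h => ?_
    obtain ⟨⟨⟨h3, -⟩, h4, h5, h6⟩, ⟨h7, h8⟩, h9⟩ := h
    exact (st_of96 h3 hΘ1 hη hc hcδ h4 h5 h6 h7 EE_mono h8 (hRK ι β γ m) h9).mono hE h7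
      (mul_le_mul_of_nonneg_right hC5 h4.le)
  · exact hkb.mono fun ι β γ hι _ _ => Eventually.of_forall fun m h => KbN65.mono96 hE h (mul_le_mul_of_nonneg_right hC1 hι.le)

variable {K : ℕ}

/-- **The kick**, at the concrete frame, with the majorant `Ph65`. -/
def KbL65 (μ : Measure ℝ) (s : ℝ) (K : ℕ) (Θ : ℝ) : Prop := Sml fun δ => Sml fun c => ∀ η : ℝ, 0 < η → η ≤ c / 64 → ∃ C : ℝ,
  Est fun ι β γ m => KbN65 μ s (frm33 μ s K ι β γ) (EE μ s) Θ δ c η (C * ι) m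

/-- **The change of the corrected scale at the concrete frame**, from the kick alone. -/
theorem sigL65 [IsProbabilityMeasure μ] {c₁ C : ℝ} {n₀ : ℕ} (h : In μ s c₁ C n₀) (hk : KapLe96 (EE μ s) (1 / 4)) (hK : 32 ≤ K)
    (hΘ : 0 < Θ) (hΘ1 : Θ ≤ 1) {c₀ : ℝ} (hR : RegP46 μ s c₀ Θ) (hKb : KbL65 μ s K Θ) : SigL33 μ s K Θ := by
  refine Sml.mono (hKb.and (Sml.of (P := fun δ => 0 < δ) fun _ h => h)) fun δ _ hδ => ?_
  obtain ⟨h1, hδ⟩ := hδ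
  refine Sml.mono (h1.and (Sml.le (show 0 < min (δ / 64) Θ by positivity))) fun c hc h2 η hη hηc => ?_
  obtain ⟨h3, h4⟩ := h2
  obtain ⟨C, h5⟩ := h3 η hη hηc
  have h6 : c ≤ δ / 64 := h4.trans (min_le_left _ _)
  have h7 : c ≤ Θ := h4.trans (min_le_right _ _)
  exact ⟨c / 64, by positivity, sigE65 (by omega) (frk33 h hK) (fun ι β γ m => Finset.Subset.refl _) hR hδ hc (by linarith) h7 hΘ1
    hη.le (ok33 (by omega) hΘ) (deep33 h hk hδ hc.le h6) (wpr96 h) h5⟩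

end

end Pool.Agent.W_7d29a1_C0.Asm96
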