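import Pool.Agent.W_7d29a1_C0.FinV33
import Pool.Agent.W_7d29a1_C0.BasFr33
import Pool.Agent.W_7d29a1_C0.SigM96
import Pool.Agent.W_7d29a1_C0.EstE44

/-!
MP_7d29a1_pr, [CURV0] (helper33): THE ROOT. The lower bound `CVL29` at one tilt from the literal targets of the owners at the concrete frame:
`Xt33` (cross terms: six), `KbL65` (kick), `Bt33` (change of the base window: five). Everything else is discharged.
-/

set_option autoImplicit false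

namespace Pool.Agent.W_7d29a1_C0.Frm33

open MeasureTheory Filter Topology
open Pool.Agent.W_7d29a1_H Pool.Agent.W_7d29a1_LB Pool.Agent.W_7d29a1_HK20
open Pool.Agent.W_7d29a1_C0 Pool.Agent.W_7d29a1_C0.Asm96 Pool.Agent.W_7d29a1_C0.EstC46 Pool.Agent.W_7d29a1_C0.EstD44
open Pool.Agent.W_7d29a1_h47 (EM Nondeg)
open Pool.Agent.W_7d29a1_HS (In in_tilt)
open Pool.Agent.W_7d29a1_C0.Par92 (Sml Est)

noncomputable section

/-- **The targets of the cross terms**: (E1), (T), (E2), (E2a), the second moment of (E2b), the clipping. -/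
structure Xt33 (μ : Measure ℝ) (s : ℝ) (K : ℕ) (Θ δ c : ℝ) : Prop where
  e1 : ∃ x : ℝ, 0 < x ∧ Est fun ι β γ m => E1V μ s (frm33 μ s K ι β γ) (EE μ s) Θ δ c x ι m
  t : ∃ x : ℝ, 0 < x ∧ Est fun ι β γ m => TV μ s (frm33 μ s K ι β γ) (EE μ s) Θ δ c x ι m
  e2 : ∃ x : ℝ, 0 < x ∧ Est fun ι β γ m => E2V μ s (frm33 μ s K ι β γ) (EE μ s) Θ δ c x m
  e2a : ∃ x : ℝ, 0 < x ∧ Est fun ι β γ m => E2aV μ s (frm33 μ s K ι β γ) (EE μ s) Θ δ c x m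
  x2 : ∃ x : ℝ, 0 < x ∧ Est fun ι β γ m => X2N μ s (frm33 μ s K ι β γ) (EE μ s) Θ δ c x m
  cm : Est fun ι β γ m => CmN μ s (frm33 μ s K ι β γ) (EE μ s) δ c m

/-- **The targets of the change of the base window**: third order, double ties, odd part, second part, clipping. -/
structure Bt33 (μ : Measure ℝ) (s : ℝ) (K : ℕ) (Θ δ c η : ℝ) : Prop where
  n1 : Est fun ι β γ m => N1B μ s (frm33 μ s K ι β γ) (EE μ s) Θ δ c η m
  n2 : Est fun ι β γ m => N2B μ s (frm33 μ s K ι β γ) (EE μ s) Θ δ c η m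
  mm : Est fun ι β γ m => MB μ s (frm33 μ s K ι β γ) (EE μ s) Θ δ c η m
  rr : Est fun ι β γ m => RB μ s (frm33 μ s K ι β γ) (EE μ s) Θ δ c η m
  cl : Est fun ι β γ m => ClB μ s (frm33 μ s K ι β γ) δ m

variable {μ : Measure ℝ} [IsProbabilityMeasure μ]

/-- The cross terms. -/
theorem crRt33 {s c₂ C : ℝ} {n₀ : ℕ} (h : In μ s c₂ C n₀) (hk : KapLe96 (EE μ s) (1 / 4)) {K : ℕ} (hK : 32 ≤ K) {Θ : ℝ} (hΘ : 0 < Θ)
    (hΘ1 : Θ ≤ 1) {c₀ : ℝ} (hR : RegP46 μ s c₀ Θ) (H : Sml fun δ => Sml fun c => Xt33 μ s K Θ δ c) : CrLv33 μ s K Θ := by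
  refine crLv44 h hk hK hΘ hΘ1 hR (H.mono fun δ hδ H1 => H1.mono fun c _ H2 => ?_)
  exact ⟨H2.e1, H2.t, H2.e2, H2.e2a, str96 h hK hR hδ, H2.x2, H2.cm⟩

/-- The change of the base window. -/
theorem basRt33 {s c₂ C : ℝ} {n₀ : ℕ} (h : In μ s c₂ C n₀) (hk : KapLe96 (EE μ s) (1 / 4)) {K : ℕ} (hK : 32 ≤ K) {Θ : ℝ} (hΘ : 0 < Θ)
    (hΘ1 : Θ ≤ 1) {c₀ : ℝ} (hR : RegP46 μ s c₀ Θ) (H : Sml fun δ => Sml fun c => ∀ η : ℝ, 0 < η → η ≤ c / 64 → Bt33 μ s K Θ δ c η) :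
    BasL33 μ s K Θ := by
  refine basL_of33 h hk (by omega) hR hΘ hΘ1 (H.mono fun δ hδ H1 => H1.mono fun c _ H2 η hη hηc => ?_)
  obtain ⟨h1, h2, h3, h4, h5⟩ := H2 η hη hηc
  exact ⟨str96 h hK hR hδ, h1, h2, h3, h4, h5⟩

/-- **THE LOWER BOUND at one tilt, from the targets of the owners.** -/
theorem cvlRt33 (hE : EM μ) (hN : Nondeg μ) {s : ℝ} {K : ℕ} (hK : 32 ≤ K)
    (H : ∀ a : ℝ, 0 < a → Stiff96 (EE μ s) a → ∀ Θ : ℝ, 0 < Θ → Θ ≤ 1 / 4 → KapLe96 (EE μ s) Θ → RegP46 μ s a Θ →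
      (Sml fun δ => Sml fun c => Xt33 μ s K Θ δ c) ∧ KbL65 μ s K Θ ∧
        Sml fun δ => Sml fun c => ∀ η : ℝ, 0 < η → η ≤ c / 64 → Bt33 μ s K Θ δ c η) : CVL29 μ s := by
  obtain ⟨c₂, C, n₀, hin⟩ := in_tilt hE hN s
  have hk := kap_quarter96 hE hN s
  refine cvlV33 hE hN hK fun a ha hst Θ hΘ hΘ4 hKap hR => ?_
  obtain ⟨h1, h2, h3⟩ := H a ha hst Θ hΘ hΘ4 hKap hR
  exact ⟨crRt33 hin hk hK hΘ (by linarith) hR h1, sigL65 hin hk hK hΘ (by linarith) hR h2,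
    basRt33 hin hk hK hΘ (by linarith) hR h3⟩

end

end Pool.Agent.W_7d29a1_C0.Frm33
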