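import Pool.Agent.W_7d29a1_C0.Rt33
import Pool.Agent.W_7d29a1_C0.ClG46

/-!
MP_7d29a1_pr, [CURV0] (helper33): THE ROOT, the clipping discharged (helper46): `cmN33 : CmN`, `cvlRtB33`: ten targets are left: `XtB33`
(cross terms: five), `KbL65` (kick), `BtB33` (change of the base window: four).
-/

set_option autoImplicit false

namespace Pool.Agent.W_7d29a1_C0.Frm33

open Finset MeasureTheory Filter Topology
open Pool.Agent.W_7d29a1_H Pool.Agent.W_7d29a1_LB Pool.Agent.W_7d29a1_HK20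
open Pool.Agent.W_7d29a1_C0 Pool.Agent.W_7d29a1_C0.Mod92
open Pool.Agent.W_7d29a1_C0.Asm96 Pool.Agent.W_7d29a1_C0.EstC46 Pool.Agent.W_7d29a1_C0.EstD44 Pool.Agent.W_7d29a1_C0.Cl46
open Pool.Agent.W_7d29a1_h47 (EM Nondeg)
open Pool.Agent.W_7d29a1_HS (In in_tilt)
open Pool.Agent.W_7d29a1_C0.Par92 (Sml Est)

noncomputable section

/-- **The targets of the cross terms**: (E1), (T), (E2), (E2a), the second moment of (E2b). -/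
structure XtB33 (μ : Measure ℝ) (s : ℝ) (K : ℕ) (Θ δ c : ℝ) : Prop where
  e1 : ∃ x : ℝ, 0 < x ∧ Est fun ι β γ m => E1V μ s (frm33 μ s K ι β γ) (EE μ s) Θ δ c x ι m
  t : ∃ x : ℝ, 0 < x ∧ Est fun ι β γ m => TV μ s (frm33 μ s K ι β γ) (EE μ s) Θ δ c x ι m
  e2 : ∃ x : ℝ, 0 < x ∧ Est fun ι β γ m => E2V μ s (frm33 μ s K ι β γ) (EE μ s) Θ δ c x m
  e2a : ∃ x : ℝ, 0 < x ∧ Est fun ι β γ m => E2aV μ s (frm33 μ s K ι β γ) (EE μ s) Θ δ c x m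
  x2 : ∃ x : ℝ, 0 < x ∧ Est fun ι β γ m => X2N μ s (frm33 μ s K ι β γ) (EE μ s) Θ δ c x m

/-- **The targets of the change of the base window**: third order, double ties, odd part, second part. -/
structure BtB33 (μ : Measure ℝ) (s : ℝ) (K : ℕ) (Θ δ c η : ℝ) : Prop where
  n1 : Est fun ι β γ m => N1B μ s (frm33 μ s K ι β γ) (EE μ s) Θ δ c η m
  n2 : Est fun ι β γ m => N2B μ s (frm33 μ s K ι β γ) (EE μ s) Θ δ c η m
  mm : Est fun ι β γ m => MB μ s (frm33 μ s K ι β γ) (EE μ s) Θ δ c η m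
  rr : Est fun ι β γ m => RB μ s (frm33 μ s K ι β γ) (EE μ s) Θ δ c η m

variable {μ : Measure ℝ} [IsProbabilityMeasure μ]

/-- **The clip error at both corners of the finer window.** -/
theorem cmN33 {s c₁ C : ℝ} {n₀ : ℕ} (h : In μ s c₁ C n₀) (hk : KapLe96 (EE μ s) (1 / 4)) {K : ℕ} (hK : 32 ≤ K) {δ c : ℝ} (hδ : 0 < δ)
    (hc : 0 ≤ c) (hcδ : c ≤ δ / 64) : Est fun ι β γ m => CmN μ s (frm33 μ s K ι β γ) (EE μ s) δ c m := by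
  refine ⟨δ / 16, by positivity, fun ι _ hι => ⟨1, one_pos, fun β hβ hβ1 => ?_⟩⟩
  obtain ⟨γ₀, hγ₀, H⟩ := clF46 h hK (show 0 < δ / 4 by positivity) hβ hβ1
  refine ⟨γ₀, hγ₀, fun γ hγ hγ' => ?_⟩
  obtain ⟨c', hc', H⟩ := H γ hγ hγ'
  filter_upwards [H, b0_33 hδ (show ι ≤ δ / 4 by linarith), ev_z hK hc', deep33_ev h hk hδ hc hcδ hι, eventually_ge_atTop 1]
    with m h1 h2 h3 h4 hm1 p q i hst hi j hj a ha
  have hsm : sg96 (EE μ s) c m p ≤ m := hst.hsq.trans hst.hqm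
  have hpm : p ≤ m := hst.hps.trans hsm
  have dp : Deep (R33 ι m) (2 ^ p) (2 ^ sg96 (EE μ s) c m p) := (h4 p hst.hp hsm).mono (by omega)
  have hj' : j ∈ Rw (R33 ι m) (i * 2 ^ q) ((i + 1) * 2 ^ q) := hj
  unfold Rw at hj'
  rw [mem_inter] at hj'
  have hj1 := (dp j hj'.1).1
  have hj2 := mem_range.1 (R33_sub ι m hj'.1)
  have hpp : 2 ^ p ≤ 2 ^ m := Nat.pow_le_pow_right two_pos hpm
  have hb : 2 ^ (p - ⌈ι * (m : ℝ)⌉₊) ≤ 2 ^ p := Nat.pow_le_pow_right two_pos (Nat.sub_le _ _)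
  have hL2 : 2 ^ m + 2 ^ m ≤ L33 K m := by
    have e : 2 ^ m + 2 ^ m = 2 ^ (m + 1) := by ring
    rw [e]
    exact Nat.pow_le_pow_right two_pos (by nlinarith)
  obtain ⟨z, hz⟩ : ∃ z, z = Real.exp (-(L33 K m : ℝ) ^ c') := ⟨_, rfl⟩
  have hz0 : 0 < z := by rw [hz]; exact Real.exp_pos _
  have key : avy (ys33 μ s K m) (fun y => ∫ ω, cm46 μ s (L33 K m) γ (B33 β m) (2 ^ (p - ⌈ι * (m : ℝ)⌉₊)) (2 ^ p) j a y ω
      ∂(Pm μ (L33 K m))) ≤ z :=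
    avy_le46 hz0.le fun y hy => hz ▸ h1 _ (2 ^ p) j (h2 p hst.hp) hb (hb.trans hpp) (by omega) (by omega) a ha y hy
  refine le_trans (show _ ≤ z from key) ?_
  obtain ⟨n, hn⟩ : ∃ n : ℝ, n = ((2 ^ m : ℕ) : ℝ) := ⟨_, rfl⟩
  obtain ⟨L, hL⟩ : ∃ L : ℝ, L = ((L33 K m : ℕ) : ℝ) := ⟨_, rfl⟩
  have hn1 : 1 ≤ n := hn ▸ n_ge1 m
  have hn0 : 0 < n := by linarith
  have hLn : n ≤ L := by
    rw [hn, hL]
    exact_mod_cast L33_ge (by omega : 1 ≤ K) m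
  rw [← hz, ← hL, ← hn] at h3
  rw [← hn]
  have e4 : n ^ (-6 : ℝ) = (n ^ 4)⁻¹ * (n ^ 2)⁻¹ := by
    rw [Real.rpow_neg hn0.le, ← mul_inv, ← pow_add, ← Real.rpow_natCast n (4 + 2)]
    norm_num
  rw [e4]
  have h5 : n ^ 2 * z ≤ (n ^ 4)⁻¹ := (mul_le_mul_of_nonneg_right (pow_le_pow_left₀ hn0.le hLn 2) hz0.le).trans h3
  have h6 := mul_le_mul_of_nonneg_right h5 (show 0 ≤ (n ^ 2)⁻¹ by positivity)
  have e5 : n ^ 2 * z * (n ^ 2)⁻¹ = z := by field_simp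
  rwa [e5] at h6

/-- **THE LOWER BOUND at one tilt, from the ten targets.** -/
theorem cvlRtB33 (hE : EM μ) (hN : Nondeg μ) {s : ℝ} {K : ℕ} (hK : 32 ≤ K)
    (H : ∀ a : ℝ, 0 < a → Stiff96 (EE μ s) a → ∀ Θ : ℝ, 0 < Θ → Θ ≤ 1 / 4 → KapLe96 (EE μ s) Θ → RegP46 μ s a Θ →
      (Sml fun δ => Sml fun c => XtB33 μ s K Θ δ c) ∧ KbL65 μ s K Θ ∧
        Sml fun δ => Sml fun c => ∀ η : ℝ, 0 < η → η ≤ c / 64 → BtB33 μ s K Θ δ c η) : CVL29 μ s := by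
  obtain ⟨c₂, C, n₀, hin⟩ := in_tilt hE hN s
  have hk := kap_quarter96 hE hN s
  refine cvlRt33 hE hN hK fun a ha hst Θ hΘ hΘ4 hKap hR => ?_
  obtain ⟨h1, h2, h3⟩ := H a ha hst Θ hΘ hΘ4 hKap hR
  refine ⟨h1.mono fun δ hδ g => (g.and (Sml.le (show 0 < δ / 64 by positivity))).mono fun c hc g2 => ?_, h2,
    h3.mono fun δ hδ g => g.mono fun c _ g2 η hη hηc => ?_⟩
  · obtain ⟨g3, hcδ⟩ := g2
    exact ⟨g3.e1, g3.t, g3.e2, g3.e2a, g3.x2, cmN33 hin hk hK hδ hc.le hcδ⟩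
  · obtain ⟨g3, g4, g5, g6⟩ := g2 η hη hηc
    exact ⟨g3, g4, g5, g6, clB46 hin hK hδ⟩

end

end Pool.Agent.W_7d29a1_C0.Frm33
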