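import Pool.Agent.W_7d29a1_C0.Rec96

/-!
STORM C0 (helper96): THE SCHEDULE OF THE BASE WINDOWS.

A state is a pair `(p, q)`: base window `2 ^ p`, blocks `2 ^ q`, in a polymer of length `2 ^ m`.  `g q` is the base two logarithm of
`E (2 ^ q)`, `σ p` is a scale with `g (σ p)` about `3 / 2 * g p` (below it the inner ties are corrected).  A super level
`(p, q) → (p, q + d)`, `l ≤ d < 2 l` (`2 ^ d` blocks are merged at once) is allowed if `σ p ≤ q` and if `E (2 ^ p) ^ 2` exceeds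
`E (2 ^ (q + d))` by the factor `2 ^ (c m)` and `E (2 ^ q)` by at most `2 ^ ((c + e) m)`; a change of base `(p, q) → (p', q)` if `σ p' + c m ≤ q`, `q + l ≤ m`, if `E (2 ^ p) ^ 2` and
`E (2 ^ p') ^ 2` exceed `E (2 ^ q)` by a factor between `2 ^ (c m)` and `2 ^ ((c + e) m)`, and if the resistivity
`2 ^ p' / (E (2 ^ p') E (2 ^ q))` of the same inner tie is below `2 ^ ((Θ - c) m)`.  If `3 l + 3 ≤ e m` there is a way from
`(p₀, q₀)` to `(p, m)` with at most `1 / e` changes.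
-/

set_option autoImplicit false

namespace Pool.Agent.W_7d29a1_C0

open Filter Topology

section sched

variable {g : ℕ → ℝ} {m p₀ l : ℕ} {c e Θ : ℝ} {P : ℕ → ℕ → ℕ → Prop} {σ : ℕ → ℕ}

theorem lip96 (hl : ∀ q, g (q + 1) ≤ g q + 1) {a b : ℕ} (h : a ≤ b) : g b ≤ g a + ((b : ℝ) - a) := by
  induction b, h using Nat.le_induction with
  | base => simp
  | succ b _ ih =>
    have := hl b
    push_cast
    linarith

/-- Super levels with a fixed base. -/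
theorem run96 (hg : Monotone g) (hl1 : 1 ≤ l)
    (hstep : ∀ K p q d : ℕ, P K p q → p₀ ≤ p → σ p ≤ q → l ≤ d → d < 2 * l → q + d ≤ m → g (q + d) + c * m ≤ 2 * g p →
      2 * g p ≤ g q + (c + e) * m → P (K + 1) p (q + d))
    {p q' : ℕ} (h0 : p₀ ≤ p) (hm : q' ≤ m) (hgl : g q' + c * m ≤ 2 * g p) :
    ∀ t K q : ℕ, q' - q ≤ t → P K p q → σ p ≤ q → 2 * g p ≤ g q + (c + e) * m → q + l ≤ q' →
      ∃ K', K' ≤ K + (q' - q) ∧ P K' p q' := by
  intro t
  induction t with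
  | zero => intro K q h1 _ _ _ h2; omega
  | succ t ih =>
    intro K q ht hP hpq hpin hq
    rcases Nat.lt_or_ge (q' - q) (2 * l) with h1 | h1
    · have h2 := hstep K p q (q' - q) hP h0 hpq (by omega) h1 (by omega) (by rwa [show q + (q' - q) = q' by omega]) hpin
      rw [show q + (q' - q) = q' by omega] at h2
      exact ⟨K + 1, by omega, h2⟩
    · have h2 := hstep K p q l hP h0 hpq le_rfl (by omega) (by omega) (by linarith [hg (show q + l ≤ q' by omega)]) hpin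
      obtain ⟨K', h3, h4⟩ := ih (K + 1) (q + l) (by omega) h2 (by omega) (hpin.trans (by linarith [hg (show q ≤ q + l by omega)]))
        (by omega)
      exact ⟨K', by omega, h4⟩

/-- The largest element below `m`. -/
theorem max96 {Q : ℕ → Prop} {m a : ℕ} (ha : a ≤ m) (hQ : Q a) : ∃ b, a ≤ b ∧ b ≤ m ∧ Q b ∧ ∀ x, b < x → x ≤ m → ¬Q x := by
  classical
  obtain ⟨b, hb⟩ : ∃ b, b = Nat.findGreatest Q m := ⟨_, rfl⟩
  refine ⟨b, hb ▸ Nat.le_findGreatest ha hQ, hb ▸ Nat.findGreatest_le m, hb ▸ Nat.findGreatest_spec ha hQ, fun x hx hxm => ?_⟩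
  exact Nat.findGreatest_is_greatest (hb ▸ hx) hxm

/-- The invariant after `i` changes. -/
def Inv96 (g : ℕ → ℝ) (P : ℕ → ℕ → ℕ → Prop) (σ : ℕ → ℕ) (m p₀ l : ℕ) (c e : ℝ) (i : ℕ) : Prop :=
  ∃ K p q : ℕ, P K p q ∧ p₀ ≤ p ∧ σ p ≤ q ∧ (σ p : ℝ) + c * m ≤ m ∧ q + l ≤ m ∧ K ≤ q + i ∧
    ((i : ℝ) * (e * m / 2) ≤ g q ∨ q + l = m ∧ (i : ℝ) * (e * m / 2) ≤ m / 3 + e * m / 2) ∧
    g q + (c + e) * m - 2 ≤ 2 * g p ∧ 2 * g p ≤ g q + (c + e) * m

/-- One stage: super levels up to the limit of the base, and a change. -/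
theorem stage96 (hg : Monotone g) (hl : ∀ q, g (q + 1) ≤ g q + 1) (hp0 : 13 * (c * m) ≤ g p₀) (hl1 : 1 ≤ l)
    (hc : 3 * (l : ℝ) + 3 ≤ e * m) (hec : e * m ≤ c * m) (hσ : ∀ p, p ≤ σ p) (hσ' : ∀ p, p₀ ≤ p → p ≤ m → g (σ p) ≤ 3 / 2 * g p + 1)
    (hK : ∀ q : ℕ, p₀ ≤ q → q ≤ m → (q : ℝ) ≤ 3 * g q + Θ * q + c * m) (hm3 : g m ≤ m / 3) (hΘ : 0 ≤ Θ) (hΘ' : Θ ≤ 1 / 4)
    (hcΘ : 16 * c ≤ Θ)
    (hstep : ∀ K p q d : ℕ, P K p q → p₀ ≤ p → σ p ≤ q → l ≤ d → d < 2 * l → q + d ≤ m → g (q + d) + c * m ≤ 2 * g p →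
      2 * g p ≤ g q + (c + e) * m → P (K + 1) p (q + d))
    (hchg : ∀ K p p' q : ℕ, P K p q → p₀ ≤ p → p ≤ p' → σ p ≤ q → (σ p' : ℝ) + c * m ≤ q → q + l ≤ m → g q + c * m ≤ 2 * g p →
      g q + c * m ≤ 2 * g p' → 2 * g p ≤ g q + (c + e) * m → 2 * g p' ≤ g q + (c + e) * m →
      (p' : ℝ) + c * m ≤ Θ * m + g p' + g q → P (K + 1) p' q)
    {i : ℕ} (h : Inv96 g P σ m p₀ l c e i) :
    (∃ K p : ℕ, P K p m ∧ p₀ ≤ p ∧ (σ p : ℝ) + c * m ≤ m ∧ K ≤ m + i ∧ g m + c * m ≤ 2 * g p ∧ 2 * g p ≤ g m + (c + e) * m) ∨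
      Inv96 g P σ m p₀ l c e (i + 1) := by
  obtain ⟨K, p, q, hP, h0, hpq, hσm, hqm, hKi, hi, hpg, hpin⟩ := h
  have hl1' : (1 : ℝ) ≤ l := by exact_mod_cast hl1
  have hce : (c + e) * m = c * m + e * m := by ring
  have hpq' : p ≤ q := (hσ p).trans hpq
  have hleg : g q + c * m ≤ 2 * g p := by linarith
  obtain ⟨q₁, hqq', hq'm, hq', hmax⟩ := max96 (Q := fun x => g x + c * m ≤ 2 * g p) (show q ≤ m by omega) hleg
  rcases eq_or_lt_of_le hq'm with hem | hlt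
  · left
    rw [hem] at hq'
    obtain ⟨K', h1, h2⟩ := run96 hg hl1 hstep h0 le_rfl hq' (m - q) K q le_rfl hP hpq hpin hqm
    exact ⟨K', p, h2, h0, hσm, by omega, hq', hpin.trans (by linarith [hg (show q ≤ m by omega)])⟩
  · right
    have hq2 : 2 * g p < g (q₁ + 1) + c * m := not_le.1 (hmax (q₁ + 1) (by omega) (by omega))
    have hq3 : 2 * g p < g q₁ + 1 + c * m := by linarith [hl q₁]
    have hgap : (q : ℝ) + 3 * l ≤ q₁ := by
      have := lip96 hl hqq'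
      linarith
    have hgap' : q + 3 * l ≤ q₁ := by exact_mod_cast hgap
    -- the point of the change
    obtain ⟨q', hq'def⟩ : ∃ q', q' = min q₁ (m - l) := ⟨_, rfl⟩
    have hq'1 : q' ≤ q₁ := hq'def ▸ min_le_left _ _
    have hq'2 : q' + l ≤ m := by
      have := hq'def ▸ min_le_right q₁ (m - l)
      omega
    have hq'3 : q + l ≤ q' := by
      rw [hq'def]
      exact le_min (by omega) (by omega)
    have hlq' : g q' + c * m ≤ 2 * g p := by linarith [hg hq'1]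
    obtain ⟨K', hK', hP'⟩ := run96 hg hl1 hstep h0 (by omega) hlq' (q' - q) K q le_rfl hP hpq hpin hq'3
    -- the new base is at least the old one
    have hpb : 2 * g p ≤ g q' + (c + e) * m := by
      rcases le_total q₁ (m - l) with h6 | h6
      · rw [hq'def, min_eq_left h6]
        linarith
      · have h7 : q' = m - l := by rw [hq'def, min_eq_right h6]
        have h8 : g q₁ ≤ g q' + ((q₁ : ℝ) - q') := lip96 hl hq'1
        have h9 : (q₁ : ℝ) ≤ q' + l := by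
          have : q₁ ≤ q' + l := by omega
          exact_mod_cast this
        linarith
    have hpm : p ≤ m := by omega
    obtain ⟨p', hpp', hp'm, hp', hmax'⟩ := max96 (Q := fun x => 2 * g x ≤ g q' + (c + e) * m) hpm hpb
    have hgq' : g p₀ ≤ g q' := hg (by omega)
    -- the distance of `σ p'` and `q'`
    have hσp' : g (σ p') ≤ 3 / 2 * g p' + 1 := hσ' p' (by omega) hp'm
    have hsep : (σ p' : ℝ) + c * m ≤ q' := by
      by_contra hcon
      push Not at hcon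
      have h5 : g q' ≤ g (σ p') + c * m := by
        rcases le_total (σ p') q' with h6 | h6
        · have := lip96 hl h6
          linarith
        · have := hg h6
          linarith
      linarith
    have hsep' : σ p' ≤ q' := by
      have h6 : (σ p' : ℝ) ≤ q' := by linarith
      exact_mod_cast h6
    have hp'lt : p' ≤ q' := (hσ p').trans hsep'
    have hp2 : g q' + (c + e) * m - 2 ≤ 2 * g p' := by
      have h6 : ¬ (2 * g (p' + 1) ≤ g q' + (c + e) * m) := hmax' (p' + 1) (by omega) (by omega)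
      have h7 := hl p'
      push Not at h6
      linarith
    have hm0 : (0 : ℝ) ≤ m := Nat.cast_nonneg m
    have hgm : g q' ≤ m / 3 := (hg (by omega : q' ≤ m)).trans hm3
    have hKp := hK p' (by omega) hp'm
    -- `p' ≤ 3 m / 4`
    have hp34 : (p' : ℝ) ≤ 3 / 4 * m := by
      have e1 : Θ * (p' : ℝ) ≤ 1 / 4 * p' := mul_le_mul_of_nonneg_right hΘ' (Nat.cast_nonneg _)
      have e2 : c * (m : ℝ) ≤ 1 / 64 * m := mul_le_mul_of_nonneg_right (by linarith) hm0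
      linarith
    have hchange : (p' : ℝ) + c * m ≤ Θ * m + g p' + g q' := by
      have e1 : Θ * (p' : ℝ) ≤ Θ * (3 / 4 * m) := mul_le_mul_of_nonneg_left hp34 hΘ
      have e2 : 16 * c * (m : ℝ) ≤ Θ * m := mul_le_mul_of_nonneg_right hcΘ hm0
      linarith
    refine ⟨K' + 1, p', q', hchg _ _ _ _ hP' h0 hpp' (by omega) hsep hq'2 hlq' (by linarith) hpb hp' hchange, by omega,
      hsep', hsep.trans (by exact_mod_cast (show q' ≤ m by omega)), hq'2, by omega, ?_, hp2, hp'⟩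
    push_cast
    have hgi : (i : ℝ) * (e * m / 2) ≤ g q := by
      rcases hi with h6 | ⟨h6, _⟩
      · exact h6
      · omega
    rcases le_total q₁ (m - l) with h6 | h6
    · left
      have e3 : q' = q₁ := by rw [hq'def, min_eq_left h6]
      rw [e3]
      linarith
    · right
      have h7 : q' = m - l := by rw [hq'def, min_eq_right h6]
      refine ⟨by omega, ?_⟩
      have := hg (show q ≤ m by omega)
      linarith

/-- **The schedule.** -/
theorem sched96 {q₀ : ℕ} (hg : Monotone g) (hl : ∀ q, g (q + 1) ≤ g q + 1) (hp0m : (σ p₀ : ℝ) + c * m ≤ m) (hp0 : 13 * (c * m) ≤ g p₀)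
    (hq0 : σ p₀ ≤ q₀) (hq0m : q₀ + l ≤ m) (hq0a : g q₀ + (c + e) * m - 2 ≤ 2 * g p₀) (hq0b : 2 * g p₀ ≤ g q₀ + (c + e) * m)
    (hl1 : 1 ≤ l) (hc : 3 * (l : ℝ) + 3 ≤ e * m) (hec : e ≤ c) (hσ : ∀ p, p ≤ σ p) (hσ' : ∀ p, p₀ ≤ p → p ≤ m → g (σ p) ≤ 3 / 2 * g p + 1)
    (hK : ∀ q : ℕ, p₀ ≤ q → q ≤ m → (q : ℝ) ≤ 3 * g q + Θ * q + c * m) (hm3 : g m ≤ m / 3) (hΘ : 0 ≤ Θ) (hΘ' : Θ ≤ 1 / 4)
    (hcΘ : 16 * c ≤ Θ) (hc0 : 0 < c) (he0 : 0 < e)
    (hstart : P 0 p₀ q₀)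
    (hstep : ∀ K p q d : ℕ, P K p q → p₀ ≤ p → σ p ≤ q → l ≤ d → d < 2 * l → q + d ≤ m → g (q + d) + c * m ≤ 2 * g p →
      2 * g p ≤ g q + (c + e) * m → P (K + 1) p (q + d))
    (hchg : ∀ K p p' q : ℕ, P K p q → p₀ ≤ p → p ≤ p' → σ p ≤ q → (σ p' : ℝ) + c * m ≤ q → q + l ≤ m → g q + c * m ≤ 2 * g p →
      g q + c * m ≤ 2 * g p' → 2 * g p ≤ g q + (c + e) * m → 2 * g p' ≤ g q + (c + e) * m →
      (p' : ℝ) + c * m ≤ Θ * m + g p' + g q → P (K + 1) p' q) :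
    ∃ K p : ℕ, P K p m ∧ p₀ ≤ p ∧ (σ p : ℝ) + c * m ≤ m ∧ (K : ℝ) ≤ m + 2 / e ∧ g m + c * m ≤ 2 * g p ∧
      2 * g p ≤ g m + (c + e) * m := by
  have hl1' : (1 : ℝ) ≤ l := by exact_mod_cast hl1
  have hmpos : (0 : ℝ) < m := by
    by_contra h
    push Not at h
    have : e * m ≤ 0 := mul_nonpos_of_nonneg_of_nonpos he0.le h
    linarith
  have hec' : e * m ≤ c * m := mul_le_mul_of_nonneg_right hec hmpos.le
  have hinv0 : Inv96 g P σ m p₀ l c e 0 :=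
    ⟨0, p₀, q₀, hstart, le_rfl, hq0, hp0m, hq0m, by omega,
      Or.inl (by
        have : g p₀ ≤ g q₀ := hg ((hσ p₀).trans hq0)
        have h1 : 0 ≤ c * (m : ℝ) := mul_nonneg hc0.le hmpos.le
        push_cast
        linarith), hq0a, hq0b⟩
  have hbd : ∀ i : ℕ, Inv96 g P σ m p₀ l c e i → (i : ℝ) * (e * m / 2) ≤ m / 3 + e * m / 2 := by
    intro i h
    obtain ⟨K, p, q, _, _, _, _, hqm, _, h1, _⟩ := h
    rcases h1 with h1 | h1
    · have := h1.trans ((hg (show q ≤ m by omega)).trans hm3)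
      linarith
    · exact h1.2
  have hall : ∀ i : ℕ, (∃ K p j : ℕ, P K p m ∧ p₀ ≤ p ∧ (σ p : ℝ) + c * m ≤ m ∧ K ≤ m + j ∧ (j : ℝ) * (e * m / 2) ≤ m / 3 + e * m / 2 ∧
      g m + c * m ≤ 2 * g p ∧ 2 * g p ≤ g m + (c + e) * m) ∨ Inv96 g P σ m p₀ l c e i := by
    intro i
    induction i with
    | zero => exact Or.inr hinv0
    | succ i ih =>
      rcases ih with h | h
      · exact Or.inl h
      · rcases stage96 hg hl hp0 hl1 hc hec' hσ hσ' hK hm3 hΘ hΘ' hcΘ hstep hchg h with ⟨K, p, h1, h2, h3, h4, h5, h6⟩ | h1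
        · exact Or.inl ⟨K, p, i, h1, h2, h3, h4, hbd i h, h5, h6⟩
        · exact Or.inr h1
  have hbc : ∀ j : ℕ, (j : ℝ) * (e * m / 2) ≤ m / 3 + e * m / 2 → (j : ℝ) * e ≤ 2 / 3 + e := by
    intro j h5
    have e3 : (j : ℝ) * e * m ≤ (2 / 3 + e) * m := by nlinarith
    exact le_of_mul_le_mul_right e3 hmpos
  have hc64 : c ≤ 1 / 64 := by linarith
  obtain ⟨i, hi⟩ := exists_nat_gt (1 / e)
  rcases hall i with ⟨K, p, j, h1, h2, h3, h4, h5, h6, h7⟩ | h1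
  · refine ⟨K, p, h1, h2, h3, ?_, h6, h7⟩
    have e1 : (j : ℝ) ≤ 2 / e := by
      rw [le_div_iff₀ he0]
      linarith [hbc j h5]
    have e3 : (K : ℝ) ≤ m + j := by exact_mod_cast h4
    linarith
  · exfalso
    have e2 := hbc i (hbd i h1)
    rw [div_lt_iff₀ he0] at hi
    linarith

end sched

end Pool.Agent.W_7d29a1_C0
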