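import Pool.Agent.W_7d29a1_C0.Ibp32

/-!
CURV0 (MP_7d29a1_pr), section SM, the leaf of the law, part 2: the exponential moments and the moments of the predictable
score sums `∑ c p η * sc (η p)`, where `c p` does not see the rows `≥ p.1`. (helper32)
-/

set_option autoImplicit false

namespace Pool.Agent.W_7d29a1_C0.H32

open MeasureTheory ProbabilityTheory Filter Topology
open Pool.Agent.W_7d29a1_F

noncomputable section

variable {μ : Measure ℝ} {f f' : ℝ → ℝ}

theorem sq_le_two_exp {u : ℝ} (hu : 0 ≤ u) : u ^ 2 ≤ 2 * Real.exp u := by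
  have := Real.quadratic_le_exp_of_nonneg hu
  nlinarith

theorem exp_le_quad (x : ℝ) : Real.exp x ≤ 1 + x + x ^ 2 * Real.exp |x| := by
  have h0 : 1 ≤ Real.exp |x| := Real.one_le_exp (abs_nonneg x)
  have h2 : 0 ≤ x ^ 2 := sq_nonneg x
  rcases le_or_gt |x| 1 with h | h
  · have h1 := Real.abs_exp_sub_one_sub_id_le h
    have h3 := le_abs_self (Real.exp x - 1 - x)
    nlinarith
  · rcases le_or_gt 0 x with hx | hx
    · rw [abs_of_nonneg hx] at h h0 ⊢
      have : 1 ≤ x ^ 2 := by nlinarith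
      nlinarith
    · have h4 : Real.exp x ≤ 1 := Real.exp_le_one_iff.2 hx.le
      rw [abs_of_neg hx] at h h0 ⊢
      have : -x ≤ x ^ 2 := by nlinarith
      nlinarith

/-- The exponential moments of the score are moments of an integrable function. -/
theorem DenLaw.int_exp (h : DenLaw μ f f') : ∃ θ : ℝ, 0 < θ ∧
    Integrable (fun x => Real.exp (θ * |sc f f' x|)) μ := by
  obtain ⟨θ, h0, h1⟩ := h.mom
  refine ⟨θ, h0, h1.congr (ae_of_all _ fun x => ?_)⟩
  show _ = Real.exp (θ * |-(f' x / f x)|)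
  rw [abs_neg]

theorem DenLaw.int_sc (h : DenLaw μ f f') : Integrable (sc f f') μ := by
  obtain ⟨θ, h0, h1⟩ := h.int_exp
  refine (h1.const_mul (1 / θ)).mono' h.meas_sc.aestronglyMeasurable (ae_of_all _ fun x => ?_)
  rw [Real.norm_eq_abs]
  have h2 := Real.add_one_le_exp (θ * |sc f f' x|)
  rw [div_mul_eq_mul_div, one_mul, le_div_iff₀ h0]
  nlinarith

variable [IsProbabilityMeasure μ]

/-- The score is centred. -/
theorem DenLaw.sc_mean (h : DenLaw μ f f') : ∫ x, sc f f' x ∂μ = 0 := by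
  have h1 := h.ibp (g := fun _ => 1) (g' := fun _ => 0) (fun x => hasDerivAt_const x 1) (integrable_const _)
    (integrable_const _) (by simpa using h.int_sc)
  simpa using h1.symm

/-- **The score is locally subgaussian.** -/
theorem DenLaw.mgf (h : DenLaw μ f f') : ∃ K θ0 : ℝ, 0 < K ∧ 0 < θ0 ∧ ∀ θ : ℝ, |θ| ≤ θ0 →
    Integrable (fun x => Real.exp (θ * sc f f' x)) μ ∧
      ∫ x, Real.exp (θ * sc f f' x) ∂μ ≤ Real.exp (K * θ ^ 2) := by
  obtain ⟨t, t0, ht⟩ := h.int_exp
  set I : ℝ := ∫ x, Real.exp (t * |sc f f' x|) ∂μ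
  have hI : 0 < I := integral_exp_pos ht
  refine ⟨8 / t ^ 2 * I, t / 2, by positivity, by positivity, fun θ hθ => ?_⟩
  have hi : Integrable (fun x => Real.exp (θ * sc f f' x)) μ := by
    refine ht.mono' ((h.meas_sc.const_mul θ).exp).aestronglyMeasurable (ae_of_all _ fun x => ?_)
    rw [Real.norm_eq_abs, abs_of_pos (Real.exp_pos _)]
    refine Real.exp_le_exp.2 ?_
    calc θ * sc f f' x ≤ |θ * sc f f' x| := le_abs_self _
      _ = |θ| * |sc f f' x| := abs_mul _ _
      _ ≤ t * |sc f f' x| := mul_le_mul_of_nonneg_right (by linarith) (abs_nonneg _)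
  refine ⟨hi, ?_⟩
  have key : ∀ x, Real.exp (θ * sc f f' x) ≤
      1 + θ * sc f f' x + θ ^ 2 * (8 / t ^ 2) * Real.exp (t * |sc f f' x|) := fun x => by
    have h1 := exp_le_quad (θ * sc f f' x)
    have h2 : (θ * sc f f' x) ^ 2 * Real.exp |θ * sc f f' x| ≤
        θ ^ 2 * (8 / t ^ 2) * Real.exp (t * |sc f f' x|) := by
      have h3 := sq_le_two_exp (u := t * |sc f f' x| / 2) (by positivity)
      have h4 : sc f f' x ^ 2 ≤ 8 / t ^ 2 * Real.exp (t * |sc f f' x| / 2) := by
        rw [div_mul_eq_mul_div, le_div_iff₀ (by positivity)]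
        have h5 : (t * |sc f f' x| / 2) ^ 2 = sc f f' x ^ 2 * t ^ 2 / 4 := by
          rw [div_pow, mul_pow, sq_abs]; ring
        rw [h5] at h3
        nlinarith
      have h6 : Real.exp |θ * sc f f' x| ≤ Real.exp (t * |sc f f' x| / 2) := by
        refine Real.exp_le_exp.2 ?_
        rw [abs_mul]
        have := mul_le_mul_of_nonneg_right hθ (abs_nonneg (sc f f' x))
        linarith
      calc (θ * sc f f' x) ^ 2 * Real.exp |θ * sc f f' x|
          = θ ^ 2 * (sc f f' x ^ 2 * Real.exp |θ * sc f f' x|) := by ring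
        _ ≤ θ ^ 2 * ((8 / t ^ 2 * Real.exp (t * |sc f f' x| / 2)) * Real.exp (t * |sc f f' x| / 2)) := by
            refine mul_le_mul_of_nonneg_left ?_ (sq_nonneg _)
            exact mul_le_mul h4 h6 (Real.exp_pos _).le (by positivity)
        _ = θ ^ 2 * (8 / t ^ 2) * Real.exp (t * |sc f f' x|) := by
            rw [mul_assoc (8 / t ^ 2), ← Real.exp_add]
            ring_nf
    linarith
  have hj : Integrable (fun x => 1 + θ * sc f f' x + θ ^ 2 * (8 / t ^ 2) * Real.exp (t * |sc f f' x|)) μ :=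
    ((integrable_const _).add (h.int_sc.const_mul θ)).add (ht.const_mul _)
  calc ∫ x, Real.exp (θ * sc f f' x) ∂μ
      ≤ ∫ x, (1 + θ * sc f f' x + θ ^ 2 * (8 / t ^ 2) * Real.exp (t * |sc f f' x|)) ∂μ :=
        integral_mono hi hj key
    _ = 1 + 8 / t ^ 2 * I * θ ^ 2 := by
        have e1 : ∫ x, (1 + θ * sc f f' x + θ ^ 2 * (8 / t ^ 2) * Real.exp (t * |sc f f' x|)) ∂μ =
            ∫ x, (1 + θ * sc f f' x) ∂μ + ∫ x, θ ^ 2 * (8 / t ^ 2) * Real.exp (t * |sc f f' x|) ∂μ :=
          integral_add ((integrable_const (1 : ℝ)).add (h.int_sc.const_mul θ)) (ht.const_mul _)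
        have e2 : ∫ x, (1 + θ * sc f f' x) ∂μ = ∫ _x, (1 : ℝ) ∂μ + ∫ x, θ * sc f f' x ∂μ :=
          integral_add (integrable_const (1 : ℝ)) (h.int_sc.const_mul θ)
        rw [e1, e2, integral_const_mul, integral_const_mul, h.sc_mean]
        simp
        ring
    _ ≤ Real.exp (8 / t ^ 2 * I * θ ^ 2) := by
        have := Real.add_one_le_exp (8 / t ^ 2 * I * θ ^ 2)
        linarith

/-- The constants of the law: `K`, `θ0` with the local subgaussian bound. -/
def SG (μ : Measure ℝ) (s : ℝ → ℝ) (K θ0 : ℝ) : Prop :=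
  Measurable s ∧ 0 < K ∧ 0 < θ0 ∧ ∀ θ : ℝ, |θ| ≤ θ0 → Integrable (fun x => Real.exp (θ * s x)) μ ∧
    ∫ x, Real.exp (θ * s x) ∂μ ≤ Real.exp (K * θ ^ 2)

theorem DenLaw.sg (h : DenLaw μ f f') : ∃ K θ0 : ℝ, SG μ (sc f f') K θ0 := by
  obtain ⟨K, θ0, h1, h2, h3⟩ := h.mgf
  exact ⟨K, θ0, h.meas_sc, h1, h2, h3⟩

/-- The predictable score sum over the sites `S`. -/
def SS (s : ℝ → ℝ) (S : Finset Pt) (c : Pt → Env → ℝ) (η : Env) : ℝ := ∑ p ∈ S, c p η * s (η p)

/-- The coefficient `c p` does not see the sites of `S` in the rows `≥ p.1`. -/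
def Pred (S : Finset Pt) (c : Pt → Env → ℝ) : Prop :=
  ∀ p ∈ S, ∀ q ∈ S, p.1 ≤ q.1 → ∀ (η : Env) (x : ℝ), c p (Function.update η q x) = c p η

theorem SS_meas {s : ℝ → ℝ} (hs : Measurable s) {S : Finset Pt} {c : Pt → Env → ℝ}
    (hm : ∀ p ∈ S, Measurable (c p)) : Measurable (SS s S c) := by
  unfold SS
  exact Finset.measurable_sum _ fun p hp => (hm p hp).mul (hs.comp (measurable_pi_apply p))

/-- **The exponential supermartingale of the predictable score sums.** -/
theorem mgf_pred {s : ℝ → ℝ} {K θ0 : ℝ} (hs : SG μ s K θ0) {M θ : ℝ} (hM0 : 0 ≤ M) (hθ : |θ| * M ≤ θ0)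
    (S : Finset Pt) (c : Pt → Env → ℝ) (hm : ∀ p ∈ S, Measurable (c p)) (hc : Pred S c)
    (hM : ∀ p ∈ S, ∀ η, |c p η| ≤ M) :
    ∫⁻ η, ENNReal.ofReal (Real.exp (θ * SS s S c η - K * θ ^ 2 * ∑ p ∈ S, c p η ^ 2)) ∂(law μ) ≤ 1 := by
  induction S using Finset.induction_on_max_value (fun p : Pt => p.1) with
  | empty => simp [SS]
  | insert a S ha hmax ih =>
    have ih' := ih (fun p hp => hm p (Finset.mem_insert_of_mem hp))
      (fun p hp q hq h => hc p (Finset.mem_insert_of_mem hp) q (Finset.mem_insert_of_mem hq) h)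
      (fun p hp => hM p (Finset.mem_insert_of_mem hp))
    have hu := W_7d29a1_Z17.mp_upd (μ := μ) a
    set T : Env → ℝ := fun η => θ * SS s S c η - K * θ ^ 2 * ∑ p ∈ S, c p η ^ 2 with hT
    have hTm : Measurable T := by
      refine ((SS_meas hs.1 fun p hp => hm p (Finset.mem_insert_of_mem hp)).const_mul θ).sub ?_
      exact (Finset.measurable_sum _ fun p hp =>
        (hm p (Finset.mem_insert_of_mem hp)).pow_const 2).const_mul _
    have hTa : ∀ η x, T (Function.update η a x) = T η := fun η x => by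
      have h1 : ∀ p ∈ S, c p (Function.update η a x) = c p η := fun p hp =>
        hc p (Finset.mem_insert_of_mem hp) a (Finset.mem_insert_self _ _) (hmax p hp) η x
      have h2 : ∀ p ∈ S, Function.update η a x p = η p := fun p hp =>
        Function.update_of_ne (by rintro rfl; exact ha hp) _ _
      simp only [hT, SS]
      congr 1
      · congr 1
        exact Finset.sum_congr rfl fun p hp => by rw [h1 p hp, h2 p hp]
      · congr 1
        exact Finset.sum_congr rfl fun p hp => by rw [h1 p hp]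
    have hca : ∀ η x, c a (Function.update η a x) = c a η := fun η x =>
      hc a (Finset.mem_insert_self _ _) a (Finset.mem_insert_self _ _) le_rfl η x
    have hsplit : ∀ η, θ * SS s (insert a S) c η - K * θ ^ 2 * ∑ p ∈ insert a S, c p η ^ 2 =
        T η + (θ * c a η * s (η a) - K * (θ * c a η) ^ 2) := fun η => by
      simp only [hT, SS]
      rw [Finset.sum_insert ha, Finset.sum_insert ha]
      ring
    have hG : Measurable fun η : Env => ENNReal.ofReal (Real.exp (T η + (θ * c a η * s (η a) - K * (θ * c a η) ^ 2))) := by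
      have h1 : Measurable (c a) := hm a (Finset.mem_insert_self _ _)
      have h2 : Measurable fun η : Env => s (η a) := hs.1.comp (measurable_pi_apply a)
      exact ((hTm.add (((h1.const_mul θ).mul h2).sub (((h1.const_mul θ).pow_const 2).const_mul K))).exp).ennreal_ofReal
    calc ∫⁻ η, ENNReal.ofReal (Real.exp (θ * SS s (insert a S) c η -
          K * θ ^ 2 * ∑ p ∈ insert a S, c p η ^ 2)) ∂(law μ)
        = ∫⁻ η, ENNReal.ofReal (Real.exp (T η + (θ * c a η * s (η a) - K * (θ * c a η) ^ 2))) ∂(law μ) :=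
          lintegral_congr fun η => by rw [hsplit η]
      _ = ∫⁻ q : Env × ℝ, ENNReal.ofReal (Real.exp (T (Function.update q.1 a q.2) +
            (θ * c a (Function.update q.1 a q.2) * s (Function.update q.1 a q.2 a) -
              K * (θ * c a (Function.update q.1 a q.2)) ^ 2))) ∂((law μ).prod μ) :=
          (hu.lintegral_comp hG).symm
      _ = ∫⁻ q : Env × ℝ, ENNReal.ofReal (Real.exp (T q.1)) *
            ENNReal.ofReal (Real.exp (θ * c a q.1 * s q.2 - K * (θ * c a q.1) ^ 2)) ∂((law μ).prod μ) := by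
          refine lintegral_congr fun q => ?_
          rw [hTa, hca, Function.update_self, Real.exp_add, ENNReal.ofReal_mul (Real.exp_pos _).le]
      _ = ∫⁻ η, ∫⁻ x, ENNReal.ofReal (Real.exp (T η)) *
            ENNReal.ofReal (Real.exp (θ * c a η * s x - K * (θ * c a η) ^ 2)) ∂μ ∂(law μ) := by
          refine lintegral_prod _ (Measurable.aemeasurable ?_)
          have h1 : Measurable (c a) := hm a (Finset.mem_insert_self _ _)
          have h3 : Measurable fun q : Env × ℝ => T q.1 := hTm.comp measurable_fst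
          have h4 : Measurable fun q : Env × ℝ => θ * c a q.1 := (h1.comp measurable_fst).const_mul θ
          have h5 : Measurable fun q : Env × ℝ => s q.2 := hs.1.comp measurable_snd
          exact (h3.exp.ennreal_ofReal).mul (((h4.mul h5).sub ((h4.pow_const 2).const_mul K)).exp.ennreal_ofReal)
      _ ≤ ∫⁻ η, ENNReal.ofReal (Real.exp (T η)) ∂(law μ) := by
          refine lintegral_mono fun η => ?_
          rw [lintegral_const_mul _ (by
            exact (((hs.1.const_mul (θ * c a η)).sub_const _).exp).ennreal_ofReal)]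
          refine mul_le_of_le_one_right zero_le ?_
          have h1 : |θ * c a η| ≤ θ0 := by
            rw [abs_mul]
            exact (mul_le_mul_of_nonneg_left (hM a (Finset.mem_insert_self _ _) η) (abs_nonneg _)).trans hθ
          obtain ⟨h2, h3⟩ := hs.2.2.2 _ h1
          have h4 : ∀ x, Real.exp (θ * c a η * s x - K * (θ * c a η) ^ 2) =
              Real.exp (-(K * (θ * c a η) ^ 2)) * Real.exp (θ * c a η * s x) := fun x => by
            rw [← Real.exp_add]; ring_nf
          simp_rw [h4]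
          rw [← ofReal_integral_eq_lintegral_ofReal (h2.const_mul _) (ae_of_all _ fun x => by positivity),
            integral_const_mul, ← ENNReal.ofReal_one]
          refine ENNReal.ofReal_le_ofReal ?_
          calc Real.exp (-(K * (θ * c a η) ^ 2)) * ∫ x, Real.exp (θ * c a η * s x) ∂μ
              ≤ Real.exp (-(K * (θ * c a η) ^ 2)) * Real.exp (K * (θ * c a η) ^ 2) :=
                mul_le_mul_of_nonneg_left h3 (Real.exp_pos _).le
            _ = 1 := by rw [← Real.exp_add, neg_add_cancel, Real.exp_zero]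
      _ ≤ 1 := ih'

/-- The exponential moment of the absolute value. -/
theorem mgf_abs {s : ℝ → ℝ} {K θ0 : ℝ} (hs : SG μ s K θ0) {M t B : ℝ} (hM0 : 0 ≤ M) (ht : 0 ≤ t) (htM : t * M ≤ θ0)
    (S : Finset Pt) (c : Pt → Env → ℝ) (hm : ∀ p ∈ S, Measurable (c p)) (hc : Pred S c)
    (hM : ∀ p ∈ S, ∀ η, |c p η| ≤ M) (hB : ∀ η, ∑ p ∈ S, c p η ^ 2 ≤ B) :
    ∫⁻ η, ENNReal.ofReal (Real.exp (t * |SS s S c η|)) ∂(law μ) ≤ ENNReal.ofReal (2 * Real.exp (K * t ^ 2 * B)) := by
  have hK : 0 < K := hs.2.1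
  have key : ∀ θ : ℝ, |θ| = t → ∫⁻ η, ENNReal.ofReal (Real.exp (θ * SS s S c η)) ∂(law μ) ≤
      ENNReal.ofReal (Real.exp (K * t ^ 2 * B)) := fun θ hθ => by
    have h1 := mgf_pred hs hM0 (θ := θ) (by rw [hθ]; exact htM) S c hm hc hM
    have h2 : ∀ η, ENNReal.ofReal (Real.exp (θ * SS s S c η)) ≤ ENNReal.ofReal (Real.exp (K * t ^ 2 * B)) *
        ENNReal.ofReal (Real.exp (θ * SS s S c η - K * θ ^ 2 * ∑ p ∈ S, c p η ^ 2)) := fun η => by
      rw [← ENNReal.ofReal_mul (Real.exp_pos _).le, ← Real.exp_add]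
      refine ENNReal.ofReal_le_ofReal (Real.exp_le_exp.2 ?_)
      have h3 : θ ^ 2 = t ^ 2 := by rw [← hθ, sq_abs]
      rw [h3]
      have := mul_le_mul_of_nonneg_left (hB η) (by positivity : 0 ≤ K * t ^ 2)
      linarith
    calc ∫⁻ η, ENNReal.ofReal (Real.exp (θ * SS s S c η)) ∂(law μ)
        ≤ ∫⁻ η, ENNReal.ofReal (Real.exp (K * t ^ 2 * B)) *
            ENNReal.ofReal (Real.exp (θ * SS s S c η - K * θ ^ 2 * ∑ p ∈ S, c p η ^ 2)) ∂(law μ) :=
          lintegral_mono h2
      _ = ENNReal.ofReal (Real.exp (K * t ^ 2 * B)) *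
            ∫⁻ η, ENNReal.ofReal (Real.exp (θ * SS s S c η - K * θ ^ 2 * ∑ p ∈ S, c p η ^ 2)) ∂(law μ) :=
          lintegral_const_mul' _ _ ENNReal.ofReal_ne_top
      _ ≤ ENNReal.ofReal (Real.exp (K * t ^ 2 * B)) * 1 := by gcongr
      _ = _ := mul_one _
  have hmS := SS_meas hs.1 hm
  calc ∫⁻ η, ENNReal.ofReal (Real.exp (t * |SS s S c η|)) ∂(law μ)
      ≤ ∫⁻ η, (ENNReal.ofReal (Real.exp (t * SS s S c η)) + ENNReal.ofReal (Real.exp (-t * SS s S c η))) ∂(law μ) := by
        refine lintegral_mono fun η => ?_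
        rcases le_or_gt 0 (SS s S c η) with h | h
        · rw [abs_of_nonneg h]
          exact le_self_add
        · rw [abs_of_neg h, mul_neg, ← neg_mul]
          exact le_add_self
    _ = ∫⁻ η, ENNReal.ofReal (Real.exp (t * SS s S c η)) ∂(law μ) +
          ∫⁻ η, ENNReal.ofReal (Real.exp (-t * SS s S c η)) ∂(law μ) :=
        lintegral_add_left ((hmS.const_mul t).exp.ennreal_ofReal) _
    _ ≤ ENNReal.ofReal (Real.exp (K * t ^ 2 * B)) + ENNReal.ofReal (Real.exp (K * t ^ 2 * B)) :=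
        add_le_add (key t (abs_of_nonneg ht)) (key (-t) (by rw [abs_neg, abs_of_nonneg ht]))
    _ = ENNReal.ofReal (2 * Real.exp (K * t ^ 2 * B)) := by
        rw [two_mul, ENNReal.ofReal_add (Real.exp_pos _).le (Real.exp_pos _).le]

/-- **All moments of the predictable score sums**: `t` is free with `t M ≤ θ0`; the choice `t ≈ B ^ (-1/2)` gives the size
`B ^ (1/2)`. -/
theorem moment {s : ℝ → ℝ} {K θ0 : ℝ} (hs : SG μ s K θ0) {M t B : ℝ} (hM0 : 0 ≤ M) (ht : 0 < t) (htM : t * M ≤ θ0)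
    (S : Finset Pt) (c : Pt → Env → ℝ) (hm : ∀ p ∈ S, Measurable (c p)) (hc : Pred S c)
    (hM : ∀ p ∈ S, ∀ η, |c p η| ≤ M) (hB : ∀ η, ∑ p ∈ S, c p η ^ 2 ≤ B) (q : ℕ) :
    Integrable (fun η => |SS s S c η| ^ q) (law μ) ∧
      ∫ η, |SS s S c η| ^ q ∂(law μ) ≤ q.factorial / t ^ q * (2 * Real.exp (K * t ^ 2 * B)) := by
  have h1 := mgf_abs hs hM0 ht.le htM S c hm hc hM hB
  have hmS := SS_meas hs.1 hm
  have habs : Measurable fun η => |SS s S c η| := by
    have := hmS.norm
    simpa [Real.norm_eq_abs] using this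
  have hI : Integrable (fun η => Real.exp (t * |SS s S c η|)) (law μ) := by
    refine ⟨(habs.const_mul t).exp.aestronglyMeasurable, ?_⟩
    rw [hasFiniteIntegral_iff_ofReal (ae_of_all _ fun η => (Real.exp_pos _).le)]
    exact h1.trans_lt ENNReal.ofReal_lt_top
  have hI2 : ∫ η, Real.exp (t * |SS s S c η|) ∂(law μ) ≤ 2 * Real.exp (K * t ^ 2 * B) := by
    rw [← ofReal_integral_eq_lintegral_ofReal hI (ae_of_all _ fun η => (Real.exp_pos _).le)] at h1
    exact (ENNReal.ofReal_le_ofReal_iff (by positivity)).1 h1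
  have hp : ∀ η, |SS s S c η| ^ q ≤ q.factorial / t ^ q * Real.exp (t * |SS s S c η|) := fun η => by
    have h2 := Real.pow_div_factorial_le_exp (t * |SS s S c η|) (by positivity) q
    have h3 : (0 : ℝ) < q.factorial := by exact_mod_cast q.factorial_pos
    rw [mul_pow, div_le_iff₀ h3] at h2
    rw [div_mul_eq_mul_div, le_div_iff₀ (by positivity)]
    linarith
  have hJ : Integrable (fun η => |SS s S c η| ^ q) (law μ) := by
    refine (hI.const_mul (q.factorial / t ^ q)).mono' (habs.pow_const q).aestronglyMeasurable (ae_of_all _ fun η => ?_)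
    rw [Real.norm_eq_abs, abs_of_nonneg (by positivity)]
    exact hp η
  refine ⟨hJ, ?_⟩
  calc ∫ η, |SS s S c η| ^ q ∂(law μ) ≤ ∫ η, q.factorial / t ^ q * Real.exp (t * |SS s S c η|) ∂(law μ) :=
        integral_mono hJ (hI.const_mul _) hp
    _ = q.factorial / t ^ q * ∫ η, Real.exp (t * |SS s S c η|) ∂(law μ) := integral_const_mul _ _
    _ ≤ _ := mul_le_mul_of_nonneg_left hI2 (by positivity)

/-- **Integration by parts over a slab** `S`: the coefficients `c p` do not see their own site. -/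
theorem DenLaw.ibp_slab (h : DenLaw μ f f') (S : Finset Pt) {c : Pt → Env → ℝ} {Φ : Env → ℝ} {Φ' : Pt → Env → ℝ}
    (hc : ∀ p ∈ S, ∀ η x, c p (Function.update η p x) = c p η)
    (hΦ : ∀ p ∈ S, ∀ (η : Env) (x : ℝ), HasDerivAt (fun t => Φ (Function.update η p t)) (Φ' p (Function.update η p x)) x)
    (i0 : ∀ p ∈ S, Integrable (fun η => c p η * Φ η) (law μ)) (i1 : ∀ p ∈ S, Integrable (fun η => c p η * Φ' p η) (law μ))
    (i2 : ∀ p ∈ S, Integrable (fun η => c p η * Φ η * sc f f' (η p)) (law μ)) :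
    ∫ η, ∑ p ∈ S, c p η * Φ' p η ∂(law μ) = ∫ η, Φ η * SS (sc f f') S c η ∂(law μ) := by
  rw [integral_finsetSum _ i1]
  have e1 : (fun η => Φ η * SS (sc f f') S c η) = fun η => ∑ p ∈ S, c p η * Φ η * sc f f' (η p) := by
    funext η
    unfold SS
    rw [Finset.mul_sum]
    exact Finset.sum_congr rfl fun p _ => by ring
  rw [e1, integral_finsetSum _ i2]
  exact Finset.sum_congr rfl fun p hp => h.ibp_site p (hc p hp) (hΦ p hp) (i0 p hp) (i1 p hp) (i2 p hp)

/-- **Gaussian disorder** is in the class. -/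
theorem den_gaussian {v : NNReal} (hv : v ≠ 0) : DenLaw (gaussianReal 0 v) (gaussianPDFReal 0 v)
    (fun x => -(x / v) * gaussianPDFReal 0 v x) := by
  have hv' : (0 : ℝ) < v := by
    rw [NNReal.coe_pos]
    exact pos_iff_ne_zero.2 hv
  refine ⟨fun x => gaussianPDFReal_nonneg 0 v x, fun x => ?_, ?_, 1, one_pos, ?_⟩
  · unfold gaussianPDFReal
    have h1 : HasDerivAt (fun x : ℝ => -(x - 0) ^ 2 / (2 * (v : ℝ))) (-(x / v)) x := by
      have h2 := (((hasDerivAt_id x).sub_const 0).pow 2).neg.div_const (2 * (v : ℝ))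
      have h4 : -((2 : ℕ) * (id x - 0) ^ (2 - 1) * 1) / (2 * (v : ℝ)) = -(x / v) := by
        simp only [id, sub_zero]
        field_simp
        norm_num
      rw [← h4]
      exact h2
    have h3 := (h1.exp).const_mul (Real.sqrt (2 * Real.pi * v))⁻¹
    have h5 : (Real.sqrt (2 * Real.pi * v))⁻¹ * (Real.exp (-(x - 0) ^ 2 / (2 * (v : ℝ))) * -(x / v)) =
        -(x / v) * ((Real.sqrt (2 * Real.pi * v))⁻¹ * Real.exp (-(x - 0) ^ 2 / (2 * (v : ℝ)))) := by ring
    rw [h5] at h3
    exact h3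
  · rw [gaussianReal_of_var_ne_zero 0 hv]
    rfl
  · have hpos : ∀ x, gaussianPDFReal 0 v x ≠ 0 := fun x => (gaussianPDFReal_pos 0 v x hv).ne'
    have e1 : (fun x => Real.exp (1 * |-(x / (v : ℝ)) * gaussianPDFReal 0 v x / gaussianPDFReal 0 v x|)) =
        fun x => Real.exp (|x| / v) := by
      funext x
      rw [mul_div_assoc, div_self (hpos x), mul_one, one_mul, abs_neg, abs_div, abs_of_pos hv']
    rw [e1]
    have i1 : Integrable (fun x => Real.exp ((1 / (v : ℝ)) * x)) (gaussianReal 0 v) := integrable_exp_mul_gaussianReal _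
    have i2 : Integrable (fun x => Real.exp ((-(1 / (v : ℝ))) * x)) (gaussianReal 0 v) := integrable_exp_mul_gaussianReal _
    refine (i1.add i2).mono' (by fun_prop) (ae_of_all _ fun x => ?_)
    rw [Real.norm_eq_abs, abs_of_pos (Real.exp_pos _)]
    show Real.exp (|x| / v) ≤ Real.exp ((1 / (v : ℝ)) * x) + Real.exp ((-(1 / (v : ℝ))) * x)
    rcases le_or_gt 0 x with h | h
    · rw [abs_of_nonneg h]
      have : x / (v : ℝ) = 1 / v * x := by ring
      rw [this]
      linarith [Real.exp_pos ((-(1 / (v : ℝ))) * x)]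
    · rw [abs_of_neg h]
      have : -x / (v : ℝ) = -(1 / v) * x := by ring
      rw [this]
      linarith [Real.exp_pos ((1 / (v : ℝ)) * x)]

end

end Pool.Agent.W_7d29a1_C0.H32
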