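import Pool.Agent.W_7d29a1_C0.GSEnd96
import Pool.Agent.W_7d29a1_C0.Lft33

/-!
STORM C0 (helper96): GS AT THE CONCRETE FRAME. `frk33`: the frame `frm33` has the length `(2 ^ m) ^ K` and its ends are in the cone;
`sigL96`: `SigL33` from the kick `KbL96` and the prices `Wpr96` of the margins.
-/

set_option autoImplicit false

namespace Pool.Agent.W_7d29a1_C0.Asm96

open Finset MeasureTheory Filter Topology
open Pool.Agent.W_7d29a1_H (EE)
open Pool.Agent.W_7d29a1_HS (In)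
open Pool.Agent.W_7d29a1_C0 Pool.Agent.W_7d29a1_C0.Frm33
open Pool.Agent.W_7d29a1_C0.Par92 (Sml Est)

noncomputable section

variable {μ : Measure ℝ} {s : ℝ} {K : ℕ} {Θ : ℝ}

/-- The concrete frame. -/
theorem frk33 [IsProbabilityMeasure μ] {c C : ℝ} {n₀ : ℕ} (h : In μ s c C n₀) (hK : 32 ≤ K) (ι β γ : ℝ) :
    Frk96 μ s K (frm33 μ s K ι β γ) where
  hL m := by
    show 2 ^ (K * m) = (2 ^ m) ^ K
    rw [← pow_mul, mul_comm]
  hy d hd := by
    filter_upwards [cone33 h hK hd] with m hm y hy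
    have h1 := mem_Ico.1 (show y ∈ Ico (y33 μ s K m) (y33 μ s K m + M33 m) from hy)
    exact hm.2.2 y (by omega) (by omega)

/-- **The kick**, at the concrete frame. -/
def KbL96 (μ : Measure ℝ) (s : ℝ) (K : ℕ) (Θ : ℝ) : Prop := Sml fun δ => Sml fun c => ∀ η : ℝ, 0 < η → η ≤ c / 64 → ∃ C : ℝ,
  Est fun ι β γ m => KbN μ s (frm33 μ s K ι β γ) (EE μ s) Θ δ c η (C * ι) m

/-- **The change of the corrected scale at the concrete frame.** -/
theorem sigL96 [IsProbabilityMeasure μ] {c₁ C : ℝ} {n₀ : ℕ} (h : In μ s c₁ C n₀) (hk : KapLe96 (EE μ s) (1 / 4)) (hK : 32 ≤ K)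
    (hΘ : 0 < Θ) (hΘ1 : Θ ≤ 1) {c₀ : ℝ} (hR : RegP46 μ s c₀ Θ) (hW : Wpr96 μ s) (hKb : KbL96 μ s K Θ) : SigL33 μ s K Θ := by
  refine Sml.mono (hKb.and (Sml.of (P := fun δ => 0 < δ) fun _ h => h)) fun δ _ hδ => ?_
  obtain ⟨h1, hδ⟩ := hδ
  refine Sml.mono (h1.and (Sml.le (show 0 < min (δ / 64) Θ by positivity))) fun c hc h2 η hη hηc => ?_
  obtain ⟨h3, h4⟩ := h2
  obtain ⟨C, h5⟩ := h3 η hη hηc
  have h6 : c ≤ δ / 64 := h4.trans (min_le_left _ _)
  have h7 : c ≤ Θ := h4.trans (min_le_right _ _)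
  exact ⟨c / 64, by positivity, sigE96 (by omega) (frk33 h hK) (fun ι β γ m => Finset.Subset.refl _) hR hδ hc (by linarith) h7 hΘ1
    hη.le (ok33 (by omega) hΘ) (deep33 h hk hδ hc.le h6) hW h5⟩

end

end Pool.Agent.W_7d29a1_C0.Asm96
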