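import Pool.Agent.W_7d29a1_C0.Site15L

/-!
MP_7d29a1_pr, [C0], helper15: the instances `siteR`, `siteL` of `site_coreR`, `site_coreL`: own = the conditional replica of ANY block
`[c j, d j)` around `[j - 2 b, j + 2 b]` misses the base path near one end of the window of `j` and meets it in `[j - 2 b, j + 2 b]`.
-/

set_option autoImplicit false

namespace Pool.Agent.W_7d29a1_C0.P15

open MeasureTheory ProbabilityTheory Filter Topology Finset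
open Pool.Agent.W_7d29a1_F Pool.Agent.W_7d29a1_X Pool.Agent.W_7d29a1_h4g Pool.Agent.W_7d29a1_H
open Pool.Agent.W_7d29a1_HS (In wd md)
open Pool.Agent.W_7d29a1_HZ Pool.Agent.W_7d29a1_HZ.R72 Pool.Agent.W_7d29a1_Z.Asm72
open Pool.Agent.W_7d29a1_HZ.Z86
open Pool.Agent.W_7d29a1_C0.P86
open Pool.Agent.W_7d29a1_C0.P3 (Hy hy_ms hy_off hy_mono hy_mono_x)
open scoped ENNReal

variable {μ : Measure ℝ} {s : ℝ} [IsProbabilityMeasure μ] {c₀ C₀ : ℝ} {n₀ : ℕ}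

/-- **THE DOUBLE TIE AT THE RIGHT END**, both ties as masses: micro given the ends of the window, own given the path outside of any block. -/
theorem siteR (h : In μ s c₀ C₀ n₀) : ∀ ε θ : ℝ, 0 < ε → 0 < θ → ∃ δ κ c₂ : ℝ, 0 < δ ∧ 0 < κ ∧ 0 < c₂ ∧ ∃ L₀ : ℕ, ∀ L : ℕ, L₀ ≤ L →
    ∀ N : ℕ, L ≤ 16 * N → N ≤ L → ∀ y : ℕ, y ≤ N → |(y : ℝ) - sl μ s * N| ≤ ((L : ℝ) ^ δ * wd' μ s N) →
    ∀ b l hi : ℕ, (L : ℝ) ^ θ ≤ b → (L : ℝ) ^ θ ≤ l → hi ≤ N → ∀ JJ : Finset ℕ, (∀ j ∈ JJ, hi < j + b + b / 64 ∧ j + b ≤ hi) →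
    ∀ u v c d : ℕ → ℕ, (∀ j ∈ JJ, j ≤ u j + b ∧ v j ≤ j + b / 2 ∧ u j + l ≤ v j) →
    (∀ j ∈ JJ, c j + 2 * b ≤ j ∧ j + 2 * b ≤ d j ∧ d j ≤ N) → ∀ x : ℝ, x ≤ (L : ℝ) ^ κ →
    ∀ F : Env → Finset ℕ → Prop, Ms F → OffRows (Ioc (hi - 3 * b) (hi + b)) F →
    ∑ j ∈ JJ, P1 μ s N y (fun η S => F η S ∧ Hy μ s N y (j - b) (j + b) (NoMeet (u j) (v j)) x η S ∧
        Hy μ s N y (c j) (d j) (OwnR (j + b) b) x η S) ≤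
      ENNReal.ofReal ((L : ℝ) ^ ε * ((b * (EE' μ s b)⁻¹ + JJ.card * (EE' μ s l)⁻¹) * (EE' μ s b)⁻¹)) * P1 μ s N y F +
        ENNReal.ofReal (Real.exp (-(L : ℝ) ^ c₂)) := by
  intro ε θ hε hθ
  obtain ⟨ε', θ', hε', hθ', -, hC⟩ := site_coreR h ε θ hε hθ
  obtain ⟨δ₁, κ₁, c₁, hδ₁, hκ₁, hc₁, L₁, hOwn⟩ := own_near h ε' θ' hε' hθ'
  obtain ⟨δ₂, κ₂, c₂, hδ₂, hκ₂, hc₂, L₂, hP⟩ := hC c₁ hc₁
  refine ⟨min δ₁ δ₂, min κ₁ κ₂, c₂, lt_min hδ₁ hδ₂, lt_min hκ₁ hκ₂, hc₂, L₁ + L₂ + 1, ?_⟩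
  intro L hL N hLN hNL y hyN hyc b l hi hbL hlL hiN JJ hJJ u v c d huv hcd x hx F hF hoff
  have hLR : (1 : ℝ) ≤ L := by exact_mod_cast (show 1 ≤ L by omega)
  have hwd : ∀ n, 0 < wd' μ s n := fun n => lt_of_lt_of_le zero_lt_one (le_max_left _ _)
  have hcone : ∀ δ', min δ₁ δ₂ ≤ δ' → |(y : ℝ) - sl μ s * N| ≤ ((L : ℝ) ^ δ' * wd' μ s N) := fun δ' hδ' =>
    hyc.trans (mul_le_mul_of_nonneg_right (Real.rpow_le_rpow_of_exponent_le hLR hδ') (hwd N).le)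
  have hx' : ∀ κ', min κ₁ κ₂ ≤ κ' → x ≤ (L : ℝ) ^ κ' := fun κ' hκ' => hx.trans (Real.rpow_le_rpow_of_exponent_le hLR hκ')
  refine hP L (by omega) N hLN hNL y hyN (hcone _ (min_le_right _ _)) b l hi b hbL hlL hiN JJ
    (fun j hj => ⟨by have := hcd j hj; omega, (hJJ j hj).1, (hJJ j hj).2⟩) u v huv
    (fun j => Hy μ s N y (c j) (d j) (OwnR (j + b) b) x) (fun j hj T hT hTb G hG hGo => ?_) x (hx' _ (min_le_right _ _)) F hF hoff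
  obtain ⟨h1, h2, h3⟩ := hcd j hj
  have h4 := hJJ j hj
  exact hOwn L (by omega) N hLN hNL y hyN (hcone _ (min_le_left _ _)) T b (j + b) (c j) (d j) hT hTb (by omega) (by omega) h3 x
    (hx' _ (min_le_left _ _)) G hG (Pool.Agent.W_7d29a1_HZ.ZE.OffRows.mono36 (fun k hk => by
      rw [mem_Ioc] at hk ⊢
      omega) hGo)

/-- **THE DOUBLE TIE AT THE LEFT END**, both ties as masses. -/
theorem siteL (h : In μ s c₀ C₀ n₀) : ∀ ε θ : ℝ, 0 < ε → 0 < θ → ∃ δ κ c₂ : ℝ, 0 < δ ∧ 0 < κ ∧ 0 < c₂ ∧ ∃ L₀ : ℕ, ∀ L : ℕ, L₀ ≤ L →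
    ∀ N : ℕ, L ≤ 16 * N → N ≤ L → ∀ y : ℕ, y ≤ N → |(y : ℝ) - sl μ s * N| ≤ ((L : ℝ) ^ δ * wd' μ s N) →
    ∀ b l lo : ℕ, (L : ℝ) ^ θ ≤ b → (L : ℝ) ^ θ ≤ l → ∀ JJ : Finset ℕ, (∀ j ∈ JJ, lo + b ≤ j ∧ j < lo + b + b / 64) →
    ∀ u v c d : ℕ → ℕ, (∀ j ∈ JJ, j ≤ u j + b / 2 ∧ v j ≤ j + b ∧ u j + l ≤ v j) →
    (∀ j ∈ JJ, c j + 2 * b ≤ j ∧ j + 2 * b ≤ d j ∧ d j ≤ N) → ∀ x : ℝ, x ≤ (L : ℝ) ^ κ →
    ∀ F : Env → Finset ℕ → Prop, Ms F → OffRows (Ico (lo - b) (lo + 3 * b)) F →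
    ∑ j ∈ JJ, P1 μ s N y (fun η S => F η S ∧ Hy μ s N y (j - b) (j + b) (NoMeet (u j) (v j)) x η S ∧
        Hy μ s N y (c j) (d j) (OwnL (j - b) b) x η S) ≤
      ENNReal.ofReal ((L : ℝ) ^ ε * ((b * (EE' μ s b)⁻¹ + JJ.card * (EE' μ s l)⁻¹) * (EE' μ s b)⁻¹)) * P1 μ s N y F +
        ENNReal.ofReal (Real.exp (-(L : ℝ) ^ c₂)) := by
  intro ε θ hε hθ
  obtain ⟨ε', θ', hε', hθ', -, hC⟩ := site_coreL h ε θ hε hθ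
  obtain ⟨δ₁, κ₁, c₁, hδ₁, hκ₁, hc₁, L₁, hOwn⟩ := own_nearL h ε' θ' hε' hθ'
  obtain ⟨δ₂, κ₂, c₂, hδ₂, hκ₂, hc₂, L₂, hP⟩ := hC c₁ hc₁
  refine ⟨min δ₁ δ₂, min κ₁ κ₂, c₂, lt_min hδ₁ hδ₂, lt_min hκ₁ hκ₂, hc₂, L₁ + L₂ + 1, ?_⟩
  intro L hL N hLN hNL y hyN hyc b l lo hbL hlL JJ hJJ u v c d huv hcd x hx F hF hoff
  have hLR : (1 : ℝ) ≤ L := by exact_mod_cast (show 1 ≤ L by omega)
  have hwd : ∀ n, 0 < wd' μ s n := fun n => lt_of_lt_of_le zero_lt_one (le_max_left _ _)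
  have hcone : ∀ δ', min δ₁ δ₂ ≤ δ' → |(y : ℝ) - sl μ s * N| ≤ ((L : ℝ) ^ δ' * wd' μ s N) := fun δ' hδ' =>
    hyc.trans (mul_le_mul_of_nonneg_right (Real.rpow_le_rpow_of_exponent_le hLR hδ') (hwd N).le)
  have hx' : ∀ κ', min κ₁ κ₂ ≤ κ' → x ≤ (L : ℝ) ^ κ' := fun κ' hκ' => hx.trans (Real.rpow_le_rpow_of_exponent_le hLR hκ')
  refine hP L (by omega) N hLN hNL y hyN (hcone _ (min_le_right _ _)) b l lo b hbL hlL JJ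
    (fun j hj => ⟨(hJJ j hj).1, (hJJ j hj).2, by have := hcd j hj; omega⟩) u v huv
    (fun j => Hy μ s N y (c j) (d j) (OwnL (j - b) b) x) (fun j hj T hT hTb G hG hGo => ?_) x (hx' _ (min_le_right _ _)) F hF hoff
  obtain ⟨h1, h2, h3⟩ := hcd j hj
  have h4 := hJJ j hj
  exact hOwn L (by omega) N hLN hNL y hyN (hcone _ (min_le_left _ _)) T b (j - b) (c j) (d j) hT hTb (by omega) (by omega) h3 x
    (hx' _ (min_le_left _ _)) G hG (Pool.Agent.W_7d29a1_HZ.ZE.OffRows.mono36 (fun k hk => by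
      rw [mem_Ico] at hk ⊢
      omega) hGo)

end Pool.Agent.W_7d29a1_C0.P15
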