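import Pool.Agent.W_7d29a1_C0.OwnR80
import Pool.Agent.W_7d29a1_C0.Site15
import Pool.Agent.W_7d29a1_C0.Wp23

/-!
C0, helper80: THE SITE PRICE WITH ROBUST EVENTS, WEIGHTED FORM, over the site theorem of helper15 (`site_coreR`) and the own events `OwR`:
rows of one stretch, micro tie and own tie, each the robust event `Tau` or a mass which is not very small (`TK`), the replicas without any
meeting in `[j - 11 b, j + 11 b]` excluded (`Lg`); the weight does not see the rows `(hi - 3 b, hi + 2 b]`.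
-/

set_option autoImplicit false

namespace Pool.Agent.W_7d29a1_C0.Own80

open MeasureTheory ProbabilityTheory Filter Topology Finset
open Pool.Agent.W_7d29a1_F Pool.Agent.W_7d29a1_X Pool.Agent.W_7d29a1_h4g Pool.Agent.W_7d29a1_H
open Pool.Agent.W_7d29a1_HS (In wd md)
open Pool.Agent.W_7d29a1_HZ Pool.Agent.W_7d29a1_HZ.R72 Pool.Agent.W_7d29a1_Z.Asm72
open Pool.Agent.W_7d29a1_HZ.Z86
open Pool.Agent.W_7d29a1_C0.P86
open Pool.Agent.W_7d29a1_C0.P3 (Hy hy_ms hy_off er amp amp_ex)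
open Pool.Agent.W_7d29a1_C0.P15 (site_coreR tiny15)
open Pool.W7d29a1.C0.R43 (st)
open Pool.Agent.W_7d29a1_C0.Wp23 (WPs WPs.mono WPs.sum wps_of_ev)
open scoped ENNReal

variable {μ : Measure ℝ} {s : ℝ} {N : ℕ}

/-- The robust event (`T`) or the mass. -/
def TK (μ : Measure ℝ) (s : ℝ) (N : ℕ) (T : Prop) (y c d u v : ℕ) (M : ℝ) (η : Env) (S : Finset ℕ) : Prop :=
  (T ∧ TauS μ s N y c d u v M η S) ∨ (¬ T ∧ Hy μ s N y c d (NoMeet u v) (7 * M) η S)

theorem ind_mono80 {A B : Prop} (h : A → B) : ind A ≤ ind B := by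
  by_cases g : A
  · rw [ind_of g, ind_of (h g)]
  · rw [ind_not g]
    exact zero_le

theorem ind_and80 (A B : Prop) : ind (A ∧ B) = ind A * ind B := by
  by_cases g : A
  · by_cases g' : B
    · rw [ind_of g, ind_of g', ind_of (show A ∧ B from ⟨g, g'⟩), mul_one]
    · rw [ind_not g', ind_not (show ¬ (A ∧ B) from fun h => g' h.2), mul_zero]
  · rw [ind_not g, ind_not (show ¬ (A ∧ B) from fun h => g h.1), zero_mul]

variable [IsProbabilityMeasure μ] {c₀ C₀ : ℝ} {n₀ : ℕ}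

/-- `TK` may be replaced by the pieces. -/
theorem tk_Q1 {T : Prop} {y c d u v l q : ℕ} (hy : y ≤ N) (hcd : c ≤ d) {M : ℝ} (hM : 8 ≤ M) (hq : 10 * M ≤ q) (hq' : (q : ℝ) ≤ 20 * M)
    (hq1 : 1 ≤ q) (huv : u + 3 * q * (l + 1) ≤ v) {f : Env → Finset ℕ → ℝ≥0∞} (hf : ∀ η S, f η S ≤ 1) :
    Q1 μ s N y (fun η S => f η S * ind (TK μ s N T y c d u v M η S)) ≤
      Q1 μ s N y (fun η S => f η S * ind (RpS μ s N y c d u l q M η S)) + ENNReal.ofReal (Real.exp (-M)) := by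
  by_cases hT : T
  · refine le_trans (le_of_eq ?_) (tau_Q1 hy hcd u l q hM hq hq' huv hf)
    congr 1
    funext η S
    congr 1
    have e : TK μ s N T y c d u v M η S ↔ TauS μ s N y c d u v M η S := ⟨fun h => h.elim (fun g => g.2) fun g => absurd hT g.1, fun h => Or.inl ⟨hT, h⟩⟩
    exact le_antisymm (ind_mono80 e.1) (ind_mono80 e.2)
  · refine le_trans (Q1_mono fun η S _ _ => mul_le_mul' le_rfl (ind_mono80 fun h => ?_)) le_self_add
    rcases h with h | h
    · exact absurd h.1 hT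
    · refine ⟨0, by omega, lt_of_lt_of_le h.2 (mc_mono (fun S S' _ _ _ _ _ h5 => ?_) η S)⟩
      have e0 : st u l 0 = u := by
        unfold st
        omega
      rw [e0]
      have h6 : 1 * (l + 1) ≤ 3 * q * (l + 1) := Nat.mul_le_mul_right _ (by omega)
      exact fun k hk1 hk2 => h5 k hk1 (by omega)

/-- `TK` without long loops gives the own event. -/
theorem tk_all {To : Prop} {y c d a e j q b T₀ : ℕ} (hy : y ≤ N) (hcd : c ≤ d) {M : ℝ} (hM : 8 ≤ M) (hq : 10 * M ≤ q)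
    (hq' : (q : ℝ) ≤ 20 * M) (hq1 : 1 ≤ q) {U : ℕ → ℕ} (hU : ∀ T, T₀ ≤ T → 4 * T ≤ b → a ≤ U T ∧ U T + 3 * q * (lT T q + 1) ≤ e)
    {f : Env → Finset ℕ → ℝ≥0∞} (hf : ∀ η S, f η S ≤ 1) :
    Q1 μ s N y (fun η S => f η S * ind (TK μ s N To y c d a e M η S ∧ ¬ Lg μ s N y c d j b (8 * M) η S)) ≤
      Q1 μ s N y (fun η S => f η S * ind (∀ T, T₀ ≤ T → 4 * T ≤ b → ∃ n < 3 * q,
        Hy μ s N y c d (OwnP (st (U T) (lT T q) n) (lT T q) j b) (8 * M) η S)) + (b + 1 : ℕ) * ENNReal.ofReal (Real.exp (-M)) := by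
  by_cases hT : To
  · refine le_trans (Q1_mono fun η S _ _ => mul_le_mul' le_rfl (ind_mono80 fun h => ⟨?_, h.2⟩)) (tau_all hy hcd hM hq hq' hU hf)
    exact h.1.elim (fun g => g.2) fun g => absurd hT g.1
  · refine le_trans (Q1_mono fun η S _ _ => mul_le_mul' le_rfl (ind_mono80 fun h => ?_)) le_self_add
    rcases h with ⟨h | h, h'⟩
    · exact absurd h.1 hT
    · refine mass_all hM hq1 (fun T h1 h2 => ?_) h.2 h'
      obtain ⟨g1, g2⟩ := hU T h1 h2
      have h6 : 1 * (lT T q + 1) ≤ 3 * q * (lT T q + 1) := Nat.mul_le_mul_right _ (by omega)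
      exact ⟨g1, by omega⟩

/-- The own event of a family of windows. -/
def All80 (μ : Measure ℝ) (s : ℝ) (N y c d j b q T₀ : ℕ) (x : ℝ) (U : ℕ → ℕ) (η : Env) (S : Finset ℕ) : Prop :=
  ∀ T, T₀ ≤ T → 4 * T ≤ b → ∃ n < 3 * q, Hy μ s N y c d (OwnP (st (U T) (lT T q) n) (lT T q) j b) x η S

/-- **From the events of the pieces to the robust events, weighted.** -/
theorem wps_core {y q b T₀ : ℕ} (hy : y ≤ N) {M : ℝ} (hM : 8 ≤ M) (hq : 10 * M ≤ q) (hq' : (q : ℝ) ≤ 20 * M) (hq1 : 1 ≤ q)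
    {JJ J : Finset ℕ} {Tm To : Prop} {u v c d a e : ℕ → ℕ} {l' : ℕ} (hcd : ∀ j ∈ JJ, c j ≤ d j)
    (huv : ∀ j ∈ JJ, u j + 3 * q * (l' + 1) ≤ v j) {U : ℕ → ℕ → ℕ}
    (hU : ∀ j ∈ JJ, ∀ T, T₀ ≤ T → 4 * T ≤ b → a j ≤ U j T ∧ U j T + 3 * q * (lT T q + 1) ≤ e j) {r p : ℝ≥0∞}
    (hs : ∀ n < 3 * q, ∀ F : Env → Finset ℕ → Prop, Ms F → OffRows J F → ∑ j ∈ JJ, P1 μ s N y (fun η S => F η S ∧
      (Hy μ s N y (j - b) (j + b) (NoMeet (st (u j) l' n) (st (u j) l' n + l')) (7 * M) η S ∧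
        All80 μ s N y (c j) (d j) j b q T₀ (8 * M) (U j) η S)) ≤ r * P1 μ s N y F + p) :
    WPs μ s N y ((3 * q : ℕ) * r) ((3 * q : ℕ) * p + JJ.card * ((b + 2 : ℕ) * ENNReal.ofReal (Real.exp (-M)))) JJ
      (fun j η S => ind (TK μ s N Tm y (j - b) (j + b) (u j) (v j) M η S ∧ TK μ s N To y (c j) (d j) (a j) (e j) M η S ∧
        ¬ Lg μ s N y (c j) (d j) j b (8 * M) η S)) J := by
  classical
  have hB : ∀ (n : ℕ) (j : ℕ), Ms fun η S => Hy μ s N y (j - b) (j + b) (NoMeet (st (u j) l' n) (st (u j) l' n + l')) (7 * M) η S ∧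
      All80 μ s N y (c j) (d j) j b q T₀ (8 * M) (U j) η S := fun n j =>
    ms_and (hy_ms _ _) (ms_fam fun _ _ => hy_ms _ _)
  have h1 := WPs.sum (μ := μ) (s := s) (N := N) (y := (y : ℤ)) (range (3 * q)) (r := fun _ => r) (p := fun _ => p) (I := JJ)
    (A := fun n j η S => ind (Hy μ s N y (j - b) (j + b) (NoMeet (st (u j) l' n) (st (u j) l' n + l')) (7 * M) η S ∧
      All80 μ s N y (c j) (d j) j b q T₀ (8 * M) (U j) η S)) (J := J)
    (fun n hn => wps_of_ev (hB n) (hs n (mem_range.1 hn))) (fun n j S => meas_ind (hB n j S))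
  intro f hf hf1 hfo
  have h2 := h1 f hf hf1 hfo
  rw [sum_const, sum_const, card_range, nsmul_eq_mul, nsmul_eq_mul] at h2
  have h3 : ∀ j ∈ JJ, Q1 μ s N y (fun η S => f η S * ind (TK μ s N Tm y (j - b) (j + b) (u j) (v j) M η S ∧
      TK μ s N To y (c j) (d j) (a j) (e j) M η S ∧ ¬ Lg μ s N y (c j) (d j) j b (8 * M) η S)) ≤
      Q1 μ s N y (fun η S => f η S * ∑ n ∈ range (3 * q), ind (Hy μ s N y (j - b) (j + b) (NoMeet (st (u j) l' n) (st (u j) l' n + l'))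
        (7 * M) η S ∧ All80 μ s N y (c j) (d j) j b q T₀ (8 * M) (U j) η S)) + (b + 2 : ℕ) * ENNReal.ofReal (Real.exp (-M)) := by
    intro j hj
    have g1 := tk_all (μ := μ) (s := s) (To := To) (c := c j) (d := d j) (a := a j) (e := e j) (j := j) (b := b) (T₀ := T₀) (U := U j) hy (hcd j hj) hM
      hq hq' hq1 (hU j hj) (f := fun η S => f η S * ind (TK μ s N Tm y (j - b) (j + b) (u j) (v j) M η S))
      fun η S => mul_le_one' (hf1 η S) (ind_le _)
    have g2 := tk_Q1 (μ := μ) (s := s) (T := Tm) (c := j - b) (d := j + b) (u := u j) (v := v j) (l := l') hy (by omega) hM hq hq' hq1 (huv j hj)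
      (f := fun η S => f η S * ind (All80 μ s N y (c j) (d j) j b q T₀ (8 * M) (U j) η S)) fun η S => mul_le_one' (hf1 η S) (ind_le _)
    have e1 : Q1 μ s N y (fun η S => f η S * ind (TK μ s N Tm y (j - b) (j + b) (u j) (v j) M η S ∧
        TK μ s N To y (c j) (d j) (a j) (e j) M η S ∧ ¬ Lg μ s N y (c j) (d j) j b (8 * M) η S)) =
        Q1 μ s N y (fun η S => f η S * ind (TK μ s N Tm y (j - b) (j + b) (u j) (v j) M η S) *
          ind (TK μ s N To y (c j) (d j) (a j) (e j) M η S ∧ ¬ Lg μ s N y (c j) (d j) j b (8 * M) η S)) := by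
      congr 1
      funext η S
      rw [ind_and80 (TK μ s N Tm y (j - b) (j + b) (u j) (v j) M η S), mul_assoc]
    rw [e1]
    refine g1.trans ?_
    have e2 : (b + 2 : ℕ) * ENNReal.ofReal (Real.exp (-M)) = ENNReal.ofReal (Real.exp (-M)) + (b + 1 : ℕ) * ENNReal.ofReal (Real.exp (-M)) := by
      push_cast
      ring
    rw [e2, ← add_assoc]
    refine add_le_add ?_ le_rfl
    refine le_trans (Q1_mono fun η S _ _ => ?_) (g2.trans (add_le_add (Q1_mono fun η S _ _ => ?_) le_rfl))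
    · show f η S * ind (TK μ s N Tm y (j - b) (j + b) (u j) (v j) M η S) * ind (All80 μ s N y (c j) (d j) j b q T₀ (8 * M) (U j) η S) ≤ _
      rw [mul_right_comm]
    · rw [mul_assoc]
      refine mul_le_mul' le_rfl ?_
      by_cases g : RpS μ s N y (j - b) (j + b) (u j) l' q M η S
      · obtain ⟨n, hn, g'⟩ := g
        by_cases g3 : All80 μ s N y (c j) (d j) j b q T₀ (8 * M) (U j) η S
        · refine le_trans ?_ (single_le_sum (f := fun n => ind (Hy μ s N y (j - b) (j + b) (NoMeet (st (u j) l' n) (st (u j) l' n + l'))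
            (7 * M) η S ∧ All80 μ s N y (c j) (d j) j b q T₀ (8 * M) (U j) η S)) (fun _ _ => zero_le) (mem_range.2 hn))
          rw [show ind (Hy μ s N y (j - b) (j + b) (NoMeet (st (u j) l' n) (st (u j) l' n + l'))
            (7 * M) η S ∧ All80 μ s N y (c j) (d j) j b q T₀ (8 * M) (U j) η S) = 1 from ind_of ⟨g', g3⟩]
          exact mul_le_one' (ind_le _) (ind_le _)
        · rw [ind_not g3, zero_mul]
          exact zero_le
      · rw [ind_not g, mul_zero]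
        exact zero_le
  refine (sum_le_sum h3).trans ?_
  rw [sum_add_distrib, sum_const, nsmul_eq_mul, ← add_assoc]
  exact add_le_add h2 le_rfl

end Pool.Agent.W_7d29a1_C0.Own80
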