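import Pool.Agent.W_7d29a1_C0.SiteO80
import Pool.Agent.W_7d29a1_C0.Sz23
import Pool.Agent.W_7d29a1_C0.PrL86

/-!
C0, helper80: THE SITE PRICE FOR REAL FUNCTIONALS, robust events: `real_R`, `real_L` (any `|D|`, the long loops excluded); `long_f`: the
price of the long loops and the micro tie against a weight which is blind to the rows of the block.
-/

set_option autoImplicit false

namespace Pool.Agent.W_7d29a1_C0.Own80

open MeasureTheory ProbabilityTheory Filter Topology Finset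
open Pool.Agent.W_7d29a1_F Pool.Agent.W_7d29a1_X Pool.Agent.W_7d29a1_h4g Pool.Agent.W_7d29a1_H
open Pool.Agent.W_7d29a1_HS (In wd md)
open Pool.Agent.W_7d29a1_HZ Pool.Agent.W_7d29a1_HZ.R72 Pool.Agent.W_7d29a1_Z.Asm72
open Pool.Agent.W_7d29a1_HZ.Z86
open Pool.Agent.W_7d29a1_C0.P86
open Pool.Agent.W_7d29a1_C0.P3 (Hy hy_ms hy_off er amp amp_ex)
open Pool.Agent.W_7d29a1_C0.Mod92 (Px Pn lw ps pJ ne_Pn ps_Pn wm Pm meas_lw meas_wm meas_cE meas_gm int_Pm)
open Pool.Agent.W_7d29a1_C0.Swap57 (NI)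
open Pool.W7d29a1.C0 (gm gm_nonneg gm_mono gm_const)
open Pool.W7d29a1.C0.VT31 (cE cE_mono)
open Pool.W7d29a1.C0.S1 (i1 i1_nonneg)
open Pool.W7d29a1.C0.R43 (st Tau mI)
open Pool.Agent.W_7d29a1_C0.Strip80 (OffD)
open Pool.Agent.W_7d29a1_C0.Wp23 (WPs WPs.mono wps_Pm)
open Pool.Agent.W_7d29a1_C0.Sz23 (meas_tau)
open scoped ENNReal

variable {μ : Measure ℝ} {s : ℝ} {N : ℕ}

/-- The micro tie of the row `j`. -/
noncomputable def mic80 (μ : Measure ℝ) (s : ℝ) (N y b u v j : ℕ) (M : ℝ) (ω : Env × Finset ℕ) (x : Px (Pn N y)) : ℝ :=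
  i1 (Tau (wm μ s N (Pn N y) ω) (pJ (j - b) (j + b)) u v M x)

/-- The own tie. -/
noncomputable def own80 (μ : Measure ℝ) (s : ℝ) (N y c d a e : ℕ) (M : ℝ) (ω : Env × Finset ℕ) (x : Px (Pn N y)) : ℝ :=
  i1 (Tau (wm μ s N (Pn N y) ω) (pJ c d) a e M x)

/-- Long loops. -/
noncomputable def lg80 (μ : Measure ℝ) (s : ℝ) (N y c d b j : ℕ) (M : ℝ) (ω : Env × Finset ℕ) (x : Px (Pn N y)) : ℝ :=
  i1 (Real.exp (-(8 * M)) < mI (wm μ s N (Pn N y) ω) (pJ c d) (j - 11 * b) (j + 11 * b) x)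

theorem i1_zo (A : Prop) : i1 A = 0 ∨ i1 A = 1 := by
  unfold i1
  split_ifs
  · exact Or.inr rfl
  · exact Or.inl rfl

theorem i1_le1 (A : Prop) : i1 A ≤ 1 := by
  unfold i1
  split_ifs <;> norm_num

theorem i1_ind (A : Prop) : ENNReal.ofReal (i1 A) = ind A := by
  unfold i1
  by_cases h : A
  · rw [if_pos h, ind_of h, ENNReal.ofReal_one]
  · rw [if_neg h, ind_not h, ENNReal.ofReal_zero]

theorem meas_i1 {A : Env × Finset ℕ → Prop} (h : MeasurableSet {ω | A ω}) : Measurable fun ω => i1 (A ω) := by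
  classical
  unfold i1
  exact Measurable.ite h measurable_const measurable_const

theorem meas_lg {y c d i j : ℕ} (t : ℝ) (x : Px (Pn N y)) : MeasurableSet {ω | t < mI (wm μ s N (Pn N y) ω) (pJ c d) i j x} := by
  have : Nonempty (Px (Pn N y)) := ⟨x⟩
  refine measurableSet_lt measurable_const ?_
  exact meas_cE (w := fun ω : Env × Finset ℕ => wm μ s N (Pn N y) ω) (f := fun _ => NI i j x) meas_wm (fun z' => measurable_const) (pJ c d) x

theorem tk_true {y c d u v : ℕ} {M : ℝ} {ω : Env × Finset ℕ} {x : Px (Pn N y)} (h : Tau (wm μ s N (Pn N y) ω) (pJ c d) u v M x) :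
    TK μ s N True y c d u v M ω.1 x.1 := Or.inl ⟨trivial, x.2, h⟩

theorem lg_iff {y c d b j : ℕ} {M : ℝ} {ω : Env × Finset ℕ} {x : Px (Pn N y)} :
    Lg μ s N y c d j b (8 * M) ω.1 x.1 ↔ Real.exp (-(8 * M)) < mI (wm μ s N (Pn N y) ω) (pJ c d) (j - 11 * b) (j + 11 * b) x := by
  have h1 := mI_mc (μ := μ) (s := s) (N := N) (c := c) (d := d) (i := j - 11 * b) (j := j + 11 * b) ω.1 x.2
  unfold Lg Hy
  rw [← h1]
  rfl

/-- The functional of one row. -/
noncomputable def aj80 (μ : Measure ℝ) (s : ℝ) (N y b u v c d a e j : ℕ) (M : ℝ) (ω : Env × Finset ℕ) (x : Px (Pn N y)) : ℝ :=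
  mic80 μ s N y b u v j M ω x * own80 μ s N y c d a e M ω x * (1 - lg80 μ s N y c d b j M ω x)

theorem aj_zo {y b u v c d a e j : ℕ} {M : ℝ} (ω : Env × Finset ℕ) (x : Px (Pn N y)) :
    0 ≤ aj80 μ s N y b u v c d a e j M ω x ∧ aj80 μ s N y b u v c d a e j M ω x ≤ 1 := by
  unfold aj80 mic80 own80 lg80
  rcases i1_zo (Tau (wm μ s N (Pn N y) ω) (pJ (j - b) (j + b)) u v M x) with h1 | h1 <;>
    rcases i1_zo (Tau (wm μ s N (Pn N y) ω) (pJ c d) a e M x) with h2 | h2 <;>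
    rcases i1_zo (Real.exp (-(8 * M)) < mI (wm μ s N (Pn N y) ω) (pJ c d) (j - 11 * b) (j + 11 * b) x) with h3 | h3 <;>
    rw [h1, h2, h3] <;> norm_num

theorem aj_ind {y b u v c d a e j : ℕ} {M : ℝ} (ω : Env × Finset ℕ) (x : Px (Pn N y)) :
    ENNReal.ofReal (aj80 μ s N y b u v c d a e j M ω x) ≤ ind (TK μ s N True y (j - b) (j + b) u v M ω.1 x.1 ∧
      TK μ s N True y c d a e M ω.1 x.1 ∧ ¬ Lg μ s N y c d j b (8 * M) ω.1 x.1) := by
  by_cases h1 : Tau (wm μ s N (Pn N y) ω) (pJ (j - b) (j + b)) u v M x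
  · by_cases h2 : Tau (wm μ s N (Pn N y) ω) (pJ c d) a e M x
    · by_cases h3 : Real.exp (-(8 * M)) < mI (wm μ s N (Pn N y) ω) (pJ c d) (j - 11 * b) (j + 11 * b) x
      · have e : aj80 μ s N y b u v c d a e j M ω x = 0 := by
          unfold aj80 lg80
          rw [show i1 (Real.exp (-(8 * M)) < mI (wm μ s N (Pn N y) ω) (pJ c d) (j - 11 * b) (j + 11 * b) x) = 1 from if_pos h3]
          ring
        rw [e, ENNReal.ofReal_zero]
        exact zero_le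
      · rw [ind_of ⟨tk_true h1, tk_true h2, fun h => h3 (lg_iff.1 h)⟩, ← ENNReal.ofReal_one]
        exact ENNReal.ofReal_le_ofReal (aj_zo ω x).2
    · have e : aj80 μ s N y b u v c d a e j M ω x = 0 := by
        unfold aj80 own80
        rw [show i1 (Tau (wm μ s N (Pn N y) ω) (pJ c d) a e M x) = 0 from if_neg h2]
        ring
      rw [e, ENNReal.ofReal_zero]
      exact zero_le
  · have e : aj80 μ s N y b u v c d a e j M ω x = 0 := by
      unfold aj80 mic80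
      rw [show i1 (Tau (wm μ s N (Pn N y) ω) (pJ (j - b) (j + b)) u v M x) = 0 from if_neg h1]
      ring
    rw [e, ENNReal.ofReal_zero]
    exact zero_le

theorem aj_ms [IsProbabilityMeasure μ] {y b u v c d a e j : ℕ} {M : ℝ} (x : Px (Pn N y)) : Measurable fun ω => aj80 μ s N y b u v c d a e j M ω x := by
  have : Nonempty (Px (Pn N y)) := ⟨x⟩
  unfold aj80 mic80 own80 lg80
  exact ((meas_i1 (meas_tau _ _ _ _ _)).mul (meas_i1 (meas_tau _ _ _ _ _))).mul (measurable_const.sub (meas_i1 (meas_lg _ _)))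

/-- Without the long loops. -/
theorem split80 {y b u v c d a e j : ℕ} {M : ℝ} (ω : Env × Finset ℕ) (x : Px (Pn N y)) :
    mic80 μ s N y b u v j M ω x * own80 μ s N y c d a e M ω x ≤ aj80 μ s N y b u v c d a e j M ω x +
      mic80 μ s N y b u v j M ω x * lg80 μ s N y c d b j M ω x := by
  unfold aj80 mic80 own80 lg80
  rcases i1_zo (Tau (wm μ s N (Pn N y) ω) (pJ (j - b) (j + b)) u v M x) with h1 | h1 <;>
    rcases i1_zo (Tau (wm μ s N (Pn N y) ω) (pJ c d) a e M x) with h2 | h2 <;>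
    rcases i1_zo (Real.exp (-(8 * M)) < mI (wm μ s N (Pn N y) ω) (pJ c d) (j - 11 * b) (j + 11 * b) x) with h3 | h3 <;>
    rw [h1, h2, h3] <;> norm_num

variable [IsProbabilityMeasure μ] {c₀ C₀ : ℝ} {n₀ : ℕ}

/-- **FROM THE WEIGHTED PRICE TO REAL FUNCTIONALS.** -/
theorem real80 {y : ℕ} (hy : y ≤ N) {b : ℕ} {u v c d a e : ℕ → ℕ} {M r p : ℝ} (hr : 0 ≤ r) (hp : 0 ≤ p) {JJ J : Finset ℕ}
    (hW : WPs μ s N y (ENNReal.ofReal r) (ENNReal.ofReal p) JJ
      (fun j η S => ind (TK μ s N True y (j - b) (j + b) (u j) (v j) M η S ∧ TK μ s N True y (c j) (d j) (a j) (e j) M η S ∧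
        ¬ Lg μ s N y (c j) (d j) j b (8 * M) η S)) J)
    {D : Env × Finset ℕ → Px (Pn N y) → ℝ} {K : ℝ} (hK : 0 < K) (hD : ∀ ω S, |D ω S| ≤ K) (hDm : ∀ S, Measurable fun ω => D ω S) (hDo : OffD J D) :
    ∑ j ∈ JJ, ∫ ω, gm (wm μ s N (Pn N y) ω) (fun S => |D ω S| * aj80 μ s N y b (u j) (v j) (c j) (d j) (a j) (e j) j M ω S) ∂(Pm μ N) ≤
      r * (∫ ω, gm (wm μ s N (Pn N y) ω) (fun S => |D ω S|) ∂(Pm μ N)) + K * p :=
  wps_Pm hy hr hp (A := fun _ j η S => ind (TK μ s N True y (j - b) (j + b) (u j) (v j) M η S ∧ TK μ s N True y (c j) (d j) (a j) (e j) M η S ∧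
        ¬ Lg μ s N y (c j) (d j) j b (8 * M) η S)) (fun _ _ => hW) (a := fun j ω S => aj80 μ s N y b (u j) (v j) (c j) (d j) (a j) (e j) j M ω S)
    (fun _ _ ω S => (aj_zo ω S).1) (K := 1) (fun _ _ ω S => (aj_zo ω S).2) (fun _ _ S => aj_ms S) (fun _ _ ω S => aj_ind ω S) hK hD hDm hDo

/-- **THE PRICE OF A LONG LOOP AND THE MICRO TIE**, the weight blind to the rows behind `j - b` of the block. -/
theorem long_f (h : In μ s c₀ C₀ n₀) : ∀ ε θ : ℝ, 0 < ε → 0 < θ → ∃ δ κ c₂ : ℝ, 0 < δ ∧ 0 < κ ∧ 0 < c₂ ∧ ∃ L₀ : ℕ, ∀ L : ℕ, L₀ ≤ L →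
    ∀ N : ℕ, L ≤ 16 * N → N ≤ L → ∀ y : ℕ, y ≤ N → |(y : ℝ) - sl μ s * N| ≤ ((L : ℝ) ^ δ * wd' μ s N) →
    ∀ M : ℝ, 8 ≤ M → M ≤ (L : ℝ) ^ κ → ∀ b l j c d u v : ℕ, (L : ℝ) ^ θ ≤ b → (L : ℝ) ^ θ ≤ l → b ≤ j → j ≤ u + b → v ≤ j + b → u + l ≤ v →
    c ≤ j → j + b ≤ d → d ≤ N → ∀ f : Env × Finset ℕ → Px (Pn N y) → ℝ, (∀ A x, Measurable fun η => f (η, A) x) → (∀ ω x, 0 ≤ f ω x) →
    (∀ ω x, f ω x ≤ 1) → OffD (Ioo (j - b) d) f →
    ∫ ω, gm (wm μ s N (Pn N y) ω) (fun x => f ω x * (mic80 μ s N y b u v j M ω x * lg80 μ s N y c d b j M ω x)) ∂(Pm μ N) ≤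
      ((L : ℝ) ^ ε * (EE' μ s b)⁻¹) * ((L : ℝ) ^ ε * (EE' μ s l)⁻¹) * ∫ ω, gm (wm μ s N (Pn N y) ω) (f ω) ∂(Pm μ N) +
        (Real.exp (-(L : ℝ) ^ c₂) + 4 * Real.exp (-M)) := by
  intro ε θ hε hθ
  obtain ⟨a, K, ha, ha1, hK, hE⟩ := EE'_pow h
  obtain ⟨δ, κ₁, c₂, hδ, hκ₁, hc₂, L₁, hP⟩ := price_list h 2 (by norm_num) (ε / 2) θ (by positivity) hθ
  obtain ⟨L₂, h8⟩ := ev_mul86 8 (show κ₁ / 2 < κ₁ by linarith)
  obtain ⟨L₃, hKL⟩ := ev_const K (show 0 < ε / 2 by positivity)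
  refine ⟨δ, κ₁ / 2, c₂, hδ, by positivity, hc₂, L₁ + L₂ + L₃ + 1, ?_⟩
  intro L hL N hLN hNL y hyN hyc M hM hML b l j c d u v hbL hlL hbj huj hvj huv hcj hjd hdN f hfm hf0 hf1 hfo
  have hL1 : (1 : ℝ) ≤ L := by exact_mod_cast (show 1 ≤ L by omega)
  have hL0 : (0 : ℝ) < L := by linarith
  have hX : 8 * M ≤ (L : ℝ) ^ κ₁ := by
    have := h8 L (by omega)
    linarith
  have hM1 : M ≤ (L : ℝ) ^ κ₁ := by linarith
  have hE0 : ∀ t, 0 < EE' μ s t := fun t => lt_of_lt_of_le zero_lt_one (le_max_left _ _)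
  have := ne_Pn (N := N) (y := y) hyN
  have hf00 : 0 ≤ ∫ ω, gm (wm μ s N (Pn N y) ω) (f ω) ∂(Pm μ N) := integral_nonneg fun ω => gm_nonneg _ (hf0 ω)
  have i1 := (inv_pos.2 (hE0 b)).le
  have i2 := (inv_pos.2 (hE0 l)).le
  have hlg0 : ∀ ω x, 0 ≤ lg80 μ s N y c d b j M ω x ∧ lg80 μ s N y c d b j M ω x ≤ 1 := fun ω x => ⟨i1_nonneg _, i1_le1 _⟩
  have hmi0 : ∀ ω x, 0 ≤ mic80 μ s N y b u v j M ω x ∧ mic80 μ s N y b u v j M ω x ≤ 1 := fun ω x => ⟨i1_nonneg _, i1_le1 _⟩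
  by_cases hd : j + 11 * b ≤ d
  · have hdom1 : Dom μ s N y ((L : ℝ) ^ κ₁) M ⟨c, d, c, d, j + b, j + 11 * b, 10 * b, Ty.R, False⟩ (fun ω x => lg80 μ s N y c d b j M ω x) := by
      refine dom_mass (by linarith) (fun h => h) ⟨le_rfl, by show c ≤ j + b; omega, by show j + b ≤ j + 11 * b; omega, hd, le_rfl⟩ rfl rfl
        (by show j + b + 10 * b ≤ j + 11 * b; omega) (fun ω x => (hlg0 ω x).1) (fun ω x => (hlg0 ω x).2) (fun ω x => ?_)
      unfold lg80 Pool.W7d29a1.C0.S1.i1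
      have g0 : mI (wm μ s N (Pn N y) ω) (pJ c d) (j - 11 * b) (j + 11 * b) x ≤ cE (wm μ s N (Pn N y) ω) (pJ c d) (NI (j + b) (j + 11 * b) x) x := by
        refine cE_mono _ _ (fun x' => ?_) x
        unfold NI
        split_ifs with g1 g2 g2
        · exact le_rfl
        · exact absurd (fun k hk1 hk2 => g1 k (by omega) (by omega)) g2
        · exact zero_le_one
        · exact le_rfl
      split_ifs with g
      · have g2 := g.le.trans g0
        have g3 := mul_le_mul_of_nonneg_left g2 (Real.exp_pos ((L : ℝ) ^ κ₁)).le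
        refine le_trans ?_ g3
        rw [← Real.exp_add, ← Real.exp_zero]
        exact Real.exp_le_exp.2 (by linarith)
      · exact mul_nonneg (Real.exp_pos _).le ((Pool.W7d29a1.C0.R43.mI_nonneg _ _ _ _ _).trans g0)
    have hdom2 : Dom μ s N y ((L : ℝ) ^ κ₁) M ⟨j - b, j + b, j - b, j + b, u, v, l, Ty.L, True⟩ (fun ω x => mic80 μ s N y b u v j M ω x) := by
      refine dom_tau (by linarith) trivial rfl rfl huv (fun ω x => (hmi0 ω x).1) (fun ω x => (hmi0 ω x).2) (fun ω x => Or.inl fun g => ?_)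
      by_contra hcon
      refine g ?_
      unfold mic80 Pool.W7d29a1.C0.S1.i1
      rw [if_neg hcon]
    have h1 := hP L (by omega) N hLN hNL y hyN hyc M hM hM1
      [(⟨c, d, c, d, j + b, j + 11 * b, 10 * b, Ty.R, False⟩, fun ω x => lg80 μ s N y c d b j M ω x),
        (⟨j - b, j + b, j - b, j + b, u, v, l, Ty.L, True⟩, fun ω x => mic80 μ s N y b u v j M ω x)] rfl
      (by
        simp only [List.mem_cons, List.not_mem_nil, or_false]
        rintro P (rfl | rfl)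
        · refine ⟨?_, ?_⟩
          · show c ≤ c ∧ c ≤ j + b ∧ j + b ≤ j + 11 * b ∧ j + 11 * b ≤ d ∧ d ≤ d ∧ d ≤ N
            omega
          · show (L : ℝ) ^ θ ≤ ((10 * b : ℕ) : ℝ)
            push_cast
            have : (0 : ℝ) ≤ b := Nat.cast_nonneg _
            linarith
        · refine ⟨?_, hlL⟩
          show j - b ≤ j - b ∧ j - b ≤ u ∧ u ≤ v ∧ v ≤ j + b ∧ j + b ≤ j + b ∧ j + b ≤ N
          omega)
      (by
        simp only [List.pairwise_cons, List.mem_cons, List.not_mem_nil, or_false, forall_eq, List.Pairwise.nil, and_true,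
          IsEmpty.forall_iff, implies_true]
        exact Or.inl (show j + b ≤ j + b from le_rfl))
      (by
        simp only [List.mem_cons, List.not_mem_nil, or_false]
        rintro P (rfl | rfl)
        exacts [hdom1, hdom2])
      f hfm hf0 hf1
      (by
        simp only [List.mem_cons, List.not_mem_nil, or_false]
        rintro P (rfl | rfl) η η' A x hq
        · refine hfo η η' A x fun q hq' => hq q fun hh => hq' ⟨hh.1, ?_⟩
          have := mem_Ioo.1 (show q.1.toNat ∈ Ioo (j + b) d from hh.2)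
          exact mem_Ioo.2 ⟨by omega, this.2⟩
        · refine hfo η η' A x fun q hq' => hq q fun hh => hq' ⟨hh.1, ?_⟩
          have := mem_Ioo.1 (show q.1.toNat ∈ Ioo (j - b) (j + b) from hh.2)
          exact mem_Ioo.2 ⟨this.1, by omega⟩)
    simp only [List.map_cons, List.map_nil, List.prod_cons, List.prod_nil, mul_one] at h1
    have e1 : ∀ ω x, f ω x * (mic80 μ s N y b u v j M ω x * lg80 μ s N y c d b j M ω x) =
        f ω x * (lg80 μ s N y c d b j M ω x * mic80 μ s N y b u v j M ω x) := fun ω x => by ring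
    simp only [e1]
    refine h1.trans (add_le_add (mul_le_mul_of_nonneg_right ?_ hf00) (le_of_eq (by push_cast; ring)))
    have hb1 : 1 ≤ b := by
      have h2 : (0 : ℝ) < (L : ℝ) ^ θ := Real.rpow_pos_of_pos hL0 _
      have h3 : (0 : ℝ) < b := by linarith
      exact_mod_cast h3
    have g5 : (EE' μ s (10 * b))⁻¹ ≤ K * (EE' μ s b)⁻¹ := by
      have h3 := (hE b (10 * b) hb1 (by omega)).1
      rw [← div_eq_mul_inv, le_div_iff₀ (hE0 b), inv_mul_le_iff₀ (hE0 _)]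
      linarith
    have g6 := hKL L (by omega)
    have g7 : (L : ℝ) ^ ε = (L : ℝ) ^ (ε / 2) * (L : ℝ) ^ (ε / 2) := by
      rw [← Real.rpow_add hL0]
      congr 1
      ring
    have g8 : 1 ≤ (L : ℝ) ^ (ε / 2) := Real.one_le_rpow hL1 (by positivity)
    have g9 : 0 ≤ (L : ℝ) ^ (ε / 2) := by linarith
    refine mul_le_mul ?_ ?_ (mul_nonneg g9 i2) (mul_nonneg (by positivity) i1)
    · calc (L : ℝ) ^ (ε / 2) * (EE' μ s (10 * b))⁻¹ ≤ (L : ℝ) ^ (ε / 2) * (K * (EE' μ s b)⁻¹) := mul_le_mul_of_nonneg_left g5 g9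
        _ ≤ (L : ℝ) ^ (ε / 2) * ((L : ℝ) ^ (ε / 2) * (EE' μ s b)⁻¹) := mul_le_mul_of_nonneg_left (mul_le_mul_of_nonneg_right g6 i1) g9
        _ = _ := by rw [g7]; ring
    · refine mul_le_mul_of_nonneg_right ?_ i2
      rw [g7]
      exact le_mul_of_one_le_left g9 g8
  · have e1 : ∀ ω x, f ω x * (mic80 μ s N y b u v j M ω x * lg80 μ s N y c d b j M ω x) = 0 := fun ω x => by
      have e2 : mI (wm μ s N (Pn N y) ω) (pJ c d) (j - 11 * b) (j + 11 * b) x = 0 := by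
        have e4 := mI_mc (μ := μ) (s := s) (N := N) (c := c) (d := d) (i := j - 11 * b) (j := j + 11 * b) ω.1 x.2
        have e5 := mc_le_sum (μ := μ) (s := s) (N := N) (y := y) (c := c) (d := d) (A := NoMeet (j - 11 * b) (j + 11 * b)) (∅ : Finset ℕ)
          (fun _ => NoMeet 0 0) (fun S S' _ _ _ _ h5 h6 => absurd (h5 d (Or.inr le_rfl)) (h6 d (by omega) (by omega))) ω.1 x.1
        rw [sum_empty, ← e4] at e5
        exact le_antisymm e5 (Pool.W7d29a1.C0.R43.mI_nonneg _ _ _ _ _)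
      have e3 : lg80 μ s N y c d b j M ω x = 0 := by
        unfold lg80
        rw [e2]
        exact if_neg (not_lt.2 (Real.exp_pos _).le)
      rw [e3, mul_zero, mul_zero]
    simp only [e1]
    have e6 : ∀ ω : Env × Finset ℕ, gm (wm μ s N (Pn N y) ω) (fun _ => (0 : ℝ)) = 0 := fun ω => gm_const _ 0
    simp only [e6, integral_zero]
    have : 0 ≤ Real.exp (-(L : ℝ) ^ c₂) + 4 * Real.exp (-M) := by positivity
    have h5 : 0 ≤ ((L : ℝ) ^ ε * (EE' μ s b)⁻¹) * ((L : ℝ) ^ ε * (EE' μ s l)⁻¹) * ∫ ω, gm (wm μ s N (Pn N y) ω) (f ω) ∂(Pm μ N) :=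
      mul_nonneg (mul_nonneg (mul_nonneg (by positivity) i1) (mul_nonneg (by positivity) i2)) hf00
    linarith

end Pool.Agent.W_7d29a1_C0.Own80
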