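import Pool.Agent.W_7d29a1_C0.Site15L
import Pool.Agent.W_7d29a1_C0.Pair42B

/-!
MP_7d29a1_pr, [C0], helper3: THE DOUBLE TIES OF THE ROWS OF ONE BLOCK, given an event which is blind to the whole block `C < rows < D`, part 1
(events). Over `site_coreR`, `site_coreL` (helper15) and the own event `OwG` (helper42). `own_g`: the price of `OwG`. `sumS`: the sum over the
rows of the block: micro = the conditional replica of the window `[j - β, j + β)` misses the path on `[u j, v j]`, own = `OwG`.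
-/

set_option autoImplicit false

namespace Pool.Agent.W_7d29a1_C0.SS3

open MeasureTheory ProbabilityTheory Filter Topology Finset
open Pool.Agent.W_7d29a1_F Pool.Agent.W_7d29a1_X Pool.Agent.W_7d29a1_h4g Pool.Agent.W_7d29a1_H
open Pool.Agent.W_7d29a1_HS (In wd md)
open Pool.Agent.W_7d29a1_HZ Pool.Agent.W_7d29a1_HZ.R72 Pool.Agent.W_7d29a1_Z.Asm72
open Pool.Agent.W_7d29a1_HZ.Z86
open Pool.Agent.W_7d29a1_C0.P86 Pool.Agent.W_7d29a1_C0.P15 Pool.Agent.W_7d29a1_C0.P42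
open Pool.Agent.W_7d29a1_C0.P3 (Hy hy_ms hy_off)
open scoped ENNReal

variable {μ : Measure ℝ} {s : ℝ} {N : ℕ} [IsProbabilityMeasure μ] {c₀ C₀ : ℝ} {n₀ : ℕ}

/-- **The price of the own event**, given an event which is blind behind the place (right), in front of it (left). -/
theorem own_g (h : In μ s c₀ C₀ n₀) : ∀ ε θ : ℝ, 0 < ε → 0 < θ → ∃ δ κ c₂ : ℝ, 0 < δ ∧ 0 < κ ∧
    0 < c₂ ∧ ∃ L₀ : ℕ, ∀ L : ℕ, L₀ ≤ L → ∀ N : ℕ, L ≤ 16 * N → N ≤ L → ∀ y : ℕ, y ≤ N → |(y : ℝ) - sl μ s * N| ≤ ((L : ℝ) ^ δ * wd' μ s N) →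
    ∀ C D β q j : ℕ, ∀ sd : Bool, 1 ≤ q → (q : ℝ) ≤ (L : ℝ) ^ κ → C + β ≤ j → j + β ≤ D → D ≤ N → ∀ x : ℝ, x ≤ (L : ℝ) ^ κ →
    ∀ T : ℕ, (L : ℝ) ^ θ ≤ T → 4 * T ≤ β → ∀ G : Env → Finset ℕ → Prop, Ms G →
    (sd = true → OffRows (Ioo (j + β - T) D) G) → (sd = false → OffRows (Ioo C (j - β + T)) G) →
    P1 μ s N y (fun η S => G η S ∧ OwG μ s N y C D β q sd j θ x L η S) ≤
      ENNReal.ofReal ((L : ℝ) ^ ε * (EE' μ s T)⁻¹) * P1 μ s N y G + ENNReal.ofReal (Real.exp (-(L : ℝ) ^ c₂)) := by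
  intro ε θ hε hθ
  obtain ⟨δ, κ₁, c₂, hδ, hκ₁, hc₂, L₁, hP⟩ := owl_pr h ε θ hε hθ
  obtain ⟨κ, hκd⟩ : ∃ κ, κ = min κ₁ (θ / 4) := ⟨_, rfl⟩
  have hκ : 0 < κ := by
    rw [hκd]
    exact lt_min hκ₁ (by positivity)
  have k1 : κ ≤ κ₁ := by rw [hκd]; exact min_le_left _ _
  have k2 : κ < θ / 2 := by
    have : κ ≤ θ / 4 := by rw [hκd]; exact min_le_right _ _
    linarith
  obtain ⟨L₃, hN⟩ := lp_num hθ k2
  refine ⟨δ, κ, c₂, hδ, hκ, hc₂, L₁ + L₃ + 1, ?_⟩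
  intro L hL N hLN hNL y hyN hyc C D β q j sd hq hqL hC hD hDN x hx T hT1 hT2 G hG hGR hGL
  have hL1 : (1 : ℝ) ≤ L := by exact_mod_cast (show 1 ≤ L by omega)
  have hκL : (L : ℝ) ^ κ ≤ (L : ℝ) ^ κ₁ := Real.rpow_le_rpow_of_exponent_le hL1 k1
  refine le_trans (A12.P1_mono fun η S hev => ?_) (hP L (by omega) N hLN hNL y hyN hyc C D β q j sd hq (hqL.trans hκL) hC hD hDN x
    (hx.trans hκL) T hT1 hT2 G hG hGR hGL)
  refine ⟨hev.1, fun T' h1 h2 => ?_⟩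
  obtain ⟨n, hn, hH⟩ := hev.2 T' h1 h2
  obtain ⟨g1, g2, g3⟩ := w_mem sd (by omega : β ≤ j) h2 hq (hN L (by omega) q hq hqL T' h1).2.1 (mem_range.1 hn)
  exact ⟨n, hn, C, D, ⟨le_rfl, by omega, by omega, le_rfl⟩, hH⟩

/-- The stretches of length `e`: their number. -/
theorem card_str {C D e : ℕ} (he : 1 ≤ e) (hCD : C ≤ D) {T : Finset ℕ} (hT : ∀ t ∈ T, C ≤ e * t + e ∧ e * t ≤ D) : e * T.card ≤ (D - C) + 3 * e := by
  have h1 : T ⊆ Icc (C / e - 1) (D / e) := fun t ht => by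
    obtain ⟨a1, a2⟩ := hT t ht
    rw [mem_Icc]
    constructor
    · have h2 : C / e ≤ (e * t + e) / e := Nat.div_le_div_right a1
      have h3 : (e * t + e) / e = t + 1 := by
        rw [show e * t + e = e * (t + 1) by ring]
        exact Nat.mul_div_cancel_left _ (by omega)
      omega
    · rw [Nat.le_div_iff_mul_le (by omega), mul_comm]
      exact a2
  have h2 := card_le_card h1
  rw [Nat.card_Icc] at h2
  have h3 : e * (D / e) ≤ D := Nat.mul_div_le _ _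
  have h4 : C < e * (C / e + 1) := Nat.lt_mul_div_succ _ (by omega)
  have h5 : C / e ≤ D / e := Nat.div_le_div_right hCD
  have h6 : T.card ≤ D / e - C / e + 2 := by omega
  obtain ⟨z, hz⟩ : ∃ z, z = D / e - C / e := ⟨_, rfl⟩
  have h7 : D / e = C / e + z := by omega
  calc e * T.card ≤ e * (z + 2) := Nat.mul_le_mul_left _ (by omega)
    _ = e * z + 2 * e := by ring
    _ ≤ (D - C) + 3 * e := by
        rw [h7, mul_add] at h3
        rw [mul_add, mul_one] at h4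
        omega

/-- The numbers of the sum over the stretches. -/
theorem asm_str {L : ℕ} {ε ε' a e₁ Eβ El : ℝ} {T : Finset ℕ} {cd : ℕ → ℕ} {β n : ℕ} (hEβ : 0 < Eβ) (hEl : 0 < El)
    (hlE : El ≤ Eβ) (h1 : β * T.card ≤ 256 * n) (h2 : ∑ t ∈ T, cd t ≤ n) (h3 : 257 * (L : ℝ) ^ ε' ≤ (L : ℝ) ^ ε) (h4 : T.card ≤ L)
    (h5 : L * e₁ ≤ a) (h6 : 0 ≤ e₁) {X : ℝ≥0∞} {f : ℕ → ℝ≥0∞}
    (hf : ∀ t ∈ T, f t ≤ ENNReal.ofReal ((L : ℝ) ^ ε' * ((β * Eβ⁻¹ + cd t * El⁻¹) * Eβ⁻¹)) * X + ENNReal.ofReal e₁) :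
    ∑ t ∈ T, f t ≤ ENNReal.ofReal ((L : ℝ) ^ ε * (n * El⁻¹ * Eβ⁻¹)) * X + ENNReal.ofReal a := by
  have hL0 : (0 : ℝ) ≤ (L : ℝ) ^ ε' := by positivity
  refine (sum_le_sum hf).trans ?_
  rw [sum_add_distrib, ← sum_mul, sum_const, nsmul_eq_mul, ← ENNReal.ofReal_sum_of_nonneg fun t _ => by positivity]
  refine add_le_add (mul_le_mul' (ENNReal.ofReal_le_ofReal ?_) le_rfl) ?_
  · rw [← mul_sum, ← sum_mul, sum_add_distrib, sum_const, nsmul_eq_mul, ← sum_mul]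
    have a1 : (T.card : ℝ) * (β * Eβ⁻¹) ≤ 256 * n * El⁻¹ := by
      have b1 : (β : ℝ) * T.card ≤ 256 * n := by exact_mod_cast h1
      have b2 : Eβ⁻¹ ≤ El⁻¹ := inv_anti₀ hEl hlE
      calc (T.card : ℝ) * (β * Eβ⁻¹) = β * T.card * Eβ⁻¹ := by ring
        _ ≤ 256 * n * El⁻¹ := mul_le_mul b1 b2 (by positivity) (by positivity)
    have a2 : (∑ t ∈ T, (cd t : ℝ)) * El⁻¹ ≤ n * El⁻¹ := by
      refine mul_le_mul_of_nonneg_right ?_ (by positivity)
      exact_mod_cast h2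
    calc (L : ℝ) ^ ε' * (((T.card : ℝ) * (β * Eβ⁻¹) + (∑ t ∈ T, (cd t : ℝ)) * El⁻¹) * Eβ⁻¹)
        ≤ (L : ℝ) ^ ε' * ((256 * n * El⁻¹ + n * El⁻¹) * Eβ⁻¹) := by gcongr
      _ = 257 * (L : ℝ) ^ ε' * (n * El⁻¹ * Eβ⁻¹) := by ring
      _ ≤ (L : ℝ) ^ ε * (n * El⁻¹ * Eβ⁻¹) := mul_le_mul_of_nonneg_right h3 (by positivity)
  · rw [← ENNReal.ofReal_natCast, ← ENNReal.ofReal_mul (Nat.cast_nonneg _)]
    refine ENNReal.ofReal_le_ofReal (le_trans ?_ h5)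
    exact mul_le_mul_of_nonneg_right (by exact_mod_cast h4) h6

/-- The rows of a block, by stretches. -/
theorem str_sum {L β n : ℕ} {R : Finset ℕ} (g : ℕ → ℕ) {ε ε' a e₁ Eβ El : ℝ} (hEβ : 0 < Eβ) (hEl : 0 < El) (hlE : El ≤ Eβ)
    (hR : R.card ≤ n) (hn : n ≤ L) (h1 : β * (R.image g).card ≤ 256 * n) (h3 : 257 * (L : ℝ) ^ ε' ≤ (L : ℝ) ^ ε) (h5 : L * e₁ ≤ a) (h6 : 0 ≤ e₁)
    {X : ℝ≥0∞} {f : ℕ → ℝ≥0∞}
    (hf : ∀ t ∈ R.image g, ∑ j ∈ R.filter (fun j => g j = t), f j ≤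
      ENNReal.ofReal ((L : ℝ) ^ ε' * ((β * Eβ⁻¹ + (R.filter (fun j => g j = t)).card * El⁻¹) * Eβ⁻¹)) * X + ENNReal.ofReal e₁) :
    ∑ j ∈ R, f j ≤ ENNReal.ofReal ((L : ℝ) ^ ε * (n * El⁻¹ * Eβ⁻¹)) * X + ENNReal.ofReal a := by
  have h4 : ∑ t ∈ R.image g, (R.filter (fun j => g j = t)).card ≤ n := by
    rw [← card_eq_sum_card_fiberwise (fun j hj => mem_image_of_mem g hj)]
    exact hR
  rw [← sum_fiberwise_of_maps_to (fun j hj => mem_image_of_mem g hj) f]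
  exact asm_str hEβ hEl hlE h1 h4 h3 ((card_image_le.trans hR).trans hn) h5 h6 hf

/-- **THE DOUBLE TIES OF THE ROWS OF ONE BLOCK**: the sum, given an event which is blind to the block. -/
theorem sumS (h : In μ s c₀ C₀ n₀) (sd : Bool) : ∀ ε θ : ℝ, 0 < ε → 0 < θ → ∃ θ' : ℝ, 0 < θ' ∧ θ' ≤ θ ∧ ∃ δ κ c₂ : ℝ, 0 < δ ∧ 0 < κ ∧ 0 < c₂ ∧
    ∃ L₀ : ℕ, ∀ L : ℕ, L₀ ≤ L → ∀ N : ℕ, L ≤ 16 * N → N ≤ L → ∀ y : ℕ, y ≤ N → |(y : ℝ) - sl μ s * N| ≤ ((L : ℝ) ^ δ * wd' μ s N) →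
    ∀ C D β l q : ℕ, (L : ℝ) ^ θ ≤ β → (L : ℝ) ^ θ ≤ l → D ≤ N → 1 ≤ q → (q : ℝ) ≤ (L : ℝ) ^ κ →
    ∀ R : Finset ℕ, (∀ j ∈ R, C + 4 * β ≤ j ∧ j + 4 * β ≤ D) →
    ∀ u v : ℕ → ℕ, (∀ j ∈ R, j ≤ u j + β / 2 ∧ v j ≤ j + β / 2 ∧ u j + l ≤ v j) → ∀ x : ℝ, x ≤ (L : ℝ) ^ κ →
    ∀ F : Env → Finset ℕ → Prop, Ms F → OffRows (Ioo C D) F →
    ∑ j ∈ R, P1 μ s N y (fun η S => F η S ∧ Hy μ s N y (j - β) (j + β) (NoMeet (u j) (v j)) x η S ∧ OwG μ s N y C D β q sd j θ' x L η S) ≤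
      ENNReal.ofReal ((L : ℝ) ^ ε * ((D - C : ℕ) * (EE' μ s l)⁻¹ * (EE' μ s β)⁻¹)) * P1 μ s N y F +
        ENNReal.ofReal (Real.exp (-(L : ℝ) ^ c₂)) := by
  intro ε θ hε hθ
  have hEp : ∀ t, 0 < EE' μ s t := fun t => lt_of_lt_of_le zero_lt_one (le_max_left _ _)
  have hwd : ∀ n, 0 < wd' μ s n := fun n => lt_of_lt_of_le zero_lt_one (le_max_left _ _)
  cases sd with
  | true =>
    obtain ⟨ε', θ', hε', hθ', hθθ, hC⟩ := site_coreR h (ε / 2) θ (by positivity) hθ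
    obtain ⟨δ₁, κ₁, c₁, hδ₁, hκ₁, hc₁, L₁, hOwn⟩ := own_g h ε' θ' hε' hθ'
    obtain ⟨δ₂, κ₂, c₂, hδ₂, hκ₂, hc₂, L₂, hP⟩ := hC c₁ hc₁
    obtain ⟨c₃, hc₃, -, L₃, hX⟩ := Pool.Agent.W_7d29a1_Z.NumI77.pow_exp hc₂ 1
    obtain ⟨L₄, hE⟩ := ev_mul86 257 (show ε / 2 < ε by linarith)
    obtain ⟨L₅, hβ64⟩ := ev_mul86 64 (show 0 < θ by linarith)
    refine ⟨θ', hθ', hθθ, min δ₁ δ₂, min κ₁ κ₂, c₃, lt_min hδ₁ hδ₂, lt_min hκ₁ hκ₂, hc₃, L₁ + L₂ + L₃ + L₄ + L₅ + 1, ?_⟩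
    intro L hL N hLN hNL y hyN hyc C D β l q hbL hlL hDN hq hqL R hR u v huv x hx F hF hFo
    have hLR : (1 : ℝ) ≤ L := by exact_mod_cast (show 1 ≤ L by omega)
    have hcone : ∀ δ', min δ₁ δ₂ ≤ δ' → |(y : ℝ) - sl μ s * N| ≤ ((L : ℝ) ^ δ' * wd' μ s N) := fun δ' hδ' =>
      hyc.trans (mul_le_mul_of_nonneg_right (Real.rpow_le_rpow_of_exponent_le hLR hδ') (hwd N).le)
    have hx' : ∀ κ', min κ₁ κ₂ ≤ κ' → x ≤ (L : ℝ) ^ κ' := fun κ' hκ' => hx.trans (Real.rpow_le_rpow_of_exponent_le hLR hκ')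
    have hq' : (q : ℝ) ≤ (L : ℝ) ^ κ₁ := hqL.trans (Real.rpow_le_rpow_of_exponent_le hLR (min_le_left _ _))
    have hb64 : 64 ≤ β := by
      have h1 := hβ64 L (by omega)
      rw [Real.rpow_zero, mul_one] at h1
      exact_mod_cast h1.trans hbL
    obtain ⟨e, he⟩ : ∃ e, e = β / 64 := ⟨_, rfl⟩
    have he1 : 1 ≤ e := by omega
    have he2 : β ≤ 128 * e := by omega
    rcases R.eq_empty_or_nonempty with hRe | ⟨j₀, hj₀⟩
    · rw [hRe, sum_empty]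
      exact zero_le
    have hCD : C + 8 * β ≤ D := by have := hR j₀ hj₀; omega
    have hlE : EE' μ s l ≤ EE' μ s β := by
      have h1 := huv j₀ hj₀
      have h2 := EE'_le_mul86 h (m := l) (n := β) (k := 1) (by omega) (by omega)
      rwa [Nat.cast_one, one_mul] at h2
    refine str_sum (β := β) (fun j => (j + β) / e) (ε' := ε / 2) (e₁ := Real.exp (-(L : ℝ) ^ c₂)) (hEp β) (hEp l) hlE ?_ (by omega) ?_ (hE L (by omega))
      ?_ (Real.exp_pos _).le fun t ht => ?_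
    · have h1 : R ⊆ Ico C D := fun j hj => by
        have := hR j hj
        rw [mem_Ico]
        omega
      have h2 := card_le_card h1
      rwa [Nat.card_Ico] at h2
    · have h1 := card_str (C := C) (D := D) he1 (by omega) (T := R.image fun j => (j + β) / e) fun t ht => by
        obtain ⟨j, hj, rfl⟩ := mem_image.1 ht
        have h2 := hR j hj
        have h3 : e * ((j + β) / e) ≤ j + β := Nat.mul_div_le _ _
        have h4 : j + β < e * ((j + β) / e + 1) := Nat.lt_mul_div_succ _ (by omega)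
        rw [mul_add, mul_one] at h4
        constructor <;> omega
      calc β * (R.image fun j => (j + β) / e).card ≤ 128 * e * (R.image fun j => (j + β) / e).card := Nat.mul_le_mul_right _ he2
        _ = 128 * (e * (R.image fun j => (j + β) / e).card) := by ring
        _ ≤ 128 * ((D - C) + 3 * e) := Nat.mul_le_mul_left _ h1
        _ ≤ 256 * (D - C) := by omega
    · have h1 := hX L (by omega)
      rwa [Real.rpow_one] at h1
    · obtain ⟨JJ, hJJ⟩ : ∃ JJ, JJ = R.filter fun j => (j + β) / e = t := ⟨_, rfl⟩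
      obtain ⟨hi, hhi⟩ : ∃ hi, hi = e * t + e - 1 := ⟨_, rfl⟩
      obtain ⟨j₁, hj₁, hj₁t⟩ := mem_image.1 ht
      have key : ∀ j ∈ JJ, j ∈ R ∧ hi < j + β + β / 64 ∧ j + β ≤ hi := fun j hj => by
        rw [hJJ, mem_filter] at hj
        obtain ⟨a1, a2⟩ := hj
        have h3 : e * ((j + β) / e) ≤ j + β := Nat.mul_div_le _ _
        have h4 : j + β < e * ((j + β) / e + 1) := Nat.lt_mul_div_succ _ (by omega)
        rw [mul_add, mul_one] at h4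
        rw [a2] at h3 h4
        exact ⟨a1, by omega, by omega⟩
      have k1 := key j₁ (by rw [hJJ, mem_filter]; exact ⟨hj₁, hj₁t⟩)
      have k2 := hR j₁ hj₁
      have hiD : hi + (D - 1 - hi) = D - 1 := by omega
      rw [← hJJ]
      refine hP L (by omega) N hLN hNL y hyN (hcone _ (min_le_right _ _)) β l hi (D - 1 - hi) hbL hlL (by omega) JJ
        (fun j hj => ⟨by have := hR j (key j hj).1; omega, (key j hj).2.1, (key j hj).2.2⟩) u v
        (fun j hj => ⟨by have := huv j (key j hj).1; omega, by have := huv j (key j hj).1; omega, (huv j (key j hj).1).2.2⟩)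
        (fun j => OwG μ s N y C D β q true j θ' x L) (fun j hj T hT hTb G hG hGo => ?_) x (hx' _ (min_le_right _ _)) F hF
        (Pool.Agent.W_7d29a1_HZ.ZE.OffRows.mono36 (fun k hk => by
          rw [mem_Ioc] at hk
          rw [mem_Ioo]
          omega) hFo)
      have k3 := hR j (key j hj).1
      refine hOwn L (by omega) N hLN hNL y hyN (hcone _ (min_le_left _ _)) C D β q j true hq hq' (by omega) (by omega) hDN x
        (hx' _ (min_le_left _ _)) T hT hTb G hG (fun _ => Pool.Agent.W_7d29a1_HZ.ZE.OffRows.mono36 (fun k hk => by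
          rw [mem_Ioo] at hk
          rw [mem_Ioc]
          omega) hGo) fun hh => absurd hh (by decide)
  | false =>
    obtain ⟨ε', θ', hε', hθ', hθθ, hC⟩ := site_coreL h (ε / 2) θ (by positivity) hθ
    obtain ⟨δ₁, κ₁, c₁, hδ₁, hκ₁, hc₁, L₁, hOwn⟩ := own_g h ε' θ' hε' hθ'
    obtain ⟨δ₂, κ₂, c₂, hδ₂, hκ₂, hc₂, L₂, hP⟩ := hC c₁ hc₁
    obtain ⟨c₃, hc₃, -, L₃, hX⟩ := Pool.Agent.W_7d29a1_Z.NumI77.pow_exp hc₂ 1
    obtain ⟨L₄, hE⟩ := ev_mul86 257 (show ε / 2 < ε by linarith)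
    obtain ⟨L₅, hβ64⟩ := ev_mul86 64 (show 0 < θ by linarith)
    refine ⟨θ', hθ', hθθ, min δ₁ δ₂, min κ₁ κ₂, c₃, lt_min hδ₁ hδ₂, lt_min hκ₁ hκ₂, hc₃, L₁ + L₂ + L₃ + L₄ + L₅ + 1, ?_⟩
    intro L hL N hLN hNL y hyN hyc C D β l q hbL hlL hDN hq hqL R hR u v huv x hx F hF hFo
    have hLR : (1 : ℝ) ≤ L := by exact_mod_cast (show 1 ≤ L by omega)
    have hcone : ∀ δ', min δ₁ δ₂ ≤ δ' → |(y : ℝ) - sl μ s * N| ≤ ((L : ℝ) ^ δ' * wd' μ s N) := fun δ' hδ' =>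
      hyc.trans (mul_le_mul_of_nonneg_right (Real.rpow_le_rpow_of_exponent_le hLR hδ') (hwd N).le)
    have hx' : ∀ κ', min κ₁ κ₂ ≤ κ' → x ≤ (L : ℝ) ^ κ' := fun κ' hκ' => hx.trans (Real.rpow_le_rpow_of_exponent_le hLR hκ')
    have hq' : (q : ℝ) ≤ (L : ℝ) ^ κ₁ := hqL.trans (Real.rpow_le_rpow_of_exponent_le hLR (min_le_left _ _))
    have hb64 : 64 ≤ β := by
      have h1 := hβ64 L (by omega)
      rw [Real.rpow_zero, mul_one] at h1
      exact_mod_cast h1.trans hbL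
    obtain ⟨e, he⟩ : ∃ e, e = β / 64 := ⟨_, rfl⟩
    have he1 : 1 ≤ e := by omega
    have he2 : β ≤ 128 * e := by omega
    rcases R.eq_empty_or_nonempty with hRe | ⟨j₀, hj₀⟩
    · rw [hRe, sum_empty]
      exact zero_le
    have hCD : C + 8 * β ≤ D := by have := hR j₀ hj₀; omega
    have hlE : EE' μ s l ≤ EE' μ s β := by
      have h1 := huv j₀ hj₀
      have h2 := EE'_le_mul86 h (m := l) (n := β) (k := 1) (by omega) (by omega)
      rwa [Nat.cast_one, one_mul] at h2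
    refine str_sum (β := β) (fun j => (j - β) / e) (ε' := ε / 2) (e₁ := Real.exp (-(L : ℝ) ^ c₂)) (hEp β) (hEp l) hlE ?_ (by omega) ?_ (hE L (by omega))
      ?_ (Real.exp_pos _).le fun t ht => ?_
    · have h1 : R ⊆ Ico C D := fun j hj => by
        have := hR j hj
        rw [mem_Ico]
        omega
      have h2 := card_le_card h1
      rwa [Nat.card_Ico] at h2
    · have h1 := card_str (C := C) (D := D) he1 (by omega) (T := R.image fun j => (j - β) / e) fun t ht => by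
        obtain ⟨j, hj, rfl⟩ := mem_image.1 ht
        have h2 := hR j hj
        have h3 : e * ((j - β) / e) ≤ j - β := Nat.mul_div_le _ _
        have h4 : j - β < e * ((j - β) / e + 1) := Nat.lt_mul_div_succ _ (by omega)
        rw [mul_add, mul_one] at h4
        constructor <;> omega
      calc β * (R.image fun j => (j - β) / e).card ≤ 128 * e * (R.image fun j => (j - β) / e).card := Nat.mul_le_mul_right _ he2
        _ = 128 * (e * (R.image fun j => (j - β) / e).card) := by ring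
        _ ≤ 128 * ((D - C) + 3 * e) := Nat.mul_le_mul_left _ h1
        _ ≤ 256 * (D - C) := by omega
    · have h1 := hX L (by omega)
      rwa [Real.rpow_one] at h1
    · obtain ⟨JJ, hJJ⟩ : ∃ JJ, JJ = R.filter fun j => (j - β) / e = t := ⟨_, rfl⟩
      obtain ⟨lo, hlo⟩ : ∃ lo, lo = e * t := ⟨_, rfl⟩
      obtain ⟨j₁, hj₁, hj₁t⟩ := mem_image.1 ht
      have key : ∀ j ∈ JJ, j ∈ R ∧ lo + β ≤ j ∧ j < lo + β + β / 64 := fun j hj => by
        rw [hJJ, mem_filter] at hj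
        obtain ⟨a1, a2⟩ := hj
        have h2 := hR j a1
        have h3 : e * ((j - β) / e) ≤ j - β := Nat.mul_div_le _ _
        have h4 : j - β < e * ((j - β) / e + 1) := Nat.lt_mul_div_succ _ (by omega)
        rw [mul_add, mul_one] at h4
        rw [a2] at h3 h4
        exact ⟨a1, by omega, by omega⟩
      have k1 := key j₁ (by rw [hJJ, mem_filter]; exact ⟨hj₁, hj₁t⟩)
      have k2 := hR j₁ hj₁
      have hiD : lo - (lo - (C + 1)) = C + 1 := by omega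
      rw [← hJJ]
      refine hP L (by omega) N hLN hNL y hyN (hcone _ (min_le_right _ _)) β l lo (lo - (C + 1)) hbL hlL JJ
        (fun j hj => ⟨(key j hj).2.1, (key j hj).2.2, by have := hR j (key j hj).1; omega⟩) u v
        (fun j hj => ⟨by have := huv j (key j hj).1; omega, by have := huv j (key j hj).1; omega, (huv j (key j hj).1).2.2⟩)
        (fun j => OwG μ s N y C D β q false j θ' x L) (fun j hj T hT hTb G hG hGo => ?_) x (hx' _ (min_le_right _ _)) F hF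
        (Pool.Agent.W_7d29a1_HZ.ZE.OffRows.mono36 (fun k hk => by
          rw [mem_Ico] at hk
          rw [mem_Ioo]
          omega) hFo)
      have k3 := hR j (key j hj).1
      refine hOwn L (by omega) N hLN hNL y hyN (hcone _ (min_le_left _ _)) C D β q j false hq hq' (by omega) (by omega) hDN x
        (hx' _ (min_le_left _ _)) T hT hTb G hG (fun hh => absurd hh (by decide)) fun _ =>
        Pool.Agent.W_7d29a1_HZ.ZE.OffRows.mono36 (fun k hk => by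
          rw [mem_Ioo] at hk
          rw [mem_Ico]
          omega) hGo

end Pool.Agent.W_7d29a1_C0.SS3
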