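import Pool.Agent.W_7d29a1_C0.SiteS3B
import Pool.Agent.W_7d29a1_C0.Eta3D

/-!
MP_7d29a1_pr, [C0], helper3: THE DOUBLE TIES OF THE ROWS OF ONE BLOCK, part 3. `prS`: the price `PrJ` of the indicators `tI` (micro given the
ends of the window of radius `β`, outer given the block `[C, D)`), any radii `2 b0 ≤ b`, `2 b ≤ β` (`b0 = 0` is allowed). `si33`: the input
`SI3` at the concrete frame.
-/

set_option autoImplicit false
set_option linter.unusedSectionVars false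

namespace Pool.Agent.W_7d29a1_C0.SS3

open MeasureTheory ProbabilityTheory Filter Topology Finset
open Pool.Agent.W_7d29a1_F Pool.Agent.W_7d29a1_X Pool.Agent.W_7d29a1_H
open Pool.Agent.W_7d29a1_HS (In wd md)
open Pool.Agent.W_7d29a1_HZ Pool.Agent.W_7d29a1_HZ.R72
open Pool.Agent.W_7d29a1_HZ.Z86
open Pool.Agent.W_7d29a1_C0.P86
open Pool.Agent.W_7d29a1_C0.Wp23
open Pool.Agent.W_7d29a1_C0.Strip80 (OffD)
open Pool.Agent.W_7d29a1_C0.Eta3
open Pool.Agent.W_7d29a1_C0.Mod92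
open Pool.W7d29a1.C0
open Pool.W7d29a1.C0.VT31 Pool.W7d29a1.C0.S1 Pool.W7d29a1.C0.R43
open Pool.Agent.W_7d29a1_C0 Pool.Agent.W_7d29a1_C0.Swap57 Pool.Agent.W_7d29a1_C0.Base5 Pool.Agent.W_7d29a1_C0.BasRow33
open Pool.Agent.W_7d29a1_C0.Row96 Pool.Agent.W_7d29a1_C0.Asm96
open scoped ENNReal

noncomputable section

variable {μ : Measure ℝ} {s : ℝ} {N : ℕ} [IsProbabilityMeasure μ] {c₀ C₀ : ℝ} {n₀ : ℕ}

theorem PrJ.mono {y : ℕ} [Nonempty (Px (Pn N y))] {J : Finset ℕ} {A : Env × Finset ℕ → Px (Pn N y) → ℝ} {P P' e e' : ℝ}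
    (h : PrJ μ s N J A P e) (hP : P ≤ P') (he : e ≤ e') : PrJ μ s N J A P' e' := by
  intro f hm h0 h1 hb
  refine (h f hm h0 h1 hb).trans (add_le_add (mul_le_mul_of_nonneg_right hP ?_) he)
  exact integral_nonneg fun ω => gm_nonneg _ (h0 ω)

/-- The indicator at one side. -/
def iS {y : ℕ} (w : Px (Pn N y) → ℝ) (c d : ℕ) (a : Bool) (b0 b j : ℕ) (M : ℝ) (x : Px (Pn N y)) : ℝ :=
  i1 (Tau w (pJ c d) (m1 a b0 b j) (m2 a b0 b j) M x)

theorem i1_of {A : Prop} (h : A) : i1 A = 1 := if_pos h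

theorem i1_no {A : Prop} (h : ¬ A) : i1 A = 0 := if_neg h

theorem iS_nonneg {y : ℕ} (w : Px (Pn N y) → ℝ) (c d : ℕ) (a : Bool) (b0 b j : ℕ) (M : ℝ) (x : Px (Pn N y)) : 0 ≤ iS w c d a b0 b j M x :=
  i1_nonneg _

theorem iS_le {y : ℕ} (w : Px (Pn N y) → ℝ) (c d : ℕ) (a : Bool) (b0 b j : ℕ) (M : ℝ) (x : Px (Pn N y)) : iS w c d a b0 b j M x ≤ 1 :=
  i1_le_one _

theorem iS_meas {y : ℕ} [Nonempty (Px (Pn N y))] (c d : ℕ) (a : Bool) (b0 b j : ℕ) (M : ℝ) (x : Px (Pn N y)) :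
    Measurable fun ω : Env × Finset ℕ => iS (wm μ s N (Pn N y) ω) c d a b0 b j M x := meas_tau _ _ _ _ x

/-- The real indicator is below the one of the model. -/
theorem iS_ind {y : ℕ} (ω : Env × Finset ℕ) (c d c' d' : ℕ) (a a' : Bool) (b0 b b1 b2 j : ℕ) (M : ℝ) (x : Px (Pn N y)) :
    ENNReal.ofReal (iS (wm μ s N (Pn N y) ω) c d a b0 b j M x * iS (wm μ s N (Pn N y) ω) c' d' a' b1 b2 j M x) ≤
      ind (TauS μ s N y c d (m1 a b0 b j) (m2 a b0 b j) M ω.1 x.1) * ind (TauS μ s N y c' d' (m1 a' b1 b2 j) (m2 a' b1 b2 j) M ω.1 x.1) := by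
  unfold iS
  by_cases h1 : Tau (wm μ s N (Pn N y) ω) (pJ c d) (m1 a b0 b j) (m2 a b0 b j) M x
  · by_cases h2 : Tau (wm μ s N (Pn N y) ω) (pJ c' d') (m1 a' b1 b2 j) (m2 a' b1 b2 j) M x
    · rw [i1_of h1, i1_of h2, ind_of ⟨x.2, h1⟩, ind_of ⟨x.2, h2⟩, mul_one, mul_one, ENNReal.ofReal_one]
    · rw [i1_no h2, mul_zero, ENNReal.ofReal_zero]
      exact zero_le
  · rw [i1_no h1, zero_mul, ENNReal.ofReal_zero]
    exact zero_le

/-- **THE PRICE OF THE DOUBLE TIES OF THE ROWS OF ONE BLOCK** against every weight which is blind to the rows of the block. -/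
theorem prS (h : In μ s c₀ C₀ n₀) : ∀ ε θ : ℝ, 0 < ε → 0 < θ → ∃ δ κ c₂ : ℝ, 0 < δ ∧ 0 < κ ∧ 0 < c₂ ∧
    ∃ L₀ : ℕ, ∀ L : ℕ, L₀ ≤ L → ∀ N : ℕ, L ≤ 16 * N → N ≤ L → ∀ y : ℕ, y ≤ N → |(y : ℝ) - sl μ s * N| ≤ ((L : ℝ) ^ δ * wd' μ s N) →
    ∀ C D b0 b β : ℕ, 2 * b0 ≤ b → 2 * b ≤ β → (L : ℝ) ^ θ ≤ b → C ≤ D → D ≤ N →
    ∀ R : Finset ℕ, (∀ j ∈ R, C + 4 * β ≤ j ∧ j + 4 * β ≤ D) → ∀ M : ℝ, 8 ≤ M → M ≤ (L : ℝ) ^ κ →
    PrJ μ s N (Ioo C D) (fun (ω : Env × Finset ℕ) (x : Px (Pn N y)) => ∑ j ∈ R,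
      tI (wm μ s N (Pn N y) ω) (pJ (j - β) (j + β)) (j - b) (j - b0) (j + b0) (j + b) M x *
        tI (wm μ s N (Pn N y) ω) (pJ C D) (j - β) (j - b) (j + b) (j + β) M x)
      ((L : ℝ) ^ ε * ((D - C : ℕ) * (EE' μ s b)⁻¹ * (EE' μ s β)⁻¹))
      (4 * (Real.exp (-(L : ℝ) ^ c₂) + N * (N + 2) * Real.exp (-M))) := by
  intro ε θ hε hθ
  have hEp : ∀ t, 0 < EE' μ s t := fun t => lt_of_lt_of_le zero_lt_one (le_max_left _ _)
  choose δ κ c₂ hδ hκ hc₂ L₀ hW using fun a sd : Bool => wpsS h a sd (ε / 2) θ (by positivity) hθ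
  obtain ⟨δ', hδ'⟩ : ∃ δ' : ℝ, 0 < δ' ∧ ∀ a sd, δ' ≤ δ a sd :=
    ⟨min (min (δ true true) (δ true false)) (min (δ false true) (δ false false)),
      lt_min (lt_min (hδ _ _) (hδ _ _)) (lt_min (hδ _ _) (hδ _ _)), fun a sd => by cases a <;> cases sd <;> simp⟩
  obtain ⟨κ', hκ'⟩ : ∃ κ' : ℝ, 0 < κ' ∧ ∀ a sd, κ' ≤ κ a sd :=
    ⟨min (min (κ true true) (κ true false)) (min (κ false true) (κ false false)),
      lt_min (lt_min (hκ _ _) (hκ _ _)) (lt_min (hκ _ _) (hκ _ _)), fun a sd => by cases a <;> cases sd <;> simp⟩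
  obtain ⟨c', hc'⟩ : ∃ c' : ℝ, 0 < c' ∧ ∀ a sd, c' ≤ c₂ a sd :=
    ⟨min (min (c₂ true true) (c₂ true false)) (min (c₂ false true) (c₂ false false)),
      lt_min (lt_min (hc₂ _ _) (hc₂ _ _)) (lt_min (hc₂ _ _) (hc₂ _ _)), fun a sd => by cases a <;> cases sd <;> simp⟩
  obtain ⟨L₄, h4⟩ := ev_mul86 4 (show ε / 2 < ε by linarith)
  refine ⟨δ', κ', c', hδ'.1, hκ'.1, hc'.1, L₀ true true + L₀ true false + L₀ false true + L₀ false false + L₄ + 1, ?_⟩
  intro L hL N hLN hNL y hyN hyc C D b0 b β hb0 hbβ hbL hCD hDN R hR M hM hML f hfm hf0 hf1 hfb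
  have hL1 : (1 : ℝ) ≤ L := by exact_mod_cast (show 1 ≤ L by omega)
  have hL0 : ∀ a sd, L₀ a sd ≤ L := fun a sd => by cases a <;> cases sd <;> omega
  have hwd : ∀ n, 0 < wd' μ s n := fun n => lt_of_lt_of_le zero_lt_one (le_max_left _ _)
  have hne : Nonempty (Px (Pn N y)) := ne_Pn hyN
  obtain ⟨r, hr⟩ : ∃ r : ℝ, r = (L : ℝ) ^ (ε / 2) * ((D - C : ℕ) * (EE' μ s b)⁻¹ * (EE' μ s β)⁻¹) := ⟨_, rfl⟩
  obtain ⟨p, hp⟩ : ∃ p : ℝ, p = Real.exp (-(L : ℝ) ^ c') + N * (N + 2) * Real.exp (-M) := ⟨_, rfl⟩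
  have hi : 0 ≤ (D - C : ℕ) * (EE' μ s b)⁻¹ * (EE' μ s β)⁻¹ := by
    have h1 := (inv_pos.2 (hEp b)).le
    have h2 := (inv_pos.2 (hEp β)).le
    positivity
  have hr0 : 0 ≤ r := by
    rw [hr]
    exact mul_nonneg (by positivity) hi
  have hp0 : 0 ≤ p := by
    rw [hp]
    positivity
  obtain ⟨aj, haj⟩ : ∃ aj : Bool → Bool → ℕ → Env × Finset ℕ → Px (Pn N y) → ℝ, aj = fun a sd j ω x =>
    iS (wm μ s N (Pn N y) ω) (j - β) (j + β) a b0 b j M x * iS (wm μ s N (Pn N y) ω) C D sd b β j M x := ⟨_, rfl⟩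
  have aj0 : ∀ a sd j ω x, 0 ≤ aj a sd j ω x := fun a sd j ω x => by
    rw [haj]
    exact mul_nonneg (iS_nonneg _ _ _ _ _ _ _ _ _) (iS_nonneg _ _ _ _ _ _ _ _ _)
  have aj1 : ∀ a sd j ω x, aj a sd j ω x ≤ 1 := fun a sd j ω x => by
    rw [haj]
    exact mul_le_one₀ (iS_le _ _ _ _ _ _ _ _ _) (iS_nonneg _ _ _ _ _ _ _ _ _) (iS_le _ _ _ _ _ _ _ _ _)
  have ajm : ∀ a sd j x, Measurable fun ω => aj a sd j ω x := fun a sd j x => by
    rw [haj]
    exact (iS_meas _ _ _ _ _ _ _ x).mul (iS_meas _ _ _ _ _ _ _ x)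
  have hone : ∀ a sd, ∑ j ∈ R, ∫ ω, gm (wm μ s N (Pn N y) ω) (fun x => f ω x * aj a sd j ω x) ∂(Pm μ N) ≤
      r * ∫ ω, gm (wm μ s N (Pn N y) ω) (f ω) ∂(Pm μ N) + p := by
    intro a sd
    have h1 := hW a sd L (hL0 a sd) N hLN hNL y hyN
      (hyc.trans (mul_le_mul_of_nonneg_right (Real.rpow_le_rpow_of_exponent_le hL1 (hδ'.2 a sd)) (hwd N).le)) C D b0 b β hb0 hbβ hbL hCD hDN
      R hR M hM (hML.trans (Real.rpow_le_rpow_of_exponent_le hL1 (hκ'.2 a sd)))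
    have h2 := h1.mono (r' := ENNReal.ofReal r) (p' := ENNReal.ofReal p) (A' := fun j η S =>
        ind (TauS μ s N y (j - β) (j + β) (m1 a b0 b j) (m2 a b0 b j) M η S) * ind (TauS μ s N y C D (m1 sd b β j) (m2 sd b β j) M η S))
      (by rw [hr]) (ENNReal.ofReal_le_ofReal (by
        rw [hp]
        exact add_le_add (Pool.Agent.W_7d29a1_Z.NumI77.exp_mono (hc'.2 a sd) (by omega)) le_rfl)) (fun _ _ _ _ _ _ => le_rfl)
      (Subset.refl (Ioo C D))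
    have h3 := wps_Pm hyN hr0 hp0 (I := R) (A := fun _ j η S =>
        ind (TauS μ s N y (j - β) (j + β) (m1 a b0 b j) (m2 a b0 b j) M η S) * ind (TauS μ s N y C D (m1 sd b β j) (m2 sd b β j) M η S))
      (J := Ioo C D) (fun _ _ => h2) (a := fun j => aj a sd j) (fun j _ ω x => aj0 a sd j ω x) (K := 1) (fun j _ ω x => aj1 a sd j ω x)
      (fun j _ x => ajm a sd j x) (fun j _ ω x => by
        rw [haj]
        exact iS_ind ω _ _ _ _ _ _ _ _ _ _ _ _ x) (D := f) (M := 1) one_pos (fun ω x => by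
        rw [abs_of_nonneg (hf0 ω x)]
        exact hf1 ω x) hfm (fun η η' A x hq => hfb η η' A x hq)
    have e1 : ∀ ω x, |f ω x| = f ω x := fun ω x => abs_of_nonneg (hf0 ω x)
    simp only [e1, one_mul] at h3
    exact h3
  have hint : ∀ a sd j, Integrable (fun ω => gm (wm μ s N (Pn N y) ω) (fun x => f ω x * aj a sd j ω x)) (Pm μ N) := fun a sd j =>
    int_gm3 (M := 1) (fun x => (hfm x).mul (ajm a sd j x)) fun ω x => by
      rw [abs_of_nonneg (mul_nonneg (hf0 ω x) (aj0 a sd j ω x))]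
      exact mul_le_one₀ (hf1 ω x) (aj0 a sd j ω x) (aj1 a sd j ω x)
  have e0 : (fun ω => gm (wm μ s N (Pn N y) ω) (fun x => f ω x * ∑ j ∈ R,
      tI (wm μ s N (Pn N y) ω) (pJ (j - β) (j + β)) (j - b) (j - b0) (j + b0) (j + b) M x *
        tI (wm μ s N (Pn N y) ω) (pJ C D) (j - β) (j - b) (j + b) (j + β) M x)) =
      fun ω => ∑ j ∈ R, (gm (wm μ s N (Pn N y) ω) (fun x => f ω x * aj false false j ω x) +
        gm (wm μ s N (Pn N y) ω) (fun x => f ω x * aj false true j ω x) +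
        (gm (wm μ s N (Pn N y) ω) (fun x => f ω x * aj true false j ω x) +
        gm (wm μ s N (Pn N y) ω) (fun x => f ω x * aj true true j ω x))) := by
    funext ω
    have e1 : (fun x => f ω x * ∑ j ∈ R,
      tI (wm μ s N (Pn N y) ω) (pJ (j - β) (j + β)) (j - b) (j - b0) (j + b0) (j + b) M x *
        tI (wm μ s N (Pn N y) ω) (pJ C D) (j - β) (j - b) (j + b) (j + β) M x) =
      fun x => ∑ j ∈ R, (f ω x * aj false false j ω x + f ω x * aj false true j ω x + (f ω x * aj true false j ω x +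
        f ω x * aj true true j ω x)) := by
      funext x
      rw [mul_sum]
      refine sum_congr rfl fun j _ => ?_
      have e2 : tI (wm μ s N (Pn N y) ω) (pJ (j - β) (j + β)) (j - b) (j - b0) (j + b0) (j + b) M x =
        iS (wm μ s N (Pn N y) ω) (j - β) (j + β) false b0 b j M x + iS (wm μ s N (Pn N y) ω) (j - β) (j + β) true b0 b j M x := rfl
      have e3 : tI (wm μ s N (Pn N y) ω) (pJ C D) (j - β) (j - b) (j + b) (j + β) M x =
        iS (wm μ s N (Pn N y) ω) C D false b β j M x + iS (wm μ s N (Pn N y) ω) C D true b β j M x := rfl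
      rw [e2, e3, haj]
      ring
    rw [e1, gm_sum5]
    refine sum_congr rfl fun j _ => ?_
    rw [gm_add5, gm_add5, gm_add5]
  rw [e0]
  refine (integral_finsetSum R (f := fun j ω => gm (wm μ s N (Pn N y) ω) (fun x => f ω x * aj false false j ω x) +
        gm (wm μ s N (Pn N y) ω) (fun x => f ω x * aj false true j ω x) +
        (gm (wm μ s N (Pn N y) ω) (fun x => f ω x * aj true false j ω x) +
        gm (wm μ s N (Pn N y) ω) (fun x => f ω x * aj true true j ω x))) fun j _ => ((hint false false j).add (hint false true j)).add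
    ((hint true false j).add (hint true true j))).le.trans ?_
  have e5 : ∀ j ∈ R, ∫ ω, (gm (wm μ s N (Pn N y) ω) (fun x => f ω x * aj false false j ω x) +
        gm (wm μ s N (Pn N y) ω) (fun x => f ω x * aj false true j ω x) +
        (gm (wm μ s N (Pn N y) ω) (fun x => f ω x * aj true false j ω x) +
        gm (wm μ s N (Pn N y) ω) (fun x => f ω x * aj true true j ω x))) ∂(Pm μ N) =
      ∫ ω, gm (wm μ s N (Pn N y) ω) (fun x => f ω x * aj false false j ω x) ∂(Pm μ N) +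
      ∫ ω, gm (wm μ s N (Pn N y) ω) (fun x => f ω x * aj false true j ω x) ∂(Pm μ N) +
      (∫ ω, gm (wm μ s N (Pn N y) ω) (fun x => f ω x * aj true false j ω x) ∂(Pm μ N) +
      ∫ ω, gm (wm μ s N (Pn N y) ω) (fun x => f ω x * aj true true j ω x) ∂(Pm μ N)) := fun j _ => by
    rw [← integral_add (hint false false j) (hint false true j), ← integral_add (hint true false j) (hint true true j)]
    exact integral_add ((hint false false j).add (hint false true j)) ((hint true false j).add (hint true true j))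
  rw [sum_congr rfl e5, sum_add_distrib, sum_add_distrib, sum_add_distrib]
  have g1 := hone false false
  have g2 := hone false true
  have g3 := hone true false
  have g4 := hone true true
  have hI0 : 0 ≤ ∫ ω, gm (wm μ s N (Pn N y) ω) (f ω) ∂(Pm μ N) := integral_nonneg fun ω => gm_nonneg _ (hf0 ω)
  have h5 : 4 * r ≤ (L : ℝ) ^ ε * ((D - C : ℕ) * (EE' μ s b)⁻¹ * (EE' μ s β)⁻¹) := by
    rw [hr, ← mul_assoc]
    exact mul_le_mul_of_nonneg_right (h4 L (by omega)) hi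
  have h6 := mul_le_mul_of_nonneg_right h5 hI0
  rw [← hp]
  linarith

end

end Pool.Agent.W_7d29a1_C0.SS3
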