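import Pool.Agent.W_7d29a1_C0.CrossW81
import Pool.Agent.W_7d29a1_C0.CumB82
import Pool.Agent.W_7d29a1_C0.Rob43B

/-!
MP_7d29a1_pr, [CURV0] / [C0], leaf E5.3 (helper1): SIZES of the pieces of the change of the base window, pathwise.

`w` is the symmetric log weight of the row, `w + t g` the weight at the tilt `t` (`t = a`: the actual one), `q` = outside of the window
`W`, `p` = outside of the larger window, `u = w + τ g` the reference weight. `osc w p f x` is the mean of `|f z - f z'|` for two replicas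
given `p x`. Every piece (`Zr` minus its mean over the sign, the half difference over the sign, `N1`, `N2`) has a trivial bound, a bound by
a constant times the conditional mass `T` of a non meeting pair (`size_*`), hence a bound by indicator plus tiny (`dich`, `dich2`).
-/

set_option autoImplicit false
set_option linter.unusedSectionVars false

namespace Pool.W7d29a1.C0.S1

open Finset MeasureTheory Pool.Agent.W_7d29a1_C0.Swap57 Pool.Agent.W_7d29a1_C0
open Pool.W7d29a1.C0 Pool.W7d29a1.C0.VT31 Pool.W7d29a1.C0.R43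

noncomputable section

section Osc

variable {X : Type*} [Fintype X] [Nonempty X] {Y Z Z' : Type*} [DecidableEq Y] [DecidableEq Z] [DecidableEq Z']

/-- The mean oscillation of `f` on the fibre of `p`. -/
def osc (w : X → ℝ) (p : X → Y) (f : X → ℝ) (x : X) : ℝ := cE2 w p (fun z z' => |f z - f z'|) x x

theorem osc_nonneg (w : X → ℝ) (p : X → Y) (f : X → ℝ) (x : X) : 0 ≤ osc w p f x := cE2_nonneg w p (fun _ _ => abs_nonneg _) x x

theorem osc_le (w : X → ℝ) (p : X → Y) {f : X → ℝ} {D : ℝ} (h : ∀ z z', |f z - f z'| ≤ D) (x : X) : osc w p f x ≤ D := by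
  have e := cE2_mono w p (K := fun z z' => |f z - f z'|) (K' := fun _ _ => D * 1) (fun z z' => by rw [mul_one]; exact h z z') x x
  have e1 := cE2_mul w p D (fun _ _ => (1 : ℝ)) x x
  rw [cE2_one] at e1
  exact e.trans (e1.trans (mul_one D)).le

/-- If the difference is controlled by the event `K` then so is the oscillation on a larger fibre. -/
theorem osc_dif (w : X → ℝ) {p : X → Y} {q : X → Z} (hc : Crs p q) {K : X → X → ℝ} {L : ℝ} {f : X → ℝ} (h : Dif w q K L f)
    (x : X) : osc w p f x ≤ L * cE2 w p K x x := by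
  have e := cE2_mono w p (K := fun z z' => |f z - f z'|) (K' := fun z z' => L * cE2 w q K z z') h x x
  rw [cE2_mul, cE2_tower w hc] at e
  exact e

theorem osc_tilt {w A : X → ℝ} {D : ℝ} (hA : ∀ x, |A x| ≤ D) (p : X → Y) (f : X → ℝ) (x : X) :
    osc (w + A) p f x ≤ Real.exp (4 * D) * osc w p f x := cE2_tilt hA p (fun _ _ => abs_nonneg _) x x

theorem abs_cE_le (w : X → ℝ) (p : X → Y) (f : X → ℝ) (x : X) : |cE w p f x| ≤ cE w p (fun z => |f z|) x := by
  rw [abs_le]
  constructor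
  · have e := cE_mono w p (f := -f) (g := fun z => |f z|) (fun z => neg_le_abs _) x
    rw [cE_neg, Pi.neg_apply] at e
    linarith
  · exact cE_mono w p (fun z => le_abs_self _) x

theorem cE_const (w : X → ℝ) (p : X → Y) (c : ℝ) : cE w p (fun _ => c) = fun _ => c :=
  cE_of_meas w (p := p) (h := fun _ => c) (fun _ _ _ => rfl)

theorem abs_sub_cE (w : X → ℝ) (p : X → Y) (f : X → ℝ) (c : ℝ) (x : X) :
    |c - cE w p f x| ≤ cE w p (fun z => |c - f z|) x := by
  have e : cE w p (fun z => c - f z) x = c - cE w p f x := by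
    have h := congrFun (cE_sub w p (fun _ => c) f) x
    rw [cE_const] at h
    exact h
  rw [← e]
  exact abs_cE_le w p _ x

/-- Two measures: the conditional means differ by the oscillation. -/
theorem cE_tilt_sub {w A : X → ℝ} {D : ℝ} (hA : ∀ x, |A x| ≤ D) (p : X → Y) (f : X → ℝ) (x : X) :
    |cE (w + A) p f x - cE w p f x| ≤ Real.exp (2 * D) * osc w p f x := by
  rw [abs_sub_comm]
  refine (abs_sub_cE (w + A) p f (cE w p f x) x).trans ?_
  refine (cE_tilt hA p (fun z => abs_nonneg _) x).trans (mul_le_mul_of_nonneg_left ?_ (Real.exp_pos _).le)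
  refine cE_mono w p (fun z => ?_) x
  rw [abs_sub_comm]
  exact abs_sub_cE w p f (f z) x

theorem abs_cE2_le (w : X → ℝ) (p : X → Y) (K : X → X → ℝ) (x x' : X) :
    |cE2 w p K x x'| ≤ cE2 w p (fun z z' => |K z z'|) x x' :=
  (abs_cE_le w p _ x).trans (cE_mono w p (fun z => abs_cE_le w p (K z) x') x)

theorem cE2_prod (w : X → ℝ) (p : X → Y) (F H : X → ℝ) (x x' : X) :
    cE2 w p (fun z z' => F z * H z') x x' = cE w p F x * cE w p H x' := by
  unfold cE2
  have e1 : (fun z => cE w p (fun z' => F z * H z') x') = cE w p H x' • F := by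
    funext z
    have h := congrFun (cE_smul w p (F z) H) x'
    rw [Pi.smul_apply, smul_eq_mul, mul_comm (cE w p H x')]
    exact h
  rw [e1, cE_smul, Pi.smul_apply, smul_eq_mul, mul_comm]

/-- The conditional covariance through two replicas. -/
theorem cC_two (w : X → ℝ) (p : X → Y) (f h : X → ℝ) (x : X) :
    cC w p f h x = 1 / 2 * cE2 w p (fun z z' => (f z - f z') * (h z - h z')) x x := by
  have a1 := cE2_prod w p (f * h) (fun _ => 1) x x
  have a2 := cE2_prod w p (fun _ => 1) (f * h) x x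
  have a3 := cE2_prod w p f h x x
  have a4 := cE2_prod w p h f x x
  have b1 := cE2_add w p (fun z z' => (f * h) z * (fun _ => (1 : ℝ)) z') (fun z z' => (fun _ => (1 : ℝ)) z * (f * h) z') x x
  have b2 := cE2_add w p (fun z z' => (-1) * (f z * h z')) (fun z z' => (-1) * (h z * f z')) x x
  have b3 := cE2_add w p (fun z z' => (f * h) z * (fun _ => (1 : ℝ)) z' + (fun _ => (1 : ℝ)) z * (f * h) z')
    (fun z z' => (-1) * (f z * h z') + (-1) * (h z * f z')) x x
  have c1 := cE2_mul w p (-1) (fun z z' => f z * h z') x x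
  have c2 := cE2_mul w p (-1) (fun z z' => h z * f z') x x
  have e := cE2_congr w p (K := fun z z' => (f z - f z') * (h z - h z'))
    (K' := fun z z' => ((f * h) z * (fun _ => (1 : ℝ)) z' + (fun _ => (1 : ℝ)) z * (f * h) z') +
      ((-1) * (f z * h z') + (-1) * (h z * f z'))) (fun z z' => by simp only [Pi.mul_apply]; ring) x x
  rw [e, b3, b1, b2, c1, c2, a1, a2, a3, a4, cE_one]
  unfold cC
  rw [Pi.sub_apply, Pi.mul_apply]
  ring

theorem abs_cC_le (w : X → ℝ) (p : X → Y) (f : X → ℝ) {h : X → ℝ} {D : ℝ} (hD : ∀ z z', |h z - h z'| ≤ D) (x : X) :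
    |cC w p f h x| ≤ D / 2 * osc w p f x := by
  have h1 : |cE2 w p (fun z z' => (f z - f z') * (h z - h z')) x x| ≤ D * osc w p f x := by
    refine (abs_cE2_le w p _ x x).trans ?_
    have e := cE2_mul w p D (fun z z' => |f z - f z'|) x x
    refine le_trans ?_ e.le
    refine cE2_mono w p (fun z z' => ?_) x x
    rw [abs_mul, mul_comm]
    exact mul_le_mul_of_nonneg_right (hD z z') (abs_nonneg _)
  rw [cC_two, abs_mul, abs_of_pos (by norm_num : (0 : ℝ) < 1 / 2)]
  linarith

theorem osd {f : X → ℝ} {M : ℝ} (h : ∀ x, |f x| ≤ M) (z z' : X) : |f z - f z'| ≤ 2 * M := by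
  have a := abs_le.1 (h z)
  have b := abs_le.1 (h z')
  rw [abs_le]
  constructor <;> linarith [a.1, a.2, b.1, b.2]

theorem abs_cC_le' (w : X → ℝ) (p : X → Y) (f : X → ℝ) {h : X → ℝ} {M : ℝ} (hM : ∀ z, |h z| ≤ M) (x : X) :
    |cC w p f h x| ≤ M * osc w p f x := by
  have e := abs_cC_le w p f (osd hM) x
  rwa [mul_div_cancel_left₀ M (by norm_num : (2 : ℝ) ≠ 0)] at e

theorem osc_two_le (w : X → ℝ) (p : X → Y) {f : X → ℝ} (hf : ∀ z, 0 ≤ f z) (x : X) : osc w p f x ≤ 2 * cE w p f x := by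
  have b := cE2_add w p (fun z z' => f z * (fun _ => (1 : ℝ)) z') (fun z z' => (fun _ => (1 : ℝ)) z * f z') x x
  rw [cE2_prod, cE2_prod, cE_one] at b
  have e := cE2_mono w p (K := fun z z' => |f z - f z'|)
    (K' := fun z z' => f z * (fun _ => (1 : ℝ)) z' + (fun _ => (1 : ℝ)) z * f z') (fun z z' => by
      show |f z - f z'| ≤ f z * 1 + 1 * f z'
      rw [abs_le]
      constructor <;> linarith [hf z, hf z']) x x
  refine e.trans (b.le.trans (le_of_eq ?_))
  ring

/-! ### The fourth cumulant -/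

theorem gm_rs (w : X → ℝ) (p : X → Y) (f : X → ℝ) (x : X) [Nonempty {x' : X // pr p x' = pr p x}] :
    gm (rs (pr p) (pr p x) w) (rs (pr p) (pr p x) f) = cE w p f x := by
  rw [← cj_one_apply p w f x, gm_eq_cm]
  rfl

theorem PP_gm {W : Type*} [Fintype W] [Nonempty W] (w : W → ℝ) (Q : W → W → ℝ) : PP w Q = gm w fun y => gm w (Q y) := by
  rw [PP_eq]
  unfold gm
  rw [sq, ← div_div]
  congr 1
  rw [sum_div]
  refine sum_congr rfl fun y _ => ?_
  rw [← mul_div_assoc, mul_sum]
  congr 1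
  exact sum_congr rfl fun z _ => by ring

theorem PP_osc (w : X → ℝ) (p : X → Y) (γ : X → ℝ) (x : X) [Nonempty {x' : X // pr p x' = pr p x}] :
    PP (rs (pr p) (pr p x) w) (fun y z => |rs (pr p) (pr p x) γ y - rs (pr p) (pr p x) γ z|) = osc w p γ x := by
  rw [PP_gm]
  have e : (fun y : {x' : X // pr p x' = pr p x} => gm (rs (pr p) (pr p x) w)
      ((fun y z => |rs (pr p) (pr p x) γ y - rs (pr p) (pr p x) γ z|) y)) =
      rs (pr p) (pr p x) (fun y => cE w p (fun z => |γ y - γ z|) x) := by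
    funext y
    exact gm_rs w p (fun z => |γ y.1 - γ z|) x
  rw [e, gm_rs]
  rfl

theorem abs_kX4_le (w : X → ℝ) (p : X → Y) {g : X → ℝ} (γ : X → ℝ) {M : ℝ} (hM : 0 ≤ M) (hg : ∀ x, |g x| ≤ M) (x : X) :
    |kX p [g, g, γ, g] w x| ≤ 24 * M ^ 3 * osc w p γ x := by
  have hne : Nonempty {x' : X // pr p x' = pr p x} := nonempty_fib (pr_surj p) (pr p x)
  set W := rs (pr p) (pr p x) w with hW
  set G := rs (pr p) (pr p x) g with hG
  set C := rs (pr p) (pr p x) γ with hC
  have h0 : kX p [g, g, γ, g] w x = cm ([G, G] ++ [C, G]) W := rfl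
  have h1 := abs_cm_le [G, G] C G W
  have h2 := PP_cs_one W C G (D := 2 * M) (fun y z => osd (f := G) (fun y => hg y.1) y z)
  have h3 : PP W (fun y z => |C y - C z|) = osc w p γ x := PP_osc w p γ x
  have h4 : ‖G‖ ≤ M := (pi_norm_le_iff_of_nonneg hM).2 fun y => by
    rw [Real.norm_eq_abs]
    exact hg y.1
  have h5 : cst [G, G] ≤ 12 * M ^ 2 := by
    have e : cst [G, G] = 12 * ‖G‖ ^ 2 := by
      simp only [cst, List.length_cons, List.length_nil]
      push_cast
      ring
    rw [e]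
    have := pow_le_pow_left₀ (norm_nonneg G) h4 2
    linarith
  rw [h0]
  have o0 := osc_nonneg w p γ x
  calc |cm ([G, G] ++ [C, G]) W| ≤ cst [G, G] * PP W (fun y z => |C y - C z| * |G y - G z|) := h1
    _ ≤ 12 * M ^ 2 * (2 * M * osc w p γ x) := by
        refine mul_le_mul h5 (h2.trans_eq (by rw [h3])) (PP_nonneg W fun y z => by positivity) (by positivity)
    _ = 24 * M ^ 3 * osc w p γ x := by ring

/-! ### Tilts along `g` -/

section Line

variable (w : X → ℝ) {g : X → ℝ} {M τ : ℝ} (hg : ∀ x, |g x| ≤ M) (hτ : |τ| ≤ 1)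
include hg hτ

theorem tilt_le {t : ℝ} (ht : |t| ≤ 1) (x : X) : |((t - τ) • g) x| ≤ 2 * M := by
  rw [Pi.smul_apply, smul_eq_mul, abs_mul]
  have h1 : |t - τ| ≤ 2 := (abs_sub _ _).trans (by linarith)
  exact mul_le_mul h1 (hg x) (abs_nonneg _) (by norm_num)

omit hg hτ in
theorem line_eq (t : ℝ) : w + t • g = (w + τ • g) + (t - τ) • g := by
  rw [add_assoc, ← add_smul]
  congr 2
  ring

theorem ln_cE (p : X → Y) (f : X → ℝ) (x : X) {t : ℝ} (ht : |t| ≤ 1) :
    |cE (w + t • g) p f x - cE (w + τ • g) p f x| ≤ Real.exp (4 * M) * osc (w + τ • g) p f x := by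
  rw [line_eq w (τ := τ) t]
  refine (cE_tilt_sub (tilt_le hg hτ ht) p f x).trans (le_of_eq ?_)
  congr 2
  ring

theorem ln_cE' (p : X → Y) {f : X → ℝ} (hf : ∀ x, 0 ≤ f x) (x : X) {t : ℝ} (ht : |t| ≤ 1) :
    cE (w + t • g) p f x ≤ Real.exp (4 * M) * cE (w + τ • g) p f x := by
  rw [line_eq w (τ := τ) t]
  refine (cE_tilt (tilt_le hg hτ ht) p hf x).trans (le_of_eq ?_)
  congr 2
  ring

theorem ln_cE2 (p : X → Y) {K : X → X → ℝ} (hK : ∀ z z', 0 ≤ K z z') (x x' : X) {t : ℝ} (ht : |t| ≤ 1) :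
    cE2 (w + t • g) p K x x' ≤ Real.exp (8 * M) * cE2 (w + τ • g) p K x x' := by
  rw [line_eq w (τ := τ) t]
  refine (cE2_tilt (tilt_le hg hτ ht) p hK x x').trans (le_of_eq ?_)
  congr 2
  ring

theorem ln_osc (p : X → Y) (f : X → ℝ) (x : X) {t : ℝ} (ht : |t| ≤ 1) :
    osc (w + t • g) p f x ≤ Real.exp (8 * M) * osc (w + τ • g) p f x := ln_cE2 w hg hτ p (fun _ _ => abs_nonneg _) x x ht

theorem ln_dif {p : X → Y} {K : X → X → ℝ} (hK : ∀ z z', 0 ≤ K z z') {L : ℝ} (hL : 0 ≤ L) {f : X → ℝ} {t : ℝ} (ht : |t| ≤ 1)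
    (h : Dif (w + t • g) p K L f) : Dif (w + τ • g) p K (L * Real.exp (8 * M)) f := fun x x' => by
  refine (h x x').trans ?_
  rw [mul_assoc]
  exact mul_le_mul_of_nonneg_left (ln_cE2 w hg hτ p hK x x' ht) hL

end Line

end Osc

section Pieces

variable {X : Type*} [Fintype X] [Nonempty X] {Y Z Z' : Type*} [DecidableEq Y] [DecidableEq Z] [DecidableEq Z']
variable (w : X → ℝ) {g : X → ℝ} {M τ : ℝ} (hM : 1 ≤ M) (hg : ∀ x, |g x| ≤ M) (hτ : |τ| ≤ 1)
include hM hg hτ

/-- The conditional variance at any tilt. -/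
theorem size_cV (p : X → Y) {γ : X → ℝ} (hγ : ∀ x, |γ x| ≤ M) (x : X) {t : ℝ} (ht : |t| ≤ 1) :
    cV (w + t • g) p γ x ≤ M * Real.exp (8 * M) * osc (w + τ • g) p γ x := by
  have h1 := (le_abs_self _).trans (abs_cC_le' (w + t • g) p γ hγ x)
  refine h1.trans ?_
  rw [mul_assoc]
  exact mul_le_mul_of_nonneg_left (ln_osc w hg hτ p γ x ht) (by linarith)

/-- `Zr` at any tilt. -/
theorem size_Zr (p : X → Y) {γ : X → ℝ} (hγ : ∀ x, |γ x| ≤ M) (x : X) {t a : ℝ} (ht : |t| ≤ 1) (ha : |a| ≤ 1) :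
    |Zr (w + t • g) p a γ x - cE (w + τ • g) p γ x| ≤ 2 * M * Real.exp (8 * M) * osc (w + τ • g) p γ x := by
  have h1 := ln_cE w hg hτ p γ x ht
  have h2 := size_cV w hM hg hτ p hγ x ht
  have h3 := cV_nonneg (w + t • g) p γ x
  have e1 : Zr (w + t • g) p a γ x - cE (w + τ • g) p γ x =
      (cE (w + t • g) p γ x - cE (w + τ • g) p γ x) - a / 3 * cV (w + t • g) p γ x := by
    unfold Zr
    rw [Pi.sub_apply, Pi.smul_apply, smul_eq_mul]
    ring
  have h4 : |a / 3 * cV (w + t • g) p γ x| ≤ 1 / 3 * (M * Real.exp (8 * M) * osc (w + τ • g) p γ x) := by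
    rw [abs_mul, abs_div, abs_of_pos (by norm_num : (0 : ℝ) < 3), abs_of_nonneg h3]
    exact mul_le_mul (by linarith) h2 h3 (by norm_num)
  have o0 := osc_nonneg (w + τ • g) p γ x
  have h5 : Real.exp (4 * M) ≤ M * Real.exp (8 * M) := by
    have a1 : Real.exp (4 * M) ≤ Real.exp (8 * M) := Real.exp_le_exp.2 (by linarith)
    have a2 : 1 * Real.exp (8 * M) ≤ M * Real.exp (8 * M) := mul_le_mul_of_nonneg_right hM (Real.exp_pos _).le
    linarith
  have h6 := mul_le_mul_of_nonneg_right h5 o0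
  rw [e1]
  refine (abs_sub _ _).trans ?_
  have h7 : 0 ≤ M * Real.exp (8 * M) * osc (w + τ • g) p γ x := by
    have : 0 ≤ M := by linarith
    have := (Real.exp_pos (8 * M)).le
    positivity
  linarith

/-- The half difference over the sign (`M_j`). -/
theorem size_Dc (p : X → Y) {γ : X → ℝ} (hγ : ∀ x, |γ x| ≤ M) (x : X) :
    |Dc (fun a => Zr (w + a • g) p a γ x)| ≤ 2 * M * Real.exp (8 * M) * osc (w + τ • g) p γ x := by
  have h1 := size_Zr w hM hg hτ p hγ x (t := 1) (a := 1) (by norm_num) (by norm_num)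
  have h2 := size_Zr w hM hg hτ p hγ x (t := -1) (a := -1) (by norm_num) (by norm_num)
  unfold Dc
  rw [abs_div, abs_of_pos (by norm_num : (0 : ℝ) < 2), div_le_iff₀ (by norm_num : (0 : ℝ) < 2)]
  have e : Zr (w + (1 : ℝ) • g) p 1 γ x - Zr (w + (-1 : ℝ) • g) p (-1) γ x =
      (Zr (w + (1 : ℝ) • g) p 1 γ x - cE (w + τ • g) p γ x) - (Zr (w + (-1 : ℝ) • g) p (-1) γ x - cE (w + τ • g) p γ x) := by
    ring
  beta_reduce
  rw [e]
  refine (abs_sub _ _).trans ?_
  linarith

/-- The fourth cumulant at any tilt. -/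
theorem size_kX4 (p : X → Y) (γ : X → ℝ) (x : X) {t : ℝ} (ht : |t| ≤ 1) :
    |kX p [g, g, γ, g] (w + t • g) x| ≤ 24 * M ^ 3 * Real.exp (8 * M) * osc (w + τ • g) p γ x := by
  refine (abs_kX4_le (w + t • g) p γ (by linarith) hg x).trans ?_
  rw [mul_assoc (24 * M ^ 3)]
  have : 0 ≤ M := by linarith
  exact mul_le_mul_of_nonneg_left (ln_osc w hg hτ p γ x ht) (by positivity)

omit hM hg hτ in
theorem abs_int_le {φ : ℝ → ℝ} {B : ℝ} (h : ∀ t : ℝ, |t| ≤ 1 → |φ t| ≤ B) : |∫ t in (-1 : ℝ)..1, φ t| ≤ 2 * B := by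
  have e := intervalIntegral.norm_integral_le_of_norm_le_const (a := (-1 : ℝ)) (b := 1) (f := φ) (C := B) fun t ht => by
    rw [Real.norm_eq_abs]
    refine h t ?_
    rw [Set.uIoc_of_le (by norm_num : (-1 : ℝ) ≤ 1)] at ht
    rw [abs_le]
    exact ⟨ht.1.le, ht.2⟩
  rw [Real.norm_eq_abs] at e
  refine e.trans (le_of_eq ?_)
  norm_num
  ring

/-- `N1`. -/
theorem size_N1 (p : X → Y) (γ : X → ℝ) (x : X) :
    |(1 / 12) * (∫ t in (-1 : ℝ)..1, t * (1 - t ^ 2) * kX p [g, g, γ, g] (w + t • g) x)| ≤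
      4 * M ^ 3 * Real.exp (8 * M) * osc (w + τ • g) p γ x := by
  have h := abs_int_le (φ := fun t => t * (1 - t ^ 2) * kX p [g, g, γ, g] (w + t • g) x)
    (B := 24 * M ^ 3 * Real.exp (8 * M) * osc (w + τ • g) p γ x) fun t ht => by
      have h1 : |t * (1 - t ^ 2)| ≤ 1 := by
        have h2 : t ^ 2 ≤ 1 := by
          rw [← sq_abs]
          exact pow_le_one₀ (abs_nonneg t) ht
        have h3 : |1 - t ^ 2| ≤ 1 := by
          rw [abs_le]
          constructor <;> nlinarith [sq_nonneg t]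
        rw [abs_mul]
        exact mul_le_one₀ ht (abs_nonneg _) h3
      rw [abs_mul]
      calc |t * (1 - t ^ 2)| * |kX p [g, g, γ, g] (w + t • g) x| ≤ 1 * |kX p [g, g, γ, g] (w + t • g) x| :=
            mul_le_mul_of_nonneg_right h1 (abs_nonneg _)
        _ ≤ _ := by
            rw [one_mul]
            exact size_kX4 w hM hg hτ p γ x ht
  rw [abs_mul, abs_of_pos (by norm_num : (0 : ℝ) < 1 / 12)]
  linarith

/-! ### The response of the larger window -/

omit hM hg hτ in
theorem Mc_le {φ : ℝ → ℝ} {B : ℝ} (h : ∀ t : ℝ, |t| ≤ 1 → |φ t| ≤ B) : |Mc φ| ≤ B := by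
  have e := abs_int_le h
  unfold Mc
  rw [abs_mul, abs_of_pos (by norm_num : (0 : ℝ) < 1 / 2)]
  linarith

/-- The response of the larger window against the conditional mean of the response of the window, both exact. -/
theorem size_gb {p : X → Y} {q : X → Z} (hc : Crs p q) (x : X) {B : ℝ}
    (hB : ∀ s : ℝ, |s| ≤ 1 → osc (w + τ • g) p (cE (w + s • g) q g) x ≤ B) :
    |gb81 w g p x - cE (w + τ • g) p (gb81 w g q) x| ≤ Real.exp (4 * M) * B := by
  have e1 : cE (w + τ • g) p (gb81 w g q) x = Mc fun s => cE (w + τ • g) p (cE (w + s • g) q g) x :=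
    lin81 (Lx (w + τ • g) p x) w g q
  have e2 : gb81 w g p x = Mc fun s => cE (w + s • g) p (cE (w + s • g) q g) x := by
    rw [gb81_apply]
    congr 1
    funext s
    rw [cE_tower _ hc]
  have c1 : Continuous fun s : ℝ => cE (w + τ • g) p (cE (w + s • g) q g) x :=
    (Lx (w + τ • g) p x).continuous.comp (continuous_cE_line q w g g)
  have c2 : Continuous fun s : ℝ => cE (w + s • g) p (cE (w + s • g) q g) x := by
    have : (fun s : ℝ => cE (w + s • g) p (cE (w + s • g) q g) x) = fun s : ℝ => cE (w + s • g) p g x := by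
      funext s
      rw [cE_tower _ hc]
    rw [this]
    exact (continuous_apply x).comp (continuous_cE_line p w g g)
  have e3 : (Mc fun s => cE (w + s • g) p (cE (w + s • g) q g) x) - (Mc fun s => cE (w + τ • g) p (cE (w + s • g) q g) x) =
      Mc fun s => (cE (w + s • g) p (cE (w + s • g) q g) x - cE (w + τ • g) p (cE (w + s • g) q g) x) := by
    unfold Mc
    rw [intervalIntegral.integral_sub (c2.intervalIntegrable _ _) (c1.intervalIntegrable _ _)]
    ring
  rw [e1, e2, e3]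
  refine Mc_le fun s hs => ?_
  refine (ln_cE w hg hτ p _ x hs).trans ?_
  exact mul_le_mul_of_nonneg_left (hB s hs) (Real.exp_pos _).le

omit hM hg hτ in
theorem abs_cE_bd (p : X → Y) {f : X → ℝ} (hf : ∀ x, |f x| ≤ M) (v : X → ℝ) (x : X) : |cE v p f x| ≤ M := by
  refine (abs_cE_le v p f x).trans ?_
  have e := cE_mono v p (f := fun z => |f z|) (g := fun _ => M) hf x
  rwa [cE_const] at e

omit hM hτ in
theorem abs_gb (q : X → Z) (x : X) : |gb81 w g q x| ≤ M := by
  rw [gb81_apply]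
  exact Mc_le fun s _ => abs_cE_bd q hg _ x

omit hM hg hτ in
/-- The exact response is controlled by the event which controls the conditional means. -/
theorem dif_gb {q : X → Z} {K : X → X → ℝ} {L : ℝ} {v : X → ℝ} (h : ∀ s : ℝ, |s| ≤ 1 → Dif v q K L (cE (w + s • g) q g)) :
    Dif v q K L (gb81 w g q) := fun x x' => by
  have c1 : ∀ x : X, Continuous fun s : ℝ => cE (w + s • g) q g x := fun x => (continuous_apply x).comp (continuous_cE_line q w g g)
  have e3 : (Mc fun s => cE (w + s • g) q g x) - (Mc fun s => cE (w + s • g) q g x') =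
      Mc fun s => (cE (w + s • g) q g x - cE (w + s • g) q g x') := by
    unfold Mc
    rw [intervalIntegral.integral_sub ((c1 x).intervalIntegrable _ _) ((c1 x').intervalIntegrable _ _)]
    ring
  rw [gb81_apply, gb81_apply, e3]
  exact Mc_le fun s hs => h s hs x x'

/-- **`X_j` against the event**: `γ` is the exact response of the window, `a` any sign. -/
theorem size_X {p : X → Y} {q : X → Z} (hc : Crs p q) {K : X → X → ℝ} {L : ℝ}
    (h : ∀ s : ℝ, |s| ≤ 1 → Dif (w + τ • g) q K L (cE (w + s • g) q g)) (x : X) {t a : ℝ} (ht : |t| ≤ 1) (ha : |a| ≤ 1) :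
    |Zr (w + t • g) p a (gb81 w g q) x - gb81 w g p x| ≤ 3 * M * Real.exp (8 * M) * L * cE2 (w + τ • g) p K x x := by
  have h1 := size_Zr w hM hg hτ p (abs_gb w hg q) x ht ha
  have h2 := osc_dif (w + τ • g) hc (dif_gb w h) x
  have h3 := size_gb w hM hg hτ hc x (B := L * cE2 (w + τ • g) p K x x) fun s hs => osc_dif (w + τ • g) hc (h s hs) x
  set T := L * cE2 (w + τ • g) p K x x with hT
  have T0 : 0 ≤ T := (osc_nonneg _ p (gb81 w g q) x).trans h2
  have a1 : Real.exp (4 * M) ≤ Real.exp (8 * M) := Real.exp_le_exp.2 (by linarith)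
  have a2 : Real.exp (4 * M) * T ≤ M * Real.exp (8 * M) * T := by
    refine mul_le_mul_of_nonneg_right ?_ T0
    have : 1 * Real.exp (8 * M) ≤ M * Real.exp (8 * M) := mul_le_mul_of_nonneg_right hM (Real.exp_pos _).le
    linarith
  have a3 : 2 * M * Real.exp (8 * M) * osc (w + τ • g) p (gb81 w g q) x ≤ 2 * M * Real.exp (8 * M) * T :=
    mul_le_mul_of_nonneg_left h2 (by have := (Real.exp_pos (8 * M)).le; have : 0 ≤ M := by linarith
                                     positivity)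
  have e : Zr (w + t • g) p a (gb81 w g q) x - gb81 w g p x =
      (Zr (w + t • g) p a (gb81 w g q) x - cE (w + τ • g) p (gb81 w g q) x) -
        (gb81 w g p x - cE (w + τ • g) p (gb81 w g q) x) := by ring
  rw [e]
  refine (abs_sub _ _).trans ?_
  have e2 : 3 * M * Real.exp (8 * M) * L * cE2 (w + τ • g) p K x x = 3 * (M * Real.exp (8 * M) * T) := by
    rw [hT]
    ring
  rw [e2]
  linarith

end Pieces

section Double

variable {X : Type*} [Fintype X] [Nonempty X] {Y Z Z' : Type*} [DecidableEq Y] [DecidableEq Z] [DecidableEq Z']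
variable (w : X → ℝ) {g : X → ℝ} {M τ : ℝ} (hM : 1 ≤ M) (hg : ∀ x, |g x| ≤ M) (hτ : |τ| ≤ 1)
include hM hg hτ

omit hM hg hτ in
theorem cV_le_sq (q : X → Z) {γ : X → ℝ} (hγ : ∀ x, |γ x| ≤ M) (v : X → ℝ) (z : X) : cV v q γ z ≤ 2 * M ^ 2 := by
  have h1 := (le_abs_self _).trans (abs_cC_le' v q γ hγ z)
  have h2 := osc_le v q (osd hγ) z
  have hM0 : 0 ≤ M := (abs_nonneg _).trans (hγ z)
  calc cV v q γ z ≤ M * osc v q γ z := h1
    _ ≤ M * (2 * M) := mul_le_mul_of_nonneg_left h2 hM0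
    _ = _ := by ring

omit hM hτ in
/-- The trivial bound for the oscillation of the double tie function. -/
theorem oscV_triv (p : X → Y) (q : X → Z) (v v' : X → ℝ) (x : X) : osc v p (cV v' q g) x ≤ 2 * M ^ 2 := by
  refine osc_le v p (fun z z' => ?_) x
  have a := cV_le_sq q hg v' z
  have a' := cV_le_sq q hg v' z'
  have b := cV_nonneg v' q g z
  have b' := cV_nonneg v' q g z'
  rw [abs_le]
  constructor <;> linarith

omit hM in
/-- The bound by the event at the scale of the window. -/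
theorem oscV_K {p : X → Y} {q : X → Z} (hc : Crs p q) {K : X → X → ℝ} {L : ℝ} {s : ℝ}
    (h : Dif (w + τ • g) q K L (cV (w + s • g) q g)) (x : X) {t : ℝ} (ht : |t| ≤ 1) :
    osc (w + t • g) p (cV (w + s • g) q g) x ≤ Real.exp (8 * M) * (L * cE2 (w + τ • g) p K x x) :=
  (ln_osc w hg hτ p _ x ht).trans (mul_le_mul_of_nonneg_left (osc_dif _ hc h x) (Real.exp_pos _).le)

/-- The bound by the tie inside of the window. -/
theorem oscV_in (p : X → Y) (q : X → Z) (x : X) {t s : ℝ} (ht : |t| ≤ 1) (hs : |s| ≤ 1) :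
    osc (w + t • g) p (cV (w + s • g) q g) x ≤ 2 * M * Real.exp (16 * M) * cE (w + τ • g) p (osc (w + τ • g) q g) x := by
  have h1 := ln_osc w hg hτ p (cV (w + s • g) q g) x ht
  have h2 := osc_two_le (w + τ • g) p (f := cV (w + s • g) q g) (cV_nonneg _ _ _) x
  have h3 : cE (w + τ • g) p (cV (w + s • g) q g) x ≤
      cE (w + τ • g) p ((M * Real.exp (8 * M)) • osc (w + τ • g) q g) x :=
    cE_mono _ p (fun z => size_cV w hM hg hτ q hg z hs) x
  rw [cE_smul, Pi.smul_apply, smul_eq_mul] at h3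
  have e0 := (Real.exp_pos (8 * M)).le
  have h4 := mul_le_mul_of_nonneg_left (h2.trans (mul_le_mul_of_nonneg_left h3 (by norm_num : (0 : ℝ) ≤ 2))) e0
  refine (h1.trans h4).trans (le_of_eq ?_)
  have e : Real.exp (16 * M) = Real.exp (8 * M) * Real.exp (8 * M) := by
    rw [← Real.exp_add]
    congr 1
    ring
  rw [e]
  ring

omit hτ in
/-- **`N2`**, in the form of `crossW81_ends` and `crossW81_ends_tie`. -/
theorem size_N2 {p : X → Y} {q : X → Z} {γ : X → ℝ} (hγ : ∀ x, |γ x| ≤ M) (x : X) {B : ℝ}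
    (hB : ∀ t s : ℝ, |t| ≤ 1 → |s| ≤ 1 → osc (w + t • g) p (cV (w + s • g) q g) x ≤ B) :
    |-(∫ s in (-1 : ℝ)..1, ∫ t in (-1 : ℝ)..1, Kn81 t s * cC (w + t • g) p g (cV (w + s • g) q g) x) +
      (1 / 6) * Ac (fun a => ∫ u in (-1 : ℝ)..1, (1 + a * u) * cC (w + a • g) p γ (cV (w + u • g) q g) x)| ≤ 2 * M * B := by
  have hM0 : 0 ≤ M := by linarith
  have k : ∀ (h : X → ℝ), (∀ x, |h x| ≤ M) → ∀ t s : ℝ, |t| ≤ 1 → |s| ≤ 1 →
      |cC (w + t • g) p h (cV (w + s • g) q g) x| ≤ M * B := fun h hh t s ht hs => by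
    rw [cC_symm]
    exact (abs_cC_le' _ p _ hh x).trans (mul_le_mul_of_nonneg_left (hB t s ht hs) hM0)
  have B0 : 0 ≤ M * B := (abs_nonneg _).trans (k g hg 0 0 (by norm_num) (by norm_num))
  have h1 : |∫ s in (-1 : ℝ)..1, ∫ t in (-1 : ℝ)..1, Kn81 t s * cC (w + t • g) p g (cV (w + s • g) q g) x| ≤ M * B := by
    have e := abs_int_le (φ := fun s => ∫ t in (-1 : ℝ)..1, Kn81 t s * cC (w + t • g) p g (cV (w + s • g) q g) x)
      (B := M * B / 2) fun s hs => by
        have e := abs_int_le (φ := fun t => Kn81 t s * cC (w + t • g) p g (cV (w + s • g) q g) x) (B := M * B / 4) fun t ht => by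
          have h2 := abs_Kn81_le (t := t) (s := s) ⟨(abs_le.1 ht).1, (abs_le.1 ht).2⟩ ⟨(abs_le.1 hs).1, (abs_le.1 hs).2⟩
          rw [abs_mul]
          calc |Kn81 t s| * |cC (w + t • g) p g (cV (w + s • g) q g) x| ≤ 1 / 4 * (M * B) :=
                mul_le_mul h2 (k g hg t s ht hs) (abs_nonneg _) (by norm_num)
            _ = M * B / 4 := by ring
        linarith
    linarith
  have h3 : ∀ a : ℝ, |a| ≤ 1 → |∫ u in (-1 : ℝ)..1, (1 + a * u) * cC (w + a • g) p γ (cV (w + u • g) q g) x| ≤ 4 * (M * B) := by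
    intro a ha
    have e := abs_int_le (φ := fun u => (1 + a * u) * cC (w + a • g) p γ (cV (w + u • g) q g) x) (B := 2 * (M * B))
      fun u hu => by
        have h4 : |1 + a * u| ≤ 2 := by
          have h5 : |a * u| ≤ 1 := by
            rw [abs_mul]
            exact mul_le_one₀ ha (abs_nonneg _) hu
          refine (abs_add_le _ _).trans ?_
          rw [abs_one]
          linarith
        rw [abs_mul]
        exact mul_le_mul h4 (k γ hγ a u ha hu) (abs_nonneg _) (by norm_num)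
    linarith
  have h6 : |(1 / 6) * Ac (fun a => ∫ u in (-1 : ℝ)..1, (1 + a * u) * cC (w + a • g) p γ (cV (w + u • g) q g) x)| ≤ M * B := by
    unfold Ac
    rw [abs_mul, abs_of_pos (by norm_num : (0 : ℝ) < 1 / 6), abs_div, abs_of_pos (by norm_num : (0 : ℝ) < 2)]
    have a1 := h3 1 (by norm_num)
    have a2 := h3 (-1) (by norm_num)
    have a3 := (abs_add_le _ _).trans (add_le_add a1 a2)
    beta_reduce
    linarith
  refine (abs_add_le _ _).trans ?_
  rw [abs_neg]
  linarith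

end Double

end

end Pool.W7d29a1.C0.S1
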