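import Pool.Agent.W_7d29a1_C0.Slab19
import Pool.Agent.W_7d29a1_C0.Slab19B
import Pool.Agent.W_7d29a1_C0.Proj82
import Pool.Agent.W_7d29a1_C0.CumB82
import Pool.Agent.W_7d29a1_C0.VT31

/-!
CURV0 (MP_7d29a1_pr), helper59: the slab identity for cumulants whose arguments SEE the slab.

`cK w p l` is the conditional joint cumulant of the functions `l` given `p` (`cE = cK [g]`, `cC = cK [f, g]`); its derivative in the
direction `h` of the log weights is `cK w p (h :: l)`. An argument `A : Arg X` of a cumulant is a function of the environment with its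
derivative `A.d η h` in the direction `h` of the log weights (`Arg.bl`: blind to the slab, `Arg.cu`: a conditional cumulant of blind
functions). `slab_arg`: for a bounded predictable field `c` on the slab `S`, `C = Σ_q c_q N_q`, `Θ` square integrable and blind to `S`,

`E Θ cm(l) δ(c) = E Θ [cm(C, l) + Σ_i cm(.., d_i(C), ..)]`.
-/

set_option autoImplicit false
set_option linter.unusedSectionVars false
set_option linter.unusedVariables false

namespace Pool.W7d29a1.C0.F59

open MeasureTheory ProbabilityTheory Filter Topology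
open Pool.Agent.W_7d29a1_F Pool.Agent.W_7d29a1_C0.H32 Pool.W7d29a1.C0.H19 Pool.W7d29a1.C0.VT31

noncomputable section

/-! ### Conditional cumulants on the space itself -/

section Cond

variable {X : Type*} [Fintype X] [Nonempty X] {Y : Type*} [DecidableEq Y]

/-- The fibre of `y`. -/
abbrev Fb (p : X → Y) (y : Y) := {x' : X // p x' = y}

instance fb_nonempty (p : X → Y) (x : X) : Nonempty (Fb p (p x)) := ⟨⟨x, rfl⟩⟩

/-- Restriction to the fibre of `y`. -/
def rf (p : X → Y) (y : Y) (f : X → ℝ) : Fb p y → ℝ := fun x' => f x'.1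

/-- The conditional joint cumulant of the functions `l` given `p`. -/
def cK (w : X → ℝ) (p : X → Y) (l : List (X → ℝ)) : X → ℝ := fun x => cm (l.map (rf p (p x))) (rf p (p x) w)

theorem cK_meas (w : X → ℝ) (p : X → Y) (l : List (X → ℝ)) : Mp p (cK w p l) := by
  have key : ∀ (y y' : Y) (i : Nonempty (Fb p y)) (i' : Nonempty (Fb p y')), y = y' →
      cm (l.map (rf p y)) (rf p y w) = cm (l.map (rf p y')) (rf p y' w) := by
    intro y y' i i' h
    subst h
    rfl
  intro x x' h
  exact key _ _ (fb_nonempty p x) (fb_nonempty p x') h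

theorem rf_line (p : X → Y) (y : Y) {w : ℝ → X → ℝ} {w' : X → ℝ} {t : ℝ} (h : HasDerivAt w w' t) :
    HasDerivAt (fun t => rf p y (w t)) (rf p y w') t := by
  rw [hasDerivAt_pi] at h ⊢
  exact fun x => h x.1

/-- **The derivative of a conditional cumulant** of fixed functions along the log weights. -/
theorem hasDerivAt_cK (p : X → Y) (l : List (X → ℝ)) {w : ℝ → X → ℝ} {w' : X → ℝ} {t : ℝ} (h : HasDerivAt w w' t) :
    HasDerivAt (fun t => cK (w t) p l) (cK (w t) p (w' :: l)) t := by
  rw [hasDerivAt_pi]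
  intro x
  exact hasDerivAt_cm (l.map (rf p (p x))) (rf_line p (p x) h)

theorem rf_add (p : X → Y) (y : Y) (f g : X → ℝ) : rf p y (f + g) = rf p y f + rf p y g := rfl

theorem rf_smul (p : X → Y) (y : Y) (c : ℝ) (f : X → ℝ) : rf p y (c • f) = c • rf p y f := rfl

theorem cK_head_add (w : X → ℝ) (p : X → Y) (a b : X → ℝ) (l : List (X → ℝ)) :
    cK w p ((a + b) :: l) = cK w p (a :: l) + cK w p (b :: l) := by
  funext x
  exact cm_head_add _ _ _ _

theorem cK_head_smul (w : X → ℝ) (p : X → Y) (c : ℝ) (a : X → ℝ) (l : List (X → ℝ)) :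
    cK w p ((c • a) :: l) = c • cK w p (a :: l) := by
  funext x
  exact cm_head_smul _ _ _ _

theorem cK_head_sub (w : X → ℝ) (p : X → Y) (a b : X → ℝ) (l : List (X → ℝ)) :
    cK w p ((a - b) :: l) = cK w p (a :: l) - cK w p (b :: l) := by
  funext x
  exact cm_head_sub _ _ _ _

theorem cK_head_zero (w : X → ℝ) (p : X → Y) (l : List (X → ℝ)) : cK w p (0 :: l) = 0 := by
  have h := cK_head_smul w p 0 0 l
  rwa [zero_smul, zero_smul] at h

theorem cK_head_sum {J : Type*} (w : X → ℝ) (p : X → Y) (s : Finset J) (a : J → X → ℝ) (l : List (X → ℝ)) :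
    cK w p ((∑ i ∈ s, a i) :: l) = ∑ i ∈ s, cK w p (a i :: l) := by
  classical
  induction s using Finset.induction_on with
  | empty => rw [Finset.sum_empty, Finset.sum_empty, cK_head_zero]
  | insert i s hi ih => rw [Finset.sum_insert hi, Finset.sum_insert hi, cK_head_add, ih]

theorem cK_swap (w : X → ℝ) (p : X → Y) (a b : X → ℝ) (l : List (X → ℝ)) : cK w p (a :: b :: l) = cK w p (b :: a :: l) := by
  funext x
  exact congrFun (cm_swap _ _ _) _

theorem cK_perm (w : X → ℝ) (p : X → Y) {l l' : List (X → ℝ)} (h : l.Perm l') : cK w p l = cK w p l' := by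
  funext x
  exact congrFun (cm_perm (h.map _)) _

/-- Sums over a fibre. -/
theorem sum_rf (p : X → Y) (y : Y) (f : X → ℝ) : ∑ x' : Fb p y, f x'.1 = ∑ x', if p x' = y then f x' else 0 := by
  rw [← Finset.sum_filter]
  exact (Finset.sum_subtype (Finset.univ.filter fun x => p x = y) (fun x => by simp) f).symm

theorem gm_rf (w : X → ℝ) (p : X → Y) (f : X → ℝ) (x : X) : gm (rf p (p x) w) (rf p (p x) f) = cE w p f x := by
  unfold gm gz cE fz rf
  rw [sum_rf p (p x) fun x' => Real.exp (w x') * f x', sum_rf p (p x) fun x' => Real.exp (w x')]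

theorem cK_one (w : X → ℝ) (p : X → Y) (g : X → ℝ) : cK w p [g] = cE w p g := by
  funext x
  show cm [rf p (p x) g] (rf p (p x) w) = _
  rw [Pool.W7d29a1.C0.H19.cm_one, gm_rf]

theorem cK_two (w : X → ℝ) (p : X → Y) (f g : X → ℝ) : cK w p [f, g] = cC w p f g := by
  funext x
  show cm [rf p (p x) f, rf p (p x) g] (rf p (p x) w) = _
  rw [Pool.W7d29a1.C0.H19.cm_two]
  show gm (rf p (p x) w) (rf p (p x) (f * g)) - gm (rf p (p x) w) (rf p (p x) f) * gm (rf p (p x) w) (rf p (p x) g) = _
  rw [gm_rf, gm_rf, gm_rf]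
  rfl

theorem cK_VV (w : X → ℝ) (p : X → Y) (g : X → ℝ) : cK w p [g, g] = cV w p g := cK_two w p g g

end Cond

/-! ### Bounds and measurability of cumulants of families -/

section Fam

variable {U : Type*} {X : Type*} [Fintype X] [Nonempty X]

/-- A family of functions with a common bound. -/
def Bdd (A : U → X → ℝ) : Prop := ∃ M : ℝ, ∀ u x, |A u x| ≤ M

theorem Bdd.norm {A : U → X → ℝ} (h : Bdd A) : ∃ M : ℝ, 0 ≤ M ∧ ∀ u, ‖A u‖ ≤ M := by
  obtain ⟨M, hM⟩ := h
  refine ⟨|M|, abs_nonneg M, fun u => ?_⟩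
  rw [pi_norm_le_iff_of_nonneg (abs_nonneg M)]
  exact fun x => (hM u x).trans (le_abs_self M)

theorem exists_cst : ∀ (L : List (U → X → ℝ)), (∀ A ∈ L, Bdd A) → ∃ K : ℝ, 0 ≤ K ∧ ∀ u, cst (L.map fun A => A u) ≤ K
  | [], _ => ⟨1 / 2, by norm_num, fun u => le_rfl⟩
  | A :: L, h => by
    obtain ⟨K, hK, h1⟩ := exists_cst L fun B hB => h B (by simp [hB])
    obtain ⟨M, hM, h2⟩ := (h A (by simp)).norm
    refine ⟨2 * (L.length + 2 : ℝ) * M * K, by positivity, fun u => ?_⟩
    show 2 * ((L.map fun A => A u).length + 2 : ℝ) * ‖A u‖ * cst (L.map fun A => A u) ≤ _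
    rw [List.length_map]
    exact mul_le_mul (mul_le_mul_of_nonneg_left (h2 u) (by positivity)) (h1 u) (cst_nonneg _) (by positivity)

theorem PP_le {w : X → ℝ} {Q : X → X → ℝ} {K : ℝ} (h : ∀ y z, Q y z ≤ K) : PP w Q ≤ K := by
  refine (PP_mono w h).trans (le_of_eq ?_)
  have h1 := PP_mul w (fun _ => K) (fun _ => 1)
  simp only [mul_one] at h1
  rw [h1, gm_const, gm_const, mul_one]

/-- **The cumulants of bounded families are bounded**, uniformly in the weights. -/
theorem exists_cm_bd (L : List (U → X → ℝ)) (hL : L ≠ []) (h : ∀ A ∈ L, Bdd A) :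
    ∃ K : ℝ, ∀ (u : U) (w : X → ℝ), |cm (L.map fun A => A u) w| ≤ K := by
  rcases List.eq_nil_or_concat' L with h0 | ⟨L1, B, rfl⟩
  · exact absurd h0 hL
  obtain ⟨MB, hMB, hB⟩ := (h B (by simp)).norm
  rcases List.eq_nil_or_concat' L1 with h0 | ⟨L2, A, rfl⟩
  · subst h0
    refine ⟨MB, fun u w => ?_⟩
    show |cm [B u] w| ≤ MB
    rw [Pool.W7d29a1.C0.H19.cm_one]
    exact Pool.W7d29a1.C0.H19.abs_gm_le_of fun x => (norm_le_pi_norm (B u) x).trans (hB u)
  · obtain ⟨MA, hMA, hA⟩ := (h A (by simp)).norm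
    obtain ⟨K, hK, h1⟩ := exists_cst L2 fun C hC => h C (by simp [hC])
    refine ⟨K * ((2 * MA) * (2 * MB)), fun u w => ?_⟩
    have e : (((L2 ++ [A]) ++ [B]).map fun A => A u) = (L2.map fun A => A u) ++ [A u, B u] := by simp
    rw [e]
    refine (abs_cm_le _ _ _ _).trans (mul_le_mul (h1 u) (PP_le fun y z => ?_) (PP_nonneg w fun y z => by positivity) hK)
    have a1 : ∀ (C : U → X → ℝ) (MC : ℝ), (∀ u, ‖C u‖ ≤ MC) → |C u y - C u z| ≤ 2 * MC := fun C MC hC => by
      refine (abs_sub _ _).trans ?_
      have b1 := (norm_le_pi_norm (C u) y).trans (hC u)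
      have b2 := (norm_le_pi_norm (C u) z).trans (hC u)
      rw [Real.norm_eq_abs] at b1 b2
      linarith
    exact mul_le_mul (a1 A MA hA) (a1 B MB hB) (abs_nonneg _) (by positivity)

variable [MeasurableSpace U]

/-- **Joint measurability** of the cumulants. -/
theorem measurable_cm {w : U → X → ℝ} (hw : Measurable w) :
    ∀ (fs : List (U → X → ℝ)), (∀ f ∈ fs, Measurable f) → ∀ k : List (X → ℝ),
      Measurable fun u => cm (k ++ fs.map fun f => f u) (w u)
  | [], _, k => ((cm_continuous (k ++ [])).measurable).comp hw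
  | f :: fs, h, k => by
    classical
    have hf : Measurable f := h f (by simp)
    have e : (fun u => cm (k ++ (f :: fs).map fun f => f u) (w u)) = fun u =>
        ∑ i, f u i * cm ((k ++ [fun j => if i = j then (1 : ℝ) else 0]) ++ fs.map fun f => f u) (w u) := by
      funext u
      rw [List.map_cons, cm_mid_basis]
      refine Finset.sum_congr rfl fun i _ => ?_
      rw [List.append_assoc, List.singleton_append]
    rw [e]
    exact Finset.measurable_sum _ fun i _ => ((measurable_pi_apply i).comp hf).mul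
      (measurable_cm hw fs (fun g hg => h g (by simp [hg])) _)

theorem measurable_cm' {w : U → X → ℝ} (hw : Measurable w) {fs : List (U → X → ℝ)} (h : ∀ f ∈ fs, Measurable f) :
    Measurable fun u => cm (fs.map fun f => f u) (w u) := measurable_cm hw fs h []

variable {Y : Type*} [DecidableEq Y]

theorem measurable_cK {w : U → X → ℝ} (hw : Measurable w) (p : X → Y) {fs : List (U → X → ℝ)} (h : ∀ f ∈ fs, Measurable f) :
    Measurable fun u => cK (w u) p (fs.map fun f => f u) := by
  have hr : ∀ (x : X) {f : U → X → ℝ}, Measurable f → Measurable fun u => rf p (p x) (f u) := fun x f hf =>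
    measurable_pi_lambda _ fun x' => (measurable_pi_apply x'.1).comp hf
  refine measurable_pi_lambda _ fun x => ?_
  have := measurable_cm' (w := fun u => rf p (p x) (w u)) (hr x hw) (fs := fs.map fun f => fun u => rf p (p x) (f u))
    (fun f hf => by
      obtain ⟨g, hg, rfl⟩ := List.mem_map.1 hf
      exact hr x (h g hg))
  have e : (fun u => cK (w u) p (fs.map fun f => f u) x) =
      fun u => cm ((fs.map fun f => fun u => rf p (p x) (f u)).map fun f => f u) (rf p (p x) (w u)) := by
    funext u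
    show cm ((fs.map fun f => f u).map (rf p (p x))) (rf p (p x) (w u)) = _
    rw [List.map_map, List.map_map]
    rfl
  rw [e]
  exact this

theorem bdd_cK {w : U → X → ℝ} (p : X → Y) {fs : List (U → X → ℝ)} (hf : fs ≠ []) (h : ∀ f ∈ fs, Bdd f) :
    Bdd fun u => cK (w u) p (fs.map fun f => f u) := by
  have hx : ∀ x : X, ∃ K : ℝ, ∀ u, |cK (w u) p (fs.map fun f => f u) x| ≤ K := fun x => by
    obtain ⟨K, hK⟩ := exists_cm_bd (fs.map fun f => fun u => rf p (p x) (f u)) (by simpa using hf) (fun f hf' => by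
      obtain ⟨g, hg, rfl⟩ := List.mem_map.1 hf'
      obtain ⟨M, hM⟩ := h g hg
      exact ⟨M, fun u x' => hM u x'.1⟩)
    refine ⟨K, fun u => ?_⟩
    have h1 := hK u (rf p (p x) (w u))
    rw [List.map_map] at h1
    show |cm ((fs.map fun f => f u).map (rf p (p x))) (rf p (p x) (w u))| ≤ K
    rw [List.map_map]
    exact h1
  choose K hK using hx
  refine ⟨∑ x, |K x|, fun u x => (hK x u).trans ((le_abs_self _).trans ?_)⟩
  exact Finset.single_le_sum (f := fun x => |K x|) (fun x _ => abs_nonneg _) (Finset.mem_univ x)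

end Fam

/-! ### Arguments which see the slab -/

section Args

variable {X : Type*} [Fintype X] [Nonempty X]

/-- An argument of a cumulant: its value and its derivative in a direction of the log weights. -/
structure Arg (X : Type*) where
  v : Env → X → ℝ
  d : Env → (X → ℝ) → X → ℝ

/-- The argument is regular over the sites `S` with the counts `N`. -/
structure Arg.OK (S : Finset Pt) (N : Pt → X → ℝ) (A : Arg X) : Prop where
  mv : Measurable A.v
  bv : Bdd A.v
  der : ∀ q ∈ S, ∀ (η : Env) (x : ℝ), HasDerivAt (fun t => A.v (Function.update η q t))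
    (A.d (Function.update η q x) (N q)) x
  md : ∀ q ∈ S, Measurable fun η => A.d η (N q)
  bd : ∀ q ∈ S, Bdd fun η => A.d η (N q)
  lin : ∀ (η : Env) (c : Pt → ℝ), A.d η (∑ q ∈ S, c q • N q) = ∑ q ∈ S, c q • A.d η (N q)

/-- An argument which is blind to the slab. -/
def Arg.bl (A : Env → X → ℝ) : Arg X := ⟨A, fun _ _ => 0⟩

/-- A conditional cumulant of functions which are blind to the slab. -/
def Arg.cu {Y : Type*} [DecidableEq Y] (w : Env → X → ℝ) (p : X → Y) (l : List (Env → X → ℝ)) : Arg X :=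
  ⟨fun η => cK (w η) p (l.map fun A => A η), fun η h => cK (w η) p (h :: l.map fun A => A η)⟩

theorem ok_bl {S : Finset Pt} {N : Pt → X → ℝ} {A : Env → X → ℝ} (mA : Measurable A) (bA : Bdd A)
    (hA : ∀ q ∈ S, ∀ (η : Env) (x : ℝ), A (Function.update η q x) = A η) : (Arg.bl A).OK S N where
  mv := mA
  bv := bA
  der := fun q hq η x => by
    have e : (fun t => (Arg.bl A).v (Function.update η q t)) = fun _ => A η := by
      funext t
      exact hA q hq η t
    rw [e]
    exact hasDerivAt_const _ _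
  md := fun q hq => measurable_const
  bd := fun q hq => ⟨0, fun u x => by
    show |(0 : X → ℝ) x| ≤ 0
    simp⟩
  lin := fun η c => by
    show (0 : X → ℝ) = ∑ q ∈ S, c q • (0 : X → ℝ)
    simp

theorem ok_cu {Y : Type*} [DecidableEq Y] {S : Finset Pt} {N : Pt → X → ℝ} {w : Env → X → ℝ} (mw : Measurable w)
    (hw : ∀ q ∈ S, ∀ (η : Env) (x : ℝ), HasDerivAt (fun t => w (Function.update η q t)) (N q) x) (p : X → Y)
    {l : List (Env → X → ℝ)} (hl : l ≠ []) (ml : ∀ A ∈ l, Measurable A) (bl : ∀ A ∈ l, Bdd A)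
    (hb : ∀ A ∈ l, ∀ q ∈ S, ∀ (η : Env) (x : ℝ), A (Function.update η q x) = A η) : (Arg.cu w p l).OK S N where
  mv := measurable_cK mw p ml
  bv := bdd_cK p hl bl
  der := fun q hq η x => by
    have e : ∀ t : ℝ, (l.map fun A => A (Function.update η q t)) = l.map fun A => A η := fun t =>
      List.map_congr_left fun A hA => hb A hA q hq η t
    have e1 : (fun t => (Arg.cu w p l).v (Function.update η q t)) =
        fun t => cK (w (Function.update η q t)) p (l.map fun A => A η) := by
      funext t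
      show cK _ p (l.map fun A => A (Function.update η q t)) = _
      rw [e t]
    have e2 : (Arg.cu w p l).d (Function.update η q x) (N q) =
        cK (w (Function.update η q x)) p (N q :: l.map fun A => A η) := by
      show cK _ p (N q :: l.map fun A => A (Function.update η q x)) = _
      rw [e x]
    rw [e1, e2]
    exact hasDerivAt_cK p _ (hw q hq η x)
  md := fun q hq => by
    have h := measurable_cK mw p (fs := (fun _ => N q) :: l) (fun f hf => by
      rcases List.mem_cons.1 hf with h | h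
      · rw [h]
        exact measurable_const
      · exact ml f h)
    exact h
  bd := fun q hq => by
    have h := bdd_cK (U := Env) (w := w) p (fs := (fun _ => N q) :: l) (by simp) (fun f hf => by
      rcases List.mem_cons.1 hf with h | h
      · rw [h]
        exact ⟨‖N q‖, fun u x => norm_le_pi_norm (N q) x⟩
      · exact bl f h)
    exact h
  lin := fun η c => by
    show cK (w η) p ((∑ q ∈ S, c q • N q) :: l.map fun A => A η) = ∑ q ∈ S, c q • cK (w η) p (N q :: l.map fun A => A η)
    rw [cK_head_sum]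
    exact Finset.sum_congr rfl fun q _ => cK_head_smul _ _ _ _ _

/-- The sum of the cumulants in which one argument is replaced by its derivative in the direction `h`. -/
def dsm (η : Env) (h w : X → ℝ) : List (X → ℝ) → List (Arg X) → ℝ
  | _, [] => 0
  | k, A :: l => cm (k ++ A.d η h :: l.map fun B => B.v η) w + dsm η h w (k ++ [A.v η]) l

/-- The values of the arguments. -/
def vals (η : Env) (L : List (Arg X)) : List (X → ℝ) := L.map fun A => A.v η

theorem cm_mid_sum {J : Type*} (s : Finset J) (a : J → X → ℝ) (c : J → ℝ) (k l : List (X → ℝ)) (w : X → ℝ) :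
    cm (k ++ (∑ i ∈ s, c i • a i) :: l) w = ∑ i ∈ s, c i * cm (k ++ a i :: l) w := by
  rw [cm_mid, cm_head_sum]
  refine Finset.sum_congr rfl fun i _ => ?_
  rw [cm_head_smul, ← cm_mid]

theorem dsm_lin {S : Finset Pt} {N : Pt → X → ℝ} (η : Env) (w : X → ℝ) (c : Pt → ℝ) : ∀ (L : List (Arg X)),
    (∀ A ∈ L, A.OK S N) → ∀ k : List (X → ℝ), dsm η (∑ q ∈ S, c q • N q) w k L = ∑ q ∈ S, c q * dsm η (N q) w k L
  | [], _, k => by simp [dsm]
  | A :: L, h, k => by
    show cm (k ++ A.d η (∑ q ∈ S, c q • N q) :: L.map fun B => B.v η) w + dsm η (∑ q ∈ S, c q • N q) w (k ++ [A.v η]) L =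
      ∑ q ∈ S, c q * (cm (k ++ A.d η (N q) :: L.map fun B => B.v η) w + dsm η (N q) w (k ++ [A.v η]) L)
    rw [(h A (by simp)).lin, cm_mid_sum, dsm_lin η w c L (fun B hB => h B (by simp [hB])), ← Finset.sum_add_distrib]
    exact Finset.sum_congr rfl fun q _ => by ring

/-- The derivative of the cumulant of the arguments along one site. -/
theorem hasDerivAt_args {S : Finset Pt} {N : Pt → X → ℝ} {w : Env → X → ℝ}
    (hw : ∀ q ∈ S, ∀ (η : Env) (x : ℝ), HasDerivAt (fun t => w (Function.update η q t)) (N q) x) {q : Pt} (hq : q ∈ S)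
    {L : List (Arg X)} (hA : ∀ A ∈ L, A.OK S N) (η : Env) (x : ℝ) :
    HasDerivAt (fun t => cm (vals (Function.update η q t) L) (w (Function.update η q t)))
      (cm (N q :: vals (Function.update η q x) L) (w (Function.update η q x)) +
        dsm (Function.update η q x) (N q) (w (Function.update η q x)) [] L) x := by
  obtain ⟨G, hG⟩ : ∃ G : Arg X → (ℝ → X → ℝ) × (X → ℝ), G = fun A =>
    (fun t => A.v (Function.update η q t), A.d (Function.update η q x) (N q)) := ⟨_, rfl⟩
  have h := hasDerivAt_cm_gen (hw q hq η x) (L.map G) (fun r hr => by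
    obtain ⟨A, hA', rfl⟩ := List.mem_map.1 hr
    rw [hG]
    exact (hA A hA').der q hq η x) []
  have e1 : ∀ (L : List (Arg X)) (u : ℝ), evg u (L.map G) = vals (Function.update η q u) L := fun L u => by
    unfold evg vals
    rw [List.map_map]
    refine List.map_congr_left fun A _ => ?_
    rw [hG]
    rfl
  have e2 : ∀ (L : List (Arg X)) (k : List (X → ℝ)), gsum x (w (Function.update η q x)) k (L.map G) =
      dsm (Function.update η q x) (N q) (w (Function.update η q x)) k L := by
    intro L
    induction L with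
    | nil => exact fun k => rfl
    | cons A L ih =>
      intro k
      have e3 := e1 L x
      show cm (k ++ (G A).2 :: evg x (L.map G)) _ + gsum x _ (k ++ [(G A).1 x]) (L.map G) = _
      rw [e3, ih, hG]
      rfl
  simp only [List.nil_append] at h
  rw [e1, e2] at h
  simp only [e1] at h
  exact h

theorem measurable_vals {w : Env → X → ℝ} (mw : Measurable w) {S : Finset Pt} {N : Pt → X → ℝ} {L : List (Arg X)}
    (hA : ∀ A ∈ L, A.OK S N) (k : List (X → ℝ)) : Measurable fun η => cm (k ++ vals η L) (w η) := by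
  have h := measurable_cm mw (L.map fun A => A.v) (fun f hf => by
    obtain ⟨A, hA', rfl⟩ := List.mem_map.1 hf
    exact (hA A hA').mv) k
  have e : (fun η => cm (k ++ vals η L) (w η)) = fun η => cm (k ++ (L.map fun A => A.v).map fun f => f η) (w η) := by
    funext η
    unfold vals
    rw [List.map_map]
    rfl
  rw [e]
  exact h

theorem bdd_vals {S : Finset Pt} {N : Pt → X → ℝ} {L : List (Arg X)} (hA : ∀ A ∈ L, A.OK S N) {k : List (Env → X → ℝ)}
    (hk : ∀ A ∈ k, Bdd A) (hn : k ++ L.map Arg.v ≠ []) :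
    ∃ K : ℝ, ∀ (η : Env) (w : X → ℝ), |cm ((k.map fun A => A η) ++ vals η L) w| ≤ K := by
  obtain ⟨K, hK⟩ := exists_cm_bd (k ++ L.map Arg.v) hn (fun f hf => by
    rcases List.mem_append.1 hf with h | h
    · exact hk f h
    · obtain ⟨A, hA', rfl⟩ := List.mem_map.1 h
      exact (hA A hA').bv)
  refine ⟨K, fun η w => ?_⟩
  have h := hK η w
  rw [List.map_append, List.map_map] at h
  exact h

/-- The derivative term is measurable and bounded. -/
theorem meas_bdd_dsm {S : Finset Pt} {N : Pt → X → ℝ} {w : Env → X → ℝ} (mw : Measurable w) {q : Pt} (hq : q ∈ S) :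
    ∀ (L : List (Arg X)), (∀ A ∈ L, A.OK S N) → ∀ k : List (Env → X → ℝ), (∀ A ∈ k, Measurable A ∧ Bdd A) →
      (Measurable fun η => dsm η (N q) (w η) (k.map fun A => A η) L) ∧
        ∃ K : ℝ, ∀ η, |dsm η (N q) (w η) (k.map fun A => A η) L| ≤ K
  | [], _, k, _ => ⟨measurable_const, 0, fun η => by simp [dsm]⟩
  | A :: L, h, k, hk => by
    have hA := h A (by simp)
    obtain ⟨m1, K1, b1⟩ := meas_bdd_dsm mw hq L (fun B hB => h B (by simp [hB])) (k ++ [A.v]) (fun B hB => by
      rcases List.mem_append.1 hB with h | h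
      · exact hk B h
      · rw [List.mem_singleton.1 h]
        exact ⟨hA.mv, hA.bv⟩)
    have e1 : ∀ η, ((k ++ [A.v]).map fun A => A η) = (k.map fun A => A η) ++ [A.v η] := fun η => by simp
    simp only [e1] at m1 b1
    obtain ⟨K2, b2⟩ := exists_cm_bd (k ++ (fun η => A.d η (N q)) :: L.map Arg.v) (by simp) (fun f hf => by
      rcases List.mem_append.1 hf with h1 | h1
      · exact (hk f h1).2
      · rcases List.mem_cons.1 h1 with h2 | h2
        · rw [h2]
          exact hA.bd q hq
        · obtain ⟨B, hB, rfl⟩ := List.mem_map.1 h2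
          exact (h B (by simp [hB])).bv)
    have e2 : ∀ η, ((k ++ (fun η => A.d η (N q)) :: L.map Arg.v).map fun A => A η) =
        (k.map fun A => A η) ++ A.d η (N q) :: L.map fun B => B.v η := fun η => by
      rw [List.map_append, List.map_cons, List.map_map]
      rfl
    have m2 := measurable_cm' mw (fs := k ++ (fun η => A.d η (N q)) :: L.map Arg.v) (fun f hf => by
      rcases List.mem_append.1 hf with h1 | h1
      · exact (hk f h1).1
      · rcases List.mem_cons.1 h1 with h2 | h2
        · rw [h2]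
          exact hA.md q hq
        · obtain ⟨B, hB, rfl⟩ := List.mem_map.1 h2
          exact (h B (by simp [hB])).mv)
    simp only [e2] at b2 m2
    exact ⟨m2.add m1, K2 + K1, fun η => (abs_add_le _ _).trans (add_le_add (b2 η (w η)) (b1 η))⟩

variable {μ : Measure ℝ} {f f' : ℝ → ℝ}

/-- **THE SLAB IDENTITY** for arguments which see the slab, with a square integrable factor which is blind to it. -/
theorem slab_arg [IsProbabilityMeasure μ] (h : DenLaw μ f f') {S : Finset Pt} {c : Pt → Env → ℝ} {M : ℝ} (b : BF S c M)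
    {w : Env → X → ℝ} (mw : Measurable w) {N : Pt → X → ℝ}
    (hw : ∀ q ∈ S, ∀ (η : Env) (x : ℝ), HasDerivAt (fun t => w (Function.update η q t)) (N q) x)
    {Θ : Env → ℝ} (mΘ : MemLp Θ 2 (law μ)) (hΘ : ∀ q ∈ S, ∀ (η : Env) (x : ℝ), Θ (Function.update η q x) = Θ η)
    {L : List (Arg X)} (hL : L ≠ []) (hA : ∀ A ∈ L, A.OK S N) :
    ∫ η, Θ η * (cm (Cf S c N η :: vals η L) (w η) + dsm η (Cf S c N η) (w η) [] L) ∂(law μ) =
      ∫ η, Θ η * cm (vals η L) (w η) * SS (sc f f') S c η ∂(law μ) := by
  obtain ⟨K, θ0, hs⟩ := h.sg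
  have m0 : Measurable fun η => cm (vals η L) (w η) := measurable_vals mw hA []
  obtain ⟨K0, b0⟩ := bdd_vals hA (k := []) (by simp) (by simpa using hL)
  have b0' : ∀ η, |cm (vals η L) (w η)| ≤ K0 := fun η => b0 η (w η)
  have m1 : ∀ q ∈ S, Measurable fun η => cm (N q :: vals η L) (w η) := fun q _ => measurable_vals mw hA [N q]
  have b1 : ∀ q ∈ S, ∃ K1, ∀ η, |cm (N q :: vals η L) (w η)| ≤ K1 := fun q _ => by
    obtain ⟨K1, h1⟩ := bdd_vals hA (k := [fun _ => N q]) (fun A hA' => by
      rw [List.mem_singleton.1 hA']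
      exact ⟨‖N q‖, fun u x => norm_le_pi_norm (N q) x⟩) (by simp)
    exact ⟨K1, fun η => h1 η (w η)⟩
  have m2 : ∀ q ∈ S, (Measurable fun η => dsm η (N q) (w η) [] L) ∧ ∃ K2 : ℝ, ∀ η, |dsm η (N q) (w η) [] L| ≤ K2 :=
    fun q hq => meas_bdd_dsm mw hq L hA [] (by simp)
  have one : MemLp (fun _ : Env => (1 : ℝ)) 2 (law μ) := memLp_const 1
  have c2 : ∀ q ∈ S, MemLp (fun η => c q η) 2 (law μ) := fun q hq => by
    have := memLp_bd (b.meas q hq) (b.bd q hq) one
    refine this.ae_eq (ae_of_all _ fun η => ?_)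
    show c q η * 1 = c q η
    ring
  have t0 : MemLp (fun η => cm (vals η L) (w η) * Θ η) 2 (law μ) := memLp_bd m0 b0' mΘ
  have t1 : ∀ q ∈ S, MemLp (fun η => (cm (N q :: vals η L) (w η) + dsm η (N q) (w η) [] L) * Θ η) 2 (law μ) :=
    fun q hq => by
      obtain ⟨K1, h1⟩ := b1 q hq
      obtain ⟨h2, K2, h3⟩ := m2 q hq
      exact memLp_bd ((m1 q hq).add h2) (M := K1 + K2) (fun η => (abs_add_le _ _).trans (add_le_add (h1 η) (h3 η))) mΘ
  have hder : ∀ q ∈ S, ∀ (η : Env) (x : ℝ), HasDerivAt (fun t => Θ (Function.update η q t) *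
      cm (vals (Function.update η q t) L) (w (Function.update η q t)))
      (Θ (Function.update η q x) * (cm (N q :: vals (Function.update η q x) L) (w (Function.update η q x)) +
        dsm (Function.update η q x) (N q) (w (Function.update η q x)) [] L)) x := fun q hq η x => by
    have e : ∀ t : ℝ, Θ (Function.update η q t) = Θ η := fun t => hΘ q hq η t
    simp only [e]
    exact (hasDerivAt_args hw hq hA η x).const_mul (Θ η)
  have i0 : ∀ q ∈ S, Integrable (fun η => c q η * (Θ η * cm (vals η L) (w η))) (law μ) := fun q hq => by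
    refine ((c2 q hq).integrable_mul t0).congr (ae_of_all _ fun η => ?_)
    show c q η * (cm (vals η L) (w η) * Θ η) = _
    ring
  have i1 : ∀ q ∈ S, Integrable (fun η => c q η * (Θ η * (cm (N q :: vals η L) (w η) + dsm η (N q) (w η) [] L)))
      (law μ) := fun q hq => by
    refine ((c2 q hq).integrable_mul (t1 q hq)).congr (ae_of_all _ fun η => ?_)
    show c q η * ((cm (N q :: vals η L) (w η) + dsm η (N q) (w η) [] L) * Θ η) = _
    ring
  have i2 : ∀ q ∈ S, Integrable (fun η => c q η * (Θ η * cm (vals η L) (w η)) * sc f f' (η q)) (law μ) := fun q hq => by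
    refine (t0.integrable_mul (memLp_SS hs (b.single hq))).congr (ae_of_all _ fun η => ?_)
    show (cm (vals η L) (w η) * Θ η) * SS (sc f f') {q} c η = _
    rw [SS_single]
    ring
  have key := h.ibp_slab S (c := c) (Φ := fun η => Θ η * cm (vals η L) (w η))
    (Φ' := fun q η => Θ η * (cm (N q :: vals η L) (w η) + dsm η (N q) (w η) [] L)) b.self hder i0 i1 i2
  rw [← key]
  refine integral_congr_ae (ae_of_all _ fun η => ?_)
  show Θ η * (cm (Cf S c N η :: vals η L) (w η) + dsm η (Cf S c N η) (w η) [] L) =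
    ∑ q ∈ S, c q η * (Θ η * (cm (N q :: vals η L) (w η) + dsm η (N q) (w η) [] L))
  rw [cm_Cf]
  have e : dsm η (Cf S c N η) (w η) [] L = ∑ q ∈ S, c q η * dsm η (N q) (w η) [] L :=
    dsm_lin η (w η) (fun q => c q η) L hA []
  rw [e, ← Finset.sum_add_distrib, Finset.mul_sum]
  exact Finset.sum_congr rfl fun q _ => by ring

end Args

end

end Pool.W7d29a1.C0.F59
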