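import Pool.Agent.W_7d29a1_C0.Amp3
import Pool.Agent.W_7d29a1_C0.GSsum4

/-!
C0, helper3: SLOTS. A double tie whose two gaps open (close) at the same end of a window costs only one `1 / E b` at a FIXED window end;
summed over the rows of a stretch (windows which move with the row) the sum is small: `slotL`, `slotR`: the sum over the rows `c` of the
price of `the replica opens in [c, c + 2 T]` is at most `L ^ ε (T + b / E b) / E b`. Proof: the last (first) slot whose event occurs does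
not see the rows in front of it, and each earlier slot then costs one more near tie at the place between the two slots.
-/

set_option autoImplicit false

namespace Pool.Agent.W_7d29a1_C0.P3

open MeasureTheory ProbabilityTheory Filter Topology Finset
open Pool.Agent.W_7d29a1_F Pool.Agent.W_7d29a1_X Pool.Agent.W_7d29a1_h4g Pool.Agent.W_7d29a1_H
open Pool.Agent.W_7d29a1_HS (In wd md)
open Pool.Agent.W_7d29a1_HZ Pool.Agent.W_7d29a1_HZ.R72 Pool.Agent.W_7d29a1_Z.Asm72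
open Pool.Agent.W_7d29a1_HZ.Z86
open Pool.Agent.W_7d29a1_C0.P86
open Pool.Agent.W_7d29a1_C0.Mod92 (Px Pn lw ps pJ ne_Pn ps_Pn pos_card ps_of_le ps_of_ge)
open scoped ENNReal

variable {μ : Measure ℝ} {s : ℝ} {N : ℕ} {c₀ C₀ : ℝ} {n₀ : ℕ}

/-! ### The last slot -/

/-- `i'` is the last slot whose event occurs. -/
def La {ι : Type*} [LinearOrder ι] (F : Env → Finset ℕ → Prop) (A : ι → Env → Finset ℕ → Prop) (I : Finset ι) (i' : ι) :
    Env → Finset ℕ → Prop := fun η S => F η S ∧ A i' η S ∧ ∀ k ∈ I, i' < k → ¬ A k η S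

theorem ms_bex {ι : Type*} (P : Finset ι) {A : ι → Env → Finset ℕ → Prop} (hA : ∀ i, Ms (A i)) : Ms fun η S => ∃ i ∈ P, A i η S := by
  intro S
  have e : {η : Env | ∃ i ∈ P, A i η S} = ⋃ i ∈ P, {η | A i η S} := by
    ext η
    simp only [Set.mem_ofPred_eq, Set.mem_iUnion, exists_prop]
  rw [e]
  exact Finset.measurableSet_biUnion _ fun i _ => hA i S

theorem la_ms {ι : Type*} [LinearOrder ι] {F : Env → Finset ℕ → Prop} (hF : Ms F) {A : ι → Env → Finset ℕ → Prop} (hA : ∀ i, Ms (A i))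
    (I : Finset ι) (i' : ι) : Ms (La F A I i') := by
  have h2 : Ms fun η S => ∃ k ∈ I.filter (fun k => i' < k), A k η S := ms_bex _ hA
  intro S
  have e : {η : Env | La F A I i' η S} = {η | F η S} ∩ ({η | A i' η S} ∩ {η | ∃ k ∈ I.filter (fun k => i' < k), A k η S}ᶜ) := by
    ext η
    show (F η S ∧ A i' η S ∧ ∀ k ∈ I, i' < k → ¬ A k η S) ↔
      F η S ∧ (A i' η S ∧ ¬ ∃ k ∈ I.filter (fun k => i' < k), A k η S)
    refine and_congr_right fun _ => and_congr_right fun _ => ?_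
    constructor
    · rintro h ⟨k, hk, hk2⟩
      exact h k (mem_filter.1 hk).1 (mem_filter.1 hk).2 hk2
    · intro h k hk hik hk2
      exact h ⟨k, mem_filter.2 ⟨hk, hik⟩, hk2⟩
  rw [e]
  exact (hF S).inter ((hA i' S).inter (h2 S).compl)

variable [IsProbabilityMeasure μ]

/-- **THE LAST SLOT.** -/
theorem slot_abs {ι : Type*} [LinearOrder ι] {y : ℤ} (I : Finset ι) {F : Env → Finset ℕ → Prop} (hF : Ms F)
    {A : ι → Env → Finset ℕ → Prop} (hA : ∀ i, Ms (A i)) (R : ι → ι → ℝ≥0∞) (p K : ℝ≥0∞)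
    (h : ∀ i ∈ I, ∀ i' ∈ I, i < i' → P1 μ s N y (fun η S => La F A I i' η S ∧ A i η S) ≤ R i i' * P1 μ s N y (La F A I i') + p)
    (hK : ∀ i' ∈ I, ∑ i ∈ I.filter (fun i => i < i'), R i i' ≤ K) :
    ∑ i ∈ I, P1 μ s N y (fun η S => F η S ∧ A i η S) ≤
      (1 + K) * P1 μ s N y (fun η S => F η S ∧ ∃ i ∈ I, A i η S) + (I.card : ℝ≥0∞) ^ 2 * p := by
  classical
  -- one slot
  have h1 : ∀ i ∈ I, P1 μ s N y (fun η S => F η S ∧ A i η S) ≤
      ∑ i' ∈ I, (if i = i' then P1 μ s N y (La F A I i') else if i < i' then R i i' * P1 μ s N y (La F A I i') + p else 0) := by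
    intro i hi
    have h2 : P1 μ s N y (fun η S => F η S ∧ A i η S) ≤
        P1 μ s N y (fun η S => ∃ i' ∈ I.filter (fun i' => i ≤ i'), La F A I i' η S ∧ A i η S) := by
      refine A12.P1_mono fun η S hev => ?_
      have hne : (I.filter fun k => A k η S).Nonempty := ⟨i, mem_filter.2 ⟨hi, hev.2⟩⟩
      obtain ⟨m, hm⟩ : ∃ m, m = (I.filter fun k => A k η S).max' hne := ⟨_, rfl⟩
      have hm1 : m ∈ I.filter fun k => A k η S := hm ▸ max'_mem _ hne
      have hm2 : ∀ k ∈ I, A k η S → k ≤ m := fun k hk hk2 => hm ▸ le_max' _ k (mem_filter.2 ⟨hk, hk2⟩)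
      rw [mem_filter] at hm1
      exact ⟨m, mem_filter.2 ⟨hm1.1, hm2 i hi hev.2⟩, ⟨hev.1, hm1.2, fun k hk hmk hk2 => absurd (hm2 k hk hk2) (not_le.2 hmk)⟩, hev.2⟩
    refine h2.trans ((A12.P1_exists _ _).trans ?_)
    rw [sum_filter]
    refine sum_le_sum fun i' hi' => ?_
    by_cases e1 : i = i'
    · subst e1
      rw [if_pos le_rfl, if_pos rfl]
      exact A12.P1_mono fun η S hev => hev.1
    · rw [if_neg e1]
      by_cases e2 : i < i'
      · rw [if_pos e2.le, if_pos e2]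
        exact h i hi i' hi' e2
      · rw [if_neg e2, if_neg fun e3 => e2 (lt_of_le_of_ne e3 e1)]
  refine (sum_le_sum h1).trans ?_
  rw [sum_comm]
  -- one last slot
  have h3 : ∀ i' ∈ I, ∑ i ∈ I, (if i = i' then P1 μ s N y (La F A I i') else if i < i' then R i i' * P1 μ s N y (La F A I i') + p else 0) ≤
      (1 + K) * P1 μ s N y (La F A I i') + (I.card : ℝ≥0∞) * p := by
    intro i' hi'
    have e1 : ∀ i ∈ I, (if i = i' then P1 μ s N y (La F A I i') else if i < i' then R i i' * P1 μ s N y (La F A I i') + p else 0) ≤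
        (if i = i' then P1 μ s N y (La F A I i') else 0) + ((if i < i' then R i i' else 0) * P1 μ s N y (La F A I i') + p) := by
      intro i _
      by_cases g1 : i = i'
      · rw [if_pos g1, if_pos g1]
        exact le_self_add
      · rw [if_neg g1, if_neg g1, zero_add]
        by_cases g2 : i < i'
        · rw [if_pos g2, if_pos g2]
        · rw [if_neg g2, if_neg g2]
          exact zero_le
    refine (sum_le_sum e1).trans ?_
    rw [sum_add_distrib, sum_add_distrib, Finset.sum_ite_eq' I i' fun _ => P1 μ s N y (La F A I i'), if_pos hi', ← Finset.sum_mul,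
      ← sum_filter, sum_const, nsmul_eq_mul, add_mul, one_mul, add_assoc]
    exact add_le_add le_rfl (add_le_add (mul_le_mul' (hK i' hi') le_rfl) le_rfl)
  refine (sum_le_sum h3).trans ?_
  rw [sum_add_distrib, ← mul_sum, sum_const, nsmul_eq_mul]
  refine add_le_add (mul_le_mul' le_rfl ?_) (le_of_eq (by ring))
  -- the last slots are disjoint
  have hLm : ∀ i, Ms (La F A I i) := fun i => la_ms hF hA I i
  have hU : Ms fun η S => F η S ∧ ∃ i ∈ I, A i η S := ms_and hF (ms_bex I hA)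
  rw [← Q1_ind hU, sum_congr rfl fun i _ => (Q1_ind (hLm i)).symm, ← Q1_sum (μ := μ) (s := s) (N := N) (y := y) I
    (f := fun i η S => ind (La F A I i η S)) fun i S => meas_ind (hLm i S)]
  refine Q1_mono fun η S _ _ => ?_
  by_cases g : ∃ i ∈ I, La F A I i η S
  · obtain ⟨i, hi, g1⟩ := g
    rw [ind_of (show F η S ∧ ∃ i ∈ I, A i η S from ⟨g1.1, i, hi, g1.2.1⟩), Finset.sum_eq_single_of_mem i hi fun k hk hki => ?_]
    · exact ind_le _
    · refine ind_not fun g2 => ?_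
      rcases lt_trichotomy k i with g3 | g3 | g3
      · exact g2.2.2 i hi g3 g1.2.1
      · exact hki g3
      · exact g1.2.2 k hk g3 g2.2.1
  · push Not at g
    rw [Finset.sum_eq_zero fun i hi => ind_not (g i hi)]
    exact zero_le


omit [IsProbabilityMeasure μ] in
theorem la_off {ι : Type*} [LinearOrder ι] {J : Finset ℕ} {F : Env → Finset ℕ → Prop} (hF : OffRows J F)
    {A : ι → Env → Finset ℕ → Prop} {I : Finset ι} {i' : ι} (hi' : i' ∈ I) (h : ∀ k ∈ I, i' ≤ k → OffRows J (A k)) :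
    OffRows J (La F A I i') := fun η η' S e => by
  unfold La
  refine and_congr (hF η η' S e) (and_congr (h i' hi' le_rfl η η' S e) ?_)
  exact forall_congr' fun k => forall_congr' fun hk => forall_congr' fun hik => not_congr (h k hk hik.le η η' S e)

omit [IsProbabilityMeasure μ] in
theorem bex_off {ι : Type*} {J : Finset ℕ} {P : Finset ι} {A : ι → Env → Finset ℕ → Prop} (h : ∀ i ∈ P, OffRows J (A i)) :
    OffRows J fun η S => ∃ i ∈ P, A i η S := fun η η' S e => by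
  refine exists_congr fun i => and_congr_right fun hi => h i hi η η' S e

/-- **SLOTS, the core**: the events of the slots produce near ties at one common place (`Au`), and the event of an earlier slot produces
near ties at a place between the two slots which the later slots do not see. -/
theorem slot_core {ι κ : Type*} [LinearOrder ι] {y : ℕ} (hy : y ≤ N) (I : Finset ι) (X : ι → Finset κ) {m : ℕ}
    (hm : ∀ i ∈ I, (X i).card ≤ m) (c d : ι → κ → ℕ) (hcd : ∀ i ∈ I, ∀ a ∈ X i, c i a ≤ d i a ∧ d i a ≤ N)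
    (B : ι → κ → Finset ℕ → Finset ℕ → Prop) (hB : ∀ i ∈ I, ∀ a ∈ X i, On2 (c i a) (d i a) (B i a)) (x z : ℝ)
    {F : Env → Finset ℕ → Prop} (hF : Ms F) {ru p : ℝ≥0∞} {Au : Finset ℕ → Finset ℕ → Prop} {Ju Vu : Finset ℕ}
    (hPu : Pl μ s N y ru p Au Ju Vu) (hu : ∀ i ∈ I, ∀ a ∈ X i, ∀ S S', B i a S S' → Au S S') (hFu : OffRows Ju F)
    (R : ι → ι → ℝ≥0∞)
    (hR : ∀ i ∈ I, ∀ i' ∈ I, i < i' → 1 ≤ R i i' ∨ ∃ (Ap : Finset ℕ → Finset ℕ → Prop) (Jp Vp : Finset ℕ),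
      Pl μ s N y (R i i') p Ap Jp Vp ∧ (∀ a ∈ X i, ∀ S S', B i a S S' → Ap S S') ∧ OffRows Jp F ∧
      ∀ k ∈ I, i' ≤ k → ∀ a ∈ X k, ∀ j ∈ Jp, j ≤ c k a ∨ d k a < j)
    {K : ℝ≥0∞} (hK : ∀ i' ∈ I, ∑ i ∈ I.filter (fun i => i < i'), R i i' ≤ K) :
    ∑ i ∈ I, P1 μ s N y (fun η S => F η S ∧ ∃ a ∈ X i, Hy μ s N y (c i a) (d i a) (B i a) x η S) ≤
      (1 + K) * (ru * P1 μ s N y F) +
        ((1 + K) * (p + ((I.card * m : ℕ) : ℝ≥0∞) * er N x z p) + (I.card : ℝ≥0∞) ^ 2 * (p + (m : ℝ≥0∞) * er N x z p)) := by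
  classical
  have hAm : ∀ i, Ms fun η S => ∃ a ∈ X i, Hy μ s N y (c i a) (d i a) (B i a) x η S := fun i =>
    ms_bex (X i) fun a => hy_ms _ _
  have hmul : ∀ i ∈ I, ((X i).card : ℝ≥0∞) * er N x z p ≤ (m : ℝ≥0∞) * er N x z p := fun i hi =>
    mul_le_mul' (by exact_mod_cast hm i hi) le_rfl
  have h1 := slot_abs (μ := μ) (s := s) (N := N) (y := (y : ℤ)) I hF hAm R (p + (m : ℝ≥0∞) * er N x z p) K
    (fun i hi i' hi' hlt => ?_) hK
  · refine h1.trans ?_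
    rw [← add_assoc, ← mul_add]
    refine add_le_add (mul_le_mul' le_rfl ?_) le_rfl
    -- the union at one place
    have h2 : P1 μ s N y (fun η S => F η S ∧ ∃ i ∈ I, ∃ a ∈ X i, Hy μ s N y (c i a) (d i a) (B i a) x η S) ≤
        P1 μ s N y (fun η S => F η S ∧ ∃ q ∈ I.sigma X, Hy μ s N y (c q.1 q.2) (d q.1 q.2) (B q.1 q.2) x η S) := by
      refine A12.P1_mono fun η S hev => ⟨hev.1, ?_⟩
      obtain ⟨i, hi, a, ha, h⟩ := hev.2
      exact ⟨⟨i, a⟩, mem_sigma.2 ⟨hi, ha⟩, h⟩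
    refine h2.trans ?_
    have h3 := amp_ex (μ := μ) (s := s) (N := N) (I.sigma X) hy (c := fun q => c q.1 q.2) (d := fun q => d q.1 q.2)
      (fun q hq => (hcd _ (mem_sigma.1 hq).1 _ (mem_sigma.1 hq).2).1) (fun q hq => (hcd _ (mem_sigma.1 hq).1 _ (mem_sigma.1 hq).2).2)
      (A := Au) (A' := fun q => B q.1 q.2) (fun q hq => hB _ (mem_sigma.1 hq).1 _ (mem_sigma.1 hq).2)
      (fun q hq => hu _ (mem_sigma.1 hq).1 _ (mem_sigma.1 hq).2) hPu x z hF hFu
    refine h3.trans (add_le_add le_rfl (add_le_add le_rfl (mul_le_mul' ?_ le_rfl)))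
    have h4 : (I.sigma X).card ≤ I.card * m := by
      rw [card_sigma]
      refine (sum_le_sum hm).trans ?_
      rw [sum_const, smul_eq_mul]
    exact_mod_cast h4
  · -- two slots
    rcases hR i hi i' hi' hlt with h2 | ⟨Ap, Jp, Vp, hPp, h3, h4, h5⟩
    · refine le_trans ?_ le_self_add
      refine (A12.P1_mono fun η S hev => hev.1).trans ?_
      calc P1 μ s N y (La F (fun i η S => ∃ a ∈ X i, Hy μ s N y (c i a) (d i a) (B i a) x η S) I i')
          = 1 * P1 μ s N y (La F (fun i η S => ∃ a ∈ X i, Hy μ s N y (c i a) (d i a) (B i a) x η S) I i') := (one_mul _).symm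
        _ ≤ _ := mul_le_mul' h2 le_rfl
    · refine (amp_ex (μ := μ) (s := s) (N := N) (X i) hy (fun a ha => (hcd i hi a ha).1) (fun a ha => (hcd i hi a ha).2)
        (fun a ha => hB i hi a ha) h3 hPp x z (la_ms hF hAm I i') (la_off h4 hi' fun k hk hik => bex_off fun a ha =>
          hy_off (hcd k hk a ha).1 (hcd k hk a ha).2 _ _ (h5 k hk hik a ha))).trans ?_
      exact add_le_add le_rfl (add_le_add le_rfl (hmul i hi))

/-! ### The numbers -/

omit [IsProbabilityMeasure μ] in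
theorem EE'_pos (t : ℕ) : 0 < EE' μ s t := lt_of_lt_of_le zero_lt_one (le_max_left _ _)

omit [IsProbabilityMeasure μ] in
theorem one_le_EE' (t : ℕ) : 1 ≤ EE' μ s t := le_max_left _ _

theorem inv_sub {K : ℝ} (hK : 1 ≤ K) (hE : ∀ m n : ℕ, 1 ≤ m → m ≤ n → EE' μ s n ≤ K * Real.sqrt ((n : ℝ) / m) * EE' μ s m) {m n D : ℕ}
    (hm : 1 ≤ m) (hmn : m ≤ n) (hD : n ≤ D ^ 2 * m) : (EE' μ s m)⁻¹ ≤ D * K * (EE' μ s n)⁻¹ := by
  have h1 := hE m n hm hmn
  have hm0 : (0 : ℝ) < m := by exact_mod_cast hm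
  have h2 : Real.sqrt ((n : ℝ) / m) ≤ D := by
    rw [Real.sqrt_le_left (Nat.cast_nonneg D), div_le_iff₀ hm0]
    exact_mod_cast hD
  have h3 := EE'_pos (μ := μ) (s := s) m
  have h4 := EE'_pos (μ := μ) (s := s) n
  rw [inv_le_comm₀ h3 (by
    have : 0 < D := by
      rcases Nat.eq_zero_or_pos D with e | e
      · subst e
        simp at hD
        omega
      · exact e
    positivity)]
  have h5 : (D * K * (EE' μ s n)⁻¹)⁻¹ = EE' μ s n / (D * K) := by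
    rw [mul_inv, inv_inv]
    ring
  rw [h5]
  refine div_le_of_le_mul₀ (by positivity) h3.le ?_
  calc EE' μ s n ≤ K * Real.sqrt ((n : ℝ) / m) * EE' μ s m := h1
    _ ≤ K * D * EE' μ s m := mul_le_mul_of_nonneg_right (mul_le_mul_of_nonneg_left h2 (by linarith)) h3.le
    _ = EE' μ s m * (D * K) := by ring

/-- The weight of a pair of slots at the distance `k`. -/
noncomputable def gR (μ : Measure ℝ) (s : ℝ) (T : ℕ) (a : ℝ) (k : ℕ) : ℝ := if k ≤ 4 * T then 1 else a * (EE' μ s (k / 4))⁻¹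

omit [IsProbabilityMeasure μ] in
theorem gR_nonneg {T : ℕ} {a : ℝ} (ha : 0 ≤ a) (k : ℕ) : 0 ≤ gR μ s T a k := by
  unfold gR
  have := EE'_pos (μ := μ) (s := s) (k / 4)
  split_ifs <;> positivity

/-- The sum of the weights. -/
theorem gR_sum {K : ℝ} (hK : 1 ≤ K) (hE : ∀ m n : ℕ, 1 ≤ m → m ≤ n → EE' μ s n ≤ K * Real.sqrt ((n : ℝ) / m) * EE' μ s m)
    {T b : ℕ} (hT : 1 ≤ T) (hb : 1 ≤ b) {a : ℝ} (ha : 0 ≤ a) :
    ∑ k ∈ range b, gR μ s T a k ≤ 5 * T + 9 * K ^ 2 * a * (b * (EE' μ s b)⁻¹) := by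
  have h1 : ∀ k ∈ range b, gR μ s T a k ≤ (if k < 4 * T + 1 then 1 else 0) + 3 * K * a * (1 / EE' μ s (max k 1)) := by
    intro k _
    have h0 := EE'_pos (μ := μ) (s := s) (max k 1)
    unfold gR
    by_cases g : k ≤ 4 * T
    · rw [if_pos g, if_pos (by omega)]
      have : 0 ≤ 3 * K * a * (1 / EE' μ s (max k 1)) := by positivity
      linarith
    · rw [if_neg g, if_neg (by omega), zero_add]
      have e : max k 1 = k := by omega
      rw [e]
      have h2 := inv_sub (μ := μ) (s := s) hK hE (m := k / 4) (n := k) (D := 3) (by omega) (by omega) (by omega)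
      calc a * (EE' μ s (k / 4))⁻¹ ≤ a * ((3 : ℕ) * K * (EE' μ s k)⁻¹) := mul_le_mul_of_nonneg_left h2 ha
        _ = 3 * K * a * (1 / EE' μ s k) := by push_cast; ring
  refine (sum_le_sum h1).trans ?_
  rw [sum_add_distrib, ← mul_sum]
  have h2 := Pool.Agent.W_7d29a1_C0.GS4.sum_inv_le (E := EE' μ s) (fun n => EE'_pos n) (show (0 : ℝ) ≤ K by linarith) hE (s := 1)
    (s' := b) le_rfl hb
  have h3 : ∑ k ∈ range b, (if k < 4 * T + 1 then (1 : ℝ) else 0) ≤ 5 * T := by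
    rw [← sum_filter, sum_const, nsmul_eq_mul, mul_one]
    have h4 : (range b).filter (fun k => k < 4 * T + 1) ⊆ range (4 * T + 1) := fun k hk => mem_range.2 (mem_filter.1 hk).2
    have h5 := card_le_card h4
    rw [card_range] at h5
    have h6 : 4 * T + 1 ≤ 5 * T := by omega
    exact_mod_cast h5.trans h6
  refine add_le_add h3 ?_
  calc 3 * K * a * ∑ k ∈ range b, 1 / EE' μ s (max k 1) ≤ 3 * K * a * (3 * K * (b / EE' μ s b)) :=
        mul_le_mul_of_nonneg_left h2 (by positivity)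
    _ = 9 * K ^ 2 * a * (b * (EE' μ s b)⁻¹) := by ring


/-- The two paths meet in `[c, d]` before and behind the window `[τ, τ + t / 4]`, not in the window, and one end of the gap is near. -/
def Bkn (c d t τ : ℕ) (S S' : Finset ℕ) : Prop := ∃ a b' : ℕ, c ≤ a ∧ a ≤ τ ∧ τ + t / 4 ≤ b' ∧ b' ≤ d ∧
  (τ ≤ a + 12 * t ∨ b' ≤ τ + 12 * t) ∧ pos S a = pos S' a ∧ pos S b' = pos S' b' ∧ NoMeet τ (τ + t / 4) S S'

/-- **NEAR TIES WITH ONE END OF THE GAP NEAR THE PLACE**, priced off the place only (LocB15, helper15). -/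
def PlNear (μ : Measure ℝ) (s : ℝ) : Prop := ∀ ε θ : ℝ, 0 < ε → 0 < θ → ∃ δ c' : ℝ, 0 < δ ∧ 0 < c' ∧ ∃ L₀ : ℕ,
    ∀ L : ℕ, L₀ ≤ L → ∀ N t : ℕ, L ≤ 16 * N → N ≤ L → (L : ℝ) ^ θ ≤ t → t ≤ N →
    ∀ y : ℤ, 0 ≤ y → y ≤ N → |(y : ℝ) - sl μ s * N| ≤ ((L : ℝ) ^ δ * wd' μ s N) → ∀ τ c d : ℕ, d ≤ N →
    Pl μ s N y (ENNReal.ofReal ((L : ℝ) ^ ε * (EE' μ s t)⁻¹)) (ENNReal.ofReal (Real.exp (-(L : ℝ) ^ c'))) (Bkn c d t τ)
      (Ico τ (τ + t)) (Ioc c d)

/-- **SLOTS, the final form**: rows `φ i`, `i ∈ I`, in a stretch of length at most `b`. -/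
theorem slot_fin (h : In μ s c₀ C₀ n₀) (hN : PlNear μ s) : ∀ ε θ : ℝ, 0 < ε → 0 < θ → ∃ δ c₂ : ℝ, 0 < δ ∧ 0 < c₂ ∧ ∃ L₀ : ℕ,
    ∀ L : ℕ, L₀ ≤ L → ∀ N : ℕ, L ≤ 16 * N → N ≤ L → ∀ y : ℕ, y ≤ N → |(y : ℝ) - sl μ s * N| ≤ ((L : ℝ) ^ δ * wd' μ s N) →
    ∀ T b lo : ℕ, (L : ℝ) ^ θ ≤ T → 256 * T ≤ b → b ≤ N → ∀ x : ℝ, x ≤ (L : ℝ) ^ c₂ →
    ∀ (ι : Type) [LinearOrder ι] (I : Finset ι) (φ : ι → ℕ), Set.InjOn φ (I : Set ι) → (∀ i ∈ I, lo ≤ φ i ∧ φ i < lo + b) →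
    ∀ X : ι → Finset ℕ, (∀ i ∈ I, (X i).card ≤ 2 * T + 1) → ∀ c d : ι → ℕ → ℕ, (∀ i ∈ I, ∀ a ∈ X i, c i a ≤ d i a ∧ d i a ≤ N) →
    ∀ B : ι → ℕ → Finset ℕ → Finset ℕ → Prop, (∀ i ∈ I, ∀ a ∈ X i, On2 (c i a) (d i a) (B i a)) →
    ∀ F : Env → Finset ℕ → Prop, Ms F →
    ∀ τu : ℕ, (∀ i ∈ I, ∀ a ∈ X i, ∀ S S', B i a S S' → Bkn 0 N (b / 64) τu S S') → OffRows (Ico τu (τu + b / 64)) F →
    (∀ i ∈ I, ∀ i' ∈ I, i < i' → 4 * T < Nat.dist (φ i') (φ i) → ∃ τ : ℕ,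
      (∀ a ∈ X i, ∀ S S', B i a S S' → Bkn 0 N (Nat.dist (φ i') (φ i) / 4) τ S S') ∧
      OffRows (Ico τ (τ + Nat.dist (φ i') (φ i) / 4)) F ∧
      ∀ k ∈ I, i' ≤ k → ∀ a ∈ X k, ∀ j ∈ Ico τ (τ + Nat.dist (φ i') (φ i) / 4), j ≤ c k a ∨ d k a < j) →
    ∑ i ∈ I, P1 μ s N y (fun η S => F η S ∧ ∃ a ∈ X i, Hy μ s N y (c i a) (d i a) (B i a) x η S) ≤
      ENNReal.ofReal ((L : ℝ) ^ ε * (((T : ℝ) + b * (EE' μ s b)⁻¹) * (EE' μ s b)⁻¹)) * P1 μ s N y F +
        ENNReal.ofReal (Real.exp (-(L : ℝ) ^ c₂)) := by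
  intro ε θ hε hθ
  obtain ⟨a₀, K, -, -, hK, hE⟩ := EE'_pow h
  have hE3 : ∀ m n : ℕ, 1 ≤ m → m ≤ n → EE' μ s n ≤ K * Real.sqrt ((n : ℝ) / m) * EE' μ s m := fun m n h1 h2 => (hE m n h1 h2).2.2
  obtain ⟨δ, c', hδ, hc', L₁, hP⟩ := hN (ε / 3) θ (by positivity) hθ
  obtain ⟨c₂, hc₂, hc₂', L₂, hX⟩ := Pool.Agent.W_7d29a1_Z.NumI77.pow_exp (show 0 < c' / 4 by positivity) (ε / 3 + 8)
  obtain ⟨L₃, hL₃⟩ := Pool.Agent.W_7d29a1_Z.NumI77.large (show 0 < c' / 4 by positivity) 2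
  obtain ⟨L₄, hL₄⟩ := Pool.Agent.W_7d29a1_Z.NumI77.large (show 0 < ε / 3 by positivity) (20 * (12 * K) * (18 * K ^ 2))
  obtain ⟨L₅, hL₅⟩ := Pool.Agent.W_7d29a1_Z.NumI77.large hθ 1
  refine ⟨δ, c₂, hδ, hc₂, L₁ + L₂ + L₃ + L₄ + L₅ + ⌈18 * K ^ 2⌉₊ + 100, ?_⟩
  intro L hL N hLN hNL y hyN hyc T b lo hT hTb hbN x hx ι _ I φ hφ hφb X hXc c d hcd B hB F hF τu hu hFu hp
  have hL100 : (100 : ℝ) ≤ L := by exact_mod_cast (show 100 ≤ L by omega)
  have hL0 : (0 : ℝ) < L := by linarith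
  have hL1 : (1 : ℝ) ≤ L := by linarith
  have hy0 : (0 : ℤ) ≤ y := by positivity
  have hyN' : (y : ℤ) ≤ N := by exact_mod_cast hyN
  have hyc' : |((y : ℤ) : ℝ) - sl μ s * N| ≤ ((L : ℝ) ^ δ * wd' μ s N) := by
    push_cast
    exact hyc
  have hT1 : 1 ≤ T := by
    have h1 := (hL₅ L (by omega)).2.1
    have h2 : (1 : ℝ) ≤ T := h1.trans hT
    exact_mod_cast h2
  have hb1 : 256 ≤ b := by omega
  have hEb := EE'_pos (μ := μ) (s := s) b
  have hEb1 := one_le_EE' (μ := μ) (s := s) b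
  set w : ℝ := (L : ℝ) ^ (ε / 3) with hw
  have hw1 : 1 ≤ w := Real.one_le_rpow hL1 (by positivity)
  have hwC : 20 * (12 * K) * (18 * K ^ 2) ≤ w := (hL₄ L (by omega)).2.1
  have hwt : ∀ t : ℕ, T ≤ t → t ≤ N → (L : ℝ) ^ θ ≤ t := fun t h1 _ => hT.trans (by exact_mod_cast h1)
  -- the common place
  have hPu := hP L (by omega) N (b / 64) hLN hNL (hwt _ (by omega) (by omega)) (by omega) y hy0 hyN' hyc' τu 0 N le_rfl
  have hru : ENNReal.ofReal (w * (EE' μ s (b / 64))⁻¹) ≤ ENNReal.ofReal (w * (12 * K * (EE' μ s b)⁻¹)) := by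
    refine ENNReal.ofReal_le_ofReal (mul_le_mul_of_nonneg_left ?_ (by linarith))
    have h1 := inv_sub (μ := μ) (s := s) hK hE3 (m := b / 64) (n := b) (D := 12) (by omega) (by omega) (by omega)
    push_cast at h1
    exact h1
  obtain ⟨z, hz⟩ : ∃ z : ℝ, z = (L : ℝ) ^ (c' / 2) := ⟨_, rfl⟩
  have hdist : ∀ i ∈ I, ∀ i' ∈ I, Nat.dist (φ i') (φ i) < b := fun i hi i' hi' => by
    have h1 := hφb i hi
    have h2 := hφb i' hi'
    unfold Nat.dist
    omega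
  have hcore := slot_core (μ := μ) (s := s) (N := N) hyN I X hXc c d hcd B hB x z hF (hPu.mono_r hru) hu hFu
    (fun i i' => ENNReal.ofReal (gR μ s T w (Nat.dist (φ i') (φ i)))) (fun i hi i' hi' hlt => ?_)
    (K := ENNReal.ofReal (2 * (5 * T + 9 * K ^ 2 * w * (b * (EE' μ s b)⁻¹)))) (fun i' hi' => ?_)
  · -- the numbers
    refine hcore.trans ?_
    have hT0 : (1 : ℝ) ≤ T := by exact_mod_cast hT1
    have hb0 : (0 : ℝ) ≤ b := Nat.cast_nonneg b
    have hbL : (b : ℝ) ≤ L := by exact_mod_cast hbN.trans hNL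
    have hTL : 256 * (T : ℝ) ≤ L := by exact_mod_cast hTb.trans (hbN.trans hNL)
    have hEi : (EE' μ s b)⁻¹ ≤ 1 := inv_le_one_of_one_le₀ hEb1
    have hEi0 : 0 ≤ (EE' μ s b)⁻¹ := (inv_pos.2 hEb).le
    obtain ⟨u, hu'⟩ : ∃ u : ℝ, u = (EE' μ s b)⁻¹ := ⟨_, rfl⟩
    rw [← hu'] at hEi hEi0 ⊢
    have hK2 : 1 ≤ K ^ 2 := one_le_pow₀ hK
    have hKK : (1 : ℝ≥0∞) + ENNReal.ofReal (2 * (5 * T + 9 * K ^ 2 * w * (b * u))) ≤
        ENNReal.ofReal (w * (18 * K ^ 2) * (T + b * u)) := by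
      rw [← ENNReal.ofReal_one, ← ENNReal.ofReal_add zero_le_one (by positivity)]
      refine ENNReal.ofReal_le_ofReal ?_
      have h1 : (11 : ℝ) * T ≤ w * (18 * K ^ 2) * T := by
        refine mul_le_mul_of_nonneg_right ?_ (by linarith)
        nlinarith
      calc 1 + 2 * (5 * (T : ℝ) + 9 * K ^ 2 * w * (b * u)) ≤ 11 * T + w * (18 * K ^ 2) * (b * u) := by nlinarith
        _ ≤ w * (18 * K ^ 2) * T + w * (18 * K ^ 2) * (b * u) := by linarith
        _ = _ := by ring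
    refine add_le_add ?_ ?_
    · rw [← mul_assoc]
      refine mul_le_mul' ((mul_le_mul' hKK le_rfl).trans ?_) le_rfl
      rw [← ENNReal.ofReal_mul (by positivity)]
      refine ENNReal.ofReal_le_ofReal ?_
      have e3 : (L : ℝ) ^ ε = w * w * w := by
        rw [hw, ← Real.rpow_add hL0, ← Real.rpow_add hL0]
        congr 1
        ring
      have h0 : 0 ≤ ((T : ℝ) + b * u) * u := by positivity
      calc w * (18 * K ^ 2) * (T + b * u) * (w * (12 * K * u)) = w * w * ((12 * K) * (18 * K ^ 2)) * (((T : ℝ) + b * u) * u) := by ring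
        _ ≤ w * w * w * (((T : ℝ) + b * u) * u) := by
          refine mul_le_mul_of_nonneg_right (mul_le_mul_of_nonneg_left ?_ (by positivity)) h0
          have : 0 ≤ (12 * K) * (18 * K ^ 2) := by positivity
          linarith
        _ = (L : ℝ) ^ ε * (((T : ℝ) + b * u) * u) := by rw [e3]
    · -- the error
      have hKK2 : (1 : ℝ≥0∞) + ENNReal.ofReal (2 * (5 * T + 9 * K ^ 2 * w * (b * u))) ≤ ENNReal.ofReal (w * (L : ℝ) ^ 3) := by
        refine hKK.trans (ENNReal.ofReal_le_ofReal ?_)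
        have h1 : 18 * K ^ 2 ≤ L := by
          have h2 : 18 * K ^ 2 ≤ (⌈18 * K ^ 2⌉₊ : ℝ) := Nat.le_ceil _
          have h3 : ((⌈18 * K ^ 2⌉₊ : ℕ) : ℝ) ≤ L := by exact_mod_cast (show ⌈18 * K ^ 2⌉₊ ≤ L by omega)
          linarith
        have h2 : (T : ℝ) + b * u ≤ L ^ 2 := by
          have h3 : b * u ≤ L * 1 := mul_le_mul hbL hEi hEi0 hL0.le
          nlinarith
        calc w * (18 * K ^ 2) * (T + b * u) ≤ w * L * L ^ 2 := by gcongr
          _ = w * (L : ℝ) ^ 3 := by ring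
      obtain ⟨E₃, hE₃⟩ : ∃ E₃ : ℝ, E₃ = Real.exp (-(L : ℝ) ^ (c' / 4)) := ⟨_, rfl⟩
      have hE₃0 : 0 < E₃ := hE₃ ▸ Real.exp_pos _
      have hz4 : z = (L : ℝ) ^ (c' / 4) * (L : ℝ) ^ (c' / 4) := by
        rw [hz, ← Real.rpow_add hL0]
        congr 1
        ring
      have hv2 : 2 ≤ (L : ℝ) ^ (c' / 4) := (hL₃ L (by omega)).2.1
      have hzz : (L : ℝ) ^ c' = z * z := by
        rw [hz, ← Real.rpow_add hL0]
        congr 1
        ring
      have hxv : x ≤ (L : ℝ) ^ (c' / 4) := hx.trans (Real.rpow_le_rpow_of_exponent_le hL1 hc₂'.le)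
      have hz2v : 2 * (L : ℝ) ^ (c' / 4) ≤ z := by
        rw [hz4]
        exact mul_le_mul_of_nonneg_right hv2 (by positivity)
      have hz4' : 4 ≤ z := by linarith
      have hpE : Real.exp (-(L : ℝ) ^ c') ≤ E₃ := by
        rw [hE₃, Real.exp_le_exp, hzz]
        nlinarith
      have her : er N x z (ENNReal.ofReal (Real.exp (-(L : ℝ) ^ c'))) ≤ ENNReal.ofReal (5 * (L : ℝ) ^ 2 * E₃) := by
        unfold er
        rw [← ENNReal.ofReal_mul (Real.exp_pos _).le, ← Real.exp_add, ← ENNReal.ofReal_add (Real.exp_pos _).le (by positivity),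
          ← ENNReal.ofReal_mul (Real.exp_pos _).le]
        refine ENNReal.ofReal_le_ofReal ?_
        have h1 : Real.exp (z + -(L : ℝ) ^ c') ≤ Real.exp (-z) := by
          rw [Real.exp_le_exp, hzz]
          nlinarith
        have h2 : Real.exp x * Real.exp (-z) ≤ E₃ := by
          rw [← Real.exp_add, hE₃, Real.exp_le_exp]
          linarith
        have h3 : (((N : ℝ) + 1) ^ 2 + 1) ≤ 5 * (L : ℝ) ^ 2 := by
          have h4 : (N : ℝ) ≤ L := by exact_mod_cast hNL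
          have h5 : (0 : ℝ) ≤ N := Nat.cast_nonneg N
          nlinarith
        calc Real.exp x * (Real.exp (z + -(L : ℝ) ^ c') + ((N : ℝ) + 1) ^ 2 * Real.exp (-z))
            ≤ Real.exp x * (Real.exp (-z) + ((N : ℝ) + 1) ^ 2 * Real.exp (-z)) :=
              mul_le_mul_of_nonneg_left (add_le_add h1 le_rfl) (Real.exp_pos _).le
          _ = (((N : ℝ) + 1) ^ 2 + 1) * (Real.exp x * Real.exp (-z)) := by ring
          _ ≤ 5 * (L : ℝ) ^ 2 * E₃ := mul_le_mul h3 h2 (by positivity) (by positivity)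
      have hIc : (I.card : ℝ) ≤ L := by
        have h1 : I.card ≤ b := by
          have h2 : I.image φ ⊆ Ico lo (lo + b) := fun k hk => by
            obtain ⟨i, hi, rfl⟩ := mem_image.1 hk
            exact mem_Ico.2 (hφb i hi)
          have h3 := card_le_card h2
          rw [card_image_of_injOn hφ, Nat.card_Ico, Nat.add_sub_cancel_left] at h3
          exact h3
        exact_mod_cast h1.trans (hbN.trans hNL)
      have hIc' : (I.card : ℝ≥0∞) ≤ ENNReal.ofReal L := by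
        rw [← ENNReal.ofReal_natCast]
        exact ENNReal.ofReal_le_ofReal hIc
      have hmL : (((2 * T + 1 : ℕ)) : ℝ) ≤ L := by
        push_cast
        linarith
      have hmL' : ((2 * T + 1 : ℕ) : ℝ≥0∞) ≤ ENNReal.ofReal L := by
        rw [← ENNReal.ofReal_natCast]
        exact ENNReal.ofReal_le_ofReal hmL
      have t1 : ((I.card * (2 * T + 1) : ℕ) : ℝ≥0∞) * er N x z (ENNReal.ofReal (Real.exp (-(L : ℝ) ^ c'))) ≤
          ENNReal.ofReal (5 * (L : ℝ) ^ 4 * E₃) := by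
        rw [Nat.cast_mul]
        refine (mul_le_mul' (mul_le_mul' hIc' hmL') her).trans ?_
        rw [← ENNReal.ofReal_mul hL0.le, ← ENNReal.ofReal_mul (by positivity)]
        exact ENNReal.ofReal_le_ofReal (le_of_eq (by ring))
      have t2 : ((2 * T + 1 : ℕ) : ℝ≥0∞) * er N x z (ENNReal.ofReal (Real.exp (-(L : ℝ) ^ c'))) ≤
          ENNReal.ofReal (5 * (L : ℝ) ^ 3 * E₃) := by
        refine (mul_le_mul' hmL' her).trans ?_
        rw [← ENNReal.ofReal_mul hL0.le]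
        exact ENNReal.ofReal_le_ofReal (le_of_eq (by ring))
      have t3 : ENNReal.ofReal (Real.exp (-(L : ℝ) ^ c')) ≤ ENNReal.ofReal E₃ := ENNReal.ofReal_le_ofReal hpE
      refine (add_le_add (mul_le_mul' hKK2 (add_le_add t3 t1)) (mul_le_mul' (pow_le_pow_left' hIc' 2) (add_le_add t3 t2))).trans ?_
      rw [← ENNReal.ofReal_add hE₃0.le (by positivity), ← ENNReal.ofReal_add hE₃0.le (by positivity),
        ← ENNReal.ofReal_mul (by positivity), ← ENNReal.ofReal_pow hL0.le, ← ENNReal.ofReal_mul (by positivity),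
        ← ENNReal.ofReal_add (by positivity) (by positivity)]
      refine ENNReal.ofReal_le_ofReal ?_
      have h5 := hX L (by omega)
      rw [← hE₃, Real.rpow_add hL0, ← hw] at h5
      refine le_trans ?_ h5
      have e8 : (L : ℝ) ^ (8 : ℝ) = (L : ℝ) ^ 8 := by
        rw [← Real.rpow_natCast]
        norm_num
      rw [e8]
      have p1 : (1 : ℝ) ≤ (L : ℝ) ^ 4 := one_le_pow₀ hL1
      have p2 : (1 : ℝ) ≤ (L : ℝ) ^ 3 := one_le_pow₀ hL1
      have h6 : w * (L : ℝ) ^ 3 * (E₃ + 5 * (L : ℝ) ^ 4 * E₃) ≤ 6 * (w * (L : ℝ) ^ 7 * E₃) := by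
        have : E₃ + 5 * (L : ℝ) ^ 4 * E₃ ≤ 6 * ((L : ℝ) ^ 4 * E₃) := by nlinarith
        calc w * (L : ℝ) ^ 3 * (E₃ + 5 * (L : ℝ) ^ 4 * E₃) ≤ w * (L : ℝ) ^ 3 * (6 * ((L : ℝ) ^ 4 * E₃)) :=
              mul_le_mul_of_nonneg_left this (by positivity)
          _ = 6 * (w * (L : ℝ) ^ 7 * E₃) := by ring
      have h7 : (L : ℝ) ^ 2 * (E₃ + 5 * (L : ℝ) ^ 3 * E₃) ≤ 6 * (w * (L : ℝ) ^ 7 * E₃) := by
        have : E₃ + 5 * (L : ℝ) ^ 3 * E₃ ≤ 6 * ((L : ℝ) ^ 3 * E₃) := by nlinarith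
        calc (L : ℝ) ^ 2 * (E₃ + 5 * (L : ℝ) ^ 3 * E₃) ≤ (L : ℝ) ^ 2 * (6 * ((L : ℝ) ^ 3 * E₃)) :=
              mul_le_mul_of_nonneg_left this (by positivity)
          _ = 6 * (1 * (L : ℝ) ^ 5 * E₃) := by ring
          _ ≤ 6 * (w * (L : ℝ) ^ 7 * E₃) := by
              have : (L : ℝ) ^ 5 ≤ (L : ℝ) ^ 7 := pow_le_pow_right₀ hL1 (by norm_num)
              gcongr
      have h8 : 12 * (w * (L : ℝ) ^ 7 * E₃) ≤ w * (L : ℝ) ^ 8 * E₃ := by
        have e1 : w * (L : ℝ) ^ 8 * E₃ = L * (w * (L : ℝ) ^ 7 * E₃) := by ring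
        rw [e1]
        exact mul_le_mul_of_nonneg_right (by linarith) (by positivity)
      linarith
  · -- two slots
    by_cases g : Nat.dist (φ i') (φ i) ≤ 4 * T
    · left
      show 1 ≤ ENNReal.ofReal (gR μ s T w (Nat.dist (φ i') (φ i)))
      unfold gR
      rw [if_pos g, ENNReal.ofReal_one]
    · right
      obtain ⟨τ, q1, q2, q3⟩ := hp i hi i' hi' hlt (not_le.1 g)
      have q4 := hdist i hi i' hi'
      refine ⟨Bkn 0 N (Nat.dist (φ i') (φ i) / 4) τ, Ico τ (τ + Nat.dist (φ i') (φ i) / 4), Ioc 0 N, ?_, q1, q2, q3⟩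
      show Pl μ s N y (ENNReal.ofReal (gR μ s T w (Nat.dist (φ i') (φ i)))) _ _ _ _
      unfold gR
      rw [if_neg g]
      exact hP L (by omega) N (Nat.dist (φ i') (φ i) / 4) hLN hNL (hwt _ (by omega) (by omega)) (by omega) y hy0 hyN' hyc' τ 0 N le_rfl
  · -- the sum of the weights
    rw [← ENNReal.ofReal_sum_of_nonneg fun i _ => gR_nonneg (by linarith) _]
    refine ENNReal.ofReal_le_ofReal ?_
    have h1 : ∑ i ∈ I.filter (fun i => i < i'), gR μ s T w (Nat.dist (φ i') (φ i)) ≤ ∑ i ∈ I, gR μ s T w (Nat.dist (φ i') (φ i)) :=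
      sum_le_sum_of_subset_of_nonneg (filter_subset _ _) fun i _ _ => gR_nonneg (by linarith) _
    refine h1.trans ?_
    rw [← sum_image (f := fun k => gR μ s T w (Nat.dist (φ i') k)) hφ]
    have h2 := Pool.Agent.W_7d29a1_C0.GS4.row_le (S := I.image φ) (c := lo) (L := b) (fun k hk => by
      obtain ⟨i, hi, rfl⟩ := mem_image.1 hk
      exact hφb i hi) (Φ := gR μ s T w) (fun m => gR_nonneg (by linarith) m) (hφb i' hi').1 (hφb i' hi').2
    refine h2.trans ?_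
    exact mul_le_mul_of_nonneg_left (gR_sum hK hE3 hT1 (by omega) (by linarith)) (by norm_num)


/-! ### Openings and closings -/

omit [IsProbabilityMeasure μ] in
/-- The replica given the path outside of `[c, d)` agrees with it at the ends. -/
theorem ends_of {S S' : Finset ℕ} {c d : ℕ} (h1 : S' \ Ico c d = S \ Ico c d)
    (h2 : (S' ∩ Ico c d).card = (S ∩ Ico c d).card) : pos S c = pos S' c ∧ pos S d = pos S' d := by
  classical
  have hS : S ∈ ({S, S'} : Finset (Finset ℕ)) := by simp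
  have hS' : S' ∈ ({S, S'} : Finset (Finset ℕ)) := by simp
  have h : pJ c d (⟨S, hS⟩ : Px ({S, S'} : Finset (Finset ℕ))) = pJ c d (⟨S', hS'⟩ : Px ({S, S'} : Finset (Finset ℕ))) :=
    Prod.ext h1.symm h2.symm
  exact ⟨ps_of_le h le_rfl, ps_of_ge h le_rfl⟩

omit [IsProbabilityMeasure μ] in
theorem hy_ends {c d y : ℕ} {A : Finset ℕ → Finset ℕ → Prop} {x : ℝ} {η : Env} {S : Finset ℕ} (h : Hy μ s N y c d A x η S) :
    Hy μ s N y c d (fun S S' => pos S c = pos S' c ∧ pos S d = pos S' d ∧ A S S') x η S :=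
  hy_mono (fun _ h1 h2 hA => ⟨(ends_of h1 h2).1, (ends_of h1 h2).2, hA⟩) h

/-- **OPENINGS**: the replica opens in `[c, c + 2 T]`, stays apart up to the row `lo + b / 8` and closes before or at the row `e c`; `c`
runs over a stretch of length at most `b / 64`. -/
theorem slotL (h : In μ s c₀ C₀ n₀) (hN : PlNear μ s) : ∀ ε θ : ℝ, 0 < ε → 0 < θ → ∃ δ c₂ : ℝ, 0 < δ ∧ 0 < c₂ ∧ ∃ L₀ : ℕ,
    ∀ L : ℕ, L₀ ≤ L → ∀ N : ℕ, L ≤ 16 * N → N ≤ L → ∀ y : ℕ, y ≤ N → |(y : ℝ) - sl μ s * N| ≤ ((L : ℝ) ^ δ * wd' μ s N) →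
    ∀ T b lo : ℕ, (L : ℝ) ^ θ ≤ T → 256 * T ≤ b → b ≤ N → ∀ x : ℝ, x ≤ (L : ℝ) ^ c₂ →
    ∀ CC : Finset ℕ, (∀ c ∈ CC, lo ≤ c ∧ c < lo + b / 64) → ∀ e : ℕ → ℕ, (∀ c ∈ CC, lo + b / 8 ≤ e c ∧ e c ≤ N) →
    ∀ F : Env → Finset ℕ → Prop, Ms F → OffRows (Ico lo (lo + b / 16)) F →
    ∑ c ∈ CC, P1 μ s N y (fun η S => F η S ∧ ∃ a ∈ Icc c (c + 2 * T), Hy μ s N y a (e c) (NoMeet (a + 1) (lo + b / 8)) x η S) ≤
      ENNReal.ofReal ((L : ℝ) ^ ε * (((T : ℝ) + b * (EE' μ s b)⁻¹) * (EE' μ s b)⁻¹)) * P1 μ s N y F +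
        ENNReal.ofReal (Real.exp (-(L : ℝ) ^ c₂)) := by
  intro ε θ hε hθ
  obtain ⟨δ, c₂, hδ, hc₂, L₀, hP⟩ := slot_fin h hN ε θ hε hθ
  obtain ⟨L₅, hL₅⟩ := Pool.Agent.W_7d29a1_Z.NumI77.large hθ 1
  refine ⟨δ, c₂, hδ, hc₂, L₀ + L₅, fun L hL N hLN hNL y hyN hyc T b lo hT hTb hbN x hx CC hCC e he F hF hFo => ?_⟩
  have hT1 : 1 ≤ T := by
    have h1 := (hL₅ L (by omega)).2.1
    have h2 : (1 : ℝ) ≤ T := h1.trans hT
    exact_mod_cast h2
  have hoff : ∀ J : Finset ℕ, J ⊆ Ico lo (lo + b / 16) → OffRows J F := fun J hJ η η' S hq =>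
    hFo η η' S fun q hq' => hq q fun h1 => hq' ⟨h1.1, hJ h1.2⟩
  refine le_trans (sum_le_sum fun c _ => A12.P1_mono fun η S hev => ?_) (hP L (by omega) N hLN hNL y hyN hyc T b lo hT hTb hbN x hx ℕ CC id
    (Function.injective_id.injOn) (fun c hc => ?_) (fun c => Icc c (c + 2 * T)) (fun c hc => ?_) (fun c a => a) (fun c a => e c)
    (fun c hc a ha => ?_) (fun c a S S' => pos S a = pos S' a ∧ pos S (e c) = pos S' (e c) ∧ NoMeet (a + 1) (lo + b / 8) S S')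
    (fun c hc a ha => ?_) F hF (lo + b / 32) (fun c hc a ha S S' hB => ?_) (hoff _ fun j hj => ?_) fun c hc c' hc' hlt hd => ?_)
  · exact ⟨hev.1, hev.2.imp fun a ha => ⟨ha.1, hy_ends ha.2⟩⟩
  · have := hCC c hc
    show lo ≤ c ∧ c < lo + b
    omega
  · rw [Nat.card_Icc]
    omega
  · have h1 := hCC c hc
    have h2 := he c hc
    rw [mem_Icc] at ha
    show a ≤ e c ∧ e c ≤ N
    omega
  · have h1 := hCC c hc
    have h2 := he c hc
    rw [mem_Icc] at ha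
    intro S S' S'' hS
    show (pos S a = pos S' a ∧ pos S (e c) = pos S' (e c) ∧ NoMeet (a + 1) (lo + b / 8) S S') ↔
      (pos S a = pos S'' a ∧ pos S (e c) = pos S'' (e c) ∧ NoMeet (a + 1) (lo + b / 8) S S'')
    have g1 := hS a (show a ≤ a from le_rfl) (show a ≤ e c by omega)
    have g2 := hS (e c) (show a ≤ e c by omega) (show e c ≤ e c from le_rfl)
    rw [g1, g2]
    refine and_congr_right fun _ => and_congr_right fun _ => ?_
    constructor
    · intro g k hk1 hk2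
      rw [← hS k (show a ≤ k by omega) (show k ≤ e c by omega)]
      exact g k hk1 hk2
    · intro g k hk1 hk2
      rw [hS k (show a ≤ k by omega) (show k ≤ e c by omega)]
      exact g k hk1 hk2
  · have h1 := hCC c hc
    have h2 := he c hc
    rw [mem_Icc] at ha
    obtain ⟨g1, g2, g3⟩ := hB
    exact ⟨a, e c, by omega, by omega, by omega, by omega, Or.inl (by omega), g1, g2, fun k hk1 hk2 => g3 k (by omega) (by omega)⟩
  · rw [mem_Ico] at hj ⊢
    omega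
  · have h1 := hCC c hc
    have h1' := hCC c' hc'
    have h2 := he c hc
    have hdd : Nat.dist (id c') (id c) = c' - c := by
      show Nat.dist c' c = c' - c
      unfold Nat.dist
      have : c < c' := hlt
      omega
    rw [hdd] at hd ⊢
    have hlt' : c < c' := hlt
    refine ⟨c + 2 * T + 1, fun a ha S S' hB => ?_, hoff _ fun j hj => ?_, fun k hk hkc a ha j hj => ?_⟩
    · rw [mem_Icc] at ha
      obtain ⟨g1, g2, g3⟩ := hB
      exact ⟨a, e c, by omega, by omega, by omega, by omega, Or.inl (by omega), g1, g2, fun k hk1 hk2 => g3 k (by omega) (by omega)⟩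
    · rw [mem_Ico] at hj ⊢
      omega
    · left
      rw [mem_Icc] at ha
      rw [mem_Ico] at hj
      have hkc' : c' ≤ k := hkc
      show j ≤ a
      omega

/-- **CLOSINGS**: the replica of the block which begins at the row `e d` is apart from the row `hi - b / 8` on and closes in
`[d - 2 T, d]`; `d` runs over a stretch of length at most `b / 64`. -/
theorem slotR (h : In μ s c₀ C₀ n₀) (hN : PlNear μ s) : ∀ ε θ : ℝ, 0 < ε → 0 < θ → ∃ δ c₂ : ℝ, 0 < δ ∧ 0 < c₂ ∧ ∃ L₀ : ℕ,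
    ∀ L : ℕ, L₀ ≤ L → ∀ N : ℕ, L ≤ 16 * N → N ≤ L → ∀ y : ℕ, y ≤ N → |(y : ℝ) - sl μ s * N| ≤ ((L : ℝ) ^ δ * wd' μ s N) →
    ∀ T b hi : ℕ, (L : ℝ) ^ θ ≤ T → 256 * T ≤ b → b ≤ hi → hi ≤ N → ∀ x : ℝ, x ≤ (L : ℝ) ^ c₂ →
    ∀ DD : Finset ℕ, (∀ d ∈ DD, hi < d + b / 64 ∧ d ≤ hi) → ∀ e : ℕ → ℕ, (∀ d ∈ DD, e d + b / 8 ≤ hi) →
    ∀ F : Env → Finset ℕ → Prop, Ms F → OffRows (Ioc (hi - b / 16) hi) F →
    ∑ d ∈ DD, P1 μ s N y (fun η S => F η S ∧ ∃ a ∈ Icc (d - 2 * T) d, Hy μ s N y (e d) a (NoMeet (hi - b / 8) (a - 1)) x η S) ≤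
      ENNReal.ofReal ((L : ℝ) ^ ε * (((T : ℝ) + b * (EE' μ s b)⁻¹) * (EE' μ s b)⁻¹)) * P1 μ s N y F +
        ENNReal.ofReal (Real.exp (-(L : ℝ) ^ c₂)) := by
  intro ε θ hε hθ
  obtain ⟨δ, c₂, hδ, hc₂, L₀, hP⟩ := slot_fin h hN ε θ hε hθ
  obtain ⟨L₅, hL₅⟩ := Pool.Agent.W_7d29a1_Z.NumI77.large hθ 1
  refine ⟨δ, c₂, hδ, hc₂, L₀ + L₅, fun L hL N hLN hNL y hyN hyc T b hi hT hTb hbhi hhiN x hx DD hDD e he F hF hFo => ?_⟩
  have hT1 : 1 ≤ T := by
    have h1 := (hL₅ L (by omega)).2.1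
    have h2 : (1 : ℝ) ≤ T := h1.trans hT
    exact_mod_cast h2
  have hoff : ∀ J : Finset ℕ, J ⊆ Ioc (hi - b / 16) hi → OffRows J F := fun J hJ η η' S hq =>
    hFo η η' S fun q hq' => hq q fun h1 => hq' ⟨h1.1, hJ h1.2⟩
  have hmem : ∀ d : ℕᵒᵈ, d ∈ DD.map OrderDual.toDual.toEmbedding ↔ OrderDual.ofDual d ∈ DD := fun d => by
    rw [Finset.mem_map]
    constructor
    · rintro ⟨k, hk, rfl⟩
      exact hk
    · exact fun hk => ⟨_, hk, rfl⟩
  have e0 : ∑ d ∈ DD, P1 μ s N y (fun η S => F η S ∧ ∃ a ∈ Icc (d - 2 * T) d, Hy μ s N y (e d) a (NoMeet (hi - b / 8) (a - 1)) x η S) =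
      ∑ d ∈ DD.map OrderDual.toDual.toEmbedding, P1 μ s N y (fun η S => F η S ∧ ∃ a ∈ Icc (OrderDual.ofDual d - 2 * T) (OrderDual.ofDual d),
        Hy μ s N y (e (OrderDual.ofDual d)) a (NoMeet (hi - b / 8) (a - 1)) x η S) := by
    rw [sum_map]
    rfl
  rw [e0]
  refine le_trans (sum_le_sum fun d _ => A12.P1_mono fun η S hev => ?_) (hP L (by omega) N hLN hNL y hyN hyc T b (hi + 1 - b) hT hTb
    (by omega) x hx ℕᵒᵈ (DD.map OrderDual.toDual.toEmbedding) OrderDual.ofDual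
    (OrderDual.ofDual.injective.injOn) (fun d hd => ?_) (fun d => Icc (OrderDual.ofDual d - 2 * T) (OrderDual.ofDual d)) (fun d hd => ?_)
    (fun d a => e (OrderDual.ofDual d)) (fun d a => a) (fun d hd a ha => ?_)
    (fun d a S S' => pos S (e (OrderDual.ofDual d)) = pos S' (e (OrderDual.ofDual d)) ∧ pos S a = pos S' a ∧ NoMeet (hi - b / 8) (a - 1) S S')
    (fun d hd a ha => ?_) F hF (hi - b / 16 + 1) (fun d hd a ha S S' hB => ?_) (hoff _ fun j hj => ?_) fun d hd d' hd' hlt hdist => ?_)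
  · exact ⟨hev.1, hev.2.imp fun a ha => ⟨ha.1, hy_ends ha.2⟩⟩
  · have := hDD _ ((hmem d).1 hd)
    omega
  · rw [Nat.card_Icc]
    omega
  · have h1 := hDD _ ((hmem d).1 hd)
    have h2 := he _ ((hmem d).1 hd)
    rw [mem_Icc] at ha
    show e (OrderDual.ofDual d) ≤ a ∧ a ≤ N
    omega
  · have h1 := hDD _ ((hmem d).1 hd)
    have h2 := he _ ((hmem d).1 hd)
    rw [mem_Icc] at ha
    obtain ⟨f, hf⟩ : ∃ f, f = e (OrderDual.ofDual d) := ⟨_, rfl⟩
    rw [← hf] at h2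
    intro S S' S'' hS
    show (pos S (e (OrderDual.ofDual d)) = pos S' (e (OrderDual.ofDual d)) ∧ pos S a = pos S' a ∧ NoMeet (hi - b / 8) (a - 1) S S') ↔
      (pos S (e (OrderDual.ofDual d)) = pos S'' (e (OrderDual.ofDual d)) ∧ pos S a = pos S'' a ∧ NoMeet (hi - b / 8) (a - 1) S S'')
    rw [← hf]
    have hS' : ∀ i, f ≤ i → i ≤ a → pos S' i = pos S'' i := fun i h1 h2 => hS i (hf ▸ h1) h2
    have g1 := hS' a (show f ≤ a by omega) le_rfl
    have g2 := hS' f le_rfl (show f ≤ a by omega)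
    rw [g1, g2]
    refine and_congr_right fun _ => and_congr_right fun _ => ?_
    constructor
    · intro g k hk1 hk2
      rw [← hS' k (show f ≤ k by omega) (show k ≤ a by omega)]
      exact g k hk1 hk2
    · intro g k hk1 hk2
      rw [hS' k (show f ≤ k by omega) (show k ≤ a by omega)]
      exact g k hk1 hk2
  · have h1 := hDD _ ((hmem d).1 hd)
    have h2 := he _ ((hmem d).1 hd)
    rw [mem_Icc] at ha
    obtain ⟨g1, g2, g3⟩ := hB
    exact ⟨e (OrderDual.ofDual d), a, by omega, by omega, by omega, by omega, Or.inr (by omega), g1, g2,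
      fun k hk1 hk2 => g3 k (by omega) (by omega)⟩
  · rw [mem_Ico] at hj
    rw [mem_Ioc]
    omega
  · have h1 := hDD _ ((hmem d).1 hd)
    have h1' := hDD _ ((hmem d').1 hd')
    have h2 := he _ ((hmem d).1 hd)
    have hlt' : OrderDual.ofDual d' < OrderDual.ofDual d := hlt
    have hdd : Nat.dist (OrderDual.ofDual d') (OrderDual.ofDual d) = OrderDual.ofDual d - OrderDual.ofDual d' := by
      unfold Nat.dist
      omega
    rw [hdd] at hdist ⊢
    refine ⟨OrderDual.ofDual d' + 1, fun a ha S S' hB => ?_, hoff _ fun j hj => ?_, fun k hk hkc a ha j hj => ?_⟩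
    · rw [mem_Icc] at ha
      obtain ⟨g1, g2, g3⟩ := hB
      exact ⟨e (OrderDual.ofDual d), a, by omega, by omega, by omega, by omega, Or.inr (by omega), g1, g2,
        fun k hk1 hk2 => g3 k (by omega) (by omega)⟩
    · rw [mem_Ico] at hj
      rw [mem_Ioc]
      omega
    · right
      rw [mem_Icc] at ha
      rw [mem_Ico] at hj
      have hkc' : OrderDual.ofDual k ≤ OrderDual.ofDual d' := hkc
      show a < j
      omega

end Pool.Agent.W_7d29a1_C0.P3
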