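import Pool.Agent.W_7d29a1_C0.StripP80

/-!
MP_7d29a1_pr, [CURV0], leaf E5.2 (helper80): THE TWO MARGINS OF THE STRIP.

`wpr_right`: the price of the right margin `[be, d]` given every weight which does not see the rows behind `be` (block place `pl_blk`).
`wpr_left`: the price of the left margin `[c, al]` given every weight which does not see the rows before `al`, from places with the left
end of the gap near (`NearP`; dyadic decomposition of the distance of the last common point). `strip_two`: the strip.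
-/

set_option autoImplicit false
set_option linter.unusedSectionVars false

namespace Pool.Agent.W_7d29a1_C0.Strip80

open Finset MeasureTheory Pool.Agent.W_7d29a1_F Pool.Agent.W_7d29a1_X Pool.Agent.W_7d29a1_H Pool.Agent.W_7d29a1_C0.Mod92
open Pool.Agent.W_7d29a1_HS (In wd md)
open Pool.Agent.W_7d29a1_HZ
open Pool.Agent.W_7d29a1_HZ.R72 Pool.Agent.W_7d29a1_Z.Asm72 Pool.Agent.W_7d29a1_HZ.Z86
open Pool.Agent.W_7d29a1_C0.P86 (Q1 ind Pl Q1_ind Q1_pair Q1_mono Q1_add Q1_sum ind_of ind_not ind_le Bk NoMeet OffW wt_of_ev P2_comm meas_ind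
  pl_blk price_sum)
open Pool.W7d29a1.C0 (gz gm lse gz_pos gz_ne gm_nonneg gm_mono)
open Pool.W7d29a1.C0.VT31
open Pool.Agent.W_7d29a1_C0.Swap57
open scoped ENNReal

variable {μ : Measure ℝ} {s : ℝ} {N : ℕ}

/-- The two paths meet at a time `a ∈ [τ - 2 t, τ]` and at a time `b' ≥ τ + t / 4`, and not in the window `[τ, τ + t / 4]`. -/
def BkL (N t τ : ℕ) (S S' : Finset ℕ) : Prop := ∃ a b' : ℕ, a ≤ τ ∧ τ ≤ a + 2 * t ∧ τ + t / 4 ≤ b' ∧ b' ≤ N ∧
  pos S a = pos S' a ∧ pos S b' = pos S' b' ∧ NoMeet τ (τ + t / 4) S S'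

variable [IsProbabilityMeasure μ]

/-- **A place and a free replica, with a weight.** -/
theorem q1_pl {y : ℤ} (h0 : 0 ≤ y) (h1 : y ≤ N) {r p : ℝ≥0∞} {A : Finset ℕ → Finset ℕ → Prop} {J V : Finset ℕ}
    (hP : Pl μ s N y r p A J V) {f : Env → Finset ℕ → ℝ≥0∞} (hf : ∀ S, Measurable fun η => f η S) (hf1 : ∀ η S, f η S ≤ 1)
    (hfo : OffW J f) : Q1 μ s N y (fun η S => f η S * fr80 μ s N y A η S) ≤ r * Q1 μ s N y f + (p + p) := by
  obtain ⟨NT, n1, -, n3, n4⟩ := hP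
  have e1 : Q1 μ s N y (fun η S => f η S * fr80 μ s N y A η S) ≤
      Q1 μ s N y (fun η S => f η S * ind (NT η S) + fr80 μ s N y A η S * ind (¬ NT η S)) := by
    refine Q1_mono fun η S hS hSy => ?_
    by_cases h : NT η S
    · rw [ind_of h, mul_one]
      refine le_trans ?_ le_self_add
      exact mul_le_of_le_one_right zero_le (fr80_le_one h0 h1 _ η S)
    · rw [ind_of h, mul_one]
      refine le_trans ?_ le_add_self
      exact mul_le_of_le_one_left zero_le (hf1 η S)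
  have m1 : ∀ S, Measurable fun η : Env => f η S * ind (NT η S) := fun S => (hf S).mul (meas_ind (n1 S))
  refine e1.trans ?_
  rw [Q1_add m1]
  have e3 : Q1 μ s N y (fun η S => fr80 μ s N y A η S * ind (¬ NT η S)) ≤ p := by
    unfold fr80
    rw [Q1_pair (B := fun η S => ¬ NT η S) fun S => (n1 S).compl, P2_comm]
    exact n3
  have e4 : Q1 μ s N y (fun η S => f η S * ind (NT η S)) ≤ r * Q1 μ s N y f + p :=
    wt_of_ev n1 (JJ := {J}) (fun F hF hFo => n4 F hF (hFo J rfl)) hf hf1 fun J' hJ' => by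
      rw [Set.mem_singleton_iff] at hJ'
      rw [hJ']
      exact hfo
  calc _ ≤ (r * Q1 μ s N y f + p) + p := add_le_add e4 e3
    _ = r * Q1 μ s N y f + (p + p) := by rw [add_assoc]

/-- **A union of places.** -/
theorem wpr_union {y : ℤ} (h0 : 0 ≤ y) (h1 : y ≤ N) {ι : Type*} (I : Finset ι) {r : ι → ℝ≥0∞} {p : ℝ≥0∞}
    {A : ι → Finset ℕ → Finset ℕ → Prop} {J : ι → Finset ℕ} {J0 : Finset ℕ} (hJ : ∀ m ∈ I, J m ⊆ J0)
    (hP : ∀ m ∈ I, ∃ V, Pl μ s N y (r m) p (A m) (J m) V) {i j : ℕ}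
    (hA : ∀ S S' : Finset ℕ, S ⊆ range N → S' ⊆ range N → pos S N = y → pos S' N = y → NoMeet i j S S' → ∃ m ∈ I, A m S S') :
    WPr μ s N y (∑ m ∈ I, r m) (I.card * (p + p)) i j J0 := by
  classical
  intro f hf hf1 hfo
  have e1 : Q1 μ s N y (fun η S => f η S * fr80 μ s N y (NoMeet i j) η S) ≤
      Q1 μ s N y (fun η S => ∑ m ∈ I, f η S * fr80 μ s N y (A m) η S) := by
    refine Q1_mono fun η S hS hSy => ?_
    rw [← mul_sum]
    refine mul_le_mul' le_rfl ?_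
    unfold fr80
    rw [sum_comm]
    refine sum_le_sum fun S' hS' => ?_
    rw [← mul_sum]
    by_cases hy : pos S' N = y
    · refine mul_le_mul' le_rfl ?_
      by_cases hn : NoMeet i j S S'
      · obtain ⟨m, hm, hAm⟩ := hA S S' hS (mem_powerset.1 hS') hSy hy hn
        rw [ind_of hn]
        calc (1 : ℝ≥0∞) = ind (A m S S') := (ind_of hAm).symm
          _ ≤ ∑ m ∈ I, ind (A m S S') := single_le_sum (f := fun m => ind (A m S S')) (fun _ _ => zero_le) hm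
      · rw [ind_not hn]
        exact zero_le
    · have e : gp μ s η N y S' = 0 := by
        unfold gp
        rw [if_neg hy]
      rw [e, ENNReal.ofReal_zero, zero_mul, zero_mul]
  refine e1.trans ?_
  rw [Q1_sum I (f := fun m η S => f η S * fr80 μ s N y (A m) η S) fun m S => (hf S).mul (meas_fr80 y (A m) S)]
  have e2 : ∀ m ∈ I, Q1 μ s N y (fun η S => f η S * fr80 μ s N y (A m) η S) ≤ r m * Q1 μ s N y f + (p + p) := by
    intro m hm
    obtain ⟨V, hV⟩ := hP m hm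
    exact q1_pl h0 h1 hV hf hf1 fun η η' S e => hfo η η' S fun q hq => e q fun h => hq ⟨h.1, hJ m hm h.2⟩
  refine (sum_le_sum e2).trans ?_
  rw [sum_add_distrib, ← sum_mul, sum_const, nsmul_eq_mul]

/-! ### The two margins -/

variable {c₀ C₀ : ℝ} {n₀ : ℕ}

omit [IsProbabilityMeasure μ] in
theorem pos_z (S : Finset ℕ) : pos S 0 = 0 := by
  unfold pos
  simp

/-- **The price of the right margin.** -/
theorem wpr_right (h : In μ s c₀ C₀ n₀) : ∀ ε θ : ℝ, 0 < ε → 0 < θ → ∃ δ c' : ℝ, 0 < δ ∧ 0 < c' ∧ ∃ L₀ : ℕ,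
    ∀ L : ℕ, L₀ ≤ L → ∀ N : ℕ, L ≤ 16 * N → N ≤ L →
    ∀ y : ℤ, 0 ≤ y → y ≤ N → |(y : ℝ) - sl μ s * N| ≤ ((L : ℝ) ^ δ * wd' μ s N) → ∀ be d : ℕ, be ≤ d → d ≤ N → (L : ℝ) ^ θ ≤ ((d - be : ℕ) : ℝ) →
    WPr μ s N y (ENNReal.ofReal ((L : ℝ) ^ ε * (EE' μ s (d - be))⁻¹)) (ENNReal.ofReal (2 * Real.exp (-(L : ℝ) ^ c'))) be d (Ico be N) := by
  intro ε θ hε hθ
  obtain ⟨δ, c', hδ, hc', L₀, hP⟩ := pl_blk h ε θ hε hθ
  refine ⟨δ, c', hδ, hc', L₀, fun L hL N hLN hNL y hy0 hyN hyc be d hbd hdN hθL => ?_⟩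
  have hp := hP L hL N (d - be) hLN hNL hθL (by omega) y hy0 hyN hyc be 0 N (Nat.zero_le _) le_rfl
  have e : ENNReal.ofReal (2 * Real.exp (-(L : ℝ) ^ c')) = ENNReal.ofReal (Real.exp (-(L : ℝ) ^ c')) + ENNReal.ofReal (Real.exp (-(L : ℝ) ^ c')) := by
    rw [← ENNReal.ofReal_add (Real.exp_pos _).le (Real.exp_pos _).le]
    congr 1
    ring
  rw [e]
  refine wpr_of_pl hy0 hyN hp fun S S' hS hS' hSy hSy' hn => ?_
  refine ⟨0, N, le_rfl, Nat.zero_le _, by omega, le_rfl, ?_, ?_, fun k hk hk' => hn k hk (by omega)⟩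
  · rw [pos_z, pos_z]
  · rw [hSy, hSy']

/-- Places with the left end of the gap near. -/
def NearP (μ : Measure ℝ) (s : ℝ) : Prop := ∀ ε θ : ℝ, 0 < ε → 0 < θ → ∃ δ c' : ℝ, 0 < δ ∧ 0 < c' ∧ ∃ L₀ : ℕ,
    ∀ L : ℕ, L₀ ≤ L → ∀ N t : ℕ, L ≤ 16 * N → N ≤ L → (L : ℝ) ^ θ ≤ t → t ≤ N →
    ∀ y : ℤ, 0 ≤ y → y ≤ N → |(y : ℝ) - sl μ s * N| ≤ ((L : ℝ) ^ δ * wd' μ s N) → ∀ τ : ℕ, τ + t ≤ N →
    ∃ V, Pl μ s N y (ENNReal.ofReal ((L : ℝ) ^ ε * (EE' μ s t)⁻¹)) (ENNReal.ofReal (Real.exp (-(L : ℝ) ^ c'))) (BkL N t τ)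
      (Ico τ (τ + t)) V

/-- **The price of the left margin.** -/
theorem wpr_left (h : In μ s c₀ C₀ n₀) (hN : NearP μ s) : ∀ ε θ : ℝ, 0 < ε → 0 < θ → ∃ δ c' : ℝ, 0 < δ ∧ 0 < c' ∧ ∃ L₀ : ℕ,
    ∀ L : ℕ, L₀ ≤ L → ∀ N : ℕ, L ≤ 16 * N → N ≤ L →
    ∀ y : ℤ, 0 ≤ y → y ≤ N → |(y : ℝ) - sl μ s * N| ≤ ((L : ℝ) ^ δ * wd' μ s N) → ∀ c al : ℕ, c ≤ al → al ≤ N → (L : ℝ) ^ θ ≤ ((al - c : ℕ) : ℝ) →
    WPr μ s N y (ENNReal.ofReal ((L : ℝ) ^ ε * (EE' μ s (al - c))⁻¹)) (ENNReal.ofReal (Real.exp (-(L : ℝ) ^ c'))) c al (range al) := by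
  intro ε θ hε hθ
  obtain ⟨δ, c₁, hδ, hc₁, L₁, hP⟩ := hN (ε / 2) (θ / 2) (by positivity) (by positivity)
  obtain ⟨L₂, hS⟩ := price_sum h ε θ hε hθ
  obtain ⟨c', hc', -, L₃, hX⟩ := Pool.Agent.W_7d29a1_Z.NumI77.pow_exp hc₁ 2
  refine ⟨δ, c', hδ, hc', L₁ + L₂ + L₃ + 4, fun L hL N hLN hNL y hy0 hyN hyc c al hca halN hθL => ?_⟩
  have hL4 : (4 : ℝ) ≤ L := by exact_mod_cast (show 4 ≤ L by omega)
  obtain ⟨s1, s2, s3⟩ := hS L (by omega) N (al - c) ((al - c) / 4) hNL hθL (by omega) rfl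
  obtain ⟨D, hD⟩ : ∃ D, D = (al - c) / 4 := ⟨_, rfl⟩
  rw [← hD] at s1 s2 s3
  obtain ⟨I, hI⟩ : ∃ I : Finset ℕ, I = (range (Nat.log 2 N + 1)).filter fun m => 2 ^ m * D ≤ N ∧ (m ≠ 0 → 2 ^ m * D ≤ c) := ⟨_, rfl⟩
  obtain ⟨τ, hτ⟩ : ∃ τ : ℕ → ℕ, τ = fun m => if m = 0 then c else c - 2 ^ m * D := ⟨_, rfl⟩
  have hτ0 : τ 0 = c := by rw [hτ]; rfl
  have hτm : ∀ m, m ≠ 0 → τ m = c - 2 ^ m * D := fun m hm => by
    rw [hτ]
    exact if_neg hm
  have hends : ∀ m ∈ I, τ m + 2 ^ m * D ≤ al := by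
    intro m hm
    rw [hI, mem_filter] at hm
    by_cases h0 : m = 0
    · subst h0
      rw [hτ0, pow_zero, one_mul]
      omega
    · rw [hτm m h0]
      have := hm.2.2 h0
      omega
  have hW := wpr_union (μ := μ) (s := s) (N := N) hy0 hyN I
    (r := fun m => ENNReal.ofReal ((L : ℝ) ^ (ε / 2) * (EE' μ s (2 ^ m * D))⁻¹)) (p := ENNReal.ofReal (Real.exp (-(L : ℝ) ^ c₁)))
    (A := fun m => BkL N (2 ^ m * D) (τ m)) (J := fun m => Ico (τ m) (τ m + 2 ^ m * D)) (J0 := range al)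
    (fun m hm q hq => by
      rw [mem_Ico] at hq
      rw [mem_range]
      have := hends m hm
      omega)
    (fun m hm => hP L (by omega) N (2 ^ m * D) hLN hNL (s1 m) (by
      rw [hI, mem_filter] at hm
      exact hm.2.1) y hy0 hyN hyc (τ m) ((hends m hm).trans halN)) (i := c) (j := al)
    (fun S S' hS hS' hSy hSy' hn => by
      -- the last common point before `c`
      have hex : ∃ a, a ≤ c ∧ pos S a = pos S' a ∧ ∀ k, a < k → k ≤ c → pos S k ≠ pos S' k := by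
        classical
        have hne : ((range (c + 1)).filter fun k => pos S k = pos S' k).Nonempty := ⟨0, by
          rw [mem_filter, mem_range, pos_z, pos_z]
          exact ⟨by omega, rfl⟩⟩
        obtain ⟨h1, h2⟩ := mem_filter.1 (max'_mem _ hne)
        refine ⟨_, Nat.lt_succ_iff.1 (mem_range.1 h1), h2, fun k hk hk' he => ?_⟩
        have := le_max' ((range (c + 1)).filter fun k => pos S k = pos S' k) k (mem_filter.2 ⟨mem_range.2 (by omega), he⟩)
        omega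
      obtain ⟨a, ha1, ha2, ha3⟩ := hex
      have hac : a < c := by
        refine lt_of_le_of_ne ha1 fun e => ?_
        subst e
        exact hn a le_rfl hca ha2
      have hno : ∀ k, a < k → k ≤ al → pos S k ≠ pos S' k := fun k hk hk' => by
        by_cases hkc : k ≤ c
        · exact ha3 k hk hkc
        · exact hn k (by omega) hk'
      by_cases hsm : c - a ≤ 2 * D
      · refine ⟨0, ?_, a, N, ?_, ?_, ?_, le_rfl, ha2, by rw [hSy, hSy'], fun k hk hk' => ?_⟩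
        · rw [hI, mem_filter, mem_range]
          exact ⟨by omega, by omega, fun h => absurd rfl h⟩
        · rw [hτ0]
          omega
        · rw [hτ0]
          omega
        · rw [hτ0]
          omega
        · rw [hτ0] at hk hk'
          exact hno k (by omega) (by omega)
      · obtain ⟨m, hm⟩ : ∃ m, m = Nat.log 2 ((c - a - 1) / D) := ⟨_, rfl⟩
        have hq2 : 2 ≤ (c - a - 1) / D := by
          rw [Nat.le_div_iff_mul_le s2]
          omega
        have h1 : 2 ^ m ≤ (c - a - 1) / D := by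
          rw [hm]
          exact Nat.pow_log_le_self 2 (by omega)
        have h2 : (c - a - 1) / D < 2 ^ (m + 1) := by
          rw [hm]
          exact Nat.lt_pow_succ_log_self (by norm_num) _
        have h3 : 2 ^ m * D ≤ c - a - 1 := (Nat.le_div_iff_mul_le s2).1 h1
        have h4 : c - a - 1 < 2 ^ (m + 1) * D := (Nat.div_lt_iff_lt_mul s2).1 h2
        have h5 : 2 ^ (m + 1) * D = 2 * (2 ^ m * D) := by ring
        have hm0 : m ≠ 0 := by
          rintro rfl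
          rw [hm] at h2
          have : (c - a - 1) / D < 2 ^ (0 + 1) := by
            rw [← hm] at h2
            exact h2
          omega
        have hmN : m < Nat.log 2 N + 1 := by
          have : m ≤ Nat.log 2 N := by
            rw [hm]
            refine Nat.log_mono_right ((Nat.div_le_self _ _).trans ?_)
            omega
          omega
        have hDm : D ≤ 2 ^ m * D := Nat.le_mul_of_pos_left _ (by positivity)
        refine ⟨m, ?_, a, N, ?_, ?_, ?_, le_rfl, ha2, by rw [hSy, hSy'], fun k hk hk' => ?_⟩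
        · rw [hI, mem_filter, mem_range]
          exact ⟨hmN, by omega, fun _ => by omega⟩
        · rw [hτm m hm0]
          omega
        · rw [hτm m hm0]
          omega
        · rw [hτm m hm0]
          omega
        · rw [hτm m hm0] at hk hk'
          exact hno k (by omega) (by omega))
  have hE0 : ∀ t, 0 < EE' μ s t := fun t => lt_of_lt_of_le zero_lt_one (le_max_left _ _)
  have hL0 : (0 : ℝ) < L := by linarith
  have hx0 : ∀ m : ℕ, 0 ≤ (L : ℝ) ^ (ε / 2) * (EE' μ s (2 ^ m * D))⁻¹ := fun m => by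
    have := hE0 (2 ^ m * D)
    positivity
  refine hW.mono ?_ ?_ le_rfl le_rfl subset_rfl
  · rw [← ENNReal.ofReal_sum_of_nonneg fun m _ => hx0 m]
    refine ENNReal.ofReal_le_ofReal ?_
    calc ∑ m ∈ I, (L : ℝ) ^ (ε / 2) * (EE' μ s (2 ^ m * D))⁻¹
        ≤ ∑ m ∈ range (Nat.log 2 N + 1), (L : ℝ) ^ (ε / 2) * (EE' μ s (2 ^ m * D))⁻¹ := by
          refine sum_le_sum_of_subset_of_nonneg ?_ fun m _ _ => hx0 m
          rw [hI]
          exact filter_subset _ _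
      _ ≤ ∑ m ∈ range (Nat.log 2 N + 1), ∑ _k ∈ range 65, (L : ℝ) ^ (ε / 2) * (EE' μ s (2 ^ m * D))⁻¹ := by
          refine sum_le_sum fun m _ => ?_
          rw [sum_const, card_range, nsmul_eq_mul]
          have := hx0 m
          push_cast
          linarith
      _ = ∑ p ∈ range (Nat.log 2 N + 1) ×ˢ range 65, (L : ℝ) ^ (ε / 2) * (EE' μ s (2 ^ p.1 * D))⁻¹ := by
          rw [sum_product]
      _ ≤ (L : ℝ) ^ ε * (EE' μ s (al - c))⁻¹ := s3
  · have hcard : (I.card : ℝ) ≤ L := by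
      have h1 : I.card ≤ Nat.log 2 N + 1 := by
        rw [hI]
        exact (card_filter_le _ _).trans (card_range _).le
      have h2 : Nat.log 2 N < N ∨ N = 0 := by
        rcases Nat.eq_zero_or_pos N with h0 | h0
        · exact Or.inr h0
        · exact Or.inl (Nat.log_lt_of_lt_pow (by omega) (Nat.lt_two_pow_self))
      have h3 : I.card ≤ L := by
        rcases h2 with h2 | h2
        · omega
        · rw [h2] at h1
          simp at h1
          omega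
      exact_mod_cast h3
    have e1 : (I.card : ℝ≥0∞) * (ENNReal.ofReal (Real.exp (-(L : ℝ) ^ c₁)) + ENNReal.ofReal (Real.exp (-(L : ℝ) ^ c₁))) =
        ENNReal.ofReal (I.card * (2 * Real.exp (-(L : ℝ) ^ c₁))) := by
      rw [← ENNReal.ofReal_add (Real.exp_pos _).le (Real.exp_pos _).le, ENNReal.ofReal_mul (Nat.cast_nonneg _), ENNReal.ofReal_natCast,
        ← two_mul]
    rw [e1]
    refine ENNReal.ofReal_le_ofReal (le_trans ?_ (hX L (by omega)))
    have h2 : (L : ℝ) ^ (2 : ℝ) = L * L := by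
      rw [Real.rpow_two, sq]
    rw [h2]
    have h3 := Real.exp_pos (-(L : ℝ) ^ c₁)
    have h4 : (I.card : ℝ) * 2 ≤ L * L := by nlinarith
    calc (I.card : ℝ) * (2 * Real.exp (-(L : ℝ) ^ c₁)) = (I.card * 2) * Real.exp (-(L : ℝ) ^ c₁) := by ring
      _ ≤ L * L * Real.exp (-(L : ℝ) ^ c₁) := mul_le_mul_of_nonneg_right h4 h3.le

/-- **THE STRIP OF THE OUTER TIE.** `D` reads the path in the rows `[al, be]` and the environment in the rows `[al, be)`; both margins of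
the block `[c, d)` have length at least `l`. -/
theorem strip_two (h : In μ s c₀ C₀ n₀) (hN : NearP μ s) : ∀ ε θ : ℝ, 0 < ε → 0 < θ → ∃ δ c' : ℝ, 0 < δ ∧ 0 < c' ∧ ∃ L₀ : ℕ,
    ∀ L : ℕ, L₀ ≤ L → ∀ N : ℕ, L ≤ 16 * N → N ≤ L →
    ∀ y : ℕ, y ≤ N → |(y : ℝ) - sl μ s * N| ≤ ((L : ℝ) ^ δ * wd' μ s N) → ∀ c al be d l : ℕ, c + l ≤ al → al ≤ be → be + l ≤ d → d ≤ N →
    (L : ℝ) ^ θ ≤ l → ∀ (D : Env × Finset ℕ → Px (Pn N y) → ℝ) (M : ℝ), (∀ ω S, |D ω S| ≤ M) → (∀ S, Measurable fun ω => D ω S) →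
    OffD (range al) D → OffD (Ico be N) D → (∀ ω, Lk al be (D ω)) →
    ∫ ω, gv (wm μ s N (Pn N y) ω) (cE (wm μ s N (Pn N y) ω) (pJ c d) (D ω)) ∂(Pm μ N) ≤
      (L : ℝ) ^ ε * (EE' μ s l)⁻¹ * (∫ ω, gm (wm μ s N (Pn N y) ω) (fun S => D ω S ^ 2) ∂(Pm μ N)) +
        M ^ 2 * Real.exp (-(L : ℝ) ^ c') := by
  intro ε θ hε hθ
  obtain ⟨δ1, c1, hδ1, hc1, L1, h1⟩ := wpr_left h hN (ε / 2) θ (by positivity) hθ
  obtain ⟨δ2, c2, hδ2, hc2, L2, h2⟩ := wpr_right h (ε / 2) θ (by positivity) hθ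
  obtain ⟨c3, hc3, -, L3, h3⟩ := Pool.Agent.W_7d29a1_Z.NumI77.pow_exp (lt_min hc1 hc2) 2
  obtain ⟨L4, h4⟩ := Pool.Agent.W_7d29a1_Z.NumI77.large (show 0 < ε / 2 by positivity) 4
  refine ⟨min δ1 δ2, c3, lt_min hδ1 hδ2, hc3, L1 + L2 + L3 + L4 + 4, ?_⟩
  intro L hL N hLN hNL y hyN hyc c al be d l hcal hab hbd hdN hlL D M hD hDm hDo1 hDo2 hLk
  obtain ⟨hL1, hL4, -⟩ := h4 L (by omega)
  have hLR : (1 : ℝ) ≤ L := by exact_mod_cast hL1
  have hL0 : (0 : ℝ) < L := by linarith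
  have hL4' : (4 : ℝ) ≤ L := by exact_mod_cast (show 4 ≤ L by omega)
  have hwd : 0 < wd' μ s N := lt_of_lt_of_le zero_lt_one (le_max_left _ _)
  have hE0 : 0 < EE' μ s l := lt_of_lt_of_le zero_lt_one (le_max_left _ _)
  have cone : ∀ δ', min δ1 δ2 ≤ δ' → |((y : ℤ) : ℝ) - sl μ s * N| ≤ ((L : ℝ) ^ δ' * wd' μ s N) := fun δ' hδ' => by
    rw [Int.cast_natCast]
    exact hyc.trans (mul_le_mul_of_nonneg_right (Real.rpow_le_rpow_of_exponent_le hLR hδ') hwd.le)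
  obtain ⟨r, hr⟩ : ∃ r : ℝ, r = (L : ℝ) ^ (ε / 2) * (EE' μ s l)⁻¹ := ⟨_, rfl⟩
  obtain ⟨p, hp⟩ : ∃ p : ℝ, p = 2 * Real.exp (-(L : ℝ) ^ (min c1 c2)) := ⟨_, rfl⟩
  have hr0 : 0 ≤ r := by
    rw [hr]
    positivity
  have hp0 : 0 ≤ p := by
    rw [hp]
    positivity
  have e1 : Real.exp (-(L : ℝ) ^ c1) ≤ Real.exp (-(L : ℝ) ^ (min c1 c2)) := Pool.Agent.W_7d29a1_Z.NumI77.exp_mono (min_le_left _ _) hL1
  have e2 : Real.exp (-(L : ℝ) ^ c2) ≤ Real.exp (-(L : ℝ) ^ (min c1 c2)) := Pool.Agent.W_7d29a1_Z.NumI77.exp_mono (min_le_right _ _) hL1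
  have w1 : WPr μ s N y (ENNReal.ofReal r) (ENNReal.ofReal p) c al (range al) := by
    have hl : al - (al - l) = l := by omega
    have := h1 L (by omega) N hLN hNL y (by positivity) (by exact_mod_cast hyN) (cone δ1 (min_le_left _ _)) (al - l) al (by omega) (by omega)
      (by rw [hl]; exact hlL)
    rw [hl, ← hr] at this
    refine this.mono le_rfl (ENNReal.ofReal_le_ofReal ?_) (by omega) le_rfl subset_rfl
    rw [hp]
    have := Real.exp_pos (-(L : ℝ) ^ (min c1 c2))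
    linarith
  have w2 : WPr μ s N y (ENNReal.ofReal r) (ENNReal.ofReal p) be d (Ico be N) := by
    have hl : be + l - be = l := by omega
    have := h2 L (by omega) N hLN hNL y (by positivity) (by exact_mod_cast hyN) (cone δ2 (min_le_right _ _)) be (be + l) (by omega) (by omega)
      (by rw [hl]; exact hlL)
    rw [hl, ← hr] at this
    refine this.mono le_rfl (ENNReal.ofReal_le_ofReal ?_) le_rfl hbd subset_rfl
    rw [hp]
    linarith
  have h5 := strip_Pm hyN hr0 hp0 hab w1 w2 hD hDm hDo1 hDo2 hLk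
  have hne : Nonempty (Px (Pn N y)) := ne_Pn hyN
  have hI0 : 0 ≤ ∫ ω, gm (wm μ s N (Pn N y) ω) (fun S => D ω S ^ 2) ∂(Pm μ N) :=
    integral_nonneg fun ω => gm_nonneg _ fun S => sq_nonneg _
  refine h5.trans (add_le_add (mul_le_mul_of_nonneg_right ?_ hI0) ?_)
  · rw [hr]
    have e3 : (L : ℝ) ^ ε = (L : ℝ) ^ (ε / 2) * (L : ℝ) ^ (ε / 2) := by
      rw [← Real.rpow_add hL0]
      congr 1
      ring
    rw [e3]
    have e4 : 0 ≤ (L : ℝ) ^ (ε / 2) * (EE' μ s l)⁻¹ := by positivity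
    calc 4 * ((L : ℝ) ^ (ε / 2) * (EE' μ s l)⁻¹) ≤ (L : ℝ) ^ (ε / 2) * ((L : ℝ) ^ (ε / 2) * (EE' μ s l)⁻¹) :=
          mul_le_mul_of_nonneg_right hL4 e4
      _ = _ := by ring
  · have e5 := h3 L (by omega)
    have e6 : (L : ℝ) ^ (2 : ℝ) = L * L := by
      rw [Real.rpow_two, sq]
    rw [e6] at e5
    have e7 := Real.exp_pos (-(L : ℝ) ^ (min c1 c2))
    have e8 : 8 * Real.exp (-(L : ℝ) ^ (min c1 c2)) ≤ Real.exp (-(L : ℝ) ^ c3) :=
      le_trans (mul_le_mul_of_nonneg_right (by nlinarith) e7.le) e5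
    calc 4 * M ^ 2 * p = M ^ 2 * (8 * Real.exp (-(L : ℝ) ^ (min c1 c2))) := by
          rw [hp]
          ring
      _ ≤ M ^ 2 * Real.exp (-(L : ℝ) ^ c3) := mul_le_mul_of_nonneg_left e8 (sq_nonneg M)

end Pool.Agent.W_7d29a1_C0.Strip80
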