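import Pool.Agent.W_7d29a1_C0.Two57

/-!
MP_7d29a1_pr, [CURV0], leaf E5.2 (helper80): THE OUTER TIE BY A WEIGHTED SWAP.

For a functional `D` of the rows `[al, be]` inside of a block `[c, d)`, the variance of the response `cE w (pJ c d) D` seen from the
outside of the block is at most half of the mean of `NM c al be d * (D S - D S') ^ 2` over two independent replicas (`gv_strip`,
`cV_strip`), hence at most twice the mean of `D ^ 2` on the event that a replica does not meet `S` in one of the two margins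
(`gv_strip_sq`, `cV_strip_sq`), for instance with the conditional mass of the event as a weight (`gv_strip_mass`).
-/

set_option autoImplicit false
set_option linter.unusedSectionVars false

namespace Pool.Agent.W_7d29a1_C0.Strip80

open Finset MeasureTheory Pool.Agent.W_7d29a1_F Pool.Agent.W_7d29a1_X Pool.Agent.W_7d29a1_C0.Mod92
open Pool.W7d29a1.C0 (gz gm lse gz_pos gz_ne gm_nonneg gm_mono)
open Pool.W7d29a1.C0.VT31
open Pool.Agent.W_7d29a1_C0.Swap57

noncomputable section

section Two

variable {X : Type*} [Fintype X] [Nonempty X] {Y Y' : Type*} [DecidableEq Y] [DecidableEq Y']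

/-- Jensen for a conditional mean. -/
theorem cE_sq_le (w : X → ℝ) (p : X → Y) (f : X → ℝ) (x : X) : cE w p f x ^ 2 ≤ cE w p (fun z => f z ^ 2) x := by
  have h := cV_nonneg w p f x
  have e : (cV w p f) x = cE w p (f * f) x - cE w p f x * cE w p f x := by
    show (cC w p f f) x = _
    unfold cC
    rw [Pi.sub_apply, Pi.mul_apply]
  have e2 : (f * f) = fun z => f z ^ 2 := by
    funext z
    rw [Pi.mul_apply, sq]
  rw [e, e2] at h
  rw [sq]
  linarith

/-- Jensen for two replicas. -/
theorem cE2_sq_le (w : X → ℝ) (p : X → Y) (K : X → X → ℝ) (x x' : X) :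
    cE2 w p K x x' ^ 2 ≤ cE2 w p (fun z z' => K z z' ^ 2) x x' := by
  unfold cE2
  refine (cE_sq_le w p _ x).trans (cE_mono w p (fun z => ?_) x)
  exact cE_sq_le w p (K z) x'

/-- Two replicas given the same outside may be exchanged. -/
theorem cE2_symm (w : X → ℝ) (p : X → Y) (K : X → X → ℝ) (x x' : X) :
    cE2 w p K x x' = cE2 w p (fun z z' => K z' z) x' x := by
  unfold cE2
  exact cE_comm w p p K x x'

theorem gm2_symm (w : X → ℝ) (K : X → X → ℝ) : gm2 w K = gm2 w fun z z' => K z' z := by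
  obtain ⟨x⟩ := (inferInstance : Nonempty X)
  rw [← gm2_eq w K x x, ← gm2_eq w (fun z z' => K z' z) x x]
  exact cE2_symm w _ K x x

end Two

variable {μ : Measure ℝ} {s : ℝ} {N : ℕ} {Q : Finset (Finset ℕ)}

theorem Mt_comm [SwQ Q] {c al be d : ℕ} {S S' : Px Q} : Mt c al be d S S' ↔ Mt c al be d S' S := by
  rw [Mt_symm]

theorem NM_comm [SwQ Q] (c al be d : ℕ) (S S' : Px Q) : NM c al be d S S' = NM c al be d S' S := by
  by_cases h : Mt c al be d S S'
  · rw [NM_of h, NM_of (Mt_comm.1 h)]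
  · rw [NM_of_not h, NM_of_not fun h' => h (Mt_comm.1 h')]

theorem NM_sq (c al be d : ℕ) (S S' : Px Q) : NM c al be d S S' * NM c al be d S S' = NM c al be d S S' := by
  by_cases h : Mt c al be d S S'
  · rw [NM_of h, mul_zero]
  · rw [NM_of_not h, mul_one]

theorem NI_comm (i j : ℕ) (S S' : Px Q) : NI i j S S' = NI i j S' S := by
  unfold NI
  simp only [ne_comm]

section Strip

variable [SwQ Q] [Nonempty (Px Q)] {c al be d : ℕ} {w : Px Q → ℝ}

/-- The difference of the responses seen from two outsides, as a mean over the event that the replicas do not meet on both sides. -/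
theorem cE_sub_NM (hab : al ≤ be) (hw : Wk c al be d w) {D : Px Q → ℝ} (hD : Lk al be D) (S0 S0' : Px Q) :
    cE w (pJ c d) D S0 - cE w (pJ c d) D S0' =
      cE2 w (pJ c d) (fun S S' => NM c al be d S S' * (D S - D S')) S0 S0' := by
  rw [cE_sub_eq]
  have e2 := cE2_Mt_zero hab hw hD S0 S0'
  have e3 : cE2 w (pJ c d) (fun S S' => D S - D S') S0 S0' =
      cE2 w (pJ c d) (fun S S' => NM c al be d S S' * (D S - D S')) S0 S0' +
        cE2 w (pJ c d) (fun S S' => (1 - NM c al be d S S') * (D S - D S')) S0 S0' := by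
    rw [← cE2_add]
    exact cE2_congr w _ (fun S S' => by ring) _ _
  rw [e3, e2, add_zero]

/-- The square of the difference. -/
theorem sq_sub_NM (hab : al ≤ be) (hw : Wk c al be d w) {D : Px Q → ℝ} (hD : Lk al be D) (S0 S0' : Px Q) :
    (cE w (pJ c d) D S0 - cE w (pJ c d) D S0') ^ 2 ≤
      cE2 w (pJ c d) (fun S S' => NM c al be d S S' * (D S - D S') ^ 2) S0 S0' := by
  rw [cE_sub_NM hab hw hD]
  refine (cE2_sq_le w _ _ S0 S0').trans (le_of_eq (cE2_congr w _ (fun S S' => ?_) S0 S0'))
  rw [mul_pow, sq (NM c al be d S S'), NM_sq]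

/-- **THE STRIP, conditional form.** -/
theorem cV_strip {Y : Type*} [DecidableEq Y] {q : Px Q → Y} (hc : Crs q (pJ c d)) (hab : al ≤ be) (hw : Wk c al be d w)
    {D : Px Q → ℝ} (hD : Lk al be D) (S : Px Q) :
    cV w q (cE w (pJ c d) D) S ≤ 1 / 2 * cE2 w q (fun z z' => NM c al be d z z' * (D z - D z') ^ 2) S S := by
  rw [cV_eq_two]
  have h := cE2_mono w q (sq_sub_NM hab hw hD) S S
  rw [cE2_tower w hc] at h
  linarith

/-- **THE STRIP.** -/
theorem gv_strip (hab : al ≤ be) (hw : Wk c al be d w) {D : Px Q → ℝ} (hD : Lk al be D) :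
    gv w (cE w (pJ c d) D) ≤ 1 / 2 * gm2 w (fun z z' => NM c al be d z z' * (D z - D z') ^ 2) := by
  obtain ⟨x⟩ := (inferInstance : Nonempty (Px Q))
  have e := cV_strip (q := fun _ : Px Q => ()) (fun _ _ _ => rfl) hab hw hD x
  rwa [gv_eq_cV, gm2_eq] at e

theorem NM_sq_le (D : Px Q → ℝ) (z z' : Px Q) : NM c al be d z z' * (D z - D z') ^ 2 ≤
    2 * ((NI c al z z' + NI be d z z') * D z ^ 2) + 2 * ((NI c al z z' + NI be d z z') * D z' ^ 2) := by
  have h1 := NM_le c al be d z z'
  have h2 := add_nonneg (NI_nonneg c al z z') (NI_nonneg be d z z')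
  have h3 : (D z - D z') ^ 2 ≤ 2 * D z ^ 2 + 2 * D z' ^ 2 := by nlinarith [sq_nonneg (D z + D z')]
  calc NM c al be d z z' * (D z - D z') ^ 2 ≤ (NI c al z z' + NI be d z z') * (D z - D z') ^ 2 :=
        mul_le_mul_of_nonneg_right h1 (sq_nonneg _)
    _ ≤ (NI c al z z' + NI be d z z') * (2 * D z ^ 2 + 2 * D z' ^ 2) := mul_le_mul_of_nonneg_left h3 h2
    _ = _ := by ring

/-- The strip with squares, conditional form. -/
theorem cV_strip_sq {Y : Type*} [DecidableEq Y] {q : Px Q → Y} (hc : Crs q (pJ c d)) (hab : al ≤ be) (hw : Wk c al be d w)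
    {D : Px Q → ℝ} (hD : Lk al be D) (S : Px Q) :
    cV w q (cE w (pJ c d) D) S ≤ 2 * cE2 w q (fun z z' => (NI c al z z' + NI be d z z') * D z ^ 2) S S := by
  have h := cV_strip hc hab hw hD S
  have h1 := cE2_mono w q (NM_sq_le (c := c) (al := al) (be := be) (d := d) D) S S
  rw [cE2_add, cE2_mul, cE2_mul] at h1
  have h2 : cE2 w q (fun z z' => (NI c al z z' + NI be d z z') * D z' ^ 2) S S =
      cE2 w q (fun z z' => (NI c al z z' + NI be d z z') * D z ^ 2) S S := by
    rw [cE2_symm]
    exact cE2_congr w q (fun z z' => by rw [NI_comm c al z' z, NI_comm be d z' z]) S S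
  linarith

/-- **THE STRIP WITH SQUARES.** -/
theorem gv_strip_sq (hab : al ≤ be) (hw : Wk c al be d w) {D : Px Q → ℝ} (hD : Lk al be D) :
    gv w (cE w (pJ c d) D) ≤ 2 * gm2 w (fun z z' => (NI c al z z' + NI be d z z') * D z ^ 2) := by
  obtain ⟨x⟩ := (inferInstance : Nonempty (Px Q))
  have e := cV_strip_sq (q := fun _ : Px Q => ()) (fun _ _ _ => rfl) hab hw hD x
  rwa [gv_eq_cV, gm2_eq] at e

/-- The mass of the replicas which do not meet `S` in `[i, j]`. -/
def ms80 (w : Px Q → ℝ) (i j : ℕ) (S : Px Q) : ℝ := gm w (NI i j S)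

theorem ms80_nonneg (w : Px Q → ℝ) (i j : ℕ) (S : Px Q) : 0 ≤ ms80 w i j S := gm_nonneg w fun z => NI_nonneg i j S z

theorem gm_mul_left {X : Type*} [Fintype X] (w : X → ℝ) (a : ℝ) (f : X → ℝ) : gm w (fun z => a * f z) = a * gm w f := by
  unfold gm
  rw [← mul_div_assoc, mul_sum]
  congr 1
  exact sum_congr rfl fun x _ => by ring

/-- **THE STRIP, with the masses of the free replicas as weights.** -/
theorem gv_strip_mass (hab : al ≤ be) (hw : Wk c al be d w) {D : Px Q → ℝ} (hD : Lk al be D) :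
    gv w (cE w (pJ c d) D) ≤ 2 * gm w (fun S => D S ^ 2 * ms80 w c al S) + 2 * gm w (fun S => D S ^ 2 * ms80 w be d S) := by
  refine (gv_strip_sq hab hw hD).trans (le_of_eq ?_)
  have e1 : gm2 w (fun z z' => (NI c al z z' + NI be d z z') * D z ^ 2) =
      gm2 w (fun z z' => D z ^ 2 * NI c al z z') + gm2 w (fun z z' => D z ^ 2 * NI be d z z') := by
    rw [← gm2_add]
    congr 1
    funext z z'
    ring
  have e2 : ∀ i j : ℕ, gm2 w (fun z z' => D z ^ 2 * NI i j z z') = gm w (fun S => D S ^ 2 * ms80 w i j S) := by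
    intro i j
    unfold gm2
    congr 1
    funext z
    exact gm_mul_left w _ _
  rw [e1, e2, e2]
  ring

end Strip

end

end Pool.Agent.W_7d29a1_C0.Strip80
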