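import Pool.Agent.W_7d29a1_C0.Mod92

/-!
MP_7d29a1_pr, [CURV0], leaf E6 (helper57): THE SWAP OF TWO REPLICAS.

Two paths `S`, `S'` which have a common position in the rows `[c, al]` and one in the rows `[be, d]` exchange their pieces between the
first common position after `c` and the last common position before `d` (`swp`). This keeps what both paths do outside of the block
`[c, d)`, keeps the product of the two weights, and exchanges `g S` and `g S'` for a functional `g` of the rows `[al, be]`. `swap_zero` is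
the identity with spectators; the estimates are in `Two57`.
-/

set_option autoImplicit false
set_option linter.unusedSectionVars false

namespace Pool.Agent.W_7d29a1_C0.Swap57

open Finset MeasureTheory Pool.Agent.W_7d29a1_F Pool.Agent.W_7d29a1_X Pool.Agent.W_7d29a1_C0.Mod92
open Pool.W7d29a1.C0 (gz gm lse gz_pos gz_ne gm_nonneg gm_mono)
open Pool.W7d29a1.C0.VT31

noncomputable section

/-! ### The swap of two sets -/

/-- `S` with the rows `[t, u)` of `S'`. -/
def swp (t u : ℕ) (S S' : Finset ℕ) : Finset ℕ := (S \ Ico t u) ∪ (S' ∩ Ico t u)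

theorem mem_swp {t u k : ℕ} {S S' : Finset ℕ} :
    k ∈ swp t u S S' ↔ (k ∈ S ∧ ¬(t ≤ k ∧ k < u)) ∨ (k ∈ S' ∧ t ≤ k ∧ k < u) := by
  unfold swp
  simp only [mem_union, mem_sdiff, mem_inter, mem_Ico]

theorem swp_swp (t u : ℕ) (S S' : Finset ℕ) : swp t u (swp t u S S') (swp t u S' S) = S := by
  ext k
  simp only [mem_swp]
  by_cases h : t ≤ k ∧ k < u
  · simp [h]
  · simp [h]

/-- The position splits. -/
theorem pos_split (S : Finset ℕ) {a b : ℕ} (h : a ≤ b) : pos S b = pos S a + ((S ∩ Ico a b).card : ℤ) := by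
  unfold pos
  rw [← Nat.cast_add, ← card_union_of_disjoint]
  · congr 2
    ext i
    simp only [mem_inter, mem_range, mem_union, mem_Ico]
    constructor
    · rintro ⟨h1, h2⟩
      by_cases h3 : i < a
      · exact Or.inl ⟨h1, h3⟩
      · exact Or.inr ⟨h1, by omega, h2⟩
    · rintro (⟨h1, h2⟩ | ⟨h1, h2, h3⟩)
      · exact ⟨h1, by omega⟩
      · exact ⟨h1, h3⟩
  · rw [disjoint_left]
    intro i h1 h2
    simp only [mem_inter, mem_range, mem_Ico] at h1 h2
    omega

theorem pos_swp_le {t u i : ℕ} (S S' : Finset ℕ) (h : i ≤ t) : pos (swp t u S S') i = pos S i := by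
  unfold pos
  congr 2
  ext k
  simp only [mem_inter, mem_swp, mem_range]
  constructor
  · rintro ⟨h1 | h1, h2⟩
    · exact ⟨h1.1, h2⟩
    · omega
  · rintro ⟨h1, h2⟩
    exact ⟨Or.inl ⟨h1, by omega⟩, h2⟩

theorem pos_swp_mid {t u i : ℕ} {S S' : Finset ℕ} (h : t ≤ i) (h' : i ≤ u) (ht : pos S t = pos S' t) :
    pos (swp t u S S') i = pos S' i := by
  rw [pos_split _ h, pos_swp_le S S' le_rfl, pos_split S' h, ht]
  congr 3
  ext k
  simp only [mem_inter, mem_swp, mem_Ico]
  constructor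
  · rintro ⟨h1 | h1, h2⟩
    · omega
    · exact ⟨h1.1, h2⟩
  · rintro ⟨h1, h2⟩
    exact ⟨Or.inr ⟨h1, by omega⟩, h2⟩

theorem pos_swp_ge {t u i : ℕ} {S S' : Finset ℕ} (htu : t ≤ u) (h : u ≤ i) (ht : pos S t = pos S' t)
    (hu : pos S u = pos S' u) : pos (swp t u S S') i = pos S i := by
  rw [pos_split _ h, pos_swp_mid htu le_rfl ht, pos_split S h, ← hu]
  congr 3
  ext k
  simp only [mem_inter, mem_swp, mem_Ico]
  constructor
  · rintro ⟨h1 | h1, h2⟩
    · exact ⟨h1.1, h2⟩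
    · omega
  · rintro ⟨h1, h2⟩
    exact ⟨Or.inl ⟨h1, by omega⟩, h2⟩

/-! ### The swap of two paths -/

/-- A family of paths which is closed under the swap. -/
class SwQ (Q : Finset (Finset ℕ)) : Prop where
  mem : ∀ S ∈ Q, ∀ S' ∈ Q, ∀ t u : ℕ, t ≤ u → pos S t = pos S' t → pos S u = pos S' u → swp t u S S' ∈ Q

instance (N : ℕ) : SwQ (Fr N) := ⟨fun S hS S' hS' t u _ _ _ => by
  rw [mem_powerset] at hS hS' ⊢
  intro k hk
  rcases mem_swp.1 hk with h | h
  · exact hS h.1
  · exact hS' h.1⟩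

instance (N y : ℕ) : SwQ (Pn N y) := ⟨fun S hS S' hS' t u htu ht hu => by
  rw [mem_powersetCard] at hS hS' ⊢
  have h1 : swp t u S S' ⊆ range N := by
    intro k hk
    rcases mem_swp.1 hk with h | h
    · exact hS.1 h.1
    · exact hS'.1 h.1
  refine ⟨h1, ?_⟩
  have h2 : ∀ {S : Finset ℕ} {m : ℕ}, S ⊆ range N → N ≤ m → pos S m = S.card := fun h hm => pos_card (h.trans (range_subset_range.2 hm))
  have e1 := pos_swp_ge htu (le_max_right N u) ht hu
  rw [h2 h1 (le_max_left N u), h2 hS.1 (le_max_left N u), hS.2] at e1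
  exact_mod_cast e1⟩

variable {μ : Measure ℝ} {s : ℝ} {N : ℕ} {Q : Finset (Finset ℕ)}

open Classical in
/-- The path `S` with the piece `[t, u)` of the path `S'`. -/
def swP (t u : ℕ) (S S' : Px Q) : Px Q := if h : swp t u S.1 S'.1 ∈ Q then ⟨swp t u S.1 S'.1, h⟩ else S

/-- The two paths have a common position at the time `i`. -/
def Eqp (S S' : Px Q) (i : ℕ) : Prop := ps S i = ps S' i

theorem Eqp_symm (S S' : Px Q) : Eqp S' S = Eqp S S' := by
  funext i
  exact propext ⟨Eq.symm, Eq.symm⟩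

variable [SwQ Q]

theorem swP_val {t u : ℕ} {S S' : Px Q} (htu : t ≤ u) (ht : Eqp S S' t) (hu : Eqp S S' u) :
    (swP t u S S').1 = swp t u S.1 S'.1 := by
  unfold swP
  rw [dif_pos (SwQ.mem S.1 S.2 S'.1 S'.2 t u htu ht hu)]

/-- For a common position at `t` and at `u`: at each time the positions are kept or exchanged. -/
theorem ps_swP {t u : ℕ} {S S' : Px Q} (htu : t ≤ u) (ht : Eqp S S' t) (hu : Eqp S S' u) (i : ℕ) :
    (ps (swP t u S S') i = ps S i ∧ ps (swP t u S' S) i = ps S' i ∧ (i ≤ t ∨ u ≤ i)) ∨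
    (ps (swP t u S S') i = ps S' i ∧ ps (swP t u S' S) i = ps S i ∧ t ≤ i ∧ i ≤ u) := by
  have v1 := swP_val htu ht hu
  have v2 := swP_val htu (Eq.symm ht) (Eq.symm hu)
  unfold ps
  rw [v1, v2]
  rcases le_total i t with h | h
  · exact Or.inl ⟨pos_swp_le _ _ h, pos_swp_le _ _ h, Or.inl h⟩
  rcases le_total i u with h' | h'
  · exact Or.inr ⟨pos_swp_mid h h' ht, pos_swp_mid h h' (Eq.symm ht), h, h'⟩
  · exact Or.inl ⟨pos_swp_ge htu h' ht hu, pos_swp_ge htu h' (Eq.symm ht) (Eq.symm hu), Or.inr h'⟩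

theorem ps_swP_mid {t u : ℕ} {S S' : Px Q} (htu : t ≤ u) (ht : Eqp S S' t) (hu : Eqp S S' u) {i : ℕ} (h : t ≤ i) (h' : i ≤ u) :
    ps (swP t u S S') i = ps S' i := by
  unfold ps
  rw [swP_val htu ht hu]
  exact pos_swp_mid h h' ht

theorem Eqp_swP {t u : ℕ} {S S' : Px Q} (htu : t ≤ u) (ht : Eqp S S' t) (hu : Eqp S S' u) :
    Eqp (swP t u S S') (swP t u S' S) = Eqp S S' := by
  funext i
  unfold Eqp
  rcases ps_swP htu ht hu i with ⟨h1, h2, _⟩ | ⟨h1, h2, _⟩
  · rw [h1, h2]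
  · rw [h1, h2]
    exact propext eq_comm

theorem swP_swP {t u : ℕ} {S S' : Px Q} (htu : t ≤ u) (ht : Eqp S S' t) (hu : Eqp S S' u) :
    swP t u (swP t u S S') (swP t u S' S) = S := by
  apply Subtype.ext
  have e := Eqp_swP htu ht hu
  rw [swP_val htu (by rw [e]; exact ht) (by rw [e]; exact hu), swP_val htu ht hu, swP_val htu (Eq.symm ht) (Eq.symm hu)]
  exact swp_swp t u S.1 S'.1

/-- The outside of the block is kept. -/
theorem pJ_swP {c d t u : ℕ} {S S' : Px Q} (hct : c ≤ t) (htu : t ≤ u) (hud : u ≤ d) (ht : Eqp S S' t) (hu : Eqp S S' u) :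
    pJ c d (swP t u S S') = pJ c d S := by
  unfold pJ
  rw [swP_val htu ht hu]
  have h1 : swp t u S.1 S'.1 \ Ico c d = S.1 \ Ico c d := by
    ext k
    simp only [mem_sdiff, mem_Ico]
    rw [mem_swp]
    constructor
    · rintro ⟨h | h, h'⟩
      · exact ⟨h.1, h'⟩
      · exact absurd ⟨by omega, by omega⟩ h'
    · rintro ⟨h, h'⟩
      exact ⟨Or.inl ⟨h, fun h2 => h' ⟨by omega, by omega⟩⟩, h'⟩
  have h2 : (swp t u S.1 S'.1 ∩ Ico c d).card = (S.1 ∩ Ico c d).card := by
    have e1 := pos_split (swp t u S.1 S'.1) (hct.trans (htu.trans hud))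
    have e2 := pos_split S.1 (hct.trans (htu.trans hud))
    have e3 : pos (swp t u S.1 S'.1) c = pos S.1 c := pos_swp_le _ _ hct
    have e4 : pos (swp t u S.1 S'.1) d = pos S.1 d := pos_swp_ge htu hud ht hu
    rw [e3, e4] at e1
    have e5 : ((swp t u S.1 S'.1 ∩ Ico c d).card : ℤ) = ((S.1 ∩ Ico c d).card : ℤ) := by linarith
    exact_mod_cast e5
  rw [h1, h2]

/-- The log weight is a sum over the rows. -/
theorem lw_eq (η : Env) (S : Px Q) :
    lw μ s η N Q S = s * (ps S N : ℝ) - N * lam μ s + ∑ i ∈ range N, η ((i : ℤ) + 1, ps S (i + 1)) := by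
  unfold lw pth ps
  rw [← Real.exp_sum, ← Real.exp_add, Real.log_exp]

/-- The sum of the log weights of the two paths is kept. -/
theorem lw_swP (η : Env) {t u : ℕ} {S S' : Px Q} (htu : t ≤ u) (ht : Eqp S S' t) (hu : Eqp S S' u) :
    lw μ s η N Q (swP t u S S') + lw μ s η N Q (swP t u S' S) = lw μ s η N Q S + lw μ s η N Q S' := by
  have key : ∀ (φ : ℤ → ℝ) (i : ℕ), φ (ps (swP t u S S') i) + φ (ps (swP t u S' S) i) = φ (ps S i) + φ (ps S' i) := by
    intro φ i
    rcases ps_swP htu ht hu i with ⟨h1, h2, _⟩ | ⟨h1, h2, _⟩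
    · rw [h1, h2]
    · rw [h1, h2, add_comm]
  have e1 := key (fun z => (z : ℝ)) N
  have e2 : ∑ i ∈ range N, η ((i : ℤ) + 1, ps (swP t u S S') (i + 1)) +
      ∑ i ∈ range N, η ((i : ℤ) + 1, ps (swP t u S' S) (i + 1)) =
      ∑ i ∈ range N, η ((i : ℤ) + 1, ps S (i + 1)) + ∑ i ∈ range N, η ((i : ℤ) + 1, ps S' (i + 1)) := by
    rw [← sum_add_distrib, ← sum_add_distrib]
    exact sum_congr rfl fun i _ => key (fun z => η ((i : ℤ) + 1, z)) (i + 1)
  rw [lw_eq, lw_eq, lw_eq, lw_eq]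
  linear_combination s * e1 + e2

/-! ### The first and the last common position -/

/-- The first common position after `c`. -/
def tF (c : ℕ) (S S' : Px Q) : ℕ := sInf {i | c ≤ i ∧ Eqp S S' i}

/-- The last common position before `d`. -/
def uF (d : ℕ) (S S' : Px Q) : ℕ := sSup {i | i ≤ d ∧ Eqp S S' i}

/-- The two paths meet in `[c, al]` and in `[be, d]`. -/
def Mt (c al be d : ℕ) (S S' : Px Q) : Prop := (∃ i, c ≤ i ∧ i ≤ al ∧ Eqp S S' i) ∧ ∃ i, be ≤ i ∧ i ≤ d ∧ Eqp S S' i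

theorem Mt_symm (c al be d : ℕ) (S S' : Px Q) : Mt c al be d S' S = Mt c al be d S S' := by
  unfold Mt
  rw [Eqp_symm]

theorem tF_symm (c : ℕ) (S S' : Px Q) : tF c S' S = tF c S S' := by
  unfold tF
  rw [Eqp_symm]

theorem uF_symm (d : ℕ) (S S' : Px Q) : uF d S' S = uF d S S' := by
  unfold uF
  rw [Eqp_symm]

theorem tF_spec {c al be d : ℕ} {S S' : Px Q} (h : Mt c al be d S S') :
    c ≤ tF c S S' ∧ tF c S S' ≤ al ∧ Eqp S S' (tF c S S') := by
  obtain ⟨⟨i, h1, h2, h3⟩, _⟩ := h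
  have h4 : (i : ℕ) ∈ {i | c ≤ i ∧ Eqp S S' i} := ⟨h1, h3⟩
  have h5 := Nat.sInf_mem ⟨i, h4⟩
  exact ⟨h5.1, (Nat.sInf_le h4).trans h2, h5.2⟩

theorem uF_spec {c al be d : ℕ} {S S' : Px Q} (h : Mt c al be d S S') :
    be ≤ uF d S S' ∧ uF d S S' ≤ d ∧ Eqp S S' (uF d S S') := by
  obtain ⟨_, i, h1, h2, h3⟩ := h
  have h4 : (i : ℕ) ∈ {i | i ≤ d ∧ Eqp S S' i} := ⟨h2, h3⟩
  have hb : BddAbove {i | i ≤ d ∧ Eqp S S' i} := ⟨d, fun j hj => hj.1⟩
  have h5 := Nat.sSup_mem ⟨i, h4⟩ hb
  exact ⟨h1.trans (le_csSup hb h4), h5.1, h5.2⟩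

/-- The swapped path. -/
def sw (c d : ℕ) (S S' : Px Q) : Px Q := swP (tF c S S') (uF d S S') S S'

section Sw

variable {c al be d : ℕ} {S S' : Px Q}

theorem sw_times (hab : al ≤ be) (h : Mt c al be d S S') : tF c S S' ≤ uF d S S' :=
  (tF_spec h).2.1.trans (hab.trans (uF_spec h).1)

theorem Eqp_sw (hab : al ≤ be) (h : Mt c al be d S S') : Eqp (sw c d S S') (sw c d S' S) = Eqp S S' := by
  unfold sw
  rw [tF_symm c S S', uF_symm d S S']
  exact Eqp_swP (sw_times hab h) (tF_spec h).2.2 (uF_spec h).2.2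

theorem Mt_sw (hab : al ≤ be) (h : Mt c al be d S S') : Mt c al be d (sw c d S S') (sw c d S' S) := by
  unfold Mt
  rw [Eqp_sw hab h]
  exact h

theorem tF_sw (hab : al ≤ be) (h : Mt c al be d S S') : tF c (sw c d S S') (sw c d S' S) = tF c S S' := by
  unfold tF
  rw [Eqp_sw hab h]

theorem uF_sw (hab : al ≤ be) (h : Mt c al be d S S') : uF d (sw c d S S') (sw c d S' S) = uF d S S' := by
  unfold uF
  rw [Eqp_sw hab h]

theorem sw_sw (hab : al ≤ be) (h : Mt c al be d S S') : sw c d (sw c d S S') (sw c d S' S) = S := by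
  have h1 := tF_sw hab h
  have h2 := uF_sw hab h
  have e : sw c d (sw c d S S') (sw c d S' S) =
      swP (tF c (sw c d S S') (sw c d S' S)) (uF d (sw c d S S') (sw c d S' S)) (sw c d S S') (sw c d S' S) := rfl
  rw [e, h1, h2]
  unfold sw
  rw [tF_symm c S S', uF_symm d S S']
  exact swP_swP (sw_times hab h) (tF_spec h).2.2 (uF_spec h).2.2

theorem pJ_sw (hab : al ≤ be) (h : Mt c al be d S S') : pJ c d (sw c d S S') = pJ c d S :=
  pJ_swP (tF_spec h).1 (sw_times hab h) (uF_spec h).2.1 (tF_spec h).2.2 (uF_spec h).2.2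

theorem lw_sw (η : Env) (hab : al ≤ be) (h : Mt c al be d S S') :
    lw μ s η N Q (sw c d S S') + lw μ s η N Q (sw c d S' S) = lw μ s η N Q S + lw μ s η N Q S' := by
  unfold sw
  rw [tF_symm c S S', uF_symm d S S']
  exact lw_swP η (sw_times hab h) (tF_spec h).2.2 (uF_spec h).2.2

/-- In the rows `[al, be]` the positions are exchanged. -/
theorem ps_sw (h : Mt c al be d S S') {i : ℕ} (h1 : al ≤ i) (h2 : i ≤ be) : ps (sw c d S S') i = ps S' i :=
  ps_swP_mid ((tF_spec h).2.1.trans (h1.trans (h2.trans (uF_spec h).1))) (tF_spec h).2.2 (uF_spec h).2.2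
    ((tF_spec h).2.1.trans h1) (h2.trans (uF_spec h).1)

/-- Before `c` and after `d` the positions are kept. -/
theorem ps_sw_out (hab : al ≤ be) (h : Mt c al be d S S') {i : ℕ} (hi : i ≤ c ∨ d ≤ i) : ps (sw c d S S') i = ps S i := by
  rcases hi with hi | hi
  · exact ps_of_le (pJ_sw hab h) hi
  · exact ps_of_ge (pJ_sw hab h) hi

end Sw

/-- `g` is a functional of the positions in the rows `[al, be]`. -/
def Lk (al be : ℕ) (g : Px Q → ℝ) : Prop := ∀ S S' : Px Q, (∀ i, al ≤ i → i ≤ be → ps S i = ps S' i) → g S = g S'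

/-- The swap condition for a log weight: the sum over the two paths is kept. -/
def Wk (c al be d : ℕ) (w : Px Q → ℝ) : Prop := ∀ S S' : Px Q, Mt c al be d S S' → w (sw c d S S') + w (sw c d S' S) = w S + w S'

theorem Wk_lw (η : Env) {c al be d : ℕ} (hab : al ≤ be) : Wk (Q := Q) c al be d (lw μ s η N Q) := fun _ _ h => lw_sw η hab h

theorem Lk.sw {c al be d : ℕ} {g : Px Q → ℝ} (hg : Lk al be g) {S S' : Px Q} (h : Mt c al be d S S') :
    g (sw c d S S') = g S' := hg _ _ fun _ h1 h2 => ps_sw h h1 h2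

theorem Lk.Wk {c al be d : ℕ} {g : Px Q → ℝ} (hg : Lk al be g) : Wk c al be d g := fun S S' h => by
  rw [hg.sw h, hg.sw (by rw [Mt_symm]; exact h), add_comm]

/-- A functional of the outside of the block satisfies the swap condition. -/
theorem Mp.Wk {c al be d : ℕ} (hab : al ≤ be) {g : Px Q → ℝ} (hg : Mp (pJ c d) g) : Wk c al be d g := fun S S' h => by
  rw [hg _ _ (pJ_sw hab h), hg _ _ (pJ_sw hab (show Mt c al be d S' S by rw [Mt_symm]; exact h))]

theorem Wk.add {c al be d : ℕ} {w w' : Px Q → ℝ} (h : Wk c al be d w) (h' : Wk c al be d w') : Wk c al be d (w + w') :=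
  fun S S' hm => by
    have e1 := h S S' hm
    have e2 := h' S S' hm
    simp only [Pi.add_apply]
    linarith

theorem Wk.smul {c al be d : ℕ} {w : Px Q → ℝ} (h : Wk c al be d w) (r : ℝ) : Wk c al be d (r • w) :=
  fun S S' hm => by
    have e1 := h S S' hm
    simp only [Pi.smul_apply, smul_eq_mul]
    linear_combination r * e1

open Classical in
/-- **The swap identity**, with spectators: `H` is unchanged by the swap. -/
theorem swap_zero {c al be d : ℕ} (hab : al ≤ be) {w : Px Q → ℝ} (hw : Wk c al be d w) {g : Px Q → ℝ} (hg : Lk al be g)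
    (H : Px Q → Px Q → ℝ) (hH : ∀ S S', Mt c al be d S S' → H (sw c d S S') (sw c d S' S) = H S S') :
    ∑ S, ∑ S', (if Mt c al be d S S' then Real.exp (w S) * Real.exp (w S') * H S S' * (g S - g S') else 0) = 0 := by
  have hpair : ∑ S, ∑ S', (if Mt c al be d S S' then Real.exp (w S) * Real.exp (w S') * H S S' * (g S - g S') else 0) =
      ∑ q : Px Q × Px Q, (if Mt c al be d q.1 q.2 then Real.exp (w q.1) * Real.exp (w q.2) * H q.1 q.2 * (g q.1 - g q.2)
        else 0) := by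
    rw [← univ_product_univ, sum_product]
  rw [hpair]
  have hs : ∀ {S S' : Px Q}, Mt c al be d S S' → Mt c al be d S' S := fun h => by rw [Mt_symm]; exact h
  have hneg : ∀ q : Px Q × Px Q,
      (if Mt c al be d q.1 q.2 then Real.exp (w q.1) * Real.exp (w q.2) * H q.1 q.2 * (g q.1 - g q.2) else 0) +
      (if Mt c al be d (if Mt c al be d q.1 q.2 then (sw c d q.1 q.2, sw c d q.2 q.1) else q).1
          (if Mt c al be d q.1 q.2 then (sw c d q.1 q.2, sw c d q.2 q.1) else q).2 then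
        Real.exp (w (if Mt c al be d q.1 q.2 then (sw c d q.1 q.2, sw c d q.2 q.1) else q).1) *
          Real.exp (w (if Mt c al be d q.1 q.2 then (sw c d q.1 q.2, sw c d q.2 q.1) else q).2) *
          H (if Mt c al be d q.1 q.2 then (sw c d q.1 q.2, sw c d q.2 q.1) else q).1
            (if Mt c al be d q.1 q.2 then (sw c d q.1 q.2, sw c d q.2 q.1) else q).2 *
          (g (if Mt c al be d q.1 q.2 then (sw c d q.1 q.2, sw c d q.2 q.1) else q).1 -
            g (if Mt c al be d q.1 q.2 then (sw c d q.1 q.2, sw c d q.2 q.1) else q).2) else 0) = 0 := by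
    intro q
    by_cases h : Mt c al be d q.1 q.2
    · rw [if_pos h, if_pos h]
      show _ + (if Mt c al be d (sw c d q.1 q.2) (sw c d q.2 q.1) then _ else _) = 0
      rw [if_pos (Mt_sw hab h)]
      show _ + Real.exp (w (sw c d q.1 q.2)) * Real.exp (w (sw c d q.2 q.1)) * H (sw c d q.1 q.2) (sw c d q.2 q.1) *
        (g (sw c d q.1 q.2) - g (sw c d q.2 q.1)) = 0
      rw [hH _ _ h, hg.sw h, hg.sw (hs h), ← Real.exp_add, ← Real.exp_add, hw _ _ h]
      ring
    · rw [if_neg h, if_neg h, if_neg h]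
      ring
  refine sum_involution (fun q _ => if Mt c al be d q.1 q.2 then (sw c d q.1 q.2, sw c d q.2 q.1) else q) ?_ ?_ ?_ ?_
  · intro q _
    exact hneg q
  · intro q _ hne he
    have h := hneg q
    rw [he] at h
    exact hne (by linarith)
  · intro q _
    exact mem_univ _
  · intro q _
    by_cases h : Mt c al be d q.1 q.2
    · simp only [if_pos h]
      rw [if_pos (Mt_sw hab h), sw_sw hab h, sw_sw hab (hs h)]
    · simp only [if_neg h]

end

end Pool.Agent.W_7d29a1_C0.Swap57
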