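import Pool.Agent.W_7d29a1_C0.T0C72
import Pool.Agent.W_7d29a1_C0.TN72

/-!
CURV0 (MP_7d29a1_pr), leaf (T), `T_0L` (helper72): THE INSERTION PART OF ONE ROW WITH THE NUMBERS, MASS FORM, AT THE WEIGHTS `wj`.

`t0B72`: the term of the own block in the direction of the slab field `J = (j + 2 b, j + 3 b]` is at most
`(a B² / 2 + B³ pc)` times the mass of the own event told from one path, `a = N^ε √(28 R (B/2)² / b)`, `R` of the scale `b`, `pc` = the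
price of a new replica at distance `≥ N^(-df) wd' b` from the four old ones at the row `j - 2 b` (hypothesis `hfar`).
-/

set_option autoImplicit false
set_option linter.unusedSectionVars false
set_option linter.unusedVariables false

namespace Pool.Agent.W_7d29a1_C0.T72

open Finset MeasureTheory Filter Topology
open Pool.Agent.W_7d29a1_C0 Pool.Agent.W_7d29a1_C0.Mod92 Pool.Agent.W_7d29a1_C0.Swap57 Pool.Agent.W_7d29a1_C0.NM82
open Pool.Agent.W_7d29a1_C0.CutT57 Pool.Agent.W_7d29a1_C0.Base5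
open Pool.Agent.W_7d29a1_F Pool.Agent.W_7d29a1_X
open Pool.Agent.W_7d29a1_H (sl)
open Pool.Agent.W_7d29a1_HS (In wd)
open Pool.Agent.W_7d29a1_HZ (wd')
open Pool.Agent.W_7d29a1_C0.FP63 (WF gf tf wf_gf wf_tf at2 lA)
open Pool.Agent.W_7d29a1_C0.H32
open Pool.Agent.W_7d29a1_C0.E1M82 (AvA Gd AvA_add AvA_mul AvA_const abs_AvA_le)
open Pool.Agent.W_7d29a1_C0.InT57 (bend57 bnt57 bnt57_le tail_num57)
open Pool.Agent.W_7d29a1_C0.CrA44 (ge)
open Pool.Agent.W_7d29a1_C0.EvT50 (ev_pw50 ev_exp50)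
open Pool.Agent.W_7d29a1_C0.F13 (FarAt pt)
open Pool.W7d29a1.C0 Pool.W7d29a1.C0.VT31 Pool.W7d29a1.C0.T72
open Pool.W7d29a1.C0.R43 (mI mI_nonneg)
open Pool.W7d29a1.C0.R90 (Pk kf kf_nonneg kf_mp Pk_nonneg)
open Pool.W7d29a1.C0.H41 (tail1)
open Pool.W7d29a1.C0.I52 (Plan ev ins ev_mono ev_nonneg ev_smul ev_add ev_congr gm_eq_av)

noncomputable section

variable {μ : Measure ℝ} {s : ℝ} {N : ℕ}

/-- The gain of the slab of `n` rows with tubes of width `R`, four replicas. -/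
def gb72 (N : ℕ) (ε B R : ℝ) (n : ℕ) : ℝ := (N : ℝ) ^ ε * √(7 * (4 : ℕ) * R * (B / 2) ^ 2 / n)

theorem gb72_nonneg (N : ℕ) (ε B R : ℝ) (n : ℕ) : 0 ≤ gb72 N ε B R n := by
  unfold gb72
  positivity

/-- The normalised observable. -/
def X72 {y : ℕ} (D : ℝ) (bm al be bp c : ℕ) (f : Fam N) (A : Finset ℕ) (η : Env) (x : Fin 4 → Px (Pn N y)) : ℝ :=
  (2 * D)⁻¹ * chi4 bm al be bp c (f y (η, A)) x

section Mass

variable [IsProbabilityMeasure μ] {y : ℕ} [Nonempty (Px (Pn N y))] {δ B : ℝ} {b0 j : ℕ} {t : ℝ} {bm al be bp c : ℕ} {cc d : ℕ}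
  {f : Fam N} {D : ℝ}

theorem meas_chi472 (hf : Cls59 N cc d D f) (x : Fin 4 → Px (Pn N y)) : Measurable fun ω => chi4 bm al be bp c (f y ω) x := by
  unfold chi4 kf
  exact ((((hf.meas y _).sub (hf.meas y _)).abs.mul_const _).const_mul _)

theorem gd_chi472 (hf : Cls59 N cc d D f) (hD : 0 ≤ D) : Gd fun ω =>
    ev (P4 (pJ 0 bp) (pJ bm bp)) (wj μ s N (Pn N y) δ B b0 j ω t) (chi4 bm al be bp c (f y ω)) :=
  gd_ev72 _ t (meas_chi472 hf) (fun ω x => chi4_nonneg _ x) (K := 2 * D) fun ω x => chi4_le (hf.bdd y ω) x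

theorem gd_far472 (hf : Cls59 N cc d D f) (hD : 0 ≤ D) {φ : (Fin 5 → Px (Pn N y)) → ℝ} (h0 : ∀ x, 0 ≤ φ x) (h1 : ∀ x, φ x ≤ 1)
    (i : Fin 4) : Gd fun ω => ev ((P4 (pJ 0 bp) (pJ bm bp)).sh i) (wj μ s N (Pn N y) δ B b0 j ω t)
      (fun x => chi4 bm al be bp c (f y ω) (Fin.tail x) * φ x) :=
  gd_ev72 _ t (fun x => (meas_chi472 hf (Fin.tail x)).mul_const _) (fun ω x => mul_nonneg (chi4_nonneg _ _) (h0 _)) (K := 2 * D)
    fun ω x => by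
      calc chi4 bm al be bp c (f y ω) (Fin.tail x) * φ x ≤ (2 * D) * 1 :=
            mul_le_mul (chi4_le (hf.bdd y ω) _) (h1 _) (h0 _) (by linarith)
        _ = 2 * D := mul_one _

/-- The far terms, from the prices at fixed signs. -/
theorem far472 (hf : Cls59 N cc d D f) (hD : 0 < D) {φ ψ : (Fin 5 → Px (Pn N y)) → ℝ} (h0 : ∀ x, 0 ≤ φ x) (h1 : ∀ x, φ x ≤ 1)
    (g0 : ∀ x, 0 ≤ ψ x) (g1 : ∀ x, ψ x ≤ 1) (hφ : ∀ x, φ x ≤ ψ x) (i : Fin 4) {pc ef : ℝ}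
    (hfar : ∀ A : Finset ℕ, ∫ η, ev ((P4 (pJ 0 bp) (pJ bm bp)).sh i) (wj μ s N (Pn N y) δ B b0 j (η, A) t)
      (fun z => ψ z * X72 D bm al be bp c f A η (Fin.tail z)) ∂(law μ) ≤
      pc * ∫ η, ev (P4 (pJ 0 bp) (pJ bm bp)) (wj μ s N (Pn N y) δ B b0 j (η, A) t) (X72 D bm al be bp c f A η) ∂(law μ) + ef) :
    ∫ ω, ev ((P4 (pJ 0 bp) (pJ bm bp)).sh i) (wj μ s N (Pn N y) δ B b0 j ω t)
      (fun x => chi4 bm al be bp c (f y ω) (Fin.tail x) * φ x) ∂(Pm μ N) ≤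
      pc * ∫ ω, ev (P4 (pJ 0 bp) (pJ bm bp)) (wj μ s N (Pn N y) δ B b0 j ω t) (chi4 bm al be bp c (f y ω)) ∂(Pm μ N) + 2 * D * ef := by
  have G1 := gd_far472 (μ := μ) (s := s) (δ := δ) (B := B) (b0 := b0) (j := j) (t := t) (bm := bm) (al := al) (be := be) (bp := bp)
    (c := c) hf hD.le h0 h1 i
  have G1' := gd_far472 (μ := μ) (s := s) (δ := δ) (B := B) (b0 := b0) (j := j) (t := t) (bm := bm) (al := al) (be := be) (bp := bp)
    (c := c) hf hD.le g0 g1 i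
  have G2 := gd_chi472 (μ := μ) (s := s) (δ := δ) (B := B) (b0 := b0) (j := j) (t := t) (bm := bm) (al := al) (be := be) (bp := bp)
    (c := c) (y := y) hf hD.le
  rw [G1.av, G2.av, ← AvA_const (N := N) (2 * D * ef)]
  simp only [← AvA_add, ← AvA_mul]
  have hD2 : (2 * D) ≠ 0 := by positivity
  have key : ∀ A : Finset ℕ, ∫ η, ev ((P4 (pJ 0 bp) (pJ bm bp)).sh i) (wj μ s N (Pn N y) δ B b0 j (η, A) t)
      (fun x => chi4 bm al be bp c (f y (η, A)) (Fin.tail x) * φ x) ∂(law μ) ≤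
      pc * ∫ η, ev (P4 (pJ 0 bp) (pJ bm bp)) (wj μ s N (Pn N y) δ B b0 j (η, A) t) (chi4 bm al be bp c (f y (η, A))) ∂(law μ) +
        2 * D * ef := fun A => by
    have e1 : ∀ η, ev ((P4 (pJ 0 bp) (pJ bm bp)).sh i) (wj μ s N (Pn N y) δ B b0 j (η, A) t)
        (fun z => ψ z * X72 D bm al be bp c f A η (Fin.tail z)) =
        (2 * D)⁻¹ * ev ((P4 (pJ 0 bp) (pJ bm bp)).sh i) (wj μ s N (Pn N y) δ B b0 j (η, A) t)
          (fun x => chi4 bm al be bp c (f y (η, A)) (Fin.tail x) * ψ x) := fun η => by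
      rw [← ev_smul]
      refine ev_congr _ _ fun x => ?_
      unfold X72
      ring
    have e2 : ∀ η, ev (P4 (pJ 0 bp) (pJ bm bp)) (wj μ s N (Pn N y) δ B b0 j (η, A) t) (X72 D bm al be bp c f A η) =
        (2 * D)⁻¹ * ev (P4 (pJ 0 bp) (pJ bm bp)) (wj μ s N (Pn N y) δ B b0 j (η, A) t) (chi4 bm al be bp c (f y (η, A))) := fun η => by
      rw [← ev_smul]
      exact ev_congr _ _ fun x => rfl
    have h2 := hfar A
    simp only [e1, e2, integral_const_mul] at h2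
    have h3 := mul_le_mul_of_nonneg_left h2 (show 0 ≤ 2 * D by linarith)
    have h4 : ∫ η, ev ((P4 (pJ 0 bp) (pJ bm bp)).sh i) (wj μ s N (Pn N y) δ B b0 j (η, A) t)
        (fun x => chi4 bm al be bp c (f y (η, A)) (Fin.tail x) * φ x) ∂(law μ) ≤
        ∫ η, ev ((P4 (pJ 0 bp) (pJ bm bp)).sh i) (wj μ s N (Pn N y) δ B b0 j (η, A) t)
        (fun x => chi4 bm al be bp c (f y (η, A)) (Fin.tail x) * ψ x) ∂(law μ) :=
      integral_mono (G1.int A) (G1'.int A) fun η => ev_mono _ _ fun x => mul_le_mul_of_nonneg_left (hφ x) (chi4_nonneg _ _)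
    refine h4.trans ?_
    have e3 : ∀ x : ℝ, 2 * D * ((2 * D)⁻¹ * x) = x := fun x => mul_inv_cancel_left₀ hD2 x
    rw [e3] at h3
    refine h3.trans (le_of_eq ?_)
    rw [mul_add]
    congr 1
    calc 2 * D * (pc * ((2 * D)⁻¹ * ∫ η, ev (P4 (pJ 0 bp) (pJ bm bp)) (wj μ s N (Pn N y) δ B b0 j (η, A) t)
          (chi4 bm al be bp c (f y (η, A))) ∂(law μ))) =
          pc * (2 * D * ((2 * D)⁻¹ * ∫ η, ev (P4 (pJ 0 bp) (pJ bm bp)) (wj μ s N (Pn N y) δ B b0 j (η, A) t)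
          (chi4 bm al be bp c (f y (η, A))) ∂(law μ))) := by ring
      _ = _ := by rw [e3]
  unfold AvA
  exact mul_le_mul_of_nonneg_left (sum_le_sum fun A _ => key A) (by positivity)

end Mass

/-! ### The mass told from one path -/

section Told

variable {Q : Finset (Finset ℕ)} [SwQ Q] [Nonempty (Px Q)]

theorem mI_le_one72 (w : Px Q → ℝ) (p : Px Q → Finset ℕ × ℕ) (i j : ℕ) (S : Px Q) : mI w p i j S ≤ 1 := by
  unfold mI
  exact (cE_mono w _ (g := fun _ => (1 : ℝ)) (fun _ => NI_le_one _ _ _ _) S).trans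
    (le_of_eq (congrFun (cE_of_meas w (fun _ _ _ => rfl)) S))

/-- The own pair given what is behind the block, seen from the outside of the block. -/
def oB72 (w : Px Q → ℝ) (bm al bp : ℕ) : Px Q → ℝ := cE w (pJ bm bp) (mI w (pJ 0 bp) bm al)

theorem oB72_nonneg (w : Px Q → ℝ) (bm al bp : ℕ) (S : Px Q) : 0 ≤ oB72 w bm al bp S :=
  cE_nonneg w _ (fun S => mI_nonneg _ _ _ _ S) S

theorem oB72_le_one (w : Px Q → ℝ) (bm al bp : ℕ) (S : Px Q) : oB72 w bm al bp S ≤ 1 :=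
  (cE_mono w _ (g := fun _ => (1 : ℝ)) (fun S => mI_le_one72 _ _ _ _ S) S).trans
    (le_of_eq (congrFun (cE_of_meas w (fun _ _ _ => rfl)) S))

/-- The mass of the own event. -/
def OM72 (μ : Measure ℝ) (s : ℝ) (N : ℕ) (Q : Finset (Finset ℕ)) [SwQ Q] [Nonempty (Px Q)] (δ B : ℝ) (b0 j : ℕ) (t : ℝ)
    (bm al bp c : ℕ) (f : Env × Finset ℕ → Px Q → ℝ) : ℝ :=
  ∫ ω, Pk (wj μ s N Q δ B b0 j ω t) (kf bp c (f ω)) (oB72 (wj μ s N Q δ B b0 j ω t) bm al bp) ∂(Pm μ N)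

theorem meas_Pk72 {w : Env × Finset ℕ → Px Q → ℝ} (hw : Measurable w) {φ f : Env × Finset ℕ → Px Q → ℝ}
    (mφ : ∀ S, Measurable fun ω => φ ω S) (mf : ∀ S, Measurable fun ω => f ω S) (bp c : ℕ) :
    Measurable fun ω => Pk (w ω) (kf bp c (f ω)) (φ ω) := by
  have h : Measurable fun ω => gm (w ω) fun S => gm (w ω) fun S' => φ ω S * kf bp c (f ω) S S' := by
    refine meas_gmX hw (measurable_pi_lambda _ fun S => meas_gmX hw (measurable_pi_lambda _ fun S' => ?_))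
    unfold kf
    exact (mφ S).mul (((mf S).sub (mf S')).abs.mul_const _)
  refine (congrArg Measurable (funext fun ω => ?_)).mp h
  exact gm_gm_eq_PP _ _

theorem abs_Pk72 (w : Px Q → ℝ) {φ f : Px Q → ℝ} {D : ℝ} (h0 : ∀ S, 0 ≤ φ S) (h1 : ∀ S, φ S ≤ 1) (hf : ∀ S, |f S| ≤ D) (bp c : ℕ) :
    |Pk w (kf bp c f) φ| ≤ 2 * D := by
  refine abs_PP_bd72 w fun x z => ?_
  have hD : 0 ≤ D := (abs_nonneg _).trans (hf x)
  rw [abs_mul, abs_of_nonneg (h0 x), abs_of_nonneg (kf_nonneg _ _ _ _ _)]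
  calc φ x * kf bp c f x z ≤ 1 * (2 * D) := mul_le_mul (h1 x) (kf_le72 hf _ _) (kf_nonneg _ _ _ _ _) zero_le_one
    _ = 2 * D := one_mul _

theorem meas_oB72 {w : Env × Finset ℕ → Px Q → ℝ} (hw : Measurable w) (bm al bp : ℕ) (S : Px Q) :
    Measurable fun ω => oB72 (w ω) bm al bp S := by
  have h1 : Measurable fun ω => mI (w ω) (pJ (Q := Q) 0 bp) bm al := by
    refine measurable_pi_lambda _ fun T => ?_
    have h2 : Measurable fun ω => cE (w ω) (pJ (Q := Q) 0 bp) (NI bm al T) := meas_cEX _ hw measurable_const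
    exact (measurable_pi_apply T).comp h2
  exact (measurable_pi_apply S).comp (meas_cEX _ hw h1)

end Told

section Main

variable {y : ℕ} [Nonempty (Px (Pn N y))] {δ B : ℝ} {b0 j : ℕ} {t : ℝ} {bm al be bp c : ℕ} {cc d : ℕ}
  {f : Fam N} {D : ℝ}

theorem gd_OM72 (hf : Cls59 N cc d D f) (bm al bp c : ℕ) :
    Gd fun ω => Pk (wj μ s N (Pn N y) δ B b0 j ω t) (kf bp c (f y ω)) (oB72 (wj μ s N (Pn N y) δ B b0 j ω t) bm al bp) where
  ms A := (meas_Pk72 (meas_wj72 δ B b0 j t) (meas_oB72 (meas_wj72 δ B b0 j t) bm al bp) (hf.meas y) bp c).comp (meas_pair A)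
  bd := ⟨2 * D, fun ω => abs_Pk72 _ (oB72_nonneg _ _ _ _) (oB72_le_one _ _ _ _) (hf.bdd y ω) bp c⟩

variable [IsProbabilityMeasure μ]

theorem chi4_OM72 (hf : Cls59 N cc d D f) (hD : 0 ≤ D) (h2 : al ≤ be) (h3 : be ≤ bp) (hB : bm ≤ bp) :
    ∫ ω, ev (P4 (pJ 0 bp) (pJ bm bp)) (wj μ s N (Pn N y) δ B b0 j ω t) (chi4 bm al be bp c (f y ω)) ∂(Pm μ N) ≤
      OM72 μ s N (Pn N y) δ B b0 j t bm al bp c (f y) := by
  have G2 := gd_chi472 (μ := μ) (s := s) (δ := δ) (B := B) (b0 := b0) (j := j) (t := t) (bm := bm) (al := al) (be := be) (bp := bp)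
    (c := c) (y := y) hf hD
  have G3 := gd_OM72 (μ := μ) (s := s) (δ := δ) (B := B) (b0 := b0) (j := j) (t := t) (y := y) hf bm al bp c
  unfold OM72
  rw [G2.av, G3.av]
  unfold AvA
  refine mul_le_mul_of_nonneg_left (sum_le_sum fun A _ => ?_) (by positivity)
  exact integral_mono (G2.int A) (G3.int A) fun η => ev_NM4_le h2 h3 hB

end Main

/-! ### The numbers -/

/-- **THE INSERTION PART OF `T_0L`, ONE ROW, WITH THE NUMBERS**; the far price is a hypothesis. -/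
theorem t0B72 [IsProbabilityMeasure μ] {c₀ C₀ : ℝ} {n₀ : ℕ} (h : In μ s c₀ C₀ n₀) {f₀ f₀' : ℝ → ℝ} (hf₀ : DenLaw μ f₀ f₀')
    {ε K' : ℝ} (hε : 0 < ε) (hε1 : ε ≤ 1) (hK' : 0 ≤ K') :
    ∃ δ' β : ℝ, 0 < δ' ∧ 0 < β ∧ ∃ N₀ : ℕ, ∀ N : ℕ, N₀ ≤ N → ∀ y : ℕ, y ≤ N → |(y : ℝ) - sl μ s * N| ≤ (N : ℝ) ^ δ' * wd' μ s N →
      ∀ [Nonempty (Px (Pn N y))], ∀ B : ℝ, 1 ≤ B → B ≤ (N : ℝ) ^ β → ∀ (δ : ℝ) (b0 b j bm bp c cc d : ℕ), b0 ≤ b → 1 ≤ b →
      bm + 4 * b ≤ j → j + 4 * b ≤ bp → bp ≤ c → c ≤ d → d ≤ N →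
      ∀ R : ℝ, 1 ≤ R → R ≤ (N : ℝ) ^ 2 → (∀ k : ℕ, 1 ≤ k → k ≤ 8 * b → (N : ℝ) ^ ε * wd' μ s k ≤ R / 8) →
      ∀ (D : ℝ) (f : Fam N), 0 < D → D ≤ (N : ℝ) ^ 3 → Cls59 N cc d D f → ∀ t : ℝ, |t| ≤ 1 →
      ∀ δf pc ef : ℝ, 0 ≤ δf → 0 ≤ pc → ef ≤ (N : ℝ) ^ (-(K' + 8)) →
      (∀ (i : Fin 4) (A : Finset ℕ), ∫ η, ev ((P4 (pJ 0 bp) (pJ bm bp)).sh i) (wj μ s N (Pn N y) δ B b0 j (η, A) t)
        (fun z => (open Classical in if FarAt μ s N δf N b (j - 2 * b) (pt z) then (1 : ℝ) else 0) *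
          X72 D bm (j - b) (j + b) bp c f A η (Fin.tail z)) ∂(law μ) ≤
        pc * ∫ η, ev (P4 (pJ 0 bp) (pJ bm bp)) (wj μ s N (Pn N y) δ B b0 j (η, A) t)
          (X72 D bm (j - b) (j + b) bp c f A η) ∂(law μ) + ef) →
      |∫ ω, dC72 μ s N (Pn N y) δ B b0 j t bm bp (Ioc (j + 2 * b) (j + 3 * b))
        (fun ω => ge μ s N (Pn N y) δ B b0 b ω j) (f y) ω ∂(Pm μ N)| ≤
        (gb72 N ε B R b * (B ^ 2 / 2) + B ^ 3 * pc) * OM72 μ s N (Pn N y) δ B b0 j t bm (j - b) bp c (f y) + (N : ℝ) ^ (-K') := by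
  classical
  obtain ⟨Kd, θ0, hs⟩ := hf₀.sg
  have hKd := hs.2.1
  have hθ0 := hs.2.2.1
  obtain ⟨θ, hθd⟩ : ∃ θ, θ = min θ0 1 := ⟨_, rfl⟩
  have hθ : 0 < θ := by rw [hθd]; exact lt_min hθ0 one_pos
  have hθθ : θ ≤ θ0 := by rw [hθd]; exact min_le_left _ _
  obtain ⟨δb, cb, hδb, hcb, Nb, hNb⟩ := bnt57_le h hε
  obtain ⟨β, hβ⟩ : ∃ x, x = min (cb / 2) 1 := ⟨_, rfl⟩
  have hβ0 : 0 < β := by rw [hβ]; exact lt_min (by linarith) one_pos
  have bc : β ≤ cb / 2 := by rw [hβ]; exact min_le_left _ _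
  have b1 : β ≤ 1 := by rw [hβ]; exact min_le_right _ _
  have ev1 := ev_exp50 (16 * (4 * (3 / θ)) * Real.exp (Kd * θ ^ 2)) (K' + 20) (a := θ / 2) (by linarith) hε
  have ev2 := ev_exp50 24 (K' + 20) (a := 1 / 2) (by norm_num) hcb
  have ev3 := ev_pw50 (show β < cb by linarith) 4
  obtain ⟨N1, hN1⟩ := eventually_atTop.1 (ev1.and (ev2.and ev3))
  refine ⟨δb, β, hδb, hβ0, max (max Nb N1) 8, ?_⟩
  intro N hN y hy hyc _ B hB1 hBβ δ b0 b j bm bp c cc d hb hb1 hbm hbp hbc hcd hdN R hR1 hR2 hRw D f hD0 hD hf t ht δf pc ef hδf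
    hpc hef hfar
  have kb : Nb ≤ N := (le_max_left _ _).trans ((le_max_left _ _).trans hN)
  have k1 : N1 ≤ N := (le_max_right _ _).trans ((le_max_left _ _).trans hN)
  have k8 : 8 ≤ N := (le_max_right _ _).trans hN
  obtain ⟨a1, a2, a3⟩ := hN1 N k1
  have hN1' : (1 : ℝ) ≤ N := by exact_mod_cast (show 1 ≤ N by omega)
  have hN8 : (8 : ℝ) ≤ N := by exact_mod_cast k8
  have hN0 : (0 : ℝ) < N := by linarith
  have hB0 : 0 ≤ B := by linarith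
  have hBN : B ≤ N := hBβ.trans (by
    calc (N : ℝ) ^ β ≤ (N : ℝ) ^ (1 : ℝ) := Real.rpow_le_rpow_of_exponent_le hN1' b1
      _ = N := Real.rpow_one _)
  have hw0 : 0 ≤ wd' μ s N := zero_le_one.trans (le_max_left _ _)
  -- the slab
  obtain ⟨J, hJd⟩ : ∃ J, J = Ioc (j + 2 * b) (j + 3 * b) := ⟨_, rfl⟩
  have hJc : J.card = b := by
    rw [hJd, Nat.card_Ioc]
    omega
  have hJm : ∀ r ∈ J, j + 2 * b < r ∧ r ≤ j + 3 * b := fun r hr => by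
    rw [hJd] at hr
    exact mem_Ioc.1 hr
  have hJ0 : J.Nonempty := card_pos.1 (by omega)
  have hn1 : (1 : ℝ) ≤ b := by exact_mod_cast hb1
  have hn0 : (0 : ℝ) < b := by linarith
  -- the tail
  obtain ⟨q, hq⟩ : ∃ q : ℝ, q = 7 * (4 : ℕ) * R * (B / 2) ^ 2 / b := ⟨_, rfl⟩
  have hq0 : 0 < q := by
    rw [hq]
    positivity
  have hqs : 0 < √q := Real.sqrt_pos.2 hq0
  have hg : gb72 N ε B R b = (N : ℝ) ^ ε * √q := by rw [hq]; rfl
  have hq3 : √q ≤ 3 * (N : ℝ) ^ 2 := by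
    rw [← Real.sqrt_sq (by positivity : 0 ≤ 3 * (N : ℝ) ^ 2)]
    refine Real.sqrt_le_sqrt ?_
    rw [hq]
    have h2 : 7 * (4 : ℕ) * R * (B / 2) ^ 2 / b ≤ 7 * (4 : ℕ) * R * (B / 2) ^ 2 := div_le_self (by positivity) hn1
    have h3 : B ^ 2 ≤ (N : ℝ) ^ 2 := pow_le_pow_left₀ hB0 hBN 2
    have h4 : R * B ^ 2 ≤ (N : ℝ) ^ 2 * (N : ℝ) ^ 2 := mul_le_mul hR2 h3 (by positivity) (by positivity)
    have e1 : 7 * ((4 : ℕ) : ℝ) * R * (B / 2) ^ 2 = 7 * (R * B ^ 2) := by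
      push_cast
      ring
    have e2 : (3 * (N : ℝ) ^ 2) ^ 2 = 9 * ((N : ℝ) ^ 2 * (N : ℝ) ^ 2) := by ring
    rw [e1] at h2
    rw [e1, e2]
    have h5 : 0 ≤ (N : ℝ) ^ 2 * (N : ℝ) ^ 2 := by positivity
    linarith
  have hτM : θ / √q * (B / 2 / J.card) ≤ θ0 := by
    rw [hJc]
    refine le_trans ?_ hθθ
    have h1 : B / 2 / b ≤ √q := by
      rw [← Real.sqrt_sq (by positivity : 0 ≤ B / 2 / (b : ℝ))]
      refine Real.sqrt_le_sqrt ?_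
      rw [hq, div_pow]
      have h2 : (B / 2) ^ 2 / (b : ℝ) ^ 2 ≤ (B / 2) ^ 2 / b := by
        refine div_le_div_of_nonneg_left (by positivity) hn0 ?_
        calc (b : ℝ) = b * 1 := (mul_one _).symm
          _ ≤ b * b := mul_le_mul_of_nonneg_left hn1 hn0.le
          _ = (b : ℝ) ^ 2 := by ring
      have h3 : (B / 2) ^ 2 / (b : ℝ) ≤ 7 * (4 : ℕ) * R * (B / 2) ^ 2 / b := by
        refine div_le_div_of_nonneg_right ?_ hn0.le
        push_cast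
        nlinarith [sq_nonneg (B / 2)]
      linarith
    calc θ / √q * (B / 2 / b) ≤ θ / √q * √q := mul_le_mul_of_nonneg_left h1 (by positivity)
      _ = θ := div_mul_cancel₀ _ hqs.ne'
  have heb : ∀ A : Finset ℕ, ∫ η, gm (lA μ s N (Pn N y) (tf μ s δ B b0 j (sg A j) t) η)
      (bend57 (sl μ s) (R / 4) ((j - 2 * b : ℕ) : ℤ) (insert (j - 2 * b) J)) ∂(law μ) ≤ 2 * Real.exp (2 * B - (N : ℝ) ^ cb) := fun A => by
    have hwf : WF (j - b0) (j + b0) (|t - (sg A j : ℤ)| * (B / 2)) (tf μ s δ B b0 j (sg A j) t) :=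
      wf_tf (μ := μ) (s := s) hB0 δ b0 j (abs_sg A j).le t
    have h2 : |t - (sg A j : ℝ)| ≤ 2 := (abs_sub _ _).trans (by rw [abs_sg]; linarith)
    have h3 : |t - (sg A j : ℤ)| * (B / 2) ≤ B := by
      calc |t - (sg A j : ℝ)| * (B / 2) ≤ 2 * (B / 2) := mul_le_mul_of_nonneg_right h2 (by linarith)
        _ = B := by ring
    have h4 := hNb N kb y hy hyc inferInstance _ _ _ _ hwf J (j - 2 * b) (j - 2 * b) (j - 2 * b) (j + 3 * b) (j - 2 * b)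
      (fun i hi => by
        rcases mem_insert.1 hi with rfl | hi
        · omega
        · rcases mem_insert.1 hi with rfl | hi
          · omega
          · have := hJm i hi
            omega) le_rfl (by omega) (by omega) R (by linarith) (fun k hk1 hk2 => (hRw k hk1 (by omega)).trans (by linarith))
    unfold bnt57 at h4
    rw [insert_idem] at h4
    refine h4.trans (mul_le_mul_of_nonneg_left (Real.exp_le_exp.2 ?_) (by norm_num))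
    linarith
  have key := t0_box72 (μ := μ) (s := s) (N := N) (y := y) (δ := δ) (B := B) (b0 := b0) (b := b) (j := j) (t := t) (bm := bm) (bp := bp)
    (c := c) (cc := cc) (d := d) (f := f) (D := D) (J := J) hf₀ hs hB0 hb (by omega) (by omega)
    (fun r hr => by have := hJm r hr; omega) hJ0 hbc hcd hdN hf (sl := sl μ s) (R := R) hR1 (m0 := ((j - 2 * b : ℕ) : ℤ)) (by omega)
    (j - 2 * b) (τ := θ / √q) (a := gb72 N ε B R b) (div_pos hθ hqs) (gb72_nonneg _ _ _ _ _) hτM heb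
  rw [← hJd]
  refine key.trans ?_
  rw [hJc]
  obtain ⟨O, hO⟩ : ∃ O, O = OM72 μ s N (Pn N y) δ B b0 j t bm (j - b) bp c (f y) := ⟨_, rfl⟩
  have hO1 := chi4_OM72 (μ := μ) (s := s) (N := N) (y := y) (δ := δ) (B := B) (b0 := b0) (j := j) (t := t) (bm := bm) (al := j - b)
    (be := j + b) (bp := bp) (c := c) hf hD0.le (by omega) (by omega) (by omega)
  rw [← hO] at hO1 ⊢
  have g0 := gb72_nonneg N ε B R b
  -- the far terms
  have hRd : (N : ℝ) ^ (-δf) * wd' μ s b ≤ R := by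
    have h1 : (N : ℝ) ^ (-δf) ≤ (N : ℝ) ^ ε := Real.rpow_le_rpow_of_exponent_le hN1' (by linarith)
    have h2 : 0 ≤ wd' μ s b := zero_le_one.trans (le_max_left _ _)
    have h3 := hRw b hb1 (by omega)
    have h4 := mul_le_mul_of_nonneg_right h1 h2
    linarith
  have t4 : ∀ i : Fin 4, ∫ ω, ev ((P4 (pJ 0 bp) (pJ bm bp)).sh i) (wj μ s N (Pn N y) δ B b0 j ω t)
      (fun x => chi4 bm (j - b) (j + b) bp c (f y ω) (Fin.tail x) * sep72 R (j - 2 * b) x) ∂(Pm μ N) ≤ pc * O + 2 * D * ef := fun i => by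
    refine (far472 hf hD0 (φ := fun x => sep72 R (j - 2 * b) x)
      (ψ := fun x => if FarAt μ s N δf N b (j - 2 * b) (pt x) then (1 : ℝ) else 0) (fun x => sep72_nonneg _ _ _)
      (fun x => sep72_le_one _ _ _) (fun x => by split_ifs <;> norm_num) (fun x => by split_ifs <;> norm_num)
      (fun x => sep72_le_far hRd le_rfl (by omega) (by omega) x) i (pc := pc) (ef := ef) (hfar i)).trans ?_
    exact add_le_add (mul_le_mul_of_nonneg_left hO1 hpc) le_rfl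
  have t5 := sum_le_sum fun i (_ : i ∈ (univ : Finset (Fin 4))) => t4 i
  rw [sum_const, card_univ, Fintype.card_fin, nsmul_eq_mul] at t5
  have pB2 : 0 ≤ B ^ 2 := sq_nonneg _
  have pB3 : 0 ≤ B ^ 3 := by positivity
  -- the error terms
  obtain ⟨Z, hZ⟩ : ∃ Z : ℝ, Z = (N : ℝ) ^ (-K') := ⟨_, rfl⟩
  have hZ0 : 0 ≤ Z := by rw [hZ]; exact Real.rpow_nonneg hN0.le _
  have zp : ∀ k : ℕ, k ≤ 19 → (N : ℝ) ^ k * (N : ℝ) ^ (-(K' + 20)) ≤ Z / 8 := fun k hk => by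
    have h0 : (N : ℝ) ^ k * (N : ℝ) ^ (-(K' + 20)) = (N : ℝ) ^ ((k : ℝ) - 20) * Z := by
      rw [hZ, ← Real.rpow_natCast, ← Real.rpow_add hN0, ← Real.rpow_add hN0]
      congr 1
      ring
    rw [h0]
    have h1 : (N : ℝ) ^ ((k : ℝ) - 20) ≤ (N : ℝ) ^ (-1 : ℝ) := Real.rpow_le_rpow_of_exponent_le hN1' (by
      have : (k : ℝ) ≤ 19 := by exact_mod_cast hk
      linarith)
    have h2 : (N : ℝ) ^ (-1 : ℝ) ≤ 1 / 8 := by
      rw [Real.rpow_neg_one, ← one_div]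
      exact one_div_le_one_div_of_le (by norm_num) hN8
    have h3 := mul_le_mul_of_nonneg_right (h1.trans h2) hZ0
    linarith
  have hB2N : B ^ 2 ≤ (N : ℝ) ^ 2 := pow_le_pow_left₀ hB0 hBN 2
  have hB3N : B ^ 3 ≤ (N : ℝ) ^ 3 := pow_le_pow_left₀ hB0 hBN 3
  have h36 : B ^ 3 * D ≤ (N : ℝ) ^ 6 := by
    calc B ^ 3 * D ≤ (N : ℝ) ^ 3 * (N : ℝ) ^ 3 := mul_le_mul hB3N hD hD0.le (by positivity)
      _ = (N : ℝ) ^ 6 := by ring
  have t2 : ((N + 1 : ℕ) : ℝ) ^ 4 * tail1 Kd (B ^ 2 * D) (θ / √q) (gb72 N ε B R b) (7 * (4 : ℕ) * R * (B / 2) ^ 2 / b) ≤ Z / 8 := by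
    rw [hg, ← hq, tail_num57 hq0 hθ]
    have h1 : √q / θ ≤ 3 / θ * (N : ℝ) ^ 2 := by
      rw [div_mul_eq_mul_div]
      exact div_le_div_of_nonneg_right hq3 hθ.le
    have h4 : B ^ 2 * D ≤ (N : ℝ) ^ 5 := by
      calc B ^ 2 * D ≤ (N : ℝ) ^ 2 * (N : ℝ) ^ 3 := mul_le_mul hB2N hD hD0.le (by positivity)
        _ = (N : ℝ) ^ 5 := by ring
    have h5 : ((N + 1 : ℕ) : ℝ) ^ 4 ≤ 16 * (N : ℝ) ^ 4 := by
      calc ((N + 1 : ℕ) : ℝ) ^ 4 ≤ (2 * N) ^ 4 := by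
            refine pow_le_pow_left₀ (by positivity) ?_ 4
            push_cast
            linarith
        _ = 16 * (N : ℝ) ^ 4 := by ring
    have h6 : Real.exp (Kd * θ ^ 2 - θ * (N : ℝ) ^ ε / 2) = Real.exp (Kd * θ ^ 2) * Real.exp (-(θ / 2 * (N : ℝ) ^ ε)) := by
      rw [← Real.exp_add]
      congr 1
      ring
    rw [h6]
    have h7 : 4 * (B ^ 2 * D) * (√q / θ) ≤ 4 * (N : ℝ) ^ 5 * (3 / θ * (N : ℝ) ^ 2) :=
      mul_le_mul (by linarith) h1 (by positivity) (by positivity)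
    calc ((N + 1 : ℕ) : ℝ) ^ 4 * (4 * (B ^ 2 * D) * (√q / θ) * (Real.exp (Kd * θ ^ 2) * Real.exp (-(θ / 2 * (N : ℝ) ^ ε))))
        ≤ 16 * (N : ℝ) ^ 4 * (4 * (N : ℝ) ^ 5 * (3 / θ * (N : ℝ) ^ 2) *
          (Real.exp (Kd * θ ^ 2) * Real.exp (-(θ / 2 * (N : ℝ) ^ ε)))) := by
          refine mul_le_mul h5 (mul_le_mul_of_nonneg_right h7 (by positivity)) (by positivity) (by positivity)
      _ = (N : ℝ) ^ 11 * (16 * (4 * (3 / θ)) * Real.exp (Kd * θ ^ 2) * Real.exp (-(θ / 2 * (N : ℝ) ^ ε))) := by ring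
      _ ≤ (N : ℝ) ^ 11 * (N : ℝ) ^ (-(K' + 20)) := mul_le_mul_of_nonneg_left a1 (by positivity)
      _ ≤ Z / 8 := zp 11 (by norm_num)
  have t3 : 12 * B ^ 3 * D * (2 * Real.exp (2 * B - (N : ℝ) ^ cb)) ≤ Z / 8 := by
    have h1 : 4 * B ≤ (N : ℝ) ^ cb := (mul_le_mul_of_nonneg_left hBβ (by norm_num)).trans a3
    have h2 : Real.exp (2 * B - (N : ℝ) ^ cb) ≤ Real.exp (-(1 / 2 * (N : ℝ) ^ cb)) := Real.exp_le_exp.2 (by linarith)
    calc 12 * B ^ 3 * D * (2 * Real.exp (2 * B - (N : ℝ) ^ cb)) = (B ^ 3 * D) * (24 * Real.exp (2 * B - (N : ℝ) ^ cb)) := by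
          ring
      _ ≤ (N : ℝ) ^ 6 * (24 * Real.exp (-(1 / 2 * (N : ℝ) ^ cb))) :=
          mul_le_mul h36 (by linarith) (by positivity) (by positivity)
      _ ≤ (N : ℝ) ^ 6 * (N : ℝ) ^ (-(K' + 20)) := mul_le_mul_of_nonneg_left a2 (by positivity)
      _ ≤ Z / 8 := zp 6 (by norm_num)
  have t6 : 2 * (B ^ 3 * D) * ef ≤ Z / 2 := by
    have h1 : 2 * (B ^ 3 * D) * ef ≤ 2 * (B ^ 3 * D) * (N : ℝ) ^ (-(K' + 8)) := mul_le_mul_of_nonneg_left hef (by positivity)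
    have h2 : 2 * (B ^ 3 * D) * (N : ℝ) ^ (-(K' + 8)) ≤ 2 * (N : ℝ) ^ 6 * (N : ℝ) ^ (-(K' + 8)) :=
      mul_le_mul_of_nonneg_right (by linarith) (Real.rpow_nonneg hN0.le _)
    have h3 : (N : ℝ) ^ 6 * (N : ℝ) ^ (-(K' + 8)) = (N : ℝ) ^ (-2 : ℝ) * Z := by
      rw [hZ, ← Real.rpow_natCast, ← Real.rpow_add hN0, ← Real.rpow_add hN0]
      congr 1
      push_cast
      ring
    have h4 : (N : ℝ) ^ (-2 : ℝ) ≤ 1 / 4 := by
      have h5 : (N : ℝ) ^ (-2 : ℝ) ≤ (N : ℝ) ^ (-1 : ℝ) := Real.rpow_le_rpow_of_exponent_le hN1' (by norm_num)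
      have h6 : (N : ℝ) ^ (-1 : ℝ) ≤ 1 / 8 := by
        rw [Real.rpow_neg_one, ← one_div]
        exact one_div_le_one_div_of_le (by norm_num) hN8
      linarith
    have h5 := mul_le_mul_of_nonneg_right h4 hZ0
    calc 2 * (B ^ 3 * D) * ef ≤ 2 * ((N : ℝ) ^ 6 * (N : ℝ) ^ (-(K' + 8))) := by linarith
      _ ≤ Z / 2 := by
          rw [h3]
          linarith
  have m1 : gb72 N ε B R b * (B ^ 2 / 2 * ∫ ω, ev (P4 (pJ 0 bp) (pJ bm bp)) (wj μ s N (Pn N y) δ B b0 j ω t)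
      (chi4 bm (j - b) (j + b) bp c (f y ω)) ∂(Pm μ N)) ≤ gb72 N ε B R b * (B ^ 2 / 2 * O) :=
    mul_le_mul_of_nonneg_left (mul_le_mul_of_nonneg_left hO1 (by positivity)) g0
  have m2 := mul_le_mul_of_nonneg_left t5 (show 0 ≤ B ^ 3 / 4 by positivity)
  rw [← hZ]
  have e9 : B ^ 3 / 4 * (((4 : ℕ) : ℝ) * (pc * O + 2 * D * ef)) = B ^ 3 * pc * O + 2 * (B ^ 3 * D) * ef := by
    push_cast
    ring
  rw [e9] at m2
  calc _ ≤ gb72 N ε B R b * (B ^ 2 / 2 * O) + (B ^ 3 * pc * O + 2 * (B ^ 3 * D) * ef) + (Z / 8 + Z / 8) :=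
        add_le_add (add_le_add m1 m2) (add_le_add t2 t3)
    _ ≤ _ := by linarith

end

end Pool.Agent.W_7d29a1_C0.T72
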