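import Pool.Agent.W_7d29a1_C0.P4T72
import Pool.Agent.W_7d29a1_C0.TM72
import Pool.Agent.W_7d29a1_C0.Far13

/-!
CURV0 (MP_7d29a1_pr), leaf (T), `T_0L` (helper72): THE BOX INSERTION IN THE PLAN OF THE OWN BLOCK.

`ins_P4_72`: the insertion of the slab field (rows `J` behind the window, inside of the block) in `psi4` (P4T72) is at most (i) `a` times
the mass of `chi4` = the own pair and the outer pair, (ii) the same mass with a NEW replica (a shadow of any of the four) at distance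
`≥ R` from ALL of them at one given row `i0` (`sep72`), (iii) the tail of the score and the event that a path is not straight.
`t0_box72`: the same at the weights `wj` of a kicked row, for the exact response `ge` and the kick, over the environment and the signs.
-/

set_option autoImplicit false
set_option linter.unusedSectionVars false
set_option linter.unusedVariables false

namespace Pool.Agent.W_7d29a1_C0.T72

open Finset MeasureTheory
open Pool.Agent.W_7d29a1_C0 Pool.Agent.W_7d29a1_C0.Mod92 Pool.Agent.W_7d29a1_C0.Swap57 Pool.Agent.W_7d29a1_C0.NM82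
open Pool.Agent.W_7d29a1_C0.CutT57 Pool.Agent.W_7d29a1_C0.Base5
open Pool.Agent.W_7d29a1_F Pool.Agent.W_7d29a1_X
open Pool.Agent.W_7d29a1_C0.Blk18 (Full full_Pn)
open Pool.Agent.W_7d29a1_C0.FP63 (WF Rd gf tf wf_gf wf_tf at2 lA lA_tf at2_gf at2_meas cf sS mem_sS Wt_lA)
open Pool.Agent.W_7d29a1_C0.H32
open Pool.Agent.W_7d29a1_C0.E1M82 (xf wf_xf gb_eq AvA Gd AvA_add AvA_mul AvA_const abs_AvA_le)
open Pool.Agent.W_7d29a1_C0.InT57 (CF CF_eq pz pz_nonneg pz_le JZ bend57 bend57_nonneg bend57_le_one bend57_mono far57 far57_nonneg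
  far57_le_one far_one ins_box57 Obs_mulfix Obs_tail)
open Pool.Agent.W_7d29a1_C0.CrA44 (ge)
open Pool.W7d29a1.C0 Pool.W7d29a1.C0.VT31 Pool.W7d29a1.C0.T72
open Pool.W7d29a1.C0.H41 (tail1 Obs int_evP)
open Pool.W7d29a1.C0.T73 (Vis dl chT bx OutB Str)
open Pool.W7d29a1.C0.H7 (Marg Sat meas_evP)
open Pool.W7d29a1.C0.R90 (Pk kf kf_nonneg kf_mp)
open Pool.W7d29a1.C0.I52 (Plan ev ins ev_mono ev_nonneg ev_smul ev_add ev_congr gm_eq_av)

noncomputable section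

/-! ### The dominating observable -/

section Chi

variable {Q : Finset (Finset ℕ)} [SwQ Q] [Nonempty (Px Q)] {bm al be bp c : ℕ} {M F : ℝ}

/-- The own pair and the outer pair. -/
def chi4 (bm al be bp c : ℕ) (f : Px Q → ℝ) (x : Fin 4 → Px Q) : ℝ := NM bm al be bp (x 1) (x 2) * kf bp c f (x 3) (x 0)

theorem chi4_nonneg (f : Px Q → ℝ) (x : Fin 4 → Px Q) : 0 ≤ chi4 bm al be bp c f x :=
  mul_nonneg (NM_nonneg _ _ _ _ _ _) (kf_nonneg _ _ _ _ _)

theorem NM_le_one72 (cc a b d : ℕ) (S S' : Px Q) : NM cc a b d S S' ≤ 1 := by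
  unfold NM
  split_ifs <;> norm_num

theorem kf_le72 {f : Px Q → ℝ} (hF : ∀ S, |f S| ≤ F) (S S' : Px Q) : kf bp c f S S' ≤ 2 * F := by
  have hF0 : 0 ≤ F := (abs_nonneg _).trans (hF S)
  unfold kf
  have h1 : |f S - f S'| ≤ 2 * F := (abs_sub _ _).trans (by linarith [hF S, hF S'])
  calc |f S - f S'| * NI bp c S S' ≤ (2 * F) * 1 := mul_le_mul h1 (NI_le_one _ _ _ _) (NI_nonneg _ _ _ _) (by linarith)
    _ = 2 * F := mul_one _

theorem chi4_le {f : Px Q → ℝ} (hF : ∀ S, |f S| ≤ F) (x : Fin 4 → Px Q) : chi4 bm al be bp c f x ≤ 2 * F := by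
  have hF0 : 0 ≤ F := (abs_nonneg _).trans (hF (x 0))
  unfold chi4
  calc NM bm al be bp (x 1) (x 2) * kf bp c f (x 3) (x 0) ≤ 1 * (2 * F) :=
        mul_le_mul (NM_le_one72 _ _ _ _ _ _) (kf_le72 hF _ _) (kf_nonneg _ _ _ _ _) zero_le_one
    _ = 2 * F := one_mul _

theorem abs_psi4_chi {κ b f : Px Q → ℝ} (hκ : ∀ S, |κ S| ≤ M) (hb : ∀ S, |b S| ≤ M) (x : Fin 4 → Px Q) :
    |psi4 bm al be bp c κ b f x| ≤ 2 * M * M * chi4 bm al be bp c f x := by
  have h := abs_psi4_le (bm := bm) (al := al) (be := be) (bp := bp) (c := c) (f := f) hκ hb x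
  unfold chi4
  linarith

variable {κ b f : Env → Px Q → ℝ}

theorem obs_psi4 (mκ : Measurable κ) (mb : Measurable b) (mf : Measurable f) (hb : ∀ η S, |b η S| ≤ M)
    (hκ : ∀ η S, |κ η S| ≤ M) (hF : ∀ η S, |f η S| ≤ F) :
    Obs (fun η => psi4 bm al be bp c (κ η) (b η) (f η)) (4 * M ^ 2 * F) := by
  refine ⟨measurable_pi_lambda _ fun x => ?_, fun η x => ?_⟩
  · unfold psi4
    exact (((measurable_pi_apply _).comp mκ).mul ((((measurable_pi_apply _).comp mb).sub ((measurable_pi_apply _).comp mb)).mul_const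
      _)).mul ((((measurable_pi_apply _).comp mf).sub ((measurable_pi_apply _).comp mf)).mul_const _)
  · have hM0 : 0 ≤ M := (abs_nonneg _).trans (hb η (x 0))
    refine (abs_psi4_chi (hκ η) (hb η) x).trans ?_
    have h2 := mul_le_mul_of_nonneg_left (chi4_le (bm := bm) (al := al) (be := be) (bp := bp) (c := c) (hF η) x)
      (show 0 ≤ 2 * M * M by positivity)
    linarith

theorem obs_chi4 (mf : Measurable f) (hF : ∀ η S, |f η S| ≤ F) : Obs (fun η => chi4 bm al be bp c (f η)) (2 * F) := by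
  refine ⟨measurable_pi_lambda _ fun x => ?_, fun η x => ?_⟩
  · unfold chi4 kf
    exact ((((measurable_pi_apply _).comp mf).sub ((measurable_pi_apply _).comp mf)).abs.mul_const _).const_mul _
  · rw [abs_of_nonneg (chi4_nonneg _ _)]
    exact chi4_le (hF η) x

end Chi

/-! ### Far from all old replicas -/

section Sep

variable {Q : Finset (Finset ℕ)} {N : ℕ}

open Classical in
/-- The new replica is at the row `i0` at distance `≥ R` from all the old ones. -/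
def sep72 (R : ℝ) (i0 : ℕ) {m : ℕ} (x : Fin (m + 1) → Px Q) : ℝ :=
  if ∀ k : Fin m, R ≤ |((ps (x 0) i0 - ps (x k.succ) i0 : ℤ) : ℝ)| then 1 else 0

theorem sep72_nonneg (R : ℝ) (i0 : ℕ) {m : ℕ} (x : Fin (m + 1) → Px Q) : 0 ≤ sep72 R i0 x := by
  unfold sep72
  split_ifs <;> norm_num

theorem sep72_le_one (R : ℝ) (i0 : ℕ) {m : ℕ} (x : Fin (m + 1) → Px Q) : sep72 R i0 x ≤ 1 := by
  unfold sep72
  split_ifs <;> norm_num

/-- **Out of the tubes of the boxes**: far from all old ones at the row `i0`, or one of the paths is not straight. -/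
theorem far57_le_sep {m : ℕ} {sl R : ℝ} (hR : 1 ≤ R) {m0 : ℤ} (hm0 : m0 ≤ N) (J : Finset ℕ) (i0 : ℕ) (x : Fin (m + 1) → Px Q) :
    far57 N sl R m0 J x ≤ sep72 R i0 x + ∑ k, bend57 sl (R / 4) m0 (insert i0 J) (x k) := by
  classical
  have hb : ∀ k ∈ (univ : Finset (Fin (m + 1))), 0 ≤ bend57 sl (R / 4) m0 (insert i0 J) (x k) := fun k _ => bend57_nonneg _ _ _ _ _
  by_cases h : ∀ k, Str pz sl (R / 4) m0 (JZ (insert i0 J)) (x k)
  · have h1 : far57 N sl R m0 J x ≤ sep72 R i0 x := by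
      unfold far57
      by_cases ho : OutB pz sl R m0 (JZ J) (fun k => bx pz R m0 N (Fin.tail x k)) (x 0)
      · rw [if_pos ho]
        unfold sep72
        rw [if_pos]
        obtain ⟨r, h2, h3⟩ := ho
        exact fun k => far_one hR hm0 (h 0) (h k.succ) h2 (h3 k)
      · rw [if_neg ho]
        exact sep72_nonneg _ _ _
    have h2 := sum_nonneg hb
    linarith
  · push Not at h
    obtain ⟨k, hk⟩ := h
    have h1 : bend57 sl (R / 4) m0 (insert i0 J) (x k) = 1 := if_neg hk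
    have h2 := single_le_sum hb (mem_univ k)
    rw [h1] at h2
    have h3 := far57_le_one (N := N) sl R m0 J x
    have h4 := sep72_nonneg R i0 x
    linarith

end Sep

/-! ### The insertion -/

section Ins4

variable {μ : Measure ℝ} {s : ℝ} {N : ℕ} {Q : Finset (Finset ℕ)} [SwQ Q] [Nonempty (Px Q)] {A G Γ : Env → (ℕ → ℤ) → ℝ}
  {al be al' be' : ℕ} {D' M F : ℝ} {J : Finset ℕ} {bm a1 b1 bp c : ℕ} {f : Env → Px Q → ℝ} {f₀ f₀' : ℝ → ℝ}

/-- **THE INSERTION OF THE SLAB FIELD IN THE TERM OF THE OWN BLOCK.** -/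
theorem ins_P4_72 [IsProbabilityMeasure μ] (h : DenLaw μ f₀ f₀') {K θ0 : ℝ} (hs : SG μ (sc f₀ f₀') K θ0)
    (hA : WF al be D' A) (hG : WF al be M G) (hΓ : WF al' be' M Γ) (hJ : ∀ r ∈ J, be < r ∧ be' < r ∧ r ≤ N) (hJ0 : J.Nonempty)
    (mf : Measurable f) (bf : ∀ η S, |f η S| ≤ F)
    (hfb : ∀ q ∈ sS J N, ∀ (η : Env) (x : ℝ), f (Function.update η q x) = f η)
    {sl R : ℝ} (hR : 1 ≤ R) {m0 : ℤ} (hm0 : m0 ≤ N) (i0 : ℕ) {t a : ℝ} (ht : 0 < t) (ha : 0 ≤ a) (htM : t * (M / J.card) ≤ θ0) :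
    |∫ η, I52.ins (P4 (pJ 0 bp) (pJ bm bp)) (lA μ s N Q A η) (CF μ s N Q A G J η)
        (psi4 bm a1 b1 bp c (at2 Γ η) (at2 G η) (f η)) ∂(law μ)| ≤
      a * (2 * M * M * ∫ η, I52.ev (P4 (pJ 0 bp) (pJ bm bp)) (lA μ s N Q A η) (chi4 bm a1 b1 bp c (f η)) ∂(law μ)) +
      2 * M * M * M * ∑ i, ∫ η, I52.ev ((P4 (pJ 0 bp) (pJ bm bp)).sh i) (lA μ s N Q A η)
        (fun x => chi4 bm a1 b1 bp c (f η) (Fin.tail x) * sep72 R i0 x) ∂(law μ) +
      (((N + 1 : ℕ) : ℝ) ^ 4 * tail1 K (4 * M ^ 2 * F) t a (7 * (4 : ℕ) * R * M ^ 2 / J.card) +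
      96 * M ^ 3 * F * ∫ η, gm (lA μ s N Q A η) (bend57 sl (R / 4) m0 (insert i0 J)) ∂(law μ)) := by
  obtain ⟨S0⟩ := (inferInstance : Nonempty (Px Q))
  have hM0 : 0 ≤ M := (abs_nonneg _).trans (hG.bd (fun _ => 0) fun _ => 0)
  have hF0 : 0 ≤ F := (abs_nonneg _).trans (bf (fun _ => 0) S0)
  have bκ : ∀ η (S : Px Q), |at2 Γ η S| ≤ M := fun η S => hΓ.bd η _
  have bb : ∀ η (S : Px Q), |at2 G η S| ≤ M := fun η S => hG.bd η _
  have hΨ : Obs (fun η => psi4 bm a1 b1 bp c (at2 Γ η) (at2 G η) (f η)) (4 * M ^ 2 * F) :=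
    obs_psi4 (at2_meas hΓ) (at2_meas hG) mf bb bκ bf
  have hχ : Obs (fun η => chi4 bm a1 b1 bp c (f η)) (2 * F) := obs_chi4 mf bf
  have hbl : ∀ q ∈ sS J N, ∀ (η : Env) (x : ℝ), psi4 bm a1 b1 bp c (at2 (Q := Q) Γ (Function.update η q x))
      (at2 G (Function.update η q x)) (f (Function.update η q x)) = psi4 bm a1 b1 bp c (at2 Γ η) (at2 G η) (f η) := fun q hq η x => by
    have hq0 := hq
    obtain ⟨r, hr, zz, _, rfl⟩ := mem_sS.1 hq
    have h1 := hJ r hr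
    have g1 : (be : ℤ) < (r : ℤ) := by exact_mod_cast h1.1
    have g2 : (be' : ℤ) < (r : ℤ) := by exact_mod_cast h1.2.1
    have e1 : at2 (Q := Q) Γ (Function.update η ((r : ℤ), zz) x) = at2 Γ η := by
      unfold at2
      rw [hΓ.blind η _ x (Or.inr g2)]
    have e2 : at2 (Q := Q) G (Function.update η ((r : ℤ), zz) x) = at2 G η := by
      unfold at2
      rw [hG.blind η _ x (Or.inr g1)]
    rw [e1, e2, hfb _ hq0]
  have mw : Measurable fun η => lA μ s N Q A η := (Wt_lA (μ := μ) (s := s) (N := N) (Q := Q) hA (S := ∅)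
    (fun p hp => absurd hp (Finset.notMem_empty p))).meas
  have k := ins_box57 (m := 4) (s := s) (P4 (pJ (Q := Q) 0 bp) (pJ bm bp)) h hs hA hG (fun r hr => ⟨(hJ r hr).1, (hJ r hr).2.2⟩)
    hJ0 hΨ hbl (sl := sl) hR hm0 ht ha htM
  refine k.trans ?_
  have hmar := marg_P4 (pJ (Q := Q) 0 bp) (pJ (Q := Q) bm bp)
  -- the main term
  have t1 : ∫ η, I52.ev (P4 (pJ (Q := Q) 0 bp) (pJ bm bp)) (lA μ s N Q A η)
      (fun x => |psi4 bm a1 b1 bp c (at2 Γ η) (at2 G η) (f η) x|) ∂(law μ) ≤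
      2 * M * M * ∫ η, I52.ev (P4 (pJ 0 bp) (pJ bm bp)) (lA μ s N Q A η) (chi4 bm a1 b1 bp c (f η)) ∂(law μ) := by
    rw [← integral_const_mul]
    refine integral_mono (int_evP _ hΨ.abs mw) ((int_evP _ hχ mw).const_mul _) fun η => ?_
    beta_reduce
    rw [← I52.ev_smul]
    exact I52.ev_mono _ _ fun x => abs_psi4_chi (bκ η) (bb η) x
  -- the paths which are not straight
  obtain ⟨β, hβ⟩ : ∃ β : ℝ, β = ∫ η, gm (lA μ s N Q A η) (bend57 sl (R / 4) m0 (insert i0 J)) ∂(law μ) := ⟨_, rfl⟩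
  have ib : ∀ (R : ℝ) (J : Finset ℕ), Integrable (fun η => gm (lA μ s N Q A η) (bend57 sl R m0 J)) (law μ) := fun R J => by
    have h1 : Obs (fun (_ : Env) (x : Fin 4 → Px Q) => bend57 sl R m0 J (x 0)) 1 :=
      ⟨measurable_const, fun η x => by
        rw [abs_of_nonneg (bend57_nonneg _ _ _ _ _)]
        exact bend57_le_one _ _ _ _ _⟩
    have h2 := int_evP (μ := μ) (P4 (pJ (Q := Q) 0 bp) (pJ bm bp)) h1 mw
    simpa only [hmar.ev] using h2
  have t2 : ∀ i : Fin 4, ∫ η, I52.ev (P4 (pJ (Q := Q) 0 bp) (pJ bm bp)) (lA μ s N Q A η)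
      (fun x => |psi4 bm a1 b1 bp c (at2 Γ η) (at2 G η) (f η) x| * bend57 sl R m0 J (x i)) ∂(law μ) ≤
      4 * M ^ 2 * F * β := fun i => by
    rw [hβ, ← integral_const_mul]
    refine integral_mono (int_evP _ (Obs_mulfix hΨ (fun x => bend57_nonneg sl R m0 J (x i)) fun x => bend57_le_one sl R m0 J (x i)) mw)
      ((ib (R / 4) (insert i0 J)).const_mul _) fun η => ?_
    have h1 : I52.ev (P4 (pJ (Q := Q) 0 bp) (pJ bm bp)) (lA μ s N Q A η)
        (fun x => |psi4 bm a1 b1 bp c (at2 Γ η) (at2 G η) (f η) x| * bend57 sl R m0 J (x i)) ≤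
        I52.ev (P4 (pJ (Q := Q) 0 bp) (pJ bm bp)) (lA μ s N Q A η) fun x =>
          4 * M ^ 2 * F * bend57 sl (R / 4) m0 (insert i0 J) (x i) :=
      I52.ev_mono _ _ fun x => mul_le_mul (hΨ.bd η x) (bend57_mono (by linarith) (subset_insert _ _) _) (bend57_nonneg _ _ _ _ _)
        (by positivity)
    refine h1.trans_eq ?_
    rw [I52.ev_smul, hmar.ev i _ (bend57 sl (R / 4) m0 (insert i0 J))]
  -- the new replicas
  have o1 : ∀ i : Fin 4, Obs (fun η (x : Fin 5 → Px Q) => chi4 bm a1 b1 bp c (f η) (Fin.tail x) * sep72 R i0 x) (2 * F) := fun i => by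
    have h1 := Obs_mulfix (Obs_tail hχ) (φ := fun x : Fin 5 → Px Q => sep72 R i0 x) (fun x => sep72_nonneg R i0 x)
      fun x => sep72_le_one R i0 x
    have e : (fun η (x : Fin 5 → Px Q) => |chi4 bm a1 b1 bp c (f η) (Fin.tail x)| * sep72 R i0 x) =
        fun η x => chi4 bm a1 b1 bp c (f η) (Fin.tail x) * sep72 R i0 x := by
      funext η x
      rw [abs_of_nonneg (chi4_nonneg _ _)]
    rwa [e] at h1
  have t3 : ∀ i : Fin 4, ∫ η, I52.ev ((P4 (pJ (Q := Q) 0 bp) (pJ bm bp)).sh i) (lA μ s N Q A η)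
      (fun x => |psi4 bm a1 b1 bp c (at2 Γ η) (at2 G η) (f η) (Fin.tail x)| * far57 N sl R m0 J x) ∂(law μ) ≤
      2 * M * M * ∫ η, I52.ev ((P4 (pJ 0 bp) (pJ bm bp)).sh i) (lA μ s N Q A η)
        (fun x => chi4 bm a1 b1 bp c (f η) (Fin.tail x) * sep72 R i0 x) ∂(law μ) + 4 * M ^ 2 * F * (5 * β) := fun i => by
    rw [hβ, ← integral_const_mul, ← integral_const_mul, ← integral_const_mul,
      ← integral_add ((int_evP _ (o1 i) mw).const_mul _) (((ib _ _).const_mul _).const_mul _)]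
    refine integral_mono (int_evP _ (Obs_mulfix (Obs_tail hΨ) (fun x => far57_nonneg sl R m0 J x) fun x => far57_le_one sl R m0 J x) mw)
      (((int_evP _ (o1 i) mw).const_mul _).add (((ib _ _).const_mul _).const_mul _)) fun η => ?_
    have h1 : I52.ev ((P4 (pJ (Q := Q) 0 bp) (pJ bm bp)).sh i) (lA μ s N Q A η)
        (fun x => |psi4 bm a1 b1 bp c (at2 Γ η) (at2 G η) (f η) (Fin.tail x)| * far57 N sl R m0 J x) ≤
        I52.ev ((P4 (pJ (Q := Q) 0 bp) (pJ bm bp)).sh i) (lA μ s N Q A η) fun x =>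
          2 * M * M * (chi4 bm a1 b1 bp c (f η) (Fin.tail x) * sep72 R i0 x) +
            4 * M ^ 2 * F * ∑ k, bend57 sl (R / 4) m0 (insert i0 J) (x k) := I52.ev_mono _ _ fun x => by
      have h2 := far57_le_sep (N := N) hR hm0 J i0 x (sl := sl)
      have h3 := abs_psi4_chi (bm := bm) (al := a1) (be := b1) (bp := bp) (c := c) (f := f η) (bκ η) (bb η) (Fin.tail x)
      have h4 := hΨ.bd η (Fin.tail x)
      have h5 := mul_le_mul_of_nonneg_left h2 (abs_nonneg (psi4 bm a1 b1 bp c (at2 Γ η) (at2 G η) (f η) (Fin.tail x)))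
      have h6 := mul_le_mul_of_nonneg_right h3 (sep72_nonneg R i0 x)
      have h7 := mul_le_mul_of_nonneg_right h4 (sum_nonneg fun k (_ : k ∈ (univ : Finset (Fin 5))) =>
        bend57_nonneg sl (R / 4) m0 (insert i0 J) (x k))
      calc _ ≤ _ := h5
        _ = |psi4 bm a1 b1 bp c (at2 Γ η) (at2 G η) (f η) (Fin.tail x)| * sep72 R i0 x +
            |psi4 bm a1 b1 bp c (at2 Γ η) (at2 G η) (f η) (Fin.tail x)| * ∑ k, bend57 sl (R / 4) m0 (insert i0 J) (x k) :=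
            mul_add _ _ _
        _ ≤ _ := by
            refine add_le_add (h6.trans (le_of_eq ?_)) h7
            ring
    refine h1.trans (le_of_eq ?_)
    rw [I52.ev_add, I52.ev_smul, I52.ev_smul, I52.ev_sum]
    have h8 : ∀ k : Fin 5, I52.ev ((P4 (pJ (Q := Q) 0 bp) (pJ bm bp)).sh i) (lA μ s N Q A η)
        (fun x => bend57 sl (R / 4) m0 (insert i0 J) (x k)) = gm (lA μ s N Q A η) (bend57 sl (R / 4) m0 (insert i0 J)) := fun k =>
      (hmar.sh i).ev k _ _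
    rw [Finset.sum_congr rfl fun k _ => h8 k, sum_const, card_univ, Fintype.card_fin, nsmul_eq_mul]
    push_cast
    ring
  have w1 := mul_le_mul_of_nonneg_left t1 ha
  have w2 := mul_le_mul_of_nonneg_left (sum_le_sum fun i (_ : i ∈ (univ : Finset (Fin 4))) => t2 i) hM0
  have w3 := mul_le_mul_of_nonneg_left (sum_le_sum fun i (_ : i ∈ (univ : Finset (Fin 4))) => t3 i) hM0
  refine (add_le_add (add_le_add w1 le_rfl) (add_le_add w2 w3)).trans (le_of_eq ?_)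
  rw [← hβ, sum_const, card_univ, Fintype.card_fin, nsmul_eq_mul, sum_add_distrib, ← mul_sum, sum_const, card_univ,
    Fintype.card_fin, nsmul_eq_mul]
  push_cast
  ring

end Ins4

/-! ### The far event of helper13 -/

section FarA

variable {μ : Measure ℝ} {s : ℝ} {N y : ℕ}

open scoped Classical in
/-- Far from all old replicas at the row `i0`: the event `FarAt`. -/
theorem sep72_le_far {L : ℕ} {δ' R : ℝ} {tt τ i0 k : ℕ} (hR : (L : ℝ) ^ (-δ') * Pool.Agent.W_7d29a1_HZ.wd' μ s tt ≤ R) (h1 : τ ≤ i0)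
    (h2 : i0 ≤ τ + tt / 4) (h3 : i0 ≤ N) (x : Fin (k + 2) → Px (Pn N y)) :
    sep72 R i0 x ≤ if Pool.Agent.W_7d29a1_C0.F13.FarAt μ s L δ' N tt τ (Pool.Agent.W_7d29a1_C0.F13.pt x) then 1 else 0 := by
  unfold sep72
  by_cases h : ∀ k : Fin (k + 1), R ≤ |((ps (x 0) i0 - ps (x k.succ) i0 : ℤ) : ℝ)|
  · rw [if_pos h, if_pos]
    refine ⟨i0, h1, h2, h3, fun m => hR.trans ?_⟩
    have h4 := h m
    rw [← Int.cast_abs] at h4
    exact h4
  · rw [if_neg h]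
    split_ifs <;> norm_num

end FarA

/-! ### In the model -/

section Mod

variable {μ : Measure ℝ} {s : ℝ} {N : ℕ}

theorem Lk_geW72 {y : ℕ} [Nonempty (Px (Pn N y))] {δ B : ℝ} {b0 b j : ℕ} (hB : 0 ≤ B) (hb : b0 ≤ b) (hj : j + b ≤ N)
    (ω : Env × Finset ℕ) : Lk (j - b) (j + b) (ge μ s N (Pn N y) δ B b0 b ω j) := by
  obtain ⟨η, A⟩ := ω
  rw [ge_at2 hB hb hj η A]
  intro S S' h
  exact (wf_xf (μ := μ) (s := s) hB δ hb j (abs_sg A j).le).rd η _ _ fun r h1 hr => h r h1 hr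

/-- The weights of a kicked row keep the swaps of the block. -/
theorem Wk_wj72 {Q : Finset (Finset ℕ)} [SwQ Q] (δ B : ℝ) {b0 b j : ℕ} (hb : b0 ≤ b) (ω : Env × Finset ℕ) (t : ℝ) (cc d : ℕ) :
    Wk cc (j - b) (j + b) d (wj μ s N Q δ B b0 j ω t) := by
  have h1 : Lk (j - b) (j + b) (gj (Q := Q) μ s ω.1 δ B b0 j (sg ω.2 j)) := Lk_gg (Q := Q) δ B b0 j ω (by omega) (by omega)
  exact (Wk_lw ω.1 (by omega)).add (h1.Wk.smul _)

variable [IsProbabilityMeasure μ] {y : ℕ} [Nonempty (Px (Pn N y))] {δ B : ℝ} {b0 b j : ℕ}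
  {t : ℝ} {bm bp c : ℕ} {cc d : ℕ} {f : Fam N} {D : ℝ} {J : Finset ℕ}

/-- The term of the own block in the direction of the slab field. -/
def dC72 (μ : Measure ℝ) (s : ℝ) (N : ℕ) (Q : Finset (Finset ℕ)) (δ B : ℝ) (b0 j : ℕ) (t : ℝ) (bm bp : ℕ) (J : Finset ℕ)
    (γ f : Env × Finset ℕ → Px Q → ℝ) (ω : Env × Finset ℕ) : ℝ :=
  dT72 (pJ 0 bp) (pJ bm bp) (γ ω) (gg μ s Q δ B b0 ω j) (f ω) (wj μ s N Q δ B b0 j ω t)
    (avC (wj μ s N Q δ B b0 j ω t) J (fun _ => (J.card : ℝ)⁻¹) (fun m => pJ 0 m) (gg μ s Q δ B b0 ω j))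

/-- **THE BOX PART OF `T_0L` IN THE MODEL.** -/
theorem t0_box72 {f₀ f₀' : ℝ → ℝ} (h : DenLaw μ f₀ f₀') {Kd θ0 : ℝ} (hs : SG μ (sc f₀ f₀') Kd θ0) (hB : 0 ≤ B) (hb : b0 ≤ b)
    (hbm : bm + b ≤ j) (hbp : j + b ≤ bp) (hJ : ∀ r ∈ J, j + b < r ∧ r ≤ bp) (hJ0 : J.Nonempty) (hbc : bp ≤ c) (hcd : c ≤ d)
    (hdN : d ≤ N) (hf : Cls59 N cc d D f) {sl R : ℝ} (hR : 1 ≤ R) {m0 : ℤ} (hm0 : m0 ≤ N) (i0 : ℕ) {τ a : ℝ} (hτ : 0 < τ)
    (ha : 0 ≤ a) (hτM : τ * (B / 2 / J.card) ≤ θ0) {eb : ℝ}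
    (heb : ∀ A : Finset ℕ, ∫ η, gm (lA μ s N (Pn N y) (tf μ s δ B b0 j (sg A j) t) η) (bend57 sl (R / 4) m0 (insert i0 J)) ∂(law μ) ≤ eb) :
    |∫ ω, dC72 μ s N (Pn N y) δ B b0 j t bm bp J (fun ω => ge μ s N (Pn N y) δ B b0 b ω j) (f y) ω ∂(Pm μ N)| ≤
      a * (B ^ 2 / 2 * ∫ ω, ev (P4 (pJ 0 bp) (pJ bm bp)) (wj μ s N (Pn N y) δ B b0 j ω t)
        (chi4 bm (j - b) (j + b) bp c (f y ω)) ∂(Pm μ N)) +
      B ^ 3 / 4 * ∑ i, ∫ ω, ev ((P4 (pJ 0 bp) (pJ bm bp)).sh i) (wj μ s N (Pn N y) δ B b0 j ω t)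
        (fun x => chi4 bm (j - b) (j + b) bp c (f y ω) (Fin.tail x) * sep72 R i0 x) ∂(Pm μ N) +
      (((N + 1 : ℕ) : ℝ) ^ 4 * tail1 Kd (B ^ 2 * D) τ a (7 * (4 : ℕ) * R * (B / 2) ^ 2 / J.card) + 12 * B ^ 3 * D * eb) := by
  classical
  obtain ⟨S0⟩ := (inferInstance : Nonempty (Px (Pn N y)))
  have hD : 0 ≤ D := (abs_nonneg _).trans (hf.bdd y (fun _ => 0, ∅) S0)
  have hM : 0 ≤ B / 2 := by linarith
  have hJ1 := hJ0
  obtain ⟨r0, hr0⟩ := hJ1
  have hjN : j + b ≤ N := by omega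
  have hrk : ∀ ω, Rk c (f y ω) := fun ω => Pool.Agent.W_7d29a1_C0.E1M82.rk_cls hf hcd y ω
  obtain ⟨Φ, hΦ⟩ : ∃ Φ : Env × Finset ℕ → ℝ, Φ = fun ω => dC72 μ s N (Pn N y) δ B b0 j t bm bp J
    (fun ω => ge μ s N (Pn N y) δ B b0 b ω j) (f y) ω := ⟨_, rfl⟩
  have hΦ2 : ∀ ω, Φ ω = ins (P4 (pJ 0 bp) (pJ bm bp)) (wj μ s N (Pn N y) δ B b0 j ω t)
      (avC (wj μ s N (Pn N y) δ B b0 j ω t) J (fun _ => (J.card : ℝ)⁻¹) (fun m => pJ 0 m) (gg μ s (Pn N y) δ B b0 ω j))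
      (psi4 bm (j - b) (j + b) bp c (ge μ s N (Pn N y) δ B b0 b ω j) (gg μ s (Pn N y) δ B b0 ω j) (f y ω)) := fun ω => by
    rw [hΦ]
    have hw := HdAll_wj72 (μ := μ) (s := s) (N := N) (Q := Pn N y) δ B (show j + b0 ≤ j + b by omega) ω t
    have hg : Lk 0 (j + b) (gg μ s (Pn N y) δ B b0 ω j) := Lk_gg (Q := Pn N y) δ B b0 j ω (Nat.zero_le _) (by omega)
    have hg' : Lk (j - b) (j + b) (gg μ s (Pn N y) δ B b0 ω j) := Lk_gg (Q := Pn N y) δ B b0 j ω (by omega) (by omega)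
    have hC := HdAll_avC (J := J) (θ := fun _ => (J.card : ℝ)⁻¹) hw hg (fun m hm => by have := hJ m hm; omega) (j + b)
    have hCW : Wk bm (j - b) (j + b) bp (avC (wj μ s N (Pn N y) δ B b0 j ω t) J (fun _ => (J.card : ℝ)⁻¹) (fun m => pJ 0 m)
        (gg μ s (Pn N y) δ B b0 ω j)) := by
      unfold avC
      refine Wk_sum fun m hm => ?_
      exact (Wk_row (by omega) (Lk_field hw hg (by have := hJ m hm; omega))).smul _
    exact dT72_eq_ins4 (by omega) (by omega) hbp hbc (Wk_wj72 δ B hb ω t bm bp) (hw bp bp hbp le_rfl) (hw bp c hbp hbc)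
      hCW (hC bp bp hbp le_rfl) (hC bp c hbp hbc) (Lk_ge72 hB hb hjN hbp ω) hg' (hrk ω)
  have bC : ∀ ω x, |avC (wj μ s N (Pn N y) δ B b0 j ω t) J (fun _ => (J.card : ℝ)⁻¹) (fun m => pJ 0 m)
      (gg μ s (Pn N y) δ B b0 ω j) x| ≤ B / 2 := fun ω x => by
    have hc0 : (0 : ℝ) < J.card := Nat.cast_pos.2 (card_pos.2 ⟨r0, hr0⟩)
    unfold avC
    rw [Finset.sum_apply]
    refine (abs_sum_le_sum_abs _ _).trans ?_
    have h1 : ∀ m ∈ J, |((J.card : ℝ)⁻¹ • cE (wj μ s N (Pn N y) δ B b0 j ω t) (pJ 0 m) (gg μ s (Pn N y) δ B b0 ω j)) x| ≤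
        (J.card : ℝ)⁻¹ * (B / 2) := fun m _ => by
      rw [Pi.smul_apply, smul_eq_mul, abs_mul, abs_of_nonneg (by positivity : (0 : ℝ) ≤ (J.card : ℝ)⁻¹)]
      exact mul_le_mul_of_nonneg_left (abs_cE_le_X _ _ (fun x => abs_gg hB b0 ω j x) x) (by positivity)
    refine (sum_le_sum h1).trans (le_of_eq ?_)
    rw [sum_const, nsmul_eq_mul, ← mul_assoc, mul_inv_cancel₀ hc0.ne', one_mul]
  have mC : Measurable fun ω => avC (wj μ s N (Pn N y) δ B b0 j ω t) J (fun _ => (J.card : ℝ)⁻¹) (fun m => pJ 0 m)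
      (gg μ s (Pn N y) δ B b0 ω j) := by
    unfold avC
    refine Finset.measurable_fun_sum _ fun m _ => measurable_pi_lambda _ fun x => ?_
    exact ((measurable_pi_apply x).comp (meas_cEX (pJ 0 m) (meas_wj72 δ B b0 j t) (meas_gg72 δ B b0 j))).const_mul _
  have mf : Measurable (f y) := measurable_pi_lambda _ fun S => hf.meas y S
  have g1 : Gd Φ := by
    rw [hΦ]
    exact ⟨fun A => (meas_dT72 _ _ (meas_wj72 δ B b0 j t) mC (meas_ge72 δ B b0 b j) (meas_gg72 δ B b0 j) mf).comp (meas_pair A),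
      ⟨_, fun ω => abs_dT72_le _ _ (bC ω) (abs_ge72 hB ω) (fun x => abs_gg hB b0 ω j x) (hf.bdd y ω)⟩⟩
  have mχ : ∀ x : Fin 4 → Px (Pn N y), Measurable fun ω => chi4 bm (j - b) (j + b) bp c (f y ω) x := fun x => by
    unfold chi4 kf
    exact ((((hf.meas y _).sub (hf.meas y _)).abs.mul_const _).const_mul _)
  have g2 : Gd fun ω => ev (P4 (pJ 0 bp) (pJ bm bp)) (wj μ s N (Pn N y) δ B b0 j ω t) (chi4 bm (j - b) (j + b) bp c (f y ω)) :=
    gd_ev72 _ t mχ (fun ω x => chi4_nonneg _ x) (K := 2 * D) fun ω x => chi4_le (hf.bdd y ω) x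
  have g3 : ∀ i : Fin 4, Gd fun ω => ev ((P4 (pJ 0 bp) (pJ bm bp)).sh i) (wj μ s N (Pn N y) δ B b0 j ω t)
      (fun x => chi4 bm (j - b) (j + b) bp c (f y ω) (Fin.tail x) * sep72 R i0 x) := fun i =>
    gd_ev72 _ t (fun x => (mχ (Fin.tail x)).mul_const _) (fun ω x => mul_nonneg (chi4_nonneg _ _) (sep72_nonneg _ _ _)) (K := 2 * D)
      fun ω x => by
        calc chi4 bm (j - b) (j + b) bp c (f y ω) (Fin.tail x) * sep72 R i0 x ≤ (2 * D) * 1 :=
              mul_le_mul (chi4_le (hf.bdd y ω) _) (sep72_le_one _ _ _) (sep72_nonneg _ _ _) (by linarith)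
          _ = 2 * D := mul_one _
  have e0 : ∫ ω, dC72 μ s N (Pn N y) δ B b0 j t bm bp J (fun ω => ge μ s N (Pn N y) δ B b0 b ω j) (f y) ω ∂(Pm μ N) =
      ∫ ω, Φ ω ∂(Pm μ N) := by rw [hΦ]
  rw [e0, g1.av, g2.av]
  simp only [(g3 _).av]
  rw [← AvA_const (N := N) (((N + 1 : ℕ) : ℝ) ^ 4 * tail1 Kd (B ^ 2 * D) τ a (7 * (4 : ℕ) * R * (B / 2) ^ 2 / J.card) +
    12 * B ^ 3 * D * eb)]
  rw [Fin.sum_univ_four]
  simp only [← AvA_add, ← AvA_mul]
  refine abs_AvA_le fun A => ?_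
  -- fixed signs
  have ha1 : |((sg A j : ℤ) : ℝ)| ≤ 1 := (abs_sg A j).le
  have key := ins_P4_72 (μ := μ) (s := s) (Q := Pn N y) (J := J) (bm := bm) (a1 := j - b) (b1 := j + b) (bp := bp) (c := c) h hs
    (wf_tf (μ := μ) (s := s) hB δ b0 j ha1 t) (wf_gf (μ := μ) (s := s) hB δ b0 j ha1)
    (wf_xf (μ := μ) (s := s) hB δ hb j ha1) (fun r hr => by have := hJ r hr; exact ⟨by omega, by omega, by omega⟩) hJ0
    (f := fun η => f y (η, A)) (measurable_pi_lambda _ fun S => (hf.meas y S).comp (meas_pair A)) (fun η S => hf.bdd y (η, A) S)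
    (fun q hq η x => by
      obtain ⟨r, hr, u, hu, rfl⟩ := Pool.Agent.W_7d29a1_C0.FP63.mem_sS.1 hq
      have h1 := hJ r hr
      funext S
      exact hf.env y η A S r u x (by omega) (by omega)) (sl := sl) hR hm0 i0 hτ ha hτM
  have e2 : ∀ η, Φ (η, A) = ins (P4 (pJ 0 bp) (pJ bm bp)) (lA μ s N (Pn N y) (tf μ s δ B b0 j (sg A j) t) η)
      (CF μ s N (Pn N y) (tf μ s δ B b0 j (sg A j) t) (gf μ s δ B b0 j (sg A j)) J η)
      (psi4 bm (j - b) (j + b) bp c (at2 (xf μ s δ B b0 b j (sg A j)) η) (at2 (gf μ s δ B b0 j (sg A j)) η) (f y (η, A))) := fun η => by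
    rw [hΦ2, CF_avC (full_Pn N y) (wf_tf (μ := μ) (s := s) hB δ b0 j ha1 t) (wf_gf (μ := μ) (s := s) hB δ b0 j ha1) (by omega)
      (fun r hr => by have := hJ r hr; omega) η, ← ge_at2 hB hb hjN η A]
    rfl
  have h2 := heb A
  have h3 : 0 ≤ 12 * B ^ 3 * D := by positivity
  have h4 := mul_le_mul_of_nonneg_left h2 h3
  have ew : ∀ η, lA μ s N (Pn N y) (tf μ s δ B b0 j (sg A j) t) η = wj μ s N (Pn N y) δ B b0 j (η, A) t := fun η => rfl
  simp only [e2]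
  refine key.trans (le_trans (le_of_eq ?_) (add_le_add le_rfl (add_le_add le_rfl h4)))
  rw [Fin.sum_univ_four]
  have e5 : 4 * (B / 2) ^ 2 * D = B ^ 2 * D := by ring
  rw [e5]
  simp only [ew]
  ring

end Mod

end

end Pool.Agent.W_7d29a1_C0.T72
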