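import Pool.Agent.W_7d29a1_C0.T0E90
import Pool.Agent.W_7d29a1_C0.T0B72
import Pool.Agent.W_7d29a1_C0.EvU50

/-!
CURV0 (MP_7d29a1_pr), leaf (T), `T_0L` (helper90): THE EVENTS OF THE OWN BLOCK AT THE CORNER. `RbF`: a functional of one path, told from
behind the slab of the passage, robust; `e0_Pk90`: the passage of the outer pair with such a functional; `Pk_rw90`: in the shape of the
group bound; `bad_Pk90`: the rare part; `mic_fst90`: the micro term of the first order, pathwise.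
-/

set_option autoImplicit false
set_option linter.unusedSectionVars false
set_option linter.unusedVariables false

namespace Pool.Agent.W_7d29a1_C0.T0F90

open Finset MeasureTheory
open Pool.Agent.W_7d29a1_C0 Pool.Agent.W_7d29a1_C0.Mod92 Pool.Agent.W_7d29a1_C0.Swap57 Pool.Agent.W_7d29a1_C0.NM82
open Pool.Agent.W_7d29a1_C0.CutT57 Pool.Agent.W_7d29a1_C0.T72
open Pool.Agent.W_7d29a1_F Pool.Agent.W_7d29a1_X
open Pool.W7d29a1.C0 Pool.W7d29a1.C0.VT31 Pool.W7d29a1.C0.T72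
open Pool.W7d29a1.C0.H7 (E0X Marg Sat meas_evP)
open Pool.W7d29a1.C0.H27 (pB slb)
open Pool.W7d29a1.C0.R43 (mI mI_nonneg cE2_mI Tau tau_meas)
open Pool.W7d29a1.C0.R90 (Pk kf kf_nonneg kf_mp Pk_mono Pk_smul Pk_add Pk_nonneg ii ii_nonneg ii_le_one ii_of ii_not)
open Pool.W7d29a1.C0.I52 (Plan ev ev_mono ev_nonneg ev_smul ev_add ev_congr gm_eq_av ev_cons)
open Pool.Agent.W_7d29a1_C0.EvT50 (TauM NCn BadT GW1 nC nC_nonneg nC_le_one rare50 rb_bad meas_tauM meas_NCn meas_GW1 meas_bad resp_ev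
  cE2_NM_le abs_cE_le meas_cE2' tau_tilt int_fst)

noncomputable section

variable {μ : Measure ℝ} {s : ℝ} {N : ℕ}

/-! ### Two free replicas -/

section Two

variable {Q : Finset (Finset ℕ)} [SwQ Q] [Nonempty (Px Q)]

/-- Two free replicas. -/
def P2 (Q : Finset (Finset ℕ)) [Nonempty (Px Q)] : Plan (Px Q) 2 := (Plan.nil.fr).fr

theorem ev_P2 (w : Px Q → ℝ) (F : Px Q → Px Q → ℝ) : ev (P2 Q) w (fun x => F (x 1) (x 0)) = PP w F := by
  have e1 : ev (P2 Q) w (fun x => F (x 1) (x 0)) = ev (Plan.nil.fr) w fun x => gm w (F (x 0)) := by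
    show ev (Plan.cons _ _ _) w _ = _
    rw [ev_cons]
    refine ev_congr _ _ fun x => ?_
    rw [gm_eq_av]
    rfl
  have e2 : ev (Plan.nil.fr) w (fun x => gm w (F (x 0))) = gm w fun S => gm w (F S) := by
    show ev (Plan.cons _ _ _) w _ = _
    rw [ev_cons, Pool.W7d29a1.C0.I52.ev_nil, gm_eq_av]
    rfl
  rw [e1, e2, gm_gm_eq_PP]

theorem marg_P2 : Marg (P2 Q) := (Marg.nil.fr).fr

theorem sat_P2 {Y : Type*} [DecidableEq Y] (p : Px Q → Y) : Sat p (P2 Q) := (Sat.nil.fr).fr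

/-- A robust functional of one path, told from what is behind the slab of the passage. -/
structure RbF (Q : Finset (Finset ℕ)) (c0 K : ℕ) (θ : ℝ) (V V' : Env × Finset ℕ → Px Q → ℝ) : Prop where
  nn : ∀ ω S, 0 ≤ V ω S
  le1 : ∀ ω S, V ω S ≤ 1
  nn' : ∀ ω S, 0 ≤ V' ω S
  le1' : ∀ ω S, V' ω S ≤ 1
  ms : ∀ S, Measurable fun ω => V ω S
  ms' : ∀ S, Measurable fun ω => V' ω S
  beh : ∀ ω S S', pB (c0 + K) S = pB (c0 + K) S' → V ω S = V ω S'
  rob : ∀ A η ζ, (∀ q, q ∉ slb c0 K → ζ q = η q) → (∀ q, |ζ q - η q| ≤ θ) → ∀ S, V (η, A) S ≤ V' (ζ, A) S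

variable {c0 K : ℕ} {θ : ℝ}

theorem RbF.mul {V V' W W' : Env × Finset ℕ → Px Q → ℝ} (h : RbF Q c0 K θ V V') (g : RbF Q c0 K θ W W') :
    RbF Q c0 K θ (fun ω S => V ω S * W ω S) fun ω S => V' ω S * W' ω S where
  nn ω S := mul_nonneg (h.nn ω S) (g.nn ω S)
  le1 ω S := mul_le_one₀ (h.le1 ω S) (g.nn ω S) (g.le1 ω S)
  nn' ω S := mul_nonneg (h.nn' ω S) (g.nn' ω S)
  le1' ω S := mul_le_one₀ (h.le1' ω S) (g.nn' ω S) (g.le1' ω S)
  ms S := (h.ms S).mul (g.ms S)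
  ms' S := (h.ms' S).mul (g.ms' S)
  beh ω S S' e := by rw [h.beh ω S S' e, g.beh ω S S' e]
  rob A η ζ h1 h2 S := mul_le_mul (h.rob A η ζ h1 h2 S) (g.rob A η ζ h1 h2 S) (g.nn _ _) (h.nn' _ _)

theorem RbF.of_rb {T T' : Env × Finset ℕ → Px Q → Prop} (h : Rb72 Q c0 K θ T T') : RbF Q c0 K θ (ind72 T) (ind72 T') where
  nn ω S := ind72_nonneg _ _ _
  le1 ω S := ind72_le_one _ _ _
  nn' ω S := ind72_nonneg _ _ _
  le1' ω S := ind72_le_one _ _ _
  ms S := meas_ind72 h.meas S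
  ms' S := meas_ind72 h.meas' S
  beh ω S S' e := by
    unfold ind72
    rw [show T ω S = T ω S' from propext (h.beh ω S S' e)]
  rob A η ζ h1 h2 S := by
    unfold ind72
    by_cases h5 : T (η, A) S
    · rw [if_pos h5, if_pos (h.rob A η ζ h1 h2 S h5)]
    · rw [if_neg h5]
      split_ifs <;> norm_num

theorem meas_tau90 {w : Env × Finset ℕ → Px Q → ℝ} (hw : ∀ S, Measurable fun ω => w ω S) (m i k : ℕ) (M : ℝ) (S : Px Q) :
    MeasurableSet {ω | Tau (w ω) (pJ (Q := Q) 0 m) i k M S} := by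
  show MeasurableSet {ω : Env × Finset ℕ | Real.exp (-(5 * M)) ≤ cE2 (w ω) (pJ 0 m) (NI i k) S S}
  exact measurableSet_le measurable_const (meas_cE2' hw _ _ _ _)

/-- **A near tie at the weights of a kicked row is a near tie at the corner**, robust. -/
theorem rb_tau90 {δ B : ℝ} {b0 j m i k : ℕ} {t M M' : ℝ} (hm : c0 + K ≤ m) (hj : j + b0 ≤ c0) (hB : 0 ≤ B) (ht : |t| ≤ 1)
    (hθ : θ ≤ 2 * B / K) (hM : 5 * M + 4 * (3 * B) ≤ 5 * M') :
    Rb72 Q c0 K θ (fun ω S => Tau (wj μ s N Q δ B b0 j ω t) (pJ 0 m) i k M S)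
      (fun ω S => Tau (wm μ s N Q ω) (pJ 0 m) i k M' S) where
  meas S := meas_tau90 (fun T => (measurable_pi_apply T).comp (meas_wj72 δ B b0 j t)) m i k M S
  meas' S := meas_tau90 meas_wm m i k M' S
  beh ω S S' h := tau_meas _ _ _ _ _ (crs_pB72 hm S S' h)
  rob A η ζ h1 h2 S h := by
    have h3 : ∀ T : Px Q, |wj μ s N Q δ B b0 j (η, A) t T - wm μ s N Q (ζ, A) T| ≤ 3 * B := fun T => by
      have a1 : |lw μ s η N Q T - lw μ s ζ N Q T| ≤ 2 * B := by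
        rw [abs_sub_comm]
        exact Pool.W7d29a1.C0.H7.lw_near7 (by positivity) h1 (fun q => (h2 q).trans hθ) T
      have a2 := abs_uj72 (μ := μ) (s := s) (δ := δ) hB b0 j ht A η T
      rw [wj_eq72]
      have e : lw μ s (η, A).1 N Q T + uj72 μ s Q δ B b0 j t (η, A).2 (η, A).1 T - wm μ s N Q (ζ, A) T =
          (lw μ s η N Q T - lw μ s ζ N Q T) + uj72 μ s Q δ B b0 j t A η T := by
        unfold wm
        ring
      rw [e]
      exact (abs_add_le _ _).trans (by linarith)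
    have e1 : wj μ s N Q δ B b0 j (η, A) t = wm μ s N Q (ζ, A) + fun T => wj μ s N Q δ B b0 j (η, A) t T - wm μ s N Q (ζ, A) T := by
      funext T
      rw [Pi.add_apply]
      ring
    rw [e1] at h
    exact tau_tilt h3 _ _ _ hM h

/-- A near tie at the corner, robust. -/
theorem rb_tauw90 {B : ℝ} {m i k : ℕ} {M M' : ℝ} (hm : c0 + K ≤ m) (hB : 0 ≤ B)
    (hθ : θ ≤ 2 * B / K) (hM : 5 * M + 4 * (3 * B) ≤ 5 * M') :
    Rb72 Q c0 K θ (fun ω S => Tau (wm μ s N Q ω) (pJ 0 m) i k M S)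
      (fun ω S => Tau (wm μ s N Q ω) (pJ 0 m) i k M' S) where
  meas S := meas_tau90 meas_wm m i k M S
  meas' S := meas_tau90 meas_wm m i k M' S
  beh ω S S' h := tau_meas _ _ _ _ _ (crs_pB72 hm S S' h)
  rob A η ζ h1 h2 S h := by
    have h3 : ∀ T : Px Q, |wm μ s N Q (η, A) T - wm μ s N Q (ζ, A) T| ≤ 3 * B := fun T => by
      have a1 : |lw μ s η N Q T - lw μ s ζ N Q T| ≤ 2 * B := by
        rw [abs_sub_comm]
        exact Pool.W7d29a1.C0.H7.lw_near7 (by positivity) h1 (fun q => (h2 q).trans hθ) T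
      show |lw μ s η N Q T - lw μ s ζ N Q T| ≤ 3 * B
      linarith
    have e1 : wm μ s N Q (η, A) = wm μ s N Q (ζ, A) + fun T => wm μ s N Q (η, A) T - wm μ s N Q (ζ, A) T := by
      funext T
      rw [Pi.add_apply]
      ring
    rw [e1] at h
    exact tau_tilt h3 _ _ _ hM h

variable [IsProbabilityMeasure μ] {ε K' : ℝ} {u : Finset ℕ → Env → Px Q → ℝ} {bp c : ℕ} {D : ℝ} {f : Env × Finset ℕ → Px Q → ℝ}
  {V V' : Env × Finset ℕ → Px Q → ℝ}

/-- **The outer pair with a robust functional, at the corner.** -/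
theorem e0_Pk90 (hE : ∀ A, E0X μ s 2 N Q c0 K (pB (c0 + K)) θ (u A) ε K')
    (hum : ∀ S, Measurable fun ω : Env × Finset ℕ => u ω.2 ω.1 S) (hbp : c0 + K ≤ bp) (hbc : bp ≤ c)
    (hf : Sp72 Q c D c0 K f) (hD : 2 * D ≤ (N : ℝ) ^ K') (hV : RbF Q c0 K θ V V') :
    ∫ ω, Pk (fun S => lw μ s ω.1 N Q S + u ω.2 ω.1 S) (kf bp c (f ω)) (V ω) ∂(Pm μ N) ≤
      (N : ℝ) ^ ε * (∫ ω, Pk (wm μ s N Q ω) (kf bp c (f ω)) (V' ω) ∂(Pm μ N) + (N : ℝ) ^ (-K')) := by
  have mk : ∀ (W : Env × Finset ℕ → Px Q → ℝ), (∀ S, Measurable fun ω => W ω S) → ∀ x : Fin 2 → Px Q,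
      Measurable fun ω => W ω (x 1) * kf bp c (f ω) (x 1) (x 0) := fun W hW x => by
    unfold kf
    exact (hW _).mul (((hf.meas _).sub (hf.meas _)).abs.mul_const _)
  have bk : ∀ (W : Env × Finset ℕ → Px Q → ℝ), (∀ ω S, 0 ≤ W ω S) → (∀ ω S, W ω S ≤ 1) → ∀ ω (x : Fin 2 → Px Q),
      W ω (x 1) * kf bp c (f ω) (x 1) (x 0) ≤ (N : ℝ) ^ K' := fun W W0 W1 ω x => by
    refine le_trans ?_ hD
    calc W ω (x 1) * kf bp c (f ω) (x 1) (x 0) ≤ 1 * (2 * D) :=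
          mul_le_mul (W1 _ _) (kf_le72 (hf.bdd ω) _ _) (kf_nonneg _ _ _ _ _) zero_le_one
      _ = 2 * D := one_mul _
  have h := E0X.pm hE (fun A S => meas_fix (hum S) A) (marg_P2 (Q := Q)) (sat_P2 _) MeasurableSet.univ
    (Ψ := fun ω x => V ω (x 1) * kf bp c (f ω) (x 1) (x 0)) (Ψ' := fun ω x => V' ω (x 1) * kf bp c (f ω) (x 1) (x 0))
    (fun ω x => mul_nonneg (hV.nn _ _) (kf_nonneg _ _ _ _ _)) (bk V hV.nn hV.le1)
    (fun ω x => mul_nonneg (hV.nn' _ _) (kf_nonneg _ _ _ _ _)) (bk V' hV.nn' hV.le1')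
    (fun x A => meas_fix (mk V hV.ms x) A) (fun x A => meas_fix (mk V' hV.ms' x) A)
    (fun ω x x' h => by
      have hp : ∀ i k, c0 + K ≤ k → ps (x i) k = ps (x' i) k := fun i k hk => ps_of_pB72 (h i) hk
      show V ω (x 1) * kf bp c (f ω) (x 1) (x 0) = V ω (x' 1) * kf bp c (f ω) (x' 1) (x' 0)
      unfold kf
      rw [hV.beh ω _ _ (h 1), NI_congr (m := bp) (u := c) (S := x 1) (S' := x 0)
        (fun k hk _ => hp 1 k (by omega)) (fun k hk _ => hp 0 k (by omega)),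
        hf.rk ω (x 1) (x' 1) (fun k hk => hp 1 k (by omega)), hf.rk ω (x 0) (x' 0) (fun k hk => hp 0 k (by omega))])
    (fun A η _ ζ hζ hθ x => by
      show V (η, A) (x 1) * kf bp c (f (η, A)) (x 1) (x 0) ≤ V' (ζ, A) (x 1) * kf bp c (f (ζ, A)) (x 1) (x 0)
      rw [← hf.blind A η ζ hζ]
      exact mul_le_mul_of_nonneg_right (hV.rob A η ζ hζ hθ _) (kf_nonneg _ _ _ _ _))
  rw [Set.compl_univ, measure_empty, ENNReal.toReal_zero, mul_zero, add_zero] at h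
  have e1 : ∀ (w : Px Q → ℝ) (W F : Px Q → ℝ), ev (P2 Q) w (fun x => W (x 1) * kf bp c F (x 1) (x 0)) = Pk w (kf bp c F) W :=
    fun w W F => ev_P2 w fun S S' => W S * kf bp c F S S'
  simp only [e1] at h
  exact h

theorem int_Pk90 {w : Env × Finset ℕ → Px Q → ℝ} (hw : Measurable w) {φ : Env × Finset ℕ → Px Q → ℝ}
    (mφ : ∀ S, Measurable fun ω => φ ω S) (h0 : ∀ ω S, 0 ≤ φ ω S) {a : ℝ} (h1 : ∀ ω S, φ ω S ≤ a)
    (mf : ∀ S, Measurable fun ω => f ω S) (bf : ∀ ω S, |f ω S| ≤ D) (bp c : ℕ) :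
    Integrable (fun ω => Pk (w ω) (kf bp c (f ω)) (φ ω)) (Pm μ N) := by
  refine int_bdd (M := a * (2 * D)) (meas_Pk72 hw mφ mf bp c) fun ω => abs_PP_bd72 _ fun x z => ?_
  rw [abs_mul, abs_of_nonneg (h0 _ _), abs_of_nonneg (kf_nonneg _ _ _ _ _)]
  exact mul_le_mul (h1 _ _) (kf_le72 (bf ω) _ _) (kf_nonneg _ _ _ _ _) ((h0 ω x).trans (h1 ω x))

end Two

/-! ### The rare part and the micro term of the first order -/

section Rare

variable {Q : Finset (Finset ℕ)} [SwQ Q] [Nonempty (Px Q)] {δ δ₁ B R e0 M t : ℝ} {b j m : ℕ}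

theorem Pk_le_gm90 (w : Px Q → ℝ) {φ f : Px Q → ℝ} (h0 : ∀ S, 0 ≤ φ S) {D : ℝ} (hf : ∀ S, |f S| ≤ D) (bp c : ℕ) :
    Pk w (kf bp c f) φ ≤ 2 * D * gm w φ := by
  have h1 : Pk w (kf bp c f) φ ≤ PP w fun S _ => 2 * D * φ S := PP_mono72 w fun S S' => by
    rw [mul_comm (2 * D)]
    exact mul_le_mul_of_nonneg_left (kf_le72 hf _ _) (h0 S)
  refine h1.trans (le_of_eq ?_)
  rw [← gm_gm_eq_PP]
  have e : (fun S => gm w fun _ : Px Q => 2 * D * φ S) = fun S => 2 * D * φ S := funext fun S => gm_const _ _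
  rw [e]
  exact gm_smul w (2 * D) φ

open Classical in
theorem gm_NCn90 (w : Px Q → ℝ) : gm w (fun S => if NCn μ s δ₁ w (pJ 0 m) b j t S then (1 : ℝ) else 0) ≤
    Real.exp t * gm w (nC μ s δ₁ Q b j) := by
  have h9 : gm w (Real.exp t • cE w (pJ 0 m) (nC μ s δ₁ Q b j)) = Real.exp t * gm w (nC μ s δ₁ Q b j) := by
    rw [gm_smul, gm_cE]
  rw [← h9]
  refine gm_mono _ fun S => ?_
  rw [Pi.smul_apply, smul_eq_mul]
  have h10 : 0 ≤ cE w (pJ 0 m) (nC μ s δ₁ Q b j) S := cE_nonneg _ _ (nC_nonneg δ₁ b j) S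
  by_cases h11 : NCn μ s δ₁ w (pJ 0 m) b j t S
  · rw [if_pos h11]
    have h12 : Real.exp t * Real.exp (-t) = 1 := by rw [← Real.exp_add, add_neg_cancel, Real.exp_zero]
    rw [← h12]
    exact mul_le_mul_of_nonneg_left h11 (Real.exp_pos _).le
  · rw [if_neg h11]
    exact mul_nonneg (Real.exp_pos _).le h10

variable [IsProbabilityMeasure μ]

open Classical in
/-- **The rare part of the micro event**, told from one path. -/
theorem bad_Pk90 {D : ℝ} {bp c : ℕ} {f V : Env × Finset ℕ → Px Q → ℝ}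
    (mf : ∀ S, Measurable fun ω => f ω S) (bf : ∀ ω S, |f ω S| ≤ D)
    (V0 : ∀ ω S, 0 ≤ V ω S) (V1 : ∀ ω S, V ω S ≤ 1) (mV : ∀ S, Measurable fun ω => V ω S) :
    ∫ ω, Pk (wm μ s N Q ω) (kf bp c (f ω)) (fun S => ind72 (BadT μ s N Q δ δ₁ B R e0 b j m M t) ω S * V ω S) ∂(Pm μ N) ≤
      ∫ ω, Pk (wm μ s N Q ω) (kf bp c (f ω))
        (fun S => ind72 (fun ω => TauM (wm μ s N Q ω) (pJ 0 m) b j M) ω S * V ω S) ∂(Pm μ N) +
      2 * D * rare50 μ s N Q δ δ₁ B R e0 b j t := by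
  obtain ⟨S0⟩ := (inferInstance : Nonempty (Px Q))
  have hD0 : 0 ≤ D := (abs_nonneg _).trans (bf (fun _ => 0, ∅) S0)
  set T1 : Env × Finset ℕ → Px Q → Prop := fun ω => TauM (wm μ s N Q ω) (pJ 0 m) b j M with hT1
  set T2 : Env × Finset ℕ → Px Q → Prop := fun ω => NCn μ s δ₁ (wm μ s N Q ω) (pJ 0 m) b j t with hT2
  set T0 : Env × Finset ℕ → Px Q → Prop := BadT μ s N Q δ δ₁ B R e0 b j m M t with hT0
  set i3 : Env → ℝ := fun η => if GW1 μ s N Q δ δ₁ B R e0 b j η then 0 else 1 with hi3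
  have i30 : ∀ η, 0 ≤ i3 η := fun η => by
    simp only [hi3]
    split_ifs <;> norm_num
  have i31 : ∀ η, i3 η ≤ 1 := fun η => by
    simp only [hi3]
    split_ifs <;> norm_num
  have hmi : Measurable i3 := Measurable.ite (meas_GW1 δ δ₁ B R e0 b j) measurable_const measurable_const
  have hmT1 : ∀ S, MeasurableSet {ω | T1 ω S} := fun S => meas_tauM _ _ _ _ S
  have hmT2 : ∀ S, MeasurableSet {ω | T2 ω S} := fun S => meas_NCn _ _ _ _ _ S
  have hmT0 : ∀ S, MeasurableSet {ω | T0 ω S} := fun S => meas_bad _ _ _ _ _ _ _ _ _ _ S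
  have hind : ∀ ω S, ind72 T0 ω S ≤ ind72 T1 ω S + (ind72 T2 ω S + i3 ω.1) := fun ω S => by
    have a1 := ind72_nonneg T1 ω S
    have a2 := ind72_nonneg T2 ω S
    have a3 := i30 ω.1
    by_cases h0 : T0 ω S
    · have e0 : ind72 T0 ω S = 1 := if_pos h0
      rw [e0]
      rcases h0 with h1 | h1 | h1
      · have e1 : ind72 T1 ω S = 1 := if_pos h1
        linarith
      · have e1 : ind72 T2 ω S = 1 := if_pos h1
        linarith
      · have e1 : i3 ω.1 = 1 := if_neg h1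
        linarith
    · have e0 : ind72 T0 ω S = 0 := if_neg h0
      rw [e0]
      linarith
  have hpt : ∀ ω, Pk (wm μ s N Q ω) (kf bp c (f ω)) (fun S => ind72 T0 ω S * V ω S) ≤
      Pk (wm μ s N Q ω) (kf bp c (f ω)) (fun S => ind72 T1 ω S * V ω S) +
        (2 * D * (Real.exp t * gm (wm μ s N Q ω) (nC μ s δ₁ Q b j)) + 2 * D * i3 ω.1) := fun ω => by
    have h1 : Pk (wm μ s N Q ω) (kf bp c (f ω)) (fun S => ind72 T0 ω S * V ω S) ≤
        Pk (wm μ s N Q ω) (kf bp c (f ω)) fun S => ind72 T1 ω S * V ω S + (ind72 T2 ω S + i3 ω.1) := by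
      refine Pk_mono (kf_nonneg bp c (f ω)) fun S => ?_
      have h2 := mul_le_mul_of_nonneg_right (hind ω S) (V0 ω S)
      have h3 : (ind72 T2 ω S + i3 ω.1) * V ω S ≤ (ind72 T2 ω S + i3 ω.1) * 1 :=
        mul_le_mul_of_nonneg_left (V1 ω S) (add_nonneg (ind72_nonneg _ _ _) (i30 _))
      rw [add_mul] at h2
      linarith
    rw [Pk_add] at h1
    have h4 := Pk_le_gm90 (wm μ s N Q ω) (φ := fun S => ind72 T2 ω S + i3 ω.1)
      (fun S => add_nonneg (ind72_nonneg _ _ _) (i30 _)) (bf ω) bp c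
    have h5 : gm (wm μ s N Q ω) (fun S => ind72 T2 ω S + i3 ω.1) = gm (wm μ s N Q ω) (ind72 T2 ω) + i3 ω.1 := by
      have e := gm_add (wm μ s N Q ω) (ind72 T2 ω) fun _ => i3 ω.1
      rw [gm_const] at e
      exact e
    have h6 : gm (wm μ s N Q ω) (ind72 T2 ω) ≤ Real.exp t * gm (wm μ s N Q ω) (nC μ s δ₁ Q b j) := by
      have := gm_NCn90 (μ := μ) (s := s) (δ₁ := δ₁) (b := b) (j := j) (m := m) (t := t) (wm μ s N Q ω)
      exact this
    rw [h5] at h4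
    have h7 := mul_le_mul_of_nonneg_left h6 (by positivity : 0 ≤ 2 * D)
    rw [mul_add] at h4
    linarith
  have hintC : Integrable (fun ω : Env × Finset ℕ => gm (wm μ s N Q ω) (nC μ s δ₁ Q b j)) (Pm μ N) :=
    int_bdd (M := 1) (meas_gm meas_wm fun S => measurable_const) fun ω => by
      rw [abs_of_nonneg (gm_nonneg _ (nC_nonneg δ₁ b j))]
      exact (gm_mono _ (g := fun _ => 1) (nC_le_one δ₁ b j)).trans (gm_const _ _).le
  have hinti : Integrable (fun ω : Env × Finset ℕ => i3 ω.1) (Pm μ N) :=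
    int_bdd (M := 1) (hmi.comp measurable_fst) fun ω => by
      rw [abs_of_nonneg (i30 _)]
      exact i31 _
  have hI0 : ∀ T : Env × Finset ℕ → Px Q → Prop, (∀ S, MeasurableSet {ω | T ω S}) →
      Integrable (fun ω => Pk (wm μ s N Q ω) (kf bp c (f ω)) (fun S => ind72 T ω S * V ω S)) (Pm μ N) := fun T hT =>
    int_Pk90 (measurable_pi_lambda _ fun S => meas_wm S) (fun S => (meas_ind72 hT S).mul (mV S))
      (fun ω S => mul_nonneg (ind72_nonneg _ _ _) (V0 _ _)) (a := 1)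
      (fun ω S => mul_le_one₀ (ind72_le_one _ _ _) (V0 _ _) (V1 _ _)) mf bf bp c
  have hI := integral_mono (hI0 T0 hmT0)
    ((hI0 T1 hmT1).add (((hintC.const_mul (Real.exp t)).const_mul (2 * D)).add (hinti.const_mul (2 * D)))) hpt
  refine hI.trans (le_of_eq ?_)
  have e1 := integral_add (hI0 T1 hmT1)
    (((hintC.const_mul (Real.exp t)).const_mul (2 * D)).add (hinti.const_mul (2 * D)))
  have e2 := integral_add ((hintC.const_mul (Real.exp t)).const_mul (2 * D)) (hinti.const_mul (2 * D))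
  simp only [Pi.add_apply] at e1 ⊢
  rw [e1, e2, integral_const_mul, integral_const_mul, integral_const_mul,
    int_fst (Φ := i3) hmi (M := 1) (fun η => by rw [abs_of_nonneg (i30 _)]; exact i31 _)]
  have e3 : ∫ η, i3 η ∂(law μ) = (law μ {η | ¬ GW1 μ s N Q δ δ₁ B R e0 b j η}).toReal := by
    have e4 : i3 = Set.indicator {η | ¬ GW1 μ s N Q δ δ₁ B R e0 b j η} 1 := by
      funext η
      simp only [hi3, Set.indicator, Set.mem_ofPred_eq, Pi.one_apply]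
      by_cases h1 : GW1 μ s N Q δ δ₁ B R e0 b j η <;> simp [h1]
    have hms : MeasurableSet {η | ¬ GW1 μ s N Q δ δ₁ B R e0 b j η} := (meas_GW1 δ δ₁ B R e0 b j).compl
    rw [e4, integral_indicator_one hms]
    rfl
  rw [e3]
  unfold rare50
  ring

/-- **THE MICRO TERM OF THE FIRST ORDER FOR EVERY ENVIRONMENT.** -/
theorem mic_fst90 {ω : Env × Finset ℕ} {A : Px Q → ℝ} {Du : ℝ} (hA : ∀ S, |A S| ≤ Du) (hB : 0 ≤ B) (hR : 0 ≤ R) (he : 0 ≤ e0)
    (hm : j + b ≤ m) (S : Px Q) :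
    cE (wm μ s N Q ω + A) (pJ 0 m) (fun T => |gj μ s ω.1 δ B b j (sg ω.2 j) T -
        cE (wm μ s N Q ω + A) (pJ 0 m) (gj μ s ω.1 δ B b j (sg ω.2 j)) T|) S ≤
      B * ind72 (BadT μ s N Q δ δ₁ B R e0 b j m M t) ω S +
        Real.exp (4 * Du) * (R * (2 * Real.exp (-(5 * M))) + e0 + 2 * B * Real.exp (-t)) := by
  set G : Px Q → ℝ := gj μ s ω.1 δ B b j (sg ω.2 j) with hG
  set W : Px Q → ℝ := wm μ s N Q ω + A with hW
  set γ : Px Q → ℝ := fun T => if 0 ≤ G T - cE W (pJ 0 m) G T then 1 else -1 with hγ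
  have hγ1 : ∀ T, |γ T| ≤ 1 := fun T => by
    simp only [hγ]
    split_ifs <;> norm_num
  have h1 := EvT50.mic_ev (μ := μ) (s := s) (N := N) (δ := δ) (δ₁ := δ₁) (M := M) (t := t) (ω := ω) hA hB hR he hm hγ1 S
  have e : cC W (pJ 0 m) G γ = cE W (pJ 0 m) (fun T => |G T - cE W (pJ 0 m) G T|) := by
    rw [cC_symm, Pool.W7d29a1.C0.R90.cC_centred1]
    congr 1
    funext T
    rw [Pi.mul_apply, Pi.sub_apply]
    simp only [hγ]
    split_ifs with h
    · rw [abs_of_nonneg h, one_mul]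
    · rw [abs_of_neg (not_le.1 h)]
      ring
  rw [← hG, ← hW, e, one_mul, one_mul] at h1
  exact (le_abs_self _).trans h1

end Rare

/-! ### The shape of the group bound -/

section Shape

variable [IsProbabilityMeasure μ] {y bp zt c : ℕ} {U f : Fam N} {a D : ℝ}

/-- The outer pair with a functional of one path, in the shape of the group bound. -/
theorem Pk_rw90 (hy : y ≤ N) [Nonempty (Px (Pn N y))] (hz : bp ≤ zt) (U0 : ∀ ω x, 0 ≤ U y ω x) (U1 : ∀ ω x, U y ω x ≤ a)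
    (mU : ∀ S, Measurable fun ω => U y ω S) (mf : ∀ S, Measurable fun ω => f y ω S) (bf : ∀ ω S, |f y ω S| ≤ D) :
    ∫ ω, Pk (wm μ s N (Pn N y) ω) (kf bp c (f y ω)) (U y ω) ∂(Pm μ N) ≤ 1 / 2 * T93.rw2 μ s N (NN72 N zt c) U f y := by
  unfold T93.rw2
  rw [← integral_const_mul]
  refine integral_mono (int_Pk90 (measurable_pi_lambda _ fun S => meas_wm S) mU U0 U1 mf bf bp c)
    ((T0E90.int_rw90 hy zt c U0 U1 mU mf bf).const_mul _) fun ω => ?_
  exact PP_one72 _ (fun S => U0 ω S) hz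

end Shape

end

end Pool.Agent.W_7d29a1_C0.T0F90
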