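import Pool.Agent.W_7d29a1_C0.T0E90

/-!
CURV0 (MP_7d29a1_pr), leaf (T), `T_0L` (helper33): THE PRICES OF THE FAMILIES OF THE OWN BLOCK, part 1. `IG_taus`: a product of near ties
`tauI` under the mean over one path is replaced by the products of the pieces `rpI`; `pr_taus`: the outer tie and `k` near ties with
windows from right to left cost `(3 q) ^ k (pc tr ∏ pc (t a) + er + exp (-M))`. `Blk33`: the geometry of the rows of one block. `tot0`,
`totM`: the totals for the own pairs `U0F` and for the micro ties `UMF` of `T0E90`.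
-/

set_option autoImplicit false
set_option linter.unusedSectionVars false
set_option linter.unusedVariables false

namespace Pool.Agent.W_7d29a1_C0.T0P33

open MeasureTheory ProbabilityTheory Filter Topology Finset
open Pool.Agent.W_7d29a1_F Pool.Agent.W_7d29a1_X
open Pool.Agent.W_7d29a1_C0 Pool.Agent.W_7d29a1_C0.Mod92
open Pool.Agent.W_7d29a1_C0.T93
open Pool.Agent.W_7d29a1_C0.T72 (NN72)
open Pool.Agent.W_7d29a1_C0.T0E90
open Pool.W7d29a1.C0 (gz gm gz_pos gm_mono gm_add gm_smul gm_const gm_nonneg PP PP_eq)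
open Pool.W7d29a1.C0.VT31 (Mp cE fz fz_pos cE_mono cE_nonneg cE_one gm_eq_cE cE_add gv)
open Pool.W7d29a1.C0.R43 (Tau Rp mI mI_nonneg st tau_rp swP_pJ MxQ)
open Pool.Agent.W_7d29a1_C0.Swap57 (NI NI_nonneg cE2 cE2_mono)

noncomputable section

variable {μ : Measure ℝ} {s : ℝ} {N y : ℕ} {ε θ κ c' : ℝ}

/-! ### Near ties -/

theorem tauI_mono (hy : y ≤ N) (w : Px (Pn N y) → ℝ) {m i L i' L' : ℕ} (hi : i ≤ i') (hL : L' ≤ L) (M : ℝ) (x : Px (Pn N y)) :
    tauI w m i L M x ≤ tauI w m i' L' M x := by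
  have := ne_Pn (N := N) (y := y) hy
  unfold tauI
  by_cases h : Tau w (pJ 0 m) i L M x
  · have h' : Tau w (pJ 0 m) i' L' M x := le_trans h (cE2_mono w _ (fun z z' => NI_mono93 hi hL z z') x x)
    rw [if_pos h, if_pos h']
  · rw [if_neg h]
    split_ifs <;> norm_num

theorem b_tau (m i L : ℕ) (M : ℝ) : B01 N y fun ω x => tauI (wm μ s N (Pn N y) ω) m i L M x :=
  ⟨fun _ _ => tauI_nonneg _ _ _ _ _ _, fun _ _ => tauI_le_one _ _ _ _ _ _, fun _ => meas_tauI _ _ _ _ _⟩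

theorem b_rp (m u v : ℕ) (M : ℝ) : B01 N y fun ω x => rpI (wm μ s N (Pn N y) ω) m u v M x :=
  ⟨fun _ _ => rpI_nonneg _ _ _ _ _ _, fun _ _ => rpI_le_one _ _ _ _ _ _, fun _ => meas_rpI _ _ _ _ _⟩

theorem b_ow (hy : y ≤ N) (u v z : ℕ) : B01 N y fun ω x => ow (wm μ s N (Pn N y) ω) u v z x :=
  ⟨fun _ _ => ow_nonneg hy _ _ _ _ _, fun _ _ => ow_le_one hy _ _ _ _ _, fun _ => meas_ow _ _ _ _⟩

theorem b_prod {k : ℕ} {H : Fin k → Env × Finset ℕ → Px (Pn N y) → ℝ} (h : ∀ a, B01 N y (H a)) :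
    B01 N y fun ω x => ∏ a, H a ω x :=
  ⟨fun ω x => prod_nonneg fun a _ => (h a).nn ω x, fun ω x => prod_le_one (fun a _ => (h a).nn ω x) fun a _ => (h a).le1 ω x,
    fun x => Finset.measurable_fun_prod _ fun a _ => (h a).ms x⟩

section Prob

variable [IsProbabilityMeasure μ]

theorem IG_le (hy : y ≤ N) {F G : Env × Finset ℕ → Px (Pn N y) → ℝ} (hF : B01 N y F) (hG : B01 N y G) (h : ∀ ω x, F ω x ≤ G ω x) :
    IG μ s N y F ≤ IG μ s N y G :=
  IG_mono (B := 1) hy hF.nn hG.ms (fun ω x => by rw [abs_of_nonneg (hG.nn ω x)]; exact hG.le1 ω x) h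

/-- **From a product of near ties to the pieces.** -/
theorem IG_taus (hy : y ≤ N) {q : ℕ} {M : ℝ} (hM : 8 ≤ M) (hq : 10 * M ≤ q) (hq' : (q : ℝ) ≤ 20 * M) : ∀ (k : ℕ)
    (F : Env × Finset ℕ → Px (Pn N y) → ℝ), B01 N y F → ∀ (m i L l : Fin k → ℕ), (∀ a, i a + 3 * q * (l a + 1) ≤ L a) → ∀ C : ℝ,
    (∀ n : Fin k → ℕ, (∀ a, n a < 3 * q) → IG μ s N y (fun ω x => F ω x *
      ∏ a, rpI (wm μ s N (Pn N y) ω) (m a) (st (i a) (l a) (n a)) (st (i a) (l a) (n a) + l a) M x) ≤ C) →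
    IG μ s N y (fun ω x => F ω x * ∏ a, tauI (wm μ s N (Pn N y) ω) (m a) (i a) (L a) M x) + Real.exp (-M) ≤
      (3 * q) ^ k * (C + Real.exp (-M)) := by
  intro k
  induction k with
  | zero =>
    intro F hF m i L l _ C h
    have h1 := h (fun a => a.elim0) fun a => a.elim0
    simp only [Finset.univ_eq_empty, Finset.prod_empty] at h1 ⊢
    rw [pow_zero, one_mul]
    linarith
  | succ k ih =>
    intro F hF m i L l hfit C h
    have hT : B01 N y fun ω x => ∏ a : Fin k, tauI (wm μ s N (Pn N y) ω) (m a.succ) (i a.succ) (L a.succ) M x :=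
      b_prod fun a => b_tau _ _ _ _
    have hFT := hF.mul hT
    have e0 := Real.exp_pos (-M)
    have hq2 : (2 : ℝ) ≤ 3 * q := by nlinarith
    have step : ∀ n0 < 3 * q, IG μ s N y (fun ω x => (F ω x *
        ∏ a : Fin k, tauI (wm μ s N (Pn N y) ω) (m a.succ) (i a.succ) (L a.succ) M x) *
        rpI (wm μ s N (Pn N y) ω) (m 0) (st (i 0) (l 0) n0) (st (i 0) (l 0) n0 + l 0) M x) ≤
        (3 * q) ^ k * (C + Real.exp (-M)) - Real.exp (-M) := by
      intro n0 hn0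
      have h1 := ih (fun ω x => F ω x * rpI (wm μ s N (Pn N y) ω) (m 0) (st (i 0) (l 0) n0) (st (i 0) (l 0) n0 + l 0) M x)
        (hF.mul (b_rp _ _ _ _)) (fun a => m a.succ) (fun a => i a.succ) (fun a => L a.succ) (fun a => l a.succ)
        (fun a => hfit a.succ) C (fun n hn => by
          have h2 := h (Fin.cons n0 n) fun a => by
            refine Fin.cases ?_ (fun a => ?_) a
            · rw [Fin.cons_zero]
              exact hn0
            · rw [Fin.cons_succ]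
              exact hn a
          simp only [Fin.prod_univ_succ, Fin.cons_zero, Fin.cons_succ] at h2
          refine le_trans (le_of_eq (IG_congr fun ω x => ?_)) h2
          ring)
      have e1 : IG μ s N y (fun ω x => (F ω x *
          ∏ a : Fin k, tauI (wm μ s N (Pn N y) ω) (m a.succ) (i a.succ) (L a.succ) M x) *
          rpI (wm μ s N (Pn N y) ω) (m 0) (st (i 0) (l 0) n0) (st (i 0) (l 0) n0 + l 0) M x) =
          IG μ s N y (fun ω x => (F ω x * rpI (wm μ s N (Pn N y) ω) (m 0) (st (i 0) (l 0) n0) (st (i 0) (l 0) n0 + l 0) M x) *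
            ∏ a : Fin k, tauI (wm μ s N (Pn N y) ω) (m a.succ) (i a.succ) (L a.succ) M x) := IG_congr fun ω x => by ring
      rw [e1]
      linarith
    have h3 := int_tau (μ := μ) (s := s) hy hM hq hq' (hfit 0) hFT.nn hFT.le1 hFT.ms step
    have e2 : IG μ s N y (fun ω x => F ω x * ∏ a, tauI (wm μ s N (Pn N y) ω) (m a) (i a) (L a) M x) =
        ∫ ω, gm (wm μ s N (Pn N y) ω) (fun x => (F ω x *
          ∏ a : Fin k, tauI (wm μ s N (Pn N y) ω) (m a.succ) (i a.succ) (L a.succ) M x) *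
          tauI (wm μ s N (Pn N y) ω) (m 0) (i 0) (L 0) M x) ∂(Pm μ N) := by
      show IG μ s N y _ = IG μ s N y _
      refine IG_congr fun ω x => ?_
      rw [Fin.prod_univ_succ]
      ring
    rw [e2]
    have e3 : (3 * (q : ℝ)) ^ (k + 1) = 3 * q * (3 * q) ^ k := by ring
    rw [e3]
    nlinarith

/-- A near tie with its pieces: scale `t`, told behind `m`, pairs apart on `[i, L]`. -/
structure Win (N : ℕ) (θ : ℝ) (q zt t m i L : ℕ) : Prop where
  t0 : (N : ℝ) ^ θ ≤ t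
  t1 : t ≤ N
  fit : i + 3 * q * (t / 4 + 1) ≤ L
  Lm : L ≤ m
  mz : m ≤ zt

/-- The outer tie. -/
structure Out (N : ℕ) (θ : ℝ) (zt c tr : ℕ) : Prop where
  t0 : (N : ℝ) ^ θ ≤ tr
  t1 : tr ≤ N
  zc : zt + 1 + tr / 4 ≤ c
  cN : c ≤ N

variable {q zt c tr : ℕ} {M : ℝ}

/-- The numbers of the pieces. -/
structure Nq (N : ℕ) (κ : ℝ) (q : ℕ) (M : ℝ) : Prop where
  M8 : 8 ≤ M
  q0 : 10 * M ≤ q
  q1 : (q : ℝ) ≤ 20 * M
  Mk : 7 * M ≤ (N : ℝ) ^ κ

/-- **The outer tie and `k` near ties, from right to left.** -/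
theorem pr_taus {k : ℕ} (hP : PrN μ s N y ε θ κ c' (k + 1)) (hy : y ≤ N) (hn : Nq N κ q M) (ho : Out N θ zt c tr)
    (t m i L : Fin k → ℕ) (hw : ∀ a, Win N θ q zt (t a) (m a) (i a) (L a)) (hlt : ∀ a a', a < a' → m a' < i a) :
    IG μ s N y (fun ω x => ow (wm μ s N (Pn N y) ω) zt c N x * ∏ a, tauI (wm μ s N (Pn N y) ω) (m a) (i a) (L a) M x) ≤
      (3 * q) ^ k * (pc μ s N ε tr * ∏ a, pc μ s N ε (t a) + er N c' + Real.exp (-M)) := by
  have h1 := IG_taus (μ := μ) (s := s) hy hn.M8 hn.q0 hn.q1 k (fun ω x => ow (wm μ s N (Pn N y) ω) zt c N x) (b_ow hy _ _ _)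
    m i L (fun a => t a / 4) (fun a => (hw a).fit) (pc μ s N ε tr * ∏ a, pc μ s N ε (t a) + er N c') fun n hn' => by
      have hst : ∀ a, i a ≤ st (i a) (t a / 4) (n a) ∧ st (i a) (t a / 4) (n a) + t a / 4 ≤ L a := fun a => by
        have h1 := (hw a).fit
        have h2 := hn' a
        have h3 : (n a + 1) * (t a / 4 + 1) ≤ 3 * q * (t a / 4 + 1) := Nat.mul_le_mul_right _ h2
        unfold st
        constructor
        · omega
        · rw [Nat.add_mul, one_mul] at h3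
          omega
      have h := hP (Fin.cons tr t) (Fin.cons (zt + 1) fun a => st (i a) (t a / 4) (n a))
        (Fin.cons c fun a => st (i a) (t a / 4) (n a) + t a / 4) (Fin.cons N m) (Fin.cons N m)
        (Fin.cons (fun ω x => ow (wm μ s N (Pn N y) ω) zt c N x) fun a ω x =>
          rpI (wm μ s N (Pn N y) ω) (m a) (st (i a) (t a / 4) (n a)) (st (i a) (t a / 4) (n a) + t a / 4) M x)
        (fun a => by
          refine Fin.cases ?_ (fun a => ?_) a
          · simp only [Fin.cons_zero]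
            exact ⟨⟨ho.t0, ho.t1⟩, ho.zc, ho.cN, le_rfl, le_rfl⟩
          · simp only [Fin.cons_succ]
            have h1 := (hst a).2
            have h2 := (hw a).Lm
            have h3 := (hw a).mz
            have h4 := ho.zc
            have h5 := ho.cN
            exact ⟨⟨(hw a).t0, (hw a).t1⟩, by omega, by omega, le_rfl, by omega⟩)
        (fun a a' haa => by
          revert haa
          refine Fin.cases ?_ (fun a => ?_) a
          · refine Fin.cases (fun haa => absurd haa (lt_irrefl _)) (fun a' haa => ?_) a'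
            simp only [Fin.cons_zero, Fin.cons_succ]
            exact Nat.lt_succ_of_le (hw a').mz
          · refine Fin.cases (fun haa => absurd haa (Fin.not_lt_zero _)) (fun a' haa => ?_) a'
            simp only [Fin.cons_succ]
            exact lt_of_lt_of_le (hlt a a' (Fin.succ_lt_succ_iff.1 haa)) (hst a).1)
        (fun a => by
          refine Fin.cases ?_ (fun a => ?_) a
          · simp only [Fin.cons_zero]
            exact wt_out hy ho.cN
          · simp only [Fin.cons_succ]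
            exact wt_rp hy ((hst a).2.trans (hw a).Lm) hn.Mk)
      simp only [Fin.prod_univ_succ, Fin.cons_zero, Fin.cons_succ] at h
      exact h
  have := Real.exp_pos (-M)
  linarith

/-! ### One to four near ties -/

theorem pT1 (hP : PrN μ s N y ε θ κ c' 2) (hy : y ≤ N) (hn : Nq N κ q M) (ho : Out N θ zt c tr) {t1 m1 i1 L1 : ℕ}
    (w1 : Win N θ q zt t1 m1 i1 L1) :
    IG μ s N y (fun ω x => ow (wm μ s N (Pn N y) ω) zt c N x * tauI (wm μ s N (Pn N y) ω) m1 i1 L1 M x) ≤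
      (3 * q) ^ 1 * (pc μ s N ε tr * pc μ s N ε t1 + er N c' + Real.exp (-M)) := by
  have h := pr_taus (μ := μ) (s := s) (k := 1) hP hy hn ho ![t1] ![m1] ![i1] ![L1] (by intro a; fin_cases a; exact w1)
    (by intro a a' h; fin_cases a; fin_cases a'; exact absurd h (by decide))
  simp only [Fin.prod_univ_one] at h
  exact h

theorem pT2 (hP : PrN μ s N y ε θ κ c' 3) (hy : y ≤ N) (hn : Nq N κ q M) (ho : Out N θ zt c tr) {t1 m1 i1 L1 t2 m2 i2 L2 : ℕ}
    (w1 : Win N θ q zt t1 m1 i1 L1) (w2 : Win N θ q zt t2 m2 i2 L2) (o1 : m2 < i1) :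
    IG μ s N y (fun ω x => ow (wm μ s N (Pn N y) ω) zt c N x * (tauI (wm μ s N (Pn N y) ω) m1 i1 L1 M x *
      tauI (wm μ s N (Pn N y) ω) m2 i2 L2 M x)) ≤
      (3 * q) ^ 2 * (pc μ s N ε tr * (pc μ s N ε t1 * pc μ s N ε t2) + er N c' + Real.exp (-M)) := by
  have h := pr_taus (μ := μ) (s := s) (k := 2) hP hy hn ho ![t1, t2] ![m1, m2] ![i1, i2] ![L1, L2]
    (by intro a; fin_cases a <;> assumption) (by
      intro a a' h
      fin_cases a <;> fin_cases a' <;> first | exact absurd h (by decide) | exact o1)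
  simp only [Fin.prod_univ_two] at h
  exact h

theorem pT3 (hP : PrN μ s N y ε θ κ c' 4) (hy : y ≤ N) (hn : Nq N κ q M) (ho : Out N θ zt c tr)
    {t1 m1 i1 L1 t2 m2 i2 L2 t3 m3 i3 L3 : ℕ} (w1 : Win N θ q zt t1 m1 i1 L1) (w2 : Win N θ q zt t2 m2 i2 L2)
    (w3 : Win N θ q zt t3 m3 i3 L3) (o1 : m2 < i1) (o2 : m3 < i2) :
    IG μ s N y (fun ω x => ow (wm μ s N (Pn N y) ω) zt c N x * (tauI (wm μ s N (Pn N y) ω) m1 i1 L1 M x *
      tauI (wm μ s N (Pn N y) ω) m2 i2 L2 M x * tauI (wm μ s N (Pn N y) ω) m3 i3 L3 M x)) ≤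
      (3 * q) ^ 3 * (pc μ s N ε tr * (pc μ s N ε t1 * pc μ s N ε t2 * pc μ s N ε t3) + er N c' + Real.exp (-M)) := by
  have a2 := w2.fit
  have a3 := w2.Lm
  have o3 : m3 < i1 := by omega
  have h := pr_taus (μ := μ) (s := s) (k := 3) hP hy hn ho ![t1, t2, t3] ![m1, m2, m3] ![i1, i2, i3] ![L1, L2, L3]
    (by intro a; fin_cases a <;> assumption) (by
      intro a a' h
      fin_cases a <;> fin_cases a' <;> first | exact absurd h (by decide) | exact o1 | exact o2 | exact o3)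
  simp only [Fin.prod_univ_three] at h
  exact h

theorem pT4 (hP : PrN μ s N y ε θ κ c' 5) (hy : y ≤ N) (hn : Nq N κ q M) (ho : Out N θ zt c tr)
    {t1 m1 i1 L1 t2 m2 i2 L2 t3 m3 i3 L3 t4 m4 i4 L4 : ℕ} (w1 : Win N θ q zt t1 m1 i1 L1) (w2 : Win N θ q zt t2 m2 i2 L2)
    (w3 : Win N θ q zt t3 m3 i3 L3) (w4 : Win N θ q zt t4 m4 i4 L4) (o1 : m2 < i1) (o2 : m3 < i2) (o3 : m4 < i3) :
    IG μ s N y (fun ω x => ow (wm μ s N (Pn N y) ω) zt c N x * (tauI (wm μ s N (Pn N y) ω) m1 i1 L1 M x *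
      tauI (wm μ s N (Pn N y) ω) m2 i2 L2 M x * tauI (wm μ s N (Pn N y) ω) m3 i3 L3 M x *
      tauI (wm μ s N (Pn N y) ω) m4 i4 L4 M x)) ≤
      (3 * q) ^ 4 * (pc μ s N ε tr * (pc μ s N ε t1 * pc μ s N ε t2 * pc μ s N ε t3 * pc μ s N ε t4) + er N c' +
        Real.exp (-M)) := by
  have a2 := w2.fit
  have a3 := w2.Lm
  have a4 := w3.fit
  have a5 := w3.Lm
  have r1 : m3 < i1 := by omega
  have r2 : m4 < i1 := by omega
  have r3 : m4 < i2 := by omega
  have h := pr_taus (μ := μ) (s := s) (k := 4) hP hy hn ho ![t1, t2, t3, t4] ![m1, m2, m3, m4] ![i1, i2, i3, i4]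
    ![L1, L2, L3, L4] (by intro a; fin_cases a <;> assumption) (by
      intro a a' h
      fin_cases a <;> fin_cases a' <;> first
        | exact absurd h (by decide)
        | exact o1
        | exact o2
        | exact o3
        | exact r1
        | exact r2
        | exact r3)
  simp only [Fin.prod_univ_four] at h
  exact h

/-! ### Weighted sums -/

/-- The mean of a weighted sum. -/
theorem IG_wsum (hy : y ≤ N) {ι : Type*} (I : Finset ι) (a : ι → ℝ) {G : ι → Env × Finset ℕ → Px (Pn N y) → ℝ}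
    (hG : ∀ i ∈ I, B01 N y (G i)) :
    IG μ s N y (fun ω x => ∑ i ∈ I, a i * G i ω x) = ∑ i ∈ I, a i * IG μ s N y (G i) := by
  have := ne_Pn (N := N) (y := y) hy
  have e1 : ∀ ω, gm (wm μ s N (Pn N y) ω) (fun x => ∑ i ∈ I, a i * G i ω x) =
      ∑ i ∈ I, a i * gm (wm μ s N (Pn N y) ω) (G i ω) := by
    intro ω
    rw [gm_sum93]
    refine sum_congr rfl fun i _ => ?_
    have := gm_smul (wm μ s N (Pn N y) ω) (a i) (G i ω)
    exact this
  unfold IG
  simp only [e1]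
  have hb : ∀ i ∈ I, ∀ ω x, |G i ω x| ≤ 1 := fun i hi ω x => by
    rw [abs_of_nonneg ((hG i hi).nn ω x)]
    exact (hG i hi).le1 ω x
  rw [integral_finsetSum _ fun i hi => (int_gm93 hy (hG i hi).ms (hb i hi)).const_mul _]
  exact sum_congr rfl fun i _ => integral_const_mul _ _

/-- **Bounded by a weighted sum.** -/
theorem IG_wle (hy : y ≤ N) {ι : Type*} (I : Finset ι) {a C : ι → ℝ} {F : Env × Finset ℕ → Px (Pn N y) → ℝ}
    {G : ι → Env × Finset ℕ → Px (Pn N y) → ℝ} (F0 : ∀ ω x, 0 ≤ F ω x) (a0 : ∀ i ∈ I, 0 ≤ a i) (hG : ∀ i ∈ I, B01 N y (G i))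
    (h : ∀ i ∈ I, IG μ s N y (G i) ≤ C i) (hF : ∀ ω x, F ω x ≤ ∑ i ∈ I, a i * G i ω x) :
    IG μ s N y F ≤ ∑ i ∈ I, a i * C i := by
  refine (IG_mono (B := ∑ i ∈ I, a i) hy F0 (fun x => Finset.measurable_fun_sum _ fun i hi => ((hG i hi).ms x).const_mul _)
    (fun ω x => ?_) hF).trans ?_
  · rw [abs_of_nonneg (sum_nonneg fun i hi => mul_nonneg (a0 i hi) ((hG i hi).nn ω x))]
    exact sum_le_sum fun i hi => mul_le_of_le_one_right (a0 i hi) ((hG i hi).le1 ω x)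
  · rw [IG_wsum hy I a hG]
    exact sum_le_sum fun i hi => mul_le_mul_of_nonneg_left (h i hi) (a0 i hi)

/-- The same, without weights, a common bound. -/
theorem IG_nle (hy : y ≤ N) {ι : Type*} (I : Finset ι) {C : ℝ} {F : Env × Finset ℕ → Px (Pn N y) → ℝ}
    {G : ι → Env × Finset ℕ → Px (Pn N y) → ℝ} (F0 : ∀ ω x, 0 ≤ F ω x) (hG : ∀ i ∈ I, B01 N y (G i))
    (h : ∀ i ∈ I, IG μ s N y (G i) ≤ C) (hF : ∀ ω x, F ω x ≤ ∑ i ∈ I, G i ω x) : IG μ s N y F ≤ I.card * C := by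
  have h1 := IG_wle (μ := μ) (s := s) hy I (a := fun _ => 1) (C := fun _ => C) F0 (fun _ _ => zero_le_one) hG h fun ω x =>
    (hF ω x).trans (le_of_eq (sum_congr rfl fun i _ => (one_mul _).symm))
  rw [sum_const, nsmul_eq_mul, one_mul] at h1
  exact h1

end Prob

/-! ### The geometry -/

/-- The rows `S` of one block, the grid `σ`, the scales `ts` (of the own pairs) and `tb` (of the micro ties). -/
structure Blk33 (N : ℕ) (θ : ℝ) (q : ℕ) (S : Finset ℕ) (b b0 σ zt ts tb : ℕ) : Prop where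
  hσ : 0 < σ
  ts0 : (N : ℝ) ^ θ ≤ ts
  ts1 : ts ≤ N
  tb0 : (N : ℝ) ^ θ ≤ tb
  tb1 : tb ≤ N
  f0 : 3 * q * (tb / 4 + 1) ≤ b0
  f1 : 3 * q * (tb / 4 + 1) + 1 ≤ b
  b0b : b0 ≤ b
  lo : ∀ j ∈ S, j / σ * σ + 1 + 3 * q * (ts / 4 + 1) + b ≤ j
  hi : ∀ j ∈ S, j + 4 * b ≤ (j / σ + 1) * σ
  zz : ∀ j ∈ S, (j / σ + 1) * σ ≤ zt

section Geo

variable {q b b0 σ zt ts tb : ℕ} {S : Finset ℕ}

theorem Blk33.wS (g : Blk33 N θ q S b b0 σ zt ts tb) {k : ℕ} (hk : k ∈ S) :
    Win N θ q zt ts (bpB σ k) (bmB σ k + 1) (k - b) := by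
  have h1 := g.lo k hk
  have h2 := g.hi k hk
  have h3 := g.zz k hk
  unfold bpB bmB
  exact ⟨g.ts0, g.ts1, by omega, by omega, h3⟩

theorem Blk33.wA (g : Blk33 N θ q S b b0 σ zt ts tb) {k m : ℕ} (hk : k ∈ S) (h1 : k ≤ m) (h2 : m ≤ zt) :
    Win N θ q zt ts m (bmB σ k + 1) (k - b) := by
  have h1 := g.lo k hk
  unfold bmB
  exact ⟨g.ts0, g.ts1, by omega, by omega, h2⟩

theorem Blk33.wO (g : Blk33 N θ q S b b0 σ zt ts tb) {k : ℕ} (hk : k ∈ S) :
    Win N θ q zt tb (bpB σ k) (k + 3 * b + 1) (k + 4 * b) := by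
  have h2 := g.hi k hk
  have h3 := g.zz k hk
  have h4 := g.f1
  unfold bpB
  exact ⟨g.tb0, g.tb1, by omega, h2, h3⟩

/-- The half windows of a row. -/
def hw33 (b0 : ℕ) (a : Bool) (j : ℕ) : ℕ × ℕ := if a then (j - b0, j) else (j, j + b0)

theorem Blk33.wM (g : Blk33 N θ q S b b0 σ zt ts tb) {k m : ℕ} (hk : k ∈ S) (h1 : k + b ≤ m) (h2 : m ≤ zt) (a : Bool) :
    Win N θ q zt tb m (hw33 b0 a k).1 (hw33 b0 a k).2 := by
  have h3 := g.f0
  have h4 := g.b0b
  have h5 := g.lo k hk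
  unfold hw33
  cases a
  · exact ⟨g.tb0, g.tb1, by show k + _ ≤ k + b0; omega, by show k + b0 ≤ m; omega, h2⟩
  · exact ⟨g.tb0, g.tb1, by show k - b0 + _ ≤ k; omega, by show k ≤ m; omega, h2⟩

theorem Blk33.hw (g : Blk33 N θ q S b b0 σ zt ts tb) {k : ℕ} (hk : k ∈ S) (a : Bool) :
    k / σ * σ < (hw33 b0 a k).1 ∧ k - b ≤ (hw33 b0 a k).1 := by
  have h4 := g.b0b
  have h5 := g.lo k hk
  unfold hw33
  cases a
  · show k / σ * σ < k ∧ k - b ≤ k
    omega
  · show k / σ * σ < k - b0 ∧ k - b ≤ k - b0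
    omega

/-- The blocks of the grid. -/
theorem Blk33.blk (hσ : 0 < σ) {j k : ℕ} (h : j / σ < k / σ) : bpB σ j ≤ bmB σ k := Nat.mul_le_mul_right _ h

theorem blk_of_dist (hσ : 0 < σ) {j k : ℕ} (h : j + σ ≤ k) : j / σ < k / σ := by
  have h1 : (j + σ) / σ ≤ k / σ := Nat.div_le_div_right h
  rw [Nat.add_div_right _ hσ] at h1
  omega

theorem dist_of_blk (hσ : 0 < σ) {j k : ℕ} (h : j / σ = k / σ) (hjk : j ≤ k) : k - j < σ := by
  by_contra hc
  have := blk_of_dist hσ (j := j) (k := k) (by omega)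
  omega

end Geo

/-! ### The own pairs -/

/-- The error. -/
def ee (N : ℕ) (c' M : ℝ) : ℝ := er N c' + Real.exp (-M)

theorem ee_nonneg (N : ℕ) (c' M : ℝ) : 0 ≤ ee N c' M := add_nonneg (er_nonneg _ _) (Real.exp_pos _).le

section Own

variable [IsProbabilityMeasure μ] {q b b0 σ zt c tr ts tb : ℕ} {S ys : Finset ℕ} {M : ℝ}

theorem q_one (hn : Nq N κ q M) : (1 : ℝ) ≤ 3 * q := by
  have h1 := hn.M8
  have h2 := hn.q0
  linarith

/-- The price of two rows, own pairs. -/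
def ph0 (μ : Measure ℝ) (s : ℝ) (N : ℕ) (ε c' M : ℝ) (q tr ts σ D : ℕ) : ℝ :=
  (3 * q) ^ 2 * ((if D < σ then pc μ s N ε tr * pc μ s N ε ts else pc μ s N ε tr * (pc μ s N ε ts * pc μ s N ε ts)) + ee N c' M)

theorem ph0_nonneg (q tr ts σ D : ℕ) : 0 ≤ ph0 μ s N ε c' M q tr ts σ D := by
  have h1 := pc_nonneg (μ := μ) (s := s) N ε tr
  have h2 := pc_nonneg (μ := μ) (s := s) N ε ts
  have h3 := ee_nonneg N c' M
  unfold ph0
  split_ifs <;> positivity

theorem pr0 (hP : ∀ k ≤ 5, PrN μ s N y ε θ κ c' k) (hy : y ≤ N) (hn : Nq N κ q M) (ho : Out N θ zt c tr)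
    (g : Blk33 N θ q S b b0 σ zt ts tb) {j k : ℕ} (hj : j ∈ S) (hk : k ∈ S) (hjk : j ≤ k) :
    pr2 μ s N (NN72 N zt c) (U0F μ s N σ b M j) (U0F μ s N σ b M k) y ≤ ph0 μ s N ε c' M q tr ts σ (k - j) := by
  rw [pr2_IG hy]
  have bo : B01 N y fun ω x => ow (wm μ s N (Pn N y) ω) zt c N x := b_ow hy _ _ _
  have m1 : ∀ (i : ℕ) ω (x : Px (Pn N y)), U0F μ s N σ b M i y ω x ≤
      tauI (wm μ s N (Pn N y) ω) (bpB σ i) (bmB σ i + 1) (i - b) M x := fun i ω x =>
    tauI_mono hy _ (Nat.le_succ _) le_rfl M x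
  have n1 : ∀ (i : ℕ) ω (x : Px (Pn N y)), 0 ≤ U0F μ s N σ b M i y ω x := fun i ω x => U0F_nonneg _ _ _ _ _ _ _
  have l1 : ∀ (i : ℕ) ω (x : Px (Pn N y)), U0F μ s N σ b M i y ω x ≤ 1 := fun i ω x => U0F_le_one _ _ _ _ _ _ _
  have bj : B01 N y fun ω x => U0F μ s N σ b M j y ω x := ⟨n1 j, l1 j, fun x => meas_U0F _ _ _ _ _ _⟩
  have bk : B01 N y fun ω x => U0F μ s N σ b M k y ω x := ⟨n1 k, l1 k, fun x => meas_U0F _ _ _ _ _ _⟩
  have q1 := q_one hn
  have c1 := pc_nonneg (μ := μ) (s := s) N ε tr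
  have c2 := pc_nonneg (μ := μ) (s := s) N ε ts
  have c3 := ee_nonneg N c' M
  unfold ph0
  split_ifs with hD
  · have h := pT1 (μ := μ) (s := s) (hP 2 (by norm_num)) hy hn ho (g.wS hk)
    have h2 : IG μ s N y (fun ω x => ow (wm μ s N (Pn N y) ω) zt c N x * (U0F μ s N σ b M j y ω x * U0F μ s N σ b M k y ω x)) ≤
        (3 * q) ^ 1 * (pc μ s N ε tr * pc μ s N ε ts + er N c' + Real.exp (-M)) :=
      (IG_le hy (bo.mul (bj.mul bk)) (bo.mul (b_tau _ _ _ _)) fun ω x => mul_le_mul_of_nonneg_left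
        ((mul_le_of_le_one_left (n1 k ω x) (l1 j ω x)).trans (m1 k ω x)) (bo.nn ω x)).trans h
    refine h2.trans ?_
    rw [add_assoc]
    refine mul_le_mul_of_nonneg_right (pow_le_pow_right₀ q1 (by norm_num)) ?_
    exact add_nonneg (mul_nonneg c1 c2) c3
  · have hlt := Blk33.blk g.hσ (blk_of_dist g.hσ (j := j) (k := k) (by omega))
    have h := pT2 (μ := μ) (s := s) (hP 3 (by norm_num)) hy hn ho (g.wS hk) (g.wS hj) (Nat.lt_succ_of_le hlt)
    rw [add_assoc] at h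
    refine (IG_le hy (bo.mul (bj.mul bk)) (bo.mul ((b_tau _ _ _ _).mul (b_tau _ _ _ _))) fun ω x => ?_).trans h
    refine mul_le_mul_of_nonneg_left ?_ (bo.nn ω x)
    rw [mul_comm]
    exact mul_le_mul (m1 k ω x) (m1 j ω x) (n1 j ω x) (tauI_nonneg _ _ _ _ _ _)

/-- The sum over the distances. -/
theorem sum_ph0 (q tr ts σ r : ℕ) : ∑ D ∈ range r, ph0 μ s N ε c' M q tr ts σ D ≤
    σ * ((3 * q) ^ 2 * (pc μ s N ε tr * pc μ s N ε ts)) + r * ((3 * q) ^ 2 * (pc μ s N ε tr * pc μ s N ε ts ^ 2)) +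
      r * ((3 * q) ^ 2 * ee N c' M) := by
  have c1 := pc_nonneg (μ := μ) (s := s) N ε tr
  have c2 := pc_nonneg (μ := μ) (s := s) N ε ts
  have h1 : ∀ D ∈ range r, ph0 μ s N ε c' M q tr ts σ D ≤
      (if D < σ then (3 * q : ℝ) ^ 2 * (pc μ s N ε tr * pc μ s N ε ts) else 0) +
        ((3 * q) ^ 2 * (pc μ s N ε tr * pc μ s N ε ts ^ 2) + (3 * q) ^ 2 * ee N c' M) := fun D _ => by
    unfold ph0
    split_ifs
    · have : 0 ≤ (3 * q : ℝ) ^ 2 * (pc μ s N ε tr * pc μ s N ε ts ^ 2) := by positivity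
      linarith
    · rw [sq (pc μ s N ε ts)]
      linarith
  refine (sum_le_sum h1).trans ?_
  rw [sum_add_distrib, sum_const, card_range, nsmul_eq_mul, ← sum_filter, sum_const, nsmul_eq_mul]
  have h2 : (((range r).filter (· < σ)).card : ℝ) ≤ σ := by
    have : ((range r).filter (· < σ)) ⊆ range σ := fun i hi => mem_range.2 (mem_filter.1 hi).2
    have := card_le_card this
    rw [card_range] at this
    exact_mod_cast this
  have h3 : 0 ≤ (3 * q : ℝ) ^ 2 * (pc μ s N ε tr * pc μ s N ε ts) := by positivity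
  have h4 := mul_le_mul_of_nonneg_right h2 h3
  linarith

/-- **The total of the own pairs.** -/
theorem tot0 (hP : ∀ y ∈ ys, ∀ k ≤ 5, PrN μ s N y ε θ κ c' k) (hys : ∀ y ∈ ys, y ≤ N) (hn : Nq N κ q M) (ho : Out N θ zt c tr)
    (g : Blk33 N θ q S b b0 σ zt ts tb) {c₁ r : ℕ} (hS : ∀ j ∈ S, c₁ ≤ j ∧ j < c₁ + r) :
    ∑ j ∈ S, ∑ k ∈ S, avy ys (pr2 μ s N (NN72 N zt c) (U0F μ s N σ b M j) (U0F μ s N σ b M k)) ≤
      2 * r * (σ * ((3 * q) ^ 2 * (pc μ s N ε tr * pc μ s N ε ts)) + r * ((3 * q) ^ 2 * (pc μ s N ε tr * pc μ s N ε ts ^ 2)) +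
        r * ((3 * q) ^ 2 * ee N c' M)) := by
  have h1 := pr2_all (μ := μ) (s := s) (N := N) (ys := ys) (S := S) (Nn := NN72 N zt c) (U := fun j => U0F μ s N σ b M j)
    (φ := ph0 μ s N ε c' M q tr ts σ) (fun D => ph0_nonneg _ _ _ _ _) fun j hj k hk hjk y hy =>
      pr0 (hP y hy) (hys y hy) hn ho g hj hk hjk
  have h2 := dist_sum_le hS (fun D => ph0_nonneg (μ := μ) (s := s) (N := N) (ε := ε) (c' := c') (M := M) q tr ts σ D) h1
  have h3 : (S.card : ℝ) ≤ r := by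
    have h4 : S ⊆ Ico c₁ (c₁ + r) := fun j hj => mem_Ico.2 (hS j hj)
    have h5 := card_le_card h4
    rw [Nat.card_Ico, Nat.add_sub_cancel_left] at h5
    exact_mod_cast h5
  have h4 : 0 ≤ ∑ D ∈ range r, ph0 μ s N ε c' M q tr ts σ D := sum_nonneg fun D _ => ph0_nonneg _ _ _ _ _
  have h5 := sum_ph0 (μ := μ) (s := s) (N := N) (ε := ε) (c' := c') (M := M) q tr ts σ r
  calc _ ≤ S.card * (2 * ∑ D ∈ range r, ph0 μ s N ε c' M q tr ts σ D) := h2
    _ ≤ r * (2 * ∑ D ∈ range r, ph0 μ s N ε c' M q tr ts σ D) := mul_le_mul_of_nonneg_right h3 (by positivity)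
    _ ≤ r * (2 * _) := mul_le_mul_of_nonneg_left (mul_le_mul_of_nonneg_left h5 (by norm_num)) (Nat.cast_nonneg _)
    _ = _ := by ring

end Own

/-! ### The micro ties -/

section Mic

variable [IsProbabilityMeasure μ] {q b b0 σ zt c tr ts tb : ℕ} {S ys : Finset ℕ} {M : ℝ}

/-- The price of two rows, micro ties. -/
def phM (μ : Measure ℝ) (s : ℝ) (N : ℕ) (ε c' M : ℝ) (q tr tb b σ D : ℕ) : ℝ :=
  (6 * q) ^ 4 * ((if D < 8 * b then pc μ s N ε tr * pc μ s N ε tb ^ 2 else if D < σ then pc μ s N ε tr * pc μ s N ε tb ^ 3 else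
    pc μ s N ε tr * pc μ s N ε tb ^ 4) + ee N c' M)

theorem phM_nonneg (q tr tb b σ D : ℕ) : 0 ≤ phM μ s N ε c' M q tr tb b σ D := by
  have h1 := pc_nonneg (μ := μ) (s := s) N ε tr
  have h2 := pc_nonneg (μ := μ) (s := s) N ε tb
  have h3 := ee_nonneg N c' M
  unfold phM
  split_ifs <;> positivity

/-- The half ties of a row. -/
def hT (μ : Measure ℝ) (s : ℝ) (N b0 : ℕ) (M : ℝ) (m : ℕ) (a : Bool) (j : ℕ) : Fam N := fun y ω x =>
  tauI (wm μ s N (Pn N y) ω) m (hw33 b0 a j).1 (hw33 b0 a j).2 M x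

/-- The second part of the own pair. -/
def oT (μ : Measure ℝ) (s : ℝ) (N σ b : ℕ) (M : ℝ) (j : ℕ) : Fam N := fun y ω x =>
  tauI (wm μ s N (Pn N y) ω) (bpB σ j) (j + 3 * b + 1) (j + 4 * b) M x

theorem UMF_le (hy : y ≤ N) (σ b b0 : ℕ) (M : ℝ) (m j : ℕ) (ω : Env × Finset ℕ) (x : Px (Pn N y)) :
    UMF μ s N σ b b0 M m j y ω x ≤ ∑ a : Bool, hT μ s N b0 M m a j y ω x * oT μ s N σ b M j y ω x := by
  unfold UMF tI hT oT hw33
  rw [Fintype.sum_bool]
  simp only [if_true, Bool.false_eq_true, if_false]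
  rw [← add_mul]
  exact mul_le_mul_of_nonneg_left (tauI_mono hy _ (by omega) le_rfl M x)
    (add_nonneg (tauI_nonneg _ _ _ _ _ _) (tauI_nonneg _ _ _ _ _ _))

theorem b_hT (m : ℕ) (a : Bool) (j : ℕ) : B01 N y (hT μ s N b0 M m a j y) := b_tau _ _ _ _

theorem b_oT (j : ℕ) : B01 N y (oT μ s N σ b M j y) := b_tau _ _ _ _

theorem prM (hP : ∀ k ≤ 5, PrN μ s N y ε θ κ c' k) (hy : y ≤ N) (hn : Nq N κ q M) (ho : Out N θ zt c tr)
    (g : Blk33 N θ q S b b0 σ zt ts tb) {mm : ℕ → ℕ} (hm : ∀ j ∈ S, j + b ≤ mm j ∧ mm j ≤ j + 3 * b) {j k : ℕ} (hj : j ∈ S)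
    (hk : k ∈ S) (hjk : j ≤ k) :
    pr2 μ s N (NN72 N zt c) (UMF μ s N σ b b0 M (mm j) j) (UMF μ s N σ b b0 M (mm k) k) y ≤
      phM μ s N ε c' M q tr tb b σ (k - j) := by
  rw [pr2_IG hy]
  have bo : B01 N y fun ω x => ow (wm μ s N (Pn N y) ω) zt c N x := b_ow hy _ _ _
  have uj : ∀ ω (x : Px (Pn N y)), UMF μ s N σ b b0 M (mm j) j y ω x ≤ ∑ a : Bool, hT μ s N b0 M (mm j) a j y ω x *
    oT μ s N σ b M j y ω x := fun ω x => UMF_le hy _ _ _ _ _ _ _ _
  have uk : ∀ ω (x : Px (Pn N y)), UMF μ s N σ b b0 M (mm k) k y ω x ≤ ∑ a : Bool, hT μ s N b0 M (mm k) a k y ω x *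
    oT μ s N σ b M k y ω x := fun ω x => UMF_le hy _ _ _ _ _ _ _ _
  have nj : ∀ ω (x : Px (Pn N y)), 0 ≤ UMF μ s N σ b b0 M (mm j) j y ω x := fun ω x => UMF_nonneg _ _ _ _ _ _ _ _ _
  have nk : ∀ ω (x : Px (Pn N y)), 0 ≤ UMF μ s N σ b b0 M (mm k) k y ω x := fun ω x => UMF_nonneg _ _ _ _ _ _ _ _ _
  have F0 : ∀ ω (x : Px (Pn N y)), 0 ≤ ow (wm μ s N (Pn N y) ω) zt c N x *
      (UMF μ s N σ b b0 M (mm j) j y ω x * UMF μ s N σ b b0 M (mm k) k y ω x) := fun ω x =>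
    mul_nonneg (bo.nn ω x) (mul_nonneg (nj ω x) (nk ω x))
  have mj := hm j hj
  have mk := hm k hk
  have zj := g.zz j hj
  have zk := g.zz k hk
  have gj := g.hi j hj
  have gk := g.hi k hk
  have lk := g.lo k hk
  have hb := g.f1
  have q1 := q_one hn
  have c1 := pc_nonneg (μ := μ) (s := s) N ε tr
  have c2 := pc_nonneg (μ := μ) (s := s) N ε tb
  have c3 := ee_nonneg N c' M
  have wOk := g.wO hk
  have wOj := g.wO hj
  have wMk := fun a => g.wM hk mk.1 (by omega) a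
  have wMj := fun a => g.wM hj mj.1 (by omega) a
  unfold phM
  -- the expansion into the pairs of halves
  have ex : ∀ ω (x : Px (Pn N y)), UMF μ s N σ b b0 M (mm j) j y ω x * UMF μ s N σ b b0 M (mm k) k y ω x ≤
      ∑ p : Bool × Bool, (oT μ s N σ b M k y ω x * hT μ s N b0 M (mm k) p.2 k y ω x * oT μ s N σ b M j y ω x *
        hT μ s N b0 M (mm j) p.1 j y ω x) := fun ω x => by
    refine (mul_le_mul (uj ω x) (uk ω x) (nk ω x) (sum_nonneg fun a _ => mul_nonneg ((b_hT _ _ _).nn ω x)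
      ((b_oT _).nn ω x))).trans (le_of_eq ?_)
    rw [sum_mul_sum, Fintype.sum_prod_type]
    exact sum_congr rfl fun a _ => sum_congr rfl fun a' _ => by ring
  have ex2 : ∀ (G : Bool × Bool → Env × Finset ℕ → Px (Pn N y) → ℝ) (C : ℝ), (∀ p, B01 N y (G p)) →
      (∀ p, IG μ s N y (G p) ≤ C) → (∀ p ω x, ow (wm μ s N (Pn N y) ω) zt c N x * (oT μ s N σ b M k y ω x *
        hT μ s N b0 M (mm k) p.2 k y ω x * oT μ s N σ b M j y ω x * hT μ s N b0 M (mm j) p.1 j y ω x) ≤ G p ω x) →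
      IG μ s N y (fun ω x => ow (wm μ s N (Pn N y) ω) zt c N x *
        (UMF μ s N σ b b0 M (mm j) j y ω x * UMF μ s N σ b b0 M (mm k) k y ω x)) ≤ 4 * C := fun G C hG hC hle => by
    have h := IG_nle (μ := μ) (s := s) hy (univ : Finset (Bool × Bool)) (C := C) (G := G) F0 (fun p _ => hG p) (fun p _ => hC p)
      fun ω x => by
        refine (mul_le_mul_of_nonneg_left (ex ω x) (bo.nn ω x)).trans ?_
        rw [mul_sum]
        exact sum_le_sum fun p _ => hle p ω x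
    have e4 : ((univ : Finset (Bool × Bool)).card : ℝ) = 4 := by
      rw [card_univ, Fintype.card_prod, Fintype.card_bool]
      norm_num
    rwa [e4] at h
  split_ifs with hD hD'
  · have h := fun p : Bool × Bool => pT2 (μ := μ) (s := s) (hP 3 (by norm_num)) hy hn ho wOk (wMk p.2)
      (show mm k < k + 3 * b + 1 by omega)
    refine (ex2 _ _ (fun p => bo.mul ((b_tau _ _ _ _).mul (b_tau _ _ _ _))) h fun p ω x => ?_).trans ?_
    · refine mul_le_mul_of_nonneg_left ?_ (bo.nn ω x)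
      have h1 := (b_hT (μ := μ) (s := s) (N := N) (y := y) (b0 := b0) (M := M) (mm j) p.1 j).le1 ω x
      have h2 := (b_oT (μ := μ) (s := s) (N := N) (y := y) (b := b) (σ := σ) (M := M) j).le1 ω x
      have h3 := (b_hT (μ := μ) (s := s) (N := N) (y := y) (b0 := b0) (M := M) (mm j) p.1 j).nn ω x
      have h4 := (b_oT (μ := μ) (s := s) (N := N) (y := y) (b := b) (σ := σ) (M := M) j).nn ω x
      have h5 : 0 ≤ oT μ s N σ b M k y ω x * hT μ s N b0 M (mm k) p.2 k y ω x :=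
        mul_nonneg ((b_oT _).nn ω x) ((b_hT _ _ _).nn ω x)
      exact (mul_le_of_le_one_right (mul_nonneg h5 h4) h1).trans (mul_le_of_le_one_right h5 h2)
    · have a1 : (3 * (q : ℝ)) ^ 2 ≤ (3 * q) ^ 4 := pow_le_pow_right₀ q1 (by norm_num)
      have a2 : 0 ≤ pc μ s N ε tr * pc μ s N ε tb ^ 2 + ee N c' M := by positivity
      have a3 := mul_le_mul_of_nonneg_right a1 a2
      unfold ee at *
      nlinarith [mul_nonneg (pow_nonneg (zero_le_one.trans q1) 4) a2]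
  · have h := fun p : Bool × Bool => pT3 (μ := μ) (s := s) (hP 4 (by norm_num)) hy hn ho wOk (wMk p.2) (wMj p.1)
      (show mm k < k + 3 * b + 1 by omega) (by have := (g.hw hk p.2).2; omega)
    refine (ex2 _ _ (fun p => bo.mul (((b_tau _ _ _ _).mul (b_tau _ _ _ _)).mul (b_tau _ _ _ _))) h fun p ω x => ?_).trans ?_
    · refine mul_le_mul_of_nonneg_left ?_ (bo.nn ω x)
      have h2 := (b_oT (μ := μ) (s := s) (N := N) (y := y) (b := b) (σ := σ) (M := M) j).le1 ω x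
      have h3 := (b_hT (μ := μ) (s := s) (N := N) (y := y) (b0 := b0) (M := M) (mm j) p.1 j).nn ω x
      have h5 : 0 ≤ oT μ s N σ b M k y ω x * hT μ s N b0 M (mm k) p.2 k y ω x :=
        mul_nonneg ((b_oT _).nn ω x) ((b_hT _ _ _).nn ω x)
      exact mul_le_mul_of_nonneg_right (mul_le_of_le_one_right h5 h2) h3
    · have a1 : (3 * (q : ℝ)) ^ 3 ≤ (3 * q) ^ 4 := pow_le_pow_right₀ q1 (by norm_num)
      have a2 : 0 ≤ pc μ s N ε tr * pc μ s N ε tb ^ 3 + ee N c' M := by positivity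
      have a3 := mul_le_mul_of_nonneg_right a1 a2
      unfold ee at *
      nlinarith [mul_nonneg (pow_nonneg (zero_le_one.trans q1) 4) a2]
  · have hlt := Blk33.blk g.hσ (blk_of_dist g.hσ (j := j) (k := k) (by omega))
    have h := fun p : Bool × Bool => pT4 (μ := μ) (s := s) (hP 5 le_rfl) hy hn ho wOk (wMk p.2) wOj (wMj p.1)
      (show mm k < k + 3 * b + 1 by omega) (lt_of_le_of_lt hlt (g.hw hk p.2).1) (show mm j < j + 3 * b + 1 by omega)
    refine (ex2 _ _ (fun p => bo.mul ((((b_tau _ _ _ _).mul (b_tau _ _ _ _)).mul (b_tau _ _ _ _)).mul (b_tau _ _ _ _))) h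
      fun p ω x => le_rfl).trans ?_
    have a2 : 0 ≤ pc μ s N ε tr * pc μ s N ε tb ^ 4 + ee N c' M := by positivity
    unfold ee at *
    nlinarith [mul_nonneg (pow_nonneg (zero_le_one.trans q1) 4) a2]

/-- The sum over the distances. -/
theorem sum_phM (q tr tb b σ r : ℕ) : ∑ D ∈ range r, phM μ s N ε c' M q tr tb b σ D ≤
    (6 * q) ^ 4 * (8 * b * (pc μ s N ε tr * pc μ s N ε tb ^ 2) + σ * (pc μ s N ε tr * pc μ s N ε tb ^ 3) +
      r * (pc μ s N ε tr * pc μ s N ε tb ^ 4)) + r * ((6 * q) ^ 4 * ee N c' M) := by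
  have c1 := pc_nonneg (μ := μ) (s := s) N ε tr
  have c2 := pc_nonneg (μ := μ) (s := s) N ε tb
  have p2 : 0 ≤ pc μ s N ε tr * pc μ s N ε tb ^ 2 := by positivity
  have p3 : 0 ≤ pc μ s N ε tr * pc μ s N ε tb ^ 3 := by positivity
  have p4 : 0 ≤ pc μ s N ε tr * pc μ s N ε tb ^ 4 := by positivity
  have h1 : ∀ D ∈ range r, phM μ s N ε c' M q tr tb b σ D ≤ (6 * q) ^ 4 *
      (((if D < 8 * b then pc μ s N ε tr * pc μ s N ε tb ^ 2 else 0) + (if D < σ then pc μ s N ε tr * pc μ s N ε tb ^ 3 else 0)) +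
        (pc μ s N ε tr * pc μ s N ε tb ^ 4 + ee N c' M)) := fun D _ => by
    unfold phM
    refine mul_le_mul_of_nonneg_left ?_ (by positivity)
    split_ifs <;> linarith
  refine (sum_le_sum h1).trans ?_
  rw [← mul_sum, sum_add_distrib, sum_add_distrib, sum_const, card_range, nsmul_eq_mul, ← sum_filter, ← sum_filter, sum_const,
    nsmul_eq_mul, sum_const, nsmul_eq_mul]
  have h2 : (((range r).filter (· < 8 * b)).card : ℝ) ≤ 8 * b := by
    have : ((range r).filter (· < 8 * b)) ⊆ range (8 * b) := fun i hi => mem_range.2 (mem_filter.1 hi).2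
    have := card_le_card this
    rw [card_range] at this
    exact_mod_cast this
  have h3 : (((range r).filter (· < σ)).card : ℝ) ≤ σ := by
    have : ((range r).filter (· < σ)) ⊆ range σ := fun i hi => mem_range.2 (mem_filter.1 hi).2
    have := card_le_card this
    rw [card_range] at this
    exact_mod_cast this
  have h4 := mul_le_mul_of_nonneg_right h2 p2
  have h5 := mul_le_mul_of_nonneg_right h3 p3
  have h6 : 0 ≤ (6 * (q : ℝ)) ^ 4 := by positivity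
  calc _ ≤ (6 * (q : ℝ)) ^ 4 * (8 * b * (pc μ s N ε tr * pc μ s N ε tb ^ 2) + σ * (pc μ s N ε tr * pc μ s N ε tb ^ 3) +
        r * (pc μ s N ε tr * pc μ s N ε tb ^ 4 + ee N c' M)) := mul_le_mul_of_nonneg_left (by linarith) h6
    _ = _ := by ring

/-- **The total of the micro ties.** -/
theorem totM (hP : ∀ y ∈ ys, ∀ k ≤ 5, PrN μ s N y ε θ κ c' k) (hys : ∀ y ∈ ys, y ≤ N) (hn : Nq N κ q M) (ho : Out N θ zt c tr)
    (g : Blk33 N θ q S b b0 σ zt ts tb) {mm : ℕ → ℕ} (hm : ∀ j ∈ S, j + b ≤ mm j ∧ mm j ≤ j + 3 * b) {c₁ r : ℕ}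
    (hS : ∀ j ∈ S, c₁ ≤ j ∧ j < c₁ + r) :
    ∑ j ∈ S, ∑ k ∈ S, avy ys (pr2 μ s N (NN72 N zt c) (UMF μ s N σ b b0 M (mm j) j) (UMF μ s N σ b b0 M (mm k) k)) ≤
      2 * r * ((6 * q) ^ 4 * (8 * b * (pc μ s N ε tr * pc μ s N ε tb ^ 2) + σ * (pc μ s N ε tr * pc μ s N ε tb ^ 3) +
        r * (pc μ s N ε tr * pc μ s N ε tb ^ 4)) + r * ((6 * q) ^ 4 * ee N c' M)) := by
  have h1 := pr2_all (μ := μ) (s := s) (N := N) (ys := ys) (S := S) (Nn := NN72 N zt c)
    (U := fun j => UMF μ s N σ b b0 M (mm j) j) (φ := phM μ s N ε c' M q tr tb b σ) (fun D => phM_nonneg _ _ _ _ _ _)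
    fun j hj k hk hjk y hy => prM (hP y hy) (hys y hy) hn ho g hm hj hk hjk
  have h2 := dist_sum_le hS (fun D => phM_nonneg (μ := μ) (s := s) (N := N) (ε := ε) (c' := c') (M := M) q tr tb b σ D) h1
  have h3 : (S.card : ℝ) ≤ r := by
    have h4 : S ⊆ Ico c₁ (c₁ + r) := fun j hj => mem_Ico.2 (hS j hj)
    have h5 := card_le_card h4
    rw [Nat.card_Ico, Nat.add_sub_cancel_left] at h5
    exact_mod_cast h5
  have h4 : 0 ≤ ∑ D ∈ range r, phM μ s N ε c' M q tr tb b σ D := sum_nonneg fun D _ => phM_nonneg _ _ _ _ _ _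
  have h5 := sum_phM (μ := μ) (s := s) (N := N) (ε := ε) (c' := c') (M := M) q tr tb b σ r
  calc _ ≤ S.card * (2 * ∑ D ∈ range r, phM μ s N ε c' M q tr tb b σ D) := h2
    _ ≤ r * (2 * ∑ D ∈ range r, phM μ s N ε c' M q tr tb b σ D) := mul_le_mul_of_nonneg_right h3 (by positivity)
    _ ≤ r * (2 * _) := mul_le_mul_of_nonneg_left (mul_le_mul_of_nonneg_left h5 (by norm_num)) (Nat.cast_nonneg _)
    _ = _ := by ring

end Mic

end

end Pool.Agent.W_7d29a1_C0.T0P33
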