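import Pool.Agent.W_7d29a1_C0.TNg57
import Pool.Agent.W_7d29a1_C0.T0P33

/-!
MP_7d29a1_pr, [CURV0] (helper57), leaf (T), `T_0L`: GEOMETRY AND WINDOWS OF THE OWN BLOCK AT THE FRAME. `tw57 X q`: the scale of the pieces
of a window of length `X` cut into `3 q` pieces (`win57`); the row `zt57` between the kicked blocks and the end (`en_le57`); the structures
`Blk33`, `Out` of T0P33 (`blk57`, `out57`).
-/

set_option autoImplicit false
set_option linter.unusedVariables false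

namespace Pool.Agent.W_7d29a1_C0.TN57

open Finset Pool.Agent.W_7d29a1_F Pool.Agent.W_7d29a1_X
open Pool.Agent.W_7d29a1_C0.Mod92 Pool.Agent.W_7d29a1_C0 Pool.Agent.W_7d29a1_C0.EstC46 Pool.Agent.W_7d29a1_C0.GeoD36
open Pool.Agent.W_7d29a1_C0.T0P33 (Blk33 Out)

noncomputable section

/-- The scale of the pieces of a window of length `X`, cut into `3 q` pieces. -/
def tw57 (X q : ℕ) : ℕ := 4 * (X / (3 * q) - 1)

theorem tw4_57 (X q : ℕ) : tw57 X q / 4 = X / (3 * q) - 1 := by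
  unfold tw57
  omega

theorem win57 {X q : ℕ} (hq : 2 ≤ q) (hX : 12 * q ≤ X) : 3 * q * (tw57 X q / 4 + 1) ≤ X ∧ tw57 X q ≤ X := by
  have h1 : 4 ≤ X / (3 * q) := (Nat.le_div_iff_mul_le (by omega)).2 (by linarith)
  have h2 : 3 * q * (X / (3 * q)) ≤ X := Nat.mul_div_le X (3 * q)
  have h3 : 3 * q * (tw57 X q / 4 + 1) ≤ X := by
    rw [tw4_57, Nat.sub_add_cancel (by omega)]
    exact h2
  refine ⟨h3, ?_⟩
  have h4 : 3 * 2 * (X / (3 * q)) ≤ 3 * q * (X / (3 * q)) := Nat.mul_le_mul_right _ (by omega)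
  unfold tw57
  omega

/-- The scale is comparable with the length of the place. -/
theorem win_lo57 {X q : ℕ} {n y k T : ℝ} (hn : 1 < n) (hq : 2 ≤ q) (hX : 12 * q ≤ X) (hT : T ≤ n ^ y * X)
    (hk : 3 * q * n ^ y ≤ 2 * n ^ k) : n ^ (-k) * T ≤ tw57 X q := by
  have hn0 : 0 < n := by linarith
  have h1 : 4 ≤ X / (3 * q) := (Nat.le_div_iff_mul_le (by omega)).2 (by linarith)
  have h2 : X < 3 * q * (X / (3 * q) + 1) := Nat.lt_mul_div_succ X (by omega)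
  obtain ⟨t, ht⟩ : ∃ t, t = X / (3 * q) - 1 := ⟨_, rfl⟩
  have h3 : X / (3 * q) + 1 = t + 2 := by omega
  have e : tw57 X q = 4 * t := by
    unfold tw57
    rw [ht]
  rw [h3] at h2
  have h4 : (X : ℝ) < 3 * q * (t + 2) := by exact_mod_cast h2
  have h5 : (12 : ℝ) * q ≤ X := by exact_mod_cast hX
  have h6 : (X : ℝ) ≤ 6 * q * t := by linarith
  rw [e]
  push_cast
  have hq0 : (0 : ℝ) ≤ q := Nat.cast_nonneg _
  have ht0 : (0 : ℝ) ≤ t := Nat.cast_nonneg _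
  have hk1 : n ^ (-k) * n ^ k = 1 := by rw [← Real.rpow_add hn0, neg_add_cancel, Real.rpow_zero]
  calc n ^ (-k) * T ≤ n ^ (-k) * (n ^ y * X) := mul_le_mul_of_nonneg_left hT (by positivity)
    _ ≤ n ^ (-k) * (n ^ y * (6 * q * t)) :=
        mul_le_mul_of_nonneg_left (mul_le_mul_of_nonneg_left h6 (by positivity)) (by positivity)
    _ = 2 * t * (n ^ (-k) * (3 * q * n ^ y)) := by ring
    _ ≤ 2 * t * (n ^ (-k) * (2 * n ^ k)) :=
        mul_le_mul_of_nonneg_left (mul_le_mul_of_nonneg_left hk (by positivity)) (by positivity)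
    _ = 4 * t * (n ^ (-k) * n ^ k) := by ring
    _ = 4 * t := by rw [hk1, mul_one]

/-! ### The row in front of the end -/

/-- The row behind the blocks of the kicked rows. -/
def zt57 (ι : ℝ) (m q i : ℕ) : ℕ := (i + 1) * 2 ^ q - 2 * gl46 ι m q

section geo

variable {ι ρ θ : ℝ} {m q i sg N b b0 tb q0 zt : ℕ} {R S : Finset ℕ}

/-- The own blocks of the kicked rows are in front of `zt57`. -/
theorem en_le57 (hρ : 0 ≤ ρ) (hρd : ρ = ((2 ^ m : ℕ) : ℝ) ^ (-ι)) (hR : R ⊆ Kr (2 ^ m) m ρ) (hqm : q ≤ m) (hgl : 1 ≤ gl46 ι m q)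
    (hs : 2 ^ sg ≤ gl46 ι m q) {j : ℕ} (hj : j ∈ R) (h1 : i * 2 ^ q ≤ j) (h2 : j < (i + 1) * 2 ^ q) : en sg j ≤ zt57 ι m q i := by
  have h3 := deepR hρ (hR hj) hqm
  have hq0 : 0 < 2 ^ q := by positivity
  have h4 : j / 2 ^ q = i := by
    refine Nat.div_eq_of_lt_le h1 ?_
    exact h2
  have h5 : en q j = (i + 1) * 2 ^ q := by
    unfold en
    rw [h4]
  have h6 : en sg j ≤ j + 2 ^ sg := by
    have := en_eq sg j
    have := st_le sg j
    omega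
  have h7 : 8 * gl46 ι m q ≤ 4 * xx ρ q + 4 := by
    have h8 : (gl46 ι m q : ℝ) ≤ ρ * 2 ^ q / 8 := by
      unfold gl46
      rw [hρd]
      exact Nat.floor_le (by positivity)
    have h9 := lt_xx ρ q
    have h10 : (8 : ℝ) * gl46 ι m q ≤ 4 * xx ρ q + 4 := by linarith
    exact_mod_cast h10
  rw [h5] at h3
  unfold zt57
  omega

/-- **The structure `Blk33` at the frame.** -/
theorem blk57 (hρ : 0 ≤ ρ) (hR : R ⊆ Kr (2 ^ m) m ρ) (hS : ∀ j ∈ S, j ∈ R) (hsg : sg ≤ m) (hq : 2 ≤ q0) (hX : 12 * q0 ≤ xx ρ sg)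
    (hb : b + 1 ≤ xx ρ sg) (hb0 : b0 < b) (tb0 : (N : ℝ) ^ θ ≤ tb) (tb1 : tb ≤ N) (f0 : 3 * q0 * (tb / 4 + 1) ≤ b0)
    (ts0 : (N : ℝ) ^ θ ≤ tw57 (xx ρ sg) q0) (ts1 : xx ρ sg ≤ N) (hz : ∀ j ∈ S, en sg j ≤ zt) :
    Blk33 N θ q0 S b b0 (2 ^ sg) zt (tw57 (xx ρ sg) q0) tb where
  hσ := by positivity
  ts0 := ts0
  ts1 := (win57 hq hX).2.trans ts1
  tb0 := tb0
  tb1 := tb1
  f0 := f0
  f1 := by omega
  b0b := hb0.le
  lo j hj := by
    have h1 : st sg j + 4 * xx ρ sg ≤ j + 1 := deepL hρ (hR (hS j hj)) hsg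
    have h2 := (win57 hq hX).1
    unfold st at h1
    omega
  hi j hj := by
    have h1 : j + 4 * xx ρ sg ≤ en sg j := deepR hρ (hR (hS j hj)) hsg
    unfold en at h1
    omega
  zz j hj := hz j hj

/-- **The structure `Out` at the frame.** -/
theorem out57 (hgl : 1 ≤ gl46 ι m q) (hgl8 : 8 * gl46 ι m q ≤ (i + 1) * 2 ^ q) (hN : (i + 1) * 2 ^ q ≤ N)
    (tr0 : (N : ℝ) ^ θ ≤ gl46 ι m q) : Out N θ (zt57 ι m q i) ((i + 1) * 2 ^ q) (4 * gl46 ι m q) where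
  t0 := tr0.trans (by exact_mod_cast (show gl46 ι m q ≤ 4 * gl46 ι m q by omega))
  t1 := by omega
  zc := by
    unfold zt57
    omega
  cN := hN

/-- The scales of the loops between two rows of one own block. -/
def tD57 (q0 D : ℕ) : ℕ := tw57 (D / 4) q0

theorem tD57_le {D : ℕ} (hq : 2 ≤ q0) (hD : 48 * q0 ≤ D) : 3 * q0 * (tD57 q0 D / 4 + 1) ≤ D / 4 ∧ tD57 q0 D ≤ D := by
  have h1 := win57 hq (show 12 * q0 ≤ D / 4 by omega)
  unfold tD57
  exact ⟨h1.1, h1.2.trans (Nat.div_le_self _ _)⟩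

theorem tD57_lo {n y k : ℝ} {D : ℕ} (hn : 1 < n) (hq : 2 ≤ q0) (hD : 48 * q0 ≤ D) (hy : 8 ≤ n ^ y)
    (hk : 3 * q0 * n ^ y ≤ 2 * n ^ k) : n ^ (-k) * D ≤ tD57 q0 D := by
  refine win_lo57 hn hq (by omega) ?_ hk
  have h1 : D < 4 * (D / 4 + 1) := Nat.lt_mul_div_succ D (by norm_num)
  have h2 : (D : ℝ) < 4 * (((D / 4 : ℕ) : ℝ) + 1) := by exact_mod_cast h1
  have h3 : (1 : ℝ) ≤ ((D / 4 : ℕ) : ℝ) := by
    have : 1 ≤ D / 4 := by omega
    exact_mod_cast this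
  have h4 := mul_le_mul_of_nonneg_right hy (show (0 : ℝ) ≤ ((D / 4 : ℕ) : ℝ) by positivity)
  linarith

end geo

end

end Pool.Agent.W_7d29a1_C0.TN57
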