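import Pool.Agent.W_7d29a1_C0.T0F90
import Pool.Agent.W_7d29a1_C0.EvX50

/-!
CURV0 (MP_7d29a1_pr), leaf (T), `T_0L` (helper90): THE TERM OF THE OWN BLOCK, ONE ROW, AT ONE ENVIRONMENT AND IN THE MEAN. `td90`: the
data of `T0_rem` at the weights of a kicked row; `ti_split90`: the box part and the remainder; `pas90`: the passage of the masses to the
corner; `rem90`: the remainder at the corner.
-/

set_option autoImplicit false
set_option linter.unusedSectionVars false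
set_option linter.unusedVariables false

namespace Pool.Agent.W_7d29a1_C0.T0G90

open Finset MeasureTheory
open Pool.Agent.W_7d29a1_C0 Pool.Agent.W_7d29a1_C0.Mod92 Pool.Agent.W_7d29a1_C0.Swap57 Pool.Agent.W_7d29a1_C0.NM82
open Pool.Agent.W_7d29a1_C0.CutT57 Pool.Agent.W_7d29a1_C0.T72
open Pool.Agent.W_7d29a1_C0.E1M82 (rk_cls)
open Pool.Agent.W_7d29a1_C0.CrA44 (ge)
open Pool.Agent.W_7d29a1_F Pool.Agent.W_7d29a1_X
open Pool.W7d29a1.C0 Pool.W7d29a1.C0.VT31 Pool.W7d29a1.C0.T72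
open Pool.W7d29a1.C0.H7 (E0X)
open Pool.W7d29a1.C0.H27 (pB slb)
open Pool.W7d29a1.C0.R43 (mI mI_nonneg cE2_mI Tau tau_meas)
open Pool.W7d29a1.C0.R90 (Pk kf kf_nonneg kf_mp Pk_mono Pk_smul Pk_add Pk_nonneg ii ii_nonneg ii_le_one ii_of ii_not TD T0_rem CC
  crs_B told)
open Pool.Agent.W_7d29a1_C0.EvT50 (TauM NCn GW1 nC nC_nonneg nC_le_one bG bG_nonneg bG_le_one meas_bG int_bG micV_ev rb_tau meas_tauM
  meas_NCn meas_GW1 int_fst)
open Pool.Agent.W_7d29a1_C0.T0F90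
open Pool.Agent.W_7d29a1_C0.T93 (rw2 pr2 tauI)
open Pool.Agent.W_7d29a1_C0.T0E90 (tI tI_nonneg tI_le_one meas_tI)

noncomputable section

variable {μ : Measure ℝ} {s : ℝ} {N : ℕ}

/-! ### The data of the remainder -/

section Data

variable {Q : Finset (Finset ℕ)} [SwQ Q] [Nonempty (Px Q)]

theorem ii_ind90 (T : Env × Finset ℕ → Px Q → Prop) (ω : Env × Finset ℕ) (S : Px Q) : ii (T ω) S = ind72 T ω S := by
  by_cases h : T ω S
  · rw [ii_of h]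
    exact (if_pos h).symm
  · rw [ii_not h]
    exact (if_neg h).symm

theorem cE2_tau90 {Y : Type*} [DecidableEq Y] (w : Px Q → ℝ) (p : Px Q → Y) (i k : ℕ) (M0 : ℝ) (S : Px Q) :
    cE2 w p (NI i k) S S ≤ ii (Tau w p i k M0) S + Real.exp (-(5 * M0)) := by
  by_cases h : Tau w p i k M0 S
  · rw [ii_of h]
    linarith [cE2_le_one w p (K := NI i k) (fun z z' => NI_le_one _ _ _ _) S S, Real.exp_pos (-(5 * M0))]
  · rw [ii_not h, zero_add]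
    exact (not_le.1 h).le

/-- The weights of a kicked row behind the window. -/
theorem Wk_wj90 (δ B : ℝ) {b0 b j : ℕ} (hb : b0 ≤ b) (ω : Env × Finset ℕ) (t : ℝ) (h d : ℕ) :
    Wk (j + b) h h d (wj μ s N Q δ B b0 j ω t) := by
  have hm : Mp (pJ (Q := Q) (j + b) d) (gg μ s Q δ B b0 ω j) := fun x x' hx =>
    Lk_gg (Q := Q) δ B b0 j ω (le_refl (j - b0)) (le_refl (j + b0)) x x' fun i _ hi' => ps_of_le hx (hi'.trans (by omega))
  exact (Wk_lw ω.1 le_rfl).add ((Mp.Wk le_rfl hm).smul _)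

/-- The second error. -/
def e2F (B R e0 M0 tt : ℝ) : ℝ := Real.exp (4 * B) * (R * (2 * Real.exp (-(5 * M0))) + e0) + 2 * B * Real.exp (-tt)

theorem e2F_nonneg {B R e0 M0 tt : ℝ} (hB : 0 ≤ B) (hR : 0 ≤ R) (he : 0 ≤ e0) : 0 ≤ e2F B R e0 M0 tt := by
  unfold e2F
  positivity

/-- The event of the micro term of the row `j` at the weights of the kicked row, seen from behind the row `m`. -/
def BadW (μ : Measure ℝ) (s : ℝ) (N : ℕ) (Q : Finset (Finset ℕ)) (δ δ₁ B R e0 : ℝ) (b0 j : ℕ) (t : ℝ) (m : ℕ) (M tt : ℝ)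
    (ω : Env × Finset ℕ) (S : Px Q) : Prop :=
  TauM (wm μ s N Q ω) (pJ 0 m) b0 j M S ∨ NCn μ s δ₁ (wj μ s N Q δ B b0 j ω t) (pJ 0 m) b0 j tt S ∨
    ¬ GW1 μ s N Q δ δ₁ B R e0 b0 j ω.1

theorem meas_NCw {w : Env × Finset ℕ → Px Q → ℝ} (hw : ∀ S, Measurable fun ω => w ω S) (δ₁ : ℝ) (m b j : ℕ) (tt : ℝ) (S : Px Q) :
    MeasurableSet {ω | NCn μ s δ₁ (w ω) (pJ (Q := Q) 0 m) b j tt S} := by
  show MeasurableSet {ω : Env × Finset ℕ | Real.exp (-tt) ≤ cE (w ω) (pJ 0 m) (nC μ s δ₁ Q b j) S}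
  exact measurableSet_le measurable_const (meas_cE hw (f := fun _ => nC μ s δ₁ Q b j) (fun _ => measurable_const) (pJ 0 m) S)

theorem meas_BadW (δ δ₁ B R e0 : ℝ) (b0 j : ℕ) (t : ℝ) (m : ℕ) (M tt : ℝ) (S : Px Q) :
    MeasurableSet {ω | BadW μ s N Q δ δ₁ B R e0 b0 j t m M tt ω S} :=
  (meas_tauM (pJ 0 m) b0 j M S).union ((meas_NCw (fun T => (measurable_pi_apply T).comp (meas_wj72 δ B b0 j t)) δ₁ m b0 j tt S).union
    ((meas_GW1 δ δ₁ B R e0 b0 j).preimage measurable_fst).compl)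

/-- **THE MICRO TERM OF THE FIRST ORDER AT THE WEIGHTS OF THE KICKED ROW.** -/
theorem micW90 {δ δ₁ B R e0 M tt t : ℝ} {b0 j m : ℕ} (hB : 0 ≤ B) (hR : 0 ≤ R) (he : 0 ≤ e0) (ht : |t| ≤ 1) (hm : j + b0 ≤ m)
    (ω : Env × Finset ℕ) (S : Px Q) :
    cE (wj μ s N Q δ B b0 j ω t) (pJ 0 m) (fun T => |gg μ s Q δ B b0 ω j T -
        cE (wj μ s N Q δ B b0 j ω t) (pJ 0 m) (gg μ s Q δ B b0 ω j) T|) S ≤
      B * ind72 (BadW μ s N Q δ δ₁ B R e0 b0 j t m M tt) ω S + e2F B R e0 M tt := by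
  obtain ⟨G, hG⟩ : ∃ G : Px Q → ℝ, G = gg μ s Q δ B b0 ω j := ⟨_, rfl⟩
  obtain ⟨W, hW⟩ : ∃ W : Px Q → ℝ, W = wj μ s N Q δ B b0 j ω t := ⟨_, rfl⟩
  have eW : W = wm μ s N Q ω + fun S => uj72 μ s Q δ B b0 j t ω.2 ω.1 S := by
    rw [hW, wj_eq72]
    rfl
  have e0n := e2F_nonneg (M0 := M) (tt := tt) hB hR he
  rw [← hG, ← hW]
  by_cases hbad : BadW μ s N Q δ δ₁ B R e0 b0 j t m M tt ω S
  · have e1 : ind72 (BadW μ s N Q δ δ₁ B R e0 b0 j t m M tt) ω S = 1 := if_pos hbad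
    rw [e1, mul_one]
    have h1 : ∀ T, |G T - cE W (pJ 0 m) G T| ≤ B := fun T => by
      have a1 : |G T| ≤ B / 2 := by rw [hG]; exact abs_gg hB b0 ω j T
      have a2 : |cE W (pJ 0 m) G T| ≤ B / 2 := by rw [hG]; exact abs_cE_le_X _ _ (fun x => abs_gg hB b0 ω j x) T
      exact (abs_sub _ _).trans (by linarith)
    have h2 := cE_mono W (pJ 0 m) (g := fun _ => B) h1 S
    have h3 : cE W (pJ (Q := Q) 0 m) (fun _ => B) S = B := by
      have hh : Mp (pJ (Q := Q) 0 m) (fun _ : Px Q => B) := fun _ _ _ => rfl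
      exact congrFun (cE_of_meas W hh) S
    linarith
  · have e1 : ind72 (BadW μ s N Q δ δ₁ B R e0 b0 j t m M tt) ω S = 0 := if_neg hbad
    rw [e1, mul_zero, zero_add]
    unfold BadW at hbad
    push Not at hbad
    obtain ⟨n1, n2, n3⟩ := hbad
    obtain ⟨γ, hγ⟩ : ∃ γ : Px Q → ℝ, γ = fun T => if 0 ≤ G T - cE W (pJ 0 m) G T then 1 else -1 := ⟨_, rfl⟩
    have hγ1 : ∀ T, |γ T| ≤ 1 := fun T => by
      simp only [hγ]
      split_ifs <;> norm_num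
    have h1 := micV_ev (μ := μ) (s := s) (N := N) (Q := Q) (δ := δ) (δ₁ := δ₁) (B := B) (R := R) (e0 := e0) (M := M) (b := b0)
      (j := j) (m := m) (ω := ω) (A := fun S => uj72 μ s Q δ B b0 j t ω.2 ω.1 S) (D := B)
      (fun S => abs_uj72 hB b0 j ht ω.2 ω.1 S) hB hR he hm hγ1 S
    rw [← eW, ← hG] at h1
    have e : cC W (pJ 0 m) G γ = cE W (pJ 0 m) (fun T => |G T - cE W (pJ 0 m) G T|) := by
      rw [cC_symm, Pool.W7d29a1.C0.R90.cC_centred1]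
      congr 1
      funext T
      rw [Pi.mul_apply, Pi.sub_apply]
      simp only [hγ]
      split_ifs with h
      · rw [abs_of_nonneg h, one_mul]
      · rw [abs_of_neg (not_le.1 h)]
        ring
    have e2 : ind72 (fun ω => TauM (wm μ s N Q ω) (pJ 0 m) b0 j M) ω S = 0 := if_neg n1
    have e3 : bG μ s N Q δ δ₁ B R e0 b0 j ω.1 = 0 := if_pos n3
    rw [e, e2, e3, mul_zero, zero_add, one_mul, one_mul, mul_zero, add_zero] at h1
    have h2 : cE W (pJ 0 m) (nC μ s δ₁ Q b0 j) S ≤ Real.exp (-tt) := by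
      rw [hW]
      exact (not_le.1 n2).le
    have h3 := mul_le_mul_of_nonneg_left h2 (by positivity : 0 ≤ 2 * B)
    unfold e2F
    linarith [le_abs_self (cE W (pJ 0 m) (fun T => |G T - cE W (pJ 0 m) G T|) S)]

end Data

section Row

variable {y : ℕ} [Nonempty (Px (Pn N y))] {δ δ₁ B R e0 M0 M tt tt' : ℝ} {b0 b j bm bp c cc d : ℕ} {t : ℝ} {f : Fam N} {D : ℝ}

/-- The slab. -/
abbrev J9 (j b : ℕ) : Finset ℕ := Ioc (j + 2 * b) (j + 3 * b)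

theorem card_J9 (j b : ℕ) : (J9 j b).card = b := by
  rw [Nat.card_Ioc]
  omega

variable [IsProbabilityMeasure μ]

/-- **The data of the remainder at the weights of a kicked row.** -/
theorem td90 (hB : 0 ≤ B) (hR : 0 ≤ R) (he : 0 ≤ e0) (ht : |t| ≤ 1) (hb : b0 ≤ b) (hb1 : 1 ≤ b) (hbm : bm + b ≤ j)
    (hbp : j + 4 * b ≤ bp) (hbc : bp ≤ c) (hcd : c ≤ d) (hdN : d ≤ N) (hf : Cls59 N cc d D f) (ω : Env × Finset ℕ) :
    TD bm bp (j - b) (j + b) (j + 4 * b) c (wj μ s N (Pn N y) δ B b0 j ω t) (J9 j b) (fun _ => ((J9 j b).card : ℝ)⁻¹)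
      (gg μ s (Pn N y) δ B b0 ω j) (ge μ s N (Pn N y) δ B b0 b ω j) (f y ω) (B / 2) B (Real.exp (-(5 * M0))) (e2F B R e0 M0 tt)
      (fun m => Tau (wj μ s N (Pn N y) δ B b0 j ω t) (pJ 0 m) bm (j - b) M0)
      (fun m => BadW μ s N (Pn N y) δ δ₁ B R e0 b0 j t m M0 tt ω)
      (Tau (wj μ s N (Pn N y) δ B b0 j ω t) (pJ 0 bp) bm (j - b) M0)
      (Tau (wj μ s N (Pn N y) δ B b0 j ω t) (pJ 0 bp) (j + b) (j + 4 * b) M0) where
  h1 := by omega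
  h2 := by omega
  h3 := by omega
  h4 := hbp
  h5 := hbc
  hJ m hm := by
    have := mem_Ioc.1 hm
    omega
  th0 m _ := by positivity
  th1 := by
    rw [sum_const, nsmul_eq_mul, card_J9]
    refine mul_inv_cancel₀ ?_
    have : 0 < b := by omega
    positivity
  wk m _ _ := Wk_wj72 δ B hb ω t bm m
  wk2 := Wk_wj90 δ B hb ω t _ _
  hd := HdAll_wj72 δ B (show j + b0 ≤ j + b by omega) ω t
  g1 := Lk_gg (Q := Pn N y) δ B b0 j ω (by omega) (by omega)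
  g2 := Lk_geW72 hB hb (by omega) ω
  m1 := abs_gg hB b0 ω j
  m2 := abs_ge72 hB ω
  hf := rk_cls hf hcd y ω
  A0 := hB
  e10 := (Real.exp_pos _).le
  e20 := e2F_nonneg hB hR he
  eA m _ S := cE2_tau90 _ _ _ _ _ S
  mB S S' h := tau_meas _ _ _ _ _ h
  eB S := cE2_tau90 _ _ _ _ _ S
  mj S S' h := tau_meas _ _ _ _ _ h
  ej S := cE2_tau90 _ _ _ _ _ S
  eM m hm S := by
    have h1 := mem_Ioc.1 hm
    have h2 := micW90 (μ := μ) (s := s) (N := N) (Q := Pn N y) (δ := δ) (δ₁ := δ₁) (B := B) (R := R) (e0 := e0) (M := M0)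
      (tt := tt) (t := t) (b0 := b0) (j := j) (m := m) hB hR he ht (by omega) ω S
    rw [← ii_ind90] at h2
    exact h2

/-- The bound of the remainder, one environment. -/
def RR (w : Px (Pn N y) → ℝ) (J : Finset ℕ) (h bp c : ℕ) (f : Px (Pn N y) → ℝ) (B e1 e2 : ℝ) (A Mm : ℕ → Px (Pn N y) → ℝ)
    (OB Oj : Px (Pn N y) → ℝ) : ℝ :=
  B ^ 3 * ∑ m ∈ J, (J.card : ℝ)⁻¹ * Pk w (kf bp c f) (fun S => A m S * OB S) +
    2 * B ^ 3 * Pk w (kf bp c f) (fun S => A h S * OB S) +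
    2 * B ^ 3 * ∑ m ∈ J, (J.card : ℝ)⁻¹ * Pk w (kf bp c f) (fun S => Mm m S * (Oj S * OB S)) +
    (8 * B ^ 3 * e1 + 2 * B ^ 2 * e2) * Pk w (kf bp c f) fun _ => 1

/-- The near tie at the weights of a kicked row. -/
def tw (μ : Measure ℝ) (s : ℝ) (N y : ℕ) (δ B : ℝ) (b0 j : ℕ) (t M0 : ℝ) (m i k : ℕ) (ω : Env × Finset ℕ) (S : Px (Pn N y)) : Prop :=
  Tau (wj μ s N (Pn N y) δ B b0 j ω t) (pJ 0 m) i k M0 S

/-- **The box part and the remainder.** -/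
theorem ti_split90 (hB : 0 ≤ B) (hR : 0 ≤ R) (he : 0 ≤ e0) (ht : |t| ≤ 1) (hb : b0 ≤ b) (hb1 : 1 ≤ b) (hbm : bm + b ≤ j)
    (hbp : j + 4 * b ≤ bp) (hbc : bp ≤ c) (hcd : c ≤ d) (hdN : d ≤ N) (hf : Cls59 N cc d D f) :
    |TI72 μ s N (Pn N y) δ B b0 j t (pJ 0 bp) (pJ bm bp) (fun ω => ge μ s N (Pn N y) δ B b0 b ω j) (f y)| ≤
      |∫ ω, dC72 μ s N (Pn N y) δ B b0 j t bm bp (J9 j b) (fun ω => ge μ s N (Pn N y) δ B b0 b ω j) (f y) ω ∂(Pm μ N)| +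
      ∫ ω, RR (wj μ s N (Pn N y) δ B b0 j ω t) (J9 j b) (j + 4 * b) bp c (f y ω) B (Real.exp (-(5 * M0))) (e2F B R e0 M0 tt)
        (fun m => ind72 (tw μ s N y δ B b0 j t M0 m bm (j - b)) ω)
        (fun m => ind72 (BadW μ s N (Pn N y) δ δ₁ B R e0 b0 j t m M0 tt) ω)
        (ind72 (tw μ s N y δ B b0 j t M0 bp bm (j - b)) ω) (ind72 (tw μ s N y δ B b0 j t M0 bp (j + b) (j + 4 * b)) ω)
        ∂(Pm μ N) := by
  obtain ⟨S0⟩ := (inferInstance : Nonempty (Px (Pn N y)))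
  have hc0 : (0 : ℝ) < ((J9 j b).card : ℝ) := by
    rw [card_J9]
    have : 0 < b := by omega
    positivity
  have mw := meas_wj72 (μ := μ) (s := s) (N := N) (Q := Pn N y) δ B b0 j t
  have mf : Measurable (f y) := measurable_pi_lambda _ fun S => hf.meas y S
  have bC : ∀ ω x, |avC (wj μ s N (Pn N y) δ B b0 j ω t) (J9 j b) (fun _ => ((J9 j b).card : ℝ)⁻¹) (fun m => pJ 0 m)
      (gg μ s (Pn N y) δ B b0 ω j) x| ≤ B / 2 := fun ω x => by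
    unfold avC
    rw [Finset.sum_apply]
    refine (abs_sum_le_sum_abs _ _).trans ?_
    have h1 : ∀ m ∈ J9 j b, |(((J9 j b).card : ℝ)⁻¹ • cE (wj μ s N (Pn N y) δ B b0 j ω t) (pJ 0 m)
        (gg μ s (Pn N y) δ B b0 ω j)) x| ≤ ((J9 j b).card : ℝ)⁻¹ * (B / 2) := fun m _ => by
      rw [Pi.smul_apply, smul_eq_mul, abs_mul, abs_of_nonneg (by positivity : (0 : ℝ) ≤ ((J9 j b).card : ℝ)⁻¹)]
      exact mul_le_mul_of_nonneg_left (abs_cE_le_X _ _ (fun x => abs_gg hB b0 ω j x) x) (by positivity)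
    refine (sum_le_sum h1).trans (le_of_eq ?_)
    rw [sum_const, nsmul_eq_mul, ← mul_assoc, mul_inv_cancel₀ hc0.ne', one_mul]
  have mC : Measurable fun ω => avC (wj μ s N (Pn N y) δ B b0 j ω t) (J9 j b) (fun _ => ((J9 j b).card : ℝ)⁻¹) (fun m => pJ 0 m)
      (gg μ s (Pn N y) δ B b0 ω j) := by
    unfold avC
    refine Finset.measurable_fun_sum _ fun m _ => measurable_pi_lambda _ fun x => ?_
    exact ((measurable_pi_apply x).comp (meas_cEX (pJ 0 m) mw (meas_gg72 δ B b0 j))).const_mul _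
  have I1 : Integrable (fun ω => dT72 (pJ 0 bp) (pJ bm bp) (ge μ s N (Pn N y) δ B b0 b ω j) (gg μ s (Pn N y) δ B b0 ω j) (f y ω)
      (wj μ s N (Pn N y) δ B b0 j ω t) (gg μ s (Pn N y) δ B b0 ω j)) (Pm μ N) :=
    int_bdd (meas_dT72 _ _ mw (meas_gg72 δ B b0 j) (meas_ge72 δ B b0 b j) (meas_gg72 δ B b0 j) mf) fun ω =>
      abs_dT72_le _ _ (fun x => abs_gg hB b0 ω j x) (abs_ge72 hB ω) (fun x => abs_gg hB b0 ω j x) (hf.bdd y ω)
  have I2 : Integrable (fun ω => dC72 μ s N (Pn N y) δ B b0 j t bm bp (J9 j b) (fun ω => ge μ s N (Pn N y) δ B b0 b ω j) (f y) ω)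
      (Pm μ N) :=
    int_bdd (meas_dT72 _ _ mw mC (meas_ge72 δ B b0 b j) (meas_gg72 δ B b0 j) mf) fun ω =>
      abs_dT72_le _ _ (bC ω) (abs_ge72 hB ω) (fun x => abs_gg hB b0 ω j x) (hf.bdd y ω)
  have hTm : ∀ m i k S, MeasurableSet {ω | tw μ s N y δ B b0 j t M0 m i k ω S} := fun m i k S =>
    meas_tau90 (fun T => (measurable_pi_apply T).comp mw) m i k M0 S
  have hBm : ∀ m S, MeasurableSet {ω | BadW μ s N (Pn N y) δ δ₁ B R e0 b0 j t m M0 tt ω S} := fun m S =>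
    meas_BadW δ δ₁ B R e0 b0 j t m M0 tt S
  have IP : ∀ {V : Env × Finset ℕ → Px (Pn N y) → ℝ}, (∀ S, Measurable fun ω => V ω S) → (∀ ω S, 0 ≤ V ω S) → (∀ ω S, V ω S ≤ 1) →
      Integrable (fun ω => Pk (wj μ s N (Pn N y) δ B b0 j ω t) (kf bp c (f y ω)) (V ω)) (Pm μ N) := fun mV V0 V1 =>
    int_Pk90 mw mV V0 (a := 1) V1 (hf.meas y) (hf.bdd y) bp c
  have I3 : Integrable (fun ω => RR (wj μ s N (Pn N y) δ B b0 j ω t) (J9 j b) (j + 4 * b) bp c (f y ω) B (Real.exp (-(5 * M0)))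
      (e2F B R e0 M0 tt) (fun m => ind72 (tw μ s N y δ B b0 j t M0 m bm (j - b)) ω)
      (fun m => ind72 (BadW μ s N (Pn N y) δ δ₁ B R e0 b0 j t m M0 tt) ω)
      (ind72 (tw μ s N y δ B b0 j t M0 bp bm (j - b)) ω) (ind72 (tw μ s N y δ B b0 j t M0 bp (j + b) (j + 4 * b)) ω)) (Pm μ N) := by
    unfold RR
    refine (((Integrable.const_mul ?_ _).add (Integrable.const_mul ?_ _)).add (Integrable.const_mul ?_ _)).add
      (Integrable.const_mul ?_ _)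
    · refine integrable_finsetSum _ fun m _ => Integrable.const_mul ?_ _
      exact IP (fun S => (meas_ind72 (hTm m _ _) S).mul (meas_ind72 (hTm _ _ _) S))
        (fun ω S => mul_nonneg (ind72_nonneg _ _ _) (ind72_nonneg _ _ _))
        fun ω S => mul_le_one₀ (ind72_le_one _ _ _) (ind72_nonneg _ _ _) (ind72_le_one _ _ _)
    · exact IP (fun S => (meas_ind72 (hTm _ _ _) S).mul (meas_ind72 (hTm _ _ _) S))
        (fun ω S => mul_nonneg (ind72_nonneg _ _ _) (ind72_nonneg _ _ _))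
        fun ω S => mul_le_one₀ (ind72_le_one _ _ _) (ind72_nonneg _ _ _) (ind72_le_one _ _ _)
    · refine integrable_finsetSum _ fun m _ => Integrable.const_mul ?_ _
      exact IP (fun S => (meas_ind72 (hBm m) S).mul ((meas_ind72 (hTm _ _ _) S).mul (meas_ind72 (hTm _ _ _) S)))
        (fun ω S => mul_nonneg (ind72_nonneg _ _ _) (mul_nonneg (ind72_nonneg _ _ _) (ind72_nonneg _ _ _)))
        fun ω S => mul_le_one₀ (ind72_le_one _ _ _) (mul_nonneg (ind72_nonneg _ _ _) (ind72_nonneg _ _ _))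
          (mul_le_one₀ (ind72_le_one _ _ _) (ind72_nonneg _ _ _) (ind72_le_one _ _ _))
    · exact IP (fun S => measurable_const) (fun _ _ => zero_le_one) fun _ _ => le_rfl
  have hpt : ∀ ω, ‖dT72 (pJ 0 bp) (pJ bm bp) (ge μ s N (Pn N y) δ B b0 b ω j) (gg μ s (Pn N y) δ B b0 ω j) (f y ω)
      (wj μ s N (Pn N y) δ B b0 j ω t) (gg μ s (Pn N y) δ B b0 ω j) -
      dC72 μ s N (Pn N y) δ B b0 j t bm bp (J9 j b) (fun ω => ge μ s N (Pn N y) δ B b0 b ω j) (f y) ω‖ ≤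
      RR (wj μ s N (Pn N y) δ B b0 j ω t) (J9 j b) (j + 4 * b) bp c (f y ω) B (Real.exp (-(5 * M0)))
      (e2F B R e0 M0 tt) (fun m => ind72 (tw μ s N y δ B b0 j t M0 m bm (j - b)) ω)
      (fun m => ind72 (BadW μ s N (Pn N y) δ δ₁ B R e0 b0 j t m M0 tt) ω)
      (ind72 (tw μ s N y δ B b0 j t M0 bp bm (j - b)) ω) (ind72 (tw μ s N y δ B b0 j t M0 bp (j + b) (j + 4 * b)) ω) := fun ω => by
    have d9 := td90 (μ := μ) (s := s) (δ₁ := δ₁) (tt := tt) (M0 := M0) (δ := δ) (y := y) hB hR he ht hb hb1 hbm hbp hbc hcd hdN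
      hf ω
    have hrk := rk_cls hf hcd y ω
    have hMp : Mp (pJ (Q := Pn N y) 0 bp) (f y ω) := fun S S' e => hrk S S' fun i hi => ps_of_ge e (hbc.trans hi)
    have h1 := dT72_block (q' := pJ (Q := Pn N y) 0 bp) (q := pJ bm bp) (γ := ge μ s N (Pn N y) δ B b0 b ω j)
      (g := gg μ s (Pn N y) δ B b0 ω j) (f := f y ω) (w := wj μ s N (Pn N y) δ B b0 j ω t) (J := J9 j b)
      (θ := fun _ => ((J9 j b).card : ℝ)⁻¹) (pm := fun m => pJ 0 m) (crs_B (by omega)) hMp d9.th1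
      fun m hm => crs_pJ le_rfl (d9.hJ m hm).2
    have h2 := T0_rem d9
    unfold dC72
    rw [Real.norm_eq_abs, sub_eq_iff_eq_add'.2 h1]
    refine h2.trans (le_of_eq ?_)
    have e1 : ∀ m, ii (Tau (wj μ s N (Pn N y) δ B b0 j ω t) (pJ 0 m) bm (j - b) M0) =
        ind72 (tw μ s N y δ B b0 j t M0 m bm (j - b)) ω := fun m =>
      funext fun S => ii_ind90 (tw μ s N y δ B b0 j t M0 m bm (j - b)) ω S
    have e2 : ii (Tau (wj μ s N (Pn N y) δ B b0 j ω t) (pJ 0 bp) (j + b) (j + 4 * b) M0) =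
        ind72 (tw μ s N y δ B b0 j t M0 bp (j + b) (j + 4 * b)) ω :=
      funext fun S => ii_ind90 (tw μ s N y δ B b0 j t M0 bp (j + b) (j + 4 * b)) ω S
    have e3 : ∀ m, ii (BadW μ s N (Pn N y) δ δ₁ B R e0 b0 j t m M0 tt ω) =
        ind72 (BadW μ s N (Pn N y) δ δ₁ B R e0 b0 j t m M0 tt) ω := fun m =>
      funext fun S => ii_ind90 (BadW μ s N (Pn N y) δ δ₁ B R e0 b0 j t m M0 tt) ω S
    simp only [e1, e2, e3]
    unfold RR
    ring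
  have k1 : TI72 μ s N (Pn N y) δ B b0 j t (pJ 0 bp) (pJ bm bp) (fun ω => ge μ s N (Pn N y) δ B b0 b ω j) (f y) =
      ∫ ω, dC72 μ s N (Pn N y) δ B b0 j t bm bp (J9 j b) (fun ω => ge μ s N (Pn N y) δ B b0 b ω j) (f y) ω ∂(Pm μ N) +
      ∫ ω, (dT72 (pJ 0 bp) (pJ bm bp) (ge μ s N (Pn N y) δ B b0 b ω j) (gg μ s (Pn N y) δ B b0 ω j) (f y ω)
      (wj μ s N (Pn N y) δ B b0 j ω t) (gg μ s (Pn N y) δ B b0 ω j) -
      dC72 μ s N (Pn N y) δ B b0 j t bm bp (J9 j b) (fun ω => ge μ s N (Pn N y) δ B b0 b ω j) (f y) ω) ∂(Pm μ N) := by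
    rw [integral_sub I1 I2]
    unfold TI72
    ring
  rw [k1]
  refine (abs_add_le _ _).trans (add_le_add le_rfl ?_)
  rw [← Real.norm_eq_abs]
  exact norm_integral_le_of_norm_le I3 (Filter.Eventually.of_forall hpt)

/-! ### The passage to the corner -/

/-- The slab field of the row `m` in the block. -/
def UA9 (μ : Measure ℝ) (s : ℝ) (N bp bm b : ℕ) (M : ℝ) (m j : ℕ) : Fam N := fun y ω S =>
  tI μ s N m bm (j - b) M y ω S * tI μ s N bp bm (j - b) M y ω S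

/-- The micro ties and the second part of the own pair. -/
def UM9 (μ : Measure ℝ) (s : ℝ) (N bp b b0 : ℕ) (M : ℝ) (m j : ℕ) : Fam N := fun y ω S =>
  (tI μ s N m (j - b0) j M y ω S + tI μ s N m j (j + b0) M y ω S) * tI μ s N bp (j + b) (j + 4 * b) M y ω S

omit [Nonempty (Px (Pn N y))] [IsProbabilityMeasure μ] in
theorem UM9_nonneg (bp b b0 : ℕ) (M : ℝ) (m j y : ℕ) (ω : Env × Finset ℕ) (S : Px (Pn N y)) : 0 ≤ UM9 μ s N bp b b0 M m j y ω S :=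
  mul_nonneg (add_nonneg (tI_nonneg _ _ _ _ _ _ _) (tI_nonneg _ _ _ _ _ _ _)) (tI_nonneg _ _ _ _ _ _ _)

omit [Nonempty (Px (Pn N y))] [IsProbabilityMeasure μ] in
theorem UM9_le_two (bp b b0 : ℕ) (M : ℝ) (m j y : ℕ) (ω : Env × Finset ℕ) (S : Px (Pn N y)) : UM9 μ s N bp b b0 M m j y ω S ≤ 2 := by
  have h4 := tI_le_one (μ := μ) (s := s) m (j - b0) j M y ω S
  have h5 := tI_le_one (μ := μ) (s := s) m j (j + b0) M y ω S
  have h6 := tI_le_one (μ := μ) (s := s) bp (j + b) (j + 4 * b) M y ω S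
  have h7 := tI_nonneg (μ := μ) (s := s) bp (j + b) (j + 4 * b) M y ω S
  have h8 := tI_nonneg (μ := μ) (s := s) m (j - b0) j M y ω S
  have h9 := tI_nonneg (μ := μ) (s := s) m j (j + b0) M y ω S
  unfold UM9
  nlinarith

omit [Nonempty (Px (Pn N y))] [IsProbabilityMeasure μ] in
theorem meas_UM9 (bp b b0 : ℕ) (M : ℝ) (m j y : ℕ) (S : Px (Pn N y)) : Measurable fun ω => UM9 μ s N bp b b0 M m j y ω S :=
  ((meas_tI _ _ _ _ _ _).add (meas_tI _ _ _ _ _ _)).mul (meas_tI _ _ _ _ _ _)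

variable {ε K' : ℝ} {zt : ℕ}

/-- **The passage of a mass.** -/
theorem pas90 (hB : 0 ≤ B)
    (hE : ∀ A, E0X μ s 2 N (Pn N y) (j + b) b (pB (j + b + b)) (2 * B / b) (uj72 μ s (Pn N y) δ B b0 j t A) ε K')
    (hbp : j + 4 * b ≤ bp) (hbc : bp ≤ c) (hcd : c ≤ d) (hf : Cls59 N cc d D f) (hD : 2 * D ≤ (N : ℝ) ^ K')
    {V V' : Env × Finset ℕ → Px (Pn N y) → ℝ} (hV : RbF (Pn N y) (j + b) b (2 * B / b) V V') :
    ∫ ω, Pk (wj μ s N (Pn N y) δ B b0 j ω t) (kf bp c (f y ω)) (V ω) ∂(Pm μ N) ≤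
      (N : ℝ) ^ ε * (∫ ω, Pk (wm μ s N (Pn N y) ω) (kf bp c (f y ω)) (V' ω) ∂(Pm μ N) + (N : ℝ) ^ (-K')) := by
  have h := e0_Pk90 (μ := μ) (s := s) (N := N) hE (fun S => meas_uj72 δ B b0 j t S) (bp := bp) (c := c) (by omega) hbc
    (sp72_of_cls (c0 := j + b) (K := b) hf hcd (by omega) y) hD hV
  simp only [wj_eq72]
  exact h

theorem rbT90 (hB : 0 ≤ B) (ht : |t| ≤ 1) (hb : b0 ≤ b) (hM : 5 * M0 + 4 * (3 * B) ≤ 5 * M) {m : ℕ} (hm : j + b + b ≤ m) (i k : ℕ) :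
    RbF (Pn N y) (j + b) b (2 * B / b) (ind72 (tw μ s N y δ B b0 j t M0 m i k)) (tI μ s N m i k M y) := by
  have h := RbF.of_rb (rb_tau90 (μ := μ) (s := s) (N := N) (Q := Pn N y) (δ := δ) (B := B) (b0 := b0) (j := j) (m := m) (i := i) (k := k)
    (t := t) (M := M0) (M' := M) (c0 := j + b) (K := b) (θ := 2 * B / b) hm (by omega) hB ht le_rfl hM)
  exact h

theorem rbM90 (hB : 0 ≤ B) (hM : 5 * M0 + 4 * (3 * B) ≤ 5 * M) {m : ℕ} (hm : j + b + b ≤ m) :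
    RbF (Pn N y) (j + b) b (2 * B / b) (ind72 fun ω => TauM (wm μ s N (Pn N y) ω) (pJ 0 m) b0 j M0)
      (ind72 fun ω => TauM (wm μ s N (Pn N y) ω) (pJ 0 m) b0 j M) :=
  RbF.of_rb (rb_tau (c0 := j + b) (K := b) (θ := 2 * B / b) (D := 2 * B) hm (by positivity) le_rfl (by linarith))

theorem ind_tauM90 {m : ℕ} (ω : Env × Finset ℕ) (S : Px (Pn N y)) :
    ind72 (fun ω => TauM (wm μ s N (Pn N y) ω) (pJ 0 m) b0 j M) ω S ≤
      tI μ s N m (j - b0) j M y ω S + tI μ s N m j (j + b0) M y ω S := by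
  have h1 := tI_nonneg (μ := μ) (s := s) m (j - b0) j M y ω S
  have h2 := tI_nonneg (μ := μ) (s := s) m j (j + b0) M y ω S
  by_cases h : TauM (wm μ s N (Pn N y) ω) (pJ 0 m) b0 j M S
  · have e : ind72 (fun ω => TauM (wm μ s N (Pn N y) ω) (pJ 0 m) b0 j M) ω S = 1 := if_pos h
    rw [e]
    rcases h with h | h
    · have e1 : tI μ s N m (j - b0) j M y ω S = 1 := if_pos h
      linarith
    · have e1 : tI μ s N m j (j + b0) M y ω S = 1 := if_pos h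
      linarith
  · have e : ind72 (fun ω => TauM (wm μ s N (Pn N y) ω) (pJ 0 m) b0 j M) ω S = 0 := if_neg h
    rw [e]
    linarith

/-- The slab field. -/
theorem pasA90 (hy : y ≤ N) (hB : 0 ≤ B) (ht : |t| ≤ 1) (hb : b0 ≤ b) (hM : 5 * M0 + 4 * (3 * B) ≤ 5 * M)
    (hE : ∀ A, E0X μ s 2 N (Pn N y) (j + b) b (pB (j + b + b)) (2 * B / b) (uj72 μ s (Pn N y) δ B b0 j t A) ε K')
    (hbp : j + 4 * b ≤ bp) (hz : bp ≤ zt) (hzc : zt ≤ c) (hcd : c ≤ d) (hf : Cls59 N cc d D f) (hD : 2 * D ≤ (N : ℝ) ^ K') {m : ℕ}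
    (hm : j + 2 * b ≤ m) :
    ∫ ω, Pk (wj μ s N (Pn N y) δ B b0 j ω t) (kf bp c (f y ω)) (fun S => ind72 (tw μ s N y δ B b0 j t M0 m bm (j - b)) ω S *
        ind72 (tw μ s N y δ B b0 j t M0 bp bm (j - b)) ω S) ∂(Pm μ N) ≤
      (N : ℝ) ^ ε * (1 / 2 * rw2 μ s N (NN72 N zt c) (UA9 μ s N bp bm b M m j) f y + (N : ℝ) ^ (-K')) := by
  have h1 := pas90 hB hE hbp (hz.trans hzc) hcd hf hD
    ((rbT90 (y := y) (μ := μ) (s := s) (δ := δ) (t := t) hB ht hb hM (m := m) (by omega) bm (j - b)).mul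
      (rbT90 (y := y) (μ := μ) (s := s) (δ := δ) (t := t) hB ht hb hM (m := bp) (by omega) bm (j - b)))
  refine h1.trans (mul_le_mul_of_nonneg_left (add_le_add ?_ le_rfl) (Real.rpow_nonneg (Nat.cast_nonneg N) ε))
  exact Pk_rw90 (U := UA9 μ s N bp bm b M m j) hy hz (fun ω x => mul_nonneg (tI_nonneg _ _ _ _ _ _ _) (tI_nonneg _ _ _ _ _ _ _))
    (a := 1) (fun ω x => mul_le_one₀ (tI_le_one _ _ _ _ _ _ _) (tI_nonneg _ _ _ _ _ _ _) (tI_le_one _ _ _ _ _ _ _))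
    (fun S => (meas_tI _ _ _ _ _ _).mul (meas_tI _ _ _ _ _ _)) (hf.meas y) (hf.bdd y)

/-- The own pair. -/
theorem pas090 (hy : y ≤ N) (hB : 0 ≤ B) (ht : |t| ≤ 1) (hb : b0 ≤ b) (hM : 5 * M0 + 4 * (3 * B) ≤ 5 * M)
    (hE : ∀ A, E0X μ s 2 N (Pn N y) (j + b) b (pB (j + b + b)) (2 * B / b) (uj72 μ s (Pn N y) δ B b0 j t A) ε K')
    (hbp : j + 4 * b ≤ bp) (hz : bp ≤ zt) (hzc : zt ≤ c) (hcd : c ≤ d) (hf : Cls59 N cc d D f) (hD : 2 * D ≤ (N : ℝ) ^ K') :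
    ∫ ω, Pk (wj μ s N (Pn N y) δ B b0 j ω t) (kf bp c (f y ω)) (fun S => ind72 (tw μ s N y δ B b0 j t M0 bp bm (j - b)) ω S)
        ∂(Pm μ N) ≤
      (N : ℝ) ^ ε * (1 / 2 * rw2 μ s N (NN72 N zt c) (tI μ s N bp bm (j - b) M) f y + (N : ℝ) ^ (-K')) := by
  have h1 := pas90 hB hE hbp (hz.trans hzc) hcd hf hD
    (rbT90 (y := y) (μ := μ) (s := s) (δ := δ) (t := t) hB ht hb hM (m := bp) (by omega) bm (j - b))
  refine h1.trans (mul_le_mul_of_nonneg_left (add_le_add ?_ le_rfl) (Real.rpow_nonneg (Nat.cast_nonneg N) ε))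
  exact Pk_rw90 (U := tI μ s N bp bm (j - b) M) hy hz (fun ω x => tI_nonneg _ _ _ _ _ _ _)
    (a := 1) (fun ω x => tI_le_one _ _ _ _ _ _ _) (fun S => meas_tI _ _ _ _ _ _) (hf.meas y) (hf.bdd y)

open Classical in
/-- **The rare part of the micro event** at the weights of the kicked row. -/
theorem badW90 {m : ℕ} (hf : Cls59 N cc d D f) {V : Env × Finset ℕ → Px (Pn N y) → ℝ}
    (V0 : ∀ ω S, 0 ≤ V ω S) (V1 : ∀ ω S, V ω S ≤ 1) (mV : ∀ S, Measurable fun ω => V ω S) :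
    ∫ ω, Pk (wj μ s N (Pn N y) δ B b0 j ω t) (kf bp c (f y ω))
        (fun S => ind72 (BadW μ s N (Pn N y) δ δ₁ B R e0 b0 j t m M0 tt) ω S * V ω S) ∂(Pm μ N) ≤
      ∫ ω, Pk (wj μ s N (Pn N y) δ B b0 j ω t) (kf bp c (f y ω))
        (fun S => ind72 (fun ω => TauM (wm μ s N (Pn N y) ω) (pJ 0 m) b0 j M0) ω S * V ω S) ∂(Pm μ N) +
      2 * D * (Real.exp tt * ∫ ω, gm (wj μ s N (Pn N y) δ B b0 j ω t) (nC μ s δ₁ (Pn N y) b0 j) ∂(Pm μ N) +
        (law μ {η | ¬ GW1 μ s N (Pn N y) δ δ₁ B R e0 b0 j η}).toReal) := by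
  obtain ⟨S0⟩ := (inferInstance : Nonempty (Px (Pn N y)))
  have hD0 : 0 ≤ D := (abs_nonneg _).trans (hf.bdd y (fun _ => 0, ∅) S0)
  have mw := meas_wj72 (μ := μ) (s := s) (N := N) (Q := Pn N y) δ B b0 j t
  have mw' : ∀ S : Px (Pn N y), Measurable fun ω => wj μ s N (Pn N y) δ B b0 j ω t S := fun S => (measurable_pi_apply S).comp mw
  obtain ⟨T1, hT1⟩ : ∃ T : Env × Finset ℕ → Px (Pn N y) → Prop, T = fun ω => TauM (wm μ s N (Pn N y) ω) (pJ 0 m) b0 j M0 := ⟨_, rfl⟩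
  obtain ⟨T2, hT2⟩ : ∃ T : Env × Finset ℕ → Px (Pn N y) → Prop,
    T = fun ω => NCn μ s δ₁ (wj μ s N (Pn N y) δ B b0 j ω t) (pJ 0 m) b0 j tt := ⟨_, rfl⟩
  obtain ⟨T0, hT0⟩ : ∃ T : Env × Finset ℕ → Px (Pn N y) → Prop,
    T = BadW μ s N (Pn N y) δ δ₁ B R e0 b0 j t m M0 tt := ⟨_, rfl⟩
  have hmT1 : ∀ S, MeasurableSet {ω | T1 ω S} := fun S => by rw [hT1]; exact meas_tauM _ _ _ _ S
  have hmT2 : ∀ S, MeasurableSet {ω | T2 ω S} := fun S => by rw [hT2]; exact meas_NCw mw' δ₁ m b0 j tt S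
  have hmT0 : ∀ S, MeasurableSet {ω | T0 ω S} := fun S => by rw [hT0]; exact meas_BadW _ _ _ _ _ _ _ _ _ _ _ S
  have hind : ∀ ω S, ind72 T0 ω S ≤ ind72 T1 ω S + (ind72 T2 ω S + bG μ s N (Pn N y) δ δ₁ B R e0 b0 j ω.1) := fun ω S => by
    have a1 := ind72_nonneg T1 ω S
    have a2 := ind72_nonneg T2 ω S
    have a3 := bG_nonneg (μ := μ) (s := s) (N := N) (Q := Pn N y) δ δ₁ B R e0 b0 j ω.1
    by_cases h0 : T0 ω S
    · have e9 : ind72 T0 ω S = 1 := if_pos h0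
      rw [e9]
      rw [hT0] at h0
      rcases h0 with h1 | h1 | h1
      · have e1 : ind72 T1 ω S = 1 := if_pos (by rw [hT1]; exact h1)
        linarith
      · have e1 : ind72 T2 ω S = 1 := if_pos (by rw [hT2]; exact h1)
        linarith
      · have e1 : bG μ s N (Pn N y) δ δ₁ B R e0 b0 j ω.1 = 1 := if_neg h1
        linarith
    · have e9 : ind72 T0 ω S = 0 := if_neg h0
      rw [e9]
      linarith
  rw [← hT0, ← hT1]
  have hpt : ∀ ω, Pk (wj μ s N (Pn N y) δ B b0 j ω t) (kf bp c (f y ω)) (fun S => ind72 T0 ω S * V ω S) ≤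
      Pk (wj μ s N (Pn N y) δ B b0 j ω t) (kf bp c (f y ω)) (fun S => ind72 T1 ω S * V ω S) +
        (2 * D * (Real.exp tt * gm (wj μ s N (Pn N y) δ B b0 j ω t) (nC μ s δ₁ (Pn N y) b0 j)) +
          2 * D * bG μ s N (Pn N y) δ δ₁ B R e0 b0 j ω.1) := fun ω => by
    have h1 : Pk (wj μ s N (Pn N y) δ B b0 j ω t) (kf bp c (f y ω)) (fun S => ind72 T0 ω S * V ω S) ≤
        Pk (wj μ s N (Pn N y) δ B b0 j ω t) (kf bp c (f y ω)) fun S =>
          ind72 T1 ω S * V ω S + (ind72 T2 ω S + bG μ s N (Pn N y) δ δ₁ B R e0 b0 j ω.1) := by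
      refine Pk_mono (kf_nonneg bp c (f y ω)) fun S => ?_
      have h2 := mul_le_mul_of_nonneg_right (hind ω S) (V0 ω S)
      have h3 : (ind72 T2 ω S + bG μ s N (Pn N y) δ δ₁ B R e0 b0 j ω.1) * V ω S ≤
          (ind72 T2 ω S + bG μ s N (Pn N y) δ δ₁ B R e0 b0 j ω.1) * 1 :=
        mul_le_mul_of_nonneg_left (V1 ω S) (add_nonneg (ind72_nonneg _ _ _) (bG_nonneg _ _ _ _ _ _ _ _))
      rw [add_mul] at h2
      linarith
    rw [Pk_add] at h1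
    have h4 := Pk_le_gm90 (wj μ s N (Pn N y) δ B b0 j ω t)
      (φ := fun S => ind72 T2 ω S + bG μ s N (Pn N y) δ δ₁ B R e0 b0 j ω.1)
      (fun S => add_nonneg (ind72_nonneg _ _ _) (bG_nonneg _ _ _ _ _ _ _ _)) (hf.bdd y ω) bp c
    have h5 : gm (wj μ s N (Pn N y) δ B b0 j ω t) (fun S => ind72 T2 ω S + bG μ s N (Pn N y) δ δ₁ B R e0 b0 j ω.1) =
        gm (wj μ s N (Pn N y) δ B b0 j ω t) (ind72 T2 ω) + bG μ s N (Pn N y) δ δ₁ B R e0 b0 j ω.1 := by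
      have e := gm_add (wj μ s N (Pn N y) δ B b0 j ω t) (ind72 T2 ω) fun _ => bG μ s N (Pn N y) δ δ₁ B R e0 b0 j ω.1
      rw [gm_const] at e
      exact e
    have h6 : gm (wj μ s N (Pn N y) δ B b0 j ω t) (ind72 T2 ω) ≤
        Real.exp tt * gm (wj μ s N (Pn N y) δ B b0 j ω t) (nC μ s δ₁ (Pn N y) b0 j) := by
      rw [hT2]
      exact gm_NCn90 (μ := μ) (s := s) (δ₁ := δ₁) (b := b0) (j := j) (m := m) (t := tt) (wj μ s N (Pn N y) δ B b0 j ω t)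
    rw [h5] at h4
    have h7 := mul_le_mul_of_nonneg_left h6 (by positivity : 0 ≤ 2 * D)
    rw [mul_add] at h4
    linarith
  have hintC : Integrable (fun ω : Env × Finset ℕ => gm (wj μ s N (Pn N y) δ B b0 j ω t) (nC μ s δ₁ (Pn N y) b0 j)) (Pm μ N) :=
    int_bdd (M := 1) (meas_gm mw' fun S => measurable_const) fun ω => by
      rw [abs_of_nonneg (gm_nonneg _ (nC_nonneg δ₁ b0 j))]
      exact (gm_mono _ (g := fun _ => 1) (nC_le_one δ₁ b0 j)).trans (gm_const _ _).le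
  have hinti : Integrable (fun ω : Env × Finset ℕ => bG μ s N (Pn N y) δ δ₁ B R e0 b0 j ω.1) (Pm μ N) :=
    int_bdd (M := 1) ((meas_bG δ δ₁ B R e0 b0 j).comp measurable_fst) fun ω => by
      rw [abs_of_nonneg (bG_nonneg _ _ _ _ _ _ _ _)]
      exact bG_le_one _ _ _ _ _ _ _ _
  have hI0 : ∀ T : Env × Finset ℕ → Px (Pn N y) → Prop, (∀ S, MeasurableSet {ω | T ω S}) →
      Integrable (fun ω => Pk (wj μ s N (Pn N y) δ B b0 j ω t) (kf bp c (f y ω)) (fun S => ind72 T ω S * V ω S)) (Pm μ N) :=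
    fun T hT => int_Pk90 mw (fun S => (meas_ind72 hT S).mul (mV S))
      (fun ω S => mul_nonneg (ind72_nonneg _ _ _) (V0 _ _)) (a := 1)
      (fun ω S => mul_le_one₀ (ind72_le_one _ _ _) (V0 _ _) (V1 _ _)) (hf.meas y) (hf.bdd y) bp c
  have hI := integral_mono (hI0 T0 hmT0)
    ((hI0 T1 hmT1).add (((hintC.const_mul (Real.exp tt)).const_mul (2 * D)).add (hinti.const_mul (2 * D)))) hpt
  refine hI.trans (le_of_eq ?_)
  have e1 := integral_add (hI0 T1 hmT1)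
    (((hintC.const_mul (Real.exp tt)).const_mul (2 * D)).add (hinti.const_mul (2 * D)))
  have e2 := integral_add ((hintC.const_mul (Real.exp tt)).const_mul (2 * D)) (hinti.const_mul (2 * D))
  simp only [Pi.add_apply] at e1 ⊢
  rw [e1, e2, integral_const_mul, integral_const_mul, integral_const_mul,
    int_fst (Φ := fun η => bG μ s N (Pn N y) δ δ₁ B R e0 b0 j η) (meas_bG δ δ₁ B R e0 b0 j) (M := 1)
      (fun η => by rw [abs_of_nonneg (bG_nonneg _ _ _ _ _ _ _ _)]; exact bG_le_one _ _ _ _ _ _ _ _), int_bG]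
  ring

/-- The micro terms. -/
theorem pasM90 (hy : y ≤ N) (hB : 0 ≤ B) (ht : |t| ≤ 1) (hb : b0 ≤ b) (hM : 5 * M0 + 4 * (3 * B) ≤ 5 * M) (hP1 : 1 ≤ (N : ℝ) ^ ε)
    (hE : ∀ A, E0X μ s 2 N (Pn N y) (j + b) b (pB (j + b + b)) (2 * B / b) (uj72 μ s (Pn N y) δ B b0 j t A) ε K')
    (hbp : j + 4 * b ≤ bp) (hz : bp ≤ zt) (hzc : zt ≤ c) (hcd : c ≤ d) (hf : Cls59 N cc d D f) (hD : 2 * D ≤ (N : ℝ) ^ K')
    {ρ : ℝ} (hρ0 : 0 ≤ ρ) (hρ : Real.exp tt * ∫ ω, gm (wj μ s N (Pn N y) δ B b0 j ω t) (nC μ s δ₁ (Pn N y) b0 j) ∂(Pm μ N) +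
        (law μ {η | ¬ GW1 μ s N (Pn N y) δ δ₁ B R e0 b0 j η}).toReal ≤ ρ) {m : ℕ} (hm : j + 2 * b ≤ m) :
    ∫ ω, Pk (wj μ s N (Pn N y) δ B b0 j ω t) (kf bp c (f y ω)) (fun S => ind72 (BadW μ s N (Pn N y) δ δ₁ B R e0 b0 j t m M0 tt) ω S *
        (ind72 (tw μ s N y δ B b0 j t M0 bp (j + b) (j + 4 * b)) ω S *
          ind72 (tw μ s N y δ B b0 j t M0 bp bm (j - b)) ω S)) ∂(Pm μ N) ≤
      (N : ℝ) ^ ε * (1 / 2 * rw2 μ s N (NN72 N zt c) (UM9 μ s N bp b b0 M m j) f y + 2 * D * ρ + (N : ℝ) ^ (-K')) := by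
  obtain ⟨S0⟩ := (inferInstance : Nonempty (Px (Pn N y)))
  have hD0 : 0 ≤ D := (abs_nonneg _).trans (hf.bdd y (fun _ => 0, ∅) S0)
  have mw := meas_wj72 (μ := μ) (s := s) (N := N) (Q := Pn N y) δ B b0 j t
  have hTm' : ∀ m i k S, MeasurableSet {ω | tw μ s N y δ B b0 j t M0 m i k ω S} := fun m i k S =>
    meas_tau90 (fun T => (measurable_pi_apply T).comp mw) m i k M0 S
  have h0 := badW90 (μ := μ) (s := s) (N := N) (y := y) (δ := δ) (δ₁ := δ₁) (B := B) (R := R) (e0 := e0) (M0 := M0) (tt := tt)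
    (b0 := b0) (j := j) (bp := bp) (c := c) (t := t) (m := m) hf
    (V := fun ω S => ind72 (tw μ s N y δ B b0 j t M0 bp (j + b) (j + 4 * b)) ω S *
      ind72 (tw μ s N y δ B b0 j t M0 bp bm (j - b)) ω S)
    (fun ω S => mul_nonneg (ind72_nonneg _ _ _) (ind72_nonneg _ _ _))
    (fun ω S => mul_le_one₀ (ind72_le_one _ _ _) (ind72_nonneg _ _ _) (ind72_le_one _ _ _))
    (fun S => (meas_ind72 (hTm' _ _ _) S).mul (meas_ind72 (hTm' _ _ _) S))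
  have h1 := pas90 hB hE hbp (hz.trans hzc) hcd hf hD
    ((rbM90 (y := y) (μ := μ) (s := s) (b0 := b0) hB hM (m := m) (by omega)).mul
      ((rbT90 (y := y) (μ := μ) (s := s) (δ := δ) (t := t) hB ht hb hM (m := bp) (by omega) (j + b) (j + 4 * b)).mul
      (rbT90 (y := y) (μ := μ) (s := s) (δ := δ) (t := t) hB ht hb hM (m := bp) (by omega) bm (j - b))))
  have h0' := mul_le_mul_of_nonneg_left hρ (by positivity : 0 ≤ 2 * D)
  have h0'' : 2 * D * ρ ≤ (N : ℝ) ^ ε * (2 * D * ρ) := le_mul_of_one_le_left (by positivity) hP1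
  have hNe : 0 ≤ (N : ℝ) ^ ε := Real.rpow_nonneg (Nat.cast_nonneg N) ε
  have V0 : ∀ ω (S : Px (Pn N y)), 0 ≤ tI μ s N bp (j + b) (j + 4 * b) M y ω S * tI μ s N bp bm (j - b) M y ω S := fun ω S =>
    mul_nonneg (tI_nonneg _ _ _ _ _ _ _) (tI_nonneg _ _ _ _ _ _ _)
  have V1 : ∀ ω (S : Px (Pn N y)), tI μ s N bp (j + b) (j + 4 * b) M y ω S * tI μ s N bp bm (j - b) M y ω S ≤ 1 := fun ω S =>
    mul_le_one₀ (tI_le_one _ _ _ _ _ _ _) (tI_nonneg _ _ _ _ _ _ _) (tI_le_one _ _ _ _ _ _ _)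
  have mV : ∀ S : Px (Pn N y), Measurable fun ω => tI μ s N bp (j + b) (j + 4 * b) M y ω S * tI μ s N bp bm (j - b) M y ω S :=
    fun S => (meas_tI _ _ _ _ _ _).mul (meas_tI _ _ _ _ _ _)
  have hTm : ∀ S : Px (Pn N y), MeasurableSet {ω : Env × Finset ℕ | TauM (wm μ s N (Pn N y) ω) (pJ 0 m) b0 j M S} := fun S =>
    EvT50.meas_tauM _ _ _ _ S
  have h3 : ∫ ω, Pk (wm μ s N (Pn N y) ω) (kf bp c (f y ω))
        (fun S => ind72 (fun ω => TauM (wm μ s N (Pn N y) ω) (pJ 0 m) b0 j M) ω S *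
          (tI μ s N bp (j + b) (j + 4 * b) M y ω S * tI μ s N bp bm (j - b) M y ω S)) ∂(Pm μ N) ≤
      ∫ ω, Pk (wm μ s N (Pn N y) ω) (kf bp c (f y ω)) (UM9 μ s N bp b b0 M m j y ω) ∂(Pm μ N) := by
    refine integral_mono (int_Pk90 (measurable_pi_lambda _ fun S => meas_wm S) (fun S => (meas_ind72 hTm S).mul (mV S))
      (fun ω S => mul_nonneg (ind72_nonneg _ _ _) (V0 _ _)) (a := 1)
      (fun ω S => mul_le_one₀ (ind72_le_one _ _ _) (V0 _ _) (V1 _ _)) (hf.meas y) (hf.bdd y) bp c)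
      (int_Pk90 (measurable_pi_lambda _ fun S => meas_wm S) (meas_UM9 bp b b0 M m j y) (UM9_nonneg bp b b0 M m j y) (a := 2)
        (UM9_le_two bp b b0 M m j y) (hf.meas y) (hf.bdd y) bp c) fun ω => ?_
    · refine Pk_mono (kf_nonneg bp c (f y ω)) fun S => ?_
      show _ ≤ (tI μ s N m (j - b0) j M y ω S + tI μ s N m j (j + b0) M y ω S) * tI μ s N bp (j + b) (j + 4 * b) M y ω S
      have h4 := tI_nonneg (μ := μ) (s := s) bp (j + b) (j + 4 * b) M y ω S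
      have h5 : tI μ s N bp (j + b) (j + 4 * b) M y ω S * tI μ s N bp bm (j - b) M y ω S ≤
          tI μ s N bp (j + b) (j + 4 * b) M y ω S := mul_le_of_le_one_right h4 (tI_le_one _ _ _ _ _ _ _)
      exact mul_le_mul (ind_tauM90 ω S) h5 (V0 ω S) (add_nonneg (tI_nonneg _ _ _ _ _ _ _) (tI_nonneg _ _ _ _ _ _ _))
  have h4 := Pk_rw90 (μ := μ) (s := s) (U := UM9 μ s N bp b b0 M m j) (f := f) (c := c) hy hz (UM9_nonneg bp b b0 M m j y)
    (UM9_le_two bp b b0 M m j y) (meas_UM9 bp b b0 M m j y) (hf.meas y) (hf.bdd y)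
  have h5 := mul_le_mul_of_nonneg_left (h3.trans h4) hNe
  refine h0.trans ((add_le_add h1 h0').trans ?_)
  have e1 : (N : ℝ) ^ ε * (1 / 2 * rw2 μ s N (NN72 N zt c) (UM9 μ s N bp b b0 M m j) f y + 2 * D * ρ + (N : ℝ) ^ (-K')) =
      (N : ℝ) ^ ε * (1 / 2 * rw2 μ s N (NN72 N zt c) (UM9 μ s N bp b b0 M m j) f y) + (N : ℝ) ^ ε * (2 * D * ρ) +
        (N : ℝ) ^ ε * (N : ℝ) ^ (-K') := by ring
  rw [e1, mul_add]
  linarith

/-- The integral of a linear combination. -/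
theorem int_lin90 {Ω ι : Type*} [MeasurableSpace Ω] {ν : Measure Ω} {J : Finset ι} {a1 a2 a3 a4 w : ℝ} {F G : ι → Ω → ℝ}
    {H K : Ω → ℝ} (hF : ∀ i ∈ J, Integrable (F i) ν) (hH : Integrable H ν) (hG : ∀ i ∈ J, Integrable (G i) ν)
    (hK : Integrable K ν) :
    ∫ x, (a1 * ∑ i ∈ J, w * F i x + a2 * H x + a3 * ∑ i ∈ J, w * G i x + a4 * K x) ∂ν =
      a1 * ∑ i ∈ J, w * ∫ x, F i x ∂ν + a2 * ∫ x, H x ∂ν + a3 * ∑ i ∈ J, w * ∫ x, G i x ∂ν + a4 * ∫ x, K x ∂ν := by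
  have i1 : Integrable (fun x => a1 * ∑ i ∈ J, w * F i x) ν :=
    (integrable_finsetSum _ fun i hi => (hF i hi).const_mul w).const_mul a1
  have i3 : Integrable (fun x => a3 * ∑ i ∈ J, w * G i x) ν :=
    (integrable_finsetSum _ fun i hi => (hG i hi).const_mul w).const_mul a3
  have i2 : Integrable (fun x => a2 * H x) ν := hH.const_mul a2
  have i4 : Integrable (fun x => a4 * K x) ν := hK.const_mul a4
  have i12 : Integrable (fun x => a1 * ∑ i ∈ J, w * F i x + a2 * H x) ν := i1.add i2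
  have i123 : Integrable (fun x => a1 * ∑ i ∈ J, w * F i x + a2 * H x + a3 * ∑ i ∈ J, w * G i x) ν := i12.add i3
  rw [integral_add i123 i4, integral_add i12 i3, integral_add i1 i2, integral_const_mul, integral_const_mul, integral_const_mul,
    integral_const_mul, integral_finsetSum _ fun i hi => (hF i hi).const_mul w,
    integral_finsetSum _ fun i hi => (hG i hi).const_mul w]
  simp only [integral_const_mul]

theorem sum_lin90 {ι : Type*} (J : Finset ι) (a K β : ℝ) (x : ι → ℝ) (h : ∑ _i ∈ J, β = 1) :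
    ∑ i ∈ J, (a * x i + K * β) = a * ∑ i ∈ J, x i + K := by
  rw [sum_add_distrib, ← mul_sum, ← mul_sum, h, mul_one]

/-- **THE REMAINDER AT THE CORNER.** -/
theorem rem90 (hy : y ≤ N) (hB : 0 ≤ B) (hR : 0 ≤ R) (he : 0 ≤ e0) (ht : |t| ≤ 1) (hb : b0 ≤ b) (hb1 : 1 ≤ b)
    (hM : 5 * M0 + 4 * (3 * B) ≤ 5 * M) (hP1 : 1 ≤ (N : ℝ) ^ ε)
    (hE : ∀ A, E0X μ s 2 N (Pn N y) (j + b) b (pB (j + b + b)) (2 * B / b) (uj72 μ s (Pn N y) δ B b0 j t A) ε K')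
    (hbp : j + 4 * b ≤ bp) (hz : bp ≤ zt) (hzc : zt ≤ c) (hcd : c ≤ d) (hf : Cls59 N cc d D f) (hD : 2 * D ≤ (N : ℝ) ^ K')
    {ρ : ℝ} (hρ0 : 0 ≤ ρ) (hρ : Real.exp tt * ∫ ω, gm (wj μ s N (Pn N y) δ B b0 j ω t) (nC μ s δ₁ (Pn N y) b0 j) ∂(Pm μ N) +
        (law μ {η | ¬ GW1 μ s N (Pn N y) δ δ₁ B R e0 b0 j η}).toReal ≤ ρ) :
    ∫ ω, RR (wj μ s N (Pn N y) δ B b0 j ω t) (J9 j b) (j + 4 * b) bp c (f y ω) B (Real.exp (-(5 * M0))) (e2F B R e0 M0 tt)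
        (fun m => ind72 (tw μ s N y δ B b0 j t M0 m bm (j - b)) ω)
        (fun m => ind72 (BadW μ s N (Pn N y) δ δ₁ B R e0 b0 j t m M0 tt) ω)
        (ind72 (tw μ s N y δ B b0 j t M0 bp bm (j - b)) ω) (ind72 (tw μ s N y δ B b0 j t M0 bp (j + b) (j + 4 * b)) ω)
        ∂(Pm μ N) ≤
      1 / 2 * B ^ 3 * (N : ℝ) ^ ε * ∑ m ∈ J9 j b, (b : ℝ)⁻¹ * rw2 μ s N (NN72 N zt c) (UA9 μ s N bp bm b M m j) f y +
      B ^ 3 * (N : ℝ) ^ ε * rw2 μ s N (NN72 N zt c) (UA9 μ s N bp bm b M (j + 4 * b) j) f y +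
      B ^ 3 * (N : ℝ) ^ ε * ∑ m ∈ J9 j b, (b : ℝ)⁻¹ * rw2 μ s N (NN72 N zt c) (UM9 μ s N bp b b0 M m j) f y +
      (B ^ 3 * (N : ℝ) ^ ε * (5 * (N : ℝ) ^ (-K') + 4 * D * ρ) +
        (8 * B ^ 3 * Real.exp (-(5 * M0)) + 2 * B ^ 2 * e2F B R e0 M0 tt) * (2 * D)) := by
  obtain ⟨S0⟩ := (inferInstance : Nonempty (Px (Pn N y)))
  have hD0 : 0 ≤ D := (abs_nonneg _).trans (hf.bdd y (fun _ => 0, ∅) S0)
  have hbr : (0 : ℝ) < b := by
    have : 0 < b := by omega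
    exact_mod_cast this
  have mw := meas_wj72 (μ := μ) (s := s) (N := N) (Q := Pn N y) δ B b0 j t
  have hTm : ∀ m i k S, MeasurableSet {ω | tw μ s N y δ B b0 j t M0 m i k ω S} := fun m i k S =>
    meas_tau90 (fun T => (measurable_pi_apply T).comp mw) m i k M0 S
  have hBm : ∀ m S, MeasurableSet {ω | BadW μ s N (Pn N y) δ δ₁ B R e0 b0 j t m M0 tt ω S} := fun m S =>
    meas_BadW δ δ₁ B R e0 b0 j t m M0 tt S
  have IP : ∀ {V : Env × Finset ℕ → Px (Pn N y) → ℝ}, (∀ S, Measurable fun ω => V ω S) → (∀ ω S, 0 ≤ V ω S) → (∀ ω S, V ω S ≤ 1) →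
      Integrable (fun ω => Pk (wj μ s N (Pn N y) δ B b0 j ω t) (kf bp c (f y ω)) (V ω)) (Pm μ N) := fun mV V0 V1 =>
    int_Pk90 mw mV V0 (a := 1) V1 (hf.meas y) (hf.bdd y) bp c
  unfold RR
  rw [int_lin90 (F := fun m ω => Pk (wj μ s N (Pn N y) δ B b0 j ω t) (kf bp c (f y ω)) fun S =>
      ind72 (tw μ s N y δ B b0 j t M0 m bm (j - b)) ω S * ind72 (tw μ s N y δ B b0 j t M0 bp bm (j - b)) ω S)
    (G := fun m ω => Pk (wj μ s N (Pn N y) δ B b0 j ω t) (kf bp c (f y ω)) fun S =>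
      ind72 (BadW μ s N (Pn N y) δ δ₁ B R e0 b0 j t m M0 tt) ω S * (ind72 (tw μ s N y δ B b0 j t M0 bp (j + b) (j + 4 * b)) ω S *
        ind72 (tw μ s N y δ B b0 j t M0 bp bm (j - b)) ω S))
    (H := fun ω => Pk (wj μ s N (Pn N y) δ B b0 j ω t) (kf bp c (f y ω)) fun S =>
      ind72 (tw μ s N y δ B b0 j t M0 (j + 4 * b) bm (j - b)) ω S * ind72 (tw μ s N y δ B b0 j t M0 bp bm (j - b)) ω S)
    (K := fun ω => Pk (wj μ s N (Pn N y) δ B b0 j ω t) (kf bp c (f y ω)) fun _ => 1)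
    (fun m _ => IP (fun S => (meas_ind72 (hTm m _ _) S).mul (meas_ind72 (hTm _ _ _) S))
        (fun ω S => mul_nonneg (ind72_nonneg _ _ _) (ind72_nonneg _ _ _))
        fun ω S => mul_le_one₀ (ind72_le_one _ _ _) (ind72_nonneg _ _ _) (ind72_le_one _ _ _))
    (IP (fun S => (meas_ind72 (hTm _ _ _) S).mul (meas_ind72 (hTm _ _ _) S))
        (fun ω S => mul_nonneg (ind72_nonneg _ _ _) (ind72_nonneg _ _ _))
        fun ω S => mul_le_one₀ (ind72_le_one _ _ _) (ind72_nonneg _ _ _) (ind72_le_one _ _ _))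
    (fun m _ => IP (fun S => (meas_ind72 (hBm m) S).mul ((meas_ind72 (hTm _ _ _) S).mul (meas_ind72 (hTm _ _ _) S)))
        (fun ω S => mul_nonneg (ind72_nonneg _ _ _) (mul_nonneg (ind72_nonneg _ _ _) (ind72_nonneg _ _ _)))
        fun ω S => mul_le_one₀ (ind72_le_one _ _ _) (mul_nonneg (ind72_nonneg _ _ _) (ind72_nonneg _ _ _))
          (mul_le_one₀ (ind72_le_one _ _ _) (ind72_nonneg _ _ _) (ind72_le_one _ _ _)))
    (IP (fun S => measurable_const) (fun _ _ => zero_le_one) fun _ _ => le_rfl)]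
  have hNe : 0 ≤ (N : ℝ) ^ ε := Real.rpow_nonneg (Nat.cast_nonneg N) ε
  have hc : ((J9 j b).card : ℝ) = b := by rw [card_J9]
  have one : ∑ m ∈ J9 j b, (b : ℝ)⁻¹ = 1 := by
    rw [sum_const, nsmul_eq_mul, hc, mul_inv_cancel₀ hbr.ne']
  have hB3 : 0 ≤ B ^ 3 := by positivity
  -- the four parts
  have p1 : ∑ m ∈ J9 j b, ((J9 j b).card : ℝ)⁻¹ * ∫ ω, Pk (wj μ s N (Pn N y) δ B b0 j ω t) (kf bp c (f y ω)) (fun S =>
      ind72 (tw μ s N y δ B b0 j t M0 m bm (j - b)) ω S * ind72 (tw μ s N y δ B b0 j t M0 bp bm (j - b)) ω S) ∂(Pm μ N) ≤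
      1 / 2 * (N : ℝ) ^ ε * ∑ m ∈ J9 j b, (b : ℝ)⁻¹ * rw2 μ s N (NN72 N zt c) (UA9 μ s N bp bm b M m j) f y +
        (N : ℝ) ^ ε * (N : ℝ) ^ (-K') := by
    rw [hc]
    have h1 : ∀ m ∈ J9 j b, (b : ℝ)⁻¹ * ∫ ω, Pk (wj μ s N (Pn N y) δ B b0 j ω t) (kf bp c (f y ω)) (fun S =>
        ind72 (tw μ s N y δ B b0 j t M0 m bm (j - b)) ω S * ind72 (tw μ s N y δ B b0 j t M0 bp bm (j - b)) ω S) ∂(Pm μ N) ≤
        1 / 2 * (N : ℝ) ^ ε * ((b : ℝ)⁻¹ * rw2 μ s N (NN72 N zt c) (UA9 μ s N bp bm b M m j) f y) +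
          (N : ℝ) ^ ε * (N : ℝ) ^ (-K') * (b : ℝ)⁻¹ := fun m hm => by
      have h2 := mem_Ioc.1 hm
      have h3 := mul_le_mul_of_nonneg_left (pasA90 (bm := bm) (m := m) hy hB ht hb hM hE hbp hz hzc hcd hf hD (by omega))
        (inv_nonneg.2 hbr.le)
      refine h3.trans (le_of_eq ?_)
      ring
    exact (sum_le_sum h1).trans (le_of_eq (sum_lin90 _ _ _ _ _ one))
  have p2 := pasA90 (bm := bm) (m := j + 4 * b) hy hB ht hb hM hE hbp hz hzc hcd hf hD (by omega)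
  have p3 : ∑ m ∈ J9 j b, ((J9 j b).card : ℝ)⁻¹ * ∫ ω, Pk (wj μ s N (Pn N y) δ B b0 j ω t) (kf bp c (f y ω)) (fun S =>
      ind72 (BadW μ s N (Pn N y) δ δ₁ B R e0 b0 j t m M0 tt) ω S * (ind72 (tw μ s N y δ B b0 j t M0 bp (j + b) (j + 4 * b)) ω S *
        ind72 (tw μ s N y δ B b0 j t M0 bp bm (j - b)) ω S)) ∂(Pm μ N) ≤
      1 / 2 * (N : ℝ) ^ ε * ∑ m ∈ J9 j b, (b : ℝ)⁻¹ * rw2 μ s N (NN72 N zt c) (UM9 μ s N bp b b0 M m j) f y +
        (N : ℝ) ^ ε * (2 * D * ρ + (N : ℝ) ^ (-K')) := by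
    rw [hc]
    have h1 : ∀ m ∈ J9 j b, (b : ℝ)⁻¹ * ∫ ω, Pk (wj μ s N (Pn N y) δ B b0 j ω t) (kf bp c (f y ω)) (fun S =>
      ind72 (BadW μ s N (Pn N y) δ δ₁ B R e0 b0 j t m M0 tt) ω S * (ind72 (tw μ s N y δ B b0 j t M0 bp (j + b) (j + 4 * b)) ω S *
        ind72 (tw μ s N y δ B b0 j t M0 bp bm (j - b)) ω S)) ∂(Pm μ N) ≤
        1 / 2 * (N : ℝ) ^ ε * ((b : ℝ)⁻¹ * rw2 μ s N (NN72 N zt c) (UM9 μ s N bp b b0 M m j) f y) +
          (N : ℝ) ^ ε * (2 * D * ρ + (N : ℝ) ^ (-K')) * (b : ℝ)⁻¹ := fun m hm => by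
      have h2 := mem_Ioc.1 hm
      have h3 := mul_le_mul_of_nonneg_left (pasM90 (bm := bm) (m := m) hy hB ht hb hM hP1 hE hbp hz hzc hcd hf hD hρ0 hρ (by omega))
        (inv_nonneg.2 hbr.le)
      refine h3.trans (le_of_eq ?_)
      ring
    exact (sum_le_sum h1).trans (le_of_eq (sum_lin90 _ _ _ _ _ one))
  have p4 : ∫ ω, Pk (wj μ s N (Pn N y) δ B b0 j ω t) (kf bp c (f y ω)) (fun _ => 1) ∂(Pm μ N) ≤ 2 * D := by
    have h1 := integral_mono (IP (V := fun _ _ => 1) (fun S => measurable_const) (fun _ _ => zero_le_one) fun _ _ => le_rfl)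
      (integrable_const (μ := Pm μ N) (2 * D)) fun ω =>
        (le_abs_self _).trans (abs_Pk72 _ (fun _ => zero_le_one) (fun _ => le_rfl) (hf.bdd y ω) bp c)
    rw [integral_const, measureReal_def, measure_univ, ENNReal.toReal_one, one_smul] at h1
    exact h1
  have q1 := mul_le_mul_of_nonneg_left p1 hB3
  have q2 := mul_le_mul_of_nonneg_left p2 (by positivity : 0 ≤ 2 * B ^ 3)
  have q3 := mul_le_mul_of_nonneg_left p3 (by positivity : 0 ≤ 2 * B ^ 3)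
  have q4 := mul_le_mul_of_nonneg_left p4 (add_nonneg (by positivity : 0 ≤ 8 * B ^ 3 * Real.exp (-(5 * M0)))
    (mul_nonneg (by positivity : 0 ≤ 2 * B ^ 2) (e2F_nonneg (M0 := M0) (tt := tt) hB hR he)))
  refine (add_le_add (add_le_add (add_le_add q1 q2) q3) q4).trans (le_of_eq ?_)
  ring

/-- **THE MASS OF THE OWN EVENT AT THE CORNER.** -/
theorem om90 (hy : y ≤ N) (hB : 0 ≤ B) (ht : |t| ≤ 1) (hb : b0 ≤ b) (hM : 5 * M0 + 4 * (3 * B) ≤ 5 * M)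
    (hE : ∀ A, E0X μ s 2 N (Pn N y) (j + b) b (pB (j + b + b)) (2 * B / b) (uj72 μ s (Pn N y) δ B b0 j t A) ε K')
    (hbm : bm ≤ j) (hbp : j + 4 * b ≤ bp) (hz : bp ≤ zt) (hzc : zt ≤ c) (hcd : c ≤ d) (hf : Cls59 N cc d D f)
    (hD : 2 * D ≤ (N : ℝ) ^ K') :
    OM72 μ s N (Pn N y) δ B b0 j t bm (j - b) bp c (f y) ≤
      (N : ℝ) ^ ε * (1 / 2 * rw2 μ s N (NN72 N zt c) (tI μ s N bp bm (j - b) M) f y + (N : ℝ) ^ (-K')) +
        2 * D * Real.exp (-(5 * M0)) := by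
  obtain ⟨S0⟩ := (inferInstance : Nonempty (Px (Pn N y)))
  have hD0 : 0 ≤ D := (abs_nonneg _).trans (hf.bdd y (fun _ => 0, ∅) S0)
  have mw := meas_wj72 (μ := μ) (s := s) (N := N) (Q := Pn N y) δ B b0 j t
  have hTm : ∀ S, MeasurableSet {ω | tw μ s N y δ B b0 j t M0 bp bm (j - b) ω S} := fun S =>
    meas_tau90 (fun T => (measurable_pi_apply T).comp mw) bp bm (j - b) M0 S
  have hpt : ∀ ω, Pk (wj μ s N (Pn N y) δ B b0 j ω t) (kf bp c (f y ω)) (oB72 (wj μ s N (Pn N y) δ B b0 j ω t) bm (j - b) bp) ≤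
      Pk (wj μ s N (Pn N y) δ B b0 j ω t) (kf bp c (f y ω)) (fun S => ind72 (tw μ s N y δ B b0 j t M0 bp bm (j - b)) ω S) +
        2 * D * Real.exp (-(5 * M0)) := fun ω => by
    have h1 := told (w := wj μ s N (Pn N y) δ B b0 j ω t) (k := kf bp c (f y ω)) (q1 := pJ (Q := Pn N y) 0 bp)
      (pB := pJ (Q := Pn N y) bm bp) (pm := pJ (Q := Pn N y) 0 bp) (kf_nonneg bp c (f y ω))
      (kf_mp (hz.trans hzc) (rk_cls hf hcd y ω)) (crs_B (by omega)) (fun _ _ h => h)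
      (φ := mI (wj μ s N (Pn N y) δ B b0 j ω t) (pJ 0 bp) bm (j - b)) (R := fun _ => 1)
      (G := fun S => ind72 (tw μ s N y δ B b0 j t M0 bp bm (j - b)) ω S + Real.exp (-(5 * M0)))
      (fun _ _ _ => rfl) (fun _ => zero_le_one) fun S => by
        rw [← cE2_mI, ← ii_ind90]
        exact cE2_tau90 _ _ _ _ _ S
    simp only [mul_one] at h1
    have h2 := abs_Pk72 (wj μ s N (Pn N y) δ B b0 j ω t) (φ := fun _ => 1) (fun _ => zero_le_one) (fun _ => le_rfl) (hf.bdd y ω) bp c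
    have h3 : Pk (wj μ s N (Pn N y) δ B b0 j ω t) (kf bp c (f y ω)) (fun _ => Real.exp (-(5 * M0))) =
        Real.exp (-(5 * M0)) * Pk (wj μ s N (Pn N y) δ B b0 j ω t) (kf bp c (f y ω)) (fun _ => 1) := by
      rw [← Pk_smul]
      simp only [mul_one]
    rw [Pk_add, h3] at h1
    have h4 := mul_le_mul_of_nonneg_left ((le_abs_self _).trans h2) (Real.exp_pos (-(5 * M0))).le
    have h5 : Pk (wj μ s N (Pn N y) δ B b0 j ω t) (kf bp c (f y ω)) (oB72 (wj μ s N (Pn N y) δ B b0 j ω t) bm (j - b) bp) =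
      Pk (wj μ s N (Pn N y) δ B b0 j ω t) (kf bp c (f y ω)) (fun x => cE (wj μ s N (Pn N y) δ B b0 j ω t) (pJ bm bp)
        (mI (wj μ s N (Pn N y) δ B b0 j ω t) (pJ 0 bp) bm (j - b)) x) := rfl
    rw [h5]
    linarith
  have I1 : Integrable (fun ω => Pk (wj μ s N (Pn N y) δ B b0 j ω t) (kf bp c (f y ω))
      (oB72 (wj μ s N (Pn N y) δ B b0 j ω t) bm (j - b) bp)) (Pm μ N) :=
    int_Pk90 mw (fun S => meas_oB72 mw bm (j - b) bp S) (fun ω S => oB72_nonneg _ _ _ _ _) (a := 1) (fun ω S => oB72_le_one _ _ _ _ _)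
      (hf.meas y) (hf.bdd y) bp c
  have I2 : Integrable (fun ω => Pk (wj μ s N (Pn N y) δ B b0 j ω t) (kf bp c (f y ω))
      (fun S => ind72 (tw μ s N y δ B b0 j t M0 bp bm (j - b)) ω S)) (Pm μ N) :=
    int_Pk90 mw (fun S => meas_ind72 hTm S) (fun ω S => ind72_nonneg _ _ _) (a := 1) (fun ω S => ind72_le_one _ _ _)
      (hf.meas y) (hf.bdd y) bp c
  have h1 := integral_mono I1 (I2.add (integrable_const (μ := Pm μ N) (2 * D * Real.exp (-(5 * M0))))) hpt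
  have h2 := integral_add I2 (integrable_const (μ := Pm μ N) (2 * D * Real.exp (-(5 * M0))))
  simp only [Pi.add_apply] at h1
  rw [h2, integral_const, measureReal_def, measure_univ, ENNReal.toReal_one, one_smul] at h1
  have h3 := pas090 (bm := bm) (δ := δ) hy hB ht hb hM hE hbp hz hzc hcd hf hD
  unfold OM72
  linarith

end Row

end

end Pool.Agent.W_7d29a1_C0.T0G90
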