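import Pool.Agent.W_7d29a1_C0.Tf70
import Pool.Agent.W_7d29a1_C0.T0D92
import Pool.Agent.W_7d29a1_C0.Num46C
import Pool.Agent.W_7d29a1_C0.Num46P
import Pool.Agent.W_7d29a1_C0.AsmC96

/-!
MP_7d29a1_pr, [CURV0] (helper92): leaf (T), own block. THE NUMBERS OF T_0L: the gains `al92 ^ 2` and `(4 B ^ 3 P) ^ 2` against the sizes
`S092`, `SM92`, `SA92` (`T0D92`) in the regime `Reg46` with a base `Bs46`, and at the frame (`t0n92`).
-/

set_option autoImplicit false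

namespace Pool.Agent.W_7d29a1_C0.T0N92

open Finset Filter Topology MeasureTheory
open Pool.Agent.W_7d29a1_C0 Pool.Agent.W_7d29a1_C0.Tf70

noncomputable section

variable {E w : ℕ → ℝ} {c₀ Θ δ a ε N c : ℝ} {b s r : ℕ}

/-! ### Prices at comparable scales -/

theorem pc_le92 (R : Reg46 E w c₀ Θ δ a ε N) {k P : ℝ} (hk : 0 ≤ k) (hP : P ≤ N ^ k) {t T : ℕ} (hT : 0 < T)
    (h1 : N ^ (-k) * T ≤ t) (h2 : t ≤ T) : P * (E t)⁻¹ ≤ N ^ (2 * k + ε) / E T := by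
  have hN := R.N0
  have hT' : (0 : ℝ) < T := by exact_mod_cast hT
  have ht' : (0 : ℝ) < t := lt_of_lt_of_le (by positivity) h1
  have ht : 1 ≤ t := by exact_mod_cast ht'
  have hEt := R.Epos t
  have hET := R.Epos T
  have h3 := R.half t T ht h2
  have h6 : 1 ≤ N ^ k := Real.one_le_rpow R.N1.le hk
  have h5 : (T : ℝ) / t ≤ N ^ k := by
    rw [div_le_iff₀ ht']
    have e : N ^ k * (N ^ (-k) * T) = T := by
      rw [← mul_assoc, ← Real.rpow_add hN, add_neg_cancel, Real.rpow_zero, one_mul]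
    calc (T : ℝ) = N ^ k * (N ^ (-k) * T) := e.symm
      _ ≤ N ^ k * t := by gcongr
  have h4 : √((T : ℝ) / t) ≤ N ^ k := by
    calc √((T : ℝ) / t) ≤ √(N ^ k * N ^ k) := Real.sqrt_le_sqrt (by nlinarith)
      _ = N ^ k := Real.sqrt_mul_self (by positivity)
  have h7 : E T ≤ N ^ (ε + k) * E t := by
    rw [Real.rpow_add hN]
    calc E T ≤ _ := h3
      _ ≤ N ^ ε * N ^ k * E t := by gcongr
  rw [le_div_iff₀ hET]
  calc P * (E t)⁻¹ * E T ≤ N ^ k * (E t)⁻¹ * (N ^ (ε + k) * E t) := by gcongr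
    _ = N ^ k * N ^ (ε + k) := by field_simp
    _ = N ^ (2 * k + ε) := by
        rw [← Real.rpow_add hN]
        congr 1
        ring

theorem XA_le92 (R : Reg46 E w c₀ Θ δ a ε N) {k P : ℝ} (hk : 0 ≤ k) (hP : P ≤ N ^ k) {tD : ℕ → ℕ} (hb : 1 ≤ b)
    (hs : 1 ≤ s) (hD : ∀ D ∈ Ico (8 * b) s, N ^ (-k) * D ≤ tD D ∧ tD D ≤ D) :
    XA92 (fun t => P * (E t)⁻¹) tD b s ≤ 6 * N ^ (2 * k + 2 * ε) * (s / E s) := by
  have hN := R.N0
  have h1 : ∑ D ∈ Ico (8 * b) s, P * (E (tD D))⁻¹ ≤ ∑ D ∈ Ico (8 * b) s, N ^ (2 * k + ε) * (1 / E (max D 1)) :=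
    sum_le_sum fun D hD' => by
      have hD1 : 1 ≤ D := by have := (mem_Ico.1 hD').1; omega
      rw [max_eq_left hD1, mul_one_div]
      exact pc_le92 R hk hP hD1 (hD D hD').1 (hD D hD').2
  have h2 : ∑ D ∈ Ico (8 * b) s, N ^ (2 * k + ε) * (1 / E (max D 1)) ≤ ∑ D ∈ range s, N ^ (2 * k + ε) * (1 / E (max D 1)) :=
    sum_le_sum_of_subset_of_nonneg (fun D h => mem_range.2 (mem_Ico.1 h).2) fun D _ _ => by
      have := R.Epos (max D 1)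
      positivity
  have h2' := (h1.trans h2).trans_eq (mul_sum (range s) (fun D => 1 / E (max D 1)) (N ^ (2 * k + ε))).symm
  have h3 := GS4.sum_inv_le (E := E) R.Epos (K := N ^ ε) (by positivity) (fun t r h1 h2 => R.half t r h1 h2) (s := 1) (s' := s)
    le_rfl hs
  have hp : 0 < N ^ (2 * k + ε) := Real.rpow_pos_of_pos hN _
  unfold XA92
  calc 2 * ∑ D ∈ Ico (8 * b) s, P * (E (tD D))⁻¹ ≤ 2 * (N ^ (2 * k + ε) * (3 * N ^ ε * (s / E s))) := by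
        refine mul_le_mul_of_nonneg_left (h2'.trans ?_) (by norm_num)
        exact mul_le_mul_of_nonneg_left h3 hp.le
    _ = 6 * (N ^ (2 * k + ε) * N ^ ε) * (s / E s) := by ring
    _ = _ := by
        rw [← Real.rpow_add hN]
        congr 3
        ring

/-! ### Three more monomials -/

/-- (m1) `b / (E_r E_b ^ 2)`. -/
theorem m1_92 (R : Reg46 E w c₀ Θ δ a ε N) (h : Bs46 E δ c N b s r) : (b : ℝ) * (1 / (E r * E b ^ 2)) ≤ N ^ (Θ + ε - c / 4) := by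
  have hb' := h.hb.pos R.N1
  have hE := R.Epos r
  have hE' := R.Epos b
  refine le_pow46 R.N1 (by positivity) ?_
  simp (disch := positivity) only [Real.logb_mul, Real.logb_div, Real.logb_pow, Real.logb_one, Nat.cast_ofNat]
  linarith [h.lup R, R.lkap' h.hb, (h.l8 R).2, h.c0]

/-- (m2) `s / (E_r E_b ^ 3)`. -/
theorem m2_92 (R : Reg46 E w c₀ Θ δ a ε N) (h : Bs46 E δ c N b s r) : (s : ℝ) * (1 / (E r * E b ^ 3)) ≤ N ^ (Θ + 2 * ε - c / 4) := by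
  have hs' := h.hs.pos R.N1
  have hE := R.Epos r
  have hE' := R.Epos b
  refine le_pow46 R.N1 (by positivity) ?_
  simp (disch := positivity) only [Real.logb_mul, Real.logb_div, Real.logb_pow, Real.logb_one, Nat.cast_ofNat]
  linarith [h.lup R, R.lkap' h.hs, h.ls2 R, (h.l8 R).1, h.c0, R.ε0]

/-- (m3) `r / (E_r E_b ^ 4)`. -/
theorem m3_92 (R : Reg46 E w c₀ Θ δ a ε N) (h : Bs46 E δ c N b s r) : (r : ℝ) * (1 / (E r * E b ^ 4)) ≤ N ^ (Θ + ε - c / 4) := by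
  have hr' := h.hr.pos R.N1
  have hE := R.Epos r
  have hE' := R.Epos b
  refine le_pow46 R.N1 (by positivity) ?_
  simp (disch := positivity) only [Real.logb_mul, Real.logb_div, Real.logb_pow, Real.logb_one, Nat.cast_ofNat]
  linarith [h.lpin R, R.lkap' h.hr, h.c0]

/-- (m4) `b / (E_r E_s)`. -/
theorem m4_92 (R : Reg46 E w c₀ Θ δ a ε N) (h : Bs46 E δ c N b s r) : (b : ℝ) * (1 / (E r * E s)) ≤ N ^ (Θ + ε - c / 4) := by
  have hE := R.Epos r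
  have hE' := R.Epos s
  have hb0 := h.hb.pos R.N1
  refine le_pow46 R.N1 (by positivity) ?_
  simp (disch := positivity) only [Real.logb_mul, Real.logb_div, Real.logb_one]
  linarith [h.lup R, h.ls1 R, R.lkap' h.hb, h.cδ, R.lq' h.hr, h.c0]

/-- (m5) `r / (E_r E_s ^ 3)`. -/
theorem m5_92 (R : Reg46 E w c₀ Θ δ a ε N) (h : Bs46 E δ c N b s r) : (r : ℝ) * (1 / (E r * E s ^ 3)) ≤ N ^ (Θ + ε - c / 4) := by
  have hr' := h.hr.pos R.N1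
  have hE := R.Epos r
  have hE' := R.Epos s
  refine le_pow46 R.N1 (by positivity) ?_
  simp (disch := positivity) only [Real.logb_mul, Real.logb_div, Real.logb_pow, Real.logb_one, Nat.cast_ofNat]
  linarith [h.ls3 R, R.lkap' h.hr, (h.l8 R).2, h.c0]

/-! ### The gain -/

theorem al_sq92 {P B Q β pb : ℝ} (hQ : 0 ≤ Q) (hβ : 0 ≤ β) :
    ((P * √(28 * Q * (B / 2) ^ 2 / β) * B ^ 2 / 2 + 5 * B ^ 3 * pb) * P) ^ 2 ≤ 50 * (P ^ 2 * B ^ 6) * (P ^ 2 * (Q / β) + pb ^ 2) := by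
  obtain ⟨u, hu⟩ : ∃ u, u = √(28 * Q * (B / 2) ^ 2 / β) := ⟨_, rfl⟩
  have hu2 : u ^ 2 = 7 * B ^ 2 * (Q / β) := by
    rw [hu, Real.sq_sqrt (by positivity)]
    ring
  rw [← hu]
  have h1 : ((P * u * B ^ 2 / 2 + 5 * B ^ 3 * pb) * P) ^ 2 ≤ P ^ 2 * (2 * (P * u * B ^ 2 / 2) ^ 2 + 2 * (5 * B ^ 3 * pb) ^ 2) := by
    have h2 : (P * u * B ^ 2 / 2 + 5 * B ^ 3 * pb) ^ 2 ≤ 2 * (P * u * B ^ 2 / 2) ^ 2 + 2 * (5 * B ^ 3 * pb) ^ 2 := by
      nlinarith [sq_nonneg (P * u * B ^ 2 / 2 - 5 * B ^ 3 * pb)]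
    calc _ = P ^ 2 * (P * u * B ^ 2 / 2 + 5 * B ^ 3 * pb) ^ 2 := by ring
      _ ≤ _ := mul_le_mul_of_nonneg_left h2 (sq_nonneg _)
  refine h1.trans ?_
  have e1 : P ^ 2 * (2 * (P * u * B ^ 2 / 2) ^ 2 + 2 * (5 * B ^ 3 * pb) ^ 2) =
      7 / 2 * (P ^ 2 * B ^ 6) * (P ^ 2 * (Q / β)) + 50 * (P ^ 2 * B ^ 6) * pb ^ 2 := by
    have : (P * u * B ^ 2 / 2) ^ 2 = P ^ 2 * u ^ 2 * B ^ 4 / 4 := by ring
    rw [this, hu2]
    ring
  rw [e1]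
  have h3 : 0 ≤ P ^ 2 * B ^ 6 * (P ^ 2 * (Q / β)) := by positivity
  nlinarith

section gain

variable (R : Reg46 E w c₀ Θ δ a ε N) (h : Bs46 E δ c N b s r) {K P B Q q : ℝ} (hK : 1 ≤ K) (hP0 : 0 ≤ P) (hP : P ≤ K)
  (hB0 : 0 ≤ B) (hB : B ≤ K)

include R h hK hP0 hP hB0 hB

theorem al_le92 (hQ0 : 0 ≤ Q) (hQ : Q ≤ K * w b) :
    al92 P B Q b (P * (E b)⁻¹) ^ 2 ≤ 50 * K ^ 11 * (w b / b + 1 / E b ^ 2) := by
  have hN := R.N0
  have hb0 := h.hb.pos R.N1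
  have hE := R.Epos b
  have hw := R.w0 b (h.hb.npos R.N1)
  refine (al_sq92 (P := P) (B := B) (pb := P * (E b)⁻¹) hQ0 hb0.le).trans ?_
  have h1 : P ^ 2 * (Q / b) ≤ K ^ 3 * (w b / b) := by
    calc P ^ 2 * (Q / b) ≤ K ^ 2 * (K * w b / b) := by gcongr
      _ = _ := by ring
  have h2 : (P * (E b)⁻¹) ^ 2 ≤ K ^ 3 * (1 / E b ^ 2) := by
    calc (P * (E b)⁻¹) ^ 2 = P ^ 2 * (1 / E b ^ 2) := by
          field_simp
      _ ≤ K ^ 3 * (1 / E b ^ 2) := by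
          have h3 : P ^ 2 ≤ K ^ 3 := (pow_le_pow_left₀ hP0 hP 2).trans (pow_le_pow_right₀ hK (by norm_num))
          gcongr
  calc 50 * (P ^ 2 * B ^ 6) * (P ^ 2 * (Q / b) + (P * (E b)⁻¹) ^ 2) ≤
        50 * (K ^ 2 * K ^ 6) * (K ^ 3 * (w b / b) + K ^ 3 * (1 / E b ^ 2)) := by gcongr
    _ = _ := by ring

omit R h in
theorem be_le92 : (4 * B ^ 3 * P) ^ 2 ≤ 16 * K ^ 8 := by
  calc (4 * B ^ 3 * P) ^ 2 ≤ (4 * K ^ 3 * K) ^ 2 := by gcongr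
    _ = _ := by ring

end gain

/-- The products of the gain with the four monomials of `S0`. -/
theorem g_S0_92 (R : Reg46 E w c₀ Θ δ a ε N) (h : Bs46 E δ c N b s r) :
    (w b / b + 1 / E b ^ 2) * (s * (1 / (E r * E s)) + r * (1 / (E r * E s ^ 2))) ≤ 4 * N ^ (Θ + 3 * ε - c / 4) := by
  have hN := R.N1.le
  have hc := h.c0
  have hε := R.ε0
  have hδ := R.δ0
  have e1 := (z1 R h).trans (Real.rpow_le_rpow_of_exponent_le hN (show Θ + 3 * ε - c / 4 ≤ Θ + 3 * ε - c / 4 by linarith))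
  have e2 := (i2 R h h.hs h.sr).trans (Real.rpow_le_rpow_of_exponent_le hN (show Θ - c + 2 * ε ≤ Θ + 3 * ε - c / 4 by linarith))
  have e3 := (z4a R h).trans (Real.rpow_le_rpow_of_exponent_le hN (show Θ + 2 * ε - c / 2 ≤ Θ + 3 * ε - c / 4 by linarith))
  have e4 := (i5a R h le_rfl).trans
    (Real.rpow_le_rpow_of_exponent_le hN (show Θ + ε - c - δ / 8 ≤ Θ + 3 * ε - c / 4 by linarith))
  calc _ = (s : ℝ) * ((w b / b) / (E r * E s)) + (s : ℝ) * ((1 / E b ^ 2) / (E r * E s)) +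
        (r : ℝ) * ((w b / b) / (E r * E s ^ 2)) + (r : ℝ) * ((1 / E b ^ 2) / (E r * E s ^ 2)) := by ring
    _ ≤ _ := by linarith

/-- The gain is at most `N ^ (1 + 2 ε)`. -/
theorem g_one92 (R : Reg46 E w c₀ Θ δ a ε N) (h : Bs46 E δ c N b s r) : w b / b + 1 / E b ^ 2 ≤ N ^ (1 + 2 * ε) := by
  have hN := R.N0
  have hb0 := h.hb.pos R.N1
  have hb1 : (1 : ℝ) ≤ b := by exact_mod_cast h.hb.npos R.N1
  have hE := R.Epos b
  have hw := R.w0 b (h.hb.npos R.N1)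
  have h1 : w b ≤ N ^ (1 + ε) := by
    refine le_pow46 R.N1 hw ?_
    have hc0 : 0 < c₀ * δ := mul_pos R.c₀0 R.δ0
    linarith [R.lw h.hb, R.lE3 h.hb, R.ε0]
  have h2 : w b / b ≤ N ^ (1 + ε) := (div_le_self hw.le hb1).trans h1
  have h3 : 1 / E b ^ 2 ≤ 1 := by
    rw [div_le_one (by positivity)]
    exact one_le_pow₀ (R.E1 b)
  have h4 : (1 : ℝ) ≤ N ^ (1 + ε) := Real.one_le_rpow R.N1.le (by linarith [R.ε0])
  calc w b / b + 1 / E b ^ 2 ≤ 2 * N ^ (1 + ε) := by linarith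
    _ ≤ N ^ ε * N ^ (1 + ε) := by
        gcongr
        linarith [R.K]
    _ = _ := by
        rw [← Real.rpow_add hN]
        congr 1
        ring

/-- Absorption of the losses. -/
theorem absorb92 (R : Reg46 E w c₀ Θ δ a ε N) {k x C : ℝ} (i j : ℕ) (hC : C ≤ 16 ^ 6)
    (hx : 2 * x + i * k + (j + 14) * ε ≤ c / 4) :
    C * ((N ^ k) ^ i * (N ^ ε) ^ j * N ^ (Θ + 5 * ε - c / 4)) ≤ N ^ (Θ - 2 * x) / 512 := by
  have hN := R.N0
  have hL := R.K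
  have hpL : 0 < N ^ ε := Real.rpow_pos_of_pos hN _
  have h1 : C ≤ (N ^ ε) ^ 6 := hC.trans (pow_le_pow_left₀ (by norm_num) hL 6)
  have h2 : (512 : ℝ) ≤ (N ^ ε) ^ 3 := le_trans (by norm_num) (pow_le_pow_left₀ (by norm_num) hL 3)
  have e1 : (N ^ k) ^ i = N ^ (k * i) := by rw [← Real.rpow_natCast, ← Real.rpow_mul hN.le]
  have e2 : ∀ n : ℕ, (N ^ ε) ^ n = N ^ (ε * n) := fun n => by rw [← Real.rpow_natCast, ← Real.rpow_mul hN.le]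
  rw [le_div_iff₀ (by norm_num)]
  calc C * ((N ^ k) ^ i * (N ^ ε) ^ j * N ^ (Θ + 5 * ε - c / 4)) * 512 ≤
        (N ^ ε) ^ 6 * ((N ^ k) ^ i * (N ^ ε) ^ j * N ^ (Θ + 5 * ε - c / 4)) * (N ^ ε) ^ 3 := by gcongr
    _ = N ^ (ε * (6 : ℕ) + (k * i + ε * j + (Θ + 5 * ε - c / 4)) + ε * (3 : ℕ)) := by
        rw [e1, e2, e2, e2, ← Real.rpow_add hN, ← Real.rpow_add hN, ← Real.rpow_add hN, ← Real.rpow_add hN]
    _ ≤ N ^ (Θ - 2 * x) := by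
        refine Real.rpow_le_rpow_of_exponent_le R.N1.le ?_
        push_cast
        linarith

theorem tiny92 (R : Reg46 E w c₀ Θ δ a ε N) {k x C y : ℝ} (i : ℕ) (hC : C ≤ 16 ^ 6) (hx : i * k + y + 9 * ε ≤ Θ - 2 * x) :
    C * ((N ^ k) ^ i * N ^ y) ≤ N ^ (Θ - 2 * x) / 512 := by
  have hN := R.N0
  have hL := R.K
  have hpL : 0 < N ^ ε := Real.rpow_pos_of_pos hN _
  have h1 : C ≤ (N ^ ε) ^ 6 := hC.trans (pow_le_pow_left₀ (by norm_num) hL 6)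
  have h2 : (512 : ℝ) ≤ (N ^ ε) ^ 3 := le_trans (by norm_num) (pow_le_pow_left₀ (by norm_num) hL 3)
  have e1 : (N ^ k) ^ i = N ^ (k * i) := by rw [← Real.rpow_natCast, ← Real.rpow_mul hN.le]
  have e2 : ∀ n : ℕ, (N ^ ε) ^ n = N ^ (ε * n) := fun n => by rw [← Real.rpow_natCast, ← Real.rpow_mul hN.le]
  rw [le_div_iff₀ (by norm_num)]
  calc C * ((N ^ k) ^ i * N ^ y) * 512 ≤ (N ^ ε) ^ 6 * ((N ^ k) ^ i * N ^ y) * (N ^ ε) ^ 3 := by gcongr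
    _ = N ^ (ε * (6 : ℕ) + (k * i + y) + ε * (3 : ℕ)) := by
        rw [e1, e2, e2, ← Real.rpow_add hN, ← Real.rpow_add hN, ← Real.rpow_add hN]
    _ ≤ N ^ (Θ - 2 * x) := by
        refine Real.rpow_le_rpow_of_exponent_le R.N1.le ?_
        push_cast
        linarith

section main

variable (R : Reg46 E w c₀ Θ δ a ε N) (h : Bs46 E δ c N b s r) {k x P B Q q er : ℝ} (hk : 0 ≤ k) (hx0 : 0 ≤ x)
  (hx : 2 * x + 40 * k + 40 * ε ≤ c / 4) (hP0 : 0 ≤ P) (hP : P ≤ N ^ k) (hB0 : 0 ≤ B) (hB : B ≤ N ^ k) (hq0 : 0 ≤ q)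
  (hq : q ≤ N ^ k) {tr ts tb : ℕ} (htr : N ^ (-k) * r ≤ tr) (htr' : tr ≤ r)

include R h hk hx0 hx hP0 hP hB0 hB hq0 hq htr htr'

/-- **The family `U0`.** -/
theorem num_S0_92 (hQ0 : 0 ≤ Q) (hQ : Q ≤ N ^ k * w b) (hts : N ^ (-k) * s ≤ ts) (hts' : ts ≤ s) (her : er ≤ N ^ (-8 : ℝ)) :
    al92 P B Q b (P * (E b)⁻¹) ^ 2 * S092 (fun t => P * (E t)⁻¹) q er tr ts r s ≤ N ^ (Θ - 2 * x) / 256 := by
  have hN := R.N0
  have hε := R.ε0
  have hr' := h.hr.pos R.N1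
  have hs' := h.hs.pos R.N1
  have hE := R.Epos r
  have hE' := R.Epos s
  have hEb := R.Epos b
  have hw := R.w0 b (h.hb.npos R.N1)
  have hb0 := h.hb.pos R.N1
  have hrN : (r : ℝ) ≤ N := h.hr.hi
  have hδ1 : δ ≤ 1 := (h.hb.lx R.N1).trans (h.hb.lx1 R.N1)
  have hcδ := h.cδ
  obtain ⟨K, hKd⟩ : ∃ K, K = N ^ k := ⟨_, rfl⟩
  obtain ⟨L, hLd⟩ : ∃ L, L = N ^ ε := ⟨_, rfl⟩
  have hK : 1 ≤ K := by rw [hKd]; exact Real.one_le_rpow R.N1.le hk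
  have hL : 16 ≤ L := by rw [hLd]; exact R.K
  have hν : N ^ (2 * k + ε) = K ^ 2 * L := by
    rw [hKd, hLd, Real.rpow_add hN, ← Real.rpow_natCast (N ^ k), ← Real.rpow_mul hN.le]
    congr 2
    push_cast
    ring
  have p1 := pc_le92 R hk hP (h.hr.npos R.N1) htr htr'
  have p2 := pc_le92 R hk hP (h.hs.npos R.N1) hts hts'
  rw [hν] at p1 p2
  have hP' := hP
  have hB' := hB
  have hq' := hq
  have hQ' := hQ
  rw [← hKd] at hP' hB' hq' hQ'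
  have hal := al_le92 R h hK hP0 hP' hB0 hB' hQ0 hQ'
  have hg := g_S0_92 R h
  have hg1 := g_one92 R h
  have hG : N ^ (Θ + 3 * ε - c / 4) ≤ N ^ (Θ + 5 * ε - c / 4) := Real.rpow_le_rpow_of_exponent_le R.N1.le (by linarith)
  obtain ⟨G, hGd⟩ : ∃ G, G = N ^ (Θ + 5 * ε - c / 4) := ⟨_, rfl⟩
  rw [← hGd] at hG
  have hG0 : 0 < G := by rw [hGd]; exact Real.rpow_pos_of_pos hN _
  have q1 : 0 ≤ P * (E tr)⁻¹ := mul_nonneg hP0 (inv_nonneg.2 (R.Epos _).le)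
  have q2 : 0 ≤ P * (E ts)⁻¹ := mul_nonneg hP0 (inv_nonneg.2 (R.Epos _).le)
  have hK2 : 1 ≤ K ^ 2 * L := one_le_mul_of_one_le_of_one_le (one_le_pow₀ hK) (by linarith)
  have m1 : s * (9 * q ^ 2 * (P * (E tr)⁻¹) * (P * (E ts)⁻¹)) + r * (9 * q ^ 2 * (P * (E tr)⁻¹) * (P * (E ts)⁻¹) ^ 2) ≤
      9 * K ^ 2 * (K ^ 2 * L) ^ 3 * (s * (1 / (E r * E s)) + r * (1 / (E r * E s ^ 2))) := by
    have a1 : (P * (E tr)⁻¹) * (P * (E ts)⁻¹) ≤ (K ^ 2 * L / E r) * (K ^ 2 * L / E s) := mul_le_mul p1 p2 q2 (by positivity)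
    have a2 : (P * (E tr)⁻¹) * (P * (E ts)⁻¹) ^ 2 ≤ (K ^ 2 * L / E r) * (K ^ 2 * L / E s) ^ 2 :=
      mul_le_mul p1 (pow_le_pow_left₀ q2 p2 2) (by positivity) (by positivity)
    have a3 : (K ^ 2 * L / E r) * (K ^ 2 * L / E s) ≤ (K ^ 2 * L) ^ 3 * (1 / (E r * E s)) := by
      calc (K ^ 2 * L / E r) * (K ^ 2 * L / E s) = (K ^ 2 * L) ^ 2 * (1 / (E r * E s)) := by field_simp
        _ ≤ _ := by
            refine mul_le_mul_of_nonneg_right ?_ (by positivity)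
            exact pow_le_pow_right₀ hK2 (by norm_num)
    have a4 : (K ^ 2 * L / E r) * (K ^ 2 * L / E s) ^ 2 = (K ^ 2 * L) ^ 3 * (1 / (E r * E s ^ 2)) := by field_simp
    have a5 : q ^ 2 ≤ K ^ 2 := pow_le_pow_left₀ hq0 hq' 2
    calc _ = 9 * q ^ 2 * (s * ((P * (E tr)⁻¹) * (P * (E ts)⁻¹)) + r * ((P * (E tr)⁻¹) * (P * (E ts)⁻¹) ^ 2)) := by ring
      _ ≤ 9 * K ^ 2 * (s * ((K ^ 2 * L) ^ 3 * (1 / (E r * E s))) + r * ((K ^ 2 * L) ^ 3 * (1 / (E r * E s ^ 2)))) := by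
          have b1 := a1.trans a3
          have b2 := a2.trans a4.le
          gcongr
      _ = _ := by ring
  have hS : S092 (fun t => P * (E t)⁻¹) q er tr ts r s ≤
      9 * K ^ 2 * (K ^ 2 * L) ^ 3 * (s * (1 / (E r * E s)) + r * (1 / (E r * E s ^ 2))) + 2 * N * N ^ (-8 : ℝ) := by
    unfold S092
    have a6 : 2 * r * er ≤ 2 * N * N ^ (-8 : ℝ) := by
      calc 2 * r * er ≤ 2 * r * N ^ (-8 : ℝ) := by gcongr
        _ ≤ _ := by gcongr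
    linarith
  have hg0 : 0 ≤ w b / b + 1 / E b ^ 2 := by positivity
  have hS0 : 0 ≤ 9 * K ^ 2 * (K ^ 2 * L) ^ 3 * (s * (1 / (E r * E s)) + r * (1 / (E r * E s ^ 2))) + 2 * N * N ^ (-8 : ℝ) := by positivity
  have key : al92 P B Q b (P * (E b)⁻¹) ^ 2 * S092 (fun t => P * (E t)⁻¹) q er tr ts r s ≤
      1800 * (K ^ 19 * L ^ 3 * G) + 100 * (K ^ 11 * N ^ (2 * ε - 6)) := by
    calc _ ≤ 50 * K ^ 11 * (w b / b + 1 / E b ^ 2) * (9 * K ^ 2 * (K ^ 2 * L) ^ 3 * (s * (1 / (E r * E s)) +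
          r * (1 / (E r * E s ^ 2))) + 2 * N * N ^ (-8 : ℝ)) :=
          (mul_le_mul_of_nonneg_left hS (sq_nonneg _)).trans (mul_le_mul_of_nonneg_right hal hS0)
      _ = 450 * (K ^ 19 * L ^ 3) * ((w b / b + 1 / E b ^ 2) * (s * (1 / (E r * E s)) + r * (1 / (E r * E s ^ 2)))) +
          100 * K ^ 11 * ((w b / b + 1 / E b ^ 2) * (N * N ^ (-8 : ℝ))) := by ring
      _ ≤ 450 * (K ^ 19 * L ^ 3) * (4 * G) + 100 * K ^ 11 * (N ^ (1 + 2 * ε) * (N * N ^ (-8 : ℝ))) := by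
          have b3 := hg.trans (mul_le_mul_of_nonneg_left hG (by norm_num : (0 : ℝ) ≤ 4))
          gcongr
      _ = _ := by
          have e3 : N ^ (1 + 2 * ε) * (N * N ^ (-8 : ℝ)) = N ^ (2 * ε - 6) := by
            nth_rewrite 2 [← Real.rpow_one N]
            rw [← Real.rpow_add hN, ← Real.rpow_add hN]
            congr 1
            ring
          rw [e3]
          ring
  have t1 := absorb92 (c := c) R (k := k) (x := x) (C := 1800) 19 3 (by norm_num) (by push_cast; linarith)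
  have t2 := tiny92 R (k := k) (x := x) (C := 100) (y := 2 * ε - 6) 11 (by norm_num) (by push_cast; linarith [R.Θ0])
  rw [← hKd, ← hLd, ← hGd] at t1
  rw [← hKd] at t2
  linarith

/-- **The family `UM`.** -/
theorem num_SM_92 (htb : N ^ (-k) * b ≤ tb) (htb' : tb ≤ b) (her : er ≤ N ^ (-8 : ℝ)) :
    (4 * B ^ 3 * P) ^ 2 * SM92 (fun t => P * (E t)⁻¹) q er tr tb r s b ≤ N ^ (Θ - 2 * x) / 256 := by
  have hN := R.N0
  have hε := R.ε0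
  have hr' := h.hr.pos R.N1
  have hs' := h.hs.pos R.N1
  have hE := R.Epos r
  have hEb := R.Epos b
  have hb0 := h.hb.pos R.N1
  have hrN : (r : ℝ) ≤ N := h.hr.hi
  have hδ1 : δ ≤ 1 := (h.hb.lx R.N1).trans (h.hb.lx1 R.N1)
  have hcδ := h.cδ
  obtain ⟨K, hKd⟩ : ∃ K, K = N ^ k := ⟨_, rfl⟩
  obtain ⟨L, hLd⟩ : ∃ L, L = N ^ ε := ⟨_, rfl⟩
  have hK : 1 ≤ K := by rw [hKd]; exact Real.one_le_rpow R.N1.le hk
  have hL : 16 ≤ L := by rw [hLd]; exact R.K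
  have hν : N ^ (2 * k + ε) = K ^ 2 * L := by
    rw [hKd, hLd, Real.rpow_add hN, ← Real.rpow_natCast (N ^ k), ← Real.rpow_mul hN.le]
    congr 2
    push_cast
    ring
  have p1 := pc_le92 R hk hP (h.hr.npos R.N1) htr htr'
  have p2 := pc_le92 R hk hP (h.hb.npos R.N1) htb htb'
  rw [hν] at p1 p2
  have hP' := hP
  have hB' := hB
  have hq' := hq
  rw [← hKd] at hP' hB' hq'
  have hbe := be_le92 hK hP0 hP' hB0 hB'
  obtain ⟨G, hGd⟩ : ∃ G, G = N ^ (Θ + 5 * ε - c / 4) := ⟨_, rfl⟩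
  have hG0 : 0 < G := by rw [hGd]; exact Real.rpow_pos_of_pos hN _
  have g1 : (b : ℝ) * (1 / (E r * E b ^ 2)) ≤ G := by
    rw [hGd]
    exact (m1_92 R h).trans (Real.rpow_le_rpow_of_exponent_le R.N1.le (by linarith))
  have g2 : (s : ℝ) * (1 / (E r * E b ^ 3)) ≤ G := by
    rw [hGd]
    exact (m2_92 R h).trans (Real.rpow_le_rpow_of_exponent_le R.N1.le (by linarith))
  have g3 : (r : ℝ) * (1 / (E r * E b ^ 4)) ≤ G := by
    rw [hGd]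
    exact (m3_92 R h).trans (Real.rpow_le_rpow_of_exponent_le R.N1.le (by linarith))
  have q1 : 0 ≤ P * (E tr)⁻¹ := mul_nonneg hP0 (inv_nonneg.2 (R.Epos _).le)
  have q2 : 0 ≤ P * (E tb)⁻¹ := mul_nonneg hP0 (inv_nonneg.2 (R.Epos _).le)
  have hK2 : 1 ≤ K ^ 2 * L := one_le_mul_of_one_le_of_one_le (one_le_pow₀ hK) (by linarith)
  have a : ∀ n : ℕ, n ≤ 4 → (P * (E tr)⁻¹) * (P * (E tb)⁻¹) ^ n ≤ (K ^ 2 * L) ^ 5 * (1 / (E r * E b ^ n)) := fun n hn => by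
    calc (P * (E tr)⁻¹) * (P * (E tb)⁻¹) ^ n ≤ (K ^ 2 * L / E r) * (K ^ 2 * L / E b) ^ n :=
          mul_le_mul p1 (pow_le_pow_left₀ q2 p2 n) (by positivity) (by positivity)
      _ = (K ^ 2 * L) ^ (n + 1) * (1 / (E r * E b ^ n)) := by
          rw [div_pow]
          field_simp
          ring
      _ ≤ _ := by
          refine mul_le_mul_of_nonneg_right ?_ (by positivity)
          exact pow_le_pow_right₀ hK2 (by omega)
  have hS : SM92 (fun t => P * (E t)⁻¹) q er tr tb r s b ≤ (6 * K) ^ 4 * ((K ^ 2 * L) ^ 5 * (10 * G)) + 2 * N * N ^ (-8 : ℝ) := by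
    unfold SM92
    have a6 : 2 * r * er ≤ 2 * N * N ^ (-8 : ℝ) := by
      calc 2 * r * er ≤ 2 * r * N ^ (-8 : ℝ) := by gcongr
        _ ≤ _ := by gcongr
    have a2 := a 2 (by norm_num)
    have a3 := a 3 (by norm_num)
    have a4 := a 4 (by norm_num)
    have a7 : 8 * b * ((P * (E tr)⁻¹) * (P * (E tb)⁻¹) ^ 2) + s * ((P * (E tr)⁻¹) * (P * (E tb)⁻¹) ^ 3) +
        r * ((P * (E tr)⁻¹) * (P * (E tb)⁻¹) ^ 4) ≤ (K ^ 2 * L) ^ 5 * (10 * G) := by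
      calc _ ≤ 8 * b * ((K ^ 2 * L) ^ 5 * (1 / (E r * E b ^ 2))) + s * ((K ^ 2 * L) ^ 5 * (1 / (E r * E b ^ 3))) +
            r * ((K ^ 2 * L) ^ 5 * (1 / (E r * E b ^ 4))) := by gcongr
        _ = (K ^ 2 * L) ^ 5 * (8 * (b * (1 / (E r * E b ^ 2))) + s * (1 / (E r * E b ^ 3)) + r * (1 / (E r * E b ^ 4))) := by ring
        _ ≤ _ := by
            refine mul_le_mul_of_nonneg_left ?_ (by positivity)
            linarith
    have a8 : 0 ≤ 8 * b * ((P * (E tr)⁻¹) * (P * (E tb)⁻¹) ^ 2) + s * ((P * (E tr)⁻¹) * (P * (E tb)⁻¹) ^ 3) +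
        r * ((P * (E tr)⁻¹) * (P * (E tb)⁻¹) ^ 4) := by positivity
    have a9 : (6 * q) ^ 4 ≤ (6 * K) ^ 4 := by gcongr
    exact add_le_add (mul_le_mul a9 a7 a8 (by positivity)) a6
  have key : (4 * B ^ 3 * P) ^ 2 * SM92 (fun t => P * (E t)⁻¹) q er tr tb r s b ≤
      207360 * (K ^ 22 * L ^ 5 * G) + 32 * (K ^ 8 * N ^ (-7 : ℝ)) := by
    calc _ ≤ 16 * K ^ 8 * ((6 * K) ^ 4 * ((K ^ 2 * L) ^ 5 * (10 * G)) + 2 * N * N ^ (-8 : ℝ)) :=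
          (mul_le_mul_of_nonneg_left hS (sq_nonneg _)).trans (mul_le_mul_of_nonneg_right hbe (by positivity))
      _ = 207360 * (K ^ 22 * L ^ 5 * G) + 32 * (K ^ 8 * (N * N ^ (-8 : ℝ))) := by ring
      _ = _ := by
          have e3 : N * N ^ (-8 : ℝ) = N ^ (-7 : ℝ) := by
            nth_rewrite 1 [← Real.rpow_one N]
            rw [← Real.rpow_add hN]
            norm_num
          rw [e3]
  have t1 := absorb92 (c := c) R (k := k) (x := x) (C := 207360) 22 5 (by norm_num) (by push_cast; linarith)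
  have t2 := tiny92 R (k := k) (x := x) (C := 32) (y := -7) 8 (by norm_num) (by push_cast; linarith [R.Θ0])
  rw [← hKd, ← hLd, ← hGd] at t1
  rw [← hKd] at t2
  linarith

/-- **The family `UA`.** -/
theorem num_SA_92 {tD : ℕ → ℕ} {e : ℝ} (hts : N ^ (-k) * s ≤ ts) (hts' : ts ≤ s)
    (hD : ∀ D ∈ Ico (8 * b) s, N ^ (-k) * D ≤ tD D ∧ tD D ≤ D) (he : e ≤ N ^ (-5 : ℝ)) :
    (4 * B ^ 3 * P) ^ 2 * SA92 (fun t => P * (E t)⁻¹) q tr ts tD r s b e ≤ N ^ (Θ - 2 * x) / 256 := by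
  have hN := R.N0
  have hε := R.ε0
  have hr' := h.hr.pos R.N1
  have hs' := h.hs.pos R.N1
  have hE := R.Epos r
  have hEs := R.Epos s
  have hb0 := h.hb.pos R.N1
  have hδ1 : δ ≤ 1 := (h.hb.lx R.N1).trans (h.hb.lx1 R.N1)
  have hcδ := h.cδ
  have hc := h.c0
  obtain ⟨K, hKd⟩ : ∃ K, K = N ^ k := ⟨_, rfl⟩
  obtain ⟨L, hLd⟩ : ∃ L, L = N ^ ε := ⟨_, rfl⟩
  have hK : 1 ≤ K := by rw [hKd]; exact Real.one_le_rpow R.N1.le hk
  have hL : 16 ≤ L := by rw [hLd]; exact R.K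
  have hν : N ^ (2 * k + ε) = K ^ 2 * L := by
    rw [hKd, hLd, Real.rpow_add hN, ← Real.rpow_natCast (N ^ k), ← Real.rpow_mul hN.le]
    congr 2
    push_cast
    ring
  have hν2 : N ^ (2 * k + 2 * ε) = K ^ 2 * L ^ 2 := by
    rw [hKd, hLd, Real.rpow_add hN, ← Real.rpow_natCast (N ^ k), ← Real.rpow_mul hN.le, ← Real.rpow_natCast (N ^ ε),
      ← Real.rpow_mul hN.le]
    congr 2
    · push_cast
      ring
    · push_cast
      ring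
  have p1 := pc_le92 R hk hP (h.hr.npos R.N1) htr htr'
  have p2 := pc_le92 R hk hP (h.hs.npos R.N1) hts hts'
  have pX := XA_le92 R hk hP (h.hb.npos R.N1) (h.hs.npos R.N1) hD
  rw [hν] at p1 p2
  rw [hν2] at pX
  have hP' := hP
  have hB' := hB
  have hq' := hq
  rw [← hKd] at hP' hB' hq'
  have hbe := be_le92 hK hP0 hP' hB0 hB'
  obtain ⟨G, hGd⟩ : ∃ G, G = N ^ (Θ + 5 * ε - c / 4) := ⟨_, rfl⟩
  have hG0 : 0 < G := by rw [hGd]; exact Real.rpow_pos_of_pos hN _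
  have g1 : (b : ℝ) * (1 / (E r * E s)) ≤ G := by
    rw [hGd]
    exact (m4_92 R h).trans (Real.rpow_le_rpow_of_exponent_le R.N1.le (by linarith))
  have g2 : (1 / (E r * E s)) * ((s : ℝ) / E s) ≤ G := by
    rw [hGd]
    exact (z5 R h).trans (Real.rpow_le_rpow_of_exponent_le R.N1.le (by linarith))
  have g3 : (r : ℝ) * (((b : ℝ) / s) ^ 2 / (E r * E s ^ 2)) ≤ G := by
    rw [hGd]
    exact (z4c R h).trans (Real.rpow_le_rpow_of_exponent_le R.N1.le (by linarith))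
  have g4 : (r : ℝ) * (1 / (E r * E s ^ 3)) ≤ G := by
    rw [hGd]
    exact (m5_92 R h).trans (Real.rpow_le_rpow_of_exponent_le R.N1.le (by linarith))
  have q1 : 0 ≤ P * (E tr)⁻¹ := mul_nonneg hP0 (inv_nonneg.2 (R.Epos _).le)
  have q2 : 0 ≤ P * (E ts)⁻¹ := mul_nonneg hP0 (inv_nonneg.2 (R.Epos _).le)
  have hX0 : 0 ≤ XA92 (fun t => P * (E t)⁻¹) tD b s :=
    mul_nonneg (by norm_num) (sum_nonneg fun D _ => mul_nonneg hP0 (inv_nonneg.2 (R.Epos _).le))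
  have hK2 : 1 ≤ K ^ 2 * L := one_le_mul_of_one_le_of_one_le (one_le_pow₀ hK) (by linarith)
  have hK3 : 1 ≤ K ^ 2 * L ^ 2 := one_le_mul_of_one_le_of_one_le (one_le_pow₀ hK) (one_le_pow₀ (by linarith))
  have a1 : (P * (E tr)⁻¹) * (P * (E ts)⁻¹) ≤ (K ^ 2 * L) ^ 3 * (1 / (E r * E s)) := by
    calc (P * (E tr)⁻¹) * (P * (E ts)⁻¹) ≤ (K ^ 2 * L / E r) * (K ^ 2 * L / E s) := mul_le_mul p1 p2 q2 (by positivity)
      _ = (K ^ 2 * L) ^ 2 * (1 / (E r * E s)) := by field_simp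
      _ ≤ _ := by
          refine mul_le_mul_of_nonneg_right ?_ (by positivity)
          exact pow_le_pow_right₀ hK2 (by norm_num)
  have a2 : (P * (E tr)⁻¹) * (P * (E ts)⁻¹) ^ 2 ≤ (K ^ 2 * L) ^ 3 * (1 / (E r * E s ^ 2)) := by
    calc (P * (E tr)⁻¹) * (P * (E ts)⁻¹) ^ 2 ≤ (K ^ 2 * L / E r) * (K ^ 2 * L / E s) ^ 2 :=
          mul_le_mul p1 (pow_le_pow_left₀ q2 p2 2) (by positivity) (by positivity)
      _ = _ := by field_simp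
  have a7 : 8 * b * ((P * (E tr)⁻¹) * (P * (E ts)⁻¹)) + (P * (E tr)⁻¹) * (P * (E ts)⁻¹) * XA92 (fun t => P * (E t)⁻¹) tD b s +
      4 * (r / s ^ 2) * (256 * b ^ 2 + s * XA92 (fun t => P * (E t)⁻¹) tD b s) * ((P * (E tr)⁻¹) * (P * (E ts)⁻¹) ^ 2) ≤
      K ^ 8 * L ^ 5 * (1062 * G) := by
    calc _ ≤ 8 * b * ((K ^ 2 * L) ^ 3 * (1 / (E r * E s))) + (K ^ 2 * L) ^ 3 * (1 / (E r * E s)) * (6 * (K ^ 2 * L ^ 2) * (s / E s)) +
          4 * (r / s ^ 2) * (256 * b ^ 2 + s * (6 * (K ^ 2 * L ^ 2) * (s / E s))) * ((K ^ 2 * L) ^ 3 * (1 / (E r * E s ^ 2))) := by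
          gcongr
      _ = 8 * (K ^ 2 * L) ^ 3 * (b * (1 / (E r * E s))) + 6 * ((K ^ 2 * L) ^ 3 * (K ^ 2 * L ^ 2)) * ((1 / (E r * E s)) * (s / E s)) +
          1024 * (K ^ 2 * L) ^ 3 * (r * ((b / s) ^ 2 / (E r * E s ^ 2))) +
          24 * ((K ^ 2 * L) ^ 3 * (K ^ 2 * L ^ 2)) * (r * (1 / (E r * E s ^ 3))) := by
          field_simp
          ring
      _ ≤ 8 * ((K ^ 2 * L) ^ 3 * (K ^ 2 * L ^ 2)) * G + 6 * ((K ^ 2 * L) ^ 3 * (K ^ 2 * L ^ 2)) * G +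
          1024 * ((K ^ 2 * L) ^ 3 * (K ^ 2 * L ^ 2)) * G + 24 * ((K ^ 2 * L) ^ 3 * (K ^ 2 * L ^ 2)) * G := by
          have c1 : (K ^ 2 * L) ^ 3 ≤ (K ^ 2 * L) ^ 3 * (K ^ 2 * L ^ 2) := le_mul_of_one_le_right (by positivity) hK3
          gcongr
      _ = _ := by ring
  have hS : SA92 (fun t => P * (E t)⁻¹) q tr ts tD r s b e ≤ (3 * K) ^ 4 * (K ^ 8 * L ^ 5 * (1062 * G)) + N ^ (-5 : ℝ) := by
    unfold SA92
    have a9 : (3 * q) ^ 4 ≤ (3 * K) ^ 4 := by gcongr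
    exact add_le_add (mul_le_mul a9 a7 (by positivity) (by positivity)) he
  have key : (4 * B ^ 3 * P) ^ 2 * SA92 (fun t => P * (E t)⁻¹) q tr ts tD r s b e ≤
      1376352 * (K ^ 20 * L ^ 5 * G) + 16 * (K ^ 8 * N ^ (-5 : ℝ)) := by
    calc _ ≤ 16 * K ^ 8 * ((3 * K) ^ 4 * (K ^ 8 * L ^ 5 * (1062 * G)) + N ^ (-5 : ℝ)) :=
          (mul_le_mul_of_nonneg_left hS (sq_nonneg _)).trans (mul_le_mul_of_nonneg_right hbe (by positivity))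
      _ = _ := by ring
  have t1 := absorb92 (c := c) R (k := k) (x := x) (C := 1376352) 20 5 (by norm_num) (by push_cast; linarith)
  have t2 := tiny92 R (k := k) (x := x) (C := 16) (y := -5) 8 (by norm_num) (by push_cast; linarith [R.Θ0])
  rw [← hKd, ← hLd, ← hGd] at t1
  rw [← hKd] at t2
  linarith

end main

/-! ### At the frame -/

section frame

open Pool.Agent.W_7d29a1_H Pool.Agent.W_7d29a1_HS
open Pool.Agent.W_7d29a1_HZ (wd' EE')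
open Pool.Agent.W_7d29a1_C0.Asm96 (St96)

variable {μ : Measure ℝ} [IsProbabilityMeasure μ] {s : ℝ}

/-- **THE NUMBERS OF T_0L**: all the losses at most `n ^ k`, `k = c / 1000`, the gain `x = k`. -/
theorem t0n92 {c₀ Θ δ c : ℝ} (hR : RegP46 μ s c₀ Θ) (hδ : 0 < δ) (hc : 0 < c) (hcδ : 64 * c ≤ δ) :
    ∀ᶠ m : ℕ in atTop, ∀ p q : ℕ, St96 (EE μ s) δ c m p q → ∀ (k : ℝ), k = c / 1000 → ∀ n : ℝ, n = ((2 ^ m : ℕ) : ℝ) →
      ∀ (P B q0 : ℝ) (tr : ℕ), 0 ≤ P → P ≤ n ^ k → 0 ≤ B → B ≤ n ^ k → 0 ≤ q0 → q0 ≤ n ^ k →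
      n ^ (-k) * (2 ^ q : ℕ) ≤ tr → tr ≤ 2 ^ q →
      (∀ (Q er : ℝ) (ts : ℕ), 0 ≤ Q → Q ≤ n ^ (k / 2) * wd' μ s (8 * 2 ^ p) → n ^ (-k) * (2 ^ sg96 (EE μ s) c m p : ℕ) ≤ ts →
        ts ≤ 2 ^ sg96 (EE μ s) c m p → er ≤ n ^ (-8 : ℝ) →
        al92 P B Q (2 ^ p) (P * (EE' μ s (2 ^ p))⁻¹) ^ 2 *
          S092 (fun t => P * (EE' μ s t)⁻¹) q0 er tr ts (2 ^ q) (2 ^ sg96 (EE μ s) c m p) ≤ n ^ (Θ - 2 * k) / 256) ∧
      (∀ (er : ℝ) (tb : ℕ), n ^ (-k) * (2 ^ p : ℕ) ≤ tb → tb ≤ 2 ^ p → er ≤ n ^ (-8 : ℝ) →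
        (4 * B ^ 3 * P) ^ 2 * SM92 (fun t => P * (EE' μ s t)⁻¹) q0 er tr tb (2 ^ q) (2 ^ sg96 (EE μ s) c m p) (2 ^ p) ≤
          n ^ (Θ - 2 * k) / 256) ∧
      (∀ (e : ℝ) (ts : ℕ) (tD : ℕ → ℕ), n ^ (-k) * (2 ^ sg96 (EE μ s) c m p : ℕ) ≤ ts → ts ≤ 2 ^ sg96 (EE μ s) c m p →
        (∀ D ∈ Ico (8 * 2 ^ p) (2 ^ sg96 (EE μ s) c m p), n ^ (-k) * D ≤ tD D ∧ tD D ≤ D) → e ≤ n ^ (-5 : ℝ) →
        (4 * B ^ 3 * P) ^ 2 * SA92 (fun t => P * (EE' μ s t)⁻¹) q0 tr ts tD (2 ^ q) (2 ^ sg96 (EE μ s) c m p) (2 ^ p) e ≤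
          n ^ (Θ - 2 * k) / 256) := by
  obtain ⟨a, ha, ha', hev⟩ := hR
  filter_upwards [hev δ (c / 4000) hδ (by positivity)] with m hm p q hst k hk n hn P B q0 tr hP0 hP hB0 hB hq0 hq htr htr'
  obtain ⟨R, hw⟩ := hm
  have h := bs46 R hc hcδ hst.hp hst.hps hst.hsq hst.hqm hst.leg hst.pin
  have hk0 : 0 ≤ k := by rw [hk]; positivity
  have hx : 2 * k + 40 * k + 40 * (c / 4000) ≤ c / 4 := by rw [hk]; linarith
  simp only [EE'_eq46]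
  subst hn
  refine ⟨fun Q er ts hQ0 hQ hts hts' her => ?_, fun er tb htb htb' her => ?_, fun e ts tD hts hts' hD he => ?_⟩
  · refine num_S0_92 R h hk0 hk0 hx hP0 hP hB0 hB hq0 hq htr htr' hQ0 (hQ.trans ?_) hts hts' her
    have hN := R.N0
    have hb0 := h.hb.pos R.N1
    have h8 : ((2 ^ m : ℕ) : ℝ) ^ δ ≤ ((8 * 2 ^ p : ℕ) : ℝ) := h.hb.lo.trans (by
      push_cast
      have : (0 : ℝ) ≤ 2 ^ p := by positivity
      linarith)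
    have h9 := R.wup (2 ^ p) (8 * 2 ^ p) h.hb.lo (by omega)
    have hwp := R.w0 (2 ^ p) (h.hb.npos R.N1)
    have e8 : ((8 * 2 ^ p : ℕ) : ℝ) / ((2 ^ p : ℕ) : ℝ) = 8 := by
      push_cast
      field_simp
    rw [e8] at h9
    have h10 : (8 : ℝ) ^ (1 - a) ≤ ((2 ^ m : ℕ) : ℝ) ^ (c / 4000) := by
      calc (8 : ℝ) ^ (1 - a) ≤ (8 : ℝ) ^ (1 : ℝ) := Real.rpow_le_rpow_of_exponent_le (by norm_num) (by linarith)
        _ = 8 := Real.rpow_one _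
        _ ≤ _ := by linarith [R.K]
    rw [hw _ h8]
    calc ((2 ^ m : ℕ) : ℝ) ^ (k / 2) * wd μ s (8 * 2 ^ p) ≤
          ((2 ^ m : ℕ) : ℝ) ^ (k / 2) * (((2 ^ m : ℕ) : ℝ) ^ (c / 4000) * ((2 ^ m : ℕ) : ℝ) ^ (c / 4000) * wd μ s (2 ^ p)) := by
          gcongr
          refine h9.trans ?_
          gcongr
      _ = ((2 ^ m : ℕ) : ℝ) ^ k * wd μ s (2 ^ p) := by
          rw [← mul_assoc, ← Real.rpow_add hN, ← Real.rpow_add hN]
          congr 2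
          rw [hk]
          ring
  · exact num_SM_92 R h hk0 hk0 hx hP0 hP hB0 hB hq0 hq htr htr' htb htb' her
  · exact num_SA_92 R h hk0 hk0 hx hP0 hP hB0 hB hq0 hq htr htr' hts hts' hD he

end frame

end

end Pool.Agent.W_7d29a1_C0.T0N92
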