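import Pool.Agent.W_7d29a1_C0.T0G57
import Pool.Agent.W_7d29a1_C0.T0N92

/-!
MP_7d29a1_pr, [CURV0] (helper57), leaf (T), `T_0L`: THE SUM OVER THE ROWS OF A BLOCK. `sum0_57`: from the rows (families `U0`, `UM`, `UA`)
and the totals of the prices; `fin0_57`: the factors against `kp46`.
-/

set_option autoImplicit false
set_option linter.unusedVariables false

namespace Pool.Agent.W_7d29a1_C0.TN57

open Finset MeasureTheory Pool.Agent.W_7d29a1_F Pool.Agent.W_7d29a1_X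
open Pool.Agent.W_7d29a1_C0.Mod92 Pool.Agent.W_7d29a1_C0 Pool.Agent.W_7d29a1_C0.EstC46
open Pool.Agent.W_7d29a1_C0.T72 (NN72)
open Pool.Agent.W_7d29a1_C0.T93 (rw2 pr2)
open Pool.Agent.W_7d29a1_C0.T0E90 (grpT90)

noncomputable section

/-- A family in `[0, 2]`, measurable. -/
structure F02 {N : ℕ} (U : Fam N) : Prop where
  nn : ∀ y ω x, 0 ≤ U y ω x
  le2 : ∀ y ω x, U y ω x ≤ 2
  ms : ∀ y S, Measurable fun ω => U y ω S

variable {μ : Measure ℝ} [IsProbabilityMeasure μ] {s : ℝ} {N : ℕ}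

/-- One group: the mean over the ends, the sum over the rows. -/
theorem one0_57 {ys S : Finset ℕ} (hys : ∀ y ∈ ys, y ≤ N) {zt c : ℕ} {U : ℕ → Fam N} {f : Fam N} {D : ℝ}
    (hU : ∀ j, F02 (U j)) (mf : ∀ y S, Measurable fun ω => f y ω S) (bf : ∀ y ω S, |f y ω S| ≤ D) {r T : ℝ} (hr : 0 ≤ r)
    (hp : ∑ j ∈ S, ∑ k ∈ S, avy ys (pr2 μ s N (NN72 N zt c) (U j) (U k)) ≤ 2 * r * T) :
    ∑ j ∈ S, avy ys (fun y => 1 / 2 * rw2 μ s N (NN72 N zt c) (U j) f y) ≤ 2 * √(r * T) * √(avy ys (varF μ s N f)) := by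
  have h1 := grpT90 (μ := μ) (s := s) hys (a := 2) (D := D) (fun j => (hU j).nn) (fun j => (hU j).le2) (fun j => (hU j).ms) mf bf hp
  have e : ∑ j ∈ S, avy ys (fun y => 1 / 2 * rw2 μ s N (NN72 N zt c) (U j) f y) =
      1 / 2 * ∑ j ∈ S, avy ys (rw2 μ s N (NN72 N zt c) (U j) f) := by
    rw [mul_sum]
    exact sum_congr rfl fun j _ => avy_mul _ _ _
  rw [e]
  have e1 : √(4 * (2 * r * T)) * √(2 * avy ys (varF μ s N f)) = 4 * √(r * T) * √(avy ys (varF μ s N f)) := by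
    have e2 : 4 * (2 * r * T) = (r * T) * 8 := by ring
    have e3 : (√8 : ℝ) * √2 = 4 := by
      rw [← Real.sqrt_mul (by norm_num), show (8 : ℝ) * 2 = 4 ^ 2 by norm_num]
      exact Real.sqrt_sq (by norm_num)
    rw [e2, Real.sqrt_mul' _ (by norm_num : (0 : ℝ) ≤ 8), Real.sqrt_mul (by norm_num : (0 : ℝ) ≤ 2)]
    calc √(r * T) * √8 * (√2 * √(avy ys (varF μ s N f))) = √(r * T) * (√8 * √2) * √(avy ys (varF μ s N f)) := by ring
      _ = _ := by rw [e3]; ring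
  rw [e1] at h1
  linarith

theorem avy_abs57 (ys : Finset ℕ) (Φ : ℕ → ℝ) : |avy ys Φ| ≤ avy ys fun y => |Φ y| := by
  unfold avy
  rw [abs_mul, abs_of_nonneg (by positivity : (0 : ℝ) ≤ (ys.card : ℝ)⁻¹)]
  exact mul_le_mul_of_nonneg_left (abs_sum_le_sum_abs _ _) (by positivity)

theorem avs57 {ι : Type*} (ys : Finset ℕ) (I : Finset ι) (Φ : ι → ℕ → ℝ) :
    avy ys (fun y => ∑ i ∈ I, Φ i y) = ∑ i ∈ I, avy ys (Φ i) := by
  unfold avy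
  rw [sum_comm, mul_sum]

theorem lin57 {ys : Finset ℕ} (hne : ys.Nonempty) (al be e : ℝ) (Φ0 ΦM ΦA ΦB : ℕ → ℝ) :
    avy ys (fun y => al * Φ0 y + be * ΦM y + be * ΦA y + be * ΦB y + e) =
      al * avy ys Φ0 + be * avy ys ΦM + be * avy ys ΦA + be * avy ys ΦB + e := by
  have hc : (0 : ℝ) < ys.card := by exact_mod_cast hne.card_pos
  unfold avy
  simp only [sum_add_distrib, ← mul_sum, sum_const, nsmul_eq_mul]
  field_simp

/-- **THE SUM OVER THE ROWS OF A BLOCK.** -/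
theorem sum0_57 {ys S : Finset ℕ} (hys : ∀ y ∈ ys, y ≤ N) (hne : ys.Nonempty) {zt c b : ℕ} (hb : 1 ≤ b) {X : ℕ → ℕ → ℝ}
    {U0 UA' : ℕ → Fam N} {UM UA : ℕ → ℕ → Fam N} {f : Fam N} {D : ℝ}
    (h0 : ∀ j, F02 (U0 j)) (h1 : ∀ n j, F02 (UM n j)) (h2 : ∀ n j, F02 (UA n j)) (h3 : ∀ j, F02 (UA' j))
    (mf : ∀ y S, Measurable fun ω => f y ω S) (bf : ∀ y ω S, |f y ω S| ≤ D) {r al be S0 SM SA e : ℝ} (hr : 0 ≤ r)
    (hal : 0 ≤ al) (hbe : 0 ≤ be) (he : 0 ≤ e)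
    (row : ∀ j ∈ S, ∀ y ∈ ys, |X j y| ≤ al * (1 / 2 * rw2 μ s N (NN72 N zt c) (U0 j) f y) +
      be * (∑ n ∈ range b, (b : ℝ)⁻¹ * (1 / 2 * rw2 μ s N (NN72 N zt c) (UM n j) f y)) +
      be * (∑ n ∈ range b, (b : ℝ)⁻¹ * (1 / 2 * rw2 μ s N (NN72 N zt c) (UA n j) f y)) +
      be * (1 / 2 * rw2 μ s N (NN72 N zt c) (UA' j) f y) + e)
    (T0 : ∑ j ∈ S, ∑ k ∈ S, avy ys (pr2 μ s N (NN72 N zt c) (U0 j) (U0 k)) ≤ 2 * r * S0)
    (TM : ∀ n < b, ∑ j ∈ S, ∑ k ∈ S, avy ys (pr2 μ s N (NN72 N zt c) (UM n j) (UM n k)) ≤ 2 * r * SM)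
    (TA : ∀ n < b, ∑ j ∈ S, ∑ k ∈ S, avy ys (pr2 μ s N (NN72 N zt c) (UA n j) (UA n k)) ≤ 2 * r * SA)
    (TA' : ∑ j ∈ S, ∑ k ∈ S, avy ys (pr2 μ s N (NN72 N zt c) (UA' j) (UA' k)) ≤ 2 * r * SA) :
    |∑ j ∈ S, avy ys (X j)| ≤ (2 * (al * √(r * S0)) + 2 * (be * √(r * SM)) + 4 * (be * √(r * SA))) * √(avy ys (varF μ s N f)) +
      S.card * e := by
  have hb0 : (0 : ℝ) < b := by exact_mod_cast hb
  obtain ⟨V, hV⟩ : ∃ V, V = √(avy ys (varF μ s N f)) := ⟨_, rfl⟩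
  have g0 := one0_57 (μ := μ) (s := s) hys h0 mf bf hr T0
  have g3 := one0_57 (μ := μ) (s := s) hys h3 mf bf hr TA'
  have g1 : ∀ n ∈ range b, ∑ j ∈ S, avy ys (fun y => 1 / 2 * rw2 μ s N (NN72 N zt c) (UM n j) f y) ≤ 2 * √(r * SM) * V := fun n hn => by
    rw [hV]
    exact one0_57 (μ := μ) (s := s) hys (h1 n) mf bf hr (TM n (mem_range.1 hn))
  have g2 : ∀ n ∈ range b, ∑ j ∈ S, avy ys (fun y => 1 / 2 * rw2 μ s N (NN72 N zt c) (UA n j) f y) ≤ 2 * √(r * SA) * V := fun n hn => by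
    rw [hV]
    exact one0_57 (μ := μ) (s := s) hys (h2 n) mf bf hr (TA n (mem_range.1 hn))
  rw [← hV] at g0 g3 ⊢
  have swp : ∀ (W : ℕ → ℕ → Fam N) (Z : ℝ),
      (∀ n ∈ range b, ∑ j ∈ S, avy ys (fun y => 1 / 2 * rw2 μ s N (NN72 N zt c) (W n j) f y) ≤ Z) →
      ∑ j ∈ S, avy ys (fun y => ∑ n ∈ range b, (b : ℝ)⁻¹ * (1 / 2 * rw2 μ s N (NN72 N zt c) (W n j) f y)) ≤ Z := fun W Z hW => by
    have e1 : ∀ j ∈ S, avy ys (fun y => ∑ n ∈ range b, (b : ℝ)⁻¹ * (1 / 2 * rw2 μ s N (NN72 N zt c) (W n j) f y)) =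
        ∑ n ∈ range b, (b : ℝ)⁻¹ * avy ys (fun y => 1 / 2 * rw2 μ s N (NN72 N zt c) (W n j) f y) := fun j _ => by
      have e3 := avs57 ys (range b)
        fun n y => (b : ℝ)⁻¹ * (1 / 2 * rw2 μ s N (NN72 N zt c) (W n j) f y)
      exact e3.trans (sum_congr rfl fun n _ => avy_mul _ _ _)
    rw [sum_congr rfl e1, sum_comm]
    have e2 : ∀ n ∈ range b, ∑ j ∈ S, (b : ℝ)⁻¹ * avy ys (fun y => 1 / 2 * rw2 μ s N (NN72 N zt c) (W n j) f y) ≤ (b : ℝ)⁻¹ * Z :=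
      fun n hn => by
        rw [← mul_sum]
        exact mul_le_mul_of_nonneg_left (hW n hn) (by positivity)
    refine (sum_le_sum e2).trans (le_of_eq ?_)
    rw [sum_const, card_range, nsmul_eq_mul, ← mul_assoc, mul_inv_cancel₀ hb0.ne', one_mul]
  have hrow : ∀ j ∈ S, |avy ys (X j)| ≤ al * avy ys (fun y => 1 / 2 * rw2 μ s N (NN72 N zt c) (U0 j) f y) +
      be * avy ys (fun y => ∑ n ∈ range b, (b : ℝ)⁻¹ * (1 / 2 * rw2 μ s N (NN72 N zt c) (UM n j) f y)) +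
      be * avy ys (fun y => ∑ n ∈ range b, (b : ℝ)⁻¹ * (1 / 2 * rw2 μ s N (NN72 N zt c) (UA n j) f y)) +
      be * avy ys (fun y => 1 / 2 * rw2 μ s N (NN72 N zt c) (UA' j) f y) + e := fun j hj => by
    exact (avy_abs57 ys (X j)).trans ((avy_mono fun y hy => row j hj y hy).trans (le_of_eq (lin57 hne al be e _ _ _ _)))
  refine (abs_sum_le_sum_abs _ _).trans ((sum_le_sum hrow).trans ?_)
  rw [sum_add_distrib, sum_add_distrib, sum_add_distrib, sum_add_distrib, ← mul_sum, ← mul_sum, ← mul_sum, ← mul_sum, sum_const,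
    nsmul_eq_mul]
  have k0 := mul_le_mul_of_nonneg_left g0 hal
  have k1 := mul_le_mul_of_nonneg_left (swp UM _ g1) hbe
  have k2 := mul_le_mul_of_nonneg_left (swp UA _ g2) hbe
  have k3 := mul_le_mul_of_nonneg_left g3 hbe
  have e9 : (2 * (al * √(r * S0)) + 2 * (be * √(r * SM)) + 4 * (be * √(r * SA))) * V = al * (2 * √(r * S0) * V) +
      be * (2 * √(r * SM) * V) + be * (2 * √(r * SA) * V) + be * (2 * √(r * SA) * V) := by ring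
  rw [e9]
  linarith

/-- The factor of one group against `kp46`. -/
theorem kp0_57 {n Θ x al S0 : ℝ} {q : ℕ} {m : ℕ} (hn : n = ((2 ^ m : ℕ) : ℝ)) (hal : 0 ≤ al)
    (h : al ^ 2 * S0 ≤ n ^ (Θ - 2 * x) / 256) : al * √((2 ^ q : ℕ) * S0) ≤ kp46 Θ x m q / 16 := by
  have hn0 : 0 < n := by
    rw [hn]
    positivity
  have h1 : al * √((2 ^ q : ℕ) * S0) = √(al ^ 2 * ((2 ^ q : ℕ) * S0)) := by
    rw [Real.sqrt_mul (sq_nonneg _), Real.sqrt_sq hal]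
  have h2 : kp46 Θ x m q / 16 = √((2 ^ q : ℕ) * (n ^ (Θ - 2 * x) / 256)) := by
    unfold kp46
    rw [← hn]
    have e1 : n ^ (Θ - 2 * x) = (n ^ (-x)) ^ 2 * n ^ Θ := by
      rw [← Real.rpow_natCast, ← Real.rpow_mul hn0.le, ← Real.rpow_add hn0]
      congr 1
      push_cast
      ring
    have e2 : ((2 ^ q : ℕ) : ℝ) * (n ^ (Θ - 2 * x) / 256) = (n ^ (-x) / 16) ^ 2 * (2 ^ q * n ^ Θ) := by
      rw [e1]
      push_cast
      ring
    rw [e2, Real.sqrt_mul (sq_nonneg _), Real.sqrt_sq (by positivity)]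
    ring
  rw [h1, h2]
  refine Real.sqrt_le_sqrt ?_
  have h3 := mul_le_mul_of_nonneg_left h (show (0 : ℝ) ≤ ((2 ^ q : ℕ) : ℝ) by positivity)
  linarith

end

end Pool.Agent.W_7d29a1_C0.TN57
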