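import Pool.Agent.W_7d29a1_C0.T0F90
import Pool.Agent.W_7d29a1_C0.FarT46

/-!
CURV0 (MP_7d29a1_pr), leaf (T), `T_0L` (helper90): ONE ROW OF THE TERM OF THE OWN BLOCK, WITH THE NUMBERS. `far90`: the far price of
helper46 at the weights of a kicked row, in the plan of the own block; `row90`: the row.
-/

set_option autoImplicit false
set_option linter.unusedSectionVars false
set_option linter.unusedVariables false

namespace Pool.Agent.W_7d29a1_C0.T0H90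

open Finset MeasureTheory Filter Topology
open Pool.Agent.W_7d29a1_C0 Pool.Agent.W_7d29a1_C0.Mod92 Pool.Agent.W_7d29a1_C0.Swap57 Pool.Agent.W_7d29a1_C0.NM82
open Pool.Agent.W_7d29a1_C0.CutT57 Pool.Agent.W_7d29a1_C0.T72
open Pool.Agent.W_7d29a1_C0.E1M82 (rk_cls)
open Pool.Agent.W_7d29a1_C0.CrA44 (ge)
open Pool.Agent.W_7d29a1_F Pool.Agent.W_7d29a1_X
open Pool.Agent.W_7d29a1_H (sl)
open Pool.Agent.W_7d29a1_HS (In)
open Pool.Agent.W_7d29a1_HZ (wd' EE')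
open Pool.Agent.W_7d29a1_C0.FP63 (wf_tf)
open Pool.Agent.W_7d29a1_C0.H32
open Pool.Agent.W_7d29a1_C0.F13 (FarAt pt BlV rowsB BP)
open Pool.W7d29a1.C0 Pool.W7d29a1.C0.VT31 Pool.W7d29a1.C0.T72
open Pool.W7d29a1.C0.H7 (E0X Pok)
open Pool.W7d29a1.C0.H27 (pB slb QI)
open Pool.W7d29a1.C0.I52 (Plan ev)
open Pool.Agent.W_7d29a1_C0.EvT50 (rare50 rare_le50 ev_pw50 ev_exp50)
open Pool.Agent.W_7d29a1_C0.T0F90
open Pool.Agent.W_7d29a1_C0.T93 (rw2 pr2 tauI)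
open Pool.Agent.W_7d29a1_C0.T0E90 (tI tI_nonneg tI_le_one meas_tI)

noncomputable section

variable {μ : Measure ℝ} {s : ℝ} {N : ℕ}

/-! ### The far price -/

/-- The tilt of the row does not see the rows in front of the window. -/
theorem uj_blind90 {Q : Finset (Finset ℕ)} {δ B : ℝ} {b0 j : ℕ} (hB : 0 ≤ B) (t : ℝ) (A : Finset ℕ) (η : Env) (q : Pt) (v : ℝ)
    (S : Px Q) (hq : q.1 ≤ ((j - b0 : ℕ) : ℤ)) :
    uj72 μ s Q δ B b0 j t A (Function.update η q v) S = uj72 μ s Q δ B b0 j t A η S :=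
  congrFun ((wf_tf (μ := μ) (s := s) hB δ b0 j (abs_sg A j).le t).blind η q v (Or.inl hq)) (ps S)

/-- **The far price in the plan of the own block.** -/
theorem far90 [IsProbabilityMeasure μ] {c₀ C₀ : ℝ} {n₀ : ℕ} (h : In μ s c₀ C₀ n₀) {ε κ : ℝ} (hε : 0 < ε) (hκ : 0 < κ) (K' : ℝ) :
    ∃ δf β : ℝ, 0 < δf ∧ 0 < β ∧ ∃ N₀ : ℕ, ∀ N : ℕ, N₀ ≤ N → ∀ y : ℕ, y ≤ N → |(y : ℝ) - sl μ s * N| ≤ (N : ℝ) ^ δf * wd' μ s N →
      ∀ [Nonempty (Px (Pn N y))], ∀ B : ℝ, 0 ≤ B → B ≤ (N : ℝ) ^ β → ∀ (δ : ℝ) (b0 b j bm bp c cc d : ℕ), b0 ≤ b → (N : ℝ) ^ κ ≤ b →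
      2 * b ≤ j → j ≤ d → bm ≤ bp → bp ≤ c → c ≤ d → d ≤ N → ∀ (D : ℝ) (f : Fam N), 0 < D → Cls59 N cc d D f → ∀ t : ℝ, |t| ≤ 1 →
      ∀ (i : Fin 4) (A : Finset ℕ), ∫ η, ev ((P4 (pJ 0 bp) (pJ bm bp)).sh i) (wj μ s N (Pn N y) δ B b0 j (η, A) t)
        (fun z => (open Classical in if FarAt μ s N δf N b (j - 2 * b) (pt z) then (1 : ℝ) else 0) *
          X72 D bm (j - b) (j + b) bp c f A η (Fin.tail z)) ∂(law μ) ≤
        (N : ℝ) ^ ε * (EE' μ s b)⁻¹ * ∫ η, ev (P4 (pJ 0 bp) (pJ bm bp)) (wj μ s N (Pn N y) δ B b0 j (η, A) t)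
          (X72 D bm (j - b) (j + b) bp c f A η) ∂(law μ) + (N : ℝ) ^ (-K') := by
  classical
  obtain ⟨δf, β, c', hδf, hβ, hc', L₀, hL⟩ := Ft46.far_lastT h 3 ε κ hε hκ
  have ev1 := ev_exp50 1 K' (a := 1) one_pos hc'
  obtain ⟨N1, hN1⟩ := eventually_atTop.1 ev1
  refine ⟨δf, β, hδf, hβ, max (max L₀ N1) 1, ?_⟩
  intro N hN y hy hyc _ B hB hBβ δ b0 b j bm bp c cc d hb hbκ hbj hjd hbm hbc hcd hdN D f hD hf t ht i A
  have k1 : L₀ ≤ N := (le_max_left _ _).trans ((le_max_left _ _).trans hN)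
  have k2 : N1 ≤ N := (le_max_right _ _).trans ((le_max_left _ _).trans hN)
  have k3 : 1 ≤ N := (le_max_right _ _).trans hN
  have a1 := hN1 N k2
  rw [one_mul, one_mul] at a1
  have hP : BP N y ((P4 (pJ (Q := Pn N y) 0 bp) (pJ bm bp)).sh i) := by
    refine BP.sh ?_ i
    unfold P4
    exact (((BP.nil.fr).gi (Nat.zero_le _) (hbc.trans (hcd.trans hdN)) 0).gi hbm (hbc.trans (hcd.trans hdN)) 1).fr
  have hBP : BP N y (Plan.cons (P4 (pJ (Q := Pn N y) 0 bp) (pJ bm bp)) ((P4 (pJ (Q := Pn N y) 0 bp) (pJ bm bp)).S i)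
      (I52.S_ne (P4 (pJ (Q := Pn N y) 0 bp) (pJ bm bp)) i)) := hP
  have key := hL N k1 N b (by omega) le_rfl hbκ (by omega) y hy hyc (P4 (pJ (Q := Pn N y) 0 bp) (pJ bm bp))
    ((P4 (pJ (Q := Pn N y) 0 bp) (pJ bm bp)).S i) (I52.S_ne (P4 (pJ (Q := Pn N y) 0 bp) (pJ bm bp)) i) hBP false (j - 2 * b)
    B (uj72 μ s (Pn N y) δ B b0 j t A) (fun η => wj μ s N (Pn N y) δ B b0 j (η, A) t) hB hBβ
    (fun S => (meas_uj72 δ B b0 j t S).comp (meas_pair A)) (fun η S => abs_uj72 hB b0 j ht A η S)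
    (fun η q v S hq hm => uj_blind90 hB t A η q v S (by
      have h1 := Finset.mem_Ico.1 (show q.1.toNat ∈ Ico 1 (j - 2 * b + b / 4) by
        unfold F13.rowsB at hm
        rwa [if_neg (by decide)] at hm)
      omega))
    (fun η S => by
      show wj μ s N (Pn N y) δ B b0 j (η, A) t S = _
      rw [wj_eq72])
    (X72 D bm (j - b) (j + b) bp c f A)
    (fun x => by
      unfold X72
      exact ((meas_chi472 hf x).comp (meas_pair A)).const_mul _)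
    (fun η x => by
      unfold X72
      exact mul_nonneg (by positivity) (chi4_nonneg _ _))
    (fun η x => by
      unfold X72
      rw [inv_mul_le_iff₀ (by positivity), mul_one]
      exact chi4_le (hf.bdd y (η, A)) x)
    (BlV.of_upd fun η q u hq hm => by
      have h1 := Finset.mem_Ico.1 (show q.1.toNat ∈ Ico 1 (j - 2 * b + b / 4) by
        unfold F13.rowsB at hm
        rwa [if_neg (by decide)] at hm)
      funext x
      unfold X72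
      have h2 : f y (Function.update η q u, A) = f y (η, A) := by
        funext S
        exact hf.env y η A S q.1 q.2 u (by omega) (by omega)
      rw [h2])
  refine key.trans (add_le_add le_rfl ?_)
  exact a1

/-! ### The numbers of one row -/

theorem gb72_le90 {ε B R : ℝ} (hN : 1 ≤ N) (hε1 : ε ≤ 1) (hB : 0 ≤ B) (hBN : B ≤ N) (hR0 : 0 ≤ R) (hR : R ≤ (N : ℝ) ^ 2) {n : ℕ}
    (hn : 1 ≤ n) : gb72 N ε B R n ≤ 3 * (N : ℝ) ^ 3 := by
  have hN1 : (1 : ℝ) ≤ N := by exact_mod_cast hN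
  have hN0 : (0 : ℝ) < N := by linarith
  have h1 : 7 * (4 : ℕ) * R * (B / 2) ^ 2 / n ≤ (3 * (N : ℝ) ^ 2) ^ 2 := by
    have hn1 : (1 : ℝ) ≤ n := by exact_mod_cast hn
    have h2 : 7 * (4 : ℕ) * R * (B / 2) ^ 2 / n ≤ 7 * (4 : ℕ) * R * (B / 2) ^ 2 := div_le_self (by positivity) hn1
    have h3 : B ^ 2 ≤ (N : ℝ) ^ 2 := pow_le_pow_left₀ hB hBN 2
    have h4 : R * B ^ 2 ≤ (N : ℝ) ^ 2 * (N : ℝ) ^ 2 := mul_le_mul hR h3 (by positivity) (by positivity)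
    have h5 : 7 * ((4 : ℕ) : ℝ) * R * (B / 2) ^ 2 = 7 * (R * B ^ 2) := by
      push_cast
      ring
    refine h2.trans (h5.le.trans ?_)
    nlinarith [h4]
  have h2 : √(7 * (4 : ℕ) * R * (B / 2) ^ 2 / n) ≤ 3 * (N : ℝ) ^ 2 := by
    rw [← Real.sqrt_sq (by positivity : 0 ≤ 3 * (N : ℝ) ^ 2)]
    exact Real.sqrt_le_sqrt h1
  have h3 : (N : ℝ) ^ ε ≤ N := by
    calc (N : ℝ) ^ ε ≤ (N : ℝ) ^ (1 : ℝ) := Real.rpow_le_rpow_of_exponent_le hN1 hε1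
      _ = N := Real.rpow_one _
  unfold gb72
  calc (N : ℝ) ^ ε * √(7 * (4 : ℕ) * R * (B / 2) ^ 2 / n) ≤ N * (3 * (N : ℝ) ^ 2) :=
        mul_le_mul h3 h2 (Real.sqrt_nonneg _) hN0.le
    _ = 3 * (N : ℝ) ^ 3 := by ring

end

end Pool.Agent.W_7d29a1_C0.T0H90
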