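import Pool.Agent.W_7d29a1_C0.T0G90
import Pool.Agent.W_7d29a1_C0.T0H90

/-!
CURV0 (MP_7d29a1_pr), leaf (T), `T_0L` (helper90): ONE ROW OF THE TERM OF THE OWN BLOCK, WITH THE NUMBERS (`row90`).
-/

set_option autoImplicit false
set_option linter.unusedSectionVars false
set_option linter.unusedVariables false

namespace Pool.Agent.W_7d29a1_C0.T0H90

open Finset MeasureTheory Filter Topology
open Pool.Agent.W_7d29a1_C0 Pool.Agent.W_7d29a1_C0.Mod92 Pool.Agent.W_7d29a1_C0.Swap57 Pool.Agent.W_7d29a1_C0.NM82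
open Pool.Agent.W_7d29a1_C0.CutT57 Pool.Agent.W_7d29a1_C0.T72
open Pool.Agent.W_7d29a1_C0.E1M82 (rk_cls)
open Pool.Agent.W_7d29a1_C0.CrA44 (ge)
open Pool.Agent.W_7d29a1_F Pool.Agent.W_7d29a1_X
open Pool.Agent.W_7d29a1_H (sl)
open Pool.Agent.W_7d29a1_HS (In)
open Pool.Agent.W_7d29a1_HZ (wd' EE')
open Pool.Agent.W_7d29a1_C0.H32
open Pool.W7d29a1.C0 Pool.W7d29a1.C0.VT31 Pool.W7d29a1.C0.T72
open Pool.W7d29a1.C0.H7 (E0X Pok)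
open Pool.W7d29a1.C0.H27 (pB slb QI)
open Pool.Agent.W_7d29a1_C0.EvT50 (rareX50 nC nC_nonneg GW1 ev_pw50 ev_exp50)
open Pool.Agent.W_7d29a1_C0.T0F90 Pool.Agent.W_7d29a1_C0.T0G90
open Pool.Agent.W_7d29a1_C0.T93 (rw2 pr2 tauI)
open Pool.Agent.W_7d29a1_C0.T0E90 (tI tI_nonneg tI_le_one meas_tI)

noncomputable section

variable {μ : Measure ℝ} {s : ℝ} {N : ℕ}

/-- The arithmetic of the errors. -/
theorem err90 {n Z P a B D pc g E1 e2 ρ : ℝ} (hn : 40 ≤ n) (hZ : 0 ≤ Z) (hP0 : 0 ≤ P) (hP : P ≤ n) (hB0 : 0 ≤ B) (hB : B ≤ n)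
    (hD0 : 0 ≤ D) (hD : D ≤ n ^ 3) (hpc0 : 0 ≤ pc) (hpc : pc ≤ n) (hg0 : 0 ≤ g) (hg : g ≤ 3 * n ^ 3) (hE10 : 0 ≤ E1) (hE1 : E1 ≤ Z)
    (he20 : 0 ≤ e2) (he2 : e2 ≤ Z) (hρ0 : 0 ≤ ρ) (hρ : ρ ≤ Z) :
    (g * (B ^ 2 / 2) + B ^ 3 * pc) * (P * Z + 2 * D * E1) + Z + (B ^ 3 * P * (5 * Z + 4 * D * ρ) +
      (8 * B ^ 3 * E1 + 2 * B ^ 2 * e2) * (2 * D)) ≤ n ^ 9 * Z := by
  have n1 : 1 ≤ n := by linarith
  have n0 : 0 ≤ n := by linarith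
  have b2 : B ^ 2 ≤ n ^ 2 := pow_le_pow_left₀ hB0 hB 2
  have b3 : B ^ 3 ≤ n ^ 3 := pow_le_pow_left₀ hB0 hB 3
  have t1 : g * (B ^ 2 / 2) + B ^ 3 * pc ≤ 3 * n ^ 5 := by
    have h1 : g * (B ^ 2 / 2) ≤ 3 * n ^ 3 * (n ^ 2 / 2) := mul_le_mul hg (by linarith) (by positivity) (by positivity)
    have h2 : B ^ 3 * pc ≤ n ^ 3 * n := mul_le_mul b3 hpc hpc0 (by positivity)
    have h3 : n ^ 4 * 1 ≤ n ^ 4 * n := mul_le_mul_of_nonneg_left n1 (by positivity)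
    nlinarith
  have t2 : P * Z + 2 * D * E1 ≤ 3 * n ^ 3 * Z := by
    have h1 : P * Z ≤ n * Z := mul_le_mul_of_nonneg_right hP hZ
    have h2 : D * E1 ≤ n ^ 3 * Z := mul_le_mul hD hE1 hE10 (by positivity)
    have h3 : n * Z ≤ n ^ 3 * Z := mul_le_mul_of_nonneg_right (by nlinarith [pow_le_pow_right₀ n1 (show 1 ≤ 3 by norm_num)]) hZ
    linarith
  have t3 : (g * (B ^ 2 / 2) + B ^ 3 * pc) * (P * Z + 2 * D * E1) ≤ 3 * n ^ 5 * (3 * n ^ 3 * Z) :=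
    mul_le_mul t1 t2 (by positivity) (by positivity)
  have t4 : B ^ 3 * P * (5 * Z + 4 * D * ρ) ≤ n ^ 3 * n * (5 * Z + 4 * n ^ 3 * Z) := by
    refine mul_le_mul (mul_le_mul b3 hP hP0 (by positivity)) ?_ (by positivity) (by positivity)
    have h2 : D * ρ ≤ n ^ 3 * Z := mul_le_mul hD hρ hρ0 (by positivity)
    linarith
  have t5 : (8 * B ^ 3 * E1 + 2 * B ^ 2 * e2) * (2 * D) ≤ (8 * n ^ 3 * Z + 2 * n ^ 2 * Z) * (2 * n ^ 3) := by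
    refine mul_le_mul (add_le_add ?_ ?_) (by linarith) (by linarith) (by positivity)
    · have := mul_le_mul b3 hE1 hE10 (by positivity : 0 ≤ n ^ 3)
      linarith
    · have := mul_le_mul b2 he2 he20 (by positivity : 0 ≤ n ^ 2)
      linarith
  have m1 : Z ≤ n ^ 8 * Z := le_mul_of_one_le_left hZ (one_le_pow₀ n1)
  have m4 : n ^ 4 * Z ≤ n ^ 8 * Z := mul_le_mul_of_nonneg_right (pow_le_pow_right₀ n1 (by norm_num)) hZ
  have m7 : n ^ 7 * Z ≤ n ^ 8 * Z := mul_le_mul_of_nonneg_right (pow_le_pow_right₀ n1 (by norm_num)) hZ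
  have m6 : n ^ 6 * Z ≤ n ^ 8 * Z := mul_le_mul_of_nonneg_right (pow_le_pow_right₀ n1 (by norm_num)) hZ
  have m5 : n ^ 5 * Z ≤ n ^ 8 * Z := mul_le_mul_of_nonneg_right (pow_le_pow_right₀ n1 (by norm_num)) hZ
  have m9 : 40 * (n ^ 8 * Z) ≤ n ^ 9 * Z := by
    have := mul_le_mul_of_nonneg_right hn (by positivity : 0 ≤ n ^ 8 * Z)
    calc 40 * (n ^ 8 * Z) ≤ n * (n ^ 8 * Z) := this
      _ = n ^ 9 * Z := by ring
  have e3 : 3 * n ^ 5 * (3 * n ^ 3 * Z) = 9 * (n ^ 8 * Z) := by ring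
  have e4 : n ^ 3 * n * (5 * Z + 4 * n ^ 3 * Z) = 5 * (n ^ 4 * Z) + 4 * (n ^ 7 * Z) := by ring
  have e5 : (8 * n ^ 3 * Z + 2 * n ^ 2 * Z) * (2 * n ^ 3) = 16 * (n ^ 6 * Z) + 4 * (n ^ 5 * Z) := by ring
  rw [e3] at t3
  rw [e4] at t4
  rw [e5] at t5
  linarith

/-- **ONE ROW OF THE TERM OF THE OWN BLOCK.** -/
theorem row90 [IsProbabilityMeasure μ] {c₀ C₀ : ℝ} {n₀ : ℕ} (h : In μ s c₀ C₀ n₀)
    (hQI : ∀ p : ℝ, 1 < p → ∃ C θ0 : ℝ, 0 ≤ C ∧ 0 < θ0 ∧ QI μ p C θ0) {f₀ f₀' : ℝ → ℝ} (hf₀ : DenLaw μ f₀ f₀')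
    {κ εM ε K' : ℝ} (hκ : 0 < κ) (hκ1 : κ ≤ 1) (hεM : 0 < εM) (hε : 0 < ε) (hε1 : ε ≤ 1) (hK' : 0 ≤ K') :
    ∃ β : ℝ, 0 < β ∧ ∃ δ₀ : ℝ, 0 < δ₀ ∧ ∀ δ : ℝ, 0 < δ → δ ≤ δ₀ → ∃ δ' : ℝ, 0 < δ' ∧ ∃ N₀ : ℕ, ∀ N : ℕ, N₀ ≤ N →
      ∀ y : ℕ, y ≤ N → |(y : ℝ) - sl μ s * N| ≤ (N : ℝ) ^ δ' * wd' μ s N →
      ∀ [Nonempty (Px (Pn N y))], ∀ B : ℝ, 1 ≤ B → B ≤ (N : ℝ) ^ β → ∀ b0 b j bm bp zt c cc d : ℕ, (N : ℝ) ^ κ ≤ b0 → b0 ≤ b →
      bm + 4 * b ≤ j → j + 4 * b ≤ bp → bp ≤ zt → zt ≤ c → c ≤ d → d ≤ N →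
      ∀ R : ℝ, 1 ≤ R → R ≤ (N : ℝ) ^ 2 → (∀ k : ℕ, 1 ≤ k → k ≤ 8 * b → (N : ℝ) ^ ε * wd' μ s k ≤ R / 8) →
      ∀ M : ℝ, (N : ℝ) ^ εM ≤ M → ∀ (D : ℝ) (f : Fam N), 0 < D → D ≤ (N : ℝ) ^ 3 → Cls59 N cc d D f → ∀ t : ℝ, |t| ≤ 1 →
      |TI72 μ s N (Pn N y) δ B b0 j t (pJ 0 bp) (pJ bm bp) (fun ω => ge μ s N (Pn N y) δ B b0 b ω j) (f y)| ≤
        (gb72 N ε B R b * (B ^ 2 / 2) + B ^ 3 * ((N : ℝ) ^ ε * (EE' μ s b)⁻¹)) * (N : ℝ) ^ ε *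
          (1 / 2 * rw2 μ s N (NN72 N zt c) (tI μ s N bp bm (j - b) M) f y) +
        1 / 2 * B ^ 3 * (N : ℝ) ^ ε * ∑ m ∈ J9 j b, (b : ℝ)⁻¹ * rw2 μ s N (NN72 N zt c) (UA9 μ s N bp bm b M m j) f y +
        B ^ 3 * (N : ℝ) ^ ε * rw2 μ s N (NN72 N zt c) (UA9 μ s N bp bm b M (j + 4 * b) j) f y +
        B ^ 3 * (N : ℝ) ^ ε * ∑ m ∈ J9 j b, (b : ℝ)⁻¹ * rw2 μ s N (NN72 N zt c) (UM9 μ s N bp b b0 M m j) f y +
        (N : ℝ) ^ (-K') := by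
  obtain ⟨K1, hK1⟩ : ∃ x : ℝ, x = K' + 9 := ⟨_, rfl⟩
  have hK10 : 0 ≤ K1 := by rw [hK1]; linarith
  obtain ⟨c₁, hc₁, δ₀, hδ₀, hR0⟩ := rareX50 h hκ (half_pos hεM)
  obtain ⟨δe, βe, hδe, hβe, Ne, hNe⟩ := e0_uj72 h hQI hκ hκ1 2 hε hK10
  obtain ⟨δb, βb, hδb, hβb, Nb, hNb⟩ := t0B72 h hf₀ hε hε1 hK10
  obtain ⟨δf, βf, hδf, hβf, Nf, hNf⟩ := far90 h hε hκ (K1 + 8)
  obtain ⟨β, hβ⟩ : ∃ x : ℝ, x = min (min (min βe βb) βf) (min (min c₁ εM) 1 / 2) := ⟨_, rfl⟩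
  have hβ0 : 0 < β := by
    rw [hβ]
    exact lt_min (lt_min (lt_min hβe hβb) hβf) (half_pos (lt_min (lt_min hc₁ hεM) one_pos))
  have β1 : β ≤ βe := by rw [hβ]; exact (min_le_left _ _).trans ((min_le_left _ _).trans (min_le_left _ _))
  have β2 : β ≤ βb := by rw [hβ]; exact (min_le_left _ _).trans ((min_le_left _ _).trans (min_le_right _ _))
  have β3 : β ≤ βf := by rw [hβ]; exact (min_le_left _ _).trans (min_le_right _ _)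
  have β4 : β ≤ min (min c₁ εM) 1 / 2 := by rw [hβ]; exact min_le_right _ _
  have β5 : β < c₁ := by
    have : min (min c₁ εM) 1 ≤ c₁ := (min_le_left _ _).trans (min_le_left _ _)
    linarith
  have β6 : β < εM := by
    have : min (min c₁ εM) 1 ≤ εM := (min_le_left _ _).trans (min_le_right _ _)
    linarith
  have β7 : β ≤ 1 := by
    have : min (min c₁ εM) 1 ≤ 1 := min_le_right _ _
    linarith
  refine ⟨β, hβ0, δ₀, hδ₀, fun δ hδ hδ0 => ?_⟩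
  obtain ⟨δ₁, δr, c₂, hδ₁, hδr, hc₂, Nr, hNr⟩ := hR0 δ hδ hδ0
  obtain ⟨δ', hδ'⟩ : ∃ x : ℝ, x = min (min δr δe) (min δb δf) := ⟨_, rfl⟩
  have hδ'0 : 0 < δ' := by rw [hδ']; exact lt_min (lt_min hδr hδe) (lt_min hδb hδf)
  have d1 : δ' ≤ δr := by rw [hδ']; exact (min_le_left _ _).trans (min_le_left _ _)
  have d2 : δ' ≤ δe := by rw [hδ']; exact (min_le_left _ _).trans (min_le_right _ _)
  have d3 : δ' ≤ δb := by rw [hδ']; exact (min_le_right _ _).trans (min_le_left _ _)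
  have d4 : δ' ≤ δf := by rw [hδ']; exact (min_le_right _ _).trans (min_le_right _ _)
  have ev1 := ev_pw50 β5 16
  have ev2 := ev_pw50 β6 16
  have ev3 := ev_pw50 (half_lt_self hεM) 16
  have ev5 := ev_exp50 32 K1 (a := 1) one_pos hεM
  have ev6 := ev_exp50 32 (K1 + 1) (a := 3 / 4) (by norm_num) hc₁
  have ev7 := ev_exp50 32 (K1 + 1) (a := 1 / 2) (by norm_num) hc₂
  obtain ⟨N₂, hN₂⟩ := eventually_atTop.1 (ev1.and (ev2.and (ev3.and (ev5.and (ev6.and ev7)))))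
  refine ⟨δ', hδ'0, max (max (max Nr Ne) (max Nb Nf)) (max N₂ 40), ?_⟩
  intro N hN y hy hyc _ B hB1 hBβ b0 b j bm bp zt c cc d hb0 hb hbm hbp hz hzc hcd hdN R hR1 hR2 hRw M hM D f hD0 hD hf t ht
  have kr : Nr ≤ N := (le_max_left _ _).trans ((le_max_left _ _).trans ((le_max_left _ _).trans hN))
  have ke : Ne ≤ N := (le_max_right _ _).trans ((le_max_left _ _).trans ((le_max_left _ _).trans hN))
  have kb : Nb ≤ N := (le_max_left _ _).trans ((le_max_right _ _).trans ((le_max_left _ _).trans hN))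
  have kf' : Nf ≤ N := (le_max_right _ _).trans ((le_max_right _ _).trans ((le_max_left _ _).trans hN))
  have k2 : N₂ ≤ N := (le_max_left _ _).trans ((le_max_right _ _).trans hN)
  have k40 : 40 ≤ N := (le_max_right _ _).trans ((le_max_right _ _).trans hN)
  have hN1 : 1 ≤ N := by omega
  have r1 : (1 : ℝ) ≤ N := by exact_mod_cast hN1
  have r40 : (40 : ℝ) ≤ N := by exact_mod_cast k40
  have r0 : (0 : ℝ) < N := by linarith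
  obtain ⟨a1, a2, a3, a5, a6, a7⟩ := hN₂ N k2
  obtain ⟨X, hX⟩ : ∃ x : ℝ, x = (N : ℝ) ^ c₁ := ⟨_, rfl⟩
  obtain ⟨Y, hY⟩ : ∃ x : ℝ, x = (N : ℝ) ^ c₂ := ⟨_, rfl⟩
  obtain ⟨Z, hZ⟩ : ∃ x : ℝ, x = (N : ℝ) ^ (-K1) := ⟨_, rfl⟩
  have hX0 : 0 ≤ X := by rw [hX]; exact Real.rpow_nonneg r0.le _
  have hZ0 : 0 ≤ Z := by rw [hZ]; exact Real.rpow_nonneg r0.le _
  rw [← hX] at a1 a6
  rw [← hY] at a7
  rw [← hZ] at a5
  have hB0 : 0 ≤ B := by linarith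
  have hM0 : 0 ≤ M := (Real.rpow_nonneg r0.le _).trans hM
  have c1 : 16 * B ≤ X := (mul_le_mul_of_nonneg_left hBβ (by norm_num)).trans a1
  have c2 : 16 * B ≤ M := ((mul_le_mul_of_nonneg_left hBβ (by norm_num)).trans a2).trans hM
  have c3 : 16 * (N : ℝ) ^ (εM / 2) ≤ M := a3.trans hM
  have c5 : 32 * Real.exp (-M) ≤ Z := by
    refine (mul_le_mul_of_nonneg_left (Real.exp_le_exp.2 ?_) (by norm_num)).trans a5
    rw [one_mul]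
    exact neg_le_neg hM
  have hBN : B ≤ N := hBβ.trans (by
    calc (N : ℝ) ^ β ≤ (N : ℝ) ^ (1 : ℝ) := Real.rpow_le_rpow_of_exponent_le r1 β7
      _ = N := Real.rpow_one _)
  have e1Z : (N : ℝ) ^ (-(K1 + 1)) * N = Z := by
    rw [hZ]
    nth_rewrite 2 [← Real.rpow_one (N : ℝ)]
    rw [← Real.rpow_add r0]
    congr 1
    ring
  have c7 : 32 * N * Real.exp (-(3 / 4 * X)) ≤ Z := by
    have e2 := mul_le_mul_of_nonneg_right a6 r0.le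
    rw [e1Z] at e2
    linarith
  have c8 : 32 * N * Real.exp (-(1 / 2 * Y)) ≤ Z := by
    have e2 := mul_le_mul_of_nonneg_right a7 r0.le
    rw [e1Z] at e2
    linarith
  have hPe : (N : ℝ) ^ ε ≤ N := by
    calc (N : ℝ) ^ ε ≤ (N : ℝ) ^ (1 : ℝ) := Real.rpow_le_rpow_of_exponent_le r1 hε1
      _ = N := Real.rpow_one _
  have hPe0 : 0 ≤ (N : ℝ) ^ ε := Real.rpow_nonneg r0.le _
  have hw0 : 0 ≤ wd' μ s N := zero_le_one.trans (le_max_left _ _)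
  have yr := Pok.mono72 (μ := μ) (s := s) hN1 d1 hw0 hyc
  have ye := Pok.mono72 (μ := μ) (s := s) hN1 d2 hw0 hyc
  have yb := Pok.mono72 (μ := μ) (s := s) hN1 d3 hw0 hyc
  have yf := Pok.mono72 (μ := μ) (s := s) hN1 d4 hw0 hyc
  have hbκ : (N : ℝ) ^ κ ≤ b := hb0.trans (by exact_mod_cast hb)
  have hb00 : 1 ≤ b0 := by
    have h1 : (1 : ℝ) ≤ (N : ℝ) ^ κ := Real.one_le_rpow r1 hκ.le
    exact_mod_cast h1.trans hb0
  have hb1 : 1 ≤ b := hb00.trans hb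
  have cast_le : ∀ {u v : ℕ}, u ≤ v → (u : ℝ) ≤ v := fun h => by exact_mod_cast h
  -- the parameters
  obtain ⟨M0, hM0'⟩ : ∃ x : ℝ, x = M - 12 / 5 * B := ⟨_, rfl⟩
  have g1 : 5 * M0 + 4 * (3 * B) ≤ 5 * M := by rw [hM0']; linarith
  have hE := fun A => hNe N ke (Pn N y) (Or.inr ⟨y, hy, ye, rfl⟩) (j + b) b (hbκ.trans (cast_le (by omega))) hbκ (by omega) B hB0
    (hBβ.trans (Real.rpow_le_rpow_of_exponent_le r1 β1)) δ b0 j (by omega) t ht A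
  have hD' : 2 * D ≤ (N : ℝ) ^ K1 := by
    have h1 : (N : ℝ) ^ (4 : ℝ) ≤ (N : ℝ) ^ K1 := Real.rpow_le_rpow_of_exponent_le r1 (by rw [hK1]; linarith)
    have h2 : (N : ℝ) ^ (4 : ℝ) = (N : ℝ) ^ 4 := by exact_mod_cast Real.rpow_natCast (N : ℝ) 4
    have h3 : 2 * (N : ℝ) ^ 3 ≤ (N : ℝ) ^ 4 := by
      have := mul_le_mul_of_nonneg_right (show (2 : ℝ) ≤ N by linarith) (by positivity : 0 ≤ (N : ℝ) ^ 3)
      calc 2 * (N : ℝ) ^ 3 ≤ N * (N : ℝ) ^ 3 := this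
        _ = (N : ℝ) ^ 4 := by ring
    rw [h2] at h1
    linarith
  obtain ⟨hbad, hcone⟩ := hNr N kr y yr B hB0 b0 j hb0 (by omega) (by omega)
  have hcone := hcone t ht
  rw [← hX] at hbad
  rw [← hY] at hcone
  have hcone2 : ∫ ω, gm (wj μ s N (Pn N y) δ B b0 j ω t) (nC μ s δ₁ (Pn N y) b0 j) ∂(Pm μ N) ≤ Real.exp (-Y) := by
    simp only [wj_eq72]
    exact hcone
  obtain ⟨ρ, hρd⟩ : ∃ x : ℝ, x = Real.exp (-(1 / 2 * Y)) + Real.exp (-X) := ⟨_, rfl⟩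
  have hρ0 : 0 ≤ ρ := by rw [hρd]; positivity
  have u1 : Real.exp (-(1 / 2 * Y)) ≤ N * Real.exp (-(1 / 2 * Y)) := le_mul_of_one_le_left (Real.exp_pos _).le r1
  have u2 : Real.exp (-(3 / 4 * X)) ≤ N * Real.exp (-(3 / 4 * X)) := le_mul_of_one_le_left (Real.exp_pos _).le r1
  have u3 : Real.exp (-X) ≤ Real.exp (-(3 / 4 * X)) := Real.exp_le_exp.2 (by linarith)
  have hρZ : ρ ≤ Z := by
    rw [hρd]
    linarith
  have hrare : Real.exp (1 / 2 * Y) * ∫ ω, gm (wj μ s N (Pn N y) δ B b0 j ω t) (nC μ s δ₁ (Pn N y) b0 j) ∂(Pm μ N) +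
        (law μ {η | ¬ GW1 μ s N (Pn N y) δ δ₁ B (Real.exp ((N : ℝ) ^ (εM / 2))) (Real.exp (-X)) b0 j η}).toReal ≤ ρ := by
    have h1 := mul_le_mul_of_nonneg_left hcone2 (Real.exp_pos (1 / 2 * Y)).le
    have h2 : Real.exp (1 / 2 * Y) * Real.exp (-Y) = Real.exp (-(1 / 2 * Y)) := by
      rw [← Real.exp_add]
      congr 1
      ring
    rw [h2] at h1
    rw [hρd]
    exact add_le_add h1 hbad
  have hP1 : 1 ≤ (N : ℝ) ^ ε := Real.one_le_rpow r1 hε.le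
  have hsplit := ti_split90 (μ := μ) (s := s) (N := N) (y := y) (δ := δ) (δ₁ := δ₁) (B := B) (R := Real.exp ((N : ℝ) ^ (εM / 2)))
    (e0 := Real.exp (-X)) (M0 := M0) (tt := 1 / 2 * Y) (b0 := b0) (b := b) (j := j) (bm := bm) (bp := bp) (c := c) (cc := cc) (d := d)
    (t := t) (f := f) (D := D) hB0 (Real.exp_pos _).le (Real.exp_pos _).le ht hb hb1 (by omega) hbp (hz.trans hzc) hcd hdN hf
  have hrem := rem90 (μ := μ) (s := s) (N := N) (y := y) (δ := δ) (δ₁ := δ₁) (B := B) (R := Real.exp ((N : ℝ) ^ (εM / 2)))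
    (e0 := Real.exp (-X)) (M0 := M0) (M := M) (tt := 1 / 2 * Y) (b0 := b0) (b := b) (j := j) (bm := bm) (bp := bp)
    (c := c) (cc := cc) (d := d) (t := t) (f := f) (D := D) (zt := zt) hy hB0 (Real.exp_pos _).le (Real.exp_pos _).le ht hb hb1 g1
    hP1 hE hbp hz hzc hcd hf hD' hρ0 hrare
  have hom := om90 (μ := μ) (s := s) (N := N) (y := y) (δ := δ) (B := B) (M0 := M0) (M := M) (b0 := b0) (b := b) (j := j) (bm := bm)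
    (bp := bp) (c := c) (cc := cc) (d := d) (t := t) (f := f) (D := D) (zt := zt) hy hB0 ht hb g1 hE (by omega) hbp hz hzc hcd hf hD'
  have hEE : 0 < EE' μ s b := lt_of_lt_of_le one_pos (le_max_left _ _)
  have hEE1 : (EE' μ s b)⁻¹ ≤ 1 := inv_le_one_of_one_le₀ (le_max_left _ _)
  have hpc0 : 0 ≤ (N : ℝ) ^ ε * (EE' μ s b)⁻¹ := by positivity
  have hpc : (N : ℝ) ^ ε * (EE' μ s b)⁻¹ ≤ N := (mul_le_of_le_one_right hPe0 hEE1).trans hPe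
  have hfar := hNf N kf' y hy yf B hB0 (hBβ.trans (Real.rpow_le_rpow_of_exponent_le r1 β3)) δ b0 b j bm bp c cc d hb hbκ (by omega)
    (by omega) (by omega) (hz.trans hzc) hcd hdN D f hD0 hf t ht
  have hbox := hNb N kb y hy yb B hB1 (hBβ.trans (Real.rpow_le_rpow_of_exponent_le r1 β2)) δ b0 b j bm bp c cc d hb hb1 hbm hbp
    (hz.trans hzc) hcd hdN R hR1 hR2 hRw D f hD0 hD hf t ht δf ((N : ℝ) ^ ε * (EE' μ s b)⁻¹) ((N : ℝ) ^ (-(K1 + 8))) hδf.le hpc0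
    le_rfl hfar
  rw [← hZ] at hbox hom hrem
  -- the small numbers
  have hE1 : Real.exp (-(5 * M0)) ≤ Z := by
    have h1 : Real.exp (-(5 * M0)) ≤ Real.exp (-M) := Real.exp_le_exp.2 (by rw [hM0']; linarith)
    linarith [Real.exp_pos (-M)]
  have he2 : e2F B (Real.exp ((N : ℝ) ^ (εM / 2))) (Real.exp (-X)) M0 (1 / 2 * Y) ≤ Z := by
    unfold e2F
    have q1 : Real.exp (4 * B) * (Real.exp ((N : ℝ) ^ (εM / 2)) * (2 * Real.exp (-(5 * M0)))) ≤ 2 * Real.exp (-M) := by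
      have e1 : Real.exp (4 * B) * (Real.exp ((N : ℝ) ^ (εM / 2)) * (2 * Real.exp (-(5 * M0)))) =
          2 * Real.exp (4 * B + (N : ℝ) ^ (εM / 2) + -(5 * M0)) := by
        rw [Real.exp_add, Real.exp_add]
        ring
      rw [e1]
      refine mul_le_mul_of_nonneg_left (Real.exp_le_exp.2 ?_) (by norm_num)
      rw [hM0']
      linarith
    have q2 : Real.exp (4 * B) * Real.exp (-X) ≤ Real.exp (-(3 / 4 * X)) := by
      rw [← Real.exp_add]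
      exact Real.exp_le_exp.2 (by linarith)
    have q3 : 2 * B * Real.exp (-(1 / 2 * Y)) ≤ 2 * N * Real.exp (-(1 / 2 * Y)) :=
      mul_le_mul_of_nonneg_right (by linarith) (Real.exp_pos _).le
    rw [mul_add]
    linarith
  have hgb0 := gb72_nonneg N ε B R b
  have hgb := gb72_le90 (n := b) hN1 hε1 hB0 hBN (by linarith) hR2 hb1
  have herr := err90 r40 hZ0 hPe0 hPe hB0 hBN hD0.le hD hpc0 hpc hgb0 hgb (Real.exp_pos (-(5 * M0))).le hE1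
    (e2F_nonneg (M0 := M0) (tt := 1 / 2 * Y) hB0 (Real.exp_pos ((N : ℝ) ^ (εM / 2))).le (Real.exp_pos (-X)).le) he2 hρ0 hρZ
    (a := 0)
  have hlast : (N : ℝ) ^ 9 * Z = (N : ℝ) ^ (-K') := by
    have h2 : (N : ℝ) ^ (9 : ℝ) = (N : ℝ) ^ 9 := by exact_mod_cast Real.rpow_natCast (N : ℝ) 9
    rw [hZ, ← h2, ← Real.rpow_add r0, hK1]
    congr 1
    ring
  rw [hlast] at herr
  have hco : 0 ≤ gb72 N ε B R b * (B ^ 2 / 2) + B ^ 3 * ((N : ℝ) ^ ε * (EE' μ s b)⁻¹) := by positivity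
  have hbox2 := hbox.trans (add_le_add (mul_le_mul_of_nonneg_left hom hco) le_rfl)
  refine hsplit.trans ((add_le_add hbox2 hrem).trans ?_)
  have e1 : (gb72 N ε B R b * (B ^ 2 / 2) + B ^ 3 * ((N : ℝ) ^ ε * (EE' μ s b)⁻¹)) *
      ((N : ℝ) ^ ε * (1 / 2 * rw2 μ s N (NN72 N zt c) (tI μ s N bp bm (j - b) M) f y + Z) + 2 * D * Real.exp (-(5 * M0))) =
      (gb72 N ε B R b * (B ^ 2 / 2) + B ^ 3 * ((N : ℝ) ^ ε * (EE' μ s b)⁻¹)) * (N : ℝ) ^ ε *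
        (1 / 2 * rw2 μ s N (NN72 N zt c) (tI μ s N bp bm (j - b) M) f y) +
      (gb72 N ε B R b * (B ^ 2 / 2) + B ^ 3 * ((N : ℝ) ^ ε * (EE' μ s b)⁻¹)) *
        ((N : ℝ) ^ ε * Z + 2 * D * Real.exp (-(5 * M0))) := by ring
  rw [e1]
  linarith

end

end Pool.Agent.W_7d29a1_C0.T0H90
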