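import Pool.Agent.W_7d29a1_C0.T0P33B
import Pool.Agent.W_7d29a1_C0.T0D92

/-!
CURV0 (MP_7d29a1_pr), leaf (T), `T_0L` (helper33): THE TOTALS OF THE FAMILIES OF THE OWN BLOCK in the form of `T0D92`: `tot0_92` (own pairs
`U0F`, `S092`), `totM_92` (micro ties `UMF`, `SM92`), `totA_92` (slab fields `UAF`, `SA92`).
-/

set_option autoImplicit false
set_option linter.unusedSectionVars false
set_option linter.unusedVariables false

namespace Pool.Agent.W_7d29a1_C0.T0P33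

open MeasureTheory ProbabilityTheory Filter Topology Finset
open Pool.Agent.W_7d29a1_F Pool.Agent.W_7d29a1_X
open Pool.Agent.W_7d29a1_HZ (EE')
open Pool.Agent.W_7d29a1_C0 Pool.Agent.W_7d29a1_C0.Mod92
open Pool.Agent.W_7d29a1_C0.T93
open Pool.Agent.W_7d29a1_C0.T72 (NN72)
open Pool.Agent.W_7d29a1_C0.T0E90
open Pool.Agent.W_7d29a1_C0.T0N92 (S092 SM92 SA92 XA92)

noncomputable section

/-! ### The numbers -/

/-- The main part of the price of two blocks. -/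
theorem num_main {b sX lam : ℝ} (hb : 1 ≤ b) (hX : 0 ≤ sX) (hl : lam = max 1 (Real.sqrt sX)) :
    (16 * b + lam / 2 + 1 / (2 * lam) * sX) ^ 2 ≤ 8 * (256 * b ^ 2 + sX) := by
  have l1 : 1 ≤ lam := hl ▸ le_max_left _ _
  have l2 : Real.sqrt sX ≤ lam := hl ▸ le_max_right _ _
  have s0 := Real.sqrt_nonneg sX
  have s2 : Real.sqrt sX ^ 2 = sX := Real.sq_sqrt hX
  have l3 : lam ≤ 1 + Real.sqrt sX := by
    rw [hl]
    exact max_le (by linarith) (by linarith)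
  have h1 : sX ≤ lam ^ 2 := by
    rw [← s2]
    exact pow_le_pow_left₀ s0 l2 2
  have h2 : 1 / (2 * lam) * sX ≤ lam / 2 := by
    rw [one_div_mul_eq_div, div_le_iff₀ (by linarith)]
    nlinarith
  have h3 : 0 ≤ 1 / (2 * lam) * sX := by positivity
  have h4 : 16 * b + lam / 2 + 1 / (2 * lam) * sX ≤ 17 * b + Real.sqrt sX := by linarith
  have h5 : 0 ≤ 16 * b + lam / 2 + 1 / (2 * lam) * sX := by positivity
  have h6 := pow_le_pow_left₀ h5 h4 2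
  nlinarith [sq_nonneg (17 * b - Real.sqrt sX)]

/-- The error part. -/
theorem num_err {b sg N sX lam : ℝ} (hN : 5 ≤ N) (hb : 0 ≤ b) (hbN : b ≤ N) (hs : 0 ≤ sg) (hsN : sg ≤ N) (hX : 0 ≤ sX)
    (hXN : sX ≤ 2 * N ^ 3) (hl : lam = max 1 (Real.sqrt sX)) :
    (16 * b + lam / 2 + 1 / (2 * lam) * sg ^ 2) ^ 2 ≤ 324 * N ^ 6 := by
  have l1 : 1 ≤ lam := hl ▸ le_max_left _ _
  have s0 := Real.sqrt_nonneg sX
  have s2 : Real.sqrt sX ^ 2 = sX := Real.sq_sqrt hX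
  have l3 : lam ≤ 1 + Real.sqrt sX := by
    rw [hl]
    exact max_le (by linarith) (by linarith)
  have s3 : Real.sqrt sX ≤ 1 / 2 + N ^ 3 := by nlinarith [sq_nonneg (Real.sqrt sX - 1)]
  have h1 : 1 / (2 * lam) * sg ^ 2 ≤ N ^ 2 / 2 := by
    rw [one_div_mul_eq_div, div_le_iff₀ (by linarith)]
    have h2 : sg ^ 2 ≤ N ^ 2 := pow_le_pow_left₀ hs hsN 2
    nlinarith [mul_nonneg (sq_nonneg N) (by linarith : 0 ≤ lam - 1)]
  have h3 : 0 ≤ 1 / (2 * lam) * sg ^ 2 := by positivity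
  have n1 : 1 ≤ N := by linarith
  have n2 : N ≤ N ^ 3 := by nlinarith [mul_nonneg (by linarith : (0 : ℝ) ≤ N) (by nlinarith : (0 : ℝ) ≤ N ^ 2 - 1)]
  have n3 : N ^ 2 ≤ N ^ 3 := by nlinarith [sq_nonneg N]
  have n4 : 1 ≤ N ^ 3 := by linarith
  have h4 : 16 * b + lam / 2 + 1 / (2 * lam) * sg ^ 2 ≤ 18 * N ^ 3 := by linarith
  have h5 : 0 ≤ 16 * b + lam / 2 + 1 / (2 * lam) * sg ^ 2 := by positivity
  calc _ ≤ (18 * N ^ 3) ^ 2 := pow_le_pow_left₀ h5 h4 2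
    _ = _ := by ring

/-- **The assembly of the numbers.** -/
theorem num_tot {r sg b N P1 P2 X e q Y Z : ℝ} (hN : 5 ≤ N) (hr : 0 ≤ r) (hrN : r ≤ N) (hs : 1 ≤ sg) (hb : 0 ≤ b) (hP1 : 0 ≤ P1)
    (hP2 : 0 ≤ P2) (hX : 0 ≤ X) (he : 0 ≤ e) (hq : 1 ≤ 3 * q) (hY : Y ≤ 8 * (256 * b ^ 2 + sg * X)) (hZ : Z ≤ 324 * N ^ 6)
    (hY0 : 0 ≤ Y) (hZ0 : 0 ≤ Z) :
    r * (2 * ((3 * q) ^ 2 * (8 * b * P1 + P1 * (X / 2) + r * e))) + (r / sg) ^ 2 * ((3 * q) ^ 4 * (P2 * Y + e * Z)) ≤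
      2 * r * ((3 * q) ^ 4 * (8 * b * P1 + P1 * X + 4 * (r / sg ^ 2) * (256 * b ^ 2 + sg * X) * P2) + N ^ 9 * (6 * q) ^ 4 * e) := by
  have q2 : (3 * q) ^ 2 ≤ (3 * q) ^ 4 := pow_le_pow_right₀ hq (by norm_num)
  have q4 : 1 ≤ (3 * q) ^ 4 := one_le_pow₀ hq
  have e6 : (6 * q) ^ 4 = 16 * (3 * q) ^ 4 := by ring
  obtain ⟨Q, hQ⟩ : ∃ Q, Q = (3 * q) ^ 4 := ⟨_, rfl⟩
  obtain ⟨T, hT⟩ : ∃ T, T = r / sg ^ 2 := ⟨_, rfl⟩
  rw [e6, ← hQ, ← hT]
  rw [← hQ] at q2 q4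
  have T0 : 0 ≤ T := hT ▸ by positivity
  have sg0 : 0 < sg := by linarith
  have T1 : T ≤ N := by
    rw [hT, div_le_iff₀ (by positivity)]
    nlinarith [mul_nonneg (by linarith : (0 : ℝ) ≤ N) (by nlinarith : (0 : ℝ) ≤ sg ^ 2 - 1)]
  have e7 : (r / sg) ^ 2 = r * T := by
    rw [hT]
    field_simp
  rw [e7]
  have q0 : 0 ≤ (3 * q) ^ 2 := sq_nonneg _
  have A : 0 ≤ 8 * b * P1 + P1 * (X / 2) := by positivity
  have B1 : (3 * q) ^ 2 * (8 * b * P1 + P1 * (X / 2)) ≤ Q * (8 * b * P1 + P1 * X) := by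
    refine (mul_le_mul_of_nonneg_right q2 A).trans (mul_le_mul_of_nonneg_left ?_ (by linarith))
    nlinarith [mul_nonneg hP1 hX]
  have B2 : (3 * q) ^ 2 * (r * e) ≤ Q * (N * e) := by
    refine mul_le_mul q2 (mul_le_mul_of_nonneg_right hrN he) (mul_nonneg hr he) (by linarith)
  have B3 : T * (Q * (P2 * Y)) ≤ 2 * (Q * (4 * T * (256 * b ^ 2 + sg * X) * P2)) := by
    have h1 := mul_le_mul_of_nonneg_left (mul_le_mul_of_nonneg_left hY hP2) (mul_nonneg T0 (by linarith : 0 ≤ Q))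
    calc T * (Q * (P2 * Y)) = T * Q * (P2 * Y) := by ring
      _ ≤ _ := h1
      _ = _ := by ring
  have B4 : T * (Q * (e * Z)) ≤ Q * e * (324 * N ^ 7) := by
    have h1 : T * Z ≤ N * (324 * N ^ 6) := mul_le_mul T1 hZ hZ0 (by linarith)
    have h2 := mul_le_mul_of_nonneg_left h1 (mul_nonneg (by linarith : 0 ≤ Q) he)
    calc T * (Q * (e * Z)) = Q * e * (T * Z) := by ring
      _ ≤ _ := h2
      _ = _ := by ring
  have B5 : 2 * (Q * (N * e)) + Q * e * (324 * N ^ 7) ≤ 2 * (N ^ 9 * (16 * Q) * e) := by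
    have h1 : 0 ≤ Q * e := mul_nonneg (by linarith) he
    have n1 : 1 ≤ N := by linarith
    have n7 : N ≤ N ^ 7 := by
      calc N = N ^ 1 := (pow_one N).symm
        _ ≤ N ^ 7 := pow_le_pow_right₀ n1 (by norm_num)
    have n9 : 25 * N ^ 7 ≤ N ^ 9 := by
      have h2 : 25 ≤ N ^ 2 := by nlinarith
      calc 25 * N ^ 7 ≤ N ^ 2 * N ^ 7 := mul_le_mul_of_nonneg_right h2 (by positivity)
        _ = N ^ 9 := by ring
    have n0 : 0 ≤ N ^ 7 := by positivity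
    have h3 : 2 * N + 324 * N ^ 7 ≤ 32 * N ^ 9 := by linarith
    have h4 := mul_le_mul_of_nonneg_left h3 h1
    calc _ = Q * e * (2 * N + 324 * N ^ 7) := by ring
      _ ≤ _ := h4
      _ = _ := by ring
  have L : r * (2 * ((3 * q) ^ 2 * (8 * b * P1 + P1 * (X / 2) + r * e))) + r * T * (Q * (P2 * Y + e * Z)) =
      r * (2 * ((3 * q) ^ 2 * (8 * b * P1 + P1 * (X / 2))) + 2 * ((3 * q) ^ 2 * (r * e)) + T * (Q * (P2 * Y)) +
        T * (Q * (e * Z))) := by ring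
  have R : 2 * r * (Q * (8 * b * P1 + P1 * X + 4 * T * (256 * b ^ 2 + sg * X) * P2) + N ^ 9 * (16 * Q) * e) =
      r * (2 * (Q * (8 * b * P1 + P1 * X)) + 2 * (Q * (4 * T * (256 * b ^ 2 + sg * X) * P2)) + 2 * (N ^ 9 * (16 * Q) * e)) := by
    ring
  rw [L, R]
  exact mul_le_mul_of_nonneg_left (by linarith) hr

variable {μ : Measure ℝ} {s : ℝ} {N y : ℕ} {ε θ κ c' : ℝ}

/-! ### All rows -/

section Tot

variable [IsProbabilityMeasure μ] {q b b0 σ zt c tr ts tb : ℕ} {S ys : Finset ℕ} {M : ℝ} {mm tD : ℕ → ℕ}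

/-- The sum over the pairs of rows of different blocks. -/
theorem sum_blk {f : ℕ → ℕ → ℝ} {V : ℝ} (hV : 0 ≤ V) (hs : ∀ j ∈ S, ∀ k ∈ S, f j k = f k j)
    (h : ∀ β β', β < β' → ∑ j ∈ S.filter (fun j => j / σ = β), ∑ k ∈ S.filter (fun j => j / σ = β'), f j k ≤ V) :
    ∑ j ∈ S, ∑ k ∈ S, (if j / σ = k / σ then 0 else f j k) ≤ ((S.image fun j => j / σ).card : ℝ) ^ 2 * V := by
  have hm : ∀ j ∈ S, j / σ ∈ S.image fun j => j / σ := fun j hj => mem_image_of_mem _ hj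
  rw [← sum_fiberwise_of_maps_to hm]
  have e1 : ∀ β ∈ S.image (fun j => j / σ), ∑ j ∈ S.filter (fun j => j / σ = β), ∑ k ∈ S, (if j / σ = k / σ then 0 else f j k) ≤
      (S.image fun j => j / σ).card * V := fun β _ => by
    rw [sum_comm, ← sum_fiberwise_of_maps_to hm]
    refine (sum_le_sum (g := fun _ => V) fun β' _ => ?_).trans (le_of_eq (by rw [sum_const, nsmul_eq_mul]))
    rcases lt_trichotomy β β' with h1 | h1 | h1
    · refine le_trans (le_of_eq ?_) (h β β' h1)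
      rw [sum_comm]
      refine sum_congr rfl fun j hj => sum_congr rfl fun k hk => ?_
      rw [if_neg]
      rw [(mem_filter.1 hj).2, (mem_filter.1 hk).2]
      exact h1.ne
    · refine le_trans (le_of_eq ?_) hV
      refine sum_eq_zero fun k hk => sum_eq_zero fun j hj => ?_
      rw [if_pos]
      rw [(mem_filter.1 hj).2, (mem_filter.1 hk).2]
      exact h1
    · refine le_trans (le_of_eq ?_) (h β' β h1)
      refine sum_congr rfl fun k hk => sum_congr rfl fun j hj => ?_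
      rw [if_neg]
      · exact hs j (mem_filter.1 hj).1 k (mem_filter.1 hk).1
      · rw [(mem_filter.1 hj).2, (mem_filter.1 hk).2]
        exact h1.ne'
  refine (sum_le_sum e1).trans (le_of_eq ?_)
  rw [sum_const, nsmul_eq_mul]
  ring

/-- The number of blocks. -/
theorem card_img (hσ : 0 < σ) {c₁ r : ℕ} (hc : σ ∣ c₁) (hr : σ ∣ r) (hS : ∀ j ∈ S, c₁ ≤ j ∧ j < c₁ + r) :
    ((S.image fun j => j / σ).card : ℝ) ≤ r / σ := by
  obtain ⟨c2, rfl⟩ := hc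
  obtain ⟨r2, rfl⟩ := hr
  have h1 : (S.image fun j => j / σ) ⊆ Ico c2 (c2 + r2) := fun i hi => by
    obtain ⟨j, hj, rfl⟩ := mem_image.1 hi
    obtain ⟨h2, h3⟩ := hS j hj
    rw [mem_Ico, Nat.le_div_iff_mul_le hσ, Nat.div_lt_iff_lt_mul hσ]
    rw [mul_comm c2 σ, mul_comm (c2 + r2) σ, mul_add]
    exact ⟨h2, h3⟩
  have h2 := card_le_card h1
  rw [Nat.card_Ico, Nat.add_sub_cancel_left] at h2
  have hσ' : (0 : ℝ) < σ := by exact_mod_cast hσ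
  rw [Nat.cast_mul, mul_comm, mul_div_assoc, div_self hσ'.ne', mul_one]
  exact_mod_cast h2

theorem pc_le (hN : 1 ≤ N) (hε : ε ≤ 1) (t : ℕ) : pc μ s N ε t ≤ N := by
  have hN1 : (1 : ℝ) ≤ N := by exact_mod_cast hN
  have h1 : (1 : ℝ) ≤ EE' μ s t := le_max_left _ _
  have h2 : (EE' μ s t)⁻¹ ≤ 1 := inv_le_one_of_one_le₀ h1
  have h3 : (N : ℝ) ^ ε ≤ N := by
    calc (N : ℝ) ^ ε ≤ (N : ℝ) ^ (1 : ℝ) := Real.rpow_le_rpow_of_exponent_le hN1 hε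
      _ = N := Real.rpow_one _
  unfold pc
  calc (N : ℝ) ^ ε * (EE' μ s t)⁻¹ ≤ N * 1 := mul_le_mul h3 h2 (inv_nonneg.2 (by linarith)) (Nat.cast_nonneg _)
    _ = N := mul_one _

/-- **The total of the slab fields, one end.** -/
theorem totA_one (hP : ∀ k ≤ 5, PrN μ s N y ε θ κ c' k) (hy : y ≤ N) (hε : ε ≤ 1) (hn : Nq N κ q M) (ho : Out N θ zt c tr)
    (g : Blk33 N θ q S b b0 σ zt ts tb) (a : Sl33 N θ q S b σ mm tD) {c₁ r : ℕ} (hc : σ ∣ c₁) (hr : σ ∣ r) (hrN : r ≤ N)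
    (hS : ∀ j ∈ S, c₁ ≤ j ∧ j < c₁ + r) :
    ∑ j ∈ S, ∑ k ∈ S, pr2 μ s N (NN72 N zt c) (UAF μ s N σ b M (mm j) j) (UAF μ s N σ b M (mm k) k) y ≤
      2 * r * SA92 (pc μ s N ε) q tr ts tD r σ b ((N : ℝ) ^ 9 * (6 * q) ^ 4 * ee N c' M) := by
  have p1 := pc_nonneg (μ := μ) (s := s) N ε tr
  have p2 := pc_nonneg (μ := μ) (s := s) N ε ts
  have p3 := ee_nonneg N c' M
  have X0 : 0 ≤ ∑ D ∈ Ico (8 * b) σ, pc μ s N ε (tD D) := sum_nonneg fun D _ => pc_nonneg _ _ _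
  rcases S.eq_empty_or_nonempty with he | ⟨j0, hj0⟩
  · rw [he, sum_empty]
    unfold SA92 XA92
    positivity
  -- sizes
  have g1 := g.f1
  have g2 := g.lo j0 hj0
  have g3 := g.hi j0 hj0
  have g4 := g.zz j0 hj0
  have g5 := ho.zc
  have g6 := ho.cN
  have hbN : b ≤ N := by omega
  have hσN : σ ≤ N := by
    have h1 : σ ≤ (j0 / σ + 1) * σ := Nat.le_mul_of_pos_left σ (Nat.succ_pos _)
    omega
  have q80 : 80 ≤ q := by
    have h1 := hn.M8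
    have h2 := hn.q0
    have : (80 : ℝ) ≤ q := by linarith
    exact_mod_cast this
  have hb5 : 5 ≤ b := by
    have h1 : 3 * q * 1 ≤ 3 * q * (tb / 4 + 1) := Nat.mul_le_mul_left _ (by omega)
    omega
  have hN5 : (5 : ℝ) ≤ N := by exact_mod_cast hb5.trans hbN
  have hb1 : (1 : ℝ) ≤ b := by exact_mod_cast (show 1 ≤ b by omega)
  have hs1 : (1 : ℝ) ≤ σ := by exact_mod_cast g.hσ
  obtain ⟨X, hX⟩ : ∃ X, X = 2 * ∑ D ∈ Ico (8 * b) σ, pc μ s N ε (tD D) := ⟨_, rfl⟩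
  have hX0 : 0 ≤ X := hX ▸ by positivity
  have hXN : X ≤ 2 * (σ * N) := by
    rw [hX]
    refine mul_le_mul_of_nonneg_left ?_ (by norm_num)
    refine (sum_le_sum fun D _ => pc_le (μ := μ) (s := s) (by omega) hε (tD D)).trans ?_
    rw [sum_const, Nat.card_Ico, nsmul_eq_mul]
    refine mul_le_mul_of_nonneg_right ?_ (Nat.cast_nonneg _)
    exact_mod_cast Nat.sub_le _ _
  obtain ⟨lam, hlam⟩ : ∃ lam, lam = max 1 (Real.sqrt (σ * X)) := ⟨_, rfl⟩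
  have l1 : 1 ≤ lam := hlam ▸ le_max_left _ _
  -- two blocks
  have hV := fun β β' (h : β < β') => two_blk (μ := μ) (s := s) (M := M) hP hy hn ho g a h (lam := lam) (by linarith)
  rw [← hX] at hV
  obtain ⟨Y, hY⟩ : ∃ Y, Y = (16 * b + lam / 2 + 1 / (2 * lam) * (σ * X)) ^ 2 := ⟨_, rfl⟩
  obtain ⟨Z, hZ⟩ : ∃ Z, Z = (16 * b + lam / 2 + 1 / (2 * lam) * (σ : ℝ) ^ 2) ^ 2 := ⟨_, rfl⟩
  rw [← hY, ← hZ] at hV
  have Y0 : 0 ≤ Y := hY ▸ sq_nonneg _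
  have Z0 : 0 ≤ Z := hZ ▸ sq_nonneg _
  have Y1 : Y ≤ 8 * (256 * (b : ℝ) ^ 2 + σ * X) := hY ▸ num_main hb1 (by positivity) hlam
  have Z1 : Z ≤ 324 * (N : ℝ) ^ 6 := by
    rw [hZ]
    refine num_err hN5 (Nat.cast_nonneg _) (by exact_mod_cast hbN) (Nat.cast_nonneg _) (by exact_mod_cast hσN)
      (sX := σ * X) (by positivity) ?_ hlam
    have h1 : (σ : ℝ) ≤ N := by exact_mod_cast hσN
    calc (σ : ℝ) * X ≤ σ * (2 * (σ * N)) := mul_le_mul_of_nonneg_left hXN (Nat.cast_nonneg _)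
      _ ≤ N * (2 * (N * N)) := mul_le_mul h1 (mul_le_mul_of_nonneg_left (mul_le_mul_of_nonneg_right h1 (Nat.cast_nonneg _))
          (by norm_num)) (by positivity) (Nat.cast_nonneg _)
      _ = 2 * (N : ℝ) ^ 3 := by ring
  have V0 : 0 ≤ (3 * (q : ℝ)) ^ 4 * (pc μ s N ε tr * pc μ s N ε ts ^ 2 * Y + ee N c' M * Z) := by positivity
  have hd := sum_blk (S := S) (σ := σ) (f := fun j k => pr2 μ s N (NN72 N zt c) (UAF μ s N σ b M (mm j) j)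
    (UAF μ s N σ b M (mm k) k) y) V0 (fun j _ k _ => pr2_swap _ _ _ _) hV
  have hK := card_img (S := S) g.hσ hc hr hS
  -- the same block
  have hsame := dist_sum_le hS (φ := phA μ s N ε c' M q tr ts b σ tD) (fun D => phA_nonneg _ _ _ _ _ _ _)
    (q := fun j k => if j / σ = k / σ then pr2 μ s N (NN72 N zt c) (UAF μ s N σ b M (mm j) j) (UAF μ s N σ b M (mm k) k) y else 0)
    fun j hj k hk => by
      split_ifs with h
      · exact prA_same hP hy hn ho g a hj hk h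
      · exact phA_nonneg _ _ _ _ _ _ _
  have hcard : (S.card : ℝ) ≤ r := by
    have h4 : S ⊆ Ico c₁ (c₁ + r) := fun j hj => mem_Ico.2 (hS j hj)
    have h5 := card_le_card h4
    rw [Nat.card_Ico, Nat.add_sub_cancel_left] at h5
    exact_mod_cast h5
  have hsum := sum_phA (μ := μ) (s := s) (N := N) (ε := ε) (c' := c') (M := M) q tr ts b σ r tD
  have e0 : ∑ j ∈ S, ∑ k ∈ S, pr2 μ s N (NN72 N zt c) (UAF μ s N σ b M (mm j) j) (UAF μ s N σ b M (mm k) k) y =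
      ∑ j ∈ S, ∑ k ∈ S, (if j / σ = k / σ then
        pr2 μ s N (NN72 N zt c) (UAF μ s N σ b M (mm j) j) (UAF μ s N σ b M (mm k) k) y else 0) +
      ∑ j ∈ S, ∑ k ∈ S, (if j / σ = k / σ then 0 else
        pr2 μ s N (NN72 N zt c) (UAF μ s N σ b M (mm j) j) (UAF μ s N σ b M (mm k) k) y) := by
    rw [← sum_add_distrib]
    refine sum_congr rfl fun j _ => ?_
    rw [← sum_add_distrib]
    refine sum_congr rfl fun k _ => ?_
    split_ifs <;> ring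
  have hq1 : (1 : ℝ) ≤ 3 * q := q_one hn
  have hph0 : 0 ≤ ∑ D ∈ range r, phA μ s N ε c' M q tr ts b σ tD D := sum_nonneg fun D _ => phA_nonneg _ _ _ _ _ _ _
  have s1 : ∑ j ∈ S, ∑ k ∈ S, (if j / σ = k / σ then
        pr2 μ s N (NN72 N zt c) (UAF μ s N σ b M (mm j) j) (UAF μ s N σ b M (mm k) k) y else 0) ≤
      r * (2 * ((3 * q) ^ 2 * (8 * b * (pc μ s N ε tr * pc μ s N ε ts) + pc μ s N ε tr * pc μ s N ε ts * (X / 2) +
        r * ee N c' M))) := by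
    refine hsame.trans ((mul_le_mul_of_nonneg_right hcard (by positivity)).trans ?_)
    refine mul_le_mul_of_nonneg_left (mul_le_mul_of_nonneg_left (hsum.trans (le_of_eq ?_)) (by norm_num)) (Nat.cast_nonneg _)
    rw [hX]
    ring
  have s2 : ∑ j ∈ S, ∑ k ∈ S, (if j / σ = k / σ then 0 else
        pr2 μ s N (NN72 N zt c) (UAF μ s N σ b M (mm j) j) (UAF μ s N σ b M (mm k) k) y) ≤
      ((r : ℝ) / σ) ^ 2 * ((3 * (q : ℝ)) ^ 4 * (pc μ s N ε tr * pc μ s N ε ts ^ 2 * Y + ee N c' M * Z)) :=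
    hd.trans (mul_le_mul_of_nonneg_right (pow_le_pow_left₀ (Nat.cast_nonneg _) hK 2) V0)
  rw [e0]
  refine (add_le_add s1 s2).trans ((num_tot hN5 (Nat.cast_nonneg _) (by exact_mod_cast hrN) hs1 (Nat.cast_nonneg _)
    (mul_nonneg p1 p2) (mul_nonneg p1 (sq_nonneg _)) hX0 p3 hq1 Y1 Z1 Y0 Z0).trans (le_of_eq ?_))
  unfold SA92 XA92
  rw [← hX]

/-- **The total of the own pairs.** -/
theorem tot0_92 (hP : ∀ y ∈ ys, ∀ k ≤ 5, PrN μ s N y ε θ κ c' k) (hys : ∀ y ∈ ys, y ≤ N) (hn : Nq N κ q M)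
    (ho : Out N θ zt c tr) (g : Blk33 N θ q S b b0 σ zt ts tb) {c₁ r : ℕ} (hS : ∀ j ∈ S, c₁ ≤ j ∧ j < c₁ + r) :
    ∑ j ∈ S, ∑ k ∈ S, avy ys (pr2 μ s N (NN72 N zt c) (U0F μ s N σ b M j) (U0F μ s N σ b M k)) ≤
      2 * r * S092 (pc μ s N ε) q ((3 * q) ^ 2 * ee N c' M / 2) tr ts r σ := by
  refine (tot0 hP hys hn ho g hS).trans (le_of_eq ?_)
  unfold S092
  ring

/-- **The total of the micro ties.** -/
theorem totM_92 (hP : ∀ y ∈ ys, ∀ k ≤ 5, PrN μ s N y ε θ κ c' k) (hys : ∀ y ∈ ys, y ≤ N) (hn : Nq N κ q M)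
    (ho : Out N θ zt c tr) (g : Blk33 N θ q S b b0 σ zt ts tb) (hm : ∀ j ∈ S, j + b ≤ mm j ∧ mm j ≤ j + 3 * b) {c₁ r : ℕ}
    (hS : ∀ j ∈ S, c₁ ≤ j ∧ j < c₁ + r) :
    ∑ j ∈ S, ∑ k ∈ S, avy ys (pr2 μ s N (NN72 N zt c) (UMF μ s N σ b b0 M (mm j) j) (UMF μ s N σ b b0 M (mm k) k)) ≤
      2 * r * SM92 (pc μ s N ε) q ((6 * q) ^ 4 * ee N c' M / 2) tr tb r σ b := by
  refine (totM hP hys hn ho g hm hS).trans (le_of_eq ?_)
  unfold SM92
  ring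

/-- **The total of the slab fields.** -/
theorem totA_92 (hP : ∀ y ∈ ys, ∀ k ≤ 5, PrN μ s N y ε θ κ c' k) (hys : ∀ y ∈ ys, y ≤ N) (hε : ε ≤ 1) (hn : Nq N κ q M)
    (ho : Out N θ zt c tr) (g : Blk33 N θ q S b b0 σ zt ts tb) (a : Sl33 N θ q S b σ mm tD) {c₁ r : ℕ} (hc : σ ∣ c₁)
    (hr : σ ∣ r) (hrN : r ≤ N) (hS : ∀ j ∈ S, c₁ ≤ j ∧ j < c₁ + r) :
    ∑ j ∈ S, ∑ k ∈ S, avy ys (pr2 μ s N (NN72 N zt c) (UAF μ s N σ b M (mm j) j) (UAF μ s N σ b M (mm k) k)) ≤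
      2 * r * SA92 (pc μ s N ε) q tr ts tD r σ b ((N : ℝ) ^ 9 * (6 * q) ^ 4 * ee N c' M) := by
  have e1 : ∑ j ∈ S, ∑ k ∈ S, avy ys (pr2 μ s N (NN72 N zt c) (UAF μ s N σ b M (mm j) j) (UAF μ s N σ b M (mm k) k)) =
      avy ys fun y => ∑ j ∈ S, ∑ k ∈ S, pr2 μ s N (NN72 N zt c) (UAF μ s N σ b M (mm j) j) (UAF μ s N σ b M (mm k) k) y := by
    rw [avy_sum]
    exact sum_congr rfl fun j _ => (avy_sum ys S fun k y =>
      pr2 μ s N (NN72 N zt c) (UAF μ s N σ b M (mm j) j) (UAF μ s N σ b M (mm k) k) y).symm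
  rw [e1]
  have p1 := pc_nonneg (μ := μ) (s := s) N ε tr
  have p2 := pc_nonneg (μ := μ) (s := s) N ε ts
  have p3 := ee_nonneg N c' M
  have X0 : 0 ≤ ∑ D ∈ Ico (8 * b) σ, pc μ s N ε (tD D) := sum_nonneg fun D _ => pc_nonneg _ _ _
  refine avy_le93 (by unfold SA92 XA92; positivity) fun y hy => ?_
  exact totA_one (hP y hy) (hys y hy) hε hn ho g a hc hr hrN hS

end Tot

end

end Pool.Agent.W_7d29a1_C0.T0P33
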