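import Pool.Agent.W_7d29a1_C0.TNm57
import Pool.Agent.W_7d29a1_C0.T0H57
import Pool.Agent.W_7d29a1_C0.T0P33C
import Pool.Agent.W_7d29a1_C0.EvU50

/-!
MP_7d29a1_pr, [CURV0] (helper57), leaf (T), `T_0L`: THE SCALES AND THE ERRORS AT ONE LENGTH: `NA57` (the small factor `A = n ^ ι`), the scales
`tr` (`tr57`), `ts` (`ts57`), `tb` (`tb57`), `tD`, the errors (`err57`), the width (`wid57`).
-/

set_option autoImplicit false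
set_option linter.unusedVariables false

namespace Pool.Agent.W_7d29a1_C0.TN57

open Finset MeasureTheory Filter Topology Pool.Agent.W_7d29a1_F Pool.Agent.W_7d29a1_X
open Pool.Agent.W_7d29a1_HZ (wd' EE')
open Pool.Agent.W_7d29a1_C0 Pool.Agent.W_7d29a1_C0.Mod92 Pool.Agent.W_7d29a1_C0.Frm33
open Pool.Agent.W_7d29a1_C0.EstC46
open Pool.Agent.W_7d29a1_C0.GeoD36 (en st xx xx_le lt_xx xx8)
open Pool.Agent.W_7d29a1_C0.T93 (er er_nonneg)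
open Pool.Agent.W_7d29a1_C0.T0P33 (Nq ee ee_nonneg Blk33 Sl33)

noncomputable section

/-- The small factor `A = n ^ ι`. -/
structure NA57 (n A k ι : ℝ) : Prop where
  n1 : 1 < n
  Ad : A = n ^ ι
  A2 : 240 ≤ A
  pw : ∀ e : ℕ, e ≤ 50 → A ^ e ≤ n ^ (k / 2)
  k0 : 0 < k
  k1 : k ≤ 1

section num

variable {n A k ι : ℝ}

theorem NA57.of {c₁ : ℝ} (hn : 1 < n) (hA : A = n ^ ι) (hA2 : 240 ≤ A) (hk0 : 0 < k) (hk1 : k ≤ 1) (hι : ι ≤ k / 100)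
    (hι0 : 0 ≤ ι) : NA57 n A k ι where
  n1 := hn
  Ad := hA
  A2 := hA2
  pw e he := by
    rw [hA, ← Real.rpow_natCast, ← Real.rpow_mul (by linarith)]
    refine Real.rpow_le_rpow_of_exponent_le hn.le ?_
    have : (e : ℝ) ≤ 50 := by exact_mod_cast he
    nlinarith
  k0 := hk0
  k1 := hk1

variable (h : NA57 n A k ι)
include h

theorem NA57.n0 : 0 < n := by linarith [h.n1]

theorem NA57.pwk (e : ℕ) (he : e ≤ 50) : A ^ e ≤ n ^ k :=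
  (h.pw e he).trans (Real.rpow_le_rpow_of_exponent_le h.n1.le (by linarith [h.k0]))

theorem NA57.le_k : A ≤ n ^ k := by
  have := h.pwk 1 (by norm_num)
  rwa [pow_one] at this

theorem NA57.le_n : A ≤ n := h.le_k.trans (by
  calc n ^ k ≤ n ^ (1 : ℝ) := Real.rpow_le_rpow_of_exponent_le h.n1.le h.k1
    _ = n := Real.rpow_one _)

theorem NA57.two : n ^ (2 * ι) = A * A := by
  rw [h.Ad, ← Real.rpow_add h.n0]
  ring_nf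

theorem NA57.rho : n ^ (-ι) * A = 1 := by
  rw [h.Ad, ← Real.rpow_add h.n0, neg_add_cancel, Real.rpow_zero]

theorem NA57.kk : n ^ (-k) * n ^ k = 1 := by
  rw [← Real.rpow_add h.n0, neg_add_cancel, Real.rpow_zero]

/-- `T ≤ A ^ e t` gives `n ^ (-k) T ≤ t`. -/
theorem NA57.lo {T t : ℝ} (ht : 0 ≤ t) (e : ℕ) (he : e ≤ 50) (hT : T ≤ A ^ e * t) : n ^ (-k) * T ≤ t := by
  have h1 := h.n0
  calc n ^ (-k) * T ≤ n ^ (-k) * (n ^ k * t) :=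
        mul_le_mul_of_nonneg_left (hT.trans (mul_le_mul_of_nonneg_right (h.pwk e he) ht)) (by positivity)
    _ = t := by rw [← mul_assoc, h.kk, one_mul]

variable {q0 : ℕ} {M : ℝ} (hq : (q0 : ℝ) ≤ 20 * A)
include hq

theorem NA57.q3 : 3 * (q0 : ℝ) * A ≤ A ^ 3 := by
  have hA := h.A2
  have h2 : 3 * (q0 : ℝ) * A ≤ 60 * A * A := by
    have := mul_le_mul_of_nonneg_right hq (show 0 ≤ A by linarith)
    linarith
  have h3 := mul_le_mul_of_nonneg_right (show 60 ≤ A by linarith) (show 0 ≤ A * A by positivity)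
  linarith [show A ^ 3 = A * (A * A) by ring]

theorem NA57.qk : (q0 : ℝ) ≤ n ^ k := by
  refine le_trans ?_ (h.pwk 3 (by norm_num))
  have hA := h.A2
  have h2 : (q0 : ℝ) * 1 ≤ q0 * A := mul_le_mul_of_nonneg_left (by linarith) (Nat.cast_nonneg _)
  have h3 : (0 : ℝ) ≤ q0 * A := by positivity
  linarith [h.q3 hq]

theorem NA57.kA : 3 * (q0 : ℝ) * n ^ (2 * ι) ≤ 2 * n ^ k := by
  have hA := h.A2
  have h0 := h.n0
  rw [h.two]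
  have h2 := mul_le_mul_of_nonneg_right (h.q3 hq) (show 0 ≤ A by linarith)
  have h3 := h.pwk 4 (by norm_num)
  have h4 : (0 : ℝ) ≤ n ^ k := by positivity
  calc 3 * (q0 : ℝ) * (A * A) = 3 * q0 * A * A := by ring
    _ ≤ A ^ 3 * A := h2
    _ = A ^ 4 := by ring
    _ ≤ 2 * n ^ k := by linarith

theorem NA57.q6 : 6 * (q0 : ℝ) ≤ n := by
  have hA := h.A2
  refine le_trans ?_ ((h.pwk 2 (by norm_num)).trans (by
    calc n ^ k ≤ n ^ (1 : ℝ) := Real.rpow_le_rpow_of_exponent_le h.n1.le h.k1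
      _ = n := Real.rpow_one _))
  calc 6 * (q0 : ℝ) ≤ 120 * A := by linarith
    _ ≤ A * A := mul_le_mul_of_nonneg_right (by linarith) (by linarith)
    _ = A ^ 2 := by ring

/-- `48 q0` is below the window. -/
theorem NA57.q48 {b : ℕ} (hb : A ^ 3 ≤ b) : 48 * q0 ≤ 8 * b := by
  have hA := h.A2
  have h2 : 960 * A ≤ A ^ 3 := by
    have h3 : (960 : ℝ) ≤ A * A := by nlinarith
    have h4 := mul_le_mul_of_nonneg_right h3 (show 0 ≤ A by linarith)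
    linarith [show A ^ 3 = A * A * A by ring]
  have h3 : (48 : ℝ) * q0 ≤ 8 * b := by linarith
  exact_mod_cast h3

end num

/-! ### The scales -/

section scales

variable {A k ι : ℝ} {m p q sg q0 l0 b0 : ℕ}

theorem ts57 (h : NA57 ((2 ^ m : ℕ) : ℝ) A k ι) (hq : (q0 : ℝ) ≤ 20 * A) (hq2 : 2 ≤ q0)
    (hX : 12 * q0 ≤ xx (((2 ^ m : ℕ) : ℝ) ^ (-ι)) sg) (hx8 : 8 * xx (((2 ^ m : ℕ) : ℝ) ^ (-ι)) sg ≤ 2 ^ sg) :
    ((2 ^ m : ℕ) : ℝ) ^ (-k) * ((2 ^ sg : ℕ) : ℝ) ≤ tw57 (xx (((2 ^ m : ℕ) : ℝ) ^ (-ι)) sg) q0 ∧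
      tw57 (xx (((2 ^ m : ℕ) : ℝ) ^ (-ι)) sg) q0 ≤ 2 ^ sg := by
  obtain ⟨x, hx⟩ : ∃ x, x = xx (((2 ^ m : ℕ) : ℝ) ^ (-ι)) sg := ⟨_, rfl⟩
  have hA := h.A2
  have h4 := lt_xx (((2 ^ m : ℕ) : ℝ) ^ (-ι)) sg
  rw [← hx] at hX hx8 h4 ⊢
  refine ⟨win_lo57 h.n1 hq2 hX ?_ (h.kA hq), ?_⟩
  · have h5 : (1 : ℝ) ≤ x := by
      have : 1 ≤ x := by omega
      exact_mod_cast this
    have h6 : ((2 ^ m : ℕ) : ℝ) ^ (-ι) * 2 ^ sg ≤ 8 * x := by linarith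
    have h7 : (2 : ℝ) ^ sg = A * (((2 ^ m : ℕ) : ℝ) ^ (-ι) * 2 ^ sg) := by
      rw [← mul_assoc, mul_comm A, h.rho, one_mul]
    rw [h.two, Nat.cast_pow, Nat.cast_ofNat, h7]
    calc A * (((2 ^ m : ℕ) : ℝ) ^ (-ι) * 2 ^ sg) ≤ A * (8 * x) := mul_le_mul_of_nonneg_left h6 (by linarith)
      _ = A * 8 * x := by ring
      _ ≤ A * A * x := mul_le_mul_of_nonneg_right (mul_le_mul_of_nonneg_left (by linarith) (by linarith)) (by positivity)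
  · have := (win57 hq2 hX).2
    omega

theorem tb57 (h : NA57 ((2 ^ m : ℕ) : ℝ) A k ι) (hb : ((2 ^ p : ℕ) : ℝ) ≤ 2 * A * b0)
    (hl : (b0 : ℝ) ≤ ((2 ^ m : ℕ) : ℝ) ^ (2 * ι) * ((4 * l0 : ℕ) : ℝ)) :
    ((2 ^ m : ℕ) : ℝ) ^ (-k) * ((2 ^ p : ℕ) : ℝ) ≤ ((4 * l0 : ℕ) : ℝ) := by
  have hA := h.A2
  have hA0 : 0 ≤ A := by linarith
  refine h.lo (Nat.cast_nonneg _) 4 (by norm_num) ?_
  rw [h.two] at hl
  calc ((2 ^ p : ℕ) : ℝ) ≤ 2 * A * b0 := hb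
    _ ≤ 2 * A * (A * A * ((4 * l0 : ℕ) : ℝ)) := mul_le_mul_of_nonneg_left hl (by positivity)
    _ ≤ A * A * (A * A * ((4 * l0 : ℕ) : ℝ)) := mul_le_mul_of_nonneg_right (mul_le_mul_of_nonneg_right (by linarith) hA0)
        (by positivity)
    _ = _ := by ring

theorem tr57 (h : NA57 ((2 ^ m : ℕ) : ℝ) A k ι) (hg : 1 ≤ gl46 ι m q) :
    ((2 ^ m : ℕ) : ℝ) ^ (-k) * ((2 ^ q : ℕ) : ℝ) ≤ ((4 * gl46 ι m q : ℕ) : ℝ) ∧ 4 * gl46 ι m q ≤ 2 ^ q := by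
  obtain ⟨gl, hgl⟩ : ∃ gl, gl = gl46 ι m q := ⟨_, rfl⟩
  have hA := h.A2
  have h4 : ((2 ^ m : ℕ) : ℝ) ^ (-ι) * 2 ^ q / 8 < gl + 1 := by
    rw [hgl]
    exact Nat.lt_floor_add_one _
  have h3 : (gl : ℝ) ≤ ((2 ^ m : ℕ) : ℝ) ^ (-ι) * 2 ^ q / 8 := by
    rw [hgl]
    exact Nat.floor_le (by positivity)
  rw [← hgl] at hg ⊢
  have hρ0 : 0 ≤ ((2 ^ m : ℕ) : ℝ) ^ (-ι) := by positivity
  have hρ1 : ((2 ^ m : ℕ) : ℝ) ^ (-ι) ≤ 1 / 2 := by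
    have h2 : ((2 ^ m : ℕ) : ℝ) ^ (-ι) * 2 ≤ ((2 ^ m : ℕ) : ℝ) ^ (-ι) * A := mul_le_mul_of_nonneg_left (by linarith) hρ0
    rw [h.rho] at h2
    linarith
  have h5 : (1 : ℝ) ≤ gl := by exact_mod_cast hg
  constructor
  · refine h.lo (Nat.cast_nonneg _) 2 (by norm_num) ?_
    have h6 : ((2 ^ m : ℕ) : ℝ) ^ (-ι) * 2 ^ q ≤ 16 * gl := by linarith
    have h7 : (2 : ℝ) ^ q = A * (((2 ^ m : ℕ) : ℝ) ^ (-ι) * 2 ^ q) := by rw [← mul_assoc, mul_comm A, h.rho, one_mul]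
    rw [Nat.cast_pow, Nat.cast_ofNat, h7, Nat.cast_mul, Nat.cast_ofNat]
    calc A * (((2 ^ m : ℕ) : ℝ) ^ (-ι) * 2 ^ q) ≤ A * (16 * gl) := mul_le_mul_of_nonneg_left h6 (by linarith)
      _ = A * 4 * (4 * gl) := by ring
      _ ≤ A * A * (4 * gl) := mul_le_mul_of_nonneg_right (mul_le_mul_of_nonneg_left (by linarith) (by linarith)) (by positivity)
      _ = A ^ 2 * (4 * gl) := by ring
  · have h6 : ((2 ^ m : ℕ) : ℝ) ^ (-ι) * 2 ^ q ≤ 1 / 2 * (2 : ℝ) ^ q := mul_le_mul_of_nonneg_right hρ1 (by positivity)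
    have h7 : (4 : ℝ) * gl ≤ 2 ^ q := by
      have : (0 : ℝ) < 2 ^ q := by positivity
      linarith
    exact_mod_cast h7

/-- The window of the frame. -/
theorem bb57 {ι : ℝ} (hι : 0 ≤ ι) : ((2 ^ p : ℕ) : ℝ) ≤
    2 * ((2 ^ m : ℕ) : ℝ) ^ ι * ((2 ^ (p - ⌈ι * (m : ℝ)⌉₊) : ℕ) : ℝ) := by
  have h2 : 2 ^ p ≤ 2 ^ ⌈ι * (m : ℝ)⌉₊ * 2 ^ (p - ⌈ι * (m : ℝ)⌉₊) := by
    rw [← pow_add]
    exact Nat.pow_le_pow_right two_pos (by omega)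
  have h3 : ((2 ^ ⌈ι * (m : ℝ)⌉₊ : ℕ) : ℝ) ≤ 2 * ((2 ^ m : ℕ) : ℝ) ^ ι := by
    push_cast
    rw [← Real.rpow_natCast 2 m, ← Real.rpow_natCast 2 ⌈ι * (m : ℝ)⌉₊, ← Real.rpow_mul two_pos.le]
    have h4 : (⌈ι * (m : ℝ)⌉₊ : ℝ) ≤ 1 + m * ι := by
      have := (Nat.ceil_lt_add_one (show 0 ≤ ι * (m : ℝ) by positivity)).le
      linarith
    calc (2 : ℝ) ^ ((⌈ι * (m : ℝ)⌉₊ : ℕ) : ℝ) ≤ 2 ^ (1 + m * ι) := Real.rpow_le_rpow_of_exponent_le one_le_two h4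
      _ = 2 * 2 ^ (m * ι) := by rw [Real.rpow_add two_pos, Real.rpow_one]
  calc ((2 ^ p : ℕ) : ℝ) ≤ ((2 ^ ⌈ι * (m : ℝ)⌉₊ * 2 ^ (p - ⌈ι * (m : ℝ)⌉₊) : ℕ) : ℝ) := by exact_mod_cast h2
    _ = ((2 ^ ⌈ι * (m : ℝ)⌉₊ : ℕ) : ℝ) * ((2 ^ (p - ⌈ι * (m : ℝ)⌉₊) : ℕ) : ℝ) := by push_cast; ring
    _ ≤ _ := mul_le_mul_of_nonneg_right h3 (Nat.cast_nonneg _)

theorem b0lt57 {ι : ℝ} (hι : 0 < ι) (hm : 0 < m) (hp : 1 ≤ p) : 2 ^ (p - ⌈ι * (m : ℝ)⌉₊) < 2 ^ p := by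
  have hceil : 1 ≤ ⌈ι * (m : ℝ)⌉₊ := by
    have h2 : (0 : ℝ) < ι * m := by
      have : (0 : ℝ) < m := by exact_mod_cast hm
      positivity
    exact Nat.one_le_ceil_iff.2 h2
  exact Nat.pow_lt_pow_right one_lt_two (by omega)

end scales

/-! ### The errors -/

theorem ev_e57 {K : ℕ} (hK : 1 ≤ K) {g : ℝ} (hg : 0 < g) :
    ∀ᶠ m : ℕ in atTop, Real.exp (-(L33 K m : ℝ) ^ g) ≤ (L33 K m : ℝ) ^ (-20 : ℝ) := by
  obtain ⟨N₁, h1⟩ := eventually_atTop.1 (EvT50.ev_exp50 1 20 (a := 1) one_pos hg)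
  filter_upwards [ev_L hK N₁] with m hm
  have h2 := h1 (L33 K m) hm
  rwa [one_mul, one_mul] at h2

/-- The error of the prices. -/
theorem err57 {n L e₂ M q : ℝ} {N : ℕ} (hn : 2 ≤ n) (hNL : L = (N : ℝ)) (hL : n ^ 32 ≤ L) (hq0 : 0 ≤ q) (hq : 6 * q ≤ n)
    (h1 : er N e₂ ≤ L ^ (-20 : ℝ)) (h2 : Real.exp (-M) ≤ L ^ (-20 : ℝ)) :
    (N : ℝ) ^ 9 * (6 * q) ^ 4 * ee N e₂ M ≤ n ^ (-8 : ℝ) ∧ ∀ v : ℝ, 0 ≤ v → v ≤ (6 * q) ^ 4 → v * ee N e₂ M / 2 ≤ n ^ (-8 : ℝ) := by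
  subst hNL
  have hn0 : 0 < n := by linarith
  have hn1 : 1 ≤ n := by linarith
  have hL1 : (1 : ℝ) ≤ (N : ℝ) := (one_le_pow₀ hn1).trans hL
  have hL0 : (0 : ℝ) < (N : ℝ) := by linarith
  have hnL : n ≤ (N : ℝ) := by
    refine le_trans ?_ hL
    calc n = n ^ 1 := (pow_one _).symm
      _ ≤ n ^ 32 := pow_le_pow_right₀ hn1 (by norm_num)
  have h0 := ee_nonneg N e₂ M
  have hee : ee N e₂ M ≤ 2 * (N : ℝ) ^ (-20 : ℝ) := by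
    unfold ee
    linarith
  have h2 : (6 * q) ^ 4 ≤ (N : ℝ) ^ 4 := pow_le_pow_left₀ (by positivity) (hq.trans hnL) 4
  have h3 : (N : ℝ) ^ (-20 : ℝ) * (N : ℝ) ^ 13 = (N : ℝ) ^ (-7 : ℝ) := by
    rw [← Real.rpow_natCast, ← Real.rpow_add hL0]
    norm_num
  have h4 : (N : ℝ) ^ (-7 : ℝ) ≤ (N : ℝ) ^ (-1 : ℝ) := Real.rpow_le_rpow_of_exponent_le hL1 (by norm_num)
  have h5 : (N : ℝ) ^ (-1 : ℝ) ≤ (n ^ 32)⁻¹ := by
    rw [Real.rpow_neg_one]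
    exact inv_anti₀ (by positivity) hL
  have h6 : (n ^ 32)⁻¹ ≤ n ^ (-8 : ℝ) / 2 := by
    have e1 : n ^ (-8 : ℝ) = (n ^ 8)⁻¹ := by
      rw [Real.rpow_neg hn0.le, ← Real.rpow_natCast]
      norm_num
    rw [e1, ← one_div, ← one_div, div_div]
    refine one_div_le_one_div_of_le (by positivity) ?_
    calc n ^ 8 * 2 ≤ n ^ 8 * n := mul_le_mul_of_nonneg_left hn (by positivity)
      _ = n ^ 9 := by ring
      _ ≤ _ := pow_le_pow_right₀ hn1 (by norm_num)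
  have k1 : (N : ℝ) ^ 9 * (6 * q) ^ 4 * ee N e₂ M ≤ n ^ (-8 : ℝ) := by
    calc (N : ℝ) ^ 9 * (6 * q) ^ 4 * ee N e₂ M ≤ (N : ℝ) ^ 9 * (N : ℝ) ^ 4 * (2 * (N : ℝ) ^ (-20 : ℝ)) :=
          mul_le_mul (mul_le_mul_of_nonneg_left h2 (by positivity)) hee h0 (by positivity)
      _ = 2 * ((N : ℝ) ^ (-20 : ℝ) * (N : ℝ) ^ 13) := by ring
      _ ≤ _ := by
          rw [h3]
          linarith
  refine ⟨k1, fun v hv0 hv => ?_⟩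
  have h7 : v * ee N e₂ M ≤ (6 * q) ^ 4 * ee N e₂ M := mul_le_mul_of_nonneg_right hv h0
  have h8 : 0 ≤ (6 * q) ^ 4 * ee N e₂ M := by positivity
  have h9 : (6 * q) ^ 4 * ee N e₂ M ≤ (N : ℝ) ^ 9 * (6 * q) ^ 4 * ee N e₂ M := by
    have h5 : (1 : ℝ) ≤ (N : ℝ) ^ 9 := one_le_pow₀ hL1
    calc _ = 1 * ((6 * q) ^ 4 * ee N e₂ M) := (one_mul _).symm
      _ ≤ (N : ℝ) ^ 9 * ((6 * q) ^ 4 * ee N e₂ M) := mul_le_mul_of_nonneg_right h5 h8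
      _ = _ := by ring
  have h10 : 0 ≤ v * ee N e₂ M := by positivity
  linarith

/-! ### The width -/

theorem wid57 {μ : Measure ℝ} {s aw Kw n A L k : ℝ} {b : ℕ} (haw : 0 < aw) (hKw : 1 ≤ Kw)
    (hwd : ∀ m n : ℕ, 1 ≤ m → m ≤ n → wd' μ s m ≤ Kw * wd' μ s n ∧ Kw⁻¹ * ((n : ℝ) / m) ^ aw * wd' μ s m ≤ wd' μ s n ∧
      wd' μ s n ≤ Kw * ((n : ℝ) / m) ^ (1 - aw) * wd' μ s m)
    (hn : 2 ≤ n) (hA1 : 8 ≤ A) (hAn : A ≤ n) (hA4 : 4 * Kw ^ 2 * wd' μ s 1 ≤ A) (hAK : Kw ≤ A) (hA3 : A ^ 3 ≤ n ^ (k / 2)) (hL : n ^ 32 ≤ L)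
    (hb1 : 1 ≤ b) (hbn : ((8 * b : ℕ) : ℝ) ≤ n) : ∃ R : ℝ, 1 ≤ R ∧ R ≤ L ^ 2 ∧ (∀ k : ℕ, 1 ≤ k → k ≤ 8 * b → A * wd' μ s k ≤ R / 8) ∧
      R ≤ n ^ (k / 2) * wd' μ s (8 * b) := by
  obtain ⟨W, hW⟩ : ∃ W, W = wd' μ s (8 * b) := ⟨_, rfl⟩
  have hW1 : 1 ≤ W := by rw [hW]; exact le_max_left _ _
  have hw1 : 1 ≤ wd' μ s 1 := le_max_left _ _
  have hn0 : 0 < n := by linarith
  have hn1 : 1 ≤ n := by linarith
  have hA0 : 0 < A := by linarith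
  have hL1 : 1 ≤ L := (one_le_pow₀ hn1).trans hL
  refine ⟨8 * A * Kw * W, ?_, ?_, fun k hk1 hk2 => ?_, ?_⟩
  · have h2 : 1 ≤ A * Kw := one_le_mul_of_one_le_of_one_le (by linarith) hKw
    have h3 : 1 ≤ A * Kw * W := one_le_mul_of_one_le_of_one_le h2 hW1
    have e : 8 * A * Kw * W = 8 * (A * Kw * W) := by ring
    rw [e]
    linarith
  · have h2 := (hwd 1 (8 * b) le_rfl (by omega)).2.2
    have h3 : (((8 * b : ℕ) : ℝ) / ((1 : ℕ) : ℝ)) ^ (1 - aw) ≤ n := by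
      rw [Nat.cast_one, div_one]
      have h4 : (1 : ℝ) ≤ ((8 * b : ℕ) : ℝ) := by
        have : 1 ≤ 8 * b := by omega
        exact_mod_cast this
      calc ((8 * b : ℕ) : ℝ) ^ (1 - aw) ≤ ((8 * b : ℕ) : ℝ) ^ (1 : ℝ) :=
            Real.rpow_le_rpow_of_exponent_le h4 (by linarith)
        _ = ((8 * b : ℕ) : ℝ) := Real.rpow_one _
        _ ≤ _ := hbn
    have h5 : W ≤ Kw * n * wd' μ s 1 := by
      rw [hW]
      exact h2.trans (mul_le_mul_of_nonneg_right (mul_le_mul_of_nonneg_left h3 (by linarith)) (by linarith))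
    have p0 : 0 ≤ 4 * Kw ^ 2 * wd' μ s 1 := by positivity
    calc 8 * A * Kw * W ≤ 8 * A * Kw * (Kw * n * wd' μ s 1) := mul_le_mul_of_nonneg_left h5 (by positivity)
      _ = 2 * A * n * (4 * Kw ^ 2 * wd' μ s 1) := by ring
      _ ≤ n * n * n * n := mul_le_mul (mul_le_mul_of_nonneg_right (mul_le_mul hn hAn hA0.le hn0.le) hn0.le) (hA4.trans hAn) p0
          (by positivity)
      _ = n ^ 4 := by ring
      _ ≤ n ^ 32 := pow_le_pow_right₀ hn1 (by norm_num)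
      _ ≤ L := hL
      _ = L * 1 := (mul_one _).symm
      _ ≤ L * L := mul_le_mul_of_nonneg_left hL1 (by linarith)
      _ = _ := by ring
  · have h3 := (hwd k (8 * b) hk1 hk2).1
    rw [← hW] at h3
    calc A * wd' μ s k ≤ A * (Kw * W) := mul_le_mul_of_nonneg_left h3 hA0.le
      _ = 8 * A * Kw * W / 8 := by ring
  · rw [← hW]
    refine mul_le_mul_of_nonneg_right (le_trans ?_ hA3) (by linarith)
    calc 8 * A * Kw ≤ A * A * A := mul_le_mul (mul_le_mul_of_nonneg_right hA1 hA0.le) hAK (by linarith) (by positivity)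
      _ = A ^ 3 := by ring

/-- The windows of the loops. -/
theorem sl57 {N q b σ : ℕ} {θ : ℝ} {S : Finset ℕ} (hq : 2 ≤ q) (hb : 3 ≤ b) (h48 : 48 * q ≤ 8 * b)
    (hlo : ∀ D, 8 * b ≤ D → D < σ → (N : ℝ) ^ θ ≤ tD57 q D) (hσ : σ ≤ N) {mm : ℕ → ℕ} (hm : ∀ j ∈ S, j + b ≤ mm j ∧ mm j ≤ j + 4 * b) :
    Sl33 N θ q S b σ mm (tD57 q) where
  mm := hm
  t0 := hlo
  t1 D h1 h2 := ((tD57_le hq (h48.trans h1)).2).trans (h2.le.trans hσ)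
  fit D h1 h2 := by
    have h3 := (tD57_le hq (h48.trans h1)).1
    omega

end

end Pool.Agent.W_7d29a1_C0.TN57
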