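import Pool.Agent.W_7d29a1_C0.T0J57
import Pool.Agent.W_7d29a1_C0.T0R57
import Pool.Agent.W_7d29a1_C0.T0N92

/-!
MP_7d29a1_pr, [CURV0] (helper57), leaf (T), `T_0L`: ONE BLOCK AT ONE LENGTH: `D57` = everything about one block of the frame (geometry, prices,
numbers), `blk0_57` = the bound of `T0N57` from `D57` and the rows, `d57` = `D57` at the frame.
-/

set_option autoImplicit false
set_option linter.unusedVariables false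

namespace Pool.Agent.W_7d29a1_C0.TN57

open Finset MeasureTheory Filter Topology Pool.Agent.W_7d29a1_F Pool.Agent.W_7d29a1_X
open Pool.Agent.W_7d29a1_H (sl EE)
open Pool.Agent.W_7d29a1_HS (In wd)
open Pool.Agent.W_7d29a1_HZ (wd' EE')
open Pool.Agent.W_7d29a1_C0 Pool.Agent.W_7d29a1_C0.Mod92 Pool.Agent.W_7d29a1_C0.Asm96 Pool.Agent.W_7d29a1_C0.Frm33
open Pool.Agent.W_7d29a1_C0.EstC46
open Pool.Agent.W_7d29a1_C0.GeoD36 (en st xx xx_le lt_xx xx8)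
open Pool.Agent.W_7d29a1_C0.T72 (NN72 TI72)
open Pool.Agent.W_7d29a1_C0.T93 (rw2 pr2 pc er prN_all er_nonneg pc_nonneg PrN)
open Pool.Agent.W_7d29a1_C0.T0E90 (bmB bpB U0F UAF UMF U0F_nonneg U0F_le_one meas_U0F UAF_nonneg UAF_le_one meas_UAF UMF_nonneg UMF_le_two
  meas_UMF)
open Pool.Agent.W_7d29a1_C0.T0P33 (Blk33 Out Nq Sl33 ee ee_nonneg tot0_92 totM_92 totA_92)
open Pool.Agent.W_7d29a1_C0.T0N92 (S092 SM92 SA92 al92 t0n92)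
open Pool.Agent.W_7d29a1_C0.CrA44 (ge)

noncomputable section

variable {μ : Measure ℝ} {s : ℝ}

theorem f02_U0 (N σ b : ℕ) (M : ℝ) (j : ℕ) : F02 (U0F μ s N σ b M j) :=
  ⟨fun y ω x => U0F_nonneg _ _ _ _ _ _ _, fun y ω x => (U0F_le_one _ _ _ _ _ _ _).trans one_le_two, fun y S => meas_U0F _ _ _ _ _ _⟩

theorem f02_UA (N σ b : ℕ) (M : ℝ) (m j : ℕ) : F02 (UAF μ s N σ b M m j) :=
  ⟨fun y ω x => UAF_nonneg _ _ _ _ _ _ _ _, fun y ω x => (UAF_le_one _ _ _ _ _ _ _ _).trans one_le_two, fun y S => meas_UAF _ _ _ _ _ _ _⟩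

theorem f02_UM (N σ b b0 : ℕ) (M : ℝ) (m j : ℕ) : F02 (UMF μ s N σ b b0 M m j) :=
  ⟨fun y ω x => UMF_nonneg _ _ _ _ _ _ _ _ _, fun y ω x => UMF_le_two _ _ _ _ _ _ _ _ _, fun y S => meas_UMF _ _ _ _ _ _ _ _⟩

/-- **Everything about one block.** -/
structure D57 (μ : Measure ℝ) (s : ℝ) (N : ℕ) (n ε θ κ e₂ M x Θ B R : ℝ) (ys S : Finset ℕ) (q b b0 σ zt c₁ r tr ts tb : ℕ)
    (tD : ℕ → ℕ) : Prop where
  hys : ∀ y ∈ ys, y ≤ N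
  hne : ys.Nonempty
  hP : ∀ y ∈ ys, ∀ k ≤ 5, PrN μ s N y ε θ κ e₂ k
  e1 : ε ≤ 1
  hn : Nq N κ q M
  ho : Out N θ zt (c₁ + r) tr
  g : Blk33 N θ q S b b0 σ zt ts tb
  lo4 : ∀ j ∈ S, j / σ * σ + 4 * b ≤ j
  b1 : 1 ≤ b
  a : ∀ mm : ℕ → ℕ, (∀ j ∈ S, j + b ≤ mm j ∧ mm j ≤ j + 4 * b) → Sl33 N θ q S b σ mm tD
  hc : σ ∣ c₁
  hr : σ ∣ r
  hrN : r ≤ N
  hS : ∀ j ∈ S, c₁ ≤ j ∧ j < c₁ + r
  n0 : al92 ((N : ℝ) ^ ε) B R b ((N : ℝ) ^ ε * (EE' μ s b)⁻¹) ^ 2 * S092 (pc μ s N ε) q ((3 * (q : ℝ)) ^ 2 * ee N e₂ M / 2) tr ts r σ ≤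
    n ^ (Θ - 2 * x) / 256
  nM : (4 * B ^ 3 * (N : ℝ) ^ ε) ^ 2 * SM92 (pc μ s N ε) q ((6 * (q : ℝ)) ^ 4 * ee N e₂ M / 2) tr tb r σ b ≤ n ^ (Θ - 2 * x) / 256
  nA : (4 * B ^ 3 * (N : ℝ) ^ ε) ^ 2 * SA92 (pc μ s N ε) q tr ts tD r σ b ((N : ℝ) ^ 9 * (6 * (q : ℝ)) ^ 4 * ee N e₂ M) ≤
    n ^ (Θ - 2 * x) / 256

section blk

variable [IsProbabilityMeasure μ] {N : ℕ} {ε θ κ e₂ M x Θ B R : ℝ} {ys S : Finset ℕ} {q0 b b0 σ zt c₁ tr ts tb m q : ℕ} {tD : ℕ → ℕ}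

/-- **THE BLOCK.** -/
theorem blk0_57 (h : D57 μ s N ((2 ^ m : ℕ) : ℝ) ε θ κ e₂ M x Θ B R ys S q0 b b0 σ zt c₁ (2 ^ q) tr ts tb tD) (hB : 0 ≤ B)
    {f : Fam N} {D : ℝ} (mf : ∀ y S, Measurable fun ω => f y ω S) (bf : ∀ y ω S, |f y ω S| ≤ D) {X : ℕ → ℕ → ℝ} {e : ℝ} (he : 0 ≤ e)
    (row : ∀ j ∈ S, ∀ y ∈ ys, |X j y| ≤
      al92 ((N : ℝ) ^ ε) B R b ((N : ℝ) ^ ε * (EE' μ s b)⁻¹) * (1 / 2 * rw2 μ s N (NN72 N zt (c₁ + 2 ^ q)) (U0F μ s N σ b M j) f y) +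
      4 * B ^ 3 * (N : ℝ) ^ ε * (∑ n ∈ range b, (b : ℝ)⁻¹ *
        (1 / 2 * rw2 μ s N (NN72 N zt (c₁ + 2 ^ q)) (UMF μ s N σ b b0 M (j + 2 * b + 1 + n) j) f y)) +
      4 * B ^ 3 * (N : ℝ) ^ ε * (∑ n ∈ range b, (b : ℝ)⁻¹ *
        (1 / 2 * rw2 μ s N (NN72 N zt (c₁ + 2 ^ q)) (UAF μ s N σ b M (j + 2 * b + 1 + n) j) f y)) +
      4 * B ^ 3 * (N : ℝ) ^ ε * (1 / 2 * rw2 μ s N (NN72 N zt (c₁ + 2 ^ q)) (UAF μ s N σ b M (j + 4 * b) j) f y) + e) :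
    |∑ j ∈ S, avy ys (X j)| ≤ kp46 Θ x m q * √(avy ys (varF μ s N f)) + S.card * e := by
  have hal : 0 ≤ al92 ((N : ℝ) ^ ε) B R b ((N : ℝ) ^ ε * (EE' μ s b)⁻¹) := by
    have := pc_nonneg (μ := μ) (s := s) N ε b
    unfold pc at this
    unfold al92
    positivity
  have hbe : 0 ≤ 4 * B ^ 3 * (N : ℝ) ^ ε := by positivity
  have hS' : ∀ j ∈ S, c₁ ≤ j ∧ j < c₁ + 2 ^ q := h.hS
  have T0 := tot0_92 (μ := μ) (s := s) h.hP h.hys h.hn h.ho h.g hS'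
  have TM : ∀ n < b, ∑ j ∈ S, ∑ k ∈ S, avy ys (pr2 μ s N (NN72 N zt (c₁ + 2 ^ q)) (UMF μ s N σ b b0 M (j + 2 * b + 1 + n) j)
      (UMF μ s N σ b b0 M (k + 2 * b + 1 + n) k)) ≤
      2 * ((2 ^ q : ℕ) : ℝ) * SM92 (pc μ s N ε) q0 ((6 * (q0 : ℝ)) ^ 4 * ee N e₂ M / 2) tr tb (2 ^ q) σ b := fun n hn =>
    totM_92 (μ := μ) (s := s) h.hP h.hys h.hn h.ho h.g (mm := fun j => j + 2 * b + 1 + n) (fun j hj => ⟨by omega, by omega⟩) hS'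
  have TA : ∀ mm : ℕ → ℕ, (∀ j ∈ S, j + b ≤ mm j ∧ mm j ≤ j + 4 * b) → ∑ j ∈ S, ∑ k ∈ S,
      avy ys (pr2 μ s N (NN72 N zt (c₁ + 2 ^ q)) (UAF μ s N σ b M (mm j) j) (UAF μ s N σ b M (mm k) k)) ≤
      2 * ((2 ^ q : ℕ) : ℝ) * SA92 (pc μ s N ε) q0 tr ts tD (2 ^ q) σ b ((N : ℝ) ^ 9 * (6 * (q0 : ℝ)) ^ 4 * ee N e₂ M) := fun mm hmm =>
    totA_92 (μ := μ) (s := s) h.hP h.hys h.e1 h.hn h.ho h.g (h.a mm hmm) h.hc h.hr h.hrN hS'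
  have key := sum0_57 (μ := μ) (s := s) (X := X) h.hys h.hne h.b1
    (fun j => f02_U0 N σ b M j)
    (fun n j => f02_UM N σ b b0 M (j + 2 * b + 1 + n) j)
    (fun n j => f02_UA N σ b M (j + 2 * b + 1 + n) j)
    (fun j => f02_UA N σ b M (j + 4 * b) j) mf bf (r := ((2 ^ q : ℕ) : ℝ)) (Nat.cast_nonneg _) hal hbe he row T0 TM
    (fun n hn => TA (fun j => j + 2 * b + 1 + n) fun j hj => ⟨by omega, by omega⟩)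
    (TA (fun j => j + 4 * b) fun j hj => ⟨by omega, by omega⟩)
  have k0 := kp0_57 (q := q) (m := m) rfl hal h.n0
  have kM := kp0_57 (q := q) (m := m) rfl hbe h.nM
  have kA := kp0_57 (q := q) (m := m) rfl hbe h.nA
  refine key.trans ?_
  have hk : 0 ≤ kp46 Θ x m q := by unfold kp46; positivity
  have hV : 0 ≤ √(avy ys (varF μ s N f)) := Real.sqrt_nonneg _
  refine add_le_add (mul_le_mul_of_nonneg_right ?_ hV) le_rfl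
  linarith

end blk

end

end Pool.Agent.W_7d29a1_C0.TN57
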