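import Pool.Agent.W_7d29a1_C0.TNa57
import Pool.Agent.W_7d29a1_C0.T0K57

/-!
MP_7d29a1_pr, [CURV0] (helper57), leaf (T), THE OWN BLOCK AT THE CONCRETE FRAME: `d57` = the data `D57` at one length,
`t0L57 : Row57 μ s → T0L57 μ s K Θ`.
-/

set_option autoImplicit false
set_option linter.unusedVariables false

namespace Pool.Agent.W_7d29a1_C0.TN57

open Finset MeasureTheory Filter Topology Pool.Agent.W_7d29a1_F Pool.Agent.W_7d29a1_X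
open Pool.Agent.W_7d29a1_H (sl EE)
open Pool.Agent.W_7d29a1_HS (In wd)
open Pool.Agent.W_7d29a1_HZ (wd' EE')
open Pool.Agent.W_7d29a1_C0 Pool.Agent.W_7d29a1_C0.Mod92 Pool.Agent.W_7d29a1_C0.Asm96 Pool.Agent.W_7d29a1_C0.Frm33
open Pool.Agent.W_7d29a1_C0.EstC46
open Pool.Agent.W_7d29a1_C0.GeoD36 (en st xx xx_le lt_xx xx8)
open Pool.Agent.W_7d29a1_C0.T72 (NN72 TI72)
open Pool.Agent.W_7d29a1_C0.T93 (rw2 pr2 pc er prN_all er_nonneg pc_nonneg PrN)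
open Pool.Agent.W_7d29a1_C0.T0P33 (Blk33 Out Nq Sl33 ee ee_nonneg)
open Pool.Agent.W_7d29a1_C0.T0N92 (S092 SM92 SA92 al92 t0n92)
open Pool.Agent.W_7d29a1_C0.Par92 (Est Sml)
open Pool.Agent.W_7d29a1_C0.CrA44 (ge)

noncomputable section

variable {μ : Measure ℝ} {s : ℝ}

/-- The thresholds at one length. -/
structure Th57 (μ : Measure ℝ) (s : ℝ) (K m : ℕ) (ι β c δ Θ k κ₂ e₂ εM Kw aw : ℝ) : Prop where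
  hK : 32 ≤ K
  hc : 0 < c
  hc1 : c ≤ 1
  hcδ : 64 * c ≤ δ
  kd : k = c / 1000
  ι0 : 0 < ι
  ιk : ι ≤ k / 100
  β0 : 0 < β
  βι : β ≤ ι
  eM0 : 0 < εM
  eM1 : εM ≤ ι / K
  eM2 : εM ≤ κ₂ / 2
  aw0 : 0 < aw
  Kw1 : 1 ≤ Kw
  wdq : ∀ m n : ℕ, 1 ≤ m → m ≤ n → wd' μ s m ≤ Kw * wd' μ s n ∧ Kw⁻¹ * ((n : ℝ) / m) ^ aw * wd' μ s m ≤ wd' μ s n ∧
      wd' μ s n ≤ Kw * ((n : ℝ) / m) ^ (1 - aw) * wd' μ s m
  bw : ∀ p : ℕ, δ * m ≤ p → ((2 ^ m : ℕ) : ℝ) ^ (δ / 4) ≤ ((2 ^ (p - ⌈ι * (m : ℝ)⌉₊) : ℕ) : ℝ)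
  big : 560 * Kw ^ 2 + 4 * Kw ^ 2 * wd' μ s 1 + 240 ≤ ((2 ^ m : ℕ) : ℝ) ^ ι
  n16 : 16 ≤ ((2 ^ m : ℕ) : ℝ) ^ c
  ex1 : Real.exp (-(L33 K m : ℝ) ^ e₂) ≤ (L33 K m : ℝ) ^ (-20 : ℝ)
  ex2 : Real.exp (-(L33 K m : ℝ) ^ εM) ≤ (L33 K m : ℝ) ^ (-20 : ℝ)
  s7 : 7 ≤ ((2 ^ m : ℕ) : ℝ) ^ (K * (κ₂ / 2))
  s8 : 8 ≤ ((2 ^ m : ℕ) : ℝ) ^ (K * εM)

section one

variable {K m p q i : ℕ} {ι β c δ Θ k κ₂ e₂ εM Kw aw a c₀ : ℝ}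

theorem Th57.na (T : Th57 μ s K m ι β c δ Θ k κ₂ e₂ εM Kw aw) (hn1 : (1 : ℝ) < ((2 ^ m : ℕ) : ℝ)) :
    NA57 ((2 ^ m : ℕ) : ℝ) (((2 ^ m : ℕ) : ℝ) ^ ι) k ι := by
  have h1 := T.big
  have h2 := T.Kw1
  have hwd1 : 1 ≤ wd' μ s 1 := le_max_left _ _
  have h3 : 0 ≤ 560 * Kw ^ 2 + 4 * Kw ^ 2 * wd' μ s 1 := by positivity
  have hc := T.hc
  have hc1 := T.hc1
  have hk := T.kd
  exact NA57.of (c₁ := 0) hn1 rfl (by linarith) (by rw [hk]; positivity) (by rw [hk]; linarith) T.ιk T.ι0.le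

/-- The pieces. -/
theorem Th57.pieces (T : Th57 μ s K m ι β c δ Θ k κ₂ e₂ εM Kw aw) (R : Reg46 (EE μ s) (wd μ s) c₀ Θ δ a ι ((2 ^ m : ℕ) : ℝ))
    (hst : St96 (EE μ s) δ c m p q) : ∃ q0 l0 : ℕ, Nq (L33 K m) κ₂ q0 ((L33 K m : ℝ) ^ εM) ∧
      (q0 : ℝ) ≤ 20 * ((2 ^ m : ℕ) : ℝ) ^ ι ∧ 2 ≤ q0 ∧ 3 * q0 * (l0 + 1) ≤ 2 ^ (p - ⌈ι * (m : ℝ)⌉₊) ∧
      ((2 ^ m : ℕ) : ℝ) ^ (-k) * ((2 ^ p : ℕ) : ℝ) ≤ ((4 * l0 : ℕ) : ℝ) ∧ 4 * l0 ≤ 2 ^ p ∧ 48 * q0 ≤ 8 * 2 ^ p := by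
  have hn1 := R.N1
  have hn0 := R.N0
  have hc := T.hc
  have hι := T.ι0
  have hkd := T.kd
  have hιk := T.ιk
  have hcδ := T.hcδ
  have N := T.na hn1
  have hA := N.A2
  obtain ⟨b0, hb0d⟩ : ∃ b0, b0 = 2 ^ (p - ⌈ι * (m : ℝ)⌉₊) := ⟨_, rfl⟩
  have hn2 : 2 ^ m ≤ L33 K m := L33_ge (by have := T.hK; omega) m
  have hn2' : ((2 ^ m : ℕ) : ℝ) ≤ ((L33 K m : ℕ) : ℝ) := by exact_mod_cast hn2
  have hL1 : (1 : ℝ) ≤ ((L33 K m : ℕ) : ℝ) := by linarith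
  have hL0 : (0 : ℝ) < ((L33 K m : ℕ) : ℝ) := by linarith
  have hK0 : (0 : ℝ) < K := by
    have : 0 < K := by have := T.hK; omega
    exact_mod_cast this
  have hNι : ((L33 K m : ℕ) : ℝ) ^ (ι / K) = ((2 ^ m : ℕ) : ℝ) ^ ι := by
    rw [L33_pow]
    congr 1
    field_simp
  obtain ⟨M, hM⟩ : ∃ M : ℝ, M = ((L33 K m : ℕ) : ℝ) ^ εM := ⟨_, rfl⟩
  have hM8 : 8 ≤ M := by
    rw [hM, L33_pow]
    exact T.s8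
  have hMn : M ≤ ((2 ^ m : ℕ) : ℝ) ^ ι := by
    rw [hM, ← hNι]
    exact Real.rpow_le_rpow_of_exponent_le hL1 T.eM1
  have hM7 : 7 * M ≤ ((L33 K m : ℕ) : ℝ) ^ κ₂ := by
    have h2 : M ≤ ((L33 K m : ℕ) : ℝ) ^ (κ₂ / 2) := by
      rw [hM]
      exact Real.rpow_le_rpow_of_exponent_le hL1 T.eM2
    have h3 : (7 : ℝ) ≤ ((L33 K m : ℕ) : ℝ) ^ (κ₂ / 2) := by
      rw [L33_pow]
      exact T.s7
    calc 7 * M ≤ ((L33 K m : ℕ) : ℝ) ^ (κ₂ / 2) * ((L33 K m : ℕ) : ℝ) ^ (κ₂ / 2) :=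
          mul_le_mul h3 h2 (by linarith) (by positivity)
      _ = _ := by
          rw [← Real.rpow_add hL0]
          ring_nf
  have hb04 : ((2 ^ m : ℕ) : ℝ) ^ (δ / 4) ≤ (b0 : ℝ) := by
    rw [hb0d]
    exact T.bw p hst.hp
  have hb016 : ((2 ^ m : ℕ) : ℝ) ^ (16 * c) ≤ (b0 : ℝ) :=
    (Real.rpow_le_rpow_of_exponent_le hn1.le (by linarith)).trans hb04
  obtain ⟨q0, l0, r1, r2, r3, r4, r5, r6, r7⟩ := micnum57 hn1 hι (show ι ≤ c by linarith) (by linarith : 1 ≤ M) hMn hb016 hA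
  have hqA : (q0 : ℝ) ≤ 20 * ((2 ^ m : ℕ) : ℝ) ^ ι := r2.trans (by linarith)
  have hb3 : (((2 ^ m : ℕ) : ℝ) ^ ι) ^ 3 ≤ ((2 ^ p : ℕ) : ℝ) := by
    have hbs := bs46 R hc hcδ hst.hp hst.hps hst.hsq hst.hqm hst.leg hst.pin
    refine le_trans (N.pwk 3 (by norm_num)) (le_trans ?_ hbs.hb.lo)
    exact Real.rpow_le_rpow_of_exponent_le hn1.le (by linarith)
  refine ⟨q0, l0, ?_, hqA, ?_, ?_, ?_, ?_, ?_⟩
  · rw [← hM]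
    exact ⟨hM8, r1, r2, hM7⟩
  · have h2 : (2 : ℝ) ≤ q0 := by linarith
    exact_mod_cast h2
  · rw [← hb0d]
    exact r3
  · refine tb57 N (b0 := b0) ?_ r5
    rw [hb0d]
    exact bb57 hι.le
  · refine r6.trans ?_
    rw [hb0d]
    exact Nat.pow_le_pow_right two_pos (Nat.sub_le _ _)
  · exact N.q48 hqA hb3

/-- **THE DATA OF A BLOCK AT THE FRAME.** -/
theorem Th57.d57 (T : Th57 μ s K m ι β c δ Θ k κ₂ e₂ εM Kw aw) (R : Reg46 (EE μ s) (wd μ s) c₀ Θ δ a ι ((2 ^ m : ℕ) : ℝ))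
    (hst : St96 (EE μ s) δ c m p q) (hi : i < 2 ^ (m - q)) (hys : ∀ y ∈ ys33 μ s K m, y ≤ L33 K m) (hne : (ys33 μ s K m).Nonempty)
    (hP : ∀ y ∈ ys33 μ s K m, ∀ k ≤ 5, PrN μ s (L33 K m) y (ι / K) (c / K) κ₂ e₂ k)
    (hnum : ∀ n : ℝ, n = ((2 ^ m : ℕ) : ℝ) →
      ∀ (P B q0 : ℝ) (tr : ℕ), 0 ≤ P → P ≤ n ^ k → 0 ≤ B → B ≤ n ^ k → 0 ≤ q0 → q0 ≤ n ^ k →
      n ^ (-k) * (2 ^ q : ℕ) ≤ tr → tr ≤ 2 ^ q →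
      (∀ (Q er : ℝ) (ts : ℕ), 0 ≤ Q → Q ≤ n ^ (k / 2) * wd' μ s (8 * 2 ^ p) → n ^ (-k) * (2 ^ sg96 (EE μ s) c m p : ℕ) ≤ ts →
        ts ≤ 2 ^ sg96 (EE μ s) c m p → er ≤ n ^ (-8 : ℝ) →
        al92 P B Q (2 ^ p) (P * (EE' μ s (2 ^ p))⁻¹) ^ 2 *
          S092 (fun t => P * (EE' μ s t)⁻¹) q0 er tr ts (2 ^ q) (2 ^ sg96 (EE μ s) c m p) ≤ n ^ (Θ - 2 * k) / 256) ∧
      (∀ (er : ℝ) (tb : ℕ), n ^ (-k) * (2 ^ p : ℕ) ≤ tb → tb ≤ 2 ^ p → er ≤ n ^ (-8 : ℝ) →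
        (4 * B ^ 3 * P) ^ 2 * SM92 (fun t => P * (EE' μ s t)⁻¹) q0 er tr tb (2 ^ q) (2 ^ sg96 (EE μ s) c m p) (2 ^ p) ≤
          n ^ (Θ - 2 * k) / 256) ∧
      (∀ (e : ℝ) (ts : ℕ) (tD : ℕ → ℕ), n ^ (-k) * (2 ^ sg96 (EE μ s) c m p : ℕ) ≤ ts → ts ≤ 2 ^ sg96 (EE μ s) c m p →
        (∀ D ∈ Ico (8 * 2 ^ p) (2 ^ sg96 (EE μ s) c m p), n ^ (-k) * D ≤ tD D ∧ tD D ≤ D) → e ≤ n ^ (-5 : ℝ) →
        (4 * B ^ 3 * P) ^ 2 * SA92 (fun t => P * (EE' μ s t)⁻¹) q0 tr ts tD (2 ^ q) (2 ^ sg96 (EE μ s) c m p) (2 ^ p) e ≤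
          n ^ (Θ - 2 * k) / 256)) :
    ∃ (q0 l0 : ℕ) (Rb : ℝ), D57 μ s (L33 K m) ((2 ^ m : ℕ) : ℝ) (ι / K) (c / K) κ₂ e₂ ((L33 K m : ℝ) ^ εM) k Θ (B33 β m) Rb
      (ys33 μ s K m) (Rw (R33 ι m) (i * 2 ^ q) ((i + 1) * 2 ^ q)) q0 (2 ^ p) (2 ^ (p - ⌈ι * (m : ℝ)⌉₊)) (2 ^ sg96 (EE μ s) c m p)
      (zt57 ι m q i) (i * 2 ^ q) (2 ^ q) (4 * gl46 ι m q) (tw57 (xx (((2 ^ m : ℕ) : ℝ) ^ (-ι)) (sg96 (EE μ s) c m p)) q0) (4 * l0)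
      (tD57 q0) ∧ 1 ≤ Rb ∧ Rb ≤ (L33 K m : ℝ) ^ 2 ∧
      ∀ k : ℕ, 1 ≤ k → k ≤ 8 * 2 ^ p → (L33 K m : ℝ) ^ (ι / K) * wd' μ s k ≤ Rb / 8 := by
  have hn1 := R.N1
  have hn0 := R.N0
  have hc := T.hc
  have hc1 := T.hc1
  have hι := T.ι0
  have hkd := T.kd
  have hιk := T.ιk
  have hcδ := T.hcδ
  have hKw := T.Kw1
  have N := T.na hn1
  have hk0 := N.k0
  have hA := N.A2
  have hwd1 : 1 ≤ wd' μ s 1 := le_max_left _ _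
  have hn2 : 2 ^ m ≤ L33 K m := L33_ge (by have := T.hK; omega) m
  have hn2' : ((2 ^ m : ℕ) : ℝ) ≤ ((L33 K m : ℕ) : ℝ) := by exact_mod_cast hn2
  have hL1 : (1 : ℝ) ≤ ((L33 K m : ℕ) : ℝ) := by linarith
  have hL0 : (0 : ℝ) < ((L33 K m : ℕ) : ℝ) := by linarith
  have hK0 : (0 : ℝ) < K := by
    have : 0 < K := by have := T.hK; omega
    exact_mod_cast this
  have hK1 : (1 : ℝ) ≤ K := by
    have : 1 ≤ K := by have := T.hK; omega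
    exact_mod_cast this
  have hNι : ((L33 K m : ℕ) : ℝ) ^ (ι / K) = ((2 ^ m : ℕ) : ℝ) ^ ι := by
    rw [L33_pow]
    congr 1
    field_simp
  have hNc : ((L33 K m : ℕ) : ℝ) ^ (c / K) = ((2 ^ m : ℕ) : ℝ) ^ c := by
    rw [L33_pow]
    congr 1
    field_simp
  have hLn : ((2 ^ m : ℕ) : ℝ) ^ 32 ≤ ((L33 K m : ℕ) : ℝ) := by
    rw [L33_real, ← Real.rpow_natCast]
    refine Real.rpow_le_rpow_of_exponent_le hn1.le ?_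
    exact_mod_cast T.hK
  obtain ⟨q0, l0, hnq, hqA, hq2, r3, htb1, hl0b, h48⟩ := T.pieces R hst
  have hbs := bs46 R hc hcδ hst.hp hst.hps hst.hsq hst.hqm hst.leg hst.pin
  have hgap := gap46 (ι := ι) R (show ι ≤ c / 4 by linarith) hbs (show ι ≤ c by linarith) T.n16
  obtain ⟨sg, hsg⟩ : ∃ sg, sg = sg96 (EE μ s) c m p := ⟨_, rfl⟩
  have hps : p ≤ sg := by
    rw [hsg]
    exact hst.hps
  have hsq : sg ≤ q := by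
    rw [hsg]
    exact hst.hsq
  have hnum' := hnum ((2 ^ m : ℕ) : ℝ) rfl
  rw [← hsg] at hbs hgap hnum' ⊢
  have hqm := hst.hqm
  obtain ⟨ρ, hρd⟩ : ∃ ρ : ℝ, ρ = ((2 ^ m : ℕ) : ℝ) ^ (-ι) := ⟨_, rfl⟩
  have hρ0 : 0 ≤ ρ := by rw [hρd]; positivity
  have hρ1 : ρ ≤ 1 / 2 := by
    have h2 : ρ * 2 ≤ ρ * ((2 ^ m : ℕ) : ℝ) ^ ι := mul_le_mul_of_nonneg_left (by linarith) hρ0
    rw [hρd, N.rho] at h2
    rw [hρd]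
    linarith
  have hRK : R33 ι m ⊆ Kr (2 ^ m) m ρ := by
    rw [hρd]
    exact Finset.Subset.refl _
  have hbx : ((2 ^ m : ℕ) : ℝ) ^ (12 * c) * ((2 ^ p : ℕ) : ℝ) ≤ xx ρ sg := by
    rw [hρd]
    exact bx57 R (by linarith) hbs (by linarith) T.n16 le_rfl
  have hb1 : (1 : ℝ) ≤ ((2 ^ p : ℕ) : ℝ) := by exact_mod_cast Nat.one_le_two_pow
  have h16 : 16 * ((2 ^ p : ℕ) : ℝ) ≤ xx ρ sg := by
    have h2 : ((2 ^ m : ℕ) : ℝ) ^ c ≤ ((2 ^ m : ℕ) : ℝ) ^ (12 * c) := Real.rpow_le_rpow_of_exponent_le hn1.le (by linarith)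
    exact (mul_le_mul_of_nonneg_right (T.n16.trans h2) (by linarith)).trans hbx
  have h16n : 16 * 2 ^ p ≤ xx ρ sg := by exact_mod_cast h16
  have hp0 : 0 < 2 ^ p := by positivity
  have hx8 : 8 * xx ρ sg ≤ 2 ^ sg := xx8 hρ0 hρ1 sg
  have hsn : 2 ^ sg ≤ 2 ^ m := Nat.pow_le_pow_right two_pos (by omega)
  have hqn : 2 ^ q ≤ 2 ^ m := Nat.pow_le_pow_right two_pos hqm
  have hid : (i + 1) * 2 ^ q ≤ 2 ^ m := by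
    have h2 : (i + 1) * 2 ^ q ≤ 2 ^ (m - q) * 2 ^ q := Nat.mul_le_mul_right _ hi
    rwa [← pow_add, Nat.sub_add_cancel hqm] at h2
  have hid' : (i + 1) * 2 ^ q = i * 2 ^ q + 2 ^ q := by ring
  have hsgl : 2 ^ sg ≤ gl46 ι m q := by
    have h2 : (1 : ℝ) ≤ ((2 ^ m : ℕ) : ℝ) ^ (5 * c) := Real.one_le_rpow hn1.le (by positivity)
    have h3 : (1 : ℝ) * 2 ^ sg ≤ ((2 ^ m : ℕ) : ℝ) ^ (5 * c) * 2 ^ sg := mul_le_mul_of_nonneg_right h2 (by positivity)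
    have h4 : ((2 ^ sg : ℕ) : ℝ) ≤ gl46 ι m q := by
      push_cast at h3 hgap ⊢
      linarith
    exact_mod_cast h4
  have hgc : ((2 ^ m : ℕ) : ℝ) ^ c ≤ gl46 ι m q := by
    refine le_trans ?_ hgap
    calc ((2 ^ m : ℕ) : ℝ) ^ c ≤ ((2 ^ m : ℕ) : ℝ) ^ (5 * c) := Real.rpow_le_rpow_of_exponent_le hn1.le (by linarith)
      _ = ((2 ^ m : ℕ) : ℝ) ^ (5 * c) * 1 := (mul_one _).symm
      _ ≤ _ := mul_le_mul_of_nonneg_left (one_le_pow₀ one_le_two) (by positivity)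
  have hgl1 : 1 ≤ gl46 ι m q := le_trans Nat.one_le_two_pow hsgl
  have hgl8 : 8 * gl46 ι m q ≤ (i + 1) * 2 ^ q := gl_le46 hι.le
  obtain ⟨htr1, htr2⟩ := tr57 (q := q) N hgl1
  have hX12 : 12 * q0 ≤ xx ρ sg := by omega
  obtain ⟨hts1, hts2⟩ := ts57 (sg := sg) N hqA hq2 (by rw [← hρd]; exact hX12) (by rw [← hρd]; exact hx8)
  rw [← hρd] at hts1 hts2 ⊢
  have hm0 : 0 < m := by
    rcases Nat.eq_zero_or_pos m with h2 | h2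
    · rw [h2] at hn1
      norm_num at hn1
    · exact h2
  have hbd : ((2 ^ m : ℕ) : ℝ) ^ δ ≤ ((2 ^ p : ℕ) : ℝ) := hbs.hb.lo
  have hbc : ((2 ^ m : ℕ) : ℝ) ^ c ≤ ((2 ^ p : ℕ) : ℝ) := (Real.rpow_le_rpow_of_exponent_le hn1.le (by linarith)).trans hbd
  have hp1 : 1 ≤ p := by
    by_contra h2
    have h3 : p = 0 := by omega
    have h4 := T.n16
    rw [h3, pow_zero, Nat.cast_one] at hbc
    linarith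
  have hb0b := b0lt57 hι hm0 hp1
  have hcb : ((2 ^ m : ℕ) : ℝ) ^ c ≤ ((2 ^ m : ℕ) : ℝ) ^ (-k) * ((2 ^ p : ℕ) : ℝ) := by
    refine le_trans ?_ (mul_le_mul_of_nonneg_left hbd (show 0 ≤ ((2 ^ m : ℕ) : ℝ) ^ (-k) by positivity))
    rw [← Real.rpow_add hn0]
    exact Real.rpow_le_rpow_of_exponent_le hn1.le (by rw [hkd]; linarith)
  have hpsg : ((2 ^ p : ℕ) : ℝ) ≤ ((2 ^ sg : ℕ) : ℝ) := by exact_mod_cast Nat.pow_le_pow_right two_pos hps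
  have htsc : ((2 ^ m : ℕ) : ℝ) ^ c ≤ tw57 (xx ρ sg) q0 :=
    (hcb.trans (mul_le_mul_of_nonneg_left hpsg (by positivity))).trans hts1
  have hpm : 2 ^ p ≤ 2 ^ m := Nat.pow_le_pow_right two_pos (by omega)
  obtain ⟨S, hSd⟩ : ∃ S, S = Rw (R33 ι m) (i * 2 ^ q) ((i + 1) * 2 ^ q) := ⟨_, rfl⟩
  have hSm : ∀ j ∈ S, j ∈ R33 ι m ∧ i * 2 ^ q ≤ j ∧ j < (i + 1) * 2 ^ q := fun j hj => by
    rw [hSd, mem_Rw57] at hj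
    exact hj
  rw [← hSd]
  have hen : ∀ j ∈ S, en sg j ≤ zt57 ι m q i := fun j hj =>
    en_le57 hρ0 hρd hRK hqm hgl1 hsgl (hSm j hj).1 (hSm j hj).2.1 (hSm j hj).2.2
  have hout : Out (L33 K m) (c / K) (zt57 ι m q i) (i * 2 ^ q + 2 ^ q) (4 * gl46 ι m q) := by
    rw [← hid']
    exact out57 hgl1 hgl8 (hid.trans hn2) (by rw [hNc]; exact hgc)
  have hblk : Blk33 (L33 K m) (c / K) q0 S (2 ^ p) (2 ^ (p - ⌈ι * (m : ℝ)⌉₊)) (2 ^ sg) (zt57 ι m q i) (tw57 (xx ρ sg) q0) (4 * l0) := by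
    refine blk57 hρ0 hRK (fun j hj => (hSm j hj).1) (by omega) hq2 hX12 (by omega) hb0b
      (by rw [hNc]; exact hcb.trans htb1) (by omega) ?_ (by rw [hNc]; exact htsc) (by omega) hen
    have e1 : 4 * l0 / 4 = l0 := by omega
    rw [e1]
    exact r3
  have hn3 : (2 : ℝ) ≤ ((2 ^ m : ℕ) : ℝ) := by linarith [N.le_n]
  obtain ⟨ew1, ew2⟩ := err57 (e₂ := e₂) (M := (L33 K m : ℝ) ^ εM) (q := (q0 : ℝ)) hn3 rfl hLn (Nat.cast_nonneg _) (N.q6 hqA) T.ex1 T.ex2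
  obtain ⟨Rb, hR1, hR2, hR3, hR4⟩ := wid57 (μ := μ) (s := s) (aw := aw) (k := k) (b := 2 ^ p) T.aw0 hKw T.wdq hn3
    (by linarith : (8 : ℝ) ≤ ((2 ^ m : ℕ) : ℝ) ^ ι) N.le_n
    (by
      have := T.big
      have : 0 ≤ 560 * Kw ^ 2 := by positivity
      linarith)
    (by
      have h1 := T.big
      have h2 : 0 ≤ 4 * Kw ^ 2 * wd' μ s 1 := by positivity
      nlinarith) (N.pw 3 (by norm_num)) hLn (by omega)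
    (by
      have : 8 * 2 ^ p ≤ 2 ^ m := by omega
      exact_mod_cast this)
  have hB0 : 0 ≤ B33 β m := zero_le_one.trans (Real.one_le_rpow hn1.le T.β0.le)
  have hBk : B33 β m ≤ ((2 ^ m : ℕ) : ℝ) ^ k :=
    (Real.rpow_le_rpow_of_exponent_le hn1.le T.βι).trans N.le_k
  obtain ⟨P, hPd⟩ : ∃ P : ℝ, P = ((L33 K m : ℕ) : ℝ) ^ (ι / K) := ⟨_, rfl⟩
  have hPA : P = ((2 ^ m : ℕ) : ℝ) ^ ι := by rw [hPd, hNι]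
  have hpc : (fun t : ℕ => P * (EE' μ s t)⁻¹) = pc μ s (L33 K m) (ι / K) := by
    funext t
    rw [hPd]
    rfl
  obtain ⟨n0, nM, nA⟩ := hnum' P (B33 β m) q0 (4 * gl46 ι m q) (by rw [hPA]; positivity) (by rw [hPA]; exact N.le_k) hB0
    hBk (Nat.cast_nonneg _) (N.qk hqA) htr1 htr2
  rw [hpc] at n0 nM nA
  have hq1 : (1 : ℝ) ≤ 3 * q0 := by
    have : (2 : ℝ) ≤ q0 := by exact_mod_cast hq2
    linarith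
  have v1 : (3 * (q0 : ℝ)) ^ 2 ≤ (6 * (q0 : ℝ)) ^ 4 := by
    calc (3 * (q0 : ℝ)) ^ 2 ≤ (3 * (q0 : ℝ)) ^ 4 := pow_le_pow_right₀ hq1 (by norm_num)
      _ ≤ (6 * (q0 : ℝ)) ^ 4 := pow_le_pow_left₀ (by positivity) (by linarith) 4
  have hD48 : ∀ D, 8 * 2 ^ p ≤ D → 48 * q0 ≤ D := fun D hD => h48.trans hD
  have h8A : (8 : ℝ) ≤ ((2 ^ m : ℕ) : ℝ) ^ (2 * ι) := by
    rw [N.two]
    nlinarith
  have hDlo : ∀ D, 8 * 2 ^ p ≤ D → ((2 ^ m : ℕ) : ℝ) ^ (-k) * D ≤ tD57 q0 D := fun D hD =>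
    tD57_lo hn1 hq2 (hD48 D hD) h8A (N.kA hqA)
  have h3p : 3 ≤ 2 ^ p := by
    have h4 := T.n16
    have h2 : (3 : ℝ) ≤ ((2 ^ p : ℕ) : ℝ) := by linarith
    exact_mod_cast h2
  refine ⟨q0, l0, Rb, ?_, hR1, hR2, fun k hk1 hk2 => by rw [hNι]; exact hR3 k hk1 hk2⟩
  refine ⟨hys, hne, hP, ?_, hnq, hout, hblk, ?_, by omega, fun mm hmm => ?_, ?_, pow_dvd_pow 2 hsq, hqn.trans hn2, ?_, ?_, ?_, ?_⟩
  · rw [div_le_one hK0]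
    linarith
  · intro j hj
    have h1 := GeoD36.deepL hρ0 (hRK (hSm j hj).1) (show sg ≤ m by omega)
    unfold st at h1
    omega
  · refine sl57 hq2 h3p h48 (fun D h1 h2 => ?_) (hsn.trans hn2) hmm
    rw [hNc]
    refine hcb.trans (le_trans ?_ (hDlo D h1))
    refine mul_le_mul_of_nonneg_left ?_ (by positivity)
    have h4 : 2 ^ p ≤ D := by omega
    exact_mod_cast h4
  · exact (pow_dvd_pow 2 hsq).mul_left i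
  · intro j hj
    have h1 := hSm j hj
    rw [hid'] at h1
    exact h1.2
  · have h1 := n0 Rb ((3 * (q0 : ℝ)) ^ 2 * ee (L33 K m) e₂ ((L33 K m : ℝ) ^ εM) / 2) (tw57 (xx ρ sg) q0) (by linarith) hR4 hts1 hts2
      (ew2 _ (by positivity) v1)
    rw [hPd] at h1
    exact h1
  · have h1 := nM ((6 * (q0 : ℝ)) ^ 4 * ee (L33 K m) e₂ ((L33 K m : ℝ) ^ εM) / 2) (4 * l0) htb1 hl0b (ew2 _ (by positivity) le_rfl)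
    rw [hPd] at h1
    exact h1
  · have h1 := nA (((L33 K m : ℕ) : ℝ) ^ 9 * (6 * (q0 : ℝ)) ^ 4 * ee (L33 K m) e₂ ((L33 K m : ℝ) ^ εM)) (tw57 (xx ρ sg) q0) (tD57 q0)
      hts1 hts2 (fun D hD => ⟨hDlo D (mem_Ico.1 hD).1, (tD57_le hq2 (hD48 D (mem_Ico.1 hD).1)).2⟩)
      (ew1.trans (Real.rpow_le_rpow_of_exponent_le hn1.le (by norm_num)))
    rw [hPd] at h1
    exact h1

end one

end

end Pool.Agent.W_7d29a1_C0.TN57
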