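import Pool.Agent.W_7d29a1_C0.T0P33

/-!
CURV0 (MP_7d29a1_pr), leaf (T), `T_0L` (helper33): THE PRICES OF THE FAMILIES OF THE OWN BLOCK, part 2: the total for the slab fields `UAF`
of `T0E90`. Rows of the same block: `phA`. Rows of two blocks `β < β'`: with `A j` the near tie told behind `mm j`, `N = ∑ A j ≤ 16 b +
√F`, `F` the sum over the pairs of rows at distance at least `8 b` (`cnt33`, helper92's cure), so the price of the two sums is at most
`(16 b + λ / 2 + σ X / (2 λ))²` times the price of the two own pairs (`two_blk`). `totA`: the total.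
-/

set_option autoImplicit false
set_option linter.unusedSectionVars false
set_option linter.unusedVariables false

namespace Pool.Agent.W_7d29a1_C0.T0P33

open MeasureTheory ProbabilityTheory Filter Topology Finset
open Pool.Agent.W_7d29a1_F Pool.Agent.W_7d29a1_X
open Pool.Agent.W_7d29a1_HZ (EE')
open Pool.Agent.W_7d29a1_C0 Pool.Agent.W_7d29a1_C0.Mod92
open Pool.Agent.W_7d29a1_C0.T93
open Pool.Agent.W_7d29a1_C0.T72 (NN72)
open Pool.Agent.W_7d29a1_C0.T0E90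

noncomputable section

variable {μ : Measure ℝ} {s : ℝ} {N y : ℕ} {ε θ κ c' : ℝ}

/-! ### The number of events of a block -/

/-- **The number of the events in terms of the far pairs.** -/
theorem cnt33 {T : Finset ℕ} {A : ℕ → ℝ} (A0 : ∀ j ∈ T, 0 ≤ A j) (A1 : ∀ j ∈ T, A j ≤ 1) {b : ℕ} (hb : 0 < b) {lam : ℝ}
    (hl : 0 < lam) : ∑ j ∈ T, A j ≤ 16 * b + lam / 2 +
      1 / (2 * lam) * ∑ p ∈ (T ×ˢ T).filter (fun p => 8 * b ≤ rdist p.1 p.2), A p.1 * A p.2 := by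
  obtain ⟨n, hn⟩ : ∃ n : ℝ, n = ∑ j ∈ T, A j := ⟨_, rfl⟩
  obtain ⟨F, hF⟩ : ∃ F : ℝ, F = ∑ p ∈ (T ×ˢ T).filter (fun p => 8 * b ≤ rdist p.1 p.2), A p.1 * A p.2 := ⟨_, rfl⟩
  rw [← hn, ← hF]
  have F0 : 0 ≤ F := hF ▸ sum_nonneg fun p hp => by
    have h1 := mem_product.1 (mem_filter.1 hp).1
    exact mul_nonneg (A0 _ h1.1) (A0 _ h1.2)
  have n0 : 0 ≤ n := hn ▸ sum_nonneg A0
  have h1 : n ^ 2 ≤ 16 * b * n + F := by
    have e1 : n ^ 2 = ∑ p ∈ T ×ˢ T, A p.1 * A p.2 := by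
      rw [sq, hn, sum_mul_sum, sum_product]
    rw [e1, ← sum_filter_add_sum_filter_not (T ×ˢ T) (fun p => 8 * b ≤ rdist p.1 p.2), ← hF, add_comm]
    refine add_le_add ?_ le_rfl
    have e2 : ∑ p ∈ (T ×ˢ T).filter (fun p => ¬ 8 * b ≤ rdist p.1 p.2), A p.1 * A p.2 =
        ∑ j ∈ T, ∑ k ∈ T.filter (fun k => ¬ 8 * b ≤ rdist j k), A j * A k := by
      rw [sum_filter, sum_product]
      exact sum_congr rfl fun j _ => by rw [sum_filter]
    rw [e2, hn, mul_sum]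
    refine sum_le_sum fun j hj => ?_
    have h2 : ∑ k ∈ T.filter (fun k => ¬ 8 * b ≤ rdist j k), A j * A k ≤
        ∑ k ∈ T.filter (fun k => ¬ 8 * b ≤ rdist j k), A j := sum_le_sum fun k hk =>
      mul_le_of_le_one_right (A0 j hj) (A1 k (mem_filter.1 hk).1)
    refine h2.trans ?_
    rw [sum_const, nsmul_eq_mul]
    refine mul_le_mul_of_nonneg_right ?_ (A0 j hj)
    have h3 : T.filter (fun k => ¬ 8 * b ≤ rdist j k) ⊆ Ico (j + 1 - 8 * b) (j + 8 * b) := fun k hk => by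
      have h4 := (mem_filter.1 hk).2
      unfold rdist at h4
      rw [mem_Ico]
      omega
    have h4 := card_le_card h3
    rw [Nat.card_Ico] at h4
    have h5 : (T.filter (fun k => ¬ 8 * b ≤ rdist j k)).card ≤ 16 * b := by omega
    exact_mod_cast h5
  have hl2 : 0 < 2 * lam := by linarith
  have e3 : 1 / (2 * lam) * F = F / (2 * lam) := by ring
  rw [e3]
  rcases le_total n (16 * b) with h | h
  · have : 0 ≤ F / (2 * lam) := by positivity
    linarith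
  · obtain ⟨t, ht⟩ : ∃ t : ℝ, t = n - 16 * b := ⟨_, rfl⟩
    have t0 : 0 ≤ t := by linarith
    have hb0 : (0 : ℝ) ≤ 16 * b := by positivity
    have h2 : t ^ 2 ≤ F := by nlinarith
    have h3 : 2 * lam * (t - lam / 2) ≤ F := by nlinarith [sq_nonneg (t - lam)]
    have h4 : t - lam / 2 ≤ F / (2 * lam) := by
      rw [le_div_iff₀ hl2]
      linarith
    linarith

/-! ### The rows -/

section Row

variable {q b b0 σ zt c tr ts tb : ℕ} {S ys : Finset ℕ} {M : ℝ} {mm tD : ℕ → ℕ}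

/-- The data of the slab fields: the row `mm j` of the field of `j`, the scale `tD D` of two rows at distance `D`. -/
structure Sl33 (N : ℕ) (θ : ℝ) (q : ℕ) (S : Finset ℕ) (b σ : ℕ) (mm tD : ℕ → ℕ) : Prop where
  mm : ∀ j ∈ S, j + b ≤ mm j ∧ mm j ≤ j + 4 * b
  t0 : ∀ D, 8 * b ≤ D → D < σ → (N : ℝ) ^ θ ≤ tD D
  t1 : ∀ D, 8 * b ≤ D → D < σ → tD D ≤ N
  fit : ∀ D, 8 * b ≤ D → D < σ → 3 * q * (tD D / 4 + 1) + 5 * b + 1 ≤ D

/-- The near tie of a row, told behind `mm j`. -/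
def aT (μ : Measure ℝ) (s : ℝ) (N σ b : ℕ) (M : ℝ) (mm : ℕ → ℕ) (j : ℕ) : Fam N := fun y ω x =>
  tauI (wm μ s N (Pn N y) ω) (mm j) (bmB σ j + 1) (j - b) M x

/-- The common part of the own pairs of a block. -/
def oB (μ : Measure ℝ) (s : ℝ) (N σ q ts : ℕ) (M : ℝ) (β : ℕ) : Fam N := fun y ω x =>
  tauI (wm μ s N (Pn N y) ω) ((β + 1) * σ) (β * σ + 1) (β * σ + 1 + 3 * q * (ts / 4 + 1)) M x

theorem b_aT (j : ℕ) : B01 N y (aT μ s N σ b M mm j y) := b_tau _ _ _ _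

theorem b_oB (β : ℕ) : B01 N y (oB μ s N σ q ts M β y) := b_tau _ _ _ _

theorem UAF_le (hy : y ≤ N) (g : Blk33 N θ q S b b0 σ zt ts tb) {j β : ℕ} (hj : j ∈ S) (hβ : j / σ = β) (ω : Env × Finset ℕ)
    (x : Px (Pn N y)) : UAF μ s N σ b M (mm j) j y ω x ≤ oB μ s N σ q ts M β y ω x * aT μ s N σ b M mm j y ω x := by
  have h1 := g.lo j hj
  subst hβ
  unfold UAF tI oB aT
  rw [mul_comm]
  refine mul_le_mul ?_ (tauI_mono hy _ (Nat.le_succ _) le_rfl M x) (tauI_nonneg _ _ _ _ _ _) (tauI_nonneg _ _ _ _ _ _)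
  exact tauI_mono hy _ (Nat.le_succ _) (by omega) M x

/-- **A pair of far rows of a block**: two windows. -/
theorem pair33 (hy : y ≤ N) (g : Blk33 N θ q S b b0 σ zt ts tb) (a : Sl33 N θ q S b σ mm tD) {j k β : ℕ} (hj : j ∈ S) (hk : k ∈ S)
    (hjβ : j / σ = β) (hkβ : k / σ = β) (hD : 8 * b ≤ rdist j k) :
    ∃ m1 i1 L1 m2 L2, Win N θ q zt (tD (rdist j k)) m1 i1 L1 ∧ Win N θ q zt ts m2 (β * σ + 1) L2 ∧ m2 < i1 ∧ m1 ≤ (β + 1) * σ ∧
      ∀ ω (x : Px (Pn N y)), aT μ s N σ b M mm j y ω x * aT μ s N σ b M mm k y ω x ≤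
        tauI (wm μ s N (Pn N y) ω) m1 i1 L1 M x * tauI (wm μ s N (Pn N y) ω) m2 (β * σ + 1) L2 M x := by
  wlog hjk : j ≤ k generalizing j k
  · obtain ⟨m1, i1, L1, m2, L2, h1, h2, h3, h4, h5⟩ := this hk hj hkβ hjβ (by rw [rdist_swap]; exact hD) (le_of_not_ge hjk)
    rw [rdist_swap] at h1
    exact ⟨m1, i1, L1, m2, L2, h1, h2, h3, h4, fun ω x => by rw [mul_comm]; exact h5 ω x⟩
  have hd := rdist_of_le hjk
  have hlt := dist_of_blk g.hσ (hjβ.trans hkβ.symm) hjk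
  rw [hd] at hD ⊢
  have m1 := a.mm j hj
  have m2 := a.mm k hk
  have f := a.fit _ hD hlt
  have h1 := g.lo j hj
  have h2 := g.hi k hk
  have h3 := g.zz k hk
  have h4 := g.hi j hj
  have h5 := g.zz j hj
  rw [hkβ] at h2 h3
  rw [hjβ] at h1 h4 h5
  refine ⟨mm k, mm j + 1, k - b, mm j, j - b, ⟨a.t0 _ hD hlt, a.t1 _ hD hlt, by omega, by omega, by omega⟩,
    ⟨g.ts0, g.ts1, by omega, by omega, by omega⟩, Nat.lt_succ_self _, by omega, fun ω x => ?_⟩
  unfold aT bmB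
  rw [hjβ, hkβ, mul_comm]
  exact mul_le_mul_of_nonneg_right (tauI_mono hy _ (by omega) le_rfl M x) (tauI_nonneg _ _ _ _ _ _)

/-- The windows of the common part. -/
theorem Blk33.wB (g : Blk33 N θ q S b b0 σ zt ts tb) {j β : ℕ} (hj : j ∈ S) (hβ : j / σ = β) :
    Win N θ q zt ts ((β + 1) * σ) (β * σ + 1) (β * σ + 1 + 3 * q * (ts / 4 + 1)) := by
  have h1 := g.lo j hj
  have h2 := g.hi j hj
  have h3 := g.zz j hj
  rw [hβ] at h1 h2 h3
  exact ⟨g.ts0, g.ts1, le_rfl, by omega, h3⟩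

end Row

/-! ### The rows of one block -/

section Same

variable [IsProbabilityMeasure μ] {q b b0 σ zt c tr ts tb : ℕ} {S ys : Finset ℕ} {M : ℝ} {mm tD : ℕ → ℕ}

/-- The price of two rows of one block. -/
def phA (μ : Measure ℝ) (s : ℝ) (N : ℕ) (ε c' M : ℝ) (q tr ts b σ : ℕ) (tD : ℕ → ℕ) (D : ℕ) : ℝ :=
  (3 * q) ^ 2 * (((if D < 8 * b then pc μ s N ε tr * pc μ s N ε ts else 0) +
    if D ∈ Ico (8 * b) σ then pc μ s N ε tr * pc μ s N ε ts * pc μ s N ε (tD D) else 0) + ee N c' M)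

theorem phA_nonneg (q tr ts b σ : ℕ) (tD : ℕ → ℕ) (D : ℕ) : 0 ≤ phA μ s N ε c' M q tr ts b σ tD D := by
  have h1 := pc_nonneg (μ := μ) (s := s) N ε tr
  have h2 := pc_nonneg (μ := μ) (s := s) N ε ts
  have h3 := ee_nonneg N c' M
  have h4 := pc_nonneg (μ := μ) (s := s) N ε (tD D)
  unfold phA
  split_ifs <;> positivity

theorem prA_same (hP : ∀ k ≤ 5, PrN μ s N y ε θ κ c' k) (hy : y ≤ N) (hn : Nq N κ q M) (ho : Out N θ zt c tr)
    (g : Blk33 N θ q S b b0 σ zt ts tb) (a : Sl33 N θ q S b σ mm tD) {j k : ℕ} (hj : j ∈ S) (hk : k ∈ S) (hjk : j / σ = k / σ) :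
    pr2 μ s N (NN72 N zt c) (UAF μ s N σ b M (mm j) j) (UAF μ s N σ b M (mm k) k) y ≤
      phA μ s N ε c' M q tr ts b σ tD (rdist j k) := by
  rw [pr2_IG hy]
  have bo : B01 N y fun ω x => ow (wm μ s N (Pn N y) ω) zt c N x := b_ow hy _ _ _
  have bU : ∀ i, B01 N y fun ω x => UAF μ s N σ b M (mm i) i y ω x := fun i =>
    ⟨fun _ _ => UAF_nonneg _ _ _ _ _ _ _ _, fun _ _ => UAF_le_one _ _ _ _ _ _ _ _, fun x => meas_UAF _ _ _ _ _ _ _⟩
  have q1 := q_one hn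
  have c1 := pc_nonneg (μ := μ) (s := s) N ε tr
  have c2 := pc_nonneg (μ := μ) (s := s) N ε ts
  have c3 := ee_nonneg N c' M
  have uA : ∀ i ∈ S, ∀ ω (x : Px (Pn N y)), UAF μ s N σ b M (mm i) i y ω x ≤ aT μ s N σ b M mm i y ω x := fun i hi ω x =>
    (UAF_le hy g hi rfl ω x).trans (mul_le_of_le_one_left ((b_aT (μ := μ) (s := s) (N := N) (y := y) i).nn ω x)
      ((b_oB (μ := μ) (s := s) (N := N) (y := y) (i / σ)).le1 ω x))
  unfold phA
  by_cases hD : rdist j k < 8 * b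
  · have hD' : ¬ rdist j k ∈ Ico (8 * b) σ := by
      rw [mem_Ico]
      omega
    rw [if_pos hD, if_neg hD', add_zero]
    have h := pT1 (μ := μ) (s := s) (hP 2 (by norm_num)) hy hn ho
      (g.wA hk ((Nat.le_add_right k b).trans (a.mm k hk).1) (by
        have := (a.mm k hk).2
        have := g.hi k hk
        have := g.zz k hk
        omega))
    refine ((IG_le hy (bo.mul ((bU j).mul (bU k))) (bo.mul (b_tau _ _ _ _)) fun ω x => mul_le_mul_of_nonneg_left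
        ((mul_le_of_le_one_left ((bU k).nn ω x) ((bU j).le1 ω x)).trans (uA k hk ω x)) (bo.nn ω x)).trans h).trans ?_
    rw [add_assoc]
    exact mul_le_mul_of_nonneg_right (pow_le_pow_right₀ q1 (by norm_num)) (add_nonneg (mul_nonneg c1 c2) c3)
  · have hlt : rdist j k < σ := by
      rcases le_total j k with h | h
      · rw [rdist_of_le h]
        exact dist_of_blk g.hσ hjk h
      · rw [rdist_swap, rdist_of_le h]
        exact dist_of_blk g.hσ hjk.symm h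
    rw [if_neg hD, if_pos (mem_Ico.2 ⟨by omega, hlt⟩), zero_add]
    obtain ⟨m1, i1, L1, m2, L2, w1, w2, h3, h4, h5⟩ := pair33 (μ := μ) (s := s) (M := M) hy g a hj hk rfl hjk.symm (by omega)
    have h := pT2 (μ := μ) (s := s) (hP 3 (by norm_num)) hy hn ho w1 w2 h3
    refine ((IG_le hy (bo.mul ((bU j).mul (bU k))) (bo.mul ((b_tau _ _ _ _).mul (b_tau _ _ _ _))) fun ω x => ?_).trans h).trans
      (le_of_eq ?_)
    · exact mul_le_mul_of_nonneg_left ((mul_le_mul (uA j hj ω x) (uA k hk ω x) ((bU k).nn ω x)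
        ((b_aT (μ := μ) (s := s) (N := N) (y := y) j).nn ω x)).trans (h5 ω x)) (bo.nn ω x)
    · unfold ee
      ring

/-- The sum over the distances. -/
theorem sum_phA (q tr ts b σ r : ℕ) (tD : ℕ → ℕ) : ∑ D ∈ range r, phA μ s N ε c' M q tr ts b σ tD D ≤
    (3 * q) ^ 2 * (8 * b * (pc μ s N ε tr * pc μ s N ε ts) +
      pc μ s N ε tr * pc μ s N ε ts * ∑ D ∈ Ico (8 * b) σ, pc μ s N ε (tD D) + r * ee N c' M) := by
  have c1 := pc_nonneg (μ := μ) (s := s) N ε tr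
  have c2 := pc_nonneg (μ := μ) (s := s) N ε ts
  unfold phA
  rw [← mul_sum, sum_add_distrib, sum_add_distrib, sum_const, card_range, nsmul_eq_mul, ← sum_filter, ← sum_filter, sum_const,
    nsmul_eq_mul]
  refine mul_le_mul_of_nonneg_left (add_le_add (add_le_add ?_ ?_) le_rfl) (by positivity)
  · refine mul_le_mul_of_nonneg_right ?_ (mul_nonneg c1 c2)
    have : ((range r).filter (· < 8 * b)) ⊆ range (8 * b) := fun i hi => mem_range.2 (mem_filter.1 hi).2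
    have := card_le_card this
    rw [card_range] at this
    exact_mod_cast this
  · rw [mul_sum]
    refine sum_le_sum_of_subset_of_nonneg (fun i hi => (mem_filter.1 hi).2) fun D _ _ => ?_
    exact mul_nonneg (mul_nonneg c1 c2) (pc_nonneg _ _ _)

end Same

/-! ### Two blocks -/

section Two

variable [IsProbabilityMeasure μ] {q b b0 σ zt c tr ts tb : ℕ} {S ys : Finset ℕ} {M : ℝ} {mm tD : ℕ → ℕ}

/-- The far pairs of the rows of the block `β`. -/
def FP (S : Finset ℕ) (σ b β : ℕ) : Finset (ℕ × ℕ) :=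
  ((S.filter fun j => j / σ = β) ×ˢ (S.filter fun j => j / σ = β)).filter fun p => 8 * b ≤ rdist p.1 p.2

theorem mem_FP {S : Finset ℕ} {σ b β : ℕ} {p : ℕ × ℕ} (h : p ∈ FP S σ b β) :
    (p.1 ∈ S ∧ p.1 / σ = β) ∧ (p.2 ∈ S ∧ p.2 / σ = β) ∧ 8 * b ≤ rdist p.1 p.2 := by
  unfold FP at h
  rw [mem_filter, mem_product, mem_filter, mem_filter] at h
  exact ⟨h.1.1, h.1.2, h.2⟩

/-- The event of a term: no pair, or a far pair. -/
def eO (μ : Measure ℝ) (s : ℝ) (N σ b q ts : ℕ) (M : ℝ) (mm : ℕ → ℕ) (β : ℕ) : Option (ℕ × ℕ) → Fam N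
  | none => oB μ s N σ q ts M β
  | some p => fun y ω x => aT μ s N σ b M mm p.1 y ω x * aT μ s N σ b M mm p.2 y ω x

/-- The price of a term. -/
def cO (μ : Measure ℝ) (s : ℝ) (N : ℕ) (ε : ℝ) (ts : ℕ) (tD : ℕ → ℕ) : Option (ℕ × ℕ) → ℝ
  | none => pc μ s N ε ts
  | some p => pc μ s N ε (tD (rdist p.1 p.2)) * pc μ s N ε ts

/-- The weight of a term. -/
def wO33 (c0 lam : ℝ) : Option (ℕ × ℕ) → ℝ
  | none => c0
  | some _ => 1 / (2 * lam)

theorem b_eO (β : ℕ) (o : Option (ℕ × ℕ)) : B01 N y (eO μ s N σ b q ts M mm β o y) := by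
  cases o with
  | none => exact b_oB β
  | some p => exact (b_aT p.1).mul (b_aT p.2)

theorem cO_nonneg (o : Option (ℕ × ℕ)) : 0 ≤ cO μ s N ε ts tD o := by
  cases o with
  | none => exact pc_nonneg _ _ _
  | some p => exact mul_nonneg (pc_nonneg _ _ _) (pc_nonneg _ _ _)

/-- **The price of two terms of two blocks.** -/
theorem pr_terms (hP : ∀ k ≤ 5, PrN μ s N y ε θ κ c' k) (hy : y ≤ N) (hn : Nq N κ q M) (ho : Out N θ zt c tr)
    (g : Blk33 N θ q S b b0 σ zt ts tb) (a : Sl33 N θ q S b σ mm tD) {β β' : ℕ} (hβ : β < β') {j k : ℕ} (hj : j ∈ S)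
    (hjβ : j / σ = β) (hk : k ∈ S) (hkβ : k / σ = β') {o o' : Option (ℕ × ℕ)} (h1 : o ∈ insertNone (FP S σ b β))
    (h2 : o' ∈ insertNone (FP S σ b β')) :
    IG μ s N y (fun ω x => ow (wm μ s N (Pn N y) ω) zt c N x * (eO μ s N σ b q ts M mm β o y ω x *
      eO μ s N σ b q ts M mm β' o' y ω x)) ≤
      (3 * q) ^ 4 * (pc μ s N ε tr * (cO μ s N ε ts tD o * cO μ s N ε ts tD o') + ee N c' M) := by
  have hlt : (β + 1) * σ ≤ β' * σ := Nat.mul_le_mul_right _ hβ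
  have wj := g.wB hj hjβ
  have wk := g.wB hk hkβ
  have bo : B01 N y fun ω x => ow (wm μ s N (Pn N y) ω) zt c N x := b_ow hy _ _ _
  have q1 := q_one hn
  have c1 := pc_nonneg (μ := μ) (s := s) N ε tr
  have c3 := ee_nonneg N c' M
  have k1 := cO_nonneg (μ := μ) (s := s) (N := N) (ε := ε) (ts := ts) (tD := tD) o
  have k2 := cO_nonneg (μ := μ) (s := s) (N := N) (ε := ε) (ts := ts) (tD := tD) o'
  have fin : ∀ {n : ℕ} {X F : ℝ}, n ≤ 4 → F ≤ (3 * q) ^ n * (X + er N c' + Real.exp (-M)) →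
      X = pc μ s N ε tr * (cO μ s N ε ts tD o * cO μ s N ε ts tD o') →
      F ≤ (3 * q) ^ 4 * (pc μ s N ε tr * (cO μ s N ε ts tD o * cO μ s N ε ts tD o') + ee N c' M) := by
    intro n X F h4 hF hX
    rw [hX, add_assoc] at hF
    refine hF.trans (mul_le_mul_of_nonneg_right (pow_le_pow_right₀ q1 h4) ?_)
    exact add_nonneg (mul_nonneg c1 (mul_nonneg k1 k2)) c3
  cases o with
  | none =>
    cases o' with
    | none =>
      have h := pT2 (μ := μ) (s := s) (hP 3 (by norm_num)) hy hn ho wk wj (Nat.lt_succ_of_le hlt)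
      refine fin (by norm_num) (le_trans (le_of_eq (IG_congr fun ω x => ?_)) h) ?_
      · show _ * (oB μ s N σ q ts M β y ω x * oB μ s N σ q ts M β' y ω x) = _
        unfold oB
        ring
      · show _ = _ * (pc μ s N ε ts * pc μ s N ε ts)
        ring
    | some p =>
      obtain ⟨p1, p2, p3⟩ := mem_FP (some_mem_insertNone.1 h2)
      obtain ⟨m1, i1, L1, m2, L2, w1, w2, e3, e4, e5⟩ :=
        pair33 (μ := μ) (s := s) (M := M) hy g a p1.1 p2.1 p1.2 p2.2 p3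
      have h := pT3 (μ := μ) (s := s) (hP 4 (by norm_num)) hy hn ho w1 w2 wj e3 (Nat.lt_succ_of_le hlt)
      refine fin (by norm_num) ((IG_le hy (bo.mul ((b_eO β none).mul (b_eO β' (some p))))
        (bo.mul (((b_tau _ _ _ _).mul (b_tau _ _ _ _)).mul (b_tau _ _ _ _))) fun ω x => ?_).trans h) ?_
      · refine mul_le_mul_of_nonneg_left ?_ (bo.nn ω x)
        show oB μ s N σ q ts M β y ω x * (aT μ s N σ b M mm p.1 y ω x * aT μ s N σ b M mm p.2 y ω x) ≤ _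
        rw [mul_comm]
        exact mul_le_mul_of_nonneg_right (e5 ω x) ((b_oB (μ := μ) (s := s) (N := N) (y := y) β).nn ω x)
      · show _ = _ * (pc μ s N ε ts * (pc μ s N ε (tD (rdist p.1 p.2)) * pc μ s N ε ts))
        ring
  | some p =>
    obtain ⟨p1, p2, p3⟩ := mem_FP (some_mem_insertNone.1 h1)
    obtain ⟨m1, i1, L1, m2, L2, w1, w2, e3, e4, e5⟩ := pair33 (μ := μ) (s := s) (M := M) hy g a p1.1 p2.1 p1.2 p2.2 p3
    cases o' with
    | none =>
      have h := pT3 (μ := μ) (s := s) (hP 4 (by norm_num)) hy hn ho wk w1 w2 (by omega) e3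
      refine fin (by norm_num) ((IG_le hy (bo.mul ((b_eO β (some p)).mul (b_eO β' none)))
        (bo.mul (((b_tau _ _ _ _).mul (b_tau _ _ _ _)).mul (b_tau _ _ _ _))) fun ω x => ?_).trans h) ?_
      · refine mul_le_mul_of_nonneg_left ?_ (bo.nn ω x)
        show aT μ s N σ b M mm p.1 y ω x * aT μ s N σ b M mm p.2 y ω x * oB μ s N σ q ts M β' y ω x ≤ _
        rw [mul_comm, mul_assoc]
        exact mul_le_mul_of_nonneg_left (e5 ω x) ((b_oB (μ := μ) (s := s) (N := N) (y := y) β').nn ω x)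
      · show _ = _ * (pc μ s N ε (tD (rdist p.1 p.2)) * pc μ s N ε ts * pc μ s N ε ts)
        ring
    | some p' =>
      obtain ⟨p1', p2', p3'⟩ := mem_FP (some_mem_insertNone.1 h2)
      obtain ⟨m1', i1', L1', m2', L2', w1', w2', e3', e4', e5'⟩ :=
        pair33 (μ := μ) (s := s) (M := M) hy g a p1'.1 p2'.1 p1'.2 p2'.2 p3'
      have h := pT4 (μ := μ) (s := s) (hP 5 le_rfl) hy hn ho w1' w2' w1 w2 e3' (by omega) e3
      refine fin le_rfl ((IG_le hy (bo.mul ((b_eO β (some p)).mul (b_eO β' (some p'))))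
        (bo.mul ((((b_tau _ _ _ _).mul (b_tau _ _ _ _)).mul (b_tau _ _ _ _)).mul (b_tau _ _ _ _))) fun ω x => ?_).trans h) ?_
      · refine mul_le_mul_of_nonneg_left ?_ (bo.nn ω x)
        show aT μ s N σ b M mm p.1 y ω x * aT μ s N σ b M mm p.2 y ω x * (aT μ s N σ b M mm p'.1 y ω x *
          aT μ s N σ b M mm p'.2 y ω x) ≤ _
        rw [mul_comm, mul_assoc (tauI _ m1' _ _ _ _ * tauI _ m2' _ _ _ _)]
        exact mul_le_mul (e5' ω x) (e5 ω x) (mul_nonneg ((b_aT (μ := μ) (s := s) (N := N) (y := y) p.1).nn ω x)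
          ((b_aT (μ := μ) (s := s) (N := N) (y := y) p.2).nn ω x)) (mul_nonneg (tauI_nonneg _ _ _ _ _ _) (tauI_nonneg _ _ _ _ _ _))
      · show _ = _ * (pc μ s N ε (tD (rdist p.1 p.2)) * pc μ s N ε ts * (pc μ s N ε (tD (rdist p'.1 p'.2)) * pc μ s N ε ts))
        ring

/-- The sum of the fields of a block. -/
theorem sum_UAF_le (hy : y ≤ N) (g : Blk33 N θ q S b b0 σ zt ts tb) (β : ℕ) {lam : ℝ} (hl : 0 < lam) (ω : Env × Finset ℕ)
    (x : Px (Pn N y)) :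
    ∑ j ∈ S.filter (fun j => j / σ = β), UAF μ s N σ b M (mm j) j y ω x ≤
      ∑ o ∈ insertNone (FP S σ b β), wO33 (16 * b + lam / 2) lam o * eO μ s N σ b q ts M mm β o y ω x := by
  have hb : 0 < b := by have := g.f1; omega
  have o0 := (b_oB (μ := μ) (s := s) (N := N) (y := y) (σ := σ) (q := q) (ts := ts) (M := M) β).nn ω x
  have o1 := (b_oB (μ := μ) (s := s) (N := N) (y := y) (σ := σ) (q := q) (ts := ts) (M := M) β).le1 ω x
  have h1 : ∑ j ∈ S.filter (fun j => j / σ = β), UAF μ s N σ b M (mm j) j y ω x ≤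
      oB μ s N σ q ts M β y ω x * ∑ j ∈ S.filter (fun j => j / σ = β), aT μ s N σ b M mm j y ω x := by
    rw [mul_sum]
    exact sum_le_sum fun j hj => UAF_le hy g (mem_filter.1 hj).1 (mem_filter.1 hj).2 ω x
  have h2 := cnt33 (T := S.filter (fun j => j / σ = β)) (A := fun j => aT μ s N σ b M mm j y ω x)
    (fun j _ => (b_aT (μ := μ) (s := s) (N := N) (y := y) j).nn ω x) (fun j _ => (b_aT (μ := μ) (s := s) (N := N) (y := y) j).le1 ω x)
    hb hl
  rw [sum_insertNone]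
  show _ ≤ (16 * b + lam / 2) * oB μ s N σ q ts M β y ω x + ∑ p ∈ FP S σ b β, 1 / (2 * lam) *
    (aT μ s N σ b M mm p.1 y ω x * aT μ s N σ b M mm p.2 y ω x)
  rw [← mul_sum]
  have h3 : 0 ≤ 1 / (2 * lam) * ∑ p ∈ FP S σ b β, aT μ s N σ b M mm p.1 y ω x * aT μ s N σ b M mm p.2 y ω x := by
    refine mul_nonneg (by positivity) (sum_nonneg fun p _ => ?_)
    exact mul_nonneg ((b_aT (μ := μ) (s := s) (N := N) (y := y) p.1).nn ω x) ((b_aT (μ := μ) (s := s) (N := N) (y := y) p.2).nn ω x)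
  calc _ ≤ oB μ s N σ q ts M β y ω x * ∑ j ∈ S.filter (fun j => j / σ = β), aT μ s N σ b M mm j y ω x := h1
    _ ≤ oB μ s N σ q ts M β y ω x * (16 * b + lam / 2 +
        1 / (2 * lam) * ∑ p ∈ FP S σ b β, aT μ s N σ b M mm p.1 y ω x * aT μ s N σ b M mm p.2 y ω x) :=
      mul_le_mul_of_nonneg_left h2 o0
    _ = (16 * b + lam / 2) * oB μ s N σ q ts M β y ω x + oB μ s N σ q ts M β y ω x *
        (1 / (2 * lam) * ∑ p ∈ FP S σ b β, aT μ s N σ b M mm p.1 y ω x * aT μ s N σ b M mm p.2 y ω x) := by ring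
    _ ≤ _ := add_le_add le_rfl (mul_le_of_le_one_left h3 o1)

/-- The number of rows of a block. -/
theorem card_blk (hσ : 0 < σ) (β : ℕ) : ((S.filter fun j => j / σ = β).card : ℝ) ≤ σ := by
  have h1 : (S.filter fun j => j / σ = β) ⊆ Ico (β * σ) (β * σ + σ) := fun j hj => by
    have h2 := (mem_filter.1 hj).2
    rw [mem_Ico, ← h2]
    exact ⟨Nat.div_mul_le_self j σ, Nat.lt_div_mul_add hσ⟩
  have h2 := card_le_card h1
  rw [Nat.card_Ico, Nat.add_sub_cancel_left] at h2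
  exact_mod_cast h2

/-- The sum of the prices of the far pairs of a block. -/
theorem sum_FP (hσ : 0 < σ) (β : ℕ) : ∑ p ∈ FP S σ b β, pc μ s N ε (tD (rdist p.1 p.2)) ≤
    σ * (2 * ∑ D ∈ Ico (8 * b) σ, pc μ s N ε (tD D)) := by
  have hS : ∀ j ∈ S.filter (fun j => j / σ = β), β * σ ≤ j ∧ j < β * σ + σ := fun j hj => by
    have h2 := (mem_filter.1 hj).2
    rw [← h2]
    exact ⟨Nat.div_mul_le_self j σ, Nat.lt_div_mul_add hσ⟩
  have h1 := dist_sum_le hS (φ := fun D => if 8 * b ≤ D then pc μ s N ε (tD D) else 0) (fun D => by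
      split_ifs
      · exact pc_nonneg _ _ _
      · exact le_rfl) (q := fun j k => if 8 * b ≤ rdist j k then pc μ s N ε (tD (rdist j k)) else 0) fun j _ k _ => le_rfl
  have e1 : ∑ p ∈ FP S σ b β, pc μ s N ε (tD (rdist p.1 p.2)) = ∑ j ∈ S.filter (fun j => j / σ = β),
      ∑ k ∈ S.filter (fun j => j / σ = β), if 8 * b ≤ rdist j k then pc μ s N ε (tD (rdist j k)) else 0 := by
    unfold FP
    rw [sum_filter, sum_product]
  have e2 : ∑ D ∈ range σ, (if 8 * b ≤ D then pc μ s N ε (tD D) else 0) = ∑ D ∈ Ico (8 * b) σ, pc μ s N ε (tD D) := by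
    rw [← sum_filter]
    refine sum_congr ?_ fun _ _ => rfl
    ext D
    rw [mem_filter, mem_range, mem_Ico, and_comm]
  rw [e1]
  rw [e2] at h1
  refine h1.trans (mul_le_mul_of_nonneg_right (card_blk hσ β) ?_)
  exact mul_nonneg (by norm_num) (sum_nonneg fun D _ => pc_nonneg _ _ _)

theorem card_FP (hσ : 0 < σ) (β : ℕ) : ((FP S σ b β).card : ℝ) ≤ (σ : ℝ) ^ 2 := by
  have h1 : (FP S σ b β).card ≤ (S.filter fun j => j / σ = β).card * (S.filter fun j => j / σ = β).card := by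
    unfold FP
    exact (card_filter_le _ _).trans (card_product _ _).le
  have h2 := card_blk (S := S) hσ β
  have h3 : ((FP S σ b β).card : ℝ) ≤ (S.filter fun j => j / σ = β).card * (S.filter fun j => j / σ = β).card := by exact_mod_cast h1
  rw [sq]
  exact h3.trans (mul_le_mul h2 h2 (Nat.cast_nonneg _) (Nat.cast_nonneg _))

/-- **A double sum of products under the mean.** -/
theorem dbl_IG (hy : y ≤ N) {T T' : Finset ℕ} {H : Env × Finset ℕ → Px (Pn N y) → ℝ} (bo : B01 N y H)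
    {U : ℕ → Env × Finset ℕ → Px (Pn N y) → ℝ} (bU : ∀ i, B01 N y (U i)) {ι : Type*} (I I' : Finset ι) {w : ι → ℝ}
    (w0 : ∀ o, 0 ≤ w o) {E E' : ι → Env × Finset ℕ → Px (Pn N y) → ℝ} (bE : ∀ o, B01 N y (E o)) (bE' : ∀ o, B01 N y (E' o))
    {C : ι → ι → ℝ} (hC : ∀ o ∈ I, ∀ o' ∈ I', IG μ s N y (fun ω x => H ω x * (E o ω x * E' o' ω x)) ≤ C o o')
    (h1 : ∀ ω x, ∑ j ∈ T, U j ω x ≤ ∑ o ∈ I, w o * E o ω x) (h2 : ∀ ω x, ∑ j ∈ T', U j ω x ≤ ∑ o ∈ I', w o * E' o ω x) :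
    ∑ j ∈ T, ∑ k ∈ T', IG μ s N y (fun ω x => H ω x * (U j ω x * U k ω x)) ≤
      ∑ p ∈ I ×ˢ I', w p.1 * w p.2 * C p.1 p.2 := by
  have bp : ∀ p ∈ T ×ˢ T', B01 N y fun ω x => H ω x * (U p.1 ω x * U p.2 ω x) := fun p _ => bo.mul ((bU p.1).mul (bU p.2))
  have e0 := IG_wsum (μ := μ) (s := s) hy (T ×ˢ T') (fun _ => (1 : ℝ)) (G := fun p ω x => H ω x * (U p.1 ω x * U p.2 ω x)) bp
  have e1 : ∑ j ∈ T, ∑ k ∈ T', IG μ s N y (fun ω x => H ω x * (U j ω x * U k ω x)) =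
      IG μ s N y (fun ω x => ∑ p ∈ T ×ˢ T', (1 : ℝ) * (H ω x * (U p.1 ω x * U p.2 ω x))) := by
    rw [e0, sum_product]
    exact sum_congr rfl fun j _ => sum_congr rfl fun k _ => (one_mul _).symm
  rw [e1]
  refine IG_wle (μ := μ) (s := s) hy (I ×ˢ I') (a := fun p => w p.1 * w p.2) (C := fun p => C p.1 p.2)
    (G := fun p ω x => H ω x * (E p.1 ω x * E' p.2 ω x))
    (fun ω x => sum_nonneg fun p hp => mul_nonneg zero_le_one ((bp p hp).nn ω x))
    (fun p _ => mul_nonneg (w0 p.1) (w0 p.2)) (fun p _ => bo.mul ((bE p.1).mul (bE' p.2)))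
    (fun p hp => hC _ (mem_product.1 hp).1 _ (mem_product.1 hp).2) fun ω x => ?_
  have n2 : 0 ≤ ∑ k ∈ T', U k ω x := sum_nonneg fun k _ => (bU k).nn ω x
  have n1 : 0 ≤ ∑ o ∈ I, w o * E o ω x := sum_nonneg fun o _ => mul_nonneg (w0 o) ((bE o).nn ω x)
  calc ∑ p ∈ T ×ˢ T', (1 : ℝ) * (H ω x * (U p.1 ω x * U p.2 ω x)) = H ω x * ((∑ j ∈ T, U j ω x) * ∑ k ∈ T', U k ω x) := by
        rw [sum_mul_sum, ← sum_product', mul_sum]
        exact sum_congr rfl fun p _ => one_mul _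
    _ ≤ H ω x * ((∑ o ∈ I, w o * E o ω x) * ∑ o ∈ I', w o * E' o ω x) :=
        mul_le_mul_of_nonneg_left (mul_le_mul (h1 ω x) (h2 ω x) n2 n1) (bo.nn ω x)
    _ = ∑ p ∈ I ×ˢ I', w p.1 * w p.2 * (H ω x * (E p.1 ω x * E' p.2 ω x)) := by
        rw [sum_mul_sum, ← sum_product', mul_sum]
        exact sum_congr rfl fun p _ => by ring

/-- **Two blocks.** -/
theorem two_blk (hP : ∀ k ≤ 5, PrN μ s N y ε θ κ c' k) (hy : y ≤ N) (hn : Nq N κ q M) (ho : Out N θ zt c tr)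
    (g : Blk33 N θ q S b b0 σ zt ts tb) (a : Sl33 N θ q S b σ mm tD) {β β' : ℕ} (hβ : β < β') {lam : ℝ} (hl : 0 < lam) :
    ∑ j ∈ S.filter (fun j => j / σ = β), ∑ k ∈ S.filter (fun j => j / σ = β'),
      pr2 μ s N (NN72 N zt c) (UAF μ s N σ b M (mm j) j) (UAF μ s N σ b M (mm k) k) y ≤
      (3 * q) ^ 4 * (pc μ s N ε tr * pc μ s N ε ts ^ 2 *
        (16 * b + lam / 2 + 1 / (2 * lam) * (σ * (2 * ∑ D ∈ Ico (8 * b) σ, pc μ s N ε (tD D)))) ^ 2 +
        ee N c' M * (16 * b + lam / 2 + 1 / (2 * lam) * σ ^ 2) ^ 2) := by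
  have c1 := pc_nonneg (μ := μ) (s := s) N ε tr
  have c2 := pc_nonneg (μ := μ) (s := s) N ε ts
  have c3 := ee_nonneg N c' M
  have hl' : 0 ≤ 1 / (2 * lam) := by positivity
  have hX : 0 ≤ ∑ D ∈ Ico (8 * b) σ, pc μ s N ε (tD D) := sum_nonneg fun D _ => pc_nonneg _ _ _
  have rhs0 : 0 ≤ (3 * (q : ℝ)) ^ 4 * (pc μ s N ε tr * pc μ s N ε ts ^ 2 *
        (16 * b + lam / 2 + 1 / (2 * lam) * (σ * (2 * ∑ D ∈ Ico (8 * b) σ, pc μ s N ε (tD D)))) ^ 2 +
        ee N c' M * (16 * b + lam / 2 + 1 / (2 * lam) * σ ^ 2) ^ 2) := by positivity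
  rcases (S.filter fun j => j / σ = β).eq_empty_or_nonempty with he | ⟨j0, hj0⟩
  · rw [he, sum_empty]
    exact rhs0
  rcases (S.filter fun j => j / σ = β').eq_empty_or_nonempty with he | ⟨k0, hk0⟩
  · rw [he]
    simp only [sum_empty, sum_const_zero]
    exact rhs0
  have w0 : ∀ o : Option (ℕ × ℕ), 0 ≤ wO33 (16 * b + lam / 2) lam o := fun o => by
    cases o
    · show 0 ≤ 16 * (b : ℝ) + lam / 2
      positivity
    · exact hl'
  have e1 : ∑ j ∈ S.filter (fun j => j / σ = β), ∑ k ∈ S.filter (fun j => j / σ = β'),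
      pr2 μ s N (NN72 N zt c) (UAF μ s N σ b M (mm j) j) (UAF μ s N σ b M (mm k) k) y =
      ∑ j ∈ S.filter (fun j => j / σ = β), ∑ k ∈ S.filter (fun j => j / σ = β'),
      IG μ s N y (fun ω x => ow (wm μ s N (Pn N y) ω) zt c N x *
        (UAF μ s N σ b M (mm j) j y ω x * UAF μ s N σ b M (mm k) k y ω x)) :=
    sum_congr rfl fun j _ => sum_congr rfl fun k _ => pr2_IG hy _ _ _ _
  rw [e1]
  refine (dbl_IG (μ := μ) (s := s) hy (H := fun ω x => ow (wm μ s N (Pn N y) ω) zt c N x) (b_ow hy _ _ _)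
    (U := fun i => UAF μ s N σ b M (mm i) i y)
    (fun i => ⟨fun _ _ => UAF_nonneg _ _ _ _ _ _ _ _, fun _ _ => UAF_le_one _ _ _ _ _ _ _ _, fun x => meas_UAF _ _ _ _ _ _ _⟩)
    (insertNone (FP S σ b β)) (insertNone (FP S σ b β')) w0 (E := fun o => eO μ s N σ b q ts M mm β o y)
    (E' := fun o => eO μ s N σ b q ts M mm β' o y) (fun o => b_eO β o) (fun o => b_eO β' o)
    (C := fun o o' => (3 * q) ^ 4 * (pc μ s N ε tr * (cO μ s N ε ts tD o * cO μ s N ε ts tD o') + ee N c' M))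
    (fun o h1 o' h2 => pr_terms hP hy hn ho g a hβ (mem_filter.1 hj0).1 (mem_filter.1 hj0).2 (mem_filter.1 hk0).1
      (mem_filter.1 hk0).2 h1 h2)
    (fun ω x => sum_UAF_le hy g β hl ω x) fun ω x => sum_UAF_le hy g β' hl ω x).trans ?_
  -- the numbers
  have f1 : ∀ β, ∑ o ∈ insertNone (FP S σ b β), wO33 (16 * b + lam / 2) lam o * cO μ s N ε ts tD o ≤
      pc μ s N ε ts * (16 * b + lam / 2 + 1 / (2 * lam) * (σ * (2 * ∑ D ∈ Ico (8 * b) σ, pc μ s N ε (tD D)))) := fun β => by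
    rw [sum_insertNone]
    show (16 * b + lam / 2) * pc μ s N ε ts + ∑ p ∈ FP S σ b β, 1 / (2 * lam) * (pc μ s N ε (tD (rdist p.1 p.2)) * pc μ s N ε ts) ≤ _
    have h1 := sum_FP (μ := μ) (s := s) (N := N) (ε := ε) (b := b) (S := S) (tD := tD) g.hσ β
    have h2 : ∑ p ∈ FP S σ b β, 1 / (2 * lam) * (pc μ s N ε (tD (rdist p.1 p.2)) * pc μ s N ε ts) =
        pc μ s N ε ts * (1 / (2 * lam) * ∑ p ∈ FP S σ b β, pc μ s N ε (tD (rdist p.1 p.2))) := by
      rw [mul_sum, mul_sum]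
      exact sum_congr rfl fun p _ => by ring
    rw [h2]
    have h3 := mul_le_mul_of_nonneg_left (mul_le_mul_of_nonneg_left h1 hl') c2
    linarith
  have f2 : ∀ β, ∑ o ∈ insertNone (FP S σ b β), wO33 (16 * b + lam / 2) lam o ≤ 16 * b + lam / 2 + 1 / (2 * lam) * σ ^ 2 :=
    fun β => by
    rw [sum_insertNone]
    show (16 * b + lam / 2) + ∑ p ∈ FP S σ b β, 1 / (2 * lam) ≤ _
    rw [sum_const, nsmul_eq_mul, mul_comm]
    have h1 := mul_le_mul_of_nonneg_left (card_FP (b := b) (S := S) g.hσ β) hl'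
    linarith
  have g1 : ∀ β, 0 ≤ ∑ o ∈ insertNone (FP S σ b β), wO33 (16 * b + lam / 2) lam o * cO μ s N ε ts tD o := fun β =>
    sum_nonneg fun o _ => mul_nonneg (w0 o) (cO_nonneg o)
  have g2 : ∀ β, 0 ≤ ∑ o ∈ insertNone (FP S σ b β), wO33 (16 * b + lam / 2) lam o := fun β => sum_nonneg fun o _ => w0 o
  have e2 : ∑ p ∈ insertNone (FP S σ b β) ×ˢ insertNone (FP S σ b β'),
      wO33 (16 * b + lam / 2) lam p.1 * wO33 (16 * b + lam / 2) lam p.2 *
        ((3 * q) ^ 4 * (pc μ s N ε tr * (cO μ s N ε ts tD p.1 * cO μ s N ε ts tD p.2) + ee N c' M)) =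
      (3 * q) ^ 4 * (pc μ s N ε tr * ((∑ o ∈ insertNone (FP S σ b β), wO33 (16 * b + lam / 2) lam o * cO μ s N ε ts tD o) *
        ∑ o ∈ insertNone (FP S σ b β'), wO33 (16 * b + lam / 2) lam o * cO μ s N ε ts tD o) +
        ee N c' M * ((∑ o ∈ insertNone (FP S σ b β), wO33 (16 * b + lam / 2) lam o) *
        ∑ o ∈ insertNone (FP S σ b β'), wO33 (16 * b + lam / 2) lam o)) := by
    rw [sum_mul_sum, sum_mul_sum, ← sum_product', ← sum_product', mul_sum, mul_sum, ← sum_add_distrib, mul_sum]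
    exact sum_congr rfl fun p _ => by ring
  rw [e2]
  refine mul_le_mul_of_nonneg_left ?_ (by positivity)
  have k1 := mul_le_mul (f1 β) (f1 β') (g1 β') (mul_nonneg c2 (by positivity))
  have k2 := mul_le_mul (f2 β) (f2 β') (g2 β') (by positivity)
  refine add_le_add ((mul_le_mul_of_nonneg_left k1 c1).trans (le_of_eq (by ring)))
    ((mul_le_mul_of_nonneg_left k2 c3).trans (le_of_eq (by ring)))

end Two

end

end Pool.Agent.W_7d29a1_C0.T0P33
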