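import Pool.Agent.W_7d29a1_C0.Own1

/-!
CURV0 (MP_7d29a1_pr), leaf E0D: THE THIRD TERM, ABSTRACT. (helper27)

A finite set `X` with the weights `w`, a function `g`, `|g| ≤ B / 2`, the tilted weights `w + (t - a) g` (`|t| ≤ 1`, `a = ± 1`), a map `q` and a
finite set of finer maps `r m` (at most `n` values in every fibre of `q`). `NSx`: the level of `x` is not seen by some `r m`. `T4_abs`: the
tilted mass in the fibre of `q` of the `x` whose level is not seen from the corner `a` and not from the corner `- a`, with any own factor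
`0 ≤ A ≤ 1`, is at most `e ^ (- M)` unless the mass of three levels with the own factor (`T4x`, `= O1.T4`) is at least `e ^ (- 4 M)`.
-/

set_option autoImplicit false
set_option linter.unusedSectionVars false

namespace Pool.W7d29a1.C0.K27T

open Finset MeasureTheory Pool.Agent.W_7d29a1_C0.Mod92
open Pool.W7d29a1.C0 Pool.W7d29a1.C0.VT31 Pool.W7d29a1.C0.K1 Pool.W7d29a1.C0.O1

noncomputable section

section Abs

variable {X : Type*} [Fintype X] [Nonempty X] {Y Z : Type*} [DecidableEq Y] [DecidableEq Z]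

/-- The mass of `(y, z, z')` of the fibre with `g z' + δ < g y < g z - δ`, with the own factor `A y` (`O1.T4` for any finite set). -/
def T4x (w : X → ℝ) (q : X → Y) (g : X → ℝ) (δ : ℝ) (A : X → ℝ) (x : X) : ℝ :=
  cE w q (fun y => A y * (cE w q (upI g δ y) x * cE w q (dnI g δ y) x)) x

theorem T4x_eq {Q : Finset (Finset ℕ)} (w : Px Q → ℝ) (q : Px Q → Y) (g : Px Q → ℝ) (δ : ℝ) (A : Px Q → ℝ) (x : Px Q) :
    T4x w q g δ A x = O1.T4 w q g δ A x := rfl

theorem T4x_fib (w : X → ℝ) (q : X → Y) (g : X → ℝ) (δ : ℝ) (A : X → ℝ) {x x0 : X} (h : q x = q x0) :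
    T4x w q g δ A x = T4x w q g δ A x0 := by
  unfold T4x
  rw [cE_eq_of w q _ h]
  refine cE_congr w q (fun y => ?_) x0
  rw [cE_eq_of w q (upI g δ y) h, cE_eq_of w q (dnI g δ y) h]

theorem upI01 (g : X → ℝ) (δ : ℝ) (y z : X) : 0 ≤ upI g δ y z ∧ upI g δ y z ≤ 1 := by
  unfold upI
  split_ifs <;> norm_num

theorem dnI01 (g : X → ℝ) (δ : ℝ) (y z : X) : 0 ≤ dnI g δ y z ∧ dnI g δ y z ≤ 1 := by
  unfold dnI
  split_ifs <;> norm_num

theorem T4x_nonneg (w : X → ℝ) (q : X → Y) (g : X → ℝ) (δ : ℝ) {A : X → ℝ} (hA : ∀ x, 0 ≤ A x) (x : X) : 0 ≤ T4x w q g δ A x :=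
  cE_nonneg w q (fun y => mul_nonneg (hA y) (mul_nonneg (cE_nonneg w q (fun z => (upI01 g δ y z).1) x)
    (cE_nonneg w q (fun z => (dnI01 g δ y z).1) x))) x

/-! ### Cells -/

/-- The mass of a function in the fibre is at least the mass of the cell times the mean over the cell. -/
theorem cE_ge_cell (w : X → ℝ) {q : X → Y} {r : X → Z} (hc : Crs q r) {f : X → ℝ} (hf : ∀ x, 0 ≤ f x) (x : X) :
    cE w q (fun y => if r y = r x then 1 else 0) x * cE w r f x ≤ cE w q f x := by
  set E : X → ℝ := fun y => if r y = r x then 1 else 0 with hE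
  have hEm : Mp r E := fun y y' h => by
    rw [hE]
    simp only
    rw [h]
  have h1 : cE w q (E * f) x ≤ cE w q f x := cE_mono w q (fun y => by
    rw [Pi.mul_apply, hE]
    simp only
    split_ifs
    · rw [one_mul]
    · rw [zero_mul]
      exact hf y) x
  refine le_trans (le_of_eq ?_) h1
  rw [← cE_tower w hc (E * f), cE_pull w hEm f]
  have h2 : (E * cE w r f) = fun y => cE w r f x * E y := by
    funext y
    rw [Pi.mul_apply, hE]
    simp only
    split_ifs with h
    · rw [cE_eq_of w r f h, one_mul, mul_one]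
    · rw [zero_mul, mul_zero]
  rw [h2, cE_mulf, mul_comm]

/-- The cells of small mass. -/
theorem cE_small (w : X → ℝ) {q : X → Y} {r : X → Z} {n : ℕ} (x : X)
    (hn : ((univ.filter fun y => q y = q x).image r).card ≤ n) {θ : ℝ} (hθ : 0 ≤ θ) :
    cE w q (fun y => if cE w q (fun z => if r z = r y then 1 else 0) x < θ then 1 else 0) x ≤ n * θ := by
  set I := (univ.filter fun y => q y = q x).image r with hI
  set P : Z → ℝ := fun v => cE w q (fun z => if r z = v then 1 else 0) x with hP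
  have h1 : cE w q (fun y => if P (r y) < θ then 1 else 0) x ≤
      cE w q (fun y => ∑ v ∈ I, (if P v < θ then 1 else 0) * (if r y = v then 1 else 0)) x := by
    refine cE_fib_mono w q fun y hy => ?_
    have hyI : r y ∈ I := mem_image_of_mem r (mem_filter.2 ⟨mem_univ _, hy⟩)
    have h2 := single_le_sum (f := fun v => (if P v < θ then (1 : ℝ) else 0) * (if r y = v then 1 else 0))
      (fun v _ => by split_ifs <;> norm_num) hyI
    simp only [if_true, mul_one] at h2
    exact h2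
  refine h1.trans ?_
  rw [cE_sumf]
  have h3 : ∀ v ∈ I, cE w q (fun y => (if P v < θ then 1 else 0) * (if r y = v then 1 else 0)) x ≤ θ := fun v _ => by
    rw [cE_mulf]
    show (if P v < θ then 1 else 0) * P v ≤ θ
    split_ifs with h
    · rw [one_mul]
      exact h.le
    · rw [zero_mul]
      exact hθ
  refine (sum_le_sum h3).trans ?_
  rw [sum_const, nsmul_eq_mul]
  exact mul_le_mul_of_nonneg_right (by exact_mod_cast hn) hθ

/-! ### A level which is not seen -/

/-- The level `u x - δ` is not seen with the probability `ρ` by some `r m`. -/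
def NSx (w u : X → ℝ) (δ ρ : ℝ) (R : Finset ℕ) (r : ℕ → X → Z) (x : X) : Prop :=
  ∃ m ∈ R, cE w (r m) (fun z => if u x - δ ≤ u z then 1 else 0) x < ρ

theorem ns_compl (w : X → ℝ) (r : X → Z) {u : X → ℝ} {δ : ℝ} {x : X} (h : cE w r (fun z => if u x - δ ≤ u z then 1 else 0) x < 1 / 2)
    {f : X → ℝ} (hf0 : ∀ z, 0 ≤ f z) (hf : ∀ z, u z < u x - δ → 1 ≤ f z) : 1 / 2 ≤ cE w r f x := by
  have h1 : cE w r (fun z => (if u x - δ ≤ u z then 1 else 0) + f z) x = cE w r (fun z => if u x - δ ≤ u z then 1 else 0) x +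
      cE w r f x := cE_addf w r _ _ x
  have h2 : 1 ≤ cE w r (fun z => (if u x - δ ≤ u z then 1 else 0) + f z) x := by
    have h3 := cE_mono w r (f := fun _ => 1) (g := fun z => (if u x - δ ≤ u z then 1 else 0) + f z) (fun z => by
      by_cases hz : u x - δ ≤ u z
      · rw [if_pos hz]
        linarith [hf0 z]
      · rw [if_neg hz, zero_add]
        exact hf z (not_le.1 hz)) x
    rwa [cE_constf] at h3
  linarith

theorem ns_dn (w : X → ℝ) (r : X → Z) {g : X → ℝ} {s δ δ' : ℝ} (hs : 0 < s) (hs2 : s ≤ 2) (hδ : 0 < δ) (hδ' : δ ≤ δ') {x : X}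
    (h : cE w r (fun z => if s * g x - δ' ≤ s * g z then 1 else 0) x < 1 / 2) : 1 / 2 ≤ cE w r (dnI g (δ / 2) x) x :=
  ns_compl w r (u := fun z => s * g z) h (fun z => (dnI01 g _ x z).1) fun z hz => by
    unfold dnI
    rw [if_pos]
    by_contra hc
    push Not at hc
    have h1 : s * (g x - g z) ≤ s * (δ / 2) := mul_le_mul_of_nonneg_left (by linarith) hs.le
    have h2 : s * (δ / 2) ≤ 2 * (δ / 2) := mul_le_mul_of_nonneg_right hs2 (by linarith)
    linarith

theorem ns_up (w : X → ℝ) (r : X → Z) {g : X → ℝ} {s δ δ' : ℝ} (hs : s < 0) (hs2 : -2 ≤ s) (hδ : 0 < δ) (hδ' : δ ≤ δ') {x : X}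
    (h : cE w r (fun z => if s * g x - δ' ≤ s * g z then 1 else 0) x < 1 / 2) : 1 / 2 ≤ cE w r (upI g (δ / 2) x) x :=
  ns_compl w r (u := fun z => s * g z) h (fun z => (upI01 g _ x z).1) fun z hz => by
    unfold upI
    rw [if_pos]
    by_contra hc
    push Not at hc
    have h1 : (-s) * (g z - g x) ≤ (-s) * (δ / 2) := mul_le_mul_of_nonneg_left (by linarith) (by linarith)
    have h2 : (-s) * (δ / 2) ≤ 2 * (δ / 2) := mul_le_mul_of_nonneg_right (by linarith) (by linarith)
    linarith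

theorem ns_ne (w : X → ℝ) (r : X → Z) {g : X → ℝ} {s δ : ℝ} (hδ : 0 < δ) {x : X}
    (h : cE w r (fun z => if s * g x - δ ≤ s * g z then 1 else 0) x < 1 / 2) : s ≠ 0 := by
  rintro rfl
  have h1 : (fun z : X => if (0 : ℝ) * g x - δ ≤ 0 * g z then (1 : ℝ) else 0) = fun _ => 1 := by
    funext z
    rw [if_pos (by rw [zero_mul, zero_mul]; linarith)]
  rw [h1, cE_constf] at h
  norm_num at h

/-- Bounded changes of the weights. -/
theorem cE_chg {w w' : X → ℝ} {D : ℝ} (hD : ∀ x, |w' x - w x| ≤ D) (p : X → Y) {f : X → ℝ} (hf : ∀ x, 0 ≤ f x) (x : X) :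
    cE w' p f x ≤ Real.exp (2 * D) * cE w p f x := by
  have h1 := R43.cE_tilt (w := w) (A := fun x => w' x - w x) hD p hf x
  have e : w + (fun x => w' x - w x) = w' := by
    funext x
    rw [Pi.add_apply]
    ring
  rwa [e] at h1

/-! ### The theorem -/

section Main

variable {w g : X → ℝ} {q : X → Y} {R : Finset ℕ} {r : ℕ → X → Z} {n : ℕ} {B δ δ1 δ2 ρ1 ρ2 t a M : ℝ}

/-- The mass of the cell of `x` for `r m`. -/
def cell (w : X → ℝ) (q : X → Y) (r : X → Z) (x : X) : ℝ := cE w q (fun z => if r z = r x then 1 else 0) x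

theorem two_lev (hc : ∀ m ∈ R, Crs q (r m)) (hg : ∀ x, |g x| ≤ B / 2) (ha : a = 1 ∨ a = -1) (ht : |t| ≤ 1) (hδ : 0 < δ)
    (hδ1 : δ ≤ δ1) (hδ2 : δ ≤ δ2) (hρ1 : ρ1 ≤ 1 / 2) (hρ2 : ρ2 ≤ 1 / 2) {θ : ℝ}
    (hθ : 0 ≤ θ) {x : X} (hx : ∀ m ∈ R, θ ≤ cell w q (r m) x) (h1 : NSx w (fun x => (t - a) * g x) δ1 ρ1 R r x)
    (h2 : NSx (fun x => w x - 2 * a * g x) (fun x => (t + a) * g x) δ2 ρ2 R r x) :
    1 / 4 * θ ^ 2 * Real.exp (-(2 * B)) ≤ cE w q (upI g (δ / 2) x) x * cE w q (dnI g (δ / 2) x) x := by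
  obtain ⟨m1, hm1, k1'⟩ := h1
  obtain ⟨m2, hm2, k2'⟩ := h2
  have k1 := k1'.trans_le hρ1
  have k2 := k2'.trans_le hρ2
  have ha1 : |a| = 1 := by rcases ha with rfl | rfl <;> norm_num
  obtain ⟨t1, t2⟩ := abs_le.1 ht
  -- from the corner `a`
  have low1 : ∀ f : X → ℝ, (∀ z, 0 ≤ f z) → 1 / 2 ≤ cE w (r m1) f x → θ * (1 / 2) ≤ cE w q f x := fun f hf h =>
    (mul_le_mul (hx m1 hm1) h (by norm_num) (hθ.trans (hx m1 hm1))).trans (cE_ge_cell w (hc m1 hm1) hf x)
  -- from the corner `- a`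
  have low2 : ∀ f : X → ℝ, (∀ z, 0 ≤ f z) → 1 / 2 ≤ cE (fun x => w x - 2 * a * g x) (r m2) f x →
      θ * (1 / 2 * Real.exp (-(2 * B))) ≤ cE w q f x := fun f hf h => by
    have h3 := cE_chg (w := w) (w' := fun x => w x - 2 * a * g x) (D := B) (fun z => by
      have e : w z - 2 * a * g z - w z = -(2 * a * g z) := by ring
      rw [e, abs_neg, abs_mul, abs_mul, ha1, mul_one, abs_of_pos (by norm_num : (0 : ℝ) < 2)]
      linarith [hg z]) (r m2) hf x
    have h4 : 1 / 2 * Real.exp (-(2 * B)) ≤ cE w (r m2) f x := by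
      rw [Real.exp_neg, ← div_eq_mul_inv, div_le_iff₀ (Real.exp_pos _), mul_comm]
      exact h.trans h3
    exact (mul_le_mul (hx m2 hm2) h4 (by positivity) (hθ.trans (hx m2 hm2))).trans (cE_ge_cell w (hc m2 hm2) hf x)
  have hu : ∀ z, 0 ≤ upI g (δ / 2) x z := fun z => (upI01 g _ x z).1
  have hd : ∀ z, 0 ≤ dnI g (δ / 2) x z := fun z => (dnI01 g _ x z).1
  have n1 := ns_ne w (r m1) (hδ.trans_le hδ1) k1
  have n2 := ns_ne (fun x => w x - 2 * a * g x) (r m2) (hδ.trans_le hδ2) k2
  have hθ1 : 0 ≤ θ * (1 / 2) := by positivity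
  have hθ2 : 0 ≤ θ * (1 / 2 * Real.exp (-(2 * B))) := by positivity
  have fin : ∀ {y z : ℝ}, θ * (1 / 2) ≤ y → θ * (1 / 2 * Real.exp (-(2 * B))) ≤ z → 1 / 4 * θ ^ 2 * Real.exp (-(2 * B)) ≤ y * z :=
    fun {y z} hy hz => by
      refine le_trans (le_of_eq ?_) (mul_le_mul hy hz hθ2 (hθ1.trans hy))
      ring
  rcases ha with rfl | rfl
  · -- `a = 1`
    have s1 : t - 1 < 0 := lt_of_le_of_ne (by linarith) n1
    have s2 : 0 < t + 1 := lt_of_le_of_ne (by linarith) (Ne.symm n2)
    exact fin (low1 _ hu (ns_up w (r m1) s1 (by linarith) hδ hδ1 k1)) (low2 _ hd (ns_dn _ (r m2) s2 (by linarith) hδ hδ2 k2))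
  · -- `a = - 1`
    have s1 : 0 < t - -1 := lt_of_le_of_ne (by linarith) (Ne.symm n1)
    have s2 : t + -1 < 0 := lt_of_le_of_ne (by linarith) n2
    rw [mul_comm (cE w q (upI g (δ / 2) x) x)]
    exact fin (low1 _ hd (ns_dn w (r m1) s1 (by linarith) hδ hδ1 k1)) (low2 _ hu (ns_up _ (r m2) s2 (by linarith) hδ hδ2 k2))

open Classical in
/-- **THE THIRD TERM, ABSTRACT.** -/
theorem T4_abs (hc : ∀ m ∈ R, Crs q (r m)) (hn : 1 ≤ n) (hR : R.card ≤ n)
    (hv : ∀ m ∈ R, ∀ x, ((univ.filter fun y => q y = q x).image (r m)).card ≤ n) (hg : ∀ x, |g x| ≤ B / 2)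
    (ha : a = 1 ∨ a = -1) (ht : |t| ≤ 1) (hδ : 0 < δ) (hδ1 : δ ≤ δ1) (hδ2 : δ ≤ δ2) (hρ1 : ρ1 ≤ 1 / 2) (hρ2 : ρ2 ≤ 1 / 2)
    (hM : 8 * B + 4 * Real.log n + 4 ≤ M) {A : X → ℝ} (hA0 : ∀ x, 0 ≤ A x) (hA1 : ∀ x, A x ≤ 1) (S : X) :
    cE (fun x => w x + (t - a) * g x) q (fun x => A x * (if NSx w (fun x => (t - a) * g x) δ1 ρ1 R r x ∧
      NSx (fun x => w x - 2 * a * g x) (fun x => (t + a) * g x) δ2 ρ2 R r x then 1 else 0)) S ≤
      Real.exp (-M) + (if Real.exp (-(4 * M)) ≤ T4x w q g (δ / 2) A S then 1 else 0) := by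
  set LB : X → ℝ := fun x => if NSx w (fun x => (t - a) * g x) δ1 ρ1 R r x ∧
      NSx (fun x => w x - 2 * a * g x) (fun x => (t + a) * g x) δ2 ρ2 R r x then 1 else 0 with hLB
  have hLB0 : ∀ x, 0 ≤ LB x := fun x => by
    rw [hLB]
    simp only
    split_ifs <;> norm_num
  have hLB1 : ∀ x, LB x ≤ 1 := fun x => by
    rw [hLB]
    simp only
    split_ifs <;> norm_num
  have hB : 0 ≤ B := by
    have := (abs_nonneg _).trans (hg S)
    linarith
  have ha1 : |a| = 1 := by rcases ha with rfl | rfl <;> norm_num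
  have hnr : (1 : ℝ) ≤ n := by exact_mod_cast hn
  have hn0 : (0 : ℝ) < n := by linarith
  by_cases hT : Real.exp (-(4 * M)) ≤ T4x w q g (δ / 2) A S
  · rw [if_pos hT]
    have h1 := cE_mono (fun x => w x + (t - a) * g x) q (f := fun x => A x * LB x) (g := fun _ => 1) (fun x =>
      mul_le_one₀ (hA1 x) (hLB0 x) (hLB1 x)) S
    rw [cE_constf] at h1
    linarith [Real.exp_pos (-M)]
  · rw [if_neg hT, add_zero]
    push Not at hT
    set θ : ℝ := Real.exp (-(M + 2 * B)) / (2 * n ^ 2) with hθ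
    have hθ0 : 0 < θ := by rw [hθ]; positivity
    set κ : ℝ := 4 * Real.exp (2 * B) / θ ^ 2 with hκ
    have hκ0 : 0 ≤ κ := by rw [hκ]; positivity
    -- the passage to `w`
    have h0 : cE (fun x => w x + (t - a) * g x) q (fun x => A x * LB x) S ≤
        Real.exp (2 * B) * cE w q (fun x => A x * LB x) S := by
      refine cE_chg (fun x => ?_) q (fun x => mul_nonneg (hA0 x) (hLB0 x)) S
      simp only [add_sub_cancel_left]
      rw [abs_mul]
      have h1 : |t - a| ≤ 2 := (abs_sub _ _).trans (by rw [ha1]; linarith)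
      calc |t - a| * |g x| ≤ 2 * (B / 2) := mul_le_mul h1 (hg x) (abs_nonneg _) (by norm_num)
        _ = B := by ring
    -- the pointwise bound
    have h1 : cE w q (fun x => A x * LB x) S ≤ cE w q (fun x => (∑ m ∈ R, if cE w q (fun z => if r m z = r m x then 1 else 0) S < θ
        then 1 else 0) + κ * (A x * (cE w q (upI g (δ / 2) x) S * cE w q (dnI g (δ / 2) x) S))) S := by
      refine cE_fib_mono w q fun x hx => ?_
      have hs0 : ∀ m ∈ R, (0 : ℝ) ≤ if cE w q (fun z => if r m z = r m x then 1 else 0) S < θ then 1 else 0 := fun m _ => by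
        split_ifs <;> norm_num
      have hp0 : 0 ≤ κ * (A x * (cE w q (upI g (δ / 2) x) S * cE w q (dnI g (δ / 2) x) S)) :=
        mul_nonneg hκ0 (mul_nonneg (hA0 x) (mul_nonneg (cE_nonneg w q (fun z => (upI01 g _ x z).1) S)
          (cE_nonneg w q (fun z => (dnI01 g _ x z).1) S)))
      by_cases hbad : ∃ m ∈ R, cE w q (fun z => if r m z = r m x then 1 else 0) S < θ
      · obtain ⟨m, hm, hb⟩ := hbad
        have h2 := single_le_sum hs0 hm
        rw [if_pos hb] at h2
        have h3 := mul_le_one₀ (hA1 x) (hLB0 x) (hLB1 x)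
        linarith
      · push Not at hbad
        have hsum := sum_nonneg hs0
        by_cases hl : NSx w (fun x => (t - a) * g x) δ1 ρ1 R r x ∧ NSx (fun x => w x - 2 * a * g x) (fun x => (t + a) * g x) δ2 ρ2 R r x
        · have h4 := two_lev hc hg ha ht hδ hδ1 hδ2 hρ1 hρ2 hθ0.le (fun m hm => by
            unfold cell
            rw [cE_eq_of w q _ hx]
            exact hbad m hm) hl.1 hl.2
          rw [cE_eq_of w q (upI g (δ / 2) x) hx, cE_eq_of w q (dnI g (δ / 2) x) hx] at h4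
          have h5 : 1 ≤ κ * (cE w q (upI g (δ / 2) x) S * cE w q (dnI g (δ / 2) x) S) := by
            refine le_trans (le_of_eq ?_) (mul_le_mul_of_nonneg_left h4 hκ0)
            rw [hκ, Real.exp_neg]
            have := (Real.exp_pos (2 * B)).ne'
            have := hθ0.ne'
            field_simp
          have h6 : A x * LB x ≤ κ * (A x * (cE w q (upI g (δ / 2) x) S * cE w q (dnI g (δ / 2) x) S)) := by
            have e : LB x = 1 := if_pos hl
            rw [e, mul_one]
            have := mul_le_mul_of_nonneg_left h5 (hA0 x)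
            linarith
          linarith
        · have e : LB x = 0 := if_neg hl
          rw [e, mul_zero]
          linarith
    rw [cE_addf, cE_mulf, cE_sumf] at h1
    have h2 : ∑ m ∈ R, cE w q (fun x => if cE w q (fun z => if r m z = r m x then 1 else 0) S < θ then 1 else 0) S ≤ n * (n * θ) := by
      refine (sum_le_sum fun m hm => cE_small w S (hv m hm S) hθ0.le).trans ?_
      rw [sum_const, nsmul_eq_mul]
      exact mul_le_mul_of_nonneg_right (by exact_mod_cast hR) (by positivity)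
    have h3 : cE w q (fun x => A x * LB x) S ≤ n * (n * θ) + κ * Real.exp (-(4 * M)) := by
      have h4 : κ * cE w q (fun x => A x * (cE w q (upI g (δ / 2) x) S * cE w q (dnI g (δ / 2) x) S)) S ≤
          κ * Real.exp (-(4 * M)) := mul_le_mul_of_nonneg_left hT.le hκ0
      linarith
    have h4 := mul_le_mul_of_nonneg_left h3 (Real.exp_pos (2 * B)).le
    refine h0.trans (h4.trans ?_)
    -- numbers
    have e1 : Real.exp (2 * B) * (n * (n * θ)) = Real.exp (-M) / 2 := by
      have e2 : Real.exp (-(M + 2 * B)) = Real.exp (-M) * (Real.exp (2 * B))⁻¹ := by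
        rw [← Real.exp_neg, ← Real.exp_add]
        ring_nf
      rw [hθ, e2]
      have := (Real.exp_pos (2 * B)).ne'
      field_simp
    have e3 : Real.exp (2 * B) * (κ * Real.exp (-(4 * M))) ≤ Real.exp (-M) / 2 := by
      have e4 : Real.exp (2 * B) * (κ * Real.exp (-(4 * M))) = 16 * (n : ℝ) ^ 4 * Real.exp (8 * B) * Real.exp (-(2 * M)) := by
        have e5 : θ ^ 2 = Real.exp (-(2 * M)) * Real.exp (-(4 * B)) / (4 * (n : ℝ) ^ 4) := by
          rw [hθ, div_pow, ← Real.exp_nat_mul, ← Real.exp_add]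
          congr 1
          · congr 1
            push_cast
            ring
          · ring
        have e6 : Real.exp (-(4 * M)) = Real.exp (-(2 * M)) * Real.exp (-(2 * M)) := by
          rw [← Real.exp_add]
          ring_nf
        have e7 : Real.exp (8 * B) = Real.exp (2 * B) * Real.exp (2 * B) * Real.exp (4 * B) := by
          rw [← Real.exp_add, ← Real.exp_add]
          ring_nf
        have e8 : Real.exp (-(4 * B)) = (Real.exp (4 * B))⁻¹ := Real.exp_neg _
        rw [hκ, e5, e6, e7, e8]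
        have := (Real.exp_pos (-(2 * M))).ne'
        have := (Real.exp_pos (4 * B)).ne'
        field_simp
        ring
      rw [e4]
      have e9 : (n : ℝ) ^ 4 = Real.exp (4 * Real.log n) := by
        rw [mul_comm, Real.exp_mul, Real.exp_log hn0]
        norm_num
      have e10 : Real.exp (-(2 * M)) = Real.exp (-M) * Real.exp (-M) := by
        rw [← Real.exp_add]
        ring_nf
      have e11 : 16 * (n : ℝ) ^ 4 * Real.exp (8 * B) * Real.exp (-M) ≤ 1 / 2 := by
        have e12 : (n : ℝ) ^ 4 * Real.exp (8 * B) * Real.exp (-M) ≤ Real.exp (-4) := by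
          rw [e9, ← Real.exp_add, ← Real.exp_add]
          exact Real.exp_le_exp.2 (by linarith)
        have e13 : Real.exp (-4) ≤ 1 / 32 := by
          have h5 : (2.7 : ℝ) ≤ Real.exp 1 := by
            have := Real.exp_one_gt_d9
            linarith
          have h6 : Real.exp 4 = Real.exp 1 ^ 4 := by
            rw [← Real.exp_nat_mul]
            norm_num
          have h7 : (2.7 : ℝ) ^ 4 ≤ Real.exp 4 := by
            rw [h6]
            exact pow_le_pow_left₀ (by norm_num) h5 4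
          rw [Real.exp_neg, inv_le_comm₀ (Real.exp_pos _) (by norm_num)]
          refine le_trans (by norm_num) h7
        linarith
      rw [e10]
      have h8 := mul_le_mul_of_nonneg_right e11 (Real.exp_pos (-M)).le
      linarith
    rw [mul_add]
    linarith

end Main

end Abs

end

end Pool.W7d29a1.C0.K27T
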