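import Pool.Agent.W_7d29a1_C0.Trans27N

/-!
CURV0 (MP_7d29a1_pr), leaf E0, part 6: THE MIRROR IMAGE, FINAL FORM. (helper27; the template is `Loc7D`, `Loc7F` of helper7)

`e0_finL`: with `N ^ κ ≤ K`, `N ^ κ ≤ N - (c + K)`, a tilt `U` behind the row `c + K` (`FA`), `|U| ≤ M ≤ N ^ ε₁`, replica functionals
`0 ≤ Ψ, Ψ' ≤ N ^ K'`, `Ψ` a function of what the replicas do up to the row `c`, `Ψ η ≤ Ψ' ζ` for all `ζ` which differ from `η` on the slab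
only, by at most `2 M / K`: `∫ rep k (lw + U) Ψ ≤ N ^ ε (∫ rep k lw Ψ' + N ^ (- K'))`.
`E0L`, `e0_finLR`: integrals of real functions; `e0_PmL`: over `Pm`; `e0_wtL`: the measure `wt` of a window behind the slab.
-/

set_option autoImplicit false

namespace Pool.W7d29a1.C0.H27

open Finset MeasureTheory Filter Topology Pool.Agent.W_7d29a1_F Pool.Agent.W_7d29a1_X Pool.Agent.W_7d29a1_C0.Mod92
  Pool.Agent.W_7d29a1_C0.H32 Pool.W7d29a1.C0.H7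
open Pool.Agent.W_7d29a1_H (sl)
open Pool.Agent.W_7d29a1_HS (In wd)
open Pool.Agent.W_7d29a1_HZ (NSp wd' gp)
open Pool.Agent.W_7d29a1_Z74 (ZJ)
open Pool.W7d29a1.C0 (gz gm)
open Pool.Agent.W_7d29a1_C0.Loc14 (Qp Qf LocG loc14)
open Pool.Agent.W_7d29a1_C0.LocM18 (Ns Cna Cn)
open scoped ENNReal

noncomputable section

variable {μ : Measure ℝ} {s : ℝ} {N : ℕ}

/-! ### The cone sites and the futures -/

open Classical in
/-- The cone sites of the slab: for the pinned family the end is in the cone of the site. -/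
def CnL (μ : Measure ℝ) (s δ : ℝ) (N : ℕ) (P : Finset (Finset ℕ)) (c K : ℕ) : Finset Pt :=
  (slb c K).filter fun p => p.2 ≤ p.1 ∧ (P = Fr N ∨ ∃ y : ℕ, P = Pn N y ∧ p.2 ≤ y ∧ (y : ℤ) - p.2 ≤ ((N - p.1.toNat : ℕ) : ℤ) ∧
    |((((y : ℤ) - p.2 : ℤ) : ℤ) : ℝ) - sl μ s * ((N - p.1.toNat : ℕ) : ℝ)| ≤
      ((N - p.1.toNat : ℕ) : ℝ) ^ δ * wd' μ s (N - p.1.toNat))

theorem CnL_sub (δ : ℝ) (P : Finset (Finset ℕ)) (c K : ℕ) : CnL μ s δ N P c K ⊆ slb c K := by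
  classical
  exact filter_subset _ _

/-- A future which is nowhere steep is near the straight line at the row `c + K`. -/
theorem near_of_NSp {m j : ℕ} {ε R : ℝ} {z : ℤ} {T : Finset ℕ} (hj : j ≤ m) (hR0 : 0 ≤ R)
    (hR : 1 ≤ j → (m : ℝ) ^ ε * wd' μ s j ≤ R) (h : NSp μ s m m ε T) :
    |(((z + pos T j : ℤ) : ℝ) - z - sl μ s * j)| ≤ R := by
  rcases Nat.eq_zero_or_pos j with h0 | h0
  · subst h0
    rw [pos_zero]
    simpa using hR0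
  · have h1 := h 0 j h0 (by omega)
    rw [zero_add, pos_zero, sub_zero] at h1
    have e : (((z + pos T j : ℤ) : ℝ) - z - sl μ s * j) = ((pos T j : ℤ) : ℝ) - sl μ s * j := by
      push_cast
      ring
    rw [e]
    exact h1.trans (hR h0)

open Classical in
/-- The cone sites are good. -/
theorem g1_L {η : Env} {κ δ ε g R : ℝ} (hL : LocG μ s N κ δ ε g η) {P : Finset (Finset ℕ)} {c K : ℕ}
    (hκc : (N : ℝ) ^ κ ≤ ((N - (c + K) : ℕ) : ℝ)) (hcK : c + K ≤ N)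
    (hε : 0 ≤ ε) (hR0 : 0 ≤ R) (hR : ∀ i : ℕ, 1 ≤ i → i ≤ K → (N : ℝ) ^ ε * wd' μ s i ≤ R) :
    ∀ t j : ℕ, t + j = c + K → c < t → ∀ z : ℤ, ((t : ℤ), z) ∈ CnL μ s δ N P c K →
      FarL μ s η N c K P (sl μ s) R t j z ≤
        Real.exp (-(N : ℝ) ^ g) * FS μ s η N (c + K) (slb c K) (bF (c + K) P) t j z := by
  intro t j hj hct z hz
  obtain ⟨h1, h2, h3⟩ := mem_filter.1 hz
  simp only [Int.toNat_natCast] at h2 h3
  have hz0 : 0 ≤ z := (mem_slb.1 h1).2.1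
  have hm : (N : ℝ) ^ κ ≤ ((N - t : ℕ) : ℝ) := hκc.trans (by exact_mod_cast (by omega : N - (c + K) ≤ N - t))
  have h4 := hL t (by omega) z (by rw [abs_of_nonneg hz0]; omega) (N - t) hm (by omega)
  have ha : ∀ T, T ⊆ range (N - t) → (fun x : ℤ => if |((x : ℝ) - z - sl μ s * j)| ≤ R then (0 : ℝ) else 1) (z + pos T j) ≤
      if NSp μ s (N - t) (N - t) ε T then 0 else 1 := fun T _ => by
    by_cases hn : NSp μ s (N - t) (N - t) ε T
    · have h5 := near_of_NSp (z := z) (by omega : j ≤ N - t) hR0 (fun h0 => (mul_le_mul_of_nonneg_right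
        (Real.rpow_le_rpow (Nat.cast_nonneg _) (by exact_mod_cast (by omega : N - t ≤ N)) hε)
        (le_trans zero_le_one (le_max_left _ _))).trans (hR j h0 (by omega))) hn
      simp only
      rw [if_pos h5, if_pos hn]
    · rw [if_neg hn]
      simp only
      split_ifs <;> norm_num
  unfold FarL
  rcases h3 with h3 | ⟨y, h3, h5, h6, h7⟩
  · rw [h3]
    exact far_Fr hj hct hcK hz0 h2 h4.2 ha
  · rw [h3]
    exact far_Pn hj hct hcK hz0 h2 h5 h6 (h4.1 _ (by omega) h6 h7) ha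

open Classical in
theorem g2_L {κ δ ε δ' : ℝ} {P : Finset (Finset ℕ)} {c K : ℕ} (hP : Pok μ s N δ' P)
    (hκc : (N : ℝ) ^ κ ≤ ((N - (c + K) : ℕ) : ℝ)) (hcK : c + K ≤ N) (S : Px P) :
    (if Out7 c K (CnL μ s δ N P c K) S.1 then (1 : ℝ) else 0) ≤ if Ns μ s ε 0 N S ∧ Cna μ s N κ δ S then 0 else 1 := by
  by_cases h : Ns μ s ε 0 N S ∧ Cna μ s N κ δ S
  · have hO : ¬ Out7 c K (CnL μ s δ N P c K) S.1 := by
      rintro ⟨i, h1, h2, h3⟩
      apply h3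
      have h4 := pos_nonneg S.1 (i + 1)
      have h5 := pos_le S.1 (i + 1)
      have e : (((i : ℤ) + 1).toNat) = i + 1 := by omega
      refine mem_filter.2 ⟨?_, ?_, ?_⟩
      · rw [mem_slb]
        simp only
        push_cast at h5 ⊢
        omega
      · simp only
        push_cast at h5
        exact h5
      · simp only [e]
        rcases hP with hP | ⟨y, hy, hyc, hP⟩
        · exact Or.inl hP
        · refine Or.inr ⟨y, hP, ?_⟩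
          have h6 := h.2 (i + 1) N (by omega) le_rfl (hκc.trans (by
            exact_mod_cast (by omega : N - (c + K) ≤ N - (i + 1))))
          unfold Cn at h6
          have h7 : ps S N = (y : ℤ) := by
            have hS : S.1 ∈ Pn N y := by rw [← hP]; exact S.2
            obtain ⟨q1, q2⟩ := mem_powersetCard.1 hS
            unfold ps
            rw [pos_card q1, q2]
          rw [h7] at h6
          have h8 := card_split S.1 (i + 1)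
          have h9 : (S.1.card : ℤ) = y := by
            have hS : S.1 ∈ Pn N y := by rw [← hP]; exact S.2
            rw [(mem_powersetCard.1 hS).2]
          have h10 : (S.1 \ range (i + 1)).card ≤ N - (i + 1) := by
            have hS : S.1 ∈ Pn N y := by rw [← hP]; exact S.2
            have h11 : S.1 \ range (i + 1) ⊆ Ico (i + 1) N := fun q hq => by
              obtain ⟨q1, q2⟩ := Finset.mem_sdiff.1 hq
              have q3 := mem_range.1 ((mem_powersetCard.1 hS).1 q1)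
              rw [mem_range] at q2
              rw [mem_Ico]
              omega
            have := card_le_card h11
            rwa [Nat.card_Ico] at this
          refine ⟨by omega, by omega, h6⟩
    rw [if_neg hO, if_pos h]
  · rw [if_neg h]
    split_ifs <;> norm_num

open Classical in
theorem g3_L {κ δ ε R : ℝ} {P : Finset (Finset ℕ)} {c K : ℕ} (hK0 : 0 < K) (hcK : c + K ≤ N)
    (hR : (N : ℝ) ^ ε * wd' μ s K ≤ R) (S : Px P) :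
    (if ps S (c + K) ∈ nbL N K (sl μ s) R (ps S c) then (0 : ℝ) else 1) ≤
      if Ns μ s ε 0 N S ∧ Cna μ s N κ δ S then 0 else 1 := by
  by_cases h : Ns μ s ε 0 N S ∧ Cna μ s N κ δ S
  · have h1 : ps S (c + K) ∈ nbL N K (sl μ s) R (ps S c) := by
      unfold nbL
      rw [mem_filter, mem_Icc]
      refine ⟨⟨ps_nonneg S _, (ps_le S _).trans (by exact_mod_cast hcK)⟩, ?_⟩
      have h2 := h.1 c K hK0 (Nat.zero_le _) (by omega)
      rw [Nat.sub_zero] at h2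
      push_cast at h2
      exact h2.trans hR
    rw [if_pos h1, if_pos h]
  · rw [if_neg h]
    split_ifs <;> norm_num

/-! ### The final form -/

/-- **E0, FINAL FORM, MIRROR IMAGE.** -/
theorem e0_finL [IsProbabilityMeasure μ] {c₀ C₀ : ℝ} {n₀ : ℕ} (h : In μ s c₀ C₀ n₀)
    (hQI : ∀ p : ℝ, 1 < p → ∃ C θ0 : ℝ, 0 ≤ C ∧ 0 < θ0 ∧ QI μ p C θ0) {κ : ℝ} (hκ : 0 < κ) (hκ1 : κ ≤ 1) (k : ℕ) {ε K' : ℝ}
    (hε : 0 < ε) (hK' : 0 ≤ K') : ∃ δ' ε₁ : ℝ, 0 < δ' ∧ 0 < ε₁ ∧ ∃ N₀ : ℕ, ∀ N : ℕ, N₀ ≤ N →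
      ∀ P : Finset (Finset ℕ), Pok μ s N δ' P → ∀ c K : ℕ, (N : ℝ) ^ κ ≤ ((N - (c + K) : ℕ) : ℝ) → (N : ℝ) ^ κ ≤ K →
      c + K ≤ N → ∀ M : ℝ, 0 ≤ M → M ≤ (N : ℝ) ^ ε₁ → ∀ U : Env → ℤ → Finset ℕ → ℝ, FA (c + K) M U →
      ∀ G : Set Env, MeasurableSet G →
      ∀ Ψ Ψ' : Env → (Fin k → Px P) → ℝ, (∀ η x, 0 ≤ Ψ η x) → (∀ η x, Ψ η x ≤ (N : ℝ) ^ K') →
      (∀ η x, 0 ≤ Ψ' η x) → (∀ η x, Ψ' η x ≤ (N : ℝ) ^ K') → (∀ x, Measurable fun η => Ψ' η x) →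
      (∀ η, ∀ x x' : Fin k → Px P, (∀ i, (x i).1 ∩ range c = (x' i).1 ∩ range c) → Ψ η x = Ψ η x') →
      (∀ η ∈ G, ∀ ζ : Env, (∀ q, q ∉ slb c K → ζ q = η q) → (∀ q, |ζ q - η q| ≤ 2 * M / K) → ∀ x, Ψ η x ≤ Ψ' ζ x) →
      ∫⁻ η, ENNReal.ofReal (rep k (fun S => lw μ s η N P S + tF (c + K) U η S) (Ψ η)) ∂(law μ) ≤
        ENNReal.ofReal ((N : ℝ) ^ ε) *
          (∫⁻ η, ENNReal.ofReal (rep k (lw μ s η N P) (Ψ' η)) ∂(law μ) + ENNReal.ofReal ((N : ℝ) ^ (-K'))) +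
        ENNReal.ofReal ((N : ℝ) ^ K') * law μ Gᶜ := by
  classical
  obtain ⟨a, K₁, ha, ha1, hK1, hw⟩ := Pool.Agent.W_7d29a1_HZ.wd'_pow h
  obtain ⟨e2, he2⟩ : ∃ e2 : ℝ, e2 = a * κ / 4 := ⟨_, rfl⟩
  have he20 : 0 < e2 := by rw [he2]; positivity
  obtain ⟨δa, ga, hδa, hga, Na, hLa⟩ := loc14 h hκ e2 he20
  obtain ⟨e3, he3⟩ : ∃ e3 : ℝ, e3 = min e2 (κ * δa) := ⟨_, rfl⟩
  have he30 : 0 < e3 := by rw [he3]; exact lt_min he20 (by positivity)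
  have he32 : e3 ≤ e2 := by rw [he3]; exact min_le_left _ _
  have he33 : e3 ≤ κ * δa := by rw [he3]; exact min_le_right _ _
  obtain ⟨δb, gb, hδb, hgb, Nb, hLb⟩ := loc14 h hκ e3 he30
  obtain ⟨g, hg⟩ : ∃ g : ℝ, g = min ga gb := ⟨_, rfl⟩
  have hg0 : 0 < g := by rw [hg]; exact lt_min hga hgb
  have hg1 : g ≤ ga := by rw [hg]; exact min_le_left _ _
  have hg2 : g ≤ gb := by rw [hg]; exact min_le_right _ _
  obtain ⟨e1, he1⟩ : ∃ e1 : ℝ, e1 = min (a * κ / 8) (min (g / 2) (κ / 2)) := ⟨_, rfl⟩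
  have he10 : 0 < e1 := by rw [he1]; exact lt_min (by positivity) (lt_min (by positivity) (by positivity))
  have hp1 : 1 < p7 k ε K' := p7_gt hε hK'
  obtain ⟨C, θ0, hC, hθ, hQ⟩ := hQI (p7 k ε K') hp1
  have hw1 : 1 ≤ wd' μ s 1 := le_max_left _ _
  have hK1w : 1 ≤ K₁ * wd' μ s 1 := by nlinarith
  have n1 := num7 k (K' := K') (K₁ := K₁ * wd' μ s 1) (C := C) (e1 := e1) (e2 := e2) hκ ha hK1w hg0 hC hθ
    (by rw [he1]; exact min_le_left _ _) (by rw [he1]; exact (min_le_right _ _).trans (min_le_left _ _))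
    (by rw [he1]; exact (min_le_right _ _).trans (min_le_right _ _)) he20.le (le_of_eq he2)
  have n2 := fin7 k hε hK'
  have n3 := Pool.Agent.W_7d29a1_HZ.Z74.ev_exp (A := 8) (a := 1) (b := g) (c := g / 2) (by norm_num) one_pos hg0 (by linarith)
    (2 * K')
  obtain ⟨N₁, hN₁⟩ := eventually_atTop.1 (n1.and (n2.and n3))
  refine ⟨δb, e1, hδb, he10, max (max Na Nb) (max N₁ 1), fun N hN P hP c K hc hK hcK M hM0 hM U hU G hG Ψ Ψ' h0 hΛ h0' hΛ' hm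
    hΨ hpas => ?_⟩
  have k1 : Na ≤ N := (le_max_left _ _).trans ((le_max_left _ _).trans hN)
  have k2 : Nb ≤ N := (le_max_right _ _).trans ((le_max_left _ _).trans hN)
  have k3 : N₁ ≤ N := (le_max_left _ _).trans ((le_max_right _ _).trans hN)
  have k4 : 1 ≤ N := (le_max_right _ _).trans ((le_max_right _ _).trans hN)
  obtain ⟨⟨m1, m2⟩, m3, m4⟩ := hN₁ N k3
  have hNR : (1 : ℝ) ≤ N := by exact_mod_cast k4
  have hN0 : (0 : ℝ) < N := by linarith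
  have hKp : (0 : ℝ) < K := (Real.rpow_pos_of_pos hN0 κ).trans_le hK
  have hK0 : 0 < K := by exact_mod_cast hKp
  have := hP.ne
  -- the width
  obtain ⟨w1, _, w3⟩ := hw 1 K le_rfl hK0
  have hW1 : 1 ≤ wd' μ s K := le_max_left _ _
  have hW : wd' μ s K ≤ K₁ * wd' μ s 1 * (K : ℝ) ^ (1 - a) := by
    refine w3.trans (le_of_eq ?_)
    rw [Nat.cast_one, div_one]
    ring
  obtain ⟨q1, q2, q3⟩ := m2 c K M (wd' μ s K) hK hcK hM0 hM hW1 hW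
  set R : ℝ := K₁ * wd' μ s 1 * (N : ℝ) ^ e2 * wd' μ s K with hR
  have hNe : 0 < (N : ℝ) ^ e2 := Real.rpow_pos_of_pos hN0 _
  have hR0 : 0 ≤ R := by rw [hR]; positivity
  have hRi : ∀ i : ℕ, 1 ≤ i → i ≤ K → (N : ℝ) ^ e2 * wd' μ s i ≤ R := fun i hi hiK => by
    have h1 := (hw i K hi hiK).1
    have h2 : K₁ * wd' μ s K ≤ K₁ * wd' μ s 1 * wd' μ s K := by
      have : 0 ≤ K₁ * wd' μ s K := by positivity
      nlinarith
    calc (N : ℝ) ^ e2 * wd' μ s i ≤ (N : ℝ) ^ e2 * (K₁ * wd' μ s 1 * wd' μ s K) :=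
          mul_le_mul_of_nonneg_left (h1.trans h2) hNe.le
      _ = R := by rw [hR]; ring
  -- the good event
  obtain ⟨Ω, hΩm, hΩ, hΩc⟩ := good7 (μ := μ) fun η => LocG μ s N κ δa e2 ga η ∧ LocG μ s N κ δb e3 gb η
  set ε0 := Real.exp (-(N : ℝ) ^ g) with hε0
  have mono_g : ∀ x : ℝ, g ≤ x → Real.exp (-(N : ℝ) ^ x) ≤ ε0 := fun x hx =>
    Real.exp_le_exp.2 (neg_le_neg (Real.rpow_le_rpow_of_exponent_le hNR hx))
  have hlocal : ∀ η ∈ Ω, gm (lw μ s η N P) (fun S => if Ns μ s e2 0 N S ∧ Cna μ s N κ δa S then 0 else 1) ≤ ε0 := fun η hη =>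
    (Pok.loc (hΩ η hη).2 hδa.le k4 hκ1 he33 he32 hP).trans (mono_g _ hg2)
  have key := e0_modL (μ := μ) (s := s) (σ := sl μ s) (R := R) (Cn := CnL μ s δa N P c K) (δ0 := ε0) (ε := ε0) (Ω := Ω ∩ G)
    (hP.fam (by omega : c + K ≤ N)) hK0 hcK hM0 hU hR0 hp1.le hC hQ q1 (CnL_sub _ _ _ _) (Real.exp_pos _).le
    (Real.exp_pos _).le m1 (hΩm.inter hG)
    (fun η hη t j hj ht z hz => (g1_L (hΩ η hη.1).1 hc hcK he20.le hR0 hRi t j hj ht z hz).trans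
      (mul_le_mul_of_nonneg_right (mono_g _ hg1) (FS_nonneg _ (bF_nonneg _ _) _ _ _)))
    (fun η hη => (Pool.W7d29a1.C0.gm_mono _ fun S => g2_L hP hc hcK S).trans (hlocal η hη.1))
    (fun η hη => (Pool.W7d29a1.C0.gm_mono _ fun S => g3_L hK0 hcK (hRi K hK0 le_rfl) S).trans (hlocal η hη.1))
    h0 hΛ h0' hΛ' hm hΨ (fun η hη => hpas η hη.2)
  -- the exponent
  have hG' : ∀ η, 0 ≤ rep k (lw μ s η N P) (Ψ' η) := fun η => rep_nonneg7 _ (h0' η)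
  have hZ := lint_pow7 (law μ) hG' (fun η => rep_le_const7 _ (hΛ' η)) hp1.le (τ := (N : ℝ) ^ (-(K' + 1)))
    (Real.rpow_pos_of_pos hN0 _)
  have hE : (N + 1 : ℝ) ^ k * (4 * k * Real.exp (4 * M) * ε0 * (N : ℝ) ^ K') + (N : ℝ) ^ K' * k * (Real.exp (2 * M) * ε0) ≤
      (N : ℝ) ^ (-K') / 4 := q3
  have hL : ENNReal.ofReal ((N : ℝ) ^ K') * law μ Ωᶜ ≤ ENNReal.ofReal ((N : ℝ) ^ (-K') / 4) := by
    have h1 : law μ Ωᶜ ≤ ENNReal.ofReal (2 * ε0) := by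
      rw [hΩc]
      have hsub : {η | ¬(LocG μ s N κ δa e2 ga η ∧ LocG μ s N κ δb e3 gb η)} ⊆
          {η | ¬ LocG μ s N κ δa e2 ga η} ∪ {η | ¬ LocG μ s N κ δb e3 gb η} := by
        intro η hη
        by_contra hcon
        rw [Set.mem_union, not_or] at hcon
        exact hη ⟨not_not.1 hcon.1, not_not.1 hcon.2⟩
      refine (measure_mono hsub).trans ((measure_union_le _ _).trans ((add_le_add (hLa N k1) (hLb N k2)).trans ?_))
      rw [← ENNReal.ofReal_add (Real.exp_pos _).le (Real.exp_pos _).le]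
      refine ENNReal.ofReal_le_ofReal ?_
      have h3 := mono_g ga hg1
      have h4 := mono_g gb hg2
      linarith
    refine (mul_le_mul_right h1 _).trans ?_
    rw [← ENNReal.ofReal_mul (Real.rpow_nonneg hN0.le _)]
    refine ENNReal.ofReal_le_ofReal ?_
    have hpos := Real.rpow_pos_of_pos hN0 K'
    have e : (N : ℝ) ^ (2 * K') = (N : ℝ) ^ K' * (N : ℝ) ^ K' := by
      rw [← Real.rpow_add hN0]
      congr 1
      ring
    have h5 : 8 * ((N : ℝ) ^ K' * (N : ℝ) ^ K') * ε0 ≤ 1 := by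
      rw [← e]
      rw [one_mul] at m4
      refine m4.trans ?_
      have : Real.exp (-(N : ℝ) ^ (g / 2)) ≤ 1 := by
        rw [Real.exp_le_one_iff]
        linarith [Real.rpow_pos_of_pos hN0 (g / 2)]
      linarith
    rw [Real.rpow_neg hN0.le, le_div_iff₀ (by norm_num), ← one_div, le_div_iff₀ hpos]
    linarith
  have hcompl : ENNReal.ofReal ((N : ℝ) ^ K') * law μ (Ω ∩ G)ᶜ ≤
      ENNReal.ofReal ((N : ℝ) ^ K') * law μ Ωᶜ + ENNReal.ofReal ((N : ℝ) ^ K') * law μ Gᶜ := by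
    rw [← mul_add, Set.compl_inter]
    exact mul_le_mul_right (measure_union_le _ _) _
  refine m3 _ _ _ _ _ _ _ (key.trans (add_le_add le_rfl hcompl)) hZ ?_ hE hL
  exact q2

/-- The statement of `e0_finL` at one `N`, for integrals of real functions. -/
def E0L (μ : Measure ℝ) (s : ℝ) (k N : ℕ) (P : Finset (Finset ℕ)) (c K : ℕ) (M ε K' : ℝ) : Prop :=
  ∀ U : Env → ℤ → Finset ℕ → ℝ, FA (c + K) M U → ∀ G : Set Env, MeasurableSet G →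
      ∀ Ψ Ψ' : Env → (Fin k → Px P) → ℝ, (∀ η x, 0 ≤ Ψ η x) → (∀ η x, Ψ η x ≤ (N : ℝ) ^ K') →
      (∀ η x, 0 ≤ Ψ' η x) → (∀ η x, Ψ' η x ≤ (N : ℝ) ^ K') → (∀ x, Measurable fun η => Ψ η x) →
      (∀ x, Measurable fun η => Ψ' η x) →
      (∀ η, ∀ x x' : Fin k → Px P, (∀ i, (x i).1 ∩ range c = (x' i).1 ∩ range c) → Ψ η x = Ψ η x') →
      (∀ η ∈ G, ∀ ζ : Env, (∀ q, q ∉ slb c K → ζ q = η q) → (∀ q, |ζ q - η q| ≤ 2 * M / K) → ∀ x, Ψ η x ≤ Ψ' ζ x) →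
      ∫ η, rep k (fun S => lw μ s η N P S + tF (c + K) U η S) (Ψ η) ∂(law μ) ≤
        (N : ℝ) ^ ε * (∫ η, rep k (lw μ s η N P) (Ψ' η) ∂(law μ) + (N : ℝ) ^ (-K')) + (N : ℝ) ^ K' * (law μ Gᶜ).toReal

/-! ### The window behind the slab -/

/-- The tilt of the window as a function of the future. -/
def gwL (μ : Measure ℝ) (s δ B : ℝ) (b j : ℕ) (a : ℤ) (t : ℝ) (η : Env) (z : ℤ) (T : Finset ℕ) : ℝ :=
  (t - a) * gw μ s η δ B a (j - b) (j + b - (j - b)) (j - (j - b)) (z + (((T ∩ range (j - b)).card : ℕ) : ℤ))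
    (z + (((T ∩ range (j + b)).card : ℕ) : ℤ))

theorem W_updL {c : ℕ} (η : Env) {u : Pt} (x : ℝ) (hu : u.1 ≤ (c : ℤ)) (a : Pt) (n : ℕ) (y : ℤ) (ha : (c : ℤ) ≤ a.1) :
    W μ s (Function.update η u x) a n y = W μ s η a n y :=
  Pool.Agent.W_7d29a1_HZ.Z74.W_rows s a n y fun p hp _ => Function.update_of_ne (by rintro rfl; omega) _ _

theorem gw_updL {c : ℕ} (η : Env) {u : Pt} (v : ℝ) (hu : u.1 ≤ (c : ℤ)) (δ B : ℝ) (a : ℤ) {c' l k : ℕ}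
    (hc : c ≤ c') (x y : ℤ) : gw μ s (Function.update η u v) δ B a c' l k x y = gw μ s η δ B a c' l k x y := by
  have h1 : ∀ (p q : ℤ), ZJ μ s (Function.update η u v) ((c' : ℤ), x) k (l - k) p q = ZJ μ s η ((c' : ℤ), x) k (l - k) p q :=
    fun p q => by
      unfold Pool.Agent.W_7d29a1_Z74.ZJ
      refine sum_congr rfl fun z _ => ?_
      rw [W_updL η v hu _ _ _ (by simp only; omega), W_updL η v hu _ _ _ (by simp only; omega)]
  unfold gw lk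
  rw [h1, W_updL η v hu _ _ _ (by simp only; omega)]

theorem gwL_FA {δ B t : ℝ} (hB : 0 ≤ B) {b j : ℕ} {a : ℤ} (ha : |(a : ℝ)| ≤ 1) (ht : |t| ≤ 1) {c1 : ℕ}
    (hc : c1 ≤ j - b) : FA c1 B (gwL μ s δ B b j a t) where
  bd η z T := by
    unfold gwL
    rw [abs_mul]
    have h1 := abs_gw (μ := μ) (s := s) η (δ := δ) hB ha (j - b) (j + b - (j - b)) (j - (j - b))
      (z + (((T ∩ range (j - b)).card : ℕ) : ℤ)) (z + (((T ∩ range (j + b)).card : ℕ) : ℤ))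
    have h2 : |t - a| ≤ 2 := (abs_sub _ _).trans (by linarith)
    calc |t - a| * |gw μ s η δ B a (j - b) (j + b - (j - b)) (j - (j - b)) (z + (((T ∩ range (j - b)).card : ℕ) : ℤ))
          (z + (((T ∩ range (j + b)).card : ℕ) : ℤ))| ≤ 2 * (B / 2) :=
          mul_le_mul h2 h1 (abs_nonneg _) (by norm_num)
      _ = B := by ring
  bl η u x hu := by
    funext z T
    unfold gwL
    rw [gw_updL η x hu δ B a hc]
  ms z T := (meas_gw (μ := μ) (s := s) δ B a _ _ _ _ _).const_mul _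

theorem gwL_tF {P : Finset (Finset ℕ)} {δ B t : ℝ} {b j : ℕ} {a : ℤ} {c1 : ℕ} (hc : c1 ≤ j - b) (η : Env) (S : Px P) :
    tF c1 (gwL μ s δ B b j a t) η S = (t - a) * gj μ s η δ B b j a S := by
  unfold tF gwL gj ps
  rw [← pos_split hc S.1, ← pos_split (by omega : c1 ≤ j + b) S.1]

theorem wt_tF {P : Finset (Finset ℕ)} {δ B t : ℝ} {b j : ℕ} {a : ℤ} {c1 : ℕ} (hc : c1 ≤ j - b) (η : Env) :
    wt μ s η N P δ B b j a t = fun S => lw μ s η N P S + tF c1 (gwL μ s δ B b j a t) η S := by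
  funext S
  rw [gwL_tF hc]
  unfold wt
  rw [Pi.add_apply, Pi.smul_apply, smul_eq_mul]

/-! ### Real integrals, the signs, the window -/

variable [IsProbabilityMeasure μ]

/-- **E0, FINAL FORM, MIRROR IMAGE, real integrals.** -/
theorem e0_finLR {c₀ C₀ : ℝ} {n₀ : ℕ} (h : In μ s c₀ C₀ n₀)
    (hQI : ∀ p : ℝ, 1 < p → ∃ C θ0 : ℝ, 0 ≤ C ∧ 0 < θ0 ∧ QI μ p C θ0) {κ : ℝ} (hκ : 0 < κ) (hκ1 : κ ≤ 1) (k : ℕ) {ε K' : ℝ}
    (hε : 0 < ε) (hK' : 0 ≤ K') : ∃ δ' ε₁ : ℝ, 0 < δ' ∧ 0 < ε₁ ∧ ∃ N₀ : ℕ, ∀ N : ℕ, N₀ ≤ N →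
      ∀ P : Finset (Finset ℕ), Pok μ s N δ' P → ∀ c K : ℕ, (N : ℝ) ^ κ ≤ ((N - (c + K) : ℕ) : ℝ) → (N : ℝ) ^ κ ≤ K →
      c + K ≤ N → ∀ M : ℝ, 0 ≤ M → M ≤ (N : ℝ) ^ ε₁ → E0L μ s k N P c K M ε K' := by
  obtain ⟨δ', ε₁, hδ', hε₁, N₀, key⟩ := e0_finL h hQI hκ hκ1 k hε hK'
  refine ⟨δ', ε₁, hδ', hε₁, N₀, fun N hN P hP c K hc hK hcK M hM0 hM U hU G hG Ψ Ψ' h0 hΛ h0' hΛ' hm hm' hΨ hpas => ?_⟩
  have := hP.ne
  have h1 := key N hN P hP c K hc hK hcK M hM0 hM U hU G hG Ψ Ψ' h0 hΛ h0' hΛ' hm' hΨ hpas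
  refine real7 (fun η => rep_nonneg7 _ (h0 η)) (fun η => rep_nonneg7 _ (h0' η)) ?_ ?_ (fun η => rep_le_const7 _ (hΛ' η))
    (Real.rpow_nonneg (Nat.cast_nonneg _) _) (Real.rpow_nonneg (Nat.cast_nonneg _) _) (Real.rpow_nonneg (Nat.cast_nonneg _) _) h1
  · exact meas_rep (fun S => (meas_lw S).add (hU.ms _ _)) hm
  · exact meas_rep (fun S => meas_lw S) hm'

/-- **E0, mirror image, over `Pm`**: the tilt, the functional and the passenger may depend on the signs. -/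
theorem e0_PmL {P : Finset (Finset ℕ)} {k : ℕ} {c K : ℕ} {M ε K' : ℝ} [Nonempty (Px P)] (h : E0L μ s k N P c K M ε K')
    {U : Finset ℕ → Env → ℤ → Finset ℕ → ℝ} (hU : ∀ A, FA (c + K) M (U A)) {G : Set Env} (hG : MeasurableSet G)
    {Ψ Ψ' : Env × Finset ℕ → (Fin k → Px P) → ℝ} (h0 : ∀ ω x, 0 ≤ Ψ ω x) (hΛ : ∀ ω x, Ψ ω x ≤ (N : ℝ) ^ K')
    (h0' : ∀ ω x, 0 ≤ Ψ' ω x) (hΛ' : ∀ ω x, Ψ' ω x ≤ (N : ℝ) ^ K') (hm : ∀ x A, Measurable fun η => Ψ (η, A) x)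
    (hm' : ∀ x A, Measurable fun η => Ψ' (η, A) x)
    (hΨ : ∀ ω, ∀ x x' : Fin k → Px P, (∀ i, (x i).1 ∩ range c = (x' i).1 ∩ range c) → Ψ ω x = Ψ ω x')
    (hpas : ∀ A, ∀ η ∈ G, ∀ ζ : Env, (∀ q, q ∉ slb c K → ζ q = η q) → (∀ q, |ζ q - η q| ≤ 2 * M / K) →
      ∀ x, Ψ (η, A) x ≤ Ψ' (ζ, A) x) :
    ∫ ω, rep k (fun S => lw μ s ω.1 N P S + tF (c + K) (U ω.2) ω.1 S) (Ψ ω) ∂(Pm μ N) ≤
      (N : ℝ) ^ ε * (∫ ω, rep k (lw μ s ω.1 N P) (Ψ' ω) ∂(Pm μ N) + (N : ℝ) ^ (-K')) + (N : ℝ) ^ K' * (law μ Gᶜ).toReal := by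
  have m1 : ∀ A, Measurable fun η => rep k (fun S => lw μ s η N P S + tF (c + K) (U A) η S) (Ψ (η, A)) := fun A =>
    meas_rep (fun S => (meas_lw S).add ((hU A).ms _ _)) fun x => hm x A
  have m2 : ∀ A, Measurable fun η => rep k (lw μ s η N P) (Ψ' (η, A)) := fun A =>
    meas_rep (fun S => meas_lw S) fun x => hm' x A
  have i1 : ∀ A, Integrable (fun η => rep k (fun S => lw μ s η N P S + tF (c + K) (U A) η S) (Ψ (η, A))) (law μ) := fun A =>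
    Integrable.of_bound (m1 A).aestronglyMeasurable ((N : ℝ) ^ K') (Eventually.of_forall fun η => by
      rw [Real.norm_eq_abs, abs_of_nonneg (rep_nonneg7 _ (h0 (η, A)))]
      exact rep_le_const7 _ (hΛ (η, A)))
  have i2 : ∀ A, Integrable (fun η => rep k (lw μ s η N P) (Ψ' (η, A))) (law μ) := fun A =>
    Integrable.of_bound (m2 A).aestronglyMeasurable ((N : ℝ) ^ K') (Eventually.of_forall fun η => by
      rw [Real.norm_eq_abs, abs_of_nonneg (rep_nonneg7 _ (h0' (η, A)))]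
      exact rep_le_const7 _ (hΛ' (η, A)))
  rw [int_Pm (Φ := fun ω : Env × Finset ℕ => rep k (fun S => lw μ s ω.1 N P S + tF (c + K) (U ω.2) ω.1 S) (Ψ ω))
      (fun A _ => i1 A) (fun A => m1 A),
    int_Pm (Φ := fun ω : Env × Finset ℕ => rep k (lw μ s ω.1 N P) (Ψ' ω)) (fun A _ => i2 A) (fun A => m2 A)]
  have hcard : ((2 : ℝ) ^ N)⁻¹ * ∑ _A ∈ (range N).powerset, (1 : ℝ) = 1 := by
    rw [sum_const, card_powerset, card_range, nsmul_eq_mul, mul_one]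
    push_cast
    field_simp
  have hA : ∀ A ∈ (range N).powerset, ∫ η, rep k (fun S => lw μ s η N P S + tF (c + K) (U A) η S) (Ψ (η, A)) ∂(law μ) ≤
      (N : ℝ) ^ ε * (∫ η, rep k (lw μ s η N P) (Ψ' (η, A)) ∂(law μ) + (N : ℝ) ^ (-K')) + (N : ℝ) ^ K' * (law μ Gᶜ).toReal :=
    fun A _ => h (U A) (hU A) G hG (fun η => Ψ (η, A)) (fun η => Ψ' (η, A)) (fun η => h0 (η, A)) (fun η => hΛ (η, A))
      (fun η => h0' (η, A)) (fun η => hΛ' (η, A)) (fun x => hm x A) (fun x => hm' x A) (fun η => hΨ (η, A)) (hpas A)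
  have h1 := mul_le_mul_of_nonneg_left (sum_le_sum hA) (by positivity : (0 : ℝ) ≤ ((2 : ℝ) ^ N)⁻¹)
  refine h1.trans (le_of_eq ?_)
  rw [sum_add_distrib, ← mul_sum, sum_add_distrib, mul_add]
  have e : ∀ x : ℝ, ((2 : ℝ) ^ N)⁻¹ * ∑ _A ∈ (range N).powerset, x = x := fun x => by
    have e1 : ∑ _A ∈ (range N).powerset, x = (∑ _A ∈ (range N).powerset, (1 : ℝ)) * x := by
      rw [sum_mul]
      simp only [one_mul]
    rw [e1, ← mul_assoc, hcard, one_mul]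
  rw [e]
  congr 1
  rw [mul_left_comm, mul_add, e]

/-- **E0, mirror image, for the measure `wt` of the window of the row `j`** (behind the slab), every `t ∈ [-1, 1]`, over the environment
and the signs. -/
theorem e0_wtL {P : Finset (Finset ℕ)} {k : ℕ} {c K : ℕ} {B ε K' : ℝ} [Nonempty (Px P)] (h : E0L μ s k N P c K B ε K')
    (hB : 0 ≤ B) {δ t : ℝ} (ht : |t| ≤ 1) {b j : ℕ} (hc : c + K ≤ j - b) {G : Set Env} (hG : MeasurableSet G)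
    {Ψ Ψ' : Env × Finset ℕ → (Fin k → Px P) → ℝ} (h0 : ∀ ω x, 0 ≤ Ψ ω x) (hΛ : ∀ ω x, Ψ ω x ≤ (N : ℝ) ^ K')
    (h0' : ∀ ω x, 0 ≤ Ψ' ω x) (hΛ' : ∀ ω x, Ψ' ω x ≤ (N : ℝ) ^ K') (hm : ∀ x A, Measurable fun η => Ψ (η, A) x)
    (hm' : ∀ x A, Measurable fun η => Ψ' (η, A) x)
    (hΨ : ∀ ω, ∀ x x' : Fin k → Px P, (∀ i, (x i).1 ∩ range c = (x' i).1 ∩ range c) → Ψ ω x = Ψ ω x')
    (hpas : ∀ A, ∀ η ∈ G, ∀ ζ : Env, (∀ q, q ∉ slb c K → ζ q = η q) → (∀ q, |ζ q - η q| ≤ 2 * B / K) →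
      ∀ x, Ψ (η, A) x ≤ Ψ' (ζ, A) x) :
    ∫ ω, rep k (wt μ s ω.1 N P δ B b j (sg ω.2 j) t) (Ψ ω) ∂(Pm μ N) ≤
      (N : ℝ) ^ ε * (∫ ω, rep k (wm μ s N P ω) (Ψ' ω) ∂(Pm μ N) + (N : ℝ) ^ (-K')) + (N : ℝ) ^ K' * (law μ Gᶜ).toReal := by
  have h1 := e0_PmL h (U := fun A => gwL μ s δ B b j (sg A j) t) (fun A => gwL_FA hB (abs_sg A j).le ht hc) hG h0 hΛ h0' hΛ'
    hm hm' hΨ hpas
  refine le_trans (le_of_eq ?_) h1
  refine integral_congr_ae (Eventually.of_forall fun ω => ?_)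
  simp only [wt_tF (N := N) (P := P) (t := t) (δ := δ) (B := B) (a := sg ω.2 j) hc]

end

end Pool.W7d29a1.C0.H27
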