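import Pool.Agent.W_7d29a1_C0.Loc7T
import Pool.Agent.W_7d29a1_C0.Trans27P

/-!
CURV0 (MP_7d29a1_pr), leaf E0D, THE MIRROR IMAGE, part 1. (helper27; the template is `Loc7S`, `Loc7T` of helper7)

The slab `(c, c + K]` is in front of the window, the tilt behind it (`FA (c + K)`). `cE_FS`: conditional means given `pA t` of functions of
what the path does behind the row `c + K`. `fP_sum_ge`, `domL`: the exact backward field gives a path whose level is seen at every row
of the slab at least the weight of the tilt up to `exp (δ + (2 + log V) / q)`. `NLm`: the condition; `TyL`: the typical paths; `levelL`.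
`e0_modDL`: the mirror image of `e0_modD`.
-/

set_option autoImplicit false

namespace Pool.W7d29a1.C0.H27

open Finset MeasureTheory Filter Topology Pool.Agent.W_7d29a1_F Pool.Agent.W_7d29a1_X Pool.Agent.W_7d29a1_C0.Mod92
  Pool.Agent.W_7d29a1_C0.H32 Pool.W7d29a1.C0.H7
open Pool.W7d29a1.C0 (gz gm gz_pos)
open Pool.W7d29a1.C0.VT31 (cE fz fz_pos)
open scoped ENNReal

noncomputable section

variable {μ : Measure ℝ} {s : ℝ} {N : ℕ} {P : Finset (Finset ℕ)}

/-! ### The paths through a site -/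

theorem ind_mid {c K t k : ℕ} (ht : t + k = c + K) (hc : c < t) (S : Finset ℕ) : ind t k (slb c K) S = 1 := by
  unfold ind
  refine if_pos fun i hi => ?_
  have h1 := pos_nonneg S (t + i + 1)
  have h2 := pos_le S (t + i + 1)
  rw [mem_slb]
  simp only
  push_cast at h2 ⊢
  omega

theorem sum_FS (η : Env) {t k : ℕ} (hN : t + k ≤ N) (Q : Finset Pt) (F : Finset ℕ → ℝ) (E : ℤ → Finset ℕ → ℝ) :
    ∑ S ∈ (range N).powerset, pth μ s η N S * F (S ∩ range t) * (ind t k Q S * E (pos S (t + k)) (S \ range (t + k))) =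
      ∑ z ∈ Icc (0 : ℤ) t, Mt μ s η t F z * FS μ s η N (t + k) Q E t k z := by
  have e1 := sum_split (μ := μ) (s := s) η (by omega : t ≤ N) F fun z T => inF t k Q z T *
    E (z + (((T ∩ range (t + k)).card : ℕ) : ℤ)) (T \ range (t + k))
  have e2 : ∀ S : Finset ℕ, ind t k Q S * E (pos S (t + k)) (S \ range (t + k)) =
      inF t k Q (pos S t) (S \ range t) * E (pos S t + ((((S \ range t) ∩ range (t + k)).card : ℕ) : ℤ))
        ((S \ range t) \ range (t + k)) := fun S => by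
    have e3 : (S \ range t) \ range (t + k) = S \ range (t + k) := by
      ext i
      simp only [Finset.mem_sdiff, mem_range]
      constructor
      · rintro ⟨⟨h1, _⟩, h2⟩
        exact ⟨h1, h2⟩
      · rintro ⟨h1, h2⟩
        exact ⟨⟨h1, by omega⟩, h2⟩
    rw [ind_eq_inF, ← pos_split (by omega : t ≤ t + k) S, e3]
  simp only [e2]
  rw [e1, sum_comm]
  refine sum_congr rfl fun z _ => ?_
  unfold FS
  rw [mul_sum]
  refine sum_congr rfl fun T _ => ?_
  ring

open Classical in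
/-- **Conditional means given the past up to the row `t` of functions of the future behind the row `c + K`.** -/
theorem cE_FS {c K t k : ℕ} (ht : t + k = c + K) (hc : c < t) (hN : c + K ≤ N) (hP : Fam N (c + K) P) (η : Env)
    (E : ℤ → Finset ℕ → ℝ) (S : Px P) :
    cE (lw μ s η N P) (pA t) (fun S' => E (ps S' (c + K)) (S'.1 \ range (c + K))) S =
      FS μ s η N (c + K) (slb c K) (fun x T => E x T * bF (c + K) P x T) t k (pos S.1 t) /
        FS μ s η N (c + K) (slb c K) (bF (c + K) P) t k (pos S.1 t) := by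
  have : Nonempty (Px P) := ⟨S⟩
  set z0 := pos S.1 t with hz0
  set A0 := S.1 ∩ range t with hA0
  set κ : ℝ := Mt μ s η t (fun T => if T = A0 then 1 else 0) z0 with hκ
  have key : ∀ E : ℤ → Finset ℕ → ℝ, (∑ S' : Px P, if pA t S' = pA t S then
      Real.exp (lw μ s η N P S') * E (ps S' (c + K)) (S'.1 \ range (c + K)) else 0) =
        κ * FS μ s η N (c + K) (slb c K) (fun x T => E x T * bF (c + K) P x T) t k z0 := fun E => by
    have e1 : (∑ S' : Px P, if pA t S' = pA t S then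
        Real.exp (lw μ s η N P S') * E (ps S' (c + K)) (S'.1 \ range (c + K)) else 0) =
        ∑ S' : Px P, (fun T => pth μ s η N T * (if T ∩ range t = A0 then 1 else 0) *
          E (pos T (c + K)) (T \ range (c + K))) S'.1 := by
      refine sum_congr rfl fun S' _ => ?_
      simp only
      rw [exp_lw]
      unfold pA
      by_cases h : S'.1 ∩ range t = S.1 ∩ range t
      · rw [if_pos h, if_pos h, mul_one]
        rfl
      · rw [if_neg h, if_neg h, mul_zero, zero_mul]
    rw [e1]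
    refine (sum_bF hP fun T => pth μ s η N T * (if T ∩ range t = A0 then 1 else 0) *
      E (pos T (c + K)) (T \ range (c + K))).trans ?_
    have e2 := sum_FS (μ := μ) (s := s) η (t := t) (k := k) (by omega : t + k ≤ N) (slb c K)
      (fun T => if T = A0 then 1 else 0) (fun x T => E x T * bF (c + K) P x T)
    rw [ht] at e2
    refine Eq.trans (sum_congr rfl fun S' _ => ?_) (e2.trans ?_)
    · rw [ind_mid ht hc, one_mul]
      ring
    · rw [sum_eq_single_of_mem z0 (mem_Icc.2 ⟨pos_nonneg _ _, pos_le _ _⟩)]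
      intro z _ hz
      have h0 : Mt μ s η t (fun T => if T = A0 then 1 else 0) z = 0 := by
        unfold Mt
        refine sum_eq_zero fun T _ => ?_
        by_cases h : pos T t = z
        · have hT : T ≠ A0 := by
            intro hT
            apply hz
            rw [← h, hT, hA0, pos_inter _ le_rfl]
          simp only
          rw [if_pos h, if_neg hT, mul_zero]
        · rw [if_neg h]
      rw [h0, zero_mul]
  have h1 := key E
  have h2 := key fun _ _ => 1
  simp only [one_mul, mul_one] at h2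
  have h3 : fz (lw μ s η N P) (pA t) S = κ * FS μ s η N (c + K) (slb c K) (bF (c + K) P) t k z0 := by
    rw [← h2]
    rfl
  have h4 := fz_pos (lw μ s η N P) (pA t) S
  have hκ0 : κ ≠ 0 := fun h => by
    rw [h3, h, zero_mul] at h4
    exact lt_irrefl _ h4
  unfold cE
  rw [h1, h3, mul_div_mul_left _ _ hκ0]

/-- The mass of the futures of the site of a path of the family is positive. -/
theorem FS_path_pos {c K t k : ℕ} (ht : t + k = c + K) (hc : c < t) (hN : c + K ≤ N) (hP : Fam N (c + K) P) (η : Env)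
    (S : Px P) : 0 < FS μ s η N (c + K) (slb c K) (bF (c + K) P) t k (pos S.1 t) := by
  have h1 := cE_FS (μ := μ) (s := s) ht hc hN hP η (fun _ _ => 1) S
  have : Nonempty (Px P) := ⟨S⟩
  have h2 : cE (lw μ s η N P) (pA t) (fun _ => 1) S = 1 := by
    unfold cE fz
    simp only [mul_one]
    exact div_self (fz_pos (lw μ s η N P) (pA t) S).ne'
  rw [h2] at h1
  refine lt_of_le_of_ne (FS_nonneg _ (bF_nonneg _ _) _ _ _) fun h => ?_
  rw [← h, div_zero] at h1
  exact one_ne_zero h1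

/-! ### The field along a path -/

section Path

variable {c K : ℕ} {D : ℝ} {A : Env → ℤ → Finset ℕ → ℝ}

theorem FS_wt (η : Env) (c1 : ℕ) (Q : Finset Pt) (b0 E : ℤ → Finset ℕ → ℝ) (t k : ℕ) (z : ℤ) :
    FS μ s η N c1 Q (fun x T => E x T * b0 x T) t k z =
      ∑ T ∈ (Ico t N).powerset, fut μ s η t N z T * (inF t k Q z T * b0 (z + (((T ∩ range c1).card : ℕ) : ℤ)) (T \ range c1)) *
        E (z + (((T ∩ range c1).card : ℕ) : ℤ)) (T \ range c1) := by
  unfold FS
  refine sum_congr rfl fun T _ => ?_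
  ring

/-- **The backward field of the schedule along a path**, `z k` = the position at the row `c + K - k`. -/
theorem fP_sum_ge {η : Env} (hN : c + K ≤ N) (h : FA (c + K) D A) {l V q : ℝ} (hK0 : 0 < K) (hV1 : 1 ≤ V) (hVK : V ≤ K)
    (hl : |l| + D ≤ V) (hq : 0 < q) {z : ℕ → ℤ} (hzr : ∀ k < K, 0 ≤ z k ∧ z k ≤ ((c + K - k : ℕ) : ℤ))
    (hz : ∀ k < K, 0 < FS μ s η N (c + K) (slb c K) (bF (c + K) P) (c + K - k) k (z k))
    (hcl : ∀ k < K, q * FS μ s η N (c + K) (slb c K) (bF (c + K) P) (c + K - k) k (z k) ≤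
      FS μ s η N (c + K) (slb c K) (fun x T => (if l ≤ A η x T then 1 else 0) * bF (c + K) P x T) (c + K - k) k (z k)) :
    l - (2 + Real.log V) / q ≤ ∑ k ∈ range K, fP μ s N c K P (slb c K) A (((c + K - k : ℕ) : ℤ), z k) η := by
  have hKr : (0 : ℝ) < K := by exact_mod_cast hK0
  have h1 : ∀ k ∈ range K, 1 / (K : ℝ) * (l - bt7 V ((k : ℝ) / K) / q) ≤
      fP μ s N c K P (slb c K) A (((c + K - k : ℕ) : ℤ), z k) η := fun k hk => by
    have hkK : k < K := mem_range.1 hk
    obtain ⟨hz0, hz1⟩ := hzr k hkK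
    have hzQ : (((c + K - k : ℕ) : ℤ), z k) ∈ slb c K := by
      rw [mem_slb]
      simp only
      omega
    unfold fP
    rw [fH_eq (μ := μ) (s := s) (K := K) (A := A) (b0 := bF (c + K) P) hN (by omega : c + K - k + k = c + K) hzQ η]
    have e2 : sch 0 1 K (k + 1) = (k : ℝ) / K + 1 / K := by
      unfold sch
      push_cast
      ring
    have e3 : sch 0 1 K k = (k : ℝ) / K := by
      unfold sch
      ring
    rw [e2, e3]
    rw [FS_wt (E := fun x T => Real.exp (((k : ℝ) / K + 1 / K) * A η x T)),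
      FS_wt (E := fun x T => Real.exp ((k : ℝ) / K * A η x T))]
    refine log_ratio7 _ _ (fun T => A η (z k + (((T ∩ range (c + K)).card : ℕ) : ℤ)) (T \ range (c + K))) (fun T _ => ?_)
      (fun T _ => ?_) (by linarith) hq ?_ ?_ (by positivity) (by positivity)
    · exact mul_nonneg (fut_nonneg _ _ _ _ _) (mul_nonneg (inF_nonneg _ _ _ _ _) (bF_nonneg _ _ _ _))
    · have h2 := neg_le_of_abs_le (h.bd η (z k + (((T ∩ range (c + K)).card : ℕ) : ℤ)) (T \ range (c + K)))
      have h3 := le_abs_self l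
      linarith
    · have h4 := hz k hkK
      unfold FS at h4
      exact h4
    · have h4 := hcl k hkK
      rw [FS_wt (E := fun x T => if l ≤ A η x T then 1 else 0)] at h4
      unfold FS at h4
      exact h4
  refine le_trans ?_ (sum_le_sum h1)
  have h2 := sum_bt7 (K := K) hV1 hVK
  have e4 : ∑ k ∈ range K, 1 / (K : ℝ) * (l - bt7 V ((k : ℝ) / K) / q) =
      l - (∑ k ∈ range K, 1 / (K : ℝ) * bt7 V ((k : ℝ) / K)) / q := by
    have e5 : ∀ k ∈ range K, 1 / (K : ℝ) * (l - bt7 V ((k : ℝ) / K) / q) =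
        1 / (K : ℝ) * l - 1 / (K : ℝ) * bt7 V ((k : ℝ) / K) / q := fun k _ => by ring
    rw [sum_congr rfl e5, sum_sub_distrib, sum_const, card_range, nsmul_eq_mul, sum_div]
    congr 1
    field_simp
  rw [e4]
  have := div_le_div_of_nonneg_right h2 hq.le
  linarith

/-- The log weight in the environment shifted on the slab, rows in the backward order. -/
theorem lw_Sh7L (hN : c + K ≤ N) (f : Pt → Env → ℝ) (η : Env) (S : Px P) :
    lw μ s (Sh (slb c K) f η) N P S =
      lw μ s η N P S + ∑ k ∈ range K, f (((c + K - k : ℕ) : ℤ), pos S.1 (c + K - k)) η := by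
  rw [lw_Sh7 hN]
  congr 1
  rw [← sum_range_reflect]
  refine sum_congr rfl fun k hk => ?_
  rw [mem_range] at hk
  rw [show c + (K - 1 - k) + 1 = c + K - k by omega]

/-- **Domination of one path.** -/
theorem domL (hN : c + K ≤ N) (hP : Fam N (c + K) P) {η : Env} (h : FA (c + K) D A) {δ V q : ℝ} (hK0 : 0 < K) (hV1 : 1 ≤ V)
    (hVK : V ≤ K) (hδ : 0 ≤ δ) (hl : 2 * D + δ ≤ V) (hq : 0 < q) (S : Px P)
    (hcl : ∀ k < K, q * FS μ s η N (c + K) (slb c K) (bF (c + K) P) (c + K - k) k (pos S.1 (c + K - k)) ≤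
      FS μ s η N (c + K) (slb c K) (fun x T => (if tF (c + K) A η S - δ ≤ A η x T then 1 else 0) * bF (c + K) P x T)
        (c + K - k) k (pos S.1 (c + K - k))) :
    Real.exp (lw μ s η N P S + tF (c + K) A η S) ≤ Real.exp (δ + (2 + Real.log V) / q) *
      Real.exp (lw μ s (Sh (slb c K) (fP μ s N c K P (slb c K) A) η) N P S) := by
  rw [← Real.exp_add]
  refine Real.exp_le_exp.2 ?_
  rw [lw_Sh7L hN]
  have h1 := fP_sum_ge (μ := μ) (s := s) (η := η) (P := P) hN h (l := tF (c + K) A η S - δ) (V := V) (q := q) hK0 hV1 hVK (by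
    have h2 := h.bd η (ps S (c + K)) (S.1 \ range (c + K))
    have h3 : |tF (c + K) A η S - δ| ≤ D + δ := (abs_sub _ _).trans (add_le_add h2 (le_of_eq (abs_of_nonneg hδ)))
    linarith) hq (z := fun k => pos S.1 (c + K - k)) (fun k _ => ⟨pos_nonneg _ _, pos_le _ _⟩)
    (fun k hk => FS_path_pos (by omega) (by omega) hN hP η S) hcl
  linarith

end Path

/-! ### The paths whose level is seen at every row -/

open Classical in
/-- The level `u S - δ` has the conditional mass at least `1 / 4` given the path up to the row `m`, for all `m` in the slab. -/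
def NLm (w u : Px P → ℝ) (δ : ℝ) (c K : ℕ) (S : Px P) : Prop :=
  ∀ m, c < m → m ≤ c + K → 1 / 4 ≤ cE w (pA m) (fun S' => if u S - δ ≤ u S' then 1 else 0) S

/-- The typical paths of the slab step. -/
def TyL (N c K : ℕ) (σ R : ℝ) (Cn : Finset Pt) (S : Px P) : Prop :=
  ¬ Out7 c K Cn S.1 ∧ (∀ k < K, |((ps S (c + k + 1) : ℝ) - ps S c - σ * ((k : ℝ) + 1))| ≤ R / 2) ∧
    ps S (c + K) ∈ nbL N K σ R (ps S c)

section Level

variable {c K : ℕ} {σ R M δ : ℝ} {U : Env → ℤ → Finset ℕ → ℝ}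

theorem FS_mono_in (η : Env) {c1 : ℕ} {Q : Finset Pt} {E E' : ℤ → Finset ℕ → ℝ} (t j : ℕ) (z : ℤ)
    (h : ∀ T : Finset ℕ, T ⊆ Ico t N → E (z + (((T ∩ range c1).card : ℕ) : ℤ)) (T \ range c1) ≤
      E' (z + (((T ∩ range c1).card : ℕ) : ℤ)) (T \ range c1)) :
    FS μ s η N c1 Q E t j z ≤ FS μ s η N c1 Q E' t j z :=
  sum_le_sum fun T hT => mul_le_mul_of_nonneg_left (mul_le_mul_of_nonneg_left (h T (mem_powerset.1 hT))
    (inF_nonneg _ _ _ _ _)) (fut_nonneg _ _ _ _ _)

theorem FS_add_fun (η : Env) (c1 : ℕ) (Q : Finset Pt) (E E' : ℤ → Finset ℕ → ℝ) (t j : ℕ) (z : ℤ) :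
    FS μ s η N c1 Q (fun x T => E x T + E' x T) t j z = FS μ s η N c1 Q E t j z + FS μ s η N c1 Q E' t j z := by
  unfold FS
  rw [← sum_add_distrib]
  refine sum_congr rfl fun T _ => ?_
  ring

open Classical in
/-- The level of the local tilt is seen at every site of a typical path. -/
theorem levelL {k : ℕ} {η : Env} (hP : Fam N (c + K) P) (hN : c + K ≤ N) {Cn : Finset Pt} {δ0 : ℝ} (hδ0 : δ0 ≤ 1 / 8)
    (hg1 : ∀ t j : ℕ, t + j = c + K → c < t → ∀ z : ℤ, ((t : ℤ), z) ∈ Cn →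
      FarL μ s η N c K P σ (R / 2) t j z ≤ δ0 * FS μ s η N (c + K) (slb c K) (bF (c + K) P) t j z)
    {S : Px P} (hT : TyL N c K σ R Cn S)
    (hNL : NLm (lw μ s η N P) (tF (c + K) U η) δ c K S) {b : Fin k → ℤ} (hb : ps S c ∈ H43.bx b) :
    ∀ j < K, 1 / 8 * FS μ s η N (c + K) (slb c K) (bF (c + K) P) (c + K - j) j (pos S.1 (c + K - j)) ≤
      FS μ s η N (c + K) (slb c K) (fun x T => (if tF (c + K) (AbL U M ((H43.bx b).biUnion (nbL N K σ R))) η S - δ ≤
        AbL U M ((H43.bx b).biUnion (nbL N K σ R)) η x T then 1 else 0) * bF (c + K) P x T)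
          (c + K - j) j (pos S.1 (c + K - j)) := by
  intro j hj
  set t := c + K - j with ht
  have htj : t + j = c + K := by omega
  have hct : c < t := by omega
  set z := pos S.1 t with hz
  set Bb := (H43.bx b).biUnion (nbL N K σ R) with hBb
  have hM1 : 0 < FS μ s η N (c + K) (slb c K) (bF (c + K) P) t j z := FS_path_pos htj hct hN hP η S
  have hcB : ps S (c + K) ∈ Bb := mem_biUnion.2 ⟨_, hb, hT.2.2⟩
  have e0 : tF (c + K) (AbL U M Bb) η S = tF (c + K) U η S + M := by rw [tF_AbL, if_pos hcB]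
  -- the level of `U`
  have h1 := hNL t hct (by omega)
  set G : ℤ → Finset ℕ → ℝ := fun x T => if tF (c + K) U η S - δ ≤ U η x T then 1 else 0 with hG
  have e1 : (fun S' : Px P => if tF (c + K) U η S - δ ≤ tF (c + K) U η S' then (1 : ℝ) else 0) =
      fun S' => G (ps S' (c + K)) (S'.1 \ range (c + K)) := rfl
  rw [e1, cE_FS htj hct hN hP η G S, le_div_iff₀ hM1] at h1
  -- the far futures
  have hmem : ((t : ℤ), z) ∈ Cn := by
    by_contra hc
    refine hT.1 ⟨t - 1, by omega, by omega, ?_⟩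
    have e : (((t - 1 : ℕ) : ℤ) + 1) = (t : ℤ) := by omega
    have e' : t - 1 + 1 = t := by omega
    rw [e, e']
    exact hc
  have h2 := (hg1 t j htj hct z hmem).trans (mul_le_mul_of_nonneg_right hδ0 hM1.le)
  -- the position at the row `t`
  have h5 := hT.2.1 (t - c - 1) (by omega)
  have e5 : c + (t - c - 1) + 1 = t := by omega
  have e6 : (((t - c - 1 : ℕ) : ℕ) : ℝ) + 1 = (t : ℝ) - c := by
    have : ((t - c - 1 : ℕ) : ℝ) = (t : ℝ) - c - 1 := by
      rw [Nat.cast_sub (by omega), Nat.cast_sub (by omega)]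
      push_cast
      ring
    rw [this]
    ring
  rw [e5, e6] at h5
  have e7 : (t : ℝ) + j = c + K := by exact_mod_cast htj
  -- comparison of the indicators
  have h3 : FS μ s η N (c + K) (slb c K) (fun x T => G x T * bF (c + K) P x T) t j z ≤
      FS μ s η N (c + K) (slb c K) (fun x T => (if tF (c + K) (AbL U M Bb) η S - δ ≤ AbL U M Bb η x T then 1 else 0) *
        bF (c + K) P x T) t j z + FarL μ s η N c K P σ (R / 2) t j z := by
    unfold FarL
    rw [← FS_add_fun]
    refine FS_mono_in η t j z fun T hTT => ?_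
    set x : ℤ := z + (((T ∩ range (c + K)).card : ℕ) : ℤ) with hx
    have hx0 : 0 ≤ x := by
      have := pos_nonneg S.1 t
      omega
    have hxN : x ≤ N := by
      have q1 : (T ∩ range (c + K)).card ≤ j := by
        have q2 : T ∩ range (c + K) ⊆ Ico t (c + K) := fun i hi => by
          have q3 := mem_inter.1 hi
          have q4 := (mem_Ico.1 (hTT q3.1)).1
          have q5 := mem_range.1 q3.2
          exact mem_Ico.2 ⟨q4, q5⟩
        have := card_le_card q2
        rw [Nat.card_Ico] at this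
        omega
      have q6 := pos_le S.1 t
      omega
    rw [← add_mul]
    refine mul_le_mul_of_nonneg_right ?_ (bF_nonneg _ _ _ _)
    rw [hG]
    simp only
    by_cases hl : tF (c + K) U η S - δ ≤ U η x (T \ range (c + K))
    · rw [if_pos hl]
      by_cases hf : |((x : ℝ) - z - σ * j)| ≤ R / 2
      · have h4 : x ∈ Bb := by
          refine mem_biUnion.2 ⟨_, hb, ?_⟩
          unfold nbL
          rw [mem_filter, mem_Icc]
          refine ⟨⟨hx0, hxN⟩, ?_⟩
          have e : ((x : ℝ) - (ps S c : ℝ) - σ * K) =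
              ((ps S t : ℝ) - ps S c - σ * ((t : ℝ) - c)) + ((x : ℝ) - (z : ℝ) - σ * j) := by
            have e8 : (K : ℝ) = ((t : ℝ) - c) + j := by linarith
            rw [e8, hz]
            unfold ps
            ring
          rw [e]
          exact (abs_add_le _ _).trans (by linarith)
        have h6 : AbL U M Bb η x (T \ range (c + K)) = U η x (T \ range (c + K)) + M := by
          unfold AbL
          rw [if_pos h4]
        rw [if_pos (by rw [e0, h6]; linarith), if_pos hf, add_zero]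
      · rw [if_neg hf]
        have : (0 : ℝ) ≤ if tF (c + K) (AbL U M Bb) η S - δ ≤ AbL U M Bb η x (T \ range (c + K)) then 1 else 0 := by
          split_ifs <;> norm_num
        linarith
    · rw [if_neg hl]
      have : (0 : ℝ) ≤ if tF (c + K) (AbL U M Bb) η S - δ ≤ AbL U M Bb η x (T \ range (c + K)) then 1 else 0 := by
        split_ifs <;> norm_num
      have h7 : (0 : ℝ) ≤ if |((x : ℝ) - z - σ * j)| ≤ R / 2 then 0 else 1 := by
        split_ifs <;> norm_num
      linarith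
  linarith

/-! ### The frame -/

open Classical in
/-- **E0D, THE MIRROR IMAGE, the localisation as a hypothesis.** `F` = the replicas which are seen in full. -/
theorem e0_modDL [IsProbabilityMeasure μ] [Nonempty (Px P)] (hP : Fam N (c + K) P) (hK0 : 0 < K) (hN : c + K ≤ N)
    (hM : 0 ≤ M) (hU : FA (c + K) M U) (hR : 0 ≤ R) {p C θ0 : ℝ} (hp : 1 ≤ p) (hC : 0 ≤ C) (hQ : QI μ p C θ0)
    (hθ : 2 * M / K ≤ θ0) {Cn : Finset Pt} (hCn : Cn ⊆ slb c K) {δ0 ε : ℝ} (hδ0 : 0 ≤ δ0) (hδ0' : δ0 ≤ 1 / 8) (hε0 : 0 ≤ ε)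
    (hε1 : ε < 1) (hδ : 0 ≤ δ) (hVK : 4 * M + δ + 1 ≤ K) {Ω : Set Env} (hΩ : MeasurableSet Ω)
    (hg1 : ∀ η ∈ Ω, ∀ t j : ℕ, t + j = c + K → c < t → ∀ z : ℤ, ((t : ℤ), z) ∈ Cn →
      FarL μ s η N c K P σ (R / 2) t j z ≤ δ0 * FS μ s η N (c + K) (slb c K) (bF (c + K) P) t j z)
    (hg2 : ∀ η ∈ Ω, gm (lw μ s η N P) (fun S => if TyL N c K σ R Cn S then 0 else 1) ≤ ε)
    {k : ℕ} (F : Fin k → Prop) {Λ : ℝ} {Ψ Ψ' : Env → (Fin k → Px P) → ℝ} (h0 : ∀ η x, 0 ≤ Ψ η x) (hΛ : ∀ η x, Ψ η x ≤ Λ)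
    (h0' : ∀ η x, 0 ≤ Ψ' η x) (hΛ' : ∀ η x, Ψ' η x ≤ Λ) (hm : ∀ x, Measurable fun η => Ψ' η x)
    (hΨ : ∀ η, ∀ x x' : Fin k → Px P, (∀ i, F i → x i = x' i) → (∀ i, pA c (x i) = pA c (x' i)) → Ψ η x = Ψ η x')
    (hNL : ∀ η ∈ Ω, ∀ x, Ψ η x ≠ 0 → ∀ i, F i → NLm (lw μ s η N P) (tF (c + K) U η) δ c K (x i))
    (hpas : ∀ η ∈ Ω, ∀ ζ : Env, (∀ q, q ∉ slb c K → ζ q = η q) → (∀ q, |ζ q - η q| ≤ 2 * M / K) → ∀ x, Ψ η x ≤ Ψ' ζ x) :
    ∫⁻ η, ENNReal.ofReal (rep k (fun S => lw μ s η N P S + tF (c + K) U η S) fun x => (Cd7 M δ ^ k)⁻¹ * Ψ η x) ∂(law μ) ≤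
      ENNReal.ofReal (Real.exp (C * (k * K * (4 * R + 1) * (2 * M / K) ^ 2 + (slb c K).card * (Real.exp (4 * M) * δ0) ^ 2))) *
        ((((N + 1 : ℕ) : ℝ≥0∞) ^ k) ^ (1 - 1 / p) *
          (∫⁻ η, ENNReal.ofReal (rep k (lw μ s η N P) (Ψ' η)) ^ p ∂(law μ)) ^ (1 / p)) +
      ENNReal.ofReal ((N + 1 : ℝ) ^ k * (5 * k * Real.exp (4 * M) * ε * Λ) +
        (Cd7 M δ ^ k)⁻¹ * Λ * k * (Real.exp (2 * M) * ε)) +
      ENNReal.ofReal ((Cd7 M δ ^ k)⁻¹ * Λ) * law μ Ωᶜ := by
  have h2M : 0 ≤ 2 * M := by linarith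
  set Bb : (Fin k → ℤ) → Finset ℤ := fun b => (H43.bx b).biUnion (nbL N K σ R) with hBb
  set dd : ℝ := Real.exp (4 * M) * δ0 with hdd
  have hdn : 0 ≤ dd := mul_nonneg (Real.exp_pos _).le hδ0
  have hPA : ∀ b, FA (c + K) (2 * M) (AbL U M (Bb b)) := fun b => AbL_FA hM hU _
  set f0 : (Fin k → ℤ) → Pt → Env → ℝ := fun b => fP μ s N c K P (slb c K) (AbL U M (Bb b)) with hf0
  set φ : (Fin k → ℤ) → Pt → Env → ℝ := fun b => swS (f0 b) Cn (nearL c K σ R b) dd with hφ
  have hΛ0 : ∀ η : Env, 0 ≤ Λ := fun η => (h0 η fun _ => Classical.arbitrary _).trans (hΛ η _)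
  have hΛn : 0 ≤ Λ := hΛ0 fun _ => 0
  have hf0b : ∀ b, ∀ q ∈ slb c K, ∀ η, |f0 b q η| ≤ 2 * M / K := fun b q _ η => fP_bd h2M (hPA b) q η
  have hCd := one_le_Cd7 hM hδ
  have hCk : 1 ≤ Cd7 M δ ^ k := one_le_pow₀ hCd
  have hCk0 : 0 < Cd7 M δ ^ k := by linarith
  have hCi : 0 ≤ (Cd7 M δ ^ k)⁻¹ := (inv_pos.2 hCk0).le
  have hCi1 : (Cd7 M δ ^ k)⁻¹ ≤ 1 := inv_le_one_of_one_le₀ hCk
  have hg1' : ∀ η ∈ Ω, ∀ t j : ℕ, t + j = c + K → c < t → ∀ z : ℤ, ((t : ℤ), z) ∈ Cn →
      FarL μ s η N c K P σ R t j z ≤ δ0 * FS μ s η N (c + K) (slb c K) (bF (c + K) P) t j z := fun η hη t j htj hct z hz => by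
    refine le_trans ?_ (hg1 η hη t j htj hct z hz)
    unfold FarL
    refine FS_mono η (fun x T => ?_) t j z
    refine mul_le_mul_of_nonneg_right ?_ (bF_nonneg _ _ _ _)
    by_cases h1 : |((x : ℝ) - z - σ * j)| ≤ R / 2
    · rw [if_pos h1, if_pos (h1.trans (by linarith))]
    · rw [if_neg h1]
      split_ifs <;> norm_num
  refine e0_core7 (p := p) (C := C) (θ0 := θ0) (Qs := slb c K) (Ω := Ω) (ε := ε) (k := k) (M := M)
    (u := fun η S => tF (c + K) U η S) (fun η S => hU.bd η _ _)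
    (fun S => ps S (c + K)) (fun S => ps S c)
    (fun S => mem_Icc.2 ⟨ps_nonneg S _, (ps_le S _).trans (by exact_mod_cast (by omega : c ≤ N))⟩)
    (nbL N K σ R) hp hC hQ (fun q => -q.1) φ (fun b q _ => swS_meas (fP_meas (hPA b) q))
    (fun b => swS_pred (fP_pred (rws_slb c K) (hPA b)))
    (fun b q hq η => ((swS_le q η).trans (hf0b b q hq η)).trans hθ)
    (fun b η => (swS_sq (hf0b b) hdn η).trans (by
      refine add_le_add (mul_le_mul_of_nonneg_right (card_nearL c K hR b) (sq_nonneg _)) le_rfl))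
    hΩ (fun η hη => le_trans (Pool.W7d29a1.C0.gm_mono _ fun S => ?_) (hg2 η hη))
    (fun η x => mul_nonneg hCi (h0 η x)) (fun η x => mul_le_mul_of_nonneg_left (hΛ η x) hCi) h0' hm (by positivity)
    (fun η hη b => ?_)
  · by_cases h1 : ps S (c + K) ∈ nbL N K σ R (ps S c)
    · rw [if_pos h1]
      split_ifs <;> norm_num
    · rw [if_neg h1, if_neg fun h2 => h1 h2.2.2]
  have e1 : (fun S => lw μ s η N P S + (if ps S (c + K) ∈ Bb b then tF (c + K) U η S + M else 0)) =
      fun S : Px P => lw μ s η N P S + tF (c + K) (AbL U M (Bb b)) η S := by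
    funext S
    rw [tF_AbL]
  have hsm := fP_small (μ := μ) (s := s) (P := P) hM hN hU hCn hδ0 (hg1' η hη) b
  set ΨB : (Fin k → Px P) → ℝ := fun x => if (fun i => ps (x i) c) = b then Ψ η x else 0 with hΨB
  set ΨB' : (Fin k → Px P) → ℝ := fun x => if (fun i => ps (x i) c) = b then Ψ' (Sh (slb c K) (φ b) η) x else 0 with hΨB'
  have hb1 : ∀ x, 0 ≤ ΨB x ∧ |ΨB x| ≤ Λ := fun x => by
    rw [hΨB]
    simp only
    split_ifs
    · exact ⟨h0 η x, by rw [abs_of_nonneg (h0 η x)]; exact hΛ η x⟩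
    · exact ⟨le_rfl, by rw [abs_zero]; exact hΛn⟩
  have hb2 : ∀ x, |ΨB' x| ≤ Λ := fun x => by
    rw [hΨB']
    simp only
    split_ifs
    · rw [abs_of_nonneg (h0' _ x)]
      exact hΛ' _ x
    · rw [abs_zero]
      exact hΛn
  have key := rep_dom7 (w0 := lw μ s η N P) (w1 := fun S => lw μ s η N P S + tF (c + K) (AbL U M (Bb b)) η S)
    (w2 := lw μ s (Sh (slb c K) (φ b) η) N P) (w3 := lw μ s (Sh (slb c K) (f0 b) η) N P) (D := 2 * M)
    (p := pA c) (a := fun S => TyL N c K σ R Cn S) (m := k) (C := Cd7 M δ) (M := Λ) (ε := ε) (Ψ := ΨB) (Ψ' := ΨB')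
    (fun S => by
      simp only [add_sub_cancel_left]
      exact (hPA b).bd η _ _)
    (fun S => abs_lw_Sh_of (rws_slb c K) h2M η (fun q hq => (swS_le q η).trans (hf0b b q hq η)) S)
    (fun S => abs_lw_Sh_of (rws_slb c K) h2M η (fun q hq => hf0b b q hq η) S)
    (fun b' => (transL_lw_slb (μ := μ) (s := s) hP hK0 hN (hPA b) η b').symm)
    (fun S hS => lw_swS_eq (fun q hq hn => hsm q hq hn) hS.1) F hCd (fun x => (hb1 x).1)
    (fun x x' hF hx => by
      have hb : (fun i => ps (x i) c) = fun i => ps (x' i) c := funext fun i => ps_pA (hx i) le_rfl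
      rw [hΨB]
      simp only
      rw [hb, hΨ η x x' hF hx])
    (fun x hx i hi hT => by
      have hbx : (fun i => ps (x i) c) = b := by
        by_contra hc
        exact hx (if_neg hc)
      have hΨx : Ψ η x ≠ 0 := fun h => hx (by
        rw [hΨB]
        simp only
        rw [if_pos hbx, h])
      have hbi : ps (x i) c ∈ H43.bx b := by
        have : ps (x i) c = b i := congrFun hbx i
        rw [this]
        exact mem_image_of_mem b (mem_univ i)
      refine domL (K := K) hN hP (hPA b) hK0 (V := 4 * M + δ + 1) (q := 1 / 8) (by linarith) hVK hδ (by linarith) (by norm_num)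
        (x i) ?_
      exact levelL hP hN hδ0' (hg1 η hη) hT (hNL η hη x hΨx i hi) hbi)
    (fun x => by
      rw [hΨB, hΨB']
      simp only
      by_cases hb : (fun i => ps (x i) c) = b
      · simp only [hb, if_true]
        refine hpas η hη _ (fun q hq => Sh_out _ _ hq) (fun q => ?_) x
        by_cases hq : q ∈ slb c K
        · rw [Sh_in _ _ hq, add_sub_cancel_left]
          exact (swS_le q η).trans (hf0b b q hq η)
        · rw [Sh_out _ _ hq, sub_self, abs_zero]
          positivity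
      · simp only [hb, if_false, le_refl])
    (fun x => (hb1 x).2) hb2 (hg2 η hη) hε1
  rw [e1]
  have e2 : rep k (fun S => lw μ s η N P S + tF (c + K) (AbL U M (Bb b)) η S)
      (fun x => if (fun i => ps (x i) c) = b then (Cd7 M δ ^ k)⁻¹ * Ψ η x else 0) =
      (Cd7 M δ ^ k)⁻¹ * rep k (fun S => lw μ s η N P S + tF (c + K) (AbL U M (Bb b)) η S) ΨB := by
    rw [← rep_smul]
    congr 1
    funext x
    rw [hΨB]
    simp only
    split_ifs
    · rfl
    · rw [mul_zero]
  rw [e2]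
  have h5 := mul_le_mul_of_nonneg_left key hCi
  refine h5.trans ?_
  rw [show 2 * (2 * M) = 4 * M by ring, mul_add, ← mul_assoc, inv_mul_cancel₀ hCk0.ne', one_mul]
  have h6 : (Cd7 M δ ^ k)⁻¹ * (k * (Real.exp (4 * M) * ε) * Λ) ≤ k * (Real.exp (4 * M) * ε) * Λ := by
    have : 0 ≤ (k : ℝ) * (Real.exp (4 * M) * ε) * Λ := by positivity
    nlinarith
  linarith

end Level

end

end Pool.W7d29a1.C0.H27
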