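import Pool.Agent.W_7d29a1_C0.Loc7V
import Pool.Agent.W_7d29a1_C0.Trans27Q

/-!
CURV0 (MP_7d29a1_pr), leaf E0D, THE MIRROR IMAGE, part 2: FINAL FORM. (helper27; the template is `Loc7U`, `Loc7V` of helper7)

`E0DL`: the statement of `E0D` for a slab `(c, c + K]` in front of the window: the replicas of `F` are seen IN FULL, the others up to the
row `c` only (`pA c`), the functional vanishes unless the full replicas are in `NLm` (the level `u S - δ` is seen, given the path up to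
the row `m`, with the probability at least `1 / 4`, for all the rows `m` of the slab). `e0_finDL`: it holds for every tilt behind the slab
(`FA (c + K)`). `E0DL.pm`: over `Pm`. `e0_wtDL`: for the measure `wt` of the window of the row `j`.
-/

set_option autoImplicit false

namespace Pool.W7d29a1.C0.H27

open Finset MeasureTheory Filter Topology Pool.Agent.W_7d29a1_F Pool.Agent.W_7d29a1_X Pool.Agent.W_7d29a1_C0.Mod92
  Pool.Agent.W_7d29a1_C0.H32 Pool.W7d29a1.C0.H7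
open Pool.Agent.W_7d29a1_H (sl)
open Pool.Agent.W_7d29a1_HS (In wd)
open Pool.Agent.W_7d29a1_HZ (NSp wd' gp)
open Pool.W7d29a1.C0 (gz gm gz_pos)
open Pool.W7d29a1.C0.VT31 (cE)
open Pool.Agent.W_7d29a1_C0.Loc14 (Qp Qf LocG loc14)
open Pool.Agent.W_7d29a1_C0.LocM18 (Ns Cna Cn)
open scoped ENNReal

noncomputable section

variable {μ : Measure ℝ} {s : ℝ} {N : ℕ} {P : Finset (Finset ℕ)}

/-- **The statement of E0D, mirror image**: `F` = the replicas which are seen in full. -/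
def E0DL (μ : Measure ℝ) (s : ℝ) (k N : ℕ) (P : Finset (Finset ℕ)) (F : Fin k → Prop) (δ : ℝ) (c K : ℕ) (ρ : ℝ)
    (u : Env → Px P → ℝ) (ε K' : ℝ) : Prop :=
  ∀ G : Set Env, MeasurableSet G → ∀ Ψ Ψ' : Env → (Fin k → Px P) → ℝ, (∀ η x, 0 ≤ Ψ η x) → (∀ η x, Ψ η x ≤ (N : ℝ) ^ K') →
      (∀ η x, 0 ≤ Ψ' η x) → (∀ η x, Ψ' η x ≤ (N : ℝ) ^ K') → (∀ x, Measurable fun η => Ψ η x) →
      (∀ x, Measurable fun η => Ψ' η x) →
      (∀ η, ∀ x x' : Fin k → Px P, (∀ i, F i → x i = x' i) → (∀ i, pA c (x i) = pA c (x' i)) → Ψ η x = Ψ η x') →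
      (∀ η ∈ G, ∀ x, Ψ η x ≠ 0 → ∀ i, F i → NLm (lw μ s η N P) (u η) δ c K (x i)) →
      (∀ η ∈ G, ∀ ζ : Env, (∀ q, q ∉ slb c K → ζ q = η q) → (∀ q, |ζ q - η q| ≤ ρ) → ∀ x, Ψ η x ≤ Ψ' ζ x) →
      ∫ η, rep k (fun S => lw μ s η N P S + u η S) (Ψ η) ∂(law μ) ≤
        (N : ℝ) ^ ε * (∫ η, rep k (lw μ s η N P) (Ψ' η) ∂(law μ) + (N : ℝ) ^ (-K')) + (N : ℝ) ^ K' * (law μ Gᶜ).toReal

open Classical in
/-- The typical paths in the frame of `LocG`. -/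
theorem tyL_of {κ δ ε R δ' : ℝ} {c K : ℕ} (hP : Pok μ s N δ' P) (hκc : (N : ℝ) ^ κ ≤ ((N - (c + K) : ℕ) : ℝ)) (hK0 : 0 < K)
    (hcK : c + K ≤ N) (hR : ∀ i : ℕ, 1 ≤ i → i ≤ K → (N : ℝ) ^ ε * wd' μ s i ≤ R / 2) (S : Px P) :
    (if TyL N c K (sl μ s) R (CnL μ s δ N P c K) S then (0 : ℝ) else 1) ≤
      if Ns μ s ε 0 N S ∧ Cna μ s N κ δ S then 0 else 1 := by
  by_cases h : Ns μ s ε 0 N S ∧ Cna μ s N κ δ S
  · have hR0 : 0 ≤ R / 2 := le_trans (mul_nonneg (Real.rpow_nonneg (Nat.cast_nonneg _) _)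
      (le_trans zero_le_one (le_max_left _ _))) (hR K hK0 le_rfl)
    have h1 := g2_L (κ := κ) (δ := δ) (ε := ε) hP hκc hcK S
    have h2 := g3_L (μ := μ) (s := s) (κ := κ) (δ := δ) (ε := ε) (R := R) hK0 hcK ((hR K hK0 le_rfl).trans (by linarith)) S
    rw [if_pos h] at h1 h2
    have hT : TyL N c K (sl μ s) R (CnL μ s δ N P c K) S := by
      refine ⟨fun hO => ?_, fun k hk => ?_, ?_⟩
      · rw [if_pos hO] at h1
        norm_num at h1
      · have h4 := h.1 c (k + 1) (by omega) (Nat.zero_le _) (by omega)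
        rw [Nat.sub_zero, ← add_assoc] at h4
        push_cast at h4
        exact h4.trans (hR _ (by omega) (by omega))
      · by_contra h3
        rw [if_neg h3] at h2
        norm_num at h2
    rw [if_pos hT, if_pos h]
  · rw [if_neg h]
    split_ifs <;> norm_num

/-! ### The final form -/

/-- **E0D, MIRROR IMAGE, FINAL FORM.** -/
theorem e0_finDL [IsProbabilityMeasure μ] {c₀ C₀ : ℝ} {n₀ : ℕ} (h : In μ s c₀ C₀ n₀)
    (hQI : ∀ p : ℝ, 1 < p → ∃ C θ0 : ℝ, 0 ≤ C ∧ 0 < θ0 ∧ QI μ p C θ0) {κ : ℝ} (hκ : 0 < κ) (hκ1 : κ ≤ 1) (k : ℕ) {ε K' : ℝ}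
    (hε : 0 < ε) (hK' : 0 ≤ K') : ∃ δ' ε₁ : ℝ, 0 < δ' ∧ 0 < ε₁ ∧ ∃ N₀ : ℕ, ∀ N : ℕ, N₀ ≤ N →
      ∀ P : Finset (Finset ℕ), Pok μ s N δ' P → ∀ c K : ℕ, (N : ℝ) ^ κ ≤ ((N - (c + K) : ℕ) : ℝ) → (N : ℝ) ^ κ ≤ K →
      c + K ≤ N → ∀ M : ℝ, 0 ≤ M → M ≤ (N : ℝ) ^ ε₁ → ∀ U : Env → ℤ → Finset ℕ → ℝ, FA (c + K) M U →
      ∀ (F : Fin k → Prop) (δ : ℝ), 0 ≤ δ → δ ≤ 1 → E0DL μ s k N P F δ c K (2 * M / K) (tF (c + K) U) ε K' := by
  classical
  obtain ⟨a, K₁, ha, ha1, hK1, hw⟩ := Pool.Agent.W_7d29a1_HZ.wd'_pow h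
  obtain ⟨e2, he2⟩ : ∃ e2 : ℝ, e2 = a * κ / 4 := ⟨_, rfl⟩
  have he20 : 0 < e2 := by rw [he2]; positivity
  obtain ⟨δa, ga, hδa, hga, Na, hLa⟩ := loc14 h hκ e2 he20
  obtain ⟨e3, he3⟩ : ∃ e3 : ℝ, e3 = min e2 (κ * δa) := ⟨_, rfl⟩
  have he30 : 0 < e3 := by rw [he3]; exact lt_min he20 (by positivity)
  have he32 : e3 ≤ e2 := by rw [he3]; exact min_le_left _ _
  have he33 : e3 ≤ κ * δa := by rw [he3]; exact min_le_right _ _
  obtain ⟨δb, gb, hδb, hgb, Nb, hLb⟩ := loc14 h hκ e3 he30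
  obtain ⟨g, hg⟩ : ∃ g : ℝ, g = min ga gb := ⟨_, rfl⟩
  have hg0 : 0 < g := by rw [hg]; exact lt_min hga hgb
  have hg1 : g ≤ ga := by rw [hg]; exact min_le_left _ _
  have hg2 : g ≤ gb := by rw [hg]; exact min_le_right _ _
  obtain ⟨e1, he1⟩ : ∃ e1 : ℝ, e1 = min (ε / (32 * (k + 1))) (min (a * κ / 8) (min (g / 2) (κ / 2))) := ⟨_, rfl⟩
  have he10 : 0 < e1 := by
    rw [he1]
    exact lt_min (by positivity) (lt_min (by positivity) (lt_min (by positivity) (by positivity)))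
  have he1a : e1 ≤ a * κ / 8 := by rw [he1]; exact (min_le_right _ _).trans (min_le_left _ _)
  have he1g : e1 ≤ g / 2 := by rw [he1]; exact (min_le_right _ _).trans ((min_le_right _ _).trans (min_le_left _ _))
  have he1κ : e1 ≤ κ / 2 := by rw [he1]; exact (min_le_right _ _).trans ((min_le_right _ _).trans (min_le_right _ _))
  have he1ε : 8 * k * e1 ≤ ε / 4 := by
    have h1 : e1 ≤ ε / (32 * (k + 1)) := by rw [he1]; exact min_le_left _ _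
    have h2 : 0 ≤ (8 * k : ℝ) := by positivity
    refine (mul_le_mul_of_nonneg_left h1 h2).trans ?_
    rw [← mul_div_assoc, div_le_div_iff₀ (by positivity) (by norm_num)]
    have e9 : ε * (32 * ((k : ℝ) + 1)) = 8 * k * ε * 4 + 32 * ε := by ring
    linarith
  have hp1 : 1 < p7 k (ε / 2) K' := p7_gt (half_pos hε) hK'
  obtain ⟨C, θ0, hC, hθ, hQ⟩ := hQI (p7 k (ε / 2) K') hp1
  have hw1 : 1 ≤ wd' μ s 1 := le_max_left _ _
  have hK1w : 1 ≤ K₁ * wd' μ s 1 := hK1.trans (le_mul_of_one_le_right (zero_le_one.trans hK1) hw1)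
  have n1 := num7 k (K' := K') (K₁ := 2 * (K₁ * wd' μ s 1)) (C := C) (e1 := e1) (e2 := e2) hκ ha (by linarith) hg0 hC hθ
    he1a he1g he1κ he20.le (le_of_eq he2)
  have n2 := fin7 k (half_pos hε) hK'
  have n3 := Pool.Agent.W_7d29a1_HZ.Z74.ev_exp (A := 8) (a := 1) (b := g) (c := g / 2) (by norm_num) one_pos hg0 (by linarith)
    (2 * K')
  have n4 := num_D7 k hε he10 he1ε hκ he1κ hg0
  obtain ⟨N₁, hN₁⟩ := eventually_atTop.1 (n1.and (n2.and (n3.and n4)))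
  refine ⟨δb, e1 / 2, hδb, by positivity, max (max Na Nb) (max N₁ 1), fun N hN P hP c K hc hK hcK M hM0 hM U hU F δ hδ hδ1 G hG
    Ψ Ψ' h0 hΛ h0' hΛ' hmΨ hm hΨ hNL hpas => ?_⟩
  have k1 : Na ≤ N := (le_max_left _ _).trans ((le_max_left _ _).trans hN)
  have k2 : Nb ≤ N := (le_max_right _ _).trans ((le_max_left _ _).trans hN)
  have k3 : N₁ ≤ N := (le_max_left _ _).trans ((le_max_right _ _).trans hN)
  have k4 : 1 ≤ N := (le_max_right _ _).trans ((le_max_right _ _).trans hN)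
  obtain ⟨⟨m1, m2⟩, m3, m4, m5, m6⟩ := hN₁ N k3
  obtain ⟨h3M, hVK, hCk⟩ := m6 M δ K hM0 hM hδ hδ1 hK
  have hNR : (1 : ℝ) ≤ N := by exact_mod_cast k4
  have hN0 : (0 : ℝ) < N := by linarith
  have hKp : (0 : ℝ) < K := (Real.rpow_pos_of_pos hN0 κ).trans_le hK
  have hK0 : 0 < K := by exact_mod_cast hKp
  have := hP.ne
  -- the width
  obtain ⟨w1, _, w3⟩ := hw 1 K le_rfl hK0
  have hW1 : 1 ≤ wd' μ s K := le_max_left _ _
  have hKa : 0 ≤ (K : ℝ) ^ (1 - a) := Real.rpow_nonneg hKp.le _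
  have hW : wd' μ s K ≤ 2 * (K₁ * wd' μ s 1) * (K : ℝ) ^ (1 - a) := by
    refine w3.trans ?_
    rw [Nat.cast_one, div_one]
    have : 0 ≤ K₁ * wd' μ s 1 * (K : ℝ) ^ (1 - a) := by positivity
    linarith
  obtain ⟨q1, q2, q3⟩ := m2 c K (3 * M + 1) (wd' μ s K) hK hcK (by linarith) h3M hW1 hW
  set R : ℝ := 2 * (K₁ * wd' μ s 1) * (N : ℝ) ^ e2 * wd' μ s K with hR
  have hNe : 0 < (N : ℝ) ^ e2 := Real.rpow_pos_of_pos hN0 _
  have hR0 : 0 ≤ R := by rw [hR]; positivity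
  have hRi : ∀ i : ℕ, 1 ≤ i → i ≤ K → (N : ℝ) ^ e2 * wd' μ s i ≤ R / 2 := fun i hi hiK => by
    have h1 := (hw i K hi hiK).1
    have h2 : K₁ * wd' μ s K ≤ K₁ * wd' μ s 1 * wd' μ s K := by
      have h4 : 0 ≤ K₁ * wd' μ s K := mul_nonneg (zero_le_one.trans hK1) (zero_le_one.trans hW1)
      have h5 := mul_le_mul_of_nonneg_right hw1 h4
      have e9 : K₁ * wd' μ s 1 * wd' μ s K = wd' μ s 1 * (K₁ * wd' μ s K) := by ring
      rw [e9]
      linarith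
    calc (N : ℝ) ^ e2 * wd' μ s i ≤ (N : ℝ) ^ e2 * (K₁ * wd' μ s 1 * wd' μ s K) :=
          mul_le_mul_of_nonneg_left (h1.trans h2) hNe.le
      _ = R / 2 := by rw [hR]; ring
  -- the good event
  obtain ⟨Ω, hΩm, hΩ, hΩc⟩ := good7 (μ := μ) fun η => LocG μ s N κ δa e2 ga η ∧ LocG μ s N κ δb e3 gb η
  set ε0 := Real.exp (-(N : ℝ) ^ g) with hε0
  have hε00 : 0 < ε0 := Real.exp_pos _
  have mono_g : ∀ x : ℝ, g ≤ x → Real.exp (-(N : ℝ) ^ x) ≤ ε0 := fun x hx =>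
    Real.exp_le_exp.2 (neg_le_neg (Real.rpow_le_rpow_of_exponent_le hNR hx))
  have hlocal : ∀ η ∈ Ω, gm (lw μ s η N P) (fun S => if Ns μ s e2 0 N S ∧ Cna μ s N κ δa S then 0 else 1) ≤ ε0 := fun η hη =>
    (Pok.loc (hΩ η hη).2 hδa.le k4 hκ1 he33 he32 hP).trans (mono_g _ hg2)
  have hq1 : 2 * M / K ≤ θ0 := by
    refine le_trans ?_ q1
    refine div_le_div_of_nonneg_right ?_ hKp.le
    linarith
  have hCd := one_le_Cd7 hM0 hδ
  set Ck : ℝ := Cd7 M δ ^ k with hCkd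
  have hCk1 : 1 ≤ Ck := one_le_pow₀ hCd
  have hCk0 : 0 < Ck := by linarith
  have hCi : 0 ≤ Ck⁻¹ := (inv_pos.2 hCk0).le
  have hCi1 : Ck⁻¹ ≤ 1 := inv_le_one_of_one_le₀ hCk1
  have key := e0_modDL (μ := μ) (s := s) (σ := sl μ s) (R := R) (Cn := CnL μ s δa N P c K) (δ0 := ε0) (ε := ε0) (Ω := Ω ∩ G)
    (hP.fam (by omega : c + K ≤ N)) hK0 hcK hM0 hU hR0 hp1.le hC hQ hq1 (CnL_sub _ _ _ _) hε00.le m5 hε00.le m1 hδ hVK
    (hΩm.inter hG)
    (fun η hη t j hj ht z hz => (g1_L (hΩ η hη.1).1 hc hcK he20.le (by positivity) hRi t j hj ht z hz).trans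
      (mul_le_mul_of_nonneg_right (mono_g _ hg1) (FS_nonneg _ (bF_nonneg _ _) _ _ _)))
    (fun η hη => (Pool.W7d29a1.C0.gm_mono _ fun S => tyL_of hP hc hK0 hcK hRi S).trans (hlocal η hη.1))
    F h0 hΛ h0' hΛ' hm hΨ (fun η hη => hNL η hη.2) (fun η hη => hpas η hη.2)
  -- the exponent
  have hG' : ∀ η, 0 ≤ rep k (lw μ s η N P) (Ψ' η) := fun η => rep_nonneg7 _ (h0' η)
  have hZ := lint_pow7 (law μ) hG' (fun η => rep_le_const7 _ (hΛ' η)) hp1.le (τ := (N : ℝ) ^ (-(K' + 1)))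
    (Real.rpow_pos_of_pos hN0 _)
  have hNK := Real.rpow_nonneg hN0.le K'
  have hE : (N + 1 : ℝ) ^ k * (5 * k * Real.exp (4 * M) * ε0 * (N : ℝ) ^ K') +
      Ck⁻¹ * (N : ℝ) ^ K' * k * (Real.exp (2 * M) * ε0) ≤ (N : ℝ) ^ (-K') / 4 := by
    refine le_trans (add_le_add ?_ ?_) q3
    · have h1 : 5 * Real.exp (4 * M) ≤ 4 * Real.exp (4 * (3 * M + 1)) := by
        have h2 : Real.exp (4 * (3 * M + 1)) = Real.exp (4 * M) * Real.exp (8 * M + 4) := by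
          rw [← Real.exp_add]
          ring_nf
        have h3 : 5 ≤ Real.exp (8 * M + 4) := by
          have := Real.add_one_le_exp (8 * M + 4)
          linarith
        rw [h2]
        have h4 := mul_le_mul_of_nonneg_left h3 (Real.exp_pos (4 * M)).le
        have h5 := mul_pos (Real.exp_pos (4 * M)) (Real.exp_pos (8 * M + 4))
        linarith
      calc (N + 1 : ℝ) ^ k * (5 * k * Real.exp (4 * M) * ε0 * (N : ℝ) ^ K')
          = (N + 1 : ℝ) ^ k * (k * (5 * Real.exp (4 * M)) * ε0 * (N : ℝ) ^ K') := by ring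
        _ ≤ (N + 1 : ℝ) ^ k * (k * (4 * Real.exp (4 * (3 * M + 1))) * ε0 * (N : ℝ) ^ K') := by gcongr
        _ = _ := by ring
    · have h1 : Real.exp (2 * M) ≤ Real.exp (2 * (3 * M + 1)) := Real.exp_le_exp.2 (by linarith)
      calc Ck⁻¹ * (N : ℝ) ^ K' * k * (Real.exp (2 * M) * ε0) ≤ 1 * (N : ℝ) ^ K' * k * (Real.exp (2 * (3 * M + 1)) * ε0) := by
            gcongr
        _ = _ := by ring
  have hB : C * (k * K * (4 * R + 1) * (2 * M / K) ^ 2 + (slb c K).card * (Real.exp (4 * M) * ε0) ^ 2) ≤ 1 := by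
    refine le_trans (mul_le_mul_of_nonneg_left (add_le_add ?_ ?_) hC) q2
    · have h1 : (2 * M / K) ^ 2 ≤ (2 * (3 * M + 1) / K) ^ 2 := by
        refine pow_le_pow_left₀ (by positivity) ?_ 2
        refine div_le_div_of_nonneg_right ?_ hKp.le
        linarith
      exact mul_le_mul_of_nonneg_left h1 (by positivity)
    · have h1 : (Real.exp (4 * M) * ε0) ^ 2 ≤ (Real.exp (4 * (3 * M + 1)) * ε0) ^ 2 := by
        refine pow_le_pow_left₀ (by positivity) ?_ 2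
        refine mul_le_mul_of_nonneg_right (Real.exp_le_exp.2 ?_) hε00.le
        linarith
      exact mul_le_mul_of_nonneg_left h1 (Nat.cast_nonneg _)
  have hCiN : Ck⁻¹ * (N : ℝ) ^ K' ≤ (N : ℝ) ^ K' := mul_le_of_le_one_left hNK hCi1
  have hL : ENNReal.ofReal (Ck⁻¹ * (N : ℝ) ^ K') * law μ Ωᶜ ≤ ENNReal.ofReal ((N : ℝ) ^ (-K') / 4) := by
    have h1 : law μ Ωᶜ ≤ ENNReal.ofReal (2 * ε0) := by
      rw [hΩc]
      have hsub : {η | ¬(LocG μ s N κ δa e2 ga η ∧ LocG μ s N κ δb e3 gb η)} ⊆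
          {η | ¬ LocG μ s N κ δa e2 ga η} ∪ {η | ¬ LocG μ s N κ δb e3 gb η} := by
        intro η hη
        by_contra hcon
        rw [Set.mem_union, not_or] at hcon
        exact hη ⟨not_not.1 hcon.1, not_not.1 hcon.2⟩
      refine (measure_mono hsub).trans ((measure_union_le _ _).trans ((add_le_add (hLa N k1) (hLb N k2)).trans ?_))
      rw [← ENNReal.ofReal_add (Real.exp_pos _).le (Real.exp_pos _).le]
      refine ENNReal.ofReal_le_ofReal ?_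
      have h3 := mono_g ga hg1
      have h4 := mono_g gb hg2
      linarith
    refine (mul_le_mul' (ENNReal.ofReal_le_ofReal hCiN) h1).trans ?_
    rw [← ENNReal.ofReal_mul (Real.rpow_nonneg hN0.le _)]
    refine ENNReal.ofReal_le_ofReal ?_
    have hpos := Real.rpow_pos_of_pos hN0 K'
    have e : (N : ℝ) ^ (2 * K') = (N : ℝ) ^ K' * (N : ℝ) ^ K' := by
      rw [← Real.rpow_add hN0]
      congr 1
      ring
    have h5 : 8 * ((N : ℝ) ^ K' * (N : ℝ) ^ K') * ε0 ≤ 1 := by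
      rw [← e]
      rw [one_mul] at m4
      refine m4.trans ?_
      have : Real.exp (-(N : ℝ) ^ (g / 2)) ≤ 1 := by
        rw [Real.exp_le_one_iff]
        linarith [Real.rpow_pos_of_pos hN0 (g / 2)]
      linarith
    rw [Real.rpow_neg hN0.le, le_div_iff₀ (by norm_num), ← one_div, le_div_iff₀ hpos]
    linarith
  have hcompl : ENNReal.ofReal (Ck⁻¹ * (N : ℝ) ^ K') * law μ (Ω ∩ G)ᶜ ≤
      ENNReal.ofReal (Ck⁻¹ * (N : ℝ) ^ K') * law μ Ωᶜ + ENNReal.ofReal (Ck⁻¹ * (N : ℝ) ^ K') * law μ Gᶜ := by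
    rw [← mul_add, Set.compl_inter]
    exact mul_le_mul_right (measure_union_le _ _) _
  have fin := m3 _ _ _ _ _ _ _ (key.trans (add_le_add le_rfl hcompl)) hZ hB hE hL
  -- the factor
  have e5 : ∀ η, ENNReal.ofReal (rep k (fun S => lw μ s η N P S + tF (c + K) U η S) (Ψ η)) =
      ENNReal.ofReal Ck * ENNReal.ofReal (rep k (fun S => lw μ s η N P S + tF (c + K) U η S) fun x => Ck⁻¹ * Ψ η x) := fun η => by
    rw [rep_smul, ← ENNReal.ofReal_mul hCk0.le, ← mul_assoc, mul_inv_cancel₀ hCk0.ne', one_mul]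
  have fin2 : ∫⁻ η, ENNReal.ofReal (rep k (fun S => lw μ s η N P S + tF (c + K) U η S) (Ψ η)) ∂(law μ) ≤
      ENNReal.ofReal ((N : ℝ) ^ ε) *
          (∫⁻ η, ENNReal.ofReal (rep k (lw μ s η N P) (Ψ' η)) ∂(law μ) + ENNReal.ofReal ((N : ℝ) ^ (-K'))) +
        ENNReal.ofReal ((N : ℝ) ^ K') * law μ Gᶜ := by
    rw [lintegral_congr e5, lintegral_const_mul' _ _ ENNReal.ofReal_ne_top]
    refine (mul_le_mul_right fin _).trans ?_
    rw [mul_add, ← mul_assoc, ← mul_assoc]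
    refine add_le_add (mul_le_mul_left ?_ _) (mul_le_mul_left ?_ _)
    · rw [← ENNReal.ofReal_mul hCk0.le]
      refine ENNReal.ofReal_le_ofReal ?_
      have e6 : (N : ℝ) ^ ε = (N : ℝ) ^ (ε / 2) * (N : ℝ) ^ (ε / 2) := by
        rw [← Real.rpow_add hN0]
        congr 1
        ring
      rw [e6]
      exact mul_le_mul_of_nonneg_right hCk (Real.rpow_nonneg hN0.le _)
    · rw [← ENNReal.ofReal_mul hCk0.le, ← mul_assoc, mul_inv_cancel₀ hCk0.ne', one_mul]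
  refine real7 (fun η => rep_nonneg7 _ (h0 η)) (fun η => rep_nonneg7 _ (h0' η)) ?_ ?_ (fun η => rep_le_const7 _ (hΛ' η))
    (Real.rpow_nonneg (Nat.cast_nonneg _) _) (Real.rpow_nonneg (Nat.cast_nonneg _) _) (Real.rpow_nonneg (Nat.cast_nonneg _) _) fin2
  · exact meas_rep (fun S => (meas_lw S).add (hU.ms _ _)) hmΨ
  · exact meas_rep (fun S => meas_lw S) hm

/-! ### Over the signs, the window -/

/-- **E0D, the mirror image, over `Pm`.** -/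
theorem E0DL.pm [IsProbabilityMeasure μ] [Nonempty (Px P)] {k c K : ℕ} {F : Fin k → Prop} {δ ρ ε K' : ℝ}
    {u : Finset ℕ → Env → Px P → ℝ} (h : ∀ A, E0DL μ s k N P F δ c K ρ (u A) ε K') (hum : ∀ A S, Measurable fun η => u A η S)
    {G : Set Env} (hG : MeasurableSet G)
    {Ψ Ψ' : Env × Finset ℕ → (Fin k → Px P) → ℝ} (h0 : ∀ ω x, 0 ≤ Ψ ω x) (hΛ : ∀ ω x, Ψ ω x ≤ (N : ℝ) ^ K')
    (h0' : ∀ ω x, 0 ≤ Ψ' ω x) (hΛ' : ∀ ω x, Ψ' ω x ≤ (N : ℝ) ^ K') (hm : ∀ x A, Measurable fun η => Ψ (η, A) x)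
    (hm' : ∀ x A, Measurable fun η => Ψ' (η, A) x)
    (hΨ : ∀ ω, ∀ x x' : Fin k → Px P, (∀ i, F i → x i = x' i) → (∀ i, pA c (x i) = pA c (x' i)) → Ψ ω x = Ψ ω x')
    (hNL : ∀ A, ∀ η ∈ G, ∀ x, Ψ (η, A) x ≠ 0 → ∀ i, F i → NLm (lw μ s η N P) (u A η) δ c K (x i))
    (hpas : ∀ A, ∀ η ∈ G, ∀ ζ : Env, (∀ q, q ∉ slb c K → ζ q = η q) → (∀ q, |ζ q - η q| ≤ ρ) →
      ∀ x, Ψ (η, A) x ≤ Ψ' (ζ, A) x) :
    ∫ ω, rep k (fun S => lw μ s ω.1 N P S + u ω.2 ω.1 S) (Ψ ω) ∂(Pm μ N) ≤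
      (N : ℝ) ^ ε * (∫ ω, rep k (lw μ s ω.1 N P) (Ψ' ω) ∂(Pm μ N) + (N : ℝ) ^ (-K')) + (N : ℝ) ^ K' * (law μ Gᶜ).toReal := by
  have m1 : ∀ A, Measurable fun η => rep k (fun S => lw μ s η N P S + u A η S) (Ψ (η, A)) := fun A =>
    meas_rep (fun S => (meas_lw S).add (hum A S)) fun x => hm x A
  have m2 : ∀ A, Measurable fun η => rep k (lw μ s η N P) (Ψ' (η, A)) := fun A =>
    meas_rep (fun S => meas_lw S) fun x => hm' x A
  have i1 : ∀ A, Integrable (fun η => rep k (fun S => lw μ s η N P S + u A η S) (Ψ (η, A))) (law μ) := fun A =>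
    Integrable.of_bound (m1 A).aestronglyMeasurable ((N : ℝ) ^ K') (Eventually.of_forall fun η => by
      rw [Real.norm_eq_abs, abs_of_nonneg (rep_nonneg7 _ (h0 (η, A)))]
      exact rep_le_const7 _ (hΛ (η, A)))
  have i2 : ∀ A, Integrable (fun η => rep k (lw μ s η N P) (Ψ' (η, A))) (law μ) := fun A =>
    Integrable.of_bound (m2 A).aestronglyMeasurable ((N : ℝ) ^ K') (Eventually.of_forall fun η => by
      rw [Real.norm_eq_abs, abs_of_nonneg (rep_nonneg7 _ (h0' (η, A)))]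
      exact rep_le_const7 _ (hΛ' (η, A)))
  rw [int_Pm (Φ := fun ω : Env × Finset ℕ => rep k (fun S => lw μ s ω.1 N P S + u ω.2 ω.1 S) (Ψ ω))
      (fun A _ => i1 A) (fun A => m1 A),
    int_Pm (Φ := fun ω : Env × Finset ℕ => rep k (lw μ s ω.1 N P) (Ψ' ω)) (fun A _ => i2 A) (fun A => m2 A)]
  have hcard : ((2 : ℝ) ^ N)⁻¹ * ∑ _A ∈ (range N).powerset, (1 : ℝ) = 1 := by
    rw [sum_const, card_powerset, card_range, nsmul_eq_mul, mul_one]
    push_cast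
    field_simp
  have hA : ∀ A ∈ (range N).powerset, ∫ η, rep k (fun S => lw μ s η N P S + u A η S) (Ψ (η, A)) ∂(law μ) ≤
      (N : ℝ) ^ ε * (∫ η, rep k (lw μ s η N P) (Ψ' (η, A)) ∂(law μ) + (N : ℝ) ^ (-K')) + (N : ℝ) ^ K' * (law μ Gᶜ).toReal :=
    fun A _ => h A G hG (fun η => Ψ (η, A)) (fun η => Ψ' (η, A)) (fun η => h0 (η, A)) (fun η => hΛ (η, A))
      (fun η => h0' (η, A)) (fun η => hΛ' (η, A)) (fun x => hm x A) (fun x => hm' x A) (fun η => hΨ (η, A)) (hNL A) (hpas A)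
  have h1 := mul_le_mul_of_nonneg_left (sum_le_sum hA) (by positivity : (0 : ℝ) ≤ ((2 : ℝ) ^ N)⁻¹)
  refine h1.trans (le_of_eq ?_)
  rw [sum_add_distrib, ← mul_sum, sum_add_distrib, mul_add]
  have e : ∀ x : ℝ, ((2 : ℝ) ^ N)⁻¹ * ∑ _A ∈ (range N).powerset, x = x := fun x => by
    have e1 : ∑ _A ∈ (range N).powerset, x = (∑ _A ∈ (range N).powerset, (1 : ℝ)) * x := by
      rw [sum_mul]
      simp only [one_mul]
    rw [e1, ← mul_assoc, hcard, one_mul]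
  rw [e]
  congr 1
  rw [mul_left_comm, mul_add, e]

/-- **E0D, the mirror image, for the measure `wt` of the window of the row `j`** (behind the slab). `F` = the replicas seen in full. -/
theorem e0_wtDL [IsProbabilityMeasure μ] [Nonempty (Px P)] {k c K : ℕ} {F : Fin k → Prop} {δ' B ε K' : ℝ}
    (h : ∀ U : Env → ℤ → Finset ℕ → ℝ, FA (c + K) B U → E0DL μ s k N P F δ' c K (2 * B / K) (tF (c + K) U) ε K') (hB : 0 ≤ B) {δ t : ℝ}
    (ht : |t| ≤ 1) {b j : ℕ} (hc : c + K ≤ j - b) {G : Set Env} (hG : MeasurableSet G)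
    {Ψ Ψ' : Env × Finset ℕ → (Fin k → Px P) → ℝ} (h0 : ∀ ω x, 0 ≤ Ψ ω x) (hΛ : ∀ ω x, Ψ ω x ≤ (N : ℝ) ^ K')
    (h0' : ∀ ω x, 0 ≤ Ψ' ω x) (hΛ' : ∀ ω x, Ψ' ω x ≤ (N : ℝ) ^ K') (hm : ∀ x A, Measurable fun η => Ψ (η, A) x)
    (hm' : ∀ x A, Measurable fun η => Ψ' (η, A) x)
    (hΨ : ∀ ω, ∀ x x' : Fin k → Px P, (∀ i, F i → x i = x' i) → (∀ i, pA c (x i) = pA c (x' i)) → Ψ ω x = Ψ ω x')
    (hNL : ∀ A, ∀ η ∈ G, ∀ x, Ψ (η, A) x ≠ 0 → ∀ i, F i →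
      NLm (lw μ s η N P) (fun S => (t - sg A j) * gj μ s η δ B b j (sg A j) S) δ' c K (x i))
    (hpas : ∀ A, ∀ η ∈ G, ∀ ζ : Env, (∀ q, q ∉ slb c K → ζ q = η q) → (∀ q, |ζ q - η q| ≤ 2 * B / K) →
      ∀ x, Ψ (η, A) x ≤ Ψ' (ζ, A) x) :
    ∫ ω, rep k (wt μ s ω.1 N P δ B b j (sg ω.2 j) t) (Ψ ω) ∂(Pm μ N) ≤
      (N : ℝ) ^ ε * (∫ ω, rep k (wm μ s N P ω) (Ψ' ω) ∂(Pm μ N) + (N : ℝ) ^ (-K')) + (N : ℝ) ^ K' * (law μ Gᶜ).toReal := by
  have e : ∀ A (η : Env), tF (P := P) (c + K) (gwL μ s δ B b j (sg A j) t) η =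
      fun S => (t - sg A j) * gj μ s η δ B b j (sg A j) S :=
    fun A η => funext fun S => gwL_tF (P := P) (t := t) (δ := δ) (B := B) (a := sg A j) hc η S
  have h1 := E0DL.pm (u := fun A => tF (c + K) (gwL μ s δ B b j (sg A j) t)) (fun A => h _ (gwL_FA hB (abs_sg A j).le ht hc))
    (fun A S => (gwL_FA (μ := μ) (s := s) (δ := δ) hB (abs_sg A j).le ht hc).ms _ _) hG h0 hΛ h0' hΛ' hm hm' hΨ
    (fun A η hη x hx i hi => by
      simp only [e]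
      exact hNL A η hη x hx i hi) hpas
  refine le_trans (le_of_eq ?_) h1
  refine integral_congr_ae (Eventually.of_forall fun ω => ?_)
  simp only [wt_tF (N := N) (P := P) (t := t) (δ := δ) (B := B) (a := sg ω.2 j) hc]

end

end Pool.W7d29a1.C0.H27
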