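import Pool.Agent.W_7d29a1_C0.T4M27
import Pool.Agent.W_7d29a1_C0.Trans27R

/-!
CURV0 (MP_7d29a1_pr), leaf E0D: THE THIRD TERM, THE MIRROR INSTANCE, ONE ENVIRONMENT. (helper27)

`NLq` = `NLm` with any probability `ρ` (`NLm = NLq .. (1/4)`). `t4_gen`: `T4_abs` for maps `p m` with the Markov property at a site. `t4_L`: the
slab `(c, c + K]` in front of the window of the row `j`: the `wt`-mass, given what the path does up to the row `c`, of the paths which are in
`NLq` from neither corner, with any own factor `0 ≤ A ≤ 1`, is at most `e ^ (- M)` unless `O1.T4 (lw) (pA c) (gj) (δ / 2) A ≥ e ^ (- 4 M)`.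
`sum_cond`, `rep_cond`: conditional mean of one factor in a replica mean.
`T4x_chg`: change of the weights and of the factor.
-/

set_option autoImplicit false
set_option linter.unusedSectionVars false

namespace Pool.W7d29a1.C0.K27T

open Finset MeasureTheory Filter Topology Pool.Agent.W_7d29a1_F Pool.Agent.W_7d29a1_X Pool.Agent.W_7d29a1_C0.Mod92
  Pool.Agent.W_7d29a1_C0.H32 Pool.W7d29a1.C0.H7 Pool.W7d29a1.C0.H27
open Pool.W7d29a1.C0 (gz gm gz_pos)
open Pool.W7d29a1.C0.VT31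
open Pool.W7d29a1.C0.K1 (upI dnI cE_eq_of cE_congr)
open Pool.W7d29a1.C0.O1 (cE_fib_mono cE_fib_congr cE_addf cE_mulf cE_constf cE_sumf)
open scoped ENNReal

noncomputable section

section Gen

variable {X : Type*} [Fintype X] [Nonempty X] {Y Y1 Z V : Type*} [DecidableEq Y] [DecidableEq Y1] [DecidableEq Z]

/-- Conditional means for the weights `w + ψ`. -/
theorem cE_ratio (w ψ : X → ℝ) (p : X → Y) (φ : X → ℝ) (x : X) :
    cE (fun z => w z + ψ z) p φ x = cE w p (fun z => Real.exp (ψ z) * φ z) x / cE w p (fun z => Real.exp (ψ z)) x := by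
  have h0 := (fz_pos w p x).ne'
  have e1 : (∑ x', if p x' = p x then Real.exp (w x' + ψ x') * φ x' else 0) =
      ∑ x', if p x' = p x then Real.exp (w x') * (Real.exp (ψ x') * φ x') else 0 := sum_congr rfl fun x' _ => by
    rw [Real.exp_add, mul_assoc]
  have e2 : fz (fun z => w z + ψ z) p x = ∑ x', if p x' = p x then Real.exp (w x') * Real.exp (ψ x') else 0 := by
    unfold fz
    exact sum_congr rfl fun x' _ => by rw [Real.exp_add]
  unfold cE
  rw [e1, e2, div_div_div_cancel_right₀ h0]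

/-- The level is seen through `p m` as through the coarser `r m` if the conditional means given `p m` are functions of `r m`. -/
theorem cE_coarse (w : X → ℝ) {p : X → Y1} {r : X → Z} (hc : Crs r p) {φ : X → ℝ} (hm : Mp r (cE w p φ)) (x : X) :
    cE w r φ x = cE w p φ x := by
  rw [← cE_tower w hc φ, cE_of_meas w hm]

open Classical in
/-- **The third term for maps with the Markov property at a site.** -/
theorem t4_gen {w g : X → ℝ} {q : X → Y} {v : X → V} {R : Finset ℕ} {p : ℕ → X → Y1} {σ : ℕ → X → ℤ} {n : ℕ}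
    {B δ δ1 δ2 ρ1 ρ2 t a M : ℝ} (hqp : ∀ m ∈ R, Crs q (p m)) (hsp : ∀ m ∈ R, Crs (σ m) (p m))
    (hmk : ∀ m ∈ R, ∀ φ : X → ℝ, Mp v φ → ∀ x x', σ m x = σ m x' → cE w (p m) φ x = cE w (p m) φ x') (hgv : Mp v g)
    (hσ : ∀ m ∈ R, ∀ x, 0 ≤ σ m x ∧ σ m x < n) (hR : R.card ≤ n) (hn : 1 ≤ n) (hg : ∀ x, |g x| ≤ B / 2)
    (ha : a = 1 ∨ a = -1) (ht : |t| ≤ 1) (hδ : 0 < δ) (hδ1 : δ ≤ δ1) (hδ2 : δ ≤ δ2) (hρ1 : ρ1 ≤ 1 / 2) (hρ2 : ρ2 ≤ 1 / 2)
    (hM : 8 * B + 4 * Real.log n + 4 ≤ M) {A : X → ℝ} (hA0 : ∀ x, 0 ≤ A x) (hA1 : ∀ x, A x ≤ 1) (S : X) :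
    cE (fun x => w x + (t - a) * g x) q (fun x => A x * (if NSx w (fun x => (t - a) * g x) δ1 ρ1 R p x ∧
      NSx (fun x => w x - 2 * a * g x) (fun x => (t + a) * g x) δ2 ρ2 R p x then 1 else 0)) S ≤
      Real.exp (-M) + (if Real.exp (-(4 * M)) ≤ T4x w q g (δ / 2) A S then 1 else 0) := by
  set r : ℕ → X → Y × ℤ := fun m x => (q x, σ m x) with hr
  have hrp : ∀ m ∈ R, Crs (r m) (p m) := fun m hm x x' h => by
    rw [hr]
    simp only
    rw [hqp m hm x x' h, hsp m hm x x' h]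
  -- the Markov property with a tilt
  have hmk2 : ∀ m ∈ R, ∀ ψ φ : X → ℝ, Mp v ψ → Mp v φ → ∀ x, cE (fun z => w z + ψ z) (r m) φ x = cE (fun z => w z + ψ z) (p m) φ x :=
    fun m hm ψ φ hψ hφ x => by
      refine cE_coarse _ (hrp m hm) (fun y y' h => ?_) x
      have h1 : σ m y = σ m y' := congrArg Prod.snd h
      rw [cE_ratio, cE_ratio]
      rw [hmk m hm (fun z => Real.exp (ψ z) * φ z) (fun z z' hz => by
        show Real.exp (ψ z) * φ z = Real.exp (ψ z') * φ z'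
        rw [hψ z z' hz, hφ z z' hz]) y y' h1,
        hmk m hm (fun z => Real.exp (ψ z)) (fun z z' hz => by
          show Real.exp (ψ z) = Real.exp (ψ z')
          rw [hψ z z' hz]) y y' h1]
  have hns : ∀ (ψ : X → ℝ) (c d ρ : ℝ), Mp v ψ → ∀ x, NSx (fun z => w z + ψ z) (fun z => c * g z) d ρ R p x ↔
      NSx (fun z => w z + ψ z) (fun z => c * g z) d ρ R r x := fun ψ c d ρ hψ x => by
    unfold NSx
    refine exists_congr fun m => and_congr_right fun hm => ?_
    rw [hmk2 m hm ψ (fun z => if c * g x - d ≤ c * g z then 1 else 0) hψ (fun z z' hz => by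
      simp only
      rw [hgv z z' hz]) x]
  have e1 : ∀ x, (NSx w (fun x => (t - a) * g x) δ1 ρ1 R p x ∧ NSx (fun x => w x - 2 * a * g x) (fun x => (t + a) * g x) δ2 ρ2 R p x) ↔
      (NSx w (fun x => (t - a) * g x) δ1 ρ1 R r x ∧ NSx (fun x => w x - 2 * a * g x) (fun x => (t + a) * g x) δ2 ρ2 R r x) :=
    fun x => by
      have k1 := hns (fun _ => 0) (t - a) δ1 ρ1 (fun _ _ _ => rfl) x
      simp only [add_zero] at k1
      have k2 := hns (fun z => -(2 * a * g z)) (t + a) δ2 ρ2 (fun z z' hz => by simp only; rw [hgv z z' hz]) x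
      simp only [← sub_eq_add_neg] at k2
      rw [k1, k2]
  simp only [e1]
  refine T4_abs (q := q) (r := r) (n := n) (fun m _ x x' h => congrArg Prod.fst h) hn hR (fun m hm x => ?_) hg ha ht hδ hδ1 hδ2 hρ1 hρ2 hM
    hA0 hA1 S
  have h1 : ((univ.filter fun y => q y = q x).image (r m)) ⊆ (Ico (0 : ℤ) n).image fun z => (q x, z) := fun y hy => by
    obtain ⟨z, hz, rfl⟩ := mem_image.1 hy
    refine mem_image.2 ⟨σ m z, mem_Ico.2 (hσ m hm z), ?_⟩
    rw [hr]
    simp only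
    rw [(mem_filter.1 hz).2]
  refine (card_le_card h1).trans (card_image_le.trans ?_)
  rw [Int.card_Ico]
  simp

/-- Change of the weights (by at most `D`) and of the own factor. -/
theorem T4x_chg {w w' : X → ℝ} {D : ℝ} (hD : ∀ x, |w' x - w x| ≤ D) (q : X → Y) (g : X → ℝ) (δ : ℝ) {A A' : X → ℝ}
    (hA : ∀ x, 0 ≤ A x) (hAA : ∀ x, A x ≤ A' x) (x : X) : T4x w q g δ A x ≤ Real.exp (6 * D) * T4x w' q g δ A' x := by
  have hD' : ∀ x, |w x - w' x| ≤ D := fun x => by rw [abs_sub_comm]; exact hD x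
  have c : ∀ {f : X → ℝ}, (∀ x, 0 ≤ f x) → cE w q f x ≤ Real.exp (2 * D) * cE w' q f x := fun {f} hf => cE_chg hD' q hf x
  have u0 : ∀ (v : X → ℝ) y, 0 ≤ cE v q (upI g δ y) x := fun v y => cE_nonneg v q (fun z => (upI01 g δ y z).1) x
  have d0 : ∀ (v : X → ℝ) y, 0 ≤ cE v q (dnI g δ y) x := fun v y => cE_nonneg v q (fun z => (dnI01 g δ y z).1) x
  have e0 := (Real.exp_pos (2 * D)).le
  have h1 : ∀ y, A y * (cE w q (upI g δ y) x * cE w q (dnI g δ y) x) ≤
      Real.exp (2 * D) * Real.exp (2 * D) * (A' y * (cE w' q (upI g δ y) x * cE w' q (dnI g δ y) x)) := fun y => by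
    have h2 := mul_le_mul (c fun z => (upI01 g δ y z).1) (c fun z => (dnI01 g δ y z).1) (d0 w y) (mul_nonneg e0 (u0 w' y))
    have h3 := mul_le_mul (hAA y) h2 (mul_nonneg (u0 w y) (d0 w y)) ((hA y).trans (hAA y))
    refine h3.trans (le_of_eq ?_)
    ring
  unfold T4x
  refine (cE_mono w q h1 x).trans ?_
  rw [cE_mulf]
  have h4 := c (f := fun y => A' y * (cE w' q (upI g δ y) x * cE w' q (dnI g δ y) x))
    (fun y => mul_nonneg ((hA y).trans (hAA y)) (mul_nonneg (u0 w' y) (d0 w' y)))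
  have h5 := mul_le_mul_of_nonneg_left h4 (mul_nonneg e0 e0)
  refine h5.trans (le_of_eq ?_)
  have e : Real.exp (6 * D) = Real.exp (2 * D) * Real.exp (2 * D) * Real.exp (2 * D) := by
    rw [← Real.exp_add, ← Real.exp_add]
    ring_nf
  rw [e]
  ring

/-! ### The conditional mean of one factor in a replica mean -/

theorem sum_cond (w : X → ℝ) (q : X → Y) (f : X → ℝ) : ∀ (m : ℕ) (i : Fin m) {H : (Fin m → X) → ℝ},
    (∀ x x' : Fin m → X, (∀ j, j ≠ i → x j = x' j) → q (x i) = q (x' i) → H x = H x') →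
    ∑ x : Fin m → X, (∏ j, Real.exp (w (x j))) * (f (x i) * H x) =
      ∑ x : Fin m → X, (∏ j, Real.exp (w (x j))) * (cE w q f (x i) * H x) := by
  intro m
  induction m with
  | zero => exact fun i => i.elim0
  | succ m ih =>
    intro i H hH
    rw [sum_cons7 (fun x => Real.exp (w x)), sum_cons7 (fun x => Real.exp (w x))]
    rcases Fin.eq_zero_or_eq_succ i with rfl | ⟨i', rfl⟩
    · set h : X → ℝ := fun y => ∑ x : Fin m → X, (∏ j, Real.exp (w (x j))) * H (Fin.cons y x) with hh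
      have hhm : Mp q h := fun y y' hy => by
        rw [hh]
        simp only
        refine sum_congr rfl fun x _ => ?_
        congr 1
        refine hH _ _ (fun j hj => ?_) ?_
        · obtain ⟨j', rfl⟩ := Fin.eq_succ_of_ne_zero hj
          rw [Fin.cons_succ, Fin.cons_succ]
        · rw [Fin.cons_zero, Fin.cons_zero]
          exact hy
      have e : ∀ F : X → ℝ, ∑ y : X, Real.exp (w y) * ∑ x : Fin m → X, (∏ j, Real.exp (w (x j))) *
          (F ((Fin.cons y x : Fin (m + 1) → X) 0) * H (Fin.cons y x)) = ∑ y, h y * (Real.exp (w y) * F y) := fun F => by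
        refine sum_congr rfl fun y _ => ?_
        rw [hh]
        simp only [Fin.cons_zero]
        rw [mul_sum, sum_mul]
        refine sum_congr rfl fun x _ => ?_
        ring
      rw [e f, e (cE w q f)]
      exact (sum_cE w hhm f).symm
    · refine sum_congr rfl fun y _ => ?_
      congr 1
      simp only [Fin.cons_succ]
      refine ih i' (H := fun x => H (Fin.cons y x)) fun x x' hx hi => hH _ _ (fun j hj => ?_) ?_
      · refine Fin.cases ?_ (fun j' hj' => ?_) j hj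
        · intro _
          rw [Fin.cons_zero, Fin.cons_zero]
        · rw [Fin.cons_succ, Fin.cons_succ]
          exact hx j' fun h => hj' (by rw [h])
      · rw [Fin.cons_succ, Fin.cons_succ]
        exact hi

theorem rep_cond (w : X → ℝ) (q : X → Y) (f : X → ℝ) {m : ℕ} (i : Fin m) {H : (Fin m → X) → ℝ}
    (hH : ∀ x x' : Fin m → X, (∀ j, j ≠ i → x j = x' j) → q (x i) = q (x' i) → H x = H x') :
    rep m w (fun x => f (x i) * H x) = rep m w fun x => cE w q f (x i) * H x := by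
  unfold rep
  congr 1
  simp only [Real.exp_sum]
  rw [sum_cond w q f m i hH]

end Gen

/-! ### The mirror instance -/

variable {μ : Measure ℝ} {s : ℝ} {N : ℕ} {P : Finset (Finset ℕ)}

open Classical in
/-- `NLm` with the probability `ρ`. -/
def NLq (w u : Px P → ℝ) (δ ρ : ℝ) (c K : ℕ) (S : Px P) : Prop :=
  ∀ m, c < m → m ≤ c + K → ρ ≤ cE w (pA m) (fun S' => if u S - δ ≤ u S' then 1 else 0) S

theorem NLq_NLm (w u : Px P → ℝ) (δ : ℝ) (c K : ℕ) (S : Px P) : NLq w u δ (1 / 4) c K S ↔ NLm w u δ c K S := Iff.rfl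

theorem not_NLq (w u : Px P → ℝ) (δ ρ : ℝ) (c K : ℕ) (S : Px P) : ¬ NLq w u δ ρ c K S ↔ NSx w u δ ρ (Ioc c (c + K)) (fun m => pA m) S := by
  unfold NLq NSx
  push Not
  refine exists_congr fun m => ?_
  rw [mem_Ioc, and_assoc]

/-- The behaviour behind the row `c1` determines the positions behind. -/
theorem ps_of_pB {c1 : ℕ} {S S' : Px P} (h : pB c1 S = pB c1 S') {t : ℕ} (ht : c1 ≤ t) : ps S t = ps S' t := by
  unfold pB at h
  rw [Prod.mk.injEq] at h
  have h1 := pos_split ht S.1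
  have h2 := pos_split ht S'.1
  unfold ps at h ⊢
  rw [h1, h2, h.1, h.2]

theorem mp_gj_pB {δ B : ℝ} {b j : ℕ} {a : ℤ} {c1 : ℕ} (hc : c1 ≤ j - b) (η : Env) :
    Mp (pB c1) (gj (Q := P) μ s η δ B b j a) := fun S S' h => by
  unfold gj
  rw [ps_of_pB h hc, ps_of_pB h (by omega : c1 ≤ j + b)]

theorem markL {c K : ℕ} (hP : Fam N (c + K) P) (hN : c + K ≤ N) (η : Env) {m : ℕ} (hm : m ∈ Ioc c (c + K)) {φ : Px P → ℝ}
    (hφ : Mp (pB (c + K)) φ) {S S' : Px P} (h : ps S m = ps S' m) : cE (lw μ s η N P) (pA m) φ S = cE (lw μ s η N P) (pA m) φ S' := by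
  classical
  obtain ⟨h1, h2⟩ := mem_Ioc.1 hm
  obtain ⟨b, hb⟩ := fac7 (p := pB (c + K)) (g := φ) hφ
  have e : φ = fun S' : Px P => (fun x T => b (x, T)) (ps S' (c + K)) (S'.1 \ range (c + K)) := funext fun S' => hb S'
  have h3 : pos S.1 m = pos S'.1 m := h
  have k1 := cE_FS (μ := μ) (s := s) (t := m) (k := c + K - m) (by omega) h1 hN hP η (fun x T => b (x, T)) S
  have k2 := cE_FS (μ := μ) (s := s) (t := m) (k := c + K - m) (by omega) h1 hN hP η (fun x T => b (x, T)) S'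
  rw [h3] at k1
  rw [e]
  convert k1.trans k2.symm

open Classical in
/-- **THE THIRD TERM, THE MIRROR INSTANCE, one environment.** -/
theorem t4_L {c K : ℕ} (hP : Fam N (c + K) P) (hN : c + K ≤ N) (η : Env) {δc B : ℝ} (hB : 0 ≤ B) {b j : ℕ} (hj : c + K ≤ j - b)
    {a : ℤ} (ha : a = 1 ∨ a = -1) {t : ℝ} (ht : |t| ≤ 1) {δ δ1 δ2 ρ1 ρ2 M : ℝ} (hδ : 0 < δ) (hδ1 : δ ≤ δ1) (hδ2 : δ ≤ δ2)
    (hρ1 : ρ1 ≤ 1 / 2) (hρ2 : ρ2 ≤ 1 / 2) (hM : 8 * B + 4 * Real.log (N + 1 : ℝ) + 4 ≤ M) {A : Px P → ℝ} (hA0 : ∀ x, 0 ≤ A x)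
    (hA1 : ∀ x, A x ≤ 1) (S : Px P) :
    cE (wt μ s η N P δc B b j a t) (pA c) (fun x => A x *
      (if ¬ NLq (lw μ s η N P) (fun x => (t - a) * gj μ s η δc B b j a x) δ1 ρ1 c K x ∧
        ¬ NLq (fun x => lw μ s η N P x - 2 * a * gj μ s η δc B b j a x) (fun x => (t + a) * gj μ s η δc B b j a x) δ2 ρ2 c K x
        then 1 else 0)) S ≤
      Real.exp (-M) + (if Real.exp (-(4 * M)) ≤ T4x (lw μ s η N P) (pA c) (gj μ s η δc B b j a) (δ / 2) A S then 1 else 0) := by
  have : Nonempty (Px P) := ⟨S⟩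
  have haR : ((a : ℤ) : ℝ) = 1 ∨ ((a : ℤ) : ℝ) = -1 := by
    rcases ha with rfl | rfl
    · left; norm_num
    · right; norm_num
  have haa : |((a : ℤ) : ℝ)| ≤ 1 := by rcases haR with h | h <;> rw [h] <;> norm_num
  have key := t4_gen (X := Px P) (w := lw μ s η N P) (g := gj μ s η δc B b j a) (q := pA c) (v := pB (c + K)) (R := Ioc c (c + K))
    (p := fun m => pA m) (σ := fun m S => ps S m) (n := N + 1) (B := B) (δ := δ) (δ1 := δ1) (δ2 := δ2) (ρ1 := ρ1) (ρ2 := ρ2) (t := t)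
    (a := (a : ℝ)) (M := M) (fun m hm => crs_pA (mem_Ioc.1 hm).1.le) (fun m _ S S' h => ps_pA h le_rfl)
    (fun m hm φ hφ x x' h => markL hP hN η hm hφ h) (mp_gj_pB hj η)
    (fun m hm x => ⟨ps_nonneg x m, by
      have h1 := ps_le x m
      have h2 := (mem_Ioc.1 hm).2
      push_cast
      omega⟩) (by rw [Nat.card_Ioc]; omega) (by omega)
    (fun x => abs_gj η hB haa b j x) haR ht hδ hδ1 hδ2 hρ1 hρ2 (by push_cast; exact hM) hA0 hA1 S
  have e : wt μ s η N P δc B b j a t = fun x => lw μ s η N P x + (t - a) * gj μ s η δc B b j a x := by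
    funext x
    unfold wt
    rw [Pi.add_apply, Pi.smul_apply, smul_eq_mul]
  rw [e]
  simp only [not_NLq]
  exact key

end

end Pool.W7d29a1.C0.K27T
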