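import Pool.Agent.W_7d29a1_C0.T4N27
import Pool.Agent.W_7d29a1_C0.Loc7Y

/-!
CURV0 (MP_7d29a1_pr), leaf E0D: THE THIRD TERM, THE MIRROR IMAGE OF `Loc7X`, `Loc7Y`, with an own factor. (helper27)

The slab `(c, c + K]` is in front of the window of the row `j`, the functionals see the path up to the row `c` (`pA c`). `chim`: the smooth
cut off (`chim ≠ 0` implies `NLm`, `chim ≠ 1` implies that `NLq` with the threshold `1 / 2` fails), `split_m`: the three terms. `MsL`: the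
level is missed at both corners, levels and thresholds of the two corners are free. `H4`: the event that `O1.T4 (wm) (pA c) (gg) d A` is at
least `exp (- m)`, a function of `pA c`. `t4_wtDL` (over `E0DL`, the replicas of `F` are seen in full, the replica `i` is not one of them)
and `t4_wtPL` (over `E0X`, plans): a functional times `A (x i) 1_MsL (x i)` under the measure `wt` is at most `N ^ ε` times the functional
times `H4` at the corner, plus errors; `A ≤ A'` is a passenger.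
-/

set_option autoImplicit false
set_option linter.unusedSectionVars false

namespace Pool.W7d29a1.C0.K27T

open Finset MeasureTheory Filter Topology Pool.Agent.W_7d29a1_F Pool.Agent.W_7d29a1_X Pool.Agent.W_7d29a1_C0.Mod92
  Pool.Agent.W_7d29a1_C0.H32 Pool.W7d29a1.C0.H7 Pool.W7d29a1.C0.H27
open Pool.W7d29a1.C0 (gz gm gz_pos rep)
open Pool.W7d29a1.C0.VT31
open Pool.W7d29a1.C0.K1 (upI dnI)
open Pool.Agent.W_7d29a1_C0.Swap57 (Ifb Obl)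
open Pool.W7d29a1.C0.I52 (Plan ev)
open scoped ENNReal

noncomputable section

variable {μ : Measure ℝ} {s : ℝ} {N : ℕ} {P : Finset (Finset ℕ)}

/-! ### The smooth cut off -/

/-- The mass of the level `u S - δ` given the path up to the row `m`. -/
def lvm (w u : Px P → ℝ) (δ : ℝ) (m : ℕ) (S : Px P) : ℝ := cE w (pA m) (fun S' => if u S - δ ≤ u S' then 1 else 0) S

/-- **The smooth cut off** of the level, mirror image. -/
def chim (w u : Px P → ℝ) (δ : ℝ) (c K : ℕ) (S : Px P) : ℝ := ∏ m ∈ Ioc c (c + K), cut7 (lvm w u δ m S)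

theorem chim_nonneg (w u : Px P → ℝ) (δ : ℝ) (c K : ℕ) (S : Px P) : 0 ≤ chim w u δ c K S :=
  prod_nonneg fun _ _ => cut7_nonneg _

theorem chim_le (w u : Px P → ℝ) (δ : ℝ) (c K : ℕ) (S : Px P) : chim w u δ c K S ≤ 1 :=
  prod_le_one (fun _ _ => cut7_nonneg _) fun _ _ => cut7_le _

theorem chim_nl {w u : Px P → ℝ} {δ : ℝ} {c K : ℕ} {S : Px P} (h : chim w u δ c K S ≠ 0) : NLm w u δ c K S :=
  fun m h1 h2 => cut7_zero (prod_ne_zero_iff.1 h m (mem_Ioc.2 ⟨h1, h2⟩))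

theorem chim_hl {w u : Px P → ℝ} {δ : ℝ} {c K : ℕ} {S : Px P} (h : chim w u δ c K S ≠ 1) : ¬ NLq w u δ (1 / 2) c K S := fun hH => by
  refine h (prod_eq_one fun m hm => ?_)
  by_contra hc
  rw [mem_Ioc] at hm
  exact absurd (hH m hm.1 hm.2) (not_le.2 (cut7_one hc))

open Classical in
/-- **The three terms.** -/
theorem split_m (w w' u u' : Px P → ℝ) (δ δ' : ℝ) (c K : ℕ) (S : Px P) :
    (1 - chim w u δ c K S) * (1 - chim w' u' δ' c K S) ≤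
      if ¬ NLq w u δ (1 / 2) c K S ∧ ¬ NLq w' u' δ' (1 / 2) c K S then 1 else 0 := by
  have h1 := chim_nonneg w u δ c K S
  have h2 := chim_nonneg w' u' δ' c K S
  have h3 := chim_le w u δ c K S
  have h4 := chim_le w' u' δ' c K S
  by_cases h5 : chim w u δ c K S = 1
  · rw [h5, sub_self, zero_mul]
    split_ifs <;> norm_num
  by_cases h6 : chim w' u' δ' c K S = 1
  · rw [h6, sub_self, mul_zero]
    split_ifs <;> norm_num
  rw [if_pos ⟨chim_hl h5, chim_hl h6⟩]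
  nlinarith

/-- Monotone in the threshold and in the level. -/
theorem NLq_mono {w u : Px P → ℝ} {δ δ' ρ ρ' : ℝ} (hδ : δ' ≤ δ) (hρ : ρ ≤ ρ') {c K : ℕ} {S : Px P} (h : NLq w u δ' ρ' c K S) :
    NLq w u δ ρ c K S := fun m h1 h2 => by
  have : Nonempty (Px P) := ⟨S⟩
  refine hρ.trans ((h m h1 h2).trans (cE_mono w _ (fun x => ?_) S))
  by_cases h3 : u S - δ' ≤ u x
  · rw [if_pos h3, if_pos (by linarith)]
  · rw [if_neg h3]
    split_ifs <;> norm_num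

/-! ### The events -/

/-- The level of the tilt of the row `j` is missed at both corners (slab in front of the window). -/
def MsL (μ : Measure ℝ) (s : ℝ) (N : ℕ) (P : Finset (Finset ℕ)) (δ B : ℝ) (b j : ℕ) (t δ1 ρ1 δ2 ρ2 : ℝ) (c K : ℕ) (η : Env) (a : ℤ)
    (S : Px P) : Prop :=
  ¬ NLq (lw μ s η N P) (fun S => (t - a) * gj μ s η δ B b j a S) δ1 ρ1 c K S ∧
    ¬ NLq (wt μ s η N P δ B b j a (-a)) (fun S => (t + a) * gj μ s η δ B b j a S) δ2 ρ2 c K S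

open Classical in
/-- The indicator of `MsL`. -/
def iML (μ : Measure ℝ) (s : ℝ) (N : ℕ) (P : Finset (Finset ℕ)) (δ B : ℝ) (b j : ℕ) (t δ1 ρ1 δ2 ρ2 : ℝ) (c K : ℕ) (η : Env) (a : ℤ)
    (S : Px P) : ℝ := if MsL μ s N P δ B b j t δ1 ρ1 δ2 ρ2 c K η a S then 1 else 0

/-- **The event of the third term**: `O1.T4` of the window given `q`, with the own factor `A`, is at least `exp (- m)`. -/
def H4 {Y : Type*} [DecidableEq Y] (μ : Measure ℝ) (s : ℝ) (N : ℕ) (P : Finset (Finset ℕ)) (δ B : ℝ) (b j : ℕ) (q : Px P → Y)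
    (d m : ℝ) (A : Px P → ℝ) (η : Env) (a : ℤ) (S : Px P) : ℝ :=
  if Real.exp (-m) ≤ T4x (lw μ s η N P) q (gj μ s η δ B b j a) d A S then 1 else 0

theorem iML_01 {δ B : ℝ} {b j : ℕ} {t δ1 ρ1 δ2 ρ2 : ℝ} {c K : ℕ} {η : Env} {a : ℤ} {S : Px P} :
    0 ≤ iML μ s N P δ B b j t δ1 ρ1 δ2 ρ2 c K η a S ∧ iML μ s N P δ B b j t δ1 ρ1 δ2 ρ2 c K η a S ≤ 1 := by
  unfold iML
  split_ifs <;> norm_num

theorem H4_01 {Y : Type*} [DecidableEq Y] {δ B : ℝ} {b j : ℕ} {q : Px P → Y} {d m : ℝ} {A : Px P → ℝ} {η : Env} {a : ℤ}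
    {S : Px P} : 0 ≤ H4 μ s N P δ B b j q d m A η a S ∧ H4 μ s N P δ B b j q d m A η a S ≤ 1 := by
  unfold H4
  split_ifs <;> norm_num

theorem H4_mp {Y : Type*} [DecidableEq Y] (δ B : ℝ) (b j : ℕ) (q : Px P → Y) (d m : ℝ) (A : Px P → ℝ) (η : Env) (a : ℤ) :
    Mp q (H4 μ s N P δ B b j q d m A η a) := fun S S' h => by
  have : Nonempty (Px P) := ⟨S⟩
  unfold H4
  rw [T4x_fib _ _ _ _ _ h]

open Classical in
/-- **The third term, one environment.** -/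
theorem msL_le {c K : ℕ} (hP : Fam N (c + K) P) (hN : c + K ≤ N) (η : Env) {δ B : ℝ} (hB : 0 ≤ B) {b j : ℕ} (hj : c + K ≤ j - b)
    {a : ℤ} (ha : a = 1 ∨ a = -1) {t : ℝ} (ht : |t| ≤ 1) {δ0 δ1 δ2 ρ1 ρ2 M : ℝ} (hδ : 0 < δ0) (hδ1 : δ0 ≤ δ1) (hδ2 : δ0 ≤ δ2)
    (hρ1 : ρ1 ≤ 1 / 2) (hρ2 : ρ2 ≤ 1 / 2) (hM : 8 * B + 4 * Real.log (N + 1 : ℝ) + 4 ≤ M) {A : Px P → ℝ} (hA0 : ∀ x, 0 ≤ A x)
    (hA1 : ∀ x, A x ≤ 1) (S : Px P) :
    cE (wt μ s η N P δ B b j a t) (pA c) (fun x => A x * iML μ s N P δ B b j t δ1 ρ1 δ2 ρ2 c K η a x) S ≤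
      Real.exp (-M) + H4 μ s N P δ B b j (pA c) (δ0 / 2) (4 * M) A η a S := by
  have e : wt μ s η N P δ B b j a (-a) = fun x => lw μ s η N P x - 2 * a * gj μ s η δ B b j a x := by
    funext x
    unfold wt
    rw [Pi.add_apply, Pi.smul_apply, smul_eq_mul]
    ring
  have h1 := t4_L hP hN η hB hj ha ht hδ hδ1 hδ2 hρ1 hρ2 hM hA0 hA1 S (δc := δ) (μ := μ) (s := s)
  unfold iML MsL H4
  rw [e]
  convert h1

/-! ### Change of the environment in the slab -/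

theorem gw_locL {c1 : ℕ} {η ζ : Env} (h : ∀ q : Pt, (c1 : ℤ) < q.1 → ζ q = η q) (δ B : ℝ) (a : ℤ) {c' l k : ℕ} (hc : c1 ≤ c')
    (x y : ℤ) : gw μ s ζ δ B a c' l k x y = gw μ s η δ B a c' l k x y := by
  have hW : ∀ (a : Pt) (n : ℕ) (y : ℤ), (c1 : ℤ) ≤ a.1 → W μ s ζ a n y = W μ s η a n y := fun a n y ha =>
    Pool.Agent.W_7d29a1_HZ.Z74.W_rows s a n y fun p hp _ => h p (by omega)
  have h1 : ∀ (p q : ℤ), Pool.Agent.W_7d29a1_Z74.ZJ μ s ζ ((c' : ℤ), x) k (l - k) p q =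
      Pool.Agent.W_7d29a1_Z74.ZJ μ s η ((c' : ℤ), x) k (l - k) p q := fun p q => by
    unfold Pool.Agent.W_7d29a1_Z74.ZJ
    refine sum_congr rfl fun z _ => ?_
    rw [hW _ _ _ (by simp only; omega), hW _ _ _ (by simp only; omega)]
  unfold gw lk
  rw [h1, hW _ _ _ (by simp only; omega)]

theorem gj_locL {δ B : ℝ} {b j : ℕ} {a : ℤ} {c K : ℕ} (hc : c + K ≤ j - b) {η ζ : Env} (h : ∀ q, q ∉ slb c K → ζ q = η q) :
    gj (Q := P) μ s ζ δ B b j a = gj μ s η δ B b j a := by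
  funext S
  unfold gj
  refine gw_locL (c1 := c + K) (fun q hq => h q fun hq' => ?_) δ B a hc _ _
  have h1 := (rws_slb c K q hq').2
  push_cast at hq
  omega

/-- The passenger. -/
theorem pasL {c K : ℕ} {δ B : ℝ} (hB : 0 ≤ B) {b j : ℕ} (hc : c + K ≤ j - b) {a : ℤ} {d m : ℝ} (hm : 12 * B ≤ m) {η ζ : Env}
    (h1 : ∀ q, q ∉ slb c K → ζ q = η q) (h2 : ∀ q, |ζ q - η q| ≤ 2 * B / K) {Y : Type*} [DecidableEq Y] (q : Px P → Y)
    {A A' : Px P → ℝ} (hA : ∀ x, 0 ≤ A x) (hAA : ∀ x, A x ≤ A' x) (S : Px P) :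
    H4 μ s N P δ B b j q d (4 * m) A η a S ≤ H4 μ s N P δ B b j q d (5 * m) A' ζ a S := by
  have : Nonempty (Px P) := ⟨S⟩
  unfold H4
  by_cases h3 : Real.exp (-(4 * m)) ≤ T4x (lw μ s η N P) q (gj μ s η δ B b j a) d A S
  · have h4 := T4x_chg (w := lw μ s η N P) (w' := lw μ s ζ N P) (D := 2 * B) (fun x => by
      rw [abs_sub_comm]
      exact lw_near7 (by linarith) (fun q hq => (h1 q hq).symm) (fun q => by rw [abs_sub_comm]; exact h2 q) x) q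
      (gj μ s η δ B b j a) d hA hAA S
    rw [if_pos h3, if_pos]
    rw [gj_locL hc h1]
    have h5 : Real.exp (-(6 * (2 * B))) * Real.exp (-(4 * m)) ≤
        Real.exp (-(6 * (2 * B))) * (Real.exp (6 * (2 * B)) * T4x (lw μ s ζ N P) q (gj μ s η δ B b j a) d A' S) :=
      mul_le_mul_of_nonneg_left (h3.trans h4) (Real.exp_pos _).le
    have h6 : Real.exp (-(6 * (2 * B))) * (Real.exp (6 * (2 * B)) * T4x (lw μ s ζ N P) q (gj μ s η δ B b j a) d A' S) =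
        T4x (lw μ s ζ N P) q (gj μ s η δ B b j a) d A' S := by
      rw [← mul_assoc, ← Real.exp_add, neg_add_cancel, Real.exp_zero, one_mul]
    rw [h6, ← Real.exp_add] at h5
    exact (Real.exp_le_exp.2 (by linarith)).trans h5
  · rw [if_neg h3]
    exact (H4_01 (μ := μ) (s := s) (N := N) (P := P) (δ := δ) (B := B) (b := b) (j := j) (q := q) (d := d) (m := 5 * m) (A := A')
      (η := ζ) (a := a) (S := S)).1

/-! ### Measurability -/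

theorem meas_upI {Ω : Type*} [MeasurableSpace Ω] {g : Ω → Px P → ℝ} (hg : ∀ S, Measurable fun ω => g ω S) (δ : ℝ) (y z : Px P) :
    Measurable fun ω => upI (g ω) δ y z := by
  unfold upI
  exact Measurable.ite (measurableSet_lt ((hg y).add measurable_const) (hg z)) measurable_const measurable_const

theorem meas_dnI {Ω : Type*} [MeasurableSpace Ω] {g : Ω → Px P → ℝ} (hg : ∀ S, Measurable fun ω => g ω S) (δ : ℝ) (y z : Px P) :
    Measurable fun ω => dnI (g ω) δ y z := by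
  unfold dnI
  exact Measurable.ite (measurableSet_lt (hg z) ((hg y).sub measurable_const)) measurable_const measurable_const

theorem meas_H4 {Y : Type*} [DecidableEq Y] (δ B : ℝ) (b j : ℕ) (q : Px P → Y) (d m : ℝ) {A : Env → Px P → ℝ}
    (hA : ∀ S, Measurable fun η => A η S) (a : ℤ) (S : Px P) : Measurable fun η => H4 μ s N P δ B b j q d m (A η) η a S := by
  unfold H4
  refine Measurable.ite (measurableSet_le measurable_const ?_) measurable_const measurable_const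
  unfold T4x
  refine meas_cE (fun x => meas_lw x) (fun y => (hA y).mul ?_) _ _
  exact (meas_cE (fun x => meas_lw x) (fun z => meas_upI (fun S => meas_gj7 δ B b j a S) d y z) _ _).mul
    (meas_cE (fun x => meas_lw x) (fun z => meas_dnI (fun S => meas_gj7 δ B b j a S) d y z) _ _)

/-! ### The transport -/

/-- **The third term, one environment, any weights of the tuples.** -/
theorem t4_one {c K : ℕ} (hP : Fam N (c + K) P) (hN : c + K ≤ N) {δ B : ℝ} (hB : 0 ≤ B) {b j : ℕ} (hj : c + K ≤ j - b) {a : ℤ}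
    (ha : a = 1 ∨ a = -1) {t δ0 δ1 δ2 ρ1 ρ2 M : ℝ} (ht : |t| ≤ 1) (hδ : 0 < δ0) (hδ1 : δ0 ≤ δ1) (hδ2 : δ0 ≤ δ2) (hρ1 : ρ1 ≤ 1 / 2)
    (hρ2 : ρ2 ≤ 1 / 2) (hM : 8 * B + 4 * Real.log (N + 1 : ℝ) + 4 ≤ M) (η : Env) [Nonempty (Px P)] {A : Px P → ℝ}
    (hA0 : ∀ x, 0 ≤ A x) (hA1 : ∀ x, A x ≤ 1) {k : ℕ} {ρ Ψ : (Fin k → Px P) → ℝ} {i : Fin k}
    (h : Ifb (wt μ s η N P δ B b j a t) (pA c) ρ i) (hρ : ∀ x, 0 ≤ ρ x) (hΨ0 : ∀ x, 0 ≤ Ψ x) (hΨ : Obl (pA c) Ψ i) {Λ : ℝ}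
    (hΛ : ∀ x, Ψ x ≤ Λ) :
    ∑ x, ρ x * (A (x i) * iML μ s N P δ B b j t δ1 ρ1 δ2 ρ2 c K η a (x i) * Ψ x) ≤
      ∑ x, ρ x * (H4 μ s N P δ B b j (pA c) (δ0 / 2) (4 * M) A η a (x i) * Ψ x) + Λ * Real.exp (-M) * ∑ x, ρ x := by
  have h1 := t3_sum h hρ hΨ0 hΨ (f := fun S => A S * iML μ s N P δ B b j t δ1 ρ1 δ2 ρ2 c K η a S)
    (g := fun S => Real.exp (-M) + H4 μ s N P δ B b j (pA c) (δ0 / 2) (4 * M) A η a S)
    (fun S => msL_le hP hN η hB hj ha ht hδ hδ1 hδ2 hρ1 hρ2 hM hA0 hA1 S)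
  refine h1.trans ?_
  rw [mul_sum, ← sum_add_distrib]
  refine sum_le_sum fun x _ => ?_
  have h2 := mul_le_mul_of_nonneg_left (mul_le_mul_of_nonneg_left (hΛ x) (Real.exp_pos (-M)).le) (hρ x)
  linarith

/-- **The third term over `E0DL`**: plain replicas; the replicas of `F` are seen in full, the replica `i` is not one of them. -/
theorem t4_wtDL [IsProbabilityMeasure μ] [Nonempty (Px P)] {k c K : ℕ} (hP : Fam N (c + K) P) {F : Fin k → Prop}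
    {δ' B ε K' : ℝ} (h : ∀ U : Env → ℤ → Finset ℕ → ℝ, FA (c + K) B U → E0DL μ s k N P F δ' c K (2 * B / K) (tF (c + K) U) ε K')
    (hB : 0 ≤ B) (hN : c + K ≤ N) {δ t : ℝ} (ht : |t| ≤ 1) {b j : ℕ} (hc : c + K ≤ j - b) {G : Set Env} (hG : MeasurableSet G)
    {Ψ Ψ' : Env × Finset ℕ → (Fin k → Px P) → ℝ} (h0 : ∀ ω x, 0 ≤ Ψ ω x) (hΛ : ∀ ω x, Ψ ω x ≤ (N : ℝ) ^ K')
    (h0' : ∀ ω x, 0 ≤ Ψ' ω x) (hΛ' : ∀ ω x, Ψ' ω x ≤ (N : ℝ) ^ K') (hm : ∀ x A, Measurable fun η => Ψ (η, A) x)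
    (hm' : ∀ x A, Measurable fun η => Ψ' (η, A) x)
    (hΨ : ∀ ω, ∀ x x' : Fin k → Px P, (∀ i, F i → x i = x' i) → (∀ i, pA c (x i) = pA c (x' i)) → Ψ ω x = Ψ ω x')
    (hNL : ∀ A, ∀ η ∈ G, ∀ x, Ψ (η, A) x ≠ 0 → ∀ i, F i →
      NLm (lw μ s η N P) (fun S => (t - sg A j) * gj μ s η δ B b j (sg A j) S) δ' c K (x i))
    (hpas : ∀ A, ∀ η ∈ G, ∀ ζ : Env, (∀ q, q ∉ slb c K → ζ q = η q) → (∀ q, |ζ q - η q| ≤ 2 * B / K) →
      ∀ x, Ψ (η, A) x ≤ Ψ' (ζ, A) x) {i : Fin k} (hi : ¬ F i) {Ow Ow' : Env × Finset ℕ → Px P → ℝ}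
    (ho0 : ∀ ω S, 0 ≤ Ow ω S) (ho1 : ∀ ω S, Ow ω S ≤ 1) (hom : ∀ S A, Measurable fun η => Ow (η, A) S)
    (hom' : ∀ S A, Measurable fun η => Ow' (η, A) S)
    (hopas : ∀ A, ∀ η ∈ G, ∀ ζ : Env, (∀ q, q ∉ slb c K → ζ q = η q) → (∀ q, |ζ q - η q| ≤ 2 * B / K) →
      ∀ S, Ow (η, A) S ≤ Ow' (ζ, A) S) {δ0 δ1 δ2 ρ1 ρ2 M : ℝ} (hδ : 0 < δ0) (hδ1 : δ0 ≤ δ1) (hδ2 : δ0 ≤ δ2) (hρ1 : ρ1 ≤ 1 / 2)
    (hρ2 : ρ2 ≤ 1 / 2) (hMB : 12 * B + 4 * Real.log (N + 1 : ℝ) + 4 ≤ M) :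
    ∫ ω, rep k (wt μ s ω.1 N P δ B b j (sg ω.2 j) t)
        (fun x => Ow ω (x i) * iML μ s N P δ B b j t δ1 ρ1 δ2 ρ2 c K ω.1 (sg ω.2 j) (x i) * Ψ ω x) ∂(Pm μ N) ≤
      (N : ℝ) ^ ε * (∫ ω, rep k (wm μ s N P ω)
          (fun x => H4 μ s N P δ B b j (pA c) (δ0 / 2) (5 * M) (Ow' ω) ω.1 (sg ω.2 j) (x i) * Ψ' ω x) ∂(Pm μ N) +
        (N : ℝ) ^ (-K')) + (N : ℝ) ^ K' * (law μ Gᶜ).toReal + (N : ℝ) ^ K' * Real.exp (-M) := by
  have hlog : 0 ≤ Real.log (N + 1 : ℝ) := Real.log_nonneg (by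
    have : (0 : ℝ) ≤ N := Nat.cast_nonneg _
    linarith)
  have hNK : 0 ≤ (N : ℝ) ^ K' := Real.rpow_nonneg (Nat.cast_nonneg _) _
  -- the functional of the pasts
  obtain ⟨Φ, hΦ⟩ : ∃ Φ : Env × Finset ℕ → (Fin k → Px P) → ℝ, ∀ ω x, Φ ω x =
    H4 μ s N P δ B b j (pA c) (δ0 / 2) (4 * M) (Ow ω) ω.1 (sg ω.2 j) (x i) * Ψ ω x := ⟨_, fun _ _ => rfl⟩
  have hΦm : ∀ x A, Measurable fun η => Φ (η, A) x := fun x A => by
    simp only [hΦ]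
    exact (meas_H4 δ B b j (pA c) _ _ (A := fun η => Ow (η, A)) (fun S => hom S A) _ _).mul (hm x A)
  have hΦ0 : ∀ ω x, 0 ≤ Φ ω x := fun ω x => by
    rw [hΦ]
    exact mul_nonneg H4_01.1 (h0 ω x)
  have hΦΛ : ∀ ω x, Φ ω x ≤ (N : ℝ) ^ K' := fun ω x => by
    rw [hΦ]
    exact mul_le7 H4_01 (h0 ω x) (hΛ ω x)
  have key := e0_wtDL (μ := μ) (s := s) h hB (δ := δ) ht hc hG hΦ0 hΦΛ
    (Ψ' := fun ω x => H4 μ s N P δ B b j (pA c) (δ0 / 2) (5 * M) (Ow' ω) ω.1 (sg ω.2 j) (x i) * Ψ' ω x)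
    (fun ω x => mul_nonneg H4_01.1 (h0' ω x)) (fun ω x => mul_le7 H4_01 (h0' ω x) (hΛ' ω x)) hΦm
    (fun x A => (meas_H4 δ B b j (pA c) (δ0 / 2) (5 * M) (A := fun η => Ow' (η, A)) (fun S => hom' S A) (sg A j) (x i)).mul
      (hm' x A))
    (fun ω x x' hF hx => by
      rw [hΦ, hΦ, hΨ ω x x' hF hx, H4_mp δ B b j (pA c) (δ0 / 2) (4 * M) (Ow ω) ω.1 (sg ω.2 j) (x i) (x' i) (hx i)])
    (fun A η hη x hx => hNL A η hη x fun h => hx (by rw [hΦ, h, mul_zero]))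
    (fun A η hη ζ hz1 hz2 x => by
      rw [hΦ]
      exact mul_le_mul (pasL hB hc (by linarith) hz1 hz2 _ (ho0 _) (hopas A η hη ζ hz1 hz2) (x i)) (hpas A η hη ζ hz1 hz2 x)
        (h0 _ _) H4_01.1)
  -- one environment
  have h1 : ∀ ω : Env × Finset ℕ, rep k (wt μ s ω.1 N P δ B b j (sg ω.2 j) t)
      (fun x => Ow ω (x i) * iML μ s N P δ B b j t δ1 ρ1 δ2 ρ2 c K ω.1 (sg ω.2 j) (x i) * Ψ ω x) ≤
      rep k (wt μ s ω.1 N P δ B b j (sg ω.2 j) t) (Φ ω) + (N : ℝ) ^ K' * Real.exp (-M) := fun ω => by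
    have hi1 : Obl (pA c) (Ψ ω) i := fun x S hS => by
      refine hΨ ω _ _ (fun l hl => ?_) fun l => ?_
      · rw [Function.update_of_ne]
        rintro rfl
        exact hi hl
      · by_cases hl : l = i
        · subst hl
          rw [Function.update_self]
          exact hS
        · rw [Function.update_of_ne hl]
    have h2 := t4_one (μ := μ) (s := s) (δ := δ) (δ1 := δ1) (δ2 := δ2) (ρ1 := ρ1) (ρ2 := ρ2) (M := M) hP hN hB hc (sg_or ω.2 j) ht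
      hδ hδ1 hδ2 hρ1 hρ2 (by linarith) ω.1 (ho0 ω) (ho1 ω) (ifb_rep7 (wt μ s ω.1 N P δ B b j (sg ω.2 j) t) (pA c) i)
      (fun x => div_nonneg (Real.exp_pos _).le (pow_nonneg (gz_pos _).le _)) (h0 ω) hi1 (hΛ ω)
    have e1 := H41.rep_one k (wt μ s ω.1 N P δ B b j (sg ω.2 j) t)
    rw [rep_sum7] at e1
    simp only [mul_one] at e1
    rw [e1, mul_one] at h2
    rw [rep_sum7, rep_sum7]
    simp only [hΦ]
    exact h2
  have hint : Integrable (fun ω => rep k (wt μ s ω.1 N P δ B b j (sg ω.2 j) t) (Φ ω)) (Pm μ N) := by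
    refine Integrable.of_bound (meas_pm7 (fun A => ?_)).aestronglyMeasurable ((N : ℝ) ^ K') (Eventually.of_forall fun ω => ?_)
    · refine meas_rep (fun S => ?_) fun x => hΦm x A
      simp only [wt_tF (N := N) (P := P) (t := t) (δ := δ) (B := B) (a := sg A j) hc]
      exact (meas_lw S).add ((gwL_FA (μ := μ) (s := s) (δ := δ) hB (abs_sg A j).le ht hc).ms _ _)
    · rw [Real.norm_eq_abs, abs_of_nonneg (rep_nonneg7 _ (hΦ0 ω))]
      exact rep_le_const7 _ (hΦΛ ω)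
  have h2 : ∫ ω, rep k (wt μ s ω.1 N P δ B b j (sg ω.2 j) t)
      (fun x => Ow ω (x i) * iML μ s N P δ B b j t δ1 ρ1 δ2 ρ2 c K ω.1 (sg ω.2 j) (x i) * Ψ ω x) ∂(Pm μ N) ≤
      ∫ ω, (rep k (wt μ s ω.1 N P δ B b j (sg ω.2 j) t) (Φ ω) + (N : ℝ) ^ K' * Real.exp (-M)) ∂(Pm μ N) :=
    integral_mono_of_nonneg (Eventually.of_forall fun ω => rep_nonneg7 _ fun x =>
      mul_nonneg (mul_nonneg (ho0 ω _) iML_01.1) (h0 ω x)) (hint.add (integrable_const _)) (Eventually.of_forall h1)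
  rw [integral_add hint (integrable_const _), integral_const, probReal_univ, one_smul] at h2
  exact h2.trans (add_le_add key le_rfl)

/-- **The third term over `E0X`**: plans; all the replicas are seen up to the row `c` only. -/
theorem t4_wtPL [IsProbabilityMeasure μ] [Nonempty (Px P)] {k c K : ℕ} (hP : Fam N (c + K) P) {B ε K' : ℝ}
    (h : ∀ U : Env → ℤ → Finset ℕ → ℝ, FA (c + K) B U → E0X μ s k N P c K (pA c) (2 * B / K) (tF (c + K) U) ε K')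
    (hB : 0 ≤ B) (hN : c + K ≤ N) {δ t : ℝ} (ht : |t| ≤ 1) {b j : ℕ} (hc : c + K ≤ j - b) {Pl : Plan (Px P) k} (hMg : Marg Pl)
    (hSt : Sat (pA c) Pl) {G : Set Env} (hG : MeasurableSet G)
    {Ψ Ψ' : Env × Finset ℕ → (Fin k → Px P) → ℝ} (h0 : ∀ ω x, 0 ≤ Ψ ω x) (hΛ : ∀ ω x, Ψ ω x ≤ (N : ℝ) ^ K')
    (h0' : ∀ ω x, 0 ≤ Ψ' ω x) (hΛ' : ∀ ω x, Ψ' ω x ≤ (N : ℝ) ^ K') (hm : ∀ x A, Measurable fun η => Ψ (η, A) x)
    (hm' : ∀ x A, Measurable fun η => Ψ' (η, A) x)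
    (hΨ : ∀ ω, ∀ x x' : Fin k → Px P, (∀ i, pA c (x i) = pA c (x' i)) → Ψ ω x = Ψ ω x')
    (hpas : ∀ A, ∀ η ∈ G, ∀ ζ : Env, (∀ q, q ∉ slb c K → ζ q = η q) → (∀ q, |ζ q - η q| ≤ 2 * B / K) →
      ∀ x, Ψ (η, A) x ≤ Ψ' (ζ, A) x) (i : Fin k) {Ow Ow' : Env × Finset ℕ → Px P → ℝ}
    (ho0 : ∀ ω S, 0 ≤ Ow ω S) (ho1 : ∀ ω S, Ow ω S ≤ 1) (hom : ∀ S A, Measurable fun η => Ow (η, A) S)
    (hom' : ∀ S A, Measurable fun η => Ow' (η, A) S)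
    (hopas : ∀ A, ∀ η ∈ G, ∀ ζ : Env, (∀ q, q ∉ slb c K → ζ q = η q) → (∀ q, |ζ q - η q| ≤ 2 * B / K) →
      ∀ S, Ow (η, A) S ≤ Ow' (ζ, A) S) {δ0 δ1 δ2 ρ1 ρ2 M : ℝ} (hδ : 0 < δ0) (hδ1 : δ0 ≤ δ1) (hδ2 : δ0 ≤ δ2) (hρ1 : ρ1 ≤ 1 / 2)
    (hρ2 : ρ2 ≤ 1 / 2) (hMB : 12 * B + 4 * Real.log (N + 1 : ℝ) + 4 ≤ M) :
    ∫ ω, ev Pl (wt μ s ω.1 N P δ B b j (sg ω.2 j) t)
        (fun x => Ow ω (x i) * iML μ s N P δ B b j t δ1 ρ1 δ2 ρ2 c K ω.1 (sg ω.2 j) (x i) * Ψ ω x) ∂(Pm μ N) ≤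
      (N : ℝ) ^ ε * (∫ ω, ev Pl (wm μ s N P ω)
          (fun x => H4 μ s N P δ B b j (pA c) (δ0 / 2) (5 * M) (Ow' ω) ω.1 (sg ω.2 j) (x i) * Ψ' ω x) ∂(Pm μ N) +
        (N : ℝ) ^ (-K')) + (N : ℝ) ^ K' * (law μ Gᶜ).toReal + (N : ℝ) ^ K' * Real.exp (-M) := by
  have hlog : 0 ≤ Real.log (N + 1 : ℝ) := Real.log_nonneg (by
    have : (0 : ℝ) ≤ N := Nat.cast_nonneg _
    linarith)
  have hNK : 0 ≤ (N : ℝ) ^ K' := Real.rpow_nonneg (Nat.cast_nonneg _) _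
  -- the functional of the pasts
  obtain ⟨Φ, hΦ⟩ : ∃ Φ : Env × Finset ℕ → (Fin k → Px P) → ℝ, ∀ ω x, Φ ω x =
    H4 μ s N P δ B b j (pA c) (δ0 / 2) (4 * M) (Ow ω) ω.1 (sg ω.2 j) (x i) * Ψ ω x := ⟨_, fun _ _ => rfl⟩
  have hΦm : ∀ x A, Measurable fun η => Φ (η, A) x := fun x A => by
    simp only [hΦ]
    exact (meas_H4 δ B b j (pA c) _ _ (A := fun η => Ow (η, A)) (fun S => hom S A) _ _).mul (hm x A)
  have hΦ0 : ∀ ω x, 0 ≤ Φ ω x := fun ω x => by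
    rw [hΦ]
    exact mul_nonneg H4_01.1 (h0 ω x)
  have hΦΛ : ∀ ω x, Φ ω x ≤ (N : ℝ) ^ K' := fun ω x => by
    rw [hΦ]
    exact mul_le7 H4_01 (h0 ω x) (hΛ ω x)
  have key := e0_wtPL (μ := μ) (s := s) h hB (δ := δ) ht hc hMg hSt hG hΦ0 hΦΛ
    (Ψ' := fun ω x => H4 μ s N P δ B b j (pA c) (δ0 / 2) (5 * M) (Ow' ω) ω.1 (sg ω.2 j) (x i) * Ψ' ω x)
    (fun ω x => mul_nonneg H4_01.1 (h0' ω x)) (fun ω x => mul_le7 H4_01 (h0' ω x) (hΛ' ω x)) hΦm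
    (fun x A => (meas_H4 δ B b j (pA c) (δ0 / 2) (5 * M) (A := fun η => Ow' (η, A)) (fun S => hom' S A) (sg A j) (x i)).mul
      (hm' x A))
    (fun ω x x' hx => by
      rw [hΦ, hΦ, hΨ ω x x' hx, H4_mp δ B b j (pA c) (δ0 / 2) (4 * M) (Ow ω) ω.1 (sg ω.2 j) (x i) (x' i) (hx i)])
    (fun A η hη ζ hz1 hz2 x => by
      rw [hΦ]
      exact mul_le_mul (pasL hB hc (by linarith) hz1 hz2 _ (ho0 _) (hopas A η hη ζ hz1 hz2) (x i)) (hpas A η hη ζ hz1 hz2 x)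
        (h0 _ _) H4_01.1)
  -- one environment
  have h1 : ∀ ω : Env × Finset ℕ, ev Pl (wt μ s ω.1 N P δ B b j (sg ω.2 j) t)
      (fun x => Ow ω (x i) * iML μ s N P δ B b j t δ1 ρ1 δ2 ρ2 c K ω.1 (sg ω.2 j) (x i) * Ψ ω x) ≤
      ev Pl (wt μ s ω.1 N P δ B b j (sg ω.2 j) t) (Φ ω) + (N : ℝ) ^ K' * Real.exp (-M) := fun ω => by
    have hi1 : Obl (pA c) (Ψ ω) i := fun x S hS => by
      refine hΨ ω _ _ fun l => ?_
      by_cases hl : l = i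
      · subst hl
        rw [Function.update_self]
        exact hS
      · rw [Function.update_of_ne hl]
    have h2 := t4_one (μ := μ) (s := s) (δ := δ) (δ1 := δ1) (δ2 := δ2) (ρ1 := ρ1) (ρ2 := ρ2) (M := M) hP hN hB hc (sg_or ω.2 j) ht
      hδ hδ1 hδ2 hρ1 hρ2 (by linarith) ω.1 (ho0 ω) (ho1 ω) (hSt.ifb (wt μ s ω.1 N P δ B b j (sg ω.2 j) t) i)
      (fun x => I52.wt_nonneg Pl _ x) (h0 ω) hi1 (hΛ ω)
    have e1 : ∑ x, I52.wt Pl (wt μ s ω.1 N P δ B b j (sg ω.2 j) t) x = 1 := by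
      have e2 := I52.ev_one Pl (wt μ s ω.1 N P δ B b j (sg ω.2 j) t)
      unfold ev at e2
      simpa only [mul_one] using e2
    rw [e1, mul_one] at h2
    unfold ev
    simp only [hΦ]
    exact h2
  have hint : Integrable (fun ω => ev Pl (wt μ s ω.1 N P δ B b j (sg ω.2 j) t) (Φ ω)) (Pm μ N) := by
    refine Integrable.of_bound (meas_pm7 (fun A => ?_)).aestronglyMeasurable ((N : ℝ) ^ K') (Eventually.of_forall fun ω => ?_)
    · refine meas_evP (fun S => ?_) Pl fun x => hΦm x A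
      simp only [wt_tF (N := N) (P := P) (t := t) (δ := δ) (B := B) (a := sg A j) hc]
      exact (meas_lw S).add ((gwL_FA (μ := μ) (s := s) (δ := δ) hB (abs_sg A j).le ht hc).ms _ _)
    · rw [Real.norm_eq_abs, abs_of_nonneg (I52.ev_nonneg Pl _ (hΦ0 ω))]
      exact ev_le_const Pl _ (hΦΛ ω)
  have h2 : ∫ ω, ev Pl (wt μ s ω.1 N P δ B b j (sg ω.2 j) t)
      (fun x => Ow ω (x i) * iML μ s N P δ B b j t δ1 ρ1 δ2 ρ2 c K ω.1 (sg ω.2 j) (x i) * Ψ ω x) ∂(Pm μ N) ≤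
      ∫ ω, (ev Pl (wt μ s ω.1 N P δ B b j (sg ω.2 j) t) (Φ ω) + (N : ℝ) ^ K' * Real.exp (-M)) ∂(Pm μ N) :=
    integral_mono_of_nonneg (Eventually.of_forall fun ω => I52.ev_nonneg Pl _ fun x =>
      mul_nonneg (mul_nonneg (ho0 ω _) iML_01.1) (h0 ω x)) (hint.add (integrable_const _)) (Eventually.of_forall h1)
  rw [integral_add hint (integrable_const _), integral_const, probReal_univ, one_smul] at h2
  exact h2.trans (add_le_add key le_rfl)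

end

end Pool.W7d29a1.C0.K27T
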