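import Pool.Agent.W_7d29a1_C0.EstC46B
import Pool.Agent.W_7d29a1_C0.TT72B
import Pool.Agent.W_7d29a1_C0.GeoD36

/-!
MP_7d29a1_pr, [CURV0] (helper57), leaf (T), THE EST LAYER, first part: `TN` / `TL46` (helper46) from the own block (`T0L57`), the
levels (`TiL57`: blocks of length `2 ^ (u + 1) ≤ n ^ (1 - 2 η)`) and the jump to the row `zt` (`TjL57`: only for blocks longer than
`n ^ (1 - 2 η)`), along the chain `zz zt u j` of GeoD36.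
-/

set_option autoImplicit false

namespace Pool.Agent.W_7d29a1_C0.TN57

open Finset MeasureTheory Filter Topology Pool.Agent.W_7d29a1_F Pool.Agent.W_7d29a1_X Pool.Agent.W_7d29a1_H
open Pool.Agent.W_7d29a1_HS (In wd)
open Pool.Agent.W_7d29a1_C0.Mod92 Pool.Agent.W_7d29a1_C0 Pool.Agent.W_7d29a1_C0.Asm96 Pool.Agent.W_7d29a1_C0.CrA44
open Pool.Agent.W_7d29a1_C0.Frm33 Pool.Agent.W_7d29a1_C0.EstC46 Pool.Agent.W_7d29a1_C0.T72
open Pool.Agent.W_7d29a1_C0.GeoD36 (zz zz_first zz_last zz_le zz_mono_succ)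
open Pool.Agent.W_7d29a1_C0.Par92 (Est Sml)

noncomputable section

/-- The top level: the largest `u ≤ q` with `2 ^ u ≤ n ^ (1 - 2 η)`. -/
def uT57 (η : ℝ) (m q : ℕ) : ℕ :=
  open Classical in Nat.findGreatest (fun u => (2 : ℝ) ^ u ≤ ((2 ^ m : ℕ) : ℝ) ^ (1 - 2 * η)) q

theorem uT_le57 (η : ℝ) (m q : ℕ) : uT57 η m q ≤ q := by
  classical
  exact Nat.findGreatest_le q

theorem uT_spec57 {η : ℝ} {m q sg : ℕ} (h1 : sg ≤ q) (h2 : (2 : ℝ) ^ sg ≤ ((2 ^ m : ℕ) : ℝ) ^ (1 - 2 * η)) :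
    sg ≤ uT57 η m q ∧ (2 : ℝ) ^ uT57 η m q ≤ ((2 ^ m : ℕ) : ℝ) ^ (1 - 2 * η) := by
  classical
  exact ⟨Nat.le_findGreatest h1 h2, Nat.findGreatest_spec (P := fun u => (2 : ℝ) ^ u ≤ ((2 ^ m : ℕ) : ℝ) ^ (1 - 2 * η)) h1 h2⟩

/-- The next scale is too long. -/
theorem uT_max57 {η : ℝ} {m q : ℕ} (h : uT57 η m q < q) : ((2 ^ m : ℕ) : ℝ) ^ (1 - 2 * η) < (2 : ℝ) ^ (uT57 η m q + 1) := by
  classical
  have h1 := Nat.findGreatest_is_greatest (P := fun u => (2 : ℝ) ^ u ≤ ((2 ^ m : ℕ) : ℝ) ^ (1 - 2 * η)) (n := q)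
    (k := uT57 η m q + 1) (by unfold uT57; exact Nat.lt_succ_self _) h
  exact not_le.1 h1

section defs

variable (μ : Measure ℝ) (s : ℝ) (F : Frm96) (E : ℕ → ℝ) (Θ δ c x ι η : ℝ)

/-- The sum over the rows `S` of the term between the conditions `q` and `q'`. -/
def SR57 (m p : ℕ) (S : Finset ℕ) (t : ℝ) (f : Fam (F.L m)) (q' q : (y j : ℕ) → Px (Pn (F.L m) y) → Finset ℕ × ℕ) : ℝ :=
  ∑ j ∈ S, avy (F.ys m) fun y => TI72 μ s (F.L m) (Pn (F.L m) y) F.dl (F.B m) (F.b0 m p) j t (q' y j) (q y j)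
    (fun ω => ge μ s (F.L m) (Pn (F.L m) y) F.dl (F.B m) (F.b0 m p) (2 ^ p) ω j) (f y)

/-- **(T) IN THE OWN BLOCK.** -/
def T0N57 (m : ℕ) : Prop := Bl46 F E δ c m fun p q i f => ∀ t ∈ Set.Icc (-1 : ℝ) 1,
  |SR57 μ s F m p (Rw (F.R m) (i * 2 ^ q) ((i + 1) * 2 ^ q)) t f
    (fun _ j => pJ 0 ((j / 2 ^ sg96 E c m p + 1) * 2 ^ sg96 E c m p)) (fun _ j => pS (2 ^ sg96 E c m p) j)| ≤
    kp46 Θ x m q * √(avy (F.ys m) (varF μ s (F.L m) f)) + ((2 ^ m : ℕ) : ℝ)⁻¹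

/-- **(T), THE LEVELS**: from the blocks of length `2 ^ u` to the blocks of length `2 ^ (u + 1) ≤ n ^ (1 - 2 η)`. -/
def TiN57 (m : ℕ) : Prop := Bl46 F E δ c m fun p q i f => ∀ zt ∈ zs46 ι m q i, ∀ u : ℕ, sg96 E c m p ≤ u → u + 1 ≤ q →
  (2 : ℝ) ^ (u + 1) ≤ ((2 ^ m : ℕ) : ℝ) ^ (1 - 2 * η) → ∀ t ∈ Set.Icc (-1 : ℝ) 1,
  |SR57 μ s F m p ((Rw (F.R m) (i * 2 ^ q) ((i + 1) * 2 ^ q)).filter fun j => zz zt u j < zz zt (u + 1) j) t f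
    (fun _ j => pJ 0 (zz zt (u + 1) j)) (fun _ j => pJ 0 (zz zt u j))| ≤
    kp46 Θ x m q * √(avy (F.ys m) (varF μ s (F.L m) f)) + ((2 ^ m : ℕ) : ℝ)⁻¹

/-- **(T), THE JUMP**: from the blocks of length `2 ^ u ≈ n ^ (1 - 2 η)` to the row `zt`. -/
def TjN57 (m : ℕ) : Prop := Bl46 F E δ c m fun p q i f => ∀ zt ∈ zs46 ι m q i, ∀ u : ℕ, sg96 E c m p ≤ u → u + 1 ≤ q →
  (2 : ℝ) ^ u ≤ ((2 ^ m : ℕ) : ℝ) ^ (1 - 2 * η) → ((2 ^ m : ℕ) : ℝ) ^ (1 - 2 * η) < (2 : ℝ) ^ (u + 1) → ∀ t ∈ Set.Icc (-1 : ℝ) 1,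
  |SR57 μ s F m p ((Rw (F.R m) (i * 2 ^ q) ((i + 1) * 2 ^ q)).filter fun j => zz zt u j < zt) t f
    (fun _ _ => pJ 0 zt) (fun _ j => pJ 0 (zz zt u j))| ≤
    kp46 Θ x m q * √(avy (F.ys m) (varF μ s (F.L m) f)) + ((2 ^ m : ℕ) : ℝ)⁻¹

end defs

variable {μ : Measure ℝ} {s : ℝ} {F : Frm96} {E w : ℕ → ℝ} {Θ δ c c₁ c₀ a ε ι η x : ℝ} {m p q i : ℕ}

/-- **`TN` at one length from the own block, the levels and the jump.** -/
theorem tn_of57 [IsProbabilityMeasure μ] (hF : F.Ok Θ m) (hc : 0 < c) (hcδ : 64 * c ≤ δ)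
    (R : Reg46 E w c₀ Θ δ a ε ((2 ^ m : ℕ) : ℝ)) (hε : ε ≤ c / 4) (hι0 : 0 ≤ ι) (hι : ι ≤ c) (hn : 16 ≤ ((2 ^ m : ℕ) : ℝ) ^ c)
    (hη : η ≤ c) (hR : F.R m ⊆ Kr (2 ^ m) m (((2 ^ m : ℕ) : ℝ) ^ (-ι)))
    (hx : ((m : ℝ) + 2) ≤ ((2 ^ m : ℕ) : ℝ) ^ (x - c₁)) (hm : ((m : ℝ) + 2) * 8 ≤ ((2 ^ m : ℕ) : ℝ))
    (h0 : T0N57 μ s F E Θ δ c x m) (h1 : TiN57 μ s F E Θ δ c x ι η m) (h2 : TjN57 μ s F E Θ δ c x ι η m) :
    TN μ s F E Θ δ c c₁ ι m := by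
  intro p q i hst hi D f hD hf zt hz
  have hB : 0 ≤ F.B m := zero_le_one.trans hF.hB
  have hbs := bs46 R hc hcδ hst.hp hst.hps hst.hsq hst.hqm hst.leg hst.pin
  have hl := gap46 R hε hbs hι hn
  have hN1 : (1 : ℝ) ≤ ((2 ^ m : ℕ) : ℝ) := by exact_mod_cast Nat.one_le_two_pow
  have hN0 : (0 : ℝ) < ((2 ^ m : ℕ) : ℝ) := by linarith
  have hl' : 2 ^ sg96 E c m p ≤ gl46 ι m q := by
    have h1 : (1 : ℝ) * 2 ^ sg96 E c m p ≤ ((2 ^ m : ℕ) : ℝ) ^ (5 * c) * 2 ^ sg96 E c m p :=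
      mul_le_mul_of_nonneg_right (Real.one_le_rpow hN1 (by positivity)) (by positivity)
    have h2 : (2 : ℝ) ^ sg96 E c m p ≤ gl46 ι m q := by linarith
    exact_mod_cast h2
  have hσ : 0 < 2 ^ sg96 E c m p := by positivity
  obtain ⟨sg, hsg⟩ : ∃ sg, sg = sg96 E c m p := ⟨_, rfl⟩
  obtain ⟨u, hu⟩ : ∃ u, u = uT57 η m q := ⟨_, rfl⟩
  have hsq : sg ≤ q := by
    rw [hsg]
    exact hst.hsq
  have hzs := zs_mem46 (i := i) hR hst.hqm hσ hl' hz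
  rw [← hsg] at hzs
  -- the first scale is short
  have hs2 : (2 : ℝ) ^ sg ≤ ((2 ^ m : ℕ) : ℝ) ^ (1 - 2 * η) := by
    have a1 : (gl46 ι m q : ℝ) ≤ ((2 ^ m : ℕ) : ℝ) := by
      have b1 : (gl46 ι m q : ℝ) ≤ ((2 ^ m : ℕ) : ℝ) ^ (-ι) * 2 ^ q / 8 := Nat.floor_le (by positivity)
      have b2 : ((2 ^ m : ℕ) : ℝ) ^ (-ι) ≤ 1 := Real.rpow_le_one_of_one_le_of_nonpos hN1 (by linarith)
      have b3 : (2 : ℝ) ^ q ≤ ((2 ^ m : ℕ) : ℝ) := by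
        push_cast
        exact pow_le_pow_right₀ one_le_two hst.hqm
      have b4 : ((2 ^ m : ℕ) : ℝ) ^ (-ι) * 2 ^ q ≤ 1 * ((2 ^ m : ℕ) : ℝ) := mul_le_mul b2 b3 (by positivity) zero_le_one
      linarith
    have a2 : ((2 ^ m : ℕ) : ℝ) ^ (5 * c) * 2 ^ sg ≤ ((2 ^ m : ℕ) : ℝ) := by
      rw [hsg]
      exact hl.trans a1
    calc (2 : ℝ) ^ sg = ((2 ^ m : ℕ) : ℝ) ^ (-(5 * c)) * (((2 ^ m : ℕ) : ℝ) ^ (5 * c) * 2 ^ sg) := by
          rw [← mul_assoc, ← Real.rpow_add hN0, neg_add_cancel, Real.rpow_zero, one_mul]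
      _ ≤ ((2 ^ m : ℕ) : ℝ) ^ (-(5 * c)) * ((2 ^ m : ℕ) : ℝ) := mul_le_mul_of_nonneg_left a2 (by positivity)
      _ = ((2 ^ m : ℕ) : ℝ) ^ (1 - 5 * c) := by
          nth_rw 2 [← Real.rpow_one ((2 ^ m : ℕ) : ℝ)]
          rw [← Real.rpow_add hN0]
          ring_nf
      _ ≤ _ := Real.rpow_le_rpow_of_exponent_le hN1 (by linarith)
  obtain ⟨u1, u2⟩ := uT_spec57 hsq hs2
  have u3 := uT_le57 η m q
  rw [← hu] at u1 u2 u3
  obtain ⟨k, hk⟩ : ∃ k, k = u - sg := ⟨_, rfl⟩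
  obtain ⟨V, hV⟩ : ∃ V, V = √(avy (F.ys m) (varF μ s (F.L m) f)) := ⟨_, rfl⟩
  have hV0 : 0 ≤ V := by rw [hV]; exact Real.sqrt_nonneg _
  -- the chain
  obtain ⟨Z, hZl, hZt⟩ : ∃ Z : ℕ → ℕ → ℕ, (∀ i ≤ k, Z i = fun j => zz zt (sg + i) j) ∧ Z (k + 1) = fun _ => zt :=
    ⟨fun i j => if i ≤ k then zz zt (sg + i) j else zt, fun i hi => funext fun j => if_pos hi,
      funext fun j => if_neg (by omega)⟩
  have key := PT_chain72 (μ := μ) (s := s) (N := F.L m) (δ := F.dl) (B := F.B m) (b0 := F.b0 m p) (b := 2 ^ p)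
    (σ := 2 ^ sg) hB hf hF.hy (R := F.R m) (c' := i * 2 ^ q) (d' := (i + 1) * 2 ^ q) (zt := zt)
    hzs.1 (k := k + 1) (Z := Z) (fun j hj => by
      rw [hZl 0 (Nat.zero_le _)]
      exact (zz_first (hzs.2 j hj)).ge)
    (fun j hj i' hi' => by
      rcases Nat.lt_succ_iff_lt_or_eq.1 hi' with h3 | h3
      · rw [hZl i' (by omega), hZl (i' + 1) (by omega)]
        exact zz_mono_succ zt (sg + i') j
      · rw [h3, hZl k le_rfl, hZt]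
        exact zz_le _ _ _)
    (fun j _ => by rw [hZt])
    (κ0 := kp46 Θ x m q) (e0 := ((2 ^ m : ℕ) : ℝ)⁻¹) (κ := fun _ => kp46 Θ x m q) (e := fun _ => ((2 ^ m : ℕ) : ℝ)⁻¹)
    (fun t ht => by
      have h3 := h0 p q i hst hi D f hD hf t ht
      rw [← hsg] at h3
      refine (le_of_eq ?_).trans h3
      unfold SR57
      congr 1
      refine sum_congr rfl fun j hj => ?_
      rw [hZl 0 (Nat.zero_le _)]
      have e1 : zz zt (sg + 0) j = (j / 2 ^ sg + 1) * 2 ^ sg := zz_first (hzs.2 j hj)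
      simp only [e1])
    (fun i' hi' t ht => by
      rcases Nat.lt_succ_iff_lt_or_eq.1 hi' with h3 | h3
      · rw [hZl i' (by omega), hZl (i' + 1) (by omega)]
        have h4 : (2 : ℝ) ^ (sg + i' + 1) ≤ ((2 ^ m : ℕ) : ℝ) ^ (1 - 2 * η) :=
          (pow_le_pow_right₀ one_le_two (by omega)).trans u2
        exact h1 p q i hst hi D f hD hf zt hz (sg + i') (by omega) (by omega) h4 t ht
      · rw [h3, hZl k le_rfl, hZt]
        have e1 : sg + k = u := by omega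
        rw [e1]
        rcases u3.lt_or_eq with h5 | h5
        · have h6 := uT_max57 (η := η) (m := m) (q := q) (by rw [← hu]; exact h5)
          rw [← hu] at h6
          exact h2 p q i hst hi D f hD hf zt hz u (by omega) h5 u2 h6 t ht
        · have h6 : (Rw (F.R m) (i * 2 ^ q) ((i + 1) * 2 ^ q)).filter (fun j => zz zt u j < zt) = ∅ := by
            refine filter_eq_empty_iff.2 fun j hj => ?_
            unfold Rw at hj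
            rw [mem_inter, mem_Ico] at hj
            rw [h5, zz_last hj.2.1 hzs.1]
            exact lt_irrefl _
          dsimp only
          rw [h6, sum_empty, abs_zero]
          have h7 := kp_nonneg46 Θ x m q
          positivity)
  have hk1 : (k : ℝ) + 1 ≤ m + 1 := by
    have : k ≤ m := by
      have := hst.hqm
      omega
    have : (k : ℝ) ≤ m := by exact_mod_cast this
    linarith
  have hkp := kp_nonneg46 Θ x m q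
  intro t ht
  refine (le_of_eq ?_).trans ((key t ht).trans ?_)
  · rw [← hsg]
  rw [sum_const, sum_const, card_range, nsmul_eq_mul, nsmul_eq_mul, ← hV]
  have a1 : kp46 Θ x m q + ((k : ℝ) + 1) * kp46 Θ x m q ≤ kp46 Θ c₁ m q := by
    calc kp46 Θ x m q + ((k : ℝ) + 1) * kp46 Θ x m q = ((k : ℝ) + 2) * kp46 Θ x m q := by ring
      _ ≤ ((m : ℝ) + 2) * kp46 Θ x m q := mul_le_mul_of_nonneg_right (by linarith) hkp
      _ ≤ ((2 ^ m : ℕ) : ℝ) ^ (x - c₁) * kp46 Θ x m q := mul_le_mul_of_nonneg_right hx hkp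
      _ = kp46 Θ c₁ m q := by
          unfold kp46
          rw [← mul_assoc, ← Real.rpow_add hN0]
          congr 2
          ring
  have a2 : ((2 ^ m : ℕ) : ℝ)⁻¹ + ((k : ℝ) + 1) * ((2 ^ m : ℕ) : ℝ)⁻¹ ≤ 1 / 8 := by
    calc ((2 ^ m : ℕ) : ℝ)⁻¹ + ((k : ℝ) + 1) * ((2 ^ m : ℕ) : ℝ)⁻¹ = ((k : ℝ) + 2) * ((2 ^ m : ℕ) : ℝ)⁻¹ := by ring
      _ ≤ ((m : ℝ) + 2) * ((2 ^ m : ℕ) : ℝ)⁻¹ := mul_le_mul_of_nonneg_right (by linarith) (inv_nonneg.2 hN0.le)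
      _ ≤ 1 / 8 := by
          rw [← div_eq_mul_inv, div_le_iff₀ hN0]
          linarith
  have a3 := mul_le_mul_of_nonneg_right a1 hV0
  push_cast at a1 a2 a3 ⊢
  linarith

/-- The number of the levels. -/
theorem ev_lev57 {x : ℝ} (hx : 0 < x) : ∀ᶠ m : ℕ in atTop, ((m : ℝ) + 2) ≤ ((2 ^ m : ℕ) : ℝ) ^ x := by
  obtain ⟨L₀, h⟩ := Pool.Agent.W_7d29a1_Z.NumI77.large hx 4
  filter_upwards [(tendsto_pow_atTop_atTop_of_one_lt (r := 2) one_lt_two).eventually_ge_atTop (L₀ + 1)] with m hm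
  obtain ⟨h1, -, h3⟩ := h (2 ^ m) (by omega)
  refine le_trans ?_ h3
  have e : Real.log ((2 ^ m : ℕ) : ℝ) = m * Real.log 2 := by
    push_cast
    rw [Real.log_pow]
  rw [e]
  have h4 := Real.log_two_gt_d9
  have h5 : (m : ℝ) * 0.5 ≤ m * Real.log 2 := mul_le_mul_of_nonneg_left (by linarith) (Nat.cast_nonneg _)
  have h6 : (0 : ℝ) ≤ m := Nat.cast_nonneg _
  linarith

/-! ### The concrete frame -/

section Fin

variable {K : ℕ}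

/-- **(T) IN THE OWN BLOCK**, at the concrete frame. -/
def T0L57 (μ : Measure ℝ) (s : ℝ) (K : ℕ) (Θ : ℝ) : Prop :=
  Sml fun δ => Sml fun c => ∃ x : ℝ, 0 < x ∧ Est fun ι β γ m => T0N57 μ s (frm33 μ s K ι β γ) (EE μ s) Θ δ c x m

/-- **(T), THE LEVELS**, at the concrete frame. -/
def TiL57 (μ : Measure ℝ) (s : ℝ) (K : ℕ) (Θ : ℝ) : Prop :=
  Sml fun δ => Sml fun c => Sml fun η => ∃ x : ℝ, 0 < x ∧
    Est fun ι β γ m => TiN57 μ s (frm33 μ s K ι β γ) (EE μ s) Θ δ c x ι η m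

/-- **(T), THE JUMP**, at the concrete frame. -/
def TjL57 (μ : Measure ℝ) (s : ℝ) (K : ℕ) (Θ : ℝ) : Prop :=
  Sml fun δ => Sml fun c => Sml fun η => ∃ x : ℝ, 0 < x ∧
    Est fun ι β γ m => TjN57 μ s (frm33 μ s K ι β γ) (EE μ s) Θ δ c x ι η m

theorem kp_anti57 (Θ : ℝ) {x x' : ℝ} (h : x ≤ x') (m q : ℕ) : kp46 Θ x' m q ≤ kp46 Θ x m q := by
  unfold kp46
  exact mul_le_mul_of_nonneg_right (Real.rpow_le_rpow_of_exponent_le (by exact_mod_cast Nat.one_le_two_pow) (by linarith))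
    (Real.sqrt_nonneg _)

theorem t0_mono57 {x' : ℝ} (h : x ≤ x') (h0 : T0N57 μ s F E Θ δ c x' m) : T0N57 μ s F E Θ δ c x m :=
  fun p q i hst hi D f hD hf t ht => (h0 p q i hst hi D f hD hf t ht).trans
    (by
      have h1 := mul_le_mul_of_nonneg_right (kp_anti57 Θ h m q) (Real.sqrt_nonneg (avy (F.ys m) (varF μ s (F.L m) f)))
      linarith)

theorem ti_mono57 {x' : ℝ} (h : x ≤ x') (h0 : TiN57 μ s F E Θ δ c x' ι η m) : TiN57 μ s F E Θ δ c x ι η m :=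
  fun p q i hst hi D f hD hf zt hz u h1 h2 h3 t ht => (h0 p q i hst hi D f hD hf zt hz u h1 h2 h3 t ht).trans
    (by
      have h1 := mul_le_mul_of_nonneg_right (kp_anti57 Θ h m q) (Real.sqrt_nonneg (avy (F.ys m) (varF μ s (F.L m) f)))
      linarith)

theorem tj_mono57 {x' : ℝ} (h : x ≤ x') (h0 : TjN57 μ s F E Θ δ c x' ι η m) : TjN57 μ s F E Θ δ c x ι η m :=
  fun p q i hst hi D f hD hf zt hz u h1 h2 h3 h4 t ht => (h0 p q i hst hi D f hD hf zt hz u h1 h2 h3 h4 t ht).trans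
    (by
      have h1 := mul_le_mul_of_nonneg_right (kp_anti57 Θ h m q) (Real.sqrt_nonneg (avy (F.ys m) (varF μ s (F.L m) f)))
      linarith)

/-- **(T) FROM THE OWN BLOCK, THE LEVELS AND THE JUMP.** -/
theorem tl_of57 [IsProbabilityMeasure μ] (hK : 6 ≤ K) (hΘ : 0 < Θ) {c₀ : ℝ} (hR : RegP46 μ s c₀ Θ) (h0 : T0L57 μ s K Θ)
    (h1 : TiL57 μ s K Θ) (h2 : TjL57 μ s K Θ) : TL46 μ s K Θ := by
  refine (Sml.and h0 (Sml.and h1 h2)).mono fun δ hδ h3 => ?_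
  obtain ⟨g0, g1, g2⟩ := h3
  refine ((Sml.and g0 (Sml.and g1 g2)).and (Sml.le (show 0 < δ / 64 by positivity))).mono fun c hc h4 => ?_
  obtain ⟨⟨⟨x₀, p₀, k0⟩, j1, j2⟩, hcδ⟩ := h4
  obtain ⟨η, hη, hηc, ⟨x₁, p₁, k1⟩, x₂, p₂, k2⟩ := (Sml.and j1 j2).exists_le hc
  obtain ⟨a, _, _, hRe⟩ := hR
  have hReg := (hRe δ (c / 4) hδ (by positivity)).mono fun m hm => hm.1
  obtain ⟨x, hx⟩ : ∃ x, x = min x₀ (min x₁ x₂) := ⟨_, rfl⟩
  have hx0 : 0 < x := by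
    rw [hx]
    exact lt_min p₀ (lt_min p₁ p₂)
  have q₀ : x ≤ x₀ := by
    rw [hx]
    exact min_le_left _ _
  have q₁ : x ≤ x₁ := by
    rw [hx]
    exact (min_le_right _ _).trans (min_le_left _ _)
  have q₂ : x ≤ x₂ := by
    rw [hx]
    exact (min_le_right _ _).trans (min_le_right _ _)
  refine ⟨x / 2, by positivity, ?_⟩
  have e8 : ∀ᶠ m : ℕ in atTop, ((m : ℝ) + 2) * 8 ≤ ((2 ^ m : ℕ) : ℝ) := by
    filter_upwards [ev_lev57 (show (0 : ℝ) < 1 / 2 by norm_num), pow_ev96 (show (0 : ℝ) < 1 / 2 by norm_num) 8] with m h1 h2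
    have hN0 : (0 : ℝ) < ((2 ^ m : ℕ) : ℝ) := by positivity
    calc ((m : ℝ) + 2) * 8 ≤ ((2 ^ m : ℕ) : ℝ) ^ (1 / 2 : ℝ) * ((2 ^ m : ℕ) : ℝ) ^ (1 / 2 : ℝ) :=
          mul_le_mul h1 h2 (by norm_num) (by positivity)
      _ = _ := by
          rw [← Real.rpow_add hN0]
          norm_num
  have hall := ((ok33 (μ := μ) (s := s) hK hΘ).and (k0.and (k1.and k2))).and
    ((Est.iota (Sml.le hc)).and (Est.of_ev (hReg.and ((pow_ev96 hc 16).and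
      ((ev_lev57 (show 0 < x - x / 2 by linarith)).and e8)))))
  refine hall.mono fun ι β γ hι _ _ => Eventually.of_forall fun m h => ?_
  obtain ⟨⟨a1, a2, a3, a9⟩, a4, a5, a6, a7, a8⟩ := h
  exact tn_of57 a1 hc (by linarith) a5 le_rfl hι.le a4 a6 hηc (Finset.Subset.refl _) a7 a8 (t0_mono57 q₀ a2)
    (ti_mono57 q₁ a3) (tj_mono57 q₂ a9)

end Fin

end

end Pool.Agent.W_7d29a1_C0.TN57
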