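import Pool.Agent.W_7d29a1_C0.TNm57
import Pool.Agent.W_7d29a1_C0.TNa57
import Pool.Agent.W_7d29a1_C0.FarL57
import Pool.Agent.W_7d29a1_C0.PT93F

/-!
CURV0 (MP_7d29a1_pr), leaf (T), ALL THE HYPOTHESES OF A LEVEL (or of the jump) AT ONE LENGTH `2 ^ m` (helper72): `TH72` (to be proved at
`frm33` in the order of `Est`), from the bodies `LevY72` of `levN72`, `MicY72` of `MicG57`, `ConeY72` of `cone_FV57` and the prices `PrN`.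
-/

set_option autoImplicit false
set_option linter.unusedSectionVars false
set_option linter.unusedVariables false

namespace Pool.Agent.W_7d29a1_C0.T72

open Finset MeasureTheory Filter Topology
open Pool.Agent.W_7d29a1_C0 Pool.Agent.W_7d29a1_C0.Mod92 Pool.Agent.W_7d29a1_C0.Swap57 Pool.Agent.W_7d29a1_C0.NM82
open Pool.Agent.W_7d29a1_F Pool.Agent.W_7d29a1_X
open Pool.Agent.W_7d29a1_H (sl EE)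
open Pool.Agent.W_7d29a1_HS (In wd)
open Pool.Agent.W_7d29a1_HZ (wd' EE')
open Pool.Agent.W_7d29a1_C0.InT57 (FV57)
open Pool.Agent.W_7d29a1_C0.CrA44 (ge)
open Pool.Agent.W_7d29a1_C0.T93 (PrN er)
open Pool.Agent.W_7d29a1_C0.Asm96 Pool.Agent.W_7d29a1_C0.EstC46
open Pool.W7d29a1.C0 Pool.W7d29a1.C0.T72

noncomputable section

/-- The body of `levN72` at one length, for the ends `ys` and the level `B`. -/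
def LevY72 (μ : Measure ℝ) (s κ ε K' : ℝ) (N : ℕ) (ys : Finset ℕ) (B : ℝ) : Prop :=
      ∀ (δ : ℝ) (b0 b n zt c cc d cb r : ℕ) (S : Finset ℕ) (c0 K a0 z z' : ℕ → ℕ), b0 ≤ b → 1 ≤ n → zt ≤ c → c ≤ d → d ≤ N →
      (∀ j ∈ S, cb ≤ j ∧ j < cb + r) → (∀ j ∈ S, (N : ℝ) ^ κ ≤ c0 j ∧ (N : ℝ) ^ κ ≤ K j ∧ j + b ≤ c0 j ∧ c0 j + K j ≤ a0 j ∧
        a0 j + n < z j ∧ z j ≤ z' j ∧ z' j ≤ zt) →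
      ∀ R : ℝ, 1 ≤ R → R ≤ (N : ℝ) ^ 2 → (∀ j ∈ S, ∀ k : ℕ, 1 ≤ k → k ≤ z' j - a0 j → (N : ℝ) ^ ε * wd' μ s k ≤ R / 4) →
      ∀ (D : ℝ) (f : Fam N), 0 ≤ D → D ≤ (N : ℝ) ^ 3 → Cls59 N cc d D f → ∀ t : ℝ, |t| ≤ 1 →
      ∀ L : ℕ → ℕ → Fam N, (∀ m j y ω S, 0 ≤ L m j y ω S) → (∀ m j y ω S, L m j y ω S ≤ 1) →
      (∀ m j y S, Measurable fun ω => L m j y ω S) → ∀ A2 e2 : ℝ, 0 ≤ A2 →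
      (∀ j ∈ S, ∀ y ∈ ys, ∀ [Nonempty (Px (Pn N y))], ∀ m < n, |MX72 μ s N (Pn N y) δ B b0 j t (z j) (z' j)
        (KX72 μ s N (Pn N y) δ B b0 j t (a0 j + 1 + m) fun ω => ge μ s N (Pn N y) δ B b0 b ω j)
        (fun ω => gg μ s (Pn N y) δ B b0 ω j) (f y)| ≤
          A2 * RX72 μ s N (Pn N y) (a0 j + n) (z j) (z' j) c (L m j y) (f y) + e2) →
      (∀ j ∈ S, ∀ y ∈ ys, ∀ [Nonempty (Px (Pn N y))], ∀ m < n, |MX72 μ s N (Pn N y) δ B b0 j t (z j) (z' j)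
        (KX72 μ s N (Pn N y) δ B b0 j t (a0 j + 1 + m) fun ω => gg μ s (Pn N y) δ B b0 ω j)
        (fun ω => ge μ s N (Pn N y) δ B b0 b ω j) (f y)| ≤
          A2 * RX72 μ s N (Pn N y) (a0 j + n) (z j) (z' j) c (L m j y) (f y) + e2) →
      ∀ (φ0 φ1 : ℕ → ℝ) (GF : ℝ), (∀ D, 0 ≤ φ0 D) → (∀ D, 0 ≤ φ1 D) →
      (∀ j ∈ S, ∀ k ∈ S, avy ys (T93.pr2 μ s N (NN72 N zt c) (UQ72 μ s N (a0 j) (z j) (z' j) (one72 N))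
        (UQ72 μ s N (a0 k) (z k) (z' k) (one72 N))) ≤ φ0 (T93.rdist j k)) →
      (∀ m < n, ∀ j ∈ S, ∀ k ∈ S, avy ys (T93.pr2 μ s N (NN72 N zt c) (UQ72 μ s N (a0 j + n) (z j) (z' j) (L m j))
        (UQ72 μ s N (a0 k + n) (z k) (z' k) (L m k))) ≤ φ1 (T93.rdist j k)) →
      (∑ j ∈ S, avy ys (fun y => ∫ ω, FV57 (wm μ s N (Pn N y) ω) (a0 j) (z j) (z' j) c R (f y ω) ∂(Pm μ N)) ≤ GF) →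
      |∑ j ∈ S, avy ys (fun y => TI72 μ s N (Pn N y) δ B b0 j t (pJ 0 (z' j)) (pJ 0 (z j))
        (fun ω => ge μ s N (Pn N y) δ B b0 b ω j) (f y))| ≤
        (B ^ 2 * gn72 N ε B R n * (N : ℝ) ^ ε * √(8 * S.card * ∑ D ∈ range r, φ0 D) +
          A2 * √(8 * S.card * ∑ D ∈ range r, φ1 D)) * √(2 * avy ys (varF μ s N f)) + B ^ 3 * (N : ℝ) ^ ε * GF +
          S.card * (2 * e2 + (N : ℝ) ^ (-K'))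

/-- `levN72` gives `LevY72`. -/
theorem levY72 {μ : Measure ℝ} [IsProbabilityMeasure μ] {s c₀ C₀ : ℝ} {n₀ : ℕ} (h : In μ s c₀ C₀ n₀)
    (hQI : ∀ p : ℝ, 1 < p → ∃ C θ0 : ℝ, 0 ≤ C ∧ 0 < θ0 ∧ Pool.W7d29a1.C0.H27.QI μ p C θ0) {f₀ f₀' : ℝ → ℝ}
    (hf₀ : Pool.Agent.W_7d29a1_C0.H32.DenLaw μ f₀ f₀') {κ ε K' : ℝ} (hκ : 0 < κ) (hκ1 : κ ≤ 1) (hε : 0 < ε) (hε1 : ε ≤ 1)
    (hK' : 0 ≤ K') : ∃ δ' β : ℝ, 0 < δ' ∧ 0 < β ∧ ∃ N₀ : ℕ, ∀ N : ℕ, N₀ ≤ N → ∀ ys : Finset ℕ, ys.Nonempty →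
      (∀ y ∈ ys, y ≤ N ∧ |(y : ℝ) - sl μ s * N| ≤ (N : ℝ) ^ δ' * wd' μ s N) → ∀ B : ℝ, 1 ≤ B → B ≤ (N : ℝ) ^ β →
      LevY72 μ s κ ε K' N ys B :=
  levN72 h hQI hf₀ hκ hκ1 hε hε1 hK'

/-- The body of `MicG57` at one length, for the exponent `γ`, the level `B` and the end `y`. -/
def MicY72 (μ : Measure ℝ) (s κ εM ε K1 : ℝ) (N : ℕ) (γ B : ℝ) (y : ℕ) : Prop :=
  ∀ [Nonempty (Px (Pn N y))], ∀ b0 b j l q : ℕ, (N : ℝ) ^ κ ≤ b0 → b0 ≤ b → b ≤ j → ∀ M : ℝ, (N : ℝ) ^ εM ≤ M → 10 * M ≤ q →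
  (q : ℝ) ≤ 20 * M → 3 * q * (l + 1) ≤ b0 → ∀ c0 K m h z z' c cc d : ℕ, (N : ℝ) ^ κ ≤ c0 → (N : ℝ) ^ κ ≤ K → j + b ≤ c0 →
  c0 + K ≤ m → m ≤ h → h ≤ z → z ≤ z' → z' ≤ c → c ≤ d → d ≤ N → ∀ (D : ℝ) (f : Fam N), 0 ≤ D → D ≤ (N : ℝ) ^ 3 →
  Cls59 N cc d D f → ∀ t : ℝ, |t| ≤ 1 →
  |MX72 μ s N (Pn N y) γ B b0 j t z z' (KX72 μ s N (Pn N y) γ B b0 j t m fun ω => ge μ s N (Pn N y) γ B b0 b ω j)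
    (fun ω => gg μ s (Pn N y) γ B b0 ω j) (f y)| ≤
      B ^ 3 * (N : ℝ) ^ ε * RX72 μ s N (Pn N y) h z z' c (LR72 μ s N m b0 j l q M y) (f y) + (N : ℝ) ^ (-K1) ∧
  |MX72 μ s N (Pn N y) γ B b0 j t z z' (KX72 μ s N (Pn N y) γ B b0 j t m fun ω => gg μ s (Pn N y) γ B b0 ω j)
    (fun ω => ge μ s N (Pn N y) γ B b0 b ω j) (f y)| ≤
      B ^ 3 * (N : ℝ) ^ ε * RX72 μ s N (Pn N y) h z z' c (LR72 μ s N m b0 j l q M y) (f y) + (N : ℝ) ^ (-K1)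

theorem micY72 {μ : Measure ℝ} {s : ℝ} (h : TN57.MicG57 μ s) : ∀ κ εM ε K1 : ℝ, 0 < κ → κ ≤ 1 → 0 < εM → 0 < ε → 0 ≤ K1 →
    ∃ β γ₀ : ℝ, 0 < β ∧ 0 < γ₀ ∧ ∀ γ : ℝ, 0 < γ → γ ≤ γ₀ → ∃ δ' : ℝ, 0 < δ' ∧ ∃ N₀ : ℕ, ∀ N : ℕ, N₀ ≤ N → ∀ y : ℕ, y ≤ N →
    |(y : ℝ) - sl μ s * N| ≤ (N : ℝ) ^ δ' * wd' μ s N → ∀ B : ℝ, 1 ≤ B → B ≤ (N : ℝ) ^ β → MicY72 μ s κ εM ε K1 N γ B y := by
  intro κ εM ε K1 h1 h2 h3 h4 h5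
  obtain ⟨β, γ₀, hβ, hγ₀, hh⟩ := h κ εM ε K1 h1 h2 h3 h4 h5
  refine ⟨β, γ₀, hβ, hγ₀, fun γ a1 a2 => ?_⟩
  obtain ⟨δ', hδ', N₀, hN⟩ := hh γ a1 a2
  exact ⟨δ', hδ', N₀, fun N hN0 y hy hyc B hB hBβ _ => hN N hN0 y hy hyc B hB hBβ⟩

/-- The body of `cone_FV57` at one length, for the end `y`. -/
def ConeY72 (μ : Measure ℝ) (s ε c' : ℝ) (N y : ℕ) : Prop :=
    ∀ (_ : Nonempty (Px (Pn N y))) (a0 z z' c n : ℕ), z' ≤ n → n ≤ N → ∀ R : ℝ, 0 < R →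
    (∀ k : ℕ, 1 ≤ k → k ≤ n → (N : ℝ) ^ ε * wd' μ s k ≤ R / 4) →
    ∀ (f : Env × Finset ℕ → Px (Pn N y) → ℝ) (F : ℝ), (∀ S, Measurable fun ω => f ω S) → (∀ ω S, |f ω S| ≤ F) →
    ∫ ω, FV57 (wm μ s N (Pn N y) ω) a0 z z' c R (f ω) ∂(Pm μ N) ≤ 8 * F * Real.exp (-(N : ℝ) ^ c')

theorem coneY72 {μ : Measure ℝ} [IsProbabilityMeasure μ] {s c0 C0 : ℝ} {n0 : ℕ} (h : In μ s c0 C0 n0) {ε : ℝ} (hε : 0 < ε) :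
    ∃ δ' c' : ℝ, 0 < δ' ∧ 0 < c' ∧ ∃ N₀ : ℕ, ∀ N : ℕ, N₀ ≤ N → ∀ y : ℕ, y ≤ N →
    |(y : ℝ) - sl μ s * N| ≤ (N : ℝ) ^ δ' * wd' μ s N → ConeY72 μ s ε c' N y :=
  InT57.cone_FV57 h hε

/-- **The hypotheses of a level or of the jump at one length.** `ϵ` = the loss of `Reg46`, `N = n ^ K`: `N ^ κ = n ^ c`, `N ^ ε = n ^ ι`,
`M = N ^ εM`, `κP` = the exponent of the thresholds of the prices, `cP`, `cC` = the exponents of the errors. -/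
structure TH72 (μ : Measure ℝ) (s : ℝ) (F : Frm96) (w : ℕ → ℝ) (c₀ Θ δ a ϵ c ι κ ε εM κP cP cC Kw : ℝ) (m : ℕ) : Prop where
  ok : F.Ok Θ m
  reg : Reg46 (EE μ s) w c₀ Θ δ a ϵ ((2 ^ m : ℕ) : ℝ)
  rows : F.R m ⊆ Kr (2 ^ m) m (((2 ^ m : ℕ) : ℝ) ^ (-ι))
  ys0 : (F.ys m).Nonempty
  lev : LevY72 μ s κ ε 1 (F.L m) (F.ys m) (F.B m)
  mic : ∀ y ∈ F.ys m, MicY72 μ s κ εM ε 1 (F.L m) F.dl (F.B m) y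
  pr : ∀ y ∈ F.ys m, ∀ k ≤ 5, PrN μ s (F.L m) y ε κ κP cP k
  cone : ∀ y ∈ F.ys m, ConeY72 μ s ε cC (F.L m) y
  /-- The exponents. -/
  Nκ : (F.L m : ℝ) ^ κ = ((2 ^ m : ℕ) : ℝ) ^ c
  Nε : (F.L m : ℝ) ^ ε = ((2 ^ m : ℕ) : ℝ) ^ ι
  NM : 1 ≤ (F.L m : ℝ) ^ εM
  NM1 : (F.L m : ℝ) ^ εM ≤ ((2 ^ m : ℕ) : ℝ) ^ ι
  NM7 : 7 * (F.L m : ℝ) ^ εM ≤ (F.L m : ℝ) ^ κP
  /-- The length of the paths and the level of the clipping. -/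
  NL : ((2 ^ m : ℕ) : ℝ) ^ 6 ≤ F.L m
  BI : F.B m ≤ ((2 ^ m : ℕ) : ℝ) ^ ι
  b0p : ∀ p : ℕ, δ * m ≤ p → F.b0 m p ≤ 2 ^ p ∧ ((2 ^ p : ℕ) : ℝ) ≤ ((2 ^ m : ℕ) : ℝ) ^ (2 * ι) * F.b0 m p
  /-- The widths. -/
  wn : wd' μ s (2 ^ m) ≤ ((2 ^ m : ℕ) : ℝ) ^ ϵ * EE μ s (2 ^ m) ^ 2
  Kw1 : 1 ≤ Kw
  wK : ∀ k k' : ℕ, 1 ≤ k → k ≤ k' → wd' μ s k ≤ Kw * wd' μ s k'
  wd : ∀ r : ℕ, ((2 ^ m : ℕ) : ℝ) ^ δ ≤ r → wd' μ s r = w r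
  /-- Constants. -/
  n16 : 16 ≤ ((2 ^ m : ℕ) : ℝ) ^ c
  n240 : 240 ≤ ((2 ^ m : ℕ) : ℝ) ^ ι
  nKw : 560 * Kw ^ 2 ≤ ((2 ^ m : ℕ) : ℝ) ^ ι
  nϵ : 64 ≤ ((2 ^ m : ℕ) : ℝ) ^ ϵ
  /-- Errors. -/
  erP : ((2 ^ m : ℕ) : ℝ) * er (F.L m) cP ≤ 1
  erC : Real.exp (-(F.L m : ℝ) ^ cC) ≤ ((2 ^ m : ℕ) : ℝ) ^ (-8 : ℝ)

end

end Pool.Agent.W_7d29a1_C0.T72
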