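import Pool.Agent.W_7d29a1_C0.TL72
import Pool.Agent.W_7d29a1_C0.EstC46

/-!
CURV0 (MP_7d29a1_pr), leaf (T), THE LAST NUMBERS OF A LEVEL AND OF THE JUMP (helper72): from the conclusion of `levN72` to the shape
`kp46 √V + n⁻¹` of `TiN57`, `TjN57`. `fin72`: from the squares; `alpha72`: the square of the factor of the own pairs.
-/

set_option autoImplicit false

namespace Pool.Agent.W_7d29a1_C0.T72

open Finset MeasureTheory Filter Topology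
open Pool.Agent.W_7d29a1_C0
open Pool.Agent.W_7d29a1_C0.EstC46 (kp46)

noncomputable section

/-- The factor of the own pairs, squared. -/
theorem alpha72 {N : ℕ} (hN : 1 ≤ N) {ε B R : ℝ} (hR : 0 ≤ R) (n : ℕ) :
    (B ^ 2 * gn72 N ε B R n * (N : ℝ) ^ ε) ^ 2 = 35 / 4 * B ^ 6 * (N : ℝ) ^ (4 * ε) * (R / n) := by
  have hN0 : (0 : ℝ) < N := by exact_mod_cast hN
  have h1 : 0 ≤ 7 * ((5 : ℕ) : ℝ) * R * (B / 2) ^ 2 / n := by positivity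
  have e1 : (N : ℝ) ^ (4 * ε) = ((N : ℝ) ^ ε) ^ 4 := by
    rw [← Real.rpow_natCast ((N : ℝ) ^ ε) 4, ← Real.rpow_mul hN0.le]
    congr 1
    push_cast
    ring
  unfold gn72
  have h2 : (B ^ 2 * ((N : ℝ) ^ ε * √(7 * ((5 : ℕ) : ℝ) * R * (B / 2) ^ 2 / n)) * (N : ℝ) ^ ε) ^ 2 =
      B ^ 4 * ((N : ℝ) ^ ε) ^ 4 * (√(7 * ((5 : ℕ) : ℝ) * R * (B / 2) ^ 2 / n)) ^ 2 := by ring
  rw [h2, Real.sq_sqrt h1, e1]
  push_cast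
  ring

/-- One factor: `α √(8 s Σ) √(2 V) ≤ (kp / 2) √V`. -/
theorem half72 {Θ x α T0 V s : ℝ} {m q : ℕ} (hα : 0 ≤ α) (hT0 : 0 ≤ T0) (hV : 0 ≤ V) (hs0 : 0 ≤ s) (hs : s ≤ 2 ^ q)
    (h0 : α ^ 2 * T0 ≤ ((2 ^ m : ℕ) : ℝ) ^ (Θ - 2 * x) / 64) :
    α * √(8 * s * T0) * √(2 * V) ≤ kp46 Θ x m q / 2 * √V := by
  have hN0 : (0 : ℝ) < ((2 ^ m : ℕ) : ℝ) := by positivity
  have gen : ∀ {a X Y : ℝ}, 0 ≤ a → 0 ≤ X → a * √X * √Y = √(a ^ 2 * X * Y) := fun {a X Y} ha hX => by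
    rw [Real.sqrt_mul (by positivity), Real.sqrt_mul (by positivity), Real.sqrt_sq ha]
  have e1 : α * √(8 * s * T0) * √(2 * V) = √(16 * s * (α ^ 2 * T0) * V) := by
    rw [gen hα (by positivity)]
    congr 1
    ring
  have e2 : kp46 Θ x m q / 2 * √V = √((((2 ^ m : ℕ) : ℝ) ^ (-x) / 2) ^ 2 * (2 ^ q * ((2 ^ m : ℕ) : ℝ) ^ Θ) * V) := by
    rw [← gen (by positivity) (by positivity)]
    unfold kp46
    ring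
  rw [e1, e2]
  refine Real.sqrt_le_sqrt ?_
  have e3 : (((2 ^ m : ℕ) : ℝ) ^ (-x) / 2) ^ 2 * (2 ^ q * ((2 ^ m : ℕ) : ℝ) ^ Θ) * V =
      16 * 2 ^ q * (((2 ^ m : ℕ) : ℝ) ^ (Θ - 2 * x) / 64) * V := by
    have e4 : ((2 ^ m : ℕ) : ℝ) ^ (Θ - 2 * x) = ((2 ^ m : ℕ) : ℝ) ^ (-x) * ((2 ^ m : ℕ) : ℝ) ^ (-x) * ((2 ^ m : ℕ) : ℝ) ^ Θ := by
      rw [← Real.rpow_add hN0, ← Real.rpow_add hN0]
      congr 1
      ring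
    rw [e4]
    ring
  rw [e3]
  have h1 : 0 ≤ α ^ 2 * T0 := by positivity
  gcongr

/-- **FROM THE SQUARES TO THE SHAPE OF THE LEAVES.** -/
theorem fin72 {Θ x α A2 T0 T1 V s err X : ℝ} {m q : ℕ} (hα : 0 ≤ α) (hA : 0 ≤ A2) (hT0 : 0 ≤ T0) (hT1 : 0 ≤ T1) (hV : 0 ≤ V)
    (hs0 : 0 ≤ s) (hs : s ≤ 2 ^ q) (h0 : α ^ 2 * T0 ≤ ((2 ^ m : ℕ) : ℝ) ^ (Θ - 2 * x) / 64)
    (h1 : A2 ^ 2 * T1 ≤ ((2 ^ m : ℕ) : ℝ) ^ (Θ - 2 * x) / 64) (he : err ≤ ((2 ^ m : ℕ) : ℝ)⁻¹)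
    (hX : X ≤ (α * √(8 * s * T0) + A2 * √(8 * s * T1)) * √(2 * V) + err) :
    X ≤ kp46 Θ x m q * √V + ((2 ^ m : ℕ) : ℝ)⁻¹ := by
  have a1 := half72 (Θ := Θ) (x := x) (m := m) (q := q) hα hT0 hV hs0 hs h0
  have a2 := half72 (Θ := Θ) (x := x) (m := m) (q := q) hA hT1 hV hs0 hs h1
  linarith

end

end Pool.Agent.W_7d29a1_C0.T72
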