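import Pool.Agent.W_7d29a1_C0.TNp57

/-!
CURV0 (MP_7d29a1_pr), leaf (T), THE NUMBERS OF THE JUMP (helper72): the own pairs `top1_72` (sum of `phOt` of PT93E against the slab in the
cone) and the micro pairs `top2_72` (sum of `phMt`).
-/

set_option autoImplicit false
set_option linter.unusedVariables false

namespace Pool.Agent.W_7d29a1_C0.T72

open Finset MeasureTheory Pool.Agent.W_7d29a1_C0 Pool.Agent.W_7d29a1_C0.TN57
open Pool.Agent.W_7d29a1_C0.T93 (phOt phMt phN pc er pc_nonneg er_nonneg)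
open Pool.Agent.W_7d29a1_HZ (wd' EE')

noncomputable section

variable {E w : ℕ → ℝ} {c₀ Θ δ a ε n c : ℝ} {b s r l : ℕ}

/-- The unit at the scale `l ≥ n ^ (1 - 3 η)`. -/
theorem unit72 (R : Reg46 E w c₀ Θ δ a ε n) (hl : 1 ≤ l) (hlr : l ≤ r) (hrn : (r : ℝ) ≤ n) {η : ℝ} (hl0 : n ^ (1 - 3 * η) ≤ l) :
    E r ≤ n ^ (ε + 3 * η / 2) * E l := by
  have hn0 := R.N0
  have hl' : (0 : ℝ) < l := by exact_mod_cast hl
  have hE := R.Epos r
  have hE' := R.Epos l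
  refine of_lg46 R.N1 hE (by positivity) ?_
  rw [Real.logb_mul (by positivity) hE'.ne', lgN46 R.N1]
  have h1 := R.lhalf hl hlr
  have hr' : (0 : ℝ) < r := by exact_mod_cast (show 0 < r by omega)
  have h2 := to_lg46 R.N1 hr' hrn
  rw [lgNN46 R.N1] at h2
  have h3 := to_lg46 R.N1 (by positivity) hl0
  rw [lgN46 R.N1] at h3
  linarith

/-! ### The own pairs -/

/-- **The sum of `phOt` over the distances.** -/
theorem phOt_sum72 (R : Reg46 E w c₀ Θ δ a ε n) (μ : Measure ℝ) (s' : ℝ) (N : ℕ) (ε' c' : ℝ) (tr tl Df r : ℕ)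
    (hE : ∀ t, EE' μ s' t = E t) (hDf : 1 ≤ Df) (hDr : Df ≤ r) :
    ∑ D ∈ range r, phOt μ s' N ε' c' tr tl Df D ≤ Df * (pc μ s' N ε' tr * pc μ s' N ε' tl) +
      r * (pc μ s' N ε' tr * pc μ s' N ε' tl * pc μ s' N ε' tl) + pc μ s' N ε' tr * (N : ℝ) ^ ε' * (3 * n ^ ε * (r / E r)) +
      r * (2 * er N c') := by
  have h1 := pc_nonneg (μ := μ) (s := s') N ε' tr
  have h2 := pc_nonneg (μ := μ) (s := s') N ε' tl
  have h3 := er_nonneg N c'
  have hNe : 0 ≤ (N : ℝ) ^ ε' := Real.rpow_nonneg (Nat.cast_nonneg _) _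
  have hn0 := R.N0
  have h4 : ∀ D ∈ range r, phOt μ s' N ε' c' tr tl Df D ≤ (if D < Df then pc μ s' N ε' tr * pc μ s' N ε' tl else 0) +
      (pc μ s' N ε' tr * pc μ s' N ε' tl * pc μ s' N ε' tl + pc μ s' N ε' tr * (N : ℝ) ^ ε' * (1 / E (max D Df)) +
        2 * er N c') := fun D _ => by
    have h5 : 0 ≤ pc μ s' N ε' tr * pc μ s' N ε' tl * pc μ s' N ε' tl := by positivity
    have hEm := R.Epos (max D Df)
    have h6 : 0 ≤ pc μ s' N ε' tr * (N : ℝ) ^ ε' * (1 / E (max D Df)) := by positivity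
    unfold phOt
    split_ifs with hD
    · linarith
    · have h7 : pc μ s' N ε' tr * pc μ s' N ε' D = pc μ s' N ε' tr * (N : ℝ) ^ ε' * (1 / E (max D Df)) := by
        rw [max_eq_left (by omega)]
        unfold pc
        rw [hE D, one_div]
        ring
      rw [h7]
      linarith
  refine (sum_le_sum h4).trans ?_
  rw [sum_add_distrib, sum_add_distrib, sum_add_distrib, sum_const, card_range, nsmul_eq_mul, sum_const, card_range, nsmul_eq_mul,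
    ← mul_sum]
  have h5 := near_sum57 r Df (mul_nonneg h1 h2)
  have h6 : pc μ s' N ε' tr * (N : ℝ) ^ ε' * ∑ D ∈ range r, 1 / E (max D Df) ≤
      pc μ s' N ε' tr * (N : ℝ) ^ ε' * (3 * n ^ ε * (r / E r)) :=
    mul_le_mul_of_nonneg_left (GS4.sum_inv_le (E := E) R.Epos (by positivity) R.half hDf hDr) (by positivity)
  linarith

/-- **The own pairs of the jump.** -/
theorem top1_72 {n : ℕ} (R : Reg46 E w c₀ Θ δ a ε (n : ℝ)) (hr : Rg46 δ n r) (hl : 1 ≤ l) (hlr : l ≤ r) {η e₀ Wc : ℝ}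
    (hη : 0 ≤ η) (hl0 : (n : ℝ) ^ (1 - 3 * η) ≤ l) (hWc : 0 < Wc) (hW : Wc ≤ (n : ℝ) ^ e₀ * E n ^ 2)
    {μ : Measure ℝ} {s' : ℝ} {N : ℕ} {ε' c' e e' c₁ G : ℝ} {tr tl : ℕ} (hE : ∀ t, EE' μ s' t = E t) (he : 0 ≤ e)
    (he₀ : 0 ≤ e₀) (hN : (N : ℝ) ^ ε' ≤ (n : ℝ) ^ e) (hrt : (E tr)⁻¹ ≤ (n : ℝ) ^ e * (E r)⁻¹)
    (hlt : (E tl)⁻¹ ≤ (n : ℝ) ^ e * (E l)⁻¹) (her : (r : ℝ) * er N c' ≤ 1) (hG0 : 0 ≤ G) (hG : G ≤ (n : ℝ) ^ e' * (Wc / l))
    (q1 : c₁ + e₀ + e' + 6 * e + 4 * ε + 6 * η ≤ Θ) :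
    G * ∑ D ∈ range r, phOt μ s' N ε' c' tr tl l D ≤ (n : ℝ) ^ (Θ - c₁) := by
  have hn0 := R.N0
  have hn1 := R.N1
  have hEr := R.Epos r
  have hEl := R.Epos l
  have hEn := R.Epos n
  have hε := R.ε0
  have hl' : (0 : ℝ) < l := by exact_mod_cast hl
  have q0 := pc_nonneg (μ := μ) (s := s') N ε' tr
  have q2 := pc_nonneg (μ := μ) (s := s') N ε' tl
  have q3 := er_nonneg N c'
  have hNe : 0 ≤ (N : ℝ) ^ ε' := Real.rpow_nonneg (Nat.cast_nonneg _) _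
  obtain ⟨A, hA⟩ : ∃ A, A = (n : ℝ) ^ e := ⟨_, rfl⟩
  have hA1 : 1 ≤ A := by
    rw [hA]
    exact Real.one_le_rpow hn1.le he
  have hA0 : 0 < A := by linarith
  have hAp : ∀ k : ℕ, A ^ k = (n : ℝ) ^ (k * e) := fun k => by
    rw [hA, ← Real.rpow_natCast, ← Real.rpow_mul hn0.le]
    ring_nf
  have p : ∀ {t u : ℕ}, (E t)⁻¹ ≤ (n : ℝ) ^ e * (E u)⁻¹ → pc μ s' N ε' t ≤ A ^ 2 * (E u)⁻¹ := fun {t u} h => by
    have h1 := R.Epos t
    have h2 := R.Epos u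
    unfold pc
    rw [hE, hA]
    calc (N : ℝ) ^ ε' * (E t)⁻¹ ≤ (n : ℝ) ^ e * ((n : ℝ) ^ e * (E u)⁻¹) := mul_le_mul hN h (by positivity) (by positivity)
      _ = ((n : ℝ) ^ e) ^ 2 * (E u)⁻¹ := by ring
  have p1 := p hrt
  have p2 := p hlt
  rw [← hA] at hN
  have key := phOt_sum72 R μ s' N ε' c' tr tl l r hE hl hlr
  obtain ⟨x, hx⟩ : ∃ x, x = e₀ + 2 * ε + 6 * η := ⟨_, rfl⟩
  have hpx : 0 < (n : ℝ) ^ x := Real.rpow_pos_of_pos hn0 _
  have hpe : 0 < (n : ℝ) ^ ε := Real.rpow_pos_of_pos hn0 _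
  have hε1 : 1 ≤ (n : ℝ) ^ ε := Real.one_le_rpow hn1.le hε.le
  have m1 := (Tf70.t2 R hr (by omega) hlr hWc hW hl0).trans
    (Real.rpow_le_rpow_of_exponent_le hn1.le (show e₀ + 2 * ε + 3 * η ≤ x by linarith))
  have m2 := (Tf70.t4 R hr (by omega) hlr hWc hW hl0).trans
    (Real.rpow_le_rpow_of_exponent_le hn1.le (show e₀ + 2 * ε + 6 * η ≤ x by linarith))
  have m3 := (Tf70.t1 R hr (by omega) hWc hW hl0).trans
    (Real.rpow_le_rpow_of_exponent_le hn1.le (show e₀ + 2 * ε + 3 * η ≤ x by linarith))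
  have m4 : Wc / l ≤ (n : ℝ) ^ x := by
    refine le_pow46 hn1 (by positivity) ?_
    rw [Real.logb_div hWc.ne' hl'.ne']
    have h1 := to_lg46 R.N1 hWc hW
    simp (disch := positivity) only [Real.logb_mul, Real.logb_pow, Nat.cast_ofNat, lgN46 R.N1] at h1
    have h2 := to_lg46 R.N1 (by positivity) hl0
    rw [lgN46 R.N1] at h2
    have h3 := R.lhalf (hr.npos R.N1) (show r ≤ n by exact_mod_cast hr.hi)
    rw [lgNN46 R.N1] at h3
    have h4 := R.lst' hr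
    have hc0 : 0 < c₀ * δ := mul_pos R.c₀0 R.δ0
    linarith [R.lE0 r]
  have hP : pc μ s' N ε' tr * pc μ s' N ε' tl ≤ A ^ 4 * (1 / (E r * E l)) := by
    calc pc μ s' N ε' tr * pc μ s' N ε' tl ≤ (A ^ 2 * (E r)⁻¹) * (A ^ 2 * (E l)⁻¹) := mul_le_mul p1 p2 q2 (by positivity)
      _ = _ := by field_simp
  have hA6 : ∀ k ≤ 6, A ^ k ≤ A ^ 6 := fun k hk => pow_le_pow_right₀ hA1 hk
  have u1 : (l : ℝ) * (pc μ s' N ε' tr * pc μ s' N ε' tl) ≤ A ^ 6 * (l * (1 / (E r * E l))) := by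
    calc (l : ℝ) * (pc μ s' N ε' tr * pc μ s' N ε' tl) ≤ l * (A ^ 6 * (1 / (E r * E l))) := by
          refine mul_le_mul_of_nonneg_left (hP.trans (mul_le_mul_of_nonneg_right (hA6 4 (by norm_num)) (by positivity))) hl'.le
      _ = _ := by ring
  have u2 : (r : ℝ) * (pc μ s' N ε' tr * pc μ s' N ε' tl * pc μ s' N ε' tl) ≤ A ^ 6 * (r * (1 / (E r * E l ^ 2))) := by
    calc (r : ℝ) * (pc μ s' N ε' tr * pc μ s' N ε' tl * pc μ s' N ε' tl) ≤ r * (A ^ 4 * (1 / (E r * E l)) * (A ^ 2 * (E l)⁻¹)) :=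
          mul_le_mul_of_nonneg_left (mul_le_mul hP p2 q2 (by positivity)) (Nat.cast_nonneg _)
      _ = _ := by field_simp
  have u3 : pc μ s' N ε' tr * (N : ℝ) ^ ε' * (3 * (n : ℝ) ^ ε * (r / E r)) ≤
      3 * (n : ℝ) ^ ε * (A ^ 6 * (1 / E r * (r / E r))) := by
    calc pc μ s' N ε' tr * (N : ℝ) ^ ε' * (3 * (n : ℝ) ^ ε * (r / E r)) ≤ A ^ 2 * (E r)⁻¹ * A * (3 * (n : ℝ) ^ ε * (r / E r)) :=
          mul_le_mul_of_nonneg_right (mul_le_mul p1 hN hNe (by positivity)) (by positivity)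
      _ = 3 * (n : ℝ) ^ ε * (A ^ 3 * (1 / E r * (r / E r))) := by
          rw [one_div]
          ring
      _ ≤ _ := mul_le_mul_of_nonneg_left (mul_le_mul_of_nonneg_right (hA6 3 (by norm_num)) (by positivity)) (by positivity)
  have u4 : (r : ℝ) * (2 * er N c') ≤ A ^ 6 * 2 := by
    have h1 : (1 : ℝ) ≤ A ^ 6 := one_le_pow₀ hA1
    nlinarith
  have tot : ∑ D ∈ range r, phOt μ s' N ε' c' tr tl l D ≤
      A ^ 6 * (l * (1 / (E r * E l)) + r * (1 / (E r * E l ^ 2)) + 3 * (n : ℝ) ^ ε * (1 / E r * (r / E r)) + 2) := by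
    linarith
  have hT0 : 0 ≤ A ^ 6 * (l * (1 / (E r * E l)) + r * (1 / (E r * E l ^ 2)) + 3 * (n : ℝ) ^ ε * (1 / E r * (r / E r)) + 2) := by
    positivity
  have k7 : (7 : ℝ) ≤ (n : ℝ) ^ ε := by linarith [R.K]
  calc G * ∑ D ∈ range r, phOt μ s' N ε' c' tr tl l D
      ≤ (n : ℝ) ^ e' * (Wc / l) *
        (A ^ 6 * (l * (1 / (E r * E l)) + r * (1 / (E r * E l ^ 2)) + 3 * (n : ℝ) ^ ε * (1 / E r * (r / E r)) + 2)) :=
        (mul_le_mul_of_nonneg_left tot hG0).trans (mul_le_mul_of_nonneg_right hG hT0)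
    _ = (n : ℝ) ^ e' * (A ^ 6 * (l * ((Wc / l) / (E r * E l)) + r * ((Wc / l) / (E r * E l ^ 2)) +
        3 * (n : ℝ) ^ ε * ((Wc / l) / E r * (r / E r)) + 2 * (Wc / l))) := by ring
    _ ≤ (n : ℝ) ^ e' * (A ^ 6 * (7 * ((n : ℝ) ^ ε * (n : ℝ) ^ x))) := by
        refine mul_le_mul_of_nonneg_left (mul_le_mul_of_nonneg_left ?_ (by positivity)) (by positivity)
        have v1 : (n : ℝ) ^ x ≤ (n : ℝ) ^ ε * (n : ℝ) ^ x := le_mul_of_one_le_left hpx.le hε1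
        have v2 : 3 * (n : ℝ) ^ ε * ((Wc / l) / E r * (r / E r)) ≤ 3 * ((n : ℝ) ^ ε * (n : ℝ) ^ x) := by
          rw [mul_assoc]
          exact mul_le_mul_of_nonneg_left (mul_le_mul_of_nonneg_left m3 hpe.le) (by norm_num)
        linarith
    _ ≤ (n : ℝ) ^ e' * (A ^ 6 * ((n : ℝ) ^ ε * ((n : ℝ) ^ ε * (n : ℝ) ^ x))) :=
        mul_le_mul_of_nonneg_left (mul_le_mul_of_nonneg_left (mul_le_mul_of_nonneg_right k7 (by positivity)) (by positivity))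
          (by positivity)
    _ = (n : ℝ) ^ (e' + 6 * e + 2 * ε + x) := by
        rw [hAp 6, ← Real.rpow_add hn0, ← Real.rpow_add hn0, ← Real.rpow_add hn0, ← Real.rpow_add hn0]
        congr 1
        push_cast
        ring
    _ ≤ _ := Real.rpow_le_rpow_of_exponent_le hn1.le (by rw [hx]; linarith)

/-! ### The micro pairs -/

/-- **The sum of `phMt` over the distances.** -/
theorem phMt_sum72 (R : Reg46 E w c₀ Θ δ a ε n) (μ : Measure ℝ) (s' : ℝ) (N : ℕ) (ε' c' : ℝ) (tr tl tb b0 q0 Df r : ℕ)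
    (hE : ∀ t, EE' μ s' t = E t) (hq : 1 ≤ q0) (hb0 : 1 ≤ b0) (hbD : b0 ≤ Df) :
    ∑ D ∈ range r, phMt μ s' N ε' c' tr tl tb b0 q0 Df D ≤
      4 * b0 * (6 * q0 * (pc μ s' N ε' tr * pc μ s' N ε' tl * pc μ s' N ε' tb)) +
      Df * ((6 * q0) ^ 2 * (pc μ s' N ε' tr * pc μ s' N ε' tl * pc μ s' N ε' tb * pc μ s' N ε' tb)) +
      6 * q0 * (pc μ s' N ε' tr * pc μ s' N ε' tl) * (N : ℝ) ^ ε' * (3 * n ^ ε * (Df / E Df)) +
      r * ((6 * q0) ^ 2 * (pc μ s' N ε' tr * pc μ s' N ε' tl * pc μ s' N ε' tb * pc μ s' N ε' tb)) +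
      r * (2 * (6 * q0) ^ 2 * er N c') := by
  have a1 := pc_nonneg (μ := μ) (s := s') N ε' tr
  have a2 := pc_nonneg (μ := μ) (s := s') N ε' tl
  have a3 := pc_nonneg (μ := μ) (s := s') N ε' tb
  have a4 := er_nonneg N c'
  have hq1 : (1 : ℝ) ≤ q0 := by exact_mod_cast hq
  have hNe : 0 ≤ (N : ℝ) ^ ε' := Real.rpow_nonneg (Nat.cast_nonneg _) _
  have hn0 := R.N0
  obtain ⟨P, hP⟩ : ∃ P, P = pc μ s' N ε' tr * pc μ s' N ε' tl := ⟨_, rfl⟩
  have hP0 : 0 ≤ P := by rw [hP]; positivity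
  have h6 : (6 : ℝ) * q0 ≤ (6 * q0) ^ 2 := by nlinarith
  have key : ∀ D ∈ range r, phMt μ s' N ε' c' tr tl tb b0 q0 Df D ≤
      (if D < 4 * b0 then 6 * q0 * (P * pc μ s' N ε' tb) else 0) +
      (if D < Df then (6 * q0) ^ 2 * (P * pc μ s' N ε' tb * pc μ s' N ε' tb) else 0) +
      (if D < Df then 6 * q0 * P * (N : ℝ) ^ ε' * (1 / E (max D b0)) else 0) +
      ((6 * q0) ^ 2 * (P * pc μ s' N ε' tb * pc μ s' N ε' tb) + 2 * (6 * q0) ^ 2 * er N c') := fun D _ => by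
    have hEm := R.Epos (max D b0)
    have b1 : 0 ≤ 6 * q0 * (P * pc μ s' N ε' tb) := by positivity
    have b2 : 0 ≤ (6 * q0) ^ 2 * (P * pc μ s' N ε' tb * pc μ s' N ε' tb) := by positivity
    have b3 : 0 ≤ 6 * q0 * P * (N : ℝ) ^ ε' * (1 / E (max D b0)) := by positivity
    have b4 : 0 ≤ (6 * q0) ^ 2 * (P * pc μ s' N ε' tb * pc μ s' N ε' tb) := by positivity
    have b5 : 6 * q0 * er N c' ≤ (6 * q0) ^ 2 * er N c' := mul_le_mul_of_nonneg_right h6 a4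
    have b6 : 0 ≤ (6 * q0) ^ 2 * er N c' := by positivity
    unfold phMt
    rw [← hP]
    by_cases h1 : D < 4 * b0
    · rw [if_pos h1, if_pos h1]
      have b7 : 0 ≤ (if D < Df then (6 * q0) ^ 2 * (P * pc μ s' N ε' tb * pc μ s' N ε' tb) else 0) := by
        split_ifs <;> linarith
      have b8 : 0 ≤ (if D < Df then 6 * q0 * P * (N : ℝ) ^ ε' * (1 / E (max D b0)) else 0) := by
        split_ifs <;> linarith
      linarith
    · rw [if_neg h1, if_neg h1]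
      by_cases h2 : D < Df
      · rw [if_pos h2, if_pos h2, if_pos h2]
        unfold phN
        rw [← hP]
        have h3 : max D b0 = D := max_eq_left (by omega)
        have h4 : 6 * q0 * (P * pc μ s' N ε' D) = 6 * q0 * P * (N : ℝ) ^ ε' * (1 / E (max D b0)) := by
          rw [h3]
          unfold pc
          rw [hE, one_div]
          ring
        rw [← h4]
        linarith
      · rw [if_neg h2, if_neg h2, if_neg h2]
        linarith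
  refine (sum_le_sum key).trans ?_
  rw [sum_add_distrib, sum_add_distrib, sum_add_distrib, sum_const, card_range, nsmul_eq_mul]
  have s1 := near_sum57 r (4 * b0) (show 0 ≤ 6 * q0 * (P * pc μ s' N ε' tb) by positivity)
  have s2 := near_sum57 r Df (show 0 ≤ (6 * q0) ^ 2 * (P * pc μ s' N ε' tb * pc μ s' N ε' tb) by positivity)
  have s3 : ∑ D ∈ range r, (if D < Df then 6 * q0 * P * (N : ℝ) ^ ε' * (1 / E (max D b0)) else 0) ≤
      6 * q0 * P * (N : ℝ) ^ ε' * (3 * n ^ ε * (Df / E Df)) := by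
    rw [← sum_filter, ← mul_sum]
    refine mul_le_mul_of_nonneg_left ?_ (by positivity)
    refine le_trans ?_ (GS4.sum_inv_le (E := E) R.Epos (by positivity) R.half hb0 hbD)
    refine sum_le_sum_of_subset_of_nonneg (fun D hD => mem_range.2 (mem_filter.1 hD).2) fun D _ _ => ?_
    have := R.Epos (max D b0)
    positivity
  push_cast at s1
  rw [← hP]
  linarith

/-- **The micro pairs of the jump.** -/
theorem top2_72 (R : Reg46 E w c₀ Θ δ a ε n) (h : Bs46 E δ c n b s r) (hl : Rg46 δ n l) (hsl : s ≤ l) (hlr : l ≤ r)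
    {η : ℝ} (hη : 0 ≤ η) (hl0 : n ^ (1 - 3 * η) ≤ l) (hl1 : (l : ℝ) ≤ n ^ (1 - η)) {μ : Measure ℝ} {s' : ℝ} {N : ℕ} {ε' c' e e' c₁ G : ℝ} {tr tl tb b0 q0 : ℕ}
    (hE : ∀ t, EE' μ s' t = E t) (he : 0 ≤ e) (he' : 0 ≤ e') (hN : (N : ℝ) ^ ε' ≤ n ^ e) (hr : (E tr)⁻¹ ≤ n ^ e * (E r)⁻¹)
    (hlt : (E tl)⁻¹ ≤ n ^ e * (E l)⁻¹) (hbt : (E tb)⁻¹ ≤ n ^ e * (E b)⁻¹) (hq : 1 ≤ q0) (hqn : 6 * (q0 : ℝ) ≤ n ^ e)
    (hb0 : 1 ≤ b0) (hb0b : b0 ≤ b) (her : (r : ℝ) * er N c' ≤ 1) (hG0 : 0 ≤ G) (hG : G ≤ n ^ e')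
    (q1 : c₁ + e' + 12 * e + 4 * ε ≤ Θ) (q2 : c₁ + e' + 12 * e + 4 * ε ≤ Θ * η) (q3 : c₁ + e' + 12 * e + 4 * ε + 3 * η / 2 ≤ c) :
    G * ∑ D ∈ range r, phMt μ s' N ε' c' tr tl tb b0 q0 l D ≤ n ^ (Θ - c₁) := by
  have hn0 := R.N0
  have hn1 := R.N1
  have hEr := R.Epos r
  have hEl := R.Epos l
  have hEb := R.Epos b
  have hε := R.ε0
  have hδ := R.δ0
  have hl' := hl.pos hn1
  have hb' := h.hb.pos hn1
  have a1 := pc_nonneg (μ := μ) (s := s') N ε' tr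
  have a2 := pc_nonneg (μ := μ) (s := s') N ε' tl
  have a3 := pc_nonneg (μ := μ) (s := s') N ε' tb
  have a4 := er_nonneg N c'
  have hNe : 0 ≤ (N : ℝ) ^ ε' := Real.rpow_nonneg (Nat.cast_nonneg _) _
  obtain ⟨A, hA⟩ : ∃ A, A = n ^ e := ⟨_, rfl⟩
  have hA1 : 1 ≤ A := by
    rw [hA]
    exact Real.one_le_rpow hn1.le he
  have hA0 : 0 < A := by linarith
  have hAp : ∀ k : ℕ, A ^ k = n ^ (k * e) := fun k => by
    rw [hA, ← Real.rpow_natCast, ← Real.rpow_mul hn0.le]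
    ring_nf
  have p : ∀ {t u : ℕ}, (E t)⁻¹ ≤ n ^ e * (E u)⁻¹ → pc μ s' N ε' t ≤ A ^ 2 * (E u)⁻¹ := fun {t u} h => by
    have h1 := R.Epos t
    have h2 := R.Epos u
    unfold pc
    rw [hE, hA]
    calc (N : ℝ) ^ ε' * (E t)⁻¹ ≤ n ^ e * (n ^ e * (E u)⁻¹) := mul_le_mul hN h (by positivity) (by positivity)
      _ = (n ^ e) ^ 2 * (E u)⁻¹ := by ring
  have p1 := p hr
  have p2 := p hlt
  have p3 := p hbt
  rw [← hA] at hN hqn
  have hb0l : b0 ≤ l := hb0b.trans (h.bs.trans hsl)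
  have key := phMt_sum72 R μ s' N ε' c' tr tl tb b0 q0 l r hE hq hb0 hb0l
  have hQ0 : (0 : ℝ) ≤ 6 * q0 := by positivity
  have hP : pc μ s' N ε' tr * pc μ s' N ε' tl ≤ A ^ 4 * (1 / (E r * E l)) := by
    calc pc μ s' N ε' tr * pc μ s' N ε' tl ≤ (A ^ 2 * (E r)⁻¹) * (A ^ 2 * (E l)⁻¹) := mul_le_mul p1 p2 a2 (by positivity)
      _ = _ := by field_simp
  -- the exponent
  obtain ⟨x, hx⟩ : ∃ x, x = Θ - c₁ - e' - 12 * e - 2 * ε := ⟨_, rfl⟩
  have hpx : 0 < n ^ x := Real.rpow_pos_of_pos hn0 _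
  have hpe : 0 < n ^ ε := Real.rpow_pos_of_pos hn0 _
  have m1 := (j1_57 R (h.hb.npos hn1) (h.bs.trans hsl) hl hlr hη hl1).trans
    (Real.rpow_le_rpow_of_exponent_le hn1.le (show Θ - Θ * η + 2 * ε ≤ x by linarith))
  have m2 := (Tf70.i2 R h hl hlr).trans (Real.rpow_le_rpow_of_exponent_le hn1.le (show Θ - c + 2 * ε ≤ x by linarith))
  have m3 := (Tf70.i3 R (r := r) hl hlr hη hl1).trans
    (Real.rpow_le_rpow_of_exponent_le hn1.le (show Θ - Θ * η + ε ≤ x by linarith))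
  have m4 : (r : ℝ) * ((1 / E b ^ 2) / (E r * E l)) ≤ n ^ x := by
    have k1 := unit72 R (hl.npos hn1) hlr h.hr.hi hl0
    have k2 : 1 / E l ≤ n ^ (ε + 3 * η / 2) * (1 / E r) := by
      rw [div_le_iff₀ hEl]
      calc (1 : ℝ) = E r * (1 / E r) := by field_simp
        _ ≤ (n ^ (ε + 3 * η / 2) * E l) * (1 / E r) := mul_le_mul_of_nonneg_right k1 (by positivity)
        _ = _ := by ring
    have k3 := Tf70.t5 R h
    calc (r : ℝ) * ((1 / E b ^ 2) / (E r * E l)) = ((1 / E b ^ 2) * (r / E r)) * (1 / E l) := by field_simp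
      _ ≤ ((1 / E b ^ 2) * (r / E r)) * (n ^ (ε + 3 * η / 2) * (1 / E r)) :=
          mul_le_mul_of_nonneg_left k2 (by positivity)
      _ = n ^ (ε + 3 * η / 2) * (((1 / E b ^ 2) / E r) * ((r : ℝ) / E r)) := by ring
      _ ≤ n ^ (ε + 3 * η / 2) * n ^ (Θ + ε - c) := mul_le_mul_of_nonneg_left k3 (by positivity)
      _ = n ^ (Θ + 2 * ε + 3 * η / 2 - c) := by
          rw [← Real.rpow_add hn0]
          congr 1
          ring
      _ ≤ n ^ x := Real.rpow_le_rpow_of_exponent_le hn1.le (by linarith)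
  have m5 : (1 : ℝ) ≤ n ^ x := Real.one_le_rpow hn1.le (by linarith)
  have hA12 : ∀ k ≤ 12, A ^ k ≤ A ^ 12 := fun k hk => pow_le_pow_right₀ hA1 hk
  have hε1 : 1 ≤ n ^ ε := Real.one_le_rpow hn1.le hε.le
  -- the five terms
  have t1 : 4 * b0 * (6 * q0 * (pc μ s' N ε' tr * pc μ s' N ε' tl * pc μ s' N ε' tb)) ≤ 4 * (A ^ 12 * n ^ x) := by
    have u1 : (b0 : ℝ) ≤ b := by exact_mod_cast hb0b
    calc 4 * b0 * (6 * q0 * (pc μ s' N ε' tr * pc μ s' N ε' tl * pc μ s' N ε' tb))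
        ≤ 4 * b * (A * ((A ^ 4 * (1 / (E r * E l))) * (A ^ 2 * (E b)⁻¹))) := by
          refine mul_le_mul (by linarith) (mul_le_mul hqn (mul_le_mul hP p3 a3 (by positivity)) (by positivity) hA0.le)
            (by positivity) (by positivity)
      _ = 4 * (A ^ 7 * ((b : ℝ) * (1 / (E r * E l * E b)))) := by
          field_simp
      _ ≤ 4 * (A ^ 12 * n ^ x) := by
          refine mul_le_mul_of_nonneg_left (mul_le_mul (hA12 7 (by norm_num)) m1 (by positivity) (by positivity)) (by norm_num)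
  have t2 : (l : ℝ) * ((6 * q0) ^ 2 * (pc μ s' N ε' tr * pc μ s' N ε' tl * pc μ s' N ε' tb * pc μ s' N ε' tb)) ≤ A ^ 12 * n ^ x := by
    calc (l : ℝ) * ((6 * q0) ^ 2 * (pc μ s' N ε' tr * pc μ s' N ε' tl * pc μ s' N ε' tb * pc μ s' N ε' tb))
        ≤ l * (A ^ 2 * ((A ^ 4 * (1 / (E r * E l))) * (A ^ 2 * (E b)⁻¹) * (A ^ 2 * (E b)⁻¹))) := by
          refine mul_le_mul_of_nonneg_left (mul_le_mul (pow_le_pow_left₀ hQ0 hqn 2)
            (mul_le_mul (mul_le_mul hP p3 a3 (by positivity)) p3 a3 (by positivity)) (by positivity) (by positivity))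
            (Nat.cast_nonneg _)
      _ = A ^ 10 * ((l : ℝ) * ((1 / E b ^ 2) / (E r * E l))) := by
          field_simp
      _ ≤ _ := mul_le_mul (hA12 10 (by norm_num)) m2 (by positivity) (by positivity)
  have t3 : 6 * q0 * (pc μ s' N ε' tr * pc μ s' N ε' tl) * (N : ℝ) ^ ε' * (3 * n ^ ε * (l / E l)) ≤
      3 * (n ^ ε * (A ^ 12 * n ^ x)) := by
    calc 6 * q0 * (pc μ s' N ε' tr * pc μ s' N ε' tl) * (N : ℝ) ^ ε' * (3 * n ^ ε * (l / E l))
        ≤ A * (A ^ 4 * (1 / (E r * E l))) * A * (3 * n ^ ε * (l / E l)) := by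
          refine mul_le_mul_of_nonneg_right (mul_le_mul (mul_le_mul hqn hP (by positivity) hA0.le) hN hNe (by positivity))
            (by positivity)
      _ = 3 * (n ^ ε * (A ^ 6 * ((1 / (E r * E l)) * ((l : ℝ) / E l)))) := by ring
      _ ≤ _ := by
          refine mul_le_mul_of_nonneg_left (mul_le_mul_of_nonneg_left
            (mul_le_mul (hA12 6 (by norm_num)) m3 (by positivity) (by positivity)) hpe.le) (by norm_num)
  have t4 : (r : ℝ) * ((6 * q0) ^ 2 * (pc μ s' N ε' tr * pc μ s' N ε' tl * pc μ s' N ε' tb * pc μ s' N ε' tb)) ≤ A ^ 12 * n ^ x := by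
    calc (r : ℝ) * ((6 * q0) ^ 2 * (pc μ s' N ε' tr * pc μ s' N ε' tl * pc μ s' N ε' tb * pc μ s' N ε' tb))
        ≤ r * (A ^ 2 * ((A ^ 4 * (1 / (E r * E l))) * (A ^ 2 * (E b)⁻¹) * (A ^ 2 * (E b)⁻¹))) := by
          refine mul_le_mul_of_nonneg_left (mul_le_mul (pow_le_pow_left₀ hQ0 hqn 2)
            (mul_le_mul (mul_le_mul hP p3 a3 (by positivity)) p3 a3 (by positivity)) (by positivity) (by positivity))
            (Nat.cast_nonneg _)
      _ = A ^ 10 * ((r : ℝ) * ((1 / E b ^ 2) / (E r * E l))) := by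
          field_simp
      _ ≤ _ := mul_le_mul (hA12 10 (by norm_num)) m4 (by positivity) (by positivity)
  have t5 : (r : ℝ) * (2 * (6 * q0) ^ 2 * er N c') ≤ 2 * (A ^ 12 * n ^ x) := by
    calc (r : ℝ) * (2 * (6 * q0) ^ 2 * er N c') = 2 * ((6 * (q0 : ℝ)) ^ 2 * (r * er N c')) := by ring
      _ ≤ 2 * (A ^ 2 * 1) := by
          refine mul_le_mul_of_nonneg_left (mul_le_mul (pow_le_pow_left₀ hQ0 hqn 2) her (by positivity) (by positivity))
            (by norm_num)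
      _ ≤ 2 * (A ^ 12 * n ^ x) := by
          refine mul_le_mul_of_nonneg_left (mul_le_mul (hA12 2 (by norm_num)) m5 zero_le_one (by positivity)) (by norm_num)
  have tot : ∑ D ∈ range r, phMt μ s' N ε' c' tr tl tb b0 q0 l D ≤ 11 * (n ^ ε * (A ^ 12 * n ^ x)) := by
    have u1 : A ^ 12 * n ^ x ≤ n ^ ε * (A ^ 12 * n ^ x) := le_mul_of_one_le_left (by positivity) hε1
    linarith
  have k11 : (11 : ℝ) ≤ n ^ ε := by linarith [R.K]
  calc G * ∑ D ∈ range r, phMt μ s' N ε' c' tr tl tb b0 q0 l D ≤ G * (11 * (n ^ ε * (A ^ 12 * n ^ x))) :=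
        mul_le_mul_of_nonneg_left tot hG0
    _ ≤ n ^ e' * (n ^ ε * (n ^ ε * (A ^ 12 * n ^ x))) :=
        mul_le_mul hG (mul_le_mul_of_nonneg_right k11 (by positivity)) (by positivity) (by positivity)
    _ = n ^ (Θ - c₁) := by
        rw [hAp 12, ← Real.rpow_add hn0, ← Real.rpow_add hn0, ← Real.rpow_add hn0, ← Real.rpow_add hn0]
        congr 1
        rw [hx]
        push_cast
        ring

end

end Pool.Agent.W_7d29a1_C0.T72
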