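import Pool.Agent.W_7d29a1_C0.TH72
import Pool.Agent.W_7d29a1_C0.TNt72
import Pool.Agent.W_7d29a1_C0.TNf72
import Pool.Agent.W_7d29a1_C0.TNg57

/-!
CURV0 (MP_7d29a1_pr), leaf (T), THE JUMP AT ONE LENGTH (helper72): `tj_one72` : `TjN57` from `TH72` and the conditions on the exponents.
-/

set_option autoImplicit false
set_option linter.unusedSectionVars false
set_option linter.unusedVariables false

namespace Pool.Agent.W_7d29a1_C0.T72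

open Finset MeasureTheory Filter Topology
open Pool.Agent.W_7d29a1_C0 Pool.Agent.W_7d29a1_C0.Mod92 Pool.Agent.W_7d29a1_C0.Swap57 Pool.Agent.W_7d29a1_C0.NM82
open Pool.Agent.W_7d29a1_F Pool.Agent.W_7d29a1_X
open Pool.Agent.W_7d29a1_H (sl EE)
open Pool.Agent.W_7d29a1_HZ (wd' EE')
open Pool.Agent.W_7d29a1_C0.InT57 (FV57)
open Pool.Agent.W_7d29a1_C0.CrA44 (ge)
open Pool.Agent.W_7d29a1_C0.T93 (PrN er phOt phMt phOt_nonneg phMt_nonneg own_prt mic_prt ml_LR72 Mc GT)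
open Pool.Agent.W_7d29a1_C0.Asm96 Pool.Agent.W_7d29a1_C0.EstC46 Pool.Agent.W_7d29a1_C0.TN57
open Pool.Agent.W_7d29a1_C0.GeoD36
open Pool.W7d29a1.C0 Pool.W7d29a1.C0.T72

noncomputable section

variable {μ : Measure ℝ} {s : ℝ} {F : Frm96} {w : ℕ → ℝ} {c₀ Θ δ a ϵ c ι κ ε εM κP cP cC Kw η x c₁ : ℝ} {m : ℕ}

/-! ### The numbers -/

/-- The lengths: `x = xx ρ u`. -/
theorem num72 (H : TH72 μ s F w c₀ Θ δ a ϵ c ι κ ε εM κP cP cC Kw m) (hc : 0 < c) (hcδ : 64 * c ≤ δ) (hϵ : ϵ ≤ c / 4)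
    (hι0 : 0 < ι) (hι : ι ≤ c) {p q u : ℕ} (hst : St96 (EE μ s) δ c m p q) (h1 : sg96 (EE μ s) c m p ≤ u) (h2 : u ≤ q) :
    Bs46 (EE μ s) δ c ((2 ^ m : ℕ) : ℝ) (2 ^ p) (2 ^ sg96 (EE μ s) c m p) (2 ^ q) ∧ Rg46 δ ((2 ^ m : ℕ) : ℝ) (2 ^ u) ∧
    ((2 ^ m : ℕ) : ℝ) ^ c + 2 ^ p ≤ xx (((2 ^ m : ℕ) : ℝ) ^ (-ι)) u ∧ F.b0 m p + 2 ≤ xx (((2 ^ m : ℕ) : ℝ) ^ (-ι)) u ∧
    (xx (((2 ^ m : ℕ) : ℝ) ^ (-ι)) u : ℝ) ≤ 2 ^ u / 4 ∧ (2 : ℝ) ^ u ≤ 8 * ((2 ^ m : ℕ) : ℝ) ^ ι * xx (((2 ^ m : ℕ) : ℝ) ^ (-ι)) u ∧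
    ((2 ^ m : ℕ) : ℝ) ^ c ≤ gl46 ι m q ∧ 4 * gl46 ι m q ≤ 2 ^ q ∧ (2 : ℝ) ^ q ≤ ((2 ^ m : ℕ) : ℝ) ^ (2 * ι) * ((4 * gl46 ι m q : ℕ) : ℝ) ∧
    ((2 ^ m : ℕ) : ℝ) ^ (16 * c) ≤ F.b0 m p ∧ F.b0 m p ≤ 2 ^ p ∧ ((2 ^ p : ℕ) : ℝ) ≤ ((2 ^ m : ℕ) : ℝ) ^ (2 * ι) * F.b0 m p := by
  have R := H.reg
  have hbs := bs46 R hc hcδ hst.hp hst.hps hst.hsq hst.hqm hst.leg hst.pin
  have n16 := H.n16
  have n240 := H.n240
  have hgl := gap46 R hϵ hbs hι n16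
  obtain ⟨b1, b2⟩ := H.b0p p hst.hp
  have hbx := bx57 (u := u) R hϵ hbs hι n16 (Nat.pow_le_pow_right two_pos h1)
  have hn1 := R.N1
  have hn0 := R.N0
  have hxl := xle57 (u := u) (n := ((2 ^ m : ℕ) : ℝ)) hn1.le hι0.le
  have hlx := lt_xx (((2 ^ m : ℕ) : ℝ) ^ (-ι)) u
  have hgl1 : (gl46 ι m q : ℝ) ≤ ((2 ^ m : ℕ) : ℝ) ^ (-ι) * 2 ^ q / 8 := Nat.floor_le (by positivity)
  have hgl2 : ((2 ^ m : ℕ) : ℝ) ^ (-ι) * 2 ^ q / 8 < gl46 ι m q + 1 := Nat.lt_floor_add_one _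
  have hblo := hbs.hb.lo
  obtain ⟨n, hn⟩ : ∃ n : ℝ, n = ((2 ^ m : ℕ) : ℝ) := ⟨_, rfl⟩
  obtain ⟨X, hX⟩ : ∃ X, X = xx (((2 ^ m : ℕ) : ℝ) ^ (-ι)) u := ⟨_, rfl⟩
  obtain ⟨g, hg⟩ : ∃ g, g = gl46 ι m q := ⟨_, rfl⟩
  have hqn := hbs.hr.hi
  have hbb := hbs.hb.lo
  rw [← hX] at hbx hxl hlx ⊢
  rw [← hg] at hgl hgl1 hgl2 ⊢
  rw [← hn] at n16 n240 hgl b2 hbx hn1 hn0 hlx hgl1 hgl2 hblo hqn hbb ⊢
  have hb1 : (1 : ℝ) ≤ ((2 ^ p : ℕ) : ℝ) := by exact_mod_cast Nat.one_le_two_pow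
  have hnc : (1 : ℝ) ≤ n ^ c := by linarith
  have hι1 : (1 : ℝ) ≤ n ^ ι := by linarith
  have hinv : n ^ (-ι) * n ^ ι = 1 := by
    rw [← Real.rpow_add hn0, neg_add_cancel, Real.rpow_zero]
  have hρ0 : 0 < n ^ (-ι) := Real.rpow_pos_of_pos hn0 _
  have hρ1 : n ^ (-ι) ≤ 1 := Real.rpow_le_one_of_one_le_of_nonpos hn1.le (by linarith)
  have hιc : n ^ ι ≤ n ^ c := Real.rpow_le_rpow_of_exponent_le hn1.le hι
  -- `x ≥ n ^ c + 2 ^ p`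
  have hx1 : n ^ c + 2 ^ p ≤ X := by
    have k1 : n ^ c + 1 ≤ n ^ (12 * c) := by
      calc n ^ c + 1 ≤ n ^ c * n ^ c := by nlinarith
        _ = n ^ (2 * c) := by
            rw [← Real.rpow_add hn0]
            ring_nf
        _ ≤ _ := Real.rpow_le_rpow_of_exponent_le hn1.le (by linarith)
    calc n ^ c + 2 ^ p ≤ (n ^ c + 1) * ((2 ^ p : ℕ) : ℝ) := by
          push_cast at hb1 ⊢
          nlinarith
      _ ≤ n ^ (12 * c) * ((2 ^ p : ℕ) : ℝ) := mul_le_mul_of_nonneg_right k1 (by linarith)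
      _ ≤ X := hbx
  have hX1 : 1 ≤ X := by
    have : (1 : ℝ) ≤ X := by
      have : (0 : ℝ) < 2 ^ p := by positivity
      linarith
    exact_mod_cast this
  have hX1' : (1 : ℝ) ≤ X := by exact_mod_cast hX1
  refine ⟨by rw [hn]; exact hbs, ⟨?_, ?_⟩, hx1, ?_, hxl, ?_, ?_, ?_, ?_, ?_, b1, b2⟩
  · refine hbb.trans ?_
    exact_mod_cast Nat.pow_le_pow_right two_pos (hst.hps.trans h1)
  · refine le_trans ?_ hqn
    exact_mod_cast Nat.pow_le_pow_right two_pos h2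
  · have k1 : (2 : ℝ) + 2 ^ p ≤ X := by linarith
    have k2 : 2 + 2 ^ p ≤ X := by exact_mod_cast k1
    omega
  · have k1 : n ^ (-ι) * 2 ^ u ≤ 8 * X := by linarith
    calc (2 : ℝ) ^ u = n ^ (-ι) * n ^ ι * 2 ^ u := by rw [hinv, one_mul]
      _ = n ^ ι * (n ^ (-ι) * 2 ^ u) := by ring
      _ ≤ n ^ ι * (8 * X) := mul_le_mul_of_nonneg_left k1 (by positivity)
      _ = _ := by ring
  · refine le_trans ?_ hgl
    have k1 : (1 : ℝ) ≤ 2 ^ sg96 (EE μ s) c m p := one_le_pow₀ one_le_two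
    calc n ^ c ≤ n ^ (5 * c) := Real.rpow_le_rpow_of_exponent_le hn1.le (by linarith)
      _ ≤ n ^ (5 * c) * 2 ^ sg96 (EE μ s) c m p := le_mul_of_one_le_right (by positivity) k1
  · have k1 : (4 : ℝ) * g ≤ 2 ^ q := by
      have : n ^ (-ι) * 2 ^ q ≤ 1 * (2 : ℝ) ^ q := mul_le_mul_of_nonneg_right hρ1 (by positivity)
      have h0 : (0 : ℝ) ≤ g := Nat.cast_nonneg _
      linarith
    exact_mod_cast k1
  · have k0 : (1 : ℝ) ≤ g := by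
      have h1 : n ^ c ≤ g := by
        refine le_trans ?_ hgl
        have k1 : (1 : ℝ) ≤ 2 ^ sg96 (EE μ s) c m p := one_le_pow₀ one_le_two
        calc n ^ c ≤ n ^ (5 * c) := Real.rpow_le_rpow_of_exponent_le hn1.le (by linarith)
          _ ≤ n ^ (5 * c) * 2 ^ sg96 (EE μ s) c m p := le_mul_of_one_le_right (by positivity) k1
      linarith
    have k1 : n ^ (-ι) * 2 ^ q ≤ 16 * g := by linarith
    have k2 : n ^ (2 * ι) = n ^ ι * n ^ ι := by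
      rw [← Real.rpow_add hn0]
      ring_nf
    rw [k2]
    push_cast
    calc (2 : ℝ) ^ q = n ^ (-ι) * n ^ ι * 2 ^ q := by rw [hinv, one_mul]
      _ = n ^ ι * (n ^ (-ι) * 2 ^ q) := by ring
      _ ≤ n ^ ι * (16 * g) := mul_le_mul_of_nonneg_left k1 (by positivity)
      _ = n ^ ι * 4 * (4 * g) := by ring
      _ ≤ n ^ ι * n ^ ι * (4 * g) := by
          refine mul_le_mul_of_nonneg_right (mul_le_mul_of_nonneg_left (by linarith) (by positivity)) (by positivity)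
  · have k1 : n ^ (16 * c) * n ^ (2 * ι) ≤ n ^ δ := by
      rw [← Real.rpow_add hn0]
      exact Real.rpow_le_rpow_of_exponent_le hn1.le (by linarith)
    have k2 : n ^ (2 * ι) * n ^ (16 * c) ≤ n ^ (2 * ι) * F.b0 m p := by
      linarith [hblo, b2]
    exact le_of_mul_le_mul_left k2 (by positivity)

/-- The rows of the jump at distance `≥ 2 ^ u`. -/
theorem farj72 {ρ : ℝ} {m' u zt : ℕ} {R : Finset ℕ} (hρ : 0 ≤ ρ) (hρ1 : ρ ≤ 1 / 2) (hR : R ⊆ Kr (2 ^ m') m' ρ) (hu : u ≤ m')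
    (hb : 2 ≤ xx ρ u) {j k : ℕ} (hj : j ∈ R) (hk : k ∈ R) (h1 : zz zt u j < zt) (h2 : zz zt u k < zt)
    (hjk : j + 2 ^ u ≤ k) : zz zt u j + (k - j) / 4 ≤ aa ρ zt u k ∧ aa ρ zt u k ≤ zt := by
  obtain ⟨f1, f2, f3⟩ := farj57 (b := 0) hρ hρ1 hR hu (by omega) hj hk h1 h2 hjk
  obtain ⟨b1, b2, b3⟩ := row_aa hρ (hR hk) hu h2
  refine ⟨?_, f3⟩
  have h3 := zz_le_en zt u j
  have h4 := en_eq u j
  have h5 := st_le u j
  have h6 : 0 < 2 ^ u := by positivity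
  rcases Nat.lt_or_ge (k - j) (2 * 2 ^ u) with h7 | h7
  · omega
  · omega

/-- `E ^ 2 ≤ r`. -/
theorem sqE72 {E w : ℕ → ℝ} {c₀ Θ δ a ε N : ℝ} {r : ℕ} (R : Reg46 E w c₀ Θ δ a ε N) (h : Rg46 δ N r) : E r ^ 2 ≤ r := by
  have hE := R.Epos r
  have hr := h.pos R.N1
  refine of_lg46 R.N1 (by positivity) hr ?_
  rw [Real.logb_pow]
  have h1 := R.lst' h
  have h2 := R.lE0 r
  have h3 : 0 < c₀ * δ := mul_pos R.c₀0 R.δ0
  push_cast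
  linarith

/-- The radius of the boxes of the jump is at most `N ^ 2`. -/
theorem rad72 [IsProbabilityMeasure μ] (H : TH72 μ s F w c₀ Θ δ a ϵ c ι κ ε εM κP cP cC Kw m) (hδ : δ ≤ 1) (hϵ : ϵ ≤ 1 / 4)
    (hι0 : 0 < ι) (hι : ι ≤ 1 / 8) : 1 ≤ 4 * ((2 ^ m : ℕ) : ℝ) ^ ι * Kw * wd' μ s (2 ^ m) ∧
    4 * ((2 ^ m : ℕ) : ℝ) ^ ι * Kw * wd' μ s (2 ^ m) ≤ (F.L m : ℝ) ^ 2 := by
  have R := H.reg
  have hn1 := R.N1
  have hn0 := R.N0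
  have h1 : 1 ≤ wd' μ s (2 ^ m) := le_max_left _ _
  have h2 := H.n240
  have h3 := H.Kw1
  have h4 := H.nKw
  have hr : Rg46 δ ((2 ^ m : ℕ) : ℝ) (2 ^ m) := ⟨by
    nth_rw 2 [← Real.rpow_one ((2 ^ m : ℕ) : ℝ)]
    exact Real.rpow_le_rpow_of_exponent_le hn1.le hδ, le_rfl⟩
  have h5 := sqE72 R hr
  have h6 := H.wn
  have h7 := H.NL
  have hE := R.Epos (2 ^ m)
  obtain ⟨n, hn⟩ : ∃ n : ℝ, n = ((2 ^ m : ℕ) : ℝ) := ⟨_, rfl⟩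
  rw [← hn] at hn1 hn0 h2 h4 h5 h6 h7 ⊢
  have hKw : Kw ≤ n ^ ι := by nlinarith
  have hW : wd' μ s (2 ^ m) ≤ n ^ ϵ * n := h6.trans (mul_le_mul_of_nonneg_left h5 (by positivity))
  constructor
  · have k1 : 1 ≤ n ^ ι * Kw := one_le_mul_of_one_le_of_one_le (by linarith) h3
    have k2 : 1 ≤ n ^ ι * Kw * wd' μ s (2 ^ m) := one_le_mul_of_one_le_of_one_le k1 h1
    have e : 4 * n ^ ι * Kw * wd' μ s (2 ^ m) = 4 * (n ^ ι * Kw * wd' μ s (2 ^ m)) := by ring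
    linarith
  · have k1 : 4 * n ^ ι * Kw * wd' μ s (2 ^ m) ≤ n ^ ι * n ^ ι * n ^ ι * (n ^ ϵ * n) := by
      refine mul_le_mul (mul_le_mul ?_ hKw (by linarith) (by positivity)) hW (by linarith) (by positivity)
      exact mul_le_mul_of_nonneg_right (by linarith) (by positivity)
    have k2 : n ^ ι * n ^ ι * n ^ ι * (n ^ ϵ * n) ≤ n ^ 6 := by
      calc n ^ ι * n ^ ι * n ^ ι * (n ^ ϵ * n) = n ^ ι * n ^ ι * n ^ ι * (n ^ ϵ * n ^ (1 : ℝ)) := by rw [Real.rpow_one]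
        _ = n ^ (ι + ι + ι + (ϵ + 1)) := by
            rw [← Real.rpow_add hn0, ← Real.rpow_add hn0, ← Real.rpow_add hn0, ← Real.rpow_add hn0]
        _ ≤ n ^ (6 : ℝ) := Real.rpow_le_rpow_of_exponent_le hn1.le (by linarith)
        _ = n ^ 6 := by
            rw [← Real.rpow_natCast]
            norm_num
    have k3 : (F.L m : ℝ) ≤ (F.L m : ℝ) ^ 2 := by
      have : (1 : ℝ) ≤ F.L m := by
        have : 1 ≤ n ^ 6 := one_le_pow₀ hn1.le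
        linarith
      nlinarith
    linarith

/-- The error of the far part and of the micro terms. -/
theorem err72 (H : TH72 μ s F w c₀ Θ δ a ϵ c ι κ ε εM κP cP cC Kw m) (hι0 : 0 < ι) (hι : ι ≤ 1 / 8) {D k : ℝ} (hD0 : 0 ≤ D)
    (hD : D ≤ ((2 ^ m : ℕ) : ℝ) ^ 3) (hk0 : 0 ≤ k) (hk : k ≤ ((2 ^ m : ℕ) : ℝ)) :
    F.B m ^ 3 * (F.L m : ℝ) ^ ε * (k * (8 * D * Real.exp (-(F.L m : ℝ) ^ cC))) +
      k * (2 * (F.L m : ℝ) ^ (-1 : ℝ) + (F.L m : ℝ) ^ (-1 : ℝ)) ≤ ((2 ^ m : ℕ) : ℝ)⁻¹ := by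
  have hn1 := H.reg.N1
  have hn0 := H.reg.N0
  have h1 := H.BI
  have h2 := H.erC
  have h3 := H.NL
  have h4 := H.n240
  have h5 : 0 ≤ F.B m := zero_le_one.trans H.ok.hB
  have h6 := Real.exp_pos (-(F.L m : ℝ) ^ cC)
  rw [H.Nε]
  obtain ⟨n, hn⟩ : ∃ n : ℝ, n = ((2 ^ m : ℕ) : ℝ) := ⟨_, rfl⟩
  rw [← hn] at hn1 hn0 h1 h2 h3 h4 hD hk ⊢
  have hn8 : 240 ≤ n ^ (1 / 8 : ℝ) := h4.trans (Real.rpow_le_rpow_of_exponent_le hn1.le hι)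
  have hn16 : 16 ≤ n := by
    have : n ^ (1 / 8 : ℝ) ≤ n ^ (1 : ℝ) := Real.rpow_le_rpow_of_exponent_le hn1.le (by norm_num)
    rw [Real.rpow_one] at this
    linarith
  have hB3 : F.B m ^ 3 * n ^ ι ≤ n := by
    calc F.B m ^ 3 * n ^ ι ≤ (n ^ ι) ^ 3 * n ^ ι := mul_le_mul_of_nonneg_right (pow_le_pow_left₀ h5 h1 3) (by positivity)
      _ = n ^ (4 * ι) := by
          rw [← pow_succ, ← Real.rpow_natCast, ← Real.rpow_mul hn0.le]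
          norm_num
          ring_nf
      _ ≤ n ^ (1 : ℝ) := Real.rpow_le_rpow_of_exponent_le hn1.le (by linarith)
      _ = n := Real.rpow_one n
  have e8 : n ^ (-8 : ℝ) = (n ^ 8)⁻¹ := by
    rw [Real.rpow_neg hn0.le]
    congr 1
    rw [← Real.rpow_natCast]
    norm_num
  rw [e8] at h2
  have k1 : F.B m ^ 3 * n ^ ι * (k * (8 * D * Real.exp (-(F.L m : ℝ) ^ cC))) ≤ n * (n * (8 * n ^ 3 * (n ^ 8)⁻¹)) := by
    refine mul_le_mul hB3 (mul_le_mul hk (mul_le_mul (mul_le_mul_of_nonneg_left hD (by norm_num)) h2 h6.le (by positivity))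
      (by positivity) hn0.le) (by positivity) hn0.le
  have k2 : n * (n * (8 * n ^ 3 * (n ^ 8)⁻¹)) ≤ n⁻¹ / 2 := by
    have e : n * (n * (8 * n ^ 3 * (n ^ 8)⁻¹)) = 16 / n ^ 2 * (n⁻¹ / 2) := by
      field_simp
      norm_num
    rw [e]
    refine mul_le_of_le_one_left (by positivity) ?_
    rw [div_le_one (by positivity)]
    nlinarith
  have k3 : (F.L m : ℝ) ^ (-1 : ℝ) ≤ (n ^ 6)⁻¹ := by
    rw [Real.rpow_neg_one]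
    exact inv_anti₀ (by positivity) h3
  have k4 : k * (2 * (F.L m : ℝ) ^ (-1 : ℝ) + (F.L m : ℝ) ^ (-1 : ℝ)) ≤ n⁻¹ / 2 := by
    have h0 : 0 ≤ (F.L m : ℝ) ^ (-1 : ℝ) := Real.rpow_nonneg (Nat.cast_nonneg _) _
    calc k * (2 * (F.L m : ℝ) ^ (-1 : ℝ) + (F.L m : ℝ) ^ (-1 : ℝ)) ≤ n * (3 * (n ^ 6)⁻¹) :=
          mul_le_mul hk (by linarith) (by positivity) hn0.le
      _ = 6 / n ^ 4 * (n⁻¹ / 2) := by
          field_simp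
          norm_num
      _ ≤ n⁻¹ / 2 := by
          refine mul_le_of_le_one_left (by positivity) ?_
          rw [div_le_one (by positivity)]
          have : (1 : ℝ) ≤ n ^ 3 := one_le_pow₀ hn1.le
          nlinarith
  linarith

/-! ### The jump -/

/-- **THE JUMP AT ONE LENGTH.** -/
theorem tj_one72 [IsProbabilityMeasure μ] (H : TH72 μ s F w c₀ Θ δ a ϵ c ι κ ε εM κP cP cC Kw m) (hc : 0 < c) (hcδ : 64 * c ≤ δ)
    (hδ : δ ≤ 1) (hϵ : ϵ ≤ c / 4) (hι0 : 0 < ι) (hι : ι ≤ c) (hη : 0 < η) (hη2 : 2 ≤ ((2 ^ m : ℕ) : ℝ) ^ η)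
    (hx : 2 * x + ϵ ≤ c₁) (k1 : c₁ + 16 * ϵ + 32 * ι + 6 * η ≤ Θ) (k2 : c₁ + 16 * ϵ + 32 * ι ≤ Θ * (2 * η))
    (k3 : c₁ + 16 * ϵ + 32 * ι + 3 * η ≤ c) : TjN57 μ s F (EE μ s) Θ δ c x ι η m := by
  intro p q i hst hi D f hD hf zt hz u hu1 hu2 hu3 hu4 t ht
  have R := H.reg
  have hn1 := R.N1
  have hn0 := R.N0
  have hϵ0 := R.ε0
  obtain ⟨hbs, hrg, g1, g2, g3, g4, g5, g6, g7, g8, g9, g10⟩ :=
    num72 H hc hcδ hϵ hι0 hι hst hu1 (show u ≤ q by omega)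
  have n16 := H.n16
  have n240 := H.n240
  have hc164 : c ≤ 1 / 64 := by linarith
  have hι18 : ι ≤ 1 / 8 := by linarith
  obtain ⟨r1, r2⟩ := rad72 H hδ (by linarith) hι0 hι18
  obtain ⟨ρ, hρd⟩ : ∃ ρ : ℝ, ρ = ((2 ^ m : ℕ) : ℝ) ^ (-ι) := ⟨_, rfl⟩
  have hρ : 0 ≤ ρ := by rw [hρd]; positivity
  have hρ1 : ρ ≤ 1 / 2 := by
    rw [hρd, Real.rpow_neg hn0.le, inv_le_comm₀ (by positivity) (by norm_num)]
    linarith
  have hR := H.rows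
  rw [← hρd] at g1 g2 g3 g4 hR
  obtain ⟨X, hX⟩ : ∃ X, X = xx ρ u := ⟨_, rfl⟩
  have hqm := hst.hqm
  have hum : u ≤ m := by omega
  have hX2 : 2 ≤ xx ρ u := by omega
  have hnc1 : (1 : ℝ) ≤ ((2 ^ m : ℕ) : ℝ) ^ c := by linarith
  have hnι1 : (1 : ℝ) ≤ ((2 ^ m : ℕ) : ℝ) ^ ι := by linarith
  -- the block
  have hblk : (i + 1) * 2 ^ q ≤ 2 ^ m := by
    calc (i + 1) * 2 ^ q ≤ 2 ^ (m - q) * 2 ^ q := Nat.mul_le_mul_right _ hi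
      _ = 2 ^ m := by rw [← pow_add, Nat.sub_add_cancel hqm]
  have hLm := H.ok.hL
  have hblkN : (i + 1) * 2 ^ q ≤ F.L m := hblk.trans hLm
  have hgap := zs_gap57 hz
  have hzt : zt ≤ (i + 1) * 2 ^ q := by omega
  -- the rows
  obtain ⟨S, hSd⟩ : ∃ S, S = (Rw (F.R m) (i * 2 ^ q) ((i + 1) * 2 ^ q)).filter fun j => zz zt u j < zt := ⟨_, rfl⟩
  have hS : ∀ j ∈ S, j ∈ F.R m ∧ i * 2 ^ q ≤ j ∧ j < (i + 1) * 2 ^ q ∧ zz zt u j < zt := fun j hj => by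
    rw [hSd, mem_filter, mem_Rw57] at hj
    exact ⟨hj.1.1, hj.1.2.1, hj.1.2.2, hj.2⟩
  have hcard : (S.card : ℝ) ≤ 2 ^ q := by
    have h1 : S ⊆ Ico (i * 2 ^ q) (i * 2 ^ q + 2 ^ q) := fun j hj => by
      obtain ⟨_, a1, a2, _⟩ := hS j hj
      rw [mem_Ico]
      refine ⟨a1, ?_⟩
      have e : (i + 1) * 2 ^ q = i * 2 ^ q + 2 ^ q := by ring
      omega
    have h2 := card_le_card h1
    rw [Nat.card_Ico, Nat.add_sub_cancel_left] at h2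
    exact_mod_cast h2
  have hqn : (2 : ℝ) ^ q ≤ ((2 ^ m : ℕ) : ℝ) := by
    push_cast
    exact pow_le_pow_right₀ one_le_two hqm
  have hz' : ∀ j, zz zt u j ≤ (fun _ => zt : ℕ → ℕ) j ∧ (fun _ => zt : ℕ → ℕ) j ≤ zt := fun j => ⟨zz_le _ _ _, le_rfl⟩
  have hbx : 2 ^ p ≤ xx ρ u := by
    have : ((2 : ℝ) ^ p) ≤ xx ρ u := by linarith
    exact_mod_cast this
  have hgeo := fun j (hj : j ∈ S) => row57 (zt := zt) (R := F.R m) (b := 2 ^ p) hρ hR hum hbx (by omega) hz' (hS j hj).1 (hS j hj).2.2.2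
  have hjx : ∀ j ∈ S, 2 ^ p ≤ j := fun j hj => by
    have h1 := deepL hρ (hR (hS j hj).1) hum
    omega
  have hb0p1 : 1 ≤ F.b0 m p := by
    have h1 : (1 : ℝ) ≤ F.b0 m p := (Real.one_le_rpow hn1.le (by positivity)).trans g8
    exact_mod_cast h1
  -- `N`
  have hNκ := H.Nκ
  have hNε := H.Nε
  have hnN : ((2 ^ m : ℕ) : ℝ) ≤ F.L m := by exact_mod_cast hLm
  have hnNc : ((2 ^ m : ℕ) : ℝ) ^ c ≤ F.L m := by
    refine le_trans ?_ hnN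
    nth_rw 2 [← Real.rpow_one ((2 ^ m : ℕ) : ℝ)]
    exact Real.rpow_le_rpow_of_exponent_le hn1.le (by linarith)
  -- the micro numbers
  obtain ⟨M, hM⟩ : ∃ M, M = (F.L m : ℝ) ^ εM := ⟨_, rfl⟩
  have hM1 := H.NM
  have hM2 := H.NM1
  have hM7 := H.NM7
  rw [← hM] at hM1 hM2 hM7
  obtain ⟨q0, l0, m1, m2, m3, m4, m5, m6, m7⟩ := micnum57 hn1 hι0 hι hM1 hM2 g8 n240
  have hq01 : 1 ≤ q0 := by
    have : (1 : ℝ) ≤ q0 := by linarith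
    exact_mod_cast this
  -- the class
  obtain ⟨y0, hy0⟩ := H.ys0
  have hy0' := H.ok.hy y0 hy0
  have hD0 : 0 ≤ D := by
    obtain ⟨S0⟩ := ne_Pn hy0'
    exact (abs_nonneg _).trans (hf.bdd y0 (fun _ => 0, ∅) S0)
  have hDN : D ≤ (F.L m : ℝ) ^ 3 := hD.trans (pow_le_pow_left₀ hn0.le hnN 3)
  have ht1 : |t| ≤ 1 := abs_le.2 ⟨by linarith [ht.1], ht.2⟩
  have hB1 := H.ok.hB
  have hB0 : 0 ≤ F.B m := by linarith
  have hNe : 0 ≤ (F.L m : ℝ) ^ ε := Real.rpow_nonneg (Nat.cast_nonneg _) _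
  have e2p : ((2 ^ p : ℕ) : ℝ) = 2 ^ p := by norm_num
  have e2u : ((2 ^ u : ℕ) : ℝ) = 2 ^ u := by norm_num
  have e2q : ((2 ^ q : ℕ) : ℝ) = 2 ^ q := by norm_num
  -- the micro hypotheses
  have mic := fun j (hj : j ∈ S) y (hy : y ∈ F.ys m) (_ : Nonempty (Px (Pn (F.L m) y))) mm (hmm : mm < xx ρ u) =>
    H.mic y hy (F.b0 m p) (2 ^ p) j l0 q0 (by rw [hNκ]; refine le_trans ?_ g8;
                                              exact Real.rpow_le_rpow_of_exponent_le hn1.le (by linarith)) g9 (hjx j hj) M hM.ge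
      m1 m2 m3 (j + 2 ^ p) (xx ρ u - 2 ^ p) (aa ρ zt u j + 1 + mm) (aa ρ zt u j + xx ρ u) (zz zt u j) zt ((i + 1) * 2 ^ q)
      (i * 2 ^ q) ((i + 1) * 2 ^ q) (by
        rw [hNκ]
        have h1 : ((2 ^ m : ℕ) : ℝ) ^ c ≤ F.b0 m p :=
          le_trans (Real.rpow_le_rpow_of_exponent_le hn1.le (by linarith)) g8
        have h2 : (F.b0 m p : ℝ) ≤ ((j + 2 ^ p : ℕ) : ℝ) := by exact_mod_cast (show F.b0 m p ≤ j + 2 ^ p by omega)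
        linarith) (by
        rw [hNκ, Nat.cast_sub hbx, e2p]
        linarith) le_rfl (by have := hgeo j hj; omega) (by omega) (by have := hgeo j hj; omega) (zz_le _ _ _) hzt le_rfl hblkN D f
      hD0 hDN hf t ht1
  -- the geometry of the prices
  have hθb : (F.L m : ℝ) ^ κ ≤ F.b0 m p := by
    rw [hNκ]
    exact le_trans (Real.rpow_le_rpow_of_exponent_le hn1.le (by linarith)) g8
  have hcx : ((2 ^ m : ℕ) : ℝ) ^ c ≤ xx ρ u := by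
    have : (0 : ℝ) < 2 ^ p := by positivity
    linarith
  have hxN : 4 * xx ρ u ≤ 2 ^ u := by
    have : (4 : ℝ) * xx ρ u ≤ 2 ^ u := by linarith
    exact_mod_cast this
  have huq : 2 ^ u ≤ 2 ^ q := Nat.pow_le_pow_right two_pos (by omega)
  have hqN : 2 ^ q ≤ F.L m := (Nat.pow_le_pow_right two_pos hqm).trans hLm
  have G : GT (F.L m) κ S (aa ρ zt u) (fun j => aa ρ zt u j + xx ρ u) (zz zt u) (fun _ => zt) zt ((i + 1) * 2 ^ q)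
      (4 * gl46 ι m q) (4 * xx ρ u) (F.b0 m p) :=
    gt57 hρ hR hum (by omega) (by omega) hz' (fun j hj => ⟨(hS j hj).1, (hS j hj).2.2.2⟩) hz hblkN (by rw [hNκ]; exact g5)
      (g6.trans hqN) (by rw [hNκ]; exact hcx) (hxN.trans (huq.trans hqN))
  have hDf : (F.L m : ℝ) ^ κ ≤ (2 ^ u : ℕ) := by
    rw [hNκ]
    refine hcx.trans ?_
    exact_mod_cast (show xx ρ u ≤ 2 ^ u by omega)
  have pO := own_prt (μ := μ) (s := s) (ys := F.ys m) H.pr H.ok.hy G (Df := 2 ^ u) hDf (fun j hj k hk hjk =>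
    farj72 hρ hρ1 hR hum hX2 (hS j hj).1 (hS k hk).1 (hS j hj).2.2.2 (hS k hk).2.2.2 hjk)
  have hl0N : 4 * l0 ≤ F.L m := by
    have h1 : F.b0 m p ≤ 2 ^ q := g9.trans (Nat.pow_le_pow_right two_pos (by have := hst.hps; omega))
    omega
  have hMc : Mc (F.L m) κ κP (4 * l0) (F.b0 m p) l0 q0 M := ⟨by
    rw [hNκ]
    refine m4.trans ?_
    exact_mod_cast (show l0 ≤ 4 * l0 by omega), hl0N, by omega, m3, hM7⟩
  have pM := fun mm (hmm : mm < xx ρ u) => mic_prt (μ := μ) (s := s) (ys := F.ys m) (Df := 2 ^ u)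
    (mm := fun j => aa ρ zt u j + 1 + mm) H.pr H.ok.hy G hMc (ml_LR72 S (F.ys m) (fun j => aa ρ zt u j + 1 + mm) (F.b0 m p) l0 q0 M)
    (fun j hj => g9.trans (hjx j hj)) (fun j hj => ⟨by omega, by omega⟩)
    (fun j hj k hk hjk => mono57 hρ hR hum (hS j hj).1 (hS k hk).1 (hS j hj).2.2.2 (hS k hk).2.2.2 hjk) hb0p1 hθb
    (fun j hj k hk hjk => (farj57 hρ hρ1 hR hum g2 (hS j hj).1 (hS k hk).1 (hS j hj).2.2.2 (hS k hk).2.2.2 hjk).2.1)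
  -- the far part
  have hrad : ∀ k : ℕ, 1 ≤ k → k ≤ 2 ^ m → (F.L m : ℝ) ^ ε * wd' μ s k ≤
      4 * ((2 ^ m : ℕ) : ℝ) ^ ι * Kw * wd' μ s (2 ^ m) / 4 := fun k hk1 hk2 => by
    rw [hNε]
    calc ((2 ^ m : ℕ) : ℝ) ^ ι * wd' μ s k ≤ ((2 ^ m : ℕ) : ℝ) ^ ι * (Kw * wd' μ s (2 ^ m)) :=
          mul_le_mul_of_nonneg_left (H.wK k _ hk1 hk2) (by positivity)
      _ = _ := by ring
  have hGF : ∑ j ∈ S, avy (F.ys m) (fun y => ∫ ω, FV57 (wm μ s (F.L m) (Pn (F.L m) y) ω) (aa ρ zt u j) (zz zt u j) zt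
      ((i + 1) * 2 ^ q) (4 * ((2 ^ m : ℕ) : ℝ) ^ ι * Kw * wd' μ s (2 ^ m)) (f y ω) ∂(Pm μ (F.L m))) ≤
      S.card * (8 * D * Real.exp (-(F.L m : ℝ) ^ cC)) := by
    have h1 : ∀ j ∈ S, avy (F.ys m) (fun y => ∫ ω, FV57 (wm μ s (F.L m) (Pn (F.L m) y) ω) (aa ρ zt u j) (zz zt u j) zt
      ((i + 1) * 2 ^ q) (4 * ((2 ^ m : ℕ) : ℝ) ^ ι * Kw * wd' μ s (2 ^ m)) (f y ω) ∂(Pm μ (F.L m))) ≤
      8 * D * Real.exp (-(F.L m : ℝ) ^ cC) := fun j hj => by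
      refine T93.avy_le93 (by positivity) fun y hy => ?_
      exact H.cone y hy (ne_Pn (H.ok.hy y hy)) _ _ _ _ (2 ^ m) (hzt.trans hblk) hLm _ (by linarith) hrad _ D (hf.meas y)
        (hf.bdd y)
    refine (sum_le_sum h1).trans (le_of_eq ?_)
    rw [sum_const, nsmul_eq_mul]
  -- the level
  have key := H.lev F.dl (F.b0 m p) (2 ^ p) (xx ρ u) zt ((i + 1) * 2 ^ q) (i * 2 ^ q) ((i + 1) * 2 ^ q) (i * 2 ^ q) (2 ^ q) S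
    (fun j => j + 2 ^ p) (fun _ => xx ρ u - 2 ^ p) (aa ρ zt u) (zz zt u) (fun _ => zt) g9 (by omega) hzt le_rfl hblkN
    (fun j hj => ⟨(hS j hj).2.1, by
      have e : (i + 1) * 2 ^ q = i * 2 ^ q + 2 ^ q := by ring
      have := (hS j hj).2.2.1
      omega⟩)
    (fun j hj => ⟨by
      rw [hNκ]
      have h1 : ((2 ^ m : ℕ) : ℝ) ^ c ≤ F.b0 m p := le_trans (Real.rpow_le_rpow_of_exponent_le hn1.le (by linarith)) g8
      have h2 : (F.b0 m p : ℝ) ≤ ((j + 2 ^ p : ℕ) : ℝ) := by exact_mod_cast (show F.b0 m p ≤ j + 2 ^ p by omega)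
      exact h1.trans h2, by
      rw [hNκ, Nat.cast_sub hbx, e2p]
      linarith, (hgeo j hj).1, (hgeo j hj).2.1, (hgeo j hj).2.2.1, (hgeo j hj).2.2.2.1, (hgeo j hj).2.2.2.2⟩)
    (4 * ((2 ^ m : ℕ) : ℝ) ^ ι * Kw * wd' μ s (2 ^ m)) r1 r2
    (fun j hj k hk1 hk2 => hrad k hk1 (by omega)) D f hD0 hDN hf t ht1
    (fun mm j => LR72 μ s (F.L m) (aa ρ zt u j + 1 + mm) (F.b0 m p) j l0 q0 M)
    (fun _ _ _ _ _ => LR72_nonneg _ _ _ _ _ _ _ _ _) (fun _ _ _ _ _ => LR72_le_one _ _ _ _ _ _ _ _ _)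
    (fun _ _ _ _ => meas_LR72 _ _ _ _ _ _ _ _) (F.B m ^ 3 * (F.L m : ℝ) ^ ε) ((F.L m : ℝ) ^ (-1 : ℝ)) (by positivity)
    (fun j hj y hy hne mm hmm => (mic j hj y hy hne mm hmm).1) (fun j hj y hy hne mm hmm => (mic j hj y hy hne mm hmm).2)
    (phOt μ s (F.L m) ε cP (4 * gl46 ι m q) (4 * xx ρ u) (2 ^ u))
    (phMt μ s (F.L m) ε cP (4 * gl46 ι m q) (4 * xx ρ u) (4 * l0) (F.b0 m p) q0 (2 ^ u))
    (S.card * (8 * D * Real.exp (-(F.L m : ℝ) ^ cC))) (fun _ => phOt_nonneg _ _ _ _) (fun _ => phMt_nonneg _ _ _ _ _ _ _)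
    pO pM hGF
  -- the numbers
  have hE : ∀ t, EE' μ s t = EE μ s t := fun t => EE'_eq46 s t
  have hW1 : 1 ≤ wd' μ s (2 ^ m) := le_max_left _ _
  have hl1u : 1 ≤ 2 ^ u := Nat.one_le_two_pow
  have h2u0 : (0 : ℝ) < 2 ^ u := by positivity
  obtain ⟨α, hα⟩ : ∃ α, α = F.B m ^ 2 * gn72 (F.L m) ε (F.B m) (4 * ((2 ^ m : ℕ) : ℝ) ^ ι * Kw * wd' μ s (2 ^ m)) (xx ρ u) *
    (F.L m : ℝ) ^ ε := ⟨_, rfl⟩
  have hα0 : 0 ≤ α := by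
    rw [hα]
    exact mul_nonneg (mul_nonneg (by positivity) (gn72_nonneg _ _ _ _ _)) hNe
  have hα2 : α ^ 2 ≤ ((2 ^ m : ℕ) : ℝ) ^ (13 * ι) * (wd' μ s (2 ^ m) / ((2 ^ u : ℕ) : ℝ)) := by
    have h1 := gn_le57 (N := F.L m) (x := xx ρ u) (ε := ε) (B := F.B m) (R := 4 * ((2 ^ m : ℕ) : ℝ) ^ ι * Kw * wd' μ s (2 ^ m))
      (Kw := Kw) (W := wd' μ s (2 ^ m)) (wl := wd' μ s (2 ^ m)) (l := 2 ^ u) (A := ((2 ^ m : ℕ) : ℝ) ^ ι) hB0 H.BI hnι1 hNε H.Kw1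
      (by linarith) rfl (le_mul_of_one_le_left (zero_le_one.trans hW1) (by linarith [H.Kw1])) (by linarith) (by omega) h2u0 g4 H.nKw
    rw [hα, e2u]
    refine h1.trans (le_of_eq ?_)
    congr 1
    rw [← Real.rpow_natCast, ← Real.rpow_mul hn0.le]
    congr 1
    push_cast
    ring
  have he : 0 ≤ ϵ + 2 * ι := by linarith
  have hNe1 : (F.L m : ℝ) ^ ε ≤ ((2 ^ m : ℕ) : ℝ) ^ (ϵ + 2 * ι) := by
    rw [hNε]
    exact Real.rpow_le_rpow_of_exponent_le hn1.le (by linarith)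
  have hup : ∀ {t r : ℕ} {y : ℝ}, y ≤ 2 * ι → (EE μ s t)⁻¹ ≤ ((2 ^ m : ℕ) : ℝ) ^ (ϵ + y) * (EE μ s r)⁻¹ →
      (EE μ s t)⁻¹ ≤ ((2 ^ m : ℕ) : ℝ) ^ (ϵ + 2 * ι) * (EE μ s r)⁻¹ := fun {t r y} hy h => by
    refine h.trans (mul_le_mul_of_nonneg_right (Real.rpow_le_rpow_of_exponent_le hn1.le (by linarith)) ?_)
    have := R.Epos r
    positivity
  have hrt : (EE μ s (4 * gl46 ι m q))⁻¹ ≤ ((2 ^ m : ℕ) : ℝ) ^ (ϵ + 2 * ι) * (EE μ s (2 ^ q))⁻¹ := by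
    refine hup (y := ι) (by linarith) (Esm57 R ?_ g6 (by rw [e2q]; exact g7))
    have h1 : (1 : ℝ) ≤ gl46 ι m q := hnc1.trans g5
    have h2 : 1 ≤ gl46 ι m q := by exact_mod_cast h1
    omega
  have hn2ι : ((2 ^ m : ℕ) : ℝ) ^ (2 * ι) = ((2 ^ m : ℕ) : ℝ) ^ ι * ((2 ^ m : ℕ) : ℝ) ^ ι := by
    rw [← Real.rpow_add hn0]
    ring_nf
  have hlt : (EE μ s (4 * xx ρ u))⁻¹ ≤ ((2 ^ m : ℕ) : ℝ) ^ (ϵ + 2 * ι) * (EE μ s (2 ^ u))⁻¹ := by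
    refine hup (y := ι) (by linarith) (Esm57 R (by omega) hxN ?_)
    rw [e2u, hn2ι]
    push_cast
    have hx0 : (0 : ℝ) ≤ xx ρ u := Nat.cast_nonneg _
    have h1 : (2 : ℝ) ≤ ((2 ^ m : ℕ) : ℝ) ^ ι := by linarith
    have h2 := mul_le_mul_of_nonneg_right h1 (show 0 ≤ ((2 ^ m : ℕ) : ℝ) ^ ι * (4 * (xx ρ u : ℝ)) by positivity)
    push_cast at g4 h2
    linarith
  have hbt : (EE μ s (4 * l0))⁻¹ ≤ ((2 ^ m : ℕ) : ℝ) ^ (ϵ + 2 * ι) * (EE μ s (2 ^ p))⁻¹ := by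
    refine Esm57 R (by omega) (m6.trans g9) (y := 2 * ι) ?_
    refine g10.trans ((mul_le_mul_of_nonneg_left m5 (by positivity)).trans (le_of_eq ?_))
    rw [← mul_assoc, ← Real.rpow_add hn0]
    ring_nf
  have her : ((2 ^ q : ℕ) : ℝ) * er (F.L m) cP ≤ 1 := by
    rw [e2q]
    exact (mul_le_mul_of_nonneg_right hqn (T93.er_nonneg _ _)).trans H.erP
  have hl30 : ((2 ^ m : ℕ) : ℝ) ^ (1 - 3 * η) ≤ ((2 ^ u : ℕ) : ℝ) := by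
    rw [e2u]
    have h1 : ((2 ^ m : ℕ) : ℝ) ^ (1 - 3 * η) * ((2 ^ m : ℕ) : ℝ) ^ η = ((2 ^ m : ℕ) : ℝ) ^ (1 - 2 * η) := by
      rw [← Real.rpow_add hn0]
      ring_nf
    have h2 : ((2 ^ m : ℕ) : ℝ) ^ (1 - 3 * η) * 2 ≤ ((2 ^ m : ℕ) : ℝ) ^ (1 - 2 * η) := by
      rw [← h1]
      exact mul_le_mul_of_nonneg_left hη2 (by positivity)
    have h3 : (2 : ℝ) ^ (u + 1) = 2 ^ u * 2 := pow_succ _ _
    rw [h3] at hu4
    linarith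
  have hl60 : ((2 ^ m : ℕ) : ℝ) ^ (1 - 3 * (2 * η)) ≤ ((2 ^ u : ℕ) : ℝ) :=
    (Real.rpow_le_rpow_of_exponent_le hn1.le (by linarith)).trans hl30
  have hfin : ((2 ^ m : ℕ) : ℝ) ^ (Θ - c₁) ≤ ((2 ^ m : ℕ) : ℝ) ^ (Θ - 2 * x) / 64 := by
    rw [le_div_iff₀ (by norm_num)]
    calc ((2 ^ m : ℕ) : ℝ) ^ (Θ - c₁) * 64 ≤ ((2 ^ m : ℕ) : ℝ) ^ (Θ - c₁) * ((2 ^ m : ℕ) : ℝ) ^ ϵ :=
          mul_le_mul_of_nonneg_left H.nϵ (by positivity)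
      _ = ((2 ^ m : ℕ) : ℝ) ^ (Θ - c₁ + ϵ) := by rw [← Real.rpow_add hn0]
      _ ≤ _ := Real.rpow_le_rpow_of_exponent_le hn1.le (by linarith)
  have t1 := top1_72 (n := 2 ^ m) (l := 2 ^ u) (r := 2 ^ q) R hbs.hr hl1u huq (e₀ := ϵ) (e := ϵ + 2 * ι) (e' := 13 * ι) (c₁ := c₁)
    (η := η) (Wc := wd' μ s (2 ^ m)) (N := F.L m) (ε' := ε) (c' := cP) (G := α ^ 2) (tr := 4 * gl46 ι m q) (tl := 4 * xx ρ u)
    hη.le hl30 (by linarith) H.wn hE he hϵ0.le hNe1 hrt hlt her (by positivity) hα2 (by linarith)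
  have hA2 : (F.B m ^ 3 * (F.L m : ℝ) ^ ε) ^ 2 ≤ ((2 ^ m : ℕ) : ℝ) ^ (8 * ι) := by
    rw [hNε]
    calc (F.B m ^ 3 * ((2 ^ m : ℕ) : ℝ) ^ ι) ^ 2 ≤ ((((2 ^ m : ℕ) : ℝ) ^ ι) ^ 3 * ((2 ^ m : ℕ) : ℝ) ^ ι) ^ 2 := by
          refine pow_le_pow_left₀ (by positivity) (mul_le_mul_of_nonneg_right (pow_le_pow_left₀ hB0 H.BI 3) (by positivity)) 2
      _ = ((2 ^ m : ℕ) : ℝ) ^ (8 * ι) := by
          rw [← pow_succ, ← pow_mul, ← Real.rpow_natCast, ← Real.rpow_mul hn0.le]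
          congr 1
          push_cast
          ring
  have t2 := top2_72 R hbs hrg (Nat.pow_le_pow_right two_pos hu1) huq (e := ϵ + 2 * ι) (e' := 8 * ι) (c₁ := c₁)
    (η := 2 * η) (N := F.L m) (ε' := ε) (c' := cP) (G := (F.B m ^ 3 * (F.L m : ℝ) ^ ε) ^ 2) (tr := 4 * gl46 ι m q)
    (tl := 4 * xx ρ u) (tb := 4 * l0) (b0 := F.b0 m p) (q0 := q0) (by positivity) hl60 (by rw [e2u]; exact hu3) hE he
    (by positivity) hNe1 hrt hlt hbt hq01 (by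
      have h1 : 6 * (q0 : ℝ) ≤ 120 * ((2 ^ m : ℕ) : ℝ) ^ ι := by linarith
      have h2 : 120 * ((2 ^ m : ℕ) : ℝ) ^ ι ≤ ((2 ^ m : ℕ) : ℝ) ^ ι * ((2 ^ m : ℕ) : ℝ) ^ ι :=
        mul_le_mul_of_nonneg_right (by linarith) (by positivity)
      rw [← hn2ι] at h2
      exact h1.trans (h2.trans (Real.rpow_le_rpow_of_exponent_le hn1.le (by linarith)))) hb0p1 g9 her (by positivity) hA2
    (by linarith) (by linarith) (by linarith)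
  rw [← hα] at key
  have hV0 : 0 ≤ avy (F.ys m) (varF μ s (F.L m) f) := by
    refine avy_nonneg fun y hy => ?_
    have := ne_Pn (H.ok.hy y hy)
    exact integral_nonneg fun ω => Pool.W7d29a1.C0.VT31.gv_nonneg _ _
  refine fin72 (s := S.card) hα0 (by positivity) (sum_nonneg fun _ _ => phOt_nonneg _ _ _ _)
    (sum_nonneg fun _ _ => phMt_nonneg _ _ _ _ _ _ _) hV0 (Nat.cast_nonneg _) hcard (t1.trans hfin) (t2.trans hfin)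
    (err72 H hι0 hι18 hD0 hD (Nat.cast_nonneg _) (hcard.trans hqn)) ?_
  refine le_trans (le_of_eq ?_) (key.trans (le_of_eq ?_))
  · rw [hSd]
    rfl
  · ring

end

end Pool.Agent.W_7d29a1_C0.T72
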