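import Pool.Agent.W_7d29a1_C0.TNj72

/-!
CURV0 (MP_7d29a1_pr), leaf (T), THE JUMP at the concrete frame (helper72): `tjL_of72` : `TjL57` from `THL72` (the hypotheses `TH72` at
`frm33` in the order of `Est`).
-/

set_option autoImplicit false
set_option linter.unusedSectionVars false
set_option linter.unusedVariables false

namespace Pool.Agent.W_7d29a1_C0.T72

open Finset MeasureTheory Filter Topology
open Pool.Agent.W_7d29a1_C0 Pool.Agent.W_7d29a1_C0.Mod92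
open Pool.Agent.W_7d29a1_F Pool.Agent.W_7d29a1_X
open Pool.Agent.W_7d29a1_H (sl EE)
open Pool.Agent.W_7d29a1_HS (In wd)
open Pool.Agent.W_7d29a1_HZ (wd' EE')
open Pool.Agent.W_7d29a1_C0.Asm96 Pool.Agent.W_7d29a1_C0.EstC46 Pool.Agent.W_7d29a1_C0.TN57 Pool.Agent.W_7d29a1_C0.Frm33
open Pool.Agent.W_7d29a1_C0.Par92 (Est Sml)

noncomputable section

variable {μ : Measure ℝ} {s : ℝ} {K : ℕ} {Θ : ℝ}

/-- **The hypotheses of a level or of the jump at the frame**, in the order of `Est` (`th93`). -/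
def THL72 (μ : Measure ℝ) (s : ℝ) (K : ℕ) (Θ c₀ δ c : ℝ) : Prop := ∃ a : ℝ, 0 < a ∧ a < 1 ∧ ∃ Kw : ℝ, ∀ ϵ : ℝ, 0 < ϵ →
  Est fun ι β γ m => ∃ εM κP cP cC : ℝ, TH72 μ s (frm33 μ s K ι β γ) (wd μ s) c₀ Θ δ a ϵ c ι (c / K) (ι / K) εM κP cP cC Kw m

/-- **THE JUMP.** -/
theorem tjL_of72 [IsProbabilityMeasure μ] (hΘ : 0 < Θ) {c₀ : ℝ} (hTH : ∀ δ c : ℝ, 0 < δ → 0 < c → c ≤ 1 → THL72 μ s K Θ c₀ δ c) :
    TjL57 μ s K Θ := by
  refine (Sml.le one_pos).mono fun δ hδ hδ1 => ?_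
  refine (Sml.le (show 0 < min 1 (δ / 64) by positivity)).mono fun c hc hc' => ?_
  have hc1 : c ≤ 1 := hc'.trans (min_le_left _ _)
  have hcδ : c ≤ δ / 64 := hc'.trans (min_le_right _ _)
  obtain ⟨a, ha, ha1, Kw, hE⟩ := hTH δ c hδ hc hc1
  refine (Sml.le (show 0 < min (Θ / 16) (c / 16) by positivity)).mono fun η hη hη' => ?_
  have hηΘ : η ≤ Θ / 16 := hη'.trans (min_le_left _ _)
  have hηc : η ≤ c / 16 := hη'.trans (min_le_right _ _)
  obtain ⟨c₁, hc₁⟩ : ∃ c₁, c₁ = min (min (Θ / 8) (Θ * η)) (c / 4) := ⟨_, rfl⟩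
  have hc₁0 : 0 < c₁ := by rw [hc₁]; positivity
  have q1 : c₁ ≤ Θ / 8 := by rw [hc₁]; exact (min_le_left _ _).trans (min_le_left _ _)
  have q2 : c₁ ≤ Θ * η := by rw [hc₁]; exact (min_le_left _ _).trans (min_le_right _ _)
  have q3 : c₁ ≤ c / 4 := by rw [hc₁]; exact min_le_right _ _
  refine ⟨c₁ / 4, by positivity, ?_⟩
  have hall := (hE (c₁ / 64) (by positivity)).and
    ((Est.iota (Sml.le (show 0 < c₁ / 64 by positivity))).and (Est.of_ev (pow_ev96 hη 2)))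
  refine hall.mono fun ι β γ hι _ _ => Eventually.of_forall fun m h => ?_
  obtain ⟨⟨εM, κP, cP, cC, H⟩, hι1, h2⟩ := h
  exact tj_one72 (c₁ := c₁) H hc (by linarith) hδ1 (by linarith) hι (by linarith) hη h2 (by linarith) (by linarith) (by linarith)
    (by linarith)

end

end Pool.Agent.W_7d29a1_C0.T72
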