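import Pool.Agent.W_7d29a1_C0.Tf70
import Pool.Agent.W_7d29a1_C0.Num46P
import Pool.Agent.W_7d29a1_C0.PT93E

/-!
MP_7d29a1_pr, [CURV0] (helper57), leaf (T), NUMBERS OF THE OWN PAIRS of a level: the near part (slab) `phi1_57` and the far part
`phi3_57`, from the sum of `phO` of PT93E over the distances.
-/

set_option autoImplicit false
set_option linter.unusedVariables false

namespace Pool.Agent.W_7d29a1_C0.TN57

open Finset MeasureTheory Pool.Agent.W_7d29a1_C0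
open Pool.Agent.W_7d29a1_C0.T93 (phO pc er pc_nonneg er_nonneg)
open Pool.Agent.W_7d29a1_HZ (wd' EE')

noncomputable section

variable {E w : ℕ → ℝ} {c₀ Θ δ a ε n c : ℝ} {b s r l : ℕ}

/-- (i6) `r / (E_r E_l ^ 3)`, `l ≥ s`. -/
theorem i6_57 (R : Reg46 E w c₀ Θ δ a ε n) (h : Bs46 E δ c n b s r) (hsl : s ≤ l) :
    (r : ℝ) * (1 / (E r * E l ^ 3)) ≤ n ^ (Θ + ε - δ / 16) := by
  have hr' := h.hr.pos R.N1
  have hE := R.Epos r
  have hE' := R.Epos l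
  refine le_pow46 R.N1 (by positivity) ?_
  simp (disch := positivity) only [Real.logb_mul, Real.logb_div, Real.logb_pow, Real.logb_one, Nat.cast_ofNat]
  linarith [h.ls3 R, R.lmono hsl, R.lkap' h.hr, R.lq' h.hr]

/-- The unit at a slightly smaller scale. -/
theorem Esm57 (R : Reg46 E w c₀ Θ δ a ε n) {t r : ℕ} (ht : 1 ≤ t) (htr : t ≤ r) {y : ℝ} (hy : (r : ℝ) ≤ n ^ (2 * y) * t) :
    (E t)⁻¹ ≤ n ^ (ε + y) * (E r)⁻¹ := by
  have hn0 := R.N0
  have ht0 : (0 : ℝ) < t := by exact_mod_cast ht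
  have h1 := R.half t r ht htr
  have h2 : √((r : ℝ) / t) ≤ n ^ y := by
    rw [← Real.sqrt_sq (Real.rpow_nonneg hn0.le y)]
    refine Real.sqrt_le_sqrt ?_
    rw [div_le_iff₀ ht0, ← Real.rpow_natCast, ← Real.rpow_mul hn0.le]
    refine hy.trans (le_of_eq ?_)
    congr 2
    push_cast
    ring
  have hE := R.Epos t
  have hE' := R.Epos r
  have h3 : E r ≤ n ^ (ε + y) * E t := by
    rw [Real.rpow_add hn0]
    exact h1.trans (mul_le_mul_of_nonneg_right (mul_le_mul_of_nonneg_left h2 (by positivity)) hE.le)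
  rw [← div_eq_mul_inv, inv_eq_one_div, div_le_div_iff₀ hE hE']
  linarith

/-- The number of the near distances. -/
theorem near_sum57 (r Df : ℕ) {A : ℝ} (hA : 0 ≤ A) : ∑ D ∈ range r, (if D < Df then A else 0) ≤ Df * A := by
  rw [← sum_filter, sum_const, nsmul_eq_mul]
  refine mul_le_mul_of_nonneg_right ?_ hA
  have h1 : (range r).filter (fun D => D < Df) ⊆ range Df := fun D hD => mem_range.2 (mem_filter.1 hD).2
  have h2 := card_le_card h1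
  rw [card_range] at h2
  exact_mod_cast h2

theorem phO_sum57 (μ : Measure ℝ) (s : ℝ) (N : ℕ) (ε' c' : ℝ) (tr tl Df r : ℕ) :
    ∑ D ∈ range r, phO μ s N ε' c' tr tl Df D ≤ Df * (pc μ s N ε' tr * pc μ s N ε' tl) +
      r * (pc μ s N ε' tr * pc μ s N ε' tl * pc μ s N ε' tl) + r * er N c' := by
  have h1 := pc_nonneg (μ := μ) (s := s) N ε' tr
  have h2 := pc_nonneg (μ := μ) (s := s) N ε' tl
  have h3 := er_nonneg N c'
  have h4 : ∀ D ∈ range r, phO μ s N ε' c' tr tl Df D ≤ (if D < Df then pc μ s N ε' tr * pc μ s N ε' tl else 0) +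
      (pc μ s N ε' tr * pc μ s N ε' tl * pc μ s N ε' tl + er N c') := fun D _ => by
    have h5 : 0 ≤ pc μ s N ε' tr * pc μ s N ε' tl * pc μ s N ε' tl := by positivity
    unfold phO
    split_ifs <;> linarith
  refine (sum_le_sum h4).trans ?_
  rw [sum_add_distrib, sum_const, card_range, nsmul_eq_mul]
  have h5 := near_sum57 r Df (mul_nonneg h1 h2)
  linarith

/-- **The sum over the distances of the own pairs**, in the units `E_r`, `E_l`. -/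
theorem own_sum57 (R : Reg46 E w c₀ Θ δ a ε n) {μ : Measure ℝ} {s' : ℝ} {N : ℕ} {ε' c' e : ℝ} {tr tl Df : ℕ}
    (hE : ∀ t, EE' μ s' t = E t) (he : 0 ≤ e) (hN : (N : ℝ) ^ ε' ≤ n ^ e) (hr : (E tr)⁻¹ ≤ n ^ e * (E r)⁻¹)
    (hl : (E tl)⁻¹ ≤ n ^ e * (E l)⁻¹) (hDf : Df ≤ l) :
    ∑ D ∈ range r, phO μ s' N ε' c' tr tl Df D ≤ n ^ (6 * e) * (l * (1 / (E r * E l)) + r * (1 / (E r * E l ^ 2))) +
      r * er N c' := by
  have hn0 := R.N0
  have hn1 := R.N1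
  have q0 := pc_nonneg (μ := μ) (s := s') N ε' tr
  have q1 := pc_nonneg (μ := μ) (s := s') N ε' tl
  have hEr := R.Epos r
  have hEl := R.Epos l
  have hNe : 0 ≤ (N : ℝ) ^ ε' := Real.rpow_nonneg (Nat.cast_nonneg _) _
  have p : ∀ {t u : ℕ}, (E t)⁻¹ ≤ n ^ e * (E u)⁻¹ → pc μ s' N ε' t ≤ n ^ (2 * e) * (E u)⁻¹ := fun {t u} h => by
    have h1 := R.Epos t
    have h2 := R.Epos u
    unfold pc
    rw [hE]
    calc (N : ℝ) ^ ε' * (E t)⁻¹ ≤ n ^ e * (n ^ e * (E u)⁻¹) := mul_le_mul hN h (by positivity) (by positivity)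
      _ = n ^ (2 * e) * (E u)⁻¹ := by
          rw [← mul_assoc, ← Real.rpow_add hn0]
          ring_nf
  have p1 := p hr
  have p2 := p hl
  have hh : n ^ (4 * e) ≤ n ^ (6 * e) := Real.rpow_le_rpow_of_exponent_le hn1.le (by linarith)
  have c1 : pc μ s' N ε' tr * pc μ s' N ε' tl ≤ n ^ (6 * e) * (1 / (E r * E l)) := by
    calc pc μ s' N ε' tr * pc μ s' N ε' tl ≤ (n ^ (2 * e) * (E r)⁻¹) * (n ^ (2 * e) * (E l)⁻¹) :=
          mul_le_mul p1 p2 q1 (by positivity)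
      _ = n ^ (4 * e) * (1 / (E r * E l)) := by
          have e1 : n ^ (4 * e) = n ^ (2 * e) * n ^ (2 * e) := by
            rw [← Real.rpow_add hn0]
            ring_nf
          rw [e1]
          field_simp
      _ ≤ _ := mul_le_mul_of_nonneg_right hh (by positivity)
  have c2 : pc μ s' N ε' tr * pc μ s' N ε' tl * pc μ s' N ε' tl ≤ n ^ (6 * e) * (1 / (E r * E l ^ 2)) := by
    calc pc μ s' N ε' tr * pc μ s' N ε' tl * pc μ s' N ε' tl ≤
          (n ^ (2 * e) * (E r)⁻¹) * (n ^ (2 * e) * (E l)⁻¹) * (n ^ (2 * e) * (E l)⁻¹) :=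
          mul_le_mul (mul_le_mul p1 p2 q1 (by positivity)) p2 q1 (by positivity)
      _ = n ^ (6 * e) * (1 / (E r * E l ^ 2)) := by
          have e1 : n ^ (6 * e) = n ^ (2 * e) * n ^ (2 * e) * n ^ (2 * e) := by
            rw [← Real.rpow_add hn0, ← Real.rpow_add hn0]
            ring_nf
          rw [e1]
          field_simp
  have h1 := phO_sum57 μ s' N ε' c' tr tl Df r
  have h2 : (Df : ℝ) * (pc μ s' N ε' tr * pc μ s' N ε' tl) ≤ l * (n ^ (6 * e) * (1 / (E r * E l))) :=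
    mul_le_mul (by exact_mod_cast hDf) c1 (by positivity) (Nat.cast_nonneg _)
  have h3 : (r : ℝ) * (pc μ s' N ε' tr * pc μ s' N ε' tl * pc μ s' N ε' tl) ≤ r * (n ^ (6 * e) * (1 / (E r * E l ^ 2))) :=
    mul_le_mul_of_nonneg_left c2 (Nat.cast_nonneg _)
  have e2 : n ^ (6 * e) * (l * (1 / (E r * E l)) + r * (1 / (E r * E l ^ 2))) =
      l * (n ^ (6 * e) * (1 / (E r * E l))) + r * (n ^ (6 * e) * (1 / (E r * E l ^ 2))) := by ring
  rw [e2]
  linarith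

/-- **The slab part of the own pairs.** -/
theorem phi1_57 (R : Reg46 E w c₀ Θ δ a ε n) (h : Bs46 E δ c n b s r) (hl : Rg46 δ n l) (hsl : s ≤ l) (hlr : l ≤ r)
    {G S e e' ee c₁ : ℝ} (hG0 : 0 ≤ G) (hG : G ≤ n ^ e' * (w l / l)) (he : 0 ≤ e) (he' : 0 ≤ e') (hee : ee ≤ 1)
    (hS : S ≤ n ^ (6 * e) * (l * (1 / (E r * E l)) + r * (1 / (E r * E l ^ 2))) + ee)
    (q1 : c₁ + e' + 6 * e + 2 * ε ≤ Θ) (q2 : c₁ + e' + 6 * e + 3 * ε ≤ δ / 16) : G * S ≤ n ^ (Θ - c₁) := by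
  have hn0 := R.N0
  have hn1 := R.N1
  have hEr := R.Epos r
  have hEl := R.Epos l
  have hl' := hl.pos R.N1
  have hw := R.w0 l (hl.npos R.N1)
  obtain ⟨x, hx⟩ : ∃ x, x = Θ - c₁ - e' - 6 * e - ε := ⟨_, rfl⟩
  have hε := R.ε0
  have m1 := (Tf70.i1 R (r := r) hl hlr).trans (Real.rpow_le_rpow_of_exponent_le hn1.le (show ε ≤ x by linarith))
  have m2 := (Tf70.i5b R h hl hsl).trans
    (Real.rpow_le_rpow_of_exponent_le hn1.le (show Θ + 2 * ε - δ / 16 ≤ x by linarith))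
  have m3 : w l / l ≤ n ^ x := by
    refine le_trans ?_ (Real.rpow_le_rpow_of_exponent_le hn1.le (show ε ≤ x by linarith))
    refine le_pow46 hn1 (by positivity) ?_
    rw [Real.logb_div hw.ne' hl'.ne']
    have hc0 : 0 < c₀ * δ := mul_pos R.c₀0 R.δ0
    linarith [R.lw hl, R.lst' hl, R.lE0 l]
  have hp1 : 1 ≤ n ^ (6 * e) := Real.one_le_rpow hn1.le (by positivity)
  have hpx : 0 < n ^ x := Real.rpow_pos_of_pos hn0 _
  have k3 : (3 : ℝ) ≤ n ^ ε := by linarith [R.K]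
  have hS0 : 0 ≤ n ^ (6 * e) * (l * (1 / (E r * E l)) + r * (1 / (E r * E l ^ 2))) + 1 := by positivity
  calc G * S ≤ G * (n ^ (6 * e) * (l * (1 / (E r * E l)) + r * (1 / (E r * E l ^ 2))) + 1) :=
        mul_le_mul_of_nonneg_left (by linarith) hG0
    _ ≤ n ^ e' * (w l / l) * (n ^ (6 * e) * (l * (1 / (E r * E l)) + r * (1 / (E r * E l ^ 2))) + 1) :=
        mul_le_mul_of_nonneg_right hG hS0
    _ = n ^ e' * (n ^ (6 * e) * (l * ((w l / l) / (E r * E l)) + r * ((w l / l) / (E r * E l ^ 2))) + w l / l) := by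
        ring
    _ ≤ n ^ e' * (n ^ (6 * e) * (n ^ x + n ^ x) + n ^ (6 * e) * n ^ x) := by
        refine mul_le_mul_of_nonneg_left (add_le_add (mul_le_mul_of_nonneg_left (add_le_add m1 m2) (by positivity)) ?_) (by positivity)
        calc w l / l ≤ n ^ x := m3
          _ = 1 * n ^ x := (one_mul _).symm
          _ ≤ _ := mul_le_mul_of_nonneg_right hp1 hpx.le
    _ = 3 * (n ^ e' * n ^ (6 * e) * n ^ x) := by ring
    _ ≤ n ^ ε * (n ^ e' * n ^ (6 * e) * n ^ x) := mul_le_mul_of_nonneg_right k3 (by positivity)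
    _ = n ^ (Θ - c₁) := by
        rw [← Real.rpow_add hn0, ← Real.rpow_add hn0, ← Real.rpow_add hn0]
        congr 1
        rw [hx]
        ring

/-- **The far part of the own pairs.** -/
theorem phi3_57 (R : Reg46 E w c₀ Θ δ a ε n) (h : Bs46 E δ c n b s r) (hl : Rg46 δ n l) (hsl : s ≤ l) (hlr : l ≤ r)
    {η : ℝ} (hη : 0 ≤ η) (hl1 : (l : ℝ) ≤ n ^ (1 - η)) {G F S e e' ee ee' c₁ : ℝ} (hG0 : 0 ≤ G) (hG : G ≤ n ^ e') (hF0 : 0 ≤ F)
    (hF : F ≤ n ^ e * (E l)⁻¹) (he : 0 ≤ e) (he' : 0 ≤ e') (hee : ee ≤ 1) (hee' : ee' ≤ 1)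
    (hS : S ≤ n ^ (6 * e) * (l * (1 / (E r * E l)) + r * (1 / (E r * E l ^ 2))) + ee)
    (q1 : c₁ + e' + 7 * e + 2 * ε ≤ Θ) (q2 : c₁ + e' + 7 * e + 2 * ε ≤ δ / 16) (q3 : c₁ + e' + 7 * e + 2 * ε ≤ Θ * η) :
    G * (F * S + ee') ≤ n ^ (Θ - c₁) := by
  have hn0 := R.N0
  have hn1 := R.N1
  have hEr := R.Epos r
  have hEl := R.Epos l
  have hE1 := R.E1 l
  have hl' := hl.pos R.N1
  obtain ⟨x, hx⟩ : ∃ x, x = Θ - c₁ - e' - 7 * e - ε := ⟨_, rfl⟩
  have hε := R.ε0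
  have m1 := (Tf70.i3 R (r := r) hl hlr hη hl1).trans
    (Real.rpow_le_rpow_of_exponent_le hn1.le (show Θ - Θ * η + ε ≤ x by linarith))
  have m2 := (i6_57 R h hsl).trans
    (Real.rpow_le_rpow_of_exponent_le hn1.le (show Θ + ε - δ / 16 ≤ x by linarith))
  have m3 : (1 : ℝ) ≤ n ^ x := Real.one_le_rpow hn1.le (by linarith)
  have m4 : (E l)⁻¹ ≤ 1 := inv_le_one_of_one_le₀ hE1
  have hp1 : 1 ≤ n ^ (6 * e) := Real.one_le_rpow hn1.le (by positivity)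
  have hp2 : 1 ≤ n ^ e := Real.one_le_rpow hn1.le he
  have hpx : 0 < n ^ x := Real.rpow_pos_of_pos hn0 _
  have k4 : (4 : ℝ) ≤ n ^ ε := by linarith [R.K]
  have hS0 : 0 ≤ n ^ (6 * e) * (l * (1 / (E r * E l)) + r * (1 / (E r * E l ^ 2))) + 1 := by positivity
  have a1 : F * S ≤ n ^ e * (E l)⁻¹ * (n ^ (6 * e) * (l * (1 / (E r * E l)) + r * (1 / (E r * E l ^ 2))) + 1) := by
    calc F * S ≤ F * (n ^ (6 * e) * (l * (1 / (E r * E l)) + r * (1 / (E r * E l ^ 2))) + 1) :=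
          mul_le_mul_of_nonneg_left (by linarith) hF0
      _ ≤ _ := mul_le_mul_of_nonneg_right hF hS0
  have a2 : n ^ e * (E l)⁻¹ * (n ^ (6 * e) * (l * (1 / (E r * E l)) + r * (1 / (E r * E l ^ 2))) + 1) =
      n ^ e * (n ^ (6 * e) * ((1 / (E r * E l)) * (l / E l) + r * (1 / (E r * E l ^ 3))) + (E l)⁻¹) := by
    field_simp
  have a3 : n ^ e * (n ^ (6 * e) * ((1 / (E r * E l)) * (l / E l) + r * (1 / (E r * E l ^ 3))) + (E l)⁻¹) ≤
      3 * (n ^ e * n ^ (6 * e) * n ^ x) := by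
    calc n ^ e * (n ^ (6 * e) * ((1 / (E r * E l)) * (l / E l) + r * (1 / (E r * E l ^ 3))) + (E l)⁻¹)
        ≤ n ^ e * (n ^ (6 * e) * (n ^ x + n ^ x) + n ^ (6 * e) * n ^ x) := by
          refine mul_le_mul_of_nonneg_left (add_le_add (mul_le_mul_of_nonneg_left (add_le_add m1 m2) (by positivity)) ?_)
            (by positivity)
          calc (E l)⁻¹ ≤ 1 * 1 := by linarith
            _ ≤ n ^ (6 * e) * n ^ x := mul_le_mul hp1 m3 zero_le_one (by positivity)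
      _ = _ := by ring
  have a4 : (1 : ℝ) ≤ n ^ e * n ^ (6 * e) * n ^ x :=
    one_le_mul_of_one_le_of_one_le (one_le_mul_of_one_le_of_one_le hp2 hp1) m3
  calc G * (F * S + ee') ≤ G * (4 * (n ^ e * n ^ (6 * e) * n ^ x)) := by
        refine mul_le_mul_of_nonneg_left ?_ hG0
        rw [a2] at a1
        linarith
    _ ≤ n ^ e' * (n ^ ε * (n ^ e * n ^ (6 * e) * n ^ x)) :=
        mul_le_mul hG (mul_le_mul_of_nonneg_right k4 (by positivity)) (by positivity) (by positivity)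
    _ = n ^ (Θ - c₁) := by
        rw [← Real.rpow_add hn0, ← Real.rpow_add hn0, ← Real.rpow_add hn0, ← Real.rpow_add hn0]
        congr 1
        rw [hx]
        ring

/-! ### The end of a level -/

theorem sq57 {a S Φ : ℝ} (ha : 0 ≤ a) : a * √(8 * S * Φ) = √(8 * S * (a ^ 2 * Φ)) := by
  rw [show 8 * S * (a ^ 2 * Φ) = a ^ 2 * (8 * S * Φ) by ring, Real.sqrt_mul (sq_nonneg a), Real.sqrt_sq ha]

/-- **The end of a level**: the three parts and the error. -/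
theorem fin57 {n : ℝ} (hn : 0 < n) {r : ℕ} {S : Finset ℕ} (hS : (S.card : ℝ) ≤ r) {a1 a2 a3 Φ1 Φ2 Φ3 Θ c₁ V err LHS : ℝ}
    (h1 : 0 ≤ a1) (h2 : 0 ≤ a2) (h3 : 0 ≤ a3) (p1 : a1 ^ 2 * Φ1 ≤ n ^ (Θ - c₁)) (p2 : a2 ^ 2 * Φ2 ≤ n ^ (Θ - c₁))
    (p3 : a3 ^ 2 * Φ3 ≤ n ^ (Θ - c₁)) (hΦ3 : 0 ≤ Φ3)
    (h : LHS ≤ (a1 * √(8 * S.card * Φ1) + a2 * √(8 * S.card * Φ2)) * √(2 * V) +
      a3 * (√(2 * S.card * Φ3) * √(2 * V)) + err) :
    LHS ≤ 12 * (n ^ (-(c₁ / 2)) * √(r * n ^ Θ)) * √V + err := by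
  have e1 := Tf70.grp70 (r := r) (x := V) hn hS p1
  have e2 := Tf70.grp70 (r := r) (x := V) hn hS p2
  have e3 := Tf70.grp70 (r := r) (x := V) hn hS p3
  rw [← sq57 h1] at e1
  rw [← sq57 h2] at e2
  rw [← sq57 h3] at e3
  have e4 : √(2 * S.card * Φ3) ≤ √(8 * S.card * Φ3) := Real.sqrt_le_sqrt (by
    have : 0 ≤ (S.card : ℝ) * Φ3 := by positivity
    linarith)
  have e5 : a3 * (√(2 * S.card * Φ3) * √(2 * V)) ≤ a3 * √(8 * S.card * Φ3) * √(2 * V) := by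
    rw [← mul_assoc]
    exact mul_le_mul_of_nonneg_right (mul_le_mul_of_nonneg_left e4 h3) (Real.sqrt_nonneg _)
  rw [add_mul] at h
  linarith

end

end Pool.Agent.W_7d29a1_C0.TN57
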