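import Pool.Agent.W_7d29a1_C0.Tau86B

/-!
CURV0 (MP_7d29a1_pr), leaf E1f (helper62): THE CORNER PRICES OF THE NEAR TIES SEEN FROM BEHIND A ROW `m`, together with an outer tie
(a free replica which does not meet the path in `[m0, m1]`, `m ≤ m0`), over the general price `tauI` of helper86.
`tp_one`: one near tie. `tp_two`: two near ties of the windows `[U, V]`, `[U', V']`, `V + D ≤ U'`, of one path, both in the block `[0, m)`:
the gap of the first one closes before `U'` (two ties of scale `b`) or it contains `[V, U']` (one tie of scale `D`).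
-/

set_option autoImplicit false
set_option linter.unusedSectionVars false
set_option linter.unusedVariables false

namespace Pool.Agent.W_7d29a1_C0.E62

open Finset MeasureTheory
open Pool.Agent.W_7d29a1_F Pool.Agent.W_7d29a1_X Pool.Agent.W_7d29a1_H
open Pool.Agent.W_7d29a1_HS (In wd)
open Pool.Agent.W_7d29a1_HZ (EE' wd')
open Pool.Agent.W_7d29a1_C0.Mod92 (Px Pn lw ps pJ ne_Pn wm Pm meas_lw meas_cE meas_gm meas_wm int_bdd)
open Pool.Agent.W_7d29a1_C0.Swap57 (NI NI_nonneg)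
open Pool.Agent.W_7d29a1_C0.P86
open Pool.W7d29a1.C0 (gm gz gz_pos gm_nonneg gm_mono gm_const)
open Pool.W7d29a1.C0.VT31 (Mp cE fz)
open Pool.W7d29a1.C0.R43 (Tau Rp mI st swP_pJ tau_rp cE2_mI mI_nonneg)

noncomputable section

variable {μ : Measure ℝ} {s : ℝ} {N y : ℕ}

/-! ### The indicators -/

open Classical in
/-- The indicator of the near tie in `[U, V]`, everything behind `m` given. -/
def iT {Q : Finset (Finset ℕ)} (w : Px Q → ℝ) (m U V : ℕ) (M : ℝ) (x : Px Q) : ℝ := if Tau w (pJ 0 m) U V M x then 1 else 0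

theorem iT_nonneg {Q : Finset (Finset ℕ)} (w : Px Q → ℝ) (m U V : ℕ) (M : ℝ) (x : Px Q) : 0 ≤ iT w m U V M x := by
  unfold iT
  split_ifs <;> norm_num

theorem iT_le {Q : Finset (Finset ℕ)} (w : Px Q → ℝ) (m U V : ℕ) (M : ℝ) (x : Px Q) : iT w m U V M x ≤ 1 := by
  unfold iT
  split_ifs <;> norm_num

open Classical in
/-- The indicator of a conditional mass which is not tiny. -/
def hI (μ : Measure ℝ) (s : ℝ) (N y m : ℕ) (A : Finset ℕ → Finset ℕ → Prop) (M : ℝ) (ω : Env × Finset ℕ) (x : Px (Pn N y)) : ℝ :=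
  if Real.exp (-(8 * M)) < mc μ s N y 0 m A ω.1 x.1 then 1 else 0

theorem hI_nonneg (m : ℕ) (A : Finset ℕ → Finset ℕ → Prop) (M : ℝ) (ω : Env × Finset ℕ) (x : Px (Pn N y)) :
    0 ≤ hI μ s N y m A M ω x := by
  unfold hI
  split_ifs <;> norm_num

theorem hI_le_one (m : ℕ) (A : Finset ℕ → Finset ℕ → Prop) (M : ℝ) (ω : Env × Finset ℕ) (x : Px (Pn N y)) :
    hI μ s N y m A M ω x ≤ 1 := by
  unfold hI
  split_ifs <;> norm_num

theorem hI_le (m : ℕ) (A : Finset ℕ → Finset ℕ → Prop) (M : ℝ) (ω : Env × Finset ℕ) (x : Px (Pn N y)) :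
    hI μ s N y m A M ω x ≤ Real.exp (8 * M) * mc μ s N y 0 m A ω.1 x.1 := by
  unfold hI
  split_ifs with h
  · have h1 : Real.exp (8 * M) * Real.exp (-(8 * M)) = 1 := by
      rw [← Real.exp_add, add_neg_cancel, Real.exp_zero]
    rw [← h1]
    exact mul_le_mul_of_nonneg_left h.le (Real.exp_pos _).le
  · exact mul_nonneg (Real.exp_pos _).le (mc_nonneg _ _)

/-! ### The free replica -/

theorem pJ_full (S S' : Px (Pn N y)) : pJ 0 N S = pJ 0 N S' := by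
  obtain ⟨h1, h2⟩ := mem_powersetCard.1 S.2
  obtain ⟨h3, h4⟩ := mem_powersetCard.1 S'.2
  unfold pJ
  rw [← range_eq_Ico, sdiff_eq_empty_iff_subset.2 h1, sdiff_eq_empty_iff_subset.2 h3, inter_eq_left.2 h1, inter_eq_left.2 h3, h2, h4]

theorem cE_full (w f : Px (Pn N y) → ℝ) (x : Px (Pn N y)) : cE w (pJ 0 N) f x = gm w f := by
  unfold cE gm fz gz
  have h : ∀ x', pJ 0 N x' = pJ 0 N x := fun x' => pJ_full x' x
  simp only [h, if_true]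

theorem oN_mc (η : Env) (m0 m1 : ℕ) (x : Px (Pn N y)) :
    gm (lw μ s η N (Pn N y)) (NI m0 m1 x) = mc μ s N y 0 N (NoMeet m0 m1) η x.1 := by
  have : Nonempty (Px (Pn N y)) := ⟨x⟩
  rw [← mI_mc η x.2]
  unfold mI
  rw [cE_full]

theorem NI_le_one62 {Q : Finset (Finset ℕ)} (i j : ℕ) (z z' : Px Q) : NI i j z z' ≤ 1 := by
  unfold NI
  split_ifs <;> norm_num

theorem oN_nonneg {Q : Finset (Finset ℕ)} [Nonempty (Px Q)] (w : Px Q → ℝ) (m0 m1 : ℕ) (x : Px Q) : 0 ≤ gm w (NI m0 m1 x) :=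
  gm_nonneg _ fun _ => NI_nonneg _ _ _ _

theorem oN_le_one {Q : Finset (Finset ℕ)} [Nonempty (Px Q)] (w : Px Q → ℝ) (m0 m1 : ℕ) (x : Px Q) : gm w (NI m0 m1 x) ≤ 1 :=
  (gm_mono _ fun z => NI_le_one62 m0 m1 x z).trans_eq (gm_const _ 1)

variable [IsProbabilityMeasure μ] {c₀ C₀ : ℝ} {n₀ : ℕ}

theorem int_one62 [Nonempty (Px (Pn N y))] : ∫ ω, gm (wm μ s N (Pn N y) ω) (fun _ => 1) ∂(Pm μ N) = 1 := by
  have e : (fun ω : Env × Finset ℕ => gm (wm μ s N (Pn N y) ω) (fun _ => (1 : ℝ))) = fun _ => 1 := by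
    funext ω
    exact gm_const _ 1
  rw [e]
  simp

/-- **ONE NEAR TIE** behind the row `m`, with the outer tie. -/
theorem tp_one (h : In μ s c₀ C₀ n₀) : ∀ ε θ : ℝ, 0 < ε → 0 < θ → ∃ δ κ c₂ : ℝ, 0 < δ ∧ 0 < κ ∧ 0 < c₂ ∧ ∃ L₀ : ℕ,
    ∀ N : ℕ, L₀ ≤ N → ∀ y : ℕ, y ≤ N → |(y : ℝ) - sl μ s * N| ≤ ((N : ℝ) ^ δ * wd' μ s N) →
    ∀ m U V m0 m1 b l : ℕ, U + b ≤ V → V ≤ m → m ≤ m0 → m0 + l ≤ m1 → m1 ≤ N → (N : ℝ) ^ θ ≤ b → (N : ℝ) ^ θ ≤ l →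
    ∀ M : ℝ, 8 ≤ M → M ≤ (N : ℝ) ^ κ →
    ∫ ω, gm (wm μ s N (Pn N y) ω) (fun x => iT (wm μ s N (Pn N y) ω) m U V M x * gm (wm μ s N (Pn N y) ω) (NI m0 m1 x)) ∂(Pm μ N) ≤
      (N : ℝ) ^ ε * ((EE' μ s b)⁻¹ * (EE' μ s l)⁻¹) + (Real.exp (-(N : ℝ) ^ c₂) + 4 * Real.exp (-M)) := by
  intro ε θ hε hθ
  obtain ⟨δ, κ, c₂, hδ, hκ, hc₂, L₀, hP⟩ := tauI h 2 (by norm_num) (ε / 2) θ (by positivity) hθ
  refine ⟨δ, κ, c₂, hδ, hκ, hc₂, L₀ + 1, ?_⟩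
  intro N hN y hyN hyc m U V m0 m1 b l hUV hVm hmm hml hmN hb hl M hM hMN
  have := ne_Pn (N := N) (y := y) hyN
  have hNR : (1 : ℝ) ≤ N := by exact_mod_cast (show 1 ≤ N by omega)
  have hN0 : (0 : ℝ) < N := by linarith
  have h1κ : (1 : ℝ) ≤ (N : ℝ) ^ κ := Real.one_le_rpow hNR hκ.le
  have key := hP N (by omega) N (by omega) le_rfl y hyN hyc (fun _ => 0) ![N, m] (fun _ => 0) ![N, m] ![m0, U] ![m1, V] ![l, b]
    (Fin.forall_fin_two.2 ⟨(by show 0 ≤ 0 ∧ 0 ≤ m0 ∧ m0 ≤ m1 ∧ m1 ≤ N ∧ N ≤ N ∧ N ≤ N; omega),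
      (by show 0 ≤ 0 ∧ 0 ≤ U ∧ U ≤ V ∧ V ≤ m ∧ m ≤ m ∧ m ≤ N; omega)⟩)
    (Fin.forall_fin_two.2 ⟨hl, hb⟩) ![False, True] ![Ioo m0 N, Ioo U m]
    (Fin.forall_fin_two.2 ⟨Or.inr (Or.inl ⟨rfl, Fin.forall_fin_two.2 ⟨fun h' => absurd h' (lt_irrefl _), fun _ => Or.inl hmm⟩⟩),
      Or.inr (Or.inl ⟨rfl, Fin.forall_fin_two.2 ⟨fun h' => absurd h' (by decide), fun h' => absurd h' (lt_irrefl _)⟩⟩)⟩)
    M hM hMN ![fun ω x => gm (wm μ s N (Pn N y) ω) (NI m0 m1 x), fun ω x => iT (wm μ s N (Pn N y) ω) m U V M x]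
    (Fin.forall_fin_two.2 ⟨fun ω x => oN_nonneg _ _ _ _, fun ω x => iT_nonneg _ _ _ _ _ _⟩)
    (Fin.forall_fin_two.2 ⟨fun ω x => oN_le_one _ _ _ _, fun ω x => iT_le _ _ _ _ _ _⟩)
    (Fin.forall_fin_two.2 ⟨fun _ => ⟨NoMeet m0 m1, 1, fun _ => m0, fun _ => m1, by simpa using h1κ,
      fun n _ => ⟨le_rfl, hml, le_rfl⟩, fun S S' _ _ _ _ hag hA => ⟨0, one_pos, gap_of_nm (Nat.zero_le _) hmN hag hA⟩,
      fun ω x => by
        show gm (wm μ s N (Pn N y) ω) (NI m0 m1 x) ≤ Real.exp ((N : ℝ) ^ κ) * mc μ s N y 0 N (NoMeet m0 m1) ω.1 x.1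
        rw [← oN_mc ω.1 m0 m1 x]
        exact le_mul_of_one_le_left (oN_nonneg _ _ _ _) (Real.one_le_exp (by linarith))⟩,
      fun h' => absurd trivial h'⟩)
    (Fin.forall_fin_two.2 ⟨fun h' => absurd h' id, fun _ => ⟨rfl, rfl, hUV, fun ω x hT => by
        show iT (wm μ s N (Pn N y) ω) m U V M x ≤ Real.exp (-M)
        have hT' : ¬ Tau (wm μ s N (Pn N y) ω) (pJ 0 m) U V M x := hT
        unfold iT
        rw [if_neg hT']
        exact (Real.exp_pos _).le⟩⟩)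
    (fun _ _ => 1) (fun _ _ => measurable_const) (fun _ _ => zero_le_one) (fun _ _ => le_rfl) (fun _ _ _ _ _ _ => rfl)
  rw [int_one62, mul_one, Fin.prod_univ_two] at key
  refine (le_of_eq ?_).trans (key.trans (le_of_eq ?_))
  · refine integral_congr_ae (Filter.Eventually.of_forall fun ω => ?_)
    show gm _ _ = gm _ _
    congr 1
    funext x
    rw [Fin.prod_univ_two, one_mul]
    show _ = gm (wm μ s N (Pn N y) ω) (NI m0 m1 x) * iT (wm μ s N (Pn N y) ω) m U V M x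
    ring
  · show (N : ℝ) ^ (ε / 2) * (EE' μ s l)⁻¹ * ((N : ℝ) ^ (ε / 2) * (EE' μ s b)⁻¹) + (Real.exp (-(N : ℝ) ^ c₂) + 2 * ((2 : ℕ) : ℝ) * Real.exp (-M)) = _
    have e : (N : ℝ) ^ ε = (N : ℝ) ^ (ε / 2) * (N : ℝ) ^ (ε / 2) := by
      rw [← Real.rpow_add hN0, add_halves]
    rw [e]
    push_cast
    ring

/-- A gap of scale `D`, with the outer tie. -/
theorem tp_gap (h : In μ s c₀ C₀ n₀) : ∀ ε θ : ℝ, 0 < ε → 0 < θ → ∃ δ κ c₂ : ℝ, 0 < δ ∧ 0 < κ ∧ 0 < c₂ ∧ ∃ L₀ : ℕ,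
    ∀ N : ℕ, L₀ ≤ N → ∀ y : ℕ, y ≤ N → |(y : ℝ) - sl μ s * N| ≤ ((N : ℝ) ^ δ * wd' μ s N) →
    ∀ m U V m0 m1 D l : ℕ, U + D ≤ V → V ≤ m → m ≤ m0 → m0 + l ≤ m1 → m1 ≤ N → (N : ℝ) ^ θ ≤ D → (N : ℝ) ^ θ ≤ l →
    ∀ M : ℝ, 8 ≤ M → 8 * M ≤ (N : ℝ) ^ κ →
    ∫ ω, gm (wm μ s N (Pn N y) ω) (fun x => hI μ s N y m (NoMeet U V) M ω x * gm (wm μ s N (Pn N y) ω) (NI m0 m1 x)) ∂(Pm μ N) ≤
      (N : ℝ) ^ ε * ((EE' μ s D)⁻¹ * (EE' μ s l)⁻¹) + (Real.exp (-(N : ℝ) ^ c₂) + 4 * Real.exp (-M)) := by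
  intro ε θ hε hθ
  obtain ⟨δ, κ, c₂, hδ, hκ, hc₂, L₀, hP⟩ := tauI h 2 (by norm_num) (ε / 2) θ (by positivity) hθ
  refine ⟨δ, κ, c₂, hδ, hκ, hc₂, L₀ + 1, ?_⟩
  intro N hN y hyN hyc m U V m0 m1 D l hUV hVm hmm hml hmN hD hl M hM hMN
  have := ne_Pn (N := N) (y := y) hyN
  have hNR : (1 : ℝ) ≤ N := by exact_mod_cast (show 1 ≤ N by omega)
  have hN0 : (0 : ℝ) < N := by linarith
  have h1κ : (1 : ℝ) ≤ (N : ℝ) ^ κ := Real.one_le_rpow hNR hκ.le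
  have key := hP N (by omega) N (by omega) le_rfl y hyN hyc (fun _ => 0) ![N, m] (fun _ => 0) ![N, m] ![m0, U] ![m1, V] ![l, D]
    (Fin.forall_fin_two.2 ⟨(by show 0 ≤ 0 ∧ 0 ≤ m0 ∧ m0 ≤ m1 ∧ m1 ≤ N ∧ N ≤ N ∧ N ≤ N; omega),
      (by show 0 ≤ 0 ∧ 0 ≤ U ∧ U ≤ V ∧ V ≤ m ∧ m ≤ m ∧ m ≤ N; omega)⟩)
    (Fin.forall_fin_two.2 ⟨hl, hD⟩) (fun _ => False) ![Ioo m0 N, Ioo U m]
    (Fin.forall_fin_two.2 ⟨Or.inr (Or.inl ⟨rfl, Fin.forall_fin_two.2 ⟨fun h' => absurd h' (lt_irrefl _), fun _ => Or.inl hmm⟩⟩),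
      Or.inr (Or.inl ⟨rfl, Fin.forall_fin_two.2 ⟨fun h' => absurd h' (by decide), fun h' => absurd h' (lt_irrefl _)⟩⟩)⟩)
    M hM (by linarith) ![fun ω x => gm (wm μ s N (Pn N y) ω) (NI m0 m1 x), fun ω x => hI μ s N y m (NoMeet U V) M ω x]
    (Fin.forall_fin_two.2 ⟨fun ω x => oN_nonneg _ _ _ _, fun ω x => hI_nonneg _ _ _ _ _⟩)
    (Fin.forall_fin_two.2 ⟨fun ω x => oN_le_one _ _ _ _, fun ω x => hI_le_one _ _ _ _ _⟩)
    (Fin.forall_fin_two.2 ⟨fun _ => ⟨NoMeet m0 m1, 1, fun _ => m0, fun _ => m1, by simpa using h1κ,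
      fun n _ => ⟨le_rfl, hml, le_rfl⟩, fun S S' _ _ _ _ hag hA => ⟨0, one_pos, gap_of_nm (Nat.zero_le _) hmN hag hA⟩,
      fun ω x => by
        show gm (wm μ s N (Pn N y) ω) (NI m0 m1 x) ≤ Real.exp ((N : ℝ) ^ κ) * mc μ s N y 0 N (NoMeet m0 m1) ω.1 x.1
        rw [← oN_mc ω.1 m0 m1 x]
        exact le_mul_of_one_le_left (oN_nonneg _ _ _ _) (Real.one_le_exp (by linarith))⟩,
      fun _ => ⟨NoMeet U V, 1, fun _ => U, fun _ => V, by simpa using h1κ,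
      fun n _ => ⟨le_rfl, hUV, le_rfl⟩, fun S S' _ _ _ _ hag hA => ⟨0, one_pos, gap_of_nm (Nat.zero_le _) hVm hag hA⟩,
      fun ω x => by
        show hI μ s N y m (NoMeet U V) M ω x ≤ Real.exp ((N : ℝ) ^ κ) * mc μ s N y 0 m (NoMeet U V) ω.1 x.1
        exact (hI_le _ _ _ _ _).trans (mul_le_mul_of_nonneg_right (Real.exp_le_exp.2 hMN) (mc_nonneg _ _))⟩⟩)
    (fun _ h' => absurd h' id)
    (fun _ _ => 1) (fun _ _ => measurable_const) (fun _ _ => zero_le_one) (fun _ _ => le_rfl) (fun _ _ _ _ _ _ => rfl)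
  rw [int_one62, mul_one, Fin.prod_univ_two] at key
  refine (le_of_eq ?_).trans (key.trans (le_of_eq ?_))
  · refine integral_congr_ae (Filter.Eventually.of_forall fun ω => ?_)
    show gm _ _ = gm _ _
    congr 1
    funext x
    rw [Fin.prod_univ_two, one_mul]
    show _ = gm (wm μ s N (Pn N y) ω) (NI m0 m1 x) * hI μ s N y m (NoMeet U V) M ω x
    ring
  · show (N : ℝ) ^ (ε / 2) * (EE' μ s l)⁻¹ * ((N : ℝ) ^ (ε / 2) * (EE' μ s D)⁻¹) + (Real.exp (-(N : ℝ) ^ c₂) + 2 * ((2 : ℕ) : ℝ) * Real.exp (-M)) = _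
    have e : (N : ℝ) ^ ε = (N : ℝ) ^ (ε / 2) * (N : ℝ) ^ (ε / 2) := by
      rw [← Real.rpow_add hN0, add_halves]
    rw [e]
    push_cast
    ring

/-- The partner misses the path in one of the pieces and meets it again before the row `U'`. -/
def A1 (U l' q U' : ℕ) (S S' : Finset ℕ) : Prop := ∃ n < 3 * q, Gap 0 U' (st U l' n) (st U l' n + l') S S'

/-- The partner misses the path in a piece of `[U, V]` and meets it again before `U'`, the near tie of `[U', V']`, the outer tie. -/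
theorem tp_three (h : In μ s c₀ C₀ n₀) : ∀ ε θ : ℝ, 0 < ε → 0 < θ → ∃ δ κ c₂ : ℝ, 0 < δ ∧ 0 < κ ∧ 0 < c₂ ∧ ∃ L₀ : ℕ,
    ∀ N : ℕ, L₀ ≤ N → ∀ y : ℕ, y ≤ N → |(y : ℝ) - sl μ s * N| ≤ ((N : ℝ) ^ δ * wd' μ s N) →
    ∀ m U V U' V' m0 m1 b l' l q : ℕ, U + 3 * q * (l' + 1) ≤ V → V ≤ U' → U' + b ≤ V' → V' ≤ m → m ≤ m0 → m0 + l ≤ m1 → m1 ≤ N →
    (N : ℝ) ^ θ ≤ b → (N : ℝ) ^ θ ≤ l' → (N : ℝ) ^ θ ≤ l → ((3 * q : ℕ) : ℝ) ≤ (N : ℝ) ^ κ →
    ∀ M : ℝ, 8 ≤ M → 8 * M ≤ (N : ℝ) ^ κ →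
    ∫ ω, gm (wm μ s N (Pn N y) ω) (fun x => hI μ s N y m (A1 U l' q U') M ω x * (iT (wm μ s N (Pn N y) ω) m U' V' M x *
      gm (wm μ s N (Pn N y) ω) (NI m0 m1 x))) ∂(Pm μ N) ≤
      (N : ℝ) ^ ε * ((EE' μ s l')⁻¹ * (EE' μ s b)⁻¹ * (EE' μ s l)⁻¹) + (Real.exp (-(N : ℝ) ^ c₂) + 6 * Real.exp (-M)) := by
  intro ε θ hε hθ
  obtain ⟨δ, κ, c₂, hδ, hκ, hc₂, L₀, hP⟩ := tauI h 3 (by norm_num) (ε / 3) θ (by positivity) hθ
  refine ⟨δ, κ, c₂, hδ, hκ, hc₂, L₀ + 1, ?_⟩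
  intro N hN y hyN hyc m U V U' V' m0 m1 b l' l q hUV hVU hUV' hVm hmm hml hmN hb hl' hl hq M hM hMN
  have := ne_Pn (N := N) (y := y) hyN
  have hNR : (1 : ℝ) ≤ N := by exact_mod_cast (show 1 ≤ N by omega)
  have hN0 : (0 : ℝ) < N := by linarith
  have h1κ : (1 : ℝ) ≤ (N : ℝ) ^ κ := Real.one_le_rpow hNR hκ.le
  have hst : ∀ n < 3 * q, U ≤ st U l' n ∧ st U l' n + l' ≤ V := fun n hn => by
    unfold st
    have e1 : (n + 1) * (l' + 1) ≤ 3 * q * (l' + 1) := Nat.mul_le_mul_right _ (by omega)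
    have e2 : (n + 1) * (l' + 1) = n * (l' + 1) + (l' + 1) := by ring
    omega
  have f3 : ∀ P : Fin 3 → Prop, P 0 → P 1 → P 2 → ∀ i, P i := fun P h0 h1 h2 i => by
    fin_cases i
    · exact h0
    · exact h1
    · exact h2
  have key := hP N (by omega) N (by omega) le_rfl y hyN hyc (fun _ => 0) ![N, m, m] (fun _ => 0) ![N, m, U'] ![m0, U', U]
    ![m1, V', V] ![l, b, l']
    (f3 _ (by show 0 ≤ 0 ∧ 0 ≤ m0 ∧ m0 ≤ m1 ∧ m1 ≤ N ∧ N ≤ N ∧ N ≤ N; omega)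
      (by show 0 ≤ 0 ∧ 0 ≤ U' ∧ U' ≤ V' ∧ V' ≤ m ∧ m ≤ m ∧ m ≤ N; omega)
      (by show 0 ≤ 0 ∧ 0 ≤ U ∧ U ≤ V ∧ V ≤ U' ∧ U' ≤ m ∧ m ≤ N; omega))
    (f3 _ hl hb hl') ![False, True, False] ![Ioo m0 N, Ioo U' m, Ioo U U']
    (f3 _ (Or.inr (Or.inl ⟨rfl, f3 _ (fun h' => absurd h' (lt_irrefl _)) (fun _ => Or.inl hmm) (fun _ => Or.inl (by
        show U' ≤ m0; omega))⟩))
      (Or.inr (Or.inl ⟨rfl, f3 _ (fun h' => absurd h' (by decide)) (fun h' => absurd h' (lt_irrefl _)) (fun _ => Or.inl le_rfl)⟩))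
      (Or.inr (Or.inl ⟨rfl, f3 _ (fun h' => absurd h' (by decide)) (fun h' => absurd h' (by decide))
        (fun h' => absurd h' (lt_irrefl _))⟩)))
    M hM (by linarith) ![fun ω x => gm (wm μ s N (Pn N y) ω) (NI m0 m1 x), fun ω x => iT (wm μ s N (Pn N y) ω) m U' V' M x,
      fun ω x => hI μ s N y m (A1 U l' q U') M ω x]
    (f3 _ (fun ω x => oN_nonneg _ _ _ _) (fun ω x => iT_nonneg _ _ _ _ _ _) (fun ω x => hI_nonneg _ _ _ _ _))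
    (f3 _ (fun ω x => oN_le_one _ _ _ _) (fun ω x => iT_le _ _ _ _ _ _) (fun ω x => hI_le_one _ _ _ _ _))
    (f3 _ (fun _ => ⟨NoMeet m0 m1, 1, fun _ => m0, fun _ => m1, by simpa using h1κ,
      fun n _ => ⟨le_rfl, hml, le_rfl⟩, fun S S' _ _ _ _ hag hA => ⟨0, one_pos, gap_of_nm (Nat.zero_le _) hmN hag hA⟩,
      fun ω x => by
        show gm (wm μ s N (Pn N y) ω) (NI m0 m1 x) ≤ Real.exp ((N : ℝ) ^ κ) * mc μ s N y 0 N (NoMeet m0 m1) ω.1 x.1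
        rw [← oN_mc ω.1 m0 m1 x]
        exact le_mul_of_one_le_left (oN_nonneg _ _ _ _) (Real.one_le_exp (by linarith))⟩)
      (fun h' => absurd trivial h')
      (fun _ => ⟨A1 U l' q U', 3 * q, fun n => st U l' n, fun n => st U l' n + l', hq,
      fun n hn => ⟨(hst n hn).1, le_rfl, (hst n hn).2⟩, fun S S' _ _ _ _ _ hA => hA,
      fun ω x => by
        show hI μ s N y m (A1 U l' q U') M ω x ≤ Real.exp ((N : ℝ) ^ κ) * mc μ s N y 0 m (A1 U l' q U') ω.1 x.1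
        exact (hI_le _ _ _ _ _).trans (mul_le_mul_of_nonneg_right (Real.exp_le_exp.2 hMN) (mc_nonneg _ _))⟩))
    (f3 _ (fun h' => absurd h' id) (fun _ => ⟨rfl, rfl, hUV', fun ω x hT => by
        show iT (wm μ s N (Pn N y) ω) m U' V' M x ≤ Real.exp (-M)
        have hT' : ¬ Tau (wm μ s N (Pn N y) ω) (pJ 0 m) U' V' M x := hT
        unfold iT
        rw [if_neg hT']
        exact (Real.exp_pos _).le⟩) (fun h' => absurd h' id))
    (fun _ _ => 1) (fun _ _ => measurable_const) (fun _ _ => zero_le_one) (fun _ _ => le_rfl) (fun _ _ _ _ _ _ => rfl)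
  rw [int_one62, mul_one, Fin.prod_univ_three] at key
  refine (le_of_eq ?_).trans (key.trans (le_of_eq ?_))
  · refine integral_congr_ae (Filter.Eventually.of_forall fun ω => ?_)
    show gm _ _ = gm _ _
    congr 1
    funext x
    rw [Fin.prod_univ_three, one_mul]
    show _ = gm (wm μ s N (Pn N y) ω) (NI m0 m1 x) * iT (wm μ s N (Pn N y) ω) m U' V' M x * hI μ s N y m (A1 U l' q U') M ω x
    ring
  · show (N : ℝ) ^ (ε / 3) * (EE' μ s l)⁻¹ * ((N : ℝ) ^ (ε / 3) * (EE' μ s b)⁻¹) * ((N : ℝ) ^ (ε / 3) * (EE' μ s l')⁻¹) +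
      (Real.exp (-(N : ℝ) ^ c₂) + 2 * ((3 : ℕ) : ℝ) * Real.exp (-M)) = _
    have e : (N : ℝ) ^ ε = (N : ℝ) ^ (ε / 3) * (N : ℝ) ^ (ε / 3) * (N : ℝ) ^ (ε / 3) := by
      rw [← Real.rpow_add hN0, ← Real.rpow_add hN0]
      congr 1
      ring
    rw [e]
    push_cast
    ring

/-! ### Two rows -/

open Classical in
/-- `Tau` without `Rp`. -/
def tR {Q : Finset (Finset ℕ)} (w : Px Q → ℝ) (m U V l' q : ℕ) (M : ℝ) (x : Px Q) : ℝ :=
  if Tau w (pJ 0 m) U V M x ∧ ¬ Rp w (pJ 0 m) U l' q M x then 1 else 0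

theorem tR_nonneg {Q : Finset (Finset ℕ)} (w : Px Q → ℝ) (m U V l' q : ℕ) (M : ℝ) (x : Px Q) : 0 ≤ tR w m U V l' q M x := by
  unfold tR
  split_ifs <;> norm_num

/-- **The near tie of `[U, V]` is robust, and its gap closes before `U'` or contains `[V, U']`.** -/
theorem iT_split {m U V U' l' q : ℕ} {M : ℝ} (hM : 8 ≤ M) (hUV : U + 3 * q * (l' + 1) ≤ V) (hU'm : U' ≤ m) (ω : Env × Finset ℕ)
    (x : Px (Pn N y)) :
    iT (wm μ s N (Pn N y) ω) m U V M x ≤ tR (wm μ s N (Pn N y) ω) m U V l' q M x + hI μ s N y m (A1 U l' q U') M ω x +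
      hI μ s N y m (NoMeet V U') M ω x := by
  have h0 := tR_nonneg (wm μ s N (Pn N y) ω) m U V l' q M x
  have h1 := hI_nonneg (μ := μ) (s := s) m (A1 U l' q U') M ω x
  have h2 := hI_nonneg (μ := μ) (s := s) m (NoMeet V U') M ω x
  by_cases hT : Tau (wm μ s N (Pn N y) ω) (pJ 0 m) U V M x
  · have hle := iT_le (wm μ s N (Pn N y) ω) m U V M x
    by_cases hR : Rp (wm μ s N (Pn N y) ω) (pJ 0 m) U l' q M x
    · obtain ⟨n, hn, hn2⟩ := hR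
      have e1 : mI (wm μ s N (Pn N y) ω) (pJ 0 m) (st U l' n) (st U l' n + l') x =
          mc μ s N y 0 m (NoMeet (st U l' n) (st U l' n + l')) ω.1 x.1 := mI_mc ω.1 x.2
      rw [e1] at hn2
      have e2 : (n + 1) * (l' + 1) ≤ 3 * q * (l' + 1) := Nat.mul_le_mul_right _ (by omega)
      have e3 : (n + 1) * (l' + 1) = n * (l' + 1) + (l' + 1) := by ring
      have hsV : st U l' n ≤ V := by
        unfold st
        omega
      have h3 := mc_le_two (μ := μ) (s := s) (N := N) (y := y) (c := 0) (d := m) (A := NoMeet (st U l' n) (st U l' n + l'))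
        (B := A1 U l' q U') (C := NoMeet V U') (fun S S' _ _ _ _ hag hA => by
          rcases nm_cutR (m := U') (Nat.zero_le _) (hag 0 (Or.inl le_rfl)) hA with g | g
          · exact Or.inl ⟨n, hn, g⟩
          · exact Or.inr fun k hk1 hk2 => g k (hsV.trans hk1) hk2) ω.1 x.1
      have h4 : 2 * Real.exp (-(8 * M)) ≤ Real.exp (-(7 * M)) := by
        have e4 : Real.exp (-(7 * M)) = Real.exp M * Real.exp (-(8 * M)) := by
          rw [← Real.exp_add]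
          congr 1
          ring
        rw [e4]
        refine mul_le_mul_of_nonneg_right ?_ (Real.exp_pos _).le
        have := Real.add_one_le_exp M
        linarith
      by_cases g1 : Real.exp (-(8 * M)) < mc μ s N y 0 m (A1 U l' q U') ω.1 x.1
      · have e5 : hI μ s N y m (A1 U l' q U') M ω x = 1 := if_pos g1
        linarith
      · have g2 : Real.exp (-(8 * M)) < mc μ s N y 0 m (NoMeet V U') ω.1 x.1 := by
          rw [not_lt] at g1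
          linarith
        have e5 : hI μ s N y m (NoMeet V U') M ω x = 1 := if_pos g2
        linarith
    · have e5 : tR (wm μ s N (Pn N y) ω) m U V l' q M x = 1 := if_pos ⟨hT, hR⟩
      linarith
  · have e5 : iT (wm μ s N (Pn N y) ω) m U V M x = 0 := if_neg hT
    linarith

end

end Pool.Agent.W_7d29a1_C0.E62
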