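import Pool.Agent.W_7d29a1_C0.TauQ62
import Pool.Agent.W_7d29a1_C0.GSsum4

/-!
CURV0 (MP_7d29a1_pr), leaf E1f (helper62): THE CORNER SUM. `cor62`: over the rows `S` of `[c, c + r)`, at one row `m` of the slab, the
functionals `rw2` of the near ties `uT` (`= T2` of `TauN62`) against the root of the variance of `f`, from the group bound `grp93` of
helper93 and the price `tp_pair` of two rows; `sum_phi62`: the sum of the majorant over the distances.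
-/

set_option autoImplicit false
set_option linter.unusedSectionVars false
set_option linter.unusedVariables false

namespace Pool.Agent.W_7d29a1_C0.E62

open Finset MeasureTheory
open Pool.Agent.W_7d29a1_F Pool.Agent.W_7d29a1_X Pool.Agent.W_7d29a1_H
open Pool.Agent.W_7d29a1_HS (In wd)
open Pool.Agent.W_7d29a1_HZ (EE' wd')
open Pool.Agent.W_7d29a1_C0.Mod92 (Px Pn lw ps pJ ne_Pn wm Pm meas_lw meas_cE meas_gm meas_gv meas_wm int_bdd abs_gv_le avy avy_mono avy_const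
  avy_add avy_mul Fam Cls59 varF)
open Pool.Agent.W_7d29a1_C0.Swap57 (NI NI_nonneg cE2)
open Pool.Agent.W_7d29a1_C0.T93 (rdist rw2 pr2 grp93)
open Pool.Agent.W_7d29a1_C0.Bri36 (PP_eq_gm meas_PP)
open Pool.W7d29a1.C0 (gm gz gz_pos gm_nonneg gm_mono gm_const PP PP_nonneg PP_mono)
open Pool.W7d29a1.C0.VT31 (Mp cE fz gv)

noncomputable section

variable {μ : Measure ℝ} {s : ℝ} {N y : ℕ}

/-- The majorant of the price of two rows at the distance `D`. -/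
def phi62 (μ : Measure ℝ) (s : ℝ) (b l : ℕ) (X e : ℝ) (D : ℕ) : ℝ :=
  X * ((if D < 4 * b then (EE' μ s b)⁻¹ * (EE' μ s l)⁻¹ else 0) + (EE' μ s (max D b))⁻¹ * (EE' μ s l)⁻¹ +
    (EE' μ s b)⁻¹ * (EE' μ s b)⁻¹ * (EE' μ s l)⁻¹) + e

theorem inv_nn62 (n : ℕ) : 0 ≤ (EE' μ s n)⁻¹ := inv_nonneg.2 (zero_le_one.trans (le_max_left _ _))

theorem phi62_nonneg {b l : ℕ} {X e : ℝ} (hX : 0 ≤ X) (he : 0 ≤ e) (D : ℕ) : 0 ≤ phi62 μ s b l X e D := by
  unfold phi62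
  have h := fun n => inv_nn62 (μ := μ) (s := s) n
  refine add_nonneg (mul_nonneg hX (add_nonneg (add_nonneg ?_ (mul_nonneg (h _) (h _))) (mul_nonneg (mul_nonneg (h _) (h _)) (h _)))) he
  split_ifs
  · exact mul_nonneg (h _) (h _)
  · exact le_rfl

/-- **The sum over the distances.** -/
theorem sum_phi62 {b l r : ℕ} {X e K : ℝ} (hX : 0 ≤ X) (he : 0 ≤ e) (hK : 0 ≤ K)
    (hpow : ∀ t r : ℕ, 1 ≤ t → t ≤ r → EE' μ s r ≤ K * Real.sqrt ((r : ℝ) / t) * EE' μ s t) (hb : 1 ≤ b) (hbr : b ≤ r) :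
    ∑ D ∈ range r, phi62 μ s b l X e D ≤ X * ((4 * b * (EE' μ s b)⁻¹ + 3 * K * (r / EE' μ s r) +
      r * ((EE' μ s b)⁻¹ * (EE' μ s b)⁻¹)) * (EE' μ s l)⁻¹) + r * e := by
  have h := fun n => inv_nn62 (μ := μ) (s := s) n
  have hE : ∀ n, 0 < EE' μ s n := fun n => lt_of_lt_of_le one_pos (le_max_left _ _)
  have h1 := GS4.sum_inv_le hE hK hpow hb hbr
  have e1 : ∀ m, (1 : ℝ) / EE' μ s (max m b) = (EE' μ s (max m b))⁻¹ := fun m => one_div _
  simp only [e1] at h1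
  have h2 : ∑ D ∈ range r, (if D < 4 * b then (EE' μ s b)⁻¹ * (EE' μ s l)⁻¹ else 0) ≤ 4 * b * ((EE' μ s b)⁻¹ * (EE' μ s l)⁻¹) := by
    rw [← sum_filter, sum_const, nsmul_eq_mul]
    refine mul_le_mul_of_nonneg_right ?_ (mul_nonneg (h _) (h _))
    have h3 : (range r).filter (fun m => m < 4 * b) ⊆ range (4 * b) := fun m hm => mem_range.2 (mem_filter.1 hm).2
    have h4 := card_le_card h3
    rw [card_range] at h4
    exact_mod_cast h4
  unfold phi62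
  rw [sum_add_distrib, ← mul_sum, sum_add_distrib, sum_add_distrib, sum_const, sum_const, card_range, nsmul_eq_mul, nsmul_eq_mul,
    ← sum_mul]
  refine add_le_add (mul_le_mul_of_nonneg_left ?_ hX) le_rfl
  calc _ ≤ 4 * b * ((EE' μ s b)⁻¹ * (EE' μ s l)⁻¹) + (3 * K * (r / EE' μ s r)) * (EE' μ s l)⁻¹ +
        r * ((EE' μ s b)⁻¹ * (EE' μ s b)⁻¹ * (EE' μ s l)⁻¹) :=
        add_le_add (add_le_add h2 (mul_le_mul_of_nonneg_right h1 (h _))) le_rfl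
    _ = _ := by ring

theorem PP_gm62 {X : Type*} [Fintype X] [Nonempty X] (w : X → ℝ) (K : X → X → ℝ) (u v : X → ℝ) :
    PP w (fun x z => K x z * (u x * v x)) = gm w (fun x => u x * (v x * gm w (K x))) := by
  rw [PP_eq_gm]
  congr 1
  funext x
  have e : (fun z => K x z * (u x * v x)) = (u x * v x) • K x := by
    funext z
    rw [Pi.smul_apply, smul_eq_mul]
    ring
  rw [e, Pool.W7d29a1.C0.gm_smul]
  ring

theorem NI_symm62 {Q : Finset (Finset ℕ)} (i j : ℕ) (S S' : Px Q) : NI i j S S' = NI i j S' S := by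
  unfold NI
  refine if_congr ?_ rfl rfl
  exact ⟨fun h k h1 h2 h3 => h k h1 h2 h3.symm, fun h k h1 h2 h3 => h k h1 h2 h3.symm⟩

variable [IsProbabilityMeasure μ] {c₀ C₀ : ℝ} {n₀ : ℕ}

/-- **THE CORNER SUM** at one row `m` of the slab. -/
theorem cor62 (h : In μ s c₀ C₀ n₀) : ∀ ε θ : ℝ, 0 < ε → 0 < θ → ∃ δ κ c₂ : ℝ, 0 < δ ∧ 0 < κ ∧ 0 < c₂ ∧ ∃ L₀ : ℕ,
    ∀ N : ℕ, L₀ ≤ N → ∀ ys : Finset ℕ, (∀ y ∈ ys, y ≤ N ∧ |(y : ℝ) - sl μ s * N| ≤ ((N : ℝ) ^ δ * wd' μ s N)) →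
    ∀ m m0 m1 b l : ℕ, m ≤ m0 → m0 + l ≤ m1 → m1 ≤ N → (N : ℝ) ^ θ ≤ b → (N : ℝ) ^ θ ≤ l →
    ∀ M : ℝ, 8 ≤ M → M ≤ (N : ℝ) ^ κ → ∀ (S : Finset ℕ) (c r : ℕ), (∀ j ∈ S, b ≤ j ∧ j + b ≤ m ∧ c ≤ j ∧ j < c + r) →
    ∀ (c' d : ℕ) (D : ℝ) (f : Fam N), Cls59 N c' d D f →
    ∑ j ∈ S, avy ys (rw2 μ s N (fun _ _ x z => NI m0 m1 x z) (fun y ω x => uT (wm μ s N (Pn N y) ω) m b M j x) f) ≤
      Real.sqrt (8 * S.card * ∑ D ∈ range r, phi62 μ s b l ((N : ℝ) ^ ε) (8 * Real.exp (-(N : ℝ) ^ c₂) + 44 * Real.exp (-M)) D) *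
        Real.sqrt (2 * avy ys (varF μ s N f)) := by
  intro ε θ hε hθ
  obtain ⟨δ, κ, c₂, hδ, hκ, hc₂, L₀, hP⟩ := tp_pair h ε θ hε hθ
  refine ⟨δ, κ, c₂, hδ, hκ, hc₂, L₀ + 1, ?_⟩
  intro N hN ys hys m m0 m1 b l hmm hml hmN hb hl M hM hMN S c r hS c' d D f hf
  have hNR : (1 : ℝ) ≤ N := by exact_mod_cast (show 1 ≤ N by omega)
  have he : 0 ≤ 8 * Real.exp (-(N : ℝ) ^ c₂) + 44 * Real.exp (-M) := by
    have := Real.exp_pos (-(N : ℝ) ^ c₂)
    have := Real.exp_pos (-M)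
    linarith
  have hX : 0 ≤ (N : ℝ) ^ ε := Real.rpow_nonneg (by linarith) _
  have hp : ∀ j ∈ S, ∀ k ∈ S, avy ys (pr2 μ s N (fun _ _ x z => NI m0 m1 x z) (fun y ω x => uT (wm μ s N (Pn N y) ω) m b M j x)
      (fun y ω x => uT (wm μ s N (Pn N y) ω) m b M k x)) ≤
      phi62 μ s b l ((N : ℝ) ^ ε) (8 * Real.exp (-(N : ℝ) ^ c₂) + 44 * Real.exp (-M)) (rdist j k) := by
    intro j hj k hk
    have hp : ∀ y ∈ ys, pr2 μ s N (fun _ _ x z => NI m0 m1 x z) (fun y ω x => uT (wm μ s N (Pn N y) ω) m b M j x)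
        (fun y ω x => uT (wm μ s N (Pn N y) ω) m b M k x) y ≤
        phi62 μ s b l ((N : ℝ) ^ ε) (8 * Real.exp (-(N : ℝ) ^ c₂) + 44 * Real.exp (-M)) (rdist j k) := fun y hy => by
      have := ne_Pn (hys y hy).1
      have h1 := hP N (by omega) y (hys y hy).1 (hys y hy).2 m m0 m1 b l hmm hml hmN hb hl M hM hMN j k (hS j hj).1 (hS j hj).2.1
        (hS k hk).1 (hS k hk).2.1
      unfold pr2
      simp only [PP_gm62]
      exact h1
    rcases ys.eq_empty_or_nonempty with he0 | hne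
    · rw [he0]
      unfold avy
      rw [card_empty, Nat.cast_zero, inv_zero, zero_mul]
      exact phi62_nonneg hX he _
    · exact (avy_mono hp).trans_eq (avy_const hne _)
  have hU0 : ∀ j ∈ S, ∀ (y : ℕ) (ω : Env × Finset ℕ) (x : Px (Pn N y)), 0 ≤ uT (wm μ s N (Pn N y) ω) m b M j x :=
    fun j _ y ω x => uT_nonneg _ _ _ _ _ _
  refine grp93 (U := fun j y ω x => uT (wm μ s N (Pn N y) ω) m b M j x) (Nn := fun _ _ x z => NI m0 m1 x z)
    (φ := phi62 μ s b l ((N : ℝ) ^ ε) (8 * Real.exp (-(N : ℝ) ^ c₂) + 44 * Real.exp (-M)))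
    (fun y hy => (hys y hy).1) (fun j hj => (hS j hj).2.2) (fun _ _ _ _ => NI_nonneg _ _ _ _)
    (fun _ _ _ _ => NI_le_one62 _ _ _ _) (fun _ _ _ _ => NI_symm62 _ _ _ _) hU0 ?_ ?_ ?_
    (phi62_nonneg hX he) hp
  · intro y hy j hj k hk
    have := ne_Pn (hys y hy).1
    refine int_bdd (M := 4) (meas_PP meas_wm fun x x' => measurable_const.mul ((meas_uT _ _ _ _ _).mul (meas_uT _ _ _ _ _))) fun ω => ?_
    refine Pool.Agent.W_7d29a1_C0.Bri36.abs_PP_le _ fun x x' => ?_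
    have a1 := uT_nonneg (wm μ s N (Pn N y) ω) m b M j x
    have a2 := uT_nonneg (wm μ s N (Pn N y) ω) m b M k x
    have a3 := uT_le (wm μ s N (Pn N y) ω) m b M j x
    have a4 := uT_le (wm μ s N (Pn N y) ω) m b M k x
    have a5 := NI_nonneg m0 m1 x x'
    have a6 := NI_le_one62 m0 m1 x x'
    have a7 := mul_nonneg a1 a2
    rw [abs_of_nonneg (mul_nonneg a5 a7)]
    calc _ ≤ 1 * (2 * 2) := mul_le_mul a6 (mul_le_mul a3 a4 a2 (by norm_num)) a7 (by norm_num)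
      _ = 4 := by norm_num
  · intro y hy j hj
    have := ne_Pn (hys y hy).1
    refine int_bdd (M := 4 * (2 * D)) (meas_PP meas_wm fun x x' => (measurable_const.mul ((meas_uT _ _ _ _ _).add
      (meas_uT _ _ _ _ _))).mul (((hf.meas y x).sub (hf.meas y x')).abs)) fun ω => ?_
    refine Pool.Agent.W_7d29a1_C0.Bri36.abs_PP_le _ fun x x' => ?_
    have a1 := uT_nonneg (wm μ s N (Pn N y) ω) m b M j x
    have a2 := uT_nonneg (wm μ s N (Pn N y) ω) m b M j x'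
    have a3 := uT_le (wm μ s N (Pn N y) ω) m b M j x
    have a4 := uT_le (wm μ s N (Pn N y) ω) m b M j x'
    have a5 := NI_nonneg m0 m1 x x'
    have a6 := NI_le_one62 m0 m1 x x'
    have a7 : |f y ω x - f y ω x'| ≤ 2 * D := by
      have b1 := hf.bdd y ω x
      have b2 := hf.bdd y ω x'
      exact (abs_sub _ _).trans (by linarith)
    rw [abs_mul, abs_abs, abs_of_nonneg (mul_nonneg a5 (add_nonneg a1 a2))]
    refine mul_le_mul ?_ a7 (abs_nonneg _) (by norm_num)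
    calc _ ≤ 1 * (2 + 2) := mul_le_mul a6 (add_le_add a3 a4) (add_nonneg a1 a2) (by norm_num)
      _ = 4 := by norm_num
  · intro y hy
    have := ne_Pn (hys y hy).1
    exact int_bdd (meas_gv meas_wm fun x => hf.meas y x) fun ω => abs_gv_le _ (hf.bdd y ω)

end

end Pool.Agent.W_7d29a1_C0.E62
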