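import Pool.Agent.W_7d29a1_C0.Clo14
import Pool.Agent.W_7d29a1_C0.RowCS39

/-!
CURV0 (MP_7d29a1_pr), leaf (T), piece T.e: THE SUM OVER THE ROWS. `M` = the rows at which the pair of replicas meets.

* Clo14 for windows: the rows `j` whose window start `v j` (`v j ≤ j < v j + b`) is open over `ρ` rows on the left and has its
  first closing in `(v j, v j + l]` are at most `(l + b) / h` times the rows `i` with `LoR M h i` (open over `h` rows on the left,
  closing within `h` rows on the right), `2 h ≤ ρ` (`card_win_le`, `sum_win_le`).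
* Two rows with `LoR M h` at distance more than `h` are in different loops (`LoR_far`); the same for the windows which are open
  over `l` rows on the right with the closing in `[l, 2 l)` (`OpR_far`).
* Row sum and Cauchy - Schwarz for arbitrary weights of tuples of replicas (`row_cs`), the count (`row_cs_cnt`), the double sum of
  prices with a near and a far part, and with three parts (`double3_le`). (helper93)
-/

set_option autoImplicit false
set_option linter.unusedSectionVars false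
set_option linter.unusedVariables false

namespace Pool.Agent.W_7d29a1_C0.T93

open Finset MeasureTheory
open Pool.Agent.W_7d29a1_C0.Clo14 (CloR CloL card_sep)
open Pool.W7d29a1.C0.VT31 (int_sqrt_mul_le)

noncomputable section

/-! ### Loops and windows -/

/-- The row `i` is open over `h` rows on the left and its loop closes within `h` rows on the right. -/
def LoR (M : ℕ → Prop) (h i : ℕ) : Prop := CloR M h 0 h i

/-- Open over `l` rows on the right of `v`, the first meeting is in `[v + l, v + 2 l)`. -/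
def OpR (M : ℕ → Prop) (l v : ℕ) : Prop :=
  ∃ m, v + l ≤ m ∧ m < v + 2 * l ∧ M m ∧ ∀ i, v ≤ i → i < m → ¬ M i

/-- Two rows of loops with `LoR`, at distance more than `h`: there is a meeting between them, more than `h` rows before the
second one. -/
theorem LoR_far {M : ℕ → Prop} {h i k : ℕ} (hi : LoR M h i) (hk : LoR M h k) (hd : i + h < k) :
    ∃ m, i < m ∧ m ≤ i + h ∧ m + h < k ∧ M m := by
  obtain ⟨_, m, h1, h2, h3, _⟩ := hi
  refine ⟨m, by omega, h2, ?_, h3⟩
  by_contra hc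
  exact hk.1 m (by omega) (by omega) h3

/-- Two windows which are open over `l` rows on the right, at distance at least `2 l`: there is a meeting between them. -/
theorem OpR_far {M : ℕ → Prop} {l v v' : ℕ} (hi : OpR M l v) (hd : v + 2 * l ≤ v') :
    ∃ m, v + l ≤ m ∧ m < v' ∧ M m := by
  obtain ⟨m, h1, h2, h3, _⟩ := hi
  exact ⟨m, h1, by omega, h3⟩

theorem OpR_open {M : ℕ → Prop} {l v : ℕ} (h : OpR M l v) {i : ℕ} (h1 : v ≤ i) (h2 : i < v + l) : ¬ M i := by
  obtain ⟨m, h3, _, _, h4⟩ := h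
  exact h4 i h1 (by omega)

open Classical in
/-- **The phase space of the closings, for windows, relative to the loops.** -/
theorem card_win_le (M : ℕ → Prop) (hM0 : M 0) {v : ℕ → ℕ} {b : ℕ} (hv : ∀ j, v j ≤ j ∧ j < v j + b) {ρ h l : ℕ}
    (hρ : 2 * h ≤ ρ) (S : Finset ℕ) {c d : ℕ} (hS : ∀ j ∈ S, c ≤ j ∧ j < d) :
    (S.filter fun j => CloR M ρ 0 l (v j)).card * h ≤
      (l + b) * ((Ico (c - b - h) (d + l)).filter fun i => LoR M h i).card := by
  obtain ⟨A, hA⟩ : ∃ A, A = S.filter fun j => CloR M ρ 0 l (v j) := ⟨_, rfl⟩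
  rw [← hA]
  have hch : ∀ j, ∃ m, j ∈ A → v j < m ∧ m ≤ v j + l ∧ M m ∧ ∀ i, v j < i → i < m → ¬ M i := by
    intro j
    by_cases hj : j ∈ A
    · rw [hA, mem_filter] at hj
      obtain ⟨m, h1, h2, h3, h4⟩ := hj.2.2
      exact ⟨m, fun _ => ⟨by omega, h2, h3, h4⟩⟩
    · exact ⟨0, fun h => absurd h hj⟩
  choose f hf using hch
  have hop : ∀ j ∈ A, ∀ i, v j ≤ i + ρ → i ≤ v j → ¬ M i := by
    intro j hj
    rw [hA, mem_filter] at hj
    exact hj.2.1
  have hcd : ∀ j ∈ A, c ≤ j ∧ j < d := by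
    intro j hj
    rw [hA, mem_filter] at hj
    exact hS j hj.1
  have hvp : ∀ j ∈ A, ρ < v j := by
    intro j hj
    by_contra hc
    exact hop j hj 0 (by omega) (by omega) hM0
  -- the fibres
  have h1 : A.card ≤ (l + b) * (A.image f).card := by
    refine card_le_mul_card_image A (l + b) fun m hm => ?_
    have h2 : (A.filter fun j => f j = m) ⊆ Ico (m - l) (m + b) := by
      intro j hj
      rw [mem_filter] at hj
      have e1 := hf j hj.1
      have e2 := hv j
      rw [mem_Ico]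
      omega
    have h3 : (A.filter fun j => f j = m).card ≤ (Ico (m - l) (m + b)).card := card_le_card h2
    rw [Nat.card_Ico] at h3
    by_cases hml : l ≤ m
    · omega
    · omega
  -- the closings are separated, the rows before a closing are in its loop
  have hsep : ∀ j ∈ A, ∀ j' ∈ A, f j < f j' → f j + h ≤ f j' := by
    intro j hj j' hj' hlt
    have h3 := hf j hj
    have h4 := hf j' hj'
    by_contra hcon
    by_cases hle : f j ≤ v j'
    · exact hop j' hj' (f j) (by omega) hle h3.2.2.1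
    · exact h4.2.2.2 (f j) (by omega) hlt h3.2.2.1
  have hin : ∀ j ∈ A, ∀ i, f j ≤ i + h → i < f j → LoR M h i := by
    intro j hj i hi1 hi2
    have e1 := hf j hj
    have e2 := hvp j hj
    have hno : ∀ k, k < f j → f j ≤ k + 2 * h → ¬ M k := by
      intro k hk1 hk2
      by_cases hle : k ≤ v j
      · exact hop j hj k (by omega) hle
      · exact e1.2.2.2 k (by omega) hk1
    refine ⟨fun k hk1 hk2 => hno k (by omega) (by omega), f j, by omega, by omega, e1.2.2.1, fun k hk1 hk2 => ?_⟩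
    exact hno k hk2 (by omega)
  have h2 : (A.image f).card * h ≤ ((Ico (c - b - h) (d + l)).filter fun i => LoR M h i).card := by
    have h3 : (A.image f).card * h = ((A.image f).sigma fun m => Ico (m - h) m).card := by
      rw [card_sigma]
      have h4 : ∀ m ∈ A.image f, (Ico (m - h) m).card = h := by
        intro m hm
        obtain ⟨j, hj, rfl⟩ := mem_image.1 hm
        have e1 := hf j hj
        have e2 := hvp j hj
        rw [Nat.card_Ico]
        omega
      rw [sum_congr rfl h4, sum_const, smul_eq_mul]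
    rw [h3]
    refine card_le_card_of_injOn (fun q => q.2) ?_ ?_
    · rintro ⟨m, i⟩ hq
      simp only [coe_sigma, Set.mem_sigma_iff, mem_coe, mem_Ico] at hq
      obtain ⟨hq1, hq2⟩ := hq
      obtain ⟨j, hj, hjm⟩ := mem_image.1 hq1
      have e1 := hf j hj
      have e2 := hv j
      have e3 := hcd j hj
      simp only [coe_filter, Set.mem_setOf_eq, mem_Ico]
      exact ⟨by omega, hin j hj i (by omega) (by omega)⟩
    · rintro ⟨m, i⟩ hq ⟨m', i'⟩ hq' (he : i = i')
      simp only [coe_sigma, Set.mem_sigma_iff, mem_coe, mem_Ico] at hq hq'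
      subst he
      obtain ⟨j, hj, hjm⟩ := mem_image.1 hq.1
      obtain ⟨j', hj', hjm'⟩ := mem_image.1 hq'.1
      have h4 : m = m' := by
        rcases lt_trichotomy m m' with h | h | h
        · have := hsep j hj j' hj' (by omega)
          omega
        · exact h
        · have := hsep j' hj' j hj (by omega)
          omega
      subst h4
      rfl
  calc A.card * h ≤ ((l + b) * (A.image f).card) * h := Nat.mul_le_mul_right _ h1
    _ = (l + b) * ((A.image f).card * h) := by ring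
    _ ≤ _ := Nat.mul_le_mul_left _ h2

open Classical in
/-- The indicator of a property. -/
def ind (p : Prop) : ℝ := if p then 1 else 0

theorem ind_nonneg (p : Prop) : 0 ≤ ind p := by
  unfold ind
  split_ifs <;> norm_num

theorem ind_le_one (p : Prop) : ind p ≤ 1 := by
  unfold ind
  split_ifs <;> norm_num

theorem ind_of {p : Prop} (h : p) : ind p = 1 := by
  unfold ind
  exact if_pos h

theorem ind_of_not {p : Prop} (h : ¬ p) : ind p = 0 := by
  unfold ind
  exact if_neg h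

theorem ind_mono {p q : Prop} (h : p → q) : ind p ≤ ind q := by
  by_cases hp : p
  · rw [ind_of hp, ind_of (h hp)]
  · rw [ind_of_not hp]
    exact ind_nonneg q

theorem ind_sq (p : Prop) : ind p ^ 2 = ind p := by
  by_cases hp : p
  · rw [ind_of hp, one_pow]
  · rw [ind_of_not hp, zero_pow two_ne_zero]

/-- **The phase space of the closings**, sum form. -/
theorem sum_win_le (M : ℕ → Prop) (hM0 : M 0) {v : ℕ → ℕ} {b : ℕ} (hv : ∀ j, v j ≤ j ∧ j < v j + b) {ρ h l : ℕ}
    (hh : 0 < h) (hρ : 2 * h ≤ ρ) (S : Finset ℕ) {c d : ℕ} (hS : ∀ j ∈ S, c ≤ j ∧ j < d) :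
    ∑ j ∈ S, ind (CloR M ρ 0 l (v j)) ≤
      (((l : ℝ) + b) / h) * ∑ i ∈ Ico (c - b - h) (d + l), ind (LoR M h i) := by
  classical
  have e : ∀ (T : Finset ℕ) (P : ℕ → Prop), ∑ j ∈ T, ind (P j) = ((T.filter P).card : ℝ) := fun T P => by
    rw [card_filter]
    push_cast
    refine sum_congr rfl fun j _ => ?_
    by_cases hp : P j
    · rw [if_pos hp, ind_of hp]
    · rw [if_neg hp, ind_of_not hp]
  rw [e, e]
  have h1 := card_win_le M hM0 hv hρ S hS (l := l)
  have h2 : (((S.filter fun j => CloR M ρ 0 l (v j)).card : ℕ) : ℝ) * h ≤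
      ((l : ℝ) + b) * (((Ico (c - b - h) (d + l)).filter fun i => LoR M h i).card : ℝ) := by exact_mod_cast h1
  have hp : (0 : ℝ) < h := by exact_mod_cast hh
  rw [div_mul_eq_mul_div, le_div_iff₀ hp]
  exact h2

/-! ### Row sum and Cauchy - Schwarz for tuples -/

section Tup

variable {Ω : Type*} [MeasurableSpace Ω] {P : Measure Ω} {T ι : Type*} [Fintype T]

/-- The average of a functional of the tuples. -/
def tav (r : T → ℝ) (Φ : T → ℝ) : ℝ := ∑ x, r x * Φ x

theorem tav_mono {r : T → ℝ} (hr : ∀ x, 0 ≤ r x) {Φ Ψ : T → ℝ} (h : ∀ x, Φ x ≤ Ψ x) : tav r Φ ≤ tav r Ψ :=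
  sum_le_sum fun x _ => mul_le_mul_of_nonneg_left (h x) (hr x)

theorem tav_nonneg {r : T → ℝ} (hr : ∀ x, 0 ≤ r x) {Φ : T → ℝ} (h : ∀ x, 0 ≤ Φ x) : 0 ≤ tav r Φ :=
  sum_nonneg fun x _ => mul_nonneg (hr x) (h x)

theorem tav_sum (r : T → ℝ) (S : Finset ι) (Φ : ι → T → ℝ) : tav r (fun x => ∑ j ∈ S, Φ j x) = ∑ j ∈ S, tav r (Φ j) := by
  unfold tav
  rw [sum_comm]
  exact sum_congr rfl fun x _ => mul_sum _ _ _

theorem tav_smul (r : T → ℝ) (a : ℝ) (Φ : T → ℝ) : tav r (fun x => a * Φ x) = a * tav r Φ := by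
  unfold tav
  rw [mul_sum]
  exact sum_congr rfl fun x _ => by ring

/-- **Cauchy - Schwarz** for the weights `r`. -/
theorem tav_cauchy {r : T → ℝ} (hr : ∀ x, 0 ≤ r x) (A B : T → ℝ) :
    tav r (fun x => |A x| * |B x|) ≤ Real.sqrt (tav r fun x => A x ^ 2) * Real.sqrt (tav r fun x => B x ^ 2) := by
  have h1 : (tav r fun x => |A x| * |B x|) =
      ∑ x, (Real.sqrt (r x) * |A x|) * (Real.sqrt (r x) * |B x|) := by
    unfold tav
    refine sum_congr rfl fun x _ => ?_
    have := Real.mul_self_sqrt (hr x)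
    calc r x * (|A x| * |B x|) = (Real.sqrt (r x) * Real.sqrt (r x)) * (|A x| * |B x|) := by rw [this]
      _ = _ := by ring
  have h2 : ∀ C : T → ℝ, (tav r fun x => C x ^ 2) = ∑ x, (Real.sqrt (r x) * |C x|) ^ 2 := fun C => by
    unfold tav
    refine sum_congr rfl fun x _ => ?_
    rw [mul_pow, Real.sq_sqrt (hr x), sq_abs]
  rw [h1, h2, h2]
  have h3 := Finset.sum_mul_sq_le_sq_mul_sq univ (fun x => Real.sqrt (r x) * |A x|) fun x => Real.sqrt (r x) * |B x|
  have h4 : 0 ≤ ∑ x, (Real.sqrt (r x) * |A x|) * (Real.sqrt (r x) * |B x|) := sum_nonneg fun x _ => by positivity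
  rw [← Real.sqrt_mul (sum_nonneg fun x _ => sq_nonneg _)]
  exact Real.le_sqrt_of_sq_le h3

/-- **Sum over the rows first, Cauchy - Schwarz after**: `D j` = the functional of the row `j`, `H` = the far difference. -/
theorem row_cs {r : Ω → T → ℝ} (hr : ∀ ω x, 0 ≤ r ω x) (S : Finset ι) {D : ι → Ω → T → ℝ} (D0 : ∀ j ∈ S, ∀ ω x, 0 ≤ D j ω x)
    (H : Ω → T → ℝ) (i1 : ∀ j ∈ S, Integrable (fun ω => tav (r ω) fun x => D j ω x * |H ω x|) P)
    (i2 : Integrable (fun ω => tav (r ω) fun x => (∑ j ∈ S, D j ω x) ^ 2) P)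
    (i3 : Integrable (fun ω => tav (r ω) fun x => H ω x ^ 2) P) :
    ∑ j ∈ S, ∫ ω, (tav (r ω) fun x => D j ω x * |H ω x|) ∂P ≤
      Real.sqrt (∫ ω, (tav (r ω) fun x => (∑ j ∈ S, D j ω x) ^ 2) ∂P) *
        Real.sqrt (∫ ω, (tav (r ω) fun x => H ω x ^ 2) ∂P) := by
  have A0 : ∀ ω, 0 ≤ tav (r ω) fun x => (∑ j ∈ S, D j ω x) ^ 2 := fun ω => tav_nonneg (hr ω) fun x => sq_nonneg _
  have B0 : ∀ ω, 0 ≤ tav (r ω) fun x => H ω x ^ 2 := fun ω => tav_nonneg (hr ω) fun x => sq_nonneg _
  rw [← integral_finsetSum _ i1]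
  refine le_trans ?_ (int_sqrt_mul_le i2 i3 A0 B0)
  have hp : ∀ ω, ∑ j ∈ S, (tav (r ω) fun x => D j ω x * |H ω x|) ≤
      Real.sqrt (tav (r ω) fun x => (∑ j ∈ S, D j ω x) ^ 2) * Real.sqrt (tav (r ω) fun x => H ω x ^ 2) := fun ω => by
    rw [← tav_sum]
    have h1 : (tav (r ω) fun x => ∑ j ∈ S, D j ω x * |H ω x|) = tav (r ω) fun x => |∑ j ∈ S, D j ω x| * |H ω x| := by
      congr 1
      funext x
      rw [← sum_mul, abs_of_nonneg (sum_nonneg fun j hj => D0 j hj ω x)]
    rw [h1]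
    exact tav_cauchy (hr ω) _ _
  refine integral_mono (integrable_finsetSum _ i1) ?_ hp
  refine Integrable.mono' ((i2.add i3).const_mul (1 / 2)) ?_ (Filter.Eventually.of_forall fun ω => ?_)
  · exact (Real.continuous_sqrt.comp_aestronglyMeasurable i2.aestronglyMeasurable).mul
      (Real.continuous_sqrt.comp_aestronglyMeasurable i3.aestronglyMeasurable)
  · rw [Real.norm_eq_abs, abs_of_nonneg (mul_nonneg (Real.sqrt_nonneg _) (Real.sqrt_nonneg _)), Pi.add_apply]
    nlinarith [sq_nonneg (Real.sqrt (tav (r ω) fun x => (∑ j ∈ S, D j ω x) ^ 2) - Real.sqrt (tav (r ω) fun x => H ω x ^ 2)),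
      Real.mul_self_sqrt (A0 ω), Real.mul_self_sqrt (B0 ω)]

/-- The second moment of the row sum is a double sum of prices. -/
theorem int_sq_sum {r : Ω → T → ℝ} {κ : Type*} (S : Finset κ) {L : κ → Ω → T → ℝ}
    (i : ∀ j ∈ S, ∀ k ∈ S, Integrable (fun ω => tav (r ω) fun x => L j ω x * L k ω x) P) :
    ∫ ω, (tav (r ω) fun x => (∑ j ∈ S, L j ω x) ^ 2) ∂P =
      ∑ j ∈ S, ∑ k ∈ S, ∫ ω, (tav (r ω) fun x => L j ω x * L k ω x) ∂P := by
  have e : ∀ ω, (tav (r ω) fun x => (∑ j ∈ S, L j ω x) ^ 2) = ∑ j ∈ S, ∑ k ∈ S, tav (r ω) fun x => L j ω x * L k ω x := by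
    intro ω
    have e1 : (tav (r ω) fun x => (∑ j ∈ S, L j ω x) ^ 2) = tav (r ω) fun x => ∑ j ∈ S, ∑ k ∈ S, L j ω x * L k ω x := by
      congr 1
      funext x
      rw [sq, sum_mul_sum]
    rw [e1, tav_sum]
    exact sum_congr rfl fun j _ => tav_sum _ _ _
  simp_rw [e]
  rw [integral_finsetSum _ fun j hj => integrable_finsetSum _ fun k hk => i j hj k hk]
  exact sum_congr rfl fun j hj => integral_finsetSum _ fun k hk => i j hj k hk

/-- **The row sum with a count**: `D j ≤ c j` pointwise with `∑ c j ≤ a ∑ L i`. -/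
theorem row_cs_cnt {r : Ω → T → ℝ} (hr : ∀ ω x, 0 ≤ r ω x) (S : Finset ι) {κ : Type*} (I : Finset κ) {D : ι → Ω → T → ℝ}
    (D0 : ∀ j ∈ S, ∀ ω x, 0 ≤ D j ω x) {L : κ → Ω → T → ℝ} {a : ℝ} (ha : 0 ≤ a)
    (hDL : ∀ ω x, ∑ j ∈ S, D j ω x ≤ a * ∑ i ∈ I, L i ω x)
    (H : Ω → T → ℝ) (i1 : ∀ j ∈ S, Integrable (fun ω => tav (r ω) fun x => D j ω x * |H ω x|) P)
    (i2 : Integrable (fun ω => tav (r ω) fun x => (∑ j ∈ S, D j ω x) ^ 2) P)
    (i3 : Integrable (fun ω => tav (r ω) fun x => H ω x ^ 2) P)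
    (i4 : ∀ j ∈ I, ∀ k ∈ I, Integrable (fun ω => tav (r ω) fun x => L j ω x * L k ω x) P) :
    ∑ j ∈ S, ∫ ω, (tav (r ω) fun x => D j ω x * |H ω x|) ∂P ≤
      a * Real.sqrt (∑ j ∈ I, ∑ k ∈ I, ∫ ω, (tav (r ω) fun x => L j ω x * L k ω x) ∂P) *
        Real.sqrt (∫ ω, (tav (r ω) fun x => H ω x ^ 2) ∂P) := by
  refine (row_cs hr S D0 H i1 i2 i3).trans (mul_le_mul_of_nonneg_right ?_ (Real.sqrt_nonneg _))
  rw [← int_sq_sum I i4]
  have h1 : ∫ ω, (tav (r ω) fun x => (∑ j ∈ S, D j ω x) ^ 2) ∂P ≤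
      a ^ 2 * ∫ ω, (tav (r ω) fun x => (∑ i ∈ I, L i ω x) ^ 2) ∂P := by
    rw [← integral_const_mul]
    have i5 : Integrable (fun ω => tav (r ω) fun x => (∑ i ∈ I, L i ω x) ^ 2) P := by
      have e : (fun ω => tav (r ω) fun x => (∑ j ∈ I, L j ω x) ^ 2) =
          fun ω => ∑ j ∈ I, ∑ k ∈ I, tav (r ω) fun x => L j ω x * L k ω x := by
        funext ω
        have e1 : (tav (r ω) fun x => (∑ j ∈ I, L j ω x) ^ 2) = tav (r ω) fun x => ∑ j ∈ I, ∑ k ∈ I, L j ω x * L k ω x := by
          congr 1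
          funext x
          rw [sq, sum_mul_sum]
        rw [e1, tav_sum]
        exact sum_congr rfl fun j _ => tav_sum _ _ _
      rw [e]
      exact integrable_finsetSum _ fun j hj => integrable_finsetSum _ fun k hk => i4 j hj k hk
    refine integral_mono i2 (i5.const_mul _) fun ω => ?_
    beta_reduce
    rw [← tav_smul]
    refine tav_mono (hr ω) fun x => ?_
    rw [← mul_pow]
    exact pow_le_pow_left₀ (sum_nonneg fun j hj => D0 j hj ω x) (hDL ω x) 2
  refine (Real.sqrt_le_sqrt h1).trans (le_of_eq ?_)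
  rw [Real.sqrt_mul (sq_nonneg a), Real.sqrt_sq ha]

end Tup

/-! ### Double sums of prices -/

/-- A double sum with three ranges: very near (`≤ C`, `H'` partners), near (`≤ B`, `H` partners), far (`≤ A`). -/
theorem double3_le {ι : Type*} [DecidableEq ι] (S : Finset ι) (q : ι → ι → ℝ) (near near' : ι → Finset ι) {A B C : ℝ} {H H' : ℕ}
    (hA : 0 ≤ A) (hB : 0 ≤ B) (hC : 0 ≤ C) (hfar : ∀ j ∈ S, ∀ k ∈ S, k ∉ near j → k ∉ near' j → q j k ≤ A)
    (hnear : ∀ j ∈ S, ∀ k ∈ S, k ∈ near j → k ∉ near' j → q j k ≤ B) (hvery : ∀ j ∈ S, ∀ k ∈ S, k ∈ near' j → q j k ≤ C)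
    (hcard : ∀ j ∈ S, (near j).card ≤ H) (hcard' : ∀ j ∈ S, (near' j).card ≤ H') :
    ∑ j ∈ S, ∑ k ∈ S, q j k ≤ (S.card : ℝ) ^ 2 * A + S.card * (H * B) + S.card * (H' * C) := by
  have h1 : ∀ j ∈ S, ∑ k ∈ S, q j k ≤ (S.card : ℝ) * A + H * B + H' * C := fun j hj => by
    have h2 : ∀ k ∈ S, q j k ≤ A + (if k ∈ near j then B else 0) + (if k ∈ near' j then C else 0) := fun k hk => by
      by_cases h' : k ∈ near' j
      · rw [if_pos h']
        have e1 := hvery j hj k hk h'
        split_ifs <;> linarith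
      · rw [if_neg h']
        by_cases h : k ∈ near j
        · rw [if_pos h]
          have e1 := hnear j hj k hk h h'
          linarith
        · rw [if_neg h]
          have e1 := hfar j hj k hk h h'
          linarith
    refine (Finset.sum_le_sum h2).trans ?_
    rw [Finset.sum_add_distrib, Finset.sum_add_distrib, Finset.sum_const, nsmul_eq_mul]
    have h3 : ∀ (nr : Finset ι) {D : ℝ} {K : ℕ}, 0 ≤ D → nr.card ≤ K → ∑ k ∈ S, (if k ∈ nr then D else 0) ≤ K * D := by
      intro nr D K hD hK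
      rw [← Finset.sum_filter, Finset.sum_const, nsmul_eq_mul]
      refine mul_le_mul_of_nonneg_right ?_ hD
      refine le_trans ?_ (Nat.cast_le.2 hK)
      exact Nat.cast_le.2 (Finset.card_le_card fun k hk => (Finset.mem_filter.1 hk).2)
    have e1 := h3 (near j) hB (hcard j hj)
    have e2 := h3 (near' j) hC (hcard' j hj)
    linarith
  refine (Finset.sum_le_sum h1).trans (le_of_eq ?_)
  rw [Finset.sum_const, nsmul_eq_mul]
  ring

end

end Pool.Agent.W_7d29a1_C0.T93
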