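import Pool.Agent.W_7d29a1_C0.Bri36B
import Pool.Agent.W_7d29a1_C0.Blk86B

/-!
MP_7d29a1_pr, [CURV0]: THE PRICE OF AN OUTER TIE TIMES A PRODUCT OF INNER TIES, IN THE MODEL (helper36).

`cover36`: two paths which meet at `c` and `d` and not in `[i, i + D]` have one of `O (log N)` local gaps `Gpc` (duration at most `32 t`,
`t = 2 ^ κ D`), whose windows `[τ, τ + t)` avoid a given set of rows `V` (covered by three intervals of length `D`).
`prod36`: the product price for places (`pl_prod` of helper86) as an inequality between integrals of Gibbs means.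
`tieprod36`: a replica conditional on the outside of `[c, d)` (free: `[0, N)`) which does not meet the base path in `[i, i + D]`, whatever
the duration of the gap, times inner places which see only rows of `V`: price `L ^ ε / EE' D` times the product of the inner prices.
-/

set_option autoImplicit false
set_option linter.unusedSectionVars false
set_option linter.style.haveILetI false

namespace Pool.Agent.W_7d29a1_C0.Bri36

open Finset MeasureTheory Pool.Agent.W_7d29a1_F Pool.Agent.W_7d29a1_X Pool.Agent.W_7d29a1_H Pool.Agent.W_7d29a1_HZ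
open Pool.Agent.W_7d29a1_HS (In wd)
open Pool.Agent.W_7d29a1_C0.Mod92
open Pool.Agent.W_7d29a1_C0.P86 (NoMeet Q1 mc On2 Gp Gpc Bk Pl pl_prod pl_lb pl_blk gpc_on2)
open Pool.W7d29a1.C0 (gz gm gz_pos gz_ne gm_mono gm_const gm_nonneg PP PP_eq PP_mono PP_smul PP_nonneg PP_add)
open Pool.W7d29a1.C0.VT31
open Pool.Agent.W_7d29a1_C0.Swap57
open scoped ENNReal

/-! ### Gaps -/

/-- The gap around an interval without meeting. -/
theorem gap_of {c d i j : ℕ} {S S' : Finset ℕ} (hci : c ≤ i) (hij : i ≤ j) (hjd : j ≤ d) (hc : pos S c = pos S' c)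
    (hd : pos S d = pos S' d) (hn : NoMeet i j S S') :
    ∃ a b' : ℕ, c ≤ a ∧ a < i ∧ j < b' ∧ b' ≤ d ∧ pos S a = pos S' a ∧ pos S b' = pos S' b' ∧
      ∀ k, a < k → k < b' → pos S k ≠ pos S' k := by
  classical
  have hex : ∃ k, j ≤ k ∧ pos S k = pos S' k := ⟨d, hjd, hd⟩
  have h1 : pos S (Nat.findGreatest (fun k => pos S k = pos S' k) i) = pos S' (Nat.findGreatest (fun k => pos S k = pos S' k) i) :=
    Nat.findGreatest_spec (P := fun k => pos S k = pos S' k) hci hc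
  have h2 : c ≤ Nat.findGreatest (fun k => pos S k = pos S' k) i := Nat.le_findGreatest hci hc
  have h3 : Nat.findGreatest (fun k => pos S k = pos S' k) i ≤ i := Nat.findGreatest_le i
  have h4 : Nat.findGreatest (fun k => pos S k = pos S' k) i < i :=
    lt_of_le_of_ne h3 fun e => hn i le_rfl hij (by rw [← e]; exact h1)
  obtain ⟨h5, h6⟩ := Nat.find_spec hex
  have h7 : j < Nat.find hex := lt_of_le_of_ne h5 fun e => hn j hij le_rfl (by rw [e]; exact h6)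
  refine ⟨_, _, h2, h4, h7, Nat.find_min' hex ⟨hjd, hd⟩, h1, h6, fun k hk1 hk2 he => ?_⟩
  by_cases hki : k ≤ i
  · exact Nat.findGreatest_is_greatest hk1 hki he
  · by_cases hkj : k ≤ j
    · exact hn k (by omega) hkj he
    · exact Nat.find_min hex hk2 ⟨by omega, he⟩

/-- Among four windows of length `t` at mutual distance at least `2 t` one avoids three intervals of length `D ≤ t`. -/
theorem avoid {D t : ℕ} (hDt : D ≤ t) {V : Finset ℕ} {a : Fin 3 → ℕ} (hV : ∀ v ∈ V, ∃ n, a n ≤ v ∧ v < a n + D)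
    (x : Fin 4 → ℕ) (hx : ∀ m m', m ≠ m' → x m + 2 * t ≤ x m' ∨ x m' + 2 * t ≤ x m) :
    ∃ m, Disjoint (Ico (x m) (x m + t)) V := by
  by_contra hcon
  push Not at hcon
  have h1 : ∀ m, ∃ n : Fin 3, ∃ v, x m ≤ v ∧ v < x m + t ∧ a n ≤ v ∧ v < a n + D := by
    intro m
    obtain ⟨v, hv1, hv2⟩ := not_disjoint_iff.1 (hcon m)
    rw [mem_Ico] at hv1
    obtain ⟨n, hn1, hn2⟩ := hV v hv2
    exact ⟨n, v, hv1.1, hv1.2, hn1, hn2⟩
  choose f hf using h1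
  obtain ⟨m, m', hne, he⟩ := Fintype.exists_ne_map_eq_of_card_lt f (by simp)
  obtain ⟨v, g1, g2, g3, g4⟩ := hf m
  obtain ⟨v', g1', g2', g3', g4'⟩ := hf m'
  rw [← he] at g3' g4'
  rcases hx m m' hne with h | h <;> omega

/-- **Cover by gaps of comparable duration.** -/
theorem cover36 {N c d i D : ℕ} (hD : 4 ≤ D) (hci : c ≤ i) (hid : i + D ≤ d) (hdN : d ≤ N) {V : Finset ℕ} {a : Fin 3 → ℕ}
    (hV : ∀ v ∈ V, ∃ n, a n ≤ v ∧ v < a n + D) (hiV : Disjoint (Ico i (i + D)) V) :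
    ∃ P : Finset (ℕ × ℕ), P.card ≤ 2 * (Nat.log 2 N + 1) + 1 ∧
      (∀ p ∈ P, D ≤ p.1 ∧ p.1 ≤ N ∧ Disjoint (Ico p.2 (p.2 + p.1)) V) ∧
      ∀ S S' : Finset ℕ, pos S c = pos S' c → pos S d = pos S' d → NoMeet i (i + D) S S' → ∃ p ∈ P, Gpc c d p.1 p.2 S S' := by
  classical
  have hDt : ∀ κ : ℕ, D ≤ 2 ^ κ * D := fun κ => Nat.le_mul_of_pos_left D (by positivity)
  have hL : ∀ κ : ℕ, ∃ τ : ℕ, 8 * (2 ^ κ * D) ≤ i → Disjoint (Ico τ (τ + 2 ^ κ * D)) V ∧ τ < i ∧ ∃ m : ℕ, m < 4 ∧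
      τ + 2 * (m + 1) * (2 ^ κ * D) = i := by
    intro κ
    by_cases h8 : 8 * (2 ^ κ * D) ≤ i
    · set t := 2 ^ κ * D with ht
      have hD' := hDt κ
      obtain ⟨m, hm⟩ := avoid (hDt κ) hV (fun m : Fin 4 => i - 2 * (m + 1) * t) (by
        intro m m' hne
        have h1 : (m : ℕ) ≠ m' := fun h => hne (Fin.ext h)
        have h2 : ∀ n : Fin 4, 2 * ((n : ℕ) + 1) * t ≤ 8 * t := fun n => Nat.mul_le_mul_right _ (by have := n.2; omega)
        have h3 := h2 m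
        have h4 := h2 m'
        rcases lt_or_gt_of_ne h1 with h5 | h5
        · right
          have h6 : 2 * ((m : ℕ) + 1) * t + 2 * t ≤ 2 * ((m' : ℕ) + 1) * t := by
            have : (2 * ((m : ℕ) + 1) + 2) * t ≤ 2 * ((m' : ℕ) + 1) * t := Nat.mul_le_mul_right _ (by omega)
            linarith
          omega
        · left
          have h6 : 2 * ((m' : ℕ) + 1) * t + 2 * t ≤ 2 * ((m : ℕ) + 1) * t := by
            have : (2 * ((m' : ℕ) + 1) + 2) * t ≤ 2 * ((m : ℕ) + 1) * t := Nat.mul_le_mul_right _ (by omega)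
            linarith
          omega)
      have h2 : 2 * ((m : ℕ) + 1) * t ≤ 8 * t := Nat.mul_le_mul_right _ (by have := m.2; omega)
      have h3 : 1 * t ≤ 2 * ((m : ℕ) + 1) * t := Nat.mul_le_mul_right _ (by omega)
      exact ⟨i - 2 * ((m : ℕ) + 1) * t, fun _ => ⟨hm, by omega, m, m.2, by omega⟩⟩
    · exact ⟨0, fun h => absurd h h8⟩
  have hR : ∀ κ : ℕ, ∃ τ : ℕ, Disjoint (Ico τ (τ + 2 ^ κ * D)) V ∧ ∃ m : ℕ, m < 4 ∧ τ = i + 2 * m * (2 ^ κ * D) := by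
    intro κ
    set t := 2 ^ κ * D with ht
    obtain ⟨m, hm⟩ := avoid (hDt κ) hV (fun m : Fin 4 => i + 2 * m * t) (by
      intro m m' hne
      have h1 : (m : ℕ) ≠ m' := fun h => hne (Fin.ext h)
      rcases lt_or_gt_of_ne h1 with h5 | h5
      · left
        have : (2 * (m : ℕ) + 2) * t ≤ 2 * (m' : ℕ) * t := Nat.mul_le_mul_right _ (by omega)
        linarith
      · right
        have : (2 * (m' : ℕ) + 2) * t ≤ 2 * (m : ℕ) * t := Nat.mul_le_mul_right _ (by omega)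
        linarith)
    exact ⟨i + 2 * m * t, hm, m, m.2, rfl⟩
  choose fL hfL using hL
  choose fR hfR using hR
  set PL : Finset (ℕ × ℕ) := ((range (Nat.log 2 N + 1)).filter fun κ => 8 * (2 ^ κ * D) ≤ i ∧ 2 ^ κ * D ≤ N).image
    fun κ => (2 ^ κ * D, fL κ) with hPL
  set PR : Finset (ℕ × ℕ) := ((range (Nat.log 2 N + 1)).filter fun κ => 2 ^ κ * D ≤ N).image
    fun κ => (2 ^ κ * D, fR κ) with hPR
  have cL : PL.card ≤ Nat.log 2 N + 1 := card_image_le.trans ((card_filter_le _ _).trans (card_range _).le)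
  have cR : PR.card ≤ Nat.log 2 N + 1 := card_image_le.trans ((card_filter_le _ _).trans (card_range _).le)
  refine ⟨insert (D, i) (PL ∪ PR), ?_, ?_, ?_⟩
  · refine (card_insert_le _ _).trans ?_
    have := card_union_le PL PR
    omega
  · intro p hp
    rw [mem_insert, mem_union] at hp
    rcases hp with rfl | hp | hp
    · exact ⟨le_rfl, by omega, hiV⟩
    · rw [hPL, mem_image] at hp
      obtain ⟨κ, hκ, rfl⟩ := hp
      rw [mem_filter] at hκ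
      exact ⟨hDt κ, hκ.2.2, (hfL κ hκ.2.1).1⟩
    · rw [hPR, mem_image] at hp
      obtain ⟨κ, hκ, rfl⟩ := hp
      rw [mem_filter] at hκ
      exact ⟨hDt κ, hκ.2, (hfR κ).1⟩
  · intro S S' hc hd hn
    obtain ⟨u, u', h1, h2, h3, h4, h5, h6, h7⟩ := gap_of hci (Nat.le_add_right i D) hid hc hd hn
    by_cases h0 : u' ≤ u + 32 * D
    · refine ⟨(D, i), mem_insert_self _ _, u, u', h1, h2.le, ?_, h4, h0, h5, h6, fun k hk1 hk2 => h7 k (by omega) ?_⟩
      · show i + D / 4 ≤ u'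
        omega
      · have : k ≤ i + D / 4 := hk2
        omega
    · have hex : ∃ κ : ℕ, u' ≤ u + 32 * (2 ^ κ * D) := by
        refine ⟨u', ?_⟩
        have g1 : u' < 2 ^ u' := Nat.lt_two_pow_self
        have g2 : 2 ^ u' * 1 ≤ 2 ^ u' * D := Nat.mul_le_mul_left _ (by omega)
        omega
      obtain ⟨κ, hκ1, hκ2⟩ : ∃ κ : ℕ, u' ≤ u + 32 * (2 ^ κ * D) ∧ ∀ m < κ, ¬ u' ≤ u + 32 * (2 ^ m * D) :=
        ⟨Nat.find hex, Nat.find_spec hex, fun m hm => Nat.find_min hex hm⟩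
      have hκ0 : κ ≠ 0 := by
        rintro rfl
        rw [pow_zero, one_mul] at hκ1
        exact h0 hκ1
      obtain ⟨κ', rfl⟩ := Nat.exists_eq_succ_of_ne_zero hκ0
      have h8 := hκ2 κ' (Nat.lt_succ_self _)
      set t := 2 ^ (κ'.succ) * D with ht
      have ht2 : t = 2 * (2 ^ κ' * D) := by
        rw [ht, Nat.pow_succ]
        ring
      have h9 : u + 16 * t < u' := by omega
      have hDt' : D ≤ t := hDt _
      have htN : t ≤ N := by omega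
      have hlog : κ'.succ ∈ range (Nat.log 2 N + 1) := by
        rw [mem_range, Nat.lt_succ_iff]
        refine Nat.le_log_of_pow_le (by norm_num) ?_
        calc 2 ^ κ'.succ = 2 ^ κ'.succ * 1 := (mul_one _).symm
          _ ≤ 2 ^ κ'.succ * D := Nat.mul_le_mul_left _ (by omega)
          _ ≤ N := htN
      rcases Nat.lt_or_ge (u + 8 * t) i with hside | hside
      · -- left
        obtain ⟨g1, g2, m, g3, g4⟩ := hfL κ'.succ (by omega)
        have g5 : 2 * (m + 1) * t ≤ 8 * t := Nat.mul_le_mul_right _ (by omega)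
        have g6 : 2 * 1 * t ≤ 2 * (m + 1) * t := Nat.mul_le_mul_right _ (by omega)
        refine ⟨(t, fL κ'.succ), mem_insert_of_mem (mem_union_left _ ?_), u, u', h1, ?_, ?_, h4, hκ1, h5, h6,
          fun k hk1 hk2 => h7 k ?_ ?_⟩
        · rw [hPL, mem_image]
          exact ⟨κ'.succ, mem_filter.2 ⟨hlog, by omega, htN⟩, rfl⟩
        · show u ≤ fL κ'.succ
          rw [← ht] at g4
          omega
        · show fL κ'.succ + t / 4 ≤ u'
          rw [← ht] at g4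
          omega
        · have : fL κ'.succ ≤ k := hk1
          rw [← ht] at g4
          omega
        · have : k ≤ fL κ'.succ + t / 4 := hk2
          rw [← ht] at g4
          omega
      · obtain ⟨g1, m, g3, g4⟩ := hfR κ'.succ
        have g5 : 2 * m * t ≤ 6 * t := Nat.mul_le_mul_right _ (by omega)
        rw [← ht] at g4
        refine ⟨(t, fR κ'.succ), mem_insert_of_mem (mem_union_right _ ?_), u, u', h1, ?_, ?_, h4, hκ1, h5, h6,
          fun k hk1 hk2 => h7 k ?_ ?_⟩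
        · rw [hPR, mem_image]
          exact ⟨κ'.succ, mem_filter.2 ⟨hlog, htN⟩, rfl⟩
        · show u ≤ fR κ'.succ
          omega
        · show fR κ'.succ + t / 4 ≤ u'
          omega
        · have : fR κ'.succ ≤ k := hk1
          omega
        · have : k ≤ fR κ'.succ + t / 4 := hk2
          omega

/-! ### Sums -/

theorem cE_fsum {X Y ι : Type*} [Fintype X] [DecidableEq Y] (w : X → ℝ) (p : X → Y) (I : Finset ι) (f : ι → X → ℝ) (x : X) :
    cE w p (fun z => ∑ i ∈ I, f i z) x = ∑ i ∈ I, cE w p (f i) x := by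
  unfold cE
  rw [← sum_div, sum_comm]
  congr 1
  refine sum_congr rfl fun z _ => ?_
  split_ifs
  · rw [mul_sum]
  · rw [sum_const_zero]

theorem gm_fsum {X ι : Type*} [Fintype X] (w : X → ℝ) (I : Finset ι) (f : ι → X → ℝ) :
    gm w (fun z => ∑ i ∈ I, f i z) = ∑ i ∈ I, gm w (f i) := by
  unfold gm
  rw [← sum_div, sum_comm]
  congr 1
  exact sum_congr rfl fun z _ => mul_sum _ _ _

theorem Pl_mono_p {μ : Measure ℝ} {s : ℝ} {N : ℕ} {y : ℤ} {r p p' : ℝ≥0∞} {A : Finset ℕ → Finset ℕ → Prop} {J V : Finset ℕ}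
    (h : Pl μ s N y r p A J V) (hp : p ≤ p') : Pl μ s N y r p' A J V := by
  obtain ⟨NT, h1, h2, h3, h4⟩ := h
  exact ⟨NT, h1, h2, h3.trans hp, fun F hF ho => (h4 F hF ho).trans (add_le_add le_rfl hp)⟩

noncomputable section

variable {μ : Measure ℝ} {s : ℝ} {N y : ℕ}

/-- The product of the conditional masses of the partners. -/
def mP (w : Px (Pn N y) → ℝ) {k : ℕ} (c d : Fin k → ℕ) (A : Fin k → Finset ℕ → Finset ℕ → Prop) (S : Px (Pn N y)) : ℝ :=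
  ∏ n, cE w (pJ (c n) (d n)) (fun S' => ind (A n S.1 S'.1)) S

theorem cE_ind_nonneg (w : Px (Pn N y) → ℝ) (c d : ℕ) (A : Finset ℕ → Finset ℕ → Prop) (S : Px (Pn N y)) :
    0 ≤ cE w (pJ c d) (fun S' => ind (A S.1 S'.1)) S := by
  haveI : Nonempty (Px (Pn N y)) := ⟨S⟩
  exact cE_nonneg w _ (fun S' => ind_nonneg _) S

theorem cE_ind_le_one (w : Px (Pn N y) → ℝ) (c d : ℕ) (A : Finset ℕ → Finset ℕ → Prop) (S : Px (Pn N y)) :
    cE w (pJ c d) (fun S' => ind (A S.1 S'.1)) S ≤ 1 := by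
  haveI : Nonempty (Px (Pn N y)) := ⟨S⟩
  have e := cE_mono w (pJ c d) (f := fun S' : Px (Pn N y) => ind (A S.1 S'.1)) (g := fun _ => 1) (fun S' => ind_le_one _) S
  rwa [cE_one] at e

theorem mP_nonneg (w : Px (Pn N y) → ℝ) {k : ℕ} (c d : Fin k → ℕ) (A : Fin k → Finset ℕ → Finset ℕ → Prop) (S : Px (Pn N y)) :
    0 ≤ mP w c d A S := prod_nonneg fun _ _ => cE_ind_nonneg _ _ _ _ _

theorem mP_le_one (w : Px (Pn N y) → ℝ) {k : ℕ} (c d : Fin k → ℕ) (A : Fin k → Finset ℕ → Finset ℕ → Prop) (S : Px (Pn N y)) :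
    mP w c d A S ≤ 1 := prod_le_one (fun _ _ => cE_ind_nonneg _ _ _ _ _) fun _ _ => cE_ind_le_one _ _ _ _ _

theorem meas_cEi (c d : ℕ) (A : Finset ℕ → Finset ℕ → Prop) (S : Px (Pn N y)) :
    Measurable fun ω : Env × Finset ℕ => cE (wm μ s N (Pn N y) ω) (pJ c d) (fun S' => ind (A S.1 S'.1)) S :=
  meas_cE (w := fun ω => wm μ s N (Pn N y) ω) (f := fun _ (S' : Px (Pn N y)) => ind (A S.1 S'.1)) (fun x => meas_wm x)
    (fun x => measurable_const) _ _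

theorem NI_fun {Q : Finset (Finset ℕ)} (i j : ℕ) (S : Px Q) : NI i j S = fun S' => ind (NoMeet i j S.1 S'.1) :=
  funext fun S' => NI_ind i j S S'

theorem cE_NI_nonneg (w : Px (Pn N y) → ℝ) (c d i j : ℕ) (S : Px (Pn N y)) : 0 ≤ cE w (pJ c d) (NI i j S) S := by
  rw [NI_fun]
  exact cE_ind_nonneg w c d (NoMeet i j) S

theorem cE_NI_le_one (w : Px (Pn N y) → ℝ) (c d i j : ℕ) (S : Px (Pn N y)) : cE w (pJ c d) (NI i j S) S ≤ 1 := by
  rw [NI_fun]
  exact cE_ind_le_one w c d (NoMeet i j) S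

theorem meas_cENI (c d i j : ℕ) (S : Px (Pn N y)) :
    Measurable fun ω : Env × Finset ℕ => cE (wm μ s N (Pn N y) ω) (pJ c d) (NI i j S) S := by
  rw [NI_fun]
  exact meas_cEi c d (NoMeet i j) S

theorem meas_mP {k : ℕ} (c d : Fin k → ℕ) (A : Fin k → Finset ℕ → Finset ℕ → Prop) (S : Px (Pn N y)) :
    Measurable fun ω : Env × Finset ℕ => mP (wm μ s N (Pn N y) ω) c d A S :=
  Finset.measurable_fun_prod _ fun n _ => meas_cEi (c n) (d n) (A n) S

/-- **THE PRODUCT PRICE FOR PLACES, IN THE MODEL.** -/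
theorem prod36 [IsProbabilityMeasure μ] (k : ℕ) {c₁ : ℝ} (hc₁ : 0 < c₁) : ∃ c₂ : ℝ, 0 < c₂ ∧ ∃ L₀ : ℕ,
    ∀ L : ℕ, L₀ ≤ L → ∀ N y : ℕ, N ≤ L → y ≤ N →
    ∀ (r : Fin k → ℝ) (A : Fin k → Finset ℕ → Finset ℕ → Prop) (J V : Fin k → Finset ℕ) (c d : Fin k → ℕ), (∀ i, 0 ≤ r i) →
    (∀ i, Pl μ s N y (ENNReal.ofReal (r i)) (ENNReal.ofReal (Real.exp (-(L : ℝ) ^ c₁))) (A i) (J i) (V i)) →
    (∀ i i', i < i' → Disjoint (J i) (V i')) → (∀ i, c i ≤ d i ∧ d i ≤ N) → (∀ i, On2 (c i) (d i) (A i)) →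
    ∀ F : Env → Finset ℕ → Prop, Ms F → (∀ i, OffRows (J i) F) →
    ∫ ω, gm (wm μ s N (Pn N y) ω) (fun S => ind (F ω.1 S.1) * mP (wm μ s N (Pn N y) ω) c d A S) ∂(Pm μ N) ≤
      (∏ i, r i) * ∫ ω, gm (wm μ s N (Pn N y) ω) (fun S => ind (F ω.1 S.1)) ∂(Pm μ N) + Real.exp (-(L : ℝ) ^ c₂) := by
  obtain ⟨c₂, hc₂, L₀, hP⟩ := pl_prod (μ := μ) (s := s) k hc₁
  refine ⟨c₂, hc₂, L₀, fun L hL N y hNL hyN r A J V c d hr hPl hJV hcd hA F hF hFo => ?_⟩
  have h1 := hP L hL N y hNL hyN (fun i => ENNReal.ofReal (r i)) A J V c d hPl hJV hcd hA F hF hFo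
  rw [← ENNReal.ofReal_prod_of_nonneg fun i _ => hr i] at h1
  exact mod_of_Q1 hyN hF (prod_nonneg fun i _ => hr i) (Real.exp_pos _).le h1

/-- The same without an event. -/
theorem prodT36 [IsProbabilityMeasure μ] (k : ℕ) {c₁ : ℝ} (hc₁ : 0 < c₁) : ∃ c₂ : ℝ, 0 < c₂ ∧ ∃ L₀ : ℕ,
    ∀ L : ℕ, L₀ ≤ L → ∀ N y : ℕ, N ≤ L → y ≤ N →
    ∀ (r : Fin k → ℝ) (A : Fin k → Finset ℕ → Finset ℕ → Prop) (J V : Fin k → Finset ℕ) (c d : Fin k → ℕ), (∀ i, 0 ≤ r i) →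
    (∀ i, Pl μ s N y (ENNReal.ofReal (r i)) (ENNReal.ofReal (Real.exp (-(L : ℝ) ^ c₁))) (A i) (J i) (V i)) →
    (∀ i i', i < i' → Disjoint (J i) (V i')) → (∀ i, c i ≤ d i ∧ d i ≤ N) → (∀ i, On2 (c i) (d i) (A i)) →
    ∫ ω, gm (wm μ s N (Pn N y) ω) (fun S => mP (wm μ s N (Pn N y) ω) c d A S) ∂(Pm μ N) ≤
      (∏ i, r i) + Real.exp (-(L : ℝ) ^ c₂) := by
  obtain ⟨c₂, hc₂, L₀, hP⟩ := prod36 (μ := μ) (s := s) k hc₁
  refine ⟨c₂, hc₂, L₀, fun L hL N y hNL hyN r A J V c d hr hPl hJV hcd hA => ?_⟩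
  haveI := ne_Pn hyN
  have h1 := hP L hL N y hNL hyN r A J V c d hr hPl hJV hcd hA (fun _ _ => True) (fun S => by simp) fun i _ _ _ _ => Iff.rfl
  have e1 : ind True = 1 := ind_of trivial
  have e2 : ∀ ω : Env × Finset ℕ, gm (wm μ s N (Pn N y) ω) (fun _ => (1 : ℝ)) = 1 := fun ω => gm_const _ 1
  simp only [e1, one_mul, e2, integral_const, probReal_univ, smul_eq_mul, mul_one] at h1
  exact h1

/-- The number of the scales. -/
theorem log_card {β : ℝ} (hβ : 0 < β) : ∃ L₀ : ℕ, ∀ L : ℕ, L₀ ≤ L → ∀ N : ℕ, N ≤ L →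
    ((2 * (Nat.log 2 N + 1) + 1 : ℕ) : ℝ) ≤ (L : ℝ) ^ β := by
  obtain ⟨L₀, h⟩ := Pool.Agent.W_7d29a1_Z.NumI77.large hβ 4
  refine ⟨L₀ + 1, fun L hL N hN => ?_⟩
  obtain ⟨h1, -, h3⟩ := h L (by omega)
  refine le_trans ?_ h3
  have h4 : (Nat.log 2 N : ℝ) ≤ Real.logb 2 L := by
    refine le_trans ?_ (Real.natLog_le_logb L 2)
    exact_mod_cast Nat.log_mono_right hN
  have h5 : Real.logb 2 L ≤ 3 / 2 * Real.log L := by
    unfold Real.logb
    have h6 : (0.69 : ℝ) < Real.log 2 := lt_trans (by norm_num) Real.log_two_gt_d9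
    have h7 : 0 ≤ Real.log L := Real.log_nonneg (by exact_mod_cast h1)
    rw [div_le_iff₀ (by linarith)]
    nlinarith
  have h7 : 0 ≤ Real.log L := Real.log_nonneg (by exact_mod_cast h1)
  push_cast
  linarith

/-- **AN OUTER TIE OF ANY DURATION TIMES A PRODUCT OF INNER TIES.** -/
theorem tieprod36 [IsProbabilityMeasure μ] {c₀ C₀ : ℝ} {n₀ : ℕ} (h : In μ s c₀ C₀ n₀) (k : ℕ) : ∀ ε θ : ℝ, 0 < ε → 0 < θ →
    ∃ δ c₁ : ℝ, 0 < δ ∧ 0 < c₁ ∧ ∀ c₃ : ℝ, 0 < c₃ → c₃ ≤ c₁ → ∃ c₂ : ℝ, 0 < c₂ ∧ ∃ L₀ : ℕ,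
    ∀ L : ℕ, L₀ ≤ L → ∀ N : ℕ, L ≤ 16 * N → N ≤ L → ∀ y : ℕ, y ≤ N → |(y : ℝ) - sl μ s * N| ≤ ((L : ℝ) ^ δ * wd' μ s N) →
    ∀ c d i D : ℕ, (L : ℝ) ^ θ ≤ D → c ≤ i → i + D ≤ d → d ≤ N →
    ∀ (V₀ : Finset ℕ) (a : Fin 3 → ℕ), (∀ v ∈ V₀, ∃ n, a n ≤ v ∧ v < a n + D) → Disjoint (Ico i (i + D)) V₀ →
    ∀ (r : Fin k → ℝ) (A : Fin k → Finset ℕ → Finset ℕ → Prop) (J V : Fin k → Finset ℕ) (cc dd : Fin k → ℕ), (∀ n, 0 ≤ r n) →
    (∀ n, Pl μ s N y (ENNReal.ofReal (r n)) (ENNReal.ofReal (Real.exp (-(L : ℝ) ^ c₃))) (A n) (J n) (V n)) →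
    (∀ n n', n < n' → Disjoint (J n) (V n')) → (∀ n, V n ⊆ V₀) → (∀ n, cc n ≤ dd n ∧ dd n ≤ N) → (∀ n, On2 (cc n) (dd n) (A n)) →
    ∫ ω, gm (wm μ s N (Pn N y) ω) (fun S => cE (wm μ s N (Pn N y) ω) (pJ c d) (NI i (i + D) S) S *
        mP (wm μ s N (Pn N y) ω) cc dd A S) ∂(Pm μ N) ≤
      (L : ℝ) ^ ε * (EE' μ s D)⁻¹ * (∏ n, r n) + Real.exp (-(L : ℝ) ^ c₂) := by
  intro ε θ hε hθ
  obtain ⟨δ, c₁, hδ, hc₁, L₁, hP⟩ := pl_lb h (ε / 3) θ (by positivity) hθ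
  obtain ⟨a₀, K, ha₀, -, hK, hE⟩ := EE'_pow h
  refine ⟨δ, c₁, hδ, hc₁, fun c₃ hc₃ hc₃₁ => ?_⟩
  obtain ⟨c₂, hc₂, L₂, hQ⟩ := prodT36 (μ := μ) (s := s) (k + 1) hc₃
  obtain ⟨c₄, hc₄, -, L₃, hX⟩ := Pool.Agent.W_7d29a1_Z.NumI77.pow_exp hc₂ (ε / 3)
  obtain ⟨L₄, h4⟩ := log_card (show 0 < ε / 3 by positivity)
  obtain ⟨L₅, h5⟩ := Pool.Agent.W_7d29a1_Z.NumI77.large (show 0 < ε / 3 by positivity) K
  obtain ⟨L₆, h6⟩ := Pool.Agent.W_7d29a1_Z.NumI77.large hθ 4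
  refine ⟨c₄, hc₄, L₁ + L₂ + L₃ + L₄ + L₅ + L₆ + 1, ?_⟩
  intro L hL N hLN hNL y hyN hyc c d i D hDL hci hid hdN V₀ a hV hiV r A J V cc dd hr hPl hJV hVV hcd hA
  haveI := ne_Pn hyN
  have hL0 : (0 : ℝ) < L := by exact_mod_cast (show 0 < L by omega)
  obtain ⟨-, g5, -⟩ := h5 L (by omega)
  obtain ⟨-, g6, -⟩ := h6 L (by omega)
  have hD4 : 4 ≤ D := by exact_mod_cast g6.trans hDL
  obtain ⟨P, hPc, hP1, hP2⟩ := cover36 (N := N) hD4 hci hid hdN hV hiV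
  have hr0 : 0 ≤ ∏ n, r n := prod_nonneg fun n _ => hr n
  have hED : 0 < EE' μ s D := lt_of_lt_of_le zero_lt_one (le_max_left _ _)
  set w : Env × Finset ℕ → Px (Pn N y) → ℝ := fun ω => wm μ s N (Pn N y) ω with hw
  -- one gap
  have hone : ∀ p ∈ P, ∫ ω, gm (w ω) (fun S => cE (w ω) (pJ c d) (fun S' => ind (Gpc c d p.1 p.2 S.1 S'.1)) S *
      mP (w ω) cc dd A S) ∂(Pm μ N) ≤
      (L : ℝ) ^ (ε / 3) * (EE' μ s p.1)⁻¹ * (∏ n, r n) + Real.exp (-(L : ℝ) ^ c₂) := by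
    intro p hp
    obtain ⟨q1, q2, q3⟩ := hP1 p hp
    have hEp : 0 < EE' μ s p.1 := lt_of_lt_of_le zero_lt_one (le_max_left _ _)
    have hpl := hP L (by omega) N p.1 hLN hNL (hDL.trans (by exact_mod_cast q1)) q2 (y : ℤ) (by positivity)
      (by exact_mod_cast hyN) (by push_cast; exact hyc) p.2 c d hdN
    have hpl' := Pl_mono_p hpl (p' := ENNReal.ofReal (Real.exp (-(L : ℝ) ^ c₃)))
      (ENNReal.ofReal_le_ofReal (Pool.Agent.W_7d29a1_Z.NumI77.exp_mono hc₃₁ (by omega)))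
    have h1 := hQ L (by omega) N y hNL hyN (Fin.cons ((L : ℝ) ^ (ε / 3) * (EE' μ s p.1)⁻¹) r) (Fin.cons (Gpc c d p.1 p.2) A)
      (Fin.cons (Ico p.2 (p.2 + p.1)) J) (Fin.cons (Ioc (max c (p.2 - 32 * p.1)) (min d (p.2 + 33 * p.1))) V)
      (Fin.cons c cc) (Fin.cons d dd)
      (fun n => by
        refine Fin.cases ?_ (fun n => ?_) n
        · rw [Fin.cons_zero]
          positivity
        · rw [Fin.cons_succ]
          exact hr n)
      (fun n => by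
        refine Fin.cases ?_ (fun n => ?_) n
        · simp only [Fin.cons_zero]
          exact hpl'
        · simp only [Fin.cons_succ]
          exact hPl n)
      (fun n n' hn => by
        revert hn
        refine Fin.cases ?_ (fun n' => ?_) n'
        · intro hn
          exact absurd hn (Fin.not_lt_zero _)
        · refine Fin.cases ?_ (fun n => ?_) n
          · intro _
            rw [Fin.cons_zero, Fin.cons_succ]
            exact disjoint_of_subset_right (hVV n') q3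
          · intro hn
            rw [Fin.cons_succ, Fin.cons_succ]
            exact hJV n n' (Fin.succ_lt_succ_iff.1 hn))
      (fun n => by
        refine Fin.cases ?_ (fun n => ?_) n
        · rw [Fin.cons_zero, Fin.cons_zero]
          exact ⟨by omega, hdN⟩
        · rw [Fin.cons_succ, Fin.cons_succ]
          exact hcd n)
      (fun n => by
        refine Fin.cases ?_ (fun n => ?_) n
        · simp only [Fin.cons_zero]
          exact gpc_on2 _ _ _ _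
        · simp only [Fin.cons_succ]
          exact hA n)
    rw [Fin.prod_univ_succ] at h1
    simp only [Fin.cons_zero, Fin.cons_succ] at h1
    refine le_trans (le_of_eq ?_) h1
    refine integral_congr_ae (Filter.Eventually.of_forall fun ω => ?_)
    show gm (w ω) _ = gm (w ω) _
    congr 1
    funext S
    unfold mP
    rw [Fin.prod_univ_succ]
    simp only [Fin.cons_zero, Fin.cons_succ]
    rfl
  -- the cover
  have hI : ∀ B : Finset ℕ → Finset ℕ → Prop, Integrable (fun ω => gm (w ω) (fun S => cE (w ω) (pJ c d) (fun S' => ind (B S.1 S'.1)) S *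
      mP (w ω) cc dd A S)) (Pm μ N) := by
    intro B
    refine int_bdd (meas_gm (fun x => meas_wm x) fun S => (meas_cEi c d B S).mul (meas_mP cc dd A S)) (M := 1) fun ω => ?_
    have h0 : ∀ S : Px (Pn N y), 0 ≤ cE (w ω) (pJ c d) (fun S' => ind (B S.1 S'.1)) S * mP (w ω) cc dd A S := fun S =>
      mul_nonneg (cE_ind_nonneg _ _ _ _ _) (mP_nonneg _ _ _ _ _)
    rw [abs_of_nonneg (gm_nonneg _ h0)]
    calc gm (w ω) (fun S => cE (w ω) (pJ c d) (fun S' => ind (B S.1 S'.1)) S * mP (w ω) cc dd A S)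
        ≤ gm (w ω) (fun _ => 1) := gm_mono _ fun S =>
          mul_le_one₀ (cE_ind_le_one _ _ _ _ _) (mP_nonneg _ _ _ _ _) (mP_le_one _ _ _ _ _)
      _ = 1 := gm_const _ 1
  have hcov : ∀ ω, gm (w ω) (fun S => cE (w ω) (pJ c d) (NI i (i + D) S) S * mP (w ω) cc dd A S) ≤
      ∑ p ∈ P, gm (w ω) (fun S => cE (w ω) (pJ c d) (fun S' => ind (Gpc c d p.1 p.2 S.1 S'.1)) S * mP (w ω) cc dd A S) := by
    intro ω
    rw [← gm_fsum]
    refine gm_mono _ fun S => ?_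
    rw [← sum_mul, ← cE_fsum]
    refine mul_le_mul_of_nonneg_right (cE_mono_fib _ _ fun S' hS' => ?_) (mP_nonneg _ _ _ _ _)
    by_cases hn : NoMeet i (i + D) S.1 S'.1
    · obtain ⟨p, hp, hg⟩ := hP2 S.1 S'.1 (ps_of_le hS' le_rfl).symm (ps_of_ge hS' le_rfl).symm hn
      have e1 : NI i (i + D) S S' = 1 := (NI_ind _ _ _ _).trans (ind_of hn)
      rw [e1]
      calc (1 : ℝ) = ind (Gpc c d p.1 p.2 S.1 S'.1) := (ind_of hg).symm
        _ ≤ _ := single_le_sum (f := fun p : ℕ × ℕ => ind (Gpc c d p.1 p.2 S.1 S'.1)) (fun _ _ => ind_nonneg _) hp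
    · have e1 : NI i (i + D) S S' = 0 := (NI_ind _ _ _ _).trans (ind_not hn)
      rw [e1]
      exact sum_nonneg fun _ _ => ind_nonneg _
  have hsum : ∫ ω, gm (w ω) (fun S => cE (w ω) (pJ c d) (NI i (i + D) S) S * mP (w ω) cc dd A S) ∂(Pm μ N) ≤
      ∑ p ∈ P, ∫ ω, gm (w ω) (fun S => cE (w ω) (pJ c d) (fun S' => ind (Gpc c d p.1 p.2 S.1 S'.1)) S *
        mP (w ω) cc dd A S) ∂(Pm μ N) := by
    rw [← integral_finsetSum _ fun p _ => hI (Gpc c d p.1 p.2)]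
    have hI0 : Integrable (fun ω => gm (w ω) (fun S => cE (w ω) (pJ c d) (NI i (i + D) S) S * mP (w ω) cc dd A S)) (Pm μ N) := by
      simp only [NI_fun]
      exact hI (NoMeet i (i + D))
    exact integral_mono hI0 (integrable_finsetSum _ fun p _ => hI (Gpc c d p.1 p.2)) hcov
  refine hsum.trans ((sum_le_sum hone).trans ?_)
  have hterm : ∀ p ∈ P, (L : ℝ) ^ (ε / 3) * (EE' μ s p.1)⁻¹ * (∏ n, r n) + Real.exp (-(L : ℝ) ^ c₂) ≤
      (L : ℝ) ^ (ε / 3) * (K * (EE' μ s D)⁻¹) * (∏ n, r n) + Real.exp (-(L : ℝ) ^ c₂) := by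
    intro p hp
    obtain ⟨q1, -, -⟩ := hP1 p hp
    have hEp : 0 < EE' μ s p.1 := lt_of_lt_of_le zero_lt_one (le_max_left _ _)
    obtain ⟨q4, -, -⟩ := hE D p.1 (by omega) q1
    have q5 : (EE' μ s p.1)⁻¹ ≤ K * (EE' μ s D)⁻¹ := by
      rw [inv_eq_one_div, div_le_iff₀ hEp, mul_assoc, mul_comm (EE' μ s D)⁻¹, ← mul_assoc, ← div_eq_mul_inv, le_div_iff₀ hED, one_mul]
      exact q4
    gcongr
  refine (sum_le_sum hterm).trans ?_
  rw [sum_const, nsmul_eq_mul]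
  have hPn : (P.card : ℝ) ≤ (L : ℝ) ^ (ε / 3) := (by exact_mod_cast hPc : (P.card : ℝ) ≤ ((2 * (Nat.log 2 N + 1) + 1 : ℕ) : ℝ)).trans
    (h4 L (by omega) N hNL)
  have e3 : (L : ℝ) ^ ε = (L : ℝ) ^ (ε / 3) * (L : ℝ) ^ (ε / 3) * (L : ℝ) ^ (ε / 3) := by
    rw [← Real.rpow_add hL0, ← Real.rpow_add hL0]
    congr 1
    ring
  have hx : 0 < (L : ℝ) ^ (ε / 3) := Real.rpow_pos_of_pos hL0 _
  have hfin := hX L (by omega)
  calc (P.card : ℝ) * ((L : ℝ) ^ (ε / 3) * (K * (EE' μ s D)⁻¹) * (∏ n, r n) + Real.exp (-(L : ℝ) ^ c₂))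
      ≤ (L : ℝ) ^ (ε / 3) * ((L : ℝ) ^ (ε / 3) * ((L : ℝ) ^ (ε / 3) * (EE' μ s D)⁻¹) * (∏ n, r n) + Real.exp (-(L : ℝ) ^ c₂)) := by
        gcongr
    _ = (L : ℝ) ^ ε * (EE' μ s D)⁻¹ * (∏ n, r n) + (L : ℝ) ^ (ε / 3) * Real.exp (-(L : ℝ) ^ c₂) := by
        rw [e3]
        ring
    _ ≤ _ := by linarith

end

end Pool.Agent.W_7d29a1_C0.Bri36
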