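import Pool.Agent.W_7d29a1_C0.TieW13
import Pool.Agent.W_7d29a1_C0.DlrA46

/-!
C0, helper46 (after helper13, TieG13): `tieER_all` FOR WEIGHTS WHICH ARE ANTITONE IN THE STRIP. The weight of the rest is any measurable
`R S η ∈ [0, 1]` such that `R S η / ZC η` is nonincreasing in the sites of the strip of `V` for every path `S` on the left of the line
(`AntR`): no normalisation is separated. Used for plans of replicas at TILTED weights: the fibre sums of `pth * exp u` are nondecreasing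
in the strip when the tilt `u` does not see it.
-/

set_option autoImplicit false

namespace Pool.Agent.W_7d29a1_HZ.ZE

open MeasureTheory ProbabilityTheory Filter Topology Finset
open Pool.Agent.W_7d29a1_F Pool.Agent.W_7d29a1_X Pool.Agent.W_7d29a1_h4g Pool.Agent.W_7d29a1_H Pool.Agent.W_7d29a1_HZ
open Pool.Agent.W_7d29a1_HS (In wd md)
open Pool.Agent.W_7d29a1_HZ.Z15
open Pool.Agent.W_7d29a1_Z15 (Cls AdC Own PC aC chainP locA DlrA Hs_mono)
open Pool.Agent.W_7d29a1_Z (exists_of_mem_sJ)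
open Pool.Agent.W_7d29a1_ZE (Win Br cAnd mid Ce al real_of_le two_exp nJ_div)
open scoped ENNReal

noncomputable section

variable {μ : Measure ℝ} {s : ℝ}

/-! ### The weights -/

/-- The weight of the rest: measurable, between `0` and `1`. -/
structure RaOk (R : Finset ℕ → Env → ℝ) : Prop where
  rm : ∀ S, Measurable (R S)
  r0 : ∀ S η, 0 ≤ R S η
  r1 : ∀ S η, R S η ≤ 1

/-- The weights of the paths. -/
def wR6 (μ : Measure ℝ) (s : ℝ) (N : ℕ) (R : Finset ℕ → Env → ℝ) (S : Finset ℕ) (η : Env) : ℝ := R S η * wC μ s N S η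

/-- The weight over the normalisation is nonincreasing in the strip of the window, for the paths on the left of the line. -/
def AntR (μ : Measure ℝ) (s : ℝ) (V : Win) (R : Finset ℕ → Env → ℝ) : Prop :=
  ∀ (η η' : Env) (S : Finset ℕ), InL μ s V.sg V.J V.Y S → η ≤ η' → (∀ q : Pt, ¬ InStrip μ s V q → η q = η' q) →
    R S η' / ZC μ s V.N V.y η' ≤ R S η / ZC μ s V.N V.y η

open scoped Classical in
theorem Hs_eqR [IsProbabilityMeasure μ] {N : ℕ} {y : ℤ} (h0 : 0 ≤ y) (h1 : y ≤ N) (F : Finset ℕ → Prop) (C : Cls)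
    (B : Finset (ℕ × ℕ)) (R : Finset ℕ → Env → ℝ) (Q : Env → Finset ℕ → Prop) (η : Env) :
    W_7d29a1_Z59.Hs (PC N y F C B) (fun _ _ => 1) (wR6 μ s N R) (ZC μ s N y) (fun S η => if Q η S then 1 else 0) η =
      ∑ S ∈ (range N).powerset, (if F S ∧ AdC C B S ∧ Q η S then (1 : ℝ) else 0) * (gp μ s η N y S * R S η) := by
  have hZ := ZC_pos (μ := μ) (s := s) h0 h1 η
  unfold W_7d29a1_Z59.Hs PC
  rw [sum_filter]
  refine sum_congr rfl fun S _ => ?_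
  unfold wR6 gp
  beta_reduce
  by_cases h1 : pos S N = y
  · by_cases h3 : F S ∧ AdC C B S
    · by_cases h4 : Q η S
      · rw [if_pos ⟨h1, h3⟩, if_pos h4, if_pos ⟨h3.1, h3.2, h4⟩, if_pos h1]
        have e1 : W μ s η 0 N y = ZC μ s N y η := rfl
        rw [e1]
        unfold wC
        field_simp
      · rw [if_pos ⟨h1, h3⟩, if_neg h4, if_neg (fun h => h4 h.2.2)]
        ring
    · rw [if_neg (fun h => h3 h.2), if_neg (fun h => h3 ⟨h.1, h.2.1⟩)]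
      ring
  · rw [if_neg (fun h => h1 h.1), if_neg h1, zero_mul, mul_zero]

/-- The data `DlrA` for the weights, from the data for the paths. -/
theorem dlrR {N : ℕ} {y : ℤ} {F : Finset ℕ → Prop} {C : Cls}
    {B : Finset (ℕ × ℕ)} {κ : Type*} {Z : Finset κ} {p t : ℝ} {T : κ → Finset Pt} {K : κ → Env → ℝ} {r : Finset ℕ → Env → ℝ}
    {o q : Finset ℕ → κ → Env → ℝ} {R : Finset ℕ → Env → ℝ} (hR : RaOk R)
    (hb : ∀ S ∈ PC N y F C B, ∀ z ∈ Z, ∀ g g' : Env, g ≤ g' → (∀ q : Pt, q ∉ (T z : Set Pt) → g q = g' q) →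
      R S g' / ZC μ s N y g' ≤ R S g / ZC μ s N y g)
    (h : W_7d29a1_Z59.Dlr μ (PC N y F C B) Z p t T K (aC fun _ _ => True) (wC μ s N) (ZC μ s N y) r o q) :
    DlrA μ (PC N y F C B) Z p t T K (fun _ _ => 1) (wR6 μ s N R) (ZC μ s N y) r o q where
  p0 := h.p0
  disj := h.disj
  Km := h.Km
  Kdep := h.Kdep
  Kmono := h.Kmono
  prob := h.prob
  am := fun _ _ => measurable_const
  a0 := fun _ _ _ => zero_le_one
  a1 := fun _ _ _ => le_rfl
  wm := fun S hS => (hR.rm S).mul (h.wm S hS)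
  w0 := fun S hS g => mul_nonneg (hR.r0 S g) (h.w0 S hS g)
  Zm := h.Zm
  Z0 := h.Z0
  anti := fun S hS z hz => by
    intro g g' hg hgo
    have e1 := h.awdep S hS z hz hgo
    have e0 : ∀ g : Env, aC (fun _ _ => True) S g = 1 := fun g => by
      unfold aC
      rw [if_pos trivial]
    simp only [e0, one_mul] at e1
    have e2 := hb S hS z hz g g' hg hgo
    have e3 : ∀ g : Env, -((1 : ℝ) * wR6 μ s N R S g / ZC μ s N y g) = -(R S g / ZC μ s N y g * wC μ s N S g) := fun g => by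
      unfold wR6
      ring
    show -((1 : ℝ) * wR6 μ s N R S g / ZC μ s N y g) ≤ -((1 : ℝ) * wR6 μ s N R S g' / ZC μ s N y g')
    rw [e3, e3, neg_le_neg_iff, ← e1]
    exact mul_le_mul_of_nonneg_right e2 (h.w0 S hS g)
  sum := fun g => by
    have h2 := h.sum g
    refine le_trans (sum_le_sum fun S hS => ?_) h2
    exact mul_le_of_le_one_left (h.w0 S hS g) (hR.r1 S g)
  rm := h.rm
  r0 := h.r0
  om := h.om
  o0 := h.o0
  odep := h.odep
  qmono := h.qmono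
  req := h.req

/-! ### Near ties with weights -/

section W

variable [IsProbabilityMeasure μ] {N : ℕ} {y : ℤ} {F : Finset ℕ → Prop} {C D : Cls} {B : Finset (ℕ × ℕ)}

open scoped Classical in
theorem TMR_eq (h0 : 0 ≤ y) (h1 : y ≤ N) {R : Finset ℕ → Env → ℝ} (hR : RaOk R) (M : ℝ) :
    TMW μ s N y F C D B R M = ∫ η, Pool.Agent.W_7d29a1_Z59.Hs (PC N y F C B) (fun _ _ => 1) (wR6 μ s N R)
      (ZC μ s N y) (fun S η => if |Real.log (rC μ s C D B S η)| ≤ M then 1 else 0) η ∂law μ := by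
  unfold TMW
  rw [PR_eq hR.rm hR.r0 hR.r1 (Ev_ms (fun S => by simp) M), ENNReal.toReal_ofReal]
  · refine integral_congr_ae (Eventually.of_forall fun η => ?_)
    have h := Hs_eqR (μ := μ) (s := s) h0 h1 F C B R (fun η S => |Real.log (rC μ s C D B S η)| ≤ M) η
    rw [h]
    beta_reduce
    refine sum_congr rfl fun S _ => ?_
    congr 1
    refine if_congr ?_ rfl rfl
    unfold Ev
    simp
  · refine integral_nonneg fun η => sum_nonneg fun S _ => mul_nonneg ?_ (mul_nonneg (gp_nonneg _ _ _ _) (hR.r0 S η))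
    split_ifs
    · exact zero_le_one
    · exact le_rfl

/-- **The localised step.** -/
theorem stepCR (h0 : 0 ≤ y) (h1 : y ≤ N) {R : Finset ℕ → Env → ℝ} (hR : RaOk R) {κ : Type*} {Z : Finset κ}
    {p t : ℝ} {T : κ → Finset Pt} {K : κ → Env → ℝ} {o q : Finset ℕ → κ → Env → ℝ}
    (h : DlrA μ (PC N y F C B) Z p t T K (fun _ _ => 1) (wR6 μ s N R) (ZC μ s N y)
      (fun S => rC μ s C D B S) o q)
    {F0 : Finset ℕ → κ → Env → ℝ} (F0m : ∀ S ∈ PC N y F C B, ∀ z ∈ Z, Measurable (F0 S z))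
    (F0d : ∀ S ∈ PC N y F C B, ∀ z ∈ Z, DependsOn (F0 S z) ((T z : Set Pt)ᶜ))
    (F0l : ∀ S ∈ PC N y F C B, ∀ z ∈ Z, ∀ g, F0 S z g ≤ Real.log (rC μ s C D B S g)) {M M' : ℝ} (hM : 0 < M) (hM' : 0 < M')
    {E : Set Env} (hE : MeasurableSet E) {Ga Ri : ℝ} (hGa0 : 0 < Ga)
    (hGa : ∀ g ∈ E, ∀ S ∈ PC N y F C B, |Real.log (rC μ s C D B S g)| ≤ M →
      Ga ≤ ∑ z ∈ Z, min (Real.log (Pool.Agent.W_7d29a1_Z59.rsh t K (fun S => rC μ s C D B S) o S z g) - Real.log (rC μ s C D B S g)) M)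
    (hdet : ∀ g ∈ E, ∀ S ∈ PC N y F C B, -(4 * M' + 2 * M) ≤ Real.log (rC μ s C D B S g) → ∀ z ∈ Z,
      Real.log (rC μ s C D B S g) - F0 S z g ≤ M)
    (hRi0 : 0 ≤ Ri) (hRi : ∀ g ∈ E, ∀ S ∈ PC N y F C B, -(4 * M' + 2 * M) ≤ Real.log (rC μ s C D B S g) →
      ∑ z ∈ Z, min (Real.log (rC μ s C D B S g) - F0 S z g) (4 * M') ≤ Ri) (u : ℝ) (hu : 0 ≤ u) :
    TMW μ s N y F C D B R M ≤
      4 * M / Ga * ((1 / p) * (Real.sqrt #Z * u + Ri / (4 * M'))) * TMW μ s N y F C D B R (4 * M' + 2 * M) +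
      (4 * M / Ga * ((1 / p) * (Real.sqrt #Z * Real.exp (1 - u) + #Z * (law μ).real Eᶜ)) + (law μ).real Eᶜ) := by
  classical
  have h2 := locA h F0m F0d F0l hM hM' hE (Ga := Ga) (fun g hg S hS _ => hGa g hg S hS) (fun g hg S hS _ => hdet g hg S hS) hRi0
    (fun g hg S hS _ => hRi g hg S hS) u hu
  obtain ⟨f, hf⟩ : ∃ f : Finset ℕ → Env → ℝ, f = fun S g => if |Real.log (rC μ s C D B S g)| ≤ M then 1 else 0 := ⟨_, rfl⟩
  obtain ⟨f', hf'⟩ : ∃ f' : Finset ℕ → Env → ℝ,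
    f' = fun S g => if |Real.log (rC μ s C D B S g)| ≤ 4 * M' + 2 * M then 1 else 0 := ⟨_, rfl⟩
  obtain ⟨f2, hf2⟩ : ∃ f2 : Finset ℕ → Env → ℝ,
    f2 = fun S g => if -(4 * M' + 2 * M) ≤ Real.log (rC μ s C D B S g) ∧ Real.log (rC μ s C D B S g) ≤ 2 * M then 1 else 0 := ⟨_, rfl⟩
  rw [TMR_eq h0 h1 hR M, TMR_eq h0 h1 hR (4 * M' + 2 * M), ← hf, ← hf']
  rw [← hf, ← hf2] at h2
  have m1 : ∀ S ∈ PC N y F C B, Measurable (f S) := fun S _ => by
    rw [hf]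
    exact Measurable.ite (measurableSet_le (measurable_norm.comp (rC_meas C D B S).log) measurable_const)
      measurable_const measurable_const
  have m2 : ∀ S ∈ PC N y F C B, Measurable (f' S) := fun S _ => by
    rw [hf']
    exact Measurable.ite (measurableSet_le (measurable_norm.comp (rC_meas C D B S).log) measurable_const)
      measurable_const measurable_const
  have m3 : ∀ S ∈ PC N y F C B, Measurable (f2 S) := fun S _ => by
    rw [hf2]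
    exact Measurable.ite ((measurableSet_le measurable_const (rC_meas C D B S).log).inter
      (measurableSet_le (rC_meas C D B S).log measurable_const)) measurable_const measurable_const
  have b1 : ∀ S g, 0 ≤ f S g ∧ f S g ≤ 1 := fun S g => by
    rw [hf]
    simp only
    split_ifs <;> norm_num
  have b2 : ∀ S g, 0 ≤ f' S g ∧ f' S g ≤ 1 := fun S g => by
    rw [hf']
    simp only
    split_ifs <;> norm_num
  have b3 : ∀ S g, 0 ≤ f2 S g ∧ f2 S g ≤ 1 := fun S g => by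
    rw [hf2]
    simp only
    split_ifs <;> norm_num
  have hint : ∀ f : Finset ℕ → Env → ℝ, (∀ S ∈ PC N y F C B, Measurable (f S)) → (∀ S g, 0 ≤ f S g ∧ f S g ≤ 1) →
      Integrable (Pool.Agent.W_7d29a1_Z59.Hs (PC N y F C B) (fun _ _ => 1) (wR6 μ s N R) (ZC μ s N y) f) (law μ) := fun f hm hb =>
    Pool.Agent.W_7d29a1_NP.bdd_integrable (h.Hs_meas hm) (B := 1) fun g => by
      rw [abs_of_nonneg (h.Hs_nonneg fun S _ => (hb S g).1)]
      exact h.Hs_le_one fun S _ => (hb S g).2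
  have i1 := hint f m1 b1
  have i2 := hint f' m2 b2
  have i3 := hint f2 m3 b3
  -- the right side
  have h3 : ∫ g, Pool.Agent.W_7d29a1_Z59.Hs (PC N y F C B) (fun _ _ => 1) (wR6 μ s N R) (ZC μ s N y) f2 g ∂law μ ≤
      ∫ g, Pool.Agent.W_7d29a1_Z59.Hs (PC N y F C B) (fun _ _ => 1) (wR6 μ s N R) (ZC μ s N y) f' g ∂law μ := by
    refine integral_mono i3 i2 fun g => Hs_mono (fun S hS => h.aw_nonneg hS g) fun S _ => ?_
    rw [hf2, hf']
    simp only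
    by_cases h4 : -(4 * M' + 2 * M) ≤ Real.log (rC μ s C D B S g) ∧ Real.log (rC μ s C D B S g) ≤ 2 * M
    · rw [if_pos h4, if_pos (abs_le.2 ⟨h4.1, by linarith [h4.2]⟩)]
    · rw [if_neg h4]
      split_ifs <;> norm_num
  -- the left side
  have h4 : ∫ g, Pool.Agent.W_7d29a1_Z59.Hs (PC N y F C B) (fun _ _ => 1) (wR6 μ s N R) (ZC μ s N y) f g ∂law μ ≤
      ∫ g in E, Pool.Agent.W_7d29a1_Z59.Hs (PC N y F C B) (fun _ _ => 1) (wR6 μ s N R) (ZC μ s N y) f g ∂law μ + (law μ).real Eᶜ := by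
    rw [← integral_add_compl hE i1]
    refine add_le_add le_rfl ?_
    have h5 : ∫ g in Eᶜ, Pool.Agent.W_7d29a1_Z59.Hs (PC N y F C B) (fun _ _ => 1) (wR6 μ s N R) (ZC μ s N y) f g ∂law μ ≤
        ∫ g in Eᶜ, (1 : ℝ) ∂law μ := by
      refine setIntegral_mono i1.integrableOn (integrable_const _).integrableOn fun g => ?_
      exact h.Hs_le_one fun S _ => (b1 S g).2
    refine h5.trans (le_of_eq ?_)
    rw [setIntegral_const, smul_eq_mul, mul_one]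
  obtain ⟨X, hX⟩ : ∃ X, X = ∫ g in E, Pool.Agent.W_7d29a1_Z59.Hs (PC N y F C B) (fun _ _ => 1) (wR6 μ s N R) (ZC μ s N y) f g ∂law μ :=
    ⟨_, rfl⟩
  obtain ⟨Y, hY⟩ : ∃ Y, Y = ∫ g, Pool.Agent.W_7d29a1_Z59.Hs (PC N y F C B) (fun _ _ => 1) (wR6 μ s N R) (ZC μ s N y) f' g ∂law μ :=
    ⟨_, rfl⟩
  obtain ⟨Y2, hY2⟩ : ∃ Y, Y = ∫ g, Pool.Agent.W_7d29a1_Z59.Hs (PC N y F C B) (fun _ _ => 1) (wR6 μ s N R) (ZC μ s N y) f2 g ∂law μ :=
    ⟨_, rfl⟩
  rw [← hX] at h4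
  rw [← hY] at h3 ⊢
  rw [← hY2] at h3
  have h6 : Ga / (4 * M) * X ≤ (1 / p) * (Real.sqrt #Z * u + Ri / (4 * M')) * Y2 +
      (1 / p) * (Real.sqrt #Z * Real.exp (1 - u) + #Z * (law μ).real Eᶜ) := by
    rw [hX, hY2]
    exact h2
  have hp := h.p0
  have hk : 0 ≤ (1 / p) * (Real.sqrt #Z * u + Ri / (4 * M')) := by positivity
  have h7 : Ga / (4 * M) * X ≤ (1 / p) * (Real.sqrt #Z * u + Ri / (4 * M')) * Y +
      (1 / p) * (Real.sqrt #Z * Real.exp (1 - u) + #Z * (law μ).real Eᶜ) :=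
    h6.trans (add_le_add (mul_le_mul_of_nonneg_left h3 hk) le_rfl)
  have h8 : X ≤ 4 * M / Ga * ((1 / p) * (Real.sqrt #Z * u + Ri / (4 * M')) * Y +
      (1 / p) * (Real.sqrt #Z * Real.exp (1 - u) + #Z * (law μ).real Eᶜ)) := by
    have h9 : X = 4 * M / Ga * (Ga / (4 * M) * X) := by
      field_simp
    rw [h9]
    exact mul_le_mul_of_nonneg_left h7 (by positivity)
  refine h4.trans ((add_le_add h8 le_rfl).trans (le_of_eq ?_))
  ring

end W

/-! ### The step at one scale -/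

/-- The mass of the near tie of the class `clE i i₁`. -/
def NER (μ : Measure ℝ) (s : ℝ) (V : Win) (L : ℕ) (e C : ℝ) (i₁ : ℕ) (R : Finset ℕ → Env → ℝ) (i : ℕ) (M : ℝ) : ℝ :=
  NMW μ s V.N V.y (InL μ s V.sg V.J V.Y) (clE μ s V L e C i i₁) (clL μ s V) (Br V) R M

theorem NER_eq (V : Win) (L : ℕ) (e C : ℝ) (i₁ : ℕ) (R : Finset ℕ → Env → ℝ) (i : ℕ) (M : ℝ) :
    NER μ s V L e C i₁ R i M = (PR μ s V.N V.y R (NTE μ s V L e C i i₁ M)).toReal := rfl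

theorem NER_nonneg [IsProbabilityMeasure μ] (V : Win) (L : ℕ) (e C : ℝ) (i₁ : ℕ) (R : Finset ℕ → Env → ℝ) (i : ℕ) (M : ℝ) :
    0 ≤ NER μ s V L e C i₁ R i M := ENNReal.toReal_nonneg

theorem NER_mono [IsProbabilityMeasure μ] {V : Win} {L : ℕ} (h : V.Ok L) (e C : ℝ) (i₁ : ℕ) {R : Finset ℕ → Env → ℝ}
    (hR : RaOk R) {i j : ℕ} (hij : i ≤ j) {M M' : ℝ} (hM : M ≤ M') :
    NER μ s V L e C i₁ R i M ≤ NER μ s V L e C i₁ R j M' :=
  NMW_mono h.y0 h.yN hR.r1 (fun _ _ _ _ hg => clE_mono hij hg) hM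

theorem NER_le [IsProbabilityMeasure μ] {V : Win} {L : ℕ} (h : V.Ok L) (e C : ℝ) (i₁ : ℕ) {R : Finset ℕ → Env → ℝ}
    (hR : RaOk R) (i : ℕ) (M : ℝ) :
    NER μ s V L e C i₁ R i M ≤ (PR μ s V.N V.y R (fun _ S => InL μ s V.sg V.J V.Y S)).toReal :=
  NMW_le h.y0 h.yN hR.r1 M

/-- The inputs of the step for weights. -/
def StepInR (μ : Measure ℝ) (s : ℝ) (V : Win) (L : ℕ) (e C : ℝ) (i i₁ : ℕ) (R : Finset ℕ → Env → ℝ) (x δ : ℝ) : Prop :=
  ∃ (Z : Finset Ce) (p t : ℝ) (T : Ce → Finset Pt) (K : Ce → Env → ℝ) (o q F0 : Finset ℕ → Ce → Env → ℝ) (E : Set Env),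
    DlrA μ (PC V.N V.y (InL μ s V.sg V.J V.Y) (clE μ s V L e C i i₁) (Br V)) Z p t T K (fun _ _ => 1) (wR6 μ s V.N R)
      (ZC μ s V.N V.y) (fun S => rE μ s V L e C i i₁ S) o q ∧
    (∀ S ∈ PC V.N V.y (InL μ s V.sg V.J V.Y) (clE μ s V L e C i i₁) (Br V), ∀ z ∈ Z, Measurable (F0 S z)) ∧
    (∀ S ∈ PC V.N V.y (InL μ s V.sg V.J V.Y) (clE μ s V L e C i i₁) (Br V), ∀ z ∈ Z, DependsOn (F0 S z) ((T z : Set Pt)ᶜ)) ∧
    (∀ S ∈ PC V.N V.y (InL μ s V.sg V.J V.Y) (clE μ s V L e C i i₁) (Br V), ∀ z ∈ Z, ∀ g,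
      F0 S z g ≤ Real.log (rE μ s V L e C i i₁ S g)) ∧
    MeasurableSet E ∧ (law μ).real Eᶜ ≤ δ ∧ x⁻¹ ≤ p ∧
    (#Z : ℝ) ≤ x * ((V.nJ : ℝ) / 2 ^ i * ((V.w : ℝ) / wd' μ s (2 ^ i) + 1)) ∧
    (∀ g ∈ E, ∀ S ∈ PC V.N V.y (InL μ s V.sg V.J V.Y) (clE μ s V L e C i i₁) (Br V), ∀ M : ℝ, EE' μ s (2 ^ i) ≤ M →
      |Real.log (rE μ s V L e C i i₁ S g)| ≤ M → x⁻¹ * ((V.nJ : ℝ) / 2 ^ i) * EE' μ s (2 ^ i) ≤
        ∑ z ∈ Z, min (Real.log (W_7d29a1_Z59.rsh t K (fun S => rE μ s V L e C i i₁ S) o S z g) -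
          Real.log (rE μ s V L e C i i₁ S g)) M) ∧
    (∀ g ∈ E, ∀ S ∈ PC V.N V.y (InL μ s V.sg V.J V.Y) (clE μ s V L e C i i₁) (Br V), ∀ z ∈ Z,
      Real.log (rE μ s V L e C i i₁ S g) - F0 S z g ≤ x * EE' μ s (2 ^ i)) ∧
    (∀ g ∈ E, ∀ S ∈ PC V.N V.y (InL μ s V.sg V.J V.Y) (clE μ s V L e C i i₁) (Br V),
      ∑ z ∈ Z, (Real.log (rE μ s V L e C i i₁ S g) - F0 S z g) ≤ x * ((V.nJ : ℝ) / 2 ^ i) * EE' μ s (2 ^ i))

/-- **The step at the scale `2 ^ i`.** `n` = number of layers, `s = √(x n W)` a bound of the root of the number of cells,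
`M' = n E / s` the gain in units of the root of the number of cells. -/
theorem stepER [IsProbabilityMeasure μ] {V : Win} {L : ℕ} (hV : V.Ok L) {e C : ℝ} {i i₁ : ℕ} {R : Finset ℕ → Env → ℝ}
    (hR : RaOk R) {x δ : ℝ} (hx : 1 ≤ x) (hin : StepInR μ s V L e C i i₁ R x δ) {n W M : ℝ} (hn : n = (V.nJ : ℝ) / 2 ^ i) (hn0 : 0 < n)
    (hW : W = (V.w : ℝ) / wd' μ s (2 ^ i) + 1) (hW0 : 0 < W) (hM : EE' μ s (2 ^ i) ≤ M) :
    NER μ s V L e C i₁ R i M ≤ 5 * x ^ 4 * (M / (n * EE' μ s (2 ^ i) / √(x * n * W))) *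
      NER μ s V L e C i₁ R i (4 * (n * EE' μ s (2 ^ i) / √(x * n * W)) + 2 * (x * M) + Real.log #(Br V)) +
      ((4 * x ^ 3 * (M / (n * EE' μ s (2 ^ i))) * (√(x * n * W) * Real.exp (1 - x) + x * n * W * δ) + δ) +
        #(Br V) * Real.exp (-(x * M))) := by
  obtain ⟨Z, p, t, T, K, o, q, F0, E, hD, F0m, F0d, F0l, hE, hδ, hp, hZ, hGa, hdet, hRi⟩ := hin
  obtain ⟨En, hEn⟩ : ∃ En, En = EE' μ s (2 ^ i) := ⟨_, rfl⟩
  rw [← hEn] at hM hGa hdet hRi ⊢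
  have hE1 : 1 ≤ En := hEn ▸ one_le_EE' _
  rw [← hn] at hZ hGa hRi
  rw [← hW] at hZ
  have hx0 : 0 < x := by linarith
  have hp0 : 0 < p := hD.p0
  have hδ0 : 0 ≤ δ := measureReal_nonneg.trans hδ
  have hxnW : 0 < x * n * W := by positivity
  obtain ⟨sn, hs⟩ : ∃ sn, sn = √(x * n * W) := ⟨_, rfl⟩
  have hs0 : 0 < sn := by rw [hs]; exact Real.sqrt_pos.2 hxnW
  have hss : sn * sn = x * n * W := by rw [hs]; exact Real.mul_self_sqrt hxnW.le
  have hZ' : (#Z : ℝ) ≤ sn * sn := by rw [hss]; exact hZ.trans (le_of_eq (by ring))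
  have hZs : Real.sqrt #Z ≤ sn := by
    rw [Real.sqrt_le_left hs0.le, sq]
    exact hZ'
  rw [← hs]
  obtain ⟨M', hM'⟩ : ∃ M', M' = n * En / sn := ⟨_, rfl⟩
  rw [← hM']
  have hM'0 : 0 < M' := by rw [hM']; positivity
  have hM0 : 0 < M := by linarith
  have hMx : En ≤ x * M := hM.trans (le_mul_of_one_le_left hM0.le hx)
  have hxM : 0 < x * M := by positivity
  have hst := stepCR (μ := μ) (N := V.N) (y := V.y) (F := InL μ s V.sg V.J V.Y) (C := clE μ s V L e C i i₁) (D := clL μ s V) (B := Br V)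
    hV.y0 hV.yN hR hD
    F0m F0d F0l (M := x * M) (M' := M') hxM hM'0 hE (Ga := x⁻¹ * n * En) (Ri := x * n * En) (by positivity)
    (fun g hg S hS hr => hGa g hg S hS (x * M) hMx hr)
    (fun g hg S hS _ z hz => (hdet g hg S hS z hz).trans (mul_le_mul_of_nonneg_left hM hx0.le)) (by positivity)
    (fun g hg S hS _ => (sum_le_sum fun z _ => min_le_left _ _).trans (hRi g hg S hS)) x hx0.le
  have hp1 : 1 / p ≤ x := by
    rw [div_le_iff₀ hp0]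
    have := mul_le_mul_of_nonneg_left hp hx0.le
    rw [mul_inv_cancel₀ hx0.ne'] at this
    linarith
  have hp00 : 0 ≤ 1 / p := by positivity
  have hRM : x * n * En / (4 * M') = x * sn / 4 := by
    rw [hM']
    field_simp
  rw [hRM] at hst
  have hc1 : 4 * (x * M) / (x⁻¹ * n * En) = 4 * x ^ 2 * (M / (n * En)) := by
    field_simp
  rw [hc1] at hst
  have hMn : 0 ≤ M / (n * En) := by positivity
  obtain ⟨κ, hκ⟩ : ∃ κ, κ = 4 * x ^ 2 * (M / (n * En)) * ((1 / p) * (Real.sqrt #Z * x + x * sn / 4)) := ⟨_, rfl⟩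
  obtain ⟨er, her⟩ : ∃ er, er = 4 * x ^ 2 * (M / (n * En)) * ((1 / p) * (Real.sqrt #Z * Real.exp (1 - x) + #Z * (law μ).real Eᶜ)) +
    (law μ).real Eᶜ := ⟨_, rfl⟩
  rw [← hκ, ← her] at hst
  have hκ0 : 0 ≤ κ := by rw [hκ]; positivity
  have hfin := stepNW (μ := μ) hV.y0 hV.yN (C := clE μ s V L e C i i₁) hR.r1 (Br_ok hV) (own_clL V) (M := M) (le_mul_of_one_le_left hM0.le hx) hκ0 hst
  have hκ1 : κ ≤ 5 * x ^ 4 * (M / M') := by
    have e1 : (1 / p) * (Real.sqrt #Z * x + x * sn / 4) ≤ x * (sn * x + x * sn / 4) := by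
      refine mul_le_mul hp1 ?_ (by positivity) hx0.le
      have := mul_le_mul_of_nonneg_right hZs hx0.le
      linarith
    have e2 := mul_le_mul_of_nonneg_left e1 (show 0 ≤ 4 * x ^ 2 * (M / (n * En)) by positivity)
    rw [hκ]
    refine e2.trans (le_of_eq ?_)
    rw [hM']
    field_simp
    ring
  have her1 : er ≤ 4 * x ^ 3 * (M / (n * En)) * (sn * Real.exp (1 - x) + x * n * W * δ) + δ := by
    have e1 : Real.sqrt #Z * Real.exp (1 - x) + #Z * (law μ).real Eᶜ ≤ sn * Real.exp (1 - x) + x * n * W * δ := by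
      refine add_le_add (mul_le_mul_of_nonneg_right hZs (Real.exp_pos _).le) ?_
      rw [← hss]
      exact mul_le_mul hZ' hδ measureReal_nonneg (by positivity)
    have e0 : 0 ≤ Real.sqrt #Z * Real.exp (1 - x) + #Z * (law μ).real Eᶜ := by positivity
    have e2 := mul_le_mul hp1 e1 e0 hx0.le
    have e3 := mul_le_mul_of_nonneg_left e2 (show 0 ≤ 4 * x ^ 2 * (M / (n * En)) by positivity)
    rw [her]
    refine add_le_add (e3.trans (le_of_eq ?_)) hδ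
    ring
  have hNE0 := NER_nonneg (μ := μ) (s := s) V L e C i₁ R i (4 * M' + 2 * (x * M) + Real.log #(Br V))
  have e4 := mul_le_mul_of_nonneg_right hκ1 hNE0
  unfold NER at e4 ⊢
  linarith


/-! ### The inputs of the step -/

/-- **The inputs of the step.** -/
theorem stepIn_ofR [IsProbabilityMeasure μ] {V : Win} {L : ℕ} {e C : ℝ} {i i₁ D : ℕ} (hV : V.Ok L) (hi₁ : i₁ ≤ V.a) (hi : i ≤ i₁) {R : Finset ℕ → Env → ℝ} (hR : RaOk R) (hb : AntR μ s V R)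
    {x x₁ K ct δ δ₁ : ℝ} (hx : 1 ≤ x) (hxx : x ≤ x₁) (hK : 0 ≤ K) (hct1 : 1 ≤ ct) (hct : ct ≤ x * EE' μ s (2 ^ i))
    (hKx : 2 * (x * K) ≤ x₁)
    (hcell : CellIn μ s V L e C i i₁ D (fun _ _ => True) x δ) {E : Set Env} (hE : ∀ η ∈ E, DetE μ s V L e i D ct η ∧ TouE μ s V L e i D K η)
    (hE1 : (law μ).real Eᶜ ≤ δ₁) (hδ₁ : δ₁ < 1) : StepInR μ s V L e C i i₁ R x₁ (δ + δ₁) := by
  obtain ⟨p, t, Kz, o, q, E₁, hDlr, hE₁m, hE₁, hp, hZ, hGa⟩ := hcell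
  have hx0 : 0 < x := by linarith
  have hx₁0 : 0 < x₁ := by linarith
  have hEE : 1 ≤ EE' μ s (2 ^ i) := le_max_left _ _
  have hwd : 1 ≤ wd' μ s (2 ^ i) := le_max_left _ _
  -- a measurable version of the good event
  obtain ⟨G, hG⟩ : ∃ G : Set Env, G = {η | DetE μ s V L e i D ct η} ∩ {η | TouE μ s V L e i D K η} := ⟨_, rfl⟩
  have hGm : MeasurableSet G := by
    rw [hG]
    exact (detE_meas V L e i D ct).inter (touE_meas V L e i D K)
  have hGc : (law μ).real Gᶜ ≤ δ₁ := by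
    refine (measureReal_mono (Set.compl_subset_compl.2 ?_) (measure_ne_top _ _)).trans hE1
    intro η hη
    rw [hG]
    exact hE η hη
  -- one good environment
  obtain ⟨η₀, hη₀⟩ : ∃ η₀, η₀ ∈ G := by
    by_contra hne
    push Not at hne
    have h1 : Gᶜ = Set.univ := Set.eq_univ_of_forall fun η => hne η
    rw [h1, probReal_univ] at hGc
    linarith
  have hD0 : DetE μ s V L e i D ct η₀ := by
    rw [hG] at hη₀
    exact hη₀.1
  have hn0 : 0 ≤ (V.nJ : ℝ) / 2 ^ i := by positivity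
  have hDlrW := dlrR hR (fun S hS z hz g g' hg hgo => hb g g' S (mem_PC_inL hS).1 hg fun q hq => hgo q fun hqT =>
    hq (inStrip_of_tz hV.sgn (hi.trans hi₁) hz hqT)) hDlr
  refine ⟨Zc μ s V i D, p, t, Tz μ s i D, Kz, o, q, F0 μ s V L e C i i₁ D, E₁ ∩ G, hDlrW, fun S _ z _ => F0_meas S z,
    fun S _ z hz => F0_dep hV.sgn (hi.trans hi₁) hz S, fun S hS z hz g => ?_, hE₁m.inter hGm, ?_, ?_, ?_, ?_, ?_, ?_⟩
  · exact F0_le hV hi₁ hi hD0 hz (mem_PC_inL hS).1 (mem_PC_inL hS).2 g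
  · rw [Set.compl_inter]
    exact (measureReal_union_le _ _).trans (add_le_add hE₁ hGc)
  · exact (inv_anti₀ hx0 hxx).trans hp
  · refine hZ.trans (mul_le_mul_of_nonneg_right hxx ?_)
    have hw : (0 : ℝ) ≤ V.w := by
      have := hV.w1
      exact_mod_cast (by omega : (0 : ℤ) ≤ V.w)
    positivity
  · intro g hg S hS M hM hr
    refine le_trans ?_ (hGa g hg.1 S hS M hM hr)
    refine mul_le_mul_of_nonneg_right (mul_le_mul_of_nonneg_right (inv_anti₀ hx0 hxx) hn0) (by linarith)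
  · intro g hg S hS z hz
    have hg' := hg.2
    rw [hG] at hg'
    refine (F0_det hV hi₁ hi hg'.1 hz (mem_PC_inL hS).1 (mem_PC_inL hS).2).trans (hct.trans ?_)
    exact mul_le_mul_of_nonneg_right hxx (by linarith)
  · intro g hg S hS
    have hg' := hg.2
    rw [hG] at hg'
    refine (F0_sum' hV hi₁ hi hct1 hg'.1 hg'.2 (mem_PC_inL hS).1 (mem_PC_inL hS).2).trans ?_
    rw [← nJ_div (hi.trans hi₁)]
    calc 2 * ct * (K * ((V.nJ : ℝ) / 2 ^ i)) ≤ 2 * (x * EE' μ s (2 ^ i)) * (K * ((V.nJ : ℝ) / 2 ^ i)) :=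
          mul_le_mul_of_nonneg_right (by linarith) (mul_nonneg hK hn0)
      _ = 2 * (x * K) * (((V.nJ : ℝ) / 2 ^ i) * EE' μ s (2 ^ i)) := by ring
      _ ≤ x₁ * (((V.nJ : ℝ) / 2 ^ i) * EE' μ s (2 ^ i)) :=
          mul_le_mul_of_nonneg_right hKx (mul_nonneg hn0 (by linarith))
      _ = _ := by ring


theorem stepIn_monoR {V : Win} {L : ℕ} {e C : ℝ} {i i₁ : ℕ} {R : Finset ℕ → Env → ℝ} {x δ δ' : ℝ} (hδ : δ ≤ δ')
    (h : StepInR μ s V L e C i i₁ R x δ) : StepInR μ s V L e C i i₁ R x δ' := by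
  obtain ⟨Z, p, t, T, K, o, q, F0, E, h1, h2, h3, h4, h5, h6, h7⟩ := h
  exact ⟨Z, p, t, T, K, o, q, F0, E, h1, h2, h3, h4, h5, h6.trans hδ, h7⟩

/-- The inputs of the step at all scales, blind events. -/
def AllAtR (μ : Measure ℝ) (s : ℝ) (ε₂ e₁ e C : ℝ) : Prop := ∃ c : ℝ, 0 < c ∧ ∃ L₀ : ℕ, ∀ L : ℕ, L₀ ≤ L → ∀ V : Win, V.Ok L →
  ∀ i i₁ : ℕ, (L : ℝ) ^ e₁ ≤ 2 ^ i → i ≤ i₁ → i₁ ≤ V.a →
    (L : ℝ) ^ e₁ ≤ 2 ^ (V.a - i₁) → ∀ (R : Finset ℕ → Env → ℝ), RaOk R → AntR μ s V R →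
      StepInR μ s V L e C i i₁ R ((L : ℝ) ^ ε₂) (Real.exp (-(L : ℝ) ^ c))

/-- The inputs of the step at all scales, blind events. -/
def AllInR (μ : Measure ℝ) (s : ℝ) : Prop := ∀ ε₂ e₁ : ℝ, 0 < ε₂ → 0 < e₁ → ∃ e₀ : ℝ, 0 < e₀ ∧ ∀ e : ℝ, 0 < e → e < e₀ → ∀ C : ℝ, 0 < C →
  AllAtR μ s ε₂ e₁ e C

/-- The price of near ties times a blind event, for given `e`, `C` and the exponents `ε`, `e₁`. -/
def TieAtR (μ : Measure ℝ) (s : ℝ) (ε e₁ e C : ℝ) : Prop := ∃ c : ℝ, 0 < c ∧ ∃ L₀ : ℕ, ∀ L : ℕ, L₀ ≤ L → ∀ V : Win, V.Ok L →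
    (V.w : ℝ) * 2 ^ V.a ≤ (L : ℝ) ^ e * wd' μ s (2 ^ V.a) * V.nJ → ∀ i₀ i₁ : ℕ, (L : ℝ) ^ e₁ ≤ 2 ^ i₀ →
    (2 : ℝ) ^ i₀ ≤ 2 * (L : ℝ) ^ e₁ → i₁ ≤ V.a → (L : ℝ) ^ e₁ ≤ 2 ^ (V.a - i₁) → (2 : ℝ) ^ (V.a - i₁) ≤ 2 * (L : ℝ) ^ e₁ →
    ∀ M : ℝ, 1 ≤ M → ∀ (R : Finset ℕ → Env → ℝ), RaOk R → AntR μ s V R →
      PR μ s V.N V.y R (NTE μ s V L e C i₀ i₁ M) ≤
        ENNReal.ofReal ((L : ℝ) ^ ε * (M / EE' μ s (2 ^ V.a))) *
          PR μ s V.N V.y R (fun _ S => InL μ s V.sg V.J V.Y S) +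
          ENNReal.ofReal (Real.exp (-(L : ℝ) ^ c))

/-- **The natural price of near ties times a blind event.** -/
def TieER (μ : Measure ℝ) (s : ℝ) : Prop := ∀ ε : ℝ, 0 < ε → ∃ e₁ : ℝ, 0 < e₁ ∧ e₁ < ε ∧ ∃ e₀ : ℝ, 0 < e₀ ∧ ∀ e : ℝ, 0 < e → e < e₀ →
  ∀ C : ℝ, 0 < C → TieAtR μ s ε e₁ e C

section Step

variable [IsProbabilityMeasure μ] {c C₀ : ℝ} {n₀ : ℕ}

/-- **The inputs of the step at all the scales.** -/
theorem allIn_ofR (h : In μ s c C₀ n₀) (hCell : CellSt μ s) : AllInR μ s := by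
  intro ε₂ e1 hε₂ he1
  obtain ⟨κ, hκ, hOff⟩ := offc h
  obtain ⟨ε₃, hε₃, L₁, hTou⟩ := tou_of h hκ (ε₂ / 4) (by positivity)
  obtain ⟨c₁, hc₁, L₂, hOff⟩ := hOff ε₃ hε₃
  obtain ⟨ε₄, hε₄⟩ : ∃ ε₄ : ℝ, ε₄ = min ε₃ (ε₂ / 4) := ⟨_, rfl⟩
  have hε₄0 : 0 < ε₄ := by rw [hε₄]; exact lt_min hε₃ (by positivity)
  have h43 : ε₄ ≤ ε₃ := by rw [hε₄]; exact min_le_left _ _
  have h42 : ε₄ ≤ ε₂ / 4 := by rw [hε₄]; exact min_le_right _ _
  obtain ⟨e₀, he₀, hDet⟩ := det_prob h e1 ε₄ he1 hε₄0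
  obtain ⟨e₀', he₀', hCe⟩ := hCell e1 (ε₂ / 4) he1 (by positivity)
  refine ⟨min e₀ e₀', lt_min he₀ he₀', fun e he hee C hC => ?_⟩
  obtain ⟨c₂, hc₂, L₃, hDet⟩ := hDet e he (hee.trans_le (min_le_left _ _))
  obtain ⟨c₃, hc₃, L₄, hCe⟩ := hCe e he (hee.trans_le (min_le_right _ _)) C hC
  obtain ⟨c₄, hc₄, L₅, h12⟩ := two_exp hc₁ hc₂
  obtain ⟨c₅, hc₅, L₆, h34⟩ := two_exp hc₃ hc₄
  have ev1 : ∀ᶠ L : ℕ in atTop, 2 ≤ (L : ℝ) ^ (ε₂ / 2) :=
    ((tendsto_rpow_atTop (by positivity : 0 < ε₂ / 2)).comp tendsto_natCast_atTop_atTop).eventually_ge_atTop _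
  obtain ⟨L₇, hL₇⟩ := eventually_atTop.1 ev1
  refine ⟨c₅, hc₅, max (max (max L₁ L₂) (max L₃ L₄)) (max (max L₅ L₆) (max L₇ 1)), fun L hL V hV i i₁ h2i' hi hi₁ h2a R hR hb => ?_⟩
  have g1 : L₁ ≤ L := (le_max_left _ _).trans ((le_max_left _ _).trans ((le_max_left _ _).trans hL))
  have g2 : L₂ ≤ L := (le_max_right _ _).trans ((le_max_left _ _).trans ((le_max_left _ _).trans hL))
  have g3 : L₃ ≤ L := (le_max_left _ _).trans ((le_max_right _ _).trans ((le_max_left _ _).trans hL))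
  have g4 : L₄ ≤ L := (le_max_right _ _).trans ((le_max_right _ _).trans ((le_max_left _ _).trans hL))
  have g5 : L₅ ≤ L := (le_max_left _ _).trans ((le_max_left _ _).trans ((le_max_right _ _).trans hL))
  have g6 : L₆ ≤ L := (le_max_right _ _).trans ((le_max_left _ _).trans ((le_max_right _ _).trans hL))
  have g7 : L₇ ≤ L := (le_max_left _ _).trans ((le_max_right _ _).trans ((le_max_right _ _).trans hL))
  have g8 : 1 ≤ L := (le_max_right _ _).trans ((le_max_right _ _).trans ((le_max_right _ _).trans hL))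
  have hLR : (1 : ℝ) ≤ L := by exact_mod_cast g8
  have hL0 : (0 : ℝ) < L := by linarith
  obtain ⟨D, hD1, hD2, hcell⟩ := hCe L g4 V hV i i₁ h2i' hi hi₁ h2a (fun _ _ => True) (fun S => by simp) (fun _ _ _ _ => Iff.rfl)
  have h2i : (L : ℝ) ^ e1 ≤ ((2 ^ i : ℕ) : ℝ) := by
    rw [Nat.cast_pow]
    exact h2i'
  have hEE : 1 ≤ EE' μ s (2 ^ i) := le_max_left _ _
  have hia : i ≤ V.a := hi.trans hi₁
  -- the good event
  obtain ⟨G₁, hG₁⟩ : ∃ G₁ : Set Env, G₁ = {η | ¬ OffC μ s L ε₃ κ (sh (0, xz V) η)} := ⟨_, rfl⟩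
  obtain ⟨G₂, hG₂⟩ : ∃ G₂ : Set Env, G₂ = {η | ¬ ∀ i : ℕ, (L : ℝ) ^ e1 ≤ ((2 ^ i : ℕ) : ℝ) → i ≤ V.a → ∀ D : ℕ,
      (D : ℝ) ≤ (L : ℝ) ^ e * wd' μ s (2 ^ i) → LowD μ s V L e i D ((L : ℝ) ^ ε₄ * EE' μ s (2 ^ i)) η ∧
        DetE μ s V L e i D ((L : ℝ) ^ ε₄ * EE' μ s (2 ^ i)) η} := ⟨_, rfl⟩
  have hp₁ : (law μ).real G₁ ≤ Real.exp (-(L : ℝ) ^ c₁) := by
    rw [hG₁]
    exact offc_sh (hOff L g2) (Real.exp_pos _).le _
  have hp₂ : (law μ).real G₂ ≤ Real.exp (-(L : ℝ) ^ c₂) := by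
    rw [hG₂]
    exact real_of_le (Real.exp_pos _).le (hDet L g3 V hV)
  have hE1 : (law μ).real ((G₁ ∪ G₂)ᶜ)ᶜ ≤ Real.exp (-(L : ℝ) ^ c₄) := by
    rw [compl_compl]
    exact (measureReal_union_le _ _).trans ((add_le_add hp₁ hp₂).trans (h12 L g5))
  have hx1 : 1 ≤ (L : ℝ) ^ (ε₂ / 4) := Real.one_le_rpow hLR (by positivity)
  have hδ1 : Real.exp (-(L : ℝ) ^ c₄) < 1 := by
    rw [Real.exp_lt_one_iff]
    have := Real.rpow_pos_of_pos hL0 c₄
    linarith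
  refine stepIn_monoR (h34 L g6) (stepIn_ofR (x := (L : ℝ) ^ (ε₂ / 4)) (K := (L : ℝ) ^ (ε₂ / 4))
    (ct := (L : ℝ) ^ ε₄ * EE' μ s (2 ^ i)) hV hi₁ hi hR hb hx1 ?_ (by positivity) ?_ ?_ ?_ hcell (E := (G₁ ∪ G₂)ᶜ) ?_ hE1 hδ1)
  · exact Real.rpow_le_rpow_of_exponent_le hLR (by linarith)
  · exact one_le_mul_of_one_le_of_one_le (Real.one_le_rpow hLR hε₄0.le) hEE
  · exact mul_le_mul_of_nonneg_right (Real.rpow_le_rpow_of_exponent_le hLR h42) (by linarith)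
  · have e1' : (L : ℝ) ^ ε₂ = (L : ℝ) ^ (ε₂ / 2) * ((L : ℝ) ^ (ε₂ / 4) * (L : ℝ) ^ (ε₂ / 4)) := by
      rw [← Real.rpow_add hL0, ← Real.rpow_add hL0]
      congr 1
      ring
    rw [e1']
    exact mul_le_mul_of_nonneg_right (hL₇ L g7) (by positivity)
  · intro η hη
    have hη1 : OffC μ s L ε₃ κ (sh (0, xz V) η) := by
      by_contra hc
      refine hη (Or.inl ?_)
      rw [hG₁]
      exact hc
    have hη2 : ∀ i : ℕ, (L : ℝ) ^ e1 ≤ ((2 ^ i : ℕ) : ℝ) → i ≤ V.a → ∀ D : ℕ,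
      (D : ℝ) ≤ (L : ℝ) ^ e * wd' μ s (2 ^ i) → LowD μ s V L e i D ((L : ℝ) ^ ε₄ * EE' μ s (2 ^ i)) η ∧
        DetE μ s V L e i D ((L : ℝ) ^ ε₄ * EE' μ s (2 ^ i)) η := by
      by_contra hc
      refine hη (Or.inr ?_)
      rw [hG₂]
      exact hc
    obtain ⟨k1, k2⟩ := hη2 i h2i hia D hD2
    refine ⟨k2, hTou L g1 V hV e i D hia hD1 η hη1 (lowE_of_lowD k1 ?_)⟩
    exact mul_le_mul_of_nonneg_right (Real.rpow_le_rpow_of_exponent_le hLR h43) (by linarith)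

end Step

/-! ### The chain (copy of `tie_core` of ZE_TieE for weights) -/

/-- **The core.** -/
theorem tie_coreR [IsProbabilityMeasure μ] {cI CI : ℝ} {nI : ℕ} (hI : In μ s cI CI nI) {ε : ℝ} (hε : 0 < ε) :
    ∃ e₁ ε₂ : ℝ, 0 < e₁ ∧ e₁ < ε ∧ 0 < ε₂ ∧ ∀ e : ℝ, 0 < e → e ≤ ε₂ / 2 → ∀ C : ℝ, AllAtR μ s ε₂ e₁ e C → TieAtR μ s ε e₁ e C := by
  obtain ⟨a₀, K₁, ha0, ha1, hK1, hwd⟩ := W_7d29a1_HZ.Z96.wd_all96 hI
  obtain ⟨a₂, K₂, -, -, hK2, hEE⟩ := W_7d29a1_HZ.Z96.EE_all96 hI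
  obtain ⟨e₂, he₂⟩ : ∃ e₂, e₂ = ε / 4 := ⟨_, rfl⟩
  have he2 : 0 < e₂ := by rw [he₂]; positivity
  obtain ⟨k, hk⟩ := chainP (c1 := a₀ / 2) (e := e₂) (by positivity) (by linarith) he2
  obtain ⟨ε₁, hε₁⟩ : ∃ ε₁, ε₁ = e₂ * (a₀ / 2) ^ 2 / 2 := ⟨_, rfl⟩
  have hε1 : 0 < ε₁ := by rw [hε₁]; positivity
  obtain ⟨ε₂, hε₂⟩ : ∃ ε₂, ε₂ = min ε₁ (ε / (32 * (k + 1))) := ⟨_, rfl⟩
  have hε2 : 0 < ε₂ := by rw [hε₂]; exact lt_min hε1 (by positivity)
  have hε21 : ε₂ ≤ ε₁ := by rw [hε₂]; exact min_le_left _ _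
  have hε2k : ε₂ * (8 * k) ≤ ε / 4 := by
    have h1 : ε₂ ≤ ε / (32 * (k + 1)) := by rw [hε₂]; exact min_le_right _ _
    rw [le_div_iff₀ (by positivity)] at h1
    have h2 : ε₂ * (32 * ((k : ℝ) + 1)) = 4 * (ε₂ * (8 * k)) + 32 * ε₂ := by ring
    linarith
  obtain ⟨e₁, he₁⟩ : ∃ e₁, e₁ = ε / 16 := ⟨_, rfl⟩
  have he1 : 0 < e₁ := by rw [he₁]; positivity
  refine ⟨e₁, ε₂, he1, by rw [he₁]; linarith, hε2, fun e he heε C hin => ?_⟩
  obtain ⟨cδ, hcδ, L₁, hin⟩ := hin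
  obtain ⟨c', hc'⟩ : ∃ c', c' = min ε₂ cδ / 2 := ⟨_, rfl⟩
  have hc0 : 0 < c' := by rw [hc']; exact half_pos (lt_min hε2 hcδ)
  -- large `L`
  obtain ⟨L₂, hL2⟩ := const_le_pow (K := 5 * (16 * K₂ + 5)) hε2
  obtain ⟨L₃, hL3⟩ := const_le_pow (K := 8 * K₂) hε1
  obtain ⟨L₄, hL4⟩ := const_le_pow (K := K₁ + 1) (c := ε₂ / 2) (by positivity)
  obtain ⟨L₅, hL5⟩ := const_le_pow (K := max 3 (2 * K₂ * EE' μ s 1)) (c := ε / 16) (by positivity)
  obtain ⟨L₆, hL6⟩ := const_le_pow (K := 16 * K₂ ^ 2) (c := ε / 8) (by positivity)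
  obtain ⟨L₇, hL7⟩ := pow_le_exp (q := 3) hε2
  obtain ⟨L₈, hL8⟩ := const_le_pow (K := max 3 (200 * k * K₂)) hc0
  obtain ⟨L₉, hL9⟩ := pow_le_exp (q := ε₂ * (8 * k + 5) + 2) hc0
  refine ⟨c', hc0, L₁ + L₂ + L₃ + L₄ + L₅ + L₆ + L₇ + L₈ + L₉ + 3, fun L hL V hV hw i₀ i₁ h01 h02 hi1 h11 h12 M hM R hR hoff => ?_⟩
  specialize hL2 L (by omega)
  specialize hL3 L (by omega)
  specialize hL4 L (by omega)
  specialize hL5 L (by omega)
  specialize hL6 L (by omega)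
  specialize hL7 L (by omega)
  specialize hL8 L (by omega)
  specialize hL9 L (by omega)
  have hLr : (3 : ℝ) ≤ L := by exact_mod_cast (by omega : 3 ≤ L)
  have hL1 : (1 : ℝ) ≤ L := by linarith
  have hL0 : (0 : ℝ) < L := by linarith
  obtain ⟨x, hx⟩ : ∃ x, x = (L : ℝ) ^ ε₂ := ⟨_, rfl⟩
  have hx1 : 1 ≤ x := by rw [hx]; exact Real.one_le_rpow hL1 hε2.le
  have hx0 : 0 < x := by linarith
  obtain ⟨δ, hδ⟩ : ∃ δ, δ = Real.exp (-(L : ℝ) ^ cδ) := ⟨_, rfl⟩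
  have hδ0 : 0 < δ := by rw [hδ]; exact Real.exp_pos _
  obtain ⟨P, hP⟩ : ∃ P, P = (PR μ s V.N V.y R (fun _ S => InL μ s V.sg V.J V.Y S)).toReal := ⟨_, rfl⟩
  have hP0 : 0 ≤ P := by rw [hP]; exact ENNReal.toReal_nonneg
  have hPof : PR μ s V.N V.y R (fun _ S => InL μ s V.sg V.J V.Y S) = ENNReal.ofReal P := by
    rw [hP, ENNReal.ofReal_toReal (PR_ne_top hV.y0 hV.yN hR.r1 _)]
  have hNT : PR μ s V.N V.y R (NTE μ s V L e C i₀ i₁ M) = ENNReal.ofReal (NER μ s V L e C i₁ R i₀ M) := by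
    rw [NER_eq, ENNReal.ofReal_toReal (PR_ne_top hV.y0 hV.yN hR.r1 _)]
  have hEa : 0 < EE' μ s (2 ^ V.a) := lt_of_lt_of_le one_pos (one_le_EE' _)
  rw [hPof, hNT, ← ENNReal.ofReal_mul (by positivity), ← ENNReal.ofReal_add (by positivity) (Real.exp_pos _).le]
  refine ENNReal.ofReal_le_ofReal ?_
  -- the unit at the scale `2 ^ i₀`
  have hE0 : EE' μ s (2 ^ i₀) ≤ (L : ℝ) ^ (ε / 8) := by
    have h1 := (hEE 1 (2 ^ i₀) le_rfl Nat.one_le_two_pow).2.2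
    have h2 : Real.sqrt (((2 ^ i₀ : ℕ) : ℝ) / (1 : ℕ)) ≤ 2 * (L : ℝ) ^ e₁ := by
      push_cast
      rw [div_one, Real.sqrt_le_left (by positivity)]
      have h3 : 1 ≤ 2 * (L : ℝ) ^ e₁ := by
        have := Real.one_le_rpow hL1 he1.le
        linarith
      exact h02.trans (le_self_pow₀ h3 two_ne_zero)
    have h3 : EE' μ s (2 ^ i₀) ≤ K₂ * (2 * (L : ℝ) ^ e₁) * EE' μ s 1 := by
      refine h1.trans ?_
      exact mul_le_mul_of_nonneg_right (mul_le_mul_of_nonneg_left h2 (by linarith)) (zero_le_one.trans (one_le_EE' 1))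
    have h4 : (L : ℝ) ^ (ε / 8) = (L : ℝ) ^ (ε / 16) * (L : ℝ) ^ (ε / 16) := by
      rw [← Real.rpow_add hL0]
      congr 1
      ring
    rw [h4]
    have h5 : 2 * K₂ * EE' μ s 1 ≤ (L : ℝ) ^ (ε / 16) := (le_max_right _ _).trans hL5
    have h6 := mul_le_mul_of_nonneg_right h5 (show 0 ≤ (L : ℝ) ^ (ε / 16) by positivity)
    refine h3.trans (le_trans (le_of_eq ?_) h6)
    rw [he₁]
    ring
  have hNP := NER_le (μ := μ) (s := s) hV e C i₁ hR i₀ M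
  rw [← hP] at hNP
  rcases Nat.lt_or_ge V.a i₀ with hcase | hcase
  · -- trivial case
    have h1 : EE' μ s (2 ^ V.a) ≤ (L : ℝ) ^ ε := by
      refine (EE'_mono (Nat.pow_le_pow_right (by norm_num) hcase.le)).trans (hE0.trans ?_)
      exact Real.rpow_le_rpow_of_exponent_le hL1 (by linarith)
    have h2 : 1 ≤ (L : ℝ) ^ ε * (M / EE' μ s (2 ^ V.a)) := by
      rw [mul_div_assoc', le_div_iff₀ hEa]
      have := mul_le_mul_of_nonneg_left hM (show 0 ≤ (L : ℝ) ^ ε by positivity)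
      linarith
    have h3 := mul_le_mul_of_nonneg_right h2 hP0
    have := Real.exp_pos (-(L : ℝ) ^ c')
    linarith
  -- the data of the chain
  obtain ⟨En, hEn⟩ : ∃ En : ℕ → ℝ, En = fun i => EE' μ s (2 ^ i) := ⟨_, rfl⟩
  obtain ⟨n, hn⟩ : ∃ n : ℕ → ℝ, n = fun i => (V.nJ : ℝ) / 2 ^ i := ⟨_, rfl⟩
  obtain ⟨W, hW⟩ : ∃ W : ℕ → ℝ, W = fun i => (V.w : ℝ) / wd' μ s (2 ^ i) + 1 := ⟨_, rfl⟩
  have hEn1 : ∀ i, 1 ≤ En i := fun i => by rw [hEn]; exact one_le_EE' _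
  have hEn0 : ∀ i, 0 < En i := fun i => lt_of_lt_of_le one_pos (hEn1 i)
  have hcard : 0 < #V.Iv := hV.ne.card_pos
  have hnJ : (V.nJ : ℝ) = #V.Iv * 2 ^ V.a := by
    unfold Win.nJ
    push_cast
    ring
  have hcard1 : (1 : ℝ) ≤ #V.Iv := by exact_mod_cast hcard
  have hn0 : ∀ i, 0 < n i := fun i => by
    rw [hn]
    show 0 < (V.nJ : ℝ) / 2 ^ i
    rw [hnJ]
    exact div_pos (mul_pos (by linarith) (pow_pos two_pos _)) (pow_pos two_pos _)
  have hw1 : (1 : ℝ) ≤ V.w := by exact_mod_cast hV.w1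
  have hwi : ∀ i, 0 < wd' μ s (2 ^ i) := fun i => lt_of_lt_of_le one_pos (one_le_wd' _)
  have hW0 : ∀ i, 0 < W i := fun i => by
    rw [hW]
    have := hwi i
    positivity
  obtain ⟨Mg, hMg⟩ : ∃ Mg : ℕ → ℝ, Mg = fun i => n i * En i / √(x * n i * W i) := ⟨_, rfl⟩
  have hsq : ∀ i, 0 < √(x * n i * W i) := fun i => Real.sqrt_pos.2 (by
    have := hn0 i
    have := hW0 i
    positivity)
  have hMg0 : ∀ i, 0 < Mg i := fun i => by
    rw [hMg]
    exact div_pos (mul_pos (hn0 i) (hEn0 i)) (hsq i)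
  obtain ⟨ρ, hρ⟩ : ∃ ρ : ℕ → ℝ, ρ = fun i => (4 * Mg i + (16 * K₂ + 1) * x * En i) / En i := ⟨_, rfl⟩
  have hEρ : ∀ i, En i * ρ i = 4 * Mg i + (16 * K₂ + 1) * x * En i := fun i => by
    rw [hρ]
    exact mul_div_cancel₀ _ (hEn0 i).ne'
  -- scales which are used
  have hused : ∀ i, i₀ ≤ i → (2 : ℝ) ^ i * (L : ℝ) ^ e₂ ≤ ((2 ^ V.a : ℕ) : ℝ) → i ≤ V.a ∧ i ≤ i₁ := by
    intro i _ h2
    push_cast at h2
    have h3 : 2 * (L : ℝ) ^ e₁ < (L : ℝ) ^ e₂ := by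
      have e1 : (L : ℝ) ^ e₂ = (L : ℝ) ^ e₁ * (L : ℝ) ^ (3 * ε / 16) := by
        rw [← Real.rpow_add hL0]
        congr 1
        rw [he₁, he₂]
        ring
      have e2 : 3 ≤ (L : ℝ) ^ (3 * ε / 16) := by
        refine ((le_max_left _ _).trans hL5).trans (Real.rpow_le_rpow_of_exponent_le hL1 (by linarith))
      have e3 : 0 < (L : ℝ) ^ e₁ := by positivity
      rw [e1]
      have e4 := mul_le_mul_of_nonneg_left e2 e3.le
      linarith
    have h4 : i ≤ V.a := by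
      by_contra hcon
      have e1 : (2 : ℝ) ^ V.a ≤ 2 ^ i := pow_le_pow_right₀ (by norm_num) (by omega)
      have e2 : 1 < (L : ℝ) ^ e₂ := by
        have := Real.one_le_rpow hL1 he1.le
        linarith
      have e3 : (0 : ℝ) < 2 ^ i := pow_pos two_pos _
      have e4 := lt_mul_of_one_lt_right e3 e2
      linarith
    refine ⟨h4, ?_⟩
    by_contra hcon
    have e1 : V.a - i ≤ V.a - i₁ := by omega
    have e2 : (2 : ℝ) ^ V.a = 2 ^ i * 2 ^ (V.a - i) := by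
      rw [← pow_add]
      congr 1
      omega
    have e3 : (2 : ℝ) ^ (V.a - i) ≤ 2 ^ (V.a - i₁) := pow_le_pow_right₀ (by norm_num) e1
    rw [e2] at h2
    have e4 : (L : ℝ) ^ e₂ ≤ 2 ^ (V.a - i) := le_of_mul_le_mul_left h2 (by positivity)
    linarith
  have hr : ∀ i, i ≤ V.a → (1 : ℝ) ≤ 2 ^ V.a / 2 ^ i := fun i hi => by
    rw [one_le_div (by positivity)]
    exact pow_le_pow_right₀ (by norm_num) hi
  have hrn : ∀ i, (2 : ℝ) ^ V.a / 2 ^ i ≤ n i := fun i => by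
    rw [hn]
    show (2 : ℝ) ^ V.a / 2 ^ i ≤ (V.nJ : ℝ) / 2 ^ i
    rw [hnJ]
    exact div_le_div_of_nonneg_right (le_mul_of_one_le_left (pow_pos two_pos _).le hcard1) (pow_pos two_pos _).le
  have hWle : ∀ i, i ≤ V.a → W i ≤ x * (((2 : ℝ) ^ V.a / 2 ^ i) ^ (-a₀) * n i) := by
    intro i hi
    rw [hW]
    refine W_le (K := K₁) (wa := wd' μ s (2 ^ V.a)) (le := (L : ℝ) ^ e) (hr i hi) (hrn i) ?_ (by positivity) (by linarith) ha1.le
      (hwi i) ?_ ?_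
    · have e1 : (L : ℝ) ^ e ≤ (L : ℝ) ^ (ε₂ / 2) := Real.rpow_le_rpow_of_exponent_le hL1 heε
      have e2 : x = (L : ℝ) ^ (ε₂ / 2) * (L : ℝ) ^ (ε₂ / 2) := by
        rw [hx, ← Real.rpow_add hL0]
        congr 1
        ring
      have e3 : 1 ≤ (L : ℝ) ^ (ε₂ / 2) := Real.one_le_rpow hL1 (by positivity)
      rw [e2]
      have e4 := mul_le_mul_of_nonneg_left hL4 (show 0 ≤ (L : ℝ) ^ (ε₂ / 2) by positivity)
      have e5 := mul_le_mul_of_nonneg_right e1 (show 0 ≤ K₁ by linarith)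
      linarith
    · have e1 : n i / ((2 : ℝ) ^ V.a / 2 ^ i) = V.nJ / 2 ^ V.a := by
        rw [hn]
        field_simp
      rw [e1, mul_div_assoc', le_div_iff₀ (by positivity)]
      exact hw
    · have e1 := (hwd (2 ^ i) (2 ^ V.a) Nat.one_le_two_pow (Nat.pow_le_pow_right (by norm_num) hi)).2.2
      push_cast at e1
      exact e1
  have hcub : ∀ i, i ≤ V.a → √(x * n i * W i) ≤ x * n i * ((2 : ℝ) ^ V.a / 2 ^ i) ^ (-(a₀ / 2)) := fun i hi =>
    s_le (hr i hi) (hn0 i) hx1 (hWle i hi)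
  have hcub1 : ∀ i, i ≤ V.a → √(x * n i * W i) ≤ x * n i := fun i hi => by
    refine (hcub i hi).trans ?_
    have e1 : ((2 : ℝ) ^ V.a / 2 ^ i) ^ (-(a₀ / 2)) ≤ 1 := Real.rpow_le_one_of_one_le_of_nonpos (hr i hi) (by linarith)
    exact mul_le_of_le_one_right (mul_nonneg hx0.le (hn0 i).le) e1
  have hMgE : ∀ i, i ≤ V.a → En i ≤ x * Mg i := fun i hi => by
    rw [hMg]
    show En i ≤ x * (n i * En i / √(x * n i * W i))
    rw [mul_div_assoc', le_div_iff₀ (hsq i)]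
    have := mul_le_mul_of_nonneg_left (hcub1 i hi) (hEn0 i).le
    linarith
  have hres := hk (P := P) hP0 (T := fun i M => NER μ s V L e C i₁ R i M) (fun i M => NER_nonneg _ _ _ _ _ _ _ _)
    (fun i M => by rw [hP]; exact NER_le hV _ _ _ hR _ _) (fun i j M hij => NER_mono hV _ _ _ hR hij le_rfl)
    (E := En) (ρ := ρ) (l := 2 ^ V.a) (i₀ := i₀) (I := V.a) (C := K₂) (L := L) (ε := ε₁) (A := x ^ 8)
    (err := 100 * K₂ * (x ^ 5 * (L : ℝ) ^ 2) * (Real.exp (-x) + δ)) hEn0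
    (fun i j hij => by rw [hEn]; exact EE'_mono (Nat.pow_le_pow_right (by norm_num) hij)) hK2
    (fun i j hij => by
      have e1 := (hEE (2 ^ i) (2 ^ j) Nat.one_le_two_pow (Nat.pow_le_pow_right (by norm_num) hij)).2.2
      have e2 : (((2 ^ j : ℕ) : ℝ) / ((2 ^ i : ℕ) : ℝ)) = (2 : ℝ) ^ (j - i) := by
        push_cast
        rw [pow_sub₀ _ two_ne_zero hij]
        rfl
      rw [e2] at e1
      rw [hEn]
      refine e1.trans ?_
      have e3 : Real.sqrt ((2 : ℝ) ^ (j - i)) ≤ 2 ^ (j - i) := by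
        rw [Real.sqrt_le_left (pow_pos two_pos _).le]
        exact le_self_pow₀ (one_le_pow₀ (by norm_num)) two_ne_zero
      exact mul_le_mul_of_nonneg_right (mul_le_mul_of_nonneg_left e3 (by linarith)) (zero_le_one.trans (le_max_left _ _)))
    hcase le_rfl (Nat.pow_lt_pow_right (by norm_num) (Nat.lt_succ_self _)) hL1
    (by
      have e1 : ((2 ^ V.a : ℕ) : ℝ) ≤ L := by exact_mod_cast two_pow_le hV
      have e2 : (1 : ℝ) ≤ 2 ^ i₀ := one_le_pow₀ (by norm_num)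
      exact e1.trans (le_mul_of_one_le_left hL0.le e2))
    (by
      have e1 : (L : ℝ) ^ (e₂ * (a₀ / 2) ^ 2) = (L : ℝ) ^ ε₁ * (L : ℝ) ^ ε₁ := by
        rw [← Real.rpow_add hL0]
        congr 1
        rw [hε₁]
        ring
      rw [e1]
      exact mul_le_mul_of_nonneg_right hL3 (by positivity))
    (fun i hi0 h2 => by
      obtain ⟨hia, -⟩ := hused i hi0 h2
      obtain ⟨r, hrr⟩ : ∃ r, r = (2 : ℝ) ^ V.a / 2 ^ i := ⟨_, rfl⟩
      have hr1 := hr i hia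
      have hc1 := hcub i hia
      rw [← hrr] at hr1 hc1
      have hr0 : 0 < r := by linarith
      push_cast
      rw [← hrr]
      have e1 : (L : ℝ) ^ (-ε₁) ≤ x⁻¹ := by
        rw [hx, ← Real.rpow_neg hL0.le]
        exact Real.rpow_le_rpow_of_exponent_le hL1 (by linarith)
      have e2 : x⁻¹ * r ^ (a₀ / 2) ≤ Mg i / En i := by
        rw [hMg]
        show x⁻¹ * r ^ (a₀ / 2) ≤ n i * En i / √(x * n i * W i) / En i
        rw [div_div, mul_comm (√(x * n i * W i)), ← div_div, mul_div_assoc, div_self (hEn0 i).ne', mul_one, le_div_iff₀ (hsq i)]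
        have e3 := mul_le_mul_of_nonneg_left hc1 (show 0 ≤ x⁻¹ * r ^ (a₀ / 2) by positivity)
        refine e3.trans (le_of_eq ?_)
        have e4 : r ^ (a₀ / 2) * r ^ (-(a₀ / 2)) = 1 := by
          rw [← Real.rpow_add hr0, add_neg_cancel, Real.rpow_zero]
        calc x⁻¹ * r ^ (a₀ / 2) * (x * n i * r ^ (-(a₀ / 2))) = (x⁻¹ * x) * n i * (r ^ (a₀ / 2) * r ^ (-(a₀ / 2))) := by ring
          _ = n i := by rw [e4, inv_mul_cancel₀ hx0.ne', one_mul, mul_one]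
      have e3 : Mg i / En i ≤ ρ i := by
        rw [hρ]
        refine div_le_div_of_nonneg_right ?_ (hEn0 i).le
        have := hMg0 i
        have : 0 ≤ (16 * K₂ + 1) * x * En i := mul_nonneg (mul_nonneg (by linarith) hx0.le) (hEn0 i).le
        linarith
      exact ((mul_le_mul_of_nonneg_right e1 (by positivity)).trans e2).trans e3)
    (one_le_pow₀ hx1) (by positivity)
    (fun i M' hi0 h2 hM1 hM2 => by
      obtain ⟨hia, hii⟩ := hused i hi0 h2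
      have hst := stepER (μ := μ) hV (e := e) (C := C) (i := i) (i₁ := i₁) hR (x := x) (δ := δ) hx1
        (by
          rw [hx, hδ]
          exact hin L (by omega) V hV i i₁ (h01.trans (pow_le_pow_right₀ (by norm_num) hi0)) hii hi1 h11 R hR hoff)
        (n := n i) (W := W i) (M := M') (by rw [hn]) (hn0 i) (by rw [hW]) (hW0 i) (by rw [hEn] at hM1; exact hM1)
      have hEi : EE' μ s (2 ^ i) = En i := by rw [hEn]
      rw [hEi] at hst
      have hMgi : n i * En i / √(x * n i * W i) = Mg i := by rw [hMg]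
      rw [hMgi] at hst
      have hM'0 : 0 < M' := lt_of_lt_of_le (hEn0 i) hM1
      have hmg := hMg0 i
      have hen := hEn0 i
      -- the number of brackets
      have hBr : (#(Br V) : ℝ) ≤ 4 * (L : ℝ) ^ 2 := by
        have e1 : ((#(Br V) : ℕ) : ℝ) ≤ (((V.N + 1) ^ 2 : ℕ) : ℝ) := by exact_mod_cast card_Br_le V
        have e2 : ((V.N : ℕ) : ℝ) ≤ L := by exact_mod_cast hV.NL
        push_cast at e1
        refine e1.trans ?_
        have e3 : (0 : ℝ) ≤ V.N := Nat.cast_nonneg _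
        have e4 : ((V.N : ℝ) + 1) ^ 2 ≤ (2 * (L : ℝ)) ^ 2 := pow_le_pow_left₀ (by linarith) (by linarith) 2
        rw [mul_pow] at e4
        linarith
      have hlog : Real.log #(Br V) ≤ x * En i := by
        have e1 : Real.log #(Br V) ≤ x := by
          rcases (Nat.cast_nonneg (α := ℝ) #(Br V)).eq_or_lt with h0 | h0
          · rw [← h0, Real.log_zero]
            exact hx0.le
          · rw [Real.log_le_iff_le_exp h0]
            have e3 : (#(Br V) : ℝ) ≤ (L : ℝ) ^ (3 : ℝ) := by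
              have e4 : ((#(Br V) : ℕ) : ℝ) ≤ (((V.N + 1) ^ 2 : ℕ) : ℝ) := by exact_mod_cast card_Br_le V
              have e5 : ((V.N : ℕ) : ℝ) ≤ L := by exact_mod_cast hV.NL
              push_cast at e4
              have e6 : (0 : ℝ) ≤ V.N := Nat.cast_nonneg _
              have e7 : (L : ℝ) ^ (3 : ℝ) = (L : ℝ) ^ 2 * L := by
                rw [show (3 : ℝ) = ((3 : ℕ) : ℝ) by norm_num, Real.rpow_natCast]
                ring
              rw [e7]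
              have e8 : ((V.N : ℝ) + 1) ^ 2 ≤ ((L : ℝ) + 1) ^ 2 := pow_le_pow_left₀ (by linarith) (by linarith) 2
              exact e4.trans (e8.trans (num_sq hLr))
            rw [hx]
            exact e3.trans hL7
        exact e1.trans (le_mul_of_one_le_right hx0.le (hEn1 i))
      -- the factor
      have hκ : 5 * x ^ 4 * (M' / Mg i) ≤ x ^ 8 * (M' / (En i * ρ i)) := by
        rw [hEρ i]
        have e1 : 4 * Mg i + (16 * K₂ + 1) * x * En i ≤ (16 * K₂ + 5) * x ^ 2 * Mg i := by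
          have e2 := mul_le_mul_of_nonneg_left (hMgE i hia) (show 0 ≤ (16 * K₂ + 1) * x by positivity)
          have e3 : Mg i ≤ x ^ 2 * Mg i := le_mul_of_one_le_left hmg.le (one_le_pow₀ hx1)
          have e5 : (16 * K₂ + 1) * x * (x * Mg i) = (16 * K₂ + 1) * (x ^ 2 * Mg i) := by ring
          have e6 : (16 * K₂ + 5) * x ^ 2 * Mg i = (16 * K₂ + 1) * (x ^ 2 * Mg i) + 4 * (x ^ 2 * Mg i) := by ring
          linarith
        have e4 : 0 < 4 * Mg i + (16 * K₂ + 1) * x * En i := by positivity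
        rw [mul_div_assoc', mul_div_assoc', div_le_div_iff₀ hmg e4]
        have e5 : 5 * (16 * K₂ + 5) ≤ x := by rw [hx]; exact hL2
        have e6 : 5 * (16 * K₂ + 5) ≤ x ^ 2 := e5.trans (le_self_pow₀ hx1 two_ne_zero)
        calc 5 * x ^ 4 * M' * (4 * Mg i + (16 * K₂ + 1) * x * En i) ≤ 5 * x ^ 4 * M' * ((16 * K₂ + 5) * x ^ 2 * Mg i) :=
              mul_le_mul_of_nonneg_left e1 (by positivity)
          _ = (5 * (16 * K₂ + 5)) * (x ^ 6 * M' * Mg i) := by ring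
          _ ≤ x ^ 2 * (x ^ 6 * M' * Mg i) := mul_le_mul_of_nonneg_right e6 (by positivity)
          _ = x ^ 8 * M' * Mg i := by ring
      have hT : NER μ s V L e C i₁ R i (4 * Mg i + 2 * (x * M') + Real.log #(Br V)) ≤ NER μ s V L e C i₁ R i (En i * ρ i) := by
        refine NER_mono hV _ _ _ hR le_rfl ?_
        rw [hEρ i]
        have := mul_le_mul_of_nonneg_left hM2 hx0.le
        linarith
      have hMn : M' / (n i * En i) ≤ 8 * K₂ := by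
        rw [div_le_iff₀ (mul_pos (hn0 i) hen)]
        have e1 : 1 ≤ n i := (hr i hia).trans (hrn i)
        have e2 : 8 * K₂ * En i ≤ 8 * K₂ * (n i * En i) :=
          mul_le_mul_of_nonneg_left (le_mul_of_one_le_left hen.le e1) (by positivity)
        linarith
      have hnL : n i ≤ L := by
        rw [hn]
        show (V.nJ : ℝ) / 2 ^ i ≤ L
        refine (div_le_self (Nat.cast_nonneg _) (one_le_pow₀ (by norm_num))).trans ?_
        exact_mod_cast nJ_le hV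
      have hsq2 : x * n i * W i ≤ (x * n i) ^ 2 := by
        have e1 := hcub1 i hia
        have e2 : 0 ≤ x * n i * W i := mul_nonneg (mul_nonneg hx0.le (hn0 i).le) (hW0 i).le
        rw [← Real.sq_sqrt e2]
        exact pow_le_pow_left₀ (Real.sqrt_nonneg _) e1 2
      have herr := err_le (K := K₂) (x := x) (Lr := L) (δ := δ) (M := M') (nE := n i * En i) (n := n i) (W := W i) (B := #(Br V))
        (lx := x * M') hK2 hx1 hL1 hδ0.le hMn (by have := mul_pos (hn0 i) hen; positivity) (hn0 i).le hnL hsq2 hBr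
        (le_mul_of_one_le_right hx0.le ((hEn1 i).trans hM1))
      have hN0 := NER_nonneg (μ := μ) (s := s) V L e C i₁ R i (En i * ρ i)
      have hN1 := NER_nonneg (μ := μ) (s := s) V L e C i₁ R i (4 * Mg i + 2 * (x * M') + Real.log #(Br V))
      have hκ0 : 0 ≤ 5 * x ^ 4 * (M' / Mg i) := by positivity
      refine hst.trans ?_
      have f1 := mul_le_mul hκ hT hN1 (by rw [hEρ i]; positivity)
      show 5 * x ^ 4 * (M' / Mg i) * NER μ s V L e C i₁ R i (4 * Mg i + 2 * (x * M') + Real.log #(Br V)) +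
        ((4 * x ^ 3 * (M' / (n i * En i)) * (√(x * n i * W i) * Real.exp (1 - x) + x * n i * W i * δ) + δ) +
          #(Br V) * Real.exp (-(x * M'))) ≤ x ^ 8 * (M' / (En i * ρ i)) * NER μ s V L e C i₁ R i (En i * ρ i) +
        100 * K₂ * (x ^ 5 * (L : ℝ) ^ 2) * (Real.exp (-x) + δ)
      linarith)
  -- the result at `max M (E i₀)`
  have hM2 := hres (max M (En i₀)) (le_max_right _ _)
  have hTM : NER μ s V L e C i₁ R i₀ M ≤ NER μ s V L e C i₁ R i₀ (max M (En i₀)) := NER_mono hV _ _ _ hR le_rfl (le_max_left _ _)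
  refine hTM.trans (hM2.trans (add_le_add ?_ ?_))
  · -- the main term
    refine mul_le_mul_of_nonneg_right ?_ hP0
    have e1 : max M (En i₀) ≤ (L : ℝ) ^ (ε / 8) * M := by
      refine max_le ?_ ?_
      · exact le_mul_of_one_le_left (by linarith) (Real.one_le_rpow hL1 (by positivity))
      · have e2 : En i₀ ≤ (L : ℝ) ^ (ε / 8) := by rw [hEn]; exact hE0
        exact e2.trans (le_mul_of_one_le_right (by positivity) hM)
    have e2 : (x ^ 8) ^ k ≤ (L : ℝ) ^ (ε / 4) := by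
      rw [← pow_mul, hx, ← Real.rpow_natCast, ← Real.rpow_mul hL0.le]
      refine Real.rpow_le_rpow_of_exponent_le hL1 ?_
      push_cast
      exact hε2k
    have hEa' : En V.a = EE' μ s (2 ^ V.a) := by rw [hEn]
    rw [hEa']
    have e3 : max M (En i₀) / EE' μ s (2 ^ V.a) ≤ (L : ℝ) ^ (ε / 8) * (M / EE' μ s (2 ^ V.a)) := by
      rw [mul_div_assoc']
      exact div_le_div_of_nonneg_right e1 hEa.le
    have e0 : 0 ≤ max M (En i₀) / EE' μ s (2 ^ V.a) := div_nonneg (le_trans (by linarith) (le_max_left _ _)) hEa.le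
    calc (x ^ 8) ^ k * (16 * K₂ ^ 2 * (L : ℝ) ^ e₂) * (max M (En i₀) / EE' μ s (2 ^ V.a)) ≤
          (L : ℝ) ^ (ε / 4) * ((L : ℝ) ^ (ε / 8) * (L : ℝ) ^ e₂) * ((L : ℝ) ^ (ε / 8) * (M / EE' μ s (2 ^ V.a))) := by
            refine mul_le_mul (mul_le_mul e2 (mul_le_mul_of_nonneg_right hL6 (by positivity)) (by positivity) (by positivity)) e3
              e0 (by positivity)
      _ = (L : ℝ) ^ (ε / 4 + (ε / 8 + e₂) + ε / 8) * (M / EE' μ s (2 ^ V.a)) := by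
            rw [Real.rpow_add hL0, Real.rpow_add hL0, Real.rpow_add hL0]
            ring
      _ ≤ (L : ℝ) ^ ε * (M / EE' μ s (2 ^ V.a)) := by
            refine mul_le_mul_of_nonneg_right (Real.rpow_le_rpow_of_exponent_le hL1 ?_) (by positivity)
            rw [he₂]
            linarith
  · -- the error
    have hLc : 0 < (L : ℝ) ^ c' := by positivity
    have e1 : 3 * (L : ℝ) ^ c' ≤ x := by
      have e2 : (L : ℝ) ^ c' * (L : ℝ) ^ c' ≤ (L : ℝ) ^ ε₂ := by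
        rw [← Real.rpow_add hL0]
        refine Real.rpow_le_rpow_of_exponent_le hL1 ?_
        rw [hc']
        have := min_le_left ε₂ cδ
        linarith
      rw [hx]
      have e3 : 3 ≤ (L : ℝ) ^ c' := (le_max_left _ _).trans hL8
      exact (mul_le_mul_of_nonneg_right e3 hLc.le).trans e2
    have e2 : 3 * (L : ℝ) ^ c' ≤ (L : ℝ) ^ cδ := by
      have e2 : (L : ℝ) ^ c' * (L : ℝ) ^ c' ≤ (L : ℝ) ^ cδ := by
        rw [← Real.rpow_add hL0]
        refine Real.rpow_le_rpow_of_exponent_le hL1 ?_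
        rw [hc']
        have := min_le_right ε₂ cδ
        linarith
      have e3 : 3 ≤ (L : ℝ) ^ c' := (le_max_left _ _).trans hL8
      exact (mul_le_mul_of_nonneg_right e3 hLc.le).trans e2
    obtain ⟨z, hz⟩ : ∃ z, z = Real.exp ((L : ℝ) ^ c') := ⟨_, rfl⟩
    have hz0 : 0 < z := by rw [hz]; exact Real.exp_pos _
    have e3 : Real.exp (-x) + δ ≤ 2 * Real.exp (-(3 * (L : ℝ) ^ c')) := by
      rw [hδ]
      have f1 : Real.exp (-x) ≤ Real.exp (-(3 * (L : ℝ) ^ c')) := Real.exp_le_exp.2 (by linarith)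
      have f2 : Real.exp (-(L : ℝ) ^ cδ) ≤ Real.exp (-(3 * (L : ℝ) ^ c')) := Real.exp_le_exp.2 (by linarith)
      linarith
    have e4 : Real.exp (-(3 * (L : ℝ) ^ c')) = Real.exp (-(L : ℝ) ^ c') * (z⁻¹ * z⁻¹) := by
      rw [hz, ← Real.exp_neg, ← Real.exp_add, ← Real.exp_add]
      congr 1
      ring
    have e5 : 200 * k * K₂ ≤ z := by
      have f1 : 200 * k * K₂ ≤ (L : ℝ) ^ c' := (le_max_right _ _).trans hL8
      rw [hz]
      have f2 := Real.add_one_le_exp ((L : ℝ) ^ c')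
      linarith
    have e6 : (x ^ 8) ^ k * (x ^ 5 * (L : ℝ) ^ 2) ≤ z := by
      rw [hz]
      refine le_trans (le_of_eq ?_) hL9
      rw [← pow_mul, ← mul_assoc, ← pow_add, hx, ← Real.rpow_natCast, ← Real.rpow_mul hL0.le, Real.rpow_add hL0]
      congr 1
      · congr 1
        push_cast
        ring
      · rw [show (2 : ℝ) = ((2 : ℕ) : ℝ) by norm_num, Real.rpow_natCast]
    have e7 : 0 ≤ (x ^ 8) ^ k * (x ^ 5 * (L : ℝ) ^ 2) := by positivity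
    calc (k : ℝ) * (x ^ 8) ^ k * (100 * K₂ * (x ^ 5 * (L : ℝ) ^ 2) * (Real.exp (-x) + δ)) ≤
          (k : ℝ) * (x ^ 8) ^ k * (100 * K₂ * (x ^ 5 * (L : ℝ) ^ 2) * (2 * Real.exp (-(3 * (L : ℝ) ^ c')))) :=
            mul_le_mul_of_nonneg_left (mul_le_mul_of_nonneg_left e3 (by positivity)) (by positivity)
      _ = (200 * k * K₂) * ((x ^ 8) ^ k * (x ^ 5 * (L : ℝ) ^ 2)) * (Real.exp (-(L : ℝ) ^ c') * (z⁻¹ * z⁻¹)) := by
            rw [e4]
            ring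
      _ ≤ z * z * (Real.exp (-(L : ℝ) ^ c') * (z⁻¹ * z⁻¹)) := by
            refine mul_le_mul_of_nonneg_right (mul_le_mul e5 e6 e7 hz0.le) (by positivity)
      _ = Real.exp (-(L : ℝ) ^ c') := by
            field_simp

/-- **The natural price of near ties times a blind event.** -/
theorem tieER_all [IsProbabilityMeasure μ] {cI CI : ℝ} {nI : ℕ} (h : In μ s cI CI nI) : TieER μ s := by
  intro ε hε
  obtain ⟨e₁, ε₂, h1, h2, h3, h4⟩ := tie_coreR h hε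
  obtain ⟨e₀, h5, h6⟩ := allIn_ofR h (cellSt h) ε₂ e₁ h3 h1
  refine ⟨e₁, h1, h2, min e₀ (ε₂ / 2), lt_min h5 (by positivity), fun e he hee C hC => ?_⟩
  exact h4 e he (hee.trans_le (min_le_right _ _)).le C (h6 e he (hee.trans_le (min_le_left _ _)) C hC)

end

end Pool.Agent.W_7d29a1_HZ.ZE
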