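import Pool.Agent.W_7d29a1_C0.Mod92
import Pool.Agent.W_7d29a1_C0.Shift27

/-!
CURV0 (MP_7d29a1_pr), leaf E0: THE EXACT TRANSPORT IN THE FRAME OF `Mod92`. (helper27)

Rows `c < c + K ≤ N`, slab = the rows `c + 1 .. c + K`, `Q` = the set of the allowed sites of the slab (the cone; `Q = slb c K`: no
restriction), `ind c K Q S` = the indicator of the paths which pass the slab inside `Q`. `A η S` = a function of the path up to the
row `c` (evaluated at `S ∩ range c`) and of the rows `≤ c` of the environment, `|A| ≤ D` (`PA`). `fG` = the explicit predictable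
field on the sites of `Q`. The path weights in the environment `Sh Q fG η` and the path weights tilted by `exp A` in the environment
`η` (both with the indicator) agree on every function of what the path does behind the slab: `trans_sum`, `trans_lw`, `trans_fib`.
-/

set_option autoImplicit false

namespace Pool.W7d29a1.C0.H27

open Finset MeasureTheory Pool.Agent.W_7d29a1_F Pool.Agent.W_7d29a1_X Pool.Agent.W_7d29a1_C0.Mod92
  Pool.Agent.W_7d29a1_C0.H32
open scoped ENNReal

noncomputable section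

variable {μ : Measure ℝ} {s : ℝ}

/-! ### The forward recursion of the path weights -/

/-- The predecessors of the site `(i + 1, z)`. -/
def PG (Q : Finset Pt) (i z : ℤ) : Finset ℤ := if (i + 1, z) ∈ Q then {z, z - 1} else ∅

/-- The kernel of a step. -/
def qG (μ : Measure ℝ) (s : ℝ) (_ y z : ℤ) : ℝ := Real.exp (-lam μ s) * (if y = z then 1 else Real.exp s)

theorem qG_nonneg (i y z : ℤ) : 0 ≤ qG μ s i y z := by
  unfold qG
  split_ifs <;> positivity

/-- The path stays in `Q` on the rows `c + 1 .. c + k`. -/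
def ind (c k : ℕ) (Q : Finset Pt) (S : Finset ℕ) : ℝ :=
  if ∀ i < k, (((c + i + 1 : ℕ) : ℤ), pos S (c + i + 1)) ∈ Q then 1 else 0

theorem ind_zero (c : ℕ) (Q : Finset Pt) (S : Finset ℕ) : ind c 0 Q S = 1 := if_pos fun i hi => absurd hi (by omega)

theorem ind_nonneg (c k : ℕ) (Q : Finset Pt) (S : Finset ℕ) : 0 ≤ ind c k Q S := by
  unfold ind
  split_ifs <;> norm_num

theorem ind_le_one (c k : ℕ) (Q : Finset Pt) (S : Finset ℕ) : ind c k Q S ≤ 1 := by
  unfold ind
  split_ifs <;> norm_num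

theorem ind_succ (c k : ℕ) (Q : Finset Pt) (S : Finset ℕ) : ind c (k + 1) Q S =
    ind c k Q S * if (((c + k + 1 : ℕ) : ℤ), pos S (c + k + 1)) ∈ Q then 1 else 0 := by
  unfold ind
  by_cases h : (((c + k + 1 : ℕ) : ℤ), pos S (c + k + 1)) ∈ Q
  · rw [if_pos h, mul_one]
    refine if_congr ⟨fun h1 i hi => h1 i (by omega), fun h1 i hi => ?_⟩ rfl rfl
    rcases Nat.lt_succ_iff_lt_or_eq.1 hi with h2 | h2
    · exact h1 i h2
    · subst h2; exact h
  · rw [if_neg h, mul_zero, if_neg fun h1 => h (h1 k (by omega))]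

theorem ind_insert {c k t : ℕ} (h : c + k ≤ t) (Q : Finset Pt) (S : Finset ℕ) : ind c k Q (insert t S) = ind c k Q S := by
  unfold ind
  refine if_congr (forall₂_congr fun i hi => ?_) rfl rfl
  rw [pos_insert (by omega)]

theorem ind_inter {c k t : ℕ} (h : c + k ≤ t) (Q : Finset Pt) (S : Finset ℕ) : ind c k Q (S ∩ range t) = ind c k Q S := by
  unfold ind
  refine if_congr (forall₂_congr fun i hi => ?_) rfl rfl
  rw [pos_inter S (by omega)]

theorem Mt_congr (η : Env) (t : ℕ) {F G : Finset ℕ → ℝ} (z : ℤ) (h : ∀ S, S ⊆ range t → pos S t = z → F S = G S) :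
    Mt μ s η t F z = Mt μ s η t G z := by
  unfold Mt
  refine sum_congr rfl fun S hS => ?_
  rw [mem_powerset] at hS
  split_ifs with hz
  · rw [h S hS hz]
  · rfl

theorem Mt_zero (η : Env) (t : ℕ) {F : Finset ℕ → ℝ} (z : ℤ) (h : ∀ S, S ⊆ range t → pos S t = z → F S = 0) :
    Mt μ s η t F z = 0 := by
  rw [Mt_congr η t (G := fun _ => 0) z h]
  unfold Mt
  simp

theorem fwd_GS (Q : Finset Pt) (η : Env) (c : ℕ) (F : Finset ℕ → ℝ) (k : ℕ) :
    ∀ z, fwd (PG Q) (qG μ s) η c (Mt μ s η c F) k z = Mt μ s η (c + k) (fun S => F (S ∩ range c) * ind c k Q S) z := by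
  induction k with
  | zero =>
    intro z
    exact Mt_congr η c z fun S hS _ => by rw [inter_eq_left.2 hS, ind_zero, mul_one]
  | succ k ih =>
    intro z
    have hF : ∀ S, S ⊆ range (c + k) → (fun S => F (S ∩ range c) * ind c k Q S) (insert (c + k) S) =
        (fun S => F (S ∩ range c) * ind c k Q S) S := by
      intro S _
      show F (insert (c + k) S ∩ range c) * ind c k Q (insert (c + k) S) = F (S ∩ range c) * ind c k Q S
      rw [inter_insert (by omega), ind_insert le_rfl]
    have e0 : ((c : ℤ) + (k : ℤ) + 1, z) = (((c + k + 1 : ℕ) : ℤ), z) := by push_cast; rfl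
    have e0' : ((((c + k : ℕ) : ℤ)) + 1, z) = (((c + k + 1 : ℕ) : ℤ), z) := by push_cast; rfl
    rw [fwd_succ, ← Nat.add_assoc]
    unfold num
    simp only [ih]
    by_cases hz : (((c + k + 1 : ℕ) : ℤ), z) ∈ Q
    · have e1 : PG Q ((c : ℤ) + k) z = {z, z - 1} := if_pos (by rw [e0]; exact hz)
      have e2 : Mt μ s η (c + k + 1) (fun S => F (S ∩ range c) * ind c (k + 1) Q S) z =
          Mt μ s η (c + k + 1) (fun S => F (S ∩ range c) * ind c k Q S) z :=
        Mt_congr η _ z fun S _ hS => by rw [ind_succ, hS, if_pos hz, mul_one]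
      rw [e1, sum_pair (by omega), e2, Mt_succ η (c + k) _ hF, e0, e0']
      unfold qG
      rw [if_pos rfl, if_neg (by omega : ¬ z - 1 = z)]
      ring
    · have e1 : PG Q ((c : ℤ) + k) z = ∅ := if_neg (by rw [e0]; exact hz)
      have e2 : Mt μ s η (c + k + 1) (fun S => F (S ∩ range c) * ind c (k + 1) Q S) z = 0 :=
        Mt_zero η _ z fun S _ hS => by rw [ind_succ, hS, if_neg hz, mul_zero, mul_zero]
      rw [e1, sum_empty, e2, mul_zero]

/-! ### The tilt family -/

/-- `A` is a bounded function of the past of the row `c`. -/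
structure PA (c : ℕ) (D : ℝ) (A : Env → Finset ℕ → ℝ) : Prop where
  bd : ∀ η S, |A η S| ≤ D
  bl : ∀ (η : Env) (u : Pt) (x : ℝ), (c : ℤ) < u.1 → A (Function.update η u x) = A η
  ms : ∀ S, Measurable fun η => A η S

theorem pth_blind (c : ℕ) (S : Finset ℕ) (η : Env) {u : Pt} (x : ℝ) (hu : (c : ℤ) < u.1) :
    pth μ s (Function.update η u x) c S = pth μ s η c S := by
  unfold pth
  congr 1
  refine prod_congr rfl fun i hi => ?_
  rw [mem_range] at hi
  rw [Function.update_of_ne]
  rintro rfl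
  simp only at hu
  omega

theorem pth_meas (c : ℕ) (S : Finset ℕ) : Measurable fun η : Env => pth μ s η c S := by
  unfold pth
  exact (Finset.measurable_prod _ fun i _ => (measurable_pi_apply _).exp).const_mul _

theorem Mt_meas (c : ℕ) {F : Env → Finset ℕ → ℝ} (hF : ∀ S, Measurable fun η => F η S) (z : ℤ) :
    Measurable fun η => Mt μ s η c (F η) z := by
  unfold Mt
  refine Finset.measurable_sum _ fun S _ => ?_
  split_ifs
  · exact (pth_meas c S).mul (hF S)
  · exact measurable_const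

/-- The tilt family of the path weights. -/
def gG (μ : Measure ℝ) (s : ℝ) (c : ℕ) (A : Env → Finset ℕ → ℝ) (τ : ℝ) (η : Env) (z : ℤ) : ℝ :=
  Mt μ s η c (fun S => Real.exp (τ * A η S)) z

theorem PA.tf {c : ℕ} {D : ℝ} {A : Env → Finset ℕ → ℝ} (h : PA c D A) : TF (c : ℤ) D (gG μ s c A) where
  nn t η z := Mt_nonneg η c (fun S => (Real.exp_pos _).le) z
  le t t' η z := by
    unfold gG Mt
    rw [mul_sum]
    refine sum_le_sum fun S _ => ?_
    split_ifs
    · have h1 : (t' - t) * A η S ≤ D * |t' - t| := by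
        calc (t' - t) * A η S ≤ |(t' - t) * A η S| := le_abs_self _
          _ = |A η S| * |t' - t| := by rw [abs_mul, mul_comm]
          _ ≤ D * |t' - t| := mul_le_mul_of_nonneg_right (h.bd η S) (abs_nonneg _)
      have h2 : Real.exp (t' * A η S) ≤ Real.exp (D * |t' - t|) * Real.exp (t * A η S) := by
        rw [← Real.exp_add]
        refine Real.exp_le_exp.2 ?_
        linarith
      calc pth μ s η c S * Real.exp (t' * A η S)
          ≤ pth μ s η c S * (Real.exp (D * |t' - t|) * Real.exp (t * A η S)) :=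
            mul_le_mul_of_nonneg_left h2 (pth_nonneg _ _ _)
        _ = _ := by ring
    · simp
  bl t η z u x hu := by
    unfold gG Mt
    refine sum_congr rfl fun S _ => ?_
    rw [h.bl η u x hu, pth_blind c S η x hu]
  ms t z := Mt_meas c (fun S => ((h.ms S).const_mul t).exp) z

/-- The sites of the rows `c + 1 .. c + K`. -/
def slb (c K : ℕ) : Finset Pt := Ioc (c : ℤ) (c + K) ×ˢ Icc (0 : ℤ) (c + K)

theorem mem_slb {c K : ℕ} {p : Pt} : p ∈ slb c K ↔ ((c : ℤ) < p.1 ∧ p.1 ≤ c + K) ∧ 0 ≤ p.2 ∧ p.2 ≤ c + K := by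
  unfold slb
  rw [mem_product, mem_Ioc, mem_Icc]

theorem slb_card (c K : ℕ) : ((slb c K).card : ℝ) = K * (c + K + 1) := by
  unfold slb
  rw [card_product, Int.card_Ioc, Int.card_Icc]
  have h1 : ((c : ℤ) + K - c).toNat = K := by omega
  have h2 : ((c : ℤ) + K + 1 - 0).toNat = c + K + 1 := by omega
  rw [h1, h2]
  push_cast
  ring

/-- No restriction. -/
theorem ind_slb (c K : ℕ) (S : Finset ℕ) : ind c K (slb c K) S = 1 := by
  refine if_pos fun i hi => ?_
  have h1 := pos_nonneg S (c + i + 1)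
  have h2 := pos_le S (c + i + 1)
  rw [mem_slb]
  simp only
  push_cast at h2 ⊢
  omega

/-- The rows of `Q` are the rows of the slab. -/
def Rws (c K : ℕ) (Q : Finset Pt) : Prop := ∀ p ∈ Q, (c : ℤ) < p.1 ∧ p.1 ≤ c + K

theorem rws_slb (c K : ℕ) : Rws c K (slb c K) := fun _ hp => (mem_slb.1 hp).1

/-- The field of the transport of the tilt `exp A`. -/
def fG (μ : Measure ℝ) (s : ℝ) (c K : ℕ) (Q : Finset Pt) (A : Env → Finset ℕ → ℝ) : Pt → Env → ℝ :=
  fld (PG Q) (qG μ s) c (gG μ s c A) (sch 0 1 K)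

section Field

variable {c K : ℕ} {Q : Finset Pt} {D : ℝ} {A : Env → Finset ℕ → ℝ}

theorem fG_meas (h : PA c D A) (p : Pt) : Measurable (fG μ s c K Q A p) := fld_meas h.tf p

theorem fG_pred (hQ : Rws c K Q) (h : PA c D A) : Pred Q (fG μ s c K Q A) := fld_pred h.tf fun p hp => (hQ p hp).1

theorem fG_bd (hD : 0 ≤ D) (h : PA c D A) (p : Pt) (η : Env) : |fG μ s c K Q A p η| ≤ D / K := by
  refine (fld_bd qG_nonneg hD h.tf p η).trans_eq ?_
  rcases Nat.eq_zero_or_pos K with h0 | h0
  · subst h0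
    unfold sch
    simp
  · have hK : (0 : ℝ) < K := by exact_mod_cast h0
    have : sch 0 1 K ((p.1 - (c : ℤ) - 1).toNat + 1) - sch 0 1 K (p.1 - (c : ℤ) - 1).toNat = 1 / K := by
      unfold sch; push_cast; field_simp; ring
    rw [this, abs_of_nonneg (by positivity)]
    ring

/-- The transport, forward function. -/
theorem trans_Mt (hQ : Rws c K Q) (hK0 : 0 < K) (h : PA c D A) (η : Env) (z : ℤ) :
    Mt μ s (Sh Q (fG μ s c K Q A) η) (c + K) (ind c K Q) z =
      Mt μ s η (c + K) (fun S => Real.exp (A η (S ∩ range c)) * ind c K Q S) z := by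
  have hK : ∀ k < K, ∀ z : ℤ, (((c : ℤ) + k + 1, z) : Pt) ∉ Q → PG Q ((c : ℤ) + k) z = ∅ := fun k _ z hz => if_neg hz
  have key := transport (s := sch 0 1 K) (qG_nonneg (μ := μ) (s := s)) (h.tf (μ := μ) (s := s))
    (fun p hp => (hQ p hp).1) hK η K le_rfl z
  have s0 : sch 0 1 K 0 = 0 := by unfold sch; simp
  have sK : sch 0 1 K K = 1 := by
    have : (K : ℝ) ≠ 0 := by exact_mod_cast hK0.ne'
    unfold sch; field_simp; ring
  rw [s0, sK] at key
  have e1 : gG μ s c A 0 (Sh Q (fG μ s c K Q A) η) = Mt μ s (Sh Q (fG μ s c K Q A) η) c (fun _ => 1) := by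
    funext y
    unfold gG
    exact Mt_congr _ _ y fun S _ _ => by rw [zero_mul, Real.exp_zero]
  have e2 : gG μ s c A 1 η = Mt μ s η c (fun S => Real.exp (A η S)) := by
    funext y
    unfold gG
    exact Mt_congr _ _ y fun S _ _ => by rw [one_mul]
  change fwd (PG Q) (qG μ s) (Sh Q (fG μ s c K Q A) η) c (gG μ s c A 0 (Sh Q (fG μ s c K Q A) η)) K z = _ at key
  rw [e1, e2, fwd_GS, fwd_GS] at key
  simp only [one_mul] at key
  exact key

end Field

/-! ### Splitting a path at a row -/

/-- The weight of the steps behind the row `c`, from the position `z`. -/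
def fut (μ : Measure ℝ) (s : ℝ) (η : Env) (c N : ℕ) (z : ℤ) (T : Finset ℕ) : ℝ :=
  Real.exp (s * (T.card : ℝ) - ((N : ℝ) - c) * lam μ s) *
    ∏ i ∈ Ico c N, Real.exp (η ((i : ℤ) + 1, z + (((T ∩ range (i + 1)).card : ℕ) : ℤ)))

theorem pos_split {c t : ℕ} (h : c ≤ t) (S : Finset ℕ) :
    pos S t = pos S c + ((((S \ range c) ∩ range t).card : ℕ) : ℤ) := by
  unfold pos
  rw [← Nat.cast_add, ← card_union_of_disjoint]
  · congr 2
    ext i
    simp only [mem_inter, mem_range, mem_union, mem_sdiff]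
    constructor
    · rintro ⟨h1, h2⟩
      by_cases h3 : i < c
      · exact Or.inl ⟨h1, h3⟩
      · exact Or.inr ⟨⟨h1, h3⟩, h2⟩
    · rintro (⟨h1, h2⟩ | ⟨⟨h1, h2⟩, h3⟩)
      · exact ⟨h1, by omega⟩
      · exact ⟨h1, h3⟩
  · rw [disjoint_left]
    intro i h1 h2
    simp only [mem_inter, mem_range, mem_sdiff] at h1 h2
    exact h2.1.2 h1.2

theorem pth_split (η : Env) {c N : ℕ} (h : c ≤ N) {S : Finset ℕ} (hS : S ⊆ range N) :
    pth μ s η N S = pth μ s η c (S ∩ range c) * fut μ s η c N (pos S c) (S \ range c) := by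
  unfold pth fut
  rw [← prod_range_mul_prod_Ico _ h]
  have e1 : ∏ i ∈ range c, Real.exp (η ((i : ℤ) + 1, pos (S ∩ range c) (i + 1))) =
      ∏ i ∈ range c, Real.exp (η ((i : ℤ) + 1, pos S (i + 1))) := by
    refine prod_congr rfl fun i hi => ?_
    rw [mem_range] at hi
    rw [pos_inter S (by omega)]
  have e2 : ∏ i ∈ Ico c N, Real.exp (η ((i : ℤ) + 1, pos S (i + 1))) =
      ∏ i ∈ Ico c N, Real.exp (η ((i : ℤ) + 1, pos S c + ((((S \ range c) ∩ range (i + 1)).card : ℕ) : ℤ))) := by
    refine prod_congr rfl fun i hi => ?_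
    rw [mem_Ico] at hi
    rw [pos_split (by omega : c ≤ i + 1) S]
  have e3 : pos S N = pos S c + (((S \ range c).card : ℕ) : ℤ) := by
    rw [pos_split h S, inter_eq_left.2 (sdiff_subset.trans hS)]
  have e4 : Real.exp (s * (pos S N : ℝ) - N * lam μ s) =
      Real.exp (s * (pos (S ∩ range c) c : ℝ) - c * lam μ s) *
        Real.exp (s * (((S \ range c).card : ℕ) : ℝ) - ((N : ℝ) - c) * lam μ s) := by
    rw [← Real.exp_add, e3, pos_inter S le_rfl]
    congr 1
    push_cast
    ring
  rw [e1, e2, e4]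
  ring

/-- The sum over the paths, split at the row `c`. -/
theorem sum_split (η : Env) {c N : ℕ} (h : c ≤ N) (F : Finset ℕ → ℝ) (b : ℤ → Finset ℕ → ℝ) :
    ∑ S ∈ (range N).powerset, pth μ s η N S * F (S ∩ range c) * b (pos S c) (S \ range c) =
      ∑ T ∈ (Ico c N).powerset, ∑ z ∈ Icc (0 : ℤ) c, fut μ s η c N z T * b z T * Mt μ s η c F z := by
  have h1 : ∑ S ∈ (range N).powerset, pth μ s η N S * F (S ∩ range c) * b (pos S c) (S \ range c) =
      ∑ q ∈ (range c).powerset ×ˢ (Ico c N).powerset,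
        pth μ s η c q.1 * fut μ s η c N (pos q.1 c) q.2 * F q.1 * b (pos q.1 c) q.2 := by
    refine sum_bij' (fun S _ => (S ∩ range c, S \ range c)) (fun q _ => q.1 ∪ q.2) ?_ ?_ ?_ ?_ ?_
    · intro S hS
      rw [mem_powerset] at hS
      rw [mem_product, mem_powerset, mem_powerset]
      refine ⟨inter_subset_right, fun i hi => ?_⟩
      have h2 := hS (mem_sdiff.1 hi).1
      have h3 := (mem_sdiff.1 hi).2
      rw [mem_range] at h2 h3
      rw [mem_Ico]
      omega
    · intro q hq
      rw [mem_product, mem_powerset, mem_powerset] at hq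
      rw [mem_powerset]
      refine union_subset (hq.1.trans (range_subset_range.2 h)) (hq.2.trans fun i hi => ?_)
      rw [mem_Ico] at hi
      rw [mem_range]
      exact hi.2
    · intro S _
      ext i
      simp only [mem_union, mem_inter, mem_sdiff, mem_range]
      tauto
    · intro q hq
      rw [mem_product, mem_powerset, mem_powerset] at hq
      obtain ⟨h2, h3⟩ := hq
      refine Prod.ext ?_ ?_
      · ext i
        simp only [mem_union, mem_inter, mem_range]
        constructor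
        · rintro ⟨h4 | h4, h5⟩
          · exact h4
          · have := mem_Ico.1 (h3 h4)
            omega
        · intro h4
          exact ⟨Or.inl h4, mem_range.1 (h2 h4)⟩
      · ext i
        simp only [mem_union, mem_sdiff, mem_range]
        constructor
        · rintro ⟨h4 | h4, h5⟩
          · exact absurd (mem_range.1 (h2 h4)) h5
          · exact h4
        · intro h4
          have := mem_Ico.1 (h3 h4)
          exact ⟨Or.inr h4, by omega⟩
    · intro S hS
      rw [mem_powerset] at hS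
      rw [pth_split η h hS, pos_inter S le_rfl]
  rw [h1, sum_product_right]
  refine sum_congr rfl fun T _ => ?_
  have h4 : ∀ z, fut μ s η c N z T * b z T * Mt μ s η c F z =
      ∑ S ∈ (range c).powerset, if pos S c = z then fut μ s η c N z T * b z T * (pth μ s η c S * F S) else 0 := fun z => by
    unfold Mt
    rw [mul_sum]
    refine sum_congr rfl fun S _ => ?_
    split_ifs <;> ring
  simp only [h4]
  rw [sum_comm]
  refine sum_congr rfl fun S _ => ?_
  rw [sum_ite_eq, if_pos (mem_Icc.2 ⟨pos_nonneg _ _, pos_le _ _⟩)]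
  ring

/-- `fut` does not see the rows `≤ c`. -/
theorem fut_congr {η η' : Env} {c N : ℕ} (h : ∀ u : Pt, (c : ℤ) < u.1 → η u = η' u) (z : ℤ) (T : Finset ℕ) :
    fut μ s η c N z T = fut μ s η' c N z T := by
  unfold fut
  congr 1
  refine prod_congr rfl fun i hi => ?_
  rw [mem_Ico] at hi
  rw [h]
  simp only
  omega

section Main

variable {c K N : ℕ} {Q : Finset Pt} {D : ℝ} {A : Env → Finset ℕ → ℝ}

/-- **THE EXACT TRANSPORT**, sums over the paths. -/
theorem trans_sum (hQ : Rws c K Q) (hK0 : 0 < K) (hN : c + K ≤ N) (h : PA c D A) (η : Env) (b : ℤ → Finset ℕ → ℝ) :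
    ∑ S ∈ (range N).powerset, pth μ s (Sh Q (fG μ s c K Q A) η) N S * ind c K Q S *
        b (pos S (c + K)) (S \ range (c + K)) =
      ∑ S ∈ (range N).powerset, pth μ s η N S * (Real.exp (A η (S ∩ range c)) * ind c K Q S) *
        b (pos S (c + K)) (S \ range (c + K)) := by
  have e1 := sum_split (μ := μ) (s := s) (Sh Q (fG μ s c K Q A) η) hN (ind c K Q) b
  have e2 := sum_split (μ := μ) (s := s) η hN (fun S => Real.exp (A η (S ∩ range c)) * ind c K Q S) b
  have e3 : ∀ S : Finset ℕ, (S ∩ range (c + K)) ∩ range c = S ∩ range c := fun S => by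
    rw [inter_assoc, inter_eq_right.2 (range_subset_range.2 (by omega : c ≤ c + K))]
  simp only [e3, ind_inter le_rfl] at e1 e2
  rw [e1, e2]
  refine sum_congr rfl fun T _ => sum_congr rfl fun z _ => ?_
  rw [trans_Mt hQ hK0 h η z]
  congr 2
  refine fut_congr (fun u hu => Sh_out _ _ fun hp => ?_) z T
  have := (hQ u hp).2
  push_cast at hu
  omega

/-- What a path does behind the row `c1`. -/
def pB {P : Finset (Finset ℕ)} (c1 : ℕ) (S : Px P) : ℤ × Finset ℕ := (ps S c1, S.1 \ range c1)

/-- The tilt as a function on `Px`. -/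
def tA {P : Finset (Finset ℕ)} (c : ℕ) (A : Env → Finset ℕ → ℝ) (η : Env) (S : Px P) : ℝ := A η (S.1 ∩ range c)

/-- A family of paths of length `N` which is cut out behind the row `c1`. -/
def Fam (N c1 : ℕ) (P : Finset (Finset ℕ)) : Prop :=
  ∃ b0 : ℤ → Finset ℕ → Prop, ∀ S, S ∈ P ↔ S ⊆ range N ∧ b0 (pos S c1) (S \ range c1)

theorem fam_Fr (N c1 : ℕ) : Fam N c1 (Fr N) := ⟨fun _ _ => True, fun S => by rw [mem_powerset, and_true]⟩

theorem fam_Pn {N c1 : ℕ} (h : c1 ≤ N) (y : ℕ) : Fam N c1 (Pn N y) :=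
  ⟨fun z T => z + ((T.card : ℕ) : ℤ) = (y : ℤ), fun S => by
    rw [mem_powersetCard]
    refine and_congr_right fun hS => ?_
    have e := pos_split h S
    rw [inter_eq_left.2 (sdiff_subset.trans hS), pos_card hS] at e
    show S.card = y ↔ pos S c1 + (((S \ range c1).card : ℕ) : ℤ) = (y : ℤ)
    rw [← e, Nat.cast_inj]⟩

variable {P : Finset (Finset ℕ)}

/-- Sums over a family as sums over all the paths. -/
theorem sum_fam {c1 : ℕ} (hP : Fam N c1 P) : ∃ b0 : ℤ → Finset ℕ → ℝ, ∀ f : Finset ℕ → ℝ,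
    ∑ S : Px P, f S.1 = ∑ S ∈ (range N).powerset, f S * b0 (pos S c1) (S \ range c1) := by
  classical
  obtain ⟨b0, h0⟩ := hP
  refine ⟨fun z T => if b0 z T then 1 else 0, fun f => ?_⟩
  rw [sum_Px f]
  have e : P = (range N).powerset.filter fun S => b0 (pos S c1) (S \ range c1) := by
    ext S
    rw [mem_filter, mem_powerset]
    exact h0 S
  rw [e, sum_filter]
  refine sum_congr rfl fun S _ => ?_
  show (if b0 (pos S c1) (S \ range c1) then f S else 0) = f S * if b0 (pos S c1) (S \ range c1) then 1 else 0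
  rw [mul_ite, mul_one, mul_zero]

/-- The path measure in the shifted environment and the tilted one agree behind the slab (`Px`, `lw`, all families which are cut
out behind the slab: free and pinned end). -/
theorem trans_lw (hP : Fam N (c + K) P) (hQ : Rws c K Q) (hK0 : 0 < K) (hN : c + K ≤ N) (h : PA c D A) (η : Env)
    (b : ℤ × Finset ℕ → ℝ) :
    ∑ S : Px P, Real.exp (lw μ s (Sh Q (fG μ s c K Q A) η) N P S) * (ind c K Q S.1 * b (pB (c + K) S)) =
      ∑ S : Px P, Real.exp (lw μ s η N P S + tA c A η S) * (ind c K Q S.1 * b (pB (c + K) S)) := by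
  obtain ⟨b0, h0⟩ := sum_fam hP
  have key := trans_sum (μ := μ) (s := s) hQ hK0 hN h η fun z T => b (z, T) * b0 z T
  have e1 := h0 fun S => pth μ s (Sh Q (fG μ s c K Q A) η) N S * (ind c K Q S * b (pos S (c + K), S \ range (c + K)))
  have e2 := h0 fun S => pth μ s η N S * Real.exp (A η (S ∩ range c)) *
    (ind c K Q S * b (pos S (c + K), S \ range (c + K)))
  calc ∑ S : Px P, Real.exp (lw μ s (Sh Q (fG μ s c K Q A) η) N P S) * (ind c K Q S.1 * b (pB (c + K) S))
      = ∑ S : Px P, pth μ s (Sh Q (fG μ s c K Q A) η) N S.1 * (ind c K Q S.1 * b (pos S.1 (c + K), S.1 \ range (c + K))) :=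
        sum_congr rfl fun S _ => by rw [exp_lw]; rfl
    _ = _ := e1
    _ = ∑ S ∈ (range N).powerset, pth μ s η N S * Real.exp (A η (S ∩ range c)) *
          (ind c K Q S * b (pos S (c + K), S \ range (c + K))) * b0 (pos S (c + K)) (S \ range (c + K)) := by
        refine Eq.trans (sum_congr rfl fun S _ => ?_) (key.trans (sum_congr rfl fun S _ => ?_)) <;> ring
    _ = _ := e2.symm
    _ = _ := sum_congr rfl fun S _ => by rw [Real.exp_add, exp_lw]; rfl

/-- The same without restriction. -/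
theorem trans_lw_slb (hP : Fam N (c + K) P) (hK0 : 0 < K) (hN : c + K ≤ N) (h : PA c D A) (η : Env)
    (b : ℤ × Finset ℕ → ℝ) :
    ∑ S : Px P, Real.exp (lw μ s (Sh (slb c K) (fG μ s c K (slb c K) A) η) N P S) * b (pB (c + K) S) =
      ∑ S : Px P, Real.exp (lw μ s η N P S + tA c A η S) * b (pB (c + K) S) := by
  have key := trans_lw (μ := μ) (s := s) hP (rws_slb c K) hK0 hN h η b
  simp only [ind_slb, one_mul] at key
  exact key

/-- The fibres. -/
theorem trans_fib (hP : Fam N (c + K) P) (hQ : Rws c K Q) (hK0 : 0 < K) (hN : c + K ≤ N) (h : PA c D A) (η : Env)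
    (y : ℤ × Finset ℕ) :
    ∑ S ∈ univ.filter (fun S : Px P => pB (c + K) S = y),
        Real.exp (lw μ s (Sh Q (fG μ s c K Q A) η) N P S) * ind c K Q S.1 =
      ∑ S ∈ univ.filter (fun S : Px P => pB (c + K) S = y), Real.exp (lw μ s η N P S + tA c A η S) * ind c K Q S.1 := by
  have key := trans_lw (μ := μ) (s := s) hP hQ hK0 hN h η (fun y' => if y' = y then 1 else 0)
  rw [sum_filter, sum_filter]
  refine Eq.trans (sum_congr rfl fun S _ => ?_) (key.trans (sum_congr rfl fun S _ => ?_))
  · split_ifs <;> ring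
  · split_ifs <;> ring

end Main

end

end Pool.W7d29a1.C0.H27
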