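import Pool.Agent.W_7d29a1_C0.Trans27B

/-!
CURV0 (MP_7d29a1_pr), leaf E0, part 3: THE MIRROR IMAGE. (helper27)

`c1 = c + K`, slab = the rows `c + 1 .. c1`. `A η z T` = a function of what the path does BEHIND the row `c1` (`z` = the position
at `c1`, `T` = the steps behind) and of the rows `> c1` of the environment, `|A| ≤ D` (`FA`). `fH` = the explicit BACKWARD predictable
field on the allowed sites `Q` of the slab: `fH_pred`, `|fH| ≤ D / K`. The path weights in the environment `Sh Q fH η` and the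
weights tilted by `exp A` in the environment `η` agree on every function of the path up to the row `c`: `transL_sum`, `transL_lw`.
`fP` = the field for a family `P` of paths (`Fam`: free or pinned end).
-/

set_option autoImplicit false

namespace Pool.W7d29a1.C0.H27

open Finset MeasureTheory Pool.Agent.W_7d29a1_F Pool.Agent.W_7d29a1_X Pool.Agent.W_7d29a1_C0.Mod92
  Pool.Agent.W_7d29a1_C0.H32
open scoped ENNReal

noncomputable section

variable {μ : Measure ℝ} {s : ℝ}

/-! ### Reflection of the rows -/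

/-- The reflection which exchanges the rows `c1` and `1`. -/
def rr (c1 : ℕ) (p : Pt) : Pt := ((c1 : ℤ) + 1 - p.1, p.2)

theorem rr_rr (c1 : ℕ) (p : Pt) : rr c1 (rr c1 p) = p := by
  unfold rr
  exact Prod.ext (by simp) rfl

/-- The reflected environment. -/
def re (c1 : ℕ) (η : Env) : Env := fun p => η (rr c1 p)

theorem re_re (c1 : ℕ) (η : Env) : re c1 (re c1 η) = η := by
  funext p
  unfold re
  rw [rr_rr]

theorem re_update (c1 : ℕ) (η : Env) (u : Pt) (x : ℝ) :
    re c1 (Function.update η u x) = Function.update (re c1 η) (rr c1 u) x := by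
  funext p
  unfold re
  by_cases h : rr c1 p = u
  · subst h
    rw [Function.update_self, rr_rr, Function.update_self]
  · rw [Function.update_of_ne h, Function.update_of_ne]
    rintro rfl
    exact h (rr_rr _ _)

theorem re_meas (c1 : ℕ) : Measurable (re c1) := measurable_pi_lambda _ fun _ => measurable_pi_apply _

/-! ### Sums over the futures -/

/-- The future `T`, started at the position `z` of the row `t`, stays in `Q` on the rows `t + 1 .. t + k`. -/
def inF (t k : ℕ) (Q : Finset Pt) (z : ℤ) (T : Finset ℕ) : ℝ :=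
  if ∀ i < k, (((t + i + 1 : ℕ) : ℤ), z + (((T ∩ range (t + i + 1)).card : ℕ) : ℤ)) ∈ Q then 1 else 0

theorem inF_zero (t : ℕ) (Q : Finset Pt) (z : ℤ) (T : Finset ℕ) : inF t 0 Q z T = 1 := if_pos fun i hi => absurd hi (by omega)

theorem inF_nonneg (t k : ℕ) (Q : Finset Pt) (z : ℤ) (T : Finset ℕ) : 0 ≤ inF t k Q z T := by
  unfold inF
  split_ifs <;> norm_num

theorem ind_eq_inF (c K : ℕ) (Q : Finset Pt) (S : Finset ℕ) : ind c K Q S = inF c K Q (pos S c) (S \ range c) := by
  unfold ind inF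
  refine if_congr (forall₂_congr fun i hi => ?_) rfl rfl
  rw [pos_split (by omega : c ≤ c + i + 1) S]

theorem card_insert_range {t r : ℕ} {T : Finset ℕ} (hT : t ∉ T) (hr : t < r) :
    (insert t T ∩ range r).card = (T ∩ range r).card + 1 := by
  have e : insert t T ∩ range r = insert t (T ∩ range r) := by
    ext i
    simp only [mem_inter, mem_insert, mem_range]
    constructor
    · rintro ⟨h1 | h1, h2⟩
      · exact Or.inl h1
      · exact Or.inr ⟨h1, h2⟩
    · rintro (h1 | ⟨h1, h2⟩)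
      · exact ⟨Or.inl h1, by omega⟩
      · exact ⟨Or.inr h1, h2⟩
  rw [e, card_insert_of_notMem fun h => hT (mem_inter.1 h).1]

theorem inter_range_empty {t N : ℕ} {T : Finset ℕ} (hT : T ⊆ Ico (t + 1) N) : T ∩ range (t + 1) = ∅ := by
  ext i
  simp only [mem_inter, mem_range, notMem_empty, iff_false, not_and]
  intro h
  have := mem_Ico.1 (hT h)
  omega

theorem inF_succ {t k N : ℕ} {Q : Finset Pt} {z : ℤ} {T : Finset ℕ} (hT : T ⊆ Ico (t + 1) N) :
    inF t (k + 1) Q z T = (if (((t + 1 : ℕ) : ℤ), z) ∈ Q then 1 else 0) * inF (t + 1) k Q z T := by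
  have h0 : z + (((T ∩ range (t + 0 + 1)).card : ℕ) : ℤ) = z := by
    rw [show t + 0 + 1 = t + 1 from rfl, inter_range_empty hT]
    simp
  unfold inF
  by_cases h : (((t + 1 : ℕ) : ℤ), z) ∈ Q
  · rw [if_pos h, one_mul]
    refine if_congr ⟨fun h1 i hi => ?_, fun h1 i hi => ?_⟩ rfl rfl
    · have h2 := h1 (i + 1) (by omega)
      rw [show t + (i + 1) + 1 = t + 1 + i + 1 by omega] at h2
      exact h2
    · rcases i with _ | i
      · rw [h0]
        exact h
      · have h2 := h1 i (by omega)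
        rw [show t + (i + 1) + 1 = t + 1 + i + 1 by omega]
        exact h2
  · rw [if_neg h, zero_mul]
    refine if_neg fun h1 => h ?_
    have h2 := h1 0 (by omega)
    rw [h0] at h2
    exact h2

theorem inF_insert {t k N : ℕ} {Q : Finset Pt} {z : ℤ} {T : Finset ℕ} (hT : T ⊆ Ico (t + 1) N) :
    inF t (k + 1) Q z (insert t T) = (if (((t + 1 : ℕ) : ℤ), z + 1) ∈ Q then 1 else 0) * inF (t + 1) k Q (z + 1) T := by
  have ht : t ∉ T := fun h => by
    have := mem_Ico.1 (hT h)
    omega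
  have h0 : z + (((insert t T ∩ range (t + 0 + 1)).card : ℕ) : ℤ) = z + 1 := by
    rw [show t + 0 + 1 = t + 1 from rfl, card_insert_range ht (by omega), inter_range_empty hT]
    simp
  have h3 : ∀ i, z + (((insert t T ∩ range (t + (i + 1) + 1)).card : ℕ) : ℤ) =
      z + 1 + (((T ∩ range (t + 1 + i + 1)).card : ℕ) : ℤ) := fun i => by
    rw [card_insert_range ht (by omega), show t + (i + 1) + 1 = t + 1 + i + 1 by omega]
    push_cast
    ring
  unfold inF
  by_cases h : (((t + 1 : ℕ) : ℤ), z + 1) ∈ Q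
  · rw [if_pos h, one_mul]
    refine if_congr ⟨fun h1 i hi => ?_, fun h1 i hi => ?_⟩ rfl rfl
    · have h2 := h1 (i + 1) (by omega)
      rw [h3, show t + (i + 1) + 1 = t + 1 + i + 1 by omega] at h2
      exact h2
    · rcases i with _ | i
      · rw [h0]
        exact h
      · have h2 := h1 i (by omega)
        rw [h3, show t + (i + 1) + 1 = t + 1 + i + 1 by omega]
        exact h2
  · rw [if_neg h, zero_mul]
    refine if_neg fun h1 => h ?_
    have h2 := h1 0 (by omega)
    rw [h0] at h2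
    exact h2

theorem fut_succ (η : Env) {t N : ℕ} (htN : t < N) (z : ℤ) {T : Finset ℕ} (hT : T ⊆ Ico (t + 1) N) :
    fut μ s η t N z T = Real.exp (-lam μ s) * Real.exp (η ((t : ℤ) + 1, z)) * fut μ s η (t + 1) N z T := by
  unfold fut
  rw [prod_eq_prod_Ico_succ_bot htN, inter_range_empty hT]
  have e : Real.exp (s * (T.card : ℝ) - ((N : ℝ) - t) * lam μ s) =
      Real.exp (-lam μ s) * Real.exp (s * (T.card : ℝ) - ((N : ℝ) - ((t + 1 : ℕ) : ℝ)) * lam μ s) := by
    rw [← Real.exp_add]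
    congr 1
    push_cast
    ring
  rw [e, card_empty, Nat.cast_zero, add_zero]
  ring

theorem fut_insert (η : Env) {t N : ℕ} (htN : t < N) (z : ℤ) {T : Finset ℕ} (hT : T ⊆ Ico (t + 1) N) :
    fut μ s η t N z (insert t T) =
      Real.exp (-lam μ s) * Real.exp s * Real.exp (η ((t : ℤ) + 1, z + 1)) * fut μ s η (t + 1) N (z + 1) T := by
  have ht : t ∉ T := fun h => by
    have := mem_Ico.1 (hT h)
    omega
  unfold fut
  rw [prod_eq_prod_Ico_succ_bot htN]
  have e : Real.exp (s * ((insert t T).card : ℝ) - ((N : ℝ) - t) * lam μ s) =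
      Real.exp (-lam μ s) * Real.exp s * Real.exp (s * (T.card : ℝ) - ((N : ℝ) - ((t + 1 : ℕ) : ℝ)) * lam μ s) := by
    rw [← Real.exp_add, ← Real.exp_add, card_insert_of_notMem ht]
    congr 1
    push_cast
    ring
  have e2 : ((insert t T ∩ range (t + 1)).card : ℤ) = 1 := by
    rw [card_insert_range ht (by omega), inter_range_empty hT]
    simp
  have e3 : ∏ i ∈ Ico (t + 1) N, Real.exp (η ((i : ℤ) + 1, z + (((insert t T ∩ range (i + 1)).card : ℕ) : ℤ))) =
      ∏ i ∈ Ico (t + 1) N, Real.exp (η ((i : ℤ) + 1, z + 1 + (((T ∩ range (i + 1)).card : ℕ) : ℤ))) := by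
    refine prod_congr rfl fun i hi => ?_
    have h1 := mem_Ico.1 hi
    have h2 : z + (((insert t T ∩ range (i + 1)).card : ℕ) : ℤ) = z + 1 + (((T ∩ range (i + 1)).card : ℕ) : ℤ) := by
      rw [card_insert_range ht (by omega)]
      push_cast
      ring
    rw [h2]
  rw [e, e2, e3]
  ring

/-- The sum over the futures of the site `(t, z)` which stay in `Q` on the rows `t + 1 .. t + k`, with the weight `E` (evaluated
at the position at the row `c1` and at the steps behind it). -/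
def FS (μ : Measure ℝ) (s : ℝ) (η : Env) (N c1 : ℕ) (Q : Finset Pt) (E : ℤ → Finset ℕ → ℝ) (t k : ℕ) (z : ℤ) : ℝ :=
  ∑ T ∈ (Ico t N).powerset, fut μ s η t N z T *
    (inF t k Q z T * E (z + (((T ∩ range c1).card : ℕ) : ℤ)) (T \ range c1))

theorem FS_zero (η : Env) (N c1 : ℕ) (Q : Finset Pt) (E : ℤ → Finset ℕ → ℝ) (z : ℤ) :
    FS μ s η N c1 Q E c1 0 z = ∑ T ∈ (Ico c1 N).powerset, fut μ s η c1 N z T * E z T := by
  unfold FS
  refine sum_congr rfl fun T hT => ?_
  rw [mem_powerset] at hT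
  have e1 : T ∩ range c1 = ∅ := by
    ext i
    simp only [mem_inter, mem_range, notMem_empty, iff_false, not_and]
    intro h
    have := mem_Ico.1 (hT h)
    omega
  have e2 : T \ range c1 = T := by
    ext i
    simp only [mem_sdiff, mem_range]
    refine ⟨fun h => h.1, fun h => ⟨h, ?_⟩⟩
    have := mem_Ico.1 (hT h)
    omega
  rw [inF_zero, e1, e2, card_empty, Nat.cast_zero, add_zero, one_mul]

/-- The backward recursion. -/
theorem FS_step (η : Env) {N c1 t k : ℕ} (h : t + 1 + k = c1) (hN : c1 ≤ N) (Q : Finset Pt) (E : ℤ → Finset ℕ → ℝ) (z : ℤ) :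
    FS μ s η N c1 Q E t (k + 1) z = Real.exp (-lam μ s) *
      (Real.exp (η (((t + 1 : ℕ) : ℤ), z)) * (if (((t + 1 : ℕ) : ℤ), z) ∈ Q then 1 else 0) * FS μ s η N c1 Q E (t + 1) k z +
        Real.exp s * (Real.exp (η (((t + 1 : ℕ) : ℤ), z + 1)) * (if (((t + 1 : ℕ) : ℤ), z + 1) ∈ Q then 1 else 0) *
          FS μ s η N c1 Q E (t + 1) k (z + 1))) := by
  have hI : Ico t N = insert t (Ico (t + 1) N) := by
    ext i
    simp only [mem_insert, mem_Ico]
    omega
  have ht : t ∉ Ico (t + 1) N := by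
    rw [mem_Ico]
    omega
  have e0 : (((t + 1 : ℕ) : ℤ)) = (t : ℤ) + 1 := by push_cast; rfl
  unfold FS
  rw [hI, sum_powerset_insert ht]
  rw [mul_add, mul_sum, mul_sum, mul_sum, mul_sum, mul_sum]
  refine congr_arg₂ _ (sum_congr rfl fun T hT => ?_) (sum_congr rfl fun T hT => ?_)
  · rw [mem_powerset] at hT
    rw [fut_succ η (by omega) z hT, inF_succ hT, e0]
    ring
  · rw [mem_powerset] at hT
    have htT : t ∉ T := fun h => ht (hT h)
    have e1 : z + (((insert t T ∩ range c1).card : ℕ) : ℤ) = z + 1 + (((T ∩ range c1).card : ℕ) : ℤ) := by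
      rw [card_insert_range htT (by omega)]
      push_cast
      ring
    have e2 : insert t T \ range c1 = T \ range c1 := by
      ext i
      simp only [mem_sdiff, mem_insert, mem_range]
      constructor
      · rintro ⟨h1 | h1, h2⟩
        · omega
        · exact ⟨h1, h2⟩
      · rintro ⟨h1, h2⟩
        exact ⟨Or.inr h1, h2⟩
    rw [fut_insert η (by omega) z hT, inF_insert hT, e1, e2, e0]
    ring

/-! ### The recursion as a forward recursion in the reflected environment -/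

/-- The predecessors in the reflected order. -/
def PH (c1 : ℕ) (Q : Finset Pt) (i z : ℤ) : Finset ℤ :=
  if rr c1 (i + 1, z) ∈ Q then (if i = 0 then {z} else {z, z + 1}) else ∅

/-- The kernel in the reflected order. -/
def qH (μ : Measure ℝ) (s : ℝ) (i y z : ℤ) : ℝ :=
  if i = 0 then 1 else Real.exp (-lam μ s) * (if y = z then 1 else Real.exp s)

theorem qH_nonneg (i y z : ℤ) : 0 ≤ qH μ s i y z := by
  unfold qH
  split_ifs <;> positivity

theorem fwd_FS {N c1 : ℕ} (hN : c1 ≤ N) (Q : Finset Pt) (η : Env) (E : ℤ → Finset ℕ → ℝ) (k : ℕ) :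
    ∀ t, t + k = c1 → ∀ z, num (PH c1 Q) (qH μ s) (re c1 η) 0 (FS μ s η N c1 Q E c1 0) k z =
      (if ((t : ℤ), z) ∈ Q then 1 else 0) * FS μ s η N c1 Q E t k z := by
  induction k with
  | zero =>
    intro t ht z
    have e0 : rr c1 ((0 : ℤ) + ((0 : ℕ) : ℤ) + 1, z) = ((t : ℤ), z) := by
      unfold rr
      refine Prod.ext ?_ rfl
      simp only
      push_cast
      omega
    unfold num PH
    rw [e0]
    have ht' : c1 = t := by omega
    subst ht'
    by_cases h : ((c1 : ℤ), z) ∈ Q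
    · rw [if_pos h, if_pos h, if_pos (by simp), sum_singleton, one_mul]
      unfold qH
      rw [if_pos (by simp), one_mul]
      rfl
    · rw [if_neg h, if_neg h, sum_empty, zero_mul]
  | succ k ih =>
    intro t ht z
    have e0 : rr c1 ((0 : ℤ) + ((k + 1 : ℕ) : ℤ) + 1, z) = ((t : ℤ), z) := by
      unfold rr
      refine Prod.ext ?_ rfl
      simp only
      push_cast
      omega
    have hk : ¬ ((0 : ℤ) + ((k + 1 : ℕ) : ℤ) = 0) := by push_cast; omega
    have ih' := ih (t + 1) (by omega)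
    have e1 : ∀ y, fwd (PH c1 Q) (qH μ s) (re c1 η) 0 (FS μ s η N c1 Q E c1 0) (k + 1) y =
        Real.exp (η (((t + 1 : ℕ) : ℤ), y)) * (if (((t + 1 : ℕ) : ℤ), y) ∈ Q then 1 else 0) *
          FS μ s η N c1 Q E (t + 1) k y := fun y => by
      rw [fwd_succ, ih' y, ← mul_assoc]
      have e2 : re c1 η ((0 : ℤ) + (k : ℤ) + 1, y) = η (((t + 1 : ℕ) : ℤ), y) := by
        unfold re rr
        congr 1
        refine Prod.ext ?_ rfl
        simp only
        push_cast
        omega
      rw [e2]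
    unfold num
    by_cases h : ((t : ℤ), z) ∈ Q
    · have e3 : PH c1 Q ((0 : ℤ) + ((k + 1 : ℕ) : ℤ)) z = {z, z + 1} := by
        unfold PH
        rw [e0, if_pos h, if_neg hk]
      rw [e3, if_pos h, sum_pair (by omega), e1, e1, one_mul, FS_step η (by omega) hN]
      unfold qH
      rw [if_neg hk, if_neg hk, if_pos rfl, if_neg (by omega : ¬ z + 1 = z)]
      ring
    · have e3 : PH c1 Q ((0 : ℤ) + ((k + 1 : ℕ) : ℤ)) z = ∅ := by
        unfold PH
        rw [e0, if_neg h]
      rw [e3, if_neg h, sum_empty, zero_mul]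

/-! ### The tilt family -/

/-- `A` is a bounded function of what the path does behind the row `c1` and of the rows `> c1`. -/
structure FA (c1 : ℕ) (D : ℝ) (A : Env → ℤ → Finset ℕ → ℝ) : Prop where
  bd : ∀ η z T, |A η z T| ≤ D
  bl : ∀ (η : Env) (u : Pt) (x : ℝ), u.1 ≤ (c1 : ℤ) → A (Function.update η u x) = A η
  ms : ∀ z T, Measurable fun η => A η z T

/-- The tilt family, in the reflected environment. -/
def gH (μ : Measure ℝ) (s : ℝ) (N c1 : ℕ) (b0 : ℤ → Finset ℕ → ℝ) (A : Env → ℤ → Finset ℕ → ℝ) (τ : ℝ) (ζ : Env) (z : ℤ) : ℝ :=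
  ∑ T ∈ (Ico c1 N).powerset, fut μ s (re c1 ζ) c1 N z T * (Real.exp (τ * A (re c1 ζ) z T) * b0 z T)

theorem fut_nonneg (η : Env) (c N : ℕ) (z : ℤ) (T : Finset ℕ) : 0 ≤ fut μ s η c N z T :=
  mul_nonneg (Real.exp_pos _).le (prod_nonneg fun _ _ => (Real.exp_pos _).le)

theorem fut_meas (c N : ℕ) (z : ℤ) (T : Finset ℕ) : Measurable fun η : Env => fut μ s η c N z T := by
  unfold fut
  exact (Finset.measurable_prod _ fun i _ => (measurable_pi_apply _).exp).const_mul _

theorem fut_blind (η : Env) {c N : ℕ} (z : ℤ) (T : Finset ℕ) {u : Pt} (x : ℝ) (hu : u.1 ≤ (c : ℤ)) :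
    fut μ s (Function.update η u x) c N z T = fut μ s η c N z T :=
  fut_congr (fun v hv => Function.update_of_ne (by rintro rfl; omega) _ _) z T

section Field

variable {N c1 K : ℕ} {Q : Finset Pt} {D : ℝ} {A : Env → ℤ → Finset ℕ → ℝ} {b0 : ℤ → Finset ℕ → ℝ}

theorem FA.tf (h : FA c1 D A) (hb : ∀ z T, 0 ≤ b0 z T) : TF 0 D (gH μ s N c1 b0 A) where
  nn t ζ z := sum_nonneg fun T _ => mul_nonneg (fut_nonneg _ _ _ _ _) (mul_nonneg (Real.exp_pos _).le (hb _ _))
  le t t' ζ z := by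
    unfold gH
    rw [mul_sum]
    refine sum_le_sum fun T _ => ?_
    have h1 : (t' - t) * A (re c1 ζ) z T ≤ D * |t' - t| := by
      calc (t' - t) * A (re c1 ζ) z T ≤ |(t' - t) * A (re c1 ζ) z T| := le_abs_self _
        _ = |A (re c1 ζ) z T| * |t' - t| := by rw [abs_mul, mul_comm]
        _ ≤ D * |t' - t| := mul_le_mul_of_nonneg_right (h.bd _ z T) (abs_nonneg _)
    have h2 : Real.exp (t' * A (re c1 ζ) z T) ≤ Real.exp (D * |t' - t|) * Real.exp (t * A (re c1 ζ) z T) := by
      rw [← Real.exp_add]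
      refine Real.exp_le_exp.2 ?_
      linarith
    calc fut μ s (re c1 ζ) c1 N z T * (Real.exp (t' * A (re c1 ζ) z T) * b0 z T)
        ≤ fut μ s (re c1 ζ) c1 N z T * (Real.exp (D * |t' - t|) * Real.exp (t * A (re c1 ζ) z T) * b0 z T) :=
          mul_le_mul_of_nonneg_left (mul_le_mul_of_nonneg_right h2 (hb _ _)) (fut_nonneg _ _ _ _ _)
      _ = _ := by ring
  bl t ζ z u x hu := by
    have h1 : (rr c1 u).1 ≤ (c1 : ℤ) := by
      unfold rr
      simp only
      omega
    unfold gH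
    rw [re_update]
    refine sum_congr rfl fun T _ => ?_
    rw [fut_blind _ z T x h1, h.bl _ _ x h1]
  ms t z := Finset.measurable_sum _ fun T _ => ((fut_meas c1 N z T).comp (re_meas c1)).mul
    (((((h.ms z T).comp (re_meas c1)).const_mul t).exp).mul_const _)

/-- The field of the transport of the tilt `exp A` of the future. -/
def fH (μ : Measure ℝ) (s : ℝ) (N c1 K : ℕ) (Q : Finset Pt) (b0 : ℤ → Finset ℕ → ℝ) (A : Env → ℤ → Finset ℕ → ℝ)
    (p : Pt) (η : Env) : ℝ :=
  fld (PH c1 Q) (qH μ s) 0 (gH μ s N c1 b0 A) (sch 0 1 K) (rr c1 p) (re c1 η)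

theorem fH_meas (h : FA c1 D A) (hb : ∀ z T, 0 ≤ b0 z T) (p : Pt) : Measurable (fH μ s N c1 K Q b0 A p) :=
  (fld_meas (h.tf hb) (rr c1 p)).comp (re_meas c1)

/-- `fH p` does not see the rows `≤ p.1`. -/
theorem fH_blind (h : FA c1 D A) (hb : ∀ z T, 0 ≤ b0 z T) {p u : Pt} (hp : p.1 ≤ (c1 : ℤ)) (hu : u.1 ≤ p.1) (η : Env)
    (x : ℝ) : fH μ s N c1 K Q b0 A p (Function.update η u x) = fH μ s N c1 K Q b0 A p η := by
  unfold fH
  rw [re_update]
  refine fld_blind (h.tf hb) ?_ ?_ _ x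
  · unfold rr
    simp only
    omega
  · unfold rr
    simp only
    omega

/-- The backward order of the rows. -/
theorem fH_pred (hQ : ∀ p ∈ Q, p.1 ≤ (c1 : ℤ)) (h : FA c1 D A) (hb : ∀ z T, 0 ≤ b0 z T) :
    PredR (fun p => -p.1) Q (fH μ s N c1 K Q b0 A) := fun a ha _ _ hle η x =>
  fH_blind h hb (hQ a ha) (by simpa using hle) η x

theorem fH_bd (hD : 0 ≤ D) (h : FA c1 D A) (hb : ∀ z T, 0 ≤ b0 z T) (p : Pt) (η : Env) :
    |fH μ s N c1 K Q b0 A p η| ≤ D / K := by
  refine (fld_bd qH_nonneg hD (h.tf hb) (rr c1 p) (re c1 η)).trans_eq ?_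
  rcases Nat.eq_zero_or_pos K with h0 | h0
  · subst h0
    unfold sch
    simp
  · have hK : (0 : ℝ) < K := by exact_mod_cast h0
    have : sch 0 1 K (((rr c1 p).1 - 0 - 1).toNat + 1) - sch 0 1 K ((rr c1 p).1 - 0 - 1).toNat = 1 / K := by
      unfold sch
      push_cast
      field_simp
      ring
    rw [this, abs_of_nonneg (by positivity)]
    ring

/-- The shift in the reflected environment. -/
theorem re_Sh (φ : Pt → Env → ℝ) (η : Env) :
    re c1 (Sh Q φ η) = Sh (Q.image (rr c1)) (fun p ζ => φ (rr c1 p) (re c1 ζ)) (re c1 η) := by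
  funext p
  by_cases hp : rr c1 p ∈ Q
  · have h1 : p ∈ Q.image (rr c1) := mem_image.2 ⟨rr c1 p, hp, rr_rr _ _⟩
    rw [Sh_in _ _ h1, re_re]
    exact Sh_in _ _ hp
  · have h1 : p ∉ Q.image (rr c1) := by
      intro h
      obtain ⟨q, hq, e⟩ := mem_image.1 h
      rw [← e, rr_rr] at hp
      exact hp hq
    rw [Sh_out _ _ h1]
    exact Sh_out _ _ hp

end Field

/-! ### The transport -/

theorem FS_fwd {N c k : ℕ} (hN : c + (k + 1) ≤ N) (Q : Finset Pt) (η : Env) (E : ℤ → Finset ℕ → ℝ) (z : ℤ) :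
    FS μ s η N (c + (k + 1)) Q E c (k + 1) z = Real.exp (-lam μ s) *
      (fwd (PH (c + (k + 1)) Q) (qH μ s) (re (c + (k + 1)) η) 0 (FS μ s η N (c + (k + 1)) Q E (c + (k + 1)) 0) (k + 1) z +
        Real.exp s * fwd (PH (c + (k + 1)) Q) (qH μ s) (re (c + (k + 1)) η) 0
          (FS μ s η N (c + (k + 1)) Q E (c + (k + 1)) 0) (k + 1) (z + 1)) := by
  have h1 := fwd_FS (μ := μ) (s := s) hN Q η E k (c + 1) (by omega)
  have e2 : ∀ y, re (c + (k + 1)) η ((0 : ℤ) + (k : ℤ) + 1, y) = η (((c + 1 : ℕ) : ℤ), y) := fun y => by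
    unfold re rr
    congr 1
    refine Prod.ext ?_ rfl
    simp only
    push_cast
    ring
  rw [fwd_succ, fwd_succ, h1, h1, e2, e2, FS_step η (by omega) hN]
  ring

theorem gH_FS (N c1 : ℕ) (Q : Finset Pt) (b0 : ℤ → Finset ℕ → ℝ) (A : Env → ℤ → Finset ℕ → ℝ) (τ : ℝ) (η : Env) :
    gH μ s N c1 b0 A τ (re c1 η) = FS μ s η N c1 Q (fun z T => Real.exp (τ * A η z T) * b0 z T) c1 0 := by
  funext z
  rw [FS_zero]
  unfold gH
  rw [re_re]

theorem pth_congr {η η' : Env} {c : ℕ} (h : ∀ u : Pt, u.1 ≤ (c : ℤ) → η u = η' u) (S : Finset ℕ) :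
    pth μ s η c S = pth μ s η' c S := by
  unfold pth
  congr 1
  refine prod_congr rfl fun i hi => ?_
  rw [mem_range] at hi
  rw [h]
  simp only
  omega

section Main

variable {N c K : ℕ} {Q : Finset Pt} {D : ℝ} {A : Env → ℤ → Finset ℕ → ℝ} {b0 : ℤ → Finset ℕ → ℝ}

theorem transL_FS (hQ : Rws c K Q) (hK0 : 0 < K) (hN : c + K ≤ N) (h : FA (c + K) D A) (hb : ∀ z T, 0 ≤ b0 z T) (η : Env)
    (z : ℤ) : FS μ s (Sh Q (fH μ s N (c + K) K Q b0 A) η) N (c + K) Q b0 c K z =
      FS μ s η N (c + K) Q (fun z T => Real.exp (A η z T) * b0 z T) c K z := by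
  obtain ⟨k, rfl⟩ : ∃ k, K = k + 1 := ⟨K - 1, by omega⟩
  set c1 := c + (k + 1) with hc1
  set ζ : Env := re c1 η with hζ
  set S : Finset Pt := Q.image (rr c1) with hS
  set φ := fld (PH c1 Q) (qH μ s) 0 (gH μ s N c1 b0 A) (sch 0 1 (k + 1)) with hφ
  have hS1 : ∀ p ∈ S, (0 : ℤ) < p.1 := fun p hp => by
    obtain ⟨q, hq, rfl⟩ := mem_image.1 hp
    have := (hQ q hq).2
    unfold rr
    simp only
    push_cast at this ⊢
    omega
  have hS2 : ∀ j < k + 1, ∀ y : ℤ, ((0 + (j : ℤ) + 1, y) : Pt) ∉ S → PH c1 Q (0 + (j : ℤ)) y = ∅ := fun j _ y hy => by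
    unfold PH
    rw [if_neg]
    intro hq
    exact hy (mem_image.2 ⟨_, hq, rr_rr _ _⟩)
  have key := transport (s := sch 0 1 (k + 1)) (qH_nonneg (μ := μ) (s := s)) (h.tf (μ := μ) (s := s) (N := N) hb) hS1 hS2 ζ
    (k + 1) le_rfl
  have s0 : sch 0 1 (k + 1) 0 = 0 := by unfold sch; simp
  have sK : sch 0 1 (k + 1) (k + 1) = 1 := by
    unfold sch
    push_cast
    field_simp
    ring
  rw [s0, sK] at key
  have e1 : re c1 (Sh Q (fH μ s N c1 (k + 1) Q b0 A) η) = Sh S φ ζ := by
    rw [re_Sh]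
    congr 1
    funext p ζ'
    unfold fH
    rw [rr_rr, re_re]
  rw [FS_fwd hN, FS_fwd hN]
  have e2 : gH μ s N c1 b0 A 0 (Sh S φ ζ) = FS μ s (Sh Q (fH μ s N c1 (k + 1) Q b0 A) η) N c1 Q b0 c1 0 := by
    rw [← e1, gH_FS (Q := Q)]
    congr 1
    funext y T
    rw [zero_mul, Real.exp_zero, one_mul]
  have e3 : gH μ s N c1 b0 A 1 ζ = FS μ s η N c1 Q (fun z T => Real.exp (A η z T) * b0 z T) c1 0 := by
    rw [hζ, gH_FS (Q := Q)]
    congr 1
    funext y T
    rw [one_mul]
  rw [e2, e3, ← e1] at key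
  rw [← hc1, key, key]

/-- **THE EXACT TRANSPORT, MIRROR IMAGE**, sums over the paths. -/
theorem transL_sum (hQ : Rws c K Q) (hK0 : 0 < K) (hN : c + K ≤ N) (h : FA (c + K) D A) (hb : ∀ z T, 0 ≤ b0 z T) (η : Env)
    (F : Finset ℕ → ℝ) :
    ∑ S ∈ (range N).powerset, pth μ s (Sh Q (fH μ s N (c + K) K Q b0 A) η) N S * F (S ∩ range c) *
        (ind c K Q S * b0 (pos S (c + K)) (S \ range (c + K))) =
      ∑ S ∈ (range N).powerset, pth μ s η N S * F (S ∩ range c) *
        (ind c K Q S * (Real.exp (A η (pos S (c + K)) (S \ range (c + K))) * b0 (pos S (c + K)) (S \ range (c + K)))) := by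
  have hcN : c ≤ N := by omega
  have hg : ∀ (η : Env) (E : ℤ → Finset ℕ → ℝ),
      ∑ S ∈ (range N).powerset, pth μ s η N S * F (S ∩ range c) * (ind c K Q S * E (pos S (c + K)) (S \ range (c + K))) =
        ∑ z ∈ Icc (0 : ℤ) c, Mt μ s η c F z * FS μ s η N (c + K) Q E c K z := fun η E => by
    have e1 := sum_split (μ := μ) (s := s) η hcN F fun z T => inF c K Q z T *
      E (z + (((T ∩ range (c + K)).card : ℕ) : ℤ)) (T \ range (c + K))
    have e2 : ∀ S : Finset ℕ, ind c K Q S * E (pos S (c + K)) (S \ range (c + K)) =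
        inF c K Q (pos S c) (S \ range c) * E (pos S c + ((((S \ range c) ∩ range (c + K)).card : ℕ) : ℤ))
          ((S \ range c) \ range (c + K)) := fun S => by
      have e3 : (S \ range c) \ range (c + K) = S \ range (c + K) := by
        ext i
        simp only [mem_sdiff, mem_range]
        constructor
        · rintro ⟨⟨h1, _⟩, h2⟩
          exact ⟨h1, h2⟩
        · rintro ⟨h1, h2⟩
          exact ⟨⟨h1, by omega⟩, h2⟩
      rw [ind_eq_inF, ← pos_split (by omega : c ≤ c + K) S, e3]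
    simp only [e2]
    rw [e1, sum_comm]
    refine sum_congr rfl fun z _ => ?_
    unfold FS
    rw [mul_sum]
    refine sum_congr rfl fun T _ => ?_
    ring
  rw [hg (Sh Q (fH μ s N (c + K) K Q b0 A) η) b0, hg η fun z T => Real.exp (A η z T) * b0 z T]
  refine sum_congr rfl fun z _ => ?_
  rw [transL_FS hQ hK0 hN h hb η z]
  congr 1
  unfold Mt
  refine sum_congr rfl fun S _ => ?_
  rw [pth_congr (η := Sh Q (fH μ s N (c + K) K Q b0 A) η) (η' := η) (fun u hu => Sh_out _ _ fun hp => ?_) S]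
  have := (hQ u hp).1
  omega

end Main

/-! ### In the frame of `Mod92` -/

open Classical in
/-- The condition of the family behind the row `c1`. -/
def bF (c1 : ℕ) (P : Finset (Finset ℕ)) (z : ℤ) (T : Finset ℕ) : ℝ :=
  if ∃ S ∈ P, pos S c1 = z ∧ S \ range c1 = T then 1 else 0

theorem bF_nonneg (c1 : ℕ) (P : Finset (Finset ℕ)) (z : ℤ) (T : Finset ℕ) : 0 ≤ bF c1 P z T := by
  unfold bF
  split_ifs <;> norm_num

/-- The tilt as a function on `Px`. -/
def tF {P : Finset (Finset ℕ)} (c1 : ℕ) (A : Env → ℤ → Finset ℕ → ℝ) (η : Env) (S : Px P) : ℝ :=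
  A η (ps S c1) (S.1 \ range c1)

section Px

variable {N c K : ℕ} {P : Finset (Finset ℕ)} {Q : Finset Pt} {D : ℝ} {A : Env → ℤ → Finset ℕ → ℝ}

theorem sum_bF {c1 : ℕ} (hP : Fam N c1 P) (f : Finset ℕ → ℝ) :
    ∑ S : Px P, f S.1 = ∑ S ∈ (range N).powerset, f S * bF c1 P (pos S c1) (S \ range c1) := by
  classical
  obtain ⟨q, h0⟩ := hP
  rw [sum_Px f]
  have e : P = (range N).powerset.filter fun S => ∃ S' ∈ P, pos S' c1 = pos S c1 ∧ S' \ range c1 = S \ range c1 := by
    ext S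
    rw [mem_filter, mem_powerset]
    constructor
    · intro h
      exact ⟨((h0 S).1 h).1, S, h, rfl, rfl⟩
    · rintro ⟨h1, S', h2, h3, h4⟩
      refine (h0 S).2 ⟨h1, ?_⟩
      have h5 := ((h0 S').1 h2).2
      rwa [h3, h4] at h5
  have e2 : ∑ S ∈ P, f S = ∑ S ∈ (range N).powerset.filter fun S => ∃ S' ∈ P, pos S' c1 = pos S c1 ∧
      S' \ range c1 = S \ range c1, f S := by rw [← e]
  rw [e2, sum_filter]
  refine sum_congr rfl fun S _ => ?_
  unfold bF
  rw [mul_ite, mul_one, mul_zero]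

/-- The field for the family `P`. -/
def fP (μ : Measure ℝ) (s : ℝ) (N c K : ℕ) (P : Finset (Finset ℕ)) (Q : Finset Pt) (A : Env → ℤ → Finset ℕ → ℝ) :
    Pt → Env → ℝ :=
  fH μ s N (c + K) K Q (bF (c + K) P) A

theorem fP_meas (h : FA (c + K) D A) (p : Pt) : Measurable (fP μ s N c K P Q A p) := fH_meas h (bF_nonneg _ _) p

theorem fP_pred (hQ : Rws c K Q) (h : FA (c + K) D A) : PredR (fun p => -p.1) Q (fP μ s N c K P Q A) :=
  fH_pred (fun p hp => by have := (hQ p hp).2; push_cast; exact this) h (bF_nonneg _ _)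

theorem fP_bd (hD : 0 ≤ D) (h : FA (c + K) D A) (p : Pt) (η : Env) : |fP μ s N c K P Q A p η| ≤ D / K :=
  fH_bd hD h (bF_nonneg _ _) p η

/-- The path measure in the shifted environment and the one tilted behind the slab agree in front of the slab. -/
theorem transL_lw (hP : Fam N (c + K) P) (hQ : Rws c K Q) (hK0 : 0 < K) (hN : c + K ≤ N) (h : FA (c + K) D A) (η : Env)
    (F : Finset ℕ → ℝ) :
    ∑ S : Px P, Real.exp (lw μ s (Sh Q (fP μ s N c K P Q A) η) N P S) * (ind c K Q S.1 * F (S.1 ∩ range c)) =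
      ∑ S : Px P, Real.exp (lw μ s η N P S + tF (c + K) A η S) * (ind c K Q S.1 * F (S.1 ∩ range c)) := by
  have key := transL_sum (μ := μ) (s := s) hQ hK0 hN h (bF_nonneg (c + K) P) η F
  have e1 := sum_bF hP fun S => pth μ s (Sh Q (fP μ s N c K P Q A) η) N S * (ind c K Q S * F (S ∩ range c))
  have e2 := sum_bF hP fun S => pth μ s η N S * Real.exp (A η (pos S (c + K)) (S \ range (c + K))) *
    (ind c K Q S * F (S ∩ range c))
  calc ∑ S : Px P, Real.exp (lw μ s (Sh Q (fP μ s N c K P Q A) η) N P S) * (ind c K Q S.1 * F (S.1 ∩ range c))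
      = ∑ S : Px P, pth μ s (Sh Q (fP μ s N c K P Q A) η) N S.1 * (ind c K Q S.1 * F (S.1 ∩ range c)) :=
        sum_congr rfl fun S _ => by rw [exp_lw]
    _ = _ := e1
    _ = ∑ S ∈ (range N).powerset, pth μ s η N S * Real.exp (A η (pos S (c + K)) (S \ range (c + K))) *
          (ind c K Q S * F (S ∩ range c)) * bF (c + K) P (pos S (c + K)) (S \ range (c + K)) := by
        refine Eq.trans (sum_congr rfl fun S _ => ?_) (key.trans (sum_congr rfl fun S _ => ?_))
        · unfold fP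
          ring
        · ring
    _ = _ := e2.symm
    _ = _ := sum_congr rfl fun S _ => by rw [Real.exp_add, exp_lw]; rfl

/-- The same without restriction. -/
theorem transL_lw_slb (hP : Fam N (c + K) P) (hK0 : 0 < K) (hN : c + K ≤ N) (h : FA (c + K) D A) (η : Env)
    (F : Finset ℕ → ℝ) :
    ∑ S : Px P, Real.exp (lw μ s (Sh (slb c K) (fP μ s N c K P (slb c K) A) η) N P S) * F (S.1 ∩ range c) =
      ∑ S : Px P, Real.exp (lw μ s η N P S + tF (c + K) A η S) * F (S.1 ∩ range c) := by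
  have key := transL_lw (μ := μ) (s := s) hP (rws_slb c K) hK0 hN h η F
  simp only [ind_slb, one_mul] at key
  exact key

end Px

end

end Pool.W7d29a1.C0.H27
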