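import Pool.Agent.W_7d29a1_C0.Loc7F
import Pool.Agent.W_7d29a1_C0.Trans27M

/-!
CURV0 (MP_7d29a1_pr), leaf E0, part 5: THE MIRROR INSTANCE, one size. (helper27)

The tilt `U` sits behind the slab (`FA`), the functional of the replicas in front of it (a function of `S ∩ range c`).
`FS_sh`: the futures of the site `(t, z)` are the paths of the environment `sh (t, z) η`; `far_Fr`, `far_Pn`: the mass of the futures which are
far at the row `c + K` is at most `Qf`, `Qp` (`Loc14`) of this environment. `nbL`, `nearL`: the neighbourhoods and the near sites;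
`AbL`: the local tilt; `fP_small`: its backward field is small at the sites which are not near; `e0_modL`: the mirror image of `e0_mod7`.
-/

set_option autoImplicit false

namespace Pool.W7d29a1.C0.H27

open Finset MeasureTheory Filter Topology Pool.Agent.W_7d29a1_F Pool.Agent.W_7d29a1_X Pool.Agent.W_7d29a1_C0.Mod92
  Pool.Agent.W_7d29a1_C0.H32 Pool.W7d29a1.C0.H7
open Pool.Agent.W_7d29a1_H (sl)
open Pool.Agent.W_7d29a1_HS (In wd)
open Pool.Agent.W_7d29a1_HZ (NSp wd' gp)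
open Pool.W7d29a1.C0 (gz gm)
open Pool.Agent.W_7d29a1_C0.Loc14 (Qp Qf)
open Pool.Agent.W_7d29a1_C0.Blk18 (pce img_sub card_img img_pce pce_sub)
open scoped ENNReal

noncomputable section

variable {μ : Measure ℝ} {s : ℝ}

/-! ### The futures as paths of the shifted environment -/

theorem img_inter (T : Finset ℕ) (t u : ℕ) : T.image (· + t) ∩ range (t + u) = (T ∩ range u).image (· + t) := by
  ext i
  simp only [mem_inter, mem_image, mem_range]
  constructor
  · rintro ⟨⟨j, h1, rfl⟩, h2⟩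
    exact ⟨j, ⟨h1, by omega⟩, rfl⟩
  · rintro ⟨j, ⟨h1, h2⟩, rfl⟩
    exact ⟨⟨j, h1, rfl⟩, by omega⟩

theorem img_sdiff (T : Finset ℕ) (t u : ℕ) : T.image (· + t) \ range (t + u) = (T \ range u).image (· + t) := by
  ext i
  simp only [Finset.mem_sdiff, mem_image, mem_range]
  constructor
  · rintro ⟨⟨j, h1, rfl⟩, h2⟩
    exact ⟨j, ⟨h1, by omega⟩, rfl⟩
  · rintro ⟨j, ⟨h1, h2⟩, rfl⟩
    exact ⟨⟨j, h1, rfl⟩, by omega⟩

theorem card_img_inter (T : Finset ℕ) (t u : ℕ) : (((T.image (· + t) ∩ range (t + u)).card : ℕ) : ℤ) = pos T u := by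
  rw [img_inter, card_img]
  rfl

theorem fut_sh (η : Env) {t N : ℕ} (ht : t ≤ N) (z : ℤ) {T : Finset ℕ} (hT : T ⊆ range (N - t)) :
    fut μ s η t N z (T.image (· + t)) = pth μ s (sh ((t : ℤ), z) η) (N - t) T := by
  unfold fut pth
  rw [card_img, pos_card hT, prod_Ico_eq_prod_range]
  congr 1
  · congr 1
    push_cast [Nat.cast_sub ht]
    ring
  · refine prod_congr rfl fun i _ => ?_
    rw [show t + i + 1 = t + (i + 1) by omega, card_img_inter]
    unfold sh
    congr 2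
    refine Prod.ext ?_ ?_
    · simp only [Prod.fst_add]
      push_cast
      ring
    · simp only [Prod.snd_add]
      ring

theorem sum_img {t N : ℕ} (F : Finset ℕ → ℝ) :
    ∑ T ∈ (Ico t N).powerset, F T = ∑ T ∈ (range (N - t)).powerset, F (T.image (· + t)) := by
  symm
  refine sum_bij (fun T _ => T.image (· + t)) (fun T hT => ?_) (fun T _ T' _ h => ?_) (fun T hT => ?_) (fun _ _ => rfl)
  · rw [mem_powerset] at hT ⊢
    exact img_sub hT
  · exact image_injective (add_left_injective t) h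
  · rw [mem_powerset] at hT
    refine ⟨pce t N T, mem_powerset.2 (pce_sub T), ?_⟩
    rw [img_pce, inter_eq_left.2 hT]

theorem FS_sh (η : Env) {N c K t k : ℕ} (ht : t + k = c + K) (hc : c < t) (hN : c + K ≤ N) {z : ℤ} (hz : 0 ≤ z) (hzt : z ≤ t)
    (E : ℤ → Finset ℕ → ℝ) : FS μ s η N (c + K) (slb c K) E t k z =
      ∑ T ∈ (range (N - t)).powerset, pth μ s (sh ((t : ℤ), z) η) (N - t) T *
        E (z + pos T k) (T.image (· + t) \ range (c + K)) := by
  unfold FS
  rw [sum_img]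
  refine sum_congr rfl fun T hT => ?_
  rw [mem_powerset] at hT
  have e1 : inF t k (slb c K) z (T.image (· + t)) = 1 := by
    unfold inF
    refine if_pos fun i hi => ?_
    rw [show t + i + 1 = t + (i + 1) by omega, card_img_inter, mem_slb]
    have h1 := pos_nonneg T (i + 1)
    have h2 := pos_le T (i + 1)
    simp only
    push_cast at h2 ⊢
    omega
  rw [e1, one_mul, fut_sh η (by omega) z hT, ← ht, card_img_inter]

/-! ### The condition of the family -/

theorem bF_Fr {c1 N : ℕ} (hc : c1 ≤ N) {z : ℤ} (h0 : 0 ≤ z) (hz : z ≤ c1) {T : Finset ℕ} (hT : T ⊆ Ico c1 N) :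
    bF c1 (Fr N) z T = 1 := by
  obtain ⟨m, rfl⟩ : ∃ m : ℕ, z = m := ⟨z.toNat, by omega⟩
  have hm : m ≤ c1 := by exact_mod_cast hz
  unfold bF
  refine if_pos ⟨range m ∪ T, ?_, ?_, ?_⟩
  · rw [mem_powerset]
    refine union_subset (range_subset_range.2 (hm.trans hc)) (hT.trans fun i hi => ?_)
    rw [mem_Ico] at hi
    exact mem_range.2 hi.2
  · unfold pos
    have e : (range m ∪ T) ∩ range c1 = range m := by
      ext i
      simp only [mem_inter, mem_union, mem_range]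
      constructor
      · rintro ⟨h1 | h1, h2⟩
        · exact h1
        · have := mem_Ico.1 (hT h1)
          omega
      · intro h1
        exact ⟨Or.inl h1, by omega⟩
    rw [e, card_range]
  · ext i
    simp only [Finset.mem_sdiff, mem_union, mem_range]
    constructor
    · rintro ⟨h1 | h1, h2⟩
      · omega
      · exact h1
    · intro h1
      have := mem_Ico.1 (hT h1)
      exact ⟨Or.inr h1, by omega⟩

theorem card_split (S : Finset ℕ) (c1 : ℕ) : (S.card : ℤ) = pos S c1 + ((S \ range c1).card : ℤ) := by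
  unfold pos
  rw [← Nat.cast_add, add_comm, card_sdiff_add_card_inter]

theorem bF_Pn {c1 N y : ℕ} (hc : c1 ≤ N) {z : ℤ} (h0 : 0 ≤ z) (hz : z ≤ c1) {T : Finset ℕ} (hT : T ⊆ Ico c1 N) :
    bF c1 (Pn N y) z T = if z + (T.card : ℤ) = y then 1 else 0 := by
  obtain ⟨m, rfl⟩ : ∃ m : ℕ, z = m := ⟨z.toNat, by omega⟩
  have hm : m ≤ c1 := by exact_mod_cast hz
  have hd : Disjoint (range m) T := by
    rw [disjoint_left]
    intro i h1 h2
    have := mem_Ico.1 (hT h2)
    rw [mem_range] at h1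
    omega
  unfold bF
  refine if_congr ⟨?_, fun h => ?_⟩ rfl rfl
  · rintro ⟨S, hS, h1, h2⟩
    obtain ⟨_, h4⟩ := mem_powersetCard.1 hS
    have h5 := card_split S c1
    rw [h1, h2, h4] at h5
    exact h5.symm
  · refine ⟨range m ∪ T, ?_, ?_, ?_⟩
    · rw [mem_powersetCard]
      refine ⟨union_subset (range_subset_range.2 (hm.trans hc)) (hT.trans fun i hi => ?_), ?_⟩
      · rw [mem_Ico] at hi
        exact mem_range.2 hi.2
      · rw [card_union_of_disjoint hd, card_range]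
        exact_mod_cast h
    · unfold pos
      have e : (range m ∪ T) ∩ range c1 = range m := by
        ext i
        simp only [mem_inter, mem_union, mem_range]
        constructor
        · rintro ⟨h1 | h1, h2⟩
          · exact h1
          · have := mem_Ico.1 (hT h1)
            omega
        · intro h1
          exact ⟨Or.inl h1, by omega⟩
      rw [e, card_range]
    · ext i
      simp only [Finset.mem_sdiff, mem_union, mem_range]
      constructor
      · rintro ⟨h1 | h1, h2⟩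
        · omega
        · exact h1
      · intro h1
        have := mem_Ico.1 (hT h1)
        exact ⟨Or.inr h1, by omega⟩

/-! ### The mass of the far futures -/

section Far

variable {η : Env} {N c K t k : ℕ} {z : ℤ} {ε e : ℝ} {a : ℤ → ℝ}

theorem sdiff_Ico {T : Finset ℕ} (hT : T ⊆ range (N - t)) (c1 : ℕ) : T.image (· + t) \ range c1 ⊆ Ico c1 N := by
  intro i hi
  obtain ⟨h1, h2⟩ := Finset.mem_sdiff.1 hi
  have h3 := mem_Ico.1 (img_sub (c := t) (d := N) hT h1)
  rw [mem_range] at h2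
  rw [mem_Ico]
  omega

open Classical in
/-- The far futures, free end. -/
theorem far_Fr (ht : t + k = c + K) (hc : c < t) (hN : c + K ≤ N) (hz : 0 ≤ z) (hzt : z ≤ t)
    (hQ : Qf μ s (sh ((t : ℤ), z) η) (N - t) ε ≤ e)
    (ha : ∀ T, T ⊆ range (N - t) → a (z + pos T k) ≤ if NSp μ s (N - t) (N - t) ε T then 0 else 1) :
    FS μ s η N (c + K) (slb c K) (fun x T => a x * bF (c + K) (Fr N) x T) t k z ≤
      e * FS μ s η N (c + K) (slb c K) (bF (c + K) (Fr N)) t k z := by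
  rw [FS_sh η ht hc hN hz hzt, FS_sh η ht hc hN hz hzt]
  set ζ := sh ((t : ℤ), z) η with hζ
  have hb : ∀ T, T ⊆ range (N - t) → bF (c + K) (Fr N) (z + pos T k) (T.image (· + t) \ range (c + K)) = 1 := fun T hT => by
    have h1 := pos_nonneg T k
    have h2 := pos_le T k
    refine bF_Fr hN (by omega) ?_ (sdiff_Ico hT _)
    push_cast
    omega
  have hV : 0 < Real.exp (V μ s ζ 0 (N - t)) := Real.exp_pos _
  have e1 : ∑ T ∈ (range (N - t)).powerset, pth μ s ζ (N - t) T *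
      bF (c + K) (Fr N) (z + pos T k) (T.image (· + t) \ range (c + K)) = Real.exp (V μ s ζ 0 (N - t)) := by
    have h1 := GS_sum (μ := μ) (s := s) ζ (N - t)
    unfold GS at h1
    rw [← sum_div, div_eq_one_iff_eq hV.ne'] at h1
    rw [← h1]
    refine sum_congr rfl fun T hT => ?_
    rw [hb T (mem_powerset.1 hT), mul_one]
  rw [e1]
  refine le_trans ?_ (mul_le_mul_of_nonneg_right hQ hV.le)
  unfold Qf
  rw [sum_mul]
  refine sum_le_sum fun T hT => ?_
  rw [hb T (mem_powerset.1 hT), mul_one]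
  refine (mul_le_mul_of_nonneg_left (ha T (mem_powerset.1 hT)) (pth_nonneg _ _ _)).trans (le_of_eq ?_)
  unfold GS
  field_simp

open Classical in
/-- The far futures, pinned end. -/
theorem far_Pn {y : ℕ} (ht : t + k = c + K) (hc : c < t) (hN : c + K ≤ N) (hz : 0 ≤ z) (hzt : z ≤ t)
    (hy0 : z ≤ y) (hy : (y : ℤ) - z ≤ ((N - t : ℕ) : ℤ))
    (hQ : Qp μ s (sh ((t : ℤ), z) η) (N - t) ε ((y : ℤ) - z) ≤ e)
    (ha : ∀ T, T ⊆ range (N - t) → a (z + pos T k) ≤ if NSp μ s (N - t) (N - t) ε T then 0 else 1) :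
    FS μ s η N (c + K) (slb c K) (fun x T => a x * bF (c + K) (Pn N y) x T) t k z ≤
      e * FS μ s η N (c + K) (slb c K) (bF (c + K) (Pn N y)) t k z := by
  rw [FS_sh η ht hc hN hz hzt, FS_sh η ht hc hN hz hzt]
  set ζ := sh ((t : ℤ), z) η with hζ
  have hb : ∀ T, T ⊆ range (N - t) → bF (c + K) (Pn N y) (z + pos T k) (T.image (· + t) \ range (c + K)) =
      if pos T (N - t) = (y : ℤ) - z then 1 else 0 := fun T hT => by
    have h1 := pos_nonneg T k
    have h2 := pos_le T k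
    rw [bF_Pn hN (by omega) (by push_cast; omega) (sdiff_Ico hT _), ← ht, img_sdiff, card_img, pos_card hT]
    have h3 := card_split T k
    refine if_congr ⟨fun h => ?_, fun h => ?_⟩ rfl rfl <;> omega
  have hW : 0 < W μ s ζ 0 (N - t) ((y : ℤ) - z) := W_pos _ _ (by omega) hy
  have e1 : ∑ T ∈ (range (N - t)).powerset, pth μ s ζ (N - t) T *
      bF (c + K) (Pn N y) (z + pos T k) (T.image (· + t) \ range (c + K)) = W μ s ζ 0 (N - t) ((y : ℤ) - z) := by
    rw [← Mt_one]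
    unfold Mt
    refine sum_congr rfl fun T hT => ?_
    rw [hb T (mem_powerset.1 hT)]
    split_ifs <;> ring
  rw [e1]
  refine le_trans ?_ (mul_le_mul_of_nonneg_right hQ hW.le)
  unfold Qp
  rw [sum_mul]
  refine sum_le_sum fun T hT => ?_
  rw [hb T (mem_powerset.1 hT)]
  unfold gp
  by_cases h : pos T (N - t) = (y : ℤ) - z
  · rw [if_pos h, if_pos h, mul_one]
    refine (mul_le_mul_of_nonneg_left (ha T (mem_powerset.1 hT)) (pth_nonneg _ _ _)).trans (le_of_eq ?_)
    field_simp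
  · rw [if_neg h, if_neg h]
    simp

end Far

/-! ### The near sites -/

/-- The positions behind the slab which are near the straight line from `(c, z)`. -/
def nbL (N K : ℕ) (σ R : ℝ) (z : ℤ) : Finset ℤ := (Icc (0 : ℤ) N).filter fun x => |((x : ℝ) - z - σ * K)| ≤ R

open Classical in
/-- The sites of the slab near one of the lines from the points `b i` of the row `c`. -/
def nearL {k : ℕ} (c K : ℕ) (σ R : ℝ) (b : Fin k → ℤ) : Finset Pt :=
  (slb c K).filter fun p => ∃ i, |(p.2 : ℝ) - b i - σ * ((p.1 : ℝ) - c)| ≤ 2 * R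

theorem card_nearL {k : ℕ} (c K : ℕ) {σ R : ℝ} (hR : 0 ≤ R) (b : Fin k → ℤ) :
    ((nearL c K σ R b).card : ℝ) ≤ k * K * (4 * R + 1) := by
  classical
  have h1 : nearL c K σ R b ⊆ (univ : Finset (Fin k)).biUnion fun i => (Ioc (c : ℤ) (c + K)).biUnion fun m =>
      (((slb c K).filter fun p => p.1 = m ∧ |(p.2 : ℝ) - b i - σ * ((p.1 : ℝ) - c)| ≤ 2 * R)) := fun p hp => by
    obtain ⟨h2, i, h3⟩ := mem_filter.1 hp
    refine mem_biUnion.2 ⟨i, mem_univ _, mem_biUnion.2 ⟨p.1, ?_, mem_filter.2 ⟨h2, rfl, h3⟩⟩⟩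
    exact mem_Ioc.2 (mem_slb.1 h2).1
  have h2 : ∀ (i : Fin k) (m : ℤ), (((slb c K).filter fun p => p.1 = m ∧
      |(p.2 : ℝ) - b i - σ * ((p.1 : ℝ) - c)| ≤ 2 * R).card : ℝ) ≤ 4 * R + 1 := fun i m => by
    set T := (slb c K).filter fun p => p.1 = m ∧ |(p.2 : ℝ) - b i - σ * ((p.1 : ℝ) - c)| ≤ 2 * R with hT
    have h3 : T.card = (T.image Prod.snd).card := by
      refine (card_image_of_injOn fun p hp q hq h => ?_).symm
      have hp' := (mem_filter.1 (mem_coe.1 hp)).2.1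
      have hq' := (mem_filter.1 (mem_coe.1 hq)).2.1
      exact Prod.ext (hp'.trans hq'.symm) h
    rw [h3]
    refine (card_ball (x := b i + σ * ((m : ℝ) - c)) (r := 2 * R) (by linarith) _ fun z hz => ?_).trans (by linarith)
    obtain ⟨p, hp, rfl⟩ := mem_image.1 hz
    obtain ⟨_, h4, h5⟩ := mem_filter.1 hp
    rw [← h4]
    have e : (p.2 : ℝ) - (b i + σ * ((p.1 : ℝ) - c)) = (p.2 : ℝ) - b i - σ * ((p.1 : ℝ) - c) := by ring
    rw [e]
    exact h5
  have h3 : ((nearL c K σ R b).card : ℝ) ≤ ∑ i : Fin k, ∑ m ∈ Ioc (c : ℤ) (c + K), (4 * R + 1) := by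
    refine (Nat.cast_le.2 ((card_le_card h1).trans card_biUnion_le)).trans ?_
    rw [Nat.cast_sum]
    refine sum_le_sum fun i _ => ?_
    refine (Nat.cast_le.2 card_biUnion_le).trans ?_
    rw [Nat.cast_sum]
    exact sum_le_sum fun m _ => h2 i m
  refine h3.trans (le_of_eq ?_)
  rw [sum_const, sum_const, card_univ, Fintype.card_fin, Int.card_Ioc, nsmul_eq_mul, nsmul_eq_mul]
  have : ((c : ℤ) + K - c).toNat = K := by omega
  rw [this]
  ring

/-- Off the near sites every position of the neighbourhoods is far. -/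
theorem far_of_not_nearL {k : ℕ} {N c K : ℕ} {σ R : ℝ} {b : Fin k → ℤ} {p : Pt} (hp : p ∈ slb c K) (hn : p ∉ nearL c K σ R b)
    {x : ℤ} (hx : x ∈ (H43.bx b).biUnion (nbL N K σ R)) : R < |((x : ℝ) - p.2 - σ * ((c : ℝ) + K - p.1))| := by
  classical
  by_contra hc
  push Not at hc
  refine hn (mem_filter.2 ⟨hp, ?_⟩)
  obtain ⟨y, hy, hx'⟩ := mem_biUnion.1 hx
  obtain ⟨i, _, rfl⟩ := mem_image.1 hy
  have h1 := (mem_filter.1 hx').2
  refine ⟨i, ?_⟩
  have e : (p.2 : ℝ) - b i - σ * ((p.1 : ℝ) - c) =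
      ((x : ℝ) - b i - σ * K) - ((x : ℝ) - p.2 - σ * ((c : ℝ) + K - p.1)) := by ring
  rw [e]
  exact (abs_sub _ _).trans (by linarith)

/-! ### The local tilt -/

section Local

variable {c K N : ℕ} {P : Finset (Finset ℕ)} {σ R M : ℝ} {U : Env → ℤ → Finset ℕ → ℝ}

/-- The local tilt of a set `B` of positions: `U + M` on `B`. -/
def AbL (U : Env → ℤ → Finset ℕ → ℝ) (M : ℝ) (B : Finset ℤ) (η : Env) (z : ℤ) (T : Finset ℕ) : ℝ :=
  if z ∈ B then U η z T + M else 0

theorem AbL_FA {c1 : ℕ} (hM : 0 ≤ M) (hU : FA c1 M U) (B : Finset ℤ) : FA c1 (2 * M) (AbL U M B) where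
  bd η z T := by
    unfold AbL
    have h1 := abs_le.1 (hU.bd η z T)
    split_ifs
    · rw [abs_le]
      constructor <;> linarith
    · rw [abs_zero]
      linarith
  bl η u x hu := by
    funext z T
    unfold AbL
    rw [hU.bl η u x hu]
  ms z T := by
    unfold AbL
    split_ifs
    · exact (hU.ms z T).add_const M
    · exact measurable_const

theorem tF_AbL (B : Finset ℤ) (η : Env) (S : Px P) :
    tF (c + K) (AbL U M B) η S = if ps S (c + K) ∈ B then tF (c + K) U η S + M else 0 := rfl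

/-- The mass of the futures of the site `(t, z)` which are far from the straight line at the row `c + K`. -/
def FarL (μ : Measure ℝ) (s : ℝ) (η : Env) (N c K : ℕ) (P : Finset (Finset ℕ)) (σ R : ℝ) (t j : ℕ) (z : ℤ) : ℝ :=
  FS μ s η N (c + K) (slb c K) (fun x T => (if |((x : ℝ) - z - σ * j)| ≤ R then 0 else 1) * bF (c + K) P x T) t j z

theorem FS_mono (η : Env) {c1 : ℕ} {Q : Finset Pt} {E E' : ℤ → Finset ℕ → ℝ} (h : ∀ x T, E x T ≤ E' x T) (t j : ℕ) (z : ℤ) :
    FS μ s η N c1 Q E t j z ≤ FS μ s η N c1 Q E' t j z :=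
  sum_le_sum fun _ _ => mul_le_mul_of_nonneg_left (mul_le_mul_of_nonneg_left (h _ _) (inF_nonneg _ _ _ _ _))
    (fut_nonneg _ _ _ _ _)

theorem FS_nonneg (η : Env) {c1 : ℕ} {Q : Finset Pt} {E : ℤ → Finset ℕ → ℝ} (h : ∀ x T, 0 ≤ E x T) (t j : ℕ) (z : ℤ) :
    0 ≤ FS μ s η N c1 Q E t j z :=
  sum_nonneg fun _ _ => mul_nonneg (fut_nonneg _ _ _ _ _) (mul_nonneg (inF_nonneg _ _ _ _ _) (h _ _))

/-- The field of a local tilt is small at the sites which are not near. -/
theorem fP_small {k : ℕ} (hM : 0 ≤ M) (hN : c + K ≤ N) (hU : FA (c + K) M U) {η : Env} {Cn : Finset Pt} (hCn : Cn ⊆ slb c K)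
    {δ0 : ℝ} (hδ0 : 0 ≤ δ0)
    (hg1 : ∀ t j : ℕ, t + j = c + K → c < t → ∀ z : ℤ, ((t : ℤ), z) ∈ Cn →
      FarL μ s η N c K P σ R t j z ≤ δ0 * FS μ s η N (c + K) (slb c K) (bF (c + K) P) t j z) (b : Fin k → ℤ) (p : Pt)
    (hp : p ∈ Cn) (hn : p ∉ nearL c K σ R b) :
    |fP μ s N c K P (slb c K) (AbL U M ((H43.bx b).biUnion (nbL N K σ R))) p η| ≤ Real.exp (4 * M) * δ0 := by
  have hps := hCn hp
  obtain ⟨⟨h1, h2⟩, _, _⟩ := mem_slb.1 hps
  obtain ⟨t, ht⟩ : ∃ t : ℕ, p.1 = (t : ℤ) := ⟨p.1.toNat, by omega⟩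
  obtain ⟨j, hj⟩ : ∃ j : ℕ, t + j = c + K := ⟨c + K - t, by omega⟩
  have hct : c < t := by omega
  have ep : p = ((t : ℤ), p.2) := Prod.ext ht rfl
  have hpC : ((t : ℤ), p.2) ∈ Cn := by rw [← ep]; exact hp
  have hpQ : ((t : ℤ), p.2) ∈ slb c K := hCn hpC
  set B := (H43.bx b).biUnion (nbL N K σ R) with hB
  have key := fH_tail (μ := μ) (s := s) (K := K) (Q := slb c K) (b0 := bF (c + K) P) hN (by linarith : 0 ≤ 2 * M)
    (AbL_FA hM hU B) (bF_nonneg _ _) hj (by omega) hpQ η (a := fun x _ => if x ∈ B then 1 else 0)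
    (fun x T => by split_ifs <;> norm_num) (fun x T hS => by
      by_contra hc
      have : x ∉ B := fun h => hc (by simp [h])
      exact hS (by unfold AbL; rw [if_neg this]))
  rw [← ep] at key
  refine key.trans ?_
  rw [show 2 * (2 * M) = 4 * M by ring]
  refine mul_le_mul_of_nonneg_left ?_ (Real.exp_pos _).le
  have h0 : 0 ≤ FS μ s η N (c + K) (slb c K) (bF (c + K) P) t j p.2 := FS_nonneg η (bF_nonneg _ _) _ _ _
  refine (div_le_of_le_mul₀ h0 hδ0 ?_)
  refine le_trans ?_ (hg1 t j hj hct p.2 hpC)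
  unfold FarL
  refine FS_mono η (fun x T => ?_) _ _ _
  refine mul_le_mul_of_nonneg_right ?_ (bF_nonneg _ _ _ _)
  by_cases hx : x ∈ B
  · have h3 := far_of_not_nearL hps hn hx
    have e3 : (c : ℝ) + K - p.1 = (j : ℝ) := by
      rw [ht]
      have : ((t : ℝ)) + j = c + K := by exact_mod_cast hj
      push_cast
      linarith
    rw [e3] at h3
    rw [if_pos hx, if_neg (not_le.2 h3)]
  · rw [if_neg hx]
    split_ifs <;> norm_num

end Local

/-! ### The theorem, one size -/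

section MainL

variable {c K N : ℕ} {P : Finset (Finset ℕ)} {σ R M : ℝ} {U : Env → ℤ → Finset ℕ → ℝ}

open Classical in
/-- **E0, THE MIRROR IMAGE, in the frame of Mod92.** -/
theorem e0_modL [IsProbabilityMeasure μ] [Nonempty (Px P)] (hP : Fam N (c + K) P) (hK0 : 0 < K) (hN : c + K ≤ N)
    (hM : 0 ≤ M) (hU : FA (c + K) M U) (hR : 0 ≤ R) {p C θ0 : ℝ} (hp : 1 ≤ p) (hC : 0 ≤ C) (hQ : QI μ p C θ0)
    (hθ : 2 * M / K ≤ θ0) {Cn : Finset Pt} (hCn : Cn ⊆ slb c K) {δ0 ε : ℝ} (hδ0 : 0 ≤ δ0) (hε0 : 0 ≤ ε) (hε1 : ε < 1)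
    {Ω : Set Env} (hΩ : MeasurableSet Ω)
    (hg1 : ∀ η ∈ Ω, ∀ t j : ℕ, t + j = c + K → c < t → ∀ z : ℤ, ((t : ℤ), z) ∈ Cn →
      FarL μ s η N c K P σ R t j z ≤ δ0 * FS μ s η N (c + K) (slb c K) (bF (c + K) P) t j z)
    (hg2 : ∀ η ∈ Ω, gm (lw μ s η N P) (fun S => if Out7 c K Cn S.1 then 1 else 0) ≤ ε)
    (hg3 : ∀ η ∈ Ω, gm (lw μ s η N P) (fun S => if ps S (c + K) ∈ nbL N K σ R (ps S c) then 0 else 1) ≤ ε)
    {k : ℕ} {Λ : ℝ} {Ψ Ψ' : Env → (Fin k → Px P) → ℝ} (h0 : ∀ η x, 0 ≤ Ψ η x) (hΛ : ∀ η x, Ψ η x ≤ Λ)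
    (h0' : ∀ η x, 0 ≤ Ψ' η x) (hΛ' : ∀ η x, Ψ' η x ≤ Λ) (hm : ∀ x, Measurable fun η => Ψ' η x)
    (hΨ : ∀ η, ∀ x x' : Fin k → Px P, (∀ i, (x i).1 ∩ range c = (x' i).1 ∩ range c) → Ψ η x = Ψ η x')
    (hpas : ∀ η ∈ Ω, ∀ ζ : Env, (∀ q, q ∉ slb c K → ζ q = η q) → (∀ q, |ζ q - η q| ≤ 2 * M / K) → ∀ x, Ψ η x ≤ Ψ' ζ x) :
    ∫⁻ η, ENNReal.ofReal (rep k (fun S => lw μ s η N P S + tF (c + K) U η S) (Ψ η)) ∂(law μ) ≤
      ENNReal.ofReal (Real.exp (C * (k * K * (4 * R + 1) * (2 * M / K) ^ 2 + (slb c K).card * (Real.exp (4 * M) * δ0) ^ 2))) *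
        ((((N + 1 : ℕ) : ℝ≥0∞) ^ k) ^ (1 - 1 / p) *
          (∫⁻ η, ENNReal.ofReal (rep k (lw μ s η N P) (Ψ' η)) ^ p ∂(law μ)) ^ (1 / p)) +
      ENNReal.ofReal ((N + 1 : ℝ) ^ k * (4 * k * Real.exp (4 * M) * ε * Λ) + Λ * k * (Real.exp (2 * M) * ε)) +
      ENNReal.ofReal Λ * law μ Ωᶜ := by
  set δ : ℝ := Real.exp (4 * M) * δ0 with hδ
  have hδn : 0 ≤ δ := mul_nonneg (Real.exp_pos _).le hδ0
  have h2M : 0 ≤ 2 * M := by linarith
  set Bb : (Fin k → ℤ) → Finset ℤ := fun b => (H43.bx b).biUnion (nbL N K σ R) with hBb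
  have hPA : ∀ b, FA (c + K) (2 * M) (AbL U M (Bb b)) := fun b => AbL_FA hM hU _
  set φ : (Fin k → ℤ) → Pt → Env → ℝ := fun b =>
    swS (fP μ s N c K P (slb c K) (AbL U M (Bb b))) Cn (nearL c K σ R b) δ with hφ
  have hfb : ∀ b (q : Pt) (η : Env), |fP μ s N c K P (slb c K) (AbL U M (Bb b)) q η| ≤ 2 * M / K := fun b q η =>
    fP_bd h2M (hPA b) q η
  have hΛ0 : ∀ η : Env, 0 ≤ Λ := fun η => (h0 η fun _ => Classical.arbitrary _).trans (hΛ η _)
  have hΛn : 0 ≤ Λ := hΛ0 fun _ => 0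
  refine e0_core7 (u := fun η S => tF (c + K) U η S) (M := M) (fun η S => hU.bd η _ _) (fun S => ps S (c + K))
    (fun S => ps S c) (fun S => ?_) (nbL N K σ R) hp hC hQ (Qs := slb c K) (fun q => -q.1)
    (C0 := 4 * k * Real.exp (4 * M) * ε * Λ) φ (fun b q _ => ?_) (fun b => ?_) (fun b q _ η => ?_) (fun b η => ?_) hΩ hg3
    h0 hΛ h0' hm (by positivity) (fun η hη b => ?_)
  · rw [mem_Icc]
    refine ⟨ps_nonneg S _, (ps_le S _).trans ?_⟩
    exact_mod_cast (by omega : c ≤ N)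
  · exact swS_meas (fP_meas (hPA b) q)
  · exact swS_pred (fP_pred (rws_slb c K) (hPA b))
  · exact ((swS_le q η).trans (hfb b q η)).trans hθ
  · refine (swS_sq (fun q _ η => hfb b q η) hδn η).trans ?_
    exact add_le_add (mul_le_mul_of_nonneg_right (card_nearL c K hR b) (sq_nonneg _)) le_rfl
  · rw [show 4 * M = 2 * (2 * M) by ring]
    have hsm := fP_small (μ := μ) (s := s) (P := P) hM hN hU hCn hδ0 (hg1 η hη) b
    refine sw_step (φ := fP μ s N c K P (slb c K) (AbL U M (Bb b))) (Cn := Cn) (Nb := nearL c K σ R b) (δ := δ)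
      (p := fun S : Px P => S.1 ∩ range c) (fun S => ?_) (fun g => ?_) h2M (fun q _ => hfb b q η)
      (fun q hq hn => hsm q hq hn) (fun x x' hx => ?_) (fun x => ?_) (fun x => ?_) (fun x => ?_) (hg2 η hη) hε1
    · rw [add_sub_cancel_left]
      have h1 := abs_le.1 (hU.bd η (ps S (c + K)) (S.1 \ range (c + K)))
      have e2 : tF (c + K) U η S = U η (ps S (c + K)) (S.1 \ range (c + K)) := rfl
      split_ifs
      · rw [e2, abs_le]
        constructor <;> linarith
      · rw [abs_zero]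
        exact h2M
    · have e1 := transL_lw_slb (μ := μ) (s := s) hP hK0 hN (hPA b) η g
      rw [e1]
      refine sum_congr rfl fun S _ => ?_
      rw [tF_AbL]
    · have hb : (fun i => ps (x i) c) = fun i => ps (x' i) c := funext fun i => by
        unfold ps
        rw [← pos_inter (x i).1 le_rfl, ← pos_inter (x' i).1 le_rfl, hx i]
      rw [hb, hΨ η x x' hx]
    · by_cases hb : (fun i => ps (x i) c) = b
      · simp only [hb, if_true]
        refine hpas η hη _ (fun q hq => Sh_out _ _ hq) (fun q => ?_) x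
        by_cases hq : q ∈ slb c K
        · rw [Sh_in _ _ hq, add_sub_cancel_left]
          exact (swS_le q η).trans (hfb b q η)
        · rw [Sh_out _ _ hq, sub_self, abs_zero]
          positivity
      · simp only [hb, if_false, le_refl]
    · by_cases hb : (fun i => ps (x i) c) = b
      · simp only [hb, if_true]
        rw [abs_of_nonneg (h0 η x)]
        exact hΛ η x
      · simp only [hb, if_false, abs_zero]
        exact hΛn
    · by_cases hb : (fun i => ps (x i) c) = b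
      · simp only [hb, if_true]
        rw [abs_of_nonneg (h0' _ x)]
        exact hΛ' _ x
      · simp only [hb, if_false, abs_zero]
        exact hΛn

end MainL

end

end Pool.W7d29a1.C0.H27
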