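import Mathlib

/-!
MP_7d29a1_pr, [CURV0], leaf E7b: the total variation distance of a kicked measure (exact weights) and of its clipped version (weight `1`
at the steep ends), deterministic part. The steep ends cost nothing more than `exp (4 u)`, `u` = size of the kicks in a SMALLER cone,
times their masses under the laws with no, one or two exact kicks. (helper48)
-/

set_option autoImplicit false

namespace Pool.Agent.W_7d29a1_C0.Tv48

open Finset

variable {X : Type*} [Fintype X]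

/-- The total variation distance (twice) of the laws with the weights `f`, `g`. -/
noncomputable def tv (f g : X → ℝ) : ℝ := ∑ x, |f x / (∑ y, f y) - g x / (∑ y, g y)|

open Classical in
/-- The mass of the set `st` under the law with the weights `A Λ`. -/
noncomputable def mf (A Λ : X → ℝ) (st : X → Prop) : ℝ := (∑ x, if st x then A x * Λ x else 0) / ∑ x, A x * Λ x

theorem tv_nonneg (f g : X → ℝ) : 0 ≤ tv f g := sum_nonneg fun _ _ => abs_nonneg _

theorem tv_symm (f g : X → ℝ) : tv f g = tv g f := sum_congr rfl fun _ _ => abs_sub_comm _ _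

theorem tv_le_two {f g : X → ℝ} (hf : ∀ x, 0 ≤ f x) (hg : ∀ x, 0 ≤ g x) : tv f g ≤ 2 := by
  have key : ∀ h : X → ℝ, (∀ x, 0 ≤ h x) → ∑ x, |h x / ∑ y, h y| ≤ 1 := by
    intro h hh
    have h0 : 0 ≤ ∑ y, h y := sum_nonneg fun x _ => hh x
    have h1 : ∀ x, |h x / ∑ y, h y| = h x / ∑ y, h y := fun x => abs_of_nonneg (div_nonneg (hh x) h0)
    simp only [h1]
    rw [← sum_div]
    exact div_self_le_one _
  have h1 := key f hf
  have h2 := key g hg
  calc tv f g ≤ ∑ x, (|f x / ∑ y, f y| + |g x / ∑ y, g y|) := sum_le_sum fun x _ => abs_sub _ _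
    _ = ∑ x, |f x / ∑ y, f y| + ∑ x, |g x / ∑ y, g y| := sum_add_distrib
    _ ≤ 2 := by linarith

/-- The basic bound. -/
theorem tv_le {f g : X → ℝ} (hf : ∀ x, 0 ≤ f x) (hF : 0 < ∑ x, f x) (hG : 0 < ∑ x, g x) :
    tv f g ≤ 2 * (∑ x, |f x - g x|) / ∑ x, g x := by
  obtain ⟨F, hF'⟩ : ∃ F : ℝ, F = ∑ x, f x := ⟨_, rfl⟩
  obtain ⟨G, hG'⟩ : ∃ G : ℝ, G = ∑ x, g x := ⟨_, rfl⟩
  unfold tv
  rw [← hF', ← hG']
  rw [← hF'] at hF
  rw [← hG'] at hG
  have h1 : ∀ x, |f x / F - g x / G| ≤ |f x - g x| / G + f x * (|G - F| / (F * G)) := by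
    intro x
    have e1 : f x / F - g x / G = (f x - g x) / G + f x * ((G - F) / (F * G)) := by
      field_simp
      ring
    rw [e1]
    refine (abs_add_le _ _).trans (le_of_eq ?_)
    rw [abs_div, abs_mul, abs_div, abs_of_pos hG, abs_of_nonneg (hf x), abs_of_pos (mul_pos hF hG)]
  have h2 : |G - F| ≤ ∑ x, |f x - g x| := by
    rw [hF', hG', ← sum_sub_distrib]
    refine (abs_sum_le_sum_abs _ _).trans (le_of_eq ?_)
    exact sum_congr rfl fun x _ => abs_sub_comm _ _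
  calc ∑ x, |f x / F - g x / G| ≤ ∑ x, (|f x - g x| / G + f x * (|G - F| / (F * G))) := sum_le_sum fun x _ => h1 x
    _ = (∑ x, |f x - g x|) / G + F * (|G - F| / (F * G)) := by rw [sum_add_distrib, ← sum_div, ← sum_mul, ← hF']
    _ = (∑ x, |f x - g x|) / G + |G - F| / G := by
        congr 1
        field_simp
    _ ≤ (∑ x, |f x - g x|) / G + (∑ x, |f x - g x|) / G := by
        gcongr
    _ = 2 * (∑ x, |f x - g x|) / G := by ring

theorem mf_nonneg {A Λ : X → ℝ} (hA : ∀ x, 0 ≤ A x) (hΛ : ∀ x, 0 ≤ Λ x) (st : X → Prop) : 0 ≤ mf A Λ st := by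
  unfold mf
  refine div_nonneg (sum_nonneg fun x _ => ?_) (sum_nonneg fun x _ => mul_nonneg (hA x) (hΛ x))
  split_ifs
  · exact mul_nonneg (hA x) (hΛ x)
  · exact le_rfl

theorem mf_le_one {A Λ : X → ℝ} (hA : ∀ x, 0 ≤ A x) (hΛ : ∀ x, 0 ≤ Λ x) (st : X → Prop) : mf A Λ st ≤ 1 := by
  unfold mf
  have h0 : 0 ≤ ∑ x, A x * Λ x := sum_nonneg fun x _ => mul_nonneg (hA x) (hΛ x)
  refine div_le_one_of_le₀ (sum_le_sum fun x _ => ?_) h0
  split_ifs
  · exact le_rfl
  · exact mul_nonneg (hA x) (hΛ x)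

open Classical in
theorem mf_mul {A Λ : X → ℝ} (hA : ∀ x, 0 ≤ A x) (hΛ : ∀ x, 0 ≤ Λ x) (st : X → Prop) :
    (∑ x, if st x then A x * Λ x else 0) = mf A Λ st * ∑ x, A x * Λ x := by
  have h0 : 0 ≤ ∑ x, A x * Λ x := sum_nonneg fun x _ => mul_nonneg (hA x) (hΛ x)
  unfold mf
  rcases h0.eq_or_lt with h | h
  · rw [← h, mul_zero]
    refine le_antisymm ?_ (sum_nonneg fun x _ => ?_)
    · refine le_trans (sum_le_sum fun x _ => ?_) h.ge
      split_ifs
      · exact le_rfl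
      · exact mul_nonneg (hA x) (hΛ x)
    · split_ifs
      · exact mul_nonneg (hA x) (hΛ x)
      · exact le_rfl
  · rw [div_mul_cancel₀ _ h.ne']

/-- If the set `s1` has mass at most one half under the law with the weights `A Λ`, and `Λ ≤ b` off `s1`. -/
theorem sum_le_of_mf {A Λ : X → ℝ} (hA : ∀ x, 0 ≤ A x) (hΛ : ∀ x, 0 ≤ Λ x) {s1 : X → Prop} (h : mf A Λ s1 ≤ 1 / 2) {b : ℝ}
    (hb : ∀ x, ¬ s1 x → Λ x ≤ b) (hb0 : 0 ≤ b) : ∑ x, A x * Λ x ≤ 2 * b * ∑ x, A x := by
  classical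
  have h0 : 0 ≤ ∑ x, A x * Λ x := sum_nonneg fun x _ => mul_nonneg (hA x) (hΛ x)
  have h1 := mf_mul hA hΛ s1
  have h2 : (∑ x, if s1 x then A x * Λ x else 0) ≤ 1 / 2 * ∑ x, A x * Λ x := by
    rw [h1]
    exact mul_le_mul_of_nonneg_right h h0
  have h3 : ∑ x, A x * Λ x ≤ (∑ x, if s1 x then A x * Λ x else 0) + ∑ x, A x * b := by
    rw [← sum_add_distrib]
    refine sum_le_sum fun x _ => ?_
    split_ifs with hx
    · have := mul_nonneg (hA x) hb0
      linarith
    · rw [zero_add]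
      exact mul_le_mul_of_nonneg_left (hb x hx) (hA x)
  rw [← sum_mul] at h3
  linarith

theorem le_sum_of_mf {A Λ : X → ℝ} (hA : ∀ x, 0 ≤ A x) (hΛ : ∀ x, 0 ≤ Λ x) {s1 : X → Prop} (h : mf A (fun _ => 1) s1 ≤ 1 / 2) {b : ℝ}
    (hb : ∀ x, ¬ s1 x → b ≤ Λ x) (hb0 : 0 ≤ b) : b / 2 * ∑ x, A x ≤ ∑ x, A x * Λ x := by
  classical
  have h0 : 0 ≤ ∑ x, A x := sum_nonneg fun x _ => hA x
  have h1 := mf_mul hA (fun _ => zero_le_one) s1
  simp only [mul_one] at h1
  have h2 : (∑ x, if s1 x then A x else 0) ≤ 1 / 2 * ∑ x, A x := by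
    rw [h1]
    exact mul_le_mul_of_nonneg_right h h0
  have h3 : b * ∑ x, A x ≤ b * (∑ x, if s1 x then A x else 0) + ∑ x, A x * Λ x := by
    rw [mul_sum, mul_sum, ← sum_add_distrib]
    refine sum_le_sum fun x _ => ?_
    split_ifs with hx
    · have := mul_nonneg (hA x) (hΛ x)
      linarith
    · rw [mul_zero, zero_add, mul_comm]
      exact mul_le_mul_of_nonneg_left (hb x hx) (hA x)
  have h4 := mul_le_mul_of_nonneg_left h2 hb0
  linarith

/-- **Clipping at the steep ends.** `R` = exact kick (`0` where it is impossible), `r'` = clipped kick (`1` on the steep set `st`),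
`ρ` = weight of a base kick, `Q` = an exact weight which bounds it on `st`; in a smaller cone (off `s1`) everything is within `exp (± u)`,
and `s1` has mass at most one half under the four exact laws. -/
theorem tv_clip {A ρ R Q r' : X → ℝ} {st s1 : X → Prop} {u : ℝ} (hA : ∀ x, 0 < A x) (hR : ∀ x, 0 ≤ R x) (hQ : ∀ x, 0 ≤ Q x)
    (hρ : ∀ x, 0 < ρ x) (hr1 : ∀ x, ¬ st x → r' x = R x) (hr2 : ∀ x, st x → r' x = 1) (hρ1 : ∀ x, st x → ρ x ≤ 1 + Q x)
    (h3 : ∀ x, ¬ s1 x → Real.exp (-u) ≤ R x ∧ R x ≤ Real.exp u ∧ Real.exp (-u) ≤ ρ x ∧ Q x ≤ Real.exp u) (hu : 0 ≤ u)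
    (m1 : mf A (fun _ => 1) s1 ≤ 1 / 2) (m2 : mf A R s1 ≤ 1 / 2) (m3 : mf A Q s1 ≤ 1 / 2)
    (m4 : mf A (fun x => Q x * R x) s1 ≤ 1 / 2) :
    tv (fun x => A x * ρ x * r' x) (fun x => A x * ρ x * R x) ≤
      8 * Real.exp (4 * u) * (mf A (fun _ => 1) st + mf A R st + mf A Q st + mf A (fun x => Q x * R x) st) := by
  classical
  have hA' : ∀ x, 0 ≤ A x := fun x => (hA x).le
  have eu1 : 1 ≤ Real.exp u := Real.one_le_exp hu
  have eun : 0 < Real.exp (-u) := Real.exp_pos _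
  have eun1 : Real.exp (-u) ≤ 1 := Real.exp_le_one_iff.2 (by linarith)
  have e2u : Real.exp u * Real.exp u = Real.exp (2 * u) := by rw [← Real.exp_add]; ring_nf
  have e2n : Real.exp (-u) * Real.exp (-u) = Real.exp (-(2 * u)) := by rw [← Real.exp_add]; ring_nf
  have e4u : Real.exp (2 * u) / Real.exp (-(2 * u)) = Real.exp (4 * u) := by rw [← Real.exp_sub]; ring_nf
  have hr'0 : ∀ x, 0 ≤ r' x := by
    intro x
    by_cases hx : st x
    · rw [hr2 x hx]
      exact zero_le_one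
    · rw [hr1 x hx]
      exact hR x
  have hr'1 : ∀ x, ¬ s1 x → Real.exp (-u) ≤ r' x := by
    intro x hx
    by_cases hx' : st x
    · rw [hr2 x hx']
      exact eun1
    · rw [hr1 x hx']
      exact (h3 x hx).1
  obtain ⟨Z, hZ⟩ : ∃ Z : ℝ, Z = ∑ x, A x := ⟨_, rfl⟩
  have hZ0' : 0 ≤ Z := by rw [hZ]; exact sum_nonneg fun x _ => hA' x
  rcases hZ0'.eq_or_lt with hZ0 | hZ0
  · -- no points
    have hE : IsEmpty X := by
      rw [← not_nonempty_iff]
      rintro ⟨x⟩
      have : 0 < ∑ x, A x := sum_pos (fun x _ => hA x) ⟨x, mem_univ x⟩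
      rw [← hZ, ← hZ0] at this
      exact lt_irrefl _ this
    have h0 : tv (fun x => A x * ρ x * r' x) (fun x => A x * ρ x * R x) = 0 := by
      unfold tv
      simp
    rw [h0]
    have hΛ := mf_nonneg hA' (fun _ => zero_le_one) st
    have hΛ2 := mf_nonneg hA' hR st
    have hΛ3 := mf_nonneg hA' hQ st
    have hΛ4 := mf_nonneg hA' (fun x => mul_nonneg (hQ x) (hR x)) st
    exact mul_nonneg (by positivity) (by linarith)
  -- the normaliser
  have hD : Real.exp (-(2 * u)) / 2 * Z ≤ ∑ x, A x * (ρ x * R x) := by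
    rw [hZ]
    refine le_sum_of_mf hA' (fun x => mul_nonneg (hρ x).le (hR x)) m1 (fun x hx => ?_) (Real.exp_pos _).le
    obtain ⟨a1, -, a3, -⟩ := h3 x hx
    rw [← e2n]
    exact mul_le_mul a3 a1 eun.le (hρ x).le
  have hD' : Real.exp (-(2 * u)) / 2 * Z ≤ ∑ x, A x * (ρ x * r' x) := by
    rw [hZ]
    refine le_sum_of_mf hA' (fun x => mul_nonneg (hρ x).le (hr'0 x)) m1 (fun x hx => ?_) (Real.exp_pos _).le
    obtain ⟨-, -, a3, -⟩ := h3 x hx
    rw [← e2n]
    exact mul_le_mul a3 (hr'1 x hx) eun.le (hρ x).le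
  have hZp : 0 < Real.exp (-(2 * u)) / 2 * Z := mul_pos (half_pos (Real.exp_pos _)) hZ0
  have eD : ∑ x, A x * ρ x * R x = ∑ x, A x * (ρ x * R x) := sum_congr rfl fun x _ => by ring
  have eD' : ∑ x, A x * ρ x * r' x = ∑ x, A x * (ρ x * r' x) := sum_congr rfl fun x _ => by ring
  have hb := tv_le (f := fun x => A x * ρ x * r' x) (g := fun x => A x * ρ x * R x)
    (fun x => mul_nonneg (mul_nonneg (hA' x) (hρ x).le) (hr'0 x)) (by rw [eD']; linarith) (by rw [eD]; linarith)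
  -- the numerator
  have hN : ∑ x, |A x * ρ x * r' x - A x * ρ x * R x| ≤
      (mf A (fun _ => 1) st + mf A R st + mf A Q st + mf A (fun x => Q x * R x) st) * (2 * Real.exp (2 * u) * Z) := by
    have n1 : ∀ x, |A x * ρ x * r' x - A x * ρ x * R x| ≤ (if st x then A x * 1 else 0) + (if st x then A x * R x else 0) +
        (if st x then A x * Q x else 0) + (if st x then A x * (Q x * R x) else 0) := by
      intro x
      by_cases hx : st x
      · simp only [if_pos hx]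
        rw [hr2 x hx, show A x * ρ x * 1 - A x * ρ x * R x = A x * ρ x * (1 - R x) by ring, abs_mul,
          abs_of_nonneg (mul_nonneg (hA' x) (hρ x).le)]
        have h5 : |1 - R x| ≤ 1 + R x := by
          rw [abs_le]
          constructor <;> linarith [hR x]
        calc A x * ρ x * |1 - R x| ≤ A x * (1 + Q x) * (1 + R x) :=
              mul_le_mul (mul_le_mul_of_nonneg_left (hρ1 x hx) (hA' x)) h5 (abs_nonneg _)
                (mul_nonneg (hA' x) (by linarith [hQ x]))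
          _ = A x * 1 + A x * R x + A x * Q x + A x * (Q x * R x) := by ring
      · simp only [if_neg hx]
        rw [hr1 x hx, sub_self, abs_zero]
        norm_num
    refine (sum_le_sum fun x _ => n1 x).trans ?_
    rw [sum_add_distrib, sum_add_distrib, sum_add_distrib, mf_mul hA' (fun _ => zero_le_one) st, mf_mul hA' hR st,
      mf_mul hA' hQ st, mf_mul hA' (fun x => mul_nonneg (hQ x) (hR x)) st]
    have e2 : Real.exp u ≤ Real.exp (2 * u) := Real.exp_le_exp.2 (by linarith)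
    have e1' : (1 : ℝ) ≤ Real.exp (2 * u) := Real.one_le_exp (by linarith)
    have a1 : ∑ x, A x * (1 : ℝ) ≤ 2 * Real.exp (2 * u) * Z := by
      rw [hZ]
      exact sum_le_of_mf hA' (fun _ => zero_le_one) m1 (fun _ _ => e1') (Real.exp_pos _).le
    have a2 : ∑ x, A x * R x ≤ 2 * Real.exp (2 * u) * Z := by
      rw [hZ]
      exact sum_le_of_mf hA' hR m2 (fun x hx => (h3 x hx).2.1.trans e2) (Real.exp_pos _).le
    have a3 : ∑ x, A x * Q x ≤ 2 * Real.exp (2 * u) * Z := by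
      rw [hZ]
      exact sum_le_of_mf hA' hQ m3 (fun x hx => (h3 x hx).2.2.2.trans e2) (Real.exp_pos _).le
    have a4 : ∑ x, A x * (Q x * R x) ≤ 2 * Real.exp (2 * u) * Z := by
      rw [hZ]
      refine sum_le_of_mf hA' (fun x => mul_nonneg (hQ x) (hR x)) m4 (fun x hx => ?_) (Real.exp_pos _).le
      obtain ⟨-, b2, -, b4⟩ := h3 x hx
      rw [← e2u]
      exact mul_le_mul b4 b2 (hR x) (Real.exp_pos _).le
    have b1 := mul_le_mul_of_nonneg_left a1 (mf_nonneg hA' (fun _ => zero_le_one) st)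
    have b2 := mul_le_mul_of_nonneg_left a2 (mf_nonneg hA' hR st)
    have b3 := mul_le_mul_of_nonneg_left a3 (mf_nonneg hA' hQ st)
    have b4 := mul_le_mul_of_nonneg_left a4 (mf_nonneg hA' (fun x => mul_nonneg (hQ x) (hR x)) st)
    have e5 : (fun _ : X => (1 : ℝ)) = fun _ => 1 := rfl
    linarith
  obtain ⟨T, hT⟩ : ∃ T : ℝ, T = mf A (fun _ => 1) st + mf A R st + mf A Q st + mf A (fun x => Q x * R x) st := ⟨_, rfl⟩
  have hT0 : 0 ≤ T := by
    rw [hT]
    have hΛ := mf_nonneg hA' (fun _ => zero_le_one) st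
    have hΛ2 := mf_nonneg hA' hR st
    have hΛ3 := mf_nonneg hA' hQ st
    have hΛ4 := mf_nonneg hA' (fun x => mul_nonneg (hQ x) (hR x)) st
    linarith
  rw [← hT] at hN ⊢
  refine hb.trans ?_
  rw [eD, div_le_iff₀ (by linarith)]
  have c1 : 8 * Real.exp (4 * u) * T * (Real.exp (-(2 * u)) / 2 * Z) ≤ 8 * Real.exp (4 * u) * T * ∑ x, A x * (ρ x * R x) :=
    mul_le_mul_of_nonneg_left hD (by positivity)
  refine le_trans ?_ c1
  have c2 : Real.exp (4 * u) * Real.exp (-(2 * u)) = Real.exp (2 * u) := by rw [← Real.exp_add]; ring_nf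
  calc 2 * ∑ x, |A x * ρ x * r' x - A x * ρ x * R x| ≤ 2 * (T * (2 * Real.exp (2 * u) * Z)) := by linarith
    _ = 8 * T * (Real.exp (4 * u) * Real.exp (-(2 * u))) / 2 * Z := by rw [c2]; ring
    _ = 8 * Real.exp (4 * u) * T * (Real.exp (-(2 * u)) / 2 * Z) := by ring

end Pool.Agent.W_7d29a1_C0.Tv48
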