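import Pool.Agent.W_7d29a1_C0.Flip61
import Pool.Agent.W_7d29a1_C0.Loc14
import Pool.Agent.W_7d29a1_C0.Mod92B
import Pool.Agent.W_7d29a1_C0.TvA48

/-!
MP_7d29a1_pr, [CURV0], leaf E7b: the exact kicks (`Rk` of `Flip61`) of one or two windows of a pinned polymer: the mass of the steep
ends under the kicked law is at most twice the mass of the steep paths of the pinned polymer of the sheared environment. (helper48)
-/

set_option autoImplicit false

namespace Pool.Agent.W_7d29a1_C0.Tv48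

open Pool.Agent.W_7d29a1_F hiding W_pos W_nonneg W_add
open Finset MeasureTheory Pool.Agent.W_7d29a1_X Pool.Agent.W_7d29a1_HZ
open Pool.Agent.W_7d29a1_HS (In wd)
open Pool.Agent.W_7d29a1_H (sl)
open Pool.Agent.W_7d29a1_Z74
open Pool.Agent.W_7d29a1_HZ.Z74
open Pool.Agent.W_7d29a1_C0.Flip61 (Rk cn sum_flip pos_split Rk_nonneg)
open Pool.Agent.W_7d29a1_C0.Mod92 (Px Pn ps)
open Pool.Agent.W_7d29a1_C0.Loc14 (Qp Qp_nonneg)

noncomputable section

variable {μ : Measure ℝ} {s : ℝ}

/-- The displacement over the window `[c, c + l]`. -/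
def dw (c l : ℕ) (S : Finset ℕ) : ℤ := pos S (c + l) - pos S c

theorem dw_inter {c l t : ℕ} (h : c + l ≤ t) (S : Finset ℕ) : dw c l (S ∩ range t) = dw c l S := by
  unfold dw
  rw [pos_inter _ h, pos_inter _ (by omega)]

/-- The ratio of the kernels in the environment sheared before the window. -/
theorem Rk_shj (η : Env) {t c : ℕ} (v : ℤ) (h : t ≤ c) (m n : ℕ) (w x z : ℤ) :
    Rk μ s (shj (t : ℤ) v η) c m n w x z = Rk μ s η c m n w (x + v) (z + v) := by
  unfold Rk
  have h1 : z + v - (x + v) = z - x := by ring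
  rw [h1, W_shj_ge s η v ((c : ℤ), x) (m + n) _ (by show (t : ℤ) ≤ (c : ℤ); exact_mod_cast h)]
  congr 1
  unfold ZJ
  refine sum_congr rfl fun y _ => ?_
  rw [W_shj_ge s η v ((c : ℤ), x) m _ (by show (t : ℤ) ≤ (c : ℤ); exact_mod_cast h),
    W_shj_ge s η v (((c : ℤ) + (m : ℤ), x + y + w) : Pt) n _ (by
      show (t : ℤ) ≤ (c : ℤ) + (m : ℤ)
      have : (t : ℤ) ≤ (c : ℤ) := by exact_mod_cast h
      omega)]
  have e1 : x + y + w + v = x + v + y + w := by ring
  simp only [e1]

/-- The indicator of the possible displacements of a window of length `l`. -/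
def okw (l : ℕ) (d : ℤ) : ℝ := if 0 ≤ d ∧ d ≤ (l : ℤ) then 1 else 0

/-- The flip of the first one of two windows, with a weight on the second one. -/
theorem flipA (η : Env) {N ca la ka cb lb : ℕ} (va : ℤ) (hk : ka ≤ la) (hab : ca + la ≤ cb) (hb : cb + lb ≤ N)
    (Gb : ℤ → ℤ → ℝ) (Ψ : ℤ → ℤ → ℤ → ℝ) :
    ∑ S ∈ (range N).powerset, pth μ s η N S * (Rk μ s η ca ka (la - ka) va (pos S ca) (pos S (ca + la)) *
        (Gb (pos S cb) (pos S (cb + lb)) * Ψ (dw ca la S) (dw cb lb S) (pos S N))) =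
      ∑ S ∈ (range N).powerset, pth μ s (shj ((ca + ka : ℕ) : ℤ) va η) N S * (okw la (dw ca la S + va) *
        (Gb (pos S cb + va) (pos S (cb + lb) + va) * Ψ (dw ca la S + va) (dw cb lb S) (pos S N + va))) := by
  obtain ⟨k, rfl⟩ : ∃ k, N = ca + (ka + (la - ka)) + k := ⟨N - (ca + la), by omega⟩
  have el : ka + (la - ka) = la := by omega
  have h := sum_flip (μ := μ) (s := s) η ca ka (la - ka) k va
    (fun A z C => Gb (z + cn C cb) (z + cn C (cb + lb)) *
      Ψ (z - pos A ca) (cn C (cb + lb) - cn C cb) (z + cn C (ca + (ka + (la - ka)) + k)))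
  rw [el] at h ⊢
  have hp : ∀ S : Finset ℕ, ∀ u : ℕ, ca + la ≤ u → pos S (ca + la) + cn (S \ range (ca + la)) u = pos S u :=
    fun S u hu => (pos_split hu).symm
  have hp' : ∀ S : Finset ℕ, ∀ u : ℕ, ca + la ≤ u →
      pos S (ca + la) + va + cn (S \ range (ca + la)) u = pos S u + va := fun S u hu => by
    rw [← hp S u hu]
    ring
  have hd : ∀ S : Finset ℕ, cn (S \ range (ca + la)) (cb + lb) - cn (S \ range (ca + la)) cb = dw cb lb S := fun S => by
    have h1 := hp S cb hab
    have h2 := hp S (cb + lb) (by omega)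
    unfold dw
    linarith
  have hL : ∀ S : Finset ℕ, pos S (ca + la) - pos (S ∩ range ca) ca = dw ca la S := fun S => by
    rw [pos_inter _ le_rfl]
    rfl
  have hL' : ∀ S : Finset ℕ, pos S (ca + la) + va - pos (S ∩ range ca) ca = dw ca la S + va := fun S => by
    rw [pos_inter _ le_rfl]
    unfold dw
    ring
  have hc : ∀ S : Finset ℕ, pos S (ca + la) + va - pos S ca = dw ca la S + va := fun S => by
    unfold dw
    ring
  simp only [hp _ _ hab, hp _ _ (show ca + la ≤ cb + lb by omega), hp _ _ (show ca + la ≤ ca + la + k by omega), hd, hL,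
    hp' _ _ hab, hp' _ _ (show ca + la ≤ cb + lb by omega), hp' _ _ (show ca + la ≤ ca + la + k by omega), hL', hc] at h
  exact h

/-- The flip of the second one of two windows. -/
theorem flipB (η : Env) {N ca la cb lb kb : ℕ} (vb : ℤ) (hk : kb ≤ lb) (hab : ca + la ≤ cb) (hb : cb + lb ≤ N)
    (Ψ : ℤ → ℤ → ℤ → ℝ) :
    ∑ S ∈ (range N).powerset, pth μ s η N S * (Rk μ s η cb kb (lb - kb) vb (pos S cb) (pos S (cb + lb)) *
        Ψ (dw ca la S) (dw cb lb S) (pos S N)) =
      ∑ S ∈ (range N).powerset, pth μ s (shj ((cb + kb : ℕ) : ℤ) vb η) N S * (okw lb (dw cb lb S + vb) *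
        Ψ (dw ca la S) (dw cb lb S + vb) (pos S N + vb)) := by
  obtain ⟨k, rfl⟩ : ∃ k, N = cb + (kb + (lb - kb)) + k := ⟨N - (cb + lb), by omega⟩
  have el : kb + (lb - kb) = lb := by omega
  have h := sum_flip (μ := μ) (s := s) η cb kb (lb - kb) k vb
    (fun A z C => Ψ (dw ca la A) (z - pos A cb) (z + cn C (cb + (kb + (lb - kb)) + k)))
  rw [el] at h ⊢
  have hp : ∀ S : Finset ℕ, ∀ u : ℕ, cb + lb ≤ u → pos S (cb + lb) + cn (S \ range (cb + lb)) u = pos S u :=
    fun S u hu => (pos_split hu).symm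
  have hp' : ∀ S : Finset ℕ, ∀ u : ℕ, cb + lb ≤ u →
      pos S (cb + lb) + vb + cn (S \ range (cb + lb)) u = pos S u + vb := fun S u hu => by
    rw [← hp S u hu]
    ring
  have hL : ∀ S : Finset ℕ, pos S (cb + lb) - pos (S ∩ range cb) cb = dw cb lb S := fun S => by
    rw [pos_inter _ le_rfl]
    rfl
  have hL' : ∀ S : Finset ℕ, pos S (cb + lb) + vb - pos (S ∩ range cb) cb = dw cb lb S + vb := fun S => by
    rw [pos_inter _ le_rfl]
    unfold dw
    ring
  have hc : ∀ S : Finset ℕ, pos S (cb + lb) + vb - pos S cb = dw cb lb S + vb := fun S => by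
    unfold dw
    ring
  simp only [hp _ _ (show cb + lb ≤ cb + lb + k by omega), hL, hp' _ _ (show cb + lb ≤ cb + lb + k by omega), hL', hc,
    dw_inter hab] at h
  exact h

/-- Both flips. -/
theorem flipAB (η : Env) {N ca la ka cb lb kb : ℕ} (va vb : ℤ) (hka : ka ≤ la) (hkb : kb ≤ lb) (hab : ca + la ≤ cb)
    (hb : cb + lb ≤ N) (Ψ : ℤ → ℤ → ℤ → ℝ) :
    ∑ S ∈ (range N).powerset, pth μ s η N S * (Rk μ s η ca ka (la - ka) va (pos S ca) (pos S (ca + la)) *
        (Rk μ s η cb kb (lb - kb) vb (pos S cb) (pos S (cb + lb)) * Ψ (dw ca la S) (dw cb lb S) (pos S N))) =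
      ∑ S ∈ (range N).powerset, pth μ s (shj ((cb + kb : ℕ) : ℤ) vb (shj ((ca + ka : ℕ) : ℤ) va η)) N S *
        (okw lb (dw cb lb S + vb) * (okw la (dw ca la S + va) *
          Ψ (dw ca la S + va) (dw cb lb S + vb) (pos S N + vb + va))) := by
  rw [flipA η va hka hab hb (Rk μ s η cb kb (lb - kb) vb) Ψ]
  have h1 := flipB (μ := μ) (s := s) (shj ((ca + ka : ℕ) : ℤ) va η) vb hkb hab hb
    (fun d d' e => okw la (d + va) * Ψ (d + va) d' (e + va))
  rw [← h1]
  refine sum_congr rfl fun S _ => ?_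
  rw [Rk_shj η va (show ca + ka ≤ cb by omega)]
  ring

/-! ### Pinned sums -/

/-- The sum over the pinned paths. -/
def pin (μ : Measure ℝ) (s : ℝ) (η : Env) (N : ℕ) (y : ℤ) (f : Finset ℕ → ℝ) : ℝ :=
  ∑ S ∈ (range N).powerset, pth μ s η N S * (f S * if pos S N = y then 1 else 0)

theorem sum_Pn {N y : ℕ} (f : Finset ℕ → ℝ) :
    ∑ S : Px (Pn N y), f S.1 = ∑ S ∈ (range N).powerset, if pos S N = (y : ℤ) then f S else 0 := by
  have h : Pn N y = (range N).powerset.filter fun S => pos S N = (y : ℤ) := by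
    ext S
    rw [mem_powersetCard, mem_filter, mem_powerset]
    refine and_congr_right fun h => ?_
    rw [Mod92.pos_card h]
    exact Int.natCast_inj.symm
  rw [Mod92.sum_Px (Q := Pn N y) f, h, sum_filter]

theorem pin_one (η : Env) (N : ℕ) (y : ℤ) : pin μ s η N y (fun _ => 1) = W μ s η 0 N y := by
  rw [← Mt_one]
  unfold pin Mt
  refine sum_congr rfl fun S _ => ?_
  split_ifs <;> simp

theorem pin_mono (η : Env) (N : ℕ) (y : ℤ) {f g : Finset ℕ → ℝ} (h : ∀ S, pos S N = y → f S ≤ g S) :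
    pin μ s η N y f ≤ pin μ s η N y g := by
  unfold pin
  refine sum_le_sum fun S _ => ?_
  by_cases hS : pos S N = y
  · rw [if_pos hS, mul_one, mul_one]
    exact mul_le_mul_of_nonneg_left (h S hS) (Mod92.pth_pos η N S).le
  · simp only [if_neg hS, mul_zero, le_refl]

open Classical in
theorem mf_pin (η : Env) {N y : ℕ} (Λ : Finset ℕ → ℝ) (st : Finset ℕ → Prop) :
    mf (fun S : Px (Pn N y) => pth μ s η N S.1) (fun S => Λ S.1) (fun S => st S.1) =
      pin μ s η N y (fun S => Λ S * if st S then 1 else 0) / pin μ s η N y Λ := by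
  unfold mf pin
  congr 1
  · rw [sum_Pn (N := N) (y := y) (fun S => if st S then pth μ s η N S * Λ S else 0)]
    refine sum_congr rfl fun S _ => ?_
    by_cases h1 : pos S N = (y : ℤ)
    · by_cases h2 : st S
      · simp [h1, h2]
      · simp [h2]
    · simp [h1]
  · rw [sum_Pn (N := N) (y := y) (fun S => pth μ s η N S * Λ S)]
    refine sum_congr rfl fun S _ => ?_
    by_cases h1 : pos S N = (y : ℤ)
    · simp [h1]
    · simp [h1]

open Classical in
/-- **The mass of the steep ends under a kicked law** is at most twice the mass of the steep paths of the pinned polymer in the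
sheared environment. -/
theorem pin_ratio {η' : Env} {N : ℕ} {y' : ℤ} {ε : ℝ} (h0 : 0 ≤ y') (h1 : y' ≤ N) {A B : Finset ℕ → ℝ} {num den : ℝ}
    (hnum : num = pin μ s η' N y' (fun S => A S * B S)) (hden : den = pin μ s η' N y' A)
    (hA0 : ∀ S, 0 ≤ A S) (hA1 : ∀ S, A S ≤ 1) (hA : ∀ S, pos S N = y' → NSp μ s N N ε S → A S = 1)
    (hB0 : ∀ S, 0 ≤ B S) (hB1 : ∀ S, B S ≤ 1) (hB : ∀ S, pos S N = y' → NSp μ s N N ε S → B S = 0) :
    num / den ≤ 2 * Qp μ s η' N ε y' := by
  have hW : 0 < W μ s η' 0 N y' := Pool.Agent.W_7d29a1_Z74.W_pos η' 0 h0 h1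
  obtain ⟨q, hq⟩ : ∃ q : ℝ, q = Qp μ s η' N ε y' := ⟨_, rfl⟩
  have hq0 : 0 ≤ q := hq ▸ Qp_nonneg _ _ _ _
  have hqW : q * W μ s η' 0 N y' = pin μ s η' N y' (fun S => if NSp μ s N N ε S then 0 else 1) := by
    rw [hq]
    unfold Qp pin
    rw [sum_mul]
    refine sum_congr rfl fun S _ => ?_
    unfold gp
    by_cases hS : pos S N = y'
    · rw [if_pos hS, if_pos hS]
      field_simp
    · rw [if_neg hS, if_neg hS]
      ring
  have hn : num ≤ q * W μ s η' 0 N y' := by
    rw [hnum, hqW]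
    refine pin_mono η' N y' fun S hS => ?_
    by_cases hN : NSp μ s N N ε S
    · rw [hB S hS hN, mul_zero, if_pos hN]
    · rw [if_neg hN]
      exact mul_le_one₀ (hA1 S) (hB0 S) (hB1 S)
  have hd : (1 - q) * W μ s η' 0 N y' ≤ den := by
    have h2 : W μ s η' 0 N y' ≤ den + q * W μ s η' 0 N y' := by
      rw [hden, hqW]
      unfold pin
      rw [← sum_add_distrib, ← pin_one]
      unfold pin
      refine sum_le_sum fun S _ => ?_
      by_cases hS : pos S N = y'
      · have h3 : (1 : ℝ) ≤ A S + (if NSp μ s N N ε S then 0 else 1) := by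
          by_cases hN : NSp μ s N N ε S
          · rw [hA S hS hN, if_pos hN, add_zero]
          · rw [if_neg hN]
            linarith [hA0 S]
        have h4 := mul_le_mul_of_nonneg_left h3 (Mod92.pth_pos (μ := μ) (s := s) η' N S).le
        simp only [if_pos hS, mul_one]
        rw [mul_one, mul_add] at h4
        exact h4
      · simp only [if_neg hS, mul_zero, add_zero, le_refl]
    linarith
  have hle : num ≤ den := by
    rw [hnum, hden]
    exact pin_mono η' N y' fun S _ => mul_le_of_le_one_right (hA0 S) (hB1 S)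
  have hd0 : 0 ≤ den := by
    rw [hden]
    unfold pin
    refine sum_nonneg fun S _ => mul_nonneg (Mod92.pth_pos η' N S).le (mul_nonneg (hA0 S) ?_)
    split_ifs <;> norm_num
  rw [← hq]
  rcases le_or_gt q (1 / 2) with hh | hh
  · have hden0 : 0 < den := lt_of_lt_of_le (mul_pos (by linarith) hW) hd
    rw [div_le_iff₀ hden0]
    calc num ≤ q * W μ s η' 0 N y' := hn
      _ ≤ 2 * q * ((1 - q) * W μ s η' 0 N y') := by nlinarith [mul_nonneg hq0 hW.le]
      _ ≤ 2 * q * den := mul_le_mul_of_nonneg_left hd (by linarith)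
  · have := div_le_one_of_le₀ hle hd0
    linarith

end

end Pool.Agent.W_7d29a1_C0.Tv48
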