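import Pool.Agent.W_7d29a1_C0.TvB48

/-!
MP_7d29a1_pr, [CURV0], leaf E7b, the law estimate: for the pinned polymer, the total variation distance of the measure with one clipped
kick (weight `1` at the steep ends) and of the measure with the exact kick, both on top of a clipped partial kick of another window, has
mean at most `exp (- N ^ c')`. (helper48)
-/

set_option autoImplicit false

namespace Pool.Agent.W_7d29a1_C0.Tv48

open Pool.Agent.W_7d29a1_F hiding W_pos W_nonneg W_add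
open Finset MeasureTheory Filter Topology Pool.Agent.W_7d29a1_X Pool.Agent.W_7d29a1_HZ
open Pool.Agent.W_7d29a1_HS (In wd)
open Pool.Agent.W_7d29a1_H (sl)
open Pool.Agent.W_7d29a1_Z74
open Pool.Agent.W_7d29a1_HZ.Z74
open Pool.Agent.W_7d29a1_C0.Flip61 (Rk cn sum_flip pos_split Rk_nonneg)
open Pool.Agent.W_7d29a1_C0.Mod92 (Px Pn ps lk cl Flat gw lw)
open Pool.Agent.W_7d29a1_C0.Loc14 (Qp Qp_nonneg measurable_Qp lint_Qp)
open Pool.Agent.W_7d29a1_C0.K14 (KU kick14_unit)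
open scoped ENNReal

noncomputable section

variable {μ : Measure ℝ} {s : ℝ}

/-! ### Flips as predicates -/

/-- The weight `Λ` (a function of the environment and the path) amounts to a change of the environment: the displacements over the two
windows and the end are moved by `ua`, `ub`, `w`. -/
def Flp (μ : Measure ℝ) (s : ℝ) (N ca la cb lb : ℕ) (ua ub w : ℤ) (Λ : Env → Finset ℕ → ℝ) : Prop :=
  ∃ (T : Env → Env) (A : Finset ℕ → ℝ), MeasurePreserving T (law μ) (law μ) ∧ (∀ S, 0 ≤ A S) ∧ (∀ S, A S ≤ 1) ∧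
    (∀ S, (0 ≤ dw ca la S + ua ∧ dw ca la S + ua ≤ la) → (0 ≤ dw cb lb S + ub ∧ dw cb lb S + ub ≤ lb) → A S = 1) ∧
    ∀ (η : Env) (Ψ : ℤ → ℤ → ℤ → ℝ),
      ∑ S ∈ (range N).powerset, pth μ s η N S * (Λ η S * Ψ (dw ca la S) (dw cb lb S) (pos S N)) =
        ∑ S ∈ (range N).powerset, pth μ s (T η) N S * (A S * Ψ (dw ca la S + ua) (dw cb lb S + ub) (pos S N + w))

/-- The exact kick of a window. -/
def Rw (μ : Measure ℝ) (s : ℝ) (c l k : ℕ) (v : ℤ) (η : Env) (S : Finset ℕ) : ℝ :=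
  Rk μ s η c k (l - k) v (pos S c) (pos S (c + l))

theorem Rw_nonneg (c l k : ℕ) (v : ℤ) (η : Env) (S : Finset ℕ) : 0 ≤ Rw μ s c l k v η S := Rk_nonneg _ _ _ _ _ _ _

theorem okw_nonneg (l : ℕ) (d : ℤ) : 0 ≤ okw l d := by
  unfold okw
  split_ifs <;> norm_num

theorem okw_le_one (l : ℕ) (d : ℤ) : okw l d ≤ 1 := by
  unfold okw
  split_ifs <;> norm_num

theorem okw_one {l : ℕ} {d : ℤ} (h : 0 ≤ d ∧ d ≤ l) : okw l d = 1 := if_pos h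

theorem Flp.swap {N ca la cb lb : ℕ} {ua ub w : ℤ} {Λ : Env → Finset ℕ → ℝ} (h : Flp μ s N ca la cb lb ua ub w Λ) :
    Flp μ s N cb lb ca la ub ua w Λ := by
  obtain ⟨T, A, hT, hA0, hA1, hA, hF⟩ := h
  exact ⟨T, A, hT, hA0, hA1, fun S h1 h2 => hA S h2 h1, fun η Ψ => hF η fun d d' e => Ψ d' d e⟩

theorem flp_one [IsProbabilityMeasure μ] (N ca la cb lb : ℕ) : Flp μ s N ca la cb lb 0 0 0 fun _ _ => 1 :=
  ⟨id, fun _ => 1, MeasurePreserving.id _, fun _ => zero_le_one, fun _ => le_rfl, fun _ _ _ => rfl, fun η Ψ => by simp⟩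

theorem flp_A [IsProbabilityMeasure μ] {N ca la ka cb lb : ℕ} (va : ℤ) (hk : ka ≤ la) (hab : ca + la ≤ cb) (hb : cb + lb ≤ N) :
    Flp μ s N ca la cb lb va 0 va (Rw μ s ca la ka va) := by
  refine ⟨shj ((ca + ka : ℕ) : ℤ) va, fun S => okw la (dw ca la S + va), mp_shj _ _, fun S => okw_nonneg _ _,
    fun S => okw_le_one _ _, fun S h1 _ => okw_one h1, fun η Ψ => ?_⟩
  have h := flipA (μ := μ) (s := s) η va hk hab hb (fun _ _ => 1) Ψ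
  simp only [one_mul] at h
  simp only [add_zero]
  exact h

theorem flp_B [IsProbabilityMeasure μ] {N ca la cb lb kb : ℕ} (vb : ℤ) (hk : kb ≤ lb) (hab : ca + la ≤ cb) (hb : cb + lb ≤ N) :
    Flp μ s N ca la cb lb 0 vb vb (Rw μ s cb lb kb vb) := by
  refine ⟨shj ((cb + kb : ℕ) : ℤ) vb, fun S => okw lb (dw cb lb S + vb), mp_shj _ _, fun S => okw_nonneg _ _,
    fun S => okw_le_one _ _, fun S _ h2 => okw_one h2, fun η Ψ => ?_⟩
  have h := flipB (μ := μ) (s := s) (ca := ca) (la := la) η vb hk hab hb Ψ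
  simp only [add_zero]
  exact h

theorem flp_AB [IsProbabilityMeasure μ] {N ca la ka cb lb kb : ℕ} (va vb : ℤ) (hka : ka ≤ la) (hkb : kb ≤ lb)
    (hab : ca + la ≤ cb) (hb : cb + lb ≤ N) :
    Flp μ s N ca la cb lb va vb (vb + va) (fun η S => Rw μ s ca la ka va η S * Rw μ s cb lb kb vb η S) := by
  refine ⟨fun η => shj ((cb + kb : ℕ) : ℤ) vb (shj ((ca + ka : ℕ) : ℤ) va η),
    fun S => okw lb (dw cb lb S + vb) * okw la (dw ca la S + va), (mp_shj _ _).comp (mp_shj _ _),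
    fun S => mul_nonneg (okw_nonneg _ _) (okw_nonneg _ _), fun S => mul_le_one₀ (okw_le_one _ _) (okw_nonneg _ _) (okw_le_one _ _),
    fun S h1 h2 => by
      beta_reduce
      rw [okw_one h1, okw_one h2, mul_one], fun η Ψ => ?_⟩
  have h := flipAB (μ := μ) (s := s) η va vb hka hkb hab hb Ψ
  simp only [mul_assoc, ← add_assoc]
  exact h

open Classical in
/-- The mass of a set of steep ends under a kicked law. -/
theorem mf_of_flip {η η' : Env} {N y ca la cb lb : ℕ} {ua ub w : ℤ} {ε : ℝ} {Λ A : Finset ℕ → ℝ}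
    (hF : ∀ Ψ : ℤ → ℤ → ℤ → ℝ, ∑ S ∈ (range N).powerset, pth μ s η N S * (Λ S * Ψ (dw ca la S) (dw cb lb S) (pos S N)) =
      ∑ S ∈ (range N).powerset, pth μ s η' N S * (A S * Ψ (dw ca la S + ua) (dw cb lb S + ub) (pos S N + w)))
    (hA0 : ∀ S, 0 ≤ A S) (hA1 : ∀ S, A S ≤ 1) (hA : ∀ S, NSp μ s N N ε S → A S = 1) (P : ℤ → ℤ → Prop)
    (hP : ∀ S, NSp μ s N N ε S → ¬ P (dw ca la S + ua) (dw cb lb S + ub)) (h0 : 0 ≤ (y : ℤ) - w) (h1 : (y : ℤ) - w ≤ N) :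
    mf (fun S : Px (Pn N y) => pth μ s η N S.1) (fun S => Λ S.1) (fun S => P (dw ca la S.1) (dw cb lb S.1)) ≤
      2 * Qp μ s η' N ε (y - w) := by
  have e1 : ∀ e : ℤ, (e + w = (y : ℤ)) ↔ (e = (y : ℤ) - w) := fun e => by
    constructor <;> intro h <;> omega
  rw [mf_pin η Λ (fun S => P (dw ca la S) (dw cb lb S))]
  refine pin_ratio (A := A) (B := fun S => if P (dw ca la S + ua) (dw cb lb S + ub) then 1 else 0) h0 h1 ?_ ?_ hA0 hA1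
    (fun S _ h => hA S h) (fun S => ?_) (fun S => ?_) (fun S _ h => if_neg (hP S h))
  · have h := hF fun d d' e => (if P d d' then 1 else 0) * if e = (y : ℤ) then 1 else 0
    unfold pin
    simp only [e1] at h
    simp only [mul_assoc] at h ⊢
    exact h
  · have h := hF fun d d' e => if e = (y : ℤ) then 1 else 0
    unfold pin
    simp only [e1] at h
    exact h
  · split_ifs <;> norm_num
  · split_ifs <;> norm_num

/-! ### The mean of the mass of the steep paths -/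

theorem Qp_le_one (η : Env) {N : ℕ} {ε : ℝ} {y : ℤ} (h0 : 0 ≤ y) (h1 : y ≤ N) : Qp μ s η N ε y ≤ 1 := by
  rw [← gp_sum (μ := μ) (s := s) η h0 h1]
  unfold Qp
  refine sum_le_sum fun S _ => mul_le_of_le_one_right (Pool.Agent.W_7d29a1_HZ.gp_nonneg _ _ _ _) ?_
  split_ifs <;> norm_num

theorem integrable_Qp [IsProbabilityMeasure μ] {N : ℕ} {ε : ℝ} {y : ℤ} (h0 : 0 ≤ y) (h1 : y ≤ N) :
    Integrable (fun η => Qp μ s η N ε y) (law μ) :=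
  Integrable.of_bound (measurable_Qp N ε y).aestronglyMeasurable 1 (Eventually.of_forall fun η => by
    rw [Real.norm_eq_abs, abs_of_nonneg (Qp_nonneg _ _ _ _)]
    exact Qp_le_one η h0 h1)

variable [IsProbabilityMeasure μ] {c C : ℝ} {n₀ : ℕ}

/-- The pinned end is in the cone. -/
def EndOk (μ : Measure ℝ) (s δ : ℝ) (N y : ℕ) : Prop := |(y : ℝ) - sl μ s * N| ≤ (N : ℝ) ^ δ * wd' μ s N

omit [IsProbabilityMeasure μ] in
theorem EndOk.mono {δ δ' : ℝ} {N y : ℕ} (h : EndOk μ s δ N y) (hd : δ ≤ δ') (hN : 1 ≤ N) : EndOk μ s δ' N y := by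
  have hN' : (1 : ℝ) ≤ N := by exact_mod_cast hN
  have hw1 : 1 ≤ wd' μ s N := le_max_left _ _
  exact le_trans h (mul_le_mul_of_nonneg_right (Real.rpow_le_rpow_of_exponent_le hN' hd) (by linarith))

theorem int_Qp (h : In μ s c C n₀) {ε : ℝ} (hε : 0 < ε) : ∃ δ' : ℝ, 0 < δ' ∧ ∃ c' : ℝ, 0 < c' ∧ ∃ N₀ : ℕ, ∀ N : ℕ, N₀ ≤ N →
    ∀ y : ℕ, EndOk μ s δ' N y → ∀ w : ℤ, |w| ≤ 2 → 0 ≤ (y : ℤ) - w ∧ (y : ℤ) - w ≤ N ∧
      ∫ η, Qp μ s η N ε (y - w) ∂(law μ) ≤ Real.exp (-(N : ℝ) ^ c') := by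
  obtain ⟨δ, c', hδ, hc', L₀, hns⟩ := ns h ε hε
  obtain ⟨a, K, ha, ha1, hK, hwd⟩ := wd'_pow h
  have hs0 := h.sl_pos
  have hs1 := h.sl_lt
  obtain ⟨δ', hδ'⟩ : ∃ δ' : ℝ, δ' = min (δ / 2) (a / 2) := ⟨_, rfl⟩
  have hδ'0 : 0 < δ' := hδ' ▸ lt_min (by linarith) (by linarith)
  have hδ'δ : δ' < δ := lt_of_le_of_lt (hδ' ▸ min_le_left _ _) (by linarith)
  have hδ'a : δ' < a := lt_of_le_of_lt (hδ' ▸ min_le_right _ _) (by linarith)
  -- the numbers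
  have ev1 : ∀ᶠ N : ℕ in atTop, 3 * (N : ℝ) ^ δ' ≤ 1 * (N : ℝ) ^ δ := ev_pow_le hδ'δ one_pos
  have ev2 : ∀ᶠ N : ℕ in atTop, (3 * (K * wd' μ s 1)) * (N : ℝ) ^ (δ' + (1 - a)) ≤
      min (sl μ s) (1 - sl μ s) * (N : ℝ) ^ (1 : ℝ) := ev_pow_le (by linarith) (lt_min hs0 (by linarith))
  obtain ⟨N₀, hN₀⟩ := ((ev1.and ev2).and (eventually_ge_atTop (max L₀ 1))).exists_forall_of_atTop
  refine ⟨δ', hδ'0, c', hc', N₀, fun N hN y hy w hw => ?_⟩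
  obtain ⟨⟨h1, h2⟩, h3⟩ := hN₀ N hN
  have hNL : L₀ ≤ N := (le_max_left _ _).trans h3
  have hN1 : 1 ≤ N := (le_max_right _ _).trans h3
  have hN1' : (1 : ℝ) ≤ N := by exact_mod_cast hN1
  have hw1 : 1 ≤ wd' μ s N := le_max_left _ _
  have hwR : |(w : ℝ)| ≤ 2 := by exact_mod_cast hw
  unfold EndOk at hy
  have hw2 : wd' μ s N ≤ K * (N : ℝ) ^ (1 - a) * wd' μ s 1 := by
    have h4 := (hwd 1 N le_rfl hN1).2.2
    have h5 : ((N : ℝ) / ((1 : ℕ) : ℝ)) = N := by simp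
    rw [h5] at h4
    exact h4
  have hp : (1 : ℝ) ≤ (N : ℝ) ^ δ' := Real.one_le_rpow hN1' hδ'0.le
  rw [Real.rpow_one] at h2
  have hmin1 : min (sl μ s) (1 - sl μ s) * N ≤ sl μ s * N := mul_le_mul_of_nonneg_right (min_le_left _ _) (by linarith)
  have hmin2 : min (sl μ s) (1 - sl μ s) * N ≤ (1 - sl μ s) * N := mul_le_mul_of_nonneg_right (min_le_right _ _) (by linarith)
  have hpw : 1 ≤ (N : ℝ) ^ δ' * wd' μ s N := one_le_mul_of_one_le_of_one_le hp hw1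
  have hb : (N : ℝ) ^ δ' * wd' μ s N + 2 ≤ min (sl μ s) (1 - sl μ s) * N := by
    refine le_trans ?_ h2
    rw [Real.rpow_add (by linarith)]
    calc (N : ℝ) ^ δ' * wd' μ s N + 2 ≤ 3 * ((N : ℝ) ^ δ' * wd' μ s N) := by linarith
      _ ≤ 3 * ((N : ℝ) ^ δ' * (K * (N : ℝ) ^ (1 - a) * wd' μ s 1)) := by gcongr
      _ = 3 * (K * wd' μ s 1) * ((N : ℝ) ^ δ' * (N : ℝ) ^ (1 - a)) := by ring
  obtain ⟨y1, y2⟩ := abs_le.1 hy
  obtain ⟨w1, w2⟩ := abs_le.1 hwR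
  have z0 : 0 ≤ (y : ℤ) - w := by
    have : (0 : ℝ) ≤ ((y : ℤ) - w : ℤ) := by
      push_cast
      linarith
    exact_mod_cast this
  have z1 : (y : ℤ) - w ≤ N := by
    have : (((y : ℤ) - w : ℤ) : ℝ) ≤ ((N : ℤ) : ℝ) := by
      push_cast
      linarith
    exact_mod_cast this
  refine ⟨z0, z1, ?_⟩
  have z2 : |(((y : ℤ) - w : ℤ) : ℝ) - sl μ s * N| ≤ (N : ℝ) ^ δ * wd' μ s N := by
    have e1 : (((y : ℤ) - w : ℤ) : ℝ) - sl μ s * N = ((y : ℝ) - sl μ s * N) - w := by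
      push_cast
      ring
    rw [e1]
    refine (abs_sub _ _).trans ?_
    have h6 : 3 * ((N : ℝ) ^ δ' * wd' μ s N) ≤ (N : ℝ) ^ δ * wd' μ s N := by
      have := mul_le_mul_of_nonneg_right h1 (show (0 : ℝ) ≤ wd' μ s N by linarith)
      linarith
    linarith
  have h5 := hns N hNL N (by omega) le_rfl _ z0 z1 z2
  rw [← lint_Qp, ← ofReal_integral_eq_lintegral_ofReal (integrable_Qp z0 z1) (Eventually.of_forall fun η => Qp_nonneg _ _ _ _)] at h5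
  exact (ENNReal.ofReal_le_ofReal_iff (Real.exp_pos _).le).1 h5

/-! ### The numbers of the windows -/

/-- For the windows of length `l ≥ N ^ θ`: the cones of small opening are well inside of the light cone, and the paths without steep
places are well inside of the cone of opening `δ`. -/
theorem cone_num (h : In μ s c C n₀) {θ : ℝ} (hθ : 0 < θ) : ∃ a : ℝ, 0 < a ∧ a < 1 ∧
    (∀ δ : ℝ, 0 < δ → δ < a → ∃ N₀ : ℕ, ∀ N : ℕ, N₀ ≤ N → ∀ l : ℕ, (N : ℝ) ^ θ ≤ l →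
      (l : ℝ) ^ δ * wd μ s l + 2 ≤ sl μ s * l ∧ (l : ℝ) ^ δ * wd μ s l + 2 ≤ (1 - sl μ s) * l) ∧
    (∀ δ δ' : ℝ, 0 < δ → δ < δ' → ∃ N₀ : ℕ, ∀ N : ℕ, N₀ ≤ N → ∀ l : ℕ, (N : ℝ) ^ θ ≤ l →
      (l : ℝ) ^ δ * wd μ s l + 2 ≤ (l : ℝ) ^ δ' * wd μ s l) ∧
    ∀ δ ε : ℝ, 0 < δ → 0 < ε → ε < θ * δ → ∃ N₀ : ℕ, ∀ N : ℕ, N₀ ≤ N → ∀ l : ℕ, (N : ℝ) ^ θ ≤ l →
      (N : ℝ) ^ ε * wd' μ s l + 2 ≤ (l : ℝ) ^ δ * wd μ s l := by
  obtain ⟨a, K, ha, ha1, hK, hwd⟩ := wd'_pow h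
  obtain ⟨n₁, hn₁⟩ := wd'_eq h
  have hs0 := h.sl_pos
  have hs1 := h.sl_lt
  have hpow : ∀ {P : ℕ → Prop}, (∀ᶠ l : ℕ in atTop, P l) → ∃ N₀ : ℕ, ∀ N : ℕ, N₀ ≤ N → ∀ l : ℕ, (N : ℝ) ^ θ ≤ l → P l := by
    intro P hP
    obtain ⟨L, hL⟩ := hP.exists_forall_of_atTop
    obtain ⟨N₀, hN₀⟩ := (ev_pow hθ (L : ℝ)).exists_forall_of_atTop
    refine ⟨N₀, fun N hN l hl => hL l ?_⟩
    have := (hN₀ N hN).trans hl
    exact_mod_cast this
  refine ⟨a, ha, ha1, fun δ hδ hδa => hpow ?_, fun δ δ' hδ hδ' => hpow ?_, fun δ ε hδ hε hεδ => ?_⟩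
  · have ev2 : ∀ᶠ l : ℕ in atTop, (3 * (K * wd' μ s 1)) * (l : ℝ) ^ (δ + (1 - a)) ≤
        min (sl μ s) (1 - sl μ s) * (l : ℝ) ^ (1 : ℝ) := ev_pow_le (by linarith) (lt_min hs0 (by linarith))
    filter_upwards [ev2, eventually_ge_atTop (max n₁ 1)] with l h2 h3
    have hl1 : (1 : ℝ) ≤ l := by exact_mod_cast (le_max_right _ _).trans h3
    have hl1' : 1 ≤ l := (le_max_right _ _).trans h3
    obtain ⟨e1, -, e3⟩ := hn₁ l ((le_max_left _ _).trans h3)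
    have hw1 : 1 ≤ wd' μ s l := le_max_left _ _
    have hp : 1 ≤ (l : ℝ) ^ δ := Real.one_le_rpow hl1 hδ.le
    have hwl : wd' μ s l ≤ K * (l : ℝ) ^ (1 - a) * wd' μ s 1 := by
      have h5 := (hwd 1 l le_rfl hl1').2.2
      have h6 : ((l : ℝ) / ((1 : ℕ) : ℝ)) = l := by simp
      rw [h6] at h5
      exact h5
    rw [Real.rpow_one] at h2
    have hA : (l : ℝ) ^ δ * wd μ s l + 2 ≤ min (sl μ s) (1 - sl μ s) * l := by
      refine le_trans ?_ h2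
      rw [← e1, Real.rpow_add (by linarith)]
      calc (l : ℝ) ^ δ * wd' μ s l + 2 ≤ 3 * ((l : ℝ) ^ δ * wd' μ s l) := by nlinarith
        _ ≤ 3 * ((l : ℝ) ^ δ * (K * (l : ℝ) ^ (1 - a) * wd' μ s 1)) := by gcongr
        _ = 3 * (K * wd' μ s 1) * ((l : ℝ) ^ δ * (l : ℝ) ^ (1 - a)) := by ring
    exact ⟨hA.trans (mul_le_mul_of_nonneg_right (min_le_left _ _) (by linarith)),
      hA.trans (mul_le_mul_of_nonneg_right (min_le_right _ _) (by linarith))⟩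
  · have ev2 : ∀ᶠ l : ℕ in atTop, 3 * (l : ℝ) ^ δ ≤ 1 * (l : ℝ) ^ δ' := ev_pow_le hδ' one_pos
    filter_upwards [ev2, eventually_ge_atTop (max n₁ 1)] with l h2 h3
    have hl1 : (1 : ℝ) ≤ l := by exact_mod_cast (le_max_right _ _).trans h3
    obtain ⟨e1, -, e3⟩ := hn₁ l ((le_max_left _ _).trans h3)
    have hw1 : 1 ≤ wd' μ s l := le_max_left _ _
    have hp : 1 ≤ (l : ℝ) ^ δ := Real.one_le_rpow hl1 hδ.le
    rw [← e1]
    nlinarith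
  · have ev1 : ∀ᶠ N : ℕ in atTop, 3 * (N : ℝ) ^ ε ≤ 1 * (N : ℝ) ^ (θ * δ) := ev_pow_le hεδ one_pos
    have ev3 : ∀ᶠ N : ℕ in atTop, (n₁ : ℝ) + 1 ≤ (N : ℝ) ^ θ := ev_pow hθ _
    obtain ⟨N₀, hN₀⟩ := ((ev1.and ev3).and (eventually_ge_atTop 1)).exists_forall_of_atTop
    refine ⟨N₀, fun N hN l hl => ?_⟩
    obtain ⟨⟨h1, h3⟩, h4⟩ := hN₀ N hN
    have hN1 : (1 : ℝ) ≤ N := by exact_mod_cast h4
    have hn0 : (0 : ℝ) ≤ n₁ := Nat.cast_nonneg _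
    have hln : n₁ ≤ l := by
      have : (n₁ : ℝ) ≤ l := by linarith
      exact_mod_cast this
    obtain ⟨e1, -, e3⟩ := hn₁ l hln
    have hw1 : 1 ≤ wd' μ s l := le_max_left _ _
    have hpε : 1 ≤ (N : ℝ) ^ ε := Real.one_le_rpow hN1 hε.le
    have hlδ : (N : ℝ) ^ (θ * δ) ≤ (l : ℝ) ^ δ := by
      rw [Real.rpow_mul (by linarith)]
      exact Real.rpow_le_rpow (by positivity) hl hδ.le
    rw [← e1]
    nlinarith

/-! ### The mass of a set of steep ends, under a kicked law -/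

open Classical in
theorem mass_of_flp {N y c₁ l₁ c₂ l₂ : ℕ} {ua ub w : ℤ} {Λ : Env → Finset ℕ → ℝ} (hΛ : Flp μ s N c₁ l₁ c₂ l₂ ua ub w Λ)
    (hua : |ua| ≤ 1) (hub : |ub| ≤ 1) {ε E : ℝ} (P : ℤ → ℤ → Prop)
    (hP : ∀ S, NSp μ s N N ε S → ∀ u v : ℤ, |u| ≤ 1 → |v| ≤ 1 → ¬ P (dw c₁ l₁ S + u) (dw c₂ l₂ S + v))
    (hin : ∀ S, NSp μ s N N ε S → ∀ u v : ℤ, |u| ≤ 1 → |v| ≤ 1 → (0 ≤ dw c₁ l₁ S + u ∧ dw c₁ l₁ S + u ≤ l₁) ∧
      (0 ≤ dw c₂ l₂ S + v ∧ dw c₂ l₂ S + v ≤ l₂))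
    (h0 : 0 ≤ (y : ℤ) - w) (h1 : (y : ℤ) - w ≤ N) (hE : ∫ η, Qp μ s η N ε (y - w) ∂(law μ) ≤ E) :
    ∃ q : Env → ℝ, Integrable q (law μ) ∧ (∀ η, 0 ≤ q η) ∧ ∫ η, q η ∂(law μ) ≤ E ∧ ∀ η,
      mf (fun S : Px (Pn N y) => pth μ s η N S.1) (fun S => Λ η S.1) (fun S => P (dw c₁ l₁ S.1) (dw c₂ l₂ S.1)) ≤ 2 * q η := by
  obtain ⟨T, A, hT, hA0, hA1, hA, hF⟩ := hΛ
  refine ⟨fun η => Qp μ s (T η) N ε (y - w), ?_, fun η => Qp_nonneg _ _ _ _, ?_, fun η => ?_⟩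
  · exact (hT.integrable_comp (measurable_Qp N ε (y - w)).aestronglyMeasurable).2 (integrable_Qp h0 h1)
  · refine le_trans (le_of_eq ?_) hE
    rw [← hT.map_eq, integral_map hT.measurable.aemeasurable (measurable_Qp N ε (y - w)).aestronglyMeasurable, hT.map_eq]
  · exact mf_of_flip (hF η) hA0 hA1 (fun S hS => hA S (hin S hS ua ub hua hub).1 (hin S hS ua ub hua hub).2) P
      (fun S hS => hP S hS ua ub hua hub) h0 h1

end

end Pool.Agent.W_7d29a1_C0.Tv48
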