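import Pool.Agent.W_7d29a1_C0.TvC48

/-!
MP_7d29a1_pr, [CURV0], leaf E7b, the law estimate, one environment: `point48`. (helper48)
-/

set_option autoImplicit false

namespace Pool.Agent.W_7d29a1_C0.Tv48

open Pool.Agent.W_7d29a1_F hiding W_pos W_nonneg W_add
open Finset MeasureTheory Filter Topology Pool.Agent.W_7d29a1_X Pool.Agent.W_7d29a1_HZ
open Pool.Agent.W_7d29a1_HS (In wd)
open Pool.Agent.W_7d29a1_H (sl)
open Pool.Agent.W_7d29a1_Z74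
open Pool.Agent.W_7d29a1_HZ.Z74
open Pool.Agent.W_7d29a1_C0.Flip61 (Rk cn sum_flip pos_split Rk_nonneg)
open Pool.Agent.W_7d29a1_C0.Mod92 (Px Pn ps lk cl Flat gw lw)
open Pool.Agent.W_7d29a1_C0.Loc14 (Qp Qp_nonneg measurable_Qp lint_Qp)
open Pool.Agent.W_7d29a1_C0.K14 (KU kick14_unit ZJ_pos)
open scoped ENNReal

noncomputable section

variable {μ : Measure ℝ} {s : ℝ}

/-! ### Kicks -/

theorem exp_lk (η : Env) {c l k : ℕ} (hk : k ≤ l) {v x y : ℤ} (h0 : 0 ≤ y - x - v) (h1 : y - x - v ≤ l) (h2 : 0 ≤ y - x)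
    (h3 : y - x ≤ l) : Real.exp (lk μ s η c l k v x y) = Rk μ s η c k (l - k) v x y := by
  have e : k + (l - k) = l := by omega
  have hZ : 0 < ZJ μ s η ((c : ℤ), x) k (l - k) v (y - x) := ZJ_pos η _ k (l - k) h0 (by rw [e]; exact h1)
  have hW : 0 < W μ s η ((c : ℤ), x) l (y - x) := Pool.Agent.W_7d29a1_Z74.W_pos η _ h2 h3
  unfold lk Rk
  rw [Real.exp_sub, Real.exp_log hZ, Real.exp_log hW, e]

theorem abs_cl_le {B : ℝ} (hB : 0 ≤ B) (u : ℝ) : |cl B u| ≤ |u| := by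
  unfold cl
  rcases le_total 0 u with h | h
  · have h1 : 0 ≤ min B u := le_min hB h
    rw [max_eq_right (by linarith), abs_of_nonneg h1, abs_of_nonneg h]
    exact min_le_right _ _
  · rw [min_eq_right (by linarith), abs_of_nonpos h]
    rcases le_total (-B) u with h2 | h2
    · rw [max_eq_right h2, abs_of_nonpos h]
    · rw [max_eq_left h2, abs_neg, abs_of_nonneg hB]
      linarith

/-- The factor of a partial kick. -/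
theorem theta_mem {t : ℝ} (ht : |t| ≤ 1) {a : ℤ} (ha : a = 1 ∨ a = -1) : 0 ≤ (1 - t * a) / 2 ∧ (1 - t * a) / 2 ≤ 1 := by
  obtain ⟨h1, h2⟩ := abs_le.1 ht
  rcases ha with h | h <;> rw [h] <;> push_cast <;> constructor <;> linarith

theorem kick_flat {η : Env} {δ B : ℝ} {a : ℤ} (ha : a = 1 ∨ a = -1) {c l k : ℕ} {x y : ℤ} (hf : Flat μ s δ l a (y - x)) (t : ℝ) :
    (t - a) * gw μ s η δ B a c l k x y = (1 - t * a) / 2 * cl B (lk μ s η c l k (-a) x y) := by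
  unfold gw
  rw [if_pos hf]
  rcases ha with h | h <;> rw [h] <;> push_cast <;> ring

theorem kick_steep {η : Env} {δ B : ℝ} {a : ℤ} {c l k : ℕ} {x y : ℤ} (hf : ¬ Flat μ s δ l a (y - x)) :
    gw μ s η δ B a c l k x y = 0 := by
  unfold gw
  rw [if_neg hf]

theorem half_abs {a : ℤ} (ha : a = 1 ∨ a = -1) : |(a : ℝ) / 2| ≤ 1 / 2 := by
  rcases ha with h | h <;> rw [h] <;> norm_num [abs_div]

theorem cone_of_flat {δ δ' : ℝ} {l : ℕ} {a d : ℤ} (ha : a = 1 ∨ a = -1) (hl : (l : ℝ) ^ δ * wd μ s l + 2 ≤ (l : ℝ) ^ δ' * wd μ s l)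
    (hf : Flat μ s δ l a d) : |(d : ℝ) - sl μ s * l| ≤ (l : ℝ) ^ δ' * wd μ s l := by
  unfold Flat at hf
  have h1 := abs_le.1 hf
  have h2 := abs_le.1 (half_abs ha)
  rw [abs_le]
  constructor <;> linarith [h1.1, h1.2, h2.1, h2.2]

theorem in_of_cone {δ : ℝ} {l : ℕ} {d : ℤ} (h1 : (l : ℝ) ^ δ * wd μ s l + 2 ≤ sl μ s * l)
    (h2 : (l : ℝ) ^ δ * wd μ s l + 2 ≤ (1 - sl μ s) * l) (hd : |(d : ℝ) - sl μ s * l| ≤ (l : ℝ) ^ δ * wd μ s l) :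
    ∀ u : ℤ, |u| ≤ 1 → 0 ≤ d + u ∧ d + u ≤ l := by
  intro u hu
  have hu' : |(u : ℝ)| ≤ 1 := by exact_mod_cast hu
  obtain ⟨u1, u2⟩ := abs_le.1 hu'
  obtain ⟨d1, d2⟩ := abs_le.1 hd
  constructor
  · have : (0 : ℝ) ≤ ((d + u : ℤ) : ℝ) := by push_cast; linarith
    exact_mod_cast this
  · have : ((d + u : ℤ) : ℝ) ≤ ((l : ℤ) : ℝ) := by push_cast; linarith
    exact_mod_cast this

/-- What the small event of the kicks gives for one window. -/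
theorem kick_bd {η : Env} {N c l k : ℕ} {δ δK ε : ℝ} {v x y : ℤ} (hK : KU μ s N δK ε η) (hcl : c + l ≤ N) (hl : (N : ℝ) ^ ε ≤ l)
    (hk : k < l) (hx : |x| ≤ 2 * N) (hv : |v| ≤ 1) (hδ : δ ≤ δK) (hd : |((y - x : ℤ) : ℝ) - sl μ s * l| ≤ (l : ℝ) ^ δ * wd μ s l) (hw : 0 ≤ wd μ s l) :
    |lk μ s η c l k v x y| ≤ (N : ℝ) ^ ε := by
  have hl1 : (1 : ℝ) ≤ l := by
    have : 1 ≤ l := by omega
    exact_mod_cast this
  exact hK c l hcl hl x hx v hv k hk (y - x) (hd.trans (mul_le_mul_of_nonneg_right (Real.rpow_le_rpow_of_exponent_le hl1 hδ) hw))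

/-- A partial clipped kick is at least `- u` if the kick is at most `u`. -/
theorem part_ge {η : Env} {δ B : ℝ} (hB : 0 ≤ B) {a : ℤ} (ha : a = 1 ∨ a = -1) {t u : ℝ} (ht : |t| ≤ 1) (hu : 0 ≤ u) {c l k : ℕ}
    {x y : ℤ} (h : |lk μ s η c l k (-a) x y| ≤ u) : -u ≤ (t - a) * gw μ s η δ B a c l k x y := by
  by_cases hf : Flat μ s δ l a (y - x)
  · rw [kick_flat ha hf t]
    obtain ⟨h1, h2⟩ := theta_mem ht ha
    have h3 := (abs_le.1 ((abs_cl_le hB (lk μ s η c l k (-a) x y)).trans h)).1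
    nlinarith
  · rw [kick_steep hf, mul_zero]
    linarith

theorem part_le {η : Env} {δ B : ℝ} {a : ℤ} (ha : a = 1 ∨ a = -1) {t R : ℝ} (ht : |t| ≤ 1) (hR : 0 ≤ R) {c l k : ℕ} {x y : ℤ}
    (h : Flat μ s δ l a (y - x) → |lk μ s η c l k (-a) x y| ≤ B ∧ Real.exp (lk μ s η c l k (-a) x y) = R) :
    Real.exp ((t - a) * gw μ s η δ B a c l k x y) ≤ 1 + R := by
  by_cases hf : Flat μ s δ l a (y - x)
  · obtain ⟨q1, q2⟩ := h hf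
    rw [kick_flat ha hf t, Mod92.cl_of_abs q1, ← q2]
    obtain ⟨r1, r2⟩ := theta_mem ht ha
    rcases le_total 0 (lk μ s η c l k (-a) x y) with r3 | r3
    · have r4 := mul_le_of_le_one_left r3 r2
      linarith [Real.exp_le_exp.2 r4]
    · have r4 := mul_nonpos_of_nonneg_of_nonpos r1 r3
      linarith [Real.exp_le_one_iff.2 r4, Real.exp_pos (lk μ s η c l k (-a) x y)]
  · rw [kick_steep hf, mul_zero, Real.exp_zero]
    linarith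

theorem full_eq {η : Env} {δ B : ℝ} {a : ℤ} (ha : a = 1 ∨ a = -1) {c l k : ℕ} {x y : ℤ} {R : ℝ} (hf : Flat μ s δ l a (y - x))
    (h : |lk μ s η c l k (-a) x y| ≤ B ∧ Real.exp (lk μ s η c l k (-a) x y) = R) :
    Real.exp ((-a - a) * gw μ s η δ B a c l k x y) = R := by
  rw [kick_flat ha hf (-a : ℝ), Mod92.cl_of_abs h.1, ← h.2]
  congr 1
  rcases ha with e | e <;> rw [e] <;> push_cast <;> ring

/-- The log weight with a partial clipped kick of a window. -/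
def wk (μ : Measure ℝ) (s : ℝ) (η : Env) (N y : ℕ) (δ B : ℝ) (c l k : ℕ) (a : ℤ) (t : ℝ) (S : Px (Pn N y)) : ℝ :=
  lw μ s η N (Pn N y) S + (t - a) * gw μ s η δ B a c l k (ps S c) (ps S (c + l))

/-- The two windows are disjoint. -/
def Dj (N c₁ l₁ c₂ l₂ : ℕ) : Prop := c₁ + l₁ ≤ c₂ ∧ c₂ + l₂ ≤ N ∨ c₂ + l₂ ≤ c₁ ∧ c₁ + l₁ ≤ N

/-- The kick of the path by the window is at most `b`, and exact. -/
def Kb (μ : Measure ℝ) (s : ℝ) (η : Env) {N y : ℕ} (b : ℝ) (c l k : ℕ) (a : ℤ) (S : Px (Pn N y)) : Prop :=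
  |lk μ s η c l k (-a) (ps S c) (ps S (c + l))| ≤ b ∧
    Real.exp (lk μ s η c l k (-a) (ps S c) (ps S (c + l))) = Rw μ s c l k (-a) η S.1

/-- **One environment.** -/
theorem point48 {η : Env} {N y : ℕ} {δ B u t : ℝ} {c₁ l₁ k₁ c₂ l₂ k₂ : ℕ} {a₁ a₂ : ℤ} (ha₁ : a₁ = 1 ∨ a₁ = -1)
    (ha₂ : a₂ = 1 ∨ a₂ = -1) (ht : |t| ≤ 1) (hB : 0 ≤ B) (hu : 0 ≤ u) {st s1 : Px (Pn N y) → Prop}
    (hst : ∀ S, st S ↔ ¬ Flat μ s δ l₁ a₁ (ps S (c₁ + l₁) - ps S c₁))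
    (f1 : ∀ S : Px (Pn N y), Flat μ s δ l₁ a₁ (ps S (c₁ + l₁) - ps S c₁) → Kb μ s η B c₁ l₁ k₁ a₁ S)
    (f2 : ∀ S : Px (Pn N y), Flat μ s δ l₂ a₂ (ps S (c₂ + l₂) - ps S c₂) → Kb μ s η B c₂ l₂ k₂ a₂ S)
    (g1 : ∀ S, ¬ s1 S → Kb μ s η u c₁ l₁ k₁ a₁ S) (g2 : ∀ S, ¬ s1 S → Kb μ s η u c₂ l₂ k₂ a₂ S)
    (m1 : mf (fun S : Px (Pn N y) => pth μ s η N S.1) (fun _ => 1) s1 ≤ 1 / 2)
    (m2 : mf (fun S : Px (Pn N y) => pth μ s η N S.1) (fun S => Rw μ s c₁ l₁ k₁ (-a₁) η S.1) s1 ≤ 1 / 2)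
    (m3 : mf (fun S : Px (Pn N y) => pth μ s η N S.1) (fun S => Rw μ s c₂ l₂ k₂ (-a₂) η S.1) s1 ≤ 1 / 2)
    (m4 : mf (fun S : Px (Pn N y) => pth μ s η N S.1) (fun S => Rw μ s c₂ l₂ k₂ (-a₂) η S.1 * Rw μ s c₁ l₁ k₁ (-a₁) η S.1) s1 ≤
      1 / 2) :
    tv (fun S : Px (Pn N y) => Real.exp (wk μ s η N y δ B c₂ l₂ k₂ a₂ t S +
          (-a₁ - a₁) * gw μ s η δ B a₁ c₁ l₁ k₁ (ps S c₁) (ps S (c₁ + l₁))))
        (fun S : Px (Pn N y) => Real.exp (wk μ s η N y δ B c₂ l₂ k₂ a₂ t S) * Rw μ s c₁ l₁ k₁ (-a₁) η S.1) ≤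
      8 * Real.exp (4 * u) * (mf (fun S : Px (Pn N y) => pth μ s η N S.1) (fun _ => 1) st +
        mf (fun S : Px (Pn N y) => pth μ s η N S.1) (fun S => Rw μ s c₁ l₁ k₁ (-a₁) η S.1) st +
        mf (fun S : Px (Pn N y) => pth μ s η N S.1) (fun S => Rw μ s c₂ l₂ k₂ (-a₂) η S.1) st +
        mf (fun S : Px (Pn N y) => pth μ s η N S.1) (fun S => Rw μ s c₂ l₂ k₂ (-a₂) η S.1 * Rw μ s c₁ l₁ k₁ (-a₁) η S.1) st) := by
  have e1 : (fun S : Px (Pn N y) => Real.exp (wk μ s η N y δ B c₂ l₂ k₂ a₂ t S +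
        (-a₁ - a₁) * gw μ s η δ B a₁ c₁ l₁ k₁ (ps S c₁) (ps S (c₁ + l₁)))) = fun S => pth μ s η N S.1 *
      Real.exp ((t - a₂) * gw μ s η δ B a₂ c₂ l₂ k₂ (ps S c₂) (ps S (c₂ + l₂))) *
      Real.exp ((-a₁ - a₁) * gw μ s η δ B a₁ c₁ l₁ k₁ (ps S c₁) (ps S (c₁ + l₁))) := by
    funext S
    unfold wk
    rw [Real.exp_add, Real.exp_add, Mod92.exp_lw]
  have e2 : (fun S : Px (Pn N y) => Real.exp (wk μ s η N y δ B c₂ l₂ k₂ a₂ t S) * Rw μ s c₁ l₁ k₁ (-a₁) η S.1) =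
      fun S => pth μ s η N S.1 * Real.exp ((t - a₂) * gw μ s η δ B a₂ c₂ l₂ k₂ (ps S c₂) (ps S (c₂ + l₂))) *
        Rw μ s c₁ l₁ k₁ (-a₁) η S.1 := by
    funext S
    unfold wk
    rw [Real.exp_add, Mod92.exp_lw]
  rw [e1, e2]
  refine tv_clip (fun S => Mod92.pth_pos η N S.1) (fun S => Rw_nonneg _ _ _ _ _ _) (fun S => Rw_nonneg _ _ _ _ _ _)
    (fun S => Real.exp_pos _) (fun S hS => ?_) (fun S hS => ?_) (fun S _ => ?_) (fun S hS => ?_) hu m1 m2 m3 m4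
  · have hf : Flat μ s δ l₁ a₁ (ps S (c₁ + l₁) - ps S c₁) := by
      by_contra h
      exact hS ((hst S).2 h)
    exact full_eq ha₁ hf (f1 S hf)
  · have hf := (hst S).1 hS
    rw [kick_steep hf, mul_zero, Real.exp_zero]
  · exact part_le ha₂ ht (Rw_nonneg _ _ _ _ _ _) (f2 S)
  · obtain ⟨q1, q2⟩ := g1 S hS
    obtain ⟨q3, q4⟩ := g2 S hS
    obtain ⟨r1, r2⟩ := abs_le.1 q1
    obtain ⟨r3, r4⟩ := abs_le.1 q3
    rw [← q2, ← q4]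
    exact ⟨Real.exp_le_exp.2 r1, Real.exp_le_exp.2 r2, Real.exp_le_exp.2 (part_ge hB ha₂ ht hu q3), Real.exp_le_exp.2 r4⟩

end

end Pool.Agent.W_7d29a1_C0.Tv48
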