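import Pool.Agent.W_7d29a1_C0.TvD48

/-!
MP_7d29a1_pr, [CURV0], leaf E7b, the law estimate (end). `tv48`: for the pinned polymer of length `N`, two disjoint windows of length at
least `N ^ θ`, on top of any clipped partial kick of the second window (`|t| ≤ 1`), the clipped kick of the first window and its exact
kick have laws at total variation distance at most `exp (- N ^ c')` in the mean. `tv48_one`: without the second window. (helper48)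
-/

set_option autoImplicit false

namespace Pool.Agent.W_7d29a1_C0.Tv48

open Pool.Agent.W_7d29a1_F hiding W_pos W_nonneg W_add
open Finset MeasureTheory Filter Topology Pool.Agent.W_7d29a1_X Pool.Agent.W_7d29a1_HZ
open Pool.Agent.W_7d29a1_HS (In wd)
open Pool.Agent.W_7d29a1_H (sl)
open Pool.Agent.W_7d29a1_Z74
open Pool.Agent.W_7d29a1_HZ.Z74
open Pool.Agent.W_7d29a1_C0.Flip61 (Rk cn sum_flip pos_split Rk_nonneg)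
open Pool.Agent.W_7d29a1_C0.Mod92 (Px Pn ps lk cl Flat gw lw)
open Pool.Agent.W_7d29a1_C0.Loc14 (Qp Qp_nonneg measurable_Qp lint_Qp)
open Pool.Agent.W_7d29a1_C0.K14 (KU kick14_unit ZJ_pos)
open scoped ENNReal

noncomputable section

theorem int4 {Ω : Type*} [MeasurableSpace Ω] {ν : Measure Ω} {a b c d : Ω → ℝ} (A : Integrable a ν) (B : Integrable b ν)
    (C : Integrable c ν) (D : Integrable d ν) :
    ∫ x, (a x + b x + c x + d x) ∂ν = ∫ x, a x ∂ν + ∫ x, b x ∂ν + ∫ x, c x ∂ν + ∫ x, d x ∂ν := by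
  have f1 : ∫ x, (a x + b x + c x + d x) ∂ν = ∫ x, (a x + b x + c x) ∂ν + ∫ x, d x ∂ν := integral_add ((A.add B).add C) D
  have f2 : ∫ x, (a x + b x + c x) ∂ν = ∫ x, (a x + b x) ∂ν + ∫ x, c x ∂ν := integral_add (A.add B) C
  have f3 : ∫ x, (a x + b x) ∂ν = ∫ x, a x ∂ν + ∫ x, b x ∂ν := integral_add A B
  rw [f1, f2, f3]

theorem int_sum {Ω : Type*} [MeasurableSpace Ω] {ν : Measure Ω} [IsProbabilityMeasure ν] {G : Set Ω} (mG : MeasurableSet G) (K : ℝ)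
    {a1 a2 a3 a4 b1 b2 b3 b4 : Ω → ℝ} (A1 : Integrable a1 ν) (A2 : Integrable a2 ν) (A3 : Integrable a3 ν) (A4 : Integrable a4 ν)
    (B1 : Integrable b1 ν) (B2 : Integrable b2 ν) (B3 : Integrable b3 ν) (B4 : Integrable b4 ν) :
    Integrable (fun x => G.indicator (fun _ => (2 : ℝ)) x + (K * (a1 x + a2 x + a3 x + a4 x) + 8 * (b1 x + b2 x + b3 x + b4 x))) ν ∧
    ∫ x, (G.indicator (fun _ => (2 : ℝ)) x + (K * (a1 x + a2 x + a3 x + a4 x) + 8 * (b1 x + b2 x + b3 x + b4 x))) ∂ν =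
      2 * ν.real G + (K * (∫ x, a1 x ∂ν + ∫ x, a2 x ∂ν + ∫ x, a3 x ∂ν + ∫ x, a4 x ∂ν) +
        8 * (∫ x, b1 x ∂ν + ∫ x, b2 x ∂ν + ∫ x, b3 x ∂ν + ∫ x, b4 x ∂ν)) := by
  have iG : Integrable (fun x => G.indicator (fun _ => (2 : ℝ)) x) ν := (integrable_const _).indicator mG
  have iA : Integrable (fun x => K * (a1 x + a2 x + a3 x + a4 x)) ν := (((A1.add A2).add A3).add A4).const_mul _
  have iB : Integrable (fun x => 8 * (b1 x + b2 x + b3 x + b4 x)) ν := (((B1.add B2).add B3).add B4).const_mul _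
  have iAB : Integrable (fun x => K * (a1 x + a2 x + a3 x + a4 x) + 8 * (b1 x + b2 x + b3 x + b4 x)) ν := iA.add iB
  refine ⟨iG.add iAB, ?_⟩
  rw [integral_add iG iAB, integral_add iA iB, integral_const_mul, integral_const_mul, int4 A1 A2 A3 A4, int4 B1 B2 B3 B4]
  congr 1
  rw [integral_indicator mG, setIntegral_const, smul_eq_mul, mul_comm]

variable {μ : Measure ℝ} {s : ℝ} [IsProbabilityMeasure μ] {c C : ℝ} {n₀ : ℕ}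

/-- **THE LAW ESTIMATE OF THE FLIP.** -/
theorem tv48 (h : In μ s c C n₀) {θ εB : ℝ} (hθ : 0 < θ) (hεB : 0 < εB) : ∃ δ₀ : ℝ, 0 < δ₀ ∧ ∀ δ : ℝ, 0 < δ → δ ≤ δ₀ →
    ∃ δ' : ℝ, 0 < δ' ∧ ∃ c' : ℝ, 0 < c' ∧ ∃ N₀ : ℕ, ∀ N : ℕ, N₀ ≤ N → ∀ y : ℕ, EndOk μ s δ' N y → ∀ B : ℝ, (N : ℝ) ^ εB ≤ B →
    ∀ c₁ l₁ k₁ c₂ l₂ k₂ : ℕ, (N : ℝ) ^ θ ≤ l₁ → (N : ℝ) ^ θ ≤ l₂ → k₁ < l₁ → k₂ < l₂ → Dj N c₁ l₁ c₂ l₂ →
    ∀ a₁ a₂ : ℤ, (a₁ = 1 ∨ a₁ = -1) → (a₂ = 1 ∨ a₂ = -1) → ∀ t : ℝ, |t| ≤ 1 →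
    ∫ η, tv (fun S : Px (Pn N y) => Real.exp (wk μ s η N y δ B c₂ l₂ k₂ a₂ t S +
          (-a₁ - a₁) * gw μ s η δ B a₁ c₁ l₁ k₁ (ps S c₁) (ps S (c₁ + l₁))))
        (fun S : Px (Pn N y) => Real.exp (wk μ s η N y δ B c₂ l₂ k₂ a₂ t S) * Rw μ s c₁ l₁ k₁ (-a₁) η S.1) ∂(law μ) ≤
      Real.exp (-(N : ℝ) ^ c') := by
  obtain ⟨ε', hε'⟩ : ∃ ε' : ℝ, ε' = min εB θ := ⟨_, rfl⟩
  have hε'0 : 0 < ε' := hε' ▸ lt_min hεB hθ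
  have hε'B : ε' ≤ εB := hε' ▸ min_le_left _ _
  have hε'θ : ε' ≤ θ := hε' ▸ min_le_right _ _
  obtain ⟨δK, cK, hδK, hcK, N₁, hK⟩ := kick14_unit h hε'0
  obtain ⟨a, ha, ha1, hcA, hcB, hcC⟩ := cone_num h hθ
  obtain ⟨κ, hκ⟩ : ∃ κ : ℝ, κ = min δK (a / 2) := ⟨_, rfl⟩
  have hκ0 : 0 < κ := hκ ▸ lt_min hδK (by linarith)
  have hκK : κ ≤ δK := hκ ▸ min_le_left _ _
  have hκa : κ < a := lt_of_le_of_lt (hκ ▸ min_le_right _ _) (by linarith)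
  refine ⟨κ / 2, by positivity, fun δ hδ hδκ => ?_⟩
  have hδκ' : δ < κ := by linarith
  -- the exponent of the paths without steep places, first event
  obtain ⟨εa, hεa⟩ : ∃ εa : ℝ, εa = θ * (δ / 2) / 2 := ⟨_, rfl⟩
  have hεa0 : 0 < εa := by rw [hεa]; positivity
  have hεa1 : εa < θ * (δ / 2) := by rw [hεa]; nlinarith [mul_pos hθ hδ]
  obtain ⟨δa, hδa, ca, hca, N₂, hQa⟩ := int_Qp (μ := μ) (s := s) h hεa0
  -- the size of the kicks in the smaller cone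
  obtain ⟨ε₁, hε₁⟩ : ∃ ε₁ : ℝ, ε₁ = min (ca / 2) θ := ⟨_, rfl⟩
  have hε₁0 : 0 < ε₁ := hε₁ ▸ lt_min (by linarith) hθ
  have hε₁a : ε₁ < ca := lt_of_le_of_lt (hε₁ ▸ min_le_left _ _) (by linarith)
  have hε₁θ : ε₁ ≤ θ := hε₁ ▸ min_le_right _ _
  obtain ⟨δL, cL, hδL, hcL, N₃, hL⟩ := kick14_unit h hε₁0
  obtain ⟨κ₁, hκ₁⟩ : ∃ κ₁ : ℝ, κ₁ = min δL (a / 2) := ⟨_, rfl⟩
  have hκ₁0 : 0 < κ₁ := hκ₁ ▸ lt_min hδL (by linarith)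
  have hκ₁L : κ₁ ≤ δL := hκ₁ ▸ min_le_left _ _
  have hκ₁a : κ₁ < a := lt_of_le_of_lt (hκ₁ ▸ min_le_right _ _) (by linarith)
  obtain ⟨εb, hεb⟩ : ∃ εb : ℝ, εb = θ * (κ₁ / 2) / 2 := ⟨_, rfl⟩
  have hεb0 : 0 < εb := by rw [hεb]; positivity
  have hεb1 : εb < θ * (κ₁ / 2) := by rw [hεb]; nlinarith [mul_pos hθ hκ₁0]
  obtain ⟨δb, hδb, cb, hcb, N₄, hQb⟩ := int_Qp (μ := μ) (s := s) h hεb0
  -- the numbers
  obtain ⟨M₁, hM₁⟩ := hcA κ hκ0 hκa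
  obtain ⟨M₂, hM₂⟩ := hcA κ₁ hκ₁0 hκ₁a
  obtain ⟨M₃, hM₃⟩ := hcB δ κ hδ hδκ'
  obtain ⟨M₄, hM₄⟩ := hcB (δ / 2) δ (by positivity) (by linarith)
  obtain ⟨M₅, hM₅⟩ := hcB (κ₁ / 2) κ₁ (by positivity) (by linarith)
  obtain ⟨M₆, hM₆⟩ := hcC (δ / 2) εa (by positivity) hεa0 hεa1
  obtain ⟨M₇, hM₇⟩ := hcC (κ₁ / 2) εb (by positivity) hεb0 hεb1
  obtain ⟨c', hc'⟩ : ∃ c' : ℝ, c' = min (min cK cL) (min ca cb) / 2 := ⟨_, rfl⟩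
  have hm0 : 0 < min (min cK cL) (min ca cb) := lt_min (lt_min hcK hcL) (lt_min hca hcb)
  have hc'0 : 0 < c' := by rw [hc']; linarith
  have hc'K : c' < cK := by
    have := (min_le_left (min cK cL) (min ca cb)).trans (min_le_left _ _)
    rw [hc']; linarith
  have hc'L : c' < cL := by
    have := (min_le_left (min cK cL) (min ca cb)).trans (min_le_right _ _)
    rw [hc']; linarith
  have hc'a : c' < ca := by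
    have := (min_le_right (min cK cL) (min ca cb)).trans (min_le_left _ _)
    rw [hc']; linarith
  have hc'b : c' < cb := by
    have := (min_le_right (min cK cL) (min ca cb)).trans (min_le_right _ _)
    rw [hc']; linarith
  have x1 : ∀ᶠ N : ℕ in atTop, 8 * (N : ℝ) ^ (0 : ℝ) * Real.exp (-(1 * (N : ℝ) ^ cK)) ≤ 1 / 2 * Real.exp (-(N : ℝ) ^ c') :=
    ev_exp (by norm_num) one_pos hcK hc'K 0
  have x2 : ∀ᶠ N : ℕ in atTop, 8 * (N : ℝ) ^ (0 : ℝ) * Real.exp (-(1 * (N : ℝ) ^ cL)) ≤ 1 / 2 * Real.exp (-(N : ℝ) ^ c') :=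
    ev_exp (by norm_num) one_pos hcL hc'L 0
  have x3 : ∀ᶠ N : ℕ in atTop, 256 * (N : ℝ) ^ (0 : ℝ) * Real.exp (-(1 / 2 * (N : ℝ) ^ ca)) ≤ 1 / 2 * Real.exp (-(N : ℝ) ^ c') :=
    ev_exp (by norm_num) (by norm_num) hca hc'a 0
  have x4 : ∀ᶠ N : ℕ in atTop, 128 * (N : ℝ) ^ (0 : ℝ) * Real.exp (-(1 * (N : ℝ) ^ cb)) ≤ 1 / 2 * Real.exp (-(N : ℝ) ^ c') :=
    ev_exp (by norm_num) one_pos hcb hc'b 0
  have x5 : ∀ᶠ N : ℕ in atTop, 4 * (N : ℝ) ^ ε₁ ≤ 1 / 2 * (N : ℝ) ^ ca := ev_pow_le hε₁a (by norm_num)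
  obtain ⟨M₀, hM₀⟩ := (((x1.and x2).and (x3.and x4)).and (x5.and (eventually_ge_atTop 1))).exists_forall_of_atTop
  refine ⟨min δa δb, lt_min hδa hδb, c', hc'0, M₀ + N₁ + N₂ + N₃ + N₄ + M₁ + M₂ + M₃ + M₄ + M₅ + M₆ + M₇, fun N hN y hy B hB c₁ l₁ k₁ c₂ l₂ k₂ hl₁ hl₂ hk₁ hk₂
    hD a₁ a₂ ha₁ ha₂ t ht => ?_⟩
  obtain ⟨⟨⟨y1, y2⟩, y3, y4⟩, y5, y6⟩ := hM₀ N (by omega)
  rw [Real.rpow_zero] at y1 y2 y3 y4
  have hNR : (1 : ℝ) ≤ N := by exact_mod_cast y6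
  have hcl₁ : c₁ + l₁ ≤ N := by
    rcases hD with hD | hD <;> omega
  have hcl₂ : c₂ + l₂ ≤ N := by
    rcases hD with hD | hD <;> omega
  have hB0 : 0 ≤ B := le_trans (by positivity) hB
  have hwd : ∀ l : ℕ, (N : ℝ) ^ θ ≤ l → 0 ≤ wd μ s l := fun l _ => by
    unfold Pool.Agent.W_7d29a1_HS.wd
    exact mul_nonneg (Nat.cast_nonneg _) (h.vA_nonneg l)
  have ia₁ : |(-a₁ : ℤ)| ≤ 1 := by rcases ha₁ with e | e <;> rw [e] <;> norm_num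
  have ia₂ : |(-a₂ : ℤ)| ≤ 1 := by rcases ha₂ with e | e <;> rw [e] <;> norm_num
  have iz : |(0 : ℤ)| ≤ 1 := by norm_num
  -- the sets of ends
  obtain ⟨P, hPd⟩ : ∃ P : ℤ → ℤ → Prop, P = fun d _ => ¬ Flat μ s δ l₁ a₁ d := ⟨_, rfl⟩
  obtain ⟨P1, hP1d⟩ : ∃ P1 : ℤ → ℤ → Prop, P1 = fun (d d' : ℤ) =>
      ¬ (|(d : ℝ) - sl μ s * l₁| ≤ (l₁ : ℝ) ^ κ₁ * wd μ s l₁ ∧ |(d' : ℝ) - sl μ s * l₂| ≤ (l₂ : ℝ) ^ κ₁ * wd μ s l₂) := ⟨_, rfl⟩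
  have hnsp : ∀ {ε : ℝ} {S : Finset ℕ} {c l : ℕ}, NSp μ s N N ε S → c + l ≤ N → 1 ≤ l →
      |((dw c l S : ℤ) : ℝ) - sl μ s * l| ≤ (N : ℝ) ^ ε * wd' μ s l := fun hS hcl hl1 => hS _ _ hl1 hcl
  have hl₁1 : 1 ≤ l₁ := by omega
  have hl₂1 : 1 ≤ l₂ := by omega
  have hPa : ∀ S, NSp μ s N N εa S → ∀ u v : ℤ, |u| ≤ 1 → |v| ≤ 1 → ¬ P (dw c₁ l₁ S + u) (dw c₂ l₂ S + v) := by
    intro S hS u v hu _
    rw [hPd, not_not]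
    have q1 := hnsp hS hcl₁ hl₁1
    have q2 := hM₆ N (by omega) l₁ hl₁
    have q3 := hM₄ N (by omega) l₁ hl₁
    have hu' : |(u : ℝ)| ≤ 1 := by exact_mod_cast hu
    unfold Flat
    have q4 := abs_le.1 (half_abs ha₁)
    obtain ⟨u1, u2⟩ := abs_le.1 hu'
    obtain ⟨d1, d2⟩ := abs_le.1 q1
    rw [abs_le]
    push_cast
    constructor <;> linarith [q4.1, q4.2]
  have hina : ∀ {ε κ₀ : ℝ} (S : Finset ℕ), NSp μ s N N ε S → (∀ l : ℕ, (N : ℝ) ^ θ ≤ l → (N : ℝ) ^ ε * wd' μ s l + 2 ≤ (l : ℝ) ^ κ₀ * wd μ s l) →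
      (∀ l : ℕ, (N : ℝ) ^ θ ≤ l → (l : ℝ) ^ κ₀ * wd μ s l + 2 ≤ sl μ s * l ∧ (l : ℝ) ^ κ₀ * wd μ s l + 2 ≤ (1 - sl μ s) * l) →
      ∀ u v : ℤ, |u| ≤ 1 → |v| ≤ 1 → (0 ≤ dw c₁ l₁ S + u ∧ dw c₁ l₁ S + u ≤ l₁) ∧ (0 ≤ dw c₂ l₂ S + v ∧ dw c₂ l₂ S + v ≤ l₂) := by
    intro ε κ₀ S hS r1 r2 u v hu hv
    constructor
    · have q1 := hnsp hS hcl₁ hl₁1
      have q2 := r1 l₁ hl₁
      have q3 := r2 l₁ hl₁
      exact in_of_cone q3.1 q3.2 (q1.trans (by linarith)) u hu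
    · have q1 := hnsp hS hcl₂ hl₂1
      have q2 := r1 l₂ hl₂
      have q3 := r2 l₂ hl₂
      exact in_of_cone q3.1 q3.2 (q1.trans (by linarith)) v hv
  have hra : ∀ l : ℕ, (N : ℝ) ^ θ ≤ l → (N : ℝ) ^ εa * wd' μ s l + 2 ≤ (l : ℝ) ^ κ * wd μ s l := fun l hl => by
    have q2 := hM₆ N (by omega) l hl
    have q3 := hM₄ N (by omega) l hl
    have q4 := hM₃ N (by omega) l hl
    linarith
  have hrb : ∀ l : ℕ, (N : ℝ) ^ θ ≤ l → (N : ℝ) ^ εb * wd' μ s l + 2 ≤ (l : ℝ) ^ κ₁ * wd μ s l := fun l hl => by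
    have q2 := hM₇ N (by omega) l hl
    have q3 := hM₅ N (by omega) l hl
    linarith
  have hia : ∀ S, NSp μ s N N εa S → ∀ u v : ℤ, |u| ≤ 1 → |v| ≤ 1 → (0 ≤ dw c₁ l₁ S + u ∧ dw c₁ l₁ S + u ≤ l₁) ∧
      (0 ≤ dw c₂ l₂ S + v ∧ dw c₂ l₂ S + v ≤ l₂) := fun S hS => hina S hS hra fun l hl => hM₁ N (by omega) l hl
  have hib : ∀ S, NSp μ s N N εb S → ∀ u v : ℤ, |u| ≤ 1 → |v| ≤ 1 → (0 ≤ dw c₁ l₁ S + u ∧ dw c₁ l₁ S + u ≤ l₁) ∧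
      (0 ≤ dw c₂ l₂ S + v ∧ dw c₂ l₂ S + v ≤ l₂) := fun S hS => hina S hS hrb fun l hl => hM₂ N (by omega) l hl
  have hPb : ∀ S, NSp μ s N N εb S → ∀ u v : ℤ, |u| ≤ 1 → |v| ≤ 1 → ¬ P1 (dw c₁ l₁ S + u) (dw c₂ l₂ S + v) := by
    intro S hS u v hu hv
    rw [hP1d, not_not]
    have hu' : |(u : ℝ)| ≤ 1 := by exact_mod_cast hu
    have hv' : |(v : ℝ)| ≤ 1 := by exact_mod_cast hv
    obtain ⟨u1, u2⟩ := abs_le.1 hu'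
    obtain ⟨v1, v2⟩ := abs_le.1 hv'
    have q1 := abs_le.1 (hnsp hS hcl₁ hl₁1)
    have q2 := abs_le.1 (hnsp hS hcl₂ hl₂1)
    have q3 := hrb l₁ hl₁
    have q4 := hrb l₂ hl₂
    constructor
    · rw [abs_le]
      push_cast
      constructor <;> linarith [q1.1, q1.2]
    · rw [abs_le]
      push_cast
      constructor <;> linarith [q2.1, q2.2]
  -- the four flips
  have F1 : Flp μ s N c₁ l₁ c₂ l₂ 0 0 0 fun _ _ => 1 := flp_one N c₁ l₁ c₂ l₂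
  have FR : Flp μ s N c₁ l₁ c₂ l₂ (-a₁) 0 (-a₁) (Rw μ s c₁ l₁ k₁ (-a₁)) := by
    rcases hD with hD | hD
    · exact flp_A (-a₁) hk₁.le hD.1 hD.2
    · exact (flp_B (-a₁) hk₁.le hD.1 hD.2).swap
  have FQ : Flp μ s N c₁ l₁ c₂ l₂ 0 (-a₂) (-a₂) (Rw μ s c₂ l₂ k₂ (-a₂)) := by
    rcases hD with hD | hD
    · exact flp_B (-a₂) hk₂.le hD.1 hD.2
    · exact (flp_A (-a₂) hk₂.le hD.1 hD.2).swap
  have FQR : Flp μ s N c₁ l₁ c₂ l₂ (-a₁) (-a₂) (-a₁ + -a₂) (fun η S => Rw μ s c₂ l₂ k₂ (-a₂) η S * Rw μ s c₁ l₁ k₁ (-a₁) η S) := by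
    rcases hD with hD | hD
    · have q := flp_AB (μ := μ) (s := s) (-a₁) (-a₂) hk₁.le hk₂.le hD.1 hD.2
      rw [add_comm (-a₂) (-a₁)] at q
      have e : (fun (η : Env) (S : Finset ℕ) => Rw μ s c₂ l₂ k₂ (-a₂) η S * Rw μ s c₁ l₁ k₁ (-a₁) η S) =
          fun η S => Rw μ s c₁ l₁ k₁ (-a₁) η S * Rw μ s c₂ l₂ k₂ (-a₂) η S := by
        funext η S
        ring
      rw [e]
      exact q
    · exact (flp_AB (μ := μ) (s := s) (-a₂) (-a₁) hk₂.le hk₁.le hD.1 hD.2).swap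
  have w1 : |(-a₁ : ℤ)| ≤ 2 := ia₁.trans (by norm_num)
  have w2 : |(-a₂ : ℤ)| ≤ 2 := ia₂.trans (by norm_num)
  have w3 : |(-a₁ + -a₂ : ℤ)| ≤ 2 := by
    refine (abs_add_le _ _).trans ?_
    linarith
  have w0 : |(0 : ℤ)| ≤ 2 := by norm_num
  have mk : ∀ {ua ub w : ℤ} {Λ : Env → Finset ℕ → ℝ}, Flp μ s N c₁ l₁ c₂ l₂ ua ub w Λ → |ua| ≤ 1 → |ub| ≤ 1 → |w| ≤ 2 →
      ∃ qa qb : Env → ℝ, Integrable qa (law μ) ∧ Integrable qb (law μ) ∧ (∀ η, 0 ≤ qa η) ∧ (∀ η, 0 ≤ qb η) ∧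
        ∫ η, qa η ∂(law μ) ≤ Real.exp (-(N : ℝ) ^ ca) ∧ ∫ η, qb η ∂(law μ) ≤ Real.exp (-(N : ℝ) ^ cb) ∧
        (∀ η, mf (fun S : Px (Pn N y) => pth μ s η N S.1) (fun S => Λ η S.1) (fun S => P (dw c₁ l₁ S.1) (dw c₂ l₂ S.1)) ≤ 2 * qa η) ∧
        ∀ η, mf (fun S : Px (Pn N y) => pth μ s η N S.1) (fun S => Λ η S.1) (fun S => P1 (dw c₁ l₁ S.1) (dw c₂ l₂ S.1)) ≤ 2 * qb η := by
    intro ua ub w Λ hF hua hub hw
    obtain ⟨z0, z1, z2⟩ := hQa N (by omega) y (hy.mono (min_le_left _ _) y6) w hw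
    obtain ⟨-, -, z3⟩ := hQb N (by omega) y (hy.mono (min_le_right _ _) y6) w hw
    obtain ⟨qa, i1, i2, i3, i4⟩ := mass_of_flp hF hua hub P hPa hia z0 z1 z2
    obtain ⟨qb, j1, j2, j3, j4⟩ := mass_of_flp hF hua hub P1 hPb hib z0 z1 z3
    exact ⟨qa, qb, i1, j1, i2, j2, i3, j3, i4, j4⟩
  obtain ⟨qa1, qb1, A1, B1, C1, D1, E1, G1, H1, I1⟩ := mk F1 iz iz w0
  obtain ⟨qa2, qb2, A2, B2, C2, D2, E2, G2, H2, I2⟩ := mk FR ia₁ iz w1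
  obtain ⟨qa3, qb3, A3, B3, C3, D3, E3, G3, H3, I3⟩ := mk FQ iz ia₂ w2
  obtain ⟨qa4, qb4, A4, B4, C4, D4, E4, G4, H4, I4⟩ := mk FQR ia₁ ia₂ w3
  -- the bad event of the kicks
  obtain ⟨G, hG⟩ : ∃ G : Set Env, G = toMeasurable (law μ) ({η | ¬ KU μ s N δK ε' η} ∪ {η | ¬ KU μ s N δL ε₁ η}) := ⟨_, rfl⟩
  have mG : MeasurableSet G := by rw [hG]; exact measurableSet_toMeasurable _ _
  have hGs : {η | ¬ KU μ s N δK ε' η} ∪ {η | ¬ KU μ s N δL ε₁ η} ⊆ G := by rw [hG]; exact subset_toMeasurable _ _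
  have hGm : (law μ).real G ≤ Real.exp (-(N : ℝ) ^ cK) + Real.exp (-(N : ℝ) ^ cL) := by
    have q1 : law μ G ≤ ENNReal.ofReal (Real.exp (-(N : ℝ) ^ cK) + Real.exp (-(N : ℝ) ^ cL)) := by
      rw [hG, measure_toMeasurable, ENNReal.ofReal_add (Real.exp_pos _).le (Real.exp_pos _).le]
      exact (measure_union_le _ _).trans (add_le_add (hK N (by omega)) (hL N (by omega)))
    exact ENNReal.toReal_le_of_le_ofReal (by positivity) q1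
  obtain ⟨u, hu⟩ : ∃ u : ℝ, u = (N : ℝ) ^ ε₁ := ⟨_, rfl⟩
  have hu0 : 0 ≤ u := by rw [hu]; positivity
  -- the bounds of the kicks
  have hpos : ∀ (S : Px (Pn N y)) (r : ℕ), r ≤ N → |ps S r| ≤ 2 * (N : ℤ) := by
    intro S r hr
    have q1 := Mod92.ps_nonneg S r
    have q2 := Mod92.ps_le S r
    rw [abs_of_nonneg q1]
    have q3 : (r : ℤ) ≤ N := by exact_mod_cast hr
    omega
  have hpN : ∀ l : ℕ, (N : ℝ) ^ θ ≤ l → (N : ℝ) ^ ε' ≤ l := fun l hl =>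
    (Real.rpow_le_rpow_of_exponent_le hNR hε'θ).trans hl
  have hpN1 : ∀ l : ℕ, (N : ℝ) ^ θ ≤ l → (N : ℝ) ^ ε₁ ≤ l := fun l hl =>
    (Real.rpow_le_rpow_of_exponent_le hNR hε₁θ).trans hl
  have hBε : (N : ℝ) ^ ε' ≤ B := (Real.rpow_le_rpow_of_exponent_le hNR hε'B).trans hB
  have iabs : ∀ {a₀ : ℤ}, (a₀ = 1 ∨ a₀ = -1) → |(-a₀ : ℤ)| ≤ 1 ∧ |(a₀ : ℤ)| ≤ 1 := fun ha₀ => by
    rcases ha₀ with e | e <;> rw [e] <;> norm_num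
  have hflat : ∀ (η : Env) (_ : KU μ s N δK ε' η) {a₀ : ℤ} (_ : a₀ = 1 ∨ a₀ = -1) {c l k : ℕ} (_ : c + l ≤ N) (_ : (N : ℝ) ^ θ ≤ l)
      (_ : k < l) (S : Px (Pn N y)), Flat μ s δ l a₀ (ps S (c + l) - ps S c) → Kb μ s η B c l k a₀ S := by
    intro η kK a₀ ha₀ c l k hcl hl hk S hf
    have q1 := cone_of_flat ha₀ (hM₃ N (by omega) l hl) hf
    have q2 := hM₁ N (by omega) l hl
    refine ⟨(kick_bd kK hcl (hpN l hl) hk (hpos S c (by omega)) (iabs ha₀).1 hκK q1 (hwd l hl)).trans hBε, ?_⟩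
    have r1 := in_of_cone q2.1 q2.2 q1 a₀ (iabs ha₀).2
    have r2 := in_of_cone q2.1 q2.2 q1 0 (by norm_num)
    rw [add_zero] at r2
    exact exp_lk η hk.le (by linarith only [r1.1]) (by linarith only [r1.2]) r2.1 r2.2
  have hsmall : ∀ (η : Env) (_ : KU μ s N δL ε₁ η) {a₀ : ℤ} (_ : a₀ = 1 ∨ a₀ = -1) {c l k : ℕ} (_ : c + l ≤ N) (_ : (N : ℝ) ^ θ ≤ l)
      (_ : k < l) (S : Px (Pn N y)), |((dw c l S.1 : ℤ) : ℝ) - sl μ s * l| ≤ (l : ℝ) ^ κ₁ * wd μ s l → Kb μ s η u c l k a₀ S := by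
    intro η kL a₀ ha₀ c l k hcl hl hk S hd
    have q2 := hM₂ N (by omega) l hl
    have hd' : |((ps S (c + l) - ps S c : ℤ) : ℝ) - sl μ s * l| ≤ (l : ℝ) ^ κ₁ * wd μ s l := hd
    refine ⟨?_, ?_⟩
    · rw [hu]
      exact kick_bd kL hcl (hpN1 l hl) hk (hpos S c (by omega)) (iabs ha₀).1 hκ₁L hd' (hwd l hl)
    · have r1 := in_of_cone q2.1 q2.2 hd' a₀ (iabs ha₀).2
      have r2 := in_of_cone q2.1 q2.2 hd' 0 (by norm_num)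
      rw [add_zero] at r2
      exact exp_lk η hk.le (by linarith only [r1.1]) (by linarith only [r1.2]) r2.1 r2.2
  -- the pointwise bound
  have key : ∀ η, tv (fun S : Px (Pn N y) => Real.exp (wk μ s η N y δ B c₂ l₂ k₂ a₂ t S +
          (-a₁ - a₁) * gw μ s η δ B a₁ c₁ l₁ k₁ (ps S c₁) (ps S (c₁ + l₁))))
        (fun S : Px (Pn N y) => Real.exp (wk μ s η N y δ B c₂ l₂ k₂ a₂ t S) * Rw μ s c₁ l₁ k₁ (-a₁) η S.1) ≤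
      G.indicator (fun _ => (2 : ℝ)) η + (16 * Real.exp (4 * u) * (qa1 η + qa2 η + qa3 η + qa4 η) +
        8 * (qb1 η + qb2 η + qb3 η + qb4 η)) := by
    intro η
    have t2 : tv (fun S : Px (Pn N y) => Real.exp (wk μ s η N y δ B c₂ l₂ k₂ a₂ t S +
          (-a₁ - a₁) * gw μ s η δ B a₁ c₁ l₁ k₁ (ps S c₁) (ps S (c₁ + l₁))))
        (fun S : Px (Pn N y) => Real.exp (wk μ s η N y δ B c₂ l₂ k₂ a₂ t S) * Rw μ s c₁ l₁ k₁ (-a₁) η S.1) ≤ 2 :=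
      tv_le_two (fun S => (Real.exp_pos _).le) fun S => mul_nonneg (Real.exp_pos _).le (Rw_nonneg _ _ _ _ _ _)
    have n1 := C1 η
    have n2 := C2 η
    have n3 := C3 η
    have n4 := C4 η
    have n5 := D1 η
    have n6 := D2 η
    have n7 := D3 η
    have n8 := D4 η
    have p1 : 0 ≤ 16 * Real.exp (4 * u) * (qa1 η + qa2 η + qa3 η + qa4 η) :=
      mul_nonneg (by positivity) (by linarith only [n1, n2, n3, n4])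
    by_cases hη : η ∈ G
    · rw [Set.indicator_of_mem hη]
      linarith only [t2, p1, n5, n6, n7, n8]
    rw [Set.indicator_of_notMem hη, zero_add]
    have kK : KU μ s N δK ε' η := by
      by_contra hc
      exact hη (hGs (Or.inl hc))
    have kL : KU μ s N δL ε₁ η := by
      by_contra hc
      exact hη (hGs (Or.inr hc))
    by_cases m1 : mf (fun S : Px (Pn N y) => pth μ s η N S.1) (fun _ => 1) (fun S => P1 (dw c₁ l₁ S.1) (dw c₂ l₂ S.1)) ≤ 1 / 2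
    swap
    · have := I1 η
      rw [not_le] at m1
      linarith only [this, m1, t2, p1, n5, n6, n7, n8]
    by_cases m2 : mf (fun S : Px (Pn N y) => pth μ s η N S.1) (fun S => Rw μ s c₁ l₁ k₁ (-a₁) η S.1)
        (fun S => P1 (dw c₁ l₁ S.1) (dw c₂ l₂ S.1)) ≤ 1 / 2
    swap
    · have := I2 η
      rw [not_le] at m2
      linarith only [this, m2, t2, p1, n5, n6, n7, n8]
    by_cases m3 : mf (fun S : Px (Pn N y) => pth μ s η N S.1) (fun S => Rw μ s c₂ l₂ k₂ (-a₂) η S.1)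
        (fun S => P1 (dw c₁ l₁ S.1) (dw c₂ l₂ S.1)) ≤ 1 / 2
    swap
    · have := I3 η
      rw [not_le] at m3
      linarith only [this, m3, t2, p1, n5, n6, n7, n8]
    by_cases m4 : mf (fun S : Px (Pn N y) => pth μ s η N S.1)
        (fun S => Rw μ s c₂ l₂ k₂ (-a₂) η S.1 * Rw μ s c₁ l₁ k₁ (-a₁) η S.1) (fun S => P1 (dw c₁ l₁ S.1) (dw c₂ l₂ S.1)) ≤ 1 / 2
    swap
    · have := I4 η
      rw [not_le] at m4
      linarith only [this, m4, t2, p1, n5, n6, n7, n8]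
    have hT := point48 (μ := μ) (s := s) (η := η) (N := N) (y := y) (δ := δ) (k₁ := k₁) (k₂ := k₂)
      (st := fun S => P (dw c₁ l₁ S.1) (dw c₂ l₂ S.1)) (s1 := fun S => P1 (dw c₁ l₁ S.1) (dw c₂ l₂ S.1)) ha₁ ha₂ ht hB0 hu0
      (fun S => by rw [hPd]; exact Iff.rfl) (hflat η kK ha₁ hcl₁ hl₁ hk₁) (hflat η kK ha₂ hcl₂ hl₂ hk₂)
      (fun S hS => by
        rw [hP1d, not_not] at hS
        exact hsmall η kL ha₁ hcl₁ hl₁ hk₁ S hS.1)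
      (fun S hS => by
        rw [hP1d, not_not] at hS
        exact hsmall η kL ha₂ hcl₂ hl₂ hk₂ S hS.2) m1 m2 m3 m4
    refine hT.trans ?_
    have s5 : 0 ≤ 8 * Real.exp (4 * u) := by positivity
    have s6 := mul_le_mul_of_nonneg_left (add_le_add (add_le_add (add_le_add (H1 η) (H2 η)) (H3 η)) (H4 η)) s5
    refine s6.trans ?_
    linarith only [n5, n6, n7, n8]
  -- the integral
  obtain ⟨hRi, hRe⟩ := int_sum mG (16 * Real.exp (4 * u)) A1 A2 A3 A4 B1 B2 B3 B4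
  refine (integral_mono_of_nonneg (Eventually.of_forall fun η => tv_nonneg _ _) hRi (Eventually.of_forall key)).trans ?_
  rw [hRe]
  have g1 : 16 * Real.exp (4 * u) * (∫ η, qa1 η ∂(law μ) + ∫ η, qa2 η ∂(law μ) + ∫ η, qa3 η ∂(law μ) + ∫ η, qa4 η ∂(law μ)) ≤
      16 * Real.exp (4 * u) * (4 * Real.exp (-(N : ℝ) ^ ca)) :=
    mul_le_mul_of_nonneg_left (by linarith only [E1, E2, E3, E4]) (by positivity)
  have g2 : Real.exp (4 * u) * Real.exp (-(N : ℝ) ^ ca) ≤ Real.exp (-(1 / 2 * (N : ℝ) ^ ca)) := by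
    rw [← Real.exp_add]
    refine Real.exp_le_exp.2 ?_
    rw [hu]
    linarith only [y5]
  rw [one_mul] at y1 y2 y4
  have z1 := Real.exp_pos (-(N : ℝ) ^ cK)
  have z2 := Real.exp_pos (-(N : ℝ) ^ cL)
  linarith only [g1, g2, y1, y2, y3, y4, z1, z2, hGm, G1, G2, G3, G4]

/-- Without a second window. -/
theorem tv48_one (h : In μ s c C n₀) {θ εB : ℝ} (hθ : 0 < θ) (hεB : 0 < εB) : ∃ δ₀ : ℝ, 0 < δ₀ ∧ ∀ δ : ℝ, 0 < δ → δ ≤ δ₀ →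
    ∃ δ' : ℝ, 0 < δ' ∧ ∃ c' : ℝ, 0 < c' ∧ ∃ N₀ : ℕ, ∀ N : ℕ, N₀ ≤ N → ∀ y : ℕ, EndOk μ s δ' N y → ∀ B : ℝ, (N : ℝ) ^ εB ≤ B →
    ∀ c₁ l₁ k₁ : ℕ, (N : ℝ) ^ θ ≤ l₁ → k₁ < l₁ → c₁ + l₁ ≤ N → 3 * l₁ ≤ N → ∀ a₁ : ℤ, (a₁ = 1 ∨ a₁ = -1) →
    ∫ η, tv (fun S : Px (Pn N y) => Real.exp (wk μ s η N y δ B c₁ l₁ k₁ a₁ (-a₁) S))
        (fun S : Px (Pn N y) => Real.exp (lw μ s η N (Pn N y) S) * Rw μ s c₁ l₁ k₁ (-a₁) η S.1) ∂(law μ) ≤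
      Real.exp (-(N : ℝ) ^ c') := by
  obtain ⟨δ₀, hδ₀, hT⟩ := tv48 h hθ hεB
  refine ⟨δ₀, hδ₀, fun δ hδ hδ1 => ?_⟩
  obtain ⟨δ', hδ', c', hc', N₀, hN₀⟩ := hT δ hδ hδ1
  refine ⟨δ', hδ', c', hc', N₀, fun N hN y hy B hB c₁ l₁ k₁ hl₁ hk₁ hcl h3 a₁ ha₁ => ?_⟩
  -- the second window: before or behind the first one
  obtain ⟨c₂, hD⟩ : ∃ c₂ : ℕ, Dj N c₁ l₁ c₂ l₁ := by
    rcases le_total l₁ c₁ with hh | hh
    · exact ⟨0, Or.inr ⟨by omega, hcl⟩⟩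
    · exact ⟨c₁ + l₁, Or.inl ⟨le_rfl, by omega⟩⟩
  have h1 := hN₀ N hN y hy B hB c₁ l₁ k₁ c₂ l₁ k₁ hl₁ hl₁ hk₁ hk₁ hD a₁ 1 ha₁ (Or.inl rfl) 1 (by norm_num)
  have e1 : ∀ (η : Env) (S : Px (Pn N y)), wk μ s η N y δ B c₂ l₁ k₁ 1 1 S = lw μ s η N (Pn N y) S := fun η S => by
    unfold wk
    push_cast
    ring
  simp only [e1] at h1
  exact h1

end

end Pool.Agent.W_7d29a1_C0.Tv48
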