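import Pool.Agent.W_7d29a1_C0.TvF48

/-!
MP_7d29a1_pr, [CURV0], leaf E7b, complement: masses of the steep windows and of the large kicks, under the pinned polymer and under the
law with one exact kick of a smaller window. `Dom μ f e`: `f` is dominated by an integrable function with integral at most `e`.
`cone48`, `steep48`, `small48`, `tot48`. (helper48)
-/

set_option autoImplicit false

namespace Pool.Agent.W_7d29a1_C0.Tv48

open Pool.Agent.W_7d29a1_F hiding W_pos W_nonneg W_add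
open Finset MeasureTheory Filter Topology Pool.Agent.W_7d29a1_X Pool.Agent.W_7d29a1_HZ
open Pool.Agent.W_7d29a1_HS (In wd)
open Pool.Agent.W_7d29a1_H (sl)
open Pool.Agent.W_7d29a1_Z74
open Pool.Agent.W_7d29a1_HZ.Z74
open Pool.Agent.W_7d29a1_C0.Flip61 (Rk cn sum_flip pos_split Rk_nonneg)
open Pool.Agent.W_7d29a1_C0.Mod92 (Px Pn ps lk cl Flat gw lw)
open Pool.Agent.W_7d29a1_C0.Loc14 (Qp Qp_nonneg measurable_Qp lint_Qp)
open Pool.Agent.W_7d29a1_C0.K14 (KU kick14_unit ZJ_pos)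
open scoped ENNReal

noncomputable section

/-! ### Domination -/

/-- `f` is dominated by a nonnegative integrable function of the environment with integral at most `e`. -/
def Dom (μ : Measure ℝ) (f : Env → ℝ) (e : ℝ) : Prop :=
  ∃ R : Env → ℝ, Integrable R (law μ) ∧ (∀ η, 0 ≤ R η) ∧ ∫ η, R η ∂(law μ) ≤ e ∧ ∀ η, f η ≤ R η

variable {μ : Measure ℝ} {s : ℝ}

theorem Dom.mono {f g : Env → ℝ} {e e' : ℝ} (h : Dom μ f e) (hfg : ∀ η, g η ≤ f η) (he : e ≤ e') : Dom μ g e' := by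
  obtain ⟨R, h1, h2, h3, h4⟩ := h
  exact ⟨R, h1, h2, h3.trans he, fun η => (hfg η).trans (h4 η)⟩

theorem Dom.add {f g : Env → ℝ} {e e' : ℝ} (h : Dom μ f e) (h' : Dom μ g e') : Dom μ (fun η => f η + g η) (e + e') := by
  obtain ⟨R, h1, h2, h3, h4⟩ := h
  obtain ⟨R', k1, k2, k3, k4⟩ := h'
  refine ⟨fun η => R η + R' η, h1.add k1, fun η => add_nonneg (h2 η) (k2 η), ?_, fun η => add_le_add (h4 η) (k4 η)⟩
  rw [integral_add h1 k1]
  exact add_le_add h3 k3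

theorem Dom.const_mul {f : Env → ℝ} {e : ℝ} (h : Dom μ f e) {r : ℝ} (hr : 0 ≤ r) : Dom μ (fun η => r * f η) (r * e) := by
  obtain ⟨R, h1, h2, h3, h4⟩ := h
  refine ⟨fun η => r * R η, h1.const_mul _, fun η => mul_nonneg hr (h2 η), ?_, fun η => mul_le_mul_of_nonneg_left (h4 η) hr⟩
  rw [integral_const_mul]
  exact mul_le_mul_of_nonneg_left h3 hr

theorem Dom.int {f : Env → ℝ} {e : ℝ} (h : Dom μ f e) (h0 : ∀ η, 0 ≤ f η) : ∫ η, f η ∂(law μ) ≤ e := by
  obtain ⟨R, h1, _, h3, h4⟩ := h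
  exact (integral_mono_of_nonneg (Eventually.of_forall h0) h1 (Eventually.of_forall h4)).trans h3

theorem dom_ind [IsProbabilityMeasure μ] {G : Set Env} (hG : MeasurableSet G) {e : ℝ} (he : (law μ).real G ≤ e) {f : Env → ℝ}
    (h1 : ∀ η, f η ≤ 1) (h2 : ∀ η, η ∉ G → f η ≤ 0) : Dom μ f e := by
  refine ⟨G.indicator fun _ => (1 : ℝ), (integrable_const _).indicator hG, fun η => Set.indicator_nonneg (fun _ _ => zero_le_one) η, ?_,
    fun η => ?_⟩
  · rw [integral_indicator hG, setIntegral_const, smul_eq_mul, mul_one]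
    exact he
  · by_cases hη : η ∈ G
    · rw [Set.indicator_of_mem hη]
      exact h1 η
    · rw [Set.indicator_of_notMem hη]
      exact h2 η hη

section Mf

variable {X : Type*} [Fintype X] {A Λ : X → ℝ}

open Classical in
theorem mf_mono (hA : ∀ x, 0 ≤ A x) (hΛ : ∀ x, 0 ≤ Λ x) {st st' : X → Prop} (h : ∀ x, st x → st' x) : mf A Λ st ≤ mf A Λ st' := by
  unfold mf
  refine div_le_div_of_nonneg_right (sum_le_sum fun x _ => ?_) (sum_nonneg fun x _ => mul_nonneg (hA x) (hΛ x))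
  by_cases h1 : st x
  · rw [if_pos h1, if_pos (h x h1)]
  · rw [if_neg h1]
    split_ifs
    · exact mul_nonneg (hA x) (hΛ x)
    · exact le_rfl

end Mf

/-! ### The flip of a window inside of another one -/

theorem flipN (η : Env) {N c l k c' l' : ℕ} (v : ℤ) (hk : k ≤ l) (h1 : c' ≤ c) (h2 : c + l ≤ c' + l') (h3 : c' + l' ≤ N)
    (Ψ : ℤ → ℤ → ℝ) :
    ∑ S ∈ (range N).powerset, pth μ s η N S * (Rk μ s η c k (l - k) v (pos S c) (pos S (c + l)) * Ψ (dw c' l' S) (pos S N)) =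
      ∑ S ∈ (range N).powerset, pth μ s (shj ((c + k : ℕ) : ℤ) v η) N S * (okw l (dw c l S + v) *
        Ψ (dw c' l' S + v) (pos S N + v)) := by
  obtain ⟨q, rfl⟩ : ∃ q, N = c + (k + (l - k)) + q := ⟨N - (c + l), by omega⟩
  have el : k + (l - k) = l := by omega
  have h := sum_flip (μ := μ) (s := s) η c k (l - k) q v
    (fun A z C => Ψ (z + cn C (c' + l') - pos A c') (z + cn C (c + (k + (l - k)) + q)))
  rw [el] at h ⊢
  have hp : ∀ S : Finset ℕ, ∀ u : ℕ, c + l ≤ u → pos S (c + l) + cn (S \ range (c + l)) u = pos S u :=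
    fun S u hu => (pos_split hu).symm
  have hp' : ∀ S : Finset ℕ, ∀ u : ℕ, c + l ≤ u →
      pos S (c + l) + v + cn (S \ range (c + l)) u = pos S u + v := fun S u hu => by
    rw [← hp S u hu]
    ring
  have hL : ∀ S : Finset ℕ, pos S (c' + l') - pos (S ∩ range c) c' = dw c' l' S := fun S => by
    rw [pos_inter _ h1]
    rfl
  have hL' : ∀ S : Finset ℕ, pos S (c' + l') + v - pos (S ∩ range c) c' = dw c' l' S + v := fun S => by
    rw [pos_inter _ h1]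
    unfold dw
    ring
  have hc : ∀ S : Finset ℕ, pos S (c + l) + v - pos S c = dw c l S + v := fun S => by
    unfold dw
    ring
  simp only [hp _ _ h2, hp _ _ (show c + l ≤ c + l + q by omega), hL, hp' _ _ h2, hp' _ _ (show c + l ≤ c + l + q by omega), hL',
    hc] at h
  exact h

/-- The displacement of the window is out of the cone. -/
def OutC (μ : Measure ℝ) (s κ : ℝ) (c l : ℕ) (S : Finset ℕ) : Prop :=
  ¬ (|((dw c l S : ℤ) : ℝ) - sl μ s * l| + 1 ≤ (l : ℝ) ^ κ * wd μ s l)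

variable [IsProbabilityMeasure μ] {c₀ C : ℝ} {n₀ : ℕ}

/-- **THE MASS OF THE WINDOWS OUT OF THE CONE**, under the pinned polymer and under one exact kick of a window inside. -/
theorem cone48 (h : In μ s c₀ C n₀) {θ κ : ℝ} (hθ : 0 < θ) (hκ : 0 < κ) : ∃ δ' : ℝ, 0 < δ' ∧ ∃ cc : ℝ, 0 < cc ∧ ∃ N₀ : ℕ,
    ∀ N : ℕ, N₀ ≤ N → ∀ y : ℕ, EndOk μ s δ' N y → ∀ c l k c' l' : ℕ, (N : ℝ) ^ θ ≤ l → k ≤ l → c' ≤ c → c + l ≤ c' + l' →
    c' + l' ≤ N → ∀ v : ℤ, |v| ≤ 1 →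
    Dom μ (fun η => mf (fun S : Px (Pn N y) => pth μ s η N S.1) (fun _ => 1) (fun S => OutC μ s κ c' l' S.1))
      (Real.exp (-(N : ℝ) ^ cc)) ∧
    Dom μ (fun η => mf (fun S : Px (Pn N y) => pth μ s η N S.1) (fun S => Rw μ s c l k v η S.1) (fun S => OutC μ s κ c' l' S.1))
      (Real.exp (-(N : ℝ) ^ cc)) := by
  obtain ⟨a, ha, ha1, hcA, hcB, hcC⟩ := cone_num h hθ
  obtain ⟨κ', hκ'⟩ : ∃ κ' : ℝ, κ' = min κ (a / 2) := ⟨_, rfl⟩
  have hκ'0 : 0 < κ' := hκ' ▸ lt_min hκ (by linarith)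
  have hκ'κ : κ' ≤ κ := hκ' ▸ min_le_left _ _
  have hκ'a : κ' < a := lt_of_le_of_lt (hκ' ▸ min_le_right _ _) (by linarith)
  obtain ⟨ε, hε⟩ : ∃ ε : ℝ, ε = θ * (κ' / 2) / 2 := ⟨_, rfl⟩
  have hε0 : 0 < ε := by rw [hε]; positivity
  have hε1 : ε < θ * (κ' / 2) := by rw [hε]; nlinarith [mul_pos hθ hκ'0]
  obtain ⟨δ', hδ', cq, hcq, N₁, hQ⟩ := int_Qp (μ := μ) (s := s) h hε0
  obtain ⟨M₁, hM₁⟩ := hcA κ' hκ'0 hκ'a
  obtain ⟨M₂, hM₂⟩ := hcB (κ' / 2) κ' (by positivity) (by linarith)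
  obtain ⟨M₃, hM₃⟩ := hcC (κ' / 2) ε (by positivity) hε0 hε1
  have x1 : ∀ᶠ N : ℕ in atTop, 2 * (N : ℝ) ^ (0 : ℝ) * Real.exp (-(1 * (N : ℝ) ^ cq)) ≤ 1 / 2 * Real.exp (-(N : ℝ) ^ (cq / 2)) :=
    ev_exp (by norm_num) one_pos hcq (by linarith) 0
  obtain ⟨M₀, hM₀⟩ := (x1.and (eventually_ge_atTop 1)).exists_forall_of_atTop
  refine ⟨δ', hδ', cq / 2, by linarith, M₀ + N₁ + M₁ + M₂ + M₃, fun N hN y hy c l k c' l' hl hk h1 h2 h3 v hv => ?_⟩
  obtain ⟨y1, y2⟩ := hM₀ N (by omega)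
  rw [Real.rpow_zero, one_mul, mul_one] at y1
  have y3 := Real.exp_pos (-(N : ℝ) ^ (cq / 2))
  have hNR : (1 : ℝ) ≤ N := by exact_mod_cast y2
  have hl1 : (1 : ℝ) ≤ l := (Real.one_le_rpow hNR hθ.le).trans hl
  have hl1' : 1 ≤ l := by exact_mod_cast hl1
  have hl' : (N : ℝ) ^ θ ≤ l' := by
    have q1 : l ≤ l' := by omega
    have q2 : (l : ℝ) ≤ l' := by exact_mod_cast q1
    exact hl.trans q2
  have hvR : |(v : ℝ)| ≤ 1 := by exact_mod_cast hv
  have hwd : ∀ l : ℕ, 0 ≤ wd μ s l := fun l => by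
    unfold Pool.Agent.W_7d29a1_HS.wd
    exact mul_nonneg (Nat.cast_nonneg _) (h.vA_nonneg l)
  -- the paths without steep places
  have hin : ∀ S, NSp μ s N N ε S → 0 ≤ dw c l S + v ∧ dw c l S + v ≤ l := by
    intro S hS
    have q1 : |((dw c l S : ℤ) : ℝ) - sl μ s * l| ≤ (N : ℝ) ^ ε * wd' μ s l := hS _ _ hl1' (by omega)
    have q2 := hM₃ N (by omega) l hl
    have q3 := hM₂ N (by omega) l hl
    have q4 := hM₁ N (by omega) l hl
    exact in_of_cone q4.1 q4.2 (q1.trans (by linarith)) v hv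
  have hout : ∀ S, NSp μ s N N ε S → ∀ u : ℤ, |u| ≤ 1 →
      ¬ ¬ (|((dw c' l' S + u : ℤ) : ℝ) - sl μ s * l'| + 1 ≤ (l' : ℝ) ^ κ * wd μ s l') := by
    intro S hS u hu
    rw [not_not]
    have huR : |(u : ℝ)| ≤ 1 := by exact_mod_cast hu
    have q1 : |((dw c' l' S : ℤ) : ℝ) - sl μ s * l'| ≤ (N : ℝ) ^ ε * wd' μ s l' := hS _ _ (by omega) (by omega)
    have q2 := hM₃ N (by omega) l' hl'
    have q3 := hM₂ N (by omega) l' hl'
    have hl'1 : (1 : ℝ) ≤ l' := (Real.one_le_rpow hNR hθ.le).trans hl'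
    have q4 : (l' : ℝ) ^ κ' * wd μ s l' ≤ (l' : ℝ) ^ κ * wd μ s l' :=
      mul_le_mul_of_nonneg_right (Real.rpow_le_rpow_of_exponent_le hl'1 hκ'κ) (hwd _)
    have e1 : ((dw c' l' S + u : ℤ) : ℝ) - sl μ s * l' = (((dw c' l' S : ℤ) : ℝ) - sl μ s * l') + u := by
      push_cast
      ring
    rw [e1]
    have q5 := abs_add_le (((dw c' l' S : ℤ) : ℝ) - sl μ s * l') (u : ℝ)
    linarith
  constructor
  · obtain ⟨z0, z1, z2⟩ := hQ N (by omega) y hy 0 (by norm_num)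
    refine ⟨fun η => 2 * Qp μ s η N ε (y - 0), (integrable_Qp z0 z1).const_mul _, fun η => mul_nonneg zero_le_two (Qp_nonneg _ _ _ _),
      ?_, fun η => ?_⟩
    · rw [integral_const_mul]
      linarith
    · exact mf_of_flip (η := η) (η' := η) (ca := c') (la := l') (cb := c') (lb := l') (ua := 0) (ub := 0) (w := 0)
        (Λ := fun _ => (1 : ℝ)) (A := fun _ => (1 : ℝ))
        (fun Ψ => by simp only [add_zero]) (fun _ => zero_le_one) (fun _ => le_rfl) (fun _ _ => rfl)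
        (fun d _ => ¬ (|(d : ℝ) - sl μ s * l'| + 1 ≤ (l' : ℝ) ^ κ * wd μ s l')) (fun S hS => hout S hS 0 (by norm_num)) z0 z1
  · obtain ⟨z0, z1, z2⟩ := hQ N (by omega) y hy v (hv.trans (by norm_num))
    have hT : MeasurePreserving (shj ((c + k : ℕ) : ℤ) v) (law μ) (law μ) := mp_shj _ _
    refine ⟨fun η => 2 * Qp μ s (shj ((c + k : ℕ) : ℤ) v η) N ε (y - v), ?_, fun η => mul_nonneg zero_le_two (Qp_nonneg _ _ _ _),
      ?_, fun η => ?_⟩
    · exact ((hT.integrable_comp (measurable_Qp N ε (y - v)).aestronglyMeasurable).2 (integrable_Qp z0 z1)).const_mul _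
    · rw [integral_const_mul]
      have e1 : ∫ η, Qp μ s (shj ((c + k : ℕ) : ℤ) v η) N ε (y - v) ∂(law μ) = ∫ η, Qp μ s η N ε (y - v) ∂(law μ) := by
        rw [← hT.map_eq, integral_map hT.measurable.aemeasurable (measurable_Qp N ε (y - v)).aestronglyMeasurable, hT.map_eq]
      rw [e1]
      linarith
    · refine mf_of_flip (η := η) (η' := shj ((c + k : ℕ) : ℤ) v η) (ca := c') (la := l') (cb := c') (lb := l') (ua := v) (ub := v)
        (w := v) (Λ := Rw μ s c l k v η) (A := fun S => okw l (dw c l S + v)) (fun Ψ => ?_) (fun _ => okw_nonneg _ _)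
        (fun _ => okw_le_one _ _) (fun S hS => okw_one (hin S hS))
        (fun d _ => ¬ (|(d : ℝ) - sl μ s * l'| + 1 ≤ (l' : ℝ) ^ κ * wd μ s l')) (fun S hS => hout S hS v hv) z0 z1
      exact flipN (μ := μ) (s := s) η v hk h1 h2 h3 fun d e => Ψ d d e

end

end Pool.Agent.W_7d29a1_C0.Tv48
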