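import Pool.Agent.W_7d29a1_C0.TvG48

/-!
MP_7d29a1_pr, [CURV0], leaf E7b, complement: masses of the steep windows (`steep48`) and of the large kicks (`small48`). (helper48)
-/

set_option autoImplicit false

namespace Pool.Agent.W_7d29a1_C0.Tv48

open Pool.Agent.W_7d29a1_F hiding W_pos W_nonneg W_add
open Finset MeasureTheory Filter Topology Pool.Agent.W_7d29a1_X Pool.Agent.W_7d29a1_HZ
open Pool.Agent.W_7d29a1_HS (In wd)
open Pool.Agent.W_7d29a1_H (sl)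
open Pool.Agent.W_7d29a1_Z74
open Pool.Agent.W_7d29a1_HZ.Z74
open Pool.Agent.W_7d29a1_C0.Flip61 (Rk cn sum_flip pos_split Rk_nonneg)
open Pool.Agent.W_7d29a1_C0.Mod92 (Px Pn ps lk cl Flat gw lw)
open Pool.Agent.W_7d29a1_C0.K14 (KU kick14_unit ZJ_pos)
open scoped ENNReal

noncomputable section

variable {μ : Measure ℝ} {s : ℝ}

/-- Masses of sets which are included in each other off a small event. -/
theorem dom_sub [IsProbabilityMeasure μ] {X : Type*} [Fintype X] {A Λ : Env → X → ℝ} {st st' : Env → X → Prop} {G : Set Env}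
    (mG : MeasurableSet G) {e e1 : ℝ} (hG : (law μ).real G ≤ e1) (hA : ∀ η x, 0 ≤ A η x) (hΛ : ∀ η x, 0 ≤ Λ η x)
    (hD : Dom μ (fun η => mf (A η) (Λ η) (st' η)) e) (hs : ∀ η, η ∉ G → ∀ x, st η x → st' η x) :
    Dom μ (fun η => mf (A η) (Λ η) (st η)) (e1 + e) := by
  have hI : Dom μ (G.indicator fun _ => (1 : ℝ)) e1 :=
    dom_ind mG hG (fun η => Set.indicator_le_self' (fun _ _ => zero_le_one) η) fun η hη => by
      rw [Set.indicator_of_notMem hη]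
  refine (hI.add hD).mono (fun η => ?_) le_rfl
  have p1 : 0 ≤ mf (A η) (Λ η) (st' η) := mf_nonneg (hA η) (hΛ η) _
  by_cases hη : η ∈ G
  · rw [Set.indicator_of_mem hη]
    have p2 := mf_le_one (hA η) (hΛ η) (st η)
    linarith
  · rw [Set.indicator_of_notMem hη, zero_add]
    exact mf_mono (hA η) (hΛ η) (hs η hη)

theorem dom_imp [IsProbabilityMeasure μ] {X : Type*} [Fintype X] {A Λ : Env → X → ℝ} {st st' : Env → X → Prop} {e : ℝ}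
    (hA : ∀ η x, 0 ≤ A η x) (hΛ : ∀ η x, 0 ≤ Λ η x)
    (hD : Dom μ (fun η => mf (A η) (Λ η) (st' η)) e) (hs : ∀ η, ∀ x, st η x → st' η x) :
    Dom μ (fun η => mf (A η) (Λ η) (st η)) e :=
  hD.mono (fun η => mf_mono (hA η) (hΛ η) (hs η)) le_rfl

theorem flat_of_cone {δ : ℝ} {c l : ℕ} {a : ℤ} (ha : a = 1 ∨ a = -1) {S : Finset ℕ} (hS : ¬ Flat μ s δ l a (dw c l S)) :
    OutC μ s δ c l S := by
  intro hc
  refine hS ?_
  unfold Flat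
  have e1 : ((dw c l S : ℤ) : ℝ) + (a : ℝ) / 2 - sl μ s * l = (((dw c l S : ℤ) : ℝ) - sl μ s * l) + (a : ℝ) / 2 := by ring
  rw [e1]
  have q3 := abs_add_le (((dw c l S : ℤ) : ℝ) - sl μ s * l) ((a : ℝ) / 2)
  have q4 := half_abs ha
  linarith

variable [IsProbabilityMeasure μ] {c₀ C : ℝ} {n₀ : ℕ}

/-- **The mass of the steep windows.** -/
theorem steep48 (h : In μ s c₀ C n₀) {θ δ : ℝ} (hθ : 0 < θ) (hδ : 0 < δ) : ∃ δ' : ℝ, 0 < δ' ∧ ∃ cc : ℝ, 0 < cc ∧ ∃ N₀ : ℕ,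
    ∀ N : ℕ, N₀ ≤ N → ∀ y : ℕ, EndOk μ s δ' N y → ∀ c l k c' l' : ℕ, (N : ℝ) ^ θ ≤ l → k ≤ l → c' ≤ c → c + l ≤ c' + l' →
    c' + l' ≤ N → ∀ v : ℤ, |v| ≤ 1 → ∀ a' : ℤ, (a' = 1 ∨ a' = -1) →
    Dom μ (fun η => mf (fun S : Px (Pn N y) => pth μ s η N S.1) (fun _ => 1) (fun S => ¬ Flat μ s δ l' a' (dw c' l' S.1)))
      (Real.exp (-(N : ℝ) ^ cc)) ∧
    Dom μ (fun η => mf (fun S : Px (Pn N y) => pth μ s η N S.1) (fun S => Rw μ s c l k v η S.1)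
      (fun S => ¬ Flat μ s δ l' a' (dw c' l' S.1))) (Real.exp (-(N : ℝ) ^ cc)) := by
  obtain ⟨δ', hδ', cc, hcc, N₀, hN₀⟩ := cone48 h hθ hδ
  refine ⟨δ', hδ', cc, hcc, N₀, fun N hN y hy c l k c' l' hl hk h1 h2 h3 v hv a' ha' => ?_⟩
  obtain ⟨q1, q2⟩ := hN₀ N hN y hy c l k c' l' hl hk h1 h2 h3 v hv
  have hp : ∀ (η : Env) (S : Px (Pn N y)), 0 ≤ pth μ s η N S.1 := fun η S => (Mod92.pth_pos η N S.1).le
  have hr : ∀ (η : Env) (S : Px (Pn N y)), 0 ≤ Rw μ s c l k v η S.1 := fun η S => Rw_nonneg _ _ _ _ _ _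
  constructor
  · exact dom_imp (A := fun (η : Env) (S : Px (Pn N y)) => pth μ s η N S.1) (Λ := fun (_ : Env) (_ : Px (Pn N y)) => (1 : ℝ))
      (st := fun (_ : Env) (S : Px (Pn N y)) => ¬ Flat μ s δ l' a' (dw c' l' S.1))
      (st' := fun (_ : Env) (S : Px (Pn N y)) => OutC μ s δ c' l' S.1) hp (fun _ _ => zero_le_one) q1
      (fun _ S hS => flat_of_cone ha' hS)
  · exact dom_imp (A := fun (η : Env) (S : Px (Pn N y)) => pth μ s η N S.1) (Λ := fun (η : Env) (S : Px (Pn N y)) => Rw μ s c l k v η S.1)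
      (st := fun (_ : Env) (S : Px (Pn N y)) => ¬ Flat μ s δ l' a' (dw c' l' S.1))
      (st' := fun (_ : Env) (S : Px (Pn N y)) => OutC μ s δ c' l' S.1) hp hr q2
      (fun _ S hS => flat_of_cone ha' hS)

/-- **The mass of the large kicks.** -/
theorem small48 (h : In μ s c₀ C n₀) {θ κ : ℝ} (hθ : 0 < θ) (hκ : 0 < κ) : ∃ δ' : ℝ, 0 < δ' ∧ ∃ cc : ℝ, 0 < cc ∧ ∃ N₀ : ℕ,
    ∀ N : ℕ, N₀ ≤ N → ∀ y : ℕ, EndOk μ s δ' N y → ∀ c l k c' l' k' : ℕ, (N : ℝ) ^ θ ≤ l → k ≤ l → c' ≤ c → c + l ≤ c' + l' →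
    c' + l' ≤ N → k' < l' → ∀ v : ℤ, |v| ≤ 1 → ∀ v' : ℤ, |v'| ≤ 1 →
    Dom μ (fun η => mf (fun S : Px (Pn N y) => pth μ s η N S.1) (fun _ => 1)
      (fun S => ¬ |lk μ s η c' l' k' v' (ps S c') (ps S (c' + l'))| ≤ (N : ℝ) ^ κ)) (Real.exp (-(N : ℝ) ^ cc)) ∧
    Dom μ (fun η => mf (fun S : Px (Pn N y) => pth μ s η N S.1) (fun S => Rw μ s c l k v η S.1)
      (fun S => ¬ |lk μ s η c' l' k' v' (ps S c') (ps S (c' + l'))| ≤ (N : ℝ) ^ κ)) (Real.exp (-(N : ℝ) ^ cc)) := by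
  obtain ⟨ε, hε⟩ : ∃ ε : ℝ, ε = min κ θ := ⟨_, rfl⟩
  have hε0 : 0 < ε := hε ▸ lt_min hκ hθ
  have hεκ : ε ≤ κ := hε ▸ min_le_left _ _
  have hεθ : ε ≤ θ := hε ▸ min_le_right _ _
  obtain ⟨δK, cK, hδK, hcK, N₁, hK⟩ := kick14_unit h hε0
  obtain ⟨δ', hδ', c1, hc1, N₂, hN₂⟩ := cone48 h hθ hδK
  obtain ⟨m, hm⟩ : ∃ m : ℝ, m = min cK c1 := ⟨_, rfl⟩
  have hm0 : 0 < m := hm ▸ lt_min hcK hc1
  have hmK : m ≤ cK := hm ▸ min_le_left _ _
  have hm1 : m ≤ c1 := hm ▸ min_le_right _ _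
  have x1 : ∀ᶠ N : ℕ in atTop, 2 * (N : ℝ) ^ (0 : ℝ) * Real.exp (-(1 * (N : ℝ) ^ m)) ≤ 1 / 2 * Real.exp (-(N : ℝ) ^ (m / 2)) :=
    ev_exp (by norm_num) one_pos hm0 (by linarith) 0
  obtain ⟨M₀, hM₀⟩ := (x1.and (eventually_ge_atTop 1)).exists_forall_of_atTop
  refine ⟨δ', hδ', m / 2, by linarith, M₀ + N₁ + N₂, fun N hN y hy c l k c' l' k' hl hk h1 h2 h3 hk' v hv v' hv' => ?_⟩
  obtain ⟨y1, y2⟩ := hM₀ N (by omega)
  rw [Real.rpow_zero, one_mul, mul_one] at y1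
  have y3 := Real.exp_pos (-(N : ℝ) ^ (m / 2))
  have hNR : (1 : ℝ) ≤ N := by exact_mod_cast y2
  have hl' : (N : ℝ) ^ θ ≤ l' := by
    have q1 : l ≤ l' := by omega
    have q2 : (l : ℝ) ≤ l' := by exact_mod_cast q1
    exact hl.trans q2
  have hl'ε : (N : ℝ) ^ ε ≤ l' := (Real.rpow_le_rpow_of_exponent_le hNR hεθ).trans hl'
  have hNκ : (N : ℝ) ^ ε ≤ (N : ℝ) ^ κ := Real.rpow_le_rpow_of_exponent_le hNR hεκ
  have hwd : 0 ≤ wd μ s l' := by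
    unfold Pool.Agent.W_7d29a1_HS.wd
    exact mul_nonneg (Nat.cast_nonneg _) (h.vA_nonneg _)
  obtain ⟨q1, q2⟩ := hN₂ N (by omega) y hy c l k c' l' hl hk h1 h2 h3 v hv
  -- the bad event
  obtain ⟨G, hG⟩ : ∃ G : Set Env, G = toMeasurable (law μ) {η | ¬ KU μ s N δK ε η} := ⟨_, rfl⟩
  have mG : MeasurableSet G := by rw [hG]; exact measurableSet_toMeasurable _ _
  have hGs : {η | ¬ KU μ s N δK ε η} ⊆ G := by rw [hG]; exact subset_toMeasurable _ _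
  have hGm : (law μ).real G ≤ Real.exp (-(N : ℝ) ^ cK) := by
    refine ENNReal.toReal_le_of_le_ofReal (Real.exp_pos _).le ?_
    rw [hG, measure_toMeasurable]
    exact hK N (by omega)
  have e1 : Real.exp (-(N : ℝ) ^ cK) ≤ Real.exp (-(N : ℝ) ^ m) :=
    Real.exp_le_exp.2 (neg_le_neg (Real.rpow_le_rpow_of_exponent_le hNR hmK))
  have e2 : Real.exp (-(N : ℝ) ^ c1) ≤ Real.exp (-(N : ℝ) ^ m) :=
    Real.exp_le_exp.2 (neg_le_neg (Real.rpow_le_rpow_of_exponent_le hNR hm1))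
  have hsub : ∀ η, η ∉ G → ∀ S : Px (Pn N y), ¬ |lk μ s η c' l' k' v' (ps S c') (ps S (c' + l'))| ≤ (N : ℝ) ^ κ →
      OutC μ s δK c' l' S.1 := by
    intro η hη S hS hc
    refine hS ?_
    have kK : KU μ s N δK ε η := by
      by_contra hc
      exact hη (hGs hc)
    have q3 : |ps S c'| ≤ 2 * (N : ℤ) := by
      have q4 := Mod92.ps_nonneg S c'
      have q5 := Mod92.ps_le S c'
      rw [abs_of_nonneg q4]
      have q6 : (c' : ℤ) ≤ N := by exact_mod_cast (show c' ≤ N by omega)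
      omega
    have q4 : |((ps S (c' + l') - ps S c' : ℤ) : ℝ) - sl μ s * l'| ≤ (l' : ℝ) ^ δK * wd μ s l' := by
      have q5 : |((dw c' l' S.1 : ℤ) : ℝ) - sl μ s * l'| ≤ (l' : ℝ) ^ δK * wd μ s l' := by linarith only [hc]
      exact q5
    exact (kick_bd kK h3 hl'ε hk' q3 hv' le_rfl q4 hwd).trans hNκ
  have fin : Real.exp (-(N : ℝ) ^ cK) + Real.exp (-(N : ℝ) ^ c1) ≤ Real.exp (-(N : ℝ) ^ (m / 2)) := by linarith only [e1, e2, y1, y3]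
  have hp : ∀ (η : Env) (S : Px (Pn N y)), 0 ≤ pth μ s η N S.1 := fun η S => (Mod92.pth_pos η N S.1).le
  have hr : ∀ (η : Env) (S : Px (Pn N y)), 0 ≤ Rw μ s c l k v η S.1 := fun η S => Rw_nonneg _ _ _ _ _ _
  constructor
  · exact (dom_sub (A := fun (η : Env) (S : Px (Pn N y)) => pth μ s η N S.1) (Λ := fun (_ : Env) (_ : Px (Pn N y)) => (1 : ℝ))
      (st := fun (η : Env) (S : Px (Pn N y)) => ¬ |lk μ s η c' l' k' v' (ps S c') (ps S (c' + l'))| ≤ (N : ℝ) ^ κ)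
      (st' := fun (_ : Env) (S : Px (Pn N y)) => OutC μ s δK c' l' S.1) mG hGm hp (fun _ _ => zero_le_one) q1 hsub).mono
      (fun _ => le_rfl) fin
  · exact (dom_sub (A := fun (η : Env) (S : Px (Pn N y)) => pth μ s η N S.1)
      (Λ := fun (η : Env) (S : Px (Pn N y)) => Rw μ s c l k v η S.1)
      (st := fun (η : Env) (S : Px (Pn N y)) => ¬ |lk μ s η c' l' k' v' (ps S c') (ps S (c' + l'))| ≤ (N : ℝ) ^ κ)
      (st' := fun (_ : Env) (S : Px (Pn N y)) => OutC μ s δK c' l' S.1) mG hGm hp hr q2 hsub).mono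
      (fun _ => le_rfl) fin

end

end Pool.Agent.W_7d29a1_C0.Tv48
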