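import Pool.Agent.W_7d29a1_C0.TvI48
import Pool.Agent.W_7d29a1_C0.Mod92B

/-!
MP_7d29a1_pr, [CURV0], complement of leaf E7b: the part of the kick of a row above the level `N ^ κ` is small in the mean, at the
actual measure, together with its exponential factor (input of the truncation of the kick of helper70). (helper48)
-/

set_option autoImplicit false

namespace Pool.Agent.W_7d29a1_C0.Tv48

open Pool.Agent.W_7d29a1_F hiding W_pos W_nonneg W_add
open Finset MeasureTheory Filter Topology Pool.Agent.W_7d29a1_X Pool.Agent.W_7d29a1_HZ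
open Pool.Agent.W_7d29a1_HS (In wd)
open Pool.Agent.W_7d29a1_H (sl)
open Pool.Agent.W_7d29a1_Z74
open Pool.Agent.W_7d29a1_HZ.Z74
open Pool.Agent.W_7d29a1_C0.Mod92 (Px Pn ps lk cl Flat gw lw gg gj sr sg sg_or wm Pm int_Pm meas_wm meas_gg meas_gm meas_pair)
open Pool.W7d29a1.C0 (gz gm)
open scoped ENNReal

noncomputable section

section Abs

variable {X : Type*} [Fintype X]

/-- The mean of a function on the event `E` which is at most `2 + R`. -/
theorem gm_kick {w f A R : X → ℝ} {u : ℝ} {E bad : X → Prop} (hA : ∀ S, 0 < A S) (hw : ∀ S, Real.exp (w S) = A S)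
    (hR : ∀ S, 0 ≤ R S) (f1 : ∀ S, E S → f S ≤ 2 + R S) (f2 : ∀ S, ¬ E S → f S = 0) (h3 : ∀ S, ¬ bad S → R S ≤ Real.exp u)
    (m2 : mf A R bad ≤ 1 / 2) : gm w f ≤ 2 * mf A (fun _ => 1) E + 2 * Real.exp u * mf A R E := by
  classical
  have hA' : ∀ S, 0 ≤ A S := fun S => (hA S).le
  have k1 := mf_nonneg hA' (fun _ => zero_le_one) E
  have k2 := mf_nonneg hA' hR E
  have eu := Real.exp_pos u
  have k5 : 0 ≤ 2 * mf A (fun _ => 1) E + 2 * Real.exp u * mf A R E := by positivity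
  have g0 : gm w f = (∑ S, A S * f S) / ∑ S, A S := by
    unfold gm gz
    simp only [hw]
  obtain ⟨Z, hZ⟩ : ∃ Z : ℝ, Z = ∑ S, A S := ⟨_, rfl⟩
  have hZp0 : 0 ≤ Z := by rw [hZ]; exact sum_nonneg fun S _ => hA' S
  rcases hZp0.eq_or_lt with hZ' | hZ'
  · rw [g0, ← hZ, ← hZ', div_zero]
    exact k5
  have hT : ∑ S, A S * R S ≤ 2 * Real.exp u * Z := by
    rw [hZ]
    exact sum_le_of_mf hA' hR m2 (fun S hS => h3 S hS) eu.le
  have hN : ∑ S, A S * f S ≤ 2 * (mf A (fun _ => 1) E * Z) + mf A R E * ∑ S, A S * R S := by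
    have n1 : ∀ S, A S * f S ≤ 2 * (if E S then A S * 1 else 0) + (if E S then A S * R S else 0) := by
      intro S
      by_cases hS : E S
      · rw [if_pos hS, if_pos hS]
        calc A S * f S ≤ A S * (2 + R S) := mul_le_mul_of_nonneg_left (f1 S hS) (hA' S)
          _ = 2 * (A S * 1) + A S * R S := by ring
      · rw [if_neg hS, if_neg hS, f2 S hS, mul_zero, mul_zero, add_zero]
    refine (sum_le_sum fun S _ => n1 S).trans ?_
    rw [sum_add_distrib, ← mul_sum, mf_mul hA' (fun _ => zero_le_one) E, mf_mul hA' hR E]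
    simp only [mul_one]
    rw [← hZ]
  rw [g0, ← hZ, div_le_iff₀ hZ']
  have b1 := mul_le_mul_of_nonneg_left hT k2
  calc ∑ S, A S * f S ≤ 2 * (mf A (fun _ => 1) E * Z) + mf A R E * ∑ S, A S * R S := hN
    _ ≤ 2 * (mf A (fun _ => 1) E * Z) + mf A R E * (2 * Real.exp u * Z) := add_le_add le_rfl b1
    _ = (2 * mf A (fun _ => 1) E + 2 * Real.exp u * mf A R E) * Z := by ring

theorem min_kick {w f A R : X → ℝ} {u r : ℝ} {E bad : X → Prop} (hA : ∀ S, 0 < A S) (hw : ∀ S, Real.exp (w S) = A S)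
    (hR : ∀ S, 0 ≤ R S) (f1 : ∀ S, E S → f S ≤ 2 + R S) (f2 : ∀ S, ¬ E S → f S = 0) (h3 : ∀ S, ¬ bad S → R S ≤ Real.exp u) :
    min 1 (Real.exp r * gm w f) ≤ Real.exp r * (2 * mf A (fun _ => 1) E + 2 * Real.exp u * mf A R E) + 2 * mf A R bad := by
  have hA' : ∀ S, 0 ≤ A S := fun S => (hA S).le
  have k1 := mf_nonneg hA' (fun _ => zero_le_one) E
  have k2 := mf_nonneg hA' hR E
  have k3 := mf_nonneg hA' hR bad
  have eu := Real.exp_pos u
  have er := Real.exp_pos r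
  by_cases m2 : mf A R bad ≤ 1 / 2
  · have h1 := gm_kick hA hw hR f1 f2 h3 m2
    have h2 := mul_le_mul_of_nonneg_left h1 er.le
    exact (min_le_right _ _).trans (h2.trans (by linarith only [k3]))
  · rw [not_le] at m2
    have h2 : 0 ≤ Real.exp r * (2 * mf A (fun _ => 1) E + 2 * Real.exp u * mf A R E) := by positivity
    exact (min_le_left _ _).trans (by linarith only [h2, m2])

end Abs

variable {μ : Measure ℝ} {s : ℝ}

/-- The excess of the kick of the row `j` over the level `T`, with its exponential factor. -/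
def psi48 (μ : Measure ℝ) (s : ℝ) (N y : ℕ) (δ B : ℝ) (b j : ℕ) (T : ℝ) (ω : Env × Finset ℕ) (S : Px (Pn N y)) : ℝ :=
  (1 + Real.exp (-2 * sr ω.2 j * gg μ s (Pn N y) δ B b ω j S)) * (if T < 2 * |gg μ s (Pn N y) δ B b ω j S| then 1 else 0)

theorem psi48_nonneg (N y : ℕ) (δ B : ℝ) (b j : ℕ) (T : ℝ) (ω : Env × Finset ℕ) (S : Px (Pn N y)) :
    0 ≤ psi48 μ s N y δ B b j T ω S := by
  unfold psi48
  refine mul_nonneg (by positivity) ?_
  split_ifs <;> norm_num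

theorem meas_psi48 (N y : ℕ) (δ B : ℝ) (b j : ℕ) (T : ℝ) (S : Px (Pn N y)) :
    Measurable fun ω => psi48 μ s N y δ B b j T ω S := by
  unfold psi48
  have h1 : Measurable fun ω : Env × Finset ℕ => gg μ s (Pn N y) δ B b ω j S := meas_gg δ B b j S
  have h2 : Measurable fun ω : Env × Finset ℕ => sr ω.2 j := Mod92.meas_om fun A =>
    show Measurable (fun _ : Env => sr A j) from measurable_const
  exact (measurable_const.add ((h2.const_mul (-2)).mul h1).exp).mul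
    (Measurable.ite (measurableSet_lt measurable_const (h1.abs.const_mul 2)) measurable_const measurable_const)

open Classical in
/-- `- 2 a g` is the clipped logarithm of the kick, or `0` on the steep paths. -/
theorem kick_gg {N y : ℕ} {δ B : ℝ} {b j : ℕ} (ω : Env × Finset ℕ) (S : Px (Pn N y)) :
    -2 * sr ω.2 j * gg μ s (Pn N y) δ B b ω j S =
      if Flat μ s δ (j + b - (j - b)) (sg ω.2 j) (ps S (j + b) - ps S (j - b)) then
        cl B (lk μ s ω.1 (j - b) (j + b - (j - b)) (j - (j - b)) (-sg ω.2 j) (ps S (j - b)) (ps S (j + b))) else 0 := by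
  unfold gg gj gw sr
  have h1 : (sg ω.2 j : ℝ) * (sg ω.2 j : ℝ) = 1 := by exact_mod_cast Mod92.sg_sq ω.2 j
  split_ifs with h
  · calc -2 * (sg ω.2 j : ℝ) * (-((sg ω.2 j : ℝ) / 2) * cl B (lk μ s ω.1 (j - b) (j + b - (j - b)) (j - (j - b)) (-sg ω.2 j)
          (ps S (j - b)) (ps S (j + b)))) = (sg ω.2 j : ℝ) * (sg ω.2 j : ℝ) * cl B (lk μ s ω.1 (j - b) (j + b - (j - b))
          (j - (j - b)) (-sg ω.2 j) (ps S (j - b)) (ps S (j + b))) := by ring
      _ = _ := by rw [h1, one_mul]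
  · rw [mul_zero]

variable [IsProbabilityMeasure μ] {c₀ C : ℝ} {n₀ : ℕ}

/-- **THE EXCESS OF THE KICK**: for each set of signs. -/
theorem kick48 (h : In μ s c₀ C n₀) {θ : ℝ} (hθ : 0 < θ) : ∃ δ₀ : ℝ, 0 < δ₀ ∧ ∀ κ : ℝ, 0 < κ → ∃ δ' : ℝ, 0 < δ' ∧
    ∃ cc : ℝ, 0 < cc ∧ ∃ N₀ : ℕ, ∀ N : ℕ, N₀ ≤ N → ∀ y : ℕ, EndOk μ s δ' N y → ∀ δ : ℝ, δ ≤ δ₀ → ∀ B : ℝ, 0 ≤ B →
    ∀ b j : ℕ, (N : ℝ) ^ θ ≤ b → b ≤ j → j + b ≤ N → ∀ A : Finset ℕ,
    Dom μ (fun η => min 1 (Real.exp ((N : ℝ) ^ cc) * gm (wm μ s N (Pn N y) (η, A)) (psi48 μ s N y δ B b j ((N : ℝ) ^ κ) (η, A))))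
      (Real.exp (-(N : ℝ) ^ cc)) := by
  classical
  obtain ⟨q, hq, hq1, hcA, hcB, -⟩ := cone_num h hθ
  obtain ⟨M₁, hM₁⟩ := hcA (q / 2) (by linarith) (by linarith)
  obtain ⟨M₂, hM₂⟩ := hcB (q / 4) (q / 2) (by linarith) (by linarith)
  refine ⟨q / 4, by linarith, fun κ hκ => ?_⟩
  obtain ⟨δa, hδa, c1, hc1, N₁, hN₁⟩ := small48 h hθ hκ
  obtain ⟨δb, hδb, c2, hc2, N₂, hN₂⟩ := small48 h hθ (show 0 < c1 / 4 by linarith)
  obtain ⟨m, hm⟩ : ∃ m : ℝ, m = min (c1 / 4) c2 := ⟨_, rfl⟩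
  have hm0 : 0 < m := hm ▸ lt_min (by linarith) hc2
  have hm1 : m ≤ c1 / 4 := hm ▸ min_le_left _ _
  have hm2 : m ≤ c2 := hm ▸ min_le_right _ _
  have x1 : ∀ᶠ N : ℕ in atTop, 6 * (N : ℝ) ^ (0 : ℝ) * Real.exp (-(1 * (N : ℝ) ^ m)) ≤ 1 / 2 * Real.exp (-(N : ℝ) ^ (m / 2)) :=
    ev_exp (by norm_num) one_pos hm0 (by linarith) 0
  have x3 : ∀ᶠ N : ℕ in atTop, 3 * (N : ℝ) ^ (c1 / 4) ≤ 1 * (N : ℝ) ^ c1 := ev_pow_le (by linarith) (by norm_num)
  obtain ⟨M₀, hM₀⟩ := ((x1.and x3).and (eventually_ge_atTop 1)).exists_forall_of_atTop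
  refine ⟨min δa δb, lt_min hδa hδb, m / 2, by linarith, M₀ + N₁ + N₂ + M₁ + M₂, fun N hN y hy δ hδ B hB b j hb hbj hjN A => ?_⟩
  obtain ⟨⟨y1, y2⟩, y4⟩ := hM₀ N (by omega)
  rw [Real.rpow_zero, one_mul, mul_one] at y1
  have hNR : (1 : ℝ) ≤ N := by exact_mod_cast y4
  have y3 := Real.exp_pos (-(N : ℝ) ^ (m / 2))
  have hb1 : (1 : ℝ) ≤ b := (Real.one_le_rpow hNR hθ.le).trans hb
  have hb1' : 1 ≤ b := by exact_mod_cast hb1
  obtain ⟨l, hl⟩ : ∃ l : ℕ, l = j + b - (j - b) := ⟨_, rfl⟩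
  obtain ⟨c, hc⟩ : ∃ c : ℕ, c = j - b := ⟨_, rfl⟩
  obtain ⟨k, hk⟩ : ∃ k : ℕ, k = j - (j - b) := ⟨_, rfl⟩
  obtain ⟨a, ha⟩ : ∃ a : ℤ, a = sg A j := ⟨_, rfl⟩
  have hcl : c + l = j + b := by omega
  have hlN : (N : ℝ) ^ θ ≤ l := by
    have q2 : (b : ℝ) ≤ l := by exact_mod_cast (show b ≤ l by omega)
    exact hb.trans q2
  have hl1 : (1 : ℝ) ≤ l := hb1.trans (by exact_mod_cast (show b ≤ l by omega))
  have ha1 : a = 1 ∨ a = -1 := by rw [ha]; exact sg_or A j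
  have ia : |(-a : ℤ)| ≤ 1 ∧ |(a : ℤ)| ≤ 1 := by rcases ha1 with e | e <;> rw [e] <;> norm_num
  have hwd : 0 ≤ wd μ s l := by
    unfold Pool.Agent.W_7d29a1_HS.wd
    exact mul_nonneg (Nat.cast_nonneg _) (h.vA_nonneg l)
  obtain ⟨u, hu⟩ : ∃ u : ℝ, u = (N : ℝ) ^ (c1 / 4) := ⟨_, rfl⟩
  obtain ⟨p1, p2⟩ := hN₁ N (by omega) y (hy.mono (min_le_left _ _) y4) c l k c l k hlN (by omega) le_rfl le_rfl (by omega) (by omega)
    (-a) ia.1 (-a) ia.1
  obtain ⟨-, p3⟩ := hN₂ N (by omega) y (hy.mono (min_le_right _ _) y4) c l k c l k hlN (by omega) le_rfl le_rfl (by omega) (by omega)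
    (-a) ia.1 (-a) ia.1
  have hflat : ∀ (η : Env) (S : Px (Pn N y)), Flat μ s δ l a (ps S (c + l) - ps S c) →
      Real.exp (lk μ s η c l k (-a) (ps S c) (ps S (c + l))) = Rw μ s c l k (-a) η S.1 := by
    intro η S hf
    have hf' : Flat μ s (q / 4) l a (ps S (c + l) - ps S c) := by
      unfold Flat at hf ⊢
      exact hf.trans (mul_le_mul_of_nonneg_right (Real.rpow_le_rpow_of_exponent_le hl1 hδ) hwd)
    have q1 := cone_of_flat ha1 (hM₂ N (by omega) l hlN) hf'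
    have q2 := hM₁ N (by omega) l hlN
    have r1 := in_of_cone q2.1 q2.2 q1 a ia.2
    have r2 := in_of_cone q2.1 q2.2 q1 0 (by norm_num)
    rw [add_zero] at r2
    exact exp_lk η (by omega) (by linarith only [r1.1]) (by linarith only [r1.2]) r2.1 r2.2
  have hg : ∀ (η : Env) (S : Px (Pn N y)), -2 * sr A j * gg μ s (Pn N y) δ B b (η, A) j S =
      if Flat μ s δ l a (ps S (c + l) - ps S c) then cl B (lk μ s η c l k (-a) (ps S c) (ps S (c + l))) else 0 := by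
    intro η S
    have h1 := kick_gg (μ := μ) (s := s) (δ := δ) (B := B) (b := b) (j := j) (η, A) S
    rw [h1, hcl, hl, hc, hk, ha]
  have key : ∀ η, min 1 (Real.exp ((N : ℝ) ^ (m / 2)) *
        gm (wm μ s N (Pn N y) (η, A)) (psi48 μ s N y δ B b j ((N : ℝ) ^ κ) (η, A))) ≤
      Real.exp ((N : ℝ) ^ (m / 2)) * (2 * mf (fun S : Px (Pn N y) => pth μ s η N S.1) (fun _ => 1)
          (fun S => ¬ |lk μ s η c l k (-a) (ps S c) (ps S (c + l))| ≤ (N : ℝ) ^ κ) +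
        2 * Real.exp u * mf (fun S : Px (Pn N y) => pth μ s η N S.1) (fun S => Rw μ s c l k (-a) η S.1)
          (fun S => ¬ |lk μ s η c l k (-a) (ps S c) (ps S (c + l))| ≤ (N : ℝ) ^ κ)) +
      2 * mf (fun S : Px (Pn N y) => pth μ s η N S.1) (fun S => Rw μ s c l k (-a) η S.1)
          (fun S => ¬ |lk μ s η c l k (-a) (ps S c) (ps S (c + l))| ≤ (N : ℝ) ^ (c1 / 4)) := by
    intro η
    refine min_kick (A := fun S : Px (Pn N y) => pth μ s η N S.1) (R := fun S : Px (Pn N y) => Rw μ s c l k (-a) η S.1)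
      (fun S => Mod92.pth_pos η N S.1) (fun S => Mod92.exp_lw η S) (fun S => Rw_nonneg _ _ _ _ _ _) (fun S hS => ?_)
      (fun S hS => ?_) (fun S hS => ?_)
    · -- the value
      unfold psi48
      have h2 : Real.exp (-2 * sr A j * gg μ s (Pn N y) δ B b (η, A) j S) ≤ 1 + Rw μ s c l k (-a) η S.1 := by
        rw [hg η S]
        have r5 := Rw_nonneg (μ := μ) (s := s) c l k (-a) η S.1
        split_ifs with hf
        · rw [← hflat η S hf]
          have r6 := Real.exp_pos (lk μ s η c l k (-a) (ps S c) (ps S (c + l)))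
          refine (Real.exp_le_exp.2 (cl_le hB _)).trans ?_
          rcases le_total 0 (lk μ s η c l k (-a) (ps S c) (ps S (c + l))) with r4 | r4
          · rw [max_eq_left r4]
            linarith only
          · rw [max_eq_right r4, Real.exp_zero]
            linarith only [r6]
        · rw [Real.exp_zero]
          linarith only [r5]
      have h3 : 0 ≤ 1 + Real.exp (-2 * sr A j * gg μ s (Pn N y) δ B b (η, A) j S) := by positivity
      have h4 : (if (N : ℝ) ^ κ < 2 * |gg μ s (Pn N y) δ B b (η, A) j S| then (1 : ℝ) else 0) ≤ 1 := by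
        split_ifs <;> norm_num
      have h5 := mul_le_mul_of_nonneg_left h4 h3
      rw [mul_one] at h5
      exact h5.trans (by linarith only [h2])
    · -- off the event
      unfold psi48
      rw [not_not] at hS
      have h2 : 2 * |gg μ s (Pn N y) δ B b (η, A) j S| = |-2 * sr A j * gg μ s (Pn N y) δ B b (η, A) j S| := by
        rw [abs_mul, abs_mul]
        have e1 : |sr A j| = 1 := Mod92.abs_sg A j
        rw [e1]
        norm_num
      have h3 : ¬ (N : ℝ) ^ κ < 2 * |gg μ s (Pn N y) δ B b (η, A) j S| := by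
        rw [not_lt, h2, hg η S]
        split_ifs with hf
        · exact (abs_cl_le hB _).trans hS
        · rw [abs_zero]
          positivity
      rw [if_neg h3, mul_zero]
    · rw [not_not] at hS
      rw [hu]
      exact (Rw_le_exp (by omega) S.1).trans (Real.exp_le_exp.2 (abs_le.1 hS).2)
  have e1 : 0 ≤ Real.exp ((N : ℝ) ^ (m / 2)) := (Real.exp_pos _).le
  refine ((((p1.const_mul (r := 2) (by norm_num)).add (p2.const_mul (r := 2 * Real.exp u) (by positivity))).const_mul e1).add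
    (p3.const_mul (r := 2) (by norm_num))).mono key ?_
  -- the numbers
  have z2 : (N : ℝ) ^ m ≤ (N : ℝ) ^ (c1 / 4) := Real.rpow_le_rpow_of_exponent_le hNR hm1
  have z3 : (N : ℝ) ^ (m / 2) ≤ (N : ℝ) ^ (c1 / 4) := Real.rpow_le_rpow_of_exponent_le hNR (by linarith)
  have z4 : Real.exp (-(N : ℝ) ^ c2) ≤ Real.exp (-(N : ℝ) ^ m) :=
    Real.exp_le_exp.2 (neg_le_neg (Real.rpow_le_rpow_of_exponent_le hNR hm2))
  have z0 : 0 ≤ (N : ℝ) ^ (c1 / 4) := by positivity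
  have z5 : Real.exp ((N : ℝ) ^ (m / 2)) * Real.exp (-(N : ℝ) ^ c1) ≤ Real.exp (-(N : ℝ) ^ m) := by
    rw [← Real.exp_add]
    refine Real.exp_le_exp.2 ?_
    linarith only [y2, z0, z2, z3]
  have z6 : Real.exp ((N : ℝ) ^ (m / 2)) * (Real.exp u * Real.exp (-(N : ℝ) ^ c1)) ≤ Real.exp (-(N : ℝ) ^ m) := by
    rw [← Real.exp_add, ← Real.exp_add, hu]
    refine Real.exp_le_exp.2 ?_
    linarith only [y2, z0, z2, z3]
  calc Real.exp ((N : ℝ) ^ (m / 2)) * (2 * Real.exp (-(N : ℝ) ^ c1) + 2 * Real.exp u * Real.exp (-(N : ℝ) ^ c1)) +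
        2 * Real.exp (-(N : ℝ) ^ c2) = 2 * (Real.exp ((N : ℝ) ^ (m / 2)) * Real.exp (-(N : ℝ) ^ c1)) +
        2 * (Real.exp ((N : ℝ) ^ (m / 2)) * (Real.exp u * Real.exp (-(N : ℝ) ^ c1))) + 2 * Real.exp (-(N : ℝ) ^ c2) := by ring
    _ ≤ Real.exp (-(N : ℝ) ^ (m / 2)) := by linarith only [y1, y3, z4, z5, z6]

/-- **THE EXCESS OF THE KICK**, in the mean over the environment and the signs. -/
theorem kickP48 (h : In μ s c₀ C n₀) {θ : ℝ} (hθ : 0 < θ) : ∃ δ₀ : ℝ, 0 < δ₀ ∧ ∀ κ : ℝ, 0 < κ → ∃ δ' : ℝ, 0 < δ' ∧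
    ∃ cc : ℝ, 0 < cc ∧ ∃ N₀ : ℕ, ∀ N : ℕ, N₀ ≤ N → ∀ y : ℕ, EndOk μ s δ' N y → ∀ δ : ℝ, δ ≤ δ₀ → ∀ B : ℝ, 0 ≤ B →
    ∀ b j : ℕ, (N : ℝ) ^ θ ≤ b → b ≤ j → j + b ≤ N →
    ∫ ω, min 1 (Real.exp ((N : ℝ) ^ cc) * gm (wm μ s N (Pn N y) ω) (psi48 μ s N y δ B b j ((N : ℝ) ^ κ) ω)) ∂(Pm μ N) ≤
      Real.exp (-(N : ℝ) ^ cc) := by
  obtain ⟨δ₀, hδ₀, hT⟩ := kick48 (μ := μ) (s := s) h hθ
  refine ⟨δ₀, hδ₀, fun κ hκ => ?_⟩
  obtain ⟨δ', hδ', cc, hcc, N₀, hN₀⟩ := hT κ hκ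
  refine ⟨δ', hδ', cc, hcc, N₀, fun N hN y hy δ hδ B hB b j hb hbj hjN => ?_⟩
  have hnn : ∀ ω, 0 ≤ min 1 (Real.exp ((N : ℝ) ^ cc) * gm (wm μ s N (Pn N y) ω) (psi48 μ s N y δ B b j ((N : ℝ) ^ κ) ω)) := by
    intro ω
    refine le_min zero_le_one (mul_nonneg (Real.exp_pos _).le ?_)
    unfold gm gz
    exact div_nonneg (sum_nonneg fun S _ => mul_nonneg (Real.exp_pos _).le (psi48_nonneg _ _ _ _ _ _ _ _ _))
      (sum_nonneg fun S _ => (Real.exp_pos _).le)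
  have hmm : Measurable fun ω => min 1 (Real.exp ((N : ℝ) ^ cc) * gm (wm μ s N (Pn N y) ω)
      (psi48 μ s N y δ B b j ((N : ℝ) ^ κ) ω)) := by
    refine measurable_const.min (Measurable.const_mul ?_ _)
    unfold gm gz
    exact (Finset.measurable_fun_sum _ fun x _ => (meas_wm x).exp.mul (meas_psi48 N y δ B b j _ x)).div
      (Finset.measurable_fun_sum _ fun x _ => (meas_wm x).exp)
  have hm : ∀ A : Finset ℕ, Measurable fun η => min 1 (Real.exp ((N : ℝ) ^ cc) * gm (wm μ s N (Pn N y) (η, A))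
      (psi48 μ s N y δ B b j ((N : ℝ) ^ κ) (η, A))) := fun A => hmm.comp (meas_pair A)
  have hb' : ∀ ω, |min 1 (Real.exp ((N : ℝ) ^ cc) * gm (wm μ s N (Pn N y) ω) (psi48 μ s N y δ B b j ((N : ℝ) ^ κ) ω))| ≤ 1 :=
    fun ω => by
      rw [abs_of_nonneg (hnn ω)]
      exact min_le_left _ _
  rw [int_Pm (fun A _ => Integrable.of_bound (hm A).aestronglyMeasurable 1 (Eventually.of_forall fun η => hb' (η, A))) hm]
  have h1 : ∑ A ∈ (range N).powerset, ∫ η, min 1 (Real.exp ((N : ℝ) ^ cc) * gm (wm μ s N (Pn N y) (η, A))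
      (psi48 μ s N y δ B b j ((N : ℝ) ^ κ) (η, A))) ∂(law μ) ≤ ∑ _A ∈ (range N).powerset, Real.exp (-(N : ℝ) ^ cc) :=
    sum_le_sum fun A _ => (hN₀ N hN y hy δ hδ B hB b j hb hbj hjN A).int fun η => hnn (η, A)
  rw [sum_const, card_powerset, card_range, nsmul_eq_mul] at h1
  push_cast at h1
  have h2 : (0 : ℝ) < 2 ^ N := by positivity
  calc _ ≤ (2 ^ N : ℝ)⁻¹ * (2 ^ N * Real.exp (-(N : ℝ) ^ cc)) := mul_le_mul_of_nonneg_left h1 (by positivity)
    _ = _ := by rw [← mul_assoc, inv_mul_cancel₀ h2.ne', one_mul]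

end

end Pool.Agent.W_7d29a1_C0.Tv48
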