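import Pool.Agent.W_7d29a1_C0.Ins52B

/-!
MP_7d29a1_pr, [C0] GS in the one kick form (helper65): TWO CORNERS OF A PLAN.

The value of a plan at the weights `w + r` and at the weights `w` differ only through the tuples for which, for some replica `i`, the
function `r` is not almost constant (`= r (x i)`) on the set from which this replica is drawn: `ev_two_corners`, and
`ev_two_corners_BD` with the events `BD w A r τ q s`: the replicas drawn from `A` have `|r - r s| > τ` with probability `> q`. Every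
such event is told from the replica `x i` itself, and all the replicas stay replicas. No derivative, no intermediate measure.
-/

set_option autoImplicit false
set_option linter.unusedSectionVars false

namespace Pool.W7d29a1.C0.I52

open Finset

noncomputable section

variable {X : Type*} [Fintype X] [DecidableEq X]

theorem av_exp_eq (w r : X → ℝ) (A : Finset X) (s : X) :
    av w A (fun z => Real.exp (r z - r s)) = zs (w + r) A / zs w A * Real.exp (-r s) := by
  rw [av_eq]
  unfold zs
  rw [div_mul_eq_mul_div, sum_mul]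
  congr 1
  refine sum_congr rfl fun z _ => ?_
  rw [Pi.add_apply, ← Real.exp_add, ← Real.exp_add]
  congr 1
  ring

/-- The kernel at the weights `w + r`. -/
theorem ker_add (w r : X → ℝ) {A : Finset X} (hA : A.Nonempty) (s : X) :
    ker (w + r) A s * av w A (fun z => Real.exp (r z - r s)) = ker w A s := by
  rw [av_exp_eq]
  unfold ker
  by_cases hs : s ∈ A
  · rw [if_pos hs, if_pos hs]
    have h1 := (zs_pos w hA).ne'
    have h2 := (zs_pos (w + r) hA).ne'
    have e : Real.exp ((w + r) s) * Real.exp (-r s) = Real.exp (w s) := by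
      rw [Pi.add_apply, ← Real.exp_add]
      congr 1
      ring
    field_simp
    rw [← e]
  · rw [if_neg hs, if_neg hs, zero_mul]

/-- The mean deviation of `exp (r - r s)` from `1`. -/
def dm (w r : X → ℝ) (A : Finset X) (s : X) : ℝ := av w A fun z => |Real.exp (r z - r s) - 1|

theorem dm_nonneg (w r : X → ℝ) (A : Finset X) (s : X) : 0 ≤ dm w r A s := by
  unfold dm av
  exact sum_nonneg fun z _ => mul_nonneg (ker_nonneg w A z) (abs_nonneg _)

theorem abs_av_exp_sub (w r : X → ℝ) {A : Finset X} (hA : A.Nonempty) (s : X) :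
    |av w A (fun z => Real.exp (r z - r s)) - 1| ≤ dm w r A s := by
  have e : av w A (fun z => Real.exp (r z - r s)) - 1 = av w A fun z => Real.exp (r z - r s) - 1 := by
    rw [av_sub, av_const w hA]
  rw [e]
  exact abs_av_le w A _

/-- The kernels at the two corners, off the deviation. -/
theorem abs_ker_sub (w r : X → ℝ) {A : Finset X} (hA : A.Nonempty) {s : X} {κ : ℝ} (hκ : κ ≤ 1 / 2) (h : dm w r A s ≤ κ) :
    |ker (w + r) A s - ker w A s| ≤ 2 * κ * ker w A s := by
  set a := av w A fun z => Real.exp (r z - r s) with ha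
  have h1 : |a - 1| ≤ κ := (abs_av_exp_sub w r hA s).trans h
  have h2 : 1 / 2 ≤ a := by linarith [(abs_le.1 h1).1]
  have hk := ker_add w r hA s
  rw [← ha] at hk
  have hk0 := ker_nonneg (w + r) A s
  have h3 : |ker (w + r) A s - ker w A s| = ker (w + r) A s * |a - 1| := by
    rw [← hk, show ker (w + r) A s - ker (w + r) A s * a = ker (w + r) A s * -(a - 1) by ring, abs_mul, abs_neg,
      abs_of_nonneg hk0]
  rw [h3, ← hk]
  have h4 : ker (w + r) A s * |a - 1| ≤ ker (w + r) A s * κ := mul_le_mul_of_nonneg_left h1 hk0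
  have hκ0 : 0 ≤ κ := (abs_nonneg _).trans h1
  have h5 : ker (w + r) A s * κ * (1 / 2) ≤ ker (w + r) A s * κ * a := mul_le_mul_of_nonneg_left h2 (mul_nonneg hk0 hκ0)
  nlinarith

/-- A product of factors which are close. -/
theorem abs_prod_sub {ι : Type*} (s : Finset ι) {a b : ι → ℝ} {t : ℝ} (ht : 0 ≤ t) (hb : ∀ i ∈ s, 0 ≤ b i)
    (h : ∀ i ∈ s, |a i - b i| ≤ t * b i) : |∏ i ∈ s, a i - ∏ i ∈ s, b i| ≤ ((1 + t) ^ s.card - 1) * ∏ i ∈ s, b i := by
  classical
  induction s using Finset.induction_on with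
  | empty => simp
  | insert i s hi ih =>
    rw [prod_insert hi, prod_insert hi, card_insert_of_notMem hi]
    have hbi := hb i (mem_insert_self i s)
    have hB : 0 ≤ ∏ k ∈ s, b k := prod_nonneg fun k hk => hb k (mem_insert_of_mem hk)
    have e1 := ih (fun k hk => hb k (mem_insert_of_mem hk)) fun k hk => h k (mem_insert_of_mem hk)
    have e2 := h i (mem_insert_self i s)
    have e3 : |a i| ≤ (1 + t) * b i := by
      have : |a i| ≤ |a i - b i| + |b i| := by
        have := abs_add_le (a i - b i) (b i)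
        rwa [sub_add_cancel] at this
      rw [abs_of_nonneg hbi] at this
      linarith
    have e4 : a i * ∏ k ∈ s, a k - b i * ∏ k ∈ s, b k =
        a i * (∏ k ∈ s, a k - ∏ k ∈ s, b k) + (a i - b i) * ∏ k ∈ s, b k := by ring
    rw [e4]
    have hp : 1 ≤ (1 + t) ^ s.card := one_le_pow₀ (by linarith)
    calc |a i * (∏ k ∈ s, a k - ∏ k ∈ s, b k) + (a i - b i) * ∏ k ∈ s, b k|
        ≤ |a i| * |∏ k ∈ s, a k - ∏ k ∈ s, b k| + |a i - b i| * ∏ k ∈ s, b k := by
          refine (abs_add_le _ _).trans_eq ?_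
          rw [abs_mul, abs_mul, abs_of_nonneg hB]
      _ ≤ (1 + t) * b i * (((1 + t) ^ s.card - 1) * ∏ k ∈ s, b k) + t * b i * ∏ k ∈ s, b k :=
          add_le_add (mul_le_mul e3 e1 (abs_nonneg _) (mul_nonneg (by linarith) hbi))
            (mul_le_mul_of_nonneg_right e2 hB)
      _ = _ := by
          rw [pow_succ]
          ring

theorem pow_sub_one_le {t : ℝ} (ht : 0 ≤ t) (m : ℕ) (h : m * t ≤ 1) : (1 + t) ^ m - 1 ≤ 2 * (m * t) := by
  have h1 : (1 + t) ^ m ≤ Real.exp (m * t) := by
    rw [mul_comm, Real.exp_mul, Real.rpow_natCast]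
    exact pow_le_pow_left₀ (by linarith) (by linarith [Real.add_one_le_exp t]) m
  have h0 : 0 ≤ (m : ℝ) * t := mul_nonneg (Nat.cast_nonneg m) ht
  have h2 := Real.abs_exp_sub_one_le (x := (m : ℝ) * t) (by rw [abs_of_nonneg h0]; exact h)
  rw [abs_of_nonneg h0] at h2
  linarith [(abs_le.1 h2).2]

/-- **The weights of a plan at the two corners.** -/
theorem abs_wt_sub {m : ℕ} (P : Plan X m) (w r : X → ℝ) (x : Fin m → X) {κ : ℝ} (hκ0 : 0 ≤ κ) (hκ : κ ≤ 1 / 2)
    (hm : 2 * (m : ℝ) * κ ≤ 1) :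
    |wt P (w + r) x - wt P w x| ≤ 4 * m * κ * wt P w x +
      ∑ i, (wt P (w + r) x + wt P w x) * (if κ < dm w r (P.S i x) (x i) then 1 else 0) := by
  have p1 := wt_nonneg P (w + r) x
  have p0 := wt_nonneg P w x
  have hs : ∀ i, 0 ≤ (wt P (w + r) x + wt P w x) * (if κ < dm w r (P.S i x) (x i) then (1 : ℝ) else 0) := fun i =>
    mul_nonneg (by linarith) (by split_ifs <;> norm_num)
  by_cases hb : ∃ i, κ < dm w r (P.S i x) (x i)
  · obtain ⟨i, hi⟩ := hb
    have h1 : (wt P (w + r) x + wt P w x) * (if κ < dm w r (P.S i x) (x i) then (1 : ℝ) else 0) ≤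
        ∑ i, (wt P (w + r) x + wt P w x) * (if κ < dm w r (P.S i x) (x i) then 1 else 0) :=
      single_le_sum (fun i _ => hs i) (mem_univ i)
    rw [if_pos hi, mul_one] at h1
    have h2 : |wt P (w + r) x - wt P w x| ≤ wt P (w + r) x + wt P w x := by
      rw [abs_le]
      constructor <;> linarith
    have h3 : 0 ≤ 4 * (m : ℝ) * κ * wt P w x := by positivity
    linarith
  · have hb' : ∀ i, dm w r (P.S i x) (x i) ≤ κ := fun i => le_of_not_gt fun h => hb ⟨i, h⟩
    have h1 : |wt P (w + r) x - wt P w x| ≤ ((1 + 2 * κ) ^ m - 1) * wt P w x := by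
      rw [wt_eq_kr, wt_eq_kr]
      unfold kr
      have h := abs_prod_sub (univ : Finset (Fin m)) (a := fun i => ker (w + r) (P.S i x) (x i))
        (b := fun i => ker w (P.S i x) (x i)) (t := 2 * κ) (by linarith) (fun i _ => ker_nonneg _ _ _)
        fun i _ => abs_ker_sub w r (S_ne P i x) hκ (hb' i)
      rw [card_univ, Fintype.card_fin] at h
      exact h
    have h2 := pow_sub_one_le (t := 2 * κ) (by linarith) m (by linarith)
    have h3 : ((1 + 2 * κ) ^ m - 1) * wt P w x ≤ 4 * m * κ * wt P w x :=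
      mul_le_mul_of_nonneg_right (by linarith) p0
    have h4 := sum_nonneg fun i (_ : i ∈ (univ : Finset (Fin m))) => hs i
    linarith

/-- **Two corners of a plan.** -/
theorem ev_two_corners {m : ℕ} (P : Plan X m) (w r : X → ℝ) (Ψ : (Fin m → X) → ℝ) {κ : ℝ} (hκ0 : 0 ≤ κ) (hκ : κ ≤ 1 / 2)
    (hm : 2 * (m : ℝ) * κ ≤ 1) :
    |ev P (w + r) Ψ - ev P w Ψ| ≤ 4 * m * κ * ev P w (fun x => |Ψ x|) +
      ∑ i, (ev P (w + r) (fun x => |Ψ x| * (if κ < dm w r (P.S i x) (x i) then 1 else 0)) +
        ev P w (fun x => |Ψ x| * (if κ < dm w r (P.S i x) (x i) then 1 else 0))) := by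
  have e1 : ev P (w + r) Ψ - ev P w Ψ = ∑ x, (wt P (w + r) x - wt P w x) * Ψ x := by
    unfold ev
    rw [← sum_sub_distrib]
    exact sum_congr rfl fun x _ => by ring
  rw [e1]
  refine (abs_sum_le_sum_abs _ _).trans ?_
  have e2 : ∀ x, |(wt P (w + r) x - wt P w x) * Ψ x| ≤ 4 * m * κ * (wt P w x * |Ψ x|) +
      ∑ i, (wt P (w + r) x * (|Ψ x| * (if κ < dm w r (P.S i x) (x i) then 1 else 0)) +
        wt P w x * (|Ψ x| * (if κ < dm w r (P.S i x) (x i) then 1 else 0))) := fun x => by
    rw [abs_mul]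
    refine (mul_le_mul_of_nonneg_right (abs_wt_sub P w r x hκ0 hκ hm) (abs_nonneg _)).trans_eq ?_
    rw [add_mul, sum_mul]
    congr 1
    · ring
    · exact sum_congr rfl fun i _ => by ring
  refine (sum_le_sum fun x _ => e2 x).trans_eq ?_
  rw [sum_add_distrib, ← mul_sum, sum_comm]
  unfold ev
  congr 1
  exact sum_congr rfl fun i _ => by rw [sum_add_distrib]

/-! ### The events told from one replica -/

open Classical in
/-- The replicas drawn from `A` have `|r - r s| > τ` with probability `> q`. -/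
def BD (w : X → ℝ) (A : Finset X) (r : X → ℝ) (τ q : ℝ) (s : X) : Prop :=
  q < av w A fun z => if τ < |r z - r s| then 1 else 0

theorem av_le_add (w r : X → ℝ) {A : Finset X} (hA : A.Nonempty) {D : ℝ} (hD : ∀ z, |r z| ≤ D) {f : X → ℝ}
    (hf : ∀ z, 0 ≤ f z) : av w A f ≤ Real.exp (2 * D) * av (w + r) A f := by
  unfold av
  rw [mul_sum]
  refine sum_le_sum fun s _ => ?_
  have h1 : av w A (fun z => Real.exp (r z - r s)) ≤ Real.exp (2 * D) := by
    have h := av_mono w A (f := fun z => Real.exp (r z - r s)) (g := fun _ => Real.exp (2 * D)) fun z _ =>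
      Real.exp_le_exp.2 (by
        have a := (abs_le.1 (hD z)).2
        have b := (abs_le.1 (hD s)).1
        linarith)
    rwa [av_const w hA] at h
  rw [← ker_add w r hA s]
  have hk := ker_nonneg (w + r) A s
  calc ker (w + r) A s * av w A (fun z => Real.exp (r z - r s)) * f s
      ≤ ker (w + r) A s * Real.exp (2 * D) * f s :=
        mul_le_mul_of_nonneg_right (mul_le_mul_of_nonneg_left h1 hk) (hf s)
    _ = _ := by ring

open Classical in
/-- At the other corner. -/
theorem BD.add {w r : X → ℝ} {A : Finset X} (hA : A.Nonempty) {D : ℝ} (hD : ∀ z, |r z| ≤ D) {τ q : ℝ} {s : X}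
    (h : BD w A r τ q s) : BD (w + r) A r τ (q * Real.exp (-(2 * D))) s := by
  unfold BD at h ⊢
  have h1 := av_le_add w r hA hD (f := fun z => if τ < |r z - r s| then 1 else 0) fun z => by split_ifs <;> norm_num
  have h2 := h.trans_le h1
  rw [Real.exp_neg]
  rw [← div_eq_mul_inv, div_lt_iff₀ (Real.exp_pos _), mul_comm]
  exact h2

open Classical in
theorem dm_le (w r : X → ℝ) {A : Finset X} (hA : A.Nonempty) {D : ℝ} (hD : ∀ z, |r z| ≤ D) {τ : ℝ} (hτ : 0 ≤ τ) (hτ1 : τ ≤ 1)
    (s : X) : dm w r A s ≤ 2 * τ + Real.exp (2 * D) * av w A fun z => if τ < |r z - r s| then 1 else 0 := by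
  unfold dm
  have e : 2 * τ + Real.exp (2 * D) * av w A (fun z => if τ < |r z - r s| then 1 else 0) =
      av w A fun z => 2 * τ + Real.exp (2 * D) * (if τ < |r z - r s| then 1 else 0) := by
    rw [av_add w A (fun _ => 2 * τ), av_const w hA, av_smul]
  rw [e]
  refine av_mono w A fun z _ => ?_
  have h0 := Real.exp_pos (2 * D)
  by_cases h : τ < |r z - r s|
  · rw [if_pos h, mul_one]
    have a := abs_le.1 (hD z)
    have b := abs_le.1 (hD s)
    have h1 : Real.exp (r z - r s) ≤ Real.exp (2 * D) := Real.exp_le_exp.2 (by linarith [a.2, b.1])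
    have h2 : 0 < Real.exp (r z - r s) := Real.exp_pos _
    have h3 : 1 ≤ Real.exp (2 * D) := Real.one_le_exp (by linarith [(abs_nonneg (r z)).trans (hD z)])
    rw [abs_le]
    constructor <;> linarith
  · rw [if_neg h, mul_zero, add_zero]
    have h1 : |r z - r s| ≤ τ := le_of_not_gt h
    exact (Real.abs_exp_sub_one_le (h1.trans hτ1)).trans (by linarith)

/-- A deviation is an event of the replicas drawn from `A`. -/
theorem BD_of_dm {w r : X → ℝ} {A : Finset X} (hA : A.Nonempty) {D : ℝ} (hD : ∀ z, |r z| ≤ D) {κ : ℝ} (hκ0 : 0 ≤ κ)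
    (hκ1 : κ ≤ 1) {s : X} (h : κ < dm w r A s) : BD w A r (κ / 4) (κ / 2 * Real.exp (-(2 * D))) s := by
  have h1 := h.trans_le (dm_le w r hA hD (τ := κ / 4) (by linarith) (by linarith) s)
  unfold BD
  rw [Real.exp_neg, ← div_eq_mul_inv, div_lt_iff₀ (Real.exp_pos _), mul_comm]
  linarith

open Classical in
/-- **Two corners of a plan, with events told from the replicas.** -/
theorem ev_two_corners_BD {m : ℕ} (P : Plan X m) (w r : X → ℝ) (Ψ : (Fin m → X) → ℝ) {D κ : ℝ} (hD : ∀ z, |r z| ≤ D)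
    (hκ0 : 0 ≤ κ) (hκ : κ ≤ 1 / 2) (hm : 2 * (m : ℝ) * κ ≤ 1) :
    |ev P (w + r) Ψ - ev P w Ψ| ≤ 4 * m * κ * ev P w (fun x => |Ψ x|) +
      ∑ i, (ev P (w + r) (fun x => |Ψ x| *
          (if BD (w + r) (P.S i x) r (κ / 4) (κ / 2 * Real.exp (-(4 * D))) (x i) then 1 else 0)) +
        ev P w (fun x => |Ψ x| * (if BD w (P.S i x) r (κ / 4) (κ / 2 * Real.exp (-(2 * D))) (x i) then 1 else 0))) := by
  refine (ev_two_corners P w r Ψ hκ0 hκ hm).trans (add_le_add le_rfl (sum_le_sum fun i _ => add_le_add ?_ ?_))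
  · refine ev_mono P (w + r) fun x => mul_le_mul_of_nonneg_left ?_ (abs_nonneg _)
    by_cases h : κ < dm w r (P.S i x) (x i)
    · have h1 := (BD_of_dm (S_ne P i x) hD hκ0 (by linarith) h).add (S_ne P i x) hD
      have e : κ / 2 * Real.exp (-(2 * D)) * Real.exp (-(2 * D)) = κ / 2 * Real.exp (-(4 * D)) := by
        rw [mul_assoc, ← Real.exp_add]
        congr 2
        ring
      rw [e] at h1
      rw [if_pos h, if_pos h1]
    · rw [if_neg h]
      split_ifs <;> norm_num
  · refine ev_mono P w fun x => mul_le_mul_of_nonneg_left ?_ (abs_nonneg _)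
    by_cases h : κ < dm w r (P.S i x) (x i)
    · rw [if_pos h, if_pos (BD_of_dm (S_ne P i x) hD hκ0 (by linarith) h)]
    · rw [if_neg h]
      split_ifs <;> norm_num

end

end Pool.W7d29a1.C0.I52
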