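import Pool.Agent.W_7d29a1_C0.Lam86

/-!
MP_7d29a1_pr, [C0], helper15 (after `wt_of_ev` of helper86): FROM EVENTS TO WEIGHTS FOR SUMS OF EVENTS. The layer formula, and: a bound of
`∑ j, P1 (F, B j)` for all events `F` which do not see some rows gives the same bound of `∑ j, Q1 (f * g j)` for all weights `f ≤ 1` which do not
see these rows and all `g j ≤ 1[B j]`.
-/

set_option autoImplicit false

namespace Pool.Agent.W_7d29a1_C0.P15

open MeasureTheory ProbabilityTheory Filter Topology Finset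
open Pool.Agent.W_7d29a1_F Pool.Agent.W_7d29a1_X Pool.Agent.W_7d29a1_h4g Pool.Agent.W_7d29a1_H
open Pool.Agent.W_7d29a1_HS (In wd md)
open Pool.Agent.W_7d29a1_HZ Pool.Agent.W_7d29a1_HZ.R72 Pool.Agent.W_7d29a1_Z.Asm72
open Pool.Agent.W_7d29a1_HZ.Z86
open Pool.Agent.W_7d29a1_C0.P86
open scoped ENNReal

variable {μ : Measure ℝ} {s : ℝ} {N : ℕ} [IsProbabilityMeasure μ]

/-- **The layer formula.** -/
theorem layer15 {y : ℤ} {f : Env → Finset ℕ → ℝ≥0∞} (hf : ∀ S, Measurable fun η => f η S) (hf1 : ∀ η S, f η S ≤ 1)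
    {C : Env → Finset ℕ → Prop} (hC : Ms C) : Q1 μ s N y (fun η S => f η S * ind (C η S)) =
      ∫⁻ u in Set.Ioo (0 : ℝ) 1, P1 μ s N y (fun η S => ENNReal.ofReal u < f η S ∧ C η S) := by
  classical
  have hlay : ∀ a : ℝ≥0∞, a ≤ 1 → ∫⁻ u in Set.Ioo (0 : ℝ) 1, ind (ENNReal.ofReal u < a) = a := by
    intro a ha
    have ha' : a ≠ ∞ := ne_top_of_le_ne_top ENNReal.one_ne_top ha
    have h1 : ∀ u ∈ Set.Ioo (0 : ℝ) 1, ind (ENNReal.ofReal u < a) = (Set.Ioo (0 : ℝ) a.toReal).indicator 1 u := by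
      intro u hu
      by_cases g : ENNReal.ofReal u < a
      · rw [ind_of g, Set.indicator_of_mem]
        · rfl
        · exact ⟨hu.1, (ENNReal.ofReal_lt_iff_lt_toReal hu.1.le ha').1 g⟩
      · rw [ind_not g, Set.indicator_of_notMem]
        exact fun g' => g ((ENNReal.ofReal_lt_iff_lt_toReal hu.1.le ha').2 g'.2)
    rw [setLIntegral_congr_fun measurableSet_Ioo h1, lintegral_indicator_one measurableSet_Ioo, Measure.restrict_apply measurableSet_Ioo,
      Set.inter_eq_left.2, Real.volume_Ioo, sub_zero, ENNReal.ofReal_toReal ha']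
    intro u hu
    refine ⟨hu.1, lt_of_lt_of_le hu.2 ?_⟩
    have := ENNReal.toReal_mono ENNReal.one_ne_top ha
    simpa using this
  have hmI : ∀ (S : Finset ℕ) (C : Env → Prop), MeasurableSet {η | C η} →
      Measurable fun p : Env × ℝ => ENNReal.ofReal (gp μ s p.1 N y S) * (ind (ENNReal.ofReal p.2 < f p.1 S) * ind (C p.1)) := by
    intro S C hC
    refine Measurable.mul ?_ (Measurable.mul ?_ ?_)
    · exact ((Pool.Agent.W_7d29a1_HZ.measurable_gp N y S).ennreal_ofReal).comp measurable_fst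
    · unfold ind
      refine Measurable.ite ?_ measurable_const measurable_const
      exact measurableSet_lt (ENNReal.measurable_ofReal.comp measurable_snd) ((hf S).comp measurable_fst)
    · exact (meas_ind hC).comp measurable_fst
  have e1 : ∀ u : ℝ, P1 μ s N y (fun η S => ENNReal.ofReal u < f η S ∧ C η S) =
      ∑ S ∈ (range N).powerset, ∫⁻ η, ENNReal.ofReal (gp μ s η N y S) * (ind (ENNReal.ofReal u < f η S) * ind (C η S)) ∂law μ := by
    intro u
    rw [← Q1_ind (ms_and (fun S => measurableSet_lt measurable_const (hf S)) hC)]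
    unfold Q1
    rw [lintegral_finsetSum]
    · refine sum_congr rfl fun S _ => lintegral_congr fun η => ?_
      show _ * ind (ENNReal.ofReal u < f η S ∧ C η S) = _ * (ind (ENNReal.ofReal u < f η S) * ind (C η S))
      congr 1
      by_cases g : ENNReal.ofReal u < f η S
      · by_cases g' : C η S
        · rw [ind_of (show ENNReal.ofReal u < f η S ∧ C η S from ⟨g, g'⟩), ind_of g, ind_of g', mul_one]
        · rw [ind_not (show ¬ (ENNReal.ofReal u < f η S ∧ C η S) from fun h => g' h.2), ind_not g', mul_zero]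
      · rw [ind_not (show ¬ (ENNReal.ofReal u < f η S ∧ C η S) from fun h => g h.1), ind_not g, zero_mul]
    · intro S _
      exact (Pool.Agent.W_7d29a1_HZ.measurable_gp N y S).ennreal_ofReal.mul
        (meas_ind ((measurableSet_lt measurable_const (hf S)).inter (hC S)))
  have e3 : ∫⁻ u in Set.Ioo (0 : ℝ) 1, P1 μ s N y (fun η S => ENNReal.ofReal u < f η S ∧ C η S) =
      ∑ S ∈ (range N).powerset, ∫⁻ u in Set.Ioo (0 : ℝ) 1, ∫⁻ η, ENNReal.ofReal (gp μ s η N y S) *
        (ind (ENNReal.ofReal u < f η S) * ind (C η S)) ∂law μ := by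
    rw [lintegral_congr e1, lintegral_finsetSum]
    exact fun S _ => Measurable.lintegral_prod_left' (hmI S (fun η => C η S) (hC S))
  rw [e3]
  have e4 : Q1 μ s N y (fun η S => f η S * ind (C η S)) = ∑ S ∈ (range N).powerset,
      ∫⁻ η, ENNReal.ofReal (gp μ s η N y S) * (f η S * ind (C η S)) ∂law μ := by
    unfold Q1
    exact lintegral_finsetSum _ fun S _ =>
      (Pool.Agent.W_7d29a1_HZ.measurable_gp N y S).ennreal_ofReal.mul ((hf S).mul (meas_ind (hC S)))
  rw [e4]
  refine sum_congr rfl fun S _ => ?_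
  rw [lintegral_lintegral_swap (f := fun u η => ENNReal.ofReal (gp μ s η N y S) * (ind (ENNReal.ofReal u < f η S) * ind (C η S)))
    ((hmI S (fun η => C η S) (hC S)).comp measurable_swap).aemeasurable]
  refine lintegral_congr fun η => ?_
  rw [lintegral_const_mul, lintegral_mul_const, hlay _ (hf1 η S)]
  · unfold ind
    exact Measurable.ite (measurableSet_lt ENNReal.measurable_ofReal measurable_const) measurable_const measurable_const
  · refine Measurable.mul_const ?_ _
    unfold ind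
    exact Measurable.ite (measurableSet_lt ENNReal.measurable_ofReal measurable_const) measurable_const measurable_const

theorem layer15' {y : ℤ} {f : Env → Finset ℕ → ℝ≥0∞} (hf : ∀ S, Measurable fun η => f η S) (hf1 : ∀ η S, f η S ≤ 1) :
    Q1 μ s N y f = ∫⁻ u in Set.Ioo (0 : ℝ) 1, P1 μ s N y (fun η S => ENNReal.ofReal u < f η S) := by
  have h1 := layer15 (μ := μ) (s := s) (N := N) (y := y) hf hf1 (C := fun _ _ => True) (fun S => by simp)
  have h2 : (fun (η : Env) (S : Finset ℕ) => f η S * ind True) = f := by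
    funext η S
    rw [ind_of trivial, mul_one]
  rw [h2] at h1
  rw [h1]
  refine lintegral_congr fun u => ?_
  congr 1
  funext η S
  simp

/-- **FROM EVENTS TO WEIGHTS, SUMS.** -/
theorem wt_sum {ι : Type*} (I : Finset ι) {y : ℤ} {B : ι → Env → Finset ℕ → Prop} (hB : ∀ i, Ms (B i)) {R e : ℝ≥0∞} {JJ : Set (Finset ℕ)}
    (h : ∀ F : Env → Finset ℕ → Prop, Ms F → (∀ J ∈ JJ, OffRows J F) →
      ∑ i ∈ I, P1 μ s N y (fun η S => F η S ∧ B i η S) ≤ R * P1 μ s N y F + e)
    {f : Env → Finset ℕ → ℝ≥0∞} (hf : ∀ S, Measurable fun η => f η S) (hf1 : ∀ η S, f η S ≤ 1) (hfo : ∀ J ∈ JJ, OffW J f) :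
    ∑ i ∈ I, Q1 μ s N y (fun η S => f η S * ind (B i η S)) ≤ R * Q1 μ s N y f + e := by
  have hm : ∀ C : Env → Finset ℕ → Prop, Measurable fun u : ℝ => P1 μ s N y (fun η S => ENNReal.ofReal u < f η S ∧ C η S) := fun C =>
    Antitone.measurable fun u v huv => A12.P1_mono fun η S hev => ⟨lt_of_le_of_lt (ENNReal.ofReal_le_ofReal huv) hev.1, hev.2⟩
  have hm' : Measurable fun u : ℝ => P1 μ s N y (fun η S => ENNReal.ofReal u < f η S) :=
    Antitone.measurable fun u v huv => A12.P1_mono fun η S hev => lt_of_le_of_lt (ENNReal.ofReal_le_ofReal huv) hev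
  have h1 : ∑ i ∈ I, Q1 μ s N y (fun η S => f η S * ind (B i η S)) =
      ∫⁻ u in Set.Ioo (0 : ℝ) 1, ∑ i ∈ I, P1 μ s N y (fun η S => ENNReal.ofReal u < f η S ∧ B i η S) := by
    rw [lintegral_finsetSum I fun i _ => hm (B i)]
    exact sum_congr rfl fun i _ => layer15 hf hf1 (hB i)
  rw [h1, layer15' hf hf1, ← lintegral_const_mul _ hm']
  refine (lintegral_mono (g := fun u => R * P1 μ s N y (fun η S => ENNReal.ofReal u < f η S) + e) fun u => ?_).trans ?_
  · refine h _ (fun S => measurableSet_lt measurable_const (hf S)) fun J hJ η η' S hη => ?_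
    show (ENNReal.ofReal u < f η S) ↔ (ENNReal.ofReal u < f η' S)
    rw [hfo J hJ η η' S hη]
  · rw [lintegral_add_right _ measurable_const, setLIntegral_const, Real.volume_Ioo]
    refine add_le_add le_rfl (le_of_eq ?_)
    norm_num

end Pool.Agent.W_7d29a1_C0.P15
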