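import Pool.Agent.W_7d29a1_C0.ClT46
import Pool.Agent.W_7d29a1_C0.Size1B

/-!
MP_7d29a1_pr, [CURV0] (helper44), leaf X2N, part 1 (abstract): THE MICRO TIE OF THE BASE WINDOW. `w` the actual log weights, `p` the outside
of the base window, `g` the clipped half response of the fine window, `h = - 2 a g`. `lap44`: the logarithm of the Laplace transform of `h`
against its mean, with the oscillation of `h` on a good set `G` and the masses of the complement at the actual weights and at the other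
corner. `eta44`: the same for `cE g - gb81 g`. No factor `exp B` in front of the masses of the bad set.
-/

set_option autoImplicit false
set_option linter.unusedSectionVars false

namespace Pool.Agent.W_7d29a1_C0.X2b44

open Finset MeasureTheory
open Pool.Agent.W_7d29a1_C0.Swap57 Pool.Agent.W_7d29a1_C0.Cl46
open Pool.W7d29a1.C0 (gz gm gz_pos gz_ne gm_mono gm_nonneg gm_add gm_smul gm_const gb81 gb81_apply Mc)
open Pool.W7d29a1.C0.VT31

noncomputable section

theorem exp_up44 (y : ℝ) : Real.exp y ≤ 1 + y + |y| * Real.exp |y| := by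
  rcases le_total 0 y with h | h
  · rw [abs_of_nonneg h]
    have h1 := Real.add_one_le_exp (-y)
    have h2 := Real.exp_pos y
    have h3 : Real.exp y * Real.exp (-y) = 1 := by
      rw [← Real.exp_add, add_neg_cancel, Real.exp_zero]
    have h4 := mul_le_mul_of_nonneg_left h1 h2.le
    rw [h3] at h4
    nlinarith
  · rw [abs_of_nonpos h]
    have h1 : Real.exp y ≤ 1 := Real.exp_le_one_iff.2 h
    have h2 : 1 ≤ Real.exp (-y) := Real.one_le_exp (by linarith)
    nlinarith

theorem log_lo44 {t : ℝ} (ht : 0 ≤ t) (h : t ≤ 1 / 2) : -(2 * t) ≤ Real.log (1 - t) := by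
  have h1 : 0 < 1 - t := by linarith
  have h2 := Real.one_sub_inv_le_log_of_pos h1
  have h3 : (1 - t)⁻¹ ≤ 1 + 2 * t := by
    rw [inv_le_iff_one_le_mul₀ h1]
    nlinarith
  linarith

theorem log_hi44 {t : ℝ} (ht : 0 ≤ t) (h : t ≤ 1 / 2) : Real.log (1 - t) ≤ 0 :=
  Real.log_nonpos (by linarith) (by linarith)

/-- The numbers of `lap44`. -/
theorem num_lap44 {Z Zg Zb Pg Pb Mg Mb A T B ξ : ℝ} (hB : 1 ≤ B) (hT : 0 ≤ T) (hZ : Z = Zg + Zb) (hP : Pg + Pb = 1)
    (hPb : 0 ≤ Pb) (hZb : 0 ≤ Zb) (hZ0 : 0 < Z) (hξB : ξ ≤ B) (hlog : |Real.log Z| ≤ B) (hM : |Mg + Mb| ≤ B) (hMb : |Mb| ≤ B * Pb)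
    (hMg : |Mg| ≤ ξ * Pg) (hPg : 0 ≤ Pg)
    (hlo : 0 < Pg → Pg * Real.exp (Mg / Pg) ≤ Zg)
    (hhi : 0 < Pg → Zg ≤ Pg * Real.exp (Mg / Pg) * (1 + Real.exp (2 * ξ) * (A / Pg))) (hA : 0 ≤ A) (hAT : 0 < Pg → A * Pg ≤ T) :
    |Real.log Z - (Mg + Mb)| ≤ 4 * Real.exp (2 * ξ) * T + (4 * B + 4) * (Pb + Zb / Z) := by
  have hd : 0 ≤ Zb / Z := div_nonneg hZb hZ0.le
  have hE := Real.exp_pos (2 * ξ)
  have hET : 0 ≤ 4 * Real.exp (2 * ξ) * T := by positivity
  by_cases h1 : Pb ≤ 1 / 2
  · by_cases h2 : Zb / Z ≤ 1 / 2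
    · have hPg2 : 1 / 2 ≤ Pg := by linarith
      have hPg0 : 0 < Pg := by linarith
      have hlo := hlo hPg0
      have hhi := hhi hPg0
      have hAT := hAT hPg0
      have e1 : Zg = Z * (1 - Zb / Z) := by
        field_simp
        linarith
      have hZg0 : 0 < Zg := by
        rw [e1]
        exact mul_pos hZ0 (by linarith)
      have e2 : Real.log Zg = Real.log Z + Real.log (1 - Zb / Z) := by
        rw [e1, Real.log_mul hZ0.ne' (by linarith)]
      have l1 := log_lo44 hd h2
      have l2 := log_hi44 hd h2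
      have l3 := log_lo44 hPb h1
      have l4 := log_hi44 hPb h1
      have ep : Pg = 1 - Pb := by linarith
      rw [← ep] at l3 l4
      have b1 : Real.log Pg + Mg / Pg ≤ Real.log Zg := by
        have := Real.log_le_log (by positivity) hlo
        rwa [Real.log_mul hPg0.ne' (Real.exp_pos _).ne', Real.log_exp] at this
      have hAP : 0 ≤ A / Pg := div_nonneg hA hPg
      have b2 : Real.log Zg ≤ Real.log Pg + Mg / Pg + Real.exp (2 * ξ) * (A / Pg) := by
        have h3 : 0 < 1 + Real.exp (2 * ξ) * (A / Pg) := by positivity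
        have := Real.log_le_log hZg0 hhi
        rw [Real.log_mul (by positivity) h3.ne', Real.log_mul hPg0.ne' (Real.exp_pos _).ne', Real.log_exp] at this
        have h4 := Real.log_le_sub_one_of_pos h3
        linarith
      have b3 : A / Pg ≤ 4 * T := by
        rw [div_le_iff₀ hPg0]
        have : A ≤ 2 * T := by nlinarith
        nlinarith
      have b4 : Real.exp (2 * ξ) * (A / Pg) ≤ 4 * Real.exp (2 * ξ) * T := by
        calc Real.exp (2 * ξ) * (A / Pg) ≤ Real.exp (2 * ξ) * (4 * T) := mul_le_mul_of_nonneg_left b3 hE.le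
          _ = _ := by ring
      -- the mean on the good set
      have c1 : |Mg / Pg - Mg| ≤ B * Pb := by
        have e3 : Mg / Pg - Mg = Mg / Pg * Pb := by
          rw [ep]
          have : (1 : ℝ) - Pb ≠ 0 := by linarith
          field_simp
          ring
        rw [e3, abs_mul, abs_of_nonneg hPb]
        refine mul_le_mul_of_nonneg_right ?_ hPb
        rw [abs_div, abs_of_pos hPg0, div_le_iff₀ hPg0]
        nlinarith
      obtain ⟨c2, c3⟩ := abs_le.1 c1
      obtain ⟨c4, c5⟩ := abs_le.1 hMb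
      rw [abs_le]
      constructor <;> nlinarith
    · push Not at h2
      have h3 : |Real.log Z - (Mg + Mb)| ≤ 2 * B := (abs_sub _ _).trans (by linarith)
      refine h3.trans ?_
      nlinarith
  · push Not at h1
    have h3 : |Real.log Z - (Mg + Mb)| ≤ 2 * B := (abs_sub _ _).trans (by linarith)
    refine h3.trans ?_
    nlinarith

section abstract

variable {X : Type*} [Fintype X] [DecidableEq X] [Nonempty X] {Y : Type*} [DecidableEq Y]

theorem id_add44 (P : X → Prop) (x : X) : id46 P x + id46 (fun z => ¬ P z) x = 1 := by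
  unfold id46
  by_cases h : P x
  · rw [if_pos h, if_neg (not_not.2 h)]
    norm_num
  · rw [if_neg h, if_pos h]
    norm_num

theorem cE_fun_add44 (w : X → ℝ) (p : X → Y) (f g : X → ℝ) (x : X) : cE w p (fun z => f z + g z) x = cE w p f x + cE w p g x := by
  have h := congrFun (cE_add w p f g) x
  exact h

theorem cE_fun_mul44 (w : X → ℝ) (p : X → Y) (c : ℝ) (f : X → ℝ) (x : X) : cE w p (fun z => c * f z) x = c * cE w p f x := by
  have h := congrFun (cE_smul w p c f) x
  exact h

theorem cE_one44 (w : X → ℝ) (p : X → Y) (x : X) : cE w p (fun _ => (1 : ℝ)) x = 1 := by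
  rw [cE_of_meas w fun _ _ _ => rfl]

theorem cE_abs44 (w : X → ℝ) (p : X → Y) (f : X → ℝ) (x : X) : |cE w p f x| ≤ cE w p (fun z => |f z|) x := by
  rw [abs_le]
  constructor
  · have h := cE_mono w p (f := fun z => -1 * |f z|) (g := f) (fun z => by
      rw [neg_one_mul]
      exact neg_abs_le _) x
    rw [cE_fun_mul44] at h
    linarith
  · exact cE_mono w p (fun z => le_abs_self _) x

variable {w h : X → ℝ} {p : X → Y} {G : X → Prop} {B ξ : ℝ}

/-- **The logarithm of the Laplace transform against the mean.** -/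
theorem lap44 (hB : 1 ≤ B) (hξB : ξ ≤ B) (hh : ∀ z, |h z| ≤ B) (hG : ∀ z, G z → |h z| ≤ ξ) (x : X) :
    |Real.log (cE w p (fun z => Real.exp (h z)) x) - cE w p h x| ≤
      4 * Real.exp (2 * ξ) * cE2 w p (fun z z' => |h z - h z'| * (id46 G z * id46 G z')) x x +
        (4 * B + 4) * (cE w p (id46 fun z => ¬ G z) x +
          cE w p (fun z => Real.exp (h z) * id46 (fun z => ¬ G z) z) x / cE w p (fun z => Real.exp (h z)) x) := by
  obtain ⟨ig, hig⟩ : ∃ ig : X → ℝ, ig = id46 G := ⟨_, rfl⟩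
  obtain ⟨ib, hib⟩ : ∃ ib : X → ℝ, ib = id46 (fun z => ¬ G z) := ⟨_, rfl⟩
  have e1 : ∀ z, ig z + ib z = 1 := fun z => by
    rw [hig, hib]
    exact id_add44 G z
  have ig0 : ∀ z, 0 ≤ ig z := fun z => by
    rw [hig]
    exact id_nonneg46 _ _
  have ib0 : ∀ z, 0 ≤ ib z := fun z => by
    rw [hib]
    exact id_nonneg46 _ _
  have hgξ : ∀ z, |h z| * ig z ≤ ξ * ig z := fun z => by
    rw [hig]
    unfold id46
    split_ifs with h1
    · rw [mul_one, mul_one]
      exact hG z h1
    · rw [mul_zero, mul_zero]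
  obtain ⟨Z, hZ⟩ : ∃ Z, Z = cE w p (fun z => Real.exp (h z)) x := ⟨_, rfl⟩
  obtain ⟨Zg, hZg⟩ : ∃ Zg, Zg = cE w p (fun z => Real.exp (h z) * ig z) x := ⟨_, rfl⟩
  obtain ⟨Zb, hZb⟩ : ∃ Zb, Zb = cE w p (fun z => Real.exp (h z) * ib z) x := ⟨_, rfl⟩
  obtain ⟨Pg, hPg⟩ : ∃ Pg, Pg = cE w p ig x := ⟨_, rfl⟩
  obtain ⟨Pb, hPb⟩ : ∃ Pb, Pb = cE w p ib x := ⟨_, rfl⟩
  obtain ⟨Mg, hMg⟩ : ∃ Mg, Mg = cE w p (fun z => h z * ig z) x := ⟨_, rfl⟩
  obtain ⟨Mb, hMb⟩ : ∃ Mb, Mb = cE w p (fun z => h z * ib z) x := ⟨_, rfl⟩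
  obtain ⟨T, hT⟩ : ∃ T, T = cE2 w p (fun z z' => |h z - h z'| * (ig z * ig z')) x x := ⟨_, rfl⟩
  obtain ⟨A, hA⟩ : ∃ A, A = cE w p (fun z => |h z - Mg / Pg| * ig z) x := ⟨_, rfl⟩
  have eM : cE w p h x = Mg + Mb := by
    rw [hMg, hMb, ← cE_fun_add44]
    congr 1
    funext z
    rw [← mul_add, e1, mul_one]
  have eZ : Z = Zg + Zb := by
    rw [hZ, hZg, hZb, ← cE_fun_add44]
    congr 1
    funext z
    rw [← mul_add, e1, mul_one]
  have eP : Pg + Pb = 1 := by
    rw [hPg, hPb, ← cE_fun_add44]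
    simp only [e1]
    exact cE_one44 w p x
  have Z0 : 0 < Z := by
    rw [hZ]
    exact cE_exp_pos w h p x
  have Pb0 : 0 ≤ Pb := by
    rw [hPb]
    exact cE_nonneg w p ib0 x
  have Pg0 : 0 ≤ Pg := by
    rw [hPg]
    exact cE_nonneg w p ig0 x
  have Zb0 : 0 ≤ Zb := by
    rw [hZb]
    exact cE_nonneg w p (fun z => mul_nonneg (Real.exp_pos _).le (ib0 z)) x
  have T0 : 0 ≤ T := by
    rw [hT]
    exact cE2_nonneg w p (fun z z' => mul_nonneg (abs_nonneg _) (mul_nonneg (ig0 z) (ig0 z'))) x x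
  have A0 : 0 ≤ A := by
    rw [hA]
    exact cE_nonneg w p (fun z => mul_nonneg (abs_nonneg _) (ig0 z)) x
  have hlog : |Real.log Z| ≤ B := by
    rw [hZ, abs_le]
    have h1 := cE_mono w p (f := fun z => Real.exp (h z)) (g := fun _ => Real.exp B * 1) (fun z => by
      rw [mul_one]
      exact Real.exp_le_exp.2 ((le_abs_self _).trans (hh z))) x
    have h2 := cE_mono w p (f := fun _ => Real.exp (-B) * 1) (g := fun z => Real.exp (h z)) (fun z => by
      rw [mul_one]
      exact Real.exp_le_exp.2 (by linarith [(abs_le.1 (hh z)).1])) x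
    rw [cE_fun_mul44 w p _ (fun _ => (1 : ℝ)), cE_one44, mul_one] at h1 h2
    rw [← hZ] at h1 h2 ⊢
    constructor
    · have := Real.log_le_log (Real.exp_pos _) h2
      rwa [Real.log_exp] at this
    · have := Real.log_le_log Z0 h1
      rwa [Real.log_exp] at this
  have hM : |Mg + Mb| ≤ B := by
    rw [← eM]
    refine (cE_abs44 w p h x).trans ?_
    have h1 := cE_mono w p (f := fun z => |h z|) (g := fun _ => B * 1) (fun z => by
      rw [mul_one]
      exact hh z) x
    rwa [cE_fun_mul44 w p _ (fun _ => (1 : ℝ)), cE_one44, mul_one] at h1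
  have hMb' : |Mb| ≤ B * Pb := by
    rw [hMb, hPb, ← cE_fun_mul44]
    refine (cE_abs44 w p _ x).trans (cE_mono w p (fun z => ?_) x)
    rw [abs_mul, abs_of_nonneg (ib0 z)]
    exact mul_le_mul_of_nonneg_right (hh z) (ib0 z)
  have hMg' : |Mg| ≤ ξ * Pg := by
    rw [hMg, hPg, ← cE_fun_mul44]
    refine (cE_abs44 w p _ x).trans (cE_mono w p (fun z => ?_) x)
    rw [abs_mul, abs_of_nonneg (ig0 z)]
    exact hgξ z
  have key := num_lap44 (ξ := ξ) hB T0 eZ eP Pb0 Zb0 Z0 hξB hlog hM hMb' hMg' Pg0 (A := A) (fun hP => ?_) (fun hP => ?_) A0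
    (fun hP => ?_)
  · rw [← eM] at key
    rw [hZ, hZb, hPb, hT] at key
    rw [← hig, ← hib]
    exact key
  · -- lower bound
    have h1 : cE w p (fun z => (1 + (h z - Mg / Pg)) * ig z) x ≤ cE w p (fun z => Real.exp (-(Mg / Pg)) * (Real.exp (h z) * ig z)) x := by
      refine cE_mono w p (fun z => ?_) x
      have h2 := Real.add_one_le_exp (h z - Mg / Pg)
      have e : Real.exp (-(Mg / Pg)) * (Real.exp (h z) * ig z) = Real.exp (h z - Mg / Pg) * ig z := by
        rw [sub_eq_add_neg, Real.exp_add]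
        ring
      rw [e]
      exact mul_le_mul_of_nonneg_right (by linarith) (ig0 z)
    have h2 : cE w p (fun z => (1 + (h z - Mg / Pg)) * ig z) x = Pg := by
      have e : (fun z => (1 + (h z - Mg / Pg)) * ig z) = fun z => (1 - Mg / Pg) * ig z + h z * ig z := by
        funext z
        ring
      rw [e, cE_fun_add44, cE_fun_mul44, ← hPg, ← hMg]
      field_simp
      ring
    rw [h2, cE_fun_mul44, ← hZg] at h1
    have h3 := mul_le_mul_of_nonneg_left h1 (Real.exp_pos (Mg / Pg)).le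
    rw [← mul_assoc, ← Real.exp_add, add_neg_cancel, Real.exp_zero, one_mul] at h3
    linarith
  · -- upper bound
    have hm0 : |Mg / Pg| ≤ ξ := by
      rw [abs_div, abs_of_pos hP, div_le_iff₀ hP]
      exact hMg'
    have h1 : cE w p (fun z => Real.exp (-(Mg / Pg)) * (Real.exp (h z) * ig z)) x ≤
        cE w p (fun z => (1 + (h z - Mg / Pg)) * ig z + Real.exp (2 * ξ) * (|h z - Mg / Pg| * ig z)) x := by
      refine cE_mono w p (fun z => ?_) x
      have e : Real.exp (-(Mg / Pg)) * (Real.exp (h z) * ig z) = Real.exp (h z - Mg / Pg) * ig z := by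
        rw [sub_eq_add_neg, Real.exp_add]
        ring
      rw [e]
      by_cases hz : G z
      · have h3 : |h z - Mg / Pg| ≤ 2 * ξ := (abs_sub _ _).trans (by linarith [hG z hz])
        have h4 := exp_up44 (h z - Mg / Pg)
        have h5 := mul_le_mul_of_nonneg_left (Real.exp_le_exp.2 h3) (abs_nonneg (h z - Mg / Pg))
        have h6 : Real.exp (h z - Mg / Pg) ≤ 1 + (h z - Mg / Pg) + Real.exp (2 * ξ) * |h z - Mg / Pg| := by linarith
        have h7 := mul_le_mul_of_nonneg_right h6 (ig0 z)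
        linarith
      · have h3 : ig z = 0 := by
          rw [hig]
          unfold id46
          rw [if_neg hz]
        rw [h3]
        simp
    have h2 : cE w p (fun z => (1 + (h z - Mg / Pg)) * ig z + Real.exp (2 * ξ) * (|h z - Mg / Pg| * ig z)) x =
        Pg + Real.exp (2 * ξ) * A := by
      rw [cE_fun_add44, cE_fun_mul44, ← hA]
      have e : (fun z => (1 + (h z - Mg / Pg)) * ig z) = fun z => (1 - Mg / Pg) * ig z + h z * ig z := by
        funext z
        ring
      rw [e, cE_fun_add44, cE_fun_mul44, ← hPg, ← hMg]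
      have e2 : (1 - Mg / Pg) * Pg + Mg = Pg := by
        field_simp
        ring
      rw [e2]
    rw [h2, cE_fun_mul44, ← hZg] at h1
    have h3 := mul_le_mul_of_nonneg_left h1 (Real.exp_pos (Mg / Pg)).le
    rw [← mul_assoc, ← Real.exp_add, add_neg_cancel, Real.exp_zero, one_mul] at h3
    refine h3.trans (le_of_eq ?_)
    field_simp
  · -- the oscillation
    rw [hA, mul_comm, ← cE_fun_mul44, hT]
    unfold cE2
    refine cE_mono w p (fun z => ?_) x
    have e : (h z - Mg / Pg) * Pg = cE w p (fun z' => (h z - h z') * ig z') x := by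
      have e2 : (fun z' => (h z - h z') * ig z') = fun z' => h z * ig z' + (-1) * (h z' * ig z') := by
        funext z'
        ring
      rw [e2, cE_fun_add44, cE_fun_mul44, cE_fun_mul44, ← hPg, ← hMg]
      field_simp
      ring
    have e3 : Pg * (|h z - Mg / Pg| * ig z) = |(h z - Mg / Pg) * Pg| * ig z := by
      rw [abs_mul, abs_of_pos hP]
      ring
    rw [e3, e]
    refine (mul_le_mul_of_nonneg_right (cE_abs44 w p _ x) (ig0 z)).trans (le_of_eq ?_)
    rw [mul_comm, ← cE_fun_mul44]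
    congr 1
    funext z'
    rw [abs_mul, abs_of_nonneg (ig0 z')]
    ring

/-- **The size of `cE g - gb81 g`** for a clipped response which is small on the good set. -/
theorem eta44 {g : X → ℝ} {a : ℝ} (ha : a = 1 ∨ a = -1) (hB : 1 ≤ B) (hξB : ξ ≤ B) (hg : ∀ z, |g z| ≤ B / 2)
    (hG : ∀ z, G z → |g z| ≤ ξ / 2) (x : X) :
    |cE w p g x - gb81 (w - a • g) g p x| ≤
      4 * Real.exp (2 * ξ) * cE2 w p (fun z z' => |g z - g z'| * (id46 G z * id46 G z')) x x +
        (2 * B + 2) * (cE w p (id46 fun z => ¬ G z) x +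
          cE w p (fun z => Real.exp (-2 * a * g z) * id46 (fun z => ¬ G z) z) x / cE w p (fun z => Real.exp (-2 * a * g z)) x) := by
  have ha2 : a * a = 1 := by
    rcases ha with rfl | rfl <;> norm_num
  have haa : |a| = 1 := by
    rcases ha with rfl | rfl <;> norm_num
  have hh : ∀ z, |-2 * a * g z| = 2 * |g z| := fun z => by
    rw [abs_mul, abs_mul, haa]
    norm_num
  have key := lap44 (w := w) (h := fun z => -2 * a * g z) (p := p) (G := G) (B := B) (ξ := ξ) hB hξB
    (fun z => by rw [hh]; linarith [hg z]) (fun z hz => by rw [hh]; linarith [hG z hz]) x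
  have e1 : cE w p (fun z => -2 * a * g z) x = -2 * a * cE w p g x := cE_fun_mul44 w p (-2 * a) g x
  have e2 : cE2 w p (fun z z' => |-2 * a * g z - -2 * a * g z'| * (id46 G z * id46 G z')) x x =
      2 * cE2 w p (fun z z' => |g z - g z'| * (id46 G z * id46 G z')) x x := by
    unfold cE2
    rw [← cE_fun_mul44]
    congr 1
    funext z
    rw [← cE_fun_mul44]
    congr 1
    funext z'
    have e3 : -2 * a * g z - -2 * a * g z' = -2 * a * (g z - g z') := by ring
    beta_reduce
    rw [e3, abs_mul, abs_mul, haa]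
    norm_num
    ring
  rw [e1, e2] at key
  rw [gb_log46 w g p ha x]
  have e4 : cE w p g x - -(a / 2) * Real.log (cE w p (fun z => Real.exp (-2 * a * g z)) x) =
      a / 2 * (Real.log (cE w p (fun z => Real.exp (-2 * a * g z)) x) - -2 * a * cE w p g x) := by
    linear_combination (-(cE w p g x)) * ha2
  rw [e4, abs_mul, abs_div, haa, abs_two]
  linarith

end abstract

end

end Pool.Agent.W_7d29a1_C0.X2b44
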