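import Pool.Agent.W_7d29a1_C0.X2T44
import Pool.Agent.W_7d29a1_C0.Eta3B
import Pool.Agent.W_7d29a1_C0.GwJ50
import Pool.Agent.W_7d29a1_C0.E2bF44
import Pool.Agent.W_7d29a1_C0.ClE46

/-!
MP_7d29a1_pr, [CURV0] (helper44), leaf X2N, part 3 (the rows, pathwise): `k2b` = the double tie of E2b at the pair of windows `(b0, b)`.
`row_eta44`: the micro tie `cE (gg b0) - ge5` of the base window is told from two replicas given the base window which miss each other on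
one half of the fine window. `row_r44`: one row is at most `B ^ 2 a5 (0, b0, b)` plus errors. `k2b_eq44`, `k2b_clip44`: the row functional.
-/

set_option autoImplicit false
set_option linter.unusedSectionVars false
set_option linter.unusedVariables false

namespace Pool.Agent.W_7d29a1_C0.X2b44

open Pool.Agent.W_7d29a1_F hiding W_pos W_nonneg W_add
open Finset MeasureTheory Pool.Agent.W_7d29a1_X
open Pool.Agent.W_7d29a1_H (sl)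
open Pool.Agent.W_7d29a1_C0 Pool.Agent.W_7d29a1_C0.Mod92 Pool.Agent.W_7d29a1_C0.Flip61 Pool.Agent.W_7d29a1_C0.Blk18
open Pool.Agent.W_7d29a1_C0.Cl46 Pool.Agent.W_7d29a1_C0.Eta3 Pool.Agent.W_7d29a1_C0.GwA50
open Pool.Agent.W_7d29a1_C0.LocM18 (Cn)
open Pool.Agent.W_7d29a1_C0.Swap57 Pool.Agent.W_7d29a1_C0.E4T32 Pool.Agent.W_7d29a1_C0.Base5
open Pool.W7d29a1.C0 (gz gm gz_pos gz_ne gm_mono gm_nonneg gm_add gm_smul gm_const gb81 gb81_apply Mc)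
open Pool.W7d29a1.C0.VT31 Pool.W7d29a1.C0.S1 Pool.W7d29a1.C0.R43

noncomputable section

variable {μ : Measure ℝ} {s : ℝ} {N : ℕ} {Q : Finset (Finset ℕ)}

/-- The fine window of the row `j` is good: its ends are not steep and its response is at most `ξ₁`. -/
def Gw44 (μ : Measure ℝ) (s γ' ξ₁ : ℝ) (ω : Env × Finset ℕ) (b0 j : ℕ) (S : Px Q) : Prop :=
  Wx μ s γ' ξ₁ ω.1 (j - b0) (j + b0 - (j - b0)) (j - (j - b0)) (sg ω.2 j) (pos S.1 (j - b0)) (pos S.1 (j - b0 + (j + b0 - (j - b0))))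

/-- The mass of the bad fine windows given the base window, at the actual weights. -/
def Pa44 (μ : Measure ℝ) (s : ℝ) (N : ℕ) (Q : Finset (Finset ℕ)) (γ' ξ₁ : ℝ) (b0 b j : ℕ) (ω : Env × Finset ℕ) (S : Px Q) : ℝ :=
  cE (wm μ s N Q ω) (pW b j) (id46 fun z => ¬ Gw44 μ s γ' ξ₁ ω b0 j z) S

/-- The same at the other corner of the row `j`. -/
def Pb44 (μ : Measure ℝ) (s : ℝ) (N : ℕ) (Q : Finset (Finset ℕ)) (γ B γ' ξ₁ : ℝ) (b0 b j : ℕ) (ω : Env × Finset ℕ) (S : Px Q) : ℝ :=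
  cE (wm μ s N Q ω) (pW b j) (fun z => Real.exp (-2 * sr ω.2 j * gg μ s Q γ B b0 ω j z) *
    id46 (fun z => ¬ Gw44 μ s γ' ξ₁ ω b0 j z) z) S / cE (wm μ s N Q ω) (pW b j) (fun z => Real.exp (-2 * sr ω.2 j * gg μ s Q γ B b0 ω j z)) S

theorem sr_or44 (A : Finset ℕ) (j : ℕ) : sr A j = 1 ∨ sr A j = -1 := by
  unfold sr
  rcases sg_or A j with h | h <;> rw [h] <;> norm_num

theorem Pa_nonneg44 [Nonempty (Px Q)] (γ' ξ₁ : ℝ) (b0 b j : ℕ) (ω : Env × Finset ℕ) (S : Px Q) :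
    0 ≤ Pa44 μ s N Q γ' ξ₁ b0 b j ω S := cE_nonneg _ _ (fun _ => id_nonneg46 _ _) S

theorem Pa_le44 [Nonempty (Px Q)] (γ' ξ₁ : ℝ) (b0 b j : ℕ) (ω : Env × Finset ℕ) (S : Px Q) : Pa44 μ s N Q γ' ξ₁ b0 b j ω S ≤ 1 :=
  (cE_mono (wm μ s N Q ω) (pW b j) (g := fun _ => 1) (fun _ => id_le46 _ _) S).trans (cE_one44 _ _ _).le

theorem Pb_nonneg44 [Nonempty (Px Q)] (γ B γ' ξ₁ : ℝ) (b0 b j : ℕ) (ω : Env × Finset ℕ) (S : Px Q) :
    0 ≤ Pb44 μ s N Q γ B γ' ξ₁ b0 b j ω S :=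
  div_nonneg (cE_nonneg _ _ (fun _ => mul_nonneg (Real.exp_pos _).le (id_nonneg46 _ _)) S)
    (cE_nonneg _ _ (fun _ => (Real.exp_pos _).le) S)

theorem Pb_le44 [Nonempty (Px Q)] (γ B γ' ξ₁ : ℝ) (b0 b j : ℕ) (ω : Env × Finset ℕ) (S : Px Q) :
    Pb44 μ s N Q γ B γ' ξ₁ b0 b j ω S ≤ 1 := by
  unfold Pb44
  rw [div_le_one (cE_exp_pos _ (fun z => -2 * sr ω.2 j * gg μ s Q γ B b0 ω j z) _ S)]
  exact cE_mono _ _ (fun z => mul_le_of_le_one_right (Real.exp_pos _).le (id_le46 _ _)) S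

section rows

variable [SwQ Q] [Nonempty (Px Q)]

/-- Indicator form with an additive error. -/
theorem fin44 {Y C L e : ℝ} {c al be d : ℕ} {u : Px Q → ℝ} {p : Px Q → Finset ℕ × ℕ} {S : Px Q} (m : ℝ) (h1 : |Y| ≤ C)
    (h2 : |Y| ≤ L * cE2 u p (NM c al be d) S S + e) (hL : 0 ≤ L) (he : 0 ≤ e) :
    |Y| ≤ C * tI u p c al be d m S + 2 * L * Real.exp (-(5 * m)) + e := by
  have hT : 0 ≤ cE2 u p (NM c al be d) S S := cE2_nonneg _ _ (NM_nonneg _ _ _ _) _ _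
  have hC : 0 ≤ C := (abs_nonneg _).trans h1
  obtain ⟨Z, hZ⟩ : ∃ Z, Z = max (|Y| - e) 0 := ⟨_, rfl⟩
  have hZ0 : 0 ≤ Z := by
    rw [hZ]
    exact le_max_right _ _
  have a1 : |Z| ≤ C := by
    rw [abs_of_nonneg hZ0, hZ]
    exact max_le (by linarith) hC
  have a2 : |Z| ≤ L * cE2 u p (NM c al be d) S S := by
    rw [abs_of_nonneg hZ0, hZ]
    exact max_le (by linarith) (mul_nonneg hL hT)
  have a3 := fin1 m a1 a2 hL
  rw [abs_of_nonneg hZ0] at a3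
  have a4 : |Y| - e ≤ Z := by
    rw [hZ]
    exact le_max_left _ _
  linarith

variable {κ δ₁ ε c' γ γ' B ξ₁ : ℝ} {b0 b σ j : ℕ} {ω : Env × Finset ℕ}

/-- **THE MICRO TIE OF THE BASE WINDOW**, one row. -/
theorem row_eta44 (hQ : Full N Q) (hG : GwW μ s N κ γ δ₁ ε c' ω.1) (hκ : (N : ℝ) ^ κ ≤ b0) (hbb : b0 ≤ b) (hbj : b ≤ j)
    (hjN : j + b ≤ N) (hB : 1 ≤ B) (hξB : ξ₁ ≤ B) (hcn : ∀ S : Px Q, Gw44 μ s γ' ξ₁ ω b0 j S → Cn μ s δ₁ (j - b0) (j + b0) S)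
    (hgg : ∀ S : Px Q, Gw44 μ s γ' ξ₁ ω b0 j S → |gg μ s Q γ B b0 ω j S| ≤ ξ₁ / 2) (S : Px Q) (m : ℝ) :
    |cE (wm μ s N Q ω) (pW b j) (gg μ s Q γ B b0 ω j) S - ge5 μ s N Q γ B b0 b ω j S| ≤
      B * tI (wm μ s N Q ω) (pW b j) (j - b0) j j (j + b0) m S +
        2 * (4 * Real.exp (2 * ξ₁) * Real.exp ((N : ℝ) ^ ε)) * Real.exp (-(5 * m)) +
        (4 * Real.exp (2 * ξ₁) * Real.exp (-(N : ℝ) ^ c') + (2 * B + 2) * (Pa44 μ s N Q γ' ξ₁ b0 b j ω S + Pb44 μ s N Q γ B γ' ξ₁ b0 b j ω S)) := by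
  have hB0 : 0 ≤ B := by linarith
  have hbg : ∀ z, |gg μ s Q γ B b0 ω j z| ≤ B / 2 := fun z => abs_gg hB0 b0 ω j z
  have e1 := eta44 (w := wm μ s N Q ω) (p := pW b j) (G := Gw44 (Q := Q) μ s γ' ξ₁ ω b0 j) (g := gg μ s Q γ B b0 ω j)
    (sr_or44 ω.2 j) hB hξB hbg hgg S
  have e2 : gb81 (wm μ s N Q ω - sr ω.2 j • gg μ s Q γ B b0 ω j) (gg μ s Q γ B b0 ω j) (pW b j) S = ge5 μ s N Q γ B b0 b ω j S := rfl
  rw [e2] at e1
  have hP := Pa_nonneg44 (μ := μ) (s := s) (N := N) γ' ξ₁ b0 b j ω S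
  have hP' := Pb_nonneg44 (μ := μ) (s := s) (N := N) γ B γ' ξ₁ b0 b j ω S
  -- the trivial bound
  have t1 : |cE (wm μ s N Q ω) (pW b j) (gg μ s Q γ B b0 ω j) S - ge5 μ s N Q γ B b0 b ω j S| ≤ B := by
    have a1 : |ge5 μ s N Q γ B b0 b ω j S| ≤ B / 2 := Cl46.abs_gb46 _ _ hbg S
    have a2 := (cE_abs44 (wm μ s N Q ω) (pW b j) (gg μ s Q γ B b0 ω j) S).trans
      ((cE_mono (wm μ s N Q ω) (pW b j) (g := fun _ => B / 2 * 1) (fun z => by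
        rw [mul_one]
        exact hbg z) S).trans (le_of_eq (by rw [cE_fun_mul44 _ _ _ (fun _ => (1 : ℝ)), cE_one44, mul_one])))
    refine (abs_sub _ _).trans ?_
    linarith
  -- the oscillation on the good set
  have e3 : cE2 (wm μ s N Q ω) (pW b j) (fun z z' => |gg μ s Q γ B b0 ω j z - gg μ s Q γ B b0 ω j z'| *
      (id46 (Gw44 (Q := Q) μ s γ' ξ₁ ω b0 j) z * id46 (Gw44 (Q := Q) μ s γ' ξ₁ ω b0 j) z')) S S ≤
      Real.exp ((N : ℝ) ^ ε) * cE2 (wm μ s N Q ω) (pW b j) (NM (j - b0) j j (j + b0)) S S + Real.exp (-(N : ℝ) ^ c') := by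
    have a1 : ∀ z z', |gg μ s Q γ B b0 ω j z - gg μ s Q γ B b0 ω j z'| *
        (id46 (Gw44 (Q := Q) μ s γ' ξ₁ ω b0 j) z * id46 (Gw44 (Q := Q) μ s γ' ξ₁ ω b0 j) z') ≤
        Real.exp ((N : ℝ) ^ ε) * cE2 (wm μ s N Q ω) (pW b0 j) (NM (j - b0) j j (j + b0)) z z' + Real.exp (-(N : ℝ) ^ c') * 1 := by
      intro z z'
      have p0 : 0 ≤ Real.exp ((N : ℝ) ^ ε) * cE2 (wm μ s N Q ω) (pW b0 j) (NM (j - b0) j j (j + b0)) z z' +
          Real.exp (-(N : ℝ) ^ c') * 1 :=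
        add_nonneg (mul_nonneg (Real.exp_pos _).le (cE2_nonneg _ _ (NM_nonneg _ _ _ _) _ _))
          (mul_nonneg (Real.exp_pos _).le zero_le_one)
      by_cases hz : Gw44 (Q := Q) μ s γ' ξ₁ ω b0 j z
      · by_cases hz' : Gw44 (Q := Q) μ s γ' ξ₁ ω b0 j z'
        · have h1 : id46 (Gw44 (Q := Q) μ s γ' ξ₁ ω b0 j) z = 1 := by
            unfold id46
            exact if_pos hz
          have h2 : id46 (Gw44 (Q := Q) μ s γ' ξ₁ ω b0 j) z' = 1 := by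
            unfold id46
            exact if_pos hz'
          rw [h1, h2, mul_one, mul_one, mul_one]
          have hl1 : (N : ℝ) ^ κ ≤ ((j - (j - b0) : ℕ) : ℝ) := by
            rw [show j - (j - b0) = b0 by omega]
            exact hκ
          exact hG.gj hQ (by omega) hl1 hκ B (sg_or ω.2 j) (hcn z hz) (hcn z' hz')
        · have h2 : id46 (Gw44 (Q := Q) μ s γ' ξ₁ ω b0 j) z' = 0 := by
            unfold id46
            exact if_neg hz'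
          rw [h2, mul_zero, mul_zero]
          exact p0
      · have h2 : id46 (Gw44 (Q := Q) μ s γ' ξ₁ ω b0 j) z = 0 := by
          unfold id46
          exact if_neg hz
        rw [h2, zero_mul, mul_zero]
        exact p0
    refine (cE2_mono (wm μ s N Q ω) (pW b j) a1 S S).trans (le_of_eq ?_)
    rw [cE2_add, cE2_mul, cE2_mul, cE2_one, mul_one]
    congr 2
    exact cE2_tower (wm μ s N Q ω) (crs_pJ (by omega) (by omega)) (NM (j - b0) j j (j + b0)) S S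
  have hE1 := Real.exp_pos (2 * ξ₁)
  have hE2 := Real.exp_pos ((N : ℝ) ^ ε)
  have hE3 := Real.exp_pos (-(N : ℝ) ^ c')
  have e4 : |cE (wm μ s N Q ω) (pW b j) (gg μ s Q γ B b0 ω j) S - ge5 μ s N Q γ B b0 b ω j S| ≤
      4 * Real.exp (2 * ξ₁) * Real.exp ((N : ℝ) ^ ε) * cE2 (wm μ s N Q ω) (pW b j) (NM (j - b0) j j (j + b0)) S S +
        (4 * Real.exp (2 * ξ₁) * Real.exp (-(N : ℝ) ^ c') +
          (2 * B + 2) * (Pa44 μ s N Q γ' ξ₁ b0 b j ω S + Pb44 μ s N Q γ B γ' ξ₁ b0 b j ω S)) := by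
    have a1 := mul_le_mul_of_nonneg_left e3 (show 0 ≤ 4 * Real.exp (2 * ξ₁) by positivity)
    have e5 : |cE (wm μ s N Q ω) (pW b j) (gg μ s Q γ B b0 ω j) S - ge5 μ s N Q γ B b0 b ω j S| ≤
        4 * Real.exp (2 * ξ₁) * cE2 (wm μ s N Q ω) (pW b j) (fun z z' => |gg μ s Q γ B b0 ω j z - gg μ s Q γ B b0 ω j z'| *
          (id46 (Gw44 (Q := Q) μ s γ' ξ₁ ω b0 j) z * id46 (Gw44 (Q := Q) μ s γ' ξ₁ ω b0 j) z')) S S +
        (2 * B + 2) * (Pa44 μ s N Q γ' ξ₁ b0 b j ω S + Pb44 μ s N Q γ B γ' ξ₁ b0 b j ω S) := e1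
    linarith
  exact fin44 m t1 e4 (by positivity) (by positivity)

/-- The error of one row which is not random. -/
def t44 (N : ℕ) (ε c' B ξ₁ m : ℝ) : ℝ :=
  B * (2 * (4 * Real.exp (2 * ξ₁) * Real.exp ((N : ℝ) ^ ε)) * Real.exp (-(5 * m)) + 4 * Real.exp (2 * ξ₁) * Real.exp (-(N : ℝ) ^ c')) +
    4 * B ^ 2 * (Real.exp (4 * B) * Real.exp (-(4 * m)))

theorem t44_nonneg (hB : 0 ≤ B) (m : ℝ) : 0 ≤ t44 N ε c' B ξ₁ m := by
  unfold t44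
  positivity

/-- One row before the conditional mean. -/
def r44 (μ : Measure ℝ) (s : ℝ) (N : ℕ) (Q : Finset (Finset ℕ)) (γ B : ℝ) (b0 b σ : ℕ) (ω : Env × Finset ℕ) (j : ℕ) : Px Q → ℝ :=
  (cE (wm μ s N Q ω) (pW b j) (gg μ s Q γ B b0 ω j) - ge5 μ s N Q γ B b0 b ω j) *
    (ge5 μ s N Q γ B b0 b ω j - cE (wm μ s N Q ω) (pB σ j) (ge5 μ s N Q γ B b0 b ω j))

theorem abs_r44 (hB : 0 ≤ B) (S : Px Q) : |r44 μ s N Q γ B b0 b σ ω j S| ≤ B ^ 2 := by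
  have hbg : ∀ z, |gg μ s Q γ B b0 ω j z| ≤ B / 2 := fun z => abs_gg hB b0 ω j z
  have a1 : ∀ z, |ge5 μ s N Q γ B b0 b ω j z| ≤ B / 2 := fun z => Cl46.abs_gb46 _ _ hbg z
  have key : ∀ (p : Px Q → Finset ℕ × ℕ) {f : Px Q → ℝ}, (∀ z, |f z| ≤ B / 2) → |cE (wm μ s N Q ω) p f S| ≤ B / 2 := fun p f hf =>
    (cE_abs44 (wm μ s N Q ω) p f S).trans ((cE_mono (wm μ s N Q ω) p (g := fun _ => B / 2 * 1) (fun z => by
      rw [mul_one]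
      exact hf z) S).trans (le_of_eq (by rw [cE_fun_mul44 _ _ _ (fun _ => (1 : ℝ)), cE_one44, mul_one])))
  unfold r44
  rw [Pi.mul_apply, Pi.sub_apply, Pi.sub_apply, abs_mul]
  have h1 : |cE (wm μ s N Q ω) (pW b j) (gg μ s Q γ B b0 ω j) S - ge5 μ s N Q γ B b0 b ω j S| ≤ B :=
    (abs_sub _ _).trans (by linarith [key (pW b j) hbg, a1 S])
  have h2 : |ge5 μ s N Q γ B b0 b ω j S - cE (wm μ s N Q ω) (pB σ j) (ge5 μ s N Q γ B b0 b ω j) S| ≤ B :=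
    (abs_sub _ _).trans (by linarith [key (pB σ j) a1, a1 S])
  calc _ ≤ B * B := mul_le_mul h1 h2 (abs_nonneg _) hB
    _ = B ^ 2 := by ring

/-- **THE SIZE OF ONE ROW.** -/
theorem row_r44 (hQ : Full N Q) (hG : GwW μ s N κ γ δ₁ ε c' ω.1) (hκ : (N : ℝ) ^ κ ≤ b0) (hbb : b0 ≤ b) (hbj : b ≤ j)
    (hjN : j + b ≤ N) (hB : 2 ≤ B) (hξB : ξ₁ ≤ B) (hcn : ∀ S : Px Q, Gw44 μ s γ' ξ₁ ω b0 j S → Cn μ s δ₁ (j - b0) (j + b0) S)
    (hgg : ∀ S : Px Q, Gw44 μ s γ' ξ₁ ω b0 j S → |gg μ s Q γ B b0 ω j S| ≤ ξ₁ / 2)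
    (h1 : j / σ * σ + b ≤ j) (h2 : j + b ≤ j / σ * σ + σ) (S : Px Q) (m : ℝ) :
    |r44 μ s N Q γ B b0 b σ ω j S| ≤ B ^ 2 * a5 (wm μ s N Q ω) 0 b0 b σ j m S +
      (2 * B ^ 2 * i1 (rho (wm μ s N Q ω) (pB σ j) (en (j - b) (j + b)) S < Real.exp (-m)) + t44 N ε c' B ξ₁ m +
        4 * B ^ 2 * (Pa44 μ s N Q γ' ξ₁ b0 b j ω S + Pb44 μ s N Q γ B γ' ξ₁ b0 b j ω S)) := by
  have hB0 : 0 ≤ B := by linarith
  have hbg : ∀ z, |gg μ s Q γ B b0 ω j z| ≤ B / 2 := fun z => abs_gg hB0 b0 ω j z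
  have a1 := row_eta44 hQ hG hκ hbb hbj hjN (by linarith) hξB hcn hgg S m
  have a2 := mod_ge (c' := j - b) (al := j - b0) (be := j + b0) (d' := j + b) (C := j / σ * σ) (D := j / σ * σ + σ)
    (w := w5 μ s N Q γ B b0 ω j) (g := gg μ s Q γ B b0 ω j) (M := B / 2) (τ := sr ω.2 j) (by omega) (by omega) (by omega)
    (wk_w5 γ B b0 ω le_rfl le_rfl (by omega)) (wk_w5 γ B b0 ω (by omega) (by omega) (by omega)) (Lk_gg γ B b0 j ω le_rfl le_rfl)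
    (by linarith) hbg (abs_sr1 ω.2 j) (by omega) h2 S m
  rw [w5_self] at a2
  have a3 : |ge5 μ s N Q γ B b0 b ω j S - cE (wm μ s N Q ω) (pB σ j) (ge5 μ s N Q γ B b0 b ω j) S| ≤
      B * (tI (wm μ s N Q ω) (pB σ j) (j - b) (j - b0) (j + b0) (j + b) m S +
        i1 (rho (wm μ s N Q ω) (pB σ j) (en (j - b) (j + b)) S < Real.exp (-m))) + 2 * B * (Real.exp (4 * B) * Real.exp (-(4 * m))) := by
    refine (show |ge5 μ s N Q γ B b0 b ω j S - cE (wm μ s N Q ω) (pB σ j) (ge5 μ s N Q γ B b0 b ω j) S| ≤ _ from a2).trans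
      (le_of_eq ?_)
    have e : (8 : ℝ) * (B / 2) = 4 * B := by ring
    rw [e]
    ring
  have t1 : ∀ z, |ge5 μ s N Q γ B b0 b ω j z| ≤ B / 2 := fun z => Cl46.abs_gb46 _ _ hbg z
  have key : ∀ (p : Px Q → Finset ℕ × ℕ) {f : Px Q → ℝ}, (∀ z, |f z| ≤ B / 2) → |cE (wm μ s N Q ω) p f S| ≤ B / 2 := fun p f hf =>
    (cE_abs44 (wm μ s N Q ω) p f S).trans ((cE_mono (wm μ s N Q ω) p (g := fun _ => B / 2 * 1) (fun z => by
      rw [mul_one]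
      exact hf z) S).trans (le_of_eq (by rw [cE_fun_mul44 _ _ _ (fun _ => (1 : ℝ)), cE_one44, mul_one])))
  unfold r44
  rw [Pi.mul_apply, Pi.sub_apply, Pi.sub_apply, abs_mul]
  have t2 : |ge5 μ s N Q γ B b0 b ω j S - cE (wm μ s N Q ω) (pB σ j) (ge5 μ s N Q γ B b0 b ω j) S| ≤ B :=
    (abs_sub _ _).trans (by linarith [key (pB σ j) t1, t1 S])
  obtain ⟨a, ha⟩ : ∃ a, a = |cE (wm μ s N Q ω) (pW b j) (gg μ s Q γ B b0 ω j) S - ge5 μ s N Q γ B b0 b ω j S| := ⟨_, rfl⟩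
  obtain ⟨d, hd⟩ : ∃ d, d = |ge5 μ s N Q γ B b0 b ω j S - cE (wm μ s N Q ω) (pB σ j) (ge5 μ s N Q γ B b0 b ω j) S| := ⟨_, rfl⟩
  rw [← ha] at a1 ⊢
  rw [← hd] at a3 t2 ⊢
  have eT : a5 (wm μ s N Q ω) 0 b0 b σ j m S = tI (wm μ s N Q ω) (pW b j) (j - b0) j j (j + b0) m S *
      tI (wm μ s N Q ω) (pB σ j) (j - b) (j - b0) (j + b0) (j + b) m S := rfl
  rw [eT]
  have T0 := tI_nonneg (wm μ s N Q ω) (pW b j) (j - b0) j j (j + b0) m S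
  have T2 := tI_le (wm μ s N Q ω) (pW b j) (j - b0) j j (j + b0) m S
  obtain ⟨T, hT⟩ : ∃ T, T = tI (wm μ s N Q ω) (pW b j) (j - b0) j j (j + b0) m S := ⟨_, rfl⟩
  obtain ⟨U, hU⟩ : ∃ U, U = tI (wm μ s N Q ω) (pB σ j) (j - b) (j - b0) (j + b0) (j + b) m S := ⟨_, rfl⟩
  obtain ⟨r, hr⟩ : ∃ r, r = i1 (rho (wm μ s N Q ω) (pB σ j) (en (j - b) (j + b)) S < Real.exp (-m)) := ⟨_, rfl⟩
  obtain ⟨e1, he1⟩ : ∃ e1, e1 = 2 * (4 * Real.exp (2 * ξ₁) * Real.exp ((N : ℝ) ^ ε)) * Real.exp (-(5 * m)) +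
    4 * Real.exp (2 * ξ₁) * Real.exp (-(N : ℝ) ^ c') := ⟨_, rfl⟩
  obtain ⟨e2, he2⟩ : ∃ e2, e2 = Real.exp (4 * B) * Real.exp (-(4 * m)) := ⟨_, rfl⟩
  obtain ⟨Φ, hΦ⟩ : ∃ Φ, Φ = Pa44 μ s N Q γ' ξ₁ b0 b j ω S + Pb44 μ s N Q γ B γ' ξ₁ b0 b j ω S := ⟨_, rfl⟩
  have Φ0 : 0 ≤ Φ := by
    rw [hΦ]
    exact add_nonneg (Pa_nonneg44 _ _ _ _ _ _ _) (Pb_nonneg44 _ _ _ _ _ _ _ _ _)
  have e10 : 0 ≤ e1 := by
    rw [he1]
    positivity
  have e20 : 0 ≤ e2 := by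
    rw [he2]
    positivity
  have r0 : 0 ≤ r := by
    rw [hr]
    exact i1_nonneg _
  have d0 : 0 ≤ d := by
    rw [hd]
    exact abs_nonneg _
  have U0 : 0 ≤ U := by
    rw [hU]
    exact tI_nonneg _ _ _ _ _ _ _ _
  unfold t44
  rw [← hT] at a1 T0 T2
  rw [← hU, ← hr, ← he2] at a3
  rw [← hΦ] at a1
  rw [← hT, ← hU, ← hr, ← he1, ← he2, ← hΦ]
  have a1' : a ≤ B * T + (e1 + (2 * B + 2) * Φ) := by
    rw [he1]
    linarith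
  have s1 : a * d ≤ (B * T + (e1 + (2 * B + 2) * Φ)) * d := mul_le_mul_of_nonneg_right a1' d0
  have s2 : (e1 + (2 * B + 2) * Φ) * d ≤ (e1 + (2 * B + 2) * Φ) * B := mul_le_mul_of_nonneg_left t2 (by positivity)
  have s3 : B * T * d ≤ B * T * (B * (U + r) + 2 * B * e2) := mul_le_mul_of_nonneg_left a3 (by positivity)
  have s4 : B * T * (B * r) ≤ B * 2 * (B * r) := by
    refine mul_le_mul_of_nonneg_right ?_ (by positivity)
    nlinarith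
  have s5 : B * T * (2 * B * e2) ≤ B * 2 * (2 * B * e2) := by
    refine mul_le_mul_of_nonneg_right ?_ (by positivity)
    nlinarith
  have s6 : (2 * B + 2) * Φ * B ≤ 4 * B ^ 2 * Φ := by
    have : (2 * B + 2) * B ≤ 4 * B ^ 2 := by nlinarith
    calc (2 * B + 2) * Φ * B = (2 * B + 2) * B * Φ := by ring
      _ ≤ _ := mul_le_mul_of_nonneg_right this Φ0
  nlinarith

end rows

end

end Pool.Agent.W_7d29a1_C0.X2b44
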