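import Pool.Agent.W_7d29a1_C0.X2B44

/-!
MP_7d29a1_pr, [CURV0] (helper44), leaf X2N, part 4 (the second moment, pathwise). `k2b_eq44`: the double tie of E2b with the exact response is
the conditional mean of `r44`; `k2b_clip44`: with the clipped response. `gm_Pab44`: the masses of the bad fine windows at both corners.
**`gm_k44`**: the second moment of the sum over the kicked rows is at most `4 B ^ 4` times the second moment of the sum of `a5 (0, b0, b)`,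
plus errors.
-/

set_option autoImplicit false
set_option linter.unusedSectionVars false
set_option linter.unusedVariables false

namespace Pool.Agent.W_7d29a1_C0.X2b44

open Pool.Agent.W_7d29a1_F hiding W_pos W_nonneg W_add
open Finset MeasureTheory Pool.Agent.W_7d29a1_X
open Pool.Agent.W_7d29a1_H (sl)
open Pool.Agent.W_7d29a1_HZ.Z74 (shj)
open Pool.Agent.W_7d29a1_C0 Pool.Agent.W_7d29a1_C0.Mod92 Pool.Agent.W_7d29a1_C0.Flip61 Pool.Agent.W_7d29a1_C0.Blk18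
open Pool.Agent.W_7d29a1_C0.Pin18
open Pool.Agent.W_7d29a1_C0.Cl46 Pool.Agent.W_7d29a1_C0.Eta3 Pool.Agent.W_7d29a1_C0.GwA50 Pool.Agent.W_7d29a1_C0.CrA44
open Pool.Agent.W_7d29a1_C0.LocM18 (Cn)
open Pool.Agent.W_7d29a1_C0.Swap57 Pool.Agent.W_7d29a1_C0.E4T32 Pool.Agent.W_7d29a1_C0.Base5
open Pool.W7d29a1.C0 (gz gm gz_pos gz_ne gm_mono gm_nonneg gm_add gm_smul gm_const gb81 gb81_apply Mc)
open Pool.W7d29a1.C0.VT31 Pool.W7d29a1.C0.S1 Pool.W7d29a1.C0.R43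

noncomputable section

section abstract

variable {X : Type*} [Fintype X] [DecidableEq X] [Nonempty X] {Y Z : Type*} [DecidableEq Y] [DecidableEq Z]

theorem abs_cC44 (w : X → ℝ) (p : X → Y) (e : X → ℝ) {h : X → ℝ} {M : ℝ} (hM : ∀ z, |h z| ≤ M) (x : X) :
    |cC w p e h x| ≤ 2 * M * cE w p (fun z => |e z|) x := by
  have hM0 : 0 ≤ M := (abs_nonneg _).trans (hM x)
  have h1 := abs_cC_le' w p e hM x
  refine h1.trans ?_
  have h2 : osc w p e x ≤ 2 * cE w p (fun z => |e z|) x := by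
    unfold osc
    refine (cE2_mono w p (K' := fun z z' => |e z| + |e z'|) (fun z z' => abs_sub _ _) x x).trans (le_of_eq ?_)
    unfold cE2
    have e1 : (fun z => cE w p (fun z' => |e z| + |e z'|) x) = fun z => |e z| + cE w p (fun z' => |e z'|) x := by
      funext z
      rw [cE_fun_add44 w p (fun _ => |e z|), show (fun _ : X => |e z|) = fun _ => |e z| * 1 by simp, cE_fun_mul44 w p _ (fun _ => (1 : ℝ)),
        cE_one44, mul_one]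
    rw [e1, cE_fun_add44 w p (fun z => |e z|) (fun _ => cE w p (fun z' => |e z'|) x)]
    have e2 : cE w p (fun _ : X => cE w p (fun z' => |e z'|) x) x = cE w p (fun z' => |e z'|) x := by
      rw [show (fun _ : X => cE w p (fun z' => |e z'|) x) = fun _ => cE w p (fun z' => |e z'|) x * 1 by simp,
        cE_fun_mul44 w p _ (fun _ => (1 : ℝ)), cE_one44, mul_one]
    rw [e2]
    ring
  calc M * osc w p e x ≤ M * (2 * cE w p (fun z => |e z|) x) := mul_le_mul_of_nonneg_left h2 hM0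
    _ = _ := by ring

/-- **The double tie with the exact response.** -/
theorem cC_dbl44 (w : X → ℝ) {p : X → Y} {u : X → Z} (hc : Crs p u) {g ge : X → ℝ} (hge : Mp u ge) :
    cC w p ge (g - ge) = cE w p ((cE w u g - ge) * (ge - cE w p ge)) := by
  have hF : Mp u (ge - cE w p ge) := fun S S' h => by
    rw [Pi.sub_apply, Pi.sub_apply, hge S S' h, cE_meas w p ge S S' (hc S S' h)]
  rw [cC_symm, cC_eq_cE, mul_comm, ← cE_tower w hc ((ge - cE w p ge) * (g - ge)), cE_pull w hF, cE_sub, cE_of_meas w hge, mul_comm]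

/-- The exact and the clipped response in the double tie. -/
theorem cC_clip44 (w : X → ℝ) (p : X → Y) {g ge gb : X → ℝ} {B : ℝ} (hg : ∀ z, |g z| ≤ B / 2) (hge : ∀ z, |ge z| ≤ B / 2)
    (hgb : ∀ z, |gb z| ≤ B / 2) (x : X) :
    |cC w p gb (g - gb) x - cC w p ge (g - ge) x| ≤ 3 * B * cE w p (fun z => |gb z - ge z|) x := by
  have e1 : cC w p gb (g - gb) - cC w p ge (g - ge) = cC w p (gb - ge) (g - gb) + cC w p ge (ge - gb) := by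
    unfold cC
    rw [← sub_eq_zero]
    simp only [mul_sub, sub_mul, cE_sub]
    ring
  have e2 : cC w p gb (g - gb) x - cC w p ge (g - ge) x = cC w p (gb - ge) (g - gb) x + cC w p ge (ge - gb) x := congrFun e1 x
  rw [e2]
  have h1 := abs_cC44 w p (gb - ge) (h := g - gb) (M := B) (fun z => by
    rw [Pi.sub_apply]
    exact (abs_sub _ _).trans (by linarith [hg z, hgb z])) x
  have h2 : |cC w p ge (ge - gb) x| ≤ 2 * (B / 2) * cE w p (fun z => |(ge - gb) z|) x := by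
    rw [cC_symm]
    exact abs_cC44 w p (ge - gb) hge x
  have e3 : (fun z => |(ge - gb) z|) = fun z => |gb z - ge z| := by
    funext z
    rw [Pi.sub_apply, abs_sub_comm]
  have e4 : (fun z => |(gb - ge) z|) = fun z => |gb z - ge z| := rfl
  rw [e3] at h2
  rw [e4] at h1
  refine (abs_add_le _ _).trans ?_
  linarith

end abstract

variable {μ : Measure ℝ} {s : ℝ} {N : ℕ} {Q : Finset (Finset ℕ)}

section rows

variable [SwQ Q] [Nonempty (Px Q)] {γ B : ℝ} {b0 b σ j : ℕ} {ω : Env × Finset ℕ}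

theorem pS_pB44 (σ j : ℕ) : (pS σ j : Px Q → Finset ℕ × ℕ) = pB σ j := by
  unfold pS
  rw [Nat.succ_mul]

/-- **The row functional with the exact response.** -/
theorem k2b_eq44 (h1 : j / σ * σ + b ≤ j) (h2 : j + b ≤ j / σ * σ + σ) :
    cC (wm μ s N Q ω) (pB σ j) (ge5 μ s N Q γ B b0 b ω j) (gg μ s Q γ B b0 ω j - ge5 μ s N Q γ B b0 b ω j) =
      cE (wm μ s N Q ω) (pB σ j) (r44 μ s N Q γ B b0 b σ ω j) :=
  cC_dbl44 (wm μ s N Q ω) (crs_pJ (by omega) h2) (mp_ge5 γ B b0 b ω j)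

/-- **The clipped response.** -/
theorem k2b_clip44 (hB : 0 ≤ B) (S : Px Q) :
    |k2b μ s N Q γ B b0 b σ ω j S - cC (wm μ s N Q ω) (pB σ j) (ge5 μ s N Q γ B b0 b ω j)
      (gg μ s Q γ B b0 ω j - ge5 μ s N Q γ B b0 b ω j) S| ≤
      3 * B * cE (wm μ s N Q ω) (pB σ j) (fun z => |gg μ s Q γ B b ω j z - ge5 μ s N Q γ B b0 b ω j z|) S := by
  unfold k2b
  rw [pS_pB44]
  exact cC_clip44 _ _ (fun z => abs_gg hB b0 ω j z) (fun z => Cl46.abs_gb46 _ _ (fun z => abs_gg hB b0 ω j z) z)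
    (fun z => abs_gg hB b ω j z) S

theorem Lk_r44 (hbb : b0 ≤ b) (h1 : j / σ * σ + b ≤ j) (h2 : j + b ≤ j / σ * σ + σ) :
    Lk (j / σ * σ) (j / σ * σ + σ) (r44 μ s N Q γ B b0 b σ ω j) := by
  have hw : Wk (j - b) (j - b) (j + b) (j + b) (wm μ s N Q ω) := Wk_lw ω.1 (by omega)
  have hw' : Wk (j / σ * σ) (j / σ * σ) (j / σ * σ + σ) (j / σ * σ + σ) (wm μ s N Q ω) := Wk_lw ω.1 (by omega)
  have g0 : Lk (j - b) (j + b) (gg μ s Q γ B b0 ω j) := Lk_gg γ B b0 j ω (by omega) (by omega)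
  have g1 : Lk (j - b) (j + b) (ge5 μ s N Q γ B b0 b ω j) := Lk_ge5 γ B hbb ω j
  have c1 : Lk (j - b) (j + b) (cE (wm μ s N Q ω) (pJ (j - b) (j + b)) (gg μ s Q γ B b0 ω j)) := Lk_cE (by omega) hw g0
  have e1 : Lk (j / σ * σ) (j / σ * σ + σ)
      (cE (wm μ s N Q ω) (pJ (j - b) (j + b)) (gg μ s Q γ B b0 ω j) - ge5 μ s N Q γ B b0 b ω j) :=
    Lk_mono (al := j - b) (be := j + b) (by omega) h2 (Lk_sub c1 g1)
  have e2 : Lk (j / σ * σ) (j / σ * σ + σ) (ge5 μ s N Q γ B b0 b ω j) := Lk_mono (al := j - b) (be := j + b) (by omega) h2 g1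
  exact Lk_mul e1 (Lk_sub e2 (Lk_cE (by omega) hw' e2))

end rows

/-! ### The masses of the bad fine windows -/

/-- The error of one row: the masses of the bad windows at both corners and the clip error. -/
def Er44 (μ : Measure ℝ) (s : ℝ) (N : ℕ) (γ B γ' ξ ξ₁ : ℝ) (b0 b j y : ℕ) (ω : Env × Finset ℕ) : ℝ :=
  4 * Real.exp (2 * ξ + 1) * (bw μ s N γ' ξ₁ (j - b0) (j + b0 - (j - b0)) (j - (j - b0)) (sg ω.2 j) y ω.1 +
      bw μ s N γ' ξ₁ (j - b0) (j + b0 - (j - b0)) (j - (j - b0)) (-sg ω.2 j) (nb (sg ω.2 j) y) (shj (j : ℤ) (-sg ω.2 j) ω.1)) +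
    2 * cl5 μ s N (Pn N y) γ B b0 b ω j + bw μ s N γ ξ (j - b) (j + b - (j - b)) (j - (j - b)) (sg ω.2 j) y ω.1 +
    2 * (bw μ s N γ ξ (j - b) (j + b - (j - b)) (j - (j - b)) (-sg ω.2 j) (nb (sg ω.2 j) y) (shj (j : ℤ) (-sg ω.2 j) ω.1) +
      nok μ s N (j - b) (j + b - (j - b)) (-sg ω.2 j) (nb (sg ω.2 j) y) (shj (j : ℤ) (-sg ω.2 j) ω.1))

theorem cl5_nonneg44 {y : ℕ} (hy : y ≤ N) (γ B : ℝ) (b0 b j : ℕ) (ω : Env × Finset ℕ) : 0 ≤ cl5 μ s N (Pn N y) γ B b0 b ω j := by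
  have n1 := ne_Pn hy
  exact gm_nonneg _ fun S => abs_nonneg _

theorem Er_cl44 [IsProbabilityMeasure μ] {y : ℕ} (hy : y ≤ N) (γ B γ' ξ ξ₁ : ℝ) (b0 b j : ℕ) (ω : Env × Finset ℕ) :
    2 * cl5 μ s N (Pn N y) γ B b0 b ω j ≤ Er44 μ s N γ B γ' ξ ξ₁ b0 b j y ω := by
  have h1 := bw_nonneg46 (μ := μ) (s := s) (N := N) ω.1 γ' ξ₁ (j - b0) (j + b0 - (j - b0)) (j - (j - b0)) (sg ω.2 j) y
  have h2 := bw_nonneg46 (μ := μ) (s := s) (N := N) (shj (j : ℤ) (-sg ω.2 j) ω.1) γ' ξ₁ (j - b0) (j + b0 - (j - b0)) (j - (j - b0))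
    (-sg ω.2 j) (nb (sg ω.2 j) y)
  have h3 := bw_nonneg46 (μ := μ) (s := s) (N := N) ω.1 γ ξ (j - b) (j + b - (j - b)) (j - (j - b)) (sg ω.2 j) y
  have h4 := bw_nonneg46 (μ := μ) (s := s) (N := N) (shj (j : ℤ) (-sg ω.2 j) ω.1) γ ξ (j - b) (j + b - (j - b)) (j - (j - b))
    (-sg ω.2 j) (nb (sg ω.2 j) y)
  have h5 := nok_nonneg (μ := μ) (s := s) (N := N) (j - b) (j + b - (j - b)) (-sg ω.2 j) (nb (sg ω.2 j) y)
    (shj (j : ℤ) (-sg ω.2 j) ω.1)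
  have h6 : 0 ≤ 4 * Real.exp (2 * ξ + 1) * (bw μ s N γ' ξ₁ (j - b0) (j + b0 - (j - b0)) (j - (j - b0)) (sg ω.2 j) y ω.1 +
      bw μ s N γ' ξ₁ (j - b0) (j + b0 - (j - b0)) (j - (j - b0)) (-sg ω.2 j) (nb (sg ω.2 j) y) (shj (j : ℤ) (-sg ω.2 j) ω.1)) := by
    positivity
  unfold Er44
  linarith

theorem gm_Pab44 [IsProbabilityMeasure μ] {y : ℕ} (hy1 : 1 ≤ y) (hyN : y < N) {η : Env} {A : Finset ℕ} {γ B γ' ξ ξ₁ : ℝ} {b0 b j : ℕ}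
    (hbb : b0 ≤ b) (hbj : b ≤ j) (hjN : j + b ≤ N) (hB : 0 ≤ B) (hξ0 : 0 ≤ ξ)
    (hWW : ∀ x z, Wx μ s γ' ξ₁ η (j - b0) (j + b0 - (j - b0)) (j - (j - b0)) (sg A j) x z →
      Wx μ s γ B η (j - b0) (j + b0 - (j - b0)) (j - (j - b0)) (sg A j) x z)
    (fo : ∀ l : ℕ, 2 * b0 ≤ l → ∀ D : ℤ, Flat μ s γ l (sg A j) D → 0 ≤ D + sg A j ∧ D + sg A j ≤ l) :
    gm (wm μ s N (Pn N y) (η, A)) (fun S => Pa44 μ s N (Pn N y) γ' ξ₁ b0 b j (η, A) S + Pb44 μ s N (Pn N y) γ B γ' ξ₁ b0 b j (η, A) S) ≤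
      Er44 μ s N γ B γ' ξ ξ₁ b0 b j y (η, A) := by
  have n1 := ne_Pn hyN.le
  obtain ⟨a, ha⟩ : ∃ a, a = sg A j := ⟨_, rfl⟩
  have ha1 : a = 1 ∨ a = -1 := ha ▸ sg_or A j
  have hnb : ((nb a y : ℕ) : ℤ) = y + a := by
    unfold nb
    rcases ha1 with h | h <;> rw [h] <;> omega
  have hnbN : nb a y ≤ N := by
    rcases ha1 with h | h <;> rw [h] at hnb ⊢ <;> omega
  have e1 := hcl b j
  have e0 := hcl b0 j
  have hη : shj (j : ℤ) (-a) η = shj ((j - b + (j - (j - b)) : ℕ) : ℤ) (-a) η := by rw [jeq]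
  have hc := tilt44 (μ := μ) (s := s) (N := N) (y := y) (y' := nb a y) (c := j - b) (l := j + b - (j - b)) (k := j - (j - b))
    (c0 := j - b0) (l0 := j + b0 - (j - b0)) (k0 := j - (j - b0)) (a := a) (γ := γ) (γ' := γ') (B := B) (ξ := ξ) (ξ₁ := ξ₁)
    (g0 := gj μ s η γ B b0 j a) (g1 := gj μ s η γ B b j a) η (by omega) (by omega) (by omega) (by omega) (by omega) (by omega)
    ha1 hnb hyN.le hnbN hB hξ0 (fun x z h => ha ▸ hWW x z (ha ▸ h)) (fun D hD => ha ▸ fo _ (by omega) D (ha ▸ hD))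
    (fun D hD => ha ▸ fo _ (by omega) D (ha ▸ hD))
    (fun S => by
      unfold gj
      rw [e0]
      rfl) (fun S => by
      unfold gj
      rw [e1]
      rfl) rfl hη
  rw [e1] at hc
  have h1 : gm (wm μ s N (Pn N y) (η, A)) (Pa44 μ s N (Pn N y) γ' ξ₁ b0 b j (η, A)) =
      bw μ s N γ' ξ₁ (j - b0) (j + b0 - (j - b0)) (j - (j - b0)) a y η := by
    have h2 : gm (wm μ s N (Pn N y) (η, A)) (Pa44 μ s N (Pn N y) γ' ξ₁ b0 b j (η, A)) =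
        gm (wm μ s N (Pn N y) (η, A)) (id46 fun z => ¬ Gw44 μ s γ' ξ₁ (η, A) b0 j z) := gm_cE _ _ _
    rw [h2, ha]
    rfl
  have h2 : gm (wm μ s N (Pn N y) (η, A)) (Pb44 μ s N (Pn N y) γ B γ' ξ₁ b0 b j (η, A)) ≤
      Real.exp (ξ + 1) * (4 * Real.exp ξ * bw μ s N γ' ξ₁ (j - b0) (j + b0 - (j - b0)) (j - (j - b0)) (-a) (nb a y)
        (shj (j : ℤ) (-a) η) + bw μ s N γ' ξ₁ (j - b0) (j + b0 - (j - b0)) (j - (j - b0)) a y η) +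
        2 * cl5 μ s N (Pn N y) γ B b0 b (η, A) j + bw μ s N γ ξ (j - b) (j + b - (j - b)) (j - (j - b)) a y η +
        2 * (bw μ s N γ ξ (j - b) (j + b - (j - b)) (j - (j - b)) (-a) (nb a y) (shj (j : ℤ) (-a) η) +
          nok μ s N (j - b) (j + b - (j - b)) (-a) (nb a y) (shj (j : ℤ) (-a) η)) := by
    rw [ha] at hc ⊢
    exact hc
  have h3 : gm (wm μ s N (Pn N y) (η, A)) (fun S => Pa44 μ s N (Pn N y) γ' ξ₁ b0 b j (η, A) S +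
      Pb44 μ s N (Pn N y) γ B γ' ξ₁ b0 b j (η, A) S) = gm (wm μ s N (Pn N y) (η, A)) (Pa44 μ s N (Pn N y) γ' ξ₁ b0 b j (η, A)) +
        gm (wm μ s N (Pn N y) (η, A)) (Pb44 μ s N (Pn N y) γ B γ' ξ₁ b0 b j (η, A)) := gm_add5 _ _ _
  rw [h3, h1]
  obtain ⟨u1, hu1⟩ : ∃ u1, u1 = bw μ s N γ' ξ₁ (j - b0) (j + b0 - (j - b0)) (j - (j - b0)) a y η := ⟨_, rfl⟩
  obtain ⟨u2, hu2⟩ : ∃ u2, u2 = bw μ s N γ' ξ₁ (j - b0) (j + b0 - (j - b0)) (j - (j - b0)) (-a) (nb a y) (shj (j : ℤ) (-a) η) := ⟨_, rfl⟩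
  have u10 : 0 ≤ u1 := by
    rw [hu1]
    exact bw_nonneg46 _ _ _ _ _ _ _ _
  have u20 : 0 ≤ u2 := by
    rw [hu2]
    exact bw_nonneg46 _ _ _ _ _ _ _ _
  unfold Er44
  dsimp only
  rw [← ha, ← hu1, ← hu2]
  rw [← hu1, ← hu2] at h2
  have x1 : Real.exp (ξ + 1) * Real.exp ξ = Real.exp (2 * ξ + 1) := by
    rw [← Real.exp_add]
    congr 1
    ring
  have x2 : Real.exp (ξ + 1) ≤ Real.exp (2 * ξ + 1) := Real.exp_le_exp.2 (by linarith)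
  have x3 : 1 ≤ Real.exp (2 * ξ + 1) := Real.one_le_exp (by linarith)
  have x4 : Real.exp (ξ + 1) * (4 * Real.exp ξ * u2 + u1) = 4 * Real.exp (2 * ξ + 1) * u2 + Real.exp (ξ + 1) * u1 := by
    rw [← x1]
    ring
  rw [x4] at h2
  have x5 : Real.exp (ξ + 1) * u1 ≤ Real.exp (2 * ξ + 1) * u1 := mul_le_mul_of_nonneg_right x2 u10
  have x6 : 1 * u1 ≤ Real.exp (2 * ξ + 1) * u1 := mul_le_mul_of_nonneg_right x3 u10
  have x7 : 0 ≤ Real.exp (2 * ξ + 1) * u1 := by positivity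
  linarith

/-! ### The second moment -/

/-- The functional of the sum over the kicked rows, pathwise bound. -/
def Rh44 (μ : Measure ℝ) (s : ℝ) (N : ℕ) (γ B γ' ξ ξ₁ ε c' : ℝ) (b0 b σ : ℕ) (J : Finset ℕ) (m : ℝ) (y : ℕ) (ω : Env × Finset ℕ) : ℝ :=
  4 * B ^ 4 * gm (wm μ s N (Pn N y) ω) (fun S => (∑ j ∈ J, a5 (Q := Pn N y) (wm μ s N (Pn N y) ω) 0 b0 b σ j m S) ^ 2) +
    4 * (J.card : ℝ) ^ 2 * (12 * B ^ 4 * (((N : ℝ) + 1) ^ 2 * Real.exp (-m)) + 3 * t44 N ε c' B ξ₁ m ^ 2) +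
    400 * (J.card : ℝ) * B ^ 4 * ∑ j ∈ J, Er44 μ s N γ B γ' ξ ξ₁ b0 b j y ω

/-- **THE SECOND MOMENT OF THE DOUBLE TIE, PATHWISE.** -/
theorem gm_k44 [IsProbabilityMeasure μ] {y : ℕ} (hy1 : 1 ≤ y) (hyN : y < N) {ω : Env × Finset ℕ} {κ δ₁ ε c' γ B γ' ξ ξ₁ : ℝ} {b0 b σ : ℕ}
    (hG : GwW μ s N κ γ δ₁ ε c' ω.1) (hκ : (N : ℝ) ^ κ ≤ b0) (hbb : b0 ≤ b) {R : Finset ℕ} (hD : Deep R b σ) {c d : ℕ}
    (hN : ∀ j ∈ Rw R c d, j + b ≤ N) (hB : 2 ≤ B) (hξ0 : 0 ≤ ξ) (hξB : ξ₁ ≤ B) {m : ℝ}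
    (hcn : ∀ j ∈ Rw R c d, ∀ S : Px (Pn N y), Gw44 μ s γ' ξ₁ ω b0 j S → Cn μ s δ₁ (j - b0) (j + b0) S)
    (hWW : ∀ j ∈ Rw R c d, ∀ x z, Wx μ s γ' ξ₁ ω.1 (j - b0) (j + b0 - (j - b0)) (j - (j - b0)) (sg ω.2 j) x z →
      Wx μ s γ ξ₁ ω.1 (j - b0) (j + b0 - (j - b0)) (j - (j - b0)) (sg ω.2 j) x z)
    (fo : ∀ j ∈ Rw R c d, ∀ l : ℕ, 2 * b0 ≤ l → ∀ D : ℤ, Flat μ s γ l (sg ω.2 j) D → 0 ≤ D + sg ω.2 j ∧ D + sg ω.2 j ≤ l) :
    gm (wm μ s N (Pn N y) ω) (fun S => (∑ j ∈ Rw R c d, sr ω.2 j / 3 * k2b μ s N (Pn N y) γ B b0 b σ ω j S) ^ 2) ≤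
      Rh44 μ s N γ B γ' ξ ξ₁ ε c' b0 b σ (Rw R c d) m y ω := by
  have n1 := ne_Pn hyN.le
  have hB0 : 0 ≤ B := by linarith
  obtain ⟨w, hw⟩ : ∃ w, w = wm μ s N (Pn N y) ω := ⟨_, rfl⟩
  obtain ⟨J, hJ⟩ : ∃ J, J = Rw R c d := ⟨_, rfl⟩
  have hd : ∀ j ∈ J, j / σ * σ + b ≤ j ∧ j + b ≤ j / σ * σ + σ := fun j hj => by
    rw [hJ] at hj
    obtain ⟨a1, a2⟩ := hD j (mem_inter.1 hj).1
    rw [Nat.succ_mul] at a2
    exact ⟨a1, a2⟩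
  rw [← hJ] at hN hcn hWW fo ⊢
  have hbj : ∀ j ∈ J, b ≤ j := fun j hj => by
    have := (hd j hj).1
    omega
  -- the good fine windows
  have hWB : ∀ j ∈ J, ∀ x z, Wx μ s γ' ξ₁ ω.1 (j - b0) (j + b0 - (j - b0)) (j - (j - b0)) (sg ω.2 j) x z →
      Wx μ s γ B ω.1 (j - b0) (j + b0 - (j - b0)) (j - (j - b0)) (sg ω.2 j) x z := fun j hj x z h =>
    ⟨(hWW j hj x z h).1, (hWW j hj x z h).2.trans hξB⟩
  have hgg : ∀ j ∈ J, ∀ S : Px (Pn N y), Gw44 μ s γ' ξ₁ ω b0 j S → |gg μ s (Pn N y) γ B b0 ω j S| ≤ ξ₁ / 2 := fun j hj S h => by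
    have h1 := hWW j hj _ _ h
    have h2 := abs_gw44 ω.1 hB0 (a := sg ω.2 j) (by
      rcases sg_or ω.2 j with h | h <;> rw [h] <;> norm_num) _ _ _ _ _ h1
    rw [hcl b0 j] at h2
    exact h2
  -- the exact response
  obtain ⟨V, hV⟩ : ∃ V : ℕ → Px (Pn N y) → ℝ, V = fun j => r44 μ s N (Pn N y) γ B b0 b σ ω j := ⟨_, rfl⟩
  obtain ⟨cl, hcl'⟩ : ∃ cl : ℕ → Px (Pn N y) → ℝ, cl = fun j => cE w (pB σ j)
    (fun z => |gg μ s (Pn N y) γ B b ω j z - ge5 μ s N (Pn N y) γ B b0 b ω j z|) := ⟨_, rfl⟩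
  obtain ⟨k1, hk1⟩ : ∃ k1 : ℕ → Px (Pn N y) → ℝ, k1 = fun j => cE w (pB σ j) (V j) := ⟨_, rfl⟩
  have hsr : ∀ j, |sr ω.2 j / 3| ≤ 1 := fun j => by
    rw [abs_div, abs_sr]
    norm_num
  have hkk : ∀ j ∈ J, ∀ S, |k2b μ s N (Pn N y) γ B b0 b σ ω j S - k1 j S| ≤ 3 * B * cl j S := fun j hj S => by
    obtain ⟨h1, h2⟩ := hd j hj
    have h3 := k2b_clip44 (μ := μ) (s := s) (N := N) (Q := Pn N y) (γ := γ) (b0 := b0) (b := b) (σ := σ) (j := j) (ω := ω) hB0 S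
    rw [k2b_eq44 h1 h2, ← hw] at h3
    rw [hk1, hcl', hV]
    exact h3
  have hcl0 : ∀ j S, 0 ≤ cl j S := fun j S => by
    rw [hcl']
    exact cE_nonneg _ _ (fun _ => abs_nonneg _) S
  have hclB : ∀ j S, cl j S ≤ B := fun j S => by
    rw [hcl']
    refine (cE_mono w (pB σ j) (g := fun _ => B * 1) (fun z => ?_) S).trans (le_of_eq ?_)
    · rw [mul_one]
      have a1 := abs_gg (μ := μ) (s := s) (Q := Pn N y) (δ := γ) hB0 b ω j z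
      have a2 : |ge5 μ s N (Pn N y) γ B b0 b ω j z| ≤ B / 2 := Cl46.abs_gb46 _ _ (fun z => abs_gg hB0 b0 ω j z) z
      exact (abs_sub _ _).trans (by linarith)
    · rw [cE_fun_mul44 w _ _ (fun _ => (1 : ℝ)), cE_one44, mul_one]
  -- the two parts
  have hn0 : (0 : ℝ) ≤ J.card := Nat.cast_nonneg _
  have s1 : gm w (fun S => (∑ j ∈ J, sr ω.2 j / 3 * k2b μ s N (Pn N y) γ B b0 b σ ω j S) ^ 2) ≤
      gm w (fun S => 2 * (∑ j ∈ J, sr ω.2 j / 3 * k1 j S) ^ 2 + 18 * J.card * B ^ 3 * ∑ j ∈ J, cl j S) := by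
    refine gm_mono w fun S => ?_
    obtain ⟨D, hDD⟩ : ∃ D, D = ∑ j ∈ J, sr ω.2 j / 3 * (k2b μ s N (Pn N y) γ B b0 b σ ω j S - k1 j S) := ⟨_, rfl⟩
    have e1 : ∑ j ∈ J, sr ω.2 j / 3 * k2b μ s N (Pn N y) γ B b0 b σ ω j S = ∑ j ∈ J, sr ω.2 j / 3 * k1 j S + D := by
      rw [hDD, ← sum_add_distrib]
      exact sum_congr rfl fun j _ => by ring
    have e2 : D ^ 2 ≤ J.card * ∑ j ∈ J, 9 * B ^ 3 * cl j S := by
      have a1 : D ^ 2 ≤ J.card * ∑ j ∈ J, (sr ω.2 j / 3 * (k2b μ s N (Pn N y) γ B b0 b σ ω j S - k1 j S)) ^ 2 := by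
        rw [hDD]
        exact sq_sum_le_card_mul_sum_sq
      refine a1.trans (mul_le_mul_of_nonneg_left (sum_le_sum fun j hj => ?_) hn0)
      have a2 : |sr ω.2 j / 3 * (k2b μ s N (Pn N y) γ B b0 b σ ω j S - k1 j S)| ≤ 3 * B * cl j S := by
        rw [abs_mul]
        calc _ ≤ 1 * |k2b μ s N (Pn N y) γ B b0 b σ ω j S - k1 j S| := mul_le_mul_of_nonneg_right (hsr j) (abs_nonneg _)
          _ ≤ _ := by
            rw [one_mul]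
            exact hkk j hj S
      rw [← sq_abs]
      have a3 := hcl0 j S
      have a4 := hclB j S
      calc _ ≤ (3 * B * cl j S) ^ 2 := pow_le_pow_left₀ (abs_nonneg _) a2 2
        _ = 9 * B ^ 2 * (cl j S * cl j S) := by ring
        _ ≤ 9 * B ^ 2 * (B * cl j S) := mul_le_mul_of_nonneg_left (mul_le_mul_of_nonneg_right a4 a3) (by positivity)
        _ = _ := by ring
    rw [e1]
    have e3 : (∑ j ∈ J, sr ω.2 j / 3 * k1 j S + D) ^ 2 ≤ 2 * (∑ j ∈ J, sr ω.2 j / 3 * k1 j S) ^ 2 + 2 * D ^ 2 := by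
      nlinarith [sq_nonneg (∑ j ∈ J, sr ω.2 j / 3 * k1 j S - D)]
    rw [← mul_sum] at e2
    nlinarith
  have s2 : gm w (fun S => (∑ j ∈ J, sr ω.2 j / 3 * k1 j S) ^ 2) ≤ gm w (fun S => (∑ j ∈ J, |V j S|) ^ 2) := by
    have h := gm_drop (μ := μ) (s := s) (N := N) (Q := Pn N y) σ J ω (t := fun j => sr ω.2 j / 3) (fun j _ => hsr j) (r := V)
      (fun j hj => by
        rw [hV]
        exact Lk_r44 hbb (hd j hj).1 (hd j hj).2)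
    rw [← hw] at h
    rw [hk1]
    exact h
  -- the size of the rows
  obtain ⟨t, ht⟩ : ∃ t, t = t44 N ε c' B ξ₁ m := ⟨_, rfl⟩
  obtain ⟨Φ, hΦ⟩ : ∃ Φ : ℕ → Px (Pn N y) → ℝ, Φ = fun j S => Pa44 μ s N (Pn N y) γ' ξ₁ b0 b j ω S +
    Pb44 μ s N (Pn N y) γ B γ' ξ₁ b0 b j ω S := ⟨_, rfl⟩
  obtain ⟨r, hr⟩ : ∃ r : ℕ → Px (Pn N y) → ℝ, r = fun j S => i1 (rho w (pB σ j) (en (j - b) (j + b)) S < Real.exp (-m)) := ⟨_, rfl⟩
  have r0 : ∀ j S, 0 ≤ r j S := fun j S => by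
    rw [hr]
    exact i1_nonneg _
  have r1 : ∀ j S, r j S ^ 2 = r j S := fun j S => by
    rw [hr]
    beta_reduce
    unfold i1
    split_ifs <;> norm_num
  have Φ0 : ∀ j S, 0 ≤ Φ j S := fun j S => by
    rw [hΦ]
    exact add_nonneg (Pa_nonneg44 _ _ _ _ _ _ _) (Pb_nonneg44 _ _ _ _ _ _ _ _ _)
  have Φ2 : ∀ j S, Φ j S ≤ 2 := fun j S => by
    rw [hΦ]
    have a1 := Pa_le44 (μ := μ) (s := s) (N := N) (Q := Pn N y) γ' ξ₁ b0 b j ω S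
    have a2 := Pb_le44 (μ := μ) (s := s) (N := N) (Q := Pn N y) γ B γ' ξ₁ b0 b j ω S
    beta_reduce
    linarith
  have hrow : ∀ j ∈ J, ∀ S, |V j S| ≤ B ^ 2 * a5 w 0 b0 b σ j m S + (2 * B ^ 2 * r j S + t + 4 * B ^ 2 * Φ j S) := fun j hj S => by
    obtain ⟨h1, h2⟩ := hd j hj
    have h3 := row_r44 (μ := μ) (s := s) (N := N) (Q := Pn N y) (full_Pn N y) hG hκ hbb (hbj j hj) (hN j hj) hB hξB (hcn j hj)
      (hgg j hj) h1 h2 S m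
    rw [hV, ht, hΦ, hr, hw]
    exact h3
  have t0 : 0 ≤ t := by
    rw [ht]
    exact t44_nonneg hB0 m
  have s3 : gm w (fun S => (∑ j ∈ J, |V j S|) ^ 2) ≤ gm w (fun S => 2 * B ^ 4 * (∑ j ∈ J, a5 w 0 b0 b σ j m S) ^ 2 +
      2 * J.card * ∑ j ∈ J, (12 * B ^ 4 * r j S + (3 * t ^ 2 + 96 * B ^ 4 * Φ j S))) := by
    refine gm_mono w fun S => ?_
    have k1 : ∑ j ∈ J, |V j S| ≤ B ^ 2 * ∑ j ∈ J, a5 w 0 b0 b σ j m S + ∑ j ∈ J, (2 * B ^ 2 * r j S + t + 4 * B ^ 2 * Φ j S) := by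
      rw [mul_sum, ← sum_add_distrib]
      exact sum_le_sum fun j hj => hrow j hj S
    have k2 : (∑ j ∈ J, (2 * B ^ 2 * r j S + t + 4 * B ^ 2 * Φ j S)) ^ 2 ≤
        (J.card : ℝ) * ∑ j ∈ J, (2 * B ^ 2 * r j S + t + 4 * B ^ 2 * Φ j S) ^ 2 := sq_sum_le_card_mul_sum_sq
    have k3 : ∑ j ∈ J, (2 * B ^ 2 * r j S + t + 4 * B ^ 2 * Φ j S) ^ 2 ≤
        ∑ j ∈ J, (12 * B ^ 4 * r j S + (3 * t ^ 2 + 96 * B ^ 4 * Φ j S)) := by
      refine sum_le_sum fun j _ => ?_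
      have e := r1 j S
      have e2 : Φ j S ^ 2 ≤ 2 * Φ j S := by nlinarith [Φ0 j S, Φ2 j S]
      obtain ⟨x, hx⟩ : ∃ x, x = 2 * B ^ 2 * r j S := ⟨_, rfl⟩
      obtain ⟨z, hz⟩ : ∃ z, z = 4 * B ^ 2 * Φ j S := ⟨_, rfl⟩
      have e3 : (x + t + z) ^ 2 ≤ 3 * (x ^ 2 + t ^ 2 + z ^ 2) := by
        nlinarith [sq_nonneg (x - t), sq_nonneg (x - z), sq_nonneg (t - z)]
      have e4 : x ^ 2 = 4 * B ^ 4 * r j S := by
        rw [hx]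
        calc (2 * B ^ 2 * r j S) ^ 2 = 4 * B ^ 4 * r j S ^ 2 := by ring
          _ = _ := by rw [e]
      have e5 : z ^ 2 ≤ 32 * B ^ 4 * Φ j S := by
        rw [hz]
        calc (4 * B ^ 2 * Φ j S) ^ 2 = 16 * B ^ 4 * Φ j S ^ 2 := by ring
          _ ≤ 16 * B ^ 4 * (2 * Φ j S) := mul_le_mul_of_nonneg_left e2 (by positivity)
          _ = _ := by ring
      rw [← hx, ← hz]
      rw [e4] at e3
      have e6 : 0 ≤ B ^ 4 * r j S := mul_nonneg (by positivity) (r0 j S)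
      linarith
    have k4 : 0 ≤ ∑ j ∈ J, |V j S| := sum_nonneg fun _ _ => abs_nonneg _
    have k5 := pow_le_pow_left₀ k4 k1 2
    obtain ⟨P, hP⟩ : ∃ P, P = ∑ j ∈ J, a5 w 0 b0 b σ j m S := ⟨_, rfl⟩
    obtain ⟨W, hW⟩ : ∃ W, W = ∑ j ∈ J, (2 * B ^ 2 * r j S + t + 4 * B ^ 2 * Φ j S) := ⟨_, rfl⟩
    rw [← hP, ← hW] at k5
    rw [← hW] at k2
    rw [← hP]
    have k6 : (B ^ 2 * P + W) ^ 2 ≤ 2 * B ^ 4 * P ^ 2 + 2 * W ^ 2 := by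
      nlinarith [sq_nonneg (B ^ 2 * P - W)]
    have k7 := k2.trans (mul_le_mul_of_nonneg_left k3 hn0)
    linarith
  -- the means
  have hrm : ∀ j ∈ J, gm w (r j) ≤ ((N : ℝ) + 1) ^ 2 * Real.exp (-m) := fun j hj => by
    rw [hr]
    have := hN j hj
    exact gm_rho (C := j / σ * σ) (D := j / σ * σ + σ) (by omega) this w
  have hΦm : ∀ j ∈ J, gm w (Φ j) ≤ Er44 μ s N γ B γ' ξ ξ₁ b0 b j y ω := fun j hj => by
    rw [hΦ, hw]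
    exact gm_Pab44 (η := ω.1) (A := ω.2) hy1 hyN hbb (hbj j hj) (hN j hj) hB0 hξ0 (hWB j hj) (fo j hj)
  have hclm : ∀ j ∈ J, 2 * gm w (cl j) ≤ Er44 μ s N γ B γ' ξ ξ₁ b0 b j y ω := fun j hj => by
    have h1 : gm w (cl j) = cl5 μ s N (Pn N y) γ B b0 b ω j := by
      rw [hcl', hw]
      exact gm_cE _ _ _
    rw [h1]
    exact Er_cl44 hyN.le γ B γ' ξ ξ₁ b0 b j ω
  rw [← hw]
  rw [gm_add5, gm_mul5, gm_mul5, gm_sum5] at s1
  rw [gm_add5, gm_mul5, gm_mul5, gm_sum5] at s3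
  have s4 : ∑ j ∈ J, gm w (fun S => 12 * B ^ 4 * r j S + (3 * t ^ 2 + 96 * B ^ 4 * Φ j S)) ≤
      J.card * (12 * B ^ 4 * (((N : ℝ) + 1) ^ 2 * Real.exp (-m)) + 3 * t ^ 2) + 96 * B ^ 4 * ∑ j ∈ J, Er44 μ s N γ B γ' ξ ξ₁ b0 b j y ω := by
    rw [mul_sum]
    have h1 : ∑ j ∈ J, gm w (fun S => 12 * B ^ 4 * r j S + (3 * t ^ 2 + 96 * B ^ 4 * Φ j S)) ≤
        ∑ j ∈ J, ((12 * B ^ 4 * (((N : ℝ) + 1) ^ 2 * Real.exp (-m)) + 3 * t ^ 2) + 96 * B ^ 4 * Er44 μ s N γ B γ' ξ ξ₁ b0 b j y ω) := by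
      refine sum_le_sum fun j hj => ?_
      rw [gm_add5, gm_mul5]
      have h2 : gm w (fun S => 3 * t ^ 2 + 96 * B ^ 4 * Φ j S) = 3 * t ^ 2 + 96 * B ^ 4 * gm w (Φ j) := by
        have g1 := gm_add5 w (fun _ => 3 * t ^ 2) (fun S => 96 * B ^ 4 * Φ j S)
        have g2 := gm_mul5 w (96 * B ^ 4) (Φ j)
        have g3 := gm_const w (3 * t ^ 2)
        linarith
      rw [h2]
      have h3 := mul_le_mul_of_nonneg_left (hrm j hj) (show 0 ≤ 12 * B ^ 4 by positivity)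
      have h4 := mul_le_mul_of_nonneg_left (hΦm j hj) (show 0 ≤ 96 * B ^ 4 by positivity)
      linarith
    rwa [sum_add_distrib, sum_const, nsmul_eq_mul] at h1
  have s5 : ∑ j ∈ J, gm w (cl j) ≤ ∑ j ∈ J, Er44 μ s N γ B γ' ξ ξ₁ b0 b j y ω / 2 := sum_le_sum fun j hj => by
    have := hclm j hj
    linarith
  rw [← sum_div] at s5
  unfold Rh44
  rw [← hw, ← ht]
  obtain ⟨ES, hES⟩ : ∃ ES, ES = ∑ j ∈ J, Er44 μ s N γ B γ' ξ ξ₁ b0 b j y ω := ⟨_, rfl⟩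
  obtain ⟨n, hn⟩ : ∃ n : ℝ, n = J.card := ⟨_, rfl⟩
  rw [← hES] at s4 s5 ⊢
  rw [← hn] at s1 s3 s4 hn0 ⊢
  have ES0 : 0 ≤ ES := by
    rw [hES]
    refine sum_nonneg fun j hj => ?_
    have h1 := hclm j hj
    have h2 : 0 ≤ gm w (cl j) := gm_nonneg _ (hcl0 j)
    linarith
  obtain ⟨G, hGG⟩ : ∃ G, G = gm w (fun S => (∑ j ∈ J, a5 w 0 b0 b σ j m S) ^ 2) := ⟨_, rfl⟩
  rw [← hGG] at s3 ⊢
  have s6 := mul_le_mul_of_nonneg_left s4 (show 0 ≤ 2 * n by positivity)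
  have s7 := mul_le_mul_of_nonneg_left s5 (show 0 ≤ 18 * n * B ^ 3 by positivity)
  have s8 : B ^ 3 ≤ B ^ 4 := pow_le_pow_right₀ (by linarith) (by norm_num)
  have s9 : 18 * n * B ^ 3 * (ES / 2) ≤ 9 * n * B ^ 4 * ES := by
    have : n * ES * B ^ 3 ≤ n * ES * B ^ 4 := mul_le_mul_of_nonneg_left s8 (by positivity)
    linarith
  have s10 : 0 ≤ n * B ^ 4 * ES := by positivity
  linarith

end

end Pool.Agent.W_7d29a1_C0.X2b44
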