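import Pool.Agent.W_7d29a1_C0.X2L44
import Pool.Agent.W_7d29a1_C0.Eta3D
import Pool.Agent.W_7d29a1_C0.CmE44

/-!
MP_7d29a1_pr, [CURV0] (helper44), leaf X2N, part 7: **THE SECOND MOMENT OF THE DOUBLE TIE AT THE CONCRETE FRAME FROM TWO INPUTS**. `XI44`: the
second moment of the indicators `a5 (0, b0, b)` of one block of length `σ` (pair sum). `SI44`: the price of these indicators against the
weights which are blind to the rows of the block (site). `x2_of44`: at a fixed length. **`x2n44`**: `X2N` at `frm33`.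
-/

set_option autoImplicit false
set_option linter.unusedSectionVars false

namespace Pool.Agent.W_7d29a1_C0.X2b44

open Finset MeasureTheory Filter Topology Pool.Agent.W_7d29a1_F Pool.Agent.W_7d29a1_X
open Pool.Agent.W_7d29a1_H (sl EE EE_pos)
open Pool.Agent.W_7d29a1_HS (In)
open Pool.Agent.W_7d29a1_C0.Mod92
open Pool.W7d29a1.C0 (gz gm)
open Pool.W7d29a1.C0.VT31
open Pool.Agent.W_7d29a1_C0 Pool.Agent.W_7d29a1_C0.Swap57 Pool.Agent.W_7d29a1_C0.E4T32 Pool.Agent.W_7d29a1_C0.Base5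
open Pool.Agent.W_7d29a1_C0.Row96 Pool.Agent.W_7d29a1_C0.Asm96 Pool.Agent.W_7d29a1_C0.Eta3 Pool.Agent.W_7d29a1_C0.EstD44
open Pool.Agent.W_7d29a1_C0.CrA44 Pool.Agent.W_7d29a1_C0.EstC46
open Pool.Agent.W_7d29a1_C0.Frm33 (tend_n ev_n n_ge1 frm33 ys33 y33 M33 L33 R33 B33 hy33 L33_pow L33_ge b0_33 cone33 ev_L ok33 deepB33)
open Pool.Agent.W_7d29a1_C0.Par92 (Est Sml)
open Pool.Agent.W_7d29a1_C0.Cl46 (avy_le46)

noncomputable section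

variable (μ : Measure ℝ) (s : ℝ) (F : Frm96) (E : ℕ → ℝ) (δ c : ℝ)

/-- **Input 1 (pair sum)**: the second moment of the indicators of one block of length `σ`. -/
def XI44 (ε M : ℝ) (m : ℕ) : Prop := ∀ p q k : ℕ, St96 E δ c m p q → (k + 1) * 2 ^ sg96 E c m p ≤ 2 ^ m → ∀ y ∈ F.ys m,
    ∫ ω, gm (wm μ s (F.L m) (Pn (F.L m) y) ω) (fun x => A5 0 (F.b0 m p) (2 ^ p) (2 ^ sg96 E c m p) (F.R m) k M
      (wm μ s (F.L m) (Pn (F.L m) y) ω) x ^ 2) ∂(Pm μ (F.L m)) ≤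
    ((2 ^ m : ℕ) : ℝ) ^ ε * (2 ^ sg96 E c m p * (2 ^ p / E (F.b0 m p)) + (2 ^ sg96 E c m p) ^ 2 / (E (F.b0 m p) * E (2 ^ p)) ^ 2 +
      (2 ^ sg96 E c m p) ^ 2 / (E (2 ^ sg96 E c m p) * E (F.b0 m p) ^ 2)) + ((2 ^ m : ℕ) : ℝ) ^ (-8 : ℝ)

/-- **Input 2 (site)**: the price of the indicators of one block of length `σ` against the weights blind to the rows of the block. -/
def SI44 (ε M : ℝ) (m : ℕ) : Prop := ∀ p q k : ℕ, St96 E δ c m p q → (k + 1) * 2 ^ sg96 E c m p ≤ 2 ^ m → ∀ y ∈ F.ys m,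
    PrJ μ s (F.L m) (Ioo (k * 2 ^ sg96 E c m p) ((k + 1) * 2 ^ sg96 E c m p))
      (fun ω x => A5 (Q := Pn (F.L m) y) 0 (F.b0 m p) (2 ^ p) (2 ^ sg96 E c m p) (F.R m) k M
        (wm μ s (F.L m) (Pn (F.L m) y) ω) x)
      (((2 ^ m : ℕ) : ℝ) ^ ε * (2 ^ sg96 E c m p / (E (F.b0 m p) * E (2 ^ p)))) (((2 ^ m : ℕ) : ℝ) ^ (-8 : ℝ))

variable {μ s F E δ c} {Θ : ℝ}

/-- The numbers. -/
theorem num2b44 {w : ℕ → ℝ} {c₀ a ε ε₁ N C : ℝ} {b₀ b σ ρ : ℕ} (R : Reg46 E w c₀ Θ δ a ε N) (H : Bs46 E δ c N b σ ρ)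
    (hb₀ : 1 ≤ b₀) (hb : b₀ ≤ b) (hC : (b : ℝ) ≤ N ^ C * b₀) (hcΘ : 16 * c ≤ Θ) (hε : 16 * ε ≤ c) (hCc : 16 * C ≤ c)
    (hε₁ : 0 ≤ ε₁) :
    N ^ ε₁ * (ρ * (b / E b₀) + ρ * σ / (E b₀ * E b) ^ 2 + ρ * σ / (E σ * E b₀ ^ 2)) + (N ^ ε₁ * (ρ / (E b₀ * E b))) ^ 2 ≤
      4 * N ^ (2 * ε₁) * (ρ * (E ρ * N ^ (Θ - c))) := by
  have hN := R.N0
  have hN1 := R.N1
  have hEb := R.Epos b
  have hEb₀ := R.Epos b₀
  have hEσ := R.Epos σ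
  have hEρ := R.Epos ρ
  have hc := H.c0
  have hε0 := R.ε0
  have hΘ0 := R.Θ0
  have hρ : (0 : ℝ) ≤ ρ := Nat.cast_nonneg _
  obtain ⟨X, hX⟩ : ∃ X, X = E ρ * N ^ (Θ - c) := ⟨_, rfl⟩
  have hX0 : 0 ≤ X := by
    rw [hX]
    positivity
  have hmono : ∀ {x y : ℝ}, x ≤ y → N ^ x ≤ N ^ y := fun h => Real.rpow_le_rpow_of_exponent_le hN1.le h
  have hbp := H.hb.pos R.N1
  have y1 : (b : ℝ) / E b₀ ≤ X := by
    have h : (b : ℝ) / (E b₀ * E ρ) ≤ N ^ (Θ - c) := by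
      refine le_pow46 R.N1 (by positivity) ?_
      simp (disch := positivity) only [Real.logb_mul, Real.logb_div]
      linarith [H.lkb R, H.lup R, lb0 R hb₀ hb hC, (H.l8 R).1, (H.l8 R).2]
    rw [← div_div, div_le_iff₀ hEρ] at h
    rw [hX]
    linarith
  have y2 : (σ : ℝ) / (E σ * E b₀ ^ 2) ≤ X := by
    have h := (R.own_mic H hb₀ hb hC (t := σ) (H.hs.npos R.N1) le_rfl).trans (hmono (show Θ + C + 5 * ε - 8 * c ≤ Θ - c by linarith))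
    rw [← div_div, div_le_iff₀ hEρ] at h
    rw [hX]
    linarith
  have y3 : (ρ : ℝ) / (E b₀ * E b) ^ 2 ≤ X := by
    have h := (R.four H hb₀ hb hC).trans (hmono (show Θ + C + 3 * ε - 2 * c ≤ Θ - c by linarith))
    rw [← div_div, div_le_iff₀ hEρ] at h
    have e : (E b₀ * E b) ^ 2 = E b ^ 2 * E b₀ ^ 2 := by ring
    rw [hX, e]
    linarith
  have y4 : (σ : ℝ) / (E b₀ * E b) ^ 2 ≤ X := by
    refine le_trans ?_ y3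
    have : (σ : ℝ) ≤ ρ := by exact_mod_cast H.sr
    gcongr
  have e1 : (ρ : ℝ) * σ / (E b₀ * E b) ^ 2 = ρ * (σ / (E b₀ * E b) ^ 2) := by ring
  have e2 : (ρ : ℝ) * σ / (E σ * E b₀ ^ 2) = ρ * (σ / (E σ * E b₀ ^ 2)) := by ring
  have e3 : (N ^ ε₁ * (ρ / (E b₀ * E b))) ^ 2 = N ^ (2 * ε₁) * (ρ * (ρ / (E b₀ * E b) ^ 2)) := by
    have : N ^ (2 * ε₁) = (N ^ ε₁) ^ 2 := by
      rw [← Real.rpow_natCast, ← Real.rpow_mul hN.le]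
      congr 1
      push_cast
      ring
    rw [this]
    ring
  have h2 : N ^ ε₁ ≤ N ^ (2 * ε₁) := hmono (by linarith)
  have h3 : 0 ≤ N ^ ε₁ := by positivity
  rw [e1, e2, e3, ← hX]
  have z1 : (ρ : ℝ) * (b / E b₀) + ρ * (σ / (E b₀ * E b) ^ 2) + ρ * (σ / (E σ * E b₀ ^ 2)) ≤ 3 * (ρ * X) := by
    have a1 := mul_le_mul_of_nonneg_left y1 hρ
    have a2 := mul_le_mul_of_nonneg_left y2 hρ
    have a4 := mul_le_mul_of_nonneg_left y4 hρ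
    linarith
  have z2 : N ^ ε₁ * ((ρ : ℝ) * (b / E b₀) + ρ * (σ / (E b₀ * E b) ^ 2) + ρ * (σ / (E σ * E b₀ ^ 2))) ≤ N ^ (2 * ε₁) * (3 * (ρ * X)) :=
    (mul_le_mul_of_nonneg_left z1 h3).trans (mul_le_mul_of_nonneg_right h2 (by positivity))
  have z3 : N ^ (2 * ε₁) * (ρ * (ρ / (E b₀ * E b) ^ 2)) ≤ N ^ (2 * ε₁) * (ρ * X) :=
    mul_le_mul_of_nonneg_left (mul_le_mul_of_nonneg_left y3 hρ) (by positivity)
  linarith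

/-- The second moment of the double tie is told by the indicators. -/
def K2N44 (μ : Measure ℝ) (s : ℝ) (F : Frm96) (E : ℕ → ℝ) (δ c M : ℝ) (m : ℕ) : Prop := ∀ p q i : ℕ, St96 E δ c m p q → i < 2 ^ (m - q) →
  S33 μ s F m q i (fun y ω j S => sr ω.2 j / 3 *
    k2b μ s (F.L m) (Pn (F.L m) y) F.dl (F.B m) (F.b0 m p) (2 ^ p) (2 ^ sg96 E c m p) ω j S) ≤
    4 * F.B m ^ 4 * y5 μ s (F.L m) (F.ys m) 0 (F.b0 m p) (2 ^ p) (2 ^ sg96 E c m p) (Rw (F.R m) (i * 2 ^ q) ((i + 1) * 2 ^ q)) M + 1 / 4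

/-- **`X2N` FROM THE TWO INPUTS**, at a fixed length. -/
theorem x2_of44 [IsProbabilityMeasure μ] {w : ℕ → ℝ} {c₀ a ε ε₁ M C : ℝ} {m : ℕ} (R : Reg46 E w c₀ Θ δ a ε ((2 ^ m : ℕ) : ℝ)) (hc : 0 < c)
    (hcδ : 64 * c ≤ δ) (hcΘ : 16 * c ≤ Θ) (hΘ : Θ ≤ 1) (hε : 16 * ε ≤ c) (hCc : 16 * C ≤ c) (hε₁ : 0 ≤ ε₁) (hε₁' : ε₁ ≤ 1)
    (hn : 8 ≤ ((2 ^ m : ℕ) : ℝ)) (hF : F.Ok Θ m) (hB : 2 ≤ F.B m) (hD : DeepB F E δ c m) (hb0 : ∀ p, 1 ≤ F.b0 m p ∧ F.b0 m p ≤ 2 ^ p)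
    (hbC : ∀ p, ((2 ^ p : ℕ) : ℝ) ≤ ((2 ^ m : ℕ) : ℝ) ^ C * F.b0 m p)
    (hnum : 32 * F.B m ^ 4 * ((2 ^ m : ℕ) : ℝ) ^ (2 * ε₁) ≤ ((2 ^ m : ℕ) : ℝ) ^ (c / 2)) (hK2 : K2N44 μ s F E δ c M m)
    (hXI : XI44 μ s F E δ c ε₁ M m) (hSI : SI44 μ s F E δ c ε₁ M m) : X2N μ s F E Θ δ c (c / 2) m := by
  intro p q i hst hi
  have hsq := hst.hsq
  have hqm := hst.hqm
  have hN0 := R.N0
  have hN1 := R.N1
  have hE1 := R.E1 (2 ^ q)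
  have hDp : Deep (F.R m) (2 ^ p) (2 ^ sg96 E c m p) := hD p hst.hp (hsq.trans hqm)
  have hm' : (i + 1) * 2 ^ q ≤ 2 ^ m := by
    calc (i + 1) * 2 ^ q ≤ 2 ^ (m - q) * 2 ^ q := Nat.mul_le_mul_right _ hi
      _ = 2 ^ m := by
          rw [← pow_add]
          congr 1
          omega
  have hB0 : 0 ≤ F.B m := by linarith
  have key := hK2 p q i hst hi
  -- the numbers
  obtain ⟨n, hnd⟩ : ∃ n : ℝ, n = ((2 ^ m : ℕ) : ℝ) := ⟨_, rfl⟩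
  obtain ⟨σ, hσd⟩ : ∃ σ : ℕ, σ = 2 ^ sg96 E c m p := ⟨_, rfl⟩
  obtain ⟨nb, hnb⟩ : ∃ nb : ℕ, nb = (i + 1) * 2 ^ q / σ - i * 2 ^ q / σ := ⟨_, rfl⟩
  obtain ⟨β0, hβ0⟩ : ∃ β0 : ℕ, β0 = F.b0 m p := ⟨_, rfl⟩
  have hσ0 : 0 < σ := by
    rw [hσd]
    positivity
  have hnbσ : nb * σ = 2 ^ q := by
    obtain ⟨u, hu⟩ : σ ∣ 2 ^ q := by
      rw [hσd]
      exact pow_dvd_pow 2 hsq
    have e1 : (i + 1) * 2 ^ q / σ = (i + 1) * u := by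
      rw [hu, ← mul_assoc, mul_comm (i + 1) σ, mul_assoc, Nat.mul_div_cancel_left _ hσ0]
    have e2 : i * 2 ^ q / σ = i * u := by
      rw [hu, ← mul_assoc, mul_comm i σ, mul_assoc, Nat.mul_div_cancel_left _ hσ0]
    rw [hnb, e1, e2, ← Nat.sub_mul, Nat.add_sub_cancel_left, one_mul, hu, mul_comm]
  have hρn : (2 : ℕ) ^ q ≤ 2 ^ m := Nat.pow_le_pow_right two_pos hqm
  have hσn : σ ≤ 2 ^ m := by
    rw [hσd]
    exact Nat.pow_le_pow_right two_pos (hsq.trans hqm)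
  have hnbn : nb ≤ 2 ^ m := by
    refine le_trans ?_ hρn
    rw [← hnbσ]
    exact Nat.le_mul_of_pos_right nb hσ0
  have hEb := R.Epos (2 ^ p)
  have hEb1 := R.E1 (2 ^ p)
  have hE0 := R.Epos β0
  have hE01 := R.E1 β0
  have hEσ := R.Epos σ
  obtain ⟨X, hX⟩ : ∃ X : ℝ, X = n ^ ε₁ * (σ * (2 ^ p / E β0) + (σ : ℝ) ^ 2 / (E β0 * E (2 ^ p)) ^ 2 +
      (σ : ℝ) ^ 2 / (E σ * E β0 ^ 2)) + n ^ (-8 : ℝ) := ⟨_, rfl⟩
  obtain ⟨P, hP⟩ : ∃ P : ℝ, P = n ^ ε₁ * (σ / (E β0 * E (2 ^ p))) := ⟨_, rfl⟩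
  rw [← hnd] at hN0 hN1 hn
  have hσr : (0 : ℝ) ≤ σ := Nat.cast_nonneg _
  have hP0 : 0 ≤ P := by
    rw [hP]
    positivity
  have hPn : P ≤ n ^ 2 := by
    rw [hP, sq]
    have a1 : n ^ ε₁ ≤ n := by
      calc n ^ ε₁ ≤ n ^ (1 : ℝ) := Real.rpow_le_rpow_of_exponent_le hN1.le hε₁'
        _ = n := Real.rpow_one n
    have a2 : (σ : ℝ) / (E β0 * E (2 ^ p)) ≤ n := by
      have a3 : (1 : ℝ) ≤ E β0 * E (2 ^ p) := one_le_mul_of_one_le_of_one_le hE01 hEb1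
      refine (div_le_self hσr a3).trans ?_
      rw [hnd]
      exact_mod_cast hσn
    exact mul_le_mul a1 a2 (by positivity) hN0.le
  have he0 : 0 ≤ n ^ (-8 : ℝ) := by positivity
  obtain ⟨Y, hY⟩ : ∃ Y : ℝ, Y = nb * X + (nb * P) ^ 2 + (nb : ℝ) ^ 2 * ((P + 4 * σ) * n ^ (-8 : ℝ)) := ⟨_, rfl⟩
  have hX0 : 0 ≤ X := by
    rw [hX]
    positivity
  have hY0 : 0 ≤ Y := by
    rw [hY]
    positivity
  have hy5 : y5 μ s (F.L m) (F.ys m) 0 (F.b0 m p) (2 ^ p) (2 ^ sg96 E c m p) (Rw (F.R m) (i * 2 ^ q) ((i + 1) * 2 ^ q)) M ≤ Y := by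
    refine avy_le3 hY0 fun y hy => ?_
    have := ne_Pn (hF.hy y hy)
    have hk : ∀ k ∈ Ico (i * 2 ^ q / 2 ^ sg96 E c m p) ((i + 1) * 2 ^ q / 2 ^ sg96 E c m p), (k + 1) * 2 ^ sg96 E c m p ≤ 2 ^ m := by
      intro k hk
      rw [mem_Ico] at hk
      refine le_trans ?_ hm'
      calc (k + 1) * 2 ^ sg96 E c m p ≤ (i + 1) * 2 ^ q / 2 ^ sg96 E c m p * 2 ^ sg96 E c m p := Nat.mul_le_mul_right _ hk.2
        _ ≤ _ := Nat.div_mul_le_self _ _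
    have h := y5_pin (μ := μ) (s := s) (N := F.L m) (Q := Pn (F.L m) y) (b0 := 0) (b := F.b0 m p) (b' := 2 ^ p)
      (σ := 2 ^ sg96 E c m p) (by positivity) hDp (dvd96 hsq i) (dvd96 hsq (i + 1)) (m := M) (X := X) (P := P)
      (e := n ^ (-8 : ℝ)) hP0 he0
      (fun k hk' => by
        have h1 := hXI p q k hst (hk k hk') y hy
        rw [← hσd, ← hnd, ← hβ0] at h1
        rw [hX]
        have e1 : ((σ : ℕ) : ℝ) = 2 ^ sg96 E c m p := by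
          rw [hσd]
          push_cast
          rfl
        rw [e1, ← hσd, ← hβ0]
        exact h1)
      (fun k hk' => by
        have h1 := hSI p q k hst (hk k hk') y hy
        rw [← hnd] at h1
        have e1 : ((σ : ℕ) : ℝ) = 2 ^ sg96 E c m p := by
          rw [hσd]
          push_cast
          rfl
        rw [hP, e1, hβ0]
        exact h1)
    refine h.trans (le_of_eq ?_)
    rw [← hσd, ← hnb, hY]
  -- the end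
  have hK : 4 * F.B m ^ 4 * Y ≤ 8 * F.B m ^ 4 * (4 * n ^ (2 * ε₁) * (2 ^ q * (E (2 ^ q) * n ^ (Θ - c)))) / 2 + 1 / 4 := by
    have H := bs46 R hc hcδ hst.hp hst.hps hsq hqm hst.leg hst.pin
    have hb1 := (hb0 p).1
    have hb2 := (hb0 p).2
    have hb3 := hbC p
    rw [← hβ0] at hb1 hb2 hb3
    rw [← hnd] at H R hb3
    have h1 := num2b44 R H hb1 hb2 hb3 hcΘ hε hCc hε₁
    rw [← hσd] at h1
    have hB4 : F.B m ^ 4 ≤ n := by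
      rw [hnd]
      calc F.B m ^ 4 ≤ (((2 ^ m : ℕ) : ℝ) ^ (Θ / 16)) ^ 4 := pow_le_pow_left₀ hB0 hF.hB' 4
        _ = ((2 ^ m : ℕ) : ℝ) ^ (Θ / 4) := by
            rw [← Real.rpow_natCast, ← Real.rpow_mul (by positivity)]
            congr 1
            push_cast
            ring
        _ ≤ ((2 ^ m : ℕ) : ℝ) ^ (1 : ℝ) := Real.rpow_le_rpow_of_exponent_le (by rw [← hnd]; exact hN1.le) (by linarith)
        _ = _ := Real.rpow_one _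
    have h2 := err3 (n := n) (B := F.B m) (nb := nb) (σ := σ) (P := P) hn hB4 (Nat.cast_nonneg _) (by rw [hnd]; exact_mod_cast hnbn)
      hσr (by rw [hnd]; exact_mod_cast hσn) hP0 hPn
    have e1 : (nb : ℝ) * σ = 2 ^ q := by exact_mod_cast hnbσ
    have h3 : Y = n ^ ε₁ * (((2 ^ q : ℕ) : ℝ) * (((2 ^ p : ℕ) : ℝ) / E β0) + ((2 ^ q : ℕ) : ℝ) * σ / (E β0 * E (2 ^ p)) ^ 2 +
        ((2 ^ q : ℕ) : ℝ) * σ / (E σ * E β0 ^ 2)) + (n ^ ε₁ * (((2 ^ q : ℕ) : ℝ) / (E β0 * E (2 ^ p)))) ^ 2 +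
        (nb * n ^ (-8 : ℝ) + (nb : ℝ) ^ 2 * ((P + 4 * σ) * n ^ (-8 : ℝ))) := by
      rw [hY, hX, hP]
      push_cast
      rw [← e1]
      ring
    have h4 : 8 * F.B m ^ 4 * Y ≤ 8 * F.B m ^ 4 * (4 * n ^ (2 * ε₁) * (((2 ^ q : ℕ) : ℝ) * (E (2 ^ q) * n ^ (Θ - c)))) +
        8 * F.B m ^ 4 * (nb * n ^ (-8 : ℝ) + (nb : ℝ) ^ 2 * ((P + 4 * σ) * n ^ (-8 : ℝ))) := by
      rw [← mul_add]
      refine mul_le_mul_of_nonneg_left ?_ (by positivity)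
      rw [h3]
      linarith
    have e2 : ((2 ^ q : ℕ) : ℝ) = 2 ^ q := by
      push_cast
      rfl
    rw [e2] at h4
    have h5 : 0 ≤ 4 * F.B m ^ 4 * Y := by positivity
    linarith
  obtain ⟨A, hA⟩ : ∃ A : ℝ, A = 2 ^ q * (E (2 ^ q) * n ^ (Θ - c / 2)) := ⟨_, rfl⟩
  have hfin : 8 * F.B m ^ 4 * (4 * n ^ (2 * ε₁) * (2 ^ q * (E (2 ^ q) * n ^ (Θ - c)))) / 2 ≤ 1 / 2 * A := by
    rw [← hnd] at hnum
    have e1 : n ^ (Θ - c / 2) = n ^ (c / 2) * n ^ (Θ - c) := by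
      rw [← Real.rpow_add hN0]
      congr 1
      ring
    have hEq := R.Epos (2 ^ q)
    have h1 : 32 * F.B m ^ 4 * n ^ (2 * ε₁) * (2 ^ q * (E (2 ^ q) * n ^ (Θ - c))) ≤
        n ^ (c / 2) * (2 ^ q * (E (2 ^ q) * n ^ (Θ - c))) := mul_le_mul_of_nonneg_right hnum (by positivity)
    rw [hA, e1]
    linarith
  have hA1 : 1 ≤ A := by
    rw [hA]
    have h1 : (1 : ℝ) ≤ 2 ^ q := one_le_pow₀ one_le_two
    have h2 : (1 : ℝ) ≤ n ^ (Θ - c / 2) := Real.one_le_rpow hN1.le (by linarith)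
    exact one_le_mul_of_one_le_of_one_le h1 (one_le_mul_of_one_le_of_one_le hE1 h2)
  have h5 : 4 * F.B m ^ 4 * y5 μ s (F.L m) (F.ys m) 0 (F.b0 m p) (2 ^ p) (2 ^ sg96 E c m p)
      (Rw (F.R m) (i * 2 ^ q) ((i + 1) * 2 ^ q)) M ≤ 4 * F.B m ^ 4 * Y := mul_le_mul_of_nonneg_left hy5 (by positivity)
  have hg : ((2 ^ m : ℕ) : ℝ) ^ (Θ - c / 2) = n ^ (Θ - c / 2) := by rw [hnd]
  rw [hg, ← hA]
  linarith

/-! ### The concrete frame -/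

theorem b_b044 {ι : ℝ} (hι : 0 ≤ ι) {m : ℕ} (hm : 2 ≤ ((2 ^ m : ℕ) : ℝ) ^ ι) (p : ℕ) :
    ((2 ^ p : ℕ) : ℝ) ≤ ((2 ^ m : ℕ) : ℝ) ^ (2 * ι) * ((2 ^ (p - ⌈ι * (m : ℝ)⌉₊) : ℕ) : ℝ) := by
  obtain ⟨r, hr⟩ : ∃ r : ℕ, r = ⌈ι * (m : ℝ)⌉₊ := ⟨_, rfl⟩
  rw [← hr]
  have h1 : (2 : ℕ) ^ p ≤ 2 ^ r * 2 ^ (p - r) := by
    rw [← pow_add]
    exact Nat.pow_le_pow_right two_pos (by omega)
  have h2 : ((2 ^ r : ℕ) : ℝ) ≤ ((2 ^ m : ℕ) : ℝ) ^ (2 * ι) := by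
    have h3 : (r : ℝ) ≤ ι * m + 1 := by
      rw [hr]
      exact (Nat.ceil_lt_add_one (by positivity)).le
    have e1 : ((2 ^ m : ℕ) : ℝ) ^ ι = (2 : ℝ) ^ (ι * m) := by
      push_cast
      rw [← Real.rpow_natCast, ← Real.rpow_mul (by norm_num), mul_comm]
    have e2 : ((2 ^ m : ℕ) : ℝ) ^ (2 * ι) = ((2 ^ m : ℕ) : ℝ) ^ ι * ((2 ^ m : ℕ) : ℝ) ^ ι := by
      rw [← Real.rpow_add (by positivity)]
      congr 1
      ring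
    have e3 : ((2 ^ r : ℕ) : ℝ) = (2 : ℝ) ^ (r : ℝ) := by
      push_cast
      rw [Real.rpow_natCast]
    rw [e3, e2]
    calc (2 : ℝ) ^ (r : ℝ) ≤ (2 : ℝ) ^ (ι * m + 1) := Real.rpow_le_rpow_of_exponent_le (by norm_num) h3
      _ = (2 : ℝ) ^ (ι * m) * 2 := by rw [Real.rpow_add (by norm_num), Real.rpow_one]
      _ ≤ ((2 ^ m : ℕ) : ℝ) ^ ι * ((2 ^ m : ℕ) : ℝ) ^ ι := by
          rw [← e1]
          exact mul_le_mul_of_nonneg_left hm (by positivity)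
  have h4 : ((2 ^ p : ℕ) : ℝ) ≤ ((2 ^ r : ℕ) : ℝ) * ((2 ^ (p - r) : ℕ) : ℝ) := by exact_mod_cast h1
  exact h4.trans (mul_le_mul_of_nonneg_right h2 (Nat.cast_nonneg _))

/-- **The double tie is told by the indicators**, at the concrete frame. -/
theorem k2F44 [IsProbabilityMeasure μ] {c₁ C : ℝ} {n₀ : ℕ} (h : In μ s c₁ C n₀) (hk : KapLe96 (EE μ s) (1 / 4)) {K : ℕ}
    (hK : 32 ≤ K) (hδ : 0 < δ) (hc : 0 ≤ c) (hcδ : c ≤ δ / 64) :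
    Est fun ι β γ m => K2N44 μ s (frm33 μ s K ι β γ) (EE μ s) δ c (((2 ^ m : ℕ) : ℝ) ^ (2 * β)) m := by
  have hK0 : (0 : ℝ) < K := by
    have : (32 : ℝ) ≤ K := by exact_mod_cast hK
    linarith
  refine ⟨δ / 16, by positivity, fun ι _ hι => ⟨1, one_pos, fun β hβ hβ1 => ?_⟩⟩
  obtain ⟨γ₀, hγ₀, H⟩ := k2N44 h (show 0 < δ / 4 / K by positivity) (show 0 < β / K by positivity)
  refine ⟨γ₀, hγ₀, fun γ hγ hγ' => ?_⟩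
  obtain ⟨dl, c', hdl, hc', N₀, H⟩ := H γ hγ hγ'
  filter_upwards [ev_L (by omega : 1 ≤ K) N₀, cone33 h hK hdl, ev_n one_pos 6, b0_33 hδ (show ι ≤ δ / 4 by linarith), small44 hK hc',
    Frm33.deep33_ev h hk hδ hc hcδ hι, eventually_ge_atTop 1, ev_n hβ 2] with m h1 h2 h3 h4 h5 h6 hm1 h7 p q i hst hi
  have hsm : sg96 (EE μ s) c m p ≤ m := hst.hsq.trans hst.hqm
  have hpm : p ≤ m := hst.hps.trans hsm
  have dp : Deep (R33 ι m) (2 ^ p) (2 ^ sg96 (EE μ s) c m p) := (h6 p hst.hp hsm).mono (by omega)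
  have hL2 : 2 ^ m + 2 ^ m ≤ L33 K m := by
    have e : 2 ^ m + 2 ^ m = 2 ^ (m + 1) := by ring
    rw [e]
    exact Nat.pow_le_pow_right two_pos (by nlinarith)
  have hpp : 2 ^ p ≤ 2 ^ m := Nat.pow_le_pow_right two_pos hpm
  have hb : 2 ^ (p - ⌈ι * (m : ℝ)⌉₊) ≤ 2 ^ p := Nat.pow_le_pow_right two_pos (Nat.sub_le _ _)
  have ek : (L33 K m : ℝ) ^ (δ / 4 / K) = ((2 ^ m : ℕ) : ℝ) ^ (δ / 4) := by
    rw [L33_pow]
    congr 1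
    field_simp
  have eβ : (L33 K m : ℝ) ^ (β / K) = B33 β m := by
    unfold B33
    rw [L33_pow]
    congr 1
    field_simp
  have h3b : 6 * 2 ^ (p - ⌈ι * (m : ℝ)⌉₊) ≤ L33 K m := by
    rw [Real.rpow_one] at h3
    have e3 : 6 ≤ 2 ^ m := by exact_mod_cast h3
    have e4 : 2 ^ m * 2 ^ m ≤ L33 K m := by
      unfold L33
      rw [← pow_add]
      exact Nat.pow_le_pow_right two_pos (by nlinarith)
    exact (Nat.mul_le_mul e3 (hb.trans hpp)).trans e4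
  have hn1 : (1 : ℝ) ≤ ((2 ^ m : ℕ) : ℝ) := n_ge1 m
  have hn0 : (0 : ℝ) < ((2 ^ m : ℕ) : ℝ) := lt_of_lt_of_le one_pos hn1
  have hBL : B33 β m ≤ (L33 K m : ℝ) := by
    unfold B33
    calc ((2 ^ m : ℕ) : ℝ) ^ β ≤ ((2 ^ m : ℕ) : ℝ) ^ (1 : ℝ) := Real.rpow_le_rpow_of_exponent_le hn1 hβ1
      _ = ((2 ^ m : ℕ) : ℝ) := Real.rpow_one _
      _ ≤ _ := by exact_mod_cast L33_ge (by omega : 1 ≤ K) m
  have hM : 2 * B33 β m ≤ ((2 ^ m : ℕ) : ℝ) ^ (2 * β) := by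
    have e : ((2 ^ m : ℕ) : ℝ) ^ (2 * β) = ((2 ^ m : ℕ) : ℝ) ^ β * ((2 ^ m : ℕ) : ℝ) ^ β := by
      rw [← Real.rpow_add hn0]
      congr 1
      ring
    unfold B33
    rw [e]
    exact mul_le_mul_of_nonneg_right h7 (by positivity)
  have hrow : ∀ j ∈ Rw (R33 ι m) (i * 2 ^ q) ((i + 1) * 2 ^ q), j + 2 ^ p ≤ L33 K m := fun j hj => by
    unfold Rw at hj
    rw [mem_inter] at hj
    have hj2 := mem_range.1 (Frm33.R33_sub ι m hj.1)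
    omega
  obtain ⟨z, hz⟩ : ∃ z, z = Real.exp (-(L33 K m : ℝ) ^ c') := ⟨_, rfl⟩
  have hz0 : 0 ≤ z := by
    rw [hz]
    exact (Real.exp_pos _).le
  have hz4 : z ≤ 1 / 4 := by
    rw [hz]
    refine h5.trans ?_
    have h8 : (6 : ℝ) ≤ ((2 ^ m : ℕ) : ℝ) := by rwa [Real.rpow_one] at h3
    calc ((2 ^ m : ℕ) : ℝ) ^ (-6 : ℝ) ≤ ((2 ^ m : ℕ) : ℝ) ^ (-1 : ℝ) := Real.rpow_le_rpow_of_exponent_le hn1 (by norm_num)
      _ = (((2 ^ m : ℕ) : ℝ))⁻¹ := Real.rpow_neg_one _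
      _ ≤ (4 : ℝ)⁻¹ := inv_anti₀ (by norm_num) (le_trans (by norm_num) h8)
      _ = 1 / 4 := by norm_num
  have key : S33 μ s (frm33 μ s K ι β γ) m q i (fun y ω j S => sr ω.2 j / 3 *
      k2b μ s (L33 K m) (Pn (L33 K m) y) γ (B33 β m) (2 ^ (p - ⌈ι * (m : ℝ)⌉₊)) (2 ^ p) (2 ^ sg96 (EE μ s) c m p) ω j S) ≤
      avy (ys33 μ s K m) fun y => 4 * B33 β m ^ 4 * (∫ ω, gm (wm μ s (L33 K m) (Pn (L33 K m) y) ω)
        (fun S => (∑ j ∈ Rw (R33 ι m) (i * 2 ^ q) ((i + 1) * 2 ^ q), a5 (wm μ s (L33 K m) (Pn (L33 K m) y) ω) 0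
          (2 ^ (p - ⌈ι * (m : ℝ)⌉₊)) (2 ^ p) (2 ^ sg96 (EE μ s) c m p) j (((2 ^ m : ℕ) : ℝ) ^ (2 * β)) S) ^ 2) ∂(Pm μ (L33 K m))) + z := by
    unfold S33
    refine avy_mono fun y hy => ?_
    have hy' := mem_Ico.1 (show y ∈ Ico (y33 μ s K m) (y33 μ s K m + M33 m) from hy)
    obtain ⟨g1, g2, g3⟩ := h2
    have hyL : y < L33 K m := by omega
    rw [hz]
    exact H (L33 K m) h1 y (by omega) hyL (fun z hz => (g3 z (by rcases hz with h5 | h5 | h5 <;> rw [h5] <;> omega)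
      (by rcases hz with h5 | h5 | h5 <;> rw [h5] <;> omega)).2) (B33 β m) _ (by rw [eβ]) hBL hM _ (2 ^ p) _
      (by rw [ek]; exact h4 p hst.hp) hb h3b (R33 ι m) dp (i * 2 ^ q) ((i + 1) * 2 ^ q) hrow
  refine (show S33 μ s (frm33 μ s K ι β γ) m q i (fun y ω j S => sr ω.2 j / 3 *
      k2b μ s (L33 K m) (Pn (L33 K m) y) γ (B33 β m) (2 ^ (p - ⌈ι * (m : ℝ)⌉₊)) (2 ^ p) (2 ^ sg96 (EE μ s) c m p) ω j S) ≤ _ from
    key.trans ?_)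
  rw [avy_add, avy_mul]
  refine add_le_add le_rfl ?_
  exact (avy_le46 hz0 fun y _ => le_rfl).trans hz4

/-- **THE SECOND MOMENT OF THE DOUBLE TIE AT THE CONCRETE FRAME FROM THE TWO INPUTS.** -/
theorem x2n44 [IsProbabilityMeasure μ] {K : ℕ} {c₁ C : ℝ} {n₀ : ℕ} (h : In μ s c₁ C n₀)
    (hk : KapLe96 (EE μ s) (1 / 4)) (hK : 32 ≤ K) {c₀ : ℝ} (hR : RegP46 μ s c₀ Θ) (hΘ : 0 < Θ) (hΘ1 : Θ ≤ 1) (hδ : 0 < δ) (hc : 0 < c)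
    (hcδ : 64 * c ≤ δ) (hcΘ : 16 * c ≤ Θ) {ε₁ : ℝ} (hε₁ : 0 ≤ ε₁) (hε₁' : ε₁ ≤ 1) (hε₁c : ε₁ ≤ c / 16)
    (hX : Est fun ι β γ m => XI44 μ s (frm33 μ s K ι β γ) (EE μ s) δ c ε₁ (((2 ^ m : ℕ) : ℝ) ^ (2 * β)) m)
    (hS : Est fun ι β γ m => SI44 μ s (frm33 μ s K ι β γ) (EE μ s) δ c ε₁ (((2 ^ m : ℕ) : ℝ) ^ (2 * β)) m) :
    Est fun ι β γ m => X2N μ s (frm33 μ s K ι β γ) (EE μ s) Θ δ c (c / 2) m := by
  obtain ⟨a, -, -, h1⟩ := hR.est hδ (k := 1) one_pos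
  have h2 : Est fun ι _ _ _ => 0 ≤ ι ∧ 16 * (1 * ι) ≤ c ∧ 16 * (2 * ι) ≤ c := by
    refine Par92.Est.iota ?_
    exact ⟨c / 32, by positivity, fun ι hι h => ⟨hι.le, by linarith, by linarith⟩⟩
  have h3 : Est fun ι β γ m => XI44 μ s (frm33 μ s K ι β γ) (EE μ s) δ c ε₁ (((2 ^ m : ℕ) : ℝ) ^ (2 * β)) m ∧
      SI44 μ s (frm33 μ s K ι β γ) (EE μ s) δ c ε₁ (((2 ^ m : ℕ) : ℝ) ^ (2 * β)) m ∧
      32 * (((2 ^ m : ℕ) : ℝ) ^ β) ^ 4 * ((2 ^ m : ℕ) : ℝ) ^ (2 * ε₁) ≤ ((2 ^ m : ℕ) : ℝ) ^ (c / 2) ∧ 2 ≤ ((2 ^ m : ℕ) : ℝ) ^ β ∧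
      8 ≤ ((2 ^ m : ℕ) : ℝ) ∧ 2 ≤ ((2 ^ m : ℕ) : ℝ) ^ ι := by
    have h4 : Est fun _ β _ _ => β ≤ c / 32 := Par92.Est.beta (Par92.Sml.of fun _ _ =>
      ⟨c / 32, by positivity, fun β _ hb => hb⟩)
    refine ((hX.and hS).and h4).mono fun ι β γ hι hβ _ => ?_
    by_cases hb : β ≤ c / 32
    swap
    · exact Eventually.of_forall fun m h => absurd h.2 hb
    filter_upwards [ev_n (show 0 < c / 4 by positivity) 32, ev_n hβ 2, ev_n one_pos 8, ev_n hι 2] with m g4 g5 g6 g7 g1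
    have hn1 : (1 : ℝ) ≤ ((2 ^ m : ℕ) : ℝ) := n_ge1 m
    have hn0 : (0 : ℝ) < ((2 ^ m : ℕ) : ℝ) := lt_of_lt_of_le one_pos hn1
    refine ⟨g1.1.1, g1.1.2, ?_, g5, by rwa [Real.rpow_one] at g6, g7⟩
    have e1 : (((2 ^ m : ℕ) : ℝ) ^ β) ^ 4 = ((2 ^ m : ℕ) : ℝ) ^ (4 * β) := by
      rw [← Real.rpow_natCast, ← Real.rpow_mul hn0.le]
      congr 1
      push_cast
      ring
    rw [e1]
    calc 32 * ((2 ^ m : ℕ) : ℝ) ^ (4 * β) * ((2 ^ m : ℕ) : ℝ) ^ (2 * ε₁)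
        ≤ ((2 ^ m : ℕ) : ℝ) ^ (c / 4) * ((2 ^ m : ℕ) : ℝ) ^ (4 * β) * ((2 ^ m : ℕ) : ℝ) ^ (2 * ε₁) := by gcongr
      _ = ((2 ^ m : ℕ) : ℝ) ^ (c / 4 + 4 * β + 2 * ε₁) := by
          rw [Real.rpow_add hn0, Real.rpow_add hn0]
      _ ≤ _ := Real.rpow_le_rpow_of_exponent_le hn1 (by linarith)
  have h4 : Est fun ι β γ m => (frm33 μ s K ι β γ).Ok Θ m := ok33 (by omega) hΘ
  have h5 : Est fun ι β γ m => DeepB (frm33 μ s K ι β γ) (EE μ s) δ c m := deepB33 h hk hδ hc.le (by linarith)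
  have h6 := k2F44 (μ := μ) (s := s) (δ := δ) (c := c) h hk hK hδ hc.le (by linarith)
  refine (((h1.and h2).and h6).and (h4.and (h5.and h3))).mono
    fun ι β γ _ _ _ => Eventually.of_forall fun m hm => ?_
  obtain ⟨⟨⟨⟨r1, -⟩, r2, r3, r3'⟩, r4⟩, r5, r6, r7, r8, r9, r10, r11, r12⟩ := hm
  exact x2_of44 r1 hc hcδ hcΘ hΘ1 r3 r3' hε₁ hε₁' r11 r5 r10 r6
    (fun p => ⟨Nat.one_le_two_pow, Nat.pow_le_pow_right two_pos (Nat.sub_le _ _)⟩) (fun p => b_b044 r2 r12 p) r9 r4 r7 r8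

end

end Pool.Agent.W_7d29a1_C0.X2b44
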