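import Pool.Agent.W_7d29a1_C0.X2M44
import Pool.Agent.W_7d29a1_C0.GwO73

/-!
MP_7d29a1_pr, [CURV0] (helper44), leaf X2N, part 6 (the numbers). **`k2N44`**: for all windows `n ^ κ ≤ b0 ≤ b` the mean of the second moment
of the sum over the kicked rows of the double tie is at most `4 B ^ 4` times the mean of the second moment of the sum of `a5 (0, b0, b)`,
plus `exp (- N ^ c')`.
-/

set_option autoImplicit false
set_option linter.unusedSectionVars false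
set_option linter.unusedVariables false

namespace Pool.Agent.W_7d29a1_C0.X2b44

open Pool.Agent.W_7d29a1_F hiding W_pos W_nonneg W_add
open Finset MeasureTheory Filter Topology Pool.Agent.W_7d29a1_X
open Pool.Agent.W_7d29a1_H (sl)
open Pool.Agent.W_7d29a1_HS (In wd)
open Pool.Agent.W_7d29a1_HZ (wd')
open Pool.Agent.W_7d29a1_HZ.Z74 (shj mp_shj)
open Pool.Agent.W_7d29a1_C0 Pool.Agent.W_7d29a1_C0.Mod92 Pool.Agent.W_7d29a1_C0.Flip61 Pool.Agent.W_7d29a1_C0.Blk18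
open Pool.Agent.W_7d29a1_C0.Pin18
open Pool.Agent.W_7d29a1_C0.Cl46 Pool.Agent.W_7d29a1_C0.Eta3 Pool.Agent.W_7d29a1_C0.GwA50 Pool.Agent.W_7d29a1_C0.CrA44
open Pool.Agent.W_7d29a1_C0.Frm33 (clipP33)
open Pool.Agent.W_7d29a1_C0.LocM18 (Cn)
open Pool.Agent.W_7d29a1_C0.Swap57 Pool.Agent.W_7d29a1_C0.E4T32 Pool.Agent.W_7d29a1_C0.Base5
open Pool.W7d29a1.C0 (gz gm gz_pos gz_ne gm_mono gm_nonneg gm_add gm_smul gm_const gb81 gb81_apply Mc)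
open Pool.W7d29a1.C0.VT31 Pool.W7d29a1.C0.S1 Pool.W7d29a1.C0.R43

noncomputable section

/-- The numbers. -/
theorem num44 {a₁ a₂ a₃ a₄ e₁ e₂ ε c' β : ℝ} (he1 : 0 < e₁) (h1c : e₁ < c') (h1β : e₁ ≤ β) (he2 : 0 < e₂) (h21 : e₂ < a₁)
    (ha2 : 0 < a₂) (ha3 : 0 < a₃) (ha4 : 0 < a₄) (hε : ε ≤ β) : ∃ c : ℝ, 0 < c ∧ ∀ᶠ N : ℕ in atTop,
      (2 ≤ (N : ℝ) ^ β) ∧ ∀ B m n : ℝ, (N : ℝ) ^ β ≤ B → B ≤ N → 2 * B ≤ m → 0 ≤ n → n ≤ N →
        4 * n ^ 2 * (12 * B ^ 4 * (((N : ℝ) + 1) ^ 2 * Real.exp (-m)) + 3 * t44 N ε c' B ((N : ℝ) ^ e₁) m ^ 2) +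
          400 * n * B ^ 4 * (n * (8 * Real.exp (2 * (N : ℝ) ^ e₂ + 1) * Real.exp (-(N : ℝ) ^ a₁) + 4 * Real.exp (-(N : ℝ) ^ a₄) +
            3 * Real.exp (-(N : ℝ) ^ a₂) + 2 * Real.exp (-(N : ℝ) ^ a₃))) + (n * B ^ 2) ^ 2 * Real.exp (-(N : ℝ) ^ c') ≤
          Real.exp (-(N : ℝ) ^ c) := by
  obtain ⟨c, hc⟩ : ∃ c, c = min (min e₁ e₂) (min a₂ (min a₃ a₄)) := ⟨_, rfl⟩
  have hc0 : 0 < c := by
    rw [hc]
    exact lt_min (lt_min he1 he2) (lt_min ha2 (lt_min ha3 ha4))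
  have c1 : c ≤ e₁ := by rw [hc]; exact (min_le_left _ _).trans (min_le_left _ _)
  have c2 : c ≤ e₂ := by rw [hc]; exact (min_le_left _ _).trans (min_le_right _ _)
  have c3 : c ≤ a₂ := by rw [hc]; exact (min_le_right _ _).trans (min_le_left _ _)
  have c4 : c ≤ a₃ := by rw [hc]; exact (min_le_right _ _).trans ((min_le_right _ _).trans (min_le_left _ _))
  have c5 : c ≤ a₄ := by rw [hc]; exact (min_le_right _ _).trans ((min_le_right _ _).trans (min_le_right _ _))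
  refine ⟨c / 2, by positivity, ?_⟩
  filter_upwards [eventually_ge_atTop 1, Pool.Agent.W_7d29a1_HZ.Z74.ev_pow (he1.trans_le h1β) 2,
    Pool.Agent.W_7d29a1_HZ.Z74.ev_pow_le h1c (K := 3) one_pos, Pool.Agent.W_7d29a1_HZ.Z74.ev_pow_le h21 (K := 4) one_pos,
    Pool.Agent.W_7d29a1_HZ.Z74.ev_exp (A := 10065) (a := 1) (by norm_num) one_pos hc0 (show c / 2 < c by linarith) (8 : ℕ)]
    with N hN g1 g2 g3 g4
  have hNR : (1 : ℝ) ≤ N := by exact_mod_cast hN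
  have hN0 : (0 : ℝ) < N := by linarith
  refine ⟨g1, fun B m n hB hBN hm hn0 hn => ?_⟩
  rw [one_mul] at g2 g3 g4
  rw [Real.rpow_natCast] at g4
  obtain ⟨z, hz⟩ : ∃ z, z = Real.exp (-(N : ℝ) ^ c) := ⟨_, rfl⟩
  have hz0 : 0 < z := by rw [hz]; exact Real.exp_pos _
  have hz1 : z ≤ 1 := by
    rw [hz]
    exact Real.exp_le_one_iff.2 (by have := Real.rpow_nonneg hN0.le c; linarith)
  have key : ∀ x : ℝ, (N : ℝ) ^ c ≤ x → Real.exp (-x) ≤ z := fun x hx => by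
    rw [hz]
    exact Real.exp_le_exp.2 (by linarith)
  have kpow : ∀ a : ℝ, c ≤ a → (N : ℝ) ^ c ≤ (N : ℝ) ^ a := fun a ha => Real.rpow_le_rpow_of_exponent_le hNR ha
  have hcβ : (N : ℝ) ^ c ≤ (N : ℝ) ^ β := kpow β (c1.trans h1β)
  have hεβ : (N : ℝ) ^ ε ≤ (N : ℝ) ^ β := Real.rpow_le_rpow_of_exponent_le hNR hε
  have h1B : (N : ℝ) ^ e₁ ≤ (N : ℝ) ^ β := Real.rpow_le_rpow_of_exponent_le hNR h1β
  have hcc' : (N : ℝ) ^ c ≤ (N : ℝ) ^ c' := kpow c' (c1.trans h1c.le)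
  have hβ0 : 0 ≤ (N : ℝ) ^ β := Real.rpow_nonneg hN0.le _
  have hB0 : 0 ≤ B := hβ0.trans hB
  have hB2 : 2 ≤ B := g1.trans hB
  rw [← hz] at g4
  have z0 : Real.exp (-m) ≤ z := key m (by linarith)
  have z1 : Real.exp (2 * (N : ℝ) ^ e₁) * Real.exp ((N : ℝ) ^ ε) * Real.exp (-(5 * m)) ≤ z := by
    rw [← Real.exp_add, ← Real.exp_add]
    refine le_trans (Real.exp_le_exp.2 ?_) (key B (hcβ.trans hB))
    linarith
  have z2 : Real.exp (2 * (N : ℝ) ^ e₁) * Real.exp (-(N : ℝ) ^ c') ≤ z := by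
    rw [← Real.exp_add]
    refine le_trans (Real.exp_le_exp.2 ?_) (key ((N : ℝ) ^ e₁) (kpow e₁ c1))
    linarith
  have z3 : Real.exp (4 * B) * Real.exp (-(4 * m)) ≤ z := by
    rw [← Real.exp_add]
    refine le_trans (Real.exp_le_exp.2 ?_) (key B (hcβ.trans hB))
    linarith
  have z4 : Real.exp (2 * (N : ℝ) ^ e₂ + 1) * Real.exp (-(N : ℝ) ^ a₁) ≤ z := by
    rw [← Real.exp_add]
    have h1 : (1 : ℝ) ≤ (N : ℝ) ^ e₂ := Real.one_le_rpow hNR he2.le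
    refine le_trans (Real.exp_le_exp.2 ?_) (key ((N : ℝ) ^ e₂) (kpow e₂ c2))
    linarith
  have z5 : Real.exp (-(N : ℝ) ^ a₂) ≤ z := key _ (kpow a₂ c3)
  have z6 : Real.exp (-(N : ℝ) ^ a₃) ≤ z := key _ (kpow a₃ c4)
  have z7 : Real.exp (-(N : ℝ) ^ a₄) ≤ z := key _ (kpow a₄ c5)
  have z8 : Real.exp (-(N : ℝ) ^ c') ≤ z := key _ hcc'
  -- the error which is not random
  have ht0 := t44_nonneg (N := N) (ε := ε) (c' := c') (ξ₁ := (N : ℝ) ^ e₁) hB0 m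
  have ht : t44 N ε c' B ((N : ℝ) ^ e₁) m ≤ 16 * (N : ℝ) ^ 2 * z := by
    have e : t44 N ε c' B ((N : ℝ) ^ e₁) m = B * (8 * (Real.exp (2 * (N : ℝ) ^ e₁) * Real.exp ((N : ℝ) ^ ε) * Real.exp (-(5 * m))) +
        4 * (Real.exp (2 * (N : ℝ) ^ e₁) * Real.exp (-(N : ℝ) ^ c'))) + 4 * B ^ 2 * (Real.exp (4 * B) * Real.exp (-(4 * m))) := by
      unfold t44
      ring
    rw [e]
    calc _ ≤ B * (8 * z + 4 * z) + 4 * B ^ 2 * z := by gcongr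
      _ ≤ (N : ℝ) * (12 * z) + 4 * (N : ℝ) ^ 2 * z := by
          have e1 : 8 * z + 4 * z = 12 * z := by ring
          rw [e1]
          gcongr
      _ ≤ (N : ℝ) ^ 2 * (12 * z) + 4 * (N : ℝ) ^ 2 * z := by
          have : (N : ℝ) ≤ (N : ℝ) ^ 2 := by nlinarith
          gcongr
      _ = _ := by ring
  have ht2 : t44 N ε c' B ((N : ℝ) ^ e₁) m ^ 2 ≤ 256 * (N : ℝ) ^ 4 * z := by
    calc _ ≤ (16 * (N : ℝ) ^ 2 * z) ^ 2 := pow_le_pow_left₀ ht0 ht 2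
      _ = 256 * (N : ℝ) ^ 4 * z * z := by ring
      _ ≤ 256 * (N : ℝ) ^ 4 * z * 1 := mul_le_mul_of_nonneg_left hz1 (by positivity)
      _ = _ := mul_one _
  obtain ⟨L, hL⟩ : ∃ L : ℝ, L = (N : ℝ) := ⟨_, rfl⟩
  have w1 : 4 * n ^ 2 * (12 * B ^ 4 * (((N : ℝ) + 1) ^ 2 * Real.exp (-m)) + 3 * t44 N ε c' B ((N : ℝ) ^ e₁) m ^ 2) ≤
      3264 * (N : ℝ) ^ 8 * z := by
    have x1 : ((N : ℝ) + 1) ^ 2 ≤ 4 * (N : ℝ) ^ 2 := by nlinarith
    calc _ ≤ 4 * (N : ℝ) ^ 2 * (12 * (N : ℝ) ^ 4 * ((4 * (N : ℝ) ^ 2) * z) + 3 * (256 * (N : ℝ) ^ 4 * z)) := by gcongr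
      _ = 192 * (N : ℝ) ^ 8 * z + 3072 * (N : ℝ) ^ 6 * z := by ring
      _ ≤ 192 * (N : ℝ) ^ 8 * z + 3072 * (N : ℝ) ^ 8 * z := by
          have : (N : ℝ) ^ 6 ≤ (N : ℝ) ^ 8 := pow_le_pow_right₀ hNR (by norm_num)
          gcongr
      _ = _ := by ring
  have w2 : 400 * n * B ^ 4 * (n * (8 * Real.exp (2 * (N : ℝ) ^ e₂ + 1) * Real.exp (-(N : ℝ) ^ a₁) + 4 * Real.exp (-(N : ℝ) ^ a₄) +
      3 * Real.exp (-(N : ℝ) ^ a₂) + 2 * Real.exp (-(N : ℝ) ^ a₃))) ≤ 6800 * (N : ℝ) ^ 8 * z := by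
    have x1 : 8 * Real.exp (2 * (N : ℝ) ^ e₂ + 1) * Real.exp (-(N : ℝ) ^ a₁) + 4 * Real.exp (-(N : ℝ) ^ a₄) +
      3 * Real.exp (-(N : ℝ) ^ a₂) + 2 * Real.exp (-(N : ℝ) ^ a₃) ≤ 17 * z := by linarith
    calc _ ≤ 400 * (N : ℝ) * (N : ℝ) ^ 4 * ((N : ℝ) * (17 * z)) := by gcongr
      _ = 6800 * (N : ℝ) ^ 6 * z := by ring
      _ ≤ 6800 * (N : ℝ) ^ 8 * z := by
          have : (N : ℝ) ^ 6 ≤ (N : ℝ) ^ 8 := pow_le_pow_right₀ hNR (by norm_num)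
          gcongr
  have w3 : (n * B ^ 2) ^ 2 * Real.exp (-(N : ℝ) ^ c') ≤ 1 * (N : ℝ) ^ 8 * z := by
    calc _ ≤ ((N : ℝ) * (N : ℝ) ^ 2) ^ 2 * z := by gcongr
      _ = (N : ℝ) ^ 6 * z := by ring
      _ ≤ 1 * (N : ℝ) ^ 8 * z := by
          rw [one_mul]
          have : (N : ℝ) ^ 6 ≤ (N : ℝ) ^ 8 := pow_le_pow_right₀ hNR (by norm_num)
          gcongr
  have w4 := Real.exp_pos (-(N : ℝ) ^ (c / 2))
  linarith

variable {μ : Measure ℝ} {s : ℝ} [IsProbabilityMeasure μ] {c₁ C : ℝ} {n₀ : ℕ}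

/-- **THE SECOND MOMENT OF THE DOUBLE TIE**, for all pairs of windows. -/
theorem k2N44 (h : In μ s c₁ C n₀) {κ β : ℝ} (hκ : 0 < κ) (hβ : 0 < β) : ∃ γ₀ : ℝ, 0 < γ₀ ∧ ∀ γ : ℝ, 0 < γ → γ ≤ γ₀ →
    ∃ δ c' : ℝ, 0 < δ ∧ 0 < c' ∧ ∃ N₀ : ℕ, ∀ N : ℕ, N₀ ≤ N → ∀ y : ℕ, 1 ≤ y → y < N →
      (∀ z : ℕ, z = y ∨ z = y + 1 ∨ z = y - 1 → |(z : ℝ) - sl μ s * N| ≤ (N : ℝ) ^ δ * wd' μ s N) →
      ∀ B m : ℝ, (N : ℝ) ^ β ≤ B → B ≤ N → 2 * B ≤ m → ∀ b0 b σ : ℕ, (N : ℝ) ^ κ ≤ b0 → b0 ≤ b → 6 * b0 ≤ N →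
        ∀ R : Finset ℕ, Deep R b σ → ∀ c d : ℕ, (∀ j ∈ Rw R c d, j + b ≤ N) →
          ∫ ω, gm (wm μ s N (Pn N y) ω)
            (fun S => (∑ j ∈ Rw R c d, sr ω.2 j / 3 * k2b μ s N (Pn N y) γ B b0 b σ ω j S) ^ 2) ∂(Pm μ N) ≤
          4 * B ^ 4 * ∫ ω, gm (wm μ s N (Pn N y) ω)
            (fun S => (∑ j ∈ Rw R c d, a5 (Q := Pn N y) (wm μ s N (Pn N y) ω) 0 b0 b σ j m S) ^ 2) ∂(Pm μ N) +
          Real.exp (-(N : ℝ) ^ c') := by
  -- the levels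
  obtain ⟨γ₁, hγ₁, hclN⟩ := clN46 h hκ hβ
  obtain ⟨γ₂, hγ₂, hfl⟩ := flat46 h
  obtain ⟨δ₃, a₃, hδ₃, ha₃, N₃, hok⟩ := OkM18.okM18 h hκ
  obtain ⟨cG, hcG, hgw⟩ := gw_ord73 h hκ hβ
  obtain ⟨e₁, he₁⟩ : ∃ e₁, e₁ = min cG β / 2 := ⟨_, rfl⟩
  have he1 : 0 < e₁ := by
    rw [he₁]
    have := lt_min hcG hβ
    positivity
  have h1c : e₁ < cG := by
    have h1 : min cG β ≤ cG := min_le_left _ _
    linarith
  have h1β : e₁ ≤ β := by
    have h1 : min cG β ≤ β := min_le_right _ _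
    linarith
  refine ⟨min γ₁ γ₂, lt_min hγ₁ hγ₂, fun γ hγ hγ' => ?_⟩
  obtain ⟨δ₄, a₄, hδ₄, ha₄, N₄, hc4⟩ := hclN γ hγ (hγ'.trans (min_le_left _ _))
  obtain ⟨l₀, hl₀⟩ := hfl γ (hγ'.trans (min_le_right _ _))
  obtain ⟨dG, hdG, hdγ, N₇, hN₇⟩ := hgw γ hγ
  obtain ⟨δ₁, a₁, hδ₁, ha₁, N₁, hb1⟩ := bwT46 h hκ (show 0 < dG / 2 by positivity) he1
  obtain ⟨e₂, he₂⟩ : ∃ e₂, e₂ = a₁ / 2 := ⟨_, rfl⟩
  have he2 : 0 < e₂ := by
    rw [he₂]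
    positivity
  obtain ⟨δ₂, a₂, hδ₂, ha₂, N₂, hb2⟩ := bwT46 h hκ hγ he2
  obtain ⟨c', hc', hnum⟩ := num44 (β := β) (ε := β) (c' := cG) he1 h1c h1β he2 (show e₂ < a₁ by linarith) ha₂ ha₃ ha₄ le_rfl
  obtain ⟨N₅, hN₅⟩ := eventually_atTop.1 (hnum.and (ev_of hκ (ev_wd' h (show 0 ≤ dG / 2 by positivity) (show dG / 2 < dG by linarith))))
  have t2 : Tendsto (fun N : ℕ => (N : ℝ) ^ κ) atTop atTop := (tendsto_rpow_atTop hκ).comp tendsto_natCast_atTop_atTop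
  obtain ⟨N₆, hN₆⟩ := eventually_atTop.1 (t2.eventually_ge_atTop (l₀ : ℝ))
  obtain ⟨δ, hδd⟩ : ∃ δ, δ = min (min δ₁ δ₂) (min δ₃ δ₄) := ⟨_, rfl⟩
  have q1 : δ ≤ δ₁ := by rw [hδd]; exact (min_le_left _ _).trans (min_le_left _ _)
  have q2 : δ ≤ δ₂ := by rw [hδd]; exact (min_le_left _ _).trans (min_le_right _ _)
  have q3 : δ ≤ δ₃ := by rw [hδd]; exact (min_le_right _ _).trans (min_le_left _ _)
  have q4 : δ ≤ δ₄ := by rw [hδd]; exact (min_le_right _ _).trans (min_le_right _ _)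
  refine ⟨δ, c', by rw [hδd]; exact lt_min (lt_min hδ₁ hδ₂) (lt_min hδ₃ hδ₄), hc',
    max (max (max N₁ N₂) (max N₃ N₄)) (max (max N₅ N₆) (max N₇ 1)),
    fun N hN y hy1 hyN hyc B m hB hBN hm b0 b σ hb0 hbb h6 R hD c d hrow => ?_⟩
  have g1 : N₁ ≤ N := (le_max_left _ _).trans ((le_max_left _ _).trans ((le_max_left _ _).trans hN))
  have g2 : N₂ ≤ N := (le_max_right _ _).trans ((le_max_left _ _).trans ((le_max_left _ _).trans hN))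
  have g3 : N₃ ≤ N := (le_max_left _ _).trans ((le_max_right _ _).trans ((le_max_left _ _).trans hN))
  have g4 : N₄ ≤ N := (le_max_right _ _).trans ((le_max_right _ _).trans ((le_max_left _ _).trans hN))
  have g5 : N₅ ≤ N := (le_max_left _ _).trans ((le_max_left _ _).trans ((le_max_right _ _).trans hN))
  have g6 : N₆ ≤ N := (le_max_right _ _).trans ((le_max_left _ _).trans ((le_max_right _ _).trans hN))
  have g7 : N₇ ≤ N := (le_max_left _ _).trans ((le_max_right _ _).trans ((le_max_right _ _).trans hN))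
  have g8 : 1 ≤ N := (le_max_right _ _).trans ((le_max_right _ _).trans ((le_max_right _ _).trans hN))
  have hNR : (1 : ℝ) ≤ N := by exact_mod_cast g8
  have hw0 : 0 ≤ wd' μ s N := zero_le_one.trans (le_max_left _ _)
  have cone : ∀ δ' : ℝ, δ ≤ δ' → ∀ z : ℕ, z = y ∨ z = y + 1 ∨ z = y - 1 → |(z : ℝ) - sl μ s * N| ≤ (N : ℝ) ^ δ' * wd' μ s N :=
    fun δ' hδ' z hz => (hyc z hz).trans (mul_le_mul_of_nonneg_right (Real.rpow_le_rpow_of_exponent_le hNR hδ') hw0)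
  obtain ⟨⟨n1, n2⟩, n3⟩ := hN₅ N g5
  have hB0 : 0 ≤ B := (Real.rpow_nonneg (by linarith) _).trans hB
  have hb0p : 0 < b0 := by
    rcases Nat.eq_zero_or_pos b0 with h5 | h5
    · rw [h5, Nat.cast_zero] at hb0
      have := Real.rpow_pos_of_pos (lt_of_lt_of_le one_pos hNR) κ
      linarith
    · exact h5
  have hbj : ∀ j ∈ Rw R c d, b ≤ j := fun j hj => by
    have := (hD j (mem_inter.1 hj).1).1
    omega
  have hl0R : (l₀ : ℝ) ≤ b0 := (hN₆ N g6).trans hb0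
  have hl0N : l₀ ≤ b0 := by exact_mod_cast hl0R
  have hcard : ((Rw R c d).card : ℝ) ≤ N := by
    have h1 : Rw R c d ⊆ range N := fun j hj => by
      have := hrow j hj
      exact mem_range.2 (by omega)
    have h2 := card_le_card h1
    rw [card_range] at h2
    exact_mod_cast h2
  have hξB : (N : ℝ) ^ e₁ ≤ B := (Real.rpow_le_rpow_of_exponent_le hNR h1β).trans hB
  have hlen : ∀ j, b0 ≤ j → (N : ℝ) ^ κ ≤ ((j + b0 - (j - b0) : ℕ) : ℝ) := fun j h5 => by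
    refine hb0.trans ?_
    exact_mod_cast (show b0 ≤ j + b0 - (j - b0) by omega)
  have hlenb : ∀ j, b ≤ j → (N : ℝ) ^ κ ≤ ((j + b - (j - b) : ℕ) : ℝ) := fun j h5 => by
    refine hb0.trans ?_
    exact_mod_cast (show b0 ≤ j + b - (j - b) by omega)
  have key := int_k44 (μ := μ) (s := s) (N := N) (y := y) hy1 hyN (κ := κ) (δ₁ := dG) (ε := β) (c' := cG) (γ := γ) (B := B)
    (γ' := dG / 2) (ξ := (N : ℝ) ^ e₂) (ξ₁ := (N : ℝ) ^ e₁) (b0 := b0) (b := b) (σ := σ) hb0 hbb hD (c := c) (d := d) hrow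
    (n1.trans hB) (Real.rpow_nonneg (by linarith) _) hξB (m := m)
    (fun ω j hj S hg => by
      have h5 := hbj j hj
      have h6 := hg.1
      unfold Flat at h6
      unfold Cn ps
      rw [hcl b0 j] at h6
      have h7 := n3 (j + b0 - (j - b0)) (hlen j (by omega))
      obtain ⟨l, hl⟩ : ∃ l : ℕ, l = j + b0 - (j - b0) := ⟨_, rfl⟩
      rw [← hl] at h6 h7 ⊢
      have h8 : wd μ s l ≤ wd' μ s l := le_max_right _ _
      have h9 : (l : ℝ) ^ (dG / 2) * wd μ s l ≤ (l : ℝ) ^ (dG / 2) * wd' μ s l :=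
        mul_le_mul_of_nonneg_left h8 (Real.rpow_nonneg (Nat.cast_nonneg _) _)
      have h10 : |((sg ω.2 j : ℤ) : ℝ)| ≤ 1 := by
        rcases sg_or ω.2 j with h | h <;> rw [h] <;> norm_num
      have h11 := abs_le.1 h10
      have h12 := abs_le.1 h6
      rw [abs_le]
      constructor <;> linarith [h12.1, h12.2, h11.1, h11.2])
    (fun ω j hj x z hg => by
      have h5 := hbj j hj
      refine ⟨?_, hg.2⟩
      have h6 := hg.1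
      unfold Flat at h6 ⊢
      refine h6.trans ?_
      have hl1 : (1 : ℝ) ≤ ((j + b0 - (j - b0) : ℕ) : ℝ) := by
        exact_mod_cast (show 1 ≤ j + b0 - (j - b0) by omega)
      obtain ⟨l, hl⟩ : ∃ l : ℕ, l = j + b0 - (j - b0) := ⟨_, rfl⟩
      rw [← hl] at h6 hl1 ⊢
      have h7 : (l : ℝ) ^ (dG / 2) ≤ (l : ℝ) ^ γ := Real.rpow_le_rpow_of_exponent_le hl1 (by linarith)
      have h8 : 0 ≤ wd μ s l := by
        have h9 := (abs_nonneg _).trans h6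
        have h10 : 0 < (l : ℝ) ^ (dG / 2) := Real.rpow_pos_of_pos (by linarith) _
        exact nonneg_of_mul_nonneg_right h9 h10
      exact mul_le_mul_of_nonneg_right h7 h8)
    (fun a ha l hl D hD => hl₀ l (by omega) a (by rcases ha with h | h <;> rw [h] <;> norm_num) D hD)
    (P := Real.exp (-(N : ℝ) ^ cG)) (Real.exp_pos _).le (hN₇ N g7)
    (E := 8 * Real.exp (2 * (N : ℝ) ^ e₂ + 1) * Real.exp (-(N : ℝ) ^ a₁) + 4 * Real.exp (-(N : ℝ) ^ a₄) +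
      3 * Real.exp (-(N : ℝ) ^ a₂) + 2 * Real.exp (-(N : ℝ) ^ a₃))
    (fun j hj A => by
      have h5 := hbj j hj
      have hjN := hrow j hj
      have hnb : nb (sg A j) y = y + 1 ∨ nb (sg A j) y = y - 1 := by
        rcases sg_or A j with h5 | h5 <;> rw [h5]
        · exact Or.inl (nb_one y)
        · exact Or.inr (nb_neg y)
      have hnb' : nb (sg A j) y = y ∨ nb (sg A j) y = y + 1 ∨ nb (sg A j) y = y - 1 := Or.inr hnb
      have hnbN : nb (sg A j) y ≤ N := by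
        rcases hnb with h5 | h5 <;> rw [h5] <;> omega
      have ha1 : |sg A j| ≤ 1 := by
        rcases sg_or A j with h5 | h5 <;> rw [h5] <;> norm_num
      have ha2 : |-sg A j| ≤ 1 := by rwa [abs_neg]
      exact int_ErA44 (μ := μ) (s := s) hyN.le A hB0
        (hb1 N g1 y hyN.le (cone δ₁ q1 y (Or.inl rfl)) (j - b0) (j + b0 - (j - b0)) (j - (j - b0)) (by omega)
          (hlen j (by omega)) (by omega) (sg A j) ha1 _ le_rfl)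
        (hb1 N g1 _ hnbN (cone δ₁ q1 _ hnb') (j - b0) (j + b0 - (j - b0)) (j - (j - b0)) (by omega)
          (hlen j (by omega)) (by omega) (-sg A j) ha2 _ le_rfl)
        (hb2 N g2 y hyN.le (cone δ₂ q2 y (Or.inl rfl)) (j - b) (j + b - (j - b)) (j - (j - b)) (by omega) (hlenb j h5) (by omega)
          (sg A j) ha1 _ le_rfl)
        (hb2 N g2 _ hnbN (cone δ₂ q2 _ hnb') (j - b) (j + b - (j - b)) (j - (j - b)) (by omega) (hlenb j h5) (by omega)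
          (-sg A j) ha2 _ le_rfl)
        ((hok N g3 (j - b) (j + b - (j - b)) (by omega) (hlenb j h5) (-sg A j) ha2).1 _ hnbN (cone δ₃ q3 _ hnb'))
        fun t ht => hc4 N g4 y hy1 hyN (fun z hz => cone δ₄ q4 z hz) B hB hBN b0 b j hb0 hbb h5 hjN h6 A t ht)
  refine key.trans (add_le_add le_rfl ?_)
  exact n2 B m _ hB hBN hm (Nat.cast_nonneg _) hcard

end

end Pool.Agent.W_7d29a1_C0.X2b44
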