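import Pool.Agent.W_7d29a1_C0.X2D44
import Pool.Agent.W_7d29a1_C0.ClG46
import Pool.Agent.W_7d29a1_C0.EvX50

/-!
MP_7d29a1_pr, [CURV0] (helper44), leaf X2N, part 5 (the mean over the environment). `int_ErA44`: the mean of the error of one row. `int_k44`:
the mean of the second moment of the double tie is at most `4 B ^ 4` times the mean of the second moment of the sum of `a5 (0, b0, b)` plus
the means of the errors.
-/

set_option autoImplicit false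
set_option linter.unusedSectionVars false
set_option linter.unusedVariables false

namespace Pool.Agent.W_7d29a1_C0.X2b44

open Pool.Agent.W_7d29a1_F hiding W_pos W_nonneg W_add
open Finset MeasureTheory Pool.Agent.W_7d29a1_X
open Pool.Agent.W_7d29a1_H (sl)
open Pool.Agent.W_7d29a1_HZ.Z74 (shj mp_shj)
open Pool.Agent.W_7d29a1_C0 Pool.Agent.W_7d29a1_C0.Mod92 Pool.Agent.W_7d29a1_C0.Flip61 Pool.Agent.W_7d29a1_C0.Blk18
open Pool.Agent.W_7d29a1_C0.Pin18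
open Pool.Agent.W_7d29a1_C0.Cl46 Pool.Agent.W_7d29a1_C0.Eta3 Pool.Agent.W_7d29a1_C0.GwA50 Pool.Agent.W_7d29a1_C0.CrA44
open Pool.Agent.W_7d29a1_C0.LocM18 (Cn)
open Pool.Agent.W_7d29a1_C0.Swap57 Pool.Agent.W_7d29a1_C0.E4T32 Pool.Agent.W_7d29a1_C0.Base5
open Pool.W7d29a1.C0 (gz gm gz_pos gz_ne gm_mono gm_nonneg gm_add gm_smul gm_const gb81 gb81_apply Mc)
open Pool.W7d29a1.C0.VT31 Pool.W7d29a1.C0.S1 Pool.W7d29a1.C0.R43

noncomputable section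

variable {μ : Measure ℝ} {s : ℝ} {N : ℕ} [IsProbabilityMeasure μ]

/-! ### The error of one row -/

theorem meas_cl544 {y : ℕ} (hy : y ≤ N) (γ B : ℝ) (b0 b j : ℕ) : Measurable fun ω => cl5 μ s N (Pn N y) γ B b0 b ω j := by
  have n1 := ne_Pn hy
  exact meas_gm meas_wm fun S => ((meas_gg γ B b j S).sub (meas_ge5 γ B b0 b j S)).abs

theorem cl5_le44 {y : ℕ} (hy : y ≤ N) (γ : ℝ) {B : ℝ} (hB : 0 ≤ B) (b0 b j : ℕ) (ω : Env × Finset ℕ) :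
    cl5 μ s N (Pn N y) γ B b0 b ω j ≤ B := by
  have n1 := ne_Pn hy
  refine (le_abs_self _).trans (abs_gm5 _ fun S => ?_)
  rw [abs_abs]
  have h1 := abs_gg (μ := μ) (s := s) (δ := γ) hB b ω j S
  have h2 := abs_ge5 (μ := μ) (s := s) (N := N) (δ := γ) hB b0 b ω j S
  exact (abs_sub _ _).trans (by linarith)

theorem meas_Er44 {y : ℕ} (hy : y ≤ N) (γ B γ' ξ ξ₁ : ℝ) (b0 b j : ℕ) (A : Finset ℕ) :
    Measurable fun η : Env => Er44 μ s N γ B γ' ξ ξ₁ b0 b j y (η, A) := by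
  have ms : Measurable (shj (j : ℤ) (-sg A j)) := (mp_shj (μ := μ) (j : ℤ) (-sg A j)).measurable
  have mc : Measurable fun η : Env => cl5 μ s N (Pn N y) γ B b0 b (η, A) j := (meas_cl544 hy γ B b0 b j).comp (meas_pair A)
  unfold Er44
  dsimp only
  exact (((((meas_bw46 _ _ _ _ _ _ _).add ((meas_bw46 _ _ _ _ _ _ _).comp ms)).const_mul _).add (mc.const_mul 2)).add
    (meas_bw46 _ _ _ _ _ _ _)).add ((((meas_bw46 _ _ _ _ _ _ _).comp ms).add ((meas_nok _ _ _ _).comp ms)).const_mul 2)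

theorem Er_nonneg44 {y : ℕ} (hy : y ≤ N) (γ B γ' ξ ξ₁ : ℝ) (b0 b j : ℕ) (ω : Env × Finset ℕ) :
    0 ≤ Er44 μ s N γ B γ' ξ ξ₁ b0 b j y ω := by
  have h1 := Er_cl44 (μ := μ) (s := s) hy γ B γ' ξ ξ₁ b0 b j ω
  have h2 := cl5_nonneg44 (μ := μ) (s := s) hy γ B b0 b j ω
  linarith

theorem Er_le44 {y : ℕ} (hy : y ≤ N) (γ : ℝ) {B : ℝ} (hB : 0 ≤ B) (γ' ξ ξ₁ : ℝ) (b0 b j : ℕ) (ω : Env × Finset ℕ) :
    Er44 μ s N γ B γ' ξ ξ₁ b0 b j y ω ≤ 8 * Real.exp (2 * ξ + 1) + 2 * B + 5 := by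
  have h1 := bw_le46 (μ := μ) (s := s) (N := N) γ' ξ₁ (j - b0) (j + b0 - (j - b0)) (j - (j - b0)) (sg ω.2 j) y ω.1
  have h2 := bw_le46 (μ := μ) (s := s) (N := N) γ' ξ₁ (j - b0) (j + b0 - (j - b0)) (j - (j - b0)) (-sg ω.2 j) (nb (sg ω.2 j) y)
    (shj (j : ℤ) (-sg ω.2 j) ω.1)
  have h3 := bw_le46 (μ := μ) (s := s) (N := N) γ ξ (j - b) (j + b - (j - b)) (j - (j - b)) (sg ω.2 j) y ω.1
  have h4 := bw_le46 (μ := μ) (s := s) (N := N) γ ξ (j - b) (j + b - (j - b)) (j - (j - b)) (-sg ω.2 j) (nb (sg ω.2 j) y)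
    (shj (j : ℤ) (-sg ω.2 j) ω.1)
  have h5 := nok_le (μ := μ) (s := s) (N := N) (j - b) (j + b - (j - b)) (-sg ω.2 j) (nb (sg ω.2 j) y)
    (shj (j : ℤ) (-sg ω.2 j) ω.1)
  have h6 := cl5_le44 (μ := μ) (s := s) hy γ hB b0 b j ω
  have hX := Real.exp_pos (2 * ξ + 1)
  unfold Er44
  have h7 := mul_le_mul_of_nonneg_left (add_le_add h1 h2) (show 0 ≤ 4 * Real.exp (2 * ξ + 1) by positivity)
  linarith

theorem int_lin44 {f1 f2 f3 f4 f5 f6 : Env → ℝ} (i1 : Integrable f1 (law μ)) (i2 : Integrable f2 (law μ)) (i3 : Integrable f3 (law μ))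
    (i4 : Integrable f4 (law μ)) (i5 : Integrable f5 (law μ)) (i6 : Integrable f6 (law μ)) (X : ℝ) :
    ∫ η, (4 * X * (f1 η + f2 η) + 2 * f3 η + f4 η + 2 * (f5 η + f6 η)) ∂(law μ) =
      4 * X * (∫ η, f1 η ∂(law μ) + ∫ η, f2 η ∂(law μ)) + 2 * ∫ η, f3 η ∂(law μ) + ∫ η, f4 η ∂(law μ) +
        2 * (∫ η, f5 η ∂(law μ) + ∫ η, f6 η ∂(law μ)) := by
  have j1 := i1.add i2
  have j2 := i5.add i6
  have j3 := (j1.const_mul (4 * X)).add (i3.const_mul 2)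
  have j4 := j3.add i4
  have k1 : ∫ η, (f1 η + f2 η) ∂(law μ) = ∫ η, f1 η ∂(law μ) + ∫ η, f2 η ∂(law μ) := integral_add i1 i2
  have k2 : ∫ η, (f5 η + f6 η) ∂(law μ) = ∫ η, f5 η ∂(law μ) + ∫ η, f6 η ∂(law μ) := integral_add i5 i6
  have k3 : ∫ η, (4 * X * (f1 η + f2 η) + 2 * f3 η) ∂(law μ) =
      4 * X * (∫ η, f1 η ∂(law μ) + ∫ η, f2 η ∂(law μ)) + 2 * ∫ η, f3 η ∂(law μ) := by
    rw [← k1, ← integral_const_mul, ← integral_const_mul]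
    exact integral_add (j1.const_mul (4 * X)) (i3.const_mul 2)
  have k4 : ∫ η, (4 * X * (f1 η + f2 η) + 2 * f3 η + f4 η) ∂(law μ) =
      4 * X * (∫ η, f1 η ∂(law μ) + ∫ η, f2 η ∂(law μ)) + 2 * ∫ η, f3 η ∂(law μ) + ∫ η, f4 η ∂(law μ) := by
    rw [← k3]
    exact integral_add j3 i4
  rw [← k2, ← k4, ← integral_const_mul]
  exact integral_add j4 (j2.const_mul 2)

/-- **The mean of the error of one row** (the signs are fixed). -/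
theorem int_ErA44 {y : ℕ} (hy : y ≤ N) (A : Finset ℕ) {γ B γ' ξ ξ₁ : ℝ} (hB : 0 ≤ B) {b0 b j : ℕ} {E0 E1 En Ec : ℝ}
    (h0 : ∫ η, bw μ s N γ' ξ₁ (j - b0) (j + b0 - (j - b0)) (j - (j - b0)) (sg A j) y η ∂(law μ) ≤ E0)
    (h0' : ∫ η, bw μ s N γ' ξ₁ (j - b0) (j + b0 - (j - b0)) (j - (j - b0)) (-sg A j) (nb (sg A j) y) η ∂(law μ) ≤ E0)
    (h1 : ∫ η, bw μ s N γ ξ (j - b) (j + b - (j - b)) (j - (j - b)) (sg A j) y η ∂(law μ) ≤ E1)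
    (h1' : ∫ η, bw μ s N γ ξ (j - b) (j + b - (j - b)) (j - (j - b)) (-sg A j) (nb (sg A j) y) η ∂(law μ) ≤ E1)
    (hn : ∫ η, nok μ s N (j - b) (j + b - (j - b)) (-sg A j) (nb (sg A j) y) η ∂(law μ) ≤ En)
    (hc : ∀ t : ℝ, (t = 1 ∨ t = -1) → ∫ η, cm46 μ s N γ B b0 b j t y (η, A) ∂(law μ) ≤ Ec) :
    ∫ η, Er44 μ s N γ B γ' ξ ξ₁ b0 b j y (η, A) ∂(law μ) ≤ 8 * Real.exp (2 * ξ + 1) * E0 + 4 * Ec + 3 * E1 + 2 * En := by
  have ms : Measurable (shj (j : ℤ) (-sg A j)) := (mp_shj (μ := μ) (j : ℤ) (-sg A j)).measurable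
  have m1 : Measurable (bw μ s N γ ξ (j - b) (j + b - (j - b)) (j - (j - b)) (sg A j) y) := meas_bw46 _ _ _ _ _ _ _
  have m1' : Measurable (bw μ s N γ ξ (j - b) (j + b - (j - b)) (j - (j - b)) (-sg A j) (nb (sg A j) y)) := meas_bw46 _ _ _ _ _ _ _
  have m0 : Measurable (bw μ s N γ' ξ₁ (j - b0) (j + b0 - (j - b0)) (j - (j - b0)) (sg A j) y) := meas_bw46 _ _ _ _ _ _ _
  have m0' : Measurable (bw μ s N γ' ξ₁ (j - b0) (j + b0 - (j - b0)) (j - (j - b0)) (-sg A j) (nb (sg A j) y)) := meas_bw46 _ _ _ _ _ _ _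
  have mn : Measurable (nok μ s N (j - b) (j + b - (j - b)) (-sg A j) (nb (sg A j) y)) := meas_nok _ _ _ _
  have i1 := int_one46 (μ := μ) m1 (fun η => bw_nonneg46 _ _ _ _ _ _ _ _) fun η => bw_le46 _ _ _ _ _ _ _ η
  have i1' := int_one46 (μ := μ) (m1'.comp ms) (fun η => bw_nonneg46 _ _ _ _ _ _ _ _) fun η => bw_le46 _ _ _ _ _ _ _ _
  have i0 := int_one46 (μ := μ) m0 (fun η => bw_nonneg46 _ _ _ _ _ _ _ _) fun η => bw_le46 _ _ _ _ _ _ _ η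
  have i0' := int_one46 (μ := μ) (m0'.comp ms) (fun η => bw_nonneg46 _ _ _ _ _ _ _ _) fun η => bw_le46 _ _ _ _ _ _ _ _
  have iN := int_one46 (μ := μ) (mn.comp ms) (fun η => nok_nonneg _ _ _ _ _) fun η => nok_le _ _ _ _ _
  have ic := int_one46 (μ := μ) (f := fun η : Env => cl5 μ s N (Pn N y) γ B b0 b (η, A) j)
    ((meas_cl544 hy γ B b0 b j).comp (meas_pair A)) (fun η => cl5_nonneg44 hy _ _ _ _ _ _) fun η => cl5_le44 hy γ hB _ _ _ _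
  have iC : ∀ t : ℝ, Integrable (fun η : Env => cm46 μ s N γ B b0 b j t y (η, A)) (law μ) := fun t =>
    int_one46 (μ := μ) ((meas_cm46 hy _ _ _ _ _ _).comp (meas_pair A)) (fun η => cm_nonneg46 hy _ _ _ _ _ _ _) (M := B) fun η =>
      (le_abs_self _).trans (abs_cm46 hy γ hB b0 b j t (η, A))
  have e := int_lin44 i0 i0' ic i1 i1' iN (Real.exp (2 * ξ + 1))
  have e1' : ∫ η, (bw μ s N γ ξ (j - b) (j + b - (j - b)) (j - (j - b)) (-sg A j) (nb (sg A j) y) ∘ shj (j : ℤ) (-sg A j)) η ∂(law μ) =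
      ∫ η, bw μ s N γ ξ (j - b) (j + b - (j - b)) (j - (j - b)) (-sg A j) (nb (sg A j) y) η ∂(law μ) := int_shj _ _ m1'
  have e0' : ∫ η, (bw μ s N γ' ξ₁ (j - b0) (j + b0 - (j - b0)) (j - (j - b0)) (-sg A j) (nb (sg A j) y) ∘ shj (j : ℤ) (-sg A j)) η
      ∂(law μ) = ∫ η, bw μ s N γ' ξ₁ (j - b0) (j + b0 - (j - b0)) (j - (j - b0)) (-sg A j) (nb (sg A j) y) η ∂(law μ) := int_shj _ _ m0'
  have en : ∫ η, (nok μ s N (j - b) (j + b - (j - b)) (-sg A j) (nb (sg A j) y) ∘ shj (j : ℤ) (-sg A j)) η ∂(law μ) =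
      ∫ η, nok μ s N (j - b) (j + b - (j - b)) (-sg A j) (nb (sg A j) y) η ∂(law μ) := int_shj _ _ mn
  have ec : ∫ η, cl5 μ s N (Pn N y) γ B b0 b (η, A) j ∂(law μ) ≤ 2 * Ec := by
    have k3 := integral_mono_of_nonneg (μ := law μ) (f := fun η : Env => cl5 μ s N (Pn N y) γ B b0 b (η, A) j)
      (Filter.Eventually.of_forall fun η => cl5_nonneg44 hy _ _ _ _ _ _) ((iC 1).add (iC (-1)))
      (Filter.Eventually.of_forall fun η => cl5_le46 hy γ B _ _ j (η, A))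
    refine k3.trans ?_
    have k4 := integral_add (iC 1) (iC (-1))
    have k5 := hc 1 (Or.inl rfl)
    have k6 := hc (-1) (Or.inr rfl)
    simp only [Pi.add_apply]
    rw [k4]
    linarith
  rw [e1', e0', en] at e
  have e2 : ∫ η, Er44 μ s N γ B γ' ξ ξ₁ b0 b j y (η, A) ∂(law μ) =
      4 * Real.exp (2 * ξ + 1) * (∫ η, bw μ s N γ' ξ₁ (j - b0) (j + b0 - (j - b0)) (j - (j - b0)) (sg A j) y η ∂(law μ) +
        ∫ η, bw μ s N γ' ξ₁ (j - b0) (j + b0 - (j - b0)) (j - (j - b0)) (-sg A j) (nb (sg A j) y) η ∂(law μ)) +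
      2 * ∫ η, cl5 μ s N (Pn N y) γ B b0 b (η, A) j ∂(law μ) +
      ∫ η, bw μ s N γ ξ (j - b) (j + b - (j - b)) (j - (j - b)) (sg A j) y η ∂(law μ) +
      2 * (∫ η, bw μ s N γ ξ (j - b) (j + b - (j - b)) (j - (j - b)) (-sg A j) (nb (sg A j) y) η ∂(law μ) +
        ∫ η, nok μ s N (j - b) (j + b - (j - b)) (-sg A j) (nb (sg A j) y) η ∂(law μ)) := e
  rw [e2]
  have h3 := mul_le_mul_of_nonneg_left (add_le_add h0 h0') (show 0 ≤ 4 * Real.exp (2 * ξ + 1) by positivity)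
  linarith

/-! ### The mean of the second moment -/

theorem abs_sk44 {y : ℕ} (hy : y ≤ N) {γ B : ℝ} (hB : 0 ≤ B) (b0 b σ : ℕ) (J : Finset ℕ) (ω : Env × Finset ℕ) :
    gm (wm μ s N (Pn N y) ω) (fun S => (∑ j ∈ J, sr ω.2 j / 3 * k2b μ s N (Pn N y) γ B b0 b σ ω j S) ^ 2) ≤
      ((J.card : ℝ) * B ^ 2) ^ 2 := by
  have n1 := ne_Pn hy
  refine (gm_mono _ (g := fun _ => ((J.card : ℝ) * B ^ 2) ^ 2) fun S => ?_).trans (gm_const _ _).le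
  rw [← sq_abs]
  refine pow_le_pow_left₀ (abs_nonneg _) (abs_sum5 fun j _ => ?_) 2
  rw [abs_mul]
  have h1 : |sr ω.2 j / 3| ≤ 1 := by
    rw [abs_div, abs_sr]
    norm_num
  have h2 : |k2b μ s N (Pn N y) γ B b0 b σ ω j S| ≤ B ^ 2 := abs_k2b hB b0 b σ j _ ω S
  calc _ ≤ 1 * B ^ 2 := mul_le_mul h1 h2 (abs_nonneg _) zero_le_one
    _ = B ^ 2 := one_mul _

/-- **THE MEAN OF THE SECOND MOMENT OF THE DOUBLE TIE.** -/
theorem int_k44 {y : ℕ} (hy1 : 1 ≤ y) (hyN : y < N) {κ δ₁ ε c' γ B γ' ξ ξ₁ : ℝ} {b0 b σ : ℕ} (hκ : (N : ℝ) ^ κ ≤ b0) (hbb : b0 ≤ b)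
    {R : Finset ℕ} (hD : Deep R b σ) {c d : ℕ} (hN : ∀ j ∈ Rw R c d, j + b ≤ N) (hB : 2 ≤ B) (hξ0 : 0 ≤ ξ) (hξB : ξ₁ ≤ B) {m : ℝ}
    (hcn : ∀ ω : Env × Finset ℕ, ∀ j ∈ Rw R c d, ∀ S : Px (Pn N y), Gw44 μ s γ' ξ₁ ω b0 j S → Cn μ s δ₁ (j - b0) (j + b0) S)
    (hWW : ∀ ω : Env × Finset ℕ, ∀ j ∈ Rw R c d, ∀ x z, Wx μ s γ' ξ₁ ω.1 (j - b0) (j + b0 - (j - b0)) (j - (j - b0)) (sg ω.2 j) x z →
      Wx μ s γ ξ₁ ω.1 (j - b0) (j + b0 - (j - b0)) (j - (j - b0)) (sg ω.2 j) x z)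
    (fo : ∀ a : ℤ, (a = 1 ∨ a = -1) → ∀ l : ℕ, 2 * b0 ≤ l → ∀ D : ℤ, Flat μ s γ l a D → 0 ≤ D + a ∧ D + a ≤ l)
    {P E : ℝ} (hP0 : 0 ≤ P) (hP : law μ {η | ¬ GwW μ s N κ γ δ₁ ε c' η} ≤ ENNReal.ofReal P)
    (hE : ∀ j ∈ Rw R c d, ∀ A : Finset ℕ, ∫ η, Er44 μ s N γ B γ' ξ ξ₁ b0 b j y (η, A) ∂(law μ) ≤ E) :
    ∫ ω, gm (wm μ s N (Pn N y) ω) (fun S => (∑ j ∈ Rw R c d, sr ω.2 j / 3 * k2b μ s N (Pn N y) γ B b0 b σ ω j S) ^ 2) ∂(Pm μ N) ≤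
      4 * B ^ 4 * ∫ ω, gm (wm μ s N (Pn N y) ω)
        (fun S => (∑ j ∈ Rw R c d, a5 (Q := Pn N y) (wm μ s N (Pn N y) ω) 0 b0 b σ j m S) ^ 2) ∂(Pm μ N) +
      (4 * ((Rw R c d).card : ℝ) ^ 2 * (12 * B ^ 4 * (((N : ℝ) + 1) ^ 2 * Real.exp (-m)) + 3 * t44 N ε c' B ξ₁ m ^ 2) +
        400 * ((Rw R c d).card : ℝ) * B ^ 4 * (((Rw R c d).card : ℝ) * E) + (((Rw R c d).card : ℝ) * B ^ 2) ^ 2 * P) := by
  have n1 := ne_Pn hyN.le
  have hB0 : 0 ≤ B := by linarith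
  obtain ⟨J, hJ⟩ : ∃ J, J = Rw R c d := ⟨_, rfl⟩
  obtain ⟨T, hT⟩ : ∃ T : Set Env, T = toMeasurable (law μ) {η | ¬ GwW μ s N κ γ δ₁ ε c' η} := ⟨_, rfl⟩
  have mT : MeasurableSet T := by
    rw [hT]
    exact measurableSet_toMeasurable _ _
  obtain ⟨φ, hφ⟩ : ∃ φ : Env → ℝ, φ = Set.indicator T 1 := ⟨_, rfl⟩
  have mφ : Measurable φ := by
    rw [hφ]
    exact measurable_one.indicator mT
  have φ0 : ∀ η, 0 ≤ φ η := fun η => by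
    rw [hφ]
    exact Set.indicator_nonneg (fun _ _ => zero_le_one) η
  have φ1 : ∀ η, φ η ≤ 1 := fun η => by
    rw [hφ]
    exact Set.indicator_le_self' (fun _ _ => zero_le_one) η
  have iφ : Integrable (fun ω : Env × Finset ℕ => φ ω.1) (Pm μ N) := int_bdd (M := 1) (mφ.comp measurable_fst) fun ω => by
    rw [abs_of_nonneg (φ0 _)]
    exact φ1 _
  obtain ⟨F, hF⟩ : ∃ F : Env × Finset ℕ → ℝ, F = fun ω => gm (wm μ s N (Pn N y) ω)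
    (fun S => (∑ j ∈ J, a5 (Q := Pn N y) (wm μ s N (Pn N y) ω) 0 b0 b σ j m S) ^ 2) := ⟨_, rfl⟩
  have iF : Integrable F (Pm μ N) := by
    rw [hF]
    exact int_sq5 (Φ := fun ω S => ∑ j ∈ J, a5 (Q := Pn N y) (wm μ s N (Pn N y) ω) 0 b0 b σ j m S) (M := (J.card : ℝ) * 4)
      (fun S => Finset.measurable_fun_sum _ fun j _ => meas_a5 0 b0 b σ j m S) fun ω S => abs_sum5 fun j _ => abs_a5 _ _ _ _ _ _ _ _
  obtain ⟨G, hG⟩ : ∃ G : ℕ → Env × Finset ℕ → ℝ, G = fun j ω => Er44 μ s N γ B γ' ξ ξ₁ b0 b j y ω := ⟨_, rfl⟩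
  have hG0 : ∀ j ω, 0 ≤ G j ω := fun j ω => by
    rw [hG]
    exact Er_nonneg44 hyN.le _ _ _ _ _ _ _ _ _
  have hGm : ∀ j A, Measurable fun η : Env => G j (η, A) := fun j A => by
    rw [hG]
    exact meas_Er44 hyN.le _ _ _ _ _ _ _ _ A
  have hGb : ∀ j ω, |G j ω| ≤ 8 * Real.exp (2 * ξ + 1) + 2 * B + 5 := fun j ω => by
    rw [abs_of_nonneg (hG0 j ω), hG]
    exact Er_le44 hyN.le γ hB0 _ _ _ _ _ _ _
  have iG : ∀ j, Integrable (G j) (Pm μ N) := fun j => int_bdd (meas_om fun A => hGm j A) (hGb j)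
  have hGE : ∀ j ∈ J, ∫ ω, G j ω ∂(Pm μ N) ≤ E := fun j hj => EvT50.int_Pm_le50 (fun A => hGm j A) (hGb j) fun A => by
    rw [hG]
    exact hE j (hJ ▸ hj) A
  obtain ⟨K0, hK0⟩ : ∃ K0 : ℝ, K0 = 4 * (J.card : ℝ) ^ 2 *
    (12 * B ^ 4 * (((N : ℝ) + 1) ^ 2 * Real.exp (-m)) + 3 * t44 N ε c' B ξ₁ m ^ 2) := ⟨_, rfl⟩
  have hK00 : 0 ≤ K0 := by
    rw [hK0]
    have := t44_nonneg (N := N) (ε := ε) (c' := c') (ξ₁ := ξ₁) hB0 m
    positivity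
  rw [← hJ]
  have hpt : ∀ ω : Env × Finset ℕ, gm (wm μ s N (Pn N y) ω)
      (fun S => (∑ j ∈ J, sr ω.2 j / 3 * k2b μ s N (Pn N y) γ B b0 b σ ω j S) ^ 2) ≤
      4 * B ^ 4 * F ω + (K0 + (400 * (J.card : ℝ) * B ^ 4 * ∑ j ∈ J, G j ω + ((J.card : ℝ) * B ^ 2) ^ 2 * φ ω.1)) := fun ω => by
    have hS0 : 0 ≤ ∑ j ∈ J, G j ω := sum_nonneg fun j _ => hG0 j ω
    have hF0 : 0 ≤ F ω := by
      rw [hF]
      exact gm_nonneg _ fun S => sq_nonneg _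
    by_cases hE' : ω.1 ∈ T
    · have k1 : φ ω.1 = 1 := by
        rw [hφ]
        exact Set.indicator_of_mem hE' _
      have k2 := abs_sk44 (μ := μ) (s := s) (γ := γ) hyN.le hB0 b0 b σ J ω
      rw [k1, mul_one]
      have k3 : 0 ≤ 4 * B ^ 4 * F ω := by positivity
      have k4 : 0 ≤ 400 * (J.card : ℝ) * B ^ 4 * ∑ j ∈ J, G j ω := by positivity
      linarith
    · have k1 : φ ω.1 = 0 := by
        rw [hφ]
        exact Set.indicator_of_notMem hE' _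
      have hGw : GwW μ s N κ γ δ₁ ε c' ω.1 := by
        by_contra hc
        refine hE' ?_
        rw [hT]
        exact subset_toMeasurable _ _ hc
      have k2 := gm_k44 (μ := μ) (s := s) (N := N) (y := y) hy1 hyN hGw hκ hbb hD (c := c) (d := d) hN hB hξ0 hξB (m := m)
        (γ' := γ') (fun j hj S => hcn ω j hj S) (fun j hj x z => hWW ω j hj x z)
        fun j hj l hl D => fo (sg ω.2 j) (sg_or ω.2 j) l hl D
      rw [← hJ] at k2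
      rw [k1, mul_zero, add_zero]
      refine k2.trans (le_of_eq ?_)
      unfold Rh44
      rw [hF, hG, hK0]
      ring
  have iS : Integrable (fun ω => ∑ j ∈ J, G j ω) (Pm μ N) := integrable_finsetSum _ fun j _ => iG j
  have i1 : Integrable (fun ω : Env × Finset ℕ => 400 * (J.card : ℝ) * B ^ 4 * ∑ j ∈ J, G j ω + ((J.card : ℝ) * B ^ 2) ^ 2 * φ ω.1)
    (Pm μ N) := (iS.const_mul _).add (iφ.const_mul _)
  have i2 : Integrable (fun ω : Env × Finset ℕ => K0 + (400 * (J.card : ℝ) * B ^ 4 * ∑ j ∈ J, G j ω +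
    ((J.card : ℝ) * B ^ 2) ^ 2 * φ ω.1)) (Pm μ N) := (integrable_const K0).add i1
  have hI := integral_mono_of_nonneg (μ := Pm μ N) (ae_of_all _ fun ω => gm_nonneg (wm μ s N (Pn N y) ω)
    (f := fun S => (∑ j ∈ J, sr ω.2 j / 3 * k2b μ s N (Pn N y) γ B b0 b σ ω j S) ^ 2) fun S => sq_nonneg _)
    ((iF.const_mul (4 * B ^ 4)).add i2) (ae_of_all _ hpt)
  refine hI.trans ?_
  have e1 := integral_add (iF.const_mul (4 * B ^ 4)) i2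
  have e2 := integral_add (integrable_const K0 : Integrable (fun _ : Env × Finset ℕ => K0) (Pm μ N)) i1
  have e3 := integral_add (iS.const_mul (400 * (J.card : ℝ) * B ^ 4)) (iφ.const_mul (((J.card : ℝ) * B ^ 2) ^ 2))
  have e4 : ∫ ω, (∑ j ∈ J, G j ω) ∂(Pm μ N) = ∑ j ∈ J, ∫ ω, G j ω ∂(Pm μ N) := integral_finsetSum _ fun j _ => iG j
  have e5 : ∫ ω : Env × Finset ℕ, φ ω.1 ∂(Pm μ N) = ∫ η, φ η ∂(law μ) := EvT50.int_fst (Φ := φ) mφ (M := 1) fun η => by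
    rw [abs_of_nonneg (φ0 _)]
    exact φ1 _
  have e6 : ∫ η, φ η ∂(law μ) ≤ P := by
    rw [hφ, integral_indicator_one mT, measureReal_def]
    have k1 : law μ T ≤ ENNReal.ofReal P := by
      rw [hT, measure_toMeasurable]
      exact hP
    exact (ENNReal.toReal_mono ENNReal.ofReal_ne_top k1).trans (ENNReal.toReal_ofReal hP0).le
  simp only [Pi.add_apply] at e1 ⊢
  rw [e1, e2, e3, integral_const, probReal_univ, one_smul, integral_const_mul, integral_const_mul, integral_const_mul, e4, e5]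
  have e7 : ∑ j ∈ J, ∫ ω, G j ω ∂(Pm μ N) ≤ (J.card : ℝ) * E := by
    refine (sum_le_card_nsmul _ _ E fun j hj => hGE j hj).trans ?_
    rw [nsmul_eq_mul]
  have e8 := mul_le_mul_of_nonneg_left e7 (show 0 ≤ 400 * (J.card : ℝ) * B ^ 4 by positivity)
  have e9 := mul_le_mul_of_nonneg_left e6 (show 0 ≤ ((J.card : ℝ) * B ^ 2) ^ 2 by positivity)
  rw [hK0]
  have e10 : ∫ ω, F ω ∂(Pm μ N) = ∫ ω, gm (wm μ s N (Pn N y) ω)
    (fun S => (∑ j ∈ J, a5 (Q := Pn N y) (wm μ s N (Pn N y) ω) 0 b0 b σ j m S) ^ 2) ∂(Pm μ N) := by rw [hF]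
  rw [← e10]
  linarith

end

end Pool.Agent.W_7d29a1_C0.X2b44
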