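import Pool.Agent.W_7d29a1_C0.X2F44
import Pool.Agent.W_7d29a1_C0.SiteS3D

/-!
MP_7d29a1_pr, [CURV0] (helper44), leaf X2N, part 8: `si44`, THE SITE PRICE `SI44` AT THE CONCRETE FRAME, from `prS` of helper3. Hence
**`x2nB44`**: `X2N` at `frm33` from the pair sum `XI44` alone.
-/

set_option autoImplicit false
set_option linter.unusedSectionVars false

namespace Pool.Agent.W_7d29a1_C0.X2b44

open MeasureTheory ProbabilityTheory Filter Topology Finset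
open Pool.Agent.W_7d29a1_F Pool.Agent.W_7d29a1_X Pool.Agent.W_7d29a1_H
open Pool.Agent.W_7d29a1_HS (In wd md)
open Pool.Agent.W_7d29a1_HZ Pool.Agent.W_7d29a1_HZ.R72
open Pool.Agent.W_7d29a1_HZ.Z86
open Pool.Agent.W_7d29a1_C0.Eta3
open Pool.Agent.W_7d29a1_C0.Mod92
open Pool.W7d29a1.C0
open Pool.W7d29a1.C0.VT31 Pool.W7d29a1.C0.S1 Pool.W7d29a1.C0.R43
open Pool.Agent.W_7d29a1_C0 Pool.Agent.W_7d29a1_C0.Base5 Pool.Agent.W_7d29a1_C0.BasRow33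
open Pool.Agent.W_7d29a1_C0.Row96 Pool.Agent.W_7d29a1_C0.Asm96
open Pool.Agent.W_7d29a1_C0.Frm33 Pool.Agent.W_7d29a1_C0.SS3

noncomputable section

variable {μ : Measure ℝ} {s : ℝ} {K : ℕ}

/-- **THE SITE PRICE OF THE DOUBLE TIE AT THE CONCRETE FRAME.** -/
theorem si44 [IsProbabilityMeasure μ] {c₁ C : ℝ} {n₀ : ℕ} (h : In μ s c₁ C n₀) (hk : KapLe96 (EE μ s) (1 / 4)) (hK : 32 ≤ K)
    {δ c ε₁ : ℝ} (hδ : 0 < δ) (hc : 0 < c) (hcδ : 64 * c ≤ δ) (hε₁ : 0 < ε₁) :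
    Par92.Est fun ι β γ m => SI44 μ s (frm33 μ s K ι β γ) (EE μ s) δ c ε₁ (((2 ^ m : ℕ) : ℝ) ^ (2 * β)) m := by
  have hKr : (0 : ℝ) < K := by exact_mod_cast (show 0 < K by omega)
  obtain ⟨δ', κ, c₂, hδ', hκ, hc₂, L₀, hS⟩ := prS h (ε₁ / K) (δ / 4 / K) (by positivity) (by positivity)
  refine ⟨δ / 16, by positivity, fun ι hι hιδ => ⟨K * κ / 2, by positivity, fun β hβ hβκ => Par92.Sml.of fun γ _ => ?_⟩⟩
  have hmι : ∀ᶠ m : ℕ in atTop, 1 ≤ m := eventually_ge_atTop 1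
  have hmδ : ∀ᶠ m : ℕ in atTop, 1 / δ ≤ (m : ℝ) := tendsto_natCast_atTop_atTop.eventually_ge_atTop _
  filter_upwards [ev_L (by omega : 1 ≤ K) L₀, cone33 h hK hδ', deep33_ev h hk hδ hc.le (by linarith) hιδ,
    ev_n (show 0 < 2 * β by positivity) 8, err_ev (K := K) (by omega) hβ hc₂, hmι, hmδ, b0_33 hδ (show ι ≤ δ / 4 by linarith)]
    with m g1 g2 g3 g4 g5 g6 g7 g8
  intro p q k hst hk' y hy
  have hn1 : (1 : ℝ) ≤ ((2 ^ m : ℕ) : ℝ) := n_ge1 m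
  obtain ⟨σ, hσ⟩ : ∃ σ : ℕ, σ = 2 ^ sg96 (EE μ s) c m p := ⟨_, rfl⟩
  have hσ0 : 0 < σ := by
    rw [hσ]
    positivity
  have hDp : Deep (R33 ι m) (4 * 2 ^ p) σ := by
    rw [hσ]
    exact g3 p hst.hp (hst.hsq.trans hst.hqm)
  -- the end
  have hyL : y ≤ L33 K m ∧ |(y : ℝ) - sl μ s * L33 K m| ≤ (L33 K m : ℝ) ^ δ' * wd' μ s (L33 K m) := by
    have h1 := mem_Ico.1 (show y ∈ Ico (y33 μ s K m) (y33 μ s K m + M33 m) from hy)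
    exact g2.2.2 y (by omega) (by omega)
  have hp0 : 1 ≤ p := by
    have h1 : (1 : ℝ) ≤ p := by
      have h2 : 1 ≤ δ * m := by
        rw [div_le_iff₀ hδ] at g7
        linarith
      exact h2.trans hst.hp
    exact_mod_cast h1
  have hb0 : 2 * 2 ^ (p - ⌈ι * (m : ℝ)⌉₊) ≤ 2 ^ p := by
    have h1 : 1 ≤ ⌈ι * (m : ℝ)⌉₊ := Nat.one_le_ceil_iff.2 (by
      have : (1 : ℝ) ≤ m := by exact_mod_cast g6
      positivity)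
    calc 2 * 2 ^ (p - ⌈ι * (m : ℝ)⌉₊) ≤ 2 * 2 ^ (p - 1) := Nat.mul_le_mul_left _ (Nat.pow_le_pow_right two_pos (by omega))
      _ = 2 ^ (p - 1 + 1) := by
          rw [pow_succ]
          ring
      _ = 2 ^ p := by rw [Nat.sub_add_cancel hp0]
  have hbL : (L33 K m : ℝ) ^ (δ / 4 / K) ≤ ((2 ^ (p - ⌈ι * (m : ℝ)⌉₊) : ℕ) : ℝ) := by
    rw [L33_pow, mul_div_cancel₀ _ hKr.ne']
    exact g8 p hst.hp
  have hrow : ∀ j ∈ Rw (R33 ι m) (k * σ) ((k + 1) * σ), j / σ = k ∧ k * σ + 4 * 2 ^ p ≤ j ∧ j + 4 * 2 ^ p ≤ (k + 1) * σ := fun j hj => by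
    have h1 := hDp.in_block hσ0 (Dvd.intro_left k rfl) (Dvd.intro_left (k + 1) rfl) hj
    unfold Rw at hj
    rw [mem_inter, mem_Ico] at hj
    exact ⟨Nat.div_eq_of_lt_le (by linarith [hj.2.1]) hj.2.2, h1.1, h1.2⟩
  have hmL : 2 ^ m ≤ L33 K m := L33_ge (by omega) m
  rw [← hσ] at hk'
  obtain ⟨β0, hβ0⟩ : ∃ β0 : ℕ, β0 = 2 ^ (p - ⌈ι * (m : ℝ)⌉₊) := ⟨_, rfl⟩
  rw [← hβ0] at hb0 hbL
  have h1 := hS (L33 K m) g1 (L33 K m) (by omega) le_rfl y hyL.1 hyL.2 (k * σ) ((k + 1) * σ) 0 β0 (2 ^ p)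
    (by omega) hb0 hbL (Nat.mul_le_mul_right _ (by omega)) (hk'.trans hmL) (Rw (R33 ι m) (k * σ) ((k + 1) * σ)) (fun j hj => (hrow j hj).2)
    (((2 ^ m : ℕ) : ℝ) ^ (2 * β)) g4 (by
      rw [L33_pow]
      exact Real.rpow_le_rpow_of_exponent_le hn1 (by linarith))
  have hne : Nonempty (Px (Pn (L33 K m) y)) := ne_Pn hyL.1
  have h2 : PrJ μ s (L33 K m) (Ioo (k * σ) ((k + 1) * σ)) (fun (ω : Env × Finset ℕ) (x : Px (Pn (L33 K m) y)) =>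
      A5 0 β0 (2 ^ p) σ (R33 ι m) k (((2 ^ m : ℕ) : ℝ) ^ (2 * β)) (wm μ s (L33 K m) (Pn (L33 K m) y) ω) x)
      ((L33 K m : ℝ) ^ (ε₁ / K) * (((k + 1) * σ - k * σ : ℕ) * (EE' μ s β0)⁻¹ * (EE' μ s (2 ^ p))⁻¹))
      (4 * (Real.exp (-(L33 K m : ℝ) ^ c₂) + L33 K m * (L33 K m + 2) * Real.exp (-((2 ^ m : ℕ) : ℝ) ^ (2 * β)))) := by
    refine Eq.mp ?_ h1
    congr 1
    funext ω x
    unfold A5
    refine sum_congr rfl fun j hj => ?_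
    have e1 := (hrow j hj).1
    have e2 : (pB σ j : Px (Pn (L33 K m) y) → Finset ℕ × ℕ) = pJ (k * σ) ((k + 1) * σ) := by
      unfold pB
      rw [e1, add_mul, one_mul]
    unfold a5
    rw [e2]
  have hE1 : ∀ t, 0 < EE μ s t := fun t => EE_pos t
  have hE' : ∀ t, (EE' μ s t)⁻¹ ≤ (EE μ s t)⁻¹ := fun t => inv_anti₀ (hE1 t) (le_max_right _ _)
  have h3 := PrJ.mono (P' := ((2 ^ m : ℕ) : ℝ) ^ ε₁ * (2 ^ sg96 (EE μ s) c m p / (EE μ s β0 * EE μ s (2 ^ p))))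
    (e' := ((2 ^ m : ℕ) : ℝ) ^ (-8 : ℝ)) h2 (by
      have e1 : (L33 K m : ℝ) ^ (ε₁ / K) = ((2 ^ m : ℕ) : ℝ) ^ ε₁ := by
        rw [L33_pow, mul_div_cancel₀ _ hKr.ne']
      have e2 : (k + 1) * σ - k * σ = σ := by
        rw [add_mul, one_mul, Nat.add_sub_cancel_left]
      have e3 : ((σ : ℕ) : ℝ) = 2 ^ sg96 (EE μ s) c m p := by
        rw [hσ]
        push_cast
        rfl
      rw [e1, e2, e3, div_eq_mul_inv, mul_inv, mul_assoc (2 ^ sg96 (EE μ s) c m p : ℝ)]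
      have a1 := hE' β0
      have a2 := hE' (2 ^ p)
      have a3 : 0 < EE' μ s (2 ^ p) := lt_of_lt_of_le zero_lt_one (le_max_left _ _)
      have a4 := (inv_pos.2 (hE1 β0)).le
      have a5 := (inv_pos.2 a3).le
      gcongr) g5
  rw [hσ, hβ0] at h3
  exact h3

/-- **THE SECOND MOMENT OF THE DOUBLE TIE AT THE CONCRETE FRAME FROM THE PAIR SUM ALONE.** -/
theorem x2nB44 [IsProbabilityMeasure μ] {c₁ C : ℝ} {n₀ : ℕ} (h : In μ s c₁ C n₀) (hk : KapLe96 (EE μ s) (1 / 4)) (hK : 32 ≤ K)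
    {Θ δ c c₀ ε₁ : ℝ} (hR : RegP46 μ s c₀ Θ) (hΘ : 0 < Θ) (hΘ1 : Θ ≤ 1) (hδ : 0 < δ) (hc : 0 < c)
    (hcδ : 64 * c ≤ δ) (hcΘ : 16 * c ≤ Θ) (hε₁ : 0 < ε₁) (hε₁' : ε₁ ≤ 1) (hε₁c : ε₁ ≤ c / 16)
    (hX : Par92.Est fun ι β γ m => XI44 μ s (frm33 μ s K ι β γ) (EE μ s) δ c ε₁ (((2 ^ m : ℕ) : ℝ) ^ (2 * β)) m) :
    Par92.Est fun ι β γ m => EstD44.X2N μ s (frm33 μ s K ι β γ) (EE μ s) Θ δ c (c / 2) m :=
  x2n44 h hk hK hR hΘ hΘ1 hδ hc hcδ hcΘ hε₁.le hε₁' hε₁c hX (si44 h hk hK hδ hc hcδ hε₁)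

end

end Pool.Agent.W_7d29a1_C0.X2b44
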