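import Pool.Agent.W_7d29a1_C0.X2A44

/-!
MP_7d29a1_pr, [CURV0] (helper44), leaf X2N, part 2 (pathwise): THE MASS OF THE BAD FINE WINDOWS AT THE OTHER CORNER, GIVEN THE BASE WINDOW.
`w` = the actual pinned measure, `h = - 2 a g0` its tilt to the other corner, `w'` = the pinned measure of the flipped environment.
`tilt44`: the mean under `w` of the conditional mass (given the outside of the base window, at the other corner) of the bad fine windows is
at most the masses of the bad windows under `w` and `w'`, and the mean of the clip error of the base window.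
-/

set_option autoImplicit false
set_option linter.unusedSectionVars false
set_option linter.unusedVariables false

namespace Pool.Agent.W_7d29a1_C0.X2b44

open Finset MeasureTheory Pool.Agent.W_7d29a1_F Pool.Agent.W_7d29a1_X
open Pool.Agent.W_7d29a1_H (sl)
open Pool.Agent.W_7d29a1_Z74 (ZJ)
open Pool.Agent.W_7d29a1_HZ.Z74 (shj)
open Pool.Agent.W_7d29a1_C0.Mod92 Pool.Agent.W_7d29a1_C0.Flip61 Pool.Agent.W_7d29a1_C0.Pin18
open Pool.Agent.W_7d29a1_C0.Cl46
open Pool.W7d29a1.C0 (gz gm gz_pos gz_ne gm_mono gm_nonneg gm_add gm_smul gm_const gb81)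
open Pool.W7d29a1.C0.VT31

noncomputable section

variable {μ : Measure ℝ} {s : ℝ}

/-! ### The transport of the good and of the bad windows -/

section flip

variable {N c l k y y' : ℕ} {a : ℤ} {γ ξ : ℝ}

theorem flip_bad44 (η : Env) (hk : k ≤ l) (hN : c + l ≤ N) (hv : (y' : ℤ) + -a = y) (hy : y ≤ N) (hy' : y' ≤ N)
    {w : Px (Pn N y) → ℝ} (hw : w = lw μ s η N (Pn N y)) {η' : Env} (hη' : η' = shj ((c + k : ℕ) : ℤ) (-a) η) :
    gm w (fun S => Rp μ s η c l k (-a) S.1 *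
        id46 (fun S : Px (Pn N y) => ¬ Wx μ s γ ξ η c l k a (pos S.1 c) (pos S.1 (c + l))) S) ≤
      gz (lw μ s η' N (Pn N y')) / gz w * bw μ s N γ ξ c l k (-a) y' η' := by
  have n1 := ne_Pn hy
  have n2 := ne_Pn hy'
  have h := flip_gm46 (μ := μ) (s := s) η hk hN hv hy hy' (fun x z => id46 (fun u : ℤ × ℤ => ¬ Wx μ s γ ξ η c l k a u.1 u.2) (x, z))
  rw [← hη', ← hw] at h
  have h1 : gm w (fun S => Rp μ s η c l k (-a) S.1 *
      id46 (fun S : Px (Pn N y) => ¬ Wx μ s γ ξ η c l k a (pos S.1 c) (pos S.1 (c + l))) S) =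
      gm w (fun S => Rp μ s η c l k (-a) S.1 * id46 (fun u : ℤ × ℤ => ¬ Wx μ s γ ξ η c l k a u.1 u.2)
        (pos S.1 c, pos S.1 (c + l))) := rfl
  rw [h1, h]
  refine mul_le_mul_of_nonneg_left ?_ (div_nonneg (gz_pos _).le (gz_pos _).le)
  unfold bw
  refine gm_mono _ fun S => ?_
  have h2 : id46 (fun u : ℤ × ℤ => ¬ Wx μ s γ ξ η c l k a u.1 u.2) (pos S.1 c, pos S.1 (c + l) + -a) ≤
      id46 (fun S : Px (Pn N y') => ¬ Wx μ s γ ξ η' c l k (-a) (pos S.1 c) (pos S.1 (c + l))) S := by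
    have h3 := wx_flip (μ := μ) (s := s) (γ := γ) (ξ := ξ) η (c := c) hk a (pos S.1 c) (pos S.1 (c + l))
    rw [← hη'] at h3
    unfold id46
    by_cases h4 : Wx μ s γ ξ η' c l k (-a) (pos S.1 c) (pos S.1 (c + l))
    · rw [if_neg (not_not.2 h4), if_neg (not_not.2 (h3.1 h4))]
    · rw [if_pos h4]
      split_ifs <;> norm_num
  have h5 : (if Ok c l (-a) S.1 then (1 : ℝ) else 0) ≤ 1 := by split_ifs <;> norm_num
  have h7 := id_nonneg46 (fun u : ℤ × ℤ => ¬ Wx μ s γ ξ η c l k a u.1 u.2) (pos S.1 c, pos S.1 (c + l) + -a)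
  calc (if Ok c l (-a) S.1 then (1 : ℝ) else 0) * id46 (fun u : ℤ × ℤ => ¬ Wx μ s γ ξ η c l k a u.1 u.2)
        (pos S.1 c, pos S.1 (c + l) + -a) ≤ 1 * id46 (fun u : ℤ × ℤ => ¬ Wx μ s γ ξ η c l k a u.1 u.2)
        (pos S.1 c, pos S.1 (c + l) + -a) := mul_le_mul_of_nonneg_right h5 h7
    _ ≤ _ := by
      rw [one_mul]
      exact h2

theorem flip_good44 (η : Env) (hk : k ≤ l) (hN : c + l ≤ N) (hv : (y' : ℤ) + -a = y) (hy : y ≤ N) (hy' : y' ≤ N)
    {w : Px (Pn N y) → ℝ} (hw : w = lw μ s η N (Pn N y)) {η' : Env} (hη' : η' = shj ((c + k : ℕ) : ℤ) (-a) η) :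
    gz (lw μ s η' N (Pn N y')) / gz w * (1 - (bw μ s N γ ξ c l k (-a) y' η' + nok μ s N c l (-a) y' η')) ≤
      gm w (fun S => Rp μ s η c l k (-a) S.1 *
        id46 (fun S : Px (Pn N y) => Wx μ s γ ξ η c l k a (pos S.1 c) (pos S.1 (c + l))) S) := by
  have n1 := ne_Pn hy
  have n2 := ne_Pn hy'
  have hb := flip_bad44 (μ := μ) (s := s) (γ := γ) (ξ := ξ) η hk hN hv hy hy' hw hη'
  have h := flip_gm46 (μ := μ) (s := s) η hk hN hv hy hy' (fun _ _ => 1)
  rw [← hη', ← hw] at h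
  simp only [mul_one] at h
  obtain ⟨q, hq⟩ : ∃ q, q = gz (lw μ s η' N (Pn N y')) / gz w := ⟨_, rfl⟩
  rw [← hq] at h hb ⊢
  have hO : gm (lw μ s η' N (Pn N y')) (fun S => if Ok c l (-a) S.1 then (1 : ℝ) else 0) = 1 - nok μ s N c l (-a) y' η' := by
    have h1 := gm_add (lw μ s η' N (Pn N y')) (fun S => if Ok c l (-a) S.1 then (1 : ℝ) else 0)
      (fun S => if Ok c l (-a) S.1 then 0 else 1)
    have h2 : ((fun S : Px (Pn N y') => if Ok c l (-a) S.1 then (1 : ℝ) else 0) +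
        fun S : Px (Pn N y') => if Ok c l (-a) S.1 then (0 : ℝ) else 1) = fun _ => 1 := by
      funext S
      simp only [Pi.add_apply]
      split_ifs <;> norm_num
    rw [h2, gm_const] at h1
    have h3 : nok μ s N c l (-a) y' η' = gm (lw μ s η' N (Pn N y')) (fun S => if Ok c l (-a) S.1 then (0 : ℝ) else 1) := rfl
    rw [h3]
    linarith
  rw [hO] at h
  have e : gm w (fun S => Rp μ s η c l k (-a) S.1) =
      gm w (fun S => Rp μ s η c l k (-a) S.1 *
        id46 (fun S : Px (Pn N y) => Wx μ s γ ξ η c l k a (pos S.1 c) (pos S.1 (c + l))) S) +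
      gm w (fun S => Rp μ s η c l k (-a) S.1 *
        id46 (fun S : Px (Pn N y) => ¬ Wx μ s γ ξ η c l k a (pos S.1 c) (pos S.1 (c + l))) S) := by
    rw [← gm_add']
    congr 1
    funext S
    rw [← mul_add, id_add44, mul_one]
  rw [e] at h
  linarith

end flip

/-! ### The mass of the bad fine windows at the other corner -/

theorem abs_cl44 {B : ℝ} (hB : 0 ≤ B) (u : ℝ) : |cl B u| ≤ |u| := by
  unfold cl
  rcases le_total 0 u with h | h
  · rw [abs_of_nonneg h, abs_of_nonneg (le_max_of_le_right (le_min hB h))]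
    exact max_le (by linarith) (min_le_right _ _)
  · rw [abs_of_nonpos h, abs_of_nonpos (max_le (by linarith) ((min_le_right _ _).trans h))]
    have h1 : min B u = u := min_eq_right (h.trans hB)
    rw [h1]
    linarith [le_max_right (-B) u]

theorem abs_gw44 (η : Env) {γ B : ℝ} (hB : 0 ≤ B) {a : ℤ} (ha : |(a : ℝ)| ≤ 1) (c l k : ℕ) (x z : ℤ) {ξ : ℝ}
    (h : Wx μ s γ ξ η c l k a x z) : |gw μ s η γ B a c l k x z| ≤ ξ / 2 := by
  unfold gw
  rw [if_pos h.1, abs_mul, abs_neg, abs_div, abs_two]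
  have h1 := (abs_cl44 hB (lk μ s η c l k (-a) x z)).trans h.2
  have h2 := abs_nonneg (cl B (lk μ s η c l k (-a) x z))
  have h3 := abs_nonneg (a : ℝ)
  nlinarith

section corner

variable [IsProbabilityMeasure μ] {N y y' c l k c0 l0 k0 : ℕ} {a : ℤ} {γ γ' B ξ ξ₁ : ℝ} {g0 g1 : Px (Pn N y) → ℝ}

/-- **THE MASS OF THE BAD FINE WINDOWS AT THE OTHER CORNER**, given the outside of the base window, in the mean under the actual measure. -/
theorem tilt44 (η : Env) (hk : k ≤ l) (hk0 : k0 ≤ l0) (hc : c ≤ c0) (hd : c0 + l0 ≤ c + l) (hj : c0 + k0 = c + k) (hN : c + l ≤ N)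
    (ha : a = 1 ∨ a = -1) (hv : (y' : ℤ) = y + a) (hy : y ≤ N) (hy' : y' ≤ N) (hB : 0 ≤ B) (hξ0 : 0 ≤ ξ)
    (hWW : ∀ x z, Wx μ s γ' ξ₁ η c0 l0 k0 a x z → Wx μ s γ B η c0 l0 k0 a x z)
    (fo : ∀ D : ℤ, Flat μ s γ l a D → 0 ≤ D + a ∧ D + a ≤ l) (fo0 : ∀ D : ℤ, Flat μ s γ l0 a D → 0 ≤ D + a ∧ D + a ≤ l0)
    (hg0 : ∀ S, g0 S = gw μ s η γ B a c0 l0 k0 (pos S.1 c0) (pos S.1 (c0 + l0)))
    (hg1 : ∀ S, g1 S = gw μ s η γ B a c l k (pos S.1 c) (pos S.1 (c + l))) {w : Px (Pn N y) → ℝ} (hw : w = lw μ s η N (Pn N y))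
    {η' : Env} (hη' : η' = shj ((c + k : ℕ) : ℤ) (-a) η) :
    gm w (fun S => cE w (pJ c (c + l)) (fun z => Real.exp (-2 * (a : ℝ) * g0 z) *
        id46 (fun S : Px (Pn N y) => ¬ Wx μ s γ' ξ₁ η c0 l0 k0 a (pos S.1 c0) (pos S.1 (c0 + l0))) z) S /
        cE w (pJ c (c + l)) (fun z => Real.exp (-2 * (a : ℝ) * g0 z)) S) ≤
      Real.exp (ξ + 1) * (4 * Real.exp ξ * bw μ s N γ' ξ₁ c0 l0 k0 (-a) y' η' + bw μ s N γ' ξ₁ c0 l0 k0 a y η) +
        2 * gm w (fun S => |g1 S - gb81 (w - (a : ℝ) • g0) g0 (pJ c (c + l)) S|) + bw μ s N γ ξ c l k a y η +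
        2 * (bw μ s N γ ξ c l k (-a) y' η' + nok μ s N c l (-a) y' η') := by
  classical
  have n1 := ne_Pn hy
  have n2 := ne_Pn hy'
  have haR : (a : ℝ) = 1 ∨ (a : ℝ) = -1 := by
    rcases ha with h | h <;> rw [h] <;> norm_num
  have ha1 : |(a : ℝ)| ≤ 1 := by
    rcases haR with h | h <;> rw [h] <;> norm_num
  have hv' : (y' : ℤ) + -a = y := by omega
  obtain ⟨p, hp⟩ : ∃ p : Px (Pn N y) → Finset ℕ × ℕ, p = pJ c (c + l) := ⟨_, rfl⟩
  obtain ⟨h, hh⟩ : ∃ h : Px (Pn N y) → ℝ, h = fun z => Real.exp (-2 * (a : ℝ) * g0 z) := ⟨_, rfl⟩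
  obtain ⟨ib, hib⟩ : ∃ ib : Px (Pn N y) → ℝ, ib = id46 (fun S : Px (Pn N y) =>
    ¬ Wx μ s γ' ξ₁ η c0 l0 k0 a (pos S.1 c0) (pos S.1 (c0 + l0))) := ⟨_, rfl⟩
  obtain ⟨nb, hnb⟩ : ∃ nb : Px (Pn N y) → ℝ, nb = id46 (fun S : Px (Pn N y) =>
    ¬ Wx μ s γ ξ η c l k a (pos S.1 c) (pos S.1 (c + l))) := ⟨_, rfl⟩
  obtain ⟨E, hE⟩ : ∃ E : Px (Pn N y) → ℝ, E = fun S => |g1 S - gb81 (w - (a : ℝ) • g0) g0 p S| := ⟨_, rfl⟩
  have h0 : ∀ z, 0 < h z := fun z => by
    rw [hh]
    exact Real.exp_pos _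
  have ib0 : ∀ z, 0 ≤ ib z := fun z => by
    rw [hib]
    exact id_nonneg46 _ _
  have ib1 : ∀ z, ib z ≤ 1 := fun z => by
    rw [hib]
    exact id_le46 _ _
  have nb0 : ∀ z, 0 ≤ nb z := fun z => by
    rw [hnb]
    exact id_nonneg46 _ _
  have E0 : ∀ z, 0 ≤ E z := fun z => by
    rw [hE]
    exact abs_nonneg _
  obtain ⟨Zb, hZb⟩ : ∃ Zb : Px (Pn N y) → ℝ, Zb = cE w p (fun z => h z * ib z) := ⟨_, rfl⟩
  obtain ⟨Z, hZ⟩ : ∃ Z : Px (Pn N y) → ℝ, Z = cE w p h := ⟨_, rfl⟩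
  have Zb0 : ∀ S, 0 ≤ Zb S := fun S => by
    rw [hZb]
    exact cE_nonneg w p (fun z => mul_nonneg (h0 z).le (ib0 z)) S
  have Z0 : ∀ S, 0 < Z S := fun S => by
    rw [hZ, hh]
    exact cE_exp_pos w (fun z => -2 * (a : ℝ) * g0 z) p S
  have hZZ : ∀ S, Zb S ≤ Z S := fun S => by
    rw [hZb, hZ]
    exact cE_mono w p (fun z => mul_le_of_le_one_right (h0 z).le (ib1 z)) S
  have goal : gm w (fun S => Zb S / Z S) ≤
      Real.exp (ξ + 1) * (4 * Real.exp ξ * bw μ s N γ' ξ₁ c0 l0 k0 (-a) y' η' + bw μ s N γ' ξ₁ c0 l0 k0 a y η) +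
        2 * gm w E + bw μ s N γ ξ c l k a y η + 2 * (bw μ s N γ ξ c l k (-a) y' η' + nok μ s N c l (-a) y' η') := by
    have b1 := bw_nonneg46 (μ := μ) (s := s) (N := N) η γ' ξ₁ c0 l0 k0 a y
    have b2 := bw_nonneg46 (μ := μ) (s := s) (N := N) η' γ' ξ₁ c0 l0 k0 (-a) y'
    have b3 := bw_nonneg46 (μ := μ) (s := s) (N := N) η γ ξ c l k a y
    have b4 := bw_nonneg46 (μ := μ) (s := s) (N := N) η' γ ξ c l k (-a) y'
    have b5 := nok_nonneg (μ := μ) (s := s) (N := N) c l (-a) y' η'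
    have b6 : 0 ≤ gm w E := gm_nonneg w E0
    have x0 := Real.exp_pos ξ
    have x1 := Real.exp_pos (ξ + 1)
    obtain ⟨t, ht⟩ : ∃ t, t = bw μ s N γ ξ c l k (-a) y' η' + nok μ s N c l (-a) y' η' := ⟨_, rfl⟩
    obtain ⟨u1, hu1⟩ : ∃ u1, u1 = bw μ s N γ' ξ₁ c0 l0 k0 a y η := ⟨_, rfl⟩
    obtain ⟨u2, hu2⟩ : ∃ u2, u2 = bw μ s N γ' ξ₁ c0 l0 k0 (-a) y' η' := ⟨_, rfl⟩
    obtain ⟨u3, hu3⟩ : ∃ u3, u3 = bw μ s N γ ξ c l k a y η := ⟨_, rfl⟩
    rw [← hu1] at b1
    rw [← hu2] at b2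
    rw [← hu3] at b3
    rw [← ht, ← hu1, ← hu2, ← hu3]
    have t0 : 0 ≤ t := by
      rw [ht]
      linarith
    have hY : 0 ≤ Real.exp (ξ + 1) * (4 * Real.exp ξ * u2 + u1) := by positivity
    by_cases hcase : 1 / 2 < t
    · have h1 : gm w (fun S => Zb S / Z S) ≤ 1 := by
        have h2 := gm_mono w (f := fun S => Zb S / Z S) (g := fun _ => 1) fun S => by
          rw [div_le_one (Z0 S)]
          exact hZZ S
        rwa [gm_const] at h2
      linarith
    push Not at hcase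
    -- the ratio of the partition functions
    obtain ⟨q, hq⟩ : ∃ q, q = gz (lw μ s η' N (Pn N y')) / gz w := ⟨_, rfl⟩
    have hq0 : 0 < q := by
      rw [hq]
      exact div_pos (gz_pos _) (gz_pos _)
    have hq2 : q ≤ 2 * Real.exp ξ := by
      have h1 := flip_good44 (μ := μ) (s := s) (γ := γ) (ξ := ξ) η hk hN hv' hy hy' hw hη'
      rw [← ht, ← hq] at h1
      have h2 : gm w (fun S => Rp μ s η c l k (-a) S.1 *
          id46 (fun S : Px (Pn N y) => Wx μ s γ ξ η c l k a (pos S.1 c) (pos S.1 (c + l))) S) ≤ Real.exp ξ := by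
        have h3 := gm_mono w (f := fun S => Rp μ s η c l k (-a) S.1 *
          id46 (fun S : Px (Pn N y) => Wx μ s γ ξ η c l k a (pos S.1 c) (pos S.1 (c + l))) S) (g := fun _ => Real.exp ξ) fun S => by
            unfold id46
            split_ifs with h4
            · rw [mul_one]
              have h5 := fo _ h4.1
              rw [rp_exp46 (μ := μ) (s := s) η (c := c) hk (v := -a) (S := S.1) (by omega) (by omega)]
              exact Real.exp_le_exp.2 ((le_abs_self _).trans h4.2)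
            · rw [mul_zero]
              exact x0.le
        rwa [gm_const] at h3
      nlinarith
    -- the mean of the numerator
    have hnum : gm w Zb ≤ 4 * Real.exp ξ * u2 + u1 := by
      have h1 : gm w Zb = gm w (fun z => h z * ib z) := by
        rw [hZb]
        exact gm_cE w p _
      have h2 : gm w (fun z => h z * ib z) ≤ gm w (fun S => 2 * (Rp μ s η c0 l0 k0 (-a) S.1 * ib S) + ib S) := by
        refine gm_mono w fun S => ?_
        have h3 := clip_le46 (μ := μ) (s := s) (N := N) (y := y) η hk0 ha hB fo0 hg0 S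
        have h4 := (abs_le.1 h3).2
        have h5 := id_le46 (fun S : Px (Pn N y) => ¬ Wx μ s γ B η c0 l0 k0 a (pos S.1 c0) (pos S.1 (c0 + l0))) S
        have h6 := Rp_nonneg (μ := μ) (s := s) η c0 l0 k0 (-a) S.1
        have h7 : h S ≤ 2 * Rp μ s η c0 l0 k0 (-a) S.1 + 1 := by
          rw [hh]
          beta_reduce
          nlinarith
        have h8 := mul_le_mul_of_nonneg_right h7 (ib0 S)
        linarith
      rw [gm_add', gm_mul'] at h2
      have h3 := flip_bad44 (μ := μ) (s := s) (γ := γ') (ξ := ξ₁) η hk0 (hd.trans hN) hv' hy hy' hw (η' := η') (by rw [hη', hj])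
      rw [← hq, ← hu2, ← hib] at h3
      have h4 : gm w ib = u1 := by
        rw [hib, hu1, hw]
        rfl
      rw [h4] at h2
      have h5 : q * u2 ≤ 2 * Real.exp ξ * u2 := mul_le_mul_of_nonneg_right hq2 b2
      rw [h1]
      linarith
    -- pointwise
    have hpt : gm w (fun S => Zb S / Z S) ≤ gm w (fun S => (Real.exp (ξ + 1) * Zb S + 2 * E S) + nb S) := by
      refine gm_mono w fun S => ?_
      by_cases h1 : Real.exp (-(ξ + 1)) ≤ Z S
      · have h2 : Zb S / Z S ≤ Real.exp (ξ + 1) * Zb S := by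
          rw [div_le_iff₀ (Z0 S)]
          have h3 := mul_le_mul_of_nonneg_left h1 x1.le
          rw [← Real.exp_add, add_neg_cancel, Real.exp_zero] at h3
          have h4 := mul_le_mul_of_nonneg_right h3 (Zb0 S)
          nlinarith
        have h3 := E0 S
        have h4 := nb0 S
        linarith
      · push Not at h1
        have h2 : Zb S / Z S ≤ 1 := by
          rw [div_le_one (Z0 S)]
          exact hZZ S
        have h3 := mul_nonneg x1.le (Zb0 S)
        have h4 : Real.log (Z S) < -(ξ + 1) := by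
          have := Real.log_lt_log (Z0 S) h1
          rwa [Real.log_exp] at this
        have h5 : |gb81 (w - (a : ℝ) • g0) g0 p S| = |Real.log (Z S)| / 2 := by
          rw [gb_log46 w g0 p haR S, hZ, hh, abs_mul, abs_neg, abs_div, abs_two]
          have h6 : |(a : ℝ)| = 1 := by
            rcases haR with h | h <;> rw [h] <;> norm_num
          rw [h6]
          ring
        have h6 : (ξ + 1) / 2 < |gb81 (w - (a : ℝ) • g0) g0 p S| := by
          rw [h5, abs_of_neg (by linarith)]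
          linarith
        by_cases h7 : Wx μ s γ ξ η c l k a (pos S.1 c) (pos S.1 (c + l))
        · have h8 : |g1 S| ≤ ξ / 2 := by
            rw [hg1]
            exact abs_gw44 η hB ha1 c l k _ _ h7
          have h9 : 1 / 2 ≤ E S := by
            rw [hE]
            beta_reduce
            have h10 := abs_sub_abs_le_abs_sub (gb81 (w - (a : ℝ) • g0) g0 p S) (g1 S)
            rw [abs_sub_comm] at h10
            linarith
          have h10 := nb0 S
          linarith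
        · have h8 : nb S = 1 := by
            rw [hnb]
            unfold id46
            exact if_pos h7
          have h9 := E0 S
          rw [h8]
          linarith
    have hnbm : gm w nb = u3 := by
      rw [hnb, hu3, hw]
      rfl
    rw [gm_add', gm_add', gm_mul', gm_mul', hnbm] at hpt
    have h9 := mul_le_mul_of_nonneg_left hnum x1.le
    linarith
  rw [hZb, hZ, hE] at goal
  rw [hh, hib, hp] at goal
  exact goal

end corner

end

end Pool.Agent.W_7d29a1_C0.X2b44
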