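import Pool.Agent.W_7d29a1_C0.Led4B

/-!
MP_7d29a1_pr, [CURV0] (helper44): THE NUMBERS OF THE PAIR SUMS. `far_sum44`: over the regime, the sum over the far pairs of rows of one block of
length `σ` of `1 / E |j - k|` is at most `N ^ (2 ε) σ (σ / E σ)`.
-/

set_option autoImplicit false

namespace Pool.Agent.W_7d29a1_C0

open Finset

noncomputable section

variable {E w : ℕ → ℝ} {c₀ Θ δ a ε N : ℝ}

/-- **The far pairs of one block.** -/
theorem Reg46.far_sum44 (R : Reg46 E w c₀ Θ δ a ε N) {l σ C : ℕ} (hl : 1 ≤ l) (hσ : 1 ≤ σ) {S : Finset ℕ}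
    (hS : ∀ k ∈ S, C ≤ k ∧ k < C + σ) :
    ∑ j ∈ S, ∑ k ∈ S, (if l ≤ Nat.dist j k then (E (Nat.dist j k))⁻¹ else 0) ≤ N ^ (2 * ε) * (σ * (σ / E σ)) := by
  refine (R.dsum (A := 0) (G := 0) (H := 1) (D := 0) le_rfl le_rfl zero_le_one le_rfl (l := l) (s₁ := 1) (s₂ := 1) (L := σ) le_rfl
    le_rfl hσ hS (P := fun j k => if l ≤ Nat.dist j k then (E (Nat.dist j k))⁻¹ else 0) fun j _ k _ => ?_).trans (le_of_eq ?_)
  · unfold GS4.Phi
    have h0 : 0 ≤ 1 / E (max (Nat.dist j k) 1) := (div_pos one_pos (R.Epos _)).le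
    by_cases h : l ≤ Nat.dist j k
    · rw [if_pos h]
      have e : max (Nat.dist j k) 1 = Nat.dist j k := max_eq_left (hl.trans h)
      rw [e] at h0 ⊢
      rw [one_div] at h0 ⊢
      split_ifs <;> linarith [(div_nonneg (le_refl (0 : ℝ)) (R.Epos (Nat.dist j k)).le)]
    · rw [if_neg h]
      have h1 : (0 : ℝ) ≤ 0 / E (max (Nat.dist j k) 1) := by rw [zero_div]
      split_ifs <;> linarith
  · ring

/-- The ordered form. -/
theorem Reg46.far_lt44 (R : Reg46 E w c₀ Θ δ a ε N) {l σ C : ℕ} (hl : 1 ≤ l) (hσ : 1 ≤ σ) {S : Finset ℕ}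
    (hS : ∀ k ∈ S, C ≤ k ∧ k < C + σ) :
    ∑ j ∈ S, ∑ k ∈ S with j + l ≤ k, (E (k - j))⁻¹ ≤ N ^ (2 * ε) * (σ * (σ / E σ)) := by
  refine (sum_le_sum fun j _ => ?_).trans (R.far_sum44 hl hσ hS)
  rw [sum_filter]
  refine sum_le_sum fun k _ => ?_
  by_cases h : j + l ≤ k
  · rw [if_pos h, Nat.dist_eq_sub_of_le (by omega : j ≤ k), if_pos (by omega : l ≤ k - j)]
  · rw [if_neg h]
    split_ifs
    · exact (inv_pos.2 (R.Epos _)).le
    · exact le_rfl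

end

end Pool.Agent.W_7d29a1_C0
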