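import Pool.Agent.W_7d29a1_C0.X2S44
import Pool.Agent.W_7d29a1_C0.XiN44

/-!
MP_7d29a1_pr, [CURV0] (helper44), leaf X2N, part 9: THE PAIR SUM `XI44` AT THE CONCRETE FRAME from the model form of the pair sum (`PM44`).
-/

set_option autoImplicit false
set_option linter.unusedSectionVars false

namespace Pool.Agent.W_7d29a1_C0.X2b44

open MeasureTheory ProbabilityTheory Filter Topology Finset
open Pool.Agent.W_7d29a1_F Pool.Agent.W_7d29a1_X Pool.Agent.W_7d29a1_H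
open Pool.Agent.W_7d29a1_HS (In wd md)
open Pool.Agent.W_7d29a1_HZ Pool.Agent.W_7d29a1_HZ.R72
open Pool.Agent.W_7d29a1_HZ.Z86
open Pool.Agent.W_7d29a1_C0.Eta3
open Pool.Agent.W_7d29a1_C0.Mod92
open Pool.W7d29a1.C0
open Pool.W7d29a1.C0.VT31 Pool.W7d29a1.C0.S1 Pool.W7d29a1.C0.R43
open Pool.Agent.W_7d29a1_C0 Pool.Agent.W_7d29a1_C0.Base5 Pool.Agent.W_7d29a1_C0.BasRow33
open Pool.Agent.W_7d29a1_C0.Row96 Pool.Agent.W_7d29a1_C0.Asm96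
open Pool.Agent.W_7d29a1_C0.Frm33 Pool.Agent.W_7d29a1_C0.SS3

noncomputable section

variable {μ : Measure ℝ} {s : ℝ} {K : ℕ}

/-- **The model form of the pair sum**, the statement of `pair42` (helper42). -/
def PM42 (μ : Measure ℝ) (s : ℝ) : Prop := ∀ ε θ : ℝ, 0 < ε → 0 < θ → ∃ δ κ c₂ : ℝ, 0 < δ ∧ 0 < κ ∧ 0 < c₂ ∧
    ∃ L₀ : ℕ, ∀ L : ℕ, L₀ ≤ L → ∀ N : ℕ, L ≤ 16 * N → N ≤ L → ∀ y : ℕ, y ≤ N → |(y : ℝ) - sl μ s * N| ≤ ((L : ℝ) ^ δ * wd' μ s N) →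
    ∀ a0 a b C D r ρ : ℕ, (L : ℝ) ^ θ ≤ a → 2 * a0 ≤ a → 2 * a ≤ b → b ≤ ρ → ρ ≤ N → D ≤ N →
    ∀ R : Finset ℕ, (∀ j ∈ R, r ≤ j ∧ j < r + ρ ∧ C + b ≤ j ∧ j + b ≤ D) → ∀ M : ℝ, 8 ≤ M → M ≤ (L : ℝ) ^ κ →
    ∫ ω, gm (wm μ s N (Pn N y) ω) (fun x => (∑ j ∈ R,
      tI (wm μ s N (Pn N y) ω) (pJ (j - b) (j + b)) (j - a) (j - a0) (j + a0) (j + a) M x *
        tI (wm μ s N (Pn N y) ω) (pJ C D) (j - b) (j - a) (j + a) (j + b) M x) ^ 2) ∂(Pm μ N) ≤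
      (L : ℝ) ^ ε * (ρ * b * (EE' μ s a)⁻¹ + (ρ ^ 2 * ((EE' μ s a)⁻¹ * (EE' μ s b)⁻¹) ^ 2 +
        ρ ^ 2 * (EE' μ s ρ)⁻¹ * ((EE' μ s a)⁻¹ * (EE' μ s a)⁻¹))) +
      (Real.exp (-(L : ℝ) ^ c₂) + 100 * (N + 1) ^ 3 * Real.exp (-M))

/-- The tiny terms. -/
theorem err_ev44 (hK : 1 ≤ K) {β c₂ A : ℝ} (hβ : 0 < β) (hc₂ : 0 < c₂) (hA : 0 ≤ A) : ∀ᶠ m : ℕ in atTop,
    A * (Real.exp (-(L33 K m : ℝ) ^ c₂) + (L33 K m : ℝ) ^ 5 * Real.exp (-((2 ^ m : ℕ) : ℝ) ^ (2 * β))) ≤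
      ((2 ^ m : ℕ) : ℝ) ^ (-8 : ℝ) := by
  have hKr : (1 : ℝ) ≤ K := by exact_mod_cast hK
  have hr : 0 < 1 / (2 * (A + 1)) := by positivity
  filter_upwards [ev_exp3 (b := K * c₂) (by positivity) 8 hr, ev_exp3 (b := 2 * β) (by positivity) (5 * K + 8) hr] with m h1 h2
  obtain ⟨n, hn⟩ : ∃ n : ℝ, n = ((2 ^ m : ℕ) : ℝ) := ⟨_, rfl⟩
  have hn1 : 1 ≤ n := hn ▸ n_ge1 m
  have hn0 : 0 < n := by linarith
  have e1 : (L33 K m : ℝ) ^ c₂ = n ^ (K * c₂) := by rw [L33_pow, hn]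
  have e2 : (L33 K m : ℝ) = n ^ (K : ℝ) := by rw [L33_real, hn]
  have e8 : n ^ (-8 : ℝ) = (n ^ (8 : ℝ))⁻¹ := Real.rpow_neg hn0.le 8
  have h8 : 0 < n ^ (8 : ℝ) := by positivity
  rw [← hn] at h1 h2 ⊢
  rw [e1, e2, e8, ← one_div, le_div_iff₀ h8]
  have e3 : n ^ (5 * K + 8 : ℝ) = n ^ (8 : ℝ) * (n ^ (K : ℝ)) ^ 5 := by
    rw [← Real.rpow_natCast (n ^ (K : ℝ)), ← Real.rpow_mul hn0.le, ← Real.rpow_add hn0]
    congr 1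
    push_cast
    ring
  rw [e3] at h2
  have h3 : n ^ (8 : ℝ) * (Real.exp (-n ^ (K * c₂)) + (n ^ (K : ℝ)) ^ 5 * Real.exp (-n ^ (2 * β))) ≤
      1 / (2 * (A + 1)) + 1 / (2 * (A + 1)) := by
    have e : n ^ (8 : ℝ) * (Real.exp (-n ^ (K * c₂)) + (n ^ (K : ℝ)) ^ 5 * Real.exp (-n ^ (2 * β))) =
      n ^ (8 : ℝ) * Real.exp (-n ^ (K * c₂)) + n ^ (8 : ℝ) * (n ^ (K : ℝ)) ^ 5 * Real.exp (-n ^ (2 * β)) := by ring
    rw [e]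
    exact add_le_add h1 h2
  have h4 := mul_le_mul_of_nonneg_left h3 hA
  have h5 : A * (1 / (2 * (A + 1)) + 1 / (2 * (A + 1))) ≤ 1 := by
    have e : A * (1 / (2 * (A + 1)) + 1 / (2 * (A + 1))) = A / (A + 1) := by field_simp; norm_num
    rw [e, div_le_one (by positivity)]
    linarith
  calc _ = A * (n ^ (8 : ℝ) * (Real.exp (-n ^ (K * c₂)) + (n ^ (K : ℝ)) ^ 5 * Real.exp (-n ^ (2 * β)))) := by ring
    _ ≤ 1 := h4.trans h5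

/-- The numbers of one block. -/
theorem xi_num44 {n ε₁ σ β u v w : ℝ} (hn : 1 ≤ n) (hε₁ : 0 < ε₁) (hσ : 0 ≤ σ) (hβ : 0 ≤ β) (hu : 0 < u) (hv : 0 < v) (hw : 0 < w) :
    n ^ (ε₁ / 2) * (σ * β * u⁻¹ + (σ ^ 2 * (u⁻¹ * v⁻¹) ^ 2 + σ ^ 2 * w⁻¹ * (u⁻¹ * u⁻¹))) ≤
      n ^ ε₁ * (σ * (β / u) + σ ^ 2 / (u * v) ^ 2 + σ ^ 2 / (w * u ^ 2)) := by
  have e : σ * β * u⁻¹ + (σ ^ 2 * (u⁻¹ * v⁻¹) ^ 2 + σ ^ 2 * w⁻¹ * (u⁻¹ * u⁻¹)) =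
      σ * (β / u) + σ ^ 2 / (u * v) ^ 2 + σ ^ 2 / (w * u ^ 2) := by
    field_simp
    ring
  rw [e]
  exact mul_le_mul_of_nonneg_right (Real.rpow_le_rpow_of_exponent_le hn (by linarith)) (by positivity)

/-- **THE PAIR SUM OF THE DOUBLE TIE AT THE CONCRETE FRAME.** -/
theorem xi44 [IsProbabilityMeasure μ] {c₁ C : ℝ} {n₀ : ℕ} (h : In μ s c₁ C n₀) (hPM : PM42 μ s) (hk : KapLe96 (EE μ s) (1 / 4))
    (hK : 32 ≤ K) {δ c ε₁ : ℝ} (hδ : 0 < δ) (hc : 0 < c) (hcδ : 64 * c ≤ δ) (hε₁ : 0 < ε₁) :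
    Par92.Est fun ι β γ m => XI44 μ s (frm33 μ s K ι β γ) (EE μ s) δ c ε₁ (((2 ^ m : ℕ) : ℝ) ^ (2 * β)) m := by
  have hKr : (0 : ℝ) < K := by exact_mod_cast (show 0 < K by omega)
  obtain ⟨δ', κ, c₂, hδ', hκ, hc₂, L₀, hS⟩ := hPM (ε₁ / 2 / K) (δ / 4 / K) (by positivity) (by positivity)
  refine ⟨δ / 16, by positivity, fun ι hι hιδ => ⟨K * κ / 2, by positivity, fun β hβ hβκ => Par92.Sml.of fun γ _ => ?_⟩⟩
  have hmι : ∀ᶠ m : ℕ in atTop, 1 ≤ m := eventually_ge_atTop 1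
  have hmδ : ∀ᶠ m : ℕ in atTop, 1 / δ ≤ (m : ℝ) := tendsto_natCast_atTop_atTop.eventually_ge_atTop _
  filter_upwards [ev_L (by omega : 1 ≤ K) L₀, cone33 h hK hδ', deep33_ev h hk hδ hc.le (by linarith) hιδ,
    ev_n (show 0 < 2 * β by positivity) 8, err_ev44 (K := K) (A := 800) (by omega) hβ hc₂ (by norm_num), hmι, hmδ,
    b0_33 hδ (show ι ≤ δ / 4 by linarith)] with m g1 g2 g3 g4 g5 g6 g7 g8
  intro p q k hst hk' y hy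
  have hn1 : (1 : ℝ) ≤ ((2 ^ m : ℕ) : ℝ) := n_ge1 m
  obtain ⟨σ, hσ⟩ : ∃ σ : ℕ, σ = 2 ^ sg96 (EE μ s) c m p := ⟨_, rfl⟩
  have hσ0 : 0 < σ := by
    rw [hσ]
    positivity
  have hDp : Deep (R33 ι m) (4 * 2 ^ p) σ := by
    rw [hσ]
    exact g3 p hst.hp (hst.hsq.trans hst.hqm)
  -- the end
  have hyL : y ≤ L33 K m ∧ |(y : ℝ) - sl μ s * L33 K m| ≤ (L33 K m : ℝ) ^ δ' * wd' μ s (L33 K m) := by
    have h1 := mem_Ico.1 (show y ∈ Ico (y33 μ s K m) (y33 μ s K m + M33 m) from hy)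
    exact g2.2.2 y (by omega) (by omega)
  have hp0 : 1 ≤ p := by
    have h1 : (1 : ℝ) ≤ p := by
      have h2 : 1 ≤ δ * m := by
        rw [div_le_iff₀ hδ] at g7
        linarith
      exact h2.trans hst.hp
    exact_mod_cast h1
  have hb0 : 2 * 2 ^ (p - ⌈ι * (m : ℝ)⌉₊) ≤ 2 ^ p := by
    have h1 : 1 ≤ ⌈ι * (m : ℝ)⌉₊ := Nat.one_le_ceil_iff.2 (by
      have : (1 : ℝ) ≤ m := by exact_mod_cast g6
      positivity)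
    calc 2 * 2 ^ (p - ⌈ι * (m : ℝ)⌉₊) ≤ 2 * 2 ^ (p - 1) := Nat.mul_le_mul_left _ (Nat.pow_le_pow_right two_pos (by omega))
      _ = 2 ^ (p - 1 + 1) := by
          rw [pow_succ]
          ring
      _ = 2 ^ p := by rw [Nat.sub_add_cancel hp0]
  have hbL : (L33 K m : ℝ) ^ (δ / 4 / K) ≤ ((2 ^ (p - ⌈ι * (m : ℝ)⌉₊) : ℕ) : ℝ) := by
    rw [L33_pow, mul_div_cancel₀ _ hKr.ne']
    exact g8 p hst.hp
  have hrow : ∀ j ∈ Rw (R33 ι m) (k * σ) ((k + 1) * σ), j / σ = k ∧ k * σ + 4 * 2 ^ p ≤ j ∧ j + 4 * 2 ^ p ≤ (k + 1) * σ := fun j hj => by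
    have h1 := hDp.in_block hσ0 (Dvd.intro_left k rfl) (Dvd.intro_left (k + 1) rfl) hj
    unfold Rw at hj
    rw [mem_inter, mem_Ico] at hj
    exact ⟨Nat.div_eq_of_lt_le (by linarith [hj.2.1]) hj.2.2, h1.1, h1.2⟩
  have hmL : 2 ^ m ≤ L33 K m := L33_ge (by omega) m
  rw [← hσ] at hk'
  obtain ⟨β0, hβ0⟩ : ∃ β0 : ℕ, β0 = 2 ^ (p - ⌈ι * (m : ℝ)⌉₊) := ⟨_, rfl⟩
  rw [← hβ0] at hb0 hbL
  have h5 : (k + 1) * σ = k * σ + σ := by ring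
  have hpσ : 2 ^ p ≤ σ := by
    rw [hσ]
    exact Nat.pow_le_pow_right two_pos hst.hps
  have h1 := hS (L33 K m) g1 (L33 K m) (by omega) le_rfl y hyL.1 hyL.2 0 β0 (2 ^ p) (k * σ) ((k + 1) * σ) (k * σ) σ
    hbL (by omega) hb0 hpσ (by omega) (hk'.trans hmL) (Rw (R33 ι m) (k * σ) ((k + 1) * σ)) (fun j hj => by
      have h4 := (hrow j hj).2
      have h6 : 0 < 2 ^ p := by positivity
      omega)
    (((2 ^ m : ℕ) : ℝ) ^ (2 * β)) g4 (by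
      rw [L33_pow]
      exact Real.rpow_le_rpow_of_exponent_le hn1 (by linarith))
  have hne : Nonempty (Px (Pn (L33 K m) y)) := ne_Pn hyL.1
  have e0 : (fun ω : Env × Finset ℕ => gm (wm μ s (L33 K m) (Pn (L33 K m) y) ω) (fun x => A5 0 β0 (2 ^ p) σ (R33 ι m) k
      (((2 ^ m : ℕ) : ℝ) ^ (2 * β)) (wm μ s (L33 K m) (Pn (L33 K m) y) ω) x ^ 2)) =
      fun ω => gm (wm μ s (L33 K m) (Pn (L33 K m) y) ω) (fun x => (∑ j ∈ Rw (R33 ι m) (k * σ) ((k + 1) * σ),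
        tI (wm μ s (L33 K m) (Pn (L33 K m) y) ω) (pJ (j - 2 ^ p) (j + 2 ^ p)) (j - β0) (j - 0) (j + 0) (j + β0)
          (((2 ^ m : ℕ) : ℝ) ^ (2 * β)) x *
        tI (wm μ s (L33 K m) (Pn (L33 K m) y) ω) (pJ (k * σ) ((k + 1) * σ)) (j - 2 ^ p) (j - β0) (j + β0) (j + 2 ^ p)
          (((2 ^ m : ℕ) : ℝ) ^ (2 * β)) x) ^ 2) := by
    funext ω
    congr 1
    funext x
    congr 1
    unfold A5
    refine sum_congr rfl fun j hj => ?_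
    have e1 := (hrow j hj).1
    have e2 : (pB σ j : Px (Pn (L33 K m) y) → Finset ℕ × ℕ) = pJ (k * σ) ((k + 1) * σ) := by
      unfold pB
      rw [e1, add_mul, one_mul]
    unfold a5
    rw [e2]
  have h2 := h1
  rw [← e0] at h2
  have eL : (L33 K m : ℝ) ^ (ε₁ / 2 / K) = ((2 ^ m : ℕ) : ℝ) ^ (ε₁ / 2) := by
    rw [L33_pow, mul_div_cancel₀ _ hKr.ne']
  have eE : ∀ t, EE' μ s t = EE μ s t := fun t => EE'_eq46 s t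
  have hEp : ∀ t, 0 < EE μ s t := fun t => by
    rw [← eE]
    exact lt_of_lt_of_le zero_lt_one (le_max_left _ _)
  simp only [eL, eE] at h2
  have h3 := xi_num44 (β := ((2 ^ p : ℕ) : ℝ)) (σ := σ) hn1 hε₁ (Nat.cast_nonneg σ) (Nat.cast_nonneg _) (hEp β0) (hEp (2 ^ p)) (hEp σ)
  have hL1 : (1 : ℝ) ≤ L33 K m := by
    have : (1 : ℕ) ≤ L33 K m := le_trans Nat.one_le_two_pow hmL
    exact_mod_cast this
  have g5' : Real.exp (-(L33 K m : ℝ) ^ c₂) + 100 * ((L33 K m : ℝ) + 1) ^ 3 * Real.exp (-((2 ^ m : ℕ) : ℝ) ^ (2 * β)) ≤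
      ((2 ^ m : ℕ) : ℝ) ^ (-8 : ℝ) := by
    refine le_trans ?_ g5
    have f1 : ((L33 K m : ℝ) + 1) ^ 3 ≤ 8 * (L33 K m : ℝ) ^ 5 := by
      have f2 : ((L33 K m : ℝ) + 1) ^ 3 ≤ (2 * (L33 K m : ℝ)) ^ 3 := pow_le_pow_left₀ (by positivity) (by linarith) 3
      have f3 : (L33 K m : ℝ) ^ 3 ≤ (L33 K m : ℝ) ^ 5 := pow_le_pow_right₀ hL1 (by norm_num)
      calc _ ≤ _ := f2
        _ = 8 * (L33 K m : ℝ) ^ 3 := by ring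
        _ ≤ _ := by linarith
    have f4 : 0 ≤ Real.exp (-(L33 K m : ℝ) ^ c₂) := (Real.exp_pos _).le
    have f5 := mul_le_mul_of_nonneg_right f1 (Real.exp_pos (-((2 ^ m : ℕ) : ℝ) ^ (2 * β))).le
    linarith
  have h4 := h2.trans (add_le_add h3 g5')
  have e3 : ((σ : ℕ) : ℝ) = 2 ^ sg96 (EE μ s) c m p := by
    rw [hσ]
    push_cast
    rfl
  have e4 : ((2 ^ p : ℕ) : ℝ) = 2 ^ p := by
    push_cast
    rfl
  rw [e3, e4] at h4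
  rw [hσ, hβ0] at h4
  exact h4

end

end Pool.Agent.W_7d29a1_C0.X2b44
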