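import Pool.Agent.W_7d29a1_C0.X2X44

/-!
MP_7d29a1_pr, [CURV0] (helper44), leaf X2N, the end: **`x2L44`**: the field `x2` of `XtB33` (the second moment of the double tie at the
concrete frame) from the model form `PM42` of the pair sum.
-/

set_option autoImplicit false

namespace Pool.Agent.W_7d29a1_C0.X2b44

open MeasureTheory Filter Topology Finset
open Pool.Agent.W_7d29a1_H (EE)
open Pool.Agent.W_7d29a1_HS (In)
open Pool.Agent.W_7d29a1_C0 Pool.Agent.W_7d29a1_C0.Asm96 Pool.Agent.W_7d29a1_C0.Frm33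
open Pool.Agent.W_7d29a1_C0.Par92 (Sml Est)

noncomputable section

variable {μ : Measure ℝ} {s : ℝ} {K : ℕ}

/-- **THE PAIR SUM AT THE CONCRETE FRAME**, all exponents. -/
theorem xiL44 [IsProbabilityMeasure μ] {c₁ C : ℝ} {n₀ : ℕ} (h : In μ s c₁ C n₀) (hPM : PM42 μ s) (hk : KapLe96 (EE μ s) (1 / 4))
    (hK : 32 ≤ K) :
    Sml fun δ => Sml fun c => ∀ ε₁ : ℝ, 0 < ε₁ → Est fun ι β γ m =>
      XI44 μ s (frm33 μ s K ι β γ) (EE μ s) δ c ε₁ (((2 ^ m : ℕ) : ℝ) ^ (2 * β)) m :=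
  Sml.of fun δ hδ => (Sml.le (show 0 < δ / 64 by positivity)).mono fun _ hc hcc _ hε₁ => xi44 h hPM hk hK hδ hc (by linarith) hε₁

/-- **THE SECOND MOMENT OF THE DOUBLE TIE AT THE CONCRETE FRAME.** -/
theorem x2L44 [IsProbabilityMeasure μ] {c₁ C : ℝ} {n₀ : ℕ} (h : In μ s c₁ C n₀) (hPM : PM42 μ s) (hk : KapLe96 (EE μ s) (1 / 4))
    (hK : 32 ≤ K) {Θ c₀ : ℝ} (hΘ : 0 < Θ) (hΘ1 : Θ ≤ 1) (hR : RegP46 μ s c₀ Θ) :
    Sml fun δ => Sml fun c => ∃ x : ℝ, 0 < x ∧ Est fun ι β γ m => EstD44.X2N μ s (frm33 μ s K ι β γ) (EE μ s) Θ δ c x m := by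
  refine Sml.of fun δ hδ => ((Sml.le (show 0 < δ / 64 by positivity)).and (Sml.le (show 0 < Θ / 16 by positivity))).mono
    fun c hc hcc => ?_
  obtain ⟨h1, h2⟩ := hcc
  refine ⟨c / 2, by positivity, ?_⟩
  obtain ⟨ε₁, hε⟩ : ∃ ε₁ : ℝ, ε₁ = min 1 (c / 16) := ⟨_, rfl⟩
  have hε₁ : 0 < ε₁ := by
    rw [hε]
    exact lt_min one_pos (by positivity)
  have hε₁' : ε₁ ≤ 1 := by
    rw [hε]
    exact min_le_left _ _
  have hε₁c : ε₁ ≤ c / 16 := by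
    rw [hε]
    exact min_le_right _ _
  exact x2nB44 h hk hK hR hΘ hΘ1 hδ hc (by linarith) (by linarith) hε₁ hε₁' hε₁c
    (xi44 h hPM hk hK hδ hc (by linarith) hε₁)

end

end Pool.Agent.W_7d29a1_C0.X2b44
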