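import Pool.Agent.W_7d29a1_C0.X2Z44

/-!
MP_7d29a1_pr, [CURV0] (helper44): THE PAIR SUM `XI3` OF THE CHANGE OF BASE AT THE CONCRETE FRAME from the same model form `PM42` of the
pair sum.
-/

set_option autoImplicit false
set_option linter.unusedSectionVars false

namespace Pool.Agent.W_7d29a1_C0.X2b44

open MeasureTheory ProbabilityTheory Filter Topology Finset
open Pool.Agent.W_7d29a1_F Pool.Agent.W_7d29a1_X Pool.Agent.W_7d29a1_H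
open Pool.Agent.W_7d29a1_HS (In wd md)
open Pool.Agent.W_7d29a1_HZ Pool.Agent.W_7d29a1_HZ.R72
open Pool.Agent.W_7d29a1_HZ.Z86
open Pool.Agent.W_7d29a1_C0.Eta3
open Pool.Agent.W_7d29a1_C0.Mod92
open Pool.W7d29a1.C0
open Pool.W7d29a1.C0.VT31 Pool.W7d29a1.C0.S1 Pool.W7d29a1.C0.R43
open Pool.Agent.W_7d29a1_C0 Pool.Agent.W_7d29a1_C0.Base5 Pool.Agent.W_7d29a1_C0.BasRow33
open Pool.Agent.W_7d29a1_C0.Row96 Pool.Agent.W_7d29a1_C0.Asm96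
open Pool.Agent.W_7d29a1_C0.Frm33
open Pool.Agent.W_7d29a1_C0.Par92 (Sml Est)

noncomputable section

variable {μ : Measure ℝ} {s : ℝ} {K : ℕ}

/-- **THE PAIR SUM OF THE CHANGE OF BASE AT THE CONCRETE FRAME.** -/
theorem xi3_44 [IsProbabilityMeasure μ] {c₁ C : ℝ} {n₀ : ℕ} (h : In μ s c₁ C n₀) (hPM : PM42 μ s) (hk : KapLe96 (EE μ s) (1 / 4))
    (hK : 32 ≤ K) {Θ δ c η ε₁ : ℝ} (hδ : 0 < δ) (hc : 0 < c) (hcδ : 64 * c ≤ δ) (hη : 0 ≤ η) (hε₁ : 0 < ε₁) :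
    Est fun ι β γ m => XI3 μ s (frm33 μ s K ι β γ) (EE μ s) Θ δ c η ε₁ (((2 ^ m : ℕ) : ℝ) ^ (2 * β)) m := by
  have hKr : (0 : ℝ) < K := by exact_mod_cast (show 0 < K by omega)
  obtain ⟨δ', κ, c₂, hδ', hκ, hc₂, L₀, hS⟩ := hPM (ε₁ / 2 / K) (δ / K) (by positivity) (by positivity)
  refine ⟨δ / 16, by positivity, fun ι hι hιδ => ⟨K * κ / 2, by positivity, fun β hβ hβκ => Par92.Sml.of fun γ _ => ?_⟩⟩
  have hmι : ∀ᶠ m : ℕ in atTop, 1 ≤ m := eventually_ge_atTop 1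
  have hmδ : ∀ᶠ m : ℕ in atTop, 1 / δ ≤ (m : ℝ) := tendsto_natCast_atTop_atTop.eventually_ge_atTop _
  filter_upwards [ev_L (by omega : 1 ≤ K) L₀, cone33 h hK hδ', deep33_ev h hk hδ hc.le (by linarith) hιδ,
    ev_n (show 0 < 2 * β by positivity) 8, err_ev44 (K := K) (A := 800) (by omega) hβ hc₂ (by norm_num), hmι, hmδ]
    with m g1 g2 g3 g4 g5 g6 g7
  intro p p' q k hC hpp hk' y hy
  obtain ⟨hsq', hqm⟩ := chg_le33 hC hc.le hη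
  have hn1 : (1 : ℝ) ≤ ((2 ^ m : ℕ) : ℝ) := n_ge1 m
  obtain ⟨σ, hσ⟩ : ∃ σ : ℕ, σ = 2 ^ sg96 (EE μ s) c m p' := ⟨_, rfl⟩
  have hσ0 : 0 < σ := by
    rw [hσ]
    positivity
  have hDp : Deep (R33 ι m) (4 * 2 ^ p') σ := by
    rw [hσ]
    exact g3 p' (hC.hp.trans (by exact_mod_cast hC.hpp)) (hsq'.trans hqm)
  -- the end
  have hyL : y ≤ L33 K m ∧ |(y : ℝ) - sl μ s * L33 K m| ≤ (L33 K m : ℝ) ^ δ' * wd' μ s (L33 K m) := by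
    have h1 := mem_Ico.1 (show y ∈ Ico (y33 μ s K m) (y33 μ s K m + M33 m) from hy)
    exact g2.2.2 y (by omega) (by omega)
  have hp0 : 1 ≤ p := by
    have h1 : (1 : ℝ) ≤ p := by
      have h2 : 1 ≤ δ * m := by
        rw [div_le_iff₀ hδ] at g7
        linarith
      exact h2.trans hC.hp
    exact_mod_cast h1
  have hb0 : 2 * 2 ^ (p - ⌈ι * (m : ℝ)⌉₊) ≤ 2 ^ p := by
    have h1 : 1 ≤ ⌈ι * (m : ℝ)⌉₊ := Nat.one_le_ceil_iff.2 (by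
      have : (1 : ℝ) ≤ m := by exact_mod_cast g6
      positivity)
    calc 2 * 2 ^ (p - ⌈ι * (m : ℝ)⌉₊) ≤ 2 * 2 ^ (p - 1) := Nat.mul_le_mul_left _ (Nat.pow_le_pow_right two_pos (by omega))
      _ = 2 ^ (p - 1 + 1) := by
          rw [pow_succ]
          ring
      _ = 2 ^ p := by rw [Nat.sub_add_cancel hp0]
  have hbb : 2 * 2 ^ p ≤ 2 ^ p' := by
    calc 2 * 2 ^ p = 2 ^ (p + 1) := by
          rw [pow_succ]
          ring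
      _ ≤ 2 ^ p' := Nat.pow_le_pow_right two_pos hpp
  have hbL : (L33 K m : ℝ) ^ (δ / K) ≤ ((2 ^ p : ℕ) : ℝ) := by
    rw [L33_pow, mul_div_cancel₀ _ hKr.ne']
    exact two_ge hC.hp
  have hrow : ∀ j ∈ Rw (R33 ι m) (k * σ) ((k + 1) * σ), j / σ = k ∧ k * σ + 4 * 2 ^ p' ≤ j ∧ j + 4 * 2 ^ p' ≤ (k + 1) * σ := fun j hj => by
    have h1 := hDp.in_block hσ0 (Dvd.intro_left k rfl) (Dvd.intro_left (k + 1) rfl) hj
    unfold Rw at hj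
    rw [mem_inter, mem_Ico] at hj
    exact ⟨Nat.div_eq_of_lt_le (by linarith [hj.2.1]) hj.2.2, h1.1, h1.2⟩
  have hmL : 2 ^ m ≤ L33 K m := L33_ge (by omega) m
  rw [← hσ] at hk'
  obtain ⟨β0, hβ0⟩ : ∃ β0 : ℕ, β0 = 2 ^ (p - ⌈ι * (m : ℝ)⌉₊) := ⟨_, rfl⟩
  rw [← hβ0] at hb0
  have h5 : (k + 1) * σ = k * σ + σ := by ring
  have hpσ : 2 ^ p' ≤ σ := by
    rw [hσ]
    exact Nat.pow_le_pow_right two_pos hC.hps'
  have h1 := hS (L33 K m) g1 (L33 K m) (by omega) le_rfl y hyL.1 hyL.2 β0 (2 ^ p) (2 ^ p') (k * σ) ((k + 1) * σ) (k * σ) σ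
    hbL hb0 hbb hpσ (by omega) (hk'.trans hmL) (Rw (R33 ι m) (k * σ) ((k + 1) * σ)) (fun j hj => by
      have h4 := (hrow j hj).2
      have h6 : 0 < 2 ^ p' := by positivity
      omega)
    (((2 ^ m : ℕ) : ℝ) ^ (2 * β)) g4 (by
      rw [L33_pow]
      exact Real.rpow_le_rpow_of_exponent_le hn1 (by linarith))
  have hne : Nonempty (Px (Pn (L33 K m) y)) := ne_Pn hyL.1
  have e0 : (fun ω : Env × Finset ℕ => gm (wm μ s (L33 K m) (Pn (L33 K m) y) ω) (fun x => A5 β0 (2 ^ p) (2 ^ p') σ (R33 ι m) k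
      (((2 ^ m : ℕ) : ℝ) ^ (2 * β)) (wm μ s (L33 K m) (Pn (L33 K m) y) ω) x ^ 2)) =
      fun ω => gm (wm μ s (L33 K m) (Pn (L33 K m) y) ω) (fun x => (∑ j ∈ Rw (R33 ι m) (k * σ) ((k + 1) * σ),
        tI (wm μ s (L33 K m) (Pn (L33 K m) y) ω) (pJ (j - 2 ^ p') (j + 2 ^ p')) (j - 2 ^ p) (j - β0) (j + β0) (j + 2 ^ p)
          (((2 ^ m : ℕ) : ℝ) ^ (2 * β)) x *
        tI (wm μ s (L33 K m) (Pn (L33 K m) y) ω) (pJ (k * σ) ((k + 1) * σ)) (j - 2 ^ p') (j - 2 ^ p) (j + 2 ^ p) (j + 2 ^ p')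
          (((2 ^ m : ℕ) : ℝ) ^ (2 * β)) x) ^ 2) := by
    funext ω
    congr 1
    funext x
    congr 1
    unfold A5
    refine sum_congr rfl fun j hj => ?_
    have e1 := (hrow j hj).1
    have e2 : (pB σ j : Px (Pn (L33 K m) y) → Finset ℕ × ℕ) = pJ (k * σ) ((k + 1) * σ) := by
      unfold pB
      rw [e1, add_mul, one_mul]
    unfold a5
    rw [e2]
  have h2 := h1
  rw [← e0] at h2
  have eL : (L33 K m : ℝ) ^ (ε₁ / 2 / K) = ((2 ^ m : ℕ) : ℝ) ^ (ε₁ / 2) := by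
    rw [L33_pow, mul_div_cancel₀ _ hKr.ne']
  have eE : ∀ t, EE' μ s t = EE μ s t := fun t => EE'_eq46 s t
  have hEp : ∀ t, 0 < EE μ s t := fun t => by
    rw [← eE]
    exact lt_of_lt_of_le zero_lt_one (le_max_left _ _)
  simp only [eL, eE] at h2
  have h3 := xi_num44 (β := ((2 ^ p' : ℕ) : ℝ)) (σ := σ) hn1 hε₁ (Nat.cast_nonneg σ) (Nat.cast_nonneg _) (hEp (2 ^ p)) (hEp (2 ^ p')) (hEp σ)
  have hL1 : (1 : ℝ) ≤ L33 K m := by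
    have : (1 : ℕ) ≤ L33 K m := le_trans Nat.one_le_two_pow hmL
    exact_mod_cast this
  have g5' : Real.exp (-(L33 K m : ℝ) ^ c₂) + 100 * ((L33 K m : ℝ) + 1) ^ 3 * Real.exp (-((2 ^ m : ℕ) : ℝ) ^ (2 * β)) ≤
      ((2 ^ m : ℕ) : ℝ) ^ (-8 : ℝ) := by
    refine le_trans ?_ g5
    have f1 : ((L33 K m : ℝ) + 1) ^ 3 ≤ 8 * (L33 K m : ℝ) ^ 5 := by
      have f2 : ((L33 K m : ℝ) + 1) ^ 3 ≤ (2 * (L33 K m : ℝ)) ^ 3 := pow_le_pow_left₀ (by positivity) (by linarith) 3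
      have f3 : (L33 K m : ℝ) ^ 3 ≤ (L33 K m : ℝ) ^ 5 := pow_le_pow_right₀ hL1 (by norm_num)
      calc _ ≤ _ := f2
        _ = 8 * (L33 K m : ℝ) ^ 3 := by ring
        _ ≤ _ := by linarith
    have f4 : 0 ≤ Real.exp (-(L33 K m : ℝ) ^ c₂) := (Real.exp_pos _).le
    have f5 := mul_le_mul_of_nonneg_right f1 (Real.exp_pos (-((2 ^ m : ℕ) : ℝ) ^ (2 * β))).le
    linarith
  have h4 := h2.trans (add_le_add h3 g5')
  have e3 : ((σ : ℕ) : ℝ) = 2 ^ sg96 (EE μ s) c m p' := by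
    rw [hσ]
    push_cast
    rfl
  have e4 : ((2 ^ p' : ℕ) : ℝ) = 2 ^ p' := by
    push_cast
    rfl
  rw [e3, e4] at h4
  rw [hσ, hβ0] at h4
  exact h4

/-- **THE PAIR SUM OF THE CHANGE OF BASE**, all exponents. -/
theorem xi3L44 [IsProbabilityMeasure μ] {c₁ C : ℝ} {n₀ : ℕ} (h : In μ s c₁ C n₀) (hPM : PM42 μ s) (hk : KapLe96 (EE μ s) (1 / 4))
    (hK : 32 ≤ K) (Θ : ℝ) :
    Sml fun δ => Sml fun c => ∀ η : ℝ, 0 < η → ∀ ε₁ : ℝ, 0 < ε₁ → Est fun ι β γ m =>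
      XI3 μ s (frm33 μ s K ι β γ) (EE μ s) Θ δ c η ε₁ (((2 ^ m : ℕ) : ℝ) ^ (2 * β)) m :=
  Sml.of fun δ hδ => (Sml.le (show 0 < δ / 64 by positivity)).mono fun _ hc hcc _ hη _ hε₁ =>
    xi3_44 h hPM hk hK hδ hc (by linarith) hη.le hε₁

end

end Pool.Agent.W_7d29a1_C0.X2b44
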