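import Pool.Agent.W_7d29a1_C0.PairM32
import Pool.Agent.W_7d29a1_C0.Reg33

/-!
MP_7d29a1_pr, [C0] (helper32): THE PAIR SUM AT THE CONCRETE FRAME. `xi33`: the input `XI3` of `rb33` (Eta3D) from the pair sum `PairM`.
-/

set_option autoImplicit false
set_option linter.unusedSectionVars false

namespace Pool.Agent.W_7d29a1_C0.PA32

open MeasureTheory ProbabilityTheory Filter Topology Finset
open Pool.Agent.W_7d29a1_F Pool.Agent.W_7d29a1_X Pool.Agent.W_7d29a1_H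
open Pool.Agent.W_7d29a1_HS (In wd md)
open Pool.Agent.W_7d29a1_HZ Pool.Agent.W_7d29a1_HZ.R72
open Pool.Agent.W_7d29a1_HZ.Z86
open Pool.Agent.W_7d29a1_C0.Eta3
open Pool.Agent.W_7d29a1_C0.Mod92
open Pool.W7d29a1.C0
open Pool.W7d29a1.C0.VT31 Pool.W7d29a1.C0.S1 Pool.W7d29a1.C0.R43
open Pool.Agent.W_7d29a1_C0 Pool.Agent.W_7d29a1_C0.Base5 Pool.Agent.W_7d29a1_C0.BasRow33
open Pool.Agent.W_7d29a1_C0.Row96 Pool.Agent.W_7d29a1_C0.Asm96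
open Pool.Agent.W_7d29a1_C0.Frm33


noncomputable section

variable {μ : Measure ℝ} {s : ℝ} {K : ℕ}

/-! ### Numbers -/

/-- The sum of the inverse roots. -/
theorem sum_root (n : ℕ) : ∑ t ∈ Icc 1 n, (Real.sqrt t)⁻¹ ≤ 2 * Real.sqrt n := by
  induction n with
  | zero => simp
  | succ n ih =>
    rw [Finset.sum_Icc_succ_top (by omega)]
    have h0 : 0 ≤ Real.sqrt n := Real.sqrt_nonneg _
    have h1 : 0 < Real.sqrt ((n + 1 : ℕ) : ℝ) := Real.sqrt_pos.2 (by positivity)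
    have e0 : Real.sqrt n ^ 2 = n := Real.sq_sqrt (Nat.cast_nonneg _)
    have e1 : Real.sqrt ((n + 1 : ℕ) : ℝ) ^ 2 = n + 1 := by
      rw [Real.sq_sqrt (Nat.cast_nonneg _)]
      push_cast
      rfl
    obtain ⟨a, ha⟩ : ∃ a, a = Real.sqrt n := ⟨_, rfl⟩
    obtain ⟨b, hb⟩ : ∃ b, b = Real.sqrt ((n + 1 : ℕ) : ℝ) := ⟨_, rfl⟩
    rw [← ha] at h0 e0 ih
    rw [← hb] at h1 e1 ⊢
    have h2 : b⁻¹ ≤ 2 * b - 2 * a := by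
      rw [inv_le_iff_one_le_mul₀ h1]
      nlinarith [sq_nonneg (b - a)]
    linarith

/-- The sum over the far pairs of a block of length `σ`. -/
theorem sum_far {E : ℕ → ℝ} {X : ℝ} {n β r₀ : ℕ} {R : Finset ℕ} (hβ : 1 ≤ β) (hR : R ⊆ Ico r₀ (r₀ + n)) (hn : 1 ≤ n) (hX : 0 ≤ X) (hE : ∀ t, 0 < E t)
    (h : ∀ t : ℕ, 1 ≤ t → t ≤ n → E n ≤ X * Real.sqrt ((n : ℝ) / t) * E t) :
    ∑ p ∈ Fp R β, (E (p.2 - p.1))⁻¹ ≤ 2 * X * n ^ 2 / E n := by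
  have hcard : (R.card : ℝ) ≤ n := by
    have h1 := card_le_card hR
    rw [Nat.card_Ico, Nat.add_sub_cancel_left] at h1
    exact_mod_cast h1
  have h1 : ∀ t : ℕ, 1 ≤ t → t ≤ n → (E t)⁻¹ ≤ X * Real.sqrt n * (Real.sqrt t)⁻¹ / E n := fun t h1 h2 => by
    have h3 := h t h1 h2
    rw [Real.sqrt_div (Nat.cast_nonneg _), div_eq_mul_inv, ← mul_assoc] at h3
    rw [le_div_iff₀ (hE n), inv_mul_le_iff₀ (hE t)]
    linarith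
  have h2 : ∑ p ∈ Fp R β, (E (p.2 - p.1))⁻¹ ≤ ∑ j ∈ R, ∑ t ∈ Icc 1 n, X * Real.sqrt n * (Real.sqrt t)⁻¹ / E n := by
    have e : ∀ p ∈ Fp R β, p.1 ∈ R ∧ p.2 ∈ R ∧ p.1 + 64 * β ≤ p.2 ∧ p.2 - p.1 ≤ n := fun p hp => by
      unfold Fp at hp
      rw [mem_filter, mem_product] at hp
      have a1 := mem_Ico.1 (hR hp.1.1)
      have a2 := mem_Ico.1 (hR hp.1.2)
      exact ⟨hp.1.1, hp.1.2, hp.2, by omega⟩
    have h3 : ∑ p ∈ Fp R β, (E (p.2 - p.1))⁻¹ ≤ ∑ p ∈ Fp R β, X * Real.sqrt n * (Real.sqrt ((p.2 - p.1 : ℕ) : ℝ))⁻¹ / E n :=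
      sum_le_sum fun p hp => by
        obtain ⟨-, -, a3, a4⟩ := e p hp
        exact h1 _ (by omega) a4
    refine h3.trans ?_
    have h4 : ∑ p ∈ Fp R β, X * Real.sqrt n * (Real.sqrt ((p.2 - p.1 : ℕ) : ℝ))⁻¹ / E n =
        ∑ p ∈ (Fp R β).image (fun p : ℕ × ℕ => (p.1, p.2 - p.1)), X * Real.sqrt n * (Real.sqrt ((p.2 : ℕ) : ℝ))⁻¹ / E n := by
      rw [sum_image]
      intro p hp q hq hpq
      obtain ⟨-, -, a3, -⟩ := e p hp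
      obtain ⟨-, -, b3, -⟩ := e q hq
      simp only [Prod.mk.injEq] at hpq
      ext
      · exact hpq.1
      · omega
    rw [h4, ← sum_product' (s := R) (t := Icc 1 n) (f := fun (_ t : ℕ) => X * Real.sqrt n * (Real.sqrt t)⁻¹ / E n)]
    refine sum_le_sum_of_subset_of_nonneg (fun q hq => ?_) fun q _ _ => by
      have := hE n
      positivity
    obtain ⟨p, hp, rfl⟩ := mem_image.1 hq
    obtain ⟨a1, -, a3, a4⟩ := e p hp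
    exact mem_product.2 ⟨a1, mem_Icc.2 ⟨by omega, a4⟩⟩
  refine h2.trans ?_
  rw [sum_const, nsmul_eq_mul, ← sum_div, ← mul_sum]
  have h5 := sum_root n
  have h6 : Real.sqrt n * Real.sqrt n = n := Real.mul_self_sqrt (Nat.cast_nonneg _)
  rw [← mul_div_assoc]
  refine div_le_div_of_nonneg_right ?_ (hE n).le
  have h7 : 0 ≤ Real.sqrt n := Real.sqrt_nonneg _
  calc (R.card : ℝ) * (X * Real.sqrt n * ∑ t ∈ Icc 1 n, (Real.sqrt t)⁻¹) ≤ n * (X * Real.sqrt n * (2 * Real.sqrt n)) :=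
        mul_le_mul hcard (mul_le_mul_of_nonneg_left h5 (by positivity)) (by
          have : 0 ≤ ∑ t ∈ Icc 1 n, (Real.sqrt (t : ℝ))⁻¹ := sum_nonneg fun t _ => by positivity
          positivity) (by positivity)
    _ = 2 * X * n * (Real.sqrt n * Real.sqrt n) := by ring
    _ = 2 * X * n ^ 2 := by
        rw [h6]
        ring

/-- The tiny terms. -/
theorem errX_ev (hK : 1 ≤ K) {β c₂ : ℝ} (hβ : 0 < β) (hc₂ : 0 < c₂) : ∀ᶠ m : ℕ in atTop,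
    Real.exp (-(L33 K m : ℝ) ^ c₂) + ((L33 K m : ℝ) + 2) ^ 8 * Real.exp (-((2 ^ m : ℕ) : ℝ) ^ (2 * β)) ≤
      ((2 ^ m : ℕ) : ℝ) ^ (-8 : ℝ) := by
  have hKr : (1 : ℝ) ≤ K := by exact_mod_cast hK
  filter_upwards [ev_exp3 (b := K * c₂) (by positivity) 8 (r := 1 / 2) (by norm_num),
    ev_exp3 (b := 2 * β) (by positivity) (8 * K + 8) (r := 1 / 13122) (by norm_num)] with m h1 h2
  obtain ⟨n, hn⟩ : ∃ n : ℝ, n = ((2 ^ m : ℕ) : ℝ) := ⟨_, rfl⟩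
  have hn1 : 1 ≤ n := hn ▸ n_ge1 m
  have hn0 : 0 < n := lt_of_lt_of_le one_pos hn1
  have e1 : (L33 K m : ℝ) ^ c₂ = n ^ (K * c₂) := by rw [L33_pow, hn]
  have e2 : (L33 K m : ℝ) = n ^ (K : ℝ) := by rw [L33_real, hn]
  have hL1 : (1 : ℝ) ≤ n ^ (K : ℝ) := Real.one_le_rpow hn1 (by positivity)
  have e8 : n ^ (-8 : ℝ) = (n ^ (8 : ℝ))⁻¹ := Real.rpow_neg hn0.le 8
  rw [← hn] at h1 h2 ⊢
  rw [e1, e2, e8, ← one_div, le_div_iff₀ (Real.rpow_pos_of_pos hn0 _)]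
  have e3 : n ^ (8 * K + 8 : ℝ) = n ^ (8 : ℝ) * (n ^ (K : ℝ)) ^ 8 := by
    rw [← Real.rpow_natCast, ← Real.rpow_mul hn0.le, ← Real.rpow_add hn0]
    congr 1
    push_cast
    ring
  rw [e3] at h2
  obtain ⟨z, hz⟩ : ∃ z, z = n ^ (8 : ℝ) := ⟨_, rfl⟩
  have hz0 : 0 ≤ z := hz ▸ Real.rpow_nonneg hn0.le _
  obtain ⟨y, hy⟩ : ∃ y, y = n ^ (K : ℝ) := ⟨_, rfl⟩
  rw [← hy] at hL1 h2 ⊢
  rw [← hz] at h1 h2 ⊢
  obtain ⟨t, ht⟩ : ∃ t, t = Real.exp (-n ^ (2 * β)) := ⟨_, rfl⟩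
  have ht0 : 0 ≤ t := ht ▸ (Real.exp_pos _).le
  rw [← ht] at h2 ⊢
  have h3 : (y + 2) ^ 8 ≤ 6561 * y ^ 8 := by
    calc (y + 2) ^ 8 ≤ (3 * y) ^ 8 := pow_le_pow_left₀ (by linarith) (by linarith) 8
      _ = 6561 * y ^ 8 := by ring
  have h4 : (y + 2) ^ 8 * t * z ≤ 6561 * y ^ 8 * t * z :=
    mul_le_mul_of_nonneg_right (mul_le_mul_of_nonneg_right h3 ht0) hz0
  have h5 : 6561 * y ^ 8 * t * z = 6561 * (z * y ^ 8 * t) := by ring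
  rw [add_mul]
  linarith

/-- **THE PAIR SUM AT THE CONCRETE FRAME**: the input `XI3` of `rb33`. -/
theorem xi33 [IsProbabilityMeasure μ] {c₁ C : ℝ} {n₀ : ℕ} (hP : PairM μ s) (h : In μ s c₁ C n₀) (hk : KapLe96 (EE μ s) (1 / 4)) (hK : 32 ≤ K)
    {c₀ Θ δ c η ε₁ : ℝ} (hR : RegP46 μ s c₀ Θ) (hδ : 0 < δ) (hc : 0 < c) (hcδ : 64 * c ≤ δ) (hη : 0 ≤ η) (hε₁ : 0 < ε₁) :
    Par92.Est fun ι β γ m => XI3 μ s (frm33 μ s K ι β γ) (EE μ s) Θ δ c η ε₁ (((2 ^ m : ℕ) : ℝ) ^ (2 * β)) m := by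
  have hKr : (0 : ℝ) < K := by exact_mod_cast (show 0 < K by omega)
  obtain ⟨δ', κ, c₂, hδ', hκ, hc₂, L₀, hS⟩ := hP (ε₁ / 4 / K) (δ / K) (by positivity) (by positivity)
  obtain ⟨a, -, -, hReg⟩ := hR.est hδ (k := 1) one_pos
  have e1 : Par92.Est fun ι β γ m => (0 < ι ∧ ι ≤ δ / 16 ∧ ι ≤ ε₁ / 4 ∧ 0 < β ∧ β ≤ K * κ / 2) ∧ L₀ ≤ L33 K m ∧
      (2 ≤ y33 μ s K m ∧ y33 μ s K m + M33 m + 1 ≤ L33 K m ∧ ∀ y : ℕ, y33 μ s K m ≤ y + 1 →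
        y ≤ y33 μ s K m + M33 m → y ≤ L33 K m ∧ |(y : ℝ) - sl μ s * L33 K m| ≤ (L33 K m : ℝ) ^ δ' * wd' μ s (L33 K m)) ∧
      (∀ p : ℕ, δ * m ≤ p → sg96 (EE μ s) c m p ≤ m → Deep (R33 ι m) (4 * 2 ^ p) (2 ^ sg96 (EE μ s) c m p)) ∧
      8 ≤ ((2 ^ m : ℕ) : ℝ) ^ (2 * β) ∧
      Real.exp (-(L33 K m : ℝ) ^ c₂) + ((L33 K m : ℝ) + 2) ^ 8 * Real.exp (-((2 ^ m : ℕ) : ℝ) ^ (2 * β)) ≤ ((2 ^ m : ℕ) : ℝ) ^ (-8 : ℝ) ∧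
      1 ≤ m ∧ 1 / δ ≤ (m : ℝ) ∧ 2 ≤ ((2 ^ m : ℕ) : ℝ) ^ (ε₁ / 4) := by
    refine ⟨min (δ / 16) (ε₁ / 4), by positivity, fun ι hι hιδ => ⟨K * κ / 2, by positivity, fun β hβ hβκ => Par92.Sml.of fun γ _ => ?_⟩⟩
    have i1 : ι ≤ δ / 16 := hιδ.trans (min_le_left _ _)
    have i2 : ι ≤ ε₁ / 4 := hιδ.trans (min_le_right _ _)
    have hmδ : ∀ᶠ m : ℕ in atTop, 1 / δ ≤ (m : ℝ) := tendsto_natCast_atTop_atTop.eventually_ge_atTop _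
    filter_upwards [ev_L (by omega : 1 ≤ K) L₀, cone33 h hK hδ', deep33_ev h hk hδ hc.le (by linarith) i1,
      ev_n (show 0 < 2 * β by positivity) 8, errX_ev (K := K) (by omega) hβ hc₂, eventually_ge_atTop 1, hmδ,
      ev_n (show 0 < ε₁ / 4 by positivity) 2] with m g1 g2 g3 g4 g5 g6 g7 g8
    exact ⟨⟨hι, i1, i2, hβ, hβκ⟩, g1, g2, g3, g4, g5, g6, g7, g8⟩
  refine (e1.and hReg).mono fun ι β γ _ _ _ => Eventually.of_forall fun m hm => ?_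
  obtain ⟨⟨⟨hι, -, hιε, hβ, hβκ⟩, g1, g2, g3, g4, g5, g6, g7, g8⟩, hreg, -⟩ := hm
  intro p p' q k hC hpp hk' y hy
  obtain ⟨hsq', hqm⟩ := chg_le33 hC hc.le hη
  have hn1 : (1 : ℝ) ≤ ((2 ^ m : ℕ) : ℝ) := n_ge1 m
  obtain ⟨σ, hσ⟩ : ∃ σ : ℕ, σ = 2 ^ sg96 (EE μ s) c m p' := ⟨_, rfl⟩
  have hσ0 : 0 < σ := by
    rw [hσ]
    positivity
  have hDp : Deep (R33 ι m) (4 * 2 ^ p') σ := by
    rw [hσ]
    exact g3 p' (hC.hp.trans (by exact_mod_cast hC.hpp)) (hsq'.trans hqm)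
  have hyL : y ≤ L33 K m ∧ |(y : ℝ) - sl μ s * L33 K m| ≤ (L33 K m : ℝ) ^ δ' * wd' μ s (L33 K m) := by
    have h1 := mem_Ico.1 (show y ∈ Ico (y33 μ s K m) (y33 μ s K m + M33 m) from hy)
    exact g2.2.2 y (by omega) (by omega)
  have hp0 : 1 ≤ p := by
    have h1 : (1 : ℝ) ≤ p := by
      have h2 : 1 ≤ δ * m := by
        rw [div_le_iff₀ hδ] at g7
        linarith
      exact h2.trans hC.hp
    exact_mod_cast h1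
  have hb0 : 2 * 2 ^ (p - ⌈ι * (m : ℝ)⌉₊) ≤ 2 ^ p := by
    have h1 : 1 ≤ ⌈ι * (m : ℝ)⌉₊ := Nat.one_le_ceil_iff.2 (by
      have : (1 : ℝ) ≤ m := by exact_mod_cast g6
      positivity)
    calc 2 * 2 ^ (p - ⌈ι * (m : ℝ)⌉₊) ≤ 2 * 2 ^ (p - 1) := Nat.mul_le_mul_left _ (Nat.pow_le_pow_right two_pos (by omega))
      _ = 2 ^ (p - 1 + 1) := by
          rw [pow_succ]
          ring
      _ = 2 ^ p := by rw [Nat.sub_add_cancel hp0]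
  have hbb : 2 * 2 ^ p ≤ 2 ^ p' := by
    calc 2 * 2 ^ p = 2 ^ (p + 1) := by
          rw [pow_succ]
          ring
      _ ≤ 2 ^ p' := Nat.pow_le_pow_right two_pos hpp
  have hbL : (L33 K m : ℝ) ^ (δ / K) ≤ ((2 ^ p : ℕ) : ℝ) := by
    rw [L33_pow, mul_div_cancel₀ _ hKr.ne']
    exact two_ge hC.hp
  have hrow : ∀ j ∈ Rw (R33 ι m) (k * σ) ((k + 1) * σ), j / σ = k ∧ k * σ + 4 * 2 ^ p' ≤ j ∧ j + 4 * 2 ^ p' ≤ (k + 1) * σ := fun j hj => by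
    have h1 := hDp.in_block hσ0 (Dvd.intro_left k rfl) (Dvd.intro_left (k + 1) rfl) hj
    unfold Rw at hj
    rw [mem_inter, mem_Ico] at hj
    exact ⟨Nat.div_eq_of_lt_le (by linarith [hj.2.1]) hj.2.2, h1.1, h1.2⟩
  have hmL : 2 ^ m ≤ L33 K m := L33_ge (by omega) m
  rw [← hσ] at hk'
  have hne : Nonempty (Px (Pn (L33 K m) y)) := ne_Pn hyL.1
  obtain ⟨M, hM⟩ : ∃ M : ℝ, M = ((2 ^ m : ℕ) : ℝ) ^ (2 * β) := ⟨_, rfl⟩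
  have h1 := hS (L33 K m) g1 (L33 K m) (by omega) le_rfl y hyL.1 hyL.2 (k * σ) ((k + 1) * σ) (2 ^ (p - ⌈ι * (m : ℝ)⌉₊)) (2 ^ p) (2 ^ p')
    hb0 hbb hbL (Nat.mul_le_mul_right _ (by omega)) (hk'.trans hmL) (Rw (R33 ι m) (k * σ) ((k + 1) * σ)) (fun j hj => (hrow j hj).2)
    M (hM ▸ g4) (by
      rw [L33_pow, hM]
      exact Real.rpow_le_rpow_of_exponent_le hn1 (by linarith)) (fun _ _ => 1) (fun _ => measurable_const) (fun _ _ => zero_le_one)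
      (fun _ _ => le_rfl) (fun _ _ _ _ _ => rfl)
  have hA : ∀ (ω : Env × Finset ℕ) (x : Px (Pn (L33 K m) y)),
      A5 (2 ^ (p - ⌈ι * (m : ℝ)⌉₊)) (2 ^ p) (2 ^ p') σ (R33 ι m) k M (wm μ s (L33 K m) (Pn (L33 K m) y) ω) x =
        ∑ j ∈ Rw (R33 ι m) (k * σ) ((k + 1) * σ), dbl (wm μ s (L33 K m) (Pn (L33 K m) y) ω) (k * σ) ((k + 1) * σ)
          (2 ^ (p - ⌈ι * (m : ℝ)⌉₊)) (2 ^ p) (2 ^ p') j M x := fun ω x => by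
    unfold A5
    refine sum_congr rfl fun j hj => ?_
    have e1 := (hrow j hj).1
    have e2 : (pB σ j : Px (Pn (L33 K m) y) → Finset ℕ × ℕ) = pJ (k * σ) ((k + 1) * σ) := by
      unfold pB
      rw [e1, add_mul, one_mul]
    unfold a5 dbl
    rw [e2]
  have e0 : ∫ ω, gm (wm μ s (L33 K m) (Pn (L33 K m) y) ω) (fun x => A5 (2 ^ (p - ⌈ι * (m : ℝ)⌉₊)) (2 ^ p) (2 ^ p') σ (R33 ι m) k M
      (wm μ s (L33 K m) (Pn (L33 K m) y) ω) x ^ 2) ∂(Pm μ (L33 K m)) =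
      ∫ ω, gm (wm μ s (L33 K m) (Pn (L33 K m) y) ω) (fun x => 1 * (∑ j ∈ Rw (R33 ι m) (k * σ) ((k + 1) * σ),
        dbl (wm μ s (L33 K m) (Pn (L33 K m) y) ω) (k * σ) ((k + 1) * σ) (2 ^ (p - ⌈ι * (m : ℝ)⌉₊)) (2 ^ p) (2 ^ p') j M x) ^ 2)
          ∂(Pm μ (L33 K m)) := by
    congr 1
    funext ω
    congr 1
    funext x
    rw [hA, one_mul]
  have e00 : ∫ ω, gm (wm μ s (L33 K m) (Pn (L33 K m) y) ω) (fun _ => (1 : ℝ)) ∂(Pm μ (L33 K m)) = 1 := by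
    simp only [Pool.W7d29a1.C0.gm_const]
    simp
  -- numbers
  obtain ⟨n, hn⟩ : ∃ n : ℝ, n = ((2 ^ m : ℕ) : ℝ) := ⟨_, rfl⟩
  have hn0 : 0 < n := by
    rw [hn]
    exact lt_of_lt_of_le one_pos hn1
  have hE1 : ∀ t, 0 < EE μ s t := fun t => EE_pos t
  have hE' : ∀ t, (EE' μ s t)⁻¹ ≤ (EE μ s t)⁻¹ := fun t => inv_anti₀ (hE1 t) (le_max_right _ _)
  have hE'0 : ∀ t, 0 ≤ (EE' μ s t)⁻¹ := fun t => (inv_pos.2 (lt_of_lt_of_le zero_lt_one (le_max_left _ _))).le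
  have hfar : ∑ r ∈ Fp (Rw (R33 ι m) (k * σ) ((k + 1) * σ)) (2 ^ p'), (EE' μ s (r.2 - r.1))⁻¹ ≤
      2 * n ^ (1 * ι) * (σ : ℝ) ^ 2 / EE μ s σ := by
    refine (sum_le_sum fun r _ => hE' _).trans (sum_far (r₀ := k * σ) (n := σ) Nat.one_le_two_pow (fun j hj => ?_) hσ0
      (Real.rpow_nonneg hn0.le _) hE1 fun t h1 h2 => ?_)
    · have h1 := hrow j hj
      have h2 := Nat.one_le_two_pow (n := p')
      rw [add_mul, one_mul] at h1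
      rw [mem_Ico]
      omega
    · rw [hn]
      exact hreg.half t σ h1 h2
  have hι4 : n ^ (1 * ι) ≤ n ^ (ε₁ / 4) := by
    rw [one_mul]
    exact Real.rpow_le_rpow_of_exponent_le (hn ▸ hn1) hιε
  obtain ⟨z, hz⟩ : ∃ z, z = n ^ (ε₁ / 4) := ⟨_, rfl⟩
  have hz2 : 2 ≤ z := by
    rw [hz, hn]
    exact g8
  have hz4 : n ^ ε₁ = z ^ 4 := by
    rw [hz, ← Real.rpow_natCast, ← Real.rpow_mul hn0.le]
    congr 1
    push_cast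
    ring
  have e3 : (L33 K m : ℝ) ^ (ε₁ / 4 / K) = z := by
    rw [L33_pow, mul_div_cancel₀ _ hKr.ne', hz, hn]
  have e4 : (k + 1) * σ - k * σ = σ := by
    rw [add_mul, one_mul, Nat.add_sub_cancel_left]
  have e5 : (2 : ℝ) ^ sg96 (EE μ s) c m p' = (σ : ℝ) := by
    rw [hσ]
    push_cast
    rfl
  show ∫ ω, gm (wm μ s (L33 K m) (Pn (L33 K m) y) ω) (fun x => A5 (2 ^ (p - ⌈ι * (m : ℝ)⌉₊)) (2 ^ p) (2 ^ p')
      (2 ^ sg96 (EE μ s) c m p') (R33 ι m) k (((2 ^ m : ℕ) : ℝ) ^ (2 * β)) (wm μ s (L33 K m) (Pn (L33 K m) y) ω) x ^ 2) ∂(Pm μ (L33 K m)) ≤ _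
  rw [← hσ, e5, ← hM, e0]
  refine h1.trans (add_le_add ?_ (hM ▸ g5))
  rw [e00, mul_one, e3, e4, ← hn, hz4]
  obtain ⟨Eb, hEb⟩ : ∃ x, x = EE μ s (2 ^ p) := ⟨_, rfl⟩
  obtain ⟨Ec, hEc⟩ : ∃ x, x = EE μ s (2 ^ p') := ⟨_, rfl⟩
  obtain ⟨Es, hEs⟩ : ∃ x, x = EE μ s σ := ⟨_, rfl⟩
  have p1 : 0 < Eb := hEb ▸ hE1 _
  have p2 : 0 < Ec := hEc ▸ hE1 _
  have p3 : 0 < Es := hEs ▸ hE1 _
  have a1 : (EE' μ s (2 ^ p))⁻¹ ≤ Eb⁻¹ := hEb ▸ hE' _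
  have a2 : (EE' μ s (2 ^ p'))⁻¹ ≤ Ec⁻¹ := hEc ▸ hE' _
  have a3 := hE'0 (2 ^ p)
  have a4 := hE'0 (2 ^ p')
  rw [← hEb, ← hEc, ← hEs]
  rw [← hEs] at hfar
  have hfar2 : ∑ r ∈ Fp (Rw (R33 ι m) (k * σ) ((k + 1) * σ)) (2 ^ p'), (EE' μ s (r.2 - r.1))⁻¹ ≤ 2 * z * (σ : ℝ) ^ 2 / Es := by
    refine hfar.trans (div_le_div_of_nonneg_right ?_ p3.le)
    have : n ^ (1 * ι) ≤ z := hz ▸ hι4
    have h5 : 0 ≤ (σ : ℝ) ^ 2 := by positivity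
    nlinarith
  have hz0 : 0 ≤ z := by linarith
  have hσr : (0 : ℝ) ≤ σ := Nat.cast_nonneg _
  have hf0 : 0 ≤ ∑ r ∈ Fp (Rw (R33 ι m) (k * σ) ((k + 1) * σ)) (2 ^ p'), (EE' μ s (r.2 - r.1))⁻¹ := sum_nonneg fun r _ => hE'0 _
  have b1 : z * ((σ : ℝ) * ((2 ^ p' : ℕ) : ℝ) * (EE' μ s (2 ^ p))⁻¹ * (EE' μ s (2 ^ p'))⁻¹) ≤ z ^ 4 * (σ * (2 ^ p' / Eb)) := by
    have h6 : z ≤ z ^ 4 := le_self_pow₀ (by linarith) (by norm_num)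
    have h7 : (EE' μ s (2 ^ p'))⁻¹ ≤ 1 := inv_le_one_of_one_le₀ (le_max_left _ _)
    calc z * ((σ : ℝ) * ((2 ^ p' : ℕ) : ℝ) * (EE' μ s (2 ^ p))⁻¹ * (EE' μ s (2 ^ p'))⁻¹) ≤
          z ^ 4 * ((σ : ℝ) * ((2 ^ p' : ℕ) : ℝ) * Eb⁻¹ * 1) :=
          mul_le_mul h6 (mul_le_mul (mul_le_mul_of_nonneg_left a1 (by positivity)) h7 a4 (by positivity)) (by positivity) (by positivity)
      _ = z ^ 4 * (σ * (2 ^ p' / Eb)) := by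
          push_cast
          rw [mul_one, div_eq_mul_inv, mul_assoc (σ : ℝ)]
  have b2 : z * ((σ : ℝ) * (EE' μ s (2 ^ p))⁻¹ * (EE' μ s (2 ^ p'))⁻¹) ^ 2 ≤ z ^ 4 * ((σ : ℝ) ^ 2 / (Eb * Ec) ^ 2) := by
    have h6 : z ≤ z ^ 4 := le_self_pow₀ (by linarith) (by norm_num)
    calc z * ((σ : ℝ) * (EE' μ s (2 ^ p))⁻¹ * (EE' μ s (2 ^ p'))⁻¹) ^ 2 ≤ z ^ 4 * ((σ : ℝ) * Eb⁻¹ * Ec⁻¹) ^ 2 :=
          mul_le_mul h6 (pow_le_pow_left₀ (by positivity) (mul_le_mul (mul_le_mul_of_nonneg_left a1 hσr) a2 a4 (by positivity)) 2)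
            (by positivity) (by positivity)
      _ = z ^ 4 * ((σ : ℝ) ^ 2 / (Eb * Ec) ^ 2) := by
          field_simp
  have b3 : z * ((EE' μ s (2 ^ p))⁻¹ ^ 2 * ∑ r ∈ Fp (Rw (R33 ι m) (k * σ) ((k + 1) * σ)) (2 ^ p'), (EE' μ s (r.2 - r.1))⁻¹) ≤
      z ^ 4 * ((σ : ℝ) ^ 2 / (Es * Eb ^ 2)) := by
    have h7 : 4 ≤ z ^ 2 := by nlinarith only [hz2]
    have h6 : 2 * z ^ 2 ≤ z ^ 4 := by
      have h8 : z ^ 4 = z ^ 2 * z ^ 2 := by ring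
      rw [h8]
      nlinarith only [h7]
    calc z * ((EE' μ s (2 ^ p))⁻¹ ^ 2 * ∑ r ∈ Fp (Rw (R33 ι m) (k * σ) ((k + 1) * σ)) (2 ^ p'), (EE' μ s (r.2 - r.1))⁻¹) ≤
          z * (Eb⁻¹ ^ 2 * (2 * z * (σ : ℝ) ^ 2 / Es)) :=
          mul_le_mul_of_nonneg_left (mul_le_mul (pow_le_pow_left₀ a3 a1 2) hfar2 hf0 (by positivity)) hz0
      _ = 2 * z ^ 2 * ((σ : ℝ) ^ 2 / (Es * Eb ^ 2)) := by
          field_simp
      _ ≤ z ^ 4 * ((σ : ℝ) ^ 2 / (Es * Eb ^ 2)) := mul_le_mul_of_nonneg_right h6 (by positivity)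
  have e6 : ∀ A B C : ℝ, z * (A + B + C) = z * A + z * B + z * C := fun A B C => by ring
  have e7 : ∀ A B C : ℝ, z ^ 4 * (A + B + C) = z ^ 4 * A + z ^ 4 * B + z ^ 4 * C := fun A B C => by ring
  rw [e6, e7]
  exact add_le_add (add_le_add b1 b2) b3

end

end Pool.Agent.W_7d29a1_C0.PA32
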